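import Pool.Agent.Work.MP_065141_co.K.EvCalc

/-!
# The functional of a row on the factors of a chain

A chain has vertices `y 0, …, y L` and `c 1, …, c L`, all distinct. Its factor is the product over
`j < L` of `1 + h * a_(y (j+1)) * (a_(y j) - a_(c (j+1)))`.

`Ev_head`, `Ev_tail`: the factors on which a polynomial does not depend can be removed.
`Ev_ch_y`, `Ev_ch_c`, `Ev_ch_yy`, `Ev_ch_yc`, `Ev_ch_cy`, `Ev_ch_cc`: exact values (any `w`, `h`).
`St`: the state of a polynomial along the chain, with its rules.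
-/

set_option autoImplicit false
set_option linter.unusedSectionVars false
open scoped Classical
open Finset MvPolynomial

namespace Pool.Gauss

variable {A : Type} [CommRing A] {Y : Type}

/-! ### rules for the functional -/

lemma X_mem_supp {s : Set Y} {y : Y} (hy : y ∈ s) : (X y : MvPolynomial Y A) ∈ supported A s :=
  Algebra.subset_adjoin (Set.mem_image_of_mem _ hy)

lemma C_mem_supp (s : Set Y) (c : A) : (C c : MvPolynomial Y A) ∈ supported A s := by
  rw [← algebraMap_eq]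
  exact Subalgebra.algebraMap_mem _ _

lemma Ev_mul_sq (w : A) (P : MvPolynomial Y A) (y : Y) :
    Ev w (P * X y ^ 2) = w * Ev w (P * X y) := by
  rw [mul_comm P, mul_comm P, Ev_X_sq_mul]

lemma Ev_mul_X (w : A) {s : Set Y} {P : MvPolynomial Y A} (hP : P ∈ supported A s) {y : Y}
    (hy : y ∉ s) : Ev w (P * X y) = (w - 1) * Ev w P := by
  rw [Ev_mul w (t := {y}) (Set.disjoint_singleton_right.2 hy) hP
    (X_mem_supp (Set.mem_singleton y)), Ev_X]
  ring

lemma Ev_antisymm (w : A) {s : Set Y} {P : MvPolynomial Y A} (hP : P ∈ supported A s) {u v : Y}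
    (hu : u ∉ s) (hv : v ∉ s) : Ev w (P * (X u - X v)) = 0 := by
  rw [mul_sub, map_sub, Ev_mul_X w hP hu, Ev_mul_X w hP hv, sub_self]

/-! ### chains -/

/-- the vertices of a chain -/
structure ChainV (L : ℕ) (y c : ℕ → Y) : Prop where
  yinj : ∀ j ≤ L, ∀ k ≤ L, y j = y k → j = k
  cinj : ∀ j < L, ∀ k < L, c (j + 1) = c (k + 1) → j = k
  yc : ∀ j ≤ L, ∀ k < L, y j ≠ c (k + 1)

/-- the difference in the factor of an edge of the chain -/
noncomputable def Dch (h : A) (y c : ℕ → Y) (j : ℕ) : MvPolynomial Y A :=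
  C h * (X (y (j + 1)) * (X (y j) - X (c (j + 1))))

/-- the factor of a part of a chain -/
noncomputable def Fch (h : A) (y c : ℕ → Y) (a b : ℕ) : MvPolynomial Y A :=
  ∏ j ∈ Ico a b, (1 + Dch h y c j)

variable {L : ℕ} {y c : ℕ → Y}

lemma Fch_self (h : A) (y c : ℕ → Y) (a : ℕ) : Fch h y c a a = 1 := by
  rw [Fch, Ico_self, prod_empty]

lemma Fch_mul (h : A) (y c : ℕ → Y) {a b d : ℕ} (hab : a ≤ b) (hbd : b ≤ d) :
    Fch h y c a b * Fch h y c b d = Fch h y c a d :=
  prod_Ico_consecutive _ hab hbd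

lemma Fch_succ_left (h : A) (y c : ℕ → Y) {a b : ℕ} (hab : a < b) :
    Fch h y c a b = (1 + Dch h y c a) * Fch h y c (a + 1) b := by
  rw [Fch, Fch, Finset.prod_eq_prod_Ico_succ_bot hab]

lemma Fch_succ_right (h : A) (y c : ℕ → Y) {a b : ℕ} (hab : a ≤ b) :
    Fch h y c a (b + 1) = Fch h y c a b * (1 + Dch h y c b) := by
  rw [Fch, Fch, Finset.prod_Ico_succ_top hab]

lemma Dch_supported (h : A) (y c : ℕ → Y) (j : ℕ) {s : Set Y} (h1 : y (j + 1) ∈ s) (h2 : y j ∈ s)
    (h3 : c (j + 1) ∈ s) : Dch h y c j ∈ supported A s :=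
  mul_mem (C_mem_supp s h) (mul_mem (X_mem_supp h1) (sub_mem (X_mem_supp h2) (X_mem_supp h3)))

/-- the vertices of the part of the chain between `a` and `b` -/
def Vch (y c : ℕ → Y) (a b : ℕ) : Set Y :=
  {v | (∃ j, a ≤ j ∧ j ≤ b ∧ v = y j) ∨ ∃ j, a ≤ j ∧ j < b ∧ v = c (j + 1)}

lemma Fch_supported (h : A) (y c : ℕ → Y) (a b : ℕ) : Fch h y c a b ∈ supported A (Vch y c a b) := by
  apply prod_mem
  intro j hj
  rw [mem_Ico] at hj
  exact add_mem (one_mem _) (Dch_supported h y c j (Or.inl ⟨j + 1, by omega, by omega, rfl⟩)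
    (Or.inl ⟨j, by omega, by omega, rfl⟩) (Or.inr ⟨j, by omega, by omega, rfl⟩))

/-- **removing the head of a chain** -/
theorem Ev_chain_head (w h : A) (hc : ChainV L y c) {b : ℕ} (hb : b ≤ L) {s : Set Y}
    {P : MvPolynomial Y A} (hP : P ∈ supported A s) (h1 : ∀ j < b, y j ∉ s)
    (h2 : ∀ j < b, c (j + 1) ∉ s) : Ev w (Fch h y c 0 b * P) = Ev w P := by
  induction b generalizing s P with
  | zero => rw [Fch_self, one_mul]
  | succ b ih =>
    rw [Fch_succ_right h y c (Nat.zero_le b), mul_assoc, add_mul, one_mul, mul_add, map_add,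
      ih (by omega) hP (fun j hj => h1 j (by omega)) (fun j hj => h2 j (by omega))]
    have hsub : s ⊆ s ∪ {y (b + 1), y b, c (b + 1)} := Set.subset_union_left
    have h3 : Dch h y c b * P ∈ supported A (s ∪ {y (b + 1), y b, c (b + 1)}) :=
      mul_mem (Dch_supported h y c b (Or.inr (by simp)) (Or.inr (by simp)) (Or.inr (by simp)))
        (supported_mono hsub hP)
    rw [ih (by omega) h3 ?_ ?_]
    · have h4 : Dch h y c b * P = C h * ((X (y (b + 1)) * P) * (X (y b) - X (c (b + 1)))) := by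
        rw [Dch]
        ring
      rw [h4, Ev_C_mul, Ev_antisymm w (s := s ∪ {y (b + 1)})
        (mul_mem (X_mem_supp (Or.inr rfl)) (supported_mono Set.subset_union_left hP)), mul_zero,
        add_zero]
      · rintro (h5 | h5)
        · exact h1 b (by omega) h5
        · have := hc.yinj b (by omega) (b + 1) (by omega) h5
          omega
      · rintro (h5 | h5)
        · exact h2 b (by omega) h5
        · exact hc.yc (b + 1) (by omega) b (by omega) (Set.mem_singleton_iff.1 h5).symm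
    · intro j hj
      rintro (h5 | h5 | h5 | h5)
      · exact h1 j (by omega) h5
      · have := hc.yinj j (by omega) (b + 1) (by omega) h5
        omega
      · have := hc.yinj j (by omega) b (by omega) h5
        omega
      · exact hc.yc j (by omega) b (by omega) (Set.mem_singleton_iff.1 h5)
    · intro j hj
      rintro (h5 | h5 | h5 | h5)
      · exact h2 j (by omega) h5
      · exact hc.yc (b + 1) (by omega) j (by omega) h5.symm
      · exact hc.yc b (by omega) j (by omega) h5.symm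
      · have := hc.cinj j (by omega) b (by omega) (Set.mem_singleton_iff.1 h5)
        omega

/-- the sum of the powers `ρ ^ m`, `1 ≤ m ≤ n` -/
noncomputable def geoS (ρ : A) (n : ℕ) : A := ∑ m ∈ range n, ρ ^ (m + 1)

lemma geoS_zero (ρ : A) : geoS ρ 0 = 0 := by
  rw [geoS, sum_range_zero]

lemma geoS_succ (ρ : A) (n : ℕ) : geoS ρ (n + 1) = ρ + ρ * geoS ρ n := by
  rw [geoS, sum_range_succ', geoS, mul_sum, zero_add, pow_one, add_comm]
  congr 1
  apply sum_congr rfl
  intro m _
  ring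

/-! ### one step along a chain -/

/-- the discrepancy of a polynomial at the vertex `v` -/
noncomputable def dsc (w : A) (v : Y) (Q : MvPolynomial Y A) : A :=
  Ev w (Q * X v) - (w - 1) * Ev w Q

section step

variable (w h : A) {s : Set Y} {Q : MvPolynomial Y A} (hQ : Q ∈ supported A s) {j : ℕ}
  (hy : y (j + 1) ∉ s) (hv : c (j + 1) ∉ s) (hyy : y (j + 1) ≠ y j) (hyc : y (j + 1) ≠ c (j + 1))
  (hyc' : y j ≠ c (j + 1))

include hQ hy hv hyy hyc in
lemma step_one : Ev w (Q * (1 + Dch h y c j)) = Ev w Q + (w - 1) * h * dsc w (y j) Q := by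
  have g1 : Q * (1 + Dch h y c j) = Q + C h * ((Q * (X (y j) - X (c (j + 1)))) *
      X (y (j + 1))) := by
    rw [Dch]
    ring
  have g2 : Q * (X (y j) - X (c (j + 1))) ∈ supported A (s ∪ {y j, c (j + 1)}) :=
    mul_mem (supported_mono Set.subset_union_left hQ)
      (sub_mem (X_mem_supp (Or.inr (by simp))) (X_mem_supp (Or.inr (by simp))))
  have g3 : y (j + 1) ∉ s ∪ {y j, c (j + 1)} := by
    rintro (h5 | h5 | h5)
    · exact hy h5
    · exact hyy h5
    · exact hyc h5
  rw [g1, map_add, Ev_C_mul, Ev_mul_X w g2 g3, mul_sub, map_sub, Ev_mul_X w hQ hv, dsc]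
  ring

include hQ hy hv hyy hyc in
lemma step_X : Ev w (Q * (1 + Dch h y c j) * X (y (j + 1))) =
    (w - 1) * (Ev w Q + w * h * dsc w (y j) Q) := by
  have g1 : Q * (1 + Dch h y c j) * X (y (j + 1)) = Q * X (y (j + 1)) +
      C h * ((Q * (X (y j) - X (c (j + 1)))) * X (y (j + 1)) ^ 2) := by
    rw [Dch]
    ring
  have g2 : Q * (X (y j) - X (c (j + 1))) ∈ supported A (s ∪ {y j, c (j + 1)}) :=
    mul_mem (supported_mono Set.subset_union_left hQ)
      (sub_mem (X_mem_supp (Or.inr (by simp))) (X_mem_supp (Or.inr (by simp))))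
  have g3 : y (j + 1) ∉ s ∪ {y j, c (j + 1)} := by
    rintro (h5 | h5 | h5)
    · exact hy h5
    · exact hyy h5
    · exact hyc h5
  rw [g1, map_add, Ev_C_mul, Ev_mul_sq, Ev_mul_X w g2 g3, Ev_mul_X w hQ hy, mul_sub,
    map_sub, Ev_mul_X w hQ hv, dsc]
  ring

include hQ hy hv hyy hyc in
lemma dsc_step : dsc w (y (j + 1)) (Q * (1 + Dch h y c j)) = (w - 1) * h * dsc w (y j) Q := by
  rw [dsc, step_one w h hQ hy hv hyy hyc, step_X w h hQ hy hv hyy hyc]
  ring

include hQ hy hv hyy hyc in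
lemma dsc_step_X : dsc w (y (j + 1)) (Q * (1 + Dch h y c j) * X (y (j + 1))) =
    Ev w (Q * (1 + Dch h y c j) * X (y (j + 1))) := by
  rw [dsc, mul_assoc _ (X (y (j + 1))), ← pow_two, Ev_mul_sq]
  ring

include hQ hy hv hyy hyc hyc' in
lemma step_c : Ev w (Q * X (c (j + 1)) * (1 + Dch h y c j)) =
    (w - 1) * (Ev w Q + (w - 1) * h * (dsc w (y j) Q - Ev w Q)) := by
  have g1 : Q * X (c (j + 1)) * (1 + Dch h y c j) = Q * X (c (j + 1)) +
      C h * ((Q * X (y j) * X (c (j + 1)) - Q * X (c (j + 1)) ^ 2) * X (y (j + 1))) := by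
    rw [Dch]
    ring
  have m1 : (X (y j) : MvPolynomial Y A) ∈ supported A (s ∪ {y j, c (j + 1)}) :=
    X_mem_supp (Or.inr (Or.inl rfl))
  have m2 : (X (c (j + 1)) : MvPolynomial Y A) ∈ supported A (s ∪ {y j, c (j + 1)}) :=
    X_mem_supp (Or.inr (Or.inr rfl))
  have m3 : Q ∈ supported A (s ∪ {y j, c (j + 1)}) := supported_mono Set.subset_union_left hQ
  have g2 : Q * X (y j) * X (c (j + 1)) - Q * X (c (j + 1)) ^ 2 ∈
      supported A (s ∪ {y j, c (j + 1)}) :=
    sub_mem (mul_mem (mul_mem m3 m1) m2) (mul_mem m3 (pow_mem m2 2))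
  have g3 : y (j + 1) ∉ s ∪ {y j, c (j + 1)} := by
    rintro (h5 | h5 | h5)
    · exact hy h5
    · exact hyy h5
    · exact hyc h5
  have g4 : Q * X (y j) ∈ supported A (s ∪ {y j}) :=
    mul_mem (supported_mono Set.subset_union_left hQ) (X_mem_supp (Or.inr rfl))
  have g5 : c (j + 1) ∉ s ∪ {y j} := by
    rintro (h5 | h5)
    · exact hv h5
    · exact hyc' (Set.mem_singleton_iff.1 h5).symm
  rw [g1, map_add, Ev_C_mul, Ev_mul_X w g2 g3, map_sub, Ev_mul_sq, Ev_mul_X w g4 g5,
    Ev_mul_X w hQ hv, dsc]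
  ring

include hQ hy hv hyy hyc hyc' in
lemma step_c_X : Ev w (Q * X (c (j + 1)) * (1 + Dch h y c j) * X (y (j + 1))) =
    (w - 1) * ((w - 1) * (Ev w Q + w * h * (dsc w (y j) Q - Ev w Q))) := by
  have g1 : Q * X (c (j + 1)) * (1 + Dch h y c j) * X (y (j + 1)) =
      Q * X (c (j + 1)) * X (y (j + 1)) +
      C h * ((Q * X (y j) * X (c (j + 1)) - Q * X (c (j + 1)) ^ 2) * X (y (j + 1)) ^ 2) := by
    rw [Dch]
    ring
  have m1 : (X (y j) : MvPolynomial Y A) ∈ supported A (s ∪ {y j, c (j + 1)}) :=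
    X_mem_supp (Or.inr (Or.inl rfl))
  have m2 : (X (c (j + 1)) : MvPolynomial Y A) ∈ supported A (s ∪ {y j, c (j + 1)}) :=
    X_mem_supp (Or.inr (Or.inr rfl))
  have m3 : Q ∈ supported A (s ∪ {y j, c (j + 1)}) := supported_mono Set.subset_union_left hQ
  have g2 : Q * X (y j) * X (c (j + 1)) - Q * X (c (j + 1)) ^ 2 ∈
      supported A (s ∪ {y j, c (j + 1)}) :=
    sub_mem (mul_mem (mul_mem m3 m1) m2) (mul_mem m3 (pow_mem m2 2))
  have g3 : y (j + 1) ∉ s ∪ {y j, c (j + 1)} := by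
    rintro (h5 | h5 | h5)
    · exact hy h5
    · exact hyy h5
    · exact hyc h5
  have g4 : Q * X (y j) ∈ supported A (s ∪ {y j}) :=
    mul_mem (supported_mono Set.subset_union_left hQ) (X_mem_supp (Or.inr rfl))
  have g5 : c (j + 1) ∉ s ∪ {y j} := by
    rintro (h5 | h5)
    · exact hv h5
    · exact hyc' (Set.mem_singleton_iff.1 h5).symm
  have g6 : Q * X (c (j + 1)) ∈ supported A (s ∪ {c (j + 1)}) :=
    mul_mem (supported_mono Set.subset_union_left hQ) (X_mem_supp (Or.inr rfl))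
  have g7 : y (j + 1) ∉ s ∪ {c (j + 1)} := by
    rintro (h5 | h5)
    · exact hy h5
    · exact hyc h5
  rw [g1, map_add, Ev_C_mul, Ev_mul_sq, Ev_mul_X w g2 g3, Ev_mul_X w g6 g7, map_sub, Ev_mul_sq,
    Ev_mul_X w g4 g5, Ev_mul_X w hQ hv, dsc]
  ring

include hQ hy hv hyy hyc hyc' in
lemma dsc_step_c : dsc w (y (j + 1)) (Q * X (c (j + 1)) * (1 + Dch h y c j)) =
    (w - 1) * ((w - 1) * h * (dsc w (y j) Q - Ev w Q)) := by
  rw [dsc, step_c w h hQ hy hv hyy hyc hyc', step_c_X w h hQ hy hv hyy hyc hyc']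
  ring

end step

/-! ### propagation -/

lemma notMem_Vch_y (hc : ChainV L y c) {a b : ℕ} (hb : b < L) : y (b + 1) ∉ Vch y c a b := by
  rintro (⟨j, _, h2, h3⟩ | ⟨j, _, h2, h3⟩)
  · have := hc.yinj (b + 1) (by omega) j (by omega) h3
    omega
  · exact hc.yc (b + 1) (by omega) j (by omega) h3

lemma notMem_Vch_c (hc : ChainV L y c) {a b : ℕ} (hb : b < L) : c (b + 1) ∉ Vch y c a b := by
  rintro (⟨j, _, h2, h3⟩ | ⟨j, _, h2, h3⟩)
  · exact hc.yc j (by omega) b (by omega) h3.symm
  · have := hc.cinj b (by omega) j (by omega) h3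
    omega

/-- the hypothesis that a set does not meet the part of the chain beyond `y b` -/
def Beyond (y c : ℕ → Y) (b d : ℕ) (s : Set Y) : Prop :=
  (∀ j, b < j → j ≤ d → y j ∉ s) ∧ ∀ j, b ≤ j → j < d → c (j + 1) ∉ s

lemma Beyond.mono {b d : ℕ} {s : Set Y} (hs : Beyond y c b d s) {b' : ℕ} (h : b ≤ b') :
    Beyond y c b' d s :=
  ⟨fun j h1 h2 => hs.1 j (by omega) h2, fun j h1 h2 => hs.2 j (by omega) h2⟩

lemma Beyond.union_Vch (hc : ChainV L y c) {a b d : ℕ} {s : Set Y} (hs : Beyond y c b d s)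
    (hd : d ≤ L) (hbd : b ≤ d) : Beyond y c b d (s ∪ Vch y c a b) := by
  constructor
  · intro j h1 h2
    rintro (h3 | ⟨k, _, h5, h6⟩ | ⟨k, _, h5, h6⟩)
    · exact hs.1 j h1 h2 h3
    · have := hc.yinj j (by omega) k (by omega) h6
      omega
    · exact hc.yc j (by omega) k (by omega) h6
  · intro j h1 h2
    rintro (h3 | ⟨k, _, h5, h6⟩ | ⟨k, _, h5, h6⟩)
    · exact hs.2 j h1 h2 h3
    · exact hc.yc k (by omega) j (by omega) h6.symm
    · have := hc.cinj j (by omega) k (by omega) h6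
      omega

lemma Vch_mono {a b b' : ℕ} (h : b ≤ b') : Vch y c a b ⊆ Vch y c a b' := by
  rintro v (⟨j, h1, h2, h3⟩ | ⟨j, h1, h2, h3⟩)
  · exact Or.inl ⟨j, h1, by omega, h3⟩
  · exact Or.inr ⟨j, h1, by omega, h3⟩

/-- **propagation along a chain** -/
theorem Ev_state (w h : A) (hc : ChainV L y c) {b : ℕ} (n : ℕ) (hb : b + n ≤ L) {s : Set Y}
    {P : MvPolynomial Y A} (hP : P ∈ supported A s) (hs : Beyond y c b (b + n) s) :
    Ev w (P * Fch h y c b (b + n)) = Ev w P + geoS ((w - 1) * h) n * dsc w (y b) P ∧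
    dsc w (y (b + n)) (P * Fch h y c b (b + n)) = ((w - 1) * h) ^ n * dsc w (y b) P := by
  induction n with
  | zero =>
    rw [add_zero, Fch_self, mul_one, geoS_zero, zero_mul, add_zero, pow_zero, one_mul]
    exact ⟨rfl, rfl⟩
  | succ n ih =>
    obtain ⟨h1, h2⟩ := ih (by omega) ⟨fun j g1 g2 => hs.1 j g1 (by omega),
      fun j g1 g2 => hs.2 j g1 (by omega)⟩
    have hQ : P * Fch h y c b (b + n) ∈ supported A (s ∪ Vch y c b (b + n)) :=
      mul_mem (supported_mono Set.subset_union_left hP)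
        (supported_mono Set.subset_union_right (Fch_supported h y c b (b + n)))
    have g1 : y (b + n + 1) ∉ s ∪ Vch y c b (b + n) := by
      rintro (h3 | h3)
      · exact hs.1 (b + n + 1) (by omega) (by omega) h3
      · exact notMem_Vch_y hc (by omega) h3
    have g2 : c (b + n + 1) ∉ s ∪ Vch y c b (b + n) := by
      rintro (h3 | h3)
      · exact hs.2 (b + n) (by omega) (by omega) h3
      · exact notMem_Vch_c hc (by omega) h3
    have g3 : y (b + n + 1) ≠ y (b + n) := fun h5 => by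
      have := hc.yinj (b + n + 1) (by omega) (b + n) (by omega) h5
      omega
    have g4 : y (b + n + 1) ≠ c (b + n + 1) := hc.yc (b + n + 1) (by omega) (b + n) (by omega)
    have e1 : P * Fch h y c b (b + (n + 1)) =
        P * Fch h y c b (b + n) * (1 + Dch h y c (b + n)) := by
      rw [← add_assoc, Fch_succ_right h y c (by omega), mul_assoc]
    constructor
    · rw [e1, step_one w h hQ g1 g2 g3 g4, h1, h2]
      have : geoS ((w - 1) * h) (n + 1) = geoS ((w - 1) * h) n + ((w - 1) * h) ^ (n + 1) := by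
        rw [geoS, sum_range_succ, geoS]
      rw [this]
      ring
    · rw [e1, ← add_assoc, dsc_step w h hQ g1 g2 g3 g4, h2]
      ring

lemma dsc_X (w : A) (v : Y) : dsc w v (X v : MvPolynomial Y A) = w - 1 := by
  have h := Ev_mul_sq w (1 : MvPolynomial Y A) v
  rw [one_mul, one_mul] at h
  rw [dsc, ← pow_two, h, Ev_X]
  ring

lemma dsc_one (w : A) (v : Y) : dsc w v (1 : MvPolynomial Y A) = 0 := by
  rw [dsc, one_mul, Ev_X, Ev_one]
  ring

/-- the value is determined by the state at a vertex beyond which nothing happens -/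
theorem Ev_tail (w h : A) (hc : ChainV L y c) {b : ℕ} (k : ℕ) (hb : b + k = L) {s : Set Y}
    {P : MvPolynomial Y A} (hP : P ∈ supported A s) (hs : Beyond y c b L s) :
    Ev w (P * Fch h y c b L) = Ev w P + geoS ((w - 1) * h) k * dsc w (y b) P := by
  have := (Ev_state w h hc (b := b) k hb.le hP (by rw [hb]; exact hs)).1
  rwa [hb] at this

/-- removing the head -/
theorem Ev_head (w h : A) (hc : ChainV L y c) {b : ℕ} (hb : b ≤ L) {s : Set Y}
    {P : MvPolynomial Y A} (hP : P ∈ supported A s) (h1 : ∀ j < b, y j ∉ s)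
    (h2 : ∀ j < b, c (j + 1) ∉ s) : Ev w (Fch h y c 0 L * P) = Ev w (P * Fch h y c b L) := by
  rw [← Fch_mul h y c (Nat.zero_le b) hb, mul_assoc, mul_comm (Fch h y c b L) P]
  apply Ev_chain_head w h hc hb (s := s ∪ Vch y c b L)
    (mul_mem (supported_mono Set.subset_union_left hP)
    (supported_mono Set.subset_union_right (Fch_supported h y c b L)))
  · intro j hj
    rintro (h3 | ⟨k, h4, h5, h6⟩ | ⟨k, h4, h5, h6⟩)
    · exact h1 j hj h3
    · have := hc.yinj j (by omega) k (by omega) h6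
      omega
    · exact hc.yc j (by omega) k (by omega) h6
  · intro j hj
    rintro (h3 | ⟨k, h4, h5, h6⟩ | ⟨k, h4, h5, h6⟩)
    · exact h2 j hj h3
    · exact hc.yc k (by omega) j (by omega) h6.symm
    · have := hc.cinj j (by omega) k (by omega) h6
      omega

/-! ### the values of monomials -/

section values

variable (w h : A) (hc : ChainV L y c)

include hc in
/-- the state after one marked vertex `y j` -/
lemma state_y {j n : ℕ} (hL : j + n ≤ L) :
    X (y j) * Fch h y c j (j + n) ∈ supported A (Vch y c j (j + n)) ∧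
    Ev w (X (y j) * Fch h y c j (j + n)) = (w - 1) * (1 + geoS ((w - 1) * h) n) ∧
    dsc w (y (j + n)) (X (y j) * Fch h y c j (j + n)) = (w - 1) * ((w - 1) * h) ^ n := by
  have hP : (X (y j) : MvPolynomial Y A) ∈ supported A {y j} := X_mem_supp rfl
  obtain ⟨h1, h2⟩ := Ev_state w h hc n hL hP (by
    constructor
    · intro k g1 g2 g3
      have := hc.yinj k (by omega) j (by omega) g3
      omega
    · intro k g1 g2 g3
      exact hc.yc j (by omega) k (by omega) (Set.mem_singleton_iff.1 g3).symm)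
  refine ⟨mul_mem (X_mem_supp (Or.inl ⟨j, le_rfl, by omega, rfl⟩)) (Fch_supported h y c _ _),
    ?_, ?_⟩
  · rw [h1, Ev_X, dsc_X]
    ring
  · rw [h2, dsc_X]
    ring

include hc in
/-- the state after one marked vertex `c (j + 1)` -/
lemma state_c {j n : ℕ} (hL : j + 1 + n ≤ L) :
    X (c (j + 1)) * Fch h y c j (j + 1 + n) ∈ supported A (Vch y c j (j + 1 + n)) ∧
    Ev w (X (c (j + 1)) * Fch h y c j (j + 1 + n)) =
      (w - 1) * (1 - geoS ((w - 1) * h) (n + 1)) ∧
    dsc w (y (j + 1 + n)) (X (c (j + 1)) * Fch h y c j (j + 1 + n)) =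
      - ((w - 1) * ((w - 1) * h) ^ (n + 1)) := by
  have hQ : (1 : MvPolynomial Y A) ∈ supported A ({y j} : Set Y) := one_mem _
  have g1 : y (j + 1) ∉ ({y j} : Set Y) := fun h5 => by
    have := hc.yinj (j + 1) (by omega) j (by omega) h5
    omega
  have g2 : c (j + 1) ∉ ({y j} : Set Y) := fun h5 =>
    hc.yc j (by omega) j (by omega) (Set.mem_singleton_iff.1 h5).symm
  have g3 : y (j + 1) ≠ y j := g1
  have g4 : y (j + 1) ≠ c (j + 1) := hc.yc (j + 1) (by omega) j (by omega)
  have g5 : y j ≠ c (j + 1) := hc.yc j (by omega) j (by omega)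
  have k1 := step_c w h hQ g1 g2 g3 g4 g5
  have k2 := dsc_step_c w h hQ g1 g2 g3 g4 g5
  rw [one_mul, Ev_one, dsc_one] at k1
  rw [one_mul, Ev_one, dsc_one] at k2
  have hP : X (c (j + 1)) * (1 + Dch h y c j) ∈ supported A (Vch y c j (j + 1)) := by
    refine mul_mem (X_mem_supp (Or.inr ⟨j, le_rfl, by omega, rfl⟩)) (add_mem (one_mem _) ?_)
    exact Dch_supported h y c j (Or.inl ⟨j + 1, by omega, le_rfl, rfl⟩)
      (Or.inl ⟨j, le_rfl, by omega, rfl⟩) (Or.inr ⟨j, le_rfl, by omega, rfl⟩)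
  have hb : Beyond y c (j + 1) (j + 1 + n) (Vch y c j (j + 1)) := by
    have : Beyond y c (j + 1) (j + 1 + n) (∅ : Set Y) :=
      ⟨fun _ _ _ h => h.elim, fun _ _ _ h => h.elim⟩
    have := this.union_Vch (a := j) hc hL (by omega)
    rwa [Set.empty_union] at this
  obtain ⟨h1, h2⟩ := Ev_state w h hc n hL hP hb
  have e1 : X (c (j + 1)) * Fch h y c j (j + 1 + n) =
      X (c (j + 1)) * (1 + Dch h y c j) * Fch h y c (j + 1) (j + 1 + n) := by
    rw [Fch_succ_left h y c (by omega), mul_assoc]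
  refine ⟨mul_mem (X_mem_supp (Or.inr ⟨j, le_rfl, by omega, rfl⟩)) (Fch_supported h y c _ _),
    ?_, ?_⟩
  · rw [e1, h1, k1, k2, geoS_succ]
    ring
  · rw [e1, h2, k2]
    ring

include hc in
theorem Ev_ch_y {j n : ℕ} (hL : j + n = L) :
    Ev w (Fch h y c 0 L * X (y j)) = (w - 1) * (1 + geoS ((w - 1) * h) n) := by
  rw [Ev_head w h hc (b := j) (by omega) (X_mem_supp (s := {y j}) rfl)]
  · have := (state_y w h hc (j := j) (n := n) (by omega)).2.1
    rwa [hL] at this
  · intro k hk h5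
    have := hc.yinj k (by omega) j (by omega) h5
    omega
  · intro k hk h5
    exact hc.yc j (by omega) k (by omega) (Set.mem_singleton_iff.1 h5).symm

include hc in
theorem Ev_ch_c {j n : ℕ} (hL : j + 1 + n = L) :
    Ev w (Fch h y c 0 L * X (c (j + 1))) = (w - 1) * (1 - geoS ((w - 1) * h) (n + 1)) := by
  rw [Ev_head w h hc (b := j) (by omega) (X_mem_supp (s := {c (j + 1)}) rfl)]
  · have := (state_c w h hc (j := j) (n := n) (by omega)).2.1
    rwa [hL] at this
  · intro k hk h5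
    exact hc.yc k (by omega) j (by omega) h5
  · intro k hk h5
    have := hc.cinj k (by omega) j (by omega) h5
    omega

include hc in
/-- closing the chain after a step which marks `y (b + 1)` -/
lemma close_X {b k : ℕ} (hL : b + 1 + k = L) {s : Set Y} {Q : MvPolynomial Y A}
    (hQ : Q ∈ supported A s) (hs : Beyond y c b L s) :
    Ev w (Q * X (y (b + 1)) * Fch h y c b L) =
      (w - 1) * (Ev w Q + w * h * dsc w (y b) Q) * (1 + geoS ((w - 1) * h) k) := by
  have g1 : y (b + 1) ∉ s := hs.1 (b + 1) (by omega) (by omega)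
  have g2 : c (b + 1) ∉ s := hs.2 b le_rfl (by omega)
  have g3 : y (b + 1) ≠ y b := fun h5 => by
    have := hc.yinj (b + 1) (by omega) b (by omega) h5
    omega
  have g4 : y (b + 1) ≠ c (b + 1) := hc.yc (b + 1) (by omega) b (by omega)
  have hP : Q * (1 + Dch h y c b) * X (y (b + 1)) ∈
      supported A (s ∪ Vch y c b (b + 1)) := by
    refine mul_mem (mul_mem (supported_mono Set.subset_union_left hQ) (add_mem (one_mem _) ?_))
      (X_mem_supp (Or.inr (Or.inl ⟨b + 1, by omega, le_rfl, rfl⟩)))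
    exact Dch_supported h y c b (Or.inr (Or.inl ⟨b + 1, by omega, le_rfl, rfl⟩))
      (Or.inr (Or.inl ⟨b, le_rfl, by omega, rfl⟩)) (Or.inr (Or.inr ⟨b, le_rfl, by omega, rfl⟩))
  have e1 : Q * X (y (b + 1)) * Fch h y c b L =
      Q * (1 + Dch h y c b) * X (y (b + 1)) * Fch h y c (b + 1) L := by
    rw [Fch_succ_left h y c (by omega)]
    ring
  rw [e1, Ev_tail w h hc k hL hP ((hs.mono (by omega)).union_Vch hc le_rfl (by omega)),
    dsc_step_X w h hQ g1 g2 g3 g4, step_X w h hQ g1 g2 g3 g4]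
  ring

include hc in
/-- closing the chain after a step which marks `c (b + 1)` -/
lemma close_c {b k : ℕ} (hL : b + 1 + k = L) {s : Set Y} {Q : MvPolynomial Y A}
    (hQ : Q ∈ supported A s) (hs : Beyond y c b L s) :
    Ev w (Q * X (c (b + 1)) * Fch h y c b L) =
      (w - 1) * (Ev w Q + geoS ((w - 1) * h) (k + 1) * (dsc w (y b) Q - Ev w Q)) := by
  have g1 : y (b + 1) ∉ s := hs.1 (b + 1) (by omega) (by omega)
  have g2 : c (b + 1) ∉ s := hs.2 b le_rfl (by omega)
  have g3 : y (b + 1) ≠ y b := fun h5 => by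
    have := hc.yinj (b + 1) (by omega) b (by omega) h5
    omega
  have g4 : y (b + 1) ≠ c (b + 1) := hc.yc (b + 1) (by omega) b (by omega)
  have g5 : y b ≠ c (b + 1) := hc.yc b (by omega) b (by omega)
  have hP : Q * X (c (b + 1)) * (1 + Dch h y c b) ∈
      supported A (s ∪ Vch y c b (b + 1)) := by
    refine mul_mem (mul_mem (supported_mono Set.subset_union_left hQ)
      (X_mem_supp (Or.inr (Or.inr ⟨b, le_rfl, by omega, rfl⟩)))) (add_mem (one_mem _) ?_)
    exact Dch_supported h y c b (Or.inr (Or.inl ⟨b + 1, by omega, le_rfl, rfl⟩))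
      (Or.inr (Or.inl ⟨b, le_rfl, by omega, rfl⟩)) (Or.inr (Or.inr ⟨b, le_rfl, by omega, rfl⟩))
  have e1 : Q * X (c (b + 1)) * Fch h y c b L =
      Q * X (c (b + 1)) * (1 + Dch h y c b) * Fch h y c (b + 1) L := by
    rw [Fch_succ_left h y c (by omega)]
    ring
  rw [e1, Ev_tail w h hc k hL hP ((hs.mono (by omega)).union_Vch hc le_rfl (by omega)),
    dsc_step_c w h hQ g1 g2 g3 g4 g5, step_c w h hQ g1 g2 g3 g4 g5, geoS_succ]
  ring

include hc in
lemma beyond_Vch {a b : ℕ} (hb : b ≤ L) : Beyond y c b L (Vch y c a b) := by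
  have : Beyond y c b L (∅ : Set Y) :=
    ⟨fun _ _ _ h => h.elim, fun _ _ _ h => h.elim⟩
  have := this.union_Vch (a := a) hc le_rfl hb
  rwa [Set.empty_union] at this

lemma Fch_mul' {a b d : ℕ} (hab : a ≤ b) (hbd : b ≤ d) (P Q : MvPolynomial Y A) :
    P * Q * Fch h y c a d = P * Fch h y c a b * Q * Fch h y c b d := by
  rw [← Fch_mul h y c hab hbd]
  ring

include hc in
/-- two vertices `y j`, `y (j + n + 1)` -/
theorem Ev_ch_yy {j n k : ℕ} (hL : j + n + 1 + k = L) :
    Ev w (Fch h y c 0 L * (X (y j) * X (y (j + n + 1)))) =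
      (w - 1) * ((w - 1) * (1 + geoS ((w - 1) * h) n) + w * ((w - 1) * h) ^ (n + 1)) *
        (1 + geoS ((w - 1) * h) k) := by
  have hP : (X (y j) * X (y (j + n + 1)) : MvPolynomial Y A) ∈
      supported A {y j, y (j + n + 1)} :=
    mul_mem (X_mem_supp (Or.inl rfl)) (X_mem_supp (Or.inr rfl))
  rw [Ev_head w h hc (b := j) (by omega) hP, Fch_mul' (b := j + n) h (by omega) (by omega)]
  · obtain ⟨h1, h2, h3⟩ := state_y w h hc (j := j) (n := n) (by omega)
    rw [close_X w h hc hL h1 (beyond_Vch hc (by omega)), h2, h3]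
    ring
  · intro i hi
    rintro (h5 | h5)
    · have := hc.yinj i (by omega) j (by omega) h5
      omega
    · have := hc.yinj i (by omega) (j + n + 1) (by omega) h5
      omega
  · intro i hi
    rintro (h5 | h5)
    · exact hc.yc j (by omega) i (by omega) h5.symm
    · exact hc.yc (j + n + 1) (by omega) i (by omega) (Set.mem_singleton_iff.1 h5).symm

include hc in
/-- two vertices `y j`, `c (j + n + 1)` -/
theorem Ev_ch_yc {j n k : ℕ} (hL : j + n + 1 + k = L) :
    Ev w (Fch h y c 0 L * (X (y j) * X (c (j + n + 1)))) =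
      (w - 1) ^ 2 * (1 - geoS ((w - 1) * h) k * geoS ((w - 1) * h) n) := by
  have hP : (X (y j) * X (c (j + n + 1)) : MvPolynomial Y A) ∈
      supported A {y j, c (j + n + 1)} :=
    mul_mem (X_mem_supp (Or.inl rfl)) (X_mem_supp (Or.inr rfl))
  rw [Ev_head w h hc (b := j) (by omega) hP, Fch_mul' (b := j + n) h (by omega) (by omega)]
  · obtain ⟨h1, h2, h3⟩ := state_y w h hc (j := j) (n := n) (by omega)
    rw [close_c w h hc hL h1 (beyond_Vch hc (by omega)), h2, h3, geoS_succ]
    have e2 : ((w - 1) * h) ^ n * ((w - 1) * h) = ((w - 1) * h) + ((w - 1) * h) *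
        geoS ((w - 1) * h) n - geoS ((w - 1) * h) n := by
      rw [← geoS_succ, geoS, sum_range_succ, geoS]
      ring
    linear_combination ((w - 1) ^ 2 * (1 + geoS ((w - 1) * h) k)) * e2
  · intro i hi
    rintro (h5 | h5)
    · have := hc.yinj i (by omega) j (by omega) h5
      omega
    · exact hc.yc i (by omega) (j + n) (by omega) (Set.mem_singleton_iff.1 h5)
  · intro i hi
    rintro (h5 | h5)
    · exact hc.yc j (by omega) i (by omega) h5.symm
    · have := hc.cinj i (by omega) (j + n) (by omega) (Set.mem_singleton_iff.1 h5)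
      omega

include hc in
/-- two vertices `c (j + 1)`, `y (j + 1)` -/
theorem Ev_ch_cy_zero {j k : ℕ} (hL : j + 1 + k = L) :
    Ev w (Fch h y c 0 L * (X (c (j + 1)) * X (y (j + 1)))) =
      (w - 1) * ((w - 1) * (1 - geoS ((w - 1) * h) 0) - w * ((w - 1) * h) ^ (0 + 1)) *
        (1 + geoS ((w - 1) * h) k) := by
  have hP : (X (c (j + 1)) * X (y (j + 1)) : MvPolynomial Y A) ∈
      supported A {c (j + 1), y (j + 1)} :=
    mul_mem (X_mem_supp (Or.inl rfl)) (X_mem_supp (Or.inr rfl))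
  rw [Ev_head w h hc (b := j) (by omega) hP]
  · have hQ : (1 : MvPolynomial Y A) ∈ supported A ({y j} : Set Y) := one_mem _
    have g1 : y (j + 1) ∉ ({y j} : Set Y) := fun h5 => by
      have := hc.yinj (j + 1) (by omega) j (by omega) h5
      omega
    have g2 : c (j + 1) ∉ ({y j} : Set Y) := fun h5 =>
      hc.yc j (by omega) j (by omega) (Set.mem_singleton_iff.1 h5).symm
    have g3 : y (j + 1) ≠ y j := g1
    have g4 : y (j + 1) ≠ c (j + 1) := hc.yc (j + 1) (by omega) j (by omega)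
    have g5 : y j ≠ c (j + 1) := hc.yc j (by omega) j (by omega)
    have k1 := step_c_X w h hQ g1 g2 g3 g4 g5
    rw [one_mul, Ev_one, dsc_one] at k1
    have hR : X (c (j + 1)) * (1 + Dch h y c j) * X (y (j + 1)) ∈
        supported A (Vch y c j (j + 1)) := by
      refine mul_mem (mul_mem (X_mem_supp (Or.inr ⟨j, le_rfl, by omega, rfl⟩))
        (add_mem (one_mem _) ?_)) (X_mem_supp (Or.inl ⟨j + 1, by omega, le_rfl, rfl⟩))
      exact Dch_supported h y c j (Or.inl ⟨j + 1, by omega, le_rfl, rfl⟩)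
        (Or.inl ⟨j, le_rfl, by omega, rfl⟩) (Or.inr ⟨j, le_rfl, by omega, rfl⟩)
    have k2 : dsc w (y (j + 1)) (X (c (j + 1)) * (1 + Dch h y c j) * X (y (j + 1))) =
        Ev w (X (c (j + 1)) * (1 + Dch h y c j) * X (y (j + 1))) := by
      rw [dsc, mul_assoc _ (X (y (j + 1))), ← pow_two, Ev_mul_sq]
      ring
    have e1 : X (c (j + 1)) * X (y (j + 1)) * Fch h y c j L =
        X (c (j + 1)) * (1 + Dch h y c j) * X (y (j + 1)) * Fch h y c (j + 1) L := by
      rw [Fch_succ_left h y c (by omega)]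
      ring
    rw [e1, Ev_tail w h hc k hL hR (beyond_Vch hc (by omega)), k2, k1, geoS_zero]
    ring
  · intro i hi
    rintro (h5 | h5)
    · exact hc.yc i (by omega) j (by omega) h5
    · have := hc.yinj i (by omega) (j + 1) (by omega) h5
      omega
  · intro i hi
    rintro (h5 | h5)
    · have := hc.cinj i (by omega) j (by omega) h5
      omega
    · exact hc.yc (j + 1) (by omega) i (by omega) (Set.mem_singleton_iff.1 h5).symm

include hc in
/-- two vertices `c (j + 1)`, `y (j + 1 + n)` -/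
theorem Ev_ch_cy {j n k : ℕ} (hL : j + 1 + n + k = L) :
    Ev w (Fch h y c 0 L * (X (c (j + 1)) * X (y (j + 1 + n)))) =
      (w - 1) * ((w - 1) * (1 - geoS ((w - 1) * h) n) - w * ((w - 1) * h) ^ (n + 1)) *
        (1 + geoS ((w - 1) * h) k) := by
  cases n with
  | zero => exact Ev_ch_cy_zero w h hc hL
  | succ n =>
    have e0 : j + 1 + (n + 1) = j + 1 + n + 1 := by omega
    rw [e0] at hL ⊢
    have hP : (X (c (j + 1)) * X (y (j + 1 + n + 1)) : MvPolynomial Y A) ∈
        supported A {c (j + 1), y (j + 1 + n + 1)} :=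
      mul_mem (X_mem_supp (Or.inl rfl)) (X_mem_supp (Or.inr rfl))
    rw [Ev_head w h hc (b := j) (by omega) hP, Fch_mul' (b := j + 1 + n) h (by omega) (by omega)]
    · obtain ⟨h1, h2, h3⟩ := state_c w h hc (j := j) (n := n) (by omega)
      rw [close_X w h hc hL h1 (beyond_Vch hc (by omega)), h2, h3]
      ring
    · intro i hi
      rintro (h5 | h5)
      · exact hc.yc i (by omega) j (by omega) h5
      · have := hc.yinj i (by omega) (j + 1 + n + 1) (by omega) h5
        omega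
    · intro i hi
      rintro (h5 | h5)
      · have := hc.cinj i (by omega) j (by omega) h5
        omega
      · exact hc.yc (j + 1 + n + 1) (by omega) i (by omega) (Set.mem_singleton_iff.1 h5).symm

include hc in
/-- two vertices `c (j + 1)`, `c (j + 1 + n + 1)` -/
theorem Ev_ch_cc {j n k : ℕ} (hL : j + 1 + n + 1 + k = L) :
    Ev w (Fch h y c 0 L * (X (c (j + 1)) * X (c (j + 1 + n + 1)))) =
      (w - 1) ^ 2 * (1 - 2 * ((w - 1) * h) +
        geoS ((w - 1) * h) k * (geoS ((w - 1) * h) (n + 1) - 2 * ((w - 1) * h))) := by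
  have hP : (X (c (j + 1)) * X (c (j + 1 + n + 1)) : MvPolynomial Y A) ∈
      supported A {c (j + 1), c (j + 1 + n + 1)} :=
    mul_mem (X_mem_supp (Or.inl rfl)) (X_mem_supp (Or.inr rfl))
  rw [Ev_head w h hc (b := j) (by omega) hP, Fch_mul' (b := j + 1 + n) h (by omega) (by omega)]
  · obtain ⟨h1, h2, h3⟩ := state_c w h hc (j := j) (n := n) (by omega)
    rw [close_c w h hc hL h1 (beyond_Vch hc (by omega)), h2, h3, geoS_succ _ k]
    have e2 : ((w - 1) * h) ^ (n + 1) * ((w - 1) * h) = ((w - 1) * h) + ((w - 1) * h) *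
        geoS ((w - 1) * h) (n + 1) - geoS ((w - 1) * h) (n + 1) := by
      rw [← geoS_succ, geoS, sum_range_succ _ (n + 1), geoS]
      ring
    linear_combination (-(w - 1) ^ 2 * (1 + geoS ((w - 1) * h) k)) * e2
  · intro i hi
    rintro (h5 | h5)
    · exact hc.yc i (by omega) j (by omega) h5
    · exact hc.yc i (by omega) (j + 1 + n) (by omega) (Set.mem_singleton_iff.1 h5)
  · intro i hi
    rintro (h5 | h5)
    · have := hc.cinj i (by omega) j (by omega) h5
      omega
    · have := hc.cinj i (by omega) (j + 1 + n) (by omega) (Set.mem_singleton_iff.1 h5)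
      omega

include hc in
/-- the factor of a chain is normalised -/
theorem Ev_ch_one : Ev w (Fch h y c 0 L) = 1 := by
  have := Ev_chain_head w h hc le_rfl (s := ∅) (one_mem (supported A (∅ : Set Y)))
    (fun _ _ h => h.elim) (fun _ _ h => h.elim)
  rwa [mul_one, Ev_one] at this

end values

/-! ### the calculus of states

Between the marks the chain acts by `St.run`; an edge with any polynomial in its three vertices
acts by `St.edge`. -/

/-- the polynomial `Q` does not see the chain beyond `y b`, its value is `u` and its discrepancy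
at `y b` is `v` -/
structure St (w : A) (y c : ℕ → Y) (L b : ℕ) (Q : MvPolynomial Y A) (u v : A) : Prop where
  sup : ∃ s : Set Y, Q ∈ supported A s ∧ Beyond y c b L s
  ev : Ev w Q = u
  dc : dsc w (y b) Q = v

section states

variable {w h : A} (hc : ChainV L y c) {b : ℕ} {Q : MvPolynomial Y A} {u v : A}

lemma St.one (w : A) (y c : ℕ → Y) (L b : ℕ) : St w y c L b 1 1 0 :=
  ⟨⟨∅, one_mem _, fun _ _ _ h => h.elim, fun _ _ _ h => h.elim⟩, Ev_one w, dsc_one w _⟩

include hc in
lemma St.X (w : A) (hb : b ≤ L) :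
    St w y c L b (MvPolynomial.X (y b)) (w - 1) (w - 1) := by
  refine ⟨⟨{y b}, X_mem_supp rfl, ?_, ?_⟩, Ev_X w _, dsc_X w _⟩
  · intro k g1 g2 g3
    have := hc.yinj k (by omega) b (by omega) g3
    omega
  · intro k g1 g2 g3
    exact hc.yc b (by omega) k (by omega) (Set.mem_singleton_iff.1 g3).symm

lemma St.C_mul (hQ : St w y c L b Q u v) (a : A) :
    St w y c L b (MvPolynomial.C a * Q) (a * u) (a * v) := by
  obtain ⟨⟨s, h1, h2⟩, h3, h4⟩ := hQ
  refine ⟨⟨s, mul_mem (C_mem_supp s a) h1, h2⟩, by rw [Ev_C_mul, h3], ?_⟩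
  rw [← h4, dsc, dsc, mul_assoc, Ev_C_mul, Ev_C_mul]
  ring

lemma St.add (hQ : St w y c L b Q u v) {Q' : MvPolynomial Y A} {u' v' : A}
    (hQ' : St w y c L b Q' u' v') : St w y c L b (Q + Q') (u + u') (v + v') := by
  obtain ⟨⟨s, h1, h2⟩, h3, h4⟩ := hQ
  obtain ⟨⟨s', h1', h2'⟩, h3', h4'⟩ := hQ'
  refine ⟨⟨s ∪ s', add_mem (supported_mono Set.subset_union_left h1)
    (supported_mono Set.subset_union_right h1'), ?_, ?_⟩, by rw [map_add, h3, h3'], ?_⟩
  · intro j g1 g2 g3
    exact g3.elim (h2.1 j g1 g2) (h2'.1 j g1 g2)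
  · intro j g1 g2 g3
    exact g3.elim (h2.2 j g1 g2) (h2'.2 j g1 g2)
  · rw [← h4, ← h4', dsc, dsc, dsc, add_mul, map_add, map_add]
    ring

lemma St.cast (hQ : St w y c L b Q u v) {Q' : MvPolynomial Y A} {u' v' : A} (h1 : Q = Q')
    (h2 : u = u') (h3 : v = v') : St w y c L b Q' u' v' := by
  rw [← h1, ← h2, ← h3]
  exact hQ

include hc in
/-- an unmarked part of the chain -/
theorem St.run (hQ : St w y c L b Q u v) (h : A) (n : ℕ) (hn : b + n ≤ L) :
    St w y c L (b + n) (Q * Fch h y c b (b + n)) (u + geoS ((w - 1) * h) n * v)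
      (((w - 1) * h) ^ n * v) := by
  obtain ⟨⟨s, h1, h2⟩, h3, h4⟩ := hQ
  obtain ⟨g1, g2⟩ := Ev_state w h hc n hn h1
    ⟨fun j k1 k2 => h2.1 j k1 (by omega), fun j k1 k2 => h2.2 j k1 (by omega)⟩
  refine ⟨⟨s ∪ Vch y c b (b + n), mul_mem (supported_mono Set.subset_union_left h1)
    (supported_mono Set.subset_union_right (Fch_supported h y c _ _)),
    (h2.mono (by omega)).union_Vch hc le_rfl hn⟩, ?_, ?_⟩
  · rw [g1, h3, h4]
  · rw [g2, h4]

include hc in
/-- an edge with any polynomial in its three vertices -/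
theorem St.edge (hQ : St w y c L b Q u v) (hb : b < L) {P R : MvPolynomial Y A}
    (hP : P ∈ supported A {y (b + 1), c (b + 1)}) (hR : R ∈ supported A {y (b + 1), c (b + 1)}) :
    St w y c L (b + 1) (Q * (P + MvPolynomial.X (y b) * R))
      (u * Ev w P + (v + (w - 1) * u) * Ev w R)
      (u * dsc w (y (b + 1)) P + (v + (w - 1) * u) * dsc w (y (b + 1)) R) := by
  obtain ⟨⟨s, h1, h2⟩, h3, h4⟩ := hQ
  have hy1 : y (b + 1) ∉ s := h2.1 (b + 1) (by omega) (by omega)
  have hc1 : c (b + 1) ∉ s := h2.2 b le_rfl (by omega)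
  have hyy : y (b + 1) ≠ y b := fun h5 => by
    have := hc.yinj (b + 1) (by omega) b (by omega) h5
    omega
  have hyc' : y b ≠ c (b + 1) := hc.yc b (by omega) b (by omega)
  have hd : Disjoint (s ∪ {y b}) ({y (b + 1), c (b + 1)} : Set Y) := by
    rw [Set.disjoint_right]
    rintro x (rfl | hx) (h5 | h5)
    · exact hy1 h5
    · exact hyy h5
    · rw [Set.mem_singleton_iff] at hx
      exact hc1 (hx ▸ h5)
    · rw [Set.mem_singleton_iff] at hx h5
      exact hyc' (h5.symm.trans hx)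
  have hQ1 : Q ∈ supported A (s ∪ {y b}) := supported_mono Set.subset_union_left h1
  have hQ2 : Q * MvPolynomial.X (y b) ∈ supported A (s ∪ {y b}) :=
    mul_mem hQ1 (X_mem_supp (Or.inr rfl))
  have h5 : Ev w (Q * MvPolynomial.X (y b)) = v + (w - 1) * u := by
    rw [← h4, ← h3, dsc]
    ring
  have key : ∀ P' R' : MvPolynomial Y A, P' ∈ supported A {y (b + 1), c (b + 1)} →
      R' ∈ supported A {y (b + 1), c (b + 1)} →
      Ev w (Q * (P' + MvPolynomial.X (y b) * R')) =
        u * Ev w P' + (v + (w - 1) * u) * Ev w R' := by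
    intro P' R' hP' hR'
    have : Q * (P' + MvPolynomial.X (y b) * R') = Q * P' + Q * MvPolynomial.X (y b) * R' := by
      ring
    rw [this, map_add, Ev_mul w hd hQ1 hP', Ev_mul w hd hQ2 hR', h3, h5]
  have hX : (MvPolynomial.X (y (b + 1)) : MvPolynomial Y A) ∈
      supported A {y (b + 1), c (b + 1)} := X_mem_supp (Or.inl rfl)
  refine ⟨⟨s ∪ Vch y c b (b + 1), ?_, (h2.mono (by omega)).union_Vch hc le_rfl (by omega)⟩,
    key P R hP hR, ?_⟩
  · have hsub : ({y (b + 1), c (b + 1)} : Set Y) ⊆ s ∪ Vch y c b (b + 1) := by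
      rintro x (rfl | hx)
      · exact Or.inr (Or.inl ⟨b + 1, by omega, le_rfl, rfl⟩)
      · rw [Set.mem_singleton_iff] at hx
        subst hx
        exact Or.inr (Or.inr ⟨b, le_rfl, by omega, rfl⟩)
    exact mul_mem (supported_mono Set.subset_union_left h1) (add_mem (supported_mono hsub hP)
      (mul_mem (X_mem_supp (Or.inr (Or.inl ⟨b, le_rfl, by omega, rfl⟩)))
      (supported_mono hsub hR)))
  · have e1 : Q * (P + MvPolynomial.X (y b) * R) * MvPolynomial.X (y (b + 1)) =
        Q * (P * MvPolynomial.X (y (b + 1)) +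
          MvPolynomial.X (y b) * (R * MvPolynomial.X (y (b + 1)))) := by ring
    rw [dsc, e1, key _ _ (mul_mem hP hX) (mul_mem hR hX), key P R hP hR, dsc, dsc]
    ring

include hc in
/-- closing the chain -/
theorem St.close (hQ : St w y c L b Q u v) (h : A) (k : ℕ) (hb : b + k = L) :
    Ev w (Q * Fch h y c b L) = u + geoS ((w - 1) * h) k * v := by
  have := (hQ.run hc h k hb.le).ev
  rwa [hb] at this

include hc in
/-- the step which marks `y (b + 1)` -/
theorem St.stepY (hQ : St w y c L b Q u v) (h : A) (hb : b < L) :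
    St w y c L (b + 1) (Q * (1 + Dch h y c b) * MvPolynomial.X (y (b + 1)))
      ((w - 1) * (u + w * h * v)) ((w - 1) * (u + w * h * v)) := by
  obtain ⟨⟨s, h1, h2⟩, h3, h4⟩ := hQ
  have g1 : y (b + 1) ∉ s := h2.1 (b + 1) (by omega) (by omega)
  have g2 : c (b + 1) ∉ s := h2.2 b le_rfl (by omega)
  have g3 : y (b + 1) ≠ y b := fun h5 => by
    have := hc.yinj (b + 1) (by omega) b (by omega) h5
    omega
  have g4 : y (b + 1) ≠ c (b + 1) := hc.yc (b + 1) (by omega) b (by omega)
  refine ⟨⟨s ∪ Vch y c b (b + 1), ?_, (h2.mono (by omega)).union_Vch hc le_rfl (by omega)⟩,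
    ?_, ?_⟩
  · exact mul_mem (mul_mem (supported_mono Set.subset_union_left h1) (add_mem (one_mem _)
      (Dch_supported h y c b (Or.inr (Or.inl ⟨b + 1, by omega, le_rfl, rfl⟩))
      (Or.inr (Or.inl ⟨b, le_rfl, by omega, rfl⟩))
      (Or.inr (Or.inr ⟨b, le_rfl, by omega, rfl⟩)))))
      (X_mem_supp (Or.inr (Or.inl ⟨b + 1, by omega, le_rfl, rfl⟩)))
  · rw [step_X w h h1 g1 g2 g3 g4, h3, h4]
  · rw [dsc_step_X w h h1 g1 g2 g3 g4, step_X w h h1 g1 g2 g3 g4, h3, h4]

include hc in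
/-- the step which marks `c (b + 1)` -/
theorem St.stepC (hQ : St w y c L b Q u v) (h : A) (hb : b < L) :
    St w y c L (b + 1) (Q * MvPolynomial.X (c (b + 1)) * (1 + Dch h y c b))
      ((w - 1) * (u + (w - 1) * h * (v - u))) ((w - 1) * ((w - 1) * h * (v - u))) := by
  obtain ⟨⟨s, h1, h2⟩, h3, h4⟩ := hQ
  have g1 : y (b + 1) ∉ s := h2.1 (b + 1) (by omega) (by omega)
  have g2 : c (b + 1) ∉ s := h2.2 b le_rfl (by omega)
  have g3 : y (b + 1) ≠ y b := fun h5 => by
    have := hc.yinj (b + 1) (by omega) b (by omega) h5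
    omega
  have g4 : y (b + 1) ≠ c (b + 1) := hc.yc (b + 1) (by omega) b (by omega)
  have g5 : y b ≠ c (b + 1) := hc.yc b (by omega) b (by omega)
  refine ⟨⟨s ∪ Vch y c b (b + 1), ?_, (h2.mono (by omega)).union_Vch hc le_rfl (by omega)⟩,
    ?_, ?_⟩
  · exact mul_mem (mul_mem (supported_mono Set.subset_union_left h1)
      (X_mem_supp (Or.inr (Or.inr ⟨b, le_rfl, by omega, rfl⟩)))) (add_mem (one_mem _)
      (Dch_supported h y c b (Or.inr (Or.inl ⟨b + 1, by omega, le_rfl, rfl⟩))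
      (Or.inr (Or.inl ⟨b, le_rfl, by omega, rfl⟩))
      (Or.inr (Or.inr ⟨b, le_rfl, by omega, rfl⟩))))
  · rw [step_c w h h1 g1 g2 g3 g4 g5, h3, h4]
  · rw [dsc_step_c w h h1 g1 g2 g3 g4 g5, h3, h4]

include hc in
/-- the step which marks `c (b + 1)` and `y (b + 1)` -/
theorem St.stepCY (hQ : St w y c L b Q u v) (h : A) (hb : b < L) :
    St w y c L (b + 1) (Q * MvPolynomial.X (c (b + 1)) * (1 + Dch h y c b) *
        MvPolynomial.X (y (b + 1)))
      ((w - 1) * ((w - 1) * (u + w * h * (v - u)))) ((w - 1) * ((w - 1) * (u + w * h * (v - u)))) := by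
  have hst := hQ.stepC hc h hb
  obtain ⟨⟨s, h1, h2⟩, h3, h4⟩ := hQ
  have g1 : y (b + 1) ∉ s := h2.1 (b + 1) (by omega) (by omega)
  have g2 : c (b + 1) ∉ s := h2.2 b le_rfl (by omega)
  have g3 : y (b + 1) ≠ y b := fun h5 => by
    have := hc.yinj (b + 1) (by omega) b (by omega) h5
    omega
  have g4 : y (b + 1) ≠ c (b + 1) := hc.yc (b + 1) (by omega) b (by omega)
  have g5 : y b ≠ c (b + 1) := hc.yc b (by omega) b (by omega)
  refine ⟨⟨s ∪ Vch y c b (b + 1), ?_, (h2.mono (by omega)).union_Vch hc le_rfl (by omega)⟩,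
    ?_, ?_⟩
  · exact mul_mem (mul_mem (mul_mem (supported_mono Set.subset_union_left h1)
      (X_mem_supp (Or.inr (Or.inr ⟨b, le_rfl, by omega, rfl⟩)))) (add_mem (one_mem _)
      (Dch_supported h y c b (Or.inr (Or.inl ⟨b + 1, by omega, le_rfl, rfl⟩))
      (Or.inr (Or.inl ⟨b, le_rfl, by omega, rfl⟩))
      (Or.inr (Or.inr ⟨b, le_rfl, by omega, rfl⟩)))))
      (X_mem_supp (Or.inr (Or.inl ⟨b + 1, by omega, le_rfl, rfl⟩)))
  · rw [step_c_X w h h1 g1 g2 g3 g4 g5, h3, h4]
  · rw [dsc, mul_assoc _ (MvPolynomial.X (y (b + 1))), ← pow_two, Ev_mul_sq,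
      step_c_X w h h1 g1 g2 g3 g4 g5, h3, h4]
    ring

end states

end Pool.Gauss
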