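import Mathlib

/-!
# Classification of the clusters of lost and new pairs (finite graph part)

`U` is a finite set of vertices, `T` the set of tips, `W` an integer weight on the pairs of `U`
(new pairs have weight `1`, lost pairs `-1`).  From the coefficients `X`, `X^2` of `M_W = 1`
(`j1`, `j2`) one gets the exact identity `star_identity`, and, if new pairs join two tips and no
lost pair joins two tips, the local shape of every vertex.  With the coefficient `X^#tips` and
connectivity the only cluster is a chain.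
-/

set_option autoImplicit false
open scoped Classical
open Finset

namespace Pool.Gauss.Clu

variable {V : Type}

/-- sum of the weights of the pairs at a vertex -/
noncomputable def sm (U : Finset V) (W : Finset V → ℤ) (y : V) : ℤ :=
  ∑ s ∈ (U.powersetCard 2).filter (fun s => y ∈ s), W s

/-- the new pairs at a vertex -/
noncomputable def Nw (U : Finset V) (W : Finset V → ℤ) (y : V) : Finset (Finset V) :=
  (U.powersetCard 2).filter fun s => y ∈ s ∧ W s = 1

/-- the lost pairs at a vertex -/
noncomputable def Ls (U : Finset V) (W : Finset V → ℤ) (y : V) : Finset (Finset V) :=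
  (U.powersetCard 2).filter fun s => y ∈ s ∧ W s = -1

variable {U T : Finset V} {W : Finset V → ℤ}

lemma mem_Nw {y : V} {s : Finset V} : s ∈ Nw U W y ↔ s ∈ U.powersetCard 2 ∧ y ∈ s ∧ W s = 1 := by
  simp [Nw]

lemma mem_Ls {y : V} {s : Finset V} : s ∈ Ls U W y ↔ s ∈ U.powersetCard 2 ∧ y ∈ s ∧ W s = -1 := by
  simp [Ls]

/-- double counting of weighted incidences -/
lemma sum_sm (g : V → ℤ) :
    ∑ y ∈ U, g y * sm U W y = ∑ s ∈ U.powersetCard 2, (∑ y ∈ s, g y) * W s := by
  have h1 : ∀ y ∈ U, g y * sm U W y = ∑ s ∈ U.powersetCard 2, if y ∈ s then g y * W s else 0 := by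
    intro y _
    rw [sm, Finset.mul_sum, Finset.sum_filter]
  rw [Finset.sum_congr rfl h1, Finset.sum_comm]
  apply Finset.sum_congr rfl
  intro s hs
  rw [mem_powersetCard] at hs
  rw [Finset.sum_mul, ← Finset.sum_filter]
  apply Finset.sum_congr _ fun _ _ => rfl
  ext y
  rw [mem_filter]
  exact ⟨fun h => h.2, fun h => ⟨hs.1 h, h⟩⟩

lemma sum_sm_all : ∑ y ∈ U, sm U W y = 2 * ∑ s ∈ U.powersetCard 2, W s := by
  have h1 := sum_sm (U := U) (W := W) fun _ => 1
  simp only [one_mul] at h1
  rw [h1, Finset.mul_sum]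
  apply Finset.sum_congr rfl
  intro s hs
  rw [mem_powersetCard] at hs
  rw [Finset.sum_const, hs.2]
  simp

/-- the sign of a vertex: `1` at tips, `-1` elsewhere -/
noncomputable def eps (T : Finset V) (y : V) : ℤ := if y ∈ T then 1 else -1

/-- **the exact identity** given by the coefficients of `X` and `X^2` -/
theorem star_identity (T : Finset V) (j1 : ∑ s ∈ U.powersetCard 2, W s = 0)
    (j2 : ∑ s ∈ U.powersetCard 2, (W s) ^ 2 = ∑ y ∈ U, (sm U W y) ^ 2) :
    ∑ y ∈ U, (sm U W y * (sm U W y - eps T y)) =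
      ∑ s ∈ U.powersetCard 2, (W s ^ 2 + W s - (∑ y ∈ s, eps T y) * W s) := by
  have h1 := sum_sm (U := U) (W := W) (eps T)
  rw [Finset.sum_sub_distrib, Finset.sum_add_distrib, j1, j2, ← h1, add_zero,
    ← Finset.sum_sub_distrib]
  apply Finset.sum_congr rfl
  intro y _
  ring

/-- the hypotheses of the classification: new pairs join two tips, no lost pair joins two tips -/
structure Row (U T : Finset V) (W : Finset V → ℤ) : Prop where
  le1 : ∀ s ∈ U.powersetCard 2, W s ≤ 1
  ge1 : ∀ s ∈ U.powersetCard 2, -1 ≤ W s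
  new : ∀ s ∈ U.powersetCard 2, 0 < W s → s ⊆ T
  lost : ∀ s ∈ U.powersetCard 2, W s < 0 → ¬ s ⊆ T
  j1 : ∑ s ∈ U.powersetCard 2, W s = 0
  j2 : ∑ s ∈ U.powersetCard 2, (W s) ^ 2 = ∑ y ∈ U, (sm U W y) ^ 2

lemma int_mul_pred (a : ℤ) : 0 ≤ a * (a - 1) := by
  rcases le_or_gt a 0 with h | h
  · nlinarith
  · nlinarith

lemma int_mul_succ (a : ℤ) : 0 ≤ a * (a + 1) := by
  have := int_mul_pred (a + 1)
  nlinarith

lemma mul_eps_nonneg (T : Finset V) (y : V) (a : ℤ) : 0 ≤ a * (a - eps T y) := by
  unfold eps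
  split_ifs
  · exact int_mul_pred a
  · have := int_mul_succ a
    nlinarith

lemma pair_eps {s : Finset V} (hs : s.card = 2) :
    (s ⊆ T ∧ ∑ y ∈ s, eps T y = 2) ∨
      ((∃ t c, t ≠ c ∧ s = {t, c} ∧ t ∈ T ∧ c ∉ T) ∧ ∑ y ∈ s, eps T y = 0) ∨
        ((∀ y ∈ s, y ∉ T) ∧ ∑ y ∈ s, eps T y = -2) := by
  obtain ⟨a, b, hab, rfl⟩ := Finset.card_eq_two.1 hs
  rw [Finset.sum_pair hab]
  unfold eps
  by_cases ha : a ∈ T <;> by_cases hb : b ∈ T
  · left
    constructor
    · intro y hy
      rw [mem_insert, mem_singleton] at hy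
      rcases hy with rfl | rfl <;> assumption
    · simp [ha, hb]
  · right; left
    exact ⟨⟨a, b, hab, rfl, ha, hb⟩, by simp [ha, hb]⟩
  · right; left
    exact ⟨⟨b, a, hab.symm, Finset.pair_comm a b, hb, ha⟩, by simp [ha, hb]⟩
  · right; right
    constructor
    · intro y hy
      rw [mem_insert, mem_singleton] at hy
      rcases hy with rfl | rfl <;> assumption
    · simp [ha, hb]

namespace Row

variable (R : Row U T W)

include R

lemma cases {s : Finset V} (hs : s ∈ U.powersetCard 2) : W s = -1 ∨ W s = 0 ∨ W s = 1 := by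
  have h1 := R.le1 s hs
  have h2 := R.ge1 s hs
  omega

lemma rhs_le {s : Finset V} (hs : s ∈ U.powersetCard 2) :
    W s ^ 2 + W s - (∑ y ∈ s, eps T y) * W s ≤ 0 := by
  have hc := (mem_powersetCard.1 hs).2
  rcases R.cases hs with h | h | h
  · rcases pair_eps (T := T) hc with ⟨h1, _⟩ | ⟨_, h1⟩ | ⟨_, h1⟩
    · exact absurd h1 (R.lost s hs (by omega))
    · rw [h, h1]; norm_num
    · rw [h, h1]; norm_num
  · rw [h]; norm_num
  · have h1 := R.new s hs (by omega)
    rcases pair_eps (T := T) hc with ⟨_, h2⟩ | ⟨⟨t, c, _, rfl, _, h3⟩, _⟩ | ⟨h3, _⟩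
    · rw [h, h2]; norm_num
    · exact absurd (h1 (by simp)) h3
    · obtain ⟨a, b, hab, rfl⟩ := Finset.card_eq_two.1 hc
      exact absurd (h1 (by simp : a ∈ ({a, b} : Finset V))) (h3 a (by simp))

lemma both_zero : (∀ y ∈ U, sm U W y * (sm U W y - eps T y) = 0) ∧
    ∀ s ∈ U.powersetCard 2, W s ^ 2 + W s - (∑ y ∈ s, eps T y) * W s = 0 := by
  have h1 := star_identity T R.j1 R.j2
  have h2 : 0 ≤ ∑ y ∈ U, (sm U W y * (sm U W y - eps T y)) :=
    Finset.sum_nonneg fun y _ => mul_eps_nonneg T y _
  have h3 : ∑ s ∈ U.powersetCard 2, (W s ^ 2 + W s - (∑ y ∈ s, eps T y) * W s) ≤ 0 :=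
    Finset.sum_nonpos fun s hs => R.rhs_le hs
  constructor
  · exact (Finset.sum_eq_zero_iff_of_nonneg fun y _ => mul_eps_nonneg T y _).1 (by omega)
  · exact (Finset.sum_eq_zero_iff_of_nonpos fun s hs => R.rhs_le hs).1 (by omega)

/-- the weight sum at a tip is `0` or `1` -/
theorem tip {y : V} (hy : y ∈ U) (hT : y ∈ T) : sm U W y = 0 ∨ sm U W y = 1 := by
  have h1 := R.both_zero.1 y hy
  rw [eps, if_pos hT] at h1
  rcases mul_eq_zero.1 h1 with h | h
  · exact Or.inl h
  · exact Or.inr (by omega)

/-- the weight sum at any other vertex is `0` or `-1` -/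
theorem nontip {y : V} (hy : y ∈ U) (hT : y ∉ T) : sm U W y = 0 ∨ sm U W y = -1 := by
  have h1 := R.both_zero.1 y hy
  rw [eps, if_neg hT] at h1
  rcases mul_eq_zero.1 h1 with h | h
  · exact Or.inl h
  · exact Or.inr (by omega)

/-- every lost pair joins a tip and another vertex -/
theorem lost_pair {s : Finset V} (hs : s ∈ U.powersetCard 2) (hW : W s = -1) :
    ∃ t c, t ≠ c ∧ s = {t, c} ∧ t ∈ T ∧ c ∉ T := by
  have h1 := R.both_zero.2 s hs
  rcases pair_eps (T := T) (mem_powersetCard.1 hs).2 with ⟨h2, _⟩ | ⟨h2, _⟩ | ⟨_, h2⟩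
  · exact absurd h2 (R.lost s hs (by omega))
  · exact h2
  · rw [hW, h2] at h1
    norm_num at h1

lemma sm_eq {y : V} : sm U W y = ((Nw U W y).card : ℤ) - (Ls U W y).card := by
  have h1 : sm U W y = ∑ s ∈ (U.powersetCard 2).filter (fun s => y ∈ s),
      ((if W s = 1 then 1 else 0) - (if W s = -1 then 1 else 0) : ℤ) := by
    apply Finset.sum_congr rfl
    intro s hs
    rw [mem_filter] at hs
    rcases R.cases hs.1 with h | h | h <;> rw [h] <;> norm_num
  rw [h1, Finset.sum_sub_distrib, Finset.sum_boole, Finset.sum_boole, Nw, Ls,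
    Finset.filter_filter, Finset.filter_filter]

lemma Nw_nontip {y : V} (hT : y ∉ T) : Nw U W y = ∅ := by
  rw [Finset.eq_empty_iff_forall_notMem]
  intro s hs
  rw [mem_Nw] at hs
  exact hT (R.new s hs.1 (by omega) hs.2.1)

/-- at a vertex which is not a tip there is at most one lost pair and no new pair -/
theorem nontip_ls {y : V} (hy : y ∈ U) (hT : y ∉ T) : (Ls U W y).card ≤ 1 := by
  have h1 := R.nontip hy hT
  have h2 := R.sm_eq (y := y)
  rw [R.Nw_nontip hT, Finset.card_empty] at h2
  omega

lemma card_Nw {y : V} (hy : y ∈ U) (hT : y ∈ T) :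
    (Nw U W y).card = (Ls U W y).card ∨ (Nw U W y).card = (Ls U W y).card + 1 := by
  have h1 := R.tip hy hT
  have h2 := R.sm_eq (y := y)
  omega

omit R in
lemma sm_ind1 (y : V) :
    sm U (fun s => if W s = 1 then 1 else 0) y = ((Nw U W y).card : ℤ) := by
  rw [sm, Finset.sum_boole, Finset.filter_filter, Nw]

omit R in
lemma sm_ind2 (y : V) :
    sm U (fun s => if W s = -1 then 1 else 0) y = ((Ls U W y).card : ℤ) := by
  rw [sm, Finset.sum_boole, Finset.filter_filter, Ls]

/-- the pairs of type `new` have two tips, the lost ones one -/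
lemma sum_tips (g : V → ℤ) (hg : ∀ y, g y = if y ∈ T then 1 else 0) :
    ∑ y ∈ U, g y * (Nw U W y).card = 2 * ((U.powersetCard 2).filter fun s => W s = 1).card ∧
      ∑ y ∈ U, g y * (Ls U W y).card = ((U.powersetCard 2).filter fun s => W s = -1).card := by
  constructor
  · have h1 := sum_sm (U := U) (W := fun s => if W s = 1 then 1 else 0) g
    rw [Finset.sum_congr rfl fun y _ => by rw [sm_ind1 (W := W) y]] at h1
    rw [h1, Finset.card_filter]
    push_cast
    rw [Finset.mul_sum]
    apply Finset.sum_congr rfl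
    intro s hs
    by_cases h : W s = 1
    · have h2 := R.new s hs (by omega)
      have h3 : ∑ y ∈ s, g y = 2 := by
        rw [Finset.sum_congr rfl fun y hy => by rw [hg y, if_pos (h2 hy)], Finset.sum_const,
          (mem_powersetCard.1 hs).2]
        norm_num
      rw [h3]
    · simp [h]
  · have h1 := sum_sm (U := U) (W := fun s => if W s = -1 then 1 else 0) g
    rw [Finset.sum_congr rfl fun y _ => by rw [sm_ind2 (W := W) y]] at h1
    rw [h1, Finset.card_filter]
    push_cast
    apply Finset.sum_congr rfl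
    intro s hs
    by_cases h : W s = -1
    · obtain ⟨t, c, htc, rfl, h2, h3⟩ := R.lost_pair hs h
      rw [Finset.sum_pair htc, hg t, hg c, if_pos h2, if_neg h3]
      norm_num
    · simp [h]

lemma card_new : ((U.powersetCard 2).filter fun s => W s = 1).card =
    ((U.powersetCard 2).filter fun s => W s = -1).card := by
  have h1 := R.j1
  have h2 : ∑ s ∈ U.powersetCard 2, W s = ∑ s ∈ U.powersetCard 2,
      ((if W s = 1 then 1 else 0) - (if W s = -1 then 1 else 0) : ℤ) := by
    apply Finset.sum_congr rfl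
    intro s hs
    rcases R.cases hs with h | h | h <;> rw [h] <;> norm_num
  rw [h2, Finset.sum_sub_distrib, Finset.sum_boole, Finset.sum_boole] at h1
  omega

/-- **balance at the tips** -/
theorem balance : ∑ y ∈ U.filter (fun y => y ∈ T),
    (((Nw U W y).card : ℤ) - 2 * (Ls U W y).card) = 0 := by
  obtain ⟨h1, h2⟩ := R.sum_tips (fun y => if y ∈ T then 1 else 0) fun y => rfl
  have h3 := R.card_new
  rw [Finset.sum_filter]
  have h4 : ∀ y ∈ U, (if y ∈ T then (((Nw U W y).card : ℤ) - 2 * (Ls U W y).card) else 0) =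
      (if y ∈ T then (1 : ℤ) else 0) * (Nw U W y).card -
        2 * ((if y ∈ T then (1 : ℤ) else 0) * (Ls U W y).card) := by
    intro y _
    split_ifs <;> ring
  rw [Finset.sum_congr rfl h4, Finset.sum_sub_distrib, ← Finset.mul_sum, h1, h2, h3]
  ring

/-- the vanishing of the coefficient of `X^#tips` gives a tip without lost pair -/
theorem exists_free (hne : (U.filter fun y => y ∈ T).Nonempty)
    (one : ∀ y ∈ U, y ∈ T → (Ls U W y).card ≤ 1)
    (hM : ∀ J : ℕ, 1 ≤ J → ∑ M ∈ (U.powersetCard 2).powerset.filter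
      (fun M : Finset (Finset V) => (M : Set (Finset V)).PairwiseDisjoint id ∧ M.card = J),
        ∏ s ∈ M, W s = 0) :
    ∃ u ∈ U, u ∈ T ∧ Ls U W u = ∅ := by
  by_contra hcon
  push Not at hcon
  have h1 : ∀ y ∈ U, y ∈ T → (Ls U W y).card = 1 := by
    intro y hy hT
    have h2 := one y hy hT
    have h3 := Finset.card_pos.2 (hcon y hy hT)
    omega
  set M0 := (U.powersetCard 2).filter fun s => W s = -1 with hM0
  set J := (U.filter fun y => y ∈ T).card with hJ
  have hM0c : M0.card = J := by
    have h2 := (R.sum_tips (fun y => if y ∈ T then 1 else 0) fun y => rfl).2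
    have h3 : ∑ y ∈ U, (if y ∈ T then (1 : ℤ) else 0) * ((Ls U W y).card : ℤ) = J := by
      rw [hJ, Finset.card_filter]
      push_cast
      apply Finset.sum_congr rfl
      intro y hy
      by_cases hT : y ∈ T
      · rw [h1 y hy hT]; simp
      · simp [hT]
    rw [h3] at h2
    exact_mod_cast h2.symm
  have hall : ∀ y ∈ U, (Ls U W y).card ≤ 1 := by
    intro y hy
    by_cases hT : y ∈ T
    · exact one y hy hT
    · exact R.nontip_ls hy hT
  have hM0d : (M0 : Set (Finset V)).PairwiseDisjoint id := by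
    intro s hs s' hs' hss
    simp only [Function.onFun, id]
    rw [Finset.disjoint_left]
    intro y hy hy'
    rw [mem_coe, hM0, mem_filter] at hs hs'
    have h2 := hall y ((mem_powersetCard.1 hs.1).1 hy)
    rw [Finset.card_le_one] at h2
    exact hss (h2 s (mem_Ls.2 ⟨hs.1, hy, hs.2⟩) s' (mem_Ls.2 ⟨hs'.1, hy', hs'.2⟩))
  have h2 := hM J (Finset.card_pos.2 hne)
  rw [Finset.sum_eq_single M0] at h2
  · rw [Finset.prod_congr rfl (g := fun _ => (-1 : ℤ)), Finset.prod_const] at h2
    · exact absurd h2 (pow_ne_zero _ (by norm_num))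
    · intro s hs
      rw [hM0, mem_filter] at hs
      exact hs.2
  · intro M hM' hMne
    rw [mem_filter, mem_powerset] at hM'
    obtain ⟨hMs, hMd, hMc⟩ := hM'
    by_contra hprod
    rw [Finset.prod_eq_zero_iff] at hprod
    push Not at hprod
    have h3 : ∀ s ∈ M, 1 ≤ (s.filter fun y => y ∈ T).card := by
      intro s hs
      have hs' := hMs hs
      rw [Nat.one_le_iff_ne_zero, Finset.card_ne_zero]
      rcases R.cases hs' with h | h | h
      · obtain ⟨t, c, _, rfl, ht, _⟩ := R.lost_pair hs' h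
        exact ⟨t, by simp [ht]⟩
      · exact absurd h (hprod s hs)
      · have h4 := R.new s hs' (by omega)
        obtain ⟨a, b, _, rfl⟩ := Finset.card_eq_two.1 (mem_powersetCard.1 hs').2
        exact ⟨a, by simp [h4 (show a ∈ ({a, b} : Finset V) by simp)]⟩
    have h4 : ∑ s ∈ M, (s.filter fun y => y ∈ T).card ≤ J := by
      rw [← Finset.card_biUnion]
      · apply Finset.card_le_card
        intro y hy
        rw [mem_biUnion] at hy
        obtain ⟨s, hs, hy⟩ := hy
        rw [mem_filter] at hy ⊢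
        exact ⟨(mem_powersetCard.1 (hMs hs)).1 hy.1, hy.2⟩
      · intro s hs s' hs' hss
        exact Finset.disjoint_filter_filter (hMd hs hs' hss)
    have h5 : ∀ s ∈ M, (s.filter fun y => y ∈ T).card = 1 := by
      by_contra h6
      push Not at h6
      obtain ⟨s, hs, hs'⟩ := h6
      have h7 := h3 s hs
      have h8 : ∑ s ∈ M, 1 < ∑ s ∈ M, (s.filter fun y => y ∈ T).card :=
        Finset.sum_lt_sum (fun s hs => h3 s hs) ⟨s, hs, by omega⟩
      rw [Finset.sum_const, smul_eq_mul, mul_one] at h8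
      omega
    apply hMne
    apply Finset.eq_of_subset_of_card_le
    · intro s hs
      rw [hM0, mem_filter]
      refine ⟨hMs hs, ?_⟩
      rcases R.cases (hMs hs) with h | h | h
      · exact h
      · exact absurd h (hprod s hs)
      · exfalso
        have h6 := R.new s (hMs hs) (by omega)
        have h7 : s.filter (fun y => y ∈ T) = s := Finset.filter_true_of_mem fun y hy => h6 hy
        have h8 := h5 s hs
        rw [h7, (mem_powersetCard.1 (hMs hs)).2] at h8
        omega
    · rw [hM0c, hMc]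
  · intro h3
    exfalso
    apply h3
    rw [mem_filter, mem_powerset]
    exact ⟨Finset.filter_subset _ _, hM0d, hM0c⟩

end Row

/-- a chain: tips `y 0, .., y L`, other vertices `c 1, .., c L`; the new pairs are
`{y j, y (j+1)}`, the lost pairs `{y j, c j}` -/
structure IsChain (U T : Finset V) (W : Finset V → ℤ) (L : ℕ) (y c : ℕ → V) : Prop where
  pos : 1 ≤ L
  tip : ∀ j ≤ L, y j ∈ U ∧ y j ∈ T
  inn : ∀ j, 1 ≤ j → j ≤ L → c j ∈ U ∧ c j ∉ T
  yinj : ∀ j ≤ L, ∀ k ≤ L, y j = y k → j = k
  cinj : ∀ j, 1 ≤ j → j ≤ L → ∀ k, 1 ≤ k → k ≤ L → c j = c k → j = k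
  new : ∀ j < L, W {y j, y (j + 1)} = 1
  lost : ∀ j, 1 ≤ j → j ≤ L → W {y j, c j} = -1
  all : ∀ s ∈ U.powersetCard 2, W s ≠ 0 →
    (∃ j < L, s = {y j, y (j + 1)}) ∨ ∃ j, 1 ≤ j ∧ j ≤ L ∧ s = {y j, c j}
  ver : ∀ v ∈ U, (∃ j ≤ L, v = y j) ∨ ∃ j, 1 ≤ j ∧ j ≤ L ∧ v = c j

/-- a partial chain -/
structure PC (U T : Finset V) (W : Finset V → ℤ) (n : ℕ) (y : ℕ → V) : Prop where
  tip : ∀ j ≤ n, y j ∈ U ∧ y j ∈ T
  inj : ∀ j ≤ n, ∀ k ≤ n, y j = y k → j = k
  new : ∀ j < n, W {y j, y (j + 1)} = 1
  free : Ls U W (y 0) = ∅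
  low : ∀ j, 1 ≤ j → j < n → (Ls U W (y j)).Nonempty

lemma pair_mem {a b : V} (ha : a ∈ U) (hb : b ∈ U) (hab : a ≠ b) : {a, b} ∈ U.powersetCard 2 := by
  rw [mem_powersetCard]
  refine ⟨?_, Finset.card_pair hab⟩
  intro v hv
  rw [mem_insert, mem_singleton] at hv
  rcases hv with rfl | rfl <;> assumption

lemma other {s : Finset V} {y : V} (hs : s ∈ U.powersetCard 2) (hy : y ∈ s) :
    ∃ z, z ≠ y ∧ z ∈ U ∧ s = {y, z} := by
  rw [mem_powersetCard] at hs
  obtain ⟨a, b, hab, rfl⟩ := Finset.card_eq_two.1 hs.2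
  rw [mem_insert, mem_singleton] at hy
  rcases hy with rfl | rfl
  · exact ⟨b, hab.symm, hs.1 (by simp), rfl⟩
  · exact ⟨a, hab, hs.1 (by simp), Finset.pair_comm a y⟩

lemma pair_eq {a b x : V} (h : ({a, x} : Finset V) = {b, x}) : a = b := by
  by_contra hab
  have h1 : a ∈ ({b, x} : Finset V) := by rw [← h]; simp
  have h2 : b ∈ ({a, x} : Finset V) := by rw [h]; simp
  rw [mem_insert, mem_singleton] at h1 h2
  rcases h1 with h1 | h1
  · exact hab h1
  · rcases h2 with h2 | h2
    · exact hab h2.symm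
    · exact hab (h1.trans h2.symm)

namespace PC

variable {n : ℕ} {y : ℕ → V} (P : PC U T W n y)

include P

lemma ne {j : ℕ} (hj : j < n) : y j ≠ y (j + 1) := by
  intro h
  have := P.inj j (by omega) (j + 1) (by omega) h
  omega

lemma right_mem {j : ℕ} (hj : j < n) : {y j, y (j + 1)} ∈ Nw U W (y j) :=
  mem_Nw.2 ⟨pair_mem (P.tip j (by omega)).1 (P.tip (j + 1) (by omega)).1 (P.ne hj), by simp,
    P.new j hj⟩

lemma left_mem {j : ℕ} (hj : j < n) : {y j, y (j + 1)} ∈ Nw U W (y (j + 1)) :=
  mem_Nw.2 ⟨pair_mem (P.tip j (by omega)).1 (P.tip (j + 1) (by omega)).1 (P.ne hj), by simp,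
    P.new j hj⟩

lemma two_ne {j : ℕ} (hj : j + 1 < n) :
    ({y j, y (j + 1)} : Finset V) ≠ {y (j + 1), y (j + 1 + 1)} := by
  intro h
  rw [Finset.pair_comm (y (j + 1))] at h
  have := P.inj j (by omega) (j + 1 + 1) (by omega) (pair_eq h)
  omega

/-- the new pairs at a vertex of a partial chain before the last one -/
lemma nw_eq (R : Row U T W) (one : ∀ y ∈ U, y ∈ T → (Ls U W y).card ≤ 1) {j : ℕ} (hj : j < n)
    {s : Finset V} (hs : s ∈ Nw U W (y j)) : ∃ k < n, s = {y k, y (k + 1)} := by
  obtain ⟨h1, h2⟩ := P.tip j (by omega)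
  have h3 := R.card_Nw h1 h2
  rcases Nat.eq_zero_or_pos j with rfl | hj0
  · have h4 : (Ls U W (y 0)).card = 0 := by rw [P.free, Finset.card_empty]
    have h5 : (Nw U W (y 0)).card ≤ 1 := by omega
    rw [Finset.card_le_one] at h5
    exact ⟨0, hj, h5 s hs _ (P.right_mem hj)⟩
  · obtain ⟨i, rfl⟩ : ∃ i, j = i + 1 := ⟨j - 1, by omega⟩
    have h4 := one _ h1 h2
    have h5 : (Nw U W (y (i + 1))).card ≤ 2 := by omega
    have h6 : ({({y i, y (i + 1)} : Finset V), {y (i + 1), y (i + 1 + 1)}} :
        Finset (Finset V)) ⊆ Nw U W (y (i + 1)) := by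
      intro t ht
      rw [mem_insert, mem_singleton] at ht
      rcases ht with rfl | rfl
      · exact P.left_mem (by omega)
      · exact P.right_mem hj
    have h7 := Finset.eq_of_subset_of_card_le h6 (by
      rw [Finset.card_pair (P.two_ne hj)]
      exact h5)
    rw [← h7, mem_insert, mem_singleton] at hs
    rcases hs with rfl | rfl
    · exact ⟨i, by omega, rfl⟩
    · exact ⟨i + 1, hj, rfl⟩

/-- if the last vertex has one new pair, the partial chain with its lost pairs is closed -/
theorem closed (R : Row U T W) (one : ∀ y ∈ U, y ∈ T → (Ls U W y).card ≤ 1)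
    (hconn : ∀ U' ⊆ U, U'.Nonempty → (∀ s ∈ U.powersetCard 2, W s ≠ 0 → ∀ v ∈ s, v ∈ U' →
      s ⊆ U') → U' = U) (hn : 1 ≤ n) (hlast : (Nw U W (y n)).card ≤ 1) :
    (∀ j ≤ n, ∀ s ∈ Nw U W (y j), ∃ k < n, s = {y k, y (k + 1)}) ∧
      ∀ v ∈ U, (∃ j ≤ n, v = y j) ∨ ∃ j ≤ n, ∃ s ∈ Ls U W (y j), v ∈ s := by
  have hnw : ∀ j ≤ n, ∀ s ∈ Nw U W (y j), ∃ k < n, s = {y k, y (k + 1)} := by
    intro j hj s hs
    rcases Nat.lt_or_ge j n with h | h
    · exact P.nw_eq R one h hs
    · obtain rfl : j = n := by omega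
      obtain ⟨i, rfl⟩ : ∃ i, j = i + 1 := ⟨j - 1, by omega⟩
      rw [Finset.card_le_one] at hlast
      exact ⟨i, by omega, hlast s hs _ (P.left_mem (by omega))⟩
  refine ⟨hnw, ?_⟩
  set U' := U.filter fun v => (∃ j ≤ n, v = y j) ∨ ∃ j ≤ n, ∃ s ∈ Ls U W (y j), v ∈ s with hU'
  have h1 : U' = U := by
    apply hconn U' (Finset.filter_subset _ _)
    · exact ⟨y 0, by rw [hU', mem_filter]; exact ⟨(P.tip 0 (by omega)).1, Or.inl ⟨0, by omega, rfl⟩⟩⟩
    · intro s hs hW v hv hvU
      rw [hU', mem_filter] at hvU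
      have hsU := (mem_powersetCard.1 hs).1
      have key : ∀ j ≤ n, y j ∈ s → s ⊆ U' := by
        intro j hj hys v' hv'
        rw [hU', mem_filter]
        refine ⟨hsU hv', ?_⟩
        rcases R.cases hs with h | h | h
        · exact Or.inr ⟨j, hj, s, mem_Ls.2 ⟨hs, hys, h⟩, hv'⟩
        · exact absurd h hW
        · obtain ⟨k, hk, rfl⟩ := hnw j hj s (mem_Nw.2 ⟨hs, hys, h⟩)
          rw [mem_insert, mem_singleton] at hv'
          rcases hv' with rfl | rfl
          · exact Or.inl ⟨k, by omega, rfl⟩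
          · exact Or.inl ⟨k + 1, by omega, rfl⟩
      rcases hvU.2 with ⟨j, hj, rfl⟩ | ⟨j, hj, s', hs', hvs'⟩
      · exact key j hj hv
      · by_cases hvy : v = y j
        · exact key j hj (hvy ▸ hv)
        · rw [mem_Ls] at hs'
          obtain ⟨t, c, htc, rfl, ht, hc⟩ := R.lost_pair hs'.1 hs'.2.2
          have h2 : y j = t := by
            have h3 := hs'.2.1
            rw [mem_insert, mem_singleton] at h3
            rcases h3 with h3 | h3
            · exact h3
            · exact absurd (h3 ▸ (P.tip j hj).2) hc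
          have h4 : v = c := by
            rw [mem_insert, mem_singleton] at hvs'
            rcases hvs' with h5 | h5
            · exact absurd (h5.trans h2.symm) hvy
            · exact h5
          subst h4
          have h5 : W s = -1 := by
            rcases R.cases hs with h | h | h
            · exact h
            · exact absurd h hW
            · exact absurd (R.new s hs (by omega) hv) hc
          have h6 := R.nontip_ls hvU.1 hc
          rw [Finset.card_le_one] at h6
          have h7 : s = {t, v} := h6 s (mem_Ls.2 ⟨hs, hv, h5⟩) _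
            (mem_Ls.2 ⟨hs'.1, by simp, hs'.2.2⟩)
          apply key j hj
          rw [h7, h2]
          simp
  intro v hv
  rw [← h1, hU', mem_filter] at hv
  exact hv.2

/-- a partial chain is a chain or can be continued -/
theorem step (R : Row U T W) (one : ∀ y ∈ U, y ∈ T → (Ls U W y).card ≤ 1)
    (hconn : ∀ U' ⊆ U, U'.Nonempty → (∀ s ∈ U.powersetCard 2, W s ≠ 0 → ∀ v ∈ s, v ∈ U' →
      s ⊆ U') → U' = U) (hn : 1 ≤ n) :
    (∃ L y c, IsChain U T W L y c) ∨ ∃ y', PC U T W (n + 1) y' := by
  obtain ⟨hU, hT⟩ := P.tip n le_rfl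
  by_cases hcard : (Nw U W (y n)).card ≤ 1
  · left
    obtain ⟨hnw, hver⟩ := P.closed R one hconn hn hcard
    -- the last vertex has a lost pair
    have hlast : (Ls U W (y n)).Nonempty := by
      rw [Finset.nonempty_iff_ne_empty]
      intro hemp
      have h1 := R.balance
      have htip : ∀ v ∈ U, v ∈ T → ∃ j ≤ n, v = y j := by
        intro v hv hvT
        rcases hver v hv with h | ⟨j, hj, s, hs, hvs⟩
        · exact h
        · rw [mem_Ls] at hs
          obtain ⟨t, c, htc, rfl, ht, hc⟩ := R.lost_pair hs.1 hs.2.2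
          have h3 := hs.2.1
          rw [mem_insert, mem_singleton] at h3 hvs
          refine ⟨j, hj, ?_⟩
          rcases hvs with rfl | rfl
          · rcases h3 with h3 | h3
            · exact h3.symm
            · exact absurd (h3 ▸ (P.tip j hj).2) hc
          · exact absurd hvT hc
      have hge : ∀ v ∈ U.filter (fun v => v ∈ T),
          0 ≤ (((Nw U W v).card : ℤ) - 2 * (Ls U W v).card) := by
        intro v hv
        rw [mem_filter] at hv
        obtain ⟨j, hj, rfl⟩ := htip v hv.1 hv.2
        rcases Nat.eq_zero_or_pos j with rfl | hj0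
        · rw [P.free, Finset.card_empty]
          omega
        · rcases Nat.lt_or_ge j n with h | h
          · have h4 := one _ hv.1 hv.2
            obtain ⟨i, rfl⟩ : ∃ i, j = i + 1 := ⟨j - 1, by omega⟩
            have h6 : ({({y i, y (i + 1)} : Finset V), {y (i + 1), y (i + 1 + 1)}} :
                Finset (Finset V)) ⊆ Nw U W (y (i + 1)) := by
              intro t ht
              rw [mem_insert, mem_singleton] at ht
              rcases ht with rfl | rfl
              · exact P.left_mem (by omega)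
              · exact P.right_mem h
            have h7 := Finset.card_le_card h6
            rw [Finset.card_pair (P.two_ne h)] at h7
            omega
          · obtain rfl : j = n := by omega
            rw [hemp, Finset.card_empty]
            omega
      have h0 : y 0 ∈ U.filter (fun v => v ∈ T) := by
        rw [mem_filter]
        exact P.tip 0 (by omega)
      rw [Finset.sum_eq_zero_iff_of_nonneg hge] at h1
      have h2 := h1 _ h0
      rw [P.free, Finset.card_empty] at h2
      have h3 := Finset.card_pos.2 ⟨_, P.right_mem (j := 0) (by omega)⟩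
      omega
    have hex : ∀ j, ∃ c, 1 ≤ j → j ≤ n → c ∈ U ∧ c ∉ T ∧ y j ≠ c ∧ W {y j, c} = -1 ∧
        ∀ s ∈ Ls U W (y j), s = {y j, c} := by
      intro j
      by_cases hj : 1 ≤ j ∧ j ≤ n
      · have h1 : (Ls U W (y j)).Nonempty := by
          rcases Nat.lt_or_ge j n with h | h
          · exact P.low j hj.1 h
          · obtain rfl : j = n := by omega
            exact hlast
        obtain ⟨s, hs⟩ := h1
        have hs' := mem_Ls.1 hs
        obtain ⟨t, c, htc, rfl, ht, hc⟩ := R.lost_pair hs'.1 hs'.2.2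
        have h3 := hs'.2.1
        rw [mem_insert, mem_singleton] at h3
        have h4 : y j = t := by
          rcases h3 with h3 | h3
          · exact h3
          · exact absurd (h3 ▸ (P.tip j hj.2).2) hc
        rw [← h4] at hs hs' htc
        refine ⟨c, fun _ _ => ⟨(mem_powersetCard.1 hs'.1).1 (by simp), hc, htc, hs'.2.2, ?_⟩⟩
        intro s hs2
        have h5 := one _ (P.tip j hj.2).1 (P.tip j hj.2).2
        rw [Finset.card_le_one] at h5
        exact h5 _ hs2 _ hs
      · exact ⟨y 0, fun h1 h2 => absurd ⟨h1, h2⟩ hj⟩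
    choose c hc using hex
    have hls : ∀ j ≤ n, ∀ s ∈ Ls U W (y j), 1 ≤ j ∧ s = {y j, c j} := by
      intro j hj s hs
      rcases Nat.eq_zero_or_pos j with rfl | hj0
      · rw [P.free] at hs
        exact absurd hs (Finset.notMem_empty _)
      · exact ⟨hj0, (hc j hj0 hj).2.2.2.2 s hs⟩
    refine ⟨n, y, c, hn, P.tip, fun j h1 h2 => ⟨(hc j h1 h2).1, (hc j h1 h2).2.1⟩, P.inj, ?_,
      P.new, fun j h1 h2 => (hc j h1 h2).2.2.2.1, ?_, ?_⟩
    · intro j h1 h2 k h3 h4 hjk
      have h5 := R.nontip_ls (hc j h1 h2).1 (hc j h1 h2).2.1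
      rw [Finset.card_le_one] at h5
      have h6 : {y j, c j} ∈ Ls U W (c j) :=
        mem_Ls.2 ⟨pair_mem (P.tip j h2).1 (hc j h1 h2).1 (hc j h1 h2).2.2.1, by simp,
          (hc j h1 h2).2.2.2.1⟩
      have h7 : {y k, c k} ∈ Ls U W (c j) := by
        rw [hjk]
        exact mem_Ls.2 ⟨pair_mem (P.tip k h4).1 (hc k h3 h4).1 (hc k h3 h4).2.2.1, by simp,
          (hc k h3 h4).2.2.2.1⟩
      have h8 := h5 _ h6 _ h7
      rw [← hjk] at h8
      exact P.inj j h2 k h4 (pair_eq h8)
    · intro s hs hW
      obtain ⟨v, hv⟩ : s.Nonempty := by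
        rw [← Finset.card_pos, (mem_powersetCard.1 hs).2]
        norm_num
      have key : ∀ j ≤ n, y j ∈ s → (∃ j < n, s = {y j, y (j + 1)}) ∨
          ∃ j, 1 ≤ j ∧ j ≤ n ∧ s = {y j, c j} := by
        intro j hj hys
        rcases R.cases hs with h | h | h
        · obtain ⟨h1, h2⟩ := hls j hj s (mem_Ls.2 ⟨hs, hys, h⟩)
          exact Or.inr ⟨j, h1, hj, h2⟩
        · exact absurd h hW
        · exact Or.inl (hnw j hj s (mem_Nw.2 ⟨hs, hys, h⟩))
      rcases hver v ((mem_powersetCard.1 hs).1 hv) with ⟨j, hj, rfl⟩ | ⟨j, hj, s', hs', hvs'⟩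
      · exact key j hj hv
      · obtain ⟨h1, rfl⟩ := hls j hj s' hs'
        rw [mem_insert, mem_singleton] at hvs'
        rcases hvs' with rfl | rfl
        · exact key j hj hv
        · have h5 : W s = -1 := by
            rcases R.cases hs with h | h | h
            · exact h
            · exact absurd h hW
            · exact absurd (R.new s hs (by omega) hv) (hc j h1 hj).2.1
          have h6 := R.nontip_ls (hc j h1 hj).1 (hc j h1 hj).2.1
          rw [Finset.card_le_one] at h6
          rw [mem_Ls] at hs'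
          have h7 : s = {y j, c j} := h6 s (mem_Ls.2 ⟨hs, hv, h5⟩) _
            (mem_Ls.2 ⟨hs'.1, by simp, hs'.2.2⟩)
          exact Or.inr ⟨j, h1, hj, h7⟩
    · intro v hv
      rcases hver v hv with h | ⟨j, hj, s, hs, hvs⟩
      · exact Or.inl h
      · obtain ⟨h1, rfl⟩ := hls j hj s hs
        rw [mem_insert, mem_singleton] at hvs
        rcases hvs with rfl | rfl
        · exact Or.inl ⟨j, hj, rfl⟩
        · exact Or.inr ⟨j, h1, hj, rfl⟩
  · right
    have h1 := one _ hU hT
    have h2 := R.card_Nw hU hT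
    have hlow : (Ls U W (y n)).Nonempty := by
      rw [← Finset.card_pos]
      omega
    obtain ⟨i, hi⟩ : ∃ i, n = i + 1 := ⟨n - 1, by omega⟩
    obtain ⟨s, hs, hsne⟩ : ∃ s ∈ Nw U W (y n), s ≠ {y i, y n} := by
      by_contra hcon
      push Not at hcon
      apply hcard
      rw [Finset.card_le_one]
      intro a ha b hb
      rw [hcon a ha, hcon b hb]
    have hs' := mem_Nw.1 hs
    obtain ⟨z, hzy, hzU, rfl⟩ := other hs'.1 hs'.2.1
    have hzT : z ∈ T := R.new _ hs'.1 (by omega) (by simp)
    have hznew : ∀ j ≤ n, z ≠ y j := by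
      intro j hj hz
      rcases Nat.lt_or_ge j n with h | h
      · obtain ⟨k, hk, hk'⟩ := P.nw_eq R one h (s := {y n, z}) (by
          rw [← hz]
          exact mem_Nw.2 ⟨hs'.1, by simp, hs'.2.2⟩)
        have h5 : y n ∈ ({y k, y (k + 1)} : Finset V) := by rw [← hk']; simp
        rw [mem_insert, mem_singleton] at h5
        rcases h5 with h5 | h5
        · have := P.inj n le_rfl k (by omega) h5
          omega
        · have h6 := P.inj n le_rfl (k + 1) (by omega) h5
          have h7 : k = i := by omega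
          subst h7
          apply hsne
          rw [hk', h6]
      · obtain rfl : j = n := by omega
        exact hzy hz
    refine ⟨fun j => if j ≤ n then y j else z, ?_, ?_, ?_, ?_, ?_⟩
    · intro j hj
      by_cases h : j ≤ n
      · simp only [h, if_true]
        exact P.tip j h
      · simp only [h, if_false]
        exact ⟨hzU, hzT⟩
    · intro j hj k hk hjk
      by_cases h : j ≤ n <;> by_cases h' : k ≤ n
      · simp only [h, h', if_true] at hjk
        exact P.inj j h k h' hjk
      · simp only [h, h', if_true, if_false] at hjk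
        exact absurd hjk.symm (hznew j h)
      · simp only [h, h', if_true, if_false] at hjk
        exact absurd hjk (hznew k h')
      · omega
    · intro j hj
      by_cases h : j + 1 ≤ n
      · have h' : j ≤ n := by omega
        simp only [h, h', if_true]
        exact P.new j (by omega)
      · have h' : j ≤ n := by omega
        simp only [h, h', if_true, if_false]
        obtain rfl : j = n := by omega
        exact hs'.2.2
    · simp only [Nat.zero_le, if_true]
      exact P.free
    · intro j h1 h2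
      have h' : j ≤ n := by omega
      simp only [h', if_true]
      rcases Nat.lt_or_ge j n with h | h
      · exact P.low j h1 h
      · obtain rfl : j = n := by omega
        exact hlow

end PC

/-- **the clusters are chains** -/
theorem exists_chain (R : Row U T W) (one : ∀ y ∈ U, y ∈ T → (Ls U W y).card ≤ 1)
    (hM : ∀ J : ℕ, 1 ≤ J → ∑ M ∈ (U.powersetCard 2).powerset.filter
      (fun M : Finset (Finset V) => (M : Set (Finset V)).PairwiseDisjoint id ∧ M.card = J),
        ∏ s ∈ M, W s = 0)
    (hconn : ∀ U' ⊆ U, U'.Nonempty → (∀ s ∈ U.powersetCard 2, W s ≠ 0 → ∀ v ∈ s, v ∈ U' →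
      s ⊆ U') → U' = U)
    (hne : ∃ s ∈ U.powersetCard 2, W s ≠ 0) : ∃ L y c, IsChain U T W L y c := by
  obtain ⟨s0, hs0, hW0⟩ := hne
  have htip : (U.filter fun y => y ∈ T).Nonempty := by
    rcases R.cases hs0 with h | h | h
    · obtain ⟨t, c, _, rfl, ht, _⟩ := R.lost_pair hs0 h
      exact ⟨t, by rw [mem_filter]; exact ⟨(mem_powersetCard.1 hs0).1 (by simp), ht⟩⟩
    · exact absurd h hW0
    · have h1 := R.new s0 hs0 (by omega)
      obtain ⟨a, b, _, rfl⟩ := Finset.card_eq_two.1 (mem_powersetCard.1 hs0).2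
      exact ⟨a, by rw [mem_filter]; exact ⟨(mem_powersetCard.1 hs0).1 (by simp), h1 (by simp)⟩⟩
  obtain ⟨u, hu, huT, hfree⟩ := R.exists_free htip one hM
  -- the free tip has a new pair
  have hnw : (Nw U W u).Nonempty := by
    rw [Finset.nonempty_iff_ne_empty]
    intro hemp
    have h1 := hconn {u} (by simpa using hu) (Finset.singleton_nonempty u) (by
      intro s hs hW v hv hvu
      rw [mem_singleton] at hvu
      subst hvu
      exfalso
      rcases R.cases hs with h | h | h
      · have h2 : s ∈ Ls U W v := mem_Ls.2 ⟨hs, hv, h⟩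
        rw [hfree] at h2
        exact absurd h2 (Finset.notMem_empty _)
      · exact hW h
      · have h2 : s ∈ Nw U W v := mem_Nw.2 ⟨hs, hv, h⟩
        rw [hemp] at h2
        exact absurd h2 (Finset.notMem_empty _))
    rw [← h1] at hs0
    have h2 := (mem_powersetCard.1 hs0)
    have h3 := Finset.card_le_card h2.1
    rw [h2.2, Finset.card_singleton] at h3
    omega
  obtain ⟨s, hs⟩ := hnw
  have hs' := mem_Nw.1 hs
  obtain ⟨z, hzu, hzU, rfl⟩ := other hs'.1 hs'.2.1
  have hzT : z ∈ T := R.new _ hs'.1 (by omega) (by simp)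
  have hbase : PC U T W 1 (fun j => if j = 0 then u else z) := by
    refine ⟨?_, ?_, ?_, ?_, ?_⟩
    · intro j hj
      by_cases h : j = 0
      · simp only [h, if_true]
        exact ⟨hu, huT⟩
      · simp only [h, if_false]
        exact ⟨hzU, hzT⟩
    · intro j hj k hk hjk
      by_cases h : j = 0 <;> by_cases h' : k = 0
      · omega
      · simp only [h, h', if_true, if_false] at hjk
        exact absurd hjk.symm hzu
      · simp only [h, h', if_true, if_false] at hjk
        exact absurd hjk hzu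
      · omega
    · intro j hj
      obtain rfl : j = 0 := by omega
      simpa using hs'.2.2
    · simpa using hfree
    · intro j h1 h2
      omega
  have hind : ∀ n : ℕ, (∃ L y c, IsChain U T W L y c) ∨ ∃ y, PC U T W (n + 1) y := by
    intro n
    induction n with
    | zero => exact Or.inr ⟨_, hbase⟩
    | succ n ih =>
      rcases ih with h | ⟨y, hy⟩
      · exact Or.inl h
      · exact hy.step R one hconn (by omega)
  rcases hind U.card with h | ⟨y, hy⟩
  · exact h
  · exfalso
    have h1 : (Finset.range (U.card + 2)).card ≤ U.card := by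
      apply Finset.card_le_card_of_injOn y
      · intro j hj
        rw [mem_coe, mem_range] at hj
        exact (hy.tip j (by omega)).1
      · intro j hj k hk hjk
        rw [mem_coe, mem_range] at hj hk
        exact hy.inj j (by omega) k (by omega) hjk
    rw [Finset.card_range] at h1
    omega

end Pool.Gauss.Clu
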