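import Pool.Agent.Work.MP_065141_co.K.MPEv
import Pool.Agent.Work.MP_065141_co.K.Cluster

/-!
# Matching polynomials of a chain
-/

set_option autoImplicit false
set_option linter.unusedSectionVars false
open scoped Classical
open Finset

namespace Pool.Gauss

variable {V : Type}

lemma pf_zero {W : Finset V → ℤ} {g : Finset V} (h : W g = 0) : pf W g = 1 := by
  rw [pf, h, map_zero, zero_mul, map_zero, zero_mul, add_zero]

open MvPolynomial in
lemma pf_pair (W : Finset V → ℤ) {a b : V} (h : a ≠ b) :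
    pf W {a, b} = 1 + C (Polynomial.C (W {a, b}) * Polynomial.X) * (X a * X b) := by
  rw [pf, mono, prod_pair h]

section chain

variable {U T : Finset V} {W : Finset V → ℤ} {L : ℕ} {y c : ℕ → V}
  (ch : Clu.IsChain U T W L y c)

include ch

lemma chainV : ChainV L y c where
  yinj := ch.yinj
  cinj := fun j hj k hk h => by
    have := ch.cinj (j + 1) (by omega) (by omega) (k + 1) (by omega) (by omega) h
    omega
  yc := fun j hj k hk h => (ch.inn (k + 1) (by omega) (by omega)).2 (h ▸ (ch.tip j hj).2)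

/-- the product over all pairs of a chain -/
theorem Phi_chain_eq : Phi W U =
    ∏ j ∈ Ico 0 L, (pf W {y j, y (j + 1)} * pf W {y (j + 1), c (j + 1)}) := by
  have hcv := chainV ch
  have hyy : ∀ j, j < L → y j ≠ y (j + 1) := fun j hj h => by
    have := hcv.yinj j (by omega) (j + 1) (by omega) h
    omega
  have hyc : ∀ j, j ≤ L → ∀ k, k < L → y j ≠ c (k + 1) := hcv.yc
  set A1 : Finset (Finset V) := (Ico 0 L).image fun j => {y j, y (j + 1)} with hA1
  set A2 : Finset (Finset V) := (Ico 0 L).image fun j => {y (j + 1), c (j + 1)} with hA2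
  have hd : Disjoint A1 A2 := by
    rw [Finset.disjoint_left]
    intro s hs hs'
    rw [hA1, mem_image] at hs
    rw [hA2, mem_image] at hs'
    obtain ⟨j, hj, rfl⟩ := hs
    obtain ⟨k, hk, h⟩ := hs'
    rw [mem_Ico] at hj hk
    have h1 : c (k + 1) ∈ ({y j, y (j + 1)} : Finset V) := by
      rw [← h]
      simp
    rw [mem_insert, mem_singleton] at h1
    rcases h1 with h1 | h1
    · exact hyc j (by omega) k (by omega) h1.symm
    · exact hyc (j + 1) (by omega) k (by omega) h1.symm
  have hsub : A1 ∪ A2 ⊆ U.powersetCard 2 := by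
    intro s hs
    rw [mem_union, hA1, hA2, mem_image, mem_image] at hs
    rw [mem_powersetCard]
    rcases hs with ⟨j, hj, rfl⟩ | ⟨j, hj, rfl⟩
    · rw [mem_Ico] at hj
      refine ⟨?_, card_pair (hyy j hj.2)⟩
      intro v hv
      rw [mem_insert, mem_singleton] at hv
      rcases hv with rfl | rfl
      · exact (ch.tip j (by omega)).1
      · exact (ch.tip (j + 1) (by omega)).1
    · rw [mem_Ico] at hj
      refine ⟨?_, card_pair (hyc (j + 1) (by omega) j hj.2)⟩
      intro v hv
      rw [mem_insert, mem_singleton] at hv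
      rcases hv with rfl | rfl
      · exact (ch.tip (j + 1) (by omega)).1
      · exact (ch.inn (j + 1) (by omega) (by omega)).1
  have h1 : Phi W U = ∏ g ∈ A1 ∪ A2, pf W g := by
    rw [Phi]
    symm
    apply prod_subset hsub
    intro s hs hs'
    apply pf_zero
    by_contra h
    apply hs'
    rw [mem_union, hA1, hA2, mem_image, mem_image]
    rcases ch.all s hs h with ⟨j, hj, h2⟩ | ⟨j, hj1, hj2, h2⟩
    · exact Or.inl ⟨j, mem_Ico.2 ⟨by omega, hj⟩, h2.symm⟩
    · obtain ⟨k, rfl⟩ : ∃ k, j = k + 1 := ⟨j - 1, by omega⟩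
      exact Or.inr ⟨k, mem_Ico.2 ⟨by omega, by omega⟩, h2.symm⟩
  rw [h1, prod_union hd, hA1, hA2, prod_image, prod_image, ← prod_mul_distrib]
  · intro j hj k hk h
    rw [mem_coe, mem_Ico] at hj hk
    have h2 : c (j + 1) ∈ ({y (k + 1), c (k + 1)} : Finset V) := by
      have h3 : c (j + 1) ∈ ({y (j + 1), c (j + 1)} : Finset V) := by simp
      have h4 : ({y (j + 1), c (j + 1)} : Finset V) = {y (k + 1), c (k + 1)} := h
      rwa [h4] at h3
    rw [mem_insert, mem_singleton] at h2
    rcases h2 with h2 | h2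
    · exact absurd h2.symm (hyc (k + 1) (by omega) j (by omega))
    · exact hcv.cinj j (by omega) k (by omega) h2
  · intro j hj k hk h
    rw [mem_coe, mem_Ico] at hj hk
    have h4 : ({y j, y (j + 1)} : Finset V) = {y k, y (k + 1)} := h
    have h2 : y j ∈ ({y k, y (k + 1)} : Finset V) := by rw [← h4]; simp
    have h3 : y (j + 1) ∈ ({y k, y (k + 1)} : Finset V) := by rw [← h4]; simp
    rw [mem_insert, mem_singleton] at h2 h3
    rcases h2 with h2 | h2
    · exact hcv.yinj j (by omega) k (by omega) h2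
    · have h5 := hcv.yinj j (by omega) (k + 1) (by omega) h2
      rcases h3 with h3 | h3
      · have := hcv.yinj (j + 1) (by omega) k (by omega) h3
        omega
      · have := hcv.yinj (j + 1) (by omega) (k + 1) (by omega) h3
        omega

open MvPolynomial in
/-- **the product over all pairs of a chain is its factor** -/
theorem Phi_chain : EvEq (0 : Polynomial ℤ) (Phi W U) (Fch Polynomial.X y c 0 L) := by
  have hcv := chainV ch
  rw [Phi_chain_eq ch, Fch]
  apply EvEq.prod
  intro j hj
  rw [mem_Ico] at hj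
  have hyy : y j ≠ y (j + 1) := fun h => by
    have := hcv.yinj j (by omega) (j + 1) (by omega) h
    omega
  have hyc : y (j + 1) ≠ c (j + 1) := hcv.yc (j + 1) (by omega) j hj.2
  rw [pf_pair W hyy, pf_pair W hyc, ch.new j hj.2, ch.lost (j + 1) (by omega) (by omega), Dch]
  refine EvEq.of_ab (y := y (j + 1)) (C (Polynomial.X ^ 2) * (X (y j) * X (c (j + 1)))) ?_
  simp only [map_one, map_neg, one_mul, neg_mul, map_pow, C_0]
  ring

/-- matching polynomials as values of the factor of the chain -/
theorem MP_chain (S : Finset V) : MP W (U \ S) =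
    (-1) ^ S.card * Ev (0 : Polynomial ℤ) (Fch Polynomial.X y c 0 L * mono S) := by
  rw [MP_Ev', (Phi_chain ch).ev_mul', mul_comm (mono S)]


/-! ### closed forms -/

end chain

/-- `1 - X + X ^ 2 - ... ± X ^ n` -/
noncomputable def gX (n : ℕ) : Polynomial ℤ := 1 + geoS (-Polynomial.X) n

lemma gX_zero : gX 0 = 1 := by rw [gX, geoS_zero, add_zero]

lemma gX_succ (n : ℕ) : gX (n + 1) = 1 - Polynomial.X * gX n := by
  rw [gX, geoS_succ, gX]
  ring

lemma zero_sub_one_mul_X : ((0 : Polynomial ℤ) - 1) * Polynomial.X = -Polynomial.X := by ring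

lemma geoS_gX (n : ℕ) : geoS (-Polynomial.X : Polynomial ℤ) n = gX n - 1 := by
  rw [gX]
  ring

section chain

variable {U T : Finset V} {W : Finset V → ℤ} {L : ℕ} {y c : ℕ → V}
  (ch : Clu.IsChain U T W L y c)

include ch

/-- the vertex `y j` removed -/
theorem MP_ch_y {j n : ℕ} (hL : j + n = L) : MP W (U \ {y j}) = gX n := by
  have h := Ev_ch_y (0 : Polynomial ℤ) Polynomial.X (chainV ch) hL
  rw [MP_chain ch, mono, prod_singleton, h, card_singleton, zero_sub_one_mul_X, geoS_gX]
  ring

/-- the vertex `c (j + 1)` removed -/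
theorem MP_ch_c {j n : ℕ} (hL : j + 1 + n = L) : MP W (U \ {c (j + 1)}) = 2 - gX (n + 1) := by
  have h := Ev_ch_c (0 : Polynomial ℤ) Polynomial.X (chainV ch) hL
  rw [MP_chain ch, mono, prod_singleton, h, card_singleton, zero_sub_one_mul_X, geoS_gX]
  ring

theorem MP_ch_yy {j n k : ℕ} (hL : j + n + 1 + k = L) :
    MP W (U \ {y j, y (j + n + 1)}) = gX n * gX k := by
  have hne : y j ≠ y (j + n + 1) := fun h5 => by
    have := (chainV ch).yinj j (by omega) (j + n + 1) (by omega) h5
    omega
  have h := Ev_ch_yy (0 : Polynomial ℤ) Polynomial.X (chainV ch) hL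
  rw [MP_chain ch, mono, prod_pair hne, h, card_pair hne, zero_sub_one_mul_X, geoS_gX, geoS_gX]
  ring

theorem MP_ch_yc {j n k : ℕ} (hL : j + n + 1 + k = L) :
    MP W (U \ {y j, c (j + n + 1)}) = 1 - (gX k - 1) * (gX n - 1) := by
  have hne : y j ≠ c (j + n + 1) := (chainV ch).yc j (by omega) (j + n) (by omega)
  have h := Ev_ch_yc (0 : Polynomial ℤ) Polynomial.X (chainV ch) hL
  rw [MP_chain ch, mono, prod_pair hne, h, card_pair hne, zero_sub_one_mul_X, geoS_gX, geoS_gX]
  ring

theorem MP_ch_cy {j n k : ℕ} (hL : j + 1 + n + k = L) :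
    MP W (U \ {c (j + 1), y (j + 1 + n)}) = (2 - gX n) * gX k := by
  have hne : c (j + 1) ≠ y (j + 1 + n) :=
    ((chainV ch).yc (j + 1 + n) (by omega) j (by omega)).symm
  have h := Ev_ch_cy (0 : Polynomial ℤ) Polynomial.X (chainV ch) hL
  rw [MP_chain ch, mono, prod_pair hne, h, card_pair hne, zero_sub_one_mul_X, geoS_gX, geoS_gX]
  ring

theorem MP_ch_cc {j n k : ℕ} (hL : j + 1 + n + 1 + k = L) :
    MP W (U \ {c (j + 1), c (j + 1 + n + 1)}) =
      1 + 2 * Polynomial.X + (gX k - 1) * (gX (n + 1) - 1 + 2 * Polynomial.X) := by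
  have hne : c (j + 1) ≠ c (j + 1 + n + 1) := fun h5 => by
    have := (chainV ch).cinj j (by omega) (j + 1 + n) (by omega) h5
    omega
  have h := Ev_ch_cc (0 : Polynomial ℤ) Polynomial.X (chainV ch) hL
  rw [MP_chain ch, mono, prod_pair hne, h, card_pair hne, zero_sub_one_mul_X, geoS_gX, geoS_gX]
  ring

/-- the matching polynomial of a chain -/
theorem MP_ch : MP W U = 1 := by
  have h := Ev_ch_one (0 : Polynomial ℤ) Polynomial.X (chainV ch)
  have h2 := MP_chain ch ∅
  rw [sdiff_empty, mono, prod_empty, mul_one, h, card_empty, pow_zero, one_mul] at h2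
  exact h2

end chain

end Pool.Gauss
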