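import Pool.Agent.Work.MP_065141_co.K.PlnW

/-!
# Word facts

Letters of the strip of `a`: the left step `r → r + 1` is S if `lo a (r + 1) = lo a r + 1` and E if
`lo a (r + 1) = lo a r`; the right step is S if `hi a (r + 1) = hi a r` and E if
`hi a (r + 1) = hi a r + 1`.  `lSE lo b a` / `rSE hi b a`: the letters `b, b + 1` are SE.
-/

set_option autoImplicit false
set_option linter.unusedSectionVars false
open scoped Classical
open Finset

namespace Pool.Gauss

variable {α : Type} [Fintype α] [PartialOrder α]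

/-- the left letters `b, b + 1` are SE -/
def lSE (lo : α → ℕ → ℕ) (b : ℕ) (a : α) : Prop :=
  lo a (b + 1) = lo a b + 1 ∧ lo a (b + 2) = lo a (b + 1)

/-- the right letters `b, b + 1` are SE -/
def rSE (hi : α → ℕ → ℕ) (b : ℕ) (a : α) : Prop :=
  hi a (b + 1) = hi a b ∧ hi a (b + 2) = hi a (b + 1) + 1

namespace Pln

variable {lo hi : α → ℕ → ℕ} {i : ℕ} {f : α → ℕ → ℕ → α}

/-! ### lower covers of the border -/

lemma Ch_lo (h : Pln lo hi i f) (C : CtxK α) {a : α} {r : ℕ} (ha : corank a = 0) (hr : r < i)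
    (hs : lo a (r + 1) = lo a r + 1) : Ch (f a r (lo a r)) = {f a (r + 1) (lo a (r + 1))} := by
  have h1 := h.le a r ha (by omega)
  have h2 := h.le a (r + 1) ha (by omega)
  ext x
  rw [h.mem_Ch C ha hr le_rfl h1, mem_singleton]
  constructor
  · rintro ⟨e, h3, h4, h5, rfl⟩
    congr 1
    omega
  · rintro rfl
    exact ⟨lo a (r + 1), by omega, le_rfl, h2, rfl⟩

lemma Ch_hi (h : Pln lo hi i f) (C : CtxK α) {a : α} {r : ℕ} (ha : corank a = 0) (hr : r < i)
    (hs : hi a (r + 1) = hi a r) : Ch (f a r (hi a r)) = {f a (r + 1) (hi a (r + 1))} := by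
  have h1 := h.le a r ha (by omega)
  have h2 := h.le a (r + 1) ha (by omega)
  ext x
  rw [h.mem_Ch C ha hr h1 le_rfl, mem_singleton]
  constructor
  · rintro ⟨e, h3, h4, h5, rfl⟩
    congr 1
    omega
  · rintro rfl
    exact ⟨hi a (r + 1), by omega, h2, le_rfl, rfl⟩

lemma Ch_dbl (h : Pln lo hi i f) (C : CtxK α) {a : α} {r c : ℕ} (ha : corank a = 0) (hr : r < i)
    (h1 : lo a r ≤ c) (h2 : c ≤ hi a r) (h3 : lo a (r + 1) ≤ c) (h4 : c + 1 ≤ hi a (r + 1)) :
    Ch (f a r c) = pr2 f (r + 1) a c := by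
  ext x
  rw [h.mem_Ch C ha hr h1 h2, mem_pr2]
  constructor
  · rintro ⟨e, rfl | rfl, h5, h6, rfl⟩
    · exact Or.inl rfl
    · exact Or.inr rfl
  · rintro (rfl | rfl)
    · exact ⟨c, Or.inl rfl, h3, by omega, rfl⟩
    · exact ⟨c + 1, Or.inr rfl, by omega, h4, rfl⟩

lemma card_pr2 (h : Pln lo hi i f) {b : ℕ} (hb : b ≤ i) {a : α} {c : ℕ} (ha : corank a = 0)
    (h1 : lo a b ≤ c) (h2 : c + 1 ≤ hi a b) : (pr2 f b a c).card = 2 := by
  unfold pr2
  rw [card_pair]
  intro h3
  have := (h.inj a a b c (c + 1) ha ha hb h1 (by omega) (by omega) h2 h3).2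
  omega

/-! ### Q-events -/

lemma QL_mem (h : Pln lo hi i f) (C : CtxK α) {a : α} {b : ℕ} (ha : corank a = 0) (hb : b + 2 ≤ i)
    (hl : lSE lo b a) (hw : lo a (b + 2) < hi a (b + 2)) :
    f a b (lo a b) ∈ QEv α (b + 2) ∧ Ch2 (f a b (lo a b)) = pr2 f (b + 2) a (lo a (b + 2)) := by
  have h1 := h.le a b ha (by omega)
  have h2 := h.le a (b + 1) ha (by omega)
  obtain ⟨e1, e2⟩ := hl
  have h3 := h.Ch_lo C ha (r := b) (by omega) e1
  have h4 : Ch2 (f a b (lo a b)) = Ch (f a (b + 1) (lo a (b + 1))) := Ch2_of_single h3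
  have h5 : Ch (f a (b + 1) (lo a (b + 1))) = pr2 f (b + 2) a (lo a (b + 2)) := by
    have k1 : lo a (b + 1 + 1) = lo a (b + 2) := rfl
    have k2 : hi a (b + 1 + 1) = hi a (b + 2) := rfl
    rw [← e2]
    exact h.Ch_dbl C ha (r := b + 1) (by omega) (by omega) (by omega) (by omega) (by omega)
  rw [h4, h5]
  refine ⟨mem_QEv.2 ⟨?_, ?_, ?_⟩, rfl⟩
  · rw [h.cor a b _ ha (by omega) le_rfl h1]
  · rw [h3, card_singleton]
  · rw [h4, h5]
    exact h.card_pr2 hb ha le_rfl (by omega)

lemma QR_mem (h : Pln lo hi i f) (C : CtxK α) {a : α} {b : ℕ} (ha : corank a = 0) (hb : b + 2 ≤ i)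
    (hl : rSE hi b a) (hw : lo a (b + 2) < hi a (b + 2)) :
    f a b (hi a b) ∈ QEv α (b + 2) ∧ Ch2 (f a b (hi a b)) = pr2 f (b + 2) a (hi a (b + 1)) := by
  have h1 := h.le a b ha (by omega)
  have h2 := h.le a (b + 1) ha (by omega)
  obtain ⟨e1, e2⟩ := hl
  have h3 := h.Ch_hi C ha (r := b) (by omega) e1
  have h4 : Ch2 (f a b (hi a b)) = Ch (f a (b + 1) (hi a (b + 1))) := Ch2_of_single h3
  have h5 : Ch (f a (b + 1) (hi a (b + 1))) = pr2 f (b + 2) a (hi a (b + 1)) :=
    h.Ch_dbl C ha (r := b + 1) (by omega) (by omega) (by omega) (by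
      have : b + 1 + 1 = b + 2 := rfl
      rw [this]
      omega) (by
      have : b + 1 + 1 = b + 2 := rfl
      rw [this]
      omega)
  rw [h4, h5]
  refine ⟨mem_QEv.2 ⟨?_, ?_, ?_⟩, rfl⟩
  · rw [h.cor a b _ ha (by omega) h1 le_rfl]
  · rw [h3, card_singleton]
  · rw [h4, h5]
    exact h.card_pr2 hb ha (by omega) (by omega)

/-- the Q-events in coordinates -/
lemma Q_cases (h : Pln lo hi i f) (C : CtxK α) {b : ℕ} (hb : b + 2 ≤ i) {v : α}
    (hv : v ∈ QEv α (b + 2)) : ∃ a, corank a = 0 ∧ lo a (b + 2) < hi a (b + 2) ∧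
      ((lSE lo b a ∧ v = f a b (lo a b)) ∨ (rSE hi b a ∧ v = f a b (hi a b))) := by
  rw [mem_QEv] at hv
  obtain ⟨g1, g2, g3⟩ := hv
  obtain ⟨a, d, ha, h1, h2, rfl⟩ := h.sur' (r := b) (by omega) (by omega : corank v = b)
  have hs1 := h.loS a b ha (by omega)
  have hs2 := h.hiS a b ha (by omega)
  have hs3 : lo a (b + 1) ≤ lo a (b + 2) ∧ lo a (b + 2) ≤ lo a (b + 1) + 1 :=
    h.loS a (b + 1) ha (by omega)
  have hs4 : hi a (b + 1) ≤ hi a (b + 2) ∧ hi a (b + 2) ≤ hi a (b + 1) + 1 :=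
    h.hiS a (b + 1) ha (by omega)
  have hle := h.le a (b + 1) ha (by omega)
  -- the single child
  have key : ∀ e, lo a (b + 1) ≤ e → e ≤ hi a (b + 1) → Ch (f a b d) = {f a (b + 1) e} →
      lo a (b + 2) ≤ e ∧ e + 1 ≤ hi a (b + 2) := by
    intro e he1 he2 he3
    have h3 : Ch2 (f a b d) = Ch (f a (b + 1) e) := Ch2_of_single he3
    rw [h3] at g3
    by_contra hcon
    have h4 : Ch (f a (b + 1) e) ⊆ {f a (b + 2) (if lo a (b + 2) ≤ e then e else e + 1)} := by
      intro x hx
      rw [h.mem_Ch C ha (r := b + 1) (by omega) he1 he2] at hx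
      obtain ⟨e', h5, h6, h7, rfl⟩ := hx
      have h6' : lo a (b + 2) ≤ e' := h6
      have h7' : e' ≤ hi a (b + 2) := h7
      rw [mem_singleton]
      congr 1
      split_ifs with h8 <;> omega
    have h5 := card_le_card h4
    rw [card_singleton] at h5
    omega
  rcases lt_trichotomy d (lo a (b + 1)) with h3 | h3 | h3
  · -- left border, S
    have hd : d = lo a b := by omega
    subst hd
    have h4 : lo a (b + 1) = lo a b + 1 := by omega
    have h5 := key _ le_rfl hle (h.Ch_lo C ha (r := b) (by omega) h4)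
    exact ⟨a, ha, by omega, Or.inl ⟨⟨h4, by omega⟩, rfl⟩⟩
  · by_cases h4 : d + 1 ≤ hi a (b + 1)
    · have h5 := h.Ch_dbl C ha (r := b) (by omega) h1 h2 (by omega) h4
      rw [h5, h.card_pr2 (by omega) ha (by omega) h4] at g2
      omega
    · have hd : d = hi a b := by omega
      subst hd
      have h5 : hi a (b + 1) = hi a b := by omega
      have h6 := key _ hle le_rfl (h.Ch_hi C ha (r := b) (by omega) h5)
      exact ⟨a, ha, by omega, Or.inr ⟨⟨h5, by omega⟩, rfl⟩⟩
  · by_cases h4 : d + 1 ≤ hi a (b + 1)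
    · have h5 := h.Ch_dbl C ha (r := b) (by omega) h1 h2 (by omega) h4
      rw [h5, h.card_pr2 (by omega) ha (by omega) h4] at g2
      omega
    · have hd : d = hi a b := by omega
      subst hd
      have h5 : hi a (b + 1) = hi a b := by omega
      have h6 := key _ hle le_rfl (h.Ch_hi C ha (r := b) (by omega) h5)
      exact ⟨a, ha, by omega, Or.inr ⟨⟨h5, by omega⟩, rfl⟩⟩

/-- the number of Q-events over a pair -/
theorem nQ_eq (h : Pln lo hi i f) (C : CtxK α) {a : α} {b c : ℕ} (ha : corank a = 0)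
    (hb : b + 2 ≤ i) (h1 : lo a (b + 2) ≤ c) (h2 : c + 1 ≤ hi a (b + 2)) :
    nQ f (b + 2) a c = (if c = lo a (b + 2) ∧ lSE lo b a then 1 else 0) +
      (if c + 1 = hi a (b + 2) ∧ rSE hi b a then 1 else 0) := by
  have hle := h.le a b ha (by omega)
  have hle1 := h.le a (b + 1) ha (by omega)
  have hpc : (a, c) ∈ prs lo hi (b + 2) := mem_prs.2 ⟨ha, h1, h2⟩
  have hset : (QEv α (b + 2)).filter (fun v => Ch2 v = pr2 f (b + 2) a c) =
      (if c = lo a (b + 2) ∧ lSE lo b a then {f a b (lo a b)} else ∅) ∪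
        (if c + 1 = hi a (b + 2) ∧ rSE hi b a then {f a b (hi a b)} else ∅) := by
    ext v
    rw [mem_filter, mem_union]
    constructor
    · rintro ⟨g1, g2⟩
      obtain ⟨a', ha', hw, ⟨g3, rfl⟩ | ⟨g3, rfl⟩⟩ := h.Q_cases C hb g1
      · have g4 := (h.QL_mem C ha' hb g3 hw).2
        rw [g2] at g4
        have g5 := h.pr2_inj hb (p := (a, c)) (q := (a', lo a' (b + 2))) hpc
          (mem_prs.2 ⟨ha', le_rfl, by simp only; omega⟩) g4
        obtain ⟨rfl, rfl⟩ := Prod.mk.inj g5
        left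
        rw [if_pos ⟨rfl, g3⟩]
        simp
      · have g4 := (h.QR_mem C ha' hb g3 hw).2
        rw [g2] at g4
        have g6 := g3.2
        have g5 := h.pr2_inj hb (p := (a, c)) (q := (a', hi a' (b + 1))) hpc
          (mem_prs.2 ⟨ha', by simp only; omega, by simp only; omega⟩) g4
        obtain ⟨rfl, rfl⟩ := Prod.mk.inj g5
        right
        rw [if_pos ⟨by omega, g3⟩]
        simp
    · rintro (g1 | g1)
      · split_ifs at g1 with g2
        · rw [mem_singleton] at g1
          subst g1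
          have g3 := h.QL_mem C ha hb g2.2 (by omega)
          exact ⟨g3.1, by rw [g3.2, g2.1]⟩
        · simp at g1
      · split_ifs at g1 with g2
        · rw [mem_singleton] at g1
          subst g1
          have g3 := h.QR_mem C ha hb g2.2 (by omega)
          have g4 := g2.2.2
          refine ⟨g3.1, ?_⟩
          rw [g3.2]
          congr 1
          omega
        · simp at g1
  unfold nQ
  rw [hset, card_union_of_disjoint]
  · congr 1 <;> split_ifs <;> simp
  · rw [Finset.disjoint_left]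
    intro v g1 g2
    split_ifs at g1 with g3
    · split_ifs at g2 with g4
      · rw [mem_singleton] at g1 g2
        rw [g1] at g2
        have g5 := (h.inj a a b _ _ ha ha (by omega) le_rfl hle hle le_rfl g2).2
        have g6 := g3.2.1
        have g7 := g4.2.1
        omega
      · simp at g2
    · simp at g1

lemma nQ_zero {a : α} {b c : ℕ} (hb : b < 2) : nQ f b a c = 0 := by
  unfold nQ
  rw [card_eq_zero, filter_eq_empty_iff]
  intro v hv
  rw [mem_QEv] at hv
  omega

/-! ### P-events -/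

lemma PL_mem (h : Pln lo hi i f) {a : α} {b : ℕ} (ha : corank a = 0) (hb : b + 2 ≤ i)
    (hl : lSE lo b a) (hw : lo a b < hi a b) : f a (b + 2) (lo a (b + 1)) ∈ PEv α b ∧
      Pr2 (f a (b + 2) (lo a (b + 1))) = pr2 f b a (lo a b) := by
  have h1 := h.le a (b + 2) ha (by omega)
  have h2 := h.le a (b + 1) ha (by omega)
  obtain ⟨e1, e2⟩ := hl
  have h3 : Pr (f a (b + 2) (lo a (b + 1))) = {f a (b + 1) (lo a (b + 1))} :=
    h.Pr_left ha (r := b + 1) (by omega) (by
      have : b + 1 + 1 = b + 2 := rfl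
      rw [this]; omega) (by
      have : b + 1 + 1 = b + 2 := rfl
      rw [this]; omega) rfl
  have h4 : Pr2 (f a (b + 2) (lo a (b + 1))) = Pr (f a (b + 1) (lo a (b + 1))) :=
    Pr2_of_single h3
  have h5 : Pr (f a (b + 1) (lo a (b + 1))) = pr2 f b a (lo a b) := by
    rw [e1]
    exact h.Pr_mid ha (r := b) (by omega) le_rfl (by omega)
  refine ⟨?_, by rw [h4, h5]⟩
  rw [h.mem_PEv_iff ha hb (by omega) (by omega)]
  exact Or.inl ⟨rfl, e1, by omega, e2⟩

lemma PR_mem (h : Pln lo hi i f) {a : α} {b : ℕ} (ha : corank a = 0) (hb : b + 2 ≤ i)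
    (hl : rSE hi b a) (hw : lo a b < hi a b) : f a (b + 2) (hi a (b + 1) + 1) ∈ PEv α b ∧
      Pr2 (f a (b + 2) (hi a (b + 1) + 1)) = pr2 f b a (hi a b - 1) := by
  have h1 := h.le a (b + 2) ha (by omega)
  have h2 := h.le a (b + 1) ha (by omega)
  have h0 := h.loS a b ha (by omega)
  have h0' : lo a (b + 1) ≤ lo a (b + 2) ∧ lo a (b + 2) ≤ lo a (b + 1) + 1 :=
    h.loS a (b + 1) ha (by omega)
  obtain ⟨e1, e2⟩ := hl
  have h3 : Pr (f a (b + 2) (hi a (b + 1) + 1)) = {f a (b + 1) (hi a (b + 1))} :=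
    h.Pr_right ha (r := b + 1) (by omega) (by
      have : b + 1 + 1 = b + 2 := rfl
      rw [this]; omega) (by
      have : b + 1 + 1 = b + 2 := rfl
      rw [this]; omega) rfl
  have h4 : Pr2 (f a (b + 2) (hi a (b + 1) + 1)) = Pr (f a (b + 1) (hi a (b + 1))) :=
    Pr2_of_single h3
  have h5 : Pr (f a (b + 1) (hi a (b + 1))) = pr2 f b a (hi a b - 1) := by
    rw [e1]
    obtain ⟨e, he⟩ : ∃ e, hi a b = e + 1 := ⟨hi a b - 1, by omega⟩
    rw [he, Nat.add_sub_cancel]
    exact h.Pr_mid ha (r := b) (by omega) (by omega) (by omega)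
  refine ⟨?_, by rw [h4, h5]⟩
  rw [h.mem_PEv_iff ha hb (by omega) (by omega)]
  exact Or.inr ⟨rfl, e1, by omega, e2⟩

/-- the P-events in coordinates -/
lemma P_cases (h : Pln lo hi i f) {b : ℕ} (hb : b + 2 ≤ i) {w : α}
    (hw : w ∈ PEv α b) : ∃ a, corank a = 0 ∧ lo a b < hi a b ∧
      ((lSE lo b a ∧ w = f a (b + 2) (lo a (b + 1))) ∨
        (rSE hi b a ∧ w = f a (b + 2) (hi a (b + 1) + 1))) := by
  have h0 := (mem_PEv.1 hw).1
  obtain ⟨a, d, ha, h1, h2, rfl⟩ := h.sur' hb h0
  rw [h.mem_PEv_iff ha hb h1 h2] at hw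
  rcases hw with ⟨g1, g2, g3, g4⟩ | ⟨g1, g2, g3, g4⟩
  · exact ⟨a, ha, by omega, Or.inl ⟨⟨g2, g4⟩, by rw [g1]⟩⟩
  · exact ⟨a, ha, by omega, Or.inr ⟨⟨g2, g4⟩, by rw [g1]⟩⟩

/-- the number of P-events over a pair, all rows in coordinates -/
theorem nP_eq (h : Pln lo hi i f) {a : α} {b c : ℕ} (ha : corank a = 0)
    (hb : b + 2 ≤ i) (h1 : lo a b ≤ c) (h2 : c + 1 ≤ hi a b) :
    nP f b a c = (if c = lo a b ∧ lSE lo b a then 1 else 0) +
      (if c + 1 = hi a b ∧ rSE hi b a then 1 else 0) := by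
  have hle1 := h.le a (b + 1) ha (by omega)
  have hpc : (a, c) ∈ prs lo hi b := mem_prs.2 ⟨ha, h1, h2⟩
  have hset : (PEv α b).filter (fun v => Pr2 v = pr2 f b a c) =
      (if c = lo a b ∧ lSE lo b a then {f a (b + 2) (lo a (b + 1))} else ∅) ∪
        (if c + 1 = hi a b ∧ rSE hi b a then {f a (b + 2) (hi a (b + 1) + 1)} else ∅) := by
    ext v
    rw [mem_filter, mem_union]
    constructor
    · rintro ⟨g1, g2⟩
      obtain ⟨a', ha', hw, ⟨g3, rfl⟩ | ⟨g3, rfl⟩⟩ := h.P_cases hb g1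
      · have g4 := (h.PL_mem ha' hb g3 hw).2
        rw [g2] at g4
        have g5 := h.pr2_inj (by omega : b ≤ i) (p := (a, c)) (q := (a', lo a' b)) hpc
          (mem_prs.2 ⟨ha', le_rfl, by simp only; omega⟩) g4
        obtain ⟨rfl, rfl⟩ := Prod.mk.inj g5
        left
        rw [if_pos ⟨rfl, g3⟩]
        simp
      · have g4 := (h.PR_mem ha' hb g3 hw).2
        rw [g2] at g4
        have g5 := h.pr2_inj (by omega : b ≤ i) (p := (a, c)) (q := (a', hi a' b - 1)) hpc
          (mem_prs.2 ⟨ha', by simp only; omega, by simp only; omega⟩) g4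
        obtain ⟨rfl, rfl⟩ := Prod.mk.inj g5
        right
        rw [if_pos ⟨by omega, g3⟩]
        simp
    · rintro (g1 | g1)
      · split_ifs at g1 with g2
        · rw [mem_singleton] at g1
          subst g1
          have g3 := h.PL_mem ha hb g2.2 (by omega)
          exact ⟨g3.1, by rw [g3.2, g2.1]⟩
        · simp at g1
      · split_ifs at g1 with g2
        · rw [mem_singleton] at g1
          subst g1
          have g3 := h.PR_mem ha hb g2.2 (by omega)
          refine ⟨g3.1, ?_⟩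
          rw [g3.2]
          congr 1
          omega
        · simp at g1
  unfold nP
  rw [hset, card_union_of_disjoint]
  · congr 1 <;> split_ifs <;> simp
  · rw [Finset.disjoint_left]
    intro v g1 g2
    split_ifs at g1 with g3
    · split_ifs at g2 with g4
      · rw [mem_singleton] at g1 g2
        rw [g1] at g2
        obtain ⟨_, e1, e2⟩ := g3
        obtain ⟨_, e3, e4⟩ := g4
        have g5 := (h.inj a a (b + 2) _ _ ha ha hb (by omega) (by omega) (by omega) (by omega) g2).2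
        omega
      · simp at g2
    · simp at g1

/-! ### the forms of the strips vanish -/

lemma nQ_int (h : Pln lo hi i f) (C : CtxK α) {a : α} {b c : ℕ} (ha : corank a = 0)
    (hb : b ≤ i) (h1 : lo a b < c) (h2 : c + 1 < hi a b) : nQ f b a c = 0 := by
  rcases Nat.lt_or_ge b 2 with h3 | h3
  · exact nQ_zero h3
  · obtain ⟨j, rfl⟩ : ∃ j, b = j + 2 := ⟨b - 2, by omega⟩
    rw [h.nQ_eq C ha hb (by omega) (by omega), if_neg (by omega), if_neg (by omega)]

lemma nQ_le_one (h : Pln lo hi i f) (C : CtxK α) {a : α} {b c : ℕ} (ha : corank a = 0)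
    (hb : b ≤ i) (hw : lo a b + 2 ≤ hi a b) (h1 : lo a b ≤ c) (h2 : c + 1 ≤ hi a b) :
    nQ f b a c ≤ 1 := by
  rcases Nat.lt_or_ge b 2 with h3 | h3
  · rw [nQ_zero h3]
    omega
  · obtain ⟨j, rfl⟩ : ∃ j, b = j + 2 := ⟨b - 2, by omega⟩
    rw [h.nQ_eq C ha hb (by omega) (by omega)]
    split_ifs <;> omega

lemma HH_int_nonneg (h : Pln lo hi i f) (C : CtxK α) {a : α} {b c : ℕ} (ha : corank a = 0)
    (hb : b ≤ i) (h1 : lo a b < c) (h2 : c + 1 < hi a b) : 0 ≤ HH f b a c := by
  unfold HH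
  rw [h.nQ_int C ha hb h1 h2]
  simp

/-- **the forms of the strips vanish, no bad elements**, at every perfect base `b` with row
`b + 1` in coordinates -/
theorem frm_zero (h : Pln lo hi i f) (C : CtxK α) (hiH : i ≤ HT α) (hP : ∀ j < i, Perf α j) :
    ∀ b, b + 1 ≤ i → (∀ a, corank a = 0 → lo a b + 3 ≤ hi a b →
      nQ f b a (lo a b) = 0 ∨ nQ f b a (hi a b - 1) = 0) ∧
      (∀ a, corank a = 0 → frm (HH f b a) (lo a b) (hi a b) = 0) ∧
      CtxK.badDn α b = ∅ ∧ CtxK.badUp α b = ∅ := by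
  intro b
  induction b using Nat.strong_induction_on with
  | _ b ih =>
    intro hb
    have hN : ∀ a, corank a = 0 → lo a b + 3 ≤ hi a b →
        nQ f b a (lo a b) = 0 ∨ nQ f b a (hi a b - 1) = 0 := by
      intro a ha hw
      by_contra hcon
      push Not at hcon
      obtain ⟨h1, h2⟩ := hcon
      rcases Nat.lt_or_ge b 2 with h3 | h3
      · exact h1 (nQ_zero h3)
      obtain ⟨j, rfl⟩ : ∃ j, b = j + 2 := ⟨b - 2, by omega⟩
      rw [h.nQ_eq C ha (by omega) le_rfl (by omega)] at h1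
      rw [h.nQ_eq C ha (by omega) (by omega) (by omega)] at h2
      have hl : lSE lo j a := by
        by_contra h4
        rw [if_neg (fun h5 => h4 h5.2), if_neg (by omega)] at h1
        exact h1 rfl
      have hr : rSE hi j a := by
        by_contra h4
        rw [if_neg (by omega), if_neg (fun h5 => h4 h5.2)] at h2
        exact h2 rfl
      have hl' := hl
      have hr' := hr
      unfold lSE at hl'
      unfold rSE at hr'
      obtain ⟨i1, i2, _, _⟩ := ih j (by omega) (by omega)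
      have hw' : lo a j + 3 ≤ hi a j := by omega
      have hnn : ∀ c, lo a j ≤ c → c < hi a j → 0 ≤ HH f j a c := by
        intro c c1 c2
        rcases Nat.lt_or_ge (lo a j) c with c3 | c3
        · rcases Nat.lt_or_ge (c + 1) (hi a j) with c4 | c4
          · exact h.HH_int_nonneg C ha (by omega) c3 c4
          · unfold HH
            rw [h.nP_eq ha (by omega) c1 (by omega), if_pos (c := c + 1 = hi a j ∧ _)
              ⟨by omega, hr⟩]
            have := h.nQ_le_one C ha (by omega : j ≤ i) (by omega) c1 (by omega : c + 1 ≤ hi a j)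
            push_cast
            split_ifs <;> omega
        · unfold HH
          rw [h.nP_eq ha (by omega) c1 (by omega), if_pos (c := c = lo a j ∧ _) ⟨by omega, hl⟩]
          have := h.nQ_le_one C ha (by omega : j ≤ i) (by omega) c1 (by omega : c + 1 ≤ hi a j)
          push_cast
          split_ifs <;> omega
      have z1 := frm_zero' hnn (i2 a ha) le_rfl (by omega : lo a j < hi a j)
      have z2 := frm_zero' hnn (i2 a ha) (by omega : lo a j ≤ hi a j - 1) (by omega)
      unfold HH at z1 z2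
      rw [h.nP_eq ha (by omega) le_rfl (by omega), if_pos ⟨rfl, hl⟩, if_neg (by omega)] at z1
      rw [h.nP_eq ha (by omega) (by omega) (by omega), if_neg (by omega),
        if_pos ⟨by omega, hr⟩] at z2
      rcases i1 a ha hw' with h5 | h5
      · rw [h5] at z1
        simp at z1
      · rw [h5] at z2
        simp at z2
    have hF : ∀ a ∈ lev α 0, 0 ≤ frm (HH f b a) (lo a b) (hi a b) := by
      intro a ha
      rw [mem_lev] at ha
      apply frm_nonneg
      · intro c c1 c2
        exact h.HH_int_nonneg C ha (by omega) c1 c2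
      · intro hw
        rcases hN a ha hw with h1 | h1
        · left
          unfold HH
          rw [h1]
          simp
        · right
          unfold HH
          rw [h1]
          simp
    have hS := h.frm_sum C hb (by omega) (hP b (by omega))
    have hS0 : 0 ≤ ∑ a ∈ lev α 0, frm (HH f b a) (lo a b) (hi a b) := sum_nonneg hF
    have hb1 : (CtxK.badDn α b).card = 0 := by omega
    have hb2 : (CtxK.badUp α b).card = 0 := by omega
    rw [hb1, hb2] at hS
    have hS' : ∑ a ∈ lev α 0, frm (HH f b a) (lo a b) (hi a b) = 0 := by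
      rw [hS]
      simp
    rw [sum_eq_zero_iff_of_nonneg hF] at hS'
    exact ⟨hN, fun a ha => hS' a (mem_lev.2 ha), card_eq_zero.1 hb1, card_eq_zero.1 hb2⟩

/-- the products of neighbouring values: `≤ 0` in every strip, and `= 0` only without events -/
theorem adj_sum (h : Pln lo hi i f) (C : CtxK α) (hiH : i ≤ HT α) (hP : ∀ j < i, Perf α j)
    {b : ℕ} (hb : b + 1 ≤ i) {a : α} (ha : corank a = 0) :
    2 * ∑ c ∈ Ico (lo a b) (hi a b - 1), HH f b a c * HH f b a (c + 1) =
      - ∑ c ∈ Ico (lo a b) (hi a b), HH f b a c ^ 2 :=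
  frm_adj (h.le a b ha (by omega)) ((h.frm_zero C hiH hP b hb).2.1 a ha)

/-- V5 gives `HH = 0` -/
theorem HH_zero_of_V5 (h : Pln lo hi i f) (C : CtxK α) (hiH : i ≤ HT α) (hP : ∀ j < i, Perf α j)
    {b : ℕ} (hb : b + 1 ≤ i)
    (hV : 0 ≤ ∑ a ∈ lev α 0, ∑ c ∈ Ico (lo a b) (hi a b - 1), HH f b a c * HH f b a (c + 1))
    {a : α} (ha : corank a = 0) {c : ℕ} (h1 : lo a b ≤ c) (h2 : c + 1 ≤ hi a b) :
    HH f b a c = 0 := by
  have h3 : 2 * ∑ a ∈ lev α 0, ∑ c ∈ Ico (lo a b) (hi a b - 1), HH f b a c * HH f b a (c + 1) =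
      - ∑ a ∈ lev α 0, ∑ c ∈ Ico (lo a b) (hi a b), HH f b a c ^ 2 := by
    rw [mul_sum, ← sum_neg_distrib]
    apply Finset.sum_congr rfl
    intro a ha
    rw [mem_lev] at ha
    exact h.adj_sum C hiH hP hb ha
  have h4 : ∀ a ∈ lev α 0, 0 ≤ ∑ c ∈ Ico (lo a b) (hi a b), HH f b a c ^ 2 :=
    fun a _ => sum_nonneg fun c _ => sq_nonneg _
  have h5 := sum_nonneg h4
  have h6 : ∑ a ∈ lev α 0, ∑ c ∈ Ico (lo a b) (hi a b), HH f b a c ^ 2 = 0 := by linarith
  rw [sum_eq_zero_iff_of_nonneg h4] at h6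
  have h7 := h6 a (mem_lev.2 ha)
  rw [sum_eq_zero_iff_of_nonneg (fun c _ => sq_nonneg _)] at h7
  have h8 := h7 c (mem_Ico.2 ⟨h1, h2⟩)
  exact pow_eq_zero_iff (two_ne_zero) |>.1 h8

/-- a double element two rows below row `b` over three elements of row `b` has two double upper
covers; two upper covers over two elements: a single one and a double one, or two single ones -/
theorem Pr2_three (h : Pln lo hi i f) (C : CtxK α) (hiH : i ≤ HT α) (hP : ∀ j < i, Perf α j)
    {b : ℕ} (hb : b + 1 ≤ i) {x : α} (hx : corank x = b + 2) (h2 : (Pr x).card = 2)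
    (h3 : (Pr2 x).card = 3) : ∀ y ∈ Pr x, (Pr y).card = 2 := by
  intro y hy
  have h4 := (h.frm_zero C hiH hP b hb).2.2.1
  have h5 := C.corank_of_mem_Pr hy
  rcases C.pr_cases (x := y) (by omega) with h6 | h6
  · exfalso
    have : x ∈ CtxK.badDn α b := by
      unfold CtxK.badDn
      rw [mem_filter]
      exact ⟨mem_univ _, hx, h2, h3, y, hy, h6⟩
    rw [h4] at this
    simp at this
  · exact h6

end Pln

end Pool.Gauss
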