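import Pool.Agent.Work.MP_065141_co.K.ClusterN
import Pool.Agent.Work.MP_065141_co.K.PlnV5

/-!
# The tips, the lost pairs and the chains of a row in planar coordinates

`tp r a s n` is the element of row `r` of the strip of `a` at distance `n` from the left
(`s = false`) or right (`s = true`) end, `wd r a` is the width minus one.
-/

set_option autoImplicit false
set_option linter.unusedSectionVars false
open scoped Classical
open Finset

namespace Pool.Gauss

variable {α : Type} [Fintype α] [PartialOrder α]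

/-- the number of elements of a row of a strip minus one -/
def wd (lo hi : α → ℕ → ℕ) (r : ℕ) (a : α) : ℕ := hi a r - lo a r

/-- the column at distance `n` from the end `s` -/
def tcl (lo hi : α → ℕ → ℕ) (r : ℕ) (a : α) (s : Bool) (n : ℕ) : ℕ :=
  if s = true then hi a r - n else lo a r + n

/-- the element at distance `n` from the end `s` -/
def tp (lo hi : α → ℕ → ℕ) (f : α → ℕ → ℕ → α) (r : ℕ) (a : α) (s : Bool) (n : ℕ) : α :=
  f a r (tcl lo hi r a s n)

namespace Pln

variable {lo hi : α → ℕ → ℕ} {i : ℕ} {f : α → ℕ → ℕ → α}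

lemma tcl_mem (h : Pln lo hi i f) {r : ℕ} (hr : r ≤ i) {a : α} (ha : corank a = 0) (s : Bool)
    {n : ℕ} (hn : n ≤ wd lo hi r a) :
    lo a r ≤ tcl lo hi r a s n ∧ tcl lo hi r a s n ≤ hi a r := by
  have h1 := h.le a r ha hr
  unfold wd at hn
  unfold tcl
  split_ifs <;> omega

lemma tp_cor (h : Pln lo hi i f) {r : ℕ} (hr : r ≤ i) {a : α} (ha : corank a = 0) (s : Bool)
    {n : ℕ} (hn : n ≤ wd lo hi r a) : corank (tp lo hi f r a s n) = r :=
  h.cor a r _ ha hr (h.tcl_mem hr ha s hn).1 (h.tcl_mem hr ha s hn).2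

/-- when two elements are equal -/
theorem tp_inj (h : Pln lo hi i f) {r : ℕ} (hr : r ≤ i) {a b : α} (ha : corank a = 0)
    (hb : corank b = 0) {s t : Bool} {m n : ℕ} (hm : m ≤ wd lo hi r a) (hn : n ≤ wd lo hi r b)
    (he : tp lo hi f r a s m = tp lo hi f r b t n) :
    a = b ∧ ((s = t ∧ m = n) ∨ (s ≠ t ∧ m + n = wd lo hi r a)) := by
  have h1 := h.tcl_mem hr ha s hm
  have h2 := h.tcl_mem hr hb t hn
  obtain ⟨rfl, h3⟩ := h.inj a b r _ _ ha hb hr h1.1 h1.2 h2.1 h2.2 he
  have h4 := h.le a r ha hr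
  refine ⟨rfl, ?_⟩
  unfold wd at hm hn ⊢
  unfold tcl at h3
  cases s <;> cases t
  · left
    simp only [Bool.false_eq_true, if_false] at h3
    exact ⟨rfl, by omega⟩
  · right
    simp only [Bool.false_eq_true, if_false, if_true] at h3
    exact ⟨by simp, by omega⟩
  · right
    simp only [Bool.false_eq_true, if_false, if_true] at h3
    exact ⟨by simp, by omega⟩
  · left
    simp only [if_true] at h3
    exact ⟨rfl, by omega⟩

/-- the other end -/
lemma tp_not (h : Pln lo hi i f) {r : ℕ} (hr : r ≤ i) {a : α} (ha : corank a = 0) (s : Bool)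
    {n : ℕ} (hn : n ≤ wd lo hi r a) :
    tp lo hi f r a (!s) n = tp lo hi f r a s (wd lo hi r a - n) := by
  have h1 := h.le a r ha hr
  unfold wd at hn
  unfold tp tcl wd
  cases s
  · simp only [Bool.not_false, if_true, Bool.false_eq_true, if_false]
    congr 1
    omega
  · simp only [Bool.not_true, if_true, Bool.false_eq_true, if_false]
    congr 1
    omega

/-- number of double upper covers -/
lemma aD_tp (h : Pln lo hi i f) (C : CtxK α) {r : ℕ} (hr : r ≤ i) {a : α} (ha : corank a = 0)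
    (s : Bool) {n : ℕ} (hn : n ≤ wd lo hi r a) :
    aD (tp lo hi f r a s n) = (if 0 < n then 1 else 0) + (if n < wd lo hi r a then 1 else 0) := by
  have h1 := h.le a r ha hr
  have h2 := h.tcl_mem hr ha s hn
  unfold tp
  rw [h.aD_eq C ha hr h2.1 h2.2]
  unfold wd at hn ⊢
  unfold tcl at h2 ⊢
  cases s
  · simp only [Bool.false_eq_true, if_false] at h2 ⊢
    congr 1
    · by_cases h3 : 0 < n
      · rw [if_pos (by omega), if_pos h3]
      · rw [if_neg (by omega), if_neg h3]
    · by_cases h3 : n < hi a r - lo a r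
      · rw [if_pos (by omega), if_pos h3]
      · rw [if_neg (by omega), if_neg h3]
  · simp only [if_true] at h2 ⊢
    rw [add_comm]
    congr 1
    · by_cases h3 : 0 < n
      · rw [if_pos (by omega), if_pos h3]
      · rw [if_neg (by omega), if_neg h3]
    · by_cases h3 : n < hi a r - lo a r
      · rw [if_pos (by omega), if_pos h3]
      · rw [if_neg (by omega), if_neg h3]

/-- number of double lower covers, rows `< i` -/
lemma bC_tp (h : Pln lo hi i f) (C : CtxK α) {r : ℕ} (hr : r < i) {a : α} (ha : corank a = 0)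
    (s : Bool) {n : ℕ} (hn : n ≤ wd lo hi r a) :
    bC (tp lo hi f r a s n) = (if 0 < n then 1 else 0) + (if n < wd lo hi r a then 1 else 0) := by
  rw [← h.aD_tp C hr.le ha s hn]
  have h2 := h.tcl_mem hr.le ha s hn
  unfold tp
  rw [h.bC_eq C ha hr h2.1 h2.2, h.aD_eq C ha hr.le h2.1 h2.2]

/-- **the tips are the ends of the strips** -/
theorem mem_Tips_iff (h : Pln lo hi i f) (C : CtxK α) {y : α} :
    y ∈ Tips α i ↔ ∃ a s, corank a = 0 ∧ y = tp lo hi f i a s 0 := by
  rw [Tips, mem_filter, mem_lev]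
  constructor
  · rintro ⟨h1, h2⟩
    obtain ⟨a, c, ha, h3, h4, rfl⟩ := h.sur' le_rfl h1
    rw [h.aD_eq C ha le_rfl h3 h4] at h2
    by_cases h5 : lo a i < c
    · rw [if_pos h5] at h2
      have h6 : ¬ c < hi a i := by
        intro h6
        rw [if_pos h6] at h2
        omega
      refine ⟨a, true, ha, ?_⟩
      unfold tp tcl
      simp only [if_true]
      congr 1
      omega
    · refine ⟨a, false, ha, ?_⟩
      unfold tp tcl
      simp only [Bool.false_eq_true, if_false]
      congr 1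
      omega
  · rintro ⟨a, s, ha, rfl⟩
    refine ⟨h.tp_cor le_rfl ha s (Nat.zero_le _), ?_⟩
    rw [h.aD_tp C le_rfl ha s (Nat.zero_le _)]
    split_ifs <;> omega

/-- an element of the row is a tip iff it is an end -/
lemma tp_mem_Tips (h : Pln lo hi i f) (C : CtxK α) {a : α} (ha : corank a = 0) (s : Bool)
    {n : ℕ} (hn : n ≤ wd lo hi i a) :
    tp lo hi f i a s n ∈ Tips α i ↔ n = 0 ∨ n = wd lo hi i a := by
  rw [Tips, mem_filter, mem_lev, h.aD_tp C le_rfl ha s hn]
  constructor
  · rintro ⟨_, h2⟩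
    split_ifs at h2 <;> omega
  · intro h1
    refine ⟨h.tp_cor le_rfl ha s hn, ?_⟩
    split_ifs <;> omega

/-- neighbouring elements have one common upper cover -/
lemma mD_tp (h : Pln lo hi i f) (C : CtxK α) {a : α} (ha : corank a = 0) (s : Bool)
    {n : ℕ} (hn : n + 1 ≤ wd lo hi i a) :
    mD i {tp lo hi f i a s n, tp lo hi f i a s (n + 1)} = 1 := by
  have h1 := h.le a i ha le_rfl
  unfold wd at hn
  cases s
  · unfold tp tcl
    simp only [Bool.false_eq_true, if_false]
    exact h.mD_one C ha (by omega) (by omega)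
  · unfold tp tcl
    simp only [if_true]
    rw [pair_comm]
    have := h.mD_one C ha (c := hi a i - (n + 1)) (by omega) (by omega)
    have e : hi a i - (n + 1) + 1 = hi a i - n := by omega
    rw [e] at this
    exact this

/-- a pair with a common upper cover, seen from one of its elements -/
theorem nb_cases (h : Pln lo hi i f) (C : CtxK α) {a : α} (ha : corank a = 0) (s : Bool)
    {n : ℕ} (hn : n ≤ wd lo hi i a) {v : α} (hv : v ≠ tp lo hi f i a s n)
    (hD : 0 < mD i {tp lo hi f i a s n, v}) :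
    (1 ≤ n ∧ v = tp lo hi f i a s (n - 1)) ∨ (n + 1 ≤ wd lo hi i a ∧ v = tp lo hi f i a s (n + 1)) := by
  obtain ⟨b, c, hb, h1, h2, h3⟩ := h.mD_pos C (card_pair hv.symm) hD
  have h4 := h.tcl_mem le_rfl ha s hn
  have h5 : tp lo hi f i a s n ∈ ({f b i c, f b i (c + 1)} : Finset α) := by
    rw [← h3]
    simp
  have h6 : v ∈ ({f b i c, f b i (c + 1)} : Finset α) := by
    rw [← h3]
    simp
  rw [mem_insert, mem_singleton] at h5 h6
  have h8 := h.le a i ha le_rfl
  unfold wd at hn
  unfold tp at h5 hv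
  rcases h5 with h5 | h5
  · obtain ⟨rfl, h7⟩ := h.inj a b i _ _ ha hb le_rfl h4.1 h4.2 h1 (by omega) h5
    rcases h6 with rfl | rfl
    · exact absurd (by rw [h7]) hv
    · unfold tcl at h7
      cases s
      · simp only [Bool.false_eq_true, if_false] at h7
        right
        refine ⟨by unfold wd; omega, ?_⟩
        unfold tp tcl
        simp only [Bool.false_eq_true, if_false]
        congr 1
        omega
      · simp only [if_true] at h7
        left
        refine ⟨by omega, ?_⟩
        unfold tp tcl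
        simp only [if_true]
        congr 1
        omega
  · obtain ⟨rfl, h7⟩ := h.inj a b i _ _ ha hb le_rfl h4.1 h4.2 (by omega) h2 h5
    rcases h6 with rfl | rfl
    · unfold tcl at h7
      cases s
      · simp only [Bool.false_eq_true, if_false] at h7
        left
        refine ⟨by omega, ?_⟩
        unfold tp tcl
        simp only [Bool.false_eq_true, if_false]
        congr 1
        omega
      · simp only [if_true] at h7
        right
        refine ⟨by unfold wd; omega, ?_⟩
        unfold tp tcl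
        simp only [if_true]
        congr 1
        omega
    · exact absurd (by rw [h7]) hv

/-- **a pair with a common upper cover and a tip** -/
theorem tip_pair (h : Pln lo hi i f) (C : CtxK α) {y c : α} (hy : y ∈ Tips α i) (hyc : c ≠ y)
    (hD : 0 < mD i {y, c}) : ∃ a s, corank a = 0 ∧ 1 ≤ wd lo hi i a ∧
      y = tp lo hi f i a s 0 ∧ c = tp lo hi f i a s 1 := by
  obtain ⟨a, s, ha, rfl⟩ := (h.mem_Tips_iff C).1 hy
  rcases h.nb_cases C ha s (Nat.zero_le _) hyc hD with ⟨h1, _⟩ | ⟨h1, h2⟩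
  · omega
  · exact ⟨a, s, ha, by omega, rfl, h2⟩

/-- the same for a second element which is not a tip: the strip has three or more elements -/
theorem tip_pair' (h : Pln lo hi i f) (C : CtxK α) {y c : α} (hy : y ∈ Tips α i)
    (hc : c ∉ Tips α i) (hD : 0 < mD i {y, c}) : ∃ a s, corank a = 0 ∧ 2 ≤ wd lo hi i a ∧
      y = tp lo hi f i a s 0 ∧ c = tp lo hi f i a s 1 := by
  have hyc : c ≠ y := by
    rintro rfl
    exact hc hy
  obtain ⟨a, s, ha, h1, rfl, rfl⟩ := h.tip_pair C hy hyc hD
  refine ⟨a, s, ha, ?_, rfl, rfl⟩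
  by_contra h2
  exact hc ((h.tp_mem_Tips C ha s h1).2 (Or.inr (by omega)))

end Pln

/-- the coordinates of a chain: `y j` is the end `S j` of the strip of `A j` for `j ≤ L`,
`c j` is the element next to it for `1 ≤ j ≤ L` -/
structure ChPln (lo hi : α → ℕ → ℕ) (f : α → ℕ → ℕ → α) (i L : ℕ) (y c : ℕ → α) (A : ℕ → α)
    (S : ℕ → Bool) : Prop where
  top : ∀ j ≤ L, corank (A j) = 0
  ey : ∀ j ≤ L, y j = tp lo hi f i (A j) (S j) 0
  ec : ∀ j, 1 ≤ j → j ≤ L → c j = tp lo hi f i (A j) (S j) 1
  w1 : ∀ j, 1 ≤ j → j ≤ L → 1 ≤ wd lo hi i (A j)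
  w2 : ∀ j, 1 ≤ j → j ≤ L → c j ∉ Tips α i → 2 ≤ wd lo hi i (A j)
  ne : ∀ j ≤ L, ∀ k ≤ L, j ≠ k → A j ≠ A k ∨ (S j ≠ S k ∧ 1 ≤ wd lo hi i (A j))

/-- **the coordinates of a chain** -/
theorem exists_chPln {lo hi : α → ℕ → ℕ} {i : ℕ} {f : α → ℕ → ℕ → α} (h : Pln lo hi i f)
    (C : CtxK α) {U T : Finset α} (hT : T ⊆ Tips α i) {L : ℕ} {y c : ℕ → α}
    (hch : Clu.IsChain U T (Wt i) L y c) : ∃ A S, ChPln lo hi f i L y c A S := by
  have key : ∀ j, ∃ p : α × Bool, j ≤ L → corank p.1 = 0 ∧ y j = tp lo hi f i p.1 p.2 0 ∧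
      (1 ≤ j → c j = tp lo hi f i p.1 p.2 1 ∧ 1 ≤ wd lo hi i p.1) := by
    intro j
    by_cases hj : j ≤ L
    · have hy := hT (hch.tip j hj).2
      by_cases h1 : 1 ≤ j
      · have h2 := hch.lost j h1 hj
        have h3 : c j ≠ y j := by
          intro h3
          exact (hch.inn j h1 hj).2 (h3 ▸ (hch.tip j hj).2)
        have h4 : 0 < mD i {y j, c j} := by
          unfold Wt at h2
          omega
        obtain ⟨a, s, ha, h5, h6, h7⟩ := h.tip_pair C hy h3 h4
        exact ⟨(a, s), fun _ => ⟨ha, h6, fun _ => ⟨h7, h5⟩⟩⟩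
      · obtain ⟨a, s, ha, h5⟩ := (h.mem_Tips_iff C).1 hy
        exact ⟨(a, s), fun _ => ⟨ha, h5, fun h6 => absurd h6 h1⟩⟩
    · exact ⟨(y j, false), fun h1 => absurd h1 hj⟩
  choose p hp using key
  refine ⟨fun j => (p j).1, fun j => (p j).2, ?_, ?_, ?_, ?_, ?_, ?_⟩
  · exact fun j hj => (hp j hj).1
  · exact fun j hj => (hp j hj).2.1
  · exact fun j h1 hj => ((hp j hj).2.2 h1).1
  · exact fun j h1 hj => ((hp j hj).2.2 h1).2
  · intro j h1 hj hc
    by_contra h2
    have h3 := (hp j hj).2.2 h1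
    rw [h3.1] at hc
    exact hc ((h.tp_mem_Tips C (hp j hj).1 _ h3.2).2 (Or.inr (by omega)))
  · intro j hj k hk hne
    by_contra h1
    rw [not_or, not_and_or] at h1
    simp only [ne_eq, not_not] at h1
    obtain ⟨h2, h3⟩ := h1
    apply hne
    apply hch.yinj j hj k hk
    rw [(hp j hj).2.1, (hp k hk).2.1, ← h2]
    rcases h3 with h3 | h3
    · rw [← h3]
    · have hl := h.le (p j).1 i (hp j hj).1 le_rfl
      have h4 : hi (p j).1 i = lo (p j).1 i := by
        unfold wd at h3
        omega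
      unfold tp tcl
      rw [h4]
      simp

end Pool.Gauss
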