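import Pool.Agent.Work.MP_065141_co.K.ChainPln

/-!
# Covers and single upper elements at an end of a strip, both ends at once
-/

set_option autoImplicit false
set_option linter.unusedSectionVars false
open scoped Classical
open Finset

namespace Pool.Gauss

variable {α : Type} [Fintype α] [PartialOrder α]

/-- the letter between the rows `r` and `r + 1` at the end `s` is S -/
def lS (lo hi : α → ℕ → ℕ) (r : ℕ) (a : α) (s : Bool) : Prop :=
  if s = true then hi a (r + 1) = hi a r else lo a (r + 1) = lo a r + 1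

/-- the shift of the distance from the end `s` between the rows `r` and `r + 1` -/
noncomputable def sh (lo hi : α → ℕ → ℕ) (r : ℕ) (a : α) (s : Bool) : ℕ :=
  if lS lo hi r a s then 1 else 0

namespace Pln

variable {lo hi : α → ℕ → ℕ} {i : ℕ} {f : α → ℕ → ℕ → α}

lemma lS_false {r : ℕ} {a : α} : lS lo hi r a false ↔ lo a (r + 1) = lo a r + 1 := by
  unfold lS
  simp

lemma lS_true {r : ℕ} {a : α} : lS lo hi r a true ↔ hi a (r + 1) = hi a r := by
  unfold lS
  simp

lemma sh_le (r : ℕ) (a : α) (s : Bool) : sh lo hi r a s ≤ 1 := by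
  unfold sh
  split_ifs <;> omega

lemma sh_one {r : ℕ} {a : α} {s : Bool} : sh lo hi r a s = 1 ↔ lS lo hi r a s := by
  unfold sh
  split_ifs with h1
  · simp [h1]
  · simp [h1]

lemma sh_zero {r : ℕ} {a : α} {s : Bool} : sh lo hi r a s = 0 ↔ ¬ lS lo hi r a s := by
  unfold sh
  split_ifs with h1
  · simp [h1]
  · simp [h1]

/-- the columns in terms of the shifts -/
lemma sh_cols (h : Pln lo hi i f) {r : ℕ} (hr : r < i) {a : α} (ha : corank a = 0) :
    lo a (r + 1) = lo a r + sh lo hi r a false ∧ hi a (r + 1) + sh lo hi r a true = hi a r + 1 := by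
  have h1 := h.loS a r ha hr
  have h2 := h.hiS a r ha hr
  unfold sh
  constructor
  · by_cases h3 : lS lo hi r a false
    · rw [if_pos h3]
      exact lS_false.1 h3
    · rw [if_neg h3]
      rw [lS_false] at h3
      omega
  · by_cases h3 : lS lo hi r a true
    · rw [if_pos h3]
      rw [lS_true] at h3
      omega
    · rw [if_neg h3]
      rw [lS_true] at h3
      omega

/-- the widths -/
lemma wd_succ (h : Pln lo hi i f) {r : ℕ} (hr : r < i) {a : α} (ha : corank a = 0) (s : Bool) :
    wd lo hi (r + 1) a + sh lo hi r a s + sh lo hi r a (!s) = wd lo hi r a + 1 := by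
  have h1 := h.sh_cols hr ha
  have h2 := h.le a r ha hr.le
  have h3 := h.le a (r + 1) ha (by omega)
  unfold wd
  cases s
  · simp only [Bool.not_false]
    omega
  · simp only [Bool.not_true]
    omega

lemma wd_zero (h : Pln lo hi i f) (a : α) : wd lo hi 0 a = 0 := by
  unfold wd
  rw [h.lo0, h.hi0]

/-- lower covers in terms of the distance to an end -/
theorem mem_Ch_tp (h : Pln lo hi i f) (C : CtxK α) {r : ℕ} (hr : r < i) {a : α} (ha : corank a = 0)
    (s : Bool) {n : ℕ} (hn : n ≤ wd lo hi r a) {x : α} :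
    x ∈ Ch (tp lo hi f r a s n) ↔ ∃ m, m ≤ wd lo hi (r + 1) a ∧
      (n = m + sh lo hi r a s ∨ n + 1 = m + sh lo hi r a s) ∧ x = tp lo hi f (r + 1) a s m := by
  have h1 := h.sh_cols hr ha
  have h2 := h.le a r ha hr.le
  have h3 := h.le a (r + 1) ha (by omega)
  have h4 := h.tcl_mem hr.le ha s hn
  unfold tp
  rw [h.mem_Ch C ha hr h4.1 h4.2]
  unfold wd at hn ⊢
  cases s
  · unfold tcl
    simp only [Bool.false_eq_true, if_false]
    constructor
    · rintro ⟨e, h5, h6, h7, rfl⟩
      refine ⟨e - lo a (r + 1), by omega, by omega, ?_⟩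
      congr 1
      omega
    · rintro ⟨m, h5, h6, rfl⟩
      exact ⟨lo a (r + 1) + m, by omega, by omega, by omega, rfl⟩
  · unfold tcl
    simp only [if_true]
    constructor
    · rintro ⟨e, h5, h6, h7, rfl⟩
      refine ⟨hi a (r + 1) - e, by omega, by omega, ?_⟩
      congr 1
      omega
    · rintro ⟨m, h5, h6, rfl⟩
      exact ⟨hi a (r + 1) - m, by omega, by omega, by omega, rfl⟩

/-- upper covers in terms of the distance to an end -/
theorem mem_Pr_tp (h : Pln lo hi i f) (C : CtxK α) {r : ℕ} (hr : r < i) {a : α} (ha : corank a = 0)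
    (s : Bool) {m : ℕ} (hm : m ≤ wd lo hi (r + 1) a) {y : α} :
    y ∈ Pr (tp lo hi f (r + 1) a s m) ↔ ∃ n, n ≤ wd lo hi r a ∧
      (n = m + sh lo hi r a s ∨ n + 1 = m + sh lo hi r a s) ∧ y = tp lo hi f r a s n := by
  constructor
  · intro hy
    have h0 : corank y = r := by
      have := C.corank_of_mem_Pr hy
      rw [h.tp_cor (by omega) ha s hm] at this
      omega
    obtain ⟨b, e, hb, h1, h2, rfl⟩ := h.sur' (by omega) h0
    have h3 := h.tcl_mem (r := r + 1) (by omega) ha s hm
    unfold tp at hy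
    rw [h.pr a r _ ha hr h3.1 h3.2] at hy
    obtain ⟨e', h4, h5, h6, h7⟩ := hy
    obtain ⟨rfl, rfl⟩ := h.inj b a r e e' hb ha (by omega) h1 h2 h5 h6 h7
    have h8 := h.le b r hb hr.le
    -- the distance of `e` from the end `s`
    obtain ⟨n, hn, hen⟩ : ∃ n, n ≤ wd lo hi r b ∧ e = tcl lo hi r b s n := by
      unfold wd tcl
      cases s
      · exact ⟨e - lo b r, by omega, by simp only [Bool.false_eq_true, if_false]; omega⟩
      · exact ⟨hi b r - e, by omega, by simp only [if_true]; omega⟩
    subst hen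
    have h9 : tp lo hi f (r + 1) b s m ∈ Ch (tp lo hi f r b s n) := by
      rw [← mem_Pr_iff]
      unfold tp
      rw [h.pr b r _ hb hr h3.1 h3.2]
      exact ⟨_, h4, h1, h2, rfl⟩
    rw [h.mem_Ch_tp C hr hb s hn] at h9
    obtain ⟨m', h10, h11, h12⟩ := h9
    rcases h.tp_inj (r := r + 1) (by omega) hb hb hm h10 h12 with ⟨_, ⟨_, rfl⟩ | ⟨h13, _⟩⟩
    · exact ⟨n, hn, h11, rfl⟩
    · exact absurd rfl h13
  · rintro ⟨n, h1, h2, rfl⟩
    rw [mem_Pr_iff, h.mem_Ch_tp C hr ha s h1]
    exact ⟨m, hm, h2, rfl⟩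

/-- **the elements whose only lower cover is a given element**: one for each end with letter S -/
theorem up_single (h : Pln lo hi i f) (C : CtxK α) {r : ℕ} (hr : r < i) {a : α}
    (ha : corank a = 0) (s : Bool) {n : ℕ} (hn : n ≤ wd lo hi (r + 1) a) :
    (univ.filter fun v : α => Ch v = {tp lo hi f (r + 1) a s n}) =
      (if n = 0 ∧ lS lo hi r a s then {tp lo hi f r a s 0} else ∅) ∪
        (if n = wd lo hi (r + 1) a ∧ lS lo hi r a (!s) then {tp lo hi f r a (!s) 0} else ∅) := by
  have hw := h.wd_succ hr ha s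
  have hs1 := sh_le (lo := lo) (hi := hi) r a s
  have hs2 := sh_le (lo := lo) (hi := hi) r a (!s)
  ext v
  rw [mem_filter, mem_union]
  constructor
  · rintro ⟨_, hv⟩
    have h1 : tp lo hi f (r + 1) a s n ∈ Ch v := by
      rw [hv]
      simp
    rw [← mem_Pr_iff, h.mem_Pr_tp C hr ha s hn] at h1
    obtain ⟨m, hm, h2, rfl⟩ := h1
    -- all lower covers
    have h3 : ∀ m', m' ≤ wd lo hi (r + 1) a →
        (m = m' + sh lo hi r a s ∨ m + 1 = m' + sh lo hi r a s) → m' = n := by
      intro m' h4 h5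
      have h6 : tp lo hi f (r + 1) a s m' ∈ Ch (tp lo hi f r a s m) := by
        rw [h.mem_Ch_tp C hr ha s hm]
        exact ⟨m', h4, h5, rfl⟩
      rw [hv, mem_singleton] at h6
      rcases h.tp_inj (r := r + 1) (by omega) ha ha h4 hn h6 with ⟨_, ⟨_, h7⟩ | ⟨h7, _⟩⟩
      · exact h7
      · exact absurd rfl h7
    rcases h2 with h2 | h2
    · -- `n` is the smaller one, `n + 1` is out of range
      have h4 : ¬ n + 1 ≤ wd lo hi (r + 1) a := by
        intro h4
        have := h3 (n + 1) h4 (Or.inr (by omega))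
        omega
      right
      have h5 : sh lo hi r a (!s) = 1 := by omega
      rw [if_pos ⟨by omega, sh_one.1 h5⟩, mem_singleton, h.tp_not hr.le ha s (Nat.zero_le _)]
      congr 1
      omega
    · -- `n - 1` is out of range
      have h4 : n = 0 := by
        by_contra h4
        have := h3 (n - 1) (by omega) (Or.inl (by omega))
        omega
      left
      have h5 : sh lo hi r a s = 1 := by omega
      rw [if_pos ⟨h4, sh_one.1 h5⟩, mem_singleton]
      congr 1
      omega
  · rintro (h1 | h1)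
    · split_ifs at h1 with h2
      · rw [mem_singleton] at h1
        subst h1
        obtain ⟨rfl, h3⟩ := h2
        rw [← sh_one] at h3
        refine ⟨mem_univ _, ?_⟩
        ext x
        rw [h.mem_Ch_tp C hr ha s (Nat.zero_le _), mem_singleton]
        constructor
        · rintro ⟨m, _, h5, rfl⟩
          congr 1
          omega
        · rintro rfl
          exact ⟨0, hn, Or.inr (by omega), rfl⟩
      · exact absurd h1 (notMem_empty _)
    · split_ifs at h1 with h2
      · rw [mem_singleton] at h1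
        subst h1
        obtain ⟨rfl, h3⟩ := h2
        rw [← sh_one] at h3
        refine ⟨mem_univ _, ?_⟩
        ext x
        rw [h.mem_Ch_tp C hr ha (!s) (Nat.zero_le _), mem_singleton]
        have h4 := h.tp_not (r := r + 1) (by omega) ha (!s) (n := wd lo hi (r + 1) a) le_rfl
        rw [Bool.not_not, Nat.sub_self] at h4
        rw [h4]
        constructor
        · rintro ⟨m, _, h5, rfl⟩
          congr 1
          omega
        · rintro rfl
          exact ⟨0, Nat.zero_le _, Or.inr (by omega), rfl⟩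
      · exact absurd h1 (notMem_empty _)

/-- their number -/
theorem card_up_single (h : Pln lo hi i f) (C : CtxK α) {r : ℕ} (hr : r < i) {a : α}
    (ha : corank a = 0) (s : Bool) {n : ℕ} (hn : n ≤ wd lo hi (r + 1) a) :
    (univ.filter fun v : α => Ch v = {tp lo hi f (r + 1) a s n}).card =
      (if n = 0 ∧ lS lo hi r a s then 1 else 0) +
        (if n = wd lo hi (r + 1) a ∧ lS lo hi r a (!s) then 1 else 0) := by
  rw [h.up_single C hr ha s hn, card_union_of_disjoint]
  · congr 1
    · split_ifs <;> simp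
    · split_ifs <;> simp
  · split_ifs with h1 h2 h2
    · rw [disjoint_singleton]
      intro h3
      have hw := h.wd_succ hr ha s
      have hs1 := sh_one.2 h1.2
      have hs2 := sh_one.2 h2.2
      rcases h.tp_inj hr.le ha ha (Nat.zero_le _) (Nat.zero_le _) h3 with ⟨_, ⟨h4, _⟩ | ⟨_, h4⟩⟩
      · cases s <;> simp at h4
      · omega
    · simp
    · simp
    · simp

/-- nothing is above the first row -/
theorem up_single_zero (h : Pln lo hi i f) (C : CtxK α) {a : α} (ha : corank a = 0) (s : Bool) :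
    (univ.filter fun v : α => Ch v = {tp lo hi f 0 a s 0}) = ∅ := by
  ext v
  rw [mem_filter]
  refine ⟨?_, fun h1 => absurd h1 (notMem_empty _)⟩
  rintro ⟨_, hv⟩
  exfalso
  have h1 : tp lo hi f 0 a s 0 ∈ Ch v := by
    rw [hv]
    simp
  have h2 := C.corank_of_mem_Ch h1
  rw [h.tp_cor (Nat.zero_le _) ha s (Nat.zero_le _)] at h2
  omega

/-- **the common upper cover of two neighbours** -/
theorem Ch_up (h : Pln lo hi i f) (C : CtxK α) {r : ℕ} (hr : r < i) {a : α} (ha : corank a = 0)
    (s : Bool) {n : ℕ} (hn : n + 1 ≤ wd lo hi (r + 1) a) :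
    Ch (tp lo hi f r a s (n + sh lo hi r a s)) =
      {tp lo hi f (r + 1) a s n, tp lo hi f (r + 1) a s (n + 1)} := by
  have hw := h.wd_succ hr ha s
  have hs2 := sh_le (lo := lo) (hi := hi) r a (!s)
  ext x
  rw [h.mem_Ch_tp C hr ha s (by omega), mem_insert, mem_singleton]
  constructor
  · rintro ⟨m, _, h1 | h1, rfl⟩
    · left
      congr 1
      omega
    · right
      congr 1
      omega
  · rintro (rfl | rfl)
    · exact ⟨n, by omega, Or.inl rfl, rfl⟩
    · exact ⟨n + 1, hn, Or.inr (by omega), rfl⟩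

/-- it is the only one -/
theorem Ch_up_unique (h : Pln lo hi i f) (C : CtxK α) {r : ℕ} (hr : r < i) {a : α}
    (ha : corank a = 0) (s : Bool) {n : ℕ} (hn : n + 1 ≤ wd lo hi (r + 1) a) {z : α}
    (hz : Ch z = {tp lo hi f (r + 1) a s n, tp lo hi f (r + 1) a s (n + 1)}) :
    z = tp lo hi f r a s (n + sh lo hi r a s) := by
  have h1 : tp lo hi f (r + 1) a s n ∈ Ch z := by
    rw [hz]
    simp
  have h2 : tp lo hi f (r + 1) a s (n + 1) ∈ Ch z := by
    rw [hz]
    simp
  rw [← mem_Pr_iff, h.mem_Pr_tp C hr ha s (by omega)] at h1 h2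
  obtain ⟨m, hm, h3, rfl⟩ := h1
  obtain ⟨m', hm', h4, h5⟩ := h2
  rcases h.tp_inj hr.le ha ha hm hm' h5 with ⟨_, ⟨_, rfl⟩ | ⟨h6, _⟩⟩
  · congr 1
    omega
  · exact absurd rfl h6

end Pln

end Pool.Gauss
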