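import Pool.Agent.Work.MP_065141_co.K.Pln

/-!
# Counting in planar coordinates; all rows perfect implies one maximal element
-/

set_option autoImplicit false
set_option linter.unusedSectionVars false
open scoped Classical
open Finset

namespace Pool.Gauss

variable {α : Type} [Fintype α] [PartialOrder α]

namespace Pln

variable {lo hi : α → ℕ → ℕ} {i : ℕ} {f : α → ℕ → ℕ → α}

/-- the elements of row `r` in the strip of `a` -/
noncomputable def rowS (lo hi : α → ℕ → ℕ) (f : α → ℕ → ℕ → α) (a : α) (r : ℕ) : Finset α :=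
  (Finset.Icc (lo a r) (hi a r)).image (f a r)

lemma lev_eq (h : Pln lo hi i f) {r : ℕ} (hr : r ≤ i) :
    lev α r = (lev α 0).biUnion fun a => rowS lo hi f a r := by
  ext x
  rw [mem_lev, mem_biUnion]
  constructor
  · intro hx
    obtain ⟨a, c, ha, h1, h2, rfl⟩ := h.sur' hr hx
    exact ⟨a, mem_lev.2 ha, mem_image.2 ⟨c, mem_Icc.2 ⟨h1, h2⟩, rfl⟩⟩
  · rintro ⟨a, ha, hx⟩
    rw [rowS, mem_image] at hx
    obtain ⟨c, hc, rfl⟩ := hx
    rw [mem_Icc] at hc
    exact h.cor a r c (mem_lev.1 ha) hr hc.1 hc.2

lemma card_rowS (h : Pln lo hi i f) {a : α} {r : ℕ} (ha : corank a = 0) (hr : r ≤ i) :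
    (rowS lo hi f a r).card + lo a r = hi a r + 1 := by
  rw [rowS, card_image_of_injOn, Nat.card_Icc]
  · have := h.le a r ha hr
    omega
  · intro c hc c' hc' he
    rw [mem_coe, mem_Icc] at hc hc'
    exact (h.inj a a r c c' ha ha hr hc.1 hc.2 hc'.1 hc'.2 he).2

lemma rowS_disj (h : Pln lo hi i f) {a b : α} {r : ℕ} (ha : corank a = 0) (hb : corank b = 0)
    (hab : a ≠ b) (hr : r ≤ i) : Disjoint (rowS lo hi f a r) (rowS lo hi f b r) := by
  rw [Finset.disjoint_left]
  intro x h1 h2
  rw [rowS, mem_image] at h1 h2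
  obtain ⟨c, hc, rfl⟩ := h1
  obtain ⟨c', hc', h3⟩ := h2
  rw [mem_Icc] at hc hc'
  exact hab (h.inj a b r c c' ha hb hr hc.1 hc.2 hc'.1 hc'.2 h3.symm).1

/-- size of a row as a sum over the strips -/
lemma sz_eq (h : Pln lo hi i f) {r : ℕ} (hr : r ≤ i) :
    sz α r = ∑ a ∈ lev α 0, (rowS lo hi f a r).card := by
  unfold sz
  conv_lhs => rw [h.lev_eq hr]
  rw [card_biUnion]
  intro a ha b hb hab
  exact h.rowS_disj (mem_lev.1 ha) (mem_lev.1 hb) hab hr

lemma sz_eq' (h : Pln lo hi i f) {r : ℕ} (hr : r ≤ i) :
    sz α r = ∑ a ∈ lev α 0, (hi a r + 1 - lo a r) := by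
  rw [h.sz_eq hr]
  apply Finset.sum_congr rfl
  intro a ha
  have := h.card_rowS (mem_lev.1 ha) hr
  omega

/-- number of upper covers in coordinates -/
lemma card_Pr (h : Pln lo hi i f) {a : α} {r c : ℕ} (ha : corank a = 0) (hr : r < i)
    (h1 : lo a (r + 1) ≤ c) (h2 : c ≤ hi a (r + 1)) :
    (Pr (f a (r + 1) c)).card = (if c ≤ hi a r then 1 else 0) + (if lo a r < c then 1 else 0) := by
  have h3 := h.loS a r ha hr
  have h4 := h.hiS a r ha hr
  have h5 : Pr (f a (r + 1) c) = (if c ≤ hi a r then {f a r c} else ∅) ∪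
      (if lo a r < c then {f a r (c - 1)} else ∅) := by
    ext y
    rw [h.pr a r c ha hr h1 h2, mem_union]
    constructor
    · rintro ⟨e, h6, h7, h8, rfl⟩
      rcases h6 with rfl | h6
      · left
        rw [if_pos h8, mem_singleton]
      · right
        rw [if_pos (by omega), mem_singleton]
        congr 1
        omega
    · rintro (h6 | h6)
      · split_ifs at h6 with h7
        · rw [mem_singleton] at h6
          exact ⟨c, Or.inl rfl, by omega, h7, h6⟩
        · exact absurd h6 (notMem_empty _)
      · split_ifs at h6 with h7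
        · rw [mem_singleton] at h6
          exact ⟨c - 1, Or.inr (by omega), by omega, by omega, h6⟩
        · exact absurd h6 (notMem_empty _)
  rw [h5]
  split_ifs with h6 h7 h7
  · rw [card_union_of_disjoint, card_singleton, card_singleton]
    rw [disjoint_singleton]
    intro h8
    have := h.inj a a r c (c - 1) ha ha (by omega) (by omega) h6 (by omega) (by omega) h8
    omega
  · simp
  · simp
  · simp

/-- number of lower covers in coordinates -/
lemma card_Ch (h : Pln lo hi i f) (C : CtxK α) {a : α} {r c : ℕ} (ha : corank a = 0) (hr : r < i)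
    (h1 : lo a r ≤ c) (h2 : c ≤ hi a r) :
    (Ch (f a r c)).card =
      (if lo a (r + 1) ≤ c then 1 else 0) + (if c < hi a (r + 1) then 1 else 0) := by
  have h3 := h.loS a r ha hr
  have h4 := h.hiS a r ha hr
  have h5 : Ch (f a r c) = (if lo a (r + 1) ≤ c then {f a (r + 1) c} else ∅) ∪
      (if c < hi a (r + 1) then {f a (r + 1) (c + 1)} else ∅) := by
    ext y
    rw [h.mem_Ch C ha hr h1 h2, mem_union]
    constructor
    · rintro ⟨e, h6, h7, h8, rfl⟩
      rcases h6 with rfl | rfl
      · left
        rw [if_pos h7, mem_singleton]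
      · right
        rw [if_pos (by omega), mem_singleton]
    · rintro (h6 | h6)
      · split_ifs at h6 with h7
        · rw [mem_singleton] at h6
          exact ⟨c, Or.inl rfl, h7, by omega, h6⟩
        · exact absurd h6 (notMem_empty _)
      · split_ifs at h6 with h7
        · rw [mem_singleton] at h6
          exact ⟨c + 1, Or.inr rfl, by omega, by omega, h6⟩
        · exact absurd h6 (notMem_empty _)
  rw [h5]
  split_ifs with h6 h7 h7
  · rw [card_union_of_disjoint, card_singleton, card_singleton]
    rw [disjoint_singleton]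
    intro h8
    have := h.inj a a (r + 1) c (c + 1) ha ha (by omega) h6 (by omega) (by omega) (by omega) h8
    omega
  · simp
  · simp
  · simp

/-- number of double lower covers, rows `< i` -/
lemma bC_eq (h : Pln lo hi i f) (C : CtxK α) {a : α} {r c : ℕ} (ha : corank a = 0) (hr : r < i)
    (h1 : lo a r ≤ c) (h2 : c ≤ hi a r) :
    bC (f a r c) = (if lo a r < c then 1 else 0) + (if c < hi a r then 1 else 0) := by
  have h3 := h.loS a r ha hr
  have h4 := h.hiS a r ha hr
  have h5 : ((Ch (f a r c)).filter fun x => (Pr x).card = 2) =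
      (if lo a r < c then {f a (r + 1) c} else ∅) ∪
      (if c < hi a r then {f a (r + 1) (c + 1)} else ∅) := by
    ext y
    rw [mem_filter, h.mem_Ch C ha hr h1 h2, mem_union]
    constructor
    · rintro ⟨⟨e, h6, h7, h8, rfl⟩, h9⟩
      rw [h.card_Pr ha hr h7 h8] at h9
      rcases h6 with rfl | rfl
      · left
        rw [if_pos, mem_singleton]
        by_contra h10
        rw [if_neg h10] at h9
        split_ifs at h9 <;> omega
      · right
        rw [if_pos, mem_singleton]
        by_contra h10
        rw [if_neg (by omega)] at h9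
        split_ifs at h9 <;> omega
    · rintro (h6 | h6)
      · split_ifs at h6 with h7
        · rw [mem_singleton] at h6
          subst h6
          refine ⟨⟨c, Or.inl rfl, by omega, by omega, rfl⟩, ?_⟩
          rw [h.card_Pr ha hr (by omega) (by omega), if_pos h2, if_pos h7]
        · exact absurd h6 (notMem_empty _)
      · split_ifs at h6 with h7
        · rw [mem_singleton] at h6
          subst h6
          refine ⟨⟨c + 1, Or.inr rfl, by omega, by omega, rfl⟩, ?_⟩
          rw [h.card_Pr ha hr (by omega) (by omega), if_pos (by omega), if_pos (by omega)]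
        · exact absurd h6 (notMem_empty _)
  unfold bC
  rw [h5]
  split_ifs with h6 h7 h7
  · rw [card_union_of_disjoint, card_singleton, card_singleton]
    rw [disjoint_singleton]
    intro h8
    have := h.inj a a (r + 1) c (c + 1) ha ha (by omega) (by omega) (by omega) (by omega) (by omega)
      h8
    omega
  · simp
  · simp
  · simp

/-- number of double upper covers, rows `≤ i` -/
lemma aD_eq (h : Pln lo hi i f) (C : CtxK α) {a : α} {r c : ℕ} (ha : corank a = 0) (hr : r ≤ i)
    (h1 : lo a r ≤ c) (h2 : c ≤ hi a r) :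
    aD (f a r c) = (if lo a r < c then 1 else 0) + (if c < hi a r then 1 else 0) := by
  rcases Nat.eq_zero_or_pos r with h0 | h0
  · subst h0
    have h3 := h.hi0 a
    have h4 := h.lo0 a
    rw [if_neg (by omega), if_neg (by omega)]
    unfold aD
    rw [C.pr_zero (h.cor a 0 c ha hr h1 h2)]
    simp
  obtain ⟨j, rfl⟩ : ∃ j, r = j + 1 := ⟨r - 1, by omega⟩
  have h3 := h.loS a j ha (by omega)
  have h4 := h.hiS a j ha (by omega)
  have h5 : ((Pr (f a (j + 1) c)).filter fun z => (Ch z).card = 2) =
      (if lo a (j + 1) < c then {f a j (c - 1)} else ∅) ∪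
      (if c < hi a (j + 1) then {f a j c} else ∅) := by
    ext y
    rw [mem_filter, h.pr a j c ha (by omega) h1 h2, mem_union]
    constructor
    · rintro ⟨⟨e, h6, h7, h8, rfl⟩, h9⟩
      rw [h.card_Ch C ha (by omega) h7 h8] at h9
      rcases h6 with rfl | h6
      · right
        rw [if_pos, mem_singleton]
        by_contra h10
        rw [if_neg h10] at h9
        split_ifs at h9 <;> omega
      · left
        rw [if_pos, mem_singleton]
        · congr 1
          omega
        · by_contra h10
          rw [if_neg (by omega)] at h9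
          split_ifs at h9 <;> omega
    · rintro (h6 | h6)
      · split_ifs at h6 with h7
        · rw [mem_singleton] at h6
          subst h6
          refine ⟨⟨c - 1, Or.inr (by omega), by omega, by omega, rfl⟩, ?_⟩
          rw [h.card_Ch C ha (by omega) (by omega) (by omega), if_pos (by omega),
            if_pos (by omega)]
        · exact absurd h6 (notMem_empty _)
      · split_ifs at h6 with h7
        · rw [mem_singleton] at h6
          subst h6
          refine ⟨⟨c, Or.inl rfl, by omega, by omega, rfl⟩, ?_⟩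
          rw [h.card_Ch C ha (by omega) (by omega) (by omega), if_pos h1, if_pos h7]
        · exact absurd h6 (notMem_empty _)
  unfold aD
  rw [h5]
  split_ifs with h6 h7 h7
  · rw [card_union_of_disjoint, card_singleton, card_singleton]
    rw [disjoint_singleton]
    intro h8
    have := h.inj a a j (c - 1) c ha ha (by omega) (by omega) (by omega) (by omega) (by omega) h8
    omega
  · simp
  · simp
  · simp

/-- every element of the rows `≤ i` is below exactly one maximal element, that of its strip -/
lemma top_unique (h : Pln lo hi i f) (C : CtxK α) {a t : α} {r c : ℕ} (ha : corank a = 0)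
    (hr : r ≤ i) (h1 : lo a r ≤ c) (h2 : c ≤ hi a r) (ht : corank t = 0) (hle : f a r c ≤ t) :
    t = a := by
  induction r generalizing c with
  | zero =>
    have h3 := h.hi0 a
    have h4 : c = 0 := by omega
    subst h4
    rw [h.top a ha] at hle
    rcases hle.eq_or_lt with h5 | h5
    · exact h5.symm
    · have := corank_lt h5
      omega
  | succ j ih =>
    have h3 := h.cor a (j + 1) c ha hr h1 h2
    rcases hle.eq_or_lt with h5 | h5
    · rw [← h5] at ht
      omega
    · obtain ⟨z, hz, hzt⟩ := exists_covBy_of_lt h5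
      have h6 := mem_Pr.2 hz
      rw [h.pr a j c ha (by omega) h1 h2] at h6
      obtain ⟨e, _, h8, h9, rfl⟩ := h6
      exact ih (by omega) h8 h9 hzt

/-- the element `f a r c` is below `a` -/
lemma le_top (h : Pln lo hi i f) (C : CtxK α) {a : α} {r c : ℕ} (ha : corank a = 0)
    (hr : r ≤ i) (h1 : lo a r ≤ c) (h2 : c ≤ hi a r) : f a r c ≤ a := by
  obtain ⟨t, h3, h4⟩ := C.exists_top (f a r c)
  rw [h.top_unique C ha hr h1 h2 h4 h3] at h3
  exact h3

/-- a strip of width one is a chain element or a lower chain element; an element of a strip with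
one upper cover is a tip -/
lemma tip_of_single (h : Pln lo hi i f) {a : α} {r c : ℕ} (ha : corank a = 0) (hr : r < i)
    (h1 : lo a (r + 1) ≤ c) (h2 : c ≤ hi a (r + 1)) (h3 : (Pr (f a (r + 1) c)).card = 1) :
    (c = lo a r ∧ c = lo a (r + 1)) ∨ (c = hi a r + 1 ∧ c = hi a (r + 1)) := by
  have h4 := h.loS a r ha hr
  have h5 := h.hiS a r ha hr
  have h6 := h.le a r ha (by omega)
  rw [h.card_Pr ha hr h1 h2] at h3
  split_ifs at h3 <;> omega

end Pln

/-- **all rows perfect**: a connected Gaussian poset has one maximal element -/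
theorem kap_eq_one_of_perf (C : CtxK α) (hP : ∀ b, b + 1 < HT α → Perf α b) : kap α = 1 := by
  have hH := C.HT_pos
  obtain ⟨lo, hi, f, h⟩ := exists_pln C (i := HT α - 1) (by omega) (fun b hb => hP b (by omega))
  -- the maximal element above x
  have key : ∀ x : α, ∃ a, corank a = 0 ∧ x ≤ a ∧ ∀ t, corank t = 0 → x ≤ t → t = a := by
    intro x
    obtain ⟨a, c, ha, h1, h2, h3⟩ := h.sur x (by have := corank_lt_HT x; omega)
    refine ⟨a, ha, ?_, fun t ht hx => ?_⟩
    · rw [h3]
      exact h.le_top C ha (by have := corank_lt_HT x; omega) h1 h2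
    · rw [h3] at hx
      exact h.top_unique C ha (by have := corank_lt_HT x; omega) h1 h2 ht hx
  choose σ hσ using key
  have hle : ∀ x y : α, x ≤ y → σ x = σ y := by
    intro x y hxy
    exact ((hσ x).2.2 (σ y) (hσ y).1 (hxy.trans (hσ y).2.1)).symm
  have hall : ∀ x y : α, σ x = σ y := by
    intro x y
    have h1 := C.conn x y
    induction h1 with
    | refl => rfl
    | tail _ hbc ih =>
      rcases hbc with h2 | h2
      · rw [ih, hle _ _ h2]
      · rw [ih, hle _ _ h2]
  unfold kap
  rw [card_eq_one]
  obtain ⟨x0⟩ := C.ne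
  refine ⟨σ x0, ?_⟩
  ext t
  rw [mem_lev, mem_singleton]
  constructor
  · intro ht
    rw [hall x0 t]
    exact (hσ t).2.2 t ht le_rfl
  · rintro rfl
    exact (hσ x0).1

/-- more than one maximal element: there is a first imperfect row -/
theorem exists_first_imperfect (C : CtxK α) (hk : kap α ≠ 1) :
    ∃ i, 0 < i ∧ i + 1 < HT α ∧ (∀ b < i, Perf α b) ∧ ¬ Perf α i := by
  have h1 : ∃ i, i + 1 < HT α ∧ ¬ Perf α i := by
    by_contra hcon
    push Not at hcon
    exact hk (kap_eq_one_of_perf C hcon)
  classical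
  have h2 := Nat.find_spec h1
  have h3 : ∀ b < Nat.find h1, Perf α b := by
    intro b hb
    by_contra hcon
    exact Nat.find_min h1 hb ⟨by omega, hcon⟩
  refine ⟨Nat.find h1, ?_, h2.1, h3, h2.2⟩
  by_contra h4
  have h5 : Nat.find h1 = 0 := by omega
  rw [h5] at h2
  exact h2.2 C.perf_zero

/-- after passing to the dual, the first imperfect row is in the first half -/
theorem first_imperfect_half (C : CtxK α) (hk : kap α ≠ 1) :
    (∃ i, 0 < i ∧ 2 * i + 1 ≤ HT α ∧ i + 1 < HT α ∧ (∀ b < i, Perf α b) ∧ ¬ Perf α i) ∨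
    (∃ i, 0 < i ∧ 2 * i + 1 ≤ HT αᵒᵈ ∧ i + 1 < HT αᵒᵈ ∧ (∀ b < i, Perf αᵒᵈ b) ∧
      ¬ Perf αᵒᵈ i) := by
  obtain ⟨i, h1, h2, h3, h4⟩ := exists_first_imperfect C hk
  rcases Nat.lt_or_ge (HT α) (2 * i + 1) with h5 | h5
  · right
    have hk' : kap αᵒᵈ ≠ 1 := by rw [C.kap_dual]; exact hk
    obtain ⟨i', g1, g2, g3, g4⟩ := exists_first_imperfect C.dual hk'
    refine ⟨i', g1, ?_, g2, g3, g4⟩
    rw [C.HT_dual] at g2 ⊢
    by_contra h6
    have h7 : ¬ Perf αᵒᵈ (HT α - 1 - i) := by
      rw [C.perf_dual (by omega)]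
      have : HT α - 1 - (HT α - 1 - i) = i := by omega
      rw [this]
      exact h4
    exact h7 (g3 _ (by omega))
  · left
    exact ⟨i, h1, h5, h2, h3, h4⟩

end Pool.Gauss
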