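import Pool.Agent.Work.MP_065141_co.K.Cluster
import Pool.Agent.Work.MP_065141_co.K.PlnCount

/-!
# The local shape of the first defective row

Adaptor between the abstract file `Cluster` and the Gaussian posets with any number of maximal
elements: `wcd i s = mC i s - mD i s` on the pairs of level `i`.
-/

set_option autoImplicit false
set_option linter.unusedSectionVars false
open scoped Classical
open Finset

namespace Pool.Gauss

variable {α : Type} [Fintype α] [PartialOrder α]

/-- the weight of a pair of level `i`: new minus lost -/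
noncomputable def wcd (i : ℕ) (s : Finset α) : ℤ := (mC i s : ℤ) - mD i s

variable (α) in
/-- the elements of level `i` with at most one neighbour in the level above the base -/
noncomputable def Tips (i : ℕ) : Finset α := (lev α i).filter fun y => aD y ≤ 1

lemma mem_Tips {i : ℕ} {y : α} : y ∈ Tips α i ↔ corank y = i ∧ aD y ≤ 1 := by
  rw [Tips, mem_filter, mem_lev]

namespace CtxK

variable (C : CtxK α)
include C

/-- the weight sum at an element is the defect of its degree -/
lemma sm_wcd {i : ℕ} {y : α} (hy : corank y = i) :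
    Clu.sm (lev α i) (wcd i) y = (bC y : ℤ) - aD y := by
  rw [Clu.sm, C.bC_sum hy, C.aD_sum hy]
  unfold wcd
  rw [Finset.sum_sub_distrib]
  push_cast
  rfl

lemma sum_mC (i : ℕ) : ∑ s ∈ (lev α i).powersetCard 2, mC i s =
    ((lev α (i + 1)).filter fun x => (Pr x).card = 2).card := by
  symm
  rw [Finset.card_eq_sum_card_fiberwise (f := Pr) (t := (lev α i).powersetCard 2)]
  · apply Finset.sum_congr rfl
    intro g hg
    rw [mem_powersetCard] at hg
    unfold mC
    congr 1
    ext x
    rw [mem_filter, mem_filter, mem_filter]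
    constructor
    · rintro ⟨⟨h2, _⟩, h3⟩
      exact ⟨h2, h3⟩
    · rintro ⟨h2, h3⟩
      exact ⟨⟨h2, by rw [h3]; exact hg.2⟩, h3⟩
  · intro x hx
    rw [mem_coe, mem_filter, mem_lev] at hx
    rw [mem_coe, mem_powersetCard]
    exact ⟨C.pr_sub hx.1, hx.2⟩

lemma sum_mD {i : ℕ} : ∑ s ∈ (lev α i).powersetCard 2, mD i s =
    ((lev' α i).filter fun x => (Ch x).card = 2).card := by
  symm
  rw [Finset.card_eq_sum_card_fiberwise (f := Ch) (t := (lev α i).powersetCard 2)]
  · apply Finset.sum_congr rfl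
    intro g hg
    rw [mem_powersetCard] at hg
    unfold mD
    congr 1
    ext x
    rw [mem_filter, mem_filter, mem_filter]
    constructor
    · rintro ⟨⟨h2, _⟩, h3⟩
      exact ⟨h2, h3⟩
    · rintro ⟨h2, h3⟩
      exact ⟨⟨h2, by rw [h3]; exact hg.2⟩, h3⟩
  · intro x hx
    rw [mem_coe, mem_filter, mem_lev'] at hx
    rw [mem_coe, mem_powersetCard]
    exact ⟨C.ch_sub hx.1, hx.2⟩

/-- coefficient of `X`: as many new pairs as lost pairs -/
theorem j1 {i : ℕ} (hi0 : 0 < i) (hi : i < HT α) :
    ∑ s ∈ (lev α i).powersetCard 2, wcd i s = 0 := by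
  unfold wcd
  rw [Finset.sum_sub_distrib]
  have h1 := C.sum_mC i
  have h2 := C.sum_mD (i := i)
  obtain ⟨j, rfl⟩ : ∃ j, i = j + 1 := ⟨i - 1, by omega⟩
  have h3 := C.dbl_pr hi
  have h4 := C.dbl_ch hi
  have h5 : ((lev' α (j + 1)).filter fun x => (Ch x).card = 2) =
      ((lev α j).filter fun x => (Ch x).card = 2) := by
    ext x
    rw [mem_filter, mem_filter, mem_lev, mem_lev']
    constructor
    · rintro ⟨h6, h7⟩
      exact ⟨by omega, h7⟩
    · rintro ⟨h6, h7⟩
      exact ⟨by omega, h7⟩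
  rw [h5] at h2
  have h6 : ∑ s ∈ (lev α (j + 1)).powersetCard 2, mC (j + 1) s =
      ∑ s ∈ (lev α (j + 1)).powersetCard 2, mD (j + 1) s := by omega
  have h7 : (∑ s ∈ (lev α (j + 1)).powersetCard 2, (mC (j + 1) s : ℤ)) =
      ∑ s ∈ (lev α (j + 1)).powersetCard 2, (mD (j + 1) s : ℤ) := by exact_mod_cast h6
  rw [h7, sub_self]

/-- coefficient of `X^2` -/
theorem j2 {i : ℕ} (hi0 : 0 < i) (hi : i < HT α) :
    ∑ s ∈ (lev α i).powersetCard 2, wcd i s ^ 2 =
      ∑ y ∈ lev α i, Clu.sm (lev α i) (wcd i) y ^ 2 := by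
  have h1 := C.E2 hi0 hi
  unfold wcd
  rw [h1]
  apply Finset.sum_congr rfl
  intro y hy
  rw [← C.sm_wcd (mem_lev.1 hy)]
  rfl

/-- at a tip there is at most one lost pair -/
theorem one_tip {i : ℕ} {y : α} (hy : y ∈ Tips α i) :
    (Clu.Ls (lev α i) (wcd i) y).card ≤ 1 := by
  rw [mem_Tips] at hy
  have h1 := C.aD_sum hy.1
  have h2 : (Clu.Ls (lev α i) (wcd i) y).card ≤
      ∑ g ∈ ((lev α i).powersetCard 2).filter (fun g => y ∈ g), mD i g := by
    rw [Finset.card_eq_sum_ones]
    calc ∑ s ∈ Clu.Ls (lev α i) (wcd i) y, 1 ≤ ∑ s ∈ Clu.Ls (lev α i) (wcd i) y, mD i s := by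
          apply Finset.sum_le_sum
          intro s hs
          rw [Clu.mem_Ls] at hs
          have := hs.2.2
          unfold wcd at this
          omega
      _ ≤ _ := by
          apply Finset.sum_le_sum_of_subset
          intro s hs
          rw [Clu.mem_Ls] at hs
          rw [mem_filter]
          exact ⟨hs.1, hs.2.1⟩
  omega

/-- the hypotheses of the classification, for the whole row -/
theorem row {lo hi : α → ℕ → ℕ} {i : ℕ} {f : α → ℕ → ℕ → α} (h : Pln lo hi i f)
    (hi0 : 0 < i) (hiH : i < HT α)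
    (hnew : ∀ s ∈ (lev α i).powersetCard 2, mD i s < mC i s →
      s ⊆ Tips α i ∧ mC i s = mD i s + 1)
    (hlost : ∀ s ∈ (lev α i).powersetCard 2, mC i s < mD i s → ¬ s ⊆ Tips α i) :
    Clu.Row (lev α i) (Tips α i) (wcd i) := by
  have hD : ∀ s ∈ (lev α i).powersetCard 2, mD i s ≤ 1 := by
    intro s hs
    rcases Nat.eq_zero_or_pos (mD i s) with h1 | h1
    · omega
    · obtain ⟨a, c, ha, h2, h3, rfl⟩ := h.mD_pos C (mem_powersetCard.1 hs).2 h1
      rw [h.mD_one C ha h2 h3]
  refine ⟨?_, ?_, ?_, ?_, C.j1 hi0 hiH, C.j2 hi0 hiH⟩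
  · intro s hs
    unfold wcd
    rcases Nat.lt_or_ge (mD i s) (mC i s) with h1 | h1
    · have := (hnew s hs h1).2
      omega
    · omega
  · intro s hs
    unfold wcd
    have := hD s hs
    omega
  · intro s hs h1
    unfold wcd at h1
    exact (hnew s hs (by omega)).1
  · intro s hs h1
    unfold wcd at h1
    exact hlost s hs (by omega)

/-- **local shape of the first defective row**: if every new pair is simple and joins two tips and
no lost pair joins two tips, then tips keep their degree or gain one, the other elements keep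
theirs or lose one, and every lost pair joins a tip and an element which is not a tip -/
theorem row_shape {lo hi : α → ℕ → ℕ} {i : ℕ} {f : α → ℕ → ℕ → α} (h : Pln lo hi i f)
    (hi0 : 0 < i) (hiH : i < HT α)
    (hnew : ∀ s ∈ (lev α i).powersetCard 2, mD i s < mC i s →
      s ⊆ Tips α i ∧ mC i s = mD i s + 1)
    (hlost : ∀ s ∈ (lev α i).powersetCard 2, mC i s < mD i s → ¬ s ⊆ Tips α i) :
    (∀ y : α, corank y = i → aD y ≤ 1 → bC y = aD y ∨ bC y = aD y + 1) ∧
      (∀ y : α, corank y = i → aD y = 2 → bC y = 2 ∨ bC y = 1) ∧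
        ∀ s ∈ (lev α i).powersetCard 2, mC i s < mD i s →
          ∃ t c, t ≠ c ∧ s = {t, c} ∧ corank t = i ∧ corank c = i ∧ aD t = 1 ∧ aD c = 2 ∧
            mC i s = 0 ∧ mD i s = 1 := by
  have R := C.row h hi0 hiH hnew hlost
  refine ⟨?_, ?_, ?_⟩
  · intro y hy h1
    have h2 := R.tip (mem_lev.2 hy) (mem_Tips.2 ⟨hy, h1⟩)
    rw [C.sm_wcd hy] at h2
    omega
  · intro y hy h1
    have h2 := R.nontip (mem_lev.2 hy) (fun h3 => by rw [mem_Tips] at h3; omega)
    rw [C.sm_wcd hy] at h2
    omega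
  · intro s hs h1
    have h2 := R.ge1 s hs
    unfold wcd at h2
    have h0 : mD i s ≤ 1 := by
      rcases Nat.eq_zero_or_pos (mD i s) with h1 | h1
      · omega
      · obtain ⟨a, c, ha, h12, h13, rfl⟩ := h.mD_pos C (mem_powersetCard.1 hs).2 h1
        rw [h.mD_one C ha h12 h13]
    have h3 : wcd i s = -1 := by
      unfold wcd
      omega
    obtain ⟨t, c, htc, rfl, ht, hc⟩ := R.lost_pair hs h3
    rw [mem_powersetCard] at hs
    have hct : corank t = i := (mem_Tips.1 ht).1
    have hcc : corank c = i := mem_lev.1 (hs.1 (by simp))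
    obtain ⟨a, e, ha, h4, h5, h6⟩ := h.mD_pos C hs.2 (by omega)
    have haD : ∀ e', lo a i ≤ e' → e' ≤ hi a i →
        aD (f a i e') = (if lo a i < e' then 1 else 0) + (if e' < hi a i then 1 else 0) :=
      fun e' h7 h8 => h.aD_eq C ha le_rfl h7 h8
    have h7 : ∀ y ∈ ({t, c} : Finset α), 1 ≤ aD y ∧ aD y ≤ 2 := by
      intro y hy
      rw [h6, mem_insert, mem_singleton] at hy
      rcases hy with rfl | rfl
      · rw [haD e h4 (by omega)]
        split_ifs <;> omega
      · rw [haD (e + 1) (by omega) h5]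
        split_ifs <;> omega
    have h8 := h7 t (by simp)
    have h9 := h7 c (by simp)
    have h10 := (mem_Tips.1 ht).2
    have h11 : ¬ aD c ≤ 1 := fun h12 => hc (mem_Tips.2 ⟨hcc, h12⟩)
    exact ⟨t, c, htc, rfl, hct, hcc, by omega, by omega, by omega, by omega⟩

end CtxK

end Pool.Gauss
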