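import Mathlib

/-!
# Signed matching polynomials

`W` is a weight on the two-element subsets of a finite set.  `MP W U` is the generating polynomial
of the matchings inside `U`.
-/

set_option autoImplicit false
set_option linter.unusedSectionVars false
set_option linter.unusedVariables false
open scoped Classical
open Finset Polynomial

namespace Pool.Gauss

variable {V : Type}

/-- the matchings inside `U`: sets of pairwise disjoint two-element subsets of `U` -/
noncomputable def mtc (U : Finset V) : Finset (Finset (Finset V)) :=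
  (U.powersetCard 2).powerset.filter fun F => ∀ s ∈ F, ∀ t ∈ F, s ≠ t → Disjoint s t

lemma mem_mtc {U : Finset V} {F : Finset (Finset V)} :
    F ∈ mtc U ↔ (∀ s ∈ F, s ⊆ U ∧ s.card = 2) ∧ ∀ s ∈ F, ∀ t ∈ F, s ≠ t → Disjoint s t := by
  rw [mtc, mem_filter, mem_powerset]
  refine and_congr_left fun _ => ?_
  constructor
  · intro h s hs
    exact mem_powersetCard.1 (h hs)
  · intro h s hs
    exact mem_powersetCard.2 (h s hs)

/-- the matching polynomial -/
noncomputable def MP (W : Finset V → ℤ) (U : Finset V) : ℤ[X] :=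
  ∑ F ∈ mtc U, C (∏ s ∈ F, W s) * X ^ F.card

lemma MP_coeff (W : Finset V → ℤ) (U : Finset V) (J : ℕ) :
    (MP W U).coeff J = ∑ F ∈ (mtc U).filter (fun F => F.card = J), ∏ s ∈ F, W s := by
  rw [MP, finsetSum_coeff, sum_filter]
  apply sum_congr rfl
  intro F _
  rw [coeff_C_mul, coeff_X_pow]
  by_cases h : F.card = J
  · rw [if_pos h, if_pos h.symm, mul_one]
  · rw [if_neg h, if_neg (fun h' => h h'.symm), mul_zero]

lemma MP_coeff_zero (W : Finset V → ℤ) (U : Finset V) : (MP W U).coeff 0 = 1 := by
  rw [MP_coeff]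
  have h : (mtc U).filter (fun F => F.card = 0) = {∅} := by
    ext F
    rw [mem_filter, mem_mtc, mem_singleton, card_eq_zero]
    constructor
    · exact fun h => h.2
    · rintro rfl
      simp
  rw [h, sum_singleton, prod_empty]

lemma MP_eq_one_iff (W : Finset V → ℤ) (U : Finset V) :
    MP W U = 1 ↔ ∀ J, 1 ≤ J → (MP W U).coeff J = 0 := by
  constructor
  · intro h J hJ
    rw [h, coeff_one, if_neg (by omega)]
  · intro h
    ext J
    rcases Nat.eq_zero_or_pos J with h0 | h0
    · rw [h0, MP_coeff_zero, coeff_one_zero]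
    · rw [h J h0, coeff_one, if_neg (by omega)]

/-- the set `U` is separated from `U'` -/
def Sep (W : Finset V → ℤ) (U U' : Finset V) : Prop :=
  ∀ x ∈ U, ∀ y ∈ U', W {x, y} = 0

/-- the polynomial is multiplicative over separated sets -/
theorem MP_union {W : Finset V → ℤ} {U U' : Finset V} (hd : Disjoint U U') (hW : Sep W U U') :
    MP W (U ∪ U') = MP W U * MP W U' := by
  -- drop the matchings with a crossing pair
  have h1 : MP W (U ∪ U') = ∑ F ∈ (mtc (U ∪ U')).filter (fun F => ∀ s ∈ F, s ⊆ U ∨ s ⊆ U'),
      C (∏ s ∈ F, W s) * X ^ F.card := by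
    rw [MP]
    symm
    apply sum_subset (filter_subset _ _)
    intro F hF hF'
    rw [mem_filter, not_and] at hF'
    have h2 := hF' hF
    push Not at h2
    obtain ⟨s, hs, h3, h4⟩ := h2
    have h5 := (mem_mtc.1 hF).1 s hs
    have h6 : W s = 0 := by
      obtain ⟨a, ha, ha'⟩ := Finset.not_subset.1 h4
      obtain ⟨b, hb, hb'⟩ := Finset.not_subset.1 h3
      have ha2 := mem_union.1 (h5.1 ha)
      have hb2 := mem_union.1 (h5.1 hb)
      have ha3 : a ∈ U := by tauto
      have hb3 : b ∈ U' := by tauto
      have hab : a ≠ b := by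
        rintro rfl
        exact ha' hb3
      have h7 : s = {a, b} := by
        symm
        apply eq_of_subset_of_card_le
        · intro x hx
          rw [mem_insert, mem_singleton] at hx
          rcases hx with rfl | rfl
          · exact ha
          · exact hb
        · rw [h5.2, card_pair hab]
      rw [h7]
      exact hW a ha3 b hb3
    rw [prod_eq_zero hs h6, C_0, zero_mul]
  rw [h1, MP, MP, sum_mul_sum, ← sum_product']
  have hne : ∀ s : Finset V, s.card = 2 → s ⊆ U → s ⊆ U' → False := by
    intro s hs h2 h3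
    obtain ⟨a, ha⟩ : s.Nonempty := by
      rw [← card_pos]
      omega
    exact Finset.disjoint_left.1 hd (h2 ha) (h3 ha)
  refine sum_bij' (fun F _ => (F.filter (fun s => s ⊆ U), F.filter (fun s => s ⊆ U')))
    (fun p _ => p.1 ∪ p.2) ?_ ?_ ?_ ?_ ?_
  · intro F hF
    rw [mem_filter, mem_mtc] at hF
    rw [mem_product, mem_mtc, mem_mtc]
    refine ⟨⟨fun s hs => ?_, fun s hs t ht => ?_⟩, fun s hs => ?_, fun s hs t ht => ?_⟩
    · rw [mem_filter] at hs
      exact ⟨hs.2, (hF.1.1 s hs.1).2⟩
    · exact hF.1.2 s (mem_filter.1 hs).1 t (mem_filter.1 ht).1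
    · rw [mem_filter] at hs
      exact ⟨hs.2, (hF.1.1 s hs.1).2⟩
    · exact hF.1.2 s (mem_filter.1 hs).1 t (mem_filter.1 ht).1
  · rintro ⟨F, G⟩ hFG
    rw [mem_product, mem_mtc, mem_mtc] at hFG
    obtain ⟨⟨h2, h3⟩, h4, h5⟩ := hFG
    simp only at h2 h3 h4 h5
    rw [mem_filter, mem_mtc]
    refine ⟨⟨fun s hs => ?_, fun s hs t ht => ?_⟩, fun s hs => ?_⟩
    · rw [mem_union] at hs
      rcases hs with hs | hs
      · exact ⟨(h2 s hs).1.trans subset_union_left, (h2 s hs).2⟩
      · exact ⟨(h4 s hs).1.trans subset_union_right, (h4 s hs).2⟩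
    · rw [mem_union] at hs ht
      rcases hs with hs | hs <;> rcases ht with ht | ht
      · exact h3 s hs t ht
      · intro _
        exact disjoint_of_subset_left (h2 s hs).1 (disjoint_of_subset_right (h4 t ht).1 hd)
      · intro _
        exact disjoint_of_subset_left (h4 s hs).1 (disjoint_of_subset_right (h2 t ht).1 hd.symm)
      · exact h5 s hs t ht
    · rw [mem_union] at hs
      rcases hs with hs | hs
      · exact Or.inl (h2 s hs).1
      · exact Or.inr (h4 s hs).1
  · intro F hF
    rw [mem_filter, mem_mtc] at hF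
    ext s
    simp only [mem_union, mem_filter]
    constructor
    · rintro (h | h) <;> exact h.1
    · intro h
      rcases hF.2 s h with h2 | h2
      · exact Or.inl ⟨h, h2⟩
      · exact Or.inr ⟨h, h2⟩
  · rintro ⟨F, G⟩ hFG
    rw [mem_product, mem_mtc, mem_mtc] at hFG
    obtain ⟨⟨h2, h3⟩, h4, h5⟩ := hFG
    simp only at h2 h3 h4 h5
    ext s
    · simp only [mem_filter, mem_union]
      constructor
      · rintro ⟨h6 | h6, h7⟩
        · exact h6
        · exact (hne s (h4 s h6).2 h7 (h4 s h6).1).elim
      · intro h6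
        exact ⟨Or.inl h6, (h2 s h6).1⟩
    · simp only [mem_filter, mem_union]
      constructor
      · rintro ⟨h6 | h6, h7⟩
        · exact (hne s (h2 s h6).2 (h2 s h6).1 h7).elim
        · exact h6
      · intro h6
        exact ⟨Or.inr h6, (h4 s h6).1⟩
  · intro F hF
    rw [mem_filter, mem_mtc] at hF
    have h6 : F = F.filter (fun s => s ⊆ U) ∪ F.filter (fun s => s ⊆ U') := by
      ext s
      simp only [mem_union, mem_filter]
      constructor
      · intro h
        rcases hF.2 s h with h2 | h2
        · exact Or.inl ⟨h, h2⟩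
        · exact Or.inr ⟨h, h2⟩
      · rintro (h | h) <;> exact h.1
    have h7 : Disjoint (F.filter (fun s => s ⊆ U)) (F.filter (fun s => s ⊆ U')) := by
      rw [Finset.disjoint_left]
      intro s hs hs'
      rw [mem_filter] at hs hs'
      exact hne s (hF.1.1 s hs.1).2 hs.2 hs'.2
    have h8 : F.card = (F.filter (fun s => s ⊆ U)).card + (F.filter (fun s => s ⊆ U')).card := by
      rw [← card_union_of_disjoint h7, ← h6]
    have h9 : ∏ s ∈ F, W s = (∏ s ∈ F.filter (fun s => s ⊆ U), W s) *
        ∏ s ∈ F.filter (fun s => s ⊆ U'), W s := by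
      rw [← prod_union h7, ← h6]
    rw [h8, h9, pow_add, C_mul]
    ring

/-- if the whole polynomial is one, it is one on every separated part -/
theorem MP_part {W : Finset V → ℤ} {R U : Finset V} (h : MP W R = 1) (hU : U ⊆ R)
    (hW : Sep W U (R \ U)) : MP W U = 1 := by
  have h1 : U ∪ (R \ U) = R := union_sdiff_of_subset hU
  have h2 := MP_union (disjoint_sdiff (s := U) (t := R)) hW
  rw [h1, h] at h2
  have h3 : IsUnit (MP W U) := IsUnit.of_mul_eq_one _ h2.symm
  obtain ⟨r, _, hr⟩ := Polynomial.isUnit_iff.1 h3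
  have h4 := MP_coeff_zero W U
  rw [← hr, coeff_C_zero] at h4
  rw [← hr, h4, C_1]

/-- first coefficient -/
lemma MP_coeff_one (W : Finset V → ℤ) (U : Finset V) :
    (MP W U).coeff 1 = ∑ s ∈ U.powersetCard 2, W s := by
  rw [MP_coeff]
  have h : (mtc U).filter (fun F => F.card = 1) = (U.powersetCard 2).image fun s => {s} := by
    ext F
    rw [mem_filter, mem_mtc, mem_image, card_eq_one]
    constructor
    · rintro ⟨⟨h1, h2⟩, s, rfl⟩
      exact ⟨s, mem_powersetCard.2 (h1 s (mem_singleton_self s)), rfl⟩
    · rintro ⟨s, hs, rfl⟩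
      rw [mem_powersetCard] at hs
      refine ⟨⟨fun t ht => ?_, fun t ht t' ht' => ?_⟩, s, rfl⟩
      · rw [mem_singleton] at ht
        rw [ht]
        exact hs
      · rw [mem_singleton] at ht ht'
        rw [ht, ht']
        exact fun h => (h rfl).elim
  rw [h, sum_image (fun a _ b _ hab => singleton_injective hab)]
  apply sum_congr rfl
  intro s _
  rw [prod_singleton]

/-- the second coefficient -/
theorem MP_coeff_two (W : Finset V → ℤ) (U : Finset V) :
    2 * (MP W U).coeff 2 = (∑ s ∈ U.powersetCard 2, W s) ^ 2 + ∑ s ∈ U.powersetCard 2, W s ^ 2 -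
      ∑ y ∈ U, (∑ s ∈ (U.powersetCard 2).filter (fun s => y ∈ s), W s) ^ 2 := by
  set P := U.powersetCard 2 with hP
  have hcard : ∀ s ∈ P, ∀ t ∈ P, ((s ∩ t).card : ℤ) =
      (if s = t then 1 else 0) + 1 - if Disjoint s t then 1 else 0 := by
    intro s hs t ht
    rw [hP, mem_powersetCard] at hs ht
    by_cases h1 : s = t
    · have h2 : ¬ Disjoint s t := by
        rw [h1, disjoint_self, bot_eq_empty]
        rintro rfl
        simp at ht
      rw [if_pos h1, if_neg h2, h1, inter_self, ht.2]
      norm_num
    · rw [if_neg h1]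
      by_cases h2 : Disjoint s t
      · rw [if_pos h2, disjoint_iff_inter_eq_empty.1 h2, card_empty]
        norm_num
      · rw [if_neg h2]
        have h3 : 0 < (s ∩ t).card := by
          rw [card_pos, nonempty_iff_ne_empty]
          exact fun h => h2 (disjoint_iff_inter_eq_empty.2 h)
        have h4 : (s ∩ t).card ≠ 2 := by
          intro h5
          apply h1
          have h6 : s ∩ t = s := eq_of_subset_of_card_le inter_subset_left (by omega)
          have h7 : s ∩ t = t := eq_of_subset_of_card_le inter_subset_right (by omega)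
          rw [← h6, h7]
        have h5 : (s ∩ t).card ≤ s.card := card_le_card inter_subset_left
        have h6 : (s ∩ t).card = 1 := by omega
        rw [h6]
        norm_num
  have h1 : ∑ y ∈ U, (∑ s ∈ P.filter (fun s => y ∈ s), W s) ^ 2 =
      ∑ s ∈ P, ∑ t ∈ P, W s * W t * (s ∩ t).card := by
    have h2 : ∀ y ∈ U, (∑ s ∈ P.filter (fun s => y ∈ s), W s) ^ 2 =
        ∑ s ∈ P, ∑ t ∈ P, W s * W t * (if y ∈ s ∩ t then 1 else 0) := by
      intro y _
      rw [sq, sum_mul_sum, sum_filter]
      apply sum_congr rfl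
      intro s _
      by_cases h3 : y ∈ s
      · rw [if_pos h3, sum_filter]
        apply sum_congr rfl
        intro t _
        by_cases h4 : y ∈ t
        · rw [if_pos h4, if_pos (mem_inter.2 ⟨h3, h4⟩), mul_one]
        · rw [if_neg h4, if_neg (fun h => h4 (mem_inter.1 h).2), mul_zero]
      · rw [if_neg h3]
        symm
        apply sum_eq_zero
        intro t _
        rw [if_neg (fun h => h3 (mem_inter.1 h).1), mul_zero]
    rw [sum_congr rfl h2, sum_comm]
    apply sum_congr rfl
    intro s hs
    rw [sum_comm]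
    apply sum_congr rfl
    intro t ht
    rw [← mul_sum, sum_boole]
    congr 2
    congr 1
    ext y
    rw [mem_filter]
    constructor
    · exact fun h => h.2
    · intro h
      rw [hP, mem_powersetCard] at hs
      exact ⟨hs.1 (mem_inter.1 h).1, h⟩
  have h2 : ∑ s ∈ P, ∑ t ∈ P, W s * W t * (s ∩ t).card =
      ∑ s ∈ P, W s ^ 2 + (∑ s ∈ P, W s) ^ 2 -
        ∑ s ∈ P, ∑ t ∈ P, if Disjoint s t then W s * W t else 0 := by
    have h3 : ∀ s ∈ P, ∑ t ∈ P, W s * W t * (s ∩ t).card =
        W s ^ 2 + W s * (∑ t ∈ P, W t) - ∑ t ∈ P, if Disjoint s t then W s * W t else 0 := by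
      intro s hs
      have h4 : ∀ t ∈ P, W s * W t * (s ∩ t).card = (if s = t then W s * W t else 0) +
          W s * W t - if Disjoint s t then W s * W t else 0 := by
        intro t ht
        rw [hcard s hs t ht]
        split_ifs <;> ring
      rw [sum_congr rfl h4, sum_sub_distrib, sum_add_distrib, ← mul_sum, sum_ite_eq, if_pos hs]
      ring
    rw [sum_congr rfl h3, sum_sub_distrib, sum_add_distrib, ← sum_mul, sq]
  have h3 : ∑ s ∈ P, ∑ t ∈ P, (if Disjoint s t then W s * W t else 0) =
      2 * (MP W U).coeff 2 := by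
    rw [MP_coeff]
    set N := (mtc U).filter (fun F => F.card = 2) with hN
    set S := (P ×ˢ P).filter (fun p => Disjoint p.1 p.2) with hS
    have h4 : ∑ s ∈ P, ∑ t ∈ P, (if Disjoint s t then W s * W t else 0) =
        ∑ p ∈ S, W p.1 * W p.2 := by
      rw [hS, sum_filter, sum_product]
    have hne : ∀ s ∈ P, ¬ Disjoint s s := by
      intro s hs h
      rw [hP, mem_powersetCard] at hs
      rw [disjoint_self, bot_eq_empty] at h
      rw [h] at hs
      simp at hs
    have h5 : ∀ p ∈ S, ({p.1, p.2} : Finset (Finset V)) ∈ N := by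
      rintro ⟨s, t⟩ hp
      rw [hS, mem_filter, mem_product] at hp
      obtain ⟨⟨h6, h7⟩, h8⟩ := hp
      simp only at h6 h7 h8
      have h9 : s ≠ t := by
        rintro rfl
        exact hne s h6 h8
      rw [hN, mem_filter, mem_mtc]
      refine ⟨⟨fun r hr => ?_, fun r hr r' hr' hrr => ?_⟩, card_pair h9⟩
      · rw [mem_insert, mem_singleton] at hr
        rw [hP, mem_powersetCard] at h6 h7
        rcases hr with rfl | rfl
        · exact h6
        · exact h7
      · rw [mem_insert, mem_singleton] at hr hr'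
        rcases hr with rfl | rfl <;> rcases hr' with rfl | rfl
        · exact (hrr rfl).elim
        · exact h8
        · exact h8.symm
        · exact (hrr rfl).elim
    rw [h4, ← sum_fiberwise_of_maps_to h5, mul_sum]
    apply sum_congr rfl
    intro F hF
    rw [hN, mem_filter, mem_mtc, card_eq_two] at hF
    obtain ⟨⟨h6, h7⟩, s, t, h8, rfl⟩ := hF
    have h9 : Disjoint s t := h7 s (by simp) t (by simp) h8
    have hs : s ∈ P := by
      rw [hP, mem_powersetCard]
      exact h6 s (by simp)
    have ht : t ∈ P := by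
      rw [hP, mem_powersetCard]
      exact h6 t (by simp)
    have h10 : S.filter (fun p => ({p.1, p.2} : Finset (Finset V)) = {s, t}) =
        {(s, t), (t, s)} := by
      ext ⟨a, b⟩
      rw [mem_filter, hS, mem_filter, mem_product, mem_insert, mem_singleton]
      simp only [Prod.mk.injEq]
      constructor
      · rintro ⟨⟨⟨h11, h12⟩, h13⟩, h14⟩
        have h15 : a ∈ ({s, t} : Finset (Finset V)) := by
          rw [← h14]
          simp
        have h16 : b ∈ ({s, t} : Finset (Finset V)) := by
          rw [← h14]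
          simp
        have h17 : a ≠ b := by
          rintro rfl
          exact hne a h11 h13
        rw [mem_insert, mem_singleton] at h15 h16
        rcases h15 with rfl | rfl <;> rcases h16 with rfl | rfl
        · exact (h17 rfl).elim
        · exact Or.inl ⟨rfl, rfl⟩
        · exact Or.inr ⟨rfl, rfl⟩
        · exact (h17 rfl).elim
      · rintro (⟨rfl, rfl⟩ | ⟨rfl, rfl⟩)
        · exact ⟨⟨⟨hs, ht⟩, h9⟩, rfl⟩
        · exact ⟨⟨⟨ht, hs⟩, h9.symm⟩, pair_comm _ _⟩
    have h11 : ((s, t) : Finset V × Finset V) ≠ (t, s) := by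
      intro h
      exact h8 (Prod.mk.inj h).1
    rw [h10, sum_pair h11, prod_pair h8]
    ring
  rw [h1, h2, h3]
  ring

/-- the second order identity on a part with trivial polynomial -/
theorem MP_second {W : Finset V → ℤ} {U : Finset V} (h : MP W U = 1) :
    ∑ s ∈ U.powersetCard 2, W s ^ 2 =
      ∑ y ∈ U, (∑ s ∈ (U.powersetCard 2).filter (fun s => y ∈ s), W s) ^ 2 := by
  have h1 := MP_coeff_two W U
  have h2 := MP_coeff_one W U
  rw [h, coeff_one, if_neg (by norm_num)] at h1 h2
  rw [← h2] at h1
  linarith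

theorem MP_first {W : Finset V → ℤ} {U : Finset V} (h : MP W U = 1) :
    ∑ s ∈ U.powersetCard 2, W s = 0 := by
  rw [← MP_coeff_one, h, coeff_one, if_neg (by norm_num)]

end Pool.Gauss
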