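import Pool.Agent.Work.MP_065141_co.Loc

/-!
# Local language for connected Gaussian posets with any number of maximal elements

The definitions (`Pr`, `Ch`, `Pr2`, `Ch2`, `sz`, `HT`) are those of `Loc.lean`.
-/

set_option autoImplicit false
set_option linter.unusedSectionVars false
open scoped Classical
open Finset

namespace Pool.Gauss

variable {α : Type} [Fintype α] [PartialOrder α]

/-- the standing assumptions: nonempty, connected, Gaussian -/
structure CtxK (α : Type) [Fintype α] [PartialOrder α] : Prop where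
  gauss : ∃ h : Fin (Fintype.card α) → ℕ, IsGaussianWith α h
  conn : Conn α
  ne : Nonempty α

variable (α) in
/-- number of maximal elements -/
noncomputable def kap : ℕ := (lev α 0).card

lemma kap_eq : kap α = sz α 0 := rfl

lemma Ctx.toK (C : Ctx α) : CtxK α := ⟨C.gauss, C.conn, C.nonempty⟩

lemma CtxK.toCtx (C : CtxK α) (h : kap α = 1) : Ctx α := ⟨C.gauss, C.conn, h⟩

lemma mem_lev_iff {x : α} {i : ℕ} : x ∈ lev α i ↔ corank x = i := mem_lev

namespace CtxK

variable (C : CtxK α)
include C

lemma grd : Grad α := by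
  obtain ⟨h, hG⟩ := C.gauss
  exact grad hG

lemma cork {x y : α} (h : x ⋖ y) : corank x = corank y + 1 := C.grd x y h

lemma exists_lev {i : ℕ} (hi : i < HT α) : ∃ x : α, corank x = i := by
  haveI := C.ne
  obtain ⟨x, _, hx⟩ := Finset.exists_mem_eq_sup (univ : Finset α) univ_nonempty corank
  unfold HT at hi
  rcases Nat.lt_or_ge i (corank x) with h | h
  · obtain ⟨y, _, hy⟩ := exists_gt_corank h
    exact ⟨y, hy⟩
  · exact ⟨x, by omega⟩

lemma HT_pos : 0 < HT α := by
  unfold HT
  omega

lemma sz_pos {i : ℕ} (hi : i < HT α) : 0 < sz α i := by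
  obtain ⟨x, hx⟩ := C.exists_lev hi
  exact card_pos.2 ⟨x, mem_lev.2 hx⟩

lemma kap_pos : 0 < kap α := C.sz_pos C.HT_pos

lemma covBy_of_lt {x y : α} (h : x < y) (h1 : corank x = corank y + 1) : x ⋖ y := by
  refine ⟨h, fun z h2 h3 => ?_⟩
  have := corank_lt h2
  have := corank_lt h3
  omega

lemma up_eq {x : α} {i : ℕ} (h : corank x = i + 1) : up i x = Pr x := by
  ext y
  rw [mem_up, mem_Pr]
  constructor
  · rintro ⟨h1, h2⟩
    exact C.covBy_of_lt h2 (by omega)
  · intro h1
    have := C.cork h1
    exact ⟨by omega, h1.lt⟩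

lemma dn_eq {z : α} {i : ℕ} (h : corank z + 1 = i) : dn i z = Ch z := by
  ext y
  rw [mem_dn, mem_Ch]
  constructor
  · rintro ⟨h1, h2⟩
    exact C.covBy_of_lt h2 (by omega)
  · intro h1
    have := C.cork h1
    exact ⟨by omega, h1.lt⟩

lemma pr_le (x : α) : (Pr x).card ≤ 2 := by
  obtain ⟨h, hG⟩ := C.gauss
  exact (covers_le_two hG C.conn x).2

lemma ch_le (x : α) : (Ch x).card ≤ 2 := by
  obtain ⟨h, hG⟩ := C.gauss
  exact (covers_le_two hG C.conn x).1

lemma pr_pos {x : α} (h : 0 < corank x) : 0 < (Pr x).card := by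
  obtain ⟨y, hy, _⟩ := exists_gt_corank h
  obtain ⟨z, hz, _⟩ := exists_covBy_of_lt hy
  exact card_pos.2 ⟨z, mem_Pr.2 hz⟩

lemma ch_pos {x : α} (h : corank x + 1 < HT α) : 0 < (Ch x).card := by
  obtain ⟨hh, hG⟩ := C.gauss
  obtain ⟨w, hw⟩ := C.exists_lev h
  have h1 := (degrees hG C.conn (i := corank x + 1) (w := w) (mem_lev.2 hw)).1 x (mem_lev'.2 rfl)
  rw [C.dn_eq rfl] at h1
  omega

lemma pr_cases {x : α} (h : 0 < corank x) : (Pr x).card = 1 ∨ (Pr x).card = 2 := by
  have := C.pr_le x
  have := C.pr_pos h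
  omega

lemma ch_cases {x : α} (h : corank x + 1 < HT α) : (Ch x).card = 1 ∨ (Ch x).card = 2 := by
  have := C.ch_le x
  have := C.ch_pos h
  omega

lemma pr_zero {x : α} (h : corank x = 0) : Pr x = ∅ := by
  rw [eq_empty_iff_forall_notMem]
  intro y hy
  have := C.cork (mem_Pr.1 hy)
  omega

lemma ch_last {x : α} (h : corank x + 1 = HT α) : Ch x = ∅ := by
  rw [eq_empty_iff_forall_notMem]
  intro y hy
  have h1 := C.cork (mem_Ch.1 hy)
  have h2 := corank_lt_HT y
  omega

lemma pr_sub {x : α} {i : ℕ} (h : corank x = i + 1) : Pr x ⊆ lev α i := by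
  intro y hy
  rw [mem_Pr] at hy
  have := C.cork hy
  rw [mem_lev]
  omega

lemma ch_sub {z : α} {i : ℕ} (h : corank z + 1 = i) : Ch z ⊆ lev α i := by
  intro y hy
  rw [mem_Ch] at hy
  have := C.cork hy
  rw [mem_lev]
  omega

lemma corank_of_mem_Pr {x y : α} (h : y ∈ Pr x) : corank x = corank y + 1 := C.cork (mem_Pr.1 h)

lemma corank_of_mem_Ch {x y : α} (h : y ∈ Ch x) : corank y = corank x + 1 := C.cork (mem_Ch.1 h)

/-- number of elements of level `i + 1` with two upper covers -/
lemma dbl_pr {i : ℕ} (hi : i < HT α) :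
    ((lev α (i + 1)).filter fun x => (Pr x).card = 2).card + kap α = sz α i := by
  obtain ⟨h, hG⟩ := C.gauss
  obtain ⟨w, hw⟩ := C.exists_lev hi
  have h1 := (branching hG C.conn (mem_lev.2 hw)).2
  unfold sz kap
  rw [← h1]
  congr 2
  apply filter_congr
  intro x hx
  rw [C.up_eq (mem_lev.1 hx)]

/-- number of elements of level `i` with two lower covers -/
lemma dbl_ch {i : ℕ} (hi : i + 1 < HT α) :
    ((lev α i).filter fun x => (Ch x).card = 2).card + kap α = sz α (i + 1) := by
  obtain ⟨h, hG⟩ := C.gauss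
  obtain ⟨w, hw⟩ := C.exists_lev hi
  have h1 := (branching hG C.conn (mem_lev.2 hw)).1
  unfold sz kap
  rw [← h1]
  congr 2
  ext x
  rw [mem_filter, mem_filter, mem_lev, mem_lev']
  constructor
  · rintro ⟨h2, h3⟩
    refine ⟨by omega, ?_⟩
    rw [C.dn_eq (by omega)]
    exact h3
  · rintro ⟨h2, h3⟩
    rw [C.dn_eq (by omega)] at h3
    exact ⟨by omega, h3⟩

/-- every level has at least `kap` elements -/
lemma kap_le {i : ℕ} (hi : i < HT α) : kap α ≤ sz α i := by
  have := C.dbl_pr hi
  omega

lemma sum_split_pr (i : ℕ) : ((lev α (i + 1)).filter fun x => (Pr x).card = 1).card +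
      ((lev α (i + 1)).filter fun x => (Pr x).card = 2).card = sz α (i + 1) := by
  unfold sz
  rw [← card_union_of_disjoint]
  · congr 1
    ext x
    rw [mem_union, mem_filter, mem_filter]
    constructor
    · rintro (h | h)
      · exact h.1
      · exact h.1
    · intro h
      rw [mem_lev] at h
      rcases C.pr_cases (x := x) (by omega) with h3 | h3
      · exact Or.inl ⟨mem_lev.2 h, h3⟩
      · exact Or.inr ⟨mem_lev.2 h, h3⟩
  · rw [Finset.disjoint_left]
    intro x h3 h4
    rw [mem_filter] at h3 h4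
    omega

lemma sum_split_ch {i : ℕ} (hi : i + 1 < HT α) :
    ((lev α i).filter fun x => (Ch x).card = 1).card +
      ((lev α i).filter fun x => (Ch x).card = 2).card = sz α i := by
  unfold sz
  rw [← card_union_of_disjoint]
  · congr 1
    ext x
    rw [mem_union, mem_filter, mem_filter]
    constructor
    · rintro (h | h)
      · exact h.1
      · exact h.1
    · intro h
      rw [mem_lev] at h
      rcases C.ch_cases (x := x) (by omega) with h3 | h3
      · exact Or.inl ⟨mem_lev.2 h, h3⟩
      · exact Or.inr ⟨mem_lev.2 h, h3⟩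
  · rw [Finset.disjoint_left]
    intro x h3 h4
    rw [mem_filter] at h3 h4
    omega

/-- number of elements of level `i + 1` with one upper cover -/
lemma sgl_pr {i : ℕ} (hi : i < HT α) :
    ((lev α (i + 1)).filter fun x => (Pr x).card = 1).card + sz α i = sz α (i + 1) + kap α := by
  have h1 := C.dbl_pr hi
  have h2 := C.sum_split_pr i
  omega

/-- number of elements of level `i` with one lower cover -/
lemma sgl_ch {i : ℕ} (hi : i + 1 < HT α) :
    ((lev α i).filter fun x => (Ch x).card = 1).card + sz α (i + 1) = sz α i + kap α := by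
  have h1 := C.dbl_ch hi
  have h2 := C.sum_split_ch hi
  omega

/-- consecutive levels: sizes grow by at most `kap` in both directions -/
lemma sz_succ_le {i : ℕ} (hi : i + 1 < HT α) : sz α (i + 1) ≤ sz α i + kap α := by
  have := C.sgl_ch hi
  omega

lemma sz_le_succ {i : ℕ} (hi : i + 1 < HT α) : sz α i ≤ sz α (i + 1) + kap α := by
  have := C.sgl_pr (i := i) (by omega)
  omega

/-- there is a maximal element above every element -/
lemma exists_top (x : α) : ∃ y : α, x ≤ y ∧ corank y = 0 := by
  induction hn : corank x using Nat.strong_induction_on generalizing x with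
  | _ n ih =>
    rcases Nat.eq_zero_or_pos (corank x) with h | h
    · exact ⟨x, le_refl x, h⟩
    · obtain ⟨z, hz⟩ := card_pos.1 (C.pr_pos h)
      have h1 := C.corank_of_mem_Pr hz
      obtain ⟨y, h2, h3⟩ := ih (corank z) (by omega) z rfl
      exact ⟨y, (mem_Pr.1 hz).le.trans h2, h3⟩

end CtxK

end Pool.Gauss
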