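import Pool.Agent.Work.MP_065141_co.RelE
import Pool.Agent.Work.MP_065141_co.K.LocK

/-!
# The relations E1, E2 in the local language, any number of maximal elements

The definitions (`PEv`, `QEv`, `EEv`, `FFv`, `mC`, `mD`, `aD`, `bC`, `Perf`, `Defect`) are those
of `RelE.lean`.
-/

set_option autoImplicit false
set_option linter.unusedSectionVars false
open scoped Classical
open Finset

namespace Pool.Gauss

variable {α : Type} [Fintype α] [PartialOrder α]

namespace CtxK

variable (C : CtxK α)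
include C

lemma lt_iff_ch {z y : α} (h : corank y = corank z + 1) : y < z ↔ y ∈ Ch z := by
  rw [mem_Ch]
  exact ⟨fun h1 => C.covBy_of_lt h1 h, fun h1 => h1.lt⟩

lemma lt_iff_pr {x y : α} (h : corank x = corank y + 1) : x < y ↔ y ∈ Pr x := by
  rw [mem_Pr]
  exact ⟨fun h1 => C.covBy_of_lt h1 h, fun h1 => h1.lt⟩

lemma qq_eq (j : ℕ) : qq α j = ((QEv α (j + 1)).card : ℤ) := by
  unfold qq
  have h1 : ∀ z ∈ lev' α j, (∑ y ∈ lev α j,
      (if y < z ∧ (dn j z).card = 1 ∧ (dn (j + 1) y).card = 2 then (1 : ℤ) else 0)) =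
      if (Ch z).card = 1 ∧ (Ch2 z).card = 2 then 1 else 0 := by
    intro z hz
    rw [mem_lev'] at hz
    rw [Finset.sum_congr rfl (g := fun y => if y ∈ Ch z ∧ ((Ch z).card = 1 ∧ (Ch y).card = 2)
      then (1 : ℤ) else 0)]
    · by_cases h2 : (Ch z).card = 1
      · obtain ⟨y0, h3⟩ := card_eq_one.1 h2
        have h4 : y0 ∈ lev α j := by
          have h5 : y0 ∈ Ch z := by rw [h3]; simp
          rw [mem_Ch] at h5
          have := C.cork h5
          rw [mem_lev]
          omega
        refine sum_single_aux _ h4 (fun y h => ?_) ?_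
        · have := h.1
          rw [h3, mem_singleton] at this
          exact this
        · rw [Ch2_of_single h3, h3]
          simp
      · rw [if_neg (fun h => h2 h.1)]
        apply Finset.sum_eq_zero
        intro y _
        rw [if_neg (fun h => h2 h.2.1)]
    · intro y hy
      rw [mem_lev] at hy
      simp only [C.lt_iff_ch (z := z) (y := y) (by omega), C.dn_eq (z := z) hz,
        C.dn_eq (z := y) (i := j + 1) (by omega)]
  rw [Finset.sum_congr rfl h1, Finset.sum_boole]
  congr 2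
  ext v
  rw [mem_filter, mem_QEv, mem_lev']
  constructor
  · rintro ⟨h2, h3⟩
    exact ⟨by omega, h3⟩
  · rintro ⟨h2, h3⟩
    exact ⟨by omega, h3⟩

lemma pp_eq (j : ℕ) : pp α j = ((PEv α j).card : ℤ) := by
  unfold pp
  have h1 : ∀ z ∈ lev α (j + 2), (∑ y ∈ lev α (j + 1),
      (if z < y ∧ (up (j + 1) z).card = 1 ∧ (up j y).card = 2 then (1 : ℤ) else 0)) =
      if (Pr z).card = 1 ∧ (Pr2 z).card = 2 then 1 else 0 := by
    intro z hz
    rw [mem_lev] at hz
    rw [Finset.sum_congr rfl (g := fun y => if y ∈ Pr z ∧ ((Pr z).card = 1 ∧ (Pr y).card = 2)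
      then (1 : ℤ) else 0)]
    · by_cases h2 : (Pr z).card = 1
      · obtain ⟨y0, h3⟩ := card_eq_one.1 h2
        have h4 : y0 ∈ lev α (j + 1) := by
          have h5 : y0 ∈ Pr z := by rw [h3]; simp
          rw [mem_Pr] at h5
          have := C.cork h5
          rw [mem_lev]
          omega
        refine sum_single_aux _ h4 (fun y h => ?_) ?_
        · have := h.1
          rw [h3, mem_singleton] at this
          exact this
        · rw [Pr2_of_single h3, h3]
          simp
      · rw [if_neg (fun h => h2 h.1)]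
        apply Finset.sum_eq_zero
        intro y _
        rw [if_neg (fun h => h2 h.2.1)]
    · intro y hy
      rw [mem_lev] at hy
      simp only [C.lt_iff_pr (x := z) (y := y) (by omega), C.up_eq (x := z) (i := j + 1) hz,
        C.up_eq (x := y) (i := j) hy]
  rw [Finset.sum_congr rfl h1, Finset.sum_boole]
  congr 2

lemma ee_eq (j : ℕ) : ee α j = ((EEv α j).card : ℤ) := by
  unfold ee
  have h1 : ∀ z ∈ lev α (j + 1), (∑ y ∈ lev α j,
      (if z < y ∧ (up j z).card = 1 ∧ (dn (j + 1) y).card = 1 then (1 : ℤ) else 0)) =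
      if (Pr z).card = 1 ∧ ∀ y ∈ Pr z, (Ch y).card = 1 then 1 else 0 := by
    intro z hz
    rw [mem_lev] at hz
    rw [Finset.sum_congr rfl (g := fun y => if y ∈ Pr z ∧ ((Pr z).card = 1 ∧ (Ch y).card = 1)
      then (1 : ℤ) else 0)]
    · by_cases h2 : (Pr z).card = 1
      · obtain ⟨y0, h3⟩ := card_eq_one.1 h2
        have h4 : y0 ∈ lev α j := by
          have h5 : y0 ∈ Pr z := by rw [h3]; simp
          rw [mem_Pr] at h5
          have := C.cork h5
          rw [mem_lev]
          omega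
        refine sum_single_aux _ h4 (fun y h => ?_) ?_
        · have := h.1
          rw [h3, mem_singleton] at this
          exact this
        · rw [h3]
          simp
      · rw [if_neg (fun h => h2 h.1)]
        apply Finset.sum_eq_zero
        intro y _
        rw [if_neg (fun h => h2 h.2.1)]
    · intro y hy
      rw [mem_lev] at hy
      simp only [C.lt_iff_pr (x := z) (y := y) (by omega), C.up_eq (x := z) (i := j) hz,
        C.dn_eq (z := y) (i := j + 1) (by omega)]
  rw [Finset.sum_congr rfl h1, Finset.sum_boole]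
  congr 2

lemma ff_eq (j : ℕ) : ff α j = ((FFv α j).card : ℤ) := by
  unfold ff FFv
  rw [← Finset.sum_product', Finset.sum_boole]
  congr 2
  apply filter_congr
  rintro ⟨a, b⟩ hp
  rw [mem_product, mem_lev, mem_lev] at hp
  simp only at hp ⊢
  rw [C.up_eq hp.1, C.up_eq hp.2, two_eq' (C.pr_le a) (C.pr_le b)]

/-- **E1** -/
theorem E1 {j : ℕ} (hj : j + 1 < HT α) :
    2 * ((QEv α (j + 1)).card + (PEv α j).card + (EEv α j).card) + 2 * sz α 1 =
      4 * kap α + (FFv α j).card := by
  obtain ⟨h, hG⟩ := C.gauss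
  obtain ⟨w, hw⟩ := C.exists_lev hj
  have h1 := rel_E1 hG C.conn j (w := w) (mem_lev.2 hw)
  rw [C.qq_eq, C.pp_eq, C.ee_eq, C.ff_eq] at h1
  unfold sz kap
  push_cast at h1
  omega

lemma aZ_eq {i : ℕ} {y : α} (hy : corank y = i) : aZ i y = aD y := by
  unfold aZ aD dz
  rw [Finset.sum_congr rfl (g := fun z => if y < z ∧ (Ch z).card = 2 then (1 : ℤ) else 0)]
  · rw [Finset.sum_boole]
    congr 2
    ext z
    rw [mem_filter, mem_filter, mem_lev', mem_Pr]
    constructor
    · rintro ⟨h1, h2, h3⟩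
      exact ⟨C.covBy_of_lt h2 (by omega), h3⟩
    · rintro ⟨h1, h2⟩
      have := C.cork h1
      exact ⟨by omega, h1.lt, h2⟩
  · intro z hz
    rw [mem_lev'] at hz
    rw [C.dn_eq hz]
    by_cases h1 : y < z
    · by_cases h2 : (Ch z).card = 2
      · simp [h1, h2]
      · simp [h2]
    · simp [h1]

lemma bX_eq {i : ℕ} {y : α} (hy : corank y = i) : bX i y = bC y := by
  unfold bX bC dx
  rw [Finset.sum_congr rfl (g := fun z => if z < y ∧ (Pr z).card = 2 then (1 : ℤ) else 0)]
  · rw [Finset.sum_boole]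
    congr 2
    ext z
    rw [mem_filter, mem_filter, mem_lev, mem_Ch]
    constructor
    · rintro ⟨h1, h2, h3⟩
      exact ⟨C.covBy_of_lt h2 (by omega), h3⟩
    · rintro ⟨h1, h2⟩
      have := C.cork h1
      exact ⟨by omega, h1.lt, h2⟩
  · intro z hz
    rw [mem_lev] at hz
    rw [C.up_eq hz]
    by_cases h1 : z < y
    · by_cases h2 : (Pr z).card = 2
      · simp [h1, h2]
      · simp [h2]
    · simp [h1]

/-- **E2** -/
theorem E2 {i : ℕ} (_hi0 : 0 < i) (hi : i < HT α) :
    ∑ s ∈ (lev α i).powersetCard 2, ((mC i s : ℤ) - mD i s) ^ 2 =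
      ∑ y ∈ lev α i, ((bC y : ℤ) - aD y) ^ 2 := by
  obtain ⟨h, hG⟩ := C.gauss
  obtain ⟨w, hw⟩ := C.exists_lev hi
  have h1 := rel_E2 hG C.conn (i := i) (w := w) (mem_lev.2 hw)
  have h2 : ∑ y ∈ lev α i, (aZ i y - bX i y) ^ 2 = ∑ y ∈ lev α i, ((bC y : ℤ) - aD y) ^ 2 := by
    apply Finset.sum_congr rfl
    intro y hy
    rw [mem_lev] at hy
    rw [C.aZ_eq hy, C.bX_eq hy]
    ring
  rw [← h2, h1]
  have hzz : eZZ α i = ∑ s ∈ (lev α i).powersetCard 2, (mD i s : ℤ) * mD i s := by
    unfold eZZ mD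
    rw [← pairs_sum (F := Ch) (G := Ch)]
    · apply Finset.sum_congr rfl
      intro a ha
      apply Finset.sum_congr rfl
      intro b hb
      rw [mem_lev'] at ha hb
      rw [C.dn_eq ha, C.dn_eq hb]
    · intro a ha
      rw [mem_lev'] at ha
      exact ⟨C.ch_sub ha, C.ch_le a⟩
    · intro a ha
      rw [mem_lev'] at ha
      exact ⟨C.ch_sub ha, C.ch_le a⟩
  have hxx : eXX α i = ∑ s ∈ (lev α i).powersetCard 2, (mC i s : ℤ) * mC i s := by
    unfold eXX mC
    rw [← pairs_sum (F := Pr) (G := Pr)]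
    · apply Finset.sum_congr rfl
      intro a ha
      apply Finset.sum_congr rfl
      intro b hb
      rw [mem_lev] at ha hb
      rw [C.up_eq ha, C.up_eq hb]
    · intro a ha
      rw [mem_lev] at ha
      exact ⟨C.pr_sub ha, C.pr_le a⟩
    · intro a ha
      rw [mem_lev] at ha
      exact ⟨C.pr_sub ha, C.pr_le a⟩
  have hzx : eZX α i = ∑ s ∈ (lev α i).powersetCard 2, (mD i s : ℤ) * mC i s := by
    unfold eZX mD mC
    rw [← pairs_sum (F := Ch) (G := Pr)]
    · apply Finset.sum_congr rfl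
      intro a ha
      apply Finset.sum_congr rfl
      intro b hb
      rw [mem_lev'] at ha
      rw [mem_lev] at hb
      rw [C.dn_eq ha, C.up_eq hb]
    · intro a ha
      rw [mem_lev'] at ha
      exact ⟨C.ch_sub ha, C.ch_le a⟩
    · intro a ha
      rw [mem_lev] at ha
      exact ⟨C.pr_sub ha, C.pr_le a⟩
  rw [hzz, hxx, hzx, Finset.mul_sum, ← Finset.sum_add_distrib, ← Finset.sum_sub_distrib]
  apply Finset.sum_congr rfl
  intro s _
  ring

lemma mC_zero {i : ℕ} {g : Finset α} (hg : ¬ g ⊆ lev α i) : mC i g = 0 := by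
  unfold mC
  rw [card_eq_zero, filter_eq_empty_iff]
  intro x hx h1
  rw [mem_lev] at hx
  exact hg (h1 ▸ C.pr_sub hx)

lemma mD_zero {i : ℕ} {g : Finset α} (hg : ¬ g ⊆ lev α i) : mD i g = 0 := by
  unfold mD
  rw [card_eq_zero, filter_eq_empty_iff]
  intro x hx h1
  rw [mem_lev'] at hx
  exact hg (h1 ▸ C.ch_sub hx)

theorem perf_of_deg {i : ℕ} (hi0 : 0 < i) (hi : i < HT α)
    (h : ∀ y : α, corank y = i → bC y = aD y) : Perf α i := by
  have h1 := C.E2 hi0 hi
  have h2 : ∑ y ∈ lev α i, ((bC y : ℤ) - aD y) ^ 2 = 0 := by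
    apply Finset.sum_eq_zero
    intro y hy
    rw [mem_lev] at hy
    rw [h y hy]
    ring
  rw [h2, Finset.sum_eq_zero_iff_of_nonneg (fun s _ => sq_nonneg _)] at h1
  intro s hs
  by_cases hsl : s ⊆ lev α i
  · have h3 := h1 s (mem_powersetCard.2 ⟨hsl, hs⟩)
    have h4 : (mC i s : ℤ) - mD i s = 0 := by
      exact pow_eq_zero_iff (two_ne_zero) |>.1 h3
    omega
  · rw [C.mC_zero hsl, C.mD_zero hsl]

lemma bC_sum {i : ℕ} {y : α} (hy : corank y = i) :
    bC y = ∑ g ∈ ((lev α i).powersetCard 2).filter (fun g => y ∈ g), mC i g := by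
  have h1 : bC y = ((lev α (i + 1)).filter fun x => (Pr x).card = 2 ∧ y ∈ Pr x).card := by
    unfold bC
    congr 1
    ext x
    rw [mem_filter, mem_filter, mem_Ch, mem_lev, mem_Pr]
    constructor
    · rintro ⟨h2, h3⟩
      have := C.cork h2
      exact ⟨by omega, h3, h2⟩
    · rintro ⟨h2, h3, h4⟩
      exact ⟨h4, h3⟩
  rw [h1, Finset.card_eq_sum_card_fiberwise (f := Pr)
    (t := ((lev α i).powersetCard 2).filter (fun g => y ∈ g))]
  · apply Finset.sum_congr rfl
    intro g hg
    rw [mem_filter, mem_powersetCard] at hg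
    unfold mC
    congr 1
    ext x
    rw [mem_filter, mem_filter, mem_filter]
    constructor
    · rintro ⟨⟨h2, _⟩, h3⟩
      exact ⟨h2, h3⟩
    · rintro ⟨h2, h3⟩
      refine ⟨⟨h2, ?_, ?_⟩, h3⟩
      · rw [h3]
        exact hg.1.2
      · rw [h3]
        exact hg.2
  · intro x hx
    rw [mem_coe, mem_filter, mem_lev] at hx
    rw [mem_coe, mem_filter, mem_powersetCard]
    exact ⟨⟨C.pr_sub hx.1, hx.2.1⟩, hx.2.2⟩

lemma aD_sum {i : ℕ} {y : α} (hy : corank y = i) :
    aD y = ∑ g ∈ ((lev α i).powersetCard 2).filter (fun g => y ∈ g), mD i g := by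
  have h1 : aD y = ((lev' α i).filter fun x => (Ch x).card = 2 ∧ y ∈ Ch x).card := by
    unfold aD
    congr 1
    ext x
    rw [mem_filter, mem_filter, mem_Pr, mem_lev', mem_Ch]
    constructor
    · rintro ⟨h2, h3⟩
      have := C.cork h2
      exact ⟨by omega, h3, h2⟩
    · rintro ⟨h2, h3, h4⟩
      exact ⟨h4, h3⟩
  rw [h1, Finset.card_eq_sum_card_fiberwise (f := Ch)
    (t := ((lev α i).powersetCard 2).filter (fun g => y ∈ g))]
  · apply Finset.sum_congr rfl
    intro g hg
    rw [mem_filter, mem_powersetCard] at hg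
    unfold mD
    congr 1
    ext x
    rw [mem_filter, mem_filter, mem_filter]
    constructor
    · rintro ⟨⟨h2, _⟩, h3⟩
      exact ⟨h2, h3⟩
    · rintro ⟨h2, h3⟩
      refine ⟨⟨h2, ?_, ?_⟩, h3⟩
      · rw [h3]
        exact hg.1.2
      · rw [h3]
        exact hg.2
  · intro x hx
    rw [mem_coe, mem_filter, mem_lev'] at hx
    rw [mem_coe, mem_filter, mem_powersetCard]
    exact ⟨⟨C.ch_sub hx.1, hx.2.1⟩, hx.2.2⟩

theorem defect_of_deg {i : ℕ} (hi0 : 0 < i) (hi : i < HT α) {s t : α} (hs : corank s = i)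
    (ht : corank t = i) (hst : s ≠ t) (hbs : bC s + 1 = aD s) (hbt : bC t = aD t + 1)
    (h : ∀ y : α, corank y = i → y ≠ s → y ≠ t → bC y = aD y) : ∃ k, Defect i s t k := by
  set S := (lev α i).powersetCard 2 with hS
  set W : Finset α → ℤ := fun g => (mC i g : ℤ) - mD i g with hW
  have hsum : ∀ y : α, corank y = i → ∑ g ∈ S.filter (fun g => y ∈ g), W g = (bC y : ℤ) - aD y := by
    intro y hy
    rw [C.bC_sum hy, C.aD_sum hy, hW, Finset.sum_sub_distrib]
    push_cast
    rfl
  have h2 : ∑ g ∈ S, W g ^ 2 = 2 := by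
    rw [hS, hW, C.E2 hi0 hi]
    have hs' : s ∈ lev α i := mem_lev.2 hs
    have ht' : t ∈ (lev α i).erase s := mem_erase.2 ⟨hst.symm, mem_lev.2 ht⟩
    rw [← Finset.add_sum_erase _ _ hs', ← Finset.add_sum_erase _ _ ht', Finset.sum_eq_zero]
    · have h3 : (bC s : ℤ) - aD s = -1 := by omega
      have h4 : (bC t : ℤ) - aD t = 1 := by omega
      rw [h3, h4]
      norm_num
    · intro y hy
      rw [mem_erase, mem_erase, mem_lev] at hy
      rw [h y hy.2.2 hy.2.1 hy.1]
      ring
  have h3 : ∃ gp ∈ S, t ∈ gp ∧ 0 < W gp := by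
    by_contra hcon
    push Not at hcon
    have h4 : ∑ g ∈ S.filter (fun g => t ∈ g), W g ≤ 0 := by
      apply Finset.sum_nonpos
      intro g hg
      rw [mem_filter] at hg
      exact hcon g hg.1 hg.2
    rw [hsum t ht] at h4
    omega
  have h4 : ∃ gm ∈ S, s ∈ gm ∧ W gm < 0 := by
    by_contra hcon
    push Not at hcon
    have h4 : 0 ≤ ∑ g ∈ S.filter (fun g => s ∈ g), W g := by
      apply Finset.sum_nonneg
      intro g hg
      rw [mem_filter] at hg
      exact hcon g hg.1 hg.2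
    rw [hsum s hs] at h4
    omega
  obtain ⟨gp, hgp, htp, hWp⟩ := h3
  obtain ⟨gm, hgm, hsm, hWm⟩ := h4
  have hne : gm ≠ gp := by
    rintro rfl
    omega
  have hgm' : gm ∈ S.erase gp := mem_erase.2 ⟨hne, hgm⟩
  rw [← Finset.add_sum_erase _ _ hgp, ← Finset.add_sum_erase _ _ hgm'] at h2
  have h5 : 0 ≤ ∑ g ∈ (S.erase gp).erase gm, W g ^ 2 :=
    Finset.sum_nonneg (fun g _ => sq_nonneg _)
  have h6 : W gp = 1 := by nlinarith
  have h7 : W gm = -1 := by nlinarith
  have h8 : ∑ g ∈ (S.erase gp).erase gm, W g ^ 2 = 0 := by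
    rw [h6, h7] at h2
    linarith
  rw [Finset.sum_eq_zero_iff_of_nonneg (fun s _ => sq_nonneg _)] at h8
  have h9 : ∀ g ∈ S, g ≠ gp → g ≠ gm → W g = 0 := by
    intro g hg h10 h11
    exact pow_eq_zero_iff (two_ne_zero) |>.1 (h8 g (mem_erase.2 ⟨h11, mem_erase.2 ⟨h10, hg⟩⟩))
  have hval : ∀ g ∈ S, W g = (if g = gp then 1 else 0) - (if g = gm then 1 else 0) := by
    intro g hg
    by_cases h10 : g = gp
    · rw [if_pos h10, if_neg (by rw [h10]; exact fun h => hne h.symm), h10, h6]
      ring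
    · by_cases h11 : g = gm
      · rw [if_neg h10, if_pos h11, h11, h7]
        ring
      · rw [if_neg h10, if_neg h11, h9 g hg h10 h11]
        ring
  have hvs : ∀ y : α, corank y = i →
      (if y ∈ gp then (1 : ℤ) else 0) - (if y ∈ gm then 1 else 0) = (bC y : ℤ) - aD y := by
    intro y hy
    rw [← hsum y hy, Finset.sum_congr rfl (fun g hg => hval g (mem_filter.1 hg).1),
      Finset.sum_sub_distrib]
    congr 1
    · rw [Finset.sum_ite_eq']
      simp [hgp]
    · rw [Finset.sum_ite_eq']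
      simp [hgm]
  rw [mem_powersetCard] at hgp hgm
  have htm : t ∉ gm := by
    intro h10
    have := hvs t ht
    rw [if_pos htp, if_pos h10] at this
    omega
  have hsp : s ∉ gp := by
    intro h10
    have := hvs s hs
    rw [if_pos hsm, if_pos h10] at this
    omega
  obtain ⟨k, hk⟩ : ∃ k, gp = {t, k} ∧ k ≠ t := by
    obtain ⟨a, b, hab, hgp2⟩ := card_eq_two.1 hgp.2
    rw [hgp2, mem_insert, mem_singleton] at htp
    rcases htp with rfl | rfl
    · exact ⟨b, hgp2, hab.symm⟩
    · refine ⟨a, ?_, hab⟩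
      rw [hgp2, pair_comm]
  have hkp : k ∈ gp := by
    rw [hk.1]
    simp
  have hkl : corank k = i := mem_lev.1 (hgp.1 hkp)
  have hks : k ≠ s := by
    rintro rfl
    exact hsp hkp
  have hkm : k ∈ gm := by
    by_contra h10
    have h11 := hvs k hkl
    rw [if_pos hkp, if_neg h10, h k hkl hks hk.2] at h11
    omega
  have hgm2 : gm = {s, k} := by
    symm
    apply eq_of_subset_of_card_le
    · intro y hy
      rw [mem_insert, mem_singleton] at hy
      rcases hy with rfl | rfl
      · exact hsm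
      · exact hkm
    · rw [hgm.2, card_pair hks.symm]
  refine ⟨k, hs, ht, hkl, hst, hks.symm, hk.2.symm, ?_⟩
  intro g hg
  by_cases hgl : g ⊆ lev α i
  · have h10 := hval g (mem_powersetCard.2 ⟨hgl, hg⟩)
    rw [hk.1, hgm2] at h10
    simp only [hW] at h10
    split_ifs at h10 ⊢ <;> omega
  · rw [C.mC_zero hgl, C.mD_zero hgl, if_neg, if_neg]
    · intro h10
      rw [h10, ← hk.1] at hgl
      exact hgl hgp.1
    · intro h10
      rw [h10, ← hgm2] at hgl
      exact hgl hgm.1

end CtxK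

end Pool.Gauss
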