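import Pool.Agent.Work.MP_065141_co.Lead
import Pool.Agent.Work.MP_065141_co.K.RelEK
import Pool.Agent.Work.MP_065141_co.K.MatchP

/-!
# The leading relation as a matching polynomial

`Wt i s = mC i s - mD i s` is the signed multiplicity of the pair `s` of elements of row `i`.
The matching polynomial of `Wt i` on row `i`, and on every union of components of its support,
is one.
-/

set_option autoImplicit false
set_option linter.unusedSectionVars false
set_option linter.unusedVariables false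
open scoped Classical
open Finset Polynomial

namespace Pool.Gauss

variable {α : Type} [Fintype α] [PartialOrder α]

/-- signed multiplicity -/
noncomputable def Wt (i : ℕ) (s : Finset α) : ℤ := (mC i s : ℤ) - mD i s

/-- sign of an element next to level `i` -/
noncomputable def sgn0 (i : ℕ) (p : α) : ℤ := if corank p < i then -1 else 1

/-- the double elements with pair `s` -/
noncomputable def Db (i : ℕ) (s : Finset α) : Finset α :=
  univ.filter fun p => ds i p = 1 ∧ bd i p = s

lemma mem_Db {i : ℕ} {s : Finset α} {p : α} : p ∈ Db i s ↔ ds i p = 1 ∧ bd i p = s := by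
  simp [Db]

lemma prod_sgn0 (i : ℕ) (A : Finset α) :
    ∏ p ∈ A, sgn0 i p = (-1) ^ (A.filter fun p => corank p < i).card := by
  unfold sgn0
  rw [prod_ite, prod_const, prod_const_one, mul_one]

/-- the sum over the choices of elements for a matching -/
lemma sum_choice {i J : ℕ} {F : Finset (Finset α)} (hF : F ∈ mtc (lev α i)) (hJ : F.card = J) :
    ∑ A ∈ (univ : Finset (Finset α)).filter
        (fun A => (Mch i A ∧ A.card = J) ∧ A.image (bd i) = F),
      ∏ p ∈ A, sgn0 i p = ∏ s ∈ F, ∑ p ∈ Db i s, sgn0 i p := by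
  rw [mem_mtc] at hF
  have hbd : ∀ q ∈ F.pi (fun s => Db i s), ∀ x : {x // x ∈ F},
      ds i (q x.1 x.2) = 1 ∧ bd i (q x.1 x.2) = x.1 := by
    intro q hq x
    rw [mem_pi] at hq
    exact mem_Db.1 (hq x.1 x.2)
  have hinj : ∀ q ∈ F.pi (fun s => Db i s), ∀ x y : {x // x ∈ F},
      q x.1 x.2 = q y.1 y.2 → x = y := by
    intro q hq x y hxy
    apply Subtype.ext
    rw [← (hbd q hq x).2, ← (hbd q hq y).2, hxy]
  rw [prod_sum]
  symm
  refine sum_bij (fun q _ => F.attach.image fun x => q x.1 x.2) ?_ ?_ ?_ ?_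
  · intro q hq
    rw [mem_filter]
    refine ⟨mem_univ _, ⟨⟨fun p hp => ?_, fun p hp p' hp' hpp => ?_⟩, ?_⟩, ?_⟩
    · rw [mem_image] at hp
      obtain ⟨x, _, rfl⟩ := hp
      refine ⟨(hbd q hq x).1, ?_⟩
      rw [(hbd q hq x).2]
      exact (hF.1 x.1 x.2).2
    · rw [mem_image] at hp hp'
      obtain ⟨x, _, rfl⟩ := hp
      obtain ⟨y, _, rfl⟩ := hp'
      rw [(hbd q hq x).2, (hbd q hq y).2]
      apply hF.2 x.1 x.2 y.1 y.2
      intro h
      apply hpp
      have : x = y := Subtype.ext h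
      rw [this]
    · rw [card_image_of_injective _ (fun x y hxy => hinj q hq x y hxy), card_attach, hJ]
    · rw [image_image]
      ext s
      rw [mem_image]
      constructor
      · rintro ⟨x, _, rfl⟩
        rw [Function.comp_apply, (hbd q hq x).2]
        exact x.2
      · intro hs
        exact ⟨⟨s, hs⟩, mem_attach _ _, (hbd q hq ⟨s, hs⟩).2⟩
  · intro q hq q' hq' h
    funext s hs
    have h1 : q s hs ∈ F.attach.image fun x => q' x.1 x.2 := by
      rw [← h]
      exact mem_image.2 ⟨⟨s, hs⟩, mem_attach _ _, rfl⟩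
    rw [mem_image] at h1
    obtain ⟨y, _, hy⟩ := h1
    have h2 := (hbd q' hq' y).2
    rw [hy, (hbd q hq ⟨s, hs⟩).2] at h2
    simp only at h2
    subst h2
    exact hy.symm
  · intro A hA
    rw [mem_filter] at hA
    obtain ⟨_, ⟨hA1, hA2⟩, hA3⟩ := hA
    have hex : ∀ s ∈ F, ∃ p, p ∈ A ∧ bd i p = s := by
      intro s hs
      rw [← hA3, mem_image] at hs
      exact hs
    choose q hq hq' using hex
    refine ⟨q, ?_, ?_⟩
    · rw [mem_pi]
      intro s hs
      rw [mem_Db]
      exact ⟨(hA1.1 _ (hq s hs)).1, hq' s hs⟩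
    · ext p
      rw [mem_image]
      constructor
      · rintro ⟨x, _, rfl⟩
        exact hq x.1 x.2
      · intro hp
        have hs : bd i p ∈ F := by
          rw [← hA3]
          exact mem_image_of_mem _ hp
        refine ⟨⟨bd i p, hs⟩, mem_attach _ _, ?_⟩
        by_contra h1
        have h2 := hA1.2 _ (hq _ hs) _ hp h1
        rw [hq' _ hs, disjoint_self, bot_eq_empty] at h2
        have h3 := (hA1.1 p hp).2
        rw [h2] at h3
        simp at h3
  · intro q hq
    rw [prod_image (fun x _ y _ hxy => hinj q hq x y hxy)]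

/-- the leading relation for the pairs, first form -/
theorem lead_pairs {i : ℕ} {h : Fin (Fintype.card α) → ℕ} (hG : IsGaussianWith α h)
    (hl : HasLower α i) (hdeg : ∀ p : α, (bd i p).card ≤ 2) {J : ℕ} (hJ : 1 ≤ J) :
    ∑ F ∈ (mtc (lev α i)).filter (fun F => F.card = J), ∏ s ∈ F, ∑ p ∈ Db i s, sgn0 i p = 0 := by
  have hg := grad hG
  have h1 := lead hG hl hdeg hJ
  have hmap : ∀ A ∈ (univ : Finset (Finset α)).filter (fun A => Mch i A ∧ A.card = J),
      A.image (bd i) ∈ (mtc (lev α i)).filter (fun F => F.card = J) := by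
    intro A hA
    rw [mem_filter] at hA
    obtain ⟨_, hA1, hA2⟩ := hA
    rw [mem_filter, mem_mtc]
    refine ⟨⟨fun s hs => ?_, fun s hs t ht hst => ?_⟩, ?_⟩
    · rw [mem_image] at hs
      obtain ⟨p, hp, rfl⟩ := hs
      exact ⟨fun y hy => mem_lev.2 (bd_lev hg (hA1.1 p hp).1 hy), (hA1.1 p hp).2⟩
    · rw [mem_image] at hs ht
      obtain ⟨p, hp, rfl⟩ := hs
      obtain ⟨p', hp', rfl⟩ := ht
      apply hA1.2 p hp p' hp'
      rintro rfl
      exact hst rfl
    · rw [card_image_of_injOn, hA2]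
      intro p hp p' hp' hpp
      by_contra hne
      have h2 := hA1.2 p hp p' hp' hne
      rw [hpp, disjoint_self, bot_eq_empty] at h2
      have h3 := (hA1.1 p' hp').2
      rw [h2] at h3
      simp at h3
  rw [← h1, ← sum_fiberwise_of_maps_to hmap]
  apply sum_congr rfl
  intro F hF
  rw [mem_filter] at hF
  rw [← sum_choice hF.1 hF.2, filter_filter]
  apply sum_congr rfl
  intro A _
  rw [prod_sgn0]

namespace CtxK

variable (C : CtxK α)
include C

lemma bd_below {i : ℕ} {p : α} (hp : corank p = i + 1) : bd i p = Pr p := by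
  ext y
  rw [mem_bd, mem_Pr, fr]
  constructor
  · rintro (⟨h1, h2⟩ | ⟨h1, h2⟩)
    · exact h2
    · have := C.cork h2
      omega
  · intro h1
    have := C.cork h1
    left
    exact ⟨by omega, h1⟩

lemma bd_above {i : ℕ} {p : α} (hp : corank p + 1 = i) : bd i p = Ch p := by
  ext y
  rw [mem_bd, mem_Ch, fr]
  constructor
  · rintro (⟨h1, h2⟩ | ⟨h1, h2⟩)
    · have := C.cork h2
      omega
    · exact h2
  · intro h1
    have := C.cork h1
    right
    exact ⟨by omega, h1⟩

lemma bd_lev_self {i : ℕ} {p : α} (hp : corank p = i) : bd i p = ∅ := by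
  rw [eq_empty_iff_forall_notMem]
  intro y hy
  rw [mem_bd, fr] at hy
  rcases hy with ⟨h1, h2⟩ | ⟨h1, h2⟩ <;> have := C.cork h2 <;> omega

lemma bd_sub_Pr {i : ℕ} {p : α} (hp : i < corank p) : bd i p ⊆ Pr p := by
  intro y hy
  rw [mem_bd, fr] at hy
  rw [mem_Pr]
  rcases hy with ⟨h1, h2⟩ | ⟨h1, h2⟩
  · exact h2
  · have := C.cork h2
    omega

lemma bd_sub_Ch {i : ℕ} {p : α} (hp : corank p < i) : bd i p ⊆ Ch p := by
  intro y hy
  rw [mem_bd, fr] at hy
  rw [mem_Ch]
  rcases hy with ⟨h1, h2⟩ | ⟨h1, h2⟩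
  · have := C.cork h2
    omega
  · exact h2

lemma bd_le (i : ℕ) (p : α) : (bd i p).card ≤ 2 := by
  rcases lt_trichotomy (corank p) i with h | h | h
  · exact (card_le_card (C.bd_sub_Ch h)).trans (C.ch_le p)
  · rw [C.bd_lev_self h]
    simp
  · exact (card_le_card (C.bd_sub_Pr h)).trans (C.pr_le p)

lemma hasLower {i : ℕ} (hi : i < HT α) : HasLower α i := by
  intro p hp
  obtain ⟨t, ht⟩ := card_pos.1 (C.ch_pos (x := p) (by omega))
  exact ⟨t, mem_Ch.1 ht⟩

lemma Wt_eq {i : ℕ} (s : Finset α) : Wt i s = ∑ p ∈ Db i s, sgn0 i p := by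
  have h1 : Db i s = (lev α (i + 1)).filter (fun x => Pr x = s) ∪
      (lev' α i).filter (fun z => Ch z = s) := by
    ext p
    rw [mem_Db, mem_union, mem_filter, mem_filter, mem_lev, mem_lev', ds]
    constructor
    · rintro ⟨h1, h2⟩
      rcases lt_trichotomy (corank p) i with h | h | h
      · right
        refine ⟨by omega, ?_⟩
        rw [← C.bd_above (by omega : corank p + 1 = i), h2]
      · omega
      · left
        refine ⟨by omega, ?_⟩
        rw [← C.bd_below (by omega : corank p = i + 1), h2]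
    · rintro (⟨h1, h2⟩ | ⟨h1, h2⟩)
      · exact ⟨by omega, by rw [C.bd_below h1, h2]⟩
      · exact ⟨by omega, by rw [C.bd_above h1, h2]⟩
  have h2 : Disjoint ((lev α (i + 1)).filter (fun x => Pr x = s))
      ((lev' α i).filter (fun z => Ch z = s)) := by
    rw [Finset.disjoint_left]
    intro p hp hp'
    rw [mem_filter, mem_lev] at hp
    rw [mem_filter, mem_lev'] at hp'
    omega
  rw [h1, sum_union h2, Wt, mC, mD]
  have h3 : ∀ p ∈ (lev α (i + 1)).filter (fun x => Pr x = s), sgn0 i p = 1 := by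
    intro p hp
    rw [mem_filter, mem_lev] at hp
    unfold sgn0
    rw [if_neg (by omega)]
  have h4 : ∀ p ∈ (lev' α i).filter (fun z => Ch z = s), sgn0 i p = -1 := by
    intro p hp
    rw [mem_filter, mem_lev'] at hp
    unfold sgn0
    rw [if_pos (by omega)]
  rw [sum_congr rfl h3, sum_congr rfl h4, sum_const, sum_const]
  simp only [nsmul_eq_mul]
  ring

/-- **the matching polynomial of a row is one** -/
theorem MP_row {i : ℕ} (hi : i < HT α) : MP (Wt i) (lev α i) = 1 := by
  obtain ⟨h, hG⟩ := C.gauss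
  rw [MP_eq_one_iff]
  intro J hJ
  rw [MP_coeff, ← lead_pairs hG (C.hasLower hi) (C.bd_le i) hJ]
  apply sum_congr rfl
  intro F _
  apply prod_congr rfl
  intro s _
  exact C.Wt_eq s

/-- **the matching polynomial of a union of components is one** -/
theorem MP_sep {i : ℕ} (hi : i < HT α) {U : Finset α} (hU : U ⊆ lev α i)
    (hW : Sep (Wt i) U (lev α i \ U)) : MP (Wt i) U = 1 :=
  MP_part (C.MP_row hi) hU hW

/-- the vertex sums -/
lemma Wt_vertex {i : ℕ} {U : Finset α} (hU : U ⊆ lev α i) (hW : Sep (Wt i) U (lev α i \ U))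
    {y : α} (hy : y ∈ U) :
    ∑ s ∈ (U.powersetCard 2).filter (fun s => y ∈ s), Wt i s = (bC y : ℤ) - aD y := by
  have h1 := mem_lev.1 (hU hy)
  rw [C.bC_sum h1, C.aD_sum h1]
  push_cast
  rw [← sum_sub_distrib]
  apply sum_subset
  · intro s hs
    rw [mem_filter, mem_powersetCard] at hs ⊢
    exact ⟨⟨hs.1.1.trans hU, hs.1.2⟩, hs.2⟩
  · intro s hs hs'
    rw [mem_filter, mem_powersetCard] at hs
    rw [mem_filter, mem_powersetCard] at hs'
    have h2 : ¬ s ⊆ U := fun h => hs' ⟨⟨h, hs.1.2⟩, hs.2⟩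
    obtain ⟨x, hx, hx'⟩ := Finset.not_subset.1 h2
    have hyx : y ≠ x := by
      rintro rfl
      exact hx' hy
    have h3 : {y, x} = s := by
      apply eq_of_subset_of_card_le
      · intro z hz
        rw [mem_insert, mem_singleton] at hz
        rcases hz with rfl | rfl
        · exact hs.2
        · exact hx
      · rw [hs.1.2, card_pair hyx]
    have h4 := hW y hy x (mem_sdiff.2 ⟨hs.1.1 hx, hx'⟩)
    rw [h3] at h4
    exact h4

/-- **the first identity on a union of components** -/
theorem clu_first {i : ℕ} (hi : i < HT α) {U : Finset α} (hU : U ⊆ lev α i)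
    (hW : Sep (Wt i) U (lev α i \ U)) : ∑ s ∈ U.powersetCard 2, Wt i s = 0 :=
  MP_first (C.MP_sep hi hU hW)

/-- **the second identity on a union of components** -/
theorem clu_second {i : ℕ} (hi : i < HT α) {U : Finset α} (hU : U ⊆ lev α i)
    (hW : Sep (Wt i) U (lev α i \ U)) :
    ∑ s ∈ U.powersetCard 2, (Wt i s) ^ 2 = ∑ y ∈ U, ((bC y : ℤ) - aD y) ^ 2 := by
  rw [MP_second (C.MP_sep hi hU hW)]
  apply sum_congr rfl
  intro y hy
  rw [C.Wt_vertex hU hW hy]

/-- a matching coefficient on a union of components -/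
theorem clu_coeff {i : ℕ} (hi : i < HT α) {U : Finset α} (hU : U ⊆ lev α i)
    (hW : Sep (Wt i) U (lev α i \ U)) {J : ℕ} (hJ : 1 ≤ J) :
    ∑ F ∈ (mtc U).filter (fun F => F.card = J), ∏ s ∈ F, Wt i s = 0 := by
  rw [← MP_coeff, C.MP_sep hi hU hW, coeff_one, if_neg (by omega)]

end CtxK

end Pool.Gauss
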