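import Pool.Agent.Work.MP_065141_co.K.ClusterK
import Pool.Agent.Work.MP_065141_co.K.LeadM

/-!
# Clusters of the first defective row

`Clu.count`: the count identity for a cluster with lost pairs that join two tips (strips of width
two).  `Clu.exists_component`: every pair of weight `≠ 0` lies in a connected closed set.
`CtxK.cluster_chain`: if new pairs are simple and join two tips and no lost pair of the cluster joins
two tips, the cluster is a chain.
-/

set_option autoImplicit false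
set_option linter.unusedSectionVars false
open scoped Classical
open Finset

namespace Pool.Gauss

namespace Clu

variable {V : Type} {U T R : Finset V} {W : Finset V → ℤ}

/-- `U` is closed for the pairs of weight `≠ 0` inside `R` -/
def Closed (R : Finset V) (W : Finset V → ℤ) (U : Finset V) : Prop :=
  ∀ s ∈ R.powersetCard 2, W s ≠ 0 → ∀ v ∈ s, v ∈ U → s ⊆ U

/-- `U` is connected: it has no smaller nonempty closed subset -/
def Connd (W : Finset V → ℤ) (U : Finset V) : Prop :=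
  ∀ U' ⊆ U, U'.Nonempty → Closed U W U' → U' = U

/-- **the count identity**: new pairs are simple and join two tips -/
theorem count (hW : ∀ s ∈ U.powersetCard 2, W s = -1 ∨ W s = 0 ∨ W s = 1)
    (hnew : ∀ s ∈ U.powersetCard 2, 0 < W s → s ⊆ T)
    (j1 : ∑ s ∈ U.powersetCard 2, W s = 0)
    (j2 : ∑ s ∈ U.powersetCard 2, (W s) ^ 2 = ∑ y ∈ U, (sm U W y) ^ 2) :
    ∑ y ∈ U, (sm U W y * (sm U W y - eps T y)) +
        2 * (((U.powersetCard 2).filter fun s => W s = -1 ∧ ∀ y ∈ s, y ∉ T).card : ℤ) =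
      2 * (((U.powersetCard 2).filter fun s => W s = -1 ∧ s ⊆ T).card : ℤ) := by
  rw [star_identity T j1 j2, Finset.card_filter, Finset.card_filter]
  push_cast
  rw [Finset.mul_sum, Finset.mul_sum, ← Finset.sum_add_distrib]
  apply Finset.sum_congr rfl
  intro s hs
  have hc := (mem_powersetCard.1 hs).2
  obtain ⟨v, hv⟩ : s.Nonempty := by
    rw [← Finset.card_pos, hc]
    norm_num
  rcases hW s hs with h | h | h
  · rcases pair_eps (T := T) hc with ⟨h1, h2⟩ | ⟨⟨t, c, htc, rfl, h3, h4⟩, h2⟩ | ⟨h1, h2⟩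
    · have h5 : ¬ ∀ y ∈ s, y ∉ T := fun h6 => h6 v hv (h1 hv)
      simp [h, h1, h2, h5]
    · have h5 : ¬ ∀ y ∈ ({t, c} : Finset V), y ∉ T := fun h6 => h6 t (by simp) h3
      have h6 : ¬ ({t, c} : Finset V) ⊆ T := fun h7 => h4 (h7 (by simp))
      simp only [h, h5, h6, and_false, if_false, h2]
      norm_num
    · have h5 : ¬ s ⊆ T := fun h6 => h1 v hv (h6 hv)
      have h6 : (∀ y ∈ s, y ∉ T) := h1
      simp only [h, h5, and_false, if_false, h2, true_and, if_pos h6]
      norm_num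
  · simp [h]
  · have h1 := hnew s hs (by omega)
    have h5 : ¬ ∀ y ∈ s, y ∉ T := fun h6 => h6 v hv (h1 hv)
    rcases pair_eps (T := T) hc with ⟨_, h2⟩ | ⟨⟨t, c, htc, rfl, h3, h4⟩, h2⟩ | ⟨h6, h2⟩
    · simp only [h, h5, and_false, if_false, h2]
      norm_num
    · exact absurd (h1 (by simp)) h4
    · exact absurd h6 h5

/-- every pair of weight `≠ 0` lies in a connected closed set -/
theorem exists_component {s0 : Finset V} (hs0 : s0 ∈ R.powersetCard 2) (hW0 : W s0 ≠ 0) :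
    ∃ U ⊆ R, s0 ⊆ U ∧ Closed R W U ∧ Connd W U := by
  have hs0' := mem_powersetCard.1 hs0
  obtain ⟨v0, hv0⟩ : s0.Nonempty := by
    rw [← Finset.card_pos, hs0'.2]
    norm_num
  set F := R.powerset.filter fun U => s0 ⊆ U ∧ Closed R W U with hF
  have hne : F.Nonempty := by
    refine ⟨R, ?_⟩
    rw [hF, mem_filter, mem_powerset]
    exact ⟨subset_rfl, hs0'.1, fun s hs _ _ _ _ => (mem_powersetCard.1 hs).1⟩
  obtain ⟨U, hU, hmin⟩ := Finset.exists_min_image F Finset.card hne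
  rw [hF, mem_filter, mem_powerset] at hU
  obtain ⟨hUR, hsU, hcl⟩ := hU
  refine ⟨U, hUR, hsU, hcl, ?_⟩
  intro U' hU' hne' hcl'
  have hpr : ∀ s ∈ R.powersetCard 2, s ⊆ U → s ∈ U.powersetCard 2 := fun s hs h =>
    mem_powersetCard.2 ⟨h, (mem_powersetCard.1 hs).2⟩
  have hclR : Closed R W U' := by
    intro s hs hW v hv hvU
    exact hcl' s (hpr s hs (hcl s hs hW v hv (hU' hvU))) hW v hv hvU
  by_cases h0 : s0 ⊆ U'
  · have h1 := hmin U' (by
      rw [hF, mem_filter, mem_powerset]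
      exact ⟨hU'.trans hUR, h0, hclR⟩)
    exact Finset.eq_of_subset_of_card_le hU' h1
  · exfalso
    have h1 : ∀ v ∈ s0, v ∉ U' := fun v hv hvU => h0 (hclR s0 hs0 hW0 v hv hvU)
    have h2 := hmin (U \ U') (by
      rw [hF, mem_filter, mem_powerset]
      refine ⟨sdiff_subset.trans hUR, ?_, ?_⟩
      · intro v hv
        rw [mem_sdiff]
        exact ⟨hsU hv, h1 v hv⟩
      · intro s hs hW v hv hvU w hw
        rw [mem_sdiff] at hvU ⊢
        refine ⟨hcl s hs hW v hv hvU.1 hw, fun hwU => hvU.2 ?_⟩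
        exact hclR s hs hW w hw hwU hv)
    have h3 := Finset.card_lt_card (Finset.sdiff_ssubset hU' hne')
    omega

/-- closed sets are separated from the rest -/
lemma Closed.sep (hU : U ⊆ R) (h : Closed R W U) : Sep W U (R \ U) := by
  intro x hx y hy
  rw [mem_sdiff] at hy
  by_contra h1
  have hxy : x ≠ y := by
    rintro rfl
    exact hy.2 hx
  have h2 := h {x, y} (pair_mem (hU hx) hy.1 hxy) h1 x (by simp) hx
  exact hy.2 (h2 (by simp))

end Clu

variable {α : Type} [Fintype α] [PartialOrder α]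

lemma wcd_eq_Wt (i : ℕ) : (wcd i : Finset α → ℤ) = Wt i := rfl

namespace CtxK

variable (C : CtxK α)
include C

lemma sm_clu {i : ℕ} {U : Finset α} (hU : U ⊆ lev α i) (hW : Sep (Wt i) U (lev α i \ U))
    {y : α} (hy : y ∈ U) : Clu.sm U (Wt i) y = (bC y : ℤ) - aD y :=
  C.Wt_vertex hU hW hy

/-- the second identity of a cluster in the form of `Clu` -/
theorem clu_j2 {i : ℕ} (hi : i < HT α) {U : Finset α} (hU : U ⊆ lev α i)
    (hW : Sep (Wt i) U (lev α i \ U)) :
    ∑ s ∈ U.powersetCard 2, (Wt i s) ^ 2 = ∑ y ∈ U, (Clu.sm U (Wt i) y) ^ 2 := by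
  rw [C.clu_second hi hU hW]
  apply Finset.sum_congr rfl
  intro y hy
  rw [C.sm_clu hU hW hy]

theorem clu_hM {i : ℕ} (hi : i < HT α) {U : Finset α} (hU : U ⊆ lev α i)
    (hW : Sep (Wt i) U (lev α i \ U)) {J : ℕ} (hJ : 1 ≤ J) :
    ∑ M ∈ (U.powersetCard 2).powerset.filter
      (fun M : Finset (Finset α) => (M : Set (Finset α)).PairwiseDisjoint id ∧ M.card = J),
        ∏ s ∈ M, Wt i s = 0 := by
  rw [← C.clu_coeff hi hU hW hJ]
  apply Finset.sum_congr _ fun _ _ => rfl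
  ext M
  simp only [mem_filter, mem_mtc, mem_powerset]
  constructor
  · rintro ⟨h1, h2, h3⟩
    exact ⟨⟨fun s hs => mem_powersetCard.1 (h1 hs), fun s hs t ht hst => h2 hs ht hst⟩, h3⟩
  · rintro ⟨⟨h1, h2⟩, h3⟩
    exact ⟨fun s hs => mem_powersetCard.2 (h1 s hs), fun s hs t ht hst => h2 s hs t ht hst, h3⟩

/-- the pairs above a perfect region are simple -/
lemma mD_le_one {lo hi : α → ℕ → ℕ} {i : ℕ} {f : α → ℕ → ℕ → α} (h : Pln lo hi i f)
    {s : Finset α} (hs : s.card = 2) : mD i s ≤ 1 := by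
  rcases Nat.eq_zero_or_pos (mD i s) with h1 | h1
  · omega
  · obtain ⟨a, c, ha, h2, h3, rfl⟩ := h.mD_pos C hs h1
    rw [h.mD_one C ha h2 h3]

/-- the hypotheses of the classification for a cluster -/
theorem clu_row {lo hi : α → ℕ → ℕ} {i : ℕ} {f : α → ℕ → ℕ → α} (h : Pln lo hi i f)
    (hiH : i < HT α) {U : Finset α} (hU : U ⊆ lev α i) (hW : Sep (Wt i) U (lev α i \ U))
    (hnew : ∀ s ∈ U.powersetCard 2, mD i s < mC i s → s ⊆ Tips α i ∧ mC i s = mD i s + 1)
    (hlost : ∀ s ∈ U.powersetCard 2, mC i s < mD i s → ¬ s ⊆ Tips α i) :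
    Clu.Row U (Tips α i) (Wt i) := by
  refine ⟨?_, ?_, ?_, ?_, C.clu_first hiH hU hW, C.clu_j2 hiH hU hW⟩
  · intro s hs
    unfold Wt
    rcases Nat.lt_or_ge (mD i s) (mC i s) with h1 | h1
    · have := (hnew s hs h1).2
      omega
    · omega
  · intro s hs
    unfold Wt
    have := C.mD_le_one h (mem_powersetCard.1 hs).2
    omega
  · intro s hs h1
    unfold Wt at h1
    exact (hnew s hs (by omega)).1
  · intro s hs h1
    unfold Wt at h1
    exact hlost s hs (by omega)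

lemma clu_one {i : ℕ} {U : Finset α} (hU : U ⊆ lev α i) {y : α} (hy : y ∈ Tips α i) :
    (Clu.Ls U (Wt i) y).card ≤ 1 := by
  refine le_trans (card_le_card ?_) (C.one_tip hy)
  intro s hs
  rw [Clu.mem_Ls] at hs ⊢
  rw [mem_powersetCard] at hs ⊢
  exact ⟨⟨hs.1.1.trans hU, hs.1.2⟩, hs.2.1, hs.2.2⟩

/-- **a cluster without lost tip-tip pair is a chain** -/
theorem cluster_chain {lo hi : α → ℕ → ℕ} {i : ℕ} {f : α → ℕ → ℕ → α} (h : Pln lo hi i f)
    (hiH : i < HT α) {U : Finset α} (hU : U ⊆ lev α i) (hcl : Clu.Closed (lev α i) (Wt i) U)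
    (hcon : Clu.Connd (Wt i) U) (hne : ∃ s ∈ U.powersetCard 2, Wt i s ≠ 0)
    (hnew : ∀ s ∈ U.powersetCard 2, mD i s < mC i s → s ⊆ Tips α i ∧ mC i s = mD i s + 1)
    (hlost : ∀ s ∈ U.powersetCard 2, mC i s < mD i s → ¬ s ⊆ Tips α i) :
    ∃ L y c, Clu.IsChain U (Tips α i) (Wt i) L y c :=
  Clu.exists_chain (C.clu_row h hiH hU (hcl.sep hU) hnew hlost) (fun _ _ hT => C.clu_one hU hT)
    (fun _ hJ => C.clu_hM hiH hU (hcl.sep hU) hJ) hcon hne

/-- the count identity of a cluster: `tt` = lost pairs joining two tips (strips of width two),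
`nn` = lost pairs joining two elements which are not tips -/
theorem clu_count {lo hi : α → ℕ → ℕ} {i : ℕ} {f : α → ℕ → ℕ → α} (h : Pln lo hi i f)
    (hiH : i < HT α) {U : Finset α} (hU : U ⊆ lev α i) (hW : Sep (Wt i) U (lev α i \ U))
    (hnew : ∀ s ∈ U.powersetCard 2, mD i s < mC i s → s ⊆ Tips α i ∧ mC i s = mD i s + 1) :
    ∑ y ∈ U.filter (fun y => y ∈ Tips α i), (((bC y : ℤ) - aD y) * ((bC y : ℤ) - aD y - 1)) +
      ∑ y ∈ U.filter (fun y => y ∉ Tips α i), (((bC y : ℤ) - aD y) * ((bC y : ℤ) - aD y + 1)) +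
        2 * (((U.powersetCard 2).filter
          fun s => Wt i s = -1 ∧ ∀ y ∈ s, y ∉ Tips α i).card : ℤ) =
      2 * (((U.powersetCard 2).filter fun s => Wt i s = -1 ∧ s ⊆ Tips α i).card : ℤ) := by
  have hW1 : ∀ s ∈ U.powersetCard 2, Wt i s = -1 ∨ Wt i s = 0 ∨ Wt i s = 1 := by
    intro s hs
    unfold Wt
    have h1 := C.mD_le_one h (mem_powersetCard.1 hs).2
    rcases Nat.lt_or_ge (mD i s) (mC i s) with h2 | h2
    · have := (hnew s hs h2).2
      omega
    · omega
  have hW2 : ∀ s ∈ U.powersetCard 2, 0 < Wt i s → s ⊆ Tips α i := by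
    intro s hs h1
    unfold Wt at h1
    exact (hnew s hs (by omega)).1
  have key := Clu.count (T := Tips α i) hW1 hW2 (C.clu_first hiH hU hW) (C.clu_j2 hiH hU hW)
  rw [← Finset.sum_filter_add_sum_filter_not U (fun y => y ∈ Tips α i)
    (fun y => Clu.sm U (Wt i) y * (Clu.sm U (Wt i) y - Clu.eps (Tips α i) y))] at key
  have e1 : ∑ y ∈ U.filter (fun y => y ∈ Tips α i),
      (Clu.sm U (Wt i) y * (Clu.sm U (Wt i) y - Clu.eps (Tips α i) y)) =
      ∑ y ∈ U.filter (fun y => y ∈ Tips α i),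
        (((bC y : ℤ) - aD y) * ((bC y : ℤ) - aD y - 1)) := by
    apply Finset.sum_congr rfl
    intro y hy
    rw [mem_filter] at hy
    rw [C.sm_clu hU hW hy.1, Clu.eps, if_pos hy.2]
  have e2 : ∑ y ∈ U.filter (fun y => ¬ y ∈ Tips α i),
      (Clu.sm U (Wt i) y * (Clu.sm U (Wt i) y - Clu.eps (Tips α i) y)) =
      ∑ y ∈ U.filter (fun y => y ∉ Tips α i),
        (((bC y : ℤ) - aD y) * ((bC y : ℤ) - aD y + 1)) := by
    apply Finset.sum_congr rfl
    intro y hy
    rw [mem_filter] at hy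
    rw [C.sm_clu hU hW hy.1, Clu.eps, if_neg hy.2]
    ring
  rw [e1, e2] at key
  convert key

end CtxK

end Pool.Gauss
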