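import Pool.Agent.Work.MP_065141_co.K.ClusterM

/-!
# Clusters: the tips are the elements with a new pair

`CtxK.cluster_chain'` works for every set `T` of elements with at most one double upper cover which
contains the new pairs.  With `T = Jt` (the elements of the cluster which lie in a new pair) a
cluster is a chain as soon as no lost pair joins two elements with new pairs.  In the first defective
row such an exceptional lost pair can only be the pair of the two children of an element `z` that is
the only element of its strip in the row above (`exceptional_pair`): the strip forks exactly there.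
-/

set_option autoImplicit false
set_option linter.unusedSectionVars false
open scoped Classical
open Finset

namespace Pool.Gauss

variable {α : Type} [Fintype α] [PartialOrder α]

/-- the elements of `U` which lie in a new pair -/
noncomputable def Jt (i : ℕ) (U : Finset α) : Finset α :=
  U.filter fun y => ∃ s ∈ U.powersetCard 2, y ∈ s ∧ mD i s < mC i s

lemma mem_Jt {i : ℕ} {U : Finset α} {y : α} :
    y ∈ Jt i U ↔ y ∈ U ∧ ∃ s ∈ U.powersetCard 2, y ∈ s ∧ mD i s < mC i s := by
  rw [Jt, mem_filter]

namespace CtxK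

variable (C : CtxK α)
include C

/-- the hypotheses of the classification for a cluster and a set `T` which contains the new
pairs -/
theorem clu_row' {lo hi : α → ℕ → ℕ} {i : ℕ} {f : α → ℕ → ℕ → α} (h : Pln lo hi i f)
    (hiH : i < HT α) {U T : Finset α} (hU : U ⊆ lev α i) (hW : Sep (Wt i) U (lev α i \ U))
    (hnew : ∀ s ∈ U.powersetCard 2, mD i s < mC i s → s ⊆ T ∧ mC i s = mD i s + 1)
    (hlost : ∀ s ∈ U.powersetCard 2, mC i s < mD i s → ¬ s ⊆ T) :
    Clu.Row U T (Wt i) := by
  refine ⟨?_, ?_, ?_, ?_, C.clu_first hiH hU hW, C.clu_j2 hiH hU hW⟩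
  · intro s hs
    unfold Wt
    rcases Nat.lt_or_ge (mD i s) (mC i s) with h1 | h1
    · have := (hnew s hs h1).2
      omega
    · omega
  · intro s hs
    unfold Wt
    have := C.mD_le_one h (mem_powersetCard.1 hs).2
    omega
  · intro s hs h1
    unfold Wt at h1
    exact (hnew s hs (by omega)).1
  · intro s hs h1
    unfold Wt at h1
    exact hlost s hs (by omega)

/-- **a cluster is a chain**, for any set `T` of tips which contains the new pairs -/
theorem cluster_chain' {lo hi : α → ℕ → ℕ} {i : ℕ} {f : α → ℕ → ℕ → α} (h : Pln lo hi i f)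
    (hiH : i < HT α) {U T : Finset α} (hU : U ⊆ lev α i) (hT : T ⊆ Tips α i)
    (hcl : Clu.Closed (lev α i) (Wt i) U)
    (hcon : Clu.Connd (Wt i) U) (hne : ∃ s ∈ U.powersetCard 2, Wt i s ≠ 0)
    (hnew : ∀ s ∈ U.powersetCard 2, mD i s < mC i s → s ⊆ T ∧ mC i s = mD i s + 1)
    (hlost : ∀ s ∈ U.powersetCard 2, mC i s < mD i s → ¬ s ⊆ T) :
    ∃ L y c, Clu.IsChain U T (Wt i) L y c :=
  Clu.exists_chain (C.clu_row' h hiH hU (hcl.sep hU) hnew hlost)
    (fun _ _ hyT => C.clu_one hU (hT hyT))
    (fun _ hJ => C.clu_hM hiH hU (hcl.sep hU) hJ) hcon hne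

/-- **a cluster in which no lost pair joins two elements with new pairs is a chain** -/
theorem cluster_chain_new {lo hi : α → ℕ → ℕ} {i : ℕ} {f : α → ℕ → ℕ → α} (h : Pln lo hi i f)
    (hiH : i < HT α) {U : Finset α} (hU : U ⊆ lev α i)
    (hcl : Clu.Closed (lev α i) (Wt i) U)
    (hcon : Clu.Connd (Wt i) U) (hne : ∃ s ∈ U.powersetCard 2, Wt i s ≠ 0)
    (hnew : ∀ s ∈ U.powersetCard 2, mD i s < mC i s → s ⊆ Tips α i ∧ mC i s = mD i s + 1)
    (hlost : ∀ s ∈ U.powersetCard 2, mC i s < mD i s → ¬ s ⊆ Jt i U) :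
    ∃ L y c, Clu.IsChain U (Jt i U) (Wt i) L y c := by
  refine C.cluster_chain' h hiH hU ?_ hcl hcon hne ?_ hlost
  · intro y hy
    obtain ⟨_, s, hs, hys, hlt⟩ := mem_Jt.1 hy
    exact (hnew s hs hlt).1 hys
  · intro s hs hlt
    refine ⟨?_, (hnew s hs hlt).2⟩
    intro y hy
    exact mem_Jt.2 ⟨(mem_powersetCard.1 hs).1 hy, s, hs, hy, hlt⟩

/-- a pair above a perfect region whose two elements have one upper cover each: the strip has
exactly one element in the row above and exactly these two in its row -/
theorem exceptional_pair {lo hi : α → ℕ → ℕ} {i : ℕ} {f : α → ℕ → ℕ → α} (h : Pln lo hi (i + 1) f)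
    {s : Finset α} (hs : s.card = 2) (hD : 0 < mD (i + 1) s) (hone : ∀ y ∈ s, (Pr y).card = 1) :
    ∃ a, corank a = 0 ∧ lo a i = hi a i ∧ lo a (i + 1) = lo a i ∧ hi a (i + 1) = hi a i + 1 ∧
      s = {f a (i + 1) (lo a i), f a (i + 1) (lo a i + 1)} := by
  obtain ⟨a, c, ha, h1, h2, rfl⟩ := h.mD_pos C hs hD
  have h3 := h.loS a i ha (by omega)
  have h4 := h.hiS a i ha (by omega)
  have h5 := h.le a i ha (by omega)
  have h6 := hone (f a (i + 1) c) (by simp)
  have h7 := hone (f a (i + 1) (c + 1)) (by simp)
  rw [h.card_Pr ha (by omega) h1 (by omega)] at h6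
  rw [h.card_Pr ha (by omega) (by omega) h2] at h7
  have h8 : c = lo a i ∧ lo a i = hi a i := by
    by_cases h9 : lo a i < c
    · exfalso
      have h10 : ¬ c ≤ hi a i := by
        intro h11
        simp [h9, h11] at h6
      omega
    · by_cases h12 : c + 1 ≤ hi a i
      · exfalso
        have h13 : lo a i < c + 1 := by omega
        simp [h12, h13] at h7
      · omega
  refine ⟨a, ha, h8.2, by omega, by omega, ?_⟩
  rw [← h8.1]

end CtxK

end Pool.Gauss
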