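import Pool.Agent.Work.MP_065141_co.K.ClusterM

/-!
# The clusters of a row as a finite partition of the support

`Clu.comps R W`: the connected closed subsets of `R` that contain a pair of weight `≠ 0`.
They are pairwise disjoint and separated, cover the support, and the matching polynomial of
`R \ S` is the product of the matching polynomials of `U \ S` over the clusters `U`.
-/

set_option autoImplicit false
set_option linter.unusedSectionVars false
open scoped Classical
open Finset Polynomial

namespace Pool.Gauss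

namespace Clu

variable {V : Type} {R : Finset V} {W : Finset V → ℤ}

/-- the clusters -/
noncomputable def comps (R : Finset V) (W : Finset V → ℤ) : Finset (Finset V) :=
  R.powerset.filter fun U => Closed R W U ∧ Connd W U ∧ ∃ s ∈ U.powersetCard 2, W s ≠ 0

lemma mem_comps {U : Finset V} : U ∈ comps R W ↔
    U ⊆ R ∧ Closed R W U ∧ Connd W U ∧ ∃ s ∈ U.powersetCard 2, W s ≠ 0 := by
  rw [comps, mem_filter, mem_powerset]

/-- every pair of weight `≠ 0` lies in a cluster -/
lemma exists_comp {s : Finset V} (hs : s ∈ R.powersetCard 2) (hW : W s ≠ 0) :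
    ∃ U ∈ comps R W, s ⊆ U := by
  obtain ⟨U, hU, hsU, hcl, hco⟩ := exists_component hs hW
  exact ⟨U, mem_comps.2 ⟨hU, hcl, hco, s, mem_powersetCard.2 ⟨hsU, (mem_powersetCard.1 hs).2⟩, hW⟩,
    hsU⟩

/-- different clusters are disjoint -/
lemma comps_disj {U U' : Finset V} (hU : U ∈ comps R W) (hU' : U' ∈ comps R W) (hne : U ≠ U') :
    Disjoint U U' := by
  rw [mem_comps] at hU hU'
  by_contra h
  rw [Finset.not_disjoint_iff_nonempty_inter] at h
  have key : ∀ A B : Finset V, A ⊆ R → Closed R W A → Closed R W B → Closed A W (A ∩ B) := by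
    intro A B hA hcA hcB s hs hW v hv hvI
    have hs' := mem_powersetCard.1 hs
    have hsR : s ∈ R.powersetCard 2 := mem_powersetCard.2 ⟨hs'.1.trans hA, hs'.2⟩
    exact subset_inter hs'.1 (hcB s hsR hW v hv (mem_inter.1 hvI).2)
  have h1 := hU.2.2.1 (U ∩ U') inter_subset_left h (key U U' hU.1 hU.2.1 hU'.2.1)
  have h2 := hU'.2.2.1 (U' ∩ U) inter_subset_left (by rwa [inter_comm])
    (key U' U hU'.1 hU'.2.1 hU.2.1)
  apply hne
  rw [inter_comm] at h2
  exact h1.symm.trans h2

/-- clusters are separated from everything else -/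
lemma comps_sep {U : Finset V} (hU : U ∈ comps R W) : Sep W U (R \ U) := by
  rw [mem_comps] at hU
  exact Closed.sep hU.1 hU.2.1

/-- pairs that are not inside one cluster have weight zero -/
lemma W_zero_of_not {x y : V} (hx : x ∈ R) (hy : y ∈ R) (hxy : x ≠ y)
    (h : ∀ U ∈ comps R W, ¬ ({x, y} : Finset V) ⊆ U) : W {x, y} = 0 := by
  by_contra hW
  obtain ⟨U, hU, hs⟩ := exists_comp (s := {x, y}) (R := R) (W := W)
    (mem_powersetCard.2 ⟨by
      intro z hz
      rw [mem_insert, mem_singleton] at hz
      rcases hz with rfl | rfl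
      · exact hx
      · exact hy, card_pair hxy⟩) hW
  exact h U hU hs

/-- the polynomial of a set without pairs of weight `≠ 0` is one -/
lemma MP_of_zero {A : Finset V} (h : ∀ s ∈ A.powersetCard 2, W s = 0) : MP W A = 1 := by
  rw [MP_eq_one_iff]
  intro J hJ
  rw [MP_coeff]
  apply sum_eq_zero
  intro F hF
  rw [mem_filter, mem_mtc] at hF
  obtain ⟨s, hs⟩ : F.Nonempty := by
    rw [← card_pos]
    omega
  apply prod_eq_zero hs
  exact h s (mem_powersetCard.2 (hF.1.1 s hs))

/-- the product formula over any set of clusters -/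
lemma MP_biUnion {A : Finset V} (hA : A ⊆ R) : ∀ P ⊆ comps R W,
    MP W (A ∩ P.biUnion id) = ∏ U ∈ P, MP W (A ∩ U) := by
  intro P
  induction P using Finset.induction_on with
  | empty =>
    intro _
    rw [biUnion_empty, inter_empty, prod_empty]
    apply MP_of_zero
    intro s hs
    rw [mem_powersetCard] at hs
    have := Finset.card_le_card hs.1
    rw [card_empty, hs.2] at this
    omega
  | insert U P hUP ih =>
    intro hP
    have hU := hP (mem_insert_self U P)
    have hP' : P ⊆ comps R W := (subset_insert U P).trans hP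
    rw [biUnion_insert, prod_insert hUP, ← ih hP', id, inter_union_distrib_left]
    apply MP_union
    · rw [Finset.disjoint_left]
      intro x hx hx'
      rw [mem_inter] at hx hx'
      rw [mem_biUnion] at hx'
      obtain ⟨U', hU', hxU'⟩ := hx'.2
      exact Finset.disjoint_left.1 (comps_disj hU (hP' hU') (by
        rintro rfl
        exact hUP hU')) hx.2 hxU'
    · intro x hx y hy
      rw [mem_inter] at hx hy
      rw [mem_biUnion] at hy
      obtain ⟨U', hU', hyU'⟩ := hy.2
      refine comps_sep hU x hx.2 y (mem_sdiff.2 ⟨hA hy.1, fun hyU => ?_⟩)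
      exact Finset.disjoint_left.1 (comps_disj hU (hP' hU') (by
        rintro rfl
        exact hUP hU')) hyU hyU'

/-- **the matching polynomial of a part of the row is the product over the clusters** -/
theorem MP_comps {A : Finset V} (hA : A ⊆ R) : MP W A = ∏ U ∈ comps R W, MP W (A ∩ U) := by
  rw [← MP_biUnion hA (comps R W) subset_rfl]
  have h1 : A = (A ∩ (comps R W).biUnion id) ∪ (A \ (comps R W).biUnion id) := by
    ext x
    simp only [mem_union, mem_inter, mem_sdiff]
    tauto
  conv_lhs => rw [h1]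
  rw [MP_union, MP_of_zero (A := A \ (comps R W).biUnion id), mul_one]
  · intro s hs
    rw [mem_powersetCard] at hs
    by_contra hW
    obtain ⟨U, hU, hsU⟩ := exists_comp (R := R) (W := W) (s := s)
      (mem_powersetCard.2 ⟨hs.1.trans (sdiff_subset.trans hA), hs.2⟩) hW
    obtain ⟨x, hx⟩ : s.Nonempty := by
      rw [← card_pos, hs.2]
      norm_num
    have h2 := hs.1 hx
    rw [mem_sdiff, mem_biUnion] at h2
    exact h2.2 ⟨U, hU, hsU hx⟩
  · rw [Finset.disjoint_left]
    intro x hx hx'
    rw [mem_inter] at hx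
    rw [mem_sdiff] at hx'
    exact hx'.2 hx.2
  · intro x hx y hy
    rw [mem_inter, mem_biUnion] at hx
    obtain ⟨hx1, U, hU, hxU⟩ := hx
    rw [mem_sdiff] at hy
    refine comps_sep hU x hxU y (mem_sdiff.2 ⟨hA hy.1, fun hyU => hy.2 ?_⟩)
    rw [mem_biUnion]
    exact ⟨U, hU, hyU⟩

theorem MP_sdiff_comps (S : Finset V) :
    MP W (R \ S) = ∏ U ∈ comps R W, MP W (U \ S) := by
  rw [MP_comps (sdiff_subset : R \ S ⊆ R)]
  apply prod_congr rfl
  intro U hU
  congr 1
  ext x
  rw [mem_inter, mem_sdiff, mem_sdiff]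
  constructor
  · rintro ⟨⟨_, h2⟩, h3⟩
    exact ⟨h3, h2⟩
  · rintro ⟨h1, h2⟩
    exact ⟨⟨(mem_comps.1 hU).1 h1, h2⟩, h1⟩

/-- a set that meets no cluster has polynomial one -/
lemma MP_sdiff_of_disj (h : MP W R = 1) {U S : Finset V} (hU : U ∈ comps R W)
    (hd : Disjoint U S) : MP W (U \ S) = 1 := by
  rw [sdiff_eq_self_of_disjoint hd]
  exact MP_part h (mem_comps.1 hU).1 (comps_sep hU)

/-- the polynomial of `R \ S` only sees the clusters met by `S` -/
theorem MP_sdiff_filter (h : MP W R = 1) (S : Finset V) :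
    MP W (R \ S) = ∏ U ∈ (comps R W).filter (fun U => ¬ Disjoint U S), MP W (U \ S) := by
  rw [MP_sdiff_comps, ← prod_filter_mul_prod_filter_not (comps R W) (fun U => ¬ Disjoint U S)]
  rw [prod_eq_one (s := (comps R W).filter fun U => ¬ ¬ Disjoint U S), mul_one]
  intro U hU
  rw [mem_filter, not_not] at hU
  exact MP_sdiff_of_disj h hU.1 hU.2

/-- at most one cluster contains a given vertex -/
lemma comp_unique {U U' : Finset V} (hU : U ∈ comps R W) (hU' : U' ∈ comps R W) {x : V}
    (hx : x ∈ U) (hx' : x ∈ U') : U = U' := by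
  by_contra hne
  exact Finset.disjoint_left.1 (comps_disj hU hU' hne) hx hx'

/-- removing one vertex of a cluster -/
theorem MP_sdiff_singleton (h : MP W R = 1) {U : Finset V} (hU : U ∈ comps R W) {x : V}
    (hx : x ∈ U) : MP W (R \ {x}) = MP W (U \ {x}) := by
  rw [MP_sdiff_filter h]
  have h1 : (comps R W).filter (fun U => ¬ Disjoint U ({x} : Finset V)) = {U} := by
    ext U'
    rw [mem_filter, mem_singleton, disjoint_singleton_right, not_not]
    constructor
    · rintro ⟨h2, h3⟩
      exact comp_unique h2 hU h3 hx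
    · rintro rfl
      exact ⟨hU, hx⟩
  rw [h1, prod_singleton]

/-- removing a vertex outside the clusters -/
theorem MP_sdiff_singleton_far (h : MP W R = 1) {x : V} (hx : ∀ U ∈ comps R W, x ∉ U) :
    MP W (R \ {x}) = 1 := by
  rw [MP_sdiff_filter h, filter_eq_empty_iff.2, prod_empty]
  intro U hU
  rw [disjoint_singleton_right, not_not]
  exact hx U hU

/-- `S` inside one cluster -/
theorem MP_sdiff_sub (h : MP W R = 1) {U S : Finset V} (hU : U ∈ comps R W) (hS : S ⊆ U)
    (hne : S.Nonempty) : MP W (R \ S) = MP W (U \ S) := by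
  rw [MP_sdiff_filter h]
  have h1 : (comps R W).filter (fun U => ¬ Disjoint U S) = {U} := by
    ext U'
    rw [mem_filter, mem_singleton]
    constructor
    · rintro ⟨h2, h3⟩
      rw [Finset.not_disjoint_iff] at h3
      obtain ⟨x, hx, hx'⟩ := h3
      exact comp_unique h2 hU hx (hS hx')
    · rintro rfl
      refine ⟨hU, fun hd => ?_⟩
      obtain ⟨x, hx⟩ := hne
      exact Finset.disjoint_left.1 hd (hS hx) hx
  rw [h1, prod_singleton]

end Clu

end Pool.Gauss
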