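import Pool.Agent.Work.MP_065141_co.Engine4

/-!
# The sum over the energies of arbitrary unattached elements next to level `i`

General form of `tm_add`, `Mat.sum_red` of the engine: `T` is any finite set of unattached elements
of the levels `i - 1` and `i + 1`.
-/

set_option autoImplicit false
set_option linter.unusedSectionVars false
open scoped Classical
open Finset Polynomial

namespace Pool.Gauss

variable {α : Type} [Fintype α] [PartialOrder α] {i : ℕ}

section decompositionT

variable (hg : Grad α) (hl : HasLower α i) {ε κ : α → ℕ} {T : Finset α}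
  (hT : ∀ p ∈ T, ¬ att i ε p ∧ (corank p + 1 = i ∨ corank p = i + 1))
  (hred : ∀ p ∈ T, ε p = 0) (hκ : ∀ p, κ p ≠ 0 → p ∈ T)

include hg hT hκ in
lemma addT_eq_of_deep {q : α} (hq : corank q + 1 < i ∨ corank q = i ∨ i + 1 < corank q) :
    (ε + κ) q = ε q := by
  have : κ q = 0 := by
    by_contra h
    have := (hT _ (hκ q h)).2
    omega
  simp [this]

include hκ in
lemma addT_eq_of_notMem {q : α} (hq : q ∉ T) : (ε + κ) q = ε q := by
  have : κ q = 0 := by
    by_contra h
    exact hq (hκ q h)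
  simp [this]

include hred in
lemma addT_eq_of_mem {q : α} (hq : q ∈ T) : (ε + κ) q = κ q := by
  simp [hred q hq]

include hg hl hT hκ hred in
/-- the statuses of the elements away from level `i` and from the set of summation do not change -/
lemma inE_otherT {p : α} (hp : corank p ≠ i) (hp' : p ∉ T) :
    inE i (ε + κ) p ↔ inE i ε p := by
  have hpe := addT_eq_of_notMem (ε := ε) hκ hp'
  rcases lt_or_gt_of_ne hp with h | h
  · rw [inE_lt h, inE_lt h, hpe]
    apply or_congr Iff.rfl
    apply exists_congr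
    intro x
    apply and_congr_right
    intro hx
    -- `x ⋖ p`
    have h1 := hg x p hx
    by_cases hx' : x ∈ T
    · obtain ⟨h2, h3⟩ := hT _ hx'
      have h4 : corank x + 1 = i := by omega
      have h5 := not_att_z hg h2 h4 hx
      rw [h5]
      simp
    · rw [addT_eq_of_notMem hκ hx']
  · rw [inE_ge h.le, inE_ge h.le, hpe]
    apply exists_congr
    intro x
    apply and_congr_right
    intro hx
    have h1 := hg x p hx
    rw [addT_eq_of_deep hg hT hκ (q := x) (by omega)]

include hg hl hT hκ hred in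
lemma outE_otherT {p : α} (hp : corank p ≠ i) (hp' : p ∉ T) :
    outE i (ε + κ) p ↔ outE i ε p := by
  have hpe := addT_eq_of_notMem (ε := ε) hκ hp'
  rcases lt_or_gt_of_ne hp with h | h
  · rw [outE_le h.le, outE_le h.le, hpe]
    apply exists_congr
    intro x
    apply and_congr_right
    intro hx
    have h1 := hg p x hx
    rw [addT_eq_of_deep hg hT hκ (q := x) (by omega)]
  · rw [outE_gt h, outE_gt h, hpe]
    apply exists_congr
    intro x
    apply and_congr_right
    intro hx
    have h1 := hg p x hx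
    by_cases hx' : x ∈ T
    · obtain ⟨h2, h3⟩ := hT _ hx'
      have h4 : corank x = i + 1 := by omega
      have h5 := not_att_x hg h2 h4 hx
      rw [h5]
      simp
    · rw [addT_eq_of_notMem hκ hx']

include hg hl hT hκ hred in
/-- the factor of an element of the set of summation -/
lemma om_rstT {p : α} (hp : p ∈ T) :
    om (inE i (ε + κ) p) (outE i (ε + κ) p) =
      if corank p + 1 = i then (if ∃ y, y ⋖ p ∧ κ p ≤ ε y then X - 1 else X)
      else (if ∃ y, p ⋖ y ∧ κ p ≤ ε y then 1 else X) := by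
  obtain ⟨h2, h3⟩ := hT _ hp
  have hpe := addT_eq_of_mem (κ := κ) hred hp
  by_cases h : corank p + 1 = i
  · rw [if_pos h]
    have h4 : ¬ outE i (ε + κ) p := by
      rw [outE_le (by omega)]
      rintro ⟨v, hv, h5⟩
      have h6 := hg p v hv
      rw [addT_eq_of_deep hg hT hκ (q := v) (by omega), not_att_z hg h2 h hv] at h5
      omega
    have h5 : inE i (ε + κ) p ↔ ∃ y, y ⋖ p ∧ κ p ≤ ε y := by
      rw [inE_lt (by omega), hpe]
      constructor
      · rintro (h6 | ⟨y, hy, h6⟩)
        · obtain ⟨y, hy⟩ := hl p (by omega)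
          exact ⟨y, hy, by omega⟩
        · have h7 := hg y p hy
          rw [addT_eq_of_deep hg hT hκ (q := y) (by omega)] at h6
          exact ⟨y, hy, h6⟩
      · rintro ⟨y, hy, h6⟩
        right
        have h7 := hg y p hy
        refine ⟨y, hy, ?_⟩
        rw [addT_eq_of_deep hg hT hκ (q := y) (by omega)]
        exact h6
    unfold om
    simp only [h4, h5, if_false]
  · rw [if_neg h]
    have h1 : corank p = i + 1 := by omega
    have h4 : ¬ inE i (ε + κ) p := by
      rw [inE_ge (by omega)]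
      rintro ⟨w, hw, h5⟩
      have h6 := hg w p hw
      rw [addT_eq_of_deep hg hT hκ (q := w) (by omega), not_att_x hg h2 h1 hw] at h5
      omega
    have h5 : outE i (ε + κ) p ↔ ∃ y, p ⋖ y ∧ κ p ≤ ε y := by
      rw [outE_gt (by omega), hpe]
      apply exists_congr
      intro y
      apply and_congr_right
      intro hy
      have h7 := hg p y hy
      rw [addT_eq_of_deep hg hT hκ (q := y) (by omega)]
    unfold om
    simp only [h4, h5, if_false]

include hg hT hκ hred in
lemma not_outE_levT {y : α} (hy : corank y = i) :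
    ¬ outE i (ε + κ) y ↔ ¬ outE i ε y ∧ ∀ z ∈ T, y ⋖ z → κ z ≤ ε y := by
  rw [outE_lev hy, outE_lev hy, addT_eq_of_deep hg hT hκ (q := y) (by omega)]
  constructor
  · intro h
    constructor
    · rintro ⟨z, hz, h1⟩
      exact h ⟨z, hz, by simp only [Pi.add_apply]; omega⟩
    · intro z hz hyz
      by_contra h1
      exact h ⟨z, hyz, by rw [addT_eq_of_mem hred hz]; omega⟩
  · rintro ⟨h1, h2⟩ ⟨z, hz, h3⟩
    by_cases h4 : z ∈ T
    · rw [addT_eq_of_mem hred h4] at h3
      have := h2 z h4 hz
      omega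
    · rw [addT_eq_of_notMem hκ h4] at h3
      exact h1 ⟨z, hz, h3⟩

include hg hT hκ hred in
lemma not_inE_levT {y : α} (hy : corank y = i) :
    ¬ inE i (ε + κ) y ↔ ¬ inE i ε y ∧ ∀ x ∈ T, x ⋖ y → κ x ≤ ε y := by
  rw [inE_lev hy, inE_lev hy, addT_eq_of_deep hg hT hκ (q := y) (by omega)]
  constructor
  · intro h
    constructor
    · rintro ⟨z, hz, h1⟩
      exact h ⟨z, hz, by simp only [Pi.add_apply]; omega⟩
    · intro z hz hyz
      by_contra h1
      exact h ⟨z, hyz, by rw [addT_eq_of_mem hred hz]; omega⟩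
  · rintro ⟨h1, h2⟩ ⟨z, hz, h3⟩
    by_cases h4 : z ∈ T
    · rw [addT_eq_of_mem hred h4] at h3
      have := h2 z h4 hz
      omega
    · rw [addT_eq_of_notMem hκ h4] at h3
      exact h1 ⟨z, hz, h3⟩

/-- the constant part of the weight -/
noncomputable def cstT (i : ℕ) (T : Finset α) (ε : α → ℕ) : ℤ[X] :=
  ∏ p ∈ univ.filter (fun p : α => corank p ≠ i ∧ p ∉ T), om (inE i ε p) (outE i ε p)

include hg hl hT hκ hred in
/-- **decomposition of the weight** -/
theorem tm_addT : tm i (ε + κ) = cstT i T ε * ∑ S ∈ (lev α i).powerset,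
    if (∀ y ∈ S, ¬ outE i ε y) ∧ (∀ y ∈ lev α i \ S, ¬ inE i ε y) then
      (X - 1) ^ S.card * ∏ p ∈ T, Om i ε S p (κ p) else 0 := by
  rw [tm_eq_prod]
  have hdisj : Disjoint (lev α i) (T) := by
    rw [Finset.disjoint_left]
    intro p hp hp'
    rw [mem_lev] at hp
    have := (hT _ hp').2
    omega
  have huniv : (univ : Finset α) = (univ.filter fun p : α => corank p ≠ i ∧ p ∉ T) ∪
      (lev α i ∪ T) := by
    ext p
    rw [mem_union, mem_union, mem_filter, mem_lev]
    simp only [mem_univ, true_and, true_iff]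
    tauto
  have hdisj2 : Disjoint (univ.filter fun p : α => corank p ≠ i ∧ p ∉ T)
      (lev α i ∪ T) := by
    rw [Finset.disjoint_left]
    intro p hp hp'
    rw [mem_filter] at hp
    rw [mem_union, mem_lev] at hp'
    tauto
  rw [huniv, Finset.prod_union hdisj2, Finset.prod_union hdisj]
  have h1 : ∏ p ∈ univ.filter (fun p : α => corank p ≠ i ∧ p ∉ T),
      om (inE i (ε + κ) p) (outE i (ε + κ) p) = cstT i T ε := by
    unfold cstT
    apply Finset.prod_congr rfl
    intro p hp
    rw [mem_filter] at hp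
    rw [show inE i (ε + κ) p = inE i ε p from propext
        (inE_otherT hg hl hT hred hκ hp.2.1 hp.2.2),
      show outE i (ε + κ) p = outE i ε p from propext
        (outE_otherT hg hl hT hred hκ hp.2.1 hp.2.2)]
  rw [h1, prod_om_eq, Finset.sum_mul]
  congr 1
  apply Finset.sum_congr rfl
  intro S hS
  rw [mem_powerset] at hS
  -- the product over the set of summation
  have h2 : ∏ p ∈ T, Om i ε S p (κ p) =
      if (∀ p ∈ T, (if corank p + 1 = i then (∀ y, y ⋖ p → y ∈ S → κ p ≤ ε y)
        else (∀ y, p ⋖ y → y ∉ S → κ p ≤ ε y))) then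
      ∏ p ∈ T, om (inE i (ε + κ) p) (outE i (ε + κ) p) else 0 := by
    have h0 := prod_ite_zero' (T)
      (fun p => if corank p + 1 = i then (∀ y, y ⋖ p → y ∈ S → κ p ≤ ε y)
        else (∀ y, p ⋖ y → y ∉ S → κ p ≤ ε y))
      (fun p => om (inE i (ε + κ) p) (outE i (ε + κ) p))
    refine Eq.trans ?_ h0
    apply Finset.prod_congr rfl
    intro p hp
    rw [om_rstT hg hl hT hred hκ hp]
    unfold Om OmZ OmX
    split_ifs <;> rfl
  rw [h2]
  have h3 : ((∀ y ∈ S, ¬ outE i (ε + κ) y) ∧ (∀ y ∈ lev α i \ S, ¬ inE i (ε + κ) y)) ↔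
      ((∀ y ∈ S, ¬ outE i ε y) ∧ (∀ y ∈ lev α i \ S, ¬ inE i ε y)) ∧
      (∀ p ∈ T, (if corank p + 1 = i then (∀ y, y ⋖ p → y ∈ S → κ p ≤ ε y)
        else (∀ y, p ⋖ y → y ∉ S → κ p ≤ ε y))) := by
    constructor
    · rintro ⟨h4, h5⟩
      refine ⟨⟨?_, ?_⟩, ?_⟩
      · intro y hy
        exact ((not_outE_levT hg hT hred hκ (mem_lev.1 (hS hy))).1 (h4 y hy)).1
      · intro y hy
        exact ((not_inE_levT hg hT hred hκ (mem_lev.1 (mem_sdiff.1 hy).1)).1 (h5 y hy)).1
      · intro p hp
        split_ifs with h6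
        · intro y hy hyS
          exact ((not_outE_levT hg hT hred hκ (mem_lev.1 (hS hyS))).1 (h4 y hyS)).2 p hp hy
        · intro y hy hyS
          have h7 := (hT _ hp).2
          have h8 := hg p y hy
          have h9 : y ∈ lev α i \ S := by
            rw [mem_sdiff, mem_lev]
            exact ⟨by omega, hyS⟩
          exact ((not_inE_levT hg hT hred hκ (by omega)).1 (h5 y h9)).2 p hp hy
    · rintro ⟨⟨h4, h5⟩, h6⟩
      constructor
      · intro y hy
        rw [not_outE_levT hg hT hred hκ (mem_lev.1 (hS hy))]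
        refine ⟨h4 y hy, ?_⟩
        intro z hz hyz
        have h7 := h6 z hz
        have h8 := hg y z hyz
        have h9 := mem_lev.1 (hS hy)
        rw [if_pos (by omega)] at h7
        exact h7 y hyz hy
      · intro y hy
        rw [mem_sdiff, mem_lev] at hy
        rw [not_inE_levT hg hT hred hκ hy.1]
        refine ⟨h5 y (by rw [mem_sdiff, mem_lev]; exact hy), ?_⟩
        intro x hx hxy
        have h7 := h6 x hx
        have h8 := hg x y hxy
        rw [if_neg (by omega)] at h7
        exact h7 y hxy hy.2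
  by_cases h4 : ((∀ y ∈ S, ¬ outE i ε y) ∧ (∀ y ∈ lev α i \ S, ¬ inE i ε y)) <;>
    by_cases h5 : (∀ p ∈ T, (if corank p + 1 = i then (∀ y, y ⋖ p → y ∈ S → κ p ≤ ε y)
        else (∀ y, p ⋖ y → y ∉ S → κ p ≤ ε y)))
  · rw [if_pos (h3.2 ⟨h4, h5⟩), if_pos h4, if_pos h5]
  · rw [if_neg (fun h => h5 (h3.1 h).2), if_pos h4, if_neg h5]
    simp
  · rw [if_neg (fun h => h4 (h3.1 h).1), if_neg h4]
    simp
  · rw [if_neg (fun h => h4 (h3.1 h).1), if_neg h4]
    simp

end decompositionT

/-! ### all unattached elements -/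

/-- the unattached elements of the levels next to level `i` -/
noncomputable def Unatt (i : ℕ) (ε : α → ℕ) : Finset α :=
  univ.filter fun p => (corank p + 1 = i ∨ corank p = i + 1) ∧ ¬ att i ε p

lemma mem_Unatt {ε : α → ℕ} {p : α} :
    p ∈ Unatt i ε ↔ (corank p + 1 = i ∨ corank p = i + 1) ∧ ¬ att i ε p := by
  unfold Unatt
  rw [mem_filter]
  simp

lemma Unatt_prop {ε : α → ℕ} : ∀ p ∈ Unatt i ε,
    ¬ att i ε p ∧ (corank p + 1 = i ∨ corank p = i + 1) := fun _ hp =>
  ⟨(mem_Unatt.1 hp).2, (mem_Unatt.1 hp).1⟩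

/-- reduced energy functions: zero on the unattached elements next to level `i` -/
def Red (i : ℕ) (ε : α → ℕ) : Prop := ∀ p ∈ Unatt i ε, ε p = 0

lemma Unatt_congr {ε ε' : α → ℕ} (hg : Grad α)
    (h : ∀ q : α, corank q + 1 < i ∨ i + 1 < corank q → ε q = ε' q) :
    Unatt i ε = Unatt i ε' := by
  have h1 : ∀ p, att i ε p ↔ att i ε' p := att_congr hg h
  ext p
  rw [mem_Unatt, mem_Unatt, h1]

/-- the reduced part -/
noncomputable def redU (i : ℕ) (ε : α → ℕ) : α → ℕ :=
  fun p => if p ∈ Unatt i ε then 0 else ε p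

lemma Unatt_redU (hg : Grad α) (ε : α → ℕ) : Unatt i (redU i ε) = Unatt i ε := by
  apply Unatt_congr hg
  intro q hq
  unfold redU
  rw [if_neg]
  intro h
  have := (mem_Unatt.1 h).1
  omega

lemma Red_redU (hg : Grad α) (ε : α → ℕ) : Red i (redU i ε) := by
  intro p hp
  rw [Unatt_redU hg] at hp
  unfold redU
  rw [if_pos hp]

/-- regrouping of a sum according to the reduced parts -/
theorem sum_redU {R : Type} [AddCommMonoid R] (hg : Grad α) (i r : ℕ) (F : (α → ℕ) → R) :
    ∑ ε ∈ (univ : Finset α).piAntidiag r, F ε =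
      ∑ s ∈ range (r + 1), ∑ ε ∈ ((univ : Finset α).piAntidiag s).filter (fun ε => Red i ε),
        ∑ κ ∈ (Unatt i ε).piAntidiag (r - s), F (ε + κ) := by
  rw [Finset.sum_congr rfl fun s _ => Finset.sum_sigma' _ _ _, Finset.sum_sigma']
  symm
  refine Finset.sum_bij' (fun x _ => x.2.1 + x.2.2)
    (fun ε _ => ⟨∑ p, redU i ε p, redU i ε, ε - redU i ε⟩) ?_ ?_ ?_ ?_ ?_
  · rintro ⟨s, ε, κ⟩ hx
    rw [mem_sigma, mem_sigma, mem_filter, mem_piAntidiag, mem_piAntidiag, mem_range] at hx
    obtain ⟨h1, ⟨h2, h3⟩, h4, h5⟩ := hx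
    simp only at h1 h2 h3 h4 h5
    rw [mem_piAntidiag]
    refine ⟨?_, fun _ _ => mem_univ _⟩
    simp only [Pi.add_apply]
    rw [Finset.sum_add_distrib, h2.1]
    have h6 : ∑ p, κ p = ∑ p ∈ Unatt i ε, κ p := by
      symm
      apply Finset.sum_subset (subset_univ _)
      intro p _ hp
      by_contra h
      exact hp (h5 p h)
    rw [h6, h4]
    omega
  · intro ε hε
    rw [mem_piAntidiag] at hε
    have h1 : ∀ p, redU i ε p ≤ ε p := by
      intro p
      unfold redU
      split_ifs <;> omega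
    have h2 : ∑ p, redU i ε p ≤ r := by
      rw [← hε.1]
      exact Finset.sum_le_sum fun p _ => h1 p
    rw [mem_sigma, mem_sigma, mem_filter, mem_piAntidiag, mem_piAntidiag, mem_range]
    refine ⟨by simp only; omega, ⟨⟨rfl, fun _ _ => mem_univ _⟩, Red_redU hg ε⟩, ?_, ?_⟩
    · simp only
      rw [Unatt_redU hg]
      have h3 : ∑ p ∈ Unatt i ε, (ε - redU i ε) p = ∑ p, (ε - redU i ε) p := by
        apply Finset.sum_subset (subset_univ _)
        intro p _ hp
        simp [redU, hp]
      rw [h3]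
      have h4 : ∑ p, (ε - redU i ε) p + ∑ p, redU i ε p = r := by
        rw [← Finset.sum_add_distrib, ← hε.1]
        apply Finset.sum_congr rfl
        intro p _
        have := h1 p
        simp only [Pi.sub_apply]
        omega
      omega
    · intro p hp
      simp only
      rw [Unatt_redU hg]
      by_contra h
      apply hp
      simp [redU, h]
  · rintro ⟨s, ε, κ⟩ hx
    rw [mem_sigma, mem_sigma, mem_filter, mem_piAntidiag, mem_piAntidiag, mem_range] at hx
    obtain ⟨h1, ⟨h2, h3⟩, h4, h5⟩ := hx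
    simp only at h1 h2 h3 h4 h5
    have h6 : Unatt i (ε + κ) = Unatt i ε := by
      apply Unatt_congr hg
      intro q hq
      have : κ q = 0 := by
        by_contra h
        have := (mem_Unatt.1 (h5 q h)).1
        omega
      simp [this]
    have h7 : redU i (ε + κ) = ε := by
      funext p
      unfold redU
      rw [h6]
      split_ifs with h
      · exact (h3 p h).symm
      · have : κ p = 0 := by
          by_contra h'
          exact h (h5 p h')
        simp [this]
    have h8 : ε + κ - redU i (ε + κ) = κ := by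
      rw [h7]
      funext p
      simp
    simp only
    rw [h8, h7, h2.1]
  · intro ε _
    funext p
    simp only [Pi.add_apply, Pi.sub_apply]
    unfold redU
    split_ifs <;> omega
  · rintro ⟨s, ε, κ⟩ _
    rfl

/-- adding energies on the unattached elements to a bad energy function gives weight zero -/
lemma tm_eq_zeroU (hg : Grad α) (hl : HasLower α i) {ε κ : α → ℕ}
    (hred : Red i ε) (hκ : ∀ p, κ p ≠ 0 → p ∈ Unatt i ε) (hbad : ¬ GoodE i ε) :
    tm i (ε + κ) = 0 := by
  rw [tm_addT hg hl Unatt_prop hred hκ]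
  unfold GoodE at hbad
  push Not at hbad
  obtain ⟨p, h1, h2⟩ := hbad
  by_cases hp : corank p = i
  · rw [Finset.sum_eq_zero, mul_zero]
    intro S hS
    rw [if_neg]
    rintro ⟨h3, h4⟩
    by_cases h5 : p ∈ S
    · exact h3 p h5 h2
    · exact h4 p (by rw [mem_sdiff, mem_lev]; exact ⟨hp, h5⟩) h1
  · by_cases hp' : p ∈ Unatt i ε
    · exfalso
      obtain ⟨h3, h4⟩ := Unatt_prop p hp'
      have h5 := hred p hp'
      rcases h4 with h4 | h4
      · rw [outE_le (by omega)] at h2
        obtain ⟨v, hv, h6⟩ := h2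
        exact h3 (Or.inl ⟨h4, v, hv, by omega⟩)
      · rw [inE_ge (by omega)] at h1
        obtain ⟨v, hv, h6⟩ := h1
        exact h3 (Or.inr ⟨h4, v, hv, by omega⟩)
    · have : cstT i (Unatt i ε) ε = 0 := by
        unfold cstT
        apply Finset.prod_eq_zero (i := p)
        · rw [mem_filter]
          exact ⟨mem_univ _, hp, hp'⟩
        · simp [om, h1, h2]
      rw [this, zero_mul]

/-- **the partial sum of a reduced energy function** -/
theorem sum_kappa (hg : Grad α) (hl : HasLower α i) {ε : α → ℕ} (hred : Red i ε) (N : ℕ) :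
    ∑ κ ∈ (Unatt i ε).piAntidiag N, tm i (ε + κ) =
      cstT i (Unatt i ε) ε * ∑ S ∈ (lev α i).powerset,
        if (∀ y ∈ S, ¬ outE i ε y) ∧ (∀ y ∈ lev α i \ S, ¬ inE i ε y) then
          (X - 1) ^ S.card *
            PowerSeries.coeff N (∏ p ∈ Unatt i ε, PowerSeries.mk (Om i ε S p)) else 0 := by
  have h2 : ∀ κ ∈ (Unatt i ε).piAntidiag N, tm i (ε + κ) =
      cstT i (Unatt i ε) ε * ∑ S ∈ (lev α i).powerset,
      if (∀ y ∈ S, ¬ outE i ε y) ∧ (∀ y ∈ lev α i \ S, ¬ inE i ε y) then
      (X - 1) ^ S.card * ∏ p ∈ Unatt i ε, Om i ε S p (κ p) else 0 := by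
    intro κ hκ
    rw [mem_piAntidiag] at hκ
    exact tm_addT hg hl Unatt_prop hred hκ.2
  rw [Finset.sum_congr rfl h2, ← Finset.mul_sum, Finset.sum_comm]
  congr 1
  apply Finset.sum_congr rfl
  intro S _
  split_ifs with h3
  · rw [← Finset.mul_sum, sum_piAntidiag_eq_coeff]
  · simp

end Pool.Gauss
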