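import Pool.Agent.Work.MP_065141_co.Cfg
import Pool.Agent.Work.MP_065141_co.K.SumT

/-!
# Reduced energy functions of excess at most one

The excess of a good energy function is `∑ ε + |Fo| - |Yd|`. A reduced energy function of excess at
most one is zero, or the indicator of an element of level `i`, or an event, or belongs to an element
two levels away over four elements of level `i`.
-/

set_option autoImplicit false
set_option linter.unusedSectionVars false
set_option linter.unusedVariables false
open scoped Classical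
open Finset Polynomial

namespace Pool.Gauss.Deep1

variable {α : Type} [Fintype α] [PartialOrder α] {i : ℕ}

lemma ds_one_iff {p : α} : ds i p = 1 ↔ corank p + 1 = i ∨ corank p = i + 1 := by
  unfold ds
  omega

/-- the excited elements next to level `i` -/
noncomputable def A1 (i : ℕ) (ε : α → ℕ) : Finset α := univ.filter fun p => ds i p = 1 ∧ 0 < ε p

/-- the excited elements farther away -/
noncomputable def Dp (i : ℕ) (ε : α → ℕ) : Finset α := univ.filter fun p => 2 ≤ ds i p ∧ 0 < ε p

/-- the elements two levels away with value at least two -/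
noncomputable def D2 (i : ℕ) (ε : α → ℕ) : Finset α := univ.filter fun p => ds i p = 2 ∧ 2 ≤ ε p

lemma mem_A1 {ε : α → ℕ} {p : α} : p ∈ A1 i ε ↔ ds i p = 1 ∧ 0 < ε p := by simp [A1]
lemma mem_Dp {ε : α → ℕ} {p : α} : p ∈ Dp i ε ↔ 2 ≤ ds i p ∧ 0 < ε p := by simp [Dp]
lemma mem_D2 {ε : α → ℕ} {p : α} : p ∈ D2 i ε ↔ ds i p = 2 ∧ 2 ≤ ε p := by simp [D2]

lemma D2_subset {ε : α → ℕ} : D2 i ε ⊆ Dp i ε := by
  intro p hp
  rw [mem_D2] at hp
  rw [mem_Dp]
  omega

/-- the energy split by the distance -/
lemma sum_split (ε : α → ℕ) :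
    ∑ p, ε p = ∑ p ∈ lev α i, ε p + ∑ p ∈ A1 i ε, ε p + ∑ p ∈ Dp i ε, ε p := by
  have h1 : Disjoint (lev α i) (A1 i ε) := by
    rw [Finset.disjoint_left]
    intro p hp hp'
    rw [mem_lev] at hp
    rw [mem_A1, ] at hp'
    have := ds_eq_zero.2 hp
    omega
  have h2 : Disjoint (lev α i ∪ A1 i ε) (Dp i ε) := by
    rw [Finset.disjoint_left]
    intro p hp hp'
    rw [mem_union, mem_lev, mem_A1] at hp
    rw [mem_Dp] at hp'
    rcases hp with hp | hp
    · have := ds_eq_zero.2 hp
      omega
    · omega
  rw [← sum_union h1, ← sum_union h2]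
  symm
  apply Finset.sum_subset (subset_univ _)
  intro p _ hp
  by_contra h
  apply hp
  rw [mem_union, mem_union, mem_lev, mem_A1, mem_Dp]
  have h3 : 0 < ε p := by omega
  by_cases h4 : corank p = i
  · tauto
  · have h5 : ds i p ≠ 0 := fun h => h4 (ds_eq_zero.1 h)
    by_cases h6 : ds i p = 1
    · tauto
    · right
      exact ⟨by omega, h3⟩

section excess

variable (hg : Grad α) (hl : HasLower α i) (hdeg : ∀ p : α, (bd i p).card ≤ 2) {ε : α → ℕ}
  (hε : GoodE i ε) (hred : Red i ε)

include hg hred in
lemma att_of_mem_A1 {p : α} (hp : p ∈ A1 i ε) : ∃ q ∈ Dp i ε, fr i p q := by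
  rw [mem_A1] at hp
  have h1 : att i ε p := by
    by_contra h
    have h2 := hred p (mem_Unatt.2 ⟨ds_one_iff.1 hp.1, h⟩)
    omega
  rw [att_iff hg hp.1] at h1
  obtain ⟨q, hq, hq'⟩ := h1
  exact ⟨q, mem_Dp.2 ⟨by rw [fr_ds hg hq]; omega, hq'⟩, hq⟩

include hg hl hε in
lemma bd_mem_of_deep {p q : α} (hq : q ∈ Dp i ε) (h : fr i p q) : 0 < ε p := by
  rw [mem_Dp] at hq
  apply closure hg hl hε h _ hq.2
  intro h1
  have h2 := fr_ds hg h
  rw [ds_eq_zero.2 h1] at h2
  omega

/-- dominated neighbours -/
noncomputable def dn1 (i : ℕ) (ε : α → ℕ) (p : α) : Finset α := (bd i p).filter fun y => ε y < ε p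

include hg in
lemma Yd_sub : Yd i ε ⊆ (A1 i ε).biUnion (dn1 i ε) := by
  intro y hy
  rw [mem_Yd] at hy
  obtain ⟨hy, p, hp, h⟩ := hy
  rw [mem_biUnion]
  refine ⟨p, mem_A1.2 ⟨by rw [fr_ds hg hp, ds_eq_zero.2 hy], by omega⟩, ?_⟩
  rw [dn1, mem_filter, mem_bd]
  exact ⟨hp, h⟩

include hdeg in
lemma card_dn1_le (p : α) : (dn1 i ε p).card ≤ 1 + if nd i ε p then 0 else 1 := by
  split_ifs with h
  · obtain ⟨t, ht, ht'⟩ := h
    have h1 : dn1 i ε p ⊆ (bd i p).erase t := by
      intro y hy
      rw [dn1, mem_filter] at hy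
      rw [mem_erase]
      refine ⟨?_, hy.1⟩
      rintro rfl
      omega
    have h2 := card_le_card h1
    rw [card_erase_of_mem (mem_bd.2 ht)] at h2
    have := hdeg p
    omega
  · have h1 : (dn1 i ε p).card ≤ (bd i p).card := card_filter_le _ _
    have := hdeg p
    omega

include hg hdeg in
lemma card_Yd_le : (Yd i ε).card ≤
    (A1 i ε).card + ((A1 i ε).filter fun p => ¬ nd i ε p).card := by
  have h1 : (Yd i ε).card ≤ ((A1 i ε).biUnion (dn1 i ε)).card := card_le_card (Yd_sub hg)
  have h2 : ((A1 i ε).biUnion (dn1 i ε)).card ≤ ∑ p ∈ A1 i ε, (dn1 i ε p).card :=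
    card_biUnion_le
  have h3 : ∑ p ∈ A1 i ε, (dn1 i ε p).card ≤ ∑ p ∈ A1 i ε, (1 + if nd i ε p then 0 else 1) :=
    Finset.sum_le_sum fun p _ => card_dn1_le hdeg p
  have h4 : ∑ p ∈ A1 i ε, (1 + if nd i ε p then 0 else 1) =
      (A1 i ε).card + ((A1 i ε).filter fun p => ¬ nd i ε p).card := by
    rw [sum_add_distrib, ← card_eq_sum_ones, card_filter]
    congr 1
    apply sum_congr rfl
    intro p _
    by_cases h : nd i ε p <;> simp [h]
  omega

include hg hl hε in
/-- the free elements which are not dominated from near: far dominated or free -/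
lemma card_not_nd : ((A1 i ε).filter fun p => ¬ nd i ε p).card =
    ((A1 i ε).filter fun p => fd i ε p).card + (A1 i ε ∩ Fo i ε).card := by
  have hS := goodS_of_goodE hg hl hε
  rw [← card_union_of_disjoint]
  · congr 1
    ext p
    rw [mem_filter, mem_union, mem_filter, mem_inter, Fo, mem_filter]
    constructor
    · rintro ⟨h1, h2⟩
      by_cases h3 : fd i ε p
      · exact Or.inl ⟨h1, h3⟩
      · right
        refine ⟨h1, mem_univ _, ?_, h3, h2⟩
        intro h4
        rw [mem_A1, ds_eq_zero.2 h4] at h1
        omega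
    · rintro (⟨h1, h2⟩ | ⟨h1, _, h2, h3, h4⟩)
      · refine ⟨h1, fun h3 => hS.1 p ?_ ⟨h2, h3⟩⟩
        intro h4
        rw [mem_A1, ds_eq_zero.2 h4] at h1
        omega
      · exact ⟨h1, h4⟩
  · rw [Finset.disjoint_left]
    intro p hp hp'
    rw [mem_filter] at hp
    rw [mem_inter, Fo, mem_filter] at hp'
    exact hp'.2.2.2.1 hp.2

/-- the pairs of a far dominated element next to level `i` and a dominating element -/
lemma fd_sub (hg : Grad α) : ((A1 i ε).filter fun p => fd i ε p) ⊆ (D2 i ε).biUnion (bd i) := by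
  intro p hp
  rw [mem_filter, mem_A1] at hp
  obtain ⟨⟨h1, h2⟩, q, hq, h3⟩ := hp
  rw [mem_biUnion]
  exact ⟨q, mem_D2.2 ⟨by rw [fr_ds hg hq, h1], by omega⟩, mem_bd.2 hq⟩

include hg hdeg in
lemma card_fd_le : ((A1 i ε).filter fun p => fd i ε p).card ≤ 2 * (D2 i ε).card := by
  refine (card_le_card (fd_sub hg)).trans (card_biUnion_le.trans ?_)
  refine (Finset.sum_le_sum fun q _ => hdeg q).trans ?_
  rw [sum_const, smul_eq_mul, mul_comm]

lemma sum_Dp_ge : (Dp i ε).card + (D2 i ε).card ≤ ∑ p ∈ Dp i ε, ε p := by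
  have h1 : (D2 i ε).card = ∑ p ∈ Dp i ε, if p ∈ D2 i ε then 1 else 0 := by
    rw [sum_boole, Nat.cast_id, filter_mem_eq_inter, inter_eq_right.2 D2_subset]
  rw [h1, card_eq_sum_ones, ← sum_add_distrib]
  apply Finset.sum_le_sum
  intro p hp
  rw [mem_Dp] at hp
  split_ifs with h
  · rw [mem_D2] at h
    omega
  · omega

lemma sum_A1_ge : (A1 i ε).card ≤ ∑ p ∈ A1 i ε, ε p := by
  rw [card_eq_sum_ones]
  apply Finset.sum_le_sum
  intro p hp
  rw [mem_A1] at hp
  omega

/-- **classification of the reduced energy functions of excess at most one** -/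
theorem excess_one (hg : Grad α) (hl : HasLower α i) (hdeg : ∀ p : α, (bd i p).card ≤ 2)
    {ε : α → ℕ} (hε : GoodE i ε) (hred : Red i ε)
    (hex : ∑ p, ε p + (Fo i ε).card ≤ (Yd i ε).card + 1) :
    ε = 0 ∨ (∃ y, corank y = i ∧ ε = ind {y}) ∨
    (∃ p q, ds i q = 2 ∧ bd i q = {p} ∧ (bd i p).card = 2 ∧ ε = ind {p, q}) ∨
    (∃ p p' q, ds i q = 2 ∧ p ≠ p' ∧ bd i q = {p, p'} ∧ (bd i p ∪ bd i p').card = 4 ∧
      (ε = ind {p, p', q} ∨ ε = ind {p, p', q} + ind {q})) := by
  have hS := goodS_of_goodE hg hl hε
  have e1 := sum_split (i := i) ε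
  have e2 := card_Yd_le hg hdeg (ε := ε)
  have e3 := card_not_nd hg hl hε
  have e4 := card_fd_le hg hdeg (ε := ε)
  have e5 := sum_Dp_ge (i := i) (ε := ε)
  have e6 := sum_A1_ge (i := i) (ε := ε)
  have e7 : (A1 i ε ∩ Fo i ε).card + (Dp i ε ∩ Fo i ε).card ≤ (Fo i ε).card := by
    rw [← card_union_of_disjoint]
    · exact card_le_card (union_subset inter_subset_right inter_subset_right)
    · rw [Finset.disjoint_left]
      intro p hp hp'
      rw [mem_inter, mem_A1] at hp
      rw [mem_inter, mem_Dp] at hp'
      omega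
  have e8 := card_le_card (D2_subset (i := i) (ε := ε))
  -- no deep element
  rcases (Dp i ε).eq_empty_or_nonempty with hD | hD
  · have hA : A1 i ε = ∅ := by
      rw [eq_empty_iff_forall_notMem]
      intro p hp
      obtain ⟨q, hq, _⟩ := att_of_mem_A1 hg hred hp
      rw [hD] at hq
      simp at hq
    have hY : (Yd i ε).card = 0 := by
      rw [hA] at e2
      simpa using e2
    rw [hA, hD, sum_empty] at e1
    have h1 : ∑ p, ε p ≤ 1 := by omega
    rcases Nat.eq_zero_or_pos (∑ p, ε p) with h2 | h2
    · left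
      funext p
      exact (Finset.sum_eq_zero_iff.1 h2) p (mem_univ p)
    · right
      left
      have h3 : ∑ p ∈ lev α i, ε p ≠ 0 := by omega
      obtain ⟨y, hy, hy'⟩ := Finset.exists_ne_zero_of_sum_ne_zero h3
      refine ⟨y, mem_lev.1 hy, eq_ind ?_ ?_⟩
      · intro p hp
        rw [mem_singleton] at hp
        rw [hp]
        omega
      · rw [card_singleton]
        exact h1
  -- the values next to the level and the level
  right; right
  have hmaxq : ∃ q ∈ Dp i ε, ∀ r ∈ Dp i ε, ε r ≤ ε q := Finset.exists_max_image _ _ hD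
  by_cases hDD : Dp i ε = D2 i ε
  · -- all deep elements have value at least two
    right
    obtain ⟨q, hq, hmax⟩ := hmaxq
    have hq2 : ds i q = 2 ∧ 2 ≤ ε q := by
      rw [hDD] at hq
      exact mem_D2.1 hq
    have hnfd : ¬ fd i ε q := by
      rintro ⟨r, hr, hr'⟩
      have h1 : r ∈ Dp i ε := mem_Dp.2 ⟨by rw [fr_ds hg hr]; omega, by omega⟩
      have := hmax r h1
      omega
    have hcq : corank q ≠ i := by
      intro h
      have := ds_eq_zero.2 h
      omega
    -- `q` is free
    have hqF : q ∈ Fo i ε := by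
      rw [Fo, mem_filter]
      refine ⟨mem_univ _, hcq, hnfd, ?_⟩
      rintro ⟨p, hp, hp'⟩
      have hpA : p ∈ A1 i ε := by
        rw [mem_A1]
        have := fr_ds hg hp
        exact ⟨by omega, by omega⟩
      have hpf : ¬ fd i ε p := by
        rintro ⟨r, hr, hr'⟩
        have h1 : r ∈ Dp i ε := by
          rw [mem_A1] at hpA
          exact mem_Dp.2 ⟨by rw [fr_ds hg hr]; omega, by omega⟩
        have := hmax r h1
        omega
      have h1 : ((A1 i ε).filter fun p => fd i ε p) ⊆
          ((D2 i ε).erase q).biUnion (bd i) ∪ (bd i q).erase p := by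
        intro s hs
        have h2 := fd_sub hg hs
        rw [mem_biUnion] at h2
        obtain ⟨r, hr, hr'⟩ := h2
        rw [mem_union, mem_biUnion]
        by_cases h3 : r = q
        · right
          rw [mem_erase]
          refine ⟨?_, by rw [← h3]; exact hr'⟩
          rintro rfl
          exact hpf (mem_filter.1 hs).2
        · left
          exact ⟨r, mem_erase.2 ⟨h3, hr⟩, hr'⟩
      have h2 : (((D2 i ε).erase q).biUnion (bd i)).card ≤ 2 * ((D2 i ε).card - 1) := by
        refine card_biUnion_le.trans ((Finset.sum_le_sum fun q _ => hdeg q).trans ?_)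
        rw [sum_const, smul_eq_mul, card_erase_of_mem (by rw [← hDD]; exact hq), mul_comm]
      have h3 : ((bd i q).erase p).card ≤ 1 := by
        rw [card_erase_of_mem (mem_bd.2 hp)]
        have := hdeg q
        omega
      have h4 := (card_le_card h1).trans (card_union_le _ _)
      have h5 : 0 < (D2 i ε).card := card_pos.2 ⟨q, by rw [← hDD]; exact hq⟩
      have h6 : (A1 i ε).card + 1 ≤ ∑ p ∈ A1 i ε, ε p := by
        have : ∑ s ∈ A1 i ε, (if s = p then 2 else 1) ≤ ∑ p ∈ A1 i ε, ε p := by
          apply Finset.sum_le_sum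
          intro s hs
          rw [mem_A1] at hs
          split_ifs with h
          · rw [h]
            omega
          · omega
        have h7 : ∑ s ∈ A1 i ε, (if s = p then 2 else 1) = (A1 i ε).card + 1 := by
          have : ∀ s ∈ A1 i ε, (if s = p then 2 else 1) = 1 + if s = p then 1 else 0 := by
            intro s _
            split_ifs <;> rfl
          rw [sum_congr rfl this, sum_add_distrib, ← card_eq_sum_ones, sum_ite_eq' (A1 i ε) p,
            if_pos hpA]
        omega
      have h8 : (Dp i ε).card = (D2 i ε).card := by rw [hDD]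
      omega
    have hqF' : q ∈ Dp i ε ∩ Fo i ε := mem_inter.2 ⟨hq, hqF⟩
    have hF1 : 1 ≤ (Dp i ε ∩ Fo i ε).card := card_pos.2 ⟨q, hqF'⟩
    have h8 : (Dp i ε).card = (D2 i ε).card := by rw [hDD]
    -- everything is an equality
    have f1 : ∑ p ∈ lev α i, ε p = 0 := by omega
    have f2 : ∑ p ∈ A1 i ε, ε p = (A1 i ε).card := by omega
    have f3 : ∑ p ∈ Dp i ε, ε p = 2 * (Dp i ε).card := by omega
    have f4 : ((A1 i ε).filter fun p => fd i ε p).card = 2 * (D2 i ε).card := by omega
    have f5 : (Dp i ε ∩ Fo i ε).card = 1 := by omega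
    have f6 : (Yd i ε).card = (A1 i ε).card + ((A1 i ε).filter fun p => ¬ nd i ε p).card := by
      omega
    have g1 : ∀ p ∈ A1 i ε, ε p = 1 := by
      have : ∑ p ∈ A1 i ε, 1 = ∑ p ∈ A1 i ε, ε p := by rw [f2, ← card_eq_sum_ones]
      have h := (Finset.sum_eq_sum_iff_of_le (fun p hp => by
        rw [mem_A1] at hp
        omega : ∀ p ∈ A1 i ε, 1 ≤ ε p)).1 this
      exact fun p hp => (h p hp).symm
    have g2 : ∀ r ∈ Dp i ε, ε r = 2 := by
      have : ∑ r ∈ Dp i ε, 2 = ∑ r ∈ Dp i ε, ε r := by
        rw [f3, sum_const, smul_eq_mul, mul_comm]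
      have h := (Finset.sum_eq_sum_iff_of_le (fun r hr => by
        rw [hDD, mem_D2] at hr
        omega : ∀ r ∈ Dp i ε, 2 ≤ ε r)).1 this
      exact fun p hp => (h p hp).symm
    have g3 : ∀ y, corank y = i → ε y = 0 := fun y hy =>
      (Finset.sum_eq_zero_iff.1 f1) y (mem_lev.2 hy)
    -- all deep elements are free
    have g4 : Dp i ε ⊆ Dp i ε ∩ Fo i ε := by
      intro r hr
      rw [mem_inter]
      refine ⟨hr, ?_⟩
      have hr2 := hr
      rw [hDD, mem_D2] at hr2
      rw [Fo, mem_filter]
      refine ⟨mem_univ _, ?_, ?_, ?_⟩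
      · intro h
        have := ds_eq_zero.2 h
        omega
      · rintro ⟨s, hs, hs'⟩
        have h1 : s ∈ Dp i ε := mem_Dp.2 ⟨by rw [fr_ds hg hs]; omega, by omega⟩
        rw [g2 s h1, g2 r hr] at hs'
        omega
      · rintro ⟨s, hs, hs'⟩
        have h1 : s ∈ A1 i ε := by
          rw [mem_A1]
          have h2 := fr_ds hg hs
          exact ⟨by omega, by omega⟩
        rw [g1 s h1, g2 r hr] at hs'
        omega
    have g5 : (Dp i ε).card ≤ 1 := by
      have := card_le_card g4
      omega
    have g6 : Dp i ε = {q} := by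
      rw [eq_singleton_iff_unique_mem]
      refine ⟨hq, fun r hr => ?_⟩
      exact card_le_one.1 g5 r hr q hq
    have g7 : D2 i ε = {q} := by rw [← hDD, g6]
    rw [g7, card_singleton] at f4
    have g8 : (bd i q).card = 2 := by
      have h1 := card_le_card (fd_sub (i := i) (ε := ε) hg)
      rw [g7, singleton_biUnion] at h1
      have := hdeg q
      omega
    obtain ⟨p, p', hpp, hb⟩ := card_eq_two.1 g8
    have g9 : A1 i ε = bd i q := by
      apply Finset.Subset.antisymm
      · intro s hs
        obtain ⟨r, hr, hr'⟩ := att_of_mem_A1 hg hred hs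
        rw [g6, mem_singleton] at hr
        rw [mem_bd, ← hr]
        exact hr'
      · intro s hs
        rw [mem_bd] at hs
        have h1 := bd_mem_of_deep hg hl hε hq hs
        rw [mem_A1]
        have h2 := fr_ds hg hs
        exact ⟨by omega, h1⟩
    have hY4 : (Yd i ε).card = 4 := by
      have h1 : (A1 i ε).filter (fun p => ¬ nd i ε p) = A1 i ε := by
        apply filter_true_of_mem
        rintro s hs ⟨y, hy, hy'⟩
        have h2 : ds i s = 1 := (mem_A1.1 hs).1
        have h3 := fr_ds hg hy
        have h4 : corank y = i := ds_eq_zero.1 (by omega)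
        rw [g3 y h4, g1 s hs] at hy'
        omega
      rw [f6, h1, g9, g8]
    refine ⟨p, p', q, hq2.1, hpp, hb, ?_, Or.inr ?_⟩
    · have h1 := card_le_card (Yd_sub (i := i) (ε := ε) hg)
      rw [hY4, g9, hb] at h1
      have h2 : ({p, p'} : Finset α).biUnion (dn1 i ε) ⊆ bd i p ∪ bd i p' := by
        intro y hy
        rw [mem_biUnion] at hy
        obtain ⟨s, hs, hy⟩ := hy
        rw [dn1, mem_filter] at hy
        rw [mem_insert, mem_singleton] at hs
        rw [mem_union]
        rcases hs with rfl | rfl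
        · exact Or.inl hy.1
        · exact Or.inr hy.1
      have h3 := h1.trans (card_le_card h2)
      have h4 := card_union_le (bd i p) (bd i p')
      have h5 := hdeg p
      have h6 := hdeg p'
      omega
    · funext s
      have hpA : p ∈ A1 i ε := by rw [g9, hb]; simp
      have hpA' : p' ∈ A1 i ε := by rw [g9, hb]; simp
      have hqp : q ≠ p := by
        rintro rfl
        rw [mem_A1] at hpA
        omega
      have hqp' : q ≠ p' := by
        rintro rfl
        rw [mem_A1] at hpA'
        omega
      simp only [Pi.add_apply]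
      by_cases h1 : s = q
      · rw [h1, ind_mem (by simp), ind_mem (by simp), g2 q hq]
      · rw [ind_notMem (T := {q}) (by simpa using h1), add_zero]
        by_cases h2 : s ∈ A1 i ε
        · rw [g1 s h2, ind_mem]
          rw [g9, hb] at h2
          simp only [mem_insert, mem_singleton] at h2 ⊢
          tauto
        · have h3 : s ∉ ({p, p', q} : Finset α) := by
            simp only [mem_insert, mem_singleton]
            rintro (rfl | rfl | rfl)
            · exact h2 hpA
            · exact h2 hpA'
            · exact h1 rfl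
          rw [ind_notMem h3]
          by_cases h4 : corank s = i
          · exact g3 s h4
          · by_contra h5
            have h6 : ds i s ≠ 0 := fun h => h4 (ds_eq_zero.1 h)
            have h7 : ds i s ≠ 1 := fun h => h2 (mem_A1.2 ⟨h, by omega⟩)
            have h8 : s ∈ Dp i ε := mem_Dp.2 ⟨by omega, by omega⟩
            rw [g6, mem_singleton] at h8
            exact h1 h8
  · -- there is a deep element which is not in `D2`
    have hlt : (D2 i ε).card + 1 ≤ (Dp i ε).card := by
      have h1 : D2 i ε ⊂ Dp i ε :=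
        Finset.ssubset_iff_subset_ne.2 ⟨D2_subset, fun h => hDD h.symm⟩
      have := card_lt_card h1
      omega
    have f1 : ∑ p ∈ lev α i, ε p = 0 := by omega
    have f2 : ∑ p ∈ A1 i ε, ε p = (A1 i ε).card := by omega
    have f3 : ∑ p ∈ Dp i ε, ε p = (Dp i ε).card + (D2 i ε).card := by omega
    have f5 : (Dp i ε ∩ Fo i ε).card = 0 := by omega
    have f6 : (Yd i ε).card = (A1 i ε).card + ((A1 i ε).filter fun p => ¬ nd i ε p).card := by
      omega
    have f7 : (Dp i ε).card = (D2 i ε).card + 1 := by omega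
    have g1 : ∀ p ∈ A1 i ε, ε p = 1 := by
      have : ∑ p ∈ A1 i ε, 1 = ∑ p ∈ A1 i ε, ε p := by rw [f2, ← card_eq_sum_ones]
      have h := (Finset.sum_eq_sum_iff_of_le (fun p hp => by
        rw [mem_A1] at hp
        omega : ∀ p ∈ A1 i ε, 1 ≤ ε p)).1 this
      exact fun p hp => (h p hp).symm
    have g3 : ∀ y, corank y = i → ε y = 0 := fun y hy =>
      (Finset.sum_eq_zero_iff.1 f1) y (mem_lev.2 hy)
    have g2 : ∀ r ∈ Dp i ε, ε r = 1 + if r ∈ D2 i ε then 1 else 0 := by
      have : ∑ r ∈ Dp i ε, (1 + if r ∈ D2 i ε then 1 else 0) = ∑ r ∈ Dp i ε, ε r := by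
        rw [f3, sum_add_distrib, ← card_eq_sum_ones, sum_boole, Nat.cast_id, filter_mem_eq_inter,
          inter_eq_right.2 D2_subset]
      have h := (Finset.sum_eq_sum_iff_of_le (fun r hr => by
        rw [mem_Dp] at hr
        split_ifs with h
        · rw [mem_D2] at h
          omega
        · omega : ∀ r ∈ Dp i ε, (1 + if r ∈ D2 i ε then 1 else 0) ≤ ε r)).1 this
      exact fun p hp => (h p hp).symm
    -- there is no element with value two
    have hD2 : D2 i ε = ∅ := by
      rw [eq_empty_iff_forall_notMem]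
      intro r hr
      have hrD := D2_subset hr
      have hr2 := g2 r hrD
      rw [if_pos hr] at hr2
      have hrF : r ∈ Dp i ε ∩ Fo i ε := by
        rw [mem_inter]
        refine ⟨hrD, ?_⟩
        rw [mem_D2] at hr
        rw [Fo, mem_filter]
        refine ⟨mem_univ _, ?_, ?_, ?_⟩
        · intro h
          have := ds_eq_zero.2 h
          omega
        · rintro ⟨s, hs, hs'⟩
          have h1 : s ∈ Dp i ε := mem_Dp.2 ⟨by rw [fr_ds hg hs]; omega, by omega⟩
          have h2 := g2 s h1
          split_ifs at h2 <;> omega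
        · rintro ⟨s, hs, hs'⟩
          have h1 : s ∈ A1 i ε := by
            rw [mem_A1]
            have h2 := fr_ds hg hs
            exact ⟨by omega, by omega⟩
          rw [g1 s h1] at hs'
          omega
      have := card_pos.2 ⟨r, hrF⟩
      omega
    rw [hD2, card_empty] at f7
    obtain ⟨q, hq⟩ := card_eq_one.1 (by omega : (Dp i ε).card = 1)
    have hqD : q ∈ Dp i ε := by rw [hq]; simp
    have hq1 : ε q = 1 := by
      have := g2 q hqD
      rw [hD2] at this
      simpa using this
    have hqds : ds i q = 2 := by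
      rw [mem_Dp] at hqD
      by_contra h
      have hc : corank q ≠ i := by
        intro h
        have := ds_eq_zero.2 h
        omega
      obtain ⟨t, ht⟩ := exists_near hg hl hc
      have h1 := fr_ds hg ht
      have h2 : 0 < ε t := bd_mem_of_deep hg hl hε (mem_Dp.2 hqD) ht
      have h3 : t ∈ Dp i ε := mem_Dp.2 ⟨by omega, h2⟩
      rw [hq, mem_singleton] at h3
      rw [h3] at h1
      omega
    have g9 : A1 i ε = bd i q := by
      apply Finset.Subset.antisymm
      · intro s hs
        obtain ⟨r, hr, hr'⟩ := att_of_mem_A1 hg hred hs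
        rw [hq, mem_singleton] at hr
        rw [mem_bd, ← hr]
        exact hr'
      · intro s hs
        rw [mem_bd] at hs
        have h1 := bd_mem_of_deep hg hl hε hqD hs
        rw [mem_A1]
        have h2 := fr_ds hg hs
        exact ⟨by omega, h1⟩
    have hYA : (Yd i ε).card = 2 * (A1 i ε).card := by
      have h1 : (A1 i ε).filter (fun p => ¬ nd i ε p) = A1 i ε := by
        apply filter_true_of_mem
        rintro s hs ⟨y, hy, hy'⟩
        have h2 : ds i s = 1 := (mem_A1.1 hs).1
        have h3 := fr_ds hg hy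
        have h4 : corank y = i := ds_eq_zero.1 (by omega)
        rw [g3 y h4, g1 s hs] at hy'
        omega
      rw [f6, h1]
      ring
    have hval : ∀ s, s ≠ q → s ∉ A1 i ε → ε s = 0 := by
      intro s h1 h2
      by_cases h4 : corank s = i
      · exact g3 s h4
      · by_contra h5
        have h6 : ds i s ≠ 0 := fun h => h4 (ds_eq_zero.1 h)
        have h7 : ds i s ≠ 1 := fun h => h2 (mem_A1.2 ⟨h, by omega⟩)
        have h8 : s ∈ Dp i ε := mem_Dp.2 ⟨by omega, by omega⟩
        rw [hq, mem_singleton] at h8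
        exact h1 h8
    have hYs := Yd_sub (i := i) (ε := ε) hg
    have hdq := hdeg q
    have hdq0 : (bd i q).Nonempty := by
      have hc : corank q ≠ i := by
        intro h
        have := ds_eq_zero.2 h
        omega
      obtain ⟨t, ht⟩ := exists_near hg hl hc
      exact ⟨t, mem_bd.2 ht⟩
    have hcp := card_pos.2 hdq0
    rcases Nat.lt_or_ge (bd i q).card 2 with hc | hc
    · left
      obtain ⟨p, hp⟩ := card_eq_one.1 (by omega : (bd i q).card = 1)
      refine ⟨p, q, hqds, hp, ?_, ?_⟩
      · have h1 := card_le_card hYs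
        rw [hYA, g9, hp, card_singleton, singleton_biUnion] at h1
        have h2 : (dn1 i ε p).card ≤ (bd i p).card := card_filter_le _ _
        have := hdeg p
        omega
      · funext s
        by_cases h1 : s = q
        · rw [h1, hq1, ind_mem (by simp)]
        · by_cases h2 : s ∈ A1 i ε
          · rw [g1 s h2, ind_mem]
            rw [g9, hp] at h2
            simp only [mem_insert, mem_singleton] at h2 ⊢
            tauto
          · rw [hval s h1 h2, ind_notMem]
            simp only [mem_insert, mem_singleton]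
            rintro (rfl | rfl)
            · exact h2 (by rw [g9, hp]; simp)
            · exact h1 rfl
    · right
      obtain ⟨p, p', hpp, hp⟩ := card_eq_two.1 (by omega : (bd i q).card = 2)
      refine ⟨p, p', q, hqds, hpp, hp, ?_, Or.inl ?_⟩
      · have h1 := card_le_card hYs
        rw [hYA, g9, hp, card_pair hpp] at h1
        have h2 : ({p, p'} : Finset α).biUnion (dn1 i ε) ⊆ bd i p ∪ bd i p' := by
          intro y hy
          rw [mem_biUnion] at hy
          obtain ⟨s, hs, hy⟩ := hy
          rw [dn1, mem_filter] at hy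
          rw [mem_insert, mem_singleton] at hs
          rw [mem_union]
          rcases hs with rfl | rfl
          · exact Or.inl hy.1
          · exact Or.inr hy.1
        have h3 := h1.trans (card_le_card h2)
        have h4 := card_union_le (bd i p) (bd i p')
        have h5 := hdeg p
        have h6 := hdeg p'
        omega
      · funext s
        by_cases h1 : s = q
        · rw [h1, hq1, ind_mem (by simp)]
        · by_cases h2 : s ∈ A1 i ε
          · rw [g1 s h2, ind_mem]
            rw [g9, hp] at h2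
            simp only [mem_insert, mem_singleton] at h2 ⊢
            tauto
          · rw [hval s h1 h2, ind_notMem]
            simp only [mem_insert, mem_singleton]
            rintro (rfl | rfl | rfl)
            · exact h2 (by rw [g9, hp]; simp)
            · exact h2 (by rw [g9, hp]; simp)
            · exact h1 rfl

end excess

end Pool.Gauss.Deep1
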