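import Pool.Agent.Work.MP_065141_co.Cfg

/-!
# Energy functions whose far part takes the values 0 and 1

Level `i` fixed. `e` is an energy function which vanishes on the elements next to level `i` and is
at most `1` on the elements at distance at least two from level `i` (a closed set). We sum over
all energies of the elements next to level `i`: the result is a product of local factors.
-/

set_option autoImplicit false
set_option linter.unusedSectionVars false
set_option linter.unusedVariables false
open scoped Classical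
open Finset Polynomial

namespace Pool.Gauss

variable {α : Type} [Fintype α] [PartialOrder α] {i : ℕ}

/-- the elements next to level `i` -/
noncomputable def N1 (α : Type) [Fintype α] [PartialOrder α] (i : ℕ) : Finset α :=
  univ.filter fun p => ds i p = 1

lemma mem_N1 {p : α} : p ∈ N1 α i ↔ ds i p = 1 := by simp [N1]

/-- splitting a sum over energy functions -/
lemma sum_piAntidiag_compl {R : Type} [AddCommMonoid R] (D : Finset α) (J : ℕ)
    (F : (α → ℕ) → R) :
    ∑ ε ∈ (univ : Finset α).piAntidiag J, F ε =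
      ∑ s ∈ range (J + 1), ∑ e ∈ (Dᶜ).piAntidiag s, ∑ κ ∈ D.piAntidiag (J - s), F (e + κ) := by
  rw [Finset.sum_congr rfl fun s _ => Finset.sum_sigma' _ _ _, Finset.sum_sigma']
  symm
  refine Finset.sum_bij' (fun x _ => x.2.1 + x.2.2)
    (fun ε _ => ⟨∑ p ∈ Dᶜ, ε p, fun p => if p ∈ D then 0 else ε p,
      fun p => if p ∈ D then ε p else 0⟩) ?_ ?_ ?_ ?_ ?_
  · rintro ⟨s, e, κ⟩ hx
    rw [mem_sigma, mem_sigma, mem_piAntidiag, mem_piAntidiag, mem_range] at hx
    obtain ⟨h1, ⟨h2, h3⟩, h4, h5⟩ := hx
    simp only at h1 h2 h3 h4 h5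
    rw [mem_piAntidiag]
    refine ⟨?_, fun _ _ => mem_univ _⟩
    simp only [Pi.add_apply]
    rw [Finset.sum_add_distrib]
    have h6 : ∑ p, κ p = ∑ p ∈ D, κ p := by
      symm
      apply Finset.sum_subset (subset_univ _)
      intro p _ hp
      by_contra h
      exact hp (h5 p h)
    have h7 : ∑ p, e p = ∑ p ∈ Dᶜ, e p := by
      symm
      apply Finset.sum_subset (subset_univ _)
      intro p _ hp
      by_contra h
      exact hp (h3 p h)
    rw [h6, h7, h4, h2]
    omega
  · intro ε hε
    rw [mem_piAntidiag] at hε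
    have h0 := Finset.sum_add_sum_compl D ε
    have hJ : ∑ p, ε p = J := hε.1
    rw [mem_sigma, mem_sigma, mem_piAntidiag, mem_piAntidiag, mem_range]
    refine ⟨by simp only; omega, ⟨?_, ?_⟩, ?_, ?_⟩
    · simp only
      apply Finset.sum_congr rfl
      intro p hp
      rw [if_neg (mem_compl.1 hp)]
    · intro p hp
      simp only at hp
      rw [mem_compl]
      intro h
      rw [if_pos h] at hp
      exact hp rfl
    · simp only
      have h1 : ∑ p ∈ D, (if p ∈ D then ε p else 0) = ∑ p ∈ D, ε p := by
        apply Finset.sum_congr rfl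
        intro p hp
        rw [if_pos hp]
      rw [h1]
      omega
    · intro p hp
      simp only at hp
      by_contra h
      rw [if_neg h] at hp
      exact hp rfl
  · rintro ⟨s, e, κ⟩ hx
    rw [mem_sigma, mem_sigma, mem_piAntidiag, mem_piAntidiag, mem_range] at hx
    obtain ⟨h1, ⟨h2, h3⟩, h4, h5⟩ := hx
    simp only at h1 h2 h3 h4 h5
    have he : ∀ p ∈ D, e p = 0 := by
      intro p hp
      by_contra h
      exact (mem_compl.1 (h3 p h)) hp
    have hκ : ∀ p, p ∉ D → κ p = 0 := by
      intro p hp
      by_contra h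
      exact hp (h5 p h)
    have h6 : (fun p => if p ∈ D then 0 else (e + κ) p) = e := by
      funext p
      split_ifs with h
      · exact (he p h).symm
      · simp [hκ p h]
    have h7 : (fun p => if p ∈ D then (e + κ) p else 0) = κ := by
      funext p
      split_ifs with h
      · simp [he p h]
      · exact (hκ p h).symm
    have h8 : ∑ p ∈ Dᶜ, (e + κ) p = s := by
      rw [← h2]
      apply Finset.sum_congr rfl
      intro p hp
      simp [hκ p (mem_compl.1 hp)]
    simp only
    rw [h6, h7, h8]
  · intro ε _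
    funext p
    simp only [Pi.add_apply]
    split_ifs <;> simp
  · rintro ⟨s, e, κ⟩ _
    rfl

/-! ### far parts with values 0 and 1 -/

/-- the far part of `e` takes the values `0` and `1` on a closed set, and `e` vanishes next to
level `i` -/
structure Far01 (i : ℕ) (e : α → ℕ) : Prop where
  near : ∀ p, ds i p = 1 → e p = 0
  le : ∀ p, 2 ≤ ds i p → e p ≤ 1
  clo : ∀ p q, fr i p q → 2 ≤ ds i p → 0 < e q → 0 < e p

/-- the energies `κ` next to level `i` which are allowed -/
def NearOK (i : ℕ) (e κ : α → ℕ) : Prop :=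
  (∀ p, κ p ≠ 0 → ds i p = 1) ∧ ∀ p, ds i p = 1 → att i e p → 0 < κ p

lemma far01_of_good (hg : Grad α) (hl : HasLower α i) {e κ : α → ℕ}
    (hnear : ∀ p, ds i p = 1 → e p = 0) (hle : ∀ p, 2 ≤ ds i p → e p ≤ 1)
    (hκ : ∀ p, κ p ≠ 0 → ds i p = 1) (hε : GoodE i (e + κ)) :
    Far01 i e ∧ NearOK i e κ := by
  have hκ0 : ∀ p, ds i p ≠ 1 → κ p = 0 := by
    intro p hp
    by_contra h
    exact hp (hκ p h)
  refine ⟨⟨hnear, hle, ?_⟩, hκ, ?_⟩
  · intro p q hpq hp hq
    have h1 := closure hg hl hε hpq (by
      intro h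
      rw [ds_eq_zero.2 h] at hp
      omega) (by simp only [Pi.add_apply]; omega)
    simp only [Pi.add_apply] at h1
    rw [hκ0 p (by omega)] at h1
    omega
  · intro p hp hatt
    rw [att_iff hg hp] at hatt
    obtain ⟨q, hq, hq'⟩ := hatt
    have h1 := closure hg hl hε hq (by
      intro h
      rw [ds_eq_zero.2 h] at hp
      omega) (by simp only [Pi.add_apply]; omega)
    simp only [Pi.add_apply] at h1
    rw [hnear p hp] at h1
    omega

section

variable (hg : Grad α) (hl : HasLower α i) {e κ : α → ℕ} (hF : Far01 i e) (hN : NearOK i e κ)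

include hN in
lemma kap_zero {p : α} (hp : ds i p ≠ 1) : κ p = 0 := by
  by_contra h
  exact hp (hN.1 p h)

include hg hF hN in
/-- no far or near element is dominated from far -/
lemma far01_not_fd {p : α} (hp : corank p ≠ i) : ¬ fd i (e + κ) p := by
  rintro ⟨q, hq, h1⟩
  have h2 := fr_ds hg hq
  have h0 : ds i p ≠ 0 := fun h => hp (ds_eq_zero.1 h)
  simp only [Pi.add_apply] at h1
  rw [kap_zero hN (p := q) (by omega)] at h1
  have h3 := hF.le q (by omega)
  rcases Nat.lt_or_ge (ds i p) 2 with h4 | h4
  · have h5 : ds i p = 1 := by omega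
    have h6 := hN.2 p h5 ((att_iff hg h5).2 ⟨q, hq, by omega⟩)
    omega
  · have h5 := hF.clo p q hq h4 (by omega)
    omega

include hg hl hF hN in
/-- every far element is dominated by a nearer neighbour -/
lemma far01_nd {p : α} (hp : 2 ≤ ds i p) : nd i (e + κ) p := by
  obtain ⟨t, ht⟩ := exists_near hg hl (p := p) (fun h => by
    rw [ds_eq_zero.2 h] at hp
    omega)
  refine ⟨t, ht, ?_⟩
  have h2 := fr_ds hg ht
  simp only [Pi.add_apply]
  rw [kap_zero hN (p := p) (by omega)]
  have h3 := hF.le p hp
  by_cases h4 : e p = 0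
  · omega
  · rcases Nat.lt_or_ge (ds i t) 2 with h5 | h5
    · have h6 : ds i t = 1 := by omega
      have h7 := hN.2 t h6 ((att_iff hg h6).2 ⟨p, ht, by omega⟩)
      omega
    · have h7 := hF.clo t p ht h5 (by omega)
      omega

include hg hl hF hN in
/-- the factor of an element next to level `i` -/
lemma om_near {p : α} (hp : ds i p = 1) :
    om (inE i (e + κ) p) (outE i (e + κ) p) =
      if corank p + 1 = i then (if (∃ y, y ⋖ p ∧ κ p ≤ e y) then (X - 1 : ℤ[X]) else X)
      else (if ∃ y, p ⋖ y ∧ κ p ≤ e y then 1 else X) := by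
  have hp' : corank p ≠ i := by
    intro h
    rw [ds_eq_zero.2 h] at hp
    omega
  have hfd := far01_not_fd hg hF hN hp'
  have hpe : (e + κ) p = κ p := by
    simp only [Pi.add_apply]
    rw [hF.near p hp]
    omega
  have hlev : ∀ y : α, corank y = i → (e + κ) y = e y := by
    intro y hy
    simp only [Pi.add_apply]
    rw [kap_zero hN (p := y) (by rw [ds_eq_zero.2 hy]; omega)]
    omega
  rcases lt_or_gt_of_ne hp' with h | h
  · have h1 : corank p + 1 = i := by
      unfold ds at hp
      omega
    rw [if_pos h1]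
    have h4 : ¬ outE i (e + κ) p := fun h2 => hfd ((fd_above hg h).2 h2)
    have h5 : inE i (e + κ) p ↔ ∃ y, y ⋖ p ∧ κ p ≤ e y := by
      rw [inE_lt h, hpe]
      constructor
      · rintro (h6 | ⟨y, hy, h6⟩)
        · have h7 : κ p = 0 := by omega
          obtain ⟨q, hq⟩ := hl p h
          have h8 := hg q p hq
          exact ⟨q, hq, by omega⟩
        · have h7 := hg y p hy
          rw [hlev y (by omega)] at h6
          exact ⟨y, hy, h6⟩
      · rintro ⟨y, hy, h6⟩
        right
        have h7 := hg y p hy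
        refine ⟨y, hy, ?_⟩
        rw [hlev y (by omega)]
        exact h6
    unfold om
    simp only [h4, h5, if_false]
  · have h1 : corank p = i + 1 := by
      unfold ds at hp
      omega
    rw [if_neg (by omega)]
    have h4 : ¬ inE i (e + κ) p := fun h2 => hfd ((fd_below hg h).2 h2)
    have h5 : outE i (e + κ) p ↔ ∃ y, p ⋖ y ∧ κ p ≤ e y := by
      rw [outE_gt h, hpe]
      apply exists_congr
      intro y
      apply and_congr_right
      intro hy
      have h7 := hg p y hy
      rw [hlev y (by omega)]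
    unfold om
    simp only [h4, h5, if_false]

include hg hF hN in
lemma far01_not_outE_lev {y : α} (hy : corank y = i) :
    ¬ outE i (e + κ) y ↔ ∀ z, ds i z = 1 → y ⋖ z → κ z ≤ e y := by
  have h0 : κ y = 0 := kap_zero hN (by rw [ds_eq_zero.2 hy]; omega)
  rw [outE_lev hy]
  constructor
  · intro h z hz hyz
    by_contra h1
    exact h ⟨z, hyz, by simp only [Pi.add_apply]; rw [h0, hF.near z hz]; omega⟩
  · rintro h ⟨z, hz, h3⟩
    have h4 := hg y z hz
    have h5 : ds i z = 1 := by unfold ds; omega
    have h6 := h z h5 hz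
    simp only [Pi.add_apply] at h3
    rw [h0, hF.near z h5] at h3
    omega

include hg hF hN in
lemma far01_not_inE_lev {y : α} (hy : corank y = i) :
    ¬ inE i (e + κ) y ↔ ∀ x, ds i x = 1 → x ⋖ y → κ x ≤ e y := by
  have h0 : κ y = 0 := kap_zero hN (by rw [ds_eq_zero.2 hy]; omega)
  rw [inE_lev hy]
  constructor
  · intro h z hz hyz
    by_contra h1
    exact h ⟨z, hyz, by simp only [Pi.add_apply]; rw [h0, hF.near z hz]; omega⟩
  · rintro h ⟨z, hz, h3⟩
    have h4 := hg z y hz
    have h5 : ds i z = 1 := by unfold ds; omega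
    have h6 := h z h5 hz
    simp only [Pi.add_apply] at h3
    rw [h0, hF.near z h5] at h3
    omega

include hg hl hF hN in
/-- **the weight of an energy function with far part 0/1** -/
theorem tm_far01 : tm i (e + κ) =
    (X - 1) ^ (univ.filter fun p : α => corank p + 1 < i).card *
      ∑ S ∈ (lev α i).powerset, (X - 1) ^ S.card * ∏ p ∈ N1 α i, Om i e S p (κ p) := by
  rw [tm_eq_prod]
  have hdisj : Disjoint (lev α i) (N1 α i) := by
    rw [Finset.disjoint_left]
    intro p hp hp'
    rw [mem_lev] at hp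
    rw [mem_N1, ds_eq_zero.2 hp] at hp'
    omega
  have huniv : (univ : Finset α) = (univ.filter fun p : α => 2 ≤ ds i p) ∪
      (lev α i ∪ N1 α i) := by
    ext p
    rw [mem_union, mem_union, mem_filter, mem_lev, mem_N1, ← ds_eq_zero (i := i)]
    simp only [mem_univ, true_and, true_iff]
    omega
  have hdisj2 : Disjoint (univ.filter fun p : α => 2 ≤ ds i p) (lev α i ∪ N1 α i) := by
    rw [Finset.disjoint_left]
    intro p hp hp'
    rw [mem_filter] at hp
    rw [mem_union, mem_lev, mem_N1, ← ds_eq_zero (i := i)] at hp'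
    omega
  have hprod : ∏ p : α, om (inE i (e + κ) p) (outE i (e + κ) p) =
      (∏ p ∈ univ.filter (fun p : α => 2 ≤ ds i p), om (inE i (e + κ) p) (outE i (e + κ) p)) *
      ((∏ p ∈ lev α i, om (inE i (e + κ) p) (outE i (e + κ) p)) *
        ∏ p ∈ N1 α i, om (inE i (e + κ) p) (outE i (e + κ) p)) := by
    rw [← Finset.prod_union hdisj, ← Finset.prod_union hdisj2, ← huniv]
  rw [hprod]
  have h1 : ∏ p ∈ univ.filter (fun p : α => 2 ≤ ds i p),
      om (inE i (e + κ) p) (outE i (e + κ) p) =
      (X - 1) ^ (univ.filter fun p : α => corank p + 1 < i).card := by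
    have g1 : ∀ p ∈ univ.filter (fun p : α => 2 ≤ ds i p),
        om (inE i (e + κ) p) (outE i (e + κ) p) =
        if corank p + 1 < i then (X - 1 : ℤ[X]) else 1 := by
      intro p hp
      rw [mem_filter] at hp
      have g2 : corank p ≠ i := by
        intro h
        rw [ds_eq_zero.2 h] at hp
        omega
      have g3 := far01_not_fd hg hF hN g2
      have g4 := far01_nd hg hl hF hN hp.2
      rcases lt_or_gt_of_ne g2 with h | h
      · have g5 : ¬ outE i (e + κ) p := fun h2 => g3 ((fd_above hg h).2 h2)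
        have g6 : inE i (e + κ) p := by
          rw [nd_above_iff hg h] at g4
          rw [inE_lt h]
          exact Or.inr g4
        have g7 : corank p + 1 < i := by
          have := hp.2
          unfold ds at this
          omega
        rw [if_pos g7]
        simp [om, g5, g6]
      · have g5 : ¬ inE i (e + κ) p := fun h2 => g3 ((fd_below hg h).2 h2)
        have g6 : outE i (e + κ) p := (nd_below hg h).1 g4
        rw [if_neg (by omega)]
        simp [om, g5, g6]
    rw [Finset.prod_congr rfl g1, Finset.prod_ite, prod_const, prod_const_one, mul_one,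
      Finset.filter_filter]
    congr 2
    ext p
    rw [mem_filter, mem_filter]
    constructor
    · rintro ⟨_, _, h⟩
      exact ⟨mem_univ _, h⟩
    · rintro ⟨_, h⟩
      refine ⟨mem_univ _, ?_, h⟩
      unfold ds
      omega
  rw [h1, prod_om_eq, Finset.sum_mul]
  congr 1
  apply Finset.sum_congr rfl
  intro S hS
  rw [mem_powerset] at hS
  have h2 : ∏ p ∈ N1 α i, Om i e S p (κ p) =
      if (∀ p ∈ N1 α i, (if corank p + 1 = i then (∀ y, y ⋖ p → y ∈ S → κ p ≤ e y)
        else (∀ y, p ⋖ y → y ∉ S → κ p ≤ e y))) then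
      ∏ p ∈ N1 α i, om (inE i (e + κ) p) (outE i (e + κ) p) else 0 := by
    have h0 := prod_ite_zero' (N1 α i)
      (fun p => if corank p + 1 = i then (∀ y, y ⋖ p → y ∈ S → κ p ≤ e y)
        else (∀ y, p ⋖ y → y ∉ S → κ p ≤ e y))
      (fun p => om (inE i (e + κ) p) (outE i (e + κ) p))
    refine Eq.trans ?_ h0
    apply Finset.prod_congr rfl
    intro p hp
    rw [om_near hg hl hF hN (mem_N1.1 hp)]
    unfold Om OmZ OmX
    split_ifs <;> rfl
  rw [h2]
  have h3 : ((∀ y ∈ S, ¬ outE i (e + κ) y) ∧ (∀ y ∈ lev α i \ S, ¬ inE i (e + κ) y)) ↔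
      (∀ p ∈ N1 α i, (if corank p + 1 = i then (∀ y, y ⋖ p → y ∈ S → κ p ≤ e y)
        else (∀ y, p ⋖ y → y ∉ S → κ p ≤ e y))) := by
    constructor
    · rintro ⟨h4, h5⟩ p hp
      rw [mem_N1] at hp
      split_ifs with h6
      · intro y hy hyS
        exact (far01_not_outE_lev hg hF hN (mem_lev.1 (hS hyS))).1 (h4 y hyS) p hp hy
      · intro y hy hyS
        have h8 := hg p y hy
        have h9 : y ∈ lev α i \ S := by
          rw [mem_sdiff, mem_lev]
          refine ⟨?_, hyS⟩
          unfold ds at hp
          omega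
        exact (far01_not_inE_lev hg hF hN (mem_lev.1 (mem_sdiff.1 h9).1)).1 (h5 y h9) p hp hy
    · intro h6
      constructor
      · intro y hy
        rw [far01_not_outE_lev hg hF hN (mem_lev.1 (hS hy))]
        intro z hz hyz
        have h7 := h6 z (mem_N1.2 hz)
        have h8 := hg y z hyz
        have h9 := mem_lev.1 (hS hy)
        rw [if_pos (by omega)] at h7
        exact h7 y hyz hy
      · intro y hy
        rw [mem_sdiff, mem_lev] at hy
        rw [far01_not_inE_lev hg hF hN hy.1]
        intro x hx hxy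
        have h7 := h6 x (mem_N1.2 hx)
        have h8 := hg x y hxy
        rw [if_neg (by omega)] at h7
        exact h7 y hxy hy.2
  by_cases h5 : (∀ p ∈ N1 α i, (if corank p + 1 = i then (∀ y, y ⋖ p → y ∈ S → κ p ≤ e y)
        else (∀ y, p ⋖ y → y ∉ S → κ p ≤ e y)))
  · rw [if_pos (h3.2 h5), if_pos h5]
  · rw [if_neg (fun h => h5 (h3.1 h)), if_neg h5]
    simp

end

/-- the truncated local factor: the energy `0` is forbidden for an attached element -/
noncomputable def Omt (i : ℕ) (e : α → ℕ) (S : Finset α) (p : α) (a : ℕ) : ℤ[X] :=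
  if att i e p ∧ a = 0 then 0 else Om i e S p a

/-- **the sum over the energies next to level `i`**, far part 0/1 -/
theorem sum_far01 (hg : Grad α) (hl : HasLower α i) {e : α → ℕ} (hF : Far01 i e) (N : ℕ) :
    ∑ κ ∈ (N1 α i).piAntidiag N, tm i (e + κ) =
      (X - 1) ^ (univ.filter fun p : α => corank p + 1 < i).card *
      ∑ S ∈ (lev α i).powerset, (X - 1) ^ S.card *
        PowerSeries.coeff N (∏ p ∈ N1 α i, PowerSeries.mk (Omt i e S p)) := by
  have h1 : ∀ κ ∈ (N1 α i).piAntidiag N, tm i (e + κ) =
      (X - 1) ^ (univ.filter fun p : α => corank p + 1 < i).card *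
      ∑ S ∈ (lev α i).powerset, (X - 1) ^ S.card * ∏ p ∈ N1 α i, Omt i e S p (κ p) := by
    intro κ hκ
    rw [mem_piAntidiag] at hκ
    have hκ1 : ∀ p, κ p ≠ 0 → ds i p = 1 := fun p hp => mem_N1.1 (hκ.2 p hp)
    by_cases hN : NearOK i e κ
    · rw [tm_far01 hg hl hF hN]
      congr 1
      apply Finset.sum_congr rfl
      intro S _
      congr 1
      apply Finset.prod_congr rfl
      intro p hp
      unfold Omt
      rw [if_neg]
      rintro ⟨h2, h3⟩
      have := hN.2 p (mem_N1.1 hp) h2
      omega
    · have h2 : tm i (e + κ) = 0 := by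
        unfold tm
        rw [if_neg]
        intro hε
        exact hN (far01_of_good hg hl hF.near hF.le hκ1 hε).2
      have h3 : ∃ p, ds i p = 1 ∧ att i e p ∧ κ p = 0 := by
        by_contra h4
        push Not at h4
        exact hN ⟨hκ1, fun p hp hatt => Nat.pos_of_ne_zero (h4 p hp hatt)⟩
      obtain ⟨p, hp, hatt, hp0⟩ := h3
      rw [h2]
      symm
      apply mul_eq_zero_of_right
      apply Finset.sum_eq_zero
      intro S _
      apply mul_eq_zero_of_right
      apply Finset.prod_eq_zero (mem_N1.2 hp)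
      unfold Omt
      rw [if_pos ⟨hatt, hp0⟩]
  rw [Finset.sum_congr rfl h1, ← Finset.mul_sum, Finset.sum_comm]
  congr 1
  apply Finset.sum_congr rfl
  intro S _
  rw [← Finset.mul_sum, sum_piAntidiag_eq_coeff]

/-- the sum vanishes if the far part is at most one but not closed -/
theorem sum_far_not (hg : Grad α) (hl : HasLower α i) {e : α → ℕ}
    (hnear : ∀ p, ds i p = 1 → e p = 0) (hle : ∀ p, 2 ≤ ds i p → e p ≤ 1)
    (hF : ¬ Far01 i e) (N : ℕ) :
    ∑ κ ∈ (N1 α i).piAntidiag N, tm i (e + κ) = 0 := by
  apply Finset.sum_eq_zero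
  intro κ hκ
  rw [mem_piAntidiag] at hκ
  have hκ1 : ∀ p, κ p ≠ 0 → ds i p = 1 := fun p hp => mem_N1.1 (hκ.2 p hp)
  unfold tm
  rw [if_neg]
  intro hε
  exact hF (far01_of_good hg hl hnear hle hκ1 hε).1

end Pool.Gauss
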