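import Pool.Agent.Work.MP_065141_co.K.DeepA

/-!
# Reduced energy functions with a far energy at least two

`ε` reduced (zero on the elements next to level `i` which are not attached) and good. The excess is
`|ε| + |Fo| - |Yd|`. If some element at distance at least two has energy at least two, then the
excess is at least one, it is one only for energy two on an element `q` over four elements of level
`i` and energy one on its two nearer neighbours, and it is two with total energy at most four only
for the same functions.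
-/

set_option autoImplicit false
set_option linter.unusedSectionVars false
set_option linter.unusedVariables false
open scoped Classical
open Finset Polynomial

namespace Pool.Gauss

variable {α : Type} [Fintype α] [PartialOrder α] {i : ℕ}

/-- an element at distance two with energy two and its nearer neighbours with energy one -/
noncomputable def cfQ (i : ℕ) (q : α) : α → ℕ := ind ({q} ∪ bd i q) + ind {q}

/-- zero on all elements next to level `i` which are not attached -/
def RedE (i : ℕ) (ε : α → ℕ) : Prop := ∀ p, ds i p = 1 → ¬ att i ε p → ε p = 0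

/-- nearer neighbours of `q` with smaller energy -/
noncomputable def Dq (i : ℕ) (ε : α → ℕ) (q : α) : Finset α := (bd i q).filter fun p => ε p < ε q

/-- elements at distance two with energy at least two -/
noncomputable def M2 (i : ℕ) (ε : α → ℕ) : Finset α := univ.filter fun q => ds i q = 2 ∧ 2 ≤ ε q

/-- free elements at distance at least two -/
noncomputable def FoF (i : ℕ) (ε : α → ℕ) : Finset α := (Fo i ε).filter fun p => 2 ≤ ds i p

/-- free elements next to level `i` -/
noncomputable def FoN (i : ℕ) (ε : α → ℕ) : Finset α := (Fo i ε).filter fun p => ds i p = 1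

lemma mem_FoB {ε : α → ℕ} {p : α} : p ∈ Fo i ε ↔ corank p ≠ i ∧ ¬ fd i ε p ∧ ¬ nd i ε p := by
  simp [Fo]

lemma card_Fo_eq {ε : α → ℕ} : (Fo i ε).card = (FoN i ε).card + (FoF i ε).card := by
  unfold FoN FoF
  rw [← card_union_of_disjoint]
  · congr 1
    ext p
    rw [mem_union, mem_filter, mem_filter]
    constructor
    · intro h
      have h1 := (mem_FoB.1 h).1
      have h2 : ds i p ≠ 0 := fun h3 => h1 (ds_eq_zero.1 h3)
      by_cases h3 : ds i p = 1
      · exact Or.inl ⟨h, h3⟩
      · exact Or.inr ⟨h, by omega⟩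
    · rintro (h | h)
      · exact h.1
      · exact h.1
  · rw [Finset.disjoint_left]
    intro p h1 h2
    rw [mem_filter] at h1 h2
    omega

/-- the basic inequality -/
lemma basic_excess (hg : Grad α) (hl : HasLower α i) (hdeg : ∀ p : α, (bd i p).card ≤ 2)
    {ε : α → ℕ} :
    (Yd i ε).card ≤ (Ax i ε).card + (FoN i ε).card + ∑ q ∈ M2 i ε, (Dq i ε q).card := by
  set Yp : α → Finset α := fun p => (bd i p).filter fun y => ε y < ε p with hYp
  set Ak := (Ax i ε).filter (fun p => nd i ε p) with hAk
  set Af := (Ax i ε).filter (fun p => fd i ε p) with hAf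
  have h1 : Yd i ε ⊆ (Ax i ε).biUnion Yp := by
    intro y hy
    rw [mem_Yd] at hy
    obtain ⟨h2, p, h3, h4⟩ := hy
    rw [mem_biUnion]
    refine ⟨p, ?_, ?_⟩
    · rw [mem_Ax, fr_ds hg h3, ds_eq_zero.2 h2]
      exact ⟨rfl, by omega⟩
    · rw [hYp]
      simp only [mem_filter]
      exact ⟨mem_bd.2 h3, h4⟩
  have h2 : (Yd i ε).card ≤ ∑ p ∈ Ax i ε, (Yp p).card := (card_le_card h1).trans card_biUnion_le
  have h3 : ∀ p ∈ Ax i ε, (Yp p).card + (if p ∈ Ak then 1 else 0) ≤ 2 := by
    intro p hp
    have g1 := hdeg p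
    have g2 : (Yp p).card ≤ (bd i p).card := card_filter_le _ _
    split_ifs with g3
    · rw [hAk, mem_filter] at g3
      obtain ⟨_, t, ht, ht2⟩ := g3
      have g4 : Yp p ⊂ bd i p := by
        rw [Finset.ssubset_iff_of_subset (filter_subset _ _)]
        refine ⟨t, mem_bd.2 ht, ?_⟩
        rw [mem_filter]
        rintro ⟨_, h⟩
        omega
      have := card_lt_card g4
      omega
    · omega
  have h4 : ∑ p ∈ Ax i ε, (Yp p).card + Ak.card ≤ 2 * (Ax i ε).card := by
    have g1 := Finset.sum_le_sum h3
    rw [Finset.sum_add_distrib, Finset.sum_const, smul_eq_mul, ← Finset.sum_filter,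
      Finset.sum_const, smul_eq_mul, mul_one] at g1
    have g2 : (Ax i ε).filter (fun p => p ∈ Ak) = Ak := by
      ext p
      rw [mem_filter]
      constructor
      · exact fun h => h.2
      · intro h
        exact ⟨(mem_filter.1 (hAk ▸ h)).1, h⟩
    rw [g2] at g1
    omega
  have h5 : Ax i ε ⊆ (FoN i ε ∪ Ak) ∪ Af := by
    intro p hp
    by_cases g1 : fd i ε p
    · exact mem_union_right _ (mem_filter.2 ⟨hp, g1⟩)
    · by_cases g2 : nd i ε p
      · exact mem_union_left _ (mem_union_right _ (mem_filter.2 ⟨hp, g2⟩))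
      · refine mem_union_left _ (mem_union_left _ ?_)
        unfold FoN
        rw [mem_filter, mem_FoB]
        have := (mem_Ax.1 hp).1
        refine ⟨⟨?_, g1, g2⟩, this⟩
        intro h
        rw [ds_eq_zero.2 h] at this
        omega
  have h6 : (Ax i ε).card ≤ (FoN i ε).card + Ak.card + Af.card :=
    (card_le_card h5).trans ((card_union_le _ _).trans (by
      have := card_union_le (FoN i ε) Ak
      omega))
  have h7 : Af ⊆ (M2 i ε).biUnion (Dq i ε) := by
    intro p hp
    rw [hAf, mem_filter, mem_Ax] at hp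
    obtain ⟨⟨g1, g2⟩, q, hq, g3⟩ := hp
    rw [mem_biUnion]
    refine ⟨q, ?_, ?_⟩
    · unfold M2
      rw [mem_filter, fr_ds hg hq, g1]
      exact ⟨mem_univ _, rfl, by omega⟩
    · unfold Dq
      rw [mem_filter]
      exact ⟨mem_bd.2 hq, g3⟩
  have h8 : Af.card ≤ ∑ q ∈ M2 i ε, (Dq i ε q).card := (card_le_card h7).trans card_biUnion_le
  omega

/-- splitting of the total energy -/
lemma sum_split (ε : α → ℕ) : ∑ p, ε p = ∑ p ∈ lev α i, ε p + ∑ p ∈ N1 α i, ε p +
    ∑ p ∈ univ.filter (fun p => ds i p = 2), ε p +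
    ∑ p ∈ univ.filter (fun p => 3 ≤ ds i p), ε p := by
  have h1 : lev α i = univ.filter (fun p => ds i p = 0) := by
    ext p
    rw [mem_lev, mem_filter, ds_eq_zero]
    simp
  rw [h1]
  unfold N1
  simp_rw [Finset.sum_filter]
  rw [← Finset.sum_add_distrib, ← Finset.sum_add_distrib, ← Finset.sum_add_distrib]
  apply Finset.sum_congr rfl
  intro p _
  have : ds i p = 0 ∨ ds i p = 1 ∨ ds i p = 2 ∨ 3 ≤ ds i p := by omega
  rcases this with h | h | h | h
  · simp [h]
  · simp [h]
  · simp [h]
  · rw [if_neg (by omega), if_neg (by omega), if_neg (by omega), if_pos h]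
    omega

lemma eq_cfQ (hg : Grad α) (hl : HasLower α i) {ε : α → ℕ} (hε : GoodE i ε) (hred : RedE i ε)
    {q : α} (hq : ds i q = 2) (hq2 : ε q = 2) (h0 : ∀ y, corank y = i → ε y = 0)
    (h1 : ∀ p, ds i p = 1 → ε p ≤ 1) (h2 : ∀ r, ds i r = 2 → 0 < ε r → r = q)
    (h3 : ∀ r, 3 ≤ ds i r → ε r = 0) : ε = cfQ i q := by
  funext p
  unfold cfQ
  simp only [Pi.add_apply]
  have hd : ds i p = 0 ∨ ds i p = 1 ∨ ds i p = 2 ∨ 3 ≤ ds i p := by omega
  have hbd : ∀ t ∈ bd i q, ds i t = 1 := fun t ht => ds_of_mem_bd hg hq ht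
  rcases hd with h | h | h | h
  · rw [h0 p (ds_eq_zero.1 h), ind_notMem, ind_notMem]
    · rw [mem_singleton]
      rintro rfl
      omega
    · rw [mem_union, mem_singleton]
      rintro (rfl | h4)
      · omega
      · have := hbd p h4
        omega
  · have hne : p ∉ ({q} : Finset α) := by
      rw [mem_singleton]
      rintro rfl
      omega
    rw [ind_notMem hne, add_zero]
    by_cases h4 : p ∈ bd i q
    · rw [ind_mem (mem_union_right _ h4)]
      have h5 := closure hg hl hε (mem_bd.1 h4) (fun h6 => by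
        rw [ds_eq_zero.2 h6] at h
        omega) (by omega)
      have := h1 p h
      omega
    · rw [ind_notMem (by rw [mem_union]; tauto)]
      apply hred p h
      rw [att_iff hg h]
      rintro ⟨r, hr, hr2⟩
      have h5 := fr_ds hg hr
      have h6 := h2 r (by omega) hr2
      rw [h6] at hr
      exact h4 (mem_bd.2 hr)
  · by_cases h4 : p = q
    · rw [h4, hq2, ind_mem (mem_union_left _ (mem_singleton_self q)), ind_mem (mem_singleton_self q)]
    · have h5 : ε p = 0 := by
        by_contra h6
        exact h4 (h2 p h (by omega))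
      rw [h5, ind_notMem, ind_notMem]
      · rwa [mem_singleton]
      · rw [mem_union, mem_singleton]
        rintro (h6 | h6)
        · exact h4 h6
        · have := hbd p h6
          omega
  · rw [h3 p h, ind_notMem, ind_notMem]
    · rw [mem_singleton]
      rintro rfl
      omega
    · rw [mem_union, mem_singleton]
      rintro (rfl | h4)
      · omega
      · have := hbd p h4
        omega

/-- an excited element at distance at least two has an excited element at distance two -/
lemma exists_excited_two (hg : Grad α) (hl : HasLower α i) {ε : α → ℕ} (hε : GoodE i ε) :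
    ∀ n : ℕ, ∀ q : α, ds i q = n + 2 → 0 < ε q → ∃ r, ds i r = 2 ∧ 0 < ε r := by
  intro n
  induction n with
  | zero => exact fun q h1 h2 => ⟨q, h1, h2⟩
  | succ n ih =>
    intro q h1 h2
    obtain ⟨t, ht⟩ := exists_near hg hl (p := q) (fun h => by
      rw [ds_eq_zero.2 h] at h1
      omega)
    have h3 := fr_ds hg ht
    exact ih t (by omega) (closure hg hl hε ht (fun h => by
      rw [ds_eq_zero.2 h] at h3
      omega) h2)

/-- **classification with a far energy at least two** -/
theorem far2_class (hg : Grad α) (hl : HasLower α i) (hdeg : ∀ p : α, (bd i p).card ≤ 2)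
    {ε : α → ℕ} (hε : GoodE i ε) (hred : RedE i ε) (hfar : ∃ q, 2 ≤ ds i q ∧ 2 ≤ ε q)
    (he : ∑ p, ε p + (Fo i ε).card ≤ (Yd i ε).card + 1 ∨
      (∑ p, ε p + (Fo i ε).card ≤ (Yd i ε).card + 2 ∧ ∑ p, ε p ≤ 4)) :
    ∃ q, ds i q = 2 ∧ ε = cfQ i q := by
  have hB := basic_excess hg hl hdeg (ε := ε)
  have hS := sum_split (i := i) ε
  rw [card_Fo_eq] at he
  -- the elements next to level `i`
  have hA : ∑ p ∈ N1 α i, ε p = ∑ p ∈ Ax i ε, ε p := by
    symm
    apply Finset.sum_subset
    · intro p hp
      exact mem_N1.2 (mem_Ax.1 hp).1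
    · intro p hp hp'
      by_contra h
      exact hp' (mem_Ax.2 ⟨mem_N1.1 hp, Nat.pos_of_ne_zero h⟩)
  have hA1 : (Ax i ε).card ≤ ∑ p ∈ Ax i ε, ε p := by
    rw [Finset.card_eq_sum_ones]
    exact Finset.sum_le_sum fun p hp => (mem_Ax.1 hp).2
  -- the elements at distance two
  set F2 := ∑ p ∈ univ.filter (fun p => ds i p = 2), ε p with hF2
  set F3 := ∑ p ∈ univ.filter (fun p => 3 ≤ ds i p), ε p with hF3
  have hM : ∀ q ∈ M2 i ε, ds i q = 2 ∧ 2 ≤ ε q := fun q hq => (mem_filter.1 hq).2
  have hMle : ∑ q ∈ M2 i ε, ε q ≤ F2 := by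
    apply Finset.sum_le_sum_of_subset
    intro q hq
    rw [mem_filter]
    exact ⟨mem_univ _, (hM q hq).1⟩
  have hDq : ∀ q ∈ M2 i ε, (Dq i ε q).card ≤ ε q := by
    intro q hq
    have h1 : (Dq i ε q).card ≤ (bd i q).card := card_filter_le _ _
    have h2 := hdeg q
    have h3 := (hM q hq).2
    omega
  have hDsum : ∑ q ∈ M2 i ε, (Dq i ε q).card ≤ ∑ q ∈ M2 i ε, ε q := Finset.sum_le_sum hDq
  -- energies at distance three
  have hF3' : F3 ≤ 1 := by
    by_contra h3
    obtain ⟨q, hq, hq'⟩ : ∃ q, 3 ≤ ds i q ∧ 0 < ε q := by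
      by_contra h4
      push Not at h4
      have : F3 = 0 := Finset.sum_eq_zero fun p hp => by
        have := h4 p (mem_filter.1 hp).2
        omega
      omega
    obtain ⟨r, hr, hr'⟩ := exists_excited_two hg hl hε (ds i q - 2) q (by omega) hq'
    have h5 : ε r ≤ F2 := by
      rw [hF2]
      exact Finset.single_le_sum (f := ε) (fun _ _ => Nat.zero_le _)
        (mem_filter.2 ⟨mem_univ _, hr⟩)
    obtain ⟨t, ht⟩ := exists_near hg hl (p := r) (fun h => by
      rw [ds_eq_zero.2 h] at hr
      omega)
    have h6 := fr_ds hg ht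
    have h7 : 0 < ε t := closure hg hl hε ht (fun h => by
      rw [ds_eq_zero.2 h] at h6
      omega) hr'
    have h8 : 0 < (Ax i ε).card := card_pos.2 ⟨t, mem_Ax.2 ⟨by omega, h7⟩⟩
    rcases he with he | ⟨he, h4⟩
    · omega
    · -- then nothing has energy two at distance two
      have h9 : M2 i ε = ∅ := by
        rw [Finset.eq_empty_iff_forall_notMem]
        intro s hs
        have h10 : ε s ≤ ∑ q ∈ M2 i ε, ε q :=
          Finset.single_le_sum (f := ε) (fun _ _ => Nat.zero_le _) hs
        have := (hM s hs).2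
        omega
      rw [h9, Finset.sum_empty] at hB
      omega
  obtain ⟨q0, hq0, hq0'⟩ := hfar
  have hq02 : ds i q0 = 2 := by
    by_contra h
    have h1 : ε q0 ≤ F3 := by
      rw [hF3]
      exact Finset.single_le_sum (f := ε) (fun _ _ => Nat.zero_le _)
        (mem_filter.2 ⟨mem_univ _, by omega⟩)
    omega
  have hq0M : q0 ∈ M2 i ε := mem_filter.2 ⟨mem_univ _, hq02, hq0'⟩
  -- the charge of an element of `M2`
  have hfree : ∀ q ∈ M2 i ε, Dq i ε q = bd i q → q ∈ FoF i ε := by
    intro q hq hD
    unfold FoF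
    rw [mem_filter, mem_FoB]
    obtain ⟨h1, h2⟩ := hM q hq
    refine ⟨⟨?_, ?_, ?_⟩, by omega⟩
    · intro h
      rw [ds_eq_zero.2 h] at h1
      omega
    · rintro ⟨r, hr, hr2⟩
      have h3 := fr_ds hg hr
      have h4 : ε r ≤ F3 := by
        rw [hF3]
        exact Finset.single_le_sum (f := ε) (fun _ _ => Nat.zero_le _)
          (mem_filter.2 ⟨mem_univ _, by omega⟩)
      omega
    · rintro ⟨t, ht, ht2⟩
      have h3 : t ∈ Dq i ε q := by
        rw [hD]
        exact mem_bd.2 ht
      have := (mem_filter.1 h3).2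
      omega
  have hcharge : ∀ q ∈ M2 i ε, (Dq i ε q).card + 1 ≤ ε q + (if q ∈ FoF i ε then 1 else 0) := by
    intro q hq
    have h1 := hdeg q
    have h2 := (hM q hq).2
    by_cases h3 : Dq i ε q = bd i q
    · rw [if_pos (hfree q hq h3), h3]
      omega
    · have h4 : Dq i ε q ⊂ bd i q := Finset.ssubset_iff_subset_ne.2 ⟨filter_subset _ _, h3⟩
      have := card_lt_card h4
      omega
  have hFoF : ∑ q ∈ M2 i ε, (if q ∈ FoF i ε then 1 else 0) ≤ (FoF i ε).card := by
    rw [← Finset.card_filter]
    apply card_le_card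
    intro q hq
    exact (mem_filter.1 hq).2
  have hcs := Finset.sum_le_sum hcharge
  rw [Finset.sum_add_distrib, Finset.sum_add_distrib, Finset.sum_const, smul_eq_mul, mul_one]
    at hcs
  -- finish by `eq_cfQ`
  have hbdA : bd i q0 ⊆ Ax i ε := by
    intro t ht
    have h1 := ds_of_mem_bd hg hq02 ht
    rw [mem_Ax]
    exact ⟨h1, closure hg hl hε (mem_bd.1 ht) (fun h => by
      rw [ds_eq_zero.2 h] at h1
      omega) (by omega)⟩
  have hbd1 : 0 < (bd i q0).card := by
    obtain ⟨t, ht⟩ := exists_near hg hl (p := q0) (fun h => by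
      rw [ds_eq_zero.2 h] at hq02
      omega)
    exact card_pos.2 ⟨t, mem_bd.2 ht⟩
  have hbd2 := hdeg q0
  have hfin : ∀ (c0 : ∑ y ∈ lev α i, ε y = 0) (c1 : ∑ p ∈ Ax i ε, ε p = (Ax i ε).card)
      (c2 : F2 = 2) (c3 : F3 = 0), ∃ q, ds i q = 2 ∧ ε = cfQ i q := by
    intro c0 c1 c2 c3
    have e0 : ε q0 ≤ F2 := by
      rw [hF2]
      exact Finset.single_le_sum (f := ε) (fun _ _ => Nat.zero_le _)
        (mem_filter.2 ⟨mem_univ _, hq02⟩)
    refine ⟨q0, hq02, eq_cfQ hg hl hε hred hq02 (by omega) ?_ ?_ ?_ ?_⟩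
    · intro y hy
      exact Finset.sum_eq_zero_iff.1 c0 y (mem_lev.2 hy)
    · intro p hp
      by_cases h1 : p ∈ Ax i ε
      · have h2 : ∀ r ∈ Ax i ε, 1 ≤ ε r := fun r hr => (mem_Ax.1 hr).2
        have h3 := (Finset.sum_eq_sum_iff_of_le (f := fun _ => 1) (g := ε) h2).1 (by
          rw [c1]
          simp) p h1
        omega
      · have : ¬ 0 < ε p := fun h => h1 (mem_Ax.2 ⟨hp, h⟩)
        omega
    · intro r hr hr0
      by_contra hne
      have h1 : ({r, q0} : Finset α) ⊆ univ.filter (fun p => ds i p = 2) := by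
        intro t ht
        rw [mem_insert, mem_singleton] at ht
        rw [mem_filter]
        rcases ht with rfl | rfl
        · exact ⟨mem_univ _, hr⟩
        · exact ⟨mem_univ _, hq02⟩
      have h2 : ∑ p ∈ ({r, q0} : Finset α), ε p ≤ F2 := Finset.sum_le_sum_of_subset h1
      rw [Finset.sum_pair hne] at h2
      omega
    · intro r hr
      exact Finset.sum_eq_zero_iff.1 c3 r (mem_filter.2 ⟨mem_univ _, hr⟩)
  have hMpos : 0 < (M2 i ε).card := card_pos.2 ⟨q0, hq0M⟩
  rcases he with he | ⟨he, h4⟩
  · apply hfin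
    · omega
    · omega
    · -- `M2` is a singleton, and its charge is one
      have g1 : (M2 i ε).card = 1 := by omega
      obtain ⟨q1, hq1⟩ := Finset.card_eq_one.1 g1
      have g2 : q1 = q0 := by
        rw [hq1, mem_singleton] at hq0M
        exact hq0M.symm
      rw [g2] at hq1
      rw [hq1] at hB hcs hMle hFoF hMpos
      simp only [Finset.sum_singleton, card_singleton] at hB hcs hMle hFoF hMpos
      have g3 : ∀ p ∈ Ax i ε, ε p = 1 := by
        intro p hp
        have h2 : ∀ r ∈ Ax i ε, 1 ≤ ε r := fun r hr => (mem_Ax.1 hr).2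
        have h3 := (Finset.sum_eq_sum_iff_of_le (f := fun _ => 1) (g := ε) h2).1 (by
          simp only [Finset.sum_const, smul_eq_mul, mul_one]
          split_ifs at hcs hFoF <;> omega) p hp
        omega
      have g4 : Dq i ε q0 = bd i q0 := by
        unfold Dq
        apply Finset.filter_true_of_mem
        intro p hp
        rw [g3 p (hbdA hp)]
        omega
      have g5 := hfree q0 hq0M g4
      rw [if_pos g5] at hFoF hcs
      rw [g4] at hB
      omega
    · omega
  · have hle : ∑ p ∈ bd i q0, ε p ≤ ∑ p ∈ Ax i ε, ε p := Finset.sum_le_sum_of_subset hbdA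
    have hle1 : (bd i q0).card ≤ (Ax i ε).card := card_le_card hbdA
    have e0 : ε q0 ≤ F2 := by
      rw [hF2]
      exact Finset.single_le_sum (f := ε) (fun _ _ => Nat.zero_le _)
        (mem_filter.2 ⟨mem_univ _, hq02⟩)
    by_cases hb : (bd i q0).card = 2
    · apply hfin <;> omega
    · have hb1 : (bd i q0).card = 1 := by omega
      by_cases hD : Dq i ε q0 = bd i q0
      · have g5 := hfree q0 hq0M hD
        -- charge of `q0`
        have g6 : ∑ q ∈ M2 i ε, (Dq i ε q).card + (M2 i ε).card + ε q0 ≤
            ∑ q ∈ M2 i ε, ε q + ∑ q ∈ M2 i ε, (if q ∈ FoF i ε then 1 else 0) + 1 := by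
          rw [← Finset.sum_erase_add _ _ hq0M, ← Finset.sum_erase_add _ _ hq0M,
            ← Finset.sum_erase_add _ _ hq0M, if_pos g5, hD, hb1]
          have g7 : ∀ q ∈ (M2 i ε).erase q0, (Dq i ε q).card + 1 ≤
              ε q + (if q ∈ FoF i ε then 1 else 0) := fun q hq => hcharge q (mem_of_mem_erase hq)
          have g8 := Finset.sum_le_sum g7
          rw [Finset.sum_add_distrib, Finset.sum_add_distrib, Finset.sum_const, smul_eq_mul,
            mul_one, card_erase_of_mem hq0M] at g8
          omega
        have g1 : (M2 i ε).card = 1 := by omega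
        obtain ⟨q1, hq1⟩ := Finset.card_eq_one.1 g1
        have g2 : q1 = q0 := by
          rw [hq1, mem_singleton] at hq0M
          exact hq0M.symm
        rw [g2] at hq1
        have g9 : ∑ q ∈ M2 i ε, ε q = ε q0 := by rw [hq1, Finset.sum_singleton]
        apply hfin <;> omega
      · -- then the nearer neighbour has energy at least two
        exfalso
        obtain ⟨p, hp⟩ := Finset.card_eq_one.1 hb1
        have g1 : Dq i ε q0 = ∅ := by
          have g2 : Dq i ε q0 ⊂ bd i q0 := Finset.ssubset_iff_subset_ne.2 ⟨filter_subset _ _, hD⟩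
          have g3 := card_lt_card g2
          rw [← card_eq_zero]
          omega
        have g2 : ε q0 ≤ ε p := by
          by_contra h
          have : p ∈ Dq i ε q0 := by
            unfold Dq
            rw [mem_filter, hp]
            exact ⟨mem_singleton_self p, by omega⟩
          rw [g1] at this
          simp at this
        have hpA : p ∈ Ax i ε := hbdA (by rw [hp]; exact mem_singleton_self p)
        have g3 : (Ax i ε).card + 1 ≤ ∑ r ∈ Ax i ε, ε r := by
          rw [← Finset.sum_erase_add _ _ hpA, ← Finset.card_erase_add_one hpA]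
          have g4 : ((Ax i ε).erase p).card ≤ ∑ r ∈ (Ax i ε).erase p, ε r := by
            rw [Finset.card_eq_sum_ones]
            exact Finset.sum_le_sum fun r hr => (mem_Ax.1 (mem_of_mem_erase hr)).2
          omega
        have g6 : ∑ q ∈ M2 i ε, (Dq i ε q).card + (M2 i ε).card + 1 ≤
            ∑ q ∈ M2 i ε, ε q + ∑ q ∈ M2 i ε, (if q ∈ FoF i ε then 1 else 0) := by
          rw [← Finset.sum_erase_add _ _ hq0M, ← Finset.sum_erase_add _ _ hq0M,
            ← Finset.sum_erase_add _ _ hq0M, g1, card_empty]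
          have g7 : ∀ q ∈ (M2 i ε).erase q0, (Dq i ε q).card + 1 ≤
              ε q + (if q ∈ FoF i ε then 1 else 0) := fun q hq => hcharge q (mem_of_mem_erase hq)
          have g8 := Finset.sum_le_sum g7
          rw [Finset.sum_add_distrib, Finset.sum_add_distrib, Finset.sum_const, smul_eq_mul,
            mul_one, card_erase_of_mem hq0M] at g8
          omega
        omega

end Pool.Gauss
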