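import Pool.Agent.Work.MP_065141_co.K.StarC
import Pool.Agent.Work.MP_065141_co.K.DeepB

/-!
# The exact contribution of a far part with values 0 and 1 in the rescaled ring
-/

set_option autoImplicit false
set_option linter.unusedSectionVars false
set_option linter.unusedVariables false
open scoped Classical
open Finset Polynomial

namespace Pool.Gauss

variable {α : Type} [Fintype α] [PartialOrder α] {i : ℕ}

/-- value of the factor of an element next to level `i` at energy zero -/
noncomputable def bsA (i : ℕ) (p : α) : AA := if corank p < i then wA - 1 else 1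

lemma nrm_bsA (p : α) : nrm i p * bsA i p = 1 := by
  unfold nrm bsA
  split_ifs
  · rw [mul_comm, iwA_mul]
  · rw [mul_one]

/-- the normalised factor -/
noncomputable def GA (i : ℕ) (k : α → ℕ) (p : α) : MvPolynomial α AA :=
  MvPolynomial.C (nrm i p) * gP i k p

/-- the polynomial of an energy function with far part 0/1 -/
noncomputable def WA (i : ℕ) (e : α → ℕ) : MvPolynomial α AA :=
  ∏ p ∈ N1 α i, if att i e p then GA i e p - 1 else GA i e p

lemma ds_one_iff {p : α} : ds i p = 1 ↔ (corank p + 1 = i ∨ corank p = i + 1) := by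
  unfold ds
  omega

lemma Om_zero (hg : Grad α) (hl : HasLower α i) {k : α → ℕ} {S : Finset α} {p : α}
    (hp : ds i p = 1) : Om i k S p 0 = if corank p < i then X - 1 else 1 := by
  rw [ds_one_iff] at hp
  rcases hp with h | h
  · rw [Om_z h, if_pos (by omega), OmZ, if_pos (fun _ _ _ => Nat.zero_le _), if_pos]
    obtain ⟨t, ht⟩ := hl p (by omega)
    exact ⟨t, ht, Nat.zero_le _⟩
  · rw [Om_x h, if_neg (by omega), OmX, if_pos (fun _ _ _ => Nat.zero_le _), if_pos]
    obtain ⟨t, ht⟩ := exists_upper p (by omega)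
    exact ⟨t, ht, Nat.zero_le _⟩

lemma Psi_Omt (hg : Grad α) (hl : HasLower α i) (hdeg : ∀ p : α, (bd i p).card ≤ 2)
    {e : α → ℕ} {S : Finset α} {p : α} (hp : ds i p = 1) :
    Psi (PowerSeries.mk (Omt i e S p)) =
      evS S (if att i e p then gP i e p - MvPolynomial.C (bsA i p) else gP i e p) := by
  have h1 := evS_gP hg hl (ds_one_iff.1 hp) (hdeg p) e S
  split_ifs with h
  · have h2 : PowerSeries.mk (Omt i e S p) =
        PowerSeries.mk (Om i e S p) - PowerSeries.C (Om i e S p 0) := by
      ext1 a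
      rw [map_sub, PowerSeries.coeff_mk, PowerSeries.coeff_mk, PowerSeries.coeff_C, Omt]
      by_cases ha : a = 0
      · rw [if_pos ⟨h, ha⟩, if_pos ha, ha, sub_self]
      · rw [if_neg (fun h3 => ha h3.2), if_neg ha, sub_zero]
    rw [h2, map_sub, map_sub, h1, ← iotaA_apply, Om_zero hg hl hp, evS_C, bsA]
    congr 1
    split_ifs
    · rw [map_sub, map_one, iotaA_X]
    · rw [map_one]
  · have h2 : PowerSeries.mk (Omt i e S p) = PowerSeries.mk (Om i e S p) := by
      ext1 a
      rw [PowerSeries.coeff_mk, PowerSeries.coeff_mk, Omt, if_neg (fun h3 => h h3.1)]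
    rw [h2, h1]

lemma C_supported (S : Set α) (c : AA) : MvPolynomial.C c ∈ MvPolynomial.supported AA S :=
  Subalgebra.algebraMap_mem _ _

/-- **the exact contribution of a far part with values 0 and 1** -/
theorem Psi_far01 (hg : Grad α) (hl : HasLower α i) (hdeg : ∀ p : α, (bd i p).card ≤ 2)
    {e : α → ℕ} (hF : Far01 i e) :
    iwA ^ (low α i).card * Psi (PowerSeries.mk fun N => ∑ κ ∈ (N1 α i).piAntidiag N, tm i (e + κ)) =
      wA ^ (lev α i).card * Ev wA (WA i e) := by
  set c : ℤ[X] := (X - 1) ^ (univ.filter fun p : α => corank p + 1 < i).card with hc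
  set U : MvPolynomial α AA := ∏ p ∈ N1 α i,
    (if att i e p then gP i e p - MvPolynomial.C (bsA i p) else gP i e p) with hU
  have h1 : (PowerSeries.mk fun N => ∑ κ ∈ (N1 α i).piAntidiag N, tm i (e + κ)) =
      PowerSeries.C c * ∑ S ∈ (lev α i).powerset, PowerSeries.C ((X - 1) ^ S.card) *
        ∏ p ∈ N1 α i, PowerSeries.mk (Omt i e S p) := by
    ext1 N
    rw [PowerSeries.coeff_mk, PowerSeries.coeff_C_mul, map_sum, sum_far01 hg hl hF N]
    congr 1
    apply Finset.sum_congr rfl
    intro S _
    rw [PowerSeries.coeff_C_mul]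
  have h2 : Psi (PowerSeries.mk fun N => ∑ κ ∈ (N1 α i).piAntidiag N, tm i (e + κ)) =
      (wA - 1) ^ (univ.filter fun p : α => corank p + 1 < i).card *
        (wA ^ (lev α i).card * Ev wA U) := by
    have hUs : U ∈ MvPolynomial.supported AA (lev α i : Set α) := by
      rw [hU]
      refine prod_mem fun p hp => ?_
      have g1 : gP i e p ∈ MvPolynomial.supported AA (lev α i : Set α) :=
        gP_supported hg (mem_N1.1 hp) e
      split_ifs
      · exact sub_mem g1 (C_supported _ _)
      · exact g1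
    rw [h1, map_mul, map_sum, Ev_evS (lev α i) hUs, ← iotaA_apply, hc, map_pow, map_sub,
      map_one, iotaA_X]
    congr 1
    apply Finset.sum_congr rfl
    intro S _
    rw [map_mul, map_prod, ← iotaA_apply, map_pow, map_sub, map_one, iotaA_X, hU, map_prod]
    congr 1
    apply Finset.prod_congr rfl
    intro p hp
    exact Psi_Omt hg hl hdeg (mem_N1.1 hp)
  have h3 : WA i e = MvPolynomial.C (iwA ^ (univ.filter fun p : α => corank p + 1 = i).card) *
      U := by
    have g1 : ∀ p ∈ N1 α i, (if att i e p then GA i e p - 1 else GA i e p) =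
        MvPolynomial.C (nrm i p) *
          (if att i e p then gP i e p - MvPolynomial.C (bsA i p) else gP i e p) := by
      intro p _
      unfold GA
      split_ifs
      · rw [mul_sub, ← map_mul, nrm_bsA, map_one]
      · rfl
    have g2 : ∏ p ∈ N1 α i, MvPolynomial.C (nrm i p) =
        (MvPolynomial.C (iwA ^ (univ.filter fun p : α => corank p + 1 = i).card) :
          MvPolynomial α AA) := by
      rw [← map_prod]
      congr 1
      unfold nrm
      rw [Finset.prod_ite, prod_const, prod_const_one, mul_one]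
      congr 2
      ext p
      rw [mem_filter, mem_filter, mem_N1]
      unfold ds
      simp only [mem_univ, true_and]
      omega
    unfold WA
    rw [Finset.prod_congr rfl g1, Finset.prod_mul_distrib, g2, hU]
  have h4 : (low α i).card = (univ.filter fun p : α => corank p + 1 < i).card +
      (univ.filter fun p : α => corank p + 1 = i).card := by
    rw [← card_union_of_disjoint]
    · congr 1
      ext p
      rw [mem_union, mem_filter, mem_filter, mem_low]
      simp only [mem_univ, true_and]
      omega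
    · rw [Finset.disjoint_left]
      intro p h5 h6
      rw [mem_filter] at h5 h6
      omega
  have h5 : ∀ n : ℕ, iwA ^ n * (wA - 1) ^ n = 1 := by
    intro n
    rw [← mul_pow, mul_comm iwA, iwA_mul, one_pow]
  rw [h2, h3, Ev_C_mul, h4, pow_add]
  have h6 := h5 (univ.filter fun p : α => corank p + 1 < i).card
  linear_combination (iwA ^ (univ.filter fun p : α => corank p + 1 = i).card *
    (wA ^ (lev α i).card * Ev wA U)) * h6

/-- the far energies are at most one -/
def F1 (i : ℕ) (ε : α → ℕ) : Prop := ∀ p, 2 ≤ ds i p → ε p ≤ 1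

/-- the series of an energy function which vanishes next to level `i` -/
noncomputable def serN (i : ℕ) (e : α → ℕ) : PowerSeries ℤ[X] :=
  PowerSeries.mk fun N => ∑ κ ∈ (N1 α i).piAntidiag N, tm i (e + κ)

/-- dividing by a power of `w` -/
lemma div_w {n m : ℕ} {U H : AA} (h : wA ^ n * U = ZA ^ m * H) : ∃ R, U = ZA ^ m * R := by
  refine ⟨PowerSeries.mk fun d => PowerSeries.coeff (d + n) H, ?_⟩
  ext1 d
  have h8 := congrArg (PowerSeries.coeff (d + n)) h
  rw [wA, PowerSeries.coeff_X_pow_mul] at h8
  rw [h8, ZA, ← map_pow, PowerSeries.coeff_C_mul, PowerSeries.coeff_C_mul, PowerSeries.coeff_mk]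

lemma range_split {m J : ℕ} (h : m ≤ J) : range (J + 1) = range (m + 1) ∪ Ico (m + 1) (J + 1) ∧
    Disjoint (range (m + 1)) (Ico (m + 1) (J + 1)) := by
  constructor
  · ext a
    rw [mem_union, mem_range, mem_range, mem_Ico]
    omega
  · rw [Finset.disjoint_left]
    intro a ha ha'
    rw [mem_range] at ha
    rw [mem_Ico] at ha'
    omega

/-- truncation of a double sum of series -/
lemma trunc_dvd {ι : Type} (J : ℕ) (f : ℕ → ℤ[X]) (S : ℕ → Finset ι)
    (g : ι → PowerSeries ℤ[X])
    (h : ∀ m ≤ J, f m = ∑ s ∈ range (m + 1), ∑ x ∈ S s, PowerSeries.coeff (m - s) (g x)) :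
    (PowerSeries.X : PowerSeries ℤ[X]) ^ (J + 1) ∣
      PowerSeries.mk f - ∑ s ∈ range (J + 1), ∑ x ∈ S s, PowerSeries.X ^ s * g x := by
  rw [PowerSeries.X_pow_dvd_iff]
  intro m hm
  obtain ⟨h4, h5⟩ := range_split (show m ≤ J by omega)
  rw [map_sub, PowerSeries.coeff_mk, h m (by omega), map_sum, sub_eq_zero, h4, sum_union h5]
  have h6 : ∑ s ∈ Ico (m + 1) (J + 1), PowerSeries.coeff m
      (∑ x ∈ S s, PowerSeries.X ^ s * g x) = 0 := by
    apply sum_eq_zero
    intro s hs
    rw [mem_Ico] at hs
    rw [map_sum]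
    apply sum_eq_zero
    intro x _
    rw [PowerSeries.coeff_X_pow_mul', if_neg (by omega)]
  rw [h6, add_zero]
  apply sum_congr rfl
  intro s hs
  rw [mem_range] at hs
  rw [map_sum]
  apply sum_congr rfl
  intro x _
  rw [PowerSeries.coeff_X_pow_mul', if_pos (by omega)]

/-- regrouping of the contributions with far energies at most one -/
lemma regroup01 (hg : Grad α) (hl : HasLower α i) (hdeg : ∀ p : α, (bd i p).card ≤ 2) (J : ℕ) :
    ∃ R : AA, ∑ s ∈ range (J + 1), ∑ ε ∈ (RG α i s).filter (fun ε => F1 i ε), VN i ε =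
      ∑ s ∈ range (J + 1), ∑ e ∈ ((N1 α i)ᶜ.piAntidiag s).filter (fun e => Far01 i e),
        qA ^ s * Ev wA (WA i e) + ZA ^ (J + 1) * R := by
  set f : ℕ → ℤ[X] := fun r => ∑ ε ∈ (univ : Finset α).piAntidiag r,
    if F1 i ε then tm i ε else 0 with hf
  -- first grouping
  have hA := trunc_dvd J f (fun s => ((univ : Finset α).piAntidiag s).filter
    (fun ε => Red i ε ∧ F1 i ε)) (fun ε => serE i ε) (by
    intro m _
    rw [hf]
    simp only
    rw [sum_redU hg i m]
    apply sum_congr rfl
    intro s _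
    rw [← filter_filter, sum_filter (fun ε => F1 i ε)]
    apply sum_congr rfl
    intro ε hε
    have h1 : ∀ κ ∈ (Unatt i ε).piAntidiag (m - s), (F1 i (ε + κ) ↔ F1 i ε) := by
      intro κ hκ
      rw [mem_piAntidiag] at hκ
      unfold F1
      apply forall_congr'
      intro p
      apply imp_congr_right
      intro hp
      have : κ p = 0 := by
        by_contra h
        have := ds_Unatt (hκ.2 p h)
        omega
      simp [this]
    by_cases h2 : F1 i ε
    · rw [if_pos h2, serE, PowerSeries.coeff_mk]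
      apply sum_congr rfl
      intro κ hκ
      rw [if_pos ((h1 κ hκ).2 h2)]
    · rw [if_neg h2]
      apply sum_eq_zero
      intro κ hκ
      rw [if_neg (fun h => h2 ((h1 κ hκ).1 h))])
  -- second grouping
  have hB := trunc_dvd J f (fun s => ((N1 α i)ᶜ.piAntidiag s).filter
    (fun e => F1 i e)) (fun e => serN i e) (by
    intro m _
    rw [hf]
    simp only
    rw [sum_piAntidiag_compl (N1 α i) m]
    apply sum_congr rfl
    intro s _
    rw [sum_filter (fun e => F1 i e)]
    apply sum_congr rfl
    intro e he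
    have h1 : ∀ κ ∈ (N1 α i).piAntidiag (m - s), (F1 i (e + κ) ↔ F1 i e) := by
      intro κ hκ
      rw [mem_piAntidiag] at hκ
      unfold F1
      apply forall_congr'
      intro p
      apply imp_congr_right
      intro hp
      have : κ p = 0 := by
        by_contra h
        have := mem_N1.1 (hκ.2 p h)
        omega
      simp [this]
    by_cases h2 : F1 i e
    · rw [if_pos h2, serN, PowerSeries.coeff_mk]
      apply sum_congr rfl
      intro κ hκ
      rw [if_pos ((h1 κ hκ).2 h2)]
    · rw [if_neg h2]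
      apply sum_eq_zero
      intro κ hκ
      rw [if_neg (fun h => h2 ((h1 κ hκ).1 h))])
  obtain ⟨HA, hHA⟩ := hA
  obtain ⟨HB, hHB⟩ := hB
  have h1 : ∑ s ∈ range (J + 1), ∑ ε ∈ ((univ : Finset α).piAntidiag s).filter
      (fun ε => Red i ε ∧ F1 i ε), PowerSeries.X ^ s * serE i ε =
      ∑ s ∈ range (J + 1), ∑ e ∈ ((N1 α i)ᶜ.piAntidiag s).filter (fun e => F1 i e),
        PowerSeries.X ^ s * serN i e + PowerSeries.X ^ (J + 1) * (HB - HA) := by
    linear_combination hHB - hHA
  have h2 := congrArg Psi h1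
  rw [map_add, map_mul, map_pow, Psi_X, map_sum, map_sum] at h2
  have h3 : iwA ^ (low α i).card * ∑ s ∈ range (J + 1),
      Psi (∑ ε ∈ ((univ : Finset α).piAntidiag s).filter
      (fun ε => Red i ε ∧ F1 i ε), PowerSeries.X ^ s * serE i ε) =
      wA ^ (lev α i).card * ∑ s ∈ range (J + 1),
        ∑ ε ∈ (RG α i s).filter (fun ε => F1 i ε), VN i ε := by
    rw [mul_sum, mul_sum]
    apply sum_congr rfl
    intro s _
    have h5 : (RG α i s).filter (fun ε => F1 i ε) = (((univ : Finset α).piAntidiag s).filter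
        (fun ε => Red i ε ∧ F1 i ε)).filter (fun ε => GoodE i ε) := by
      unfold RG
      rw [filter_filter, filter_filter]
      apply filter_congr
      intro ε _
      tauto
    rw [h5, sum_filter (fun ε => GoodE i ε), map_sum, mul_sum, mul_sum]
    apply sum_congr rfl
    intro ε hε
    rw [mem_filter, mem_piAntidiag] at hε
    rw [map_mul, map_pow, Psi_X]
    split_ifs with h6
    · have h7 := serE_good hg hl hdeg hε.2.1 h6
      have h8 := VE_norm hg hl hε.2.1 h6
      have h9 : ∑ p, ε p = s := hε.1.1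
      rw [h9] at h7
      rw [← h8]
      linear_combination (iwA ^ (low α i).card) * h7
    · rw [serE_bad hg hl hε.2.1 h6, map_zero, mul_zero, mul_zero, mul_zero]
  have h4 : iwA ^ (low α i).card * ∑ s ∈ range (J + 1),
      Psi (∑ e ∈ ((N1 α i)ᶜ.piAntidiag s).filter (fun e => F1 i e),
        PowerSeries.X ^ s * serN i e) =
      wA ^ (lev α i).card * ∑ s ∈ range (J + 1),
        ∑ e ∈ ((N1 α i)ᶜ.piAntidiag s).filter (fun e => Far01 i e),
          qA ^ s * Ev wA (WA i e) := by
    rw [mul_sum, mul_sum]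
    apply sum_congr rfl
    intro s _
    have h5 : ((N1 α i)ᶜ.piAntidiag s).filter (fun e => Far01 i e) =
        (((N1 α i)ᶜ.piAntidiag s).filter (fun e => F1 i e)).filter (fun e => Far01 i e) := by
      rw [filter_filter]
      apply filter_congr
      intro e _
      exact ⟨fun h => ⟨h.le, h⟩, fun h => h.2⟩
    rw [h5, sum_filter (fun e => Far01 i e), map_sum, mul_sum, mul_sum]
    apply sum_congr rfl
    intro e he
    rw [mem_filter, mem_piAntidiag] at he
    have hnear : ∀ p, ds i p = 1 → e p = 0 := by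
      intro p hp
      by_contra h
      exact (mem_compl.1 (he.1.2 p h)) (mem_N1.2 hp)
    rw [map_mul, map_pow, Psi_X]
    split_ifs with h6
    · have h7 := Psi_far01 hg hl hdeg h6
      unfold serN
      linear_combination qA ^ s * h7
    · have h7 : serN i e = 0 := by
        ext1 N
        rw [serN, PowerSeries.coeff_mk, map_zero]
        exact sum_far_not hg hl hnear he.2 h6 N
      rw [h7, map_zero, mul_zero, mul_zero, mul_zero]
  set V := ∑ s ∈ range (J + 1), ∑ ε ∈ (RG α i s).filter (fun ε => F1 i ε), VN i ε with hV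
  set W := ∑ s ∈ range (J + 1), ∑ e ∈ ((N1 α i)ᶜ.piAntidiag s).filter (fun e => Far01 i e),
          qA ^ s * Ev wA (WA i e) with hW
  have h5 : wA ^ (lev α i).card * (V - W) =
      ZA ^ (J + 1) * (iwA ^ (low α i).card * (wA ^ (J + 1) * Psi (HB - HA))) := by
    rw [mul_sub, ← h3, ← h4, h2, qA, mul_pow]
    ring
  obtain ⟨R, hR⟩ := div_w h5
  exact ⟨R, by rw [← hR]; ring⟩

/-- **the main identity**: exact contribution of the far parts with values 0 and 1, and the
remaining reduced energy functions -/
theorem exists_KN01 {h : Fin (Fintype.card α) → ℕ} (hG : IsGaussianWith α h)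
    (hl : HasLower α i) (hdeg : ∀ p : α, (bd i p).card ≤ 2) :
    ∃ KN : AA, Low KN ∧ ∀ J : ℕ, ∃ R : AA,
      KN = ∑ s ∈ range (J + 1), ∑ e ∈ ((N1 α i)ᶜ.piAntidiag s).filter (fun e => Far01 i e),
          qA ^ s * Ev wA (WA i e) +
        ∑ s ∈ range (J + 1), ∑ ε ∈ (RG α i s).filter (fun ε => ¬ F1 i ε), VN i ε +
        ZA ^ (J + 1) * R := by
  have hg := grad hG
  obtain ⟨KN, h1, h2⟩ := exists_KN hG hl hdeg
  refine ⟨KN, h1, fun J => ?_⟩
  obtain ⟨R, hR⟩ := h2 J
  obtain ⟨R', hR'⟩ := regroup01 hg hl hdeg J (α := α) (i := i)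
  refine ⟨R + R', ?_⟩
  have h3 : ∑ s ∈ range (J + 1), ∑ ε ∈ RG α i s, VN i ε =
      ∑ s ∈ range (J + 1), ∑ ε ∈ (RG α i s).filter (fun ε => F1 i ε), VN i ε +
      ∑ s ∈ range (J + 1), ∑ ε ∈ (RG α i s).filter (fun ε => ¬ F1 i ε), VN i ε := by
    rw [← sum_add_distrib]
    apply sum_congr rfl
    intro s _
    exact (Finset.sum_filter_add_sum_filter_not _ _ _).symm
  rw [hR, h3, hR']
  ring

end Pool.Gauss
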