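import Pool.Agent.Work.MP_065141_co.K.DeepC

/-!
# The model modulo `w ^ 3` and `Z ^ 5`, and modulo `w ^ 2`
-/

set_option autoImplicit false
set_option linter.unusedSectionVars false
set_option linter.unusedVariables false
open scoped Classical
open Finset Polynomial

namespace Pool.Gauss

variable {α : Type} [Fintype α] [PartialOrder α] {i : ℕ}

/-! ### the energy functions `cfQ` -/

section cfQ

variable {q : α} (hq : ds i q = 2)

lemma cfQ_self : cfQ i q q = 2 := by
  unfold cfQ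
  rw [Pi.add_apply, ind_mem (mem_union_left _ (mem_singleton_self q)),
    ind_mem (mem_singleton_self q)]

lemma q_notMem_bd (hg : Grad α) : q ∉ bd i q := by
  intro h
  have := fr_ds hg (mem_bd.1 h)
  omega

lemma cfQ_bd (hg : Grad α) {p : α} (hp : p ∈ bd i q) : cfQ i q p = 1 := by
  have h : p ∉ ({q} : Finset α) := by
    rw [mem_singleton]
    rintro rfl
    exact q_notMem_bd hg hp
  unfold cfQ
  rw [Pi.add_apply, ind_mem (mem_union_right _ hp), ind_notMem h]

lemma cfQ_other {p : α} (hp : p ∉ bd i q) (hpq : p ≠ q) : cfQ i q p = 0 := by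
  have h : p ∉ ({q} : Finset α) := by rwa [mem_singleton]
  unfold cfQ
  rw [Pi.add_apply, ind_notMem (by rw [mem_union]; tauto), ind_notMem h]

lemma cfQ_pos (hg : Grad α) {p : α} (h : 0 < cfQ i q p) : p = q ∨ p ∈ bd i q := by
  by_contra h1
  push Not at h1
  rw [cfQ_other h1.2 h1.1] at h
  omega

include hq in
lemma cfQ_lev (hg : Grad α) {y : α} (hy : corank y = i) : cfQ i q y = 0 := by
  have h0 := ds_eq_zero.2 hy
  apply cfQ_other
  · intro h
    have := ds_of_mem_bd hg hq h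
    omega
  · rintro rfl
    omega

include hq in
lemma sum_cfQ (hg : Grad α) : ∑ p, cfQ i q p = (bd i q).card + 2 := by
  unfold cfQ
  simp only [Pi.add_apply]
  rw [Finset.sum_add_distrib, sum_ind, sum_ind, card_singleton, card_union_of_disjoint]
  · rw [card_singleton]
    omega
  · rw [Finset.disjoint_singleton_left]
    exact q_notMem_bd hg

include hq in
lemma cfQ_fd (hg : Grad α) {p : α} (hp : corank p ≠ i) : fd i (cfQ i q) p ↔ p ∈ bd i q := by
  constructor
  · rintro ⟨r, hr, h⟩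
    have h1 := fr_ds hg hr
    have h0 : ds i p ≠ 0 := fun h => hp (ds_eq_zero.1 h)
    rcases cfQ_pos hg (by omega : 0 < cfQ i q r) with rfl | h2
    · exact mem_bd.2 hr
    · have := ds_of_mem_bd hg hq h2
      omega
  · intro h
    exact ⟨q, mem_bd.1 h, by rw [cfQ_bd hg h, cfQ_self]; omega⟩

include hq in
lemma cfQ_nd (hg : Grad α) (hl : HasLower α i) {p : α} (hp : corank p ≠ i) :
    nd i (cfQ i q) p ↔ p ∉ bd i q ∧ p ≠ q := by
  constructor
  · rintro ⟨t, ht, h⟩
    have h1 := fr_ds hg ht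
    constructor
    · intro h2
      have h3 := ds_of_mem_bd hg hq h2
      rw [cfQ_bd hg h2, cfQ_lev hq hg (ds_eq_zero.1 (by omega))] at h
      omega
    · rintro rfl
      rw [cfQ_self, cfQ_bd hg (mem_bd.2 ht)] at h
      omega
  · rintro ⟨h1, h2⟩
    obtain ⟨t, ht⟩ := exists_near hg hl hp
    exact ⟨t, ht, by rw [cfQ_other h1 h2]; omega⟩

include hq in
lemma cfQ_inE (hg : Grad α) {y : α} (hy : corank y = i) :
    inE i (cfQ i q) y ↔ i < corank q ∧ y ∈ BB i q := by
  rw [inE_lev hy]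
  constructor
  · rintro ⟨x, hx, h⟩
    rw [cfQ_lev hq hg hy] at h
    have h1 := hg x y hx
    have h2 : fr i y x := fr_of_below hy.ge hx
    rcases cfQ_pos hg h with rfl | h3
    · unfold ds at hq
      omega
    · refine ⟨((side_of_mem_bd hg hq h3).2).1 (by omega), ?_⟩
      unfold BB
      rw [mem_biUnion]
      exact ⟨x, h3, mem_bd.2 h2⟩
  · rintro ⟨h1, h2⟩
    unfold BB at h2
    rw [mem_biUnion] at h2
    obtain ⟨x, hx, hxy⟩ := h2
    have h3 := ((side_of_mem_bd hg hq hx).2).2 h1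
    refine ⟨x, (fr_below' hg (mem_bd.1 hxy) h3).2, ?_⟩
    rw [cfQ_lev hq hg hy, cfQ_bd hg hx]
    omega

include hq in
lemma cfQ_outE (hg : Grad α) {y : α} (hy : corank y = i) :
    outE i (cfQ i q) y ↔ corank q < i ∧ y ∈ BB i q := by
  rw [outE_lev hy]
  constructor
  · rintro ⟨x, hx, h⟩
    rw [cfQ_lev hq hg hy] at h
    have h1 := hg y x hx
    have h2 : fr i y x := fr_of_above hy.le hx
    rcases cfQ_pos hg h with rfl | h3
    · unfold ds at hq
      omega
    · refine ⟨((side_of_mem_bd hg hq h3).1).1 (by omega), ?_⟩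
      unfold BB
      rw [mem_biUnion]
      exact ⟨x, h3, mem_bd.2 h2⟩
  · rintro ⟨h1, h2⟩
    unfold BB at h2
    rw [mem_biUnion] at h2
    obtain ⟨x, hx, hxy⟩ := h2
    have h3 := ((side_of_mem_bd hg hq hx).1).2 h1
    refine ⟨x, (fr_above' hg (mem_bd.1 hxy) h3).2, ?_⟩
    rw [cfQ_lev hq hg hy, cfQ_bd hg hx]
    omega

include hq in
lemma cfQ_good (hg : Grad α) (hl : HasLower α i) : GoodE i (cfQ i q) := by
  apply goodE_of_goodS hg hl
  constructor
  · rintro p hp ⟨h1, h2⟩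
    exact ((cfQ_nd hq hg hl hp).1 h2).1 ((cfQ_fd hq hg hp).1 h1)
  · rintro y hy ⟨h1, h2⟩
    have h3 := ((cfQ_inE hq hg hy).1 h1).1
    have h4 := ((cfQ_outE hq hg hy).1 h2).1
    omega

include hq in
lemma cfQ_att (hg : Grad α) {p : α} (hp : ds i p = 1) : att i (cfQ i q) p ↔ p ∈ bd i q := by
  rw [att_iff hg hp]
  constructor
  · rintro ⟨r, hr, h⟩
    have h1 := fr_ds hg hr
    rcases cfQ_pos hg h with rfl | h2
    · exact mem_bd.2 hr
    · have := ds_of_mem_bd hg hq h2
      omega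
  · intro h
    exact ⟨q, mem_bd.1 h, by rw [cfQ_self]; omega⟩

include hq in
lemma cfQ_Unatt (hg : Grad α) : Unatt i (cfQ i q) = N1 α i \ bd i q := by
  ext p
  rw [mem_Unatt, mem_sdiff, mem_N1, ← ds_one_iff]
  constructor
  · rintro ⟨h1, h2⟩
    exact ⟨h1, fun h => h2 ((cfQ_att hq hg h1).2 h)⟩
  · rintro ⟨h1, h2⟩
    exact ⟨h1, fun h => h2 ((cfQ_att hq hg h1).1 h)⟩

include hq in
lemma cfQ_Red (hg : Grad α) : Red i (cfQ i q) := by
  intro p hp
  rw [cfQ_Unatt hq hg, mem_sdiff, mem_N1] at hp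
  apply cfQ_other hp.2
  rintro rfl
  omega

include hq in
lemma cfQ_Fd (hg : Grad α) : Fd i (cfQ i q) = bd i q := by
  ext p
  unfold Fd
  rw [mem_filter]
  constructor
  · rintro ⟨_, h1, h2⟩
    exact (cfQ_fd hq hg h1).1 h2
  · intro h
    have h1 : corank p ≠ i := by
      intro h2
      have h3 := ds_of_mem_bd hg hq h
      rw [ds_eq_zero.2 h2] at h3
      omega
    exact ⟨mem_univ _, h1, (cfQ_fd hq hg h1).2 h⟩

include hq in
lemma cfQ_Fo (hg : Grad α) (hl : HasLower α i) : Fo i (cfQ i q) = {q} := by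
  ext p
  rw [mem_FoB, mem_singleton]
  constructor
  · rintro ⟨h1, h2, h3⟩
    rw [cfQ_fd hq hg h1] at h2
    rw [cfQ_nd hq hg hl h1] at h3
    tauto
  · rintro rfl
    have h1 : corank p ≠ i := by
      intro h2
      rw [ds_eq_zero.2 h2] at hq
      omega
    refine ⟨h1, ?_, ?_⟩
    · rw [cfQ_fd hq hg h1]
      exact q_notMem_bd hg
    · rw [cfQ_nd hq hg hl h1]
      tauto

include hq in
lemma cfQ_Yd (hg : Grad α) : Yd i (cfQ i q) = BB i q := by
  ext y
  rw [mem_Yd]
  constructor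
  · rintro ⟨h1, p, h2, h3⟩
    rw [cfQ_lev hq hg h1] at h3
    have h4 := fr_ds hg h2
    rw [ds_eq_zero.2 h1] at h4
    rcases cfQ_pos hg h3 with rfl | h5
    · omega
    · unfold BB
      rw [mem_biUnion]
      exact ⟨p, h5, mem_bd.2 h2⟩
  · intro h
    unfold BB at h
    rw [mem_biUnion] at h
    obtain ⟨p, hp, hy⟩ := h
    have h1 : corank y = i := bd_lev hg (ds_of_mem_bd hg hq hp) hy
    refine ⟨h1, p, mem_bd.1 hy, ?_⟩
    rw [cfQ_lev hq hg h1, cfQ_bd hg hp]
    omega

include hq in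
lemma BB_subset_lev (hg : Grad α) : BB i q ⊆ lev α i := by
  intro y hy
  unfold BB at hy
  rw [mem_biUnion] at hy
  obtain ⟨p, hp, hy⟩ := hy
  exact mem_lev.2 (bd_lev hg (ds_of_mem_bd hg hq hp) hy)

include hq in
lemma cfQ_dmP (hg : Grad α) : dmP i (cfQ i q) = ∏ y ∈ BB i q, av i q y := by
  have hside : corank q < i ∨ i < corank q := by
    unfold ds at hq
    omega
  unfold dmP
  rcases hside with h | h
  · have h1 : (lev α i).filter (fun y => inE i (cfQ i q) y) = ∅ := by
      rw [Finset.filter_eq_empty_iff]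
      intro y hy h1
      have := ((cfQ_inE hq hg (mem_lev.1 hy)).1 h1).1
      omega
    have h2 : (lev α i).filter (fun y => outE i (cfQ i q) y) = BB i q := by
      ext y
      rw [mem_filter]
      constructor
      · rintro ⟨h3, h4⟩
        exact ((cfQ_outE hq hg (mem_lev.1 h3)).1 h4).2
      · intro h3
        have h4 := BB_subset_lev hq hg h3
        exact ⟨h4, (cfQ_outE hq hg (mem_lev.1 h4)).2 ⟨h, h3⟩⟩
    rw [h1, h2, prod_empty, one_mul]
    apply prod_congr rfl
    intro y _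
    unfold av
    rw [if_pos h]
  · have h1 : (lev α i).filter (fun y => outE i (cfQ i q) y) = ∅ := by
      rw [Finset.filter_eq_empty_iff]
      intro y hy h1
      have := ((cfQ_outE hq hg (mem_lev.1 hy)).1 h1).1
      omega
    have h2 : (lev α i).filter (fun y => inE i (cfQ i q) y) = BB i q := by
      ext y
      rw [mem_filter]
      constructor
      · rintro ⟨h3, h4⟩
        exact ((cfQ_inE hq hg (mem_lev.1 h3)).1 h4).2
      · intro h3
        have h4 := BB_subset_lev hq hg h3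
        exact ⟨h4, (cfQ_inE hq hg (mem_lev.1 h4)).2 ⟨h, h3⟩⟩
    rw [h1, h2, prod_empty, mul_one]
    apply prod_congr rfl
    intro y _
    unfold av
    rw [if_neg (by omega)]

end cfQ

/-- the unit in front of the contribution of `cfQ` -/
noncomputable def sgQ (i : ℕ) (q : α) : AA :=
  if corank q < i then iwA ^ ((bd i q).card + 1) else (wA - 1) ^ (bd i q).card

lemma gP_congr {k k' : α → ℕ} {p : α} (h : ∀ y ∈ bd i p, k y = k' y) : gP i k p = gP i k' p :=
  facG_congr h _ _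

/-- the number of elements below/above -/
lemma card_BB_le4 (hdeg : ∀ p : α, (bd i p).card ≤ 2) (q : α) : (BB i q).card ≤ 4 := by
  unfold BB
  refine card_biUnion_le.trans ?_
  have h1 : ∑ p ∈ bd i q, (bd i p).card ≤ ∑ p ∈ bd i q, 2 := Finset.sum_le_sum fun p _ => hdeg p
  rw [Finset.sum_const, smul_eq_mul] at h1
  have := hdeg q
  omega

/-- **the contribution of `cfQ`** -/
theorem VN_cfQ (hg : Grad α) (hl : HasLower α i) {q : α} (hq : ds i q = 2) :
    VN i (cfQ i q) = ZA ^ ((bd i q).card + 2) * wA ^ ((bd i q).card + 3 - (BB i q).card) *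
      sgQ i q * Ev wA ((∏ y ∈ BB i q, av i q y) * ∏ p ∈ N1 α i \ bd i q, GA i 0 p) := by
  have hside : corank q < i ∨ i < corank q := by
    unfold ds at hq
    omega
  have h1 : ∏ p ∈ N1 α i \ bd i q, (MvPolynomial.C (nrm i p) * gP i (cfQ i q) p) =
      ∏ p ∈ N1 α i \ bd i q, GA i 0 p := by
    apply prod_congr rfl
    intro p hp
    unfold GA
    rw [mem_sdiff, mem_N1] at hp
    rw [gP_congr (k' := 0)]
    intro y hy
    rw [cfQ_lev hq hg (bd_lev hg hp.1 hy)]
    rfl
  have h2 : (wA - 1) ^ ((Fd i (cfQ i q)).filter fun p => i < corank p).card *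
      iwA ^ (((Fd i (cfQ i q)).filter fun p => corank p < i).card +
        ((Fo i (cfQ i q)).filter fun p => corank p < i).card) = sgQ i q := by
    rw [cfQ_Fd hq hg, cfQ_Fo hq hg hl]
    unfold sgQ
    rcases hside with h | h
    · have g1 : (bd i q).filter (fun p => i < corank p) = ∅ := by
        rw [Finset.filter_eq_empty_iff]
        intro p hp h3
        have := ((side_of_mem_bd hg hq hp).2).1 h3
        omega
      have g2 : (bd i q).filter (fun p => corank p < i) = bd i q := by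
        apply Finset.filter_true_of_mem
        intro p hp
        exact ((side_of_mem_bd hg hq hp).1).2 h
      have g3 : ({q} : Finset α).filter (fun p => corank p < i) = {q} := by
        apply Finset.filter_true_of_mem
        intro p hp
        rw [mem_singleton] at hp
        rw [hp]
        exact h
      rw [g1, g2, g3, card_empty, pow_zero, one_mul, card_singleton, if_pos h]
    · have g1 : (bd i q).filter (fun p => i < corank p) = bd i q := by
        apply Finset.filter_true_of_mem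
        intro p hp
        exact ((side_of_mem_bd hg hq hp).2).2 h
      have g2 : (bd i q).filter (fun p => corank p < i) = ∅ := by
        rw [Finset.filter_eq_empty_iff]
        intro p hp h3
        have := ((side_of_mem_bd hg hq hp).1).1 h3
        omega
      have g3 : ({q} : Finset α).filter (fun p => corank p < i) = ∅ := by
        rw [Finset.filter_eq_empty_iff]
        intro p hp
        rw [mem_singleton] at hp
        rw [hp]
        omega
      rw [g1, g2, g3, card_empty, add_zero, pow_zero, mul_one, if_neg (by omega)]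
  have h3 : exc i (cfQ i q) = (bd i q).card + 3 - (BB i q).card := by
    unfold exc
    rw [sum_cfQ hq hg, cfQ_Fo hq hg hl, cfQ_Yd hq hg, card_singleton]
  unfold VN
  rw [h2, h3, sum_cfQ hq hg, cfQ_dmP hq hg, cfQ_Unatt hq hg, h1]

/-- the elements at distance two -/
noncomputable def D2 (α : Type) [Fintype α] [PartialOrder α] (i : ℕ) : Finset α :=
  univ.filter fun q => ds i q = 2

lemma mem_D2 {q : α} : q ∈ D2 α i ↔ ds i q = 2 := by simp [D2]

lemma cfQ_inj {q q' : α} (h : cfQ i q = cfQ i q') : q = q' := by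
  by_contra hne
  have h1 : cfQ i q q = 2 := cfQ_self
  rw [h] at h1
  unfold cfQ at h1
  rw [Pi.add_apply, ind_notMem (T := {q'}) (by rwa [mem_singleton])] at h1
  unfold ind at h1
  split_ifs at h1 <;> omega

lemma RedE_of_Red (hg : Grad α) {ε : α → ℕ} (h : Red i ε) : RedE i ε := by
  intro p hp hatt
  exact h p (mem_Unatt.2 ⟨ds_one_iff.1 hp, hatt⟩)

lemma VN_dvd (ε : α → ℕ) {m : ℕ} (h : m ≤ exc i ε) : wA ^ m ∣ VN i ε := by
  unfold VN
  exact (((pow_dvd_pow _ h).mul_left _).mul_right _).mul_right _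

/-- the part with a far energy at least two, modulo `w ^ 3`, energies at most four -/
theorem far2_part3 (hg : Grad α) (hl : HasLower α i) (hdeg : ∀ p : α, (bd i p).card ≤ 2) :
    ∃ Q : AA, ∑ s ∈ range (4 + 1), ∑ ε ∈ (RG α i s).filter (fun ε => ¬ F1 i ε), VN i ε =
      ∑ q ∈ D2 α i, VN i (cfQ i q) + wA ^ 3 * Q := by
  set S := (range (4 + 1)).biUnion (fun s => (RG α i s).filter (fun ε => ¬ F1 i ε)) with hS
  have hsum : ∀ s, ∀ ε ∈ RG α i s, ∑ p, ε p = s := by
    intro s ε hε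
    unfold RG at hε
    rw [mem_filter, mem_piAntidiag] at hε
    exact hε.1.1
  have h1 : ∑ s ∈ range (4 + 1), ∑ ε ∈ (RG α i s).filter (fun ε => ¬ F1 i ε), VN i ε =
      ∑ ε ∈ S, VN i ε := by
    rw [hS, Finset.sum_biUnion]
    intro s _ t _ hst
    simp only [Function.onFun]
    rw [Finset.disjoint_left]
    intro ε h2 h3
    exact hst ((hsum s ε (mem_filter.1 h2).1).symm.trans (hsum t ε (mem_filter.1 h3).1))
  have hmemS : ∀ ε, ε ∈ S ↔ ∑ p, ε p ≤ 4 ∧ Red i ε ∧ GoodE i ε ∧ ¬ F1 i ε := by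
    intro ε
    rw [hS, mem_biUnion]
    constructor
    · rintro ⟨s, h2, h3⟩
      rw [mem_range] at h2
      rw [mem_filter] at h3
      have h4 := hsum s ε h3.1
      unfold RG at h3
      rw [mem_filter] at h3
      exact ⟨by omega, h3.1.2.1, h3.1.2.2, h3.2⟩
    · rintro ⟨h2, h3, h4, h5⟩
      refine ⟨∑ p, ε p, by rw [mem_range]; omega, ?_⟩
      rw [mem_filter]
      unfold RG
      rw [mem_filter, mem_piAntidiag]
      exact ⟨⟨⟨rfl, fun _ _ => mem_univ _⟩, h3, h4⟩, h5⟩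
  have h2 : (D2 α i).image (cfQ i) ⊆ S := by
    intro ε hε
    rw [mem_image] at hε
    obtain ⟨q, hq, rfl⟩ := hε
    rw [mem_D2] at hq
    rw [hmemS]
    refine ⟨?_, cfQ_Red hq hg, cfQ_good hq hg hl, ?_⟩
    · rw [sum_cfQ hq hg]
      have := hdeg q
      omega
    · intro h
      have h3 := h q (by omega)
      rw [cfQ_self] at h3
      omega
  have h3 : ∑ q ∈ D2 α i, VN i (cfQ i q) = ∑ ε ∈ (D2 α i).image (cfQ i), VN i ε := by
    rw [Finset.sum_image]
    intro q _ q' _ h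
    exact cfQ_inj h
  rw [h1, h3, ← Finset.sum_sdiff h2]
  have h4 : wA ^ 3 ∣ ∑ ε ∈ S \ (D2 α i).image (cfQ i), VN i ε := by
    apply Finset.dvd_sum
    intro ε hε
    rw [mem_sdiff, hmemS] at hε
    obtain ⟨⟨g1, g2, g3, g4⟩, g5⟩ := hε
    apply VN_dvd
    by_contra h5
    apply g5
    have hfar : ∃ q, 2 ≤ ds i q ∧ 2 ≤ ε q := by
      unfold F1 at g4
      push Not at g4
      obtain ⟨q, g6, g7⟩ := g4
      exact ⟨q, g6, by omega⟩
    have hYd := Yd_le hg hdeg ε (i := i)
    unfold exc at h5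
    obtain ⟨q, g6, g7⟩ := far2_class hg hl hdeg g3 (RedE_of_Red hg g2) hfar
      (Or.inr ⟨by omega, g1⟩)
    rw [mem_image]
    exact ⟨q, mem_D2.2 g6, g7.symm⟩
  obtain ⟨Q, hQ⟩ := h4
  exact ⟨Q, by rw [hQ]; ring⟩

/-- the part with a far energy at least two, modulo `w ^ 2`, all energies -/
theorem far2_part2 (hg : Grad α) (hl : HasLower α i) (hdeg : ∀ p : α, (bd i p).card ≤ 2) {J : ℕ}
    (hJ : 4 ≤ J) :
    ∃ Q : AA, ∑ s ∈ range (J + 1), ∑ ε ∈ (RG α i s).filter (fun ε => ¬ F1 i ε), VN i ε =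
      ∑ q ∈ D2 α i, VN i (cfQ i q) + wA ^ 2 * Q := by
  set S := (range (J + 1)).biUnion (fun s => (RG α i s).filter (fun ε => ¬ F1 i ε)) with hS
  have hsum : ∀ s, ∀ ε ∈ RG α i s, ∑ p, ε p = s := by
    intro s ε hε
    unfold RG at hε
    rw [mem_filter, mem_piAntidiag] at hε
    exact hε.1.1
  have h1 : ∑ s ∈ range (J + 1), ∑ ε ∈ (RG α i s).filter (fun ε => ¬ F1 i ε), VN i ε =
      ∑ ε ∈ S, VN i ε := by
    rw [hS, Finset.sum_biUnion]
    intro s _ t _ hst
    simp only [Function.onFun]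
    rw [Finset.disjoint_left]
    intro ε h2 h3
    exact hst ((hsum s ε (mem_filter.1 h2).1).symm.trans (hsum t ε (mem_filter.1 h3).1))
  have hmemS : ∀ ε, ε ∈ S ↔ ∑ p, ε p ≤ J ∧ Red i ε ∧ GoodE i ε ∧ ¬ F1 i ε := by
    intro ε
    rw [hS, mem_biUnion]
    constructor
    · rintro ⟨s, h2, h3⟩
      rw [mem_range] at h2
      rw [mem_filter] at h3
      have h4 := hsum s ε h3.1
      unfold RG at h3
      rw [mem_filter] at h3
      exact ⟨by omega, h3.1.2.1, h3.1.2.2, h3.2⟩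
    · rintro ⟨h2, h3, h4, h5⟩
      refine ⟨∑ p, ε p, by rw [mem_range]; omega, ?_⟩
      rw [mem_filter]
      unfold RG
      rw [mem_filter, mem_piAntidiag]
      exact ⟨⟨⟨rfl, fun _ _ => mem_univ _⟩, h3, h4⟩, h5⟩
  have h2 : (D2 α i).image (cfQ i) ⊆ S := by
    intro ε hε
    rw [mem_image] at hε
    obtain ⟨q, hq, rfl⟩ := hε
    rw [mem_D2] at hq
    rw [hmemS]
    refine ⟨?_, cfQ_Red hq hg, cfQ_good hq hg hl, ?_⟩
    · rw [sum_cfQ hq hg]
      have := hdeg q
      omega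
    · intro h
      have h3 := h q (by omega)
      rw [cfQ_self] at h3
      omega
  have h3 : ∑ q ∈ D2 α i, VN i (cfQ i q) = ∑ ε ∈ (D2 α i).image (cfQ i), VN i ε := by
    rw [Finset.sum_image]
    intro q _ q' _ h
    exact cfQ_inj h
  rw [h1, h3, ← Finset.sum_sdiff h2]
  have h4 : wA ^ 2 ∣ ∑ ε ∈ S \ (D2 α i).image (cfQ i), VN i ε := by
    apply Finset.dvd_sum
    intro ε hε
    rw [mem_sdiff, hmemS] at hε
    obtain ⟨⟨g1, g2, g3, g4⟩, g5⟩ := hε
    apply VN_dvd
    by_contra h5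
    apply g5
    have hfar : ∃ q, 2 ≤ ds i q ∧ 2 ≤ ε q := by
      unfold F1 at g4
      push Not at g4
      obtain ⟨q, g6, g7⟩ := g4
      exact ⟨q, g6, by omega⟩
    have hYd := Yd_le hg hdeg ε (i := i)
    unfold exc at h5
    obtain ⟨q, g6, g7⟩ := far2_class hg hl hdeg g3 (RedE_of_Red hg g2) hfar
      (Or.inl (by omega))
    rw [mem_image]
    exact ⟨q, mem_D2.2 g6, g7.symm⟩
  obtain ⟨Q, hQ⟩ := h4
  exact ⟨Q, by rw [hQ]; ring⟩

/-- far parts with values 0/1 and total energy `s` (including the energies of level `i`) -/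
noncomputable def E01 (α : Type) [Fintype α] [PartialOrder α] (i s : ℕ) : Finset (α → ℕ) :=
  ((N1 α i)ᶜ.piAntidiag s).filter fun e => Far01 i e

/-- the contribution of an element at distance two with energy two -/
noncomputable def VQ (i : ℕ) (q : α) : AA :=
  ZA ^ ((bd i q).card + 2) * wA ^ ((bd i q).card + 3 - (BB i q).card) *
      sgQ i q * Ev wA ((∏ y ∈ BB i q, av i q y) * ∏ p ∈ N1 α i \ bd i q, GA i 0 p)

/-- **the model**: modulo `(w ^ 3, Z ^ 5)`, and modulo `w ^ 2` for all energies -/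
theorem exists_KNmod {h : Fin (Fintype.card α) → ℕ} (hG : IsGaussianWith α h)
    (hl : HasLower α i) (hdeg : ∀ p : α, (bd i p).card ≤ 2) :
    ∃ KN : AA, Low KN ∧
      (∃ R Q : AA, KN = ∑ s ∈ range 3, ∑ e ∈ E01 α i s, qA ^ s * Ev wA (WA i e) +
        ∑ q ∈ D2 α i, VQ i q + ZA ^ 5 * R + wA ^ 3 * Q) ∧
      ∀ J, 4 ≤ J → ∃ R Q : AA, KN = ∑ s ∈ range 2, ∑ e ∈ E01 α i s, qA ^ s * Ev wA (WA i e) +
        ∑ q ∈ D2 α i, VQ i q + ZA ^ (J + 1) * R + wA ^ 2 * Q := by
  have hg := grad hG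
  obtain ⟨KN, h1, h2⟩ := exists_KN01 hG hl hdeg
  have hVQ : ∑ q ∈ D2 α i, VN i (cfQ i q) = ∑ q ∈ D2 α i, VQ i q := by
    apply sum_congr rfl
    intro q hq
    exact VN_cfQ hg hl (mem_D2.1 hq)
  have hdvd : ∀ m n : ℕ, m ≤ n → ∃ Q : AA, ∑ s ∈ range n, ∑ e ∈ E01 α i s,
      qA ^ s * Ev wA (WA i e) = ∑ s ∈ range m, ∑ e ∈ E01 α i s, qA ^ s * Ev wA (WA i e) +
        wA ^ m * Q := by
    intro m n hmn
    have h3 : range n = range m ∪ Ico m n := by
      ext a
      rw [mem_union, mem_range, mem_range, mem_Ico]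
      omega
    have h4 : Disjoint (range m) (Ico m n) := by
      rw [Finset.disjoint_left]
      intro a ha ha'
      rw [mem_range] at ha
      rw [mem_Ico] at ha'
      omega
    have h5 : wA ^ m ∣ ∑ s ∈ Ico m n, ∑ e ∈ E01 α i s, qA ^ s * Ev wA (WA i e) := by
      apply Finset.dvd_sum
      intro s hs
      rw [mem_Ico] at hs
      apply Finset.dvd_sum
      intro e _
      apply Dvd.dvd.mul_right
      rw [qA, mul_pow]
      exact (pow_dvd_pow _ hs.1).mul_right _
    obtain ⟨Q, hQ⟩ := h5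
    exact ⟨Q, by rw [h3, sum_union h4, hQ]⟩
  refine ⟨KN, h1, ?_, ?_⟩
  · obtain ⟨R, hR⟩ := h2 4
    obtain ⟨Q, hQ⟩ := far2_part3 hg hl hdeg (i := i)
    obtain ⟨Q', hQ'⟩ := hdvd 3 (4 + 1) (by norm_num)
    rw [hQ, hVQ] at hR
    unfold E01 at hQ' ⊢
    rw [hQ'] at hR
    refine ⟨R, Q + Q', ?_⟩
    rw [hR]
    ring
  · intro J hJ
    obtain ⟨R, hR⟩ := h2 J
    obtain ⟨Q, hQ⟩ := far2_part2 hg hl hdeg (i := i) hJ
    obtain ⟨Q', hQ'⟩ := hdvd 2 (J + 1) (by omega)
    rw [hQ, hVQ] at hR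
    unfold E01 at hQ' ⊢
    rw [hQ'] at hR
    refine ⟨R, Q + Q', ?_⟩
    rw [hR]
    ring

end Pool.Gauss
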