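import Pool.Agent.Work.MP_065141_co.K.DeepD

/-!
# Explicit enumeration of the far parts with values 0 and 1
-/

set_option autoImplicit false
set_option linter.unusedSectionVars false
set_option linter.unusedVariables false
open scoped Classical
open Finset Polynomial

namespace Pool.Gauss

variable {α : Type} [Fintype α] [PartialOrder α] {i : ℕ}

/-- the far elements -/
noncomputable def FarS (α : Type) [Fintype α] [PartialOrder α] (i : ℕ) : Finset α :=
  univ.filter fun p => 2 ≤ ds i p

/-- closed sets of far elements with `j` elements -/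
noncomputable def ClT (α : Type) [Fintype α] [PartialOrder α] (i j : ℕ) : Finset (Finset α) :=
  ((FarS α i).powersetCard j).filter fun T => ∀ p q, fr i p q → 2 ≤ ds i p → q ∈ T → p ∈ T

lemma mem_FarS {p : α} : p ∈ FarS α i ↔ 2 ≤ ds i p := by simp [FarS]

/-- the polynomial of a closed far set and energies `k` on level `i` -/
noncomputable def WT (i : ℕ) (T : Finset α) (k : α → ℕ) : MvPolynomial α AA :=
  ∏ p ∈ N1 α i, if ∃ q ∈ T, fr i p q then GA i k p - 1 else GA i k p

lemma GA_congr (hg : Grad α) {k k' : α → ℕ} {p : α} (hp : ds i p = 1)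
    (h : ∀ y, corank y = i → k y = k' y) : GA i k p = GA i k' p := by
  unfold GA
  rw [gP_congr fun y hy => h y (bd_lev hg hp hy)]

lemma WA_eq_WT (hg : Grad α) {T : Finset α} {k : α → ℕ} (hT : T ⊆ FarS α i)
    (hk : ∀ p, k p ≠ 0 → corank p = i) : WA i (ind T + k) = WT i T k := by
  unfold WA WT
  apply prod_congr rfl
  intro p hp
  rw [mem_N1] at hp
  have h1 : GA i (ind T + k) p = GA i k p := by
    apply GA_congr hg hp
    intro y hy
    rw [Pi.add_apply, ind_notMem, zero_add]
    intro h
    have := mem_FarS.1 (hT h)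
    rw [ds_eq_zero.2 hy] at this
    omega
  have h2 : att i (ind T + k) p ↔ ∃ q ∈ T, fr i p q := by
    rw [att_iff hg hp]
    constructor
    · rintro ⟨q, hq, h⟩
      refine ⟨q, ?_, hq⟩
      have h3 := fr_ds hg hq
      have h4 : k q = 0 := by
        by_contra h5
        have := ds_eq_zero.2 (hk q h5)
        omega
      rw [Pi.add_apply, h4, add_zero] at h
      exact ind_pos.1 h
    · rintro ⟨q, hq, h⟩
      refine ⟨q, h, ?_⟩
      rw [Pi.add_apply, ind_mem hq]
      omega
  simp only [h1, h2]

/-- the energy functions `ind T + k` are exactly the elements of `E01` -/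
theorem sum_E01 (hg : Grad α) {R : Type} [AddCommMonoid R] (s : ℕ) (f : (α → ℕ) → R) :
    ∑ e ∈ E01 α i s, f e = ∑ j ∈ range (s + 1), ∑ T ∈ ClT α i j,
      ∑ k ∈ (lev α i).piAntidiag (s - j), f (ind T + k) := by
  rw [Finset.sum_congr rfl fun j _ => Finset.sum_sigma' _ _ _, Finset.sum_sigma']
  symm
  refine Finset.sum_bij' (fun x _ => ind x.2.1 + x.2.2)
    (fun e _ => ⟨((FarS α i).filter fun p => e p ≠ 0).card, (FarS α i).filter fun p => e p ≠ 0,
      fun p => if p ∈ lev α i then e p else 0⟩) ?_ ?_ ?_ ?_ ?_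
  · rintro ⟨j, T, k⟩ hx
    rw [mem_sigma, mem_sigma, mem_piAntidiag, mem_range] at hx
    unfold ClT at hx
    rw [mem_filter, mem_powersetCard] at hx
    obtain ⟨h1, ⟨⟨h2, h3⟩, h4⟩, h5, h6⟩ := hx
    simp only at h1 h2 h3 h4 h5 h6
    have hT : ∀ p, ds i p < 2 → ind T p = 0 := by
      intro p hp
      apply ind_notMem
      intro h
      have := mem_FarS.1 (h2 h)
      omega
    have hk : ∀ p, ds i p ≠ 0 → k p = 0 := by
      intro p hp
      by_contra h
      exact hp (ds_eq_zero.2 (mem_lev.1 (h6 p h)))
    unfold E01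
    rw [mem_filter, mem_piAntidiag]
    simp only
    refine ⟨⟨?_, ?_⟩, ?_, ?_, ?_⟩
    · simp only [Pi.add_apply]
      rw [Finset.sum_add_distrib]
      have g1 : ∑ p ∈ (N1 α i)ᶜ, ind T p = T.card := by
        rw [← sum_ind T]
        apply Finset.sum_subset (subset_univ _)
        intro p _ hp
        rw [mem_compl, not_not, mem_N1] at hp
        exact hT p (by omega)
      have g2 : ∑ p ∈ (N1 α i)ᶜ, k p = ∑ p ∈ lev α i, k p := by
        symm
        apply Finset.sum_subset
        · intro p hp
          rw [mem_compl, mem_N1, ds_eq_zero.2 (mem_lev.1 hp)]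
          omega
        · intro p _ hp
          by_contra h
          exact hp (h6 p h)
      rw [g1, g2, h3, h5]
      omega
    · intro p hp
      rw [mem_compl, mem_N1]
      intro h
      apply hp
      rw [Pi.add_apply, hT p (by omega), hk p (by omega)]
      rfl
    · intro p hp
      rw [Pi.add_apply, hT p (by omega), hk p (by omega)]
    · intro p hp
      rw [Pi.add_apply, hk p (by omega)]
      unfold ind
      split_ifs <;> omega
    · intro p q hpq hp hq
      have h7 := fr_ds hg hpq
      rw [Pi.add_apply, hk q (by omega), add_zero, ind_pos] at hq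
      rw [Pi.add_apply, ind_mem (h4 p q hpq hp hq)]
      omega
  · intro e he
    unfold E01 at he
    rw [mem_filter, mem_piAntidiag] at he
    obtain ⟨⟨h1, h2⟩, h3⟩ := he
    have h4 : (N1 α i)ᶜ = FarS α i ∪ lev α i := by
      ext p
      rw [mem_compl, mem_union, mem_N1, mem_FarS, mem_lev, ← ds_eq_zero (i := i)]
      omega
    have h5 : Disjoint (FarS α i) (lev α i) := by
      rw [Finset.disjoint_left]
      intro p hp hp'
      rw [mem_FarS, ds_eq_zero.2 (mem_lev.1 hp')] at hp
      omega
    have h6 : ∑ p ∈ FarS α i, e p = ((FarS α i).filter fun p => e p ≠ 0).card := by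
      rw [Finset.card_filter]
      apply sum_congr rfl
      intro p hp
      have := h3.le p (mem_FarS.1 hp)
      split_ifs <;> omega
    have h7 : ((N1 α i)ᶜ).sum e = s := h1
    rw [h4, sum_union h5, h6] at h7
    rw [mem_sigma, mem_sigma, mem_piAntidiag, mem_range]
    unfold ClT
    rw [mem_filter, mem_powersetCard]
    refine ⟨by simp only; omega, ⟨⟨filter_subset _ _, rfl⟩, ?_⟩, ?_, ?_⟩
    · intro p q hpq hp hq
      rw [mem_filter] at hq ⊢
      refine ⟨mem_FarS.2 hp, ?_⟩
      have := h3.clo p q hpq hp (by omega)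
      omega
    · simp only
      have : ∑ p ∈ lev α i, (if p ∈ lev α i then e p else 0) = ∑ p ∈ lev α i, e p := by
        apply sum_congr rfl
        intro p hp
        rw [if_pos hp]
      rw [this]
      omega
    · intro p hp
      simp only at hp
      by_contra h
      rw [if_neg h] at hp
      exact hp rfl
  · rintro ⟨j, T, k⟩ hx
    rw [mem_sigma, mem_sigma, mem_piAntidiag, mem_range] at hx
    unfold ClT at hx
    rw [mem_filter, mem_powersetCard] at hx
    obtain ⟨h1, ⟨⟨h2, h3⟩, h4⟩, h5, h6⟩ := hx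
    simp only at h1 h2 h3 h4 h5 h6
    have hT : ∀ p, ds i p < 2 → ind T p = 0 := by
      intro p hp
      apply ind_notMem
      intro h
      have := mem_FarS.1 (h2 h)
      omega
    have hk : ∀ p, ds i p ≠ 0 → k p = 0 := by
      intro p hp
      by_contra h
      exact hp (ds_eq_zero.2 (mem_lev.1 (h6 p h)))
    have g1 : ((FarS α i).filter fun p => (ind T + k) p ≠ 0) = T := by
      ext p
      rw [mem_filter]
      constructor
      · rintro ⟨g2, g3⟩
        rw [mem_FarS] at g2
        rw [Pi.add_apply, hk p (by omega), add_zero] at g3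
        exact ind_pos.1 (Nat.pos_of_ne_zero g3)
      · intro g2
        refine ⟨h2 g2, ?_⟩
        rw [Pi.add_apply, ind_mem g2]
        omega
    have g2 : (fun p => if p ∈ lev α i then (ind T + k) p else 0) = k := by
      funext p
      split_ifs with g3
      · rw [mem_lev] at g3
        rw [Pi.add_apply, hT p (by rw [ds_eq_zero.2 g3]; omega), zero_add]
      · rw [mem_lev] at g3
        rw [hk p (fun h => g3 (ds_eq_zero.1 h))]
    simp only
    rw [g1, g2, h3]
  · intro e he
    unfold E01 at he
    rw [mem_filter, mem_piAntidiag] at he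
    obtain ⟨⟨h1, h2⟩, h3⟩ := he
    funext p
    rw [Pi.add_apply]
    simp only
    have hd : ds i p = 0 ∨ ds i p = 1 ∨ 2 ≤ ds i p := by omega
    rcases hd with h | h | h
    · rw [if_pos (mem_lev.2 (ds_eq_zero.1 h)), ind_notMem, zero_add]
      rw [mem_filter, mem_FarS]
      omega
    · rw [h3.near p h, if_neg, ind_notMem]
      · rw [mem_filter, mem_FarS]
        omega
      · intro h4
        rw [ds_eq_zero.2 (mem_lev.1 h4)] at h
        omega
    · rw [if_neg]
      · by_cases h4 : e p = 0
        · rw [ind_notMem, h4]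
          rw [mem_filter]
          tauto
        · rw [ind_mem (mem_filter.2 ⟨mem_FarS.2 h, h4⟩)]
          have := h3.le p h
          omega
      · intro h4
        rw [ds_eq_zero.2 (mem_lev.1 h4)] at h
        omega
  · rintro ⟨j, T, k⟩ _
    rfl

/-! ### small closed sets -/

lemma ClT_zero : ClT α i 0 = {∅} := by
  unfold ClT
  rw [powersetCard_zero, Finset.filter_eq_self.2]
  intro T hT
  rw [mem_singleton] at hT
  subst hT
  simp

lemma fr_far (hg : Grad α) {p q : α} (h : fr i p q) (hq : ds i q = 2) : ¬ 2 ≤ ds i p := by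
  have := fr_ds hg h
  omega

lemma sum_ClT_one (hg : Grad α) (hl : HasLower α i) {R : Type} [AddCommMonoid R]
    (f : Finset α → R) : ∑ T ∈ ClT α i 1, f T = ∑ q ∈ D2 α i, f {q} := by
  have h1 : ClT α i 1 = (D2 α i).image fun q => {q} := by
    ext T
    unfold ClT
    rw [mem_filter, mem_powersetCard, mem_image]
    constructor
    · rintro ⟨⟨h1, h2⟩, h3⟩
      obtain ⟨q, rfl⟩ := Finset.card_eq_one.1 h2
      refine ⟨q, ?_, rfl⟩
      rw [mem_D2]
      have h4 := mem_FarS.1 (h1 (mem_singleton_self q))
      by_contra h5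
      obtain ⟨t, ht⟩ := exists_near hg hl (p := q) (fun h => by
        rw [ds_eq_zero.2 h] at h4
        omega)
      have h6 := fr_ds hg ht
      have h7 := h3 t q ht (by omega) (mem_singleton_self q)
      rw [mem_singleton] at h7
      rw [h7] at h6
      omega
    · rintro ⟨q, hq, rfl⟩
      rw [mem_D2] at hq
      refine ⟨⟨?_, card_singleton q⟩, ?_⟩
      · intro t ht
        rw [mem_singleton] at ht
        rw [ht, mem_FarS]
        omega
      · intro p t hpt hp ht
        rw [mem_singleton] at ht
        rw [ht] at hpt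
        exact absurd hp (fr_far hg hpt hq)
  rw [h1, Finset.sum_image]
  intro q _ q' _ h
  exact Finset.singleton_injective h

/-- the elements at distance three with the only nearer neighbour `q` -/
noncomputable def Gq (i : ℕ) (q : α) : Finset α := univ.filter fun v => ds i v = 3 ∧ bd i v = {q}

lemma mem_Gq {q v : α} : v ∈ Gq i q ↔ ds i v = 3 ∧ bd i v = {q} := by simp [Gq]

lemma sum_ClT_two (hg : Grad α) (hl : HasLower α i) {R : Type} [AddCommMonoid R]
    (f : Finset α → R) : ∑ T ∈ ClT α i 2, f T =
      ∑ T ∈ (D2 α i).powersetCard 2, f T + ∑ q ∈ D2 α i, ∑ v ∈ Gq i q, f {q, v} := by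
  have h1 : ClT α i 2 = (D2 α i).powersetCard 2 ∪
      ((D2 α i).sigma fun q => Gq i q).image (fun x => {x.1, x.2}) := by
    ext T
    rw [mem_union, mem_image]
    unfold ClT
    rw [mem_filter, mem_powersetCard, mem_powersetCard]
    constructor
    · rintro ⟨⟨h1, h2⟩, h3⟩
      by_cases h4 : ∀ q ∈ T, ds i q = 2
      · exact Or.inl ⟨fun q hq => mem_D2.2 (h4 q hq), h2⟩
      · right
        push Not at h4
        obtain ⟨v, hv, hv2⟩ := h4
        have h5 := mem_FarS.1 (h1 hv)
        obtain ⟨t, ht⟩ := exists_near hg hl (p := v) (fun h => by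
          rw [ds_eq_zero.2 h] at h5
          omega)
        have h6 := fr_ds hg ht
        have h7 := h3 t v ht (by omega) hv
        have h8 : t ≠ v := by
          rintro rfl
          omega
        have h9 : T = {t, v} := by
          symm
          apply Finset.eq_of_subset_of_card_le
          · intro a ha
            rw [mem_insert, mem_singleton] at ha
            rcases ha with rfl | rfl
            · exact h7
            · exact hv
          · rw [h2, card_pair h8]
        -- `t` is at distance two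
        have h10 : ds i t = 2 := by
          by_contra h11
          obtain ⟨r, hr⟩ := exists_near hg hl (p := t) (fun h => by
            rw [ds_eq_zero.2 h] at h6
            omega)
          have h12 := fr_ds hg hr
          have h13 := h3 r t hr (by omega) h7
          rw [h9, mem_insert, mem_singleton] at h13
          rcases h13 with rfl | rfl
          · omega
          · omega
        refine ⟨⟨t, v⟩, ?_, h9.symm⟩
        rw [mem_sigma, mem_D2, mem_Gq]
        refine ⟨h10, by simp only; omega, ?_⟩
        show bd i v = {t}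
        ext r
        rw [mem_singleton]
        constructor
        · intro hr
          have h11 := fr_ds hg (mem_bd.1 hr)
          have h12 := h3 r v (mem_bd.1 hr) (by omega) hv
          rw [h9, mem_insert, mem_singleton] at h12
          rcases h12 with h12 | h12
          · exact h12
          · rw [h12] at h11
            omega
        · rintro rfl
          exact mem_bd.2 ht
    · rintro (⟨h1, h2⟩ | ⟨⟨q, v⟩, hx, rfl⟩)
      · refine ⟨⟨?_, h2⟩, ?_⟩
        · intro q hq
          have := mem_D2.1 (h1 hq)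
          exact mem_FarS.2 (by omega)
        · intro p q hpq hp hq
          exact absurd hp (fr_far hg hpq (mem_D2.1 (h1 hq)))
      · rw [mem_sigma, mem_D2, mem_Gq] at hx
        obtain ⟨h1, h2, h3⟩ := hx
        simp only at h1 h2 h3 ⊢
        have h4 : q ≠ v := by
          rintro rfl
          omega
        refine ⟨⟨?_, card_pair h4⟩, ?_⟩
        · intro t ht
          rw [mem_insert, mem_singleton] at ht
          rcases ht with rfl | rfl
          · exact mem_FarS.2 (by omega)
          · exact mem_FarS.2 (by omega)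
        · intro p t hpt hp ht
          rw [mem_insert, mem_singleton] at ht
          rcases ht with rfl | rfl
          · exact absurd hp (fr_far hg hpt h1)
          · have h5 := mem_bd.2 hpt
            rw [h3, mem_singleton] at h5
            rw [h5]
            exact mem_insert_self _ _
  rw [h1, sum_union, Finset.sum_image, Finset.sum_sigma]
  · rintro ⟨q, v⟩ hx ⟨q', v'⟩ hx' h
    rw [mem_coe, mem_sigma, mem_D2, mem_Gq] at hx hx'
    obtain ⟨h1, h2, h3⟩ := hx
    obtain ⟨h1', h2', h3'⟩ := hx'
    simp only at h1 h2 h3 h1' h2' h3' h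
    have e1 : q ∈ ({q', v'} : Finset α) := by
      rw [← h]
      exact mem_insert_self _ _
    have e2 : v ∈ ({q', v'} : Finset α) := by
      rw [← h]
      exact mem_insert_of_mem (mem_singleton_self _)
    rw [mem_insert, mem_singleton] at e1 e2
    have g1 : q = q' := by
      rcases e1 with e1 | e1
      · exact e1
      · rw [e1] at h1
        omega
    have g2 : v = v' := by
      rcases e2 with e2 | e2
      · rw [e2] at h2
        omega
      · exact e2
    subst g1
    subst g2
    rfl
  · rw [Finset.disjoint_left]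
    intro T h1 h2
    rw [mem_powersetCard] at h1
    rw [mem_image] at h2
    obtain ⟨⟨q, v⟩, hx, rfl⟩ := h2
    rw [mem_sigma, mem_D2, mem_Gq] at hx
    have h3 := mem_D2.1 (h1.1 (mem_insert_of_mem (mem_singleton_self v)))
    have h4 := hx.2.1
    simp only at h4
    omega

/-- energies on level `i` -/
noncomputable def KL (α : Type) [Fintype α] [PartialOrder α] (i s : ℕ) : Finset (α → ℕ) :=
  (lev α i).piAntidiag s

lemma KL_zero : KL α i 0 = {0} := by
  unfold KL
  rw [piAntidiag_zero]

lemma sum_KL_one {R : Type} [AddCommMonoid R] (f : (α → ℕ) → R) :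
    ∑ k ∈ KL α i 1, f k = ∑ y ∈ lev α i, f (ind {y}) := by
  have h1 : KL α i 1 = (lev α i).image fun y => ind {y} := by
    ext k
    unfold KL
    rw [mem_piAntidiag, mem_image]
    constructor
    · rintro ⟨h1, h2⟩
      have h3 : ∃ y ∈ lev α i, k y ≠ 0 := by
        by_contra h4
        push Not at h4
        have : (lev α i).sum k = 0 := Finset.sum_eq_zero h4
        omega
      obtain ⟨y, hy, hy0⟩ := h3
      refine ⟨y, hy, ?_⟩
      symm
      apply eq_ind
      · intro p hp
        rw [mem_singleton] at hp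
        rw [hp]
        omega
      · rw [card_singleton]
        have h4 : ∑ p, k p = ∑ p ∈ lev α i, k p := by
          symm
          apply Finset.sum_subset (subset_univ _)
          intro p _ hp
          by_contra h
          exact hp (h2 p h)
        rw [h4]
        exact h1.le
    · rintro ⟨y, hy, rfl⟩
      constructor
      · have h4 : ∑ p ∈ lev α i, ind {y} p = ∑ p, ind {y} p := by
          apply Finset.sum_subset (subset_univ _)
          intro p _ hp
          apply ind_notMem
          rw [mem_singleton]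
          rintro rfl
          exact hp hy
        rw [h4, sum_ind, card_singleton]
      · intro p hp
        have := ind_pos.1 (Nat.pos_of_ne_zero hp)
        rw [mem_singleton] at this
        rw [this]
        exact hy
  rw [h1, Finset.sum_image]
  intro y _ y' _ h
  exact Finset.singleton_injective (ind_inj h)

lemma WT_empty (k : α → ℕ) : WT i (∅ : Finset α) k = ∏ p ∈ N1 α i, GA i k p := by
  unfold WT
  apply prod_congr rfl
  intro p _
  rw [if_neg]
  rintro ⟨q, hq, _⟩
  simp at hq

lemma WT_Gq (hg : Grad α) {q v : α} (hq : ds i q = 2) (hv : v ∈ Gq i q) (k : α → ℕ) :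
    WT i {q, v} k = WT i {q} k := by
  unfold WT
  apply prod_congr rfl
  intro p hp
  rw [mem_N1] at hp
  have h1 : (∃ r ∈ ({q, v} : Finset α), fr i p r) ↔ ∃ r ∈ ({q} : Finset α), fr i p r := by
    constructor
    · rintro ⟨r, hr, h⟩
      rw [mem_insert, mem_singleton] at hr
      rcases hr with rfl | rfl
      · exact ⟨r, mem_singleton_self r, h⟩
      · have h2 := fr_ds hg h
        have h3 := (mem_Gq.1 hv).1
        omega
    · rintro ⟨r, hr, h⟩
      rw [mem_singleton] at hr
      exact ⟨r, by rw [hr]; exact mem_insert_self _ _, h⟩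
  simp only [h1]

/-- **the far parts 0/1 of energy at most two, explicitly** -/
theorem sum_E01_explicit (hg : Grad α) (hl : HasLower α i) :
    (∑ e ∈ E01 α i 0, Ev wA (WA i e) = Ev wA (WT i (∅ : Finset α) 0)) ∧
    (∑ e ∈ E01 α i 1, Ev wA (WA i e) = ∑ y ∈ lev α i, Ev wA (WT i (∅ : Finset α) (ind {y})) +
      ∑ q ∈ D2 α i, Ev wA (WT i {q} 0)) ∧
    (∑ e ∈ E01 α i 2, Ev wA (WA i e) = ∑ k ∈ KL α i 2, Ev wA (WT i (∅ : Finset α) k) +
      ∑ q ∈ D2 α i, ∑ y ∈ lev α i, Ev wA (WT i {q} (ind {y})) +
      ∑ T ∈ (D2 α i).powersetCard 2, Ev wA (WT i T 0) +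
      ∑ q ∈ D2 α i, ((Gq i q).card : AA) * Ev wA (WT i {q} 0)) := by
  have hW : ∀ j s, ∀ T ∈ ClT α i j, ∀ k ∈ KL α i s, WA i (ind T + k) = WT i T k := by
    intro j s T hT k hk
    unfold ClT at hT
    rw [mem_filter, mem_powersetCard] at hT
    unfold KL at hk
    rw [mem_piAntidiag] at hk
    exact WA_eq_WT hg hT.1.1 fun p hp => mem_lev.1 (hk.2 p hp)
  have hE : ∀ s, ∑ e ∈ E01 α i s, Ev wA (WA i e) = ∑ j ∈ range (s + 1), ∑ T ∈ ClT α i j,
      ∑ k ∈ KL α i (s - j), Ev wA (WT i T k) := by
    intro s
    rw [sum_E01 hg]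
    apply sum_congr rfl
    intro j _
    apply sum_congr rfl
    intro T hT
    apply sum_congr rfl
    intro k hk
    rw [hW j (s - j) T hT k hk]
  refine ⟨?_, ?_, ?_⟩
  · rw [hE 0, Finset.sum_range_one, ClT_zero, Finset.sum_singleton, Nat.sub_self, KL_zero,
      Finset.sum_singleton]
  · rw [hE 1, Finset.sum_range_succ, Finset.sum_range_one, ClT_zero, Finset.sum_singleton,
      Nat.sub_zero, Nat.sub_self, KL_zero, sum_KL_one, sum_ClT_one hg hl]
    congr 1
    apply sum_congr rfl
    intro q _
    rw [Finset.sum_singleton]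
  · rw [hE 2, Finset.sum_range_succ, Finset.sum_range_succ, Finset.sum_range_one, ClT_zero,
      Finset.sum_singleton, Nat.sub_zero, Nat.sub_self, KL_zero, sum_ClT_one hg hl,
      sum_ClT_two hg hl]
    rw [show 2 - 1 = 1 from rfl]
    have h1 : ∑ q ∈ D2 α i, ∑ k ∈ KL α i 1, Ev wA (WT i {q} k) =
        ∑ q ∈ D2 α i, ∑ y ∈ lev α i, Ev wA (WT i {q} (ind {y})) := by
      apply sum_congr rfl
      intro q _
      rw [sum_KL_one]
    have h2 : ∑ q ∈ D2 α i, ∑ v ∈ Gq i q, ∑ k ∈ ({0} : Finset (α → ℕ)),
        Ev wA (WT i {q, v} k) = ∑ q ∈ D2 α i, ((Gq i q).card : AA) * Ev wA (WT i {q} 0) := by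
      apply sum_congr rfl
      intro q hq
      have h3 : ∀ v ∈ Gq i q, ∑ k ∈ ({0} : Finset (α → ℕ)), Ev wA (WT i {q, v} k) =
          Ev wA (WT i {q} 0) := by
        intro v hv
        rw [Finset.sum_singleton, WT_Gq hg (mem_D2.1 hq) hv]
      rw [sum_congr rfl h3, Finset.sum_const, nsmul_eq_mul]
    have h3 : ∑ T ∈ (D2 α i).powersetCard 2, ∑ k ∈ ({0} : Finset (α → ℕ)), Ev wA (WT i T k) =
        ∑ T ∈ (D2 α i).powersetCard 2, Ev wA (WT i T 0) := by
      apply sum_congr rfl
      intro T _
      rw [Finset.sum_singleton]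
    rw [h1, h2, h3]
    ring

/-- **the model, explicit form** -/
theorem exists_KNexp {h : Fin (Fintype.card α) → ℕ} (hG : IsGaussianWith α h)
    (hl : HasLower α i) (hdeg : ∀ p : α, (bd i p).card ≤ 2) :
    ∃ KN : AA, Low KN ∧
      (∃ R Q : AA, KN = Ev wA (WT i (∅ : Finset α) 0) +
        qA * (∑ y ∈ lev α i, Ev wA (WT i (∅ : Finset α) (ind {y})) + ∑ q ∈ D2 α i, Ev wA (WT i {q} 0)) +
        qA ^ 2 * (∑ k ∈ KL α i 2, Ev wA (WT i (∅ : Finset α) k) +
          ∑ q ∈ D2 α i, ∑ y ∈ lev α i, Ev wA (WT i {q} (ind {y})) +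
          ∑ T ∈ (D2 α i).powersetCard 2, Ev wA (WT i T 0) +
          ∑ q ∈ D2 α i, ((Gq i q).card : AA) * Ev wA (WT i {q} 0)) +
        ∑ q ∈ D2 α i, VQ i q + ZA ^ 5 * R + wA ^ 3 * Q) ∧
      ∀ J, 4 ≤ J → ∃ R Q : AA, KN = Ev wA (WT i (∅ : Finset α) 0) +
        qA * (∑ y ∈ lev α i, Ev wA (WT i (∅ : Finset α) (ind {y})) + ∑ q ∈ D2 α i, Ev wA (WT i {q} 0)) +
        ∑ q ∈ D2 α i, VQ i q + ZA ^ (J + 1) * R + wA ^ 2 * Q := by
  have hg := grad hG
  obtain ⟨KN, h1, h2, h3⟩ := exists_KNmod hG hl hdeg
  obtain ⟨e0, e1, e2⟩ := sum_E01_explicit hg hl (i := i)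
  refine ⟨KN, h1, ?_, ?_⟩
  · obtain ⟨R, Q, hRQ⟩ := h2
    refine ⟨R, Q, ?_⟩
    rw [Finset.sum_range_succ, Finset.sum_range_succ, Finset.sum_range_one, ← mul_sum, ← mul_sum,
      ← mul_sum, e0, e1, e2] at hRQ
    rw [hRQ]
    ring
  · intro J hJ
    obtain ⟨R, Q, hRQ⟩ := h3 J hJ
    refine ⟨R, Q, ?_⟩
    rw [Finset.sum_range_succ, Finset.sum_range_one, ← mul_sum, ← mul_sum, e0, e1] at hRQ
    rw [hRQ]
    ring

end Pool.Gauss
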