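import Pool.Agent.Work.MP_065141_co.K.EvEq
import Pool.Agent.Work.MP_065141_co.K.DeepC

/-!
# Grouping of the elements next to level `i`: maximal matchings

No hypothesis on the multigraphs below and above the row.
-/

set_option autoImplicit false
set_option linter.unusedSectionVars false
open scoped Classical
open Finset Polynomial

namespace Pool.Gauss

variable {α : Type} [Fintype α] [PartialOrder α] {i : ℕ}

/-! ### the classes -/

/-- the elements with one neighbour -/
noncomputable def Sg (α : Type) [Fintype α] [PartialOrder α] (i : ℕ) : Finset α :=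
  (N1 α i).filter fun p => (bd i p).card = 1

/-- the double elements below -/
noncomputable def DX (α : Type) [Fintype α] [PartialOrder α] (i : ℕ) : Finset α :=
  univ.filter fun p => corank p = i + 1 ∧ (bd i p).card = 2

/-- the double elements above -/
noncomputable def DZ (α : Type) [Fintype α] [PartialOrder α] (i : ℕ) : Finset α :=
  univ.filter fun p => corank p + 1 = i ∧ (bd i p).card = 2

/-- the unmatched double elements below: new edges -/
noncomputable def Mat.Xn (m : Mat α i) : Finset α := (DX α i).filter fun p => p ∉ m.M.image Prod.snd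

/-- the unmatched double elements above: lost edges -/
noncomputable def Mat.Zl (m : Mat α i) : Finset α := (DZ α i).filter fun p => p ∉ m.M.image Prod.fst

lemma mem_Sg {p : α} : p ∈ Sg α i ↔ ds i p = 1 ∧ (bd i p).card = 1 := by
  unfold Sg
  rw [mem_filter, mem_N1]

lemma mem_DX {p : α} : p ∈ DX α i ↔ corank p = i + 1 ∧ (bd i p).card = 2 := by
  unfold DX
  rw [mem_filter]
  simp

lemma mem_DZ {p : α} : p ∈ DZ α i ↔ corank p + 1 = i ∧ (bd i p).card = 2 := by
  unfold DZ
  rw [mem_filter]
  simp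

lemma Mat.mem_Xn {m : Mat α i} {p : α} : p ∈ m.Xn ↔
    corank p = i + 1 ∧ (bd i p).card = 2 ∧ ∀ z, (z, p) ∉ m.M := by
  unfold Mat.Xn
  rw [mem_filter, mem_DX, mem_image]
  constructor
  · rintro ⟨⟨h1, h2⟩, h3⟩
    exact ⟨h1, h2, fun z hz => h3 ⟨(z, p), hz, rfl⟩⟩
  · rintro ⟨h1, h2, h3⟩
    refine ⟨⟨h1, h2⟩, ?_⟩
    rintro ⟨⟨z, x⟩, hz, rfl⟩
    exact h3 z hz

lemma Mat.mem_Zl {m : Mat α i} {p : α} : p ∈ m.Zl ↔
    corank p + 1 = i ∧ (bd i p).card = 2 ∧ ∀ x, (p, x) ∉ m.M := by
  unfold Mat.Zl
  rw [mem_filter, mem_DZ, mem_image]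
  constructor
  · rintro ⟨⟨h1, h2⟩, h3⟩
    exact ⟨h1, h2, fun x hx => h3 ⟨(p, x), hx, rfl⟩⟩
  · rintro ⟨h1, h2, h3⟩
    refine ⟨⟨h1, h2⟩, ?_⟩
    rintro ⟨⟨z, x⟩, hz, rfl⟩
    exact h3 x hz

/-- the pair under a matched pair of elements -/
lemma Mat.bd_pair (hg : Grad α) (m : Mat α i) {e : α × α} (he : e ∈ m.M) :
    ∃ y y', y ≠ y' ∧ bd i e.1 = {y, y'} ∧ bd i e.2 = {y, y'} := by
  obtain ⟨y, y', hne, hz, hx⟩ := m.two e he
  refine ⟨y, y', hne, ?_, ?_⟩
  · ext t
    rw [bd_above hg (m.cz e he), hz, mem_insert, mem_singleton]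
  · ext t
    rw [bd_below hg (m.cx e he), hx, mem_insert, mem_singleton]

lemma Mat.bd_eq (hg : Grad α) (m : Mat α i) {e : α × α} (he : e ∈ m.M) :
    bd i e.1 = bd i e.2 := by
  obtain ⟨y, y', _, h1, h2⟩ := m.bd_pair hg he
  rw [h1, h2]

lemma Mat.fst_mem (hg : Grad α) (m : Mat α i) {e : α × α} (he : e ∈ m.M) : e.1 ∈ DZ α i := by
  obtain ⟨y, y', hne, h1, h2⟩ := m.bd_pair hg he
  rw [mem_DZ, h1, card_pair hne]
  exact ⟨m.cz e he, rfl⟩

lemma Mat.snd_mem (hg : Grad α) (m : Mat α i) {e : α × α} (he : e ∈ m.M) : e.2 ∈ DX α i := by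
  obtain ⟨y, y', hne, h1, h2⟩ := m.bd_pair hg he
  rw [mem_DX, h2, card_pair hne]
  exact ⟨m.cx e he, rfl⟩

/-! ### maximal matchings -/

/-- no unmatched element above has the same pair as an unmatched element below -/
def Mat.Maxi (m : Mat α i) : Prop := ∀ x ∈ m.Xn, ∀ z ∈ m.Zl, bd i x ≠ bd i z

/-- insertion of a pair -/
noncomputable def Mat.ins (hg : Grad α) (m : Mat α i) {x z : α} (hx : x ∈ m.Xn) (hz : z ∈ m.Zl)
    (h : bd i x = bd i z) : Mat α i where
  M := insert (z, x) m.M
  cz := by
    intro e he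
    rw [mem_insert] at he
    rcases he with rfl | he
    · exact (Mat.mem_Zl.1 hz).1
    · exact m.cz e he
  cx := by
    intro e he
    rw [mem_insert] at he
    rcases he with rfl | he
    · exact (Mat.mem_Xn.1 hx).1
    · exact m.cx e he
  two := by
    intro e he
    rw [mem_insert] at he
    rcases he with rfl | he
    · have h1 := Mat.mem_Xn.1 hx
      have h2 := Mat.mem_Zl.1 hz
      obtain ⟨y, y', hne, h3⟩ := Finset.card_eq_two.1 h1.2.1
      refine ⟨y, y', hne, fun t => ?_, fun t => ?_⟩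
      · rw [← bd_above hg h2.1, ← h, h3, mem_insert, mem_singleton]
      · rw [← bd_below hg h1.1, h3, mem_insert, mem_singleton]
    · exact m.two e he
  inj1 := by
    intro e he e' he' h1
    rw [mem_insert] at he he'
    rcases he with rfl | he <;> rcases he' with rfl | he'
    · rfl
    · exfalso
      apply (Mat.mem_Zl.1 hz).2.2 e'.2
      simp only at h1
      rw [h1]
      exact he'
    · exfalso
      apply (Mat.mem_Zl.1 hz).2.2 e.2
      simp only at h1
      rw [← h1]
      exact he
    · exact m.inj1 e he e' he' h1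
  inj2 := by
    intro e he e' he' h1
    rw [mem_insert] at he he'
    rcases he with rfl | he <;> rcases he' with rfl | he'
    · rfl
    · exfalso
      apply (Mat.mem_Xn.1 hx).2.2 e'.1
      simp only at h1
      rw [h1]
      exact he'
    · exfalso
      apply (Mat.mem_Xn.1 hx).2.2 e.1
      simp only at h1
      rw [← h1]
      exact he
    · exact m.inj2 e he e' he' h1

/-- the empty matching -/
noncomputable def Mat.emp (α : Type) [Fintype α] [PartialOrder α] (i : ℕ) : Mat α i where
  M := ∅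
  cz := by simp
  cx := by simp
  two := by simp
  inj1 := by simp
  inj2 := by simp

/-- **a maximal matching exists** -/
theorem exists_maxi (hg : Grad α) (i : ℕ) : ∃ m : Mat α i, m.Maxi := by
  have key : ∀ n : ℕ, ∀ m : Mat α i, Fintype.card (α × α) ≤ m.M.card + n →
      ∃ m : Mat α i, m.Maxi := by
    intro n
    induction n with
    | zero =>
      intro m hm
      refine ⟨m, ?_⟩
      intro x hx z hz h
      have h1 : (m.ins hg hx hz h).M.card ≤ Fintype.card (α × α) := Finset.card_le_univ _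
      have h2 : (m.ins hg hx hz h).M.card = m.M.card + 1 := by
        apply card_insert_of_notMem
        exact (Mat.mem_Zl.1 hz).2.2 x
      omega
    | succ n ih =>
      intro m hm
      by_cases hmax : m.Maxi
      · exact ⟨m, hmax⟩
      · unfold Mat.Maxi at hmax
        push Not at hmax
        obtain ⟨x, hx, z, hz, h⟩ := hmax
        apply ih (m.ins hg hx hz h)
        have h2 : (m.ins hg hx hz h).M.card = m.M.card + 1 := by
          apply card_insert_of_notMem
          exact (Mat.mem_Zl.1 hz).2.2 x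
        omega
  exact key (Fintype.card (α × α)) (Mat.emp α i) (by omega)

/-! ### counts per pair -/

lemma Mat.card_DX (hg : Grad α) (m : Mat α i) (s : Finset α) :
    ((DX α i).filter fun p => bd i p = s).card =
      (m.M.filter fun e => bd i e.1 = s).card + (m.Xn.filter fun p => bd i p = s).card := by
  have h1 : (m.M.filter fun e => bd i e.1 = s).card =
      ((m.M.filter fun e => bd i e.1 = s).image Prod.snd).card := by
    rw [card_image_of_injOn]
    intro e he e' he' h
    rw [mem_coe, mem_filter] at he he'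
    exact m.inj2 e he.1 e' he'.1 h
  rw [h1, ← card_union_of_disjoint]
  · congr 1
    ext p
    rw [mem_filter, mem_union, mem_image, mem_filter, Mat.Xn, mem_filter, mem_image]
    constructor
    · rintro ⟨h2, h3⟩
      by_cases h4 : ∃ e ∈ m.M, e.2 = p
      · obtain ⟨e, he, rfl⟩ := h4
        exact Or.inl ⟨e, mem_filter.2 ⟨he, by rw [m.bd_eq hg he, h3]⟩, rfl⟩
      · exact Or.inr ⟨⟨h2, h4⟩, h3⟩
    · rintro (⟨e, he, rfl⟩ | ⟨⟨h2, _⟩, h3⟩)
      · rw [mem_filter] at he
        exact ⟨m.snd_mem hg he.1, by rw [← m.bd_eq hg he.1, he.2]⟩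
      · exact ⟨h2, h3⟩
  · rw [Finset.disjoint_left]
    intro p hp hp'
    rw [mem_image] at hp
    obtain ⟨e, he, rfl⟩ := hp
    rw [mem_filter, Mat.Xn, mem_filter] at hp'
    exact hp'.1.2 (mem_image.2 ⟨e, (mem_filter.1 he).1, rfl⟩)

lemma Mat.card_DZ (hg : Grad α) (m : Mat α i) (s : Finset α) :
    ((DZ α i).filter fun p => bd i p = s).card =
      (m.M.filter fun e => bd i e.1 = s).card + (m.Zl.filter fun p => bd i p = s).card := by
  have h1 : (m.M.filter fun e => bd i e.1 = s).card =
      ((m.M.filter fun e => bd i e.1 = s).image Prod.fst).card := by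
    rw [card_image_of_injOn]
    intro e he e' he' h
    rw [mem_coe, mem_filter] at he he'
    exact m.inj1 e he.1 e' he'.1 h
  rw [h1, ← card_union_of_disjoint]
  · congr 1
    ext p
    rw [mem_filter, mem_union, mem_image, mem_filter, Mat.Zl, mem_filter, mem_image]
    constructor
    · rintro ⟨h2, h3⟩
      by_cases h4 : ∃ e ∈ m.M, e.1 = p
      · obtain ⟨e, he, rfl⟩ := h4
        exact Or.inl ⟨e, mem_filter.2 ⟨he, h3⟩, rfl⟩
      · exact Or.inr ⟨⟨h2, h4⟩, h3⟩
    · rintro (⟨e, he, rfl⟩ | ⟨⟨h2, _⟩, h3⟩)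
      · rw [mem_filter] at he
        exact ⟨m.fst_mem hg he.1, he.2⟩
      · exact ⟨h2, h3⟩
  · rw [Finset.disjoint_left]
    intro p hp hp'
    rw [mem_image] at hp
    obtain ⟨e, he, rfl⟩ := hp
    rw [mem_filter, Mat.Zl, mem_filter] at hp'
    exact hp'.1.2 (mem_image.2 ⟨e, (mem_filter.1 he).1, rfl⟩)

/-- in a maximal matching, over every pair one of the two classes of unmatched elements is empty -/
lemma Mat.Maxi.or (m : Mat α i) (h : m.Maxi) (s : Finset α) :
    (m.Xn.filter fun p => bd i p = s) = ∅ ∨ (m.Zl.filter fun p => bd i p = s) = ∅ := by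
  by_contra hcon
  push Not at hcon
  obtain ⟨h1, h2⟩ := hcon
  obtain ⟨x, hx⟩ := h1
  obtain ⟨z, hz⟩ := h2
  rw [mem_filter] at hx hz
  exact h x hx.1 z hz.1 (hx.2.trans hz.2.symm)

/-- number of new edges over a pair -/
lemma Mat.Maxi.card_Xn (hg : Grad α) (m : Mat α i) (h : m.Maxi) (s : Finset α) :
    (m.Xn.filter fun p => bd i p = s).card = ((DX α i).filter fun p => bd i p = s).card -
      ((DZ α i).filter fun p => bd i p = s).card := by
  have h1 := m.card_DX hg s
  have h2 := m.card_DZ hg s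
  rcases h.or m s with h3 | h3
  · have h4 := congrArg Finset.card h3
    rw [card_empty] at h4
    omega
  · have h4 := congrArg Finset.card h3
    rw [card_empty] at h4
    omega

/-- number of lost edges over a pair -/
lemma Mat.Maxi.card_Zl (hg : Grad α) (m : Mat α i) (h : m.Maxi) (s : Finset α) :
    (m.Zl.filter fun p => bd i p = s).card = ((DZ α i).filter fun p => bd i p = s).card -
      ((DX α i).filter fun p => bd i p = s).card := by
  have h1 := m.card_DX hg s
  have h2 := m.card_DZ hg s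
  rcases h.or m s with h3 | h3
  · have h4 := congrArg Finset.card h3
    rw [card_empty] at h4
    omega
  · have h4 := congrArg Finset.card h3
    rw [card_empty] at h4
    omega

/-! ### regrouping of products -/

lemma N1_split (hg : Grad α) (hl : HasLower α i) (hdeg : ∀ p : α, (bd i p).card ≤ 2)
    (m : Mat α i) : N1 α i = (m.M.image Prod.fst ∪ m.M.image Prod.snd) ∪
      (Sg α i ∪ (m.Xn ∪ m.Zl)) := by
  ext p
  rw [mem_union, mem_union, mem_union, mem_union, mem_image, mem_image, mem_N1]
  constructor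
  · intro h
    have h1 := ds_one_iff.1 h
    have h2 : 0 < (bd i p).card := by
      obtain ⟨t, ht⟩ := exists_near hg hl (p := p) (by omega)
      exact card_pos.2 ⟨t, mem_bd.2 ht⟩
    have h3 := hdeg p
    rcases (show (bd i p).card = 1 ∨ (bd i p).card = 2 by omega) with h4 | h4
    · exact Or.inr (Or.inl (mem_Sg.2 ⟨h, h4⟩))
    · rcases h1 with h1 | h1
      · by_cases h5 : ∃ x, (p, x) ∈ m.M
        · obtain ⟨x, hx⟩ := h5
          exact Or.inl (Or.inl ⟨(p, x), hx, rfl⟩)
        · push Not at h5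
          exact Or.inr (Or.inr (Or.inr (Mat.mem_Zl.2 ⟨h1, h4, h5⟩)))
      · by_cases h5 : ∃ z, (z, p) ∈ m.M
        · obtain ⟨z, hz⟩ := h5
          exact Or.inl (Or.inr ⟨(z, p), hz, rfl⟩)
        · push Not at h5
          exact Or.inr (Or.inr (Or.inl (Mat.mem_Xn.2 ⟨h1, h4, h5⟩)))
  · rintro ((⟨e, he, rfl⟩ | ⟨e, he, rfl⟩) | h | h | h)
    · exact ds_one_iff.2 (Or.inl (m.cz e he))
    · exact ds_one_iff.2 (Or.inr (m.cx e he))
    · exact (mem_Sg.1 h).1
    · exact ds_one_iff.2 (Or.inr (Mat.mem_Xn.1 h).1)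
    · exact ds_one_iff.2 (Or.inl (Mat.mem_Zl.1 h).1)

/-- **regrouping of a product over the elements next to level `i`** -/
theorem prod_N1 {R : Type} [CommMonoid R] (hg : Grad α) (hl : HasLower α i)
    (hdeg : ∀ p : α, (bd i p).card ≤ 2) (m : Mat α i) (f : α → R) :
    ∏ p ∈ N1 α i, f p = (∏ e ∈ m.M, f e.1 * f e.2) * ((∏ p ∈ Sg α i, f p) *
      ((∏ p ∈ m.Xn, f p) * ∏ p ∈ m.Zl, f p)) := by
  have hS1 : ∀ p ∈ Sg α i, (bd i p).card = 1 := fun p hp => (mem_Sg.1 hp).2
  have hX2 : ∀ p ∈ m.Xn, (bd i p).card = 2 := fun p hp => (Mat.mem_Xn.1 hp).2.1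
  have hZ2 : ∀ p ∈ m.Zl, (bd i p).card = 2 := fun p hp => (Mat.mem_Zl.1 hp).2.1
  rw [N1_split hg hl hdeg m, prod_union, prod_union, prod_union, prod_union, prod_image,
    prod_image, prod_mul_distrib]
  · intro e he e' he' h
    exact m.inj2 e he e' he' h
  · intro e he e' he' h
    exact m.inj1 e he e' he' h
  · rw [Finset.disjoint_left]
    intro p hp hp'
    have h1 := (Mat.mem_Xn.1 hp).1
    have h2 := (Mat.mem_Zl.1 hp').1
    omega
  · rw [Finset.disjoint_left]
    intro p hp hp'
    have h1 := hS1 p hp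
    rw [mem_union] at hp'
    rcases hp' with h | h
    · have := hX2 p h
      omega
    · have := hZ2 p h
      omega
  · rw [Finset.disjoint_left]
    intro p hp hp'
    rw [mem_image] at hp hp'
    obtain ⟨e, he, rfl⟩ := hp
    obtain ⟨e', he', h⟩ := hp'
    have h1 := m.cz e he
    have h2 := m.cx e' he'
    rw [h] at h2
    omega
  · rw [Finset.disjoint_left]
    intro p hp hp'
    rw [mem_union, mem_image, mem_image] at hp
    rw [mem_union, mem_union] at hp'
    rcases hp with ⟨e, he, rfl⟩ | ⟨e, he, rfl⟩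
    · have h1 := m.cz e he
      have h2 := (mem_DZ.1 (m.fst_mem hg he)).2
      rcases hp' with h | h | h
      · have := hS1 _ h
        omega
      · have := (Mat.mem_Xn.1 h).1
        omega
      · exact (Mat.mem_Zl.1 h).2.2 e.2 he
    · have h1 := m.cx e he
      have h2 := (mem_DX.1 (m.snd_mem hg he)).2
      rcases hp' with h | h | h
      · have := hS1 _ h
        omega
      · exact (Mat.mem_Xn.1 h).2.2 e.1 he
      · have := (Mat.mem_Zl.1 h).1
        omega

/-! ### the factors of the classes -/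

/-- `1 + q + ... + q ^ k` -/
noncomputable def qs (k : ℕ) : AA := ∑ a ∈ range (k + 1), qA ^ a

/-- `Z (q ^ k + ... + q ^ (k' - 1))` -/
noncomputable def qm (k k' : ℕ) : AA := ZA * ∑ a ∈ Ico k k', qA ^ a

/-- `Z q ^ k' / (1 - q)` -/
noncomputable def qe (k' : ℕ) : AA := ZA * qA ^ k' * geoA

lemma qs_zero : qs 0 = 1 := by simp [qs]
lemma qm_self (k : ℕ) : qm k k = 0 := by simp [qm]
lemma qe_zero : qe 0 = ZA * geoA := by simp [qe]

/-- a double element above -/
lemma GA_DZ {z y y' : α} (hz : corank z + 1 = i) (hb : bd i z = {y, y'}) (hne : y ≠ y')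
    {k : α → ℕ} (hk : k y ≤ k y') :
    GA i k z = MvPolynomial.C (qs (k y)) +
      (MvPolynomial.C wA - MvPolynomial.X y) * MvPolynomial.C (qm (k y) (k y')) +
      (MvPolynomial.C wA - MvPolynomial.X y) * (MvPolynomial.C wA - MvPolynomial.X y') *
        MvPolynomial.C (iwA * qe (k y')) := by
  have h1 : corank z < i := by omega
  unfold GA
  rw [nrm_gP_double hb hne hk, nrm_above h1]
  unfold av
  rw [if_pos h1, if_pos h1]
  rfl

/-- a double element below -/
lemma GA_DX {x y y' : α} (hx : corank x = i + 1) (hb : bd i x = {y, y'}) (hne : y ≠ y')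
    {k : α → ℕ} (hk : k y ≤ k y') :
    GA i k x = MvPolynomial.C (qs (k y)) +
      MvPolynomial.X y * MvPolynomial.C (qm (k y) (k y')) +
      MvPolynomial.X y * MvPolynomial.X y' * MvPolynomial.C (qe (k y')) := by
  have h1 : ¬ corank x < i := by omega
  unfold GA
  rw [nrm_gP_double hb hne hk, nrm_below h1, one_mul]
  unfold av
  rw [if_neg h1, if_neg h1]
  rfl

/-- **the item of a pair of dual elements** -/
theorem GA_pair {z x y y' : α} (hz : corank z + 1 = i) (hx : corank x = i + 1)
    (hbz : bd i z = {y, y'}) (hbx : bd i x = {y, y'}) (hne : y ≠ y') {k : α → ℕ}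
    (hk : k y ≤ k y') :
    EvEq wA (GA i k z * GA i k x) (MvPolynomial.C (qs (k y)) *
      (MvPolynomial.C (qs (k y)) + MvPolynomial.C (wA * qm (k y) (k y')) +
        MvPolynomial.C (wA * iwA * qe (k y')) *
          (MvPolynomial.X y * MvPolynomial.X y' - MvPolynomial.X y - MvPolynomial.X y' +
            MvPolynomial.C wA))) := by
  rw [GA_DZ hz hbz hne hk, GA_DX hx hbx hne hk]
  exact EvEq_pair wA iwA iwA_mul y y' _ _ _

/-- the item of a pair at `k = 0`: `1 + w i Z geo (a a' - a - a' + w)` -/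
theorem GA_pair_zero {z x y y' : α} (hz : corank z + 1 = i) (hx : corank x = i + 1)
    (hbz : bd i z = {y, y'}) (hbx : bd i x = {y, y'}) (hne : y ≠ y') {k : α → ℕ}
    (hk : k y = 0) (hk' : k y' = 0) :
    EvEq wA (GA i k z * GA i k x) (1 + MvPolynomial.C (wA * iwA * (ZA * geoA)) *
          (MvPolynomial.X y * MvPolynomial.X y' - MvPolynomial.X y - MvPolynomial.X y' +
            MvPolynomial.C wA)) := by
  have h := GA_pair hz hx hbz hbx hne (k := k) (by omega)
  rw [hk, hk', qs_zero, qm_self, qe_zero, mul_zero, map_zero, add_zero, map_one, one_mul] at h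
  exact h

/-- **the factor of a star** at `k = 0`: lost edge `{k, c}`, new edge `{k, t}` -/
theorem GA_star {z x v c t : α} (hz : corank z + 1 = i) (hx : corank x = i + 1)
    (hbz : bd i z = {v, c}) (hbx : bd i x = {v, t}) (hc : v ≠ c) (ht : v ≠ t) {k : α → ℕ}
    (hk : k v = 0) (hkc : k c = 0) (hkt : k t = 0) :
    EvEq wA (GA i k z * GA i k x) (1 + MvPolynomial.C (ZA * geoA) *
        (MvPolynomial.X v * (MvPolynomial.X t - MvPolynomial.X c)) +
      MvPolynomial.C (wA * iwA * (ZA * geoA)) *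
          (MvPolynomial.X v * MvPolynomial.X c - MvPolynomial.X v - MvPolynomial.X c +
            MvPolynomial.C wA)) := by
  rw [GA_DZ hz hbz hc (k := k) (by omega), GA_DX hx hbx ht (k := k) (by omega), hk, hkc, hkt,
    qs_zero, qm_self, qe_zero, map_zero, mul_zero, mul_zero, add_zero, map_one]
  exact EvEq_star wA iwA iwA_mul v c t _

/-- a single element below -/
lemma GA_sgX {x y : α} (hx : corank x = i + 1) (hb : bd i x = {y}) (k : α → ℕ) :
    GA i k x = MvPolynomial.C (qs (k y)) +
      MvPolynomial.X y * MvPolynomial.C (qA ^ (k y + 1) * geoA) := by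
  have h1 : ¬ corank x < i := by omega
  unfold GA
  rw [nrm_gP_single hb, nrm_below h1, one_mul]
  unfold av
  rw [if_neg h1]
  rfl

/-- a single element above -/
lemma GA_sgZ {z y : α} (hz : corank z + 1 = i) (hb : bd i z = {y}) (k : α → ℕ) :
    GA i k z = MvPolynomial.C (qs (k y)) +
      (MvPolynomial.C wA - MvPolynomial.X y) *
        MvPolynomial.C (iwA * (qA ^ (k y + 1) * geoA)) := by
  have h1 : corank z < i := by omega
  unfold GA
  rw [nrm_gP_single hb, nrm_above h1]
  unfold av
  rw [if_pos h1]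
  rfl

end Pool.Gauss
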