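import Pool.Agent.Work.MP_065141_co.K.DeepE
import Pool.Agent.Work.MP_065141_co.K.Group

/-!
# The objects: elements at distance two with two nearer neighbours
-/

set_option autoImplicit false
set_option linter.unusedSectionVars false
set_option linter.unusedVariables false
open scoped Classical
open Finset Polynomial

namespace Pool.Gauss

variable {α : Type} [Fintype α] [PartialOrder α] {i : ℕ}

/-! ### the variables of the neighbours -/

lemma av_congr {p p' : α} (h : corank p < i ↔ corank p' < i) : av i p = av i p' := by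
  funext y
  unfold av
  by_cases h1 : corank p < i
  · rw [if_pos h1, if_pos (h.1 h1)]
  · rw [if_neg h1, if_neg fun h2 => h1 (h.2 h2)]

lemma nrm_congr {p p' : α} (h : corank p < i ↔ corank p' < i) : nrm i p = nrm i p' := by
  unfold nrm
  by_cases h1 : corank p < i
  · rw [if_pos h1, if_pos (h.1 h1)]
  · rw [if_neg h1, if_neg fun h2 => h1 (h.2 h2)]

lemma EvEq_av_sq (p y : α) :
    EvEq wA (av i p y * av i p y) (MvPolynomial.C wA * av i p y) := by
  unfold av
  split_ifs
  · refine EvEq.of_ab (y := y) (-1) ?_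
    ring
  · refine EvEq.of_ab (y := y) (-1) ?_
    ring

lemma EvEq_av_opp {p p' : α} (h : corank p < i) (h' : ¬ corank p' < i) (y : α) :
    EvEq wA (av i p y * av i p' y) 0 := by
  unfold av
  rw [if_pos h, if_neg h']
  refine EvEq.of_ab (y := y) 1 ?_
  ring

/-- absorbing a product of variables -/
lemma EvEq_absorb (p : α) {U : Finset α} (S : Finset α) (hS : S ⊆ U) :
    EvEq wA ((∏ y ∈ U, av i p y) * ∏ y ∈ S, av i p y)
      (MvPolynomial.C (wA ^ S.card) * ∏ y ∈ U, av i p y) := by
  induction S using Finset.induction_on with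
  | empty =>
    apply EvEq.of_eq
    rw [prod_empty, card_empty, pow_zero, map_one, one_mul, mul_one]
  | insert y S hy ih =>
    have hyU : y ∈ U := hS (mem_insert_self y S)
    have h1 := ih fun t ht => hS (mem_insert_of_mem ht)
    rw [prod_insert hy, card_insert_of_notMem hy]
    have h2 : EvEq wA ((∏ y ∈ U, av i p y) * (av i p y * ∏ y ∈ S, av i p y))
        (MvPolynomial.C (wA ^ S.card) * ((∏ y ∈ U, av i p y) * av i p y)) := by
      have h3 := h1.mul_right (av i p y)
      refine (EvEq.of_eq ?_).trans (h3.trans (EvEq.of_eq ?_))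
      · ring
      · ring
    refine h2.trans ?_
    have h4 : EvEq wA ((∏ y ∈ U, av i p y) * av i p y) (MvPolynomial.C wA * ∏ y ∈ U, av i p y) := by
      rw [← mul_prod_erase U _ hyU]
      have h5 := (EvEq_av_sq (i := i) p y).mul_right (∏ t ∈ U.erase y, av i p t)
      refine (EvEq.of_eq ?_).trans (h5.trans (EvEq.of_eq ?_))
      · ring
      · ring
    refine (h4.mul_left _).trans (EvEq.of_eq ?_)
    rw [pow_succ, map_mul]
    ring

/-- product of two products of variables of the same side -/
lemma EvEq_prod_av (p : α) (B B' : Finset α) :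
    EvEq wA ((∏ y ∈ B, av i p y) * ∏ y ∈ B', av i p y)
      (MvPolynomial.C (wA ^ (B ∩ B').card) * ∏ y ∈ B ∪ B', av i p y) := by
  rw [← Finset.prod_union_inter]
  exact EvEq_absorb p _ (inter_subset_left.trans subset_union_left)

/-- products of variables of opposite sides with a common vertex -/
lemma EvEq_prod_av_opp {p p' : α} (h : corank p < i) (h' : ¬ corank p' < i) {B B' : Finset α}
    {y : α} (hy : y ∈ B) (hy' : y ∈ B') :
    EvEq wA ((∏ y ∈ B, av i p y) * ∏ y ∈ B', av i p' y) 0 := by
  rw [← mul_prod_erase B _ hy, ← mul_prod_erase B' _ hy']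
  refine (EvEq.of_eq ?_).trans ((EvEq_av_opp (i := i) h h' y).zero_mul'
    ((∏ t ∈ B.erase y, av i p t) * ∏ t ∈ B'.erase y, av i p' t))
  ring

/-! ### the factors at `k = 0` -/

lemma bd_neF (hg : Grad α) (hl : HasLower α i) {p : α} (hp : ds i p ≠ 0) :
    (bd i p).Nonempty := by
  obtain ⟨t, ht⟩ := exists_near hg hl (p := p) (fun h => hp (ds_eq_zero.2 h))
  exact ⟨t, mem_bd.2 ht⟩

/-- the factor minus one, at `k = 0` on the neighbours -/
theorem GA_sub_one (hg : Grad α) (hl : HasLower α i) {p : α} (hp : ds i p = 1)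
    (hdeg : (bd i p).card ≤ 2) {k : α → ℕ} (hk : ∀ y ∈ bd i p, k y = 0) :
    GA i k p - 1 = MvPolynomial.C (nrm i p * (ZA * geoA) * wA ^ (2 - (bd i p).card)) *
      ∏ y ∈ bd i p, av i p y := by
  have h1 : (bd i p).card ≠ 0 := by
    rw [Ne, Finset.card_eq_zero, ← Ne, ← Finset.nonempty_iff_ne_empty]
    exact bd_neF hg hl (by omega)
  have h2 : (bd i p).card = 1 ∨ (bd i p).card = 2 := by omega
  unfold GA
  rcases h2 with h2 | h2
  · obtain ⟨y, hy⟩ := Finset.card_eq_one.1 h2
    rw [nrm_gP_single_zero hy (hk y (by rw [hy]; exact mem_singleton_self y)), hy,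
      prod_singleton, card_singleton, qA]
    have h3 : nrm i p * (ZA * geoA) * wA ^ (2 - 1) = nrm i p * (wA * ZA * geoA) := by ring
    rw [h3]
    ring
  · obtain ⟨y, y', hne, hy⟩ := Finset.card_eq_two.1 h2
    rw [nrm_gP_double_zero hy hne (hk y (by rw [hy]; simp)) (hk y' (by rw [hy]; simp)), hy,
      prod_pair hne, card_pair hne]
    have h3 : nrm i p * (ZA * geoA) * wA ^ (2 - 2) = nrm i p * (ZA * geoA) := by ring
    rw [h3]
    ring

/-- the vertices of a set of elements next to level `i` -/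
noncomputable def BA (i : ℕ) (A : Finset α) : Finset α := A.biUnion (bd i)

lemma BA_bd (q : α) : BA i (bd i q) = BB i q := rfl

lemma card_BA_le {A : Finset α} (hdeg : ∀ p ∈ A, (bd i p).card ≤ 2) :
    (BA i A).card ≤ 2 * A.card := by
  unfold BA
  refine card_biUnion_le.trans ((Finset.sum_le_sum hdeg).trans ?_)
  rw [Finset.sum_const, smul_eq_mul, mul_comm]

/-- **product of forced factors of one side** -/
theorem EvEq_prod_sub_one (hg : Grad α) (hl : HasLower α i) {A : Finset α} {q : α}
    (hA : ∀ p ∈ A, ds i p = 1) (hside : ∀ p ∈ A, (corank p < i ↔ corank q < i))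
    (hdeg : ∀ p ∈ A, (bd i p).card ≤ 2) {k : α → ℕ} (hk : ∀ y ∈ BA i A, k y = 0) :
    EvEq wA (∏ p ∈ A, (GA i k p - 1))
      (MvPolynomial.C ((nrm i q * (ZA * geoA)) ^ A.card * wA ^ (2 * A.card - (BA i A).card)) *
        ∏ y ∈ BA i A, av i q y) := by
  induction A using Finset.induction_on with
  | empty =>
    apply EvEq.of_eq
    simp [BA]
  | insert p A hp ih =>
    have h1 := ih (fun r hr => hA r (mem_insert_of_mem hr))
      (fun r hr => hside r (mem_insert_of_mem hr)) (fun r hr => hdeg r (mem_insert_of_mem hr))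
      (fun y hy => hk y (by
        unfold BA at hy ⊢
        rw [biUnion_insert]
        exact mem_union_right _ hy))
    have hBA : BA i (insert p A) = bd i p ∪ BA i A := by
      unfold BA
      rw [biUnion_insert]
    have hp1 := hdeg p (mem_insert_self p A)
    have hs := hside p (mem_insert_self p A)
    rw [prod_insert hp, GA_sub_one hg hl (hA p (mem_insert_self p A)) hp1
      (fun y hy => hk y (by rw [hBA]; exact mem_union_left _ hy)), av_congr hs, nrm_congr hs]
    refine (h1.mul_left _).trans ?_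
    have h2 := (EvEq_prod_av (i := i) q (bd i p) (BA i A)).mul_left
      (MvPolynomial.C (nrm i q * (ZA * geoA) * wA ^ (2 - (bd i p).card)) *
        MvPolynomial.C ((nrm i q * (ZA * geoA)) ^ A.card * wA ^ (2 * A.card - (BA i A).card)))
    refine (EvEq.of_eq ?_).trans (h2.trans (EvEq.of_eq ?_))
    · ring
    · rw [hBA, card_insert_of_notMem hp, ← map_mul, ← mul_assoc, ← map_mul]
      have h3 := card_union_add_card_inter (bd i p) (BA i A)
      have h4 := card_BA_le (i := i) (A := A) fun r hr => hdeg r (mem_insert_of_mem hr)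
      have h5 : 2 * (A.card + 1) - (bd i p ∪ BA i A).card = (2 - (bd i p).card) +
          (2 * A.card - (BA i A).card) + (bd i p ∩ BA i A).card := by omega
      have h6 : nrm i q * (ZA * geoA) * wA ^ (2 - (bd i p).card) *
          ((nrm i q * (ZA * geoA)) ^ A.card * wA ^ (2 * A.card - (BA i A).card)) *
          wA ^ (bd i p ∩ BA i A).card = (nrm i q * (ZA * geoA)) ^ (A.card + 1) *
          wA ^ (2 * (A.card + 1) - (bd i p ∪ BA i A).card) := by
        rw [h5, pow_add, pow_add, pow_succ]
        ring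
      rw [h6]

section object

variable {q : α} (hg : Grad α) (hl : HasLower α i) (hdeg : ∀ p : α, (bd i p).card ≤ 2)
  (hq : ds i q = 2)

include hg hq in
lemma side_bdF {p : α} (hp : p ∈ bd i q) : corank p < i ↔ corank q < i :=
  (side_of_mem_bd hg hq hp).1

include hg hl hdeg hq in
/-- the forced factors of an element at distance two -/
theorem EvEq_forced {k : α → ℕ} (hk : ∀ y ∈ BB i q, k y = 0) :
    EvEq wA (∏ p ∈ bd i q, (GA i k p - 1))
      (MvPolynomial.C ((nrm i q * (ZA * geoA)) ^ (bd i q).card *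
        wA ^ (2 * (bd i q).card - (BB i q).card)) * ∏ y ∈ BB i q, av i q y) :=
  EvEq_prod_sub_one hg hl (fun p hp => ds_of_mem_bd hg hq hp)
    (fun p hp => side_bdF hg hq hp) (fun p _ => hdeg p) hk

include hg hl hdeg hq in
/-- the term of an element at distance two in the sum of the far parts 0/1, with an arbitrary
rest `R` -/
theorem forced_term {k : α → ℕ} (hk : ∀ y ∈ BB i q, k y = 0) (R : MvPolynomial α AA) :
    qA * Ev wA ((∏ p ∈ bd i q, (GA i k p - 1)) * R) =
      ZA ^ ((bd i q).card + 1) * wA ^ (2 * (bd i q).card + 1 - (BB i q).card) *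
        (nrm i q * geoA) ^ (bd i q).card * Ev wA ((∏ y ∈ BB i q, av i q y) * R) := by
  rw [EvEq_forced hg hl hdeg hq hk R, mul_assoc (MvPolynomial.C _), Ev_C_mul]
  have h1 : (BB i q).card ≤ 2 * (bd i q).card := card_BA_le (A := bd i q) fun p _ => hdeg p
  have h2 : 2 * (bd i q).card + 1 - (BB i q).card = (2 * (bd i q).card - (BB i q).card) + 1 := by
    omega
  rw [h2, qA, mul_pow, mul_pow, mul_pow, pow_succ, pow_succ]
  ring

include hg hl hdeg hq in
/-- the same with two factors `q` (one unit of energy elsewhere) -/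
theorem forced_term2 {k : α → ℕ} (hk : ∀ y ∈ BB i q, k y = 0) (R : MvPolynomial α AA) :
    qA ^ 2 * Ev wA ((∏ p ∈ bd i q, (GA i k p - 1)) * R) =
      ZA ^ ((bd i q).card + 2) * wA ^ (2 * (bd i q).card + 2 - (BB i q).card) *
        (nrm i q * geoA) ^ (bd i q).card * Ev wA ((∏ y ∈ BB i q, av i q y) * R) := by
  have h1 : (BB i q).card ≤ 2 * (bd i q).card := card_BA_le (A := bd i q) fun p _ => hdeg p
  have h2 : 2 * (bd i q).card + 2 - (BB i q).card =
      (2 * (bd i q).card + 1 - (BB i q).card) + 1 := by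
    omega
  rw [pow_succ, pow_one, mul_assoc, forced_term hg hl hdeg hq hk R, h2, qA, pow_succ (n := _ + 1)]
  ring

/-- the polynomial in front of an object -/
noncomputable def PQ (i : ℕ) (q : α) : AA := ZA ^ 3 * (nrm i q * geoA) ^ 2 + ZA ^ 4 * sgQ i q

include hg hl hdeg hq in
/-- **an object** (an element at distance two with two nearer neighbours): the terms with energy
one and two together, exactly -/
theorem obj_two (h2 : (bd i q).card = 2) :
    qA * Ev wA (WT i {q} 0) + VQ i q = wA ^ (5 - (BB i q).card) * PQ i q *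
      Ev wA ((∏ y ∈ BB i q, av i q y) * ∏ p ∈ N1 α i \ bd i q, GA i 0 p) := by
  have h3 : WT i {q} 0 = (∏ p ∈ bd i q, (GA i 0 p - 1)) * ∏ p ∈ N1 α i \ bd i q, GA i 0 p := by
    unfold WT
    have h4 : bd i q ⊆ N1 α i := fun p hp => mem_N1.2 (ds_of_mem_bd hg hq hp)
    rw [← Finset.prod_sdiff h4, mul_comm]
    congr 1
    · apply prod_congr rfl
      intro p hp
      rw [if_pos ⟨q, mem_singleton_self q, mem_bd.1 hp⟩]
    · apply prod_congr rfl
      intro p hp
      rw [if_neg]
      rintro ⟨r, hr, h⟩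
      rw [mem_singleton] at hr
      rw [hr] at h
      exact (mem_sdiff.1 hp).2 (mem_bd.2 h)
  rw [h3, forced_term hg hl hdeg hq (k := 0) (fun _ _ => rfl), VQ, h2, PQ]
  ring

end object

/-! ### divisibility of the factors by `Z` -/

lemma GA_sub_one_dvd (hg : Grad α) (hl : HasLower α i) {p : α} (hp : ds i p = 1)
    (hdeg : (bd i p).card ≤ 2) (k : α → ℕ) : MvPolynomial.C ZA ∣ GA i k p - 1 := by
  have h1 : (bd i p).card ≠ 0 := by
    rw [Ne, Finset.card_eq_zero, ← Ne, ← Finset.nonempty_iff_ne_empty]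
    exact bd_neF hg hl (by omega)
  have hq : ZA ∣ qA := ⟨wA, by rw [qA, mul_comm]⟩
  have hsum : ∀ n : ℕ, ZA ∣ (∑ a ∈ range (n + 1), qA ^ a) - 1 := by
    intro n
    rw [Finset.sum_range_succ', pow_zero, add_sub_cancel_right]
    exact Finset.dvd_sum fun a _ => (hq.trans (dvd_pow_self _ (Nat.succ_ne_zero a)))
  have hC : ∀ {a b : AA}, a ∣ b → (MvPolynomial.C a : MvPolynomial α AA) ∣ MvPolynomial.C b := by
    rintro a b ⟨c, rfl⟩
    exact ⟨MvPolynomial.C c, map_mul _ _ _⟩
  have h2 : (bd i p).card = 1 ∨ (bd i p).card = 2 := by omega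
  unfold GA
  rcases h2 with h2 | h2
  · obtain ⟨y, hy⟩ := Finset.card_eq_one.1 h2
    rw [nrm_gP_single hy, add_sub_right_comm, ← map_one MvPolynomial.C, ← map_sub]
    refine dvd_add (hC (hsum _)) (Dvd.dvd.mul_left (hC ?_) _)
    exact ((hq.trans (dvd_pow_self _ (Nat.succ_ne_zero _))).mul_right _).mul_left _
  · obtain ⟨y, y', hne, hy⟩ := Finset.card_eq_two.1 h2
    have key : ∀ {y y' : α}, bd i p = {y, y'} → y ≠ y' → k y ≤ k y' → MvPolynomial.C ZA ∣
        MvPolynomial.C (nrm i p) * gP i k p - 1 := by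
      intro y y' hy hne hk
      rw [nrm_gP_double hy hne hk]
      have h3 : MvPolynomial.C (∑ a ∈ range (k y + 1), qA ^ a) +
          av i p y * MvPolynomial.C (ZA * ∑ a ∈ Ico (k y) (k y'), qA ^ a) +
          av i p y * av i p y' * MvPolynomial.C (nrm i p * (ZA * qA ^ (k y') * geoA)) - 1 =
          MvPolynomial.C ((∑ a ∈ range (k y + 1), qA ^ a) - 1) +
          (av i p y * MvPolynomial.C (ZA * ∑ a ∈ Ico (k y) (k y'), qA ^ a) +
          av i p y * av i p y' * MvPolynomial.C (nrm i p * (ZA * qA ^ (k y') * geoA))) := by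
        rw [map_sub, map_one]
        ring
      rw [h3]
      refine dvd_add (hC (hsum _)) (dvd_add (Dvd.dvd.mul_left (hC (dvd_mul_right _ _)) _)
        (Dvd.dvd.mul_left (hC ?_) _))
      exact ((dvd_mul_right ZA _).mul_right _).mul_left _
    by_cases hk : k y ≤ k y'
    · exact key hy hne hk
    · exact key (by rw [hy, pair_comm]) hne.symm (by omega)

/-- many forced factors are divisible by a power of `Z` -/
lemma prod_sub_one_dvd (hg : Grad α) (hl : HasLower α i) {A : Finset α}
    (hA : ∀ p ∈ A, ds i p = 1) (hdeg : ∀ p ∈ A, (bd i p).card ≤ 2) (k : α → ℕ) :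
    MvPolynomial.C (ZA ^ A.card) ∣ ∏ p ∈ A, (GA i k p - 1) := by
  rw [map_pow, ← Finset.prod_const]
  exact Finset.prod_dvd_prod_of_dvd _ _ fun p hp =>
    GA_sub_one_dvd hg hl (hA p hp) (hdeg p hp) k

lemma Ev_C_dvd {w c : AA} {P R : MvPolynomial α AA} (h : MvPolynomial.C c ∣ P) :
    c ∣ Ev w (P * R) := by
  obtain ⟨Q, rfl⟩ := h
  rw [mul_assoc, Ev_C_mul]
  exact dvd_mul_right _ _

/-- three forced factors and two units of energy: zero modulo `Z ^ 5` -/
lemma forced_dead (hg : Grad α) (hl : HasLower α i) {A : Finset α}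
    (hA : ∀ p ∈ A, ds i p = 1) (hdeg : ∀ p ∈ A, (bd i p).card ≤ 2) (h3 : 3 ≤ A.card) (k : α → ℕ)
    (R : MvPolynomial α AA) : ZA ^ 5 ∣ qA ^ 2 * Ev wA ((∏ p ∈ A, (GA i k p - 1)) * R) := by
  have h1 : ZA ^ A.card ∣ Ev wA ((∏ p ∈ A, (GA i k p - 1)) * R) :=
    Ev_C_dvd (prod_sub_one_dvd hg hl hA hdeg k)
  obtain ⟨Q, hQ⟩ := h1
  rw [hQ, qA, mul_pow]
  exact ⟨wA ^ 2 * ZA ^ (A.card - 3) * Q, by
    have : A.card = 3 + (A.card - 3) := by omega
    rw [this, pow_add]
    simp only [Nat.add_sub_cancel_left]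
    ring⟩

/-! ### expansions of the constants -/

lemma geoA_sqF : geoA ^ 2 = 1 + 2 * qA + qA ^ 2 * (2 * geoA + geoA ^ 2) := by
  have h := geoA_eq
  linear_combination (geoA * (1 + qA) + 1 + 2 * qA) * h

lemma iwA_eq : iwA = wA * iwA - 1 := by linear_combination (-1 : AA) * iwA_mul

/-- the sign of a side -/
noncomputable def sgn (i : ℕ) (q : α) : AA := if corank q < i then -1 else 1

lemma sgn_sq (q : α) : sgn i q * sgn i q = 1 := by
  unfold sgn
  split_ifs <;> ring

lemma nrm_mod (q : α) : ∃ Q, nrm i q = sgn i q + wA * Q := by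
  unfold nrm sgn
  split_ifs
  · exact ⟨iwA, by linear_combination iwA_eq⟩
  · exact ⟨0, by ring⟩

lemma av_mod (q y : α) : ∃ Q, av i q y = MvPolynomial.C (sgn i q) * MvPolynomial.X y +
    MvPolynomial.C wA * Q := by
  unfold av sgn
  split_ifs
  · exact ⟨1, by rw [map_neg, map_one]; ring⟩
  · exact ⟨0, by rw [map_one]; ring⟩

/-- the polynomial of an object modulo `w ^ 2` -/
lemma PQ_mod (q : α) (h2 : (bd i q).card = 2) : ∃ Q, PQ i q = ZA ^ 3 + sgn i q * ZA ^ 4 +
    (if corank q < i then wA * (2 * ZA ^ 3 - ZA ^ 4) else 0) + wA ^ 2 * Q := by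
  unfold PQ sgn nrm sgQ
  rw [h2]
  have hg2 := geoA_sqF
  have hi := iwA_eq
  split_ifs
  · have hi2 : iwA ^ 2 = 1 + 2 * wA + wA ^ 2 * (iwA ^ 2 - 2 * iwA) := by
      linear_combination (iwA + wA * iwA - 1 - 2 * wA) * hi
    have hi3 : iwA ^ (2 + 1) = -1 - 3 * wA + wA ^ 2 * (-2 +
        (iwA ^ 2 - 2 * iwA) * (-1 - wA + wA ^ 2 * iwA) + (1 + 2 * wA) * iwA) := by
      have hi1 : iwA = -1 - wA + wA ^ 2 * iwA := by
        linear_combination (1 + wA) * hi
      have : iwA ^ (2 + 1) = (1 + 2 * wA + wA ^ 2 * (iwA ^ 2 - 2 * iwA)) *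
          (-1 - wA + wA ^ 2 * iwA) := by
        rw [pow_succ, ← hi2, ← hi1]
      rw [this]
      ring
    refine ⟨ZA ^ 3 * ((iwA ^ 2 - 2 * iwA) * geoA ^ 2 + ZA ^ 2 * (2 * geoA + geoA ^ 2) *
      (1 + 2 * wA) + 4 * ZA) + ZA ^ 4 * (-2 +
        (iwA ^ 2 - 2 * iwA) * (-1 - wA + wA ^ 2 * iwA) + (1 + 2 * wA) * iwA), ?_⟩
    rw [hi3, mul_pow]
    unfold qA at hg2
    linear_combination (ZA ^ 3 * geoA ^ 2) * hi2 + ZA ^ 3 * (1 + 2 * wA) * hg2
  · refine ⟨ZA ^ 3 * (ZA ^ 2 * (2 * geoA + geoA ^ 2)) + ZA ^ 4, ?_⟩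
    unfold qA at hg2
    linear_combination ZA ^ 3 * hg2

/-! ### one unit of energy on level `i` -/

/-- a factor minus one modulo `w`, with energy one at `y` -/
lemma GA_one_mod (hg : Grad α) (hl : HasLower α i) {p : α} (hp : ds i p = 1)
    (hdeg : (bd i p).card ≤ 2) (y : α) : ∃ Q : MvPolynomial α AA, GA i (ind {y}) p - 1 =
      MvPolynomial.C (if (bd i p).card = 2 then sgn i p * ZA else 0) *
        ∏ t ∈ (bd i p).erase y, MvPolynomial.X t + MvPolynomial.C wA * Q := by
  have h1 : (bd i p).card ≠ 0 := by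
    rw [Ne, Finset.card_eq_zero, ← Ne, ← Finset.nonempty_iff_ne_empty]
    exact bd_neF hg hl (by omega)
  have h2 : (bd i p).card = 1 ∨ (bd i p).card = 2 := by omega
  have hgeo := geoA_eq
  obtain ⟨Qn, hQn⟩ := nrm_mod (i := i) p
  have hy1 : ind {y} y = 1 := ind_mem (mem_singleton_self y)
  by_cases hy : y ∈ bd i p
  · rcases h2 with h2 | h2
    · obtain ⟨t, ht⟩ := Finset.card_eq_one.1 h2
      have h3 : t = y := by
        rw [ht, mem_singleton] at hy
        exact hy.symm
      subst h3
      rw [if_neg (by omega : ¬ (bd i p).card = 2)]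
      simp only [map_zero, zero_mul, zero_add]
      unfold GA
      rw [nrm_gP_single ht, hy1]
      refine ⟨MvPolynomial.C ZA + av i p t * MvPolynomial.C (nrm i p * (ZA * qA * geoA)), ?_⟩
      have h4 : ∑ a ∈ range (1 + 1), qA ^ a = 1 + wA * ZA := by
        rw [Finset.sum_range_succ, Finset.sum_range_one, pow_zero, pow_one, qA]
      have h5 : nrm i p * (qA ^ (1 + 1) * geoA) = wA * (nrm i p * (ZA * qA * geoA)) := by
        rw [pow_succ, pow_one]
        nth_rw 1 [qA]
        ring
      rw [h4, h5, map_add, map_one, map_mul, map_mul (MvPolynomial.C) wA]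
      ring
    · obtain ⟨t, t', hne, ht⟩ := Finset.card_eq_two.1 h2
      have key : ∀ {t t' : α}, t ≠ t' → bd i p = {t, t'} → y = t' →
          ∃ Q : MvPolynomial α AA, GA i (ind {y}) p - 1 =
            MvPolynomial.C (if (bd i p).card = 2 then sgn i p * ZA else 0) *
            ∏ t ∈ (bd i p).erase y, MvPolynomial.X t + MvPolynomial.C wA * Q := by
        intro t t' hne ht hyt
        subst hyt
        have ht0 : ind {y} t = 0 := ind_notMem (by rwa [mem_singleton])
        have he : (bd i p).erase y = {t} := by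
          rw [ht]
          ext r
          rw [mem_erase, mem_insert, mem_singleton, mem_singleton]
          constructor
          · rintro ⟨h5, h6 | h6⟩
            · exact h6
            · exact absurd h6 h5
          · rintro rfl
            exact ⟨hne, Or.inl rfl⟩
        rw [if_pos h2, he, prod_singleton]
        obtain ⟨Qa, hQa⟩ := av_mod (i := i) p t
        unfold GA
        rw [nrm_gP_double ht hne (by omega), hy1, ht0]
        have h4 : ∑ a ∈ range (0 + 1), qA ^ a = 1 := by
          rw [Finset.sum_range_one, pow_zero]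
        have h5 : ∑ a ∈ Ico 0 1, qA ^ a = 1 := by
          rw [Nat.Ico_zero_eq_range, Finset.sum_range_one, pow_zero]
        have h6 : nrm i p * (ZA * qA ^ 1 * geoA) = wA * (nrm i p * (ZA * ZA * geoA)) := by
          rw [pow_one]
          unfold qA
          ring
        refine ⟨Qa * MvPolynomial.C ZA +
          av i p t * av i p y * MvPolynomial.C (nrm i p * (ZA * ZA * geoA)), ?_⟩
        rw [h4, h5, h6, mul_one, map_one, map_mul (MvPolynomial.C) wA, hQa,
          map_mul (MvPolynomial.C) (sgn i p)]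
        ring
      rw [ht, mem_insert, mem_singleton] at hy
      rcases hy with hy | hy
      · exact key hne.symm (by rw [ht, pair_comm]) hy
      · exact key hne ht hy
  · rw [GA_sub_one hg hl hp hdeg (k := ind {y}) (fun t ht => ind_notMem (by
      rw [mem_singleton]
      rintro rfl
      exact hy ht)), Finset.erase_eq_of_notMem hy]
    rcases h2 with h2 | h2
    · rw [if_neg (by omega : ¬ (bd i p).card = 2), h2]
      simp only [map_zero, zero_mul, zero_add]
      refine ⟨MvPolynomial.C (nrm i p * (ZA * geoA)) * ∏ y ∈ bd i p, av i p y, ?_⟩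
      rw [show 2 - 1 = 1 from rfl, pow_one, mul_comm _ wA, map_mul, mul_assoc]
    · obtain ⟨t, t', hne, ht⟩ := Finset.card_eq_two.1 h2
      obtain ⟨Qa, hQa⟩ := av_mod (i := i) p t
      obtain ⟨Qb, hQb⟩ := av_mod (i := i) p t'
      have h3 : nrm i p * (ZA * geoA) * wA ^ (2 - (bd i p).card) = sgn i p * ZA +
          wA * (sgn i p * (ZA * (ZA * geoA)) + Qn * (ZA * geoA)) := by
        rw [h2, Nat.sub_self, pow_zero, mul_one, hQn]
        unfold qA at hgeo
        linear_combination (sgn i p * ZA) * hgeo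
      rw [if_pos h2, h3, ht, prod_pair hne, prod_pair hne, hQa, hQb]
      have hs := sgn_sq (i := i) p
      refine ⟨MvPolynomial.C (sgn i p * ZA) * (MvPolynomial.C (sgn i p) * MvPolynomial.X t * Qb +
        Qa * MvPolynomial.C (sgn i p) * MvPolynomial.X t' + MvPolynomial.C wA * Qa * Qb) +
        MvPolynomial.C (sgn i p * (ZA * (ZA * geoA)) + Qn * (ZA * geoA)) *
        ((MvPolynomial.C (sgn i p) * MvPolynomial.X t + MvPolynomial.C wA * Qa) *
        (MvPolynomial.C (sgn i p) * MvPolynomial.X t' + MvPolynomial.C wA * Qb)), ?_⟩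
      have hs' : (MvPolynomial.C (sgn i p) * MvPolynomial.C (sgn i p) : MvPolynomial α AA) = 1 := by
        rw [← map_mul, hs, map_one]
      rw [map_add, map_mul (MvPolynomial.C) wA]
      linear_combination (MvPolynomial.C (sgn i p * ZA) * MvPolynomial.X t * MvPolynomial.X t') * hs'

/-- products of the variables `a` -/
lemma EvEq_prod_X (B B' : Finset α) :
    EvEq wA ((∏ y ∈ B, MvPolynomial.X y) * ∏ y ∈ B', MvPolynomial.X y)
      (MvPolynomial.C (wA ^ (B ∩ B').card) * ∏ y ∈ B ∪ B', (MvPolynomial.X y : MvPolynomial α AA)) := by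
  by_cases hne : Nonempty α
  · obtain ⟨p⟩ := hne
    have h : ∀ y, av (corank p) p y = (MvPolynomial.X y : MvPolynomial α AA) := by
      intro y
      unfold av
      rw [if_neg (lt_irrefl _)]
    have h1 := EvEq_prod_av (i := corank p) p B B'
    simp only [h] at h1
    exact h1
  · have h2 : B = ∅ := by
      rw [Finset.eq_empty_iff_forall_notMem]
      intro y _
      exact hne ⟨y⟩
    have h3 : B' = ∅ := by
      rw [Finset.eq_empty_iff_forall_notMem]
      intro y _
      exact hne ⟨y⟩
    rw [h2, h3]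
    apply EvEq.of_eq
    simp

/-- the objects which survive with one unit of energy at `y` -/
def ObY (i : ℕ) (q y : α) : Prop :=
  (BB i q).card = 4 ∨ ((BB i q).card = 3 ∧ ∀ p ∈ bd i q, (bd i p).card = 2 ∧ y ∈ bd i p)

/-- **the forced factors of an object with one unit of energy at `y`, modulo `w`** -/
theorem forced_y (hg : Grad α) (hl : HasLower α i) (hdeg : ∀ p : α, (bd i p).card ≤ 2) {q : α}
    (hq : ds i q = 2) (h2 : (bd i q).card = 2) (y : α) : ∃ Q : MvPolynomial α AA,
      EvEq wA (∏ p ∈ bd i q, (GA i (ind {y}) p - 1))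
        (MvPolynomial.C (if ObY i q y then ZA ^ 2 else 0) *
          ∏ t ∈ (BB i q).erase y, MvPolynomial.X t + MvPolynomial.C wA * Q) := by
  obtain ⟨p, p', hne, hb⟩ := Finset.card_eq_two.1 h2
  have hp : ds i p = 1 := ds_of_mem_bd hg hq (by rw [hb]; simp)
  have hp' : ds i p' = 1 := ds_of_mem_bd hg hq (by rw [hb]; simp)
  have hs : corank p < i ↔ corank p' < i :=
    (side_bdF hg hq (by rw [hb]; simp)).trans (side_bdF hg hq (by rw [hb]; simp)).symm
  have hsg : sgn i p = sgn i p' := by
    unfold sgn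
    by_cases h : corank p < i
    · rw [if_pos h, if_pos (hs.1 h)]
    · rw [if_neg h, if_neg fun h3 => h (hs.2 h3)]
  obtain ⟨Q, hQ⟩ := GA_one_mod hg hl hp (hdeg p) y
  obtain ⟨Q', hQ'⟩ := GA_one_mod hg hl hp' (hdeg p') y
  have hBB : BB i q = bd i p ∪ bd i p' := by
    unfold BB
    rw [hb, biUnion_insert, singleton_biUnion]
  have herase : (BB i q).erase y = (bd i p).erase y ∪ (bd i p').erase y := by
    rw [hBB]
    exact Finset.erase_union_distrib _ _ _
  have h1 : (bd i p).card ≠ 0 := by
    rw [Ne, Finset.card_eq_zero, ← Ne, ← Finset.nonempty_iff_ne_empty]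
    exact bd_neF hg hl (by omega)
  have h1' : (bd i p').card ≠ 0 := by
    rw [Ne, Finset.card_eq_zero, ← Ne, ← Finset.nonempty_iff_ne_empty]
    exact bd_neF hg hl (by omega)
  have hd := hdeg p
  have hd' := hdeg p'
  rw [hb, prod_pair hne, hQ, hQ']
  by_cases hc : (bd i p).card = 2 ∧ (bd i p').card = 2
  · rw [if_pos hc.1, if_pos hc.2, ← hsg]
    have h3 := EvEq_prod_X ((bd i p).erase y) ((bd i p').erase y)
    have hss : (MvPolynomial.C (sgn i p * ZA) * MvPolynomial.C (sgn i p * ZA) : MvPolynomial α AA) =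
        MvPolynomial.C (ZA ^ 2) := by
      have h4 : sgn i p * ZA * (sgn i p * ZA) = ZA ^ 2 := by
        linear_combination ZA ^ 2 * sgn_sq (i := i) p
      rw [← map_mul, h4]
    have hinter := card_union_add_card_inter (bd i p) (bd i p')
    rw [← hBB] at hinter
    by_cases hO : ObY i q y
    · have h4 : (bd i p).erase y ∩ (bd i p').erase y = ∅ := by
        rw [Finset.eq_empty_iff_forall_notMem]
        intro t ht
        rw [mem_inter, mem_erase, mem_erase] at ht
        have ht1 : t ∈ bd i p ∩ bd i p' := mem_inter.2 ⟨ht.1.2, ht.2.2⟩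
        rcases hO with hO | ⟨hO, hO'⟩
        · have : (bd i p ∩ bd i p').card = 0 := by omega
          rw [Finset.card_eq_zero] at this
          rw [this] at ht1
          exact absurd ht1 (notMem_empty t)
        · have h5 : (bd i p ∩ bd i p').card = 1 := by omega
          obtain ⟨r, hr⟩ := Finset.card_eq_one.1 h5
          have h6 : y ∈ bd i p ∩ bd i p' := mem_inter.2
            ⟨(hO' p (by rw [hb]; simp)).2, (hO' p' (by rw [hb]; simp)).2⟩
          rw [hr, mem_singleton] at h6 ht1
          exact ht.1.1 (ht1.trans h6.symm)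
      rw [h4, card_empty, pow_zero, map_one, one_mul, ← herase] at h3
      rw [if_pos hO]
      refine ⟨MvPolynomial.C (sgn i p * ZA) * (∏ t ∈ (bd i p).erase y, MvPolynomial.X t) * Q' +
        Q * (MvPolynomial.C (sgn i p * ZA) * (∏ t ∈ (bd i p').erase y, MvPolynomial.X t) +
          MvPolynomial.C wA * Q'), ?_⟩
      refine (EvEq.of_eq ?_).trans (((h3.mul_left (MvPolynomial.C (ZA ^ 2))).add (EvEq.refl _)))
      rw [← hss]
      ring
    · have h4 : ((bd i p).erase y ∩ (bd i p').erase y).Nonempty := by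
        rw [Finset.nonempty_iff_ne_empty]
        intro h5
        apply hO
        by_cases h6 : (bd i p ∩ bd i p').card = 0
        · left
          omega
        · right
          have h7 : bd i p ∩ bd i p' ⊆ {y} := by
            intro t ht
            rw [mem_singleton]
            by_contra h8
            rw [mem_inter] at ht
            have : t ∈ (bd i p).erase y ∩ (bd i p').erase y :=
              mem_inter.2 ⟨mem_erase.2 ⟨h8, ht.1⟩, mem_erase.2 ⟨h8, ht.2⟩⟩
            rw [h5] at this
            exact absurd this (notMem_empty t)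
          have h8 : bd i p ∩ bd i p' = {y} := by
            rcases Finset.subset_singleton_iff.1 h7 with h9 | h9
            · rw [h9, card_empty] at h6
              exact absurd rfl h6
            · exact h9
          rw [h8, card_singleton] at hinter
          refine ⟨by omega, ?_⟩
          have hy : y ∈ bd i p ∩ bd i p' := by
            rw [h8]
            exact mem_singleton_self y
          rw [mem_inter] at hy
          intro r hr
          rw [hb, mem_insert, mem_singleton] at hr
          rcases hr with rfl | rfl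
          · exact ⟨hc.1, hy.1⟩
          · exact ⟨hc.2, hy.2⟩
      have h5 : ((bd i p).erase y ∩ (bd i p').erase y).card =
          (((bd i p).erase y ∩ (bd i p').erase y).card - 1) + 1 := by
        have := Finset.card_pos.2 h4
        omega
      rw [if_neg hO]
      simp only [map_zero, zero_mul, zero_add]
      rw [h5, pow_succ, mul_comm (wA ^ _), map_mul, mul_assoc] at h3
      refine ⟨MvPolynomial.C (ZA ^ 2) * (MvPolynomial.C (wA ^
        (((bd i p).erase y ∩ (bd i p').erase y).card - 1)) *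
          ∏ y ∈ (bd i p).erase y ∪ (bd i p').erase y, MvPolynomial.X y) +
        (MvPolynomial.C (sgn i p * ZA) * (∏ t ∈ (bd i p).erase y, MvPolynomial.X t) * Q' +
        Q * (MvPolynomial.C (sgn i p * ZA) * (∏ t ∈ (bd i p').erase y, MvPolynomial.X t) +
          MvPolynomial.C wA * Q')), ?_⟩
      refine (EvEq.of_eq ?_).trans (((h3.mul_left (MvPolynomial.C (ZA ^ 2))).add (EvEq.refl
        (MvPolynomial.C wA * (MvPolynomial.C (sgn i p * ZA) *
          (∏ t ∈ (bd i p).erase y, MvPolynomial.X t) * Q' +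
        Q * (MvPolynomial.C (sgn i p * ZA) * (∏ t ∈ (bd i p').erase y, MvPolynomial.X t) +
          MvPolynomial.C wA * Q'))))).trans (EvEq.of_eq ?_))
      · rw [← hss]
        ring
      · ring
  · have hO : ¬ ObY i q y := by
      intro hO
      apply hc
      rcases hO with hO | ⟨_, hO⟩
      · have := card_union_le (bd i p) (bd i p')
        rw [← hBB] at this
        omega
      · exact ⟨(hO p (by rw [hb]; simp)).1, (hO p' (by rw [hb]; simp)).1⟩
    rw [if_neg hO]
    simp only [map_zero, zero_mul, zero_add]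
    by_cases hc1 : (bd i p).card = 2
    · have hc2 : ¬ (bd i p').card = 2 := fun h => hc ⟨hc1, h⟩
      rw [if_neg hc2]
      simp only [map_zero, zero_mul, zero_add]
      exact ⟨_, EvEq.of_eq (by rw [mul_left_comm])⟩
    · rw [if_neg hc1]
      simp only [map_zero, zero_mul, zero_add]
      exact ⟨_, EvEq.of_eq (by rw [mul_assoc])⟩

end Pool.Gauss
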