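import Pool.Agent.Work.MP_065141_co.K.ModelB

/-!
# The model modulo `w ^ 3` in all degrees, when no object has four vertices

If every element at distance two from level `i` with two nearer neighbours lies over at most three
elements of level `i`, then the classification of the energy functions of excess at most two with a
far energy at least two holds without a bound on the energy, and the model of `ModelB` holds
modulo `w ^ 3` in all degrees `J`.
-/

set_option autoImplicit false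
set_option linter.unusedSectionVars false
set_option linter.unusedVariables false
open scoped Classical
open Finset Polynomial

namespace Pool.Gauss

variable {α : Type} [Fintype α] [PartialOrder α] {i : ℕ}

/-- the basic inequality with a gain -/
lemma basic_gain (hg : Grad α) (hl : HasLower α i) (hdeg : ∀ p : α, (bd i p).card ≤ 2)
    {ε : α → ℕ} (hε : GoodE i ε) {q : α} (hq : ds i q = 2) (hq2 : 2 ≤ ε q)
    (hb : (bd i q).card = 2) (hB : (BB i q).card ≤ 3) :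
    (Yd i ε).card + 1 ≤ (Ax i ε).card + (FoN i ε).card + ∑ q ∈ M2 i ε, (Dq i ε q).card ∨
      2 ≤ ∑ y ∈ lev α i, ε y := by
  set Yp : α → Finset α := fun p => (bd i p).filter fun y => ε y < ε p with hYp
  set Ak := (Ax i ε).filter (fun p => nd i ε p) with hAk
  set Af := (Ax i ε).filter (fun p => fd i ε p) with hAf
  have hbdA : bd i q ⊆ Ax i ε := by
    intro t ht
    have h1 := ds_of_mem_bd hg hq ht
    rw [mem_Ax]
    exact ⟨h1, closure hg hl hε (mem_bd.1 ht) (fun h => by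
      rw [ds_eq_zero.2 h] at h1
      omega) (by omega)⟩
  have h1 : Yd i ε ⊆ (Ax i ε).biUnion Yp := by
    intro y hy
    rw [mem_Yd] at hy
    obtain ⟨h2, p, h3, h4⟩ := hy
    rw [mem_biUnion]
    refine ⟨p, ?_, ?_⟩
    · rw [mem_Ax, fr_ds hg h3, ds_eq_zero.2 h2]
      exact ⟨rfl, by omega⟩
    · rw [hYp]
      simp only [mem_filter]
      exact ⟨mem_bd.2 h3, h4⟩
  have h2 : (Yd i ε).card ≤ ((Ax i ε).biUnion Yp).card := card_le_card h1
  have h2' : ((Ax i ε).biUnion Yp).card ≤ ∑ p ∈ Ax i ε, (Yp p).card := card_biUnion_le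
  have h3 : ∀ p ∈ Ax i ε, (Yp p).card + (if p ∈ Ak then 1 else 0) ≤ (bd i p).card := by
    intro p hp
    have g2 : (Yp p).card ≤ (bd i p).card := card_filter_le _ _
    split_ifs with g3
    · rw [hAk, mem_filter] at g3
      obtain ⟨_, t, ht, ht2⟩ := g3
      have g4 : Yp p ⊂ bd i p := by
        rw [Finset.ssubset_iff_of_subset (filter_subset _ _)]
        refine ⟨t, mem_bd.2 ht, ?_⟩
        rw [mem_filter]
        rintro ⟨_, h⟩
        omega
      have := card_lt_card g4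
      omega
    · omega
  have hAkc : (Ax i ε).filter (fun p => p ∈ Ak) = Ak := by
    ext p
    rw [mem_filter]
    constructor
    · exact fun h => h.2
    · intro h
      exact ⟨(mem_filter.1 (hAk ▸ h)).1, h⟩
  have h4 : ∑ p ∈ Ax i ε, (Yp p).card + Ak.card ≤ ∑ p ∈ Ax i ε, (bd i p).card := by
    have g1 := Finset.sum_le_sum h3
    rw [Finset.sum_add_distrib, ← Finset.sum_filter, hAkc, Finset.sum_const, smul_eq_mul,
      mul_one] at g1
    exact g1
  have h4' : ∑ p ∈ Ax i ε, (bd i p).card ≤ 2 * (Ax i ε).card := by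
    have := Finset.sum_le_sum (s := Ax i ε) fun p _ => hdeg p
    rw [Finset.sum_const, smul_eq_mul] at this
    omega
  have h5 : Ax i ε ⊆ (FoN i ε ∪ Ak) ∪ Af := by
    intro p hp
    by_cases g1 : fd i ε p
    · exact mem_union_right _ (mem_filter.2 ⟨hp, g1⟩)
    · by_cases g2 : nd i ε p
      · exact mem_union_left _ (mem_union_right _ (mem_filter.2 ⟨hp, g2⟩))
      · refine mem_union_left _ (mem_union_left _ ?_)
        unfold FoN
        rw [mem_filter, mem_FoB]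
        have := (mem_Ax.1 hp).1
        refine ⟨⟨?_, g1, g2⟩, this⟩
        intro h
        rw [ds_eq_zero.2 h] at this
        omega
  have h6 : (Ax i ε).card ≤ ((FoN i ε ∪ Ak) ∪ Af).card := card_le_card h5
  have h6a : ((FoN i ε ∪ Ak) ∪ Af).card + ((FoN i ε ∪ Ak) ∩ Af).card =
      (FoN i ε ∪ Ak).card + Af.card := card_union_add_card_inter _ _
  have h6b : (FoN i ε ∪ Ak).card ≤ (FoN i ε).card + Ak.card := card_union_le _ _
  have h7 : Af ⊆ (M2 i ε).biUnion (Dq i ε) := by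
    intro p hp
    rw [hAf, mem_filter, mem_Ax] at hp
    obtain ⟨⟨g1, g2⟩, q, hq, g3⟩ := hp
    rw [mem_biUnion]
    refine ⟨q, ?_, ?_⟩
    · unfold M2
      rw [mem_filter, fr_ds hg hq, g1]
      exact ⟨mem_univ _, rfl, by omega⟩
    · unfold Dq
      rw [mem_filter]
      exact ⟨mem_bd.2 hq, g3⟩
  have h8 : Af.card ≤ ∑ q ∈ M2 i ε, (Dq i ε q).card := (card_le_card h7).trans card_biUnion_le
  obtain ⟨p, p', hne, hbd⟩ := card_eq_two.1 hb
  have hpq : p ∈ bd i q := by rw [hbd]; simp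
  have hpq' : p' ∈ bd i q := by rw [hbd]; simp
  have hBB : BB i q = bd i p ∪ bd i p' := by
    unfold BB
    rw [hbd, Finset.biUnion_insert, Finset.singleton_biUnion]
  -- one of the neighbours has a single nearer neighbour
  have hsmall : ∀ r ∈ bd i q, (bd i r).card ≤ 1 →
      ∑ p ∈ Ax i ε, (bd i p).card + 1 ≤ 2 * (Ax i ε).card := by
    intro r hr hr1
    rw [← Finset.sum_erase_add _ _ (hbdA hr), ← Finset.card_erase_add_one (hbdA hr)]
    have := Finset.sum_le_sum (s := (Ax i ε).erase r) fun p _ => hdeg p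
    rw [Finset.sum_const, smul_eq_mul] at this
    omega
  by_cases hp1 : (bd i p).card ≤ 1
  · have := hsmall p hpq hp1
    left
    omega
  by_cases hp1' : (bd i p').card ≤ 1
  · have := hsmall p' hpq' hp1'
    left
    omega
  -- the two neighbours have a common vertex
  have hc := card_union_add_card_inter (bd i p) (bd i p')
  have hinter : (bd i p ∩ bd i p').Nonempty := by
    rw [← card_pos]
    rw [hBB] at hB
    omega
  obtain ⟨y, hy⟩ := hinter
  rw [mem_inter] at hy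
  have hylev : ∀ r ∈ bd i q, ∀ y ∈ bd i r, y ∈ lev α i := by
    intro r hr y hy
    have h9 := ds_of_mem_bd hg hq hr
    have h10 := fr_ds hg (mem_bd.1 hy)
    rw [mem_lev]
    exact ds_eq_zero.1 (by omega)
  -- a vertex which is not dominated
  have hdom : ∀ r ∈ bd i q, y ∈ bd i r → y ∉ Yp r →
      (Yd i ε).card + 1 ≤ (Ax i ε).card + (FoN i ε).card + ∑ q ∈ M2 i ε, (Dq i ε q).card ∨
      2 ≤ ∑ y ∈ lev α i, ε y := by
    intro r hr hyr hyY
    have h9 : ε r ≤ ε y := by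
      by_contra h
      apply hyY
      rw [hYp]
      simp only [mem_filter]
      exact ⟨hyr, by omega⟩
    have h10 : ε y ≤ ∑ y ∈ lev α i, ε y :=
      Finset.single_le_sum (f := ε) (fun _ _ => Nat.zero_le _) (hylev r hr y hyr)
    by_cases h11 : 2 ≤ ε r
    · right
      omega
    · left
      have h12 : r ∈ (FoN i ε ∪ Ak) ∩ Af := by
        rw [mem_inter]
        refine ⟨mem_union_right _ ?_, ?_⟩
        · rw [hAk, mem_filter]
          exact ⟨hbdA hr, y, mem_bd.1 hyr, h9⟩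
        · rw [hAf, mem_filter]
          exact ⟨hbdA hr, q, mem_bd.1 hr, by omega⟩
      have h13 := card_pos.2 ⟨r, h12⟩
      omega
  by_cases hy1 : y ∈ Yp p
  · by_cases hy2 : y ∈ Yp p'
    · left
      have hp'E : p' ∈ (Ax i ε).erase p := mem_erase.2 ⟨hne.symm, hbdA hpq'⟩
      have h9 : (Ax i ε).biUnion Yp = Yp p ∪ ((Ax i ε).erase p).biUnion Yp := by
        rw [← Finset.biUnion_insert, Finset.insert_erase (hbdA hpq)]
      have h10 := card_union_add_card_inter (Yp p) (((Ax i ε).erase p).biUnion Yp)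
      have h11 : 0 < (Yp p ∩ ((Ax i ε).erase p).biUnion Yp).card := by
        rw [card_pos]
        exact ⟨y, mem_inter.2 ⟨hy1, mem_biUnion.2 ⟨p', hp'E, hy2⟩⟩⟩
      have h12 : (((Ax i ε).erase p).biUnion Yp).card ≤ ∑ p ∈ (Ax i ε).erase p, (Yp p).card :=
        card_biUnion_le
      have h13 := Finset.sum_erase_add (Ax i ε) (fun p => (Yp p).card) (hbdA hpq)
      rw [h9] at h2
      omega
    · exact hdom p' hpq' hy.2 hy2
  · exact hdom p hpq hy.1 hy1

/-- **classification with a far energy at least two**, no bound on the energy -/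
theorem far2_class3 (hg : Grad α) (hl : HasLower α i) (hdeg : ∀ p : α, (bd i p).card ≤ 2)
    (h3v : ∀ q : α, ds i q = 2 → (bd i q).card = 2 → (BB i q).card ≤ 3)
    {ε : α → ℕ} (hε : GoodE i ε) (hred : RedE i ε) (hfar : ∃ q, 2 ≤ ds i q ∧ 2 ≤ ε q)
    (he : ∑ p, ε p + (Fo i ε).card ≤ (Yd i ε).card + 2) :
    ∃ q, ds i q = 2 ∧ ε = cfQ i q := by
  have hB := basic_excess hg hl hdeg (ε := ε)
  have hS := sum_split (i := i) ε
  rw [card_Fo_eq] at he
  -- the elements next to level `i`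
  have hA : ∑ p ∈ N1 α i, ε p = ∑ p ∈ Ax i ε, ε p := by
    symm
    apply Finset.sum_subset
    · intro p hp
      exact mem_N1.2 (mem_Ax.1 hp).1
    · intro p hp hp'
      by_contra h
      exact hp' (mem_Ax.2 ⟨mem_N1.1 hp, Nat.pos_of_ne_zero h⟩)
  have hA1 : (Ax i ε).card ≤ ∑ p ∈ Ax i ε, ε p := by
    rw [Finset.card_eq_sum_ones]
    exact Finset.sum_le_sum fun p hp => (mem_Ax.1 hp).2
  -- the elements at distance two
  set F2 := ∑ p ∈ univ.filter (fun p => ds i p = 2), ε p with hF2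
  set F3 := ∑ p ∈ univ.filter (fun p => 3 ≤ ds i p), ε p with hF3
  have hM : ∀ q ∈ M2 i ε, ds i q = 2 ∧ 2 ≤ ε q := fun q hq => (mem_filter.1 hq).2
  have hMle : ∑ q ∈ M2 i ε, ε q ≤ F2 := by
    apply Finset.sum_le_sum_of_subset
    intro q hq
    rw [mem_filter]
    exact ⟨mem_univ _, (hM q hq).1⟩
  have hDq : ∀ q ∈ M2 i ε, (Dq i ε q).card ≤ ε q := by
    intro q hq
    have h1 : (Dq i ε q).card ≤ (bd i q).card := card_filter_le _ _
    have h2 := hdeg q
    have h3 := (hM q hq).2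
    omega
  have hDsum : ∑ q ∈ M2 i ε, (Dq i ε q).card ≤ ∑ q ∈ M2 i ε, ε q := Finset.sum_le_sum hDq
  have hF3' : F3 ≤ 2 := by omega
  -- the charge of an element of `M2`
  have hfree : ∀ q ∈ M2 i ε, Dq i ε q = bd i q → q ∈ FoF i ε := by
    intro q hq hD
    unfold FoF
    rw [mem_filter, mem_FoB]
    obtain ⟨h1, h2⟩ := hM q hq
    refine ⟨⟨?_, ?_, ?_⟩, by omega⟩
    · intro h
      rw [ds_eq_zero.2 h] at h1
      omega
    · rintro ⟨r, hr, hr2⟩
      have h3 := fr_ds hg hr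
      have h4 : ε r ≤ F3 := by
        rw [hF3]
        exact Finset.single_le_sum (f := ε) (fun _ _ => Nat.zero_le _)
          (mem_filter.2 ⟨mem_univ _, by omega⟩)
      omega
    · rintro ⟨t, ht, ht2⟩
      have h3 : t ∈ Dq i ε q := by
        rw [hD]
        exact mem_bd.2 ht
      have := (mem_filter.1 h3).2
      omega
  have hcharge : ∀ q ∈ M2 i ε, (Dq i ε q).card + 1 ≤ ε q + (if q ∈ FoF i ε then 1 else 0) := by
    intro q hq
    have h1 := hdeg q
    have h2 := (hM q hq).2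
    by_cases h3 : Dq i ε q = bd i q
    · rw [if_pos (hfree q hq h3), h3]
      omega
    · have h4 : Dq i ε q ⊂ bd i q := Finset.ssubset_iff_subset_ne.2 ⟨filter_subset _ _, h3⟩
      have := card_lt_card h4
      omega
  have hFoF : ∑ q ∈ M2 i ε, (if q ∈ FoF i ε then 1 else 0) ≤ (FoF i ε).card := by
    rw [← Finset.card_filter]
    apply card_le_card
    intro q hq
    exact (mem_filter.1 hq).2
  have hcs := Finset.sum_le_sum hcharge
  rw [Finset.sum_add_distrib, Finset.sum_add_distrib, Finset.sum_const, smul_eq_mul, mul_one]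
    at hcs
  obtain ⟨q0, hq0, hq0'⟩ := hfar
  have hq02 : ds i q0 = 2 := by
    by_contra h
    have h1 : ε q0 ≤ F3 := by
      rw [hF3]
      exact Finset.single_le_sum (f := ε) (fun _ _ => Nat.zero_le _)
        (mem_filter.2 ⟨mem_univ _, by omega⟩)
    -- `q0` is not dominated from far
    have h2 : ¬ fd i ε q0 := by
      rintro ⟨r, hr, hr2⟩
      have h3 := fr_ds hg hr
      have h4 : ε r ≤ F3 := by
        rw [hF3]
        exact Finset.single_le_sum (f := ε) (fun _ _ => Nat.zero_le _)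
          (mem_filter.2 ⟨mem_univ _, by omega⟩)
      omega
    by_cases h3 : nd i ε q0
    · obtain ⟨t, ht, ht2⟩ := h3
      have h4 := fr_ds hg ht
      by_cases h5 : ds i t = 2
      · have h6 : t ∈ M2 i ε := mem_filter.2 ⟨mem_univ _, h5, by omega⟩
        have h7 : 0 < (M2 i ε).card := card_pos.2 ⟨t, h6⟩
        omega
      · -- two elements at distance at least three
        have hne : t ≠ q0 := by
          rintro rfl
          omega
        have h6 : ({t, q0} : Finset α) ⊆ univ.filter (fun p => 3 ≤ ds i p) := by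
          intro r hr
          rw [mem_insert, mem_singleton] at hr
          rw [mem_filter]
          rcases hr with rfl | rfl
          · exact ⟨mem_univ _, by omega⟩
          · exact ⟨mem_univ _, by omega⟩
        have h7 : ∑ p ∈ ({t, q0} : Finset α), ε p ≤ F3 := Finset.sum_le_sum_of_subset h6
        rw [Finset.sum_pair hne] at h7
        omega
    · have h4 : q0 ∈ FoF i ε := by
        unfold FoF
        rw [mem_filter, mem_FoB]
        refine ⟨⟨?_, h2, h3⟩, by omega⟩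
        intro h5
        rw [ds_eq_zero.2 h5] at hq0
        omega
      -- a free element which is not in `M2`
      have h5 : ∑ q ∈ M2 i ε, (if q ∈ FoF i ε then 1 else 0) + 1 ≤ (FoF i ε).card := by
        rw [← Finset.card_filter]
        have h6 : q0 ∉ (M2 i ε).filter (fun q => q ∈ FoF i ε) := by
          intro h7
          exact h (hM q0 (mem_filter.1 h7).1).1
        rw [← Finset.card_insert_of_notMem h6]
        apply card_le_card
        intro q hq
        rw [mem_insert] at hq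
        rcases hq with rfl | hq
        · exact h4
        · exact (mem_filter.1 hq).2
      omega
  have hq0M : q0 ∈ M2 i ε := mem_filter.2 ⟨mem_univ _, hq02, hq0'⟩
  -- finish by `eq_cfQ`
  have hbdA : bd i q0 ⊆ Ax i ε := by
    intro t ht
    have h1 := ds_of_mem_bd hg hq02 ht
    rw [mem_Ax]
    exact ⟨h1, closure hg hl hε (mem_bd.1 ht) (fun h => by
      rw [ds_eq_zero.2 h] at h1
      omega) (by omega)⟩
  have hbd1 : 0 < (bd i q0).card := by
    obtain ⟨t, ht⟩ := exists_near hg hl (p := q0) (fun h => by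
      rw [ds_eq_zero.2 h] at hq02
      omega)
    exact card_pos.2 ⟨t, mem_bd.2 ht⟩
  have hbd2 := hdeg q0
  have hMpos : 0 < (M2 i ε).card := card_pos.2 ⟨q0, hq0M⟩
  have e0 : ε q0 ≤ F2 := by
    rw [hF2]
    exact Finset.single_le_sum (f := ε) (fun _ _ => Nat.zero_le _)
      (mem_filter.2 ⟨mem_univ _, hq02⟩)
  -- the charges without `q0`
  have hc0 : ∑ q ∈ M2 i ε, (Dq i ε q).card + (M2 i ε).card + ε q0 +
      (if q0 ∈ FoF i ε then 1 else 0) ≤
      ∑ q ∈ M2 i ε, ε q + ∑ q ∈ M2 i ε, (if q ∈ FoF i ε then 1 else 0) + 1 +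
      (Dq i ε q0).card := by
    rw [← Finset.sum_erase_add _ _ hq0M, ← Finset.sum_erase_add _ (fun q => ε q) hq0M,
      ← Finset.sum_erase_add _ (fun q => if q ∈ FoF i ε then 1 else 0) hq0M]
    have g7 : ∀ q ∈ (M2 i ε).erase q0, (Dq i ε q).card + 1 ≤
        ε q + (if q ∈ FoF i ε then 1 else 0) := fun q hq => hcharge q (mem_of_mem_erase hq)
    have g8 := Finset.sum_le_sum g7
    rw [Finset.sum_add_distrib, Finset.sum_add_distrib, Finset.sum_const, smul_eq_mul,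
      mul_one, card_erase_of_mem hq0M] at g8
    have g9 : (M2 i ε).card - 1 + 1 = (M2 i ε).card := by omega
    omega
  -- if all neighbours have smaller energy, then `q0` is free; otherwise one has energy `≥ 2`
  have hAx2 : Dq i ε q0 ≠ bd i q0 → (Ax i ε).card + 1 ≤ ∑ r ∈ Ax i ε, ε r := by
    intro hD
    obtain ⟨p, hp, hp2⟩ : ∃ p ∈ bd i q0, ε q0 ≤ ε p := by
      by_contra h
      push Not at h
      apply hD
      unfold Dq
      exact Finset.filter_true_of_mem h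
    have hpA := hbdA hp
    rw [← Finset.sum_erase_add _ _ hpA, ← Finset.card_erase_add_one hpA]
    have g4 : ((Ax i ε).erase p).card ≤ ∑ r ∈ (Ax i ε).erase p, ε r := by
      rw [Finset.card_eq_sum_ones]
      exact Finset.sum_le_sum fun r hr => (mem_Ax.1 (mem_of_mem_erase hr)).2
    omega
  have hDlt : Dq i ε q0 ≠ bd i q0 → (Dq i ε q0).card + 1 ≤ (bd i q0).card := by
    intro hD
    have g2 : Dq i ε q0 ⊂ bd i q0 := Finset.ssubset_iff_subset_ne.2 ⟨filter_subset _ _, hD⟩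
    exact card_lt_card g2
  have hfin : ∀ (c0 : ∑ y ∈ lev α i, ε y = 0) (c1 : ∑ p ∈ Ax i ε, ε p = (Ax i ε).card)
      (c2 : F2 = 2) (c3 : F3 = 0), ∃ q, ds i q = 2 ∧ ε = cfQ i q := by
    intro c0 c1 c2 c3
    refine ⟨q0, hq02, eq_cfQ hg hl hε hred hq02 (by omega) ?_ ?_ ?_ ?_⟩
    · intro y hy
      exact Finset.sum_eq_zero_iff.1 c0 y (mem_lev.2 hy)
    · intro p hp
      by_cases h1 : p ∈ Ax i ε
      · have h2 : ∀ r ∈ Ax i ε, 1 ≤ ε r := fun r hr => (mem_Ax.1 hr).2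
        have h3 := (Finset.sum_eq_sum_iff_of_le (f := fun _ => 1) (g := ε) h2).1 (by
          rw [c1]
          simp) p h1
        omega
      · have : ¬ 0 < ε p := fun h => h1 (mem_Ax.2 ⟨hp, h⟩)
        omega
    · intro r hr hr0
      by_contra hne
      have h1 : ({r, q0} : Finset α) ⊆ univ.filter (fun p => ds i p = 2) := by
        intro t ht
        rw [mem_insert, mem_singleton] at ht
        rw [mem_filter]
        rcases ht with rfl | rfl
        · exact ⟨mem_univ _, hr⟩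
        · exact ⟨mem_univ _, hq02⟩
      have h2 : ∑ p ∈ ({r, q0} : Finset α), ε p ≤ F2 := Finset.sum_le_sum_of_subset h1
      rw [Finset.sum_pair hne] at h2
      omega
    · intro r hr
      exact Finset.sum_eq_zero_iff.1 c3 r (mem_filter.2 ⟨mem_univ _, hr⟩)
  have hone : (M2 i ε).card = 1 → ∑ q ∈ M2 i ε, ε q = ε q0 ∧
      ∑ q ∈ M2 i ε, (Dq i ε q).card = (Dq i ε q0).card ∧
      ∑ q ∈ M2 i ε, (if q ∈ FoF i ε then 1 else 0) = (if q0 ∈ FoF i ε then 1 else 0) := by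
    intro g1
    obtain ⟨q1, hq1⟩ := Finset.card_eq_one.1 g1
    have g2 : q1 = q0 := by
      rw [hq1, mem_singleton] at hq0M
      exact hq0M.symm
    rw [g2] at hq1
    rw [hq1]
    simp only [Finset.sum_singleton, and_self]
  have hgain : (bd i q0).card = 2 →
      ((Yd i ε).card + 1 ≤ (Ax i ε).card + (FoN i ε).card + ∑ q ∈ M2 i ε, (Dq i ε q).card ∨
        2 ≤ ∑ y ∈ lev α i, ε y) := fun hb =>
    basic_gain hg hl hdeg hε hq02 hq0' hb (h3v q0 hq02 hb)
  by_cases hD : Dq i ε q0 = bd i q0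
  · have g5 := hfree q0 hq0M hD
    rw [if_pos g5, hD] at hc0
    have hb : (bd i q0).card = 1 ∨ (bd i q0).card = 2 := by omega
    rcases hb with hb | hb
    · have g1 : (M2 i ε).card = 1 := by omega
      obtain ⟨k1, k2, k3⟩ := hone g1
      rw [if_pos g5] at k3
      rw [hD] at k2
      apply hfin <;> omega
    · rcases hgain hb with h | h
      · have g1 : (M2 i ε).card = 1 := by omega
        obtain ⟨k1, k2, k3⟩ := hone g1
        rw [if_pos g5] at k3
        rw [hD] at k2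
        apply hfin <;> omega
      · omega
  · exfalso
    have g1 := hAx2 hD
    have g2 := hDlt hD
    have hb : (bd i q0).card = 1 ∨ (bd i q0).card = 2 := by omega
    rcases hb with hb | hb
    · split_ifs at hc0 <;> omega
    · rcases hgain hb with h | h
      · split_ifs at hc0 <;> omega
      · split_ifs at hc0 <;> omega

/-- the part with a far energy at least two, modulo `w ^ 3`, all energies -/
theorem far2_part3J (hg : Grad α) (hl : HasLower α i) (hdeg : ∀ p : α, (bd i p).card ≤ 2)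
    (h3v : ∀ q : α, ds i q = 2 → (bd i q).card = 2 → (BB i q).card ≤ 3) {J : ℕ} (hJ : 4 ≤ J) :
    ∃ Q : AA, ∑ s ∈ range (J + 1), ∑ ε ∈ (RG α i s).filter (fun ε => ¬ F1 i ε), VN i ε =
      ∑ q ∈ D2 α i, VN i (cfQ i q) + wA ^ 3 * Q := by
  set S := (range (J + 1)).biUnion (fun s => (RG α i s).filter (fun ε => ¬ F1 i ε)) with hS
  have hsum : ∀ s, ∀ ε ∈ RG α i s, ∑ p, ε p = s := by
    intro s ε hε
    unfold RG at hε
    rw [mem_filter, mem_piAntidiag] at hε
    exact hε.1.1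
  have h1 : ∑ s ∈ range (J + 1), ∑ ε ∈ (RG α i s).filter (fun ε => ¬ F1 i ε), VN i ε =
      ∑ ε ∈ S, VN i ε := by
    rw [hS, Finset.sum_biUnion]
    intro s _ t _ hst
    simp only [Function.onFun]
    rw [Finset.disjoint_left]
    intro ε h2 h3
    exact hst ((hsum s ε (mem_filter.1 h2).1).symm.trans (hsum t ε (mem_filter.1 h3).1))
  have hmemS : ∀ ε, ε ∈ S ↔ ∑ p, ε p ≤ J ∧ Red i ε ∧ GoodE i ε ∧ ¬ F1 i ε := by
    intro ε
    rw [hS, mem_biUnion]
    constructor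
    · rintro ⟨s, h2, h3⟩
      rw [mem_range] at h2
      rw [mem_filter] at h3
      have h4 := hsum s ε h3.1
      unfold RG at h3
      rw [mem_filter] at h3
      exact ⟨by omega, h3.1.2.1, h3.1.2.2, h3.2⟩
    · rintro ⟨h2, h3, h4, h5⟩
      refine ⟨∑ p, ε p, by rw [mem_range]; omega, ?_⟩
      rw [mem_filter]
      unfold RG
      rw [mem_filter, mem_piAntidiag]
      exact ⟨⟨⟨rfl, fun _ _ => mem_univ _⟩, h3, h4⟩, h5⟩
  have h2 : (D2 α i).image (cfQ i) ⊆ S := by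
    intro ε hε
    rw [mem_image] at hε
    obtain ⟨q, hq, rfl⟩ := hε
    rw [mem_D2] at hq
    rw [hmemS]
    refine ⟨?_, cfQ_Red hq hg, cfQ_good hq hg hl, ?_⟩
    · rw [sum_cfQ hq hg]
      have := hdeg q
      omega
    · intro h
      have h3 := h q (by omega)
      rw [cfQ_self] at h3
      omega
  have h3 : ∑ q ∈ D2 α i, VN i (cfQ i q) = ∑ ε ∈ (D2 α i).image (cfQ i), VN i ε := by
    rw [Finset.sum_image]
    intro q _ q' _ h
    exact cfQ_inj h
  rw [h1, h3, ← Finset.sum_sdiff h2]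
  have h4 : wA ^ 3 ∣ ∑ ε ∈ S \ (D2 α i).image (cfQ i), VN i ε := by
    apply Finset.dvd_sum
    intro ε hε
    rw [mem_sdiff, hmemS] at hε
    obtain ⟨⟨g1, g2, g3, g4⟩, g5⟩ := hε
    apply VN_dvd
    by_contra h5
    apply g5
    have hfar : ∃ q, 2 ≤ ds i q ∧ 2 ≤ ε q := by
      unfold F1 at g4
      push Not at g4
      obtain ⟨q, g6, g7⟩ := g4
      exact ⟨q, g6, by omega⟩
    have hYd := Yd_le hg hdeg ε (i := i)
    unfold exc at h5
    obtain ⟨q, g6, g7⟩ := far2_class3 hg hl hdeg h3v g3 (RedE_of_Red hg g2) hfar (by omega)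
    rw [mem_image]
    exact ⟨q, mem_D2.2 g6, g7.symm⟩
  obtain ⟨Q, hQ⟩ := h4
  exact ⟨Q, by rw [hQ]; ring⟩

/-- the far parts with values 0 and 1 and energy at most two, and `VQ`, resummed -/
theorem res_model (hg : Grad α) (hl : HasLower α i) (hdeg : ∀ p : α, (bd i p).card ≤ 2) :
    ∃ Q : AA, ∑ s ∈ range 3, ∑ e ∈ E01 α i s, qA ^ s * Ev wA (WA i e) +
        ∑ q ∈ D2 α i, VQ i q =
      Ev wA (∏ p ∈ N1 α i, (1 + MvPolynomial.C (lam i p) * EA i 0 p)) +
      qA * ∑ y ∈ lev α i,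
        Ev wA (∏ p ∈ N1 α i, (1 + MvPolynomial.C (lam1 i p) * EA i (ind {y}) p)) +
      qA ^ 2 * ∑ k ∈ KL α i 2, Ev wA (∏ p ∈ N1 α i, GA i k p) +
      ∑ u ∈ U2 α i, (qA * (1 + qA * (Gq i u).card) *
        Ev wA (forced (N1 α i) (fun p => MvPolynomial.C (lam1 i p) * EA i 0 p) (bd i u)) +
        qA ^ 2 * ∑ y ∈ lev α i, Ev wA (forced (N1 α i) (EA i (ind {y})) (bd i u)) +
        VQ i u) +
      qA ^ 2 * ∑ T ∈ (U2 α i).powersetCard 2,
        Ev wA (forced (N1 α i) (EA i 0) (T.biUnion (bd i))) + wA ^ 3 * Q := by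
  have hq : qA = wA * ZA := rfl
  obtain ⟨e0, e1, e2⟩ := sum_E01_explicit hg hl (i := i)
  rw [Finset.sum_range_succ, Finset.sum_range_succ, Finset.sum_range_one, ← mul_sum, ← mul_sum,
    ← mul_sum, e0, e1, e2]
  -- `VQ` of the single elements
  have hV : ∃ H : AA, ∑ q ∈ D2 α i, VQ i q = ∑ u ∈ U2 α i, VQ i u -
      qA ^ 2 * ∑ u ∈ U1 α i, Ev wA (WT i {u} 0) + wA ^ 3 * H := by
    have h4 : ∀ u : α, ∃ H : AA, u ∈ U1 α i →
        VQ i u = - qA ^ 2 * Ev wA (WT i {u} 0) + wA ^ 3 * H := by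
      intro u
      by_cases hu : u ∈ U1 α i
      · obtain ⟨H, hH⟩ := VQ_single hg hl hdeg hu
        exact ⟨H, fun _ => by rw [hH, WT_single]⟩
      · exact ⟨0, fun h => absurd h hu⟩
    choose H hH using h4
    refine ⟨∑ u ∈ U1 α i, H u, ?_⟩
    rw [D2_eq hg hl hdeg, sum_union U1_disj, sum_congr rfl fun u hu => hH u hu,
      sum_add_distrib, ← mul_sum, ← mul_sum]
    ring
  obtain ⟨HV, hHV⟩ := hV
  obtain ⟨H3, hH3⟩ := res3 hg hl hdeg (i := i)
    (fun u => ((Gq i u).card : AA) - if u ∈ U1 α i then 1 else 0)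
  have h4 : ∀ y : α, ∃ H : AA, Ev wA (WT i (∅ : Finset α) (ind {y})) +
      qA * ∑ q ∈ D2 α i, Ev wA (WT i {q} (ind {y})) =
      Ev wA (∏ p ∈ N1 α i, (1 + MvPolynomial.C (lam1 i p) * EA i (ind {y}) p)) +
      qA * ∑ u ∈ U2 α i, Ev wA (WT i {u} (ind {y})) + qA ^ 2 * H :=
    fun y => res2 hg hl hdeg (ind {y})
  choose H2 hH2 using h4
  -- the first product
  have h5 : ∏ p ∈ N1 α i, (1 + MvPolynomial.C (1 + ((ch i p).card : AA) * qA +
      (((ch i p).card.choose 2 : ℕ) + ∑ u ∈ ch i p,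
        (((Gq i u).card : AA) - if u ∈ U1 α i then 1 else 0)) * qA ^ 2) * EA i 0 p) =
      ∏ p ∈ N1 α i, (1 + MvPolynomial.C (lam i p) * EA i 0 p) := by
    apply prod_congr rfl
    intro p _
    congr 3
    unfold lam
    have h6 : ∑ u ∈ ch i p, (((Gq i u).card : AA) - if u ∈ U1 α i then 1 else 0) =
        ∑ u ∈ ch i p, ((Gq i u).card : AA) - ((ch i p).card : AA) := by
      rw [sum_sub_distrib]
      congr 1
      rw [Finset.card_eq_sum_ones, Nat.cast_sum]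
      apply sum_congr rfl
      intro u hu
      unfold ch at hu
      rw [mem_filter] at hu
      rw [if_pos hu.1, Nat.cast_one]
    rw [h6]
    ring
  rw [h5] at hH3
  -- sums over the elements at distance two
  have h7 : ∑ q ∈ D2 α i, qA * (1 + qA * (((Gq i q).card : AA) - if q ∈ U1 α i then 1 else 0)) *
      Ev wA (WT i {q} 0) = qA * ∑ q ∈ D2 α i, Ev wA (WT i {q} 0) +
      qA ^ 2 * ∑ q ∈ D2 α i, ((Gq i q).card : AA) * Ev wA (WT i {q} 0) -
      qA ^ 2 * ∑ u ∈ U1 α i, Ev wA (WT i {u} 0) := by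
    have h8 : ∑ u ∈ U1 α i, Ev wA (WT i {u} 0) =
        ∑ q ∈ D2 α i, (if q ∈ U1 α i then 1 else 0) * Ev wA (WT i {q} 0) := by
      rw [D2_eq hg hl hdeg, sum_union U1_disj]
      have h9 : ∑ u ∈ U2 α i, (if u ∈ U1 α i then (1 : AA) else 0) * Ev wA (WT i {u} 0) = 0 := by
        apply sum_eq_zero
        intro u hu
        rw [if_neg (fun h => (Finset.disjoint_left.1 U1_disj) h hu), zero_mul]
      rw [h9, add_zero]
      apply sum_congr rfl
      intro u hu
      rw [if_pos hu, one_mul]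
    rw [h8, mul_sum, mul_sum, mul_sum, ← sum_add_distrib, ← sum_sub_distrib]
    apply sum_congr rfl
    intro q _
    ring
  rw [h7] at hH3
  have h8 : ∑ u ∈ U2 α i, qA * (1 + qA * (((Gq i u).card : AA) - if u ∈ U1 α i then 1 else 0)) *
      Ev wA (forced (N1 α i) (fun p => MvPolynomial.C (lam1 i p) * EA i 0 p) (bd i u)) =
      ∑ u ∈ U2 α i, qA * (1 + qA * ((Gq i u).card : AA)) *
      Ev wA (forced (N1 α i) (fun p => MvPolynomial.C (lam1 i p) * EA i 0 p) (bd i u)) := by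
    apply sum_congr rfl
    intro u hu
    rw [if_neg (fun h => (Finset.disjoint_left.1 U1_disj) h hu), sub_zero]
  rw [h8] at hH3
  -- the sum over `y`
  have h9 : ∑ y ∈ lev α i, Ev wA (WT i (∅ : Finset α) (ind {y})) +
      qA * ∑ q ∈ D2 α i, ∑ y ∈ lev α i, Ev wA (WT i {q} (ind {y})) =
      ∑ y ∈ lev α i,
        Ev wA (∏ p ∈ N1 α i, (1 + MvPolynomial.C (lam1 i p) * EA i (ind {y}) p)) +
      qA * ∑ u ∈ U2 α i, ∑ y ∈ lev α i, Ev wA (forced (N1 α i) (EA i (ind {y})) (bd i u)) +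
      qA ^ 2 * ∑ y ∈ lev α i, H2 y := by
    rw [sum_comm (s := D2 α i), sum_comm (s := U2 α i), mul_sum, mul_sum, mul_sum,
      ← sum_add_distrib, ← sum_add_distrib, ← sum_add_distrib]
    apply sum_congr rfl
    intro y _
    rw [hH2]
    simp only [WT_single]
  have h10 : ∑ k ∈ KL α i 2, Ev wA (WT i (∅ : Finset α) k) =
      ∑ k ∈ KL α i 2, Ev wA (∏ p ∈ N1 α i, GA i k p) := by
    apply sum_congr rfl
    intro k _
    rw [WT_empty]
  have h11 : ∑ T ∈ (U2 α i).powersetCard 2, Ev wA (WT i T 0) =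
      ∑ T ∈ (U2 α i).powersetCard 2,
        Ev wA (forced (N1 α i) (EA i 0) (T.biUnion (bd i))) :=
    sum_congr rfl fun T _ => by rw [WT_forced]
  refine ⟨HV + ZA ^ 3 * H3 + ZA ^ 3 * ∑ y ∈ lev α i, H2 y, ?_⟩
  rw [hHV, ← h10, ← h11, sum_add_distrib, sum_add_distrib, ← mul_sum]
  have h12 : qA ^ 3 = wA ^ 3 * ZA ^ 3 := by rw [hq, mul_pow]
  linear_combination hH3 + qA * h9 + (H3 + ∑ y ∈ lev α i, H2 y) * h12

/-- an object with at most three vertices, modulo `w ^ 3`, exactly in `Z` -/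
theorem obj3 (hg : Grad α) (hl : HasLower α i) (hdeg : ∀ p : α, (bd i p).card ≤ 2) {u : α}
    (hu : u ∈ U2 α i) (h3 : (BB i u).card ≤ 3) : ∃ Q : AA, qA * (1 + qA * (Gq i u).card) *
      Ev wA (forced (N1 α i) (fun p => MvPolynomial.C (lam1 i p) * EA i 0 p) (bd i u)) + VQ i u =
      (if (BB i u).card = 3 then wA ^ 2 * ((sgn i u * ZA ^ 3 + ZA ^ 4) *
        Ev wA ((∏ y ∈ BB i u, MvPolynomial.X y) * rsK i 0 u)) else 0) + wA ^ 3 * Q := by
  rw [mem_U2] at hu
  obtain ⟨hq, h2⟩ := hu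
  have h3' : forced (N1 α i) (fun p => MvPolynomial.C (lam1 i p) * EA i 0 p) (bd i u) =
      MvPolynomial.C (∏ p ∈ bd i u, lam1 i p) *
        ((∏ p ∈ bd i u, (GA i 0 p - 1)) * rsL i u) := by
    rw [forced_eq (bd_subset_N1 hg hq), prod_mul_distrib, map_prod, mul_assoc]
    rfl
  have h4 := forced_term hg hl hdeg hq (k := 0) (fun _ _ => rfl) (rsL i u)
  rw [h2] at h4
  have h5 : VQ i u = ZA ^ 4 * wA ^ (5 - (BB i u).card) * sgQ i u *
      Ev wA ((∏ y ∈ BB i u, av i u y) * rsK i 0 u) := by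
    unfold VQ rsK
    rw [h2]
  rw [h3', Ev_C_mul, h5]
  have h6 : (∏ p ∈ bd i u, lam1 i p) * (1 + qA * (Gq i u).card) *
      (qA * Ev wA ((∏ p ∈ bd i u, (GA i 0 p - 1)) * rsL i u)) =
      (∏ p ∈ bd i u, lam1 i p) * (1 + qA * (Gq i u).card) *
      (ZA ^ (2 + 1) * wA ^ (2 * 2 + 1 - (BB i u).card) * (nrm i u * geoA) ^ 2 *
        Ev wA ((∏ y ∈ BB i u, av i u y) * rsL i u)) := by rw [h4]
  by_cases h7 : (BB i u).card = 3
  · rw [if_pos h7]
    rw [h7] at h6 ⊢
    obtain ⟨H, hH⟩ := Ev_obj_mod (i := i) u (BB i u) (R := rsL i u) (R' := rsK i 0 u)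
      (by rw [← dvd_neg, neg_sub]; exact rs_w u)
    obtain ⟨H', hH'⟩ := Ev_obj_mod (i := i) u (BB i u) (R := rsK i 0 u) (R' := rsK i 0 u)
      (by rw [sub_self]; exact dvd_zero _)
    obtain ⟨Q1, h1⟩ := nrm_geo_mod (i := i) u
    obtain ⟨Q2, h8⟩ := sgQ_mod (i := i) u h2
    obtain ⟨Q3, h9⟩ : ∃ Q, ∏ p ∈ bd i u, lam1 i p = 1 + wA * Q := by
      obtain ⟨Q, hQ⟩ := prod_dvd_sub (I := bd i u) (f := fun p => lam1 i p) (g := fun _ => 1)
        (d := wA) (fun p _ => wA_dvd_qA.trans (qA_dvd_lam1 p))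
      refine ⟨Q, ?_⟩
      rw [prod_const_one] at hQ
      linear_combination hQ
    rw [h7] at hH hH'
    have h10 := sgn_pow_two (i := i) u
    set V := Ev wA ((∏ y ∈ BB i u, MvPolynomial.X y) * rsK i 0 u) with hV
    set G := ((Gq i u).card : AA) with hG
    have hqa : qA = wA * ZA := rfl
    refine ⟨ZA ^ 3 * ((Q3 + ZA * G + wA * ZA * G * Q3) * ((1 + wA * Q1) * (sgn i u ^ 3 * V + wA * H)) +
      Q1 * (sgn i u ^ 3 * V + wA * H) + H) +
      ZA ^ 4 * (Q2 * (sgn i u ^ 3 * V + wA * H') + sgn i u * H'), ?_⟩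
    rw [h9, h1, hH] at h6
    rw [h9, h8, hH']
    rw [hqa] at h6 ⊢
    linear_combination h6 + (wA ^ 2 * V * (sgn i u * ZA ^ 3 + (sgn i u ^ 2 + 1) * ZA ^ 4)) * h10
  · rw [if_neg h7]
    have h8 : 2 * 2 + 1 - (BB i u).card = 3 + (2 - (BB i u).card) := by omega
    have h9 : 5 - (BB i u).card = 3 + (2 - (BB i u).card) := by omega
    rw [h8, pow_add] at h6
    rw [h9, pow_add]
    refine ⟨(∏ p ∈ bd i u, lam1 i p) * (1 + qA * (Gq i u).card) *
      (ZA ^ (2 + 1) * wA ^ (2 - (BB i u).card) * (nrm i u * geoA) ^ 2 *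
        Ev wA ((∏ y ∈ BB i u, av i u y) * rsL i u)) +
      ZA ^ 4 * wA ^ (2 - (BB i u).card) * sgQ i u *
        Ev wA ((∏ y ∈ BB i u, av i u y) * rsK i 0 u), ?_⟩
    linear_combination h6

/-- two objects are divisible by `w ^ 3` -/
theorem objT3 (hg : Grad α) (hl : HasLower α i) (hdeg : ∀ p : α, (bd i p).card ≤ 2)
    (h3v : ∀ u ∈ U2 α i, (BB i u).card ≤ 3)
    {T : Finset α} (hT : T ∈ (U2 α i).powersetCard 2) : ∃ Q : AA,
      qA ^ 2 * Ev wA (forced (N1 α i) (EA i 0) (T.biUnion (bd i))) = wA ^ 3 * Q := by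
  rw [mem_powersetCard] at hT
  obtain ⟨hT, hc⟩ := hT
  have hA : T.biUnion (bd i) ⊆ N1 α i := by
    intro p hp
    rw [mem_biUnion] at hp
    obtain ⟨u, hu', hp⟩ := hp
    exact bd_subset_N1 hg (mem_U2.1 (hT hu')).1 hp
  obtain ⟨u, u', hne, hT2⟩ := Finset.card_eq_two.1 hc
  have huT : u ∈ T := by rw [hT2]; simp
  have hu := mem_U2.1 (hT huT)
  have hsub : bd i u ⊆ T.biUnion (bd i) := Finset.subset_biUnion_of_mem (bd i) huT
  have h3 : forced (N1 α i) (EA i 0) (T.biUnion (bd i)) =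
      (∏ p ∈ bd i u, (GA i 0 p - 1)) * ((∏ p ∈ T.biUnion (bd i) \ bd i u, (GA i 0 p - 1)) *
        ∏ p ∈ N1 α i \ T.biUnion (bd i), GA i 0 p) := by
    rw [forced_EA _ hA, ← mul_assoc, mul_comm (∏ p ∈ bd i u, (GA i 0 p - 1)),
      Finset.prod_sdiff hsub]
    rfl
  have h4 := forced_term hg hl hdeg hu.1 (k := 0) (fun _ _ => rfl)
    ((∏ p ∈ T.biUnion (bd i) \ bd i u, (GA i 0 p - 1)) *
        ∏ p ∈ N1 α i \ T.biUnion (bd i), GA i 0 p)
  have h5 := h3v u (hT huT)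
  rw [hu.2] at h4
  have h6 : 2 * 2 + 1 - (BB i u).card = 2 + (3 - (BB i u).card) := by omega
  rw [h6, pow_add] at h4
  rw [h3]
  refine ⟨ZA * (ZA ^ (2 + 1) * wA ^ (3 - (BB i u).card) * (nrm i u * geoA) ^ 2 *
    Ev wA ((∏ y ∈ BB i u, av i u y) * ((∏ p ∈ T.biUnion (bd i) \ bd i u, (GA i 0 p - 1)) *
        ∏ p ∈ N1 α i \ T.biUnion (bd i), GA i 0 p))), ?_⟩
  have hq : qA = wA * ZA := rfl
  rw [pow_two, mul_assoc, h4]
  rw [hq]
  ring

lemma three_of_U4 (hdeg : ∀ p : α, (bd i p).card ≤ 2) (h4 : U4 α i = ∅) :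
    ∀ u ∈ U2 α i, (BB i u).card ≤ 3 := by
  intro u hu
  have h1 := card_BB_le4 hdeg u (i := i)
  have h2 : (BB i u).card ≠ 4 := by
    intro h
    have : u ∈ U4 α i := mem_filter.2 ⟨hu, h⟩
    rw [h4] at this
    simp at this
  omega

lemma sum_E01_split (m n : ℕ) (hmn : m ≤ n) : ∃ Q : AA, ∑ s ∈ range n, ∑ e ∈ E01 α i s,
      qA ^ s * Ev wA (WA i e) = ∑ s ∈ range m, ∑ e ∈ E01 α i s, qA ^ s * Ev wA (WA i e) +
        wA ^ m * Q := by
  have h3 : range n = range m ∪ Ico m n := by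
    ext a
    rw [mem_union, mem_range, mem_range, mem_Ico]
    omega
  have h4 : Disjoint (range m) (Ico m n) := by
    rw [Finset.disjoint_left]
    intro a ha ha'
    rw [mem_range] at ha
    rw [mem_Ico] at ha'
    omega
  have h5 : wA ^ m ∣ ∑ s ∈ Ico m n, ∑ e ∈ E01 α i s, qA ^ s * Ev wA (WA i e) := by
    apply Finset.dvd_sum
    intro s hs
    rw [mem_Ico] at hs
    apply Finset.dvd_sum
    intro e _
    apply Dvd.dvd.mul_right
    rw [qA, mul_pow]
    exact (pow_dvd_pow _ hs.1).mul_right _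
  obtain ⟨Q, hQ⟩ := h5
  exact ⟨Q, by rw [h3, sum_union h4, hQ]⟩

/-- the objects together -/
lemma sum_obj3 (hg : Grad α) (hl : HasLower α i) (hdeg : ∀ p : α, (bd i p).card ≤ 2)
    (h3v : ∀ u ∈ U2 α i, (BB i u).card ≤ 3) : ∃ Q : AA,
      ∑ u ∈ U2 α i, (qA * (1 + qA * (Gq i u).card) *
        Ev wA (forced (N1 α i) (fun p => MvPolynomial.C (lam1 i p) * EA i 0 p) (bd i u)) +
        qA ^ 2 * ∑ y ∈ lev α i, Ev wA (forced (N1 α i) (EA i (ind {y})) (bd i u)) +
        VQ i u) =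
      wA ^ 2 * ∑ u ∈ U3 α i, (sgn i u * ZA ^ 3 + ZA ^ 4) *
        Ev wA ((∏ y ∈ BB i u, MvPolynomial.X y) * rsK i 0 u) +
      wA ^ 2 * (ZA ^ 4 * ∑ u ∈ U2 α i, ∑ y ∈ (lev α i).filter (fun y => ObY i u y),
        Ev wA ((∏ t ∈ (BB i u).erase y, MvPolynomial.X t) * rsK i (ind {y}) u)) +
      wA ^ 3 * Q := by
  have e1 : ∀ u : α, ∃ Q : AA, u ∈ U2 α i → qA * (1 + qA * (Gq i u).card) *
      Ev wA (forced (N1 α i) (fun p => MvPolynomial.C (lam1 i p) * EA i 0 p) (bd i u)) +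
      VQ i u =
      (if (BB i u).card = 3 then wA ^ 2 * ((sgn i u * ZA ^ 3 + ZA ^ 4) *
        Ev wA ((∏ y ∈ BB i u, MvPolynomial.X y) * rsK i 0 u)) else 0) + wA ^ 3 * Q := by
    intro u
    by_cases hu : u ∈ U2 α i
    · obtain ⟨Q, hR⟩ := obj3 hg hl hdeg hu (h3v u hu)
      exact ⟨Q, fun _ => hR⟩
    · exact ⟨0, fun h => absurd h hu⟩
  choose Q1 hR1 using e1
  have e2 : ∀ u y : α, ∃ Q : AA, u ∈ U2 α i →
      qA ^ 2 * Ev wA (forced (N1 α i) (EA i (ind {y})) (bd i u)) =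
      wA ^ 2 * (ZA ^ 4 * if ObY i u y then
        Ev wA ((∏ t ∈ (BB i u).erase y, MvPolynomial.X t) * rsK i (ind {y}) u) else 0) +
        wA ^ 3 * Q := by
    intro u y
    by_cases hu : u ∈ U2 α i
    · obtain ⟨Q, hQ⟩ := objY hg hl hdeg hu y
      exact ⟨Q, fun _ => hQ⟩
    · exact ⟨0, fun h => absurd h hu⟩
  choose Q2 hQ2 using e2
  refine ⟨∑ u ∈ U2 α i, Q1 u + ∑ u ∈ U2 α i, ∑ y ∈ lev α i, Q2 u y, ?_⟩
  have g1 : ∀ u ∈ U2 α i, (qA * (1 + qA * (Gq i u).card) *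
      Ev wA (forced (N1 α i) (fun p => MvPolynomial.C (lam1 i p) * EA i 0 p) (bd i u)) +
      qA ^ 2 * ∑ y ∈ lev α i, Ev wA (forced (N1 α i) (EA i (ind {y})) (bd i u)) +
      VQ i u) =
      wA ^ 2 * (if (BB i u).card = 3 then (sgn i u * ZA ^ 3 + ZA ^ 4) *
        Ev wA ((∏ y ∈ BB i u, MvPolynomial.X y) * rsK i 0 u) else 0) +
      wA ^ 2 * (ZA ^ 4 * ∑ y ∈ (lev α i).filter (fun y => ObY i u y),
        Ev wA ((∏ t ∈ (BB i u).erase y, MvPolynomial.X t) * rsK i (ind {y}) u)) +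
      wA ^ 3 * (Q1 u + ∑ y ∈ lev α i, Q2 u y) := by
    intro u hu
    have k1 := hR1 u hu
    have k2 : qA ^ 2 * ∑ y ∈ lev α i, Ev wA (forced (N1 α i) (EA i (ind {y})) (bd i u)) =
        wA ^ 2 * (ZA ^ 4 * ∑ y ∈ (lev α i).filter (fun y => ObY i u y),
        Ev wA ((∏ t ∈ (BB i u).erase y, MvPolynomial.X t) * rsK i (ind {y}) u)) +
        wA ^ 3 * ∑ y ∈ lev α i, Q2 u y := by
      rw [mul_sum, sum_congr rfl fun y _ => hQ2 u y hu, sum_add_distrib, sum_filter,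
        mul_sum, mul_sum, mul_sum]
    rw [add_right_comm, k1, k2]
    split_ifs <;> ring
  rw [sum_congr rfl g1]
  unfold U3
  simp only [sum_add_distrib, mul_sum, sum_filter, mul_add]

lemma sum_objT3 (hg : Grad α) (hl : HasLower α i) (hdeg : ∀ p : α, (bd i p).card ≤ 2)
    (h3v : ∀ u ∈ U2 α i, (BB i u).card ≤ 3) : ∃ Q : AA,
    qA ^ 2 * ∑ T ∈ (U2 α i).powersetCard 2,
      Ev wA (forced (N1 α i) (EA i 0) (T.biUnion (bd i))) = wA ^ 3 * Q := by
  have e3 : ∀ T : Finset α, ∃ Q : AA, T ∈ (U2 α i).powersetCard 2 →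
      qA ^ 2 * Ev wA (forced (N1 α i) (EA i 0) (T.biUnion (bd i))) = wA ^ 3 * Q := by
    intro T
    by_cases hT : T ∈ (U2 α i).powersetCard 2
    · obtain ⟨Q, hR⟩ := objT3 hg hl hdeg h3v hT
      exact ⟨Q, fun _ => hR⟩
    · exact ⟨0, fun h => absurd h hT⟩
  choose Q3 hR3 using e3
  refine ⟨∑ T ∈ (U2 α i).powersetCard 2, Q3 T, ?_⟩
  rw [mul_sum, sum_congr rfl hR3, ← mul_sum]

/-- the elements at distance two modulo `w ^ 2` -/
lemma sum_D2_two (hg : Grad α) (hl : HasLower α i) (hdeg : ∀ p : α, (bd i p).card ≤ 2)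
    (h3v : ∀ u ∈ U2 α i, (BB i u).card ≤ 3) : ∃ Q : AA,
    ∑ q ∈ D2 α i, VQ i q + qA * ∑ u ∈ U2 α i, Ev wA (WT i {u} 0) = wA ^ 2 * Q := by
  have k1 : ∀ q : α, ∃ Q : AA, q ∈ U2 α i → qA * Ev wA (WT i {q} 0) + VQ i q = wA ^ 2 * Q := by
    intro q
    by_cases hu : q ∈ U2 α i
    · have hu' := mem_U2.1 hu
      have k1 := obj_two hg hl hdeg hu'.1 hu'.2
      have h6 := h3v q hu
      have h7 : 5 - (BB i q).card = 2 + (3 - (BB i q).card) := by omega
      rw [h7, pow_add] at k1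
      refine ⟨wA ^ (3 - (BB i q).card) * PQ i q *
        Ev wA ((∏ y ∈ BB i q, av i q y) * ∏ p ∈ N1 α i \ bd i q, GA i 0 p), fun _ => ?_⟩
      rw [k1]
      ring
    · exact ⟨0, fun h => absurd h hu⟩
  choose Q4 hQ4 using k1
  have k2 : ∀ u : α, ∃ H : AA, u ∈ U1 α i → VQ i u = wA ^ 2 * H := by
    intro u
    by_cases hu : u ∈ U1 α i
    · obtain ⟨H, hH⟩ := VQ_single hg hl hdeg hu
      refine ⟨- ZA ^ 2 * Ev wA (forced (N1 α i) (EA i 0) (bd i u)) + wA * H, fun _ => ?_⟩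
      rw [hH]
      have hq : qA = wA * ZA := rfl
      rw [hq]
      ring
    · exact ⟨0, fun h => absurd h hu⟩
  choose Q5 hQ5 using k2
  refine ⟨∑ q ∈ U1 α i, Q5 q + ∑ q ∈ U2 α i, Q4 q, ?_⟩
  have a1 : ∑ q ∈ U1 α i, VQ i q = wA ^ 2 * ∑ q ∈ U1 α i, Q5 q := by
    rw [mul_sum]
    exact sum_congr rfl hQ5
  have a2 : qA * ∑ u ∈ U2 α i, Ev wA (WT i {u} 0) + ∑ u ∈ U2 α i, VQ i u =
      wA ^ 2 * ∑ q ∈ U2 α i, Q4 q := by
    rw [mul_sum, mul_sum, ← sum_add_distrib]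
    exact sum_congr rfl hQ4
  have a3 : ∑ q ∈ D2 α i, VQ i q = ∑ q ∈ U1 α i, VQ i q + ∑ q ∈ U2 α i, VQ i q := by
    rw [D2_eq hg hl hdeg, sum_union U1_disj]
  rw [a3]
  linear_combination a1 + a2

/-- **the model modulo `w ^ 3` in all degrees**, when no object has four vertices -/
theorem exists_KNall {h : Fin (Fintype.card α) → ℕ} (hG : IsGaussianWith α h)
    (hl : HasLower α i) (hdeg : ∀ p : α, (bd i p).card ≤ 2) (h4 : U4 α i = ∅) :
    ∃ KN : AA, Low KN ∧ ∀ J, 4 ≤ J →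
      (∃ R Q : AA, KN =
        Ev wA (∏ p ∈ N1 α i, (1 + MvPolynomial.C (lam i p) * EA i 0 p)) +
        qA * ∑ y ∈ lev α i,
          Ev wA (∏ p ∈ N1 α i, (1 + MvPolynomial.C (lam1 i p) * EA i (ind {y}) p)) +
        qA ^ 2 * ∑ k ∈ KL α i 2, Ev wA (∏ p ∈ N1 α i, GA i k p) +
        wA ^ 2 * ∑ u ∈ U3 α i, (sgn i u * ZA ^ 3 + ZA ^ 4) *
          Ev wA ((∏ y ∈ BB i u, MvPolynomial.X y) * rsK i 0 u) +
        wA ^ 2 * (ZA ^ 4 * ∑ u ∈ U2 α i, ∑ y ∈ (lev α i).filter (fun y => ObY i u y),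
          Ev wA ((∏ t ∈ (BB i u).erase y, MvPolynomial.X t) * rsK i (ind {y}) u)) +
        ZA ^ (J + 1) * R + wA ^ 3 * Q) ∧
      (∃ R Q : AA, KN =
        Ev wA (∏ p ∈ N1 α i, (1 + MvPolynomial.C (lam1 i p) * EA i 0 p)) +
        qA * ∑ y ∈ lev α i, Ev wA (∏ p ∈ N1 α i, GA i (ind {y}) p) +
        ZA ^ (J + 1) * R + wA ^ 2 * Q) := by
  have hg := grad hG
  have h3v := three_of_U4 hdeg h4
  have h3v' : ∀ q : α, ds i q = 2 → (bd i q).card = 2 → (BB i q).card ≤ 3 :=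
    fun q h1 h2 => h3v q (mem_U2.2 ⟨h1, h2⟩)
  obtain ⟨KN, h1, h2⟩ := exists_KN01 hG hl hdeg
  have hVQ : ∑ q ∈ D2 α i, VN i (cfQ i q) = ∑ q ∈ D2 α i, VQ i q := by
    apply sum_congr rfl
    intro q hq
    exact VN_cfQ hg hl (mem_D2.1 hq)
  obtain ⟨Q1, f1⟩ := sum_obj3 hg hl hdeg h3v
  obtain ⟨Q3, f2⟩ := sum_objT3 hg hl hdeg h3v
  obtain ⟨QM, hQM⟩ := res_model hg hl hdeg (i := i)
  rw [f1, f2] at hQM
  refine ⟨KN, h1, fun J hJ => ⟨?_, ?_⟩⟩
  · obtain ⟨R, hR⟩ := h2 J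
    obtain ⟨Q, hQ⟩ := far2_part3J hg hl hdeg h3v' (i := i) hJ
    obtain ⟨Q', hQ'⟩ := sum_E01_split (α := α) (i := i) 3 (J + 1) (by omega)
    have hR' : KN = ∑ s ∈ range (J + 1), ∑ e ∈ E01 α i s, qA ^ s * Ev wA (WA i e) +
        ∑ s ∈ range (J + 1), ∑ ε ∈ (RG α i s).filter (fun ε => ¬ F1 i ε), VN i ε +
        ZA ^ (J + 1) * R := hR
    rw [hQ, hVQ, hQ'] at hR'
    refine ⟨R, Q + Q' + QM + Q1 + Q3, ?_⟩
    linear_combination hR' + hQM
  · obtain ⟨R, hR⟩ := h2 J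
    obtain ⟨Q, hQ⟩ := far2_part2 hg hl hdeg (i := i) hJ
    obtain ⟨Q', hQ'⟩ := sum_E01_split (α := α) (i := i) 2 (J + 1) (by omega)
    have hR' : KN = ∑ s ∈ range (J + 1), ∑ e ∈ E01 α i s, qA ^ s * Ev wA (WA i e) +
        ∑ s ∈ range (J + 1), ∑ ε ∈ (RG α i s).filter (fun ε => ¬ F1 i ε), VN i ε +
        ZA ^ (J + 1) * R := hR
    rw [hQ, hVQ, hQ'] at hR'
    obtain ⟨e0, e1, e2⟩ := sum_E01_explicit hg hl (i := i)
    rw [Finset.sum_range_succ, Finset.sum_range_one, ← mul_sum, ← mul_sum, e0, e1] at hR'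
    obtain ⟨H2, hH2⟩ := res2 hg hl hdeg (i := i) 0
    obtain ⟨Q5, k3⟩ := sum_D2_two hg hl hdeg h3v
    have k4 : ∑ y ∈ lev α i, Ev wA (WT i (∅ : Finset α) (ind {y})) =
        ∑ y ∈ lev α i, Ev wA (∏ p ∈ N1 α i, GA i (ind {y}) p) :=
      sum_congr rfl fun y _ => by rw [WT_empty]
    rw [k4] at hR'
    have hq : qA = wA * ZA := rfl
    refine ⟨R, Q + Q' + Q5 + ZA ^ 2 * H2, ?_⟩
    have h12 : qA ^ 2 = wA ^ 2 * ZA ^ 2 := by rw [hq, mul_pow]
    linear_combination hR' + hH2 + k3 + H2 * h12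

end Pool.Gauss
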