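import Pool.Agent.Work.MP_065141_co.K.DeepG

/-!
# The energy functions of excess at most two with a far energy at least two

The complete list, without a bound on the energy: `cfQ q`, and over an element `q` at distance two
with two nearer neighbours and four vertices: `cfX q t` (one unit more at `t`), and two disjoint
`cfQ`.
-/

set_option autoImplicit false
set_option linter.unusedSectionVars false
set_option linter.unusedVariables false
open scoped Classical
open Finset Polynomial

namespace Pool.Gauss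

variable {α : Type} [Fintype α] [PartialOrder α] {i : ℕ}

/-- one unit more at `t`; if `t` is at distance two, its new nearer neighbours are excited -/
noncomputable def cfX (i : ℕ) (q t : α) : α → ℕ :=
  cfQ i q + ind (insert t (if ds i t = 2 then bd i t \ bd i q else ∅))

/-- a second element at distance two: all neighbours are doubles without common vertices -/
def RX4 (i : ℕ) (q r : α) : Prop :=
  ds i r = 2 ∧ r ≠ q ∧ (BA i (bd i q ∪ bd i r)).card = 2 * (bd i q ∪ bd i r).card

/-- the positions of the additional unit -/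
noncomputable def TX (i : ℕ) (q : α) : Finset α :=
  univ.filter fun t => t = q ∨ t ∈ bd i q ∨ t ∈ Gq i q ∨ (t ∈ lev α i ∧ t ∉ BB i q) ∨ RX4 i q t

/-- the pairs of disjoint elements over four vertices each -/
noncomputable def PX4 (α : Type) [Fintype α] [PartialOrder α] (i : ℕ) : Finset (Finset α) :=
  ((U4 α i).powersetCard 2).filter fun T => (BA i (T.biUnion (bd i))).card = 8

/-- two of them -/
noncomputable def cfX2 (i : ℕ) (T : Finset α) : α → ℕ := ∑ q ∈ T, cfQ i q

lemma mem_U4 {u : α} : u ∈ U4 α i ↔ ds i u = 2 ∧ (bd i u).card = 2 ∧ (BB i u).card = 4 := by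
  unfold U4
  rw [mem_filter, mem_U2]
  tauto

lemma mem_TX {q t : α} : t ∈ TX i q ↔
    t = q ∨ t ∈ bd i q ∨ t ∈ Gq i q ∨ (t ∈ lev α i ∧ t ∉ BB i q) ∨ RX4 i q t := by
  simp [TX]

lemma BA_union (A B : Finset α) : BA i (A ∪ B) = BA i A ∪ BA i B := by
  unfold BA
  rw [Finset.union_biUnion]

/-- the dominated vertices lie over the excited neighbours -/
lemma Yd_subset_BA (hg : Grad α) {ε : α → ℕ} : Yd i ε ⊆ BA i (Ax i ε) := by
  intro y hy
  rw [mem_Yd] at hy
  obtain ⟨h2, p, h3, h4⟩ := hy
  unfold BA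
  rw [mem_biUnion]
  refine ⟨p, ?_, mem_bd.2 h3⟩
  rw [mem_Ax, fr_ds hg h3, ds_eq_zero.2 h2]
  exact ⟨rfl, by omega⟩

lemma mem_cfXB {q t p : α} : p ∈ insert t (if ds i t = 2 then bd i t \ bd i q else ∅) ↔
    p = t ∨ (ds i t = 2 ∧ p ∈ bd i t ∧ p ∉ bd i q) := by
  rw [mem_insert]
  by_cases h : ds i t = 2
  · rw [if_pos h, mem_sdiff]
    tauto
  · rw [if_neg h]
    simp [h]

lemma cfX_apply (hg : Grad α) {q t : α} (hq : ds i q = 2) (p : α) : cfX i q t p =
    (if p = q then 2 else if p ∈ bd i q then 1 else 0) +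
      (if p = t ∨ (ds i t = 2 ∧ p ∈ bd i t ∧ p ∉ bd i q) then 1 else 0) := by
  unfold cfX
  rw [Pi.add_apply]
  congr 1
  · by_cases h1 : p = q
    · rw [if_pos h1, h1, cfQ_self]
    · by_cases h2 : p ∈ bd i q
      · rw [if_neg h1, if_pos h2, cfQ_bd hg h2]
      · rw [if_neg h1, if_neg h2, cfQ_other h2 h1]
  · by_cases h1 : p = t ∨ (ds i t = 2 ∧ p ∈ bd i t ∧ p ∉ bd i q)
    · rw [if_pos h1, ind_mem (mem_cfXB.2 h1)]
    · rw [if_neg h1, ind_notMem (fun h => h1 (mem_cfXB.1 h))]

/-- variant of `eq_cfQ` -/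
lemma eq_cfQ' (hg : Grad α) {ε : α → ℕ} {q : α} (hq : ds i q = 2) (hq2 : ε q = 2)
    (h0 : ∀ y, corank y = i → ε y = 0) (hb : ∀ p ∈ bd i q, ε p = 1)
    (hnb : ∀ p, ds i p = 1 → p ∉ bd i q → ε p = 0) (h2 : ∀ r, ds i r = 2 → r ≠ q → ε r = 0)
    (h3 : ∀ r, 3 ≤ ds i r → ε r = 0) : ε = cfQ i q := by
  funext p
  by_cases h1 : p = q
  · rw [h1, cfQ_self, hq2]
  · by_cases h4 : p ∈ bd i q
    · rw [cfQ_bd hg h4, hb p h4]
    · rw [cfQ_other h4 h1]
      have hd : ds i p = 0 ∨ ds i p = 1 ∨ ds i p = 2 ∨ 3 ≤ ds i p := by omega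
      rcases hd with h | h | h | h
      · exact h0 p (ds_eq_zero.1 h)
      · exact hnb p h h4
      · exact h2 p h h1
      · exact h3 p h

/-- two disjoint elements with energy two -/
lemma cls_two (hg : Grad α) {ε : α → ℕ} {q q' : α} (hqq : q ≠ q') (hq : ds i q = 2)
    (hq' : ds i q' = 2) (e1 : ε q = 2) (e1' : ε q' = 2)
    (h0 : ∀ y, corank y = i → ε y = 0) (h1f : ∀ p, ds i p = 1 → ε p ≤ 1)
    (hAx2 : Ax i ε = bd i q ∪ bd i q') (e4 : bd i q ∩ bd i q' = ∅)
    (h2 : ∀ p, ds i p = 2 → p ≠ q → p ≠ q' → ε p = 0) (h3 : ∀ p, 3 ≤ ds i p → ε p = 0) :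
    ε = cfX2 i {q, q'} := by
  funext p
  unfold cfX2
  rw [sum_pair hqq, Pi.add_apply]
  have hd : ds i p = 0 ∨ ds i p = 1 ∨ ds i p = 2 ∨ 3 ≤ ds i p := by omega
  have hbdq : ∀ t ∈ bd i q, ds i t = 1 := fun t ht => ds_of_mem_bd hg hq ht
  have hbdq' : ∀ t ∈ bd i q', ds i t = 1 := fun t ht => ds_of_mem_bd hg hq' ht
  rcases hd with h | h | h | h
  · rw [h0 p (ds_eq_zero.1 h), cfQ_lev hq hg (ds_eq_zero.1 h),
      cfQ_lev hq' hg (ds_eq_zero.1 h)]
  · have hn : p ≠ q := by rintro rfl; omega
    have hn' : p ≠ q' := by rintro rfl; omega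
    by_cases h1 : p ∈ bd i q
    · have h2 : p ∉ bd i q' := by
        intro h2
        have : p ∈ bd i q ∩ bd i q' := mem_inter.2 ⟨h1, h2⟩
        rw [e4] at this
        simp at this
      rw [cfQ_bd hg h1, cfQ_other h2 hn']
      have h3 : p ∈ Ax i ε := by rw [hAx2]; exact mem_union_left _ h1
      have h4 := (mem_Ax.1 h3).2
      have h5 := h1f p h
      omega
    · by_cases h2 : p ∈ bd i q'
      · rw [cfQ_bd hg h2, cfQ_other h1 hn]
        have h3 : p ∈ Ax i ε := by rw [hAx2]; exact mem_union_right _ h2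
        have h4 := (mem_Ax.1 h3).2
        have h5 := h1f p h
        omega
      · rw [cfQ_other h1 hn, cfQ_other h2 hn']
        by_contra h3
        have h4 : p ∈ Ax i ε := mem_Ax.2 ⟨h, by omega⟩
        rw [hAx2, mem_union] at h4
        tauto
  · have h1 : p ∉ bd i q := fun h1 => by have := hbdq p h1; omega
    have h2' : p ∉ bd i q' := fun h1 => by have := hbdq' p h1; omega
    by_cases h3 : p = q
    · rw [h3, cfQ_self, cfQ_other (h3 ▸ h2') hqq, e1]
    · by_cases h4 : p = q'
      · rw [h4, cfQ_self, cfQ_other (h4 ▸ h1) hqq.symm, e1']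
      · rw [cfQ_other h1 h3, cfQ_other h2' h4]
        exact h2 p h h3 h4
  · rw [h3 p h, cfQ_other, cfQ_other]
    · intro h1
      have := hbdq' p h1
      omega
    · rintro rfl
      omega
    · intro h1
      have := hbdq p h1
      omega
    · rintro rfl
      omega

section one

variable (hg : Grad α) (hl : HasLower α i) {ε : α → ℕ} (hε : GoodE i ε) {q0 : α}
  (hq02 : ds i q0 = 2)
  (hbdv : ∀ p ∈ bd i q0, ε p = 1) (hnbd : ∀ p, ds i p = 1 → p ∉ bd i q0 → ε p = 0)
  (h2r : ∀ p, ds i p = 2 → p ≠ q0 → ε p = 0)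

include hg hl hε hq02 hbdv hnbd h2r in
/-- one unit at distance three -/
lemma cls_v (hlev0 : ∀ y, corank y = i → ε y = 0) (h3 : ε q0 = 2)
    (hF : ∑ p ∈ univ.filter (fun p => 3 ≤ ds i p), ε p = 1) :
    ∃ v ∈ Gq i q0, ε = cfX i q0 v := by
  obtain ⟨v, hv, hv1⟩ : ∃ v, 3 ≤ ds i v ∧ 0 < ε v := by
    by_contra h4
    push Not at h4
    have : ∑ p ∈ univ.filter (fun p => 3 ≤ ds i p), ε p = 0 :=
      Finset.sum_eq_zero fun p hp => by
        have := h4 p (mem_filter.1 hp).2
        omega
    omega
  have hvF : v ∈ univ.filter (fun p => 3 ≤ ds i p) := mem_filter.2 ⟨mem_univ _, hv⟩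
  have k4 : ∀ p, 3 ≤ ds i p → p ≠ v → ε p = 0 := by
    intro p hp hpv
    have h6 : ({p, v} : Finset α) ⊆ univ.filter (fun p => 3 ≤ ds i p) := by
      intro r hr
      rw [mem_insert, mem_singleton] at hr
      rw [mem_filter]
      rcases hr with rfl | rfl
      · exact ⟨mem_univ _, hp⟩
      · exact ⟨mem_univ _, hv⟩
    have h7 := Finset.sum_le_sum_of_subset (f := ε) h6
    rw [Finset.sum_pair hpv] at h7
    omega
  have k5 : ε v = 1 := by
    have h7 := Finset.single_le_sum (f := ε) (fun _ _ => Nat.zero_le _) hvF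
    omega
  have k6 : ∀ t ∈ bd i v, t = q0 ∧ ds i v = 3 := by
    intro t ht
    have h5 := fr_ds hg (mem_bd.1 ht)
    have h6 : 0 < ε t := closure hg hl hε (mem_bd.1 ht) (fun h => by
      rw [ds_eq_zero.2 h] at h5
      omega) hv1
    have h7 : ds i t = 2 := by
      by_contra h8
      have h9 := k4 t (by omega) (by
        rintro rfl
        omega)
      omega
    refine ⟨?_, by omega⟩
    by_contra h8
    have := h2r t h7 h8
    omega
  obtain ⟨t, ht⟩ := exists_near hg hl (p := v) (fun h => by
    rw [ds_eq_zero.2 h] at hv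
    omega)
  have k7 := k6 t (mem_bd.2 ht)
  have k8 : v ∈ Gq i q0 := by
    rw [mem_Gq]
    refine ⟨k7.2, ?_⟩
    ext s
    rw [mem_singleton]
    constructor
    · exact fun h => (k6 s h).1
    · rintro rfl
      rw [← k7.1]
      exact mem_bd.2 ht
  refine ⟨v, k8, ?_⟩
  funext p
  rw [cfX_apply hg hq02]
  have hv2 : ds i v ≠ 2 := by omega
  have hvq : q0 ≠ v := by
    rintro rfl
    omega
  simp only [hv2, false_and, or_false]
  by_cases h1 : p = q0
  · rw [if_pos h1, h1, if_neg hvq, h3]
  · by_cases h2 : p ∈ bd i q0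
    · have h4 := ds_of_mem_bd hg hq02 h2
      rw [if_neg h1, if_pos h2, if_neg, hbdv p h2]
      rintro rfl
      omega
    · rw [if_neg h1, if_neg h2]
      by_cases h4 : p = v
      · rw [if_pos h4, h4, k5]
      · rw [if_neg h4]
        have hd : ds i p = 0 ∨ ds i p = 1 ∨ ds i p = 2 ∨ 3 ≤ ds i p := by omega
        rcases hd with h | h | h | h
        · exact hlev0 p (ds_eq_zero.1 h)
        · exact hnbd p h h2
        · exact h2r p h h1
        · exact k4 p h h4

include hg hq02 hbdv hnbd h2r in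
/-- one unit on level `i` -/
lemma cls_y (h3 : ε q0 = 2) (hF30 : ∀ r, 3 ≤ ds i r → ε r = 0)
    (hAx : Ax i ε = bd i q0) (h1f : ∀ p, ds i p = 1 → ε p ≤ 1)
    (hL : ∑ y ∈ lev α i, ε y = 1) (hY : 4 ≤ (Yd i ε).card) (hBB : (BB i q0).card ≤ 4) :
    4 ≤ (BB i q0).card ∧ ∃ y, (y ∈ lev α i ∧ y ∉ BB i q0) ∧ ε = cfX i q0 y := by
  obtain ⟨y, hy, hy1⟩ : ∃ y, y ∈ lev α i ∧ 0 < ε y := by
    by_contra h4
    push Not at h4
    have : ∑ y ∈ lev α i, ε y = 0 := Finset.sum_eq_zero fun p hp => by
      have := h4 p hp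
      omega
    omega
  have k4 : ∀ p ∈ lev α i, p ≠ y → ε p = 0 := by
    intro p hp hpy
    have h6 : ({p, y} : Finset α) ⊆ lev α i := by
      intro r hr
      rw [mem_insert, mem_singleton] at hr
      rcases hr with rfl | rfl
      · exact hp
      · exact hy
    have h7 := Finset.sum_le_sum_of_subset (f := ε) h6
    rw [Finset.sum_pair hpy] at h7
    omega
  have k5 : ε y = 1 := by
    have h7 := Finset.single_le_sum (f := ε) (fun _ _ => Nat.zero_le _) hy
    omega
  have k6 : Yd i ε ⊆ (BB i q0).erase y := by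
    intro z hz
    rw [mem_erase]
    refine ⟨?_, ?_⟩
    · rintro rfl
      rw [mem_Yd] at hz
      obtain ⟨h4, p, h5, h6⟩ := hz
      have h7 := fr_ds hg h5
      have h8 := h1f p (by
        rw [ds_eq_zero.2 h4] at h7
        omega)
      omega
    · have := Yd_subset_BA hg hz
      rw [hAx, BA_bd] at this
      exact this
  have k7 := card_le_card k6
  have k8 : y ∉ BB i q0 := by
    intro h4
    rw [card_erase_of_mem h4] at k7
    omega
  rw [erase_eq_of_notMem k8] at k7
  refine ⟨by omega, y, ⟨hy, k8⟩, ?_⟩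
  have hyd := ds_eq_zero.2 (mem_lev.1 hy)
  funext p
  rw [cfX_apply hg hq02]
  have hv2 : ds i y ≠ 2 := by omega
  have hvq : q0 ≠ y := by
    rintro rfl
    omega
  simp only [hv2, false_and, or_false]
  by_cases h1 : p = q0
  · rw [if_pos h1, h1, if_neg hvq, h3]
  · by_cases h2 : p ∈ bd i q0
    · have h4 := ds_of_mem_bd hg hq02 h2
      rw [if_neg h1, if_pos h2, if_neg, hbdv p h2]
      rintro rfl
      omega
    · rw [if_neg h1, if_neg h2]
      by_cases h4 : p = y
      · rw [if_pos h4, h4, k5]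
      · rw [if_neg h4]
        have hd : ds i p = 0 ∨ ds i p = 1 ∨ ds i p = 2 ∨ 3 ≤ ds i p := by omega
        rcases hd with h | h | h | h
        · exact k4 p (mem_lev.2 (ds_eq_zero.1 h)) h4
        · exact hnbd p h h2
        · exact h2r p h h1
        · exact hF30 p h

include hg hq02 hbdv hnbd h2r in
/-- energy three -/
lemma cls_three (h3 : ε q0 = 3) (hlev0 : ∀ y, corank y = i → ε y = 0)
    (hF30 : ∀ r, 3 ≤ ds i r → ε r = 0) : ε = cfX i q0 q0 := by
  funext p
  rw [cfX_apply hg hq02]
  by_cases h1 : p = q0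
  · rw [if_pos h1, if_pos (Or.inl h1), h1, h3]
  · by_cases h2 : p ∈ bd i q0
    · rw [if_neg h1, if_pos h2, if_neg (by tauto), hbdv p h2]
    · rw [if_neg h1, if_neg h2, if_neg (by tauto)]
      have hd : ds i p = 0 ∨ ds i p = 1 ∨ ds i p = 2 ∨ 3 ≤ ds i p := by omega
      rcases hd with h | h | h | h
      · exact hlev0 p (ds_eq_zero.1 h)
      · exact hnbd p h h2
      · exact h2r p h h1
      · exact hF30 p h

include hg hq02 in
/-- a second element at distance two with energy one -/
lemma cls_r (hdeg : ∀ p : α, (bd i p).card ≤ 2) (h3 : ε q0 = 2)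
    (hlev0 : ∀ y, corank y = i → ε y = 0)
    (hF30 : ∀ r, 3 ≤ ds i r → ε r = 0) (h1f : ∀ p, ds i p = 1 → ε p ≤ 1) {r : α}
    (hr2 : ds i r = 2) (hr1 : ε r = 1) (hu : ∀ p, ds i p = 2 → p ≠ q0 → p ≠ r → ε p = 0)
    (hAx : Ax i ε = bd i q0 ∪ bd i r) (hb2 : (bd i q0).card = 2)
    (hcount : (Ax i ε).card + (FoN i ε).card + 2 ≤ (Yd i ε).card) :
    4 ≤ (BB i q0).card ∧ RX4 i q0 r ∧ ε = cfX i q0 r := by
  have hrq : r ≠ q0 := by
    rintro rfl
    omega
  have hv1 : ∀ p ∈ bd i q0 ∪ bd i r, ε p = 1 := by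
    intro p hp
    rw [← hAx] at hp
    have h1 := mem_Ax.1 hp
    have h2 := h1f p h1.1
    omega
  -- the free near elements
  have hFoN : bd i r \ bd i q0 ⊆ FoN i ε := by
    intro p hp
    rw [mem_sdiff] at hp
    have h1 := ds_of_mem_bd hg hr2 hp.1
    unfold FoN
    rw [mem_filter, mem_FoB]
    have h0 : corank p ≠ i := by
      intro h
      rw [ds_eq_zero.2 h] at h1
      omega
    have h4 := hv1 p (mem_union_right _ hp.1)
    refine ⟨⟨h0, ?_, ?_⟩, h1⟩
    · rintro ⟨s, hs, hs2⟩
      have h5 := fr_ds hg hs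
      have h6 : s = q0 := by
        by_contra h7
        by_cases h8 : s = r
        · rw [h8] at hs2
          omega
        · have := hu s (by omega) h7 h8
          omega
      rw [h6] at hs
      exact hp.2 (mem_bd.2 hs)
    · rintro ⟨s, hs, hs2⟩
      have h5 := fr_ds hg hs
      have h6 := hlev0 s (ds_eq_zero.1 (by omega))
      omega
  have k3 := card_le_card hFoN
  have k4 : (bd i r \ bd i q0).card + (bd i q0).card = (Ax i ε).card := by
    rw [hAx, Finset.union_comm, ← Finset.card_sdiff_add_card]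
  have hYBA := card_le_card (Yd_subset_BA hg (ε := ε) (i := i))
  have hBAle : (BA i (Ax i ε)).card ≤ 2 * (Ax i ε).card :=
    card_BA_le (A := Ax i ε) fun p _ => hdeg p
  have k5 : (BA i (bd i q0 ∪ bd i r)).card = 2 * (bd i q0 ∪ bd i r).card := by
    rw [← hAx]
    omega
  have k6 : 4 ≤ (BB i q0).card := by
    have h1 : BA i (bd i q0 ∪ bd i r) = BB i q0 ∪ BA i (bd i r \ bd i q0) := by
      rw [← BA_bd, ← BA_union, Finset.union_sdiff_self_eq_union]
    have h2 := card_union_le (BB i q0) (BA i (bd i r \ bd i q0))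
    have h4 : (BA i (bd i r \ bd i q0)).card ≤ 2 * (bd i r \ bd i q0).card :=
      card_BA_le (A := bd i r \ bd i q0) fun p _ => hdeg p
    rw [← h1, k5, ← hAx] at h2
    omega
  refine ⟨k6, ⟨hr2, hrq, k5⟩, ?_⟩
  funext p
  rw [cfX_apply hg hq02]
  by_cases h1 : p = q0
  · rw [if_pos h1, h1, if_neg, h3]
    rintro (h | ⟨_, h, _⟩)
    · exact hrq h.symm
    · have := ds_of_mem_bd hg hr2 h
      omega
  · by_cases h2 : p ∈ bd i q0
    · have h4 := ds_of_mem_bd hg hq02 h2
      rw [if_neg h1, if_pos h2, if_neg, hv1 p (mem_union_left _ h2)]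
      rintro (rfl | ⟨_, _, h⟩)
      · omega
      · exact h h2
    · rw [if_neg h1, if_neg h2]
      by_cases h4 : p = r
      · rw [if_pos (Or.inl h4), h4, hr1]
      · by_cases h5 : p ∈ bd i r
        · rw [if_pos (Or.inr ⟨hr2, h5, h2⟩), hv1 p (mem_union_right _ h5)]
        · rw [if_neg (by tauto)]
          have hd : ds i p = 0 ∨ ds i p = 1 ∨ ds i p = 2 ∨ 3 ≤ ds i p := by omega
          rcases hd with h | h | h | h
          · exact hlev0 p (ds_eq_zero.1 h)
          · by_contra h6
            have h7 : p ∈ Ax i ε := mem_Ax.2 ⟨h, by omega⟩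
            rw [hAx, mem_union] at h7
            tauto
          · exact hu p h h1 h4
          · exact hF30 p h

include hg hq02 h2r in
/-- a near element with energy two -/
lemma cls_p (h3 : ε q0 = 2) (hlev0 : ∀ y, corank y = i → ε y = 0)
    (hF30 : ∀ r, 3 ≤ ds i r → ε r = 0) (hb2 : (bd i q0).card = 2)
    (hAx : Ax i ε = bd i q0) (hS : ∑ p ∈ Ax i ε, ε p = 3) {p0 : α} (hp0 : p0 ∈ bd i q0)
    (hp02 : 2 ≤ ε p0) : ε = cfX i q0 p0 ∧ ({p0} : Finset α) ⊆ FoN i ε := by
  obtain ⟨p1, hp1, hp10⟩ : ∃ p1, p1 ≠ p0 ∧ bd i q0 = {p0, p1} := by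
    obtain ⟨a, b, hab, hb⟩ := Finset.card_eq_two.1 hb2
    rw [hb, mem_insert, mem_singleton] at hp0
    rcases hp0 with rfl | rfl
    · exact ⟨b, hab.symm, hb⟩
    · exact ⟨a, hab, by rw [hb, Finset.pair_comm]⟩
  have k6 : ε p0 = 2 ∧ ε p1 = 1 := by
    have h1 : 0 < ε p1 := (mem_Ax.1 (by rw [hAx, hp10]; simp : p1 ∈ Ax i ε)).2
    rw [hAx, hp10, sum_pair hp1.symm] at hS
    omega
  have hpd := ds_of_mem_bd hg hq02 hp0
  constructor
  · funext p
    rw [cfX_apply hg hq02]
    have hv2 : ds i p0 ≠ 2 := by omega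
    simp only [hv2, false_and, or_false]
    by_cases h1 : p = q0
    · rw [if_pos h1, h1, if_neg, h3]
      rintro rfl
      omega
    · by_cases h2 : p ∈ bd i q0
      · rw [if_neg h1, if_pos h2]
        rw [hp10, mem_insert, mem_singleton] at h2
        rcases h2 with h2 | h2
        · rw [if_pos h2, h2, k6.1]
        · rw [if_neg (by rw [h2]; exact hp1), h2, k6.2]
      · rw [if_neg h1, if_neg h2, if_neg (by
          rintro rfl
          exact h2 hp0)]
        have hd : ds i p = 0 ∨ ds i p = 1 ∨ ds i p = 2 ∨ 3 ≤ ds i p := by omega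
        rcases hd with h | h | h | h
        · exact hlev0 p (ds_eq_zero.1 h)
        · by_contra h6
          apply h2
          rw [← hAx]
          exact mem_Ax.2 ⟨h, by omega⟩
        · exact h2r p h h1
        · exact hF30 p h
  · intro p hp
    rw [mem_singleton] at hp
    rw [hp]
    unfold FoN
    rw [mem_filter, mem_FoB]
    refine ⟨⟨?_, ?_, ?_⟩, hpd⟩
    · intro h
      rw [ds_eq_zero.2 h] at hpd
      omega
    · rintro ⟨s, hs, hs2⟩
      have h5 := fr_ds hg hs
      have h6 : s = q0 := by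
        by_contra h7
        have := h2r s (by omega) h7
        omega
      rw [h6] at hs2
      omega
    · rintro ⟨s, hs, hs2⟩
      have h5 := fr_ds hg hs
      have h6 := hlev0 s (ds_eq_zero.1 (by omega))
      omega

end one

/-- **the classification**, all energies -/
theorem far2_class4 (hg : Grad α) (hl : HasLower α i) (hdeg : ∀ p : α, (bd i p).card ≤ 2)
    {ε : α → ℕ} (hε : GoodE i ε) (hred : RedE i ε) (hfar : ∃ q, 2 ≤ ds i q ∧ 2 ≤ ε q)
    (he : ∑ p, ε p + (Fo i ε).card ≤ (Yd i ε).card + 2) :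
    (∃ q, ds i q = 2 ∧ ε = cfQ i q) ∨ (∃ q ∈ U4 α i, ∃ t ∈ TX i q, ε = cfX i q t) ∨
      ∃ T ∈ PX4 α i, ε = cfX2 i T := by
  have hB := basic_excess hg hl hdeg (ε := ε)
  have hS := sum_split (i := i) ε
  rw [card_Fo_eq] at he
  -- the elements next to level `i`
  have hA : ∑ p ∈ N1 α i, ε p = ∑ p ∈ Ax i ε, ε p := by
    symm
    apply Finset.sum_subset
    · intro p hp
      exact mem_N1.2 (mem_Ax.1 hp).1
    · intro p hp hp'
      by_contra h
      exact hp' (mem_Ax.2 ⟨mem_N1.1 hp, Nat.pos_of_ne_zero h⟩)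
  have hA1 : (Ax i ε).card ≤ ∑ p ∈ Ax i ε, ε p := by
    rw [Finset.card_eq_sum_ones]
    exact Finset.sum_le_sum fun p hp => (mem_Ax.1 hp).2
  -- the elements at distance two
  set F2 := ∑ p ∈ univ.filter (fun p => ds i p = 2), ε p with hF2
  set F3 := ∑ p ∈ univ.filter (fun p => 3 ≤ ds i p), ε p with hF3
  set M1 := univ.filter (fun p => ds i p = 2 ∧ ε p = 1) with hM1
  have hM : ∀ q ∈ M2 i ε, ds i q = 2 ∧ 2 ≤ ε q := fun q hq => (mem_filter.1 hq).2
  have hF2eq : F2 = ∑ q ∈ M2 i ε, ε q + M1.card := by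
    rw [hF2, hM1, Finset.card_eq_sum_ones]
    unfold M2
    rw [Finset.sum_filter, Finset.sum_filter, Finset.sum_filter, ← Finset.sum_add_distrib]
    apply Finset.sum_congr rfl
    intro p _
    by_cases h1 : ds i p = 2
    · rcases Nat.lt_or_ge (ε p) 2 with h2 | h2
      · have h3 : ε p = 0 ∨ ε p = 1 := by omega
        rcases h3 with h3 | h3 <;> simp [h1, h3]
      · have h3 : ε p ≠ 1 := by omega
        simp [h1, h2, h3]
    · simp [h1]
  have hDq : ∀ q ∈ M2 i ε, (Dq i ε q).card ≤ ε q := by
    intro q hq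
    have h1 : (Dq i ε q).card ≤ (bd i q).card := card_filter_le _ _
    have h2 := hdeg q
    have h3 := (hM q hq).2
    omega
  have hDsum : ∑ q ∈ M2 i ε, (Dq i ε q).card ≤ ∑ q ∈ M2 i ε, ε q := Finset.sum_le_sum hDq
  have hF3' : F3 ≤ 2 := by omega
  -- the charge of an element of `M2`
  have hfree : ∀ q ∈ M2 i ε, Dq i ε q = bd i q → q ∈ FoF i ε := by
    intro q hq hD
    unfold FoF
    rw [mem_filter, mem_FoB]
    obtain ⟨h1, h2⟩ := hM q hq
    refine ⟨⟨?_, ?_, ?_⟩, by omega⟩
    · intro h
      rw [ds_eq_zero.2 h] at h1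
      omega
    · rintro ⟨r, hr, hr2⟩
      have h3 := fr_ds hg hr
      have h4 : ε r ≤ F3 := by
        rw [hF3]
        exact Finset.single_le_sum (f := ε) (fun _ _ => Nat.zero_le _)
          (mem_filter.2 ⟨mem_univ _, by omega⟩)
      omega
    · rintro ⟨t, ht, ht2⟩
      have h3 : t ∈ Dq i ε q := by
        rw [hD]
        exact mem_bd.2 ht
      have := (mem_filter.1 h3).2
      omega
  have hcharge : ∀ q ∈ M2 i ε, (Dq i ε q).card + 1 ≤ ε q + (if q ∈ FoF i ε then 1 else 0) := by
    intro q hq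
    have h1 := hdeg q
    have h2 := (hM q hq).2
    by_cases h3 : Dq i ε q = bd i q
    · rw [if_pos (hfree q hq h3), h3]
      omega
    · have h4 : Dq i ε q ⊂ bd i q := Finset.ssubset_iff_subset_ne.2 ⟨filter_subset _ _, h3⟩
      have := card_lt_card h4
      omega
  have hFoF : ∑ q ∈ M2 i ε, (if q ∈ FoF i ε then 1 else 0) ≤ (FoF i ε).card := by
    rw [← Finset.card_filter]
    apply card_le_card
    intro q hq
    exact (mem_filter.1 hq).2
  have hcs := Finset.sum_le_sum hcharge
  rw [Finset.sum_add_distrib, Finset.sum_add_distrib, Finset.sum_const, smul_eq_mul, mul_one]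
    at hcs
  obtain ⟨q0, hq0, hq0'⟩ := hfar
  have hq02 : ds i q0 = 2 := by
    by_contra h
    have h1 : ε q0 ≤ F3 := by
      rw [hF3]
      exact Finset.single_le_sum (f := ε) (fun _ _ => Nat.zero_le _)
        (mem_filter.2 ⟨mem_univ _, by omega⟩)
    -- `q0` is not dominated from far
    have h2 : ¬ fd i ε q0 := by
      rintro ⟨r, hr, hr2⟩
      have h3 := fr_ds hg hr
      have h4 : ε r ≤ F3 := by
        rw [hF3]
        exact Finset.single_le_sum (f := ε) (fun _ _ => Nat.zero_le _)
          (mem_filter.2 ⟨mem_univ _, by omega⟩)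
      omega
    by_cases h3 : nd i ε q0
    · obtain ⟨t, ht, ht2⟩ := h3
      have h4 := fr_ds hg ht
      by_cases h5 : ds i t = 2
      · have h6 : t ∈ M2 i ε := mem_filter.2 ⟨mem_univ _, h5, by omega⟩
        have h7 : 0 < (M2 i ε).card := card_pos.2 ⟨t, h6⟩
        omega
      · -- two elements at distance at least three
        have hne : t ≠ q0 := by
          rintro rfl
          omega
        have h6 : ({t, q0} : Finset α) ⊆ univ.filter (fun p => 3 ≤ ds i p) := by
          intro r hr
          rw [mem_insert, mem_singleton] at hr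
          rw [mem_filter]
          rcases hr with rfl | rfl
          · exact ⟨mem_univ _, by omega⟩
          · exact ⟨mem_univ _, by omega⟩
        have h7 : ∑ p ∈ ({t, q0} : Finset α), ε p ≤ F3 := Finset.sum_le_sum_of_subset h6
        rw [Finset.sum_pair hne] at h7
        omega
    · have h4 : q0 ∈ FoF i ε := by
        unfold FoF
        rw [mem_filter, mem_FoB]
        refine ⟨⟨?_, h2, h3⟩, by omega⟩
        intro h5
        rw [ds_eq_zero.2 h5] at hq0
        omega
      -- a free element which is not in `M2`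
      have h5 : ∑ q ∈ M2 i ε, (if q ∈ FoF i ε then 1 else 0) + 1 ≤ (FoF i ε).card := by
        rw [← Finset.card_filter]
        have h6 : q0 ∉ (M2 i ε).filter (fun q => q ∈ FoF i ε) := by
          intro h7
          exact h (hM q0 (mem_filter.1 h7).1).1
        rw [← Finset.card_insert_of_notMem h6]
        apply card_le_card
        intro q hq
        rw [mem_insert] at hq
        rcases hq with rfl | hq
        · exact h4
        · exact (mem_filter.1 hq).2
      omega
  have hq0M : q0 ∈ M2 i ε := mem_filter.2 ⟨mem_univ _, hq02, hq0'⟩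
  have hMpos : 0 < (M2 i ε).card := card_pos.2 ⟨q0, hq0M⟩
  -- general consequences
  have hbdA : ∀ r, ds i r = 2 → 0 < ε r → bd i r ⊆ Ax i ε := by
    intro r hr hr2 t ht
    have h1 := ds_of_mem_bd hg hr ht
    rw [mem_Ax]
    exact ⟨h1, closure hg hl hε (mem_bd.1 ht) (fun h => by
      rw [ds_eq_zero.2 h] at h1
      omega) hr2⟩
  have hbdN : ∀ r : α, ds i r = 2 → (bd i r).Nonempty := by
    intro r hr
    obtain ⟨t, ht⟩ := exists_near hg hl (p := r) (fun h => by
      rw [ds_eq_zero.2 h] at hr
      omega)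
    exact ⟨t, mem_bd.2 ht⟩
  -- consequences of the equation: all near energies are one
  have hflat : ∑ p ∈ Ax i ε, ε p = (Ax i ε).card → ∀ p, ds i p = 1 → ε p ≤ 1 := by
    intro c1 p hp
    by_cases h1 : p ∈ Ax i ε
    · have h2 : ∀ r ∈ Ax i ε, 1 ≤ ε r := fun r hr => (mem_Ax.1 hr).2
      have h3 := (Finset.sum_eq_sum_iff_of_le (f := fun _ => 1) (g := ε) h2).1 (by
        rw [c1]
        simp) p h1
      omega
    · have : ¬ 0 < ε p := fun h => h1 (mem_Ax.2 ⟨hp, h⟩)
      omega
  have hDflat : ∑ p ∈ Ax i ε, ε p = (Ax i ε).card → ∀ q ∈ M2 i ε, Dq i ε q = bd i q := by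
    intro c1 q hq
    unfold Dq
    apply Finset.filter_true_of_mem
    intro p hp
    have h1 := hflat c1 p (ds_of_mem_bd hg (hM q hq).1 hp)
    have h2 := (hM q hq).2
    omega
  have hlev0 : ∑ y ∈ lev α i, ε y = 0 → ∀ y, corank y = i → ε y = 0 := fun c0 y hy =>
    Finset.sum_eq_zero_iff.1 c0 y (mem_lev.2 hy)
  have hF30 : F3 = 0 → ∀ r, 3 ≤ ds i r → ε r = 0 := fun c3 r hr =>
    Finset.sum_eq_zero_iff.1 c3 r (mem_filter.2 ⟨mem_univ _, hr⟩)
  have hM10 : M1.card = 0 → ∀ r, ds i r = 2 → 0 < ε r → r ∈ M2 i ε := by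
    intro c r hr hr0
    have h1 : r ∉ M1 := by
      rw [Finset.card_eq_zero.1 c]
      simp
    rw [hM1, mem_filter] at h1
    refine mem_filter.2 ⟨mem_univ _, hr, ?_⟩
    by_contra h2
    exact h1 ⟨mem_univ _, hr, by omega⟩
  -- the excited near elements
  have hAxeq : Ax i ε = (univ.filter fun r => ds i r = 2 ∧ 0 < ε r).biUnion (bd i) := by
    ext p
    rw [mem_biUnion]
    constructor
    · intro hp
      rw [mem_Ax] at hp
      have h1 : att i ε p := by
        by_contra h
        have := hred p hp.1 h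
        omega
      rw [att_iff hg hp.1] at h1
      obtain ⟨r, hr, hr2⟩ := h1
      have h2 := fr_ds hg hr
      exact ⟨r, mem_filter.2 ⟨mem_univ _, by omega, hr2⟩, mem_bd.2 hr⟩
    · rintro ⟨r, hr, hp⟩
      rw [mem_filter] at hr
      exact hbdA r hr.2.1 hr.2.2 hp
  have hAxeq' := hAxeq
  have hYBA := card_le_card (Yd_subset_BA hg (ε := ε) (i := i))
  have hBAle : (BA i (Ax i ε)).card ≤ 2 * (Ax i ε).card :=
    card_BA_le (A := Ax i ε) fun p _ => hdeg p
  have hM2le : (M2 i ε).card ≤ 2 := by omega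
  have hlev1 : ∑ y ∈ lev α i, ε y ≤ 2 := by omega
  by_cases hM22 : (M2 i ε).card = 2
  · -- two elements with energy two
    obtain ⟨q, q', hqq, hMq⟩ := card_eq_two.1 hM22
    have c1 : ∑ p ∈ Ax i ε, ε p = (Ax i ε).card := by omega
    have c0 : ∑ y ∈ lev α i, ε y = 0 := by omega
    have c2 : M1.card = 0 := by omega
    have c3 : F3 = 0 := by omega
    have hq : q ∈ M2 i ε := by rw [hMq]; simp
    have hq' : q' ∈ M2 i ε := by rw [hMq]; simp
    have d1 := hDflat c1 q hq
    have d1' := hDflat c1 q' hq'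
    have f1 := hfree q hq d1
    have f1' := hfree q' hq' d1'
    have g1 := hdeg q
    have g1' := hdeg q'
    have g2 := hM q hq
    have g2' := hM q' hq'
    rw [hMq, sum_pair hqq, sum_pair hqq, sum_pair hqq, if_pos f1, if_pos f1', d1, d1',
      card_pair hqq] at hcs
    rw [hMq, sum_pair hqq, if_pos f1, if_pos f1'] at hFoF
    rw [hMq, sum_pair hqq, d1, d1'] at hB
    rw [hMq, sum_pair hqq] at hF2eq
    have hex : (univ.filter fun r => ds i r = 2 ∧ 0 < ε r) = {q, q'} := by
      rw [← hMq]
      ext r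
      rw [mem_filter]
      constructor
      · rintro ⟨_, h1, h2⟩
        exact hM10 c2 r h1 h2
      · intro h
        have := hM r h
        exact ⟨mem_univ _, this.1, by omega⟩
    have hAx2 : Ax i ε = bd i q ∪ bd i q' := by
      rw [hAxeq, hex, Finset.biUnion_insert, Finset.singleton_biUnion]
    have hAxc := card_union_add_card_inter (bd i q) (bd i q')
    rw [← hAx2] at hAxc
    have e1 : ε q = 2 := by omega
    have e1' : ε q' = 2 := by omega
    have e2 : (bd i q).card = 2 := by omega
    have e2' : (bd i q').card = 2 := by omega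
    have e3 : (Ax i ε).card = 4 := by omega
    have e4 : (bd i q ∩ bd i q') = ∅ := by
      rw [← Finset.card_eq_zero]
      omega
    have e5 : (BA i (Ax i ε)).card = 8 := by omega
    have e6 : BA i (Ax i ε) = BB i q ∪ BB i q' := by
      rw [hAx2, BA_union, BA_bd, BA_bd]
    have e7 := card_union_le (BB i q) (BB i q')
    rw [← e6, e5] at e7
    have e8 := card_BB_le4 hdeg q (i := i)
    have e8' := card_BB_le4 hdeg q' (i := i)
    have hqU : q ∈ U4 α i := mem_U4.2 ⟨g2.1, e2, by omega⟩
    have hqU' : q' ∈ U4 α i := mem_U4.2 ⟨g2'.1, e2', by omega⟩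
    right; right
    refine ⟨{q, q'}, ?_, ?_⟩
    · unfold PX4
      rw [mem_filter, mem_powersetCard, Finset.biUnion_insert, Finset.singleton_biUnion,
        ← hAx2]
      refine ⟨⟨?_, card_pair hqq⟩, e5⟩
      intro r hr
      rw [mem_insert, mem_singleton] at hr
      rcases hr with rfl | rfl
      · exact hqU
      · exact hqU'
    · refine cls_two hg hqq g2.1 g2'.1 e1 e1' (hlev0 c0) (hflat c1) hAx2 e4 ?_ (hF30 c3)
      intro p hp h1 h2
      by_contra h5
      have h6 := hM10 c2 p hp (Nat.pos_of_ne_zero h5)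
      rw [hMq, mem_insert, mem_singleton] at h6
      tauto
  · -- a single element with energy at least two
    have hM21 : (M2 i ε).card = 1 := by omega
    obtain ⟨q1, hq1⟩ := Finset.card_eq_one.1 hM21
    have hq10 : q1 = q0 := by
      rw [hq1, mem_singleton] at hq0M
      exact hq0M.symm
    rw [hq10] at hq1
    rw [hq1, sum_singleton] at hF2eq hB hFoF
    rw [hq1, sum_singleton, sum_singleton, sum_singleton, card_singleton] at hcs
    have hbd2 := hdeg q0
    have hbd1 : 0 < (bd i q0).card := card_pos.2 (hbdN q0 hq02)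
    have hMu : ∀ r, ds i r = 2 → 2 ≤ ε r → r = q0 := by
      intro r h1 h2
      have : r ∈ M2 i ε := mem_filter.2 ⟨mem_univ _, h1, h2⟩
      rw [hq1, mem_singleton] at this
      exact this
    have hex : M1.card = 0 → Ax i ε = bd i q0 := by
      intro c2
      have : (univ.filter fun r => ds i r = 2 ∧ 0 < ε r) = {q0} := by
        rw [← hq1]
        ext r
        rw [mem_filter]
        constructor
        · rintro ⟨_, h1, h2⟩
          exact hM10 c2 r h1 h2
        · intro h
          have := hM r h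
          exact ⟨mem_univ _, this.1, Nat.lt_of_lt_of_le Nat.zero_lt_two this.2⟩
      rw [hAxeq, this, Finset.singleton_biUnion]
    have hBBq := card_BB_le4 hdeg q0 (i := i)
    have hpos : 0 < ε q0 := Nat.lt_of_lt_of_le Nat.zero_lt_two hq0'
    have hnbd : M1.card = 0 → ∀ p, ds i p = 1 → p ∉ bd i q0 → ε p = 0 := by
      intro c2 p hp hp2
      by_contra h1
      apply hp2
      rw [← hex c2]
      exact mem_Ax.2 ⟨hp, Nat.pos_of_ne_zero h1⟩
    have h2r : M1.card = 0 → ∀ p, ds i p = 2 → p ≠ q0 → ε p = 0 := by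
      intro c2 p hp hp2
      by_contra h1
      have h3 := hM10 c2 p hp (Nat.pos_of_ne_zero h1)
      rw [hq1, mem_singleton] at h3
      exact hp2 h3
    have hU4 : (bd i q0).card = 2 → 4 ≤ (BB i q0).card → q0 ∈ U4 α i := fun h1 h2 =>
      mem_U4.2 ⟨hq02, h1, le_antisymm hBBq h2⟩
    have hYB : M1.card = 0 → (Yd i ε).card ≤ (BB i q0).card := by
      intro c2
      rw [hex c2, BA_bd] at hYBA
      exact hYBA
    have hAxc : M1.card = 0 → (Ax i ε).card = (bd i q0).card := fun c2 => by rw [hex c2]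
    clear hred hDq hcharge hAxeq hM hM10 hBAle hYBA hMpos hM2le hM22 hDflat
    by_cases hD : Dq i ε q0 = bd i q0
    · have f0 := hfree q0 hq0M hD
      clear hfree
      rw [if_pos f0] at hcs hFoF
      rw [hD] at hB hcs
      -- the values when the near energies are one
      have hbdv : ∑ p ∈ Ax i ε, ε p = (Ax i ε).card → ∀ p ∈ bd i q0, ε p = 1 := by
        intro c1 p hp
        have h1 := (mem_Ax.1 (hbdA q0 hq02 hpos hp)).2
        have h2 := hflat c1 p (ds_of_mem_bd hg hq02 hp)
        exact le_antisymm h2 h1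
      by_cases hb : (bd i q0).card = 1
      · left
        have c0 : ∑ y ∈ lev α i, ε y = 0 := by omega
        have c1 : ∑ p ∈ Ax i ε, ε p = (Ax i ε).card := by omega
        have c2 : M1.card = 0 := by omega
        have c3 : F3 = 0 := by omega
        have c4 : ε q0 = 2 := by omega
        refine ⟨q0, hq02, eq_cfQ' hg hq02 c4 (hlev0 c0) (hbdv c1) (hnbd c2) (h2r c2) (hF30 c3)⟩
      · have hb2 : (bd i q0).card = 2 := by omega
        by_cases h3 : ε q0 = 2
        · by_cases c0 : ∑ y ∈ lev α i, ε y = 0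
          · by_cases c1 : ∑ p ∈ Ax i ε, ε p = (Ax i ε).card
            · by_cases c2 : M1.card = 0
              · by_cases c3 : F3 = 0
                · left
                  exact ⟨q0, hq02, eq_cfQ' hg hq02 h3 (hlev0 c0) (hbdv c1) (hnbd c2) (h2r c2)
                    (hF30 c3)⟩
                · -- an element at distance three
                  have k1 := hAxc c2
                  have k2 := hYB c2
                  have k3 : F3 = 1 := by omega
                  obtain ⟨v, hv, hv2⟩ := cls_v hg hl hε hq02 (hbdv c1) (hnbd c2) (h2r c2)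
                    (hlev0 c0) h3 k3
                  right; left
                  exact ⟨q0, hU4 hb2 (by omega), v, mem_TX.2 (Or.inr (Or.inr (Or.inl hv))), hv2⟩
              · -- a second element at distance two with energy one
                have k1 : M1.card = 1 := by omega
                have c3 : F3 = 0 := by omega
                obtain ⟨r, hr⟩ := Finset.card_eq_one.1 k1
                have hrM : r ∈ M1 := by rw [hr]; exact mem_singleton_self r
                have hr2 : ds i r = 2 ∧ ε r = 1 := by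
                  rw [hM1, mem_filter] at hrM
                  exact hrM.2
                have hM1u : ∀ p, ds i p = 2 → p ≠ q0 → p ≠ r → ε p = 0 := by
                  intro p hp h1 h2
                  have h4 : p ∉ M1 := by
                    rw [hr, mem_singleton]
                    exact h2
                  rw [hM1, mem_filter] at h4
                  have h5 : ¬ 2 ≤ ε p := fun h => h1 (hMu p hp h)
                  by_contra h6
                  exact h4 ⟨mem_univ _, hp, le_antisymm (Nat.lt_succ_iff.1 (not_le.1 h5))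
                    (Nat.pos_of_ne_zero h6)⟩
                have hAx : Ax i ε = bd i q0 ∪ bd i r := by
                  have h7 : (univ.filter fun r => ds i r = 2 ∧ 0 < ε r) = {q0, r} := by
                    ext s
                    rw [mem_filter, mem_insert, mem_singleton]
                    constructor
                    · rintro ⟨_, h1, h2⟩
                      by_contra h4
                      push Not at h4
                      have := hM1u s h1 h4.1 h4.2
                      rw [this] at h2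
                      exact lt_irrefl _ h2
                    · rintro (rfl | rfl)
                      · exact ⟨mem_univ _, hq02, hpos⟩
                      · exact ⟨mem_univ _, hr2.1, by rw [hr2.2]; exact Nat.zero_lt_one⟩
                  rw [hAxeq', h7, Finset.biUnion_insert, Finset.singleton_biUnion]
                have hcount : (Ax i ε).card + (FoN i ε).card + 2 ≤ (Yd i ε).card := by omega
                obtain ⟨m1, m2, m3⟩ := cls_r hg hq02 hdeg h3 (hlev0 c0) (hF30 c3) (hflat c1)
                  hr2.1 hr2.2 hM1u hAx hb2 hcount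
                right; left
                exact ⟨q0, hU4 hb2 m1, r, mem_TX.2 (Or.inr (Or.inr (Or.inr (Or.inr m2)))), m3⟩
            · -- impossible
              exfalso
              have c2 : M1.card = 0 := by omega
              have h4 : ∀ p ∈ Ax i ε, ε p ≤ 1 := by
                intro p hp
                rw [hex c2] at hp
                have h5 : p ∈ Dq i ε q0 := by rw [hD]; exact hp
                have h6 := (mem_filter.1 h5).2
                rw [h3] at h6
                exact Nat.lt_succ_iff.1 h6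
              have h5 := Finset.sum_le_sum h4
              rw [← Finset.card_eq_sum_ones] at h5
              exact c1 (le_antisymm h5 hA1)
          · -- a unit on level `i`
            have c1 : ∑ p ∈ Ax i ε, ε p = (Ax i ε).card := by omega
            have c2 : M1.card = 0 := by omega
            have c3 : F3 = 0 := by omega
            have c4 : ∑ y ∈ lev α i, ε y = 1 := by omega
            have k1 := hAxc c2
            have k2 : 4 ≤ (Yd i ε).card := by omega
            obtain ⟨m1, y, hy, m2⟩ := cls_y hg hq02 (hbdv c1) (hnbd c2) (h2r c2) h3 (hF30 c3)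
              (hex c2) (hflat c1) c4 k2 hBBq
            right; left
            exact ⟨q0, hU4 hb2 m1, y, mem_TX.2 (Or.inr (Or.inr (Or.inr (Or.inl hy)))), m2⟩
        · -- energy three
          have c0 : ∑ y ∈ lev α i, ε y = 0 := by omega
          have c1 : ∑ p ∈ Ax i ε, ε p = (Ax i ε).card := by omega
          have c2 : M1.card = 0 := by omega
          have c3 : F3 = 0 := by omega
          have k1 := hAxc c2
          have k2 := hYB c2
          have k3 : ε q0 = 3 := by omega
          have k4 : 4 ≤ (BB i q0).card := by omega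
          right; left
          exact ⟨q0, hU4 hb2 k4, q0, mem_TX.2 (Or.inl rfl),
            cls_three hg hq02 (hbdv c1) (hnbd c2) (h2r c2) k3 (hlev0 c0) (hF30 c3)⟩
    · -- a near element with energy two
      have hDlt : (Dq i ε q0).card + 1 ≤ (bd i q0).card := by
        have g2 : Dq i ε q0 ⊂ bd i q0 := Finset.ssubset_iff_subset_ne.2 ⟨filter_subset _ _, hD⟩
        exact card_lt_card g2
      obtain ⟨p0, hp0, hp02⟩ : ∃ p ∈ bd i q0, ε q0 ≤ ε p := by
        by_contra h
        push Not at h
        apply hD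
        unfold Dq
        exact Finset.filter_true_of_mem h
      have hpA := hbdA q0 hq02 hpos hp0
      have g5 : (Ax i ε).card + 1 ≤ ∑ r ∈ Ax i ε, ε r := by
        rw [← Finset.sum_erase_add _ _ hpA, ← Finset.card_erase_add_one hpA]
        have g4 : ((Ax i ε).erase p0).card ≤ ∑ r ∈ (Ax i ε).erase p0, ε r := by
          rw [Finset.card_eq_sum_ones]
          exact Finset.sum_le_sum fun r hr => (mem_Ax.1 (mem_of_mem_erase hr)).2
        have := le_trans hq0' hp02
        omega
      clear hfree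
      have hc5 : ∀ x : ℕ, x ≤ 1 → (Dq i ε q0).card + 1 ≤ ε q0 + x → x ≤ (FoF i ε).card →
          ∑ y ∈ lev α i, ε y = 0 ∧ M1.card = 0 ∧ F3 = 0 ∧
          ∑ p ∈ Ax i ε, ε p = (Ax i ε).card + 1 ∧ ε q0 = 2 ∧ (Dq i ε q0).card = 1 ∧
          (bd i q0).card = 2 ∧ (Ax i ε).card + (FoN i ε).card + 1 ≤ (Yd i ε).card := by
        intro x hx h1 h2
        omega
      obtain ⟨c0, c2, c3, c4, c5, c6, c7, c8⟩ := hc5 _ (by split_ifs <;> omega) hcs hFoF
      have k4 := hAxc c2
      obtain ⟨m1, m2⟩ := cls_p hg hq02 (h2r c2) c5 (hlev0 c0) (hF30 c3) c7 (hex c2) (by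
        rw [c4, k4, c7]) hp0 (le_trans hq0' hp02)
      have k3 := card_le_card m2
      rw [card_singleton] at k3
      have k2 := hYB c2
      have k5 : 4 ≤ (BB i q0).card := by omega
      right; left
      exact ⟨q0, hU4 c7 k5, p0, mem_TX.2 (Or.inr (Or.inl hp0)), m1⟩

end Pool.Gauss
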