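import Pool.Agent.Work.MP_065141_co.K.DeepH

/-!
# The contributions of the energy functions `cfX` and `cfX2` modulo `w ^ 3`
-/

set_option autoImplicit false
set_option linter.unusedSectionVars false
set_option linter.unusedVariables false
open scoped Classical
open Finset Polynomial

namespace Pool.Gauss

variable {α : Type} [Fintype α] [PartialOrder α] {i : ℕ}

/-! ### disjoint doubles -/

/-- all members of `A` are doubles without common vertices -/
lemma disj_of_card {A : Finset α} (hdeg : ∀ p : α, (bd i p).card ≤ 2)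
    (hA : (BA i A).card = 2 * A.card) {p : α} (hp : p ∈ A) :
    (bd i p).card = 2 ∧ Disjoint (bd i p) (BA i (A.erase p)) := by
  have h1 : BA i A = bd i p ∪ BA i (A.erase p) := by
    unfold BA
    rw [← Finset.biUnion_insert, Finset.insert_erase hp]
  have h2 : (BA i (A.erase p)).card ≤ 2 * (A.erase p).card :=
    card_BA_le (A := A.erase p) fun p _ => hdeg p
  have h3 := card_union_add_card_inter (bd i p) (BA i (A.erase p))
  have h4 := hdeg p
  have h5 := card_erase_add_one hp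
  rw [← h1, hA] at h3
  refine ⟨by omega, ?_⟩
  rw [Finset.disjoint_iff_inter_eq_empty, ← Finset.card_eq_zero]
  omega

lemma disj_pair {A : Finset α} (hdeg : ∀ p : α, (bd i p).card ≤ 2)
    (hA : (BA i A).card = 2 * A.card) {p p' : α} (hp : p ∈ A) (hp' : p' ∈ A) (hne : p ≠ p') :
    Disjoint (bd i p) (bd i p') := by
  refine (disj_of_card hdeg hA hp).2.mono_right ?_
  unfold BA
  exact Finset.subset_biUnion_of_mem (bd i) (mem_erase.2 ⟨hne.symm, hp'⟩)

lemma card_BA_sub {A B : Finset α} (hdeg : ∀ p : α, (bd i p).card ≤ 2)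
    (hA : (BA i A).card = 2 * A.card) (hB : B ⊆ A) : (BA i B).card = 2 * B.card := by
  unfold BA
  rw [Finset.card_biUnion, Finset.sum_congr rfl fun p hp => (disj_of_card hdeg hA (hB hp)).1,
    Finset.sum_const, smul_eq_mul, mul_comm]
  intro p hp p' hp' hne
  exact disj_pair hdeg hA (hB hp) (hB hp') hne

/-! ### evaluation modulo `w ^ 3` -/

lemma pow_sign (a b : ℕ) : ∃ Q : AA, (wA - 1) ^ a * iwA ^ b = (-1) ^ (a + b) + wA * Q := by
  have h1 : ∀ a : ℕ, ∃ Q : AA, (wA - 1) ^ a = (-1) ^ a + wA * Q := by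
    intro a
    induction a with
    | zero => exact ⟨0, by ring⟩
    | succ n ih =>
      obtain ⟨Q, hQ⟩ := ih
      exact ⟨(-1) ^ n + Q * (wA - 1), by rw [pow_succ, hQ]; ring⟩
  have h2 : ∀ a : ℕ, ∃ Q : AA, iwA ^ a = (-1) ^ a + wA * Q := by
    intro a
    induction a with
    | zero => exact ⟨0, by ring⟩
    | succ n ih =>
      obtain ⟨Q, hQ⟩ := ih
      refine ⟨(-1) ^ n * iwA + Q * iwA, ?_⟩
      rw [pow_succ, hQ]
      have := iwA_eq
      linear_combination ((-1 : AA) ^ n) * this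
  obtain ⟨Q1, h3⟩ := h1 a
  obtain ⟨Q2, h4⟩ := h2 b
  exact ⟨(-1) ^ a * Q2 + Q1 * ((-1) ^ b) + wA * Q1 * Q2, by rw [h3, h4, pow_add]; ring⟩

/-- the dominated elements of level `i` modulo `w` -/
lemma dmP_mod {ε : α → ℕ} (hgood : GoodE i ε) : MvPolynomial.C wA ∣ dmP i ε -
    MvPolynomial.C ((-1) ^ ((lev α i).filter (fun y => outE i ε y)).card) *
      ∏ y ∈ Yd i ε, (MvPolynomial.X y : MvPolynomial α AA) := by
  have hY : Yd i ε = (lev α i).filter (fun y => inE i ε y) ∪
      (lev α i).filter (fun y => outE i ε y) := by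
    unfold Yd
    ext y
    rw [mem_filter, mem_union, mem_filter, mem_filter]
    constructor
    · rintro ⟨h1, h2⟩
      have h3 := mem_lev.1 h1
      obtain ⟨q, hq, h4⟩ := h2
      rcases hq with ⟨_, hq⟩ | ⟨_, hq⟩
      · exact Or.inl ⟨h1, (inE_lev h3).2 ⟨q, hq, h4⟩⟩
      · exact Or.inr ⟨h1, (outE_lev h3).2 ⟨q, hq, h4⟩⟩
    · rintro (⟨h1, h2⟩ | ⟨h1, h2⟩)
      · have h3 := mem_lev.1 h1
        obtain ⟨q, hq, h4⟩ := (inE_lev h3).1 h2
        exact ⟨h1, q, Or.inl ⟨by omega, hq⟩, h4⟩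
      · have h3 := mem_lev.1 h1
        obtain ⟨q, hq, h4⟩ := (outE_lev h3).1 h2
        exact ⟨h1, q, Or.inr ⟨by omega, hq⟩, h4⟩
  have hdisj : Disjoint ((lev α i).filter (fun y => inE i ε y))
      ((lev α i).filter (fun y => outE i ε y)) := by
    rw [Finset.disjoint_left]
    intro y h1 h2
    exact hgood y ⟨(mem_filter.1 h1).2, (mem_filter.1 h2).2⟩
  have h1 : MvPolynomial.C ((-1) ^ ((lev α i).filter (fun y => outE i ε y)).card) *
      ∏ y ∈ (lev α i).filter (fun y => outE i ε y), (MvPolynomial.X y : MvPolynomial α AA) =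
      ∏ y ∈ (lev α i).filter (fun y => outE i ε y), (- MvPolynomial.X y) := by
    have h0 : ∀ y ∈ (lev α i).filter (fun y => outE i ε y),
        (- MvPolynomial.X y : MvPolynomial α AA) = MvPolynomial.C (-1) * MvPolynomial.X y := by
      intro y _
      rw [map_neg, map_one]
      ring
    rw [prod_congr rfl h0, prod_mul_distrib, prod_const, map_pow]
  have h2 : (MvPolynomial.C wA : MvPolynomial α AA) ∣
      ∏ y ∈ (lev α i).filter (fun y => outE i ε y), (MvPolynomial.C wA - MvPolynomial.X y) -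
      ∏ y ∈ (lev α i).filter (fun y => outE i ε y), (- MvPolynomial.X y) := by
    apply prod_dvd_sub
    intro y _
    exact ⟨1, by ring⟩
  rw [hY, prod_union hdisj]
  unfold dmP
  obtain ⟨Q, hQ⟩ := h2
  rw [← h1] at hQ
  refine ⟨(∏ y ∈ (lev α i).filter (fun y => inE i ε y), MvPolynomial.X y) * Q, ?_⟩
  linear_combination (∏ y ∈ (lev α i).filter (fun y => inE i ε y), MvPolynomial.X y) * hQ

/-- **excess two modulo `w ^ 3`** -/
theorem VN_two {ε : α → ℕ} (hgood : GoodE i ε) (hexc : exc i ε = 2) : ∃ H : AA,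
    VN i ε = wA ^ 2 * (ZA ^ (∑ p, ε p) * ((-1) ^ ((Fd i ε).card +
      ((Fo i ε).filter fun p => corank p < i).card +
      ((lev α i).filter (fun y => outE i ε y)).card) *
      Ev wA ((∏ y ∈ Yd i ε, MvPolynomial.X y) * ∏ p ∈ Unatt i ε, GA i ε p))) + wA ^ 3 * H := by
  have hFd : ((Fd i ε).filter fun p => i < corank p).card +
      ((Fd i ε).filter fun p => corank p < i).card = (Fd i ε).card := by
    rw [← card_union_of_disjoint]
    · congr 1
      ext p
      rw [mem_union, mem_filter, mem_filter]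
      constructor
      · rintro (h | h)
        · exact h.1
        · exact h.1
      · intro h
        have h1 : corank p ≠ i := by
          unfold Fd at h
          exact (mem_filter.1 h).2.1
        rcases lt_or_gt_of_ne h1 with h2 | h2
        · exact Or.inr ⟨h, h2⟩
        · exact Or.inl ⟨h, h2⟩
    · rw [Finset.disjoint_left]
      intro p h1 h2
      rw [mem_filter] at h1 h2
      omega
  obtain ⟨Q1, hQ1⟩ := pow_sign ((Fd i ε).filter fun p => i < corank p).card
    (((Fd i ε).filter fun p => corank p < i).card +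
        ((Fo i ε).filter fun p => corank p < i).card)
  rw [← add_assoc, hFd] at hQ1
  have h1 : (∏ p ∈ Unatt i ε, (MvPolynomial.C (nrm i p) * gP i ε p)) =
      ∏ p ∈ Unatt i ε, GA i ε p := rfl
  obtain ⟨H, hH⟩ := Ev_dvd_sub wA wA (P := dmP i ε * ∏ p ∈ Unatt i ε, GA i ε p)
    (Q := MvPolynomial.C ((-1) ^ ((lev α i).filter (fun y => outE i ε y)).card) *
      ((∏ y ∈ Yd i ε, (MvPolynomial.X y : MvPolynomial α AA)) * ∏ p ∈ Unatt i ε, GA i ε p)) (by
      have h2 : dmP i ε * ∏ p ∈ Unatt i ε, GA i ε p -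
          MvPolynomial.C ((-1) ^ ((lev α i).filter (fun y => outE i ε y)).card) *
          ((∏ y ∈ Yd i ε, MvPolynomial.X y) * ∏ p ∈ Unatt i ε, GA i ε p) =
          (dmP i ε - MvPolynomial.C ((-1) ^ ((lev α i).filter (fun y => outE i ε y)).card) *
          ∏ y ∈ Yd i ε, MvPolynomial.X y) * ∏ p ∈ Unatt i ε, GA i ε p := by ring
      rw [h2]
      exact (dmP_mod hgood).mul_right _)
  unfold VN
  rw [h1, hexc, hQ1, hH, Ev_C_mul]
  set V := Ev wA ((∏ y ∈ Yd i ε, MvPolynomial.X y) * ∏ p ∈ Unatt i ε, GA i ε p)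
  refine ⟨ZA ^ (∑ p, ε p) * ((-1) ^ ((Fd i ε).card +
      ((Fo i ε).filter fun p => corank p < i).card) * H + Q1 * ((-1) ^
      ((lev α i).filter (fun y => outE i ε y)).card * V + wA * H)), ?_⟩
  rw [pow_add (-1 : AA) ((Fd i ε).card + ((Fo i ε).filter fun p => corank p < i).card)]
  ring

/-! ### flat energy functions -/

/-- disjoint doubles, no energy on the dominated vertices, nothing far is dominated from far -/
structure FlatG (i : ℕ) (ε : α → ℕ) : Prop where
  iff : ∀ p, ds i p = 1 → (0 < ε p ↔ att i ε p)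
  far : ∀ p, 2 ≤ ds i p → ¬ fd i ε p
  lev0 : ∀ y ∈ BA i (Ax i ε), ε y = 0
  card : (BA i (Ax i ε)).card = 2 * (Ax i ε).card

section flat

variable (hg : Grad α) (hl : HasLower α i) (hdeg : ∀ p : α, (bd i p).card ≤ 2) {ε : α → ℕ}
  (hF : FlatG i ε)

include hg hF in
lemma flat_lev_bd {p y : α} (hp : ds i p = 1) (hp0 : 0 < ε p) (hy : y ∈ bd i p) : ε y = 0 := by
  apply hF.lev0
  unfold BA
  rw [mem_biUnion]
  exact ⟨p, mem_Ax.2 ⟨hp, hp0⟩, hy⟩

include hg hl hF in
lemma flat_nd_near {p : α} (hp : ds i p = 1) : nd i ε p ↔ ε p = 0 := by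
  constructor
  · rintro ⟨y, hy, h⟩
    by_contra h1
    have := flat_lev_bd hg hF hp (by omega) (mem_bd.2 hy)
    omega
  · intro h
    obtain ⟨t, ht⟩ := exists_near hg hl (p := p) (fun h => by
      rw [ds_eq_zero.2 h] at hp
      omega)
    exact ⟨t, ht, by omega⟩

include hg hF in
lemma flat_Yd : Yd i ε = BA i (Ax i ε) := by
  apply Finset.Subset.antisymm (Yd_subset_BA hg)
  intro y hy
  have h0 := hF.lev0 y hy
  unfold BA at hy
  rw [mem_biUnion] at hy
  obtain ⟨p, hp, h⟩ := hy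
  rw [mem_Ax] at hp
  rw [mem_Yd]
  exact ⟨bd_lev hg hp.1 h, p, mem_bd.1 h, by omega⟩

include hg hl hdeg hF in
lemma flat_good : GoodE i ε := by
  apply goodE_of_goodS hg hl
  constructor
  · rintro p hp ⟨h1, h2⟩
    have h3 : ds i p ≠ 0 := fun h => hp (ds_eq_zero.1 h)
    by_cases h4 : ds i p = 1
    · rw [flat_nd_near hg hl hF h4] at h2
      obtain ⟨q, hq, h5⟩ := h1
      have : 0 < ε p := by
        rw [hF.iff p h4, att_iff hg h4]
        exact ⟨q, hq, by omega⟩
      omega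
    · exact hF.far p (by omega) h1
  · rintro y hy ⟨h1, h2⟩
    rw [inE_lev hy] at h1
    rw [outE_lev hy] at h2
    obtain ⟨x, hx, h3⟩ := h1
    obtain ⟨z, hz, h4⟩ := h2
    have h5 := hg x y hx
    have h6 := hg y z hz
    have h7 : fr i y x := fr_of_below hy.ge hx
    have h8 : fr i y z := fr_of_above hy.le hz
    have h9 := fr_ds hg h7
    have h10 := fr_ds hg h8
    have h11 := ds_eq_zero.2 hy
    have hne : x ≠ z := by
      rintro rfl
      omega
    have h12 := disj_pair hdeg hF.card (mem_Ax.2 ⟨by omega, by omega⟩ : x ∈ Ax i ε)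
      (mem_Ax.2 ⟨by omega, by omega⟩ : z ∈ Ax i ε) hne
    exact (Finset.disjoint_left.1 h12) (mem_bd.2 h7) (mem_bd.2 h8)

include hg hF in
lemma flat_Unatt : Unatt i ε = N1 α i \ Ax i ε := by
  ext p
  rw [mem_Unatt, mem_sdiff, mem_N1, ← ds_one_iff, mem_Ax]
  constructor
  · rintro ⟨h1, h2⟩
    exact ⟨h1, fun h => h2 ((hF.iff p h1).1 h.2)⟩
  · rintro ⟨h1, h2⟩
    exact ⟨h1, fun h => h2 ⟨h1, (hF.iff p h1).2 h⟩⟩

include hg hF in
lemma flat_Red : Red i ε := by
  intro p hp
  rw [flat_Unatt hg hF, mem_sdiff, mem_N1, mem_Ax] at hp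
  by_contra h
  exact hp.2 ⟨hp.1, by omega⟩

include hg hdeg hF in
lemma flat_out : Even ((lev α i).filter (fun y => outE i ε y)).card := by
  have h1 : (lev α i).filter (fun y => outE i ε y) =
      BA i ((Ax i ε).filter fun p => corank p < i) := by
    ext y
    unfold BA
    rw [mem_filter, mem_biUnion]
    constructor
    · rintro ⟨h1, h2⟩
      have h3 := mem_lev.1 h1
      rw [outE_lev h3] at h2
      obtain ⟨z, hz, h4⟩ := h2
      have h6 := hg y z hz
      have h8 : fr i y z := fr_of_above h3.le hz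
      have h10 := fr_ds hg h8
      have h11 := ds_eq_zero.2 h3
      exact ⟨z, mem_filter.2 ⟨mem_Ax.2 ⟨by omega, by omega⟩, by omega⟩, mem_bd.2 h8⟩
    · rintro ⟨z, hz, h⟩
      rw [mem_filter, mem_Ax] at hz
      have h3 := bd_lev hg hz.1.1 h
      refine ⟨mem_lev.2 h3, ?_⟩
      rw [outE_lev h3]
      have h4 := flat_lev_bd hg hF hz.1.1 hz.1.2 h
      rw [bd_above hg (by have := ds_one_iff.1 hz.1.1; omega)] at h
      exact ⟨z, h, by omega⟩
  rw [h1, card_BA_sub hdeg hF.card (filter_subset _ _)]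
  exact even_two_mul _

/-- **the contribution of a flat energy function of excess two** -/
theorem VN_flat (hg : Grad α) (hl : HasLower α i) (hdeg : ∀ p : α, (bd i p).card ≤ 2)
    {ε : α → ℕ} (hF : FlatG i ε) (hexc : ∑ p, ε p + (Fo i ε).card = 2 * (Ax i ε).card + 2) :
    ∃ H : AA, VN i ε = wA ^ 2 * (ZA ^ (∑ p, ε p) * ((-1) ^ (Fd i ε).card *
      ∏ p ∈ Fo i ε, sgn i p) * Ev wA ((∏ y ∈ BA i (Ax i ε), MvPolynomial.X y) *
        ∏ p ∈ N1 α i \ Ax i ε, GA i ε p)) + wA ^ 3 * H := by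
  have hgood := flat_good hg hl hdeg hF
  have he : exc i ε = 2 := by
    unfold exc
    rw [flat_Yd hg hF, hF.card]
    omega
  obtain ⟨H, hH⟩ := VN_two hgood he
  refine ⟨H, ?_⟩
  rw [hH, flat_Yd hg hF, flat_Unatt hg hF]
  have h1 : ((-1 : AA) ^ ((Fd i ε).card +
      ((Fo i ε).filter fun p => corank p < i).card +
      ((lev α i).filter (fun y => outE i ε y)).card)) =
      (-1) ^ (Fd i ε).card * ∏ p ∈ Fo i ε, sgn i p := by
    rw [pow_add, pow_add, (flat_out hg hdeg hF).neg_one_pow, mul_one]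
    congr 1
    unfold sgn
    rw [Finset.prod_ite, prod_const, prod_const_one, mul_one]
  rw [h1]
  ring

end flat

/-- near energies at most one, a single level of larger energies -/
structure Flat (i : ℕ) (ε : α → ℕ) : Prop where
  le1 : ∀ p, ds i p = 1 → ε p ≤ 1
  iff : ∀ p, ds i p = 1 → (0 < ε p ↔ att i ε p)
  two : ∀ q, 2 ≤ ε q → ds i q = 2
  clo : ∀ p q, fr i p q → 2 ≤ ds i p → 0 < ε q → 0 < ε p
  lev0 : ∀ y ∈ BA i (Ax i ε), ε y = 0
  card : (BA i (Ax i ε)).card = 2 * (Ax i ε).card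

section flat2

variable (hg : Grad α) (hl : HasLower α i) (hdeg : ∀ p : α, (bd i p).card ≤ 2) {ε : α → ℕ}
  (hF : Flat i ε)

include hg hF in
lemma Flat.flatG : FlatG i ε := by
  refine ⟨hF.iff, ?_, hF.lev0, hF.card⟩
  rintro p hp ⟨q, hq, h⟩
  have h1 := fr_ds hg hq
  have h2 := hF.clo p q hq hp (by omega)
  have h3 := hF.two q (by omega)
  omega

include hg hF in
lemma flat_fd_near {p : α} (hp : ds i p = 1) : fd i ε p ↔ p ∈ (M2 i ε).biUnion (bd i) := by
  rw [mem_biUnion]
  constructor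
  · rintro ⟨q, hq, h⟩
    have h1 := fr_ds hg hq
    refine ⟨q, ?_, mem_bd.2 hq⟩
    unfold M2
    rw [mem_filter]
    refine ⟨mem_univ _, by omega, ?_⟩
    have h2 : 0 < ε p := by
      rw [hF.iff p hp, att_iff hg hp]
      exact ⟨q, hq, by omega⟩
    omega
  · rintro ⟨q, hq, h⟩
    unfold M2 at hq
    rw [mem_filter] at hq
    have := hF.le1 p hp
    exact ⟨q, mem_bd.1 h, by omega⟩

include hg hl hF in
lemma flat_nd_far {p : α} (hp : 2 ≤ ds i p) : nd i ε p ↔ ε p < 2 := by
  constructor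
  · rintro ⟨t, ht, h⟩
    by_contra h1
    have h2 := hF.two p (by omega)
    have h3 := fr_ds hg ht
    have h4 := hF.le1 t (by omega)
    omega
  · intro h
    obtain ⟨t, ht⟩ := exists_near hg hl (p := p) (fun h => by
      rw [ds_eq_zero.2 h] at hp
      omega)
    refine ⟨t, ht, ?_⟩
    by_cases h0 : ε p = 0
    · omega
    · have h1 := fr_ds hg ht
      rcases Nat.lt_or_ge (ds i t) 2 with h2 | h2
      · have h3 : 0 < ε t := by
          rw [hF.iff t (by omega), att_iff hg (by omega)]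
          exact ⟨p, ht, by omega⟩
        omega
      · have := hF.clo t p ht h2 (by omega)
        omega

include hg hl hF in
lemma flat_Fd : Fd i ε = (M2 i ε).biUnion (bd i) := by
  ext p
  unfold Fd
  rw [mem_filter]
  constructor
  · rintro ⟨_, h1, h2⟩
    have h3 : ds i p ≠ 0 := fun h => h1 (ds_eq_zero.1 h)
    by_cases h4 : ds i p = 1
    · exact (flat_fd_near hg hF h4).1 h2
    · exact absurd h2 ((hF.flatG hg).far p (by omega))
  · intro h
    have h1 : ds i p = 1 := by
      rw [mem_biUnion] at h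
      obtain ⟨q, hq, h2⟩ := h
      unfold M2 at hq
      rw [mem_filter] at hq
      exact ds_of_mem_bd hg hq.2.1 h2
    refine ⟨mem_univ _, ?_, (flat_fd_near hg hF h1).2 h⟩
    intro h2
    rw [ds_eq_zero.2 h2] at h1
    omega

include hg hl hF in
lemma flat_Fo : Fo i ε = M2 i ε ∪ (Ax i ε \ (M2 i ε).biUnion (bd i)) := by
  ext p
  rw [mem_FoB, mem_union, mem_sdiff, mem_Ax]
  have h0 : corank p = i ↔ ds i p = 0 := ds_eq_zero.symm
  unfold M2
  rw [mem_filter]
  rcases Nat.lt_trichotomy (ds i p) 1 with h1 | h1 | h1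
  · have h2 : ds i p = 0 := by omega
    have h3 := h0.2 h2
    constructor
    · rintro ⟨h4, _⟩
      exact absurd h3 h4
    · rintro (⟨_, h4, _⟩ | ⟨⟨h4, _⟩, _⟩) <;> omega
  · have h2 := flat_fd_near hg hF h1
    unfold M2 at h2
    rw [h2, flat_nd_near hg hl (hF.flatG hg) h1]
    constructor
    · rintro ⟨_, h4, h5⟩
      exact Or.inr ⟨⟨h1, by omega⟩, h4⟩
    · rintro (⟨_, h4, _⟩ | ⟨⟨_, h4⟩, h5⟩)
      · omega
      · exact ⟨fun h => by rw [h0] at h; omega, h5, by omega⟩
  · have h2 := (hF.flatG hg).far p (by omega)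
    have h3 := flat_nd_far hg hl hF (p := p) (by omega)
    constructor
    · rintro ⟨_, _, h5⟩
      rw [h3] at h5
      exact Or.inl ⟨mem_univ _, hF.two p (by omega), by omega⟩
    · rintro (⟨_, h4, h5⟩ | ⟨⟨h4, _⟩, _⟩)
      · exact ⟨fun h => by rw [h0] at h; omega, h2, by rw [h3]; omega⟩
      · omega

end flat2

end Pool.Gauss
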