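import Pool.Agent.Work.MP_065141_co.K.DeepH2

/-!
# The contributions of `cfX` and `cfX2`
-/

set_option autoImplicit false
set_option linter.unusedSectionVars false
set_option linter.unusedVariables false
open scoped Classical
open Finset Polynomial

namespace Pool.Gauss

variable {α : Type} [Fintype α] [PartialOrder α] {i : ℕ}

/-- the excited neighbours of `cfX` -/
noncomputable def AX (i : ℕ) (q t : α) : Finset α :=
  bd i q ∪ (if ds i t = 2 then bd i t else ∅)

lemma mem_AX {q t p : α} : p ∈ AX i q t ↔ p ∈ bd i q ∨ (ds i t = 2 ∧ p ∈ bd i t) := by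
  unfold AX
  rw [mem_union]
  by_cases h : ds i t = 2
  · rw [if_pos h]
    tauto
  · rw [if_neg h]
    simp [h]

section cfX

variable (hg : Grad α) {q t : α} (hq : q ∈ U4 α i) (ht : t ∈ TX i q)

include hq ht in
lemma AX_card : (BA i (AX i q t)).card = 2 * (AX i q t).card ∨ t ∈ bd i q := by
  rw [mem_U4] at hq
  rw [mem_TX] at ht
  have h0 : (BA i (bd i q)).card = 2 * (bd i q).card := by
    rw [BA_bd, hq.2.1, hq.2.2]
  unfold AX
  rcases ht with h | h | h | h | h
  · left
    rw [h, if_pos hq.1, union_self, h0]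
  · exact Or.inr h
  · left
    rw [mem_Gq] at h
    rw [if_neg (by omega), union_empty, h0]
  · left
    have := ds_eq_zero.2 (mem_lev.1 h.1)
    rw [if_neg (by omega), union_empty, h0]
  · left
    rw [if_pos h.1, h.2.2]

include hg hq in
lemma AX_card_bd (htb : t ∈ bd i q) : (BA i (AX i q t)).card = 2 * (AX i q t).card := by
  rw [mem_U4] at hq
  have h1 := ds_of_mem_bd hg hq.1 htb
  unfold AX
  rw [if_neg (by omega), union_empty, BA_bd, hq.2.1, hq.2.2]

include hg hq ht in
lemma AX_card' : (BA i (AX i q t)).card = 2 * (AX i q t).card := by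
  rcases AX_card hq ht with h | h
  · exact h
  · exact AX_card_bd hg hq h

include hg hq ht in
lemma TX_ds (h : ds i t = 1) : t ∈ bd i q := by
  rw [mem_U4] at hq
  rw [mem_TX] at ht
  rcases ht with h1 | h1 | h1 | h1 | h1
  · rw [h1] at h
    omega
  · exact h1
  · rw [mem_Gq] at h1
    omega
  · have := ds_eq_zero.2 (mem_lev.1 h1.1)
    omega
  · have := h1.1
    omega

include hg hq ht in
lemma cfX_near {p : α} (hp : ds i p = 1) : 0 < cfX i q t p ↔ p ∈ AX i q t := by
  have hq' := mem_U4.1 hq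
  rw [cfX_apply hg hq'.1, mem_AX, if_neg (by rintro rfl; omega : p ≠ q)]
  by_cases h1 : p ∈ bd i q
  · rw [if_pos h1]
    simp [h1]
  · rw [if_neg h1]
    by_cases h2 : ds i t = 2 ∧ p ∈ bd i t
    · rw [if_pos (Or.inr ⟨h2.1, h2.2, h1⟩)]
      simp [h2]
    · have h3 : p ≠ t := by
        rintro rfl
        exact h1 (TX_ds hg hq ht hp)
      rw [if_neg (by tauto)]
      simp [h1, h2]

include hg hq ht in
lemma Ax_cfX : Ax i (cfX i q t) = AX i q t := by
  ext p
  rw [mem_Ax]
  constructor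
  · rintro ⟨h1, h2⟩
    exact (cfX_near hg hq ht h1).1 h2
  · intro h
    have h1 : ds i p = 1 := by
      rw [mem_AX] at h
      rcases h with h | h
      · exact ds_of_mem_bd hg (mem_U4.1 hq).1 h
      · exact ds_of_mem_bd hg h.1 h.2
    exact ⟨h1, (cfX_near hg hq ht h1).2 h⟩

include hg hq ht in
lemma cfX_two {r : α} (h : 2 ≤ cfX i q t r) (hr : ds i r ≠ 1) : r = q := by
  have hq' := mem_U4.1 hq
  by_contra h1
  rw [cfX_apply hg hq'.1, if_neg h1] at h
  have h2 : r ∉ bd i q := fun h2 => hr (ds_of_mem_bd hg hq'.1 h2)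
  rw [if_neg h2] at h
  split_ifs at h <;> omega

include hg hq in
lemma cfX_self : 2 ≤ cfX i q t q := by
  rw [cfX_apply hg (mem_U4.1 hq).1, if_pos rfl]
  omega

include hg hq ht in
lemma M2_cfX : M2 i (cfX i q t) = {q} := by
  ext r
  unfold M2
  rw [mem_filter, mem_singleton]
  constructor
  · rintro ⟨_, h1, h2⟩
    exact cfX_two hg hq ht h2 (by omega)
  · rintro rfl
    exact ⟨mem_univ _, (mem_U4.1 hq).1, cfX_self hg hq⟩

/-- the number of new neighbours -/
noncomputable def mX (i : ℕ) (q t : α) : ℕ := if ds i t = 2 then (bd i t \ bd i q).card else 0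

include hg hq in
lemma sum_cfX : ∑ p, cfX i q t p = 5 + mX i q t := by
  have hq' := mem_U4.1 hq
  unfold cfX mX
  simp only [Pi.add_apply]
  rw [sum_add_distrib, sum_cfQ hq'.1 hg, sum_ind, hq'.2.1]
  by_cases h : ds i t = 2
  · rw [if_pos h, if_pos h, card_insert_of_notMem]
    · omega
    · rw [mem_sdiff]
      exact fun h1 => q_notMem_bd hg h1.1
  · rw [if_neg h, if_neg h, card_insert_of_notMem (Finset.notMem_empty _), card_empty]

include hg hq in
lemma AX_sdiff : (AX i q t \ bd i q).card = mX i q t ∧ (AX i q t).card = 2 + mX i q t := by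
  have hq' := mem_U4.1 hq
  have h1 : AX i q t \ bd i q = if ds i t = 2 then bd i t \ bd i q else ∅ := by
    unfold AX
    split_ifs
    · rw [union_sdiff_left]
    · simp
  have h2 : (AX i q t \ bd i q).card = mX i q t := by
    rw [h1]
    unfold mX
    split_ifs <;> rfl
  refine ⟨h2, ?_⟩
  have h3 : bd i q ⊆ AX i q t := subset_union_left
  have h4 := card_sdiff_add_card_eq_card h3
  omega

include hg hq ht in
/-- the excited elements at distance two -/
lemma cfX_exc {r : α} (hr : ds i r = 2) : 0 < cfX i q t r ↔ r = q ∨ r = t := by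
  have hq' := mem_U4.1 hq
  have h2 : r ∉ bd i q := fun h2 => by have := ds_of_mem_bd hg hq'.1 h2; omega
  have h3 : ds i t = 2 → r ∉ bd i t := fun h h2 => by have := ds_of_mem_bd hg h h2; omega
  rw [cfX_apply hg hq'.1]
  by_cases h1 : r = q
  · rw [if_pos h1]
    simp [h1]
  · rw [if_neg h1, if_neg h2]
    by_cases h4 : r = t
    · rw [if_pos (Or.inl h4)]
      simp [h4]
    · rw [if_neg (by tauto)]
      simp [h1, h4]

include hg hq ht in
lemma cfX_att {p : α} (hp : ds i p = 1) : att i (cfX i q t) p ↔ p ∈ AX i q t := by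
  rw [att_iff hg hp, mem_AX]
  have hq' := mem_U4.1 hq
  constructor
  · rintro ⟨r, hr, h⟩
    have h1 := fr_ds hg hr
    rw [cfX_exc hg hq ht (by omega)] at h
    rcases h with rfl | rfl
    · exact Or.inl (mem_bd.2 hr)
    · exact Or.inr ⟨by omega, mem_bd.2 hr⟩
  · rintro (h | ⟨h1, h⟩)
    · exact ⟨q, mem_bd.1 h, (cfX_exc hg hq ht hq'.1).2 (Or.inl rfl)⟩
    · exact ⟨t, mem_bd.1 h, (cfX_exc hg hq ht h1).2 (Or.inr rfl)⟩

include hg hq ht in
lemma cfX_lev {y : α} (hy : corank y = i) : cfX i q t y = if y = t then 1 else 0 := by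
  have hq' := mem_U4.1 hq
  have h0 := ds_eq_zero.2 hy
  have h2 : y ∉ bd i q := fun h2 => by have := ds_of_mem_bd hg hq'.1 h2; omega
  have h3 : ds i t = 2 → y ∉ bd i t := fun h h2 => by have := ds_of_mem_bd hg h h2; omega
  rw [cfX_apply hg hq'.1, if_neg (by rintro rfl; omega : y ≠ q), if_neg h2, zero_add]
  by_cases h4 : y = t
  · rw [if_pos (Or.inl h4), if_pos h4]
  · rw [if_neg (by tauto), if_neg h4]

include hg hq ht in
lemma cfX_lev0 {y : α} (hy : y ∈ BA i (AX i q t)) : cfX i q t y = 0 := by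
  have hq' := mem_U4.1 hq
  have hylev : corank y = i := by
    unfold BA at hy
    rw [mem_biUnion] at hy
    obtain ⟨p, hp, h⟩ := hy
    apply bd_lev hg _ h
    rw [mem_AX] at hp
    rcases hp with hp | hp
    · exact ds_of_mem_bd hg hq'.1 hp
    · exact ds_of_mem_bd hg hp.1 hp.2
  rw [cfX_lev hg hq ht hylev, if_neg]
  rintro rfl
  have h0 := ds_eq_zero.2 hylev
  rw [mem_TX] at ht
  rcases ht with h | h | h | h | h
  · rw [h] at h0
    omega
  · have := ds_of_mem_bd hg hq'.1 h
    omega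
  · rw [mem_Gq] at h
    omega
  · apply h.2
    unfold AX at hy
    rw [if_neg (by omega), union_empty, BA_bd] at hy
    exact hy
  · have := h.1
    omega

include hg hq ht in
lemma cfX_clo {p r : α} (hpr : fr i p r) (hp : 2 ≤ ds i p) (hr : 0 < cfX i q t r) :
    p = q ∧ r = t := by
  have hq' := mem_U4.1 hq
  have h1 := fr_ds hg hpr
  have h2 : r ∉ bd i q := fun h2 => by have := ds_of_mem_bd hg hq'.1 h2; omega
  have h3 : r ≠ q := by
    rintro rfl
    omega
  rw [cfX_apply hg hq'.1, if_neg h3, if_neg h2, zero_add] at hr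
  have h4 : r = t := by
    by_contra h5
    rw [if_neg] at hr
    · omega
    · rintro (h | ⟨h, h6, _⟩)
      · exact h5 h
      · have := ds_of_mem_bd hg h h6
        omega
  refine ⟨?_, h4⟩
  rw [h4] at hpr h1
  rw [mem_TX] at ht
  rcases ht with h | h | h | h | h
  · rw [h] at h1
    omega
  · have := ds_of_mem_bd hg hq'.1 h
    omega
  · rw [mem_Gq] at h
    have h5 := mem_bd.2 hpr
    rw [h.2, mem_singleton] at h5
    exact h5
  · have := ds_eq_zero.2 (mem_lev.1 h.1)
    omega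
  · have := h.1
    omega

include hg hq ht in
lemma cfX_le_two (htq : t ≠ q) : cfX i q t q = 2 := by
  have hq' := mem_U4.1 hq
  rw [cfX_apply hg hq'.1, if_pos rfl, if_neg]
  rintro (h | ⟨h, h6, _⟩)
  · exact htq h.symm
  · have := ds_of_mem_bd hg h h6
    omega

include hg hq ht in
lemma flatG_cfX : FlatG i (cfX i q t) := by
  have hq' := mem_U4.1 hq
  refine ⟨?_, ?_, ?_, ?_⟩
  · intro p hp
    rw [cfX_near hg hq ht hp, cfX_att hg hq ht hp]
  · rintro p hp ⟨r, hr, h⟩
    obtain ⟨h1, h2⟩ := cfX_clo hg hq ht hr hp (by omega)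
    have h3 := fr_ds hg hr
    have h4 := cfX_self hg hq (t := t)
    rw [h1] at h
    have h5 := cfX_two hg hq ht (r := r) (by omega) (by omega)
    rw [h5] at h3
    omega
  · intro y hy
    rw [Ax_cfX hg hq ht] at hy
    exact cfX_lev0 hg hq ht hy
  · rw [Ax_cfX hg hq ht]
    exact AX_card' hg hq ht

include hg hq ht in
lemma flat_cfX (htb : t ∉ bd i q) : Flat i (cfX i q t) := by
  have hq' := mem_U4.1 hq
  have hG := flatG_cfX hg hq ht
  refine ⟨?_, hG.iff, ?_, ?_, hG.lev0, hG.card⟩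
  · intro p hp
    have h3 : p ≠ t := by
      rintro rfl
      exact htb (TX_ds hg hq ht hp)
    rw [cfX_apply hg hq'.1, if_neg (by rintro rfl; omega : p ≠ q)]
    by_cases h1 : p ∈ bd i q
    · rw [if_pos h1, if_neg (by tauto)]
    · rw [if_neg h1]
      split_ifs <;> omega
  · intro r hr
    by_cases h1 : ds i r = 1
    · exfalso
      have h3 : r ≠ t := by
        rintro rfl
        exact htb (TX_ds hg hq ht h1)
      rw [cfX_apply hg hq'.1, if_neg (by rintro rfl; omega : r ≠ q)] at hr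
      by_cases h1 : r ∈ bd i q
      · rw [if_pos h1, if_neg (by tauto)] at hr
        omega
      · rw [if_neg h1] at hr
        split_ifs at hr <;> omega
    · rw [cfX_two hg hq ht hr h1]
      exact hq'.1
  · intro p r hpr hp hr
    obtain ⟨h1, _⟩ := cfX_clo hg hq ht hpr hp hr
    rw [h1]
    have := cfX_self hg hq (t := t)
    omega

include hg hq ht in
/-- the factors around `cfX` -/
lemma prod_GA_cfX : ∏ p ∈ N1 α i \ AX i q t, GA i (cfX i q t) p =
    ∏ p ∈ N1 α i \ AX i q t, GA i (if t ∈ lev α i then ind {t} else 0) p := by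
  apply prod_congr rfl
  intro p hp
  rw [mem_sdiff, mem_N1] at hp
  apply GA_congr hg hp.1
  intro y hy
  rw [cfX_lev hg hq ht hy]
  by_cases h1 : y = t
  · have h2 : t ∈ lev α i := mem_lev.2 (h1 ▸ hy)
    rw [if_pos h1, if_pos h2, h1, ind_mem (mem_singleton_self t)]
  · rw [if_neg h1]
    split_ifs
    · rw [ind_notMem]
      rw [mem_singleton]
      exact h1
    · rfl

end cfX

/-- **the contribution of `cfX q t`**, `t` not next to level `i` -/
theorem VN_cfX (hg : Grad α) (hl : HasLower α i) (hdeg : ∀ p : α, (bd i p).card ≤ 2) {q t : α}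
    (hq : q ∈ U4 α i) (ht : t ∈ TX i q) (htb : t ∉ bd i q) : ∃ H : AA,
    VN i (cfX i q t) = wA ^ 2 * (ZA ^ (5 + mX i q t) * (sgn i q * sgn i t ^ mX i q t) *
      Ev wA ((∏ y ∈ BA i (AX i q t), MvPolynomial.X y) * ∏ p ∈ N1 α i \ AX i q t,
        GA i (if t ∈ lev α i then ind {t} else 0) p)) + wA ^ 3 * H := by
  have hq' := mem_U4.1 hq
  have hF := flat_cfX hg hq ht htb
  have hG := flatG_cfX hg hq ht
  have h1 := flat_Fd hg hl hF
  have h2 := flat_Fo hg hl hF
  rw [M2_cfX hg hq ht, Finset.singleton_biUnion] at h1 h2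
  rw [Ax_cfX hg hq ht] at h2
  obtain ⟨h3, h4⟩ := AX_sdiff hg hq (t := t)
  have hdisj : Disjoint ({q} : Finset α) (AX i q t \ bd i q) := by
    rw [Finset.disjoint_singleton_left, mem_sdiff, mem_AX]
    rintro ⟨h5 | h5, h6⟩
    · exact h6 h5
    · have := ds_of_mem_bd hg h5.1 h5.2
      omega
  obtain ⟨H, hH⟩ := VN_flat hg hl hdeg hG (by
    rw [h2, card_union_of_disjoint hdisj, card_singleton, Ax_cfX hg hq ht, h3, h4,
      sum_cfX hg hq]
    omega)
  refine ⟨H, ?_⟩
  have h5 : ∏ p ∈ AX i q t \ bd i q, sgn i p = sgn i t ^ mX i q t := by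
    rw [← h3, ← Finset.prod_const]
    apply prod_congr rfl
    intro p hp
    rw [mem_sdiff, mem_AX] at hp
    obtain ⟨h6 | h6, h7⟩ := hp
    · exact absurd h6 h7
    · have h8 := side_bd hg h6.1 h6.2
      unfold sgn
      by_cases h9 : corank p < i
      · rw [if_pos h9, if_pos (h8.1 h9)]
      · rw [if_neg h9, if_neg fun h => h9 (h8.2 h)]
  rw [hH, h1, h2, prod_union hdisj, prod_singleton, h5, Ax_cfX hg hq ht, sum_cfX hg hq,
    prod_GA_cfX hg hq ht, hq'.2.1]
  ring

/-- **the contribution of `cfX q t`**, `t` a nearer neighbour -/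
theorem VN_cfXp (hg : Grad α) (hl : HasLower α i) (hdeg : ∀ p : α, (bd i p).card ≤ 2) {q t : α}
    (hq : q ∈ U4 α i) (htb : t ∈ bd i q) : ∃ H : AA,
    VN i (cfX i q t) = wA ^ 2 * (ZA ^ 5 * (- sgn i q) *
      Ev wA ((∏ y ∈ BB i q, MvPolynomial.X y) * rsK i 0 q)) + wA ^ 3 * H := by
  have hq' := mem_U4.1 hq
  have ht : t ∈ TX i q := mem_TX.2 (Or.inr (Or.inl htb))
  have htd := ds_of_mem_bd hg hq'.1 htb
  have hG := flatG_cfX hg hq ht
  have htq : t ≠ q := by
    rintro rfl
    omega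
  have hA : AX i q t = bd i q := by
    unfold AX
    rw [if_neg (by omega), union_empty]
  obtain ⟨p1, hp1, hp10⟩ : ∃ p1, p1 ≠ t ∧ bd i q = {t, p1} := by
    obtain ⟨a, b, hab, hb⟩ := Finset.card_eq_two.1 hq'.2.1
    have htb' := htb
    rw [hb, mem_insert, mem_singleton] at htb'
    rcases htb' with rfl | rfl
    · exact ⟨b, hab.symm, hb⟩
    · exact ⟨a, hab, by rw [hb, Finset.pair_comm]⟩
  have hp1b : p1 ∈ bd i q := by rw [hp10]; simp
  have hp1d := ds_of_mem_bd hg hq'.1 hp1b
  have v1 : cfX i q t t = 2 := by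
    rw [cfX_apply hg hq'.1, if_neg htq, if_pos htb, if_pos (Or.inl rfl)]
  have v2 : cfX i q t p1 = 1 := by
    rw [cfX_apply hg hq'.1, if_neg (by rintro rfl; omega : p1 ≠ q), if_pos hp1b, if_neg]
    rintro (h | ⟨h, _⟩)
    · exact hp1 h
    · omega
  have v3 := cfX_le_two hg hq ht htq
  have v4 : ∀ p, ds i p = 2 → p ≠ q → cfX i q t p = 0 := by
    intro p hp hpq
    have h1 := cfX_exc hg hq ht hp
    by_contra h
    rcases h1.1 (by omega) with h2 | h2
    · exact hpq h2
    · rw [h2] at hp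
      omega
  have v5 : ∀ p, ds i p = 1 → p ≠ t → p ≠ p1 → cfX i q t p = 0 := by
    intro p hp h1 h2
    have h3 := cfX_near hg hq ht hp
    rw [hA, hp10, mem_insert, mem_singleton] at h3
    by_contra h
    rcases h3.1 (by omega) with h4 | h4
    · exact h1 h4
    · exact h2 h4
  have v6 : ∀ p, 3 ≤ ds i p → cfX i q t p = 0 := by
    intro p hp
    rw [cfX_apply hg hq'.1, if_neg (by rintro rfl; omega : p ≠ q), if_neg, if_neg]
    · rintro (h | ⟨h, _⟩)
      · rw [h] at hp
        omega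
      · omega
    · intro h
      have := ds_of_mem_bd hg hq'.1 h
      omega
  have hFd : Fd i (cfX i q t) = {p1} := by
    ext p
    unfold Fd
    rw [mem_filter, mem_singleton]
    constructor
    · rintro ⟨_, h1, h2⟩
      have h3 : ds i p ≠ 0 := fun h => h1 (ds_eq_zero.1 h)
      by_cases h4 : ds i p = 1
      · obtain ⟨r, hr, h5⟩ := h2
        have h6 := fr_ds hg hr
        have h7 : r = q := by
          by_contra h8
          have := v4 r (by omega) h8
          omega
        rw [h7] at hr h5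
        have h8 := mem_bd.2 hr
        rw [hp10, mem_insert, mem_singleton] at h8
        rcases h8 with h8 | h8
        · rw [h8] at h5
          omega
        · exact h8
      · exact absurd h2 (hG.far p (by omega))
    · rintro rfl
      refine ⟨mem_univ _, ?_, q, mem_bd.1 hp1b, by omega⟩
      intro h
      rw [ds_eq_zero.2 h] at hp1d
      omega
  have hFo : Fo i (cfX i q t) = {t} := by
    ext p
    rw [mem_FoB, mem_singleton]
    constructor
    · rintro ⟨h1, h2, h3⟩
      have h4 : ds i p ≠ 0 := fun h => h1 (ds_eq_zero.1 h)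
      by_contra h5
      apply h3
      rcases Nat.lt_or_ge (ds i p) 2 with h6 | h6
      · rw [flat_nd_near hg hl hG (by omega)]
        by_cases h7 : p = p1
        · exfalso
          apply h2
          rw [h7]
          exact ⟨q, mem_bd.1 hp1b, by omega⟩
        · exact v5 p (by omega) h5 h7
      · obtain ⟨s, hs⟩ := exists_near hg hl h1
        by_cases h7 : p = q
        · rw [h7]
          exact ⟨t, mem_bd.1 htb, by omega⟩
        · refine ⟨s, hs, ?_⟩
          rcases Nat.lt_or_ge (ds i p) 3 with h8 | h8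
          · rw [v4 p (by omega) h7]
            omega
          · rw [v6 p h8]
            omega
    · rintro rfl
      refine ⟨?_, ?_, ?_⟩
      · intro h
        rw [ds_eq_zero.2 h] at htd
        omega
      · rintro ⟨r, hr, h5⟩
        have h6 := fr_ds hg hr
        by_cases h7 : r = q
        · rw [h7] at h5
          omega
        · have := v4 r (by omega) h7
          omega
      · rw [flat_nd_near hg hl hG htd]
        omega
  obtain ⟨h3, h4⟩ := AX_sdiff hg hq (t := t)
  have hm : mX i q t = 0 := by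
    unfold mX
    rw [if_neg (by omega)]
  obtain ⟨H, hH⟩ := VN_flat hg hl hdeg hG (by
    rw [hFo, card_singleton, Ax_cfX hg hq ht, h4, sum_cfX hg hq, hm])
  refine ⟨H, ?_⟩
  have hs : sgn i t = sgn i q := by
    have h8 := side_bd hg hq'.1 htb
    unfold sgn
    by_cases h9 : corank t < i
    · rw [if_pos h9, if_pos (h8.1 h9)]
    · rw [if_neg h9, if_neg fun h => h9 (h8.2 h)]
  have hl' : t ∉ lev α i := by
    intro h
    rw [ds_eq_zero.2 (mem_lev.1 h)] at htd
    omega
  have hK : (∏ p ∈ N1 α i \ bd i q, GA i 0 p) = rsK i 0 q := rfl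
  rw [hH, hFd, hFo, prod_singleton, card_singleton, Ax_cfX hg hq ht, sum_cfX hg hq,
    prod_GA_cfX hg hq ht, if_neg hl', hA, BA_bd, hK, hm, hs]
  ring

/-- two disjoint elements over four vertices each -/
lemma mem_PX4 {T : Finset α} (hdeg : ∀ p : α, (bd i p).card ≤ 2) (hT : T ∈ PX4 α i) :
    ∃ q q', q ≠ q' ∧ T = {q, q'} ∧ q ∈ U4 α i ∧ q' ∈ U4 α i ∧
      T.biUnion (bd i) = bd i q ∪ bd i q' ∧ bd i q ∩ bd i q' = ∅ ∧
      (T.biUnion (bd i)).card = 4 ∧ (BA i (T.biUnion (bd i))).card = 8 := by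
  unfold PX4 at hT
  rw [mem_filter, mem_powersetCard] at hT
  obtain ⟨⟨h1, h2⟩, h3⟩ := hT
  obtain ⟨q, q', hne, h4⟩ := Finset.card_eq_two.1 h2
  have hq : q ∈ U4 α i := h1 (by rw [h4]; simp)
  have hq' : q' ∈ U4 α i := h1 (by rw [h4]; simp)
  have h5 : T.biUnion (bd i) = bd i q ∪ bd i q' := by
    rw [h4, Finset.biUnion_insert, Finset.singleton_biUnion]
  have h6 : (BA i (T.biUnion (bd i))).card ≤ 2 * (T.biUnion (bd i)).card :=
    card_BA_le (A := T.biUnion (bd i)) fun p _ => hdeg p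
  have h7 := card_union_add_card_inter (bd i q) (bd i q')
  have h8 := (mem_U4.1 hq).2.1
  have h9 := (mem_U4.1 hq').2.1
  rw [← h5] at h7
  refine ⟨q, q', hne, h4, hq, hq', h5, ?_, by omega, h3⟩
  rw [← Finset.card_eq_zero]
  omega

lemma cfX2_pair {q q' : α} (hne : q ≠ q') (p : α) :
    cfX2 i {q, q'} p = cfQ i q p + cfQ i q' p := by
  unfold cfX2
  rw [sum_pair hne, Pi.add_apply]

section cfX2

variable (hg : Grad α) (hdeg : ∀ p : α, (bd i p).card ≤ 2) {T : Finset α} (hT : T ∈ PX4 α i)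

include hg hdeg hT in
lemma cfX2_near {p : α} (hp : ds i p = 1) :
    cfX2 i T p = if p ∈ T.biUnion (bd i) then 1 else 0 := by
  obtain ⟨q, q', hne, h4, hq, hq', h5, h6, h7, h8⟩ := mem_PX4 hdeg hT
  rw [mem_U4] at hq hq'
  rw [h5, h4, cfX2_pair hne]
  have n1 : p ≠ q := by rintro rfl; omega
  have n2 : p ≠ q' := by rintro rfl; omega
  by_cases h1 : p ∈ bd i q
  · have h2 : p ∉ bd i q' := by
      intro h2
      have : p ∈ bd i q ∩ bd i q' := mem_inter.2 ⟨h1, h2⟩
      rw [h6] at this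
      simp at this
    rw [cfQ_bd hg h1, cfQ_other h2 n2, if_pos (mem_union_left _ h1)]
  · by_cases h2 : p ∈ bd i q'
    · rw [cfQ_other h1 n1, cfQ_bd hg h2, if_pos (mem_union_right _ h2)]
    · rw [cfQ_other h1 n1, cfQ_other h2 n2, if_neg]
      rw [mem_union]
      tauto

include hg hdeg hT in
lemma cfX2_far {p : α} (hp : ds i p ≠ 1) : cfX2 i T p = if p ∈ T then 2 else 0 := by
  obtain ⟨q, q', hne, h4, hq, hq', h5, h6, h7, h8⟩ := mem_PX4 hdeg hT
  rw [mem_U4] at hq hq'
  rw [h4, cfX2_pair hne]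
  have h1 : p ∉ bd i q := fun h => hp (ds_of_mem_bd hg hq.1 h)
  have h2 : p ∉ bd i q' := fun h => hp (ds_of_mem_bd hg hq'.1 h)
  by_cases h3 : p = q
  · have h9 : p ∈ ({q, q'} : Finset α) := by rw [h3]; simp
    rw [if_pos h9]
    have h10 : cfQ i q' p = 0 := cfQ_other h2 (by rw [h3]; exact hne)
    rw [h10, h3, cfQ_self]
  · by_cases h9 : p = q'
    · have h10 : p ∈ ({q, q'} : Finset α) := by rw [h9]; simp
      rw [if_pos h10]
      have h11 : cfQ i q p = 0 := cfQ_other h1 h3
      rw [h11, h9, cfQ_self]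
    · rw [cfQ_other h1 h3, cfQ_other h2 h9, if_neg]
      rw [mem_insert, mem_singleton]
      tauto

include hdeg hT in
lemma PX4_ds {p : α} (hp : p ∈ T) : ds i p = 2 := by
  obtain ⟨q, q', hne, h4, hq, hq', _⟩ := mem_PX4 hdeg hT
  rw [mem_U4] at hq hq'
  rw [h4, mem_insert, mem_singleton] at hp
  rcases hp with rfl | rfl
  · exact hq.1
  · exact hq'.1

include hg hdeg hT in
lemma M2_cfX2 : M2 i (cfX2 i T) = T := by
  ext r
  unfold M2
  rw [mem_filter]
  constructor
  · rintro ⟨_, h1, h2⟩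
    rw [cfX2_far hg hdeg hT (by omega)] at h2
    by_contra h3
    rw [if_neg h3] at h2
    omega
  · intro h
    have h1 := PX4_ds hdeg hT h
    refine ⟨mem_univ _, h1, ?_⟩
    rw [cfX2_far hg hdeg hT (by omega), if_pos h]

include hg hdeg hT in
lemma Ax_cfX2 : Ax i (cfX2 i T) = T.biUnion (bd i) := by
  ext p
  rw [mem_Ax]
  constructor
  · rintro ⟨h1, h2⟩
    rw [cfX2_near hg hdeg hT h1] at h2
    by_contra h3
    rw [if_neg h3] at h2
    omega
  · intro h
    have h1 : ds i p = 1 := by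
      rw [mem_biUnion] at h
      obtain ⟨q, hq, h2⟩ := h
      exact ds_of_mem_bd hg (PX4_ds hdeg hT hq) h2
    refine ⟨h1, ?_⟩
    rw [cfX2_near hg hdeg hT h1, if_pos h]
    omega

include hg hdeg hT in
lemma sum_cfX2 : ∑ p, cfX2 i T p = 8 := by
  obtain ⟨q, q', hne, h4, hq, hq', h5, h6, h7, h8⟩ := mem_PX4 hdeg hT
  rw [mem_U4] at hq hq'
  rw [h4]
  simp only [cfX2_pair hne]
  rw [sum_add_distrib, sum_cfQ hq.1 hg, sum_cfQ hq'.1 hg]
  omega

include hg hdeg hT in
lemma flat_cfX2 : Flat i (cfX2 i T) := by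
  obtain ⟨q, q', hne, h4, hq, hq', h5, h6, h7, h8⟩ := mem_PX4 hdeg hT
  have hlev : ∀ y, corank y = i → cfX2 i T y = 0 := by
    intro y hy
    have h1 := ds_eq_zero.2 hy
    rw [cfX2_far hg hdeg hT (by omega), if_neg]
    intro h
    have := PX4_ds hdeg hT h
    omega
  refine ⟨?_, ?_, ?_, ?_, ?_, ?_⟩
  · intro p hp
    rw [cfX2_near hg hdeg hT hp]
    split_ifs <;> omega
  · intro p hp
    rw [cfX2_near hg hdeg hT hp, att_iff hg hp]
    constructor
    · intro h
      have h1 : p ∈ T.biUnion (bd i) := by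
        by_contra h3
        rw [if_neg h3] at h
        omega
      rw [mem_biUnion] at h1
      obtain ⟨r, hr, h2⟩ := h1
      refine ⟨r, mem_bd.1 h2, ?_⟩
      have h3 := PX4_ds hdeg hT hr
      rw [cfX2_far hg hdeg hT (by omega), if_pos hr]
      omega
    · rintro ⟨r, hr, h⟩
      have h1 := fr_ds hg hr
      rw [cfX2_far hg hdeg hT (by omega)] at h
      have h2 : r ∈ T := by
        by_contra h3
        rw [if_neg h3] at h
        omega
      rw [if_pos (mem_biUnion.2 ⟨r, h2, mem_bd.2 hr⟩)]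
      omega
  · intro r hr
    by_cases h1 : ds i r = 1
    · rw [cfX2_near hg hdeg hT h1] at hr
      split_ifs at hr <;> omega
    · rw [cfX2_far hg hdeg hT h1] at hr
      have h2 : r ∈ T := by
        by_contra h3
        rw [if_neg h3] at hr
        omega
      exact PX4_ds hdeg hT h2
  · intro p r hpr hp hr
    have h1 := fr_ds hg hpr
    rw [cfX2_far hg hdeg hT (by omega)] at hr
    have h2 : r ∈ T := by
      by_contra h3
      rw [if_neg h3] at hr
      omega
    have := PX4_ds hdeg hT h2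
    omega
  · intro y hy
    apply hlev
    unfold BA at hy
    rw [mem_biUnion] at hy
    obtain ⟨p, hp, h⟩ := hy
    exact bd_lev hg (mem_Ax.1 hp).1 h
  · rw [Ax_cfX2 hg hdeg hT, h8, h7]

end cfX2

/-- **the contribution of two disjoint elements** -/
theorem VN_cfX2 (hg : Grad α) (hl : HasLower α i) (hdeg : ∀ p : α, (bd i p).card ≤ 2)
    {T : Finset α} (hT : T ∈ PX4 α i) : ∃ H : AA,
    VN i (cfX2 i T) = wA ^ 2 * (ZA ^ 8 * (∏ q ∈ T, sgn i q) *
      Ev wA ((∏ y ∈ BA i (T.biUnion (bd i)), MvPolynomial.X y) *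
        ∏ p ∈ N1 α i \ T.biUnion (bd i), GA i 0 p)) + wA ^ 3 * H := by
  obtain ⟨q, q', hne, h4, hq, hq', h5, h6, h7, h8⟩ := mem_PX4 hdeg hT
  have hF := flat_cfX2 hg hdeg hT
  have hG := hF.flatG hg
  have h1 := flat_Fd hg hl hF
  have h2 := flat_Fo hg hl hF
  rw [M2_cfX2 hg hdeg hT] at h1 h2
  rw [Ax_cfX2 hg hdeg hT, sdiff_self] at h2
  have h9 : Fo i (cfX2 i T) = T := by
    rw [h2]
    simp
  obtain ⟨H, hH⟩ := VN_flat hg hl hdeg hG (by
    rw [h9, h4, card_pair hne, ← h4, Ax_cfX2 hg hdeg hT, h7, sum_cfX2 hg hdeg hT])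
  refine ⟨H, ?_⟩
  have h10 : ∏ p ∈ N1 α i \ T.biUnion (bd i), GA i (cfX2 i T) p =
      ∏ p ∈ N1 α i \ T.biUnion (bd i), GA i 0 p := by
    apply prod_congr rfl
    intro p hp
    rw [mem_sdiff, mem_N1] at hp
    apply GA_congr hg hp.1
    intro y hy
    have h1 := ds_eq_zero.2 hy
    rw [cfX2_far hg hdeg hT (by omega), if_neg]
    · rfl
    · intro h
      have := PX4_ds hdeg hT h
      omega
  rw [hH, h1, h9, Ax_cfX2 hg hdeg hT, sum_cfX2 hg hdeg hT, h7, h10]
  ring

end Pool.Gauss
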