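import Pool.Agent.Work.MP_065141_co.K.DeepH3

/-!
# The model modulo `w ^ 3` in all degrees, with objects over four vertices
-/

set_option autoImplicit false
set_option linter.unusedSectionVars false
set_option linter.unusedVariables false
open scoped Classical
open Finset Polynomial

namespace Pool.Gauss

variable {α : Type} [Fintype α] [PartialOrder α] {i : ℕ}

lemma cfX_inj (hg : Grad α) {q q' t t' : α} (hq : q ∈ U4 α i) (hq' : q' ∈ U4 α i)
    (ht : t ∈ TX i q) (ht' : t' ∈ TX i q') (h : cfX i q t = cfX i q' t') : q = q' ∧ t = t' := by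
  have h1 : ({q} : Finset α) = {q'} := by
    rw [← M2_cfX hg hq ht, ← M2_cfX hg hq' ht', h]
  have h2 : q = q' := Finset.singleton_injective h1
  refine ⟨h2, ?_⟩
  subst h2
  unfold cfX at h
  have h3 := ind_inj (add_left_cancel h)
  by_contra hne
  have h4 : t ∈ insert t' (if ds i t' = 2 then bd i t' \ bd i q else ∅) := by
    rw [← h3]
    exact mem_insert_self _ _
  rw [mem_cfXB] at h4
  rcases h4 with h4 | ⟨h4, h5, h6⟩
  · exact hne h4
  · exact h6 (TX_ds hg hq ht (ds_of_mem_bd hg h4 h5))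

lemma cfX_F1 (hg : Grad α) {q t : α} (hq : q ∈ U4 α i) : ¬ F1 i (cfX i q t) := by
  intro h
  have h1 := h q (by have := (mem_U4.1 hq).1; omega)
  have h2 := cfX_self hg hq (t := t)
  omega

lemma sum_cfX_le (hg : Grad α) (hdeg : ∀ p : α, (bd i p).card ≤ 2) {q t : α}
    (hq : q ∈ U4 α i) : 5 ≤ ∑ p, cfX i q t p ∧ ∑ p, cfX i q t p ≤ 7 := by
  rw [sum_cfX hg hq]
  have h1 : mX i q t ≤ 2 := by
    unfold mX
    split_ifs
    · exact (card_le_card sdiff_subset).trans (hdeg t)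
    · omega
  omega

/-- **the part with a far energy at least two, modulo `w ^ 3`, all energies** -/
theorem far2_part4 (hg : Grad α) (hl : HasLower α i) (hdeg : ∀ p : α, (bd i p).card ≤ 2)
    {J : ℕ} (hJ : 8 ≤ J) :
    ∃ Q : AA, ∑ s ∈ range (J + 1), ∑ ε ∈ (RG α i s).filter (fun ε => ¬ F1 i ε), VN i ε =
      ∑ q ∈ D2 α i, VN i (cfQ i q) + ∑ q ∈ U4 α i, ∑ t ∈ TX i q, VN i (cfX i q t) +
        ∑ T ∈ PX4 α i, VN i (cfX2 i T) + wA ^ 3 * Q := by
  set S := (range (J + 1)).biUnion (fun s => (RG α i s).filter (fun ε => ¬ F1 i ε)) with hS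
  have hsum : ∀ s, ∀ ε ∈ RG α i s, ∑ p, ε p = s := by
    intro s ε hε
    unfold RG at hε
    rw [mem_filter, mem_piAntidiag] at hε
    exact hε.1.1
  have h1 : ∑ s ∈ range (J + 1), ∑ ε ∈ (RG α i s).filter (fun ε => ¬ F1 i ε), VN i ε =
      ∑ ε ∈ S, VN i ε := by
    rw [hS, Finset.sum_biUnion]
    intro s _ t _ hst
    simp only [Function.onFun]
    rw [Finset.disjoint_left]
    intro ε h2 h3
    exact hst ((hsum s ε (mem_filter.1 h2).1).symm.trans (hsum t ε (mem_filter.1 h3).1))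
  have hmemS : ∀ ε, ε ∈ S ↔ ∑ p, ε p ≤ J ∧ Red i ε ∧ GoodE i ε ∧ ¬ F1 i ε := by
    intro ε
    rw [hS, mem_biUnion]
    constructor
    · rintro ⟨s, h2, h3⟩
      rw [mem_range] at h2
      rw [mem_filter] at h3
      have h4 := hsum s ε h3.1
      unfold RG at h3
      rw [mem_filter] at h3
      exact ⟨by omega, h3.1.2.1, h3.1.2.2, h3.2⟩
    · rintro ⟨h2, h3, h4, h5⟩
      refine ⟨∑ p, ε p, by rw [mem_range]; omega, ?_⟩
      rw [mem_filter]
      unfold RG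
      rw [mem_filter, mem_piAntidiag]
      exact ⟨⟨⟨rfl, fun _ _ => mem_univ _⟩, h3, h4⟩, h5⟩
  set I1 := (D2 α i).image (cfQ i) with hI1
  set I2 := ((U4 α i).sigma fun q => TX i q).image (fun x : (_ : α) × α => cfX i x.1 x.2) with hI2
  set I3 := (PX4 α i).image (cfX2 i) with hI3
  have c1 : I1 ⊆ S := by
    intro ε hε
    rw [hI1, mem_image] at hε
    obtain ⟨q, hq, rfl⟩ := hε
    rw [mem_D2] at hq
    rw [hmemS]
    refine ⟨?_, cfQ_Red hq hg, cfQ_good hq hg hl, ?_⟩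
    · rw [sum_cfQ hq hg]
      have := hdeg q
      omega
    · intro h
      have h3 := h q (by omega)
      rw [cfQ_self] at h3
      omega
  have c2 : I2 ⊆ S := by
    intro ε hε
    rw [hI2, mem_image] at hε
    obtain ⟨⟨q, t⟩, hx, rfl⟩ := hε
    rw [mem_sigma] at hx
    obtain ⟨hq, ht⟩ := hx
    simp only at hq ht ⊢
    have hG := flatG_cfX hg hq ht
    rw [hmemS]
    refine ⟨?_, flat_Red hg hG, flat_good hg hl hdeg hG, cfX_F1 hg hq⟩
    have := sum_cfX_le hg hdeg hq (t := t)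
    omega
  have c3 : I3 ⊆ S := by
    intro ε hε
    rw [hI3, mem_image] at hε
    obtain ⟨T, hT, rfl⟩ := hε
    have hG := (flat_cfX2 hg hdeg hT).flatG hg
    rw [hmemS]
    refine ⟨?_, flat_Red hg hG, flat_good hg hl hdeg hG, ?_⟩
    · rw [sum_cfX2 hg hdeg hT]
      exact hJ
    · intro h
      obtain ⟨q, q', hne, h4, hq, hq', _⟩ := mem_PX4 hdeg hT
      have hqT : q ∈ T := by rw [h4]; simp
      have h5 := PX4_ds hdeg hT hqT
      have h3 := h q (by omega)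
      rw [cfX2_far hg hdeg hT (by omega), if_pos hqT] at h3
      omega
  have s1 : ∀ ε ∈ I1, ∑ p, ε p ≤ 4 := by
    intro ε hε
    rw [hI1, mem_image] at hε
    obtain ⟨q, hq, rfl⟩ := hε
    rw [sum_cfQ (mem_D2.1 hq) hg]
    have := hdeg q
    omega
  have s2 : ∀ ε ∈ I2, 5 ≤ ∑ p, ε p ∧ ∑ p, ε p ≤ 7 := by
    intro ε hε
    rw [hI2, mem_image] at hε
    obtain ⟨⟨q, t⟩, hx, rfl⟩ := hε
    rw [mem_sigma] at hx
    exact sum_cfX_le hg hdeg hx.1
  have s3 : ∀ ε ∈ I3, ∑ p, ε p = 8 := by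
    intro ε hε
    rw [hI3, mem_image] at hε
    obtain ⟨T, hT, rfl⟩ := hε
    exact sum_cfX2 hg hdeg hT
  have d23 : Disjoint I2 I3 := by
    rw [Finset.disjoint_left]
    intro ε h2 h3
    have a := s2 ε h2
    have b := s3 ε h3
    omega
  have d1 : Disjoint I1 (I2 ∪ I3) := by
    rw [Finset.disjoint_left]
    intro ε h2 h3
    have a := s1 ε h2
    rw [mem_union] at h3
    rcases h3 with h3 | h3
    · have b := s2 ε h3
      omega
    · have b := s3 ε h3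
      omega
  have e1 : ∑ q ∈ D2 α i, VN i (cfQ i q) = ∑ ε ∈ I1, VN i ε := by
    rw [hI1, Finset.sum_image]
    intro q _ q' _ h
    exact cfQ_inj h
  have e2 : ∑ q ∈ U4 α i, ∑ t ∈ TX i q, VN i (cfX i q t) = ∑ ε ∈ I2, VN i ε := by
    rw [hI2, Finset.sum_image, Finset.sum_sigma]
    rintro ⟨q, t⟩ hx ⟨q', t'⟩ hx' h
    have hx1 := mem_sigma.1 (mem_coe.1 hx)
    have hx2 := mem_sigma.1 (mem_coe.1 hx')
    obtain ⟨a, b⟩ := cfX_inj hg hx1.1 hx2.1 hx1.2 hx2.2 h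
    simp only at a b
    rw [a, b]
  have e3 : ∑ T ∈ PX4 α i, VN i (cfX2 i T) = ∑ ε ∈ I3, VN i ε := by
    rw [hI3, Finset.sum_image]
    intro T hT T' hT' h
    rw [← M2_cfX2 hg hdeg (mem_coe.1 hT), ← M2_cfX2 hg hdeg (mem_coe.1 hT'), h]
  have hI : I1 ∪ (I2 ∪ I3) ⊆ S := union_subset c1 (union_subset c2 c3)
  rw [h1, e1, e2, e3, ← Finset.sum_sdiff hI, Finset.sum_union d1, Finset.sum_union d23]
  have h4 : wA ^ 3 ∣ ∑ ε ∈ S \ (I1 ∪ (I2 ∪ I3)), VN i ε := by
    apply Finset.dvd_sum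
    intro ε hε
    rw [mem_sdiff, hmemS] at hε
    obtain ⟨⟨g1, g2, g3, g4⟩, g5⟩ := hε
    apply VN_dvd
    by_contra h5
    apply g5
    have hfar : ∃ q, 2 ≤ ds i q ∧ 2 ≤ ε q := by
      unfold F1 at g4
      push Not at g4
      obtain ⟨q, g6, g7⟩ := g4
      exact ⟨q, g6, by omega⟩
    have hYd := Yd_le hg hdeg ε (i := i)
    unfold exc at h5
    rw [mem_union, mem_union]
    rcases far2_class4 hg hl hdeg g3 (RedE_of_Red hg g2) hfar (by omega) with
      ⟨q, g6, g7⟩ | ⟨q, g6, t, g7, g8⟩ | ⟨T, g6, g7⟩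
    · left
      rw [hI1, mem_image]
      exact ⟨q, mem_D2.2 g6, g7.symm⟩
    · right; left
      rw [hI2, mem_image]
      exact ⟨⟨q, t⟩, mem_sigma.2 ⟨g6, g7⟩, g8.symm⟩
    · right; right
      rw [hI3, mem_image]
      exact ⟨T, g6, g7.symm⟩
  obtain ⟨Q, hQ⟩ := h4
  exact ⟨Q, by rw [hQ]; ring⟩

end Pool.Gauss
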