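import Pool.Agent.Work.MP_065141_co.K.DeepH4

/-!
# Products of forced factors modulo `w`
-/

set_option autoImplicit false
set_option linter.unusedSectionVars false
set_option linter.unusedVariables false
open scoped Classical
open Finset Polynomial

namespace Pool.Gauss

variable {α : Type} [Fintype α] [PartialOrder α] {i : ℕ}

/-- a product to first order -/
lemma prod_add_w {R β : Type} [CommRing R] (w : R) (I : Finset β) (a b : β → R) :
    ∃ Q, ∏ p ∈ I, (a p + w * b p) =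
      ∏ p ∈ I, a p + w * ∑ p ∈ I, b p * ∏ r ∈ I.erase p, a r + w ^ 2 * Q := by
  induction I using Finset.induction_on with
  | empty => exact ⟨0, by simp⟩
  | insert p I hp ih =>
    obtain ⟨Q, hQ⟩ := ih
    rw [prod_insert hp, prod_insert hp, sum_insert hp, erase_insert hp, hQ]
    have h1 : ∑ r ∈ I, b r * ∏ s ∈ (insert p I).erase r, a s =
        a p * ∑ r ∈ I, b r * ∏ s ∈ I.erase r, a s := by
      rw [mul_sum]
      apply sum_congr rfl
      intro r hr
      have hne : p ≠ r := by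
        rintro rfl
        exact hp hr
      rw [erase_insert_of_ne hne, prod_insert (fun h => hp (mem_of_mem_erase h))]
      ring
    rw [h1]
    exact ⟨a p * Q + b p * ∑ r ∈ I, b r * ∏ s ∈ I.erase r, a s + w * b p * Q, by ring⟩

lemma geoA_mod : ∃ Q, geoA = 1 + wA * Q := by
  refine ⟨ZA * geoA, ?_⟩
  have h := geoA_eq
  unfold qA at h
  linear_combination h

/-- a forced factor modulo `w` -/
lemma EA_mod (hg : Grad α) (hl : HasLower α i) {p : α} (hp : ds i p = 1)
    (hdeg : (bd i p).card ≤ 2) : MvPolynomial.C wA ∣ EA i 0 p -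
      (if (bd i p).card = 2 then MvPolynomial.C (ZA * sgn i p) *
        ∏ y ∈ bd i p, (MvPolynomial.X y : MvPolynomial α AA) else 0) := by
  have h1 := GA_sub_one hg hl hp hdeg (k := 0) (fun _ _ => rfl)
  unfold EA
  rw [h1]
  by_cases h2 : (bd i p).card = 2
  · rw [if_pos h2, h2, Nat.sub_self, pow_zero, mul_one]
    obtain ⟨Q1, hQ1⟩ := nrm_mod (i := i) p
    obtain ⟨Q2, hQ2⟩ := geoA_mod
    obtain ⟨Q3, hQ3⟩ := prod_av_mod (i := i) p (bd i p)
    rw [h2] at hQ3
    have h3 : nrm i p * (ZA * geoA) = ZA * sgn i p + wA * (ZA * (Q1 + (sgn i p + wA * Q1) * Q2)) := by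
      rw [hQ1, hQ2]
      ring
    have h4 : sgn i p ^ 2 = 1 := sgn_pow_two p
    rw [h4, map_one, one_mul] at hQ3
    rw [h3, map_add, map_mul MvPolynomial.C wA]
    refine ⟨MvPolynomial.C (ZA * sgn i p) * Q3 +
      MvPolynomial.C (ZA * (Q1 + (sgn i p + wA * Q1) * Q2)) * ∏ y ∈ bd i p, av i p y, ?_⟩
    linear_combination MvPolynomial.C (ZA * sgn i p) * hQ3
  · rw [if_neg h2, sub_zero]
    have h3 : (bd i p).card ≠ 0 := by
      rw [Ne, Finset.card_eq_zero, ← Ne, ← Finset.nonempty_iff_ne_empty]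
      exact bd_neF hg hl (by omega)
    have h4 : 2 - (bd i p).card = 1 := by omega
    rw [h4, pow_one]
    exact ⟨MvPolynomial.C (nrm i p * (ZA * geoA)) * ∏ y ∈ bd i p, av i p y, by
      rw [map_mul]
      ring⟩

/-- all members of `A` are doubles without common vertices -/
def Ok (i : ℕ) (A : Finset α) : Prop := (BA i A).card = 2 * A.card

lemma BA_insert (p : α) (A : Finset α) : BA i (insert p A) = bd i p ∪ BA i A := by
  unfold BA
  rw [biUnion_insert]

lemma Ok_insert (hdeg : ∀ p : α, (bd i p).card ≤ 2) {p : α} {A : Finset α} (hp : p ∉ A) :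
    Ok i (insert p A) ↔ Ok i A ∧ (bd i p).card = 2 ∧ bd i p ∩ BA i A = ∅ := by
  constructor
  · intro h
    have h1 := disj_of_card hdeg h (mem_insert_self p A)
    rw [erase_insert hp, Finset.disjoint_iff_inter_eq_empty] at h1
    exact ⟨card_BA_sub hdeg h (subset_insert p A), h1⟩
  · rintro ⟨h1, h2, h3⟩
    unfold Ok at h1 ⊢
    have h4 := card_union_add_card_inter (bd i p) (BA i A)
    rw [h3, card_empty] at h4
    rw [BA_insert, card_insert_of_notMem hp]
    omega

/-- one more forced factor -/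
lemma Ev_EA_insert (hg : Grad α) (hl : HasLower α i) (hdeg : ∀ p : α, (bd i p).card ≤ 2)
    {A : Finset α} (hA : Ok i A) {p : α} (hp : ds i p = 1) (hpA : p ∉ A)
    (R : MvPolynomial α AA) : ∃ H : AA,
    Ev wA ((∏ y ∈ BA i A, MvPolynomial.X y) * (EA i 0 p * R)) =
      (if Ok i (insert p A) then ZA * sgn i p *
        Ev wA ((∏ y ∈ BA i (insert p A), MvPolynomial.X y) * R) else 0) + wA * H := by
  obtain ⟨H, hH⟩ := Ev_dvd_sub wA wA (P := (∏ y ∈ BA i A, MvPolynomial.X y) * (EA i 0 p * R))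
    (Q := (∏ y ∈ BA i A, MvPolynomial.X y) *
      ((if (bd i p).card = 2 then MvPolynomial.C (ZA * sgn i p) *
        ∏ y ∈ bd i p, (MvPolynomial.X y : MvPolynomial α AA) else 0) * R)) (by
      rw [← mul_sub, ← sub_mul]
      exact ((EA_mod hg hl hp (hdeg p)).mul_right _).mul_left _)
  rw [Ok_insert hdeg hpA]
  by_cases h2 : (bd i p).card = 2
  · rw [if_pos h2] at hH
    have h3 : Ev wA ((∏ y ∈ BA i A, MvPolynomial.X y) * (MvPolynomial.C (ZA * sgn i p) *
        (∏ y ∈ bd i p, MvPolynomial.X y) * R)) =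
        ZA * sgn i p * (wA ^ (bd i p ∩ BA i A).card *
          Ev wA ((∏ y ∈ bd i p ∪ BA i A, MvPolynomial.X y) * R)) := by
      have h4 : (∏ y ∈ BA i A, MvPolynomial.X y) * (MvPolynomial.C (ZA * sgn i p) *
          (∏ y ∈ bd i p, MvPolynomial.X y) * R) = MvPolynomial.C (ZA * sgn i p) *
          (((∏ y ∈ bd i p, (MvPolynomial.X y : MvPolynomial α AA)) *
            ∏ y ∈ BA i A, MvPolynomial.X y) * R) := by ring
      rw [h4, Ev_C_mul, EvEq_prod_X (bd i p) (BA i A) R, mul_assoc (MvPolynomial.C _), Ev_C_mul]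
    rw [h3] at hH
    by_cases h5 : bd i p ∩ BA i A = ∅
    · rw [if_pos ⟨hA, h2, h5⟩, BA_insert]
      rw [h5, card_empty, pow_zero, one_mul] at hH
      exact ⟨H, hH⟩
    · rw [if_neg (fun h => h5 h.2.2)]
      obtain ⟨n, hn⟩ : ∃ n, (bd i p ∩ BA i A).card = n + 1 := by
        refine ⟨(bd i p ∩ BA i A).card - 1, ?_⟩
        have := card_pos.2 (Finset.nonempty_iff_ne_empty.2 h5)
        omega
      refine ⟨H + ZA * sgn i p * (wA ^ n *
          Ev wA ((∏ y ∈ bd i p ∪ BA i A, MvPolynomial.X y) * R)), ?_⟩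
      rw [hH, hn, pow_succ]
      ring
  · rw [if_neg h2, zero_mul, mul_zero, map_zero] at hH
    rw [if_neg (fun h => h2 h.2.1)]
    exact ⟨H, hH⟩

/-- **products of forced factors modulo `w`** -/
lemma Ev_prod_EA (hg : Grad α) (hl : HasLower α i) (hdeg : ∀ p : α, (bd i p).card ≤ 2)
    {A : Finset α} (hA : ∀ p ∈ A, ds i p = 1) (R : MvPolynomial α AA) : ∃ H : AA,
    Ev wA ((∏ p ∈ A, EA i 0 p) * R) =
      (if Ok i A then ZA ^ A.card * (∏ p ∈ A, sgn i p) *
        Ev wA ((∏ y ∈ BA i A, MvPolynomial.X y) * R) else 0) + wA * H := by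
  induction A using Finset.induction_on generalizing R with
  | empty =>
    refine ⟨0, ?_⟩
    rw [if_pos]
    · simp [BA]
    · simp [Ok, BA]
  | insert p A hp ih =>
    obtain ⟨H, hH⟩ := ih (fun r hr => hA r (mem_insert_of_mem hr)) (EA i 0 p * R)
    have h1 : (∏ r ∈ insert p A, EA i 0 r) * R = (∏ r ∈ A, EA i 0 r) * (EA i 0 p * R) := by
      rw [prod_insert hp]
      ring
    rw [h1, hH]
    by_cases h2 : Ok i A
    · obtain ⟨H', hH'⟩ := Ev_EA_insert hg hl hdeg h2 (hA p (mem_insert_self p A)) hp R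
      rw [if_pos h2, hH', card_insert_of_notMem hp, prod_insert hp]
      split_ifs with h3
      · exact ⟨H + ZA ^ A.card * (∏ p ∈ A, sgn i p) * H', by ring⟩
      · exact ⟨H + ZA ^ A.card * (∏ p ∈ A, sgn i p) * H', by ring⟩
    · rw [if_neg h2, if_neg]
      · exact ⟨H, rfl⟩
      · rw [Ok_insert hdeg hp]
        exact fun h => h2 h.1

/-- the value of a set of disjoint doubles -/
noncomputable def VA (i : ℕ) (A : Finset α) : AA :=
  Ev wA ((∏ y ∈ BA i A, MvPolynomial.X y) * ∏ p ∈ N1 α i \ A, GA i 0 p)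

lemma VA_bd (q : α) : VA i (bd i q) = Ev wA ((∏ y ∈ BB i q, MvPolynomial.X y) * rsK i 0 q) := rfl

/-- **pairs of objects**, `0/1` energies, modulo `w ^ 3` -/
theorem pair01 (hg : Grad α) (hl : HasLower α i) (hdeg : ∀ p : α, (bd i p).card ≤ 2)
    {T : Finset α} (hT : T ⊆ U2 α i) : ∃ Q : AA,
      qA ^ 2 * Ev wA (forced (N1 α i) (EA i 0) (T.biUnion (bd i))) =
      (if Ok i (T.biUnion (bd i)) then wA ^ 2 * (ZA ^ (2 + (T.biUnion (bd i)).card) *
        (∏ p ∈ T.biUnion (bd i), sgn i p) * VA i (T.biUnion (bd i))) else 0) + wA ^ 3 * Q := by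
  have hA : T.biUnion (bd i) ⊆ N1 α i := by
    intro p hp
    rw [mem_biUnion] at hp
    obtain ⟨u, hu', hp⟩ := hp
    exact bd_subset_N1 hg (mem_U2.1 (hT hu')).1 hp
  obtain ⟨H, hH⟩ := Ev_prod_EA hg hl hdeg (A := T.biUnion (bd i))
    (fun p hp => mem_N1.1 (hA hp)) (∏ p ∈ N1 α i \ T.biUnion (bd i), GA i 0 p)
  have hq : qA = wA * ZA := rfl
  refine ⟨ZA ^ 2 * H, ?_⟩
  rw [forced_EA _ hA, hH, hq]
  unfold VA
  split_ifs
  · rw [pow_add]
    ring
  · ring

end Pool.Gauss
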