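import Pool.Agent.Work.MP_065141_co.K.DeepH5

/-!
# The objects over four vertices, modulo `w ^ 3`
-/

set_option autoImplicit false
set_option linter.unusedSectionVars false
set_option linter.unusedVariables false
open scoped Classical
open Finset Polynomial

namespace Pool.Gauss

variable {α : Type} [Fintype α] [PartialOrder α] {i : ℕ}

/-- the polynomial in front of an object over four vertices -/
noncomputable def PLa (i : ℕ) (u : α) : AA :=
  (1 + qA * (Gq i u).card) * (∏ p ∈ bd i u, lam1 i p) * PQ i u - sgn i u * (wA * ZA ^ 5)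

/-- the second element at distance two has the single nearer neighbour `p` -/
noncomputable def tchi (i : ℕ) (u p : α) : AA :=
  if Ok i (insert p (bd i u)) then ZA ^ (5 + ((insert p (bd i u)).card - 2)) *
    (sgn i u * sgn i p ^ ((insert p (bd i u)).card - 2)) * VA i (insert p (bd i u)) else 0

lemma Ok_bd {u : α} (hu : u ∈ U4 α i) : Ok i (bd i u) := by
  rw [mem_U4] at hu
  unfold Ok
  rw [BA_bd, hu.2.1, hu.2.2]

/-- **an object over four vertices** -/
theorem obj4 (hg : Grad α) (hl : HasLower α i) (hdeg : ∀ p : α, (bd i p).card ≤ 2) {u : α}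
    (hu : u ∈ U4 α i) : ∃ Q : AA,
      qA * (1 + qA * (Gq i u).card) *
        Ev wA (forced (N1 α i) (fun p => MvPolynomial.C (lam1 i p) * EA i 0 p) (bd i u)) +
        VQ i u + wA ^ 2 * (ZA ^ 5 * sgn i u * ((Gq i u).card - 1) * VA i (bd i u)) +
        wA ^ 2 * ∑ p ∈ N1 α i, ((ch i p).card : AA) * tchi i u p =
      wA * (PLa i u * Ev wA ((∏ y ∈ BB i u, av i u y) * rsL i u)) + wA ^ 3 * Q := by
  have hu4 := mem_U4.1 hu
  obtain ⟨hq, h2, hB⟩ := hu4
  have hsub := bd_subset_N1 hg hq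
  have h3 : forced (N1 α i) (fun p => MvPolynomial.C (lam1 i p) * EA i 0 p) (bd i u) =
      MvPolynomial.C (∏ p ∈ bd i u, lam1 i p) *
        ((∏ p ∈ bd i u, (GA i 0 p - 1)) * rsL i u) := by
    rw [forced_eq hsub, prod_mul_distrib, map_prod, mul_assoc]
    rfl
  have h4 := forced_term hg hl hdeg hq (k := 0) (fun _ _ => rfl) (rsL i u)
  rw [h2, hB] at h4
  have h5 : VQ i u = wA * (ZA ^ 4 * sgQ i u *
      Ev wA ((∏ y ∈ BB i u, av i u y) * rsK i 0 u)) := by
    unfold VQ rsK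
    rw [h2, hB]
    ring
  set EL := Ev wA ((∏ y ∈ BB i u, av i u y) * rsL i u) with hEL
  set EK := Ev wA ((∏ y ∈ BB i u, av i u y) * rsK i 0 u) with hEK
  set V := VA i (bd i u) with hV
  have hs4 := sgn_pow_four (i := i) u
  -- the values at `w = 0`
  obtain ⟨HL, hHL⟩ : ∃ H, EL = V + wA * H := by
    obtain ⟨H, hH⟩ := Ev_obj_mod (i := i) u (BB i u) (R := rsL i u) (R' := rsK i 0 u)
      (by rw [← dvd_neg, neg_sub]; exact rs_w u)
    rw [hB, hs4, one_mul] at hH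
    exact ⟨H, hH⟩
  obtain ⟨HK, hHK⟩ : ∃ H, EK = V + wA * H := by
    obtain ⟨H, hH⟩ := Ev_obj_mod (i := i) u (BB i u) (R := rsK i 0 u) (R' := rsK i 0 u)
      (by rw [sub_self]; exact dvd_zero _)
    rw [hB, hs4, one_mul] at hH
    exact ⟨H, hH⟩
  -- the first order of `rsL`
  have hD : ∀ p : α, ∃ H : AA, p ∈ N1 α i \ bd i u →
      Ev wA ((∏ y ∈ BB i u, av i u y) * (EA i 0 p * ∏ r ∈ (N1 α i \ bd i u).erase p, GA i 0 r)) =
      (if Ok i (insert p (bd i u)) then ZA * sgn i p * VA i (insert p (bd i u)) else 0) +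
        wA * H := by
    intro p
    by_cases hp : p ∈ N1 α i \ bd i u
    · rw [mem_sdiff, mem_N1] at hp
      obtain ⟨H1, hH1⟩ := Ev_obj_mod (i := i) u (BB i u)
        (R := EA i 0 p * ∏ r ∈ (N1 α i \ bd i u).erase p, GA i 0 r)
        (R' := EA i 0 p * ∏ r ∈ (N1 α i \ bd i u).erase p, GA i 0 r)
        (by rw [sub_self]; exact dvd_zero _)
      obtain ⟨H2, hH2⟩ := Ev_EA_insert hg hl hdeg (Ok_bd hu) hp.1 hp.2
        (∏ r ∈ (N1 α i \ bd i u).erase p, GA i 0 r)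
      have hN : (N1 α i \ bd i u).erase p = N1 α i \ insert p (bd i u) := by
        ext r
        rw [mem_erase, mem_sdiff, mem_sdiff, mem_insert]
        tauto
      rw [BA_bd] at hH2
      rw [hB, hs4, one_mul, hH2] at hH1
      refine ⟨H1 + H2, fun _ => ?_⟩
      rw [hH1]
      unfold VA
      rw [hN]
      ring
    · exact ⟨0, fun h => absurd h hp⟩
  choose H hH using hD
  obtain ⟨QL, hQL⟩ : ∃ Q, EL = EK + wA * (ZA * ∑ p ∈ N1 α i \ bd i u, ((ch i p).card : AA) *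
      Ev wA ((∏ y ∈ BB i u, av i u y) * (EA i 0 p *
        ∏ r ∈ (N1 α i \ bd i u).erase p, GA i 0 r))) + wA ^ 2 * Q := by
    have e1 : rsL i u = ∏ p ∈ N1 α i \ bd i u, (GA i 0 p + MvPolynomial.C wA *
        (MvPolynomial.C (((ch i p).card : AA) * ZA) * EA i 0 p)) := by
      unfold rsL
      apply prod_congr rfl
      intro p _
      have e2 : GA i 0 p = 1 + EA i 0 p := (one_add_EA 0 p).symm
      rw [e2]
      unfold lam1
      have hq : qA = wA * ZA := rfl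
      rw [hq, map_add, map_one, map_mul, map_mul, map_mul]
      ring
    obtain ⟨Q, hQ⟩ := prod_add_w (MvPolynomial.C wA : MvPolynomial α AA) (N1 α i \ bd i u)
      (fun p => GA i 0 p) (fun p => MvPolynomial.C (((ch i p).card : AA) * ZA) * EA i 0 p)
    refine ⟨Ev wA ((∏ y ∈ BB i u, av i u y) * Q), ?_⟩
    rw [hEL, e1, hQ, mul_add, mul_add, map_add, map_add]
    have e3 : (∏ y ∈ BB i u, av i u y) * (MvPolynomial.C wA ^ 2 * Q) =
        MvPolynomial.C (wA ^ 2) * ((∏ y ∈ BB i u, av i u y) * Q) := by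
      rw [map_pow]
      ring
    have e4 : (∏ y ∈ BB i u, av i u y) * (MvPolynomial.C wA * ∑ p ∈ N1 α i \ bd i u,
        MvPolynomial.C (((ch i p).card : AA) * ZA) * EA i 0 p *
          ∏ r ∈ (N1 α i \ bd i u).erase p, GA i 0 r) =
        ∑ p ∈ N1 α i \ bd i u, MvPolynomial.C (wA * (ZA * (ch i p).card)) *
          ((∏ y ∈ BB i u, av i u y) * (EA i 0 p *
            ∏ r ∈ (N1 α i \ bd i u).erase p, GA i 0 r)) := by
      rw [mul_sum, mul_sum]
      apply sum_congr rfl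
      intro p _
      rw [map_mul, map_mul, map_mul]
      ring
    rw [e3, e4, map_sum, Ev_C_mul, mul_sum, mul_sum]
    congr 1
    congr 1
    apply sum_congr rfl
    intro p _
    rw [Ev_C_mul]
    ring
  -- the constants
  obtain ⟨Q2, h8⟩ := sgQ_mod (i := i) u h2
  obtain ⟨Q3, h9⟩ : ∃ Q, ∏ p ∈ bd i u, lam1 i p =
      1 + wA * (ZA * ∑ p ∈ bd i u, ((ch i p).card : AA)) + wA ^ 2 * Q := by
    obtain ⟨Q, hQ⟩ := prod_add_w wA (bd i u) (fun _ => (1 : AA))
      (fun p => ZA * ((ch i p).card : AA))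
    refine ⟨Q, ?_⟩
    simp only [prod_const_one, mul_one, ← mul_sum] at hQ
    rw [← hQ]
    apply prod_congr rfl
    intro p _
    unfold lam1
    have hq : qA = wA * ZA := rfl
    rw [hq]
    ring
  -- the sum over the single neighbours
  have h10 : ∑ p ∈ N1 α i, ((ch i p).card : AA) * tchi i u p =
      ZA ^ 5 * sgn i u * (∑ p ∈ bd i u, ((ch i p).card : AA)) * V +
      ZA ^ 5 * sgn i u * ∑ p ∈ N1 α i \ bd i u, ((ch i p).card : AA) *
        (if Ok i (insert p (bd i u)) then ZA * sgn i p * VA i (insert p (bd i u)) else 0) := by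
    rw [← Finset.sum_sdiff hsub, add_comm]
    congr 1
    · rw [mul_sum, sum_mul]
      apply sum_congr rfl
      intro p hp
      unfold tchi
      rw [insert_eq_of_mem hp, if_pos (Ok_bd hu), h2]
      ring
    · rw [mul_sum]
      apply sum_congr rfl
      intro p hp
      rw [mem_sdiff] at hp
      unfold tchi
      rw [card_insert_of_notMem hp.2, h2]
      split_ifs
      · ring
      · ring
  have h11 : ∑ p ∈ N1 α i \ bd i u, ((ch i p).card : AA) *
      Ev wA ((∏ y ∈ BB i u, av i u y) * (EA i 0 p *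
        ∏ r ∈ (N1 α i \ bd i u).erase p, GA i 0 r)) =
      ∑ p ∈ N1 α i \ bd i u, ((ch i p).card : AA) *
        (if Ok i (insert p (bd i u)) then ZA * sgn i p * VA i (insert p (bd i u)) else 0) +
      wA * ∑ p ∈ N1 α i \ bd i u, ((ch i p).card : AA) * H p := by
    rw [mul_sum, ← sum_add_distrib]
    apply sum_congr rfl
    intro p hp
    rw [hH p hp]
    ring
  rw [h11] at hQL
  rw [h3, Ev_C_mul, h5, h10]
  set G := ((Gq i u).card : AA) with hGd
  set S1 := ∑ p ∈ bd i u, ((ch i p).card : AA) with hS1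
  set S2 := ∑ p ∈ N1 α i \ bd i u, ((ch i p).card : AA) *
        (if Ok i (insert p (bd i u)) then ZA * sgn i p * VA i (insert p (bd i u)) else 0) with hS2
  set S3 := ∑ p ∈ N1 α i \ bd i u, ((ch i p).card : AA) * H p with hS3
  set Pl := ∏ p ∈ bd i u, lam1 i p with hPl
  set s := sgn i u with hs
  set E0 := Ev wA ((∏ p ∈ bd i u, (GA i 0 p - 1)) * rsL i u) with hE0
  have hqa : qA = wA * ZA := rfl
  have h12 : PLa i u = (1 + qA * G) * Pl * (ZA ^ 3 * (nrm i u * geoA) ^ 2 + ZA ^ 4 * sgQ i u) -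
      s * (wA * ZA ^ 5) := rfl
  rw [h12]
  have h13 : ZA ^ (2 + 1) * wA ^ (2 * 2 + 1 - 4) * (nrm i u * geoA) ^ 2 * EL =
      wA * (ZA ^ 3 * (nrm i u * geoA) ^ 2 * EL) := by
    norm_num
    ring
  rw [h13] at h4
  -- the difference of the two sides
  have key : ∃ Q : AA, wA * (((1 + qA * G) * Pl * (ZA ^ 4 * sgQ i u) - s * (wA * ZA ^ 5)) * EL) =
      wA * (ZA ^ 4 * sgQ i u * EK) + wA ^ 2 * (ZA ^ 5 * s * (G - 1) * V) +
      wA ^ 2 * (ZA ^ 5 * s * S1 * V + ZA ^ 5 * s * S2) + wA ^ 3 * Q := by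
    -- (1 + q G) Pl = 1 + w A + w ^ 2 B
    obtain ⟨B, hB'⟩ : ∃ B : AA, (1 + qA * G) * Pl = 1 + wA * (ZA * (G + S1)) + wA ^ 2 * B := by
      refine ⟨Q3 + ZA * G * (ZA * S1 + wA * Q3), ?_⟩
      rw [h9, hqa]
      ring
    -- EL = EK + w D + w ^ 2 E
    have hE : EL = EK + wA * (ZA * S2) + wA ^ 2 * (ZA * S3 + QL) := by
      rw [hQL]
      ring
    rw [hB']
    refine ⟨ZA ^ 4 * Q2 * ZA * (G + S1) * V + ZA ^ 4 * sgQ i u * ZA * (G + S1) * HK +
      ZA ^ 4 * sgQ i u * B * EL + ZA ^ 4 * sgQ i u * (ZA * (G + S1)) * (ZA * S2 + wA * (ZA * S3 + QL)) +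
      ZA ^ 5 * Q2 * S2 + ZA ^ 4 * sgQ i u * (ZA * S3 + QL) - s * ZA ^ 5 * HL, ?_⟩
    have t1 : wA * ((1 + wA * (ZA * (G + S1)) + wA ^ 2 * B) * (ZA ^ 4 * sgQ i u) * EL) =
        wA * (ZA ^ 4 * sgQ i u) * EL + wA ^ 2 * (ZA * (G + S1)) * (ZA ^ 4 * sgQ i u) * EL +
        wA ^ 3 * (ZA ^ 4 * sgQ i u * B * EL) := by ring
    have t2 : wA * (ZA ^ 4 * sgQ i u) * EL = wA * (ZA ^ 4 * sgQ i u * EK) +
        wA ^ 2 * (ZA ^ 5 * (s + wA * Q2) * S2) +
        wA ^ 3 * (ZA ^ 4 * sgQ i u * (ZA * S3 + QL)) := by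
      rw [hE]
      linear_combination (wA ^ 2 * (ZA ^ 5 * S2)) * h8
    have t3 : wA ^ 2 * (ZA * (G + S1)) * (ZA ^ 4 * sgQ i u) * EL =
        wA ^ 2 * (ZA ^ 5 * (G + S1) * s * V) + wA ^ 3 * (ZA ^ 4 * Q2 * ZA * (G + S1) * V +
        ZA ^ 4 * sgQ i u * ZA * (G + S1) * HK +
        ZA ^ 4 * sgQ i u * (ZA * (G + S1)) * (ZA * S2 + wA * (ZA * S3 + QL))) := by
      rw [hE, hHK]
      linear_combination (wA ^ 2 * (ZA ^ 5 * (G + S1) * V)) * h8
    have t4 : wA * (s * (wA * ZA ^ 5) * EL) = wA ^ 2 * (ZA ^ 5 * s * V) +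
        wA ^ 3 * (s * ZA ^ 5 * HL) := by
      rw [hHL]
      ring
    linear_combination t1 + t2 + t3 - t4
  obtain ⟨Q, hQ⟩ := key
  refine ⟨-Q, ?_⟩
  linear_combination (1 + qA * G) * Pl * h4 - hQ

end Pool.Gauss
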