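import Pool.Agent.Work.MP_065141_co.K.DeepH6

/-!
# The model modulo `w ^ 3` in all degrees, with objects over four vertices
-/

set_option autoImplicit false
set_option linter.unusedSectionVars false
set_option linter.unusedVariables false
open scoped Classical
open Finset Polynomial

namespace Pool.Gauss

variable {α : Type} [Fintype α] [PartialOrder α] {i : ℕ}

/-- the five kinds of additional units -/
lemma sum_TX (hg : Grad α) (hl : HasLower α i) (hdeg : ∀ p : α, (bd i p).card ≤ 2) {u : α}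
    (hu : u ∈ U4 α i) (f : α → AA) : ∑ t ∈ TX i u, f t =
      f u + ∑ t ∈ bd i u, f t + ∑ t ∈ Gq i u, f t +
      ∑ t ∈ (lev α i).filter (fun y => y ∉ BB i u), f t +
      ∑ t ∈ (U1 α i).filter (fun r => RX4 i u r), f t +
      ∑ t ∈ (U2 α i).filter (fun r => RX4 i u r), f t := by
  have hu4 := mem_U4.1 hu
  have h1 : TX i u = {u} ∪ (bd i u ∪ (Gq i u ∪ ((lev α i).filter (fun y => y ∉ BB i u) ∪
      ((U1 α i).filter (fun r => RX4 i u r) ∪ (U2 α i).filter (fun r => RX4 i u r))))) := by
    ext t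
    rw [mem_TX, mem_union, mem_union, mem_union, mem_union, mem_union, mem_singleton,
      mem_filter, mem_filter, mem_filter, mem_U1, mem_U2]
    constructor
    · rintro (h | h | h | h | h)
      · tauto
      · tauto
      · tauto
      · tauto
      · have h2 : t ∈ U1 α i ∪ U2 α i := by
          rw [← D2_eq hg hl hdeg, mem_D2]
          exact h.1
        rw [mem_union, mem_U1, mem_U2] at h2
        tauto
    · tauto
  have k1 : ∀ t ∈ bd i u, ds i t = 1 := fun t ht => ds_of_mem_bd hg hu4.1 ht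
  have k2 : ∀ t ∈ Gq i u, ds i t = 3 := fun t ht => (mem_Gq.1 ht).1
  have k3 : ∀ t ∈ (lev α i).filter (fun y => y ∉ BB i u), ds i t = 0 := fun t ht =>
    ds_eq_zero.2 (mem_lev.1 (mem_filter.1 ht).1)
  have k4 : ∀ t ∈ (U1 α i).filter (fun r => RX4 i u r), ds i t = 2 ∧ t ≠ u := fun t ht => by
    have := (mem_filter.1 ht).2
    exact ⟨this.1, this.2.1⟩
  have k5 : ∀ t ∈ (U2 α i).filter (fun r => RX4 i u r), ds i t = 2 ∧ t ≠ u := fun t ht => by
    have := (mem_filter.1 ht).2
    exact ⟨this.1, this.2.1⟩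
  have d5 : Disjoint ((U1 α i).filter (fun r => RX4 i u r))
      ((U2 α i).filter (fun r => RX4 i u r)) :=
    Finset.disjoint_filter_filter U1_disj
  have d4 : Disjoint ((lev α i).filter (fun y => y ∉ BB i u))
      ((U1 α i).filter (fun r => RX4 i u r) ∪ (U2 α i).filter (fun r => RX4 i u r)) := by
    rw [Finset.disjoint_left]
    intro t ht ht'
    have a := k3 t ht
    rw [mem_union] at ht'
    rcases ht' with h | h
    · have := k4 t h
      omega
    · have := k5 t h
      omega
  have d3 : Disjoint (Gq i u) ((lev α i).filter (fun y => y ∉ BB i u) ∪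
      ((U1 α i).filter (fun r => RX4 i u r) ∪ (U2 α i).filter (fun r => RX4 i u r))) := by
    rw [Finset.disjoint_left]
    intro t ht ht'
    have a := k2 t ht
    rw [mem_union, mem_union] at ht'
    rcases ht' with h | h | h
    · have := k3 t h
      omega
    · have := k4 t h
      omega
    · have := k5 t h
      omega
  have d2 : Disjoint (bd i u) (Gq i u ∪ ((lev α i).filter (fun y => y ∉ BB i u) ∪
      ((U1 α i).filter (fun r => RX4 i u r) ∪ (U2 α i).filter (fun r => RX4 i u r)))) := by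
    rw [Finset.disjoint_left]
    intro t ht ht'
    have a := k1 t ht
    rw [mem_union, mem_union, mem_union] at ht'
    rcases ht' with h | h | h | h
    · have := k2 t h
      omega
    · have := k3 t h
      omega
    · have := k4 t h
      omega
    · have := k5 t h
      omega
  have d1 : Disjoint ({u} : Finset α) (bd i u ∪ (Gq i u ∪
      ((lev α i).filter (fun y => y ∉ BB i u) ∪
      ((U1 α i).filter (fun r => RX4 i u r) ∪ (U2 α i).filter (fun r => RX4 i u r))))) := by
    rw [Finset.disjoint_singleton_left, mem_union, mem_union, mem_union, mem_union]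
    rintro (h | h | h | h | h)
    · have := k1 u h
      omega
    · have := k2 u h
      omega
    · have := k3 u h
      omega
    · exact (k4 u h).2 rfl
    · exact (k5 u h).2 rfl
  rw [h1, sum_union d1, sum_union d2, sum_union d3, sum_union d4, sum_union d5, sum_singleton]
  ring

lemma AX_of_ne {u t : α} (h : ds i t ≠ 2) : AX i u t = bd i u ∧ mX i u t = 0 := by
  unfold AX mX
  rw [if_neg h, if_neg h, union_empty]
  exact ⟨rfl, rfl⟩

lemma AX_of_two {u t : α} (h : ds i t = 2) : AX i u t = bd i u ∪ bd i t ∧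
    mX i u t = (bd i t \ bd i u).card := by
  unfold AX mX
  rw [if_pos h, if_pos h]
  exact ⟨rfl, rfl⟩

/-- the term of two elements at distance two -/
noncomputable def prT (i : ℕ) (u t : α) : AA :=
  ZA ^ (5 + (bd i t \ bd i u).card) * (sgn i u * sgn i t ^ (bd i t \ bd i u).card) *
    VA i (bd i u ∪ bd i t)

/-- the contributions of all `cfX u t` -/
theorem sum_cfX_u (hg : Grad α) (hl : HasLower α i) (hdeg : ∀ p : α, (bd i p).card ≤ 2) {u : α}
    (hu : u ∈ U4 α i) : ∃ Q : AA, ∑ t ∈ TX i u, VN i (cfX i u t) =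
      wA ^ 2 * (ZA ^ 5 * sgn i u * ((Gq i u).card - 1) * VA i (bd i u)) +
      wA ^ 2 * (ZA ^ 5 * (sgn i u * ∑ y ∈ (lev α i).filter (fun y => y ∉ BB i u),
        Ev wA ((∏ t ∈ BB i u, MvPolynomial.X t) * rsK i (ind {y}) u))) +
      wA ^ 2 * ∑ t ∈ (U1 α i).filter (fun r => RX4 i u r), prT i u t +
      wA ^ 2 * ∑ t ∈ (U2 α i).filter (fun r => RX4 i u r), prT i u t + wA ^ 3 * Q := by
  have hu4 := mem_U4.1 hu
  -- the values
  have e : ∀ t : α, ∃ H : AA, t ∈ TX i u → VN i (cfX i u t) =
      (if t ∈ bd i u then wA ^ 2 * (ZA ^ 5 * (- sgn i u) * VA i (bd i u)) else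
        wA ^ 2 * (ZA ^ (5 + mX i u t) * (sgn i u * sgn i t ^ mX i u t) *
          Ev wA ((∏ y ∈ BA i (AX i u t), MvPolynomial.X y) * ∏ p ∈ N1 α i \ AX i u t,
            GA i (if t ∈ lev α i then ind {t} else 0) p))) + wA ^ 3 * H := by
    intro t
    by_cases ht : t ∈ TX i u
    · by_cases htb : t ∈ bd i u
      · obtain ⟨H, hH⟩ := VN_cfXp hg hl hdeg hu htb
        exact ⟨H, fun _ => by rw [if_pos htb, hH, VA_bd]⟩
      · obtain ⟨H, hH⟩ := VN_cfX hg hl hdeg hu ht htb
        exact ⟨H, fun _ => by rw [if_neg htb, hH]⟩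
    · exact ⟨0, fun h => absurd h ht⟩
  choose H hH using e
  refine ⟨∑ t ∈ TX i u, H t, ?_⟩
  rw [sum_congr rfl hH, sum_add_distrib, ← mul_sum, sum_TX hg hl hdeg hu]
  have hub : u ∉ bd i u := q_notMem_bd hg
  have hul : u ∉ lev α i := by
    intro h
    have := ds_eq_zero.2 (mem_lev.1 h)
    omega
  -- `t = u`
  have f1 : (if u ∈ bd i u then wA ^ 2 * (ZA ^ 5 * (- sgn i u) * VA i (bd i u)) else
        wA ^ 2 * (ZA ^ (5 + mX i u u) * (sgn i u * sgn i u ^ mX i u u) *
          Ev wA ((∏ y ∈ BA i (AX i u u), MvPolynomial.X y) * ∏ p ∈ N1 α i \ AX i u u,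
            GA i (if u ∈ lev α i then ind {u} else 0) p))) =
      wA ^ 2 * (ZA ^ 5 * sgn i u * VA i (bd i u)) := by
    obtain ⟨a, b⟩ := AX_of_two (u := u) hu4.1
    rw [if_neg hub, if_neg hul, a, b, union_self, sdiff_self]
    unfold VA
    simp
  have f2 : ∑ t ∈ bd i u, (if t ∈ bd i u then wA ^ 2 * (ZA ^ 5 * (- sgn i u) * VA i (bd i u)) else
        wA ^ 2 * (ZA ^ (5 + mX i u t) * (sgn i u * sgn i t ^ mX i u t) *
          Ev wA ((∏ y ∈ BA i (AX i u t), MvPolynomial.X y) * ∏ p ∈ N1 α i \ AX i u t,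
            GA i (if t ∈ lev α i then ind {t} else 0) p))) =
      2 * (wA ^ 2 * (ZA ^ 5 * (- sgn i u) * VA i (bd i u))) := by
    rw [sum_congr rfl fun t ht => if_pos ht, sum_const, hu4.2.1, nsmul_eq_mul]
    norm_num
  have f3 : ∑ t ∈ Gq i u, (if t ∈ bd i u then wA ^ 2 * (ZA ^ 5 * (- sgn i u) * VA i (bd i u)) else
        wA ^ 2 * (ZA ^ (5 + mX i u t) * (sgn i u * sgn i t ^ mX i u t) *
          Ev wA ((∏ y ∈ BA i (AX i u t), MvPolynomial.X y) * ∏ p ∈ N1 α i \ AX i u t,
            GA i (if t ∈ lev α i then ind {t} else 0) p))) =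
      ((Gq i u).card : AA) * (wA ^ 2 * (ZA ^ 5 * sgn i u * VA i (bd i u))) := by
    rw [← nsmul_eq_mul, ← sum_const]
    apply sum_congr rfl
    intro t ht
    rw [mem_Gq] at ht
    obtain ⟨a, b⟩ := AX_of_ne (i := i) (u := u) (t := t) (by omega)
    have c1 : t ∉ bd i u := fun h => by have := ds_of_mem_bd hg hu4.1 h; omega
    have c2 : t ∉ lev α i := fun h => by have := ds_eq_zero.2 (mem_lev.1 h); omega
    rw [if_neg c1, if_neg c2, a, b]
    unfold VA
    ring
  have f4 : ∑ t ∈ (lev α i).filter (fun y => y ∉ BB i u),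
      (if t ∈ bd i u then wA ^ 2 * (ZA ^ 5 * (- sgn i u) * VA i (bd i u)) else
        wA ^ 2 * (ZA ^ (5 + mX i u t) * (sgn i u * sgn i t ^ mX i u t) *
          Ev wA ((∏ y ∈ BA i (AX i u t), MvPolynomial.X y) * ∏ p ∈ N1 α i \ AX i u t,
            GA i (if t ∈ lev α i then ind {t} else 0) p))) =
      wA ^ 2 * (ZA ^ 5 * (sgn i u * ∑ y ∈ (lev α i).filter (fun y => y ∉ BB i u),
        Ev wA ((∏ t ∈ BB i u, MvPolynomial.X t) * rsK i (ind {y}) u))) := by
    rw [mul_sum, mul_sum, mul_sum]
    apply sum_congr rfl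
    intro t ht
    rw [mem_filter] at ht
    have h0 := ds_eq_zero.2 (mem_lev.1 ht.1)
    obtain ⟨a, b⟩ := AX_of_ne (i := i) (u := u) (t := t) (by omega)
    have c1 : t ∉ bd i u := fun h => by have := ds_of_mem_bd hg hu4.1 h; omega
    rw [if_neg c1, if_pos ht.1, a, b, BA_bd]
    unfold rsK
    ring
  have f5 : ∀ S : Finset α, (∀ t ∈ S, ds i t = 2) → ∑ t ∈ S,
      (if t ∈ bd i u then wA ^ 2 * (ZA ^ 5 * (- sgn i u) * VA i (bd i u)) else
        wA ^ 2 * (ZA ^ (5 + mX i u t) * (sgn i u * sgn i t ^ mX i u t) *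
          Ev wA ((∏ y ∈ BA i (AX i u t), MvPolynomial.X y) * ∏ p ∈ N1 α i \ AX i u t,
            GA i (if t ∈ lev α i then ind {t} else 0) p))) =
      wA ^ 2 * ∑ t ∈ S, prT i u t := by
    intro S hS
    rw [mul_sum]
    apply sum_congr rfl
    intro t ht
    have h0 := hS t ht
    obtain ⟨a, b⟩ := AX_of_two (u := u) h0
    have c1 : t ∉ bd i u := fun h => by have := ds_of_mem_bd hg hu4.1 h; omega
    have c2 : t ∉ lev α i := fun h => by have := ds_eq_zero.2 (mem_lev.1 h); omega
    rw [if_neg c1, if_neg c2, a, b]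
    rfl
  rw [f1, f2, f3, f4, f5 _ fun t ht => (mem_filter.1 ht).2.1,
    f5 _ fun t ht => (mem_filter.1 ht).2.1]
  ring

/-- the single second elements -/
theorem sum_U1_RX4 (hg : Grad α) {u : α} (hu : u ∈ U4 α i) :
    ∑ t ∈ (U1 α i).filter (fun r => RX4 i u r), prT i u t =
      ∑ p ∈ N1 α i, ((ch i p).card : AA) * tchi i u p := by
  have hu4 := mem_U4.1 hu
  have h1 : ∀ t ∈ (U1 α i).filter (fun r => RX4 i u r), rn i t ∈ N1 α i := by
    intro t ht
    rw [mem_filter] at ht
    have h2 := rn_spec ht.1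
    have h3 : rn i t ∈ bd i t := by rw [h2]; exact mem_singleton_self _
    exact mem_N1.2 (ds_of_mem_bd hg (mem_U1.1 ht.1).1 h3)
  rw [← Finset.sum_fiberwise_of_maps_to h1]
  apply sum_congr rfl
  intro p hp
  -- the elements over `p`
  have h2 : ((U1 α i).filter (fun r => RX4 i u r)).filter (fun t => rn i t = p) =
      if Ok i (insert p (bd i u)) then ch i p else ∅ := by
    rw [← ch_eq, Finset.filter_filter]
    have h3 : ∀ t ∈ U1 α i, rn i t = p → (RX4 i u t ↔ Ok i (insert p (bd i u))) := by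
      intro t ht h4
      have h5 := rn_spec ht
      rw [h4] at h5
      rw [mem_U1] at ht
      have h6 : bd i u ∪ bd i t = insert p (bd i u) := by
        rw [h5, Finset.union_comm, ← Finset.insert_eq]
      unfold RX4 Ok
      rw [h6]
      constructor
      · exact fun h => h.2.2
      · intro h
        refine ⟨ht.1, ?_, h⟩
        rintro rfl
        omega
    split_ifs with h4
    · apply filter_congr
      intro t ht
      constructor
      · exact fun h => h.2
      · exact fun h => ⟨(h3 t ht h).2 h4, h⟩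
    · rw [Finset.filter_eq_empty_iff]
      rintro t ht ⟨h5, h6⟩
      exact h4 ((h3 t ht h6).1 h5)
  rw [h2]
  unfold tchi
  split_ifs with h3
  · rw [← nsmul_eq_mul, ← sum_const]
    apply sum_congr rfl
    intro t ht
    unfold ch at ht
    rw [mem_filter, mem_U1] at ht
    have h6 : bd i u ∪ bd i t = insert p (bd i u) := by
      rw [ht.2, Finset.union_comm, ← Finset.insert_eq]
    have h7 : (bd i t \ bd i u).card = (insert p (bd i u)).card - 2 := by
      have h9 := Finset.card_sdiff_add_card (bd i t) (bd i u)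
      rw [Finset.union_comm, h6] at h9
      omega
    have h8 : sgn i t = sgn i p := by
      have hpt : p ∈ bd i t := by rw [ht.2]; exact mem_singleton_self _
      have h8 := side_bd hg ht.1.1 hpt
      unfold sgn
      by_cases h9 : corank t < i
      · rw [if_pos h9, if_pos (h8.2 h9)]
      · rw [if_neg h9, if_neg fun h => h9 (h8.1 h)]
    unfold prT
    rw [h7, h6, h8]
  · rw [sum_empty, mul_zero]

end Pool.Gauss
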