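import Pool.Agent.Work.MP_065141_co.K.DeepH7

/-!
# The model modulo `w ^ 3` in all degrees, with objects over four vertices: assembly
-/

set_option autoImplicit false
set_option linter.unusedSectionVars false
set_option linter.unusedVariables false
open scoped Classical
open Finset Polynomial

namespace Pool.Gauss

variable {α : Type} [Fintype α] [PartialOrder α] {i : ℕ}

/-- the pairs of objects over disjoint doubles -/
noncomputable def TP (α : Type) [Fintype α] [PartialOrder α] (i : ℕ) : Finset (Finset α) :=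
  ((U2 α i).powersetCard 2).filter fun T => Ok i (T.biUnion (bd i))

/-- all objects, with the second elements at distance two which have a single neighbour -/
lemma sum_obj4 (hg : Grad α) (hl : HasLower α i) (hdeg : ∀ p : α, (bd i p).card ≤ 2) : ∃ Q : AA,
      ∑ u ∈ U2 α i, (qA * (1 + qA * (Gq i u).card) *
        Ev wA (forced (N1 α i) (fun p => MvPolynomial.C (lam1 i p) * EA i 0 p) (bd i u)) +
        qA ^ 2 * ∑ y ∈ lev α i, Ev wA (forced (N1 α i) (EA i (ind {y})) (bd i u)) +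
        VQ i u) +
      ∑ u ∈ U4 α i, (wA ^ 2 * (ZA ^ 5 * sgn i u * ((Gq i u).card - 1) * VA i (bd i u)) +
        wA ^ 2 * ∑ p ∈ N1 α i, ((ch i p).card : AA) * tchi i u p) =
      wA * ∑ u ∈ U4 α i, PLa i u * Ev wA ((∏ y ∈ BB i u, av i u y) * rsL i u) +
      wA ^ 2 * ∑ u ∈ U3 α i, (sgn i u * ZA ^ 3 + ZA ^ 4) *
        Ev wA ((∏ y ∈ BB i u, MvPolynomial.X y) * rsK i 0 u) +
      wA ^ 2 * (ZA ^ 4 * ∑ u ∈ U2 α i, ∑ y ∈ (lev α i).filter (fun y => ObY i u y),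
        Ev wA ((∏ t ∈ (BB i u).erase y, MvPolynomial.X t) * rsK i (ind {y}) u)) +
      wA ^ 3 * Q := by
  have e1 : ∀ u : α, ∃ Q : AA, u ∈ U2 α i → qA * (1 + qA * (Gq i u).card) *
      Ev wA (forced (N1 α i) (fun p => MvPolynomial.C (lam1 i p) * EA i 0 p) (bd i u)) +
      VQ i u + (if (BB i u).card = 4 then
        wA ^ 2 * (ZA ^ 5 * sgn i u * ((Gq i u).card - 1) * VA i (bd i u)) +
        wA ^ 2 * ∑ p ∈ N1 α i, ((ch i p).card : AA) * tchi i u p else 0) =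
      (if (BB i u).card = 4 then
        wA * (PLa i u * Ev wA ((∏ y ∈ BB i u, av i u y) * rsL i u)) else 0) +
      (if (BB i u).card = 3 then wA ^ 2 * ((sgn i u * ZA ^ 3 + ZA ^ 4) *
        Ev wA ((∏ y ∈ BB i u, MvPolynomial.X y) * rsK i 0 u)) else 0) + wA ^ 3 * Q := by
    intro u
    by_cases hu : u ∈ U2 α i
    · by_cases h4 : (BB i u).card = 4
      · have hu' : u ∈ U4 α i := mem_filter.2 ⟨hu, h4⟩
        obtain ⟨Q, hR⟩ := obj4 hg hl hdeg hu'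
        refine ⟨Q, fun _ => ?_⟩
        rw [if_pos h4, if_pos h4, if_neg (by omega), ← add_assoc, hR]
        ring
      · have h5 := card_BB_le4 hdeg u (i := i)
        obtain ⟨Q, hR⟩ := obj3 hg hl hdeg hu (by omega)
        refine ⟨Q, fun _ => ?_⟩
        rw [if_neg h4, if_neg h4, hR]
        ring
    · exact ⟨0, fun h => absurd h hu⟩
  choose Q1 hR1 using e1
  have e2 : ∀ u y : α, ∃ Q : AA, u ∈ U2 α i →
      qA ^ 2 * Ev wA (forced (N1 α i) (EA i (ind {y})) (bd i u)) =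
      wA ^ 2 * (ZA ^ 4 * if ObY i u y then
        Ev wA ((∏ t ∈ (BB i u).erase y, MvPolynomial.X t) * rsK i (ind {y}) u) else 0) +
        wA ^ 3 * Q := by
    intro u y
    by_cases hu : u ∈ U2 α i
    · obtain ⟨Q, hQ⟩ := objY hg hl hdeg hu y
      exact ⟨Q, fun _ => hQ⟩
    · exact ⟨0, fun h => absurd h hu⟩
  choose Q2 hQ2 using e2
  refine ⟨∑ u ∈ U2 α i, Q1 u + ∑ u ∈ U2 α i, ∑ y ∈ lev α i, Q2 u y, ?_⟩
  have g0 : ∑ u ∈ U4 α i, (wA ^ 2 * (ZA ^ 5 * sgn i u * ((Gq i u).card - 1) * VA i (bd i u)) +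
        wA ^ 2 * ∑ p ∈ N1 α i, ((ch i p).card : AA) * tchi i u p) =
      ∑ u ∈ U2 α i, (if (BB i u).card = 4 then
        wA ^ 2 * (ZA ^ 5 * sgn i u * ((Gq i u).card - 1) * VA i (bd i u)) +
        wA ^ 2 * ∑ p ∈ N1 α i, ((ch i p).card : AA) * tchi i u p else 0) := by
    unfold U4
    rw [sum_filter]
  have g1 : ∀ u ∈ U2 α i, (qA * (1 + qA * (Gq i u).card) *
      Ev wA (forced (N1 α i) (fun p => MvPolynomial.C (lam1 i p) * EA i 0 p) (bd i u)) +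
      qA ^ 2 * ∑ y ∈ lev α i, Ev wA (forced (N1 α i) (EA i (ind {y})) (bd i u)) +
      VQ i u) + (if (BB i u).card = 4 then
        wA ^ 2 * (ZA ^ 5 * sgn i u * ((Gq i u).card - 1) * VA i (bd i u)) +
        wA ^ 2 * ∑ p ∈ N1 α i, ((ch i p).card : AA) * tchi i u p else 0) =
      wA * (if (BB i u).card = 4 then
        PLa i u * Ev wA ((∏ y ∈ BB i u, av i u y) * rsL i u) else 0) +
      wA ^ 2 * (if (BB i u).card = 3 then (sgn i u * ZA ^ 3 + ZA ^ 4) *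
        Ev wA ((∏ y ∈ BB i u, MvPolynomial.X y) * rsK i 0 u) else 0) +
      wA ^ 2 * (ZA ^ 4 * ∑ y ∈ (lev α i).filter (fun y => ObY i u y),
        Ev wA ((∏ t ∈ (BB i u).erase y, MvPolynomial.X t) * rsK i (ind {y}) u)) +
      wA ^ 3 * (Q1 u + ∑ y ∈ lev α i, Q2 u y) := by
    intro u hu
    have k1 := hR1 u hu
    have k2 : qA ^ 2 * ∑ y ∈ lev α i, Ev wA (forced (N1 α i) (EA i (ind {y})) (bd i u)) =
        wA ^ 2 * (ZA ^ 4 * ∑ y ∈ (lev α i).filter (fun y => ObY i u y),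
        Ev wA ((∏ t ∈ (BB i u).erase y, MvPolynomial.X t) * rsK i (ind {y}) u)) +
        wA ^ 3 * ∑ y ∈ lev α i, Q2 u y := by
      rw [mul_sum, sum_congr rfl fun y _ => hQ2 u y hu, sum_add_distrib, sum_filter,
        mul_sum, mul_sum, mul_sum]
    have k3 : (if (BB i u).card = 4 then
        wA * (PLa i u * Ev wA ((∏ y ∈ BB i u, av i u y) * rsL i u)) else 0) =
        wA * (if (BB i u).card = 4 then
        PLa i u * Ev wA ((∏ y ∈ BB i u, av i u y) * rsL i u) else 0) := by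
      split_ifs
      · rfl
      · rw [mul_zero]
    have k4 : (if (BB i u).card = 3 then wA ^ 2 * ((sgn i u * ZA ^ 3 + ZA ^ 4) *
        Ev wA ((∏ y ∈ BB i u, MvPolynomial.X y) * rsK i 0 u)) else 0) =
        wA ^ 2 * (if (BB i u).card = 3 then (sgn i u * ZA ^ 3 + ZA ^ 4) *
        Ev wA ((∏ y ∈ BB i u, MvPolynomial.X y) * rsK i 0 u) else 0) := by
      split_ifs
      · rfl
      · rw [mul_zero]
    rw [k3, k4] at k1
    linear_combination k1 + k2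
  rw [g0, ← sum_add_distrib, sum_congr rfl g1]
  unfold U3 U4
  simp only [sum_add_distrib, mul_sum, sum_filter, mul_add]

/-- the pairs with energies `0/1` -/
lemma sum_pair01 (hg : Grad α) (hl : HasLower α i) (hdeg : ∀ p : α, (bd i p).card ≤ 2) :
    ∃ Q : AA, qA ^ 2 * ∑ T ∈ (U2 α i).powersetCard 2,
      Ev wA (forced (N1 α i) (EA i 0) (T.biUnion (bd i))) =
      wA ^ 2 * ∑ T ∈ TP α i, ZA ^ (2 + (T.biUnion (bd i)).card) *
        (∏ p ∈ T.biUnion (bd i), sgn i p) * VA i (T.biUnion (bd i)) + wA ^ 3 * Q := by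
  have e3 : ∀ T : Finset α, ∃ Q : AA, T ∈ (U2 α i).powersetCard 2 →
      qA ^ 2 * Ev wA (forced (N1 α i) (EA i 0) (T.biUnion (bd i))) =
      (if Ok i (T.biUnion (bd i)) then wA ^ 2 * (ZA ^ (2 + (T.biUnion (bd i)).card) *
        (∏ p ∈ T.biUnion (bd i), sgn i p) * VA i (T.biUnion (bd i))) else 0) + wA ^ 3 * Q := by
    intro T
    by_cases hT : T ∈ (U2 α i).powersetCard 2
    · obtain ⟨Q, hR⟩ := pair01 hg hl hdeg (mem_powersetCard.1 hT).1
      exact ⟨Q, fun _ => hR⟩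
    · exact ⟨0, fun h => absurd h hT⟩
  choose Q3 hR3 using e3
  refine ⟨∑ T ∈ (U2 α i).powersetCard 2, Q3 T, ?_⟩
  have h1 : wA ^ 2 * ∑ T ∈ TP α i, ZA ^ (2 + (T.biUnion (bd i)).card) *
        (∏ p ∈ T.biUnion (bd i), sgn i p) * VA i (T.biUnion (bd i)) =
      ∑ T ∈ (U2 α i).powersetCard 2, (if Ok i (T.biUnion (bd i)) then
        wA ^ 2 * (ZA ^ (2 + (T.biUnion (bd i)).card) *
        (∏ p ∈ T.biUnion (bd i), sgn i p) * VA i (T.biUnion (bd i))) else 0) := by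
    unfold TP
    rw [mul_sum, sum_filter]
  rw [h1, mul_sum, sum_congr rfl hR3, sum_add_distrib, ← mul_sum]

/-- the elements at distance two modulo `w ^ 2` -/
lemma sum_D2_twoU4 (hg : Grad α) (hl : HasLower α i) (hdeg : ∀ p : α, (bd i p).card ≤ 2) :
    ∃ Q : AA, ∑ q ∈ D2 α i, VQ i q + qA * ∑ u ∈ U2 α i, Ev wA (WT i {u} 0) =
      wA * ∑ u ∈ U4 α i, (ZA ^ 3 + sgn i u * ZA ^ 4) *
          Ev wA ((∏ y ∈ BB i u, MvPolynomial.X y) * rsK i 0 u) + wA ^ 2 * Q := by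
  have k1 : ∀ u : α, ∃ Q : AA, u ∈ U2 α i → qA * Ev wA (WT i {u} 0) + VQ i u =
      wA * (if (BB i u).card = 4 then (ZA ^ 3 + sgn i u * ZA ^ 4) *
          Ev wA ((∏ y ∈ BB i u, MvPolynomial.X y) * rsK i 0 u) else 0) + wA ^ 2 * Q := by
    intro u
    by_cases hu : u ∈ U2 α i
    · have hu' := mem_U2.1 hu
      have k1 := obj_two hg hl hdeg hu'.1 hu'.2
      by_cases h4 : (BB i u).card = 4
      · obtain ⟨Q1, hQ1⟩ := PQ_mod (i := i) u hu'.2
        obtain ⟨H, hH⟩ := Ev_obj_mod (i := i) u (BB i u) (R := rsK i 0 u) (R' := rsK i 0 u)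
          (by rw [sub_self]; exact dvd_zero _)
        have h5 : (∏ p ∈ N1 α i \ bd i u, GA i 0 p) = rsK i 0 u := rfl
        have h9 := sgn_pow_four (i := i) u
        rw [h4] at k1 hH
        rw [h9, one_mul] at hH
        rw [h5, hH, hQ1] at k1
        set V := Ev wA ((∏ y ∈ BB i u, MvPolynomial.X y) * rsK i 0 u)
        refine ⟨(if corank u < i then (2 * ZA ^ 3 - ZA ^ 4) else 0) * (V + wA * H) +
          wA * Q1 * (V + wA * H) + (ZA ^ 3 + sgn i u * ZA ^ 4) * H, fun _ => ?_⟩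
        rw [k1, if_pos h4]
        have h10 : wA ^ (5 - 4) = wA := by norm_num
        rw [h10]
        by_cases h11 : corank u < i
        · rw [if_pos h11, if_pos h11]
          ring
        · rw [if_neg h11, if_neg h11]
          ring
      · have h6 := card_BB_le4 hdeg u (i := i)
        have h7 : 5 - (BB i u).card = 2 + (3 - (BB i u).card) := by omega
        rw [h7, pow_add] at k1
        refine ⟨wA ^ (3 - (BB i u).card) * PQ i u *
          Ev wA ((∏ y ∈ BB i u, av i u y) * ∏ p ∈ N1 α i \ bd i u, GA i 0 p), fun _ => ?_⟩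
        rw [k1, if_neg h4]
        ring
    · exact ⟨0, fun h => absurd h hu⟩
  choose Q4 hQ4 using k1
  have k2 : ∀ u : α, ∃ H : AA, u ∈ U1 α i → VQ i u = wA ^ 2 * H := by
    intro u
    by_cases hu : u ∈ U1 α i
    · obtain ⟨H, hH⟩ := VQ_single hg hl hdeg hu
      refine ⟨- ZA ^ 2 * Ev wA (forced (N1 α i) (EA i 0) (bd i u)) + wA * H, fun _ => ?_⟩
      rw [hH]
      have hq : qA = wA * ZA := rfl
      rw [hq]
      ring
    · exact ⟨0, fun h => absurd h hu⟩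
  choose Q5 hQ5 using k2
  refine ⟨∑ q ∈ U1 α i, Q5 q + ∑ q ∈ U2 α i, Q4 q, ?_⟩
  have a1 : ∑ q ∈ U1 α i, VQ i q = wA ^ 2 * ∑ q ∈ U1 α i, Q5 q := by
    rw [mul_sum]
    exact sum_congr rfl hQ5
  have a2 : qA * ∑ u ∈ U2 α i, Ev wA (WT i {u} 0) + ∑ u ∈ U2 α i, VQ i u =
      wA * ∑ u ∈ U4 α i, (ZA ^ 3 + sgn i u * ZA ^ 4) *
          Ev wA ((∏ y ∈ BB i u, MvPolynomial.X y) * rsK i 0 u) +
      wA ^ 2 * ∑ q ∈ U2 α i, Q4 q := by
    rw [mul_sum, ← sum_add_distrib, sum_congr rfl hQ4, sum_add_distrib, ← mul_sum, ← mul_sum]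
    unfold U4
    rw [sum_filter]
  have a3 : ∑ q ∈ D2 α i, VQ i q = ∑ q ∈ U1 α i, VQ i q + ∑ q ∈ U2 α i, VQ i q := by
    rw [D2_eq hg hl hdeg, sum_union U1_disj]
  rw [a3]
  linear_combination a1 + a2

lemma sum_split4 (S : Finset α) (a b c d : α → AA) (x y z : AA) :
    ∑ u ∈ S, (a u + x * (z * b u) + x * c u + y * d u) =
      ∑ u ∈ S, a u + x * (z * ∑ u ∈ S, b u) + x * ∑ u ∈ S, c u + y * ∑ u ∈ S, d u := by
  simp only [sum_add_distrib, mul_sum]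

/-- **the model modulo `w ^ 3` in all degrees**, with objects over four vertices -/
theorem exists_KNall4 {h : Fin (Fintype.card α) → ℕ} (hG : IsGaussianWith α h)
    (hl : HasLower α i) (hdeg : ∀ p : α, (bd i p).card ≤ 2) :
    ∃ KN : AA, Low KN ∧
      (∀ J, 8 ≤ J → ∃ R Q : AA, KN =
        Ev wA (∏ p ∈ N1 α i, (1 + MvPolynomial.C (lam i p) * EA i 0 p)) +
        qA * ∑ y ∈ lev α i,
          Ev wA (∏ p ∈ N1 α i, (1 + MvPolynomial.C (lam1 i p) * EA i (ind {y}) p)) +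
        qA ^ 2 * ∑ k ∈ KL α i 2, Ev wA (∏ p ∈ N1 α i, GA i k p) +
        wA * ∑ u ∈ U4 α i, PLa i u * Ev wA ((∏ y ∈ BB i u, av i u y) * rsL i u) +
        wA ^ 2 * ∑ u ∈ U3 α i, (sgn i u * ZA ^ 3 + ZA ^ 4) *
          Ev wA ((∏ y ∈ BB i u, MvPolynomial.X y) * rsK i 0 u) +
        wA ^ 2 * (ZA ^ 4 * ∑ u ∈ U2 α i, ∑ y ∈ (lev α i).filter (fun y => ObY i u y),
          Ev wA ((∏ t ∈ (BB i u).erase y, MvPolynomial.X t) * rsK i (ind {y}) u)) +
        wA ^ 2 * (ZA ^ 5 * ∑ u ∈ U4 α i, sgn i u * ∑ y ∈ (lev α i).filter (fun y => y ∉ BB i u),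
          Ev wA ((∏ t ∈ BB i u, MvPolynomial.X t) * rsK i (ind {y}) u)) +
        wA ^ 2 * ∑ T ∈ TP α i, ZA ^ (2 + (T.biUnion (bd i)).card) *
          (∏ p ∈ T.biUnion (bd i), sgn i p) * VA i (T.biUnion (bd i)) +
        wA ^ 2 * ∑ u ∈ U4 α i, ∑ t ∈ (U2 α i).filter (fun r => RX4 i u r), prT i u t +
        wA ^ 2 * ∑ T ∈ PX4 α i, ZA ^ 8 * (∏ q ∈ T, sgn i q) * VA i (T.biUnion (bd i)) +
        ZA ^ (J + 1) * R + wA ^ 3 * Q) ∧
      (∀ J, 4 ≤ J → ∃ R Q : AA, KN =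
        Ev wA (∏ p ∈ N1 α i, (1 + MvPolynomial.C (lam1 i p) * EA i 0 p)) +
        qA * ∑ y ∈ lev α i, Ev wA (∏ p ∈ N1 α i, GA i (ind {y}) p) +
        wA * ∑ u ∈ U4 α i, (ZA ^ 3 + sgn i u * ZA ^ 4) *
          Ev wA ((∏ y ∈ BB i u, MvPolynomial.X y) * rsK i 0 u) +
        ZA ^ (J + 1) * R + wA ^ 2 * Q) := by
  have hg := grad hG
  obtain ⟨KN, h1, h2⟩ := exists_KN01 hG hl hdeg
  have hVQ : ∑ q ∈ D2 α i, VN i (cfQ i q) = ∑ q ∈ D2 α i, VQ i q := by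
    apply sum_congr rfl
    intro q hq
    exact VN_cfQ hg hl (mem_D2.1 hq)
  refine ⟨KN, h1, fun J hJ => ?_, fun J hJ => ?_⟩
  · obtain ⟨Q1, f1⟩ := sum_obj4 hg hl hdeg (i := i)
    obtain ⟨Q3, f2⟩ := sum_pair01 hg hl hdeg (i := i)
    obtain ⟨QM, hQM⟩ := res_model hg hl hdeg (i := i)
    obtain ⟨R, hR⟩ := h2 J
    obtain ⟨Q, hQ⟩ := far2_part4 hg hl hdeg (i := i) hJ
    obtain ⟨Q', hQ'⟩ := sum_E01_split (α := α) (i := i) 3 (J + 1) (by omega)
    have hR' : KN = ∑ s ∈ range (J + 1), ∑ e ∈ E01 α i s, qA ^ s * Ev wA (WA i e) +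
        ∑ s ∈ range (J + 1), ∑ ε ∈ (RG α i s).filter (fun ε => ¬ F1 i ε), VN i ε +
        ZA ^ (J + 1) * R := hR
    -- the values of `cfX` and `cfX2`
    have g1 : ∀ u : α, ∃ Q : AA, u ∈ U4 α i → ∑ t ∈ TX i u, VN i (cfX i u t) =
        (wA ^ 2 * (ZA ^ 5 * sgn i u * ((Gq i u).card - 1) * VA i (bd i u)) +
        wA ^ 2 * ∑ p ∈ N1 α i, ((ch i p).card : AA) * tchi i u p) +
        wA ^ 2 * (ZA ^ 5 * (sgn i u * ∑ y ∈ (lev α i).filter (fun y => y ∉ BB i u),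
          Ev wA ((∏ t ∈ BB i u, MvPolynomial.X t) * rsK i (ind {y}) u))) +
        wA ^ 2 * ∑ t ∈ (U2 α i).filter (fun r => RX4 i u r), prT i u t + wA ^ 3 * Q := by
      intro u
      by_cases hu : u ∈ U4 α i
      · obtain ⟨Q, hQ⟩ := sum_cfX_u hg hl hdeg hu
        refine ⟨Q, fun _ => ?_⟩
        rw [hQ, sum_U1_RX4 hg hu]
        ring
      · exact ⟨0, fun h => absurd h hu⟩
    choose QX hQX using g1
    have g2 : ∀ T : Finset α, ∃ H : AA, T ∈ PX4 α i → VN i (cfX2 i T) =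
        wA ^ 2 * (ZA ^ 8 * (∏ q ∈ T, sgn i q) * VA i (T.biUnion (bd i))) + wA ^ 3 * H := by
      intro T
      by_cases hT : T ∈ PX4 α i
      · obtain ⟨H, hH⟩ := VN_cfX2 hg hl hdeg hT
        exact ⟨H, fun _ => hH⟩
      · exact ⟨0, fun h => absurd h hT⟩
    choose QT hQT using g2
    have hX : ∑ u ∈ U4 α i, ∑ t ∈ TX i u, VN i (cfX i u t) =
        ∑ u ∈ U4 α i, (wA ^ 2 * (ZA ^ 5 * sgn i u * ((Gq i u).card - 1) * VA i (bd i u)) +
          wA ^ 2 * ∑ p ∈ N1 α i, ((ch i p).card : AA) * tchi i u p) +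
        wA ^ 2 * (ZA ^ 5 * ∑ u ∈ U4 α i, sgn i u * ∑ y ∈ (lev α i).filter (fun y => y ∉ BB i u),
          Ev wA ((∏ t ∈ BB i u, MvPolynomial.X t) * rsK i (ind {y}) u)) +
        wA ^ 2 * ∑ u ∈ U4 α i, ∑ t ∈ (U2 α i).filter (fun r => RX4 i u r), prT i u t +
        wA ^ 3 * ∑ u ∈ U4 α i, QX u := by
      rw [sum_congr rfl hQX]
      exact sum_split4 (α := α) _ _ _ _ _ _ _ _
    have hTT : ∑ T ∈ PX4 α i, VN i (cfX2 i T) =
        wA ^ 2 * ∑ T ∈ PX4 α i, ZA ^ 8 * (∏ q ∈ T, sgn i q) * VA i (T.biUnion (bd i)) +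
        wA ^ 3 * ∑ T ∈ PX4 α i, QT T := by
      rw [sum_congr rfl hQT, sum_add_distrib, ← mul_sum, ← mul_sum]
    rw [hQ, hVQ, hQ'] at hR'
    refine ⟨R, Q + Q' + QM + Q1 + Q3 + ∑ u ∈ U4 α i, QX u + ∑ T ∈ PX4 α i, QT T, ?_⟩
    linear_combination hR' + hX + hTT + hQM + f1 + f2
  · obtain ⟨R, hR⟩ := h2 J
    obtain ⟨Q, hQ⟩ := far2_part2 hg hl hdeg (i := i) hJ
    obtain ⟨Q', hQ'⟩ := sum_E01_split (α := α) (i := i) 2 (J + 1) (by omega)
    have hR' : KN = ∑ s ∈ range (J + 1), ∑ e ∈ E01 α i s, qA ^ s * Ev wA (WA i e) +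
        ∑ s ∈ range (J + 1), ∑ ε ∈ (RG α i s).filter (fun ε => ¬ F1 i ε), VN i ε +
        ZA ^ (J + 1) * R := hR
    rw [hQ, hVQ, hQ'] at hR'
    obtain ⟨e0, e1, e2⟩ := sum_E01_explicit hg hl (i := i)
    rw [Finset.sum_range_succ, Finset.sum_range_one, ← mul_sum, ← mul_sum, e0, e1] at hR'
    obtain ⟨H2, hH2⟩ := res2 hg hl hdeg (i := i) 0
    obtain ⟨Q5, k3⟩ := sum_D2_twoU4 hg hl hdeg (i := i)
    have k4 : ∑ y ∈ lev α i, Ev wA (WT i (∅ : Finset α) (ind {y})) =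
        ∑ y ∈ lev α i, Ev wA (∏ p ∈ N1 α i, GA i (ind {y}) p) :=
      sum_congr rfl fun y _ => by rw [WT_empty]
    rw [k4] at hR'
    have hq : qA = wA * ZA := rfl
    refine ⟨R, Q + Q' + Q5 + ZA ^ 2 * H2, ?_⟩
    have h12 : qA ^ 2 = wA ^ 2 * ZA ^ 2 := by rw [hq, mul_pow]
    linear_combination hR' + hH2 + k3 + H2 * h12

end Pool.Gauss
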