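import Pool.Agent.Work.MP_065141_co.K.PlnV5
import Pool.Agent.Work.MP_065141_co.K.LeadM

/-!
# The first imperfect row in coordinates

All rows `< j + 1` are perfect, `Pln lo hi (j + 1) f`.

* `new_pair`: a new pair of row `j + 1` consists of two elements with one upper cover, or it is a
  doubled pair;
* `lost_pair`: a lost pair is a pair of neighbours of a strip;
* `scn y` = number of lower covers of `y` with one upper cover; `card_Ch_eq`: `|Ch y| = bC y + scn y`;
  `scn_eq_nP`: for an element with two upper covers it is the number of P-events at base `j`;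
* `sse_coord`: without SSE, a P-event over a pair of neighbours sits at the end of the strip.
-/

set_option autoImplicit false
set_option linter.unusedSectionVars false
open scoped Classical
open Finset

namespace Pool.Gauss

variable {α : Type} [Fintype α] [PartialOrder α]

/-- the number of lower covers with one upper cover -/
noncomputable def scn (y : α) : ℕ := ((Ch y).filter fun x => (Pr x).card = 1).card

namespace CtxK

variable (C : CtxK α)
include C

/-- a pair with a common upper cover is counted by `mD` -/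
lemma mD_pos_of_common {i : ℕ} {s t y : α} (hst : s ≠ t) (hs : corank s = i) (h1 : y ∈ Pr s)
    (h2 : y ∈ Pr t) : 0 < mD i {s, t} := by
  have h3 : corank s = corank y + 1 := C.corank_of_mem_Pr h1
  have h4 : ({s, t} : Finset α) ⊆ Ch y := by
    intro u hu
    rw [mem_insert, mem_singleton] at hu
    rcases hu with rfl | rfl
    · exact mem_Pr_iff.1 h1
    · exact mem_Pr_iff.1 h2
  have h5 : ({s, t} : Finset α) = Ch y := by
    apply eq_of_subset_of_card_le h4
    rw [card_pair hst]
    exact C.ch_le y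
  unfold mD
  rw [card_pos]
  exact ⟨y, mem_filter.2 ⟨mem_lev'.2 (by omega), h5.symm⟩⟩

/-- number of lower covers -/
lemma card_Ch_eq (y : α) : (Ch y).card = bC y + scn y := by
  unfold bC scn
  rw [← card_union_of_disjoint]
  · congr 1
    ext x
    rw [mem_union, mem_filter, mem_filter]
    constructor
    · intro hx
      have h1 := C.corank_of_mem_Ch hx
      rcases C.pr_cases (x := x) (by omega) with h2 | h2
      · exact Or.inr ⟨hx, h2⟩
      · exact Or.inl ⟨hx, h2⟩
    · rintro (⟨h1, _⟩ | ⟨h1, _⟩) <;> exact h1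
  · rw [Finset.disjoint_left]
    intro x h1 h2
    rw [mem_filter] at h1 h2
    omega

/-- all single elements of row `i + 1`, counted by their upper cover -/
lemma sum_scn (i : ℕ) : ∑ y ∈ lev α i, scn y =
    ((lev α (i + 1)).filter fun x => (Pr x).card = 1).card := by
  unfold scn
  rw [← card_biUnion]
  · congr 1
    ext x
    rw [mem_biUnion, mem_filter, mem_lev]
    constructor
    · rintro ⟨y, hy, hx⟩
      rw [mem_lev] at hy
      rw [mem_filter] at hx
      have := C.corank_of_mem_Ch hx.1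
      exact ⟨by omega, hx.2⟩
    · rintro ⟨h1, h2⟩
      obtain ⟨y, hy⟩ := card_eq_one.1 h2
      have h3 : y ∈ Pr x := by rw [hy]; simp
      have h4 := C.corank_of_mem_Pr h3
      exact ⟨y, mem_lev.2 (by omega), mem_filter.2 ⟨mem_Pr_iff.1 h3, h2⟩⟩
  · intro y _ y' _ hne
    rw [Function.onFun, Finset.disjoint_left]
    intro x h1 h2
    rw [mem_filter] at h1 h2
    obtain ⟨z, hz⟩ := card_eq_one.1 h1.2
    have h3 : y ∈ Pr x := mem_Pr_iff.2 h1.1
    have h4 : y' ∈ Pr x := mem_Pr_iff.2 h2.1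
    rw [hz, mem_singleton] at h3 h4
    exact hne (h3.trans h4.symm)

end CtxK

namespace Pln

variable {lo hi : α → ℕ → ℕ} {j : ℕ} {f : α → ℕ → ℕ → α}

/-- **new pairs of the first imperfect row** -/
theorem new_pair (h : Pln lo hi (j + 1) f) (C : CtxK α) (hiH : j + 1 ≤ HT α)
    (hP : ∀ r < j + 1, Perf α r) {g : Finset α} (hg : g.card = 2)
    (hm : mD (j + 1) g < mC (j + 1) g) :
    (mD (j + 1) g = 0 ∧ ∀ y ∈ g, (Pr y).card = 1) ∨ (mD (j + 1) g = 1 ∧ mC (j + 1) g = 2) := by
  rcases Nat.eq_zero_or_pos (mD (j + 1) g) with h0 | h0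
  · left
    refine ⟨h0, ?_⟩
    have h1 : 0 < mC (j + 1) g := by omega
    unfold mC at h1
    obtain ⟨x, hx⟩ := card_pos.1 h1
    rw [mem_filter, mem_lev] at hx
    obtain ⟨hx1, hx2⟩ := hx
    obtain ⟨s, t, hst, rfl⟩ := card_eq_two.1 hg
    have hs : corank s = j + 1 := by
      have := C.corank_of_mem_Pr (x := x) (y := s) (by rw [hx2]; simp)
      omega
    have ht : corank t = j + 1 := by
      have := C.corank_of_mem_Pr (x := x) (y := t) (by rw [hx2]; simp)
      omega
    have hdis : Disjoint (Pr s) (Pr t) := by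
      rw [Finset.disjoint_left]
      intro y h1 h2
      have := C.mD_pos_of_common hst hs h1 h2
      omega
    have h2 : (Pr2 x).card = (Pr s).card + (Pr t).card := by
      unfold Pr2
      rw [hx2, ← card_union_of_disjoint hdis]
      congr 1
      ext y
      rw [mem_biUnion, mem_union]
      constructor
      · rintro ⟨u, hu, hy⟩
        rw [mem_insert, mem_singleton] at hu
        rcases hu with rfl | rfl
        · exact Or.inl hy
        · exact Or.inr hy
      · rintro (hy | hy)
        · exact ⟨s, by simp, hy⟩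
        · exact ⟨t, by simp, hy⟩
    have h3 : (Pr2 x).card ≤ 3 := by
      have := C.P3_dn (i := j) (by omega) (hP j (by omega)) (w := x) (by omega)
        (by rw [hx2]; exact hg)
      exact this
    have h4 := h.Pr2_three C hiH hP (b := j) (by omega) (x := x) (by omega)
      (by rw [hx2]; exact hg)
    rw [hx2] at h4
    have hs1 := C.pr_cases (x := s) (by omega)
    have ht1 := C.pr_cases (x := t) (by omega)
    intro y hy
    have hy' := hy
    rw [mem_insert, mem_singleton] at hy'
    by_cases h5 : (Pr2 x).card = 3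
    · have h6 := h4 h5 s (by simp)
      have h7 := h4 h5 t (by simp)
      omega
    · rcases hy' with rfl | rfl <;> omega
  · right
    obtain ⟨a, c, ha, h1, h2, rfl⟩ := h.mD_pos C hg h0
    have h3 := h.mD_one C ha h1 h2
    refine ⟨h3, ?_⟩
    have h4 : mC (j + 1) {f a (j + 1) c, f a (j + 1) (c + 1)} ≤ 2 := by
      unfold mC
      refine le_trans (card_le_card ?_) (C.ch_le (f a (j + 1) c))
      intro x hx
      rw [mem_filter] at hx
      rw [← mem_Pr_iff, hx.2]
      simp
    omega

/-- the elements of a new pair in coordinates -/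
theorem new_tip (h : Pln lo hi (j + 1) f) {y : α} (hy : corank y = j + 1)
    (h1 : (Pr y).card = 1) : ∃ a, corank a = 0 ∧
      ((lo a (j + 1) = lo a j ∧ y = f a (j + 1) (lo a (j + 1))) ∨
        (hi a (j + 1) = hi a j + 1 ∧ y = f a (j + 1) (hi a (j + 1)))) := by
  obtain ⟨a, c, ha, h2, h3, rfl⟩ := h.sur' (r := j + 1) le_rfl hy
  refine ⟨a, ha, ?_⟩
  rcases h.tip_of_single ha (by omega) h2 h3 h1 with ⟨e1, e2⟩ | ⟨e1, e2⟩
  · left
    exact ⟨by omega, by rw [e2]⟩
  · right
    exact ⟨by omega, by rw [e2]⟩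

/-- **lost pairs of a row** -/
theorem lost_pair (h : Pln lo hi (j + 1) f) (C : CtxK α) {g : Finset α} (hg : g.card = 2)
    (hm : mC (j + 1) g < mD (j + 1) g) : ∃ a c, corank a = 0 ∧ lo a (j + 1) ≤ c ∧
      c + 1 ≤ hi a (j + 1) ∧ g = pr2 f (j + 1) a c ∧ mC (j + 1) g = 0 ∧ mD (j + 1) g = 1 := by
  obtain ⟨a, c, ha, h1, h2, rfl⟩ := h.mD_pos C hg (by omega)
  have h3 := h.mD_one C ha h1 h2
  exact ⟨a, c, ha, h1, h2, rfl, by omega, h3⟩

/-- the weight of a pair -/
theorem Wt_cases (h : Pln lo hi (j + 1) f) (C : CtxK α) (hiH : j + 1 ≤ HT α)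
    (hP : ∀ r < j + 1, Perf α r) {g : Finset α} (hg : g.card = 2) (hW : Wt (j + 1) g ≠ 0) :
    (0 < Wt (j + 1) g ∧ Wt (j + 1) g ≤ 2 ∧ mD (j + 1) g = 0 ∧ ∀ y ∈ g, (Pr y).card = 1) ∨
      (Wt (j + 1) g = 1 ∧ mD (j + 1) g = 1 ∧ mC (j + 1) g = 2) ∨
      (Wt (j + 1) g = -1 ∧ mD (j + 1) g = 1 ∧ mC (j + 1) g = 0) := by
  unfold Wt at hW ⊢
  rcases Nat.lt_trichotomy (mC (j + 1) g) (mD (j + 1) g) with h1 | h1 | h1
  · right
    right
    obtain ⟨a, c, _, _, _, _, h2, h3⟩ := h.lost_pair C hg h1
    exact ⟨by omega, h3, h2⟩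
  · omega
  · rcases h.new_pair C hiH hP hg h1 with ⟨h2, h3⟩ | ⟨h2, h3⟩
    · left
      have h4 : mC (j + 1) g ≤ 2 := by
        obtain ⟨s, t, hst, rfl⟩ := card_eq_two.1 hg
        unfold mC
        refine le_trans (card_le_card ?_) (C.ch_le s)
        intro x hx
        rw [mem_filter] at hx
        rw [← mem_Pr_iff, hx.2]
        simp
      exact ⟨by omega, by omega, h2, h3⟩
    · right
      left
      exact ⟨by omega, h2, h3⟩

/-- the single lower covers of an element with two upper covers are the P-events one row above -/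
theorem scn_eq_nP (h : Pln lo hi (j + 1) f) (C : CtxK α) {a : α} {c : ℕ} (ha : corank a = 0)
    (h1 : lo a j ≤ c) (h2 : c + 1 ≤ hi a j) : scn (f a (j + 1) (c + 1)) = nP f j a c := by
  have h3 := h.loS a j ha (by omega)
  have h4 := h.hiS a j ha (by omega)
  have hcor := h.cor a (j + 1) (c + 1) ha le_rfl (by omega) (by omega)
  have hPr := h.Pr_mid ha (r := j) (by omega) h1 h2
  unfold scn nP
  congr 1
  ext w
  rw [mem_filter, mem_filter]
  constructor
  · rintro ⟨h5, h6⟩
    have h7 := C.corank_of_mem_Ch h5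
    obtain ⟨x, hx⟩ := card_eq_one.1 h6
    have h8 : f a (j + 1) (c + 1) ∈ Pr w := mem_Pr_iff.2 h5
    rw [hx, mem_singleton] at h8
    have h9 : Pr2 w = pr2 f j a c := by
      rw [Pr2_of_single hx, ← h8, hPr]
      rfl
    refine ⟨mem_PEv.2 ⟨by omega, h6, ?_⟩, h9⟩
    rw [h9]
    exact h.card_pr2 (by omega) ha h1 h2
  · rintro ⟨h5, h6⟩
    obtain ⟨p, hp, h7, h8⟩ := h.PEv_pr C (by omega) h5
    have hpc : (a, c) ∈ prs lo hi j := mem_prs.2 ⟨ha, h1, h2⟩
    have h9 := h.pr2_inj (b := j) (by omega) hp hpc (by rw [← h8, h6])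
    subst h9
    rw [mem_PEv] at h5
    refine ⟨?_, h5.2.1⟩
    rw [← mem_Pr_iff, h7]
    simp

/-- elements of row `j + 1` with two upper covers in coordinates -/
lemma dbl_coord (h : Pln lo hi (j + 1) f) {y : α} (hy : corank y = j + 1)
    (h1 : (Pr y).card = 2) : ∃ a c, corank a = 0 ∧ lo a j ≤ c ∧ c + 1 ≤ hi a j ∧
      y = f a (j + 1) (c + 1) ∧ Pr y = pr2 f j a c := by
  obtain ⟨a, c, ha, h2, h3, rfl⟩ := h.sur' (r := j + 1) le_rfl hy
  rcases h.Pr_cases ha (r := j) (by omega) h2 h3 with ⟨e1, e2⟩ | ⟨e1, e2⟩ | ⟨e1, e1', e2⟩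
  · rw [e2, card_singleton] at h1
    omega
  · rw [e2, card_singleton] at h1
    omega
  · refine ⟨a, c - 1, ha, by omega, by omega, ?_, ?_⟩
    · rw [show c - 1 + 1 = c by omega]
    · rw [e2]
      unfold pr2
      rw [show c - 1 + 1 = c by omega]

/-- with `HH = 0` at base `j`: number of single lower covers in letters (`2 ≤ j`) -/
theorem scn_eq_letters (h : Pln lo hi (j + 3) f) (C : CtxK α) {a : α} {c : ℕ} (ha : corank a = 0)
    (h1 : lo a (j + 2) ≤ c) (h2 : c + 1 ≤ hi a (j + 2)) (hH : HH f (j + 2) a c = 0) :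
    scn (f a (j + 3) (c + 1)) = (if c = lo a (j + 2) ∧ lSE lo j a then 1 else 0) +
      (if c + 1 = hi a (j + 2) ∧ rSE hi j a then 1 else 0) := by
  have h3 : scn (f a (j + 3) (c + 1)) = nP f (j + 2) a c := h.scn_eq_nP C ha h1 h2
  rw [h3, ← h.nQ_eq C ha (by omega) h1 h2]
  unfold HH at hH
  omega

/-- with `HH = 0` at base `j < 2`: no single lower covers -/
theorem scn_eq_zero (h : Pln lo hi (j + 1) f) (C : CtxK α) (hj : j < 2) {a : α} {c : ℕ}
    (ha : corank a = 0) (h1 : lo a j ≤ c) (h2 : c + 1 ≤ hi a j) (hH : HH f j a c = 0) :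
    scn (f a (j + 1) (c + 1)) = 0 := by
  rw [h.scn_eq_nP C ha h1 h2]
  unfold HH at hH
  rw [nQ_zero hj] at hH
  omega

/-! ### P-events at the first imperfect row -/

/-- **no SSE in coordinates**: a single element below a pair of neighbours of row `j + 1` -/
theorem sse_coord (h : Pln lo hi (j + 1) f) {v X a : α} {c : ℕ}
    (hv : Pr v = {X}) (hX : Pr X = pr2 f (j + 1) a c) (ha : corank a = 0)
    (h1 : lo a (j + 1) ≤ c) (h2 : c + 1 ≤ hi a (j + 1))
    (hs : ∃ y ∈ Pr2 v, (Pr y).card = 1) :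
    (lo a (j + 1) = lo a j ∧ c = lo a (j + 1)) ∨
      (hi a (j + 1) = hi a j + 1 ∧ c + 1 = hi a (j + 1)) := by
  have h3 := h.loS a j ha (by omega)
  have h4 := h.hiS a j ha (by omega)
  have h5 := h.le a j ha (by omega)
  obtain ⟨y, hy, hy1⟩ := hs
  rw [Pr2_of_single hv, hX, mem_pr2] at hy
  rcases hy with rfl | rfl
  · rw [h.card_Pr ha (by omega) h1 (by omega)] at hy1
    split_ifs at hy1 <;> omega
  · rw [h.card_Pr ha (by omega) (by omega) h2] at hy1
    split_ifs at hy1 <;> omega

end Pln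

end Pool.Gauss
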