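import Pool.Agent.Work.MP_065141_co.Engine4

/-!
# The engine with leading coefficients

`lcv m ε N` is the coefficient of `X ^ (number of peaks of ε)` in the partial sum over the energies
of total `N` on the set of summation `rst ε`.  Up to the sign `(-1) ^ (number of In elements)` it
depends only on `rst ε` and on the values and the set of frozen (In or Out) elements of level `i`
next to `rst ε`.
-/

set_option autoImplicit false
set_option linter.unusedSectionVars false
open scoped Classical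
open Finset Polynomial

namespace Pool.Gauss

variable {α : Type} [Fintype α] [PartialOrder α] {i : ℕ}

/-! ### the leading functional -/

/-- the leading functional with free variables in `G` -/
noncomputable def Lf (G : Finset α) (P : MvPolynomial α ℤ[X]) : ℤ :=
  ∑ d ∈ P.support, (P.coeff d).eval 0 * ((∏ y, (-1 : ℤ) ^ d y) * ∏ y ∈ G, ((d y : ℤ) + 1))

lemma factor_lead (g : ℕ) : ∃ c : ℤ[X], (X - 1) * (X - 1) ^ g + (-1) ^ g = X * c ∧
    c.eval 0 = (-1) ^ g * ((g : ℤ) + 1) := by
  refine ⟨∑ j ∈ range (g + 1), (X - 1) ^ j * (-1) ^ (g + 1 - 1 - j), ?_, ?_⟩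
  · have h1 := geom_sum₂_mul ((X : ℤ[X]) - 1) (-1) (g + 1)
    have h2 : ((X : ℤ[X]) - 1 - (-1)) = X := by ring
    rw [h2] at h1
    rw [mul_comm X, h1]
    ring
  · rw [eval_finsetSum]
    have h1 : ∀ j ∈ range (g + 1), eval 0 (((X : ℤ[X]) - 1) ^ j * (-1) ^ (g + 1 - 1 - j)) =
        (-1) ^ g := by
      intro j hj
      rw [mem_range] at hj
      simp only [eval_mul, eval_pow, eval_sub, eval_X, eval_one, eval_neg, zero_sub]
      rw [← pow_add]
      congr 1
      omega
    rw [Finset.sum_congr rfl h1, sum_const, card_range]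
    push_cast
    rw [nsmul_eq_mul]
    push_cast
    ring

/-- the leading coefficient of a sum of polynomials in `φ` -/
theorem sum_EV_lead (P : MvPolynomial α ℤ[X]) (Y : Finset α) (a b : α → Prop)
    (hab : ∀ y ∈ Y, ¬ (a y ∧ b y)) :
    ∃ Q : ℤ[X], (∑ S ∈ Y.powerset,
      if (∀ y ∈ S, ¬ b y) ∧ (∀ y ∈ Y \ S, ¬ a y) then (X - 1) ^ S.card * EV S P else 0) =
      X ^ (Y.filter fun y => ¬ a y ∧ ¬ b y).card * Q ∧
      Q.eval 0 = (-1) ^ (Y.filter fun y => a y).card *
        Lf (Y.filter fun y => ¬ a y ∧ ¬ b y) P := by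
  have h1 : (∑ S ∈ Y.powerset,
      if (∀ y ∈ S, ¬ b y) ∧ (∀ y ∈ Y \ S, ¬ a y) then (X - 1) ^ S.card * EV S P else 0) =
      ∑ d ∈ P.support, (P.coeff d * ∏ y ∈ Yᶜ, (-1) ^ d y) * ∑ S ∈ Y.powerset,
      if (∀ y ∈ S, ¬ b y) ∧ (∀ y ∈ Y \ S, ¬ a y) then
        (X - 1) ^ S.card * ∏ y ∈ Y, phi S y ^ d y else (0 : ℤ[X]) := by
    simp_rw [Finset.mul_sum]
    rw [Finset.sum_comm]
    apply Finset.sum_congr rfl
    intro S hS
    rw [mem_powerset] at hS
    split_ifs with h
    · unfold EV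
      rw [MvPolynomial.eval_eq', Finset.mul_sum]
      apply Finset.sum_congr rfl
      intro d _
      rw [← Finset.prod_compl_mul_prod Y]
      have h2 : ∏ y ∈ Yᶜ, phi S y ^ d y = ∏ y ∈ Yᶜ, (-1) ^ d y := by
        apply Finset.prod_congr rfl
        intro y hy
        rw [mem_compl] at hy
        have : y ∉ S := fun h => hy (hS h)
        simp [phi, this]
      rw [h2]
      ring
    · simp
  have h2 : ∀ d : α →₀ ℕ, (∑ S ∈ Y.powerset,
      if (∀ y ∈ S, ¬ b y) ∧ (∀ y ∈ Y \ S, ¬ a y) then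
        (X - 1) ^ S.card * ∏ y ∈ Y, phi S y ^ d y else (0 : ℤ[X])) =
      ∏ y ∈ Y, ((if b y then 0 else (X - 1) * (X - 1) ^ d y) + (if a y then 0 else (-1) ^ d y)) := by
    intro d
    rw [Finset.prod_add]
    apply Finset.sum_congr rfl
    intro S hS
    rw [mem_powerset] at hS
    have h3 : ∏ y ∈ S, (if b y then (0 : ℤ[X]) else (X - 1) * (X - 1) ^ d y) =
        if ∀ y ∈ S, ¬ b y then ∏ y ∈ S, ((X - 1) * (X - 1) ^ d y) else 0 := by
      refine Eq.trans ?_ (prod_ite_zero' S (fun y => ¬ b y) _)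
      apply Finset.prod_congr rfl
      intro y _
      by_cases h : b y <;> simp [h]
    have h4 : ∏ y ∈ Y \ S, (if a y then (0 : ℤ[X]) else (-1) ^ d y) =
        if ∀ y ∈ Y \ S, ¬ a y then ∏ y ∈ Y \ S, (-1) ^ d y else 0 := by
      refine Eq.trans ?_ (prod_ite_zero' (Y \ S) (fun y => ¬ a y) _)
      apply Finset.prod_congr rfl
      intro y _
      by_cases h : a y <;> simp [h]
    have h5 : ∏ y ∈ Y, phi S y ^ d y =
        (∏ y ∈ S, (X - 1) ^ d y) * ∏ y ∈ Y \ S, (-1) ^ d y := by
      rw [← Finset.prod_sdiff hS, mul_comm]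
      congr 1
      · apply Finset.prod_congr rfl
        intro y hy
        simp [phi, hy]
      · apply Finset.prod_congr rfl
        intro y hy
        rw [mem_sdiff] at hy
        simp [phi, hy.2]
    rw [h3, h4, h5]
    by_cases h6 : ∀ y ∈ S, ¬ b y <;> by_cases h7 : ∀ y ∈ Y \ S, ¬ a y
    · rw [if_pos h6, if_pos h7, if_pos ⟨h6, h7⟩, Finset.prod_mul_distrib, prod_const]
      ring
    · rw [if_neg h7, if_neg (fun h => h7 h.2), mul_zero]
    · rw [if_neg h6, if_neg (fun h => h6 h.1), zero_mul]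
    · rw [if_neg h6, if_neg (fun h => h6 h.1), zero_mul]
  -- each factor
  have h3 : ∀ (g : ℕ), ∃ c : ℤ[X], (X - 1) * (X - 1) ^ g + (-1) ^ g = X * c ∧
    c.eval 0 = (-1) ^ g * ((g : ℤ) + 1) := factor_lead
  choose c hc1 hc2 using h3
  have h4 : ∀ d : α →₀ ℕ, (∏ y ∈ Y, ((if b y then 0 else (X - 1) * (X - 1) ^ d y) +
      (if a y then 0 else (-1) ^ d y))) = X ^ (Y.filter fun y => ¬ a y ∧ ¬ b y).card *
        ∏ y ∈ Y, (if ¬ a y ∧ ¬ b y then c (d y) else if a y then (X - 1) * (X - 1) ^ d y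
          else (-1) ^ d y) := by
    intro d
    have h5 : ∀ y ∈ Y, ((if b y then 0 else (X - 1) * (X - 1) ^ d y) +
        (if a y then 0 else (-1) ^ d y)) = (if ¬ a y ∧ ¬ b y then X else 1) *
        (if ¬ a y ∧ ¬ b y then c (d y) else if a y then (X - 1) * (X - 1) ^ d y
          else (-1) ^ d y) := by
      intro y hy
      have h6 := hab y hy
      by_cases ha : a y <;> by_cases hb : b y
      · exact absurd ⟨ha, hb⟩ h6
      · simp [ha, hb]
      · simp [ha, hb]
      · rw [if_neg hb, if_neg ha, if_pos ⟨ha, hb⟩, if_pos ⟨ha, hb⟩]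
        exact hc1 (d y)
    rw [Finset.prod_congr rfl h5, Finset.prod_mul_distrib]
    congr 1
    rw [← Finset.prod_filter, prod_const]
  refine ⟨∑ d ∈ P.support, (P.coeff d * ∏ y ∈ Yᶜ, (-1) ^ d y) *
      ∏ y ∈ Y, (if ¬ a y ∧ ¬ b y then c (d y) else if a y then (X - 1) * (X - 1) ^ d y
          else (-1) ^ d y), ?_, ?_⟩
  · rw [h1, Finset.mul_sum]
    apply Finset.sum_congr rfl
    intro d _
    rw [h2, h4]
    ring
  · rw [eval_finsetSum, Lf, Finset.mul_sum]
    apply Finset.sum_congr rfl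
    intro d _
    rw [eval_mul, eval_mul, eval_prod, eval_prod]
    have h5 : ∀ y ∈ Y, eval 0 (if ¬ a y ∧ ¬ b y then c (d y) else if a y then
        ((X : ℤ[X]) - 1) * (X - 1) ^ d y else (-1) ^ d y) =
        (if a y then -1 else 1) * ((-1) ^ d y * (if ¬ a y ∧ ¬ b y then ((d y : ℤ) + 1) else 1)) := by
      intro y hy
      by_cases ha : a y
      · rw [if_neg (fun h => h.1 ha), if_pos ha, if_pos ha, if_neg (fun h => h.1 ha)]
        simp
      · by_cases hb : b y
        · rw [if_neg (fun h => h.2 hb), if_neg ha, if_neg ha, if_neg (fun h => h.2 hb)]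
          simp
        · rw [if_pos ⟨ha, hb⟩, if_neg ha, if_pos ⟨ha, hb⟩, hc2]
          ring
    rw [Finset.prod_congr rfl h5, Finset.prod_mul_distrib, Finset.prod_mul_distrib,
      ← Finset.prod_filter, ← Finset.prod_filter, prod_const,
      ← Finset.prod_compl_mul_prod Y (fun y => (-1 : ℤ) ^ d y)]
    have h6 : ∏ y ∈ Yᶜ, eval 0 ((-1 : ℤ[X]) ^ d y) = ∏ y ∈ Yᶜ, (-1 : ℤ) ^ d y := by
      apply Finset.prod_congr rfl
      intro y _
      simp
    rw [h6]
    ring

/-! ### the partial sums -/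

/-- the elements of level `i` next to the set of summation -/
noncomputable def Mat.nbr (m : Mat α i) (ε : α → ℕ) : Finset α :=
  (lev α i).filter fun y => ∃ p ∈ m.rst ε, p ⋖ y ∨ y ⋖ p

/-- the factor of an element of the set of summation depends only on the values next to it -/
lemma Om_congr {k k' : α → ℕ} {S S' : Finset α} {p : α}
    (hp : corank p + 1 = i ∨ corank p = i + 1)
    (hk : ∀ y, p ⋖ y ∨ y ⋖ p → corank y = i → k y = k' y) (hS : ∀ y, p ⋖ y ∨ y ⋖ p →
      corank y = i → (y ∈ S ↔ y ∈ S')) (hg : Grad α) : Om i k S p = Om i k' S' p := by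
  funext a
  unfold Om
  by_cases h : corank p + 1 = i
  · rw [if_pos h, if_pos h]
    have h1 : ∀ y, y ⋖ p → corank y = i := by
      intro y hy
      have := hg y p hy
      omega
    have h2 : (∀ y, y ⋖ p → y ∈ S → a ≤ k y) ↔ (∀ y, y ⋖ p → y ∈ S' → a ≤ k' y) := by
      constructor
      · intro h3 y hy hy'
        rw [← hk y (Or.inr hy) (h1 y hy)]
        exact h3 y hy ((hS y (Or.inr hy) (h1 y hy)).2 hy')
      · intro h3 y hy hy'
        rw [hk y (Or.inr hy) (h1 y hy)]
        exact h3 y hy ((hS y (Or.inr hy) (h1 y hy)).1 hy')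
    have h3 : (∃ y, y ⋖ p ∧ a ≤ k y) ↔ (∃ y, y ⋖ p ∧ a ≤ k' y) := by
      constructor
      · rintro ⟨y, hy, h4⟩
        exact ⟨y, hy, by rw [← hk y (Or.inr hy) (h1 y hy)]; exact h4⟩
      · rintro ⟨y, hy, h4⟩
        exact ⟨y, hy, by rw [hk y (Or.inr hy) (h1 y hy)]; exact h4⟩
    unfold OmZ
    simp only [h2, h3]
  · rw [if_neg h, if_neg h]
    have h0 : corank p = i + 1 := by omega
    have h1 : ∀ y, p ⋖ y → corank y = i := by
      intro y hy
      have := hg p y hy
      omega
    have h2 : (∀ y, p ⋖ y → y ∉ S → a ≤ k y) ↔ (∀ y, p ⋖ y → y ∉ S' → a ≤ k' y) := by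
      constructor
      · intro h3 y hy hy'
        rw [← hk y (Or.inl hy) (h1 y hy)]
        exact h3 y hy (fun h4 => hy' ((hS y (Or.inl hy) (h1 y hy)).1 h4))
      · intro h3 y hy hy'
        rw [hk y (Or.inl hy) (h1 y hy)]
        exact h3 y hy (fun h4 => hy' ((hS y (Or.inl hy) (h1 y hy)).2 h4))
    have h3 : (∃ y, p ⋖ y ∧ a ≤ k y) ↔ (∃ y, p ⋖ y ∧ a ≤ k' y) := by
      constructor
      · rintro ⟨y, hy, h4⟩
        exact ⟨y, hy, by rw [← hk y (Or.inl hy) (h1 y hy)]; exact h4⟩
      · rintro ⟨y, hy, h4⟩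
        exact ⟨y, hy, by rw [hk y (Or.inl hy) (h1 y hy)]; exact h4⟩
    unfold OmX
    simp only [h2, h3]

/-- a sum over the subsets of level `i` of a function which only depends on the part in `Y` -/
lemma sum_split_lev {A : Type} [CommRing A] (L Y : Finset α) (hY : Y ⊆ L) (a b : α → Prop) (w : A)
    (g : Finset α → A) (hgY : ∀ S ⊆ L, g S = g (S ∩ Y)) :
    (∑ S ∈ L.powerset, if (∀ y ∈ S, ¬ b y) ∧ (∀ y ∈ L \ S, ¬ a y) then w ^ S.card * g S else 0) =
      (∑ S ∈ Y.powerset, if (∀ y ∈ S, ¬ b y) ∧ (∀ y ∈ Y \ S, ¬ a y) then w ^ S.card * g S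
        else 0) * ∏ y ∈ L \ Y, ((if b y then 0 else w) + (if a y then 0 else 1)) := by
  have h1 : ∏ y ∈ L \ Y, ((if b y then 0 else w) + (if a y then (0 : A) else 1)) =
      ∑ S ∈ (L \ Y).powerset, if (∀ y ∈ S, ¬ b y) ∧ (∀ y ∈ (L \ Y) \ S, ¬ a y) then w ^ S.card
        else 0 := by
    rw [Finset.prod_add]
    apply Finset.sum_congr rfl
    intro S hS
    have h3 : ∏ y ∈ S, (if b y then (0 : A) else w) =
        if ∀ y ∈ S, ¬ b y then w ^ S.card else 0 := by
      by_cases h : ∀ y ∈ S, ¬ b y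
      · rw [if_pos h, ← prod_const]
        apply Finset.prod_congr rfl
        intro y hy
        rw [if_neg (h y hy)]
      · rw [if_neg h]
        push Not at h
        obtain ⟨y, hy, h2⟩ := h
        exact Finset.prod_eq_zero hy (if_pos h2)
    have h4 : ∏ y ∈ (L \ Y) \ S, (if a y then (0 : A) else 1) =
        if ∀ y ∈ (L \ Y) \ S, ¬ a y then 1 else 0 := by
      by_cases h : ∀ y ∈ (L \ Y) \ S, ¬ a y
      · rw [if_pos h]
        apply Finset.prod_eq_one
        intro y hy
        rw [if_neg (h y hy)]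
      · rw [if_neg h]
        push Not at h
        obtain ⟨y, hy, h2⟩ := h
        exact Finset.prod_eq_zero hy (if_pos h2)
    rw [h3, h4]
    by_cases h6 : ∀ y ∈ S, ¬ b y <;> by_cases h7 : ∀ y ∈ (L \ Y) \ S, ¬ a y
    · rw [if_pos h6, if_pos h7, if_pos ⟨h6, h7⟩, mul_one]
    · rw [if_neg h7, mul_zero, if_neg (fun h => h7 h.2)]
    · rw [if_neg h6, zero_mul, if_neg (fun h => h6 h.1)]
    · rw [if_neg h6, zero_mul, if_neg (fun h => h6 h.1)]
  rw [h1, Finset.sum_mul_sum, ← Finset.sum_product']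
  symm
  refine Finset.sum_bij' (fun x _ => x.1 ∪ x.2) (fun S _ => (S ∩ Y, S \ Y)) ?_ ?_ ?_ ?_ ?_
  · rintro ⟨S1, S2⟩ h
    rw [mem_product, mem_powerset, mem_powerset] at h
    rw [mem_powerset]
    exact union_subset (h.1.trans hY) (h.2.trans sdiff_subset)
  · intro S h
    rw [mem_powerset] at h
    rw [mem_product, mem_powerset, mem_powerset]
    exact ⟨inter_subset_right, sdiff_subset_sdiff h (Subset.refl _)⟩
  · rintro ⟨S1, S2⟩ h
    rw [mem_product, mem_powerset, mem_powerset] at h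
    simp only at h ⊢
    have h2 : ∀ y ∈ S2, y ∉ Y := fun y hy => (mem_sdiff.1 (h.2 hy)).2
    ext1
    · ext y
      simp only [mem_inter, mem_union]
      constructor
      · rintro ⟨h3 | h3, h4⟩
        · exact h3
        · exact absurd h4 (h2 y h3)
      · intro h3
        exact ⟨Or.inl h3, h.1 h3⟩
    · ext y
      simp only [mem_sdiff, mem_union]
      constructor
      · rintro ⟨h3 | h3, h4⟩
        · exact absurd (h.1 h3) h4
        · exact h3
      · intro h3
        exact ⟨Or.inr h3, h2 y h3⟩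
  · intro S _
    simp only
    ext y
    simp only [mem_union, mem_inter, mem_sdiff]
    tauto
  · rintro ⟨S1, S2⟩ h
    rw [mem_product, mem_powerset, mem_powerset] at h
    simp only at h ⊢
    have h2 : ∀ y ∈ S2, y ∈ L ∧ y ∉ Y := fun y hy => mem_sdiff.1 (h.2 hy)
    have hd : Disjoint S1 S2 := by
      rw [Finset.disjoint_left]
      intro y hy hy'
      exact (h2 y hy').2 (h.1 hy)
    have h3 : (S1 ∪ S2) ∩ Y = S1 := by
      ext y
      simp only [mem_inter, mem_union]
      constructor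
      · rintro ⟨h3 | h3, h4⟩
        · exact h3
        · exact absurd h4 (h2 y h3).2
      · intro h3
        exact ⟨Or.inl h3, h.1 h3⟩
    have h4 : g (S1 ∪ S2) = g S1 := by
      rw [hgY _ (union_subset (h.1.trans hY) (h.2.trans sdiff_subset)), h3]
    have h5 : (∀ y ∈ S1 ∪ S2, ¬ b y) ↔ (∀ y ∈ S1, ¬ b y) ∧ (∀ y ∈ S2, ¬ b y) := by
      constructor
      · intro h
        exact ⟨fun y hy => h y (mem_union_left _ hy), fun y hy => h y (mem_union_right _ hy)⟩
      · rintro ⟨h6, h7⟩ y hy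
        rcases mem_union.1 hy with h8 | h8
        · exact h6 y h8
        · exact h7 y h8
    have h6 : (∀ y ∈ L \ (S1 ∪ S2), ¬ a y) ↔
        (∀ y ∈ Y \ S1, ¬ a y) ∧ (∀ y ∈ (L \ Y) \ S2, ¬ a y) := by
      constructor
      · intro h6
        constructor
        · intro y hy
          rw [mem_sdiff] at hy
          apply h6 y
          rw [mem_sdiff, mem_union]
          refine ⟨hY hy.1, ?_⟩
          rintro (h7 | h7)
          · exact hy.2 h7
          · exact (h2 y h7).2 hy.1
        · intro y hy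
          rw [mem_sdiff, mem_sdiff] at hy
          apply h6 y
          rw [mem_sdiff, mem_union]
          refine ⟨hy.1.1, ?_⟩
          rintro (h7 | h7)
          · exact hy.1.2 (h.1 h7)
          · exact hy.2 h7
      · rintro ⟨h6, h7⟩ y hy
        rw [mem_sdiff, mem_union] at hy
        by_cases hyY : y ∈ Y
        · exact h6 y (mem_sdiff.2 ⟨hyY, fun h8 => hy.2 (Or.inl h8)⟩)
        · exact h7 y (mem_sdiff.2 ⟨mem_sdiff.2 ⟨hy.1, hyY⟩, fun h8 => hy.2 (Or.inr h8)⟩)
    rw [h4, card_union_of_disjoint hd, pow_add]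
    by_cases h7 : (∀ y ∈ S1, ¬ b y) ∧ (∀ y ∈ Y \ S1, ¬ a y)
    · by_cases h8 : (∀ y ∈ S2, ¬ b y) ∧ (∀ y ∈ (L \ Y) \ S2, ¬ a y)
      · rw [if_pos h7, if_pos h8, if_pos ⟨h5.2 ⟨h7.1, h8.1⟩, h6.2 ⟨h7.2, h8.2⟩⟩]
        ring
      · rw [if_neg h8, mul_zero, if_neg]
        rintro ⟨h9, h10⟩
        exact h8 ⟨(h5.1 h9).2, (h6.1 h10).2⟩
    · rw [if_neg h7, zero_mul, if_neg]
      rintro ⟨h9, h10⟩
      exact h7 ⟨(h5.1 h9).1, (h6.1 h10).1⟩

lemma Mat.nbr_sub (m : Mat α i) (ε : α → ℕ) : m.nbr ε ⊆ lev α i := filter_subset _ _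

/-- elements of the set of summation: status -/
lemma Mat.rst_status (m : Mat α i) {ε : α → ℕ} (hred : m.Red ε) {p : α} (hp : p ∈ m.rst ε) :
    (inE i ε p ↔ corank p + 1 = i) ∧ (inE i ε p ∨ outE i ε p) := by
  obtain ⟨h3, h4⟩ := m.rst_prop hp
  have h5 := hred p hp
  rcases h4 with h4 | h4
  · have h6 : inE i ε p := by
      rw [inE_lt (by omega)]
      exact Or.inl (by omega)
    exact ⟨⟨fun _ => h4, fun _ => h6⟩, Or.inl h6⟩
  · have h6 : ¬ inE i ε p := by
      rw [inE_ge (by omega)]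
      rintro ⟨v, hv, h6⟩
      exact h3 (Or.inr ⟨h4, v, hv, by omega⟩)
    have h7 : outE i ε p := by
      rw [outE_gt (by omega), h5]
      obtain ⟨t, ht⟩ := exists_upper p (by omega)
      exact ⟨t, ht, Nat.zero_le _⟩
    exact ⟨⟨fun h => absurd h h6, fun h => by omega⟩, Or.inr h7⟩

/-- **the partial sums: exact power of `X` and leading coefficient** -/
theorem Mat.partial_form (m : Mat α i) (hg : Grad α) (hl : HasLower α i) {ε : α → ℕ}
    (hred : m.Red ε) (hgood : GoodE i ε) (N : ℕ) (P : MvPolynomial α ℤ[X])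
    (hP : ∀ S : Finset α, EV S P = PowerSeries.coeff N
      (∏ p ∈ m.rst ε, PowerSeries.mk (Om i ε S p))) :
    ∃ Q : ℤ[X], ∑ κ ∈ (m.rst ε).piAntidiag N, tm i (ε + κ) = X ^ (pkF i ε).card * Q ∧
      Q.eval 0 = (-1) ^ (inF i ε).card * ((-1) ^ ((m.rst ε).filter fun p => corank p + 1 = i).card *
        Lf ((m.nbr ε).filter fun y => ¬ inE i ε y ∧ ¬ outE i ε y) P) := by
  have h1 : ∑ κ ∈ (m.rst ε).piAntidiag N, tm i (ε + κ) =
      m.cst ε * ∑ S ∈ (lev α i).powerset,
      if (∀ y ∈ S, ¬ outE i ε y) ∧ (∀ y ∈ lev α i \ S, ¬ inE i ε y) then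
      (X - 1) ^ S.card * EV S P else 0 := by
    have h2 : ∀ κ ∈ (m.rst ε).piAntidiag N, tm i (ε + κ) = m.cst ε * ∑ S ∈ (lev α i).powerset,
      if (∀ y ∈ S, ¬ outE i ε y) ∧ (∀ y ∈ lev α i \ S, ¬ inE i ε y) then
      (X - 1) ^ S.card * ∏ p ∈ m.rst ε, Om i ε S p (κ p) else 0 := by
      intro κ hκ
      rw [mem_piAntidiag] at hκ
      exact tm_add hg hl m hred hκ.2
    rw [Finset.sum_congr rfl h2, ← Finset.mul_sum, Finset.sum_comm]
    congr 1
    apply Finset.sum_congr rfl
    intro S _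
    split_ifs with h3
    · rw [← Finset.mul_sum, sum_piAntidiag_eq_coeff, ← hP S]
    · simp
  -- splitting off the elements of level `i` not next to the set of summation
  have h2 := sum_split_lev (lev α i) (m.nbr ε) (m.nbr_sub ε) (fun y => inE i ε y)
    (fun y => outE i ε y) ((X : ℤ[X]) - 1) (fun S => EV S P) (by
      intro S hS
      rw [hP, hP]
      congr 1
      apply Finset.prod_congr rfl
      intro p hp
      congr 1
      apply Om_congr (m.rst_prop hp).2 (fun _ _ _ => rfl) ?_ hg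
      intro y hy hyi
      rw [mem_inter]
      constructor
      · intro h
        refine ⟨h, ?_⟩
        unfold Mat.nbr
        rw [mem_filter, mem_lev]
        exact ⟨hyi, p, hp, hy⟩
      · intro h
        exact h.1)
  obtain ⟨Q1, h3, h4⟩ := sum_EV_lead P (m.nbr ε) (fun y => inE i ε y) (fun y => outE i ε y)
    (fun y _ => hgood y)
  rw [h3] at h2
  -- the other elements of level `i`
  have h5 : ∏ y ∈ lev α i \ m.nbr ε, ((if outE i ε y then 0 else (X : ℤ[X]) - 1) +
      (if inE i ε y then 0 else 1)) =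
      X ^ ((lev α i \ m.nbr ε).filter fun y => ¬ inE i ε y ∧ ¬ outE i ε y).card *
      (X - 1) ^ ((lev α i \ m.nbr ε).filter fun y => inE i ε y).card := by
    rw [← prod_const, ← prod_const, Finset.prod_filter, Finset.prod_filter,
      ← Finset.prod_mul_distrib]
    apply Finset.prod_congr rfl
    intro y _
    have h6 := hgood y
    by_cases h7 : inE i ε y <;> by_cases h8 : outE i ε y
    · exact absurd ⟨h7, h8⟩ h6
    · simp [h7, h8]
    · simp [h7, h8]
    · simp [h7, h8]
  rw [h5] at h2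
  -- the constant
  have h6 : m.cst ε = X ^ ((univ.filter fun p : α => corank p ≠ i ∧ p ∉ m.rst ε).filter
      fun p => ¬ inE i ε p ∧ ¬ outE i ε p).card *
      (X - 1) ^ ((univ.filter fun p : α => corank p ≠ i ∧ p ∉ m.rst ε).filter
        fun p => inE i ε p).card := by
    unfold Mat.cst
    rw [← prod_const, ← prod_const, Finset.prod_filter (fun p => ¬ inE i ε p ∧ ¬ outE i ε p),
      Finset.prod_filter (fun p => inE i ε p), ← Finset.prod_mul_distrib]
    apply Finset.prod_congr rfl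
    intro y _
    have h6 := hgood y
    unfold om
    by_cases h7 : inE i ε y <;> by_cases h8 : outE i ε y
    · exact absurd ⟨h7, h8⟩ h6
    · simp [h7, h8]
    · simp [h7, h8]
    · simp [h7, h8]
  have hsplit : ∀ (R : α → Prop) [DecidablePred R], (univ.filter R).card =
      ((univ.filter fun p : α => corank p ≠ i ∧ p ∉ m.rst ε).filter R).card +
      ((m.rst ε).filter R).card + (((m.nbr ε).filter R).card +
        ((lev α i \ m.nbr ε).filter R).card) := by
    intro R _
    have e1 : ((m.nbr ε).filter R).card + ((lev α i \ m.nbr ε).filter R).card =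
        ((lev α i).filter R).card := by
      rw [← card_union_of_disjoint]
      · congr 1
        ext y
        have h7 : y ∈ m.nbr ε → y ∈ lev α i := fun h => m.nbr_sub ε h
        simp only [mem_union, mem_filter, mem_sdiff]
        tauto
      · rw [Finset.disjoint_left]
        intro y hy hy'
        rw [mem_filter] at hy hy'
        exact (mem_sdiff.1 hy'.1).2 hy.1
    rw [e1, ← card_union_of_disjoint, ← card_union_of_disjoint]
    · congr 1
      ext y
      simp only [mem_union, mem_filter, mem_univ, true_and, mem_lev]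
      by_cases h7 : corank y = i
      · simp [h7]
      · simp only [h7, not_false_eq_true, ne_eq, true_and, false_and, or_false]
        tauto
    · rw [Finset.disjoint_left]
      intro y hy hy'
      rw [mem_filter, mem_lev] at hy'
      rw [mem_union, mem_filter, mem_filter, mem_filter] at hy
      rcases hy with hy | hy
      · exact hy.1.2.1 hy'.1
      · have := (m.rst_prop hy.1).2
        omega
    · rw [Finset.disjoint_left]
      intro y hy hy'
      rw [mem_filter, mem_filter] at hy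
      rw [mem_filter] at hy'
      exact hy.1.2.2 hy'.1
  have hpk : (pkF i ε).card = ((univ.filter fun p : α => corank p ≠ i ∧ p ∉ m.rst ε).filter
      fun p => ¬ inE i ε p ∧ ¬ outE i ε p).card +
      (((m.nbr ε).filter fun y => ¬ inE i ε y ∧ ¬ outE i ε y).card +
      ((lev α i \ m.nbr ε).filter fun y => ¬ inE i ε y ∧ ¬ outE i ε y).card) := by
    have e1 := hsplit (fun p => ¬ inE i ε p ∧ ¬ outE i ε p)
    have e2 : ((m.rst ε).filter fun p => ¬ inE i ε p ∧ ¬ outE i ε p).card = 0 := by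
      rw [card_eq_zero, filter_eq_empty_iff]
      intro p hp h7
      rcases (m.rst_status hred hp).2 with h8 | h8
      · exact h7.1 h8
      · exact h7.2 h8
    have e3 : (pkF i ε).card = (univ.filter fun p => ¬ inE i ε p ∧ ¬ outE i ε p).card := rfl
    omega
  have hin : (inF i ε).card = ((univ.filter fun p : α => corank p ≠ i ∧ p ∉ m.rst ε).filter
      fun p => inE i ε p).card + ((m.rst ε).filter fun p => corank p + 1 = i).card +
      (((m.nbr ε).filter fun y => inE i ε y).card +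
      ((lev α i \ m.nbr ε).filter fun y => inE i ε y).card) := by
    have e1 := hsplit (fun p => inE i ε p)
    have e2 : (m.rst ε).filter (fun p => inE i ε p) =
        (m.rst ε).filter fun p => corank p + 1 = i := by
      apply filter_congr
      intro p hp
      exact (m.rst_status hred hp).1
    rw [e2] at e1
    exact e1
  refine ⟨(X - 1) ^ ((univ.filter fun p : α => corank p ≠ i ∧ p ∉ m.rst ε).filter
        fun p => inE i ε p).card * (Q1 *
        (X - 1) ^ ((lev α i \ m.nbr ε).filter fun y => inE i ε y).card), ?_, ?_⟩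
  · rw [h1, h2, h6, hpk, pow_add, pow_add]
    ring
  · rw [eval_mul, eval_mul, h4, hin]
    simp only [eval_pow, eval_sub, eval_X, eval_one, zero_sub]
    set A1 := ((univ.filter fun p : α => corank p ≠ i ∧ p ∉ m.rst ε).filter
        fun p => inE i ε p).card
    set A2 := ((m.rst ε).filter fun p => corank p + 1 = i).card
    set A3 := ((m.nbr ε).filter fun y => inE i ε y).card
    set A4 := ((lev α i \ m.nbr ε).filter fun y => inE i ε y).card
    have e3 : ((-1 : ℤ)) ^ A2 * (-1) ^ A2 = 1 := by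
      rw [← mul_pow]
      simp
    rw [pow_add, pow_add, pow_add]
    linear_combination (-1 : ℤ) * ((-1) ^ A1 * (-1) ^ A3 * (-1) ^ A4 *
      Lf ((m.nbr ε).filter fun y => ¬ inE i ε y ∧ ¬ outE i ε y) P) * e3

/-- the leading coefficient of the partial sum -/
noncomputable def lcv (m : Mat α i) (ε : α → ℕ) (N : ℕ) : ℤ :=
  (∑ κ ∈ (m.rst ε).piAntidiag N, tm i (ε + κ)).coeff (pkF i ε).card

lemma tm_good {ε : α → ℕ} (h : GoodE i ε) :
    tm i ε = (X - 1) ^ (inF i ε).card * X ^ (pkF i ε).card := by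
  unfold tm
  rw [if_pos h]

lemma lcv_zero (m : Mat α i) {ε : α → ℕ} (h : GoodE i ε) : lcv m ε 0 = (-1) ^ (inF i ε).card := by
  unfold lcv
  rw [piAntidiag_zero, Finset.sum_singleton, add_zero, tm_good h, coeff_mul_X_pow',
    if_pos le_rfl, Nat.sub_self, coeff_zero_eq_eval_zero]
  simp

/-- **comparison of leading coefficients** -/
theorem lcv_congr (m : Mat α i) (hg : Grad α) (hl : HasLower α i) {ε ε' : α → ℕ}
    (hred : m.Red ε) (hgood : GoodE i ε) (hred' : m.Red ε') (hgood' : GoodE i ε')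
    (hrst : m.rst ε = m.rst ε') (hk : ∀ y ∈ m.nbr ε, ε y = ε' y ∧
      ((inE i ε y ∨ outE i ε y) ↔ (inE i ε' y ∨ outE i ε' y))) (N : ℕ) :
    (-1) ^ (inF i ε).card * lcv m ε N = (-1) ^ (inF i ε').card * lcv m ε' N := by
  obtain ⟨B, hB⟩ := m.rst_series ε ε
  have hP : ∀ S : Finset α, EV S (PowerSeries.coeff N B) = PowerSeries.coeff N
      (∏ p ∈ m.rst ε, PowerSeries.mk (Om i ε S p)) := by
    intro S
    rw [← hB S, PowerSeries.coeff_map]
  have hP' : ∀ S : Finset α, EV S (PowerSeries.coeff N B) = PowerSeries.coeff N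
      (∏ p ∈ m.rst ε', PowerSeries.mk (Om i ε' S p)) := by
    intro S
    rw [hP S, ← hrst]
    congr 1
    apply Finset.prod_congr rfl
    intro p hp
    congr 1
    apply Om_congr (m.rst_prop hp).2 ?_ (fun _ _ _ => Iff.rfl) hg
    intro y hy hyi
    refine (hk y ?_).1
    unfold Mat.nbr
    rw [mem_filter, mem_lev]
    exact ⟨hyi, p, hp, hy⟩
  obtain ⟨Q, h1, h2⟩ := m.partial_form hg hl hred hgood N _ hP
  obtain ⟨Q', h1', h2'⟩ := m.partial_form hg hl hred' hgood' N _ hP'
  have hnbr : m.nbr ε' = m.nbr ε := by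
    unfold Mat.nbr
    rw [hrst]
  have hfr : (m.nbr ε').filter (fun y => ¬ inE i ε' y ∧ ¬ outE i ε' y) =
      (m.nbr ε).filter fun y => ¬ inE i ε y ∧ ¬ outE i ε y := by
    rw [hnbr]
    apply filter_congr
    intro y hy
    have := (hk y hy).2
    tauto
  have h3 : lcv m ε N = Q.eval 0 := by
    unfold lcv
    rw [h1, mul_comm, coeff_mul_X_pow', if_pos le_rfl, Nat.sub_self, coeff_zero_eq_eval_zero]
  have h3' : lcv m ε' N = Q'.eval 0 := by
    unfold lcv
    rw [h1', mul_comm, coeff_mul_X_pow', if_pos le_rfl, Nat.sub_self, coeff_zero_eq_eval_zero]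
  rw [h3, h3', h2, h2', hfr, ← hrst]
  have e1 : ∀ n : ℕ, ((-1 : ℤ)) ^ n * (-1) ^ n = 1 := by
    intro n
    rw [← mul_pow]
    simp
  rw [← mul_assoc, e1, ← mul_assoc ((-1) ^ (inF i ε').card), e1]

/-- **the engine with leading coefficients** -/
theorem Mat.engine_lead (m : Mat α i) {h : Fin (Fintype.card α) → ℕ} (hG : IsGaussianWith α h)
    (hl : HasLower α i) (r n : ℕ) (hn : (lev α i).card = n) (s0 : ℕ) (hs1 : 1 ≤ s0) (hn2 : s0 ≤ n)
    (hclass : ∀ ε : α → ℕ, GoodE i ε → m.Red ε → ∑ p, ε p ≤ r → (pkF i ε).card + s0 < n →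
      ∑ p, ε p = r) :
    ∑ ε ∈ ((univ : Finset α).piAntidiag r).filter
        (fun ε => m.Red ε ∧ GoodE i ε ∧ (pkF i ε).card + s0 < n), (tm i ε).coeff (n - s0) +
      ∑ s ∈ range (r + 1), ∑ ε ∈ ((univ : Finset α).piAntidiag s).filter
        (fun ε => m.Red ε ∧ GoodE i ε ∧ (pkF i ε).card + s0 = n), lcv m ε (r - s) = 0 := by
  have hg := grad hG
  have h1 := root_mult_energy hG hg i r
  rw [m.sum_red hg, hn, X_pow_dvd_iff] at h1
  have h2 := h1 (n - s0) (by omega)
  rw [finset_sum_coeff] at h2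
  have h3 : ∀ s ∈ range (r + 1), (∑ ε ∈ ((univ : Finset α).piAntidiag s).filter
      (fun ε => m.Red ε), ∑ κ ∈ (m.rst ε).piAntidiag (r - s), tm i (ε + κ)).coeff (n - s0) =
      (∑ ε ∈ ((univ : Finset α).piAntidiag s).filter
        (fun ε => m.Red ε ∧ GoodE i ε ∧ (pkF i ε).card + s0 = n), lcv m ε (r - s)) +
      (if s = r then ∑ ε ∈ ((univ : Finset α).piAntidiag r).filter
        (fun ε => m.Red ε ∧ GoodE i ε ∧ (pkF i ε).card + s0 < n), (tm i ε).coeff (n - s0)
        else 0) := by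
    intro s hs
    rw [mem_range] at hs
    rw [finset_sum_coeff]
    have h4 : ∀ ε ∈ ((univ : Finset α).piAntidiag s).filter (fun ε => m.Red ε),
        (∑ κ ∈ (m.rst ε).piAntidiag (r - s), tm i (ε + κ)).coeff (n - s0) =
        (if GoodE i ε ∧ (pkF i ε).card + s0 = n then lcv m ε (r - s) else 0) +
        (if s = r ∧ GoodE i ε ∧ (pkF i ε).card + s0 < n then (tm i ε).coeff (n - s0) else 0) := by
      intro ε hε
      rw [mem_filter, mem_piAntidiag] at hε
      by_cases hgood : GoodE i ε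
      · rcases lt_trichotomy ((pkF i ε).card + s0) n with h5 | h5 | h5
        · have h6 := hclass ε hgood hε.2 (by rw [hε.1.1]; omega) h5
          have h7 : s = r := by rw [← h6, hε.1.1]
          rw [if_neg (fun h => by omega), if_pos ⟨h7, hgood, h5⟩, zero_add, h7, Nat.sub_self,
            piAntidiag_zero, Finset.sum_singleton, add_zero]
        · rw [if_pos ⟨hgood, h5⟩, if_neg (fun h => by omega), add_zero]
          unfold lcv
          congr 1
          omega
        · rw [if_neg (fun h => by omega), if_neg (fun h => by omega), add_zero]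
          have h6 := m.dvd_partial hg hl hε.2 (r - s)
          rw [X_pow_dvd_iff] at h6
          exact h6 _ (by omega)
      · rw [if_neg (fun h => hgood h.1), if_neg (fun h => hgood h.2.1), add_zero,
          Finset.sum_eq_zero, coeff_zero]
        intro κ hκ
        rw [mem_piAntidiag] at hκ
        exact m.tm_eq_zero hg hl hε.2 hκ.2 hgood
    rw [Finset.sum_congr rfl h4, Finset.sum_add_distrib, ← Finset.sum_filter, Finset.filter_filter,
      ← Finset.sum_filter, Finset.filter_filter]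
    congr 1
    split_ifs with h5
    · subst h5
      apply Finset.sum_congr ?_ (fun _ _ => rfl)
      apply filter_congr
      intro ε _
      simp
    · apply Finset.sum_eq_zero
      intro ε hε
      rw [mem_filter] at hε
      exact absurd hε.2.2.1 h5
  rw [Finset.sum_congr rfl h3, Finset.sum_add_distrib, Finset.sum_ite_eq' (range (r + 1)) r,
    if_pos (self_mem_range_succ r)] at h2
  rw [add_comm]
  exact h2

/-- coefficients of a weight -/
lemma tm_coeff {ε : α → ℕ} (h : GoodE i ε) {d : ℕ} :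
    (tm i ε).coeff ((pkF i ε).card + d) =
      (-1) ^ ((inF i ε).card - d) * ((inF i ε).card.choose d : ℤ) := by
  rw [tm_good h, add_comm, coeff_mul_X_pow]
  have h1 : ((X : ℤ[X]) - 1) = X + C (-1) := by
    rw [C_neg, C_1]
    ring
  rw [h1, coeff_X_add_C_pow]

/-- similar energy functions: same set of summation, same values and same frozen elements next to
it, opposite sign, same number of peaks, same energy -/
structure Mat.Opp (m : Mat α i) (ε ε' : α → ℕ) : Prop where
  red : m.Red ε'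
  good : GoodE i ε'
  sum : ∑ p, ε' p = ∑ p, ε p
  pk : (pkF i ε').card = (pkF i ε).card
  rst : m.rst ε = m.rst ε'
  nbr : ∀ y ∈ m.nbr ε, ε y = ε' y ∧
    ((inE i ε y ∨ outE i ε y) ↔ (inE i ε' y ∨ outE i ε' y))
  opp : Odd ((inF i ε).card + (inF i ε').card)

lemma Mat.Opp.lcv_eq {m : Mat α i} {ε ε' : α → ℕ} (h : m.Opp ε ε') (hg : Grad α)
    (hl : HasLower α i) (hred : m.Red ε) (hgood : GoodE i ε) (N : ℕ) :
    lcv m ε N + lcv m ε' N = 0 := by
  have h1 := lcv_congr m hg hl hred hgood h.red h.good h.rst h.nbr N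
  obtain ⟨k, hk⟩ := h.opp
  have e1 : ∀ n : ℕ, ((-1 : ℤ)) ^ n * (-1) ^ n = 1 := by
    intro n
    rw [← mul_pow]
    simp
  have h2 : ((-1 : ℤ)) ^ (inF i ε).card * (-1) ^ (inF i ε').card = -1 := by
    rw [← pow_add, hk, pow_succ, pow_mul]
    simp
  have h3 : lcv m ε N = - lcv m ε' N := by
    calc lcv m ε N = ((-1) ^ (inF i ε).card * (-1) ^ (inF i ε).card) * lcv m ε N := by
          rw [e1, one_mul]
      _ = (-1) ^ (inF i ε).card * ((-1) ^ (inF i ε).card * lcv m ε N) := by ring
      _ = (-1) ^ (inF i ε).card * ((-1) ^ (inF i ε').card * lcv m ε' N) := by rw [h1]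
      _ = ((-1) ^ (inF i ε).card * (-1) ^ (inF i ε').card) * lcv m ε' N := by ring
      _ = - lcv m ε' N := by rw [h2]; ring
  omega

/-- **the engine with an involution**: all reduced good energy functions with `s0` missing peaks
are either in `F` (and then of energy `r`) or are paired off by `ι` -/
theorem Mat.engine_invol (m : Mat α i) {h : Fin (Fintype.card α) → ℕ} (hG : IsGaussianWith α h)
    (hl : HasLower α i) (r n : ℕ) (hn : (lev α i).card = n) (s0 : ℕ) (hs1 : 1 ≤ s0) (hn2 : s0 ≤ n)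
    (hclass : ∀ ε : α → ℕ, GoodE i ε → m.Red ε → ∑ p, ε p ≤ r → (pkF i ε).card + s0 < n →
      ∑ p, ε p = r)
    (F : (α → ℕ) → Prop) (ι : (α → ℕ) → (α → ℕ))
    (hι : ∀ ε : α → ℕ, GoodE i ε → m.Red ε → ∑ p, ε p ≤ r → (pkF i ε).card + s0 = n → ¬ F ε →
      m.Opp ε (ι ε) ∧ ¬ F (ι ε) ∧ ι (ι ε) = ε)
    (hF : ∀ ε : α → ℕ, GoodE i ε → m.Red ε → ∑ p, ε p ≤ r → (pkF i ε).card + s0 = n → F ε →
      ∑ p, ε p = r) :
    ∑ ε ∈ ((univ : Finset α).piAntidiag r).filter
        (fun ε => m.Red ε ∧ GoodE i ε ∧ (pkF i ε).card + s0 < n), (tm i ε).coeff (n - s0) +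
      ∑ ε ∈ ((univ : Finset α).piAntidiag r).filter
        (fun ε => m.Red ε ∧ GoodE i ε ∧ (pkF i ε).card + s0 = n ∧ F ε),
        (-1) ^ (inF i ε).card = 0 := by
  have hg := grad hG
  rw [← m.engine_lead hG hl r n hn s0 hs1 hn2 hclass]
  congr 1
  have h1 : ∀ s ∈ range (r + 1), ∑ ε ∈ ((univ : Finset α).piAntidiag s).filter
        (fun ε => m.Red ε ∧ GoodE i ε ∧ (pkF i ε).card + s0 = n), lcv m ε (r - s) =
        if s = r then ∑ ε ∈ ((univ : Finset α).piAntidiag r).filter
        (fun ε => m.Red ε ∧ GoodE i ε ∧ (pkF i ε).card + s0 = n ∧ F ε),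
        (-1) ^ (inF i ε).card else 0 := by
    intro s hs
    rw [mem_range] at hs
    rw [← Finset.sum_filter_add_sum_filter_not (((univ : Finset α).piAntidiag s).filter
        (fun ε => m.Red ε ∧ GoodE i ε ∧ (pkF i ε).card + s0 = n)) (fun ε => F ε)]
    have h2 : ∑ ε ∈ (((univ : Finset α).piAntidiag s).filter
        (fun ε => m.Red ε ∧ GoodE i ε ∧ (pkF i ε).card + s0 = n)).filter (fun ε => ¬ F ε),
        lcv m ε (r - s) = 0 := by
      refine Finset.sum_involution (fun ε _ => ι ε) ?_ ?_ ?_ ?_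
      · intro ε hε
        rw [mem_filter, mem_filter, mem_piAntidiag] at hε
        have h3 := (hι ε hε.1.2.2.1 hε.1.2.1 (by rw [hε.1.1.1]; omega) hε.1.2.2.2 hε.2).1
        exact h3.lcv_eq hg hl hε.1.2.1 hε.1.2.2.1 _
      · intro ε hε h4 h5
        rw [mem_filter, mem_filter, mem_piAntidiag] at hε
        have h3 := (hι ε hε.1.2.2.1 hε.1.2.1 (by rw [hε.1.1.1]; omega) hε.1.2.2.2 hε.2).1
        have h6 := h3.opp
        rw [h5] at h6
        obtain ⟨k, hk⟩ := h6
        omega
      · intro ε hε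
        rw [mem_filter, mem_filter, mem_piAntidiag] at hε
        have h3 := hι ε hε.1.2.2.1 hε.1.2.1 (by rw [hε.1.1.1]; omega) hε.1.2.2.2 hε.2
        rw [mem_filter, mem_filter, mem_piAntidiag]
        exact ⟨⟨⟨by rw [h3.1.sum, hε.1.1.1], fun _ _ => mem_univ _⟩, h3.1.red, h3.1.good,
          by rw [h3.1.pk]; exact hε.1.2.2.2⟩, h3.2.1⟩
      · intro ε hε
        rw [mem_filter, mem_filter, mem_piAntidiag] at hε
        exact (hι ε hε.1.2.2.1 hε.1.2.1 (by rw [hε.1.1.1]; omega) hε.1.2.2.2 hε.2).2.2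
    rw [h2, add_zero]
    split_ifs with h3
    · subst h3
      rw [Finset.filter_filter, Nat.sub_self]
      have h4 : ((univ : Finset α).piAntidiag s).filter
          (fun ε => (m.Red ε ∧ GoodE i ε ∧ (pkF i ε).card + s0 = n) ∧ F ε) =
          ((univ : Finset α).piAntidiag s).filter
          (fun ε => m.Red ε ∧ GoodE i ε ∧ (pkF i ε).card + s0 = n ∧ F ε) := by
        apply filter_congr
        intro ε _
        tauto
      rw [h4]
      apply Finset.sum_congr rfl
      intro ε hε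
      rw [mem_filter] at hε
      exact lcv_zero m hε.2.2.1
    · apply Finset.sum_eq_zero
      intro ε hε
      rw [mem_filter, mem_filter, mem_piAntidiag] at hε
      exfalso
      apply h3
      rw [← hF ε hε.1.2.2.1 hε.1.2.1 (by rw [hε.1.1.1]; omega) hε.1.2.2.2 hε.2, hε.1.1.1]
  rw [Finset.sum_congr rfl h1, Finset.sum_ite_eq' (range (r + 1)) r,
    if_pos (self_mem_range_succ r)]

end Pool.Gauss
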