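import Pool.Agent.Work.MP_065141_co.K.TwoBody

/-!
# Calculation rules for the functional of a row

`Fr y P`: the variable `a_y` does not occur in `P`.
-/

set_option autoImplicit false
open scoped Classical
open Finset MvPolynomial

namespace Pool.Gauss

variable {A B : Type} [CommRing A] [CommRing B] {Y : Type}

/-- base change: in particular the value at `w = 0` -/
lemma Ev_map (f : A →+* B) (w : A) (P : MvPolynomial Y A) :
    Ev (f w) (map f P) = f (Ev w P) := by
  induction P using MvPolynomial.induction_on' with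
  | monomial m c =>
    rw [map_monomial, Ev_monomial, Ev_monomial, map_mul, evm, evm, Finsupp.prod, Finsupp.prod,
      map_prod]
    congr 1
    apply prod_congr rfl
    intro y _
    rw [map_mul, map_pow, map_sub, map_one]
  | add P Q hP hQ => rw [map_add, map_add, hP, hQ, map_add, map_add]

/-- the variable `y` does not occur in `P` -/
def Fr (y : Y) (P : MvPolynomial Y A) : Prop := P ∈ supported A ({y}ᶜ : Set Y)

lemma Fr.mul {y : Y} {P Q : MvPolynomial Y A} (hP : Fr y P) (hQ : Fr y Q) : Fr y (P * Q) :=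
  mul_mem hP hQ

lemma Fr.add {y : Y} {P Q : MvPolynomial Y A} (hP : Fr y P) (hQ : Fr y Q) : Fr y (P + Q) :=
  add_mem hP hQ

lemma Fr.sub {y : Y} {P Q : MvPolynomial Y A} (hP : Fr y P) (hQ : Fr y Q) : Fr y (P - Q) :=
  sub_mem hP hQ

lemma Fr.neg {y : Y} {P : MvPolynomial Y A} (hP : Fr y P) : Fr y (-P) := neg_mem hP

lemma Fr.pow {y : Y} {P : MvPolynomial Y A} (hP : Fr y P) (n : ℕ) : Fr y (P ^ n) := pow_mem hP n

lemma Fr.C (y : Y) (c : A) : Fr y (MvPolynomial.C c : MvPolynomial Y A) :=
  (supported A ({y}ᶜ : Set Y)).algebraMap_mem c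

lemma Fr.one (y : Y) : Fr y (1 : MvPolynomial Y A) := one_mem _

lemma Fr.zero (y : Y) : Fr y (0 : MvPolynomial Y A) := zero_mem _

lemma Fr.natCast (y : Y) (n : ℕ) : Fr y (n : MvPolynomial Y A) := natCast_mem _ n

lemma Fr.X {x y : Y} (h : x ≠ y) : Fr y (MvPolynomial.X x : MvPolynomial Y A) := by
  rcases subsingleton_or_nontrivial A with hA | hA
  · rw [Subsingleton.elim (MvPolynomial.X x : MvPolynomial Y A) 0]
    exact Fr.zero y
  · rw [Fr, X_mem_supported]
    exact h

lemma Fr.prod {ι : Type} {y : Y} {S : Finset ι} {f : ι → MvPolynomial Y A}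
    (h : ∀ i ∈ S, Fr y (f i)) : Fr y (∏ i ∈ S, f i) := prod_mem h

lemma Fr.sum {ι : Type} {y : Y} {S : Finset ι} {f : ι → MvPolynomial Y A}
    (h : ∀ i ∈ S, Fr y (f i)) : Fr y (∑ i ∈ S, f i) := sum_mem h

lemma Fr.of_supported {y : Y} {U : Set Y} {P : MvPolynomial Y A} (hP : P ∈ supported A U)
    (hy : y ∉ U) : Fr y P :=
  supported_mono (fun x hx => by
    rw [Set.mem_compl_singleton_iff]
    rintro rfl
    exact hy hx) hP

lemma X_supp (y : Y) : (X y : MvPolynomial Y A) ∈ supported A ({y} : Set Y) := by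
  rcases subsingleton_or_nontrivial A with hA | hA
  · rw [Subsingleton.elim (X y : MvPolynomial Y A) 0]
    exact zero_mem _
  · exact X_mem_supported.2 rfl

lemma Ev_X (w : A) (y : Y) : Ev w (X y : MvPolynomial Y A) = w - 1 := by
  have hs : (Finsupp.single y 1 : Y →₀ ℕ).support = {y} := by
    ext z
    rw [Finsupp.mem_support_iff, mem_singleton]
    by_cases hz : z = y
    · subst hz
      rw [Finsupp.single_eq_same]
      simp
    · rw [Finsupp.single_eq_of_ne hz]
      simp [hz]
  rw [X, Ev_monomial, evm, Finsupp.prod, hs, prod_singleton, Finsupp.single_eq_same]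
  simp

/-- independence of one variable -/
lemma Ev_mul_of_supp (w : A) {y : Y} {P Q : MvPolynomial Y A}
    (hP : P ∈ supported A ({y} : Set Y)) (hQ : Fr y Q) : Ev w (P * Q) = Ev w P * Ev w Q :=
  Ev_mul w disjoint_compl_right hP hQ

lemma Ev_X_mul (w : A) {y : Y} {P : MvPolynomial Y A} (hP : Fr y P) :
    Ev w (X y * P) = (w - 1) * Ev w P := by
  rw [Ev_mul_of_supp w (X_supp y) hP, Ev_X]

lemma Ev_X_sq_mul (w : A) (y : Y) (P : MvPolynomial Y A) :
    Ev w (X y ^ 2 * P) = w * Ev w (X y * P) := by
  induction P using MvPolynomial.induction_on' with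
  | monomial m c =>
    have h1 : (X y : MvPolynomial Y A) * monomial m c = monomial (Finsupp.single y 1 + m) c := by
      rw [X, monomial_mul, one_mul]
    have h2 : (X y : MvPolynomial Y A) ^ 2 * monomial m c =
        monomial (Finsupp.single y 2 + m) c := by
      rw [X_pow_eq_monomial, monomial_mul, one_mul]
    rw [h1, h2, Ev_monomial, Ev_monomial]
    have key : evm w (Finsupp.single y 2 + m) = w * evm w (Finsupp.single y 1 + m) := by
      have hs : ∀ k : ℕ, k ≠ 0 → (Finsupp.single y k + m).support = insert y m.support := by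
        intro k hk
        ext z
        rw [Finsupp.mem_support_iff, Finsupp.add_apply, mem_insert, Finsupp.mem_support_iff]
        by_cases hz : z = y
        · subst hz
          rw [Finsupp.single_eq_same]
          constructor
          · intro _
            exact Or.inl rfl
          · intro _
            omega
        · rw [Finsupp.single_eq_of_ne hz, zero_add]
          tauto
      have hrest : ∀ k : ℕ, ∀ z ∈ m.support.erase y,
          w ^ ((Finsupp.single y k + m) z - 1) * (w - 1) = w ^ (m z - 1) * (w - 1) := by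
        intro k z hz
        rw [Finsupp.add_apply, Finsupp.single_eq_of_ne (ne_of_mem_erase hz), zero_add]
      rw [evm, evm, Finsupp.prod, Finsupp.prod, hs 2 (by omega), hs 1 (by omega),
        ← insert_erase (mem_insert_self y m.support), erase_insert_eq_erase,
        prod_insert (notMem_erase y _), prod_insert (notMem_erase y _),
        prod_congr rfl (hrest 2), prod_congr rfl (hrest 1), Finsupp.add_apply,
        Finsupp.add_apply, Finsupp.single_eq_same, Finsupp.single_eq_same]
      have e1 : 2 + m y - 1 = m y + 1 := by omega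
      have e2 : 1 + m y - 1 = m y := by omega
      rw [e1, e2]
      ring
    rw [key]
    ring
  | add P Q hP hQ => rw [mul_add, map_add, mul_add, map_add, hP, hQ, mul_add]

/-- `b_y = w - a_y` -/
lemma Ev_b_mul (w : A) {y : Y} {P : MvPolynomial Y A} (hP : Fr y P) :
    Ev w ((MvPolynomial.C w - X y) * P) = Ev w P := by
  rw [sub_mul, map_sub, Ev_C_mul, Ev_X_mul w hP]
  ring

lemma Ev_b (w : A) (y : Y) : Ev w (MvPolynomial.C w - X y : MvPolynomial Y A) = 1 := by
  have := Ev_b_mul w (Fr.one (A := A) y)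
  rwa [mul_one, Ev_one] at this

/-- `a_y * b_y = 0` under the functional -/
lemma Ev_X_mul_b_mul (w : A) (y : Y) (P : MvPolynomial Y A) :
    Ev w (X y * (MvPolynomial.C w - X y) * P) = 0 := by
  have h : X y * (MvPolynomial.C w - X y) * P =
      MvPolynomial.C w * (X y * P) - X y ^ 2 * P := by ring
  rw [h, map_sub, Ev_C_mul, Ev_X_sq_mul, sub_self]

/-- elimination of a variable -/
lemma Ev_elim (w : A) {y : Y} {P Q : MvPolynomial Y A} (hQ : Fr y Q) :
    Ev w (P + X y * Q) = Ev w (P + MvPolynomial.C (w - 1) * Q) := by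
  rw [map_add, map_add, Ev_X_mul w hQ, Ev_C_mul]

lemma Ev_elim' (w : A) {y : Y} {P Q : MvPolynomial Y A} (hQ : Fr y Q) :
    Ev w (P + (MvPolynomial.C w - X y) * Q) = Ev w (P + Q) := by
  rw [map_add, map_add, Ev_b_mul w hQ]

lemma Ev_prod_X (w : A) (S : Finset Y) :
    Ev w (∏ y ∈ S, X y : MvPolynomial Y A) = (w - 1) ^ S.card := by
  induction S using Finset.induction_on with
  | empty => rw [prod_empty, Ev_one, card_empty, pow_zero]
  | insert y S hy ih =>
    rw [prod_insert hy, Ev_X_mul w (Fr.prod fun z hz => Fr.X (by rintro rfl; exact hy hz)), ih,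
      card_insert_of_notMem hy, pow_succ]
    ring

/-! ### The value at `w = 0` -/

lemma Ev0_X_sq_mul (y : Y) (P : MvPolynomial Y A) : Ev (0 : A) (X y ^ 2 * P) = 0 := by
  rw [Ev_X_sq_mul, zero_mul]

lemma Ev0_X_mul {y : Y} {P : MvPolynomial Y A} (hP : Fr y P) :
    Ev (0 : A) (X y * P) = -Ev (0 : A) P := by
  rw [Ev_X_mul 0 hP]
  ring

/-- a linear function of `a_y` under the functional at `w = 0` -/
lemma Ev0_lin {y : Y} {P Q : MvPolynomial Y A} (hQ : Fr y Q) :
    Ev (0 : A) (P + X y * Q) = Ev (0 : A) (P - Q) := by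
  rw [map_add, map_sub, Ev0_X_mul hQ]
  ring

/-- product of two linear functions of `a_y` at `w = 0`: the square is dropped -/
lemma Ev0_lin_mul {y : Y} {P Q P' Q' : MvPolynomial Y A} (hP : Fr y P) (hQ : Fr y Q)
    (hP' : Fr y P') (hQ' : Fr y Q') :
    Ev (0 : A) ((P + X y * Q) * (P' + X y * Q')) = Ev (0 : A) (P * P' - P * Q' - Q * P') := by
  have h : (P + X y * Q) * (P' + X y * Q') =
      (P * P' + X y * (P * Q' + Q * P')) + X y ^ 2 * (Q * Q') := by ring
  rw [h, map_add, Ev0_X_sq_mul, add_zero, Ev0_lin ((hP.mul hQ').add (hQ.mul hP'))]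
  congr 1
  ring

/-- the coefficient of `w ^ 0` of the functional over power series in `w` -/
lemma coeff_zero_Ev {R : Type} [CommRing R] (P : MvPolynomial Y (PowerSeries R)) :
    PowerSeries.constantCoeff (Ev (PowerSeries.X : PowerSeries R) P) =
      Ev (0 : R) (map (PowerSeries.constantCoeff (R := R)) P) := by
  rw [← Ev_map, PowerSeries.constantCoeff_X]

/-- the first coefficient of something divisible by `w ^ k` -/
lemma coeff_Ev_of_dvd {R : Type} [CommRing R] (k : ℕ) (P : MvPolynomial Y (PowerSeries R)) :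
    PowerSeries.coeff k (Ev (PowerSeries.X : PowerSeries R)
      (MvPolynomial.C (PowerSeries.X ^ k) * P)) =
      Ev (0 : R) (map (PowerSeries.constantCoeff (R := R)) P) := by
  rw [Ev_C_mul, PowerSeries.coeff_X_pow_mul' _ k k, if_pos le_rfl, Nat.sub_self,
    PowerSeries.coeff_zero_eq_constantCoeff, coeff_zero_Ev]

end Pool.Gauss
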