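import Pool.Agent.Work.MP_065141_co.K.EvCalc

/-!
# Equality under the functional of a row

`EvEq w P Q`: `P` and `Q` can be exchanged under `Ev w` in every product.
-/

set_option autoImplicit false
open scoped Classical
open Finset MvPolynomial

namespace Pool.Gauss

variable {A : Type} [CommRing A] {Y : Type}

/-- `P` and `Q` can be exchanged under the functional in every product -/
def EvEq (w : A) (P Q : MvPolynomial Y A) : Prop := ∀ R, Ev w (P * R) = Ev w (Q * R)

namespace EvEq

variable {w : A} {P P' Q Q' R : MvPolynomial Y A}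

lemma refl (P : MvPolynomial Y A) : EvEq w P P := fun _ => rfl

lemma of_eq (h : P = Q) : EvEq w P Q := h ▸ refl P

lemma symm (h : EvEq w P Q) : EvEq w Q P := fun R => (h R).symm

lemma trans (h : EvEq w P Q) (h' : EvEq w Q R) : EvEq w P R := fun S => (h S).trans (h' S)

lemma add (h : EvEq w P Q) (h' : EvEq w P' Q') : EvEq w (P + P') (Q + Q') := fun R => by
  rw [add_mul, add_mul, map_add, map_add, h R, h' R]

lemma neg (h : EvEq w P Q) : EvEq w (-P) (-Q) := fun R => by
  rw [neg_mul, neg_mul, map_neg, map_neg, h R]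

lemma sub (h : EvEq w P Q) (h' : EvEq w P' Q') : EvEq w (P - P') (Q - Q') := fun R => by
  rw [sub_mul, sub_mul, map_sub, map_sub, h R, h' R]

lemma mul (h : EvEq w P Q) (h' : EvEq w P' Q') : EvEq w (P * P') (Q * Q') := fun R => by
  rw [mul_assoc, h, mul_left_comm, h', mul_left_comm, mul_assoc]

lemma mul_left (P : MvPolynomial Y A) (h : EvEq w Q Q') : EvEq w (P * Q) (P * Q') :=
  (refl P).mul h

lemma mul_right (h : EvEq w Q Q') (P : MvPolynomial Y A) : EvEq w (Q * P) (Q' * P) :=
  h.mul (refl P)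

lemma pow (h : EvEq w P Q) (n : ℕ) : EvEq w (P ^ n) (Q ^ n) := by
  induction n with
  | zero => exact of_eq (by rw [pow_zero, pow_zero])
  | succ n ih =>
    rw [pow_succ, pow_succ]
    exact ih.mul h

lemma sum {ι : Type} {s : Finset ι} {f g : ι → MvPolynomial Y A}
    (h : ∀ j ∈ s, EvEq w (f j) (g j)) : EvEq w (∑ j ∈ s, f j) (∑ j ∈ s, g j) := fun R => by
  rw [Finset.sum_mul, Finset.sum_mul, map_sum, map_sum]
  exact Finset.sum_congr rfl fun j hj => h j hj R

lemma prod {ι : Type} {s : Finset ι} {f g : ι → MvPolynomial Y A}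
    (h : ∀ j ∈ s, EvEq w (f j) (g j)) : EvEq w (∏ j ∈ s, f j) (∏ j ∈ s, g j) := by
  induction s using Finset.induction_on with
  | empty => exact of_eq (by rw [prod_empty, prod_empty])
  | insert j s hj ih =>
    rw [prod_insert hj, prod_insert hj]
    exact (h j (mem_insert_self j s)).mul (ih fun l hl => h l (mem_insert_of_mem hl))

lemma ev (h : EvEq w P Q) : Ev w P = Ev w Q := by
  have := h 1
  rwa [mul_one, mul_one] at this

lemma ev_mul (h : EvEq w P Q) (R : MvPolynomial Y A) : Ev w (P * R) = Ev w (Q * R) := h R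

lemma ev_mul' (h : EvEq w P Q) (R : MvPolynomial Y A) : Ev w (R * P) = Ev w (R * Q) := by
  rw [mul_comm R, mul_comm R]
  exact h R

lemma of_sub (h : EvEq w (P - Q) 0) : EvEq w P Q := fun R => by
  have := h R
  rw [sub_mul, map_sub, zero_mul, map_zero, sub_eq_zero] at this
  exact this

lemma zero_mul' (h : EvEq w P 0) (Q : MvPolynomial Y A) : EvEq w (P * Q) 0 := by
  have := h.mul_right Q
  rwa [zero_mul] at this

lemma mul_zero' (h : EvEq w P 0) (Q : MvPolynomial Y A) : EvEq w (Q * P) 0 := by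
  have := h.mul_left Q
  rwa [mul_zero] at this

end EvEq

/-- `a_y ^ 2 = w a_y` -/
lemma EvEq_sq (w : A) (y : Y) : EvEq w (X y ^ 2) (C w * X y) := fun R => by
  rw [Ev_X_sq_mul, mul_assoc, Ev_C_mul]

/-- `a_y b_y = 0` -/
lemma EvEq_ab (w : A) (y : Y) : EvEq w (X y * (C w - X y)) 0 := fun R => by
  rw [Ev_X_mul_b_mul, zero_mul, map_zero]

/-- a polynomial identity modulo the relations `a_y (w - a_y) = 0`, one relation -/
lemma EvEq.of_ab {w : A} {y : Y} {P Q : MvPolynomial Y A} (T : MvPolynomial Y A)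
    (h : P = Q + T * (X y * (C w - X y))) : EvEq w P Q := by
  rw [h]
  have := (EvEq.refl (w := w) Q).add ((EvEq_ab w y).mul_zero' T)
  rwa [add_zero] at this

/-- two relations -/
lemma EvEq.of_ab2 {w : A} {y y' : Y} {P Q : MvPolynomial Y A} (T T' : MvPolynomial Y A)
    (h : P = Q + T * (X y * (C w - X y)) + T' * (X y' * (C w - X y'))) : EvEq w P Q :=
  (EvEq.of_ab T' h).trans (EvEq.of_ab T rfl)

/-- three relations -/
lemma EvEq.of_ab3 {w : A} {y y' y'' : Y} {P Q : MvPolynomial Y A} (T T' T'' : MvPolynomial Y A)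
    (h : P = Q + T * (X y * (C w - X y)) + T' * (X y' * (C w - X y')) +
      T'' * (X y'' * (C w - X y''))) : EvEq w P Q :=
  (EvEq.of_ab T'' h).trans (EvEq.of_ab2 T T' rfl)

/-- **a pair of dual factors over two vertices** `y`, `y'`: the factor below is
`P0 + a P1 + a a' P2`, the factor above `P0 + b P1 + i b b' P2` with `i (w - 1) = 1` -/
theorem EvEq_pair (w i : A) (hi : (w - 1) * i = 1) (y y' : Y) (P0 P1 P2 : A) :
    EvEq w ((C P0 + (C w - X y) * C P1 + (C w - X y) * (C w - X y') * C (i * P2)) *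
      (C P0 + X y * C P1 + X y * X y' * C P2))
      (C P0 * (C P0 + C (w * P1) + C (w * i * P2) * (X y * X y' - X y - X y' + C w))) := by
  have hi' : (C w - 1 : MvPolynomial Y A) * C i = 1 := by
    rw [← C_1, ← C_sub, ← C_mul, hi]
  refine EvEq.of_ab (y := y) (C P1 * C P1 + C P1 * X y' * C P2 +
    (C w - X y') * C i * C P2 * C P1 + (C w - X y') * C i * C P2 * X y' * C P2) ?_
  rw [C_mul, C_mul, C_mul, C_mul]
  linear_combination (-(C P0 * C P2 * X y * X y')) * hi'

/-- **a star**: the lost edge `{k, c}` (factor above) and the new edge `{k, t}` (factor below) -/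
theorem EvEq_star (w i : A) (hi : (w - 1) * i = 1) (k c t : Y) (P2 : A) :
    EvEq w ((1 + (C w - X k) * (C w - X c) * C (i * P2)) * (1 + X k * X t * C P2))
      (1 + C P2 * (X k * (X t - X c)) +
        C (w * i * P2) * (X k * X c - X k - X c + C w)) := by
  have hi' : (C w - 1 : MvPolynomial Y A) * C i = 1 := by
    rw [← C_1, ← C_sub, ← C_mul, hi]
  refine EvEq.of_ab (y := k) ((C w - X c) * C i * C P2 * X t * C P2) ?_
  rw [C_mul, C_mul, C_mul]
  linear_combination (-(C P2 * X k * X c)) * hi'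

end Pool.Gauss
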