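import Pool.Agent.Gauss35.Energy
import Pool.Agent.Gauss35.Graded

/-!
# The exact formula for the sum of the weights at a level

`SSx i = ∑ r, q ^ r ∑ (|ε| = r) tm i ε` as a power series in `q` over `ℤ[X]`.
-/

set_option autoImplicit false
set_option linter.unusedSectionVars false
open scoped Classical
open Finset

namespace Pool.Gauss

variable {α : Type} [Fintype α] [PartialOrder α]

open Polynomial in
/-- the sum of the weights of all energy functions, by total energy -/
noncomputable def SSx (α : Type) [Fintype α] [PartialOrder α] (i : ℕ) : PowerSeries ℤ[X] :=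
  PowerSeries.mk fun r => ∑ ε ∈ (univ : Finset α).piAntidiag r, tm i ε

open Polynomial in
lemma coeff_SSx (i r : ℕ) : PowerSeries.coeff r (SSx α i) =
    ∑ ε ∈ (univ : Finset α).piAntidiag r, tm i ε := by
  rw [SSx, PowerSeries.coeff_mk]

open Polynomial in
/-- the sum over the energy functions in terms of the functions `w` -/
lemma sum_tm_eq {h : Fin (Fintype.card α) → ℕ} (hG : IsGaussianWith α h) (i r : ℕ) :
    ∑ ε ∈ (univ : Finset α).piAntidiag r, tm i ε =
      (∑ w ∈ ((univ : Finset α).piAntidiag (∑ x : α, w0 i x + r)).filter (fun w => Good i w),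
        (X : ℤ[X]) ^ (inS i w).card * (1 + X) ^ (pkS i w).card).comp (X - 1) := by
  have hg := grad hG
  have h2 : ∑ w ∈ ((univ : Finset α).piAntidiag (∑ x : α, w0 i x + r)).filter
        (fun w => Good i w), (X : ℤ[X]) ^ (inS i w).card * (1 + X) ^ (pkS i w).card =
      ∑ ε ∈ ((univ : Finset α).piAntidiag r).filter (fun ε => Good i (w0 i + ε)),
        X ^ (inS i (w0 i + ε)).card * (1 + X) ^ (pkS i (w0 i + ε)).card := by
    symm
    refine Finset.sum_nbij' (fun ε => w0 i + ε) (fun w x => w x - w0 i x) ?_ ?_ ?_ ?_ ?_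
    · intro ε hε
      rw [mem_filter, mem_piAntidiag] at hε ⊢
      refine ⟨⟨?_, fun _ _ => mem_univ _⟩, hε.2⟩
      have h3 : ∑ x : α, ε x = r := hε.1.1
      change ∑ x : α, (w0 i x + ε x) = _
      rw [Finset.sum_add_distrib, h3]
    · intro w hw
      rw [mem_filter, mem_piAntidiag] at hw ⊢
      have h3 : ∑ x : α, w x = ∑ x : α, w0 i x + r := hw.1.1
      have h4 : w0 i + (fun x => w x - w0 i x) = w := by
        funext x
        have := w0_le_of_good hw.2 x
        change w0 i x + (w x - w0 i x) = w x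
        omega
      refine ⟨⟨?_, fun _ _ => mem_univ _⟩, ?_⟩
      · have h5 : ∑ x : α, w x = ∑ x : α, w0 i x + ∑ x : α, (w x - w0 i x) := by
          rw [← Finset.sum_add_distrib]
          apply Finset.sum_congr rfl
          intro x _
          have := w0_le_of_good hw.2 x
          omega
        change ∑ x : α, (w x - w0 i x) = r
        omega
      · rw [h4]
        exact hw.2
    · intro ε _
      funext x
      change w0 i x + ε x - w0 i x = ε x
      omega
    · intro w hw
      rw [mem_filter, mem_piAntidiag] at hw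
      funext x
      have := w0_le_of_good hw.2 x
      change w0 i x + (w x - w0 i x) = w x
      omega
    · intro ε _
      rfl
  rw [h2]
  simp only [Polynomial.mul_comp, Polynomial.pow_comp, Polynomial.add_comp, Polynomial.X_comp,
    Polynomial.one_comp, Polynomial.sum_comp, add_sub_cancel]
  rw [Finset.sum_filter]
  apply Finset.sum_congr rfl
  intro ε _
  rw [tm]
  by_cases h3 : GoodE i ε
  · rw [if_pos h3, if_pos ((good_iff hg).2 h3), inS_eq hg h3, pkS_eq hg h3]
  · rw [if_neg h3, if_neg (fun h4 => h3 ((good_iff hg).1 h4))]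

open Polynomial in
/-- the expansion over all subsets -/
lemma sum_tm_subsets {h : Fin (Fintype.card α) → ℕ} (hG : IsGaussianWith α h) (i r : ℕ) :
    ∑ ε ∈ (univ : Finset α).piAntidiag r, tm i ε =
      ∑ s ∈ (univ : Finset α).powerset,
        C (tc (Uinf (univ : Finset α)) (∑ x : α, w0 i x + r + (i + 1) * s.card)
          (i * Fintype.card α + ∑ x ∈ s, (corank x + 1))) * (X - 1 : ℤ[X]) ^ s.card := by
  rw [sum_tm_eq hG, sum_good_eq]
  simp only [Polynomial.sum_comp, Polynomial.mul_comp, Polynomial.C_comp, Polynomial.pow_comp,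
    Polynomial.X_comp]
  have h2 : ∀ s ∈ (univ : Finset α).powerset, s.card ∈ range (Fintype.card α + 1) := by
    intro s _
    rw [mem_range, Nat.lt_succ_iff]
    exact card_le_univ s
  rw [← Finset.sum_fiberwise_of_maps_to h2]
  apply Finset.sum_congr rfl
  intro k hk
  rw [mem_range, Nat.lt_succ_iff] at hk
  rw [A_eq' hG k hk, esym, Finset.mul_sum, tc_sum, map_sum, Finset.sum_mul,
    Finset.powersetCard_eq_filter]
  apply Finset.sum_congr rfl
  intro s hs
  rw [mem_filter] at hs
  rw [tc_mul_X_pow, hs.2]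

lemma sum_w0 (i : ℕ) : ∑ x : α, w0 i x + ∑ x : α, (i - corank x) = i * Fintype.card α := by
  rw [← Finset.sum_add_distrib, mul_comm, ← smul_eq_mul, ← Finset.card_univ, ← Finset.sum_const]
  apply Finset.sum_congr rfl
  intro x _
  unfold w0
  omega

open Polynomial in
/-- **the exact formula** -/
theorem SSx_eq {h : Fin (Fintype.card α) → ℕ} (hG : IsGaussianWith α h) (i : ℕ) :
    SSx α i = PowerSeries.map (C : ℤ →+* ℤ[X]) (Uinf (univ : Finset α)) *
      ∏ x : α, (PowerSeries.C (X - 1 : ℤ[X]) * PowerSeries.X ^ (corank x - i) +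
        PowerSeries.X ^ (i - corank x)) := by
  ext1 r
  rw [coeff_SSx, sum_tm_subsets hG, Finset.prod_add, Finset.mul_sum, map_sum]
  apply Finset.sum_congr rfl
  intro s _
  rw [Finset.prod_mul_distrib, Finset.prod_const, Finset.prod_pow_eq_pow_sum,
    Finset.prod_pow_eq_pow_sum]
  have e1 : PowerSeries.map (C : ℤ →+* ℤ[X]) (Uinf (univ : Finset α)) *
      (PowerSeries.C (X - 1 : ℤ[X]) ^ s.card * PowerSeries.X ^ (∑ x ∈ s, (corank x - i)) *
        PowerSeries.X ^ (∑ x ∈ univ \ s, (i - corank x))) =
      PowerSeries.C ((X - 1 : ℤ[X]) ^ s.card) * (PowerSeries.map (C : ℤ →+* ℤ[X])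
        (Uinf (univ : Finset α)) * PowerSeries.X ^ (∑ x ∈ s, (corank x - i) +
          ∑ x ∈ univ \ s, (i - corank x))) := by
    rw [pow_add, map_pow]
    ring
  rw [e1, PowerSeries.coeff_C_mul, PowerSeries.coeff_mul_X_pow', mul_comm]
  congr 1
  have e2 := sum_w0 (α := α) i
  have e3 : ∑ x ∈ s, (i - corank x) + ∑ x ∈ univ \ s, (i - corank x) =
      ∑ x : α, (i - corank x) := by
    rw [add_comm]
    exact Finset.sum_sdiff (subset_univ s)
  have e4 : ∑ x ∈ s, (corank x + 1) + ∑ x ∈ s, (i - corank x) =
      (i + 1) * s.card + ∑ x ∈ s, (corank x - i) := by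
    rw [← Finset.sum_add_distrib, mul_comm (i + 1), ← smul_eq_mul, ← Finset.sum_const,
      ← Finset.sum_add_distrib]
    apply Finset.sum_congr rfl
    intro x _
    omega
  unfold tc
  set a := ∑ x : α, w0 i x
  set a1 := ∑ x : α, (i - corank x)
  set b1 := ∑ x ∈ s, (i - corank x)
  set b2 := ∑ x ∈ univ \ s, (i - corank x)
  set b3 := ∑ x ∈ s, (corank x + 1)
  set b4 := ∑ x ∈ s, (corank x - i)
  by_cases hc : b4 + b2 ≤ r
  · rw [if_pos hc, if_pos (by omega), PowerSeries.coeff_map]
    have e5 : r - (b4 + b2) = a + r + (i + 1) * s.card - (i * Fintype.card α + b3) := by omega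
    rw [e5]
  · rw [if_neg hc, if_neg (by omega), map_zero]

/-- the normalization -/
theorem Uinf_mul_prod {h : Fin (Fintype.card α) → ℕ} (hG : IsGaussianWith α h) :
    Uinf (univ : Finset α) * ∏ x : α, (1 - (PowerSeries.X : PowerSeries ℤ) ^ (corank x + 1)) = 1 := by
  have h1 := A_mul_prod hG 0 (by omega)
  rw [A_zero] at h1
  have h3 : esym h 0 = 1 := by simp [esym]
  rw [h3] at h1
  obtain ⟨e, he⟩ := exists_equiv hG
  have h2 : ∏ x : α, (1 - (PowerSeries.X : PowerSeries ℤ) ^ (corank x + 1)) =
      ∏ j, (1 - (PowerSeries.X : PowerSeries ℤ) ^ (h j)) := by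
    rw [← Equiv.prod_comp e]
    apply Finset.prod_congr rfl
    intro j _
    rw [he]
  rw [h2]
  exact h1

open Polynomial in
/-- **the exact formula, by sides** -/
theorem SSx_eq' {h : Fin (Fintype.card α) → ℕ} (hG : IsGaussianWith α h) (i : ℕ) :
    SSx α i = PowerSeries.map (C : ℤ →+* ℤ[X]) (Uinf (univ : Finset α)) *
      PowerSeries.C ((X : ℤ[X]) ^ (lev α i).card) *
      (∏ x ∈ univ.filter (fun x : α => corank x < i),
        (PowerSeries.C (X - 1 : ℤ[X]) + PowerSeries.X ^ (i - corank x))) *
      ∏ x ∈ univ.filter (fun x : α => i < corank x),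
        (1 + PowerSeries.C (X - 1 : ℤ[X]) * PowerSeries.X ^ (corank x - i)) := by
  rw [SSx_eq hG, mul_assoc, mul_assoc]
  congr 1
  have h1 : (univ : Finset α) = (lev α i) ∪ (univ.filter (fun x : α => corank x < i) ∪
      univ.filter (fun x : α => i < corank x)) := by
    ext x
    simp only [mem_univ, mem_union, mem_lev, mem_filter, true_and, true_iff]
    omega
  have h2 : Disjoint (univ.filter (fun x : α => corank x < i))
      (univ.filter (fun x : α => i < corank x)) := by
    rw [Finset.disjoint_left]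
    intro x hx hx'
    rw [mem_filter] at hx hx'
    omega
  have h3 : Disjoint (lev α i) (univ.filter (fun x : α => corank x < i) ∪
      univ.filter (fun x : α => i < corank x)) := by
    rw [Finset.disjoint_left]
    intro x hx hx'
    rw [mem_lev] at hx
    rw [mem_union, mem_filter, mem_filter] at hx'
    omega
  rw [h1, prod_union h3, prod_union h2]
  congr 1
  · rw [Finset.prod_congr rfl (g := fun _ => PowerSeries.C (X : ℤ[X])), prod_const, map_pow]
    intro x hx
    rw [mem_lev] at hx
    rw [hx, Nat.sub_self, pow_zero, mul_one, map_sub, map_one, sub_add_cancel]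
  · congr 1
    · apply Finset.prod_congr _ _
      · rw [← h1]
      · intro x hx
        rw [mem_filter] at hx
        rw [Nat.sub_eq_zero_of_le hx.2.le, pow_zero, mul_one]
    · apply Finset.prod_congr _ _
      · rw [← h1]
      · intro x hx
        rw [mem_filter] at hx
        rw [Nat.sub_eq_zero_of_le hx.2.le, pow_zero, add_comm]

end Pool.Gauss
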