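import Mathlib

/-!
# The rescaled ring

`AA = ℤ[Z][[w]]`, and the ring homomorphism `Psi : ℤ[X][[q]] → AA`, `X ↦ w`, `q ↦ w Z`.
-/

set_option autoImplicit false
open scoped Classical
open Finset Polynomial

namespace Pool.Gauss

/-- the rescaled ring -/
abbrev AA : Type := PowerSeries (Polynomial ℤ)

/-- the variable `w` -/
noncomputable def wA : AA := PowerSeries.X

/-- the variable `Z` -/
noncomputable def ZA : AA := PowerSeries.C (X : ℤ[X])

/-- the variable `q = w Z` -/
noncomputable def qA : AA := wA * ZA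

/-- the function of the homomorphism `Psi` -/
noncomputable def PsiF (f : PowerSeries ℤ[X]) : AA :=
  PowerSeries.mk fun D => ∑ p ∈ antidiagonal D,
    Polynomial.monomial p.1 ((PowerSeries.coeff p.1 f).coeff p.2)

lemma coeff_PsiF (f : PowerSeries ℤ[X]) (D : ℕ) :
    PowerSeries.coeff D (PsiF f) = ∑ p ∈ antidiagonal D,
      Polynomial.monomial p.1 ((PowerSeries.coeff p.1 f).coeff p.2) := by
  rw [PsiF, PowerSeries.coeff_mk]

lemma PsiF_add (f g : PowerSeries ℤ[X]) : PsiF (f + g) = PsiF f + PsiF g := by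
  ext1 D
  rw [map_add, coeff_PsiF, coeff_PsiF, coeff_PsiF, ← sum_add_distrib]
  apply sum_congr rfl
  intro p _
  rw [map_add, coeff_add, map_add]

lemma PsiF_mul (f g : PowerSeries ℤ[X]) : PsiF (f * g) = PsiF f * PsiF g := by
  ext1 D
  rw [PowerSeries.coeff_mul, coeff_PsiF]
  have hL : ∀ p ∈ antidiagonal D,
      Polynomial.monomial p.1 ((PowerSeries.coeff p.1 (f * g)).coeff p.2) =
      ∑ c ∈ antidiagonal p.1, ∑ d ∈ antidiagonal p.2,
        Polynomial.monomial (c.1 + c.2)
          ((PowerSeries.coeff c.1 f).coeff d.1 * (PowerSeries.coeff c.2 g).coeff d.2) := by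
    intro p _
    rw [PowerSeries.coeff_mul, finsetSum_coeff, map_sum]
    apply sum_congr rfl
    intro c hc
    rw [coeff_mul, map_sum]
    apply sum_congr rfl
    intro d _
    rw [HasAntidiagonal.mem_antidiagonal] at hc
    rw [hc]
  have hR : ∀ p ∈ antidiagonal D, PowerSeries.coeff p.1 (PsiF f) * PowerSeries.coeff p.2 (PsiF g) =
      ∑ c ∈ antidiagonal p.1, ∑ d ∈ antidiagonal p.2,
        Polynomial.monomial (c.1 + d.1)
          ((PowerSeries.coeff c.1 f).coeff c.2 * (PowerSeries.coeff d.1 g).coeff d.2) := by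
    intro p _
    rw [coeff_PsiF, coeff_PsiF, sum_mul_sum]
    apply sum_congr rfl
    intro c _
    apply sum_congr rfl
    intro d _
    rw [Polynomial.monomial_mul_monomial]
  rw [sum_congr rfl hL, sum_congr rfl hR]
  simp_rw [← Finset.sum_product']
  rw [Finset.sum_sigma', Finset.sum_sigma']
  refine Finset.sum_bij' (fun x _ => ⟨(x.2.1.1 + x.2.2.1, x.2.1.2 + x.2.2.2),
    ((x.2.1.1, x.2.2.1), (x.2.1.2, x.2.2.2))⟩) (fun x _ => ⟨(x.2.1.1 + x.2.2.1,
    x.2.1.2 + x.2.2.2), ((x.2.1.1, x.2.2.1), (x.2.1.2, x.2.2.2))⟩) ?_ ?_ ?_ ?_ ?_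
  · rintro ⟨p, c, d⟩ hx
    simp only [mem_sigma, mem_product, HasAntidiagonal.mem_antidiagonal] at hx ⊢
    refine ⟨?_, trivial, trivial⟩
    omega
  · rintro ⟨p, c, d⟩ hx
    simp only [mem_sigma, mem_product, HasAntidiagonal.mem_antidiagonal] at hx ⊢
    refine ⟨?_, trivial, trivial⟩
    omega
  · rintro ⟨⟨p1, p2⟩, ⟨c1, c2⟩, ⟨d1, d2⟩⟩ hx
    simp only [mem_sigma, mem_product, HasAntidiagonal.mem_antidiagonal] at hx
    obtain ⟨_, h1, h2⟩ := hx
    simp only
    rw [h1, h2]
  · rintro ⟨⟨p1, p2⟩, ⟨c1, c2⟩, ⟨d1, d2⟩⟩ hx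
    simp only [mem_sigma, mem_product, HasAntidiagonal.mem_antidiagonal] at hx
    obtain ⟨_, h1, h2⟩ := hx
    simp only
    rw [h1, h2]
  · rintro ⟨p, c, d⟩ _
    rfl

lemma PsiF_C (P : ℤ[X]) (D : ℕ) :
    PowerSeries.coeff D (PsiF (PowerSeries.C P)) = Polynomial.C (P.coeff D) := by
  rw [coeff_PsiF, Finset.sum_eq_single (0, D)]
  · simp
  · rintro ⟨a, b⟩ h1 h2
    rw [HasAntidiagonal.mem_antidiagonal] at h1
    simp only at h1 ⊢
    have : a ≠ 0 := by
      rintro rfl
      apply h2
      rw [← h1, zero_add]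
    rw [PowerSeries.coeff_C, if_neg this]
    simp
  · intro h
    exact absurd (HasAntidiagonal.mem_antidiagonal.2 (zero_add D)) h

/-- the homomorphism `q ↦ w Z`, `X ↦ w` -/
noncomputable def Psi : PowerSeries ℤ[X] →+* AA where
  toFun := PsiF
  map_one' := by
    ext1 D
    have := PsiF_C 1 D
    rw [map_one] at this
    rw [this, PowerSeries.coeff_one, coeff_one]
    by_cases h1 : D = 0
    · rw [if_pos h1, if_pos h1]
      simp
    · rw [if_neg h1, if_neg h1]
      simp
  map_mul' := PsiF_mul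
  map_zero' := by
    ext1 D
    rw [coeff_PsiF]
    simp
  map_add' := PsiF_add

lemma coeff_Psi (f : PowerSeries ℤ[X]) (D : ℕ) :
    PowerSeries.coeff D (Psi f) = ∑ p ∈ antidiagonal D,
      Polynomial.monomial p.1 ((PowerSeries.coeff p.1 f).coeff p.2) := coeff_PsiF f D

/-- the image of the polynomials in `w` -/
noncomputable def iotaA : ℤ[X] →+* AA := Psi.comp PowerSeries.C

lemma iotaA_apply (P : ℤ[X]) : iotaA P = Psi (PowerSeries.C P) := rfl

lemma coeff_iotaA (P : ℤ[X]) (D : ℕ) :
    PowerSeries.coeff D (iotaA P) = Polynomial.C (P.coeff D) := PsiF_C P D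

lemma iotaA_X : iotaA X = wA := by
  ext1 D
  rw [coeff_iotaA, wA, PowerSeries.coeff_X, coeff_X]
  by_cases h : D = 1
  · rw [if_pos h, if_pos h.symm]
    simp
  · rw [if_neg h, if_neg (fun h' => h h'.symm)]
    simp

lemma Psi_X : Psi PowerSeries.X = qA := by
  ext1 D
  rw [coeff_Psi, qA, wA, ZA, PowerSeries.coeff_mul_C, PowerSeries.coeff_X]
  by_cases h : D = 1
  · subst h
    rw [if_pos rfl, Finset.sum_eq_single (1, 0)]
    · simp [Polynomial.X]
    · rintro ⟨a, b⟩ h1 h2
      rw [HasAntidiagonal.mem_antidiagonal] at h1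
      simp only at h1 ⊢
      rw [PowerSeries.coeff_X, if_neg]
      · simp
      · rintro rfl
        apply h2
        rw [Prod.mk.injEq]
        omega
    · intro h
      exfalso
      apply h
      rw [HasAntidiagonal.mem_antidiagonal]
      exact rfl
  · rw [if_neg h, zero_mul]
    apply Finset.sum_eq_zero
    rintro ⟨a, b⟩ h1
    rw [HasAntidiagonal.mem_antidiagonal] at h1
    simp only at h1 ⊢
    rw [PowerSeries.coeff_X]
    split_ifs with h2
    · rw [coeff_one, if_neg (by omega)]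
      simp
    · simp

/-- `1 + q + q^2 + ...` -/
noncomputable def geoA : AA := Psi (PowerSeries.mk fun _ => 1)

lemma geoA_mul : (1 - qA) * geoA = 1 := by
  rw [geoA, ← Psi_X, ← map_one Psi, ← map_sub, ← map_mul, mul_comm]
  congr 1
  exact PowerSeries.mk_one_mul_one_sub_eq_one ℤ[X]

lemma geoA_eq : geoA = 1 + qA * geoA := by
  have := geoA_mul
  linear_combination this

/-- `Psi` of a series which is constant after `M` -/
lemma Psi_mk (f : ℕ → ℤ[X]) (M : ℕ) (c : ℤ[X]) (hf : ∀ a, M < a → f a = c) :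
    Psi (PowerSeries.mk f) = ∑ a ∈ range (M + 1), iotaA (f a) * qA ^ a +
      iotaA c * (qA ^ (M + 1) * geoA) := by
  have h1 : PowerSeries.mk f = ∑ a ∈ range (M + 1), PowerSeries.C (f a) * PowerSeries.X ^ a +
      PowerSeries.C c * (PowerSeries.X ^ (M + 1) * PowerSeries.mk fun _ => 1) := by
    ext1 j
    rw [map_add, map_sum, PowerSeries.coeff_mk, PowerSeries.coeff_C_mul,
      PowerSeries.coeff_X_pow_mul', PowerSeries.coeff_mk]
    simp_rw [PowerSeries.coeff_C_mul, PowerSeries.coeff_X_pow]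
    by_cases h : j < M + 1
    · rw [if_neg (by omega), Finset.sum_eq_single j]
      · rw [if_pos rfl]
        ring
      · intro b _ hb
        rw [if_neg (fun h => hb h.symm), mul_zero]
      · intro h'
        exact absurd (mem_range.2 h) h'
    · rw [if_pos (by omega), Finset.sum_eq_zero, hf j (by omega)]
      · ring
      · intro b hb
        rw [mem_range] at hb
        rw [if_neg (by omega), mul_zero]
  rw [h1, map_add, map_sum, map_mul, map_mul, map_pow, Psi_X, iotaA_apply, geoA]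
  congr 1
  apply sum_congr rfl
  intro a _
  rw [map_mul, map_pow, Psi_X, iotaA_apply]

lemma coeff_coeff_Psi (f : PowerSeries ℤ[X]) (D J : ℕ) (h : D < J) :
    (PowerSeries.coeff D (Psi f)).coeff J = 0 := by
  rw [coeff_Psi, finsetSum_coeff]
  apply Finset.sum_eq_zero
  intro p hp
  rw [HasAntidiagonal.mem_antidiagonal] at hp
  rw [coeff_monomial, if_neg (by omega)]

/-- the elements without coefficients `Z^J w^d`, `J > d` -/
def Low (f : AA) : Prop := ∀ d J, d < J → (PowerSeries.coeff d f).coeff J = 0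

lemma Low_Psi (f : PowerSeries ℤ[X]) : Low (Psi f) := fun d J h => coeff_coeff_Psi f d J h

lemma Low.mul {f g : AA} (hf : Low f) (hg : Low g) : Low (f * g) := by
  intro d J h
  rw [PowerSeries.coeff_mul, finsetSum_coeff]
  apply Finset.sum_eq_zero
  intro p hp
  rw [HasAntidiagonal.mem_antidiagonal] at hp
  rw [coeff_mul]
  apply Finset.sum_eq_zero
  intro c hc
  rw [HasAntidiagonal.mem_antidiagonal] at hc
  rcases Nat.lt_or_ge p.1 c.1 with h1 | h1
  · rw [hf _ _ h1, zero_mul]
  · rw [hg _ _ (show p.2 < c.2 by omega), mul_zero]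

lemma Low_one : Low 1 := by
  have := Low_Psi 1
  rwa [map_one] at this

lemma Low.pow {f : AA} (hf : Low f) (n : ℕ) : Low (f ^ n) := by
  induction n with
  | zero => rw [pow_zero]; exact Low_one
  | succ n ih => rw [pow_succ]; exact ih.mul hf

lemma Low.add {f g : AA} (hf : Low f) (hg : Low g) : Low (f + g) := by
  intro d J h
  rw [map_add, coeff_add, hf d J h, hg d J h, add_zero]

lemma Low.neg {f : AA} (hf : Low f) : Low (-f) := by
  intro d J h
  rw [map_neg, coeff_neg, hf d J h, neg_zero]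

/-- the inverse of `w - 1` -/
noncomputable def iwA : AA := - PowerSeries.mk fun _ => 1

lemma iwA_mul : (wA - 1) * iwA = 1 := by
  have h := PowerSeries.mk_one_mul_one_sub_eq_one ℤ[X]
  rw [iwA, wA]
  linear_combination h

lemma Low_iwA : Low iwA := by
  apply Low.neg
  intro d J h
  rw [PowerSeries.coeff_mk, coeff_one, if_neg (by omega)]

lemma wA_ne_zero : wA ≠ 0 := PowerSeries.X_ne_zero

end Pool.Gauss
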