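import Mathlib

/-!
# The functional of a row and the two-body expansion

`Ev w` is the linear functional on the polynomials in the variables `a_y`, `y` an element of a row,
with `Ev 1 = 1`, `Ev (a_y ^ k) = w ^ (k - 1) * (w - 1)` for `k ≥ 1`, and multiplicative over disjoint
sets of variables: `w ^ n * Ev P = ∑ S, (w - 1) ^ |S| * P(a_y = w if y ∈ S else 0)`.

`two_body`: let `F s` be factors with pairwise disjoint supports and `Ev (F s) = 1`, and `rho j`
factors which are divisible by `w`. Then modulo `w ^ 3`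
`2 * Ev (∏ F s * ∏ (1 + rho j)) = 2 + 2 * ∑ k_j + (∑ k_j) ^ 2 - ∑ k_j ^ 2 + ∑ (k_jl - k_j * k_l)`,
the last sum over the ordered pairs `j ≠ l` which interact.
-/

set_option autoImplicit false
open scoped Classical
open Finset MvPolynomial

namespace Pool.Gauss

variable {A : Type} [CommRing A] {Y : Type}

/-- the value of the functional on a monomial -/
noncomputable def evm (w : A) (m : Y →₀ ℕ) : A := m.prod fun _ k => w ^ (k - 1) * (w - 1)

/-- the functional of a row -/
noncomputable def Ev (w : A) : MvPolynomial Y A →ₗ[A] A :=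
  (basisMonomials Y A).constr A (evm w)

lemma Ev_monomial (w : A) (m : Y →₀ ℕ) (c : A) :
    Ev w (monomial m c) = c * evm w m := by
  have h : (monomial m c : MvPolynomial Y A) = c • (basisMonomials Y A) m := by
    rw [coe_basisMonomials, smul_monomial, smul_eq_mul, mul_one]
  rw [h, map_smul, Ev, Module.Basis.constr_basis, smul_eq_mul]

lemma evm_zero (w : A) : evm w (0 : Y →₀ ℕ) = 1 := by
  rw [evm, Finsupp.prod_zero_index]

lemma Ev_C (w : A) (c : A) : Ev w (C c : MvPolynomial Y A) = c := by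
  rw [C_apply, Ev_monomial, evm_zero, mul_one]

lemma Ev_one (w : A) : Ev w (1 : MvPolynomial Y A) = 1 := by
  rw [← C_1, Ev_C]

lemma Ev_C_mul (w c : A) (P : MvPolynomial Y A) : Ev w (C c * P) = c * Ev w P := by
  rw [← smul_eq_C_mul, map_smul, smul_eq_mul]

lemma evm_add (w : A) {m m' : Y →₀ ℕ} (h : Disjoint m.support m'.support) :
    evm w (m + m') = evm w m * evm w m' := by
  rw [evm, evm, evm, Finsupp.prod_add_index_of_disjoint h]

lemma Ev_mul (w : A) {s t : Set Y} (hst : Disjoint s t) {P Q : MvPolynomial Y A}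
    (hP : P ∈ supported A s) (hQ : Q ∈ supported A t) : Ev w (P * Q) = Ev w P * Ev w Q := by
  rw [mem_supported] at hP hQ
  have h1 : ∀ m ∈ P.support, ∀ m' ∈ Q.support, Disjoint m.support m'.support := by
    intro m hm m' hm'
    rw [Finset.disjoint_left]
    intro y hy hy'
    have g1 : y ∈ s := hP (mem_coe.2 ((mem_vars_iff_mem_support y).2 ⟨m, hm, hy⟩))
    have g2 : y ∈ t := hQ (mem_coe.2 ((mem_vars_iff_mem_support y).2 ⟨m', hm', hy'⟩))
    exact Set.disjoint_left.1 hst g1 g2
  conv_lhs => rw [P.as_sum, Q.as_sum]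
  rw [sum_mul_sum, map_sum]
  conv_rhs => rw [P.as_sum, Q.as_sum, map_sum, map_sum]
  rw [sum_mul_sum]
  apply sum_congr rfl
  intro m hm
  rw [map_sum]
  apply sum_congr rfl
  intro m' hm'
  rw [monomial_mul, Ev_monomial, Ev_monomial, Ev_monomial, evm_add w (h1 m hm m' hm')]
  ring

/-- the functional as a sum over the subsets of the row -/
lemma Ev_eval [Fintype Y] (w : A) (P : MvPolynomial Y A) :
    w ^ Fintype.card Y * Ev w P =
      ∑ S : Finset Y, (w - 1) ^ S.card * eval (fun y => if y ∈ S then w else 0) P := by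
  induction P using MvPolynomial.induction_on' with
  | monomial m c =>
    rw [Ev_monomial]
    have h1 : ∀ S : Finset Y, (w - 1) ^ S.card *
        eval (fun y => if y ∈ S then w else 0) (monomial m c) =
        c * ((∏ y ∈ S, (w - 1) * w ^ m y) * ∏ y ∈ univ \ S, (0 : A) ^ m y) := by
      intro S
      rw [eval_monomial, Finsupp.prod_fintype _ _ (fun y => pow_zero _)]
      rw [← prod_sdiff (subset_univ S), prod_mul_distrib, prod_const]
      have g1 : ∏ y ∈ S, (if y ∈ S then w else 0) ^ m y = ∏ y ∈ S, w ^ m y :=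
        prod_congr rfl fun y hy => by rw [if_pos hy]
      have g2 : ∏ y ∈ univ \ S, (if y ∈ S then w else 0) ^ m y = ∏ y ∈ univ \ S, (0 : A) ^ m y :=
        prod_congr rfl fun y hy => by rw [if_neg (mem_sdiff.1 hy).2]
      rw [g1, g2]
      ring
    rw [sum_congr rfl fun S _ => h1 S, ← mul_sum]
    have h2 : ∑ S : Finset Y, ((∏ y ∈ S, (w - 1) * w ^ m y) * ∏ y ∈ univ \ S, (0 : A) ^ m y) =
        ∏ y : Y, ((w - 1) * w ^ m y + 0 ^ m y) := by
      rw [prod_add, powerset_univ]
    rw [h2, evm, Finsupp.prod]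
    have h3 : ∏ y : Y, ((w - 1) * w ^ m y + 0 ^ m y) =
        ∏ y : Y, (w * if y ∈ m.support then w ^ (m y - 1) * (w - 1) else 1) := by
      apply prod_congr rfl
      intro y _
      by_cases hy : y ∈ m.support
      · rw [if_pos hy]
        have g : m y ≠ 0 := Finsupp.mem_support_iff.1 hy
        obtain ⟨k, hk⟩ := Nat.exists_eq_succ_of_ne_zero g
        rw [hk, Nat.succ_eq_add_one, Nat.add_sub_cancel, zero_pow (by omega)]
        ring
      · rw [if_neg hy]
        have g : m y = 0 := Finsupp.notMem_support_iff.1 hy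
        rw [g]
        ring
    have h4 : ∏ y : Y, (w * if y ∈ m.support then w ^ (m y - 1) * (w - 1) else 1) =
        w ^ Fintype.card Y * ∏ y ∈ m.support, w ^ (m y - 1) * (w - 1) := by
      rw [prod_mul_distrib, prod_const, card_univ, prod_ite_mem, univ_inter]
    rw [h3, h4]
    ring
  | add P Q hP hQ =>
    rw [map_add, mul_add, hP, hQ, ← sum_add_distrib]
    apply sum_congr rfl
    intro S _
    rw [map_add]
    ring

section

variable {σ ι : Type}

lemma prod_supported {C : Finset σ} {F : σ → MvPolynomial Y A} {T : σ → Finset Y} {U : Set Y}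
    (hF : ∀ s ∈ C, F s ∈ supported A (T s : Set Y)) (hU : ∀ s ∈ C, (T s : Set Y) ⊆ U) :
    ∏ s ∈ C, F s ∈ supported A U :=
  prod_mem fun s hs => supported_mono (hU s hs) (hF s hs)

lemma Ev_prod_eq_one (w : A) {C : Finset σ} {F : σ → MvPolynomial Y A} {T : σ → Finset Y}
    (hF : ∀ s ∈ C, F s ∈ supported A (T s : Set Y))
    (hT : ∀ s ∈ C, ∀ t ∈ C, s ≠ t → Disjoint (T s) (T t)) (h1 : ∀ s ∈ C, Ev w (F s) = 1) :
    Ev w (∏ s ∈ C, F s) = 1 := by
  induction C using Finset.induction_on with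
  | empty => rw [prod_empty, Ev_one]
  | insert s C hs ih =>
    rw [prod_insert hs]
    have hd : Disjoint (T s : Set Y) (⋃ t ∈ C, (T t : Set Y)) := by
      rw [Set.disjoint_iUnion₂_right]
      intro t ht
      have := hT s (mem_insert_self s C) t (mem_insert_of_mem ht) (by rintro rfl; exact hs ht)
      exact_mod_cast this
    rw [Ev_mul w hd (hF s (mem_insert_self s C))
      (prod_supported (fun t ht => hF t (mem_insert_of_mem ht))
        (fun t ht => Set.subset_biUnion_of_mem (u := fun t => (T t : Set Y)) (mem_coe.2 ht))),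
      h1 s (mem_insert_self s C), one_mul]
    exact ih (fun t ht => hF t (mem_insert_of_mem ht))
      (fun t ht t' ht' => hT t (mem_insert_of_mem ht) t' (mem_insert_of_mem ht'))
      (fun t ht => h1 t (mem_insert_of_mem ht))

/-- the factors which meet the set `U` -/
noncomputable def tch (C : Finset σ) (T : σ → Finset Y) (U : Finset Y) : Finset σ :=
  C.filter fun s => ¬ Disjoint (T s) U

/-- the factors which do not meet the support can be dropped -/
lemma Ev_prod_tch (w : A) {C : Finset σ} {F : σ → MvPolynomial Y A} {T : σ → Finset Y}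
    (hF : ∀ s ∈ C, F s ∈ supported A (T s : Set Y))
    (hT : ∀ s ∈ C, ∀ t ∈ C, s ≠ t → Disjoint (T s) (T t)) (h1 : ∀ s ∈ C, Ev w (F s) = 1)
    {U : Finset Y} {P : MvPolynomial Y A} (hP : P ∈ supported A (U : Set Y)) :
    Ev w ((∏ s ∈ C, F s) * P) = Ev w ((∏ s ∈ tch C T U, F s) * P) := by
  have h2 : ∏ s ∈ C, F s = (∏ s ∈ C.filter (fun s => Disjoint (T s) U), F s) *
      ∏ s ∈ tch C T U, F s := by
    rw [tch, prod_filter_mul_prod_filter_not]
  have hd : Disjoint (⋃ s ∈ C.filter (fun s => Disjoint (T s) U), (T s : Set Y))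
      ((⋃ s ∈ tch C T U, (T s : Set Y)) ∪ (U : Set Y)) := by
    rw [Set.disjoint_union_right]
    constructor
    · rw [Set.disjoint_iUnion₂_right]
      intro t ht
      rw [Set.disjoint_iUnion₂_left]
      intro s hs
      rw [mem_filter] at hs
      rw [tch, mem_filter] at ht
      have := hT s hs.1 t ht.1 (by rintro rfl; exact ht.2 hs.2)
      exact_mod_cast this
    · rw [Set.disjoint_iUnion₂_left]
      intro s hs
      rw [mem_filter] at hs
      exact_mod_cast hs.2
  rw [h2, mul_assoc, Ev_mul w hd, Ev_prod_eq_one w (C := C.filter _) (F := F) (T := T), one_mul]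
  · exact fun s hs => hF s (mem_filter.1 hs).1
  · exact fun s hs t ht => hT s (mem_filter.1 hs).1 t (mem_filter.1 ht).1
  · exact fun s hs => h1 s (mem_filter.1 hs).1
  · exact prod_supported (fun s hs => hF s (mem_filter.1 hs).1)
      (fun s hs => Set.subset_biUnion_of_mem (u := fun s => (T s : Set Y)) (mem_coe.2 hs))
  · exact mul_mem (prod_supported (fun s hs => hF s (mem_filter.1 hs).1)
      (fun s hs => Set.subset_union_of_subset_left
        (Set.subset_biUnion_of_mem (u := fun s => (T s : Set Y)) (mem_coe.2 hs)) _))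
      (supported_mono Set.subset_union_right hP)

/-- twice a product of factors close to one, modulo third order -/
lemma two_mul_prod {B : Type} [CommRing B] (w : B) (J : Finset ι) (r : ι → B)
    (hr : ∀ j ∈ J, w ∣ r j) :
    w ^ 3 ∣ 2 * ∏ j ∈ J, (1 + r j) -
      (2 + 2 * ∑ j ∈ J, r j + (∑ j ∈ J, r j) ^ 2 - ∑ j ∈ J, r j ^ 2) := by
  induction J using Finset.induction_on with
  | empty => simp
  | insert j J hj ih =>
    have h1 := ih (fun l hl => hr l (mem_insert_of_mem hl))
    rw [prod_insert hj, sum_insert hj, sum_insert hj]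
    obtain ⟨q, hq⟩ := h1
    obtain ⟨a, ha⟩ := hr j (mem_insert_self j J)
    obtain ⟨b, hb⟩ : w ∣ ∑ l ∈ J, r l := dvd_sum fun l hl => hr l (mem_insert_of_mem hl)
    obtain ⟨c, hc⟩ : w ^ 2 ∣ ∑ l ∈ J, r l ^ 2 :=
      dvd_sum fun l hl => pow_dvd_pow_of_dvd (hr l (mem_insert_of_mem hl)) 2
    refine ⟨(1 + r j) * q + a * (b ^ 2 - c), ?_⟩
    have h2 : 2 * ∏ l ∈ J, (1 + r l) =
        2 + 2 * ∑ l ∈ J, r l + (∑ l ∈ J, r l) ^ 2 - ∑ l ∈ J, r l ^ 2 + w ^ 3 * q := by
      rw [← hq]
      ring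
    have h3 : 2 * ((1 + r j) * ∏ l ∈ J, (1 + r l)) = (1 + r j) * (2 * ∏ l ∈ J, (1 + r l)) := by
      ring
    rw [h3, h2, hc, hb, ha]
    ring

lemma sum_sq_sub {B : Type} [CommRing B] (J : Finset ι) (r : ι → B) :
    (∑ j ∈ J, r j) ^ 2 - ∑ j ∈ J, r j ^ 2 = ∑ p ∈ J.offDiag, r p.1 * r p.2 := by
  rw [pow_two, sum_mul_sum, ← sum_product', ← diag_union_offDiag,
    sum_union (disjoint_diag_offDiag J), sum_diag]
  simp only [pow_two]
  ring

/-- the contribution of a factor -/
noncomputable def kap1 (w : A) (C : Finset σ) (F : σ → MvPolynomial Y A) (T : σ → Finset Y)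
    (r : ι → MvPolynomial Y A) (U : ι → Finset Y) (j : ι) : A :=
  Ev w ((∏ s ∈ tch C T (U j), F s) * r j)

/-- the contribution of a pair of factors -/
noncomputable def kap2 (w : A) (C : Finset σ) (F : σ → MvPolynomial Y A) (T : σ → Finset Y)
    (r : ι → MvPolynomial Y A) (U : ι → Finset Y) (j l : ι) : A :=
  Ev w ((∏ s ∈ tch C T (U j ∪ U l), F s) * (r j * r l))

/-- the set seen by a factor -/
noncomputable def clo (C : Finset σ) (T : σ → Finset Y) (U : Finset Y) : Finset Y :=
  U ∪ (tch C T U).biUnion T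

lemma kap2_eq_mul (w : A) {C : Finset σ} {F : σ → MvPolynomial Y A} {T : σ → Finset Y}
    (hF : ∀ s ∈ C, F s ∈ supported A (T s : Set Y)) {r : ι → MvPolynomial Y A}
    {U : ι → Finset Y} {j l : ι} (hj : r j ∈ supported A (U j : Set Y))
    (hl : r l ∈ supported A (U l : Set Y)) (hd : Disjoint (clo C T (U j)) (clo C T (U l))) :
    kap2 w C F T r U j l = kap1 w C F T r U j * kap1 w C F T r U l := by
  have h1 : tch C T (U j ∪ U l) = tch C T (U j) ∪ tch C T (U l) := by
    ext s
    simp only [tch, mem_filter, mem_union, disjoint_union_right]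
    tauto
  have hT : ∀ (V : Finset Y), ∀ s ∈ tch C T V, T s ⊆ clo C T V := fun V s hs =>
    (subset_biUnion_of_mem T hs).trans subset_union_right
  have h2 : Disjoint (tch C T (U j)) (tch C T (U l)) := by
    rw [Finset.disjoint_left]
    intro s hs hs'
    have g1 : ¬ Disjoint (T s) (U j) := (mem_filter.1 hs).2
    apply g1
    have g2 := disjoint_of_subset_left (hT _ s hs) (disjoint_of_subset_right (hT _ s hs') hd)
    rw [disjoint_self_iff_empty] at g2
    rw [g2]
    exact disjoint_empty_left _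
  have h3 : (∏ s ∈ tch C T (U j ∪ U l), F s) * (r j * r l) =
      ((∏ s ∈ tch C T (U j), F s) * r j) * ((∏ s ∈ tch C T (U l), F s) * r l) := by
    rw [h1, prod_union h2]
    ring
  have hs : ∀ i : ι, r i ∈ supported A (U i : Set Y) →
      (∏ s ∈ tch C T (U i), F s) * r i ∈ supported A (clo C T (U i) : Set Y) := by
    intro i hi
    refine mul_mem (prod_supported (fun s hs => hF s (mem_filter.1 hs).1) ?_)
      (supported_mono ?_ hi)
    · intro s hs
      exact_mod_cast hT _ s hs
    · exact_mod_cast subset_union_left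
  rw [kap2, h3, Ev_mul w (s := (clo C T (U j) : Set Y)) (t := (clo C T (U l) : Set Y)) ?_
    (hs j hj) (hs l hl), kap1, kap1]
  exact_mod_cast hd

/-- THE TWO-BODY EXPANSION -/
theorem two_body (w : A) {C : Finset σ} {F : σ → MvPolynomial Y A} {T : σ → Finset Y}
    (hF : ∀ s ∈ C, F s ∈ supported A (T s : Set Y))
    (hT : ∀ s ∈ C, ∀ t ∈ C, s ≠ t → Disjoint (T s) (T t)) (h1 : ∀ s ∈ C, Ev w (F s) = 1)
    {J : Finset ι} {r : ι → MvPolynomial Y A} {U : ι → Finset Y}
    (hr : ∀ j ∈ J, r j ∈ supported A (U j : Set Y)) (hw : ∀ j ∈ J, MvPolynomial.C w ∣ r j) :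
    w ^ 3 ∣ 2 * Ev w ((∏ s ∈ C, F s) * ∏ j ∈ J, (1 + r j)) -
      (2 + 2 * ∑ j ∈ J, kap1 w C F T r U j + (∑ j ∈ J, kap1 w C F T r U j) ^ 2 -
        ∑ j ∈ J, kap1 w C F T r U j ^ 2 +
        ∑ p ∈ J.offDiag.filter (fun p => ¬ Disjoint (clo C T (U p.1)) (clo C T (U p.2))),
          (kap2 w C F T r U p.1 p.2 - kap1 w C F T r U p.1 * kap1 w C F T r U p.2)) := by
  obtain ⟨q, hq⟩ := two_mul_prod (MvPolynomial.C w : MvPolynomial Y A) J r hw
  have h2 : 2 * ∏ j ∈ J, (1 + r j) = 2 + 2 * ∑ j ∈ J, r j + ∑ p ∈ J.offDiag, r p.1 * r p.2 +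
      MvPolynomial.C (w ^ 3) * q := by
    have := sum_sq_sub J r
    rw [← this, map_pow, ← hq]
    ring
  have h3 : 2 * Ev w ((∏ s ∈ C, F s) * ∏ j ∈ J, (1 + r j)) =
      2 * Ev w (∏ s ∈ C, F s) + 2 * ∑ j ∈ J, Ev w ((∏ s ∈ C, F s) * r j) +
        ∑ p ∈ J.offDiag, Ev w ((∏ s ∈ C, F s) * (r p.1 * r p.2)) +
        w ^ 3 * Ev w ((∏ s ∈ C, F s) * q) := by
    have g1 : 2 * Ev w ((∏ s ∈ C, F s) * ∏ j ∈ J, (1 + r j)) =
        Ev w ((∏ s ∈ C, F s) * (2 * ∏ j ∈ J, (1 + r j))) := by
      have : (∏ s ∈ C, F s) * (2 * ∏ j ∈ J, (1 + r j)) =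
        MvPolynomial.C 2 * ((∏ s ∈ C, F s) * ∏ j ∈ J, (1 + r j)) := by
        rw [map_ofNat]
        ring
      rw [this, Ev_C_mul]
    rw [g1, h2]
    have g2 : (∏ s ∈ C, F s) * (2 + 2 * ∑ j ∈ J, r j + ∑ p ∈ J.offDiag, r p.1 * r p.2 +
        MvPolynomial.C (w ^ 3) * q) = MvPolynomial.C 2 * (∏ s ∈ C, F s) +
        MvPolynomial.C 2 * (∑ j ∈ J, (∏ s ∈ C, F s) * r j) +
        (∑ p ∈ J.offDiag, (∏ s ∈ C, F s) * (r p.1 * r p.2)) +
        MvPolynomial.C (w ^ 3) * ((∏ s ∈ C, F s) * q) := by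
      rw [map_ofNat, ← mul_sum, ← mul_sum]
      ring
    rw [g2, map_add, map_add, map_add, Ev_C_mul, Ev_C_mul, Ev_C_mul, map_sum, map_sum]
  have h4 : ∀ j ∈ J, Ev w ((∏ s ∈ C, F s) * r j) = kap1 w C F T r U j := fun j hj =>
    Ev_prod_tch w hF hT h1 (hr j hj)
  have h5 : ∀ p ∈ J.offDiag, Ev w ((∏ s ∈ C, F s) * (r p.1 * r p.2)) =
      kap2 w C F T r U p.1 p.2 := by
    intro p hp
    rw [mem_offDiag] at hp
    refine Ev_prod_tch w hF hT h1 (U := U p.1 ∪ U p.2) (mul_mem ?_ ?_)
    · exact supported_mono (by exact_mod_cast subset_union_left) (hr p.1 hp.1)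
    · exact supported_mono (by exact_mod_cast subset_union_right) (hr p.2 hp.2.1)
  rw [h3, Ev_prod_eq_one w hF hT h1, sum_congr rfl h4, sum_congr rfl h5]
  have h6 : ∑ p ∈ J.offDiag, kap2 w C F T r U p.1 p.2 =
      (∑ j ∈ J, kap1 w C F T r U j) ^ 2 - ∑ j ∈ J, kap1 w C F T r U j ^ 2 +
      ∑ p ∈ J.offDiag.filter (fun p => ¬ Disjoint (clo C T (U p.1)) (clo C T (U p.2))),
          (kap2 w C F T r U p.1 p.2 - kap1 w C F T r U p.1 * kap1 w C F T r U p.2) := by
    rw [sum_sq_sub, sum_filter, ← sum_add_distrib]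
    apply sum_congr rfl
    intro p hp
    rw [mem_offDiag] at hp
    by_cases hd : Disjoint (clo C T (U p.1)) (clo C T (U p.2))
    · rw [if_neg (not_not.2 hd), kap2_eq_mul w hF (hr p.1 hp.1) (hr p.2 hp.2.1) hd, add_zero]
    · rw [if_pos hd]
      ring
  rw [h6]
  refine ⟨Ev w ((∏ s ∈ C, F s) * q), ?_⟩
  ring

/-! ### Cluster factors with a correction -/

/-- twice a product of factors `F s + g s`, modulo third order -/
lemma two_mul_prod_add {B : Type} [CommRing B] (w : B) (C : Finset σ) (F g : σ → B)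
    (hg : ∀ s ∈ C, w ∣ g s) :
    w ^ 3 ∣ 2 * ∏ s ∈ C, (F s + g s) -
      (2 * ∏ s ∈ C, F s + 2 * ∑ s ∈ C, (∏ t ∈ C.erase s, F t) * g s +
        ∑ p ∈ C.offDiag, (∏ t ∈ (C.erase p.1).erase p.2, F t) * (g p.1 * g p.2)) := by
  induction C using Finset.induction_on with
  | empty => simp
  | insert a C ha ih =>
    obtain ⟨q, hq⟩ := ih (fun s hs => hg s (mem_insert_of_mem hs))
    have e1 : ∑ s ∈ insert a C, (∏ t ∈ (insert a C).erase s, F t) * g s =
        (∏ t ∈ C, F t) * g a + F a * ∑ s ∈ C, (∏ t ∈ C.erase s, F t) * g s := by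
      rw [sum_insert ha, erase_insert ha, mul_sum]
      congr 1
      apply sum_congr rfl
      intro s hs
      have hsa : s ≠ a := by rintro rfl; exact ha hs
      rw [erase_insert_of_ne hsa.symm, prod_insert (fun h => ha (mem_of_mem_erase h))]
      ring
    have e2 : ∑ p ∈ (insert a C).offDiag,
        (∏ t ∈ ((insert a C).erase p.1).erase p.2, F t) * (g p.1 * g p.2) =
        F a * ∑ p ∈ C.offDiag, (∏ t ∈ (C.erase p.1).erase p.2, F t) * (g p.1 * g p.2) +
        2 * (g a * ∑ s ∈ C, (∏ t ∈ C.erase s, F t) * g s) := by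
      rw [offDiag_insert ha, sum_union, sum_union]
      · have h1 : ∑ p ∈ C.offDiag,
            (∏ t ∈ ((insert a C).erase p.1).erase p.2, F t) * (g p.1 * g p.2) =
            F a * ∑ p ∈ C.offDiag, (∏ t ∈ (C.erase p.1).erase p.2, F t) * (g p.1 * g p.2) := by
          rw [mul_sum]
          apply sum_congr rfl
          intro p hp
          rw [mem_offDiag] at hp
          have h3 : p.1 ≠ a := by rintro h; rw [h] at hp; exact ha hp.1
          have h4 : p.2 ≠ a := by rintro h; rw [h] at hp; exact ha hp.2.1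
          rw [erase_insert_of_ne h3.symm, erase_insert_of_ne h4.symm,
            prod_insert (fun h => ha (mem_of_mem_erase (mem_of_mem_erase h)))]
          ring
        have h2 : ∑ p ∈ ({a} : Finset σ) ×ˢ C,
            (∏ t ∈ ((insert a C).erase p.1).erase p.2, F t) * (g p.1 * g p.2) =
            g a * ∑ s ∈ C, (∏ t ∈ C.erase s, F t) * g s := by
          rw [sum_product, sum_singleton, mul_sum]
          apply sum_congr rfl
          intro s hs
          rw [erase_insert ha]
          ring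
        have h3 : ∑ p ∈ C ×ˢ ({a} : Finset σ),
            (∏ t ∈ ((insert a C).erase p.1).erase p.2, F t) * (g p.1 * g p.2) =
            g a * ∑ s ∈ C, (∏ t ∈ C.erase s, F t) * g s := by
          rw [sum_product, mul_sum]
          apply sum_congr rfl
          intro s hs
          rw [sum_singleton, erase_right_comm, erase_insert ha]
          ring
        rw [h1, h2, h3]
        ring
      · rw [Finset.disjoint_left]
        rintro ⟨x, y⟩ h1 h2
        rw [mem_offDiag] at h1
        rw [mem_product, mem_singleton] at h2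
        exact ha (h2.1 ▸ h1.1)
      · rw [Finset.disjoint_left]
        rintro ⟨x, y⟩ h1 h2
        rw [mem_union, mem_offDiag, mem_product, mem_singleton] at h1
        rw [mem_product, mem_singleton] at h2
        rcases h1 with h1 | h1
        · exact ha (h2.2 ▸ h1.2.1)
        · exact ha (h2.2 ▸ h1.2)
    obtain ⟨b, hb⟩ := hg a (mem_insert_self a C)
    obtain ⟨c, hc⟩ : w ^ 2 ∣ ∑ p ∈ C.offDiag,
        (∏ t ∈ (C.erase p.1).erase p.2, F t) * (g p.1 * g p.2) := by
      apply dvd_sum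
      intro p hp
      rw [mem_offDiag] at hp
      apply Dvd.dvd.mul_left
      rw [pow_two]
      exact mul_dvd_mul (hg p.1 (mem_insert_of_mem hp.1)) (hg p.2 (mem_insert_of_mem hp.2.1))
    rw [prod_insert ha, prod_insert ha, e1, e2]
    refine ⟨(F a + g a) * q + b * c, ?_⟩
    have h2 : 2 * ∏ s ∈ C, (F s + g s) = 2 * ∏ s ∈ C, F s +
        2 * ∑ s ∈ C, (∏ t ∈ C.erase s, F t) * g s +
        ∑ p ∈ C.offDiag, (∏ t ∈ (C.erase p.1).erase p.2, F t) * (g p.1 * g p.2) + w ^ 3 * q := by
      rw [← hq]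
      ring
    have h3 : 2 * ((F a + g a) * ∏ s ∈ C, (F s + g s)) =
        (F a + g a) * (2 * ∏ s ∈ C, (F s + g s)) := by ring
    rw [h3, h2, hc, hb]
    ring

end

end Pool.Gauss
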