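import Pool.Agent.Work.MP_065141_co.Ind
import Pool.Agent.Work.MP_065141_co.K.SumT
import Pool.Agent.Work.MP_065141_co.K.RingA
import Pool.Agent.Work.MP_065141_co.K.TwoBody

/-!
# The factors of the unattached elements next to level `i`
-/

set_option autoImplicit false
set_option linter.unusedSectionVars false
open scoped Classical
open Finset Polynomial

namespace Pool.Gauss

variable {α : Type} [Fintype α] [PartialOrder α] {i : ℕ}

/-- the factor of an element with the set `P` of neighbours of energies `k`, in the variables `v` -/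
noncomputable def facG (P : Finset α) (k : α → ℕ) (v : α → MvPolynomial α AA) (c : AA) :
    MvPolynomial α AA :=
  ∑ a ∈ range (P.sup k + 1),
    MvPolynomial.C (c * ZA ^ a * wA ^ (a - (P.filter fun y => k y < a).card)) *
      ∏ y ∈ P.filter (fun y => k y < a), v y +
  MvPolynomial.C (ZA ^ (P.sup k + 1) * wA ^ (P.sup k + 2 - P.card) * geoA) * ∏ y ∈ P, v y

lemma facG_congr {P : Finset α} {k k' : α → ℕ} (h : ∀ y ∈ P, k y = k' y)
    (v : α → MvPolynomial α AA) (c : AA) : facG P k v c = facG P k' v c := by
  have h1 : P.sup k = P.sup k' := Finset.sup_congr rfl h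
  have h2 : ∀ a, P.filter (fun y => k y < a) = P.filter (fun y => k' y < a) := fun a =>
    Finset.filter_congr fun y hy => by rw [h y hy]
  unfold facG
  rw [h1]
  simp_rw [h2]

lemma facG_term (P : Finset α) (k : α → ℕ) (v : α → MvPolynomial α AA) (c : AA) {a : ℕ}
    (h : ∀ y ∈ P, a ≤ k y) :
    MvPolynomial.C (c * ZA ^ a * wA ^ (a - (P.filter fun y => k y < a).card)) *
      ∏ y ∈ P.filter (fun y => k y < a), v y = MvPolynomial.C (c * qA ^ a) := by
  have h1 : P.filter (fun y => k y < a) = ∅ := by
    rw [filter_eq_empty_iff]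
    intro y hy
    have := h y hy
    omega
  have h2 : c * ZA ^ a * wA ^ a = c * qA ^ a := by
    rw [qA, mul_pow]
    ring
  rw [h1, card_empty, prod_empty, Nat.sub_zero, mul_one, h2]

lemma facG_single (y : α) (k : α → ℕ) (v : α → MvPolynomial α AA) (c : AA) :
    facG {y} k v c = MvPolynomial.C (c * ∑ a ∈ range (k y + 1), qA ^ a) +
      v y * MvPolynomial.C (qA ^ (k y + 1) * geoA) := by
  have h1 : ∀ a ∈ range (k y + 1),
      MvPolynomial.C (c * ZA ^ a * wA ^ (a - (({y} : Finset α).filter fun y => k y < a).card)) *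
      ∏ y ∈ ({y} : Finset α).filter (fun y => k y < a), v y =
      MvPolynomial.C (c * qA ^ a) := by
    intro a ha
    rw [mem_range] at ha
    apply facG_term
    intro t ht
    rw [mem_singleton] at ht
    subst ht
    omega
  have h2 : ZA ^ (k y + 1) * wA ^ (k y + 2 - 1) * geoA = qA ^ (k y + 1) * geoA := by
    have : k y + 2 - 1 = k y + 1 := by omega
    rw [this, qA, mul_pow]
    ring
  unfold facG
  rw [Finset.sup_singleton, prod_singleton, card_singleton, h2, Finset.sum_congr rfl h1,
    ← map_sum, ← Finset.mul_sum, mul_comm (v y)]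

lemma facG_double {y y' : α} (hne : y ≠ y') {k : α → ℕ} (hk : k y ≤ k y')
    (v : α → MvPolynomial α AA) (c : AA) :
    facG {y, y'} k v c = MvPolynomial.C (c * ∑ a ∈ range (k y + 1), qA ^ a) +
      v y * MvPolynomial.C (c * ZA * ∑ a ∈ Ico (k y) (k y'), qA ^ a) +
      v y * v y' * MvPolynomial.C (ZA * qA ^ (k y') * geoA) := by
  have hs : ({y, y'} : Finset α).sup k = k y' := by
    rw [Finset.sup_insert, Finset.sup_singleton]
    exact sup_eq_right.2 hk
  have hc : ({y, y'} : Finset α).card = 2 := card_pair hne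
  have h1 : ∀ a ∈ range (k y + 1),
      MvPolynomial.C (c * ZA ^ a * wA ^ (a - (({y, y'} : Finset α).filter
        fun y => k y < a).card)) *
      ∏ y ∈ ({y, y'} : Finset α).filter (fun y => k y < a), v y =
      MvPolynomial.C (c * qA ^ a) := by
    intro a ha
    rw [mem_range] at ha
    apply facG_term
    intro t ht
    rw [mem_insert, mem_singleton] at ht
    rcases ht with rfl | rfl <;> omega
  have h2 : ∀ a ∈ Ico (k y + 1) (k y' + 1),
      MvPolynomial.C (c * ZA ^ a * wA ^ (a - (({y, y'} : Finset α).filter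
        fun y => k y < a).card)) *
      ∏ y ∈ ({y, y'} : Finset α).filter (fun y => k y < a), v y =
      v y * MvPolynomial.C (c * ZA * qA ^ (a - 1)) := by
    intro a ha
    rw [mem_Ico] at ha
    have h5 : ({y, y'} : Finset α).filter (fun y => k y < a) = {y} := by
      ext t
      rw [mem_filter, mem_insert, mem_singleton, mem_singleton]
      constructor
      · rintro ⟨rfl | rfl, h⟩
        · rfl
        · omega
      · rintro rfl
        exact ⟨Or.inl rfl, by omega⟩
    have h6 : c * ZA ^ a * wA ^ (a - 1) = c * ZA * qA ^ (a - 1) := by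
      obtain ⟨b, rfl⟩ : ∃ b, a = b + 1 := ⟨a - 1, by omega⟩
      rw [Nat.add_sub_cancel, qA, mul_pow]
      ring
    rw [h5, card_singleton, prod_singleton, h6, mul_comm]
  have h3 : range (k y' + 1) = range (k y + 1) ∪ Ico (k y + 1) (k y' + 1) := by
    ext a
    rw [mem_union, mem_range, mem_range, mem_Ico]
    omega
  have h4 : Disjoint (range (k y + 1)) (Ico (k y + 1) (k y' + 1)) := by
    rw [Finset.disjoint_left]
    intro a ha ha'
    rw [mem_range] at ha
    rw [mem_Ico] at ha'
    omega
  have h5 : ∑ a ∈ Ico (k y + 1) (k y' + 1), qA ^ (a - 1) = ∑ a ∈ Ico (k y) (k y'), qA ^ a := by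
    rw [← Finset.sum_Ico_add' (fun a => qA ^ (a - 1)) (k y) (k y') 1]
    apply sum_congr rfl
    intro a _
    rw [Nat.add_sub_cancel]
  have h7 : ZA ^ (k y' + 1) * wA ^ (k y' + 2 - 2) * geoA = ZA * qA ^ (k y') * geoA := by
    rw [Nat.add_sub_cancel, qA, mul_pow]
    ring
  unfold facG
  rw [hs, hc, prod_pair hne, h7, h3, sum_union h4, Finset.sum_congr rfl h1,
    Finset.sum_congr rfl h2, ← map_sum, ← Finset.mul_sum, ← Finset.mul_sum, ← map_sum,
    ← Finset.mul_sum, h5, mul_comm (v y * v y')]

/-- the factor at `k = 0` of an element with one neighbour -/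
lemma facG_single_zero {y : α} {k : α → ℕ} (hk : k y = 0) (v : α → MvPolynomial α AA) (c : AA) :
    facG {y} k v c = MvPolynomial.C c + v y * MvPolynomial.C (qA * geoA) := by
  rw [facG_single, hk]
  simp

/-- the factor at `k = 0` of an element with two neighbours -/
lemma facG_double_zero {y y' : α} (hne : y ≠ y') {k : α → ℕ} (hk : k y = 0) (hk' : k y' = 0)
    (v : α → MvPolynomial α AA) (c : AA) :
    facG {y, y'} k v c = MvPolynomial.C c + v y * v y' * MvPolynomial.C (ZA * geoA) := by
  rw [facG_double hne (by omega), hk, hk']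
  simp

/-- evaluation of a factor -/
lemma Psi_facG {P : Finset α} (hP : P.Nonempty) (hP2 : P.card ≤ 2) {k : α → ℕ} {R : α → Prop}
    {f : ℕ → ℤ[X]} {c : ℤ[X]}
    (hf : ∀ a, f a = if (∀ y ∈ P, ¬ R y → a ≤ k y) then (if ∃ y ∈ P, a ≤ k y then c else X)
      else 0) {v : α → MvPolynomial α AA} {e : MvPolynomial α AA →+* AA}
    (he : ∀ c, e (MvPolynomial.C c) = c) (hv : ∀ y ∈ P, e (v y) = if R y then wA else 0) :
    e (facG P k v (iotaA c)) = Psi (PowerSeries.mk f) := by
  obtain ⟨m, hm, hm'⟩ := Finset.exists_mem_eq_sup P hP k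
  have hsup : ∀ y ∈ P, k y ≤ k m := by
    intro y hy
    rw [← hm']
    exact Finset.le_sup hy
  have hB : ∀ B : Finset α, B ⊆ P → ∏ y ∈ B, e (v y) =
      if ∀ y ∈ B, R y then wA ^ B.card else 0 := by
    intro B hB
    rw [prod_congr rfl fun y hy => hv y (hB hy), Finset.prod_ite_zero, prod_const]
    split_ifs <;> rfl
  have h0 : ∀ a, P.sup k < a → f a = if ∀ y ∈ P, R y then X else 0 := by
    intro a ha
    rw [hm'] at ha
    rw [hf]
    have h1 : (∀ y ∈ P, ¬ R y → a ≤ k y) ↔ ∀ y ∈ P, R y := by
      constructor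
      · intro h y hy
        by_contra h2
        have := h y hy h2
        have := hsup y hy
        omega
      · intro h y hy h2
        exact absurd (h y hy) h2
    have h2 : ¬ ∃ y ∈ P, a ≤ k y := by
      rintro ⟨y, hy, h2⟩
      have := hsup y hy
      omega
    rw [if_neg h2]
    simp only [h1]
  rw [Psi_mk f (P.sup k) _ h0, facG, map_add, map_sum]
  congr 1
  · apply sum_congr rfl
    intro a ha
    rw [mem_range, hm'] at ha
    rw [map_mul, he, map_prod, hB _ (filter_subset _ _), hf]
    have h1 : (∀ y ∈ P, ¬ R y → a ≤ k y) ↔ ∀ y ∈ P.filter (fun y => k y < a), R y := by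
      constructor
      · intro h y hy
        rw [mem_filter] at hy
        by_contra h2
        have := h y hy.1 h2
        omega
      · intro h y hy h2
        by_contra h3
        exact h2 (h y (mem_filter.2 ⟨hy, by omega⟩))
    have h2 : ∃ y ∈ P, a ≤ k y := ⟨m, hm, by omega⟩
    rw [if_pos h2]
    simp only [h1]
    split_ifs with h3
    · have h4 : (P.filter fun y => k y < a).card ≤ a := by
        rcases Nat.eq_zero_or_pos a with h5 | h5
        · subst h5
          rw [filter_eq_empty_iff.2 (fun y _ => by omega)]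
          simp
        · have h6 : (P.filter fun y => k y < a).card < P.card := by
            apply card_lt_card
            rw [ssubset_iff_of_subset (filter_subset _ _)]
            refine ⟨m, hm, ?_⟩
            rw [mem_filter]
            omega
          omega
      rw [mul_assoc, ← pow_add, Nat.sub_add_cancel h4, qA, mul_pow]
      ring
    · simp
  · rw [map_mul, he, map_prod, hB _ (Subset.refl _)]
    split_ifs with h3
    · have h4 : P.card ≤ P.sup k + 2 := by omega
      rw [iotaA_X, qA, mul_pow]
      have h5 : wA ^ (P.sup k + 2) = wA ^ (P.sup k + 2 - P.card) * wA ^ P.card := by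
        rw [← pow_add, Nat.sub_add_cancel h4]
      have h6 : wA * wA ^ (P.sup k + 1) = wA ^ (P.sup k + 2) := by
        rw [← pow_succ']
      linear_combination (-(ZA ^ (P.sup k + 1) * geoA)) * h5 - (ZA ^ (P.sup k + 1) * geoA) * h6
    · simp

end Pool.Gauss
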