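import Pool.Agent.Work.MP_065141_co.K.PlnCount
import Pool.Agent.Work.MP_065141_co.Main1

/-!
# The classification from the exclusion of a first imperfect level

`frozen_of` is the frozen statement `S06989` with the single input: in a connected Gaussian poset
with at least two maximal elements, if all levels `b < i` are perfect, `0 < i`, `i + 1 < HT α`,
`2 * i + 1 ≤ HT α`, then level `i` is perfect.
-/

set_option autoImplicit false
set_option linter.unusedSectionVars false
open scoped Classical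
open Finset

namespace Pool.Gauss

/-- the listed family -/
def Listed (α : Type) [Fintype α] [PartialOrder α] : Prop :=
  (∃ r s : ℕ, Nonempty (α ≃o (Fin r × Fin s))) ∨
    (∃ r : ℕ, Nonempty (α ≃o LowerSet (Fin 2 × Fin r))) ∨
    (∃ r : ℕ, Nonempty (α ≃o (Fin r ⊕ₗ ((Fin 2 × Fin 2) ⊕ₗ Fin r)))) ∨
    Nonempty (α ≃o LowerSet (LowerSet (Fin 2 × Fin 3))) ∨
    Nonempty (α ≃o LowerSet (LowerSet (LowerSet (Fin 2 × Fin 3))))

/-- the only missing input of the classification: no first imperfect level in the upper half -/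
def NoFirst (α : Type) [Fintype α] [PartialOrder α] : Prop :=
  ∀ i, 2 ≤ kap α → 0 < i → i + 1 < HT α → 2 * i + 1 ≤ HT α → (∀ b < i, Perf α b) → Perf α i

section

variable {α : Type} [Fintype α] [PartialOrder α]

theorem CtxK.listed_of_kap (C : CtxK α) (h : kap α = 1) : Listed α := classify_one (C.toCtx h)

theorem CtxK.kap_one_of_noFirst (C : CtxK α) (H : NoFirst α) (H' : NoFirst αᵒᵈ) : kap α = 1 := by
  by_contra hk
  have hpos := C.kap_pos
  rcases first_imperfect_half C hk with ⟨i, h1, h2, h3, h4, h5⟩ | ⟨i, h1, h2, h3, h4, h5⟩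
  · exact h5 (H i (by omega) h1 h3 h2 h4)
  · refine h5 (H' i ?_ h1 h3 h2 h4)
    rw [C.kap_dual]
    omega

theorem CtxK.listed_of_noFirst (C : CtxK α) (H : NoFirst α) (H' : NoFirst αᵒᵈ) : Listed α :=
  C.listed_of_kap (C.kap_one_of_noFirst H H')

end

/-- the frozen statement from the exclusion of the first imperfect level -/
theorem frozen_of
    (H : ∀ (α : Type) [Fintype α] [PartialOrder α], CtxK α → NoFirst α) :
    ∀ (α : Type) [Fintype α] [PartialOrder α],
      Nonempty α →
      (∀ a b : α, Relation.ReflTransGen (fun x y : α => x ≤ y ∨ y ≤ x) a b) →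
      (∃ h : Fin (Fintype.card α) → ℕ, (∀ i, 0 < h i) ∧
        ∀ m : ℕ,
          (∑ σ ∈ (Finset.univ.filter (fun σ : α → Fin (m + 1) => Monotone σ)),
              (Polynomial.X : Polynomial ℤ) ^ (∑ x, (σ x).val)) *
            ∏ i, (1 - (Polynomial.X : Polynomial ℤ) ^ (h i)) =
          ∏ i, (1 - (Polynomial.X : Polynomial ℤ) ^ (m + h i))) →
      (∃ r s : ℕ, Nonempty (α ≃o (Fin r × Fin s))) ∨
      (∃ r : ℕ, Nonempty (α ≃o LowerSet (Fin 2 × Fin r))) ∨
      (∃ r : ℕ, Nonempty (α ≃o (Fin r ⊕ₗ ((Fin 2 × Fin 2) ⊕ₗ Fin r)))) ∨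
      Nonempty (α ≃o LowerSet (LowerSet (Fin 2 × Fin 3))) ∨
      Nonempty (α ≃o LowerSet (LowerSet (LowerSet (Fin 2 × Fin 3)))) := by
  intro α _ _ hne hconn hG
  obtain ⟨h, hG'⟩ := hG
  have C : CtxK α := ⟨⟨h, hG'⟩, hconn, hne⟩
  exact C.listed_of_noFirst (H α C) (H αᵒᵈ C.dual)

end Pool.Gauss
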