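import Pool.Agent.Work.MP_065141_co.Rel3

/-!
# Flipping a part of an energy function to the other side of level `i`

`σ` is an involution of the elements fixing level `i` pointwise; `ε ∘ σ` is the flipped energy
function.  The relation `fr i p q` has to be preserved whenever `q` is excited.
-/

set_option autoImplicit false
set_option linter.unusedSectionVars false
set_option linter.unusedVariables false
open scoped Classical
open Finset

namespace Pool.Gauss

variable {α : Type} [Fintype α] [PartialOrder α] {i : ℕ}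

/-- `σ` is an involution fixing level `i`, it preserves `fr i p q` if `q` is excited, it
exchanges moved elements below and above level `i`, and no element of level `i` is dominated both
by a moved and by an unmoved element -/
structure FlipD (i : ℕ) (σ : α → α) (ε : α → ℕ) : Prop where
  inv : ∀ p, σ (σ p) = p
  fixl : ∀ p, corank p = i → σ p = p
  frq : ∀ p q, 0 < ε q → (fr i p q ↔ fr i (σ p) (σ q))
  side : ∀ p, σ p ≠ p → (i < corank p ↔ corank (σ p) < i)
  once : ∀ y q q', corank y = i → fr i y q → fr i y q' → ε y < ε q → ε y < ε q' → σ q ≠ q →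
    σ q' ≠ q'

namespace FlipD

variable {σ : α → α} {ε : α → ℕ}

lemma inj (F : FlipD i σ ε) {p q : α} (h : σ p = σ q) : p = q := by
  rw [← F.inv p, h, F.inv]

lemma lev_iff (F : FlipD i σ ε) (p : α) : corank (σ p) = i ↔ corank p = i := by
  constructor
  · intro h
    have h1 := F.fixl _ h
    rw [F.inv] at h1
    rwa [← h1] at h
  · intro h
    rw [F.fixl p h, h]

/-- the flipped energy function satisfies the compatibility with `fr` -/
lemma fr' (F : FlipD i σ ε) (p q : α) (hq : 0 < (ε ∘ σ) q) : fr i p q ↔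
    fr i (σ p) (σ q) := by
  have h := F.frq (σ p) (σ q) hq
  rw [F.inv, F.inv] at h
  exact h.symm

lemma fd_iff (F : FlipD i σ ε) (p : α) : fd i (ε ∘ σ) (σ p) ↔ fd i ε p := by
  unfold fd
  constructor
  · rintro ⟨q, h1, h2⟩
    have h3 : 0 < (ε ∘ σ) q := by omega
    rw [F.fr' _ _ h3, F.inv] at h1
    refine ⟨σ q, h1, ?_⟩
    simpa [Function.comp, F.inv] using h2
  · rintro ⟨q, h1, h2⟩
    have h3 : 0 < ε q := by omega
    rw [F.frq _ _ h3] at h1
    refine ⟨σ q, h1, ?_⟩
    simpa [Function.comp, F.inv] using h2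

lemma nd_iff (F : FlipD i σ ε) (hg : Grad α) (hl : HasLower α i) {p : α} (hp : corank p ≠ i) :
    nd i (ε ∘ σ) (σ p) ↔ nd i ε p := by
  have hp' : corank (σ p) ≠ i := fun h => hp ((F.lev_iff p).1 h)
  rcases Nat.eq_zero_or_pos (ε p) with h0 | h0
  · obtain ⟨s, hs⟩ := exists_near hg hl hp
    obtain ⟨s', hs'⟩ := exists_near hg hl hp'
    constructor
    · intro _
      exact ⟨s, hs, by omega⟩
    · intro _
      refine ⟨s', hs', ?_⟩
      simp only [Function.comp, F.inv]
      omega
  · unfold nd
    constructor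
    · rintro ⟨q, h1, h2⟩
      have h3 : 0 < (ε ∘ σ) (σ p) := by simpa [Function.comp, F.inv] using h0
      rw [F.fr' _ _ h3, F.inv] at h1
      refine ⟨σ q, h1, ?_⟩
      simpa [Function.comp, F.inv] using h2
    · rintro ⟨q, h1, h2⟩
      rw [F.frq _ _ h0] at h1
      refine ⟨σ q, h1, ?_⟩
      simpa [Function.comp, F.inv] using h2

lemma Fo_eq (F : FlipD i σ ε) (hg : Grad α) (hl : HasLower α i) :
    Fo i (ε ∘ σ) = (Fo i ε).image σ := by
  ext p
  rw [mem_image, Fo, Fo, mem_filter]
  constructor
  · rintro ⟨_, h1, h2, h3⟩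
    refine ⟨σ p, ?_, F.inv p⟩
    have h4 : corank (σ p) ≠ i := fun h => h1 ((F.lev_iff p).1 h)
    rw [mem_filter]
    refine ⟨mem_univ _, h4, ?_, ?_⟩
    · rw [← F.fd_iff, F.inv]
      exact h2
    · rw [← F.nd_iff hg hl h4, F.inv]
      exact h3
  · rintro ⟨q, hq, rfl⟩
    rw [mem_filter] at hq
    obtain ⟨_, h1, h2, h3⟩ := hq
    refine ⟨mem_univ _, fun h => h1 ((F.lev_iff q).1 h), ?_, ?_⟩
    · rwa [F.fd_iff]
    · rwa [F.nd_iff hg hl h1]

lemma Fd_eq (F : FlipD i σ ε) : Fd i (ε ∘ σ) = (Fd i ε).image σ := by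
  ext p
  rw [mem_image, Fd, Fd, mem_filter]
  constructor
  · rintro ⟨_, h1, h2⟩
    refine ⟨σ p, ?_, F.inv p⟩
    rw [mem_filter]
    refine ⟨mem_univ _, fun h => h1 ((F.lev_iff p).1 h), ?_⟩
    rw [← F.fd_iff, F.inv]
    exact h2
  · rintro ⟨q, hq, rfl⟩
    rw [mem_filter] at hq
    obtain ⟨_, h1, h2⟩ := hq
    exact ⟨mem_univ _, fun h => h1 ((F.lev_iff q).1 h), (F.fd_iff q).2 h2⟩

lemma fd_lev_iff (F : FlipD i σ ε) {y : α} (hy : corank y = i) :
    fd i (ε ∘ σ) y ↔ fd i ε y := by
  have := F.fd_iff y
  rwa [F.fixl y hy] at this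

lemma Yd_eq (F : FlipD i σ ε) : Yd i (ε ∘ σ) = Yd i ε := by
  unfold Yd
  apply Finset.filter_congr
  intro y hy
  exact F.fd_lev_iff (mem_lev.1 hy)

lemma val_lev (F : FlipD i σ ε) {y : α} (hy : corank y = i) : (ε ∘ σ) y = ε y := by
  simp [Function.comp, F.fixl y hy]

lemma card_Fo (F : FlipD i σ ε) (hg : Grad α) (hl : HasLower α i) :
    (Fo i (ε ∘ σ)).card = (Fo i ε).card := by
  rw [F.Fo_eq hg hl]
  exact card_image_of_injective _ fun p q h => F.inj h

lemma card_Fd (F : FlipD i σ ε) : (Fd i (ε ∘ σ)).card = (Fd i ε).card := by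
  rw [F.Fd_eq]
  exact card_image_of_injective _ fun p q h => F.inj h

lemma sum_eq (F : FlipD i σ ε) : ∑ p, (ε ∘ σ) p = ∑ p, ε p := by
  refine Finset.sum_bij' (fun p _ => σ p) (fun p _ => σ p) ?_ ?_ ?_ ?_ ?_
  · intro p _; exact mem_univ _
  · intro p _; exact mem_univ _
  · intro p _; exact F.inv p
  · intro p _; exact F.inv p
  · intro p _; rfl

lemma moved_inv (F : FlipD i σ ε) {p : α} (h : σ p ≠ p) : σ (σ p) ≠ σ p := by
  rw [F.inv]
  exact fun h' => h h'.symm

lemma side_cases (F : FlipD i σ ε) {p : α} (h : σ p ≠ p) :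
    (i < corank p ∧ corank (σ p) < i) ∨ (corank p < i ∧ i < corank (σ p)) := by
  have h0 : corank p ≠ i := fun h1 => h (F.fixl p h1)
  rcases lt_or_gt_of_ne h0 with h1 | h1
  · right
    have h2 := F.side (σ p) (F.moved_inv h)
    rw [F.inv] at h2
    exact ⟨h1, h2.2 h1⟩
  · exact Or.inl ⟨h1, (F.side p h).1 h1⟩

/-- the flip back -/
theorem symm (F : FlipD i σ ε) : FlipD i σ (ε ∘ σ) where
  inv := F.inv
  fixl := F.fixl
  frq := F.fr'
  side := F.side
  once := by
    intro y q q' hy h1 h2 h3 h4 h5
    have hv := F.val_lev hy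
    rw [hv] at h3 h4
    rw [F.fr' y q (by omega), F.fixl y hy] at h1
    rw [F.fr' y q' (by omega), F.fixl y hy] at h2
    have h6 := F.once y (σ q) (σ q') hy h1 h2 h3 h4 (F.moved_inv h5)
    intro h7
    apply h6
    rw [h7, h7]

/-- a dominating element after the flip -/
lemma dom (F : FlipD i σ ε) {y q : α} (hy : corank y = i) (h : fr i y q)
    (h1 : (ε ∘ σ) y < (ε ∘ σ) q) : fr i y (σ q) ∧ ε y < ε (σ q) := by
  have h2 : 0 < (ε ∘ σ) q := by omega
  rw [F.fr' _ _ h2, F.fixl y hy] at h
  rw [F.val_lev hy] at h1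
  exact ⟨h, h1⟩

lemma not_both (F : FlipD i σ ε) (hg : Grad α) (hε : GoodE i ε) {y : α} (hy : corank y = i)
    (h : inE i (ε ∘ σ) y ∧ outE i (ε ∘ σ) y) : False := by
  obtain ⟨h1, h2⟩ := h
  rw [inE_lev hy] at h1
  rw [outE_lev hy] at h2
  obtain ⟨x, hx, h1⟩ := h1
  obtain ⟨z, hz, h2⟩ := h2
  obtain ⟨a1, a2⟩ := F.dom hy (fr_of_below hy.ge hx) h1
  obtain ⟨b1, b2⟩ := F.dom hy (fr_of_above hy.le hz) h2
  have c1 := hg x y hx
  have c2 := hg y z hz
  have h3 := same_side hg hε hy a1 b1 a2 b2
  by_cases hx' : σ x = x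
  · by_cases hz' : σ z = z
    · rw [hx', hz'] at h3
      omega
    · exact F.once y (σ z) (σ x) hy b1 a1 b2 a2 (F.moved_inv hz') (by rw [hx', hx'])
  · by_cases hz' : σ z = z
    · exact F.once y (σ x) (σ z) hy a1 b1 a2 b2 (F.moved_inv hx') (by rw [hz', hz'])
    · have := F.side_cases hx'
      have := F.side_cases hz'
      omega

/-- the flipped energy function is good -/
theorem goodE (F : FlipD i σ ε) (hg : Grad α) (hl : HasLower α i) (hε : GoodE i ε) :
    GoodE i (ε ∘ σ) := by
  have hS := goodS_of_goodE hg hl hε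
  apply goodE_of_goodS hg hl
  constructor
  · intro p hp h
    have hp' : corank (σ p) ≠ i := fun h => hp ((F.lev_iff p).1 h)
    have h1 := F.fd_iff (σ p)
    have h2 := F.nd_iff hg hl hp'
    rw [F.inv] at h1 h2
    exact hS.1 (σ p) hp' ⟨h1.1 h.1, h2.1 h.2⟩
  · intro y hy h
    exact F.not_both hg hε hy h

lemma card_pk (F : FlipD i σ ε) (hg : Grad α) (hl : HasLower α i) (hε : GoodE i ε) :
    (pkF i (ε ∘ σ)).card = (pkF i ε).card := by
  have h1 := card_pkF hg hl hε
  have h2 := card_pkF hg hl (F.goodE hg hl hε)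
  rw [F.Yd_eq, F.card_Fo hg hl] at h2
  omega

end FlipD

/-- free elements moved by the flip -/
noncomputable def mvF (i : ℕ) (σ : α → α) (ε : α → ℕ) : Finset α :=
  (Fo i ε).filter fun p => σ p ≠ p

/-- elements of level `i` dominated by a moved element -/
noncomputable def mvY (i : ℕ) (σ : α → α) (ε : α → ℕ) : Finset α :=
  (lev α i).filter fun y => ∃ q, fr i y q ∧ σ q ≠ q ∧ ε y < ε q

lemma pow_parity (a b d : ℕ) : (-1 : ℤ) ^ (a + d) = (-1) ^ (a + b) * (-1) ^ (b + d) := by
  have h4 : ((-1 : ℤ) ^ b) * (-1) ^ b = 1 := by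
    rw [← mul_pow]
    norm_num
  simp only [pow_add]
  set A := (-1 : ℤ) ^ a
  set B := (-1 : ℤ) ^ b
  set D := (-1 : ℤ) ^ d
  calc A * D = A * D * (B * B) := by rw [h4, mul_one]
    _ = _ := by ring

namespace FlipD

variable {σ : α → α} {ε : α → ℕ}

/-- the sign of the flipped energy function -/
theorem sign (F : FlipD i σ ε) (hg : Grad α) (hl : HasLower α i) (hε : GoodE i ε) :
    (-1 : ℤ) ^ (inF i (ε ∘ σ)).card =
      (-1) ^ (inF i ε).card * (-1) ^ ((mvF i σ ε).card + (mvY i σ ε).card) := by
  rw [sign_inF hg hl hε, sign_inF hg hl (F.goodE hg hl hε), F.card_Fd]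
  -- the free elements above
  have h1 : (-1 : ℤ) ^ ((Fo i (ε ∘ σ)).filter fun p => corank p < i).card =
      (-1) ^ ((Fo i ε).filter fun p => corank p < i).card * (-1) ^ (mvF i σ ε).card := by
    set A := (Fo i ε).filter fun p => corank p < i ∧ σ p = p with hA
    set B := (Fo i ε).filter fun p => corank p < i ∧ σ p ≠ p with hB
    set D := (Fo i ε).filter fun p => i < corank p ∧ σ p ≠ p with hD
    have e1 : ((Fo i ε).filter fun p => corank p < i).card = A.card + B.card := by
      rw [← card_union_of_disjoint]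
      · congr 1
        ext p
        rw [mem_union, hA, hB, mem_filter, mem_filter, mem_filter]
        tauto
      · rw [Finset.disjoint_left]
        intro p hp hp'
        rw [hA, mem_filter] at hp
        rw [hB, mem_filter] at hp'
        exact hp'.2.2 hp.2.2
    have e2 : (mvF i σ ε).card = B.card + D.card := by
      rw [← card_union_of_disjoint]
      · congr 1
        ext p
        rw [mem_union, hB, hD, mvF, mem_filter, mem_filter, mem_filter]
        constructor
        · rintro ⟨h3, h4⟩
          rcases F.side_cases h4 with h5 | h5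
          · exact Or.inr ⟨h3, h5.1, h4⟩
          · exact Or.inl ⟨h3, h5.1, h4⟩
        · rintro (⟨h3, _, h4⟩ | ⟨h3, _, h4⟩)
          · exact ⟨h3, h4⟩
          · exact ⟨h3, h4⟩
      · rw [Finset.disjoint_left]
        intro p hp hp'
        rw [hB, mem_filter] at hp
        rw [hD, mem_filter] at hp'
        omega
    have e3 : ((Fo i (ε ∘ σ)).filter fun p => corank p < i).card = A.card + D.card := by
      rw [F.Fo_eq hg hl, ← card_union_of_disjoint]
      · have h2 : ((Fo i ε).image σ).filter (fun p => corank p < i) = (A ∪ D).image σ := by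
          ext p
          rw [mem_filter, mem_image, mem_image]
          constructor
          · rintro ⟨⟨q, hq, rfl⟩, h3⟩
            refine ⟨q, ?_, rfl⟩
            rw [mem_union, hA, hD, mem_filter, mem_filter]
            by_cases h4 : σ q = q
            · left
              rw [h4] at h3
              exact ⟨hq, h3, h4⟩
            · right
              rcases F.side_cases h4 with h5 | h5
              · exact ⟨hq, h5.1, h4⟩
              · omega
          · rintro ⟨q, hq, rfl⟩
            rw [mem_union, hA, hD, mem_filter, mem_filter] at hq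
            rcases hq with ⟨hq, h3, h4⟩ | ⟨hq, h3, h4⟩
            · exact ⟨⟨q, hq, rfl⟩, by rw [h4]; exact h3⟩
            · refine ⟨⟨q, hq, rfl⟩, ?_⟩
              exact (F.side q h4).1 h3
        rw [h2]
        exact card_image_of_injective _ fun p q h => F.inj h
      · rw [Finset.disjoint_left]
        intro p hp hp'
        rw [hA, mem_filter] at hp
        rw [hD, mem_filter] at hp'
        exact hp'.2.2 hp.2.2
    rw [e1, e2, e3]
    exact pow_parity _ _ _
  have h3 : (-1 : ℤ) ^ (Yin i (ε ∘ σ)).card =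
      (-1) ^ (Yin i ε).card * (-1) ^ (mvY i σ ε).card := by
    set A := (Yin i ε).filter fun y => y ∉ mvY i σ ε with hA
    set B := (Yin i ε).filter fun y => y ∈ mvY i σ ε with hB
    set D := (mvY i σ ε).filter fun y => y ∉ Yin i ε with hD
    have e1 : (Yin i ε).card = A.card + B.card := by
      have := Finset.card_filter_add_card_filter_not (s := Yin i ε) (fun y => y ∈ mvY i σ ε)
      rw [hA, hB]
      omega
    have e2 : (mvY i σ ε).card = B.card + D.card := by
      have := Finset.card_filter_add_card_filter_not (s := mvY i σ ε) (fun y => y ∈ Yin i ε)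
      have h4 : B = (mvY i σ ε).filter fun y => y ∈ Yin i ε := by
        ext y
        rw [hB, mem_filter, mem_filter, and_comm]
      rw [h4, hD]
      omega
    have e3 : (Yin i (ε ∘ σ)).card = A.card + D.card := by
      rw [← card_union_of_disjoint]
      · congr 1
        ext y
        rw [mem_union, hA, hD, mem_filter, mem_filter, Yin, Yin, mvY, mem_filter, mem_filter,
          mem_filter]
        constructor
        · rintro ⟨hy, h⟩
          have hy' := mem_lev.1 hy
          have h0 := h
          rw [inE_lev hy'] at h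
          obtain ⟨x, hx, h⟩ := h
          obtain ⟨a1, a2⟩ := F.dom hy' (fr_of_below hy'.ge hx) h
          have c1 := hg x y hx
          by_cases h4 : σ x = x
          · left
            rw [h4] at a1 a2
            refine ⟨⟨hy, (inE_lev hy').2 ⟨x, hx, a2⟩⟩, ?_⟩
            rintro ⟨_, q, b1, b2, b3⟩
            exact F.once y q x hy' b1 a1 b3 a2 b2 h4
          · right
            refine ⟨⟨hy, σ x, a1, F.moved_inv h4, a2⟩, ?_⟩
            rintro ⟨_, b⟩
            rw [inE_lev hy'] at b
            obtain ⟨x', hx', b⟩ := b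
            have h5 := same_side hg hε hy' a1 (fr_of_below hy'.ge hx') a2 b
            have h6 := F.side_cases h4
            have c2 := hg x' y hx'
            omega
        · rintro (⟨⟨hy, h⟩, h'⟩ | ⟨⟨hy, q, a1, a2, a3⟩, h'⟩)
          · have hy' := mem_lev.1 hy
            rw [inE_lev hy'] at h
            obtain ⟨x, hx, h⟩ := h
            have h4 : σ x = x := by
              by_contra h4
              exact h' ⟨hy, x, fr_of_below hy'.ge hx, h4, h⟩
            refine ⟨hy, (inE_lev hy').2 ⟨x, hx, ?_⟩⟩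
            rw [F.val_lev hy']
            simpa [Function.comp, h4] using h
          · have hy' := mem_lev.1 hy
            refine ⟨hy, ?_⟩
            have h4 : corank q < i := by
              rcases F.side_cases a2 with h5 | h5
              · exfalso
                apply h'
                refine ⟨hy, (inE_lev hy').2 ⟨q, (fr_below' hg a1 h5.1).2, a3⟩⟩
              · exact h5.1
            have h5 : i < corank (σ q) := by
              rcases F.side_cases a2 with h5 | h5
              · omega
              · exact h5.2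
            have h6 := (F.frq y q (by omega)).1 a1
            rw [F.fixl y hy'] at h6
            refine (inE_lev hy').2 ⟨σ q, (fr_below' hg h6 h5).2, ?_⟩
            rw [F.val_lev hy']
            simpa [Function.comp, F.inv] using a3
      · rw [Finset.disjoint_left]
        intro y hy hy'
        rw [hA, mem_filter] at hy
        rw [hD, mem_filter] at hy'
        exact hy.2 hy'.1
    rw [e1, e2, e3]
    exact pow_parity _ _ _
  rw [h1, h3, pow_add]
  ring

end FlipD

/-- compatibility of the flip with a matching: moved elements next to level `i` are exchanged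
with their partners, and one of the two is attached -/
structure FlipM (m : Mat α i) (σ : α → α) (ε : α → ℕ) : Prop extends FlipD i σ ε where
  ds1 : ∀ p, ds i p = 1 → ds i (σ p) = 1
  near : ∀ p, ds i p = 1 → σ p ≠ p → att i ε p ∨ att i ε (σ p)
  mat : ∀ p, ds i p = 1 → σ p ≠ p →
    ∃ e ∈ m.M, (p = e.1 ∧ σ p = e.2) ∨ (p = e.2 ∧ σ p = e.1)

namespace FlipM

variable {m : Mat α i} {σ : α → α} {ε : α → ℕ}

lemma att_flip (F : FlipM m σ ε) (hg : Grad α) {p : α} (hp : ds i p = 1) :
    att i (ε ∘ σ) (σ p) ↔ att i ε p := by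
  rw [att_iff hg (F.ds1 p hp), att_iff hg hp]
  constructor
  · rintro ⟨q, h1, h2⟩
    rw [F.toFlipD.fr' _ _ h2, F.inv] at h1
    exact ⟨σ q, h1, h2⟩
  · rintro ⟨q, h1, h2⟩
    rw [F.frq _ _ h2] at h1
    exact ⟨σ q, h1, by simpa [Function.comp, F.inv] using h2⟩

lemma unmoved (F : FlipM m σ ε) {e : α × α} (he : e ∈ m.M) :
    σ e.1 = e.1 ↔ σ e.2 = e.2 := by
  have d1 : ds i e.1 = 1 := by
    have := m.cz e he
    unfold ds
    omega
  have d2 : ds i e.2 = 1 := by
    have := m.cx e he
    unfold ds
    omega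
  constructor
  · intro h
    by_contra h1
    obtain ⟨e', he', (⟨h2, h3⟩ | ⟨h2, h3⟩)⟩ := F.mat e.2 d2 h1
    · have h4 := m.cz e' he'
      have h5 := m.cx e he
      rw [h2] at h5
      omega
    · have h4 := m.inj2 e he e' he' h2
      rw [← h4] at h3
      rw [← h3, F.inv] at h
      exact h1 h.symm
  · intro h
    by_contra h1
    obtain ⟨e', he', (⟨h2, h3⟩ | ⟨h2, h3⟩)⟩ := F.mat e.1 d1 h1
    · have h4 := m.inj1 e he e' he' h2
      rw [← h4] at h3
      rw [← h3, F.inv] at h
      exact h1 h.symm
    · have h4 := m.cx e' he'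
      have h5 := m.cz e he
      rw [h2] at h5
      omega

lemma partner (F : FlipM m σ ε) {e : α × α} (he : e ∈ m.M) (h : σ e.1 ≠ e.1) :
    σ e.1 = e.2 ∧ σ e.2 = e.1 := by
  have d1 : ds i e.1 = 1 := by
    have := m.cz e he
    unfold ds
    omega
  obtain ⟨e', he', (⟨h2, h3⟩ | ⟨h2, h3⟩)⟩ := F.mat e.1 d1 h
  · have h4 := m.inj1 e he e' he' h2
    rw [← h4] at h3
    refine ⟨h3, ?_⟩
    rw [← h3, F.inv]
  · have h4 := m.cx e' he'
    have h5 := m.cz e he
    rw [h2] at h5
    omega

lemma free_eq (F : FlipM m σ ε) (hg : Grad α) : m.free (ε ∘ σ) = m.free ε := by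
  unfold Mat.free
  apply Finset.filter_congr
  intro e he
  have d1 : ds i e.1 = 1 := by
    have := m.cz e he
    unfold ds
    omega
  have d2 : ds i e.2 = 1 := by
    have := m.cx e he
    unfold ds
    omega
  by_cases h : σ e.1 = e.1
  · have h' := (F.unmoved he).1 h
    have h1 := F.att_flip hg d1
    have h2 := F.att_flip hg d2
    rw [h] at h1
    rw [h'] at h2
    rw [h1, h2]
  · obtain ⟨h1, h2⟩ := F.partner he h
    have h3 := F.att_flip hg d1
    have h4 := F.att_flip hg d2
    rw [h1] at h3
    rw [h2] at h4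
    rw [h3, h4]
    tauto

lemma sgl_eq (F : FlipM m σ ε) (hg : Grad α) : sgl i (ε ∘ σ) = sgl i ε := by
  unfold sgl
  apply Finset.filter_congr
  intro p _
  by_cases hp : sglZ i p ∨ sglX i p
  · have d : ds i p = 1 := by
      rcases hp with h | h
      · have := h.1
        unfold ds
        omega
      · have := h.1
        unfold ds
        omega
    have h1 : σ p = p := by
      by_contra h1
      have h2 := card_bd_sgl hg hp
      obtain ⟨e, he, h3⟩ := F.mat p d h1
      obtain ⟨y, y', hne, h4, h5⟩ := m.bd_matched hg he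
      rcases h3 with ⟨h3, _⟩ | ⟨h3, _⟩
      · rw [h3, h4, card_pair hne] at h2
        omega
      · rw [h3, h5, card_pair hne] at h2
        omega
    have h2 := F.att_flip hg d
    rw [h1] at h2
    rw [h2]
  · simp only [hp, false_and]

/-- the set of summation does not change -/
theorem rst_eq (F : FlipM m σ ε) (hg : Grad α) : m.rst (ε ∘ σ) = m.rst ε := by
  unfold Mat.rst
  rw [F.free_eq hg, F.sgl_eq hg]

/-- elements of the set of summation are not moved -/
lemma fix_rst (F : FlipM m σ ε) (hg : Grad α) {p : α} (hp : p ∈ m.rst ε) : σ p = p := by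
  by_contra h
  have h0 := (m.rst_prop hp)
  have d : ds i p = 1 := by
    unfold ds
    omega
  rcases F.near p d h with h1 | h1
  · exact h0.1 h1
  · obtain ⟨e, he, h3⟩ := F.mat p d h
    unfold Mat.rst at hp
    rw [mem_union, mem_union, mem_image, mem_image] at hp
    rcases hp with (⟨e', he', h4⟩ | ⟨e', he', h4⟩) | hp
    · unfold Mat.free at he'
      rw [mem_filter] at he'
      rcases h3 with ⟨h3, h5⟩ | ⟨h3, h5⟩
      · have h6 := m.inj1 e' he'.1 e he (h4.trans h3)
        rw [h5, ← h6] at h1
        exact he'.2.2 h1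
      · have h7 := m.cz e' he'.1
        have h8 := m.cx e he
        rw [h4, h3] at h7
        omega
    · unfold Mat.free at he'
      rw [mem_filter] at he'
      rcases h3 with ⟨h3, h5⟩ | ⟨h3, h5⟩
      · have h7 := m.cx e' he'.1
        have h8 := m.cz e he
        rw [h4, h3] at h7
        omega
      · have h6 := m.inj2 e' he'.1 e he (h4.trans h3)
        rw [h5, ← h6] at h1
        exact he'.2.1 h1
    · unfold sgl at hp
      rw [mem_filter] at hp
      have h2 := card_bd_sgl hg hp.2.1
      obtain ⟨y, y', hne, h4, h5⟩ := m.bd_matched hg he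
      rcases h3 with ⟨h3, _⟩ | ⟨h3, _⟩
      · rw [h3, h4, card_pair hne] at h2
        omega
      · rw [h3, h5, card_pair hne] at h2
        omega

/-- the flipped energy function is reduced -/
theorem red (F : FlipM m σ ε) (hg : Grad α) (hr : m.Red ε) : m.Red (ε ∘ σ) := by
  intro p hp
  rw [F.rst_eq hg] at hp
  simp only [Function.comp]
  rw [F.fix_rst hg hp]
  exact hr p hp

/-- the flip back -/
lemma comp_comp (F : FlipM m σ ε) : (ε ∘ σ) ∘ σ = ε := by
  funext p
  simp [Function.comp, F.inv]

/-- the flip back -/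
theorem symm (F : FlipM m σ ε) (hg : Grad α) : FlipM m σ (ε ∘ σ) where
  toFlipD := F.toFlipD.symm
  ds1 := F.ds1
  near := by
    intro p hp h
    have h1 := F.att_flip hg hp
    have h2 := F.att_flip hg (F.ds1 p hp)
    rw [F.inv] at h2
    rw [h1, h2]
    exact (F.near p hp h).symm
  mat := F.mat

end FlipM

end Pool.Gauss
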