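import Mathlib

/-!
# The quadratic form of a path of pairs

`frm H l u = ∑ H c H c'` over the touching pairs `c, c'` (`|c - c'| ≤ 1`) of `[l, u)`.
-/

set_option autoImplicit false
open scoped Classical
open Finset

namespace Pool.Gauss

/-- the quadratic form of one strip -/
noncomputable def frm (H : ℕ → ℤ) (l u : ℕ) : ℤ :=
  ∑ c ∈ Ico l u, ∑ c' ∈ Ico l u, if c = c' ∨ c = c' + 1 ∨ c' = c + 1 then H c * H c' else 0

lemma frm_top (H : ℕ → ℤ) {l u : ℕ} (h : l ≤ u) : frm H l (u + 1) =
    frm H l u + H u ^ 2 + 2 * (if l < u then H (u - 1) * H u else 0) := by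
  unfold frm
  rw [sum_Ico_succ_top h]
  have h1 : ∀ c ∈ Ico l u, (∑ c' ∈ Ico l (u + 1),
      if c = c' ∨ c = c' + 1 ∨ c' = c + 1 then H c * H c' else 0) =
      (∑ c' ∈ Ico l u, if c = c' ∨ c = c' + 1 ∨ c' = c + 1 then H c * H c' else 0) +
        (if u = c + 1 then H c * H u else 0) := by
    intro c hc
    rw [mem_Ico] at hc
    rw [sum_Ico_succ_top h]
    congr 1
    by_cases h2 : u = c + 1
    · rw [if_pos h2, if_pos (by omega)]
    · rw [if_neg h2, if_neg (by omega)]
  rw [sum_congr rfl h1, sum_add_distrib, sum_Ico_succ_top h]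
  have h3 : (∑ c ∈ Ico l u, if u = c + 1 then H c * H u else 0) =
      if l < u then H (u - 1) * H u else 0 := by
    by_cases h4 : l < u
    · rw [if_pos h4, sum_eq_single (u - 1)]
      · rw [if_pos (by omega)]
      · intro c hc hne
        rw [if_neg (by omega)]
      · intro h5
        exact (h5 (mem_Ico.2 ⟨by omega, by omega⟩)).elim
    · rw [if_neg h4]
      apply sum_eq_zero
      intro c hc
      rw [mem_Ico] at hc
      omega
  have h5 : (∑ c' ∈ Ico l u, if u = c' ∨ u = c' + 1 ∨ c' = u + 1 then H u * H c' else 0) =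
      if l < u then H (u - 1) * H u else 0 := by
    rw [← h3]
    apply sum_congr rfl
    intro c hc
    rw [mem_Ico] at hc
    by_cases h2 : u = c + 1
    · rw [if_pos h2, if_pos (by omega)]
      ring
    · rw [if_neg h2, if_neg (by omega)]
  rw [h3, h5, if_pos (Or.inl rfl)]
  ring

lemma frm_self (H : ℕ → ℤ) (l : ℕ) : frm H l l = 0 := by
  unfold frm
  simp

lemma frm_one (H : ℕ → ℤ) (l : ℕ) : frm H l (l + 1) = H l ^ 2 := by
  rw [frm_top H le_rfl, frm_self, if_neg (by omega)]
  ring

lemma frm_two (H : ℕ → ℤ) (l : ℕ) : frm H l (l + 2) = (H l + H (l + 1)) ^ 2 := by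
  rw [show l + 2 = l + 1 + 1 by ring, frm_top H (by omega), frm_one, if_pos (by omega),
    Nat.add_sub_cancel]
  ring

/-- the linear form of the definition -/
lemma frm_eq (H : ℕ → ℤ) (l n : ℕ) : frm H l (l + n) =
    ∑ c ∈ Ico l (l + n), H c ^ 2 + 2 * ∑ c ∈ Ico l (l + n - 1), H c * H (c + 1) := by
  induction n with
  | zero => simp [frm_self]
  | succ n ih =>
    rw [show l + (n + 1) = l + n + 1 by ring, frm_top H (by omega), ih,
      sum_Ico_succ_top (by omega)]
    by_cases h : l < l + n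
    · obtain ⟨m, rfl⟩ : ∃ m, n = m + 1 := ⟨n - 1, by omega⟩
      rw [if_pos h, show l + (m + 1) + 1 - 1 = l + m + 1 by omega,
        show l + (m + 1) - 1 = l + m by omega,
        sum_Ico_succ_top (f := fun c => H c * H (c + 1)) (show l ≤ l + m by omega)]
      rw [show l + (m + 1) = l + m + 1 by ring]
      ring
    · have hn : n = 0 := by omega
      subst hn
      simp

lemma frm_nonneg' {H : ℕ → ℤ} {l u : ℕ} (h : ∀ c, l ≤ c → c < u → 0 ≤ H c) : 0 ≤ frm H l u := by
  unfold frm
  apply sum_nonneg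
  intro c hc
  apply sum_nonneg
  intro c' hc'
  rw [mem_Ico] at hc hc'
  split_ifs
  · exact mul_nonneg (h c hc.1 hc.2) (h c' hc'.1 hc'.2)
  · exact le_rfl

lemma frm_zero' {H : ℕ → ℤ} {l u : ℕ} (h : ∀ c, l ≤ c → c < u → 0 ≤ H c) (h0 : frm H l u = 0)
    {c : ℕ} (h1 : l ≤ c) (h2 : c < u) : H c = 0 := by
  unfold frm at h0
  rw [sum_eq_zero_iff_of_nonneg] at h0
  · have h3 := h0 c (mem_Ico.2 ⟨h1, h2⟩)
    rw [sum_eq_zero_iff_of_nonneg] at h3
    · have h4 := h3 c (mem_Ico.2 ⟨h1, h2⟩)
      rw [if_pos (Or.inl rfl)] at h4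
      exact mul_self_eq_zero.1 h4
    · intro c' hc'
      rw [mem_Ico] at hc'
      split_ifs
      · exact mul_nonneg (h c h1 h2) (h c' hc'.1 hc'.2)
      · exact le_rfl
  · intro d hd
    apply sum_nonneg
    intro c' hc'
    rw [mem_Ico] at hd hc'
    split_ifs
    · exact mul_nonneg (h d hd.1 hd.2) (h c' hc'.1 hc'.2)
    · exact le_rfl

/-- the form is nonnegative if all values are nonnegative except possibly one end -/
lemma frm_right {H : ℕ → ℤ} {l n : ℕ} (h : ∀ c, l ≤ c → c < l + n → 0 ≤ H c) :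
    0 ≤ frm H l (l + n + 1) ∨ n = 0 := by
  by_cases hn : n = 0
  · exact Or.inr hn
  · left
    obtain ⟨m, rfl⟩ : ∃ m, n = m + 1 := ⟨n - 1, by omega⟩
    have e1 := frm_top H (l := l) (u := l + (m + 1)) (by omega)
    rw [if_pos (by omega), show l + (m + 1) - 1 = l + m by omega] at e1
    have e2 := frm_top H (l := l) (u := l + m) (by omega)
    rw [show l + (m + 1) = l + m + 1 by ring] at e1 ⊢
    have h1 : 0 ≤ frm H l (l + m) := frm_nonneg' fun c h1 h2 => h c h1 (by omega)
    have h2 : 0 ≤ (if l < l + m then H (l + m - 1) * H (l + m) else 0) := by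
      split_ifs
      · exact mul_nonneg (h _ (by omega) (by omega)) (h _ (by omega) (by omega))
      · exact le_rfl
    rw [e1, e2]
    nlinarith [sq_nonneg (H (l + m) + H (l + m + 1))]

/-- reversal -/
lemma frm_rev (H : ℕ → ℤ) (l n : ℕ) : frm (fun c => H (l + n - 1 - (c - l))) l (l + n) =
    frm H l (l + n) := by
  unfold frm
  have key : ∀ F : ℕ → ℤ, ∑ c ∈ Ico l (l + n), F (l + n - 1 - (c - l)) =
      ∑ c ∈ Ico l (l + n), F c := by
    intro F
    apply sum_nbij' (fun c => l + n - 1 - (c - l)) (fun c => l + n - 1 - (c - l))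
    · intro c hc
      rw [mem_Ico] at hc ⊢
      omega
    · intro c hc
      rw [mem_Ico] at hc ⊢
      omega
    · intro c hc
      rw [mem_Ico] at hc
      omega
    · intro c hc
      rw [mem_Ico] at hc
      omega
    · intro c _
      rfl
  rw [← key]
  apply sum_congr rfl
  intro c hc
  rw [mem_Ico] at hc
  rw [← key]
  apply sum_congr rfl
  intro c' hc'
  rw [mem_Ico] at hc'
  simp only
  by_cases h : c = c' ∨ c = c' + 1 ∨ c' = c + 1
  · rw [if_pos h, if_pos (by omega), show l + n - 1 - (l + n - 1 - (c - l) - l) = c by omega,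
      show l + n - 1 - (l + n - 1 - (c' - l) - l) = c' by omega]
  · rw [if_neg h, if_neg (by omega)]

lemma frm_left {H : ℕ → ℤ} {l n : ℕ} (hn : n ≠ 0) (h : ∀ c, l < c → c < l + n + 1 → 0 ≤ H c) :
    0 ≤ frm H l (l + n + 1) := by
  rw [show l + n + 1 = l + (n + 1) by ring, ← frm_rev]
  have h1 := frm_right (H := fun c => H (l + (n + 1) - 1 - (c - l))) (l := l) (n := n)
    (fun c h1 h2 => h _ (by omega) (by omega))
  rcases h1 with h1 | h1
  · exact h1
  · exact (hn h1).elim

/-- **the form of a strip is nonnegative** -/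
theorem frm_nonneg {H : ℕ → ℤ} {l u : ℕ} (h1 : ∀ c, l < c → c + 1 < u → 0 ≤ H c)
    (h2 : l + 3 ≤ u → 0 ≤ H l ∨ 0 ≤ H (u - 1)) : 0 ≤ frm H l u := by
  rcases Nat.lt_or_ge u (l + 1) with h3 | h3
  · unfold frm
    rw [Ico_eq_empty (by omega)]
    simp
  · rcases Nat.lt_or_ge u (l + 2) with h4 | h4
    · have : u = l + 1 := by omega
      rw [this, frm_one]
      positivity
    · rcases Nat.lt_or_ge u (l + 3) with h5 | h5
      · have : u = l + 2 := by omega
        rw [this, frm_two]
        positivity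
      · obtain ⟨n, rfl⟩ : ∃ n, u = l + n + 1 := ⟨u - l - 1, by omega⟩
        rcases h2 h5 with h6 | h6
        · rcases frm_right (H := H) (l := l) (n := n) (fun c h7 h8 => by
            rcases Nat.lt_or_ge l c with h9 | h9
            · exact h1 c h9 (by omega)
            · have : c = l := by omega
              rw [this]
              exact h6) with h7 | h7
          · exact h7
          · omega
        · exact frm_left (by omega) fun c h7 h8 => by
            rcases Nat.lt_or_ge (c + 1) (l + n + 1) with h9 | h9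
            · exact h1 c h7 h9
            · have : c = l + n + 1 - 1 := by omega
              rw [this]
              exact h6

/-- if the form vanishes then the sum of the products of neighbours is `≤ 0`, and `= 0` only for
`H = 0` -/
theorem frm_adj {H : ℕ → ℤ} {l u : ℕ} (h : l ≤ u) (h0 : frm H l u = 0) :
    2 * ∑ c ∈ Ico l (u - 1), H c * H (c + 1) = - ∑ c ∈ Ico l u, H c ^ 2 := by
  obtain ⟨n, rfl⟩ : ∃ n, u = l + n := ⟨u - l, by omega⟩
  rw [frm_eq] at h0
  linarith

end Pool.Gauss
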