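import Pool.Agent.Work.MP_065141_co.K.ModelA
import Pool.Agent.Work.MP_065141_co.K.Group

/-!
# The factors of pairs, stars and single elements with the resummed coefficients

Everything is exact in `w` (no truncation) and modulo `a_y b_y = 0` (`EvEq`).
-/

set_option autoImplicit false
set_option linter.unusedSectionVars false
set_option linter.unusedVariables false
set_option linter.unusedSimpArgs false
open scoped Classical
open Finset

namespace Pool.Gauss

section alg

open MvPolynomial

variable {A : Type} [CommRing A] {Y : Type}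

/-- **a pair of dual factors with different coefficients** -/
theorem EvEq_pair_lam (w i : A) (hi : (w - 1) * i = 1) (y y' : Y) (P0 P1 P2 lz lx : A) :
    EvEq w ((1 + C lz * (C (P0 - 1) + (C w - X y) * C P1 +
        (C w - X y) * (C w - X y') * C (i * P2))) *
      (1 + C lx * (C (P0 - 1) + X y * C P1 + X y * X y' * C P2)))
      (C ((1 + lz * (P0 - 1)) * (1 + lx * (P0 - 1))) +
        C (lx - lz) * (C P1 * X y + C P2 * (X y * X y')) +
        C ((1 + lx * (P0 - 1)) * lz * w) *
          (C P1 + C (i * P2) * (X y * X y' - X y - X y' + C w))) := by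
  have hi' : (C w - 1 : MvPolynomial Y A) * C i = 1 := by
    rw [← C_1, ← C_sub, ← C_mul, hi]
  refine EvEq.of_ab (y := y) (C lz * C lx * (C P1 + (C w - X y') * C i * C P2) *
    (C P1 + X y' * C P2)) ?_
  simp only [C_mul, C_sub, C_add, C_1]
  linear_combination (-((1 + C lx * (C P0 - 1)) * C lz * C P2 * X y * X y')) * hi'

/-- **a star with different coefficients**, no energy on it: lost edge `{k, c}`, new edge
`{k, t}` -/
theorem EvEq_star_lam (w i : A) (hi : (w - 1) * i = 1) (k c t : Y) (P2 lz lx : A) :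
    EvEq w ((1 + C lz * ((C w - X k) * (C w - X c) * C (i * P2))) *
      (1 + C lx * (X k * X t * C P2)))
      (1 + C P2 * (X k * (X t - X c)) +
        (C ((lx - 1) * P2) * (X k * X t) - C ((lz - 1) * P2) * (X k * X c) +
        C (lz * w * (i * P2)) * (X k * X c - X k - X c + C w))) := by
  have hi' : (C w - 1 : MvPolynomial Y A) * C i = 1 := by
    rw [← C_1, ← C_sub, ← C_mul, hi]
  refine EvEq.of_ab (y := k) (C lz * C lx * ((C w - X c) * C i * C P2) * (X t * C P2)) ?_
  simp only [C_mul, C_sub, C_add, C_1]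
  linear_combination (-(C lz * C P2 * X k * X c)) * hi'

/-- **a star, energy one at `t`** (or at the new edge only) -/
theorem EvEq_star_t (w i : A) (hi : (w - 1) * i = 1) (k c t : Y) (P1 P2 Q2 lz lx : A) :
    EvEq w ((1 + C lz * ((C w - X k) * (C w - X c) * C (i * P2))) *
      (1 + C lx * (X k * C P1 + X k * X t * C Q2)))
      (1 + C lx * (C P1 * X k + C Q2 * (X k * X t)) - C (lz * P2) * (X k * X c) +
        C (lz * w * (i * P2)) * (X k * X c - X k - X c + C w)) := by
  have hi' : (C w - 1 : MvPolynomial Y A) * C i = 1 := by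
    rw [← C_1, ← C_sub, ← C_mul, hi]
  refine EvEq.of_ab (y := k) (C lz * C lx * ((C w - X c) * C i * C P2) *
    (C P1 + X t * C Q2)) ?_
  simp only [C_mul, C_sub, C_add, C_1]
  linear_combination (-(C lz * C P2 * X k * X c)) * hi'

/-- **a star, energy one at `c`** (or at the lost edge only) -/
theorem EvEq_star_c (w i : A) (hi : (w - 1) * i = 1) (k c t : Y) (P1 P2 Q2 lz lx : A) :
    EvEq w ((1 + C lz * ((C w - X k) * C P1 + (C w - X k) * (C w - X c) * C (i * Q2))) *
      (1 + C lx * (X k * X t * C P2)))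
      (1 + C (lx * P2) * (X k * X t) + C (lz * P1) * (C w - X k) - C (lz * Q2) * (X k * X c) +
        C (lz * w * (i * Q2)) * (X k * X c - X k - X c + C w)) := by
  have hi' : (C w - 1 : MvPolynomial Y A) * C i = 1 := by
    rw [← C_1, ← C_sub, ← C_mul, hi]
  refine EvEq.of_ab (y := k) (C lz * C lx * (C P1 + (C w - X c) * C i * C Q2) *
    (X t * C P2)) ?_
  simp only [C_mul, C_sub, C_add, C_1]
  linear_combination (-(C lz * C Q2 * X k * X c)) * hi'

/-- **a star, energy one at `k`** -/
theorem EvEq_star_k (w i : A) (hi : (w - 1) * i = 1) (k c t : Y) (P1 Q2 lz lx : A) :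
    EvEq w ((1 + C lz * ((C w - X c) * C P1 + (C w - X c) * (C w - X k) * C (i * Q2))) *
      (1 + C lx * (X t * C P1 + X t * X k * C Q2)))
      ((1 + C (lz * P1) * (C w - X c)) * (1 + C (lx * P1) * X t) +
        C (lx * Q2) * (X k * X t) * (1 + C (lz * P1) * (C w - X c)) +
        C (lz * (i * Q2)) * ((C w - X k) * (C w - X c)) * (1 + C (lx * P1) * X t)) := by
  refine EvEq.of_ab (y := k) (C lz * C lx * ((C w - X c) * C i * C Q2) * (X t * C Q2)) ?_
  simp only [C_mul, C_sub, C_add, C_1]
  ring

end alg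

open Polynomial

variable {α : Type} [Fintype α] [PartialOrder α] {i : ℕ}

/-! ### the local factors of the rows -/

lemma EA_DZ {z y y' : α} (hz : corank z + 1 = i) (hb : bd i z = {y, y'}) (hne : y ≠ y')
    {k : α → ℕ} (hk : k y ≤ k y') :
    EA i k z = MvPolynomial.C (qs (k y) - 1) +
      (MvPolynomial.C wA - MvPolynomial.X y) * MvPolynomial.C (qm (k y) (k y')) +
      (MvPolynomial.C wA - MvPolynomial.X y) * (MvPolynomial.C wA - MvPolynomial.X y') *
        MvPolynomial.C (iwA * qe (k y')) := by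
  unfold EA
  rw [GA_DZ hz hb hne hk, map_sub, map_one]
  ring

lemma EA_DX {x y y' : α} (hx : corank x = i + 1) (hb : bd i x = {y, y'}) (hne : y ≠ y')
    {k : α → ℕ} (hk : k y ≤ k y') :
    EA i k x = MvPolynomial.C (qs (k y) - 1) +
      MvPolynomial.X y * MvPolynomial.C (qm (k y) (k y')) +
      MvPolynomial.X y * MvPolynomial.X y' * MvPolynomial.C (qe (k y')) := by
  unfold EA
  rw [GA_DX hx hb hne hk, map_sub, map_one]
  ring

lemma EA_sgX {x y : α} (hx : corank x = i + 1) (hb : bd i x = {y}) (k : α → ℕ) :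
    EA i k x = MvPolynomial.C (qs (k y) - 1) +
      MvPolynomial.X y * MvPolynomial.C (qA ^ (k y + 1) * geoA) := by
  unfold EA
  rw [GA_sgX hx hb, map_sub, map_one]
  ring

lemma EA_sgZ {z y : α} (hz : corank z + 1 = i) (hb : bd i z = {y}) (k : α → ℕ) :
    EA i k z = MvPolynomial.C (qs (k y) - 1) +
      (MvPolynomial.C wA - MvPolynomial.X y) *
        MvPolynomial.C (iwA * (qA ^ (k y + 1) * geoA)) := by
  unfold EA
  rw [GA_sgZ hz hb, map_sub, map_one]
  ring

/-- **the factor of a pair of dual elements**, any energies, any coefficients -/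
theorem EA_pair {z x y y' : α} (hz : corank z + 1 = i) (hx : corank x = i + 1)
    (hbz : bd i z = {y, y'}) (hbx : bd i x = {y, y'}) (hne : y ≠ y') {k : α → ℕ}
    (hk : k y ≤ k y') (lz lx : AA) :
    EvEq wA ((1 + MvPolynomial.C lz * EA i k z) * (1 + MvPolynomial.C lx * EA i k x))
      (MvPolynomial.C ((1 + lz * (qs (k y) - 1)) * (1 + lx * (qs (k y) - 1))) +
        MvPolynomial.C (lx - lz) * (MvPolynomial.C (qm (k y) (k y')) * MvPolynomial.X y +
          MvPolynomial.C (qe (k y')) * (MvPolynomial.X y * MvPolynomial.X y')) +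
        MvPolynomial.C ((1 + lx * (qs (k y) - 1)) * lz * wA) *
          (MvPolynomial.C (qm (k y) (k y')) + MvPolynomial.C (iwA * qe (k y')) *
            (MvPolynomial.X y * MvPolynomial.X y' - MvPolynomial.X y - MvPolynomial.X y' +
              MvPolynomial.C wA))) := by
  rw [EA_DZ hz hbz hne hk, EA_DX hx hbx hne hk]
  exact EvEq_pair_lam wA iwA iwA_mul y y' _ _ _ _ _

/-- the item of a matched pair without energies -/
noncomputable def rho0 (lz lx : AA) (y y' : α) : MvPolynomial α AA :=
  MvPolynomial.C ((lx - lz) * (ZA * geoA)) * (MvPolynomial.X y * MvPolynomial.X y') +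
    MvPolynomial.C (lz * wA * (iwA * (ZA * geoA))) *
      (MvPolynomial.X y * MvPolynomial.X y' - MvPolynomial.X y - MvPolynomial.X y' +
        MvPolynomial.C wA)

/-- the item of a matched pair, energy one at `y'` -/
noncomputable def rho1 (lz lx : AA) (y y' : α) : MvPolynomial α AA :=
  MvPolynomial.C (lx - lz) * (MvPolynomial.C ZA * MvPolynomial.X y +
      MvPolynomial.C (ZA * qA * geoA) * (MvPolynomial.X y * MvPolynomial.X y')) +
    MvPolynomial.C (lz * wA) * (MvPolynomial.C ZA + MvPolynomial.C (iwA * (ZA * qA * geoA)) *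
      (MvPolynomial.X y * MvPolynomial.X y' - MvPolynomial.X y - MvPolynomial.X y' +
        MvPolynomial.C wA))

lemma qm_zero_one : qm 0 1 = ZA := by simp [qm]
lemma qe_one : qe 1 = ZA * qA * geoA := by simp [qe]

theorem EA_pair_zero {z x y y' : α} (hz : corank z + 1 = i) (hx : corank x = i + 1)
    (hbz : bd i z = {y, y'}) (hbx : bd i x = {y, y'}) (hne : y ≠ y') {k : α → ℕ}
    (hk : k y = 0) (hk' : k y' = 0) (lz lx : AA) :
    EvEq wA ((1 + MvPolynomial.C lz * EA i k z) * (1 + MvPolynomial.C lx * EA i k x))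
      (1 + rho0 lz lx y y') := by
  have h := EA_pair hz hx hbz hbx hne (k := k) (by omega) lz lx
  refine h.trans (EvEq.of_eq ?_)
  rw [hk, hk', qs_zero, qm_self, qe_zero, rho0]
  simp only [map_mul, map_sub, map_zero, map_one, map_add]
  ring

theorem EA_pair_one {z x y y' : α} (hz : corank z + 1 = i) (hx : corank x = i + 1)
    (hbz : bd i z = {y, y'}) (hbx : bd i x = {y, y'}) (hne : y ≠ y') {k : α → ℕ}
    (hk : k y = 0) (hk' : k y' = 1) (lz lx : AA) :
    EvEq wA ((1 + MvPolynomial.C lz * EA i k z) * (1 + MvPolynomial.C lx * EA i k x))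
      (1 + rho1 lz lx y y') := by
  have h := EA_pair hz hx hbz hbx hne (k := k) (by omega) lz lx
  refine h.trans (EvEq.of_eq ?_)
  rw [hk, hk', qs_zero, qm_zero_one, qe_one, rho1]
  simp only [map_mul, map_sub, map_zero, map_one, map_add]
  ring

/-- the own part of a star (lost edge `{v, c}`, new edge `{v, t}`) without energies -/
noncomputable def own0 (lz lx : AA) (v c t : α) : MvPolynomial α AA :=
  MvPolynomial.C ((lx - 1) * (ZA * geoA)) * (MvPolynomial.X v * MvPolynomial.X t) -
    MvPolynomial.C ((lz - 1) * (ZA * geoA)) * (MvPolynomial.X v * MvPolynomial.X c) +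
    MvPolynomial.C (lz * wA * (iwA * (ZA * geoA))) *
      (MvPolynomial.X v * MvPolynomial.X c - MvPolynomial.X v - MvPolynomial.X c +
        MvPolynomial.C wA)

/-- **the factor of a star** without energies on it -/
theorem EA_star {z x v c t : α} (hz : corank z + 1 = i) (hx : corank x = i + 1)
    (hbz : bd i z = {v, c}) (hbx : bd i x = {v, t}) (hc : v ≠ c) (ht : v ≠ t) {k : α → ℕ}
    (hk : k v = 0) (hkc : k c = 0) (hkt : k t = 0) (lz lx : AA) :
    EvEq wA ((1 + MvPolynomial.C lz * EA i k z) * (1 + MvPolynomial.C lx * EA i k x))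
      (1 + MvPolynomial.C (ZA * geoA) *
        (MvPolynomial.X v * (MvPolynomial.X t - MvPolynomial.X c)) + own0 lz lx v c t) := by
  rw [EA_DZ hz hbz hc (k := k) (by omega), EA_DX hx hbx ht (k := k) (by omega)]
  simp only [hk, hkc, hkt, qs_zero, qm_self, qe_zero, sub_self, map_zero, mul_zero, add_zero,
    zero_add]
  exact EvEq_star_lam wA iwA iwA_mul v c t _ _ _

/-- **the factor of a star**, energy one at `t` -/
theorem EA_star_t {z x v c t : α} (hz : corank z + 1 = i) (hx : corank x = i + 1)
    (hbz : bd i z = {v, c}) (hbx : bd i x = {v, t}) (hc : v ≠ c) (ht : v ≠ t) {k : α → ℕ}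
    (hk : k v = 0) (hkc : k c = 0) (hkt : k t = 1) (lz lx : AA) :
    EvEq wA ((1 + MvPolynomial.C lz * EA i k z) * (1 + MvPolynomial.C lx * EA i k x))
      (1 + MvPolynomial.C lx * (MvPolynomial.C ZA * MvPolynomial.X v +
          MvPolynomial.C (ZA * qA * geoA) * (MvPolynomial.X v * MvPolynomial.X t)) -
        MvPolynomial.C (lz * (ZA * geoA)) * (MvPolynomial.X v * MvPolynomial.X c) +
        MvPolynomial.C (lz * wA * (iwA * (ZA * geoA))) *
          (MvPolynomial.X v * MvPolynomial.X c - MvPolynomial.X v - MvPolynomial.X c +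
            MvPolynomial.C wA)) := by
  rw [EA_DZ hz hbz hc (k := k) (by omega), EA_DX hx hbx ht (k := k) (by omega)]
  simp only [hk, hkc, hkt, qs_zero, qm_self, qe_zero, qm_zero_one, qe_one, sub_self, map_zero,
    mul_zero, add_zero, zero_add]
  exact EvEq_star_t wA iwA iwA_mul v c t _ _ _ _ _

/-- **the factor of a star**, energy one at `c` -/
theorem EA_star_c {z x v c t : α} (hz : corank z + 1 = i) (hx : corank x = i + 1)
    (hbz : bd i z = {v, c}) (hbx : bd i x = {v, t}) (hc : v ≠ c) (ht : v ≠ t) {k : α → ℕ}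
    (hk : k v = 0) (hkc : k c = 1) (hkt : k t = 0) (lz lx : AA) :
    EvEq wA ((1 + MvPolynomial.C lz * EA i k z) * (1 + MvPolynomial.C lx * EA i k x))
      (1 + MvPolynomial.C (lx * (ZA * geoA)) * (MvPolynomial.X v * MvPolynomial.X t) +
        MvPolynomial.C (lz * ZA) * (MvPolynomial.C wA - MvPolynomial.X v) -
        MvPolynomial.C (lz * (ZA * qA * geoA)) * (MvPolynomial.X v * MvPolynomial.X c) +
        MvPolynomial.C (lz * wA * (iwA * (ZA * qA * geoA))) *
          (MvPolynomial.X v * MvPolynomial.X c - MvPolynomial.X v - MvPolynomial.X c +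
            MvPolynomial.C wA)) := by
  rw [EA_DZ hz hbz hc (k := k) (by omega), EA_DX hx hbx ht (k := k) (by omega)]
  simp only [hk, hkc, hkt, qs_zero, qm_self, qe_zero, qm_zero_one, qe_one, sub_self, map_zero,
    mul_zero, add_zero, zero_add]
  exact EvEq_star_c wA iwA iwA_mul v c t _ _ _ _ _

/-- **the factor of a star**, energy one at the centre `v` -/
theorem EA_star_v {z x v c t : α} (hz : corank z + 1 = i) (hx : corank x = i + 1)
    (hbz : bd i z = {v, c}) (hbx : bd i x = {v, t}) (hc : v ≠ c) (ht : v ≠ t) {k : α → ℕ}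
    (hk : k v = 1) (hkc : k c = 0) (hkt : k t = 0) (lz lx : AA) :
    EvEq wA ((1 + MvPolynomial.C lz * EA i k z) * (1 + MvPolynomial.C lx * EA i k x))
      ((1 + MvPolynomial.C (lz * ZA) * (MvPolynomial.C wA - MvPolynomial.X c)) *
          (1 + MvPolynomial.C (lx * ZA) * MvPolynomial.X t) +
        MvPolynomial.C (lx * (ZA * qA * geoA)) * (MvPolynomial.X v * MvPolynomial.X t) *
          (1 + MvPolynomial.C (lz * ZA) * (MvPolynomial.C wA - MvPolynomial.X c)) +
        MvPolynomial.C (lz * (iwA * (ZA * qA * geoA))) *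
          ((MvPolynomial.C wA - MvPolynomial.X v) * (MvPolynomial.C wA - MvPolynomial.X c)) *
          (1 + MvPolynomial.C (lx * ZA) * MvPolynomial.X t)) := by
  have hbz' : bd i z = {c, v} := by rw [hbz, pair_comm]
  have hbx' : bd i x = {t, v} := by rw [hbx, pair_comm]
  rw [EA_DZ hz hbz' hc.symm (k := k) (by omega), EA_DX hx hbx' ht.symm (k := k) (by omega)]
  simp only [hk, hkc, hkt, qs_zero, qm_zero_one, qe_one, sub_self, map_zero, zero_add]
  exact EvEq_star_k wA iwA iwA_mul v c t _ _ _ _

end Pool.Gauss
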