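import Pool.Agent.Work.MP_065141_co.K.TwoBody

/-!
# Three-level model: tools

Ring `TA = ℤ[Z][[w]]`; `cf d j` = coefficient of `Z ^ j * w ^ d`.  A star with lost pair `{k, c}` and
new pair `{t, k}` is `1 + ρ_e + D̂` with `D̂ = Z / (1 - w Z) * a_k * (a_t - a_c)`, and
`Ev (D * P) = 0` if `P` does not contain `a_t`, `a_c`.  At `w = 0` (`E0`, over `ℤ`):
`a ^ 2 = 0`, `E0 a = -1`, `E0 (a * (1 - a) ^ g) = -1`, `E0 ((1 - a) ^ g) = 1 + g`.
-/

set_option autoImplicit false
set_option linter.unusedSectionVars false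
open scoped Classical
open Finset MvPolynomial

namespace Pool.Gauss

/-- the functional commutes with ring homomorphisms -/
lemma map_Ev {A B Y : Type} [CommRing A] [CommRing B] (f : A →+* B) (w : A)
    (P : MvPolynomial Y A) : f (Ev w P) = Ev (f w) (MvPolynomial.map f P) := by
  induction P using MvPolynomial.induction_on' with
  | monomial m c =>
    rw [MvPolynomial.map_monomial, Ev_monomial, Ev_monomial, map_mul]
    congr 1
    rw [evm, evm, Finsupp.prod, Finsupp.prod, map_prod]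
    apply Finset.prod_congr rfl
    intro y _
    rw [map_mul, map_pow, map_sub, map_one]
  | add P Q hP hQ => rw [map_add, map_add, map_add, map_add, hP, hQ]

namespace TL

/-! ### the ring -/

/-- power series in `w` over `ℤ[Z]` -/
abbrev TA : Type := PowerSeries (Polynomial ℤ)

/-- the variable `w` -/
noncomputable def wT : TA := PowerSeries.X

/-- the variable `Z` -/
noncomputable def ZT : TA := PowerSeries.C Polynomial.X

/-- coefficient of `Z ^ j * w ^ d` -/
noncomputable def cf (d j : ℕ) : TA →+ ℤ :=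
  ((Polynomial.lcoeff ℤ j).toAddMonoidHom).comp
    ((PowerSeries.coeff d : TA →ₗ[Polynomial ℤ] Polynomial ℤ).toAddMonoidHom)

lemma cf_apply (d j : ℕ) (f : TA) : cf d j f = (PowerSeries.coeff d f).coeff j := rfl

lemma cf_intCast_mul (d j : ℕ) (n : ℤ) (f : TA) : cf d j ((n : TA) * f) = n * cf d j f := by
  have : (n : TA) * f = n • f := by rw [zsmul_eq_mul]
  rw [this, map_zsmul, smul_eq_mul]

lemma cf_two_mul (d j : ℕ) (f : TA) : cf d j (2 * f) = 2 * cf d j f := by
  have := cf_intCast_mul d j 2 f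
  simpa using this

lemma cf_wT_pow_mul {d e j : ℕ} (h : d < e) (f : TA) : cf d j (wT ^ e * f) = 0 := by
  rw [cf_apply, wT, PowerSeries.coeff_X_pow_mul', if_neg (by omega), Polynomial.coeff_zero]

lemma cf_of_dvd {d e j : ℕ} (h : d < e) {f : TA} (hf : wT ^ e ∣ f) : cf d j f = 0 := by
  obtain ⟨g, rfl⟩ := hf
  exact cf_wT_pow_mul h g

/-- series without `Z` -/
noncomputable def zf : PowerSeries ℤ →+* TA := PowerSeries.map Polynomial.C

lemma cf_piece (d j a b : ℕ) (g : PowerSeries ℤ) :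
    cf d j (ZT ^ a * wT ^ b * zf g) = if j = a ∧ b ≤ d then PowerSeries.coeff (d - b) g else 0 := by
  have h1 : ZT ^ a * wT ^ b * zf g = PowerSeries.C (Polynomial.X ^ a) * (PowerSeries.X ^ b * zf g) := by
    rw [ZT, wT, map_pow, mul_assoc]
  rw [cf_apply, h1, PowerSeries.coeff_C_mul, PowerSeries.coeff_X_pow_mul']
  by_cases hb : b ≤ d
  · rw [if_pos hb, zf, PowerSeries.coeff_map, Polynomial.coeff_X_pow_mul', Polynomial.coeff_C]
    by_cases hj : j = a
    · rw [if_pos hj.ge, if_pos (by omega), if_pos ⟨hj, hb⟩]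
    · rw [if_neg (fun h : j = a ∧ b ≤ d => hj h.1)]
      by_cases h2 : a ≤ j
      · rw [if_pos h2, if_neg (by omega)]
      · rw [if_neg h2]
  · rw [if_neg hb, mul_zero, Polynomial.coeff_zero, if_neg (fun h => hb h.2)]

variable {Y : Type}

/-- integral polynomials as polynomials over `TA` -/
noncomputable def up : MvPolynomial Y ℤ →+* MvPolynomial Y TA :=
  MvPolynomial.map (Int.castRingHom TA)

/-- integral polynomials as polynomials over `ℤ[[w]]` -/
noncomputable def up0 : MvPolynomial Y ℤ →+* MvPolynomial Y (PowerSeries ℤ) :=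
  MvPolynomial.map (Int.castRingHom (PowerSeries ℤ))

/-- the functional at `w = 0` -/
noncomputable def E0 : MvPolynomial Y ℤ →ₗ[ℤ] ℤ := Ev (0 : ℤ)

/-- the coefficient of `w` of the functional -/
noncomputable def E1 (P : MvPolynomial Y ℤ) : ℤ :=
  PowerSeries.coeff 1 (Ev (PowerSeries.X : PowerSeries ℤ) (up0 P))

lemma Ev_up (P : MvPolynomial Y ℤ) :
    Ev wT (up P) = zf (Ev (PowerSeries.X : PowerSeries ℤ) (up0 P)) := by
  rw [map_Ev zf PowerSeries.X (up0 P)]
  have h1 : zf (PowerSeries.X : PowerSeries ℤ) = wT := by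
    rw [zf, PowerSeries.map_X, wT]
  have h2 : MvPolynomial.map zf (up0 P) = up P := by
    rw [up0, MvPolynomial.map_map, up]
    have h3 : zf.comp (Int.castRingHom (PowerSeries ℤ)) = Int.castRingHom TA :=
      RingHom.ext_int _ _
    rw [h3]
  rw [h1, h2]

lemma coeff_zero_Ev_up0 (P : MvPolynomial Y ℤ) :
    PowerSeries.coeff 0 (Ev (PowerSeries.X : PowerSeries ℤ) (up0 P)) = E0 P := by
  rw [PowerSeries.coeff_zero_eq_constantCoeff_apply,
    map_Ev (PowerSeries.constantCoeff : PowerSeries ℤ →+* ℤ) PowerSeries.X (up0 P), E0]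
  have h2 : MvPolynomial.map (PowerSeries.constantCoeff : PowerSeries ℤ →+* ℤ) (up0 P) = P := by
    rw [up0, MvPolynomial.map_map]
    have : (PowerSeries.constantCoeff : PowerSeries ℤ →+* ℤ).comp
        (Int.castRingHom (PowerSeries ℤ)) = RingHom.id ℤ := RingHom.ext_int _ _
    rw [this, MvPolynomial.map_id]
  rw [h2, PowerSeries.constantCoeff_X]

/-- a piece `Z ^ a * w ^ b * P` with the wrong power of `Z` -/
lemma cf_Ev_ne {d j a b : ℕ} (h : j ≠ a) (P : MvPolynomial Y ℤ) :
    cf d j (Ev wT (C (ZT ^ a * wT ^ b) * up P)) = 0 := by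
  rw [Ev_C_mul, Ev_up, cf_piece, if_neg (fun g => h g.1)]

/-- a piece `Z ^ j * w ^ d * P` -/
lemma cf_Ev_eq (d j : ℕ) (P : MvPolynomial Y ℤ) :
    cf d j (Ev wT (C (ZT ^ j * wT ^ d) * up P)) = E0 P := by
  rw [Ev_C_mul, Ev_up, cf_piece, if_pos ⟨rfl, le_rfl⟩, Nat.sub_self, coeff_zero_Ev_up0]

/-- a piece `Z ^ j * w ^ d * P`, next coefficient -/
lemma cf_Ev_succ (d j : ℕ) (P : MvPolynomial Y ℤ) :
    cf (d + 1) j (Ev wT (C (ZT ^ j * wT ^ d) * up P)) = E1 P := by
  rw [Ev_C_mul, Ev_up, cf_piece, if_pos ⟨rfl, by omega⟩, Nat.add_sub_cancel_left, E1]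

/-- terms divisible by `w ^ e` -/
lemma cf_Ev_dvd {d e j : ℕ} (h : d < e) {f : MvPolynomial Y TA} (hf : C (wT ^ e) ∣ f) :
    cf d j (Ev wT f) = 0 := by
  obtain ⟨g, rfl⟩ := hf
  rw [Ev_C_mul]
  exact cf_wT_pow_mul h _

/-! ### the functional of products over vertices -/

section

variable {A : Type} [CommRing A]

lemma Ev_prod_single (w : A) (V : Finset Y) (f : Y → MvPolynomial Y A)
    (hf : ∀ y ∈ V, f y ∈ supported A ({y} : Set Y)) :
    Ev w (∏ y ∈ V, f y) = ∏ y ∈ V, Ev w (f y) := by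
  induction V using Finset.induction_on with
  | empty => rw [prod_empty, prod_empty, Ev_one]
  | insert y V hy ih =>
    rw [prod_insert hy, prod_insert hy, ← ih fun z hz => hf z (mem_insert_of_mem hz)]
    refine Ev_mul w (s := {y}) (t := (V : Set Y)) ?_ (hf y (mem_insert_self y V)) ?_
    · rw [Set.disjoint_singleton_left]
      exact_mod_cast hy
    · refine prod_mem fun z hz => supported_mono ?_ (hf z (mem_insert_of_mem hz))
      rw [Set.singleton_subset_iff]
      exact_mod_cast hz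

lemma X_mem_supp {y : Y} {s : Set Y} (h : y ∈ s) : (X y : MvPolynomial Y A) ∈ supported A s :=
  Algebra.subset_adjoin (Set.mem_image_of_mem _ h)

lemma Ev_X (w : A) (y : Y) : Ev w (X y : MvPolynomial Y A) = w - 1 := by
  have h : (X y : MvPolynomial Y A) = monomial (Finsupp.single y 1) 1 := rfl
  rw [h, Ev_monomial, evm, Finsupp.prod, Finsupp.support_single _ one_ne_zero,
    prod_singleton, Finsupp.single_eq_same]
  simp

end

lemma E0_C (n : ℤ) : E0 (C n : MvPolynomial Y ℤ) = n := Ev_C 0 n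

lemma E0_one : E0 (1 : MvPolynomial Y ℤ) = 1 := Ev_one 0

lemma E0_X (y : Y) : E0 (X y : MvPolynomial Y ℤ) = -1 := by
  rw [E0, Ev_X, zero_sub]

lemma E0_sq_mul (y : Y) (P : MvPolynomial Y ℤ) : E0 (X y ^ 2 * P) = 0 := by
  induction P using MvPolynomial.induction_on' with
  | monomial m c =>
    have h : (X y ^ 2 * monomial m c : MvPolynomial Y ℤ) =
        monomial (Finsupp.single y 2 + m) c := by
      rw [X_pow_eq_monomial, monomial_mul, one_mul]
    rw [h, E0, Ev_monomial, evm, Finsupp.prod]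
    have h1 : y ∈ (Finsupp.single y 2 + m).support := by
      rw [Finsupp.mem_support_iff, Finsupp.add_apply, Finsupp.single_eq_same]
      omega
    rw [Finset.prod_eq_zero h1, mul_zero]
    rw [Finsupp.add_apply, Finsupp.single_eq_same, zero_pow (by omega), zero_mul]
  | add P Q hP hQ => rw [mul_add, map_add, hP, hQ, add_zero]

lemma one_sub_pow_eq (y : Y) (g : ℕ) : ∃ P : MvPolynomial Y ℤ,
    (1 - X y) ^ g = 1 - (g : MvPolynomial Y ℤ) * X y + X y ^ 2 * P := by
  induction g with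
  | zero => exact ⟨0, by simp⟩
  | succ g ih =>
    obtain ⟨P, hP⟩ := ih
    refine ⟨(g : MvPolynomial Y ℤ) + P - X y * P, ?_⟩
    rw [pow_succ, hP]
    push_cast
    ring

lemma E0_cpow (y : Y) (g : ℕ) : E0 ((1 - X y) ^ g : MvPolynomial Y ℤ) = 1 + g := by
  obtain ⟨P, hP⟩ := one_sub_pow_eq y g
  have h1 : (g : MvPolynomial Y ℤ) * X y = C (g : ℤ) * X y := by
    rw [map_natCast]
  rw [hP, map_add, map_sub, E0_sq_mul, E0_one, h1, E0, Ev_C_mul]
  have := E0_X y
  rw [E0] at this
  rw [this]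
  ring

lemma E0_X_cpow (y : Y) (g : ℕ) : E0 (X y * (1 - X y) ^ g : MvPolynomial Y ℤ) = -1 := by
  obtain ⟨P, hP⟩ := one_sub_pow_eq y g
  have h1 : (X y : MvPolynomial Y ℤ) * (1 - (g : MvPolynomial Y ℤ) * X y + X y ^ 2 * P) =
      X y + X y ^ 2 * (X y * P - (g : MvPolynomial Y ℤ)) := by ring
  rw [hP, h1, map_add, E0_sq_mul, E0_X, add_zero]

/-- the product of the `(1 - a_y) ^ (g y)` -/
noncomputable def cp (V : Finset Y) (g : Y → ℕ) : MvPolynomial Y ℤ := ∏ y ∈ V, (1 - X y) ^ g y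

lemma one_sub_X_mem (y : Y) (g : ℕ) {s : Set Y} (h : y ∈ s) :
    ((1 - X y) ^ g : MvPolynomial Y ℤ) ∈ supported ℤ s :=
  pow_mem (sub_mem (one_mem _) (X_mem_supp h)) _

/-- value of frozen variables times a product -/
lemma E0_frozen {B V : Finset Y} (hB : B ⊆ V) (g : Y → ℕ) :
    E0 ((∏ y ∈ B, X y) * cp V g) = (-1) ^ B.card * ∏ y ∈ V \ B, (1 + (g y : ℤ)) := by
  have h1 : (∏ y ∈ B, X y) * cp V g =
      ∏ y ∈ V, (if y ∈ B then X y else 1) * (1 - X y) ^ g y := by
    rw [prod_mul_distrib, cp]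
    congr 1
    rw [prod_ite_mem, inter_eq_right.2 hB]
  rw [h1, E0, Ev_prod_single]
  · have h2 : ∀ y ∈ V, Ev (0 : ℤ) ((if y ∈ B then X y else 1) * (1 - X y) ^ g y) =
        if y ∈ B then -1 else 1 + (g y : ℤ) := by
      intro y _
      split_ifs with h
      · exact E0_X_cpow y (g y)
      · rw [one_mul]
        exact E0_cpow y (g y)
    rw [prod_congr rfl h2, prod_ite, prod_const]
    congr 1
    · rw [filter_mem_eq_inter, inter_eq_right.2 hB]
    · rw [filter_notMem_eq_sdiff]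
  · intro y _
    refine mul_mem ?_ (one_sub_X_mem y (g y) (Set.mem_singleton y))
    split_ifs
    · exact X_mem_supp (Set.mem_singleton y)
    · exact one_mem _

/-! ### stars -/

variable {σ : Type}

/-- vertex-disjoint stars -/
structure Stars (St : Finset σ) (t k c : σ → Y) : Prop where
  tk : ∀ s ∈ St, t s ≠ k s
  kc : ∀ s ∈ St, k s ≠ c s
  tc : ∀ s ∈ St, t s ≠ c s
  dis : ∀ s ∈ St, ∀ s' ∈ St, s ≠ s' →
    Disjoint ({t s, k s, c s} : Finset Y) ({t s', k s', c s'} : Finset Y)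

/-- the operator of a star, over any ring -/
noncomputable def Dg (A : Type) [CommRing A] (t k c : Y) : MvPolynomial Y A :=
  X k * (X t - X c)

lemma Dg_mem (A : Type) [CommRing A] {t k c : Y} {s : Set Y} (ht : t ∈ s) (hk : k ∈ s)
    (hc : c ∈ s) : Dg A t k c ∈ supported A s :=
  mul_mem (X_mem_supp hk) (sub_mem (X_mem_supp ht) (X_mem_supp hc))

lemma up_Dg (t k c : Y) : up (Dg ℤ t k c) = Dg TA t k c := by
  simp [up, Dg]

/-- the antisymmetry: the operator of a star which is not touched gives zero -/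
lemma Ev_Dg {A : Type} [CommRing A] (w : A) {t k c : Y} (hkt : k ≠ t) (hkc : k ≠ c)
    {P : MvPolynomial Y A} (hP : P ∈ supported A {y | y ≠ t ∧ y ≠ c}) :
    Ev w (Dg A t k c * P) = 0 := by
  have h1 : Dg A t k c * P = (X t - X c) * (X k * P) := by rw [Dg]; ring
  have h2 : Disjoint ({t, c} : Set Y) {y | y ≠ t ∧ y ≠ c} := by
    rw [Set.disjoint_left]
    rintro y (rfl | h) ⟨g1, g2⟩
    · exact g1 rfl
    · exact g2 h
  rw [h1, Ev_mul w h2 (sub_mem (X_mem_supp (by simp)) (X_mem_supp (by simp)))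
    (mul_mem (X_mem_supp (by exact ⟨hkt, hkc⟩)) hP), map_sub]
  rw [Ev_X, Ev_X, sub_self, zero_mul]

/-- the product of the operators of the stars of `T` -/
noncomputable def DT (A : Type) [CommRing A] (T : Finset σ) (t k c : σ → Y) : MvPolynomial Y A :=
  ∏ s ∈ T, Dg A (t s) (k s) (c s)

lemma up_DT (T : Finset σ) (t k c : σ → Y) : up (DT ℤ T t k c) = DT TA T t k c := by
  rw [DT, map_prod, DT]
  exact prod_congr rfl fun s _ => up_Dg _ _ _

/-- a product over stars one of which is not touched -/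
lemma Ev_DT {A : Type} [CommRing A] (w : A) {St : Finset σ} {t k c : σ → Y}
    (hS : Stars St t k c) {T : Finset σ} (hT : T ⊆ St) {s : σ} (hs : s ∈ T)
    {P : MvPolynomial Y A} (hP : P ∈ supported A {y | y ≠ t s ∧ y ≠ c s}) :
    Ev w (DT A T t k c * P) = 0 := by
  have h1 : DT A T t k c * P = Dg A (t s) (k s) (c s) * (DT A (T.erase s) t k c * P) := by
    rw [DT, DT, ← mul_prod_erase T _ hs, mul_assoc]
  have hsS := hT hs
  rw [h1]
  refine Ev_Dg w (hS.tk s hsS).symm (hS.kc s hsS) (mul_mem (prod_mem fun s' hs' => ?_) hP)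
  rw [mem_erase] at hs'
  have hd := hS.dis s hsS s' (hT hs'.2) hs'.1.symm
  rw [Finset.disjoint_left] at hd
  have g : ∀ y, y ∈ ({t s', k s', c s'} : Finset Y) → y ≠ t s ∧ y ≠ c s := by
    intro y hy
    constructor
    · rintro rfl
      exact hd (by simp) hy
    · rintro rfl
      exact hd (by simp) hy
  exact Dg_mem A (g _ (by simp)) (g _ (by simp)) (g _ (by simp))

end TL

end Pool.Gauss
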