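import Pool.Agent.Work.MP_065141_co.K.ItemA
import Pool.Agent.Work.MP_065141_co.K.ThreeLev0

/-!
# The factors in the form of integral pieces

`pc a b P = Z ^ a * w ^ b * P` with an integral polynomial `P`.
-/

set_option autoImplicit false
set_option linter.unusedSectionVars false
set_option linter.unusedVariables false
set_option linter.unusedSimpArgs false
open scoped Classical
open Finset Polynomial

namespace Pool.Gauss

variable {α : Type} [Fintype α] [PartialOrder α] {i : ℕ}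

/-- an integral piece -/
noncomputable def pc (a b : ℕ) (P : MvPolynomial α ℤ) : MvPolynomial α AA :=
  MvPolynomial.C (ZA ^ a * wA ^ b) * TL.up P

lemma pc_eq (a b : ℕ) (P : MvPolynomial α ℤ) :
    pc a b P = MvPolynomial.C (TL.ZT ^ a * TL.wT ^ b) * TL.up P := rfl

lemma up_X (y : α) : TL.up (MvPolynomial.X y : MvPolynomial α ℤ) = MvPolynomial.X y := by
  simp [TL.up]

lemma up_C (n : ℤ) : TL.up (MvPolynomial.C n : MvPolynomial α ℤ) = MvPolynomial.C (n : AA) := by
  simp [TL.up]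

/-- number of single children -/
noncomputable def hN (i : ℕ) (p : α) : ℤ := ((ch i p).card : ℤ)

/-- the second order number of the single children -/
noncomputable def kN (i : ℕ) (p : α) : ℤ :=
  (((ch i p).card.choose 2 : ℕ) : ℤ) + ∑ u ∈ ch i p, ((Gq i u).card : ℤ)

lemma lam_eq (p : α) : lam i p = 1 + (hN i p : AA) * (wA * ZA) +
    ((kN i p : AA) - (hN i p : AA)) * (wA * ZA) ^ 2 := by
  unfold lam hN kN qA
  push_cast
  ring

lemma lam1_eq (p : α) : lam1 i p = 1 + (hN i p : AA) * (wA * ZA) := by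
  unfold lam1 hN qA
  push_cast
  ring

/-! ### scalar expansions -/

lemma geoA_two : geoA = 1 + wA * ZA + (wA * ZA) ^ 2 * geoA := by
  have h := geoA_eq
  unfold qA at h
  linear_combination (1 + wA * ZA) * h

lemma iwA_two : iwA = -1 - wA + wA ^ 2 * iwA := by
  linear_combination (-(1 + wA)) * iwA_mul

lemma iwA_one : iwA = -1 + wA * iwA := by
  linear_combination (-1 : AA) * iwA_mul

lemma geoA_one : geoA = 1 + wA * ZA * geoA := geoA_eq

lemma sc1 (H K : AA) : (H * (wA * ZA) + K * (wA * ZA) ^ 2) * (ZA * geoA) =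
    H * (ZA ^ 2 * wA) + (H + K) * (ZA ^ 3 * wA ^ 2) +
      wA ^ 3 * (ZA ^ 4 * (K + (H + K * (wA * ZA)) * geoA)) := by
  linear_combination (ZA * (H * (wA * ZA) + K * (wA * ZA) ^ 2)) * geoA_two

lemma sc1' (H : AA) : (H * (wA * ZA)) * (ZA * geoA) =
    H * (ZA ^ 2 * wA) + wA ^ 2 * (H * ZA ^ 3 * geoA) := by
  linear_combination (ZA * (H * (wA * ZA))) * geoA_one

lemma sc2 (c K : AA) : ∃ S : AA,
    (1 + c * (wA * ZA) + K * (wA * ZA) ^ 2) * wA * (iwA * (ZA * geoA)) =
    -(ZA * wA) - (ZA * wA ^ 2) - (1 + c) * (ZA ^ 2 * wA ^ 2) + wA ^ 3 * S := by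
  obtain ⟨α, hα⟩ : ∃ α : AA, α = ZA * (c + K * (wA * ZA)) := ⟨_, rfl⟩
  obtain ⟨β, hβ⟩ : ∃ β : AA, β = -1 + wA * iwA := ⟨_, rfl⟩
  obtain ⟨γ, hγ⟩ : ∃ γ : AA, γ = ZA * (1 + wA * ZA * geoA) := ⟨_, rfl⟩
  refine ⟨ZA * ((iwA - K * ZA ^ 2 - ZA ^ 2 * geoA) + (α * β + β * γ - α * γ) +
    wA * (α * β * γ)), ?_⟩
  have h1 : iwA = -1 + wA * β := by rw [hβ]; linear_combination iwA_two
  have h2 : geoA = 1 + wA * γ := by rw [hγ]; linear_combination geoA_two
  have h3 : 1 + c * (wA * ZA) + K * (wA * ZA) ^ 2 = 1 + wA * α := by rw [hα]; ring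
  have h4 : (1 + wA * α) * iwA * geoA = (1 + wA * α) * (-1 + wA * β) * (1 + wA * γ) := by
    rw [← h1, ← h2]
  have h5 : β - α - γ = -1 - (1 + c) * ZA + wA * (iwA - K * ZA ^ 2 - ZA ^ 2 * geoA) := by
    rw [hα, hβ, hγ]
    ring
  rw [h3]
  linear_combination (wA * ZA) * h4 + (wA ^ 2 * ZA) * h5

lemma sc2' (c : AA) : ∃ S : AA, (1 + c * (wA * ZA)) * wA * (iwA * (ZA * geoA)) =
    -(ZA * wA) + wA ^ 2 * S := by
  refine ⟨ZA * ((iwA - ZA * c - ZA * geoA) + wA * (ZA * c * iwA + iwA * (ZA * geoA) -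
    ZA * c * (ZA * geoA)) + wA ^ 2 * (ZA * c * iwA * (ZA * geoA))), ?_⟩
  have h4 : (1 + wA * (ZA * c)) * iwA * geoA =
      (1 + wA * (ZA * c)) * (-1 + wA * iwA) * (1 + wA * (ZA * geoA)) := by
    have h1 := iwA_one
    have h2 := geoA_one
    have h2' : geoA = 1 + wA * (ZA * geoA) := by rw [← mul_assoc]; exact h2
    rw [← h1, ← h2']
  linear_combination (wA * ZA) * h4

/-! ### pairs -/

/-- `a + a' - a a'` -/
noncomputable def phiP (y y' : α) : MvPolynomial α ℤ :=
  MvPolynomial.X y + MvPolynomial.X y' - MvPolynomial.X y * MvPolynomial.X y'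

/-- **the item of a matched pair**, modulo `w ^ 3` -/
theorem rho0_piece (z x y y' : α) : ∃ R : MvPolynomial α AA,
    rho0 (lam i z) (lam i x) y y' = pc 1 1 (phiP y y') +
      pc 2 1 (MvPolynomial.C (hN i x - hN i z) * (MvPolynomial.X y * MvPolynomial.X y')) +
      pc 1 2 (phiP y y' - 1) + pc 2 2 (MvPolynomial.C (1 + hN i z) * phiP y y') +
      pc 3 2 (MvPolynomial.C (kN i x - kN i z) * (MvPolynomial.X y * MvPolynomial.X y')) +
      MvPolynomial.C (wA ^ 3) * R := by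
  obtain ⟨S, hS⟩ := sc2 (hN i z : AA) ((kN i z : AA) - (hN i z : AA))
  have h1 := sc1 ((hN i x : AA) - (hN i z : AA))
    ((kN i x : AA) - (hN i x : AA) - ((kN i z : AA) - (hN i z : AA)))
  have h2 : (lam i x - lam i z) * (ZA * geoA) =
      (((hN i x : AA) - (hN i z : AA)) * (wA * ZA) +
        ((kN i x : AA) - (hN i x : AA) - ((kN i z : AA) - (hN i z : AA))) * (wA * ZA) ^ 2) *
        (ZA * geoA) := by
    rw [lam_eq, lam_eq]
    ring
  rw [← h2] at h1
  rw [← lam_eq] at hS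
  unfold rho0 pc phiP
  rw [h1, hS]
  refine ⟨MvPolynomial.C (ZA ^ 4 * ((kN i x : AA) - (hN i x : AA) -
      ((kN i z : AA) - (hN i z : AA)) + (((hN i x : AA) - (hN i z : AA)) +
        ((kN i x : AA) - (hN i x : AA) - ((kN i z : AA) - (hN i z : AA))) * (wA * ZA)) * geoA)) *
      (MvPolynomial.X y * MvPolynomial.X y') +
    MvPolynomial.C S * (MvPolynomial.X y * MvPolynomial.X y' - MvPolynomial.X y -
      MvPolynomial.X y' + MvPolynomial.C wA) -
    MvPolynomial.C (ZA + (1 + (hN i z : AA)) * ZA ^ 2), ?_⟩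
  simp only [map_add, map_sub, map_mul, map_pow, map_neg, map_one, up_X, up_C, Int.cast_add,
    Int.cast_sub, Int.cast_one, pow_one, pow_zero]
  ring

/-- the item of a matched pair, modulo `w ^ 2` -/
theorem rho0_piece1 (z x y y' : α) : ∃ R : MvPolynomial α AA,
    rho0 (lam1 i z) (lam1 i x) y y' = pc 1 1 (phiP y y') +
      pc 2 1 (MvPolynomial.C (hN i x - hN i z) * (MvPolynomial.X y * MvPolynomial.X y')) +
      MvPolynomial.C (wA ^ 2) * R := by
  obtain ⟨S, hS⟩ := sc2' (hN i z : AA)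
  have h1 := sc1' ((hN i x : AA) - (hN i z : AA))
  have h2 : (lam1 i x - lam1 i z) * (ZA * geoA) =
      (((hN i x : AA) - (hN i z : AA)) * (wA * ZA)) * (ZA * geoA) := by
    rw [lam1_eq, lam1_eq]
    ring
  rw [← h2] at h1
  rw [← lam1_eq] at hS
  unfold rho0 pc phiP
  rw [h1, hS]
  refine ⟨MvPolynomial.C (((hN i x : AA) - (hN i z : AA)) * ZA ^ 3 * geoA) *
      (MvPolynomial.X y * MvPolynomial.X y') +
    MvPolynomial.C S * (MvPolynomial.X y * MvPolynomial.X y' - MvPolynomial.X y -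
      MvPolynomial.X y' + MvPolynomial.C wA) - MvPolynomial.C ZA, ?_⟩
  simp only [map_add, map_sub, map_mul, map_pow, map_neg, map_one, up_X, up_C, Int.cast_add,
    Int.cast_sub, Int.cast_one, pow_one, pow_zero]
  ring

/-- the item of a matched pair with energy one at `y'`, modulo `w ^ 2` -/
theorem rho1_piece (z x y y' : α) : ∃ R : MvPolynomial α AA,
    rho1 (lam1 i z) (lam1 i x) y y' = pc 1 1 1 +
      pc 2 1 (MvPolynomial.C (hN i x - hN i z) * MvPolynomial.X y) +
      MvPolynomial.C (wA ^ 2) * R := by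
  unfold rho1 pc
  refine ⟨MvPolynomial.C ((hN i x : AA) - (hN i z : AA)) *
      (MvPolynomial.C (ZA ^ 3 * geoA) * (MvPolynomial.X y * MvPolynomial.X y')) +
    MvPolynomial.C ((hN i z : AA) * ZA ^ 2) +
    MvPolynomial.C ((1 + (hN i z : AA) * (wA * ZA)) * (iwA * (ZA ^ 2 * geoA))) *
      (MvPolynomial.X y * MvPolynomial.X y' - MvPolynomial.X y - MvPolynomial.X y' +
        MvPolynomial.C wA), ?_⟩
  rw [lam1_eq, lam1_eq]
  unfold qA
  simp only [map_add, map_sub, map_mul, map_pow, map_neg, map_one, up_X, up_C, Int.cast_add,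
    Int.cast_sub, Int.cast_one, pow_one, pow_zero]
  ring

/-! ### single elements -/

/-- a single element below, modulo `w ^ 3` -/
theorem sgX_piece {x y : α} (hx : corank x = i + 1) (hb : bd i x = {y}) {k : α → ℕ}
    (hk : k y = 0) : ∃ R : MvPolynomial α AA,
    MvPolynomial.C (lam i x) * EA i k x = pc 1 1 (MvPolynomial.X y) +
      pc 2 2 (MvPolynomial.C (1 + hN i x) * MvPolynomial.X y) +
      MvPolynomial.C (wA ^ 3) * R := by
  rw [EA_sgX hx hb, hk, qs_zero, sub_self, map_zero, zero_add, zero_add, pow_one]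
  have h1 : lam i x * (qA * geoA) = ZA * wA + (1 + (hN i x : AA)) * (ZA ^ 2 * wA ^ 2) +
      wA ^ 3 * (ZA ^ 3 * ((hN i x : AA) + ((kN i x : AA) - (hN i x : AA)) * geoA +
        (1 + (hN i x : AA) * (wA * ZA)) * geoA)) := by
    rw [lam_eq]
    unfold qA
    linear_combination (wA * ZA * (1 + (hN i x : AA) * (wA * ZA))) * geoA_two
  refine ⟨MvPolynomial.C (ZA ^ 3 * ((hN i x : AA) + ((kN i x : AA) - (hN i x : AA)) * geoA +
        (1 + (hN i x : AA) * (wA * ZA)) * geoA)) * MvPolynomial.X y, ?_⟩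
  have h2 : MvPolynomial.C (lam i x) * (MvPolynomial.X y * MvPolynomial.C (qA * geoA)) =
      (MvPolynomial.C (lam i x * (qA * geoA)) * MvPolynomial.X y : MvPolynomial α AA) := by
    simp only [map_mul]
    ring
  rw [h2, h1]
  unfold pc
  simp only [map_add, map_sub, map_mul, map_pow, map_neg, map_one, up_X, up_C, Int.cast_add,
    Int.cast_sub, Int.cast_one, pow_one, pow_zero]
  ring

/-- a single element above, modulo `w ^ 3` -/
theorem sgZ_piece {z y : α} (hz : corank z + 1 = i) (hb : bd i z = {y}) {k : α → ℕ}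
    (hk : k y = 0) : ∃ R : MvPolynomial α AA,
    MvPolynomial.C (lam i z) * EA i k z = pc 1 1 (MvPolynomial.X y) +
      pc 1 2 (MvPolynomial.X y - 1) +
      pc 2 2 (MvPolynomial.C (1 + hN i z) * MvPolynomial.X y) +
      MvPolynomial.C (wA ^ 3) * R := by
  rw [EA_sgZ hz hb, hk, qs_zero, sub_self, map_zero, zero_add, zero_add, pow_one]
  obtain ⟨S, hS⟩ := sc2 (hN i z : AA) ((kN i z : AA) - (hN i z : AA))
  rw [← lam_eq] at hS
  have h1 : lam i z * (iwA * (qA * geoA)) = -(ZA * wA) - (ZA * wA ^ 2) -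
      (1 + (hN i z : AA)) * (ZA ^ 2 * wA ^ 2) + wA ^ 3 * S := by
    rw [← hS]
    unfold qA
    ring
  have h2 : MvPolynomial.C (lam i z) * ((MvPolynomial.C wA - MvPolynomial.X y) *
      MvPolynomial.C (iwA * (qA * geoA))) =
      (MvPolynomial.C (lam i z * (iwA * (qA * geoA))) *
        (MvPolynomial.C wA - MvPolynomial.X y) : MvPolynomial α AA) := by
    simp only [map_mul]
    ring
  rw [h2, h1]
  unfold pc
  refine ⟨MvPolynomial.C S * (MvPolynomial.C wA - MvPolynomial.X y) -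
    MvPolynomial.C (ZA + (1 + (hN i z : AA)) * ZA ^ 2), ?_⟩
  simp only [map_add, map_sub, map_mul, map_pow, map_neg, map_one, up_X, up_C, Int.cast_add,
    Int.cast_sub, Int.cast_one, pow_one, pow_zero]
  ring

/-- a single element below, modulo `w ^ 2` -/
theorem sgX_piece1 {x y : α} (hx : corank x = i + 1) (hb : bd i x = {y}) {k : α → ℕ}
    (hk : k y = 0) : ∃ R : MvPolynomial α AA,
    MvPolynomial.C (lam1 i x) * EA i k x = pc 1 1 (MvPolynomial.X y) +
      MvPolynomial.C (wA ^ 2) * R := by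
  rw [EA_sgX hx hb, hk, qs_zero, sub_self, map_zero, zero_add, zero_add, pow_one]
  have h1 : lam1 i x * (qA * geoA) = ZA * wA +
      wA ^ 2 * (ZA ^ 2 * (geoA + (hN i x : AA) * geoA)) := by
    rw [lam1_eq]
    unfold qA
    linear_combination (wA * ZA) * geoA_one
  have h2 : MvPolynomial.C (lam1 i x) * (MvPolynomial.X y * MvPolynomial.C (qA * geoA)) =
      (MvPolynomial.C (lam1 i x * (qA * geoA)) * MvPolynomial.X y : MvPolynomial α AA) := by
    simp only [map_mul]
    ring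
  refine ⟨MvPolynomial.C (ZA ^ 2 * (geoA + (hN i x : AA) * geoA)) * MvPolynomial.X y, ?_⟩
  rw [h2, h1]
  unfold pc
  simp only [map_add, map_sub, map_mul, map_pow, map_neg, map_one, up_X, up_C, Int.cast_add,
    Int.cast_sub, Int.cast_one, pow_one, pow_zero]
  ring

/-- a single element above, modulo `w ^ 2` -/
theorem sgZ_piece1 {z y : α} (hz : corank z + 1 = i) (hb : bd i z = {y}) {k : α → ℕ}
    (hk : k y = 0) : ∃ R : MvPolynomial α AA,
    MvPolynomial.C (lam1 i z) * EA i k z = pc 1 1 (MvPolynomial.X y) +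
      MvPolynomial.C (wA ^ 2) * R := by
  rw [EA_sgZ hz hb, hk, qs_zero, sub_self, map_zero, zero_add, zero_add, pow_one]
  obtain ⟨S, hS⟩ := sc2' (hN i z : AA)
  rw [← lam1_eq] at hS
  have h1 : lam1 i z * (iwA * (qA * geoA)) = -(ZA * wA) + wA ^ 2 * S := by
    rw [← hS]
    unfold qA
    ring
  have h2 : MvPolynomial.C (lam1 i z) * ((MvPolynomial.C wA - MvPolynomial.X y) *
      MvPolynomial.C (iwA * (qA * geoA))) =
      (MvPolynomial.C (lam1 i z * (iwA * (qA * geoA))) *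
        (MvPolynomial.C wA - MvPolynomial.X y) : MvPolynomial α AA) := by
    simp only [map_mul]
    ring
  rw [h2, h1]
  unfold pc
  refine ⟨MvPolynomial.C S * (MvPolynomial.C wA - MvPolynomial.X y) - MvPolynomial.C ZA, ?_⟩
  simp only [map_add, map_sub, map_mul, map_pow, map_neg, map_one, up_X, up_C, Int.cast_add,
    Int.cast_sub, Int.cast_one, pow_one, pow_zero]
  ring

lemma qs_one : qs 1 = 1 + qA := by simp [qs, Finset.sum_range_succ]

/-- a single element below with energy one at its neighbour, modulo `w ^ 2` -/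
theorem sgX_pieceY {x y : α} (hx : corank x = i + 1) (hb : bd i x = {y}) {k : α → ℕ}
    (hk : k y = 1) : ∃ R : MvPolynomial α AA,
    MvPolynomial.C (lam1 i x) * EA i k x = pc 1 1 1 + MvPolynomial.C (wA ^ 2) * R := by
  rw [EA_sgX hx hb, hk, qs_one, lam1_eq]
  refine ⟨MvPolynomial.C ((hN i x : AA) * ZA ^ 2) +
    MvPolynomial.C ((1 + (hN i x : AA) * (wA * ZA)) * (ZA ^ 2 * geoA)) * MvPolynomial.X y, ?_⟩
  unfold pc qA
  simp only [map_add, map_sub, map_mul, map_pow, map_neg, map_one, up_X, up_C, Int.cast_add,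
    Int.cast_sub, Int.cast_one, pow_one, pow_zero]
  ring

/-- a single element above with energy one at its neighbour, modulo `w ^ 2` -/
theorem sgZ_pieceY {z y : α} (hz : corank z + 1 = i) (hb : bd i z = {y}) {k : α → ℕ}
    (hk : k y = 1) : ∃ R : MvPolynomial α AA,
    MvPolynomial.C (lam1 i z) * EA i k z = pc 1 1 1 + MvPolynomial.C (wA ^ 2) * R := by
  rw [EA_sgZ hz hb, hk, qs_one, lam1_eq]
  refine ⟨MvPolynomial.C ((hN i z : AA) * ZA ^ 2) +
    MvPolynomial.C ((1 + (hN i z : AA) * (wA * ZA)) * (iwA * (ZA ^ 2 * geoA))) *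
      (MvPolynomial.C wA - MvPolynomial.X y), ?_⟩
  unfold pc qA
  simp only [map_add, map_sub, map_mul, map_pow, map_neg, map_one, up_X, up_C, Int.cast_add,
    Int.cast_sub, Int.cast_one, pow_one, pow_zero]
  ring

/-! ### stars -/

/-- **the own part of a star**, modulo `w ^ 3` -/
theorem own0_piece (z x v c t : α) : ∃ R : MvPolynomial α AA,
    own0 (lam i z) (lam i x) v c t = pc 1 1 (phiP v c) +
      pc 2 1 (MvPolynomial.C (hN i x) * (MvPolynomial.X v * MvPolynomial.X t) -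
        MvPolynomial.C (hN i z) * (MvPolynomial.X v * MvPolynomial.X c)) +
      pc 1 2 (phiP v c - 1) + pc 2 2 (MvPolynomial.C (1 + hN i z) * phiP v c) +
      pc 3 2 (MvPolynomial.C (kN i x) * (MvPolynomial.X v * MvPolynomial.X t) -
        MvPolynomial.C (kN i z) * (MvPolynomial.X v * MvPolynomial.X c)) +
      MvPolynomial.C (wA ^ 3) * R := by
  obtain ⟨S, hS⟩ := sc2 (hN i z : AA) ((kN i z : AA) - (hN i z : AA))
  have h1 := sc1 (hN i x : AA) ((kN i x : AA) - (hN i x : AA))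
  have h2 := sc1 (hN i z : AA) ((kN i z : AA) - (hN i z : AA))
  have h1' : (lam i x - 1) * (ZA * geoA) = ((hN i x : AA) * (wA * ZA) +
      ((kN i x : AA) - (hN i x : AA)) * (wA * ZA) ^ 2) * (ZA * geoA) := by
    rw [lam_eq]
    ring
  have h2' : (lam i z - 1) * (ZA * geoA) = ((hN i z : AA) * (wA * ZA) +
      ((kN i z : AA) - (hN i z : AA)) * (wA * ZA) ^ 2) * (ZA * geoA) := by
    rw [lam_eq]
    ring
  rw [← h1'] at h1
  rw [← h2'] at h2
  rw [← lam_eq] at hS
  unfold own0 pc phiP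
  rw [h1, h2, hS]
  refine ⟨MvPolynomial.C (ZA ^ 4 * ((kN i x : AA) - (hN i x : AA) +
      ((hN i x : AA) + ((kN i x : AA) - (hN i x : AA)) * (wA * ZA)) * geoA)) *
      (MvPolynomial.X v * MvPolynomial.X t) -
    MvPolynomial.C (ZA ^ 4 * ((kN i z : AA) - (hN i z : AA) +
      ((hN i z : AA) + ((kN i z : AA) - (hN i z : AA)) * (wA * ZA)) * geoA)) *
      (MvPolynomial.X v * MvPolynomial.X c) +
    MvPolynomial.C S * (MvPolynomial.X v * MvPolynomial.X c - MvPolynomial.X v -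
      MvPolynomial.X c + MvPolynomial.C wA) -
    MvPolynomial.C (ZA + (1 + (hN i z : AA)) * ZA ^ 2), ?_⟩
  simp only [map_add, map_sub, map_mul, map_pow, map_neg, map_one, up_X, up_C, Int.cast_add,
    Int.cast_sub, Int.cast_one, pow_one, pow_zero]
  ring

/-- the own part of a star, modulo `w ^ 2` -/
theorem own0_piece1 (z x v c t : α) : ∃ R : MvPolynomial α AA,
    own0 (lam1 i z) (lam1 i x) v c t = pc 1 1 (phiP v c) +
      pc 2 1 (MvPolynomial.C (hN i x) * (MvPolynomial.X v * MvPolynomial.X t) -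
        MvPolynomial.C (hN i z) * (MvPolynomial.X v * MvPolynomial.X c)) +
      MvPolynomial.C (wA ^ 2) * R := by
  obtain ⟨S, hS⟩ := sc2' (hN i z : AA)
  have h1 := sc1' (hN i x : AA)
  have h2 := sc1' (hN i z : AA)
  have h1' : (lam1 i x - 1) * (ZA * geoA) = ((hN i x : AA) * (wA * ZA)) * (ZA * geoA) := by
    rw [lam1_eq]
    ring
  have h2' : (lam1 i z - 1) * (ZA * geoA) = ((hN i z : AA) * (wA * ZA)) * (ZA * geoA) := by
    rw [lam1_eq]
    ring
  rw [← h1'] at h1
  rw [← h2'] at h2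
  rw [← lam1_eq] at hS
  unfold own0 pc phiP
  rw [h1, h2, hS]
  refine ⟨MvPolynomial.C ((hN i x : AA) * ZA ^ 3 * geoA) *
      (MvPolynomial.X v * MvPolynomial.X t) -
    MvPolynomial.C ((hN i z : AA) * ZA ^ 3 * geoA) * (MvPolynomial.X v * MvPolynomial.X c) +
    MvPolynomial.C S * (MvPolynomial.X v * MvPolynomial.X c - MvPolynomial.X v -
      MvPolynomial.X c + MvPolynomial.C wA) - MvPolynomial.C ZA, ?_⟩
  simp only [map_add, map_sub, map_mul, map_pow, map_neg, map_one, up_X, up_C, Int.cast_add,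
    Int.cast_sub, Int.cast_one, pow_one, pow_zero]
  ring

/-- the operator of a star, modulo `w ^ 3` -/
theorem star_piece (v c t : α) : ∃ R : MvPolynomial α AA,
    MvPolynomial.C (ZA * geoA) * (MvPolynomial.X v * (MvPolynomial.X t - MvPolynomial.X c)) =
      pc 1 0 (MvPolynomial.X v * (MvPolynomial.X t - MvPolynomial.X c)) +
      pc 2 1 (MvPolynomial.X v * (MvPolynomial.X t - MvPolynomial.X c)) +
      pc 3 2 (MvPolynomial.X v * (MvPolynomial.X t - MvPolynomial.X c)) +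
      MvPolynomial.C (wA ^ 3) * R := by
  have h1 : ZA * geoA = ZA + wA * ZA ^ 2 + wA ^ 2 * ZA ^ 3 + wA ^ 3 * (ZA ^ 4 * geoA) := by
    linear_combination ZA * geoA_two + (wA ^ 2 * ZA ^ 3) * geoA_one
  rw [h1]
  refine ⟨MvPolynomial.C (ZA ^ 4 * geoA) *
    (MvPolynomial.X v * (MvPolynomial.X t - MvPolynomial.X c)), ?_⟩
  unfold pc
  simp only [map_add, map_sub, map_mul, map_pow, map_neg, map_one, up_X, up_C, Int.cast_add,
    Int.cast_sub, Int.cast_one, pow_one, pow_zero]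
  ring

lemma hZ_one : ZA * geoA = ZA + wA * ZA ^ 2 + wA ^ 2 * (ZA ^ 3 * geoA) := by
  linear_combination ZA * geoA_two

/-- **a star, energy one at `t`**, modulo `w ^ 2` -/
theorem star_t_piece {z x v c t : α} (hz : corank z + 1 = i) (hx : corank x = i + 1)
    (hbz : bd i z = {v, c}) (hbx : bd i x = {v, t}) (hc : v ≠ c) (ht : v ≠ t) {k : α → ℕ}
    (hk : k v = 0) (hkc : k c = 0) (hkt : k t = 1) : ∃ R : MvPolynomial α AA,
    EvEq wA ((1 + MvPolynomial.C (lam1 i z) * EA i k z) *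
        (1 + MvPolynomial.C (lam1 i x) * EA i k x))
      (1 + pc 1 0 (MvPolynomial.X v * (1 - MvPolynomial.X c)) + pc 1 1 (phiP v c) +
        pc 2 1 (MvPolynomial.C (hN i x) * MvPolynomial.X v + MvPolynomial.X v * MvPolynomial.X t -
          MvPolynomial.C (1 + hN i z) * (MvPolynomial.X v * MvPolynomial.X c)) +
        MvPolynomial.C (wA ^ 2) * R) := by
  obtain ⟨S, hS⟩ := sc2' (hN i z : AA)
  rw [← lam1_eq] at hS
  have h1 : lam1 i z * (ZA * geoA) = ZA + (1 + (hN i z : AA)) * (ZA ^ 2 * wA) +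
      wA ^ 2 * (ZA ^ 3 * geoA + (hN i z : AA) * ZA ^ 3 * geoA) := by
    rw [lam1_eq]
    linear_combination hZ_one + (hN i z : AA) * (wA * ZA ^ 2) * geoA_one
  refine ⟨MvPolynomial.C (ZA ^ 3 * geoA + (hN i x : AA) * (ZA ^ 3 + wA * ZA ^ 4 * geoA)) *
      (MvPolynomial.X v * MvPolynomial.X t) -
    MvPolynomial.C (ZA ^ 3 * geoA + (hN i z : AA) * ZA ^ 3 * geoA) *
      (MvPolynomial.X v * MvPolynomial.X c) +
    MvPolynomial.C S * (MvPolynomial.X v * MvPolynomial.X c - MvPolynomial.X v -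
      MvPolynomial.X c + MvPolynomial.C wA) - MvPolynomial.C ZA, ?_⟩
  refine (EA_star_t hz hx hbz hbx hc ht hk hkc hkt (lam1 i z) (lam1 i x)).trans
    (EvEq.of_eq ?_)
  rw [h1, hS, lam1_eq x]
  have h2 : (MvPolynomial.C (ZA * qA * geoA) : MvPolynomial α AA) =
      MvPolynomial.C (ZA ^ 2 * wA + wA ^ 2 * (ZA ^ 3 * geoA)) := by
    congr 1
    unfold qA
    linear_combination (ZA ^ 2 * wA) * geoA_one
  rw [h2]
  unfold pc phiP
  simp only [map_add, map_sub, map_mul, map_pow, map_neg, map_one, up_X, up_C, Int.cast_add,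
    Int.cast_sub, Int.cast_one, pow_one, pow_zero]
  ring

/-- **a star, energy one at `c`**, modulo `w ^ 2` -/
theorem star_c_piece {z x v c t : α} (hz : corank z + 1 = i) (hx : corank x = i + 1)
    (hbz : bd i z = {v, c}) (hbx : bd i x = {v, t}) (hc : v ≠ c) (ht : v ≠ t) {k : α → ℕ}
    (hk : k v = 0) (hkc : k c = 1) (hkt : k t = 0) : ∃ R : MvPolynomial α AA,
    EvEq wA ((1 + MvPolynomial.C (lam1 i z) * EA i k z) *
        (1 + MvPolynomial.C (lam1 i x) * EA i k x))
      (1 + pc 1 0 (MvPolynomial.X v * (MvPolynomial.X t - 1)) + pc 1 1 1 +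
        pc 2 1 (MvPolynomial.C (1 + hN i x) * (MvPolynomial.X v * MvPolynomial.X t) -
          MvPolynomial.C (hN i z) * MvPolynomial.X v - MvPolynomial.X v * MvPolynomial.X c) +
        MvPolynomial.C (wA ^ 2) * R) := by
  have h1 : lam1 i x * (ZA * geoA) = ZA + (1 + (hN i x : AA)) * (ZA ^ 2 * wA) +
      wA ^ 2 * (ZA ^ 3 * geoA + (hN i x : AA) * ZA ^ 3 * geoA) := by
    rw [lam1_eq]
    linear_combination hZ_one + (hN i x : AA) * (wA * ZA ^ 2) * geoA_one
  have h2 : lam1 i z * (ZA * qA * geoA) =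
      ZA ^ 2 * wA + wA ^ 2 * (ZA ^ 3 * geoA + (hN i z : AA) * ZA ^ 3 * geoA) := by
    rw [lam1_eq]
    unfold qA
    linear_combination (ZA ^ 2 * wA) * geoA_one
  refine ⟨MvPolynomial.C (ZA ^ 3 * geoA + (hN i x : AA) * ZA ^ 3 * geoA) *
      (MvPolynomial.X v * MvPolynomial.X t) + MvPolynomial.C ((hN i z : AA) * ZA ^ 2) -
    MvPolynomial.C (ZA ^ 3 * geoA + (hN i z : AA) * ZA ^ 3 * geoA) *
      (MvPolynomial.X v * MvPolynomial.X c) +
    MvPolynomial.C (lam1 i z * (iwA * (ZA ^ 2 * geoA))) *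
      (MvPolynomial.X v * MvPolynomial.X c - MvPolynomial.X v - MvPolynomial.X c +
        MvPolynomial.C wA), ?_⟩
  refine (EA_star_c hz hx hbz hbx hc ht hk hkc hkt (lam1 i z) (lam1 i x)).trans
    (EvEq.of_eq ?_)
  rw [h1, h2]
  have h4 : lam1 i z * wA * (iwA * (ZA * qA * geoA)) =
      wA ^ 2 * (lam1 i z * (iwA * (ZA ^ 2 * geoA))) := by
    unfold qA
    ring
  rw [h4, lam1_eq z]
  unfold pc
  simp only [map_add, map_sub, map_mul, map_pow, map_neg, map_one, up_X, up_C, Int.cast_add,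
    Int.cast_sub, Int.cast_one, pow_one, pow_zero]
  ring

/-- **a star, energy one at the centre `v`**, modulo `w ^ 2` -/
theorem star_v_piece {z x v c t : α} (hz : corank z + 1 = i) (hx : corank x = i + 1)
    (hbz : bd i z = {v, c}) (hbx : bd i x = {v, t}) (hc : v ≠ c) (ht : v ≠ t) {k : α → ℕ}
    (hk : k v = 1) (hkc : k c = 0) (hkt : k t = 0) : ∃ R : MvPolynomial α AA,
    EvEq wA ((1 + MvPolynomial.C (lam1 i z) * EA i k z) *
        (1 + MvPolynomial.C (lam1 i x) * EA i k x))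
      (1 + pc 1 0 (MvPolynomial.X t - MvPolynomial.X c) -
        pc 2 0 (MvPolynomial.X t * MvPolynomial.X c) + pc 1 1 1 +
        pc 2 1 (MvPolynomial.C (1 + hN i x) * MvPolynomial.X t -
          MvPolynomial.C (hN i z) * MvPolynomial.X c + MvPolynomial.X v * MvPolynomial.X t -
          MvPolynomial.X v * MvPolynomial.X c) -
        pc 3 1 (MvPolynomial.C (hN i x + hN i z) * (MvPolynomial.X t * MvPolynomial.X c) +
          MvPolynomial.C 2 * (MvPolynomial.X v * MvPolynomial.X t * MvPolynomial.X c)) +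
        MvPolynomial.C (wA ^ 2) * R) := by
  have h1 : lam1 i x * (ZA * qA * geoA) =
      ZA ^ 2 * wA + wA ^ 2 * (ZA ^ 3 * geoA + (hN i x : AA) * ZA ^ 3 * geoA) := by
    rw [lam1_eq]
    unfold qA
    linear_combination (ZA ^ 2 * wA) * geoA_one
  have h2 : lam1 i z * (iwA * (ZA * qA * geoA)) =
      - (ZA ^ 2 * wA) + wA ^ 2 * (iwA * ZA ^ 2 + iwA * ZA ^ 3 * geoA +
        (hN i z : AA) * iwA * ZA ^ 3 * geoA) := by
    rw [lam1_eq]
    unfold qA
    linear_combination (iwA * ZA ^ 2 * wA) * geoA_one + (ZA ^ 2 * wA) * iwA_one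
  have hR : ∃ R : MvPolynomial α AA,
      ((1 + MvPolynomial.C (lam1 i z * ZA) * (MvPolynomial.C wA - MvPolynomial.X c)) *
          (1 + MvPolynomial.C (lam1 i x * ZA) * MvPolynomial.X t) +
        MvPolynomial.C (lam1 i x * (ZA * qA * geoA)) * (MvPolynomial.X v * MvPolynomial.X t) *
          (1 + MvPolynomial.C (lam1 i z * ZA) * (MvPolynomial.C wA - MvPolynomial.X c)) +
        MvPolynomial.C (lam1 i z * (iwA * (ZA * qA * geoA))) *
          ((MvPolynomial.C wA - MvPolynomial.X v) * (MvPolynomial.C wA - MvPolynomial.X c)) *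
          (1 + MvPolynomial.C (lam1 i x * ZA) * MvPolynomial.X t)) =
      (1 + pc 1 0 (MvPolynomial.X t - MvPolynomial.X c) -
        pc 2 0 (MvPolynomial.X t * MvPolynomial.X c) + pc 1 1 1 +
        pc 2 1 (MvPolynomial.C (1 + hN i x) * MvPolynomial.X t -
          MvPolynomial.C (hN i z) * MvPolynomial.X c + MvPolynomial.X v * MvPolynomial.X t -
          MvPolynomial.X v * MvPolynomial.X c) -
        pc 3 1 (MvPolynomial.C (hN i x + hN i z) * (MvPolynomial.X t * MvPolynomial.X c) +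
          MvPolynomial.C 2 * (MvPolynomial.X v * MvPolynomial.X t * MvPolynomial.X c)) +
        MvPolynomial.C (wA ^ 2) * R) := by
    obtain ⟨u, hu⟩ : ∃ u : AA, u = ZA ^ 3 * geoA + (hN i x : AA) * ZA ^ 3 * geoA := ⟨_, rfl⟩
    obtain ⟨u', hu'⟩ : ∃ u' : AA, u' = iwA * ZA ^ 2 + iwA * ZA ^ 3 * geoA +
        (hN i z : AA) * iwA * ZA ^ 3 * geoA := ⟨_, rfl⟩
    rw [← hu] at h1
    rw [← hu'] at h2
    rw [h1, h2, lam1_eq, lam1_eq]
    refine ⟨MvPolynomial.C ((hN i z : AA) * ZA ^ 2) *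
        (1 + MvPolynomial.C ((1 + (hN i x : AA) * (wA * ZA)) * ZA) * MvPolynomial.X t) +
      MvPolynomial.C ((hN i x : AA) * ZA ^ 3) * MvPolynomial.X t -
      MvPolynomial.C ((hN i x : AA) * (hN i z : AA) * ZA ^ 4) *
        (MvPolynomial.X t * MvPolynomial.X c) +
      MvPolynomial.C u * (MvPolynomial.X v * MvPolynomial.X t) *
        (1 + MvPolynomial.C ((1 + (hN i z : AA) * (wA * ZA)) * ZA) *
          (MvPolynomial.C wA - MvPolynomial.X c)) +
      (MvPolynomial.X v * MvPolynomial.X t) * MvPolynomial.C (ZA ^ 3) -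
      (MvPolynomial.X v * MvPolynomial.X t * MvPolynomial.X c) *
        MvPolynomial.C ((hN i z : AA) * ZA ^ 4) +
      (MvPolynomial.X v * MvPolynomial.X t) * MvPolynomial.C (wA * (hN i z : AA) * ZA ^ 4) +
      MvPolynomial.C u' * ((MvPolynomial.C wA - MvPolynomial.X v) *
        (MvPolynomial.C wA - MvPolynomial.X c)) *
        (1 + MvPolynomial.C ((1 + (hN i x : AA) * (wA * ZA)) * ZA) * MvPolynomial.X t) -
      MvPolynomial.C (ZA ^ 2) * (MvPolynomial.C wA - MvPolynomial.X v - MvPolynomial.X c) *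
        (1 + MvPolynomial.C ((1 + (hN i x : AA) * (wA * ZA)) * ZA) * MvPolynomial.X t) -
      MvPolynomial.C ((hN i x : AA) * ZA ^ 4) *
        (MvPolynomial.X v * MvPolynomial.X t * MvPolynomial.X c), ?_⟩
    unfold pc
    simp only [map_add, map_sub, map_mul, map_pow, map_neg, map_one, up_X, up_C, Int.cast_add,
      Int.cast_sub, Int.cast_one, pow_one, pow_zero, Int.cast_ofNat, map_ofNat]
    ring
  obtain ⟨R, hR⟩ := hR
  exact ⟨R, (EA_star_v hz hx hbz hbx hc ht hk hkc hkt (lam1 i z) (lam1 i x)).trans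
    (EvEq.of_eq hR)⟩

end Pool.Gauss
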