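import Pool.Agent.Work.MP_065141_co.K.ThreeLev3

/-!
# Abstract data of a region with vertex-disjoint stars

Background items `j ∈ J` over `N j` (one or two vertices) with the integers `H j` (first order),
`K j` (second order), `g j`; stars `s ∈ St` with new edge `{k, t}`, lost edge `{k, c}`.
-/

set_option autoImplicit false
set_option linter.unusedSectionVars false
open scoped Classical
open Finset MvPolynomial

namespace Pool.Gauss.TL

/-- the data of a region with stars -/
structure SDat (Y ι σ : Type) where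
  /-- the background items -/
  J : Finset ι
  /-- the vertices of an item -/
  N : ι → Finset Y
  /-- first order number of a pair (below minus above), `0` for single elements -/
  H : ι → ℤ
  /-- second order number of a pair (below minus above), `0` for single elements -/
  K : ι → ℤ
  /-- `1 + h` of the element above, resp. of the single element -/
  g : ι → ℤ
  /-- irrelevant second order part -/
  xi : ι → MvPolynomial Y ℤ
  /-- the stars -/
  St : Finset σ
  /-- the tip -/
  t : σ → Y
  /-- the centre -/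
  k : σ → Y
  /-- the other end of the lost edge -/
  c : σ → Y
  hx : σ → ℤ
  hz : σ → ℤ
  Kx : σ → ℤ
  Kz : σ → ℤ

variable {Y ι σ : Type}

namespace SDat

variable (D : SDat Y ι σ)

/-- the items at energy zero -/
noncomputable def d0 : ItD Y (ι ⊕ σ) where
  phi := Sum.elim (fun j => ph (D.N j)) (fun s => ph {D.k s, D.c s})
  A := Sum.elim (fun j => C (D.H j) * am (D.N j))
    (fun s => C (D.hx s) * am {D.k s, D.t s} - C (D.hz s) * am {D.k s, D.c s})
  xi := Sum.elim D.xi (fun s => ph {D.k s, D.c s} - 1)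
  chi := Sum.elim (fun j => C (D.g j) * ph (D.N j))
    (fun s => C (1 + D.hz s) * ph {D.k s, D.c s})
  kp := Sum.elim (fun j => C (D.K j) * am (D.N j))
    (fun s => C (D.hx s + D.Kx s) * am {D.k s, D.t s} -
      C (D.hz s + D.Kz s) * am {D.k s, D.c s})

/-- the items at energy one at `y`, first order -/
noncomputable def d1 (y : Y) : ItD Y (ι ⊕ σ) where
  phi := Sum.elim (fun j => if y ∈ D.N j then 1 else ph (D.N j)) (fun s => ph {D.k s, D.c s})
  A := Sum.elim (fun j => C (D.H j) * am ((D.N j).erase y))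
    (fun s => C (D.hx s) * am {D.k s, D.t s} - C (D.hz s) * am {D.k s, D.c s})
  xi := fun _ => 0
  chi := fun _ => 0
  kp := fun _ => 0

/-- the frame of a star with energy one at `y`: coefficient of `Z` -/
noncomputable def frU (s : σ) (y : Y) : MvPolynomial Y ℤ :=
  if y = D.t s then X (D.k s) * (1 - X (D.c s)) else
    if y = D.c s then X (D.k s) * (X (D.t s) - 1) else X (D.t s) - X (D.c s)

/-- the frame of a star with energy one at `y`: coefficient of `Z ^ 2` -/
noncomputable def frV (s : σ) (y : Y) : MvPolynomial Y ℤ :=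
  if y = D.k s then - (X (D.t s) * X (D.c s)) else 0

/-- the frame of a star with energy one at `y`: coefficient of `w Z ^ 3` -/
noncomputable def frP (s : σ) (y : Y) : MvPolynomial Y ℤ :=
  if y = D.k s then - (C (D.hx s + D.hz s) * (X (D.t s) * X (D.c s))) -
    2 * (X (D.t s) * X (D.k s) * X (D.c s)) else 0

/-- the hypotheses on the data -/
structure Ok (L : Finset Y) : Prop where
  one : ∀ j ∈ D.J, 1 ≤ (D.N j).card
  two : ∀ j ∈ D.J, (D.N j).card ≤ 2
  lev : ∀ j ∈ D.J, D.N j ⊆ L
  H0 : ∀ j ∈ D.J, (D.N j).card = 1 → D.H j = 0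
  K0 : ∀ j ∈ D.J, (D.N j).card = 1 → D.K j = 0
  xi : ∀ j ∈ D.J, D.xi j ∈ supported ℤ (D.N j : Set Y)
  st : Stars D.St D.t D.k D.c
  slev : ∀ s ∈ D.St, VS D.t D.k D.c s ⊆ L

variable {D}

lemma kc_sub (s : σ) : (({D.k s, D.c s} : Finset Y) : Set Y) ⊆ (VS D.t D.k D.c s : Set Y) := by
  intro y hy
  simp only [VS, coe_insert, coe_singleton, Set.mem_insert_iff, Set.mem_singleton_iff] at hy ⊢
  tauto

lemma kt_sub (s : σ) : (({D.k s, D.t s} : Finset Y) : Set Y) ⊆ (VS D.t D.k D.c s : Set Y) := by
  intro y hy
  simp only [VS, coe_insert, coe_singleton, Set.mem_insert_iff, Set.mem_singleton_iff] at hy ⊢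
  tauto

lemma C_mem (z : ℤ) (s : Set Y) : (C z : MvPolynomial Y ℤ) ∈ supported ℤ s :=
  (supported ℤ s).algebraMap_mem z

lemma Ok.supp0 {lev : Finset Y} (h : D.Ok lev) : Supp D.J D.St D.t D.k D.c D.N D.d0 where
  card := h.two
  phi := fun j _ => ph_mem _
  A := fun j _ => mul_mem (C_mem _ _) (am_mem _)
  xi := fun j hj => h.xi j hj
  chi := fun j _ => mul_mem (C_mem _ _) (ph_mem _)
  kp := fun j _ => mul_mem (C_mem _ _) (am_mem _)
  phi' := fun s _ => supported_mono (kc_sub s) (ph_mem _)
  A' := fun s _ => sub_mem (mul_mem (C_mem _ _) (supported_mono (kt_sub s) (am_mem _)))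
    (mul_mem (C_mem _ _) (supported_mono (kc_sub s) (am_mem _)))
  xi' := fun s _ => sub_mem (supported_mono (kc_sub s) (ph_mem _)) (one_mem _)
  chi' := fun s _ => mul_mem (C_mem _ _) (supported_mono (kc_sub s) (ph_mem _))
  kp' := fun s _ => sub_mem (mul_mem (C_mem _ _) (supported_mono (kt_sub s) (am_mem _)))
    (mul_mem (C_mem _ _) (supported_mono (kc_sub s) (am_mem _)))

lemma Ok.supp1 {lev : Finset Y} (h : D.Ok lev) (y : Y) {S : Finset σ} (hS : S ⊆ D.St) :
    Supp D.J S D.t D.k D.c D.N (D.d1 y) where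
  card := h.two
  phi := fun j _ => by
    show (if y ∈ D.N j then 1 else ph (D.N j)) ∈ _
    split_ifs
    · exact one_mem _
    · exact ph_mem _
  A := fun j _ => mul_mem (C_mem _ _) (supported_mono (by
    exact_mod_cast erase_subset y (D.N j)) (am_mem _))
  xi := fun j hj => zero_mem _
  chi := fun j _ => zero_mem _
  kp := fun j _ => zero_mem _
  phi' := fun s _ => supported_mono (kc_sub s) (ph_mem _)
  A' := fun s _ => sub_mem (mul_mem (C_mem _ _) (supported_mono (kt_sub s) (am_mem _)))
    (mul_mem (C_mem _ _) (supported_mono (kc_sub s) (am_mem _)))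
  xi' := fun s _ => zero_mem _
  chi' := fun s _ => zero_mem _
  kp' := fun s _ => zero_mem _

end SDat

end Pool.Gauss.TL
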