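import Pool.Agent.Work.MP_065141_co.K.ItemB
import Pool.Agent.Work.MP_065141_co.K.StarDef

/-!
# The factors of a row in the form of the abstract data `SDat`
-/

set_option autoImplicit false
set_option linter.unusedSectionVars false
set_option linter.unusedVariables false
set_option linter.unusedSimpArgs false
open scoped Classical
open Finset Polynomial

namespace Pool.Gauss

variable {α : Type} [Fintype α] [PartialOrder α] {i : ℕ}

/-- the data of a row with a matching `m` and stars `s = (z, x)`: lost element `z`, new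
element `x` -/
noncomputable def sdat (m : Mat α i) (St : Finset (α × α)) (t k c : α × α → α) :
    TL.SDat α ((α × α) ⊕ α) (α × α) where
  J := m.M.disjSum (Sg α i)
  N := Sum.elim (fun e => bd i e.1) (fun p => bd i p)
  H := Sum.elim (fun e => hN i e.2 - hN i e.1) (fun _ => 0)
  K := Sum.elim (fun e => kN i e.2 - kN i e.1) (fun _ => 0)
  g := Sum.elim (fun e => 1 + hN i e.1) (fun p => 1 + hN i p)
  xi := Sum.elim (fun e => TL.ph (bd i e.1) - 1)
    (fun p => if corank p < i then TL.ph (bd i p) - 1 else 0)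
  St := St
  t := t
  k := k
  c := c
  hx := fun s => hN i s.2
  hz := fun s => hN i s.1
  Kx := fun s => kN i s.2 - hN i s.2
  Kz := fun s => kN i s.1 - hN i s.1

lemma am_pair {y y' : α} (h : y ≠ y') :
    TL.am ({y, y'} : Finset α) = MvPolynomial.X y * MvPolynomial.X y' := by
  rw [TL.am, prod_pair h]

lemma am_single (y : α) : TL.am ({y} : Finset α) = MvPolynomial.X y := by
  rw [TL.am, prod_singleton]

lemma ph_pair {y y' : α} (h : y ≠ y') : TL.ph ({y, y'} : Finset α) = phiP y y' := by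
  rw [TL.ph, TL.pr, prod_pair h, phiP]
  ring

lemma ph_single (y : α) : TL.ph ({y} : Finset α) = MvPolynomial.X y := by
  rw [TL.ph, TL.pr, prod_singleton]
  ring

lemma gT_eq_geoA : TL.gT = geoA := (TL.gT_unique geoA_mul).symm

lemma Dh_eq (t k c : α) : TL.Dh t k c = MvPolynomial.C (ZA * geoA) *
    (MvPolynomial.X k * (MvPolynomial.X t - MvPolynomial.X c)) := by
  rw [TL.Dh, gT_eq_geoA, TL.Dg]
  rfl

section

variable (m : Mat α i) (St : Finset (α × α)) (t k c : α × α → α)

/-! ### energy zero -/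

/-- the item of a matched pair -/
theorem item_pair (hg : Grad α) {e : α × α} (he : e ∈ m.M) : ∃ rho : MvPolynomial α AA,
    EvEq wA ((1 + MvPolynomial.C (lam i e.1) * EA i 0 e.1) *
      (1 + MvPolynomial.C (lam i e.2) * EA i 0 e.2)) (1 + rho) ∧
    (sdat m St t k c).d0.Is (Sum.inl (Sum.inl e)) rho := by
  obtain ⟨y, y', hne, hz, hx⟩ := m.bd_pair hg he
  refine ⟨rho0 (lam i e.1) (lam i e.2) y y',
    EA_pair_zero (m.cz e he) (m.cx e he) hz hx hne (by simp) (by simp) _ _, ?_⟩
  obtain ⟨R, hR⟩ := rho0_piece (i := i) e.1 e.2 y y'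
  refine ⟨R, ?_⟩
  show rho0 (lam i e.1) (lam i e.2) y y' - (pc 1 1 (TL.ph (bd i e.1)) +
    pc 2 1 (MvPolynomial.C (hN i e.2 - hN i e.1) * TL.am (bd i e.1)) +
    pc 1 2 (TL.ph (bd i e.1) - 1) +
    pc 2 2 (MvPolynomial.C (1 + hN i e.1) * TL.ph (bd i e.1)) +
    pc 3 2 (MvPolynomial.C (kN i e.2 - kN i e.1) * TL.am (bd i e.1))) =
    MvPolynomial.C (wA ^ 3) * R
  rw [hz, ph_pair hne, am_pair hne, hR]
  ring

/-- the item of a single element -/
theorem item_single (hg : Grad α) {p : α} (hp : p ∈ Sg α i) :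
    (sdat m St t k c).d0.Is (Sum.inl (Sum.inr p)) (MvPolynomial.C (lam i p) * EA i 0 p) := by
  rw [mem_Sg, ds_one_iff] at hp
  obtain ⟨hp1, hp2⟩ := hp
  obtain ⟨y, hy⟩ := card_eq_one.1 hp2
  rcases hp1 with h | h
  · obtain ⟨R, hR⟩ := sgZ_piece (i := i) h hy (k := 0) (by simp)
    refine ⟨R, ?_⟩
    show MvPolynomial.C (lam i p) * EA i 0 p - (pc 1 1 (TL.ph (bd i p)) +
      pc 2 1 (MvPolynomial.C 0 * TL.am (bd i p)) +
      pc 1 2 (if corank p < i then TL.ph (bd i p) - 1 else 0) +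
      pc 2 2 (MvPolynomial.C (1 + hN i p) * TL.ph (bd i p)) +
      pc 3 2 (MvPolynomial.C 0 * TL.am (bd i p))) = MvPolynomial.C (wA ^ 3) * R
    rw [if_pos (by omega), hy, ph_single, hR, map_zero, zero_mul]
    have h0 : ∀ a b : ℕ, pc a b (0 : MvPolynomial α ℤ) = 0 := by
      intro a b
      unfold pc
      rw [map_zero, mul_zero]
    rw [h0, h0]
    ring
  · obtain ⟨R, hR⟩ := sgX_piece (i := i) h hy (k := 0) (by simp)
    refine ⟨R, ?_⟩
    show MvPolynomial.C (lam i p) * EA i 0 p - (pc 1 1 (TL.ph (bd i p)) +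
      pc 2 1 (MvPolynomial.C 0 * TL.am (bd i p)) +
      pc 1 2 (if corank p < i then TL.ph (bd i p) - 1 else 0) +
      pc 2 2 (MvPolynomial.C (1 + hN i p) * TL.ph (bd i p)) +
      pc 3 2 (MvPolynomial.C 0 * TL.am (bd i p))) = MvPolynomial.C (wA ^ 3) * R
    rw [if_neg (by omega), hy, ph_single, hR, map_zero, zero_mul]
    have h0 : ∀ a b : ℕ, pc a b (0 : MvPolynomial α ℤ) = 0 := by
      intro a b
      unfold pc
      rw [map_zero, mul_zero]
    rw [h0, h0, h0]
    ring

variable {St t k c}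

/-- a star over the row -/
structure StarOf (i : ℕ) (t k c : α × α → α) (s : α × α) : Prop where
  cz : corank s.1 + 1 = i
  cx : corank s.2 = i + 1
  bz : bd i s.1 = {k s, c s}
  bx : bd i s.2 = {k s, t s}
  kc : k s ≠ c s
  kt : k s ≠ t s

variable (St t k c)

/-- the own part of a star -/
theorem item_star {s : α × α} (hs : StarOf i t k c s) : ∃ rho : MvPolynomial α AA,
    EvEq wA ((1 + MvPolynomial.C (lam i s.1) * EA i 0 s.1) *
      (1 + MvPolynomial.C (lam i s.2) * EA i 0 s.2))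
      (TL.Dh (t s) (k s) (c s) + (1 + rho)) ∧
    (sdat m St t k c).d0.Is (Sum.inr s) rho := by
  refine ⟨own0 (lam i s.1) (lam i s.2) (k s) (c s) (t s), ?_, ?_⟩
  · refine (EA_star hs.cz hs.cx hs.bz hs.bx hs.kc hs.kt (k := 0) (by simp) (by simp) (by simp)
      _ _).trans (EvEq.of_eq ?_)
    rw [Dh_eq]
    ring
  · obtain ⟨R, hR⟩ := own0_piece (i := i) s.1 s.2 (k s) (c s) (t s)
    refine ⟨R, ?_⟩
    show own0 (lam i s.1) (lam i s.2) (k s) (c s) (t s) - (pc 1 1 (TL.ph {k s, c s}) +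
      pc 2 1 (MvPolynomial.C (hN i s.2) * TL.am {k s, t s} -
        MvPolynomial.C (hN i s.1) * TL.am {k s, c s}) +
      pc 1 2 (TL.ph {k s, c s} - 1) +
      pc 2 2 (MvPolynomial.C (1 + hN i s.1) * TL.ph {k s, c s}) +
      pc 3 2 (MvPolynomial.C (hN i s.2 + (kN i s.2 - hN i s.2)) * TL.am {k s, t s} -
        MvPolynomial.C (hN i s.1 + (kN i s.1 - hN i s.1)) * TL.am {k s, c s})) =
      MvPolynomial.C (wA ^ 3) * R
    have h1 : hN i s.2 + (kN i s.2 - hN i s.2) = kN i s.2 := by ring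
    have h2 : hN i s.1 + (kN i s.1 - hN i s.1) = kN i s.1 := by ring
    rw [h1, h2, ph_pair hs.kc, am_pair hs.kc, am_pair hs.kt, hR]
    ring

/-! ### energy one at `y` -/

lemma ind_self (y : α) : ind ({y} : Finset α) y = 1 := ind_mem (mem_singleton_self y)

lemma ind_ne {y p : α} (h : p ≠ y) : ind ({y} : Finset α) p = 0 :=
  ind_notMem (by rwa [mem_singleton])

/-- the item of a matched pair, energy one at `y` -/
theorem item1_pair (hg : Grad α) {e : α × α} (he : e ∈ m.M) (y : α) :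
    ∃ rho : MvPolynomial α AA,
    EvEq wA ((1 + MvPolynomial.C (lam1 i e.1) * EA i (ind {y}) e.1) *
      (1 + MvPolynomial.C (lam1 i e.2) * EA i (ind {y}) e.2)) (1 + rho) ∧
    ((sdat m St t k c).d1 y).Is2 (Sum.inl (Sum.inl e)) rho := by
  obtain ⟨a, b, hne, hz, hx⟩ := m.bd_pair hg he
  -- the piece shape
  have key : ∀ (a b : α), a ≠ b → bd i e.1 = {a, b} → bd i e.2 = {a, b} → b = y →
      ∃ rho : MvPolynomial α AA,
      EvEq wA ((1 + MvPolynomial.C (lam1 i e.1) * EA i (ind {y}) e.1) *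
        (1 + MvPolynomial.C (lam1 i e.2) * EA i (ind {y}) e.2)) (1 + rho) ∧
      ((sdat m St t k c).d1 y).Is2 (Sum.inl (Sum.inl e)) rho := by
    rintro a b hne hz hx rfl
    refine ⟨rho1 (lam1 i e.1) (lam1 i e.2) a b,
      EA_pair_one (m.cz e he) (m.cx e he) hz hx hne (ind_ne hne) (ind_self b) _ _, ?_⟩
    obtain ⟨R, hR⟩ := rho1_piece (i := i) e.1 e.2 a b
    refine ⟨R, ?_⟩
    show rho1 (lam1 i e.1) (lam1 i e.2) a b -
      (pc 1 1 (if b ∈ bd i e.1 then 1 else TL.ph (bd i e.1)) +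
      pc 2 1 (MvPolynomial.C (hN i e.2 - hN i e.1) * TL.am ((bd i e.1).erase b))) =
      MvPolynomial.C (wA ^ 2) * R
    have h1 : (({a, b} : Finset α).erase b) = {a} := by
      ext p
      rw [mem_erase, mem_insert, mem_singleton, mem_singleton]
      constructor
      · rintro ⟨h1, h2 | h2⟩
        · exact h2
        · exact absurd h2 h1
      · rintro rfl
        exact ⟨hne, Or.inl rfl⟩
    rw [hz, if_pos (by simp), h1, am_single, hR]
    ring
  by_cases hb : b = y
  · exact key a b hne hz hx hb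
  · by_cases ha : a = y
    · exact key b a hne.symm (by rw [hz, pair_comm]) (by rw [hx, pair_comm]) ha
    · refine ⟨rho0 (lam1 i e.1) (lam1 i e.2) a b,
        EA_pair_zero (m.cz e he) (m.cx e he) hz hx hne (ind_ne ha) (ind_ne hb) _ _, ?_⟩
      obtain ⟨R, hR⟩ := rho0_piece1 (i := i) e.1 e.2 a b
      refine ⟨R, ?_⟩
      show rho0 (lam1 i e.1) (lam1 i e.2) a b -
        (pc 1 1 (if y ∈ bd i e.1 then 1 else TL.ph (bd i e.1)) +
        pc 2 1 (MvPolynomial.C (hN i e.2 - hN i e.1) * TL.am ((bd i e.1).erase y))) =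
        MvPolynomial.C (wA ^ 2) * R
      have h1 : y ∉ ({a, b} : Finset α) := by
        rw [mem_insert, mem_singleton]
        rintro (h | h)
        · exact ha h.symm
        · exact hb h.symm
      rw [hz, if_neg h1, erase_eq_of_notMem h1, ph_pair hne, am_pair hne, hR]
      ring

/-- the item of a single element, energy one at `y` -/
theorem item1_single (hg : Grad α) {p : α} (hp : p ∈ Sg α i) (y : α) :
    ((sdat m St t k c).d1 y).Is2 (Sum.inl (Sum.inr p))
      (MvPolynomial.C (lam1 i p) * EA i (ind {y}) p) := by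
  rw [mem_Sg, ds_one_iff] at hp
  obtain ⟨hp1, hp2⟩ := hp
  obtain ⟨a, ha⟩ := card_eq_one.1 hp2
  have h0 : pc 2 1 (MvPolynomial.C 0 * TL.am ((bd i p).erase y)) = 0 := by
    unfold pc
    rw [MvPolynomial.C_0, zero_mul, map_zero, mul_zero]
  have key : ∀ P : MvPolynomial α ℤ, (∃ R : MvPolynomial α AA,
      MvPolynomial.C (lam1 i p) * EA i (ind {y}) p = pc 1 1 P + MvPolynomial.C (wA ^ 2) * R) →
      (if y ∈ bd i p then 1 else TL.ph (bd i p)) = P →
      ((sdat m St t k c).d1 y).Is2 (Sum.inl (Sum.inr p))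
        (MvPolynomial.C (lam1 i p) * EA i (ind {y}) p) := by
    rintro P ⟨R, hR⟩ hP
    refine ⟨R, ?_⟩
    show MvPolynomial.C (lam1 i p) * EA i (ind {y}) p -
      (pc 1 1 (if y ∈ bd i p then 1 else TL.ph (bd i p)) +
      pc 2 1 (MvPolynomial.C 0 * TL.am ((bd i p).erase y))) = MvPolynomial.C (wA ^ 2) * R
    rw [h0, hP, hR]
    ring
  by_cases hy : y = a
  · have h1 : ind ({y} : Finset α) a = 1 := by rw [hy, ind_self]
    have h2 : (if y ∈ bd i p then 1 else TL.ph (bd i p)) = (1 : MvPolynomial α ℤ) := by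
      rw [if_pos]
      rw [ha, hy]
      exact mem_singleton_self a
    rcases hp1 with h | h
    · exact key 1 (sgZ_pieceY h ha h1) h2
    · exact key 1 (sgX_pieceY h ha h1) h2
  · have h1 : ind ({y} : Finset α) a = 0 := ind_ne (fun h => hy h.symm)
    have h2 : (if y ∈ bd i p then 1 else TL.ph (bd i p)) =
        (MvPolynomial.X a : MvPolynomial α ℤ) := by
      rw [if_neg]
      · rw [ha, ph_single]
      · rw [ha, mem_singleton]
        exact hy
    rcases hp1 with h | h
    · exact key _ (sgZ_piece1 h ha h1) h2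
    · exact key _ (sgX_piece1 h ha h1) h2

/-- the own part of a star which does not contain `y` -/
theorem item1_star {s : α × α} (hs : StarOf i t k c s) {y : α} (hyk : k s ≠ y) (hyc : c s ≠ y)
    (hyt : t s ≠ y) : ∃ rho : MvPolynomial α AA,
    EvEq wA ((1 + MvPolynomial.C (lam1 i s.1) * EA i (ind {y}) s.1) *
      (1 + MvPolynomial.C (lam1 i s.2) * EA i (ind {y}) s.2))
      (TL.Dh (t s) (k s) (c s) + (1 + rho)) ∧
    ((sdat m St t k c).d1 y).Is2 (Sum.inr s) rho := by
  refine ⟨own0 (lam1 i s.1) (lam1 i s.2) (k s) (c s) (t s), ?_, ?_⟩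
  · refine (EA_star hs.cz hs.cx hs.bz hs.bx hs.kc hs.kt (ind_ne hyk) (ind_ne hyc) (ind_ne hyt)
      _ _).trans (EvEq.of_eq ?_)
    rw [Dh_eq]
    ring
  · obtain ⟨R, hR⟩ := own0_piece1 (i := i) s.1 s.2 (k s) (c s) (t s)
    refine ⟨R, ?_⟩
    show own0 (lam1 i s.1) (lam1 i s.2) (k s) (c s) (t s) - (pc 1 1 (TL.ph {k s, c s}) +
      pc 2 1 (MvPolynomial.C (hN i s.2) * TL.am {k s, t s} -
        MvPolynomial.C (hN i s.1) * TL.am {k s, c s})) =
      MvPolynomial.C (wA ^ 2) * R
    rw [ph_pair hs.kc, am_pair hs.kc, am_pair hs.kt, hR]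
    ring

/-- the frame of a star which contains `y` -/
theorem frame_star {s : α × α} (hs : StarOf i t k c s) (htc : t s ≠ c s) {y : α}
    (hy : y ∈ TL.VS t k c s) : ∃ (f : MvPolynomial α AA) (f1 f2 : MvPolynomial α ℤ),
    EvEq wA ((1 + MvPolynomial.C (lam1 i s.1) * EA i (ind {y}) s.1) *
      (1 + MvPolynomial.C (lam1 i s.2) * EA i (ind {y}) s.2)) f ∧
    TL.IsFrame f ((sdat m St t k c).frU s y) ((sdat m St t k c).frV s y) f1 f2
      ((sdat m St t k c).frP s y) ∧
    f1 ∈ MvPolynomial.supported ℤ (TL.VS t k c s : Set α) ∧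
    f2 ∈ MvPolynomial.supported ℤ (TL.VS t k c s : Set α) := by
  have hk : ∀ n : ℤ, (MvPolynomial.C n : MvPolynomial α ℤ) ∈
      MvPolynomial.supported ℤ (TL.VS t k c s : Set α) := fun n => TL.SDat.C_mem n _
  have hXt : (MvPolynomial.X (t s) : MvPolynomial α ℤ) ∈
      MvPolynomial.supported ℤ (TL.VS t k c s : Set α) := TL.X_mem_supp (by simp [TL.VS])
  have hXk : (MvPolynomial.X (k s) : MvPolynomial α ℤ) ∈
      MvPolynomial.supported ℤ (TL.VS t k c s : Set α) := TL.X_mem_supp (by simp [TL.VS])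
  have hXc : (MvPolynomial.X (c s) : MvPolynomial α ℤ) ∈
      MvPolynomial.supported ℤ (TL.VS t k c s : Set α) := TL.X_mem_supp (by simp [TL.VS])
  have hphi : phiP (k s) (c s) ∈ MvPolynomial.supported ℤ (TL.VS t k c s : Set α) :=
    sub_mem (add_mem hXk hXc) (mul_mem hXk hXc)
  have hw : (TL.wT : AA) = wA := rfl
  have hZ : (TL.ZT : AA) = ZA := rfl
  have h0 : TL.up (0 : MvPolynomial α ℤ) = 0 := map_zero _
  rw [TL.VS, mem_insert, mem_insert, mem_singleton] at hy
  by_cases hyt : y = t s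
  · subst hyt
    obtain ⟨R, hR⟩ := star_t_piece (i := i) hs.cz hs.cx hs.bz hs.bx hs.kc hs.kt
      (k := ind {t s}) (ind_ne hs.kt) (ind_ne htc.symm) (ind_self _)
    refine ⟨_, _, _, hR, ?_, hphi, sub_mem (add_mem (mul_mem (hk (hN i s.2)) hXk)
      (mul_mem hXk hXt)) (mul_mem (hk (1 + hN i s.1)) (mul_mem hXk hXc))⟩
    refine ⟨R, ?_⟩
    have g1 : (sdat m St t k c).frU s (t s) =
        MvPolynomial.X (k s) * (1 - MvPolynomial.X (c s)) := if_pos rfl
    have g2 : (sdat m St t k c).frV s (t s) = 0 := if_neg hs.kt.symm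
    have g3 : (sdat m St t k c).frP s (t s) = 0 := if_neg hs.kt.symm
    rw [g1, g2, g3, hw, hZ, h0]
    unfold pc
    simp only [map_add, map_sub, map_mul, map_pow, map_one, pow_one, pow_zero]
    ring
  · by_cases hyc : y = c s
    · subst hyc
      obtain ⟨R, hR⟩ := star_c_piece (i := i) hs.cz hs.cx hs.bz hs.bx hs.kc hs.kt
        (k := ind {c s}) (ind_ne hs.kc) (ind_self _) (ind_ne htc)
      refine ⟨_, _, _, hR, ?_, one_mem _, sub_mem (sub_mem (mul_mem (hk (1 + hN i s.2))
        (mul_mem hXk hXt)) (mul_mem (hk (hN i s.1)) hXk)) (mul_mem hXk hXc)⟩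
      refine ⟨R, ?_⟩
      have g1 : (sdat m St t k c).frU s (c s) =
          MvPolynomial.X (k s) * (MvPolynomial.X (t s) - 1) := by
        show (if c s = t s then _ else if c s = c s then _ else _) = _
        rw [if_neg htc.symm, if_pos rfl]
        rfl
      have g2 : (sdat m St t k c).frV s (c s) = 0 := if_neg hs.kc.symm
      have g3 : (sdat m St t k c).frP s (c s) = 0 := if_neg hs.kc.symm
      rw [g1, g2, g3, hw, hZ, h0]
      unfold pc
      simp only [map_add, map_sub, map_mul, map_pow, map_one, pow_one, pow_zero]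
      ring
    · have hyk : y = k s := by tauto
      subst hyk
      obtain ⟨R, hR⟩ := star_v_piece (i := i) hs.cz hs.cx hs.bz hs.bx hs.kc hs.kt
        (k := ind {k s}) (ind_self _) (ind_ne hs.kc.symm) (ind_ne hs.kt.symm)
      refine ⟨_, _, _, hR, ?_, one_mem _, sub_mem (add_mem (sub_mem (mul_mem
        (hk (1 + hN i s.2)) hXt) (mul_mem (hk (hN i s.1)) hXc)) (mul_mem hXk hXt))
        (mul_mem hXk hXc)⟩
      refine ⟨R, ?_⟩
      have g1 : (sdat m St t k c).frU s (k s) =
          MvPolynomial.X (t s) - MvPolynomial.X (c s) := by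
        show (if k s = t s then _ else if k s = c s then _ else _) = _
        rw [if_neg hs.kt, if_neg hs.kc]
        rfl
      have g2 : (sdat m St t k c).frV s (k s) =
          - (MvPolynomial.X (t s) * MvPolynomial.X (c s)) := if_pos rfl
      have g3 : (sdat m St t k c).frP s (k s) =
          - (MvPolynomial.C (hN i s.2 + hN i s.1) *
            (MvPolynomial.X (t s) * MvPolynomial.X (c s))) -
          2 * (MvPolynomial.X (t s) * MvPolynomial.X (k s) * MvPolynomial.X (c s)) := if_pos rfl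
      rw [g1, g2, g3, hw, hZ]
      unfold pc
      simp only [map_add, map_sub, map_mul, map_pow, map_one, map_neg, pow_one, pow_zero,
        map_ofNat]
      ring

end

end Pool.Gauss
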