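import Pool.Agent.Work.MP_065141_co.K.Group
import Pool.Agent.Work.MP_065141_co.K.StarDef

/-!
# Regions whose unmatched elements form vertex-disjoint stars
-/

set_option autoImplicit false
set_option linter.unusedSectionVars false
open scoped Classical
open Finset

namespace Pool.Gauss

variable {α : Type} [Fintype α] [PartialOrder α] {i : ℕ}

/-- the unmatched elements next to level `i` are the pairs `s = (z, x)` of the stars `s ∈ St`:
`z` (above) over `{k s, c s}`, `x` (below) over `{k s, t s}` -/
structure StarCfg (m : Mat α i) (St : Finset (α × α)) (t k c : α × α → α) : Prop where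
  Zl : m.Zl = St.image Prod.fst
  Xn : m.Xn = St.image Prod.snd
  inj1 : ∀ s ∈ St, ∀ s' ∈ St, s.1 = s'.1 → s = s'
  inj2 : ∀ s ∈ St, ∀ s' ∈ St, s.2 = s'.2 → s = s'
  bz : ∀ s ∈ St, bd i s.1 = {k s, c s}
  bx : ∀ s ∈ St, bd i s.2 = {k s, t s}
  st : TL.Stars St t k c

end Pool.Gauss
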