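import Pool.Agent.Work.MP_065141_co.K.ItemC
import Pool.Agent.Work.MP_065141_co.K.StarCfg

/-!
# The products over the elements next to a row with vertex-disjoint stars
-/

set_option autoImplicit false
set_option linter.unusedSectionVars false
set_option linter.unusedVariables false
set_option linter.unusedSimpArgs false
open scoped Classical
open Finset Polynomial

namespace Pool.Gauss

variable {α : Type} [Fintype α] [PartialOrder α] {i : ℕ}

attribute [-instance] instDecidableEqProd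

section

variable {m : Mat α i} {St : Finset (α × α)} {t k c : α × α → α}

lemma StarCfg.of (hC : StarCfg m St t k c) {s : α × α} (hs : s ∈ St) : StarOf i t k c s where
  cz := by
    have h : s.1 ∈ m.Zl := by
      rw [hC.Zl]
      exact mem_image_of_mem _ hs
    exact (Mat.mem_Zl.1 h).1
  cx := by
    have h : s.2 ∈ m.Xn := by
      rw [hC.Xn]
      exact mem_image_of_mem _ hs
    exact (Mat.mem_Xn.1 h).1
  bz := hC.bz s hs
  bx := hC.bx s hs
  kc := hC.st.kc s hs
  kt := (hC.st.tk s hs).symm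

/-- regrouping of the product over the elements next to the row -/
lemma StarCfg.prod {R : Type} [CommMonoid R] (hg : Grad α) (hl : HasLower α i)
    (hdeg : ∀ p : α, (bd i p).card ≤ 2) (hC : StarCfg m St t k c) (f : α → R) :
    ∏ p ∈ N1 α i, f p = (∏ s ∈ St, (f s.1 * f s.2)) *
      ((∏ e ∈ m.M, f e.1 * f e.2) * ∏ p ∈ Sg α i, f p) := by
  have h1 : ∏ p ∈ m.Zl, f p = ∏ s ∈ St, f s.1 := by
    rw [hC.Zl, prod_image]
    intro s hs s' hs' h
    exact hC.inj1 s hs s' hs' h
  have h2 : ∏ p ∈ m.Xn, f p = ∏ s ∈ St, f s.2 := by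
    rw [hC.Xn, prod_image]
    intro s hs s' hs' h
    exact hC.inj2 s hs s' hs' h
  have h3 : ∏ s ∈ St, (f s.1 * f s.2) = (∏ s ∈ St, f s.1) * ∏ s ∈ St, f s.2 :=
    prod_mul_distrib
  rw [prod_N1 hg hl hdeg m f, h1, h2, h3]
  generalize (∏ e ∈ m.M, f e.1 * f e.2) = a
  generalize (∏ p ∈ Sg α i, f p) = b
  generalize (∏ s ∈ St, f s.2) = u
  generalize (∏ s ∈ St, f s.1) = v
  rw [mul_comm u v, ← mul_assoc, mul_comm]

/-- the product of all factors, no energies on the row -/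
theorem StarCfg.full0 (hg : Grad α) (hl : HasLower α i)
    (hdeg : ∀ p : α, (bd i p).card ≤ 2) (hC : StarCfg m St t k c) :
    ∃ rho : ((α × α) ⊕ α) ⊕ (α × α) → MvPolynomial α AA,
      (∀ j ∈ TL.JT (sdat m St t k c).J St ∅, (sdat m St t k c).d0.Is j (rho j)) ∧
      EvEq wA (∏ p ∈ N1 α i, (1 + MvPolynomial.C (lam i p) * EA i 0 p))
        (TL.Full (sdat m St t k c).J St t k c rho) := by
  have h1 : ∀ e : α × α, ∃ rho : MvPolynomial α AA, e ∈ m.M →
      EvEq wA ((1 + MvPolynomial.C (lam i e.1) * EA i 0 e.1) *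
        (1 + MvPolynomial.C (lam i e.2) * EA i 0 e.2)) (1 + rho) ∧
      (sdat m St t k c).d0.Is (Sum.inl (Sum.inl e)) rho := by
    intro e
    by_cases he : e ∈ m.M
    · obtain ⟨rho, h⟩ := item_pair m St t k c hg he
      exact ⟨rho, fun _ => h⟩
    · exact ⟨0, fun h => absurd h he⟩
  have h2 : ∀ s : α × α, ∃ rho : MvPolynomial α AA, s ∈ St →
      EvEq wA ((1 + MvPolynomial.C (lam i s.1) * EA i 0 s.1) *
        (1 + MvPolynomial.C (lam i s.2) * EA i 0 s.2))
        (TL.Dh (t s) (k s) (c s) + (1 + rho)) ∧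
      (sdat m St t k c).d0.Is (Sum.inr s) rho := by
    intro s
    by_cases hs : s ∈ St
    · obtain ⟨rho, h⟩ := item_star m St t k c (hC.of hs)
      exact ⟨rho, fun _ => h⟩
    · exact ⟨0, fun h => absurd h hs⟩
  choose r1 hr1 using h1
  choose r2 hr2 using h2
  refine ⟨Sum.elim (Sum.elim r1 (fun p => MvPolynomial.C (lam i p) * EA i 0 p)) r2, ?_, ?_⟩
  · intro j hj
    rw [TL.JT, mem_disjSum, sdiff_empty] at hj
    rcases hj with ⟨j, hj, rfl⟩ | ⟨s, hs, rfl⟩
    · have hj' : j ∈ m.M.disjSum (Sg α i) := hj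
      rw [mem_disjSum] at hj'
      rcases hj' with ⟨e, he, rfl⟩ | ⟨p, hp, rfl⟩
      · exact (hr1 e he).2
      · exact item_single m St t k c hg hp
    · exact (hr2 s hs).2
  · rw [hC.prod hg hl hdeg]
    have h3 : (sdat m St t k c).J = m.M.disjSum (Sg α i) := rfl
    rw [TL.Full, h3, prod_disjSum]
    exact (EvEq.prod fun s hs => (hr2 s hs).1).mul
      ((EvEq.prod fun e he => (hr1 e he).1).mul (EvEq.refl _))

/-- the product of all factors, energy one at `y`, which is in no star -/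
theorem StarCfg.full1 (hg : Grad α) (hl : HasLower α i)
    (hdeg : ∀ p : α, (bd i p).card ≤ 2) (hC : StarCfg m St t k c) {y : α}
    (hy : ∀ s ∈ St, y ∉ TL.VS t k c s) :
    ∃ rho : ((α × α) ⊕ α) ⊕ (α × α) → MvPolynomial α AA,
      (∀ j ∈ TL.JT (sdat m St t k c).J St ∅, ((sdat m St t k c).d1 y).Is2 j (rho j)) ∧
      EvEq wA (∏ p ∈ N1 α i, (1 + MvPolynomial.C (lam1 i p) * EA i (ind {y}) p))
        (TL.Full (sdat m St t k c).J St t k c rho) := by
  have h1 : ∀ e : α × α, ∃ rho : MvPolynomial α AA, e ∈ m.M →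
      EvEq wA ((1 + MvPolynomial.C (lam1 i e.1) * EA i (ind {y}) e.1) *
        (1 + MvPolynomial.C (lam1 i e.2) * EA i (ind {y}) e.2)) (1 + rho) ∧
      ((sdat m St t k c).d1 y).Is2 (Sum.inl (Sum.inl e)) rho := by
    intro e
    by_cases he : e ∈ m.M
    · obtain ⟨rho, h⟩ := item1_pair m St t k c hg he y
      exact ⟨rho, fun _ => h⟩
    · exact ⟨0, fun h => absurd h he⟩
  have h2 : ∀ s : α × α, ∃ rho : MvPolynomial α AA, s ∈ St →
      EvEq wA ((1 + MvPolynomial.C (lam1 i s.1) * EA i (ind {y}) s.1) *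
        (1 + MvPolynomial.C (lam1 i s.2) * EA i (ind {y}) s.2))
        (TL.Dh (t s) (k s) (c s) + (1 + rho)) ∧
      ((sdat m St t k c).d1 y).Is2 (Sum.inr s) rho := by
    intro s
    by_cases hs : s ∈ St
    · have h3 := hy s hs
      rw [TL.VS, mem_insert, mem_insert, mem_singleton] at h3
      push Not at h3
      obtain ⟨rho, h⟩ := item1_star m St t k c (hC.of hs) (y := y) (Ne.symm h3.2.1)
        (Ne.symm h3.2.2) (Ne.symm h3.1)
      exact ⟨rho, fun _ => h⟩
    · exact ⟨0, fun h => absurd h hs⟩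
  choose r1 hr1 using h1
  choose r2 hr2 using h2
  refine ⟨Sum.elim (Sum.elim r1 (fun p => MvPolynomial.C (lam1 i p) * EA i (ind {y}) p)) r2,
    ?_, ?_⟩
  · intro j hj
    rw [TL.JT, mem_disjSum, sdiff_empty] at hj
    rcases hj with ⟨j, hj, rfl⟩ | ⟨s, hs, rfl⟩
    · have hj' : j ∈ m.M.disjSum (Sg α i) := hj
      rw [mem_disjSum] at hj'
      rcases hj' with ⟨e, he, rfl⟩ | ⟨p, hp, rfl⟩
      · exact (hr1 e he).2
      · exact item1_single m St t k c hg hp y
    · exact (hr2 s hs).2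
  · rw [hC.prod hg hl hdeg]
    have h3 : (sdat m St t k c).J = m.M.disjSum (Sg α i) := rfl
    rw [TL.Full, h3, prod_disjSum]
    exact (EvEq.prod fun s hs => (hr2 s hs).1).mul
      ((EvEq.prod fun e he => (hr1 e he).1).mul (EvEq.refl _))

/-- the product of all factors, energy one at `y` in the star `s0` -/
theorem StarCfg.full1s (hg : Grad α) (hl : HasLower α i)
    (hdeg : ∀ p : α, (bd i p).card ≤ 2) (hC : StarCfg m St t k c) {s0 : α × α} (hs0 : s0 ∈ St)
    {y : α} (hy : y ∈ TL.VS t k c s0) :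
    ∃ (rho : ((α × α) ⊕ α) ⊕ (α × α) → MvPolynomial α AA) (f : MvPolynomial α AA)
      (f1 f2 : MvPolynomial α ℤ),
      (∀ j ∈ TL.JT (sdat m St t k c).J (St.erase s0) ∅,
        ((sdat m St t k c).d1 y).Is2 j (rho j)) ∧
      TL.IsFrame f ((sdat m St t k c).frU s0 y) ((sdat m St t k c).frV s0 y) f1 f2
        ((sdat m St t k c).frP s0 y) ∧
      f1 ∈ MvPolynomial.supported ℤ (TL.VS t k c s0 : Set α) ∧
      f2 ∈ MvPolynomial.supported ℤ (TL.VS t k c s0 : Set α) ∧
      EvEq wA (∏ p ∈ N1 α i, (1 + MvPolynomial.C (lam1 i p) * EA i (ind {y}) p))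
        (f * TL.Full (sdat m St t k c).J (St.erase s0) t k c rho) := by
  have h1 : ∀ e : α × α, ∃ rho : MvPolynomial α AA, e ∈ m.M →
      EvEq wA ((1 + MvPolynomial.C (lam1 i e.1) * EA i (ind {y}) e.1) *
        (1 + MvPolynomial.C (lam1 i e.2) * EA i (ind {y}) e.2)) (1 + rho) ∧
      ((sdat m St t k c).d1 y).Is2 (Sum.inl (Sum.inl e)) rho := by
    intro e
    by_cases he : e ∈ m.M
    · obtain ⟨rho, h⟩ := item1_pair m St t k c hg he y
      exact ⟨rho, fun _ => h⟩
    · exact ⟨0, fun h => absurd h he⟩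
  have h2 : ∀ s : α × α, ∃ rho : MvPolynomial α AA, s ∈ St.erase s0 →
      EvEq wA ((1 + MvPolynomial.C (lam1 i s.1) * EA i (ind {y}) s.1) *
        (1 + MvPolynomial.C (lam1 i s.2) * EA i (ind {y}) s.2))
        (TL.Dh (t s) (k s) (c s) + (1 + rho)) ∧
      ((sdat m St t k c).d1 y).Is2 (Sum.inr s) rho := by
    intro s
    by_cases hs : s ∈ St.erase s0
    · rw [mem_erase] at hs
      have h3 : y ∉ TL.VS t k c s :=
        Finset.disjoint_left.1 (hC.st.dis s0 hs0 s hs.2 hs.1.symm) hy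
      rw [TL.VS, mem_insert, mem_insert, mem_singleton] at h3
      push Not at h3
      obtain ⟨rho, h⟩ := item1_star m St t k c (hC.of hs.2) (y := y) (Ne.symm h3.2.1)
        (Ne.symm h3.2.2) (Ne.symm h3.1)
      exact ⟨rho, fun _ => h⟩
    · exact ⟨0, fun h => absurd h hs⟩
  obtain ⟨f, f1, f2, hf, hf', hf1, hf2⟩ := frame_star m St t k c (hC.of hs0)
    (hC.st.tc s0 hs0) hy
  choose r1 hr1 using h1
  choose r2 hr2 using h2
  refine ⟨Sum.elim (Sum.elim r1 (fun p => MvPolynomial.C (lam1 i p) * EA i (ind {y}) p)) r2,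
    f, f1, f2, ?_, hf', hf1, hf2, ?_⟩
  · intro j hj
    rw [TL.JT, mem_disjSum, sdiff_empty] at hj
    rcases hj with ⟨j, hj, rfl⟩ | ⟨s, hs, rfl⟩
    · have hj' : j ∈ m.M.disjSum (Sg α i) := hj
      rw [mem_disjSum] at hj'
      rcases hj' with ⟨e, he, rfl⟩ | ⟨p, hp, rfl⟩
      · exact (hr1 e he).2
      · exact item1_single m St t k c hg hp y
    · exact (hr2 s hs).2
  · rw [hC.prod hg hl hdeg, ← mul_prod_erase St _ hs0, mul_assoc]
    have h3 : (sdat m St t k c).J = m.M.disjSum (Sg α i) := rfl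
    rw [TL.Full, h3, prod_disjSum]
    exact hf.mul ((EvEq.prod fun s hs => (hr2 s hs).1).mul
      ((EvEq.prod fun e he => (hr1 e he).1).mul (EvEq.refl _)))

end

end Pool.Gauss
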