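import Pool.Agent.Work.MP_065141_co.K.PlnCount
import Pool.Agent.Work.MP_065141_co.J0

/-!
# The relation at the base `0`: no join of two thin elements in the first mixed row

A join is an element below two maximal elements; `en0 g = ∑ y ≥ g, corank y`.  Every join of row
`r + 1` above which there is no join has `en0 g ≥ (r + 1) ^ 2`, with equality iff every row between
contains exactly two elements above `g`.
-/

set_option autoImplicit false
set_option linter.unusedSectionVars false
open scoped Classical
open Finset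

namespace Pool.Gauss

variable {α : Type} [Fintype α] [PartialOrder α]

/-- a join without a join above it -/
def FJ (g : α) : Prop := Join g ∧ ∀ y : α, g < y → ¬ Join y

/-- the up set of `y` is a chain -/
def Thin (y : α) : Prop := ∀ x x' : α, y ≤ x → y ≤ x' → corank x = corank x' → x = x'

/-- the elements of row `j` above `g` -/
noncomputable def upRow (g : α) (j : ℕ) : Finset α := univ.filter fun y => g ≤ y ∧ corank y = j

lemma mem_upRow {g y : α} {j : ℕ} : y ∈ upRow g j ↔ g ≤ y ∧ corank y = j := by
  simp [upRow]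

lemma upRow_zero (g : α) : upRow g 0 = roots g := by
  ext y
  rw [mem_upRow, mem_roots]
  exact and_comm

/-- every join lies below a first join -/
lemma exists_fj {g : α} (hg : Join g) : ∃ z, g ≤ z ∧ FJ z := by
  have hne : (univ.filter fun z : α => g ≤ z ∧ Join z).Nonempty := ⟨g, by simp [hg]⟩
  obtain ⟨z, hz, hmin⟩ := Finset.exists_min_image _ corank hne
  rw [mem_filter] at hz
  refine ⟨z, hz.2.1, hz.2.2, fun y hy hj => ?_⟩
  have h1 := hmin y (by
    rw [mem_filter]
    exact ⟨mem_univ _, hz.2.1.trans hy.le, hj⟩)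
  have h2 := corank_lt hy
  omega

lemma en0_mono {g z : α} (h : g ≤ z) : en0 z ≤ en0 g := by
  unfold en0
  apply Finset.sum_le_sum_of_subset
  intro y hy
  rw [mem_filter] at hy ⊢
  exact ⟨mem_univ _, h.trans hy.2⟩

lemma en0_lt {g z : α} (h : g < z) : en0 z < en0 g := by
  unfold en0
  have h1 := corank_lt h
  apply Finset.sum_lt_sum_of_subset (i := g)
  · intro y hy
    rw [mem_filter] at hy ⊢
    exact ⟨mem_univ _, h.le.trans hy.2⟩
  · simp
  · rw [mem_filter]
    rintro ⟨_, h2⟩
    exact absurd h2 (not_le_of_gt h)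
  · omega
  · intro y _ _
    exact Nat.zero_le _

/-- the energy row by row -/
lemma en0_eq (g : α) : en0 g = ∑ j ∈ range (corank g + 1), j * (upRow g j).card := by
  have h1 : univ.filter (fun y : α => g ≤ y) = (range (corank g + 1)).biUnion (upRow g) := by
    ext y
    rw [mem_filter, mem_biUnion]
    constructor
    · rintro ⟨_, h⟩
      refine ⟨corank y, ?_, mem_upRow.2 ⟨h, rfl⟩⟩
      rw [mem_range]
      rcases h.eq_or_lt with h2 | h2
      · rw [h2]
        omega
      · have := corank_lt h2
        omega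
    · rintro ⟨j, _, h⟩
      exact ⟨mem_univ _, (mem_upRow.1 h).1⟩
  unfold en0
  rw [h1, Finset.sum_biUnion]
  · apply Finset.sum_congr rfl
    intro j _
    rw [Finset.sum_congr rfl fun y hy => (mem_upRow.1 hy).2, Finset.sum_const, smul_eq_mul,
      mul_comm]
  · intro j _ j' _ hj
    show Disjoint (upRow g j) (upRow g j')
    rw [Finset.disjoint_left]
    intro y h2 h3
    rw [mem_upRow] at h2 h3
    exact hj (h2.2.symm.trans h3.2)

/-- the number of elements above `g`, row by row -/
lemma card_up_eq (g : α) : (univ.filter fun y : α => g ≤ y).card =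
    ∑ j ∈ range (corank g + 1), (upRow g j).card := by
  have h1 : univ.filter (fun y : α => g ≤ y) = (range (corank g + 1)).biUnion (upRow g) := by
    ext y
    rw [mem_filter, mem_biUnion]
    constructor
    · rintro ⟨_, h⟩
      refine ⟨corank y, ?_, mem_upRow.2 ⟨h, rfl⟩⟩
      rw [mem_range]
      rcases h.eq_or_lt with h2 | h2
      · rw [h2]
        omega
      · have := corank_lt h2
        omega
    · rintro ⟨j, _, h⟩
      exact ⟨mem_univ _, (mem_upRow.1 h).1⟩
  rw [h1, Finset.card_biUnion]
  intro j _ j' _ hj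
  show Disjoint (upRow g j) (upRow g j')
  rw [Finset.disjoint_left]
  intro y h2 h3
  rw [mem_upRow] at h2 h3
  exact hj (h2.2.symm.trans h3.2)

lemma upRow_self (g : α) : upRow g (corank g) = {g} := by
  ext y
  rw [mem_upRow, mem_singleton]
  constructor
  · rintro ⟨h1, h2⟩
    rcases h1.eq_or_lt with h3 | h3
    · exact h3.symm
    · have := corank_lt h3
      omega
  · rintro rfl
    exact ⟨le_rfl, rfl⟩

namespace CtxK

variable (C : CtxK α)
include C

/-- between an element and a maximal element above it there are elements of every row -/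
lemma exists_between {x a : α} (h : x ≤ a) {j : ℕ} (ha : corank a ≤ j) (hj : j ≤ corank x) :
    ∃ y, x ≤ y ∧ y ≤ a ∧ corank y = j := by
  obtain ⟨n, hn⟩ : ∃ n, corank x = j + n := ⟨corank x - j, by omega⟩
  induction n generalizing x with
  | zero => exact ⟨x, le_rfl, h, by omega⟩
  | succ n ih =>
    have hlt : x < a := by
      rcases h.eq_or_lt with h1 | h1
      · rw [h1] at hn
        omega
      · exact h1
    obtain ⟨z, hz, hz'⟩ := exists_covBy_of_lt hlt
    have h1 := C.cork hz
    obtain ⟨y, hy, hy', hy''⟩ := ih hz' (by omega) (by omega)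
    exact ⟨y, hz.le.trans hy, hy', hy''⟩

/-- two maximal elements above a first join lie above different elements of every row between -/
lemma fj_row {g a : α} (ha : a ∈ roots g) {j : ℕ} (hj : j ≤ corank g) :
    ∃ y, y ∈ upRow g j ∧ y ≤ a := by
  rw [mem_roots] at ha
  obtain ⟨y, h1, h2, h3⟩ := C.exists_between ha.2 (by omega) hj
  exact ⟨y, mem_upRow.2 ⟨h1, h3⟩, h2⟩

lemma roots_le_upRow {g : α} (hg : FJ g) {j : ℕ} (hj : j < corank g) :
    (roots g).card ≤ (upRow g j).card := by
  choose! σ hσ using fun (a : α) (ha : a ∈ roots g) => C.fj_row ha hj.le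
  apply Finset.card_le_card_of_injOn σ
  · intro a ha
    exact (hσ a ha).1
  · intro a ha b hb hab
    by_contra hne
    have h1 := hσ a ha
    have h2 := hσ b hb
    rw [mem_upRow] at h1 h2
    have h3 : g < σ a := by
      rcases h1.1.1.eq_or_lt with h4 | h4
      · have h5 := h1.1.2
        rw [← h4] at h5
        omega
      · exact h4
    refine hg.2 _ h3 ?_
    unfold Join
    have h4 : ({a, b} : Finset α) ⊆ roots (σ a) := by
      intro c hc
      rw [mem_insert, mem_singleton] at hc
      rw [mem_roots]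
      rcases hc with rfl | rfl
      · exact ⟨(mem_roots.1 ha).1, h1.2⟩
      · exact ⟨(mem_roots.1 hb).1, by rw [hab]; exact h2.2⟩
    calc 2 = ({a, b} : Finset α).card := by rw [card_pair hne]
      _ ≤ _ := card_le_card h4

lemma two_le_upRow {g : α} (hg : FJ g) {j : ℕ} (hj : j < corank g) : 2 ≤ (upRow g j).card :=
  le_trans hg.1 (C.roots_le_upRow hg hj)

omit C in
lemma sum_two (n : ℕ) : ∑ j ∈ range n, j * 2 + n = n ^ 2 := by
  induction n with
  | zero => rfl
  | succ n ih =>
    rw [Finset.sum_range_succ]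
    nlinarith

/-- **the energy of a first join** -/
theorem en0_ge {g : α} (hg : FJ g) : corank g ^ 2 ≤ en0 g := by
  rw [en0_eq, Finset.sum_range_succ, upRow_self, card_singleton, mul_one, ← sum_two]
  have h1 : ∑ j ∈ range (corank g), j * 2 ≤ ∑ j ∈ range (corank g), j * (upRow g j).card := by
    apply Finset.sum_le_sum
    intro j hj
    rw [mem_range] at hj
    exact Nat.mul_le_mul_left _ (C.two_le_upRow hg hj)
  omega

/-- the energy of any join below row `i` -/
theorem en0_ge' {i : ℕ} (hpure : ∀ x : α, corank x ≤ i → ¬ Join x) {g : α} (hg : Join g) :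
    (i + 1) ^ 2 ≤ en0 g := by
  obtain ⟨z, hz, hz'⟩ := exists_fj hg
  have h1 : i + 1 ≤ corank z := by
    by_contra h2
    exact hpure z (by omega) hz'.1
  calc (i + 1) ^ 2 ≤ corank z ^ 2 := Nat.pow_le_pow_left h1 2
    _ ≤ en0 z := C.en0_ge hz'
    _ ≤ en0 g := en0_mono hz

/-- the case of equality -/
theorem eq_of_en0 {i : ℕ} (hpure : ∀ x : α, corank x ≤ i → ¬ Join x) {g : α} (hg : Join g)
    (he : en0 g = (i + 1) ^ 2) : FJ g ∧ corank g = i + 1 ∧
      (∀ j, 1 ≤ j → j ≤ i → (upRow g j).card = 2) := by
  obtain ⟨z, hz, hz'⟩ := exists_fj hg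
  have h1 : i + 1 ≤ corank z := by
    by_contra h2
    exact hpure z (by omega) hz'.1
  have h2 : g = z := by
    rcases hz.eq_or_lt with h3 | h3
    · exact h3
    · have h4 := en0_lt h3
      have h5 := C.en0_ge hz'
      have h6 : (i + 1) ^ 2 ≤ corank z ^ 2 := Nat.pow_le_pow_left h1 2
      omega
  subst h2
  have h3 := C.en0_ge hz'
  have h4 : corank g = i + 1 := by
    by_contra h5
    have h6 : (i + 1) ^ 2 < corank g ^ 2 := Nat.pow_lt_pow_left (by omega) (by norm_num)
    omega
  refine ⟨hz', h4, fun j hj1 hj2 => ?_⟩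
  by_contra hne
  have h5 : ∑ j ∈ range (corank g), j * 2 < ∑ j ∈ range (corank g), j * (upRow g j).card := by
    apply Finset.sum_lt_sum
    · intro j hj
      rw [mem_range] at hj
      exact Nat.mul_le_mul_left _ (C.two_le_upRow hz' hj)
    · refine ⟨j, by rw [mem_range]; omega, ?_⟩
      have := C.two_le_upRow hz' (j := j) (by omega)
      exact Nat.mul_lt_mul_of_pos_left (by omega) (by omega)
  rw [en0_eq, Finset.sum_range_succ, upRow_self, card_singleton, mul_one] at he
  have h6 := sum_two (corank g)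
  rw [h4] at h5 h6 he
  omega

/-- **the base `0`: no join of energy `(i + 1) ^ 2`**, if there are no joins in the rows `≤ i` -/
theorem no_join_sq {i : ℕ} (hpure : ∀ x : α, corank x ≤ i → ¬ Join x) {g : α} (hg : Join g)
    (he : en0 g = (i + 1) ^ 2) : False := by
  obtain ⟨h, hG⟩ := C.gauss
  have h2 : ∀ g : α, Join g → en0 g = (i + 1) ^ 2 → (roots g).card = 2 := by
    intro g hg he
    obtain ⟨h1, h3, h4⟩ := C.eq_of_en0 hpure hg he
    have h5 : 2 ≤ (roots g).card := hg
    rcases Nat.eq_zero_or_pos i with h6 | h6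
    · subst h6
      have h7 : roots g ⊆ Pr g := by
        intro a ha
        rw [mem_roots] at ha
        rw [mem_Pr]
        refine C.covBy_of_lt ?_ (by omega)
        rcases ha.2.eq_or_lt with h8 | h8
        · rw [← h8] at ha
          omega
        · exact h8
      have h8 := card_le_card h7
      have h9 := C.pr_le g
      omega
    · have h7 := C.roots_le_upRow h1 (j := 1) (by omega)
      rw [h4 1 le_rfl h6] at h7
      omega
  have h3 := base_zero hG ((i + 1) ^ 2) (fun g hg => C.en0_ge' hpure hg) h2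
  have h4 : ∀ g ∈ univ.filter (fun g : α => Join g ∧ en0 g = (i + 1) ^ 2),
      (-1 : ℤ) ^ (univ.filter (fun y : α => g < y)).card = 1 := by
    intro g hg
    rw [mem_filter] at hg
    obtain ⟨h5, h6, h7⟩ := C.eq_of_en0 hpure hg.2.1 hg.2.2
    have h8 := card_up_eq g
    rw [h6, Finset.sum_range_succ, ← h6, upRow_self, card_singleton, h6] at h8
    have h9 : ∑ j ∈ range (i + 1), (upRow g j).card = ∑ j ∈ range (i + 1), 2 := by
      apply Finset.sum_congr rfl
      intro j hj
      rw [mem_range] at hj
      rcases Nat.eq_zero_or_pos j with h10 | h10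
      · rw [h10, upRow_zero]
        exact h2 g hg.2.1 hg.2.2
      · exact h7 j h10 (by omega)
    rw [h9, Finset.sum_const, card_range, smul_eq_mul] at h8
    have h10 : univ.filter (fun y : α => g ≤ y) = insert g (univ.filter fun y : α => g < y) := by
      ext y
      rw [mem_insert, mem_filter, mem_filter]
      constructor
      · rintro ⟨_, h11⟩
        rcases h11.eq_or_lt with h12 | h12
        · exact Or.inl h12.symm
        · exact Or.inr ⟨mem_univ _, h12⟩
      · rintro (rfl | h11)
        · exact ⟨mem_univ _, le_rfl⟩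
        · exact ⟨mem_univ _, h11.2.le⟩
    rw [h10, card_insert_of_notMem (by simp)] at h8
    have h11 : (univ.filter fun y : α => g < y).card = (i + 1) * 2 := by omega
    rw [h11, mul_comm, pow_mul]
    norm_num
  rw [Finset.sum_congr rfl h4, Finset.sum_const, nsmul_eq_mul, mul_one] at h3
  have h5 : g ∈ univ.filter (fun g : α => Join g ∧ en0 g = (i + 1) ^ 2) := by
    rw [mem_filter]
    exact ⟨mem_univ _, hg, he⟩
  have h6 := card_pos.2 ⟨g, h5⟩
  have h7 : ((univ.filter fun g : α => Join g ∧ en0 g = (i + 1) ^ 2).card : ℤ) ≠ 0 := by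
    exact_mod_cast h6.ne'
  exact h7 h3

/-- **no join of two thin elements in the first mixed row** -/
theorem no_thin_join {i : ℕ} (hpure : ∀ x : α, corank x ≤ i → ¬ Join x) {g : α} (hg : Join g)
    (hc : corank g = i + 1) (hthin : ∀ y ∈ Pr g, Thin y) : False := by
  have hfj : FJ g := by
    refine ⟨hg, fun y hy => hpure y ?_⟩
    have := corank_lt hy
    omega
  have h1 : ∀ j, j ≤ i → (upRow g j).card ≤ 2 := by
    intro j hj
    have h2 : ∀ x ∈ upRow g j, ∃ y ∈ Pr g, y ≤ x := by
      intro x hx
      rw [mem_upRow] at hx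
      have h3 : g < x := by
        rcases hx.1.eq_or_lt with h4 | h4
        · rw [← h4] at hx
          omega
        · exact h4
      obtain ⟨z, hz, hz'⟩ := exists_covBy_of_lt h3
      exact ⟨z, mem_Pr.2 hz, hz'⟩
    choose! σ hσ using h2
    calc (upRow g j).card ≤ (Pr g).card := by
          apply Finset.card_le_card_of_injOn σ
          · intro x hx
            exact (hσ x hx).1
          · intro x hx x' hx' he
            have h3 := hσ x hx
            have h4 := hσ x' hx'
            refine hthin _ h3.1 x x' h3.2 (by rw [he]; exact h4.2) ?_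
            rw [(mem_upRow.1 hx).2, (mem_upRow.1 hx').2]
      _ ≤ 2 := C.pr_le g
  refine C.no_join_sq hpure hg ?_
  apply le_antisymm _ (C.en0_ge' hpure hg)
  rw [en0_eq, Finset.sum_range_succ, upRow_self, card_singleton, mul_one, hc, ← sum_two (i + 1)]
  have h2 : ∑ j ∈ range (i + 1), j * (upRow g j).card ≤ ∑ j ∈ range (i + 1), j * 2 := by
    apply Finset.sum_le_sum
    intro j hj
    rw [mem_range] at hj
    exact Nat.mul_le_mul_left _ (h1 j (by omega))
  omega

end CtxK

namespace Pln

variable {lo hi : α → ℕ → ℕ} {i : ℕ} {f : α → ℕ → ℕ → α}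

/-- the rows with coordinates contain no join -/
lemma no_join (h : Pln lo hi i f) (C : CtxK α) {x : α} (hx : corank x ≤ i) : ¬ Join x := by
  intro hj
  obtain ⟨a, c, ha, h1, h2, h3⟩ := h.sur x hx
  have h4 : roots x ⊆ {a} := by
    intro t ht
    rw [mem_roots] at ht
    rw [mem_singleton]
    exact h.top_unique C ha hx h1 h2 ht.1 (by rw [← h3]; exact ht.2)
  have h5 := card_le_card h4
  rw [card_singleton] at h5
  unfold Join at hj
  omega

/-- **two thin elements of row `i` in different strips have no common lower cover** -/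
theorem no_thin_join (h : Pln lo hi i f) (C : CtxK α) {a b : α} {c d : ℕ} (ha : corank a = 0)
    (hb : corank b = 0) (hab : a ≠ b) (h1 : lo a i ≤ c) (h2 : c ≤ hi a i) (h3 : lo b i ≤ d)
    (h4 : d ≤ hi b i) (t1 : Thin (f a i c)) (t2 : Thin (f b i d)) {g : α}
    (hg : Pr g = {f a i c, f b i d}) : False := by
  have h5 := h.cor a i c ha le_rfl h1 h2
  have h6 : f a i c ∈ Pr g := by rw [hg]; simp
  have h7 : f b i d ∈ Pr g := by rw [hg]; simp
  have h8 : corank g = i + 1 := by
    have := C.corank_of_mem_Pr h6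
    omega
  refine C.no_thin_join (i := i) (fun x hx => h.no_join C hx) ?_ h8 ?_
  · unfold Join
    have h9 : ({a, b} : Finset α) ⊆ roots g := by
      intro t ht
      rw [mem_insert, mem_singleton] at ht
      rw [mem_roots]
      rcases ht with rfl | rfl
      · exact ⟨ha, (mem_Pr.1 h6).le.trans (h.le_top C ha le_rfl h1 h2)⟩
      · exact ⟨hb, (mem_Pr.1 h7).le.trans (h.le_top C hb le_rfl h3 h4)⟩
    calc 2 = ({a, b} : Finset α).card := by rw [card_pair hab]
      _ ≤ _ := card_le_card h9
  · intro y hy
    rw [hg, mem_insert, mem_singleton] at hy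
    rcases hy with rfl | rfl
    · exact t1
    · exact t2

/-- the elements above `f a r c` in coordinates -/
lemma up_coord (h : Pln lo hi i f) (C : CtxK α) {a : α} {r c : ℕ} (ha : corank a = 0)
    (hr : r ≤ i) (h1 : lo a r ≤ c) (h2 : c ≤ hi a r) {y : α} (hy : f a r c ≤ y) :
    ∃ s e, s ≤ r ∧ lo a s ≤ e ∧ e ≤ hi a s ∧ e ≤ c ∧ c ≤ e + (r - s) ∧ y = f a s e := by
  induction r generalizing c with
  | zero =>
    have h3 := h.cor a 0 c ha hr h1 h2
    rcases hy.eq_or_lt with h4 | h4
    · exact ⟨0, c, le_rfl, h1, h2, le_rfl, by omega, h4.symm⟩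
    · have := corank_lt h4
      omega
  | succ j ih =>
    rcases hy.eq_or_lt with h4 | h4
    · exact ⟨j + 1, c, le_rfl, h1, h2, le_rfl, by omega, h4.symm⟩
    · obtain ⟨z, hz, hz'⟩ := exists_covBy_of_lt h4
      obtain ⟨e, he, h5, h6, rfl⟩ := (h.pr a j c ha (by omega) h1 h2 z).1 (mem_Pr.2 hz)
      obtain ⟨s, e', h7, h8, h9, h10, h11, h12⟩ := ih (by omega) h5 h6 hz'
      exact ⟨s, e', by omega, h8, h9, by omega, by omega, h12⟩

/-- thin elements in coordinates -/
lemma thin_of (h : Pln lo hi i f) (C : CtxK α) {a : α} {c : ℕ} (ha : corank a = 0)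
    (h1 : lo a i ≤ c) (h2 : c ≤ hi a i)
    (hu : ∀ r ≤ i, ∀ e e', lo a r ≤ e → e ≤ hi a r → e ≤ c → c ≤ e + (i - r) →
      lo a r ≤ e' → e' ≤ hi a r → e' ≤ c → c ≤ e' + (i - r) → e = e') : Thin (f a i c) := by
  intro x x' hx hx' hc
  obtain ⟨s, e, h3, h4, h5, h6, h7, rfl⟩ := h.up_coord C ha le_rfl h1 h2 hx
  obtain ⟨s', e', h8, h9, h10, h11, h12, rfl⟩ := h.up_coord C ha le_rfl h1 h2 hx'
  rw [h.cor a s e ha h3 h4 h5, h.cor a s' e' ha h8 h9 h10] at hc
  subst hc
  rw [hu s h3 e e' h4 h5 h6 h7 h9 h10 h11 h12]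

/-- the left arm of a strip is thin as long as its left side is straight -/
lemma thin_left (h : Pln lo hi i f) (C : CtxK α) {a : α} (ha : corank a = 0)
    (hlo : ∀ r ≤ i, lo a r = 0) : Thin (f a i 0) := by
  refine h.thin_of C ha (hlo i le_rfl).le (Nat.zero_le _) ?_
  intro r _ e e' _ _ h3 _ _ _ h7 _
  omega

/-- the right arm of a strip is thin as long as its right side is straight -/
lemma thin_right (h : Pln lo hi i f) (C : CtxK α) {a : α} (ha : corank a = 0)
    (hhi : ∀ r ≤ i, hi a r = r) : Thin (f a i i) := by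
  refine h.thin_of C ha ?_ (hhi i le_rfl).ge ?_
  · have := h.le a i ha le_rfl
    rw [hhi i le_rfl] at this
    exact this
  · intro r hr e e' _ h2 _ h4 _ h6 _ h8
    rw [hhi r hr] at h2 h6
    omega

end Pln

end Pool.Gauss
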