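import Pool.Agent.Work.MP_065141_co.Lead

/-!
# Energy functions with value two at distance two

(The same configurations as in `D45.lean`, under other names, without the import of `Rel45`.)
-/

set_option autoImplicit false
set_option linter.unusedSectionVars false
set_option linter.unusedVariables false
open scoped Classical
open Finset Polynomial

namespace Pool.Gauss

variable {α : Type} [Fintype α] [PartialOrder α] {i : ℕ}

/-- the value two at `q`, one on `A` -/
noncomputable def cfWt (q : α) (A : Finset α) : α → ℕ :=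
  fun p => if p = q then 2 else if p ∈ A then 1 else 0

lemma kmem_Fo {ε : α → ℕ} {p : α} : p ∈ Fo i ε ↔ corank p ≠ i ∧ ¬ fd i ε p ∧ ¬ nd i ε p := by
  unfold Fo
  rw [mem_filter]
  simp

section cfWt

variable (hg : Grad α) (hl : HasLower α i) {q : α} {A : Finset α} (hq : ds i q = 2)
  (hA : ∀ p ∈ A, ds i p = 1) (hQA : bd i q ⊆ A)
  (hside : ∀ p ∈ A, ∀ p' ∈ A, corank p < i → i < corank p' → Disjoint (bd i p) (bd i p'))

lemma cfWt_q {q : α} {A : Finset α} : cfWt q A q = 2 := by simp [cfWt]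

include hq hA in
lemma cfWt_not_mem : q ∉ A := fun h => by
  have := hA q h
  omega

include hq hA in
lemma cfWt_mem {p : α} (hp : p ∈ A) : cfWt q A p = 1 := by
  unfold cfWt
  rw [if_neg, if_pos hp]
  rintro rfl
  exact cfWt_not_mem hq hA hp

lemma cfWt_zero {q : α} {A : Finset α} {p : α} (h1 : p ≠ q) (h2 : p ∉ A) : cfWt q A p = 0 := by
  unfold cfWt
  rw [if_neg h1, if_neg h2]

lemma cfWt_le (q : α) (A : Finset α) (p : α) : cfWt q A p ≤ 2 := by
  unfold cfWt
  split_ifs <;> omega

include hq hA in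
lemma cfWt_lev {p : α} (hp : corank p = i) : cfWt q A p = 0 := by
  have h0 := ds_eq_zero.2 hp
  apply cfWt_zero
  · rintro rfl
    omega
  · intro h
    have := hA p h
    omega

lemma cfWt_pos {q : α} {A : Finset α} {p : α} (h : 0 < cfWt q A p) : p = q ∨ p ∈ A := by
  by_contra hcon
  push Not at hcon
  rw [cfWt_zero hcon.1 hcon.2] at h
  omega

include hg hq hA hQA in
lemma cfWt_fd {p : α} (hp : corank p ≠ i) : fd i (cfWt q A) p ↔ p ∈ bd i q := by
  constructor
  · rintro ⟨r, hr, hr'⟩
    rcases cfWt_pos (by omega : 0 < cfWt q A r) with h | h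
    · rw [h] at hr
      exact mem_bd.2 hr
    · exfalso
      apply hp
      have h1 := fr_ds hg hr
      rw [hA r h] at h1
      exact ds_eq_zero.1 (by omega)
  · intro h
    refine ⟨q, mem_bd.1 h, ?_⟩
    rw [cfWt_q, cfWt_mem hq hA (hQA h)]
    omega

include hg hl hq hA hQA in
lemma cfWt_nd {p : α} (hp : corank p ≠ i) : nd i (cfWt q A) p ↔ p ≠ q ∧ p ∉ A := by
  constructor
  · rintro ⟨t, ht, ht'⟩
    have h1 := fr_ds hg ht
    refine ⟨?_, ?_⟩
    · rintro rfl
      rw [cfWt_q] at ht'
      have h2 : t ∈ A := hQA (mem_bd.2 ht)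
      rw [cfWt_mem hq hA h2] at ht'
      omega
    · intro h
      rw [cfWt_mem hq hA h] at ht'
      rw [hA p h] at h1
      rw [cfWt_lev hq hA (ds_eq_zero.1 (by omega))] at ht'
      omega
  · rintro ⟨h1, h2⟩
    obtain ⟨t, ht⟩ := exists_near hg hl hp
    exact ⟨t, ht, by rw [cfWt_zero h1 h2]; omega⟩

include hg hl hq hA hQA hside in
lemma cfWt_good : GoodE i (cfWt q A) := by
  apply goodE_of_goodS hg hl
  constructor
  · rintro p hp ⟨h1, h2⟩
    rw [cfWt_fd hg hq hA hQA hp] at h1
    rw [cfWt_nd hg hl hq hA hQA hp] at h2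
    exact h2.2 (hQA h1)
  · rintro y hy ⟨h1, h2⟩
    rw [inE_lev hy] at h1
    rw [outE_lev hy] at h2
    obtain ⟨x, hx, h1⟩ := h1
    obtain ⟨z, hz, h2⟩ := h2
    have h3 := hg x y hx
    have h4 := hg y z hz
    have e1 : fr i y x := fr_of_below hy.ge hx
    have e2 : fr i y z := fr_of_above hy.le hz
    have d1 : ds i x = 1 := by rw [fr_ds hg e1, ds_eq_zero.2 hy]
    have d2 : ds i z = 1 := by rw [fr_ds hg e2, ds_eq_zero.2 hy]
    have hxA : x ∈ A := by
      rcases cfWt_pos (by omega : 0 < cfWt q A x) with h | h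
      · rw [h] at d1; omega
      · exact h
    have hzA : z ∈ A := by
      rcases cfWt_pos (by omega : 0 < cfWt q A z) with h | h
      · rw [h] at d2; omega
      · exact h
    exact Finset.disjoint_left.1 (hside z hzA x hxA (by omega) (by omega)) (mem_bd.2 e2)
      (mem_bd.2 e1)

include hg hl hq hA hQA in
lemma cfWt_Fo : Fo i (cfWt q A) = insert q (A \ bd i q) := by
  ext p
  rw [kmem_Fo, mem_insert, mem_sdiff]
  constructor
  · rintro ⟨h1, h2, h3⟩
    rw [cfWt_fd hg hq hA hQA h1] at h2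
    rw [cfWt_nd hg hl hq hA hQA h1] at h3
    by_cases h4 : p = q
    · exact Or.inl h4
    · right
      by_contra h5
      push Not at h5
      apply h3
      refine ⟨h4, fun h6 => h2 (h5 h6)⟩
  · intro h
    have h1 : corank p ≠ i := by
      intro h1
      have h0 := ds_eq_zero.2 h1
      rcases h with rfl | h
      · omega
      · have := hA p h.1
        omega
    rw [cfWt_fd hg hq hA hQA h1, cfWt_nd hg hl hq hA hQA h1]
    refine ⟨h1, ?_, ?_⟩
    · rcases h with rfl | h
      · intro h2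
        have := ds_of_mem_bd hg hq h2
        omega
      · exact h.2
    · rintro ⟨h2, h3⟩
      rcases h with h | h
      · exact h2 h
      · exact h3 h.1

include hg hq hA hQA in
lemma cfWt_Fd : Fd i (cfWt q A) = bd i q := by
  ext p
  unfold Fd
  rw [mem_filter]
  constructor
  · rintro ⟨_, h1, h2⟩
    exact (cfWt_fd hg hq hA hQA h1).1 h2
  · intro h
    have h1 : corank p ≠ i := by
      intro h1
      have h0 := ds_eq_zero.2 h1
      have := ds_of_mem_bd hg hq h
      omega
    exact ⟨mem_univ _, h1, (cfWt_fd hg hq hA hQA h1).2 h⟩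

include hg hq hA in
lemma cfWt_Yd : Yd i (cfWt q A) = A.biUnion (bd i) := by
  ext y
  rw [mem_Yd, mem_biUnion]
  constructor
  · rintro ⟨h1, p, h2, h3⟩
    have h4 : ds i p = 1 := by rw [fr_ds hg h2, ds_eq_zero.2 h1]
    rcases cfWt_pos (by omega : 0 < cfWt q A p) with h | h
    · rw [h] at h4; omega
    · exact ⟨p, h, mem_bd.2 h2⟩
  · rintro ⟨p, hp, h⟩
    have h1 := bd_lev hg (hA p hp) h
    refine ⟨h1, p, mem_bd.1 h, ?_⟩
    rw [cfWt_lev hq hA h1, cfWt_mem hq hA hp]
    omega

include hg hq hA in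
lemma cfWt_Yin : Yin i (cfWt q A) = (A.filter fun p => i < corank p).biUnion (bd i) := by
  ext y
  unfold Yin
  rw [mem_filter, mem_lev, mem_biUnion]
  constructor
  · rintro ⟨h1, h2⟩
    rw [inE_lev h1] at h2
    obtain ⟨x, hx, h2⟩ := h2
    have h3 := hg x y hx
    have e1 : fr i y x := fr_of_below h1.ge hx
    have d1 : ds i x = 1 := by rw [fr_ds hg e1, ds_eq_zero.2 h1]
    rcases cfWt_pos (by omega : 0 < cfWt q A x) with h | h
    · rw [h] at d1; omega
    · exact ⟨x, mem_filter.2 ⟨h, by omega⟩, mem_bd.2 e1⟩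
  · rintro ⟨p, hp, h⟩
    rw [mem_filter] at hp
    have h1 := bd_lev hg (hA p hp.1) h
    refine ⟨h1, ?_⟩
    rw [inE_lev h1]
    refine ⟨p, (fr_below' hg (mem_bd.1 h) hp.2).2, ?_⟩
    rw [cfWt_lev hq hA h1, cfWt_mem hq hA hp.1]
    omega

include hq hA in
lemma cfWt_sum : ∑ p, cfWt q A p = A.card + 2 := by
  have h1 : ∀ p, cfWt q A p = ind A p + (if p = q then 2 else 0) := by
    intro p
    unfold cfWt ind
    by_cases h : p = q
    · rw [if_pos h, if_neg (by rw [h]; exact cfWt_not_mem hq hA), if_pos h]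
    · rw [if_neg h, if_neg h]
      simp
  rw [Finset.sum_congr rfl fun p _ => h1 p, Finset.sum_add_distrib, sum_ind]
  simp


end cfWt

end Pool.Gauss
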