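import Pool.Agent.Work.MP_065141_co.Lead

/-!
# Good energy functions whose loss is the energy minus one

The classification behind the relations of excess one (all energies).
-/

set_option autoImplicit false
set_option linter.unusedSectionVars false
set_option linter.unusedVariables false
open scoped Classical
open Finset Polynomial

namespace Pool.Gauss

variable {α : Type} [Fintype α] [PartialOrder α] {i : ℕ}

/-- a union which has the maximal number of elements is disjoint -/
lemma disjoint_of_card_biUnion {β γ : Type} {s : Finset β} {f : β → Finset γ}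
    (h : ∑ q ∈ s, (f q).card ≤ (s.biUnion f).card) {a b : β} (ha : a ∈ s) (hb : b ∈ s)
    (hab : a ≠ b) : Disjoint (f a) (f b) := by
  rw [Finset.disjoint_left]
  intro y hya hyb
  have h1 : s.biUnion f ⊆ (s.erase b).biUnion f ∪ (f b).erase y := by
    intro t ht
    rw [mem_biUnion] at ht
    obtain ⟨q, hq, ht⟩ := ht
    rw [mem_union, mem_biUnion, mem_erase]
    by_cases h5 : q = b
    · by_cases h6 : t = y
      · left
        exact ⟨a, mem_erase.2 ⟨hab, ha⟩, by rw [h6]; exact hya⟩
      · right
        exact ⟨h6, by rw [← h5]; exact ht⟩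
    · left
      exact ⟨q, mem_erase.2 ⟨h5, hq⟩, ht⟩
  have h2 := (card_le_card h1).trans (card_union_le _ _)
  rw [card_erase_of_mem hyb] at h2
  have h3 : ((s.erase b).biUnion f).card ≤ ∑ q ∈ s.erase b, (f q).card := card_biUnion_le
  have h4 := Finset.sum_erase_add s (fun q => (f q).card) hb
  have h5 := Finset.card_pos.2 ⟨y, hyb⟩
  omega

/-- the equality case of `loss_le` -/
theorem loss_eq (hg : Grad α) (hl : HasLower α i) (hdeg : ∀ p : α, (bd i p).card ≤ 2)
    {ε : α → ℕ} (hε : GoodE i ε)
    (hEq : (Fo i ε).card + (Psh i ε).card ≤ (Yd i ε).card) :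
    (∀ q ∈ Psh i ε, ¬ nd i ε q → (bd i q).card = 2 ∧ ∀ p ∈ bd i q, ε p < ε q) ∧
      ∀ q ∈ Psh i ε, ∀ q' ∈ Psh i ε, q ≠ q' → ∀ p, p ∈ bd i q → p ∈ bd i q' → ε p < ε q →
        ε p < ε q' → False := by
  set Act : Finset α := univ.filter fun q => corank q ≠ i ∧ ¬ nd i ε q with hAct
  have hS := goodS_of_goodE hg hl hε
  set f : α → Finset α := fun q => (bd i q).filter fun p => ε p < ε q with hf
  have h1 : (Yd i ε ∪ Fd i ε).card = (Yd i ε).card + (Fd i ε).card := by
    apply card_union_of_disjoint
    rw [Finset.disjoint_left]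
    intro p hp hp'
    rw [mem_Yd] at hp
    rw [Fd, mem_filter] at hp'
    exact hp'.2.1 hp.1
  have h2 : Act.card = (Fd i ε).card + (Fo i ε).card := by
    rw [← card_union_of_disjoint]
    · congr 1
      ext p
      rw [hAct, mem_filter, mem_union, Fd, Fo, mem_filter, mem_filter]
      simp only [mem_univ, true_and]
      have := hS.1 p
      tauto
    · rw [Finset.disjoint_left]
      intro p hp hp'
      rw [Fd, mem_filter] at hp
      rw [Fo, mem_filter] at hp'
      exact hp'.2.2.1 hp.2.2
  have h3 : Yd i ε ∪ Fd i ε ⊆ (Psh i ε).biUnion f := by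
    intro p hp
    have h4 : fd i ε p := by
      rw [mem_union] at hp
      rcases hp with hp | hp
      · rw [mem_Yd] at hp
        exact hp.2
      · rw [Fd, mem_filter] at hp
        exact hp.2.2
    obtain ⟨q, hq, hq'⟩ := h4
    rw [mem_biUnion]
    exact ⟨q, mem_Psh.2 ⟨p, hq, hq'⟩, mem_filter.2 ⟨mem_bd.2 hq, hq'⟩⟩
  have h4 : ∀ q ∈ Psh i ε, (f q).card ≤ 1 + if q ∈ Act then 1 else 0 := by
    intro q hq
    have h5 := hdeg q
    have h6 : (f q).card ≤ (bd i q).card := card_filter_le _ _
    split_ifs with h7
    · omega
    · obtain ⟨p, hp, _⟩ := mem_Psh.1 hq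
      have h8 : nd i ε q := by
        by_contra h9
        exact h7 (by rw [hAct, mem_filter]; exact ⟨mem_univ _, fr_ne hg hp, h9⟩)
      obtain ⟨t, ht, ht'⟩ := h8
      have h9 : f q ⊆ (bd i q).erase t := by
        intro s hs
        rw [hf] at hs
        simp only [mem_filter] at hs
        rw [mem_erase]
        refine ⟨?_, hs.1⟩
        rintro rfl
        omega
      have h10 := card_le_card h9
      rw [card_erase_of_mem (mem_bd.2 ht)] at h10
      omega
  have h5 : (∑ q ∈ Psh i ε, (1 + if q ∈ Act then 1 else 0)) ≤ (Psh i ε).card + Act.card := by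
    calc ∑ q ∈ Psh i ε, (1 + if q ∈ Act then 1 else 0)
        = (Psh i ε).card + ((Psh i ε).filter fun q => q ∈ Act).card := by
          rw [Finset.sum_add_distrib, ← Finset.card_eq_sum_ones, Finset.sum_boole]
          simp
      _ ≤ (Psh i ε).card + Act.card := by
          apply Nat.add_le_add_left
          apply card_le_card
          intro q hq
          exact (mem_filter.1 hq).2
  have h6 := card_le_card h3
  have h7 : ((Psh i ε).biUnion f).card ≤ ∑ q ∈ Psh i ε, (f q).card := card_biUnion_le
  have h8 := Finset.sum_le_sum h4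
  have h9 : ∑ q ∈ Psh i ε, (f q).card = ∑ q ∈ Psh i ε, (1 + if q ∈ Act then 1 else 0) := by omega
  have h10 := (Finset.sum_eq_sum_iff_of_le h4).1 h9
  constructor
  · intro q hq hnd
    have h11 := h10 q hq
    obtain ⟨p, hp, _⟩ := mem_Psh.1 hq
    rw [if_pos (by rw [hAct, mem_filter]; exact ⟨mem_univ _, fr_ne hg hp, hnd⟩)] at h11
    have h12 : (f q).card ≤ (bd i q).card := card_filter_le _ _
    have h13 := hdeg q
    have h14 : (bd i q).card = 2 := by omega
    refine ⟨h14, fun p hp => ?_⟩
    have h15 : f q = bd i q := Finset.eq_of_subset_of_card_le (filter_subset _ _) (by omega)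
    rw [← h15] at hp
    exact (mem_filter.1 hp).2
  · intro q hq q' hq' hne p hp hp' h11 h12
    have h13 := disjoint_of_card_biUnion (f := f) (by omega) hq hq' hne
    exact Finset.disjoint_left.1 h13 (mem_filter.2 ⟨hp, h11⟩) (mem_filter.2 ⟨hp', h12⟩)

/-- the sets of double elements whose pairs are disjoint away from `y` -/
def Att (i : ℕ) (y : α) (A : Finset α) : Prop :=
  (∀ p ∈ A, ds i p = 1 ∧ (bd i p).card = 2) ∧
    ∀ p ∈ A, ∀ p' ∈ A, p ≠ p' → Disjoint ((bd i p).erase y) ((bd i p').erase y)

/-- the sets of elements next to level `i`, one element short of a matching -/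
def Ovl (i : ℕ) (A : Finset α) : Prop :=
  (∀ p ∈ A, ds i p = 1) ∧ (A.biUnion (bd i)).card + 1 = 2 * A.card ∧
    ∀ p ∈ A, ∀ p' ∈ A, ∀ y, y ∈ bd i p → y ∈ bd i p' →
      (corank p < i ∧ corank p' < i) ∨ (i < corank p ∧ i < corank p')

/-- energy functions which are the indicator of their dominating elements -/
lemma psh_ds_one (hg : Grad α) (hl : HasLower α i) {ε : α → ℕ} (hε : GoodE i ε) {q : α}
    (hq : q ∈ Psh i ε) (h1 : ε q = 1) : ds i q = 1 := by
  obtain ⟨p, hp, hp'⟩ := mem_Psh.1 hq
  have h4 := fr_ds hg hp
  by_contra h5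
  have h6 : corank p ≠ i := by
    intro h7
    rw [ds_eq_zero.2 h7] at h4
    omega
  have h7 := closure hg hl hε hp h6 (by omega)
  omega

/-- an element which does not dominate any nearer neighbour -/
lemma not_psh {ε : α → ℕ} {q p : α} (hq : q ∉ Psh i ε) (hp : p ∈ bd i q) : ε q ≤ ε p := by
  by_contra h
  exact hq (mem_Psh.2 ⟨p, mem_bd.1 hp, by omega⟩)

/-- **classification of the good energy functions of excess one** -/
theorem exc_one (hg : Grad α) (hl : HasLower α i) (hdeg : ∀ p : α, (bd i p).card ≤ 2)
    {ε : α → ℕ} (hε : GoodE i ε) (hloss : ∑ p, ε p + (Fo i ε).card = (Yd i ε).card + 1) :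
    (∃ y A, corank y = i ∧ Att i y A ∧ ε = ind (insert y A)) ∨
    (∃ A q, Mch i A ∧ q ∈ A ∧ ε = ind A + ind {q}) ∨
    (∃ A, Ovl i A ∧ ε = ind A) ∨
    (∃ A v, Mch i A ∧ ds i v = 2 ∧ bd i v ⊆ A ∧ ε = ind (insert v A)) ∨
    (∃ A v, Mch i A ∧ ds i v = 2 ∧ (bd i v).card = 2 ∧ bd i v ⊆ A ∧
      ε = ind (insert v A) + ind {v}) := by
  have h1 := loss_le hg hl hdeg hε
  have h2 := card_Psh_le (i := i) (ε := ε)
  have hpos : ∀ p ∈ Psh i ε, 0 < ε p := by
    intro p hp
    obtain ⟨q, _, hq⟩ := mem_Psh.1 hp
    omega
  rcases Nat.eq_or_lt_of_le h2 with h3 | h3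
  · -- the indicator of the dominating elements
    have h4 : ε = ind (Psh i ε) := eq_ind hpos h3.ge
    have hds : ∀ q ∈ Psh i ε, ds i q = 1 := fun q hq =>
      psh_ds_one hg hl hε hq (by rw [h4, ind_mem hq])
    right; right; left
    refine ⟨Psh i ε, ⟨hds, ?_, ?_⟩, h4⟩
    · have hQ : ∀ q ∈ (∅ : Finset α), ds i q = 2 := by simp
      have hZ : ∀ y ∈ (∅ : Finset α), corank y = i := by simp
      have hQA : ∀ q ∈ (∅ : Finset α), bd i q ⊆ Psh i ε := by simp
      have he : ∅ ∪ Psh i ε ∪ ∅ = Psh i ε := by rw [empty_union, union_empty]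
      have hFo := cfg_Fo hg hl hQ hds hZ hQA
      have hYd := cfg_Yd hg hQ hds hZ
      rw [he, ← h4] at hFo hYd
      have hFo' : ((Psh i ε).filter fun p => Disjoint (bd i p) (∅ : Finset α)) = Psh i ε :=
        Finset.filter_true_of_mem fun p _ => Finset.disjoint_empty_right _
      rw [hFo'] at hFo
      rw [sdiff_empty] at hYd
      rw [← hYd]
      have h5 := congrArg Finset.card hFo
      omega
    · intro p hp p' hp' y hy hy'
      have h5 : corank y = i := bd_lev hg (hds p hp) hy
      have h6 : ε y = 0 := by
        by_contra h7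
        have h8 : y ∈ Psh i ε := by
          rw [h4] at h7
          exact ind_pos.1 (Nat.pos_of_ne_zero h7)
        have := hds y h8
        rw [ds_eq_zero.2 h5] at this
        omega
      exact same_side hg hε h5 (mem_bd.1 hy) (mem_bd.1 hy')
        (by have := hpos p hp; omega) (by have := hpos p' hp'; omega)
  · -- one more unit of energy
    have h5 : ∑ p, ε p = (Psh i ε).card + 1 := by omega
    obtain ⟨hE1, hE2⟩ := loss_eq hg hl hdeg hε (by omega)
    rcases eq_ind_or hpos h5.le with h4 | ⟨t, h4⟩
    · exfalso
      have h6 : ∑ p, ε p = (Psh i ε).card := by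
        conv_lhs => rw [h4]
        exact sum_ind _
      omega
    have hval : ∀ p, p ≠ t → ε p = ind (Psh i ε) p := by
      intro p hp
      conv_lhs => rw [h4]
      rw [Pi.add_apply, ind_notMem (T := {t}) (by rwa [mem_singleton]), add_zero]
    have hvalt : ε t = ind (Psh i ε) t + 1 := by
      conv_lhs => rw [h4]
      rw [Pi.add_apply, ind_mem (T := {t}) (mem_singleton_self t)]
    have hds : ∀ q ∈ Psh i ε, q ≠ t → ds i q = 1 := fun q hq hqt =>
      psh_ds_one hg hl hε hq (by rw [hval q hqt, ind_mem hq])
    by_cases ht : t ∈ Psh i ε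
    · -- one element has the value two
      have ht2 : ε t = 2 := by rw [hvalt, ind_mem ht]
      -- level `i` is not excited
      have hlev : ∀ y, corank y = i → ε y = 0 := by
        intro y hy
        have hyP : y ∉ Psh i ε := by
          intro h6
          obtain ⟨p, hp, _⟩ := mem_Psh.1 h6
          exact fr_ne hg hp hy
        rw [hval y (by rintro rfl; exact hyP ht), ind_notMem hyP]
      have hmch : ∀ q ∈ Psh i ε, ds i q = 1 → (bd i q).card = 2 := by
        intro q hq hq1
        refine (hE1 q hq ?_).1
        rintro ⟨y, hy, hy'⟩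
        have h6 := hlev y (bd_lev hg hq1 (mem_bd.2 hy))
        have := hpos q hq
        omega
      have hdis : ∀ q ∈ Psh i ε, ∀ q' ∈ Psh i ε, ds i q = 1 → ds i q' = 1 → q ≠ q' →
          Disjoint (bd i q) (bd i q') := by
        intro q hq q' hq' h6 h7 hne
        rw [Finset.disjoint_left]
        intro y hy hy'
        have h8 := hlev y (bd_lev hg h6 hy)
        exact hE2 q hq q' hq' hne y hy hy' (by have := hpos q hq; omega)
          (by have := hpos q' hq'; omega)
      by_cases hdt : ds i t = 1
      · right; left
        have hall : ∀ q ∈ Psh i ε, ds i q = 1 := by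
          intro q hq
          by_cases hqt : q = t
          · rw [hqt]; exact hdt
          · exact hds q hq hqt
        exact ⟨Psh i ε, t, ⟨fun q hq => ⟨hall q hq, hmch q hq (hall q hq)⟩,
          fun q hq q' hq' hne => hdis q hq q' hq' (hall q hq) (hall q' hq') hne⟩, ht, h4⟩
      · -- distance at least two
        right; right; right; right
        obtain ⟨p0, hp0, hp0'⟩ := mem_Psh.1 ht
        have hnear : ∀ p ∈ bd i t, p ∈ Psh i ε ∧ p ≠ t ∧ ds i p = 1 ∧ ε p = 1 := by
          intro p hp
          have h6 := fr_ds hg (mem_bd.1 hp)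
          have h7 : corank p ≠ i := by
            intro h8
            rw [ds_eq_zero.2 h8] at h6
            omega
          have h8 := closure hg hl hε (mem_bd.1 hp) h7 (by omega)
          have h9 : p ≠ t := by
            rintro rfl
            omega
          have h10 : p ∈ Psh i ε := by
            rw [hval p h9] at h8
            exact ind_pos.1 h8
          exact ⟨h10, h9, hds p h10 h9, by rw [hval p h9, ind_mem h10]⟩
        have hdt2 : ds i t = 2 := by
          have h6 := fr_ds hg hp0
          have h7 := (hnear p0 (mem_bd.2 hp0)).2.2.1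
          omega
        have hnd : ¬ nd i ε t := by
          rintro ⟨p, hp, hp'⟩
          have := (hnear p (mem_bd.2 hp)).2.2.2
          omega
        have hcard := (hE1 t ht hnd).1
        set A := (Psh i ε).erase t with hA
        have hins : insert t A = Psh i ε := by rw [hA, insert_erase ht]
        refine ⟨A, t, ⟨fun q hq => ?_, fun q hq q' hq' hne => ?_⟩, hdt2, hcard, ?_, ?_⟩
        · rw [hA, mem_erase] at hq
          have h6 := hds q hq.2 hq.1
          exact ⟨h6, hmch q hq.2 h6⟩
        · rw [hA, mem_erase] at hq hq'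
          exact hdis q hq.2 q' hq'.2 (hds q hq.2 hq.1) (hds q' hq'.2 hq'.1) hne
        · intro p hp
          obtain ⟨h6, h7, _⟩ := hnear p hp
          rw [hA, mem_erase]
          exact ⟨h7, h6⟩
        · rw [hins]
          exact h4
    · -- one more excited element
      have ht1 : ε t = 1 := by rw [hvalt, ind_notMem ht]
      have hall : ∀ q ∈ Psh i ε, ds i q = 1 := by
        intro q hq
        exact hds q hq (by rintro rfl; exact ht hq)
      have hval1 : ∀ q ∈ Psh i ε, ε q = 1 := by
        intro q hq
        rw [hval q (by rintro rfl; exact ht hq), ind_mem hq]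
      have heq : ε = ind (insert t (Psh i ε)) := by
        funext p
        by_cases hp : p = t
        · rw [hp, ht1, ind_mem (mem_insert_self _ _)]
        · rw [hval p hp]
          unfold ind
          simp [hp]
      have hlev : ∀ y, corank y = i → y ≠ t → ε y = 0 := by
        intro y hy hyt
        have hyP : y ∉ Psh i ε := by
          intro h6
          have := hall y h6
          rw [ds_eq_zero.2 hy] at this
          omega
        rw [hval y hyt, ind_notMem hyP]
      by_cases hti : corank t = i
      · left
        refine ⟨t, Psh i ε, hti, ⟨fun p hp => ⟨hall p hp, ?_⟩, fun p hp p' hp' hne => ?_⟩, heq⟩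
        · by_cases h6 : t ∈ bd i p
          · -- the other neighbour is dominated
            obtain ⟨y, hy, hy'⟩ := mem_Psh.1 hp
            have h7 : y ≠ t := by
              rintro rfl
              have := hval1 p hp
              omega
            have h8 : ({t, y} : Finset α) ⊆ bd i p := by
              intro z hz
              rw [mem_insert, mem_singleton] at hz
              rcases hz with rfl | rfl
              · exact h6
              · exact mem_bd.2 hy
            have h9 := card_le_card h8
            rw [card_pair h7.symm] at h9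
            have := hdeg p
            omega
          · refine (hE1 p hp ?_).1
            rintro ⟨y, hy, hy'⟩
            have h7 := hlev y (bd_lev hg (hall p hp) (mem_bd.2 hy))
              (by rintro rfl; exact h6 (mem_bd.2 hy))
            have := hpos p hp
            omega
        · rw [Finset.disjoint_left]
          intro y hy hy'
          rw [mem_erase] at hy hy'
          have h7 := hlev y (bd_lev hg (hall p hp) hy.2) hy.1
          exact hE2 p hp p' hp' hne y hy.2 hy'.2 (by have := hpos p hp; omega)
            (by have := hpos p' hp'; omega)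
      · right; right; right; left
        obtain ⟨p0, hp0⟩ := exists_near hg hl hti
        have hnear : ∀ p ∈ bd i t, p ∈ Psh i ε := by
          intro p hp
          have h6 := not_psh ht hp
          have h7 : p ≠ t := by
            rintro rfl
            have := fr_ds hg (mem_bd.1 hp)
            omega
          have h8 : 0 < ε p := by omega
          rw [hval p h7] at h8
          exact ind_pos.1 h8
        have hdt2 : ds i t = 2 := by
          have h6 := fr_ds hg hp0
          have h7 := hall p0 (hnear p0 (mem_bd.2 hp0))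
          omega
        refine ⟨Psh i ε, t, ⟨fun p hp => ⟨hall p hp, ?_⟩, fun p hp p' hp' hne => ?_⟩, hdt2, hnear,
          heq⟩
        · refine (hE1 p hp ?_).1
          rintro ⟨y, hy, hy'⟩
          have h7 := bd_lev hg (hall p hp) (mem_bd.2 hy)
          have h8 := hlev y h7 (by rintro rfl; exact hti h7)
          have := hpos p hp
          omega
        · rw [Finset.disjoint_left]
          intro y hy hy'
          have h7 := bd_lev hg (hall p hp) hy
          have h8 := hlev y h7 (by rintro rfl; exact hti h7)
          exact hE2 p hp p' hp' hne y hy hy' (by have := hpos p hp; omega)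
            (by have := hpos p' hp'; omega)

end Pool.Gauss
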