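import Pool.Agent.Work.MP_065141_co.K.KOne0
import Pool.Agent.Work.MP_065141_co.K.LeadM
import Pool.Agent.Work.MP_065141_co.K.KOne1

/-!
# The data of the energy functions of excess one
-/

set_option autoImplicit false
set_option linter.unusedSectionVars false
set_option linter.unusedVariables false
open scoped Classical
open Finset Polynomial

namespace Pool.Gauss

variable {α : Type} [Fintype α] [PartialOrder α] {i : ℕ}

lemma sgn0_sq (i : ℕ) (p : α) : sgn0 i p * sgn0 i p = 1 := by
  unfold sgn0
  split_ifs <;> norm_num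

/-- the number of elements which are in -/
lemma card_inF (hg : Grad α) (hl : HasLower α i) {ε : α → ℕ} (hε : GoodE i ε) :
    (inF i ε).card + ((Fd i ε).filter fun p => corank p < i).card +
      ((Fo i ε).filter fun p => corank p < i).card =
    (low α i).card + (Yin i ε).card + ((Fd i ε).filter fun p => i < corank p).card := by
  have hab : ((low α i).filter fun p => inE i ε p).card + ((Fd i ε).filter fun p => corank p < i).card
      + ((Fo i ε).filter fun p => corank p < i).card = (low α i).card := by
    rw [← card_union_of_disjoint, ← card_union_of_disjoint]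
    · congr 1
      ext p
      rw [mem_union, mem_union, mem_filter, mem_filter, mem_filter, mem_low, Fd, Fo, mem_filter,
        mem_filter]
      simp only [mem_univ, true_and]
      constructor
      · rintro ((⟨h, _⟩ | ⟨_, h⟩) | ⟨_, h⟩)
        · exact h
        · exact h
        · exact h
      · intro h
        have h1 := nd_above hg hl hε h
        have h2 : corank p ≠ i := by omega
        tauto
    · rw [Finset.disjoint_left]
      intro p hp hp'
      rw [mem_union, mem_filter, mem_filter, mem_low, Fd, mem_filter] at hp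
      rw [mem_filter, Fo, mem_filter] at hp'
      obtain ⟨⟨_, h1, h2, h3⟩, h4⟩ := hp'
      rw [nd_above hg hl hε h4] at h3
      tauto
    · rw [Finset.disjoint_left]
      intro p hp hp'
      rw [mem_filter, mem_low] at hp
      rw [mem_filter, Fd, mem_filter] at hp'
      exact hε p ⟨hp.2, (fd_above hg hp.1).1 hp'.1.2.2⟩
  have hin : inF i ε = (((low α i).filter fun p => inE i ε p) ∪ Yin i ε) ∪
      ((Fd i ε).filter fun p => i < corank p) := by
    ext p
    unfold inF Yin
    rw [mem_union, mem_union, mem_filter, mem_filter, mem_filter, mem_filter, mem_low, mem_lev,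
      Fd, mem_filter]
    simp only [mem_univ, true_and]
    rcases lt_trichotomy (corank p) i with h1 | h1 | h1
    · constructor
      · intro h
        exact Or.inl (Or.inl ⟨h1, h⟩)
      · rintro ((h | h) | h)
        · exact h.2
        · exact h.2
        · omega
    · constructor
      · intro h
        exact Or.inl (Or.inr ⟨h1, h⟩)
      · rintro ((h | h) | h)
        · exact h.2
        · exact h.2
        · omega
    · have h2 : corank p ≠ i := by omega
      have h3 := fd_below hg (ε := ε) h1
      constructor
      · intro h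
        exact Or.inr ⟨⟨h2, h3.2 h⟩, h1⟩
      · rintro ((h | h) | h)
        · exact h.2
        · exact h.2
        · exact h3.1 h.1.2
  have hcard : (inF i ε).card = ((low α i).filter fun p => inE i ε p).card + (Yin i ε).card +
      ((Fd i ε).filter fun p => i < corank p).card := by
    rw [hin, card_union_of_disjoint, card_union_of_disjoint]
    · rw [Finset.disjoint_left]
      intro p hp hp'
      rw [mem_filter, mem_low] at hp
      rw [Yin, mem_filter, mem_lev] at hp'
      omega
    · rw [Finset.disjoint_left]
      intro p hp hp'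
      rw [mem_union, mem_filter, mem_low, Yin, mem_filter, mem_lev] at hp
      rw [mem_filter] at hp'
      omega
  omega

/-- the loss of a good energy function is at most its energy -/
lemma pk_ge (hg : Grad α) (hl : HasLower α i) (hdeg : ∀ p : α, (bd i p).card ≤ 2)
    {ε : α → ℕ} (hε : GoodE i ε) : (lev α i).card ≤ (pkF i ε).card + ∑ p, ε p := by
  have h4 := card_pkF hg hl hε
  have h5 := loss_le hg hl hdeg hε
  have h6 := card_Psh_le (i := i) (ε := ε)
  omega

/-! ### matchings -/

/-- the number of elements which are in, for a matching -/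
lemma Mch.card_in (hg : Grad α) (hl : HasLower α i) {A : Finset α} (hA : Mch i A) :
    (inF i (ind A)).card + (A.filter fun p => corank p < i).card =
      (low α i).card + 2 * (A.filter fun p => i < corank p).card := by
  have hQ : ∀ q ∈ (∅ : Finset α), ds i q = 2 := by simp
  have hds : ∀ p ∈ A, ds i p = 1 := fun p hp => (hA.1 p hp).1
  have hZ : ∀ y ∈ (∅ : Finset α), corank y = i := by simp
  have hQA : ∀ q ∈ (∅ : Finset α), bd i q ⊆ A := by simp
  have he : ∅ ∪ A ∪ ∅ = A := by rw [empty_union, union_empty]
  have h1 := card_inF hg hl (hA.data hg hl).1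
  have hFo := cfg_Fo hg hl hQ hds hZ hQA
  have hYin := cfg_Yin hg hQ hds hZ
  have hFd := ind_Fd (cfg_nclosed hg hQ hds hZ hQA)
  rw [he] at hFo hYin hFd
  have hFo' : (A.filter fun p => Disjoint (bd i p) (∅ : Finset α)) = A :=
    Finset.filter_true_of_mem fun p _ => Finset.disjoint_empty_right _
  rw [hFo'] at hFo
  rw [sdiff_empty] at hYin
  rw [hFo, hYin, hFd, filter_empty, filter_empty, card_empty,
    (hA.mono (filter_subset _ _)).card_biUnion] at h1
  omega

/-- a matching with one element of value two has the same statuses -/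
lemma mch2_data (hg : Grad α) (hl : HasLower α i) {A : Finset α} (hA : Mch i A) {q : α}
    (hq : q ∈ A) : GoodE i (ind A + ind {q}) ∧
      (pkF i (ind A + ind {q})).card + A.card = (lev α i).card ∧
      (-1 : ℤ) ^ (inF i (ind A + ind {q})).card = (-1) ^ (low α i).card * ∏ p ∈ A, sgn0 i p := by
  have hds : ∀ p ∈ A, ds i p = 1 := fun p hp => (hA.1 p hp).1
  set ε : α → ℕ := ind A + ind {q} with hε
  have v0 : ∀ p, p ∉ A → ε p = 0 := by
    intro p hp
    rw [hε, Pi.add_apply, ind_notMem hp, ind_notMem]
    rw [mem_singleton]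
    rintro rfl
    exact hp hq
  have v1 : ∀ p, p ∈ A → 0 < ε p := by
    intro p hp
    rw [hε, Pi.add_apply, ind_mem hp]
    omega
  -- comparisons
  have hlt : ∀ p r, fr i p r → (ε p < ε r ↔ ind A p < ind A r) := by
    intro p r h
    have h1 := fr_ds hg h
    by_cases hr : r ∈ A
    · have h2 : p ∉ A := by
        intro h3
        have := hds p h3
        have := hds r hr
        omega
      rw [v0 p h2, ind_notMem h2, ind_mem hr]
      have := v1 r hr
      omega
    · rw [v0 r hr, ind_notMem hr]
      omega
  have hle : ∀ p r, fr i p r → (ε r ≤ ε p ↔ ind A r ≤ ind A p) := by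
    intro p r h
    have h1 := hlt p r h
    omega
  have hfd : ∀ p, fd i ε p ↔ fd i (ind A) p := by
    intro p
    unfold fd
    apply exists_congr
    intro r
    apply and_congr_right
    intro h
    exact hlt p r h
  have hnd : ∀ p, nd i ε p ↔ nd i (ind A) p := by
    intro p
    unfold nd
    apply exists_congr
    intro r
    apply and_congr_right
    intro h
    exact hle r p h
  have hin : ∀ y, corank y = i → (inE i ε y ↔ inE i (ind A) y) := by
    intro y hy
    rw [inE_lev hy, inE_lev hy]
    apply exists_congr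
    intro r
    apply and_congr_right
    intro h
    exact hlt y r (fr_of_below hy.ge h)
  have hout : ∀ y, corank y = i → (outE i ε y ↔ outE i (ind A) y) := by
    intro y hy
    rw [outE_lev hy, outE_lev hy]
    apply exists_congr
    intro r
    apply and_congr_right
    intro h
    exact hlt y r (fr_of_above hy.le h)
  obtain ⟨g1, g2, g3⟩ := hA.data hg hl
  have hS := goodS_of_goodE hg hl g1
  have hgood : GoodE i ε := by
    apply goodE_of_goodS hg hl
    refine ⟨fun p hp => ?_, fun y hy => ?_⟩
    · rw [hfd, hnd]
      exact hS.1 p hp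
    · rw [hin y hy, hout y hy]
      exact hS.2 y hy
  have eFo : Fo i ε = Fo i (ind A) := by
    unfold Fo
    simp only [hfd, hnd]
  have eFd : Fd i ε = Fd i (ind A) := by
    unfold Fd
    simp only [hfd]
  have eYd : Yd i ε = Yd i (ind A) := by
    unfold Yd
    simp only [hfd]
  have eYin : Yin i ε = Yin i (ind A) := by
    unfold Yin
    apply filter_congr
    intro y hy
    exact hin y (mem_lev.1 hy)
  have p1 := card_pkF hg hl hgood
  have p2 := card_pkF hg hl g1
  have s1 := sign_inF hg hl hgood
  have s2 := sign_inF hg hl g1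
  rw [eFo, eYd] at p1
  rw [eFd, eFo, eYin, ← s2, g3] at s1
  refine ⟨hgood, by omega, ?_⟩
  rw [s1, prod_sgn0]

/-! ### an excited element of level `i` -/

/-- weight of an element next to level `i` when `y` is excited -/
noncomputable def wy (i : ℕ) (y p : α) : ℤ := if y ∈ bd i p then -sgn0 i p else sgn0 i p

lemma att_notMem {y : α} {A : Finset α} (hy : corank y = i) (hA : Att i y A) : y ∉ A := by
  intro h
  have := (hA.1 y h).1
  rw [ds_eq_zero.2 hy] at this
  omega

lemma att_data (hg : Grad α) (hl : HasLower α i) {y : α} {A : Finset α} (hy : corank y = i)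
    (hA : Att i y A) : GoodE i (ind (insert y A)) ∧
      (pkF i (ind (insert y A))).card + A.card = (lev α i).card ∧
      (-1 : ℤ) ^ (inF i (ind (insert y A))).card =
        (-1) ^ (low α i).card * ∏ p ∈ A, wy i y p := by
  have hQ : ∀ q ∈ (∅ : Finset α), ds i q = 2 := by simp
  have hds : ∀ p ∈ A, ds i p = 1 := fun p hp => (hA.1 p hp).1
  have hZ : ∀ z ∈ ({y} : Finset α), corank z = i := by
    intro z hz
    rw [mem_singleton] at hz
    rw [hz]
    exact hy
  have hQA : ∀ q ∈ (∅ : Finset α), bd i q ⊆ A := by simp
  have hside : ∀ p ∈ A, ∀ p' ∈ A, corank p < i → i < corank p' →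
      ∀ z, z ∈ bd i p → z ∈ bd i p' → z ∈ ({y} : Finset α) := by
    intro p hp p' hp' h1 h2 z hz hz'
    rw [mem_singleton]
    by_contra h3
    have h4 : p ≠ p' := by
      rintro rfl
      omega
    exact Finset.disjoint_left.1 (hA.2 p hp p' hp' h4) (mem_erase.2 ⟨h3, hz⟩)
      (mem_erase.2 ⟨h3, hz'⟩)
  have he : ∅ ∪ A ∪ {y} = insert y A := by
    rw [empty_union, union_comm]
    rfl
  have h1 := cfg_good hg hl hQ hds hZ hQA hside
  have h2 := cfg_Fo hg hl hQ hds hZ hQA
  have h3 := cfg_Yd hg hQ hds hZ
  have h4 := cfg_Yin hg hQ hds hZ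
  have h8 := ind_Fd (cfg_nclosed hg hQ hds hZ hQA)
  rw [he] at h1 h2 h3 h4 h8
  have h5 := card_pkF hg hl h1
  have h6 := sign_inF hg hl h1
  -- the sizes
  have key : ∀ B : Finset α, B ⊆ A → (B.biUnion (bd i) \ {y}).card =
      2 * (B.filter fun p => y ∉ bd i p).card + (B.filter fun p => y ∈ bd i p).card := by
    intro B hB
    have e1 : B.biUnion (bd i) \ {y} = B.biUnion fun p => (bd i p).erase y := by
      ext z
      simp only [mem_sdiff, mem_biUnion, mem_singleton, mem_erase]
      constructor
      · rintro ⟨⟨p, hp, hz⟩, hne⟩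
        exact ⟨p, hp, hne, hz⟩
      · rintro ⟨p, hp, hne, hz⟩
        exact ⟨⟨p, hp, hz⟩, hne⟩
    have e2 : ∀ p ∈ B, ((bd i p).erase y).card = if y ∈ bd i p then 1 else 2 := by
      intro p hp
      rw [card_erase_eq_ite, (hA.1 p (hB hp)).2]
    rw [e1, card_biUnion (fun p hp p' hp' h => hA.2 p (hB hp) p' (hB hp') h),
      Finset.sum_congr rfl e2, Finset.sum_ite, Finset.sum_const, Finset.sum_const]
    simp only [smul_eq_mul]
    ring
  have hD : (A.filter fun p => Disjoint (bd i p) {y}) = A.filter fun p => y ∉ bd i p := by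
    apply filter_congr
    intro p _
    rw [disjoint_singleton_right]
  rw [hD] at h2
  have hsplit := Finset.card_filter_add_card_filter_not (s := A) (fun p => y ∈ bd i p)
  refine ⟨h1, ?_, ?_⟩
  · rw [h2, h3, key A subset_rfl] at h5
    omega
  · rw [h6, h8, h2, h4, key _ (filter_subset _ _), card_empty, pow_zero, one_mul]
    congr 1
    -- product form
    have e3 : ∏ p ∈ A, wy i y p =
        ∏ p ∈ A, ((if corank p < i ∧ y ∉ bd i p then (-1 : ℤ) else 1) *
          (if i < corank p ∧ y ∈ bd i p then (-1 : ℤ) else 1)) := by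
      apply prod_congr rfl
      intro p hp
      have h9 := (hA.1 p hp).1
      unfold wy sgn0
      unfold ds at h9
      by_cases c1 : y ∈ bd i p
      · by_cases c2 : corank p < i
        · simp [c1, c2, not_lt.2 c2.le]
        · have c3 : i < corank p := by omega
          simp [c1, c2, c3]
      · by_cases c2 : corank p < i
        · simp [c1, c2]
        · simp [c1, c2]
    rw [e3, prod_mul_distrib, prod_ite, prod_ite]
    simp only [prod_const, prod_const_one, mul_one, one_pow]
    have e4 : ((A.filter fun p => y ∉ bd i p).filter fun p => corank p < i) =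
        A.filter fun p => corank p < i ∧ y ∉ bd i p := by
      rw [filter_filter]
      apply filter_congr
      intro p _
      exact and_comm
    have e5 : ((A.filter fun p => i < corank p).filter fun p => y ∈ bd i p) =
        A.filter fun p => i < corank p ∧ y ∈ bd i p := by
      rw [filter_filter]
    rw [e4, e5, pow_add, pow_mul]
    norm_num

/-! ### one element short of a matching -/

/-- the sign of a set of elements next to level `i` -/
noncomputable def sO (i : ℕ) (A : Finset α) : ℤ := (-1) ^ (A.filter fun p => corank p < i).card *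
  (-1) ^ ((A.filter fun p => i < corank p).biUnion (bd i)).card

lemma ovl_data (hg : Grad α) (hl : HasLower α i) {A : Finset α} (hA : Ovl i A) :
    GoodE i (ind A) ∧ (pkF i (ind A)).card + A.card = (lev α i).card + 1 ∧
      (-1 : ℤ) ^ (inF i (ind A)).card = (-1) ^ (low α i).card * sO i A := by
  have hQ : ∀ q ∈ (∅ : Finset α), ds i q = 2 := by simp
  have hds : ∀ p ∈ A, ds i p = 1 := hA.1
  have hZ : ∀ y ∈ (∅ : Finset α), corank y = i := by simp
  have hQA : ∀ q ∈ (∅ : Finset α), bd i q ⊆ A := by simp
  have hside : ∀ p ∈ A, ∀ p' ∈ A, corank p < i → i < corank p' →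
      ∀ y, y ∈ bd i p → y ∈ bd i p' → y ∈ (∅ : Finset α) := by
    intro p hp p' hp' h1 h2 y hy hy'
    exfalso
    have := hA.2.2 p hp p' hp' y hy hy'
    omega
  have he : ∅ ∪ A ∪ ∅ = A := by rw [empty_union, union_empty]
  have h1 := cfg_good hg hl hQ hds hZ hQA hside
  have h2 := cfg_free hg hl hQ hds hZ hQA hside rfl
  rw [he] at h1 h2
  have h3 := hA.2.1
  exact ⟨h1, by omega, h2.2⟩

/-! ### an element at distance two -/

lemma vv_data (hg : Grad α) (hl : HasLower α i) {A : Finset α} (hA : Mch i A) {v : α}
    (hv : ds i v = 2) (hvA : bd i v ⊆ A) : GoodE i (ind (insert v A)) ∧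
      (pkF i (ind (insert v A))).card + A.card = (lev α i).card ∧
      (-1 : ℤ) ^ (inF i (ind (insert v A))).card =
        (-1) ^ (low α i).card * ∏ p ∈ A, sgn0 i p := by
  have hQ : ∀ q ∈ ({v} : Finset α), ds i q = 2 := by
    intro q hq
    rw [mem_singleton] at hq
    rw [hq]
    exact hv
  have hds : ∀ p ∈ A, ds i p = 1 := fun p hp => (hA.1 p hp).1
  have hZ : ∀ y ∈ (∅ : Finset α), corank y = i := by simp
  have hQA : ∀ q ∈ ({v} : Finset α), bd i q ⊆ A := by
    intro q hq
    rw [mem_singleton] at hq
    rw [hq]
    exact hvA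
  have hside : ∀ p ∈ A, ∀ p' ∈ A, corank p < i → i < corank p' →
      ∀ y, y ∈ bd i p → y ∈ bd i p' → y ∈ (∅ : Finset α) := by
    intro p hp p' hp' h1 h2 y hy hy'
    exfalso
    have h3 : p ≠ p' := by
      rintro rfl
      omega
    exact Finset.disjoint_left.1 (hA.2 p hp p' hp' h3) hy hy'
  have he : {v} ∪ A ∪ ∅ = insert v A := by
    rw [union_empty]
    rfl
  have h1 := cfg_good hg hl hQ hds hZ hQA hside
  have h2 := cfg_free hg hl hQ hds hZ hQA hside rfl
  rw [he] at h1 h2
  have h3 := hA.card_biUnion
  refine ⟨h1, by omega, ?_⟩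
  rw [h2.2, (hA.mono (filter_subset _ _)).card_biUnion, pow_mul (-1 : ℤ) 2, prod_sgn0]
  norm_num

/-- the element at distance two with value two -/
lemma vv2_data (hg : Grad α) (hl : HasLower α i) {A : Finset α} (hA : Mch i A) {v : α}
    (hv : ds i v = 2) (hv2 : (bd i v).card = 2) (hvA : bd i v ⊆ A) : GoodE i (cfWt v A) ∧
      (pkF i (cfWt v A)).card + (A.card + 1) = (lev α i).card ∧
      (-1 : ℤ) ^ (inF i (cfWt v A)).card =
        (-1) ^ (low α i).card * (sgn0 i v * ∏ p ∈ A, sgn0 i p) := by
  have hds : ∀ p ∈ A, ds i p = 1 := fun p hp => (hA.1 p hp).1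
  have hside : ∀ p ∈ A, ∀ p' ∈ A, corank p < i → i < corank p' → Disjoint (bd i p) (bd i p') := by
    intro p hp p' hp' h1 h2
    apply hA.2 p hp p' hp'
    rintro rfl
    omega
  have h1 := cfWt_good hg hl hv hds hvA hside
  have hFo := cfWt_Fo hg hl hv hds hvA
  have hFd := cfWt_Fd hg hv hds hvA
  have hYd := cfWt_Yd hg hv hds
  have hYin := cfWt_Yin hg hv hds
  have hpk := card_pkF hg hl h1
  have hsgn := sign_inF hg hl h1
  have hvn : v ∉ A := cfWt_not_mem hv hds
  have hc : (A \ bd i v).card + 2 = A.card := by
    rw [card_sdiff_of_subset hvA, hv2]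
    have := card_le_card hvA
    omega
  have hnot : v ∉ A \ bd i v := fun h => hvn (mem_sdiff.1 h).1
  refine ⟨h1, ?_, ?_⟩
  · rw [hFo, hYd, hA.card_biUnion, card_insert_of_notMem hnot] at hpk
    omega
  · rw [hsgn, hFd, hFo, hYin, hv2, (hA.mono (filter_subset _ _)).card_biUnion, pow_mul (-1 : ℤ) 2,
      filter_insert]
    have e1 : ∏ p ∈ A, sgn0 i p = ∏ p ∈ A \ bd i v, sgn0 i p := by
      rw [← prod_sdiff hvA]
      have e2 : ∏ p ∈ bd i v, sgn0 i p = 1 := by
        obtain ⟨a, b, hab, he⟩ := card_eq_two.1 hv2
        have ha : a ∈ bd i v := by rw [he]; simp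
        have hb : b ∈ bd i v := by rw [he]; simp
        have s1 := (side_of_mem_bd hg hv ha).1
        have s2 := (side_of_mem_bd hg hv hb).1
        rw [he, prod_pair hab]
        have : sgn0 i a = sgn0 i b := by
          unfold sgn0
          simp only [s1, s2]
        rw [this, sgn0_sq]
      rw [e2, mul_one]
    rw [e1, prod_sgn0]
    unfold sgn0
    by_cases c : corank v < i
    · rw [if_pos c, if_pos c, card_insert_of_notMem (fun h => hnot (mem_filter.1 h).1)]
      norm_num
      ring
    · rw [if_neg c, if_neg c]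
      norm_num

end Pool.Gauss
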