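import Pool.Agent.Work.MP_065141_co.K.KOne2

/-!
# The first order relation at a level: all energies `J ≥ 2`, any number of defects
-/

set_option autoImplicit false
set_option linter.unusedSectionVars false
set_option linter.unusedVariables false
open scoped Classical
open Finset Polynomial

namespace Pool.Gauss

variable {α : Type} [Fintype α] [PartialOrder α] {i : ℕ}

/-! ### the index sets -/

/-- matchings with `J` elements -/
noncomputable def SM (i : ℕ) (J : ℕ) : Finset (Finset α) := univ.filter fun A => Mch i A ∧ A.card = J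

/-- an excited element of level `i` and attached elements -/
noncomputable def SA (i : ℕ) (J : ℕ) : Finset (α × Finset α) :=
  univ.filter fun x => corank x.1 = i ∧ Att i x.1 x.2 ∧ x.2.card + 1 = J

/-- sets of elements one short of a matching -/
noncomputable def SO (i : ℕ) (J : ℕ) : Finset (Finset α) := univ.filter fun A => Ovl i A ∧ A.card = J

/-- an excited element at distance two -/
noncomputable def SV (i : ℕ) (J : ℕ) : Finset (α × Finset α) :=
  univ.filter fun x => ds i x.1 = 2 ∧ Mch i x.2 ∧ bd i x.1 ⊆ x.2 ∧ x.2.card + 1 = J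

/-- an element at distance two with value two -/
noncomputable def SW (i : ℕ) (J : ℕ) : Finset (α × Finset α) :=
  univ.filter fun x => ds i x.1 = 2 ∧ (bd i x.1).card = 2 ∧ Mch i x.2 ∧ bd i x.1 ⊆ x.2 ∧
    x.2.card + 2 = J

/-- a matching with one element of value two -/
noncomputable def S2 (i : ℕ) (J : ℕ) : Finset (α × Finset α) :=
  univ.filter fun x => x.1 ∈ x.2 ∧ Mch i x.2 ∧ x.2.card + 1 = J

lemma mem_SM {J : ℕ} {A : Finset α} : A ∈ SM i J ↔ Mch i A ∧ A.card = J := by simp [SM]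
lemma mem_SA {J : ℕ} {x : α × Finset α} :
    x ∈ SA i J ↔ corank x.1 = i ∧ Att i x.1 x.2 ∧ x.2.card + 1 = J := by simp [SA]
lemma mem_SO {J : ℕ} {A : Finset α} : A ∈ SO i J ↔ Ovl i A ∧ A.card = J := by simp [SO]
lemma mem_SV {J : ℕ} {x : α × Finset α} :
    x ∈ SV i J ↔ ds i x.1 = 2 ∧ Mch i x.2 ∧ bd i x.1 ⊆ x.2 ∧ x.2.card + 1 = J := by simp [SV]
lemma mem_SW {J : ℕ} {x : α × Finset α} :
    x ∈ SW i J ↔ ds i x.1 = 2 ∧ (bd i x.1).card = 2 ∧ Mch i x.2 ∧ bd i x.1 ⊆ x.2 ∧
      x.2.card + 2 = J := by simp [SW]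
lemma mem_S2 {J : ℕ} {x : α × Finset α} :
    x ∈ S2 i J ↔ x.1 ∈ x.2 ∧ Mch i x.2 ∧ x.2.card + 1 = J := by simp [S2]

lemma sum_class {β ι : Type} {T : Finset β} {P : β → Prop} [DecidablePred P] {S : Finset ι} {φ : ι → β}
    {c : β → ℤ} (hinj : ∀ x ∈ S, ∀ y ∈ S, φ x = φ y → x = y)
    (h1 : ∀ x ∈ S, φ x ∈ T ∧ P (φ x)) (h2 : ∀ ε ∈ T, P ε → c ε ≠ 0 → ∃ x ∈ S, φ x = ε) :
    ∑ ε ∈ T.filter P, c ε = ∑ x ∈ S, c (φ x) := by
  rw [← Finset.sum_image (g := φ) (f := c) (fun x hx y hy h => hinj x hx y hy h)]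
  symm
  apply Finset.sum_subset
  · intro ε hε
    rw [mem_image] at hε
    obtain ⟨x, hx, rfl⟩ := hε
    exact mem_filter.2 (h1 x hx)
  · intro ε hε hn
    rw [mem_filter] at hε
    by_contra h3
    obtain ⟨x, hx, he⟩ := h2 ε hε.1 hε.2 h3
    exact hn (mem_image.2 ⟨x, hx, he⟩)

/-! ### the classes of energy functions -/

/-- level `i` is excited -/
def ExL (i : ℕ) (ε : α → ℕ) : Prop := ∃ y, corank y = i ∧ 0 < ε y
/-- an element at distance `d` has value `m` -/
def ExD (i d m : ℕ) (ε : α → ℕ) : Prop := ∃ v, ds i v = d ∧ ε v = m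

lemma ind_val {T : Finset α} {p : α} : ind T p = if p ∈ T then 1 else 0 := rfl

section classes

variable {A : Finset α} (hA : ∀ p ∈ A, ds i p = 1)
include hA

lemma kcls_ind : ¬ ExL i (ind A) ∧ (∀ m, 0 < m → ¬ ExD i 2 m (ind A)) ∧ ¬ ExD i 1 2 (ind A) := by
  refine ⟨?_, ?_, ?_⟩
  · rintro ⟨y, hy, h⟩
    have h1 := hA y (ind_pos.1 h)
    rw [ds_eq_zero.2 hy] at h1
    omega
  · rintro m hm ⟨v, hv, h⟩
    have h1 := hA v (ind_pos.1 (by omega))
    omega
  · rintro ⟨q, hq, h⟩
    rw [ind_val] at h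
    split_ifs at h
    omega

lemma kcls_two {q : α} (hq : q ∈ A) : ¬ ExL i (ind A + ind {q}) ∧
    (∀ m, 0 < m → ¬ ExD i 2 m (ind A + ind {q})) ∧ ExD i 1 2 (ind A + ind {q}) := by
  have h0 : ∀ p, 0 < (ind A + ind {q}) p → p ∈ A := by
    intro p hp
    rw [Pi.add_apply] at hp
    by_contra h
    rw [ind_notMem h, ind_notMem] at hp
    · omega
    · rw [mem_singleton]
      rintro rfl
      exact h hq
  refine ⟨?_, ?_, ?_⟩
  · rintro ⟨y, hy, h⟩
    have h1 := hA y (h0 y h)
    rw [ds_eq_zero.2 hy] at h1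
    omega
  · rintro m hm ⟨v, hv, h⟩
    have h1 := hA v (h0 v (by omega))
    omega
  · refine ⟨q, hA q hq, ?_⟩
    rw [Pi.add_apply, ind_mem hq, ind_mem (mem_singleton_self q)]

lemma kcls_V {v : α} (hv : ds i v = 2) : ¬ ExL i (ind (insert v A)) ∧ ExD i 2 1 (ind (insert v A)) := by
  refine ⟨?_, ?_⟩
  · rintro ⟨y, hy, h⟩
    have h1 := ind_pos.1 h
    have h3 := ds_eq_zero.2 hy
    rw [mem_insert] at h1
    rcases h1 with rfl | h1
    · omega
    · have := hA y h1
      omega
  · exact ⟨v, hv, ind_mem (mem_insert_self _ _)⟩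

lemma kcls_W {v : α} (hv : ds i v = 2) : ¬ ExL i (cfWt v A) ∧ ¬ ExD i 2 1 (cfWt v A) ∧
    ExD i 2 2 (cfWt v A) := by
  refine ⟨?_, ?_, ?_⟩
  · rintro ⟨y, hy, h⟩
    rw [cfWt_lev hv hA hy] at h
    omega
  · rintro ⟨u, hu, h⟩
    rcases cfWt_pos (by omega : 0 < cfWt v A u) with h1 | h1
    · rw [h1, cfWt_q] at h
      omega
    · have := hA u h1
      omega
  · exact ⟨v, hv, cfWt_q⟩

end classes

lemma kcls_A {y : α} {A : Finset α} (hy : corank y = i) : ExL i (ind (insert y A)) :=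
  ⟨y, hy, by rw [ind_mem (mem_insert_self _ _)]; omega⟩

lemma cfWt_eq {v : α} {A : Finset α} (hv : v ∉ A) : ind (insert v A) + ind {v} = cfWt v A := by
  funext p
  rw [Pi.add_apply]
  unfold cfWt ind
  by_cases h : p = v
  · simp [h]
  · simp [h]

/-- **the first order relation**, `J ≥ 2` -/
theorem first_order_all {h : Fin (Fintype.card α) → ℕ} (hG : IsGaussianWith α h) (hl : HasLower α i)
    (hdeg : ∀ p : α, (bd i p).card ≤ 2) {J : ℕ} (hJ : 2 ≤ J) :
    ∑ x ∈ SA (α := α) i J, ∏ p ∈ x.2, wy i x.1 p + ∑ A ∈ SO (α := α) i J, sO i A +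
      ∑ x ∈ SV (α := α) i J, ∏ p ∈ x.2, sgn0 i p +
      ∑ x ∈ SW (α := α) i J, sgn0 i x.1 * ∏ p ∈ x.2, sgn0 i p =
    3 * ∑ A ∈ SM (α := α) i J, ((A.filter fun p => i < corank p).card : ℤ) * ∏ p ∈ A, sgn0 i p := by
  have hg := grad hG
  set n := (lev α i).card with hn
  -- the leading relation
  have hlead : ∀ K, 1 ≤ K → ∑ A ∈ SM (α := α) i K, ∏ p ∈ A, sgn0 i p = 0 := by
    intro K hK
    rw [← lead hG hl hdeg hK]
    apply Finset.sum_congr rfl
    intro A _
    rw [prod_sgn0]
  -- large energies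
  rcases Nat.lt_or_ge (n + 1) J with hJn | hJn
  · rw [Finset.sum_eq_zero, Finset.sum_eq_zero, Finset.sum_eq_zero, Finset.sum_eq_zero,
      Finset.sum_eq_zero]
    · norm_num
    · intro A hA
      rw [mem_SM] at hA
      have := hA.1.two_card_le hg
      omega
    · intro x hx
      rw [mem_SW] at hx
      have := (vv2_data hg hl hx.2.2.1 hx.1 hx.2.1 hx.2.2.2.1).2.1
      omega
    · intro x hx
      rw [mem_SV] at hx
      have := (vv_data hg hl hx.2.1 hx.1 hx.2.2.1).2.1
      omega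
    · intro A hA
      rw [mem_SO] at hA
      have := (ovl_data hg hl hA.1).2.1
      omega
    · intro x hx
      rw [mem_SA] at hx
      have := (att_data hg hl hx.1 hx.2.1).2.1
      omega
  have h1 := root_mult_energy hG hg i J
  have h2 := Polynomial.X_pow_dvd_iff.1 h1 (n + 1 - J) (by omega)
  rw [Polynomial.finsetSum_coeff] at h2
  set c : (α → ℕ) → ℤ := fun ε => (tm i ε).coeff (n + 1 - J) with hc
  set T := (univ : Finset α).piAntidiag J with hT
  have hTm : ∀ ε, ε ∈ T ↔ ∑ p, ε p = J := by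
    intro ε
    rw [hT, mem_piAntidiag]
    exact ⟨fun h => h.1, fun h => ⟨h, fun _ _ => mem_univ _⟩⟩
  -- coefficients
  have hc1 : ∀ ε, GoodE i ε → (pkF i ε).card + J = n + 1 → c ε = (-1) ^ (inF i ε).card := by
    intro ε hε hpk
    rw [hc]
    simp only
    rw [tm, if_pos hε]
    have : n + 1 - J = (pkF i ε).card := by omega
    rw [this, coeff_sub_one_mul_self]
  have hc0 : ∀ ε, GoodE i ε → (pkF i ε).card + J = n →
      c ε = -((inF i ε).card * (-1) ^ (inF i ε).card) := by
    intro ε hε hpk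
    rw [hc]
    simp only
    rw [tm, if_pos hε]
    have : n + 1 - J = 1 + (pkF i ε).card := by omega
    rw [this, coeff_mul_X_pow]
    generalize (inF i ε).card = m
    rw [sub_eq_add_neg, ← C_1, ← C_neg, add_pow, finsetSum_coeff]
    rw [Finset.sum_eq_single 1]
    · rcases m with _ | m
      · simp
      · rw [pow_one, ← C_pow, mul_assoc, coeff_X_mul, ← C_eq_natCast, ← C_mul, coeff_C_zero]
        simp only [Nat.choose_one_right, Nat.add_sub_cancel]
        push_cast
        ring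
    · intro b _ hb
      rw [← C_pow, ← C_eq_natCast, mul_assoc, ← C_mul, coeff_mul_C, coeff_X_pow,
        if_neg (fun h => hb h.symm), zero_mul]
    · intro h0
      rw [mem_range, not_lt] at h0
      have : m = 0 := by omega
      subst this
      simp
  have hcne : ∀ ε ∈ T, c ε ≠ 0 → GoodE i ε ∧
      ((pkF i ε).card + J = n ∨ (pkF i ε).card + J = n + 1) := by
    intro ε hε hne
    by_cases hgood : GoodE i ε
    · refine ⟨hgood, ?_⟩
      have h3 := pk_ge hg hl hdeg hgood
      rw [(hTm ε).1 hε, ← hn] at h3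
      have h4 : (pkF i ε).card ≤ n + 1 - J := by
        by_contra h4
        apply hne
        rw [hc]
        simp only
        rw [tm, if_pos hgood]
        exact coeff_sub_one_mul_lt (by omega)
      omega
    · exfalso
      apply hne
      rw [hc]
      simp only
      rw [tm, if_neg hgood, coeff_zero]
  -- the classification
  have hcls : ∀ ε ∈ T, c ε ≠ 0 →
      (∃ A, (Mch i A ∨ Ovl i A) ∧ ε = ind A ∧ A.card = J) ∨
      (∃ y A, corank y = i ∧ Att i y A ∧ ε = ind (insert y A) ∧ A.card + 1 = J) ∨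
      (∃ A q, Mch i A ∧ q ∈ A ∧ ε = ind A + ind {q} ∧ A.card + 1 = J) ∨
      (∃ A v, Mch i A ∧ ds i v = 2 ∧ bd i v ⊆ A ∧ ε = ind (insert v A) ∧ A.card + 1 = J) ∨
      (∃ A v, Mch i A ∧ ds i v = 2 ∧ (bd i v).card = 2 ∧ bd i v ⊆ A ∧ ε = cfWt v A ∧
        A.card + 2 = J) := by
    intro ε hε hne
    obtain ⟨hgood, h3⟩ := hcne ε hε hne
    have h4 := (hTm ε).1 hε
    have h5 := card_pkF hg hl hgood
    rw [← hn] at h5
    rcases h3 with h3 | h3
    · left
      obtain ⟨A, hA, hA'⟩ := mch_of_loss hg hl hdeg hgood (by omega)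
      exact ⟨A, Or.inl hA, hA', by rw [← h4, hA', sum_ind]⟩
    · rcases exc_one hg hl hdeg hgood (by omega) with ⟨y, A, h6, h7, h8⟩ | ⟨A, q, h6, h7, h8⟩ |
        ⟨A, h6, h7⟩ | ⟨A, v, h6, h7, h8, h9⟩ | ⟨A, v, h6, h7, h8, h9, h10⟩
      · right; left
        refine ⟨y, A, h6, h7, h8, ?_⟩
        rw [← h4, h8, sum_ind, card_insert_of_notMem (att_notMem h6 h7)]
      · right; right; left
        refine ⟨A, q, h6, h7, h8, ?_⟩
        rw [← h4, h8]
        simp only [Pi.add_apply]
        rw [Finset.sum_add_distrib, sum_ind, sum_ind, card_singleton]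
      · left
        exact ⟨A, Or.inr h6, h7, by rw [← h4, h7, sum_ind]⟩
      · right; right; right; left
        refine ⟨A, v, h6, h7, h8, h9, ?_⟩
        rw [← h4, h9, sum_ind, card_insert_of_notMem]
        intro h10
        have := (h6.1 v h10).1
        omega
      · right; right; right; right
        have hvA : v ∉ A := cfWt_not_mem h7 fun p hp => (h6.1 p hp).1
        refine ⟨A, v, h6, h7, h8, h9, ?_, ?_⟩
        · rw [h10, cfWt_eq hvA]
        · rw [← h4, h10, cfWt_eq hvA, cfWt_sum h7 fun p hp => (h6.1 p hp).1]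
  -- splitting of the sum
  have e1 := Finset.sum_filter_add_sum_filter_not T (fun ε => ExL i ε) c
  set T1 := T.filter (fun ε => ¬ ExL i ε) with hT1
  have e2 := Finset.sum_filter_add_sum_filter_not T1 (fun ε => ExD i 2 1 ε) c
  set T2 := T1.filter (fun ε => ¬ ExD i 2 1 ε) with hT2
  have e3 := Finset.sum_filter_add_sum_filter_not T2 (fun ε => ExD i 2 2 ε) c
  set T3 := T2.filter (fun ε => ¬ ExD i 2 2 ε) with hT3
  have e4 := Finset.sum_filter_add_sum_filter_not T3 (fun ε => ExD i 1 2 ε) c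
  set T4 := T3.filter (fun ε => ¬ ExD i 1 2 ε) with hT4
  have e5 := Finset.sum_filter_add_sum_filter_not T4 (fun ε => (pkF i ε).card + J = n) c
  -- type A
  have a1 : ∑ ε ∈ T.filter (fun ε => ExL i ε), c ε =
      ∑ x ∈ SA (α := α) i J, c (ind (insert x.1 x.2)) := by
    apply sum_class (φ := fun x : α × Finset α => ind (insert x.1 x.2))
    · rintro ⟨y, A⟩ hx ⟨y', A'⟩ hx' he
      rw [mem_SA] at hx hx'
      have h3 := ind_inj he
      simp only at h3 hx hx'
      have h4 : y = y' := by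
        have h5 : y ∈ insert y' A' := by rw [← h3]; exact mem_insert_self _ _
        rw [mem_insert] at h5
        rcases h5 with h5 | h5
        · exact h5
        · have := (hx'.2.1.1 y h5).1
          rw [ds_eq_zero.2 hx.1] at this
          omega
      subst h4
      have h5 : A = A' := by
        rw [← erase_insert (att_notMem hx.1 hx.2.1), h3, erase_insert (att_notMem hx'.1 hx'.2.1)]
      rw [h5]
    · rintro ⟨y, A⟩ hx
      rw [mem_SA] at hx
      refine ⟨?_, kcls_A hx.1⟩
      rw [hTm, sum_ind, card_insert_of_notMem (att_notMem hx.1 hx.2.1)]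
      exact hx.2.2
    · intro ε hε hP hne
      rcases hcls ε hε hne with ⟨A, h3, h4, h5⟩ | ⟨y, A, h3, h4, h5, h6⟩ | ⟨A, q, h3, h4, h5, h6⟩ |
        ⟨A, v, h3, h4, h5, h6, h7⟩ | ⟨A, v, h3, h4, h5, h6, h7, h8⟩
      · exfalso
        have h6 : ∀ p ∈ A, ds i p = 1 := by
          rcases h3 with h3 | h3
          · exact fun p hp => (h3.1 p hp).1
          · exact h3.1
        rw [h4] at hP
        exact (kcls_ind h6).1 hP
      · exact ⟨(y, A), mem_SA.2 ⟨h3, h4, h6⟩, h5.symm⟩
      · exfalso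
        rw [h5] at hP
        exact (kcls_two (fun p hp => (h3.1 p hp).1) h4).1 hP
      · exfalso
        rw [h6] at hP
        exact (kcls_V (fun p hp => (h3.1 p hp).1) h4).1 hP
      · exfalso
        rw [h7] at hP
        exact (kcls_W (fun p hp => (h3.1 p hp).1) h4).1 hP
  -- type V
  have a2 : ∑ ε ∈ T1.filter (fun ε => ExD i 2 1 ε), c ε =
      ∑ x ∈ SV (α := α) i J, c (ind (insert x.1 x.2)) := by
    apply sum_class (φ := fun x : α × Finset α => ind (insert x.1 x.2))
    · rintro ⟨y, A⟩ hx ⟨y', A'⟩ hx' he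
      rw [mem_SV] at hx hx'
      have h3 := ind_inj he
      simp only at h3 hx hx'
      have n1 : ∀ z, ds i z = 2 → z ∉ A := by
        intro z hz h
        have := (hx.2.1.1 z h).1
        omega
      have n2 : ∀ z, ds i z = 2 → z ∉ A' := by
        intro z hz h
        have := (hx'.2.1.1 z h).1
        omega
      have h4 : y = y' := by
        have h5 : y ∈ insert y' A' := by rw [← h3]; exact mem_insert_self _ _
        rw [mem_insert] at h5
        rcases h5 with h5 | h5
        · exact h5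
        · exact absurd h5 (n2 y hx.1)
      subst h4
      have h5 : A = A' := by
        rw [← erase_insert (n1 y hx.1), h3, erase_insert (n2 y hx.1)]
      rw [h5]
    · rintro ⟨v, A⟩ hx
      rw [mem_SV] at hx
      have h3 := kcls_V (i := i) (A := A) (fun p hp => (hx.2.1.1 p hp).1) hx.1
      refine ⟨?_, h3.2⟩
      rw [hT1, mem_filter]
      refine ⟨?_, h3.1⟩
      rw [hTm, sum_ind, card_insert_of_notMem]
      · exact hx.2.2.2
      · intro h
        have := (hx.2.1.1 v h).1
        simp only at hx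
        omega
    · intro ε hε hP hne
      rw [hT1, mem_filter] at hε
      rcases hcls ε hε.1 hne with ⟨A, h3, h4, h5⟩ | ⟨y, A, h3, h4, h5, h6⟩ |
        ⟨A, q, h3, h4, h5, h6⟩ | ⟨A, v, h3, h4, h5, h6, h7⟩ | ⟨A, v, h3, h4, h5, h6, h7, h8⟩
      · exfalso
        have h6 : ∀ p ∈ A, ds i p = 1 := by
          rcases h3 with h3 | h3
          · exact fun p hp => (h3.1 p hp).1
          · exact h3.1
        rw [h4] at hP
        exact (kcls_ind h6).2.1 1 (by omega) hP
      · exfalso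
        rw [h5] at hε
        exact hε.2 (kcls_A h3)
      · exfalso
        rw [h5] at hP
        exact (kcls_two (fun p hp => (h3.1 p hp).1) h4).2.1 1 (by omega) hP
      · exact ⟨(v, A), mem_SV.2 ⟨h4, h3, h5, h7⟩, h6.symm⟩
      · exfalso
        rw [h7] at hP
        exact (kcls_W (fun p hp => (h3.1 p hp).1) h4).2.1 hP
  -- type W
  have a3 : ∑ ε ∈ T2.filter (fun ε => ExD i 2 2 ε), c ε = ∑ x ∈ SW (α := α) i J, c (cfWt x.1 x.2) := by
    apply sum_class (φ := fun x : α × Finset α => cfWt x.1 x.2)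
    · rintro ⟨v, A⟩ hx ⟨v', A'⟩ hx' he
      rw [mem_SW] at hx hx'
      simp only at he hx hx'
      have d1 : ∀ p ∈ A, ds i p = 1 := fun p hp => (hx.2.2.1.1 p hp).1
      have d2 : ∀ p ∈ A', ds i p = 1 := fun p hp => (hx'.2.2.1.1 p hp).1
      have h4 : v = v' := by
        have h5 : cfWt v' A' v = 2 := by rw [← he, cfWt_q]
        rcases cfWt_pos (by omega : 0 < cfWt v' A' v) with h6 | h6
        · exact h6
        · have := d2 v h6
          omega
      subst h4
      have h5 : A = A' := by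
        ext p
        constructor
        · intro hp
          have h6 : cfWt v A' p = 1 := by rw [← he, cfWt_mem hx.1 d1 hp]
          rcases cfWt_pos (by omega : 0 < cfWt v A' p) with h7 | h7
          · rw [h7] at hp
            exact absurd hp (cfWt_not_mem hx.1 d1)
          · exact h7
        · intro hp
          have h6 : cfWt v A p = 1 := by rw [he, cfWt_mem hx.1 d2 hp]
          rcases cfWt_pos (by omega : 0 < cfWt v A p) with h7 | h7
          · rw [h7] at hp
            exact absurd hp (cfWt_not_mem hx.1 d2)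
          · exact h7
      rw [h5]
    · rintro ⟨v, A⟩ hx
      rw [mem_SW] at hx
      simp only at hx
      have d1 : ∀ p ∈ A, ds i p = 1 := fun p hp => (hx.2.2.1.1 p hp).1
      have h3 := kcls_W d1 hx.1
      refine ⟨?_, h3.2.2⟩
      rw [hT2, mem_filter, hT1, mem_filter]
      refine ⟨⟨?_, h3.1⟩, h3.2.1⟩
      rw [hTm, cfWt_sum hx.1 d1]
      exact hx.2.2.2.2
    · intro ε hε hP hne
      rw [hT2, mem_filter, hT1, mem_filter] at hε
      rcases hcls ε hε.1.1 hne with ⟨A, h3, h4, h5⟩ | ⟨y, A, h3, h4, h5, h6⟩ |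
        ⟨A, q, h3, h4, h5, h6⟩ | ⟨A, v, h3, h4, h5, h6, h7⟩ | ⟨A, v, h3, h4, h5, h6, h7, h8⟩
      · exfalso
        have h6 : ∀ p ∈ A, ds i p = 1 := by
          rcases h3 with h3 | h3
          · exact fun p hp => (h3.1 p hp).1
          · exact h3.1
        rw [h4] at hP
        exact (kcls_ind h6).2.1 2 (by omega) hP
      · exfalso
        rw [h5] at hε
        exact hε.1.2 (kcls_A h3)
      · exfalso
        rw [h5] at hP
        exact (kcls_two (fun p hp => (h3.1 p hp).1) h4).2.1 2 (by omega) hP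
      · exfalso
        rw [h6] at hε
        exact hε.2 (kcls_V (fun p hp => (h3.1 p hp).1) h4).2
      · exact ⟨(v, A), mem_SW.2 ⟨h4, h5, h3, h6, h8⟩, h7.symm⟩
  -- type 2
  have a4 : ∑ ε ∈ T3.filter (fun ε => ExD i 1 2 ε), c ε = ∑ x ∈ S2 (α := α) i J, c (ind x.2 + ind {x.1}) := by
    apply sum_class (φ := fun x : α × Finset α => ind x.2 + ind {x.1})
    · rintro ⟨v, A⟩ hx ⟨v', A'⟩ hx' he
      rw [mem_S2] at hx hx'
      simp only at he hx hx'
      have f1 : ∀ p, (ind A + ind {v}) p = (if p ∈ A then 1 else 0) + (if p = v then 1 else 0) := by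
        intro p
        rw [Pi.add_apply, ind_val, ind_val]
        simp only [mem_singleton]
      have f2 : ∀ p, (ind A' + ind {v'}) p =
          (if p ∈ A' then 1 else 0) + (if p = v' then 1 else 0) := by
        intro p
        rw [Pi.add_apply, ind_val, ind_val]
        simp only [mem_singleton]
      have h4 : v = v' := by
        have h5 := f1 v
        rw [he, f2, if_pos hx.1, if_pos rfl] at h5
        by_contra h6
        rw [if_neg h6] at h5
        split_ifs at h5 <;> omega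
      subst h4
      have h5 : A = A' := by
        ext p
        have h6 := f1 p
        rw [he, f2] at h6
        by_cases h7 : p ∈ A <;> by_cases h8 : p ∈ A' <;> simp [h7, h8] at h6 ⊢
      rw [h5]
    · rintro ⟨v, A⟩ hx
      rw [mem_S2] at hx
      simp only at hx
      have d1 : ∀ p ∈ A, ds i p = 1 := fun p hp => (hx.2.1.1 p hp).1
      have h3 := kcls_two d1 hx.1
      refine ⟨?_, h3.2.2⟩
      rw [hT3, mem_filter, hT2, mem_filter, hT1, mem_filter]
      refine ⟨⟨⟨?_, h3.1⟩, h3.2.1 1 (by omega)⟩, h3.2.1 2 (by omega)⟩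
      rw [hTm]
      simp only [Pi.add_apply]
      rw [Finset.sum_add_distrib, sum_ind, sum_ind, card_singleton]
      exact hx.2.2
    · intro ε hε hP hne
      rw [hT3, mem_filter, hT2, mem_filter, hT1, mem_filter] at hε
      rcases hcls ε hε.1.1.1 hne with ⟨A, h3, h4, h5⟩ | ⟨y, A, h3, h4, h5, h6⟩ |
        ⟨A, q, h3, h4, h5, h6⟩ | ⟨A, v, h3, h4, h5, h6, h7⟩ | ⟨A, v, h3, h4, h5, h6, h7, h8⟩
      · exfalso
        have h6 : ∀ p ∈ A, ds i p = 1 := by
          rcases h3 with h3 | h3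
          · exact fun p hp => (h3.1 p hp).1
          · exact h3.1
        rw [h4] at hP
        exact (kcls_ind h6).2.2 hP
      · exfalso
        rw [h5] at hε
        exact hε.1.1.2 (kcls_A h3)
      · exact ⟨(q, A), mem_S2.2 ⟨h4, h3, h6⟩, h5.symm⟩
      · exfalso
        rw [h6] at hε
        exact hε.1.2 (kcls_V (fun p hp => (h3.1 p hp).1) h4).2
      · exfalso
        rw [h7] at hε
        exact hε.2 (kcls_W (fun p hp => (h3.1 p hp).1) h4).2.2
  -- membership in the last class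
  have hlast : ∀ A : Finset α, (∀ p ∈ A, ds i p = 1) → A.card = J → ind A ∈ T4 := by
    intro A hA hAJ
    have h3 := kcls_ind hA
    rw [hT4, mem_filter, hT3, mem_filter, hT2, mem_filter, hT1, mem_filter]
    refine ⟨⟨⟨⟨?_, h3.1⟩, h3.2.1 1 (by omega)⟩, h3.2.1 2 (by omega)⟩, h3.2.2⟩
    rw [hTm, sum_ind]
    exact hAJ
  have hlast2 : ∀ ε ∈ T4, c ε ≠ 0 → ∃ A, (Mch i A ∨ Ovl i A) ∧ ε = ind A ∧ A.card = J := by
    intro ε hε hne
    rw [hT4, mem_filter, hT3, mem_filter, hT2, mem_filter, hT1, mem_filter] at hε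
    rcases hcls ε hε.1.1.1.1 hne with ⟨A, h3, h4, h5⟩ | ⟨y, A, h3, h4, h5, h6⟩ |
      ⟨A, q, h3, h4, h5, h6⟩ | ⟨A, v, h3, h4, h5, h6, h7⟩ | ⟨A, v, h3, h4, h5, h6, h7, h8⟩
    · exact ⟨A, h3, h4, h5⟩
    · exfalso
      rw [h5] at hε
      exact hε.1.1.1.2 (kcls_A h3)
    · exfalso
      rw [h5] at hε
      exact hε.2 (kcls_two (fun p hp => (h3.1 p hp).1) h4).2.2
    · exfalso
      rw [h6] at hε
      exact hε.1.1.2 (kcls_V (fun p hp => (h3.1 p hp).1) h4).2
    · exfalso
      rw [h7] at hε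
      exact hε.1.2 (kcls_W (fun p hp => (h3.1 p hp).1) h4).2.2
  have a5 : ∑ ε ∈ T4.filter (fun ε => (pkF i ε).card + J = n), c ε = ∑ A ∈ SM (α := α) i J, c (ind A) := by
    apply sum_class (φ := fun A : Finset α => ind A)
    · intro A _ B _ hAB
      exact ind_inj hAB
    · intro A hA
      rw [mem_SM] at hA
      refine ⟨hlast A (fun p hp => (hA.1.1 p hp).1) hA.2, ?_⟩
      have := (hA.1.data hg hl).2.1
      omega
    · intro ε hε hP hne
      obtain ⟨A, h3, h4, h5⟩ := hlast2 ε hε hne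
      refine ⟨A, ?_, h4.symm⟩
      rw [mem_SM]
      refine ⟨?_, h5⟩
      rcases h3 with h3 | h3
      · exact h3
      · exfalso
        have := (ovl_data hg hl h3).2.1
        rw [← h4] at this
        omega
  have a6 : ∑ ε ∈ T4.filter (fun ε => ¬ (pkF i ε).card + J = n), c ε =
      ∑ A ∈ SO (α := α) i J, c (ind A) := by
    apply sum_class (φ := fun A : Finset α => ind A)
    · intro A _ B _ hAB
      exact ind_inj hAB
    · intro A hA
      rw [mem_SO] at hA
      refine ⟨hlast A hA.1.1 hA.2, ?_⟩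
      have := (ovl_data hg hl hA.1).2.1
      omega
    · intro ε hε hP hne
      obtain ⟨A, h3, h4, h5⟩ := hlast2 ε hε hne
      refine ⟨A, ?_, h4.symm⟩
      rw [mem_SO]
      refine ⟨?_, h5⟩
      rcases h3 with h3 | h3
      · exfalso
        have := (h3.data hg hl).2.1
        rw [← h4] at this
        omega
      · exact h3
  -- the values
  set ς : ℤ := (-1) ^ (low α i).card with hς
  have hςne : ς ≠ 0 := pow_ne_zero _ (by norm_num)
  have b1 : ∑ x ∈ SA (α := α) i J, c (ind (insert x.1 x.2)) =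
      ς * ∑ x ∈ SA (α := α) i J, ∏ p ∈ x.2, wy i x.1 p := by
    rw [Finset.mul_sum]
    apply Finset.sum_congr rfl
    intro x hx
    rw [mem_SA] at hx
    obtain ⟨g1, g2, g3⟩ := att_data hg hl hx.1 hx.2.1
    rw [hc1 _ g1 (by omega), g3]
  have b2 : ∑ x ∈ SV (α := α) i J, c (ind (insert x.1 x.2)) =
      ς * ∑ x ∈ SV (α := α) i J, ∏ p ∈ x.2, sgn0 i p := by
    rw [Finset.mul_sum]
    apply Finset.sum_congr rfl
    intro x hx
    rw [mem_SV] at hx
    obtain ⟨g1, g2, g3⟩ := vv_data hg hl hx.2.1 hx.1 hx.2.2.1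
    rw [hc1 _ g1 (by omega), g3]
  have b3 : ∑ x ∈ SW (α := α) i J, c (cfWt x.1 x.2) =
      ς * ∑ x ∈ SW (α := α) i J, sgn0 i x.1 * ∏ p ∈ x.2, sgn0 i p := by
    rw [Finset.mul_sum]
    apply Finset.sum_congr rfl
    intro x hx
    rw [mem_SW] at hx
    obtain ⟨g1, g2, g3⟩ := vv2_data hg hl hx.2.2.1 hx.1 hx.2.1 hx.2.2.2.1
    rw [hc1 _ g1 (by omega), g3]
  have b4 : ∑ x ∈ S2 (α := α) i J, c (ind x.2 + ind {x.1}) = 0 := by
    have h3 : ∀ x ∈ S2 (α := α) i J, c (ind x.2 + ind {x.1}) = ς * ∏ p ∈ x.2, sgn0 i p := by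
      intro x hx
      rw [mem_S2] at hx
      obtain ⟨g1, g2, g3⟩ := mch2_data hg hl hx.2.1 hx.1
      rw [hc1 _ g1 (by omega), g3]
    rw [Finset.sum_congr rfl h3, ← Finset.mul_sum]
    have h4 : ∑ x ∈ (S2 i J : Finset (α × Finset α)), ∏ p ∈ x.2, sgn0 i p =
        ∑ A ∈ SM (α := α) i (J - 1), ∑ q ∈ A, ∏ p ∈ A, sgn0 i p := by
      rw [Finset.sum_sigma']
      refine Finset.sum_bij' (fun x _ => ⟨x.2, x.1⟩) (fun x _ => (x.2, x.1)) ?_ ?_ ?_ ?_ ?_
      · rintro ⟨q, A⟩ hx
        rw [mem_S2] at hx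
        simp only at hx
        rw [mem_sigma, mem_SM]
        exact ⟨⟨hx.2.1, by simp only; omega⟩, hx.1⟩
      · rintro ⟨A, q⟩ hx
        rw [mem_sigma, mem_SM] at hx
        simp only at hx
        rw [mem_S2]
        exact ⟨hx.2, hx.1.1, by simp only; omega⟩
      · rintro ⟨q, A⟩ _; rfl
      · rintro ⟨A, q⟩ _; rfl
      · rintro ⟨q, A⟩ _; rfl
    rw [h4]
    have h5 : ∀ A ∈ (SM i (J - 1) : Finset (Finset α)), ∑ q ∈ A, ∏ p ∈ A, sgn0 i p =
        ((J - 1 : ℕ) : ℤ) * ∏ p ∈ A, sgn0 i p := by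
      intro A hA
      rw [mem_SM] at hA
      rw [Finset.sum_const, hA.2, nsmul_eq_mul]
    rw [Finset.sum_congr rfl h5, ← Finset.mul_sum, hlead (J - 1) (by omega), mul_zero, mul_zero]
  have b5 : ∑ A ∈ SM (α := α) i J, c (ind A) = -(ς * (3 * ∑ A ∈ SM (α := α) i J,
      ((A.filter fun p => i < corank p).card : ℤ) * ∏ p ∈ A, sgn0 i p)) := by
    have h3 : ∀ A ∈ (SM i J : Finset (Finset α)), c (ind A) =
        -(ς * ((((low α i).card : ℤ) - J) * ∏ p ∈ A, sgn0 i p)) -
        ς * (3 * (((A.filter fun p => i < corank p).card : ℤ) * ∏ p ∈ A, sgn0 i p)) := by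
      intro A hA
      rw [mem_SM] at hA
      obtain ⟨g1, g2, g3⟩ := hA.1.data hg hl
      have g4 := hA.1.card_in hg hl
      have g5 : (A.filter fun p => corank p < i).card + (A.filter fun p => i < corank p).card =
          J := by
        rw [← hA.2, ← card_union_of_disjoint]
        · congr 1
          ext p
          rw [mem_union, mem_filter, mem_filter]
          constructor
          · rintro (h | h)
            · exact h.1
            · exact h.1
          · intro h
            have := (hA.1.1 p h).1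
            unfold ds at this
            rcases lt_or_gt_of_ne (by omega : corank p ≠ i) with h5 | h5
            · exact Or.inl ⟨h, h5⟩
            · exact Or.inr ⟨h, h5⟩
        · rw [Finset.disjoint_left]
          intro p hp hp'
          rw [mem_filter] at hp hp'
          omega
      rw [hc0 _ g1 (by omega), g3, prod_sgn0]
      have g6 : ((inF i (ind A)).card : ℤ) = (low α i).card - J +
          3 * ((A.filter fun p => i < corank p).card : ℤ) := by
        omega
      rw [g6]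
      ring
    rw [Finset.sum_congr rfl h3, Finset.sum_sub_distrib, Finset.sum_neg_distrib, ← Finset.mul_sum,
      ← Finset.mul_sum, ← Finset.mul_sum, ← Finset.mul_sum, hlead J (by omega)]
    ring
  have b6 : ∑ A ∈ SO (α := α) i J, c (ind A) = ς * ∑ A ∈ SO (α := α) i J, sO i A := by
    rw [Finset.mul_sum]
    apply Finset.sum_congr rfl
    intro A hA
    rw [mem_SO] at hA
    obtain ⟨g1, g2, g3⟩ := ovl_data hg hl hA.1
    rw [hc1 _ g1 (by omega), g3]
  have h3 : ∑ ε ∈ T, c ε = 0 := h2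
  rw [← e1, ← e2, ← e3, ← e4, ← e5, a1, a2, a3, a4, a5, a6, b1, b2, b3, b4, b5, b6] at h3
  have h4 : ς * (∑ x ∈ SA (α := α) i J, ∏ p ∈ x.2, wy i x.1 p + ∑ A ∈ SO (α := α) i J, sO i A +
      ∑ x ∈ SV (α := α) i J, ∏ p ∈ x.2, sgn0 i p + ∑ x ∈ SW (α := α) i J, sgn0 i x.1 * ∏ p ∈ x.2, sgn0 i p -
      3 * ∑ A ∈ SM (α := α) i J, ((A.filter fun p => i < corank p).card : ℤ) * ∏ p ∈ A, sgn0 i p) = 0 := by
    rw [← h3]
    ring
  rcases mul_eq_zero.1 h4 with h5 | h5
  · exact absurd h5 hςne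
  · exact sub_eq_zero.1 h5

end Pool.Gauss
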