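import Pool.Agent.Work.MP_065141_co.K.KOne3

/-!
# Sums over matchings of elements as coefficients of matching polynomials
-/

set_option autoImplicit false
set_option linter.unusedSectionVars false
set_option linter.unusedVariables false
open scoped Classical
open Finset Polynomial

namespace Pool.Gauss

variable {α : Type} [Fintype α] [PartialOrder α] {i : ℕ}

/-- signed multiplicity of a pair, as a sum over the elements next to level `i` -/
noncomputable def W0 (i : ℕ) (s : Finset α) : ℤ := ∑ p ∈ Db i s, sgn0 i p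

/-- matchings with all pairs inside `U` and `k` less than `J` elements -/
noncomputable def SMU (i : ℕ) (U : Finset α) (k J : ℕ) : Finset (Finset α) :=
  univ.filter fun A => Mch i A ∧ (∀ p ∈ A, bd i p ⊆ U) ∧ A.card + k = J

lemma mem_SMU {U A : Finset α} {k J : ℕ} :
    A ∈ SMU i U k J ↔ Mch i A ∧ (∀ p ∈ A, bd i p ⊆ U) ∧ A.card + k = J := by simp [SMU]

lemma bd_sub_lev (hg : Grad α) {p : α} (hp : ds i p = 1) : bd i p ⊆ lev α i :=
  fun y hy => mem_lev.2 (bd_lev hg hp hy)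

theorem SMU_zero (hg : Grad α) {U : Finset α} (hU : U ⊆ lev α i) (J : ℕ) :
    ∑ A ∈ SMU i U 0 J, ∏ p ∈ A, sgn0 i p = (MP (W0 i) U).coeff J := by
  rw [MP_coeff]
  have hmap : ∀ A ∈ SMU i U 0 J, A.image (bd i) ∈ (mtc U).filter (fun F => F.card = J) := by
    intro A hA
    rw [mem_SMU] at hA
    obtain ⟨hA1, hA3, hA2⟩ := hA
    rw [mem_filter, mem_mtc]
    refine ⟨⟨fun s hs => ?_, fun s hs t ht hst => ?_⟩, ?_⟩
    · rw [mem_image] at hs
      obtain ⟨p, hp, rfl⟩ := hs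
      exact ⟨hA3 p hp, (hA1.1 p hp).2⟩
    · rw [mem_image] at hs ht
      obtain ⟨p, hp, rfl⟩ := hs
      obtain ⟨p', hp', rfl⟩ := ht
      apply hA1.2 p hp p' hp'
      rintro rfl
      exact hst rfl
    · rw [card_image_of_injOn, ← hA2, add_zero]
      intro p hp p' hp' hpp
      by_contra hne
      have h2 := hA1.2 p hp p' hp' hne
      rw [hpp, disjoint_self, bot_eq_empty] at h2
      have h3 := (hA1.1 p' hp').2
      rw [h2] at h3
      simp at h3
  rw [← sum_fiberwise_of_maps_to hmap]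
  apply sum_congr rfl
  intro F hF
  rw [mem_filter] at hF
  have hF1 : F ∈ mtc (lev α i) := by
    rw [mem_mtc] at hF ⊢
    exact ⟨fun s hs => ⟨(hF.1.1 s hs).1.trans hU, (hF.1.1 s hs).2⟩, hF.1.2⟩
  unfold W0
  rw [← sum_choice hF1 hF.2]
  apply sum_congr _ (fun _ _ => rfl)
  ext A
  rw [mem_filter, mem_filter, mem_SMU]
  constructor
  · rintro ⟨⟨h1, h2, h3⟩, h4⟩
    exact ⟨mem_univ _, ⟨h1, by omega⟩, h4⟩
  · rintro ⟨_, ⟨h1, h2⟩, h3⟩
    refine ⟨⟨h1, fun p hp => ?_, by omega⟩, h3⟩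
    have h4 : bd i p ∈ F := by
      rw [← h3]
      exact mem_image_of_mem _ hp
    exact ((mem_mtc.1 hF.1).1 _ h4).1

theorem SMU_sum (hg : Grad α) {U : Finset α} (hU : U ⊆ lev α i) (k J : ℕ) :
    ∑ A ∈ SMU i U k J, ∏ p ∈ A, sgn0 i p = (X ^ k * MP (W0 i) U).coeff J := by
  rw [coeff_X_pow_mul']
  split_ifs with h
  · rw [← SMU_zero hg hU]
    apply sum_congr _ (fun _ _ => rfl)
    ext A
    rw [mem_SMU, mem_SMU]
    constructor
    · rintro ⟨h1, h2, h3⟩
      exact ⟨h1, h2, by omega⟩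
    · rintro ⟨h1, h2, h3⟩
      exact ⟨h1, h2, by omega⟩
  · apply sum_eq_zero
    intro A hA
    rw [mem_SMU] at hA
    omega

/-- sums over sets which are a special part and a matching -/
theorem join_sum (hg : Grad α) {Bs T : Finset (Finset α)} {c d : Finset α → ℤ}
    {U : Finset α → Finset α} (hU : ∀ B ∈ Bs, U B ⊆ lev α i) {δ : Finset α → Finset α}
    (h1 : ∀ A ∈ T, δ A ∈ Bs ∧ δ A ⊆ A ∧ Mch i (A \ δ A) ∧ ∀ p ∈ A \ δ A, bd i p ⊆ U (δ A))
    (h2 : ∀ B ∈ Bs, ∀ A, Mch i A → (∀ p ∈ A, bd i p ⊆ U B) →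
      Disjoint B A ∧ B ∪ A ∈ T ∧ δ (B ∪ A) = B ∧ c (B ∪ A) = d B * ∏ p ∈ A, sgn0 i p) (J : ℕ) :
    ∑ A ∈ T.filter (fun A => A.card = J), c A =
      (∑ B ∈ Bs, C (d B) * (X ^ B.card * MP (W0 i) (U B))).coeff J := by
  rw [finsetSum_coeff]
  have h3 : ∀ B ∈ Bs, (C (d B) * (X ^ B.card * MP (W0 i) (U B))).coeff J =
      ∑ A ∈ SMU i (U B) B.card J, d B * ∏ p ∈ A, sgn0 i p := by
    intro B hB
    rw [coeff_C_mul, ← SMU_sum hg (hU B hB), mul_sum]
  rw [sum_congr rfl h3, Finset.sum_sigma']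
  refine Finset.sum_bij' (fun A _ => ⟨δ A, A \ δ A⟩) (fun x _ => x.1 ∪ x.2) ?_ ?_ ?_ ?_ ?_
  · intro A hA
    rw [mem_filter] at hA
    obtain ⟨h4, h5, h6, h7⟩ := h1 A hA.1
    rw [mem_sigma, mem_SMU]
    refine ⟨h4, h6, h7, ?_⟩
    have h8 := card_sdiff_add_card_eq_card h5
    simp only
    omega
  · rintro ⟨B, A⟩ hx
    rw [mem_sigma, mem_SMU] at hx
    obtain ⟨h4, h5, h6, h7⟩ := hx
    simp only at h4 h5 h6 h7
    obtain ⟨h8, h9, h10, h11⟩ := h2 B h4 A h5 h6
    rw [mem_filter]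
    refine ⟨h9, ?_⟩
    rw [card_union_of_disjoint h8]
    omega
  · intro A hA
    rw [mem_filter] at hA
    obtain ⟨h4, h5, h6, h7⟩ := h1 A hA.1
    exact union_sdiff_of_subset h5
  · rintro ⟨B, A⟩ hx
    rw [mem_sigma, mem_SMU] at hx
    obtain ⟨h4, h5, h6, h7⟩ := hx
    simp only at h4 h5 h6 h7
    obtain ⟨h8, h9, h10, h11⟩ := h2 B h4 A h5 h6
    simp only
    rw [h10, union_sdiff_cancel_left h8]
  · intro A hA
    rw [mem_filter] at hA
    obtain ⟨h4, h5, h6, h7⟩ := h1 A hA.1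
    obtain ⟨h8, h9, h10, h11⟩ := h2 _ h4 _ h6 h7
    rw [union_sdiff_of_subset h5] at h11
    exact h11

/-- vertices of a set of elements -/
noncomputable def VB (i : ℕ) (B : Finset α) : Finset α := B.biUnion (bd i)

lemma mem_VB {B : Finset α} {y : α} : y ∈ VB i B ↔ ∃ p ∈ B, y ∈ bd i p := by
  rw [VB, mem_biUnion]

lemma away_disj (hg : Grad α) {B A : Finset α} (hA : Mch i A)
    (hAB : ∀ p ∈ A, bd i p ⊆ lev α i \ VB i B) : ∀ q ∈ B, ∀ p ∈ A, Disjoint (bd i q) (bd i p) := by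
  intro q hq p hp
  rw [Finset.disjoint_left]
  intro y hy hy'
  exact (mem_sdiff.1 (hAB p hp hy')).2 (mem_VB.2 ⟨q, hq, hy⟩)

lemma away_ne (hg : Grad α) {B A : Finset α} (hA : Mch i A)
    (hAB : ∀ p ∈ A, bd i p ⊆ lev α i \ VB i B) : Disjoint B A := by
  rw [Finset.disjoint_left]
  intro p hp hp'
  have h1 := away_disj hg hA hAB p hp p hp'
  rw [disjoint_self, bot_eq_empty] at h1
  have h2 := (hA.1 p hp').2
  rw [h1] at h2
  simp at h2

/-- matchings which contain a given matching -/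
theorem super_sum (hg : Grad α) {B : Finset α} (hB : Mch i B) (J : ℕ) :
    ∑ A ∈ univ.filter (fun A => Mch i A ∧ B ⊆ A ∧ A.card = J), ∏ p ∈ A, sgn0 i p =
      (C (∏ p ∈ B, sgn0 i p) * (X ^ B.card * MP (W0 i) (lev α i \ VB i B))).coeff J := by
  have h := join_sum (i := i) hg (Bs := {B}) (T := univ.filter (fun A => Mch i A ∧ B ⊆ A))
    (c := fun A => ∏ p ∈ A, sgn0 i p) (d := fun A => ∏ p ∈ A, sgn0 i p)
    (U := fun B => lev α i \ VB i B) (fun _ _ => sdiff_subset) (δ := fun _ => B) ?_ ?_ J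
  · rw [sum_singleton] at h
    rw [← h, filter_filter]
    apply sum_congr _ (fun _ _ => rfl)
    ext A
    simp only [mem_filter, mem_univ, true_and]
    tauto
  · intro A hA
    rw [mem_filter] at hA
    obtain ⟨_, h1, h2⟩ := hA
    refine ⟨mem_singleton_self _, h2, h1.mono sdiff_subset, ?_⟩
    intro p hp y hy
    rw [mem_sdiff] at hp
    refine mem_sdiff.2 ⟨bd_sub_lev hg (h1.1 p hp.1).1 hy, ?_⟩
    intro h3
    obtain ⟨q, hq, hq'⟩ := mem_VB.1 h3
    have h4 : p ≠ q := by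
      rintro rfl
      exact hp.2 hq
    exact Finset.disjoint_left.1 (h1.2 p hp.1 q (h2 hq) h4) hy hq'
  · intro B' hB' A hA hAB
    rw [mem_singleton] at hB'
    subst hB'
    have h3 := away_ne hg hA hAB
    refine ⟨h3, ?_, rfl, prod_union h3⟩
    rw [mem_filter]
    refine ⟨mem_univ _, ⟨?_, ?_⟩, subset_union_left⟩
    · intro p hp
      rw [mem_union] at hp
      rcases hp with hp | hp
      · exact hB.1 p hp
      · exact hA.1 p hp
    · intro p hp p' hp' hne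
      rw [mem_union] at hp hp'
      rcases hp with hp | hp <;> rcases hp' with hp' | hp'
      · exact hB.2 p hp p' hp' hne
      · exact away_disj hg hA hAB p hp p' hp'
      · exact (away_disj hg hA hAB p' hp' p hp).symm
      · exact hA.2 p hp p' hp' hne

end Pool.Gauss
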