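import Pool.Agent.Work.MP_065141_co.K.KOne4

/-!
# The sets which are one short of a matching: a single element or an adjacent pair, and a matching
-/

set_option autoImplicit false
set_option linter.unusedSectionVars false
set_option linter.unusedVariables false
open scoped Classical
open Finset Polynomial

namespace Pool.Gauss

variable {α : Type} [Fintype α] [PartialOrder α] {i : ℕ}

/-- the single elements next to level `i` -/
noncomputable def Sg1 (i : ℕ) : Finset α := univ.filter fun s => ds i s = 1 ∧ (bd i s).card = 1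

/-- the pairs of adjacent double elements of row `i + 1` -/
noncomputable def AdD (i : ℕ) : Finset (Finset α) :=
  univ.filter fun B => B.card = 2 ∧ (∀ p ∈ B, ds i p = 1 ∧ (bd i p).card = 2 ∧ i < corank p) ∧
    (VB i B).card = 3

/-- the pairs of adjacent double elements of row `i - 1` -/
noncomputable def AdU (i : ℕ) : Finset (Finset α) :=
  univ.filter fun B => B.card = 2 ∧ (∀ p ∈ B, ds i p = 1 ∧ (bd i p).card = 2 ∧ corank p < i) ∧
    (VB i B).card = 3

lemma mem_Sg1 {s : α} : s ∈ Sg1 i ↔ ds i s = 1 ∧ (bd i s).card = 1 := by simp [Sg1]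
lemma mem_AdD {B : Finset α} : B ∈ AdD i ↔
    B.card = 2 ∧ (∀ p ∈ B, ds i p = 1 ∧ (bd i p).card = 2 ∧ i < corank p) ∧
      (VB i B).card = 3 := by simp [AdD]
lemma mem_AdU {B : Finset α} : B ∈ AdU i ↔
    B.card = 2 ∧ (∀ p ∈ B, ds i p = 1 ∧ (bd i p).card = 2 ∧ corank p < i) ∧
      (VB i B).card = 3 := by simp [AdU]

/-- the defects -/
noncomputable def DBs (i : ℕ) : Finset (Finset α) :=
  (Sg1 i).image (fun s => {s}) ∪ (AdD i ∪ AdU i)

/-- if a part has one vertex less, the rest is a matching away from it -/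
lemma rest_mch (hg : Grad α) (hdeg : ∀ p : α, (bd i p).card ≤ 2) {A B : Finset α} (hB : B ⊆ A)
    (hds : ∀ p ∈ A, ds i p = 1) (hA : (VB i A).card + 1 = 2 * A.card)
    (hBc : (VB i B).card + 1 ≤ 2 * B.card) :
    (VB i B).card + 1 = 2 * B.card ∧ Mch i (A \ B) ∧
      ∀ p ∈ A \ B, bd i p ⊆ lev α i \ VB i B := by
  set R := A \ B with hR
  have h1 : VB i A = VB i B ∪ VB i R := by
    unfold VB
    rw [← union_biUnion, hR, union_sdiff_of_subset hB]
  have h2 : R.card + B.card = A.card := card_sdiff_add_card_eq_card hB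
  have h3 : (VB i R).card ≤ ∑ p ∈ R, (bd i p).card := card_biUnion_le
  have h4 : ∑ p ∈ R, (bd i p).card ≤ ∑ p ∈ R, 2 := sum_le_sum fun p _ => hdeg p
  have h4' : ∑ p ∈ R, 2 = 2 * R.card := by rw [sum_const, smul_eq_mul, mul_comm]
  have h5 := card_union_le (VB i B) (VB i R)
  rw [← h1] at h5
  have h6 : Disjoint (VB i B) (VB i R) := by
    rw [← card_union_eq_card_add_card, ← h1]
    omega
  have h7 : ∑ p ∈ R, (bd i p).card = ∑ p ∈ R, 2 := by omega
  have h8 := (sum_eq_sum_iff_of_le (fun p _ => hdeg p)).1 h7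
  refine ⟨by omega, ⟨fun p hp => ⟨hds p (mem_sdiff.1 hp).1, h8 p hp⟩, ?_⟩, ?_⟩
  · intro p hp p' hp' hne
    exact disjoint_of_card_biUnion (f := bd i) (by
      have : (VB i R).card = (R.biUnion (bd i)).card := rfl
      omega) hp hp' hne
  · intro p hp y hy
    refine mem_sdiff.2 ⟨bd_sub_lev hg (hds p (mem_sdiff.1 hp).1) hy, ?_⟩
    intro h9
    exact Finset.disjoint_left.1 h6 h9 (mem_VB.2 ⟨p, hp, hy⟩)

lemma VB_single (s : α) : VB i {s} = bd i s := by
  unfold VB
  rw [singleton_biUnion]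

lemma VB_pair (p q : α) : VB i {p, q} = bd i p ∪ bd i q := by
  unfold VB
  rw [biUnion_insert, singleton_biUnion]

lemma ovl_split (hg : Grad α) (hdeg : ∀ p : α, (bd i p).card ≤ 2) {A : Finset α}
    (hA : Ovl i A) : ∃ B, B ⊆ A ∧ B ∈ DBs i ∧ Mch i (A \ B) ∧
      ∀ p ∈ A \ B, bd i p ⊆ lev α i \ VB i B := by
  obtain ⟨hA1, hA2, hA3⟩ := hA
  have hA2' : (VB i A).card + 1 = 2 * A.card := hA2
  by_cases h : ∃ s ∈ A, (bd i s).card ≤ 1
  · obtain ⟨s, hs, hs1⟩ := h
    obtain ⟨h1, h2, h3⟩ := rest_mch hg hdeg (singleton_subset_iff.2 hs) hA1 hA2' (by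
      rw [VB_single, card_singleton]
      omega)
    refine ⟨{s}, singleton_subset_iff.2 hs, ?_, h2, h3⟩
    rw [DBs, mem_union, mem_image]
    left
    refine ⟨s, mem_Sg1.2 ⟨hA1 s hs, ?_⟩, rfl⟩
    rw [VB_single, card_singleton] at h1
    omega
  · push Not at h
    have h2 : ∀ s ∈ A, (bd i s).card = 2 := by
      intro s hs
      have := h s hs
      have := hdeg s
      omega
    have h3 : ∃ p ∈ A, ∃ p' ∈ A, p ≠ p' ∧ ¬ Disjoint (bd i p) (bd i p') := by
      by_contra h4
      push Not at h4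
      have h5 : (A.biUnion (bd i)).card = ∑ p ∈ A, (bd i p).card := card_biUnion h4
      rw [sum_congr rfl h2, sum_const, smul_eq_mul] at h5
      omega
    obtain ⟨p, hp, p', hp', hne, h4⟩ := h3
    have hsub : {p, p'} ⊆ A := by
      intro x hx
      rw [mem_insert, mem_singleton] at hx
      rcases hx with rfl | rfl
      · exact hp
      · exact hp'
    have h5 : 0 < (bd i p ∩ bd i p').card := by
      rw [card_pos, nonempty_iff_ne_empty]
      exact fun h => h4 (disjoint_iff_inter_eq_empty.2 h)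
    have h6 := card_union_add_card_inter (bd i p) (bd i p')
    rw [h2 p hp, h2 p' hp'] at h6
    obtain ⟨h7, h8, h9⟩ := rest_mch hg hdeg hsub hA1 hA2' (by
      rw [VB_pair, card_pair hne]
      omega)
    refine ⟨{p, p'}, hsub, ?_, h8, h9⟩
    obtain ⟨y, hy⟩ := card_pos.1 h5
    rw [mem_inter] at hy
    rw [card_pair hne] at h7
    rw [DBs, mem_union, mem_union]
    right
    rcases hA3 p hp p' hp' y hy.1 hy.2 with h10 | h10
    · right
      rw [mem_AdU]
      refine ⟨card_pair hne, ?_, by omega⟩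
      intro x hx
      rw [mem_insert, mem_singleton] at hx
      rcases hx with rfl | rfl
      · exact ⟨hA1 _ hp, h2 _ hp, h10.1⟩
      · exact ⟨hA1 _ hp', h2 _ hp', h10.2⟩
    · left
      rw [mem_AdD]
      refine ⟨card_pair hne, ?_, by omega⟩
      intro x hx
      rw [mem_insert, mem_singleton] at hx
      rcases hx with rfl | rfl
      · exact ⟨hA1 _ hp, h2 _ hp, h10.1⟩
      · exact ⟨hA1 _ hp', h2 _ hp', h10.2⟩

/-- the defect of a set -/
noncomputable def dfc (i : ℕ) (A : Finset α) : Finset α :=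
  A.filter fun p => (bd i p).card ≠ 2 ∨ ∃ p' ∈ A, p' ≠ p ∧ ¬ Disjoint (bd i p) (bd i p')

lemma ad_not_disj {B : Finset α} (h2 : B.card = 2) (hd : ∀ p ∈ B, (bd i p).card = 2)
    (h3 : (VB i B).card = 3) {p : α} (hp : p ∈ B) :
    ∃ p' ∈ B, p' ≠ p ∧ ¬ Disjoint (bd i p) (bd i p') := by
  obtain ⟨a, b, hab, rfl⟩ := card_eq_two.1 h2
  have h4 : ¬ Disjoint (bd i a) (bd i b) := by
    intro h5
    rw [VB_pair, card_union_of_disjoint h5, hd a (by simp), hd b (by simp)] at h3
    omega
  rw [mem_insert, mem_singleton] at hp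
  rcases hp with rfl | rfl
  · exact ⟨b, by simp, hab.symm, h4⟩
  · exact ⟨a, by simp, hab, fun h => h4 h.symm⟩

lemma dfc_union (hg : Grad α) {B A : Finset α} (hB : B ∈ DBs i) (hA : Mch i A)
    (hAB : ∀ p ∈ A, bd i p ⊆ lev α i \ VB i B) : dfc i (B ∪ A) = B := by
  have hdj := away_disj hg hA hAB
  have hne := away_ne hg hA hAB
  ext p
  rw [dfc, mem_filter]
  constructor
  · rintro ⟨h1, h2⟩
    by_contra h3
    have h4 : p ∈ A := by
      rw [mem_union] at h1
      tauto
    rcases h2 with h2 | ⟨p', h5, h6, h7⟩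
    · exact h2 (hA.1 p h4).2
    · rw [mem_union] at h5
      rcases h5 with h5 | h5
      · exact h7 (hdj p' h5 p h4).symm
      · exact h7 (hA.2 p h4 p' h5 h6.symm)
  · intro h1
    refine ⟨mem_union_left _ h1, ?_⟩
    rw [DBs, mem_union, mem_image, mem_union, mem_AdD, mem_AdU] at hB
    rcases hB with ⟨s, hs, rfl⟩ | hB | hB
    · left
      rw [mem_Sg1] at hs
      rw [mem_singleton] at h1
      rw [h1]
      omega
    · right
      obtain ⟨p', h2, h3, h4⟩ := ad_not_disj hB.1 (fun p hp => (hB.2.1 p hp).2.1) hB.2.2 h1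
      exact ⟨p', mem_union_left _ h2, h3, h4⟩
    · right
      obtain ⟨p', h2, h3, h4⟩ := ad_not_disj hB.1 (fun p hp => (hB.2.1 p hp).2.1) hB.2.2 h1
      exact ⟨p', mem_union_left _ h2, h3, h4⟩

lemma DBs_ds {B : Finset α} (hB : B ∈ DBs i) : ∀ p ∈ B, ds i p = 1 := by
  intro p hp
  rw [DBs, mem_union, mem_image, mem_union, mem_AdD, mem_AdU] at hB
  rcases hB with ⟨s, hs, rfl⟩ | hB | hB
  · rw [mem_Sg1] at hs
    rw [mem_singleton] at hp
    rw [hp]
    exact hs.1
  · exact (hB.2.1 p hp).1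
  · exact (hB.2.1 p hp).1

lemma DBs_card {B : Finset α} (hB : B ∈ DBs i) : (VB i B).card + 1 = 2 * B.card := by
  rw [DBs, mem_union, mem_image, mem_union, mem_AdD, mem_AdU] at hB
  rcases hB with ⟨s, hs, rfl⟩ | hB | hB
  · rw [mem_Sg1] at hs
    rw [VB_single, card_singleton]
    omega
  · omega
  · omega

lemma DBs_side {B : Finset α} (hB : B ∈ DBs i) : ∀ p ∈ B, ∀ p' ∈ B,
    (corank p < i ∧ corank p' < i) ∨ (i < corank p ∧ i < corank p') := by
  intro p hp p' hp'
  rw [DBs, mem_union, mem_image, mem_union, mem_AdD, mem_AdU] at hB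
  rcases hB with ⟨s, hs, rfl⟩ | hB | hB
  · rw [mem_Sg1] at hs
    rw [mem_singleton] at hp hp'
    rw [hp, hp']
    have := hs.1
    unfold ds at this
    omega
  · right
    exact ⟨(hB.2.1 p hp).2.2, (hB.2.1 p' hp').2.2⟩
  · left
    exact ⟨(hB.2.1 p hp).2.2, (hB.2.1 p' hp').2.2⟩

lemma VB_union (A B : Finset α) : VB i (A ∪ B) = VB i A ∪ VB i B := by
  unfold VB
  rw [union_biUnion]

lemma VB_mono {A B : Finset α} (h : A ⊆ B) : VB i A ⊆ VB i B := biUnion_subset_biUnion_of_subset_left _ h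

lemma VB_disj (hg : Grad α) {B A : Finset α} (hA : Mch i A)
    (hAB : ∀ p ∈ A, bd i p ⊆ lev α i \ VB i B) : Disjoint (VB i B) (VB i A) := by
  rw [Finset.disjoint_left]
  intro y hy hy'
  obtain ⟨p, hp, hp'⟩ := mem_VB.1 hy'
  exact (mem_sdiff.1 (hAB p hp hp')).2 hy

lemma ovl_union (hg : Grad α) {B A : Finset α} (hB : B ∈ DBs i) (hA : Mch i A)
    (hAB : ∀ p ∈ A, bd i p ⊆ lev α i \ VB i B) : Ovl i (B ∪ A) := by
  have hdj := away_disj hg hA hAB
  have hne := away_ne hg hA hAB
  refine ⟨?_, ?_, ?_⟩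
  · intro p hp
    rw [mem_union] at hp
    rcases hp with hp | hp
    · exact DBs_ds hB p hp
    · exact (hA.1 p hp).1
  · have h1 : ((B ∪ A).biUnion (bd i)).card = (VB i B).card + (VB i A).card := by
      have : (B ∪ A).biUnion (bd i) = VB i (B ∪ A) := rfl
      rw [this, VB_union, card_union_of_disjoint (VB_disj hg hA hAB)]
    have h2 : (VB i A).card = 2 * A.card := hA.card_biUnion
    rw [h1, h2, card_union_of_disjoint hne]
    have := DBs_card hB
    omega
  · intro p hp p' hp' y hy hy'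
    rw [mem_union] at hp hp'
    rcases hp with hp | hp <;> rcases hp' with hp' | hp'
    · exact DBs_side hB p hp p' hp'
    · exact (Finset.disjoint_left.1 (hdj p hp p' hp') hy hy').elim
    · exact (Finset.disjoint_left.1 (hdj p' hp' p hp) hy' hy).elim
    · have h1 : p = p' := by
        by_contra h1
        exact Finset.disjoint_left.1 (hA.2 p hp p' hp' h1) hy hy'
      subst h1
      have := (hA.1 p hp).1
      unfold ds at this
      omega

lemma sO_union (hg : Grad α) {B A : Finset α} (hA : Mch i A)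
    (hAB : ∀ p ∈ A, bd i p ⊆ lev α i \ VB i B) :
    sO i (B ∪ A) = sO i B * ∏ p ∈ A, sgn0 i p := by
  have hne := away_ne hg hA hAB
  have h1 : ((B ∪ A).filter fun p => corank p < i).card =
      (B.filter fun p => corank p < i).card + (A.filter fun p => corank p < i).card := by
    rw [filter_union, card_union_of_disjoint]
    exact disjoint_filter_filter hne
  have h2 : (((B ∪ A).filter fun p => i < corank p).biUnion (bd i)).card =
      ((B.filter fun p => i < corank p).biUnion (bd i)).card +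
        2 * (A.filter fun p => i < corank p).card := by
    rw [filter_union, union_biUnion, card_union_of_disjoint, (hA.mono (filter_subset _ _)).card_biUnion]
    exact disjoint_of_subset_left (VB_mono (filter_subset _ _))
      (disjoint_of_subset_right (VB_mono (filter_subset _ _)) (VB_disj hg hA hAB))
  unfold sO
  rw [h1, h2, prod_sgn0, pow_add, pow_add, pow_mul (-1 : ℤ) 2]
  norm_num
  ring

/-- **the sets which are one short of a matching** -/
theorem SO_sum (hg : Grad α) (hdeg : ∀ p : α, (bd i p).card ≤ 2) (J : ℕ) :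
    ∑ A ∈ SO (α := α) i J, sO i A =
      (∑ B ∈ DBs i, C (sO i B) * (X ^ B.card * MP (W0 i) (lev α i \ VB i B))).coeff J := by
  rw [← join_sum hg (Bs := DBs i) (T := univ.filter fun A => Ovl i A) (c := sO i) (d := sO i)
    (U := fun B => lev α i \ VB i B) (fun _ _ => sdiff_subset) (δ := dfc i)]
  · rw [filter_filter]
    rfl
  · intro A hA
    rw [mem_filter] at hA
    obtain ⟨B, h1, h2, h3, h4⟩ := ovl_split hg hdeg hA.2
    have h5 := dfc_union hg h2 h3 h4
    rw [union_sdiff_of_subset h1] at h5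
    rw [h5]
    exact ⟨h2, h1, h3, h4⟩
  · intro B hB A hA hAB
    refine ⟨away_ne hg hA hAB, ?_, dfc_union hg hB hA hAB, sO_union hg hA hAB⟩
    rw [mem_filter]
    exact ⟨mem_univ _, ovl_union hg hB hA hAB⟩

end Pool.Gauss
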