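import Pool.Agent.Work.MP_065141_co.K.KOne5

/-!
# The sets attached to an excited element of level `i`
-/

set_option autoImplicit false
set_option linter.unusedSectionVars false
set_option linter.unusedVariables false
open scoped Classical
open Finset Polynomial

namespace Pool.Gauss

variable {α : Type} [Fintype α] [PartialOrder α] {i : ℕ}

/-- sets of double elements at `y`, with different pairs -/
def StB (i : ℕ) (y : α) (B : Finset α) : Prop :=
  (∀ p ∈ B, ds i p = 1 ∧ (bd i p).card = 2 ∧ y ∈ bd i p) ∧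
    ∀ p ∈ B, ∀ p' ∈ B, p ≠ p' → bd i p ≠ bd i p'

lemma pair_other {s : Finset α} (hs : s.card = 2) {y : α} (hy : y ∈ s) :
    ∃ y', y' ≠ y ∧ s = {y, y'} := by
  obtain ⟨a, b, hab, rfl⟩ := card_eq_two.1 hs
  rw [mem_insert, mem_singleton] at hy
  rcases hy with rfl | rfl
  · exact ⟨b, hab.symm, rfl⟩
  · exact ⟨a, hab, pair_comm _ _⟩

lemma pair_ne_disj {s t : Finset α} (hs : s.card = 2) (ht : t.card = 2) {y : α} (hy : y ∈ s)
    (hy' : y ∈ t) (hne : s ≠ t) : Disjoint (s.erase y) (t.erase y) := by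
  obtain ⟨a, ha, rfl⟩ := pair_other hs hy
  obtain ⟨b, hb, rfl⟩ := pair_other ht hy'
  rw [Finset.disjoint_left]
  intro x hx hx'
  simp only [mem_erase, mem_insert, mem_singleton] at hx hx'
  have h1 : x = a := by tauto
  have h2 : x = b := by tauto
  apply hne
  rw [← h1, ← h2]

lemma StB.att {y : α} {B : Finset α} (hB : StB i y B) : Att i y B := by
  refine ⟨fun p hp => ⟨(hB.1 p hp).1, (hB.1 p hp).2.1⟩, ?_⟩
  intro p hp p' hp' hne
  exact pair_ne_disj (hB.1 p hp).2.1 (hB.1 p' hp').2.1 (hB.1 p hp).2.2 (hB.1 p' hp').2.2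
    (hB.2 p hp p' hp' hne)

/-- **the sets attached to `y`**: a star at `y` and a matching -/
theorem SA_sum_y (hg : Grad α) {y : α} (hy : corank y = i) (J : ℕ) :
    ∑ A ∈ (univ.filter fun A => Att i y A).filter (fun A => A.card = J), ∏ p ∈ A, wy i y p =
      (∑ B ∈ univ.filter (fun B => StB i y B), C (∏ p ∈ B, -sgn0 i p) *
        (X ^ B.card * MP (W0 i) (lev α i \ insert y (VB i B)))).coeff J := by
  have key : ∀ B A : Finset α, (∀ p ∈ A, bd i p ⊆ lev α i \ insert y (VB i B)) →
      ∀ p ∈ A, bd i p ⊆ lev α i \ VB i B := by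
    intro B A h p hp
    exact (h p hp).trans (sdiff_subset_sdiff (Subset.refl _) (subset_insert _ _))
  rw [← join_sum hg (T := univ.filter fun A => Att i y A) (c := fun A => ∏ p ∈ A, wy i y p)
    (d := fun B => ∏ p ∈ B, -sgn0 i p)
    (U := fun B => lev α i \ insert y (VB i B)) (fun _ _ => sdiff_subset)
    (δ := fun A => A.filter fun p => y ∈ bd i p)]
  · intro A hA
    rw [mem_filter] at hA
    obtain ⟨_, hA1, hA2⟩ := hA
    refine ⟨?_, filter_subset _ _, ⟨?_, ?_⟩, ?_⟩
    · rw [mem_filter]
      refine ⟨mem_univ _, ?_, ?_⟩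
      · intro p hp
        rw [mem_filter] at hp
        exact ⟨(hA1 p hp.1).1, (hA1 p hp.1).2, hp.2⟩
      · intro p hp p' hp' hne h
        rw [mem_filter] at hp hp'
        have h1 := hA2 p hp.1 p' hp'.1 hne
        rw [h, disjoint_self, bot_eq_empty] at h1
        have h2 := card_erase_of_mem hp'.2
        rw [h1, (hA1 p' hp'.1).2] at h2
        simp at h2
    · intro p hp
      exact hA1 p (mem_sdiff.1 hp).1
    · intro p hp p' hp' hne
      rw [mem_sdiff, mem_filter] at hp hp'
      have h1 := hA2 p hp.1 p' hp'.1 hne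
      rwa [erase_eq_of_notMem (fun h => hp.2 ⟨hp.1, h⟩),
        erase_eq_of_notMem (fun h => hp'.2 ⟨hp'.1, h⟩)] at h1
    · intro p hp x hx
      rw [mem_sdiff, mem_filter] at hp
      refine mem_sdiff.2 ⟨bd_sub_lev hg (hA1 p hp.1).1 hx, ?_⟩
      have hxy : x ≠ y := by
        rintro rfl
        exact hp.2 ⟨hp.1, hx⟩
      rw [mem_insert, mem_VB]
      rintro (h | ⟨q, hq, hq'⟩)
      · exact hxy h
      · rw [mem_filter] at hq
        have hpq : p ≠ q := by
          rintro rfl
          exact hp.2 hq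
        exact Finset.disjoint_left.1 (hA2 p hp.1 q hq.1 hpq) (mem_erase.2 ⟨hxy, hx⟩)
          (mem_erase.2 ⟨hxy, hq'⟩)
  · intro B hB A hA hAB
    rw [mem_filter] at hB
    obtain ⟨_, hB⟩ := hB
    have h1 := away_disj hg hA (key B A hAB)
    have h2 := away_ne hg hA (key B A hAB)
    have h3 : ∀ p ∈ A, y ∉ bd i p := by
      intro p hp h
      exact (mem_sdiff.1 (hAB p hp h)).2 (mem_insert_self _ _)
    refine ⟨h2, ?_, ?_, ?_⟩
    · rw [mem_filter]
      refine ⟨mem_univ _, ?_, ?_⟩
      · intro p hp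
        rw [mem_union] at hp
        rcases hp with hp | hp
        · exact ⟨(hB.1 p hp).1, (hB.1 p hp).2.1⟩
        · exact hA.1 p hp
      · intro p hp p' hp' hne
        rw [mem_union] at hp hp'
        rcases hp with hp | hp <;> rcases hp' with hp' | hp'
        · exact hB.att.2 p hp p' hp' hne
        · exact disjoint_of_subset_left (erase_subset _ _)
            (disjoint_of_subset_right (erase_subset _ _) (h1 p hp p' hp'))
        · exact disjoint_of_subset_left (erase_subset _ _)
            (disjoint_of_subset_right (erase_subset _ _) (h1 p' hp' p hp).symm)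
        · exact disjoint_of_subset_left (erase_subset _ _)
            (disjoint_of_subset_right (erase_subset _ _) (hA.2 p hp p' hp' hne))
    · ext p
      rw [mem_filter, mem_union]
      constructor
      · rintro ⟨h4 | h4, h5⟩
        · exact h4
        · exact (h3 p h4 h5).elim
      · intro h4
        exact ⟨Or.inl h4, (hB.1 p h4).2.2⟩
    · rw [prod_union h2]
      congr 1
      · apply prod_congr rfl
        intro p hp
        rw [wy, if_pos (hB.1 p hp).2.2]
      · apply prod_congr rfl
        intro p hp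
        rw [wy, if_neg (h3 p hp)]

/-! ### grouping the stars by their partners -/

lemma StB_VB {y : α} {B : Finset α} (hB : StB i y B) :
    ((VB i B).erase y).card = B.card ∧ insert y ((VB i B).erase y) = insert y (VB i B) := by
  constructor
  · have h1 : (VB i B).erase y = B.biUnion fun p => (bd i p).erase y := by
      unfold VB
      ext x
      simp only [mem_erase, mem_biUnion]
      tauto
    rw [h1, card_biUnion (fun p hp p' hp' hne => hB.att.2 p hp p' hp' hne)]
    have h2 : ∀ p ∈ B, ((bd i p).erase y).card = 1 := by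
      intro p hp
      rw [card_erase_of_mem (hB.1 p hp).2.2, (hB.1 p hp).2.1]
    rw [sum_congr rfl h2, sum_const, smul_eq_mul, mul_one]
  · ext x
    simp only [mem_insert, mem_erase]
    tauto

/-- sum over the choices of the elements of a star -/
lemma star_choice (hg : Grad α) {y : α} {N : Finset α} (hyN : y ∉ N) :
    ∑ B ∈ univ.filter (fun B => StB i y B ∧ (VB i B).erase y = N), ∏ p ∈ B, -sgn0 i p =
      ∏ x ∈ N, -W0 i {y, x} := by
  have hW : ∀ x ∈ N, -W0 i {y, x} = ∑ p ∈ Db i {y, x}, -sgn0 i p := by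
    intro x _
    rw [W0, sum_neg_distrib]
  rw [prod_congr rfl hW, prod_sum]
  have hbd : ∀ q ∈ N.pi (fun x => Db i {y, x}), ∀ x : {x // x ∈ N},
      ds i (q x.1 x.2) = 1 ∧ bd i (q x.1 x.2) = {y, x.1} := by
    intro q hq x
    rw [mem_pi] at hq
    exact mem_Db.1 (hq x.1 x.2)
  have hpair : ∀ a ∈ N, ∀ b ∈ N, ({y, a} : Finset α) = {y, b} → a = b := by
    intro a ha b hb h
    have h1 : a ∈ ({y, b} : Finset α) := by
      rw [← h]
      simp
    rw [mem_insert, mem_singleton] at h1
    rcases h1 with h1 | h1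
    · rw [h1] at ha
      exact (hyN ha).elim
    · exact h1
  have hinj : ∀ q ∈ N.pi (fun x => Db i {y, x}), ∀ a b : {x // x ∈ N},
      q a.1 a.2 = q b.1 b.2 → a = b := by
    intro q hq a b hab
    apply Subtype.ext
    apply hpair a.1 a.2 b.1 b.2
    rw [← (hbd q hq a).2, ← (hbd q hq b).2, hab]
  symm
  refine sum_bij (fun q _ => N.attach.image fun x => q x.1 x.2) ?_ ?_ ?_ ?_
  · intro q hq
    rw [mem_filter]
    refine ⟨mem_univ _, ⟨fun p hp => ?_, fun p hp p' hp' hpp => ?_⟩, ?_⟩
    · rw [mem_image] at hp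
      obtain ⟨x, _, rfl⟩ := hp
      refine ⟨(hbd q hq x).1, ?_, ?_⟩
      · rw [(hbd q hq x).2, card_pair]
        rintro rfl
        exact hyN x.2
      · rw [(hbd q hq x).2]
        exact mem_insert_self _ _
    · rw [mem_image] at hp hp'
      obtain ⟨a, _, rfl⟩ := hp
      obtain ⟨b, _, rfl⟩ := hp'
      rw [(hbd q hq a).2, (hbd q hq b).2]
      intro h
      have h1 := hpair a.1 a.2 b.1 b.2 h
      apply hpp
      have h2 : a = b := Subtype.ext h1
      rw [h2]
    · ext x
      rw [mem_erase, mem_VB]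
      constructor
      · rintro ⟨h1, p, hp, hx⟩
        rw [mem_image] at hp
        obtain ⟨a, _, rfl⟩ := hp
        rw [(hbd q hq a).2, mem_insert, mem_singleton] at hx
        rcases hx with hx | hx
        · exact (h1 hx).elim
        · rw [hx]
          exact a.2
      · intro hx
        refine ⟨?_, q x hx, mem_image.2 ⟨⟨x, hx⟩, mem_attach _ _, rfl⟩, ?_⟩
        · rintro rfl
          exact hyN hx
        · rw [(hbd q hq ⟨x, hx⟩).2]
          simp
  · intro q hq q' hq' h
    funext x hx
    have h1 : q x hx ∈ N.attach.image fun x => q' x.1 x.2 := by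
      rw [← h]
      exact mem_image.2 ⟨⟨x, hx⟩, mem_attach _ _, rfl⟩
    rw [mem_image] at h1
    obtain ⟨a, _, ha⟩ := h1
    have h2 := (hbd q' hq' a).2
    rw [ha, (hbd q hq ⟨x, hx⟩).2] at h2
    have h3 := hpair x hx a.1 a.2 h2
    subst h3
    exact ha.symm
  · intro B hB
    rw [mem_filter] at hB
    obtain ⟨_, hB1, hB2⟩ := hB
    have hex : ∀ x ∈ N, ∃ p, p ∈ B ∧ bd i p = {y, x} := by
      intro x hx
      rw [← hB2, mem_erase, mem_VB] at hx
      obtain ⟨h1, p, hp, hpx⟩ := hx
      obtain ⟨y', h2, h3⟩ := pair_other (hB1.1 p hp).2.1 (hB1.1 p hp).2.2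
      rw [h3, mem_insert, mem_singleton] at hpx
      rcases hpx with h4 | h4
      · exact (h1 h4).elim
      · exact ⟨p, hp, by rw [h3, h4]⟩
    choose q hq hq' using hex
    refine ⟨q, ?_, ?_⟩
    · rw [mem_pi]
      intro x hx
      rw [mem_Db]
      exact ⟨(hB1.1 _ (hq x hx)).1, hq' x hx⟩
    · ext p
      rw [mem_image]
      constructor
      · rintro ⟨x, _, rfl⟩
        exact hq x.1 x.2
      · intro hp
        obtain ⟨y', h2, h3⟩ := pair_other (hB1.1 p hp).2.1 (hB1.1 p hp).2.2
        have hy' : y' ∈ N := by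
          rw [← hB2, mem_erase, mem_VB]
          refine ⟨h2, p, hp, ?_⟩
          rw [h3]
          simp
        refine ⟨⟨y', hy'⟩, mem_attach _ _, ?_⟩
        by_contra h4
        exact hB1.2 _ (hq y' hy') p hp h4 (by rw [hq' y' hy', h3])
  · intro q hq
    rw [prod_image (fun x _ y _ hxy => hinj q hq x y hxy)]

/-- the polynomial of an excited element -/
noncomputable def Qy (i : ℕ) (y : α) : ℤ[X] :=
  ∑ N ∈ ((lev α i).erase y).powerset, (∏ x ∈ N, (-(C (W0 i {y, x}) * X))) *
    MP (W0 i) (lev α i \ insert y N)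

theorem SA_sum (hg : Grad α) {y : α} (hy : corank y = i) (J : ℕ) :
    ∑ A ∈ (univ.filter fun A => Att i y A).filter (fun A => A.card = J), ∏ p ∈ A, wy i y p =
      (Qy i y).coeff J := by
  rw [SA_sum_y hg hy]
  congr 1
  have hmap : ∀ B ∈ univ.filter (fun B => StB i y B),
      (VB i B).erase y ∈ ((lev α i).erase y).powerset := by
    intro B hB
    rw [mem_filter] at hB
    rw [mem_powerset]
    apply erase_subset_erase
    intro x hx
    obtain ⟨p, hp, hp'⟩ := mem_VB.1 hx
    exact bd_sub_lev hg (hB.2.1 p hp).1 hp'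
  rw [← sum_fiberwise_of_maps_to hmap, Qy]
  apply sum_congr rfl
  intro N hN
  have hyN : y ∉ N := by
    intro h
    have := mem_powerset.1 hN h
    simp at this
  have h1 : ∏ x ∈ N, (-(C (W0 i {y, x}) * X)) = C (∏ x ∈ N, -W0 i {y, x}) * X ^ N.card := by
    rw [map_prod, ← prod_const, ← prod_mul_distrib]
    apply prod_congr rfl
    intro x _
    rw [C_neg, neg_mul]
  rw [h1, ← star_choice hg hyN, filter_filter, map_sum, sum_mul, sum_mul]
  apply sum_congr rfl
  intro B hB
  rw [mem_filter] at hB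
  obtain ⟨h2, h3⟩ := StB_VB hB.2.1
  rw [hB.2.2] at h2 h3
  rw [← h2, h3]
  ring

end Pool.Gauss
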