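import Pool.Agent.Work.MP_065141_co.K.KOne6

/-!
# The first order relation in terms of matching polynomials
-/

set_option autoImplicit false
set_option linter.unusedSectionVars false
set_option linter.unusedVariables false
open scoped Classical
open Finset Polynomial

namespace Pool.Gauss

variable {α : Type} [Fintype α] [PartialOrder α] {i : ℕ}

/-- the double elements of row `i + 1` -/
noncomputable def DbD (i : ℕ) : Finset α :=
  univ.filter fun p => ds i p = 1 ∧ (bd i p).card = 2 ∧ i < corank p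

/-- the elements at distance two over one double element -/
noncomputable def Vs (i : ℕ) : Finset α :=
  univ.filter fun v => ds i v = 2 ∧ (bd i v).card = 1 ∧ Mch i (bd i v)

/-- the elements at distance two over two disjoint double elements -/
noncomputable def V4 (i : ℕ) : Finset α :=
  univ.filter fun v => ds i v = 2 ∧ (bd i v).card = 2 ∧ Mch i (bd i v)

lemma mem_DbD {p : α} : p ∈ DbD i ↔ ds i p = 1 ∧ (bd i p).card = 2 ∧ i < corank p := by
  simp [DbD]
lemma mem_Vs {v : α} : v ∈ Vs i ↔ ds i v = 2 ∧ (bd i v).card = 1 ∧ Mch i (bd i v) := by simp [Vs]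
lemma mem_V4 {v : α} : v ∈ V4 i ↔ ds i v = 2 ∧ (bd i v).card = 2 ∧ Mch i (bd i v) := by simp [V4]

/-- matchings with a marked element of row `i + 1` -/
theorem SM_sum (hg : Grad α) (J : ℕ) :
    ∑ A ∈ SM (α := α) i J, ((A.filter fun p => i < corank p).card : ℤ) * ∏ p ∈ A, sgn0 i p =
      (∑ p ∈ DbD i, X * MP (W0 i) (lev α i \ bd i p)).coeff J := by
  have h1 : ∀ A ∈ SM (α := α) i J,
      ((A.filter fun p => i < corank p).card : ℤ) * ∏ p ∈ A, sgn0 i p =
        ∑ q ∈ DbD i, if q ∈ A then ∏ p ∈ A, sgn0 i p else 0 := by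
    intro A hA
    rw [mem_SM] at hA
    rw [← sum_filter, sum_const, nsmul_eq_mul]
    congr 2
    congr 1
    ext p
    rw [mem_filter, mem_filter, mem_DbD]
    constructor
    · rintro ⟨h1, h2⟩
      exact ⟨⟨(hA.1.1 p h1).1, (hA.1.1 p h1).2, h2⟩, h1⟩
    · rintro ⟨⟨_, _, h1⟩, h2⟩
      exact ⟨h2, h1⟩
  rw [sum_congr rfl h1, sum_comm, finsetSum_coeff]
  apply sum_congr rfl
  intro q hq
  rw [mem_DbD] at hq
  have hM : Mch i {q} := by
    refine ⟨fun p hp => ?_, fun p hp p' hp' hne => ?_⟩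
    · rw [mem_singleton] at hp
      rw [hp]
      exact ⟨hq.1, hq.2.1⟩
    · rw [mem_singleton] at hp hp'
      exact (hne (by rw [hp, hp'])).elim
  have h2 := super_sum hg hM J
  rw [prod_singleton, card_singleton, pow_one, VB_single] at h2
  have h3 : sgn0 i q = 1 := by
    unfold sgn0
    rw [if_neg (by omega)]
  rw [h3, C_1, one_mul] at h2
  rw [← h2, ← sum_filter]
  apply sum_congr _ (fun _ _ => rfl)
  ext A
  rw [mem_filter, mem_filter, mem_SM, singleton_subset_iff]
  constructor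
  · rintro ⟨⟨h1, h2⟩, h3⟩
    exact ⟨mem_univ _, h1, h3, h2⟩
  · rintro ⟨_, h1, h2, h3⟩
    exact ⟨⟨h1, h3⟩, h2⟩

/-- an excited element at distance two -/
theorem SV_sum (hg : Grad α) (hl : HasLower α i) (hdeg : ∀ p : α, (bd i p).card ≤ 2) (J : ℕ) :
    ∑ x ∈ SV (α := α) i J, ∏ p ∈ x.2, sgn0 i p =
      (∑ v ∈ Vs (α := α) i, C (sgn0 i v) * (X ^ 2 * MP (W0 i) (lev α i \ BB i v)) +
        ∑ v ∈ V4 (α := α) i, X ^ 3 * MP (W0 i) (lev α i \ BB i v)).coeff J := by
  have h1 : ∑ x ∈ SV (α := α) i J, ∏ p ∈ x.2, sgn0 i p =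
      ∑ v ∈ univ.filter (fun v : α => ds i v = 2 ∧ Mch i (bd i v)),
        ∑ A ∈ univ.filter (fun A => Mch i A ∧ bd i v ⊆ A ∧ A.card + 1 = J), ∏ p ∈ A, sgn0 i p := by
    rw [Finset.sum_sigma']
    refine Finset.sum_bij' (fun x _ => ⟨x.1, x.2⟩) (fun x _ => (x.1, x.2)) ?_ ?_ ?_ ?_ ?_
    · rintro ⟨v, A⟩ hx
      rw [mem_SV] at hx
      simp only at hx
      rw [mem_sigma, mem_filter, mem_filter]
      exact ⟨⟨mem_univ _, hx.1, hx.2.1.mono hx.2.2.1⟩, mem_univ _, hx.2.1, hx.2.2.1, hx.2.2.2⟩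
    · rintro ⟨v, A⟩ hx
      rw [mem_sigma, mem_filter, mem_filter] at hx
      simp only at hx
      rw [mem_SV]
      exact ⟨hx.1.2.1, hx.2.2.1, hx.2.2.2.1, hx.2.2.2.2⟩
    · rintro ⟨v, A⟩ _; rfl
    · rintro ⟨v, A⟩ _; rfl
    · rintro ⟨v, A⟩ _; rfl
  have h2 : ∀ v ∈ univ.filter (fun v : α => ds i v = 2 ∧ Mch i (bd i v)),
      ∑ A ∈ univ.filter (fun A => Mch i A ∧ bd i v ⊆ A ∧ A.card + 1 = J), ∏ p ∈ A, sgn0 i p =
      (C (∏ p ∈ bd i v, sgn0 i p) *
        (X ^ ((bd i v).card + 1) * MP (W0 i) (lev α i \ BB i v))).coeff J := by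
    intro v hv
    rw [mem_filter] at hv
    rcases J with _ | J
    · rw [sum_eq_zero]
      · have h4 : C (∏ p ∈ bd i v, sgn0 i p) *
          (X ^ ((bd i v).card + 1) * MP (W0 i) (lev α i \ BB i v)) =
            X * (C (∏ p ∈ bd i v, sgn0 i p) * (X ^ (bd i v).card *
              MP (W0 i) (lev α i \ BB i v))) := by
          ring
        rw [h4, coeff_X_mul_zero]
      · intro A hA
        rw [mem_filter] at hA
        omega
    · have h3 := super_sum hg hv.2.2 J
      have h4 : C (∏ p ∈ bd i v, sgn0 i p) *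
        (X ^ ((bd i v).card + 1) * MP (W0 i) (lev α i \ BB i v)) =
          X * (C (∏ p ∈ bd i v, sgn0 i p) * (X ^ (bd i v).card *
            MP (W0 i) (lev α i \ VB i (bd i v)))) := by
        have : BB i v = VB i (bd i v) := rfl
        rw [this]
        ring
      rw [h4, coeff_X_mul, ← h3]
      apply sum_congr _ (fun _ _ => rfl)
      ext A
      rw [mem_filter, mem_filter]
      constructor
      · rintro ⟨_, h5, h6, h7⟩
        exact ⟨mem_univ _, h5, h6, by omega⟩
      · rintro ⟨_, h5, h6, h7⟩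
        exact ⟨mem_univ _, h5, h6, by omega⟩
  have h3 : (univ.filter fun v : α => ds i v = 2 ∧ Mch i (bd i v)) = Vs i ∪ V4 i := by
    ext v
    rw [mem_union, mem_Vs, mem_V4, mem_filter]
    constructor
    · rintro ⟨_, h4, h5⟩
      have h6 := hdeg v
      obtain ⟨t, ht⟩ := exists_near hg hl (p := v) (by
        intro h
        rw [ds_eq_zero.2 h] at h4
        omega)
      have h7 : 0 < (bd i v).card := card_pos.2 ⟨t, mem_bd.2 ht⟩
      rcases (by omega : (bd i v).card = 1 ∨ (bd i v).card = 2) with h8 | h8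
      · exact Or.inl ⟨h4, h8, h5⟩
      · exact Or.inr ⟨h4, h8, h5⟩
    · rintro (⟨h4, _, h5⟩ | ⟨h4, _, h5⟩)
      · exact ⟨mem_univ _, h4, h5⟩
      · exact ⟨mem_univ _, h4, h5⟩
  have h4 : Disjoint (Vs i : Finset α) (V4 i) := by
    rw [Finset.disjoint_left]
    intro v hv hv'
    rw [mem_Vs] at hv
    rw [mem_V4] at hv'
    omega
  rw [h1, sum_congr rfl h2, h3, sum_union h4, coeff_add, finsetSum_coeff, finsetSum_coeff]
  -- the sign of the nearer neighbours
  have hside : ∀ v : α, ds i v = 2 → ∀ p ∈ bd i v, sgn0 i p = sgn0 i v := by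
    intro v hv p hp
    have h5 := fr_ds hg (mem_bd.1 hp)
    have h6 := mem_bd.1 hp
    unfold sgn0
    rcases h6 with ⟨h6, h7⟩ | ⟨h6, h7⟩
    · have h8 := hg _ _ h7
      rw [if_neg (by omega), if_neg (by omega)]
    · have h8 := hg _ _ h7
      rw [if_pos (by unfold ds at hv; omega), if_pos (by unfold ds at hv; omega)]
  congr 1
  · apply sum_congr rfl
    intro v hv
    rw [mem_Vs] at hv
    rw [prod_congr rfl (hside v hv.1), prod_const, hv.2.1, pow_one]
  · apply sum_congr rfl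
    intro v hv
    rw [mem_V4] at hv
    rw [prod_congr rfl (hside v hv.1), prod_const, hv.2.1, sq, sgn0_sq, C_1, one_mul]

end Pool.Gauss
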