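import Pool.Agent.Work.MP_065141_co.K.KOne7

/-!
# The first order polynomial of a row

For a Gaussian poset whose elements have at most two upper and at most two lower covers the
polynomial `K1r i` (a sum of matching polynomials of the signed multiplicities `Wt i` on
subsets of row `i`) is constant: these are all the relations of the first order at level `i`,
for any number of defects and any degrees at level `i`.
-/

set_option autoImplicit false
set_option linter.unusedSectionVars false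
set_option linter.unusedVariables false
open scoped Classical
open Finset Polynomial

namespace Pool.Gauss

variable {α : Type} [Fintype α] [PartialOrder α] {i : ℕ}

/-- an element at distance two with value two -/
theorem SW_sum (hg : Grad α) (hl : HasLower α i) (J : ℕ) :
    ∑ x ∈ SW (α := α) i J, sgn0 i x.1 * ∏ p ∈ x.2, sgn0 i p =
      (∑ v ∈ V4 (α := α) i, C (sgn0 i v) * (X ^ 4 * MP (W0 i) (lev α i \ BB i v))).coeff J := by
  have h1 : ∑ x ∈ SW (α := α) i J, sgn0 i x.1 * ∏ p ∈ x.2, sgn0 i p =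
      ∑ v ∈ V4 (α := α) i,
        ∑ A ∈ univ.filter (fun A => Mch i A ∧ bd i v ⊆ A ∧ A.card + 2 = J),
          sgn0 i v * ∏ p ∈ A, sgn0 i p := by
    rw [Finset.sum_sigma']
    refine Finset.sum_bij' (fun x _ => ⟨x.1, x.2⟩) (fun x _ => (x.1, x.2)) ?_ ?_ ?_ ?_ ?_
    · rintro ⟨v, A⟩ hx
      rw [mem_SW] at hx
      simp only at hx
      rw [mem_sigma, mem_V4, mem_filter]
      exact ⟨⟨hx.1, hx.2.1, hx.2.2.1.mono hx.2.2.2.1⟩, mem_univ _, hx.2.2.1, hx.2.2.2.1,
        hx.2.2.2.2⟩
    · rintro ⟨v, A⟩ hx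
      rw [mem_sigma, mem_V4, mem_filter] at hx
      simp only at hx
      rw [mem_SW]
      exact ⟨hx.1.1, hx.1.2.1, hx.2.2.1, hx.2.2.2.1, hx.2.2.2.2⟩
    · rintro ⟨v, A⟩ _; rfl
    · rintro ⟨v, A⟩ _; rfl
    · rintro ⟨v, A⟩ _; rfl
  rw [h1, finsetSum_coeff]
  apply sum_congr rfl
  intro v hv
  rw [mem_V4] at hv
  rw [← mul_sum, coeff_C_mul]
  congr 1
  have hside : ∀ p ∈ bd i v, sgn0 i p = sgn0 i v := by
    intro p hp
    have h5 := fr_ds hg (mem_bd.1 hp)
    have h6 := mem_bd.1 hp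
    unfold sgn0
    rcases h6 with ⟨h6, h7⟩ | ⟨h6, h7⟩
    · have h8 := hg _ _ h7
      rw [if_neg (by omega), if_neg (by omega)]
    · have h8 := hg _ _ h7
      rw [if_pos (by have := hv.1; unfold ds at this; omega),
        if_pos (by have := hv.1; unfold ds at this; omega)]
  have h2 : ∏ p ∈ bd i v, sgn0 i p = 1 := by
    rw [prod_congr rfl hside, prod_const, hv.2.1, sq, sgn0_sq]
  rcases Nat.lt_or_ge J 2 with hJ | hJ
  · rw [sum_eq_zero, coeff_X_pow_mul', if_neg (by omega)]
    intro A hA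
    rw [mem_filter] at hA
    omega
  · obtain ⟨K, rfl⟩ : ∃ K, J = K + 2 := ⟨J - 2, by omega⟩
    have h3 := super_sum hg hv.2.2 K
    rw [h2, C_1, one_mul, hv.2.1] at h3
    have h4 : X ^ 4 * MP (W0 i) (lev α i \ BB i v) =
        X ^ 2 * (X ^ 2 * MP (W0 i) (lev α i \ VB i (bd i v))) := by
      have : BB i v = VB i (bd i v) := rfl
      rw [this]
      ring
    rw [h4, coeff_X_pow_mul, ← h3]
    apply sum_congr _ (fun _ _ => rfl)
    ext A
    rw [mem_filter, mem_filter]
    constructor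
    · rintro ⟨_, h5, h6, h7⟩
      exact ⟨mem_univ _, h5, h6, by omega⟩
    · rintro ⟨_, h5, h6, h7⟩
      exact ⟨mem_univ _, h5, h6, by omega⟩

/-- the excited elements of level `i` -/
theorem SA_total (hg : Grad α) (J : ℕ) :
    ∑ x ∈ SA (α := α) i J, ∏ p ∈ x.2, wy i x.1 p = (X * ∑ y ∈ lev α i, Qy i y).coeff J := by
  have h1 : ∑ x ∈ SA (α := α) i J, ∏ p ∈ x.2, wy i x.1 p =
      ∑ y ∈ lev α i,
        ∑ A ∈ univ.filter (fun A => Att i y A ∧ A.card + 1 = J), ∏ p ∈ A, wy i y p := by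
    rw [Finset.sum_sigma']
    refine Finset.sum_bij' (fun x _ => ⟨x.1, x.2⟩) (fun x _ => (x.1, x.2)) ?_ ?_ ?_ ?_ ?_
    · rintro ⟨v, A⟩ hx
      rw [mem_SA] at hx
      simp only at hx
      rw [mem_sigma, mem_lev, mem_filter]
      exact ⟨hx.1, mem_univ _, hx.2.1, hx.2.2⟩
    · rintro ⟨v, A⟩ hx
      rw [mem_sigma, mem_lev, mem_filter] at hx
      simp only at hx
      rw [mem_SA]
      exact ⟨hx.1, hx.2.2.1, hx.2.2.2⟩
    · rintro ⟨v, A⟩ _; rfl
    · rintro ⟨v, A⟩ _; rfl
    · rintro ⟨v, A⟩ _; rfl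
  rw [h1]
  rcases J with _ | J
  · rw [coeff_X_mul_zero]
    apply sum_eq_zero
    intro y _
    apply sum_eq_zero
    intro A hA
    rw [mem_filter] at hA
    omega
  · rw [coeff_X_mul, finsetSum_coeff]
    apply sum_congr rfl
    intro y hy
    rw [← SA_sum hg (mem_lev.1 hy), filter_filter]
    apply sum_congr _ (fun _ _ => rfl)
    ext A
    rw [mem_filter, mem_filter]
    constructor
    · rintro ⟨_, h2, h3⟩
      exact ⟨mem_univ _, h2, by omega⟩
    · rintro ⟨_, h2, h3⟩
      exact ⟨mem_univ _, h2, by omega⟩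

/-- the defects, as polynomials -/
lemma DBs_sum (hg : Grad α) (f : Finset α → ℤ[X]) :
    ∑ B ∈ DBs i, C (sO i B) * (X ^ B.card * f (VB i B)) =
      -(X * ∑ s ∈ Sg1 (α := α) i, f (bd i s)) - X ^ 2 * ∑ B ∈ AdD (α := α) i, f (VB i B) +
        X ^ 2 * ∑ B ∈ AdU (α := α) i, f (VB i B) := by
  have h1 : Disjoint ((Sg1 (α := α) i).image (fun s => ({s} : Finset α)))
      (AdD (α := α) i ∪ AdU i) := by
    rw [Finset.disjoint_left]
    intro B hB hB'
    rw [mem_image] at hB
    obtain ⟨s, _, rfl⟩ := hB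
    rw [mem_union, mem_AdD, mem_AdU, card_singleton] at hB'
    omega
  have h2 : Disjoint (AdD (α := α) i) (AdU i) := by
    rw [Finset.disjoint_left]
    intro B hB hB'
    rw [mem_AdD] at hB
    rw [mem_AdU] at hB'
    obtain ⟨p, hp⟩ := card_pos.1 (by omega : 0 < B.card)
    have h3 := (hB.2.1 p hp).2.2
    have h4 := (hB'.2.1 p hp).2.2
    omega
  rw [DBs, sum_union h1, sum_union h2, sum_image (fun a _ b _ hab => singleton_injective hab)]
  have h3 : ∀ s ∈ Sg1 (α := α) i, C (sO i {s}) * (X ^ ({s} : Finset α).card * f (VB i {s})) =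
      -(X * f (bd i s)) := by
    intro s hs
    rw [mem_Sg1] at hs
    have h4 : sO i {s} = -1 := by
      unfold sO
      have h5 := hs.1
      unfold ds at h5
      rcases lt_or_gt_of_ne (by omega : corank s ≠ i) with h6 | h6
      · rw [filter_singleton, if_pos h6, filter_singleton, if_neg (by omega)]
        simp
      · rw [filter_singleton, if_neg (by omega), filter_singleton, if_pos h6, singleton_biUnion,
          hs.2]
        simp
    rw [h4, card_singleton, pow_one, VB_single, C_neg, C_1]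
    ring
  have h4 : ∀ B ∈ AdD (α := α) i, C (sO i B) * (X ^ B.card * f (VB i B)) =
      -(X ^ 2 * f (VB i B)) := by
    intro B hB
    rw [mem_AdD] at hB
    have h5 : sO i B = -1 := by
      unfold sO
      have h6 : B.filter (fun p => corank p < i) = ∅ :=
        filter_false_of_mem fun p hp => by
          have := (hB.2.1 p hp).2.2
          omega
      have h7 : B.filter (fun p => i < corank p) = B :=
        filter_true_of_mem fun p hp => (hB.2.1 p hp).2.2
      have h8 : (B.biUnion (bd i)).card = 3 := hB.2.2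
      rw [h6, h7, h8]
      norm_num
    rw [h5, hB.1, C_neg, C_1]
    ring
  have h5 : ∀ B ∈ AdU (α := α) i, C (sO i B) * (X ^ B.card * f (VB i B)) =
      X ^ 2 * f (VB i B) := by
    intro B hB
    rw [mem_AdU] at hB
    have h5 : sO i B = 1 := by
      unfold sO
      have h6 : B.filter (fun p => i < corank p) = ∅ :=
        filter_false_of_mem fun p hp => by
          have := (hB.2.1 p hp).2.2
          omega
      have h7 : B.filter (fun p => corank p < i) = B :=
        filter_true_of_mem fun p hp => (hB.2.1 p hp).2.2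
      rw [h6, h7, hB.1]
      norm_num
    rw [h5, hB.1, C_1]
    ring
  rw [sum_congr rfl h3, sum_congr rfl h4, sum_congr rfl h5, sum_neg_distrib, sum_neg_distrib,
    mul_sum, mul_sum, mul_sum]
  ring

/-- the matching polynomial of row `i` without `S` -/
noncomputable def Mo (i : ℕ) (S : Finset α) : ℤ[X] := MP (W0 i) (lev α i \ S)

/-- **the first order polynomial** of row `i` -/
noncomputable def K1r (α : Type) [Fintype α] [PartialOrder α] (i : ℕ) : ℤ[X] :=
  ∑ y ∈ lev α i, Qy i y - ∑ s ∈ Sg1 (α := α) i, Mo i (bd i s) -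
    X * ∑ B ∈ AdD (α := α) i, Mo i (VB i B) + X * ∑ B ∈ AdU (α := α) i, Mo i (VB i B) +
    X * ∑ v ∈ Vs (α := α) i, C (sgn0 i v) * Mo i (BB i v) +
    X ^ 2 * ∑ v ∈ V4 (α := α) i, (1 + C (sgn0 i v) * X) * Mo i (BB i v) -
    3 * ∑ p ∈ DbD (α := α) i, Mo i (bd i p)

/-- **all relations of the first order** -/
theorem K1r_coeff {h : Fin (Fintype.card α) → ℕ} (hG : IsGaussianWith α h) (hl : HasLower α i)
    (hdeg : ∀ p : α, (bd i p).card ≤ 2) {J : ℕ} (hJ : 1 ≤ J) : (K1r α i).coeff J = 0 := by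
  have hg := grad hG
  have h1 := first_order_all hG hl hdeg (J := J + 1) (by omega)
  rw [SA_total hg, SO_sum hg hdeg, SV_sum hg hl hdeg, SW_sum hg hl, SM_sum hg] at h1
  have h2 : X * K1r α i = X * ∑ y ∈ lev α i, Qy i y +
      ∑ B ∈ DBs i, C (sO i B) * (X ^ B.card * MP (W0 i) (lev α i \ VB i B)) +
      (∑ v ∈ Vs (α := α) i, C (sgn0 i v) * (X ^ 2 * MP (W0 i) (lev α i \ BB i v)) +
        ∑ v ∈ V4 (α := α) i, X ^ 3 * MP (W0 i) (lev α i \ BB i v)) +
      ∑ v ∈ V4 (α := α) i, C (sgn0 i v) * (X ^ 4 * MP (W0 i) (lev α i \ BB i v)) -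
      3 * ∑ p ∈ DbD (α := α) i, X * MP (W0 i) (lev α i \ bd i p) := by
    have h3 := DBs_sum (i := i) hg (fun S => MP (W0 i) (lev α i \ S))
    rw [h3, K1r]
    simp only [Mo, mul_sum, mul_add, mul_sub, add_mul, one_mul, sum_add_distrib]
    have e1 : ∀ v : α, X * (X * (C (sgn0 i v) * MP (W0 i) (lev α i \ BB i v))) =
        C (sgn0 i v) * (X ^ 2 * MP (W0 i) (lev α i \ BB i v)) := fun v => by ring
    have e2 : ∀ v : α, X * (X ^ 2 * MP (W0 i) (lev α i \ BB i v)) =
        X ^ 3 * MP (W0 i) (lev α i \ BB i v) := fun v => by ring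
    have e3 : ∀ v : α, X * (X ^ 2 * (C (sgn0 i v) * X * MP (W0 i) (lev α i \ BB i v))) =
        C (sgn0 i v) * (X ^ 4 * MP (W0 i) (lev α i \ BB i v)) := fun v => by ring
    have e4 : ∀ p : α, X * (3 * MP (W0 i) (lev α i \ bd i p)) =
        3 * (X * MP (W0 i) (lev α i \ bd i p)) := fun v => by ring
    have e5 : ∀ B : Finset α, X * (X * MP (W0 i) (lev α i \ VB i B)) =
        X ^ 2 * MP (W0 i) (lev α i \ VB i B) := fun v => by ring
    simp only [e1, e2, e3, e4, e5]
    ring
  rw [← coeff_X_mul, h2, coeff_sub, coeff_add, coeff_add, coeff_add]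
  have h4 : (3 * ∑ p ∈ DbD (α := α) i, X * MP (W0 i) (lev α i \ bd i p)).coeff (J + 1) =
      3 * (∑ p ∈ DbD (α := α) i, X * MP (W0 i) (lev α i \ bd i p)).coeff (J + 1) := by
    have : (3 : ℤ[X]) = C 3 := rfl
    rw [this, coeff_C_mul]
  rw [h4]
  linarith

lemma Mo_coeff_zero (S : Finset α) : (Mo i S).coeff 0 = 1 := MP_coeff_zero _ _

lemma Qy_coeff_zero (y : α) : (Qy i y).coeff 0 = 1 := by
  rw [Qy, finsetSum_coeff, sum_eq_single ∅]
  · rw [prod_empty, one_mul]
    exact MP_coeff_zero _ _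
  · intro N _ hN
    obtain ⟨x, hx⟩ := nonempty_iff_ne_empty.2 hN
    rw [mul_coeff_zero]
    have : (∏ x ∈ N, (-(C (W0 i {y, x}) * X))).coeff 0 = 0 := by
      rw [← prod_erase_mul _ _ hx, mul_coeff_zero]
      simp
    rw [this, zero_mul]
  · intro h
    exact (h (empty_mem_powerset _)).elim

/-- the constant term -/
lemma K1r_zero : (K1r α i).coeff 0 =
    (lev α i).card - (Sg1 (α := α) i).card - 3 * (DbD (α := α) i).card := by
  unfold K1r
  simp only [coeff_add, coeff_sub, mul_coeff_zero, coeff_X_zero, zero_mul, add_zero, sub_zero,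
    finsetSum_coeff, Mo_coeff_zero, Qy_coeff_zero, sum_const, nsmul_eq_mul, mul_one]
  have h1 : ((X : ℤ[X]) ^ 2).coeff 0 = 0 := by simp
  have h2 : (3 : ℤ[X]).coeff 0 = 3 := by
    have : (3 : ℤ[X]) = C 3 := rfl
    rw [this, coeff_C_zero]
  rw [h1, h2, zero_mul, add_zero]

/-- **the first order polynomial of a row is constant** -/
theorem K1r_const {h : Fin (Fintype.card α) → ℕ} (hG : IsGaussianWith α h) (hl : HasLower α i)
    (hdeg : ∀ p : α, (bd i p).card ≤ 2) : K1r α i =
      C (((lev α i).card : ℤ) - (Sg1 (α := α) i).card - 3 * (DbD (α := α) i).card) := by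
  ext J
  rcases Nat.eq_zero_or_pos J with h0 | h0
  · rw [h0, K1r_zero, coeff_C_zero]
  · rw [K1r_coeff hG hl hdeg h0, coeff_C, if_neg (by omega)]

namespace CtxK

variable (C : CtxK α)
include C

lemma W0_eq : W0 (α := α) i = Wt i := by
  funext s
  exact (C.Wt_eq s).symm

lemma Mo_eq (S : Finset α) : Mo i S = MP (Wt i) (lev α i \ S) := by
  rw [Mo, C.W0_eq]

theorem K1_const (hi : i < HT α) : K1r α i =
    Polynomial.C (((lev α i).card : ℤ) - (Sg1 (α := α) i).card - 3 * (DbD (α := α) i).card) := by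
  obtain ⟨h, hG⟩ := C.gauss
  exact K1r_const hG (C.hasLower hi) (C.bd_le i)

end CtxK

end Pool.Gauss
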