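import Pool.Agent.Work.MP_065141_co.K.MatchP

/-!
# Expansion of a matching polynomial at a vertex; marked matchings
-/

set_option autoImplicit false
set_option linter.unusedSectionVars false
set_option linter.unusedVariables false
open scoped Classical
open Finset Polynomial

namespace Pool.Gauss

variable {V : Type}

lemma mtc_mono {U U' : Finset V} (h : U ⊆ U') : mtc U ⊆ mtc U' := by
  intro F hF
  rw [mem_mtc] at hF ⊢
  exact ⟨fun s hs => ⟨(hF.1 s hs).1.trans h, (hF.1 s hs).2⟩, hF.2⟩

/-- matchings with a marked pair -/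
theorem MP_marked (W : Finset V → ℤ) (U : Finset V) :
    ∑ s ∈ U.powersetCard 2, C (W s) * X * MP W (U \ s) =
      ∑ F ∈ mtc U, (F.card : ℤ[X]) * (C (∏ s ∈ F, W s) * X ^ F.card) := by
  have h1 : ∀ F ∈ mtc U, (F.card : ℤ[X]) * (C (∏ s ∈ F, W s) * X ^ F.card) =
      ∑ s ∈ F, C (W s) * X * (C (∏ t ∈ F.erase s, W t) * X ^ (F.erase s).card) := by
    intro F hF
    rw [← nsmul_eq_mul, ← sum_const]
    apply sum_congr rfl
    intro s hs
    rw [← mul_prod_erase _ _ hs, card_erase_of_mem hs, C_mul]
    have h2 : F.card = (F.card - 1) + 1 := by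
      have := card_pos.2 ⟨s, hs⟩
      omega
    conv_lhs => rw [h2, pow_succ]
    ring
  rw [sum_congr rfl h1, Finset.sum_sigma']
  have h2 : ∀ s ∈ U.powersetCard 2, C (W s) * X * MP W (U \ s) =
      ∑ F ∈ mtc (U \ s), C (W s) * X * (C (∏ t ∈ F, W t) * X ^ F.card) := by
    intro s _
    rw [MP, mul_sum]
  rw [sum_congr rfl h2, Finset.sum_sigma']
  refine Finset.sum_bij' (fun x _ => ⟨insert x.1 x.2, x.1⟩) (fun x _ => ⟨x.2, x.1.erase x.2⟩)
    ?_ ?_ ?_ ?_ ?_
  · rintro ⟨s, F⟩ hx
    rw [mem_sigma, mem_powersetCard, mem_mtc] at hx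
    simp only at hx
    obtain ⟨⟨h3, h4⟩, h5, h6⟩ := hx
    rw [mem_sigma, mem_mtc]
    refine ⟨⟨?_, ?_⟩, mem_insert_self _ _⟩
    · intro t ht
      rw [mem_insert] at ht
      rcases ht with rfl | ht
      · exact ⟨h3, h4⟩
      · exact ⟨(h5 t ht).1.trans sdiff_subset, (h5 t ht).2⟩
    · have h7 : ∀ t ∈ F, Disjoint s t := fun t ht =>
        disjoint_of_subset_right (h5 t ht).1 disjoint_sdiff
      intro t ht t' ht' hne
      rw [mem_insert] at ht ht'
      rcases ht with rfl | ht <;> rcases ht' with rfl | ht'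
      · exact (hne rfl).elim
      · exact h7 t' ht'
      · exact (h7 t ht).symm
      · exact h6 t ht t' ht' hne
  · rintro ⟨F, s⟩ hx
    rw [mem_sigma, mem_mtc] at hx
    simp only at hx
    obtain ⟨⟨h3, h4⟩, h5⟩ := hx
    rw [mem_sigma, mem_powersetCard, mem_mtc]
    refine ⟨⟨(h3 s h5).1, (h3 s h5).2⟩, ?_, ?_⟩
    · intro t ht
      rw [mem_erase] at ht
      refine ⟨fun y hy => mem_sdiff.2 ⟨(h3 t ht.2).1 hy, fun hy' => ?_⟩, (h3 t ht.2).2⟩
      exact Finset.disjoint_left.1 (h4 t ht.2 s h5 ht.1) hy hy'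
    · intro t ht t' ht' hne
      exact h4 t (mem_erase.1 ht).2 t' (mem_erase.1 ht').2 hne
  · rintro ⟨s, F⟩ hx
    rw [mem_sigma, mem_powersetCard, mem_mtc] at hx
    simp only at hx
    obtain ⟨⟨h3, h4⟩, h5, h6⟩ := hx
    have h7 : s ∉ F := by
      intro h
      obtain ⟨y, hy⟩ : s.Nonempty := by
        rw [← card_pos]
        omega
      exact (mem_sdiff.1 ((h5 s h).1 hy)).2 hy
    simp only [erase_insert h7]
  · rintro ⟨F, s⟩ hx
    rw [mem_sigma] at hx
    simp only at hx
    simp only [insert_erase hx.2]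
  · rintro ⟨s, F⟩ hx
    rw [mem_sigma, mem_powersetCard, mem_mtc] at hx
    simp only at hx
    obtain ⟨⟨h3, h4⟩, h5, h6⟩ := hx
    have h7 : s ∉ F := by
      intro h
      obtain ⟨y, hy⟩ : s.Nonempty := by
        rw [← card_pos]
        omega
      exact (mem_sdiff.1 ((h5 s h).1 hy)).2 hy
    simp only [erase_insert h7]

/-- the marked sum vanishes if the polynomial is one -/
theorem MP_marked_zero {W : Finset V → ℤ} {U : Finset V} (h : MP W U = 1) :
    ∑ s ∈ U.powersetCard 2, C (W s) * MP W (U \ s) = 0 := by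
  have h1 : ∑ F ∈ mtc U, (F.card : ℤ[X]) * (C (∏ s ∈ F, W s) * X ^ F.card) = 0 := by
    ext J
    rw [coeff_zero, finsetSum_coeff]
    have h2 : ∀ F ∈ mtc U, ((F.card : ℤ[X]) * (C (∏ s ∈ F, W s) * X ^ F.card)).coeff J =
        if F.card = J then (J : ℤ) * ∏ s ∈ F, W s else 0 := by
      intro F _
      rw [← C_eq_natCast, coeff_C_mul, coeff_C_mul, coeff_X_pow]
      split_ifs with h3 h4 h4
      · rw [h3]
        simp
      · exact (h4 h3.symm).elim
      · exact (h3 h4.symm).elim
      · simp
    rw [sum_congr rfl h2, ← sum_filter, ← mul_sum, ← MP_coeff, h, coeff_one]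
    split_ifs with h3
    · rw [h3]
      simp
    · simp
  rw [← MP_marked] at h1
  have h2 : X * ∑ s ∈ U.powersetCard 2, C (W s) * MP W (U \ s) = 0 := by
    rw [← h1, mul_sum]
    apply sum_congr rfl
    intro s _
    ring
  rcases mul_eq_zero.1 h2 with h3 | h3
  · exact absurd h3 X_ne_zero
  · exact h3

/-- expansion at a vertex -/
theorem MP_expand (W : Finset V → ℤ) {U : Finset V} {v : V} (hv : v ∈ U) :
    MP W U = MP W (U.erase v) +
      ∑ u ∈ U.erase v, C (W {v, u}) * X * MP W ((U.erase v).erase u) := by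
  have h1 : mtc U = (mtc U).filter (fun F => ∀ s ∈ F, v ∉ s) ∪
      (mtc U).filter (fun F => ¬ ∀ s ∈ F, v ∉ s) := (filter_union_filter_not_eq _ _).symm
  have h2 : (mtc U).filter (fun F => ∀ s ∈ F, v ∉ s) = mtc (U.erase v) := by
    ext F
    rw [mem_filter, mem_mtc, mem_mtc]
    constructor
    · rintro ⟨⟨h3, h4⟩, h5⟩
      refine ⟨fun s hs => ⟨fun y hy => mem_erase.2 ⟨?_, (h3 s hs).1 hy⟩, (h3 s hs).2⟩, h4⟩
      rintro rfl
      exact h5 s hs hy
    · rintro ⟨h3, h4⟩
      refine ⟨⟨fun s hs => ⟨(h3 s hs).1.trans (erase_subset _ _), (h3 s hs).2⟩, h4⟩, ?_⟩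
      intro s hs h5
      exact (mem_erase.1 ((h3 s hs).1 h5)).1 rfl
  have h3 : ∑ F ∈ (mtc U).filter (fun F => ¬ ∀ s ∈ F, v ∉ s),
      C (∏ s ∈ F, W s) * X ^ F.card =
      ∑ u ∈ U.erase v, C (W {v, u}) * X * MP W ((U.erase v).erase u) := by
    have h4 : ∀ u ∈ U.erase v, C (W {v, u}) * X * MP W ((U.erase v).erase u) =
        ∑ F ∈ mtc ((U.erase v).erase u), C (W {v, u}) * X * (C (∏ s ∈ F, W s) * X ^ F.card) := by
      intro u _
      rw [MP, mul_sum]
    rw [sum_congr rfl h4, Finset.sum_sigma']
    symm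
    have hnot : ∀ u ∈ U.erase v, ∀ F ∈ mtc ((U.erase v).erase u), ({v, u} : Finset V) ∉ F := by
      intro u _ F hF h
      rw [mem_mtc] at hF
      have h5 : v ∈ ({v, u} : Finset V) := mem_insert_self _ _
      have h6 := (hF.1 _ h).1 h5
      rw [mem_erase, mem_erase] at h6
      exact h6.2.1 rfl
    refine Finset.sum_bij (fun x _ => insert {v, x.1} x.2) ?_ ?_ ?_ ?_
    · rintro ⟨u, F⟩ hx
      rw [mem_sigma] at hx
      simp only at hx
      obtain ⟨h5, h6⟩ := hx
      have h7 := mem_mtc.1 h6
      rw [mem_erase] at h5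
      rw [mem_filter, mem_mtc]
      refine ⟨⟨?_, ?_⟩, ?_⟩
      · intro s hs
        rw [mem_insert] at hs
        rcases hs with rfl | hs
        · refine ⟨?_, card_pair (fun h => h5.1 h.symm)⟩
          intro y hy
          rw [mem_insert, mem_singleton] at hy
          rcases hy with rfl | rfl
          · exact hv
          · exact h5.2
        · exact ⟨(h7.1 s hs).1.trans ((erase_subset _ _).trans (erase_subset _ _)), (h7.1 s hs).2⟩
      · have h8 : ∀ s ∈ F, Disjoint ({v, u} : Finset V) s := by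
          intro s hs
          rw [Finset.disjoint_left]
          intro y hy hy'
          have h9 := (h7.1 s hs).1 hy'
          rw [mem_erase, mem_erase] at h9
          rw [mem_insert, mem_singleton] at hy
          tauto
        intro s hs t ht hne
        rw [mem_insert] at hs ht
        rcases hs with rfl | hs <;> rcases ht with rfl | ht
        · exact (hne rfl).elim
        · exact h8 t ht
        · exact (h8 s hs).symm
        · exact h7.2 s hs t ht hne
      · intro h8
        exact h8 {v, u} (mem_insert_self _ _) (mem_insert_self _ _)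
    · rintro ⟨u, F⟩ hx ⟨u', F'⟩ hx' h
      rw [mem_sigma] at hx hx'
      simp only at hx hx' h
      have h5 : ({v, u} : Finset V) = {v, u'} := by
        have h6 : ({v, u} : Finset V) ∈ insert {v, u'} F' := by
          rw [← h]
          exact mem_insert_self _ _
        rw [mem_insert] at h6
        rcases h6 with h6 | h6
        · exact h6
        · exfalso
          have h7 := (mem_mtc.1 hx'.2).1 _ h6
          have h8 := h7.1 (mem_insert_self v {u})
          rw [mem_erase, mem_erase] at h8
          exact h8.2.1 rfl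
      have h6 : u = u' := by
        have h7 : u ∈ ({v, u'} : Finset V) := by
          rw [← h5]
          simp
        rw [mem_insert, mem_singleton] at h7
        rcases h7 with h7 | h7
        · exact ((mem_erase.1 hx.1).1 h7).elim
        · exact h7
      subst h6
      have h7 := hnot u hx.1 F hx.2
      have h8 := hnot u hx'.1 F' hx'.2
      have h9 : F = F' := by
        rw [← erase_insert h7, h, erase_insert h8]
      rw [h9]
    · intro F hF
      rw [mem_filter, mem_mtc] at hF
      obtain ⟨⟨h5, h6⟩, h7⟩ := hF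
      push Not at h7
      obtain ⟨s, hs, hvs⟩ := h7
      obtain ⟨a, b, hab, rfl⟩ := card_eq_two.1 (h5 s hs).2
      obtain ⟨u, hu, hs'⟩ : ∃ u, u ≠ v ∧ ({a, b} : Finset V) = {v, u} := by
        rw [mem_insert, mem_singleton] at hvs
        rcases hvs with rfl | rfl
        · exact ⟨b, hab.symm, rfl⟩
        · exact ⟨a, hab, pair_comm _ _⟩
      rw [hs'] at hs
      refine ⟨⟨u, F.erase {v, u}⟩, ?_, ?_⟩
      · rw [mem_sigma, mem_mtc]
        refine ⟨mem_erase.2 ⟨hu, (h5 _ hs).1 (by simp)⟩, ?_, ?_⟩
        · intro t ht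
          rw [mem_erase] at ht
          have h8 := h6 t ht.2 _ hs ht.1
          refine ⟨fun y hy => ?_, (h5 t ht.2).2⟩
          rw [mem_erase, mem_erase]
          refine ⟨?_, ?_, (h5 t ht.2).1 hy⟩
          · rintro rfl
            exact Finset.disjoint_left.1 h8 hy (by simp)
          · rintro rfl
            exact Finset.disjoint_left.1 h8 hy (by simp)
        · intro t ht t' ht' hne
          exact h6 t (mem_erase.1 ht).2 t' (mem_erase.1 ht').2 hne
      · exact insert_erase hs
    · rintro ⟨u, F⟩ hx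
      rw [mem_sigma] at hx
      have h5 := hnot u hx.1 F hx.2
      rw [prod_insert h5, card_insert_of_notMem h5, C_mul, pow_succ]
      ring
  rw [MP, h1, sum_union (disjoint_filter_filter_not _ _ _), h2, h3]
  rfl

/-- the number of vertices is the sum of the vertex deleted polynomials -/
theorem MP_vertex_sum {W : Finset V → ℤ} {U : Finset V} (h : MP W U = 1) :
    ∑ v ∈ U, MP W (U.erase v) = (U.card : ℤ[X]) := by
  have h1 : ∀ v ∈ U, MP W (U.erase v) = 1 -
      ∑ u ∈ U.erase v, C (W {v, u}) * X * MP W ((U.erase v).erase u) := by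
    intro v hv
    rw [← h, MP_expand W hv]
    ring
  have h2 : ∑ v ∈ U, ∑ u ∈ U.erase v, C (W {v, u}) * X * MP W ((U.erase v).erase u) =
      2 * (X * ∑ s ∈ U.powersetCard 2, C (W s) * MP W (U \ s)) := by
    have h3 : ∀ v ∈ U, ∑ u ∈ U.erase v, C (W {v, u}) * X * MP W ((U.erase v).erase u) =
        ∑ s ∈ (U.powersetCard 2).filter (fun s => v ∈ s), C (W s) * X * MP W (U \ s) := by
      intro v hv
      refine sum_bij (fun u _ => {v, u}) ?_ ?_ ?_ ?_
      · intro u hu
        rw [mem_erase] at hu
        rw [mem_filter, mem_powersetCard]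
        refine ⟨⟨?_, card_pair hu.1.symm⟩, mem_insert_self _ _⟩
        intro y hy
        rw [mem_insert, mem_singleton] at hy
        rcases hy with rfl | rfl
        · exact hv
        · exact hu.2
      · intro u hu u' hu' hh
        have h7 : u ∈ ({v, u'} : Finset V) := by
          rw [← hh]
          simp
        rw [mem_insert, mem_singleton] at h7
        rcases h7 with h7 | h7
        · exact ((mem_erase.1 hu).1 h7).elim
        · exact h7
      · intro s hs
        rw [mem_filter, mem_powersetCard] at hs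
        obtain ⟨⟨h4, h5⟩, h6⟩ := hs
        obtain ⟨a, b, hab, rfl⟩ := card_eq_two.1 h5
        rw [mem_insert, mem_singleton] at h6
        rcases h6 with rfl | rfl
        · exact ⟨b, mem_erase.2 ⟨hab.symm, h4 (by simp)⟩, rfl⟩
        · exact ⟨a, mem_erase.2 ⟨hab, h4 (by simp)⟩, pair_comm _ _⟩
      · intro u hu
        congr 2
        ext y
        simp only [mem_erase, mem_sdiff, mem_insert, mem_singleton]
        tauto
    rw [sum_congr rfl h3]
    simp only [sum_filter]
    rw [sum_comm, mul_sum, mul_sum]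
    apply sum_congr rfl
    intro s hs
    rw [← sum_filter, sum_const]
    have h4 : (U.filter fun v => v ∈ s).card = 2 := by
      rw [mem_powersetCard] at hs
      rw [← hs.2]
      congr 1
      ext y
      rw [mem_filter]
      exact ⟨fun h => h.2, fun h => ⟨hs.1 h, h⟩⟩
    rw [h4, nsmul_eq_mul]
    push_cast
    ring
  rw [sum_congr rfl h1, sum_sub_distrib, h2, MP_marked_zero h]
  simp

end Pool.Gauss
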