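import Pool.Agent.Work.MP_065141_co.K.KOne8
import Pool.Agent.Work.MP_065141_co.K.MatchX

/-!
# The first order polynomial in terms of `W = C - D` and `D`
-/

set_option autoImplicit false
set_option linter.unusedSectionVars false
set_option linter.unusedVariables false
open scoped Classical
open Finset Polynomial

namespace Pool.Gauss

variable {α : Type} [Fintype α] [PartialOrder α] {i : ℕ}

/-- the double elements of row `i - 1` -/
noncomputable def DbU (i : ℕ) : Finset α :=
  univ.filter fun p => ds i p = 1 ∧ (bd i p).card = 2 ∧ corank p < i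

lemma mem_DbU {p : α} : p ∈ DbU i ↔ ds i p = 1 ∧ (bd i p).card = 2 ∧ corank p < i := by
  simp [DbU]

/-- sum over the choices of the elements of a star, general weight -/
lemma star_choice_gen {R : Type} [CommRing R] (hg : Grad α) {y : α} {N : Finset α} (hyN : y ∉ N)
    (c : α → R) :
    ∑ B ∈ univ.filter (fun B => StB i y B ∧ (VB i B).erase y = N), ∏ p ∈ B, c p =
      ∏ x ∈ N, ∑ p ∈ Db i {y, x}, c p := by
  rw [prod_sum]
  have hbd : ∀ q ∈ N.pi (fun x => Db i {y, x}), ∀ x : {x // x ∈ N},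
      ds i (q x.1 x.2) = 1 ∧ bd i (q x.1 x.2) = {y, x.1} := by
    intro q hq x
    rw [mem_pi] at hq
    exact mem_Db.1 (hq x.1 x.2)
  have hpair : ∀ a ∈ N, ∀ b ∈ N, ({y, a} : Finset α) = {y, b} → a = b := by
    intro a ha b hb h
    have h1 : a ∈ ({y, b} : Finset α) := by
      rw [← h]
      simp
    rw [mem_insert, mem_singleton] at h1
    rcases h1 with h1 | h1
    · rw [h1] at ha
      exact (hyN ha).elim
    · exact h1
  have hinj : ∀ q ∈ N.pi (fun x => Db i {y, x}), ∀ a b : {x // x ∈ N},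
      q a.1 a.2 = q b.1 b.2 → a = b := by
    intro q hq a b hab
    apply Subtype.ext
    apply hpair a.1 a.2 b.1 b.2
    rw [← (hbd q hq a).2, ← (hbd q hq b).2, hab]
  symm
  refine sum_bij (fun q _ => N.attach.image fun x => q x.1 x.2) ?_ ?_ ?_ ?_
  · intro q hq
    rw [mem_filter]
    refine ⟨mem_univ _, ⟨fun p hp => ?_, fun p hp p' hp' hpp => ?_⟩, ?_⟩
    · rw [mem_image] at hp
      obtain ⟨x, _, rfl⟩ := hp
      refine ⟨(hbd q hq x).1, ?_, ?_⟩
      · rw [(hbd q hq x).2, card_pair]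
        rintro rfl
        exact hyN x.2
      · rw [(hbd q hq x).2]
        exact mem_insert_self _ _
    · rw [mem_image] at hp hp'
      obtain ⟨a, _, rfl⟩ := hp
      obtain ⟨b, _, rfl⟩ := hp'
      rw [(hbd q hq a).2, (hbd q hq b).2]
      intro h
      have h1 := hpair a.1 a.2 b.1 b.2 h
      apply hpp
      have h2 : a = b := Subtype.ext h1
      rw [h2]
    · ext x
      rw [mem_erase, mem_VB]
      constructor
      · rintro ⟨h1, p, hp, hx⟩
        rw [mem_image] at hp
        obtain ⟨a, _, rfl⟩ := hp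
        rw [(hbd q hq a).2, mem_insert, mem_singleton] at hx
        rcases hx with hx | hx
        · exact (h1 hx).elim
        · rw [hx]
          exact a.2
      · intro hx
        refine ⟨?_, q x hx, mem_image.2 ⟨⟨x, hx⟩, mem_attach _ _, rfl⟩, ?_⟩
        · rintro rfl
          exact hyN hx
        · rw [(hbd q hq ⟨x, hx⟩).2]
          simp
  · intro q hq q' hq' h
    funext x hx
    have h1 : q x hx ∈ N.attach.image fun x => q' x.1 x.2 := by
      rw [← h]
      exact mem_image.2 ⟨⟨x, hx⟩, mem_attach _ _, rfl⟩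
    rw [mem_image] at h1
    obtain ⟨a, _, ha⟩ := h1
    have h2 := (hbd q' hq' a).2
    rw [ha, (hbd q hq ⟨x, hx⟩).2] at h2
    have h3 := hpair x hx a.1 a.2 h2
    subst h3
    exact ha.symm
  · intro B hB
    rw [mem_filter] at hB
    obtain ⟨_, hB1, hB2⟩ := hB
    have hex : ∀ x ∈ N, ∃ p, p ∈ B ∧ bd i p = {y, x} := by
      intro x hx
      rw [← hB2, mem_erase, mem_VB] at hx
      obtain ⟨h1, p, hp, hpx⟩ := hx
      obtain ⟨y', h2, h3⟩ := pair_other (hB1.1 p hp).2.1 (hB1.1 p hp).2.2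
      rw [h3, mem_insert, mem_singleton] at hpx
      rcases hpx with h4 | h4
      · exact (h1 h4).elim
      · exact ⟨p, hp, by rw [h3, h4]⟩
    choose q hq hq' using hex
    refine ⟨q, ?_, ?_⟩
    · rw [mem_pi]
      intro x hx
      rw [mem_Db]
      exact ⟨(hB1.1 _ (hq x hx)).1, hq' x hx⟩
    · ext p
      rw [mem_image]
      constructor
      · rintro ⟨x, _, rfl⟩
        exact hq x.1 x.2
      · intro hp
        obtain ⟨y', h2, h3⟩ := pair_other (hB1.1 p hp).2.1 (hB1.1 p hp).2.2
        have hy' : y' ∈ N := by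
          rw [← hB2, mem_erase, mem_VB]
          refine ⟨h2, p, hp, ?_⟩
          rw [h3]
          simp
        refine ⟨⟨y', hy'⟩, mem_attach _ _, ?_⟩
        by_contra h4
        exact hB1.2 _ (hq y' hy') p hp h4 (by rw [hq' y' hy', h3])
  · intro q hq
    rw [prod_image (fun x _ y _ hxy => hinj q hq x y hxy)]

/-- adjacent pairs on one side of level `i` (`P` selects the side) -/
lemma Ad_sum_gen (hg : Grad α) (P : α → Prop) [DecidablePred P] (f : Finset α → ℤ[X]) :
    ∑ B ∈ univ.filter (fun B : Finset α => B.card = 2 ∧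
      (∀ p ∈ B, ds i p = 1 ∧ (bd i p).card = 2 ∧ P p) ∧ (VB i B).card = 3), f (VB i B) =
    ∑ y ∈ lev α i, ∑ N ∈ ((lev α i).erase y).powersetCard 2,
      (∏ u ∈ N, (((Db i {y, u}).filter P).card : ℤ[X])) * f (insert y N) := by
  set S := univ.filter (fun B : Finset α => B.card = 2 ∧
      (∀ p ∈ B, ds i p = 1 ∧ (bd i p).card = 2 ∧ P p) ∧ (VB i B).card = 3) with hS
  have hmS : ∀ B, B ∈ S ↔ B.card = 2 ∧
      (∀ p ∈ B, ds i p = 1 ∧ (bd i p).card = 2 ∧ P p) ∧ (VB i B).card = 3 := by
    intro B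
    rw [hS, mem_filter]
    simp
  -- the common vertex
  have h1 : ∀ B ∈ S, ((lev α i).filter fun y => ∀ p ∈ B, y ∈ bd i p).card = 1 := by
    intro B hB
    rw [hmS] at hB
    obtain ⟨h2, h3, h4⟩ := hB
    obtain ⟨p, q, hpq, rfl⟩ := card_eq_two.1 h2
    have h5 := card_union_add_card_inter (bd i p) (bd i q)
    rw [VB_pair] at h4
    rw [h4, (h3 p (by simp)).2.1, (h3 q (by simp)).2.1] at h5
    have h6 : (bd i p ∩ bd i q).card = 1 := by omega
    rw [← h6]
    congr 1
    ext y
    rw [mem_filter, mem_inter]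
    constructor
    · rintro ⟨_, h7⟩
      exact ⟨h7 p (by simp), h7 q (by simp)⟩
    · rintro ⟨h7, h8⟩
      refine ⟨bd_sub_lev hg (h3 p (by simp)).1 h7, ?_⟩
      intro r hr
      rw [mem_insert, mem_singleton] at hr
      rcases hr with rfl | rfl
      · exact h7
      · exact h8
  have h2 : ∀ B ∈ S, f (VB i B) = ∑ y ∈ lev α i, if (∀ p ∈ B, y ∈ bd i p) then f (VB i B) else 0 := by
    intro B hB
    rw [← sum_filter, sum_const, h1 B hB, one_smul]
  rw [sum_congr rfl h2, sum_comm]
  apply sum_congr rfl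
  intro y hy
  rw [← sum_filter]
  have hmap : ∀ B ∈ S.filter (fun B => ∀ p ∈ B, y ∈ bd i p),
      (VB i B).erase y ∈ ((lev α i).erase y).powersetCard 2 := by
    intro B hB
    rw [mem_filter, hmS] at hB
    obtain ⟨⟨h3, h4, h5⟩, h6⟩ := hB
    have h7 : y ∈ VB i B := by
      obtain ⟨p, hp⟩ := card_pos.1 (by omega : 0 < B.card)
      exact mem_VB.2 ⟨p, hp, h6 p hp⟩
    rw [mem_powersetCard]
    refine ⟨?_, by rw [card_erase_of_mem h7]; omega⟩
    apply erase_subset_erase
    intro x hx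
    obtain ⟨p, hp, hp'⟩ := mem_VB.1 hx
    exact bd_sub_lev hg (h4 p hp).1 hp'
  rw [← sum_fiberwise_of_maps_to hmap]
  apply sum_congr rfl
  intro N hN
  rw [mem_powersetCard] at hN
  have hyN : y ∉ N := fun h => (mem_erase.1 (hN.1 h)).1 rfl
  have h3 := star_choice_gen (i := i) hg hyN (fun p => if P p then (1 : ℤ[X]) else 0)
  have h4 : ∀ u ∈ N, (((Db i {y, u}).filter P).card : ℤ[X]) =
      ∑ p ∈ Db i {y, u}, (if P p then (1 : ℤ[X]) else 0) := by
    intro u _
    rw [sum_ite, sum_const_zero, add_zero, sum_const, nsmul_eq_mul, mul_one]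
  rw [prod_congr rfl h4, ← h3, sum_mul]
  -- compare the index sets
  have h5 : ∀ B : Finset α, ∏ p ∈ B, (if P p then (1 : ℤ[X]) else 0) =
      if (∀ p ∈ B, P p) then 1 else 0 := by
    intro B
    by_cases h : ∀ p ∈ B, P p
    · rw [if_pos h]
      exact prod_eq_one fun p hp => if_pos (h p hp)
    · rw [if_neg h]
      push Not at h
      obtain ⟨p, hp, hp'⟩ := h
      exact prod_eq_zero hp (if_neg hp')
  have h6 : ∀ B ∈ univ.filter (fun B => StB i y B ∧ (VB i B).erase y = N),
      (∏ p ∈ B, (if P p then (1 : ℤ[X]) else 0)) * f (insert y N) =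
        if (∀ p ∈ B, P p) then f (insert y N) else 0 := by
    intro B _
    rw [h5]
    split_ifs <;> simp
  rw [sum_congr rfl h6, ← sum_filter, filter_filter]
  symm
  apply sum_congr
  · ext B
    simp only [mem_filter, mem_univ, true_and, hmS]
    constructor
    · rintro ⟨⟨h7, h8⟩, h9⟩
      obtain ⟨h10, h11⟩ := StB_VB h7
      rw [h8, hN.2] at h10
      have h12 : y ∈ VB i B := by
        obtain ⟨p, hp⟩ := card_pos.1 (by omega : 0 < B.card)
        exact mem_VB.2 ⟨p, hp, (h7.1 p hp).2.2⟩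
      refine ⟨⟨by omega, fun p hp => ⟨(h7.1 p hp).1, (h7.1 p hp).2.1, h9 p hp⟩, ?_⟩,
        fun p hp => (h7.1 p hp).2.2, h8⟩
      have h13 := card_erase_of_mem h12
      rw [h8, hN.2] at h13
      omega
    · rintro ⟨⟨h7, h8, h9⟩, h10, h11⟩
      refine ⟨⟨⟨fun p hp => ⟨(h8 p hp).1, (h8 p hp).2.1, h10 p hp⟩, ?_⟩, h11⟩,
        fun p hp => (h8 p hp).2.2⟩
      intro p hp q hq hne h12
      obtain ⟨a, b, hab, rfl⟩ := card_eq_two.1 h7
      rw [VB_pair] at h9
      have h13 : bd i a = bd i b := by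
        rw [mem_insert, mem_singleton] at hp hq
        rcases hp with rfl | rfl <;> rcases hq with rfl | rfl
        · exact (hne rfl).elim
        · exact h12
        · exact h12.symm
        · exact (hne rfl).elim
      rw [h13, union_self, (h8 b (by simp)).2.1] at h9
      omega
  · intro B hB
    simp only [mem_filter, mem_univ, true_and, hmS] at hB
    obtain ⟨⟨h7, h8, h9⟩, h10, h11⟩ := hB
    have h12 : y ∈ VB i B := by
      obtain ⟨p, hp⟩ := card_pos.1 (by omega : 0 < B.card)
      exact mem_VB.2 ⟨p, hp, h10 p hp⟩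
    rw [← h11, insert_erase h12]

end Pool.Gauss
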