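import Pool.Agent.Work.MP_065141_co.K.StarMP

/-!
# The first order polynomial of a row whose clusters are disjoint stars
-/

set_option autoImplicit false
set_option linter.unusedSectionVars false
set_option linter.unusedVariables false
open scoped Classical
open Finset Polynomial

namespace Pool.Gauss

variable {α : Type} [Fintype α] [PartialOrder α] {i : ℕ} {ι : Type}

/-- the support of `Wt i` is a family of disjoint stars: new pair `{t, k}`, lost pair `{k, c}` -/
structure Stars (i : ℕ) (I : Finset ι) (t k c : ι → α) : Prop where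
  lt : ∀ j ∈ I, t j ∈ lev α i
  lk : ∀ j ∈ I, k j ∈ lev α i
  lc : ∀ j ∈ I, c j ∈ lev α i
  tk : ∀ j ∈ I, t j ≠ k j
  kc : ∀ j ∈ I, k j ≠ c j
  tc : ∀ j ∈ I, t j ≠ c j
  disj : ∀ j ∈ I, ∀ j' ∈ I, j ≠ j' → Disjoint ({t j, k j, c j} : Finset α) {t j', k j', c j'}
  wtk : ∀ j ∈ I, Wt i {t j, k j} = 1
  wkc : ∀ j ∈ I, Wt i {k j, c j} = -1
  supp : ∀ s ⊆ lev α i, s.card = 2 → Wt i s ≠ 0 → ∃ j ∈ I, s = {t j, k j} ∨ s = {k j, c j}

/-- `+1` at `t`, `-1` at `c` -/
noncomputable def sig (I : Finset ι) (t c : ι → α) (v : α) : ℤ :=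
  ∑ j ∈ I, ((if v = t j then 1 else 0) - (if v = c j then 1 else 0))

/-- the coefficient of the factor of the star `j` -/
noncomputable def sfac (t k c : ι → α) (j : ι) (S : Finset α) : ℤ :=
  (if t j ∉ S ∧ k j ∉ S then 1 else 0) - (if k j ∉ S ∧ c j ∉ S then 1 else 0)

/-- a pair inside one star -/
def SameS (I : Finset ι) (t k c : ι → α) (u v : α) : Prop :=
  ∃ j ∈ I, u ∈ ({t j, k j, c j} : Finset α) ∧ v ∈ ({t j, k j, c j} : Finset α)

lemma pair_eq_iff {a b x y : α} (hab : a ≠ b) : ({x, y} : Finset α) = {a, b} ↔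
    (x = a ∧ y = b) ∨ (x = b ∧ y = a) := by
  constructor
  · intro h
    have h1 : x ∈ ({a, b} : Finset α) := by
      rw [← h]
      simp
    have h2 : y ∈ ({a, b} : Finset α) := by
      rw [← h]
      simp
    have h3 : a ∈ ({x, y} : Finset α) := by
      rw [h]
      simp
    have h4 : b ∈ ({x, y} : Finset α) := by
      rw [h]
      simp
    rw [mem_insert, mem_singleton] at h1 h2 h3 h4
    rcases h1 with rfl | rfl
    · left
      refine ⟨rfl, ?_⟩
      rcases h4 with h4 | h4
      · exact (hab h4.symm).elim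
      · exact h4.symm
    · right
      refine ⟨rfl, ?_⟩
      rcases h3 with h3 | h3
      · exact (hab h3).elim
      · exact h3.symm
  · rintro (⟨rfl, rfl⟩ | ⟨rfl, rfl⟩)
    · rfl
    · exact pair_comm _ _

/-- sum over the pairs at a vertex -/
lemma sum_pairs_at {R : Type} [AddCommMonoid R] {U : Finset α} {v : α} (hv : v ∈ U)
    (f : Finset α → R) :
    ∑ s ∈ (U.powersetCard 2).filter (fun s => v ∈ s), f s = ∑ u ∈ U.erase v, f {v, u} := by
  symm
  refine sum_bij (fun u _ => {v, u}) ?_ ?_ ?_ ?_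
  · intro u hu
    rw [mem_erase] at hu
    rw [mem_filter, mem_powersetCard]
    refine ⟨⟨?_, card_pair hu.1.symm⟩, mem_insert_self _ _⟩
    intro y hy
    rw [mem_insert, mem_singleton] at hy
    rcases hy with rfl | rfl
    · exact hv
    · exact hu.2
  · intro u hu u' hu' hh
    have h7 : u ∈ ({v, u'} : Finset α) := by
      rw [← hh]
      simp
    rw [mem_insert, mem_singleton] at h7
    rcases h7 with h7 | h7
    · exact ((mem_erase.1 hu).1 h7).elim
    · exact h7
  · intro s hs
    rw [mem_filter, mem_powersetCard] at hs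
    obtain ⟨⟨h4, h5⟩, h6⟩ := hs
    obtain ⟨a, b, hab, rfl⟩ := card_eq_two.1 h5
    rw [mem_insert, mem_singleton] at h6
    rcases h6 with rfl | rfl
    · exact ⟨b, mem_erase.2 ⟨hab.symm, h4 (by simp)⟩, rfl⟩
    · exact ⟨a, mem_erase.2 ⟨hab, h4 (by simp)⟩, pair_comm _ _⟩
  · intro u hu
    rfl

/-- twice the sum over the pairs -/
lemma two_sum_pairs {R : Type} [CommRing R] (U : Finset α) (f : Finset α → R) :
    2 * ∑ s ∈ U.powersetCard 2, f s = ∑ v ∈ U, ∑ u ∈ U.erase v, f {v, u} := by
  rw [sum_congr rfl (fun v hv => (sum_pairs_at hv f).symm)]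
  simp only [sum_filter]
  rw [sum_comm, mul_sum]
  apply sum_congr rfl
  intro s hs
  rw [← sum_filter, sum_const]
  have h4 : (U.filter fun v => v ∈ s).card = 2 := by
    rw [mem_powersetCard] at hs
    rw [← hs.2]
    congr 1
    ext y
    rw [mem_filter]
    exact ⟨fun h => h.2, fun h => ⟨hs.1 h, h⟩⟩
  rw [h4, nsmul_eq_mul]
  push_cast
  ring

namespace Stars

variable {I : Finset ι} {t k c : ι → α} (h : Stars i I t k c)
include h

lemma idx {j j' : ι} (hj : j ∈ I) (hj' : j' ∈ I) {v : α}
    (h1 : v ∈ ({t j, k j, c j} : Finset α)) (h2 : v ∈ ({t j', k j', c j'} : Finset α)) :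
    j = j' := by
  by_contra h3
  exact Finset.disjoint_left.1 (h.disj j hj j' hj' h3) h1 h2

lemma sub {j : ι} (hj : j ∈ I) : ({t j, k j, c j} : Finset α) ⊆ lev α i := by
  intro y hy
  rw [mem_insert, mem_insert, mem_singleton] at hy
  rcases hy with rfl | rfl | rfl
  · exact h.lt j hj
  · exact h.lk j hj
  · exact h.lc j hj

lemma wtc {j : ι} (hj : j ∈ I) : Wt i {t j, c j} = 0 := by
  by_contra h1
  obtain ⟨j', hj', h2⟩ := h.supp {t j, c j} (by
    intro y hy
    rw [mem_insert, mem_singleton] at hy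
    rcases hy with rfl | rfl
    · exact h.lt j hj
    · exact h.lc j hj) (card_pair (h.tc j hj)) h1
  have h3 : t j ∈ ({t j', k j', c j'} : Finset α) := by
    have h4 : t j ∈ ({t j, c j} : Finset α) := by simp
    rcases h2 with h2 | h2 <;> rw [h2] at h4 <;> rw [mem_insert, mem_singleton] at h4 <;>
      rcases h4 with h4 | h4 <;> rw [h4] <;> simp
  have h5 := h.idx hj hj' (by simp) h3
  subst h5
  rcases h2 with h2 | h2
  · rw [pair_eq_iff (h.tk j hj)] at h2
    rcases h2 with ⟨_, h2⟩ | ⟨h2, _⟩
    · exact h.kc j hj h2.symm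
    · exact h.tk j hj h2
  · rw [pair_eq_iff (h.kc j hj)] at h2
    rcases h2 with ⟨h2, _⟩ | ⟨h2, _⟩
    · exact h.tk j hj h2
    · exact h.tc j hj h2

/-- the factor of one star -/
lemma fac_eq {j : ι} (hj : j ∈ I) (S : Finset α) :
    MP (Wt i) (({t j, k j, c j} : Finset α) \ S) = 1 + C (sfac t k c j S) * X := by
  have htk := h.tk j hj
  have hkc := h.kc j hj
  have htc := h.tc j hj
  have w1 := h.wtk j hj
  have w2 := h.wkc j hj
  have w3 := h.wtc hj
  unfold sfac
  by_cases a1 : t j ∈ S <;> by_cases a2 : k j ∈ S <;> by_cases a3 : c j ∈ S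
  · rw [MP_small]
    · simp [a1, a2, a3]
    · have : ({t j, k j, c j} : Finset α) \ S = ∅ := by
        ext y
        simp only [mem_sdiff, mem_insert, mem_singleton, notMem_empty, iff_false]
        rintro ⟨rfl | rfl | rfl, h5⟩ <;> exact h5 (by assumption)
      rw [this]
      simp
  · rw [MP_small]
    · simp [a1, a2, a3]
    · have : ({t j, k j, c j} : Finset α) \ S ⊆ {c j} := by
        intro y hy
        simp only [mem_sdiff, mem_insert, mem_singleton] at hy ⊢
        rcases hy with ⟨rfl | rfl | rfl, h5⟩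
        · exact (h5 a1).elim
        · exact (h5 a2).elim
        · rfl
      exact (card_le_card this).trans (by simp)
  · rw [MP_small]
    · simp [a1, a2, a3]
    · have : ({t j, k j, c j} : Finset α) \ S ⊆ {k j} := by
        intro y hy
        simp only [mem_sdiff, mem_insert, mem_singleton] at hy ⊢
        rcases hy with ⟨rfl | rfl | rfl, h5⟩
        · exact (h5 a1).elim
        · rfl
        · exact (h5 a3).elim
      exact (card_le_card this).trans (by simp)
  · have : ({t j, k j, c j} : Finset α) \ S = {k j, c j} := by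
      ext y
      simp only [mem_sdiff, mem_insert, mem_singleton]
      constructor
      · rintro ⟨rfl | rfl | rfl, h5⟩
        · exact (h5 a1).elim
        · exact Or.inl rfl
        · exact Or.inr rfl
      · rintro (rfl | rfl)
        · exact ⟨Or.inr (Or.inl rfl), a2⟩
        · exact ⟨Or.inr (Or.inr rfl), a3⟩
    rw [this, MP_pair _ hkc, w2]
    simp [a1, a2, a3]
  · rw [MP_small]
    · simp [a1, a2, a3]
    · have : ({t j, k j, c j} : Finset α) \ S ⊆ {t j} := by
        intro y hy
        simp only [mem_sdiff, mem_insert, mem_singleton] at hy ⊢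
        rcases hy with ⟨rfl | rfl | rfl, h5⟩
        · rfl
        · exact (h5 a2).elim
        · exact (h5 a3).elim
      exact (card_le_card this).trans (by simp)
  · have : ({t j, k j, c j} : Finset α) \ S = {t j, c j} := by
      ext y
      simp only [mem_sdiff, mem_insert, mem_singleton]
      constructor
      · rintro ⟨rfl | rfl | rfl, h5⟩
        · exact Or.inl rfl
        · exact (h5 a2).elim
        · exact Or.inr rfl
      · rintro (rfl | rfl)
        · exact ⟨Or.inl rfl, a1⟩
        · exact ⟨Or.inr (Or.inr rfl), a3⟩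
    rw [this, MP_pair _ htc, w3]
    simp [a1, a2, a3]
  · have : ({t j, k j, c j} : Finset α) \ S = {t j, k j} := by
      ext y
      simp only [mem_sdiff, mem_insert, mem_singleton]
      constructor
      · rintro ⟨rfl | rfl | rfl, h5⟩
        · exact Or.inl rfl
        · exact Or.inr rfl
        · exact (h5 a3).elim
      · rintro (rfl | rfl)
        · exact ⟨Or.inl rfl, a1⟩
        · exact ⟨Or.inr (Or.inl rfl), a2⟩
    rw [this, MP_pair _ htk, w1]
    simp [a1, a2, a3]
  · have : ({t j, k j, c j} : Finset α) \ S = {t j, k j, c j} := by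
      ext y
      simp only [mem_sdiff, mem_insert, mem_singleton]
      constructor
      · rintro ⟨h5, _⟩
        exact h5
      · rintro (rfl | rfl | rfl)
        · exact ⟨Or.inl rfl, a1⟩
        · exact ⟨Or.inr (Or.inl rfl), a2⟩
        · exact ⟨Or.inr (Or.inr rfl), a3⟩
    rw [this, MP_triple _ htk htc hkc, w1, w2, w3]
    simp [a1, a2, a3]

/-- the polynomial without `S` as a product over the stars -/
theorem Mo_prod (C : CtxK α) (S : Finset α) :
    Mo i S = ∏ j ∈ I, (1 + Polynomial.C (sfac t k c j S) * X) := by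
  rw [C.Mo_eq, MP_prod I (fun j => ({t j, k j, c j} : Finset α)) _ h.disj]
  · apply prod_congr rfl
    intro j hj
    rw [← h.fac_eq hj S]
    congr 1
    ext y
    rw [mem_inter, mem_sdiff, mem_sdiff]
    constructor
    · rintro ⟨⟨_, h1⟩, h2⟩
      exact ⟨h2, h1⟩
    · rintro ⟨h1, h2⟩
      exact ⟨⟨h.sub hj h1, h2⟩, h1⟩
  · intro s hs hs2 hne
    obtain ⟨j, hj, h1⟩ := h.supp s (hs.trans sdiff_subset) hs2 hne
    refine ⟨j, hj, ?_⟩
    intro y hy
    rcases h1 with h1 | h1 <;> rw [h1, mem_insert, mem_singleton] at hy <;>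
      rcases hy with rfl | rfl <;> simp

lemma sfac_union {j : ι} (hj : j ∈ I) {S S' : Finset α}
    (h1 : ∀ y ∈ S, y ∉ ({t j, k j, c j} : Finset α)) : sfac t k c j (S ∪ S') = sfac t k c j S' := by
  have h2 : t j ∉ S := fun h3 => h1 _ h3 (by simp)
  have h3 : k j ∉ S := fun h3 => h1 _ h3 (by simp)
  have h4 : c j ∉ S := fun h3 => h1 _ h3 (by simp)
  unfold sfac
  simp [h2, h3, h4]

lemma sfac_zero {j : ι} (hj : j ∈ I) {S : Finset α}
    (h1 : ∀ y ∈ S, y ∉ ({t j, k j, c j} : Finset α)) : sfac t k c j S = 0 := by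
  have h2 : t j ∉ S := fun h3 => h1 _ h3 (by simp)
  have h3 : k j ∉ S := fun h3 => h1 _ h3 (by simp)
  have h4 : c j ∉ S := fun h3 => h1 _ h3 (by simp)
  unfold sfac
  simp [h2, h3, h4]

/-- sets which do not meet a common star -/
theorem Mo_union (C : CtxK α) {S S' : Finset α} (hS : ∀ u ∈ S, ∀ v ∈ S', ¬ SameS I t k c u v) :
    Mo i (S ∪ S') = Mo i S * Mo i S' := by
  rw [h.Mo_prod C, h.Mo_prod C, h.Mo_prod C, ← prod_mul_distrib]
  apply prod_congr rfl
  intro j hj
  by_cases h1 : ∀ y ∈ S, y ∉ ({t j, k j, c j} : Finset α)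
  · rw [h.sfac_union hj h1, h.sfac_zero hj h1]
    simp
  · have h2 : ∀ y ∈ S', y ∉ ({t j, k j, c j} : Finset α) := by
      intro y hy hy'
      push Not at h1
      obtain ⟨x, hx, hx'⟩ := h1
      exact hS x hx y hy ⟨j, hj, hx', hy'⟩
    rw [union_comm, h.sfac_union hj h2, h.sfac_zero hj h2]
    simp

/-- sets with trivial factor -/
lemma Mo_one (C : CtxK α) {S : Finset α} (h1 : ∀ j ∈ I, sfac t k c j S = 0) : Mo i S = 1 := by
  rw [h.Mo_prod C]
  apply prod_eq_one
  intro j hj
  rw [h1 j hj]
  simp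

lemma sfac_other {j j' : ι} (hj : j ∈ I) (hj' : j' ∈ I) (hne : j ≠ j') {S : Finset α}
    (h1 : S ⊆ {t j, k j, c j}) : sfac t k c j' S = 0 := by
  apply h.sfac_zero hj'
  intro y hy hy'
  exact hne (h.idx hj hj' (h1 hy) hy')

/-- two elements of one star -/
lemma Mo_same (C : CtxK α) {u v : α} (huv : u ≠ v) (hs : SameS I t k c u v) :
    Mo i {u, v} = 1 := by
  obtain ⟨j, hj, hu, hv⟩ := hs
  have htk := h.tk j hj
  have hkc := h.kc j hj
  have htc := h.tc j hj
  apply h.Mo_one C
  intro j' hj'
  by_cases hjj : j = j'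
  · subst hjj
    rw [mem_insert, mem_insert, mem_singleton] at hu hv
    unfold sfac
    rcases hu with rfl | rfl | rfl <;> rcases hv with rfl | rfl | rfl <;>
      first
      | exact (huv rfl).elim
      | simp
  · apply h.sfac_other hj hj' hjj
    intro y hy
    rw [mem_insert, mem_singleton] at hy
    rcases hy with rfl | rfl
    · exact hu
    · exact hv

/-- all elements of one star -/
lemma Mo_all (C : CtxK α) {j : ι} (hj : j ∈ I) {S : Finset α} (hS : S = {t j, k j, c j}) :
    Mo i S = 1 := by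
  apply h.Mo_one C
  intro j' hj'
  by_cases hjj : j = j'
  · subst hjj
    unfold sfac
    simp [hS]
  · exact h.sfac_other hj hj' hjj (by rw [hS])

/-- a single vertex -/
lemma Mo_single (C : CtxK α) (v : α) : Mo i {v} = 1 - Polynomial.C (sig I t c v) * X := by
  rw [h.Mo_prod C]
  have h1 : ∀ j ∈ I, sfac t k c j {v} =
      -((if v = t j then 1 else 0) - (if v = c j then 1 else 0)) := by
    intro j hj
    have htk := h.tk j hj
    have hkc := h.kc j hj
    have htc := h.tc j hj
    unfold sfac
    simp only [mem_singleton]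
    by_cases a1 : v = t j
    · subst a1
      simp [htk.symm, htc, htc.symm]
    · by_cases a2 : v = c j
      · subst a2
        simp [htc, hkc, htc.symm]
      · by_cases a3 : v = k j
        · subst a3
          simp [htk.symm, hkc]
        · have b1 : ¬ t j = v := fun h => a1 h.symm
          have b2 : ¬ k j = v := fun h => a3 h.symm
          have b3 : ¬ c j = v := fun h => a2 h.symm
          simp [a1, a2, b1, b2, b3]
  by_cases h2 : ∃ j ∈ I, v ∈ ({t j, k j, c j} : Finset α)
  · obtain ⟨j, hj, hv⟩ := h2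
    have h3 : ∀ j' ∈ I, j' ≠ j →
        ((if v = t j' then 1 else 0) - (if v = c j' then 1 else 0) : ℤ) = 0 := by
      intro j' hj' hne
      have h4 : v ∉ ({t j', k j', c j'} : Finset α) := fun h5 => hne (h.idx hj' hj h5 hv)
      rw [mem_insert, mem_insert, mem_singleton] at h4
      push Not at h4
      rw [if_neg h4.1, if_neg h4.2.2]
      rfl
    rw [prod_eq_single j, sig, sum_eq_single j, h1 j hj]
    · rw [C_neg]
      ring
    · intro j' hj' hne
      exact h3 j' hj' hne
    · intro h4
      exact (h4 hj).elim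
    · intro j' hj' hne
      rw [h1 j' hj', h3 j' hj' hne]
      simp
    · intro h4
      exact (h4 hj).elim
  · push Not at h2
    have h3 : ∀ j ∈ I, ((if v = t j then 1 else 0) - (if v = c j then 1 else 0) : ℤ) = 0 := by
      intro j' hj'
      have h4 := h2 j' hj'
      rw [mem_insert, mem_insert, mem_singleton] at h4
      push Not at h4
      rw [if_neg h4.1, if_neg h4.2.2]
      rfl
    rw [prod_eq_one, sig, sum_eq_zero h3]
    · simp
    · intro j hj
      rw [h1 j hj, h3 j hj]
      simp

/-- a pair of vertices -/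
lemma Mo_pair (C : CtxK α) {u v : α} (huv : u ≠ v) : Mo i {u, v} =
    1 - Polynomial.C (sig I t c u + sig I t c v) * X +
      (if SameS I t k c u v then Polynomial.C (sig I t c u + sig I t c v) * X else
        Polynomial.C (sig I t c u * sig I t c v) * X ^ 2) := by
  split_ifs with h1
  · rw [h.Mo_same C huv h1]
    ring
  · have h2 : ({u, v} : Finset α) = {u} ∪ {v} := rfl
    rw [h2, h.Mo_union C, h.Mo_single C, h.Mo_single C, C_add, C_mul]
    · ring
    · intro a ha b hb
      rw [mem_singleton] at ha hb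
      rw [ha, hb]
      exact h1

end Stars

end Pool.Gauss
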