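import Pool.Agent.Work.MP_065141_co.K.KStar

/-!
# The first order polynomial of a row whose clusters are disjoint stars, closed form
-/

set_option autoImplicit false
set_option linter.unusedSectionVars false
set_option linter.unusedVariables false
open scoped Classical
open Finset Polynomial

namespace Pool.Gauss

variable {α : Type} [Fintype α] [PartialOrder α] {i : ℕ} {ι : Type}

lemma sum_erase_swap {R : Type} [AddCommMonoid R] (U : Finset α) (K : α → α → R) :
    ∑ u ∈ U, ∑ v ∈ U.erase u, K u v = ∑ u ∈ U, ∑ v ∈ U.erase u, K v u := by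
  apply Finset.sum_comm'
  intro x y
  simp only [mem_erase]
  constructor
  · rintro ⟨h1, h2, h3⟩
    exact ⟨⟨fun h => h2 h.symm, h1⟩, h3⟩
  · rintro ⟨⟨h1, h2⟩, h3⟩
    exact ⟨h2, fun h => h1 h.symm, h3⟩

lemma pair_prod_sum (U : Finset α) (f g : α → ℤ[X]) (F : Finset α → ℤ[X]) :
    ∑ s ∈ U.powersetCard 2, (∏ u ∈ s, (f u + g u) - ∏ u ∈ s, g u - ∏ u ∈ s, f u) * F s =
      ∑ u ∈ U, ∑ v ∈ U.erase u, f u * g v * F {u, v} := by
  have h1 := two_sum_pairs U
    (fun s => (∏ u ∈ s, (f u + g u) - ∏ u ∈ s, g u - ∏ u ∈ s, f u) * F s)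
  have h2 : ∀ u ∈ U, ∀ v ∈ U.erase u,
      (∏ x ∈ ({u, v} : Finset α), (f x + g x) - ∏ x ∈ ({u, v} : Finset α), g x -
        ∏ x ∈ ({u, v} : Finset α), f x) * F {u, v} =
      f u * g v * F {u, v} + f v * g u * F {v, u} := by
    intro u hu v hv
    have huv : u ≠ v := (mem_erase.1 hv).1.symm
    rw [prod_pair huv, prod_pair huv, prod_pair huv, pair_comm v u]
    ring
  rw [sum_congr rfl fun u hu => sum_congr rfl fun v hv => h2 u hu v hv] at h1
  simp only [sum_add_distrib] at h1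
  rw [← sum_erase_swap U (fun u v => f u * g v * F {u, v}), ← two_mul] at h1
  exact mul_left_cancel₀ (two_ne_zero) h1

lemma ind_pair_sum {R : Type} [AddCommMonoid R] {U : Finset α} {a b : α} (ha : a ∈ U)
    (hb : b ∈ U) (hab : a ≠ b) (G : α → α → R) :
    ∑ y ∈ U, ∑ u ∈ U.erase y, (if y = a ∧ u = b then G y u else 0) = G a b := by
  rw [sum_eq_single a, sum_eq_single b]
  · simp
  · intro u _ hne
    rw [if_neg (fun h => hne h.2)]
  · intro h
    exact (h (mem_erase.2 ⟨hab.symm, hb⟩)).elim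
  · intro y _ hne
    apply sum_eq_zero
    intro u _
    rw [if_neg (fun h => hne h.1)]
  · intro h
    exact (h ha).elim

/-- contacts between different stars through pairs of row `i - 1` (ordered count) -/
noncomputable def thS (i : ℕ) (I : Finset ι) (t k c : ι → α) : ℤ :=
  ∑ y ∈ lev α i, ∑ v ∈ (lev α i).erase y,
    if SameS I t k c y v then 0 else (mD i {y, v} : ℤ) * (sig I t c y * sig I t c v)

namespace Stars

variable {I : Finset ι} {t k c : ι → α} (h : Stars i I t k c)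
include h

/-- the support in the form of ordered pairs -/
lemma nb {y u : α} (hy : y ∈ lev α i) (hu : u ∈ lev α i) (hne : y ≠ u)
    (hW : Wt i {y, u} ≠ 0) : ∃ j ∈ I, (y = t j ∧ u = k j) ∨ (y = k j ∧ u = t j) ∨
      (y = k j ∧ u = c j) ∨ (y = c j ∧ u = k j) := by
  obtain ⟨j, hj, h1⟩ := h.supp {y, u} (by
    intro x hx
    rw [mem_insert, mem_singleton] at hx
    rcases hx with rfl | rfl
    · exact hy
    · exact hu) (card_pair hne) hW
  refine ⟨j, hj, ?_⟩
  rw [pair_eq_iff (h.tk j hj), pair_eq_iff (h.kc j hj)] at h1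
  tauto

/-- an element with two neighbours is a centre -/
lemma nb_two {y : α} (hy : y ∈ lev α i) {N : Finset α} (hN : N ⊆ (lev α i).erase y)
    (h2 : 2 ≤ N.card) (hW : ∀ u ∈ N, Wt i {y, u} ≠ 0) : ∃ j ∈ I, y = k j ∧ N = {t j, c j} := by
  obtain ⟨u, hu, v, hv, huv⟩ := one_lt_card.1 (by omega : 1 < N.card)
  have hx : ∀ x ∈ N, ∃ j ∈ I, (y = t j ∧ x = k j) ∨ (y = k j ∧ x = t j) ∨
      (y = k j ∧ x = c j) ∨ (y = c j ∧ x = k j) := by
    intro x hx
    have h3 := hN hx
    rw [mem_erase] at h3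
    exact h.nb hy h3.2 h3.1.symm (hW x hx)
  have hmem : ∀ x j, ((y = t j ∧ x = k j) ∨ (y = k j ∧ x = t j) ∨
      (y = k j ∧ x = c j) ∨ (y = c j ∧ x = k j)) → y ∈ ({t j, k j, c j} : Finset α) := by
    intro x j h3
    rcases h3 with ⟨rfl, _⟩ | ⟨rfl, _⟩ | ⟨rfl, _⟩ | ⟨rfl, _⟩ <;> simp
  obtain ⟨j, hj, h3⟩ := hx u hu
  obtain ⟨j', hj', h4⟩ := hx v hv
  have hjj := h.idx hj hj' (hmem u j h3) (hmem v j' h4)
  subst hjj
  have htk := h.tk j hj
  have hkc := h.kc j hj
  have htc := h.tc j hj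
  have hyk : y = k j := by
    rcases h3 with ⟨a1, a2⟩ | ⟨a1, a2⟩ | ⟨a1, a2⟩ | ⟨a1, a2⟩
    · rcases h4 with ⟨b1, b2⟩ | ⟨b1, b2⟩ | ⟨b1, b2⟩ | ⟨b1, b2⟩
      · exact (huv (a2.trans b2.symm)).elim
      · exact b1
      · exact b1
      · exact (htc (a1.symm.trans b1)).elim
    · exact a1
    · exact a1
    · rcases h4 with ⟨b1, b2⟩ | ⟨b1, b2⟩ | ⟨b1, b2⟩ | ⟨b1, b2⟩
      · exact (htc (b1.symm.trans a1)).elim
      · exact b1
      · exact b1
      · exact (huv (a2.trans b2.symm)).elim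
  refine ⟨j, hj, hyk, ?_⟩
  have hsub : N ⊆ {t j, c j} := by
    intro x hx'
    obtain ⟨j', hj', h5⟩ := hx x hx'
    have hjj := h.idx hj hj' (hmem u j h3) (hmem x j' h5)
    subst hjj
    rw [mem_insert, mem_singleton]
    rcases h5 with ⟨a1, a2⟩ | ⟨a1, a2⟩ | ⟨a1, a2⟩ | ⟨a1, a2⟩
    · exact (htk (a1.symm.trans hyk)).elim
    · exact Or.inl a2
    · exact Or.inr a2
    · exact (hkc (hyk.symm.trans a1)).elim
  exact eq_of_subset_of_card_le hsub (by rw [card_pair htc]; exact h2)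

/-- sums over elements with two neighbours -/
lemma two_nb_sum (𝒩 : α → Finset (Finset α))
    (h𝒩 : ∀ y ∈ lev α i, ∀ N ∈ 𝒩 y, N ⊆ (lev α i).erase y ∧ 2 ≤ N.card)
    (h𝒩' : ∀ j ∈ I, ({t j, c j} : Finset α) ∈ 𝒩 (k j)) (F : α → Finset α → ℤ[X])
    (hF : ∀ y ∈ lev α i, ∀ N ∈ 𝒩 y, (∃ u ∈ N, Wt i {y, u} = 0) → F y N = 0) :
    ∑ y ∈ lev α i, ∑ N ∈ 𝒩 y, F y N = ∑ j ∈ I, F (k j) {t j, c j} := by
  rw [Finset.sum_sigma']
  have hinj : ∀ j ∈ I, ∀ j' ∈ I, (⟨k j, {t j, c j}⟩ : Σ _ : α, Finset α) = ⟨k j', {t j', c j'}⟩ →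
      j = j' := by
    intro j hj j' hj' he
    have h1 : k j = k j' := by
      have := congrArg Sigma.fst he
      exact this
    exact h.idx hj hj' (v := k j) (by simp) (by rw [h1]; simp)
  rw [← sum_image (f := fun x : (Σ _ : α, Finset α) => F x.1 x.2)
    (g := fun j => (⟨k j, {t j, c j}⟩ : Σ _ : α, Finset α)) (fun j hj j' hj' he =>
      hinj j hj j' hj' he)]
  symm
  apply sum_subset
  · intro x hx
    rw [mem_image] at hx
    obtain ⟨j, hj, rfl⟩ := hx
    rw [mem_sigma]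
    exact ⟨h.lk j hj, h𝒩' j hj⟩
  · rintro ⟨y, N⟩ hx hnx
    rw [mem_sigma] at hx
    simp only at hx
    apply hF y hx.1 N hx.2
    by_contra hne
    push Not at hne
    obtain ⟨h1, h2⟩ := h𝒩 y hx.1 N hx.2
    obtain ⟨j, hj, h3, h4⟩ := h.nb_two hx.1 h1 h2 hne
    exact hnx (mem_image.2 ⟨j, hj, by rw [h3, h4]⟩)

lemma Qr_sum (C : CtxK α) : ∑ y ∈ lev α i, Qr i y = -((I.card : ℤ[X]) * X ^ 2) := by
  have h1 := h.two_nb_sum (fun y => ((lev α i).erase y).powerset.filter (fun N => 2 ≤ N.card))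
    (fun y _ N hN => by
      rw [mem_filter, mem_powerset] at hN
      exact hN)
    (fun j hj => by
      rw [mem_filter, mem_powerset, card_pair (h.tc j hj)]
      refine ⟨?_, le_refl _⟩
      intro x hx
      rw [mem_insert, mem_singleton] at hx
      rw [mem_erase]
      rcases hx with rfl | rfl
      · exact ⟨h.tk j hj, h.lt j hj⟩
      · exact ⟨(h.kc j hj).symm, h.lc j hj⟩)
    (fun y N => (∏ x ∈ N, (-(Polynomial.C (W0 i {y, x}) * X))) * Mo i (insert y N))
    (fun y _ N _ hu => by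
      obtain ⟨u, hu, hu'⟩ := hu
      rw [prod_eq_zero hu, zero_mul]
      rw [C.W0_eq, hu']
      simp)
  have h2 : ∑ y ∈ lev α i, Qr i y = ∑ y ∈ lev α i,
      ∑ N ∈ ((lev α i).erase y).powerset.filter (fun N => 2 ≤ N.card),
        (∏ x ∈ N, (-(Polynomial.C (W0 i {y, x}) * X))) * Mo i (insert y N) := rfl
  rw [h2, h1]
  have h3 : ∀ j ∈ I, (∏ x ∈ ({t j, c j} : Finset α), (-(Polynomial.C (W0 i {k j, x}) * X))) *
      Mo i (insert (k j) {t j, c j}) = -X ^ 2 := by
    intro j hj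
    rw [h.Mo_all C hj (insert_comm _ _ _), prod_pair (h.tc j hj), C.W0_eq, pair_comm (k j) (t j),
      h.wtk j hj, h.wkc j hj]
    simp only [C_neg, C_1]
    ring
  rw [sum_congr rfl h3, sum_const, nsmul_eq_mul]
  ring

lemma WW_sum (C : CtxK α) : ∑ y ∈ lev α i, ∑ N ∈ ((lev α i).erase y).powersetCard 2,
    (∏ u ∈ N, Polynomial.C (Wt i {y, u})) * Mo i (insert y N) = -(I.card : ℤ[X]) := by
  rw [h.two_nb_sum (fun y => ((lev α i).erase y).powersetCard 2)
    (fun y _ N hN => by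
      rw [mem_powersetCard] at hN
      exact ⟨hN.1, by omega⟩)
    (fun j hj => by
      rw [mem_powersetCard, card_pair (h.tc j hj)]
      refine ⟨?_, rfl⟩
      intro x hx
      rw [mem_insert, mem_singleton] at hx
      rw [mem_erase]
      rcases hx with rfl | rfl
      · exact ⟨h.tk j hj, h.lt j hj⟩
      · exact ⟨(h.kc j hj).symm, h.lc j hj⟩)
    (fun y N => (∏ u ∈ N, Polynomial.C (Wt i {y, u})) * Mo i (insert y N))
    (fun y _ N _ hu => by
      obtain ⟨u, hu, hu'⟩ := hu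
      rw [prod_eq_zero hu, zero_mul]
      rw [hu']
      simp)]
  have h3 : ∀ j ∈ I, (∏ x ∈ ({t j, c j} : Finset α), Polynomial.C (Wt i {k j, x})) *
      Mo i (insert (k j) {t j, c j}) = -1 := by
    intro j hj
    rw [h.Mo_all C hj (insert_comm _ _ _), prod_pair (h.tc j hj), pair_comm (k j) (t j),
      h.wtk j hj, h.wkc j hj]
    simp only [C_neg, C_1]
    ring
  rw [sum_congr rfl h3, sum_const, nsmul_eq_mul]
  ring

/-- the weight as a sum of indicators -/
lemma W_ind {y u : α} (hy : y ∈ lev α i) (hu : u ∈ lev α i) (hne : y ≠ u) :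
    Wt i {y, u} = ∑ j ∈ I, ((if y = t j ∧ u = k j then 1 else 0) +
      (if y = k j ∧ u = t j then 1 else 0) - (if y = k j ∧ u = c j then 1 else 0) -
      (if y = c j ∧ u = k j then 1 else 0)) := by
  by_cases hW : Wt i {y, u} = 0
  · rw [hW]
    symm
    apply sum_eq_zero
    intro j hj
    have htk := h.tk j hj
    have hkc := h.kc j hj
    have w1 := h.wtk j hj
    have w2 := h.wkc j hj
    rw [if_neg, if_neg, if_neg, if_neg]
    · rfl
    · rintro ⟨rfl, rfl⟩
      rw [pair_comm, w2] at hW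
      norm_num at hW
    · rintro ⟨rfl, rfl⟩
      rw [w2] at hW
      norm_num at hW
    · rintro ⟨rfl, rfl⟩
      rw [pair_comm, w1] at hW
      norm_num at hW
    · rintro ⟨rfl, rfl⟩
      rw [w1] at hW
      norm_num at hW
  · obtain ⟨j, hj, h1⟩ := h.nb hy hu hne hW
    have htk := h.tk j hj
    have hkc := h.kc j hj
    have htc := h.tc j hj
    have w1 := h.wtk j hj
    have w2 := h.wkc j hj
    have hyj : y ∈ ({t j, k j, c j} : Finset α) := by
      rcases h1 with ⟨rfl, _⟩ | ⟨rfl, _⟩ | ⟨rfl, _⟩ | ⟨rfl, _⟩ <;> simp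
    rw [sum_eq_single j]
    · rcases h1 with ⟨rfl, rfl⟩ | ⟨rfl, rfl⟩ | ⟨rfl, rfl⟩ | ⟨rfl, rfl⟩
      · rw [w1]
        simp [htk, htc, hkc, htk.symm]
      · rw [pair_comm, w1]
        simp [htk, htc, hkc, htk.symm]
      · rw [w2]
        simp [htk, htc, hkc, htk.symm, htc.symm, hkc.symm]
      · rw [pair_comm, w2]
        simp [htk, htc, hkc, htk.symm, htc.symm, hkc.symm]
    · intro j' hj' hne'
      have h2 : y ∉ ({t j', k j', c j'} : Finset α) := fun h3 => hne' (h.idx hj' hj h3 hyj)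
      rw [mem_insert, mem_insert, mem_singleton] at h2
      push Not at h2
      rw [if_neg (fun h3 => h2.1 h3.1), if_neg (fun h3 => h2.2.1 h3.1),
        if_neg (fun h3 => h2.2.1 h3.1), if_neg (fun h3 => h2.2.2 h3.1)]
      rfl
    · intro h2
      exact (h2 hj).elim

/-- sums weighted by `Wt` -/
lemma W_sum (G : α → α → ℤ[X]) :
    ∑ y ∈ lev α i, ∑ u ∈ (lev α i).erase y, Polynomial.C (Wt i {y, u}) * G y u =
      ∑ j ∈ I, (G (t j) (k j) + G (k j) (t j) - G (k j) (c j) - G (c j) (k j)) := by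
  have h1 : ∀ y ∈ lev α i, ∀ u ∈ (lev α i).erase y, Polynomial.C (Wt i {y, u}) * G y u =
      ∑ j ∈ I, ((if y = t j ∧ u = k j then G y u else 0) +
      (if y = k j ∧ u = t j then G y u else 0) - (if y = k j ∧ u = c j then G y u else 0) -
      (if y = c j ∧ u = k j then G y u else 0)) := by
    intro y hy u hu
    rw [mem_erase] at hu
    rw [h.W_ind hy hu.2 hu.1.symm, map_sum, sum_mul]
    apply sum_congr rfl
    intro j _
    split_ifs <;> simp <;> ring
  rw [sum_congr rfl fun y hy => sum_congr rfl fun u hu => h1 y hy u hu]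
  have h2 : ∑ y ∈ lev α i, ∑ u ∈ (lev α i).erase y,
      ∑ j ∈ I, ((if y = t j ∧ u = k j then G y u else 0) +
      (if y = k j ∧ u = t j then G y u else 0) - (if y = k j ∧ u = c j then G y u else 0) -
      (if y = c j ∧ u = k j then G y u else 0)) =
      ∑ j ∈ I, ∑ y ∈ lev α i, ∑ u ∈ (lev α i).erase y,
      ((if y = t j ∧ u = k j then G y u else 0) +
      (if y = k j ∧ u = t j then G y u else 0) - (if y = k j ∧ u = c j then G y u else 0) -
      (if y = c j ∧ u = k j then G y u else 0)) := by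
    rw [sum_congr rfl fun y _ => sum_comm, sum_comm]
  rw [h2]
  apply sum_congr rfl
  intro j hj
  simp only [sum_add_distrib, sum_sub_distrib]
  rw [ind_pair_sum (h.lt j hj) (h.lk j hj) (h.tk j hj),
    ind_pair_sum (h.lk j hj) (h.lt j hj) (h.tk j hj).symm,
    ind_pair_sum (h.lk j hj) (h.lc j hj) (h.kc j hj),
    ind_pair_sum (h.lc j hj) (h.lk j hj) (h.kc j hj).symm]

/-- sums weighted by `sig` -/
lemma sig_sum {R : Type} [CommRing R] (K : α → R) :
    ∑ y ∈ lev α i, (sig I t c y : R) * K y = ∑ j ∈ I, (K (t j) - K (c j)) := by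
  have h1 : ∀ y ∈ lev α i, (sig I t c y : R) * K y =
      ∑ j ∈ I, ((if y = t j then K y else 0) - (if y = c j then K y else 0)) := by
    intro y _
    rw [sig, Int.cast_sum, sum_mul]
    apply sum_congr rfl
    intro j _
    split_ifs <;> simp
  rw [sum_congr rfl h1, sum_comm]
  apply sum_congr rfl
  intro j hj
  rw [sum_sub_distrib, sum_ite_eq', if_pos (h.lt j hj), sum_ite_eq', if_pos (h.lc j hj)]

end Stars

end Pool.Gauss
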