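import Pool.Agent.Work.MP_065141_co.K.KStar2

/-!
# The first order polynomial of a row whose clusters are disjoint stars: final form
-/

set_option autoImplicit false
set_option linter.unusedSectionVars false
set_option linter.unusedVariables false
open scoped Classical
open Finset Polynomial

namespace Pool.Gauss

variable {α : Type} [Fintype α] [PartialOrder α] {i : ℕ} {ι : Type}

namespace CtxK

variable (C : CtxK α)
include C

lemma aD_ord {y : α} (hy : y ∈ lev α i) :
    (aD y : ℤ) = ∑ v ∈ (lev α i).erase y, (mD i {y, v} : ℤ) := by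
  rw [C.aD_sum (mem_lev.1 hy)]
  push_cast
  exact sum_pairs_at hy (fun g => (mD i g : ℤ))

lemma bC_ord {y : α} (hy : y ∈ lev α i) :
    (bC y : ℤ) = ∑ v ∈ (lev α i).erase y, (mC i {y, v} : ℤ) := by
  rw [C.bC_sum (mem_lev.1 hy)]
  push_cast
  exact sum_pairs_at hy (fun g => (mC i g : ℤ))

lemma card_Db_eq (hi : i < HT α) : (DbD (α := α) i).card = (DbU (α := α) i).card := by
  have h1 := congrArg (fun p : ℤ[X] => p.coeff 0) (C.Db_eq hi)
  simp only [finsetSum_coeff, Mo_coeff_zero, sum_const, nsmul_eq_mul, mul_one] at h1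
  exact_mod_cast h1

end CtxK

/-- multiplicity of the pairs inside the stars, seen from `y` -/
noncomputable def starIn (i : ℕ) (I : Finset ι) (t k c : ι → α) (y : α) : ℤ :=
  ∑ v ∈ (lev α i).erase y, if SameS I t k c y v then (mD i {y, v} : ℤ) else 0

/-- contacts of `y` with other stars -/
noncomputable def starOut (i : ℕ) (I : Finset ι) (t k c : ι → α) (y : α) : ℤ :=
  ∑ v ∈ (lev α i).erase y, if SameS I t k c y v then 0 else (mD i {y, v} : ℤ) * sig I t c v

namespace Stars

variable {I : Finset ι} {t k c : ι → α} (h : Stars i I t k c)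
include h

lemma thS_eq : thS i I t k c = ∑ j ∈ I, (starOut i I t k c (t j) - starOut i I t k c (c j)) := by
  rw [← h.sig_sum (fun y => starOut i I t k c y), thS]
  apply sum_congr rfl
  intro y _
  rw [starOut, mul_sum]
  apply sum_congr rfl
  intro v _
  split_ifs
  · simp
  · simp only [Int.cast_id]
    ring

lemma same_iff {j : ι} (hj : j ∈ I) {y v : α} (hy : y ∈ ({t j, k j, c j} : Finset α)) :
    SameS I t k c y v ↔ v ∈ ({t j, k j, c j} : Finset α) := by
  constructor
  · rintro ⟨j', hj', h1, h2⟩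
    have := h.idx hj hj' hy h1
    subst this
    exact h2
  · intro h1
    exact ⟨j, hj, hy, h1⟩

lemma starIn_t {j : ι} (hj : j ∈ I) :
    starIn i I t k c (t j) = (mD i {t j, k j} : ℤ) + mD i {t j, c j} := by
  have htk := h.tk j hj
  have hkc := h.kc j hj
  have htc := h.tc j hj
  have h1 : ({k j, c j} : Finset α) ⊆ (lev α i).erase (t j) := by
    intro x hx
    rw [mem_insert, mem_singleton] at hx
    rw [mem_erase]
    rcases hx with rfl | rfl
    · exact ⟨htk.symm, h.lk j hj⟩
    · exact ⟨htc.symm, h.lc j hj⟩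
  rw [starIn, ← sum_subset h1, sum_pair hkc]
  · rw [if_pos ((h.same_iff hj (by simp)).2 (by simp)),
      if_pos ((h.same_iff hj (by simp)).2 (by simp))]
  · intro x hx hx'
    rw [if_neg]
    rw [h.same_iff hj (by simp)]
    rw [mem_erase] at hx
    rw [mem_insert, mem_singleton] at hx'
    rw [mem_insert, mem_insert, mem_singleton]
    tauto

lemma starIn_c {j : ι} (hj : j ∈ I) :
    starIn i I t k c (c j) = (mD i {k j, c j} : ℤ) + mD i {t j, c j} := by
  have htk := h.tk j hj
  have hkc := h.kc j hj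
  have htc := h.tc j hj
  have h1 : ({k j, t j} : Finset α) ⊆ (lev α i).erase (c j) := by
    intro x hx
    rw [mem_insert, mem_singleton] at hx
    rw [mem_erase]
    rcases hx with rfl | rfl
    · exact ⟨hkc, h.lk j hj⟩
    · exact ⟨htc, h.lt j hj⟩
  rw [starIn, ← sum_subset h1, sum_pair htk.symm]
  · rw [if_pos ((h.same_iff hj (by simp)).2 (by simp)),
      if_pos ((h.same_iff hj (by simp)).2 (by simp)), pair_comm (c j) (k j),
      pair_comm (c j) (t j)]
  · intro x hx hx'
    rw [if_neg]
    rw [h.same_iff hj (by simp)]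
    rw [mem_erase] at hx
    rw [mem_insert, mem_singleton] at hx'
    rw [mem_insert, mem_insert, mem_singleton]
    tauto

/-- a triple with two elements of a star -/
lemma Mo_triple (C : CtxK α) {j : ι} (hj : j ∈ I) {y u v : α} (hyu : y ≠ u)
    (hy : y ∈ ({t j, k j, c j} : Finset α)) (hu : u ∈ ({t j, k j, c j} : Finset α))
    (hk : y = k j ∨ u = k j) (hvy : v ≠ y) (hvu : v ≠ u) :
    Mo i {y, u, v} = 1 - (if SameS I t k c y v then 0 else Polynomial.C (sig I t c v) * X) := by
  split_ifs with h1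
  · rw [h.same_iff hj hy] at h1
    rw [sub_zero]
    apply h.Mo_all C hj
    apply eq_of_subset_of_card_le
    · intro x hx
      rw [mem_insert, mem_insert, mem_singleton] at hx
      rcases hx with rfl | rfl | rfl
      · exact hy
      · exact hu
      · exact h1
    · have h2 : ({y, u, v} : Finset α).card = 3 := by
        rw [card_eq_three]
        exact ⟨y, u, v, hyu, hvy.symm, hvu.symm, rfl⟩
      rw [h2]
      exact card_le_three
  · have h2 : ({y, u, v} : Finset α) = {y, u} ∪ {v} := by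
      ext x
      simp only [mem_insert, mem_singleton, mem_union]
      tauto
    rw [h2, h.Mo_union C, h.Mo_same C hyu ⟨j, hj, hy, hu⟩, h.Mo_single C, one_mul]
    intro a ha b hb
    rw [mem_singleton] at hb
    rw [hb]
    rw [h.same_iff hj hy] at h1
    rw [mem_insert, mem_singleton] at ha
    rcases ha with rfl | rfl
    · rw [h.same_iff hj hy]
      exact h1
    · rw [h.same_iff hj hu]
      exact h1

/-- the paths which start with a pair of the star -/
lemma path_sum (C : CtxK α) {j : ι} (hj : j ∈ I) {y u : α} (hyu : y ≠ u)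
    (hy : y ∈ ({t j, k j, c j} : Finset α)) (hu : u ∈ ({t j, k j, c j} : Finset α))
    (hk : y = k j ∨ u = k j) :
    ∑ v ∈ ((lev α i).erase y).erase u, (mD i {y, v} : ℤ[X]) * Mo i {y, u, v} =
      Polynomial.C ((aD y : ℤ) - mD i {y, u}) - Polynomial.C (starOut i I t k c y) * X := by
  have hyl := h.sub hj hy
  have hul := h.sub hj hu
  have h1 : ∀ v ∈ ((lev α i).erase y).erase u, (mD i {y, v} : ℤ[X]) * Mo i {y, u, v} =
      Polynomial.C (mD i {y, v} : ℤ) - Polynomial.C (if SameS I t k c y v then 0 else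
        (mD i {y, v} : ℤ) * sig I t c v) * X := by
    intro v hv
    rw [mem_erase, mem_erase] at hv
    rw [h.Mo_triple C hj hyu hy hu hk hv.2.1 hv.1]
    split_ifs
    · simp
    · simp only [C_mul, map_natCast, Int.cast_natCast]
      ring
  rw [sum_congr rfl h1, sum_sub_distrib, ← sum_mul, ← map_sum, ← map_sum]
  have huy : u ∈ (lev α i).erase y := mem_erase.2 ⟨hyu.symm, hul⟩
  have h2 : ∑ v ∈ ((lev α i).erase y).erase u, (mD i {y, v} : ℤ) =
      (aD y : ℤ) - mD i {y, u} := by
    rw [C.aD_ord hyl, ← sum_erase_add _ _ huy]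
    ring
  have h3 : ∑ v ∈ ((lev α i).erase y).erase u, (if SameS I t k c y v then 0 else
        (mD i {y, v} : ℤ) * sig I t c v) = starOut i I t k c y := by
    rw [starOut, ← sum_erase_add _ _ huy, if_pos ((h.same_iff hj hy).2 hu), add_zero]
  rw [h2, h3]

/-- the adjacent pairs below minus the adjacent pairs above -/
theorem adj_sum (C : CtxK α) :
    ∑ y ∈ lev α i, ∑ N ∈ ((lev α i).erase y).powersetCard 2,
        (∏ u ∈ N, (mC i {y, u} : ℤ[X]) - ∏ u ∈ N, (mD i {y, u} : ℤ[X])) * Mo i (insert y N) =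
      Polynomial.C (∑ j ∈ I, ((aD (t j) : ℤ) - aD (c j) +
        2 * ((mD i {k j, c j} : ℤ) - mD i {t j, k j}) - 1)) -
        Polynomial.C (thS i I t k c) * X := by
  have h1 : ∀ y ∈ lev α i, ∑ N ∈ ((lev α i).erase y).powersetCard 2,
        (∏ u ∈ N, (mC i {y, u} : ℤ[X]) - ∏ u ∈ N, (mD i {y, u} : ℤ[X])) * Mo i (insert y N) =
      ∑ u ∈ (lev α i).erase y, Polynomial.C (Wt i {y, u}) *
        (∑ v ∈ ((lev α i).erase y).erase u, (mD i {y, v} : ℤ[X]) * Mo i {y, u, v}) +
      ∑ N ∈ ((lev α i).erase y).powersetCard 2,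
        (∏ u ∈ N, Polynomial.C (Wt i {y, u})) * Mo i (insert y N) := by
    intro y _
    have h2 := pair_prod_sum ((lev α i).erase y) (fun u => Polynomial.C (Wt i {y, u}))
      (fun u => (mD i {y, u} : ℤ[X])) (fun N => Mo i (insert y N))
    have h3 : ∀ u : α, Polynomial.C (Wt i {y, u}) + (mD i {y, u} : ℤ[X]) = (mC i {y, u} : ℤ[X]) := by
      intro u
      rw [Wt, C_sub]
      simp
    simp only [h3] at h2
    have h4 : ∑ u ∈ (lev α i).erase y, Polynomial.C (Wt i {y, u}) *
        (∑ v ∈ ((lev α i).erase y).erase u, (mD i {y, v} : ℤ[X]) * Mo i {y, u, v}) =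
        ∑ u ∈ (lev α i).erase y, ∑ v ∈ ((lev α i).erase y).erase u,
          Polynomial.C (Wt i {y, u}) * (mD i {y, v} : ℤ[X]) * Mo i (insert y {u, v}) := by
      apply sum_congr rfl
      intro u _
      rw [mul_sum]
      apply sum_congr rfl
      intro v _
      ring
    rw [h4, ← h2, ← sum_add_distrib]
    apply sum_congr rfl
    intro N _
    ring
  rw [sum_congr rfl h1, sum_add_distrib, h.WW_sum C,
    h.W_sum (fun y u => ∑ v ∈ ((lev α i).erase y).erase u, (mD i {y, v} : ℤ[X]) *
      Mo i {y, u, v})]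
  have h5 : ∀ j ∈ I,
      ((∑ v ∈ ((lev α i).erase (t j)).erase (k j), (mD i {t j, v} : ℤ[X]) * Mo i {t j, k j, v}) +
      (∑ v ∈ ((lev α i).erase (k j)).erase (t j), (mD i {k j, v} : ℤ[X]) * Mo i {k j, t j, v}) -
      (∑ v ∈ ((lev α i).erase (k j)).erase (c j), (mD i {k j, v} : ℤ[X]) * Mo i {k j, c j, v}) -
      (∑ v ∈ ((lev α i).erase (c j)).erase (k j), (mD i {c j, v} : ℤ[X]) * Mo i {c j, k j, v})) =
      Polynomial.C ((aD (t j) : ℤ) - aD (c j) + 2 * ((mD i {k j, c j} : ℤ) - mD i {t j, k j})) -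
        Polynomial.C (starOut i I t k c (t j) - starOut i I t k c (c j)) * X := by
    intro j hj
    rw [h.path_sum C hj (h.tk j hj) (by simp) (by simp) (Or.inr rfl),
      h.path_sum C hj (h.tk j hj).symm (by simp) (by simp) (Or.inl rfl),
      h.path_sum C hj (h.kc j hj) (by simp) (by simp) (Or.inl rfl),
      h.path_sum C hj (h.kc j hj).symm (by simp) (by simp) (Or.inr rfl),
      pair_comm (k j) (t j), pair_comm (c j) (k j)]
    simp only [C_sub, C_add, C_mul]
    have : (Polynomial.C 2 : ℤ[X]) = 2 := rfl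
    rw [this]
    ring
  rw [sum_congr rfl h5, sum_sub_distrib, ← sum_mul, ← map_sum, ← map_sum, ← h.thS_eq]
  have h6 : ∑ j ∈ I, ((aD (t j) : ℤ) - aD (c j) +
        2 * ((mD i {k j, c j} : ℤ) - mD i {t j, k j}) - 1) =
      ∑ j ∈ I, ((aD (t j) : ℤ) - aD (c j) +
        2 * ((mD i {k j, c j} : ℤ) - mD i {t j, k j})) - I.card := by
    rw [sum_sub_distrib, sum_const, nsmul_eq_mul, mul_one]
  rw [h6, C_sub]
  simp only [map_natCast]
  ring

end Stars

end Pool.Gauss
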