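import Pool.Agent.Work.MP_065141_co.K.KStar3

/-!
# All first order relations of a row whose clusters are disjoint stars
-/

set_option autoImplicit false
set_option linter.unusedSectionVars false
set_option linter.unusedVariables false
open scoped Classical
open Finset Polynomial

namespace Pool.Gauss

variable {α : Type} [Fintype α] [PartialOrder α] {i : ℕ} {ι : Type}

/-- the number of single elements at `v` -/
noncomputable def sn (i : ℕ) (v : α) : ℕ := ((Sg1 (α := α) i).filter fun s => v ∈ bd i s).card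

namespace CtxK

variable (C : CtxK α)
include C

/-- all Hasse neighbours of an element of row `i` -/
lemma sn_eq {v : α} (hv : v ∈ lev α i) :
    (sn i v : ℤ) = (Pr v).card + (Ch v).card - aD v - bC v := by
  have hc := mem_lev.1 hv
  have h1 : (Sg1 (α := α) i).filter (fun s => v ∈ bd i s) =
      ((Pr v).filter fun z => ¬ (Ch z).card = 2) ∪ ((Ch v).filter fun x => ¬ (Pr x).card = 2) := by
    ext s
    rw [mem_filter, mem_Sg1, mem_union, mem_filter, mem_filter]
    constructor
    · rintro ⟨⟨h1, h2⟩, h3⟩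
      have h4 : corank s + 1 = i ∨ corank s = i + 1 := by
        unfold ds at h1
        omega
      rcases h4 with h4 | h4
      · left
        rw [C.bd_above h4] at h2 h3
        exact ⟨mem_Pr.2 (mem_Ch.1 h3), by omega⟩
      · right
        rw [C.bd_below h4] at h2 h3
        exact ⟨mem_Ch.2 (mem_Pr.1 h3), by omega⟩
    · rintro (⟨h1, h2⟩ | ⟨h1, h2⟩)
      · have h3 := C.cork (mem_Pr.1 h1)
        have h4 : corank s + 1 = i := by omega
        have h5 : v ∈ Ch s := mem_Ch.2 (mem_Pr.1 h1)
        have h6 := C.ch_le s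
        have h7 := card_pos.2 ⟨v, h5⟩
        refine ⟨⟨by unfold ds; omega, ?_⟩, ?_⟩
        · rw [C.bd_above h4]
          omega
        · rw [C.bd_above h4]
          exact h5
      · have h3 := C.cork (mem_Ch.1 h1)
        have h4 : corank s = i + 1 := by omega
        have h5 : v ∈ Pr s := mem_Pr.2 (mem_Ch.1 h1)
        have h6 := C.pr_le s
        have h7 := card_pos.2 ⟨v, h5⟩
        refine ⟨⟨by unfold ds; omega, ?_⟩, ?_⟩
        · rw [C.bd_below h4]
          omega
        · rw [C.bd_below h4]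
          exact h5
  have h2 : Disjoint ((Pr v).filter fun z => ¬ (Ch z).card = 2)
      ((Ch v).filter fun x => ¬ (Pr x).card = 2) := by
    rw [Finset.disjoint_left]
    intro s hs hs'
    rw [mem_filter] at hs hs'
    have h3 := C.cork (mem_Pr.1 hs.1)
    have h4 := C.cork (mem_Ch.1 hs'.1)
    omega
  rw [sn, h1, card_union_of_disjoint h2, aD, bC]
  have h3 := card_filter_add_card_filter_not (s := Pr v) (fun z => (Ch z).card = 2)
  have h4 := card_filter_add_card_filter_not (s := Ch v) (fun z => (Pr z).card = 2)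
  omega

end CtxK

namespace Stars

variable {I : Finset ι} {t k c : ι → α} (h : Stars i I t k c)
include h

/-- vertex sums at the tips `t` -/
lemma bC_t (C : CtxK α) {j : ι} (hj : j ∈ I) : (bC (t j) : ℤ) = aD (t j) + 1 := by
  have h1 := h.W_sum (fun y _ => if y = t j then 1 else 0)
  have h2 : ∀ y ∈ lev α i, ∑ u ∈ (lev α i).erase y, Polynomial.C (Wt i {y, u}) *
      (if y = t j then (1 : ℤ[X]) else 0) =
      if y = t j then Polynomial.C ((bC y : ℤ) - aD y) else 0 := by
    intro y hy
    split_ifs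
    · rw [C.bC_ord hy, C.aD_ord hy, ← sum_sub_distrib, map_sum]
      apply sum_congr rfl
      intro u _
      rw [mul_one, Wt]
    · simp
  rw [sum_congr rfl h2, sum_ite_eq', if_pos (h.lt j hj)] at h1
  have h3 : ∀ j' ∈ I, ((if t j' = t j then (1 : ℤ[X]) else 0) + (if k j' = t j then 1 else 0) -
      (if k j' = t j then 1 else 0) - (if c j' = t j then 1 else 0)) =
      if j' = j then 1 else 0 := by
    intro j' hj'
    have htc := h.tc j hj
    have e1 : t j' = t j ↔ j' = j := by
      constructor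
      · intro e
        exact h.idx hj' hj (v := t j) (by rw [← e]; simp) (by simp)
      · rintro rfl
        rfl
    have e2 : ¬ c j' = t j := by
      intro e
      have := h.idx hj' hj (v := t j) (by rw [← e]; simp) (by simp)
      subst this
      exact htc e.symm
    simp only [e1, e2, if_false]
    ring
  rw [sum_congr rfl h3, sum_ite_eq', if_pos hj] at h1
  have h4 : Polynomial.C ((bC (t j) : ℤ) - aD (t j)) = Polynomial.C 1 := h1
  have h5 := C_injective h4
  linarith

/-- vertex sums at the elements `c` -/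
lemma bC_c (C : CtxK α) {j : ι} (hj : j ∈ I) : (bC (c j) : ℤ) = aD (c j) - 1 := by
  have h1 := h.W_sum (fun y _ => if y = c j then 1 else 0)
  have h2 : ∀ y ∈ lev α i, ∑ u ∈ (lev α i).erase y, Polynomial.C (Wt i {y, u}) *
      (if y = c j then (1 : ℤ[X]) else 0) =
      if y = c j then Polynomial.C ((bC y : ℤ) - aD y) else 0 := by
    intro y hy
    split_ifs
    · rw [C.bC_ord hy, C.aD_ord hy, ← sum_sub_distrib, map_sum]
      apply sum_congr rfl
      intro u _
      rw [mul_one, Wt]
    · simp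
  rw [sum_congr rfl h2, sum_ite_eq', if_pos (h.lc j hj)] at h1
  have h3 : ∀ j' ∈ I, ((if t j' = c j then (1 : ℤ[X]) else 0) + (if k j' = c j then 1 else 0) -
      (if k j' = c j then 1 else 0) - (if c j' = c j then 1 else 0)) =
      if j' = j then -1 else 0 := by
    intro j' hj'
    have htc := h.tc j hj
    have e1 : c j' = c j ↔ j' = j := by
      constructor
      · intro e
        exact h.idx hj' hj (v := c j) (by rw [← e]; simp) (by simp)
      · rintro rfl
        rfl
    have e2 : ¬ t j' = c j := by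
      intro e
      have := h.idx hj' hj (v := c j) (by rw [← e]; simp) (by simp)
      subst this
      exact htc e
    simp only [e1, e2, if_false]
    split_ifs <;> ring
  rw [sum_congr rfl h3, sum_ite_eq', if_pos hj] at h1
  have h4 : Polynomial.C ((bC (c j) : ℤ) - aD (c j)) = Polynomial.C (-1) := by
    rw [h1, C_neg, C_1]
  have h5 := C_injective h4
  linarith

/-- vertex sums at the centres -/
lemma bC_k (C : CtxK α) {j : ι} (hj : j ∈ I) : (bC (k j) : ℤ) = aD (k j) := by
  have h1 := h.W_sum (fun y _ => if y = k j then 1 else 0)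
  have h2 : ∀ y ∈ lev α i, ∑ u ∈ (lev α i).erase y, Polynomial.C (Wt i {y, u}) *
      (if y = k j then (1 : ℤ[X]) else 0) =
      if y = k j then Polynomial.C ((bC y : ℤ) - aD y) else 0 := by
    intro y hy
    split_ifs
    · rw [C.bC_ord hy, C.aD_ord hy, ← sum_sub_distrib, map_sum]
      apply sum_congr rfl
      intro u _
      rw [mul_one, Wt]
    · simp
  rw [sum_congr rfl h2, sum_ite_eq', if_pos (h.lk j hj)] at h1
  have h3 : ∀ j' ∈ I, ((if t j' = k j then (1 : ℤ[X]) else 0) + (if k j' = k j then 1 else 0) -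
      (if k j' = k j then 1 else 0) - (if c j' = k j then 1 else 0)) = 0 := by
    intro j' hj'
    have htk := h.tk j hj
    have hkc := h.kc j hj
    have e1 : ¬ t j' = k j := by
      intro e
      have := h.idx hj' hj (v := k j) (by rw [← e]; simp) (by simp)
      subst this
      exact htk e
    have e2 : ¬ c j' = k j := by
      intro e
      have := h.idx hj' hj (v := k j) (by rw [← e]; simp) (by simp)
      subst this
      exact hkc e.symm
    simp only [e1, e2, if_false]
    ring
  rw [sum_eq_zero h3] at h1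
  have h4 : Polynomial.C ((bC (k j) : ℤ) - aD (k j)) = Polynomial.C 0 := by
    rw [h1, C_0]
  have h5 := C_injective h4
  linarith

/-- the single elements -/
lemma Sg_sum (C : CtxK α) : ∑ s ∈ Sg1 (α := α) i, Mo i (bd i s) =
    Polynomial.C ((Sg1 (α := α) i).card : ℤ) -
      Polynomial.C (∑ j ∈ I, ((sn i (t j) : ℤ) - sn i (c j))) * X := by
  have h1 : ∀ s ∈ Sg1 (α := α) i, Mo i (bd i s) =
      1 - Polynomial.C (∑ v ∈ bd i s, sig I t c v) * X := by
    intro s hs
    rw [mem_Sg1] at hs
    obtain ⟨v, hv⟩ := card_eq_one.1 hs.2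
    rw [hv, h.Mo_single C, sum_singleton]
  rw [sum_congr rfl h1, sum_sub_distrib, sum_const, nsmul_eq_mul, mul_one, ← sum_mul, ← map_sum]
  have h2 : ∑ s ∈ Sg1 (α := α) i, ∑ v ∈ bd i s, sig I t c v =
      ∑ j ∈ I, ((sn i (t j) : ℤ) - sn i (c j)) := by
    rw [← h.sig_sum (fun v => (sn i v : ℤ))]
    have h3 : ∀ s ∈ Sg1 (α := α) i, ∑ v ∈ bd i s, sig I t c v =
        ∑ v ∈ lev α i, if v ∈ bd i s then sig I t c v else 0 := by
      intro s hs
      rw [mem_Sg1] at hs
      rw [← sum_filter]
      apply sum_congr _ (fun _ _ => rfl)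
      ext v
      rw [mem_filter]
      exact ⟨fun hv => ⟨bd_sub_lev C.grd hs.1 hv, hv⟩, fun hv => hv.2⟩
    rw [sum_congr rfl h3, sum_comm]
    apply sum_congr rfl
    intro v _
    rw [← sum_filter, sum_const, sn, nsmul_eq_mul, Int.cast_id, mul_comm]
  rw [h2]
  simp

/-- the double elements above -/
lemma Db_sum (C : CtxK α) : 2 * ∑ p ∈ DbU (α := α) i, Mo i (bd i p) =
    Polynomial.C (2 * ((DbU (α := α) i).card : ℤ)) -
      Polynomial.C (2 * ∑ j ∈ I, ((aD (t j) : ℤ) - aD (c j))) * X +
      Polynomial.C (2 * ∑ j ∈ I, ((mD i {t j, k j} : ℤ) - mD i {k j, c j})) * X +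
      Polynomial.C (thS i I t k c) * X ^ 2 := by
  rw [C.DbU_sum (fun s => Mo i s), two_sum_pairs]
  have h1 : ∀ y ∈ lev α i, ∀ v ∈ (lev α i).erase y, (mD i {y, v} : ℤ[X]) * Mo i {y, v} =
      Polynomial.C (mD i {y, v} : ℤ) -
      Polynomial.C (sig I t c y * (mD i {y, v} : ℤ)) * X -
      Polynomial.C (sig I t c v * (mD i {v, y} : ℤ)) * X +
      Polynomial.C (sig I t c y * (if SameS I t k c y v then (mD i {y, v} : ℤ) else 0)) * X +
      Polynomial.C (sig I t c v * (if SameS I t k c v y then (mD i {v, y} : ℤ) else 0)) * X +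
      Polynomial.C (if SameS I t k c y v then 0 else
        (mD i {y, v} : ℤ) * (sig I t c y * sig I t c v)) * X ^ 2 := by
    intro y hy v hv
    rw [mem_erase] at hv
    rw [h.Mo_pair C hv.1.symm, pair_comm v y]
    have h2 : SameS I t k c v y ↔ SameS I t k c y v := by
      constructor
      · rintro ⟨j, hj, a, b⟩
        exact ⟨j, hj, b, a⟩
      · rintro ⟨j, hj, a, b⟩
        exact ⟨j, hj, b, a⟩
    simp only [h2]
    split_ifs
    · simp only [C_mul, C_add, C_0, map_natCast]
      ring
    · simp only [C_mul, C_add, C_0, map_natCast, mul_zero]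
      ring
  rw [sum_congr rfl fun y hy => sum_congr rfl fun v hv => h1 y hy v hv]
  simp only [sum_add_distrib, sum_sub_distrib, ← sum_mul, ← map_sum]
  rw [← sum_erase_swap (lev α i) (fun y v => sig I t c y * (mD i {y, v} : ℤ)),
    ← sum_erase_swap (lev α i) (fun y v => sig I t c y *
      (if SameS I t k c y v then (mD i {y, v} : ℤ) else 0))]
  have h2 : ∑ y ∈ lev α i, ∑ v ∈ (lev α i).erase y, (mD i {y, v} : ℤ) =
      2 * ((DbU (α := α) i).card : ℤ) := by
    have h3 := C.DbU_sum (i := i) (fun _ => 1)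
    rw [sum_const, nsmul_eq_mul, mul_one] at h3
    simp only [mul_one] at h3
    have h4 : ((DbU (α := α) i).card : ℤ) = ∑ s ∈ (lev α i).powersetCard 2, (mD i s : ℤ) := by
      have h5 := congrArg (fun p : ℤ[X] => p.coeff 0) h3
      simp only [finsetSum_coeff, coeff_natCast_ite, if_true] at h5
      exact_mod_cast h5
    rw [h4, two_sum_pairs]
  have h3 : ∑ y ∈ lev α i, ∑ v ∈ (lev α i).erase y, sig I t c y * (mD i {y, v} : ℤ) =
      ∑ j ∈ I, ((aD (t j) : ℤ) - aD (c j)) := by
    rw [← h.sig_sum (fun y => (aD y : ℤ))]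
    apply sum_congr rfl
    intro y hy
    rw [← mul_sum, ← C.aD_ord hy, Int.cast_id]
  have h4 : ∑ y ∈ lev α i, ∑ v ∈ (lev α i).erase y, sig I t c y *
      (if SameS I t k c y v then (mD i {y, v} : ℤ) else 0) =
      ∑ j ∈ I, ((mD i {t j, k j} : ℤ) - mD i {k j, c j}) := by
    have h5 : ∑ y ∈ lev α i, ∑ v ∈ (lev α i).erase y, sig I t c y *
      (if SameS I t k c y v then (mD i {y, v} : ℤ) else 0) =
        ∑ y ∈ lev α i, (sig I t c y : ℤ) * starIn i I t k c y := by
      apply sum_congr rfl
      intro y _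
      rw [← mul_sum, starIn]
    have h6 := h.sig_sum (fun y => starIn i I t k c y)
    simp only [Int.cast_id] at h6
    rw [h5, h6]
    apply sum_congr rfl
    intro j hj
    rw [h.starIn_t hj, h.starIn_c hj]
    ring
  simp only [sum_sub_distrib] at h3 h4
  rw [h2, h3, h4, thS]
  simp only [C_mul]
  have : (Polynomial.C 2 : ℤ[X]) = 2 := rfl
  rw [this]
  ring

/-- **all first order relations of a row whose clusters are disjoint stars** -/
theorem K1_closed (C : CtxK α) (hi : i < HT α) :
    Polynomial.C (2 * ∑ j ∈ I, ((((Pr (t j)).card : ℤ) + (Ch (t j)).card) -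
        ((Pr (c j)).card + (Ch (c j)).card) - 1 + mD i {k j, c j} - mD i {t j, k j})) -
      Polynomial.C (2 * (I.card : ℤ) + thS i I t k c) * X +
      2 * ∑ v ∈ Vs (α := α) i, Polynomial.C (sgn0 i v) * Mo i (BB i v) +
      2 * (X * ∑ v ∈ V4 (α := α) i, (1 + Polynomial.C (sgn0 i v) * X) * Mo i (BB i v)) = 0 := by
  have h1 := C.K1_WD hi
  have h2 := h.Db_sum C
  rw [h.Qr_sum C, h.Sg_sum C, h.adj_sum C] at h1
  have h3 : ∑ j ∈ I, ((sn i (t j) : ℤ) - sn i (c j)) =
      ∑ j ∈ I, ((((Pr (t j)).card : ℤ) + (Ch (t j)).card) -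
        ((Pr (c j)).card + (Ch (c j)).card) - 2) - 2 * ∑ j ∈ I, ((aD (t j) : ℤ) - aD (c j)) := by
    rw [mul_sum, ← sum_sub_distrib]
    apply sum_congr rfl
    intro j hj
    rw [C.sn_eq (h.lt j hj), C.sn_eq (h.lc j hj), h.bC_t C hj, h.bC_c C hj]
    ring
  rw [h3] at h1
  have h4 := C.card_Db_eq hi
  rw [h4] at h1
  simp only [sum_sub_distrib, sum_add_distrib, ← mul_sum, sum_const, nsmul_eq_mul, mul_one] at h1 h2 ⊢
  apply mul_left_cancel₀ (X_ne_zero (R := ℤ))
  rw [mul_zero]
  have e2 : (Polynomial.C 2 : ℤ[X]) = 2 := rfl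
  have e3 : (Polynomial.C 3 : ℤ[X]) = 3 := rfl
  have e1 : (Polynomial.C 1 : ℤ[X]) = 1 := rfl
  simp only [C_sub, C_add, C_mul, C_neg, map_natCast, e2, e3, e1] at h1 h2 ⊢
  linear_combination 2 * h1 + 3 * h2

end Stars

end Pool.Gauss
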