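import Pool.Agent.Work.MP_065141_co.K.KStar4

/-!
# Numerical consequences of the first order relations for disjoint stars; removal of `k4`
-/

set_option autoImplicit false
set_option linter.unusedSectionVars false
set_option linter.unusedVariables false
open scoped Classical
open Finset Polynomial

namespace Pool.Gauss

variable {α : Type} [Fintype α] [PartialOrder α] {i : ℕ} {ι : Type}

/-- total Hasse degree -/
noncomputable def hdg (v : α) : ℤ := ((Pr v).card : ℤ) + (Ch v).card

lemma coeff_one_prod {I : Finset ι} (f : ι → ℤ) :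
    (∏ j ∈ I, (1 + C (f j) * X)).coeff 0 = 1 ∧
      (∏ j ∈ I, (1 + C (f j) * X)).coeff 1 = ∑ j ∈ I, f j := by
  induction I using Finset.induction_on with
  | empty => simp [coeff_one]
  | insert j I hj ih =>
    rw [prod_insert hj, sum_insert hj]
    obtain ⟨h1, h2⟩ := ih
    constructor
    · rw [mul_coeff_zero, h1]
      simp
    · rw [add_mul, one_mul, mul_assoc, coeff_add, h2, coeff_C_mul, coeff_X_mul, h1]
      ring

namespace Stars

variable {I : Finset ι} {t k c : ι → α} (h : Stars i I t k c)
include h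

/-- **(2,1)** for a row of disjoint stars -/
theorem E1 (C : CtxK α) (hi : i < HT α) :
    ∑ j ∈ I, (hdg (t j) - hdg (c j) - 1 + mD i {k j, c j} - mD i {t j, k j}) +
      ∑ v ∈ Vs (α := α) i, sgn0 i v = 0 := by
  have h1 := congrArg (fun p : ℤ[X] => p.coeff 0) (h.K1_closed C hi)
  simp only [coeff_add, coeff_sub, mul_coeff_zero, coeff_C_zero, coeff_X_zero, mul_zero, zero_mul,
    finsetSum_coeff, Mo_coeff_zero, coeff_zero, sub_zero, add_zero, mul_one] at h1
  have h2 : (2 : ℤ[X]).coeff 0 = 2 := by
    have : (2 : ℤ[X]) = Polynomial.C 2 := rfl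
    rw [this, coeff_C_zero]
  rw [h2] at h1
  unfold hdg
  linarith

/-- **(3,2)** for a row of disjoint stars: the number of elements over two disjoint doubles -/
theorem D3 (C : CtxK α) (hi : i < HT α) :
    2 * ((V4 (α := α) i).card : ℤ) = 2 * (I.card : ℤ) + thS i I t k c -
      2 * ∑ v ∈ Vs (α := α) i, sgn0 i v * ∑ j ∈ I, sfac t k c j (BB i v) := by
  have h1 := congrArg (fun p : ℤ[X] => p.coeff 1) (h.K1_closed C hi)
  have e2 : (2 : ℤ[X]) = Polynomial.C 2 := rfl
  have h3 : ∀ v : α, (Mo i (BB i v)).coeff 1 = ∑ j ∈ I, sfac t k c j (BB i v) := by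
    intro v
    rw [h.Mo_prod C]
    exact (coeff_one_prod _).2
  have h4 : ∀ v : α, ((1 + Polynomial.C (sgn0 i v) * X) * Mo i (BB i v)).coeff 0 = 1 := by
    intro v
    rw [mul_coeff_zero, Mo_coeff_zero]
    simp
  simp only [coeff_add, coeff_sub, e2, coeff_C_mul, finsetSum_coeff, h3, coeff_zero] at h1
  rw [coeff_X_mul, finsetSum_coeff, sum_congr rfl fun v _ => h4 v, coeff_C, if_neg (by norm_num),
    coeff_X_one, mul_one, sum_const, nsmul_eq_mul, mul_one] at h1
  linarith

/-- the value at `-1`: the first order relation which does not see the elements of row `i + 2`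
over two disjoint doubles -/
theorem at_neg_one (C : CtxK α) (hi : i < HT α) (hV : ∀ v ∈ V4 (α := α) i, i < corank v) :
    2 * (I.card : ℤ) + thS i I t k c =
      2 * ∑ v ∈ Vs (α := α) i, sgn0 i v * (1 - ∏ j ∈ I, (1 - sfac t k c j (BB i v))) := by
  have h1 := congrArg (fun p : ℤ[X] => p.eval (-1)) (h.K1_closed C hi)
  have h2 := h.E1 C hi
  have h3 : ∀ v : α, (Mo i (BB i v)).eval (-1) = ∏ j ∈ I, (1 - sfac t k c j (BB i v)) := by
    intro v
    rw [h.Mo_prod C, eval_prod]
    apply prod_congr rfl
    intro j _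
    simp
    ring
  have h4 : ∀ v ∈ V4 (α := α) i,
      ((1 + Polynomial.C (sgn0 i v) * X) * Mo i (BB i v)).eval (-1) = 0 := by
    intro v hv
    have h5 : sgn0 i v = 1 := by
      unfold sgn0
      rw [if_neg (by have := hV v hv; omega)]
    rw [h5]
    simp
  simp only [eval_add, eval_sub, eval_mul, eval_finsetSum, eval_C, eval_X, eval_ofNat, h3,
    eval_zero] at h1
  have h5 : ∑ v ∈ V4 (α := α) i, (eval (-1) (1 : ℤ[X]) + sgn0 i v * -1) *
      ∏ j ∈ I, (1 - sfac t k c j (BB i v)) = 0 := by
    apply sum_eq_zero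
    intro v hv
    have h6 : sgn0 i v = 1 := by
      unfold sgn0
      rw [if_neg (by have := hV v hv; omega)]
    rw [h6]
    simp
  rw [h5] at h1
  simp only [mul_sub, mul_one, sum_sub_distrib]
  unfold hdg at h2
  linarith

/-- **removal of `k4`**: if no event meets two stars then no element of row `i + 2` lies over two
doubles with disjoint pairs -/
theorem no_k4 (C : CtxK α) (hi : i < HT α) (hV : ∀ v ∈ V4 (α := α) i, i < corank v)
    (hone : ∀ v ∈ Vs (α := α) i, ∀ j ∈ I, ∀ j' ∈ I, sfac t k c j (BB i v) ≠ 0 →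
      sfac t k c j' (BB i v) ≠ 0 → j = j') : V4 (α := α) i = ∅ := by
  have h1 := h.D3 C hi
  have h2 := h.at_neg_one C hi hV
  have h3 : ∀ v ∈ Vs (α := α) i, 1 - ∏ j ∈ I, (1 - sfac t k c j (BB i v)) =
      ∑ j ∈ I, sfac t k c j (BB i v) := by
    intro v hv
    by_cases h4 : ∃ j ∈ I, sfac t k c j (BB i v) ≠ 0
    · obtain ⟨j, hj, h5⟩ := h4
      rw [prod_eq_single j, sum_eq_single j]
      · ring
      · intro j' hj' hne
        by_contra h6
        exact hne (hone v hv j hj j' hj' h5 h6).symm
      · intro h6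
        exact (h6 hj).elim
      · intro j' hj' hne
        have h6 : sfac t k c j' (BB i v) = 0 := by
          by_contra h6
          exact hne (hone v hv j hj j' hj' h5 h6).symm
        rw [h6, sub_zero]
      · intro h6
        exact (h6 hj).elim
    · push Not at h4
      rw [sum_eq_zero h4, prod_eq_one]
      · ring
      · intro j hj
        rw [h4 j hj, sub_zero]
  rw [sum_congr rfl fun v hv => by rw [h3 v hv]] at h2
  rw [← card_eq_zero]
  omega

end Stars

end Pool.Gauss
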