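import Pool.Agent.Work.MP_065141_co.K.KOne9

/-!
# The first order polynomial in terms of the multiplicities
-/

set_option autoImplicit false
set_option linter.unusedSectionVars false
set_option linter.unusedVariables false
open scoped Classical
open Finset Polynomial

namespace Pool.Gauss

variable {α : Type} [Fintype α] [PartialOrder α] {i : ℕ}

/-- the part of `Qy` with at least two elements -/
noncomputable def Qr (i : ℕ) (y : α) : ℤ[X] :=
  ∑ N ∈ ((lev α i).erase y).powerset.filter (fun N => 2 ≤ N.card),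
    (∏ x ∈ N, (-(C (W0 i {y, x}) * X))) * Mo i (insert y N)

namespace CtxK

variable (C : CtxK α)
include C

lemma mC_Db (s : Finset α) : ((Db i s).filter fun p => i < corank p).card = mC i s := by
  unfold mC
  congr 1
  ext p
  rw [mem_filter, mem_filter, mem_Db, mem_lev]
  constructor
  · rintro ⟨⟨h1, h2⟩, h3⟩
    have h4 : corank p = i + 1 := by
      unfold ds at h1
      omega
    exact ⟨h4, by rw [← C.bd_below h4, h2]⟩
  · rintro ⟨h1, h2⟩
    exact ⟨⟨by unfold ds; omega, by rw [C.bd_below h1, h2]⟩, by omega⟩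

lemma mD_Db (s : Finset α) : ((Db i s).filter fun p => corank p < i).card = mD i s := by
  unfold mD
  congr 1
  ext p
  rw [mem_filter, mem_filter, mem_Db, mem_lev']
  constructor
  · rintro ⟨⟨h1, h2⟩, h3⟩
    have h4 : corank p + 1 = i := by
      unfold ds at h1
      omega
    exact ⟨h4, by rw [← C.bd_above h4, h2]⟩
  · rintro ⟨h1, h2⟩
    exact ⟨⟨by unfold ds; omega, by rw [C.bd_above h1, h2]⟩, by omega⟩

lemma DbD_sum (f : Finset α → ℤ[X]) : ∑ p ∈ DbD (α := α) i, f (bd i p) =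
    ∑ s ∈ (lev α i).powersetCard 2, (mC i s : ℤ[X]) * f s := by
  have hmap : ∀ p ∈ DbD (α := α) i, bd i p ∈ (lev α i).powersetCard 2 := by
    intro p hp
    rw [mem_DbD] at hp
    rw [mem_powersetCard]
    exact ⟨bd_sub_lev C.grd hp.1, hp.2.1⟩
  rw [← sum_fiberwise_of_maps_to hmap]
  apply sum_congr rfl
  intro s hs
  rw [mem_powersetCard] at hs
  have h1 : ∀ p ∈ (DbD (α := α) i).filter (fun p => bd i p = s), f (bd i p) = f s := by
    intro p hp
    rw [(mem_filter.1 hp).2]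
  rw [sum_congr rfl h1, sum_const, nsmul_eq_mul, ← C.mC_Db]
  congr 3
  ext p
  rw [mem_filter, mem_filter, mem_DbD, mem_Db]
  constructor
  · rintro ⟨⟨h2, h3, h4⟩, h5⟩
    exact ⟨⟨h2, h5⟩, h4⟩
  · rintro ⟨⟨h2, h5⟩, h4⟩
    exact ⟨⟨h2, by rw [h5]; exact hs.2, h4⟩, h5⟩

lemma DbU_sum (f : Finset α → ℤ[X]) : ∑ p ∈ DbU (α := α) i, f (bd i p) =
    ∑ s ∈ (lev α i).powersetCard 2, (mD i s : ℤ[X]) * f s := by
  have hmap : ∀ p ∈ DbU (α := α) i, bd i p ∈ (lev α i).powersetCard 2 := by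
    intro p hp
    rw [mem_DbU] at hp
    rw [mem_powersetCard]
    exact ⟨bd_sub_lev C.grd hp.1, hp.2.1⟩
  rw [← sum_fiberwise_of_maps_to hmap]
  apply sum_congr rfl
  intro s hs
  rw [mem_powersetCard] at hs
  have h1 : ∀ p ∈ (DbU (α := α) i).filter (fun p => bd i p = s), f (bd i p) = f s := by
    intro p hp
    rw [(mem_filter.1 hp).2]
  rw [sum_congr rfl h1, sum_const, nsmul_eq_mul, ← C.mD_Db]
  congr 3
  ext p
  rw [mem_filter, mem_filter, mem_DbU, mem_Db]
  constructor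
  · rintro ⟨⟨h2, h3, h4⟩, h5⟩
    exact ⟨⟨h2, h5⟩, h4⟩
  · rintro ⟨⟨h2, h5⟩, h4⟩
    exact ⟨⟨h2, by rw [h5]; exact hs.2, h4⟩, h5⟩

lemma AdD_sum (f : Finset α → ℤ[X]) : ∑ B ∈ AdD (α := α) i, f (VB i B) =
    ∑ y ∈ lev α i, ∑ N ∈ ((lev α i).erase y).powersetCard 2,
      (∏ u ∈ N, (mC i {y, u} : ℤ[X])) * f (insert y N) := by
  have h := Ad_sum_gen (i := i) C.grd (fun p => i < corank p) f
  have h1 : AdD (α := α) i = univ.filter (fun B : Finset α => B.card = 2 ∧
      (∀ p ∈ B, ds i p = 1 ∧ (bd i p).card = 2 ∧ i < corank p) ∧ (VB i B).card = 3) := rfl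
  rw [h1, h]
  simp only [C.mC_Db]

lemma AdU_sum (f : Finset α → ℤ[X]) : ∑ B ∈ AdU (α := α) i, f (VB i B) =
    ∑ y ∈ lev α i, ∑ N ∈ ((lev α i).erase y).powersetCard 2,
      (∏ u ∈ N, (mD i {y, u} : ℤ[X])) * f (insert y N) := by
  have h := Ad_sum_gen (i := i) C.grd (fun p => corank p < i) f
  have h1 : AdU (α := α) i = univ.filter (fun B : Finset α => B.card = 2 ∧
      (∀ p ∈ B, ds i p = 1 ∧ (bd i p).card = 2 ∧ corank p < i) ∧ (VB i B).card = 3) := rfl
  rw [h1, h]
  simp only [C.mD_Db]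

lemma MPW0 (hi : i < HT α) : MP (W0 i) (lev α i) = 1 := by
  rw [C.W0_eq]
  exact C.MP_row hi

/-- the doubles above and below give the same sum of matching polynomials -/
lemma Db_eq (hi : i < HT α) : ∑ p ∈ DbD (α := α) i, Mo i (bd i p) =
    ∑ p ∈ DbU (α := α) i, Mo i (bd i p) := by
  have h1 := MP_marked_zero (C.MPW0 hi)
  rw [C.DbD_sum (fun s => Mo i s), C.DbU_sum (fun s => Mo i s), ← sub_eq_zero, ← sum_sub_distrib,
    ← h1]
  apply sum_congr rfl
  intro s _
  rw [C.W0_eq, Mo, C.W0_eq, Wt, C_sub]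
  simp only [Int.cast_natCast, map_natCast]
  ring

lemma Mo_vertex_sum (hi : i < HT α) : ∑ y ∈ lev α i, Mo i {y} = ((lev α i).card : ℤ[X]) := by
  rw [← MP_vertex_sum (C.MPW0 hi)]
  apply sum_congr rfl
  intro y _
  rw [Mo, sdiff_singleton_eq_erase]

lemma Qy_split (hi : i < HT α) {y : α} (hy : y ∈ lev α i) :
    Qy i y = 2 * Mo i {y} - 1 + Qr i y := by
  have h1 := sum_filter_add_sum_filter_not (((lev α i).erase y).powerset)
    (fun N => 2 ≤ N.card) (fun N => (∏ x ∈ N, (-(Polynomial.C (W0 i {y, x}) * X))) *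
      Mo i (insert y N))
  have h2 : ((lev α i).erase y).powerset.filter (fun N => ¬ 2 ≤ N.card) =
      insert ∅ (((lev α i).erase y).image fun u => {u}) := by
    ext N
    rw [mem_filter, mem_powerset, mem_insert, mem_image]
    constructor
    · rintro ⟨h3, h4⟩
      rcases Nat.eq_zero_or_pos N.card with h5 | h5
      · exact Or.inl (card_eq_zero.1 h5)
      · right
        obtain ⟨u, rfl⟩ := card_eq_one.1 (by omega : N.card = 1)
        exact ⟨u, h3 (mem_singleton_self u), rfl⟩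
    · rintro (rfl | ⟨u, hu, rfl⟩)
      · simp
      · refine ⟨singleton_subset_iff.2 hu, ?_⟩
        rw [card_singleton]
        omega
  have h3 : (∅ : Finset α) ∉ ((lev α i).erase y).image (fun u => ({u} : Finset α)) := by
    rw [mem_image]
    rintro ⟨u, _, h⟩
    exact singleton_ne_empty u h
  rw [h2, sum_insert h3, sum_image (fun a _ b _ hab => singleton_injective hab)] at h1
  have h4 := MP_expand (W0 i) hy
  rw [C.MPW0 hi] at h4
  have h5 : Mo i {y} = MP (W0 i) ((lev α i).erase y) := by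
    rw [Mo, sdiff_singleton_eq_erase]
  have h6 : ∀ u ∈ (lev α i).erase y, (∏ x ∈ {u}, (-(Polynomial.C (W0 i {y, x}) * X))) *
      Mo i (insert y {u}) =
      -(Polynomial.C (W0 i {y, u}) * X * MP (W0 i) (((lev α i).erase y).erase u)) := by
    intro u _
    rw [prod_singleton, Mo]
    have : lev α i \ {y, u} = ((lev α i).erase y).erase u := by
      ext x
      simp only [mem_sdiff, mem_insert, mem_singleton, mem_erase]
      tauto
    rw [this]
    ring
  rw [sum_congr rfl h6, sum_neg_distrib] at h1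
  have h7 : Qy i y = ∑ N ∈ ((lev α i).erase y).powerset,
      (∏ x ∈ N, (-(Polynomial.C (W0 i {y, x}) * X))) * Mo i (insert y N) := rfl
  rw [h7, ← h1, prod_empty, one_mul]
  have h8 : Mo i (insert y ∅) = Mo i {y} := rfl
  rw [h8, h5, Qr]
  linear_combination h4

/-- **the first order polynomial in terms of the multiplicities** -/
theorem K1_WD (hi : i < HT α) :
    ∑ y ∈ lev α i, Qr i y - ∑ s ∈ Sg1 (α := α) i, Mo i (bd i s) -
      3 * ∑ p ∈ DbU (α := α) i, Mo i (bd i p) -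
      X * ∑ y ∈ lev α i, ∑ N ∈ ((lev α i).erase y).powersetCard 2,
        (∏ u ∈ N, (mC i {y, u} : ℤ[X]) - ∏ u ∈ N, (mD i {y, u} : ℤ[X])) * Mo i (insert y N) +
      X * ∑ v ∈ Vs (α := α) i, Polynomial.C (sgn0 i v) * Mo i (BB i v) +
      X ^ 2 * ∑ v ∈ V4 (α := α) i, (1 + Polynomial.C (sgn0 i v) * X) * Mo i (BB i v) =
    Polynomial.C (-((Sg1 (α := α) i).card : ℤ) - 3 * (DbD (α := α) i).card) := by
  have h1 := C.K1_const hi
  rw [K1r, C.Db_eq hi, C.AdD_sum (fun S => Mo i S), C.AdU_sum (fun S => Mo i S),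
    sum_congr rfl (fun y hy => C.Qy_split hi hy)] at h1
  simp only [sum_add_distrib, sum_sub_distrib, ← mul_sum, C.Mo_vertex_sum hi, sum_const,
    nsmul_eq_mul, mul_one] at h1
  have h2 : ∑ y ∈ lev α i, ∑ N ∈ ((lev α i).erase y).powersetCard 2,
        (∏ u ∈ N, (mC i {y, u} : ℤ[X]) - ∏ u ∈ N, (mD i {y, u} : ℤ[X])) * Mo i (insert y N) =
      ∑ y ∈ lev α i, ∑ N ∈ ((lev α i).erase y).powersetCard 2,
        (∏ u ∈ N, (mC i {y, u} : ℤ[X])) * Mo i (insert y N) -
      ∑ y ∈ lev α i, ∑ N ∈ ((lev α i).erase y).powersetCard 2,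
        (∏ u ∈ N, (mD i {y, u} : ℤ[X])) * Mo i (insert y N) := by
    rw [← sum_sub_distrib]
    apply sum_congr rfl
    intro y _
    rw [← sum_sub_distrib]
    apply sum_congr rfl
    intro N _
    ring
  rw [h2]
  have h3 : Polynomial.C (((lev α i).card : ℤ) - (Sg1 (α := α) i).card -
      3 * (DbD (α := α) i).card) = ((lev α i).card : ℤ[X]) +
      Polynomial.C (-((Sg1 (α := α) i).card : ℤ) - 3 * (DbD (α := α) i).card) := by
    rw [← C_eq_natCast, ← C_add]
    congr 1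
    push_cast
    ring
  rw [h3] at h1
  linear_combination h1

end CtxK

end Pool.Gauss
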