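import Pool.Agent.Work.MP_065141_co.P4
import Pool.Agent.Work.MP_065141_co.K.Engine5

/-!
# The leading coefficient of the partial sum of energy one

`lcv_one` : `lcv m ε 1` for a reduced good energy function `ε` which vanishes in level `i`: `-3` for
every free matched pair with both vertices free, `-1` for every free matched pair with exactly one
covered vertex and for every free single element at a free vertex.
`lcv_cfD` : the same for the configuration `cfD i q q'` of two events over disjoint pairs, where all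
matched pairs and all single elements `S1 α i` at distance one may be counted.
-/

set_option autoImplicit false
set_option linter.unusedSectionVars false
set_option linter.unusedVariables false
open scoped Classical
open Finset Polynomial

namespace Pool.Gauss

variable {α : Type} [Fintype α] [PartialOrder α] {i : ℕ}

/-! ### statuses in level `i` -/

/-- dominated elements of level `i` -/
lemma mem_Yd_inout {ε : α → ℕ} {y : α} (hy : corank y = i) :
    y ∈ Yd i ε ↔ inE i ε y ∨ outE i ε y := by
  unfold Yd
  rw [mem_filter, mem_lev, inE_lev hy, outE_lev hy]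
  unfold fd
  constructor
  · rintro ⟨_, q, h1, h2⟩
    rcases h1 with ⟨_, h1⟩ | ⟨_, h1⟩
    · exact Or.inl ⟨q, h1, h2⟩
    · exact Or.inr ⟨q, h1, h2⟩
  · rintro (⟨q, h1, h2⟩ | ⟨q, h1, h2⟩)
    · exact ⟨hy, q, Or.inl ⟨hy.ge, h1⟩, h2⟩
    · exact ⟨hy, q, Or.inr ⟨hy.le, h1⟩, h2⟩

/-! ### coefficients -/

lemma coeff_key (P : ℤ[X]) (a d f : ℕ) (h : P * X ^ f = (X - 1) ^ a * X ^ (d + 1)) :
    P.coeff d = if f = 0 then 0 else ((X - 1 : ℤ[X]) ^ a).coeff (f - 1) := by
  have h1 : P.coeff d = (P * X ^ f).coeff (d + f) := by rw [coeff_mul_X_pow]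
  rw [h1, h, coeff_mul_X_pow']
  by_cases hf : f = 0
  · rw [if_pos hf, if_neg (by omega)]
  · rw [if_neg hf, if_pos (by omega)]
    congr 1
    omega

lemma coeff_X1_zero (a : ℕ) : ((X - 1 : ℤ[X]) ^ a).coeff 0 = (-1) ^ a := by
  rw [coeff_zero_eq_eval_zero]
  simp

lemma coeff_X1_one (a : ℕ) : ((X - 1 : ℤ[X]) ^ a).coeff 1 = - ((-1) ^ a * (a : ℤ)) := by
  have h1 : ((X : ℤ[X]) - 1) = X + C (-1) := by
    rw [C_neg, C_1]
    ring
  rw [h1, coeff_X_add_C_pow]
  rcases Nat.eq_zero_or_pos a with h | h
  · subst h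
    simp
  · obtain ⟨b, rfl⟩ : ∃ b, a = b + 1 := ⟨a - 1, by omega⟩
    rw [Nat.add_sub_cancel, Nat.choose_one_right, pow_succ]
    ring

lemma card_sdiff_pair {y y' : α} (h : y ≠ y') (S : Finset α) :
    (({y, y'} : Finset α) \ S).card = (if y ∈ S then 0 else 1) + (if y' ∈ S then 0 else 1) := by
  by_cases h1 : y ∈ S <;> by_cases h2 : y' ∈ S
  · rw [if_pos h1, if_pos h2, card_eq_zero, sdiff_eq_empty_iff_subset]
    intro t ht
    rw [mem_insert, mem_singleton] at ht
    rcases ht with rfl | rfl
    · exact h1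
    · exact h2
  · have : ({y, y'} : Finset α) \ S = {y'} := by
      ext t
      rw [mem_sdiff, mem_insert, mem_singleton]
      constructor
      · rintro ⟨rfl | rfl, h3⟩
        · exact absurd h1 h3
        · rfl
      · rintro rfl
        exact ⟨Or.inr rfl, h2⟩
    rw [this, if_pos h1, if_neg h2, card_singleton]
  · have : ({y, y'} : Finset α) \ S = {y} := by
      ext t
      rw [mem_sdiff, mem_insert, mem_singleton, mem_singleton]
      constructor
      · rintro ⟨rfl | rfl, h3⟩
        · rfl
        · exact absurd h2 h3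
      · rintro rfl
        exact ⟨Or.inl rfl, h1⟩
    rw [this, if_neg h1, if_pos h2, card_singleton]
  · have : ({y, y'} : Finset α) \ S = {y, y'} := by
      rw [Finset.sdiff_eq_self_iff_disjoint, Finset.disjoint_left]
      intro t ht
      rw [mem_insert, mem_singleton] at ht
      rcases ht with rfl | rfl
      · exact h1
      · exact h2
    rw [this, if_neg h1, if_neg h2, card_pair h]

lemma card_inter_pair {y y' : α} (h : y ≠ y') (S : Finset α) :
    (({y, y'} : Finset α) ∩ S).card = (if y ∈ S then 1 else 0) + (if y' ∈ S then 1 else 0) := by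
  have h1 := Finset.card_sdiff_add_card_inter ({y, y'} : Finset α) S
  rw [card_sdiff_pair h, card_pair h] at h1
  split_ifs at h1 ⊢ <;> omega

lemma disj_pair_iff {y y' : α} {S : Finset α} :
    Disjoint ({y, y'} : Finset α) S ↔ y ∉ S ∧ y' ∉ S := by
  rw [Finset.disjoint_left]
  constructor
  · intro h
    exact ⟨h (by simp), h (by simp)⟩
  · rintro ⟨h1, h2⟩ t ht
    rw [mem_insert, mem_singleton] at ht
    rcases ht with rfl | rfl
    · exact h1
    · exact h2

/-! ### exciting one element of the set of summation -/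

section one

variable (hg : Grad α) (hl : HasLower α i) (m : Mat α i) {ε : α → ℕ} (hred : m.Red ε)
  (h0 : ∀ y, corank y = i → ε y = 0) {p : α} (hp : p ∈ m.rst ε)

include hp in
lemma ind_supp : ∀ t, ind ({p} : Finset α) t ≠ 0 → t ∈ m.rst ε := by
  intro t ht
  by_cases h : t = p
  · rw [h]
    exact hp
  · exact absurd (ind_notMem (by rwa [mem_singleton])) ht

include hg hl hred hp in
/-- away from level `i` and from `p` the local weights do not change -/
lemma om_one_other {t : α} (ht : corank t ≠ i) (htp : t ≠ p) :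
    om (inE i (ε + ind {p}) t) (outE i (ε + ind {p}) t) = om (inE i ε t) (outE i ε t) := by
  have hκ := ind_supp m hp
  by_cases h : t ∈ m.rst ε
  · have h1 := om_rst hg hl m hred hκ h
    have h2 := om_rst hg hl m (κ := 0) hred (by simp) h
    rw [add_zero] at h2
    rw [h1, h2, ind_notMem (by rwa [mem_singleton])]
    rfl
  · rw [inE_other hg hl m hred hκ ht h, outE_other hg hl m hred hκ ht h]

include h0 hp in
/-- in level `i` -/
lemma in_one_lev {t : α} (ht : corank t = i) :
    inE i (ε + ind {p}) t ↔ inE i ε t ∨ p ⋖ t := by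
  have hpi := (m.rst_prop hp).2
  have h1 : (ε + ind {p}) t = 0 := by
    rw [Pi.add_apply, h0 t ht, ind_notMem]
    rw [mem_singleton]
    rintro rfl
    omega
  rw [inE_lev ht, inE_lev ht, h1, h0 t ht]
  constructor
  · rintro ⟨x, hx, hx2⟩
    by_cases h : x = p
    · right
      rwa [← h]
    · left
      refine ⟨x, hx, ?_⟩
      rwa [Pi.add_apply, ind_notMem (by rwa [mem_singleton]), add_zero] at hx2
  · rintro (⟨x, hx, hx2⟩ | h)
    · exact ⟨x, hx, by rw [Pi.add_apply]; omega⟩
    · exact ⟨p, h, by rw [Pi.add_apply, ind_mem (mem_singleton_self p)]; omega⟩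

include h0 hp in
lemma out_one_lev {t : α} (ht : corank t = i) :
    outE i (ε + ind {p}) t ↔ outE i ε t ∨ t ⋖ p := by
  have hpi := (m.rst_prop hp).2
  have h1 : (ε + ind {p}) t = 0 := by
    rw [Pi.add_apply, h0 t ht, ind_notMem]
    rw [mem_singleton]
    rintro rfl
    omega
  rw [outE_lev ht, outE_lev ht, h1, h0 t ht]
  constructor
  · rintro ⟨x, hx, hx2⟩
    by_cases h : x = p
    · right
      rwa [← h]
    · left
      refine ⟨x, hx, ?_⟩
      rwa [Pi.add_apply, ind_notMem (by rwa [mem_singleton]), add_zero] at hx2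
  · rintro (⟨x, hx, hx2⟩ | h)
    · exact ⟨x, hx, by rw [Pi.add_apply]; omega⟩
    · exact ⟨p, h, by rw [Pi.add_apply, ind_mem (mem_singleton_self p)]; omega⟩

include hg hl hred h0 hp in
/-- the element itself becomes free -/
lemma om_one_self : om (inE i (ε + ind {p}) p) (outE i (ε + ind {p}) p) = X := by
  have h1 := om_rst hg hl m hred (ind_supp m hp) hp
  rw [h1, ind_mem (mem_singleton_self p)]
  rcases (m.rst_prop hp).2 with h2 | h2
  · rw [if_pos h2, if_neg]
    rintro ⟨y, hy, h3⟩
    have := hg y p hy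
    rw [h0 y (by omega)] at h3
    omega
  · rw [if_neg (by omega), if_neg]
    rintro ⟨y, hy, h3⟩
    have := hg p y hy
    rw [h0 y (by omega)] at h3
    omega

include hg hl hred hp in
lemma om_self : om (inE i ε p) (outE i ε p) = if corank p + 1 = i then X - 1 else 1 := by
  have h1 := om_rst hg hl m (κ := 0) hred (by simp) hp
  rw [add_zero] at h1
  rw [h1]
  have h3 := (m.rst_prop hp).2
  by_cases h2 : corank p + 1 = i
  · rw [if_pos h2, if_pos h2, if_pos]
    obtain ⟨t, ht⟩ := hl p (by omega)
    exact ⟨t, ht, Nat.zero_le _⟩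
  · rw [if_neg h2, if_neg h2, if_pos]
    obtain ⟨t, ht⟩ := exists_upper p (by omega)
    exact ⟨t, ht, Nat.zero_le _⟩

lemma prod_ite_one (s : Finset α) (r : ℤ[X]) :
    ∏ t : α, (if t ∈ s then r else 1) = r ^ s.card := by
  rw [← prod_const, Finset.prod_ite_mem, univ_inter]

lemma prod_ite_bad (c : α → Prop) [DecidablePred c] [Decidable (∃ t, c t)] :
    ∏ t : α, (if c t then (0 : ℤ[X]) else 1) = if ∃ t, c t then 0 else 1 := by
  split_ifs with h
  · obtain ⟨t, ht⟩ := h
    exact Finset.prod_eq_zero (mem_univ t) (if_pos ht)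
  · apply Finset.prod_eq_one
    intro t _
    rw [if_neg (fun h1 => h ⟨t, h1⟩)]

include hg hl hred h0 hp in
/-- **exciting an element above level `i`** -/
theorem tm_one_above (hgood : GoodE i ε) (hpi : corank p + 1 = i) :
    tm i (ε + ind {p}) * (X - 1) * X ^ (bd i p \ Yd i ε).card =
      tm i ε * X * (if ∃ t, t ∈ bd i p ∧ inE i ε t then 0 else 1) := by
  rw [tm_eq_prod, tm_eq_prod, ← prod_ite_one,
    ← prod_ite_bad (fun t => t ∈ bd i p ∧ inE i ε t)]
  have e1 : (X - 1 : ℤ[X]) = ∏ t : α, (if t = p then X - 1 else 1) := by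
    rw [Finset.prod_ite_eq' univ p, if_pos (mem_univ p)]
  have e2 : (X : ℤ[X]) = ∏ t : α, (if t = p then X else 1) := by
    rw [Finset.prod_ite_eq' univ p, if_pos (mem_univ p)]
  conv_lhs => rw [e1]
  conv_rhs => rw [e2]
  rw [← Finset.prod_mul_distrib, ← Finset.prod_mul_distrib, ← Finset.prod_mul_distrib,
    ← Finset.prod_mul_distrib]
  clear e1 e2
  apply Finset.prod_congr rfl
  intro t _
  by_cases htp : t = p
  · subst htp
    have h1 : t ∉ bd i t := by
      intro h
      have := bd_lev hg (by unfold ds; omega) h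
      omega
    rw [om_one_self hg hl m hred h0 hp, om_self hg hl m hred hp, if_pos rfl, if_pos rfl,
      if_pos hpi, if_neg (fun h => h1 (mem_sdiff.1 h).1), if_neg (fun h => h1 h.1)]
    ring
  · rw [if_neg htp, if_neg htp, mul_one, mul_one]
    by_cases ht : corank t = i
    · have h2 : t ∈ bd i p ↔ t ⋖ p := by
        rw [mem_bd]
        constructor
        · intro h
          exact (fr_above' hg h (by omega)).2
        · intro h
          exact fr_of_above ht.le h
      have h3 : ¬ p ⋖ t := by
        intro h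
        have := hg p t h
        omega
      have h4 := hgood t
      have hin := in_one_lev m h0 hp ht
      have hout := out_one_lev m h0 hp ht
      simp only [mem_sdiff, mem_Yd_inout ht, h2]
      unfold om
      by_cases a1 : inE i ε t <;> by_cases a2 : outE i ε t <;> by_cases a3 : t ⋖ p <;>
        simp_all
    · rw [om_one_other hg hl m hred hp ht htp]
      have h1 : t ∉ bd i p := fun h => ht (bd_lev hg (by unfold ds; omega) h)
      rw [if_neg (fun h => h1 (mem_sdiff.1 h).1), if_neg (fun h => h1 h.1)]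

include hg hl hred h0 hp in
/-- **exciting an element below level `i`** -/
theorem tm_one_below (hgood : GoodE i ε) (hpi : corank p = i + 1) :
    tm i (ε + ind {p}) * X ^ (bd i p \ Yd i ε).card =
      tm i ε * X * (X - 1) ^ (bd i p \ Yd i ε).card *
        (if ∃ t, t ∈ bd i p ∧ outE i ε t then 0 else 1) := by
  rw [tm_eq_prod, tm_eq_prod, ← prod_ite_one, ← prod_ite_one,
    ← prod_ite_bad (fun t => t ∈ bd i p ∧ outE i ε t)]
  have e2 : (X : ℤ[X]) = ∏ t : α, (if t = p then X else 1) := by
    rw [Finset.prod_ite_eq' univ p, if_pos (mem_univ p)]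
  have e3 : (∏ t : α, om (inE i ε t) (outE i ε t)) * X =
      (∏ t : α, om (inE i ε t) (outE i ε t)) * ∏ t : α, (if t = p then X else 1) := by
    rw [← e2]
  rw [e3, ← Finset.prod_mul_distrib, ← Finset.prod_mul_distrib, ← Finset.prod_mul_distrib,
    ← Finset.prod_mul_distrib]
  clear e2 e3
  apply Finset.prod_congr rfl
  intro t _
  by_cases htp : t = p
  · subst htp
    have h1 : t ∉ bd i t := by
      intro h
      have := bd_lev hg (by unfold ds; omega) h
      omega
    rw [om_one_self hg hl m hred h0 hp, om_self hg hl m hred hp]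
    have h2 : ¬ corank t + 1 = i := by omega
    simp [h1, h2]
  · rw [if_neg htp, mul_one]
    by_cases ht : corank t = i
    · have h2 : t ∈ bd i p ↔ p ⋖ t := by
        rw [mem_bd]
        constructor
        · intro h
          exact (fr_below' hg h (by omega)).2
        · intro h
          exact fr_of_below ht.ge h
      have h3 : ¬ t ⋖ p := by
        intro h
        have := hg t p h
        omega
      have h4 := hgood t
      have hin := in_one_lev m h0 hp ht
      have hout := out_one_lev m h0 hp ht
      simp only [mem_sdiff, mem_Yd_inout ht, h2]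
      unfold om
      by_cases a1 : inE i ε t <;> by_cases a2 : outE i ε t <;> by_cases a3 : p ⋖ t <;>
        simp_all [mul_comm]
    · rw [om_one_other hg hl m hred hp ht htp]
      have h1 : t ∉ bd i p := fun h => ht (bd_lev hg (by unfold ds; omega) h)
      rw [if_neg (fun h => h1 (mem_sdiff.1 h).1), if_neg (fun h => h1 (mem_sdiff.1 h).1),
        if_neg (fun h => h1 h.1)]
      ring

/-- the sum over the energy functions of total one on the set of summation -/
lemma sum_piAntidiag_one {M : Type} [AddCommMonoid M] (s : Finset α) (F : (α → ℕ) → M) :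
    ∑ κ ∈ s.piAntidiag 1, F κ = ∑ p ∈ s, F (ind {p}) := by
  symm
  refine Finset.sum_bij (fun p _ => ind {p}) ?_ ?_ ?_ (fun _ _ => rfl)
  · intro p hp
    rw [mem_piAntidiag]
    constructor
    · unfold ind
      simp only [mem_singleton]
      rw [Finset.sum_ite_eq' s p, if_pos hp]
    · intro t ht
      by_cases h : t = p
      · rw [h]
        exact hp
      · exact absurd (ind_notMem (by rwa [mem_singleton])) ht
  · intro p _ q _ h
    have := ind_inj h
    simpa using this
  · intro κ hκ
    rw [mem_piAntidiag] at hκ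
    obtain ⟨h1, h2⟩ := hκ
    have h3 : ∃ p ∈ s, κ p ≠ 0 := by
      by_contra h
      push Not at h
      rw [Finset.sum_eq_zero h] at h1
      omega
    obtain ⟨p, hp, hp0⟩ := h3
    refine ⟨p, hp, ?_⟩
    funext t
    have h4 := Finset.add_sum_erase s κ hp
    have h1' : ∑ x ∈ s, κ x = 1 := h1
    by_cases h : t = p
    · subst h
      rw [ind_mem (mem_singleton_self t)]
      omega
    · rw [ind_notMem (by rwa [mem_singleton])]
      by_contra h5
      have h6 := h2 t (fun h6 => h5 h6.symm)
      have h7 := Finset.single_le_sum (f := κ) (fun _ _ => Nat.zero_le _)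
        (mem_erase.2 ⟨h, h6⟩)
      omega

end one

section main

variable (hg : Grad α) (hl : HasLower α i) (m : Mat α i) {ε : α → ℕ} (hred : m.Red ε)
  (h0 : ∀ y, corank y = i → ε y = 0) (hgood : GoodE i ε) {p : α} (hp : p ∈ m.rst ε)

include hg hl hred h0 hgood hp in
/-- the contribution of an element above level `i` -/
lemma val_above (hpi : corank p + 1 = i) :
    (tm i (ε + ind {p})).coeff (pkF i ε).card =
      if ∃ t, t ∈ bd i p ∧ inE i ε t then 0 else
        (if (bd i p \ Yd i ε).card = 0 then 0 else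
          ((X - 1 : ℤ[X]) ^ ((inF i ε).card - 1)).coeff ((bd i p \ Yd i ε).card - 1)) := by
  have h1 := tm_one_above hg hl m hred h0 hp hgood hpi
  have hX : (X - 1 : ℤ[X]) ≠ 0 := by
    intro h
    have := congrArg (eval 0) h
    simp at this
  have hX2 : (X : ℤ[X]) ≠ 0 := X_ne_zero
  have hI : 1 ≤ (inF i ε).card := by
    rw [Nat.one_le_iff_ne_zero, ← Nat.pos_iff_ne_zero, Finset.card_pos]
    refine ⟨p, ?_⟩
    unfold inF
    rw [mem_filter]
    exact ⟨mem_univ _, (m.rst_status hred hp).1.2 hpi⟩
  split_ifs at h1 ⊢ with hb hf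
  · rw [mul_zero] at h1
    rcases mul_eq_zero.1 h1 with h2 | h2
    · rcases mul_eq_zero.1 h2 with h3 | h3
      · rw [h3, coeff_zero]
      · exact absurd h3 hX
    · exact absurd h2 (pow_ne_zero _ hX2)
  · rw [mul_one, tm_good hgood] at h1
    have h2 : tm i (ε + ind {p}) * X ^ (bd i p \ Yd i ε).card =
        (X - 1) ^ ((inF i ε).card - 1) * X ^ ((pkF i ε).card + 1) := by
      apply mul_right_cancel₀ hX
      obtain ⟨a, ha⟩ : ∃ a, (inF i ε).card = a + 1 := ⟨(inF i ε).card - 1, by omega⟩
      rw [ha] at h1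
      rw [ha, Nat.add_sub_cancel]
      linear_combination h1
    rw [coeff_key _ _ _ _ h2, if_pos hf]
  · rw [mul_one, tm_good hgood] at h1
    have h2 : tm i (ε + ind {p}) * X ^ (bd i p \ Yd i ε).card =
        (X - 1) ^ ((inF i ε).card - 1) * X ^ ((pkF i ε).card + 1) := by
      apply mul_right_cancel₀ hX
      obtain ⟨a, ha⟩ : ∃ a, (inF i ε).card = a + 1 := ⟨(inF i ε).card - 1, by omega⟩
      rw [ha] at h1
      rw [ha, Nat.add_sub_cancel]
      linear_combination h1
    rw [coeff_key _ _ _ _ h2, if_neg hf]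

include hg hl hred h0 hgood hp in
/-- the contribution of an element below level `i` -/
lemma val_below (hpi : corank p = i + 1) :
    (tm i (ε + ind {p})).coeff (pkF i ε).card =
      if ∃ t, t ∈ bd i p ∧ outE i ε t then 0 else
        (if (bd i p \ Yd i ε).card = 0 then 0 else
          ((X - 1 : ℤ[X]) ^ ((inF i ε).card + (bd i p \ Yd i ε).card)).coeff
            ((bd i p \ Yd i ε).card - 1)) := by
  have h1 := tm_one_below hg hl m hred h0 hp hgood hpi
  have hX2 : (X : ℤ[X]) ≠ 0 := X_ne_zero
  split_ifs at h1 ⊢ with hb hf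
  · rw [mul_zero] at h1
    rcases mul_eq_zero.1 h1 with h3 | h2
    · rw [h3, coeff_zero]
    · exact absurd h2 (pow_ne_zero _ hX2)
  · rw [mul_one, tm_good hgood] at h1
    have h2 : tm i (ε + ind {p}) * X ^ (bd i p \ Yd i ε).card =
        (X - 1) ^ ((inF i ε).card + (bd i p \ Yd i ε).card) * X ^ ((pkF i ε).card + 1) := by
      rw [pow_add, pow_succ]
      linear_combination h1
    rw [coeff_key _ _ _ _ h2, if_pos hf]
  · rw [mul_one, tm_good hgood] at h1
    have h2 : tm i (ε + ind {p}) * X ^ (bd i p \ Yd i ε).card =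
        (X - 1) ^ ((inF i ε).card + (bd i p \ Yd i ε).card) * X ^ ((pkF i ε).card + 1) := by
      rw [pow_add, pow_succ]
      linear_combination h1
    rw [coeff_key _ _ _ _ h2, if_neg hf]

include hg hl hred h0 hgood in
/-- the contribution of a matched pair -/
lemma val_pair {e : α × α} (he : e ∈ m.free ε) :
    (tm i (ε + ind {e.1})).coeff (pkF i ε).card + (tm i (ε + ind {e.2})).coeff (pkF i ε).card =
      (-1) ^ (inF i ε).card * (if Disjoint (bd i e.1) (Yd i ε) then -3 else
        if (bd i e.1 ∩ Yd i ε).card = 1 then -1 else 0) := by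
  have heM := (mem_filter.1 he).1
  have hp1 : e.1 ∈ m.rst ε := by
    unfold Mat.rst
    exact mem_union_left _ (mem_union_left _ (mem_image_of_mem _ he))
  have hp2 : e.2 ∈ m.rst ε := by
    unfold Mat.rst
    exact mem_union_left _ (mem_union_right _ (mem_image_of_mem _ he))
  have c1 := m.cz e heM
  have c2 := m.cx e heM
  obtain ⟨y, y', hne, hz, hx⟩ := m.two e heM
  have b1 : bd i e.1 = {y, y'} := by
    ext t
    rw [mem_bd, mem_insert, mem_singleton, ← hz t]
    constructor
    · intro h
      exact (fr_above' hg h (by omega)).2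
    · intro h
      have := hg t e.1 h
      exact fr_of_above (by omega) h
  have b2 : bd i e.2 = {y, y'} := by
    ext t
    rw [mem_bd, mem_insert, mem_singleton, ← hx t]
    constructor
    · intro h
      exact (fr_below' hg h (by omega)).2
    · intro h
      have := hg e.2 t h
      exact fr_of_below (by omega) h
  have hy : corank y = i := bd_lev hg (by unfold ds; omega) (by rw [b1]; simp : y ∈ bd i e.1)
  have hy' : corank y' = i := bd_lev hg (by unfold ds; omega) (by rw [b1]; simp : y' ∈ bd i e.1)
  have g1 := hgood y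
  have g2 := hgood y'
  rw [val_above hg hl m hred h0 hgood hp1 c1, val_below hg hl m hred h0 hgood hp2 c2, b1, b2,
    card_sdiff_pair hne, card_inter_pair hne]
  have hI : 1 ≤ (inF i ε).card := by
    rw [Nat.one_le_iff_ne_zero, ← Nat.pos_iff_ne_zero, Finset.card_pos]
    refine ⟨e.1, ?_⟩
    unfold inF
    rw [mem_filter]
    exact ⟨mem_univ _, (m.rst_status hred hp1).1.2 c1⟩
  obtain ⟨a, ha⟩ : ∃ a, (inF i ε).card = a + 1 := ⟨(inF i ε).card - 1, by omega⟩
  rw [ha]
  have ex1 : (∃ t, t ∈ ({y, y'} : Finset α) ∧ inE i ε t) ↔ inE i ε y ∨ inE i ε y' := by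
    constructor
    · rintro ⟨t, ht, h⟩
      rw [mem_insert, mem_singleton] at ht
      rcases ht with rfl | rfl
      · exact Or.inl h
      · exact Or.inr h
    · rintro (h | h)
      · exact ⟨y, by simp, h⟩
      · exact ⟨y', by simp, h⟩
  have ex2 : (∃ t, t ∈ ({y, y'} : Finset α) ∧ outE i ε t) ↔ outE i ε y ∨ outE i ε y' := by
    constructor
    · rintro ⟨t, ht, h⟩
      rw [mem_insert, mem_singleton] at ht
      rcases ht with rfl | rfl
      · exact Or.inl h
      · exact Or.inr h
    · rintro (h | h)
      · exact ⟨y, by simp, h⟩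
      · exact ⟨y', by simp, h⟩
  have hdis : Disjoint ({y, y'} : Finset α) (Yd i ε) ↔
      ¬ (inE i ε y ∨ outE i ε y) ∧ ¬ (inE i ε y' ∨ outE i ε y') := by
    rw [disj_pair_iff, mem_Yd_inout hy, mem_Yd_inout hy']
  simp only [ex1, ex2, hdis, mem_Yd_inout hy, mem_Yd_inout hy']
  by_cases a1 : inE i ε y <;> by_cases a2 : outE i ε y <;> by_cases a3 : inE i ε y' <;>
    by_cases a4 : outE i ε y'
  all_goals first
    | exact (g1 ⟨a1, a2⟩).elim
    | exact (g2 ⟨a3, a4⟩).elim
    | skip
  all_goals simp [a1, a2, a3, a4, coeff_X1_zero, coeff_X1_one]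
  all_goals ring

include hg hl hred h0 hgood in
/-- the contribution of a single element -/
lemma val_single (hp : p ∈ sgl i ε) :
    (tm i (ε + ind {p})).coeff (pkF i ε).card =
      (-1) ^ (inF i ε).card * (if Disjoint (bd i p) (Yd i ε) then -1 else 0) := by
  have hp1 : p ∈ m.rst ε := by
    unfold Mat.rst
    exact mem_union_right _ hp
  unfold sgl at hp
  rw [mem_filter] at hp
  rcases hp.2.1 with ⟨c1, y, hy⟩ | ⟨c1, y, hy⟩
  · have b1 : bd i p = {y} := by
      ext t
      rw [mem_bd, mem_singleton, ← hy t]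
      constructor
      · intro h
        exact (fr_above' hg h (by omega)).2
      · intro h
        have := hg t p h
        exact fr_of_above (by omega) h
    have hyi : corank y = i := bd_lev hg (by unfold ds; omega) (by rw [b1]; simp : y ∈ bd i p)
    rw [val_above hg hl m hred h0 hgood hp1 c1, b1]
    have hI : 1 ≤ (inF i ε).card := by
      rw [Nat.one_le_iff_ne_zero, ← Nat.pos_iff_ne_zero, Finset.card_pos]
      refine ⟨p, ?_⟩
      unfold inF
      rw [mem_filter]
      exact ⟨mem_univ _, (m.rst_status hred hp1).1.2 c1⟩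
    obtain ⟨a, ha⟩ : ∃ a, (inF i ε).card = a + 1 := ⟨(inF i ε).card - 1, by omega⟩
    rw [ha]
    have g1 := hgood y
    have hc : (({y} : Finset α) \ Yd i ε).card = if inE i ε y ∨ outE i ε y then 0 else 1 := by
      split_ifs with h
      · rw [← mem_Yd_inout hyi] at h
        rw [card_eq_zero, sdiff_eq_empty_iff_subset, singleton_subset_iff]
        exact h
      · rw [← mem_Yd_inout hyi] at h
        rw [Finset.sdiff_eq_self_of_disjoint (by rwa [Finset.disjoint_singleton_left]),
          card_singleton]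
    have hd : Disjoint ({y} : Finset α) (Yd i ε) ↔ ¬ (inE i ε y ∨ outE i ε y) := by
      rw [Finset.disjoint_singleton_left, mem_Yd_inout hyi]
    have hex : (∃ t, t ∈ ({y} : Finset α) ∧ inE i ε t) ↔ inE i ε y := by simp
    simp only [hc, hd, hex]
    by_cases a1 : inE i ε y <;> by_cases a2 : outE i ε y
    all_goals first
      | exact (g1 ⟨a1, a2⟩).elim
      | skip
    all_goals simp [a1, a2, coeff_X1_zero]
    all_goals ring
  · have b1 : bd i p = {y} := by
      ext t
      rw [mem_bd, mem_singleton, ← hy t]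
      constructor
      · intro h
        exact (fr_below' hg h (by omega)).2
      · intro h
        have := hg p t h
        exact fr_of_below (by omega) h
    have hyi : corank y = i := bd_lev hg (by unfold ds; omega) (by rw [b1]; simp : y ∈ bd i p)
    rw [val_below hg hl m hred h0 hgood hp1 c1, b1]
    have g1 := hgood y
    have hc : (({y} : Finset α) \ Yd i ε).card = if inE i ε y ∨ outE i ε y then 0 else 1 := by
      split_ifs with h
      · rw [← mem_Yd_inout hyi] at h
        rw [card_eq_zero, sdiff_eq_empty_iff_subset, singleton_subset_iff]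
        exact h
      · rw [← mem_Yd_inout hyi] at h
        rw [Finset.sdiff_eq_self_of_disjoint (by rwa [Finset.disjoint_singleton_left]),
          card_singleton]
    have hd : Disjoint ({y} : Finset α) (Yd i ε) ↔ ¬ (inE i ε y ∨ outE i ε y) := by
      rw [Finset.disjoint_singleton_left, mem_Yd_inout hyi]
    have hex : (∃ t, t ∈ ({y} : Finset α) ∧ outE i ε t) ↔ outE i ε y := by simp
    simp only [hc, hd, hex]
    by_cases a1 : inE i ε y <;> by_cases a2 : outE i ε y
    all_goals first
      | exact (g1 ⟨a1, a2⟩).elim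
      | skip
    all_goals simp [a1, a2, coeff_X1_zero]
    all_goals ring

lemma Mat.sum_rst (m : Mat α i) (ε : α → ℕ) {R : Type} [AddCommMonoid R] (f : α → R) :
    ∑ p ∈ m.rst ε, f p = ∑ e ∈ m.free ε, (f e.1 + f e.2) + ∑ p ∈ sgl i ε, f p := by
  unfold Mat.rst
  rw [Finset.sum_union, Finset.sum_union, Finset.sum_image, Finset.sum_image,
    Finset.sum_add_distrib]
  · intro e he e' he' h
    exact m.inj2 e (mem_filter.1 he).1 e' (mem_filter.1 he').1 h
  · intro e he e' he' h
    exact m.inj1 e (mem_filter.1 he).1 e' (mem_filter.1 he').1 h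
  · rw [Finset.disjoint_left]
    intro p hp hp'
    rw [mem_image] at hp hp'
    obtain ⟨e, he, rfl⟩ := hp
    obtain ⟨e', he', h⟩ := hp'
    have h1 := m.cz e (mem_filter.1 he).1
    have h2 := m.cx e' (mem_filter.1 he').1
    rw [h] at h2
    omega
  · rw [Finset.disjoint_left]
    intro p hp hp'
    rw [mem_union, mem_image, mem_image] at hp
    unfold sgl at hp'
    rw [mem_filter] at hp'
    rcases hp with ⟨e, he, rfl⟩ | ⟨e, he, rfl⟩
    · have h1 := m.cz e (mem_filter.1 he).1
      obtain ⟨y, y', hne, hz, hx⟩ := m.two e (mem_filter.1 he).1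
      rcases hp'.2.1 with ⟨h2, t, ht⟩ | ⟨h2, t, ht⟩
      · have h3 := (ht y).1 ((hz y).2 (Or.inl rfl))
        have h4 := (ht y').1 ((hz y').2 (Or.inr rfl))
        exact hne (h3.trans h4.symm)
      · omega
    · have h1 := m.cx e (mem_filter.1 he).1
      obtain ⟨y, y', hne, hz, hx⟩ := m.two e (mem_filter.1 he).1
      rcases hp'.2.1 with ⟨h2, t, ht⟩ | ⟨h2, t, ht⟩
      · omega
      · have h3 := (ht y).1 ((hx y).2 (Or.inl rfl))
        have h4 := (ht y').1 ((hx y').2 (Or.inr rfl))
        exact hne (h3.trans h4.symm)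

include hg hl hred h0 hgood in
/-- **the leading coefficient of the partial sum of energy one** -/
theorem lcv_one : lcv m ε 1 = (-1) ^ (inF i ε).card *
    (-3 * (((m.free ε).filter fun e => Disjoint (bd i e.1) (Yd i ε)).card : ℤ) -
      ((m.free ε).filter fun e => (bd i e.1 ∩ Yd i ε).card = 1).card -
      ((sgl i ε).filter fun p => Disjoint (bd i p) (Yd i ε)).card) := by
  unfold lcv
  rw [sum_piAntidiag_one, finsetSum_coeff, m.sum_rst ε,
    Finset.sum_congr rfl fun e he => val_pair hg hl m hred h0 hgood he,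
    Finset.sum_congr rfl fun p hp => val_single hg hl m hred h0 hgood hp, ← mul_sum, ← mul_sum,
    ← mul_add]
  congr 1
  have e1 : ∑ e ∈ m.free ε, (if Disjoint (bd i e.1) (Yd i ε) then (-3 : ℤ) else
      if (bd i e.1 ∩ Yd i ε).card = 1 then -1 else 0) =
      -3 * (((m.free ε).filter fun e => Disjoint (bd i e.1) (Yd i ε)).card : ℤ) -
      ((m.free ε).filter fun e => (bd i e.1 ∩ Yd i ε).card = 1).card := by
    have h1 : ∀ e ∈ m.free ε, (if Disjoint (bd i e.1) (Yd i ε) then (-3 : ℤ) else
        if (bd i e.1 ∩ Yd i ε).card = 1 then -1 else 0) =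
        -3 * (if Disjoint (bd i e.1) (Yd i ε) then (1 : ℤ) else 0) -
        (if (bd i e.1 ∩ Yd i ε).card = 1 then 1 else 0) := by
      intro e _
      by_cases h1 : Disjoint (bd i e.1) (Yd i ε)
      · have h2 : ¬ (bd i e.1 ∩ Yd i ε).card = 1 := by
          rw [Finset.disjoint_iff_inter_eq_empty.1 h1]
          simp
        simp [h1, h2]
      · by_cases h2 : (bd i e.1 ∩ Yd i ε).card = 1 <;> simp [h1, h2]
    rw [Finset.sum_congr rfl h1, sum_sub_distrib, ← mul_sum, Finset.sum_boole, Finset.sum_boole]
  have e2 : ∑ p ∈ sgl i ε, (if Disjoint (bd i p) (Yd i ε) then (-1 : ℤ) else 0) =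
      -((sgl i ε).filter fun p => Disjoint (bd i p) (Yd i ε)).card := by
    rw [← Finset.sum_filter, sum_const]
    simp
  rw [e1, e2]
  ring

end main

/-! ### two events over disjoint pairs -/

/-- the single elements at distance one -/
noncomputable def S1 (α : Type) [Fintype α] [PartialOrder α] (i : ℕ) : Finset α :=
  univ.filter fun p => ds i p = 1 ∧ (bd i p).card = 1

lemma mem_S1 {p : α} : p ∈ S1 α i ↔ ds i p = 1 ∧ (bd i p).card = 1 := by simp [S1]

lemma sgl_iff (hg : Grad α) {p : α} : (sglZ i p ∨ sglX i p) ↔ p ∈ S1 α i := by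
  rw [mem_S1]
  constructor
  · rintro (⟨c1, y, hy⟩ | ⟨c1, y, hy⟩)
    · refine ⟨by unfold ds; omega, card_eq_one.2 ⟨y, ?_⟩⟩
      ext t
      rw [mem_bd, mem_singleton, ← hy t]
      constructor
      · intro h
        exact (fr_above' hg h (by omega)).2
      · intro h
        have := hg t p h
        exact fr_of_above (by omega) h
    · refine ⟨by unfold ds; omega, card_eq_one.2 ⟨y, ?_⟩⟩
      ext t
      rw [mem_bd, mem_singleton, ← hy t]
      constructor
      · intro h
        exact (fr_below' hg h (by omega)).2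
      · intro h
        have := hg p t h
        exact fr_of_below (by omega) h
  · rintro ⟨h1, h2⟩
    obtain ⟨y, hy⟩ := card_eq_one.1 h2
    have h3 : corank p + 1 = i ∨ corank p = i + 1 := by
      unfold ds at h1
      omega
    rcases h3 with h3 | h3
    · refine Or.inl ⟨h3, y, fun t => ?_⟩
      rw [← Finset.mem_singleton (a := y) (b := t), ← hy, mem_bd]
      constructor
      · intro h
        have := hg t p h
        exact fr_of_above (by omega) h
      · intro h
        exact (fr_above' hg h (by omega)).2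
    · refine Or.inr ⟨h3, y, fun t => ?_⟩
      rw [← Finset.mem_singleton (a := y) (b := t), ← hy, mem_bd]
      constructor
      · intro h
        have := hg p t h
        exact fr_of_below (by omega) h
      · intro h
        exact (fr_below' hg h (by omega)).2

section cfD

variable {q q' : α}

/-- the attached elements of `cfD` are the nearer neighbours of the events -/
lemma cfD_att (hg : Grad α) (hD : isD i q q') {p : α} (hp : ds i p = 1)
    (ha : att i (cfD i q q') p) : bd i p = BB i q ∨ bd i p = BB i q' := by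
  obtain ⟨⟨hq, hB⟩, ⟨hq', hB'⟩, hd⟩ := hD
  rw [mem_U1] at hq hq'
  rw [att_iff hg hp] at ha
  obtain ⟨t, ht, ht0⟩ := ha
  have hdt : ds i t = 2 := by rw [fr_ds hg ht, hp]
  unfold cfD at ht0
  rw [ind_pos, mem_union, mem_union, mem_union, mem_insert, mem_singleton] at ht0
  have key : ∀ r : α, ds i r = 2 → (bd i r).card = 1 → t = r → bd i p = BB i r := by
    rintro r h1 h2 rfl
    obtain ⟨a, ha⟩ := card_eq_one.1 h2
    have h3 : p ∈ bd i t := mem_bd.2 ht
    rw [ha, mem_singleton] at h3
    unfold BB
    rw [ha, singleton_biUnion, h3]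
  rcases ht0 with ((h | h) | (h | h)) | h
  · exact Or.inl (key q hq.1 hq.2 h)
  · exact Or.inr (key q' hq'.1 hq'.2 h)
  · have := ds_of_mem_bd hg hq.1 h
    omega
  · have := ds_of_mem_bd hg hq'.1 h
    omega
  · simp at h

/-- the covered elements of `cfD` -/
lemma cfD_Yd (hg : Grad α) (hl : HasLower α i) (m : Mat α i) (hD : isD i q q') :
    Yd i (cfD i q q') = BB i q ∪ BB i q' := by
  have h0 := hD
  obtain ⟨⟨hq, hB⟩, ⟨hq', hB'⟩, hd⟩ := hD
  rw [mem_U1] at hq hq'
  have hQ : ∀ t ∈ ({q, q'} : Finset α), ds i t = 2 := by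
    intro t ht
    rw [mem_insert, mem_singleton] at ht
    rcases ht with rfl | rfl
    · exact hq.1
    · exact hq'.1
  have hA : ∀ t ∈ bd i q ∪ bd i q', ds i t = 1 := by
    intro t ht
    rw [mem_union] at ht
    rcases ht with h | h
    · exact ds_of_mem_bd hg hq.1 h
    · exact ds_of_mem_bd hg hq'.1 h
  unfold cfD
  rw [cfg_Yd hg hQ hA (by simp), sdiff_empty, union_biUnion]
  rfl

/-- **the leading coefficient of the partial sum of energy one of two events** -/
theorem lcv_cfD (hg : Grad α) (hl : HasLower α i) (m : Mat α i) (hD : isD i q q') :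
    lcv m (cfD i q q') 1 = (-1) ^ (low α i).card * (sg i q * sg i q') *
    (-3 * ((m.M.filter fun e => Disjoint (bd i e.1) (BB i q ∪ BB i q')).card : ℤ) -
      (m.M.filter fun e => (bd i e.1 ∩ (BB i q ∪ BB i q')).card = 1).card -
      ((S1 α i).filter fun p => Disjoint (bd i p) (BB i q ∪ BB i q')).card) := by
  have hd := cfD_data hg hl m hD rfl
  rw [m.mem_TT] at hd
  obtain ⟨⟨_, hred, hgood, _⟩, hsign⟩ := hd
  have hY := cfD_Yd hg hl m hD
  have hU := hD
  obtain ⟨⟨hq, hB⟩, ⟨hq', hB'⟩, hdis⟩ := hU
  rw [mem_U1] at hq hq'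
  have h0 : ∀ y, corank y = i → cfD i q q' y = 0 := by
    intro y hy
    by_contra h
    have h1 : 0 < cfD i q q' y := Nat.pos_of_ne_zero h
    have hdy := ds_eq_zero.2 hy
    unfold cfD at h1
    rw [ind_pos, mem_union, mem_union, mem_union, mem_insert, mem_singleton] at h1
    rcases h1 with ((h1 | h1) | (h1 | h1)) | h1
    · rw [h1, hq.1] at hdy
      omega
    · rw [h1, hq'.1] at hdy
      omega
    · have := ds_of_mem_bd hg hq.1 h1
      omega
    · have := ds_of_mem_bd hg hq'.1 h1
      omega
    · simp at h1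
  rw [lcv_one hg hl m hred h0 hgood, hsign, hY]
  have ds1 : ∀ e ∈ m.M, ds i e.1 = 1 := by
    intro e he
    have := m.cz e he
    unfold ds
    omega
  have ds2 : ∀ e ∈ m.M, ds i e.2 = 1 := by
    intro e he
    have := m.cx e he
    unfold ds
    omega
  have hbd : ∀ e ∈ m.M, bd i e.1 = bd i e.2 := by
    intro e he
    have c1 := m.cz e he
    have c2 := m.cx e he
    obtain ⟨y, y', _, hz, hx⟩ := m.two e he
    ext t
    rw [mem_bd, mem_bd]
    constructor
    · intro h
      have h1 := (hx t).2 ((hz t).1 (fr_above' hg h (by omega)).2)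
      have := hg e.2 t h1
      exact fr_of_below (by omega) h1
    · intro h
      have h1 := (hz t).2 ((hx t).1 (fr_below' hg h (by omega)).2)
      have := hg t e.1 h1
      exact fr_of_above (by omega) h1
  -- a pair with an attached element is covered
  have hcov : ∀ e ∈ m.M, e ∉ m.free (cfD i q q') → bd i e.1 = BB i q ∨ bd i e.1 = BB i q' := by
    intro e he hne
    unfold Mat.free at hne
    rw [mem_filter] at hne
    by_cases a1 : att i (cfD i q q') e.1
    · exact cfD_att hg hD (ds1 e he) a1
    · have a2 : att i (cfD i q q') e.2 := by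
        by_contra a2
        exact hne ⟨he, a1, a2⟩
      rw [hbd e he]
      exact cfD_att hg hD (ds2 e he) a2
  have hsub : ∀ e ∈ m.M, e ∉ m.free (cfD i q q') →
      (bd i e.1 ∩ (BB i q ∪ BB i q')).card = 2 := by
    intro e he hne
    rcases hcov e he hne with h | h
    · rw [h, inter_eq_left.2 subset_union_left, hB]
    · rw [h, inter_eq_left.2 subset_union_right, hB']
  have f1 : (m.free (cfD i q q')).filter (fun e => Disjoint (bd i e.1) (BB i q ∪ BB i q')) =
      m.M.filter fun e => Disjoint (bd i e.1) (BB i q ∪ BB i q') := by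
    ext e
    rw [mem_filter, mem_filter]
    constructor
    · rintro ⟨h1, h2⟩
      exact ⟨(mem_filter.1 h1).1, h2⟩
    · rintro ⟨h1, h2⟩
      refine ⟨?_, h2⟩
      by_contra h3
      have h4 := hsub e h1 h3
      rw [Finset.disjoint_iff_inter_eq_empty.1 h2] at h4
      simp at h4
  have f2 : (m.free (cfD i q q')).filter (fun e => (bd i e.1 ∩ (BB i q ∪ BB i q')).card = 1) =
      m.M.filter fun e => (bd i e.1 ∩ (BB i q ∪ BB i q')).card = 1 := by
    ext e
    rw [mem_filter, mem_filter]
    constructor
    · rintro ⟨h1, h2⟩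
      exact ⟨(mem_filter.1 h1).1, h2⟩
    · rintro ⟨h1, h2⟩
      refine ⟨?_, h2⟩
      by_contra h3
      have h4 := hsub e h1 h3
      omega
  have f3 : sgl i (cfD i q q') = S1 α i := by
    ext p
    unfold sgl
    rw [mem_filter, sgl_iff hg]
    constructor
    · rintro ⟨_, h1, _⟩
      exact h1
    · intro h1
      refine ⟨mem_univ _, h1, fun h2 => ?_⟩
      rw [mem_S1] at h1
      rcases cfD_att hg hD h1.1 h2 with h3 | h3
      · rw [h3, hB] at h1
        omega
      · rw [h3, hB'] at h1
        omega
  rw [f1, f2, f3]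

end cfD

end Pool.Gauss
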