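import Pool.Agent.Work.MP_065141_co.K.ProdA

/-!
# The second order relation in terms of objects

Chains `s ∈ C`: the actual factor is `F s + g s` with `Ev (F s) = 1` and `w ∣ g s`.
Items `j ∈ J`: the actual factor is `1 + r j`, `w ∣ r j`.
Frames `f ∈ Φ`: terms of order `w`, with polynomial `P f` (which contains the modified factors of the
removed chains `R f`) and with items `r' f j` (equal to `r j` for the items which are not near).
-/

set_option autoImplicit false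
set_option linter.unusedSectionVars false
open scoped Classical
open Finset MvPolynomial

namespace Pool.Gauss

variable {A : Type} [CommRing A] {Y σ ι φ : Type}

/-! ### products with perturbed factors -/

section pert

variable {B : Type} [CommRing B] (w : B)

lemma erase_eq_sdiff' (C : Finset σ) (s : σ) : C.erase s = C \ {s} := by
  ext t
  rw [mem_erase, mem_sdiff, mem_singleton]
  tauto

lemma erase_erase_eq_sdiff (C : Finset σ) (s t : σ) : (C.erase s).erase t = C \ {s, t} := by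
  ext u
  simp only [mem_erase, mem_sdiff, mem_singleton, mem_insert, not_or]
  tauto

/-- a product of perturbed factors, modulo second order -/
lemma prod_add_dvd (C : Finset σ) (F g : σ → B) (hg : ∀ s ∈ C, w ∣ g s) :
    w ^ 2 ∣ ∏ s ∈ C, (F s + g s) -
      (∏ s ∈ C, F s + ∑ s ∈ C, (∏ t ∈ C \ {s}, F t) * g s) := by
  induction C using Finset.induction_on with
  | empty => simp
  | insert a C ha ih =>
    obtain ⟨q, hq⟩ := ih (fun s hs => hg s (mem_insert_of_mem hs))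
    have e1 : ∑ s ∈ insert a C, (∏ t ∈ insert a C \ {s}, F t) * g s =
        (∏ t ∈ C, F t) * g a + F a * ∑ s ∈ C, (∏ t ∈ C \ {s}, F t) * g s := by
      rw [sum_insert ha, ← erase_eq_sdiff', erase_insert ha, mul_sum]
      congr 1
      apply sum_congr rfl
      intro s hs
      have hsa : s ≠ a := by rintro rfl; exact ha hs
      rw [← erase_eq_sdiff', erase_insert_of_ne hsa.symm,
        prod_insert (fun h => ha (mem_of_mem_erase h)), erase_eq_sdiff']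
      ring
    obtain ⟨c, hc⟩ := hg a (mem_insert_self a C)
    obtain ⟨d, hd⟩ : w ∣ ∑ s ∈ C, (∏ t ∈ C \ {s}, F t) * g s :=
      dvd_sum fun s hs => (hg s (mem_insert_of_mem hs)).mul_left _
    rw [e1, prod_insert ha, prod_insert ha]
    have h2 : ∏ s ∈ C, (F s + g s) = (∏ s ∈ C, F s + ∑ s ∈ C, (∏ t ∈ C \ {s}, F t) * g s) +
        w ^ 2 * q := by
      rw [← hq]
      ring
    refine ⟨(F a + g a) * q + c * d, ?_⟩
    rw [h2, hd, hc]
    ring

/-- twice a product of perturbed factors, modulo third order -/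
lemma two_mul_prod_pert (C : Finset σ) (F g : σ → B)
    (J : Finset ι) (r : ι → B) (hg : ∀ s ∈ C, w ∣ g s) (hr : ∀ j ∈ J, w ∣ r j) :
    w ^ 3 ∣ 2 * ((∏ s ∈ C, (F s + g s)) * ∏ j ∈ J, (1 + r j)) -
      (2 * (∏ s ∈ C, F s) + 2 * ∑ j ∈ J, (∏ s ∈ C, F s) * r j +
        2 * ∑ s ∈ C, (∏ t ∈ C \ {s}, F t) * g s +
        ∑ p ∈ J.offDiag, (∏ s ∈ C, F s) * (r p.1 * r p.2) +
        2 * ∑ s ∈ C, ∑ j ∈ J, (∏ t ∈ C \ {s}, F t) * (g s * r j) +
        ∑ p ∈ C.offDiag, (∏ t ∈ C \ {p.1, p.2}, F t) * (g p.1 * g p.2)) := by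
  obtain ⟨a, ha⟩ := two_mul_prod w J r hr
  obtain ⟨a1, ha1⟩ := prod_one_add_dvd w J r hr
  obtain ⟨b, hb⟩ := two_mul_prod_add w C F g hg
  have hs := sum_sq_sub J r
  obtain ⟨x, hx⟩ : w ∣ ∑ j ∈ J, r j := dvd_sum hr
  obtain ⟨c, hc⟩ : w ∣ ∑ s ∈ C, (∏ t ∈ C \ {s}, F t) * g s :=
    dvd_sum fun s hs => (hg s hs).mul_left _
  obtain ⟨d, hd⟩ : w ^ 2 ∣ ∑ p ∈ C.offDiag, (∏ t ∈ C \ {p.1, p.2}, F t) * (g p.1 * g p.2) := by
    apply dvd_sum
    intro p hp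
    rw [mem_offDiag] at hp
    apply Dvd.dvd.mul_left
    rw [pow_two]
    exact mul_dvd_mul (hg _ hp.1) (hg _ hp.2.1)
  have e1 : ∑ s ∈ C, (∏ t ∈ C.erase s, F t) * g s = ∑ s ∈ C, (∏ t ∈ C \ {s}, F t) * g s :=
    sum_congr rfl fun s _ => by rw [erase_eq_sdiff']
  have e2 : ∑ p ∈ C.offDiag, (∏ t ∈ (C.erase p.1).erase p.2, F t) * (g p.1 * g p.2) =
      ∑ p ∈ C.offDiag, (∏ t ∈ C \ {p.1, p.2}, F t) * (g p.1 * g p.2) :=
    sum_congr rfl fun p _ => by rw [erase_erase_eq_sdiff]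
  rw [e1, e2] at hb
  have e3 : ∑ j ∈ J, (∏ s ∈ C, F s) * r j = (∏ s ∈ C, F s) * ∑ j ∈ J, r j := by rw [mul_sum]
  have e4 : ∑ p ∈ J.offDiag, (∏ s ∈ C, F s) * (r p.1 * r p.2) =
      (∏ s ∈ C, F s) * ∑ p ∈ J.offDiag, r p.1 * r p.2 := by rw [mul_sum]
  have e5 : ∑ s ∈ C, ∑ j ∈ J, (∏ t ∈ C \ {s}, F t) * (g s * r j) =
      (∑ s ∈ C, (∏ t ∈ C \ {s}, F t) * g s) * ∑ j ∈ J, r j := by
    rw [sum_mul_sum]
    apply sum_congr rfl
    intro s _
    apply sum_congr rfl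
    intro j _
    ring
  rw [e3, e4, e5, ← hs]
  have h1 : 2 * ∏ s ∈ C, (F s + g s) = 2 * ∏ s ∈ C, F s +
      2 * ∑ s ∈ C, (∏ t ∈ C \ {s}, F t) * g s +
      ∑ p ∈ C.offDiag, (∏ t ∈ C \ {p.1, p.2}, F t) * (g p.1 * g p.2) + w ^ 3 * b := by
    rw [← hb]
    ring
  have h2 : 2 * ∏ j ∈ J, (1 + r j) = 2 + 2 * ∑ j ∈ J, r j + (∑ j ∈ J, r j) ^ 2 -
      ∑ j ∈ J, r j ^ 2 + w ^ 3 * a := by
    rw [← ha]
    ring
  have h3 : ∏ j ∈ J, (1 + r j) = 1 + ∑ j ∈ J, r j + w ^ 2 * a1 := by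
    rw [← ha1]
    ring
  obtain ⟨P, hP⟩ : ∃ P, P = ∏ j ∈ J, (1 + r j) := ⟨_, rfl⟩
  obtain ⟨P0, hP0⟩ : ∃ P0, P0 = ∏ s ∈ C, F s := ⟨_, rfl⟩
  rw [← hP] at h2 h3 ⊢
  rw [← hP0] at h1 ⊢
  have h4 : 2 * ((∏ s ∈ C, (F s + g s)) * P) = (2 * ∏ s ∈ C, (F s + g s)) * P := by ring
  rw [h4, h1]
  -- `2 P0 P + 2 P1 P + P2 P`
  refine ⟨b * P + P0 * a + 2 * c * a1 + d * (x + w * a1), ?_⟩
  have h5 : P0 * (2 * P) = P0 * (2 + 2 * ∑ j ∈ J, r j + (∑ j ∈ J, r j) ^ 2 -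
      ∑ j ∈ J, r j ^ 2 + w ^ 3 * a) := by rw [h2]
  have h6 : 2 * (∑ s ∈ C, (∏ t ∈ C \ {s}, F t) * g s) * P =
      2 * (∑ s ∈ C, (∏ t ∈ C \ {s}, F t) * g s) * (1 + ∑ j ∈ J, r j + w ^ 2 * a1) := by rw [h3]
  have h7 : (∑ p ∈ C.offDiag, (∏ t ∈ C \ {p.1, p.2}, F t) * (g p.1 * g p.2)) * P =
      (∑ p ∈ C.offDiag, (∏ t ∈ C \ {p.1, p.2}, F t) * (g p.1 * g p.2)) *
        (1 + ∑ j ∈ J, r j + w ^ 2 * a1) := by rw [h3]
  have h8 : (2 * P0 + 2 * ∑ s ∈ C, (∏ t ∈ C \ {s}, F t) * g s +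
      ∑ p ∈ C.offDiag, (∏ t ∈ C \ {p.1, p.2}, F t) * (g p.1 * g p.2) + w ^ 3 * b) * P =
      P0 * (2 * P) + 2 * (∑ s ∈ C, (∏ t ∈ C \ {s}, F t) * g s) * P +
      (∑ p ∈ C.offDiag, (∏ t ∈ C \ {p.1, p.2}, F t) * (g p.1 * g p.2)) * P +
      w ^ 3 * (b * P) := by ring
  rw [h8, h5, h6, h7, hd, hc, hx]
  ring

end pert

/-! ### the functional of the perturbed products -/

section functional

variable (w : A) {C : Finset σ} {F g : σ → MvPolynomial Y A} {T : σ → Finset Y}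

/-- the part without frames -/
lemma ev_pert (hF : ∀ s ∈ C, F s ∈ supported A (T s : Set Y))
    (hT : ∀ s ∈ C, ∀ t ∈ C, s ≠ t → Disjoint (T s) (T t)) (h1 : ∀ s ∈ C, Ev w (F s) = 1)
    (hg : ∀ s ∈ C, MvPolynomial.C w ∣ g s) {J : Finset ι} {r : ι → MvPolynomial Y A}
    (hr : ∀ j ∈ J, MvPolynomial.C w ∣ r j) :
    w ^ 3 ∣ 2 * Ev w ((∏ s ∈ C, (F s + g s)) * ∏ j ∈ J, (1 + r j)) -
      (2 + 2 * ∑ j ∈ J, kob w C F ∅ (r j) + 2 * ∑ s ∈ C, kob w C F {s} (g s) +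
        ∑ p ∈ J.offDiag, kob w C F ∅ (r p.1 * r p.2) +
        2 * ∑ s ∈ C, ∑ j ∈ J, kob w C F {s} (g s * r j) +
        ∑ p ∈ C.offDiag, kob w C F {p.1, p.2} (g p.1 * g p.2)) := by
  obtain ⟨q, hq⟩ := two_mul_prod_pert (MvPolynomial.C w : MvPolynomial Y A) C F g J r hg hr
  refine ⟨Ev w q, ?_⟩
  have h2 := congrArg (Ev w) hq
  have e2 : ∀ P : MvPolynomial Y A, Ev w (2 * P) = 2 * Ev w P := by
    intro P
    rw [show (2 : MvPolynomial Y A) = MvPolynomial.C 2 by rw [map_ofNat], Ev_C_mul]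
  have hs : ∀ {κ : Type} (t : Finset κ) (f : κ → MvPolynomial Y A),
      Ev w (∑ x ∈ t, f x) = ∑ x ∈ t, Ev w (f x) := fun t f => map_sum _ _ _
  rw [map_sub, ← map_pow, Ev_C_mul, map_add, map_add, map_add, map_add, map_add, e2, e2, e2, e2,
    e2, hs, hs, hs, hs, hs, Ev_prod_eq_one w hF hT h1] at h2
  have h3 : ∑ s ∈ C, Ev w (∑ j ∈ J, (∏ t ∈ C \ {s}, F t) * (g s * r j)) =
      ∑ s ∈ C, ∑ j ∈ J, kob w C F {s} (g s * r j) := by
    apply sum_congr rfl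
    intro s _
    rw [hs]
    rfl
  rw [h3] at h2
  have h4 : ∀ x : MvPolynomial Y A, kob w C F ∅ x = Ev w ((∏ s ∈ C, F s) * x) := by
    intro x
    rw [kob, sdiff_empty]
  simp only [h4]
  rw [← h2]
  simp only [kob]
  ring

/-- a frame -/
lemma ev_frame {R : Finset σ} {P : MvPolynomial Y A} (hP : MvPolynomial.C w ∣ P)
    (hg : ∀ s ∈ C, MvPolynomial.C w ∣ g s) {J : Finset ι} {r' : ι → MvPolynomial Y A}
    (hr : ∀ j ∈ J, MvPolynomial.C w ∣ r' j) :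
    w ^ 3 ∣ Ev w (P * ((∏ s ∈ C \ R, (F s + g s)) * ∏ j ∈ J, (1 + r' j))) -
      (kob w C F R P + ∑ j ∈ J, kob w C F R (P * r' j) +
        ∑ s ∈ C \ R, kob w C F (R ∪ {s}) (P * g s)) := by
  obtain ⟨a, ha⟩ := prod_one_add_dvd (MvPolynomial.C w : MvPolynomial Y A) J r' hr
  obtain ⟨b, hb⟩ := prod_add_dvd (MvPolynomial.C w : MvPolynomial Y A) (C \ R) F g
    (fun s hs => hg s (mem_sdiff.1 hs).1)
  obtain ⟨c, hc⟩ := hP
  obtain ⟨x, hx⟩ : MvPolynomial.C w ∣ ∑ j ∈ J, r' j := dvd_sum hr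
  obtain ⟨y, hy⟩ : MvPolynomial.C w ∣
      ∑ s ∈ C \ R, (∏ t ∈ (C \ R) \ {s}, F t) * g s :=
    dvd_sum fun s hs => (hg s (mem_sdiff.1 hs).1).mul_left _
  have h1 : ∏ j ∈ J, (1 + r' j) = 1 + ∑ j ∈ J, r' j + MvPolynomial.C w ^ 2 * a := by
    rw [← ha]
    ring
  have h2 : ∏ s ∈ C \ R, (F s + g s) = ∏ s ∈ C \ R, F s +
      ∑ s ∈ C \ R, (∏ t ∈ (C \ R) \ {s}, F t) * g s + MvPolynomial.C w ^ 2 * b := by
    rw [← hb]
    ring
  have h3 : P * ((∏ s ∈ C \ R, (F s + g s)) * ∏ j ∈ J, (1 + r' j)) =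
      (∏ s ∈ C \ R, F s) * P + ∑ j ∈ J, (∏ s ∈ C \ R, F s) * (P * r' j) +
        ∑ s ∈ C \ R, (∏ t ∈ (C \ R) \ {s}, F t) * (P * g s) +
        MvPolynomial.C (w ^ 3) * (c * ((∏ s ∈ C \ R, F s) * a + x * y +
          MvPolynomial.C w * y * a + b * ∏ j ∈ J, (1 + r' j))) := by
    have e1 : ∑ j ∈ J, (∏ s ∈ C \ R, F s) * (P * r' j) =
        (∏ s ∈ C \ R, F s) * P * ∑ j ∈ J, r' j := by
      rw [mul_sum]
      apply sum_congr rfl
      intro j _
      ring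
    have e2 : ∑ s ∈ C \ R, (∏ t ∈ (C \ R) \ {s}, F t) * (P * g s) =
        P * ∑ s ∈ C \ R, (∏ t ∈ (C \ R) \ {s}, F t) * g s := by
      rw [mul_sum]
      apply sum_congr rfl
      intro j _
      ring
    rw [e1, e2, map_pow, h2, hy, hc]
    obtain ⟨Q, hQ⟩ : ∃ Q, Q = ∏ j ∈ J, (1 + r' j) := ⟨_, rfl⟩
    rw [← hQ] at h1 ⊢
    have e3 : MvPolynomial.C w * c * ((∏ s ∈ C \ R, F s + MvPolynomial.C w * y +
        MvPolynomial.C w ^ 2 * b) * Q) = MvPolynomial.C w * c * ((∏ s ∈ C \ R, F s +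
        MvPolynomial.C w * y) * Q) + MvPolynomial.C w ^ 3 * (c * (b * Q)) := by ring
    rw [e3, h1, hx]
    ring
  rw [h3, map_add, map_add, map_add, map_sum, map_sum, Ev_C_mul]
  have h4 : ∀ s ∈ C \ R, Ev w ((∏ t ∈ (C \ R) \ {s}, F t) * (P * g s)) =
      kob w C F (R ∪ {s}) (P * g s) := by
    intro s _
    rw [kob, sdiff_sdiff_left]
    rfl
  rw [sum_congr rfl h4]
  refine ⟨Ev w (c * ((∏ s ∈ C \ R, F s) * a + x * y +
          MvPolynomial.C w * y * a + b * ∏ j ∈ J, (1 + r' j))), ?_⟩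
  simp only [kob]
  ring

/-! ### independence of far objects -/

lemma clo_T (hT : ∀ s ∈ C, ∀ t ∈ C, s ≠ t → Disjoint (T s) (T t)) {s : σ} (hs : s ∈ C) :
    clo C T (T s) = T s := by
  ext y
  rw [clo, mem_union, mem_biUnion]
  constructor
  · rintro (h | ⟨t, ht, h⟩)
    · exact h
    · rw [tch, mem_filter] at ht
      by_cases e : t = s
      · rwa [e] at h
      · exact absurd (hT t ht.1 s hs e) ht.2
  · exact Or.inl

lemma disj_clo (hT : ∀ s ∈ C, ∀ t ∈ C, s ≠ t → Disjoint (T s) (T t)) {s : σ} (hs : s ∈ C)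
    {U : Finset Y} (h : s ∉ tch C T U) : Disjoint (clo C T U) (clo C T (T s)) := by
  rw [clo_T hT hs, clo, disjoint_union_left, disjoint_biUnion_left]
  constructor
  · rw [tch, mem_filter, not_and, not_not] at h
    exact (h hs).symm
  · intro t ht
    exact hT t (mem_filter.1 ht).1 s hs (by rintro rfl; exact h ht)

/-- THE LOGARITHMIC FORM modulo third order -/
theorem mform_log (hF : ∀ s ∈ C, F s ∈ supported A (T s : Set Y))
    (hT : ∀ s ∈ C, ∀ t ∈ C, s ≠ t → Disjoint (T s) (T t)) (h1 : ∀ s ∈ C, Ev w (F s) = 1)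
    (hne : ∀ s ∈ C, (T s).Nonempty)
    (hg : ∀ s ∈ C, MvPolynomial.C w ∣ g s) (hgT : ∀ s ∈ C, g s ∈ supported A (T s : Set Y))
    {J : Finset ι} {r : ι → MvPolynomial Y A} {U : ι → Finset Y}
    (hr : ∀ j ∈ J, MvPolynomial.C w ∣ r j) (hrU : ∀ j ∈ J, r j ∈ supported A (U j : Set Y))
    {Φ : Finset φ} {P : φ → MvPolynomial Y A} {V : φ → Finset Y} {R : φ → Finset σ}
    {r' : φ → ι → MvPolynomial Y A} {N : φ → Finset ι}
    (hP : ∀ f ∈ Φ, MvPolynomial.C w ∣ P f) (hPV : ∀ f ∈ Φ, P f ∈ supported A (V f : Set Y))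
    (hR : ∀ f ∈ Φ, R f ⊆ tch C T (V f)) (hr' : ∀ f ∈ Φ, ∀ j ∈ J, MvPolynomial.C w ∣ r' f j)
    (hN : ∀ f ∈ Φ, N f ⊆ J) (hfar : ∀ f ∈ Φ, ∀ j ∈ J, j ∉ N f → r' f j = r j ∧
      Disjoint (clo C T (V f)) (clo C T (U j)))
    {K2 : φ → φ → A} {nearF : φ → φ → Prop}
    (hK2 : ∀ p ∈ Φ.offDiag, ¬ nearF p.1 p.2 → w ^ 3 ∣ K2 p.1 p.2 -
      kob w C F (R p.1) (P p.1) * kob w C F (R p.2) (P p.2))
    {K X : A}
    (hK : w ^ 3 ∣ 2 * K - (2 * Ev w ((∏ s ∈ C, (F s + g s)) * ∏ j ∈ J, (1 + r j)) +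
      2 * ∑ f ∈ Φ, Ev w (P f * ((∏ s ∈ C \ R f, (F s + g s)) * ∏ j ∈ J, (1 + r' f j))) +
      ∑ p ∈ Φ.offDiag, K2 p.1 p.2 + 2 * X)) :
    w ^ 3 ∣ 2 * K - (2 + 2 * (∑ j ∈ J, kob w C F ∅ (r j) + ∑ s ∈ C, kob w C F {s} (g s) +
        ∑ f ∈ Φ, kob w C F (R f) (P f)) +
      (∑ j ∈ J, kob w C F ∅ (r j) + ∑ s ∈ C, kob w C F {s} (g s) +
        ∑ f ∈ Φ, kob w C F (R f) (P f)) ^ 2 -
      (∑ j ∈ J, kob w C F ∅ (r j) ^ 2 + ∑ s ∈ C, kob w C F {s} (g s) ^ 2 +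
        ∑ f ∈ Φ, kob w C F (R f) (P f) ^ 2) +
      (∑ p ∈ J.offDiag.filter (fun p => ¬ Disjoint (clo C T (U p.1)) (clo C T (U p.2))),
          (kob w C F ∅ (r p.1 * r p.2) - kob w C F ∅ (r p.1) * kob w C F ∅ (r p.2)) +
        2 * ∑ s ∈ C, ∑ j ∈ J.filter (fun j => ¬ Disjoint (T s) (U j)),
          (kob w C F {s} (g s * r j) - kob w C F {s} (g s) * kob w C F ∅ (r j)) +
        2 * ∑ f ∈ Φ, ∑ j ∈ N f,
          (kob w C F (R f) (P f * r' f j) - kob w C F (R f) (P f) * kob w C F ∅ (r j)) +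
        2 * ∑ f ∈ Φ, ∑ s ∈ tch C T (V f),
          ((if s ∈ R f then 0 else kob w C F (R f ∪ {s}) (P f * g s)) -
            kob w C F (R f) (P f) * kob w C F {s} (g s)) +
        ∑ p ∈ Φ.offDiag.filter (fun p => nearF p.1 p.2),
          (K2 p.1 p.2 - kob w C F (R p.1) (P p.1) * kob w C F (R p.2) (P p.2)) +
        2 * X)) := by
  obtain ⟨a, ha⟩ := hK
  obtain ⟨b, hb⟩ := ev_pert w hF hT h1 hg hr
  have hfr : ∀ f ∈ Φ, w ^ 3 ∣ Ev w (P f * ((∏ s ∈ C \ R f, (F s + g s)) *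
      ∏ j ∈ J, (1 + r' f j))) - (kob w C F (R f) (P f) + ∑ j ∈ J, kob w C F (R f) (P f * r' f j) +
        ∑ s ∈ C \ R f, kob w C F (R f ∪ {s}) (P f * g s)) :=
    fun f hf => ev_frame w (hP f hf) hg (hr' f hf)
  obtain ⟨c, hc⟩ : w ^ 3 ∣ ∑ f ∈ Φ, Ev w (P f * ((∏ s ∈ C \ R f, (F s + g s)) *
      ∏ j ∈ J, (1 + r' f j))) - ∑ f ∈ Φ, (kob w C F (R f) (P f) +
        ∑ j ∈ J, kob w C F (R f) (P f * r' f j) +
        ∑ s ∈ C \ R f, kob w C F (R f ∪ {s}) (P f * g s)) := by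
    rw [← sum_sub_distrib]
    exact dvd_sum hfr
  -- far pairs
  have hJJ : ∑ p ∈ J.offDiag, kob w C F ∅ (r p.1 * r p.2) =
      (∑ j ∈ J, kob w C F ∅ (r j)) ^ 2 - ∑ j ∈ J, kob w C F ∅ (r j) ^ 2 +
      ∑ p ∈ J.offDiag.filter (fun p => ¬ Disjoint (clo C T (U p.1)) (clo C T (U p.2))),
        (kob w C F ∅ (r p.1 * r p.2) - kob w C F ∅ (r p.1) * kob w C F ∅ (r p.2)) := by
    rw [sum_sq_sub, sum_filter, ← sum_add_distrib]
    apply sum_congr rfl
    intro p hp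
    rw [mem_offDiag] at hp
    by_cases hd : Disjoint (clo C T (U p.1)) (clo C T (U p.2))
    · rw [if_neg (not_not.2 hd)]
      have := kob_mul w hF hT h1 (hrU p.1 hp.1) (hrU p.2 hp.2.1) (R := ∅) (R' := ∅)
        (empty_subset _) (empty_subset _) hd
      rw [empty_union] at this
      rw [this, add_zero]
    · rw [if_pos hd]
      ring
  have hCC : ∑ p ∈ C.offDiag, kob w C F {p.1, p.2} (g p.1 * g p.2) =
      (∑ s ∈ C, kob w C F {s} (g s)) ^ 2 - ∑ s ∈ C, kob w C F {s} (g s) ^ 2 := by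
    rw [sum_sq_sub]
    apply sum_congr rfl
    intro p hp
    rw [mem_offDiag] at hp
    have hself : ∀ s ∈ C, ({s} : Finset σ) ⊆ tch C T (T s) := by
      intro s hs
      rw [singleton_subset_iff, tch, mem_filter]
      refine ⟨hs, ?_⟩
      rw [disjoint_self_iff_empty]
      exact (hne s hs).ne_empty
    have h2 : p.1 ∉ tch C T (T p.2) := by
      rw [tch, mem_filter, not_and, not_not]
      exact fun h => hT p.1 h p.2 hp.2.1 hp.2.2
    have := kob_mul w hF hT h1 (hgT p.1 hp.1) (hgT p.2 hp.2.1) (hself p.1 hp.1)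
      (hself p.2 hp.2.1) (disj_clo hT hp.1 h2).symm
    rw [← this]
    rfl
  have hself : ∀ s ∈ C, ({s} : Finset σ) ⊆ tch C T (T s) := by
    intro s hs
    rw [singleton_subset_iff, tch, mem_filter]
    refine ⟨hs, ?_⟩
    rw [disjoint_self_iff_empty]
    exact (hne s hs).ne_empty
  have hSJ : ∑ s ∈ C, ∑ j ∈ J, kob w C F {s} (g s * r j) =
      (∑ s ∈ C, kob w C F {s} (g s)) * (∑ j ∈ J, kob w C F ∅ (r j)) +
      ∑ s ∈ C, ∑ j ∈ J.filter (fun j => ¬ Disjoint (T s) (U j)),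
          (kob w C F {s} (g s * r j) - kob w C F {s} (g s) * kob w C F ∅ (r j)) := by
    rw [sum_mul_sum, ← sum_add_distrib]
    apply sum_congr rfl
    intro s hs
    rw [sum_filter, ← sum_add_distrib]
    apply sum_congr rfl
    intro j hj
    by_cases hd : Disjoint (T s) (U j)
    · rw [if_neg (not_not.2 hd)]
      have h2 : s ∉ tch C T (U j) := by
        rw [tch, mem_filter, not_and, not_not]
        exact fun _ => hd
      have := kob_mul w hF hT h1 (hgT s hs) (hrU j hj) (hself s hs) (empty_subset _)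
        (disj_clo hT hs h2).symm
      rw [union_empty] at this
      rw [this, add_zero]
    · rw [if_pos hd]
      ring
  have hFJ : ∑ f ∈ Φ, ∑ j ∈ J, kob w C F (R f) (P f * r' f j) =
      (∑ f ∈ Φ, kob w C F (R f) (P f)) * (∑ j ∈ J, kob w C F ∅ (r j)) +
      ∑ f ∈ Φ, ∑ j ∈ N f,
          (kob w C F (R f) (P f * r' f j) - kob w C F (R f) (P f) * kob w C F ∅ (r j)) := by
    rw [sum_mul_sum, ← sum_add_distrib]
    apply sum_congr rfl
    intro f hf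
    rw [← sum_sdiff (hN f hf) (f := fun j => kob w C F (R f) (P f * r' f j)),
      ← sum_sdiff (hN f hf) (f := fun j => kob w C F (R f) (P f) * kob w C F ∅ (r j)),
      sum_sub_distrib]
    have : ∑ j ∈ J \ N f, kob w C F (R f) (P f * r' f j) =
        ∑ j ∈ J \ N f, kob w C F (R f) (P f) * kob w C F ∅ (r j) := by
      apply sum_congr rfl
      intro j hj
      rw [mem_sdiff] at hj
      obtain ⟨e1, e2⟩ := hfar f hf j hj.1 hj.2
      have := kob_mul w hF hT h1 (hPV f hf) (hrU j hj.1) (hR f hf) (empty_subset _) e2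
      rw [union_empty] at this
      rw [e1, this]
    rw [this]
    ring
  have hFS : ∑ f ∈ Φ, ∑ s ∈ C \ R f, kob w C F (R f ∪ {s}) (P f * g s) =
      (∑ f ∈ Φ, kob w C F (R f) (P f)) * (∑ s ∈ C, kob w C F {s} (g s)) +
      ∑ f ∈ Φ, ∑ s ∈ tch C T (V f),
          ((if s ∈ R f then 0 else kob w C F (R f ∪ {s}) (P f * g s)) -
            kob w C F (R f) (P f) * kob w C F {s} (g s)) := by
    rw [sum_mul_sum, ← sum_add_distrib]
    apply sum_congr rfl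
    intro f hf
    have htC : tch C T (V f) ⊆ C := filter_subset _ _
    have e1 : ∑ s ∈ C \ R f, kob w C F (R f ∪ {s}) (P f * g s) =
        ∑ s ∈ C, (if s ∈ R f then 0 else kob w C F (R f ∪ {s}) (P f * g s)) := by
      rw [← sum_filter_add_sum_filter_not C (fun s => s ∈ R f)]
      have g1 : ∑ s ∈ C.filter (fun s => s ∈ R f),
          (if s ∈ R f then 0 else kob w C F (R f ∪ {s}) (P f * g s)) = 0 :=
        sum_eq_zero fun s hs => if_pos (mem_filter.1 hs).2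
      have g2 : C.filter (fun s => ¬ s ∈ R f) = C \ R f := by
        ext s
        rw [mem_filter, mem_sdiff]
      rw [g1, zero_add, g2]
      exact sum_congr rfl fun s hs => by rw [if_neg (mem_sdiff.1 hs).2]
    rw [e1, ← sum_sdiff htC, ← sum_sdiff htC (f := fun s =>
      kob w C F (R f) (P f) * kob w C F {s} (g s)), sum_sub_distrib]
    have : ∑ s ∈ C \ tch C T (V f), (if s ∈ R f then 0 else kob w C F (R f ∪ {s}) (P f * g s)) =
        ∑ s ∈ C \ tch C T (V f), kob w C F (R f) (P f) * kob w C F {s} (g s) := by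
      apply sum_congr rfl
      intro s hs
      rw [mem_sdiff] at hs
      have g3 : s ∉ R f := fun h => hs.2 (hR f hf h)
      rw [if_neg g3, kob_mul w hF hT h1 (hPV f hf) (hgT s hs.1) (hR f hf) (hself s hs.1)
        (disj_clo hT hs.1 hs.2)]
    rw [this]
    ring
  obtain ⟨d, hd⟩ : w ^ 3 ∣ ∑ p ∈ Φ.offDiag, K2 p.1 p.2 -
      (∑ p ∈ Φ.offDiag, kob w C F (R p.1) (P p.1) * kob w C F (R p.2) (P p.2) +
        ∑ p ∈ Φ.offDiag.filter (fun p => nearF p.1 p.2),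
          (K2 p.1 p.2 - kob w C F (R p.1) (P p.1) * kob w C F (R p.2) (P p.2))) := by
    rw [sum_filter, ← sum_add_distrib, ← sum_sub_distrib]
    apply dvd_sum
    intro p hp
    by_cases h : nearF p.1 p.2
    · rw [if_pos h]
      simp
    · rw [if_neg h, add_zero]
      exact hK2 p hp h
  have hΦ : (∑ f ∈ Φ, kob w C F (R f) (P f)) ^ 2 - ∑ f ∈ Φ, kob w C F (R f) (P f) ^ 2 =
      ∑ p ∈ Φ.offDiag, kob w C F (R p.1) (P p.1) * kob w C F (R p.2) (P p.2) :=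
    sum_sq_sub Φ (fun f => kob w C F (R f) (P f))
  rw [← hΦ] at hd
  rw [sum_add_distrib, sum_add_distrib, hFJ, hFS] at hc
  rw [hJJ, hCC, hSJ] at hb
  refine ⟨a + b + 2 * c + d, ?_⟩
  linear_combination ha + hb + 2 * hc + hd

end functional

/-! ### extraction of the coefficients -/

section coefficients

open Polynomial

/-- coefficient of `w` -/
noncomputable def c1 (f : PowerSeries ℤ[X]) : ℤ[X] := PowerSeries.coeff 1 f

/-- coefficient of `w ^ 2` -/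
noncomputable def c2 (f : PowerSeries ℤ[X]) : ℤ[X] := PowerSeries.coeff 2 f

/-- second order value of an object -/
noncomputable def v2 (f : PowerSeries ℤ[X]) : ℤ[X] := 2 * c2 f - c1 f ^ 2

lemma c1_add (f g : PowerSeries ℤ[X]) : c1 (f + g) = c1 f + c1 g := map_add _ _ _
lemma c2_add (f g : PowerSeries ℤ[X]) : c2 (f + g) = c2 f + c2 g := map_add _ _ _
lemma c1_sub (f g : PowerSeries ℤ[X]) : c1 (f - g) = c1 f - c1 g := map_sub _ _ _
lemma c2_sub (f g : PowerSeries ℤ[X]) : c2 (f - g) = c2 f - c2 g := map_sub _ _ _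
lemma c1_zero : c1 0 = 0 := map_zero _
lemma c2_zero : c2 0 = 0 := map_zero _
lemma c1_sum {κ : Type} (t : Finset κ) (f : κ → PowerSeries ℤ[X]) :
    c1 (∑ x ∈ t, f x) = ∑ x ∈ t, c1 (f x) := map_sum _ _ _
lemma c2_sum {κ : Type} (t : Finset κ) (f : κ → PowerSeries ℤ[X]) :
    c2 (∑ x ∈ t, f x) = ∑ x ∈ t, c2 (f x) := map_sum _ _ _

lemma c2_two_mul (f : PowerSeries ℤ[X]) : c2 (2 * f) = 2 * c2 f := by
  rw [two_mul, two_mul, c2_add]

lemma c1_mul_X (f : PowerSeries ℤ[X]) : c1 (PowerSeries.X * f) = PowerSeries.coeff 0 f :=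
  PowerSeries.coeff_succ_X_mul 0 f

lemma c2_mul_X_sq (f : PowerSeries ℤ[X]) : c2 (PowerSeries.X ^ 2 * f) = PowerSeries.coeff 0 f := by
  rw [c2, PowerSeries.coeff_X_pow_mul' f 2 2, if_pos le_rfl]

/-- a product of two elements divisible by `w` -/
lemma c2_mul {f g : PowerSeries ℤ[X]} (hf : (PowerSeries.X : PowerSeries ℤ[X]) ∣ f)
    (hg : (PowerSeries.X : PowerSeries ℤ[X]) ∣ g) : c2 (f * g) = c1 f * c1 g := by
  obtain ⟨a, rfl⟩ := hf
  obtain ⟨b, rfl⟩ := hg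
  rw [show PowerSeries.X * a * (PowerSeries.X * b) =
    (PowerSeries.X : PowerSeries ℤ[X]) ^ 2 * (a * b) by ring, c2_mul_X_sq, c1_mul_X, c1_mul_X,
    PowerSeries.coeff_zero_eq_constantCoeff_apply, PowerSeries.coeff_zero_eq_constantCoeff_apply,
    PowerSeries.coeff_zero_eq_constantCoeff_apply, map_mul]

lemma c2_sq {f : PowerSeries ℤ[X]} (hf : (PowerSeries.X : PowerSeries ℤ[X]) ∣ f) :
    c2 (f ^ 2) = c1 f ^ 2 := by
  rw [pow_two, c2_mul hf hf, pow_two]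

/-- an object is divisible by `w` if its polynomial is -/
lemma kob_dvd {w : A} {C : Finset σ} {F : σ → MvPolynomial Y A} {R : Finset σ}
    {P : MvPolynomial Y A} (h : MvPolynomial.C w ∣ P) : w ∣ kob w C F R P := by
  obtain ⟨q, rfl⟩ := h
  refine ⟨Ev w ((∏ s ∈ C \ R, F s) * q), ?_⟩
  rw [kob, show (∏ s ∈ C \ R, F s) * (MvPolynomial.C w * q) =
    MvPolynomial.C w * ((∏ s ∈ C \ R, F s) * q) by ring, Ev_C_mul]

lemma kob_dvd2 {w : A} {C : Finset σ} {F : σ → MvPolynomial Y A} {R : Finset σ}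
    {P Q : MvPolynomial Y A} (h : MvPolynomial.C w ∣ P) (h' : MvPolynomial.C w ∣ Q) :
    w ^ 2 ∣ kob w C F R (P * Q) := by
  obtain ⟨p, rfl⟩ := h
  obtain ⟨q, rfl⟩ := h'
  refine ⟨Ev w ((∏ s ∈ C \ R, F s) * (p * q)), ?_⟩
  rw [kob, show (∏ s ∈ C \ R, F s) * (MvPolynomial.C w * p * (MvPolynomial.C w * q)) =
    MvPolynomial.C (w ^ 2) * ((∏ s ∈ C \ R, F s) * (p * q)) by rw [map_pow]; ring, Ev_C_mul]

/-- THE SECOND ORDER RELATION: objects are the items, the chains and the frames -/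
theorem mform_rel {C : Finset σ} {F g : σ → MvPolynomial Y (PowerSeries ℤ[X])} {T : σ → Finset Y}
    (hF : ∀ s ∈ C, F s ∈ supported (PowerSeries ℤ[X]) (T s : Set Y))
    (hT : ∀ s ∈ C, ∀ t ∈ C, s ≠ t → Disjoint (T s) (T t))
    (h1 : ∀ s ∈ C, Ev PowerSeries.X (F s) = 1)
    (hne : ∀ s ∈ C, (T s).Nonempty)
    (hg : ∀ s ∈ C, MvPolynomial.C PowerSeries.X ∣ g s)
    (hgT : ∀ s ∈ C, g s ∈ supported (PowerSeries ℤ[X]) (T s : Set Y))
    {J : Finset ι} {r : ι → MvPolynomial Y (PowerSeries ℤ[X])} {U : ι → Finset Y}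
    (hr : ∀ j ∈ J, MvPolynomial.C PowerSeries.X ∣ r j)
    (hrU : ∀ j ∈ J, r j ∈ supported (PowerSeries ℤ[X]) (U j : Set Y))
    {Φ : Finset φ} {P : φ → MvPolynomial Y (PowerSeries ℤ[X])} {V : φ → Finset Y}
    {R : φ → Finset σ} {r' : φ → ι → MvPolynomial Y (PowerSeries ℤ[X])} {N : φ → Finset ι}
    (hP : ∀ f ∈ Φ, MvPolynomial.C PowerSeries.X ∣ P f)
    (hPV : ∀ f ∈ Φ, P f ∈ supported (PowerSeries ℤ[X]) (V f : Set Y))
    (hR : ∀ f ∈ Φ, R f ⊆ tch C T (V f))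
    (hr' : ∀ f ∈ Φ, ∀ j ∈ J, MvPolynomial.C PowerSeries.X ∣ r' f j)
    (hN : ∀ f ∈ Φ, N f ⊆ J) (hfar : ∀ f ∈ Φ, ∀ j ∈ J, j ∉ N f → r' f j = r j ∧
      Disjoint (clo C T (V f)) (clo C T (U j)))
    {K2 : φ → φ → PowerSeries ℤ[X]} {nearF : φ → φ → Prop}
    (hK2d : ∀ p ∈ Φ.offDiag, PowerSeries.X ^ 2 ∣ K2 p.1 p.2)
    (hK2 : ∀ p ∈ Φ.offDiag, ¬ nearF p.1 p.2 → PowerSeries.X ^ 3 ∣ K2 p.1 p.2 -
      kob PowerSeries.X C F (R p.1) (P p.1) * kob PowerSeries.X C F (R p.2) (P p.2))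
    {K Q : PowerSeries ℤ[X]} (hQ : PowerSeries.X ^ 2 ∣ Q)
    (hK : PowerSeries.X ^ 3 ∣ 2 * K -
      (2 * Ev PowerSeries.X ((∏ s ∈ C, (F s + g s)) * ∏ j ∈ J, (1 + r j)) +
      2 * ∑ f ∈ Φ, Ev PowerSeries.X
        (P f * ((∏ s ∈ C \ R f, (F s + g s)) * ∏ j ∈ J, (1 + r' f j))) +
      ∑ p ∈ Φ.offDiag, K2 p.1 p.2 + 2 * Q)) {M : ℕ}
    (hlow : ∀ d J : ℕ, 1 ≤ d → d ≤ 2 → d < J → J ≤ M → (PowerSeries.coeff d K).coeff J = 0) :
    (∀ n, 2 ≤ n → n ≤ M →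
      (∑ j ∈ J, c1 (kob PowerSeries.X C F ∅ (r j)) +
        ∑ s ∈ C, c1 (kob PowerSeries.X C F {s} (g s)) +
        ∑ f ∈ Φ, c1 (kob PowerSeries.X C F (R f) (P f))).coeff n = 0) ∧
    ∀ n, 3 ≤ n → n ≤ M →
      (∑ j ∈ J, v2 (kob PowerSeries.X C F ∅ (r j)) +
        ∑ s ∈ C, v2 (kob PowerSeries.X C F {s} (g s)) +
        ∑ f ∈ Φ, v2 (kob PowerSeries.X C F (R f) (P f)) +
        ∑ p ∈ J.offDiag.filter (fun p => ¬ Disjoint (clo C T (U p.1)) (clo C T (U p.2))),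
          (c2 (kob PowerSeries.X C F ∅ (r p.1 * r p.2)) -
            c1 (kob PowerSeries.X C F ∅ (r p.1)) * c1 (kob PowerSeries.X C F ∅ (r p.2))) +
        2 * ∑ s ∈ C, ∑ j ∈ J.filter (fun j => ¬ Disjoint (T s) (U j)),
          (c2 (kob PowerSeries.X C F {s} (g s * r j)) -
            c1 (kob PowerSeries.X C F {s} (g s)) * c1 (kob PowerSeries.X C F ∅ (r j))) +
        2 * ∑ f ∈ Φ, ∑ j ∈ N f,
          (c2 (kob PowerSeries.X C F (R f) (P f * r' f j)) -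
            c1 (kob PowerSeries.X C F (R f) (P f)) * c1 (kob PowerSeries.X C F ∅ (r j))) +
        2 * ∑ f ∈ Φ, ∑ s ∈ tch C T (V f),
          ((if s ∈ R f then 0 else c2 (kob PowerSeries.X C F (R f ∪ {s}) (P f * g s))) -
            c1 (kob PowerSeries.X C F (R f) (P f)) * c1 (kob PowerSeries.X C F {s} (g s))) +
        ∑ p ∈ Φ.offDiag.filter (fun p => nearF p.1 p.2),
          (c2 (K2 p.1 p.2) - c1 (kob PowerSeries.X C F (R p.1) (P p.1)) *
            c1 (kob PowerSeries.X C F (R p.2) (P p.2))) +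
        2 * c2 Q).coeff n = 0 := by
  have h := mform_log PowerSeries.X hF hT h1 hne hg hgT hr hrU hP hPV hR hr' hN hfar hK2 hK
  have dj : ∀ j ∈ J, PowerSeries.X ∣ kob PowerSeries.X C F ∅ (r j) :=
    fun j hj => kob_dvd (hr j hj)
  have ds : ∀ s ∈ C, PowerSeries.X ∣ kob PowerSeries.X C F {s} (g s) :=
    fun s hs => kob_dvd (hg s hs)
  have df : ∀ f ∈ Φ, PowerSeries.X ∣ kob PowerSeries.X C F (R f) (P f) :=
    fun f hf => kob_dvd (hP f hf)
  have sq : ∀ {a b : PowerSeries ℤ[X]}, PowerSeries.X ∣ a → PowerSeries.X ∣ b →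
      PowerSeries.X ^ 2 ∣ a * b := fun ha hb => by
    rw [pow_two]
    exact mul_dvd_mul ha hb
  have sq' : ∀ {a : PowerSeries ℤ[X]}, PowerSeries.X ∣ a → PowerSeries.X ^ 2 ∣ a ^ 2 :=
    fun ha => pow_dvd_pow_of_dvd ha 2
  have hJ : ∀ p ∈ J.offDiag, p.1 ∈ J ∧ p.2 ∈ J := fun p hp =>
    ⟨(mem_offDiag.1 hp).1, (mem_offDiag.1 hp).2.1⟩
  have hΦ : ∀ p ∈ Φ.offDiag, p.1 ∈ Φ ∧ p.2 ∈ Φ := fun p hp =>
    ⟨(mem_offDiag.1 hp).1, (mem_offDiag.1 hp).2.1⟩
  have htC : ∀ f, tch C T (V f) ⊆ C := fun f => filter_subset _ _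
  have hx := extract (N := M) h ?_ ?_ ?_ hlow
  · obtain ⟨x1, x2⟩ := hx
    constructor
    · intro n hn hn'
      have := x1 n hn hn'
      rw [← this]
      congr 1
      rw [map_add, map_add, map_sum, map_sum, map_sum]
      rfl
    · intro n hn hn'
      have := x2 n hn hn'
      rw [← this]
      congr 1
      have e : ∀ f : PowerSeries ℤ[X], PowerSeries.coeff 2 f = c2 f := fun _ => rfl
      rw [e]
      simp only [c2_add, c2_sub, c2_two_mul, c2_sum]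
      have q1 : ∑ j ∈ J, c2 (kob PowerSeries.X C F ∅ (r j) ^ 2) =
          ∑ j ∈ J, c1 (kob PowerSeries.X C F ∅ (r j)) ^ 2 :=
        sum_congr rfl fun j hj => c2_sq (dj j hj)
      have q2 : ∑ s ∈ C, c2 (kob PowerSeries.X C F {s} (g s) ^ 2) =
          ∑ s ∈ C, c1 (kob PowerSeries.X C F {s} (g s)) ^ 2 :=
        sum_congr rfl fun s hs => c2_sq (ds s hs)
      have q3 : ∑ f ∈ Φ, c2 (kob PowerSeries.X C F (R f) (P f) ^ 2) =
          ∑ f ∈ Φ, c1 (kob PowerSeries.X C F (R f) (P f)) ^ 2 :=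
        sum_congr rfl fun f hf => c2_sq (df f hf)
      have q4 : ∑ p ∈ J.offDiag.filter (fun p => ¬ Disjoint (clo C T (U p.1)) (clo C T (U p.2))),
          (c2 (kob PowerSeries.X C F ∅ (r p.1 * r p.2)) -
            c2 (kob PowerSeries.X C F ∅ (r p.1) * kob PowerSeries.X C F ∅ (r p.2))) =
          ∑ p ∈ J.offDiag.filter (fun p => ¬ Disjoint (clo C T (U p.1)) (clo C T (U p.2))),
          (c2 (kob PowerSeries.X C F ∅ (r p.1 * r p.2)) -
            c1 (kob PowerSeries.X C F ∅ (r p.1)) * c1 (kob PowerSeries.X C F ∅ (r p.2))) :=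
        sum_congr rfl fun p hp => by
          have := hJ p (mem_filter.1 hp).1
          rw [c2_mul (dj _ this.1) (dj _ this.2)]
      have q5 : ∑ s ∈ C, ∑ j ∈ J.filter (fun j => ¬ Disjoint (T s) (U j)),
          (c2 (kob PowerSeries.X C F {s} (g s * r j)) -
            c2 (kob PowerSeries.X C F {s} (g s) * kob PowerSeries.X C F ∅ (r j))) =
          ∑ s ∈ C, ∑ j ∈ J.filter (fun j => ¬ Disjoint (T s) (U j)),
          (c2 (kob PowerSeries.X C F {s} (g s * r j)) -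
            c1 (kob PowerSeries.X C F {s} (g s)) * c1 (kob PowerSeries.X C F ∅ (r j))) :=
        sum_congr rfl fun s hs => sum_congr rfl fun j hj => by
          rw [c2_mul (ds s hs) (dj j (mem_filter.1 hj).1)]
      have q6 : ∑ f ∈ Φ, ∑ j ∈ N f,
          (c2 (kob PowerSeries.X C F (R f) (P f * r' f j)) -
            c2 (kob PowerSeries.X C F (R f) (P f) * kob PowerSeries.X C F ∅ (r j))) =
          ∑ f ∈ Φ, ∑ j ∈ N f,
          (c2 (kob PowerSeries.X C F (R f) (P f * r' f j)) -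
            c1 (kob PowerSeries.X C F (R f) (P f)) * c1 (kob PowerSeries.X C F ∅ (r j))) :=
        sum_congr rfl fun f hf => sum_congr rfl fun j hj => by
          rw [c2_mul (df f hf) (dj j (hN f hf hj))]
      have q7 : ∑ f ∈ Φ, ∑ s ∈ tch C T (V f),
          (c2 (if s ∈ R f then 0 else kob PowerSeries.X C F (R f ∪ {s}) (P f * g s)) -
            c2 (kob PowerSeries.X C F (R f) (P f) * kob PowerSeries.X C F {s} (g s))) =
          ∑ f ∈ Φ, ∑ s ∈ tch C T (V f),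
          ((if s ∈ R f then 0 else c2 (kob PowerSeries.X C F (R f ∪ {s}) (P f * g s))) -
            c1 (kob PowerSeries.X C F (R f) (P f)) * c1 (kob PowerSeries.X C F {s} (g s))) :=
        sum_congr rfl fun f hf => sum_congr rfl fun s hs => by
          rw [c2_mul (df f hf) (ds s (htC f hs)), apply_ite c2, c2_zero]
      have q8 : ∑ p ∈ Φ.offDiag.filter (fun p => nearF p.1 p.2),
          (c2 (K2 p.1 p.2) - c2 (kob PowerSeries.X C F (R p.1) (P p.1) *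
            kob PowerSeries.X C F (R p.2) (P p.2))) =
          ∑ p ∈ Φ.offDiag.filter (fun p => nearF p.1 p.2),
          (c2 (K2 p.1 p.2) - c1 (kob PowerSeries.X C F (R p.1) (P p.1)) *
            c1 (kob PowerSeries.X C F (R p.2) (P p.2))) :=
        sum_congr rfl fun p hp => by
          have := hΦ p (mem_filter.1 hp).1
          rw [c2_mul (df _ this.1) (df _ this.2)]
      rw [q1, q2, q3, q4, q5, q6, q7, q8]
      simp only [v2, sum_sub_distrib, ← mul_sum]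
      ring
  · exact dvd_add (dvd_add (dvd_sum dj) (dvd_sum ds)) (dvd_sum df)
  · exact dvd_add (dvd_add (dvd_sum fun j hj => sq' (dj j hj))
      (dvd_sum fun s hs => sq' (ds s hs))) (dvd_sum fun f hf => sq' (df f hf))
  · refine dvd_add (dvd_add (dvd_add (dvd_add (dvd_add ?_ ?_) ?_) ?_) ?_) ?_
    · refine dvd_sum fun p hp => ?_
      have := hJ p (mem_filter.1 hp).1
      exact dvd_sub (kob_dvd2 (hr _ this.1) (hr _ this.2)) (sq (dj _ this.1) (dj _ this.2))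
    · refine (dvd_sum fun s hs => dvd_sum fun j hj => ?_).mul_left _
      have := (mem_filter.1 hj).1
      exact dvd_sub (kob_dvd2 (hg s hs) (hr j this)) (sq (ds s hs) (dj j this))
    · refine (dvd_sum fun f hf => dvd_sum fun j hj => ?_).mul_left _
      have := hN f hf hj
      exact dvd_sub (kob_dvd2 (hP f hf) (hr' f hf j this)) (sq (df f hf) (dj j this))
    · refine (dvd_sum fun f hf => dvd_sum fun s hs => ?_).mul_left _
      have := htC f hs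
      refine dvd_sub ?_ (sq (df f hf) (ds s this))
      split_ifs
      · exact dvd_zero _
      · exact kob_dvd2 (hP f hf) (hg s this)
    · refine dvd_sum fun p hp => ?_
      have hp' := (mem_filter.1 hp).1
      have := hΦ p hp'
      exact dvd_sub (hK2d p hp') (sq (df _ this.1) (df _ this.2))
    · exact hQ.mul_left _

end coefficients

end Pool.Gauss
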