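import Pool.Agent.Work.MP_065141_co.K.ModelA
import Pool.Agent.Work.MP_065141_co.K.DeepF

/-!
# The model with the objects evaluated
-/

set_option autoImplicit false
set_option linter.unusedSectionVars false
set_option linter.unusedVariables false
open scoped Classical
open Finset Polynomial

namespace Pool.Gauss

variable {α : Type} [Fintype α] [PartialOrder α] {i : ℕ}

/-- the factors around an object, with the single far elements resummed -/
noncomputable def rsL (i : ℕ) (u : α) : MvPolynomial α AA :=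
  ∏ p ∈ N1 α i \ bd i u, (1 + MvPolynomial.C (lam1 i p) * EA i 0 p)

/-- the factors around an object -/
noncomputable def rsK (i : ℕ) (k : α → ℕ) (u : α) : MvPolynomial α AA :=
  ∏ p ∈ N1 α i \ bd i u, GA i k p

/-- the polynomial in front of an object -/
noncomputable def PLo (i : ℕ) (u : α) : AA :=
  (1 + qA * (Gq i u).card) * (∏ p ∈ bd i u, lam1 i p) * (ZA ^ 3 * (nrm i u * geoA) ^ 2) +
    ZA ^ 4 * sgQ i u

lemma C_dvd {a b : AA} (h : a ∣ b) :
    (MvPolynomial.C a : MvPolynomial α AA) ∣ MvPolynomial.C b := by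
  obtain ⟨c, rfl⟩ := h
  exact ⟨MvPolynomial.C c, map_mul _ _ _⟩

lemma qA_dvd_lam1 (p : α) : qA ∣ lam1 i p - 1 := ⟨(ch i p).card, by
  unfold lam1
  ring⟩

lemma wA_dvd_qA : wA ∣ qA := ⟨ZA, rfl⟩

lemma ZA_dvd_qA : ZA ∣ qA := ⟨wA, by rw [qA, mul_comm]⟩

lemma rs_sub (u : α) {d : AA} (h : ∀ p ∈ N1 α i \ bd i u,
    MvPolynomial.C d ∣ MvPolynomial.C (1 - lam1 i p) * EA i 0 p) :
    MvPolynomial.C d ∣ rsK i 0 u - rsL i u := by
  unfold rsK rsL
  apply prod_dvd_sub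
  intro p hp
  have h1 : GA i 0 p - (1 + MvPolynomial.C (lam1 i p) * EA i 0 p) =
      MvPolynomial.C (1 - lam1 i p) * EA i 0 p := by
    unfold EA
    rw [map_sub, map_one]
    ring
  rw [h1]
  exact h p hp

lemma rs_w (u : α) : (MvPolynomial.C wA : MvPolynomial α AA) ∣ rsK i 0 u - rsL i u := by
  apply rs_sub
  intro p _
  apply Dvd.dvd.mul_right
  apply C_dvd
  rw [← neg_sub, dvd_neg]
  exact wA_dvd_qA.trans (qA_dvd_lam1 p)

lemma rs_Z (u : α) : (MvPolynomial.C ZA : MvPolynomial α AA) ∣ rsK i 0 u - rsL i u := by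
  apply rs_sub
  intro p _
  apply Dvd.dvd.mul_right
  apply C_dvd
  rw [← neg_sub, dvd_neg]
  exact ZA_dvd_qA.trans (qA_dvd_lam1 p)

/-- products of the variables of a side modulo `w` -/
lemma prod_av_mod (q : α) (B : Finset α) : (MvPolynomial.C wA : MvPolynomial α AA) ∣
    ∏ y ∈ B, av i q y - MvPolynomial.C (sgn i q ^ B.card) * ∏ y ∈ B, MvPolynomial.X y := by
  have h1 : MvPolynomial.C (sgn i q ^ B.card) * ∏ y ∈ B, (MvPolynomial.X y : MvPolynomial α AA) =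
      ∏ y ∈ B, (MvPolynomial.C (sgn i q) * MvPolynomial.X y) := by
    rw [prod_mul_distrib, prod_const, map_pow]
  rw [h1]
  apply prod_dvd_sub
  intro y _
  obtain ⟨Q, hQ⟩ := av_mod (i := i) q y
  exact ⟨Q, by rw [hQ]; ring⟩

/-- the value of an object at `w = 0` -/
lemma Ev_obj_mod (q : α) (B : Finset α) {R R' : MvPolynomial α AA}
    (hR : MvPolynomial.C wA ∣ R - R') : ∃ H : AA,
    Ev wA ((∏ y ∈ B, av i q y) * R) =
      sgn i q ^ B.card * Ev wA ((∏ y ∈ B, MvPolynomial.X y) * R') + wA * H := by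
  obtain ⟨H, hH⟩ := Ev_dvd_sub wA wA (P := (∏ y ∈ B, av i q y) * R)
    (Q := MvPolynomial.C (sgn i q ^ B.card) * (∏ y ∈ B, MvPolynomial.X y) * R') (by
      have h1 : (∏ y ∈ B, av i q y) * R -
          MvPolynomial.C (sgn i q ^ B.card) * (∏ y ∈ B, MvPolynomial.X y) * R' =
          (∏ y ∈ B, av i q y - MvPolynomial.C (sgn i q ^ B.card) *
            ∏ y ∈ B, MvPolynomial.X y) * R + MvPolynomial.C (sgn i q ^ B.card) *
            (∏ y ∈ B, MvPolynomial.X y) * (R - R') := by ring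
      rw [h1]
      exact dvd_add ((prod_av_mod q B).mul_right _) (hR.mul_left _))
  refine ⟨H, ?_⟩
  rw [hH, mul_assoc, Ev_C_mul]

lemma sgQ_mod (q : α) (h2 : (bd i q).card = 2) : ∃ Q, sgQ i q = sgn i q + wA * Q := by
  unfold sgQ sgn
  rw [h2]
  have hi := iwA_eq
  split_ifs
  · refine ⟨iwA * (iwA ^ 2 - iwA + 1), ?_⟩
    linear_combination (iwA ^ 2 - iwA + 1) * hi
  · exact ⟨wA - 2, by ring⟩

lemma sgn_pow_two (q : α) : sgn i q ^ 2 = 1 := by
  rw [pow_two]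
  exact sgn_sq q

lemma sgn_pow_four (q : α) : sgn i q ^ 4 = 1 := by
  rw [show (4 : ℕ) = 2 + 2 from rfl, pow_add, sgn_pow_two, one_mul]

lemma nrm_geo_mod (q : α) : ∃ Q, (nrm i q * geoA) ^ 2 = 1 + wA * Q := by
  obtain ⟨Q, hQ⟩ := nrm_mod (i := i) q
  have h1 := geoA_eq
  have h2 := sgn_pow_two (i := i) q
  refine ⟨(2 * sgn i q * Q + wA * Q ^ 2) * geoA ^ 2 + ZA * geoA * (1 + geoA), ?_⟩
  rw [hQ]
  unfold qA at h1
  linear_combination geoA ^ 2 * h2 + (1 + geoA) * h1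

/-- the polynomial of an object modulo `w` -/
lemma PLo_mod {u : α} (h2 : (bd i u).card = 2) :
    ∃ Q, PLo i u = ZA ^ 3 + sgn i u * ZA ^ 4 + wA * Q := by
  obtain ⟨Q1, h1⟩ := nrm_geo_mod (i := i) u
  obtain ⟨Q2, h3⟩ := sgQ_mod (i := i) u h2
  obtain ⟨Q3, h4⟩ : ∃ Q, ∏ p ∈ bd i u, lam1 i p = 1 + wA * Q := by
    obtain ⟨Q, hQ⟩ := prod_dvd_sub (I := bd i u) (f := fun p => lam1 i p) (g := fun _ => 1)
      (d := wA) (fun p _ => wA_dvd_qA.trans (qA_dvd_lam1 p))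
    refine ⟨Q, ?_⟩
    rw [prod_const_one] at hQ
    linear_combination hQ
  unfold PLo
  rw [h1, h3, h4]
  refine ⟨(ZA * (Gq i u).card * (1 + wA * Q3) + Q3) * (ZA ^ 3 * (1 + wA * Q1)) +
    ZA ^ 3 * Q1 + ZA ^ 4 * Q2, ?_⟩
  unfold qA
  ring

/-- **an object**: energies one and two together, modulo `Z ^ 5` -/
theorem objA (hg : Grad α) (hl : HasLower α i) (hdeg : ∀ p : α, (bd i p).card ≤ 2) {u : α}
    (hu : u ∈ U2 α i) : ∃ R : AA, qA * (1 + qA * (Gq i u).card) *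
      Ev wA (forced (N1 α i) (fun p => MvPolynomial.C (lam1 i p) * EA i 0 p) (bd i u)) + VQ i u =
      wA ^ (5 - (BB i u).card) * PLo i u *
        Ev wA ((∏ y ∈ BB i u, av i u y) * rsL i u) + ZA ^ 5 * R := by
  rw [mem_U2] at hu
  obtain ⟨hq, h2⟩ := hu
  have h3 : forced (N1 α i) (fun p => MvPolynomial.C (lam1 i p) * EA i 0 p) (bd i u) =
      MvPolynomial.C (∏ p ∈ bd i u, lam1 i p) *
        ((∏ p ∈ bd i u, (GA i 0 p - 1)) * rsL i u) := by
    rw [forced_eq (bd_subset_N1 hg hq), prod_mul_distrib, map_prod, mul_assoc]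
    rfl
  have h4 := forced_term hg hl hdeg hq (k := 0) (fun _ _ => rfl) (rsL i u)
  rw [h2] at h4
  obtain ⟨H, hH⟩ := Ev_dvd_sub wA ZA (P := (∏ y ∈ BB i u, av i u y) * rsK i 0 u)
    (Q := (∏ y ∈ BB i u, av i u y) * rsL i u) (by
      rw [← mul_sub]
      exact (rs_Z u).mul_left _)
  have h5 : VQ i u = ZA ^ 4 * wA ^ (5 - (BB i u).card) * sgQ i u *
      Ev wA ((∏ y ∈ BB i u, av i u y) * rsK i 0 u) := by
    unfold VQ rsK
    rw [h2]
  refine ⟨wA ^ (5 - (BB i u).card) * sgQ i u * H, ?_⟩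
  rw [h3, Ev_C_mul, h5, hH]
  unfold PLo
  linear_combination ((1 + qA * (Gq i u).card) * ∏ p ∈ bd i u, lam1 i p) * h4

/-- the objects with four vertices -/
noncomputable def U4 (α : Type) [Fintype α] [PartialOrder α] (i : ℕ) : Finset α :=
  (U2 α i).filter fun u => (BB i u).card = 4

/-- the objects with three vertices -/
noncomputable def U3 (α : Type) [Fintype α] [PartialOrder α] (i : ℕ) : Finset α :=
  (U2 α i).filter fun u => (BB i u).card = 3

/-- an object with three vertices -/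
theorem objA3 (hg : Grad α) (hl : HasLower α i) (hdeg : ∀ p : α, (bd i p).card ≤ 2) {u : α}
    (hu : u ∈ U2 α i) (h3 : (BB i u).card = 3) : ∃ R Q : AA, qA * (1 + qA * (Gq i u).card) *
      Ev wA (forced (N1 α i) (fun p => MvPolynomial.C (lam1 i p) * EA i 0 p) (bd i u)) + VQ i u =
      wA ^ 2 * ((sgn i u * ZA ^ 3 + ZA ^ 4) *
        Ev wA ((∏ y ∈ BB i u, MvPolynomial.X y) * rsK i 0 u)) + ZA ^ 5 * R + wA ^ 3 * Q := by
  obtain ⟨R, hR⟩ := objA hg hl hdeg hu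
  rw [mem_U2] at hu
  obtain ⟨Q1, h1⟩ := PLo_mod (i := i) hu.2
  obtain ⟨H, hH⟩ := Ev_obj_mod (i := i) u (BB i u) (R := rsL i u) (R' := rsK i 0 u)
    (by rw [← dvd_neg, neg_sub]; exact rs_w u)
  rw [h3] at hR hH
  rw [hH] at hR
  have h5 := sgn_pow_two (i := i) u
  refine ⟨R, (ZA ^ 3 + sgn i u * ZA ^ 4) * H + Q1 * (sgn i u ^ 3 *
    Ev wA ((∏ y ∈ BB i u, MvPolynomial.X y) * rsK i 0 u) + wA * H), ?_⟩
  rw [hR, h1]
  linear_combination (wA ^ 2 * Ev wA ((∏ y ∈ BB i u, MvPolynomial.X y) * rsK i 0 u) *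
    (sgn i u * ZA ^ 3 + (sgn i u ^ 2 + 1) * ZA ^ 4)) * h5

/-- an object with at most two vertices -/
theorem objA2 (hg : Grad α) (hl : HasLower α i) (hdeg : ∀ p : α, (bd i p).card ≤ 2) {u : α}
    (hu : u ∈ U2 α i) (h3 : (BB i u).card ≤ 2) : ∃ R Q : AA, qA * (1 + qA * (Gq i u).card) *
      Ev wA (forced (N1 α i) (fun p => MvPolynomial.C (lam1 i p) * EA i 0 p) (bd i u)) + VQ i u =
      ZA ^ 5 * R + wA ^ 3 * Q := by
  obtain ⟨R, hR⟩ := objA hg hl hdeg hu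
  have h4 : 5 - (BB i u).card = 3 + (2 - (BB i u).card) := by omega
  rw [h4, pow_add] at hR
  exact ⟨R, wA ^ (2 - (BB i u).card) * PLo i u * Ev wA ((∏ y ∈ BB i u, av i u y) * rsL i u), by
    rw [hR]; ring⟩

/-- an object with one unit of energy on level `i` -/
theorem objY (hg : Grad α) (hl : HasLower α i) (hdeg : ∀ p : α, (bd i p).card ≤ 2) {u : α}
    (hu : u ∈ U2 α i) (y : α) : ∃ Q : AA,
      qA ^ 2 * Ev wA (forced (N1 α i) (EA i (ind {y})) (bd i u)) =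
      wA ^ 2 * (ZA ^ 4 * if ObY i u y then
        Ev wA ((∏ t ∈ (BB i u).erase y, MvPolynomial.X t) * rsK i (ind {y}) u) else 0) +
        wA ^ 3 * Q := by
  rw [mem_U2] at hu
  obtain ⟨hq, h2⟩ := hu
  obtain ⟨Q, hQ⟩ := forced_y hg hl hdeg hq h2 y
  have h3 : forced (N1 α i) (EA i (ind {y})) (bd i u) =
      (∏ p ∈ bd i u, (GA i (ind {y}) p - 1)) * rsK i (ind {y}) u := by
    rw [forced_EA _ (bd_subset_N1 hg hq)]
    rfl
  refine ⟨ZA ^ 2 * Ev wA (Q * rsK i (ind {y}) u), ?_⟩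
  rw [h3, hQ, add_mul, map_add, mul_assoc, mul_assoc, Ev_C_mul, Ev_C_mul]
  unfold qA
  split_ifs <;> ring

/-- the pairs of objects over the same two elements -/
noncomputable def TT (α : Type) [Fintype α] [PartialOrder α] (i : ℕ) : Finset (Finset α) :=
  ((U2 α i).powersetCard 2).filter fun T => (T.biUnion (bd i)).card = 2 ∧
    (BA i (T.biUnion (bd i))).card = 4

/-- two objects -/
theorem objT (hg : Grad α) (hl : HasLower α i) (hdeg : ∀ p : α, (bd i p).card ≤ 2)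
    {T : Finset α} (hT : T ∈ (U2 α i).powersetCard 2) : ∃ R Q : AA,
      qA ^ 2 * Ev wA (forced (N1 α i) (EA i 0) (T.biUnion (bd i))) =
      (if (T.biUnion (bd i)).card = 2 ∧ (BA i (T.biUnion (bd i))).card = 4 then
        wA ^ 2 * (ZA ^ 4 * Ev wA ((∏ y ∈ BA i (T.biUnion (bd i)), MvPolynomial.X y) *
          ∏ p ∈ N1 α i \ T.biUnion (bd i), GA i 0 p)) else 0) + ZA ^ 5 * R + wA ^ 3 * Q := by
  rw [mem_powersetCard] at hT
  obtain ⟨hT, hc⟩ := hT
  have hu : ∀ u ∈ T, ds i u = 2 ∧ (bd i u).card = 2 := fun u hu => mem_U2.1 (hT hu)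
  have hA : T.biUnion (bd i) ⊆ N1 α i := by
    intro p hp
    rw [mem_biUnion] at hp
    obtain ⟨u, hu', hp⟩ := hp
    exact bd_subset_N1 hg (hu u hu').1 hp
  have h3 : forced (N1 α i) (EA i 0) (T.biUnion (bd i)) =
      (∏ p ∈ T.biUnion (bd i), (GA i 0 p - 1)) * ∏ p ∈ N1 α i \ T.biUnion (bd i), GA i 0 p := by
    rw [forced_EA _ hA]
    rfl
  obtain ⟨u, u', hne, hT2⟩ := Finset.card_eq_two.1 hc
  have huT : u ∈ T := by rw [hT2]; simp
  have hsub : bd i u ⊆ T.biUnion (bd i) := Finset.subset_biUnion_of_mem (bd i) huT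
  have hcard : 2 ≤ (T.biUnion (bd i)).card := by
    rw [← (hu u huT).2]
    exact card_le_card hsub
  by_cases h4 : (T.biUnion (bd i)).card = 2
  · have h5 : T.biUnion (bd i) = bd i u :=
      (Finset.eq_of_subset_of_card_le hsub (by rw [h4, (hu u huT).2])).symm
    rw [h3, h5, BA_bd]
    have h6 := forced_term2 hg hl hdeg (hu u huT).1 (k := 0) (fun _ _ => rfl) (rsK i 0 u)
    rw [(hu u huT).2] at h6 ⊢
    have h7 : (∏ p ∈ N1 α i \ bd i u, GA i 0 p) = rsK i 0 u := rfl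
    rw [h7, h6]
    by_cases h8 : (BB i u).card = 4
    · obtain ⟨H, hH⟩ := Ev_obj_mod (i := i) u (BB i u) (R := rsK i 0 u) (R' := rsK i 0 u)
        (by rw [sub_self]; exact dvd_zero _)
      obtain ⟨Q1, hQ1⟩ := nrm_geo_mod (i := i) u
      rw [if_pos ⟨rfl, h8⟩]
      rw [h8] at hH ⊢
      have h9 := sgn_pow_four (i := i) u
      refine ⟨0, ZA ^ 4 * (H + Q1 * (sgn i u ^ 4 * Ev wA ((∏ y ∈ BB i u, MvPolynomial.X y) *
        rsK i 0 u) + wA * H)), ?_⟩
      rw [hH, hQ1]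
      linear_combination (wA ^ 2 * ZA ^ 4 * Ev wA ((∏ y ∈ BB i u, MvPolynomial.X y) *
        rsK i 0 u)) * h9
    · have h9 : (BB i u).card ≤ 4 := card_BB_le4 hdeg u
      have h10 : 2 * 2 + 2 - (BB i u).card = 3 + (3 - (BB i u).card) := by omega
      rw [if_neg (fun h => h8 h.2), h10]
      refine ⟨0, ZA ^ 4 * wA ^ (3 - (BB i u).card) * (nrm i u * geoA) ^ 2 *
        Ev wA ((∏ y ∈ BB i u, av i u y) * rsK i 0 u), ?_⟩
      rw [pow_add]
      ring
  · obtain ⟨R, hR⟩ := forced_dead hg hl (A := T.biUnion (bd i)) (fun p hp => mem_N1.1 (hA hp))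
      (fun p _ => hdeg p) (by omega) 0 (∏ p ∈ N1 α i \ T.biUnion (bd i), GA i 0 p)
    rw [if_neg (fun h => h4 h.1), h3, hR]
    exact ⟨R, 0, by ring⟩

/-- **the model with all objects evaluated** -/
theorem exists_KNobj {h : Fin (Fintype.card α) → ℕ} (hG : IsGaussianWith α h)
    (hl : HasLower α i) (hdeg : ∀ p : α, (bd i p).card ≤ 2) :
    ∃ KN : AA, Low KN ∧
      (∃ R Q : AA, KN =
        Ev wA (∏ p ∈ N1 α i, (1 + MvPolynomial.C (lam i p) * EA i 0 p)) +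
        qA * ∑ y ∈ lev α i,
          Ev wA (∏ p ∈ N1 α i, (1 + MvPolynomial.C (lam1 i p) * EA i (ind {y}) p)) +
        qA ^ 2 * ∑ k ∈ KL α i 2, Ev wA (∏ p ∈ N1 α i, GA i k p) +
        wA * ∑ u ∈ U4 α i, PLo i u * Ev wA ((∏ y ∈ BB i u, av i u y) * rsL i u) +
        wA ^ 2 * ∑ u ∈ U3 α i, (sgn i u * ZA ^ 3 + ZA ^ 4) *
          Ev wA ((∏ y ∈ BB i u, MvPolynomial.X y) * rsK i 0 u) +
        wA ^ 2 * (ZA ^ 4 * ∑ u ∈ U2 α i, ∑ y ∈ (lev α i).filter (fun y => ObY i u y),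
          Ev wA ((∏ t ∈ (BB i u).erase y, MvPolynomial.X t) * rsK i (ind {y}) u)) +
        wA ^ 2 * (ZA ^ 4 * ∑ T ∈ TT α i,
          Ev wA ((∏ y ∈ BA i (T.biUnion (bd i)), MvPolynomial.X y) *
            ∏ p ∈ N1 α i \ T.biUnion (bd i), GA i 0 p)) +
        ZA ^ 5 * R + wA ^ 3 * Q) ∧
      ∀ J, 4 ≤ J → ∃ R Q : AA, KN =
        Ev wA (∏ p ∈ N1 α i, (1 + MvPolynomial.C (lam1 i p) * EA i 0 p)) +
        qA * ∑ y ∈ lev α i, Ev wA (∏ p ∈ N1 α i, GA i (ind {y}) p) +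
        wA * ∑ u ∈ U4 α i, (ZA ^ 3 + sgn i u * ZA ^ 4) *
          Ev wA ((∏ y ∈ BB i u, MvPolynomial.X y) * rsK i 0 u) +
        ZA ^ (J + 1) * R + wA ^ 2 * Q := by
  have hg := grad hG
  obtain ⟨KN, h1, ⟨R, Q, h2⟩, h3⟩ := exists_KNres hG hl hdeg
  refine ⟨KN, h1, ?_, ?_⟩
  · -- the objects
    have e1 : ∀ u : α, ∃ R Q : AA, u ∈ U2 α i → qA * (1 + qA * (Gq i u).card) *
        Ev wA (forced (N1 α i) (fun p => MvPolynomial.C (lam1 i p) * EA i 0 p) (bd i u)) +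
        VQ i u =
        (if (BB i u).card = 4 then
          wA * (PLo i u * Ev wA ((∏ y ∈ BB i u, av i u y) * rsL i u)) else 0) +
        (if (BB i u).card = 3 then wA ^ 2 * ((sgn i u * ZA ^ 3 + ZA ^ 4) *
          Ev wA ((∏ y ∈ BB i u, MvPolynomial.X y) * rsK i 0 u)) else 0) +
        ZA ^ 5 * R + wA ^ 3 * Q := by
      intro u
      by_cases hu : u ∈ U2 α i
      · by_cases h4 : (BB i u).card = 4
        · obtain ⟨R, hR⟩ := objA hg hl hdeg hu
          rw [h4] at hR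
          refine ⟨R, 0, fun _ => ?_⟩
          rw [if_pos h4, if_neg (by omega), hR]
          ring
        · by_cases h5 : (BB i u).card = 3
          · obtain ⟨R, Q, hR⟩ := objA3 hg hl hdeg hu h5
            refine ⟨R, Q, fun _ => ?_⟩
            rw [if_neg h4, if_pos h5, hR]
            ring
          · have h6 := card_BB_le4 hdeg u
            obtain ⟨R, Q, hR⟩ := objA2 hg hl hdeg hu (by omega)
            refine ⟨R, Q, fun _ => ?_⟩
            rw [if_neg h4, if_neg h5, hR]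
            ring
      · exact ⟨0, 0, fun h => absurd h hu⟩
    choose R1 Q1 hR1 using e1
    have e2 : ∀ u y : α, ∃ Q : AA, u ∈ U2 α i →
        qA ^ 2 * Ev wA (forced (N1 α i) (EA i (ind {y})) (bd i u)) =
        wA ^ 2 * (ZA ^ 4 * if ObY i u y then
          Ev wA ((∏ t ∈ (BB i u).erase y, MvPolynomial.X t) * rsK i (ind {y}) u) else 0) +
          wA ^ 3 * Q := by
      intro u y
      by_cases hu : u ∈ U2 α i
      · obtain ⟨Q, hQ⟩ := objY hg hl hdeg hu y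
        exact ⟨Q, fun _ => hQ⟩
      · exact ⟨0, fun h => absurd h hu⟩
    choose Q2 hQ2 using e2
    have e3 : ∀ T : Finset α, ∃ R Q : AA, T ∈ (U2 α i).powersetCard 2 →
        qA ^ 2 * Ev wA (forced (N1 α i) (EA i 0) (T.biUnion (bd i))) =
        (if (T.biUnion (bd i)).card = 2 ∧ (BA i (T.biUnion (bd i))).card = 4 then
          wA ^ 2 * (ZA ^ 4 * Ev wA ((∏ y ∈ BA i (T.biUnion (bd i)), MvPolynomial.X y) *
            ∏ p ∈ N1 α i \ T.biUnion (bd i), GA i 0 p)) else 0) + ZA ^ 5 * R + wA ^ 3 * Q := by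
      intro T
      by_cases hT : T ∈ (U2 α i).powersetCard 2
      · obtain ⟨R, Q, hR⟩ := objT hg hl hdeg hT
        exact ⟨R, Q, fun _ => hR⟩
      · exact ⟨0, 0, fun h => absurd h hT⟩
    choose R3 Q3 hR3 using e3
    refine ⟨R + ∑ u ∈ U2 α i, R1 u + ∑ T ∈ (U2 α i).powersetCard 2, R3 T,
      Q + ∑ u ∈ U2 α i, Q1 u + ∑ u ∈ U2 α i, ∑ y ∈ lev α i, Q2 u y +
      ∑ T ∈ (U2 α i).powersetCard 2, Q3 T, ?_⟩
    have f1 : ∑ u ∈ U2 α i, (qA * (1 + qA * (Gq i u).card) *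
          Ev wA (forced (N1 α i) (fun p => MvPolynomial.C (lam1 i p) * EA i 0 p) (bd i u)) +
          qA ^ 2 * ∑ y ∈ lev α i, Ev wA (forced (N1 α i) (EA i (ind {y})) (bd i u)) +
          VQ i u) =
        wA * ∑ u ∈ U4 α i, PLo i u * Ev wA ((∏ y ∈ BB i u, av i u y) * rsL i u) +
        wA ^ 2 * ∑ u ∈ U3 α i, (sgn i u * ZA ^ 3 + ZA ^ 4) *
          Ev wA ((∏ y ∈ BB i u, MvPolynomial.X y) * rsK i 0 u) +
        wA ^ 2 * (ZA ^ 4 * ∑ u ∈ U2 α i, ∑ y ∈ (lev α i).filter (fun y => ObY i u y),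
          Ev wA ((∏ t ∈ (BB i u).erase y, MvPolynomial.X t) * rsK i (ind {y}) u)) +
        ZA ^ 5 * ∑ u ∈ U2 α i, R1 u + wA ^ 3 * (∑ u ∈ U2 α i, Q1 u +
          ∑ u ∈ U2 α i, ∑ y ∈ lev α i, Q2 u y) := by
      have g1 : ∀ u ∈ U2 α i, (qA * (1 + qA * (Gq i u).card) *
          Ev wA (forced (N1 α i) (fun p => MvPolynomial.C (lam1 i p) * EA i 0 p) (bd i u)) +
          qA ^ 2 * ∑ y ∈ lev α i, Ev wA (forced (N1 α i) (EA i (ind {y})) (bd i u)) +
          VQ i u) =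
          wA * (if (BB i u).card = 4 then
            PLo i u * Ev wA ((∏ y ∈ BB i u, av i u y) * rsL i u) else 0) +
          wA ^ 2 * (if (BB i u).card = 3 then (sgn i u * ZA ^ 3 + ZA ^ 4) *
            Ev wA ((∏ y ∈ BB i u, MvPolynomial.X y) * rsK i 0 u) else 0) +
          wA ^ 2 * (ZA ^ 4 * ∑ y ∈ (lev α i).filter (fun y => ObY i u y),
            Ev wA ((∏ t ∈ (BB i u).erase y, MvPolynomial.X t) * rsK i (ind {y}) u)) +
          ZA ^ 5 * R1 u + wA ^ 3 * (Q1 u + ∑ y ∈ lev α i, Q2 u y) := by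
        intro u hu
        have k1 := hR1 u hu
        have k2 : qA ^ 2 * ∑ y ∈ lev α i, Ev wA (forced (N1 α i) (EA i (ind {y})) (bd i u)) =
            wA ^ 2 * (ZA ^ 4 * ∑ y ∈ (lev α i).filter (fun y => ObY i u y),
            Ev wA ((∏ t ∈ (BB i u).erase y, MvPolynomial.X t) * rsK i (ind {y}) u)) +
            wA ^ 3 * ∑ y ∈ lev α i, Q2 u y := by
          rw [mul_sum, sum_congr rfl fun y _ => hQ2 u y hu, sum_add_distrib, sum_filter,
            mul_sum, mul_sum, mul_sum]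
        rw [add_right_comm, k1, k2]
        split_ifs <;> ring
      rw [sum_congr rfl g1]
      unfold U4 U3
      simp only [sum_add_distrib, mul_sum, sum_filter, mul_add]
    have f2 : qA ^ 2 * ∑ T ∈ (U2 α i).powersetCard 2,
          Ev wA (forced (N1 α i) (EA i 0) (T.biUnion (bd i))) =
        wA ^ 2 * (ZA ^ 4 * ∑ T ∈ TT α i,
          Ev wA ((∏ y ∈ BA i (T.biUnion (bd i)), MvPolynomial.X y) *
            ∏ p ∈ N1 α i \ T.biUnion (bd i), GA i 0 p)) +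
        ZA ^ 5 * ∑ T ∈ (U2 α i).powersetCard 2, R3 T +
        wA ^ 3 * ∑ T ∈ (U2 α i).powersetCard 2, Q3 T := by
      have g1 : (∑ T ∈ (U2 α i).powersetCard 2,
          if (T.biUnion (bd i)).card = 2 ∧ (BA i (T.biUnion (bd i))).card = 4 then
          wA ^ 2 * (ZA ^ 4 * Ev wA ((∏ y ∈ BA i (T.biUnion (bd i)), MvPolynomial.X y) *
            ∏ p ∈ N1 α i \ T.biUnion (bd i), GA i 0 p)) else 0) =
          wA ^ 2 * (ZA ^ 4 * ∑ T ∈ TT α i,
          Ev wA ((∏ y ∈ BA i (T.biUnion (bd i)), MvPolynomial.X y) *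
            ∏ p ∈ N1 α i \ T.biUnion (bd i), GA i 0 p)) := by
        unfold TT
        rw [sum_filter, mul_sum, mul_sum]
        apply sum_congr rfl
        intro T _
        split_ifs <;> ring
      rw [mul_sum, sum_congr rfl hR3, sum_add_distrib, sum_add_distrib, ← mul_sum, ← mul_sum, g1]
    have f3 : ∀ k : α → ℕ, ∏ p ∈ N1 α i, (1 + EA i k p) = ∏ p ∈ N1 α i, GA i k p :=
      fun k => prod_congr rfl fun p _ => one_add_EA k p
    have f4 : ∑ k ∈ KL α i 2, Ev wA (∏ p ∈ N1 α i, (1 + EA i k p)) =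
        ∑ k ∈ KL α i 2, Ev wA (∏ p ∈ N1 α i, GA i k p) :=
      sum_congr rfl fun k _ => by rw [f3 k]
    rw [f1, f2, f4] at h2
    rw [h2]
    ring
  · intro J hJ
    obtain ⟨R, Q, h4⟩ := h3 J hJ
    have e1 : ∀ u : α, ∃ Q : AA, u ∈ U2 α i →
        qA * Ev wA (forced (N1 α i) (EA i 0) (bd i u)) + VQ i u =
        wA * (if (BB i u).card = 4 then (ZA ^ 3 + sgn i u * ZA ^ 4) *
          Ev wA ((∏ y ∈ BB i u, MvPolynomial.X y) * rsK i 0 u) else 0) + wA ^ 2 * Q := by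
      intro u
      by_cases hu : u ∈ U2 α i
      · have hu' := mem_U2.1 hu
        have k1 := obj_two hg hl hdeg hu'.1 hu'.2
        rw [WT_single] at k1
        by_cases h4 : (BB i u).card = 4
        · obtain ⟨Q1, hQ1⟩ := PQ_mod (i := i) u hu'.2
          obtain ⟨H, hH⟩ := Ev_obj_mod (i := i) u (BB i u) (R := rsK i 0 u) (R' := rsK i 0 u)
            (by rw [sub_self]; exact dvd_zero _)
          have h5 : (∏ p ∈ N1 α i \ bd i u, GA i 0 p) = rsK i 0 u := rfl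
          have h9 := sgn_pow_four (i := i) u
          rw [h4] at k1 hH
          rw [h5, hH, hQ1] at k1
          refine ⟨(if corank u < i then (2 * ZA ^ 3 - ZA ^ 4) else 0) * (sgn i u ^ 4 *
              Ev wA ((∏ y ∈ BB i u, MvPolynomial.X y) * rsK i 0 u) + wA * H) +
            wA * Q1 * (sgn i u ^ 4 *
              Ev wA ((∏ y ∈ BB i u, MvPolynomial.X y) * rsK i 0 u) + wA * H) +
            (ZA ^ 3 + sgn i u * ZA ^ 4) * H, fun _ => ?_⟩
          rw [k1, if_pos h4]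
          have h10 : wA ^ (5 - 4) = wA := by norm_num
          rw [h10]
          by_cases h11 : corank u < i
          · rw [if_pos h11, if_pos h11]
            linear_combination (wA * (ZA ^ 3 + sgn i u * ZA ^ 4) *
              Ev wA ((∏ y ∈ BB i u, MvPolynomial.X y) * rsK i 0 u)) * h9
          · rw [if_neg h11, if_neg h11]
            linear_combination (wA * (ZA ^ 3 + sgn i u * ZA ^ 4) *
              Ev wA ((∏ y ∈ BB i u, MvPolynomial.X y) * rsK i 0 u)) * h9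
        · have h6 := card_BB_le4 hdeg u
          have h7 : 5 - (BB i u).card = 2 + (3 - (BB i u).card) := by omega
          rw [h7, pow_add] at k1
          refine ⟨wA ^ (3 - (BB i u).card) * PQ i u *
            Ev wA ((∏ y ∈ BB i u, av i u y) * ∏ p ∈ N1 α i \ bd i u, GA i 0 p), fun _ => ?_⟩
          rw [k1, if_neg h4]
          ring
      · exact ⟨0, fun h => absurd h hu⟩
    choose Q1 hQ1 using e1
    have f1 : ∑ u ∈ U2 α i, (qA * Ev wA (forced (N1 α i) (EA i 0) (bd i u)) + VQ i u) =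
        wA * ∑ u ∈ U4 α i, (ZA ^ 3 + sgn i u * ZA ^ 4) *
          Ev wA ((∏ y ∈ BB i u, MvPolynomial.X y) * rsK i 0 u) +
        wA ^ 2 * ∑ u ∈ U2 α i, Q1 u := by
      rw [sum_congr rfl hQ1, sum_add_distrib, ← mul_sum, ← mul_sum]
      unfold U4
      rw [sum_filter]
    have f3 : ∀ k : α → ℕ, ∏ p ∈ N1 α i, (1 + EA i k p) = ∏ p ∈ N1 α i, GA i k p :=
      fun k => prod_congr rfl fun p _ => one_add_EA k p
    refine ⟨R, Q + ∑ u ∈ U2 α i, Q1 u, ?_⟩
    have f4 : ∑ y ∈ lev α i, Ev wA (∏ p ∈ N1 α i, (1 + EA i (ind {y}) p)) =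
        ∑ y ∈ lev α i, Ev wA (∏ p ∈ N1 α i, GA i (ind {y}) p) :=
      sum_congr rfl fun y _ => by rw [f3 (ind {y})]
    rw [f1, f4] at h4
    rw [h4]
    ring

end Pool.Gauss
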