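import Pool.Agent.Work.MP_065141_co.K.MForm
import Pool.Agent.Work.MP_065141_co.K.ItemA
import Pool.Agent.Work.MP_065141_co.K.ModelB

/-!
# The model as a product over items and clusters

Items: matched pairs and elements with one neighbour. Clusters: any division of the unmatched
elements with disjoint sets of vertices. A frame is given by an energy function `k` on level `i`
and a set `A` of forced elements.
-/

set_option autoImplicit false
set_option linter.unusedSectionVars false
open scoped Classical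
open Finset

namespace Pool.Gauss

variable {α : Type} [Fintype α] [PartialOrder α] {i : ℕ}

/-! ### the local factors -/

/-- the local factor minus one, with the resummed coefficient -/
noncomputable def lE (i : ℕ) (k : α → ℕ) (p : α) : MvPolynomial α AA :=
  MvPolynomial.C (lam i p) * EA i k p

lemma EA_congr {k k' : α → ℕ} {p : α} (h : ∀ y ∈ bd i p, k y = k' y) : EA i k p = EA i k' p := by
  unfold EA GA
  rw [gP_congr h]

lemma lE_congr {k k' : α → ℕ} {p : α} (h : ∀ y ∈ bd i p, k y = k' y) : lE i k p = lE i k' p := by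
  unfold lE
  rw [EA_congr h]

lemma qA_dvd_qs (n : ℕ) : qA ∣ qs n - 1 := by
  unfold qs
  rw [sum_range_succ']
  simp only [pow_zero, add_sub_cancel_right]
  exact dvd_sum fun a _ => ⟨qA ^ a, by rw [pow_succ']⟩

lemma qA_dvd_lam (p : α) : qA ∣ lam i p - 1 := by
  refine ⟨((ch i p).card : AA) + (((ch i p).card.choose 2 : ℕ) +
    ∑ u ∈ ch i p, ((Gq i u).card : AA) - ((ch i p).card : AA)) * qA, ?_⟩
  unfold lam
  ring

lemma qA_sq_dvd_lam1 (p : α) : qA ^ 2 ∣ lam i p - lam1 i p := by
  refine ⟨((ch i p).card.choose 2 : ℕ) +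
    ∑ u ∈ ch i p, ((Gq i u).card : AA) - ((ch i p).card : AA), ?_⟩
  unfold lam lam1
  ring

/-! ### the items -/

/-- the items -/
noncomputable def Mat.J (m : Mat α i) : Finset ((α × α) ⊕ α) := m.M.disjSum (Sg α i)

/-- the elements of an item -/
noncomputable def imem : (α × α) ⊕ α → Finset α
  | .inl e => {e.1, e.2}
  | .inr p => {p}

/-- the vertices of an item -/
noncomputable def isp (i : ℕ) : (α × α) ⊕ α → Finset α
  | .inl e => bd i e.1
  | .inr p => bd i p

lemma Mat.mem_J {m : Mat α i} {j : (α × α) ⊕ α} (h : j ∈ m.J) :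
    (∃ e ∈ m.M, j = .inl e) ∨ ∃ p ∈ Sg α i, j = .inr p := by
  unfold Mat.J at h
  rw [mem_disjSum] at h
  rcases h with ⟨e, he, rfl⟩ | ⟨p, hp, rfl⟩
  · exact Or.inl ⟨e, he, rfl⟩
  · exact Or.inr ⟨p, hp, rfl⟩

lemma Mat.bd_imem (hg : Grad α) (m : Mat α i) {j : (α × α) ⊕ α} (h : j ∈ m.J) {p : α}
    (hp : p ∈ imem j) : bd i p = isp i j := by
  rcases m.mem_J h with ⟨e, he, rfl⟩ | ⟨q, hq, rfl⟩
  · simp only [imem, mem_insert, mem_singleton] at hp
    rcases hp with rfl | rfl
    · rfl
    · exact (m.bd_eq hg he).symm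
  · simp only [imem, mem_singleton] at hp
    subst hp
    rfl

lemma Mat.isp_nonempty (hg : Grad α) (m : Mat α i) {j : (α × α) ⊕ α} (h : j ∈ m.J) :
    (isp i j).Nonempty := by
  rcases m.mem_J h with ⟨e, he, rfl⟩ | ⟨q, hq, rfl⟩
  · obtain ⟨y, y', _, h1, _⟩ := m.bd_pair hg he
    refine ⟨y, ?_⟩
    simp only [isp]
    rw [h1]
    exact mem_insert_self _ _
  · have := (mem_Sg.1 hq).2
    simp only [isp]
    rw [← card_pos, this]
    exact Nat.one_pos

/-- a chosen representative of the form `1 + ρ`, `w ∣ ρ` -/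
noncomputable def pick (P : MvPolynomial α AA) (B : Finset α) : MvPolynomial α AA :=
  if h : ∃ ρ, MvPolynomial.C wA ∣ ρ ∧ ρ ∈ MvPolynomial.supported AA (B : Set α) ∧
    EvEq wA P (1 + ρ) then h.choose else 0

lemma pick_spec {P : MvPolynomial α AA} {B : Finset α}
    (h : ∃ ρ, MvPolynomial.C wA ∣ ρ ∧ ρ ∈ MvPolynomial.supported AA (B : Set α) ∧
      EvEq wA P (1 + ρ)) : MvPolynomial.C wA ∣ pick P B ∧
      pick P B ∈ MvPolynomial.supported AA (B : Set α) ∧ EvEq wA P (1 + pick P B) := by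
  unfold pick
  rw [dif_pos h]
  exact h.choose_spec

/-- the product over an item -/
noncomputable def iprod (i : ℕ) (k : α → ℕ) (j : (α × α) ⊕ α) : MvPolynomial α AA :=
  ∏ p ∈ imem j, (1 + lE i k p)

lemma C_mem_suppF (B : Finset α) (c : AA) :
    (MvPolynomial.C c : MvPolynomial α AA) ∈ MvPolynomial.supported AA (B : Set α) :=
  (MvPolynomial.supported AA (B : Set α)).algebraMap_mem c

lemma X_mem_suppF {B : Finset α} {y : α} (h : y ∈ B) :
    (MvPolynomial.X y : MvPolynomial α AA) ∈ MvPolynomial.supported AA (B : Set α) :=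
  Algebra.subset_adjoin (Set.mem_image_of_mem _ (mem_coe.2 h))

lemma Mat.exists_rho (hg : Grad α) (m : Mat α i) (k : α → ℕ) {j : (α × α) ⊕ α} (h : j ∈ m.J) :
    ∃ ρ, MvPolynomial.C wA ∣ ρ ∧ ρ ∈ MvPolynomial.supported AA (isp i j : Set α) ∧
      EvEq wA (iprod i k j) (1 + ρ) := by
  rcases m.mem_J h with ⟨e, he, rfl⟩ | ⟨p, hp, rfl⟩
  · have key : ∃ y y', y ≠ y' ∧ bd i e.1 = {y, y'} ∧ bd i e.2 = {y, y'} ∧ k y ≤ k y' := by
      obtain ⟨y, y', hne, h1, h2⟩ := m.bd_pair hg he
      rcases le_total (k y) (k y') with h3 | h3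
      · exact ⟨y, y', hne, h1, h2, h3⟩
      · exact ⟨y', y, hne.symm, by rw [h1, pair_comm], by rw [h2, pair_comm], h3⟩
    obtain ⟨y, y', hne, h1, h2, h3⟩ := key
    have h4 := EA_pair (m.cz e he) (m.cx e he) h1 h2 hne h3 (lam i e.1) (lam i e.2)
    have hne' : e.1 ≠ e.2 := by
      intro h5
      have h6 := m.cz e he
      have h7 := m.cx e he
      rw [h5] at h6
      omega
    have h5 : iprod i k (.inl e) =
        (1 + MvPolynomial.C (lam i e.1) * EA i k e.1) *
          (1 + MvPolynomial.C (lam i e.2) * EA i k e.2) := by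
      unfold iprod imem lE
      rw [prod_pair hne']
    have hy : y ∈ bd i e.1 := by rw [h1]; simp
    have hy' : y' ∈ bd i e.1 := by rw [h1]; simp
    obtain ⟨a, ha⟩ := wA_dvd_qA.trans (qA_dvd_qs (k y))
    obtain ⟨bz, hbz⟩ := wA_dvd_qA.trans (qA_dvd_lam (i := i) e.1)
    obtain ⟨bx, hbx⟩ := wA_dvd_qA.trans (qA_dvd_lam (i := i) e.2)
    refine ⟨MvPolynomial.C wA * (MvPolynomial.C (lam i e.1 * a + lam i e.2 * a +
        wA * (lam i e.1 * a * (lam i e.2 * a))) +
        MvPolynomial.C (bx - bz) * (MvPolynomial.C (qm (k y) (k y')) * MvPolynomial.X y +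
          MvPolynomial.C (qe (k y')) * (MvPolynomial.X y * MvPolynomial.X y')) +
        MvPolynomial.C ((1 + lam i e.2 * (qs (k y) - 1)) * lam i e.1) *
          (MvPolynomial.C (qm (k y) (k y')) + MvPolynomial.C (iwA * qe (k y')) *
            (MvPolynomial.X y * MvPolynomial.X y' - MvPolynomial.X y - MvPolynomial.X y' +
              MvPolynomial.C wA))), ⟨_, rfl⟩, ?_, ?_⟩
    · have cm := C_mem_suppF (isp i (Sum.inl e : (α × α) ⊕ α))
      have x1 : (MvPolynomial.X y : MvPolynomial α AA) ∈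
          MvPolynomial.supported AA (isp i (Sum.inl e : (α × α) ⊕ α) : Set α) := X_mem_suppF hy
      have x2 : (MvPolynomial.X y' : MvPolynomial α AA) ∈
          MvPolynomial.supported AA (isp i (Sum.inl e : (α × α) ⊕ α) : Set α) := X_mem_suppF hy'
      refine mul_mem (cm _) (add_mem (add_mem (cm _) (mul_mem (cm _) (add_mem
        (mul_mem (cm _) x1) (mul_mem (cm _) (mul_mem x1 x2))))) (mul_mem (cm _) (add_mem (cm _)
        (mul_mem (cm _) (add_mem (sub_mem (sub_mem (mul_mem x1 x2) x1) x2) (cm _))))))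
    · rw [h5]
      refine h4.trans (EvEq.of_eq ?_)
      have e1 : lam i e.2 - lam i e.1 = wA * (bx - bz) := by linear_combination hbx - hbz
      have e2 : (1 + lam i e.1 * (qs (k y) - 1)) * (1 + lam i e.2 * (qs (k y) - 1)) =
          1 + wA * (lam i e.1 * a + lam i e.2 * a + wA * (lam i e.1 * a * (lam i e.2 * a))) := by
        rw [ha]
        ring
      rw [e1, e2]
      simp only [map_add, map_mul, map_one, map_sub]
      ring
  · rw [mem_Sg] at hp
    obtain ⟨y, hy⟩ := card_eq_one.1 hp.2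
    have h5 : iprod i k (.inr p) = 1 + lE i k p := by
      unfold iprod imem
      rw [prod_singleton]
    have hyB : y ∈ isp i (Sum.inr p : (α × α) ⊕ α) := by
      simp only [isp]
      rw [hy]
      exact mem_singleton_self y
    have cm := C_mem_suppF (isp i (Sum.inr p : (α × α) ⊕ α))
    have x1 := X_mem_suppF (α := α) hyB
    obtain ⟨a, ha⟩ := wA_dvd_qA.trans (qA_dvd_qs (k y))
    rcases ds_one_iff.1 hp.1 with hc | hc
    · have h6 := EA_sgZ hc hy k
      refine ⟨lE i k p, ?_, ?_, by rw [h5]; exact EvEq.refl _⟩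
      · unfold lE
        rw [h6, ha]
        refine ⟨MvPolynomial.C (lam i p) * (MvPolynomial.C a +
          (MvPolynomial.C wA - MvPolynomial.X y) *
            MvPolynomial.C (iwA * (ZA * qA ^ k y * geoA))), ?_⟩
        rw [pow_succ]
        unfold qA
        simp only [map_mul]
        ring
      · unfold lE
        rw [h6]
        exact mul_mem (cm _) (add_mem (cm _) (mul_mem (sub_mem (cm _) x1) (cm _)))
    · have h6 := EA_sgX hc hy k
      refine ⟨lE i k p, ?_, ?_, by rw [h5]; exact EvEq.refl _⟩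
      · unfold lE
        rw [h6, ha]
        refine ⟨MvPolynomial.C (lam i p) * (MvPolynomial.C a +
          MvPolynomial.X y * MvPolynomial.C (ZA * qA ^ k y * geoA)), ?_⟩
        rw [pow_succ]
        unfold qA
        simp only [map_mul]
        ring
      · unfold lE
        rw [h6]
        exact mul_mem (cm _) (add_mem (cm _) (mul_mem x1 (cm _)))

/-- the polynomial of an item -/
noncomputable def rI (i : ℕ) (k : α → ℕ) (j : (α × α) ⊕ α) : MvPolynomial α AA :=
  pick (iprod i k j) (isp i j)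

lemma Mat.rI_spec (hg : Grad α) (m : Mat α i) (k : α → ℕ) {j : (α × α) ⊕ α} (h : j ∈ m.J) :
    MvPolynomial.C wA ∣ rI i k j ∧
      rI i k j ∈ MvPolynomial.supported AA (isp i j : Set α) ∧
      EvEq wA (iprod i k j) (1 + rI i k j) := pick_spec (m.exists_rho hg k h)

lemma Mat.rI_congr (hg : Grad α) (m : Mat α i) {k k' : α → ℕ} {j : (α × α) ⊕ α} (h : j ∈ m.J)
    (hk : ∀ y ∈ isp i j, k y = k' y) : rI i k j = rI i k' j := by
  have h1 : iprod i k j = iprod i k' j := by
    unfold iprod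
    apply prod_congr rfl
    intro p hp
    rw [lE_congr fun y hy => hk y (by rwa [m.bd_imem hg h hp] at hy)]
  unfold rI
  rw [h1]

/-! ### the clusters -/

/-- a division of the unmatched elements into clusters `P s` with vertices `T s` and factors
`F s + g s` -/
structure Mat.Div (m : Mat α i) {σ : Type} (C : Finset σ) (P : σ → Finset α) (T : σ → Finset α)
    (F g : σ → MvPolynomial α AA) : Prop where
  cover : C.biUnion P = m.Xn ∪ m.Zl
  sub : ∀ s ∈ C, ∀ p ∈ P s, bd i p ⊆ T s
  Td : ∀ s ∈ C, ∀ t ∈ C, s ≠ t → Disjoint (T s) (T t)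
  Tn : ∀ s ∈ C, (T s).Nonempty
  Fs : ∀ s ∈ C, F s ∈ MvPolynomial.supported AA (T s : Set α)
  gs : ∀ s ∈ C, g s ∈ MvPolynomial.supported AA (T s : Set α)
  F1 : ∀ s ∈ C, Ev wA (F s) = 1
  gw : ∀ s ∈ C, MvPolynomial.C wA ∣ g s
  eq : ∀ s ∈ C, EvEq wA (∏ p ∈ P s, (1 + lE i 0 p)) (F s + g s)

variable {m : Mat α i} {σ : Type} {C : Finset σ} {P : σ → Finset α} {T : σ → Finset α}
  {F g : σ → MvPolynomial α AA}

namespace Mat.Div

lemma mem_un (D : m.Div C P T F g) {s : σ} (hs : s ∈ C) {p : α} (hp : p ∈ P s) :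
    p ∈ m.Xn ∪ m.Zl := by
  rw [← D.cover, mem_biUnion]
  exact ⟨s, hs, hp⟩

lemma card_bd (D : m.Div C P T F g) {s : σ} (hs : s ∈ C) {p : α} (hp : p ∈ P s) :
    (bd i p).card = 2 := by
  have h := D.mem_un hs hp
  rw [mem_union] at h
  rcases h with h | h
  · exact (Mat.mem_Xn.1 h).2.1
  · exact (Mat.mem_Zl.1 h).2.1

lemma mem_N1 (D : m.Div C P T F g) {s : σ} (hs : s ∈ C) {p : α} (hp : p ∈ P s) :
    p ∈ N1 α i := by
  have h := D.mem_un hs hp
  rw [Pool.Gauss.mem_N1]
  rw [mem_union] at h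
  rcases h with h | h
  · exact ds_one_iff.2 (Or.inr (Mat.mem_Xn.1 h).1)
  · exact ds_one_iff.2 (Or.inl (Mat.mem_Zl.1 h).1)

lemma bd_nonempty (D : m.Div C P T F g) {s : σ} (hs : s ∈ C) {p : α} (hp : p ∈ P s) :
    (bd i p).Nonempty := by
  rw [← card_pos, D.card_bd hs hp]
  exact Nat.two_pos

lemma Pd (D : m.Div C P T F g) : (C : Set σ).PairwiseDisjoint P := by
  intro s hs t ht hne
  rw [Function.onFun, Finset.disjoint_left]
  intro p hp hp'
  obtain ⟨y, hy⟩ := D.bd_nonempty hs hp
  exact Finset.disjoint_left.1 (D.Td s hs t ht hne) (D.sub s hs p hp hy) (D.sub t ht p hp' hy)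

/-- regrouping -/
lemma prod_div (D : m.Div C P T F g) (hg : Grad α) (hl : HasLower α i)
    (hdeg : ∀ p : α, (bd i p).card ≤ 2) {R : Type} [CommMonoid R] (f : α → R) :
    ∏ p ∈ N1 α i, f p = (∏ j ∈ m.J, ∏ p ∈ imem j, f p) * ∏ s ∈ C, ∏ p ∈ P s, f p := by
  have h1 : ∏ s ∈ C, ∏ p ∈ P s, f p = (∏ p ∈ m.Xn, f p) * ∏ p ∈ m.Zl, f p := by
    rw [← prod_biUnion D.Pd, D.cover, prod_union]
    rw [Finset.disjoint_left]
    intro p hp hp'
    have h1 := (Mat.mem_Xn.1 hp).1
    have h2 := (Mat.mem_Zl.1 hp').1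
    omega
  have h2 : ∏ j ∈ m.J, ∏ p ∈ imem j, f p =
      (∏ e ∈ m.M, f e.1 * f e.2) * ∏ p ∈ Sg α i, f p := by
    unfold Mat.J
    rw [prod_disjSum]
    congr 1
    · apply prod_congr rfl
      intro e he
      have hne' : e.1 ≠ e.2 := by
        intro h5
        have h6 := m.cz e he
        have h7 := m.cx e he
        rw [h5] at h6
        omega
      simp only [imem]
      rw [prod_pair hne']
    · apply prod_congr rfl
      intro p _
      simp only [imem]
      rw [prod_singleton]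
  rw [prod_N1 hg hl hdeg m f, h1, h2, mul_assoc]

end Mat.Div

/-! ### frames -/

/-- the vertices touched by a frame -/
noncomputable def fS (i : ℕ) (k : α → ℕ) (A : Finset α) : Finset α :=
  (lev α i).filter (fun y => k y ≠ 0) ∪ A.biUnion (bd i)

/-- the forced items -/
noncomputable def Mat.sJ (m : Mat α i) (A : Finset α) : Finset ((α × α) ⊕ α) :=
  m.J.filter fun j => ¬ Disjoint (imem j) A

/-- the polynomial of a frame -/
noncomputable def Mat.fP (m : Mat α i) {σ : Type} (C : Finset σ) (P T : σ → Finset α)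
    (k : α → ℕ) (A : Finset α) : MvPolynomial α AA :=
  (∏ j ∈ m.sJ A, forced (imem j) (lE i k) A) *
    ∏ s ∈ tch C T (fS i k A), forced (P s) (lE i k) A

/-- the items in a frame -/
noncomputable def fr' (i : ℕ) (k : α → ℕ) (A : Finset α) (j : (α × α) ⊕ α) :
    MvPolynomial α AA := if Disjoint (imem j) A then rI i k j else 0

lemma forced_of_disj {β R : Type} [CommRing R] {I A : Finset β} {E : β → R} (h : Disjoint I A) :
    forced I E A = ∏ p ∈ I, (1 + E p) := by
  unfold forced
  apply prod_congr rfl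
  intro p hp
  rw [if_neg (Finset.disjoint_left.1 h hp)]

namespace Mat.Div

lemma forced_rest (D : m.Div C P T F g) {k : α → ℕ} (hk : ∀ y, k y ≠ 0 → y ∈ lev α i)
    {A : Finset α} {s : σ} (hs : s ∈ C)
    (hn : s ∉ tch C T (fS i k A)) :
    forced (P s) (lE i k) A = ∏ p ∈ P s, (1 + lE i 0 p) := by
  have h1 : Disjoint (T s) (fS i k A) := by
    by_contra h
    exact hn (mem_filter.2 ⟨hs, h⟩)
  have h2 : Disjoint (P s) A := by
    rw [Finset.disjoint_left]
    intro p hp hpA
    obtain ⟨y, hy⟩ := D.bd_nonempty hs hp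
    refine Finset.disjoint_left.1 h1 (D.sub s hs p hp hy) ?_
    unfold fS
    rw [mem_union, mem_biUnion]
    exact Or.inr ⟨p, hpA, hy⟩
  rw [forced_of_disj h2]
  apply prod_congr rfl
  intro p hp
  rw [lE_congr (k' := 0)]
  intro y hy
  by_contra h3
  refine Finset.disjoint_left.1 h1 (D.sub s hs p hp hy) ?_
  unfold fS
  rw [mem_union, mem_filter]
  exact Or.inl ⟨hk y h3, h3⟩

/-- **the value of a frame** as a product over items and clusters -/
theorem ev_forced (D : m.Div C P T F g) (hg : Grad α) (hl : HasLower α i)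
    (hdeg : ∀ p : α, (bd i p).card ≤ 2) {k : α → ℕ} (hk : ∀ y, k y ≠ 0 → y ∈ lev α i)
    (A : Finset α) : Ev wA (forced (N1 α i) (lE i k) A) =
      Ev wA (m.fP C P T k A * ((∏ s ∈ C \ tch C T (fS i k A), (F s + g s)) *
        ∏ j ∈ m.J, (1 + fr' i k A j))) := by
  have h1 : forced (N1 α i) (lE i k) A = (∏ j ∈ m.J, forced (imem j) (lE i k) A) *
      ∏ s ∈ C, forced (P s) (lE i k) A := by
    unfold forced
    exact D.prod_div hg hl hdeg _
  have h2 : ∏ j ∈ m.J, forced (imem j) (lE i k) A =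
      (∏ j ∈ m.sJ A, forced (imem j) (lE i k) A) *
        ∏ j ∈ m.J.filter (fun j => Disjoint (imem j) A), iprod i k j := by
    rw [← prod_filter_mul_prod_filter_not m.J (fun j => Disjoint (imem j) A), mul_comm]
    congr 1
    apply prod_congr rfl
    intro j hj
    rw [forced_of_disj (mem_filter.1 hj).2]
    rfl
  have h3 : ∏ s ∈ C, forced (P s) (lE i k) A =
      (∏ s ∈ tch C T (fS i k A), forced (P s) (lE i k) A) *
        ∏ s ∈ C \ tch C T (fS i k A), ∏ p ∈ P s, (1 + lE i 0 p) := by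
    rw [← prod_sdiff (filter_subset (fun s => ¬ Disjoint (T s) (fS i k A)) C), mul_comm]
    congr 1
    apply prod_congr rfl
    intro s hs
    rw [mem_sdiff] at hs
    exact D.forced_rest hk hs.1 hs.2
  have h4 : EvEq wA (∏ j ∈ m.J.filter (fun j => Disjoint (imem j) A), iprod i k j)
      (∏ j ∈ m.J, (1 + fr' i k A j)) := by
    have h5 : ∏ j ∈ m.J, (1 + fr' i k A j) =
        ∏ j ∈ m.J.filter (fun j => Disjoint (imem j) A), (1 + rI i k j) := by
      rw [prod_filter]
      apply prod_congr rfl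
      intro j _
      unfold fr'
      split_ifs
      · rfl
      · rw [add_zero]
    rw [h5]
    exact EvEq.prod fun j hj => (m.rI_spec hg k (mem_filter.1 hj).1).2.2
  have h5 : EvEq wA (∏ s ∈ C \ tch C T (fS i k A), ∏ p ∈ P s, (1 + lE i 0 p))
      (∏ s ∈ C \ tch C T (fS i k A), (F s + g s)) :=
    EvEq.prod fun s hs => D.eq s (mem_sdiff.1 hs).1
  rw [h1, h2, h3]
  refine EvEq.ev ?_
  refine EvEq.trans (EvEq.of_eq ?_) (((h5.mul h4).mul_left (m.fP C P T k A)))
  unfold Mat.fP
  ring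

/-- without a frame -/
theorem ev_zero (D : m.Div C P T F g) (hg : Grad α) (hl : HasLower α i)
    (hdeg : ∀ p : α, (bd i p).card ≤ 2) :
    Ev wA (∏ p ∈ N1 α i, (1 + lE i 0 p)) =
      Ev wA ((∏ s ∈ C, (F s + g s)) * ∏ j ∈ m.J, (1 + rI i 0 j)) := by
  have h := D.ev_forced hg hl hdeg (k := 0) (fun y hy => absurd rfl hy) ∅
  rw [forced_empty] at h
  rw [h]
  have h1 : fS i (0 : α → ℕ) ∅ = ∅ := by
    unfold fS
    rw [biUnion_empty, union_empty]
    apply filter_false_of_mem
    intro y _ h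
    exact h rfl
  have h2 : tch C T ∅ = ∅ := by
    unfold tch
    apply filter_false_of_mem
    intro s _ h
    exact h (disjoint_empty_right _)
  have h3 : m.sJ ∅ = ∅ := by
    unfold Mat.sJ
    apply filter_false_of_mem
    intro s _ h
    exact h (disjoint_empty_right _)
  have h4 : ∀ j : (α × α) ⊕ α, fr' i 0 ∅ j = rI i 0 j := by
    intro j
    unfold fr'
    rw [if_pos (disjoint_empty_right _)]
  have h5 : m.fP C P T 0 ∅ = 1 := by
    unfold Mat.fP
    rw [h1, h2, h3, prod_empty, prod_empty, mul_one]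
  rw [h5, h1, h2, sdiff_empty, one_mul]
  simp only [h4]

end Mat.Div

end Pool.Gauss
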