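import Pool.Agent.Work.MP_065141_co.K.ChainEv
import Pool.Agent.Work.MP_065141_co.K.EvEq
import Pool.Agent.Work.MP_065141_co.K.MatchP

/-!
# Signed matching polynomials and the functional of a row at `w = 0`

`Ev 0 ((∏ v ∈ S, a_v) * ∏ g, (1 + W g X a_g)) = (-1) ^ |S| * MP W (U \ S)`, the product over the
two-element subsets `g` of `U`.
-/

set_option autoImplicit false
set_option linter.unusedSectionVars false
open scoped Classical
open Finset

namespace Pool.Gauss

variable {V : Type}

open MvPolynomial in
/-- the product of the variables of a set -/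
noncomputable def mono {A : Type} [CommRing A] (S : Finset V) : MvPolynomial V A := ∏ v ∈ S, X v

open MvPolynomial in
/-- the factor of a pair -/
noncomputable def pf (W : Finset V → ℤ) (g : Finset V) : MvPolynomial V (Polynomial ℤ) :=
  1 + C (Polynomial.C (W g) * Polynomial.X) * mono g

/-- the product over all pairs -/
noncomputable def Phi (W : Finset V → ℤ) (U : Finset V) : MvPolynomial V (Polynomial ℤ) :=
  ∏ g ∈ U.powersetCard 2, pf W g

lemma mono_union {A : Type} [CommRing A] {S T : Finset V} (h : Disjoint S T) :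
    (mono (S ∪ T) : MvPolynomial V A) = mono S * mono T := by
  rw [mono, prod_union h]
  rfl

lemma mono_mul_X {A : Type} [CommRing A] {S T : Finset V} {v : V} (hS : v ∈ S) (hT : v ∈ T)
    (R : MvPolynomial V A) : Ev (0 : A) (mono S * mono T * R) = 0 := by
  have h1 : (mono S : MvPolynomial V A) = MvPolynomial.X v * mono (S.erase v) := by
    rw [mono, mono, mul_prod_erase S _ hS]
  have h2 : (mono T : MvPolynomial V A) = MvPolynomial.X v * mono (T.erase v) := by
    rw [mono, mono, mul_prod_erase T _ hT]
  have h3 : (mono S * mono T * R : MvPolynomial V A) =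
      MvPolynomial.X v ^ 2 * (mono (S.erase v) * mono (T.erase v) * R) := by
    rw [h1, h2]
    ring
  rw [h3, Ev0_X_sq_mul]

lemma Ev0_mono {A : Type} [CommRing A] (S : Finset V) :
    Ev (0 : A) (mono S : MvPolynomial V A) = (-1) ^ S.card := by
  rw [mono, Ev_prod_X, zero_sub]

/-- the functional on a product of monomials of pairs -/
lemma Ev0_mono_prod {A : Type} [CommRing A] (S : Finset V) (F : Finset (Finset V))
    (hF : ∀ g ∈ F, g.card = 2) :
    Ev (0 : A) (mono S * ∏ g ∈ F, mono g : MvPolynomial V A) =
      if (∀ g ∈ F, Disjoint g S) ∧ (∀ g ∈ F, ∀ g' ∈ F, g ≠ g' → Disjoint g g') then (-1) ^ S.card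
      else 0 := by
  induction F using Finset.induction_on generalizing S with
  | empty =>
    rw [prod_empty, mul_one, Ev0_mono, if_pos]
    exact ⟨fun g hg => absurd hg (notMem_empty g), fun g hg => absurd hg (notMem_empty g)⟩
  | insert g F hg ih =>
    rw [prod_insert hg]
    have hF' : ∀ g' ∈ F, g'.card = 2 := fun g' hg' => hF g' (mem_insert_of_mem hg')
    have hgc : g.card = 2 := hF g (mem_insert_self g F)
    by_cases hd : Disjoint S g
    · rw [← mul_assoc, ← mono_union hd, ih (S ∪ g) hF', card_union_of_disjoint hd, hgc, pow_add]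
      have e1 : ((-1 : A) ^ 2) = 1 := by norm_num
      rw [e1, mul_one]
      congr 1
      apply propext
      constructor
      · rintro ⟨h1, h2⟩
        constructor
        · intro g' hg'
          rw [mem_insert] at hg'
          rcases hg' with rfl | hg'
          · exact hd.symm
          · exact (disjoint_union_right.1 (h1 g' hg')).1
        · intro a ha b hb hab
          rw [mem_insert] at ha hb
          rcases ha with rfl | ha
          · rcases hb with rfl | hb
            · exact absurd rfl hab
            · exact (disjoint_union_right.1 (h1 b hb)).2.symm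
          · rcases hb with rfl | hb
            · exact (disjoint_union_right.1 (h1 a ha)).2
            · exact h2 a ha b hb hab
      · rintro ⟨h1, h2⟩
        constructor
        · intro g' hg'
          rw [disjoint_union_right]
          refine ⟨h1 g' (mem_insert_of_mem hg'), ?_⟩
          apply h2 g' (mem_insert_of_mem hg') g (mem_insert_self g F)
          rintro rfl
          exact hg hg'
        · exact fun a ha b hb => h2 a (mem_insert_of_mem ha) b (mem_insert_of_mem hb)
    · rw [← mul_assoc, if_neg]
      · obtain ⟨v, hv1, hv2⟩ := not_disjoint_iff.1 hd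
        exact mono_mul_X hv1 hv2 _
      · rintro ⟨h1, _⟩
        exact hd (h1 g (mem_insert_self g F)).symm

/-- **matching polynomials as values of the functional** -/
theorem MP_Ev (W : Finset V → ℤ) (U S : Finset V) :
    Ev (0 : Polynomial ℤ) (mono S * Phi W U) = (-1) ^ S.card * MP W (U \ S) := by
  have h1 : Phi W U = ∑ F ∈ (U.powersetCard 2).powerset,
      MvPolynomial.C (Polynomial.C (∏ s ∈ F, W s) * Polynomial.X ^ F.card) * ∏ g ∈ F, mono g := by
    rw [Phi]
    simp only [pf]
    rw [prod_one_add]
    apply sum_congr rfl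
    intro F _
    rw [prod_mul_distrib, ← map_prod, prod_mul_distrib, prod_const, ← map_prod]
  rw [h1, mul_sum, map_sum, MP, mul_sum]
  have h2 : ∀ F ∈ (U.powersetCard 2).powerset, Ev (0 : Polynomial ℤ) (mono S *
      (MvPolynomial.C (Polynomial.C (∏ s ∈ F, W s) * Polynomial.X ^ F.card) * ∏ g ∈ F, mono g)) =
      if F ∈ mtc (U \ S) then
        (-1) ^ S.card * (Polynomial.C (∏ s ∈ F, W s) * Polynomial.X ^ F.card) else 0 := by
    intro F hF
    rw [mem_powerset] at hF
    rw [mul_left_comm, Ev_C_mul, Ev0_mono_prod S F fun g hg => (mem_powersetCard.1 (hF hg)).2]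
    have h3 : ((∀ g ∈ F, Disjoint g S) ∧ (∀ g ∈ F, ∀ g' ∈ F, g ≠ g' → Disjoint g g')) ↔
        F ∈ mtc (U \ S) := by
      rw [mem_mtc]
      constructor
      · rintro ⟨h4, h5⟩
        exact ⟨fun g hg => ⟨subset_sdiff.2 ⟨(mem_powersetCard.1 (hF hg)).1, h4 g hg⟩,
          (mem_powersetCard.1 (hF hg)).2⟩, h5⟩
      · rintro ⟨h4, h5⟩
        exact ⟨fun g hg => (subset_sdiff.1 (h4 g hg).1).2, h5⟩
    by_cases h6 : F ∈ mtc (U \ S)
    · rw [if_pos (h3.2 h6), if_pos h6]
      ring
    · rw [if_neg (fun h => h6 (h3.1 h)), if_neg h6, mul_zero]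
  rw [sum_congr rfl h2, ← sum_filter]
  apply sum_congr _ fun _ _ => rfl
  ext F
  rw [mem_filter, mem_powerset]
  constructor
  · exact fun h => h.2
  · intro h
    refine ⟨fun g hg => ?_, h⟩
    have := (mem_mtc.1 h).1 g hg
    exact mem_powersetCard.2 ⟨this.1.trans sdiff_subset, this.2⟩

lemma MP_Ev' (W : Finset V → ℤ) (U S : Finset V) :
    MP W (U \ S) = (-1) ^ S.card * Ev (0 : Polynomial ℤ) (mono S * Phi W U) := by
  rw [MP_Ev, ← mul_assoc, ← pow_add, ← two_mul, pow_mul]
  norm_num

/-! ### an excited vertex -/

open MvPolynomial in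
/-- the factor of a pair if the vertex `v` is excited -/
noncomputable def pfe (W : Finset V → ℤ) (v : V) (g : Finset V) : MvPolynomial V (Polynomial ℤ) :=
  1 + C (Polynomial.C (W g) * Polynomial.X) * mono (g.erase v)

/-- the product over all pairs if the vertex `v` is excited -/
noncomputable def PhiE (W : Finset V → ℤ) (U : Finset V) (v : V) :
    MvPolynomial V (Polynomial ℤ) :=
  ∏ g ∈ U.powersetCard 2, pfe W v g

lemma pfe_notMem {W : Finset V → ℤ} {v : V} {g : Finset V} (h : v ∉ g) : pfe W v g = pf W g := by
  rw [pfe, pf, erase_eq_of_notMem h]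

/-- the polynomial of an excited vertex -/
noncomputable def QU (W : Finset V → ℤ) (U : Finset V) (v : V) : Polynomial ℤ :=
  ∑ N ∈ (U.erase v).powerset, (∏ x ∈ N, (-(Polynomial.C (W {v, x}) * Polynomial.X))) *
    MP W (U \ insert v N)

/-- **the polynomial of an excited vertex as a value of the functional** -/
theorem QU_Ev (W : Finset V → ℤ) {U : Finset V} {v : V} (hv : v ∈ U) :
    Ev (0 : Polynomial ℤ) (PhiE W U v) = QU W U v := by
  have h1 : U.powersetCard 2 = (U.erase v).powersetCard 2 ∪ (U.erase v).image fun x => {v, x} := by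
    ext g
    rw [mem_union, mem_image, mem_powersetCard, mem_powersetCard]
    constructor
    · rintro ⟨h2, h3⟩
      by_cases h4 : v ∈ g
      · right
        obtain ⟨a, b, hab, rfl⟩ := card_eq_two.1 h3
        rw [mem_insert, mem_singleton] at h4
        rcases h4 with rfl | rfl
        · exact ⟨b, mem_erase.2 ⟨hab.symm, h2 (by simp)⟩, rfl⟩
        · exact ⟨a, mem_erase.2 ⟨hab, h2 (by simp)⟩, by rw [pair_comm]⟩
      · left
        exact ⟨subset_erase.2 ⟨h2, h4⟩, h3⟩
    · rintro (⟨h2, h3⟩ | ⟨x, hx, rfl⟩)
      · exact ⟨h2.trans (erase_subset _ _), h3⟩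
      · rw [mem_erase] at hx
        refine ⟨?_, card_pair hx.1.symm⟩
        intro z hz
        rw [mem_insert, mem_singleton] at hz
        rcases hz with rfl | rfl
        · exact hv
        · exact hx.2
  have hd : Disjoint ((U.erase v).powersetCard 2) ((U.erase v).image fun x => {v, x}) := by
    rw [Finset.disjoint_left]
    intro g hg hg'
    rw [mem_image] at hg'
    obtain ⟨x, hx, rfl⟩ := hg'
    have := (mem_powersetCard.1 hg).1 (mem_insert_self v {x})
    exact notMem_erase v U this
  have hinj : ∀ x ∈ U.erase v, ∀ x' ∈ U.erase v, ({v, x} : Finset V) = {v, x'} → x = x' := by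
    intro x hx x' hx' h
    rw [mem_erase] at hx hx'
    have h2 : x ∈ ({v, x'} : Finset V) := by rw [← h]; simp
    rw [mem_insert, mem_singleton] at h2
    rcases h2 with h2 | h2
    · exact absurd h2 hx.1
    · exact h2
  have h2 : PhiE W U v = (∏ x ∈ U.erase v,
      (1 + MvPolynomial.C (Polynomial.C (W {v, x}) * Polynomial.X) * mono {x})) *
      Phi W (U.erase v) := by
    have e1 : ∏ x ∈ U.erase v, pfe W v {v, x} = ∏ x ∈ U.erase v,
        (1 + MvPolynomial.C (Polynomial.C (W {v, x}) * Polynomial.X) * mono {x}) := by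
      apply prod_congr rfl
      intro x hx
      rw [mem_erase] at hx
      have h3 : ({v, x} : Finset V).erase v = {x} :=
        erase_insert (by rw [mem_singleton]; exact hx.1.symm)
      rw [pfe, h3]
    have e2 : ∏ g ∈ (U.erase v).powersetCard 2, pfe W v g = Phi W (U.erase v) := by
      rw [Phi]
      apply prod_congr rfl
      intro g hg
      apply pfe_notMem
      intro h
      exact notMem_erase v U ((mem_powersetCard.1 hg).1 h)
    have e3 : ∏ g ∈ (U.erase v).image (fun x => ({v, x} : Finset V)), pfe W v g =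
        ∏ x ∈ U.erase v, pfe W v {v, x} :=
      prod_image (fun x hx x' hx' h => hinj x (mem_coe.1 hx) x' (mem_coe.1 hx') h)
    rw [PhiE, h1, prod_union hd, e3, e1, e2]
    exact mul_comm _ _
  rw [h2, prod_one_add, sum_mul, map_sum, QU]
  apply sum_congr rfl
  intro N hN
  rw [mem_powerset] at hN
  have h3 : (∏ x ∈ N, MvPolynomial.C (Polynomial.C (W {v, x}) * Polynomial.X) * mono {x} :
      MvPolynomial V (Polynomial ℤ)) =
      MvPolynomial.C (∏ x ∈ N, (Polynomial.C (W {v, x}) * Polynomial.X)) * mono N := by
    rw [prod_mul_distrib, ← map_prod]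
    congr 1
    rw [mono]
    apply prod_congr rfl
    intro x _
    rw [mono, prod_singleton]
  have h4 : U \ insert v N = U.erase v \ N := by
    ext z
    simp only [mem_sdiff, mem_insert, mem_erase, not_or]
    tauto
  rw [h3, mul_assoc, Ev_C_mul, MP_Ev, h4, prod_neg]
  ring

end Pool.Gauss
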