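import Mathlib

/-!
# Resummation of the elements with one nearer neighbour

`I` is a finite set of items with local factors `1 + E p`. A configuration is a set `T` of
elements of `D`; it forces the factors `E p` (instead of `1 + E p`) for `p` in `b u`, `u ∈ T`.
The elements `u` with `b u` a singleton are summed exactly: `E p` is replaced by
`∏ (1 + x u) * E p`, the product over the `u` above `p`.
-/

set_option autoImplicit false
set_option linter.unusedSectionVars false
open scoped Classical
open Finset

namespace Pool.Gauss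

section alg

variable {R β δ : Type} [CommRing R]

/-- the product of the local factors `1 + E p`, with the factor `E p` for `p ∈ A` -/
noncomputable def forced (I : Finset β) (E : β → R) (A : Finset β) : R :=
  ∏ p ∈ I, if p ∈ A then E p else 1 + E p

lemma forced_empty (I : Finset β) (E : β → R) : forced I E ∅ = ∏ p ∈ I, (1 + E p) := by
  unfold forced
  exact prod_congr rfl fun p _ => if_neg (notMem_empty p)

lemma forced_eq {I : Finset β} {E : β → R} {A : Finset β} (hA : A ⊆ I) :
    forced I E A = (∏ p ∈ A, E p) * ∏ p ∈ I \ A, (1 + E p) := by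
  unfold forced
  rw [← Finset.prod_sdiff hA, mul_comm]
  congr 1
  · exact prod_congr rfl fun p hp => if_pos hp
  · exact prod_congr rfl fun p hp => if_neg (mem_sdiff.1 hp).2

lemma forced_congr {I : Finset β} {E E' : β → R} {A : Finset β} (h : ∀ p ∈ I, E p = E' p) :
    forced I E A = forced I E' A := by
  unfold forced
  exact prod_congr rfl fun p hp => by rw [h p hp]

lemma forced_insert (I : Finset β) (E : β → R) (A : Finset β) {p : β} (hp : p ∈ I) (x : R) :
    forced I E A + x * forced I E (insert p A) =
      forced I (Function.update E p ((1 + x) * E p)) A := by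
  unfold forced
  rw [← mul_prod_erase I _ hp, ← mul_prod_erase I _ hp, ← mul_prod_erase I _ hp]
  have h1 : ∏ r ∈ I.erase p, (if r ∈ insert p A then E r else 1 + E r) =
      ∏ r ∈ I.erase p, (if r ∈ A then E r else 1 + E r) := by
    apply prod_congr rfl
    intro r hr
    have hr' := (mem_erase.1 hr).1
    simp [mem_insert, hr']
  have h2 : ∏ r ∈ I.erase p, (if r ∈ A then Function.update E p ((1 + x) * E p) r else
      1 + Function.update E p ((1 + x) * E p) r) =
      ∏ r ∈ I.erase p, (if r ∈ A then E r else 1 + E r) := by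
    apply prod_congr rfl
    intro r hr
    have hr' := (mem_erase.1 hr).1
    rw [Function.update_of_ne hr']
  rw [h1, h2, Function.update_self, if_pos (mem_insert_self p A)]
  split_ifs <;> ring

/-- **exact resummation**: the elements `u ∈ D1` with `b u = {r u}` -/
theorem resum_exact (I : Finset β) (D1 D2 : Finset δ) (hd : Disjoint D1 D2)
    (b : δ → Finset β) (r : δ → β) (x : δ → R)
    (hr : ∀ u ∈ D1, b u = {r u} ∧ r u ∈ I) (E : β → R) :
    ∑ T ∈ (D1 ∪ D2).powerset, (∏ u ∈ T, x u) * forced I E (T.biUnion b) =
      ∑ T ∈ D2.powerset, (∏ u ∈ T, x u) *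
        forced I (fun p => (∏ u ∈ D1.filter (fun u => r u = p), (1 + x u)) * E p)
          (T.biUnion b) := by
  induction D1 using Finset.induction_on generalizing E with
  | empty => simp
  | insert u D1 hu ih =>
    have hd' : Disjoint D1 D2 := disjoint_of_subset_left (subset_insert u D1) hd
    have huD : u ∉ D1 ∪ D2 := by
      rw [mem_union]
      rintro (h | h)
      · exact hu h
      · exact (Finset.disjoint_left.1 hd) (mem_insert_self u D1) h
    obtain ⟨hb, hI⟩ := hr u (mem_insert_self u D1)
    rw [insert_union, sum_powerset_insert huD, ← sum_add_distrib]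
    have h1 : ∀ T ∈ (D1 ∪ D2).powerset,
        (∏ v ∈ T, x v) * forced I E (T.biUnion b) +
          (∏ v ∈ insert u T, x v) * forced I E ((insert u T).biUnion b) =
        (∏ v ∈ T, x v) * forced I (Function.update E (r u) ((1 + x u) * E (r u)))
          (T.biUnion b) := by
      intro T hT
      rw [mem_powerset] at hT
      have huT : u ∉ T := fun h => huD (hT h)
      rw [prod_insert huT, biUnion_insert, hb, ← forced_insert I E (T.biUnion b) hI (x u)]
      have h2 : ({r u} : Finset β) ∪ T.biUnion b = insert (r u) (T.biUnion b) := rfl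
      rw [h2]
      ring
    rw [sum_congr rfl h1, ih hd' (fun v hv => hr v (mem_insert_of_mem hv))]
    apply sum_congr rfl
    intro T _
    congr 1
    apply forced_congr
    intro p _
    rw [filter_insert]
    by_cases hp : r u = p
    · rw [if_pos hp, prod_insert (fun h => hu (mem_filter.1 h).1), ← hp, Function.update_self]
      ring
    · rw [if_neg hp, Function.update_of_ne (fun h => hp h.symm)]

/-! ### truncation -/

/-- truncation of a sum over sets after the sets with two elements -/
theorem trunc3 (D : Finset δ) (f : Finset δ → R) (q : R) (h : δ → R) :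
    ∃ R' : R, ∑ T ∈ D.powerset, (∏ u ∈ T, (q * (1 + q * h u))) * f T =
      f ∅ + ∑ u ∈ D, (q * (1 + q * h u)) * f {u} + q ^ 2 * ∑ T ∈ D.powersetCard 2, f T +
        q ^ 3 * R' := by
  have key : ∀ T : Finset δ, ∃ S : R, (∏ u ∈ T, (q * (1 + q * h u))) * f T =
      if T.card = 0 then f T else if T.card = 1 then (∏ u ∈ T, (q * (1 + q * h u))) * f T else
      if T.card = 2 then q ^ 2 * f T + q ^ 3 * S else q ^ 3 * S := by
    intro T
    by_cases h0 : T.card = 0
    · refine ⟨0, ?_⟩
      rw [if_pos h0, card_eq_zero.1 h0]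
      simp
    · by_cases h1 : T.card = 1
      · exact ⟨0, by rw [if_neg h0, if_pos h1]⟩
      · by_cases h2 : T.card = 2
        · obtain ⟨u, v, huv, rfl⟩ := card_eq_two.1 h2
          refine ⟨(h u + h v + q * h u * h v) * f {u, v}, ?_⟩
          rw [if_neg h0, if_neg h1, if_pos h2, prod_pair huv]
          ring
        · have h3 : 3 ≤ T.card := by omega
          refine ⟨q ^ (T.card - 3) * (∏ u ∈ T, (1 + q * h u)) * f T, ?_⟩
          rw [if_neg h0, if_neg h1, if_neg h2, prod_mul_distrib, prod_const]
          have h4 : q ^ T.card = q ^ 3 * q ^ (T.card - 3) := by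
            rw [← pow_add]
            congr 1
            omega
          rw [h4]
          ring
  choose S hS using key
  refine ⟨∑ T ∈ D.powerset, (if 2 ≤ T.card then S T else 0), ?_⟩
  rw [sum_congr rfl fun T _ => hS T]
  have h5 : ∀ T : Finset δ, (if T.card = 0 then f T else if T.card = 1 then
      (∏ u ∈ T, (q * (1 + q * h u))) * f T else
      if T.card = 2 then q ^ 2 * f T + q ^ 3 * S T else q ^ 3 * S T) =
      (if T.card = 0 then f T else 0) +
      (if T.card = 1 then (∏ u ∈ T, (q * (1 + q * h u))) * f T else 0) +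
      q ^ 2 * (if T.card = 2 then f T else 0) + q ^ 3 * (if 2 ≤ T.card then S T else 0) := by
    intro T
    by_cases h0 : T.card = 0
    · simp [h0]
    · by_cases h1 : T.card = 1
      · simp [h1]
      · by_cases h2 : T.card = 2
        · simp [h2]
        · rw [if_neg h0, if_neg h1, if_neg h2, if_neg h0, if_neg h1, if_neg h2,
            if_pos (by omega)]
          ring
  rw [sum_congr rfl fun T _ => h5 T, sum_add_distrib, sum_add_distrib, sum_add_distrib,
    ← mul_sum, ← mul_sum]
  have g0 : ∑ T ∈ D.powerset, (if T.card = 0 then f T else 0) = f ∅ := by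
    rw [Finset.sum_eq_single ∅]
    · simp
    · intro T _ hT
      rw [if_neg]
      intro h
      exact hT (card_eq_zero.1 h)
    · intro h
      exact absurd (empty_mem_powerset D) h
  have g1 : ∑ T ∈ D.powerset, (if T.card = 1 then (∏ u ∈ T, (q * (1 + q * h u))) * f T else 0) =
      ∑ u ∈ D, (q * (1 + q * h u)) * f {u} := by
    rw [← sum_filter]
    have e : (D.powerset.filter fun T => T.card = 1) = D.powersetCard 1 := by
      ext T
      rw [mem_filter, mem_powerset, mem_powersetCard]
    rw [e, powersetCard_one, sum_map]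
    apply sum_congr rfl
    intro u _
    simp
  have g2 : ∑ T ∈ D.powerset, (if T.card = 2 then f T else 0) = ∑ T ∈ D.powersetCard 2, f T := by
    rw [← sum_filter]
    apply sum_congr _ fun _ _ => rfl
    ext T
    rw [mem_filter, mem_powerset, mem_powersetCard]
  rw [g0, g1, g2]

/-- **resummation modulo `q ^ 3`** -/
theorem resum3 (I : Finset β) (D1 D2 : Finset δ) (hd : Disjoint D1 D2)
    (b : δ → Finset β) (r : δ → β) (q : R) (h : δ → R)
    (hr : ∀ u ∈ D1, b u = {r u} ∧ r u ∈ I) (E : β → R) :
    ∃ R' : R, forced I E ∅ + ∑ u ∈ D1 ∪ D2, (q * (1 + q * h u)) * forced I E (b u) +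
        q ^ 2 * ∑ T ∈ (D1 ∪ D2).powersetCard 2, forced I E (T.biUnion b) =
      (∏ p ∈ I, (1 + (∏ u ∈ D1.filter (fun u => r u = p), (1 + q * (1 + q * h u))) * E p)) +
      ∑ u ∈ D2, (q * (1 + q * h u)) *
        forced I (fun p => (∏ u ∈ D1.filter (fun u => r u = p), (1 + q * (1 + q * h u))) * E p)
          (b u) +
      q ^ 2 * ∑ T ∈ D2.powersetCard 2,
        forced I (fun p => (∏ u ∈ D1.filter (fun u => r u = p), (1 + q * (1 + q * h u))) * E p)
          (T.biUnion b) + q ^ 3 * R' := by
  have e := resum_exact I D1 D2 hd b r (fun u => q * (1 + q * h u)) hr E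
  obtain ⟨R1, h1⟩ := trunc3 (D1 ∪ D2) (fun T => forced I E (T.biUnion b)) q h
  obtain ⟨R2, h2⟩ := trunc3 D2 (fun T => forced I
    (fun p => (∏ u ∈ D1.filter (fun u => r u = p), (1 + q * (1 + q * h u))) * E p)
      (T.biUnion b)) q h
  beta_reduce at e h1 h2
  rw [h1, h2] at e
  refine ⟨R2 - R1, ?_⟩
  simp only [biUnion_empty, singleton_biUnion] at e
  rw [forced_empty I (fun p => (∏ u ∈ D1.filter (fun u => r u = p),
    (1 + q * (1 + q * h u))) * E p)] at e
  linear_combination e

/-- the coefficient modulo `q ^ 3` -/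
lemma coef3 (S : Finset δ) (q : R) (h : δ → R) :
    ∃ R' : R, ∏ u ∈ S, (1 + q * (1 + q * h u)) =
      1 + (S.card : R) * q + ((S.card.choose 2 : ℕ) + ∑ u ∈ S, h u) * q ^ 2 + q ^ 3 * R' := by
  induction S using Finset.induction_on with
  | empty => exact ⟨0, by simp⟩
  | insert u S hu ih =>
    obtain ⟨R', hR⟩ := ih
    have h1 : (((S.card + 1).choose 2 : ℕ) : R) = (S.card : R) + ((S.card.choose 2 : ℕ) : R) := by
      rw [Nat.choose_succ_succ' S.card 1, Nat.choose_one_right]
      push_cast
      ring
    rw [prod_insert hu, hR, sum_insert hu, card_insert_of_notMem hu, h1]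
    refine ⟨R' * (1 + q * (1 + q * h u)) + ((S.card.choose 2 : ℕ) + ∑ v ∈ S, h v) +
      h u * (S.card : R) + q * h u * ((S.card.choose 2 : ℕ) + ∑ v ∈ S, h v), ?_⟩
    push_cast
    ring

end alg

end Pool.Gauss
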