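import Pool.Agent.Work.MP_065141_co.K.DeepE
import Pool.Agent.Work.MP_065141_co.K.Resum

/-!
# The model with the single far elements resummed
-/

set_option autoImplicit false
set_option linter.unusedSectionVars false
set_option linter.unusedVariables false
open scoped Classical
open Finset Polynomial

namespace Pool.Gauss

section alg

variable {R β : Type} [CommRing R]

lemma prod_dvd_sub {I : Finset β} {f g : β → R} {d : R} (h : ∀ p ∈ I, d ∣ f p - g p) :
    d ∣ ∏ p ∈ I, f p - ∏ p ∈ I, g p := by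
  induction I using Finset.induction_on with
  | empty => simp
  | insert p I hp ih =>
    rw [prod_insert hp, prod_insert hp]
    have h1 := ih fun r hr => h r (mem_insert_of_mem hr)
    have h2 := h p (mem_insert_self p I)
    have h3 : f p * ∏ r ∈ I, f r - g p * ∏ r ∈ I, g r =
        f p * (∏ r ∈ I, f r - ∏ r ∈ I, g r) + (f p - g p) * ∏ r ∈ I, g r := by
      ring
    rw [h3]
    exact dvd_add (h1.mul_left _) (h2.mul_right _)

lemma forced_dvd_sub {I : Finset β} {E E' : β → R} {d : R} (h : ∀ p ∈ I, d ∣ E p - E' p)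
    (A : Finset β) : d ∣ forced I E A - forced I E' A := by
  unfold forced
  apply prod_dvd_sub
  intro p hp
  split_ifs
  · exact h p hp
  · have h1 : 1 + E p - (1 + E' p) = E p - E' p := by ring
    rw [h1]
    exact h p hp

end alg

lemma Ev_dvd_sub {Y A : Type} [CommRing A] (w d : A) {P Q : MvPolynomial Y A}
    (h : MvPolynomial.C d ∣ P - Q) : ∃ H, Ev w P = Ev w Q + d * H := by
  obtain ⟨H, hH⟩ := h
  refine ⟨Ev w H, ?_⟩
  rw [← Ev_C_mul, ← hH, map_sub]
  ring

variable {α : Type} [Fintype α] [PartialOrder α] {i : ℕ}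

/-- the single children of an element next to level `i` -/
noncomputable def ch (i : ℕ) (p : α) : Finset α := (U1 α i).filter fun u => bd i u = {p}

/-- the local factor minus one -/
noncomputable def EA (i : ℕ) (k : α → ℕ) (p : α) : MvPolynomial α AA := GA i k p - 1

lemma one_add_EA (k : α → ℕ) (p : α) : 1 + EA i k p = GA i k p := by
  unfold EA
  ring

lemma forced_EA (k : α → ℕ) {I A : Finset α} (hA : A ⊆ I) :
    forced I (EA i k) A = (∏ p ∈ A, EA i k p) * ∏ p ∈ I \ A, GA i k p := by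
  rw [forced_eq hA]
  congr 1
  exact prod_congr rfl fun p _ => one_add_EA k p

lemma EA_single_zero {p y : α} (hb : bd i p = {y}) :
    EA i 0 p = av i p y * MvPolynomial.C (nrm i p * (qA * geoA)) := by
  unfold EA GA
  rw [nrm_gP_single_zero hb rfl]
  ring

lemma EA_double_zero {p y y' : α} (hb : bd i p = {y, y'}) (hne : y ≠ y') :
    EA i 0 p = av i p y * av i p y' * MvPolynomial.C (nrm i p * (ZA * geoA)) := by
  unfold EA GA
  rw [nrm_gP_double_zero hb hne rfl rfl]
  ring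

lemma av_side {p p' : α} (h : corank p < i ↔ corank p' < i) (y : α) : av i p y = av i p' y := by
  unfold av
  by_cases h1 : corank p < i
  · rw [if_pos h1, if_pos (h.1 h1)]
  · rw [if_neg h1, if_neg (fun h2 => h1 (h.2 h2))]

lemma side_bd (hg : Grad α) {p q : α} (hq : ds i q = 2) (h : p ∈ bd i q) :
    corank p < i ↔ corank q < i := (side_of_mem_bd hg hq h).1

lemma bd_subset_N1 (hg : Grad α) {q : α} (hq : ds i q = 2) : bd i q ⊆ N1 α i := fun p hp =>
  mem_N1.2 (ds_of_mem_bd hg hq hp)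

/-- `VQ` of a single element at distance two -/
lemma VQ_single (hg : Grad α) (hl : HasLower α i) (hdeg : ∀ p : α, (bd i p).card ≤ 2) {q : α}
    (hq : q ∈ U1 α i) : ∃ H : AA,
    VQ i q = - qA ^ 2 * Ev wA (forced (N1 α i) (EA i 0) (bd i q)) + wA ^ 3 * H := by
  rw [mem_U1] at hq
  obtain ⟨hq, h1⟩ := hq
  obtain ⟨p, hp⟩ := card_eq_one.1 h1
  have hp1 : p ∈ bd i q := by rw [hp]; exact mem_singleton_self p
  have hpd := ds_of_mem_bd hg hq hp1
  have hside := side_bd hg hq hp1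
  have hBB : BB i q = bd i p := by
    unfold BB
    rw [hp, singleton_biUnion]
  have hav : ∏ y ∈ BB i q, av i q y = ∏ y ∈ bd i p, av i p y := by
    rw [hBB]
    exact prod_congr rfl fun y _ => (av_side hside y).symm
  have hne : (bd i p).Nonempty := by
    obtain ⟨t, ht⟩ := exists_near hg hl (p := p) (fun h => by
      rw [ds_eq_zero.2 h] at hpd
      omega)
    exact ⟨t, mem_bd.2 ht⟩
  have hf : forced (N1 α i) (EA i 0) (bd i q) = EA i 0 p * ∏ p ∈ N1 α i \ bd i q, GA i 0 p := by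
    rw [forced_EA 0 (bd_subset_N1 hg hq)]
    congr 1
    rw [hp, prod_singleton]
  unfold VQ
  rw [hf, hav, h1, hBB]
  have h2 : (bd i p).card = 1 ∨ (bd i p).card = 2 := by
    have := hdeg p
    have := hne.card_pos
    omega
  rcases h2 with h2 | h2
  · obtain ⟨y, hy⟩ := card_eq_one.1 h2
    have h3 : EA i 0 p * ∏ p ∈ N1 α i \ bd i q, GA i 0 p =
        MvPolynomial.C (nrm i p * (qA * geoA)) *
          (av i p y * ∏ p ∈ N1 α i \ bd i q, GA i 0 p) := by
      rw [EA_single_zero hy]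
      ring
    rw [h3, Ev_C_mul, hy, prod_singleton, card_singleton]
    refine ⟨ZA ^ 3 * (sgQ i q + nrm i p * geoA) *
      Ev wA (av i p y * ∏ p ∈ N1 α i \ bd i q, GA i 0 p), ?_⟩
    have h4 : 1 + 3 - 1 = 3 := rfl
    rw [h4]
    unfold qA
    ring
  · obtain ⟨y, y', hyy, hy⟩ := card_eq_two.1 h2
    have h3 : EA i 0 p * ∏ p ∈ N1 α i \ bd i q, GA i 0 p =
        MvPolynomial.C (nrm i p * (ZA * geoA)) *
          (av i p y * av i p y' * ∏ p ∈ N1 α i \ bd i q, GA i 0 p) := by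
      rw [EA_double_zero hy hyy]
      ring
    rw [h3, Ev_C_mul, hy, prod_pair hyy, card_pair hyy]
    have h4 : ∃ H : AA, sgQ i q + nrm i p * geoA = wA * H := by
      unfold sgQ nrm
      rw [h1]
      by_cases h5 : corank q < i
      · rw [if_pos h5, if_pos (hside.2 h5)]
        refine ⟨iwA * (iwA + ZA * geoA), ?_⟩
        have h6 := geoA_eq
        have h7 := iwA_mul
        unfold qA at h6
        linear_combination iwA * h6 - iwA * h7
      · rw [if_neg h5, if_neg (fun h6 => h5 (hside.1 h6))]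
        refine ⟨1 + ZA * geoA, ?_⟩
        have h6 := geoA_eq
        unfold qA at h6
        linear_combination h6
    obtain ⟨H, hH⟩ := h4
    refine ⟨ZA ^ 3 * H * Ev wA (av i p y * av i p y' * ∏ p ∈ N1 α i \ bd i q, GA i 0 p), ?_⟩
    have h5 : 1 + 3 - 2 = 2 := rfl
    rw [h5]
    unfold qA
    linear_combination wA ^ 2 * ZA ^ 3 *
      Ev wA (av i p y * av i p y' * ∏ p ∈ N1 α i \ bd i q, GA i 0 p) * hH

/-! ### the resummed form -/

lemma D2_eq (hg : Grad α) (hl : HasLower α i) (hdeg : ∀ p : α, (bd i p).card ≤ 2) :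
    D2 α i = U1 α i ∪ U2 α i := by
  ext q
  rw [mem_union, mem_D2, mem_U1, mem_U2]
  constructor
  · intro h
    have h1 : (bd i q).Nonempty := by
      obtain ⟨t, ht⟩ := exists_near hg hl (p := q) (fun h' => by
        rw [ds_eq_zero.2 h'] at h
        omega)
      exact ⟨t, mem_bd.2 ht⟩
    have h2 := h1.card_pos
    have h3 := hdeg q
    have h4 : (bd i q).card = 1 ∨ (bd i q).card = 2 := by omega
    tauto
  · rintro (h | h)
    · exact h.1
    · exact h.1

lemma U1_disj : Disjoint (U1 α i) (U2 α i) := by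
  rw [Finset.disjoint_left]
  intro q h1 h2
  rw [mem_U1] at h1
  rw [mem_U2] at h2
  omega

lemma WT_forced (T : Finset α) (k : α → ℕ) :
    WT i T k = forced (N1 α i) (EA i k) (T.biUnion (bd i)) := by
  unfold WT forced
  apply prod_congr rfl
  intro p _
  have h1 : (∃ q ∈ T, fr i p q) ↔ p ∈ T.biUnion (bd i) := by
    rw [mem_biUnion]
    exact exists_congr fun q => and_congr_right fun _ => mem_bd.symm
  by_cases h : ∃ q ∈ T, fr i p q
  · rw [if_pos h, if_pos (h1.1 h)]
    rfl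
  · rw [if_neg h, if_neg (fun h2 => h (h1.2 h2)), one_add_EA]

lemma WT_single (q : α) (k : α → ℕ) : WT i {q} k = forced (N1 α i) (EA i k) (bd i q) := by
  rw [WT_forced, singleton_biUnion]

/-- the coefficient of `E_p` after the resummation of the single children -/
noncomputable def lam (i : ℕ) (p : α) : AA :=
  1 + ((ch i p).card : AA) * qA +
    (((ch i p).card.choose 2 : ℕ) + ∑ u ∈ ch i p, ((Gq i u).card : AA) - ((ch i p).card : AA)) *
      qA ^ 2

/-- the coefficient modulo `q ^ 2` -/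
noncomputable def lam1 (i : ℕ) (p : α) : AA := 1 + ((ch i p).card : AA) * qA

lemma forced_mul_dvd (k : α → ℕ) {l l' : α → AA} {m : ℕ}
    (h : ∀ p ∈ N1 α i, qA ^ m ∣ l p - l' p) (A : Finset α) :
    ∃ H : AA, Ev wA (forced (N1 α i) (fun p => MvPolynomial.C (l p) * EA i k p) A) =
      Ev wA (forced (N1 α i) (fun p => MvPolynomial.C (l' p) * EA i k p) A) + qA ^ m * H := by
  apply Ev_dvd_sub
  apply forced_dvd_sub
  intro p hp
  obtain ⟨H, hH⟩ := h p hp
  refine ⟨MvPolynomial.C H * EA i k p, ?_⟩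
  rw [← sub_mul, ← map_sub, hH, map_mul, mul_assoc]

lemma Ev_coef (a b : AA) (P : MvPolynomial α AA) :
    Ev wA ((MvPolynomial.C a * (1 + MvPolynomial.C a * MvPolynomial.C b)) * P) =
      a * (1 + a * b) * Ev wA P := by
  have h : (MvPolynomial.C a * (1 + MvPolynomial.C a * MvPolynomial.C b) : MvPolynomial α AA) =
      MvPolynomial.C (a * (1 + a * b)) := by
    simp only [map_mul, map_add, map_one]
  rw [h]
  exact Ev_C_mul wA _ P

/-- the nearer neighbour of a single element -/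
noncomputable def rn (i : ℕ) (u : α) : α := if h : ∃ p, bd i u = {p} then h.choose else u

lemma rn_spec {u : α} (hu : u ∈ U1 α i) : bd i u = {rn i u} := by
  rw [mem_U1] at hu
  have h : ∃ p, bd i u = {p} := card_eq_one.1 hu.2
  unfold rn
  rw [dif_pos h]
  exact h.choose_spec

lemma ch_eq (p : α) : (U1 α i).filter (fun u => rn i u = p) = ch i p := by
  unfold ch
  apply filter_congr
  intro u hu
  rw [rn_spec hu]
  constructor
  · intro h
    rw [h]
  · intro h
    exact Finset.singleton_injective h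

/-- resummation modulo `q ^ 3` -/
theorem res3 (hg : Grad α) (hl : HasLower α i) (hdeg : ∀ p : α, (bd i p).card ≤ 2) (h : α → AA) :
    ∃ H : AA, Ev wA (WT i (∅ : Finset α) 0) +
        ∑ q ∈ D2 α i, qA * (1 + qA * h q) * Ev wA (WT i {q} 0) +
        qA ^ 2 * ∑ T ∈ (D2 α i).powersetCard 2, Ev wA (WT i T 0) =
      Ev wA (∏ p ∈ N1 α i, (1 + MvPolynomial.C (1 + ((ch i p).card : AA) * qA +
        (((ch i p).card.choose 2 : ℕ) + ∑ u ∈ ch i p, h u) * qA ^ 2) * EA i 0 p)) +
      ∑ u ∈ U2 α i, qA * (1 + qA * h u) *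
        Ev wA (forced (N1 α i) (fun p => MvPolynomial.C (lam1 i p) * EA i 0 p) (bd i u)) +
      qA ^ 2 * ∑ T ∈ (U2 α i).powersetCard 2, Ev wA (WT i T 0) + qA ^ 3 * H := by
  set L : α → AA := fun p => ∏ u ∈ ch i p, (1 + qA * (1 + qA * h u)) with hL
  obtain ⟨R', hR⟩ := resum3 (R := MvPolynomial α AA) (N1 α i) (U1 α i) (U2 α i) U1_disj (bd i)
    (rn i) (MvPolynomial.C qA) (fun u => MvPolynomial.C (h u)) (fun u hu => by
      have h1 := rn_spec hu
      refine ⟨h1, bd_subset_N1 hg (mem_U1.1 hu).1 ?_⟩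
      rw [h1]
      exact mem_singleton_self _) (EA i 0)
  have hC : ∀ p : α, (∏ u ∈ (U1 α i).filter (fun u => rn i u = p),
      (1 + MvPolynomial.C qA * (1 + MvPolynomial.C qA * MvPolynomial.C (h u)))) =
      (MvPolynomial.C (L p) : MvPolynomial α AA) := by
    intro p
    rw [ch_eq, hL, map_prod]
    apply prod_congr rfl
    intro u _
    rw [map_add, map_one, map_mul, map_add, map_mul, map_one]
  simp only [hC] at hR
  have hE := congrArg (Ev wA) hR
  rw [map_add, map_add, map_add, map_add, map_add, ← map_pow, Ev_C_mul, Ev_C_mul, ← map_pow,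
    Ev_C_mul, map_sum, map_sum, map_sum, map_sum, ← D2_eq hg hl hdeg] at hE
  simp only [Ev_coef] at hE
  have h0 : forced (N1 α i) (EA i 0) ∅ = WT i (∅ : Finset α) 0 := by
    rw [WT_forced, biUnion_empty]
  rw [h0] at hE
  simp only [← WT_single, ← WT_forced] at hE
  -- the factors of the first product
  have h3 : ∀ p : α, ∃ Q : AA, L p = 1 + ((ch i p).card : AA) * qA +
      (((ch i p).card.choose 2 : ℕ) + ∑ u ∈ ch i p, h u) * qA ^ 2 + qA ^ 3 * Q :=
    fun p => coef3 (ch i p) qA h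
  obtain ⟨H1, hH1⟩ := forced_mul_dvd (α := α) (i := i) 0 (l := L)
    (l' := fun p => 1 + ((ch i p).card : AA) * qA +
      (((ch i p).card.choose 2 : ℕ) + ∑ u ∈ ch i p, h u) * qA ^ 2) (m := 3) (by
      intro p _
      obtain ⟨Q, hQ⟩ := h3 p
      exact ⟨Q, by rw [hQ]; ring⟩) ∅
  have h4 : ∀ A : Finset α, ∃ H2 : AA,
      Ev wA (forced (N1 α i) (fun p => MvPolynomial.C (L p) * EA i 0 p) A) =
      Ev wA (forced (N1 α i) (fun p => MvPolynomial.C (lam1 i p) * EA i 0 p) A) + qA ^ 2 * H2 := by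
    intro A
    apply forced_mul_dvd
    intro p _
    obtain ⟨Q, hQ⟩ := h3 p
    refine ⟨((ch i p).card.choose 2 : ℕ) + ∑ u ∈ ch i p, h u + qA * Q, ?_⟩
    rw [hQ, lam1]
    ring
  have h5 : ∀ A : Finset α, ∃ H3 : AA,
      Ev wA (forced (N1 α i) (fun p => MvPolynomial.C (L p) * EA i 0 p) A) =
      Ev wA (forced (N1 α i) (EA i 0) A) + qA * H3 := by
    intro A
    have h6 := forced_mul_dvd (α := α) (i := i) 0 (l := L) (l' := fun _ => 1) (m := 1) (by
      intro p _
      obtain ⟨Q, hQ⟩ := h3 p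
      refine ⟨((ch i p).card : AA) +
        (((ch i p).card.choose 2 : ℕ) + ∑ u ∈ ch i p, h u) * qA + qA ^ 2 * Q, ?_⟩
      rw [hQ]
      ring) A
    obtain ⟨H3, hH3⟩ := h6
    refine ⟨H3, ?_⟩
    rw [hH3, pow_one]
    congr 2
    apply forced_congr
    intro p _
    rw [map_one, one_mul]
  choose H2 hH2 using h4
  choose H3 hH3 using h5
  have h7 : Ev wA (∏ p ∈ N1 α i, (1 + MvPolynomial.C (L p) * EA i 0 p)) =
      Ev wA (forced (N1 α i) (fun p => MvPolynomial.C (L p) * EA i 0 p) ∅) := by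
    rw [forced_empty]
  have h8 : Ev wA (∏ p ∈ N1 α i, (1 + MvPolynomial.C (1 + ((ch i p).card : AA) * qA +
        (((ch i p).card.choose 2 : ℕ) + ∑ u ∈ ch i p, h u) * qA ^ 2) * EA i 0 p)) =
      Ev wA (forced (N1 α i) (fun p => MvPolynomial.C (1 + ((ch i p).card : AA) * qA +
        (((ch i p).card.choose 2 : ℕ) + ∑ u ∈ ch i p, h u) * qA ^ 2) * EA i 0 p) ∅) := by
    rw [forced_empty]
  rw [h7, hH1, ← h8] at hE
  have h9 : ∑ u ∈ U2 α i, qA * (1 + qA * h u) *
      Ev wA (forced (N1 α i) (fun p => MvPolynomial.C (L p) * EA i 0 p) (bd i u)) =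
      ∑ u ∈ U2 α i, qA * (1 + qA * h u) *
        Ev wA (forced (N1 α i) (fun p => MvPolynomial.C (lam1 i p) * EA i 0 p) (bd i u)) +
      qA ^ 3 * ∑ u ∈ U2 α i, (1 + qA * h u) * H2 (bd i u) := by
    rw [mul_sum, ← sum_add_distrib]
    apply sum_congr rfl
    intro u _
    rw [hH2]
    ring
  have h10 : ∑ T ∈ (U2 α i).powersetCard 2,
      Ev wA (forced (N1 α i) (fun p => MvPolynomial.C (L p) * EA i 0 p) (T.biUnion (bd i))) =
      ∑ T ∈ (U2 α i).powersetCard 2, Ev wA (WT i T 0) +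
      qA * ∑ T ∈ (U2 α i).powersetCard 2, H3 (T.biUnion (bd i)) := by
    rw [mul_sum, ← sum_add_distrib]
    apply sum_congr rfl
    intro T _
    rw [hH3, WT_forced]
  rw [h9, h10] at hE
  refine ⟨H1 + ∑ u ∈ U2 α i, (1 + qA * h u) * H2 (bd i u) +
    ∑ T ∈ (U2 α i).powersetCard 2, H3 (T.biUnion (bd i)) + Ev wA R', ?_⟩
  rw [hE]
  ring

/-- resummation modulo `q ^ 2`, any energies `k` on level `i` -/
theorem res2 (hg : Grad α) (hl : HasLower α i) (hdeg : ∀ p : α, (bd i p).card ≤ 2) (k : α → ℕ) :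
    ∃ H : AA, Ev wA (WT i (∅ : Finset α) k) + qA * ∑ q ∈ D2 α i, Ev wA (WT i {q} k) =
      Ev wA (∏ p ∈ N1 α i, (1 + MvPolynomial.C (lam1 i p) * EA i k p)) +
      qA * ∑ u ∈ U2 α i, Ev wA (WT i {u} k) + qA ^ 2 * H := by
  set L : α → AA := fun p => ∏ u ∈ ch i p, (1 + qA * (1 + qA * 0)) with hL
  obtain ⟨R', hR⟩ := resum3 (R := MvPolynomial α AA) (N1 α i) (U1 α i) (U2 α i) U1_disj (bd i)
    (rn i) (MvPolynomial.C qA) (fun u => MvPolynomial.C 0) (fun u hu => by
      have h1 := rn_spec hu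
      refine ⟨h1, bd_subset_N1 hg (mem_U1.1 hu).1 ?_⟩
      rw [h1]
      exact mem_singleton_self _) (EA i k)
  have hC : ∀ p : α, (∏ u ∈ (U1 α i).filter (fun u => rn i u = p),
      (1 + MvPolynomial.C qA * (1 + MvPolynomial.C qA * MvPolynomial.C 0))) =
      (MvPolynomial.C (L p) : MvPolynomial α AA) := by
    intro p
    rw [ch_eq, hL, map_prod]
    apply prod_congr rfl
    intro u _
    rw [map_add, map_one, map_mul, map_add, map_mul, map_one]
  simp only [hC] at hR
  have hE := congrArg (Ev wA) hR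
  rw [map_add, map_add, map_add, map_add, map_add, ← map_pow, Ev_C_mul, Ev_C_mul, ← map_pow,
    Ev_C_mul, map_sum, map_sum, map_sum, map_sum, ← D2_eq hg hl hdeg] at hE
  simp only [Ev_coef] at hE
  have h0 : forced (N1 α i) (EA i k) ∅ = WT i (∅ : Finset α) k := by
    rw [WT_forced, biUnion_empty]
  rw [h0] at hE
  simp only [← WT_single, ← WT_forced, mul_zero, add_zero, mul_one] at hE
  have h3 : ∀ p : α, ∃ Q : AA, L p = 1 + ((ch i p).card : AA) * qA + qA ^ 2 * Q := by
    intro p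
    obtain ⟨Q, hQ⟩ := coef3 (ch i p) qA (fun _ => (0 : AA))
    refine ⟨((ch i p).card.choose 2 : ℕ) + qA * Q, ?_⟩
    rw [hL]
    simp only
    rw [hQ]
    simp only [sum_const_zero]
    ring
  obtain ⟨H1, hH1⟩ := forced_mul_dvd (α := α) (i := i) k (l := L) (l' := fun p => lam1 i p)
    (m := 2) (by
      intro p _
      obtain ⟨Q, hQ⟩ := h3 p
      exact ⟨Q, by rw [hQ, lam1]; ring⟩) ∅
  have h5 : ∀ A : Finset α, ∃ H3 : AA,
      Ev wA (forced (N1 α i) (fun p => MvPolynomial.C (L p) * EA i k p) A) =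
      Ev wA (forced (N1 α i) (EA i k) A) + qA * H3 := by
    intro A
    have h6 := forced_mul_dvd (α := α) (i := i) k (l := L) (l' := fun _ => 1) (m := 1) (by
      intro p _
      obtain ⟨Q, hQ⟩ := h3 p
      refine ⟨((ch i p).card : AA) + qA * Q, ?_⟩
      rw [hQ]
      ring) A
    obtain ⟨H3, hH3⟩ := h6
    refine ⟨H3, ?_⟩
    rw [hH3, pow_one]
    congr 2
    apply forced_congr
    intro p _
    rw [map_one, one_mul]
  choose H3 hH3 using h5
  have h7 : Ev wA (∏ p ∈ N1 α i, (1 + MvPolynomial.C (L p) * EA i k p)) =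
      Ev wA (forced (N1 α i) (fun p => MvPolynomial.C (L p) * EA i k p) ∅) := by
    rw [forced_empty]
  have h8 : Ev wA (∏ p ∈ N1 α i, (1 + MvPolynomial.C (lam1 i p) * EA i k p)) =
      Ev wA (forced (N1 α i) (fun p => MvPolynomial.C (lam1 i p) * EA i k p) ∅) := by
    rw [forced_empty]
  rw [h7, hH1, ← h8, ← mul_sum] at hE
  have h9 : ∑ u ∈ U2 α i, qA *
      Ev wA (forced (N1 α i) (fun p => MvPolynomial.C (L p) * EA i k p) (bd i u)) =
      qA * ∑ u ∈ U2 α i, Ev wA (WT i {u} k) + qA ^ 2 * ∑ u ∈ U2 α i, H3 (bd i u) := by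
    rw [mul_sum, mul_sum, ← sum_add_distrib]
    apply sum_congr rfl
    intro u _
    rw [hH3, WT_single]
    ring
  rw [h9] at hE
  refine ⟨H1 + ∑ u ∈ U2 α i, H3 (bd i u) - ∑ T ∈ (D2 α i).powersetCard 2, Ev wA (WT i T k) +
    ∑ T ∈ (U2 α i).powersetCard 2,
      Ev wA (forced (N1 α i) (fun p => MvPolynomial.C (L p) * EA i k p) (T.biUnion (bd i))) +
    qA * Ev wA R', ?_⟩
  linear_combination hE

/-- **the model, single far elements resummed** -/
theorem exists_KNres {h : Fin (Fintype.card α) → ℕ} (hG : IsGaussianWith α h)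
    (hl : HasLower α i) (hdeg : ∀ p : α, (bd i p).card ≤ 2) :
    ∃ KN : AA, Low KN ∧
      (∃ R Q : AA, KN =
        Ev wA (∏ p ∈ N1 α i, (1 + MvPolynomial.C (lam i p) * EA i 0 p)) +
        qA * ∑ y ∈ lev α i,
          Ev wA (∏ p ∈ N1 α i, (1 + MvPolynomial.C (lam1 i p) * EA i (ind {y}) p)) +
        qA ^ 2 * ∑ k ∈ KL α i 2, Ev wA (∏ p ∈ N1 α i, (1 + EA i k p)) +
        ∑ u ∈ U2 α i, (qA * (1 + qA * (Gq i u).card) *
          Ev wA (forced (N1 α i) (fun p => MvPolynomial.C (lam1 i p) * EA i 0 p) (bd i u)) +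
          qA ^ 2 * ∑ y ∈ lev α i, Ev wA (forced (N1 α i) (EA i (ind {y})) (bd i u)) +
          VQ i u) +
        qA ^ 2 * ∑ T ∈ (U2 α i).powersetCard 2,
          Ev wA (forced (N1 α i) (EA i 0) (T.biUnion (bd i))) +
        ZA ^ 5 * R + wA ^ 3 * Q) ∧
      ∀ J, 4 ≤ J → ∃ R Q : AA, KN =
        Ev wA (∏ p ∈ N1 α i, (1 + MvPolynomial.C (lam1 i p) * EA i 0 p)) +
        qA * ∑ y ∈ lev α i, Ev wA (∏ p ∈ N1 α i, (1 + EA i (ind {y}) p)) +
        ∑ u ∈ U2 α i, (qA * Ev wA (forced (N1 α i) (EA i 0) (bd i u)) + VQ i u) +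
        ZA ^ (J + 1) * R + wA ^ 2 * Q := by
  have hg := grad hG
  obtain ⟨KN, h1, ⟨R, Q, h2⟩, h3⟩ := exists_KNexp hG hl hdeg
  have hq : qA = wA * ZA := rfl
  -- `VQ` of the single elements
  have hV : ∃ H : AA, ∑ q ∈ D2 α i, VQ i q = ∑ u ∈ U2 α i, VQ i u -
      qA ^ 2 * ∑ u ∈ U1 α i, Ev wA (WT i {u} 0) + wA ^ 3 * H := by
    have h4 : ∀ u : α, ∃ H : AA, u ∈ U1 α i →
        VQ i u = - qA ^ 2 * Ev wA (WT i {u} 0) + wA ^ 3 * H := by
      intro u
      by_cases hu : u ∈ U1 α i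
      · obtain ⟨H, hH⟩ := VQ_single hg hl hdeg hu
        exact ⟨H, fun _ => by rw [hH, WT_single]⟩
      · exact ⟨0, fun h => absurd h hu⟩
    choose H hH using h4
    refine ⟨∑ u ∈ U1 α i, H u, ?_⟩
    rw [D2_eq hg hl hdeg, sum_union U1_disj, sum_congr rfl fun u hu => hH u hu,
      sum_add_distrib, ← mul_sum, ← mul_sum]
    ring
  obtain ⟨HV, hHV⟩ := hV
  refine ⟨KN, h1, ?_, ?_⟩
  · obtain ⟨H3, hH3⟩ := res3 hg hl hdeg (i := i)
      (fun u => ((Gq i u).card : AA) - if u ∈ U1 α i then 1 else 0)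
    have h4 : ∀ y : α, ∃ H : AA, Ev wA (WT i (∅ : Finset α) (ind {y})) +
        qA * ∑ q ∈ D2 α i, Ev wA (WT i {q} (ind {y})) =
        Ev wA (∏ p ∈ N1 α i, (1 + MvPolynomial.C (lam1 i p) * EA i (ind {y}) p)) +
        qA * ∑ u ∈ U2 α i, Ev wA (WT i {u} (ind {y})) + qA ^ 2 * H :=
      fun y => res2 hg hl hdeg (ind {y})
    choose H2 hH2 using h4
    -- the first product
    have h5 : ∏ p ∈ N1 α i, (1 + MvPolynomial.C (1 + ((ch i p).card : AA) * qA +
        (((ch i p).card.choose 2 : ℕ) + ∑ u ∈ ch i p,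
          (((Gq i u).card : AA) - if u ∈ U1 α i then 1 else 0)) * qA ^ 2) * EA i 0 p) =
        ∏ p ∈ N1 α i, (1 + MvPolynomial.C (lam i p) * EA i 0 p) := by
      apply prod_congr rfl
      intro p _
      congr 3
      unfold lam
      have h6 : ∑ u ∈ ch i p, (((Gq i u).card : AA) - if u ∈ U1 α i then 1 else 0) =
          ∑ u ∈ ch i p, ((Gq i u).card : AA) - ((ch i p).card : AA) := by
        rw [sum_sub_distrib]
        congr 1
        rw [Finset.card_eq_sum_ones, Nat.cast_sum]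
        apply sum_congr rfl
        intro u hu
        unfold ch at hu
        rw [mem_filter] at hu
        rw [if_pos hu.1, Nat.cast_one]
      rw [h6]
      ring
    rw [h5] at hH3
    -- sums over the elements at distance two
    have h7 : ∑ q ∈ D2 α i, qA * (1 + qA * (((Gq i q).card : AA) - if q ∈ U1 α i then 1 else 0)) *
        Ev wA (WT i {q} 0) = qA * ∑ q ∈ D2 α i, Ev wA (WT i {q} 0) +
        qA ^ 2 * ∑ q ∈ D2 α i, ((Gq i q).card : AA) * Ev wA (WT i {q} 0) -
        qA ^ 2 * ∑ u ∈ U1 α i, Ev wA (WT i {u} 0) := by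
      have h8 : ∑ u ∈ U1 α i, Ev wA (WT i {u} 0) =
          ∑ q ∈ D2 α i, (if q ∈ U1 α i then 1 else 0) * Ev wA (WT i {q} 0) := by
        rw [D2_eq hg hl hdeg, sum_union U1_disj]
        have h9 : ∑ u ∈ U2 α i, (if u ∈ U1 α i then (1 : AA) else 0) * Ev wA (WT i {u} 0) = 0 := by
          apply sum_eq_zero
          intro u hu
          rw [if_neg (fun h => (Finset.disjoint_left.1 U1_disj) h hu), zero_mul]
        rw [h9, add_zero]
        apply sum_congr rfl
        intro u hu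
        rw [if_pos hu, one_mul]
      rw [h8, mul_sum, mul_sum, mul_sum, ← sum_add_distrib, ← sum_sub_distrib]
      apply sum_congr rfl
      intro q _
      ring
    rw [h7] at hH3
    have h8 : ∑ u ∈ U2 α i, qA * (1 + qA * (((Gq i u).card : AA) - if u ∈ U1 α i then 1 else 0)) *
        Ev wA (forced (N1 α i) (fun p => MvPolynomial.C (lam1 i p) * EA i 0 p) (bd i u)) =
        ∑ u ∈ U2 α i, qA * (1 + qA * ((Gq i u).card : AA)) *
        Ev wA (forced (N1 α i) (fun p => MvPolynomial.C (lam1 i p) * EA i 0 p) (bd i u)) := by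
      apply sum_congr rfl
      intro u hu
      rw [if_neg (fun h => (Finset.disjoint_left.1 U1_disj) h hu), sub_zero]
    rw [h8] at hH3
    -- the sum over `y`
    have h9 : ∑ y ∈ lev α i, Ev wA (WT i (∅ : Finset α) (ind {y})) +
        qA * ∑ q ∈ D2 α i, ∑ y ∈ lev α i, Ev wA (WT i {q} (ind {y})) =
        ∑ y ∈ lev α i,
          Ev wA (∏ p ∈ N1 α i, (1 + MvPolynomial.C (lam1 i p) * EA i (ind {y}) p)) +
        qA * ∑ u ∈ U2 α i, ∑ y ∈ lev α i, Ev wA (forced (N1 α i) (EA i (ind {y})) (bd i u)) +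
        qA ^ 2 * ∑ y ∈ lev α i, H2 y := by
      rw [sum_comm (s := D2 α i), sum_comm (s := U2 α i), mul_sum, mul_sum, mul_sum,
        ← sum_add_distrib, ← sum_add_distrib, ← sum_add_distrib]
      apply sum_congr rfl
      intro y _
      rw [hH2]
      simp only [WT_single]
    have h10 : ∑ k ∈ KL α i 2, Ev wA (WT i (∅ : Finset α) k) =
        ∑ k ∈ KL α i 2, Ev wA (∏ p ∈ N1 α i, (1 + EA i k p)) := by
      apply sum_congr rfl
      intro k _
      rw [WT_empty]
      congr 1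
      exact prod_congr rfl fun p _ => (one_add_EA k p).symm
    have h11 : ∑ T ∈ (U2 α i).powersetCard 2, Ev wA (WT i T 0) =
        ∑ T ∈ (U2 α i).powersetCard 2,
          Ev wA (forced (N1 α i) (EA i 0) (T.biUnion (bd i))) :=
      sum_congr rfl fun T _ => by rw [WT_forced]
    refine ⟨R, Q + HV + ZA ^ 3 * H3 + ZA ^ 3 * ∑ y ∈ lev α i, H2 y, ?_⟩
    rw [h2, hHV, ← h10, ← h11, sum_add_distrib, sum_add_distrib, ← mul_sum]
    have h12 : qA ^ 3 = wA ^ 3 * ZA ^ 3 := by rw [hq, mul_pow]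
    linear_combination hH3 + qA * h9 + (H3 + ∑ y ∈ lev α i, H2 y) * h12
  · intro J hJ
    obtain ⟨R, Q, h4⟩ := h3 J hJ
    obtain ⟨H2, hH2⟩ := res2 hg hl hdeg (i := i) 0
    refine ⟨R, Q + wA * HV - ZA ^ 2 * ∑ u ∈ U1 α i, Ev wA (WT i {u} 0) + ZA ^ 2 * H2, ?_⟩
    have h10 : ∑ y ∈ lev α i, Ev wA (WT i (∅ : Finset α) (ind {y})) =
        ∑ y ∈ lev α i, Ev wA (∏ p ∈ N1 α i, (1 + EA i (ind {y}) p)) := by
      apply sum_congr rfl
      intro y _
      rw [WT_empty]
      congr 1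
      exact prod_congr rfl fun p _ => (one_add_EA _ p).symm
    have h11 : ∑ u ∈ U2 α i, Ev wA (WT i {u} 0) =
        ∑ u ∈ U2 α i, Ev wA (forced (N1 α i) (EA i 0) (bd i u)) :=
      sum_congr rfl fun u _ => by rw [WT_single]
    rw [h4, hHV, ← h10, sum_add_distrib, ← mul_sum, ← h11]
    have h12 : qA ^ 2 = wA ^ 2 * ZA ^ 2 := by rw [hq, mul_pow]
    linear_combination hH2 + (H2 - ∑ u ∈ U1 α i, Ev wA (WT i {u} 0)) * h12

end Pool.Gauss
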