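import Pool.Agent.Work.MP_065141_co.K.Exact
import Pool.Agent.Work.MP_065141_co.J0

/-!
# The weights of the energy functions on a closed set, and the product over disjoint closed sets

`SV V b` is the series of `SSx` for the energy functions supported on the up-set `V`.
* `SV_univ`: for `V = univ` it is `SSx`;
* `SV_union`: for disjoint up-sets it is multiplicative;
* `coeff_SSx_eq_SV`: it agrees with `SSx` below the least energy outside `V`.
-/

set_option autoImplicit false
set_option linter.unusedSectionVars false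
open scoped Classical
open Finset

namespace Pool.Gauss

namespace NM

variable {α : Type} [Fintype α] [PartialOrder α]

/-- up-closed sets -/
def UpC (V : Finset α) : Prop := ∀ x ∈ V, ∀ y, x ≤ y → y ∈ V

lemma UpC.inter {V W : Finset α} (h : UpC V) (h' : UpC W) : UpC (V ∩ W) := by
  intro x hx y hxy
  rw [mem_inter] at hx ⊢
  exact ⟨h x hx.1 y hxy, h' x hx.2 y hxy⟩

lemma UpC.union {V W : Finset α} (h : UpC V) (h' : UpC W) : UpC (V ∪ W) := by
  intro x hx y hxy
  rw [mem_union] at hx ⊢
  rcases hx with hx | hx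
  · exact Or.inl (h x hx y hxy)
  · exact Or.inr (h' x hx y hxy)

lemma UpC.univ : UpC (univ : Finset α) := fun _ _ _ _ => mem_univ _

lemma UpC.biUnion {ι : Type} {S : Finset ι} {V : ι → Finset α} (h : ∀ r ∈ S, UpC (V r)) :
    UpC (S.biUnion V) := by
  intro x hx y hxy
  rw [mem_biUnion] at hx ⊢
  obtain ⟨r, hr, hx⟩ := hx
  exact ⟨r, hr, h r hr x hx y hxy⟩

lemma inE_congr {b : ℕ} {ε ε' : α → ℕ} {y : α} (h : ε y = ε' y)
    (h' : ∀ x, x ⋖ y → ε x = ε' x) : inE b ε y ↔ inE b ε' y := by
  unfold inE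
  rw [h]
  have h1 : (∃ x, x ⋖ y ∧ ε' y ≤ ε x) ↔ ∃ x, x ⋖ y ∧ ε' y ≤ ε' x := by
    constructor
    · rintro ⟨x, hx, h2⟩
      exact ⟨x, hx, by rwa [← h' x hx]⟩
    · rintro ⟨x, hx, h2⟩
      exact ⟨x, hx, by rwa [h' x hx]⟩
  have h2 : (∃ x, x ⋖ y ∧ ε' y < ε x) ↔ ∃ x, x ⋖ y ∧ ε' y < ε' x := by
    constructor
    · rintro ⟨x, hx, h2⟩
      exact ⟨x, hx, by rwa [← h' x hx]⟩
    · rintro ⟨x, hx, h2⟩
      exact ⟨x, hx, by rwa [h' x hx]⟩
  rw [h1, h2]

lemma outE_congr {b : ℕ} {ε ε' : α → ℕ} {y : α} (h : ε y = ε' y)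
    (h' : ∀ z, y ⋖ z → ε z = ε' z) : outE b ε y ↔ outE b ε' y := by
  unfold outE
  rw [h]
  have h1 : (∃ z, y ⋖ z ∧ ε' y < ε z) ↔ ∃ z, y ⋖ z ∧ ε' y < ε' z := by
    constructor
    · rintro ⟨x, hx, h2⟩
      exact ⟨x, hx, by rwa [← h' x hx]⟩
    · rintro ⟨x, hx, h2⟩
      exact ⟨x, hx, by rwa [h' x hx]⟩
  have h2 : (∃ z, y ⋖ z ∧ ε' y ≤ ε z) ↔ ∃ z, y ⋖ z ∧ ε' y ≤ ε' z := by
    constructor
    · rintro ⟨x, hx, h2⟩
      exact ⟨x, hx, by rwa [← h' x hx]⟩
    · rintro ⟨x, hx, h2⟩
      exact ⟨x, hx, by rwa [h' x hx]⟩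
  rw [h1, h2]

/-- the energy function is good on `V` -/
def GoodOn (V : Finset α) (b : ℕ) (ε : α → ℕ) : Prop := ∀ y ∈ V, ¬ (inE b ε y ∧ outE b ε y)

/-- the weight of an energy function on `V` -/
noncomputable def tmV (V : Finset α) (b : ℕ) (ε : α → ℕ) : Polynomial ℤ :=
  if GoodOn V b ε then (Polynomial.X - 1) ^ (V.filter fun y => inE b ε y).card *
    Polynomial.X ^ (V.filter fun y => ¬ inE b ε y ∧ ¬ outE b ε y).card else 0

/-- the sum of the weights of the energy functions supported on `V` -/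
noncomputable def SV (V : Finset α) (b : ℕ) : PowerSeries (Polynomial ℤ) :=
  PowerSeries.mk fun r => ∑ ε ∈ V.piAntidiag r, tmV V b ε

lemma coeff_SV (V : Finset α) (b r : ℕ) : PowerSeries.coeff r (SV V b) =
    ∑ ε ∈ V.piAntidiag r, tmV V b ε := by
  rw [SV, PowerSeries.coeff_mk]

lemma SV_univ (b : ℕ) : SV (univ : Finset α) b = SSx α b := by
  ext1 r
  rw [coeff_SV, coeff_SSx]
  apply Finset.sum_congr rfl
  intro ε _
  unfold tmV tm
  have h1 : GoodOn (univ : Finset α) b ε ↔ GoodE b ε := by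
    unfold GoodOn GoodE
    simp
  by_cases h2 : GoodE b ε
  · rw [if_pos h2, if_pos (h1.2 h2)]
    rfl
  · rw [if_neg h2, if_neg (fun h3 => h2 (h1.1 h3))]

/-! ### multiplicativity -/

lemma UpC.notMem_of_covBy {V W : Finset α} (hV : UpC V) (hW : UpC W) (hd : Disjoint V W)
    {x y : α} (hy : y ∈ V) (h : x ⋖ y ∨ y ⋖ x) : x ∉ W := by
  intro hx
  rcases h with h | h
  · exact Finset.disjoint_left.1 hd hy (hW x hx y h.le)
  · exact Finset.disjoint_left.1 hd (hV y hy x h.le) hx

lemma inE_add_left {V W : Finset α} (hV : UpC V) (hW : UpC W) (hd : Disjoint V W) {b : ℕ}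
    {ε κ : α → ℕ} (hκ : ∀ x, κ x ≠ 0 → x ∈ W) {y : α} (hy : y ∈ V) :
    inE b (ε + κ) y ↔ inE b ε y := by
  have h0 : ∀ x, x ∉ W → κ x = 0 := fun x hx => by
    by_contra h
    exact hx (hκ x h)
  apply inE_congr
  · rw [Pi.add_apply, h0 y (fun h => Finset.disjoint_left.1 hd hy h), add_zero]
  · intro x hx
    rw [Pi.add_apply, h0 x (hV.notMem_of_covBy hW hd hy (Or.inl hx)), add_zero]

lemma outE_add_left {V W : Finset α} (hV : UpC V) (hW : UpC W) (hd : Disjoint V W) {b : ℕ}
    {ε κ : α → ℕ} (hκ : ∀ x, κ x ≠ 0 → x ∈ W) {y : α} (hy : y ∈ V) :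
    outE b (ε + κ) y ↔ outE b ε y := by
  have h0 : ∀ x, x ∉ W → κ x = 0 := fun x hx => by
    by_contra h
    exact hx (hκ x h)
  apply outE_congr
  · rw [Pi.add_apply, h0 y (fun h => Finset.disjoint_left.1 hd hy h), add_zero]
  · intro x hx
    rw [Pi.add_apply, h0 x (hV.notMem_of_covBy hW hd hy (Or.inr hx)), add_zero]

lemma tmV_add {V W : Finset α} (hV : UpC V) (hW : UpC W) (hd : Disjoint V W) {b : ℕ}
    {ε κ : α → ℕ} (hε : ∀ x, ε x ≠ 0 → x ∈ V) (hκ : ∀ x, κ x ≠ 0 → x ∈ W) :
    tmV (V ∪ W) b (ε + κ) = tmV V b ε * tmV W b κ := by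
  have e1 : ∀ y ∈ V, (inE b (ε + κ) y ↔ inE b ε y) := fun y hy => inE_add_left hV hW hd hκ hy
  have e2 : ∀ y ∈ V, (outE b (ε + κ) y ↔ outE b ε y) := fun y hy => outE_add_left hV hW hd hκ hy
  have e3 : ∀ y ∈ W, (inE b (ε + κ) y ↔ inE b κ y) := fun y hy => by
    rw [add_comm]
    exact inE_add_left hW hV hd.symm hε hy
  have e4 : ∀ y ∈ W, (outE b (ε + κ) y ↔ outE b κ y) := fun y hy => by
    rw [add_comm]
    exact outE_add_left hW hV hd.symm hε hy
  have hg : GoodOn (V ∪ W) b (ε + κ) ↔ GoodOn V b ε ∧ GoodOn W b κ := by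
    constructor
    · intro h
      refine ⟨fun y hy => ?_, fun y hy => ?_⟩
      · rw [← e1 y hy, ← e2 y hy]
        exact h y (mem_union_left _ hy)
      · rw [← e3 y hy, ← e4 y hy]
        exact h y (mem_union_right _ hy)
    · rintro ⟨h1, h2⟩ y hy
      rw [mem_union] at hy
      rcases hy with hy | hy
      · rw [e1 y hy, e2 y hy]
        exact h1 y hy
      · rw [e3 y hy, e4 y hy]
        exact h2 y hy
  unfold tmV
  by_cases h1 : GoodOn V b ε
  · by_cases h2 : GoodOn W b κ
    · rw [if_pos h1, if_pos h2, if_pos (hg.2 ⟨h1, h2⟩)]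
      have c1 : ((V ∪ W).filter fun y => inE b (ε + κ) y).card =
          (V.filter fun y => inE b ε y).card + (W.filter fun y => inE b κ y).card := by
        rw [filter_union, card_union_of_disjoint (disjoint_filter_filter hd)]
        congr 1
        · congr 1
          exact filter_congr e1
        · congr 1
          exact filter_congr e3
      have c2 : ((V ∪ W).filter fun y => ¬ inE b (ε + κ) y ∧ ¬ outE b (ε + κ) y).card =
          (V.filter fun y => ¬ inE b ε y ∧ ¬ outE b ε y).card +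
            (W.filter fun y => ¬ inE b κ y ∧ ¬ outE b κ y).card := by
        rw [filter_union, card_union_of_disjoint (disjoint_filter_filter hd)]
        congr 1
        · congr 1
          exact filter_congr fun y hy => by rw [e1 y hy, e2 y hy]
        · congr 1
          exact filter_congr fun y hy => by rw [e3 y hy, e4 y hy]
      rw [c1, c2, pow_add, pow_add]
      ring
    · rw [if_neg h2, mul_zero, if_neg (fun h => h2 (hg.1 h).2)]
  · rw [if_neg h1, zero_mul, if_neg (fun h => h1 (hg.1 h).1)]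

lemma sum_piAntidiag_union {M : Type} [AddCommMonoid M] {V W : Finset α} (hd : Disjoint V W)
    (r : ℕ) (F : (α → ℕ) → M) :
    ∑ ε ∈ (V ∪ W).piAntidiag r, F ε =
      ∑ p ∈ antidiagonal r, ∑ ε ∈ V.piAntidiag p.1, ∑ κ ∈ W.piAntidiag p.2, F (ε + κ) := by
  rw [Finset.sum_congr rfl fun s _ => Finset.sum_sigma' _ _ _, Finset.sum_sigma']
  symm
  refine Finset.sum_bij' (fun x _ => x.2.1 + x.2.2)
    (fun ε _ => ⟨(∑ p ∈ V, ε p, ∑ p ∈ W, ε p), fun p => if p ∈ V then ε p else 0,
      fun p => if p ∈ W then ε p else 0⟩) ?_ ?_ ?_ ?_ ?_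
  · rintro ⟨⟨s, t⟩, e, κ⟩ hx
    rw [mem_sigma, mem_sigma, mem_piAntidiag, mem_piAntidiag,
      HasAntidiagonal.mem_antidiagonal] at hx
    obtain ⟨h1, ⟨h2, h3⟩, h4, h5⟩ := hx
    simp only at h1 h2 h3 h4 h5
    rw [mem_piAntidiag]
    refine ⟨?_, ?_⟩
    · simp only [Pi.add_apply]
      rw [Finset.sum_union hd, Finset.sum_add_distrib, Finset.sum_add_distrib, h2, h4]
      have h6 : ∑ p ∈ V, κ p = 0 := Finset.sum_eq_zero fun p hp => by
        by_contra h
        exact Finset.disjoint_left.1 hd hp (h5 p h)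
      have h7 : ∑ p ∈ W, e p = 0 := Finset.sum_eq_zero fun p hp => by
        by_contra h
        exact Finset.disjoint_left.1 hd (h3 p h) hp
      rw [h6, h7]
      omega
    · intro p hp
      simp only [Pi.add_apply] at hp
      rw [mem_union]
      rcases Nat.eq_zero_or_pos (e p) with h | h
      · exact Or.inr (h5 p (by omega))
      · exact Or.inl (h3 p (by omega))
  · intro ε hε
    rw [mem_piAntidiag] at hε
    rw [mem_sigma, mem_sigma, mem_piAntidiag, mem_piAntidiag,
      HasAntidiagonal.mem_antidiagonal]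
    refine ⟨?_, ⟨?_, ?_⟩, ?_, ?_⟩
    · simp only
      rw [← Finset.sum_union hd]
      exact hε.1
    · simp only
      apply Finset.sum_congr rfl
      intro p hp
      rw [if_pos hp]
    · intro p hp
      simp only at hp
      by_contra h
      rw [if_neg h] at hp
      exact hp rfl
    · simp only
      apply Finset.sum_congr rfl
      intro p hp
      rw [if_pos hp]
    · intro p hp
      simp only at hp
      by_contra h
      rw [if_neg h] at hp
      exact hp rfl
  · rintro ⟨⟨s, t⟩, e, κ⟩ hx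
    rw [mem_sigma, mem_sigma, mem_piAntidiag, mem_piAntidiag,
      HasAntidiagonal.mem_antidiagonal] at hx
    obtain ⟨h1, ⟨h2, h3⟩, h4, h5⟩ := hx
    simp only at h1 h2 h3 h4 h5
    have h6 : ∀ p ∈ V, κ p = 0 := fun p hp => by
      by_contra h
      exact Finset.disjoint_left.1 hd hp (h5 p h)
    have h7 : ∀ p ∈ W, e p = 0 := fun p hp => by
      by_contra h
      exact Finset.disjoint_left.1 hd (h3 p h) hp
    have e1 : (fun p => if p ∈ V then (e + κ) p else 0) = e := by
      funext p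
      by_cases hp : p ∈ V
      · rw [if_pos hp, Pi.add_apply, h6 p hp, add_zero]
      · rw [if_neg hp]
        by_contra h
        exact hp (h3 p fun h' => h h'.symm)
    have e2 : (fun p => if p ∈ W then (e + κ) p else 0) = κ := by
      funext p
      by_cases hp : p ∈ W
      · rw [if_pos hp, Pi.add_apply, h7 p hp, zero_add]
      · rw [if_neg hp]
        by_contra h
        exact hp (h5 p fun h' => h h'.symm)
    have e3 : ∑ p ∈ V, (e + κ) p = s := by
      rw [← h2]
      exact Finset.sum_congr rfl fun p hp => by rw [Pi.add_apply, h6 p hp, add_zero]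
    have e4 : ∑ p ∈ W, (e + κ) p = t := by
      rw [← h4]
      exact Finset.sum_congr rfl fun p hp => by rw [Pi.add_apply, h7 p hp, zero_add]
    simp only
    rw [e1, e2, e3, e4]
  · intro ε hε
    rw [mem_piAntidiag] at hε
    funext p
    simp only [Pi.add_apply]
    by_cases hp : p ∈ V
    · rw [if_pos hp, if_neg (Finset.disjoint_left.1 hd hp), add_zero]
    · rw [if_neg hp, zero_add]
      by_cases hp' : p ∈ W
      · rw [if_pos hp']
      · rw [if_neg hp']
        by_contra h
        have := hε.2 p fun h' => h h'.symm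
        rw [mem_union] at this
        tauto
  · rintro ⟨⟨s, t⟩, e, κ⟩ _
    rfl

/-- **the product over two disjoint up-sets** -/
theorem SV_union {V W : Finset α} (hV : UpC V) (hW : UpC W) (hd : Disjoint V W) (b : ℕ) :
    SV (V ∪ W) b = SV V b * SV W b := by
  ext1 r
  rw [coeff_SV, sum_piAntidiag_union hd, PowerSeries.coeff_mul]
  apply Finset.sum_congr rfl
  rintro ⟨s, t⟩ _
  rw [coeff_SV, coeff_SV, Finset.sum_mul_sum]
  apply Finset.sum_congr rfl
  intro ε hε
  apply Finset.sum_congr rfl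
  intro κ hκ
  rw [mem_piAntidiag] at hε hκ
  exact tmV_add hV hW hd hε.2 hκ.2

lemma SV_empty (b : ℕ) : SV (∅ : Finset α) b = 1 := by
  ext1 r
  rw [coeff_SV, PowerSeries.coeff_one]
  by_cases hr : r = 0
  · subst hr
    rw [if_pos rfl]
    have e : (∅ : Finset α).piAntidiag 0 = {0} := by simp
    rw [e, sum_singleton]
    have h1 : GoodOn (∅ : Finset α) b (0 : α → ℕ) := by
      intro y hy
      simp at hy
    rw [tmV, if_pos h1]
    simp
  · rw [if_neg hr]
    have e : (∅ : Finset α).piAntidiag r = ∅ := by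
      rw [piAntidiag_empty, if_neg hr]
    rw [e, sum_empty]

/-- **the product over disjoint up-sets** -/
theorem SV_biUnion {ι : Type} (S : Finset ι) (V : ι → Finset α) (hV : ∀ r ∈ S, UpC (V r))
    (hd : (S : Set ι).PairwiseDisjoint V) (b : ℕ) :
    SV (S.biUnion V) b = ∏ r ∈ S, SV (V r) b := by
  induction S using Finset.induction_on with
  | empty => rw [biUnion_empty, prod_empty, SV_empty]
  | insert r S hr ih =>
    rw [biUnion_insert, prod_insert hr, SV_union (hV r (mem_insert_self _ _))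
      (UpC.biUnion fun s hs => hV s (mem_insert_of_mem hs)),
      ih (fun s hs => hV s (mem_insert_of_mem hs))
        (hd.subset (by rw [coe_insert]; exact Set.subset_insert _ _))]
    rw [Finset.disjoint_biUnion_right]
    intro s hs
    apply hd (by simp) (by simp [hs])
    rintro rfl
    exact hr hs

/-! ### the energy functions supported on an up-set -/

lemma exists_covBy_up {x : α} (h : 0 < corank x) : ∃ z, x ⋖ z := by
  obtain ⟨y, hy, _⟩ := exists_gt_corank h
  obtain ⟨z, hz, _⟩ := exists_covBy_of_lt hy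
  exact ⟨z, hz⟩

/-- for energy functions supported on an up-set containing the levels `≤ b` only the elements
of the up-set count -/
lemma tm_eq_tmV {V : Finset α} (hV : UpC V) {b : ℕ} (hb : ∀ y : α, corank y ≤ b → y ∈ V)
    {ε : α → ℕ} (hε : ∀ x, ε x ≠ 0 → x ∈ V) : tm b ε = tmV V b ε := by
  have h0 : ∀ x, x ∉ V → ε x = 0 := fun x hx => by
    by_contra h
    exact hx (hε x h)
  have h1 : ∀ y, y ∉ V → b < corank y := fun y hy => by
    by_contra h
    exact hy (hb y (by omega))
  have h2 : ∀ y, y ∉ V → ¬ inE b ε y := by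
    rintro y hy (⟨h3, _⟩ | ⟨_, x, hx, h3⟩)
    · have := h1 y hy
      omega
    · exact hy (hV x (hε x (by omega)) y hx.le)
  have h3 : ∀ y, y ∉ V → outE b ε y := by
    intro y hy
    have h4 := h1 y hy
    obtain ⟨z, hz⟩ := exists_covBy_up (x := y) (by omega)
    refine Or.inr ⟨h4, z, hz, ?_⟩
    rw [h0 y hy]
    exact Nat.zero_le _
  have hg : GoodE b ε ↔ GoodOn V b ε := by
    constructor
    · intro h y _
      exact h y
    · intro h y
      by_cases hy : y ∈ V
      · exact h y hy
      · exact fun h4 => h2 y hy h4.1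
  unfold tm tmV
  by_cases h4 : GoodE b ε
  · rw [if_pos h4, if_pos (hg.1 h4)]
    have c1 : inF b ε = V.filter fun y => inE b ε y := by
      ext y
      rw [inF, mem_filter, mem_filter]
      constructor
      · rintro ⟨_, h5⟩
        refine ⟨?_, h5⟩
        by_contra hy
        exact h2 y hy h5
      · rintro ⟨_, h5⟩
        exact ⟨mem_univ _, h5⟩
    have c2 : pkF b ε = V.filter fun y => ¬ inE b ε y ∧ ¬ outE b ε y := by
      ext y
      rw [pkF, mem_filter, mem_filter]
      constructor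
      · rintro ⟨_, h5⟩
        refine ⟨?_, h5⟩
        by_contra hy
        exact h5.2 (h3 y hy)
      · rintro ⟨_, h5⟩
        exact ⟨mem_univ _, h5⟩
    rw [c1, c2]
  · rw [if_neg h4, if_neg (fun h5 => h4 (hg.2 h5))]

/-- below the least energy of the good functions not supported on `V`, `SSx` is `SV V` -/
theorem coeff_SSx_eq_SV {V : Finset α} (hV : UpC V) {b r : ℕ}
    (hb : ∀ y : α, corank y ≤ b → y ∈ V)
    (hr : ∀ ε : α → ℕ, GoodE b ε → (∃ x, x ∉ V ∧ ε x ≠ 0) → r < ∑ p, ε p) :
    PowerSeries.coeff r (SSx α b) = PowerSeries.coeff r (SV V b) := by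
  rw [coeff_SSx, coeff_SV]
  symm
  have hsub : V.piAntidiag r ⊆ (univ : Finset α).piAntidiag r := by
    intro ε hε
    rw [mem_piAntidiag] at hε ⊢
    refine ⟨?_, fun _ _ => mem_univ _⟩
    rw [← hε.1]
    symm
    apply Finset.sum_subset (subset_univ _)
    intro x _ hx
    by_contra h
    exact hx (hε.2 x h)
  rw [← Finset.sum_subset hsub]
  · apply Finset.sum_congr rfl
    intro ε hε
    rw [mem_piAntidiag] at hε
    exact (tm_eq_tmV hV hb hε.2).symm
  · intro ε hε hε'
    by_contra h0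
    have hgood : GoodE b ε := by
      by_contra h1
      rw [tm, if_neg h1] at h0
      exact h0 rfl
    rw [mem_piAntidiag] at hε
    have h1 : ∃ x, x ∉ V ∧ ε x ≠ 0 := by
      by_contra h2
      push Not at h2
      apply hε'
      rw [mem_piAntidiag]
      refine ⟨?_, fun x hx => ?_⟩
      · rw [← hε.1]
        apply Finset.sum_subset (subset_univ _)
        intro x _ hx
        exact h2 x hx
      · by_contra h3
        exact hx (h2 x h3)
    have h2 := hr ε hgood h1
    rw [hε.1] at h2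
    omega

end NM

end Pool.Gauss
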