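import Pool.Agent.Work.MP_065141_co.K.NoMixA

/-!
# The strips, and the product over the strips below the energy of the joins

`strip r` is the set of the elements that lie below the maximal element `r` only.
If all elements of the levels `≤ i` lie in strips, then `SSx b` is the product of the `SV` of the
strips in all degrees `≤ 2 (i - b)`.
-/

set_option autoImplicit false
set_option linter.unusedSectionVars false
open scoped Classical
open Finset

namespace Pool.Gauss

namespace NM

variable {α : Type} [Fintype α] [PartialOrder α]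

/-! ### the elements forced by an energy -/

/-- the elements above `x` (and `x`) at levels `> b` -/
noncomputable def above (b : ℕ) (x : α) : Finset α :=
  univ.filter fun y => x ≤ y ∧ b < corank y

lemma mem_above {b : ℕ} {x y : α} : y ∈ above b x ↔ x ≤ y ∧ b < corank y := by
  simp [above]

lemma pos_of_covBy {b : ℕ} {ε : α → ℕ} (hgood : GoodE b ε) {x y : α} (h : x ⋖ y)
    (hx : ε x ≠ 0) (hy : b < corank y) : ε y ≠ 0 := by
  intro h0
  obtain ⟨z, hz⟩ := exists_covBy_up (x := y) (by omega)
  exact hgood y ⟨Or.inr ⟨hy.le, x, h, by omega⟩, Or.inr ⟨hy, z, hz, by omega⟩⟩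

/-- an excited element at a level `> b` excites all elements above it at levels `> b` -/
lemma pos_of_le {b : ℕ} {ε : α → ℕ} (hgood : GoodE b ε) :
    ∀ n : ℕ, ∀ x y : α, corank x ≤ corank y + n → x ≤ y → ε x ≠ 0 → b < corank y →
      ε y ≠ 0 := by
  intro n
  induction n with
  | zero =>
    intro x y hn hxy hx _
    rcases eq_or_lt_of_le hxy with h | h
    · rwa [← h]
    · have := corank_lt h
      omega
  | succ n ih =>
    intro x y hn hxy hx hy
    rcases eq_or_lt_of_le hxy with h | h
    · rwa [← h]
    · obtain ⟨c, hxc, hcy⟩ := exists_covBy_of_lt h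
      have h1 := corank_lt hxc.lt
      have h2 : corank y ≤ corank c := by
        rcases eq_or_lt_of_le hcy with h3 | h3
        · rw [h3]
        · exact (corank_lt h3).le
      exact ih c y (by omega) hcy (pos_of_covBy hgood hxc hx (by omega)) hy

lemma card_above_le {b : ℕ} {ε : α → ℕ} (hgood : GoodE b ε) {x : α} (hx : ε x ≠ 0) :
    (above b x).card ≤ ∑ p, ε p := by
  calc (above b x).card = ∑ p ∈ above b x, 1 := by simp
    _ ≤ ∑ p ∈ above b x, ε p := by
        apply Finset.sum_le_sum
        intro p hp
        rw [mem_above] at hp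
        have := pos_of_le hgood (corank x) x p (by omega) hp.1 hx hp.2
        omega
    _ ≤ ∑ p, ε p := Finset.sum_le_sum_of_subset (subset_univ _)

/-! ### strips -/

/-- the elements below the maximal element `r` only -/
noncomputable def strip (r : α) : Finset α := univ.filter fun x => roots x = {r}

lemma mem_strip {r x : α} : x ∈ strip r ↔ roots x = {r} := by simp [strip]

/-- the elements below one maximal element only -/
noncomputable def unmx (α : Type) [Fintype α] [PartialOrder α] : Finset α :=
  univ.filter fun x => (roots x).card = 1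

lemma mem_unmx {x : α} : x ∈ unmx α ↔ (roots x).card = 1 := by simp [unmx]

lemma strip_upC (r : α) : UpC (strip r) := by
  intro x hx y hxy
  rw [mem_strip] at hx ⊢
  have h1 := roots_mono hxy
  rw [hx] at h1
  exact (Finset.subset_singleton_iff.1 h1).resolve_left (exists_root y).ne_empty

lemma unmx_eq : unmx α = (lev α 0).biUnion strip := by
  ext x
  rw [mem_unmx, mem_biUnion]
  constructor
  · intro h
    obtain ⟨r, hr⟩ := card_eq_one.1 h
    have h1 : r ∈ roots x := by rw [hr]; exact mem_singleton_self r
    exact ⟨r, mem_lev.2 (mem_roots.1 h1).1, mem_strip.2 hr⟩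
  · rintro ⟨r, _, hr⟩
    rw [mem_strip.1 hr, card_singleton]

lemma strip_disj : ((lev α 0 : Finset α) : Set α).PairwiseDisjoint strip := by
  intro r _ s _ hrs
  change Disjoint (strip r) (strip s)
  rw [Finset.disjoint_left]
  intro x hx hx'
  rw [mem_strip] at hx hx'
  rw [hx] at hx'
  exact hrs (Finset.singleton_injective hx')

lemma unmx_upC : UpC (unmx α) := by
  rw [unmx_eq]
  exact UpC.biUnion fun r _ => strip_upC r

/-- **the series of the unmixed part is the product over the strips** -/
theorem SV_unmx (b : ℕ) : SV (unmx α) b = ∏ r ∈ lev α 0, SV (strip r) b := by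
  rw [unmx_eq]
  exact SV_biUnion _ _ (fun r _ => strip_upC r) strip_disj b

/-- in a graded poset a chain meets every level -/
lemma exists_between (hg : Grad α) {x t : α} (h : x ≤ t) {n : ℕ} (h1 : corank t ≤ n)
    (h2 : n ≤ corank x) : ∃ y : α, corank y = n ∧ x ≤ y ∧ y ≤ t := by
  have aux : ∀ m, ∀ z : α, corank z ≤ m → n ≤ corank z → z ≤ t →
      ∃ y : α, corank y = n ∧ z ≤ y ∧ y ≤ t := by
    intro m
    induction m with
    | zero =>
      intro z hz hnz hzt
      exact ⟨z, by omega, le_rfl, hzt⟩
    | succ m ih =>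
      intro z hz hnz hzt
      by_cases h5 : corank z = n
      · exact ⟨z, h5, le_rfl, hzt⟩
      · have h6 : z < t := lt_of_le_of_ne hzt (by rintro rfl; omega)
        obtain ⟨c, hzc, hct⟩ := exists_covBy_of_lt h6
        have h7 := hg z c hzc
        obtain ⟨y, hy1, hy2, hy3⟩ := ih c (by omega) (by omega) hct
        exact ⟨y, hy1, hzc.le.trans hy2, hy3⟩
  exact aux (corank x) x le_rfl h2 h

/-- the number of elements above a mixed element at levels `> b` -/
lemma card_above_mixed (hg : Grad α) {i b : ℕ} (hi : ∀ y : α, corank y ≤ i → y ∈ unmx α)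
    (hb : b ≤ i) {x : α} (hx : x ∉ unmx α) : 2 * (i - b) + 1 ≤ (above b x).card := by
  have h1 : 2 ≤ (roots x).card := by
    have h2 : 0 < (roots x).card := card_pos.2 (exists_root x)
    have h3 : (roots x).card ≠ 1 := fun h => hx (mem_unmx.2 h)
    omega
  obtain ⟨r, hr, s, hs, hrs⟩ := Finset.one_lt_card.1 (by omega : 1 < (roots x).card)
  have hxi : i < corank x := by
    by_contra h
    exact hx (hi x (by omega))
  -- a chain from `x` to a root meets every level
  have key : ∀ t ∈ roots x, ∃ g : ℕ → α, ∀ n, n ≤ i →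
      g n ∈ strip t ∧ corank (g n) = n ∧ x ≤ g n := by
    intro t ht
    have ht' := mem_roots.1 ht
    haveI : Nonempty α := ⟨x⟩
    have h4 : ∀ n, n ≤ i → ∃ y : α, corank y = n ∧ x ≤ y ∧ y ≤ t := fun n hn =>
      exists_between hg ht'.2 (by omega) (by omega)
    choose! g hg using h4
    refine ⟨g, fun n hn => ⟨?_, (hg n hn).1, (hg n hn).2.1⟩⟩
    have h5 := hi (g n) (by rw [(hg n hn).1]; exact hn)
    rw [mem_unmx] at h5
    obtain ⟨u, hu⟩ := card_eq_one.1 h5
    rw [mem_strip, hu]
    have h6 : t ∈ roots (g n) := mem_roots.2 ⟨(mem_roots.1 ht).1, (hg n hn).2.2⟩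
    rw [hu, mem_singleton] at h6
    rw [h6]
  obtain ⟨g, hg1⟩ := key r hr
  obtain ⟨g', hg2⟩ := key s hs
  have c1 : ((Ioc b i).image g).card = i - b := by
    rw [card_image_of_injOn, Nat.card_Ioc]
    intro m hm n hn hmn
    rw [mem_coe, mem_Ioc] at hm hn
    have := congrArg corank hmn
    rwa [(hg1 m hm.2).2.1, (hg1 n hn.2).2.1] at this
  have c2 : ((Ioc b i).image g').card = i - b := by
    rw [card_image_of_injOn, Nat.card_Ioc]
    intro m hm n hn hmn
    rw [mem_coe, mem_Ioc] at hm hn
    have := congrArg corank hmn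
    rwa [(hg2 m hm.2).2.1, (hg2 n hn.2).2.1] at this
  have hd : Disjoint ((Ioc b i).image g) ((Ioc b i).image g') := by
    rw [Finset.disjoint_left]
    intro y hy hy'
    rw [mem_image] at hy hy'
    obtain ⟨m, hm, rfl⟩ := hy
    obtain ⟨n, hn, hn'⟩ := hy'
    rw [mem_Ioc] at hm hn
    have h5 := (hg1 m hm.2).1
    have h6 := (hg2 n hn.2).1
    rw [hn', mem_strip, mem_strip.1 h5] at h6
    exact hrs (Finset.singleton_injective h6)
  have hxn : x ∉ (Ioc b i).image g ∪ (Ioc b i).image g' := by
    intro h
    rw [mem_union, mem_image, mem_image] at h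
    rcases h with ⟨m, hm, h⟩ | ⟨m, hm, h⟩
    · rw [mem_Ioc] at hm
      have := (hg1 m hm.2).2.1
      rw [h] at this
      omega
    · rw [mem_Ioc] at hm
      have := (hg2 m hm.2).2.1
      rw [h] at this
      omega
  have hsub : insert x ((Ioc b i).image g ∪ (Ioc b i).image g') ⊆ above b x := by
    intro y hy
    rw [mem_insert, mem_union, mem_image, mem_image] at hy
    rw [mem_above]
    rcases hy with rfl | ⟨m, hm, rfl⟩ | ⟨m, hm, rfl⟩
    · exact ⟨le_rfl, by omega⟩
    · rw [mem_Ioc] at hm
      exact ⟨(hg1 m hm.2).2.2, by rw [(hg1 m hm.2).2.1]; exact hm.1⟩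
    · rw [mem_Ioc] at hm
      exact ⟨(hg2 m hm.2).2.2, by rw [(hg2 m hm.2).2.1]; exact hm.1⟩
  have := card_le_card hsub
  rw [card_insert_of_notMem hxn, card_union_of_disjoint hd, c1, c2] at this
  omega

/-- **no mixing**: `SSx b` is the product over the strips in all degrees `≤ 2 (i - b)` -/
theorem coeff_SSx_prod (hg : Grad α) {i b : ℕ} (hi : ∀ y : α, corank y ≤ i → y ∈ unmx α)
    (hb : b ≤ i) {r : ℕ} (hr : r ≤ 2 * (i - b)) :
    PowerSeries.coeff r (SSx α b) =
      PowerSeries.coeff r (∏ t ∈ lev α 0, SV (strip t) b) := by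
  rw [← SV_unmx]
  apply coeff_SSx_eq_SV unmx_upC (fun y hy => hi y (by omega))
  rintro ε hgood ⟨x, hx, hx'⟩
  have h1 := card_above_le hgood hx'
  have h2 := card_above_mixed hg hi hb hx
  omega

end NM

end Pool.Gauss
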