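import Pool.Agent.Work.MP_065141_co.K.NoMixB

/-!
# Divisibility by `X`

For an up-set `V` with an element of level `≥ b` every energy function supported on `V` and good
on `V` has a free element in `V`: the series `SV V b` is divisible by `X`.
-/

set_option autoImplicit false
set_option linter.unusedSectionVars false
open scoped Classical
open Finset

namespace Pool.Gauss

namespace NM

variable {α : Type} [Fintype α] [PartialOrder α]

/-- a good energy function supported on `V` has a free element in `V` -/
theorem exists_free (hg : Grad α) {V : Finset α} (hV : UpC V) {b : ℕ} {y0 : α} (hy0 : y0 ∈ V)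
    (hb : b ≤ corank y0) {ε : α → ℕ} (hε : ∀ x, ε x ≠ 0 → x ∈ V) :
    ∃ y ∈ V, ¬ inE b ε y ∧ ¬ outE b ε y := by
  have h0 : ∀ x, x ∉ V → ε x = 0 := fun x hx => by
    by_contra h
    exact hx (hε x h)
  -- an element of largest value, maximal among those
  obtain ⟨y1, hy1, hmax⟩ := Finset.exists_max_image V (fun y => min (corank y) b + ε y) ⟨y0, hy0⟩
  have hne : (V.filter fun y => min (corank y) b + ε y = min (corank y1) b + ε y1).Nonempty :=
    ⟨y1, by simp [hy1]⟩
  obtain ⟨y, hy⟩ := (V.filter fun y =>
    min (corank y) b + ε y = min (corank y1) b + ε y1).exists_maximal hne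
  have hyV := mem_filter.1 hy.prop
  have hmx : ∀ z ∈ V, min (corank z) b + ε z ≤ min (corank y) b + ε y := fun z hz => by
    rw [hyV.2]
    exact hmax z hz
  have hge : b ≤ min (corank y) b + ε y := by
    have := hmx y0 hy0
    rw [min_eq_right hb] at this
    omega
  have hup : ∀ z, y ⋖ z → min (corank z) b + ε z < min (corank y) b + ε y := by
    intro z hz
    have hzV := hV y hyV.1 z hz.le
    refine lt_of_le_of_ne (hmx z hzV) fun h => ?_
    have h1 : z ∈ V.filter fun y => min (corank y) b + ε y = min (corank y1) b + ε y1 := by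
      rw [mem_filter]
      exact ⟨hzV, by rw [h]; exact hyV.2⟩
    exact absurd (hy.le_of_ge h1 hz.le) (not_le_of_gt hz.lt)
  refine ⟨y, hyV.1, ?_, ?_⟩
  · rintro (⟨h1, h2 | ⟨x, hx, h2⟩⟩ | ⟨h1, x, hx, h2⟩)
    · rw [min_eq_left h1.le] at hge
      omega
    · have h3 := hg x y hx
      by_cases hxV : x ∈ V
      · have h4 := hmx x hxV
        rw [min_eq_left h1.le, min_eq_left (by omega)] at h4
        omega
      · rw [h0 x hxV] at h2
        rw [min_eq_left h1.le] at hge
        omega
    · have h3 := hg x y hx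
      have hxV : x ∈ V := hε x (by omega)
      have h4 := hmx x hxV
      rw [min_eq_right h1, min_eq_right (by omega)] at h4
      omega
  · rintro (⟨h1, z, hz, h2⟩ | ⟨h1, z, hz, h2⟩)
    · have h3 := hg y z hz
      have h4 := hup z hz
      rw [min_eq_left h1, min_eq_left (by omega)] at h4
      omega
    · have h3 := hg y z hz
      have h4 := hup z hz
      rw [min_eq_right (by omega), min_eq_right (by omega)] at h4
      omega

open Polynomial in
lemma X_dvd_tmV (hg : Grad α) {V : Finset α} (hV : UpC V) {b : ℕ} {y0 : α} (hy0 : y0 ∈ V)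
    (hb : b ≤ corank y0) {ε : α → ℕ} (hε : ∀ x, ε x ≠ 0 → x ∈ V) : (X : ℤ[X]) ∣ tmV V b ε := by
  unfold tmV
  by_cases h1 : GoodOn V b ε
  · rw [if_pos h1]
    obtain ⟨y, hy, h2⟩ := exists_free hg hV hy0 hb hε
    have h3 : 0 < (V.filter fun y => ¬ inE b ε y ∧ ¬ outE b ε y).card :=
      card_pos.2 ⟨y, mem_filter.2 ⟨hy, h2⟩⟩
    exact Dvd.dvd.mul_left (dvd_pow_self _ (by omega)) _
  · rw [if_neg h1]
    exact dvd_zero _

open Polynomial in
/-- **the coefficients of `SV V b` are divisible by `X`** -/
theorem X_dvd_coeff_SV (hg : Grad α) {V : Finset α} (hV : UpC V) {b : ℕ} {y0 : α} (hy0 : y0 ∈ V)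
    (hb : b ≤ corank y0) (r : ℕ) : (X : ℤ[X]) ∣ PowerSeries.coeff r (SV V b) := by
  rw [coeff_SV]
  apply Finset.dvd_sum
  intro ε hε
  rw [mem_piAntidiag] at hε
  exact X_dvd_tmV hg hV hy0 hb hε.2

open Polynomial in
/-- the coefficient of energy zero -/
theorem coeff_zero_SV (V : Finset α) (b : ℕ) :
    PowerSeries.coeff 0 (SV V b) =
      (X - 1 : ℤ[X]) ^ (V.filter fun y => corank y < b).card *
        X ^ (V.filter fun y => corank y = b).card := by
  rw [coeff_SV]
  have e : V.piAntidiag 0 = {0} := by simp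
  rw [e, sum_singleton]
  have hin : ∀ y : α, inE b (0 : α → ℕ) y ↔ corank y < b := by
    intro y
    constructor
    · rintro (⟨h1, _⟩ | ⟨_, x, _, h1⟩)
      · exact h1
      · simp at h1
    · intro h
      exact Or.inl ⟨h, Or.inl (by simpa using h)⟩
  have hout : ∀ y : α, outE b (0 : α → ℕ) y ↔ b < corank y := by
    intro y
    constructor
    · rintro (⟨_, z, _, h1⟩ | ⟨h1, _⟩)
      · simp at h1
      · exact h1
    · intro h
      obtain ⟨z, hz⟩ := exists_covBy_up (x := y) (by omega)
      exact Or.inr ⟨h, z, hz, le_rfl⟩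
  have hgood : GoodOn V b (0 : α → ℕ) := by
    intro y _
    rw [hin, hout]
    omega
  rw [tmV, if_pos hgood]
  congr 2
  · congr 1
    exact filter_congr fun y _ => hin y
  · congr 1
    exact filter_congr fun y _ => by rw [hin, hout]; omega

end NM

end Pool.Gauss
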