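import Pool.Agent.Work.MP_065141_co.K.NoMixC

/-!
# The first energy of the joins

All elements of the levels `≤ i` lie in strips. In degree `2 (i - b) + 1` the series `SSx b` is
the product over the strips plus one term for every mixed element `f` with exactly
`2 (i - b) + 1` elements above it (and itself) at the levels `> b`.
-/

set_option autoImplicit false
set_option linter.unusedSectionVars false
open scoped Classical
open Finset

namespace Pool.Gauss

namespace NM

variable {α : Type} [Fintype α] [PartialOrder α]

/-- the indicator of `above b f` -/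
noncomputable def ind (b : ℕ) (f y : α) : ℕ := if y ∈ above b f then 1 else 0

lemma ind_pos {b : ℕ} {f y : α} (h : y ∈ above b f) : ind b f y = 1 := if_pos h
lemma ind_zero {b : ℕ} {f y : α} (h : y ∉ above b f) : ind b f y = 0 := if_neg h

lemma inE_ind (hg : Grad α) {b : ℕ} {f y : α} (hf : b < corank f) :
    inE b (ind b f) y ↔ corank y < b ∨ (corank y = b ∧ f ≤ y) := by
  constructor
  · rintro (⟨h1, _⟩ | ⟨h1, x, hx, h2⟩)
    · exact Or.inl h1
    · right
      have h3 : x ∈ above b f := by
        by_contra h
        rw [ind_zero h] at h2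
        omega
      have h4 := (mem_above.1 h3).1.trans hx.le
      have h5 : y ∉ above b f := by
        intro h
        rw [ind_pos h, ind_pos h3] at h2
        omega
      rw [mem_above] at h5
      refine ⟨?_, h4⟩
      by_contra h6
      exact h5 ⟨h4, by omega⟩
  · rintro (h1 | ⟨h1, h2⟩)
    · have h3 : y ∉ above b f := fun h => by
        have := (mem_above.1 h).2
        omega
      refine Or.inl ⟨h1, Or.inl ?_⟩
      rw [ind_zero h3]
      omega
    · have h3 : y ∉ above b f := fun h => by
        have := (mem_above.1 h).2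
        omega
      have h4 : f < y := lt_of_le_of_ne h2 (by rintro rfl; omega)
      obtain ⟨c, hc1, hc2⟩ := exists_covBy_of_lt' h4
      refine Or.inr ⟨by omega, c, hc2, ?_⟩
      have h5 : c ∈ above b f := mem_above.2 ⟨hc1, by have := hg c y hc2; omega⟩
      rw [ind_zero h3, ind_pos h5]
      omega

lemma outE_ind (hg : Grad α) {b : ℕ} {f y : α} :
    outE b (ind b f) y ↔ b < corank y ∧ ¬ (f ≤ y ∧ corank y = b + 1) := by
  constructor
  · rintro (⟨h1, z, hz, h2⟩ | ⟨h1, z, hz, h2⟩)
    · exfalso
      have h3 : z ∉ above b f := fun h => by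
        have h4 := (mem_above.1 h).2
        have h5 := hg y z hz
        omega
      rw [ind_zero h3] at h2
      omega
    · refine ⟨h1, fun h3 => ?_⟩
      have h4 : y ∈ above b f := mem_above.2 ⟨h3.1, h1⟩
      have h5 : z ∉ above b f := fun h => by
        have h6 := (mem_above.1 h).2
        have h7 := hg y z hz
        omega
      rw [ind_pos h4, ind_zero h5] at h2
      omega
  · rintro ⟨h1, h2⟩
    obtain ⟨z, hz⟩ := exists_covBy_up (x := y) (by omega)
    refine Or.inr ⟨h1, z, hz, ?_⟩
    by_cases h3 : y ∈ above b f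
    · have h4 := (mem_above.1 h3).1
      have h5 : z ∈ above b f := by
        rw [mem_above]
        refine ⟨h4.trans hz.le, ?_⟩
        have h6 := hg y z hz
        by_contra h7
        exact h2 ⟨h4, by omega⟩
      rw [ind_pos h3, ind_pos h5]
    · rw [ind_zero h3]
      exact Nat.zero_le _

/-- the elements of level `l` above `f` -/
noncomputable def ab (l : ℕ) (f : α) : Finset α := (lev α l).filter fun y => f ≤ y

lemma mem_ab {l : ℕ} {f y : α} : y ∈ ab l f ↔ corank y = l ∧ f ≤ y := by
  rw [ab, mem_filter, mem_lev]

open Polynomial in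
/-- the weight of the indicator -/
theorem tm_ind (hg : Grad α) {b : ℕ} {f : α} (hf : b < corank f) :
    tm b (ind b f) = (X - 1 : ℤ[X]) ^ ((univ.filter fun y : α => corank y < b).card +
      (ab b f).card) * X ^ (((lev α b).card - (ab b f).card) + (ab (b + 1) f).card) := by
  have hgood : GoodE b (ind b f) := by
    rintro y ⟨h1, h2⟩
    rw [inE_ind hg hf] at h1
    rw [outE_ind hg] at h2
    omega
  rw [tm, if_pos hgood]
  congr 2
  · rw [← card_union_of_disjoint]
    · congr 1
      ext y
      rw [inF, mem_filter, inE_ind hg hf, mem_union, mem_filter, mem_ab]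
      simp only [mem_univ, true_and]
    · rw [Finset.disjoint_left]
      intro y h1 h2
      rw [mem_filter] at h1
      rw [mem_ab] at h2
      omega
  · have h1 : (ab b f).card ≤ (lev α b).card := card_le_card (filter_subset _ _)
    have h2 : (lev α b).card - (ab b f).card = ((lev α b) \ (ab b f)).card := by
      rw [card_sdiff_of_subset (show ab b f ⊆ lev α b from filter_subset _ _)]
    rw [h2, ← card_union_of_disjoint]
    · congr 1
      ext y
      rw [pkF, mem_filter, inE_ind hg hf, outE_ind hg, mem_union, mem_sdiff, mem_lev, mem_ab,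
        mem_ab]
      simp only [mem_univ, true_and]
      constructor
      · rintro ⟨h3, h4⟩
        by_cases h5 : corank y = b
        · exact Or.inl ⟨h5, fun h6 => h3 (Or.inr ⟨h5, h6.2⟩)⟩
        · right
          have h6 : b < corank y := by
            by_contra h7
            exact h3 (Or.inl (by omega))
          by_contra h7
          exact h4 ⟨h6, fun h8 => h7 ⟨h8.2, h8.1⟩⟩
      · rintro (⟨h3, h4⟩ | ⟨h3, h4⟩)
        · refine ⟨?_, by omega⟩
          rintro (h5 | ⟨_, h5⟩)
          · omega
          · exact h4 ⟨h3, h5⟩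
        · refine ⟨by omega, ?_⟩
          rintro ⟨_, h5⟩
          exact h5 ⟨h4, h3⟩
    · rw [Finset.disjoint_left]
      intro y h3 h4
      rw [mem_sdiff, mem_lev] at h3
      rw [mem_ab] at h4
      omega

/-- the mixed elements of least energy at the base `b` -/
noncomputable def JJ (α : Type) [Fintype α] [PartialOrder α] (i b : ℕ) : Finset α :=
  univ.filter fun f => f ∉ unmx α ∧ (above b f).card = 2 * (i - b) + 1

lemma mem_JJ {i b : ℕ} {f : α} : f ∈ JJ α i b ↔
    f ∉ unmx α ∧ (above b f).card = 2 * (i - b) + 1 := by simp [JJ]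

lemma self_mem_above {b : ℕ} {f : α} (hf : b < corank f) : f ∈ above b f :=
  mem_above.2 ⟨le_rfl, hf⟩

lemma above_inj {b : ℕ} {f g : α} (hf : b < corank f) (hg : b < corank g)
    (h : above b f = above b g) : f = g := by
  have h1 := self_mem_above hf
  have h2 := self_mem_above hg
  rw [h] at h1
  rw [← h] at h2
  exact le_antisymm (mem_above.1 h2).1 (mem_above.1 h1).1

lemma sum_ind (b : ℕ) (f : α) : ∑ p, ind b f p = (above b f).card := by
  unfold ind
  rw [Finset.sum_boole]
  simp

/-- the good energy functions of the first join energy -/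
lemma eq_ind (hg : Grad α) {i b : ℕ} (hi : ∀ y : α, corank y ≤ i → y ∈ unmx α) (hb : b ≤ i)
    {ε : α → ℕ} (hgood : GoodE b ε) {x : α} (hx : x ∉ unmx α) (hx' : ε x ≠ 0)
    (hs : ∑ p, ε p = 2 * (i - b) + 1) : x ∈ JJ α i b ∧ ε = ind b x := by
  have h1 := card_above_mixed hg hi hb hx
  have h2 := card_above_le hgood hx'
  have h3 : (above b x).card = 2 * (i - b) + 1 := by omega
  refine ⟨mem_JJ.2 ⟨hx, h3⟩, ?_⟩
  have h4 : ∀ p ∈ above b x, 1 ≤ ε p := by
    intro p hp
    rw [mem_above] at hp
    have := pos_of_le hgood (corank x) x p (by omega) hp.1 hx' hp.2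
    omega
  have h5 : ∑ p ∈ above b x, ε p + ∑ p ∈ (above b x)ᶜ, ε p = 2 * (i - b) + 1 := by
    rw [Finset.sum_add_sum_compl, hs]
  have h6 : (above b x).card ≤ ∑ p ∈ above b x, ε p := by
    calc (above b x).card = ∑ p ∈ above b x, 1 := by simp
      _ ≤ ∑ p ∈ above b x, ε p := Finset.sum_le_sum h4
  have h7 : ∑ p ∈ (above b x)ᶜ, ε p = 0 := by omega
  have h8 : ∑ p ∈ above b x, (ε p - 1) = 0 := by
    have h9 : ∑ p ∈ above b x, (ε p - 1) + ∑ p ∈ above b x, 1 = ∑ p ∈ above b x, ε p := by
      rw [← Finset.sum_add_distrib]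
      apply Finset.sum_congr rfl
      intro p hp
      have := h4 p hp
      omega
    rw [Finset.sum_const, smul_eq_mul, mul_one] at h9
    omega
  funext p
  by_cases hp : p ∈ above b x
  · rw [ind_pos hp]
    have := Finset.sum_eq_zero_iff.1 h8 p hp
    have := h4 p hp
    omega
  · rw [ind_zero hp]
    exact Finset.sum_eq_zero_iff.1 h7 p (mem_compl.2 hp)

open Polynomial in
/-- **the first join energy** -/
theorem coeff_SSx_join (hg : Grad α) {i b : ℕ} (hi : ∀ y : α, corank y ≤ i → y ∈ unmx α)
    (hb : b ≤ i) : PowerSeries.coeff (2 * (i - b) + 1) (SSx α b) =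
      PowerSeries.coeff (2 * (i - b) + 1) (∏ t ∈ lev α 0, SV (strip t) b) +
      ∑ f ∈ JJ α i b, (X - 1 : ℤ[X]) ^ ((univ.filter fun y : α => corank y < b).card +
        (ab b f).card) * X ^ (((lev α b).card - (ab b f).card) + (ab (b + 1) f).card) := by
  rw [← SV_unmx, coeff_SSx, coeff_SV]
  have hmix : ∀ f : α, f ∉ unmx α → b < corank f := fun f hf => by
    by_contra h
    exact hf (hi f (by omega))
  rw [← Finset.sum_filter_add_sum_filter_not _ (fun ε : α → ℕ => ∀ x, ε x ≠ 0 → x ∈ unmx α)]
  congr 1
  · have e : ((univ : Finset α).piAntidiag (2 * (i - b) + 1)).filter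
        (fun ε : α → ℕ => ∀ x, ε x ≠ 0 → x ∈ unmx α) = (unmx α).piAntidiag (2 * (i - b) + 1) := by
      ext ε
      rw [mem_filter, mem_piAntidiag, mem_piAntidiag]
      constructor
      · rintro ⟨⟨h1, _⟩, h2⟩
        refine ⟨?_, h2⟩
        rw [← h1]
        apply Finset.sum_subset (subset_univ _)
        intro x _ hx
        by_contra h
        exact hx (h2 x h)
      · rintro ⟨h1, h2⟩
        refine ⟨⟨?_, fun _ _ => mem_univ _⟩, h2⟩
        rw [← h1]
        symm
        apply Finset.sum_subset (subset_univ _)
        intro x _ hx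
        by_contra h
        exact hx (h2 x h)
    rw [e]
    apply Finset.sum_congr rfl
    intro ε hε
    rw [mem_piAntidiag] at hε
    exact tm_eq_tmV unmx_upC (fun y hy => hi y (by omega)) hε.2
  · have h1 : ∑ f ∈ JJ α i b, (X - 1 : ℤ[X]) ^ ((univ.filter fun y : α => corank y < b).card +
        (ab b f).card) * X ^ (((lev α b).card - (ab b f).card) + (ab (b + 1) f).card) =
        ∑ ε ∈ (JJ α i b).image (ind b), tm b ε := by
      rw [Finset.sum_image]
      · apply Finset.sum_congr rfl
        intro f hf
        rw [tm_ind hg (hmix f (mem_JJ.1 hf).1)]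
      · intro f hf g hg' hfg
        rw [mem_coe, mem_JJ] at hf hg'
        apply above_inj (hmix f hf.1) (hmix g hg'.1)
        ext y
        have := congrFun hfg y
        unfold ind at this
        by_cases h1 : y ∈ above b f
        · rw [if_pos h1] at this
          by_contra h2
          have h3 : y ∉ above b g := fun h => h2 (iff_of_true h1 h)
          rw [if_neg h3] at this
          omega
        · rw [if_neg h1] at this
          by_contra h2
          have h3 : y ∈ above b g := by
            by_contra h
            exact h2 (iff_of_false h1 h)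
          rw [if_pos h3] at this
          omega
    rw [h1]
    symm
    apply Finset.sum_subset
    · intro ε hε
      rw [mem_image] at hε
      obtain ⟨f, hf, rfl⟩ := hε
      rw [mem_JJ] at hf
      rw [mem_filter, mem_piAntidiag]
      refine ⟨⟨by rw [sum_ind, hf.2], fun _ _ => mem_univ _⟩, fun h => hf.1 (h f ?_)⟩
      rw [ind_pos (self_mem_above (hmix f hf.1))]
      omega
    · intro ε hε hε'
      rw [mem_filter, mem_piAntidiag] at hε
      obtain ⟨⟨h2, _⟩, h3⟩ := hε
      push Not at h3
      obtain ⟨x, hx, hx'⟩ := h3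
      rw [tm]
      by_cases hgood : GoodE b ε
      · obtain ⟨h4, h5⟩ := eq_ind hg hi hb hgood hx' hx h2
        exfalso
        apply hε'
        rw [mem_image]
        exact ⟨x, h4, h5.symm⟩
      · rw [if_neg hgood]

end NM

end Pool.Gauss
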