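import Pool.Agent.Work.MP_065141_co.K.KOne8
import Pool.Agent.Work.MP_065141_co.K.RelPK

/-!
# The first order relation at a perfect level

`PQ_eq`: as many P-events as Q-events.  `V4_perf`: no element at distance two over two disjoint
pairs.
-/

set_option autoImplicit false
set_option linter.unusedSectionVars false
open scoped Classical
open Finset Polynomial

namespace Pool.Gauss

variable {α : Type} [Fintype α] [PartialOrder α]

/-- the matching polynomial of the zero weight -/
lemma MP_of_zero {V : Type} (W : Finset V → ℤ) (U : Finset V)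
    (h : ∀ s ⊆ U, s.card = 2 → W s = 0) : MP W U = 1 := by
  rw [MP, sum_eq_single ∅]
  · simp
  · intro F hF hne
    obtain ⟨s, hs⟩ := nonempty_iff_ne_empty.2 hne
    rw [mem_mtc] at hF
    have h1 : ∏ s ∈ F, W s = 0 := prod_eq_zero hs (h s (hF.1 s hs).1 (hF.1 s hs).2)
    rw [h1]
    simp
  · intro hF
    exact (hF (mem_mtc.2 ⟨by simp, by simp⟩)).elim

namespace CtxK

variable (C : CtxK α) {b : ℕ}
include C

lemma W0_perf (hP : Perf α b) {s : Finset α} (hs : s.card = 2) : W0 (α := α) b s = 0 := by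
  rw [C.W0_eq]
  unfold Wt
  rw [hP s hs]
  ring

lemma Mo_perf (hP : Perf α b) (S : Finset α) : Mo b S = 1 :=
  MP_of_zero _ _ fun _ _ hs => C.W0_perf hP hs

lemma Qy_perf (hP : Perf α b) (y : α) : Qy b y = 1 := by
  rw [Qy, sum_eq_single ∅]
  · rw [prod_empty, one_mul]
    exact MP_of_zero _ _ fun _ _ hs => C.W0_perf hP hs
  · intro N hN hne
    obtain ⟨x, hx⟩ := nonempty_iff_ne_empty.2 hne
    have h1 : x ≠ y := ne_of_mem_erase (mem_powerset.1 hN hx)
    have h2 : ∏ x ∈ N, (-(Polynomial.C (W0 (α := α) b {y, x}) * X)) = 0 := by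
      apply prod_eq_zero hx
      rw [C.W0_perf hP (card_pair h1.symm)]
      simp
    rw [h2, zero_mul]
  · intro h
    exact (h (empty_mem_powerset _)).elim

/-- the number of adjacent pairs is the same above and below -/
lemma Ad_perf (hP : Perf α b) : (AdD (α := α) b).card = (AdU (α := α) b).card := by
  set A := (lev' α b).filter fun z => (Ch z).card = 2 with hA
  set B := (lev α (b + 1)).filter fun x => (Pr x).card = 2 with hB
  have hc : ∀ s, (A.filter fun z => Ch z = s).card = (B.filter fun x => Pr x = s).card := by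
    intro s
    by_cases hs : s.card = 2
    · have h1 := hP s hs
      unfold mC mD at h1
      rw [hA, hB, filter_filter, filter_filter]
      rw [← Finset.filter_congr (s := lev α (b + 1)) (p := fun x => Pr x = s)
        (fun x _ => ⟨fun h => ⟨by rw [h]; exact hs, h⟩, fun h => h.2⟩), h1]
      congr 1
      exact Finset.filter_congr fun x _ => ⟨fun h => h.2, fun h => ⟨by rw [h]; exact hs, h⟩⟩
    · rw [Finset.card_eq_zero.2, Finset.card_eq_zero.2]
      · rw [filter_eq_empty_iff]
        intro x hx h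
        rw [hB, mem_filter] at hx
        rw [h] at hx
        exact hs hx.2
      · rw [filter_eq_empty_iff]
        intro x hx h
        rw [hA, mem_filter] at hx
        rw [h] at hx
        exact hs hx.2
  obtain ⟨φ, h1, h2, h3⟩ := relp_match hc
  have hAm : ∀ z, z ∈ A ↔ ds b z = 1 ∧ (bd b z).card = 2 ∧ corank z < b := by
    intro z
    rw [hA, mem_filter, mem_lev']
    constructor
    · rintro ⟨h4, h5⟩
      rw [C.relp_bd_above (by omega)]
      refine ⟨?_, h5, by omega⟩
      unfold ds
      omega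
    · rintro ⟨h4, h5, h6⟩
      rw [C.relp_bd_above (by omega)] at h5
      unfold ds at h4
      exact ⟨by omega, h5⟩
  have hBm : ∀ x, x ∈ B ↔ ds b x = 1 ∧ (bd b x).card = 2 ∧ b < corank x := by
    intro x
    rw [hB, mem_filter, mem_lev]
    constructor
    · rintro ⟨h4, h5⟩
      rw [C.relp_bd_below (by omega)]
      refine ⟨?_, h5, by omega⟩
      unfold ds
      omega
    · rintro ⟨h4, h5, h6⟩
      rw [C.relp_bd_below (by omega)] at h5
      unfold ds at h4
      exact ⟨by omega, h5⟩
  have hbd : ∀ z ∈ A, bd b (φ z) = bd b z := by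
    intro z hz
    have h4 := (h1 z hz).2
    have h5 := (hAm z).1 hz
    have h6 := (hBm (φ z)).1 (h1 z hz).1
    rw [C.relp_bd_above (p := z) (by omega), C.relp_bd_below (p := φ z) (by omega), h4]
  symm
  refine Finset.card_bij (fun B' _ => B'.image φ) ?_ ?_ ?_
  · intro S hS
    rw [mem_AdU] at hS
    have hSA : ∀ z ∈ S, z ∈ A := fun z hz => (hAm z).2 (hS.2.1 z hz)
    rw [mem_AdD]
    refine ⟨?_, ?_, ?_⟩
    · rw [card_image_of_injOn, hS.1]
      intro z hz z' hz' h4
      exact h2 z (hSA z hz) z' (hSA z' hz') h4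
    · intro x hx
      obtain ⟨z, hz, rfl⟩ := mem_image.1 hx
      exact (hBm _).1 (h1 z (hSA z hz)).1
    · have h4 : VB b (S.image φ) = VB b S := by
        unfold VB
        rw [image_biUnion]
        exact biUnion_congr rfl fun z hz => hbd z (hSA z hz)
      rw [h4, hS.2.2]
  · intro S hS T hT h4
    rw [mem_AdU] at hS hT
    have hSA : ∀ z ∈ S, z ∈ A := fun z hz => (hAm z).2 (hS.2.1 z hz)
    have hTA : ∀ z ∈ T, z ∈ A := fun z hz => (hAm z).2 (hT.2.1 z hz)
    have key : ∀ S T : Finset α, (∀ z ∈ S, z ∈ A) → (∀ z ∈ T, z ∈ A) →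
        S.image φ = T.image φ → S ⊆ T := by
      intro S T hS hT h z hz
      have h5 : φ z ∈ T.image φ := by
        rw [← h]
        exact mem_image_of_mem _ hz
      obtain ⟨z', hz', h6⟩ := mem_image.1 h5
      rw [← h2 z' (hT z' hz') z (hS z hz) h6]
      exact hz'
    exact Subset.antisymm (key S T hSA hTA h4) (key T S hTA hSA h4.symm)
  · intro T hT
    rw [mem_AdD] at hT
    refine ⟨A.filter fun z => φ z ∈ T, ?_, ?_⟩
    · have hSA : ∀ z ∈ A.filter (fun z => φ z ∈ T), z ∈ A := fun z hz => (mem_filter.1 hz).1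
      have h5 : (A.filter fun z => φ z ∈ T).image φ = T := by
        ext x
        rw [mem_image]
        constructor
        · rintro ⟨z, hz, rfl⟩
          exact (mem_filter.1 hz).2
        · intro hx
          obtain ⟨z, hz, rfl⟩ := h3 x ((hBm x).2 (hT.2.1 x hx))
          exact ⟨z, mem_filter.2 ⟨hz, hx⟩, rfl⟩
      rw [mem_AdU]
      refine ⟨?_, ?_, ?_⟩
      · rw [← hT.1, ← card_image_of_injOn (f := φ) (s := A.filter fun z => φ z ∈ T), h5]
        intro z hz z' hz' h6
        exact h2 z (hSA z hz) z' (hSA z' hz') h6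
      · intro z hz
        exact (hAm z).1 (hSA z hz)
      · have h6 : VB b (A.filter fun z => φ z ∈ T) = VB b T := by
          rw [← h5]
          unfold VB
          rw [image_biUnion, h5]
          exact biUnion_congr rfl fun z hz => (hbd z (hSA z hz)).symm
        rw [h6, hT.2.2]
    · ext x
      rw [mem_image]
      constructor
      · rintro ⟨z, hz, rfl⟩
        exact (mem_filter.1 hz).2
      · intro hx
        obtain ⟨z, hz, rfl⟩ := h3 x ((hBm x).2 (hT.2.1 x hx))
        exact ⟨z, mem_filter.2 ⟨hz, hx⟩, rfl⟩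

lemma Vs_eq : Vs (α := α) b = PEv α b ∪ QEv α b := by
  rw [← C.relp_U1]
  ext v
  rw [mem_Vs, mem_filter, mem_U1]
  constructor
  · rintro ⟨h1, h2, h3⟩
    refine ⟨⟨h1, h2⟩, ?_⟩
    obtain ⟨p, hp⟩ := card_eq_one.1 h2
    unfold BB
    rw [hp, singleton_biUnion]
    exact (h3.1 p (by rw [hp]; simp)).2
  · rintro ⟨⟨h1, h2⟩, h3⟩
    obtain ⟨h, hG⟩ := C.gauss
    refine ⟨h1, h2, ?_⟩
    obtain ⟨p, hp⟩ := card_eq_one.1 h2
    have h4 : ds b p = 1 := ds_of_mem_bd (grad hG) h1 (by rw [hp]; simp)
    unfold BB at h3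
    rw [hp, singleton_biUnion] at h3
    rw [hp]
    refine ⟨fun q hq => ?_, fun q hq q' hq' hne => ?_⟩
    · rw [mem_singleton] at hq
      rw [hq]
      exact ⟨h4, h3⟩
    · rw [mem_singleton] at hq hq'
      exact (hne (by rw [hq, hq'])).elim

/-- **as many P-events as Q-events at a perfect level; no k4 element** -/
theorem one_perf (hb : b < HT α) (hP : Perf α b) :
    (PEv α b).card = (QEv α b).card ∧ V4 (α := α) b = ∅ := by
  have h1 := C.K1_const hb
  unfold K1r at h1
  simp only [C.Mo_perf hP, C.Qy_perf hP, sum_const, mul_one] at h1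
  rw [C.Vs_eq, sum_union relp_disj, C.Ad_perf hP] at h1
  have h2 : ∑ v ∈ PEv α b, Polynomial.C (sgn0 b v) = ((PEv α b).card : ℤ[X]) := by
    rw [Finset.sum_congr rfl (g := fun _ => (1 : ℤ[X])), sum_const, nsmul_eq_mul, mul_one]
    intro v hv
    rw [mem_PEv] at hv
    unfold sgn0
    rw [if_neg (by omega)]
    simp
  have h3 : ∑ v ∈ QEv α b, Polynomial.C (sgn0 b v) = -((QEv α b).card : ℤ[X]) := by
    rw [Finset.sum_congr rfl (g := fun _ => (-1 : ℤ[X])), sum_const, nsmul_eq_mul, mul_neg, mul_one]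
    intro v hv
    rw [mem_QEv] at hv
    unfold sgn0
    rw [if_pos (by omega)]
    simp
  rw [h2, h3] at h1
  rw [sum_add_distrib, sum_const, ← sum_mul] at h1
  set p := (PEv α b).card with hp
  set q := (QEv α b).card with hq
  set v := (V4 (α := α) b).card with hv
  have h4 : ∑ i ∈ V4 (α := α) b, Polynomial.C (sgn0 b i) =
      Polynomial.C (∑ i ∈ V4 (α := α) b, sgn0 b i) := by
    rw [map_sum]
  rw [h4] at h1
  set s := ∑ i ∈ V4 (α := α) b, sgn0 b i with hs
  set c0 := ((lev α b).card : ℤ) - (Sg1 (α := α) b).card - 3 * (DbD (α := α) b).card with hc0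
  have h5 : Polynomial.C (((p : ℤ) - q)) * X + Polynomial.C (v : ℤ) * X ^ 2 +
      Polynomial.C s * X ^ 3 = 0 := by
    have h6 : ((lev α b).card : ℤ[X]) - ((Sg1 (α := α) b).card : ℤ[X]) -
        3 * ((DbD (α := α) b).card : ℤ[X]) = Polynomial.C c0 := by
      rw [hc0]
      simp
    simp only [nsmul_eq_mul, mul_one] at h1
    rw [← h6] at h1
    simp only [map_sub, map_natCast]
    linear_combination h1
  have e1 := congrArg (fun P => Polynomial.coeff P 1) h5
  have e2 := congrArg (fun P => Polynomial.coeff P 2) h5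
  simp [coeff_X_pow] at e1 e2
  refine ⟨by omega, card_eq_zero.1 (by rw [← hv]; exact e2)⟩

end CtxK

end Pool.Gauss
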