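import Pool.Agent.Work.MP_065141_co.K.DualK

/-!
# Planar coordinates of the rows above a perfect region, any number of maximal elements

`f a r c` is the element of row `r` and column `c` of the strip under the maximal element `a`,
`lo a r ≤ c ≤ hi a r`.  The upper covers of `f a (r + 1) c` are `f a r (c - 1)` and `f a r c`
(as far as they exist), the lower covers of `f a r c` are `f a (r + 1) c` and `f a (r + 1) (c + 1)`.
-/

set_option autoImplicit false
set_option linter.unusedSectionVars false
open scoped Classical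
open Finset

namespace Pool.Gauss

variable {α : Type} [Fintype α] [PartialOrder α]

/-- planar coordinates on the rows `0, ..., i` -/
structure Pln (lo hi : α → ℕ → ℕ) (i : ℕ) (f : α → ℕ → ℕ → α) : Prop where
  lo0 : ∀ a, lo a 0 = 0
  hi0 : ∀ a, hi a 0 = 0
  loS : ∀ a r, corank a = 0 → r < i → lo a r ≤ lo a (r + 1) ∧ lo a (r + 1) ≤ lo a r + 1
  hiS : ∀ a r, corank a = 0 → r < i → hi a r ≤ hi a (r + 1) ∧ hi a (r + 1) ≤ hi a r + 1
  le : ∀ a r, corank a = 0 → r ≤ i → lo a r ≤ hi a r
  top : ∀ a, corank a = 0 → f a 0 0 = a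
  cor : ∀ a r c, corank a = 0 → r ≤ i → lo a r ≤ c → c ≤ hi a r → corank (f a r c) = r
  inj : ∀ a b r c c', corank a = 0 → corank b = 0 → r ≤ i → lo a r ≤ c → c ≤ hi a r →
    lo b r ≤ c' → c' ≤ hi b r → f a r c = f b r c' → a = b ∧ c = c'
  sur : ∀ x : α, corank x ≤ i → ∃ a c, corank a = 0 ∧ lo a (corank x) ≤ c ∧
    c ≤ hi a (corank x) ∧ x = f a (corank x) c
  pr : ∀ a r c, corank a = 0 → r < i → lo a (r + 1) ≤ c → c ≤ hi a (r + 1) →
    ∀ y, y ∈ Pr (f a (r + 1) c) ↔
      ∃ e, (e = c ∨ e + 1 = c) ∧ lo a r ≤ e ∧ e ≤ hi a r ∧ y = f a r e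

namespace Pln

variable {lo hi : α → ℕ → ℕ} {i : ℕ} {f : α → ℕ → ℕ → α}

lemma mono (h : Pln lo hi i f) {j : ℕ} (hj : j ≤ i) : Pln lo hi j f where
  lo0 := h.lo0
  hi0 := h.hi0
  loS a r ha hr := h.loS a r ha (by omega)
  hiS a r ha hr := h.hiS a r ha (by omega)
  le a r ha hr := h.le a r ha (by omega)
  top := h.top
  cor a r c ha hr := h.cor a r c ha (by omega)
  inj a b r c c' ha hb hr := h.inj a b r c c' ha hb (by omega)
  sur x hx := h.sur x (by omega)
  pr a r c ha hr := h.pr a r c ha (by omega)

lemma sur' (h : Pln lo hi i f) {x : α} {r : ℕ} (hr : r ≤ i) (hx : corank x = r) :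
    ∃ a c, corank a = 0 ∧ lo a r ≤ c ∧ c ≤ hi a r ∧ x = f a r c := by
  subst hx
  exact h.sur x hr

/-- lower covers in coordinates -/
lemma mem_Ch (h : Pln lo hi i f) (C : CtxK α) {a : α} {r c : ℕ} (ha : corank a = 0) (hr : r < i)
    (h1 : lo a r ≤ c) (h2 : c ≤ hi a r) {x : α} :
    x ∈ Ch (f a r c) ↔
      ∃ e, (e = c ∨ e = c + 1) ∧ lo a (r + 1) ≤ e ∧ e ≤ hi a (r + 1) ∧ x = f a (r + 1) e := by
  constructor
  · intro hx
    have h3 := C.corank_of_mem_Ch hx
    rw [h.cor a r c ha (by omega) h1 h2] at h3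
    obtain ⟨b, e, hb, h4, h5, rfl⟩ := h.sur' (by omega) h3
    rw [← mem_Pr_iff, h.pr b r e hb hr h4 h5] at hx
    obtain ⟨e', h6, h7, h8, h9⟩ := hx
    obtain ⟨rfl, rfl⟩ := h.inj a b r c e' ha hb (by omega) h1 h2 h7 h8 h9
    exact ⟨e, by omega, h4, h5, rfl⟩
  · rintro ⟨e, h3, h4, h5, rfl⟩
    rw [← mem_Pr_iff, h.pr a r e ha hr h4 h5]
    exact ⟨c, by omega, h1, h2, rfl⟩

/-- the pairs above row `i` are adjacent pairs of a strip -/
lemma mD_pos (h : Pln lo hi i f) (C : CtxK α) {g : Finset α} (hg : g.card = 2)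
    (hm : 0 < mD i g) : ∃ a c, corank a = 0 ∧ lo a i ≤ c ∧ c + 1 ≤ hi a i ∧
      g = {f a i c, f a i (c + 1)} := by
  unfold mD at hm
  obtain ⟨z, hz⟩ := card_pos.1 hm
  rw [mem_filter, mem_lev'] at hz
  obtain ⟨hz1, hz2⟩ := hz
  obtain ⟨j, rfl⟩ : ∃ j, i = j + 1 := ⟨i - 1, by omega⟩
  obtain ⟨a, c, ha, h1, h2, rfl⟩ := h.sur' (r := j) (by omega) (by omega : corank z = j)
  obtain ⟨u, v, huv, rfl⟩ := card_eq_two.1 hg
  have hu : u ∈ Ch (f a j c) := by rw [hz2]; simp
  have hv : v ∈ Ch (f a j c) := by rw [hz2]; simp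
  rw [h.mem_Ch C ha (by omega) h1 h2] at hu hv
  obtain ⟨e, h3, h4, h5, rfl⟩ := hu
  obtain ⟨e', h6, h7, h8, rfl⟩ := hv
  have hne : e ≠ e' := by
    rintro rfl
    exact huv rfl
  rcases h3 with rfl | rfl
  · rcases h6 with rfl | rfl
    · exact absurd rfl hne
    · exact ⟨a, e, ha, h4, h8, rfl⟩
  · rcases h6 with rfl | rfl
    · exact ⟨a, e', ha, h7, h5, pair_comm _ _⟩
    · exact absurd rfl hne

/-- adjacent elements of a strip have exactly one common upper cover -/
lemma mD_one (h : Pln lo hi i f) (C : CtxK α) {a : α} {c : ℕ} (ha : corank a = 0)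
    (h1 : lo a i ≤ c) (h2 : c + 1 ≤ hi a i) : mD i {f a i c, f a i (c + 1)} = 1 := by
  have hi0 : i ≠ 0 := by
    rintro rfl
    rw [h.hi0] at h2
    omega
  obtain ⟨j, rfl⟩ : ∃ j, i = j + 1 := ⟨i - 1, by omega⟩
  have h3 := h.loS a j ha (by omega)
  have h4 := h.hiS a j ha (by omega)
  unfold mD
  rw [card_eq_one]
  refine ⟨f a j c, ?_⟩
  ext z
  rw [mem_filter, mem_lev', mem_singleton]
  constructor
  · rintro ⟨hz1, hz2⟩
    obtain ⟨b, e, hb, h5, h6, rfl⟩ := h.sur' (r := j) (by omega) (by omega : corank z = j)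
    have hu : f a (j + 1) c ∈ Ch (f b j e) := by rw [hz2]; simp
    have hv : f a (j + 1) (c + 1) ∈ Ch (f b j e) := by rw [hz2]; simp
    rw [h.mem_Ch C hb (by omega) h5 h6] at hu hv
    obtain ⟨e1, h7, h8, h9, h10⟩ := hu
    obtain ⟨e2, h11, h12, h13, h14⟩ := hv
    obtain ⟨rfl, rfl⟩ := h.inj a b (j + 1) c e1 ha hb le_rfl h1 (by omega) h8 h9 h10
    have := h.inj a a (j + 1) (c + 1) e2 ha ha le_rfl (by omega) h2 h12 h13 h14
    have he : e = c := by omega
    rw [he]
  · rintro rfl
    refine ⟨by rw [h.cor a j c ha (by omega) (by omega) (by omega)], ?_⟩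
    ext x
    rw [h.mem_Ch C ha (by omega) (by omega) (by omega), mem_insert, mem_singleton]
    constructor
    · rintro ⟨e, rfl | rfl, _, _, rfl⟩
      · exact Or.inl rfl
      · exact Or.inr rfl
    · rintro (rfl | rfl)
      · exact ⟨c, Or.inl rfl, h1, by omega, rfl⟩
      · exact ⟨c + 1, Or.inr rfl, by omega, h2, rfl⟩

/-- the extension of one strip -/
lemma strip (h : Pln lo hi i f) (C : CtxK α) (hH : i + 1 < HT α) (hP : Perf α i) {a : α}
    (ha : corank a = 0) : ∃ (l u : ℕ) (g : ℕ → α), (lo a i ≤ l ∧ l ≤ lo a i + 1) ∧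
      (hi a i ≤ u ∧ u ≤ hi a i + 1) ∧ l ≤ u ∧
      (∀ c, l ≤ c → c ≤ u → corank (g c) = i + 1 ∧ ∀ y, y ∈ Pr (g c) ↔
        ∃ e, (e = c ∨ e + 1 = c) ∧ lo a i ≤ e ∧ e ≤ hi a i ∧ y = f a i e) ∧
      (∀ c c', l ≤ c → c ≤ u → l ≤ c' → c' ≤ u → g c = g c' → c = c') ∧
      (∀ x c, lo a i ≤ c → c ≤ hi a i → f a i c ∈ Pr x → ∃ c', l ≤ c' ∧ c' ≤ u ∧ x = g c') := by
  have hle := h.le a i ha le_rfl
  have hcor : ∀ c, lo a i ≤ c → c ≤ hi a i → corank (f a i c) = i :=
    fun c h1 h2 => h.cor a i c ha le_rfl h1 h2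
  have hinj : ∀ c c', lo a i ≤ c → c ≤ hi a i → lo a i ≤ c' → c' ≤ hi a i →
      f a i c = f a i c' → c = c' := fun c c' h1 h2 h3 h4 h5 =>
    (h.inj a a i c c' ha ha le_rfl h1 h2 h3 h4 h5).2
  -- double elements
  have F1 : ∀ x c, lo a i ≤ c → c ≤ hi a i → f a i c ∈ Pr x → (Pr x).card = 2 →
      ∃ e, lo a i ≤ e ∧ e + 1 ≤ hi a i ∧ (c = e ∨ c = e + 1) ∧
        Pr x = {f a i e, f a i (e + 1)} := by
    intro x c h1 h2 h3 h4
    have h5 := C.corank_of_mem_Pr h3
    rw [hcor c h1 h2] at h5
    have h6 : 0 < mC i (Pr x) := card_pos.2 ⟨x, mem_filter.2 ⟨mem_lev.2 h5, rfl⟩⟩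
    rw [hP _ h4] at h6
    obtain ⟨b, e, hb, h7, h8, h9⟩ := h.mD_pos C h4 h6
    rw [h9, mem_insert, mem_singleton] at h3
    rcases h3 with h3 | h3
    · obtain ⟨rfl, rfl⟩ := h.inj a b i c e ha hb le_rfl h1 h2 h7 (by omega) h3
      exact ⟨c, h1, h8, Or.inl rfl, h9⟩
    · obtain ⟨rfl, rfl⟩ := h.inj a b i c (e + 1) ha hb le_rfl h1 h2 (by omega) h8 h3
      exact ⟨e, h7, h8, Or.inr rfl, h9⟩
  have F2 : ∀ e, lo a i ≤ e → e + 1 ≤ hi a i → ∃ x, Pr x = {f a i e, f a i (e + 1)} ∧
      ∀ x', Pr x' = {f a i e, f a i (e + 1)} → x' = x := by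
    intro e h1 h2
    have h3 : f a i e ≠ f a i (e + 1) := by
      intro h4
      have := hinj e (e + 1) h1 (by omega) (by omega) h2 h4
      omega
    have h4 := h.mD_one C ha h1 h2
    rw [← hP _ (card_pair h3)] at h4
    unfold mC at h4
    obtain ⟨x, hx⟩ := card_eq_one.1 h4
    have hx1 : x ∈ ((lev α (i + 1)).filter fun x => Pr x = {f a i e, f a i (e + 1)}) := by
      rw [hx]; simp
    rw [mem_filter] at hx1
    refine ⟨x, hx1.2, fun x' hx' => ?_⟩
    have h5 : f a i e ∈ Pr x' := by rw [hx']; simp
    have h6 := C.corank_of_mem_Pr h5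
    rw [hcor e h1 (by omega)] at h6
    have h7 : x' ∈ ((lev α (i + 1)).filter fun x => Pr x = {f a i e, f a i (e + 1)}) :=
      mem_filter.2 ⟨mem_lev.2 h6, hx'⟩
    rw [hx, mem_singleton] at h7
    exact h7
  have F3 : ∀ x c, lo a i ≤ c → c ≤ hi a i → f a i c ∈ Pr x → (Pr x).card = 1 →
      Pr x = {f a i c} := by
    intro x c h1 h2 h3 h4
    obtain ⟨y, hy⟩ := card_eq_one.1 h4
    rw [hy, mem_singleton] at h3
    rw [hy, h3]
  have F0 : ∀ x c, lo a i ≤ c → c ≤ hi a i → f a i c ∈ Pr x → (Pr x).card = 1 ∨ (Pr x).card = 2 := by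
    intro x c h1 h2 h3
    have h5 := C.corank_of_mem_Pr h3
    exact C.pr_cases (by omega)
  rcases Nat.eq_or_lt_of_le hle with hw | hw
  · -- width one
    have hch : ∀ x, x ∈ Ch (f a i (lo a i)) → Pr x = {f a i (lo a i)} := by
      intro x hx
      rw [← mem_Pr_iff] at hx
      rcases F0 x _ le_rfl hle hx with h1 | h1
      · exact F3 x _ le_rfl hle hx h1
      · obtain ⟨e, h2, h3, _⟩ := F1 x _ le_rfl hle hx h1
        omega
    rcases C.ch_cases (x := f a i (lo a i)) (by rw [hcor _ le_rfl hle]; exact hH) with h1 | h1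
    · obtain ⟨x1, hx1⟩ := card_eq_one.1 h1
      refine ⟨lo a i, hi a i, fun _ => x1, by omega, by omega, hle, ?_, ?_, ?_⟩
      · intro c h2 h3
        have h4 : c = lo a i := by omega
        subst h4
        have h5 := hch x1 (by rw [hx1]; simp)
        have h6 : f a i (lo a i) ∈ Pr x1 := by rw [h5]; simp
        have h7 := C.corank_of_mem_Pr h6
        rw [hcor _ le_rfl hle] at h7
        refine ⟨h7, fun y => ?_⟩
        rw [h5, mem_singleton]
        constructor
        · rintro rfl
          exact ⟨_, Or.inl rfl, le_rfl, hle, rfl⟩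
        · rintro ⟨e, h8, h9, h10, rfl⟩
          have : e = lo a i := by omega
          rw [this]
      · intro c c' h2 h3 h4 h5 _
        omega
      · intro x c h2 h3 h4
        have h5 : c = lo a i := by omega
        subst h5
        rw [mem_Pr_iff, hx1, mem_singleton] at h4
        exact ⟨_, le_rfl, hle, h4⟩
    · obtain ⟨x1, x2, h12, hx1⟩ := card_eq_two.1 h1
      have key : ∀ x, x ∈ Ch (f a i (lo a i)) → corank x = i + 1 ∧ Pr x = {f a i (lo a i)} := by
        intro x hx
        have h7 := C.corank_of_mem_Ch hx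
        rw [hcor _ le_rfl hle] at h7
        exact ⟨h7, hch x hx⟩
      have k1 := key x1 (by rw [hx1]; simp)
      have k2 := key x2 (by rw [hx1]; simp)
      refine ⟨lo a i, hi a i + 1, fun c => if c = lo a i then x1 else x2, by omega, by omega,
        by omega, ?_, ?_, ?_⟩
      · intro c h2 h3
        have h4 : c = lo a i ∨ c = lo a i + 1 := by omega
        rcases h4 with rfl | rfl
        · simp only [if_true]
          refine ⟨k1.1, fun y => ?_⟩
          rw [k1.2, mem_singleton]
          constructor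
          · rintro rfl
            exact ⟨_, Or.inl rfl, le_rfl, hle, rfl⟩
          · rintro ⟨e, h8, h9, h10, rfl⟩
            have : e = lo a i := by omega
            rw [this]
        · try simp only
          rw [if_neg (by omega)]
          refine ⟨k2.1, fun y => ?_⟩
          rw [k2.2, mem_singleton]
          constructor
          · rintro rfl
            exact ⟨_, Or.inr rfl, le_rfl, hle, rfl⟩
          · rintro ⟨e, h8, h9, h10, rfl⟩
            have : e = lo a i := by omega
            rw [this]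
      · intro c c' h2 h3 h4 h5 h6
        simp only at h6
        split_ifs at h6 with h7 h8 h8
        · omega
        · exact absurd h6 h12
        · exact absurd h6.symm h12
        · omega
      · intro x c h2 h3 h4
        have h5 : c = lo a i := by omega
        subst h5
        rw [mem_Pr_iff, hx1, mem_insert, mem_singleton] at h4
        rcases h4 with rfl | rfl
        · exact ⟨lo a i, le_rfl, by omega, by simp⟩
        · exact ⟨lo a i + 1, by omega, by omega, by simp only; rw [if_neg (by omega)]⟩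
  · -- width at least two
    have F2' : ∀ e, ∃ x, lo a i ≤ e → e + 1 ≤ hi a i → Pr x = {f a i e, f a i (e + 1)} ∧
        ∀ x', Pr x' = {f a i e, f a i (e + 1)} → x' = x := by
      intro e
      by_cases h1 : lo a i ≤ e ∧ e + 1 ≤ hi a i
      · obtain ⟨x, hx⟩ := F2 e h1.1 h1.2
        exact ⟨x, fun _ _ => hx⟩
      · exact ⟨a, fun h2 h3 => absurd ⟨h2, h3⟩ h1⟩
    choose X hX using F2'
    have hXne : ∀ e e', lo a i ≤ e → e + 1 ≤ hi a i → lo a i ≤ e' → e' + 1 ≤ hi a i →
        X e = X e' → e = e' := by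
      intro e e' h1 h2 h3 h4 h5
      have h6 := (hX e h1 h2).1
      have h7 := (hX e' h3 h4).1
      rw [h5, h7] at h6
      have m1 : f a i e ∈ ({f a i e', f a i (e' + 1)} : Finset α) := by rw [h6]; simp
      have m2 : f a i (e + 1) ∈ ({f a i e', f a i (e' + 1)} : Finset α) := by rw [h6]; simp
      rw [mem_insert, mem_singleton] at m1 m2
      rcases m1 with m1 | m1
      · exact hinj _ _ h1 (by omega) h3 (by omega) m1
      · have e1 := hinj _ _ h1 (by omega) (by omega) h4 m1
        rcases m2 with m2 | m2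
        · have e2 := hinj _ _ (by omega) h2 h3 (by omega) m2
          omega
        · have e2 := hinj _ _ (by omega) h2 (by omega) h4 m2
          omega
    have hXch1 : ∀ e, lo a i ≤ e → e + 1 ≤ hi a i → X e ∈ Ch (f a i e) := by
      intro e h1 h2
      rw [← mem_Pr_iff, (hX e h1 h2).1]
      simp
    have hXch2 : ∀ e, lo a i ≤ e → e + 1 ≤ hi a i → X e ∈ Ch (f a i (e + 1)) := by
      intro e h1 h2
      rw [← mem_Pr_iff, (hX e h1 h2).1]
      simp
    have hXcard : ∀ e, lo a i ≤ e → e + 1 ≤ hi a i → (Pr (X e)).card = 2 := by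
      intro e h1 h2
      rw [(hX e h1 h2).1, card_pair]
      intro h4
      have := hinj e (e + 1) h1 (by omega) (by omega) h2 h4
      omega
    -- no single element below an interior element
    have F4 : ∀ x c, lo a i < c → c < hi a i → Pr x ≠ {f a i c} := by
      intro x c h1 h2 h3
      have h4 : x ∈ Ch (f a i c) := by
        rw [← mem_Pr_iff, h3]
        simp
      obtain ⟨c', rfl⟩ : ∃ c', c = c' + 1 := ⟨c - 1, by omega⟩
      have h5 := hXch1 (c' + 1) (by omega) (by omega)
      have h6 := hXch2 c' (by omega) (by omega)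
      have h7 : X (c' + 1) ≠ X c' := by
        intro h8
        have := hXne _ _ (by omega) (by omega) (by omega) (by omega) h8
        omega
      have h8 : x ≠ X (c' + 1) := by
        rintro rfl
        have := hXcard (c' + 1) (by omega) (by omega)
        rw [h3, card_singleton] at this
        omega
      have h9 : x ≠ X c' := by
        rintro rfl
        have := hXcard c' (by omega) (by omega)
        rw [h3, card_singleton] at this
        omega
      have h10 : ({x, X (c' + 1), X c'} : Finset α) ⊆ Ch (f a i (c' + 1)) := by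
        intro z hz
        rw [mem_insert, mem_insert, mem_singleton] at hz
        rcases hz with rfl | rfl | rfl
        · exact h4
        · exact h5
        · exact h6
      have h11 := card_le_card h10
      rw [card_insert_of_notMem, card_pair h7] at h11
      · have := C.ch_le (f a i (c' + 1))
        omega
      · rw [mem_insert, mem_singleton]
        rintro (h12 | h12)
        · exact h8 h12
        · exact h9 h12
    have F5 : ∀ x x' c e, lo a i ≤ c → c ≤ hi a i → lo a i ≤ e → e + 1 ≤ hi a i →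
        (c = e ∨ c = e + 1) → Pr x = {f a i c} → Pr x' = {f a i c} → x = x' := by
      intro x x' c e h1 h2 h3 h4 h5 h6 h7
      by_contra hne
      have m1 : x ∈ Ch (f a i c) := by
        rw [← mem_Pr_iff, h6]
        simp
      have m2 : x' ∈ Ch (f a i c) := by
        rw [← mem_Pr_iff, h7]
        simp
      have m3 : X e ∈ Ch (f a i c) := by
        rcases h5 with rfl | rfl
        · exact hXch1 _ h3 h4
        · exact hXch2 _ h3 h4
      have n1 : x ≠ X e := by
        rintro rfl
        have := hXcard e h3 h4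
        rw [h6, card_singleton] at this
        omega
      have n2 : x' ≠ X e := by
        rintro rfl
        have := hXcard e h3 h4
        rw [h7, card_singleton] at this
        omega
      have h10 : ({x, x', X e} : Finset α) ⊆ Ch (f a i c) := by
        intro z hz
        rw [mem_insert, mem_insert, mem_singleton] at hz
        rcases hz with rfl | rfl | rfl
        · exact m1
        · exact m2
        · exact m3
      have h11 := card_le_card h10
      rw [card_insert_of_notMem, card_pair n2] at h11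
      · have := C.ch_le (f a i c)
        omega
      · rw [mem_insert, mem_singleton]
        rintro (h12 | h12)
        · exact hne h12
        · exact n1 h12
    obtain ⟨l, xL, hl1, hl2, hl3, hl4⟩ : ∃ (l : ℕ) (xL : α), lo a i ≤ l ∧ l ≤ lo a i + 1 ∧
        (l = lo a i → Pr xL = {f a i (lo a i)}) ∧
        (∀ x, Pr x = {f a i (lo a i)} → l = lo a i ∧ x = xL) := by
      by_cases h1 : ∃ x, Pr x = {f a i (lo a i)}
      · obtain ⟨x, hx⟩ := h1
        refine ⟨lo a i, x, le_rfl, by omega, fun _ => hx, fun x' hx' => ⟨rfl, ?_⟩⟩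
        exact F5 x' x (lo a i) (lo a i) le_rfl hle le_rfl (by omega) (Or.inl rfl) hx' hx
      · exact ⟨lo a i + 1, a, by omega, le_rfl, fun h2 => by omega,
          fun x hx => absurd ⟨x, hx⟩ h1⟩
    obtain ⟨u, xR, hu1, hu2, hu3, hu4⟩ : ∃ (u : ℕ) (xR : α), hi a i ≤ u ∧ u ≤ hi a i + 1 ∧
        (u = hi a i + 1 → Pr xR = {f a i (hi a i)}) ∧
        (∀ x, Pr x = {f a i (hi a i)} → u = hi a i + 1 ∧ x = xR) := by
      by_cases h1 : ∃ x, Pr x = {f a i (hi a i)}
      · obtain ⟨x, hx⟩ := h1
        refine ⟨hi a i + 1, x, by omega, le_rfl, fun _ => hx, fun x' hx' => ⟨rfl, ?_⟩⟩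
        exact F5 x' x (hi a i) (hi a i - 1) hle le_rfl (by omega) (by omega)
          (Or.inr (by omega)) hx' hx
      · exact ⟨hi a i, a, le_rfl, by omega, fun h2 => by omega,
          fun x hx => absurd ⟨x, hx⟩ h1⟩
    refine ⟨l, u, fun c => if c ≤ lo a i then xL else if c ≤ hi a i then X (c - 1) else xR,
      ⟨hl1, hl2⟩, ⟨hu1, hu2⟩, by omega, ?_, ?_, ?_⟩
    · intro c h1 h2
      try simp only
      split_ifs with h3 h4
      · have h5 : c = lo a i := by omega
        subst h5
        have h6 := hl3 (by omega)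
        have h7 : f a i (lo a i) ∈ Pr xL := by rw [h6]; simp
        have h8 := C.corank_of_mem_Pr h7
        rw [hcor _ le_rfl hle] at h8
        refine ⟨h8, fun y => ?_⟩
        rw [h6, mem_singleton]
        constructor
        · rintro rfl
          exact ⟨_, Or.inl rfl, le_rfl, hle, rfl⟩
        · rintro ⟨e, h9, h10, h11, rfl⟩
          have : e = lo a i := by omega
          rw [this]
      · obtain ⟨c', rfl⟩ : ∃ c', c = c' + 1 := ⟨c - 1, by omega⟩
        rw [Nat.add_sub_cancel]
        have h6 := (hX c' (by omega) (by omega)).1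
        have h7 : f a i c' ∈ Pr (X c') := by rw [h6]; simp
        have h8 := C.corank_of_mem_Pr h7
        rw [hcor _ (by omega) (by omega)] at h8
        refine ⟨h8, fun y => ?_⟩
        rw [h6, mem_insert, mem_singleton]
        constructor
        · rintro (rfl | rfl)
          · exact ⟨c', Or.inr rfl, by omega, by omega, rfl⟩
          · exact ⟨c' + 1, Or.inl rfl, by omega, by omega, rfl⟩
        · rintro ⟨e, h9, h10, h11, rfl⟩
          rcases h9 with rfl | h9
          · exact Or.inr rfl
          · have : e = c' := by omega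
            rw [this]
            exact Or.inl rfl
      · have h5 : c = hi a i + 1 := by omega
        subst h5
        have h6 := hu3 (by omega)
        have h7 : f a i (hi a i) ∈ Pr xR := by rw [h6]; simp
        have h8 := C.corank_of_mem_Pr h7
        rw [hcor _ hle le_rfl] at h8
        refine ⟨h8, fun y => ?_⟩
        rw [h6, mem_singleton]
        constructor
        · rintro rfl
          exact ⟨_, Or.inr rfl, hle, le_rfl, rfl⟩
        · rintro ⟨e, h9, h10, h11, rfl⟩
          have : e = hi a i := by omega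
          rw [this]
    · intro c c' h1 h2 h3 h4 h5
      -- compare the upper covers
      have hL : c ≤ lo a i ∨ c' ≤ lo a i → l = lo a i := by omega
      have hR : hi a i < c ∨ hi a i < c' → u = hi a i + 1 := by omega
      simp only at h5
      split_ifs at h5 with h6 h7 h8 h7 h8 h9 h8 h9
      · omega
      · exfalso
        have h10 := congrArg (fun z => (Pr z).card) h5
        try simp only at h10
        rw [hl3 (hL (Or.inl h6)), card_singleton, hXcard (c' - 1) (by omega) (by omega)] at h10
        omega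
      · exfalso
        have h10 := congrArg Pr h5
        rw [hl3 (hL (Or.inl h6)), hu3 (hR (Or.inr (by omega)))] at h10
        have h11 := singleton_injective h10
        have := hinj _ _ le_rfl hle hle le_rfl h11
        omega
      · exfalso
        have h10 := congrArg (fun z => (Pr z).card) h5
        try simp only at h10
        rw [hl3 (hL (Or.inr h8)), card_singleton, hXcard (c - 1) (by omega) (by omega)] at h10
        omega
      · have := hXne (c - 1) (c' - 1) (by omega) (by omega) (by omega) (by omega) h5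
        omega
      · exfalso
        have h10 := congrArg (fun z => (Pr z).card) h5
        try simp only at h10
        rw [hu3 (hR (Or.inr (by omega))), card_singleton,
          hXcard (c - 1) (by omega) (by omega)] at h10
        omega
      · exfalso
        have h10 := congrArg Pr h5
        rw [hl3 (hL (Or.inr h8)), hu3 (hR (Or.inl (by omega)))] at h10
        have h11 := singleton_injective h10
        have := hinj _ _ hle le_rfl le_rfl hle h11
        omega
      · exfalso
        have h10 := congrArg (fun z => (Pr z).card) h5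
        try simp only at h10
        rw [hu3 (hR (Or.inl (by omega))), card_singleton,
          hXcard (c' - 1) (by omega) (by omega)] at h10
        omega
      · omega
    · intro x c h1 h2 h3
      rcases F0 x c h1 h2 h3 with h4 | h4
      · have h5 := F3 x c h1 h2 h3 h4
        rcases Nat.lt_or_ge (lo a i) c with h6 | h6
        · rcases Nat.lt_or_ge c (hi a i) with h7 | h7
          · exact absurd h5 (F4 x c h6 h7)
          · have h8 : c = hi a i := by omega
            rw [h8] at h5
            obtain ⟨h9, rfl⟩ := hu4 x h5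
            refine ⟨hi a i + 1, by omega, by omega, ?_⟩
            try simp only
            rw [if_neg (by omega), if_neg (by omega)]
        · have h8 : c = lo a i := by omega
          rw [h8] at h5
          obtain ⟨h9, rfl⟩ := hl4 x h5
          refine ⟨lo a i, by omega, by omega, ?_⟩
          try simp only
          rw [if_pos le_rfl]
      · obtain ⟨e, h5, h6, h7, h8⟩ := F1 x c h1 h2 h3 h4
        refine ⟨e + 1, by omega, by omega, ?_⟩
        try simp only
        rw [if_neg (by omega), if_pos h6, Nat.add_sub_cancel]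
        exact (hX e h5 h6).2 x h8

/-- the coordinates extend below a perfect row -/
theorem extend (h : Pln lo hi i f) (C : CtxK α) (hH : i + 1 < HT α) (hP : Perf α i) :
    ∃ (lo' hi' : α → ℕ → ℕ) (f' : α → ℕ → ℕ → α), Pln lo' hi' (i + 1) f' ∧
      (∀ a r, r ≤ i → lo' a r = lo a r ∧ hi' a r = hi a r) ∧
      ∀ a r c, r ≤ i → f' a r c = f a r c := by
  have key : ∀ a : α, ∃ (l u : ℕ) (g : ℕ → α), corank a = 0 →
      ((lo a i ≤ l ∧ l ≤ lo a i + 1) ∧
      (hi a i ≤ u ∧ u ≤ hi a i + 1) ∧ l ≤ u ∧
      (∀ c, l ≤ c → c ≤ u → corank (g c) = i + 1 ∧ ∀ y, y ∈ Pr (g c) ↔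
        ∃ e, (e = c ∨ e + 1 = c) ∧ lo a i ≤ e ∧ e ≤ hi a i ∧ y = f a i e) ∧
      (∀ c c', l ≤ c → c ≤ u → l ≤ c' → c' ≤ u → g c = g c' → c = c') ∧
      (∀ x c, lo a i ≤ c → c ≤ hi a i → f a i c ∈ Pr x →
        ∃ c', l ≤ c' ∧ c' ≤ u ∧ x = g c')) := by
    intro a
    by_cases ha : corank a = 0
    · obtain ⟨l, u, g, hg⟩ := h.strip C hH hP ha
      exact ⟨l, u, g, fun _ => hg⟩
    · exact ⟨0, 0, fun _ => a, fun h1 => absurd h1 ha⟩
  choose l u g hk using key
  refine ⟨fun a r => if r = i + 1 then l a else lo a r, fun a r => if r = i + 1 then u a else hi a r,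
    fun a r c => if r = i + 1 then g a c else f a r c, ?_, ?_, ?_⟩
  · constructor
    · intro a
      try simp only
      rw [if_neg (by omega), h.lo0]
    · intro a
      try simp only
      rw [if_neg (by omega), h.hi0]
    · intro a r ha hr
      try simp only
      obtain ⟨h1, _⟩ := hk a ha
      rcases Nat.lt_or_ge r i with h2 | h2
      · rw [if_neg (by omega), if_neg (by omega)]
        exact h.loS a r ha h2
      · have h3 : r = i := by omega
        subst h3
        rw [if_neg (by omega), if_pos rfl]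
        exact h1
    · intro a r ha hr
      try simp only
      obtain ⟨_, h1, _⟩ := hk a ha
      rcases Nat.lt_or_ge r i with h2 | h2
      · rw [if_neg (by omega), if_neg (by omega)]
        exact h.hiS a r ha h2
      · have h3 : r = i := by omega
        subst h3
        rw [if_neg (by omega), if_pos rfl]
        exact h1
    · intro a r ha hr
      try simp only
      obtain ⟨_, _, h1, _⟩ := hk a ha
      split_ifs with h2
      · exact h1
      · exact h.le a r ha (by omega)
    · intro a ha
      try simp only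
      rw [if_neg (by omega)]
      exact h.top a ha
    · intro a r c ha hr h1 h2
      try simp only at h1 h2 ⊢
      split_ifs at h1 h2 ⊢ with h3
      · rw [h3]
        exact ((hk a ha).2.2.2.1 c h1 h2).1
      · exact h.cor a r c ha (by omega) h1 h2
    · intro a b r c c' ha hb hr h1 h2 h3 h4 h5
      try simp only at h1 h2 h3 h4 h5
      split_ifs at h1 h2 h3 h4 h5 with h6
      · -- a common upper cover
        have h7 := (hk a ha).2.2.2.1 c h1 h2
        have h8 := (hk b hb).2.2.2.1 c' h3 h4
        obtain ⟨y, hy⟩ := card_pos.1 (C.pr_pos (x := g a c) (by rw [h7.1]; omega))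
        have hy' := hy
        rw [h5] at hy'
        rw [h7.2] at hy
        rw [h8.2] at hy'
        obtain ⟨e, h9, h10, h11, h12⟩ := hy
        obtain ⟨e', h13, h14, h15, h16⟩ := hy'
        rw [h12] at h16
        obtain ⟨rfl, _⟩ := h.inj a b i e e' ha hb le_rfl h10 h11 h14 h15 h16
        exact ⟨rfl, (hk a ha).2.2.2.2.1 c c' h1 h2 h3 h4 h5⟩
      · exact h.inj a b r c c' ha hb (by omega) h1 h2 h3 h4 h5
    · intro x hx
      try simp only
      rcases Nat.lt_or_ge (corank x) (i + 1) with h1 | h1
      · have h2 : ¬ corank x = i + 1 := by omega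
        simp only [if_neg h2]
        exact h.sur x (by omega)
      · have h2 : corank x = i + 1 := by omega
        simp only [if_pos h2]
        obtain ⟨y, hy⟩ := card_pos.1 (C.pr_pos (x := x) (by omega))
        have h3 := C.corank_of_mem_Pr hy
        obtain ⟨a, e, ha, h4, h5, rfl⟩ := h.sur' (r := i) le_rfl (by omega : corank y = i)
        obtain ⟨c, h6, h7, h8⟩ := (hk a ha).2.2.2.2.2 x e h4 h5 hy
        exact ⟨a, c, ha, h6, h7, h8⟩
    · intro a r c ha hr h1 h2 y
      try simp only at h1 h2 ⊢
      rcases Nat.lt_or_ge r i with h3 | h3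
      · rw [if_neg (by omega)] at h1 h2 ⊢
        simp only [if_neg (show ¬ r = i + 1 by omega)]
        exact h.pr a r c ha h3 h1 h2 y
      · have h4 : r = i := by omega
        subst h4
        rw [if_pos rfl] at h1 h2 ⊢
        simp only [if_neg (show ¬ r = r + 1 by omega)]
        exact ((hk a ha).2.2.2.1 c h1 h2).2 y
  · intro a r hr
    try simp only
    rw [if_neg (by omega), if_neg (by omega)]
    exact ⟨rfl, rfl⟩
  · intro a r c hr
    try simp only
    rw [if_neg (by omega)]

end Pln

/-- coordinates of the first row -/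
lemma pln_zero : Pln (fun _ _ => 0) (fun _ _ => 0) 0 (fun a _ _ => (a : α)) where
  lo0 _ := rfl
  hi0 _ := rfl
  loS a r _ hr := by omega
  hiS a r _ hr := by omega
  le _ _ _ _ := le_rfl
  top _ _ := rfl
  cor a r c ha hr _ _ := by omega
  inj a b r c c' _ _ _ h1 h2 h3 h4 h5 := ⟨h5, by omega⟩
  sur x hx := ⟨x, 0, by omega, le_rfl, le_rfl, rfl⟩
  pr a r c _ hr := by omega

/-- row 0 is perfect -/
lemma CtxK.perf_zero (C : CtxK α) : Perf α 0 := by
  intro g hg
  have h1 : mD 0 g = 0 := by
    unfold mD
    rw [card_eq_zero, filter_eq_empty_iff]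
    intro z hz
    rw [mem_lev'] at hz
    omega
  rw [h1]
  unfold mC
  rw [card_eq_zero, filter_eq_empty_iff]
  intro x hx h2
  have h3 := C.dbl_pr (i := 0) C.HT_pos
  rw [← kap_eq] at h3
  have h4 : ((lev α (0 + 1)).filter fun x => (Pr x).card = 2).card = 0 := by omega
  rw [card_eq_zero, filter_eq_empty_iff] at h4
  exact h4 hx (by rw [h2]; exact hg)

/-- **planar coordinates**: if the rows `< i` are perfect, the rows `≤ i` are a disjoint union of
planar strips, one for each maximal element -/
theorem exists_pln (C : CtxK α) {i : ℕ} (hi : i < HT α) (hP : ∀ b < i, Perf α b) :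
    ∃ (lo hi : α → ℕ → ℕ) (f : α → ℕ → ℕ → α), Pln lo hi i f := by
  induction i with
  | zero => exact ⟨_, _, _, pln_zero⟩
  | succ j ih =>
    obtain ⟨lo, hi', f, h⟩ := ih (by omega) (fun b hb => hP b (by omega))
    obtain ⟨lo', hi'', f', h', _⟩ := h.extend C (by omega) (hP j (by omega))
    exact ⟨lo', hi'', f', h'⟩

end Pool.Gauss
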