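import Pool.Agent.Work.MP_065141_co.K.PlnCount

/-!
# Events in planar coordinates

`PEv j` (rows `≤ i`): left P-event `lo (j+1) = lo j + 1`, `lo (j+2) = lo (j+1)`, `lo (j+1) ≤ hi j`;
right P-event `hi (j+1) = hi j`, `hi (j+2) = hi (j+1) + 1`, `lo j < hi j`.
-/

set_option autoImplicit false
set_option linter.unusedSectionVars false
open scoped Classical
open Finset

namespace Pool.Gauss

variable {α : Type} [Fintype α] [PartialOrder α]

namespace Pln

variable {lo hi : α → ℕ → ℕ} {i : ℕ} {f : α → ℕ → ℕ → α}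

lemma Pr_left (h : Pln lo hi i f) {a : α} {r c : ℕ} (ha : corank a = 0) (hr : r < i)
    (h1 : lo a (r + 1) ≤ c) (h2 : c ≤ hi a (r + 1)) (h3 : c = lo a r) :
    Pr (f a (r + 1) c) = {f a r c} := by
  ext y
  rw [h.pr a r c ha hr h1 h2, mem_singleton]
  have h4 := h.le a r ha (by omega)
  constructor
  · rintro ⟨e, h5, h6, h7, rfl⟩
    congr 1
    omega
  · rintro rfl
    exact ⟨c, Or.inl rfl, by omega, by omega, rfl⟩

lemma Pr_right (h : Pln lo hi i f) {a : α} {r c : ℕ} (ha : corank a = 0) (hr : r < i)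
    (h1 : lo a (r + 1) ≤ c + 1) (h2 : c + 1 ≤ hi a (r + 1)) (h3 : c = hi a r) :
    Pr (f a (r + 1) (c + 1)) = {f a r c} := by
  ext y
  rw [h.pr a r (c + 1) ha hr h1 h2, mem_singleton]
  have h4 := h.le a r ha (by omega)
  constructor
  · rintro ⟨e, h5, h6, h7, rfl⟩
    congr 1
    omega
  · rintro rfl
    exact ⟨c, Or.inr rfl, by omega, by omega, rfl⟩

lemma Pr_mid (h : Pln lo hi i f) {a : α} {r c : ℕ} (ha : corank a = 0) (hr : r < i)
    (h1 : lo a r ≤ c) (h2 : c + 1 ≤ hi a r) :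
    Pr (f a (r + 1) (c + 1)) = {f a r c, f a r (c + 1)} := by
  have h3 := h.loS a r ha hr
  have h4 := h.hiS a r ha hr
  ext y
  rw [h.pr a r (c + 1) ha hr (by omega) (by omega), mem_insert, mem_singleton]
  constructor
  · rintro ⟨e, h5, h6, h7, rfl⟩
    rcases h5 with rfl | h5
    · exact Or.inr rfl
    · left
      congr 1
      omega
  · rintro (rfl | rfl)
    · exact ⟨c, Or.inr rfl, h1, by omega, rfl⟩
    · exact ⟨c + 1, Or.inl rfl, by omega, h2, rfl⟩

/-- the three kinds of elements of row `r + 1` -/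
lemma Pr_cases (h : Pln lo hi i f) {a : α} {r c : ℕ} (ha : corank a = 0) (hr : r < i)
    (h1 : lo a (r + 1) ≤ c) (h2 : c ≤ hi a (r + 1)) :
    (c = lo a r ∧ Pr (f a (r + 1) c) = {f a r c}) ∨
    (c = hi a r + 1 ∧ Pr (f a (r + 1) c) = {f a r (hi a r)}) ∨
    (lo a r < c ∧ c ≤ hi a r ∧ Pr (f a (r + 1) c) = {f a r (c - 1), f a r c}) := by
  have h3 := h.loS a r ha hr
  have h4 := h.hiS a r ha hr
  rcases Nat.lt_trichotomy c (lo a r) with h5 | h5 | h5
  · omega
  · exact Or.inl ⟨h5, h.Pr_left ha hr h1 h2 h5⟩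
  · rcases Nat.lt_or_ge (hi a r) c with h6 | h6
    · right
      left
      have h7 : c = hi a r + 1 := by omega
      subst h7
      exact ⟨rfl, h.Pr_right ha hr h1 h2 rfl⟩
    · right
      right
      obtain ⟨e, rfl⟩ : ∃ e, c = e + 1 := ⟨c - 1, by omega⟩
      refine ⟨h5, h6, ?_⟩
      rw [Nat.add_sub_cancel]
      exact h.Pr_mid ha hr (by omega) h6

/-- different elements of the rows `≤ i` with the same upper covers: the two children of a strip
of width one -/
lemma Pr_inj (h : Pln lo hi i f) {a b : α} {r c c' : ℕ} (ha : corank a = 0) (hb : corank b = 0)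
    (hr : r < i) (h1 : lo a (r + 1) ≤ c) (h2 : c ≤ hi a (r + 1)) (h3 : lo b (r + 1) ≤ c')
    (h4 : c' ≤ hi b (r + 1)) (h5 : Pr (f a (r + 1) c) = Pr (f b (r + 1) c')) :
    a = b ∧ (c = c' ∨ lo a r = hi a r) := by
  have h6 := h.loS a r ha hr
  have h7 := h.hiS a r ha hr
  have h8 := h.le a r ha (by omega)
  have g6 := h.loS b r hb hr
  have g7 := h.hiS b r hb hr
  have g8 := h.le b r hb (by omega)
  have hab : a = b := by
    rcases h.Pr_cases ha hr h1 h2 with ⟨e1, e2⟩ | ⟨e1, e2⟩ | ⟨e1, e1', e2⟩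
    · have m : f a r c ∈ Pr (f b (r + 1) c') := by rw [← h5, e2]; simp
      rw [h.pr b r c' hb hr h3 h4] at m
      obtain ⟨e, _, m2, m3, m4⟩ := m
      exact (h.inj a b r c e ha hb (by omega) (by omega) (by omega) m2 m3 m4).1
    · have m : f a r (hi a r) ∈ Pr (f b (r + 1) c') := by rw [← h5, e2]; simp
      rw [h.pr b r c' hb hr h3 h4] at m
      obtain ⟨e, _, m2, m3, m4⟩ := m
      exact (h.inj a b r (hi a r) e ha hb (by omega) (by omega) le_rfl m2 m3 m4).1
    · have m : f a r c ∈ Pr (f b (r + 1) c') := by rw [← h5, e2]; simp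
      rw [h.pr b r c' hb hr h3 h4] at m
      obtain ⟨e, _, m2, m3, m4⟩ := m
      exact (h.inj a b r c e ha hb (by omega) (by omega) (by omega) m2 m3 m4).1
  subst hab
  refine ⟨rfl, ?_⟩
  by_contra hcon
  push Not at hcon
  obtain ⟨hc1, hc2⟩ := hcon
  have n1 := h.card_Pr ha hr h1 h2
  have n2 := h.card_Pr ha hr h3 h4
  rw [h5, n2] at n1
  rcases h.Pr_cases ha hr h1 h2 with ⟨e1, e2⟩ | ⟨e1, e2⟩ | ⟨e1, e1', e2⟩
  · have m : f a r c ∈ Pr (f a (r + 1) c') := by rw [← h5, e2]; simp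
    rw [h.pr a r c' ha hr h3 h4] at m
    obtain ⟨e, m1, m2, m3, m4⟩ := m
    have := (h.inj a a r c e ha ha (by omega) (by omega) (by omega) m2 m3 m4).2
    split_ifs at n1 <;> omega
  · have m : f a r (hi a r) ∈ Pr (f a (r + 1) c') := by rw [← h5, e2]; simp
    rw [h.pr a r c' ha hr h3 h4] at m
    obtain ⟨e, m1, m2, m3, m4⟩ := m
    have := (h.inj a a r (hi a r) e ha ha (by omega) (by omega) le_rfl m2 m3 m4).2
    split_ifs at n1 <;> omega
  · have m : f a r c ∈ Pr (f a (r + 1) c') := by rw [← h5, e2]; simp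
    have m' : f a r (c - 1) ∈ Pr (f a (r + 1) c') := by rw [← h5, e2]; simp
    rw [h.pr a r c' ha hr h3 h4] at m m'
    obtain ⟨e, m1, m2, m3, m4⟩ := m
    obtain ⟨e', m5, m6, m7, m8⟩ := m'
    have := (h.inj a a r c e ha ha (by omega) (by omega) (by omega) m2 m3 m4).2
    have := (h.inj a a r (c - 1) e' ha ha (by omega) (by omega) (by omega) m6 m7 m8).2
    omega

/-- no double pairs in the rows `≤ i` -/
lemma FFv_empty (h : Pln lo hi i f) {j : ℕ} (hj : j < i) : FFv α j = ∅ := by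
  rw [eq_empty_iff_forall_notMem]
  rintro ⟨x, y⟩ hp
  rw [mem_FFv] at hp
  obtain ⟨h1, h2, h3, h4, h5⟩ := hp
  simp only at h1 h2 h3 h4 h5
  obtain ⟨a, c, ha, g1, g2, rfl⟩ := h.sur' (r := j + 1) (by omega) h1
  obtain ⟨b, c', hb, g3, g4, rfl⟩ := h.sur' (r := j + 1) (by omega) h2
  obtain ⟨rfl, g5⟩ := h.Pr_inj ha hb hj g1 g2 g3 g4 h4
  rcases g5 with rfl | g5
  · exact h3 rfl
  · rw [h.card_Pr ha hj g1 g2] at h5
    split_ifs at h5 <;> omega

/-- P-events in coordinates -/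
lemma mem_PEv_iff (h : Pln lo hi i f) {a : α} {j c : ℕ} (ha : corank a = 0) (hj : j + 2 ≤ i)
    (h1 : lo a (j + 2) ≤ c) (h2 : c ≤ hi a (j + 2)) :
    f a (j + 2) c ∈ PEv α j ↔
      (c = lo a (j + 1) ∧ lo a (j + 1) = lo a j + 1 ∧ lo a (j + 1) ≤ hi a j ∧
        lo a (j + 2) = lo a (j + 1)) ∨
      (c = hi a (j + 1) + 1 ∧ hi a (j + 1) = hi a j ∧ lo a j < hi a j ∧
        hi a (j + 2) = hi a (j + 1) + 1) := by
  have a1 := h.loS a j ha (by omega)
  have a2 := h.hiS a j ha (by omega)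
  have a3 : lo a (j + 1) ≤ lo a (j + 2) ∧ lo a (j + 2) ≤ lo a (j + 1) + 1 :=
    h.loS a (j + 1) ha (by omega)
  have a4 : hi a (j + 1) ≤ hi a (j + 2) ∧ hi a (j + 2) ≤ hi a (j + 1) + 1 :=
    h.hiS a (j + 1) ha (by omega)
  have a5 := h.le a j ha (by omega)
  have a6 := h.le a (j + 1) ha (by omega)
  have hc := h.cor a (j + 2) c ha hj h1 h2
  have key : ∀ d, lo a (j + 1) ≤ d → d ≤ hi a (j + 1) →
      Pr (f a (j + 2) c) = {f a (j + 1) d} → (f a (j + 2) c ∈ PEv α j ↔
        ((if d ≤ hi a j then 1 else 0) + (if lo a j + 1 ≤ d then 1 else 0) = 2)) := by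
    intro d d1 d2 e
    have n := h.card_Pr ha (r := j) (by omega) d1 d2
    rw [mem_PEv, Pr2_of_single e, n, e, card_singleton]
    exact ⟨fun w => w.2.2, fun w => ⟨hc, rfl, w⟩⟩
  rcases h.Pr_cases ha (r := j + 1) (by omega) h1 h2 with ⟨e1, e2⟩ | ⟨e1, e2⟩ | ⟨e1, e1', e2⟩
  · rw [key c (by omega) (by omega) e2]
    constructor
    · intro h5
      split_ifs at h5 <;> first | (exfalso; omega) | (left; omega)
    · rintro (h5 | h5)
      · rw [if_pos (by omega), if_pos (by omega)]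
      · omega
  · rw [key (hi a (j + 1)) (by omega) le_rfl e2]
    constructor
    · intro h5
      split_ifs at h5 <;> first | (exfalso; omega) | (right; omega)
    · rintro (h5 | h5)
      · omega
      · rw [if_pos (by omega), if_pos (by omega)]
  · have h6 : (Pr (f a (j + 2) c)).card = 2 := by
      have := h.card_Pr ha (r := j + 1) (by omega) h1 h2
      rw [if_pos e1', if_pos e1] at this
      exact this
    rw [mem_PEv]
    constructor
    · rintro ⟨_, h5, _⟩
      omega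
    · rintro (h5 | h5) <;> omega

end Pln

end Pool.Gauss
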