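import Pool.Agent.Work.MP_065141_co.K.PlnV5

/-!
# Consequences of `HH = 0` for the words and for the elements above a row
-/

set_option autoImplicit false
set_option linter.unusedSectionVars false
open scoped Classical
open Finset

namespace Pool.Gauss

variable {α : Type} [Fintype α] [PartialOrder α]

/-- no `P - Q` over the pairs of row `b` of the strip of `a` -/
def H0 (lo hi : α → ℕ → ℕ) (f : α → ℕ → ℕ → α) (b : ℕ) (a : α) : Prop :=
  ∀ c, lo a b ≤ c → c + 1 ≤ hi a b → HH f b a c = 0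

namespace Pln

variable {lo hi : α → ℕ → ℕ} {i : ℕ} {f : α → ℕ → ℕ → α}

lemma H0_nat {b : ℕ} {a : α} (h0 : H0 lo hi f b a) {c : ℕ} (h1 : lo a b ≤ c)
    (h2 : c + 1 ≤ hi a b) : nP f b a c = nQ f b a c := by
  have := h0 c h1 h2
  unfold HH at this
  omega

/-- wide rows: the left event continues -/
lemma lSE_iff (h : Pln lo hi i f) (C : CtxK α) {a : α} {b : ℕ} (ha : corank a = 0)
    (hb : b + 4 ≤ i) (h0 : H0 lo hi f (b + 2) a) (hw : lo a (b + 2) + 2 ≤ hi a (b + 2)) :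
    lSE lo (b + 2) a ↔ lSE lo b a := by
  have h1 := H0_nat h0 le_rfl (by omega)
  rw [h.nP_eq ha hb le_rfl (by omega), h.nQ_eq C ha (by omega) le_rfl (by omega),
    if_neg (c := lo a (b + 2) + 1 = hi a (b + 2) ∧ rSE hi (b + 2) a) (by omega),
    if_neg (c := lo a (b + 2) + 1 = hi a (b + 2) ∧ rSE hi b a) (by omega)] at h1
  constructor
  · intro h2
    by_contra h3
    rw [if_pos ⟨rfl, h2⟩, if_neg (fun h4 => h3 h4.2)] at h1
    omega
  · intro h2
    by_contra h3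
    rw [if_neg (fun h4 => h3 h4.2), if_pos ⟨rfl, h2⟩] at h1
    omega

lemma rSE_iff (h : Pln lo hi i f) (C : CtxK α) {a : α} {b : ℕ} (ha : corank a = 0)
    (hb : b + 4 ≤ i) (h0 : H0 lo hi f (b + 2) a) (hw : lo a (b + 2) + 2 ≤ hi a (b + 2)) :
    rSE hi (b + 2) a ↔ rSE hi b a := by
  obtain ⟨e, he⟩ : ∃ e, hi a (b + 2) = e + 1 := ⟨hi a (b + 2) - 1, by omega⟩
  have h1 := H0_nat h0 (c := e) (by omega) (by omega)
  rw [h.nP_eq ha hb (by omega) (by omega), h.nQ_eq C ha (by omega) (by omega) (by omega),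
    if_neg (c := e = lo a (b + 2) ∧ lSE lo (b + 2) a) (by omega),
    if_neg (c := e = lo a (b + 2) ∧ lSE lo b a) (by omega)] at h1
  constructor
  · intro h2
    by_contra h3
    rw [if_pos ⟨by omega, h2⟩, if_neg (fun h4 => h3 h4.2)] at h1
    omega
  · intro h2
    by_contra h3
    rw [if_neg (fun h4 => h3 h4.2), if_pos ⟨by omega, h2⟩] at h1
    omega

/-- rows of width two -/
lemma SE_two (h : Pln lo hi i f) (C : CtxK α) {a : α} {b : ℕ} (ha : corank a = 0)
    (hb : b + 4 ≤ i) (h0 : H0 lo hi f (b + 2) a) (hw : lo a (b + 2) + 1 = hi a (b + 2)) :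
    (if lSE lo (b + 2) a then 1 else 0) + (if rSE hi (b + 2) a then 1 else 0) =
      (if lSE lo b a then 1 else 0) + (if rSE hi b a then (1 : ℕ) else 0) := by
  have h1 := H0_nat h0 le_rfl (by omega)
  rw [h.nP_eq ha hb le_rfl (by omega), h.nQ_eq C ha (by omega) le_rfl (by omega)] at h1
  simp only [hw, true_and] at h1
  exact h1

/-- no events at the rows `0, 1` -/
lemma SE_one (h : Pln lo hi i f) {a : α} {b : ℕ} (ha : corank a = 0)
    (hb : b + 2 ≤ i) (hb2 : b < 2) (h0 : H0 lo hi f b a) (hw : lo a b + 1 ≤ hi a b) :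
    ¬ lSE lo b a ∧ ¬ rSE hi b a := by
  constructor
  · intro h2
    have h1 := H0_nat h0 le_rfl (by omega)
    rw [h.nP_eq ha hb le_rfl (by omega), nQ_zero hb2, if_pos ⟨rfl, h2⟩] at h1
    omega
  · intro h2
    obtain ⟨e, he⟩ : ∃ e, hi a b = e + 1 := ⟨hi a b - 1, by omega⟩
    have h1 := H0_nat h0 (c := e) (by omega) (by omega)
    rw [h.nP_eq ha hb (by omega) (by omega), nQ_zero hb2,
      if_pos (c := e + 1 = hi a b ∧ _) ⟨by omega, h2⟩] at h1
    omega

/-- no letters SEE on the left above a row of width `≥ 3` -/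
lemma no_lSEE (h : Pln lo hi i f) (C : CtxK α) {a : α} {b : ℕ} (ha : corank a = 0)
    (hb : b + 4 ≤ i) (h0 : H0 lo hi f (b + 2) a) (hw : lo a (b + 3) + 2 ≤ hi a (b + 3))
    (h1 : lSE lo b a) (h2 : lo a (b + 3) = lo a (b + 2)) : False := by
  have h3 : hi a (b + 2) ≤ hi a (b + 3) ∧ hi a (b + 3) ≤ hi a (b + 2) + 1 :=
    h.hiS a (b + 2) ha (by omega)
  have h4 : ¬ lSE lo (b + 2) a := by
    intro h5
    have : lo a (b + 3) = lo a (b + 2) + 1 := h5.1
    omega
  rcases Nat.lt_or_ge (lo a (b + 2) + 1) (hi a (b + 2)) with h5 | h5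
  · exact h4 ((h.lSE_iff C ha hb h0 (by omega)).2 h1)
  · have h6 : lo a (b + 2) + 1 = hi a (b + 2) := by omega
    have h7 : ¬ rSE hi (b + 2) a := by
      intro h8
      have : hi a (b + 3) = hi a (b + 2) := h8.1
      omega
    have h8 := h.SE_two C ha hb h0 h6
    rw [if_neg h4, if_neg h7, if_pos h1] at h8
    omega

/-- no letters SEE on the right above a row of width `≥ 3` -/
lemma no_rSEE (h : Pln lo hi i f) (C : CtxK α) {a : α} {b : ℕ} (ha : corank a = 0)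
    (hb : b + 4 ≤ i) (h0 : H0 lo hi f (b + 2) a) (hw : lo a (b + 3) + 2 ≤ hi a (b + 3))
    (h1 : rSE hi b a) (h2 : hi a (b + 3) = hi a (b + 2) + 1) : False := by
  have h3 : lo a (b + 2) ≤ lo a (b + 3) ∧ lo a (b + 3) ≤ lo a (b + 2) + 1 :=
    h.loS a (b + 2) ha (by omega)
  have h4 : ¬ rSE hi (b + 2) a := by
    intro h5
    have : hi a (b + 3) = hi a (b + 2) := h5.1
    omega
  rcases Nat.lt_or_ge (lo a (b + 2) + 1) (hi a (b + 2)) with h5 | h5
  · exact h4 ((h.rSE_iff C ha hb h0 (by omega)).2 h1)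
  · have h6 : lo a (b + 2) + 1 = hi a (b + 2) := by omega
    have h7 : ¬ lSE lo (b + 2) a := by
      intro h8
      have : lo a (b + 3) = lo a (b + 2) + 1 := h8.1
      omega
    have h8 := h.SE_two C ha hb h0 h6
    rw [if_neg h4, if_neg h7, if_pos h1] at h8
    omega

/-- no letters SSE on the left above a row of width `≥ 4` -/
lemma no_lSSE (h : Pln lo hi i f) (C : CtxK α) {a : α} {b : ℕ} (ha : corank a = 0)
    (hb : b + 3 ≤ i) (h0 : H0 lo hi f (b + 1) a) (hw : lo a (b + 3) + 3 ≤ hi a (b + 3))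
    (h1 : lSE lo (b + 1) a) (h2 : lo a (b + 1) = lo a b + 1) : False := by
  have h3 : hi a (b + 2) ≤ hi a (b + 3) ∧ hi a (b + 3) ≤ hi a (b + 2) + 1 :=
    h.hiS a (b + 2) ha (by omega)
  have h3' : hi a (b + 1) ≤ hi a (b + 2) ∧ hi a (b + 2) ≤ hi a (b + 1) + 1 :=
    h.hiS a (b + 1) ha (by omega)
  have h1' : lo a (b + 2) = lo a (b + 1) + 1 ∧ lo a (b + 3) = lo a (b + 2) := h1
  rcases Nat.eq_zero_or_pos b with h4 | h4
  · subst h4
    exact (h.SE_one ha (by omega) (by omega) h0 (by omega)).1 h1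
  · obtain ⟨j, rfl⟩ : ∃ j, b = j + 1 := ⟨b - 1, by omega⟩
    have h5 := (h.lSE_iff C ha (b := j) (by omega) h0 (by
      have e1 : lo a (j + 1 + 1) = lo a (j + 2) := rfl
      have e2 : hi a (j + 1 + 1) = hi a (j + 2) := rfl
      omega)).1 h1
    have h6 : lo a (j + 2) = lo a (j + 1) := h5.2
    have h7 : lo a (j + 2) = lo a (j + 1) + 1 := h2
    omega

/-- no letters SSE on the right above a row of width `≥ 4` -/
lemma no_rSSE (h : Pln lo hi i f) (C : CtxK α) {a : α} {b : ℕ} (ha : corank a = 0)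
    (hb : b + 3 ≤ i) (h0 : H0 lo hi f (b + 1) a) (hw : lo a (b + 3) + 3 ≤ hi a (b + 3))
    (h1 : rSE hi (b + 1) a) (h2 : hi a (b + 1) = hi a b) : False := by
  have h3 : lo a (b + 2) ≤ lo a (b + 3) ∧ lo a (b + 3) ≤ lo a (b + 2) + 1 :=
    h.loS a (b + 2) ha (by omega)
  have h3' : lo a (b + 1) ≤ lo a (b + 2) ∧ lo a (b + 2) ≤ lo a (b + 1) + 1 :=
    h.loS a (b + 1) ha (by omega)
  have h1' : hi a (b + 2) = hi a (b + 1) ∧ hi a (b + 3) = hi a (b + 2) + 1 := h1
  rcases Nat.eq_zero_or_pos b with h4 | h4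
  · subst h4
    exact (h.SE_one ha (by omega) (by omega) h0 (by omega)).2 h1
  · obtain ⟨j, rfl⟩ : ∃ j, b = j + 1 := ⟨b - 1, by omega⟩
    have h5 := (h.rSE_iff C ha (b := j) (by omega) h0 (by
      have e1 : lo a (j + 1 + 1) = lo a (j + 2) := rfl
      have e2 : hi a (j + 1 + 1) = hi a (j + 2) := rfl
      omega)).1 h1
    have h6 : hi a (j + 2) = hi a (j + 1) + 1 := h5.2
    have h7 : hi a (j + 2) = hi a (j + 1) := h2
    omega

/-! ### elements -/

/-- the elements above with exactly one lower cover, in coordinates -/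
lemma Ch_single (h : Pln lo hi i f) (C : CtxK α) {a : α} {r c : ℕ} (ha : corank a = 0)
    (hr : r < i) (h1 : lo a r ≤ c) (h2 : c ≤ hi a r) {x : α} (hx : Ch (f a r c) = {x}) :
    (c = lo a r ∧ lo a (r + 1) = lo a r + 1 ∧ x = f a (r + 1) (lo a (r + 1))) ∨
      (c = hi a r ∧ hi a (r + 1) = hi a r ∧ x = f a (r + 1) (hi a (r + 1))) := by
  have hs1 := h.loS a r ha hr
  have hs2 := h.hiS a r ha hr
  rcases Nat.lt_or_ge c (lo a (r + 1)) with h3 | h3
  · left
    have h4 : c = lo a r := by omega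
    subst h4
    have h5 := h.Ch_lo C ha hr (by omega)
    rw [hx, singleton_inj] at h5
    exact ⟨rfl, by omega, h5⟩
  · rcases Nat.lt_or_ge (hi a (r + 1)) (c + 1) with h4 | h4
    · right
      have h5 : c = hi a r := by omega
      subst h5
      have h6 := h.Ch_hi C ha hr (by omega)
      rw [hx, singleton_inj] at h6
      exact ⟨rfl, by omega, h6⟩
    · exfalso
      have h5 := h.Ch_dbl C ha hr h1 h2 h3 h4
      have h6 := h.card_pr2 (by omega : r + 1 ≤ i) ha h3 h4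
      rw [← h5, hx, card_singleton] at h6
      omega

/-- **no single parent above a Q-event** over a row of width `≥ 4` -/
theorem no_Gup (h : Pln lo hi i f) (C : CtxK α) {b : ℕ} (hb : b + 2 ≤ i)
    (h0 : ∀ a, corank a = 0 → H0 lo hi f b a) {v : α} (hv : v ∈ QEv α (b + 2)) {a : α} {c : ℕ}
    (ha : corank a = 0) (hc : Ch2 v = pr2 f (b + 2) a c) (h1 : lo a (b + 2) ≤ c)
    (h2 : c + 1 ≤ hi a (b + 2)) (hw : lo a (b + 2) + 3 ≤ hi a (b + 2)) {u : α} :
    Ch u ≠ {v} := by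
  intro hu
  obtain ⟨a', ha', hw', h3⟩ := h.Q_cases C hb hv
  have haa : a' = a := by
    rcases h3 with ⟨g3, rfl⟩ | ⟨g3, rfl⟩
    · have g4 := (h.QL_mem C ha' hb g3 hw').2
      rw [hc] at g4
      have g5 := h.pr2_inj hb (p := (a, c)) (q := (a', lo a' (b + 2)))
        (mem_prs.2 ⟨ha, h1, h2⟩) (mem_prs.2 ⟨ha', le_rfl, by simp only; omega⟩) g4
      exact (Prod.mk.inj g5).1.symm
    · have g4 := (h.QR_mem C ha' hb g3 hw').2
      rw [hc] at g4
      have g6 := g3.2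
      have g7 := h.loS a' b ha' (by omega)
      have g8 : lo a' (b + 1) ≤ lo a' (b + 2) ∧ lo a' (b + 2) ≤ lo a' (b + 1) + 1 :=
        h.loS a' (b + 1) ha' (by omega)
      have g5 := h.pr2_inj hb (p := (a, c)) (q := (a', hi a' (b + 1)))
        (mem_prs.2 ⟨ha, h1, h2⟩) (mem_prs.2 ⟨ha', by simp only; omega, by simp only; omega⟩) g4
      exact (Prod.mk.inj g5).1.symm
  subst haa
  have hcv : corank v = b := by
    have := (mem_QEv.1 hv).1
    omega
  have hcu := C.corank_of_mem_Ch (x := u) (y := v) (by rw [hu]; simp)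
  obtain ⟨j, rfl⟩ : ∃ j, b = j + 1 := ⟨b - 1, by omega⟩
  obtain ⟨a1, d, ha1, d1, d2, rfl⟩ := h.sur' (r := j) (by omega) (by omega : corank u = j)
  have hs := h.Ch_single C ha1 (by omega : j < i) d1 d2 hu
  have hle := h.le a' (j + 1) ha' (by omega)
  have hle1 := h.le a1 (j + 1) ha1 (by omega)
  rcases h3 with ⟨g3, rfl⟩ | ⟨g3, rfl⟩
  · rcases hs with ⟨e1, e2, e3⟩ | ⟨e1, e2, e3⟩
    · obtain ⟨rfl, e4⟩ := h.inj a' a1 (j + 1) _ _ ha' ha1 (by omega) le_rfl hle le_rfl hle1 e3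
      exact h.no_lSSE C ha (by omega) (h0 _ ha) hw g3 e2
    · obtain ⟨rfl, e4⟩ := h.inj a' a1 (j + 1) _ _ ha' ha1 (by omega) le_rfl hle hle1 le_rfl e3
      -- width one
      have g1 := h.hiS a' (j + 1) ha (by omega)
      have g2 : hi a' (j + 2) ≤ hi a' (j + 3) ∧ hi a' (j + 3) ≤ hi a' (j + 2) + 1 :=
        h.hiS a' (j + 2) ha (by omega)
      have g5 : lo a' (j + 2) = lo a' (j + 1) + 1 ∧ lo a' (j + 3) = lo a' (j + 2) := g3
      have k1 : hi a' (j + 1 + 1) = hi a' (j + 2) := rfl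
      have k2 : hi a' (j + 1 + 2) = hi a' (j + 3) := rfl
      have k3 : lo a' (j + 1 + 2) = lo a' (j + 3) := rfl
      omega
  · rcases hs with ⟨e1, e2, e3⟩ | ⟨e1, e2, e3⟩
    · obtain ⟨rfl, e4⟩ := h.inj a' a1 (j + 1) _ _ ha' ha1 (by omega) hle le_rfl le_rfl hle1 e3
      have g1 := h.hiS a' (j + 1) ha (by omega)
      have g6 := h.loS a' (j + 1) ha (by omega)
      have g7 : lo a' (j + 2) ≤ lo a' (j + 3) ∧ lo a' (j + 3) ≤ lo a' (j + 2) + 1 :=
        h.loS a' (j + 2) ha (by omega)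
      have g5 : hi a' (j + 2) = hi a' (j + 1) ∧ hi a' (j + 3) = hi a' (j + 2) + 1 := g3
      have k1 : hi a' (j + 1 + 1) = hi a' (j + 2) := rfl
      have k2 : hi a' (j + 1 + 2) = hi a' (j + 3) := rfl
      have k3 : lo a' (j + 1 + 2) = lo a' (j + 3) := rfl
      have k4 : lo a' (j + 1 + 1) = lo a' (j + 2) := rfl
      omega
    · obtain ⟨rfl, e4⟩ := h.inj a' a1 (j + 1) _ _ ha' ha1 (by omega) hle le_rfl hle1 le_rfl e3
      exact h.no_rSSE C ha (by omega) (h0 _ ha) hw g3 e2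

/-- **no SSE above**: an element two rows above row `b + 3` over three elements of it has no
single upper cover -/
theorem no_SSEup (h : Pln lo hi i f) (C : CtxK α) {b : ℕ} (hb : b + 4 ≤ i)
    (h0 : ∀ a, corank a = 0 → H0 lo hi f (b + 2) a) {x : α} (hx : corank x = b + 1)
    (h3 : (Ch2 x).card = 3) {u : α} : Ch u ≠ {x} := by
  intro hu
  have hcu := C.corank_of_mem_Ch (x := u) (y := x) (by rw [hu]; simp)
  obtain ⟨a, d, ha, d1, d2, rfl⟩ := h.sur' (r := b) (by omega) (by omega : corank u = b)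
  have hs := h.Ch_single C ha (by omega : b < i) d1 d2 hu
  have k0 := h.le a b ha (by omega)
  have k1 := h.le a (b + 1) ha (by omega)
  have k2 := h.le a (b + 2) ha (by omega)
  have s1 : lo a (b + 1) ≤ lo a (b + 2) ∧ lo a (b + 2) ≤ lo a (b + 1) + 1 :=
    h.loS a (b + 1) ha (by omega)
  have s2 : hi a (b + 1) ≤ hi a (b + 2) ∧ hi a (b + 2) ≤ hi a (b + 1) + 1 :=
    h.hiS a (b + 1) ha (by omega)
  have s3 : lo a (b + 2) ≤ lo a (b + 3) ∧ lo a (b + 3) ≤ lo a (b + 2) + 1 :=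
    h.loS a (b + 2) ha (by omega)
  have s4 : hi a (b + 2) ≤ hi a (b + 3) ∧ hi a (b + 3) ≤ hi a (b + 2) + 1 :=
    h.hiS a (b + 2) ha (by omega)
  -- the grandchildren are in the columns e, e + 1, e + 2
  have hC2 : ∀ e, lo a (b + 1) ≤ e → e ≤ hi a (b + 1) → (Ch2 (f a (b + 1) e)).card = 3 →
      lo a (b + 3) ≤ e ∧ e + 2 ≤ hi a (b + 3) ∧ lo a (b + 2) ≤ e ∧ e + 1 ≤ hi a (b + 2) := by
    intro e e1 e2 e3
    have hsub : Ch2 (f a (b + 1) e) ⊆
        ((Finset.Icc (max e (lo a (b + 3))) (min (e + 2) (hi a (b + 3)))).image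
          fun c => f a (b + 3) c) := by
      intro y hy
      unfold Ch2 at hy
      rw [mem_biUnion] at hy
      obtain ⟨z, hz, hy⟩ := hy
      rw [h.mem_Ch C ha (r := b + 1) (by omega) e1 e2] at hz
      obtain ⟨c, c1, c2, c3, rfl⟩ := hz
      have c2' : lo a (b + 2) ≤ c := c2
      have c3' : c ≤ hi a (b + 2) := c3
      have hy' : y ∈ Ch (f a (b + 2) c) := hy
      rw [h.mem_Ch C ha (r := b + 2) (by omega) c2' c3'] at hy'
      obtain ⟨c', g1, g2, g3, rfl⟩ := hy'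
      have g2' : lo a (b + 3) ≤ c' := g2
      have g3' : c' ≤ hi a (b + 3) := g3
      rw [mem_image]
      exact ⟨c', by rw [mem_Icc]; omega, rfl⟩
    have h5 := (card_le_card hsub).trans card_image_le
    rw [e3, Nat.card_Icc] at h5
    refine ⟨by omega, by omega, by omega, by omega⟩
  rcases hs with ⟨e1, e2, rfl⟩ | ⟨e1, e2, rfl⟩
  · obtain ⟨g1, g2, g3, g4⟩ := hC2 _ le_rfl k1 h3
    exact h.no_lSEE C ha hb (h0 a ha) (by omega) ⟨e2, by omega⟩ (by omega)
  · obtain ⟨g1, g2, g3, g4⟩ := hC2 _ k1 le_rfl h3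
    exact h.no_rSEE C ha hb (h0 a ha) (by omega) ⟨e2, by omega⟩ (by omega)

end Pln

end Pool.Gauss
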