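import Pool.Agent.Work.MP_065141_co.K.PlnEv
import Pool.Agent.Work.MP_065141_co.K.PerfOne
import Pool.Agent.Work.MP_065141_co.K.Frm

/-!
# Events at a perfect level in planar coordinates

`nP b a c`, `nQ b a c` = number of P-events / Q-events at base `b` over the pair
`{f a b c, f a b (c + 1)}` of the strip of `a`, `HH = nP - nQ`.
-/

set_option autoImplicit false
set_option linter.unusedSectionVars false
open scoped Classical
open Finset

namespace Pool.Gauss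

variable {α : Type} [Fintype α] [PartialOrder α]

/-- the pair `c, c + 1` of row `b` of a strip -/
noncomputable def pr2 (f : α → ℕ → ℕ → α) (b : ℕ) (a : α) (c : ℕ) : Finset α :=
  {f a b c, f a b (c + 1)}

/-- the number of P-events over a pair -/
noncomputable def nP (f : α → ℕ → ℕ → α) (b : ℕ) (a : α) (c : ℕ) : ℕ :=
  ((PEv α b).filter fun w => Pr2 w = pr2 f b a c).card

/-- the number of Q-events over a pair -/
noncomputable def nQ (f : α → ℕ → ℕ → α) (b : ℕ) (a : α) (c : ℕ) : ℕ :=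
  ((QEv α b).filter fun v => Ch2 v = pr2 f b a c).card

/-- P minus Q -/
noncomputable def HH (f : α → ℕ → ℕ → α) (b : ℕ) (a : α) (c : ℕ) : ℤ :=
  (nP f b a c : ℤ) - nQ f b a c

namespace Pln

variable {lo hi : α → ℕ → ℕ} {i : ℕ} {f : α → ℕ → ℕ → α}

/-- the pairs of row `b` -/
noncomputable def prs (lo hi : α → ℕ → ℕ) (b : ℕ) : Finset (α × ℕ) :=
  (lev α 0).biUnion fun a => (Ico (lo a b) (hi a b)).image fun c => (a, c)

lemma mem_prs {b : ℕ} {p : α × ℕ} : p ∈ prs lo hi b ↔ corank p.1 = 0 ∧ lo p.1 b ≤ p.2 ∧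
    p.2 + 1 ≤ hi p.1 b := by
  unfold prs
  rw [mem_biUnion]
  constructor
  · rintro ⟨a, ha, hp⟩
    rw [mem_image] at hp
    obtain ⟨c, hc, rfl⟩ := hp
    rw [mem_Ico] at hc
    rw [mem_lev] at ha
    exact ⟨ha, hc.1, hc.2⟩
  · rintro ⟨h1, h2, h3⟩
    exact ⟨p.1, mem_lev.2 h1, mem_image.2 ⟨p.2, mem_Ico.2 ⟨h2, h3⟩, rfl⟩⟩

lemma sum_prs {M : Type} [AddCommMonoid M] (lo hi : α → ℕ → ℕ) (b : ℕ) (F : α × ℕ → M) :
    ∑ p ∈ prs lo hi b, F p = ∑ a ∈ lev α 0, ∑ c ∈ Ico (lo a b) (hi a b), F (a, c) := by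
  unfold prs
  rw [sum_biUnion]
  · apply Finset.sum_congr rfl
    intro a _
    rw [sum_image]
    intro c _ c' _ h
    exact (Prod.mk.inj h).2
  · intro a _ a' _ hne
    rw [Function.onFun, Finset.disjoint_left]
    intro p h1 h2
    rw [mem_image] at h1 h2
    obtain ⟨c, _, rfl⟩ := h1
    obtain ⟨c', _, h3⟩ := h2
    exact hne (Prod.mk.inj h3).1.symm

lemma mem_pr2 {b : ℕ} {a : α} {c : ℕ} {y : α} :
    y ∈ pr2 f b a c ↔ y = f a b c ∨ y = f a b (c + 1) := by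
  unfold pr2
  rw [mem_insert, mem_singleton]

/-- when two pairs of a row meet -/
lemma pr2_disj (h : Pln lo hi i f) {b : ℕ} (hb : b ≤ i) {p q : α × ℕ} (hp : p ∈ prs lo hi b)
    (hq : q ∈ prs lo hi b) : ¬ Disjoint (pr2 f b p.1 p.2) (pr2 f b q.1 q.2) ↔
      p.1 = q.1 ∧ (p.2 = q.2 ∨ p.2 = q.2 + 1 ∨ q.2 = p.2 + 1) := by
  rw [mem_prs] at hp hq
  rw [Finset.not_disjoint_iff]
  constructor
  · rintro ⟨y, h1, h2⟩
    rw [mem_pr2] at h1 h2
    rcases h1 with rfl | rfl <;> rcases h2 with h2 | h2 <;>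
      [have h3 := h.inj p.1 q.1 b p.2 q.2 hp.1 hq.1 hb (by omega) (by omega) (by omega)
          (by omega) h2;
       have h3 := h.inj p.1 q.1 b p.2 (q.2 + 1) hp.1 hq.1 hb (by omega) (by omega) (by omega)
          (by omega) h2;
       have h3 := h.inj p.1 q.1 b (p.2 + 1) q.2 hp.1 hq.1 hb (by omega) (by omega) (by omega)
          (by omega) h2;
       have h3 := h.inj p.1 q.1 b (p.2 + 1) (q.2 + 1) hp.1 hq.1 hb (by omega) (by omega)
          (by omega) (by omega) h2] <;>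
      exact ⟨h3.1, by omega⟩
  · rintro ⟨h1, h2 | h2 | h2⟩
    · exact ⟨f p.1 b p.2, mem_pr2.2 (Or.inl rfl), mem_pr2.2 (Or.inl (by rw [h1, h2]))⟩
    · exact ⟨f p.1 b p.2, mem_pr2.2 (Or.inl rfl), mem_pr2.2 (Or.inr (by rw [h1, h2]))⟩
    · exact ⟨f p.1 b (p.2 + 1), mem_pr2.2 (Or.inr rfl), mem_pr2.2 (Or.inl (by rw [h1, h2]))⟩

lemma pr2_inj (h : Pln lo hi i f) {b : ℕ} (hb : b ≤ i) {p q : α × ℕ} (hp : p ∈ prs lo hi b)
    (hq : q ∈ prs lo hi b) (he : pr2 f b p.1 p.2 = pr2 f b q.1 q.2) : p = q := by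
  have hp' := mem_prs.1 hp
  have hq' := mem_prs.1 hq
  have h1 : f p.1 b p.2 ∈ pr2 f b q.1 q.2 := by
    rw [← he]
    exact mem_pr2.2 (Or.inl rfl)
  have h2 : f p.1 b (p.2 + 1) ∈ pr2 f b q.1 q.2 := by
    rw [← he]
    exact mem_pr2.2 (Or.inr rfl)
  rw [mem_pr2] at h1 h2
  have k1 : p.1 = q.1 ∧ (p.2 = q.2 ∨ p.2 = q.2 + 1) := by
    rcases h1 with h1 | h1
    · have := h.inj _ _ b _ _ hp'.1 hq'.1 hb (by omega) (by omega) (by omega) (by omega) h1
      exact ⟨this.1, Or.inl this.2⟩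
    · have := h.inj _ _ b _ _ hp'.1 hq'.1 hb (by omega) (by omega) (by omega) (by omega) h1
      exact ⟨this.1, Or.inr this.2⟩
  have k2 : p.2 + 1 = q.2 ∨ p.2 + 1 = q.2 + 1 := by
    rcases h2 with h2 | h2
    · exact Or.inl (h.inj _ _ b _ _ hp'.1 hq'.1 hb (by omega) (by omega) (by omega) (by omega)
        h2).2
    · exact Or.inr (h.inj _ _ b _ _ hp'.1 hq'.1 hb (by omega) (by omega) (by omega) (by omega)
        h2).2
  exact Prod.ext k1.1 (by omega)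

/-- the pair of a P-event -/
lemma PEv_pr (h : Pln lo hi i f) (C : CtxK α) {b : ℕ} (hb : b + 1 ≤ i) {w : α}
    (hw : w ∈ PEv α b) :
    ∃ p ∈ prs lo hi b, Pr w = {f p.1 (b + 1) (p.2 + 1)} ∧ Pr2 w = pr2 f b p.1 p.2 := by
  rw [mem_PEv] at hw
  obtain ⟨x, hx⟩ := card_eq_one.1 hw.2.1
  have h1 : corank x = b + 1 := by
    have := C.corank_of_mem_Pr (x := w) (y := x) (by rw [hx]; simp)
    omega
  obtain ⟨a, c, ha, h2, h3, rfl⟩ := h.sur' hb h1
  have h4 : Pr2 w = Pr (f a (b + 1) c) := Pr2_of_single hx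
  have h5 := hw.2.2
  rw [h4] at h5
  rcases h.Pr_cases ha (r := b) (by omega) h2 h3 with ⟨e1, e2⟩ | ⟨e1, e2⟩ | ⟨e1, e1', e2⟩
  · rw [e2, card_singleton] at h5
    omega
  · rw [e2, card_singleton] at h5
    omega
  · refine ⟨(a, c - 1), mem_prs.2 ⟨ha, by simp only; omega, by simp only; omega⟩, ?_, ?_⟩
    · simp only
      rw [show c - 1 + 1 = c by omega, hx]
    · simp only
      rw [h4, e2]
      unfold pr2
      rw [show c - 1 + 1 = c by omega]

/-- the pair of a Q-event -/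
lemma QEv_pr (h : Pln lo hi i f) (C : CtxK α) {b : ℕ} (hb : b ≤ i) {v : α} (hv : v ∈ QEv α b) :
    ∃ p ∈ prs lo hi b, Ch2 v = pr2 f b p.1 p.2 := by
  rw [mem_QEv] at hv
  obtain ⟨z, hz⟩ := card_eq_one.1 hv.2.1
  have h1 : corank z = corank v + 1 := C.corank_of_mem_Ch (x := v) (y := z) (by rw [hz]; simp)
  have h4 : Ch2 v = Ch z := Ch2_of_single hz
  have h5 := hv.2.2
  rw [h4] at h5
  have hm : 0 < mD b (Ch z) := by
    unfold mD
    rw [card_pos]
    exact ⟨z, mem_filter.2 ⟨mem_lev'.2 (by omega), rfl⟩⟩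
  obtain ⟨a, c, ha, g1, g2, g3⟩ := (h.mono hb).mD_pos C h5 hm
  exact ⟨(a, c), mem_prs.2 ⟨ha, g1, g2⟩, by rw [h4, g3]; rfl⟩

/-- sums over the P-events -/
lemma sum_PEv {M : Type} [AddCommMonoid M] (h : Pln lo hi i f) (C : CtxK α) {b : ℕ}
    (hb : b + 1 ≤ i) (F : Finset α → M) :
    ∑ w ∈ PEv α b, F (Pr2 w) = ∑ p ∈ prs lo hi b, nP f b p.1 p.2 • F (pr2 f b p.1 p.2) := by
  have h1 : ∀ w ∈ PEv α b, F (Pr2 w) = ∑ p ∈ prs lo hi b,
      if Pr2 w = pr2 f b p.1 p.2 then F (pr2 f b p.1 p.2) else 0 := by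
    intro w hw
    obtain ⟨p, hp, _, h2⟩ := h.PEv_pr C hb hw
    rw [sum_eq_single p]
    · rw [if_pos h2, h2]
    · intro q hq hne
      rw [if_neg]
      intro h3
      exact hne (h.pr2_inj (by omega) hq hp (by rw [← h3, h2]))
    · intro h3
      exact (h3 hp).elim
  rw [Finset.sum_congr rfl h1, sum_comm]
  apply Finset.sum_congr rfl
  intro p _
  rw [← sum_filter, sum_const]
  rfl

/-- sums over the Q-events -/
lemma sum_QEv {M : Type} [AddCommMonoid M] (h : Pln lo hi i f) (C : CtxK α) {b : ℕ}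
    (hb : b ≤ i) (F : Finset α → M) :
    ∑ v ∈ QEv α b, F (Ch2 v) = ∑ p ∈ prs lo hi b, nQ f b p.1 p.2 • F (pr2 f b p.1 p.2) := by
  have h1 : ∀ v ∈ QEv α b, F (Ch2 v) = ∑ p ∈ prs lo hi b,
      if Ch2 v = pr2 f b p.1 p.2 then F (pr2 f b p.1 p.2) else 0 := by
    intro w hw
    obtain ⟨p, hp, h2⟩ := h.QEv_pr C hb hw
    rw [sum_eq_single p]
    · rw [if_pos h2, h2]
    · intro q hq hne
      rw [if_neg]
      intro h3
      exact hne (h.pr2_inj hb hq hp (by rw [← h3, h2]))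
    · intro h3
      exact (h3 hp).elim
  rw [Finset.sum_congr rfl h1, sum_comm]
  apply Finset.sum_congr rfl
  intro p _
  rw [← sum_filter, sum_const]
  rfl

/-- **P4 in coordinates**: the sum of the forms of the strips -/
theorem frm_sum (h : Pln lo hi i f) (C : CtxK α) {b : ℕ} (hb : b + 1 ≤ i) (hbH : b < HT α)
    (hP : Perf α b) : ∑ a ∈ lev α 0, frm (HH f b a) (lo a b) (hi a b) =
      -2 * ((CtxK.badDn α b).card + (CtxK.badUp α b).card) := by
  have h4 := C.P4K hbH hP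
  have h2 := (C.one_perf hbH hP).1
  -- all pairs
  set T : Finset α → Finset α → ℤ := fun s t => if Disjoint s t then 1 else 0 with hT
  have e1 : ((∑ w ∈ PEv α b, ∑ w' ∈ PEv α b, if Disjoint (Pr2 w) (Pr2 w') then 1 else 0 : ℕ) : ℤ) =
      ∑ p ∈ prs lo hi b, ∑ q ∈ prs lo hi b,
        (nP f b p.1 p.2 : ℤ) * nP f b q.1 q.2 * T (pr2 f b p.1 p.2) (pr2 f b q.1 q.2) := by
    push_cast
    rw [h.sum_PEv C hb (F := fun s => ∑ w' ∈ PEv α b, if Disjoint s (Pr2 w') then (1 : ℤ) else 0)]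
    apply Finset.sum_congr rfl
    intro p _
    rw [h.sum_PEv C hb (F := fun t => if Disjoint (pr2 f b p.1 p.2) t then (1 : ℤ) else 0),
      smul_sum]
    apply Finset.sum_congr rfl
    intro q _
    rw [nsmul_eq_mul, nsmul_eq_mul, hT]
    ring
  have e2 : ((∑ w ∈ QEv α b, ∑ w' ∈ QEv α b, if Disjoint (Ch2 w) (Ch2 w') then 1 else 0 : ℕ) : ℤ) =
      ∑ p ∈ prs lo hi b, ∑ q ∈ prs lo hi b,
        (nQ f b p.1 p.2 : ℤ) * nQ f b q.1 q.2 * T (pr2 f b p.1 p.2) (pr2 f b q.1 q.2) := by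
    push_cast
    rw [h.sum_QEv C (by omega) (F := fun s => ∑ w' ∈ QEv α b,
      if Disjoint s (Ch2 w') then (1 : ℤ) else 0)]
    apply Finset.sum_congr rfl
    intro p _
    rw [h.sum_QEv C (by omega) (F := fun t => if Disjoint (pr2 f b p.1 p.2) t then (1 : ℤ) else 0),
      smul_sum]
    apply Finset.sum_congr rfl
    intro q _
    rw [nsmul_eq_mul, nsmul_eq_mul, hT]
    ring
  have e3 : ((∑ w ∈ PEv α b, ∑ w' ∈ QEv α b, if Disjoint (Pr2 w) (Ch2 w') then 1 else 0 : ℕ) : ℤ) =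
      ∑ p ∈ prs lo hi b, ∑ q ∈ prs lo hi b,
        (nP f b p.1 p.2 : ℤ) * nQ f b q.1 q.2 * T (pr2 f b p.1 p.2) (pr2 f b q.1 q.2) := by
    push_cast
    rw [h.sum_PEv C hb (F := fun s => ∑ w' ∈ QEv α b, if Disjoint s (Ch2 w') then (1 : ℤ) else 0)]
    apply Finset.sum_congr rfl
    intro p _
    rw [h.sum_QEv C (by omega) (F := fun t => if Disjoint (pr2 f b p.1 p.2) t then (1 : ℤ) else 0),
      smul_sum]
    apply Finset.sum_congr rfl
    intro q _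
    rw [nsmul_eq_mul, nsmul_eq_mul, hT]
    ring
  have e4 : ∑ p ∈ prs lo hi b, ∑ q ∈ prs lo hi b,
        (nP f b p.1 p.2 : ℤ) * nQ f b q.1 q.2 * T (pr2 f b p.1 p.2) (pr2 f b q.1 q.2) =
      ∑ p ∈ prs lo hi b, ∑ q ∈ prs lo hi b,
        (nQ f b p.1 p.2 : ℤ) * nP f b q.1 q.2 * T (pr2 f b p.1 p.2) (pr2 f b q.1 q.2) := by
    rw [sum_comm]
    apply Finset.sum_congr rfl
    intro p _
    apply Finset.sum_congr rfl
    intro q _
    rw [hT]
    simp only [disjoint_comm (a := pr2 f b q.1 q.2)]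
    ring
  have e5 : ∑ p ∈ prs lo hi b, (HH f b p.1 p.2) = 0 := by
    have k1 := h.sum_PEv C hb (F := fun _ => (1 : ℤ))
    have k2 := h.sum_QEv C (b := b) (by omega) (F := fun _ => (1 : ℤ))
    simp only [sum_const, nsmul_eq_mul, mul_one] at k1 k2
    unfold HH
    rw [sum_sub_distrib, ← k1, ← k2, h2]
    ring
  have e6 : ∑ p ∈ prs lo hi b, ∑ q ∈ prs lo hi b, HH f b p.1 p.2 * HH f b q.1 q.2 *
      T (pr2 f b p.1 p.2) (pr2 f b q.1 q.2) = 2 * ((CtxK.badDn α b).card + (CtxK.badUp α b).card) := by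
    have k1 : ∀ p ∈ prs lo hi b, ∀ q ∈ prs lo hi b, HH f b p.1 p.2 * HH f b q.1 q.2 *
        T (pr2 f b p.1 p.2) (pr2 f b q.1 q.2) =
        (nP f b p.1 p.2 : ℤ) * nP f b q.1 q.2 * T (pr2 f b p.1 p.2) (pr2 f b q.1 q.2) +
        (nQ f b p.1 p.2 : ℤ) * nQ f b q.1 q.2 * T (pr2 f b p.1 p.2) (pr2 f b q.1 q.2) -
        (nP f b p.1 p.2 : ℤ) * nQ f b q.1 q.2 * T (pr2 f b p.1 p.2) (pr2 f b q.1 q.2) -
        (nQ f b p.1 p.2 : ℤ) * nP f b q.1 q.2 * T (pr2 f b p.1 p.2) (pr2 f b q.1 q.2) := by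
      intro p _ q _
      unfold HH
      ring
    rw [Finset.sum_congr rfl fun p hp => Finset.sum_congr rfl (k1 p hp)]
    simp only [sum_add_distrib, sum_sub_distrib]
    rw [← e4, ← e1, ← e2, ← e3]
    linarith
  have e7 : ∑ p ∈ prs lo hi b, ∑ q ∈ prs lo hi b, HH f b p.1 p.2 * HH f b q.1 q.2 = 0 := by
    have : ∀ p ∈ prs lo hi b, ∑ q ∈ prs lo hi b, HH f b p.1 p.2 * HH f b q.1 q.2 = 0 := by
      intro p _
      rw [← mul_sum, e5, mul_zero]
    exact Finset.sum_eq_zero this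
  have e8 : ∑ p ∈ prs lo hi b, ∑ q ∈ prs lo hi b, HH f b p.1 p.2 * HH f b q.1 q.2 *
      (1 - T (pr2 f b p.1 p.2) (pr2 f b q.1 q.2)) =
        -2 * ((CtxK.badDn α b).card + (CtxK.badUp α b).card) := by
    simp only [mul_sub, mul_one, sum_sub_distrib]
    rw [e7, e6]
    ring
  rw [← e8, sum_prs]
  apply Finset.sum_congr rfl
  intro a ha
  rw [mem_lev] at ha
  unfold frm
  apply Finset.sum_congr rfl
  intro c hc
  rw [mem_Ico] at hc
  rw [sum_prs]
  have hpc : (a, c) ∈ prs lo hi b := mem_prs.2 ⟨ha, hc.1, hc.2⟩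
  rw [sum_eq_single a]
  · apply Finset.sum_congr rfl
    intro c' hc'
    rw [mem_Ico] at hc'
    have hqc : (a, c') ∈ prs lo hi b := mem_prs.2 ⟨ha, hc'.1, hc'.2⟩
    have k := h.pr2_disj (by omega : b ≤ i) hpc hqc
    simp only [hT]
    by_cases hd : Disjoint (pr2 f b a c) (pr2 f b a c')
    · rw [if_pos hd, if_neg (fun h' => (k.2 ⟨rfl, h'⟩) hd)]
      ring
    · rw [if_neg hd, if_pos (k.1 hd).2]
      ring
  · intro a' ha' hne
    rw [mem_lev] at ha'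
    apply Finset.sum_eq_zero
    intro c' hc'
    rw [mem_Ico] at hc'
    have hqc : (a', c') ∈ prs lo hi b := mem_prs.2 ⟨ha', hc'.1, hc'.2⟩
    have k := h.pr2_disj (by omega : b ≤ i) hpc hqc
    simp only [hT]
    by_cases hd : Disjoint (pr2 f b a c) (pr2 f b a' c')
    · rw [if_pos hd]
      ring
    · exact (hne (k.1 hd).1.symm).elim
  · intro h'
    exact (h' (mem_lev.2 ha)).elim

end Pln

end Pool.Gauss
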