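import Pool.Agent.Work.MP_065141_co.K.TwoBody

/-!
# Objects with pair interactions

The factors `F s`, `s ∈ C`, have pairwise disjoint supports `T s` and `Ev (F s) = 1`. An object `j`
has a polynomial `r j`, a support `U j`, and it removes the factors in `R j`; a pair of objects has a
polynomial `r2 j l` and removes the factors in `R2 j l`.  The pairs which are not near are
independent.
-/

set_option autoImplicit false
open scoped Classical
open Finset MvPolynomial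

namespace Pool.Gauss

variable {A : Type} [CommRing A] {Y σ ι : Type}

/-- the contribution of an object: `r` is its polynomial, `R` the removed factors -/
noncomputable def kob (w : A) (C : Finset σ) (F : σ → MvPolynomial Y A) (R : Finset σ)
    (r : MvPolynomial Y A) : A :=
  Ev w ((∏ s ∈ C \ R, F s) * r)

/-- only the touched factors matter -/
lemma kob_eq (w : A) {C : Finset σ} {F : σ → MvPolynomial Y A} {T : σ → Finset Y}
    (hF : ∀ s ∈ C, F s ∈ supported A (T s : Set Y))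
    (hT : ∀ s ∈ C, ∀ t ∈ C, s ≠ t → Disjoint (T s) (T t)) (h1 : ∀ s ∈ C, Ev w (F s) = 1)
    {U : Finset Y} {R : Finset σ} {r : MvPolynomial Y A} (hr : r ∈ supported A (U : Set Y)) :
    kob w C F R r = Ev w ((∏ s ∈ tch C T U \ R, F s) * r) := by
  have h2 : tch (C \ R) T U = tch C T U \ R := by
    ext s
    simp only [tch, mem_filter, mem_sdiff]
    tauto
  rw [kob, Ev_prod_tch w (T := T) (fun s hs => hF s (mem_sdiff.1 hs).1)
    (fun s hs t ht => hT s (mem_sdiff.1 hs).1 t (mem_sdiff.1 ht).1)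
    (fun s hs => h1 s (mem_sdiff.1 hs).1) hr, h2]

/-- two objects which do not see each other are independent -/
lemma kob_mul (w : A) {C : Finset σ} {F : σ → MvPolynomial Y A} {T : σ → Finset Y}
    (hF : ∀ s ∈ C, F s ∈ supported A (T s : Set Y))
    (hT : ∀ s ∈ C, ∀ t ∈ C, s ≠ t → Disjoint (T s) (T t)) (h1 : ∀ s ∈ C, Ev w (F s) = 1)
    {U U' : Finset Y} {R R' : Finset σ} {r r' : MvPolynomial Y A}
    (hr : r ∈ supported A (U : Set Y)) (hr' : r' ∈ supported A (U' : Set Y))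
    (hR : R ⊆ tch C T U) (hR' : R' ⊆ tch C T U') (hd : Disjoint (clo C T U) (clo C T U')) :
    kob w C F (R ∪ R') (r * r') = kob w C F R r * kob w C F R' r' := by
  have hT' : ∀ (V : Finset Y), ∀ s ∈ tch C T V, T s ⊆ clo C T V := fun V s hs =>
    (subset_biUnion_of_mem T hs).trans subset_union_right
  have h2 : Disjoint (tch C T U) (tch C T U') := by
    rw [Finset.disjoint_left]
    intro s hs hs'
    have g1 : ¬ Disjoint (T s) U := (mem_filter.1 hs).2
    apply g1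
    have g2 := disjoint_of_subset_left (hT' _ s hs) (disjoint_of_subset_right (hT' _ s hs') hd)
    rw [disjoint_self_iff_empty] at g2
    rw [g2]
    exact disjoint_empty_left _
  have hrr : r * r' ∈ supported A ((U ∪ U' : Finset Y) : Set Y) := by
    refine mul_mem (supported_mono ?_ hr) (supported_mono ?_ hr')
    · exact_mod_cast subset_union_left
    · exact_mod_cast subset_union_right
  rw [kob_eq w hF hT h1 hrr, kob_eq w hF hT h1 hr, kob_eq w hF hT h1 hr']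
  have h3 : tch C T (U ∪ U') \ (R ∪ R') = (tch C T U \ R) ∪ (tch C T U' \ R') := by
    ext s
    have g1 : s ∈ tch C T (U ∪ U') ↔ s ∈ tch C T U ∨ s ∈ tch C T U' := by
      simp only [tch, mem_filter, disjoint_union_right]
      tauto
    rw [mem_sdiff, mem_union, mem_union, mem_sdiff, mem_sdiff, g1]
    constructor
    · rintro ⟨g2 | g2, g3⟩ <;> tauto
    · rintro (⟨g2, g3⟩ | ⟨g2, g3⟩)
      · refine ⟨Or.inl g2, ?_⟩
        rintro (g4 | g4)
        · exact g3 g4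
        · exact Finset.disjoint_left.1 h2 g2 (hR' g4)
      · refine ⟨Or.inr g2, ?_⟩
        rintro (g4 | g4)
        · exact Finset.disjoint_left.1 h2 (hR g4) g2
        · exact g3 g4
  have h4 : Disjoint (tch C T U \ R) (tch C T U' \ R') :=
    disjoint_of_subset_left sdiff_subset (disjoint_of_subset_right sdiff_subset h2)
  have h5 : (∏ s ∈ tch C T (U ∪ U') \ (R ∪ R'), F s) * (r * r') =
      ((∏ s ∈ tch C T U \ R, F s) * r) * ((∏ s ∈ tch C T U' \ R', F s) * r') := by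
    rw [h3, prod_union h4]
    ring
  have hs : ∀ (V : Finset Y) (P : Finset σ) (q : MvPolynomial Y A),
      q ∈ supported A (V : Set Y) →
      (∏ s ∈ tch C T V \ P, F s) * q ∈ supported A (clo C T V : Set Y) := by
    intro V P q hq
    refine mul_mem (prod_supported (fun s hs => hF s (mem_filter.1 (mem_sdiff.1 hs).1).1) ?_)
      (supported_mono ?_ hq)
    · intro s hs
      exact_mod_cast hT' _ s (mem_sdiff.1 hs).1
    · exact_mod_cast subset_union_left
  rw [h5, Ev_mul w (s := (clo C T U : Set Y)) (t := (clo C T U' : Set Y)) ?_ (hs U R r hr)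
    (hs U' R' r' hr')]
  exact_mod_cast hd

/-- THE PAIR EXPANSION -/
theorem pair_expansion (w : A) {C : Finset σ} {F : σ → MvPolynomial Y A} {T : σ → Finset Y}
    (hF : ∀ s ∈ C, F s ∈ supported A (T s : Set Y))
    (hT : ∀ s ∈ C, ∀ t ∈ C, s ≠ t → Disjoint (T s) (T t)) (h1 : ∀ s ∈ C, Ev w (F s) = 1)
    {J : Finset ι} {r : ι → MvPolynomial Y A} {U : ι → Finset Y} {R : ι → Finset σ}
    {r2 : ι → ι → MvPolynomial Y A} {R2 : ι → ι → Finset σ}
    (hr : ∀ j ∈ J, r j ∈ supported A (U j : Set Y)) (hR : ∀ j ∈ J, R j ⊆ tch C T (U j))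
    (near : ι → ι → Prop)
    (hfar : ∀ j ∈ J, ∀ l ∈ J, j ≠ l → ¬ near j l → r2 j l = r j * r l ∧
      R2 j l = R j ∪ R l ∧ Disjoint (clo C T (U j)) (clo C T (U l))) :
    2 + 2 * ∑ j ∈ J, kob w C F (R j) (r j) +
      ∑ p ∈ J.offDiag, kob w C F (R2 p.1 p.2) (r2 p.1 p.2) =
    2 + 2 * ∑ j ∈ J, kob w C F (R j) (r j) + (∑ j ∈ J, kob w C F (R j) (r j)) ^ 2 -
      ∑ j ∈ J, kob w C F (R j) (r j) ^ 2 +
      ∑ p ∈ J.offDiag.filter (fun p => near p.1 p.2),
        (kob w C F (R2 p.1 p.2) (r2 p.1 p.2) -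
          kob w C F (R p.1) (r p.1) * kob w C F (R p.2) (r p.2)) := by
  have h6 : ∑ p ∈ J.offDiag, kob w C F (R2 p.1 p.2) (r2 p.1 p.2) =
      (∑ j ∈ J, kob w C F (R j) (r j)) ^ 2 - ∑ j ∈ J, kob w C F (R j) (r j) ^ 2 +
      ∑ p ∈ J.offDiag.filter (fun p => near p.1 p.2),
        (kob w C F (R2 p.1 p.2) (r2 p.1 p.2) -
          kob w C F (R p.1) (r p.1) * kob w C F (R p.2) (r p.2)) := by
    rw [sum_sq_sub, sum_filter, ← sum_add_distrib]
    apply sum_congr rfl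
    intro p hp
    rw [mem_offDiag] at hp
    by_cases hd : near p.1 p.2
    · rw [if_pos hd]
      ring
    · obtain ⟨g1, g2, g3⟩ := hfar p.1 hp.1 p.2 hp.2.1 hp.2.2 hd
      rw [if_neg hd, g1, g2, kob_mul w hF hT h1 (hr p.1 hp.1) (hr p.2 hp.2.1) (hR p.1 hp.1)
        (hR p.2 hp.2.1) g3, add_zero]
  rw [h6]
  ring

/-! ### One-body expansion with modified factors -/

lemma prod_one_add_dvd {B : Type} [CommRing B] (w : B) (J : Finset ι) (r : ι → B)
    (hr : ∀ j ∈ J, w ∣ r j) : w ^ 2 ∣ ∏ j ∈ J, (1 + r j) - (1 + ∑ j ∈ J, r j) := by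
  induction J using Finset.induction_on with
  | empty => simp
  | insert j J hj ih =>
    obtain ⟨q, hq⟩ := ih (fun l hl => hr l (mem_insert_of_mem hl))
    obtain ⟨a, ha⟩ := hr j (mem_insert_self j J)
    obtain ⟨b, hb⟩ : w ∣ ∑ l ∈ J, r l := dvd_sum fun l hl => hr l (mem_insert_of_mem hl)
    rw [prod_insert hj, sum_insert hj]
    refine ⟨(1 + r j) * q + a * b, ?_⟩
    have h2 : ∏ l ∈ J, (1 + r l) = 1 + ∑ l ∈ J, r l + w ^ 2 * q := by
      rw [← hq]
      ring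
    rw [h2, hb, ha]
    ring

/-- ONE-BODY EXPANSION. The factors `F' s` with `s ∈ R` are modified, the items `m ∈ N` are near. -/
theorem one_body (w : A) {C : Finset σ} {F : σ → MvPolynomial Y A} {T : σ → Finset Y}
    (hF : ∀ s ∈ C, F s ∈ supported A (T s : Set Y))
    (hT : ∀ s ∈ C, ∀ t ∈ C, s ≠ t → Disjoint (T s) (T t)) (h1 : ∀ s ∈ C, Ev w (F s) = 1)
    {R : Finset σ} (hR : R ⊆ C) {F' : σ → MvPolynomial Y A}
    (hF' : ∀ s ∈ C, F' s ∈ supported A (T s : Set Y)) (hFF : ∀ s ∈ C, s ∉ R → F' s = F s)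
    {J N : Finset ι} {r r' : ι → MvPolynomial Y A} {U : ι → Finset Y}
    (hr : ∀ j ∈ J, r j ∈ supported A (U j : Set Y)) (hw : ∀ j ∈ J, MvPolynomial.C w ∣ r' j)
    (hN : N ⊆ J) (hfar : ∀ j ∈ J, j ∉ N → r' j = r j ∧ Disjoint (tch C T (U j)) R) :
    w ^ 2 ∣ Ev w ((∏ s ∈ C, F' s) * ∏ j ∈ J, (1 + r' j)) -
      (Ev w (∏ s ∈ R, F' s) * (1 + ∑ j ∈ J, kap1 w C F T r U j) +
        ∑ j ∈ N, (Ev w ((∏ s ∈ C, F' s) * r' j) -
          Ev w (∏ s ∈ R, F' s) * kap1 w C F T r U j)) := by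
  obtain ⟨q, hq⟩ := prod_one_add_dvd (MvPolynomial.C w : MvPolynomial Y A) J r' hw
  have h2 : ∏ j ∈ J, (1 + r' j) = 1 + ∑ j ∈ J, r' j + MvPolynomial.C (w ^ 2) * q := by
    rw [map_pow, ← hq]
    ring
  have hCR : ∏ s ∈ C, F' s = (∏ s ∈ R, F' s) * ∏ s ∈ C \ R, F s := by
    rw [← prod_sdiff hR, mul_comm]
    congr 1
    apply prod_congr rfl
    intro s hs
    exact hFF s (mem_sdiff.1 hs).1 (mem_sdiff.1 hs).2
  have hRs : ∏ s ∈ R, F' s ∈ supported A ((R.biUnion T : Finset Y) : Set Y) :=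
    prod_supported (fun s hs => hF' s (hR hs))
      (fun s hs => by exact_mod_cast subset_biUnion_of_mem T hs)
  have hCs : ∀ s ∈ C \ R, F s ∈ supported A (T s : Set Y) := fun s hs => hF s (mem_sdiff.1 hs).1
  have hdT : Disjoint ((R.biUnion T : Finset Y)) ((C \ R).biUnion T) := by
    rw [disjoint_biUnion_left]
    intro s hs
    rw [disjoint_biUnion_right]
    intro t ht
    rw [mem_sdiff] at ht
    exact hT s (hR hs) t ht.1 (by rintro rfl; exact ht.2 hs)
  have h0 : Ev w (∏ s ∈ C, F' s) = Ev w (∏ s ∈ R, F' s) := by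
    rw [hCR, Ev_mul w (s := ((R.biUnion T : Finset Y) : Set Y))
      (t := (((C \ R).biUnion T : Finset Y) : Set Y)) (by exact_mod_cast hdT) hRs
      (prod_supported hCs (fun s hs => by exact_mod_cast subset_biUnion_of_mem T hs)),
      Ev_prod_eq_one w hCs (fun s hs t ht => hT s (mem_sdiff.1 hs).1 t (mem_sdiff.1 ht).1)
        (fun s hs => h1 s (mem_sdiff.1 hs).1), mul_one]
  have h3 : ∀ j ∈ J, j ∉ N → Ev w ((∏ s ∈ C, F' s) * r' j) =
      Ev w (∏ s ∈ R, F' s) * kap1 w C F T r U j := by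
    intro j hj hjN
    obtain ⟨g1, g2⟩ := hfar j hj hjN
    rw [g1]
    -- the product of the factors which are not modified is split into the touched ones and the rest
    have g3 : ∏ s ∈ C \ R, F s = (∏ s ∈ (C \ R) \ tch C T (U j), F s) *
        ∏ s ∈ tch C T (U j), F s := by
      rw [prod_sdiff]
      intro s hs
      rw [mem_sdiff]
      exact ⟨(mem_filter.1 hs).1, fun h => Finset.disjoint_left.1 g2 hs h⟩
    obtain ⟨V, hV⟩ : ∃ V : Finset Y, V = (C \ tch C T (U j)).biUnion T := ⟨_, rfl⟩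
    have g4 : (∏ s ∈ C, F' s) * r j = ((∏ s ∈ R, F' s) * ∏ s ∈ (C \ R) \ tch C T (U j), F s) *
        ((∏ s ∈ tch C T (U j), F s) * r j) := by
      rw [hCR, g3]
      ring
    have g5 : (∏ s ∈ R, F' s) * ∏ s ∈ (C \ R) \ tch C T (U j), F s ∈
        supported A (V : Set Y) := by
      refine mul_mem (prod_supported (fun s hs => hF' s (hR hs)) ?_)
        (prod_supported (fun s hs => hCs s (mem_sdiff.1 hs).1) ?_)
      · intro s hs
        rw [hV]
        have : s ∈ C \ tch C T (U j) :=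
          mem_sdiff.2 ⟨hR hs, fun h => Finset.disjoint_left.1 g2 h hs⟩
        exact_mod_cast subset_biUnion_of_mem T this
      · intro s hs
        rw [hV]
        rw [mem_sdiff, mem_sdiff] at hs
        have : s ∈ C \ tch C T (U j) := mem_sdiff.2 ⟨hs.1.1, hs.2⟩
        exact_mod_cast subset_biUnion_of_mem T this
    have g6 : (∏ s ∈ tch C T (U j), F s) * r j ∈ supported A (clo C T (U j) : Set Y) := by
      refine mul_mem (prod_supported (fun s hs => hF s (mem_filter.1 hs).1) ?_)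
        (supported_mono ?_ (hr j hj))
      · intro s hs
        have := (subset_biUnion_of_mem T hs).trans
          (subset_union_right : (tch C T (U j)).biUnion T ⊆ clo C T (U j))
        exact_mod_cast this
      · exact_mod_cast subset_union_left
    have g7 : Disjoint V (clo C T (U j)) := by
      rw [hV, disjoint_biUnion_left]
      intro s hs
      rw [mem_sdiff] at hs
      rw [clo, disjoint_union_right]
      constructor
      · by_contra h
        exact hs.2 (mem_filter.2 ⟨hs.1, h⟩)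
      · rw [disjoint_biUnion_right]
        intro t ht
        exact hT s hs.1 t (mem_filter.1 ht).1 (by rintro rfl; exact hs.2 ht)
    have g8 : Ev w ((∏ s ∈ R, F' s) * ∏ s ∈ (C \ R) \ tch C T (U j), F s) =
        Ev w (∏ s ∈ R, F' s) := by
      have g9 : Disjoint (R.biUnion T) (((C \ R) \ tch C T (U j)).biUnion T) :=
        disjoint_of_subset_right (biUnion_subset_biUnion_of_subset_left T sdiff_subset) hdT
      rw [Ev_mul w (s := ((R.biUnion T : Finset Y) : Set Y))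
        (t := ((((C \ R) \ tch C T (U j)).biUnion T : Finset Y) : Set Y))
        (by exact_mod_cast g9) hRs
        (prod_supported (fun s hs => hCs s (mem_sdiff.1 hs).1)
          (fun s hs => by exact_mod_cast subset_biUnion_of_mem T hs)),
        Ev_prod_eq_one w (fun s hs => hCs s (mem_sdiff.1 hs).1)
          (fun s hs t ht => hT s (mem_sdiff.1 (mem_sdiff.1 hs).1).1 t
            (mem_sdiff.1 (mem_sdiff.1 ht).1).1)
          (fun s hs => h1 s (mem_sdiff.1 (mem_sdiff.1 hs).1).1), mul_one]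
    rw [g4, Ev_mul w (s := (V : Set Y)) (t := (clo C T (U j) : Set Y)) (by exact_mod_cast g7)
      g5 g6, g8, kap1]
  have h4 : Ev w ((∏ s ∈ C, F' s) * ∏ j ∈ J, (1 + r' j)) =
      Ev w (∏ s ∈ R, F' s) + ∑ j ∈ J, Ev w ((∏ s ∈ C, F' s) * r' j) +
      w ^ 2 * Ev w ((∏ s ∈ C, F' s) * q) := by
    rw [h2]
    have : (∏ s ∈ C, F' s) * (1 + ∑ j ∈ J, r' j + MvPolynomial.C (w ^ 2) * q) =
        (∏ s ∈ C, F' s) + (∑ j ∈ J, (∏ s ∈ C, F' s) * r' j) +
        MvPolynomial.C (w ^ 2) * ((∏ s ∈ C, F' s) * q) := by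
      rw [← mul_sum]
      ring
    rw [this, map_add, map_add, Ev_C_mul, map_sum, h0]
  have h5 : ∑ j ∈ J, Ev w ((∏ s ∈ C, F' s) * r' j) =
      Ev w (∏ s ∈ R, F' s) * ∑ j ∈ J, kap1 w C F T r U j +
      ∑ j ∈ N, (Ev w ((∏ s ∈ C, F' s) * r' j) -
          Ev w (∏ s ∈ R, F' s) * kap1 w C F T r U j) := by
    rw [← sum_sdiff hN, ← sum_sdiff hN (f := fun j => kap1 w C F T r U j), mul_add,
      sum_sub_distrib, mul_sum, mul_sum]
    rw [sum_congr rfl fun j hj => h3 j (mem_sdiff.1 hj).1 (mem_sdiff.1 hj).2]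
    ring
  rw [h4, h5]
  exact ⟨Ev w ((∏ s ∈ C, F' s) * q), by ring⟩

/-- combination of the parts with `k = 0`, `k = δ_y`, `|k| = 2`; `X` are the remaining terms -/
lemma combine {ν : Type} (w q K K0 S Q I X : A) (V : Finset ν) (Ky eta ny K2 : ν → A)
    (Kyy : ν → ν → A) (near : ν → ν → Prop) (hq : w ∣ q)
    (hK : w ^ 3 ∣ 2 * K - (2 * K0 + 2 * (q * ∑ y ∈ V, Ky y) +
      q ^ 2 * ∑ p ∈ V.offDiag, Kyy p.1 p.2 + 2 * (q ^ 2 * ∑ y ∈ V, K2 y) + 2 * X))
    (hK0 : w ^ 3 ∣ 2 * K0 - (2 + 2 * S + S ^ 2 - Q + I))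
    (hKy : ∀ y ∈ V, w ^ 2 ∣ Ky y - (eta y * (1 + S) + ny y))
    (hKyy : ∀ p ∈ V.offDiag, ¬ near p.1 p.2 → w ∣ Kyy p.1 p.2 - eta p.1 * eta p.2) :
    w ^ 3 ∣ 2 * K - (2 + 2 * (S + q * ∑ y ∈ V, eta y) + (S + q * ∑ y ∈ V, eta y) ^ 2 -
      (Q + q ^ 2 * ∑ y ∈ V, eta y ^ 2) + I + 2 * (q * ∑ y ∈ V, ny y) +
      q ^ 2 * ∑ p ∈ V.offDiag.filter (fun p => near p.1 p.2),
        (Kyy p.1 p.2 - eta p.1 * eta p.2) + 2 * (q ^ 2 * ∑ y ∈ V, K2 y) + 2 * X) := by
  obtain ⟨a, ha⟩ := hK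
  obtain ⟨b, hb⟩ := hK0
  obtain ⟨c, hc⟩ : w ^ 2 ∣ ∑ y ∈ V, Ky y - ∑ y ∈ V, (eta y * (1 + S) + ny y) := by
    rw [← sum_sub_distrib]
    exact dvd_sum hKy
  obtain ⟨d, hd⟩ : w ∣ ∑ p ∈ V.offDiag, Kyy p.1 p.2 - (∑ p ∈ V.offDiag, eta p.1 * eta p.2 +
      ∑ p ∈ V.offDiag.filter (fun p => near p.1 p.2), (Kyy p.1 p.2 - eta p.1 * eta p.2)) := by
    rw [sum_filter, ← sum_add_distrib, ← sum_sub_distrib]
    apply dvd_sum
    intro p hp
    by_cases h : near p.1 p.2
    · rw [if_pos h]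
      simp
    · rw [if_neg h, add_zero]
      exact hKyy p hp h
  obtain ⟨e, he⟩ := hq
  have h1 := sum_sq_sub V eta
  have h2 : ∑ y ∈ V, (eta y * (1 + S) + ny y) =
      (∑ y ∈ V, eta y) * (1 + S) + ∑ y ∈ V, ny y := by
    rw [sum_add_distrib, sum_mul]
  rw [h2] at hc
  rw [← h1] at hd
  refine ⟨a + b + 2 * e * c + e ^ 2 * d, ?_⟩
  have e1 : 2 * K = (2 * K0 + 2 * (q * ∑ y ∈ V, Ky y) +
      q ^ 2 * ∑ p ∈ V.offDiag, Kyy p.1 p.2 + 2 * (q ^ 2 * ∑ y ∈ V, K2 y) + 2 * X) +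
      w ^ 3 * a := by
    rw [← ha]
    ring
  have e2 : 2 * K0 = (2 + 2 * S + S ^ 2 - Q + I) + w ^ 3 * b := by
    rw [← hb]
    ring
  have e3 : ∑ y ∈ V, Ky y = ((∑ y ∈ V, eta y) * (1 + S) + ∑ y ∈ V, ny y) + w ^ 2 * c := by
    rw [← hc]
    ring
  have e4 : ∑ p ∈ V.offDiag, Kyy p.1 p.2 = ((∑ y ∈ V, eta y) ^ 2 - ∑ y ∈ V, eta y ^ 2 +
      ∑ p ∈ V.offDiag.filter (fun p => near p.1 p.2), (Kyy p.1 p.2 - eta p.1 * eta p.2)) +
      w * d := by
    rw [← hd]
    ring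
  rw [e1, e2, e3, e4, he]
  ring

/-! ### Extraction of the coefficients -/

section extract

open Polynomial

lemma coeff_two_of_dvd {K : PowerSeries ℤ[X]} (h : (PowerSeries.X : PowerSeries ℤ[X]) ^ 3 ∣ K)
    {d : ℕ} (hd : d ≤ 2) : PowerSeries.coeff d K = 0 :=
  PowerSeries.X_pow_dvd_iff.1 h d (by omega)

/-- the coefficients of `w ^ 1` and `w ^ 2` in the expansion -/
theorem extract {N : ℕ} {K S Q R : PowerSeries ℤ[X]}
    (h : (PowerSeries.X : PowerSeries ℤ[X]) ^ 3 ∣ 2 * K - (2 + 2 * S + S ^ 2 - Q + R))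
    (hS : (PowerSeries.X : PowerSeries ℤ[X]) ∣ S)
    (hQ : (PowerSeries.X : PowerSeries ℤ[X]) ^ 2 ∣ Q)
    (hR : (PowerSeries.X : PowerSeries ℤ[X]) ^ 2 ∣ R)
    (hK : ∀ d J : ℕ, 1 ≤ d → d ≤ 2 → d < J → J ≤ N → (PowerSeries.coeff d K).coeff J = 0) :
    (∀ J, 2 ≤ J → J ≤ N → (PowerSeries.coeff 1 S).coeff J = 0) ∧
    ∀ J, 3 ≤ J → J ≤ N → (PowerSeries.coeff 2 (2 * S - Q + R)).coeff J = 0 := by
  have hz : ∀ {f : PowerSeries ℤ[X]} {k : ℕ}, (PowerSeries.X : PowerSeries ℤ[X]) ^ k ∣ f →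
      ∀ d < k, PowerSeries.coeff d f = 0 := fun hf d hd => PowerSeries.X_pow_dvd_iff.1 hf d hd
  have hS0 : PowerSeries.coeff 0 S = 0 := hz (k := 1) (by rwa [pow_one]) 0 (by omega)
  have hQ1 : PowerSeries.coeff 1 Q = 0 := hz hQ 1 (by omega)
  have hR1 : PowerSeries.coeff 1 R = 0 := hz hR 1 (by omega)
  obtain ⟨s, rfl⟩ := hS
  have hSS : ((PowerSeries.X : PowerSeries ℤ[X]) * s) ^ 2 = PowerSeries.X ^ 2 * s ^ 2 := by ring
  have two : ∀ f : PowerSeries ℤ[X], (2 : PowerSeries ℤ[X]) * f = f + f := fun f => two_mul f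
  have h2 : ∀ d ≤ 2, PowerSeries.coeff d (2 * K) = PowerSeries.coeff d
      (2 + 2 * (PowerSeries.X * s) + (PowerSeries.X * s) ^ 2 - Q + R) := by
    intro d hd
    have := coeff_two_of_dvd h hd
    rwa [map_sub, sub_eq_zero] at this
  have c2 : ∀ d, 1 ≤ d → PowerSeries.coeff d (2 : PowerSeries ℤ[X]) = 0 := by
    intro d hd
    have e : (2 : PowerSeries ℤ[X]) = PowerSeries.C 2 := by rw [map_ofNat]
    rw [e, PowerSeries.coeff_C, if_neg (by omega)]
  have hs1 : PowerSeries.coeff 1 (PowerSeries.X * s) = PowerSeries.coeff 0 s :=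
    PowerSeries.coeff_succ_X_mul 0 s
  have hq1 : PowerSeries.coeff 1 ((PowerSeries.X * s) ^ 2) = 0 := by
    rw [hSS]
    exact hz (k := 2) (Dvd.intro _ rfl) 1 (by omega)
  have hq2 : PowerSeries.coeff 2 ((PowerSeries.X * s) ^ 2) = (PowerSeries.coeff 0 s) ^ 2 := by
    rw [hSS, PowerSeries.coeff_X_pow_mul' (s ^ 2) 2 2, if_pos le_rfl]
    simp
  have k1 := h2 1 (by omega)
  have k2 := h2 2 le_rfl
  rw [two, map_add, map_add, map_sub, map_add, map_add, two (PowerSeries.X * s), map_add,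
    c2 1 le_rfl, hq1, hQ1, hR1] at k1
  have first : ∀ J, 2 ≤ J → J ≤ N → (PowerSeries.coeff 0 s).coeff J = 0 := by
    intro J hJ hJN
    have g := congrArg (fun P : ℤ[X] => P.coeff J) k1
    simp only [Polynomial.coeff_add, Polynomial.coeff_sub, Polynomial.coeff_zero] at g
    have g2 := hK 1 J le_rfl (by omega) (by omega) hJN
    rw [g2, hs1] at g
    omega
  refine ⟨fun J hJ hJN => by rw [hs1]; exact first J hJ hJN, ?_⟩
  intro J hJ hJN
  have g := congrArg (fun P : ℤ[X] => P.coeff J) k2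
  have g2 := hK 2 J (by omega) le_rfl (by omega) hJN
  have g3 : ((PowerSeries.coeff 0 s) ^ 2).coeff J = 0 := by
    rw [pow_two, Polynomial.coeff_mul]
    apply sum_eq_zero
    rintro ⟨a, b⟩ hab
    rw [HasAntidiagonal.mem_antidiagonal] at hab
    by_cases ha : 2 ≤ a
    · rw [show (PowerSeries.coeff 0 s).coeff (a, b).1 = 0 from first a ha (by omega), zero_mul]
    · rw [show (PowerSeries.coeff 0 s).coeff (a, b).2 = 0 from
        first b (by omega) (by omega), mul_zero]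
  have e1 : PowerSeries.coeff 2 (2 * K) = PowerSeries.coeff 2
      (2 * (PowerSeries.X * s) - Q + R) + (PowerSeries.coeff 0 s) ^ 2 := by
    rw [k2, ← hq2]
    simp only [map_add, map_sub]
    rw [c2 2 (by omega)]
    ring
  have e2 := congrArg (fun P : ℤ[X] => P.coeff J) e1
  simp only [Polynomial.coeff_add] at e2
  rw [g3, two K, map_add, Polynomial.coeff_add, g2] at e2
  omega

end extract

end Pool.Gauss
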