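import Pool.Agent.Work.MP_065141_co.K.ThreeLev9

/-!
# Disjoint stars: the coefficient of `w ^ 2 Z ^ 6`

General values with any number of stars in operator mode; the expansion of the coefficient of
`w ^ 2 Z ^ 6` of the products and of `w Z ^ 5` of the frames.
-/

set_option autoImplicit false
set_option linter.unusedSectionVars false
open scoped Classical
open Finset MvPolynomial

namespace Pool.Gauss.TL

variable {Y ι σ κ : Type}

section

variable {St : Finset σ} {t k c : σ → Y}

/-! ### values with any number of stars in operator mode -/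

/-- the value of one star in operator mode with frozen variables `g` and exponents `e` -/
noncomputable def qs (t k c : σ → Y) (s : σ) (g : Finset Y) (e : Y → ℕ) : ℤ :=
  (if k s ∈ g ∨ t s ∈ g then 0 else if c s ∈ g then 1 else 1 + (e (c s) : ℤ)) -
    (if k s ∈ g ∨ c s ∈ g then 0 else if t s ∈ g then 1 else 1 + (e (t s) : ℤ))

lemma E0_am_am_cp {a b y : Y} (hab : a ≠ b) (ha : a ≠ y) (hb : b ≠ y) {g : Finset Y}
    (hg : g ⊆ {a, b, y}) (e : Y → ℕ) :
    E0 (am {a, b} * (am g * cp {a, b, y} e)) = (-1) ^ g.card *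
      (if a ∈ g ∨ b ∈ g then 0 else if y ∈ g then 1 else 1 + (e y : ℤ)) := by
  split_ifs with h h2
  · rw [mul_zero, ← mul_assoc]
    exact E0_am_mul_zero (fun h' => disj_pair.1 h' h) _
  · have h1 := disj_pair.2 h
    have hs : ({a, b} : Finset Y) ∪ g ⊆ {a, b, y} := by
      intro z hz
      rw [mem_union] at hz
      rcases hz with hz | hz
      · rw [mem_insert, mem_singleton] at hz
        rcases hz with rfl | rfl <;> simp
      · exact hg hz
    rw [← mul_assoc, ← am_union h1, E0_am_cp hs, card_union_of_disjoint h1, card_pair hab]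
    have : ({a, b, y} : Finset Y) \ ({a, b} ∪ g) = ∅ := by
      rw [sdiff_eq_empty_iff_subset]
      intro z hz
      rw [mem_insert, mem_insert, mem_singleton] at hz
      rw [mem_union, mem_insert, mem_singleton]
      rcases hz with rfl | rfl | rfl
      · exact Or.inl (Or.inl rfl)
      · exact Or.inl (Or.inr rfl)
      · exact Or.inr h2
    rw [this, prod_empty]
    ring
  · have h1 := disj_pair.2 h
    have hs : ({a, b} : Finset Y) ∪ g ⊆ {a, b, y} := by
      intro z hz
      rw [mem_union] at hz
      rcases hz with hz | hz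
      · rw [mem_insert, mem_singleton] at hz
        rcases hz with rfl | rfl <;> simp
      · exact hg hz
    rw [← mul_assoc, ← am_union h1, E0_am_cp hs, card_union_of_disjoint h1, card_pair hab]
    have : ({a, b, y} : Finset Y) \ ({a, b} ∪ g) = {y} := by
      ext z
      simp only [mem_sdiff, mem_union, mem_insert, mem_singleton]
      constructor
      · rintro ⟨h3, h4⟩
        rcases h3 with rfl | rfl | rfl
        · exact absurd (Or.inl (Or.inl rfl)) h4
        · exact absurd (Or.inl (Or.inr rfl)) h4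
        · rfl
      · rintro rfl
        refine ⟨Or.inr (Or.inr rfl), ?_⟩
        rintro ((rfl | rfl) | h4)
        · exact ha rfl
        · exact hb rfl
        · exact h2 h4
    rw [this, prod_singleton]
    ring

/-- one star with frozen variables and exponents in the star -/
lemma E0_Dg_am_cp (hS : Stars St t k c) {s : σ} (hs : s ∈ St) {g : Finset Y}
    (hg : g ⊆ VS t k c s) (e : Y → ℕ) :
    E0 (Dg ℤ (t s) (k s) (c s) * (am g * cp (VS t k c s) e)) =
      (-1) ^ g.card * qs t k c s g e := by
  have h1 := (hS.tk s hs).symm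
  have h2 := hS.kc s hs
  have h3 := hS.tc s hs
  have v1 : VS t k c s = {k s, t s, c s} := by
    rw [VS]
    ext z
    simp only [mem_insert, mem_singleton]
    tauto
  have v2 : VS t k c s = {k s, c s, t s} := by
    rw [VS]
    ext z
    simp only [mem_insert, mem_singleton]
    tauto
  rw [Dg_eq_am h1 h2, sub_mul, map_sub]
  have a1 : E0 (am {k s, t s} * (am g * cp (VS t k c s) e)) = (-1) ^ g.card *
      (if k s ∈ g ∨ t s ∈ g then 0 else if c s ∈ g then 1 else 1 + (e (c s) : ℤ)) := by
    rw [v1]
    exact E0_am_am_cp h1 h2 h3 (v1 ▸ hg) e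
  have a2 : E0 (am {k s, c s} * (am g * cp (VS t k c s) e)) = (-1) ^ g.card *
      (if k s ∈ g ∨ c s ∈ g then 0 else if t s ∈ g then 1 else 1 + (e (t s) : ℤ)) := by
    rw [v2]
    exact E0_am_am_cp h2 h1 h3.symm (v2 ▸ hg) e
  rw [a1, a2, qs]
  ring

lemma qs_congr {s : σ} {g g' : Finset Y} (h : ∀ y ∈ VS t k c s, (y ∈ g ↔ y ∈ g')) (e : Y → ℕ) :
    qs t k c s g e = qs t k c s g' e := by
  unfold qs
  simp only [h _ (VS_sub_k s), h _ (VS_sub_t s), h _ (VS_sub_c s)]

lemma DT_mem {T : Finset σ} {U : Finset Y} (h : ∀ s ∈ T, VS t k c s ⊆ U) :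
    DT ℤ T t k c ∈ supported ℤ (U : Set Y) :=
  prod_mem fun s hs => supported_mono (by exact_mod_cast h s hs) (Dg_memVS s)

/-- **any number of stars in operator mode with frozen variables and exponents** -/
theorem E0_DT_cp (hS : Stars St t k c) (T : Finset σ) (hT : T ⊆ St) (V g : Finset Y)
    (hV : ∀ s ∈ T, VS t k c s ⊆ V) (hg : g ⊆ V) (e : Y → ℕ) :
    E0 (DT ℤ T t k c * (am g * cp V e)) = (-1) ^ g.card *
      (∏ y ∈ V \ (g ∪ T.biUnion (VS t k c)), (1 + (e y : ℤ))) * ∏ s ∈ T, qs t k c s g e := by
  induction T using Finset.induction_on generalizing V g with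
  | empty =>
    rw [DT_empty, one_mul, E0_am_cp hg, biUnion_empty, union_empty, prod_empty, mul_one]
  | insert s T hs ih =>
    have hsS : s ∈ St := hT (mem_insert_self s T)
    have hTS : T ⊆ St := fun a ha => hT (mem_insert_of_mem ha)
    have hVs : VS t k c s ⊆ V := hV s (mem_insert_self s T)
    have hd : ∀ s' ∈ T, Disjoint (VS t k c s) (VS t k c s') := fun s' hs' =>
      hS.disj hsS (hTS hs') (fun h => hs (h ▸ hs'))
    have hsub : ∀ s' ∈ T, VS t k c s' ⊆ V \ VS t k c s := by
      intro s' hs' y hy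
      rw [mem_sdiff]
      exact ⟨hV s' (mem_insert_of_mem hs') hy, fun h => (Finset.disjoint_left.1 (hd s' hs') h) hy⟩
    have hgs : g \ VS t k c s ⊆ V \ VS t k c s := sdiff_subset_sdiff hg (subset_refl _)
    have e1 : DT ℤ (insert s T) t k c * (am g * cp V e) =
        (Dg ℤ (t s) (k s) (c s) * (am (g ∩ VS t k c s) * cp (VS t k c s) e)) *
        (DT ℤ T t k c * (am (g \ VS t k c s) * cp (V \ VS t k c s) e)) := by
      rw [DT, prod_insert hs, ← DT, am_split g (VS t k c s), cp_split V _ hVs]
      ring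
    rw [e1, E0_mul_disj (U := VS t k c s) (V := V \ VS t k c s) disjoint_sdiff
      (mul_mem (Dg_memVS s) (mul_mem (supported_mono (by exact_mod_cast inter_subset_right)
        (am_mem _)) (cp_mem _ _)))
      (mul_mem (DT_mem hsub)
        (mul_mem (supported_mono (by exact_mod_cast hgs) (am_mem _)) (cp_mem _ _))),
      E0_Dg_am_cp hS hsS inter_subset_right, ih hTS _ _ hsub hgs, prod_insert hs,
      card_split g (VS t k c s), pow_add]
    have e2 : qs t k c s (g ∩ VS t k c s) e = qs t k c s g e := by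
      apply qs_congr
      intro y hy
      rw [mem_inter]
      exact ⟨fun h => h.1, fun h => ⟨h, hy⟩⟩
    have e3 : ∏ s' ∈ T, qs t k c s' (g \ VS t k c s) e = ∏ s' ∈ T, qs t k c s' g e := by
      apply prod_congr rfl
      intro s' hs'
      apply qs_congr
      intro y hy
      rw [mem_sdiff]
      exact ⟨fun h => h.1, fun h => ⟨h, fun h' => (Finset.disjoint_left.1 (hd s' hs') h') hy⟩⟩
    have e4 : (V \ VS t k c s) \ ((g \ VS t k c s) ∪ T.biUnion (VS t k c)) =
        V \ (g ∪ (insert s T).biUnion (VS t k c)) := by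
      rw [biUnion_insert]
      ext y
      simp only [mem_sdiff, mem_union]
      tauto
    rw [e2, e3, e4]
    ring

lemma qs_zero (s : σ) (g : Finset Y) : qs t k c s g (fun _ => 0) = ta t k c s g := by
  unfold qs ta dl
  by_cases h1 : k s ∈ g <;> by_cases h2 : t s ∈ g <;> by_cases h3 : c s ∈ g <;> simp [h1, h2, h3]

/-- frozen variables -/
theorem E0_DT_am (hS : Stars St t k c) {T : Finset σ} (hT : T ⊆ St) (g : Finset Y) :
    E0 (DT ℤ T t k c * am g) = (-1) ^ g.card * ∏ s ∈ T, ta t k c s g := by
  have h := E0_DT_cp hS T hT (g ∪ T.biUnion (VS t k c)) g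
    (fun s hs => (Finset.subset_biUnion_of_mem (VS t k c) hs).trans subset_union_right)
    subset_union_left (fun _ => 0)
  rw [cp_zero, mul_one, Finset.sdiff_self, prod_empty, mul_one] at h
  rw [h]
  congr 1
  exact prod_congr rfl fun s _ => qs_zero s g

/-- frozen variables `g` and `pr N` at one star -/
lemma qs_id1 (s : σ) (g N : Finset Y) : qs t k c s g (id1 N) =
    ta t k c s g - (if Disjoint g (VS t k c s) then dl t c s N else 0) := by
  have hd : Disjoint g (VS t k c s) ↔ ¬ (t s ∈ g ∨ k s ∈ g ∨ c s ∈ g) := by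
    rw [VS, disjoint_insert_right, disjoint_insert_right, disjoint_singleton_right]
    tauto
  simp only [hd]
  unfold qs ta dl id1
  by_cases h1 : k s ∈ g <;> by_cases h2 : t s ∈ g <;> by_cases h3 : c s ∈ g <;>
    by_cases h4 : t s ∈ N <;> by_cases h5 : c s ∈ N <;> simp [h1, h2, h3, h4, h5]

/-- the number of subsets of the remaining vertices -/
lemma prod_id1' (V N : Finset Y) : ∏ y ∈ V, (1 + (id1 N y : ℤ)) = 2 ^ (N ∩ V).card := prod_id1 V N

theorem E0_DT_pr_am (hS : Stars St t k c) {T : Finset σ} (hT : T ⊆ St) (g N : Finset Y) :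
    E0 (DT ℤ T t k c * (am g * pr N)) = (-1) ^ g.card *
      2 ^ (N \ (g ∪ T.biUnion (VS t k c))).card *
      ∏ s ∈ T, (ta t k c s g - (if Disjoint g (VS t k c s) then dl t c s N else 0)) := by
  set V := (g ∪ T.biUnion (VS t k c)) ∪ N with hV
  have h := E0_DT_cp hS T hT V g
    (fun s hs => ((Finset.subset_biUnion_of_mem (VS t k c) hs).trans subset_union_right).trans
      subset_union_left) (subset_union_left.trans subset_union_left) (id1 N)
  rw [← pr_eq_cp (V := V) subset_union_right, prod_id1] at h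
  have e : N ∩ (V \ (g ∪ T.biUnion (VS t k c))) = N \ (g ∪ T.biUnion (VS t k c)) := by
    rw [hV]
    ext y
    simp only [mem_inter, mem_sdiff, mem_union]
    tauto
  rw [e] at h
  rw [h]
  congr 1
  exact prod_congr rfl fun s _ => qs_id1 s g N

theorem E0_DT_pr2 (hS : Stars St t k c) {T : Finset σ} (hT : T ⊆ St) (N N' : Finset Y) :
    E0 (DT ℤ T t k c * (pr N * pr N')) =
      (∏ y ∈ (N ∪ N') \ T.biUnion (VS t k c), (1 + ((id1 N y : ℤ) + id1 N' y))) *
      ∏ s ∈ T, (- (dl t c s N + dl t c s N')) := by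
  set V := T.biUnion (VS t k c) ∪ (N ∪ N') with hV
  have h := E0_DT_cp hS T hT V ∅
    (fun s hs => (Finset.subset_biUnion_of_mem (VS t k c) hs).trans
      subset_union_left) (empty_subset _) (fun y => id1 N y + id1 N' y)
  have e0 : am (∅ : Finset Y) = (1 : MvPolynomial Y ℤ) := prod_empty
  rw [e0, one_mul, ← cp_mul, ← pr_eq_cp (V := V) (subset_union_left.trans subset_union_right),
    ← pr_eq_cp (V := V) (N := N') (subset_union_right.trans subset_union_right),
    empty_union] at h
  have e : V \ T.biUnion (VS t k c) = (N ∪ N') \ T.biUnion (VS t k c) := by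
    rw [hV]
    ext y
    simp only [mem_sdiff, mem_union]
    tauto
  rw [e] at h
  rw [h]
  have e1 : ∀ s : σ, qs t k c s ∅ (fun y => id1 N y + id1 N' y) =
      - (dl t c s N + dl t c s N') := by
    intro s
    unfold qs dl id1
    by_cases h2 : t s ∈ N <;> by_cases h3 : c s ∈ N <;>
    by_cases h4 : t s ∈ N' <;> by_cases h5 : c s ∈ N' <;> simp [h2, h3, h4, h5]
  rw [prod_congr rfl fun s _ => e1 s]
  push_cast
  rw [card_empty, pow_zero, one_mul]

/-! ### at most two vertices touch at most two stars -/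

/-- a nonzero product of the `dl` over stars needs as many vertices -/
lemma prod_dl_card (hS : Stars St t k c) {A : Finset σ} (hA : A ⊆ St) {N : Finset Y}
    (h : ∏ s ∈ A, dl t c s N ≠ 0) : A.card ≤ N.card := by
  by_contra hc
  obtain ⟨s, hs, hd⟩ := exists_untouched hS hA (U := N) (by omega)
  exact h (Finset.prod_eq_zero hs (dl_disj hd))

lemma prod_ta_card (hS : Stars St t k c) {A : Finset σ} (hA : A ⊆ St) {N : Finset Y}
    (h : ∏ s ∈ A, ta t k c s N ≠ 0) : A.card ≤ N.card := by
  by_contra hc
  obtain ⟨s, hs, hd⟩ := exists_untouched hS hA (U := N) (by omega)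
  exact h (Finset.prod_eq_zero hs (ta_disj hd))

/-- if the number of stars is the number of vertices, the vertices are in the stars -/
lemma prod_dl_sub (hS : Stars St t k c) {A : Finset σ} (hA : A ⊆ St) {N : Finset Y}
    (h : ∏ s ∈ A, dl t c s N ≠ 0) (hc : N.card ≤ A.card) : N ⊆ A.biUnion (VS t k c) := by
  -- every star contains a vertex of `N`
  have h1 : ∀ s ∈ A, ∃ y ∈ N, y ∈ VS t k c s := by
    intro s hs
    by_contra hcon
    push Not at hcon
    exact h (Finset.prod_eq_zero hs (dl_disj (Finset.disjoint_left.2 hcon)))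
  intro y hy
  by_contra hny
  have h2 : A.card ≤ (N.erase y).card := by
    rcases A.eq_empty_or_nonempty with rfl | ⟨s0, hs0⟩
    · simp
    have : Nonempty Y := ⟨y⟩
    choose! f hf using h1
    apply Finset.card_le_card_of_injOn f
    · intro s hs
      rw [mem_coe, mem_erase]
      refine ⟨?_, (hf s hs).1⟩
      rintro rfl
      exact hny (mem_biUnion.2 ⟨s, hs, (hf s hs).2⟩)
    · intro s hs s' hs' h3
      by_contra hne
      have h4 := hS.disj (hA hs) (hA hs') hne
      rw [Finset.disjoint_left] at h4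
      exact h4 (hf s hs).2 (h3 ▸ (hf s' hs').2)
  rw [card_erase_of_mem hy] at h2
  have := card_pos.2 ⟨y, hy⟩
  omega

/-- four stars and two items -/
theorem E0_DT_four (hS : Stars St t k c) {T : Finset σ} (hT : T ⊆ St) (h4 : T.card = 4)
    {N N' : Finset Y} (hN : N.card ≤ 2) (hN' : N'.card ≤ 2) :
    E0 (DT ℤ T t k c * (ph N * ph N')) =
      ∑ A ∈ T.powersetCard 2, (∏ s ∈ A, dl t c s N) * ∏ s ∈ T \ A, dl t c s N' := by
  have z0 : E0 (DT ℤ T t k c * ph N') = 0 := by
    obtain ⟨s, hs, hd⟩ := exists_untouched hS hT (U := N') (by omega)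
    exact E0_DT_disj hS hT hs hd (ph_mem _)
  have z1 : E0 (DT ℤ T t k c * pr N) = 0 := by
    obtain ⟨s, hs, hd⟩ := exists_untouched hS hT (U := N) (by omega)
    exact E0_DT_disj hS hT hs hd (pr_mem _)
  have e : DT ℤ T t k c * (ph N * ph N') = DT ℤ T t k c * ph N' - DT ℤ T t k c * pr N +
      DT ℤ T t k c * (pr N * pr N') := by
    rw [ph, ph]
    ring
  rw [e, map_add, map_sub, z0, z1, E0_DT_pr2 hS hT]
  have e1 : ∏ s ∈ T, (- (dl t c s N + dl t c s N')) = ∏ s ∈ T, (dl t c s N + dl t c s N') := by
    rw [prod_neg, h4]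
    norm_num
  rw [e1, prod_add (fun s => dl t c s N) (fun s => dl t c s N') T, sub_self, zero_add, mul_sum,
    ← sum_card_eq]
  apply sum_congr rfl
  intro A hA
  rw [mem_powerset] at hA
  have hA' : A ⊆ St := hA.trans hT
  have hB' : T \ A ⊆ St := sdiff_subset.trans hT
  by_cases z2 : ∏ s ∈ A, dl t c s N = 0
  · rw [z2, zero_mul, mul_zero, ite_self]
  by_cases z3 : ∏ s ∈ T \ A, dl t c s N' = 0
  · rw [z3, mul_zero, mul_zero, ite_self]
  have c1 := prod_dl_card hS hA' z2
  have c2 := prod_dl_card hS hB' z3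
  have c3 := card_sdiff_add_card_eq_card hA
  rw [if_pos (by omega)]
  have s1 := prod_dl_sub hS hA' z2 (by omega)
  have s2 := prod_dl_sub hS hB' z3 (by omega)
  have e2 : (N ∪ N') \ T.biUnion (VS t k c) = ∅ := by
    rw [sdiff_eq_empty_iff_subset]
    apply union_subset
    · exact s1.trans (biUnion_subset_biUnion_of_subset_left _ hA)
    · exact s2.trans (biUnion_subset_biUnion_of_subset_left _ sdiff_subset)
  rw [e2, prod_empty, one_mul]

/-- the item `g` does not meet the stars of `A` -/
noncomputable def del (t k c : σ → Y) (A : Finset σ) (g : Finset Y) : ℤ :=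
  if Disjoint g (A.biUnion (VS t k c)) then 1 else 0

/-- three stars and two items, one with frozen variables -/
theorem E0_DT_three (hS : Stars St t k c) {T : Finset σ} (hT : T ⊆ St) (h3 : T.card = 3)
    {g N : Finset Y} (hN : N.card ≤ 2) (hg : g.card = 2) :
    E0 (DT ℤ T t k c * (ph N * am g)) =
      ∑ s ∈ T, (dl t c s N * 2 ^ (N \ T.biUnion (VS t k c)).card *
          ∏ r ∈ T \ {s}, dl t c r g -
        del t k c (T \ {s}) g * (∏ r ∈ T \ {s}, dl t c r N) * ta t k c s g) := by
  have z0 : E0 (DT ℤ T t k c * am g) = 0 := by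
    obtain ⟨s, hs, hd⟩ := exists_untouched hS hT (U := g) (by omega)
    exact E0_DT_disj hS hT hs hd (am_mem _)
  have e : DT ℤ T t k c * (ph N * am g) = DT ℤ T t k c * am g -
      DT ℤ T t k c * (am g * pr N) := by
    rw [ph]
    ring
  rw [e, map_sub, z0, E0_DT_pr_am hS hT, hg, zero_sub]
  have e1 : ∏ s ∈ T, (ta t k c s g - (if Disjoint g (VS t k c s) then dl t c s N else 0)) =
      ∏ s ∈ T, (- (if Disjoint g (VS t k c s) then dl t c s N else 0) + ta t k c s g) :=
    prod_congr rfl fun s _ => by ring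
  rw [e1, prod_add]
  -- the subsets with one or two elements
  have e2 : ∀ A ∈ T.powerset, (-1) ^ 2 * 2 ^ (N \ (g ∪ T.biUnion (VS t k c))).card *
      ((∏ s ∈ A, - (if Disjoint g (VS t k c s) then dl t c s N else 0)) *
        ∏ s ∈ T \ A, ta t k c s g) =
      (if A.card = 1 then - ((∏ s ∈ A, dl t c s N) * 2 ^ (N \ T.biUnion (VS t k c)).card *
        ∏ r ∈ T \ A, dl t c r g) else 0) +
      (if A.card = 2 then del t k c A g * (∏ r ∈ A, dl t c r N) * ∏ s ∈ T \ A, ta t k c s g
        else 0) := by
    intro A hA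
    rw [mem_powerset] at hA
    have hA' : A ⊆ St := hA.trans hT
    have hB' : T \ A ⊆ St := sdiff_subset.trans hT
    have c3 := card_sdiff_add_card_eq_card hA
    have f1 : ∏ s ∈ A, - (if Disjoint g (VS t k c s) then dl t c s N else 0) =
        (-1) ^ A.card * (del t k c A g * ∏ r ∈ A, dl t c r N) := by
      rw [prod_neg]
      congr 1
      rw [del]
      split_ifs with hd
      · rw [one_mul]
        apply prod_congr rfl
        intro s hs
        rw [if_pos (hd.mono_right (Finset.subset_biUnion_of_mem (VS t k c) hs))]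
      · rw [zero_mul]
        obtain ⟨s, hs, hs'⟩ : ∃ s ∈ A, ¬ Disjoint g (VS t k c s) := by
          by_contra hcon
          push Not at hcon
          exact hd ((Finset.disjoint_biUnion_right _ _ _).2 hcon)
        exact Finset.prod_eq_zero hs (if_neg hs')
    rw [f1]
    by_cases z2 : ∏ s ∈ A, dl t c s N = 0
    · rw [z2]
      simp
    by_cases z3 : ∏ s ∈ T \ A, ta t k c s g = 0
    · rw [z3]
      have z4 : A.card = 1 → ∏ r ∈ T \ A, dl t c r g = 0 := by
        intro g1
        obtain ⟨a, b, hab, hT2⟩ := Finset.card_eq_two.1 (show (T \ A).card = 2 by omega)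
        have ha : a ∈ St := hB' (by rw [hT2]; simp)
        have hb : b ∈ St := hB' (by rw [hT2]; simp)
        rw [hT2, prod_pair hab] at z3 ⊢
        have := ta_ta hS ha hb hab (g := g) (by omega)
        rw [z3, mul_zero] at this
        exact this.symm
      split_ifs with g1 g2 g2
      · omega
      · rw [z4 g1]
        ring
      · ring
      · ring
    have c1 := prod_dl_card hS hA' z2
    have c2 := prod_ta_card hS hB' z3
    have c4 : A.card = 1 ∨ A.card = 2 := by omega
    rcases c4 with c4 | c4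
    · rw [if_pos c4, if_neg (by omega), add_zero, c4]
      obtain ⟨a, b, hab, hT2⟩ := Finset.card_eq_two.1 (show (T \ A).card = 2 by omega)
      have ha : a ∈ St := hB' (by rw [hT2]; simp)
      have hb : b ∈ St := hB' (by rw [hT2]; simp)
      have f2 := ta_ta hS ha hb hab (g := g) (by omega)
      rw [hg] at f2
      have f3 : ∏ s ∈ T \ A, ta t k c s g = ∏ r ∈ T \ A, dl t c r g := by
        rw [hT2, prod_pair hab, prod_pair hab]
        linarith
      have z4 : ∏ r ∈ T \ A, dl t c r g ≠ 0 := f3 ▸ z3
      have s2 := prod_dl_sub hS hB' z4 (by omega)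
      have f4 : del t k c A g = 1 := by
        rw [del, if_pos]
        apply Finset.disjoint_of_subset_left s2
        rw [Finset.disjoint_biUnion_left]
        intro r hr
        rw [Finset.disjoint_biUnion_right]
        intro r' hr'
        exact hS.disj (hB' hr) (hA' hr') (fun h => (mem_sdiff.1 hr).2 (h ▸ hr'))
      have f5 : N \ (g ∪ T.biUnion (VS t k c)) = N \ T.biUnion (VS t k c) := by
        congr 1
        apply union_eq_right.2
        exact s2.trans (biUnion_subset_biUnion_of_subset_left _ sdiff_subset)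
      rw [f3, f4, f5]
      ring
    · rw [if_neg (by omega), if_pos c4, zero_add, c4]
      have s1 := prod_dl_sub hS hA' z2 (by omega)
      have f5 : N \ (g ∪ T.biUnion (VS t k c)) = ∅ := by
        rw [sdiff_eq_empty_iff_subset]
        exact (s1.trans (biUnion_subset_biUnion_of_subset_left _ hA)).trans subset_union_right
      rw [f5, card_empty]
      ring
  rw [mul_sum, sum_congr rfl e2, sum_add_distrib, sum_card_eq, sum_card_eq]
  have e3 : ∑ A ∈ T.powersetCard 1, - ((∏ s ∈ A, dl t c s N) *
      2 ^ (N \ T.biUnion (VS t k c)).card * ∏ r ∈ T \ A, dl t c r g) =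
      ∑ s ∈ T, - (dl t c s N * 2 ^ (N \ T.biUnion (VS t k c)).card *
        ∏ r ∈ T \ {s}, dl t c r g) := by
    rw [powersetCard_one, sum_map]
    apply sum_congr rfl
    intro s _
    simp only [Function.Embedding.coeFn_mk, prod_singleton]
  have e4 : ∑ A ∈ T.powersetCard 2, del t k c A g * (∏ r ∈ A, dl t c r N) *
      ∏ s ∈ T \ A, ta t k c s g =
      ∑ s ∈ T, del t k c (T \ {s}) g * (∏ r ∈ T \ {s}, dl t c r N) * ta t k c s g := by
    symm
    apply Finset.sum_bij (fun s _ => T \ {s})
    · intro s hs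
      rw [mem_powersetCard]
      refine ⟨sdiff_subset, ?_⟩
      rw [card_sdiff_of_subset (singleton_subset_iff.2 hs), h3, card_singleton]
    · intro s hs s' hs' h
      by_contra hne
      have : s ∈ T \ {s'} := mem_sdiff.2 ⟨hs, by rwa [mem_singleton]⟩
      rw [← h, mem_sdiff, mem_singleton] at this
      exact this.2 rfl
    · intro A hA
      rw [mem_powersetCard] at hA
      have c3 := card_sdiff_add_card_eq_card hA.1
      obtain ⟨s, hs⟩ := Finset.card_eq_one.1 (show (T \ A).card = 1 by omega)
      refine ⟨s, ?_, ?_⟩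
      · have : s ∈ T \ A := by rw [hs]; exact mem_singleton_self s
        exact (mem_sdiff.1 this).1
      · rw [← hs]
        exact Finset.sdiff_sdiff_eq_self hA.1
    · intro s hs
      have : T \ (T \ {s}) = {s} := Finset.sdiff_sdiff_eq_self (singleton_subset_iff.2 hs)
      rw [this, prod_singleton]
  rw [e3, e4, ← sum_add_distrib, ← sum_neg_distrib]
  apply sum_congr rfl
  intro s _
  ring

end

end Pool.Gauss.TL
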