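import Pool.Agent.Work.MP_065141_co.K.SixA

/-!
# Disjoint stars: expansion of the coefficients of `w ^ 2 Z ^ 6` and of `w Z ^ 5` of the frames
-/

set_option autoImplicit false
set_option linter.unusedSectionVars false
open scoped Classical
open Finset MvPolynomial

namespace Pool.Gauss.TL

variable {Y ι σ κ : Type}

section

variable {J : Finset ι} {St : Finset σ} {t k c : σ → Y} {N : ι → Finset Y} {d : ItD Y (ι ⊕ σ)}
  {rho : ι ⊕ σ → MvPolynomial Y TA}

/-- **twice the coefficient of `w² Z⁶`** -/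
theorem cf26_Full (hS : Stars St t k c) (hd : Supp J St t k c N d)
    (h : ∀ j ∈ JT J St ∅, d.Is j (rho j)) :
    2 * cfE 2 6 (Full J St t k c rho) =
      ∑ T ∈ St.powersetCard 2, E0 (DT ℤ T t k c * ∑ p ∈ (JT J St T).offDiag,
        d.A p.1 * d.A p.2) +
      ∑ T ∈ St.powersetCard 3, E0 (DT ℤ T t k c * ∑ p ∈ (JT J St T).offDiag,
        (d.phi p.1 * d.A p.2 + d.A p.1 * d.phi p.2)) +
      ∑ T ∈ St.powersetCard 4, E0 (DT ℤ T t k c * ∑ p ∈ (JT J St T).offDiag,
        d.phi p.1 * d.phi p.2) := by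
  rw [Full_eq, map_sum, mul_sum]
  have h1 : ∀ T ∈ St.powerset, 2 * cfE 2 6 ((C (ZT ^ T.card * gT ^ T.card) *
      up (DT ℤ T t k c)) * ∏ j ∈ JT J St T, (1 + rho j)) =
      (if T.card = 2 then E0 (DT ℤ T t k c * ∑ p ∈ (JT J St T).offDiag, d.A p.1 * d.A p.2)
        else 0) +
      (if T.card = 3 then E0 (DT ℤ T t k c * ∑ p ∈ (JT J St T).offDiag,
          (d.phi p.1 * d.A p.2 + d.A p.1 * d.phi p.2)) else 0) +
      (if T.card = 4 then E0 (DT ℤ T t k c * ∑ p ∈ (JT J St T).offDiag,
        d.phi p.1 * d.phi p.2) else 0) := by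
    intro T hT
    rw [mem_powerset] at hT
    rw [term_two d (JT J St T) (fun j hj => h j (JT_subset J St T hj))]
    have hc : T.card ≤ 1 ∨ T.card = 2 ∨ T.card = 3 ∨ T.card = 4 ∨ T.card = 5 ∨ T.card = 6 ∨
      7 ≤ T.card := by omega
    rcases hc with g | g | g | g | g | g | g
    · rw [if_neg (by omega), if_neg (by omega), if_neg (by omega), if_neg (by omega),
        if_neg (by omega), if_neg (by omega), if_neg (by omega), if_neg (by omega)]
      norm_num
    · rw [g]
      norm_num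
    · have e2 := Ec_DT_three (J := J) hS hT (by omega) hd.card d.A hd.A hd.A' 0
      have e3 := Ec_DT_three (J := J) hS hT (by omega) hd.card d.kp hd.kp hd.kp' 0
      rw [Ec_zero] at e2 e3
      rw [g]
      norm_num
      rw [e2, e3]
      norm_num
    · have hne : T.Nonempty := card_pos.1 (by omega)
      have e1 := Ec_DT_one hS hT hne 0
      have e2 := Ec_DT_three (J := J) hS hT (by omega) hd.card d.A hd.A hd.A' 1
      have e3 := Ec_DT_three (J := J) hS hT (by omega) hd.card d.phi hd.phi hd.phi' 0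
      have e4 := Ec_DT_three (J := J) hS hT (by omega) hd.card d.chi hd.chi hd.chi' 0
      rw [Ec_one] at e2
      rw [Ec_zero] at e1 e3 e4
      rw [g]
      norm_num
      rw [e1, e2, e3, e4]
      norm_num
    · have hne : T.Nonempty := card_pos.1 (by omega)
      have e1 := Ec_DT_one hS hT hne 1
      have e2 := Ec_DT_three (J := J) hS hT (by omega) hd.card d.phi hd.phi hd.phi' 1
      have e3 := Ec_DT_three (J := J) hS hT (by omega) hd.card d.xi hd.xi hd.xi' 0
      rw [Ec_one] at e1 e2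
      rw [Ec_zero] at e3
      rw [g]
      norm_num
      rw [e1, e2, e3]
      norm_num
    · have hne : T.Nonempty := card_pos.1 (by omega)
      have e1 := Ec_DT_one hS hT hne 2
      rw [g]
      norm_num
      exact e1
    · rw [if_neg (by omega), if_neg (by omega), if_neg (by omega), if_neg (by omega),
        if_neg (by omega), if_neg (by omega), if_neg (by omega), if_neg (by omega)]
      norm_num
  rw [sum_congr rfl h1, sum_add_distrib, sum_add_distrib, sum_card_eq, sum_card_eq, sum_card_eq]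

/-- no contribution of the products without frame to `w Z ^ 5` -/
theorem cf1_Full_five (hS : Stars St t k c) (hd : Supp J St t k c N d)
    (h : ∀ j ∈ JT J St ∅, d.Is2 j (rho j)) : cfE 1 5 (Full J St t k c rho) = 0 := by
  have h1 := cf1_Full_one (rho := rho) hS hd h 3
  rw [show 3 + 2 = 5 from rfl, show 3 + 1 = 4 from rfl] at h1
  rw [h1]
  have e1 : ∑ T ∈ St.powersetCard 4, ∑ j ∈ J, E0 (DT ℤ T t k c * d.phi (Sum.inl j)) = 0 := by
    apply Finset.sum_eq_zero
    intro T hT
    rw [mem_powersetCard] at hT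
    apply Finset.sum_eq_zero
    intro j hj
    have := hd.card j hj
    obtain ⟨s, hs, h4⟩ := exists_untouched hS hT.1 (U := N j) (by omega)
    exact E0_DT_disj hS hT.1 hs h4 (hd.phi j hj)
  have e2 : ∑ T ∈ St.powersetCard 3, E0 (DT ℤ T t k c * ∑ j ∈ JT J St T, d.A j) = 0 := by
    apply Finset.sum_eq_zero
    intro T hT
    rw [mem_powersetCard] at hT
    have := Ec_DT_three (J := J) hS hT.1 (by omega) hd.card d.A hd.A hd.A' 0
    rwa [Ec_zero] at this
  rw [e1, e2, add_zero]

variable {f : MvPolynomial Y TA} {u v f1 f2 p : MvPolynomial Y ℤ} {U0 : Finset Y}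

/-- the sum over the items with frozen variables reduces to the background -/
lemma E0_frozen_sumA (hS : Stars St t k c) (hU : ∀ s ∈ St, Disjoint U0 (VS t k c s))
    (hd : Supp J St t k c N d) {T : Finset σ} (hT : T ⊆ St) (hne : T.Nonempty)
    {P : MvPolynomial Y ℤ} (hP : P ∈ supported ℤ (U0 : Set Y)) :
    E0 (P * DT ℤ T t k c * ∑ j ∈ JT J St T, d.A j) =
      ∑ j ∈ J, E0 (DT ℤ T t k c * (P * d.A (Sum.inl j))) := by
  rw [E0_mul_sum, sum_JT, Finset.sum_eq_zero (s := St \ T), add_zero]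
  · apply sum_congr rfl
    intro j _
    congr 1
    ring
  · intro s hs
    rw [mem_sdiff] at hs
    obtain ⟨s', hs'⟩ := hne
    have h1 : P * DT ℤ T t k c * d.A (Sum.inr s) = DT ℤ T t k c * (P * d.A (Sum.inr s)) := by
      ring
    rw [h1]
    refine E0_DT_disj hS hT hs' (U := U0 ∪ VS t k c s) ?_ (mul_mem ?_ ?_)
    · rw [disjoint_union_left]
      exact ⟨hU s' (hT hs'), hS.disj hs.1 (hT hs') (fun h => hs.2 (h ▸ hs'))⟩
    · refine supported_mono ?_ hP
      rw [coe_union]
      exact Set.subset_union_left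
    · refine supported_mono ?_ (hd.A' s hs.1)
      rw [coe_union]
      exact Set.subset_union_right

/-- three stars, frozen variables and one item -/
lemma E0_frozen_three (hS : Stars St t k c) (hU : ∀ s ∈ St, Disjoint U0 (VS t k c s))
    {T : Finset σ} (hT : T ⊆ St) (h3 : 3 ≤ T.card) {P Q : MvPolynomial Y ℤ} {V : Finset Y}
    (hV : V.card ≤ 2) (hP : P ∈ supported ℤ (U0 : Set Y)) (hQ : Q ∈ supported ℤ (V : Set Y)) :
    E0 (DT ℤ T t k c * (P * Q)) = 0 := by
  obtain ⟨s, hs, h4⟩ := exists_untouched hS hT (U := V) (by omega)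
  refine E0_DT_disj hS hT hs (U := U0 ∪ V) ?_ (mul_mem ?_ ?_)
  · rw [disjoint_union_left]
    exact ⟨hU s (hT hs), h4⟩
  · refine supported_mono ?_ hP
    rw [coe_union]
    exact Set.subset_union_left
  · refine supported_mono ?_ hQ
    rw [coe_union]
    exact Set.subset_union_right

/-- **the coefficient of `w Z⁵` of a frame** -/
theorem cf1_frame_five (hS : Stars St t k c) (hd : Supp J St t k c N d)
    (hU : ∀ s ∈ St, Disjoint U0 (VS t k c s))
    (h : ∀ j ∈ JT J St ∅, d.Is2 j (rho j)) (hf : IsFrame f u v f1 f2 p)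
    (hu : u ∈ supported ℤ (U0 : Set Y)) (hv : v ∈ supported ℤ (U0 : Set Y))
    (hf1 : f1 ∈ supported ℤ (U0 : Set Y)) (hf2 : f2 ∈ supported ℤ (U0 : Set Y))
    (hp : p ∈ supported ℤ (U0 : Set Y)) :
    cfE 1 5 (f * Full J St t k c rho) =
      ∑ T ∈ St.powersetCard 2, (∑ j ∈ J, E0 (DT ℤ T t k c * (u * d.A (Sum.inl j))) +
        ∑ j ∈ J, E0 (DT ℤ T t k c * (v * d.phi (Sum.inl j)))) +
      ∑ s ∈ St, ∑ j ∈ J, E0 (Dg ℤ (t s) (k s) (c s) * (v * d.A (Sum.inl j))) := by
  obtain ⟨q, hq⟩ := hf
  set P := Full J St t k c rho with hPdef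
  have h1 : f * P = P + C ZT * (up u * P) + C ZT * (C ZT * (up v * P)) +
      (C wT * (C ZT * (up f1 * P)) + C wT * (C ZT * (C ZT * (up f2 * P))) +
      C wT * (C ZT * (C ZT * (C ZT * (up p * P)))) + C (wT ^ 2) * (q * P)) := by
    have h2 : f = (1 + C ZT * up u + C ZT * (C ZT * up v) + C wT * (C ZT * up f1) +
      C wT * (C ZT * (C ZT * up f2)) + C wT * (C ZT * (C ZT * (C ZT * up p)))) +
      C (wT ^ 2) * q := by
      rw [← hq]
      ring
    rw [h2]
    ring
  have e0 : cfE 1 5 (C (wT ^ 2) * (q * P)) = 0 := cfE_dvd (by norm_num) (Dvd.intro _ rfl)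
  have e1 : cfE 1 5 (C wT * (C ZT * (up f1 * P))) = 0 := by
    rw [cfE_w_succ, cfE_Z_succ, hPdef, cf0_frozen hS hU h hf1]
    norm_num
  have e2 : cfE 1 5 (C wT * (C ZT * (C ZT * (up f2 * P)))) = 0 := by
    rw [cfE_w_succ, cfE_Z_succ, cfE_Z_succ, hPdef, cf0_frozen hS hU h hf2]
    norm_num
  have e3 : cfE 1 5 (C wT * (C ZT * (C ZT * (C ZT * (up p * P))))) = 0 := by
    rw [cfE_w_succ, cfE_Z_succ, cfE_Z_succ, cfE_Z_succ, hPdef, cf0_frozen hS hU h hp]
    norm_num
  have e4 := cf1_Full_five (rho := rho) hS hd h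
  have e5 : cfE 1 5 (C ZT * (C ZT * (up v * P))) =
      ∑ T ∈ St.powersetCard 2, ∑ j ∈ J, E0 (DT ℤ T t k c * (v * d.phi (Sum.inl j))) +
      ∑ s ∈ St, ∑ j ∈ J, E0 (Dg ℤ (t s) (k s) (c s) * (v * d.A (Sum.inl j))) := by
    rw [cfE_Z_succ, cfE_Z_succ, hPdef, cf1_Full h]
    have h3 : ∀ T ∈ St.powerset, ((if 3 = T.card then E1 (v * DT ℤ T t k c) else 0) +
        (if 3 = T.card + 1 then T.card * E0 (v * DT ℤ T t k c) +
          E0 (v * DT ℤ T t k c * ∑ j ∈ JT J St T, d.phi j) else 0) +
        (if 3 = T.card + 2 then E0 (v * DT ℤ T t k c * ∑ j ∈ JT J St T, d.A j) else 0)) =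
        (if T.card = 2 then ∑ j ∈ J, E0 (DT ℤ T t k c * (v * d.phi (Sum.inl j))) else 0) +
        (if T.card = 1 then ∑ j ∈ J, E0 (DT ℤ T t k c * (v * d.A (Sum.inl j))) else 0) := by
      intro T hT
      rw [mem_powerset] at hT
      have hc : T.card = 0 ∨ T.card = 1 ∨ T.card = 2 ∨ T.card = 3 ∨ 4 ≤ T.card := by omega
      rcases hc with g | g | g | g | g
      · rw [g]
        norm_num
      · have hne : T.Nonempty := card_pos.1 (by omega)
        rw [E0_frozen_sumA hS hU hd hT hne hv, g]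
        norm_num
      · have hne : T.Nonempty := card_pos.1 (by omega)
        obtain ⟨s, hs⟩ := hne
        have g1 := E0_DT_disj hS hT hs (hU s (hT hs)) hv
        rw [mul_comm] at g1
        rw [E0_frozen_sum hS hU hd hT ⟨s, hs⟩ hv, g, g1]
        norm_num
      · have hne : T.Nonempty := card_pos.1 (by omega)
        obtain ⟨s, hs⟩ := hne
        have g1 := Ec_DT_disj hS hT hs (hU s (hT hs)) hv 1
        rw [mul_comm, Ec_one] at g1
        rw [g, g1]
        norm_num
      · rw [if_neg (by omega), if_neg (by omega), if_neg (by omega), if_neg (by omega),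
          if_neg (by omega)]
        norm_num
    rw [sum_congr rfl h3, sum_add_distrib, sum_card_eq, sum_card_eq, powersetCard_one, sum_map]
    congr 1
    apply sum_congr rfl
    intro s _
    simp only [Function.Embedding.coeFn_mk, DT_single]
  have e6 : cfE 1 5 (C ZT * (up u * P)) =
      ∑ T ∈ St.powersetCard 2, ∑ j ∈ J, E0 (DT ℤ T t k c * (u * d.A (Sum.inl j))) := by
    rw [cfE_Z_succ, hPdef, cf1_Full h]
    have h3 : ∀ T ∈ St.powerset, ((if 4 = T.card then E1 (u * DT ℤ T t k c) else 0) +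
        (if 4 = T.card + 1 then T.card * E0 (u * DT ℤ T t k c) +
          E0 (u * DT ℤ T t k c * ∑ j ∈ JT J St T, d.phi j) else 0) +
        (if 4 = T.card + 2 then E0 (u * DT ℤ T t k c * ∑ j ∈ JT J St T, d.A j) else 0)) =
        (if T.card = 2 then ∑ j ∈ J, E0 (DT ℤ T t k c * (u * d.A (Sum.inl j))) else 0) := by
      intro T hT
      rw [mem_powerset] at hT
      have hc : T.card ≤ 1 ∨ T.card = 2 ∨ T.card = 3 ∨ T.card = 4 ∨ 5 ≤ T.card := by omega
      rcases hc with g | g | g | g | g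
      · rw [if_neg (by omega), if_neg (by omega), if_neg (by omega), if_neg (by omega)]
        norm_num
      · have hne : T.Nonempty := card_pos.1 (by omega)
        rw [E0_frozen_sumA hS hU hd hT hne hu, g]
        norm_num
      · have hne : T.Nonempty := card_pos.1 (by omega)
        obtain ⟨s, hs⟩ := hne
        have g1 := E0_DT_disj hS hT hs (hU s (hT hs)) hu
        rw [mul_comm] at g1
        have g2 : ∑ j ∈ J, E0 (DT ℤ T t k c * (u * d.phi (Sum.inl j))) = 0 := by
          apply Finset.sum_eq_zero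
          intro j hj
          exact E0_frozen_three hS hU hT (by omega) (hd.card j hj) hu (hd.phi j hj)
        rw [E0_frozen_sum hS hU hd hT ⟨s, hs⟩ hu, g, g1, g2]
        norm_num
      · have hne : T.Nonempty := card_pos.1 (by omega)
        obtain ⟨s, hs⟩ := hne
        have g1 := Ec_DT_disj hS hT hs (hU s (hT hs)) hu 1
        rw [mul_comm, Ec_one] at g1
        rw [g, g1]
        norm_num
      · rw [if_neg (by omega), if_neg (by omega), if_neg (by omega), if_neg (by omega)]
        norm_num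
    rw [sum_congr rfl h3, sum_card_eq]
  rw [h1, map_add, map_add, map_add, map_add, map_add, map_add, e0, e1, e2, e3, e4, e5, e6,
    sum_add_distrib]
  ring

end

end Pool.Gauss.TL
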