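import Pool.Agent.Work.MP_065141_co.K.SixB

/-!
# Disjoint stars: values of the terms of `w ^ 2 Z ^ 6`
-/

set_option autoImplicit false
set_option linter.unusedSectionVars false
open scoped Classical
open Finset MvPolynomial

namespace Pool.Gauss.TL

variable {Y ι σ κ : Type}

/-! ### sums over subsets with three and four elements -/

lemma sum_pC3 (S : Finset σ) (G : σ → Finset σ → ℤ) :
    ∑ T ∈ S.powersetCard 3, ∑ s ∈ T, G s (T \ {s}) =
      ∑ s ∈ S, ∑ B ∈ (S \ {s}).powersetCard 2, G s B := by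
  rw [sum_sigma', sum_sigma']
  refine sum_bij' (fun x _ => ⟨x.2, x.1 \ {x.2}⟩) (fun x _ => ⟨insert x.1 x.2, x.1⟩)
    ?_ ?_ ?_ ?_ ?_
  · rintro ⟨T, s⟩ hx
    rw [mem_sigma, mem_powersetCard] at hx
    obtain ⟨⟨h1, h2⟩, h3⟩ := hx
    simp only at h1 h2 h3
    rw [mem_sigma, mem_powersetCard]
    refine ⟨h1 h3, sdiff_subset_sdiff h1 (subset_refl _), ?_⟩
    rw [card_sdiff_of_subset (singleton_subset_iff.2 h3), h2, card_singleton]
  · rintro ⟨s, B⟩ hx
    rw [mem_sigma, mem_powersetCard] at hx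
    obtain ⟨h1, h2, h3⟩ := hx
    simp only at h1 h2 h3
    have hs : s ∉ B := fun h => (mem_sdiff.1 (h2 h)).2 (mem_singleton_self s)
    rw [mem_sigma, mem_powersetCard]
    refine ⟨⟨?_, ?_⟩, mem_insert_self s B⟩
    · intro a ha
      rw [mem_insert] at ha
      rcases ha with rfl | ha
      · exact h1
      · exact (mem_sdiff.1 (h2 ha)).1
    · rw [card_insert_of_notMem hs, h3]
  · rintro ⟨T, s⟩ hx
    rw [mem_sigma] at hx
    have h3 := hx.2
    simp only at h3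
    simp only [sdiff_singleton_eq_erase, insert_erase h3]
  · rintro ⟨s, B⟩ hx
    rw [mem_sigma, mem_powersetCard] at hx
    obtain ⟨h1, h2, h3⟩ := hx
    simp only at h1 h2 h3
    have hs : s ∉ B := fun h => (mem_sdiff.1 (h2 h)).2 (mem_singleton_self s)
    simp only [sdiff_singleton_eq_erase, erase_insert hs]
  · rintro ⟨T, s⟩ _
    rfl

lemma sum_pC4 (S : Finset σ) (G : Finset σ → Finset σ → ℤ) :
    ∑ T ∈ S.powersetCard 4, ∑ A ∈ T.powersetCard 2, G A (T \ A) =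
      ∑ A ∈ S.powersetCard 2, ∑ B ∈ (S \ A).powersetCard 2, G A B := by
  rw [sum_sigma', sum_sigma']
  refine sum_bij' (fun x _ => ⟨x.2, x.1 \ x.2⟩) (fun x _ => ⟨x.1 ∪ x.2, x.1⟩)
    ?_ ?_ ?_ ?_ ?_
  · rintro ⟨T, A⟩ hx
    rw [mem_sigma, mem_powersetCard, mem_powersetCard] at hx
    obtain ⟨⟨h1, h2⟩, h3, h4⟩ := hx
    simp only at h1 h2 h3 h4
    rw [mem_sigma, mem_powersetCard, mem_powersetCard]
    refine ⟨⟨h3.trans h1, h4⟩, sdiff_subset_sdiff h1 (subset_refl _), ?_⟩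
    have := card_sdiff_add_card_eq_card h3
    simp only
    omega
  · rintro ⟨A, B⟩ hx
    rw [mem_sigma, mem_powersetCard, mem_powersetCard] at hx
    obtain ⟨⟨h1, h2⟩, h3, h4⟩ := hx
    simp only at h1 h2 h3 h4
    have hd : Disjoint A B := by
      rw [Finset.disjoint_right]
      intro a ha
      exact (mem_sdiff.1 (h3 ha)).2
    rw [mem_sigma, mem_powersetCard, mem_powersetCard]
    refine ⟨⟨union_subset h1 (h3.trans sdiff_subset), ?_⟩, subset_union_left, h2⟩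
    simp only
    rw [card_union_of_disjoint hd]
    omega
  · rintro ⟨T, A⟩ hx
    rw [mem_sigma, mem_powersetCard, mem_powersetCard] at hx
    obtain ⟨⟨h1, h2⟩, h3, h4⟩ := hx
    simp only at h1 h2 h3 h4
    simp only [union_sdiff_of_subset h3]
  · rintro ⟨A, B⟩ hx
    rw [mem_sigma, mem_powersetCard, mem_powersetCard] at hx
    obtain ⟨⟨h1, h2⟩, h3, h4⟩ := hx
    simp only at h1 h2 h3 h4
    have hd : Disjoint A B := by
      rw [Finset.disjoint_right]
      intro a ha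
      exact (mem_sdiff.1 (h3 ha)).2
    simp only [union_sdiff_cancel_left hd]
  · rintro ⟨T, A⟩ _
    rfl

/-- a sum over all ordered pairs without the vanishing diagonal -/
lemma sum_offDiag_full (S : Finset κ) (f : κ → κ → ℤ) (h : ∀ x ∈ S, f x x = 0) :
    ∑ p ∈ S.offDiag, f p.1 p.2 = ∑ x ∈ S, ∑ y ∈ S, f x y := by
  rw [sum_offDiag_eq, Finset.sum_eq_zero (f := fun x => f x x) h, sub_zero]

lemma prod_mul_prod_compl_sdiff_aux {A T : Finset σ} (h : A ⊆ T) (f : σ → ℤ) :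
    (∏ s ∈ A, f s) * ∏ s ∈ T \ A, f s = ∏ s ∈ T, f s := by
  rw [mul_comm, prod_sdiff h]

namespace SDat

variable {D : SDat Y ι σ} {L : Finset Y}

lemma d0phi_memN (j : ι) : D.d0.phi (Sum.inl j) ∈ supported ℤ (D.N j : Set Y) := ph_mem _

lemma d0A_memN (j : ι) : D.d0.A (Sum.inl j) ∈ supported ℤ (D.N j : Set Y) :=
  mul_mem (C_mem _ _) (am_mem _)

/-- an own item and an item of the background with more than two stars -/
lemma E0_DT_own_zero (h : D.Ok L) {T : Finset σ} (hT : T ⊆ D.St) (h3 : 3 ≤ T.card) {j : ι}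
    (hj : j ∈ D.J) {a : σ} (ha : a ∈ D.St \ T) {P Q : MvPolynomial Y ℤ}
    (hP : P ∈ supported ℤ (D.N j : Set Y)) (hQ : Q ∈ supported ℤ (VS D.t D.k D.c a : Set Y)) :
    E0 (DT ℤ T D.t D.k D.c * (P * Q)) = 0 := by
  have := h.two j hj
  obtain ⟨s, hs, hd⟩ := exists_untouched h.st hT (U := D.N j) (by omega)
  rw [mem_sdiff] at ha
  refine E0_DT_disj h.st hT hs (U := D.N j ∪ VS D.t D.k D.c a) ?_ (mul_mem ?_ ?_)
  · rw [disjoint_union_left]
    exact ⟨hd, h.st.disj ha.1 (hT hs) (fun e => ha.2 (e ▸ hs))⟩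
  · exact supported_mono (by exact_mod_cast subset_union_left) hP
  · exact supported_mono (by exact_mod_cast subset_union_right) hQ

/-- two own items -/
lemma E0_DT_own_own (h : D.Ok L) {T : Finset σ} (hT : T ⊆ D.St) (hne : T.Nonempty)
    {a b : σ} (ha : a ∈ D.St \ T) (hb : b ∈ D.St \ T) {P Q : MvPolynomial Y ℤ}
    (hP : P ∈ supported ℤ (VS D.t D.k D.c a : Set Y))
    (hQ : Q ∈ supported ℤ (VS D.t D.k D.c b : Set Y)) :
    E0 (DT ℤ T D.t D.k D.c * (P * Q)) = 0 := by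
  obtain ⟨s, hs⟩ := hne
  rw [mem_sdiff] at ha hb
  refine E0_DT_disj h.st hT hs (U := VS D.t D.k D.c a ∪ VS D.t D.k D.c b) ?_ (mul_mem ?_ ?_)
  · rw [disjoint_union_left]
    exact ⟨h.st.disj ha.1 (hT hs) (fun e => ha.2 (e ▸ hs)),
      h.st.disj hb.1 (hT hs) (fun e => hb.2 (e ▸ hs))⟩
  · exact supported_mono (by exact_mod_cast subset_union_left) hP
  · exact supported_mono (by exact_mod_cast subset_union_right) hQ

/-! ### four stars -/

/-- four stars: the items of the two pairs -/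
theorem part4 (h : D.Ok L) :
    4 * ∑ T ∈ D.St.powersetCard 4, E0 (DT ℤ T D.t D.k D.c *
      ∑ p ∈ (JT D.J D.St T).offDiag, D.d0.phi p.1 * D.d0.phi p.2) =
    ∑ p ∈ D.St.offDiag, ∑ q ∈ (D.St \ {p.1, p.2}).offDiag, D.aa p.1 p.2 * D.aa q.1 q.2 := by
  -- one set of four stars
  have h1 : ∀ T ∈ D.St.powersetCard 4, E0 (DT ℤ T D.t D.k D.c *
      ∑ p ∈ (JT D.J D.St T).offDiag, D.d0.phi p.1 * D.d0.phi p.2) =
      ∑ A ∈ T.powersetCard 2, ((∑ j ∈ D.J, ∏ s ∈ A, dl D.t D.c s (D.N j)) *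
        ∑ l ∈ D.J, ∏ s ∈ T \ A, dl D.t D.c s (D.N l)) := by
    intro T hT
    rw [mem_powersetCard] at hT
    rw [E0_mul_sum, JT, sum_offDiag_disjSum D.J (D.St \ T) fun a b =>
      E0 (DT ℤ T D.t D.k D.c * (D.d0.phi a * D.d0.phi b))]
    have z1 : ∑ j ∈ D.J, ∑ s ∈ D.St \ T, (E0 (DT ℤ T D.t D.k D.c *
        (D.d0.phi (Sum.inl j) * D.d0.phi (Sum.inr s))) + E0 (DT ℤ T D.t D.k D.c *
        (D.d0.phi (Sum.inr s) * D.d0.phi (Sum.inl j)))) = 0 := by
      apply Finset.sum_eq_zero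
      intro j hj
      apply Finset.sum_eq_zero
      intro s hs
      rw [mul_comm (D.d0.phi (Sum.inr s)), E0_DT_own_zero h hT.1 (by omega) hj hs (d0phi_memN j)
        (d0phi_mem s), add_zero]
    have z2 : ∑ p ∈ (D.St \ T).offDiag, E0 (DT ℤ T D.t D.k D.c *
        (D.d0.phi (Sum.inr p.1) * D.d0.phi (Sum.inr p.2))) = 0 := by
      apply Finset.sum_eq_zero
      intro p hp
      rw [mem_offDiag] at hp
      exact E0_DT_own_own h hT.1 (card_pos.1 (by omega)) hp.1 hp.2.1 (d0phi_mem _) (d0phi_mem _)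
    rw [z1, z2, add_zero, add_zero]
    have e1 : ∀ p ∈ D.J.offDiag, E0 (DT ℤ T D.t D.k D.c *
        (D.d0.phi (Sum.inl p.1) * D.d0.phi (Sum.inl p.2))) =
        ∑ A ∈ T.powersetCard 2, (∏ s ∈ A, dl D.t D.c s (D.N p.1)) *
          ∏ s ∈ T \ A, dl D.t D.c s (D.N p.2) := by
      intro p hp
      rw [mem_offDiag] at hp
      rw [d0_phi_l, d0_phi_l, E0_DT_four h.st hT.1 hT.2 (h.two _ hp.1) (h.two _ hp.2.1)]
    rw [sum_congr rfl e1, sum_offDiag_full D.J fun j l => ∑ A ∈ T.powersetCard 2,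
      (∏ s ∈ A, dl D.t D.c s (D.N j)) * ∏ s ∈ T \ A, dl D.t D.c s (D.N l)]
    · have e2 : ∀ j ∈ D.J, ∑ l ∈ D.J, ∑ A ∈ T.powersetCard 2,
          (∏ s ∈ A, dl D.t D.c s (D.N j)) * ∏ s ∈ T \ A, dl D.t D.c s (D.N l) =
          ∑ A ∈ T.powersetCard 2, (∏ s ∈ A, dl D.t D.c s (D.N j)) *
            ∑ l ∈ D.J, ∏ s ∈ T \ A, dl D.t D.c s (D.N l) := by
        intro j _
        rw [sum_comm]
        exact sum_congr rfl fun A _ => by rw [mul_sum]
      rw [sum_congr rfl e2, sum_comm]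
      exact sum_congr rfl fun A _ => by rw [sum_mul]
    · intro j hj
      apply Finset.sum_eq_zero
      intro A hA
      rw [mem_powersetCard] at hA
      have c3 := card_sdiff_add_card_eq_card hA.1
      rw [prod_mul_prod_compl_sdiff_aux hA.1 fun s => dl D.t D.c s (D.N j)]
      by_contra hne
      have := prod_dl_card h.st hT.1 hne
      have := h.two j hj
      omega
  rw [sum_congr rfl h1, sum_pC4 D.St fun A B => (∑ j ∈ D.J, ∏ s ∈ A, dl D.t D.c s (D.N j)) *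
        ∑ l ∈ D.J, ∏ s ∈ B, dl D.t D.c s (D.N l)]
  have h2 := two_sum_powersetCard D.St fun A => ∑ B ∈ (D.St \ A).powersetCard 2,
    (∑ j ∈ D.J, ∏ s ∈ A, dl D.t D.c s (D.N j)) * ∑ l ∈ D.J, ∏ s ∈ B, dl D.t D.c s (D.N l)
  have h3 : ∀ p ∈ D.St.offDiag, 2 * ∑ B ∈ (D.St \ {p.1, p.2}).powersetCard 2,
      (∑ j ∈ D.J, ∏ s ∈ ({p.1, p.2} : Finset σ), dl D.t D.c s (D.N j)) *
        ∑ l ∈ D.J, ∏ s ∈ B, dl D.t D.c s (D.N l) =
      ∑ q ∈ (D.St \ {p.1, p.2}).offDiag, D.aa p.1 p.2 * D.aa q.1 q.2 := by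
    intro p hp
    rw [mem_offDiag] at hp
    have h4 := two_sum_powersetCard (D.St \ {p.1, p.2}) fun B =>
      (∑ j ∈ D.J, ∏ s ∈ ({p.1, p.2} : Finset σ), dl D.t D.c s (D.N j)) *
        ∑ l ∈ D.J, ∏ s ∈ B, dl D.t D.c s (D.N l)
    rw [h4]
    apply sum_congr rfl
    intro q hq
    rw [mem_offDiag] at hq
    simp only [prod_pair hp.2.2, prod_pair hq.2.2]
    rfl
  calc 4 * ∑ A ∈ D.St.powersetCard 2, ∑ B ∈ (D.St \ A).powersetCard 2,
        (∑ j ∈ D.J, ∏ s ∈ A, dl D.t D.c s (D.N j)) * ∑ l ∈ D.J, ∏ s ∈ B, dl D.t D.c s (D.N l)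
      = 2 * (2 * ∑ A ∈ D.St.powersetCard 2, ∑ B ∈ (D.St \ A).powersetCard 2,
        (∑ j ∈ D.J, ∏ s ∈ A, dl D.t D.c s (D.N j)) *
          ∑ l ∈ D.J, ∏ s ∈ B, dl D.t D.c s (D.N l)) := by ring
    _ = _ := by
      rw [h2, mul_sum]
      exact sum_congr rfl h3

/-! ### three stars -/

/-- the weight of the items at one star seen from two other stars -/
noncomputable def LX (D : SDat Y ι σ) (s a b : σ) : ℤ :=
  ∑ j ∈ D.J, dl D.t D.c s (D.N j) *
    2 ^ (D.N j \ (VS D.t D.k D.c s ∪ (VS D.t D.k D.c a ∪ VS D.t D.k D.c b))).card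

/-- the first order numbers at one star of the items which do not meet two other stars -/
noncomputable def tX (D : SDat Y ι σ) (s a b : σ) : ℤ :=
  ∑ l ∈ D.J, D.H l * (dj (D.N l) (VS D.t D.k D.c a ∪ VS D.t D.k D.c b) * ta D.t D.k D.c s (D.N l))

lemma del_pair (a b : σ) (g : Finset Y) :
    del D.t D.k D.c {a, b} g = dj g (VS D.t D.k D.c a ∪ VS D.t D.k D.c b) := by
  unfold del dj
  rw [biUnion_insert, singleton_biUnion]

/-- three stars: an item between two of them and an item at the third -/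
theorem part3 (h : D.Ok L) :
    ∑ T ∈ D.St.powersetCard 3, E0 (DT ℤ T D.t D.k D.c *
      ∑ p ∈ (JT D.J D.St T).offDiag, (D.d0.phi p.1 * D.d0.A p.2 + D.d0.A p.1 * D.d0.phi p.2)) =
    ∑ s ∈ D.St, ∑ p ∈ (D.St \ {s}).offDiag,
      (D.LX s p.1 p.2 * D.bb p.1 p.2 - D.aa p.1 p.2 * D.tX s p.1 p.2) := by
  set G : σ → Finset σ → ℤ := fun s B => ∑ j ∈ D.J, ∑ l ∈ D.J, D.H l *
    (dl D.t D.c s (D.N j) * 2 ^ (D.N j \ (insert s B).biUnion (VS D.t D.k D.c)).card *
      (∏ r ∈ B, dl D.t D.c r (D.N l)) -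
      del D.t D.k D.c B (D.N l) * (∏ r ∈ B, dl D.t D.c r (D.N j)) *
        ta D.t D.k D.c s (D.N l)) with hG
  have h1 : ∀ T ∈ D.St.powersetCard 3, E0 (DT ℤ T D.t D.k D.c *
      ∑ p ∈ (JT D.J D.St T).offDiag, (D.d0.phi p.1 * D.d0.A p.2 + D.d0.A p.1 * D.d0.phi p.2)) =
      2 * ∑ s ∈ T, G s (T \ {s}) := by
    intro T hT
    rw [mem_powersetCard] at hT
    -- one ordered pair of items of the background
    have e1 : ∀ j ∈ D.J, ∀ l ∈ D.J, E0 (DT ℤ T D.t D.k D.c *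
        (D.d0.phi (Sum.inl j) * D.d0.A (Sum.inl l))) = ∑ s ∈ T, D.H l *
        (dl D.t D.c s (D.N j) * 2 ^ (D.N j \ T.biUnion (VS D.t D.k D.c)).card *
        (∏ r ∈ T \ {s}, dl D.t D.c r (D.N l)) -
        del D.t D.k D.c (T \ {s}) (D.N l) * (∏ r ∈ T \ {s}, dl D.t D.c r (D.N j)) *
          ta D.t D.k D.c s (D.N l)) := by
      intro j hj l hl
      rw [← mul_sum]
      by_cases c1 : (D.N l).card = 1
      · rw [d0_A_l, h.H0 l hl c1, map_zero, zero_mul, mul_zero, mul_zero, map_zero, zero_mul]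
      · have c2 : (D.N l).card = 2 := by
          have := h.one l hl
          have := h.two l hl
          omega
        have e : DT ℤ T D.t D.k D.c * (D.d0.phi (Sum.inl j) * D.d0.A (Sum.inl l)) =
            C (D.H l) * (DT ℤ T D.t D.k D.c * (ph (D.N j) * am (D.N l))) := by
          rw [d0_A_l, d0_phi_l]
          ring
        rw [e, E0_C_mul, E0_DT_three h.st hT.1 hT.2 (h.two j hj) c2]
    rw [E0_mul_sum, JT, sum_offDiag_disjSum D.J (D.St \ T) fun a b =>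
      E0 (DT ℤ T D.t D.k D.c * (D.d0.phi a * D.d0.A b + D.d0.A a * D.d0.phi b))]
    have z1 : ∑ j ∈ D.J, ∑ s ∈ D.St \ T, (E0 (DT ℤ T D.t D.k D.c *
        (D.d0.phi (Sum.inl j) * D.d0.A (Sum.inr s) + D.d0.A (Sum.inl j) * D.d0.phi (Sum.inr s))) +
        E0 (DT ℤ T D.t D.k D.c *
        (D.d0.phi (Sum.inr s) * D.d0.A (Sum.inl j) +
          D.d0.A (Sum.inr s) * D.d0.phi (Sum.inl j)))) = 0 := by
      apply Finset.sum_eq_zero
      intro j hj
      apply Finset.sum_eq_zero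
      intro s hs
      have q1 := E0_DT_own_zero h hT.1 (by omega) hj hs (d0phi_memN j) (d0A_mem s)
      have q2 := E0_DT_own_zero h hT.1 (by omega) hj hs (d0A_memN j) (d0phi_mem s)
      rw [mul_comm (D.d0.phi (Sum.inr s)), mul_comm (D.d0.A (Sum.inr s)), mul_add, mul_add,
        map_add, map_add, q1, q2]
      norm_num
    have z2 : ∑ p ∈ (D.St \ T).offDiag, E0 (DT ℤ T D.t D.k D.c *
        (D.d0.phi (Sum.inr p.1) * D.d0.A (Sum.inr p.2) +
          D.d0.A (Sum.inr p.1) * D.d0.phi (Sum.inr p.2))) = 0 := by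
      apply Finset.sum_eq_zero
      intro p hp
      rw [mem_offDiag] at hp
      have hne : T.Nonempty := card_pos.1 (by omega)
      rw [mul_add, map_add, E0_DT_own_own h hT.1 hne hp.1 hp.2.1 (d0phi_mem _) (d0A_mem _),
        E0_DT_own_own h hT.1 hne hp.1 hp.2.1 (d0A_mem _) (d0phi_mem _), add_zero]
    rw [z1, z2, add_zero, add_zero]
    have e2 : ∀ p ∈ D.J.offDiag, E0 (DT ℤ T D.t D.k D.c *
        (D.d0.phi (Sum.inl p.1) * D.d0.A (Sum.inl p.2) +
          D.d0.A (Sum.inl p.1) * D.d0.phi (Sum.inl p.2))) =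
        E0 (DT ℤ T D.t D.k D.c * (D.d0.phi (Sum.inl p.1) * D.d0.A (Sum.inl p.2))) +
        E0 (DT ℤ T D.t D.k D.c * (D.d0.phi (Sum.inl p.2) * D.d0.A (Sum.inl p.1))) := by
      intro p _
      rw [mul_add, map_add, mul_comm (D.d0.A (Sum.inl p.1))]
    rw [sum_congr rfl e2, sum_add_distrib, ← sum_offDiag_swap D.J fun j l =>
      E0 (DT ℤ T D.t D.k D.c * (D.d0.phi (Sum.inl j) * D.d0.A (Sum.inl l))), ← two_mul]
    congr 1
    have e3 : ∀ p ∈ D.J.offDiag, E0 (DT ℤ T D.t D.k D.c *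
        (D.d0.phi (Sum.inl p.1) * D.d0.A (Sum.inl p.2))) = ∑ s ∈ T, D.H p.2 *
        (dl D.t D.c s (D.N p.1) * 2 ^ (D.N p.1 \ T.biUnion (VS D.t D.k D.c)).card *
        (∏ r ∈ T \ {s}, dl D.t D.c r (D.N p.2)) -
        del D.t D.k D.c (T \ {s}) (D.N p.2) * (∏ r ∈ T \ {s}, dl D.t D.c r (D.N p.1)) *
          ta D.t D.k D.c s (D.N p.2)) := by
      intro p hp
      rw [mem_offDiag] at hp
      exact e1 _ hp.1 _ hp.2.1
    rw [sum_congr rfl e3, sum_offDiag_full D.J fun j l => ∑ s ∈ T, D.H l *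
        (dl D.t D.c s (D.N j) * 2 ^ (D.N j \ T.biUnion (VS D.t D.k D.c)).card *
        (∏ r ∈ T \ {s}, dl D.t D.c r (D.N l)) -
        del D.t D.k D.c (T \ {s}) (D.N l) * (∏ r ∈ T \ {s}, dl D.t D.c r (D.N j)) *
          ta D.t D.k D.c s (D.N l))]
    · have e4 : ∀ j ∈ D.J, ∑ l ∈ D.J, ∑ s ∈ T, D.H l *
        (dl D.t D.c s (D.N j) * 2 ^ (D.N j \ T.biUnion (VS D.t D.k D.c)).card *
        (∏ r ∈ T \ {s}, dl D.t D.c r (D.N l)) -
        del D.t D.k D.c (T \ {s}) (D.N l) * (∏ r ∈ T \ {s}, dl D.t D.c r (D.N j)) *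
          ta D.t D.k D.c s (D.N l)) = ∑ s ∈ T, ∑ l ∈ D.J, D.H l *
        (dl D.t D.c s (D.N j) * 2 ^ (D.N j \ T.biUnion (VS D.t D.k D.c)).card *
        (∏ r ∈ T \ {s}, dl D.t D.c r (D.N l)) -
        del D.t D.k D.c (T \ {s}) (D.N l) * (∏ r ∈ T \ {s}, dl D.t D.c r (D.N j)) *
          ta D.t D.k D.c s (D.N l)) := fun j _ => sum_comm
      rw [sum_congr rfl e4, sum_comm]
      apply sum_congr rfl
      intro s hs
      rw [hG]
      simp only
      have e5 : insert s (T \ {s}) = T := by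
        rw [sdiff_singleton_eq_erase, insert_erase hs]
      rw [e5]
    · intro j hj
      apply Finset.sum_eq_zero
      intro s hs
      have e6 : dl D.t D.c s (D.N j) * ∏ r ∈ T \ {s}, dl D.t D.c r (D.N j) = 0 := by
        have := prod_mul_prod_compl_sdiff_aux (singleton_subset_iff.2 hs)
          fun s => dl D.t D.c s (D.N j)
        rw [prod_singleton] at this
        rw [this]
        by_contra hne
        have := prod_dl_card h.st hT.1 hne
        have := h.two j hj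
        omega
      have e7 : del D.t D.k D.c (T \ {s}) (D.N j) * ∏ r ∈ T \ {s}, dl D.t D.c r (D.N j) = 0 := by
        rw [del]
        split_ifs with hd
        · obtain ⟨r, hr⟩ : (T \ {s}).Nonempty := by
            rw [← card_pos, card_sdiff_of_subset (singleton_subset_iff.2 hs), card_singleton]
            omega
          have := hd.mono_right (Finset.subset_biUnion_of_mem (VS D.t D.k D.c) hr)
          rw [Finset.prod_eq_zero hr (dl_disj this), mul_zero]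
        · rw [zero_mul]
      have e8 : dl D.t D.c s (D.N j) * 2 ^ (D.N j \ T.biUnion (VS D.t D.k D.c)).card *
          (∏ r ∈ T \ {s}, dl D.t D.c r (D.N j)) = 0 := by
        linear_combination (2 ^ (D.N j \ T.biUnion (VS D.t D.k D.c)).card : ℤ) * e6
      rw [e8, e7]
      ring
  rw [sum_congr rfl h1, ← mul_sum, sum_pC3, mul_sum]
  apply sum_congr rfl
  intro s hs
  rw [two_sum_powersetCard]
  apply sum_congr rfl
  intro p hp
  rw [mem_offDiag] at hp
  rw [hG]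
  simp only
  have e1 : (insert s {p.1, p.2} : Finset σ).biUnion (VS D.t D.k D.c) =
      VS D.t D.k D.c s ∪ (VS D.t D.k D.c p.1 ∪ VS D.t D.k D.c p.2) := by
    rw [biUnion_insert, biUnion_insert, singleton_biUnion]
  rw [e1]
  have e2 : ∀ j ∈ D.J, ∑ l ∈ D.J, D.H l * (dl D.t D.c s (D.N j) *
      2 ^ (D.N j \ (VS D.t D.k D.c s ∪ (VS D.t D.k D.c p.1 ∪ VS D.t D.k D.c p.2))).card *
      (∏ r ∈ ({p.1, p.2} : Finset σ), dl D.t D.c r (D.N l)) -
      del D.t D.k D.c {p.1, p.2} (D.N l) * (∏ r ∈ ({p.1, p.2} : Finset σ),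
        dl D.t D.c r (D.N j)) * ta D.t D.k D.c s (D.N l)) =
      (dl D.t D.c s (D.N j) * 2 ^ (D.N j \ (VS D.t D.k D.c s ∪
        (VS D.t D.k D.c p.1 ∪ VS D.t D.k D.c p.2))).card) * D.bb p.1 p.2 -
      D.ab p.1 p.2 j * D.tX s p.1 p.2 := by
    intro j _
    rw [bb, tX, mul_sum, mul_sum, ← sum_sub_distrib]
    apply sum_congr rfl
    intro l _
    rw [prod_pair hp.2.2, prod_pair hp.2.2, del_pair, ab, ab]
    ring
  rw [sum_congr rfl e2, sum_sub_distrib, ← sum_mul, ← sum_mul, LX, aa]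

end SDat

end Pool.Gauss.TL
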