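import Pool.Agent.Work.MP_065141_co.K.SixC

/-!
# Disjoint stars: two stars and two items; the frames; definitions
-/

set_option autoImplicit false
set_option linter.unusedSectionVars false
open scoped Classical
open Finset MvPolynomial

namespace Pool.Gauss.TL

variable {Y ι σ κ : Type}

namespace SDat

variable {D : SDat Y ι σ} {L : Finset Y}

/-- if the item meets a third star, one of the two stars is not touched -/
lemma untouched_two (h : D.Ok L) {a b s : σ} (ha : a ∈ D.St) (hb : b ∈ D.St) (hs : s ∈ D.St)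
    (hab : a ≠ b) (h1 : s ≠ a) (h2 : s ≠ b) {j : ι} (hj : j ∈ D.J)
    (hd : ¬ Disjoint (D.N j) (VS D.t D.k D.c s)) :
    ∃ r ∈ ({a, b} : Finset σ), Disjoint (D.N j) (VS D.t D.k D.c r) := by
  have hT : ({s, a, b} : Finset σ) ⊆ D.St := by
    intro x hx
    rw [mem_insert, mem_insert, mem_singleton] at hx
    rcases hx with rfl | rfl | rfl <;> assumption
  have hc : ({s, a, b} : Finset σ).card = 3 := by
    rw [card_insert_of_notMem (by simp [h1, h2]), card_pair hab]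
  have := h.two j hj
  obtain ⟨r, hr, hd2⟩ := exists_untouched h.st hT (U := D.N j) (by omega)
  rw [mem_insert] at hr
  rcases hr with rfl | hr
  · exact absurd hd2 hd
  · exact ⟨r, hr, hd2⟩

lemma ab_zero_of_pair {a b : σ} {j : ι}
    (h : ∃ r ∈ ({a, b} : Finset σ), Disjoint (D.N j) (VS D.t D.k D.c r)) : D.ab a b j = 0 := by
  obtain ⟨r, hr, hd⟩ := h
  rw [mem_insert, mem_singleton] at hr
  rcases hr with rfl | rfl
  · rw [ab, dl_disj hd, zero_mul]
  · rw [ab, dl_disj hd, mul_zero]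

/-- a value with an item which meets a third star vanishes -/
lemma E0_pair_zero (h : D.Ok L) {a b s : σ} (ha : a ∈ D.St) (hb : b ∈ D.St) (hs : s ∈ D.St)
    (hab : a ≠ b) (h1 : s ≠ a) (h2 : s ≠ b) {j : ι} (hj : j ∈ D.J)
    (hd : ¬ Disjoint (D.N j) (VS D.t D.k D.c s)) {P Q : MvPolynomial Y ℤ}
    (hP : P ∈ supported ℤ (VS D.t D.k D.c s : Set Y)) (hQ : Q ∈ supported ℤ (D.N j : Set Y)) :
    E0 (DT ℤ {a, b} D.t D.k D.c * (P * Q)) = 0 := by
  obtain ⟨r, hr, hd2⟩ := untouched_two h ha hb hs hab h1 h2 hj hd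
  have hrS : r ∈ D.St := (sub_two ha hb) hr
  have hsr : s ≠ r := by
    rintro rfl
    exact hd hd2
  refine E0_DT_disj h.st (sub_two ha hb) hr (U := VS D.t D.k D.c s ∪ D.N j) ?_ (mul_mem ?_ ?_)
  · rw [disjoint_union_left]
    exact ⟨h.st.disj hs hrS hsr, hd2⟩
  · exact supported_mono (by exact_mod_cast subset_union_left) hP
  · exact supported_mono (by exact_mod_cast subset_union_right) hQ

/-- values with a factor in a third star -/
lemma E0_pair_mul (h : D.Ok L) {a b s : σ} (ha : a ∈ D.St) (hb : b ∈ D.St) (hs : s ∈ D.St)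
    (hab : a ≠ b) (h1 : s ≠ a) (h2 : s ≠ b) {j : ι}
    (hd : Disjoint (D.N j) (VS D.t D.k D.c s)) {P Q : MvPolynomial Y ℤ}
    (hP : P ∈ supported ℤ (VS D.t D.k D.c s : Set Y)) (hQ : Q ∈ supported ℤ (D.N j : Set Y)) :
    E0 (DT ℤ {a, b} D.t D.k D.c * (P * Q)) = E0 P * E0 (DT ℤ {a, b} D.t D.k D.c * Q) := by
  have e : DT ℤ {a, b} D.t D.k D.c * (P * Q) = P * (DT ℤ {a, b} D.t D.k D.c * Q) := by ring
  rw [e]
  refine E0_mul_disj (U := VS D.t D.k D.c s)
    (V := (VS D.t D.k D.c a ∪ VS D.t D.k D.c b) ∪ D.N j) ?_ hP ?_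
  · rw [disjoint_union_right, disjoint_union_right]
    exact ⟨⟨h.st.disj hs ha h1, h.st.disj hs hb h2⟩, hd.symm⟩
  · rw [DT_two hab]
    refine mul_mem (mul_mem (supported_mono ?_ (Dg_memVS a)) (supported_mono ?_ (Dg_memVS b)))
      (supported_mono ?_ hQ)
    · exact_mod_cast subset_union_left.trans subset_union_left
    · exact_mod_cast subset_union_right.trans subset_union_left
    · exact_mod_cast subset_union_right

/-- an own item and an item of the background at two stars -/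
lemma E0_DT_AA_lr (h : D.Ok L) {a b s : σ} (ha : a ∈ D.St) (hb : b ∈ D.St) (hs : s ∈ D.St)
    (hab : a ≠ b) (h1 : s ≠ a) (h2 : s ≠ b) {j : ι} (hj : j ∈ D.J) :
    E0 (DT ℤ {a, b} D.t D.k D.c * (D.d0.A (Sum.inr s) * D.d0.A (Sum.inl j))) =
      D.eta s * (D.H j * D.ab a b j) := by
  by_cases hd : Disjoint (D.N j) (VS D.t D.k D.c s)
  · rw [E0_pair_mul h ha hb hs hab h1 h2 hd (d0A_mem s) (d0A_memN j), E0_A_r h hs,
      E0_DT_A h ha hb hab hj]
  · rw [E0_pair_zero h ha hb hs hab h1 h2 hj hd (d0A_mem s) (d0A_memN j),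
      ab_zero_of_pair (untouched_two h ha hb hs hab h1 h2 hj hd)]
    ring

/-- the value of two items with first order numbers at two stars -/
noncomputable def PP (D : SDat Y ι σ) (a b : σ) (j l : ι) : ℤ :=
  dj (D.N j) (D.N l) * (ta D.t D.k D.c a (D.N j ∪ D.N l) * ta D.t D.k D.c b (D.N j ∪ D.N l))

lemma E0_DT_AA_ll (h : D.Ok L) {a b : σ} (ha : a ∈ D.St) (hb : b ∈ D.St) (hab : a ≠ b)
    {j l : ι} (hj : j ∈ D.J) (hl : l ∈ D.J) :
    E0 (DT ℤ {a, b} D.t D.k D.c * (D.d0.A (Sum.inl j) * D.d0.A (Sum.inl l))) =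
      D.H j * D.H l * D.PP a b j l := by
  have e : DT ℤ {a, b} D.t D.k D.c * (D.d0.A (Sum.inl j) * D.d0.A (Sum.inl l)) =
      C (D.H j * D.H l) * (am (D.N j) * am (D.N l) * DT ℤ {a, b} D.t D.k D.c) := by
    rw [d0_A_l, d0_A_l, map_mul]
    ring
  rw [e, E0_C_mul]
  by_cases c1 : (D.N j).card = 1
  · rw [h.H0 j hj c1]
    ring
  by_cases c2 : (D.N l).card = 1
  · rw [h.H0 l hl c2]
    ring
  have hj2 : (D.N j).card = 2 := by
    have := h.one j hj
    have := h.two j hj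
    omega
  have hl2 : (D.N l).card = 2 := by
    have := h.one l hl
    have := h.two l hl
    omega
  congr 1
  rw [PP, dj]
  split_ifs with hd
  · rw [← am_union hd, mul_comm, E0_DT_am h.st (sub_two ha hb), card_union_of_disjoint hd, hj2,
      hl2, prod_pair hab]
    norm_num
  · rw [E0_am_mul_zero hd, zero_mul]

/-- two stars: two items -/
theorem part2A (h : D.Ok L) :
    2 * ∑ T ∈ D.St.powersetCard 2, E0 (DT ℤ T D.t D.k D.c *
      ∑ p ∈ (JT D.J D.St T).offDiag, D.d0.A p.1 * D.d0.A p.2) =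
    ∑ p ∈ D.St.offDiag, (∑ q ∈ D.J.offDiag, D.H q.1 * D.H q.2 * D.PP p.1 p.2 q.1 q.2 +
      2 * (D.bb p.1 p.2 * ∑ s ∈ D.St \ {p.1, p.2}, D.eta s)) := by
  rw [two_sum_powersetCard]
  apply sum_congr rfl
  intro p hp
  rw [mem_offDiag] at hp
  obtain ⟨ha, hb, hab⟩ := hp
  rw [E0_mul_sum, JT, sum_offDiag_disjSum D.J (D.St \ {p.1, p.2}) fun a b =>
      E0 (DT ℤ {p.1, p.2} D.t D.k D.c * (D.d0.A a * D.d0.A b))]
  have z2 : ∑ q ∈ (D.St \ {p.1, p.2}).offDiag, E0 (DT ℤ {p.1, p.2} D.t D.k D.c *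
      (D.d0.A (Sum.inr q.1) * D.d0.A (Sum.inr q.2))) = 0 := by
    apply Finset.sum_eq_zero
    intro q hq
    rw [mem_offDiag] at hq
    exact E0_DT_own_own h (sub_two ha hb) (insert_nonempty _ _) hq.1 hq.2.1 (d0A_mem _) (d0A_mem _)
  have z1 : ∑ j ∈ D.J, ∑ s ∈ D.St \ {p.1, p.2}, (E0 (DT ℤ {p.1, p.2} D.t D.k D.c *
      (D.d0.A (Sum.inl j) * D.d0.A (Sum.inr s))) + E0 (DT ℤ {p.1, p.2} D.t D.k D.c *
      (D.d0.A (Sum.inr s) * D.d0.A (Sum.inl j)))) =
      2 * (D.bb p.1 p.2 * ∑ s ∈ D.St \ {p.1, p.2}, D.eta s) := by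
    rw [bb, sum_mul, mul_sum]
    apply sum_congr rfl
    intro j hj
    rw [mul_sum, mul_sum]
    apply sum_congr rfl
    intro s hs
    rw [mem_sdiff, mem_insert, mem_singleton, not_or] at hs
    rw [mul_comm (D.d0.A (Sum.inl j)), E0_DT_AA_lr h ha hb hs.1 hab hs.2.1 hs.2.2 hj]
    ring
  rw [z1, z2, add_zero]
  congr 1
  apply sum_congr rfl
  intro q hq
  rw [mem_offDiag] at hq
  exact E0_DT_AA_ll h ha hb hab hq.1 hq.2.1

/-! ### the frames -/

/-- `w Z ^ 5` with one unit of energy at the vertex `y` of the star `s` -/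
noncomputable def f15 (D : SDat Y ι σ) (s : σ) (y : Y) : ℤ :=
  ∑ T ∈ (D.St.erase s).powersetCard 2,
      (∑ j ∈ D.J, E0 (DT ℤ T D.t D.k D.c * (D.frU s y * (D.d1 y).A (Sum.inl j))) +
        ∑ j ∈ D.J, E0 (DT ℤ T D.t D.k D.c * (D.frV s y * (D.d1 y).phi (Sum.inl j)))) +
    ∑ s' ∈ D.St.erase s, ∑ j ∈ D.J,
      E0 (Dg ℤ (D.t s') (D.k s') (D.c s') * (D.frV s y * (D.d1 y).A (Sum.inl j)))

/-- the sign of an item at the centre of a star with energy one -/
noncomputable def nu1 (t k c : σ → Y) (s : σ) (N : Finset Y) : ℤ :=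
  if t s ∈ N ∨ c s ∈ N then 0 else if k s ∈ N then 1 else -1

lemma d1A_memN (y : Y) (j : ι) : (D.d1 y).A (Sum.inl j) ∈ supported ℤ (D.N j : Set Y) :=
  mul_mem (C_mem _ _) (supported_mono (by exact_mod_cast erase_subset y (D.N j)) (am_mem _))

lemma d1phi_memN (y : Y) (j : ι) : (D.d1 y).phi (Sum.inl j) ∈ supported ℤ (D.N j : Set Y) := by
  show (if y ∈ D.N j then 1 else ph (D.N j)) ∈ _
  split_ifs
  · exact one_mem _
  · exact ph_mem _

/-- the terms with `U` vanish -/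
lemma sum_f15U (h : D.Ok L) {a b s : σ} (ha : a ∈ D.St) (hb : b ∈ D.St) (hs : s ∈ D.St)
    (hab : a ≠ b) (h1 : s ≠ a) (h2 : s ≠ b) {j : ι} (hj : j ∈ D.J) :
    ∑ y ∈ VS D.t D.k D.c s,
      E0 (DT ℤ {a, b} D.t D.k D.c * (D.frU s y * (D.d1 y).A (Sum.inl j))) = 0 := by
  by_cases hd : Disjoint (D.N j) (VS D.t D.k D.c s)
  · have e : ∀ y ∈ VS D.t D.k D.c s,
        E0 (DT ℤ {a, b} D.t D.k D.c * (D.frU s y * (D.d1 y).A (Sum.inl j))) =
        E0 (D.frU s y) * E0 (DT ℤ {a, b} D.t D.k D.c * D.d0.A (Sum.inl j)) := by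
      intro y hy
      have hy' : y ∉ D.N j := fun g => (Finset.disjoint_left.1 hd g) hy
      have e1 : (D.d1 y).A (Sum.inl j) = D.d0.A (Sum.inl j) := by
        show C (D.H j) * am ((D.N j).erase y) = C (D.H j) * am (D.N j)
        rw [erase_eq_of_notMem hy']
      rw [e1]
      exact E0_pair_mul h ha hb hs hab h1 h2 hd (frU_mem h hs y) (d0A_memN j)
    rw [sum_congr rfl e, ← sum_mul, sum_frU_one h hs, zero_mul]
  · apply Finset.sum_eq_zero
    intro y _
    exact E0_pair_zero h ha hb hs hab h1 h2 hj hd (frU_mem h hs y) (d1A_memN y j)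

lemma sum_frV_eq (h : D.Ok L) {s : σ} (hs : s ∈ D.St) (f : Y → MvPolynomial Y ℤ)
    (P : MvPolynomial Y ℤ) :
    ∑ y ∈ VS D.t D.k D.c s, E0 (P * (D.frV s y * f y)) =
      E0 (P * (D.frV s (D.k s) * f (D.k s))) := by
  rw [sum_VS h hs, frV_t h hs, frV_c h hs, zero_mul, zero_mul, mul_zero, map_zero, zero_add,
    add_zero]

lemma frV_k_am (h : D.Ok L) {s : σ} (hs : s ∈ D.St) : D.frV s (D.k s) = - am {D.t s, D.c s} := by
  rw [frV_k, am_pair (h.st.tc s hs)]

lemma E0_frV_k (h : D.Ok L) {s : σ} (hs : s ∈ D.St) : E0 (D.frV s (D.k s)) = -1 := by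
  rw [frV_k_am h hs, map_neg, E0_am, card_pair (h.st.tc s hs)]
  norm_num

/-- the terms with `V` and an item between two stars -/
lemma sum_f15V (h : D.Ok L) {a b s : σ} (ha : a ∈ D.St) (hb : b ∈ D.St) (hs : s ∈ D.St)
    (hab : a ≠ b) (h1 : s ≠ a) (h2 : s ≠ b) {j : ι} (hj : j ∈ D.J) :
    ∑ y ∈ VS D.t D.k D.c s,
      E0 (DT ℤ {a, b} D.t D.k D.c * (D.frV s y * (D.d1 y).phi (Sum.inl j))) = D.ab a b j := by
  rw [sum_frV_eq h hs]
  by_cases hd : Disjoint (D.N j) (VS D.t D.k D.c s)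
  · have hy' : D.k s ∉ D.N j := fun g => (Finset.disjoint_left.1 hd g) (VS_sub_k s)
    have e1 : (D.d1 (D.k s)).phi (Sum.inl j) = D.d0.phi (Sum.inl j) := by
      show (if D.k s ∈ D.N j then 1 else ph (D.N j)) = ph (D.N j)
      rw [if_neg hy']
    rw [e1, E0_pair_mul h ha hb hs hab h1 h2 hd (frV_mem s _) (d0phi_memN j), E0_frV_k h hs,
      E0_DT_phi h ha hb hab hj]
    ring
  · rw [E0_pair_zero h ha hb hs hab h1 h2 hj hd (frV_mem s _) (d1phi_memN _ j),
      ab_zero_of_pair (untouched_two h ha hb hs hab h1 h2 hj hd)]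

/-- the terms with `V` and an item at one star -/
lemma sum_f15W (h : D.Ok L) {s s' : σ} (hs : s ∈ D.St) (hs' : s' ∈ D.St) (hne : s ≠ s')
    {j : ι} (hj : j ∈ D.J) :
    ∑ y ∈ VS D.t D.k D.c s, E0 (Dg ℤ (D.t s') (D.k s') (D.c s') *
      (D.frV s y * (D.d1 y).A (Sum.inl j))) =
      D.H j * (nu1 D.t D.k D.c s (D.N j) * ta D.t D.k D.c s' (D.N j)) := by
  rw [sum_frV_eq h hs, frV_k_am h hs]
  have e1 : Dg ℤ (D.t s') (D.k s') (D.c s') *
      (- am {D.t s, D.c s} * (D.d1 (D.k s)).A (Sum.inl j)) =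
      C (- D.H j) * (am {D.t s, D.c s} * am ((D.N j).erase (D.k s)) *
        Dg ℤ (D.t s') (D.k s') (D.c s')) := by
    show Dg ℤ (D.t s') (D.k s') (D.c s') *
      (- am {D.t s, D.c s} * (C (D.H j) * am ((D.N j).erase (D.k s)))) = _
    rw [map_neg]
    ring
  rw [e1, E0_C_mul, nu1]
  by_cases c1 : (D.N j).card = 1
  · rw [h.H0 j hj c1]
    ring
  have hj2 : (D.N j).card = 2 := by
    have := h.one j hj
    have := h.two j hj
    omega
  have k1 := h.st.tk s hs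
  have k2 := h.st.kc s hs
  split_ifs with g1 g2
  · rw [E0_am_mul_zero]
    · ring
    · rw [Finset.not_disjoint_iff]
      rcases g1 with g1 | g1
      · exact ⟨D.t s, by simp, mem_erase.2 ⟨k1, g1⟩⟩
      · exact ⟨D.c s, by simp, mem_erase.2 ⟨k2.symm, g1⟩⟩
  all_goals
    rw [not_or] at g1
    have hd : Disjoint ({D.t s, D.c s} : Finset Y) ((D.N j).erase (D.k s)) := by
      rw [disjoint_insert_left, disjoint_singleton_left]
      exact ⟨fun g => g1.1 (mem_of_mem_erase g), fun g => g1.2 (mem_of_mem_erase g)⟩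
    have hds := h.st.disj hs hs' hne
    have et : ta D.t D.k D.c s' ({D.t s, D.c s} ∪ (D.N j).erase (D.k s)) =
        ta D.t D.k D.c s' (D.N j) := by
      have e : ∀ y ∈ VS D.t D.k D.c s', (y ∈ ({D.t s, D.c s} : Finset Y) ∪
          (D.N j).erase (D.k s) ↔ y ∈ D.N j) := by
        intro y hy
        have hy' : y ∉ VS D.t D.k D.c s := fun g => (Finset.disjoint_left.1 hds g) hy
        have y1 : y ≠ D.t s := fun g => hy' (g ▸ VS_sub_t s)
        have y2 : y ≠ D.c s := fun g => hy' (g ▸ VS_sub_c s)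
        have y3 : y ≠ D.k s := fun g => hy' (g ▸ VS_sub_k s)
        rw [mem_union, mem_insert, mem_singleton, mem_erase]
        tauto
      unfold ta dl
      simp only [e _ (VS_sub_t s'), e _ (VS_sub_k s'), e _ (VS_sub_c s')]
    rw [← am_union hd, mul_comm (am _), E0_Dg_am h.st hs', et, card_union_of_disjoint hd,
      card_pair (h.st.tc s hs)]
  · rw [card_erase_of_mem g2, hj2]
    ring
  · rw [erase_eq_of_notMem g2, hj2]
    ring

/-- **the frames** -/
theorem sum_f15 (h : D.Ok L) {s : σ} (hs : s ∈ D.St) :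
    2 * ∑ y ∈ VS D.t D.k D.c s, D.f15 s y =
      ∑ p ∈ (D.St \ {s}).offDiag, D.aa p.1 p.2 +
      2 * ∑ s' ∈ D.St \ {s}, ∑ j ∈ D.J,
        D.H j * (nu1 D.t D.k D.c s (D.N j) * ta D.t D.k D.c s' (D.N j)) := by
  unfold f15
  rw [sum_add_distrib, sum_comm (s := VS D.t D.k D.c s), sum_comm (s := VS D.t D.k D.c s),
    mul_add, sdiff_singleton_eq_erase, two_sum_powersetCard]
  congr 1
  · apply sum_congr rfl
    intro p hp
    rw [mem_offDiag, mem_erase, mem_erase] at hp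
    obtain ⟨⟨h1, ha⟩, ⟨h2, hb⟩, hab⟩ := hp
    rw [sum_add_distrib, sum_comm (s := VS D.t D.k D.c s), sum_comm (s := VS D.t D.k D.c s),
      sum_congr rfl fun j hj => sum_f15U h ha hb hs hab h1.symm h2.symm hj,
      sum_congr rfl fun j hj => sum_f15V h ha hb hs hab h1.symm h2.symm hj, sum_const_zero,
      zero_add, aa]
  · congr 1
    apply sum_congr rfl
    intro s' hs'
    rw [mem_erase] at hs'
    rw [sum_comm]
    exact sum_congr rfl fun j hj => sum_f15W h hs hs'.2 hs'.1.symm hj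

end SDat

end Pool.Gauss.TL
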