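import Pool.Agent.Work.MP_065141_co.K.SixD

/-!
# Disjoint stars: the local form of the coefficient of `w ^ 2 Z ^ 6`

`8 F64 = F32t ^ 2 + 4 (∑ bb) F21 - 4 ∑ y_s ^ 2 + 2 ∑ aa ^ 2 + 4 ∑ corrections`, with
`y_s = -1 + tau_s - ∑ aa_ss'`; the corrections are sums over ordered pairs of stars which are
joined by an item or by two meeting items with first order numbers.
-/

set_option autoImplicit false
set_option linter.unusedSectionVars false
open scoped Classical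
open Finset MvPolynomial

namespace Pool.Gauss.TL

variable {Y ι σ κ : Type}

/-! ### sums over stars -/

/-- a star and an ordered pair of other stars -/
lemma sum_star_pair (S : Finset σ) (F : σ → σ → σ → ℤ) :
    ∑ s ∈ S, ∑ p ∈ (S \ {s}).offDiag, F s p.1 p.2 =
      ∑ p ∈ S.offDiag, ∑ s ∈ S \ {p.1, p.2}, F s p.1 p.2 := by
  apply Finset.sum_comm'
  intro s p
  rw [mem_offDiag, mem_offDiag, mem_sdiff, mem_sdiff, mem_sdiff, mem_singleton, mem_singleton,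
    mem_insert, mem_singleton]
  constructor
  · rintro ⟨h1, ⟨h2, h3⟩, ⟨h4, h5⟩, h6⟩
    exact ⟨⟨h1, fun h => h.elim (fun e => h3 e.symm) (fun e => h5 e.symm)⟩, h2, h4, h6⟩
  · rintro ⟨⟨h1, h3⟩, h2, h4, h6⟩
    exact ⟨h1, ⟨h2, fun e => h3 (Or.inl e.symm)⟩, ⟨h4, fun e => h3 (Or.inr e.symm)⟩, h6⟩

/-- a sum over the other stars -/
lemma sum_others (S : Finset σ) {a b : σ} (ha : a ∈ S) (hb : b ∈ S) (hab : a ≠ b) (g : σ → ℤ) :
    ∑ s ∈ S \ {a, b}, g s = ∑ s ∈ S, g s - g a - g b := by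
  have h1 : ({a, b} : Finset σ) ⊆ S := by
    intro x hx
    rw [mem_insert, mem_singleton] at hx
    rcases hx with rfl | rfl <;> assumption
  have := sum_sdiff (f := g) h1
  rw [sum_pair hab] at this
  linarith

/-- pairs disjoint from a pair -/
lemma sum_pairs_others (S : Finset σ) (f : σ → σ → ℤ) (hf : ∀ x y, f x y = f y x) {a b : σ}
    (ha : a ∈ S) (hb : b ∈ S) (hab : a ≠ b) :
    ∑ q ∈ (S \ {a, b}).offDiag, f q.1 q.2 = ∑ q ∈ S.offDiag, f q.1 q.2 -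
      2 * ∑ x ∈ S \ {a}, f a x - 2 * ∑ x ∈ S \ {b}, f b x + 2 * f a b := by
  rw [sum_offDiag_eq (S \ {a, b}), sum_offDiag_eq S]
  have e1 : ∀ x, ∑ y ∈ S \ {a, b}, f x y = ∑ y ∈ S, f x y - f x a - f x b := fun x =>
    sum_others S ha hb hab (f x)
  rw [sum_congr rfl fun x _ => e1 x, sum_others S ha hb hab fun x => ∑ y ∈ S, f x y - f x a - f x b,
    sum_others S ha hb hab fun x => f x x]
  simp only [sum_sub_distrib]
  have e2 : ∀ z, ∑ x ∈ S, f x z = ∑ x ∈ S, f z x := fun z => sum_congr rfl fun x _ => hf x z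
  have e3 : ∀ z ∈ S, ∑ x ∈ S \ {z}, f z x = ∑ x ∈ S, f z x - f z z := by
    intro z hz
    have := sum_sdiff (f := f z) (singleton_subset_iff.2 hz)
    rw [sum_singleton] at this
    linarith
  rw [e2 a, e2 b, e3 a ha, e3 b hb, hf b a]
  ring

/-- a sum over pairs of a function of the first star -/
lemma sum_offDiag_left (S : Finset σ) (f : σ → σ → ℤ) (g : σ → ℤ) :
    ∑ p ∈ S.offDiag, f p.1 p.2 * g p.1 = ∑ s ∈ S, (∑ x ∈ S \ {s}, f s x) * g s := by
  rw [sum_offDiag_fst S fun a b => f a b * g a]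
  exact sum_congr rfl fun s _ => by rw [sum_mul]

lemma sum_offDiag_right (S : Finset σ) (f : σ → σ → ℤ) (hf : ∀ x y, f x y = f y x) (g : σ → ℤ) :
    ∑ p ∈ S.offDiag, f p.1 p.2 * g p.2 = ∑ s ∈ S, (∑ x ∈ S \ {s}, f s x) * g s := by
  rw [sum_offDiag_swap S fun a b => f a b * g b, ← sum_offDiag_left]
  exact sum_congr rfl fun p _ => by rw [hf]

lemma sum_offDiag_const (S : Finset σ) (z : ℤ) :
    ∑ _p ∈ S.offDiag, z = ((S.card : ℤ) ^ 2 - S.card) * z := by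
  rw [sum_offDiag_eq S fun _ _ => z]
  simp only [sum_const, nsmul_eq_mul]
  ring

namespace SDat

variable {D : SDat Y ι σ} {L : Finset Y}

/-! ### definitions -/

/-- `0` if the centre of the star is in the item -/
noncomputable def kap (D : SDat Y ι σ) (s : σ) (g : Finset Y) : ℤ := if D.k s ∈ g then 0 else 1

/-- the item `j` at the star `a` and the item `l` at the star `b` do not disturb each other -/
noncomputable def ch1 (D : SDat Y ι σ) (a b : σ) (j l : ι) : ℤ :=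
  if j = l then 0 else dj (D.N j) (D.N l) * (D.kap a (D.N l) * D.kap b (D.N j))

/-- the item `l` does not disturb the item `j` between the stars `a`, `b` -/
noncomputable def ch2 (D : SDat Y ι σ) (a b : σ) (j l : ι) : ℤ :=
  if j = l then 0 else dj (D.N j) (D.N l) * (D.kap a (D.N l) * D.kap b (D.N l))

/-- two items with first order numbers which disturb each other at two stars -/
noncomputable def co1 (D : SDat Y ι σ) (a b : σ) : ℤ :=
  - ∑ j ∈ D.J, ∑ l ∈ D.J, D.H j * D.H l * (ta D.t D.k D.c a (D.N j) * ta D.t D.k D.c b (D.N l)) *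
    (1 - D.ch1 a b j l)

/-- an item between two stars and the first order numbers near it -/
noncomputable def co2 (D : SDat Y ι σ) (a b : σ) : ℤ :=
  - ∑ j ∈ D.J, ∑ l ∈ D.J, D.H j * D.ab a b j * D.H l * (1 - D.ch2 a b j l) -
    D.bb a b * (D.eta a + D.eta b)

/-- an item with first order number between two stars and the other items -/
noncomputable def co3 (D : SDat Y ι σ) (a b : σ) : ℤ :=
  D.bb a b * (- D.LL a - D.LL b + ∑ s ∈ D.St \ {a, b}, (D.LX s a b - D.LL s))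

/-- items between two stars and items at a third star which meet the two stars -/
noncomputable def co4 (D : SDat Y ι σ) (a b : σ) : ℤ :=
  D.aa a b * ∑ s ∈ D.St \ {a, b}, (D.tau s - D.tX s a b)

/-- items which join two stars, one end at `t` or `c` of the second star -/
noncomputable def co5 (D : SDat Y ι σ) (a b : σ) : ℤ :=
  2 * ∑ j ∈ D.J, D.H j * ((1 + nu1 D.t D.k D.c a (D.N j)) * ta D.t D.k D.c b (D.N j))

/-- `-1 + tau - ∑ aa` -/
noncomputable def ys (D : SDat Y ι σ) (s : σ) : ℤ :=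
  - 1 + D.tau s - ∑ x ∈ D.St \ {s}, D.aa s x

/-- the local form of the coefficient of `w ^ 2 Z ^ 6`, without the objects -/
noncomputable def loc6 (D : SDat Y ι σ) : ℤ :=
  - 4 * ∑ s ∈ D.St, D.ys s ^ 2 + 2 * ∑ p ∈ D.St.offDiag, D.aa p.1 p.2 ^ 2 +
    4 * ∑ p ∈ D.St.offDiag, (D.co1 p.1 p.2 + D.co2 p.1 p.2 + D.co3 p.1 p.2 + D.co4 p.1 p.2 +
      D.co5 p.1 p.2)

/-- twice the coefficient of `w ^ 2 Z ^ 6` of the products (at energy zero) -/
noncomputable def a26 (D : SDat Y ι σ) : ℤ :=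
  ∑ T ∈ D.St.powersetCard 2, E0 (DT ℤ T D.t D.k D.c * ∑ p ∈ (JT D.J D.St T).offDiag,
    D.d0.A p.1 * D.d0.A p.2) +
  ∑ T ∈ D.St.powersetCard 3, E0 (DT ℤ T D.t D.k D.c * ∑ p ∈ (JT D.J D.St T).offDiag,
    (D.d0.phi p.1 * D.d0.A p.2 + D.d0.A p.1 * D.d0.phi p.2)) +
  ∑ T ∈ D.St.powersetCard 4, E0 (DT ℤ T D.t D.k D.c * ∑ p ∈ (JT D.J D.St T).offDiag,
    D.d0.phi p.1 * D.d0.phi p.2)

/-- twice the coefficient of `w ^ 2 Z ^ 6` of the products, with energies on the row -/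
noncomputable def R26 (D : SDat Y ι σ) : ℤ :=
  D.a26 + 2 * ∑ s ∈ D.St, ∑ y ∈ VS D.t D.k D.c s, D.f15 s y +
    ((D.St.card : ℤ) ^ 2 - D.St.card)

lemma aa_comm (a b : σ) : D.aa a b = D.aa b a := by
  unfold aa ab
  exact sum_congr rfl fun j _ => mul_comm _ _

lemma bb_comm (a b : σ) : D.bb a b = D.bb b a := by
  unfold bb ab
  exact sum_congr rfl fun j _ => by ring

/-! ### two items -/

lemma ta_union {t k c : σ → Y} {s : σ} {g g' : Finset Y} (h : Disjoint g g') :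
    ta t k c s (g ∪ g') = (if k s ∈ g' then 0 else 1) * ta t k c s g +
      (if k s ∈ g then 0 else 1) * ta t k c s g' := by
  have ht : ¬ (t s ∈ g ∧ t s ∈ g') := fun e => (Finset.disjoint_left.1 h e.1) e.2
  have hc : ¬ (c s ∈ g ∧ c s ∈ g') := fun e => (Finset.disjoint_left.1 h e.1) e.2
  unfold ta dl
  simp only [mem_union]
  by_cases h1 : k s ∈ g <;> by_cases h2 : k s ∈ g' <;> by_cases h3 : t s ∈ g <;>
    by_cases h4 : t s ∈ g' <;> by_cases h5 : c s ∈ g <;> by_cases h6 : c s ∈ g' <;>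
    simp [h1, h2, h3, h4, h5, h6] <;> tauto

/-- the value of two items in terms of the single items -/
lemma PP_eq (a b : σ) (j l : ι) : D.PP a b j l = dj (D.N j) (D.N l) *
    (D.kap a (D.N l) * D.kap b (D.N l) * (ta D.t D.k D.c a (D.N j) * ta D.t D.k D.c b (D.N j)) +
     D.kap a (D.N j) * D.kap b (D.N j) * (ta D.t D.k D.c a (D.N l) * ta D.t D.k D.c b (D.N l)) +
     D.kap a (D.N l) * D.kap b (D.N j) * (ta D.t D.k D.c a (D.N j) * ta D.t D.k D.c b (D.N l)) +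
     D.kap b (D.N l) * D.kap a (D.N j) * (ta D.t D.k D.c b (D.N j) *
      ta D.t D.k D.c a (D.N l))) := by
  unfold PP dj
  split_ifs with h
  · rw [ta_union h, ta_union h]
    unfold kap
    ring
  · ring

lemma H_ta_ta (h : D.Ok L) {a b : σ} (ha : a ∈ D.St) (hb : b ∈ D.St) (hab : a ≠ b) {j : ι}
    (hj : j ∈ D.J) : D.H j * (ta D.t D.k D.c a (D.N j) * ta D.t D.k D.c b (D.N j)) =
      D.H j * D.ab a b j := by
  by_cases c1 : (D.N j).card = 1
  · rw [h.H0 j hj c1]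
    ring
  have hj2 : (D.N j).card = 2 := by
    have := h.one j hj
    have := h.two j hj
    omega
  have := ta_ta h.st ha hb hab (g := D.N j) (by omega)
  rw [hj2] at this
  rw [ab]
  linear_combination D.H j * this

lemma dj_comm (U V : Finset Y) : dj U V = dj V U := by
  unfold dj
  simp only [disjoint_comm]

/-- the sum over the ordered pairs of stars and of items -/
lemma sum_PP (h : D.Ok L) :
    ∑ p ∈ D.St.offDiag, ∑ q ∈ D.J.offDiag, D.H q.1 * D.H q.2 * D.PP p.1 p.2 q.1 q.2 =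
      2 * ∑ p ∈ D.St.offDiag, (D.tau p.1 * D.tau p.2 + D.bb p.1 p.2 * ∑ j ∈ D.J, D.H j +
        D.co1 p.1 p.2 - ∑ j ∈ D.J, ∑ l ∈ D.J, D.H j * D.ab p.1 p.2 j * D.H l *
          (1 - D.ch2 p.1 p.2 j l)) := by
  -- one pair of stars
  set A : σ → σ → ℤ := fun a b => ∑ q ∈ D.J.offDiag, D.H q.1 * D.H q.2 *
    (dj (D.N q.1) (D.N q.2) * (D.kap a (D.N q.2) * D.kap b (D.N q.2)) * D.ab a b q.1) with hA
  set B : σ → σ → ℤ := fun a b => ∑ q ∈ D.J.offDiag, D.H q.1 * D.H q.2 *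
    (dj (D.N q.1) (D.N q.2) * (D.kap a (D.N q.2) * D.kap b (D.N q.1)) *
      (ta D.t D.k D.c a (D.N q.1) * ta D.t D.k D.c b (D.N q.2))) with hB
  have e1 : ∀ p ∈ D.St.offDiag, ∑ q ∈ D.J.offDiag, D.H q.1 * D.H q.2 * D.PP p.1 p.2 q.1 q.2 =
      2 * A p.1 p.2 + B p.1 p.2 + B p.2 p.1 := by
    intro p hp
    rw [mem_offDiag] at hp
    obtain ⟨ha, hb, hab⟩ := hp
    have f1 : 2 * A p.1 p.2 = A p.1 p.2 + ∑ q ∈ D.J.offDiag, D.H q.2 * D.H q.1 *
        (dj (D.N q.2) (D.N q.1) * (D.kap p.1 (D.N q.1) * D.kap p.2 (D.N q.1)) *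
          D.ab p.1 p.2 q.2) := by
      rw [two_mul]
      congr 1
      exact sum_offDiag_swap D.J fun j l => D.H j * D.H l *
        (dj (D.N j) (D.N l) * (D.kap p.1 (D.N l) * D.kap p.2 (D.N l)) * D.ab p.1 p.2 j)
    rw [f1, hA, hB]
    simp only
    rw [← sum_add_distrib, ← sum_add_distrib, ← sum_add_distrib]
    apply sum_congr rfl
    intro q hq
    rw [mem_offDiag] at hq
    have g1 := H_ta_ta h ha hb hab hq.1
    have g2 := H_ta_ta h ha hb hab hq.2.1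
    rw [PP_eq, dj_comm (D.N q.2) (D.N q.1)]
    linear_combination (D.H q.2 * (dj (D.N q.1) (D.N q.2) * (D.kap p.1 (D.N q.2) *
      D.kap p.2 (D.N q.2)))) * g1 + (D.H q.1 * (dj (D.N q.1) (D.N q.2) * (D.kap p.1 (D.N q.1) *
      D.kap p.2 (D.N q.1)))) * g2
  have e2 : ∀ p ∈ D.St.offDiag, A p.1 p.2 = D.bb p.1 p.2 * ∑ j ∈ D.J, D.H j -
      ∑ j ∈ D.J, ∑ l ∈ D.J, D.H j * D.ab p.1 p.2 j * D.H l * (1 - D.ch2 p.1 p.2 j l) := by
    intro p _
    have f1 : A p.1 p.2 = ∑ j ∈ D.J, ∑ l ∈ D.J, D.H j * D.ab p.1 p.2 j * D.H l *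
        D.ch2 p.1 p.2 j l := by
      rw [← sum_offDiag_full D.J fun j l => D.H j * D.ab p.1 p.2 j * D.H l * D.ch2 p.1 p.2 j l]
      · rw [hA]
        apply sum_congr rfl
        intro q hq
        rw [mem_offDiag] at hq
        rw [ch2, if_neg hq.2.2]
        ring
      · intro j _
        rw [ch2, if_pos rfl, mul_zero]
    rw [f1, bb, sum_mul, ← sum_sub_distrib]
    apply sum_congr rfl
    intro j _
    rw [mul_sum, ← sum_sub_distrib]
    exact sum_congr rfl fun l _ => by ring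
  have e3 : ∀ p ∈ D.St.offDiag, B p.1 p.2 = D.tau p.1 * D.tau p.2 + D.co1 p.1 p.2 := by
    intro p _
    have f1 : B p.1 p.2 = ∑ j ∈ D.J, ∑ l ∈ D.J, D.H j * D.H l *
        (ta D.t D.k D.c p.1 (D.N j) * ta D.t D.k D.c p.2 (D.N l)) * D.ch1 p.1 p.2 j l := by
      rw [← sum_offDiag_full D.J fun j l => D.H j * D.H l *
        (ta D.t D.k D.c p.1 (D.N j) * ta D.t D.k D.c p.2 (D.N l)) * D.ch1 p.1 p.2 j l]
      · rw [hB]
        apply sum_congr rfl
        intro q hq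
        rw [mem_offDiag] at hq
        rw [ch1, if_neg hq.2.2]
        ring
      · intro j _
        rw [ch1, if_pos rfl, mul_zero]
    rw [f1, tau, tau, co1, sum_mul_sum, ← sub_eq_add_neg, ← sum_sub_distrib]
    apply sum_congr rfl
    intro j _
    rw [← sum_sub_distrib]
    exact sum_congr rfl fun l _ => by ring
  have e4 : ∑ p ∈ D.St.offDiag, B p.2 p.1 = ∑ p ∈ D.St.offDiag, B p.1 p.2 :=
    (sum_offDiag_swap D.St B).symm
  rw [sum_congr rfl e1, sum_add_distrib, sum_add_distrib, e4, ← mul_sum, sum_congr rfl e2,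
    sum_congr rfl e3]
  simp only [sum_add_distrib, sum_sub_distrib]
  ring

/-! ### the local form -/

/-- **the local form of the coefficient of `w² Z⁶`** -/
theorem R26_eq (h : D.Ok L) :
    4 * D.R26 = D.F32t ^ 2 + 4 * ((∑ p ∈ D.St.offDiag, D.bb p.1 p.2) * D.F21) + D.loc6 := by
  have p2 := part2A h
  have p3 := part3 h
  have p4 := part4 h
  have pf : 2 * ∑ s ∈ D.St, ∑ y ∈ VS D.t D.k D.c s, D.f15 s y =
      ∑ s ∈ D.St, (∑ p ∈ (D.St \ {s}).offDiag, D.aa p.1 p.2 +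
      2 * ∑ s' ∈ D.St \ {s}, ∑ j ∈ D.J,
        D.H j * (nu1 D.t D.k D.c s (D.N j) * ta D.t D.k D.c s' (D.N j))) := by
    rw [mul_sum]
    exact sum_congr rfl fun s hs => sum_f15 h hs
  set al : σ → ℤ := fun s => ∑ x ∈ D.St \ {s}, D.aa s x with hal
  set AA := ∑ p ∈ D.St.offDiag, D.aa p.1 p.2 with hAA
  set BB := ∑ p ∈ D.St.offDiag, D.bb p.1 p.2 with hBB
  set Ta := ∑ s ∈ D.St, D.tau s with hTa
  set HH := ∑ j ∈ D.J, D.H j with hHH
  have sal : ∑ s ∈ D.St, al s = AA := by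
    rw [hAA, sum_offDiag_fst D.St D.aa]
  -- four stars
  have q4 : ∑ p ∈ D.St.offDiag, ∑ q ∈ (D.St \ {p.1, p.2}).offDiag, D.aa p.1 p.2 * D.aa q.1 q.2 =
      AA ^ 2 - 4 * ∑ s ∈ D.St, al s ^ 2 + 2 * ∑ p ∈ D.St.offDiag, D.aa p.1 p.2 ^ 2 := by
    have f1 : ∀ p ∈ D.St.offDiag, ∑ q ∈ (D.St \ {p.1, p.2}).offDiag, D.aa p.1 p.2 * D.aa q.1 q.2 =
        D.aa p.1 p.2 * AA - 2 * (D.aa p.1 p.2 * al p.1) - 2 * (D.aa p.1 p.2 * al p.2) +
        2 * D.aa p.1 p.2 ^ 2 := by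
      intro p hp
      rw [mem_offDiag] at hp
      rw [← mul_sum, sum_pairs_others D.St D.aa aa_comm hp.1 hp.2.1 hp.2.2]
      ring
    rw [sum_congr rfl f1]
    simp only [sum_add_distrib, sum_sub_distrib, ← mul_sum, ← sum_mul]
    rw [sum_offDiag_left D.St D.aa al, sum_offDiag_right D.St D.aa aa_comm al]
    have f2 : ∑ s ∈ D.St, (∑ x ∈ D.St \ {s}, D.aa s x) * al s = ∑ s ∈ D.St, al s ^ 2 :=
      sum_congr rfl fun s _ => by rw [hal]; ring
    rw [f2]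
    ring
  -- three stars
  have q3 : ∑ s ∈ D.St, ∑ p ∈ (D.St \ {s}).offDiag,
      (D.LX s p.1 p.2 * D.bb p.1 p.2 - D.aa p.1 p.2 * D.tX s p.1 p.2) =
      BB * ∑ s ∈ D.St, D.LL s + ∑ p ∈ D.St.offDiag, D.co3 p.1 p.2 -
      AA * Ta + 2 * ∑ s ∈ D.St, al s * D.tau s + ∑ p ∈ D.St.offDiag, D.co4 p.1 p.2 := by
    rw [sum_star_pair D.St fun s a b => D.LX s a b * D.bb a b - D.aa a b * D.tX s a b]
    have f1 : ∀ p ∈ D.St.offDiag, ∑ s ∈ D.St \ {p.1, p.2},
        (D.LX s p.1 p.2 * D.bb p.1 p.2 - D.aa p.1 p.2 * D.tX s p.1 p.2) =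
        D.bb p.1 p.2 * (∑ s ∈ D.St, D.LL s) + D.co3 p.1 p.2 - D.aa p.1 p.2 * Ta +
        D.aa p.1 p.2 * D.tau p.1 + D.aa p.1 p.2 * D.tau p.2 + D.co4 p.1 p.2 := by
      intro p hp
      rw [mem_offDiag] at hp
      have g1 := sum_others D.St hp.1 hp.2.1 hp.2.2 D.LL
      have g2 := sum_others D.St hp.1 hp.2.1 hp.2.2 D.tau
      rw [co3, co4, sum_sub_distrib, sum_sub_distrib, sum_sub_distrib, ← sum_mul, ← mul_sum, g1,
        g2]
      ring
    rw [sum_congr rfl f1]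
    simp only [sum_add_distrib, sum_sub_distrib, ← sum_mul]
    rw [sum_offDiag_left D.St D.aa D.tau, sum_offDiag_right D.St D.aa aa_comm D.tau]
    have f2 : ∑ s ∈ D.St, (∑ x ∈ D.St \ {s}, D.aa s x) * D.tau s =
        ∑ s ∈ D.St, al s * D.tau s := rfl
    rw [f2]
    ring
  -- two stars
  have q2 : ∑ p ∈ D.St.offDiag, (∑ q ∈ D.J.offDiag, D.H q.1 * D.H q.2 *
      D.PP p.1 p.2 q.1 q.2 + 2 * (D.bb p.1 p.2 * ∑ s ∈ D.St \ {p.1, p.2}, D.eta s)) =
      2 * (Ta ^ 2 - ∑ s ∈ D.St, D.tau s ^ 2 + BB * HH + ∑ p ∈ D.St.offDiag, D.co1 p.1 p.2 +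
        ∑ p ∈ D.St.offDiag, D.co2 p.1 p.2 + BB * ∑ s ∈ D.St, D.eta s) := by
    rw [sum_add_distrib, sum_PP h, ← mul_sum, ← mul_add]
    congr 1
    have f1 := sum_offDiag_mul D.St D.tau D.tau
    have f2 : ∑ s ∈ D.St, D.tau s * D.tau s = ∑ s ∈ D.St, D.tau s ^ 2 :=
      sum_congr rfl fun s _ => by ring
    have f3 : ∀ p ∈ D.St.offDiag, D.bb p.1 p.2 * ∑ s ∈ D.St \ {p.1, p.2}, D.eta s =
        D.bb p.1 p.2 * (∑ s ∈ D.St, D.eta s) - D.bb p.1 p.2 * (D.eta p.1 + D.eta p.2) := by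
      intro p hp
      rw [mem_offDiag] at hp
      rw [sum_others D.St hp.1 hp.2.1 hp.2.2]
      ring
    rw [sum_congr rfl f3]
    simp only [co2, sum_add_distrib, sum_sub_distrib, sum_neg_distrib, ← sum_mul]
    rw [f1, f2]
    ring
  -- the frames
  have qf : ∑ s ∈ D.St, (∑ p ∈ (D.St \ {s}).offDiag, D.aa p.1 p.2 +
      2 * ∑ s' ∈ D.St \ {s}, ∑ j ∈ D.J,
        D.H j * (nu1 D.t D.k D.c s (D.N j) * ta D.t D.k D.c s' (D.N j))) =
      ((D.St.card : ℤ) - 2) * AA - 2 * ((D.St.card : ℤ) - 1) * Ta + ∑ p ∈ D.St.offDiag, D.co5 p.1 p.2 := by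
    rw [sum_add_distrib, sum_star_pair D.St fun _ a b => D.aa a b]
    have f1 : ∀ p ∈ D.St.offDiag, ∑ s ∈ D.St \ {p.1, p.2}, D.aa p.1 p.2 =
        ((D.St.card : ℤ) - 2) * D.aa p.1 p.2 := by
      intro p hp
      rw [mem_offDiag] at hp
      rw [sum_others D.St hp.1 hp.2.1 hp.2.2, sum_const, nsmul_eq_mul]
      ring
    have f2 : ∑ s ∈ D.St, 2 * ∑ s' ∈ D.St \ {s}, ∑ j ∈ D.J,
        D.H j * (nu1 D.t D.k D.c s (D.N j) * ta D.t D.k D.c s' (D.N j)) =
        ∑ p ∈ D.St.offDiag, (D.co5 p.1 p.2 - 2 * D.tau p.2) := by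
      rw [sum_offDiag_fst D.St fun a b => D.co5 a b - 2 * D.tau b]
      apply sum_congr rfl
      intro s _
      rw [mul_sum]
      apply sum_congr rfl
      intro s' _
      rw [co5, tau, ← mul_sub, ← sum_sub_distrib]
      congr 1
      exact sum_congr rfl fun j _ => by ring
    have f3 : ∑ p ∈ D.St.offDiag, D.tau p.2 = ((D.St.card : ℤ) - 1) * Ta := by
      rw [sum_offDiag_eq D.St fun _ b => D.tau b, sum_const, nsmul_eq_mul]
      ring
    rw [sum_congr rfl f1, f2, sum_sub_distrib, ← mul_sum, ← mul_sum, f3]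
    ring
  -- the squares
  have qy : ∑ s ∈ D.St, D.ys s ^ 2 = (D.St.card : ℤ) + ∑ s ∈ D.St, D.tau s ^ 2 + ∑ s ∈ D.St, al s ^ 2 -
      2 * Ta + 2 * AA - 2 * ∑ s ∈ D.St, al s * D.tau s := by
    have f1 : ∀ s ∈ D.St, D.ys s ^ 2 = 1 + D.tau s ^ 2 + al s ^ 2 - 2 * D.tau s + 2 * al s -
        2 * (al s * D.tau s) := by
      intro s _
      rw [ys, hal]
      ring
    rw [sum_congr rfl f1]
    simp only [sum_add_distrib, sum_sub_distrib, ← mul_sum, sum_const, nsmul_eq_mul]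
    rw [sal]
    ring
  have e21 : D.F21 = ∑ s ∈ D.St, D.LL s + HH + ∑ s ∈ D.St, D.eta s := by
    rw [F21]
    ring
  have e32 : D.F32t = - AA + 2 * Ta - 2 * (D.St.card : ℤ) := by
    rw [F32t]
  have es : ∑ p ∈ D.St.offDiag, (D.co1 p.1 p.2 + D.co2 p.1 p.2 + D.co3 p.1 p.2 +
      D.co4 p.1 p.2 + D.co5 p.1 p.2) = ∑ p ∈ D.St.offDiag, D.co1 p.1 p.2 +
      ∑ p ∈ D.St.offDiag, D.co2 p.1 p.2 + ∑ p ∈ D.St.offDiag, D.co3 p.1 p.2 +
      ∑ p ∈ D.St.offDiag, D.co4 p.1 p.2 + ∑ p ∈ D.St.offDiag, D.co5 p.1 p.2 := by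
    simp only [sum_add_distrib]
  rw [R26, a26, loc6, e21, e32, qy, es]
  rw [q2] at p2
  rw [q3] at p3
  rw [q4] at p4
  rw [qf] at pf
  linear_combination 2 * p2 + 4 * p3 + p4 + 4 * pf

end SDat

end Pool.Gauss.TL
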