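import Pool.Agent.Work.MP_065141_co.K.StarConst

/-!
# Regions of stars: the coefficients of the objects over three vertices
-/

set_option autoImplicit false
set_option linter.unusedSectionVars false
set_option linter.unusedVariables false
open scoped Classical
open Finset Polynomial

namespace Pool.Gauss

variable {α : Type} [Fintype α] [PartialOrder α] {i : ℕ}

/-- the sign of a side as an integer -/
noncomputable def sgZ (i : ℕ) (u : α) : ℤ := if corank u < i then -1 else 1

lemma cc_sgn (u : α) : cc (sgn i u) = C (sgZ i u) := by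
  unfold sgn sgZ
  split_ifs
  · rw [map_neg, map_one, map_neg, map_one]
  · rw [map_one, map_one]

lemma cf_w2 (j : ℕ) (f : AA) : TL.cf 2 j (wA ^ 2 * f) = (cc f).coeff j := by
  rw [TL.cf_apply, wA, PowerSeries.coeff_X_pow_mul' f 2 2, if_pos le_rfl, Nat.sub_self,
    PowerSeries.coeff_zero_eq_constantCoeff]

lemma coeff_prod_one_add {κ : Type} (S : Finset κ) (a : κ → ℤ) :
    (∏ s ∈ S, (1 + X * C (a s)) : ℤ[X]).coeff 0 = 1 ∧
      (∏ s ∈ S, (1 + X * C (a s)) : ℤ[X]).coeff 1 = ∑ s ∈ S, a s := by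
  induction S using Finset.induction_on with
  | empty => simp [Polynomial.coeff_one]
  | insert s S hs ih =>
    obtain ⟨h0, h1⟩ := ih
    rw [prod_insert hs, sum_insert hs]
    have e : (1 + X * C (a s) : ℤ[X]) * ∏ r ∈ S, (1 + X * C (a r)) =
        ∏ r ∈ S, (1 + X * C (a r)) + X * (C (a s) * ∏ r ∈ S, (1 + X * C (a r))) := by ring
    rw [e]
    constructor
    · rw [Polynomial.coeff_add, h0, Polynomial.coeff_X_mul_zero, add_zero]
    · rw [Polynomial.coeff_add, h1, Polynomial.coeff_X_mul, Polynomial.coeff_C_mul, h0]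
      ring

/-- the constant coefficient of frozen variables times factors next to level `i` -/
lemma coeff_zero_rest (hg : Grad α) (hl : HasLower α i) (hdeg : ∀ p : α, (bd i p).card ≤ 2)
    {S : Finset α} (hS : S ⊆ N1 α i) (κ : α → ℕ) (B : Finset α) :
    (cc (Ev wA ((∏ y ∈ B, MvPolynomial.X y) * ∏ p ∈ S, GA i κ p))).coeff 0 = (-1) ^ B.card := by
  rw [cc_Ev, Polynomial.coeff_zero_eq_eval_zero]
  have h1 := map_Ev (Polynomial.evalRingHom (0 : ℤ)) (0 : ℤ[X])
    (mc ((∏ y ∈ B, MvPolynomial.X y) * ∏ p ∈ S, GA i κ p))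
  rw [Polynomial.coe_evalRingHom] at h1
  rw [h1, Polynomial.eval_zero]
  have h2 : MvPolynomial.map (Polynomial.evalRingHom (0 : ℤ))
      (mc ((∏ y ∈ B, MvPolynomial.X y) * ∏ p ∈ S, GA i κ p)) =
      ∏ y ∈ B, MvPolynomial.X y := by
    rw [map_mul, map_mul, map_prod, map_prod, map_prod, map_prod]
    have g1 : ∏ p ∈ S, MvPolynomial.map (Polynomial.evalRingHom (0 : ℤ)) (mc (GA i κ p)) = 1 := by
      apply Finset.prod_eq_one
      intro p hp
      have hp1 := mem_N1.1 (hS hp)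
      rw [mc_GA hg hl hp1 (hdeg p)]
      split_ifs
      · rw [map_add, map_one, map_mul, MvPolynomial.map_C]
        simp
      · rw [add_zero, map_one]
    rw [g1, mul_one]
    apply prod_congr rfl
    intro y _
    rw [MvPolynomial.map_X, MvPolynomial.map_X]
  rw [h2, Ev_prod_X, zero_sub]

section U3

variable {m : Mat α i} {St : Finset (α × α)} {t k c : α × α → α}

lemma mem_U3 {u : α} : u ∈ U3 α i ↔ (ds i u = 2 ∧ (bd i u).card = 2) ∧ (BB i u).card = 3 := by
  unfold U3
  rw [mem_filter, mem_U2]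

/-- the objects over three vertices at `w = 0` -/
theorem cc_U3 (hg : Grad α) (hl : HasLower α i) (hdeg : ∀ p : α, (bd i p).card ≤ 2)
    (hS : StarCfg m St t k c) {u : α} (hu : u ∈ U3 α i) :
    cc (Ev wA ((∏ y ∈ BB i u, MvPolynomial.X y) * rsK i 0 u)) =
      - ∏ s ∈ St, (1 + X * C (TL.ta t k c s (BB i u))) := by
  rw [mem_U3] at hu
  have h := cc_rest hg hl hdeg hS (A := bd i u) (B := BB i u) (bd_subset_N1 hg hu.1.1)
    (fun p hp => Finset.subset_biUnion_of_mem (bd i) hp)
  rw [hu.2] at h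
  unfold rsK
  rw [h]
  ring

/-- **the coefficients of the objects over three vertices** -/
theorem cf_U3 (hg : Grad α) (hl : HasLower α i) (hdeg : ∀ p : α, (bd i p).card ≤ 2)
    (hS : StarCfg m St t k c) :
    TL.cf 2 3 (wA ^ 2 * ∑ u ∈ U3 α i, (sgn i u * ZA ^ 3 + ZA ^ 4) *
        Ev wA ((∏ y ∈ BB i u, MvPolynomial.X y) * rsK i 0 u)) = - ∑ u ∈ U3 α i, sgZ i u ∧
    TL.cf 2 4 (wA ^ 2 * ∑ u ∈ U3 α i, (sgn i u * ZA ^ 3 + ZA ^ 4) *
        Ev wA ((∏ y ∈ BB i u, MvPolynomial.X y) * rsK i 0 u)) =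
      - ∑ u ∈ U3 α i, sgZ i u * ∑ s ∈ St, TL.ta t k c s (BB i u) - ((U3 α i).card : ℤ) := by
  have h1 : ∀ j, TL.cf 2 j (wA ^ 2 * ∑ u ∈ U3 α i, (sgn i u * ZA ^ 3 + ZA ^ 4) *
        Ev wA ((∏ y ∈ BB i u, MvPolynomial.X y) * rsK i 0 u)) =
      ∑ u ∈ U3 α i, ((C (sgZ i u) * X ^ 3 + X ^ 4) *
        (- ∏ s ∈ St, (1 + X * C (TL.ta t k c s (BB i u)))) : ℤ[X]).coeff j := by
    intro j
    rw [cf_w2, map_sum, Polynomial.finsetSum_coeff]
    apply sum_congr rfl
    intro u hu
    rw [map_mul, map_add, map_mul, map_pow, map_pow, cc_ZA, cc_sgn, cc_U3 hg hl hdeg hS hu]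
  have h2 : ∀ u ∈ U3 α i, ((C (sgZ i u) * X ^ 3 + X ^ 4) *
        (- ∏ s ∈ St, (1 + X * C (TL.ta t k c s (BB i u)))) : ℤ[X]) =
      X ^ 3 * (C (- sgZ i u) * ∏ s ∈ St, (1 + X * C (TL.ta t k c s (BB i u)))) -
      X ^ 4 * ∏ s ∈ St, (1 + X * C (TL.ta t k c s (BB i u))) := by
    intro u _
    rw [map_neg]
    ring
  constructor
  · rw [h1, ← sum_neg_distrib]
    apply sum_congr rfl
    intro u hu
    obtain ⟨g0, g1⟩ := coeff_prod_one_add St (fun s => TL.ta t k c s (BB i u))
    rw [h2 u hu, Polynomial.coeff_sub, Polynomial.coeff_X_pow_mul', Polynomial.coeff_X_pow_mul',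
      if_pos le_rfl, if_neg (by omega), Nat.sub_self, Polynomial.coeff_C_mul, g0]
    ring
  · rw [h1]
    have h3 : ∀ u ∈ U3 α i, ((C (sgZ i u) * X ^ 3 + X ^ 4) *
        (- ∏ s ∈ St, (1 + X * C (TL.ta t k c s (BB i u)))) : ℤ[X]).coeff 4 =
        - (sgZ i u * ∑ s ∈ St, TL.ta t k c s (BB i u)) - 1 := by
      intro u hu
      obtain ⟨g0, g1⟩ := coeff_prod_one_add St (fun s => TL.ta t k c s (BB i u))
      rw [h2 u hu, Polynomial.coeff_sub, Polynomial.coeff_X_pow_mul', Polynomial.coeff_X_pow_mul',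
        if_pos (by omega), if_pos le_rfl, Nat.sub_self, show 4 - 3 = 1 from rfl,
        Polynomial.coeff_C_mul, g0, g1]
      ring
    rw [sum_congr rfl h3, sum_sub_distrib, sum_neg_distrib, sum_const, nsmul_eq_mul, mul_one]

/-- the common vertex of an object over three vertices -/
lemma card_ObY (hg : Grad α) (hl : HasLower α i) (hdeg : ∀ p : α, (bd i p).card ≤ 2) {u : α}
    (hu : u ∈ U2 α i) (h4 : (BB i u).card ≠ 4) :
    (((lev α i).filter fun y => ObY i u y).card = if (BB i u).card = 3 ∧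
      ∀ p ∈ bd i u, (bd i p).card = 2 then 1 else 0) ∧
    ∀ y ∈ (lev α i).filter (fun y => ObY i u y), ((BB i u).erase y).card = 2 := by
  rw [mem_U2] at hu
  obtain ⟨hq, h2⟩ := hu
  obtain ⟨p, p', hne, hb⟩ := Finset.card_eq_two.1 h2
  have hBB : BB i u = bd i p ∪ bd i p' := by
    unfold BB
    rw [hb, biUnion_insert, singleton_biUnion]
  have hOb : ∀ y, ObY i u y ↔ (BB i u).card = 3 ∧ ∀ p ∈ bd i u, (bd i p).card = 2 ∧ y ∈ bd i p := by
    intro y
    unfold ObY
    constructor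
    · rintro (h | h)
      · exact absurd h h4
      · exact h
    · exact Or.inr
  constructor
  · split_ifs with h
    · have hi := card_union_add_card_inter (bd i p) (bd i p')
      rw [← hBB, h.1, h.2 p (by rw [hb]; simp), h.2 p' (by rw [hb]; simp)] at hi
      have h5 : (bd i p ∩ bd i p').card = 1 := by omega
      obtain ⟨y, hy⟩ := Finset.card_eq_one.1 h5
      have h6 : (lev α i).filter (fun y => ObY i u y) = {y} := by
        ext z
        rw [mem_filter, hOb, mem_singleton]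
        constructor
        · rintro ⟨_, _, g⟩
          have : z ∈ bd i p ∩ bd i p' := mem_inter.2
            ⟨(g p (by rw [hb]; simp)).2, (g p' (by rw [hb]; simp)).2⟩
          rw [hy, mem_singleton] at this
          exact this
        · rintro rfl
          have hz : z ∈ bd i p ∩ bd i p' := by
            rw [hy]
            exact mem_singleton_self z
          rw [mem_inter] at hz
          refine ⟨BB_subset_lev hq hg (by rw [hBB]; exact mem_union_left _ hz.1), h.1, ?_⟩
          intro r hr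
          refine ⟨h.2 r hr, ?_⟩
          rw [hb, mem_insert, mem_singleton] at hr
          rcases hr with rfl | rfl
          · exact hz.1
          · exact hz.2
      rw [h6, card_singleton]
    · rw [Finset.card_eq_zero, Finset.filter_eq_empty_iff]
      intro y _ hy
      rw [hOb] at hy
      exact h ⟨hy.1, fun p hp => (hy.2 p hp).1⟩
  · intro y hy
    rw [mem_filter, hOb] at hy
    have : y ∈ BB i u := by
      rw [hBB]
      exact mem_union_left _ (hy.2.2 p (by rw [hb]; simp)).2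
    rw [card_erase_of_mem this, hy.2.1]

/-- **the coefficients of the objects with one unit of energy on level `i`** -/
theorem cf_ObY (hg : Grad α) (hl : HasLower α i) (hdeg : ∀ p : α, (bd i p).card ≤ 2)
    (h4 : U4 α i = ∅) :
    TL.cf 2 3 (wA ^ 2 * (ZA ^ 4 * ∑ u ∈ U2 α i, ∑ y ∈ (lev α i).filter (fun y => ObY i u y),
          Ev wA ((∏ t ∈ (BB i u).erase y, MvPolynomial.X t) * rsK i (ind {y}) u))) = 0 ∧
    TL.cf 2 4 (wA ^ 2 * (ZA ^ 4 * ∑ u ∈ U2 α i, ∑ y ∈ (lev α i).filter (fun y => ObY i u y),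
          Ev wA ((∏ t ∈ (BB i u).erase y, MvPolynomial.X t) * rsK i (ind {y}) u))) =
      (((U3 α i).filter fun u => ∀ p ∈ bd i u, (bd i p).card = 2).card : ℤ) := by
  have hB4 : ∀ u ∈ U2 α i, (BB i u).card ≠ 4 := by
    intro u hu h
    have : u ∈ U4 α i := mem_filter.2 ⟨hu, h⟩
    rw [h4] at this
    exact absurd this (notMem_empty u)
  have h1 : ∀ j, TL.cf 2 j (wA ^ 2 * (ZA ^ 4 * ∑ u ∈ U2 α i,
      ∑ y ∈ (lev α i).filter (fun y => ObY i u y),
          Ev wA ((∏ t ∈ (BB i u).erase y, MvPolynomial.X t) * rsK i (ind {y}) u))) =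
      (X ^ 4 * ∑ u ∈ U2 α i, ∑ y ∈ (lev α i).filter (fun y => ObY i u y),
          cc (Ev wA ((∏ t ∈ (BB i u).erase y, MvPolynomial.X t) *
            rsK i (ind {y}) u)) : ℤ[X]).coeff j := by
    intro j
    rw [cf_w2, map_mul, map_pow, cc_ZA, map_sum]
    simp only [map_sum]
  constructor
  · rw [h1, Polynomial.coeff_X_pow_mul', if_neg (by omega)]
  · rw [h1, Polynomial.coeff_X_pow_mul', if_pos le_rfl, Nat.sub_self, Polynomial.finsetSum_coeff]
    have h2 : ∀ u ∈ U2 α i, (∑ y ∈ (lev α i).filter (fun y => ObY i u y),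
          cc (Ev wA ((∏ t ∈ (BB i u).erase y, MvPolynomial.X t) *
            rsK i (ind {y}) u)) : ℤ[X]).coeff 0 = if (BB i u).card = 3 ∧
              ∀ p ∈ bd i u, (bd i p).card = 2 then 1 else 0 := by
      intro u hu
      obtain ⟨g1, g2⟩ := card_ObY hg hl hdeg hu (hB4 u hu)
      rw [Polynomial.finsetSum_coeff]
      have h3 : ∀ y ∈ (lev α i).filter (fun y => ObY i u y),
          (cc (Ev wA ((∏ t ∈ (BB i u).erase y, MvPolynomial.X t) *
            rsK i (ind {y}) u))).coeff 0 = 1 := by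
        intro y hy
        unfold rsK
        rw [coeff_zero_rest hg hl hdeg sdiff_subset, g2 y hy]
        norm_num
      rw [sum_congr rfl h3, sum_const, g1, nsmul_eq_mul, mul_one]
      split_ifs <;> simp
    rw [sum_congr rfl h2, ← Finset.sum_filter, sum_const, nsmul_eq_mul, mul_one]
    congr 2
    ext u
    rw [mem_filter, mem_filter, mem_U3, mem_U2]
    tauto

/-- **the objects over three vertices, together**: the coefficient of `w ^ 2 Z ^ 4` -/
theorem cf24_objects (hg : Grad α) (hl : HasLower α i) (hdeg : ∀ p : α, (bd i p).card ≤ 2)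
    (hS : StarCfg m St t k c) (h4 : U4 α i = ∅) :
    TL.cf 2 4 (wA ^ 2 * ∑ u ∈ U3 α i, (sgn i u * ZA ^ 3 + ZA ^ 4) *
        Ev wA ((∏ y ∈ BB i u, MvPolynomial.X y) * rsK i 0 u)) +
    TL.cf 2 4 (wA ^ 2 * (ZA ^ 4 * ∑ u ∈ U2 α i, ∑ y ∈ (lev α i).filter (fun y => ObY i u y),
          Ev wA ((∏ t ∈ (BB i u).erase y, MvPolynomial.X t) * rsK i (ind {y}) u))) =
      - ∑ u ∈ U3 α i, sgZ i u * ∑ s ∈ St, TL.ta t k c s (BB i u) -
      (((U3 α i).filter fun u => ∃ p ∈ bd i u, (bd i p).card = 1).card : ℤ) := by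
  rw [(cf_U3 hg hl hdeg hS).2, (cf_ObY hg hl hdeg h4).2]
  have h1 : ((U3 α i).filter fun u => ∀ p ∈ bd i u, (bd i p).card = 2).card +
      ((U3 α i).filter fun u => ∃ p ∈ bd i u, (bd i p).card = 1).card = (U3 α i).card := by
    rw [← Finset.card_filter_add_card_filter_not (s := U3 α i)
      (fun u => ∀ p ∈ bd i u, (bd i p).card = 2)]
    congr 2
    ext u
    simp only [mem_filter]
    apply and_congr_right
    intro hu
    rw [mem_U3] at hu
    push Not
    constructor
    · rintro ⟨p, hp, h⟩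
      exact ⟨p, hp, by omega⟩
    · rintro ⟨p, hp, h⟩
      have h2 : (bd i p).card ≠ 0 := by
        rw [Ne, Finset.card_eq_zero, ← Ne, ← Finset.nonempty_iff_ne_empty]
        exact bd_neF hg hl (by rw [ds_of_mem_bd hg hu.1.1 hp]; omega)
      have h3 := hdeg p
      exact ⟨p, hp, by omega⟩
  have h2 : ((U3 α i).card : ℤ) =
      (((U3 α i).filter fun u => ∀ p ∈ bd i u, (bd i p).card = 2).card : ℤ) +
      (((U3 α i).filter fun u => ∃ p ∈ bd i u, (bd i p).card = 1).card : ℤ) := by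
    rw [← h1]
    push_cast
    ring
  rw [h2]
  ring

end U3

end Pool.Gauss
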