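import Pool.Agent.Work.MP_065141_co.K.StarLoc
import Pool.Agent.Work.MP_065141_co.K.StarConst2

/-!
# The second order equation of a region with vertex-disjoint stars
-/

set_option autoImplicit false
set_option linter.unusedSectionVars false
open scoped Classical
open Finset MvPolynomial

namespace Pool.Gauss

attribute [-instance] instDecidableEqProd

variable {α : Type} [Fintype α] [PartialOrder α] {i : ℕ} {m : Mat α i}
  {St : Finset (α × α)} {t k c : α × α → α}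

/-- the elements with three vertices below two elements, one of which is single -/
noncomputable def sp3 (α : Type) [Fintype α] [PartialOrder α] (i : ℕ) : Finset α :=
  (U3 α i).filter fun u => ∃ p ∈ bd i u, (bd i p).card = 1

/-- the value of the constant terms -/
theorem StarCfg.cst24_eq (hg : Grad α) (hl : HasLower α i) (hdeg : ∀ p : α, (bd i p).card ≤ 2)
    (h4 : U4 α i = ∅) (hC : StarCfg m St t k c) :
    cst24 α i = - (((lev α i).card : ℤ) - 2) * (St.card : ℤ) -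
      ∑ u ∈ U3 α i, sgZ i u * ∑ s ∈ St, TL.ta t k c s (BB i u) - ((sp3 α i).card : ℤ) := by
  have h1 := sum_KL_cf hg hl hdeg hC
  have h2 := cf24_objects hg hl hdeg hC h4
  have e1 : TL.cf 2 4 (wA ^ 2 * ∑ u ∈ U3 α i, (sgn i u * ZA ^ 3 + ZA ^ 4) *
        Ev wA ((∏ y ∈ BB i u, MvPolynomial.X y) * rsK i 0 u)) =
        ∑ u ∈ U3 α i, (sgz i u * TL.cf 0 1 (V3 i u) + TL.cf 0 0 (V3 i u)) := by
    rw [cf_w_pow 2 0 4, cf_sum]
    apply sum_congr rfl
    intro u _
    have e6 : (sgn i u * ZA ^ 3 + ZA ^ 4) * Ev wA ((∏ y ∈ BB i u, MvPolynomial.X y) * rsK i 0 u) =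
        sgn i u * (ZA ^ 3 * V3 i u) + ZA ^ 4 * V3 i u := by
      rw [V3]
      ring
    rw [e6, map_add, cf_sgn, cf_Z_pow 3 0 1, cf_Z_pow 4 0 0]
  have e2 : TL.cf 2 4 (wA ^ 2 * (ZA ^ 4 * ∑ u ∈ U2 α i,
      ∑ y ∈ (lev α i).filter (fun y => ObY i u y),
          Ev wA ((∏ t ∈ (BB i u).erase y, MvPolynomial.X t) * rsK i (ind {y}) u))) =
      SY α i 0 := by
    rw [cf_w_pow 2 0 4, cf_Z_pow 4 0 0, cf_sum]
    apply sum_congr rfl
    intro u _
    rw [cf_sum]
    rfl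
  rw [e1, e2] at h2
  have h3 : cst24 α i = ∑ κ ∈ KL α i 2, TL.cf 0 2 (Ev wA (∏ p ∈ N1 α i, GA i κ p)) +
      (∑ u ∈ U3 α i, (sgz i u * TL.cf 0 1 (V3 i u) + TL.cf 0 0 (V3 i u)) + SY α i 0) := by
    rw [cst24, add_assoc]
    rfl
  rw [h3, h1, h2, sp3]
  ring

/-- **the first and second order equations of a region with vertex-disjoint stars** -/
theorem StarCfg.local_final {h : Fin (Fintype.card α) → ℕ} (hG : IsGaussianWith α h)
    (hl : HasLower α i) (hdeg : ∀ p : α, (bd i p).card ≤ 2) (h4 : U4 α i = ∅)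
    (hC : StarCfg m St t k c) :
    (sdat m St t k c).F21 = 0 ∧ (sdat m St t k c).F32t = 0 ∧
    ∑ p ∈ St.offDiag, (sdat m St t k c).bb p.1 p.2 = 0 ∧
    (sdat m St t k c).loc4 = 4 * (∑ u ∈ U3 α i, sgZ i u * ∑ s ∈ St, TL.ta t k c s (BB i u) +
      ((sp3 α i).card : ℤ)) := by
  obtain ⟨h1, h2, h3, h5⟩ := hC.local_eq hG hl hdeg h4
  refine ⟨h1, h2, h3, ?_⟩
  rw [hC.cst24_eq (grad hG) hl hdeg h4] at h5
  linear_combination h5

end Pool.Gauss
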