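import Pool.Agent.Work.MP_065141_co.K.SixE
import Pool.Agent.Work.MP_065141_co.K.StarFin
import Pool.Agent.Work.MP_065141_co.K.DeepG

/-!
# The coefficient of `w ^ 2 Z ^ 6` of a region with vertex-disjoint stars
-/

set_option autoImplicit false
set_option linter.unusedSectionVars false
set_option linter.unusedVariables false
open scoped Classical
open Finset MvPolynomial

namespace Pool.Gauss

attribute [-instance] instDecidableEqProd

variable {α : Type} [Fintype α] [PartialOrder α] {i : ℕ}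

open TL in
/-- **the coefficients of `w ^ 2` of the model in all degrees**, no object with four vertices -/
theorem exists_KNcf2 {h : Fin (Fintype.card α) → ℕ} (hG : IsGaussianWith α h)
    (hl : HasLower α i) (hdeg : ∀ p : α, (bd i p).card ≤ 2) (h4 : U4 α i = ∅) :
    ∃ KN : AA, Low KN ∧ ∀ n,
      cf 2 (n + 4) KN = cf 2 (n + 4) (VL i (0 : α → ℕ)) +
        ∑ y ∈ lev α i, cf 1 (n + 3) (VL1 i (ind {y})) +
        ∑ k ∈ KL α i 2, cf 0 (n + 2) (VG i k) +
        ∑ u ∈ U3 α i, (sgz i u * cf 0 (n + 1) (V3 i u) + cf 0 n (V3 i u)) + SY α i n := by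
  obtain ⟨KN, h1, h2⟩ := exists_KNall hG hl hdeg h4
  refine ⟨KN, h1, fun n => ?_⟩
  obtain ⟨⟨R, Q, h2⟩, -⟩ := h2 (n + 4) (by omega)
  have hVL : Ev wA (∏ p ∈ N1 α i, (1 + MvPolynomial.C (lam i p) * EA i 0 p)) = VL i (0 : α → ℕ) := rfl
  have hVL1 : ∀ k : α → ℕ, Ev wA (∏ p ∈ N1 α i, (1 + MvPolynomial.C (lam1 i p) * EA i k p)) =
      VL1 i k := fun _ => rfl
  have hVG : ∀ k : α → ℕ, Ev wA (∏ p ∈ N1 α i, GA i k p) = VG i k := fun _ => rfl
  have hV3 : ∀ u : α, Ev wA ((∏ y ∈ BB i u, MvPolynomial.X y) * rsK i 0 u) = V3 i u :=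
    fun _ => rfl
  have hV3y : ∀ u y : α, Ev wA ((∏ t ∈ (BB i u).erase y, MvPolynomial.X t) *
      rsK i (ind {y}) u) = V3y i u y := fun _ _ => rfl
  simp only [hVL, hVL1, hVG, hV3, hV3y] at h2
  rw [h2]
  simp only [map_add]
  have e1 : cf 2 (n + 4) (ZA ^ (n + 4 + 1) * R) = 0 := cf_Z_lt (by omega) R
  have e2 : cf 2 (n + 4) (wA ^ 3 * Q) = 0 := cf_w_lt (by norm_num) Q
  have e3 : cf 2 (n + 4) (qA * ∑ y ∈ lev α i, VL1 i (ind {y})) =
      ∑ y ∈ lev α i, cf 1 (n + 3) (VL1 i (ind {y})) := by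
    rw [show n + 4 = n + 3 + 1 from rfl, cf_q_succ, cf_sum]
  have e4 : cf 2 (n + 4) (qA ^ 2 * ∑ k ∈ KL α i 2, VG i k) =
      ∑ k ∈ KL α i 2, cf 0 (n + 2) (VG i k) := by
    rw [pow_two, mul_assoc, show n + 4 = n + 2 + 1 + 1 from rfl, cf_q_succ, cf_q_succ, cf_sum]
  have e5 : cf 2 (n + 4) (wA ^ 2 * ∑ u ∈ U3 α i, (sgn i u * ZA ^ 3 + ZA ^ 4) * V3 i u) =
      ∑ u ∈ U3 α i, (sgz i u * cf 0 (n + 1) (V3 i u) + cf 0 n (V3 i u)) := by
    rw [cf_w_pow 2 0 (n + 4), cf_sum]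
    apply sum_congr rfl
    intro u _
    have e6 : (sgn i u * ZA ^ 3 + ZA ^ 4) * V3 i u =
        sgn i u * (ZA ^ 3 * V3 i u) + ZA ^ 4 * V3 i u := by ring
    rw [e6, map_add, cf_sgn, cf_Z_pow 4 0 n, show n + 4 = n + 1 + 3 from rfl,
      cf_Z_pow 3 0 (n + 1)]
  have e6 : cf 2 (n + 4) (wA ^ 2 * (ZA ^ 4 * ∑ u ∈ U2 α i,
      ∑ y ∈ (lev α i).filter (fun y => ObY i u y), V3y i u y)) = SY α i n := by
    rw [cf_w_pow 2 0 (n + 4), cf_Z_pow 4 0 n, cf_sum]
    unfold SY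
    apply sum_congr rfl
    intro u _
    rw [cf_sum]
  rw [e1, e2, e3, e4, e5, e6]
  ring

/-! ### frozen variables with an excited vertex -/

section frozen

variable {m : Mat α i} {St : Finset (α × α)} {t k c : α × α → α}

lemma X_dvd_GAk (hg : Grad α) (hl : HasLower α i) {p y : α} (hp : ds i p = 1)
    (hdeg : (bd i p).card ≤ 2) (hy : y ∈ bd i p) {κ : α → ℕ} (hk : κ y = 0) :
    (MvPolynomial.X y : MvPolynomial α (Polynomial ℤ)) ∣ mc (GA i κ p) - 1 := by
  rw [mc_GA hg hl hp hdeg]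
  split_ifs
  · rw [add_sub_cancel_left]
    exact (X_dvd_M0 hy hk).mul_left _
  · rw [add_zero, sub_self]
    exact dvd_zero _

/-- **frozen variables and one excited vertex**: the factors around an object at `w = 0` -/
theorem EvEq0_restY (hg : Grad α) (hl : HasLower α i) (hdeg : ∀ p : α, (bd i p).card ≤ 2)
    (hS : StarCfg m St t k c) {A B : Finset α} {y0 : α} (hy0 : y0 ∉ B) (hA : A ⊆ N1 α i)
    (hA1 : ∀ p ∈ A, y0 ∈ bd i p) (hB : ∀ p ∈ A, ∃ z ∈ bd i p, z ∈ B)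
    (hT : ∀ s ∈ St, y0 ∈ TL.VS t k c s → k s ∈ B) :
    EvEq (0 : Polynomial ℤ) ((∏ y ∈ B, MvPolynomial.X y) *
      mc (∏ p ∈ N1 α i \ A, GA i (ind {y0}) p))
      ((∏ y ∈ B, MvPolynomial.X y) * ∏ s ∈ St, F0 t k c s) := by
  set κ : α → ℕ := ind {y0} with hκ
  have hκ0 : ∀ y, y ≠ y0 → κ y = 0 := fun y hy => ind_notMem (by rwa [mem_singleton])
  have hBy : ∀ y ∈ B, κ y = 0 := fun y hy => hκ0 y (fun h => hy0 (h ▸ hy))
  set PB : MvPolynomial α (Polynomial ℤ) := ∏ y ∈ B, MvPolynomial.X y with hPB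
  have hXB : ∀ y ∈ B, (MvPolynomial.X y : MvPolynomial α (Polynomial ℤ)) ∣ PB := fun y hy =>
    Finset.dvd_prod_of_mem _ hy
  set f : α → MvPolynomial α (Polynomial ℤ) := fun p => if p ∈ A then 1 else mc (GA i κ p) with hf
  have h1 : mc (∏ p ∈ N1 α i \ A, GA i κ p) = ∏ p ∈ N1 α i, f p := by
    rw [map_prod, ← Finset.prod_sdiff hA]
    have g1 : ∏ p ∈ A, f p = 1 := Finset.prod_eq_one fun p hp => if_pos hp
    rw [g1, mul_one]
    apply prod_congr rfl
    intro p hp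
    exact (if_neg (mem_sdiff.1 hp).2).symm
  have hf1 : ∀ p ∈ A, f p = 1 := fun p hp => if_pos hp
  have hf0 : ∀ p, p ∉ A → f p = mc (GA i κ p) := fun p hp => if_neg hp
  -- pairs
  have h2 : ∀ e ∈ m.M, EvEq (0 : Polynomial ℤ) (PB * (f e.1 * f e.2)) (PB * 1) := by
    intro e he
    have g2 := m.snd_mem hg he
    have g3 := m.fst_mem hg he
    rw [mem_DX] at g2
    rw [mem_DZ] at g3
    have d1 : ds i e.1 = 1 := ds_one_iff.2 (Or.inl g3.1)
    have d2 : ds i e.2 = 1 := ds_one_iff.2 (Or.inr g2.1)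
    have hbd := m.bd_eq hg he
    by_cases a1 : e.1 ∈ A <;> by_cases a2 : e.2 ∈ A
    · rw [hf1 _ a1, hf1 _ a2, mul_one]
      exact EvEq.refl _
    · rw [hf1 _ a1, hf0 _ a2, one_mul]
      obtain ⟨z, hz, hzB⟩ := hB _ a1
      rw [hbd] at hz
      exact EvEq0_frozen (hXB z hzB) (X_dvd_GAk hg hl d2 (hdeg _) hz (hBy z hzB))
    · rw [hf0 _ a1, hf1 _ a2, mul_one]
      obtain ⟨z, hz, hzB⟩ := hB _ a2
      rw [← hbd] at hz
      exact EvEq0_frozen (hXB z hzB) (X_dvd_GAk hg hl d1 (hdeg _) hz (hBy z hzB))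
    · rw [hf0 _ a1, hf0 _ a2]
      exact (EvEq0_pair hg hl g3.1 g2.1 hbd g2.2 κ).mul_left PB
  -- single elements
  have h3 : ∏ p ∈ Sg α i, f p = 1 := by
    apply Finset.prod_eq_one
    intro p hp
    rw [mem_Sg] at hp
    by_cases a1 : p ∈ A
    · exact hf1 p a1
    · rw [hf0 p a1, mc_GA hg hl hp.1 (hdeg p) κ, if_neg (by omega), add_zero]
  -- stars
  have h4 : ∀ s ∈ St, EvEq (0 : Polynomial ℤ) (PB * (f s.2 * f s.1)) (PB * F0 t k c s) := by
    intro s hs
    obtain ⟨r1, r2⟩ := star_rank hS hs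
    have d1 : ds i s.1 = 1 := ds_one_iff.2 (Or.inl r1)
    have d2 : ds i s.2 = 1 := ds_one_iff.2 (Or.inr r2)
    have k1 : k s ∈ bd i s.1 := by rw [hS.bz s hs]; simp
    have k2 : k s ∈ bd i s.2 := by rw [hS.bx s hs]; simp
    by_cases hy : y0 ∈ TL.VS t k c s
    · -- the centre is frozen
      have hk := hT s hs hy
      have g1 : EvEq (0 : Polynomial ℤ) (PB * F0 t k c s) (PB * 1) :=
        EvEq0_frozen (hXB _ hk) (X_dvd_F0 s)
      have g2 : ∀ p, ds i p = 1 → k s ∈ bd i p →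
          EvEq (0 : Polynomial ℤ) (PB * f p) (PB * 1) := by
        intro p hp hkp
        by_cases a1 : p ∈ A
        · rw [hf1 _ a1]
          exact EvEq.refl _
        · rw [hf0 _ a1]
          exact EvEq0_frozen (hXB _ hk) (X_dvd_GAk hg hl hp (hdeg _) hkp (hBy _ hk))
      have g3 := g2 _ d2 k2
      have g4 := g2 _ d1 k1
      have g5 := g3.mul_right (f s.1)
      refine ((EvEq.of_eq ?_).trans (g5.trans ((EvEq.of_eq ?_).trans g4))).trans g1.symm
      · ring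
      · ring
    · have a1 : s.1 ∉ A := by
        intro h
        have := hA1 _ h
        rw [hS.bz s hs] at this
        apply hy
        rw [mem_insert, mem_singleton] at this
        rw [TL.VS, mem_insert, mem_insert, mem_singleton]
        tauto
      have a2 : s.2 ∉ A := by
        intro h
        have := hA1 _ h
        rw [hS.bx s hs] at this
        apply hy
        rw [mem_insert, mem_singleton] at this
        rw [TL.VS, mem_insert, mem_insert, mem_singleton]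
        tauto
      have hyt : κ (t s) = 0 := hκ0 _ fun e => hy (e ▸ TL.VS_sub_t s)
      have hyk : κ (k s) = 0 := hκ0 _ fun e => hy (e ▸ TL.VS_sub_k s)
      have hyc : κ (c s) = 0 := hκ0 _ fun e => hy (e ▸ TL.VS_sub_c s)
      rw [hf0 _ a1, hf0 _ a2]
      refine EvEq.mul_left PB ?_
      have c1 : (bd i s.1).card = 2 := by rw [hS.bz s hs, card_pair (hS.st.kc s hs)]
      have c2 : (bd i s.2).card = 2 := by rw [hS.bx s hs, card_pair (hS.st.tk s hs).symm]
      have hsz : sg0 i s.1 = -1 := by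
        unfold sg0
        rw [if_pos (by omega)]
      have hsx : sg0 i s.2 = 1 := by
        unfold sg0
        rw [if_neg (by omega)]
      rw [mc_GA hg hl d1 (hdeg _), mc_GA hg hl d2 (hdeg _), if_pos c1, if_pos c2, hsz, hsx,
        M0_pair (hS.bz s hs) (hS.st.kc s hs), M0_pair (hS.bx s hs) (hS.st.tk s hs).symm]
      simp only [hyt, hyk, hyc, if_true]
      have h5 := ((EvEq0_sq (k s)).mul_left (MvPolynomial.C Polynomial.X *
        MvPolynomial.C Polynomial.X *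
        (MvPolynomial.X (t s) * MvPolynomial.X (c s)))).neg.add (EvEq.refl (F0 t k c s))
      refine (EvEq.of_eq ?_).trans (h5.trans (EvEq.of_eq ?_))
      · unfold F0 TL.Dg
        rw [one_mul, neg_one_mul, map_neg]
        ring
      · rw [mul_zero, neg_zero, zero_add]
  have h5 := EvEq_absorb_prod (A := PB) m.M h2
  have h6 := EvEq_absorb_prod (A := PB) St h4
  rw [prod_const_one, mul_one] at h5
  rw [h1, prod_N1 hg hl hdeg m, h3, one_mul, prod_stars hS]
  have h7 := h5.mul_right (∏ s ∈ St, f s.2 * f s.1)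
  refine (EvEq.of_eq ?_).trans (h7.trans h6)
  ring

/-- the value of frozen variables with one excited vertex at `w = 0` -/
theorem cc_restY (hg : Grad α) (hl : HasLower α i) (hdeg : ∀ p : α, (bd i p).card ≤ 2)
    (hS : StarCfg m St t k c) {A B : Finset α} {y0 : α} (hy0 : y0 ∉ B) (hA : A ⊆ N1 α i)
    (hA1 : ∀ p ∈ A, y0 ∈ bd i p) (hB : ∀ p ∈ A, ∃ z ∈ bd i p, z ∈ B)
    (hT : ∀ s ∈ St, y0 ∈ TL.VS t k c s → k s ∈ B) :
    cc (Ev wA ((∏ y ∈ B, MvPolynomial.X y) * ∏ p ∈ N1 α i \ A, GA i (ind {y0}) p)) =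
      (-1) ^ B.card * ∏ s ∈ St, (1 + Polynomial.X * Polynomial.C (TL.ta t k c s B)) := by
  have h1 : mc (∏ y ∈ B, MvPolynomial.X y) = ∏ y ∈ B, MvPolynomial.X y := by
    rw [map_prod]
    exact prod_congr rfl fun y _ => MvPolynomial.map_X _ _
  rw [cc_Ev, map_mul, h1, (EvEq0_restY hg hl hdeg hS hy0 hA hA1 hB hT).ev, Ev_frozen hS.st]

end frozen

/-! ### elementary symmetric functions -/

/-- the sum over the sets of `n` stars of the products of the `ta` -/
noncomputable def eta' {Y σ : Type} (St : Finset σ) (t k c : σ → Y) (n : ℕ) (B : Finset Y) : ℤ :=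
  ∑ T ∈ St.powersetCard n, ∏ s ∈ T, TL.ta t k c s B

lemma coeff_prod_ta {Y σ : Type} (St : Finset σ) (t k c : σ → Y) (n : ℕ) (B : Finset Y) :
    (∏ s ∈ St, (1 + Polynomial.X * Polynomial.C (TL.ta t k c s B)) : Polynomial ℤ).coeff n =
      eta' St t k c n B := by
  have h1 : ∏ s ∈ St, (1 + Polynomial.X * Polynomial.C (TL.ta t k c s B)) =
      ∏ s ∈ St, (Polynomial.X * Polynomial.C (TL.ta t k c s B) + 1) :=
    prod_congr rfl fun s _ => by ring
  rw [h1, prod_add, Polynomial.finsetSum_coeff, eta', ← TL.sum_card_eq]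
  apply sum_congr rfl
  intro T _
  rw [prod_const_one, mul_one, prod_mul_distrib, prod_const, ← map_prod,
    Polynomial.coeff_X_pow_mul', Polynomial.coeff_C]
  by_cases h : T.card = n
  · rw [if_pos h.le, if_pos (by omega), if_pos h]
  · rw [if_neg h]
    by_cases h2 : T.card ≤ n
    · rw [if_pos h2, if_neg (by omega)]
    · rw [if_neg h2]

lemma cf0_eq_cc (n : ℕ) (f : AA) : TL.cf 0 n f = (cc f).coeff n := by
  rw [TL.cf_apply, PowerSeries.coeff_zero_eq_constantCoeff]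

section objects

variable {m : Mat α i} {St : Finset (α × α)} {t k c : α × α → α}

/-- the objects over three vertices, all degrees -/
lemma StarCfg.cf0_V3 (hg : Grad α) (hl : HasLower α i) (hdeg : ∀ p : α, (bd i p).card ≤ 2)
    (hS : StarCfg m St t k c) {u : α} (hu : u ∈ U3 α i) (n : ℕ) :
    TL.cf 0 n (V3 i u) = - eta' St t k c n (BB i u) := by
  rw [cf0_eq_cc, V3, cc_U3 hg hl hdeg hS hu, Polynomial.coeff_neg, coeff_prod_ta]

/-- the condition at the common vertex of an object: the centre of every star with this vertex is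
another vertex of the object -/
def StarTip (α : Type) [Fintype α] [PartialOrder α] (i : ℕ) {σ : Type} (St : Finset σ)
    (t k c : σ → α) : Prop :=
  ∀ u ∈ U2 α i, ∀ y, ObY i u y → ∀ s ∈ St, y ∈ TL.VS t k c s → k s ∈ (BB i u).erase y

/-- the objects with one unit of energy at the common vertex, all degrees -/
lemma StarCfg.SY_eq (hg : Grad α) (hl : HasLower α i) (hdeg : ∀ p : α, (bd i p).card ≤ 2)
    (h4 : U4 α i = ∅) (hS : StarCfg m St t k c) (hT : StarTip α i St t k c) (n : ℕ) :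
    SY α i n = ∑ u ∈ U2 α i, ∑ y ∈ (lev α i).filter (fun y => ObY i u y),
      eta' St t k c n ((BB i u).erase y) := by
  unfold SY
  apply sum_congr rfl
  intro u hu
  apply sum_congr rfl
  intro y hy
  have hB4 : (BB i u).card ≠ 4 := by
    intro h
    have : u ∈ U4 α i := mem_filter.2 ⟨hu, h⟩
    rw [h4] at this
    exact absurd this (notMem_empty u)
  have hc := (card_ObY hg hl hdeg hu hB4).2 y hy
  rw [mem_filter] at hy
  have hOb := hy.2
  have hu' := mem_U2.1 hu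
  have hOb' : (BB i u).card = 3 ∧ ∀ p ∈ bd i u, (bd i p).card = 2 ∧ y ∈ bd i p := by
    rcases hOb with h | h
    · exact absurd h hB4
    · exact h
  rw [cf0_eq_cc, V3y]
  unfold rsK
  rw [cc_restY hg hl hdeg hS (y0 := y) (notMem_erase y _) (bd_subset_N1 hg hu'.1)
    (fun p hp => (hOb'.2 p hp).2) ?_ (fun s hs hy' => hT u hu y hOb s hs hy'), hc,
    neg_one_sq, one_mul, coeff_prod_ta]
  intro p hp
  obtain ⟨h1, h2⟩ := hOb'.2 p hp
  obtain ⟨z, hz, hzy⟩ : ∃ z ∈ bd i p, z ≠ y := by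
    by_contra hcon
    push Not at hcon
    have : bd i p ⊆ {y} := fun z hz => mem_singleton.2 (hcon z hz)
    have := card_le_card this
    rw [card_singleton] at this
    omega
  exact ⟨z, hz, mem_erase.2 ⟨hzy, (Finset.subset_biUnion_of_mem (bd i) hp) hz⟩⟩

end objects

/-! ### the equation -/

section equation

variable {m : Mat α i} {St : Finset (α × α)} {t k c : α × α → α}
  (hg : Grad α) (hl : HasLower α i) (hdeg : ∀ p : α, (bd i p).card ≤ 2)
  (hC : StarCfg m St t k c)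

include hg hl hdeg hC

lemma StarCfg.cf26_VL : 2 * TL.cf 2 6 (VL i (0 : α → ℕ)) = (sdat m St t k c).a26 := by
  obtain ⟨rho, h1, h2⟩ := hC.full0 hg hl hdeg
  have h3 : VL i (0 : α → ℕ) = Ev wA (TL.Full (sdat m St t k c).J St t k c rho) := h2.ev
  have h4 : TL.cf 2 6 (VL i (0 : α → ℕ)) =
      TL.cfE 2 6 (TL.Full (sdat m St t k c).J St t k c rho) := by
    rw [h3]
    rfl
  rw [h4]
  exact TL.cf26_Full (N := (sdat m St t k c).N) hC.st (sdat_ok hg hC).supp0 h1

lemma StarCfg.cf15_out {y : α} (hy : ∀ s ∈ St, y ∉ TL.VS t k c s) :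
    TL.cf 1 5 (VL1 i (ind {y})) = 0 := by
  obtain ⟨rho, h1, h2⟩ := hC.full1 hg hl hdeg hy
  have h3 : VL1 i (ind {y}) = Ev wA (TL.Full (sdat m St t k c).J St t k c rho) := h2.ev
  have h4 : TL.cf 1 5 (VL1 i (ind {y})) =
      TL.cfE 1 5 (TL.Full (sdat m St t k c).J St t k c rho) := by
    rw [h3]
    rfl
  rw [h4]
  exact TL.cf1_Full_five (N := (sdat m St t k c).N) hC.st
    ((sdat_ok hg hC).supp1 y (subset_refl _)) h1

lemma StarCfg.cf15_in {s : α × α} (hs : s ∈ St) {y : α} (hy : y ∈ TL.VS t k c s) :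
    TL.cf 1 5 (VL1 i (ind {y})) = (sdat m St t k c).f15 s y := by
  obtain ⟨rho, f, f1, f2, h1, hf, hf1, hf2, h2⟩ := hC.full1s hg hl hdeg hs hy
  have h3 : VL1 i (ind {y}) =
      Ev wA (f * TL.Full (sdat m St t k c).J (St.erase s) t k c rho) := h2.ev
  have h4 : TL.cf 1 5 (VL1 i (ind {y})) =
      TL.cfE 1 5 (f * TL.Full (sdat m St t k c).J (St.erase s) t k c rho) := by
    rw [h3]
    rfl
  have hU : ∀ s' ∈ St.erase s, Disjoint (TL.VS t k c s) (TL.VS t k c s') := by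
    intro s' hs'
    rw [mem_erase] at hs'
    exact hC.st.disj hs hs'.2 hs'.1.symm
  rw [h4]
  exact TL.cf1_frame_five (N := (sdat m St t k c).N) (hC.st.sub (erase_subset _ _))
    ((sdat_ok hg hC).supp1 y (erase_subset _ _)) hU h1 hf
    ((sdat m St t k c).frU_inVS s y) ((sdat m St t k c).frV_inVS s y) hf1 hf2
    ((sdat m St t k c).frP_inVS s y)

/-- the coefficient of `Z ^ 4` with two units of energy on the row -/
lemma StarCfg.sum_KL4 : 2 * ∑ κ ∈ KL α i 2, TL.cf 0 4 (VG i κ) =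
    (St.card : ℤ) ^ 2 - St.card := by
  have h := congrArg (fun P : Polynomial ℤ => P.coeff 4) (sum_KL_cc hg hl hdeg hC)
  have h1 : ∑ κ ∈ KL α i 2, TL.cf 0 4 (VG i κ) =
      (∑ κ ∈ KL α i 2, cc (Ev wA (∏ p ∈ N1 α i, GA i κ p))).coeff 4 := by
    rw [Polynomial.finsetSum_coeff]
    apply sum_congr rfl
    intro κ _
    rw [TL.cf_apply, PowerSeries.coeff_zero_eq_constantCoeff]
    rfl
  have h2 : (2 * ∑ κ ∈ KL α i 2, cc (Ev wA (∏ p ∈ N1 α i, GA i κ p))).coeff 4 =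
      2 * (∑ κ ∈ KL α i 2, cc (Ev wA (∏ p ∈ N1 α i, GA i κ p))).coeff 4 := by
    have : (2 : Polynomial ℤ) = Polynomial.C 2 := rfl
    rw [this, Polynomial.coeff_C_mul]
  have h3 : ((((lev α i).card : Polynomial ℤ) - (St.card : Polynomial ℤ) *
        Polynomial.X ^ 2) ^ 2 +
        (St.card : Polynomial ℤ) * (5 * Polynomial.X ^ 2 - Polynomial.X ^ 4) +
      (((lev α i).card : Polynomial ℤ) - (St.card : Polynomial ℤ) * Polynomial.X ^ 2)) =
      Polynomial.C (((lev α i).card : ℤ) ^ 2 + (lev α i).card) +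
        Polynomial.C (4 * (St.card : ℤ) - 2 * (lev α i).card * St.card) * Polynomial.X ^ 2 +
        Polynomial.C ((St.card : ℤ) ^ 2 - St.card) * Polynomial.X ^ 4 := by
    simp only [map_add, map_sub, map_mul, map_pow, map_natCast]
    have : (Polynomial.C (4 : ℤ) : Polynomial ℤ) = 4 := rfl
    have h2 : (Polynomial.C (2 : ℤ) : Polynomial ℤ) = 2 := rfl
    rw [this, h2]
    ring
  rw [h2, h3] at h
  rw [h1]
  obtain ⟨S, hS'⟩ : ∃ S, S = (∑ κ ∈ KL α i 2, cc (Ev wA (∏ p ∈ N1 α i, GA i κ p))).coeff 4 :=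
    ⟨_, rfl⟩
  rw [← hS'] at h ⊢
  simp only [Polynomial.coeff_add, Polynomial.coeff_C_mul, Polynomial.coeff_X_pow,
    Polynomial.coeff_C] at h
  norm_num at h
  linarith

end equation

/-- **the equation of the coefficient of `w² Z⁶`** -/
theorem StarCfg.eqn6 {m : Mat α i} {St : Finset (α × α)} {t k c : α × α → α}
    {h : Fin (Fintype.card α) → ℕ} (hG : IsGaussianWith α h)
    (hl : HasLower α i) (hdeg : ∀ p : α, (bd i p).card ≤ 2) (h4 : U4 α i = ∅)
    (hC : StarCfg m St t k c) :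
    (sdat m St t k c).R26 = 2 * ∑ u ∈ U3 α i, (sgz i u * eta' St t k c 3 (BB i u) +
      eta' St t k c 2 (BB i u)) - 2 * SY α i 2 := by
  have hg := grad hG
  obtain ⟨KN, h0, h1⟩ := exists_KNcf2 hG hl hdeg h4
  have h1 := h1 2
  rw [cf_low h0 (by norm_num)] at h1
  have hok := sdat_ok hg hC
  have hL : ∀ s ∈ St, TL.VS t k c s ⊆ lev α i := hok.slev
  have e1 := hC.cf26_VL hg hl hdeg
  have e2 : ∑ y ∈ lev α i, TL.cf 1 5 (VL1 i (ind {y})) =
      ∑ s ∈ St, ∑ y ∈ TL.VS t k c s, (sdat m St t k c).f15 s y := by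
    rw [sum_lev_split hC.st hL]
    have e3 : ∑ y ∈ lev α i \ St.biUnion (TL.VS t k c), TL.cf 1 5 (VL1 i (ind {y})) = 0 :=
      sum_eq_zero fun y hy => hC.cf15_out hg hl hdeg (notMem_of_sdiff hy)
    rw [e3, zero_add]
    exact sum_congr rfl fun s hs => sum_congr rfl fun y hy => hC.cf15_in hg hl hdeg hs hy
  have e3 := hC.sum_KL4 hg hl hdeg
  have e4 : ∑ u ∈ U3 α i, (sgz i u * TL.cf 0 3 (V3 i u) + TL.cf 0 2 (V3 i u)) =
      - ∑ u ∈ U3 α i, (sgz i u * eta' St t k c 3 (BB i u) + eta' St t k c 2 (BB i u)) := by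
    rw [← sum_neg_distrib]
    apply sum_congr rfl
    intro u hu
    rw [hC.cf0_V3 hg hl hdeg hu, hC.cf0_V3 hg hl hdeg hu]
    ring
  have e5 : (sdat m St t k c).R26 = (sdat m St t k c).a26 +
      2 * ∑ s ∈ St, ∑ y ∈ TL.VS t k c s, (sdat m St t k c).f15 s y +
      ((St.card : ℤ) ^ 2 - St.card) := rfl
  norm_num at h1
  rw [e2, e4] at h1
  rw [e5]
  linear_combination - e1 - e3 - 2 * h1

/-- **the local form of the equation of `w² Z⁶`** -/
theorem StarCfg.local_six {m : Mat α i} {St : Finset (α × α)} {t k c : α × α → α}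
    {h : Fin (Fintype.card α) → ℕ} (hG : IsGaussianWith α h)
    (hl : HasLower α i) (hdeg : ∀ p : α, (bd i p).card ≤ 2) (h4 : U4 α i = ∅)
    (hC : StarCfg m St t k c) (hT : StarTip α i St t k c) :
    (sdat m St t k c).loc6 = 8 * (∑ u ∈ U3 α i, (sgz i u * eta' St t k c 3 (BB i u) +
      eta' St t k c 2 (BB i u)) - ∑ u ∈ U2 α i, ∑ y ∈ (lev α i).filter (fun y => ObY i u y),
      eta' St t k c 2 ((BB i u).erase y)) := by
  have hg := grad hG
  have e1 := hC.eqn6 hG hl hdeg h4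
  obtain ⟨f1, f2, f3, -⟩ := hC.local_final hG hl hdeg h4
  have e2 := TL.SDat.R26_eq (sdat_ok hg hC)
  have e3 := hC.SY_eq hg hl hdeg h4 hT 2
  have f3' : ∑ p ∈ (sdat m St t k c).St.offDiag, (sdat m St t k c).bb p.1 p.2 = 0 := f3
  rw [f1, f2, f3'] at e2
  rw [← e3]
  linear_combination 4 * e1 - e2

end Pool.Gauss
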