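import Mathlib

set_option autoImplicit false
open scoped Classical
open Finset ExteriorAlgebra

/-!
# The top coefficient on the exterior algebra of `A ^ n` and base change
-/

namespace Pool.Gauss.Stair

section top
variable (n : ℕ) (A : Type*) [CommRing A]

/-- the top coefficient on the exterior algebra of `A ^ n` -/
noncomputable def top : ExteriorAlgebra A (Fin n → A) →ₗ[A] A :=
  liftAlternating (Pi.single n (Matrix.detRowAlternating : (Fin n → A) [⋀^Fin n]→ₗ[A] A))

lemma top_ιMulti (v : Fin n → Fin n → A) : top n A (ιMulti A n v) = Matrix.det v := by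
  rw [top, liftAlternating_apply_ιMulti, Pi.single_eq_same]
  rfl

lemma top_ιMulti_ne {r : ℕ} (h : r ≠ n) (v : Fin r → Fin n → A) :
    top n A (ιMulti A r v) = 0 := by
  rw [top, liftAlternating_apply_ιMulti, Pi.single_eq_of_ne h]
  rfl

lemma top_eq_zero {r : ℕ} (h : r ≠ n) {x : ExteriorAlgebra A (Fin n → A)}
    (hx : x ∈ ⋀[A]^r (Fin n → A)) : top n A x = 0 := by
  rw [← ιMulti_span_fixedDegree] at hx
  induction hx using Submodule.span_induction with
  | mem x hx =>
    obtain ⟨v, rfl⟩ := hx
    exact top_ιMulti_ne n A h v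
  | zero => exact map_zero _
  | add x y _ _ hx hy => rw [map_add, hx, hy, add_zero]
  | smul a x _ hx => rw [map_smul, hx, smul_zero]

end top

section base
variable {n : ℕ} {A B : Type*} [CommRing A] [CommRing B]

/-- base change -/
noncomputable def bc (f : A →+* B) :
    ExteriorAlgebra A (Fin n → A) →+* ExteriorAlgebra B (Fin n → B) := by
  letI : Algebra A (ExteriorAlgebra B (Fin n → B)) :=
    Algebra.compHom (ExteriorAlgebra B (Fin n → B)) f
  exact (ExteriorAlgebra.lift A (A := ExteriorAlgebra B (Fin n → B))
    ⟨{ toFun := fun w => ι B (fun j => f (w j))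
       map_add' := fun w w' => by
        rw [← map_add]
        congr 1
        funext j
        simp
       map_smul' := fun a w => by
        change _ = f a • ι B (fun j => f (w j))
        rw [← map_smul]
        congr 1
        funext j
        simp }, fun m => ι_sq_zero _⟩).toRingHom

lemma bc_ι (f : A →+* B) (w : Fin n → A) : bc f (ι A w) = ι B (fun j => f (w j)) := by
  let _ : Algebra A (ExteriorAlgebra B (Fin n → B)) :=
    Algebra.compHom (ExteriorAlgebra B (Fin n → B)) f
  exact ExteriorAlgebra.lift_ι_apply _ _ _ _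

lemma bc_algebraMap (f : A →+* B) (a : A) :
    bc f (algebraMap A (ExteriorAlgebra A (Fin n → A)) a) =
      algebraMap B (ExteriorAlgebra B (Fin n → B)) (f a) := by
  let _ : Algebra A (ExteriorAlgebra B (Fin n → B)) :=
    Algebra.compHom (ExteriorAlgebra B (Fin n → B)) f
  exact AlgHom.commutes _ _

lemma bc_smul (f : A →+* B) (a : A) (x : ExteriorAlgebra A (Fin n → A)) :
    bc f (a • x) = f a • bc f x := by
  rw [Algebra.smul_def, map_mul, bc_algebraMap, ← Algebra.smul_def]

lemma bc_ιMulti (f : A →+* B) {r : ℕ} (v : Fin r → Fin n → A) :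
    bc f (ιMulti A r v) = ιMulti B r (fun i j => f (v i j)) := by
  rw [ιMulti_apply, ιMulti_apply, map_list_prod, List.map_ofFn]
  congr 2
  funext i
  exact bc_ι f (v i)

lemma top_bc (f : A →+* B) (x : ExteriorAlgebra A (Fin n → A)) :
    top n B (bc f x) = f (top n A x) := by
  have h : x ∈ (⊤ : Submodule A (ExteriorAlgebra A (Fin n → A))) := trivial
  rw [← ExteriorAlgebra.ιMulti_span] at h
  induction h using Submodule.span_induction with
  | mem x hx =>
    obtain ⟨⟨r, v⟩, rfl⟩ := hx
    dsimp only
    rw [bc_ιMulti]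
    by_cases h : r = n
    · subst h
      rw [top_ιMulti, top_ιMulti, RingHom.map_det]
      rfl
    · rw [top_ιMulti_ne _ _ h, top_ιMulti_ne _ _ h, map_zero]
  | zero => rw [map_zero, map_zero, map_zero, map_zero]
  | add x y _ _ hx hy => rw [map_add, map_add, map_add, map_add, hx, hy]
  | smul a x _ hx => rw [bc_smul, map_smul, map_smul, smul_eq_mul, smul_eq_mul, map_mul, hx]

end base

end Pool.Gauss.Stair
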