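import Pool.Agent.Work.MP_065141_co.K.StairA

/-!
# The element `exp (om y) * (1 + s y)` of the exterior algebra
-/

set_option autoImplicit false
open scoped Classical
open Finset ExteriorAlgebra

namespace Pool.Gauss.Stair

section gen
variable {A M : Type*} [CommRing A] [AddCommGroup M] [Module A M]

lemma sw (a b : M) : ι A a * ι A b = -(ι A b * ι A a) :=
  eq_neg_of_add_eq_zero_left (ι_add_mul_swap a b)

lemma comm3 (a b c : M) : (ι A a * ι A b) * ι A c = ι A c * (ι A a * ι A b) := by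
  rw [mul_assoc, sw b c, mul_neg, ← mul_assoc, sw a c, neg_mul, neg_neg, mul_assoc]

lemma comm4 (a b c d : M) : Commute (ι A a * ι A b) (ι A c * ι A d) := by
  change _ * _ = _ * _
  rw [← mul_assoc, comm3, mul_assoc, comm3, ← mul_assoc]

lemma sq2 (a b : M) : (ι A a * ι A b) * (ι A a * ι A b) = 0 := by
  rw [← mul_assoc, comm3, ← mul_assoc, ι_sq_zero, zero_mul, zero_mul]

end gen

section om
variable {n : ℕ} {K : Type*} [Field K] (q : K) {A : Type*} [CommRing A] [Algebra K A]

/-- the constants -/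
noncomputable def cc (a : ℕ) : K := (1 - q ^ a)⁻¹

/-- the vector `(y, y ^ 2, ..)` -/
def vv (n : ℕ) (y : A) : Fin n → A := fun j => y ^ (j.val + 1)

/-- the sum of the vectors -/
noncomputable def ss (n : ℕ) (y : A) : Fin n → A :=
  fun j => algebraMap K A (cc q (j.val + 1)) * (1 - y ^ (j.val + 1))

/-- the double sums -/
noncomputable def WW (n : ℕ) (y : A) (j k : Fin n) : A :=
  algebraMap K A (cc q (j.val + 1)) * (algebraMap K A (cc q (k.val + 1)) * (1 - y ^ (k.val + 1)) -
    algebraMap K A (cc q (j.val + k.val + 2)) * (1 - y ^ (j.val + k.val + 2)))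

/-- the two-form -/
noncomputable def om (n : ℕ) (y : A) : ExteriorAlgebra A (Fin n → A) :=
  ∑ j, ∑ k, WW q n y j k • (ι A (Pi.single j (1 : A)) * ι A (Pi.single k (1 : A)))

variable {q}

lemma cc_mul (hq : ∀ a : ℕ, 0 < a → q ^ a ≠ 1) {a : ℕ} (ha : 0 < a) : cc q a * (1 - q ^ a) = 1 :=
  inv_mul_cancel₀ (sub_ne_zero.2 (hq a ha).symm)

lemma ss_q (hq : ∀ a : ℕ, 0 < a → q ^ a ≠ 1) (y : A) :
    ss q n (algebraMap K A q * y) = ss q n y + vv n y := by
  funext j
  have h := congrArg (algebraMap K A) (cc_mul hq (Nat.succ_pos j.val))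
  rw [map_mul, map_sub, map_pow, map_one] at h
  simp only [Nat.succ_eq_add_one] at h
  simp only [ss, vv, Pi.add_apply, mul_pow]
  linear_combination (y ^ (j.val + 1)) * h

lemma WW_q (hq : ∀ a : ℕ, 0 < a → q ^ a ≠ 1) (y : A) (j k : Fin n) :
    WW q n (algebraMap K A q * y) j k = WW q n y j k + ss q n y j * vv n y k := by
  have h1 := congrArg (algebraMap K A) (cc_mul hq (Nat.succ_pos k.val))
  have h2 := congrArg (algebraMap K A) (cc_mul hq (Nat.succ_pos (j.val + k.val + 1)))
  rw [map_mul, map_sub, map_pow, map_one] at h1 h2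
  simp only [WW, ss, vv, mul_pow]
  have e : j.val + k.val + 1 + 1 = j.val + k.val + 2 := rfl
  simp only [Nat.succ_eq_add_one, e] at h1 h2
  have e2 : y ^ (j.val + k.val + 2) = y ^ (j.val + 1) * y ^ (k.val + 1) := by
    rw [← pow_add]
    congr 1
    omega
  rw [e2]
  linear_combination (algebraMap K A (cc q (j.val + 1))) * (y ^ (k.val + 1)) * h1 -
    (algebraMap K A (cc q (j.val + 1))) * (y ^ (j.val + 1) * y ^ (k.val + 1)) * h2

lemma ι_eq_sum (w : Fin n → A) : ι A w = ∑ j, w j • ι A (Pi.single j (1 : A)) := by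
  have h : w = ∑ j, w j • (Pi.single j (1 : A) : Fin n → A) := by
    funext k
    rw [Finset.sum_apply, Finset.sum_eq_single k]
    · simp
    · intro b _ hb
      simp [hb.symm]
    · simp
  conv_lhs => rw [h]
  rw [map_sum]
  simp only [map_smul]

lemma ι_mul_ι (w w' : Fin n → A) : ι A w * ι A w' =
    ∑ j, ∑ k, (w j * w' k) • (ι A (Pi.single j (1 : A)) * ι A (Pi.single k (1 : A))) := by
  rw [ι_eq_sum w, ι_eq_sum w', Finset.sum_mul]
  apply Finset.sum_congr rfl
  intro j _
  rw [Finset.mul_sum]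
  apply Finset.sum_congr rfl
  intro k _
  rw [smul_mul_smul_comm]

lemma om_q (hq : ∀ a : ℕ, 0 < a → q ^ a ≠ 1) (y : A) :
    om q n (algebraMap K A q * y) = om q n y + ι A (ss q n y) * ι A (vv n y) := by
  rw [ι_mul_ι, om, om, ← Finset.sum_add_distrib]
  apply Finset.sum_congr rfl
  intro j _
  rw [← Finset.sum_add_distrib]
  apply Finset.sum_congr rfl
  intro k _
  rw [WW_q hq, add_smul]

lemma isNilpotent_om (y : A) : IsNilpotent (om q n y) := by
  rw [om, ← Finset.sum_product']
  apply Commute.isNilpotent_sum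
  · intro i _
    refine ⟨2, ?_⟩
    rw [sq, smul_mul_smul_comm, sq2, smul_zero]
  · intro i j _ _
    exact ((comm4 _ _ _ _).smul_left _).smul_right _

lemma comm_om (y : A) (a b : Fin n → A) : Commute (om q n y) (ι A a * ι A b) := by
  rw [om, ← Finset.sum_product']
  apply Commute.sum_left
  intro i _
  exact (comm4 _ _ _ _).smul_left _

variable [Algebra ℚ A]

/-- the element `Ω y` -/
noncomputable def Om (q : K) (n : ℕ) (y : A) : ExteriorAlgebra A (Fin n → A) :=
  IsNilpotent.exp (om q n y) * (1 + ι A (ss q n y))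

lemma exp_sq {x : ExteriorAlgebra A (Fin n → A)} (h : x * x = 0) :
    IsNilpotent.exp x = 1 + x := by
  rw [IsNilpotent.exp_eq_sum (k := 2) (by rw [sq, h]), Finset.sum_range_succ,
    Finset.sum_range_succ, Finset.sum_range_zero]
  simp

lemma Om_q (hq : ∀ a : ℕ, 0 < a → q ^ a ≠ 1) (y : A) :
    Om q n (algebraMap K A q * y) = Om q n y * (1 + ι A (vv n y)) := by
  rw [Om, Om, om_q hq, ss_q hq,
    IsNilpotent.exp_add_of_commute (comm_om y _ _) (isNilpotent_om y) ⟨2, by rw [sq, sq2]⟩,
    exp_sq (sq2 _ _), mul_assoc, mul_assoc, map_add]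
  congr 1
  set s := ι A (ss q n y)
  set v := ι A (vv n y)
  have h1 : s * s = 0 := ι_sq_zero _
  have h2 : v * v = 0 := ι_sq_zero _
  have h3 : s * v * s = 0 := by
    rw [show s * v = -(v * s) from sw _ _, neg_mul, mul_assoc, h1, mul_zero, neg_zero]
  have h4 : s * v * v = 0 := by rw [mul_assoc, h2, mul_zero]
  have e1 : (1 + s * v) * (1 + (s + v)) = 1 + s + v + s * v + (s * v * s + s * v * v) := by
    noncomm_ring
  have e2 : (1 + s) * (1 + v) = 1 + s + v + s * v := by noncomm_ring
  rw [e1, e2, h3, h4, add_zero, add_zero]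

end om

end Pool.Gauss.Stair
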