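import Pool.Agent.Work.MP_065141_co.K.StairB

/-!
# The polynomial `FF` and its zeros
-/

set_option autoImplicit false
set_option linter.unusedSectionVars false
open scoped Classical
open Finset ExteriorAlgebra

namespace Pool.Gauss.Stair

section nat
variable {n : ℕ} {K : Type*} [Field K] [CharZero K] {q : K}
  {A : Type*} [CommRing A] [Algebra K A] [Algebra ℚ A]
  {B : Type*} [CommRing B] [Algebra K B] [Algebra ℚ B]

lemma bc_om (f : A →ₐ[K] B) (y : A) :
    bc (n := n) (f : A →+* B) (om q n y) = om q n (f y) := by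
  have h : ∀ j : Fin n, bc (f : A →+* B) (ι A (Pi.single j (1 : A))) =
      ι B (Pi.single j (1 : B)) := by
    intro j
    rw [bc_ι]
    congr 1
    funext k
    by_cases hk : k = j
    · subst hk
      simp
    · rw [Pi.single_eq_of_ne hk, Pi.single_eq_of_ne hk]
      simp
  rw [om, om, map_sum]
  apply Finset.sum_congr rfl
  intro j _
  rw [map_sum]
  apply Finset.sum_congr rfl
  intro k _
  rw [bc_smul, map_mul, h, h]
  congr 1
  simp [WW]

lemma bc_Om (f : A →ₐ[K] B) (y : A) :
    bc (n := n) (f : A →+* B) (Om q n y) = Om q n (f y) := by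
  rw [Om, Om, map_mul, map_add, map_one, IsNilpotent.map_exp (isNilpotent_om y), bc_om, bc_ι]
  congr 3
  funext j
  simp [ss]

open Polynomial in
/-- the polynomial -/
noncomputable def FF (q : K) (n : ℕ) : K[X] := top n K[X] (Om q n (X : K[X]))

lemma top_Om (y : A) : top n A (Om q n y) = Polynomial.aeval y (FF q n) := by
  have h := bc_Om (q := q) (n := n) (Polynomial.aeval y : Polynomial K →ₐ[K] A) Polynomial.X
  rw [Polynomial.aeval_X] at h
  rw [← h, top_bc]
  rfl

end nat

section fil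
variable {n : ℕ} {A : Type*} [CommRing A]

variable (n A) in
/-- degree at most `c` -/
def Fil (c : ℕ) : Submodule A (ExteriorAlgebra A (Fin n → A)) :=
  Submodule.span A {x | ∃ r ≤ c, x ∈ ⋀[A]^r (Fin n → A)}

lemma Fil.one : (1 : ExteriorAlgebra A (Fin n → A)) ∈ Fil n A 0 := by
  apply Submodule.subset_span
  refine ⟨0, le_rfl, ?_⟩
  rw [exteriorPower, pow_zero]
  exact Submodule.one_le.1 le_rfl

lemma mem_mul_mem {a b : ℕ} {x y : ExteriorAlgebra A (Fin n → A)}
    (hx : x ∈ ⋀[A]^a (Fin n → A)) (hy : y ∈ ⋀[A]^b (Fin n → A)) :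
    x * y ∈ ⋀[A]^(a + b) (Fin n → A) := by
  rw [exteriorPower, pow_add]
  exact Submodule.mul_mem_mul hx hy

lemma ι_mem (w : Fin n → A) : ι A w ∈ ⋀[A]^1 (Fin n → A) := by
  rw [exteriorPower, pow_one]
  exact LinearMap.mem_range_self _ _

lemma Fil.mul {c : ℕ} {x : ExteriorAlgebra A (Fin n → A)} (hx : x ∈ Fil n A c)
    (w : Fin n → A) : x * (1 + ι A w) ∈ Fil n A (c + 1) := by
  induction hx using Submodule.span_induction with
  | mem x hx =>
    obtain ⟨r, hr, hx⟩ := hx
    rw [mul_add, mul_one]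
    apply Submodule.add_mem
    · exact Submodule.subset_span ⟨r, by omega, hx⟩
    · exact Submodule.subset_span ⟨r + 1, by omega, mem_mul_mem hx (ι_mem w)⟩
  | zero => rw [zero_mul]; exact Submodule.zero_mem _
  | add x y _ _ hx hy => rw [add_mul]; exact Submodule.add_mem _ hx hy
  | smul a x _ hx => rw [smul_mul_assoc]; exact Submodule.smul_mem _ _ hx

lemma Fil.mul' {c : ℕ} {x : ExteriorAlgebra A (Fin n → A)} (hx : x ∈ Fil n A c)
    (w : Fin n → A) : (1 - ι A w) * x ∈ Fil n A (c + 1) := by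
  induction hx using Submodule.span_induction with
  | mem x hx =>
    obtain ⟨r, hr, hx⟩ := hx
    rw [sub_mul, one_mul]
    apply Submodule.sub_mem
    · exact Submodule.subset_span ⟨r, by omega, hx⟩
    · exact Submodule.subset_span ⟨1 + r, by omega, mem_mul_mem (ι_mem w) hx⟩
  | zero => rw [mul_zero]; exact Submodule.zero_mem _
  | add x y _ _ hx hy => rw [mul_add]; exact Submodule.add_mem _ hx hy
  | smul a x _ hx => rw [mul_smul_comm]; exact Submodule.smul_mem _ _ hx

lemma top_mul_Fil {a c : ℕ} (h : a + c < n) {x y : ExteriorAlgebra A (Fin n → A)}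
    (hx : x ∈ ⋀[A]^a (Fin n → A)) (hy : y ∈ Fil n A c) : top n A (x * y) = 0 := by
  induction hy using Submodule.span_induction with
  | mem y hy =>
    obtain ⟨r, hr, hy⟩ := hy
    exact top_eq_zero n A (by omega : a + r ≠ n) (mem_mul_mem hx hy)
  | zero => rw [mul_zero, map_zero]
  | add y z _ _ hy hz => rw [mul_add, map_add, hy, hz, add_zero]
  | smul b y _ hy => rw [mul_smul_comm, map_smul, hy, smul_zero]

end fil

section dvd
variable {n : ℕ} {K : Type*} [Field K] [CharZero K] {q : K}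
  {A : Type*} [CommRing A] [Algebra K A] [Algebra ℚ A]

lemma one_sub_dvd_pow (y : A) (a : ℕ) : (1 - y) ∣ (1 - y ^ a) := by
  have := sub_dvd_pow_sub_pow (1 : A) y a
  rwa [one_pow] at this

lemma exists_om (y : A) : ∃ x ∈ ⋀[A]^2 (Fin n → A), om q n y = (1 - y) • x := by
  have h : ∀ j k : Fin n, ∃ w : A, WW q n y j k = (1 - y) * w := by
    intro j k
    obtain ⟨a, ha⟩ := one_sub_dvd_pow y (k.val + 1)
    obtain ⟨b, hb⟩ := one_sub_dvd_pow y (j.val + k.val + 2)
    refine ⟨algebraMap K A (cc q (j.val + 1)) * (algebraMap K A (cc q (k.val + 1)) * a -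
      algebraMap K A (cc q (j.val + k.val + 2)) * b), ?_⟩
    rw [WW, ha, hb]
    ring
  choose w hw using h
  refine ⟨∑ j, ∑ k, w j k • (ι A (Pi.single j (1 : A)) * ι A (Pi.single k (1 : A))), ?_, ?_⟩
  · apply Submodule.sum_mem
    intro j _
    apply Submodule.sum_mem
    intro k _
    apply Submodule.smul_mem
    exact mem_mul_mem (ι_mem _) (ι_mem _)
  · rw [om, Finset.smul_sum]
    apply Finset.sum_congr rfl
    intro j _
    rw [Finset.smul_sum]
    apply Finset.sum_congr rfl
    intro k _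
    rw [hw, mul_smul]

lemma exists_ss (y : A) : ∃ w : Fin n → A, ss q n y = (1 - y) • w := by
  have h : ∀ j : Fin n, ∃ w : A, ss q n y j = (1 - y) * w := by
    intro j
    obtain ⟨a, ha⟩ := one_sub_dvd_pow y (j.val + 1)
    exact ⟨algebraMap K A (cc q (j.val + 1)) * a, by rw [ss, ha]; ring⟩
  choose w hw using h
  exact ⟨w, funext hw⟩

lemma pow_mem' {x : ExteriorAlgebra A (Fin n → A)} (hx : x ∈ ⋀[A]^2 (Fin n → A)) (i : ℕ) :
    x ^ i ∈ ⋀[A]^(2 * i) (Fin n → A) := by
  induction i with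
  | zero =>
    rw [pow_zero, mul_zero, exteriorPower, pow_zero]
    exact Submodule.one_le.1 le_rfl
  | succ i ih =>
    rw [pow_succ]
    exact mem_mul_mem ih hx

/-- **the order of vanishing** -/
theorem pow_dvd_top {m c : ℕ} (h : 2 * m + c ≤ n + 1) (y : A)
    {R : ExteriorAlgebra A (Fin n → A)} (hR : R ∈ Fil n A c) :
    (1 - y) ^ m ∣ top n A (Om q n y * R) := by
  obtain ⟨x, hx, hx'⟩ := exists_om (q := q) (n := n) y
  obtain ⟨w, hw⟩ := exists_ss (q := q) (n := n) y
  obtain ⟨k, hk⟩ := isNilpotent_om (q := q) (n := n) y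
  rw [Om, IsNilpotent.exp_eq_sum hk, Finset.sum_mul, Finset.sum_mul, map_sum]
  apply Finset.dvd_sum
  intro i _
  rw [hx', smul_pow, smul_mul_assoc, smul_mul_assoc, smul_mul_assoc, smul_mul_assoc]
  rw [map_rat_smul, map_smul, smul_eq_mul]
  rw [Algebra.smul_def]
  apply Dvd.dvd.mul_left
  rw [hw, map_smul, mul_add, mul_one, mul_smul_comm, add_mul, map_add, smul_mul_assoc, map_smul,
    smul_eq_mul, mul_add, ← mul_assoc, ← pow_succ]
  apply dvd_add
  · by_cases hi : m ≤ i
    · exact Dvd.dvd.mul_right (pow_dvd_pow _ hi) _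
    · rw [top_mul_Fil (by omega : 2 * i + c < n) (pow_mem' hx i) hR, mul_zero]
      exact dvd_zero _
  · by_cases hi : m ≤ i + 1
    · exact Dvd.dvd.mul_right (pow_dvd_pow _ hi) _
    · rw [top_mul_Fil (by omega : 2 * i + 1 + c < n) (mem_mul_mem (pow_mem' hx i) (ι_mem w)) hR,
        mul_zero]
      exact dvd_zero _

end dvd

end Pool.Gauss.Stair
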