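import Pool.Agent.Work.MP_065141_co.K.StairC

/-!
# Zeros, degree and values of the polynomial `FF`
-/

set_option autoImplicit false
set_option linter.unusedSectionVars false
open scoped Classical
open Finset ExteriorAlgebra

namespace Pool.Gauss.Stair

section shift
variable {n : ℕ} {K : Type*} [Field K] [CharZero K] {q : K}
  {A : Type*} [CommRing A] [Algebra K A] [Algebra ℚ A]

/-- the ordered product of the `1 + v` -/
noncomputable def PP (q : K) (n : ℕ) (y : A) : ℕ → ExteriorAlgebra A (Fin n → A)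
  | 0 => 1
  | c + 1 => PP q n y c * (1 + ι A (vv n (algebraMap K A (q ^ c) * y)))

/-- the inverse -/
noncomputable def PI (q : K) (n : ℕ) (y : A) : ℕ → ExteriorAlgebra A (Fin n → A)
  | 0 => 1
  | c + 1 => (1 - ι A (vv n (algebraMap K A (q ^ c) * y))) * PI q n y c

lemma PP_mem (y : A) (c : ℕ) : PP q n y c ∈ Fil n A c := by
  induction c with
  | zero => exact Fil.one
  | succ c ih => exact Fil.mul ih _

lemma PI_mem (y : A) (c : ℕ) : PI q n y c ∈ Fil n A c := by
  induction c with
  | zero => exact Fil.one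
  | succ c ih => exact Fil.mul' ih _

lemma PP_mul_PI (y : A) (c : ℕ) : PP q n y c * PI q n y c = 1 := by
  induction c with
  | zero => exact mul_one 1
  | succ c ih =>
    rw [PP, PI, mul_assoc, ← mul_assoc (1 + ι A (vv n (algebraMap K A (q ^ c) * y)))]
    have h : (1 + ι A (vv n (algebraMap K A (q ^ c) * y))) *
        (1 - ι A (vv n (algebraMap K A (q ^ c) * y))) = 1 := by
      have h1 := ι_sq_zero (R := A) (vv n (algebraMap K A (q ^ c) * y))
      rw [mul_sub, mul_one, add_mul, one_mul, h1]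
      abel
    rw [h, one_mul, ih]

lemma Om_PP (hq : ∀ a : ℕ, 0 < a → q ^ a ≠ 1) (y : A) (c : ℕ) :
    Om q n (algebraMap K A (q ^ c) * y) = Om q n y * PP q n y c := by
  induction c with
  | zero => rw [pow_zero, map_one, one_mul, PP, mul_one]
  | succ c ih =>
    rw [PP, ← mul_assoc, ← ih, ← Om_q hq, pow_succ', map_mul, mul_assoc]

lemma Om_one : Om q n (1 : A) = 1 := by
  have h1 : om q n (1 : A) = 0 := by
    rw [om]
    apply Finset.sum_eq_zero
    intro j _
    apply Finset.sum_eq_zero
    intro k _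
    simp [WW]
  have h2 : ss q n (1 : A) = 0 := by
    funext j
    simp [ss]
  rw [Om, h1, h2, IsNilpotent.exp_zero, map_zero, add_zero, mul_one]

end shift

section zeros
variable {n : ℕ} {K : Type*} [Field K] [CharZero K] {q : K}

open Polynomial in
lemma dvd_of_comp {a : K} (ha : a ≠ 0) {F : K[X]} {m : ℕ}
    (h : (1 - X : K[X]) ^ m ∣ aeval (C a * X : K[X]) F) : (X - C a) ^ m ∣ F := by
  have h1 : aeval (C a⁻¹ * X : K[X]) (aeval (C a * X : K[X]) F) = F := by
    rw [← aeval_algHom_apply]
    have : aeval (C a⁻¹ * X : K[X]) (C a * X : K[X]) = X := by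
      rw [map_mul, aeval_X, aeval_C, ← mul_assoc]
      change C a * C a⁻¹ * X = X
      rw [← C_mul, mul_inv_cancel₀ ha, C_1, one_mul]
    rw [this, aeval_X_left_apply]
  obtain ⟨G, hG⟩ := h
  rw [hG, map_mul, map_pow, map_sub, map_one, aeval_X] at h1
  rw [← h1]
  apply Dvd.dvd.mul_right
  refine ⟨(C (-a⁻¹)) ^ m, ?_⟩
  rw [← mul_pow]
  congr 1
  rw [sub_mul, ← C_mul, mul_neg, mul_inv_cancel₀ ha]
  simp only [C_neg, C_1]
  ring

open Polynomial in
/-- zeros at `q ^ c` -/
theorem zero_pos (hq : ∀ a : ℕ, 0 < a → q ^ a ≠ 1) (hq0 : q ≠ 0) {m c : ℕ}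
    (h : 2 * m + c ≤ n + 1) : (X - C (q ^ c)) ^ m ∣ FF q n := by
  apply dvd_of_comp (pow_ne_zero c hq0)
  have h1 := Om_PP (n := n) hq (X : K[X]) c
  have h2 := top_Om (q := q) (n := n) (algebraMap K K[X] (q ^ c) * X : K[X])
  rw [h1] at h2
  change _ ∣ aeval (algebraMap K K[X] (q ^ c) * X : K[X]) (FF q n)
  rw [← h2]
  exact pow_dvd_top h X (PP_mem X c)

open Polynomial in
/-- zeros at `q ^ (- c)` -/
theorem zero_neg (hq : ∀ a : ℕ, 0 < a → q ^ a ≠ 1) (hq0 : q ≠ 0) {m c : ℕ}
    (h : 2 * m + c ≤ n + 1) : (X - C ((q ^ c)⁻¹)) ^ m ∣ FF q n := by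
  apply dvd_of_comp (inv_ne_zero (pow_ne_zero c hq0))
  have h1 := Om_PP (n := n) hq (algebraMap K K[X] ((q ^ c)⁻¹) * X : K[X]) c
  rw [← mul_assoc, ← map_mul, mul_inv_cancel₀ (pow_ne_zero c hq0), map_one, one_mul] at h1
  have h3 : Om q n (algebraMap K K[X] ((q ^ c)⁻¹) * X : K[X]) =
      Om q n (X : K[X]) * PI q n (algebraMap K K[X] ((q ^ c)⁻¹) * X : K[X]) c := by
    rw [h1, mul_assoc, PP_mul_PI, mul_one]
  have h2 := top_Om (q := q) (n := n) (algebraMap K K[X] ((q ^ c)⁻¹) * X : K[X])
  rw [h3] at h2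
  change _ ∣ aeval (algebraMap K K[X] ((q ^ c)⁻¹) * X : K[X]) (FF q n)
  rw [← h2]
  exact pow_dvd_top h X (PI_mem _ c)

/-- values at `q ^ δ` -/
theorem FF_eval (hq : ∀ a : ℕ, 0 < a → q ^ a ≠ 1) (δ : ℕ) :
    (FF q n).eval (q ^ δ) = top n K (PP q n (1 : K) δ) := by
  have h := Om_PP (n := n) hq (1 : K) δ
  rw [Om_one, one_mul, mul_one] at h
  rw [← h, top_Om]
  rfl

end zeros

section deg
variable {n : ℕ} {K : Type*} [Field K] [CharZero K] {q : K}

open Polynomial

variable (n K) in
/-- the span of the monomials of bounded weight -/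
noncomputable def HH : Submodule K (ExteriorAlgebra K[X] (Fin n → K[X])) :=
  Submodule.span K {x | ∃ (r : ℕ) (j : Fin r → Fin n) (e : ℕ), e ≤ ∑ i, ((j i).val + 1) ∧
    x = (X : K[X]) ^ e • ιMulti K[X] r (fun i => Pi.single (j i) (1 : K[X]))}

lemma HH.mul {x y : ExteriorAlgebra K[X] (Fin n → K[X])} (hx : x ∈ HH n K) (hy : y ∈ HH n K) :
    x * y ∈ HH n K := by
  induction hx using Submodule.span_induction with
  | mem x hx =>
    obtain ⟨r, j, e, he, rfl⟩ := hx
    induction hy using Submodule.span_induction with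
    | mem y hy =>
      obtain ⟨r', j', e', he', rfl⟩ := hy
      apply Submodule.subset_span
      refine ⟨r + r', Fin.append j j', e + e', ?_, ?_⟩
      · rw [Fin.sum_univ_add]
        simp only [Fin.append_left, Fin.append_right]
        omega
      · rw [smul_mul_smul_comm, ← pow_add, ιMulti_mul_ιMulti]
        congr 2
        funext i
        refine Fin.addCases (fun i => ?_) (fun i => ?_) i
        · simp only [Fin.append_left]
        · simp only [Fin.append_right]
    | zero => rw [mul_zero]; exact Submodule.zero_mem _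
    | add y z _ _ hy hz => rw [mul_add]; exact Submodule.add_mem _ hy hz
    | smul a y _ hy => rw [mul_smul_comm]; exact Submodule.smul_mem _ _ hy
  | zero => rw [zero_mul]; exact Submodule.zero_mem _
  | add x z _ _ hx hz => rw [add_mul]; exact Submodule.add_mem _ hx hz
  | smul a x _ hx => rw [smul_mul_assoc]; exact Submodule.smul_mem _ _ hx

lemma HH.one : (1 : ExteriorAlgebra K[X] (Fin n → K[X])) ∈ HH n K := by
  apply Submodule.subset_span
  refine ⟨0, Fin.elim0, 0, by simp, ?_⟩
  rw [pow_zero, one_smul, ιMulti_zero_apply]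

lemma HH.pow {x : ExteriorAlgebra K[X] (Fin n → K[X])} (hx : x ∈ HH n K) (i : ℕ) :
    x ^ i ∈ HH n K := by
  induction i with
  | zero => rw [pow_zero]; exact HH.one
  | succ i ih => rw [pow_succ]; exact HH.mul ih hx

lemma HH.ι (j : Fin n) {e : ℕ} (he : e ≤ j.val + 1) :
    (X : K[X]) ^ e • ExteriorAlgebra.ι K[X] (Pi.single j (1 : K[X]) : Fin n → K[X]) ∈ HH n K := by
  apply Submodule.subset_span
  refine ⟨1, fun _ => j, e, by simpa using he, ?_⟩
  rw [ιMulti_apply]
  simp

lemma HH.C_smul {x : ExteriorAlgebra K[X] (Fin n → K[X])} (hx : x ∈ HH n K) (a : K) :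
    (C a : K[X]) • x ∈ HH n K := by
  have : (C a : K[X]) • x = a • x := by
    rw [← algebraMap_smul K[X] a x]
    rfl
  rw [this]
  exact Submodule.smul_mem _ _ hx

lemma HH.ss : ExteriorAlgebra.ι K[X] (ss q n (X : K[X])) ∈ HH n K := by
  rw [ι_eq_sum]
  apply Submodule.sum_mem
  intro j _
  have h0 := HH.ι (K := K) j (Nat.zero_le _)
  rw [pow_zero, one_smul] at h0
  have h1 := HH.ι (K := K) j (le_refl _)
  have : Stair.ss q n (X : K[X]) j •
        ExteriorAlgebra.ι K[X] (Pi.single j (1 : K[X]) : Fin n → K[X]) =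
      (C (cc q (j.val + 1)) : K[X]) •
        (ExteriorAlgebra.ι K[X] (Pi.single j (1 : K[X]) : Fin n → K[X]) -
        (X : K[X]) ^ (j.val + 1) •
          ExteriorAlgebra.ι K[X] (Pi.single j (1 : K[X]) : Fin n → K[X])) := by
    rw [Stair.ss, mul_smul, sub_smul, one_smul]
    rfl
  rw [this]
  exact HH.C_smul (Submodule.sub_mem _ h0 h1) _

lemma HH.om : om q n (X : K[X]) ∈ HH n K := by
  rw [Stair.om]
  apply Submodule.sum_mem
  intro j _
  apply Submodule.sum_mem
  intro k _
  set x := ExteriorAlgebra.ι K[X] (Pi.single j (1 : K[X]) : Fin n → K[X])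
  set z := ExteriorAlgebra.ι K[X] (Pi.single k (1 : K[X]) : Fin n → K[X])
  have hx : x ∈ HH n K := by
    have h0 := HH.ι (K := K) j (Nat.zero_le _)
    rwa [pow_zero, one_smul] at h0
  have hz : z ∈ HH n K := by
    have h0 := HH.ι (K := K) k (Nat.zero_le _)
    rwa [pow_zero, one_smul] at h0
  have h1 : x * z ∈ HH n K := HH.mul hx hz
  have h2 : (X : K[X]) ^ (k.val + 1) • (x * z) ∈ HH n K := by
    rw [← mul_smul_comm]
    exact HH.mul hx (HH.ι k le_rfl)
  have h3 : (X : K[X]) ^ (j.val + k.val + 2) • (x * z) ∈ HH n K := by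
    have := HH.mul (HH.ι (K := K) j le_rfl) (HH.ι k le_rfl)
    rw [smul_mul_smul_comm, ← pow_add] at this
    have e : j.val + 1 + (k.val + 1) = j.val + k.val + 2 := by omega
    rwa [e] at this
  have : WW q n (X : K[X]) j k • (x * z) = (C (cc q (j.val + 1)) : K[X]) •
      ((C (cc q (k.val + 1)) : K[X]) • (x * z - (X : K[X]) ^ (k.val + 1) • (x * z)) -
        (C (cc q (j.val + k.val + 2)) : K[X]) •
          (x * z - (X : K[X]) ^ (j.val + k.val + 2) • (x * z))) := by
    rw [WW]
    simp only [mul_smul, sub_smul, one_smul]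
    rfl
  rw [this]
  exact HH.C_smul (Submodule.sub_mem _ (HH.C_smul (Submodule.sub_mem _ h1 h2) _)
    (HH.C_smul (Submodule.sub_mem _ h1 h3) _)) _

lemma HH.Om : Om q n (X : K[X]) ∈ HH n K := by
  obtain ⟨k, hk⟩ := isNilpotent_om (q := q) (n := n) (X : K[X])
  rw [Stair.Om, IsNilpotent.exp_eq_sum hk]
  apply HH.mul
  · apply Submodule.sum_mem
    intro i _
    have h : ∀ (r : ℚ) (x : ExteriorAlgebra K[X] (Fin n → K[X])), x ∈ HH n K →
        r • x ∈ HH n K := by
      intro r x hx
      have : r • x = (C (algebraMap ℚ K r) : K[X]) • x := by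
        rw [← algebraMap_smul K[X] r x]
        rfl
      rw [this]
      exact HH.C_smul hx _
    exact h _ _ (HH.pow HH.om i)
  · exact Submodule.add_mem _ HH.one HH.ss

lemma natDegree_top {x : ExteriorAlgebra K[X] (Fin n → K[X])} (hx : x ∈ HH n K) :
    (top n K[X] x).natDegree ≤ ∑ j : Fin n, (j.val + 1) := by
  induction hx using Submodule.span_induction with
  | mem x hx =>
    obtain ⟨r, j, e, he, rfl⟩ := hx
    rw [map_smul]
    by_cases hr : r = n
    · subst hr
      by_cases hj : Function.Injective j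
      · rw [smul_eq_mul]
        have h1 : ∑ i, ((j i).val + 1) = ∑ i : Fin r, (i.val + 1) :=
          Equiv.sum_comp (Equiv.ofBijective j (Finite.injective_iff_bijective.1 hj))
            (fun i => i.val + 1)
        rw [h1] at he
        refine natDegree_mul_le.trans ?_
        have h2 : (top r K[X] (ιMulti K[X] r
            (fun i => Pi.single (j i) (1 : K[X])))).natDegree ≤ 0 := by
          rw [top_ιMulti]
          have h3 : Matrix.det (fun i => (Pi.single (j i) (1 : K[X]) : Fin r → K[X])) =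
              C (Matrix.det (fun i => (Pi.single (j i) (1 : K) : Fin r → K))) := by
            rw [RingHom.map_det]
            congr 1
            funext i k
            by_cases hk : k = j i
            · subst hk
              simp
            · simp [hk]
          rw [h3, natDegree_C]
        have h4 := natDegree_X_pow_le (R := K) e
        omega
      · rw [ιMulti_eq_zero_of_not_inj, map_zero, smul_zero, natDegree_zero]
        · exact Nat.zero_le _
        · intro h
          apply hj
          intro a b hab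
          apply h
          dsimp only
          rw [hab]
    · rw [top_ιMulti_ne _ _ hr, smul_zero, natDegree_zero]
      exact Nat.zero_le _
  | zero => rw [map_zero, natDegree_zero]; exact Nat.zero_le _
  | add x y _ _ hx hy => rw [map_add]; exact (natDegree_add_le _ _).trans (max_le hx hy)
  | smul a x _ hx =>
    have : a • x = (C a : K[X]) • x := by
      rw [← algebraMap_smul K[X] a x]
      rfl
    rw [this, map_smul, smul_eq_mul]
    exact (natDegree_C_mul_le _ _).trans hx

theorem natDegree_FF : (FF q n).natDegree ≤ ∑ j : Fin n, (j.val + 1) :=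
  natDegree_top HH.Om

end deg

end Pool.Gauss.Stair
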