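import Pool.Agent.Work.MP_065141_co.K.StairD

/-!
# The factorisation of the polynomial `FF` and its values
-/

set_option autoImplicit false
set_option linter.unusedSectionVars false
open scoped Classical
open Finset ExteriorAlgebra

namespace Pool.Gauss.Stair

section fac
variable {n : ℕ} {K : Type*} [Field K] [CharZero K] {q : K}

open Polynomial

variable (n) in
/-- the pairs -/
def prs : Finset (Fin n × Fin n) := univ.filter fun p => p.1 ≤ p.2

lemma card_fib {s : ℕ} (hs : s + 1 < 2 * n) :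
    2 * ((prs n).filter (fun p => p.1.val + p.2.val = s)).card +
      ((n : ℤ) - 1 - s).natAbs ≤ n + 1 := by
  have h1 : ((prs n).filter (fun p => p.1.val + p.2.val = s)).card ≤
      (Finset.Icc (s + 1 - n) (s / 2)).card := by
    apply Finset.card_le_card_of_injOn (fun p => p.1.val)
    · intro p hp
      rw [Finset.mem_coe, mem_filter, prs, mem_filter] at hp
      obtain ⟨⟨_, h1⟩, h2⟩ := hp
      rw [Fin.le_def] at h1
      have := p.2.isLt
      rw [Finset.mem_coe, Finset.mem_Icc]
      dsimp only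
      constructor
      · omega
      · omega
    · intro p hp p' hp' h
      rw [Finset.mem_coe, mem_filter, prs, mem_filter] at hp hp'
      dsimp only at h
      have h1 : p.1 = p'.1 := Fin.ext h
      have h2 : p.2 = p'.2 := by
        apply Fin.ext
        have := hp.2
        have := hp'.2
        omega
      exact Prod.ext h1 h2
  rw [Nat.card_Icc] at h1
  omega

lemma zpow_inj (hq : ∀ a : ℕ, 0 < a → q ^ a ≠ 1) (hq0 : q ≠ 0) {a b : ℤ} (h : q ^ a = q ^ b) :
    a = b := by
  by_contra hab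
  have h1 : q ^ (a - b) = 1 := by
    rw [zpow_sub₀ hq0, h, div_self (zpow_ne_zero b hq0)]
  have h2 : q ^ (b - a) = 1 := by
    rw [zpow_sub₀ hq0, h, div_self (zpow_ne_zero b hq0)]
  rcases lt_or_gt_of_ne hab with h3 | h3
  · apply hq (b - a).toNat (by omega)
    rw [← zpow_natCast, Int.toNat_of_nonneg (by omega), h2]
  · apply hq (a - b).toNat (by omega)
    rw [← zpow_natCast, Int.toNat_of_nonneg (by omega), h1]

lemma fac_dvd (hq : ∀ a : ℕ, 0 < a → q ^ a ≠ 1) (hq0 : q ≠ 0) {s m : ℕ}
    (h : 2 * m + ((n : ℤ) - 1 - s).natAbs ≤ n + 1) :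
    (X - C (q ^ ((n : ℤ) - 1 - s))) ^ m ∣ FF q n := by
  rcases le_or_gt 0 ((n : ℤ) - 1 - s) with h1 | h1
  · have e : q ^ ((n : ℤ) - 1 - s) = q ^ ((n : ℤ) - 1 - s).natAbs := by
      rw [← zpow_natCast, Int.natAbs_of_nonneg h1]
    rw [e]
    exact zero_pos hq hq0 h
  · have e : q ^ ((n : ℤ) - 1 - s) = (q ^ ((n : ℤ) - 1 - s).natAbs)⁻¹ := by
      rw [← zpow_natCast, ← zpow_neg, Int.ofNat_natAbs_of_nonpos h1.le, neg_neg]
    rw [e]
    exact zero_neg hq hq0 h

/-- the product -/
noncomputable def ZZ (q : K) (n : ℕ) : K[X] :=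
  ∏ p ∈ prs n, (X - C (q ^ ((n : ℤ) - 1 - (p.1.val + p.2.val : ℕ))))

lemma ZZ_dvd (hq : ∀ a : ℕ, 0 < a → q ^ a ≠ 1) (hq0 : q ≠ 0) : ZZ q n ∣ FF q n := by
  have h1 : ZZ q n = ∏ s ∈ range (2 * n - 1),
      (X - C (q ^ ((n : ℤ) - 1 - s))) ^
        ((prs n).filter (fun p => p.1.val + p.2.val = s)).card := by
    rw [ZZ, ← Finset.prod_fiberwise_of_maps_to (t := range (2 * n - 1))
      (g := fun p : Fin n × Fin n => p.1.val + p.2.val)]
    · apply Finset.prod_congr rfl
      intro s _
      rw [← Finset.prod_const]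
      apply Finset.prod_congr rfl
      intro p hp
      rw [(mem_filter.1 hp).2]
    · intro p _
      have := p.1.isLt
      have := p.2.isLt
      rw [mem_range]
      omega
  rw [h1]
  apply Finset.prod_dvd_of_coprime
  · intro s _ s' _ hss
    apply IsCoprime.pow
    apply isCoprime_X_sub_C_of_isUnit_sub
    apply IsUnit.mk0
    rw [sub_ne_zero]
    intro h
    have := zpow_inj hq hq0 h
    apply hss
    omega
  · intro s hs
    rw [mem_range] at hs
    exact fac_dvd hq hq0 (card_fib (by omega))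

lemma card_prs : (prs n).card = ∑ j : Fin n, (j.val + 1) := by
  rw [prs, Finset.card_filter, Fintype.sum_prod_type_right]
  apply Finset.sum_congr rfl
  intro j _
  rw [← Finset.card_filter]
  have : (univ.filter fun i : Fin n => (i, j).1 ≤ (i, j).2) = Finset.Iic j := by
    ext i
    simp
  rw [this, Fin.card_Iic]

theorem FF_eq (hq : ∀ a : ℕ, 0 < a → q ^ a ≠ 1) (hq0 : q ≠ 0) :
    ∃ g : K, FF q n = C g * ZZ q n := by
  obtain ⟨G, hG⟩ := ZZ_dvd (n := n) hq hq0
  by_cases h0 : G = 0
  · exact ⟨0, by rw [hG, h0]; simp⟩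
  · have hZ : (ZZ q n).Monic := monic_prod_of_monic _ _ fun p _ => monic_X_sub_C _
    have hd : (ZZ q n).natDegree = ∑ j : Fin n, (j.val + 1) := by
      rw [ZZ, natDegree_prod_of_monic _ _ fun p _ => monic_X_sub_C _, ← card_prs]
      simp
    have h1 := natDegree_FF (n := n) (q := q)
    rw [hG, hZ.natDegree_mul' h0, hd] at h1
    have h2 : G.natDegree = 0 := by omega
    obtain ⟨g, hg⟩ := natDegree_eq_zero.1 h2
    exact ⟨g, by rw [hG, ← hg, mul_comm]⟩

end fac

end Pool.Gauss.Stair
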