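import Pool.Agent.Work.MP_065141_co.K.StairE

/-!
# The ordered product as a sum over increasing sequences
-/

set_option autoImplicit false
set_option linter.unusedSectionVars false
open scoped Classical
open Finset ExteriorAlgebra

namespace Pool.Gauss.Stair

/-- monotone sequences with values at most `m` -/
noncomputable def MS (r m : ℕ) : Finset (Fin r → ℕ) :=
  (Fintype.piFinset (fun _ => range (m + 1))).filter Monotone

lemma mem_MS {r m : ℕ} {a : Fin r → ℕ} : a ∈ MS r m ↔ (∀ i, a i ≤ m) ∧ Monotone a := by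
  rw [MS, mem_filter, Fintype.mem_piFinset]
  simp only [mem_range, Nat.lt_succ_iff]

lemma mono_snoc {r : ℕ} {a : Fin r → ℕ} {c : ℕ} :
    Monotone (Fin.snoc a c : Fin (r + 1) → ℕ) ↔ Monotone a ∧ ∀ i, a i ≤ c := by
  constructor
  · intro h
    refine ⟨fun i j hij => ?_, fun i => ?_⟩
    · have := h (Fin.castSucc_le_castSucc_iff.2 hij)
      rwa [Fin.snoc_castSucc, Fin.snoc_castSucc] at this
    · have := h (Fin.le_last i.castSucc)
      rwa [Fin.snoc_castSucc, Fin.snoc_last] at this
  · rintro ⟨h1, h2⟩ i j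
    refine Fin.lastCases ?_ (fun j => ?_) j
    · intro _
      refine Fin.lastCases ?_ (fun i => ?_) i
      · exact le_rfl
      · rw [Fin.snoc_castSucc, Fin.snoc_last]
        exact h2 i
    · refine Fin.lastCases ?_ (fun i => ?_) i
      · intro hij
        exact absurd hij (not_le.2 (Fin.castSucc_lt_last j))
      · intro hij
        rw [Fin.snoc_castSucc, Fin.snoc_castSucc]
        exact h1 (Fin.castSucc_le_castSucc_iff.1 hij)

lemma snoc_mem_MS {r m c : ℕ} {a : Fin r → ℕ} :
    (Fin.snoc a c : Fin (r + 1) → ℕ) ∈ MS (r + 1) m ↔ a ∈ MS r c ∧ c ≤ m := by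
  rw [mem_MS, mem_MS, mono_snoc]
  constructor
  · rintro ⟨h1, h2, h3⟩
    refine ⟨⟨h3, h2⟩, ?_⟩
    have := h1 (Fin.last r)
    rwa [Fin.snoc_last] at this
  · rintro ⟨⟨h1, h2⟩, h3⟩
    refine ⟨fun i => ?_, h2, h1⟩
    refine Fin.lastCases ?_ (fun i => ?_) i
    · rwa [Fin.snoc_last]
    · rw [Fin.snoc_castSucc]
      exact (h1 i).trans h3

lemma sum_MS_succ {β : Type*} [AddCommMonoid β] (r m : ℕ) (f : (Fin (r + 1) → ℕ) → β) :
    ∑ a ∈ MS (r + 1) (m + 1), f a =
      ∑ a ∈ MS (r + 1) m, f a + ∑ a ∈ MS r (m + 1), f (Fin.snoc a (m + 1)) := by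
  rw [← Finset.sum_filter_add_sum_filter_not (MS (r + 1) (m + 1)) (fun a => a (Fin.last r) ≤ m)]
  congr 1
  · apply Finset.sum_congr _ fun _ _ => rfl
    ext a
    rw [mem_filter, mem_MS, mem_MS]
    constructor
    · rintro ⟨⟨_, h1⟩, h2⟩
      exact ⟨fun i => (h1 (Fin.le_last i)).trans h2, h1⟩
    · rintro ⟨h1, h2⟩
      exact ⟨⟨fun i => (h1 i).trans (Nat.le_succ m), h2⟩, h1 _⟩
  · symm
    apply Finset.sum_nbij' (fun a => (Fin.snoc a (m + 1) : Fin (r + 1) → ℕ))
      (fun a => Fin.init a)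
    · intro a ha
      rw [mem_filter, snoc_mem_MS, Fin.snoc_last]
      exact ⟨⟨ha, le_rfl⟩, by omega⟩
    · intro a ha
      rw [mem_filter, mem_MS] at ha
      rw [mem_MS]
      refine ⟨fun i => ha.1.1 _, fun i j hij => ?_⟩
      exact ha.1.2 (Fin.castSucc_le_castSucc_iff.2 hij)
    · intro a _
      exact Fin.init_snoc _ _
    · intro a ha
      rw [mem_filter, mem_MS] at ha
      have h1 := ha.1.1 (Fin.last r)
      have h2 : a (Fin.last r) = m + 1 := by omega
      rw [← h2]
      exact Fin.snoc_init_self a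
    · intro a _
      rfl

lemma sum_MS_zero {β : Type*} [AddCommMonoid β] (r : ℕ) (f : (Fin (r + 1) → ℕ) → β) :
    ∑ a ∈ MS (r + 1) 0, f a = ∑ a ∈ MS r 0, f (Fin.snoc a 0) := by
  symm
  apply Finset.sum_nbij' (fun a => (Fin.snoc a 0 : Fin (r + 1) → ℕ)) (fun a => Fin.init a)
  · intro a ha
    rw [snoc_mem_MS]
    exact ⟨ha, le_rfl⟩
  · intro a ha
    rw [mem_MS] at ha ⊢
    refine ⟨fun i => ha.1 _, fun i j hij => ?_⟩
    exact ha.2 (Fin.castSucc_le_castSucc_iff.2 hij)
  · intro a _
    exact Fin.init_snoc _ _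
  · intro a ha
    rw [mem_MS] at ha
    have h1 := ha.1 (Fin.last r)
    have h2 : a (Fin.last r) = 0 := by omega
    rw [← h2]
    exact Fin.snoc_init_self a
  · intro a _
    rfl

section seq
variable {A M : Type*} [CommRing A] [AddCommGroup M] [Module A M] (w : ℕ → M)

/-- the ordered product -/
noncomputable def PW : ℕ → ExteriorAlgebra A M
  | 0 => 1
  | c + 1 => PW c * (1 + ι A (w c))

variable (A) in
/-- the sum over the increasing sequences of length `r` below `δ` -/
noncomputable def TT (r δ : ℕ) : ExteriorAlgebra A M :=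
  if r ≤ δ then ∑ a ∈ MS r (δ - r), ιMulti A r (fun i => w (a i + i.val)) else 0

lemma ιMulti_snoc {r : ℕ} (v : Fin (r + 1) → M) :
    ιMulti A (r + 1) v = ιMulti A r (fun i => v i.castSucc) * ι A (v (Fin.last r)) := by
  rw [ιMulti_apply, ιMulti_apply, List.ofFn_succ', List.concat_eq_append, List.prod_append,
    List.prod_singleton]

lemma ιMulti_snoc' {r c : ℕ} (a : Fin r → ℕ) :
    ιMulti A (r + 1) (fun i => w ((Fin.snoc a c : Fin (r + 1) → ℕ) i + i.val)) =
      ιMulti A r (fun i => w (a i + i.val)) * ι A (w (c + r)) := by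
  rw [ιMulti_snoc]
  simp only [Fin.snoc_castSucc, Fin.snoc_last, Fin.val_castSucc, Fin.val_last]

lemma TT_succ (r δ : ℕ) : TT A w (r + 1) (δ + 1) = TT A w (r + 1) δ + TT A w r δ * ι A (w δ) := by
  by_cases h : r ≤ δ
  · rw [TT, if_pos (by omega), TT, TT, if_pos h, Finset.sum_mul]
    by_cases h1 : r + 1 ≤ δ
    · obtain ⟨m, rfl⟩ := Nat.exists_eq_add_of_le h1
      rw [if_pos h1]
      have e1 : r + 1 + m + 1 - (r + 1) = m + 1 := by omega
      have e2 : r + 1 + m - (r + 1) = m := by omega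
      have e3 : r + 1 + m - r = m + 1 := by omega
      rw [e1, e2, e3, sum_MS_succ]
      congr 1
      apply Finset.sum_congr rfl
      intro a _
      rw [ιMulti_snoc']
      congr 3
      omega
    · have e : r = δ := by omega
      subst e
      rw [if_neg h1, zero_add, Nat.sub_self, Nat.sub_self, sum_MS_zero]
      apply Finset.sum_congr rfl
      intro a _
      rw [ιMulti_snoc', zero_add]
  · rw [TT, if_neg (by omega), TT, if_neg (by omega), TT, if_neg h, zero_add, zero_mul]

lemma TT_zero (δ : ℕ) : TT A w 0 δ = 1 := by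
  rw [TT, if_pos (Nat.zero_le _)]
  have : MS 0 (δ - 0) = {Fin.elim0} := by
    ext a
    rw [mem_MS, mem_singleton]
    constructor
    · intro _
      exact Subsingleton.elim _ _
    · intro _
      exact ⟨fun i => i.elim0, fun i => i.elim0⟩
  rw [this, sum_singleton, ιMulti_zero_apply]

lemma TT_of_lt {r δ : ℕ} (h : δ < r) : TT A w r δ = 0 := by
  rw [TT, if_neg (by omega)]

lemma PW_eq (δ : ℕ) : PW (A := A) w δ = ∑ r ∈ range (δ + 1), TT A w r δ := by
  induction δ with
  | zero =>
    rw [Finset.sum_range_succ, Finset.sum_range_zero, TT_zero, zero_add]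
    rfl
  | succ δ ih =>
    rw [PW, ih, Finset.sum_range_succ' (fun r => TT A w r (δ + 1)) (δ + 1), TT_zero, mul_add,
      mul_one, Finset.sum_mul]
    simp only [TT_succ]
    rw [Finset.sum_add_distrib]
    have h1 : ∑ r ∈ range (δ + 1), TT A w r δ = ∑ r ∈ range (δ + 1), TT A w (r + 1) δ + 1 := by
      rw [← TT_zero (A := A) w δ, ← Finset.sum_range_succ' (fun r => TT A w r δ) (δ + 1),
        Finset.sum_range_succ _ (δ + 1), TT_of_lt w (Nat.lt_succ_self δ), add_zero]
    rw [h1]
    abel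

end seq

section val
variable {n : ℕ} {K : Type*} [Field K] [CharZero K] {q : K}

lemma PP_eq_PW (c : ℕ) : PP q n (1 : K) c = PW (fun ℓ => vv n (q ^ ℓ)) c := by
  induction c with
  | zero => rfl
  | succ c ih =>
    rw [PP, PW, ih, mul_one]
    rfl

/-- **the values of `FF`** -/
theorem FF_val (hq : ∀ a : ℕ, 0 < a → q ^ a ≠ 1) (m : ℕ) :
    (FF q n).eval (q ^ (n + m)) =
      ∑ a ∈ MS n m, Matrix.det (fun i : Fin n => vv n (q ^ (a i + i.val))) := by
  rw [FF_eval hq, PP_eq_PW, PW_eq, map_sum, Finset.sum_eq_single n]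
  · rw [TT, if_pos (by omega), map_sum]
    have e : n + m - n = m := by omega
    rw [e]
    apply Finset.sum_congr rfl
    intro a _
    rw [top_ιMulti]
  · intro r _ hr
    rw [TT]
    split_ifs
    · rw [map_sum]
      apply Finset.sum_eq_zero
      intro a _
      exact top_ιMulti_ne _ _ hr _
    · exact map_zero _
  · intro h
    exact absurd (mem_range.2 (by omega)) h

end val

end Pool.Gauss.Stair
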