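import Pool.Agent.Work.MP_065141_co.K.FacA

/-!
# The exact model: sums over the unattached elements in the rescaled ring
-/

set_option autoImplicit false
set_option linter.unusedSectionVars false
open scoped Classical
open Finset Polynomial

namespace Pool.Gauss

variable {α : Type} [Fintype α] [PartialOrder α] {i : ℕ}

/-- the variable of a neighbour: `a_y` below level `i`, `b_y = w - a_y` above level `i` -/
noncomputable def av (i : ℕ) (p y : α) : MvPolynomial α AA :=
  if corank p < i then MvPolynomial.C wA - MvPolynomial.X y else MvPolynomial.X y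

/-- the factor of an unattached element next to level `i` with the energies `k` on level `i` -/
noncomputable def gP (i : ℕ) (k : α → ℕ) (p : α) : MvPolynomial α AA :=
  facG (bd i p) k (av i p) (if corank p < i then wA - 1 else 1)

lemma bd_above {p y : α} (hg : Grad α) (hp : corank p + 1 = i) : y ∈ bd i p ↔ y ⋖ p := by
  rw [mem_bd]
  constructor
  · intro h
    rcases h with ⟨h1, h2⟩ | ⟨h1, h2⟩
    · have := hg p y h2
      omega
    · exact h2
  · intro h
    have := hg y p h
    exact Or.inr ⟨by omega, h⟩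

lemma bd_below {p y : α} (hg : Grad α) (hp : corank p = i + 1) : y ∈ bd i p ↔ p ⋖ y := by
  rw [mem_bd]
  constructor
  · intro h
    rcases h with ⟨h1, h2⟩ | ⟨h1, h2⟩
    · exact h2
    · have := hg y p h2
      omega
  · intro h
    have := hg p y h
    exact Or.inl ⟨by omega, h⟩

/-- the evaluation `a_y = w` on `S`, `a_y = 0` outside `S` -/
noncomputable def evS (S : Finset α) : MvPolynomial α AA →+* AA :=
  MvPolynomial.eval fun y => if y ∈ S then wA else 0

lemma evS_C (S : Finset α) (c : AA) : evS S (MvPolynomial.C c) = c := by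
  unfold evS
  exact MvPolynomial.eval_C c

lemma evS_X (S : Finset α) (y : α) : evS S (MvPolynomial.X y) = if y ∈ S then wA else 0 := by
  unfold evS
  exact MvPolynomial.eval_X y

/-- **the generating function of an unattached element** -/
theorem evS_gP (hg : Grad α) (hl : HasLower α i) {p : α}
    (hp : corank p + 1 = i ∨ corank p = i + 1) (h2 : (bd i p).card ≤ 2) (k : α → ℕ)
    (S : Finset α) : evS S (gP i k p) = Psi (PowerSeries.mk (Om i k S p)) := by
  have hne : (bd i p).Nonempty := by
    obtain ⟨t, ht⟩ := exists_near hg hl (p := p) (by omega)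
    exact ⟨t, mem_bd.2 ht⟩
  unfold gP
  rcases hp with hp | hp
  · have h3 : corank p < i := by omega
    have h4 : (wA : AA) - 1 = iotaA (X - 1) := by
      rw [map_sub, map_one, iotaA_X]
    rw [if_pos h3, h4]
    refine Psi_facG (R := fun y => y ∉ S) hne h2 ?_ (evS_C S) ?_
    · intro a
      rw [Om_z hp, OmZ]
      have h5 : (∀ y, y ⋖ p → y ∈ S → a ≤ k y) ↔ ∀ y ∈ bd i p, ¬ y ∉ S → a ≤ k y := by
        constructor
        · intro h y hy hyS
          exact h y ((bd_above hg hp).1 hy) (not_not.1 hyS)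
        · intro h y hy hyS
          exact h y ((bd_above hg hp).2 hy) (not_not.2 hyS)
      have h6 : (∃ y, y ⋖ p ∧ a ≤ k y) ↔ ∃ y ∈ bd i p, a ≤ k y := by
        constructor
        · rintro ⟨y, hy, h⟩
          exact ⟨y, (bd_above hg hp).2 hy, h⟩
        · rintro ⟨y, hy, h⟩
          exact ⟨y, (bd_above hg hp).1 hy, h⟩
      simp only [h5, h6]
      split_ifs <;> rfl
    · intro y _
      unfold av
      rw [if_pos h3, map_sub, evS_C, evS_X]
      by_cases h : y ∈ S <;> simp [h]
  · have h3 : ¬ corank p < i := by omega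
    rw [if_neg h3, ← map_one iotaA]
    refine Psi_facG (R := fun y => y ∈ S) hne h2 ?_ (evS_C S) ?_
    · intro a
      rw [Om_x hp, OmX]
      have h5 : (∀ y, p ⋖ y → y ∉ S → a ≤ k y) ↔ ∀ y ∈ bd i p, ¬ y ∈ S → a ≤ k y := by
        constructor
        · intro h y hy hyS
          exact h y ((bd_below hg hp).1 hy) hyS
        · intro h y hy hyS
          exact h y ((bd_below hg hp).2 hy) hyS
      have h6 : (∃ y, p ⋖ y ∧ a ≤ k y) ↔ ∃ y ∈ bd i p, a ≤ k y := by
        constructor
        · rintro ⟨y, hy, h⟩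
          exact ⟨y, (bd_below hg hp).2 hy, h⟩
        · rintro ⟨y, hy, h⟩
          exact ⟨y, (bd_below hg hp).1 hy, h⟩
      simp only [h5, h6]
      split_ifs <;> rfl
    · intro y _
      unfold av
      rw [if_neg h3, evS_X]
      split_ifs <;> rfl

/-! ### the functional of the row -/

/-- the functional as a sum over the subsets of a set of variables -/
lemma Ev_evS (L : Finset α) {P : MvPolynomial α AA} (hP : P ∈ MvPolynomial.supported AA (L : Set α)) :
    wA ^ L.card * Ev wA P = ∑ S ∈ L.powerset, (wA - 1) ^ S.card * evS S P := by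
  rw [MvPolynomial.mem_supported] at hP
  have h1 : ∀ m ∈ P.support, m.support ⊆ L := by
    intro m hm y hy
    have := hP (mem_coe.2 ((MvPolynomial.mem_vars_iff_mem_support y).2 ⟨m, hm, hy⟩))
    exact_mod_cast this
  have h2 : ∀ m ∈ P.support, wA ^ L.card * Ev wA (MvPolynomial.monomial m (P.coeff m)) =
      ∑ S ∈ L.powerset, (wA - 1) ^ S.card * evS S (MvPolynomial.monomial m (P.coeff m)) := by
    intro m hm
    have hmL := h1 m hm
    rw [Ev_monomial]
    have h3 : ∀ S ∈ L.powerset, (wA - 1) ^ S.card *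
        evS S (MvPolynomial.monomial m (P.coeff m)) =
        P.coeff m * ((∏ y ∈ S, (wA - 1) * wA ^ m y) * ∏ y ∈ L \ S, (0 : AA) ^ m y) := by
      intro S hS
      rw [mem_powerset] at hS
      have h4 : evS S (MvPolynomial.monomial m (P.coeff m)) =
          P.coeff m * ∏ y ∈ L, (if y ∈ S then wA else 0) ^ m y := by
        unfold evS
        rw [MvPolynomial.eval_monomial, Finsupp.prod]
        congr 1
        apply prod_subset hmL
        intro y _ hy
        rw [Finsupp.notMem_support_iff.1 hy, pow_zero]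
      have g1 : ∏ y ∈ S, (if y ∈ S then wA else 0) ^ m y = ∏ y ∈ S, wA ^ m y :=
        prod_congr rfl fun y hy => by rw [if_pos hy]
      have g2 : ∏ y ∈ L \ S, (if y ∈ S then wA else 0) ^ m y = ∏ y ∈ L \ S, (0 : AA) ^ m y :=
        prod_congr rfl fun y hy => by rw [if_neg (mem_sdiff.1 hy).2]
      rw [h4, ← prod_sdiff hS, prod_mul_distrib, prod_const, g1, g2]
      ring
    rw [sum_congr rfl h3, ← mul_sum]
    have h5 : ∑ S ∈ L.powerset, ((∏ y ∈ S, (wA - 1) * wA ^ m y) *
        ∏ y ∈ L \ S, (0 : AA) ^ m y) = ∏ y ∈ L, ((wA - 1) * wA ^ m y + 0 ^ m y) := by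
      rw [prod_add]
    have h6 : ∏ y ∈ L, ((wA - 1) * wA ^ m y + 0 ^ m y) =
        ∏ y ∈ L, (wA * if y ∈ m.support then wA ^ (m y - 1) * (wA - 1) else 1) := by
      apply prod_congr rfl
      intro y _
      by_cases hy : y ∈ m.support
      · rw [if_pos hy]
        have g : m y ≠ 0 := Finsupp.mem_support_iff.1 hy
        obtain ⟨k, hk⟩ := Nat.exists_eq_succ_of_ne_zero g
        rw [hk, Nat.succ_eq_add_one, Nat.add_sub_cancel, zero_pow (by omega)]
        ring
      · rw [if_neg hy]
        have g : m y = 0 := Finsupp.notMem_support_iff.1 hy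
        rw [g]
        ring
    have h7 : ∏ y ∈ L, (wA * if y ∈ m.support then wA ^ (m y - 1) * (wA - 1) else 1) =
        wA ^ L.card * ∏ y ∈ m.support, wA ^ (m y - 1) * (wA - 1) := by
      rw [prod_mul_distrib, prod_const, prod_ite_mem, inter_eq_right.2 hmL]
    rw [h5, h6, h7, evm, Finsupp.prod]
    ring
  have h3 : ∀ S : Finset α, (wA - 1) ^ S.card * evS S P =
      ∑ m ∈ P.support, (wA - 1) ^ S.card * evS S (MvPolynomial.monomial m (P.coeff m)) := by
    intro S
    rw [← mul_sum, ← map_sum, ← P.as_sum]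
  have h4 : wA ^ L.card * Ev wA P = ∑ m ∈ P.support,
      wA ^ L.card * Ev wA (MvPolynomial.monomial m (P.coeff m)) := by
    rw [← mul_sum, ← map_sum, ← P.as_sum]
  rw [h4, sum_congr rfl h2, sum_comm]
  exact sum_congr rfl fun S _ => (h3 S).symm

/-- the number of dominated elements of level `i` -/
noncomputable def nf (i : ℕ) (ε : α → ℕ) : ℕ :=
  ((lev α i).filter fun y => inE i ε y ∨ outE i ε y).card

/-- the polynomial of the dominated elements of level `i` -/
noncomputable def dmP (i : ℕ) (ε : α → ℕ) : MvPolynomial α AA :=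
  (∏ y ∈ (lev α i).filter (fun y => inE i ε y), MvPolynomial.X y) *
    ∏ y ∈ (lev α i).filter (fun y => outE i ε y), (MvPolynomial.C wA - MvPolynomial.X y)

lemma evS_dmP {ε : α → ℕ} (hgood : GoodE i ε) {S : Finset α} (hS : S ⊆ lev α i) :
    evS S (dmP i ε) = if (∀ y ∈ S, ¬ outE i ε y) ∧ (∀ y ∈ lev α i \ S, ¬ inE i ε y) then
      wA ^ nf i ε else 0 := by
  unfold dmP
  rw [map_mul, map_prod, map_prod]
  have h1 : ∏ y ∈ (lev α i).filter (fun y => inE i ε y), evS S (MvPolynomial.X y) =
      if ∀ y ∈ (lev α i).filter (fun y => inE i ε y), y ∈ S then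
        wA ^ ((lev α i).filter (fun y => inE i ε y)).card else 0 := by
    rw [prod_congr rfl fun y _ => evS_X S y, Finset.prod_ite_zero, prod_const]
    split_ifs <;> rfl
  have h2 : ∏ y ∈ (lev α i).filter (fun y => outE i ε y),
      evS S (MvPolynomial.C wA - MvPolynomial.X y) =
      if ∀ y ∈ (lev α i).filter (fun y => outE i ε y), y ∉ S then
        wA ^ ((lev α i).filter (fun y => outE i ε y)).card else 0 := by
    have : ∀ y ∈ (lev α i).filter (fun y => outE i ε y),
        evS S (MvPolynomial.C wA - MvPolynomial.X y) = if y ∉ S then wA else 0 := by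
      intro y _
      rw [map_sub, evS_C, evS_X]
      by_cases h : y ∈ S <;> simp [h]
    rw [prod_congr rfl this, Finset.prod_ite_zero, prod_const]
    split_ifs <;> rfl
  have h3 : nf i ε = ((lev α i).filter (fun y => inE i ε y)).card +
      ((lev α i).filter (fun y => outE i ε y)).card := by
    unfold nf
    rw [← card_union_of_disjoint]
    · congr 1
      ext y
      simp only [mem_union, mem_filter]
      tauto
    · rw [Finset.disjoint_left]
      intro y hy hy'
      exact hgood y ⟨(mem_filter.1 hy).2, (mem_filter.1 hy').2⟩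
  have h4 : (∀ y ∈ (lev α i).filter (fun y => inE i ε y), y ∈ S) ↔
      ∀ y ∈ lev α i \ S, ¬ inE i ε y := by
    constructor
    · intro h y hy hy'
      rw [mem_sdiff] at hy
      exact hy.2 (h y (mem_filter.2 ⟨hy.1, hy'⟩))
    · intro h y hy
      rw [mem_filter] at hy
      by_contra h5
      exact h y (mem_sdiff.2 ⟨hy.1, h5⟩) hy.2
  have h5 : (∀ y ∈ (lev α i).filter (fun y => outE i ε y), y ∉ S) ↔ ∀ y ∈ S, ¬ outE i ε y := by
    constructor
    · intro h y hy hy'
      exact h y (mem_filter.2 ⟨hS hy, hy'⟩) hy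
    · intro h y hy hyS
      exact h y hyS (mem_filter.1 hy).2
  rw [h1, h2, h3]
  simp only [h4, h5]
  by_cases h6 : ∀ y ∈ S, ¬ outE i ε y <;> by_cases h7 : ∀ y ∈ lev α i \ S, ¬ inE i ε y
  · rw [if_pos h6, if_pos h7, if_pos ⟨h6, h7⟩, pow_add]
  · rw [if_neg h7, zero_mul, if_neg (fun h => h7 h.2)]
  · rw [if_neg h6, mul_zero, if_neg (fun h => h6 h.1)]
  · rw [if_neg h6, mul_zero, if_neg (fun h => h6 h.1)]

end Pool.Gauss
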