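import Pool.Agent.Work.MP_065141_co.K.StarA
import Pool.Agent.Work.MP_065141_co.J3

/-!
# The exact model: contribution of a reduced energy function, main identity
-/

set_option autoImplicit false
set_option linter.unusedSectionVars false
open scoped Classical
open Finset Polynomial

namespace Pool.Gauss

variable {α : Type} [Fintype α] [PartialOrder α] {i : ℕ}

/-! ### the excess is nonnegative -/

/-- the number of dominated elements of level `i` is bounded by the energy and the number of free
elements outside level `i` -/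
theorem Yd_le (hg : Grad α) (hdeg : ∀ p : α, (bd i p).card ≤ 2) (ε : α → ℕ) :
    (Yd i ε).card ≤ ∑ p, ε p + (Fo i ε).card := by
  have h1 : (Yd i ε).card ≤ ∑ p ∈ Ax i ε, ((bd i p).filter fun y => ε y < ε p).card := by
    refine le_trans (card_le_card ?_) card_biUnion_le
    intro y hy
    rw [mem_Yd] at hy
    obtain ⟨hy, p, hp, hlt⟩ := hy
    rw [mem_biUnion]
    refine ⟨p, ?_, mem_filter.2 ⟨mem_bd.2 hp, hlt⟩⟩
    rw [mem_Ax]
    have := fr_ds hg hp
    rw [ds_eq_zero.2 hy] at this
    exact ⟨this, by omega⟩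
  have h2 : ∀ p ∈ Ax i ε, ((bd i p).filter fun y => ε y < ε p).card ≤
      ε p + (if p ∈ Fo i ε then 1 else 0) + (if fd i ε p then 1 else 0) := by
    intro p hp
    rw [mem_Ax] at hp
    have g1 : ((bd i p).filter fun y => ε y < ε p).card ≤ 2 :=
      (card_le_card (filter_subset _ _)).trans (hdeg p)
    by_cases h3 : nd i ε p
    · obtain ⟨y, hy, hle⟩ := h3
      have g2 : ((bd i p).filter fun y => ε y < ε p).card < (bd i p).card := by
        apply card_lt_card
        rw [ssubset_iff_of_subset (filter_subset _ _)]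
        refine ⟨y, mem_bd.2 hy, ?_⟩
        rw [mem_filter]
        omega
      have := hdeg p
      omega
    · by_cases h4 : fd i ε p
      · rw [if_pos h4]
        omega
      · have h5 : p ∈ Fo i ε := by
          unfold Fo
          rw [mem_filter]
          refine ⟨mem_univ _, ?_, h4, h3⟩
          intro h6
          have := ds_eq_zero.2 h6
          omega
        rw [if_pos h5]
        omega
  have h3 : ∑ p ∈ Ax i ε, (ε p + (if p ∈ Fo i ε then 1 else 0) + (if fd i ε p then 1 else 0)) =
      ∑ p ∈ Ax i ε, ε p + ((Ax i ε).filter fun p => p ∈ Fo i ε).card +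
        ((Ax i ε).filter fun p => fd i ε p).card := by
    rw [sum_add_distrib, sum_add_distrib, card_filter, card_filter]
  have h4 : ((Ax i ε).filter fun p => p ∈ Fo i ε).card ≤ (Fo i ε).card := by
    apply card_le_card
    intro p hp
    exact (mem_filter.1 hp).2
  have h5 : ((Ax i ε).filter fun p => fd i ε p).card ≤
      ∑ q ∈ univ.filter (fun q : α => ds i q = 2), ε q := by
    have g1 : ((Ax i ε).filter fun p => fd i ε p) ⊆
        (univ.filter (fun q : α => ds i q = 2 ∧ 2 ≤ ε q)).biUnion (bd i) := by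
      intro p hp
      rw [mem_filter, mem_Ax] at hp
      obtain ⟨⟨g2, g3⟩, q, hq, g4⟩ := hp
      rw [mem_biUnion]
      refine ⟨q, ?_, mem_bd.2 hq⟩
      rw [mem_filter]
      have := fr_ds hg hq
      exact ⟨mem_univ _, by omega, by omega⟩
    calc ((Ax i ε).filter fun p => fd i ε p).card
        ≤ ((univ.filter (fun q : α => ds i q = 2 ∧ 2 ≤ ε q)).biUnion (bd i)).card :=
          card_le_card g1
      _ ≤ ∑ q ∈ univ.filter (fun q : α => ds i q = 2 ∧ 2 ≤ ε q), (bd i q).card :=
          card_biUnion_le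
      _ ≤ ∑ q ∈ univ.filter (fun q : α => ds i q = 2 ∧ 2 ≤ ε q), ε q := by
          apply sum_le_sum
          intro q hq
          rw [mem_filter] at hq
          exact (hdeg q).trans hq.2.2
      _ ≤ ∑ q ∈ univ.filter (fun q : α => ds i q = 2), ε q := by
          apply sum_le_sum_of_subset
          intro q hq
          rw [mem_filter] at hq ⊢
          exact ⟨hq.1, hq.2.1⟩
  have h6 : ∑ p ∈ Ax i ε, ε p + ∑ q ∈ univ.filter (fun q : α => ds i q = 2), ε q ≤ ∑ p, ε p := by
    rw [← sum_union]
    · exact sum_le_sum_of_subset (subset_univ _)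
    · rw [Finset.disjoint_left]
      intro p hp hp'
      rw [mem_Ax] at hp
      rw [mem_filter] at hp'
      omega
  have h7 := (h1.trans (sum_le_sum h2))
  rw [h3] at h7
  omega

/-! ### the contribution of a reduced energy function -/

/-- the excess -/
noncomputable def exc (i : ℕ) (ε : α → ℕ) : ℕ := ∑ p, ε p + (Fo i ε).card - (Yd i ε).card

/-- the attached or deep elements with `inE` -/
noncomputable def ino (i : ℕ) (ε : α → ℕ) : ℕ :=
  (univ.filter fun p : α => (corank p ≠ i ∧ p ∉ Unatt i ε) ∧ inE i ε p).card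

/-- the contribution of a reduced good energy function -/
noncomputable def VE (i : ℕ) (ε : α → ℕ) : AA :=
  ZA ^ (∑ p, ε p) * wA ^ exc i ε * (wA - 1) ^ ino i ε *
    Ev wA (dmP i ε * ∏ p ∈ Unatt i ε, gP i ε p)

lemma ds_Unatt {ε : α → ℕ} {p : α} (hp : p ∈ Unatt i ε) : ds i p = 1 := by
  have := (mem_Unatt.1 hp).1
  unfold ds
  omega

lemma nf_eq (ε : α → ℕ) : nf i ε = (Yd i ε).card := by
  unfold nf Yd
  congr 1
  apply filter_congr
  intro y hy
  rw [fd_lev (mem_lev.1 hy)]

lemma Unatt_nd (hg : Grad α) (hl : HasLower α i) {ε : α → ℕ} (hred : Red i ε) {p : α}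
    (hp : p ∈ Unatt i ε) : nd i ε p := by
  obtain ⟨t, ht⟩ := exists_near hg hl (p := p) (by have := (mem_Unatt.1 hp).1; omega)
  exact ⟨t, ht, by rw [hred p hp]; omega⟩

lemma cstT_good (hg : Grad α) (hl : HasLower α i) {ε : α → ℕ} (hred : Red i ε)
    (hgood : GoodE i ε) : cstT i (Unatt i ε) ε = (X - 1) ^ ino i ε * X ^ (Fo i ε).card := by
  unfold cstT
  have h1 : ∀ p : α, om (inE i ε p) (outE i ε p) =
      (if inE i ε p then X - 1 else 1) * (if ¬ inE i ε p ∧ ¬ outE i ε p then X else 1) := by
    intro p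
    have := hgood p
    unfold om
    by_cases h1 : inE i ε p <;> by_cases h2 : outE i ε p
    · exact absurd ⟨h1, h2⟩ this
    · simp [h1, h2]
    · simp [h1, h2]
    · simp [h1, h2]
  rw [prod_congr rfl fun p _ => h1 p, prod_mul_distrib, prod_ite, prod_ite, prod_const_one,
    prod_const_one, prod_const, prod_const, mul_one, mul_one, filter_filter, filter_filter]
  congr 2
  congr 1
  ext p
  rw [mem_filter]
  have h2 := mem_pkF_iff hg hl hgood (p := p)
  unfold pkF at h2
  rw [mem_filter] at h2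
  simp only [mem_univ, true_and] at h2 ⊢
  rw [Fo, mem_filter, h2]
  simp only [mem_univ, true_and]
  constructor
  · rintro ⟨⟨h3, h4⟩, h5⟩
    exact ⟨h3, h5⟩
  · rintro ⟨h3, h4, h5⟩
    exact ⟨⟨h3, fun h6 => h5 (Unatt_nd hg hl hred h6)⟩, h4, h5⟩

lemma facG_supported {P L : Finset α} (h : P ⊆ L) {k : α → ℕ} {v : α → MvPolynomial α AA}
    (hv : ∀ y, v y ∈ MvPolynomial.supported AA ({y} : Set α)) (c : AA) :
    facG P k v c ∈ MvPolynomial.supported AA (L : Set α) := by
  have h1 : ∀ c : AA, (MvPolynomial.C c : MvPolynomial α AA) ∈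
      MvPolynomial.supported AA (L : Set α) := fun c => by
    have := (MvPolynomial.supported AA (L : Set α)).algebraMap_mem c
    rwa [MvPolynomial.algebraMap_eq] at this
  have h2 : ∀ y ∈ L, v y ∈ MvPolynomial.supported AA (L : Set α) := fun y hy =>
    MvPolynomial.supported_mono (by simpa using hy) (hv y)
  unfold facG
  refine add_mem (sum_mem fun a _ => mul_mem (h1 _) (prod_mem fun y hy => ?_))
    (mul_mem (h1 _) (prod_mem fun y hy => ?_))
  · exact h2 y (h (mem_filter.1 hy).1)
  · exact h2 y (h hy)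

lemma av_supported (i : ℕ) (p y : α) : av i p y ∈ MvPolynomial.supported AA ({y} : Set α) := by
  have h1 : (MvPolynomial.X y : MvPolynomial α AA) ∈
      MvPolynomial.supported AA ({y} : Set α) := by
    rw [MvPolynomial.X_mem_supported]
    exact rfl
  unfold av
  split_ifs
  · refine sub_mem ?_ h1
    have := (MvPolynomial.supported AA ({y} : Set α)).algebraMap_mem wA
    rwa [MvPolynomial.algebraMap_eq] at this
  · exact h1

lemma bd_subset_lev (hg : Grad α) {p : α} (hp : ds i p = 1) : bd i p ⊆ lev α i := by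
  intro y hy
  rw [mem_lev]
  exact bd_lev hg hp hy

lemma gP_supported (hg : Grad α) {p : α} (hp : ds i p = 1) (k : α → ℕ) :
    gP i k p ∈ MvPolynomial.supported AA (lev α i : Set α) :=
  facG_supported (bd_subset_lev hg hp) (av_supported i p) _

lemma dmP_supported (ε : α → ℕ) : dmP i ε ∈ MvPolynomial.supported AA (lev α i : Set α) := by
  have h1 : ∀ y ∈ lev α i, (MvPolynomial.X y : MvPolynomial α AA) ∈
      MvPolynomial.supported AA (lev α i : Set α) := fun y hy => by
    rw [MvPolynomial.X_mem_supported]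
    exact_mod_cast hy
  have h2 : (MvPolynomial.C wA : MvPolynomial α AA) ∈
      MvPolynomial.supported AA (lev α i : Set α) := by
    have := (MvPolynomial.supported AA (lev α i : Set α)).algebraMap_mem wA
    rwa [MvPolynomial.algebraMap_eq] at this
  unfold dmP
  exact mul_mem (prod_mem fun y hy => h1 y (mem_filter.1 hy).1)
    (prod_mem fun y hy => sub_mem h2 (h1 y (mem_filter.1 hy).1))

/-- the series of a reduced energy function -/
noncomputable def serE (i : ℕ) (ε : α → ℕ) : PowerSeries ℤ[X] :=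
  PowerSeries.mk fun N => ∑ κ ∈ (Unatt i ε).piAntidiag N, tm i (ε + κ)

lemma serE_bad (hg : Grad α) (hl : HasLower α i) {ε : α → ℕ} (hred : Red i ε)
    (hbad : ¬ GoodE i ε) : serE i ε = 0 := by
  ext1 N
  rw [serE, PowerSeries.coeff_mk, map_zero]
  apply sum_eq_zero
  intro κ hκ
  rw [mem_piAntidiag] at hκ
  exact tm_eq_zeroU hg hl hred hκ.2 hbad

/-- **the contribution of a reduced energy function** -/
theorem serE_good (hg : Grad α) (hl : HasLower α i) (hdeg : ∀ p : α, (bd i p).card ≤ 2)
    {ε : α → ℕ} (hred : Red i ε) (hgood : GoodE i ε) :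
    qA ^ (∑ p, ε p) * Psi (serE i ε) = wA ^ (lev α i).card * VE i ε := by
  have h1 : serE i ε = PowerSeries.C (cstT i (Unatt i ε) ε) * ∑ S ∈ (lev α i).powerset,
      if (∀ y ∈ S, ¬ outE i ε y) ∧ (∀ y ∈ lev α i \ S, ¬ inE i ε y) then
        PowerSeries.C ((X - 1) ^ S.card) * ∏ p ∈ Unatt i ε, PowerSeries.mk (Om i ε S p)
      else 0 := by
    ext1 N
    rw [serE, PowerSeries.coeff_mk, sum_kappa hg hl hred N, PowerSeries.coeff_C_mul, map_sum]
    congr 1
    apply sum_congr rfl
    intro S _
    split_ifs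
    · rw [PowerSeries.coeff_C_mul]
    · simp
  have h2 : wA ^ (Yd i ε).card * Psi (serE i ε) = iotaA (cstT i (Unatt i ε) ε) *
      ∑ S ∈ (lev α i).powerset, (wA - 1) ^ S.card *
        evS S (dmP i ε * ∏ p ∈ Unatt i ε, gP i ε p) := by
    rw [h1, map_mul, map_sum, ← iotaA_apply, mul_left_comm, mul_sum]
    refine congrArg (fun z => iotaA (cstT i (Unatt i ε) ε) * z) ?_
    apply sum_congr rfl
    intro S hS
    rw [mem_powerset] at hS
    rw [map_mul, evS_dmP hgood hS, nf_eq]
    split_ifs with h3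
    · rw [map_mul, ← iotaA_apply, map_pow, map_sub, map_one, iotaA_X, map_prod, map_prod]
      have h4 : ∀ p ∈ Unatt i ε, evS S (gP i ε p) = Psi (PowerSeries.mk (Om i ε S p)) :=
        fun p hp => evS_gP hg hl (mem_Unatt.1 hp).1 (hdeg p) ε S
      rw [prod_congr rfl h4]
      ring
    · simp
  have hsup : dmP i ε * ∏ p ∈ Unatt i ε, gP i ε p ∈
      MvPolynomial.supported AA (lev α i : Set α) :=
    mul_mem (dmP_supported ε) (prod_mem fun p hp => gP_supported hg (ds_Unatt hp) ε)
  rw [← Ev_evS _ hsup, cstT_good hg hl hred hgood, map_mul, map_pow, map_pow, map_sub, map_one,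
    iotaA_X] at h2
  have h3 := Yd_le hg hdeg ε
  have h4 : wA ^ (Yd i ε).card * wA ^ exc i ε = wA ^ (∑ p, ε p) * wA ^ (Fo i ε).card := by
    have h6 : (Yd i ε).card + exc i ε = ∑ p, ε p + (Fo i ε).card := by
      unfold exc
      omega
    rw [← pow_add, ← pow_add, h6]
  have h5 : wA ^ (Yd i ε).card ≠ 0 := pow_ne_zero _ wA_ne_zero
  apply mul_left_cancel₀ h5
  unfold VE
  rw [qA, mul_pow]
  linear_combination (wA ^ (∑ p, ε p) * ZA ^ (∑ p, ε p)) * h2 -
    (wA ^ (lev α i).card * ZA ^ (∑ p, ε p) * (wA - 1) ^ ino i ε *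
      Ev wA (dmP i ε * ∏ p ∈ Unatt i ε, gP i ε p)) * h4

/-- the reduced good energy functions with energy at most `J` -/
noncomputable def RG (α : Type) [Fintype α] [PartialOrder α] (i s : ℕ) : Finset (α → ℕ) :=
  ((univ : Finset α).piAntidiag s).filter fun ε => Red i ε ∧ GoodE i ε

/-- **the main identity** -/
theorem exists_KT {h : Fin (Fintype.card α) → ℕ} (hG : IsGaussianWith α h)
    (hl : HasLower α i) (hdeg : ∀ p : α, (bd i p).card ≤ 2) :
    ∃ KT : AA, Low KT ∧ ∀ J : ℕ, ∃ R : AA,
      KT = ∑ s ∈ range (J + 1), ∑ ε ∈ RG α i s, VE i ε + ZA ^ (J + 1) * R := by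
  have hg := grad hG
  choose Q hQ using fun r => root_mult_energy hG hg i r
  have h1 : PowerSeries.mk (fun r => ∑ ε ∈ (univ : Finset α).piAntidiag r, tm i ε) =
      PowerSeries.C (X ^ (lev α i).card) * PowerSeries.mk Q := by
    ext1 r
    rw [PowerSeries.coeff_mk, PowerSeries.coeff_C_mul, PowerSeries.coeff_mk, hQ r]
  refine ⟨Psi (PowerSeries.mk Q), Low_Psi _, fun J => ?_⟩
  have h2 : ∃ H : PowerSeries ℤ[X],
      PowerSeries.mk (fun r => ∑ ε ∈ (univ : Finset α).piAntidiag r, tm i ε) =
      ∑ s ∈ range (J + 1), ∑ ε ∈ ((univ : Finset α).piAntidiag s).filter (fun ε => Red i ε),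
        PowerSeries.X ^ s * serE i ε + PowerSeries.X ^ (J + 1) * H := by
    have h3 : (PowerSeries.X : PowerSeries ℤ[X]) ^ (J + 1) ∣
        PowerSeries.mk (fun r => ∑ ε ∈ (univ : Finset α).piAntidiag r, tm i ε) -
        ∑ s ∈ range (J + 1), ∑ ε ∈ ((univ : Finset α).piAntidiag s).filter (fun ε => Red i ε),
        PowerSeries.X ^ s * serE i ε := by
      rw [PowerSeries.X_pow_dvd_iff]
      intro m hm
      rw [map_sub, PowerSeries.coeff_mk, sum_redU hg i m, map_sum, sub_eq_zero]
      have h4 : range (J + 1) = range (m + 1) ∪ Ico (m + 1) (J + 1) := by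
        ext a
        rw [mem_union, mem_range, mem_range, mem_Ico]
        omega
      have h5 : Disjoint (range (m + 1)) (Ico (m + 1) (J + 1)) := by
        rw [Finset.disjoint_left]
        intro a ha ha'
        rw [mem_range] at ha
        rw [mem_Ico] at ha'
        omega
      rw [h4, sum_union h5]
      have h6 : ∑ s ∈ Ico (m + 1) (J + 1), PowerSeries.coeff m
          (∑ ε ∈ ((univ : Finset α).piAntidiag s).filter (fun ε => Red i ε),
            PowerSeries.X ^ s * serE i ε) = 0 := by
        apply sum_eq_zero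
        intro s hs
        rw [mem_Ico] at hs
        rw [map_sum]
        apply sum_eq_zero
        intro ε _
        rw [PowerSeries.coeff_X_pow_mul', if_neg (by omega)]
      rw [h6, add_zero]
      apply sum_congr rfl
      intro s hs
      rw [mem_range] at hs
      rw [map_sum]
      apply sum_congr rfl
      intro ε _
      rw [PowerSeries.coeff_X_pow_mul', if_pos (by omega), serE, PowerSeries.coeff_mk]
    obtain ⟨H, hH⟩ := h3
    exact ⟨H, by rw [← hH]; ring⟩
  obtain ⟨H, hH⟩ := h2
  rw [h1] at hH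
  have h3 := congrArg Psi hH
  rw [map_mul, ← iotaA_apply, map_pow, iotaA_X, map_add, map_mul, map_pow, Psi_X, map_sum] at h3
  have h4 : ∀ s ∈ range (J + 1),
      Psi (∑ ε ∈ ((univ : Finset α).piAntidiag s).filter (fun ε => Red i ε),
        PowerSeries.X ^ s * serE i ε) = wA ^ (lev α i).card * ∑ ε ∈ RG α i s, VE i ε := by
    intro s _
    have h5 : RG α i s = (((univ : Finset α).piAntidiag s).filter (fun ε => Red i ε)).filter
        (fun ε => GoodE i ε) := by
      rw [filter_filter]
      rfl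
    rw [h5, sum_filter (fun ε => GoodE i ε), mul_sum, map_sum]
    apply sum_congr rfl
    intro ε hε
    rw [mem_filter, mem_piAntidiag] at hε
    rw [map_mul, map_pow, Psi_X]
    split_ifs with h6
    · rw [← hε.1.1]
      exact serE_good hg hl hdeg hε.2 h6
    · rw [serE_bad hg hl hε.2 h6, map_zero, mul_zero, mul_zero]
  rw [sum_congr rfl h4, ← mul_sum] at h3
  set V := ∑ s ∈ range (J + 1), ∑ ε ∈ RG α i s, VE i ε with hV
  set n := (lev α i).card with hn
  have h6 : wA ^ n * (Psi (PowerSeries.mk Q) - V) = ZA ^ (J + 1) * (wA ^ (J + 1) * Psi H) := by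
    rw [mul_sub, h3, qA, mul_pow]
    ring
  refine ⟨PowerSeries.mk fun d => PowerSeries.coeff (d + n) (wA ^ (J + 1) * Psi H), ?_⟩
  have h7 : Psi (PowerSeries.mk Q) - V =
      ZA ^ (J + 1) * PowerSeries.mk fun d => PowerSeries.coeff (d + n) (wA ^ (J + 1) * Psi H) := by
    ext1 d
    have h8 := congrArg (PowerSeries.coeff (d + n)) h6
    rw [wA, PowerSeries.coeff_X_pow_mul] at h8
    rw [h8, ZA, ← map_pow, PowerSeries.coeff_C_mul, PowerSeries.coeff_C_mul,
      PowerSeries.coeff_mk]
    rfl
  rw [← h7]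
  ring

end Pool.Gauss
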