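import Pool.Agent.Work.MP_065141_co.K.StarB

/-!
# The exact model: normalised form, closed forms of the factors
-/

set_option autoImplicit false
set_option linter.unusedSectionVars false
open scoped Classical
open Finset Polynomial

namespace Pool.Gauss

variable {α : Type} [Fintype α] [PartialOrder α] {i : ℕ}

/-- the normalising factor of an element next to level `i` -/
noncomputable def nrm (i : ℕ) (p : α) : AA := if corank p < i then iwA else 1

/-- the normalised contribution of a reduced good energy function -/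
noncomputable def VN (i : ℕ) (ε : α → ℕ) : AA :=
  ZA ^ (∑ p, ε p) * wA ^ exc i ε *
    ((wA - 1) ^ ((Fd i ε).filter fun p => i < corank p).card *
      iwA ^ (((Fd i ε).filter fun p => corank p < i).card +
        ((Fo i ε).filter fun p => corank p < i).card)) *
    Ev wA (dmP i ε * ∏ p ∈ Unatt i ε, (MvPolynomial.C (nrm i p) * gP i ε p))

lemma card_low_split (hg : Grad α) (hl : HasLower α i) {ε : α → ℕ} (hred : Red i ε)
    (hgood : GoodE i ε) : (low α i).card = ((Unatt i ε).filter fun p => corank p < i).card +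
      ((univ.filter fun p : α => (corank p ≠ i ∧ p ∉ Unatt i ε) ∧ inE i ε p).filter
        fun p => corank p < i).card +
      (((Fd i ε).filter fun p => corank p < i).card +
        ((Fo i ε).filter fun p => corank p < i).card) := by
  have hS := goodS_of_goodE hg hl hgood
  have hU : ∀ p ∈ Unatt i ε, nd i ε p := fun p hp => Unatt_nd hg hl hred hp
  rw [← card_union_of_disjoint (s := (Fd i ε).filter fun p => corank p < i),
    ← card_union_of_disjoint, ← card_union_of_disjoint]
  · congr 1
    ext p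
    simp only [mem_union, mem_filter, mem_low, mem_univ, true_and, Fd, Fo]
    constructor
    · intro h
      have h1 := nd_above hg hl hgood h
      have h2 : corank p ≠ i := by omega
      tauto
    · tauto
  · rw [Finset.disjoint_left]
    intro p hp hp'
    simp only [mem_union, mem_filter, mem_univ, true_and, Fd, Fo] at hp hp'
    rcases hp with ⟨hp, h1⟩ | ⟨⟨⟨h2, h3⟩, h4⟩, h1⟩
    · have h5 := hU p hp
      rcases hp' with ⟨⟨h6, h7⟩, _⟩ | ⟨⟨_, _, h7⟩, _⟩
      · exact hS.1 p h6 ⟨h7, h5⟩
      · exact h7 h5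
    · have h5 := (nd_above hg hl hgood h1).2 h4
      rcases hp' with ⟨⟨h6, h7⟩, _⟩ | ⟨⟨_, _, h7⟩, _⟩
      · exact hS.1 p h6 ⟨h7, h5⟩
      · exact h7 h5
  · rw [Finset.disjoint_left]
    intro p hp hp'
    simp only [mem_filter, mem_univ, true_and] at hp hp'
    tauto
  · rw [Finset.disjoint_left]
    intro p hp hp'
    simp only [mem_filter, mem_univ, true_and, Fd, Fo] at hp hp'
    tauto

lemma ino_split (hg : Grad α) (hl : HasLower α i) {ε : α → ℕ} (hred : Red i ε)
    (hgood : GoodE i ε) : ino i ε =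
      ((univ.filter fun p : α => (corank p ≠ i ∧ p ∉ Unatt i ε) ∧ inE i ε p).filter
        fun p => corank p < i).card + ((Fd i ε).filter fun p => i < corank p).card := by
  have hS := goodS_of_goodE hg hl hgood
  have hU : ∀ p ∈ Unatt i ε, nd i ε p := fun p hp => Unatt_nd hg hl hred hp
  unfold ino
  rw [← card_union_of_disjoint]
  · congr 1
    ext p
    simp only [mem_union, mem_filter, mem_univ, true_and, Fd]
    rcases lt_trichotomy (corank p) i with h1 | h1 | h1
    · constructor
      · intro h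
        exact Or.inl ⟨h, h1⟩
      · rintro (h | h)
        · exact h.1
        · omega
    · constructor
      · rintro ⟨⟨h, _⟩, _⟩
        exact absurd h1 h
      · rintro (h | h)
        · omega
        · omega
    · have h2 := fd_below hg (ε := ε) h1
      constructor
      · rintro ⟨⟨h3, h4⟩, h5⟩
        exact Or.inr ⟨⟨h3, h2.2 h5⟩, h1⟩
      · rintro (h | ⟨⟨h3, h4⟩, _⟩)
        · omega
        · exact ⟨⟨h3, fun h5 => hS.1 p h3 ⟨h4, hU p h5⟩⟩, h2.1 h4⟩
  · rw [Finset.disjoint_left]
    intro p hp hp'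
    simp only [mem_filter] at hp hp'
    omega

lemma VE_norm (hg : Grad α) (hl : HasLower α i) {ε : α → ℕ} (hred : Red i ε)
    (hgood : GoodE i ε) : VE i ε * iwA ^ (low α i).card = VN i ε := by
  have h1 : ∏ p ∈ Unatt i ε, (MvPolynomial.C (nrm i p) * gP i ε p) =
      MvPolynomial.C (iwA ^ ((Unatt i ε).filter fun p => corank p < i).card) *
        ∏ p ∈ Unatt i ε, gP i ε p := by
    rw [prod_mul_distrib, ← map_prod]
    unfold nrm
    rw [prod_ite, prod_const, prod_const_one, mul_one]
  have h2 : dmP i ε * (MvPolynomial.C (iwA ^ ((Unatt i ε).filter fun p => corank p < i).card) *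
      ∏ p ∈ Unatt i ε, gP i ε p) =
      MvPolynomial.C (iwA ^ ((Unatt i ε).filter fun p => corank p < i).card) *
        (dmP i ε * ∏ p ∈ Unatt i ε, gP i ε p) := by
    ring
  unfold VN VE
  rw [h1, h2, Ev_C_mul, card_low_split hg hl hred hgood, ino_split hg hl hred hgood]
  set a := ((univ.filter fun p : α => (corank p ≠ i ∧ p ∉ Unatt i ε) ∧ inE i ε p).filter
        fun p => corank p < i).card
  set b := ((Fd i ε).filter fun p => i < corank p).card
  set c := ((Unatt i ε).filter fun p => corank p < i).card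
  set d := ((Fd i ε).filter fun p => corank p < i).card +
        ((Fo i ε).filter fun p => corank p < i).card
  set E := Ev wA (dmP i ε * ∏ p ∈ Unatt i ε, gP i ε p)
  have h3 : (wA - 1) ^ a * iwA ^ a = 1 := by
    rw [← mul_pow, iwA_mul, one_pow]
  rw [pow_add, pow_add, pow_add]
  linear_combination (ZA ^ (∑ p, ε p) * wA ^ exc i ε * (wA - 1) ^ b * iwA ^ c * iwA ^ d * E) * h3

/-- **the main identity**, normalised -/
theorem exists_KN {h : Fin (Fintype.card α) → ℕ} (hG : IsGaussianWith α h)
    (hl : HasLower α i) (hdeg : ∀ p : α, (bd i p).card ≤ 2) :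
    ∃ KN : AA, Low KN ∧ ∀ J : ℕ, ∃ R : AA,
      KN = ∑ s ∈ range (J + 1), ∑ ε ∈ RG α i s, VN i ε + ZA ^ (J + 1) * R := by
  have hg := grad hG
  obtain ⟨KT, h1, h2⟩ := exists_KT hG hl hdeg
  refine ⟨KT * iwA ^ (low α i).card, h1.mul (Low_iwA.pow _), fun J => ?_⟩
  obtain ⟨R, hR⟩ := h2 J
  refine ⟨R * iwA ^ (low α i).card, ?_⟩
  have h3 : (∑ s ∈ range (J + 1), ∑ ε ∈ RG α i s, VE i ε) * iwA ^ (low α i).card =
      ∑ s ∈ range (J + 1), ∑ ε ∈ RG α i s, VN i ε := by
    rw [sum_mul]
    apply sum_congr rfl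
    intro s _
    rw [sum_mul]
    apply sum_congr rfl
    intro ε hε
    unfold RG at hε
    rw [mem_filter] at hε
    exact VE_norm hg hl hε.2.1 hε.2.2
  rw [hR, add_mul, h3]
  ring

/-! ### closed forms of the normalised factors -/

lemma nrm_above {p : α} (hp : corank p < i) : nrm i p = iwA := if_pos hp
lemma nrm_below {p : α} (hp : ¬ corank p < i) : nrm i p = 1 := if_neg hp

/-- an element with one neighbour -/
lemma nrm_gP_single {p y : α} (hb : bd i p = {y}) (k : α → ℕ) :
    MvPolynomial.C (nrm i p) * gP i k p =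
      MvPolynomial.C (∑ a ∈ range (k y + 1), qA ^ a) +
        av i p y * MvPolynomial.C (nrm i p * (qA ^ (k y + 1) * geoA)) := by
  unfold gP
  rw [hb, facG_single]
  by_cases hp : corank p < i
  · have h1 : iwA * ((wA - 1) * ∑ a ∈ range (k y + 1), qA ^ a) =
        ∑ a ∈ range (k y + 1), qA ^ a := by
      linear_combination (∑ a ∈ range (k y + 1), qA ^ a) * iwA_mul
    rw [nrm_above hp, if_pos hp, mul_add, ← map_mul, h1, mul_left_comm, ← map_mul]
  · rw [nrm_below hp, if_neg hp, map_one, one_mul, one_mul, one_mul]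

/-- an element with two neighbours -/
lemma nrm_gP_double {p y y' : α} (hb : bd i p = {y, y'}) (hne : y ≠ y') {k : α → ℕ}
    (hk : k y ≤ k y') :
    MvPolynomial.C (nrm i p) * gP i k p =
      MvPolynomial.C (∑ a ∈ range (k y + 1), qA ^ a) +
        av i p y * MvPolynomial.C (ZA * ∑ a ∈ Ico (k y) (k y'), qA ^ a) +
        av i p y * av i p y' * MvPolynomial.C (nrm i p * (ZA * qA ^ (k y') * geoA)) := by
  unfold gP
  rw [hb, facG_double hne hk]
  by_cases hp : corank p < i
  · have h1 : iwA * ((wA - 1) * ∑ a ∈ range (k y + 1), qA ^ a) =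
        ∑ a ∈ range (k y + 1), qA ^ a := by
      linear_combination (∑ a ∈ range (k y + 1), qA ^ a) * iwA_mul
    have h2 : iwA * ((wA - 1) * ZA * ∑ a ∈ Ico (k y) (k y'), qA ^ a) =
        ZA * ∑ a ∈ Ico (k y) (k y'), qA ^ a := by
      linear_combination (ZA * ∑ a ∈ Ico (k y) (k y'), qA ^ a) * iwA_mul
    rw [nrm_above hp, if_pos hp, mul_add, mul_add, ← map_mul, h1,
      mul_left_comm (MvPolynomial.C iwA), ← map_mul, h2, mul_left_comm (MvPolynomial.C iwA),
      ← map_mul]
  · rw [nrm_below hp, if_neg hp, map_one, one_mul, one_mul, one_mul, one_mul]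

lemma nrm_gP_single_zero {p y : α} (hb : bd i p = {y}) {k : α → ℕ} (hk : k y = 0) :
    MvPolynomial.C (nrm i p) * gP i k p =
      1 + av i p y * MvPolynomial.C (nrm i p * (qA * geoA)) := by
  rw [nrm_gP_single hb, hk]
  simp

lemma nrm_gP_double_zero {p y y' : α} (hb : bd i p = {y, y'}) (hne : y ≠ y') {k : α → ℕ}
    (hk : k y = 0) (hk' : k y' = 0) :
    MvPolynomial.C (nrm i p) * gP i k p =
      1 + av i p y * av i p y' * MvPolynomial.C (nrm i p * (ZA * geoA)) := by
  rw [nrm_gP_double hb hne (by omega), hk, hk']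
  simp

end Pool.Gauss
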