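import Pool.Agent.Work.MP_065141_co.K.StarW0
import Pool.Agent.Work.MP_065141_co.K.ModelB

/-!
# Regions of stars: the terms with two units of energy on level `i`, and the objects over three
vertices
-/

set_option autoImplicit false
set_option linter.unusedSectionVars false
set_option linter.unusedVariables false
set_option linter.unusedSimpArgs false
open scoped Classical
open Finset Polynomial

namespace Pool.Gauss

variable {α : Type} [Fintype α] [PartialOrder α] {i : ℕ}

/-! ### the value of one star -/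

/-- value of a monomial over two vertices, `a`, `b` = the vertex is excited -/
noncomputable def vx (a b : Prop) : ℤ := if a then (if b then 0 else -1) else (if b then -1 else 1)

/-- value of a star; `et`, `ek`, `ec` = the vertex is excited -/
noncomputable def Vst (et ek ec : Prop) : ℤ[X] :=
  1 + X * (C (vx ek et) - C (vx ek ec)) - (if ek ∧ ¬ et ∧ ¬ ec then X ^ 2 else 0)

lemma M0_pair {κ : α → ℕ} {p y y' : α} (hb : bd i p = {y, y'}) (hne : y ≠ y') :
    M0 i κ p = if κ y = 0 then (if κ y' = 0 then MvPolynomial.X y * MvPolynomial.X y' else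
      MvPolynomial.X y) else (if κ y' = 0 then MvPolynomial.X y' else 0) := by
  unfold M0
  rw [hb]
  by_cases h1 : κ y = 0 <;> by_cases h2 : κ y' = 0
  · rw [if_pos ⟨y, by simp, h1⟩, if_pos h1, if_pos h2, Finset.filter_true_of_mem, prod_pair hne]
    intro t ht
    rw [mem_insert, mem_singleton] at ht
    rcases ht with rfl | rfl
    · exact h1
    · exact h2
  · rw [if_pos ⟨y, by simp, h1⟩, if_pos h1, if_neg h2]
    have : ({y, y'} : Finset α).filter (fun t => κ t = 0) = {y} := by
      ext t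
      rw [mem_filter, mem_insert, mem_singleton, mem_singleton]
      constructor
      · rintro ⟨h3 | h3, h4⟩
        · exact h3
        · rw [h3] at h4
          exact absurd h4 h2
      · rintro rfl
        exact ⟨Or.inl rfl, h1⟩
    rw [this, prod_singleton]
  · rw [if_pos ⟨y', by simp, h2⟩, if_neg h1, if_pos h2]
    have : ({y, y'} : Finset α).filter (fun t => κ t = 0) = {y'} := by
      ext t
      rw [mem_filter, mem_insert, mem_singleton]
      constructor
      · rintro ⟨h3 | h3, h4⟩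
        · rw [h3] at h4
          exact absurd h4 h1
        · exact h3
      · rintro rfl
        exact ⟨Or.inr rfl, h2⟩
    rw [this, prod_singleton]
  · rw [if_neg, if_neg h1, if_neg h2]
    rintro ⟨t, ht, h3⟩
    rw [mem_insert, mem_singleton] at ht
    rcases ht with rfl | rfl
    · exact h1 h3
    · exact h2 h3

lemma Ev0_X (y : α) : Ev (0 : ℤ[X]) (MvPolynomial.X y) = -1 := by
  rw [Ev_X, zero_sub]

lemma Ev0_XX {y y' : α} (h : y ≠ y') :
    Ev (0 : ℤ[X]) (MvPolynomial.X y * MvPolynomial.X y') = 1 := by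
  have h1 := Ev_X_mul (0 : ℤ[X]) (y := y) (P := MvPolynomial.X y') (Fr.X h.symm)
  rw [h1, Ev0_X]
  ring

lemma Ev0_1 : Ev (0 : ℤ[X]) (1 : MvPolynomial α ℤ[X]) = 1 := Ev_one 0

lemma Ev0_XC (P : MvPolynomial α ℤ[X]) : Ev (0 : ℤ[X]) (MvPolynomial.C X * P) = X * Ev 0 P :=
  Ev_C_mul _ _ _

/-- **the value of a star** -/
theorem Ev_star (hg : Grad α) (hl : HasLower α i) {z x v c t : α} (hz : corank z + 1 = i)
    (hx : corank x = i + 1) (hbz : bd i z = {v, c}) (hbx : bd i x = {v, t}) (hc : v ≠ c)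
    (ht : v ≠ t) (htc : t ≠ c) (κ : α → ℕ) :
    Ev (0 : ℤ[X]) (mc (GA i κ x) * mc (GA i κ z)) = Vst (κ t ≠ 0) (κ v ≠ 0) (κ c ≠ 0) := by
  have hz1 : ds i z = 1 := ds_one_iff.2 (Or.inl hz)
  have hx1 : ds i x = 1 := ds_one_iff.2 (Or.inr hx)
  have cz : (bd i z).card = 2 := by rw [hbz, card_pair hc]
  have cx : (bd i x).card = 2 := by rw [hbx, card_pair ht]
  have hsz : sg0 i z = -1 := by
    unfold sg0
    rw [if_pos (by omega)]
  have hsx : sg0 i x = 1 := by
    unfold sg0
    rw [if_neg (by omega)]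
  rw [mc_GA hg hl hz1 cz.le κ, mc_GA hg hl hx1 cx.le κ, if_pos cz, if_pos cx, hsz, hsx,
    M0_pair hbz hc, M0_pair hbx ht, one_mul]
  have h0 : (MvPolynomial.C ((-1 : ℤ[X]) * X) : MvPolynomial α ℤ[X]) = - MvPolynomial.C X := by
    rw [neg_one_mul, map_neg]
  rw [h0]
  have hsq : ∀ P : MvPolynomial α ℤ[X], Ev (0 : ℤ[X]) (MvPolynomial.X v ^ 2 * P) = 0 :=
    fun P => Ev0_X_sq_mul v P
  have e1 := Ev0_X (α := α) v
  have e2 := Ev0_X (α := α) t
  have e3 := Ev0_X (α := α) c
  have e4 := Ev0_XX (α := α) hc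
  have e5 := Ev0_XX (α := α) ht
  have e6 := Ev0_XX (α := α) htc
  have e0 := Ev0_1 (α := α)
  unfold Vst vx
  by_cases hv : κ v = 0 <;> by_cases hct : κ t = 0 <;> by_cases hcc : κ c = 0
  · -- nothing excited
    have h1 : ((1 : MvPolynomial α ℤ[X]) + MvPolynomial.C X * (MvPolynomial.X v * MvPolynomial.X t)) *
        (1 + -MvPolynomial.C X * (MvPolynomial.X v * MvPolynomial.X c)) =
        1 + MvPolynomial.C X * (MvPolynomial.X v * MvPolynomial.X t) -
          MvPolynomial.C X * (MvPolynomial.X v * MvPolynomial.X c) -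
          MvPolynomial.X v ^ 2 * (MvPolynomial.C X * MvPolynomial.C X * MvPolynomial.X t *
            MvPolynomial.X c) := by
      ring
    simp only [hv, hct, hcc, if_true, ne_eq, not_true, if_false, false_and, not_false_iff]
    rw [h1, map_sub, map_sub, map_add, Ev0_XC, Ev0_XC, hsq, e0, e4, e5]
    simp
  · -- c excited
    have h1 : ((1 : MvPolynomial α ℤ[X]) + MvPolynomial.C X * (MvPolynomial.X v * MvPolynomial.X t)) *
        (1 + -MvPolynomial.C X * MvPolynomial.X v) =
        1 + MvPolynomial.C X * (MvPolynomial.X v * MvPolynomial.X t) -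
          MvPolynomial.C X * MvPolynomial.X v -
          MvPolynomial.X v ^ 2 * (MvPolynomial.C X * MvPolynomial.C X * MvPolynomial.X t) := by
      ring
    simp only [hv, hct, hcc, if_true, ne_eq, not_true, if_false, false_and, not_false_iff]
    rw [h1, map_sub, map_sub, map_add, Ev0_XC, Ev0_XC, hsq, e0, e1, e5]
    simp
    ring
  · -- t excited
    have h1 : ((1 : MvPolynomial α ℤ[X]) + MvPolynomial.C X * MvPolynomial.X v) *
        (1 + -MvPolynomial.C X * (MvPolynomial.X v * MvPolynomial.X c)) =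
        1 + MvPolynomial.C X * MvPolynomial.X v -
          MvPolynomial.C X * (MvPolynomial.X v * MvPolynomial.X c) -
          MvPolynomial.X v ^ 2 * (MvPolynomial.C X * MvPolynomial.C X * MvPolynomial.X c) := by
      ring
    simp only [hv, hct, hcc, if_true, ne_eq, not_true, if_false, false_and, not_false_iff]
    rw [h1, map_sub, map_sub, map_add, Ev0_XC, Ev0_XC, hsq, e0, e1, e4]
    simp
    ring
  · -- t and c excited
    have h1 : ((1 : MvPolynomial α ℤ[X]) + MvPolynomial.C X * MvPolynomial.X v) *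
        (1 + -MvPolynomial.C X * MvPolynomial.X v) =
        1 - MvPolynomial.X v ^ 2 * (MvPolynomial.C X * MvPolynomial.C X) := by
      ring
    simp only [hv, hct, hcc, if_true, ne_eq, not_true, if_false, false_and, not_false_iff]
    rw [h1, map_sub, hsq, e0]
    simp
  · -- k excited
    have h1 : ((1 : MvPolynomial α ℤ[X]) + MvPolynomial.C X * MvPolynomial.X t) *
        (1 + -MvPolynomial.C X * MvPolynomial.X c) =
        1 + MvPolynomial.C X * MvPolynomial.X t - MvPolynomial.C X * MvPolynomial.X c -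
          MvPolynomial.C X * (MvPolynomial.C X * (MvPolynomial.X t * MvPolynomial.X c)) := by
      ring
    simp only [hv, hct, hcc, if_true, ne_eq, not_true, if_false, not_false_iff, and_self]
    rw [h1, map_sub, map_sub, map_add, Ev0_XC, Ev0_XC, Ev0_XC, Ev0_XC, e0, e2, e3, e6]
    simp
    ring
  · -- k and c excited
    have h1 : ((1 : MvPolynomial α ℤ[X]) + MvPolynomial.C X * MvPolynomial.X t) *
        (1 + -MvPolynomial.C X * (0 : MvPolynomial α ℤ[X])) =
        1 + MvPolynomial.C X * MvPolynomial.X t := by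
      ring
    simp only [hv, hct, hcc, if_true, ne_eq, not_true, if_false, not_false_iff, and_false]
    rw [h1, map_add, Ev0_XC, e0, e2]
    simp
  · -- k and t excited
    have h1 : ((1 : MvPolynomial α ℤ[X]) + MvPolynomial.C X * (0 : MvPolynomial α ℤ[X])) *
        (1 + -MvPolynomial.C X * MvPolynomial.X c) =
        1 - MvPolynomial.C X * MvPolynomial.X c := by
      ring
    simp only [hv, hct, hcc, if_true, ne_eq, not_true, if_false, not_false_iff, false_and,
      and_false]
    rw [h1, map_sub, Ev0_XC, e0, e3]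
    simp
  · -- all excited
    have h1 : ((1 : MvPolynomial α ℤ[X]) + MvPolynomial.C X * (0 : MvPolynomial α ℤ[X])) *
        (1 + -MvPolynomial.C X * (0 : MvPolynomial α ℤ[X])) = 1 := by
      ring
    simp only [hv, hct, hcc, if_true, ne_eq, not_true, if_false, not_false_iff, false_and,
      and_false]
    rw [h1, e0]
    simp

/-! ### products over stars -/

lemma M0_mem (κ : α → ℕ) (p : α) :
    M0 i κ p ∈ MvPolynomial.supported ℤ[X] (bd i p : Set α) := by
  unfold M0
  split_ifs
  · exact prod_mem fun y hy => MvPolynomial.X_mem_supported.2 (mem_coe.2 (mem_filter.1 hy).1)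
  · exact zero_mem _

lemma mc_GA_mem (hg : Grad α) (hl : HasLower α i) {p : α} (hp : ds i p = 1)
    (hdeg : (bd i p).card ≤ 2) (κ : α → ℕ) :
    mc (GA i κ p) ∈ MvPolynomial.supported ℤ[X] (bd i p : Set α) := by
  rw [mc_GA hg hl hp hdeg κ]
  split_ifs
  · exact add_mem (one_mem _) (mul_mem ((MvPolynomial.supported ℤ[X] (bd i p : Set α)).algebraMap_mem _) (M0_mem κ p))
  · exact add_mem (one_mem _) (zero_mem _)

/-- the functional of a product with pairwise disjoint variables -/
lemma Ev_prod_disj {A σ Y : Type} [CommRing A] (w : A) (S : Finset σ) (V : σ → Finset Y)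
    (hV : ∀ s ∈ S, ∀ s' ∈ S, s ≠ s' → Disjoint (V s) (V s')) {F : σ → MvPolynomial Y A}
    (hF : ∀ s ∈ S, F s ∈ MvPolynomial.supported A (V s : Set Y)) :
    Ev w (∏ s ∈ S, F s) = ∏ s ∈ S, Ev w (F s) := by
  induction S using Finset.induction_on with
  | empty => rw [prod_empty, prod_empty, Ev_one]
  | insert s S hs ih =>
    have h1 : Disjoint (V s : Set Y) (S.biUnion V : Set Y) := by
      rw [Finset.disjoint_coe, Finset.disjoint_biUnion_right]
      intro s' hs'
      exact hV s (mem_insert_self s S) s' (mem_insert_of_mem hs') (by rintro rfl; exact hs hs')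
    rw [prod_insert hs, prod_insert hs, Ev_mul w h1 (hF s (mem_insert_self s S)),
      ih (fun a ha b hb => hV a (mem_insert_of_mem ha) b (mem_insert_of_mem hb))
        (fun a ha => hF a (mem_insert_of_mem ha))]
    exact prod_mem fun a ha => MvPolynomial.supported_mono
      (by exact_mod_cast Finset.subset_biUnion_of_mem V ha) (hF a (mem_insert_of_mem ha))

section stars

variable {m : Mat α i} {St : Finset (α × α)} {t k c : α × α → α} (hS : StarCfg m St t k c)

include hS in
lemma star_rank {s : α × α} (hs : s ∈ St) : corank s.1 + 1 = i ∧ corank s.2 = i + 1 := by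
  have h1 : s.1 ∈ m.Zl := by
    rw [hS.Zl]
    exact mem_image_of_mem _ hs
  have h2 : s.2 ∈ m.Xn := by
    rw [hS.Xn]
    exact mem_image_of_mem _ hs
  rw [Mat.mem_Zl] at h1
  rw [Mat.mem_Xn] at h2
  exact ⟨h1.1, h2.1⟩

/-- the value of all factors next to level `i` at `w = 0`: star by star -/
theorem cc_N1 (hg : Grad α) (hl : HasLower α i) (hdeg : ∀ p : α, (bd i p).card ≤ 2)
    (hS : StarCfg m St t k c) (κ : α → ℕ) :
    cc (Ev wA (∏ p ∈ N1 α i, GA i κ p)) =
      ∏ s ∈ St, Vst (κ (t s) ≠ 0) (κ (k s) ≠ 0) (κ (c s) ≠ 0) := by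
  rw [cc_Ev, (EvEq0_N1 hg hl hdeg hS κ).ev,
    Ev_prod_disj (0 : ℤ[X]) St (fun s => {t s, k s, c s}) hS.st.dis]
  · apply prod_congr rfl
    intro s hs
    obtain ⟨h1, h2⟩ := star_rank hS hs
    exact Ev_star hg hl h1 h2 (hS.bz s hs) (hS.bx s hs) (hS.st.kc s hs) (hS.st.tk s hs).symm
      (hS.st.tc s hs) κ
  · intro s hs
    obtain ⟨h1, h2⟩ := star_rank hS hs
    refine mul_mem ?_ ?_
    · refine MvPolynomial.supported_mono ?_
        (mc_GA_mem hg hl (ds_one_iff.2 (Or.inr h2)) (hdeg _) κ)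
      rw [hS.bx s hs]
      intro y hy
      simp only [coe_insert, coe_singleton, Set.mem_insert_iff, Set.mem_singleton_iff] at hy ⊢
      tauto
    · refine MvPolynomial.supported_mono ?_
        (mc_GA_mem hg hl (ds_one_iff.2 (Or.inl h1)) (hdeg _) κ)
      rw [hS.bz s hs]
      intro y hy
      simp only [coe_insert, coe_singleton, Set.mem_insert_iff, Set.mem_singleton_iff] at hy ⊢
      tauto

end stars

/-! ### the sum over two units of energy on level `i` -/

/-- the ordered form of the sum over two units of energy -/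
theorem sum_KL_two {R : Type} [CommRing R] (f : (α → ℕ) → R) :
    2 * ∑ κ ∈ KL α i 2, f κ = ∑ y ∈ lev α i, ∑ y' ∈ lev α i, f (ind {y} + ind {y'}) +
      ∑ y ∈ lev α i, f (ind {y} + ind {y}) := by
  -- energies with a unit at `y`
  have hind : ∀ y p : α, ind ({y} : Finset α) p = if p = y then 1 else 0 := by
    intro y p
    by_cases h : p = y
    · rw [if_pos h, h]
      exact ind_mem (mem_singleton_self y)
    · rw [if_neg h]
      exact ind_notMem (by rwa [mem_singleton])
  have hKL : ∀ (s : ℕ) (κ : α → ℕ), κ ∈ KL α i s ↔ (∑ y ∈ lev α i, κ y = s ∧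
      ∀ p, κ p ≠ 0 → p ∈ lev α i) := by
    intro s κ
    unfold KL
    rw [mem_piAntidiag]
  have h1 : ∀ y ∈ lev α i, ∑ κ ∈ (KL α i 2).filter (fun κ => 1 ≤ κ y), f κ =
      ∑ y' ∈ lev α i, f (ind {y} + ind {y'}) := by
    intro y hy
    rw [← sum_KL_one (fun κ => f (ind {y} + κ))]
    refine Finset.sum_bij' (fun κ _ => fun p => κ p - ind {y} p) (fun κ _ => ind {y} + κ)
      ?_ ?_ ?_ ?_ ?_
    · intro κ hκ
      rw [mem_filter, hKL] at hκ
      rw [hKL]
      constructor
      · have h2 : ∑ p ∈ lev α i, ind ({y} : Finset α) p = 1 := by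
          rw [Finset.sum_eq_single y]
          · exact ind_mem (mem_singleton_self y)
          · intro p _ hp
            exact ind_notMem (by rwa [mem_singleton])
          · intro h
            exact absurd hy h
        have h3 : ∑ p ∈ lev α i, (κ p - ind {y} p) + ∑ p ∈ lev α i, ind ({y} : Finset α) p =
            ∑ p ∈ lev α i, κ p := by
          rw [← sum_add_distrib]
          apply sum_congr rfl
          intro p _
          rw [hind]
          split_ifs with h
          · rw [h]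
            omega
          · omega
        omega
      · intro p hp
        apply hκ.1.2 p
        intro h
        rw [h] at hp
        exact hp (Nat.zero_sub _)
    · intro κ hκ
      rw [hKL] at hκ
      rw [mem_filter, hKL]
      refine ⟨⟨?_, ?_⟩, ?_⟩
      · simp only [Pi.add_apply]
        rw [sum_add_distrib, hκ.1, Finset.sum_eq_single y]
        · rw [ind_mem (mem_singleton_self y)]
        · intro p _ hp
          exact ind_notMem (by rwa [mem_singleton])
        · intro h
          exact absurd hy h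
      · intro p hp
        by_cases h : p = y
        · rw [h]
          exact hy
        · apply hκ.2 p
          intro h2
          apply hp
          rw [Pi.add_apply, h2, hind, if_neg h]
      · rw [Pi.add_apply, ind_mem (mem_singleton_self y)]
        omega
    · intro κ hκ
      rw [mem_filter] at hκ
      funext p
      rw [Pi.add_apply, hind]
      split_ifs with h
      · rw [h]
        omega
      · omega
    · intro κ hκ
      funext p
      rw [Pi.add_apply]
      omega
    · intro κ hκ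
      rw [mem_filter] at hκ
      congr 1
      funext p
      rw [Pi.add_apply, hind]
      split_ifs with h
      · rw [h]
        omega
      · omega
  have h2 : ∀ y ∈ lev α i, ∑ κ ∈ (KL α i 2).filter (fun κ => 2 ≤ κ y), f κ =
      f (ind {y} + ind {y}) := by
    intro y hy
    have : (KL α i 2).filter (fun κ => 2 ≤ κ y) = {ind {y} + ind {y}} := by
      ext κ
      rw [mem_filter, hKL, mem_singleton]
      constructor
      · rintro ⟨⟨h3, h4⟩, h5⟩
        have h6 : ∑ p ∈ (lev α i).erase y, κ p = 0 := by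
          have := Finset.add_sum_erase (lev α i) κ hy
          omega
        rw [Finset.sum_eq_zero_iff] at h6
        have h7 := Finset.add_sum_erase (lev α i) κ hy
        funext p
        rw [Pi.add_apply, hind]
        split_ifs with h
        · rw [h]
          have := Finset.sum_eq_zero h6
          omega
        · by_contra h8
          have h9 := h4 p (by omega)
          have := h6 p (mem_erase.2 ⟨h, h9⟩)
          omega
      · rintro rfl
        refine ⟨⟨?_, ?_⟩, ?_⟩
        · simp only [Pi.add_apply]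
          rw [sum_add_distrib, Finset.sum_eq_single y]
          · rw [ind_mem (mem_singleton_self y)]
          · intro p _ hp
            exact ind_notMem (by rwa [mem_singleton])
          · intro h
            exact absurd hy h
        · intro p hp
          by_cases h : p = y
          · rw [h]
            exact hy
          · rw [Pi.add_apply, hind, if_neg h] at hp
            exact absurd rfl hp
        · rw [Pi.add_apply, ind_mem (mem_singleton_self y)]
    rw [this, sum_singleton]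
  have h3 : 2 * ∑ κ ∈ KL α i 2, f κ = ∑ κ ∈ KL α i 2, ∑ y ∈ lev α i,
      ((if 1 ≤ κ y then f κ else 0) + if 2 ≤ κ y then f κ else 0) := by
    rw [mul_sum]
    apply sum_congr rfl
    intro κ hκ
    rw [hKL] at hκ
    have h4 : ∀ y ∈ lev α i, ((if 1 ≤ κ y then f κ else 0) + if 2 ≤ κ y then f κ else 0) =
        (κ y : R) * f κ := by
      intro y hy
      have h5 : κ y ≤ 2 := by
        rw [← hκ.1]
        exact Finset.single_le_sum (f := κ) (fun _ _ => Nat.zero_le _) hy
      have h6 : κ y = 0 ∨ κ y = 1 ∨ κ y = 2 := by omega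
      rcases h6 with h6 | h6 | h6
      · rw [h6]
        simp
      · rw [h6]
        simp
      · rw [h6]
        simp
        ring
    rw [sum_congr rfl h4, ← sum_mul, ← Nat.cast_sum, hκ.1]
    norm_num
  rw [h3, Finset.sum_comm, ← sum_add_distrib]
  apply sum_congr rfl
  intro y hy
  rw [sum_add_distrib, ← h1 y hy, ← h2 y hy, sum_filter, sum_filter]

section values

variable {m : Mat α i} {St : Finset (α × α)} {t k c : α × α → α} (hS : StarCfg m St t k c)

/-- the value of the stars with the excited vertices `E` -/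
noncomputable def VE1 (t k c : α × α → α) (s : α × α) (E : Finset α) : ℤ[X] :=
  Vst (t s ∈ E) (k s ∈ E) (c s ∈ E)

lemma VE1_disj {s : α × α} {E : Finset α} (h : Disjoint ({t s, k s, c s} : Finset α) E) :
    VE1 t k c s E = 1 := by
  rw [Finset.disjoint_left] at h
  have h1 : t s ∉ E := h (by simp)
  have h2 : k s ∉ E := h (by simp)
  have h3 : c s ∉ E := h (by simp)
  unfold VE1 Vst vx
  simp [h1, h2, h3]

lemma VE1_congr {s : α × α} {E E' : Finset α}
    (h : ∀ y ∈ ({t s, k s, c s} : Finset α), y ∈ E ↔ y ∈ E') :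
    VE1 t k c s E = VE1 t k c s E' := by
  unfold VE1
  rw [h (t s) (by simp), h (k s) (by simp), h (c s) (by simp)]

/-- the sum over a set of vertices of a function which vanishes outside the stars -/
lemma sum_lev_stars (hd : TL.Stars St t k c) (hlev : ∀ s ∈ St, ({t s, k s, c s} : Finset α) ⊆
    lev α i) {R : Type} [AddCommMonoid R] (g : α → R)
    (hg : ∀ y ∈ lev α i, (∀ s ∈ St, y ∉ ({t s, k s, c s} : Finset α)) → g y = 0) :
    ∑ y ∈ lev α i, g y = ∑ s ∈ St, ∑ y ∈ ({t s, k s, c s} : Finset α), g y := by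
  rw [← Finset.sum_biUnion fun s hs s' hs' h => hd.dis s hs s' hs' h]
  symm
  apply Finset.sum_subset
  · exact Finset.biUnion_subset.2 hlev
  · intro y hy hy'
    apply hg y hy
    intro s hs h
    exact hy' (mem_biUnion.2 ⟨s, hs, h⟩)

lemma sum_triple {R : Type} [AddCommMonoid R] {a b c : α} (h1 : a ≠ b) (h2 : b ≠ c) (h3 : a ≠ c)
    (g : α → R) : ∑ y ∈ ({a, b, c} : Finset α), g y = g a + g b + g c := by
  rw [sum_insert, sum_pair h2, add_assoc]
  rw [mem_insert, mem_singleton]
  tauto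

include hS in
lemma star_lev (hg : Grad α) {s : α × α} (hs : s ∈ St) :
    ({t s, k s, c s} : Finset α) ⊆ lev α i := by
  obtain ⟨h1, h2⟩ := star_rank hS hs
  intro y hy
  rw [mem_insert, mem_insert, mem_singleton] at hy
  rw [mem_lev]
  rcases hy with rfl | rfl | rfl
  · exact bd_lev hg (p := s.2) (ds_one_iff.2 (Or.inr h2)) (by rw [hS.bx s hs]; simp)
  · exact bd_lev hg (p := s.2) (ds_one_iff.2 (Or.inr h2)) (by rw [hS.bx s hs]; simp)
  · exact bd_lev hg (p := s.1) (ds_one_iff.2 (Or.inl h1)) (by rw [hS.bz s hs]; simp)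

/-- the values of a star with one excited vertex -/
lemma VE1_one {s : α × α} (hd : TL.Stars St t k c) (hs : s ∈ St) :
    VE1 t k c s {t s} = 1 - 2 * X ∧ VE1 t k c s {k s} = 1 - X ^ 2 ∧
      VE1 t k c s {c s} = 1 + 2 * X := by
  have h1 := hd.tk s hs
  have h2 := hd.kc s hs
  have h3 := hd.tc s hs
  unfold VE1 Vst vx
  refine ⟨?_, ?_, ?_⟩
  · simp [h1, h2, h3, h1.symm, h2.symm, h3.symm]
    ring
  · simp [h1, h2, h3, h1.symm, h2.symm, h3.symm]
  · simp [h1, h2, h3, h1.symm, h2.symm, h3.symm]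
    ring

/-- the values of a star with two excited vertices -/
lemma VE1_two {s : α × α} (hd : TL.Stars St t k c) (hs : s ∈ St) :
    VE1 t k c s {t s, k s} = 1 + X ∧ VE1 t k c s {k s, c s} = 1 - X ∧
      VE1 t k c s {t s, c s} = 1 := by
  have h1 := hd.tk s hs
  have h2 := hd.kc s hs
  have h3 := hd.tc s hs
  unfold VE1 Vst vx
  refine ⟨?_, ?_, ?_⟩
  · simp [h1, h2, h3, h1.symm, h2.symm, h3.symm]
  · simp [h1, h2, h3, h1.symm, h2.symm, h3.symm]
    ring
  · simp [h1, h2, h3, h1.symm, h2.symm, h3.symm]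

/-- **the sum over two units of energy at `w = 0`**, `n` = number of vertices of level `i`,
`M` = number of stars -/
theorem sum_VE (hg : Grad α) (hS : StarCfg m St t k c) :
    ∑ y ∈ lev α i, ∑ y' ∈ lev α i, ∏ s ∈ St, VE1 t k c s {y, y'} =
      (((lev α i).card : ℤ[X]) - (St.card : ℤ[X]) * X ^ 2) ^ 2 +
        (St.card : ℤ[X]) * (5 * X ^ 2 - X ^ 4) ∧
    ∑ y ∈ lev α i, ∏ s ∈ St, VE1 t k c s {y} =
      ((lev α i).card : ℤ[X]) - (St.card : ℤ[X]) * X ^ 2 := by
  have hd := hS.st
  have hlev : ∀ s ∈ St, ({t s, k s, c s} : Finset α) ⊆ lev α i := fun s hs => star_lev hS hg hs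
  -- the product for a vertex of a star
  have hone : ∀ s ∈ St, ∀ y ∈ ({t s, k s, c s} : Finset α), ∀ E : Finset α,
      E ⊆ ({t s, k s, c s} : Finset α) → ∏ s' ∈ St, VE1 t k c s' E = VE1 t k c s E := by
    intro s hs y hy E hE
    rw [← mul_prod_erase St _ hs, Finset.prod_eq_one, mul_one]
    intro s' hs'
    rw [mem_erase] at hs'
    apply VE1_disj
    exact (hd.dis s' hs'.2 s hs hs'.1).mono_right hE
  have hout : ∀ y, (∀ s ∈ St, y ∉ ({t s, k s, c s} : Finset α)) →
      ∏ s' ∈ St, VE1 t k c s' {y} = 1 := by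
    intro y hy
    apply Finset.prod_eq_one
    intro s' hs'
    apply VE1_disj
    rw [Finset.disjoint_singleton_right]
    exact hy s' hs'
  -- one vertex
  have e1 : ∑ y ∈ lev α i, ∏ s ∈ St, VE1 t k c s {y} =
      ((lev α i).card : ℤ[X]) - (St.card : ℤ[X]) * X ^ 2 := by
    have h1 : ∑ y ∈ lev α i, ((∏ s ∈ St, VE1 t k c s {y}) - 1) =
        ∑ s ∈ St, (-(X : ℤ[X]) ^ 2) := by
      rw [sum_lev_stars hd hlev _ (fun y _ hy => by rw [hout y hy, sub_self])]
      apply sum_congr rfl
      intro s hs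
      obtain ⟨g1, g2, g3⟩ := VE1_one hd hs
      rw [sum_triple (hd.tk s hs) (hd.kc s hs) (hd.tc s hs),
        hone s hs (t s) (by simp) {t s} (by simp), hone s hs (t s) (by simp) {k s} (by simp),
        hone s hs (t s) (by simp) {c s} (by simp), g1, g2, g3]
      ring
    rw [sum_sub_distrib, sum_const, sum_const, nsmul_eq_mul, nsmul_eq_mul, mul_one] at h1
    linear_combination h1
  refine ⟨?_, e1⟩
  -- two vertices
  have h2 : ∀ y ∈ lev α i, ∀ y' ∈ lev α i, (¬ ∃ s ∈ St, y ∈ ({t s, k s, c s} : Finset α) ∧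
      y' ∈ ({t s, k s, c s} : Finset α)) → ∏ s ∈ St, VE1 t k c s {y, y'} -
      (∏ s ∈ St, VE1 t k c s {y}) * ∏ s ∈ St, VE1 t k c s {y'} = 0 := by
    intro y hy y' hy' h
    rw [← prod_mul_distrib, sub_eq_zero]
    apply prod_congr rfl
    intro s hs
    by_cases g1 : y ∈ ({t s, k s, c s} : Finset α)
    · have g2 : y' ∉ ({t s, k s, c s} : Finset α) := fun g => h ⟨s, hs, g1, g⟩
      rw [VE1_disj (E := {y'}) (by rwa [Finset.disjoint_singleton_right]), mul_one]
      apply VE1_congr
      intro z hz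
      rw [mem_insert, mem_singleton, mem_singleton]
      constructor
      · rintro (g | g)
        · exact g
        · rw [g] at hz
          exact absurd hz g2
      · exact Or.inl
    · rw [VE1_disj (E := {y}) (by rwa [Finset.disjoint_singleton_right]), one_mul]
      apply VE1_congr
      intro z hz
      rw [mem_insert, mem_singleton]
      constructor
      · rintro (g | g)
        · rw [g] at hz
          exact absurd hz g1
        · exact g
      · exact Or.inr
  have h3 : ∑ y ∈ lev α i, ∑ y' ∈ lev α i, (∏ s ∈ St, VE1 t k c s {y, y'} -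
      (∏ s ∈ St, VE1 t k c s {y}) * ∏ s ∈ St, VE1 t k c s {y'}) =
      ∑ s ∈ St, (5 * X ^ 2 - X ^ 4 : ℤ[X]) := by
    rw [sum_lev_stars hd hlev _ (fun y hy h => Finset.sum_eq_zero fun y' hy' =>
      h2 y hy y' hy' (by
        rintro ⟨s, hs, g1, _⟩
        exact h s hs g1))]
    apply sum_congr rfl
    intro s hs
    have h4 : ∀ y ∈ ({t s, k s, c s} : Finset α), ∑ y' ∈ lev α i,
        (∏ s ∈ St, VE1 t k c s {y, y'} -
          (∏ s ∈ St, VE1 t k c s {y}) * ∏ s ∈ St, VE1 t k c s {y'}) =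
        ∑ y' ∈ ({t s, k s, c s} : Finset α), (VE1 t k c s {y, y'} -
          VE1 t k c s {y} * VE1 t k c s {y'}) := by
      intro y hy
      rw [← Finset.sum_subset (hlev s hs)]
      · apply sum_congr rfl
        intro y' hy'
        rw [hone s hs y hy {y, y'} (by
            intro z hz
            rw [mem_insert, mem_singleton] at hz
            rcases hz with rfl | rfl
            · exact hy
            · exact hy'), hone s hs y hy {y} (by rwa [Finset.singleton_subset_iff]),
          hone s hs y hy {y'} (by rwa [Finset.singleton_subset_iff])]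
      · intro y' hy' hn
        apply h2 y (hlev s hs hy) y' hy'
        rintro ⟨s', hs', g1, g2⟩
        have : s' = s := by
          by_contra hne
          exact (Finset.disjoint_left.1 (hd.dis s' hs' s hs hne) g1) hy
        rw [this] at g2
        exact hn g2
    rw [sum_congr rfl h4]
    obtain ⟨g1, g2, g3⟩ := VE1_one hd hs
    obtain ⟨g4, g5, g6⟩ := VE1_two hd hs
    rw [sum_triple (hd.tk s hs) (hd.kc s hs) (hd.tc s hs),
      sum_triple (hd.tk s hs) (hd.kc s hs) (hd.tc s hs),
      sum_triple (hd.tk s hs) (hd.kc s hs) (hd.tc s hs),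
      sum_triple (hd.tk s hs) (hd.kc s hs) (hd.tc s hs)]
    rw [Finset.pair_eq_singleton, Finset.pair_eq_singleton, Finset.pair_eq_singleton,
      Finset.pair_comm (k s) (t s), Finset.pair_comm (c s) (k s), Finset.pair_comm (c s) (t s),
      g1, g2, g3, g4, g5, g6]
    ring
  have h5 : ∑ y ∈ lev α i, ∑ y' ∈ lev α i, (∏ s ∈ St, VE1 t k c s {y}) *
      ∏ s ∈ St, VE1 t k c s {y'} =
      (((lev α i).card : ℤ[X]) - (St.card : ℤ[X]) * X ^ 2) ^ 2 := by
    have : ∀ y ∈ lev α i, ∑ y' ∈ lev α i, (∏ s ∈ St, VE1 t k c s {y}) *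
        ∏ s ∈ St, VE1 t k c s {y'} = (∏ s ∈ St, VE1 t k c s {y}) *
          (((lev α i).card : ℤ[X]) - (St.card : ℤ[X]) * X ^ 2) := by
      intro y _
      rw [← mul_sum, e1]
    rw [sum_congr rfl this, ← sum_mul, e1]
    ring
  have h6 : ∑ y ∈ lev α i, ∑ y' ∈ lev α i, ∏ s ∈ St, VE1 t k c s {y, y'} =
      ∑ y ∈ lev α i, ∑ y' ∈ lev α i, (∏ s ∈ St, VE1 t k c s {y, y'} -
      (∏ s ∈ St, VE1 t k c s {y}) * ∏ s ∈ St, VE1 t k c s {y'}) +
      ∑ y ∈ lev α i, ∑ y' ∈ lev α i, (∏ s ∈ St, VE1 t k c s {y}) *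
      ∏ s ∈ St, VE1 t k c s {y'} := by
    rw [← sum_add_distrib]
    apply sum_congr rfl
    intro y _
    rw [← sum_add_distrib]
    apply sum_congr rfl
    intro y' _
    ring
  rw [h6, h3, h5, sum_const, nsmul_eq_mul]
  ring

/-- **two units of energy on level `i` at `w = 0`** -/
theorem sum_KL_cc (hg : Grad α) (hl : HasLower α i) (hdeg : ∀ p : α, (bd i p).card ≤ 2)
    (hS : StarCfg m St t k c) :
    2 * ∑ κ ∈ KL α i 2, cc (Ev wA (∏ p ∈ N1 α i, GA i κ p)) =
      (((lev α i).card : ℤ[X]) - (St.card : ℤ[X]) * X ^ 2) ^ 2 +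
        (St.card : ℤ[X]) * (5 * X ^ 2 - X ^ 4) +
      (((lev α i).card : ℤ[X]) - (St.card : ℤ[X]) * X ^ 2) := by
  have h1 : ∀ y y' : α, cc (Ev wA (∏ p ∈ N1 α i, GA i (ind {y} + ind {y'}) p)) =
      ∏ s ∈ St, VE1 t k c s {y, y'} := by
    intro y y'
    rw [cc_N1 hg hl hdeg hS]
    apply prod_congr rfl
    intro s _
    unfold VE1
    have h : ∀ z : α, ((ind {y} + ind {y'} : α → ℕ) z ≠ 0) = (z ∈ ({y, y'} : Finset α)) := by
      intro z
      apply propext
      rw [Pi.add_apply, mem_insert, mem_singleton]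
      constructor
      · intro h
        by_contra h2
        push Not at h2
        apply h
        rw [ind_notMem (by rw [mem_singleton]; exact h2.1),
          ind_notMem (by rw [mem_singleton]; exact h2.2)]
      · rintro (rfl | rfl)
        · rw [ind_mem (mem_singleton_self z)]
          omega
        · rw [ind_mem (T := {z}) (mem_singleton_self z)]
          omega
    rw [h, h, h]
  rw [sum_KL_two, sum_congr rfl fun y _ => sum_congr rfl fun y' _ => h1 y y',
    sum_congr rfl fun y _ => h1 y y]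
  have h2 : ∑ y ∈ lev α i, ∏ s ∈ St, VE1 t k c s {y, y} =
      ∑ y ∈ lev α i, ∏ s ∈ St, VE1 t k c s {y} := by
    apply sum_congr rfl
    intro y _
    rw [Finset.pair_eq_singleton]
  obtain ⟨g1, g2⟩ := sum_VE hg hS
  rw [h2, g1, g2]

/-- the coefficient of `Z ^ 2` -/
theorem sum_KL_cf (hg : Grad α) (hl : HasLower α i) (hdeg : ∀ p : α, (bd i p).card ≤ 2)
    (hS : StarCfg m St t k c) :
    ∑ κ ∈ KL α i 2, TL.cf 0 2 (Ev wA (∏ p ∈ N1 α i, GA i κ p)) =
      - (((lev α i).card : ℤ) - 2) * (St.card : ℤ) := by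
  have h := congrArg (fun P : ℤ[X] => P.coeff 2) (sum_KL_cc hg hl hdeg hS)
  have h1 : ∑ κ ∈ KL α i 2, TL.cf 0 2 (Ev wA (∏ p ∈ N1 α i, GA i κ p)) =
      (∑ κ ∈ KL α i 2, cc (Ev wA (∏ p ∈ N1 α i, GA i κ p))).coeff 2 := by
    rw [Polynomial.finsetSum_coeff]
    apply sum_congr rfl
    intro κ _
    rw [TL.cf_apply, PowerSeries.coeff_zero_eq_constantCoeff]
  have h2 : (2 * ∑ κ ∈ KL α i 2, cc (Ev wA (∏ p ∈ N1 α i, GA i κ p))).coeff 2 =
      2 * (∑ κ ∈ KL α i 2, cc (Ev wA (∏ p ∈ N1 α i, GA i κ p))).coeff 2 := by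
    have : (2 : ℤ[X]) = C 2 := rfl
    rw [this, Polynomial.coeff_C_mul]
  have h3 : ((((lev α i).card : ℤ[X]) - (St.card : ℤ[X]) * X ^ 2) ^ 2 +
        (St.card : ℤ[X]) * (5 * X ^ 2 - X ^ 4) +
      (((lev α i).card : ℤ[X]) - (St.card : ℤ[X]) * X ^ 2)) =
      C (((lev α i).card : ℤ) ^ 2 + (lev α i).card) +
        C (4 * (St.card : ℤ) - 2 * (lev α i).card * St.card) * X ^ 2 +
        C ((St.card : ℤ) ^ 2 - St.card) * X ^ 4 := by
    simp only [map_add, map_sub, map_mul, map_pow, map_natCast]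
    have : (C (4 : ℤ) : ℤ[X]) = 4 := rfl
    have h2 : (C (2 : ℤ) : ℤ[X]) = 2 := rfl
    rw [this, h2]
    ring
  rw [h2, h3] at h
  rw [h1]
  obtain ⟨S, hS'⟩ : ∃ S, S = (∑ κ ∈ KL α i 2, cc (Ev wA (∏ p ∈ N1 α i, GA i κ p))).coeff 2 :=
    ⟨_, rfl⟩
  rw [← hS'] at h ⊢
  simp only [Polynomial.coeff_add, Polynomial.coeff_C_mul, Polynomial.coeff_X_pow,
    Polynomial.coeff_C] at h
  norm_num at h
  linarith

end values

/-! ### frozen variables and stars -/

section frozen

variable {m : Mat α i} {St : Finset (α × α)} {t k c : α × α → α} (hS : StarCfg m St t k c)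

/-- the factor of an untouched star at `w = 0` -/
noncomputable def F0 (t k c : α × α → α) (s : α × α) : MvPolynomial α ℤ[X] :=
  1 + MvPolynomial.C X * TL.Dg ℤ[X] (t s) (k s) (c s)

lemma Ev0_prodX (B : Finset α) : Ev (0 : ℤ[X]) (∏ y ∈ B, MvPolynomial.X y) = (-1) ^ B.card := by
  rw [Ev_prod_X, zero_sub]

/-- value of frozen variables with the factors of the stars -/
theorem Ev_frozen (hd : TL.Stars St t k c) (B : Finset α) :
    Ev (0 : ℤ[X]) ((∏ y ∈ B, MvPolynomial.X y) * ∏ s ∈ St, F0 t k c s) =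
      (-1) ^ B.card * ∏ s ∈ St, (1 + X * C (TL.ta t k c s B)) := by
  -- the value of one star
  have hone : ∀ s ∈ St, ∀ B' : Finset α,
      Ev (0 : ℤ[X]) ((∏ y ∈ B', MvPolynomial.X y) * F0 t k c s) =
      (-1) ^ B'.card * (1 + X * C (TL.ta t k c s B')) := by
    intro s hs B'
    have h1 := TL.E0_Dg_am hd hs B'
    have h2 := map_Ev (C : ℤ →+* ℤ[X]) 0
      (TL.Dg ℤ (t s) (k s) (c s) * TL.am B')
    rw [show Ev (0 : ℤ) (TL.Dg ℤ (t s) (k s) (c s) * TL.am B') =
      (-1) ^ B'.card * TL.ta t k c s B' from h1, map_zero] at h2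
    have h3 : MvPolynomial.map (C : ℤ →+* ℤ[X]) (TL.Dg ℤ (t s) (k s) (c s) * TL.am B') =
        TL.Dg ℤ[X] (t s) (k s) (c s) * ∏ y ∈ B', MvPolynomial.X y := by
      unfold TL.Dg TL.am
      simp only [map_mul, map_sub, map_prod, MvPolynomial.map_X]
    rw [h3] at h2
    have h4 : (∏ y ∈ B', MvPolynomial.X y) * F0 t k c s = ∏ y ∈ B', MvPolynomial.X y +
        MvPolynomial.C X * (TL.Dg ℤ[X] (t s) (k s) (c s) * ∏ y ∈ B', MvPolynomial.X y) := by
      unfold F0
      ring
    rw [h4, map_add, Ev0_prodX, Ev_C_mul, ← h2, map_mul, map_pow, map_neg, map_one]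
    ring
  have hta : ∀ s ∈ St, TL.ta t k c s B = TL.ta t k c s (B ∩ {t s, k s, c s}) := by
    intro s hs
    unfold TL.ta TL.dl
    simp only [mem_inter, mem_insert, mem_singleton, true_or, or_true, and_true]
  -- the vertices of `B` outside the stars
  set U := St.biUnion (fun s => ({t s, k s, c s} : Finset α)) with hU
  have hB : (∏ y ∈ B, (MvPolynomial.X y : MvPolynomial α ℤ[X])) =
      (∏ y ∈ B \ U, MvPolynomial.X y) * ∏ s ∈ St, ∏ y ∈ B ∩ {t s, k s, c s}, MvPolynomial.X y := by
    rw [← Finset.prod_biUnion, ← Finset.prod_union]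
    · congr 1
      ext y
      rw [mem_union, mem_sdiff, hU, mem_biUnion, mem_biUnion]
      constructor
      · intro h
        by_cases h1 : ∃ s ∈ St, y ∈ ({t s, k s, c s} : Finset α)
        · right
          obtain ⟨s, hs, h2⟩ := h1
          exact ⟨s, hs, mem_inter.2 ⟨h, h2⟩⟩
        · exact Or.inl ⟨h, h1⟩
      · rintro (h | ⟨s, _, h⟩)
        · exact h.1
        · exact (mem_inter.1 h).1
    · rw [Finset.disjoint_left]
      intro y hy hy'
      rw [mem_biUnion] at hy'
      obtain ⟨s, hs, h⟩ := hy'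
      exact (mem_sdiff.1 hy).2 (mem_biUnion.2 ⟨s, hs, (mem_inter.1 h).2⟩)
    · intro s hs s' hs' hne
      exact (hd.dis s hs s' hs' hne).mono inter_subset_right inter_subset_right
  have hcard : B.card = (B \ U).card + ∑ s ∈ St, (B ∩ {t s, k s, c s}).card := by
    have h1 : B = (B \ U) ∪ St.biUnion (fun s => B ∩ ({t s, k s, c s} : Finset α)) := by
      ext y
      rw [mem_union, mem_sdiff, hU, mem_biUnion, mem_biUnion]
      constructor
      · intro h
        by_cases h1 : ∃ s ∈ St, y ∈ ({t s, k s, c s} : Finset α)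
        · right
          obtain ⟨s, hs, h2⟩ := h1
          exact ⟨s, hs, mem_inter.2 ⟨h, h2⟩⟩
        · exact Or.inl ⟨h, h1⟩
      · rintro (h | ⟨s, _, h⟩)
        · exact h.1
        · exact (mem_inter.1 h).1
    have h2 : Disjoint (B \ U) (St.biUnion (fun s => B ∩ ({t s, k s, c s} : Finset α))) := by
      rw [Finset.disjoint_left]
      intro y hy hy'
      rw [mem_biUnion] at hy'
      obtain ⟨s, hs, h⟩ := hy'
      exact (mem_sdiff.1 hy).2 (mem_biUnion.2 ⟨s, hs, (mem_inter.1 h).2⟩)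
    have h3 : (St.biUnion (fun s => B ∩ ({t s, k s, c s} : Finset α))).card =
        ∑ s ∈ St, (B ∩ {t s, k s, c s}).card := by
      apply Finset.card_biUnion
      intro s hs s' hs' hne
      exact (hd.dis s hs s' hs' hne).mono inter_subset_right inter_subset_right
    calc B.card = ((B \ U) ∪ St.biUnion (fun s => B ∩ ({t s, k s, c s} : Finset α))).card := by
          rw [← h1]
      _ = (B \ U).card + ∑ s ∈ St, (B ∩ {t s, k s, c s}).card := by
          rw [card_union_of_disjoint h2, h3]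
  have hF : ∀ s ∈ St, (∏ y ∈ B ∩ {t s, k s, c s}, MvPolynomial.X y) * F0 t k c s ∈
      MvPolynomial.supported ℤ[X] ((({t s, k s, c s} : Finset α)) : Set α) := by
    intro s hs
    refine mul_mem (prod_mem fun y hy => MvPolynomial.X_mem_supported.2
      (mem_coe.2 (mem_inter.1 hy).2)) ?_
    unfold F0
    refine add_mem (one_mem _) (mul_mem ((MvPolynomial.supported _ _).algebraMap_mem _)
      (TL.Dg_mem _ ?_ ?_ ?_)) <;> simp
  have hsplit : (∏ y ∈ B, MvPolynomial.X y) * ∏ s ∈ St, F0 t k c s =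
      (∏ y ∈ B \ U, MvPolynomial.X y) *
        ∏ s ∈ St, ((∏ y ∈ B ∩ {t s, k s, c s}, MvPolynomial.X y) * F0 t k c s) := by
    rw [hB, prod_mul_distrib]
    ring
  have hdU : Disjoint ((B \ U : Finset α) : Set α) (U : Set α) := by
    rw [Finset.disjoint_coe]
    exact sdiff_disjoint
  rw [hsplit, Ev_mul (0 : ℤ[X]) hdU
    (prod_mem fun y hy => MvPolynomial.X_mem_supported.2 (mem_coe.2 hy))
    (prod_mem fun s hs => MvPolynomial.supported_mono
      (by
        rw [hU]
        exact_mod_cast Finset.subset_biUnion_of_mem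
          (fun s => ({t s, k s, c s} : Finset α)) hs) (hF s hs)),
    Ev_prod_disj (0 : ℤ[X]) St (fun s => {t s, k s, c s}) hd.dis hF, Ev0_prodX, hcard,
    pow_add, mul_assoc, ← Finset.prod_pow_eq_pow_sum, ← prod_mul_distrib]
  congr 1
  apply prod_congr rfl
  intro s hs
  rw [hone s hs, hta s hs]

/-- a factor `1 + (a_y ..)` next to frozen variables containing `y` -/
lemma EvEq0_frozen {A P : MvPolynomial α ℤ[X]} {y : α} (hA : MvPolynomial.X y ∣ A)
    (hP : MvPolynomial.X y ∣ P - 1) : EvEq (0 : ℤ[X]) (A * P) (A * 1) := by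
  have h1 := (EvEq0_kill hA hP).add (EvEq.refl A)
  refine (EvEq.of_eq ?_).trans (h1.trans (EvEq.of_eq ?_))
  · ring
  · ring

lemma X_dvd_F0 (s : α × α) : (MvPolynomial.X (k s) : MvPolynomial α ℤ[X]) ∣ F0 t k c s - 1 := by
  unfold F0 TL.Dg
  exact ⟨MvPolynomial.C X * (MvPolynomial.X (t s) - MvPolynomial.X (c s)), by ring⟩

lemma X_dvd_GA (hg : Grad α) (hl : HasLower α i) {p y : α} (hp : ds i p = 1)
    (hdeg : (bd i p).card ≤ 2) (hy : y ∈ bd i p) :
    (MvPolynomial.X y : MvPolynomial α ℤ[X]) ∣ mc (GA i 0 p) - 1 := by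
  rw [mc_GA hg hl hp hdeg]
  split_ifs
  · rw [add_sub_cancel_left]
    exact (X_dvd_M0 hy rfl).mul_left _
  · rw [add_zero, sub_self]
    exact dvd_zero _

/-- **frozen variables**: the factors around an object at `w = 0` -/
theorem EvEq0_rest (hg : Grad α) (hl : HasLower α i) (hdeg : ∀ p : α, (bd i p).card ≤ 2)
    (hS : StarCfg m St t k c) {A B : Finset α} (hA : A ⊆ N1 α i)
    (hB : ∀ p ∈ A, bd i p ⊆ B) :
    EvEq (0 : ℤ[X]) ((∏ y ∈ B, MvPolynomial.X y) * mc (∏ p ∈ N1 α i \ A, GA i 0 p))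
      ((∏ y ∈ B, MvPolynomial.X y) * ∏ s ∈ St, F0 t k c s) := by
  set PB : MvPolynomial α ℤ[X] := ∏ y ∈ B, MvPolynomial.X y with hPB
  have hXB : ∀ y ∈ B, (MvPolynomial.X y : MvPolynomial α ℤ[X]) ∣ PB := fun y hy =>
    Finset.dvd_prod_of_mem _ hy
  set f : α → MvPolynomial α ℤ[X] := fun p => if p ∈ A then 1 else mc (GA i 0 p) with hf
  have h1 : mc (∏ p ∈ N1 α i \ A, GA i 0 p) = ∏ p ∈ N1 α i, f p := by
    rw [map_prod, ← Finset.prod_sdiff hA]
    have g1 : ∏ p ∈ A, f p = 1 := Finset.prod_eq_one fun p hp => if_pos hp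
    rw [g1, mul_one]
    apply prod_congr rfl
    intro p hp
    exact (if_neg (mem_sdiff.1 hp).2).symm
  have hf1 : ∀ p ∈ A, f p = 1 := fun p hp => if_pos hp
  have hf0 : ∀ p, p ∉ A → f p = mc (GA i 0 p) := fun p hp => if_neg hp
  have hne : ∀ p, ds i p = 1 → ∃ y, y ∈ bd i p := fun p hp => bd_neF hg hl (by omega)
  -- pairs
  have h2 : ∀ e ∈ m.M, EvEq (0 : ℤ[X]) (PB * (f e.1 * f e.2)) (PB * 1) := by
    intro e he
    have g2 := m.snd_mem hg he
    have g3 := m.fst_mem hg he
    rw [mem_DX] at g2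
    rw [mem_DZ] at g3
    have d1 : ds i e.1 = 1 := ds_one_iff.2 (Or.inl g3.1)
    have d2 : ds i e.2 = 1 := ds_one_iff.2 (Or.inr g2.1)
    have hbd := m.bd_eq hg he
    by_cases a1 : e.1 ∈ A <;> by_cases a2 : e.2 ∈ A
    · rw [hf1 _ a1, hf1 _ a2, mul_one]
      exact EvEq.refl _
    · rw [hf1 _ a1, hf0 _ a2, one_mul]
      obtain ⟨y, hy⟩ := hne _ d2
      exact EvEq0_frozen (hXB y (hB _ a1 (by rw [hbd]; exact hy))) (X_dvd_GA hg hl d2 (hdeg _) hy)
    · rw [hf0 _ a1, hf1 _ a2, mul_one]
      obtain ⟨y, hy⟩ := hne _ d1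
      exact EvEq0_frozen (hXB y (hB _ a2 (by rw [← hbd]; exact hy)))
        (X_dvd_GA hg hl d1 (hdeg _) hy)
    · rw [hf0 _ a1, hf0 _ a2]
      exact (EvEq0_pair hg hl g3.1 g2.1 hbd g2.2 0).mul_left PB
  -- single elements
  have h3 : ∏ p ∈ Sg α i, f p = 1 := by
    apply Finset.prod_eq_one
    intro p hp
    rw [mem_Sg] at hp
    by_cases a1 : p ∈ A
    · exact hf1 p a1
    · rw [hf0 p a1, mc_GA hg hl hp.1 (hdeg p) 0, if_neg (by omega), add_zero]
  -- stars
  have h4 : ∀ s ∈ St, EvEq (0 : ℤ[X]) (PB * (f s.2 * f s.1)) (PB * F0 t k c s) := by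
    intro s hs
    obtain ⟨r1, r2⟩ := star_rank hS hs
    have d1 : ds i s.1 = 1 := ds_one_iff.2 (Or.inl r1)
    have d2 : ds i s.2 = 1 := ds_one_iff.2 (Or.inr r2)
    have k1 : k s ∈ bd i s.1 := by rw [hS.bz s hs]; simp
    have k2 : k s ∈ bd i s.2 := by rw [hS.bx s hs]; simp
    have hfr : ∀ hk : k s ∈ B, EvEq (0 : ℤ[X]) (PB * F0 t k c s) (PB * 1) := fun hk =>
      EvEq0_frozen (hXB _ hk) (X_dvd_F0 s)
    by_cases a1 : s.1 ∈ A <;> by_cases a2 : s.2 ∈ A
    · rw [hf1 _ a1, hf1 _ a2, mul_one]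
      exact (hfr (hB _ a1 k1)).symm
    · rw [hf1 _ a1, hf0 _ a2, mul_one]
      exact (EvEq0_frozen (hXB _ (hB _ a1 k1)) (X_dvd_GA hg hl d2 (hdeg _) k2)).trans
        (hfr (hB _ a1 k1)).symm
    · rw [hf0 _ a1, hf1 _ a2, one_mul]
      exact (EvEq0_frozen (hXB _ (hB _ a2 k2)) (X_dvd_GA hg hl d1 (hdeg _) k1)).trans
        (hfr (hB _ a2 k2)).symm
    · rw [hf0 _ a1, hf0 _ a2]
      refine EvEq.mul_left PB ?_
      have c1 : (bd i s.1).card = 2 := by rw [hS.bz s hs, card_pair (hS.st.kc s hs)]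
      have c2 : (bd i s.2).card = 2 := by rw [hS.bx s hs, card_pair (hS.st.tk s hs).symm]
      have hsz : sg0 i s.1 = -1 := by
        unfold sg0
        rw [if_pos (by omega)]
      have hsx : sg0 i s.2 = 1 := by
        unfold sg0
        rw [if_neg (by omega)]
      rw [mc_GA hg hl d1 (hdeg _), mc_GA hg hl d2 (hdeg _), if_pos c1, if_pos c2, hsz, hsx,
        M0_pair (hS.bz s hs) (hS.st.kc s hs), M0_pair (hS.bx s hs) (hS.st.tk s hs).symm]
      simp only [Pi.zero_apply, if_true]
      have h5 := ((EvEq0_sq (k s)).mul_left (MvPolynomial.C X * MvPolynomial.C X *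
        (MvPolynomial.X (t s) * MvPolynomial.X (c s)))).neg.add (EvEq.refl (F0 t k c s))
      refine (EvEq.of_eq ?_).trans (h5.trans (EvEq.of_eq ?_))
      · unfold F0 TL.Dg
        rw [one_mul, neg_one_mul, map_neg]
        ring
      · rw [mul_zero, neg_zero, zero_add]
  have h5 := EvEq_absorb_prod (A := PB) m.M h2
  have h6 := EvEq_absorb_prod (A := PB) St h4
  rw [prod_const_one, mul_one] at h5
  rw [h1, prod_N1 hg hl hdeg m, h3, one_mul, prod_stars hS]
  have h7 := h5.mul_right (∏ s ∈ St, f s.2 * f s.1)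
  refine (EvEq.of_eq ?_).trans (h7.trans h6)
  ring

/-- the value of frozen variables at `w = 0` -/
theorem cc_rest (hg : Grad α) (hl : HasLower α i) (hdeg : ∀ p : α, (bd i p).card ≤ 2)
    (hS : StarCfg m St t k c) {A B : Finset α} (hA : A ⊆ N1 α i)
    (hB : ∀ p ∈ A, bd i p ⊆ B) :
    cc (Ev wA ((∏ y ∈ B, MvPolynomial.X y) * ∏ p ∈ N1 α i \ A, GA i 0 p)) =
      (-1) ^ B.card * ∏ s ∈ St, (1 + X * C (TL.ta t k c s B)) := by
  have h1 : mc (∏ y ∈ B, MvPolynomial.X y) = ∏ y ∈ B, MvPolynomial.X y := by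
    rw [map_prod]
    exact prod_congr rfl fun y _ => MvPolynomial.map_X _ _
  rw [cc_Ev, map_mul, h1, (EvEq0_rest hg hl hdeg hS hA hB).ev, Ev_frozen hS.st]

end frozen

end Pool.Gauss
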