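import Pool.Agent.Work.MP_065141_co.K.StarInst
import Pool.Agent.Work.MP_065141_co.K.ItemD

/-!
# The first and second order equations of a region with vertex-disjoint stars
-/

set_option autoImplicit false
set_option linter.unusedSectionVars false
open scoped Classical
open Finset MvPolynomial

namespace Pool.Gauss

attribute [-instance] instDecidableEqProd

/-! ### the right-hand sides -/

namespace TL.SDat

variable {Y ι σ : Type} (D : SDat Y ι σ)

lemma frU_inVS (s : σ) (y : Y) : D.frU s y ∈ supported ℤ (VS D.t D.k D.c s : Set Y) := by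
  have ht := X_mem_supp (A := ℤ) (mem_coe.2 (show D.t s ∈ VS D.t D.k D.c s by simp [VS]))
  have hk := X_mem_supp (A := ℤ) (mem_coe.2 (show D.k s ∈ VS D.t D.k D.c s by simp [VS]))
  have hc := X_mem_supp (A := ℤ) (mem_coe.2 (show D.c s ∈ VS D.t D.k D.c s by simp [VS]))
  unfold frU
  split_ifs
  · exact mul_mem hk (sub_mem (one_mem _) hc)
  · exact mul_mem hk (sub_mem ht (one_mem _))
  · exact sub_mem ht hc

lemma frV_inVS (s : σ) (y : Y) : D.frV s y ∈ supported ℤ (VS D.t D.k D.c s : Set Y) := by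
  have ht := X_mem_supp (A := ℤ) (mem_coe.2 (show D.t s ∈ VS D.t D.k D.c s by simp [VS]))
  have hc := X_mem_supp (A := ℤ) (mem_coe.2 (show D.c s ∈ VS D.t D.k D.c s by simp [VS]))
  unfold frV
  split_ifs
  · exact neg_mem (mul_mem ht hc)
  · exact zero_mem _

lemma frP_inVS (s : σ) (y : Y) : D.frP s y ∈ supported ℤ (VS D.t D.k D.c s : Set Y) := by
  have ht := X_mem_supp (A := ℤ) (mem_coe.2 (show D.t s ∈ VS D.t D.k D.c s by simp [VS]))
  have hk := X_mem_supp (A := ℤ) (mem_coe.2 (show D.k s ∈ VS D.t D.k D.c s by simp [VS]))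
  have hc := X_mem_supp (A := ℤ) (mem_coe.2 (show D.c s ∈ VS D.t D.k D.c s by simp [VS]))
  have h2 : (2 : MvPolynomial Y ℤ) ∈ supported ℤ (VS D.t D.k D.c s : Set Y) := by
    have : (2 : MvPolynomial Y ℤ) = 1 + 1 := by norm_num
    rw [this]
    exact add_mem (one_mem _) (one_mem _)
  unfold frP
  split_ifs
  · exact sub_mem (neg_mem (mul_mem (C_mem _ _) (mul_mem ht hc)))
      (mul_mem h2 (mul_mem (mul_mem ht hk) hc))
  · exact zero_mem _

/-- `w Z ^ 3` with one unit of energy at a vertex in no star -/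
noncomputable def w13 (y : Y) : ℤ :=
  ∑ T ∈ D.St.powersetCard 2, ∑ j ∈ D.J, E0 (DT ℤ T D.t D.k D.c * (D.d1 y).phi (Sum.inl j)) +
    ∑ T ∈ D.St.powersetCard 1, E0 (DT ℤ T D.t D.k D.c * ∑ j ∈ JT D.J D.St T, (D.d1 y).A j)

/-- `w Z ^ 3` with one unit of energy at the vertex `y` of the star `s` -/
noncomputable def f13 (s : σ) (y : Y) : ℤ :=
  E0 (D.frP s y) + E0 (D.frV s y * ∑ j ∈ JT D.J (D.St.erase s) ∅, (D.d1 y).phi j) +
    E0 (D.frU s y * ∑ j ∈ JT D.J (D.St.erase s) ∅, (D.d1 y).A j) +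
    ∑ s' ∈ D.St.erase s, (∑ j ∈ D.J, E0 (Dg ℤ (D.t s') (D.k s') (D.c s') *
        (D.frU s y * (D.d1 y).phi (Sum.inl j))) +
      E0 (Dg ℤ (D.t s') (D.k s') (D.c s') * ∑ j ∈ JT D.J (D.St.erase s) {s'}, (D.d1 y).A j)) +
    ∑ T ∈ (D.St.erase s).powersetCard 2,
      ∑ j ∈ D.J, E0 (DT ℤ T D.t D.k D.c * (D.d1 y).phi (Sum.inl j))

/-- twice the value of `w² Z⁴` without energies -/
noncomputable def a24 : ℤ :=
  E0 (∑ p ∈ (JT D.J D.St ∅).offDiag, D.d0.A p.1 * D.d0.A p.2) +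
  ∑ s ∈ D.St, (2 * E0 (Dg ℤ (D.t s) (D.k s) (D.c s) * ∑ j ∈ JT D.J D.St {s}, D.d0.A j) +
    2 * E0 (Dg ℤ (D.t s) (D.k s) (D.c s) * ∑ j ∈ JT D.J D.St {s}, D.d0.kp j) +
    E0 (Dg ℤ (D.t s) (D.k s) (D.c s) * ∑ p ∈ (JT D.J D.St {s}).offDiag,
      (D.d0.phi p.1 * D.d0.A p.2 + D.d0.A p.1 * D.d0.phi p.2))) +
  ∑ T ∈ D.St.powersetCard 2, (2 * E1 (DT ℤ T D.t D.k D.c * ∑ j ∈ JT D.J D.St T, D.d0.A j) +
    4 * E0 (DT ℤ T D.t D.k D.c * ∑ j ∈ JT D.J D.St T, D.d0.phi j) +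
    2 * E0 (DT ℤ T D.t D.k D.c * ∑ j ∈ JT D.J D.St T, D.d0.chi j) +
    E0 (DT ℤ T D.t D.k D.c * ∑ p ∈ (JT D.J D.St T).offDiag, D.d0.phi p.1 * D.d0.phi p.2))

/-- twice the value of `w² Z⁴` of the products, at most one unit of energy on the row -/
noncomputable def R24 (L : Finset Y) : ℤ :=
  D.a24 + 2 * ∑ y ∈ L \ D.St.biUnion (VS D.t D.k D.c), D.w13 y +
    2 * ∑ s ∈ D.St, ∑ y ∈ VS D.t D.k D.c s, D.f13 s y

/-- the value of `w Z ^ (n + 2)` of the products -/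
noncomputable def R1 (n : ℕ) : ℤ :=
  ∑ T ∈ D.St.powersetCard (n + 1), ∑ j ∈ D.J,
      E0 (DT ℤ T D.t D.k D.c * D.d0.phi (Sum.inl j)) +
    ∑ T ∈ D.St.powersetCard n, E0 (DT ℤ T D.t D.k D.c * ∑ j ∈ JT D.J D.St T, D.d0.A j) +
    ∑ s ∈ D.St, ∑ y ∈ VS D.t D.k D.c s,
      ((if n = 0 then E0 (D.frU s y) else 0) + (if n = 1 then E0 (D.frV s y) else 0))

end TL.SDat

/-! ### the data of a row -/

variable {α : Type} [Fintype α] [PartialOrder α] {i : ℕ} {m : Mat α i}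
  {St : Finset (α × α)} {t k c : α × α → α}

lemma bd_sub_levS (hg : Grad α) {p : α} (hp : ds i p = 1) : bd i p ⊆ lev α i := fun _ hy =>
  mem_lev.2 (bd_lev hg hp hy)

lemma StarCfg.ds1 (hC : StarCfg m St t k c) {s : α × α} (hs : s ∈ St) : ds i s.1 = 1 :=
  ds_one_iff.2 (Or.inl (hC.of hs).cz)

lemma StarCfg.ds2 (hC : StarCfg m St t k c) {s : α × α} (hs : s ∈ St) : ds i s.2 = 1 :=
  ds_one_iff.2 (Or.inr (hC.of hs).cx)

theorem sdat_ok (hg : Grad α) (hC : StarCfg m St t k c) :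
    (sdat m St t k c).Ok (lev α i) where
  one := by
    intro j hj
    have hj' : j ∈ m.J := hj
    rcases m.mem_J hj' with ⟨e, he, rfl⟩ | ⟨p, hp, rfl⟩
    · have := (mem_DZ.1 (m.fst_mem hg he)).2
      show 1 ≤ (bd i e.1).card
      omega
    · have := (mem_Sg.1 hp).2
      show 1 ≤ (bd i p).card
      omega
  two := by
    intro j hj
    have hj' : j ∈ m.J := hj
    rcases m.mem_J hj' with ⟨e, he, rfl⟩ | ⟨p, hp, rfl⟩
    · have := (mem_DZ.1 (m.fst_mem hg he)).2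
      show (bd i e.1).card ≤ 2
      omega
    · have := (mem_Sg.1 hp).2
      show (bd i p).card ≤ 2
      omega
  lev := by
    intro j hj
    have hj' : j ∈ m.J := hj
    rcases m.mem_J hj' with ⟨e, he, rfl⟩ | ⟨p, hp, rfl⟩
    · exact bd_sub_levS hg (ds_one_iff.2 (Or.inl (m.cz e he)))
    · exact bd_sub_levS hg (mem_Sg.1 hp).1
  H0 := by
    intro j hj h1
    have hj' : j ∈ m.J := hj
    rcases m.mem_J hj' with ⟨e, he, rfl⟩ | ⟨p, hp, rfl⟩
    · exfalso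
      have h2 := (mem_DZ.1 (m.fst_mem hg he)).2
      have h3 : (bd i e.1).card = 1 := h1
      omega
    · rfl
  K0 := by
    intro j hj h1
    have hj' : j ∈ m.J := hj
    rcases m.mem_J hj' with ⟨e, he, rfl⟩ | ⟨p, hp, rfl⟩
    · exfalso
      have h2 := (mem_DZ.1 (m.fst_mem hg he)).2
      have h3 : (bd i e.1).card = 1 := h1
      omega
    · rfl
  xi := by
    intro j hj
    have hj' : j ∈ m.J := hj
    rcases m.mem_J hj' with ⟨e, he, rfl⟩ | ⟨p, hp, rfl⟩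
    · exact sub_mem (TL.ph_mem _) (one_mem _)
    · show (if corank p < i then TL.ph (bd i p) - 1 else 0) ∈ supported ℤ (bd i p : Set α)
      split_ifs
      · exact sub_mem (TL.ph_mem _) (one_mem _)
      · exact zero_mem _
  st := hC.st
  slev := by
    intro s hs y hy
    have hs' : s ∈ St := hs
    have hy' : y = t s ∨ y = k s ∨ y = c s := by
      simpa [TL.VS, sdat] using hy
    rcases hy' with rfl | rfl | rfl
    · exact bd_sub_levS hg (hC.ds2 hs') (by rw [hC.bx s hs']; simp)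
    · exact bd_sub_levS hg (hC.ds1 hs') (by rw [hC.bz s hs']; simp)
    · exact bd_sub_levS hg (hC.ds1 hs') (by rw [hC.bz s hs']; simp)


lemma TL.Stars.sub {Y σ : Type} {S S' : Finset σ} {t k c : σ → Y} (h : TL.Stars S t k c)
    (hS : S' ⊆ S) : TL.Stars S' t k c where
  tk := fun s hs => h.tk s (hS hs)
  kc := fun s hs => h.kc s (hS hs)
  tc := fun s hs => h.tc s (hS hs)
  dis := fun s hs s' hs' hne => h.dis s (hS hs) s' (hS hs') hne

/-- splitting of a sum over the level -/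
lemma sum_lev_split {Y σ : Type} {S : Finset σ} {t k c : σ → Y} (h : TL.Stars S t k c)
    {L : Finset Y} (hL : ∀ s ∈ S, TL.VS t k c s ⊆ L) (f : Y → ℤ) :
    ∑ y ∈ L, f y = ∑ y ∈ L \ S.biUnion (TL.VS t k c), f y +
      ∑ s ∈ S, ∑ y ∈ TL.VS t k c s, f y := by
  have h1 : S.biUnion (TL.VS t k c) ⊆ L := biUnion_subset.2 hL
  have h2 : (S : Set σ).PairwiseDisjoint (TL.VS t k c) := fun s hs s' hs' hne =>
    h.disj hs hs' hne
  rw [← sum_sdiff h1, sum_biUnion h2]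

lemma notMem_of_sdiff {Y σ : Type} {S : Finset σ} {t k c : σ → Y} {L : Finset Y} {y : Y}
    (hy : y ∈ L \ S.biUnion (TL.VS t k c)) : ∀ s ∈ S, y ∉ TL.VS t k c s := fun _ hs hys =>
  (mem_sdiff.1 hy).2 (mem_biUnion.2 ⟨_, hs, hys⟩)

section

variable (hg : Grad α) (hl : HasLower α i) (hdeg : ∀ p : α, (bd i p).card ≤ 2)
  (hC : StarCfg m St t k c)

include hg hl hdeg hC

lemma StarCfg.cf24_VL : 2 * TL.cf 2 4 (VL i (0 : α → ℕ)) = (sdat m St t k c).a24 := by
  obtain ⟨rho, h1, h2⟩ := hC.full0 hg hl hdeg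
  have h3 : VL i (0 : α → ℕ) = Ev wA (TL.Full (sdat m St t k c).J St t k c rho) := h2.ev
  have h4 : TL.cf 2 4 (VL i (0 : α → ℕ)) =
      TL.cfE 2 4 (TL.Full (sdat m St t k c).J St t k c rho) := by
    rw [h3]
    rfl
  rw [h4]
  exact TL.cf24_Full (N := (sdat m St t k c).N) hC.st (sdat_ok hg hC).supp0 h1

lemma StarCfg.cf13_out {y : α} (hy : ∀ s ∈ St, y ∉ TL.VS t k c s) :
    TL.cf 1 3 (VL1 i (ind {y})) = (sdat m St t k c).w13 y := by
  obtain ⟨rho, h1, h2⟩ := hC.full1 hg hl hdeg hy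
  have h3 : VL1 i (ind {y}) = Ev wA (TL.Full (sdat m St t k c).J St t k c rho) := h2.ev
  have h4 : TL.cf 1 3 (VL1 i (ind {y})) =
      TL.cfE 1 3 (TL.Full (sdat m St t k c).J St t k c rho) := by
    rw [h3]
    rfl
  rw [h4]
  exact TL.cf1_Full_one (N := (sdat m St t k c).N) hC.st
    ((sdat_ok hg hC).supp1 y (subset_refl _)) h1 1

lemma StarCfg.cf0_out {y : α} (hy : ∀ s ∈ St, y ∉ TL.VS t k c s) (n : ℕ) :
    TL.cf 0 (n + 1) (VL1 i (ind {y})) = 0 := by
  obtain ⟨rho, h1, h2⟩ := hC.full1 hg hl hdeg hy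
  have h3 : VL1 i (ind {y}) = Ev wA (TL.Full (sdat m St t k c).J St t k c rho) := h2.ev
  have h4 : TL.cf 0 (n + 1) (VL1 i (ind {y})) =
      TL.cfE 0 (n + 1) (TL.up 1 * TL.Full (sdat m St t k c).J St t k c rho) := by
    rw [h3, map_one, one_mul]
    rfl
  rw [h4, TL.cf0_frozen (U0 := ∅) hC.st (fun s _ => disjoint_empty_left _) h1 (one_mem _),
    if_neg (by omega)]

lemma StarCfg.cf13_in {s : α × α} (hs : s ∈ St) {y : α} (hy : y ∈ TL.VS t k c s) :
    TL.cf 1 3 (VL1 i (ind {y})) = (sdat m St t k c).f13 s y := by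
  obtain ⟨rho, f, f1, f2, h1, hf, hf1, hf2, h2⟩ := hC.full1s hg hl hdeg hs hy
  have h3 : VL1 i (ind {y}) =
      Ev wA (f * TL.Full (sdat m St t k c).J (St.erase s) t k c rho) := h2.ev
  have h4 : TL.cf 1 3 (VL1 i (ind {y})) =
      TL.cfE 1 3 (f * TL.Full (sdat m St t k c).J (St.erase s) t k c rho) := by
    rw [h3]
    rfl
  have hU : ∀ s' ∈ St.erase s, Disjoint (TL.VS t k c s) (TL.VS t k c s') := by
    intro s' hs'
    rw [mem_erase] at hs'
    exact hC.st.disj hs hs'.2 hs'.1.symm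
  rw [h4]
  exact TL.cf1_frame (N := (sdat m St t k c).N) (hC.st.sub (erase_subset _ _))
    ((sdat_ok hg hC).supp1 y (erase_subset _ _)) hU h1 hf
    ((sdat m St t k c).frU_inVS s y) ((sdat m St t k c).frV_inVS s y) hf1 hf2
    ((sdat m St t k c).frP_inVS s y)

lemma StarCfg.cf0_in {s : α × α} (hs : s ∈ St) {y : α} (hy : y ∈ TL.VS t k c s) (n : ℕ) :
    TL.cf 0 (n + 1) (VL1 i (ind {y})) =
      (if n = 0 then TL.E0 ((sdat m St t k c).frU s y) else 0) +
      (if n = 1 then TL.E0 ((sdat m St t k c).frV s y) else 0) := by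
  obtain ⟨rho, f, f1, f2, h1, hf, hf1, hf2, h2⟩ := hC.full1s hg hl hdeg hs hy
  have h3 : VL1 i (ind {y}) =
      Ev wA (f * TL.Full (sdat m St t k c).J (St.erase s) t k c rho) := h2.ev
  have h4 : TL.cf 0 (n + 1) (VL1 i (ind {y})) =
      TL.cfE 0 (n + 1) (f * TL.Full (sdat m St t k c).J (St.erase s) t k c rho) := by
    rw [h3]
    rfl
  have hU : ∀ s' ∈ St.erase s, Disjoint (TL.VS t k c s) (TL.VS t k c s') := by
    intro s' hs'
    rw [mem_erase] at hs'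
    exact hC.st.disj hs hs'.2 hs'.1.symm
  rw [h4, TL.cf0_frame (hC.st.sub (erase_subset _ _)) hU h1 hf
    ((sdat m St t k c).frU_inVS s y) ((sdat m St t k c).frV_inVS s y)]
  simp

lemma StarCfg.cf1_VL (n : ℕ) : TL.cf 1 (n + 2) (VL i (0 : α → ℕ)) =
    ∑ T ∈ St.powersetCard (n + 1), ∑ j ∈ (sdat m St t k c).J,
        TL.E0 (TL.DT ℤ T t k c * (sdat m St t k c).d0.phi (Sum.inl j)) +
      ∑ T ∈ St.powersetCard n, TL.E0 (TL.DT ℤ T t k c *
        ∑ j ∈ TL.JT (sdat m St t k c).J St T, (sdat m St t k c).d0.A j) := by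
  obtain ⟨rho, h1, h2⟩ := hC.full0 hg hl hdeg
  have h3 : VL i (0 : α → ℕ) = Ev wA (TL.Full (sdat m St t k c).J St t k c rho) := h2.ev
  have h4 : TL.cf 1 (n + 2) (VL i (0 : α → ℕ)) =
      TL.cfE 1 (n + 2) (TL.Full (sdat m St t k c).J St t k c rho) := by
    rw [h3]
    rfl
  rw [h4]
  exact TL.cf1_Full_one (N := (sdat m St t k c).N) hC.st (sdat_ok hg hC).supp0
    (fun j hj => (h1 j hj).two) n

end

lemma cf_low {KN : AA} (h : Low KN) {d j : ℕ} (hd : d < j) : TL.cf d j KN = 0 := h d j hd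

/-- **the equations of a region with vertex-disjoint stars** -/
theorem StarCfg.eqn {h : Fin (Fintype.card α) → ℕ} (hG : IsGaussianWith α h)
    (hl : HasLower α i) (hdeg : ∀ p : α, (bd i p).card ≤ 2) (h4 : U4 α i = ∅)
    (hC : StarCfg m St t k c) :
    (sdat m St t k c).R24 (lev α i) + 2 * (∑ k ∈ KL α i 2, TL.cf 0 2 (VG i k) +
        ∑ u ∈ U3 α i, (sgz i u * TL.cf 0 1 (V3 i u) + TL.cf 0 0 (V3 i u)) + SY α i 0) = 0 ∧
      ∀ n, (sdat m St t k c).R1 n = 0 := by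
  have hg := grad hG
  obtain ⟨KN, h0, h1, _, h3⟩ := exists_KNcf hG hl hdeg h4
  have hok := sdat_ok hg hC
  have hL : ∀ s ∈ St, TL.VS t k c s ⊆ lev α i := hok.slev
  constructor
  · rw [cf_low h0 (by norm_num)] at h1
    have e1 := hC.cf24_VL hg hl hdeg
    have e2 : ∑ y ∈ lev α i, TL.cf 1 3 (VL1 i (ind {y})) =
        ∑ y ∈ lev α i \ St.biUnion (TL.VS t k c), (sdat m St t k c).w13 y +
        ∑ s ∈ St, ∑ y ∈ TL.VS t k c s, (sdat m St t k c).f13 s y := by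
      rw [sum_lev_split hC.st hL]
      congr 1
      · exact sum_congr rfl fun y hy => hC.cf13_out hg hl hdeg (notMem_of_sdiff hy)
      · exact sum_congr rfl fun s hs => sum_congr rfl fun y hy => hC.cf13_in hg hl hdeg hs hy
    have e3 : (sdat m St t k c).R24 (lev α i) = (sdat m St t k c).a24 +
        2 * ∑ y ∈ lev α i \ St.biUnion (TL.VS t k c), (sdat m St t k c).w13 y +
        2 * ∑ s ∈ St, ∑ y ∈ TL.VS t k c s, (sdat m St t k c).f13 s y := rfl
    rw [e2] at h1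
    rw [e3, ← e1]
    linarith
  · intro n
    have e1 := h3 (n + 1)
    rw [cf_low h0 (by omega)] at e1
    have e2 : ∑ y ∈ lev α i, TL.cf 0 (n + 1) (VL1 i (ind {y})) =
        ∑ s ∈ St, ∑ y ∈ TL.VS t k c s,
          ((if n = 0 then TL.E0 ((sdat m St t k c).frU s y) else 0) +
            (if n = 1 then TL.E0 ((sdat m St t k c).frV s y) else 0)) := by
      rw [sum_lev_split hC.st hL]
      have e3 : ∑ y ∈ lev α i \ St.biUnion (TL.VS t k c),
          TL.cf 0 (n + 1) (VL1 i (ind {y})) = 0 :=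
        sum_eq_zero fun y hy => hC.cf0_out hg hl hdeg (notMem_of_sdiff hy) n
      rw [e3, zero_add]
      exact sum_congr rfl fun s hs => sum_congr rfl fun y hy => hC.cf0_in hg hl hdeg hs hy n
    have e4 := hC.cf1_VL hg hl hdeg n
    rw [e2, show n + 1 + 1 = n + 2 from rfl, e4] at e1
    exact e1.symm

end Pool.Gauss
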