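import Pool.Agent.Work.MP_065141_co.K.StarFin

/-!
# The first and second order equations with objects over four vertices

`Jet f a b c d`: the coefficients of `1, Z, w, w Z` of `f`.
-/

set_option autoImplicit false
set_option linter.unusedSectionVars false
set_option linter.unusedVariables false
open scoped Classical
open Finset

namespace Pool.Gauss

attribute [-instance] instDecidableEqProd

/-! ### jets -/

/-- the coefficients of `1, Z, w, w Z` -/
structure Jet (f : AA) (a b c d : ℤ) : Prop where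
  h00 : TL.cf 0 0 f = a
  h01 : TL.cf 0 1 f = b
  h10 : TL.cf 1 0 f = c
  h11 : TL.cf 1 1 f = d

namespace Jet

lemma coeff_one_mul (f g : AA) : PowerSeries.coeff 1 (f * g) =
    PowerSeries.coeff 0 f * PowerSeries.coeff 1 g +
      PowerSeries.coeff 1 f * PowerSeries.coeff 0 g := by
  rw [PowerSeries.coeff_mul, Finset.Nat.antidiagonal_succ, sum_cons, sum_map]
  simp

lemma coeff_zero_mul' (f g : AA) : PowerSeries.coeff 0 (f * g) =
    PowerSeries.coeff 0 f * PowerSeries.coeff 0 g := by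
  rw [PowerSeries.coeff_zero_eq_constantCoeff, map_mul]

lemma mul {f g : AA} {a b c d a' b' c' d' : ℤ} (hf : Jet f a b c d) (hg : Jet g a' b' c' d') :
    Jet (f * g) (a * a') (a * b' + b * a') (a * c' + c * a')
      (a * d' + b * c' + c * b' + d * a') := by
  obtain ⟨f1, f2, f3, f4⟩ := hf
  obtain ⟨g1, g2, g3, g4⟩ := hg
  simp only [TL.cf_apply] at *
  constructor
  · rw [TL.cf_apply, coeff_zero_mul', Polynomial.mul_coeff_zero, f1, g1]
  · rw [TL.cf_apply, coeff_zero_mul', Polynomial.mul_coeff_one, f1, g1, f2, g2]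
  · rw [TL.cf_apply, coeff_one_mul, Polynomial.coeff_add, Polynomial.mul_coeff_zero,
      Polynomial.mul_coeff_zero, f1, g1, f3, g3]
  · rw [TL.cf_apply, coeff_one_mul, Polynomial.coeff_add, Polynomial.mul_coeff_one,
      Polynomial.mul_coeff_one, f1, g1, f2, g2, f3, g3, f4, g4]
    ring

lemma add {f g : AA} {a b c d a' b' c' d' : ℤ} (hf : Jet f a b c d) (hg : Jet g a' b' c' d') :
    Jet (f + g) (a + a') (b + b') (c + c') (d + d') where
  h00 := by rw [map_add, hf.h00, hg.h00]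
  h01 := by rw [map_add, hf.h01, hg.h01]
  h10 := by rw [map_add, hf.h10, hg.h10]
  h11 := by rw [map_add, hf.h11, hg.h11]

lemma neg {f : AA} {a b c d : ℤ} (hf : Jet f a b c d) : Jet (-f) (-a) (-b) (-c) (-d) where
  h00 := by rw [map_neg, hf.h00]
  h01 := by rw [map_neg, hf.h01]
  h10 := by rw [map_neg, hf.h10]
  h11 := by rw [map_neg, hf.h11]

lemma congr {f g : AA} {a b c d a' b' c' d' : ℤ} (hf : Jet f a b c d) (h : g = f)
    (h1 : a' = a) (h2 : b' = b) (h3 : c' = c) (h4 : d' = d) : Jet g a' b' c' d' := by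
  subst h h1 h2 h3 h4
  exact hf

lemma self (f : AA) : Jet f (TL.cf 0 0 f) (TL.cf 0 1 f) (TL.cf 1 0 f) (TL.cf 1 1 f) :=
  ⟨rfl, rfl, rfl, rfl⟩

lemma one : Jet 1 1 0 0 0 := by
  constructor <;> simp [TL.cf_apply, PowerSeries.coeff_one, Polynomial.coeff_one]

lemma zero : Jet 0 0 0 0 0 := by
  constructor <;> simp

lemma w : Jet wA 0 0 1 0 := by
  constructor <;> simp [TL.cf_apply, wA, PowerSeries.coeff_X, Polynomial.coeff_one]

lemma Z : Jet ZA 0 1 0 0 := by
  constructor <;> simp [TL.cf_apply, ZA, PowerSeries.coeff_C, Polynomial.coeff_X]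

lemma q : Jet qA 0 0 0 1 := by
  refine (w.mul Z).congr rfl ?_ ?_ ?_ ?_ <;> norm_num

lemma nat (n : ℕ) : Jet (n : AA) n 0 0 0 := by
  induction n with
  | zero => exact zero.congr (by simp) (by simp) rfl rfl rfl
  | succ n ih =>
    refine (ih.add one).congr ?_ ?_ ?_ ?_ ?_ <;> push_cast <;> ring

lemma iw : Jet iwA (-1) 0 (-1) 0 := by
  have h := iwA_eq
  have h1 := (w.mul (self iwA)).add one.neg
  have h2 : Jet iwA (0 * TL.cf 0 0 iwA + -1) (0 * TL.cf 0 1 iwA + 0 * TL.cf 0 0 iwA + -0)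
      (0 * TL.cf 1 0 iwA + 1 * TL.cf 0 0 iwA + -0)
      (0 * TL.cf 1 1 iwA + 0 * TL.cf 1 0 iwA + 1 * TL.cf 0 1 iwA + 0 * TL.cf 0 0 iwA + -0) :=
    h1.congr (by rw [← sub_eq_add_neg]; exact h) rfl rfl rfl rfl
  have h3 := h2.h00
  have h4 := h2.h01
  have h5 := h2.h10
  have h6 := h2.h11
  constructor <;> linarith

lemma geo : Jet geoA 1 0 0 1 := by
  have h := geoA_eq
  have h1 := one.add (q.mul (self geoA))
  have h2 := h1.congr h rfl rfl rfl rfl
  have h3 := h2.h00
  have h4 := h2.h01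
  have h5 := h2.h10
  have h6 := h2.h11
  constructor <;> linarith

/-- `w - 1` -/
lemma wm : Jet (wA - 1) (-1) 0 1 0 :=
  (w.add one.neg).congr (by ring) (by norm_num) (by norm_num) (by norm_num) (by norm_num)

lemma wm_pow (n : ℕ) : Jet ((wA - 1) ^ n) ((-1) ^ n) 0 (-n * (-1) ^ n) 0 := by
  induction n with
  | zero => exact one.congr (by simp) (by simp) rfl (by simp) rfl
  | succ n ih =>
    exact (ih.mul wm).congr (by rw [pow_succ]) (by ring) (by ring) (by push_cast; ring) (by ring)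

/-- powers of `w` -/
lemma w_pow (e : ℕ) : Jet (wA ^ e) (if e = 0 then 1 else 0) 0 (if e = 1 then 1 else 0) 0 := by
  rcases e with _ | _ | e
  · exact one.congr (by simp) (by simp) rfl (by simp) rfl
  · exact w.congr (by simp) (by simp) rfl (by simp) rfl
  · have h := (w.mul w).mul (self (wA ^ e))
    refine h.congr (by ring) ?_ ?_ ?_ ?_
    · rw [if_neg (by omega)]; ring
    · ring
    · rw [if_neg (by omega)]; ring
    · ring

lemma sum {κ : Type} (S : Finset κ) {f : κ → AA} {a b c d : κ → ℤ}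
    (h : ∀ s ∈ S, Jet (f s) (a s) (b s) (c s) (d s)) :
    Jet (∑ s ∈ S, f s) (∑ s ∈ S, a s) (∑ s ∈ S, b s) (∑ s ∈ S, c s) (∑ s ∈ S, d s) := by
  induction S using Finset.induction_on with
  | empty => simpa using zero
  | insert s S hs ih =>
    rw [sum_insert hs, sum_insert hs, sum_insert hs, sum_insert hs, sum_insert hs]
    exact (h s (mem_insert_self s S)).add (ih fun t ht => h t (mem_insert_of_mem ht))

/-- a multiple of `Z ^ 2` may be added -/
lemma add_Z2 {f : AA} {a b c d : ℤ} (hf : Jet f a b c d) (Q : AA) :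
    Jet (f + ZA ^ 2 * Q) a b c d := by
  have h := (Z.mul Z).mul (self Q)
  exact (hf.add h).congr (by ring) (by ring) (by ring) (by ring) (by ring)

/-- a multiple of `w ^ 2` may be added -/
lemma add_w2 {f : AA} {a b c d : ℤ} (hf : Jet f a b c d) (Q : AA) :
    Jet (f + wA ^ 2 * Q) a b c d := by
  have h := (w.mul w).mul (self Q)
  exact (hf.add h).congr (by ring) (by ring) (by ring) (by ring) (by ring)

end Jet

variable {α : Type} [Fintype α] [PartialOrder α] {i : ℕ}

lemma jet_nrm (p : α) : Jet (nrm i p) (sgz i p) 0 (if corank p < i then -1 else 0) 0 := by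
  unfold nrm sgz
  split_ifs
  · exact Jet.iw
  · exact Jet.one

lemma jet_lam1 (p : α) : Jet (lam1 i p) 1 0 0 ((ch i p).card) := by
  unfold lam1
  exact (Jet.one.add ((Jet.nat _).mul Jet.q)).congr rfl (by ring) (by ring) (by ring) (by ring)

lemma jet_prod_lam1 (S : Finset α) :
    Jet (∏ p ∈ S, lam1 i p) 1 0 0 (∑ p ∈ S, ((ch i p).card : ℤ)) := by
  induction S using Finset.induction_on with
  | empty => simpa using Jet.one
  | insert p S hp ih =>
    rw [prod_insert hp, sum_insert hp]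
    exact ((jet_lam1 p).mul ih).congr rfl (by ring) (by ring) (by ring) (by ring)

/-! ### the value of an object over four vertices -/

/-- the value of an object over four vertices -/
noncomputable def G4 (i : ℕ) (u : α) : AA := Ev wA ((∏ y ∈ BB i u, av i u y) * rsL i u)

/-- number of elements over one or two of the elements next to level `i` under the object -/
noncomputable def nn4 (i : ℕ) (u : α) : ℤ := (Gq i u).card + ∑ p ∈ bd i u, ((ch i p).card : ℤ)

/-- the coefficient of `w Z ^ 4` of an object -/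
lemma cf14_obj {u : α} (h2 : (bd i u).card = 2) {a b c d : ℤ} (hG : Jet (G4 i u) a b c d) :
    TL.cf 1 4 (PLo i u * G4 i u) =
      if corank u < i then d + 2 * b - c + (nn4 i u - 1) * a else d + c + nn4 i u * a := by
  have hA : ∀ f : AA, PLo i u * f = ZA ^ 3 * ((1 + qA * (Gq i u).card) *
      (∏ p ∈ bd i u, lam1 i p) * (nrm i u * geoA) ^ 2 * f) + ZA ^ 4 * (sgQ i u * f) := by
    intro f
    unfold PLo
    ring
  rw [hA, map_add, show TL.cf 1 4 (ZA ^ 3 * ((1 + qA * (Gq i u).card) *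
      (∏ p ∈ bd i u, lam1 i p) * (nrm i u * geoA) ^ 2 * G4 i u)) = TL.cf 1 1 ((1 + qA *
        (Gq i u).card) * (∏ p ∈ bd i u, lam1 i p) * (nrm i u * geoA) ^ 2 * G4 i u) from
        cf_Z_pow 3 1 1 _, show TL.cf 1 4 (ZA ^ 4 * (sgQ i u * G4 i u)) =
        TL.cf 1 0 (sgQ i u * G4 i u) from cf_Z_pow 4 1 0 _]
  have h1 := (((Jet.one.add (Jet.q.mul (Jet.nat (Gq i u).card))).mul
    (jet_prod_lam1 (i := i) (bd i u))).mul
    (((jet_nrm (i := i) u).mul Jet.geo).mul ((jet_nrm (i := i) u).mul Jet.geo))).mul hG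
  rw [← pow_two] at h1
  rw [h1.h11]
  unfold sgQ
  rw [h2]
  unfold nn4 sgz
  split_ifs with hu
  · have h3 := ((Jet.iw.mul Jet.iw).mul Jet.iw).mul hG
    have h4 : iwA ^ (2 + 1) = iwA * iwA * iwA := by ring
    rw [h4, h3.h10]
    ring
  · have h3 := (Jet.wm.mul Jet.wm).mul hG
    have h4 : (wA - 1) ^ 2 = (wA - 1) * (wA - 1) := by ring
    rw [h4, h3.h10]
    ring

/-! ### products of variables of the sides -/

lemma av_supp (u y : α) : av i u y ∈ MvPolynomial.supported AA ({y} : Set α) := by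
  unfold av
  split_ifs
  · exact sub_mem ((MvPolynomial.supported AA ({y} : Set α)).algebraMap_mem wA) (X_supp y)
  · exact X_supp y

lemma prod_av_supp (u : α) (S : Finset α) :
    ∏ y ∈ S, av i u y ∈ MvPolynomial.supported AA (S : Set α) :=
  prod_mem fun y hy => MvPolynomial.supported_mono (Set.singleton_subset_iff.2 (mem_coe.2 hy))
    (av_supp u y)

/-- products of the variables of a side under the functional -/
lemma Ev_prod_av (u : α) (S : Finset α) : Ev wA (∏ y ∈ S, av i u y) =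
    if corank u < i then 1 else (wA - 1) ^ S.card := by
  split_ifs with h
  · induction S using Finset.induction_on with
    | empty => rw [prod_empty, Ev_one]
    | insert y S hy ih =>
      have h1 : Fr y (∏ t ∈ S, av i u t) := Fr.of_supported (prod_av_supp u S) hy
      have h2 : av i u y = MvPolynomial.C wA - MvPolynomial.X y := by
        unfold av
        rw [if_pos h]
      rw [prod_insert hy, h2, Ev_b_mul wA h1, ih]
  · have h1 : ∏ y ∈ S, av i u y = ∏ y ∈ S, MvPolynomial.X y := by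
      apply prod_congr rfl
      intro y _
      unfold av
      rw [if_neg h]
    rw [h1, Ev_prod_X]

/-- the value of the products of the variables of an object and of an element -/
lemma Ev_av_av (u p : α) (B B' : Finset α) :
    Ev wA ((∏ y ∈ B, av i u y) * ∏ y ∈ B', av i p y) =
      if (corank p < i ↔ corank u < i) then
        wA ^ (B ∩ B').card * (if corank u < i then 1 else (wA - 1) ^ (B ∪ B').card)
      else if Disjoint B B' then
        (if corank u < i then 1 else (wA - 1) ^ B.card) *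
          (if corank p < i then 1 else (wA - 1) ^ B'.card)
      else 0 := by
  by_cases hs : corank p < i ↔ corank u < i
  · rw [if_pos hs, av_congr hs]
    have h1 := (EvEq_prod_av (i := i) u B B').ev
    rw [h1, Ev_C_mul, Ev_prod_av]
  · rw [if_neg hs]
    split_ifs with hd h1 h2 h3
    · exact absurd (iff_of_true h2 h1) hs
    · rw [Ev_mul wA (Finset.disjoint_coe.2 hd) (prod_av_supp u B) (prod_av_supp p B'),
        Ev_prod_av, Ev_prod_av, if_pos h1, if_neg h2]
    · rw [Ev_mul wA (Finset.disjoint_coe.2 hd) (prod_av_supp u B) (prod_av_supp p B'),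
        Ev_prod_av, Ev_prod_av, if_neg h1, if_pos h3]
    · exact absurd (iff_of_false h3 h1) hs
    · obtain ⟨y, hy, hy'⟩ := not_disjoint_iff.1 hd
      by_cases h1 : corank u < i
      · have h2 : ¬ corank p < i := fun h => hs (iff_of_true h h1)
        have := (EvEq_prod_av_opp (i := i) h1 h2 hy hy').ev
        rw [this, map_zero]
      · have h2 : corank p < i := by
          by_contra h
          exact hs (iff_of_false h h1)
        have := (EvEq_prod_av_opp (i := i) h2 h1 hy' hy).ev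
        rw [mul_comm, this, map_zero]

/-- the coefficient of `Z` of an element at an object -/
noncomputable def gmU0 (i : ℕ) (B : Finset α) (p : α) : ℤ :=
  if Disjoint B (bd i p) ∧ (bd i p).card = 2 then sgz i p else 0

/-- the coefficient of `w Z` of an element at an object over `B` -/
noncomputable def gmU (i : ℕ) (u : α) (B : Finset α) (p : α) : ℤ :=
  if corank p < i then
    if corank u < i then (if bd i p ⊆ B then 0 else -1)
    else (if Disjoint B (bd i p) then (if (bd i p).card = 2 then 3 else -1) else 0)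
  else
    if corank u < i then
      (if Disjoint B (bd i p) then (if (bd i p).card = 2 then -2 else -1) else 0)
    else (if bd i p ⊆ B then 0 else if Disjoint B (bd i p) ∧ (bd i p).card = 2 then -6 else -1)

/-- an element at an object -/
lemma jet_gv (hg : Grad α) (hl : HasLower α i) {u p : α} {B : Finset α} (hB : B.card = 4)
    (hp : ds i p = 1) (hdeg : (bd i p).card ≤ 2) :
    Jet (Ev wA ((∏ y ∈ B, av i u y) * (MvPolynomial.C (lam1 i p) * EA i 0 p)))
      0 (gmU0 i B p) 0 (gmU i u B p) := by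
  have h1 : (bd i p).card ≠ 0 := by
    rw [Ne, Finset.card_eq_zero, ← Ne, ← Finset.nonempty_iff_ne_empty]
    exact bd_neF hg hl (by omega)
  have h2 : EA i 0 p = MvPolynomial.C (nrm i p * (ZA * geoA) * wA ^ (2 - (bd i p).card)) *
      ∏ y ∈ bd i p, av i p y := GA_sub_one hg hl hp hdeg (fun y _ => rfl)
  have h3 : (∏ y ∈ B, av i u y) * (MvPolynomial.C (lam1 i p) * EA i 0 p) =
      MvPolynomial.C (lam1 i p * (nrm i p * (ZA * geoA) * wA ^ (2 - (bd i p).card))) *
        ((∏ y ∈ B, av i u y) * ∏ y ∈ bd i p, av i p y) := by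
    rw [h2]
    generalize nrm i p * (ZA * geoA) * wA ^ (2 - (bd i p).card) = a
    rw [map_mul]
    ring
  rw [h3, Ev_C_mul, Ev_av_av]
  have hc := card_union_add_card_inter B (bd i p)
  have hlam := jet_lam1 (i := i) p
  have hnrm := jet_nrm (i := i) p
  have hin : (B ∩ bd i p).card ≤ (bd i p).card := card_le_card inter_subset_right
  have hdis : Disjoint B (bd i p) ↔ (B ∩ bd i p).card = 0 := by
    rw [Finset.card_eq_zero, ← disjoint_iff_inter_eq_empty]
  have hsub : bd i p ⊆ B ↔ (B ∩ bd i p).card = (bd i p).card := by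
    constructor
    · intro h
      rw [inter_eq_right.2 h]
    · intro h
      exact inter_eq_right.1 (eq_of_subset_of_card_le inter_subset_right h.ge)
  unfold gmU gmU0 sgz at *
  simp only [hdis, hsub]
  generalize (B ∩ bd i p).card = r at *
  generalize (B ∪ bd i p).card = n at *
  generalize hs : (bd i p).card = s at *
  have hs' : s = 1 ∨ s = 2 := by omega
  have hk := hlam.mul ((hnrm.mul (Jet.Z.mul Jet.geo)).mul (Jet.w_pow (2 - s)))
  by_cases hu : corank u < i <;> by_cases hp' : corank p < i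
  all_goals simp only [hu, hp', if_true, if_false, iff_true, iff_false,
    not_true_eq_false, not_false_eq_true] at *
  · refine (hk.mul ((Jet.w_pow r).mul Jet.one)).congr rfl ?_ ?_ ?_ ?_
    all_goals rcases hs' with rfl | rfl <;> interval_cases r <;> norm_num
  · by_cases hr : r = 0
    · rw [if_pos hr]
      refine (hk.mul (Jet.one.mul (Jet.wm_pow s))).congr rfl ?_ ?_ ?_ ?_
      all_goals subst hr; rcases hs' with rfl | rfl <;> norm_num
    · rw [if_neg hr]
      refine Jet.zero.congr (by ring) ?_ ?_ ?_ ?_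
      all_goals simp [hr]
  · by_cases hr : r = 0
    · rw [if_pos hr]
      refine (hk.mul ((Jet.wm_pow B.card).mul Jet.one)).congr rfl ?_ ?_ ?_ ?_
      all_goals subst hr; rw [hB]; rcases hs' with rfl | rfl <;> norm_num
    · rw [if_neg hr]
      refine Jet.zero.congr (by ring) ?_ ?_ ?_ ?_
      all_goals simp [hr]
  · refine (hk.mul ((Jet.w_pow r).mul (Jet.wm_pow n))).congr rfl ?_ ?_ ?_ ?_
    all_goals
      obtain rfl : n = 4 + s - r := by omega
      rcases hs' with rfl | rfl <;> interval_cases r <;> norm_num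

/-- a product of factors near one modulo `Z ^ 2` -/
lemma prod_one_add_Z2 {κ : Type} (S : Finset κ) {f : κ → MvPolynomial α AA}
    (h : ∀ s ∈ S, MvPolynomial.C ZA ∣ f s) :
    ∃ Q, ∏ s ∈ S, (1 + f s) = 1 + ∑ s ∈ S, f s + MvPolynomial.C (ZA ^ 2) * Q ∧
      MvPolynomial.C ZA ∣ ∑ s ∈ S, f s := by
  induction S using Finset.induction_on with
  | empty => exact ⟨0, by simp⟩
  | insert s S hs ih =>
    obtain ⟨Q, hQ, R, hR⟩ := ih fun t ht => h t (mem_insert_of_mem ht)
    obtain ⟨T, hT⟩ := h s (mem_insert_self s S)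
    refine ⟨Q * (1 + f s) + T * R, ?_, ?_⟩
    · rw [prod_insert hs, sum_insert hs, hQ, hR, hT, map_pow]
      ring
    · rw [sum_insert hs, hT, hR, ← mul_add]
      exact dvd_mul_right _ _

section

variable (hg : Grad α) (hl : HasLower α i) (hdeg : ∀ p : α, (bd i p).card ≤ 2)

include hg hl hdeg

/-- the jet of the product of frozen variables with the rest of the row -/
lemma jet_frozen (u : α) {B : Finset α} (hB : B.card = 4) {R : Finset α} (hR : R ⊆ N1 α i) :
    Jet (Ev wA ((∏ y ∈ B, av i u y) * ∏ p ∈ R, (1 + MvPolynomial.C (lam1 i p) * EA i 0 p)))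
      1 (∑ p ∈ R, gmU0 i B p) (if corank u < i then 0 else -4) (∑ p ∈ R, gmU i u B p) := by
  have h1 : ∀ p ∈ R, MvPolynomial.C ZA ∣ MvPolynomial.C (lam1 i p) * EA i 0 p := fun p hp =>
    (GA_sub_one_dvd hg hl (mem_N1.1 (hR hp)) (hdeg p) 0).mul_left _
  obtain ⟨Q, hQ, -⟩ := prod_one_add_Z2 R h1
  have h2 : Ev wA ((∏ y ∈ B, av i u y) * ∏ p ∈ R, (1 + MvPolynomial.C (lam1 i p) * EA i 0 p)) =
      (Ev wA (∏ y ∈ B, av i u y) +
        ∑ p ∈ R, Ev wA ((∏ y ∈ B, av i u y) * (MvPolynomial.C (lam1 i p) * EA i 0 p))) +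
      ZA ^ 2 * Ev wA ((∏ y ∈ B, av i u y) * Q) := by
    rw [hQ, ← Ev_C_mul, ← map_sum, ← map_add, ← map_add, ← mul_sum]
    congr 1
    ring
  have h3 : Jet (Ev wA (∏ y ∈ B, av i u y)) 1 0 (if corank u < i then 0 else -4) 0 := by
    rw [Ev_prod_av, hB]
    split_ifs
    · exact Jet.one
    · exact (Jet.wm_pow 4).congr rfl (by norm_num) rfl (by norm_num) rfl
  have h4 := Jet.sum R fun p hp => jet_gv (u := u) hg hl hB (mem_N1.1 (hR hp)) (hdeg p)
  exact ((h3.add h4).add_Z2 _).congr h2 (by simp) (by simp) (by simp) (by simp)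

lemma gam_bd {u : α} (hu : ds i u = 2) {p : α} (hp : p ∈ bd i u) :
    gmU0 i (BB i u) p = 0 ∧ gmU i u (BB i u) p = 0 := by
  have h1 : bd i p ⊆ BB i u := subset_biUnion_of_mem (bd i) hp
  have h2 : ¬ Disjoint (BB i u) (bd i p) := by
    intro h
    obtain ⟨y, hy⟩ := bd_neF hg hl (p := p) (by rw [ds_of_mem_bd hg hu hp]; omega)
    exact Finset.disjoint_left.1 h (h1 hy) hy
  have h3 := side_bdF hg hu hp
  unfold gmU0 gmU
  refine ⟨if_neg fun h => h2 h.1, ?_⟩
  by_cases h4 : corank u < i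
  · rw [if_pos (h3.2 h4), if_pos h4, if_pos h1]
  · rw [if_neg (fun h => h4 (h3.1 h)), if_neg h4, if_pos h1]

/-- **the jet of an object over four vertices** -/
theorem jet_G4 {u : α} (hu : ds i u = 2) (h4 : (BB i u).card = 4) :
    Jet (G4 i u) 1 (∑ p ∈ N1 α i, gmU0 i (BB i u) p) (if corank u < i then 0 else -4)
      (∑ p ∈ N1 α i, gmU i u (BB i u) p) := by
  have h1 := jet_frozen hg hl hdeg u h4 (R := N1 α i \ bd i u) sdiff_subset
  have h2 := bd_subset_N1 hg hu
  refine h1.congr rfl rfl ?_ rfl ?_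
  · rw [← sum_sdiff h2, sum_eq_zero (s := bd i u) fun p hp => (gam_bd hg hl hdeg hu hp).1,
      add_zero]
  · rw [← sum_sdiff h2, sum_eq_zero (s := bd i u) fun p hp => (gam_bd hg hl hdeg hu hp).2,
      add_zero]

end

/-- the second order number of an object over four vertices -/
noncomputable def T4 (i : ℕ) (u : α) : ℤ :=
  ∑ p ∈ N1 α i, gmU i u (BB i u) p + nn4 i u +
    if corank u < i then 2 * ∑ p ∈ N1 α i, gmU0 i (BB i u) p - 1 else -4

/-- **the coefficient of `w Z ^ 4` of an object over four vertices** -/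
theorem cf14_U4 (hg : Grad α) (hl : HasLower α i) (hdeg : ∀ p : α, (bd i p).card ≤ 2) {u : α}
    (hu : u ∈ U4 α i) : TL.cf 1 4 (PLo i u * G4 i u) = T4 i u := by
  unfold U4 at hu
  rw [mem_filter, mem_U2] at hu
  rw [cf14_obj hu.1.2 (jet_G4 hg hl hdeg hu.1.1 hu.2)]
  unfold T4
  split_ifs <;> ring

/-- the coefficient of `w Z ^ 3` of an object over four vertices -/
theorem cf13_U4 (hg : Grad α) (hl : HasLower α i) (hdeg : ∀ p : α, (bd i p).card ≤ 2) {u : α}
    (hu : u ∈ U4 α i) : TL.cf 1 3 (PLo i u * G4 i u) = if corank u < i then 2 else -4 := by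
  unfold U4 at hu
  rw [mem_filter, mem_U2] at hu
  have hG := jet_G4 hg hl hdeg hu.1.1 hu.2
  have hA : PLo i u * G4 i u = ZA ^ 3 * ((1 + qA * (Gq i u).card) *
      (∏ p ∈ bd i u, lam1 i p) * (nrm i u * geoA) ^ 2 * G4 i u) +
      ZA ^ 4 * (sgQ i u * G4 i u) := by
    unfold PLo
    ring
  rw [hA, map_add, show TL.cf 1 3 (ZA ^ 3 * ((1 + qA * (Gq i u).card) *
      (∏ p ∈ bd i u, lam1 i p) * (nrm i u * geoA) ^ 2 * G4 i u)) = TL.cf 1 0 ((1 + qA *
        (Gq i u).card) * (∏ p ∈ bd i u, lam1 i p) * (nrm i u * geoA) ^ 2 * G4 i u) from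
        cf_Z_pow 3 1 0 _, cf_Z_lt (by norm_num), add_zero]
  have h1 := (((Jet.one.add (Jet.q.mul (Jet.nat (Gq i u).card))).mul
    (jet_prod_lam1 (i := i) (bd i u))).mul
    (((jet_nrm (i := i) u).mul Jet.geo).mul ((jet_nrm (i := i) u).mul Jet.geo))).mul hG
  rw [← pow_two] at h1
  rw [h1.h10]
  unfold sgz
  split_ifs <;> ring

/-! ### the model -/

/-- the value of two objects over the same two elements -/
noncomputable def VT (i : ℕ) (T : Finset α) : AA :=
  Ev wA ((∏ y ∈ BA i (T.biUnion (bd i)), MvPolynomial.X y) *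
    ∏ p ∈ N1 α i \ T.biUnion (bd i), GA i 0 p)

/-- **the coefficients of the model**, all objects -/
theorem exists_KNcf4 {h : Fin (Fintype.card α) → ℕ} (hG : IsGaussianWith α h)
    (hl : HasLower α i) (hdeg : ∀ p : α, (bd i p).card ≤ 2) :
    ∃ KN : AA, Low KN ∧
      (TL.cf 2 4 KN = TL.cf 2 4 (VL i (0 : α → ℕ)) +
        ∑ y ∈ lev α i, TL.cf 1 3 (VL1 i (ind {y})) + ∑ k ∈ KL α i 2, TL.cf 0 2 (VG i k) +
        ∑ u ∈ U3 α i, (sgz i u * TL.cf 0 1 (V3 i u) + TL.cf 0 0 (V3 i u)) + SY α i 0 +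
        (∑ u ∈ U4 α i, T4 i u + (TT α i).card)) ∧
      (TL.cf 2 3 KN = TL.cf 2 3 (VL i (0 : α → ℕ)) +
        ∑ y ∈ lev α i, TL.cf 1 2 (VL1 i (ind {y})) + ∑ k ∈ KL α i 2, TL.cf 0 1 (VG i k) +
        ∑ u ∈ U3 α i, sgz i u * TL.cf 0 0 (V3 i u) +
        ∑ u ∈ U4 α i, (if corank u < i then 2 else -4)) ∧
      ∀ n, TL.cf 1 (n + 1) KN = TL.cf 1 (n + 1) (VL i (0 : α → ℕ)) +
        ∑ y ∈ lev α i, TL.cf 0 n (VL1 i (ind {y})) +
        ∑ u ∈ U4 α i, TL.cf 0 (n + 1) ((ZA ^ 3 + sgn i u * ZA ^ 4) * V3 i u) := by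
  have hg := grad hG
  obtain ⟨KN, h1, ⟨R, Q, h2⟩, h3⟩ := exists_KNobj hG hl hdeg
  have hVL : Ev wA (∏ p ∈ N1 α i, (1 + MvPolynomial.C (lam i p) * EA i 0 p)) =
      VL i (0 : α → ℕ) := rfl
  have hVL1 : ∀ k : α → ℕ, Ev wA (∏ p ∈ N1 α i, (1 + MvPolynomial.C (lam1 i p) * EA i k p)) =
      VL1 i k := fun _ => rfl
  have hVG : ∀ k : α → ℕ, Ev wA (∏ p ∈ N1 α i, GA i k p) = VG i k := fun _ => rfl
  have hV3 : ∀ u : α, Ev wA ((∏ y ∈ BB i u, MvPolynomial.X y) * rsK i 0 u) = V3 i u :=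
    fun _ => rfl
  have hG4 : ∀ u : α, Ev wA ((∏ y ∈ BB i u, av i u y) * rsL i u) = G4 i u := fun _ => rfl
  have hVT : ∀ T : Finset α, Ev wA ((∏ y ∈ BA i (T.biUnion (bd i)), MvPolynomial.X y) *
      ∏ p ∈ N1 α i \ T.biUnion (bd i), GA i 0 p) = VT i T := fun _ => rfl
  have hV3y : ∀ u y : α, Ev wA ((∏ t ∈ (BB i u).erase y, MvPolynomial.X t) *
      rsK i (ind {y}) u) = V3y i u y := fun _ _ => rfl
  simp only [hVL, hVL1, hVG, hV3, hV3y, hG4, hVT] at h2
  refine ⟨KN, h1, ?_, ?_, ?_⟩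
  · rw [h2]
    simp only [map_add]
    have e1 : TL.cf 2 4 (ZA ^ 5 * R) = 0 := cf_Z_lt (by norm_num) R
    have e2 : TL.cf 2 4 (wA ^ 3 * Q) = 0 := cf_w_lt (by norm_num) Q
    have e3 : TL.cf 2 4 (qA * ∑ y ∈ lev α i, VL1 i (ind {y})) =
        ∑ y ∈ lev α i, TL.cf 1 3 (VL1 i (ind {y})) := by
      rw [cf_q_succ, cf_sum]
    have e4 : TL.cf 2 4 (qA ^ 2 * ∑ k ∈ KL α i 2, VG i k) =
        ∑ k ∈ KL α i 2, TL.cf 0 2 (VG i k) := by
      rw [pow_two, mul_assoc, cf_q_succ, cf_q_succ, cf_sum]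
    have e5 : TL.cf 2 4 (wA ^ 2 * ∑ u ∈ U3 α i, (sgn i u * ZA ^ 3 + ZA ^ 4) * V3 i u) =
        ∑ u ∈ U3 α i, (sgz i u * TL.cf 0 1 (V3 i u) + TL.cf 0 0 (V3 i u)) := by
      rw [cf_w_pow 2 0 4, cf_sum]
      apply sum_congr rfl
      intro u _
      have e6 : (sgn i u * ZA ^ 3 + ZA ^ 4) * V3 i u =
          sgn i u * (ZA ^ 3 * V3 i u) + ZA ^ 4 * V3 i u := by ring
      rw [e6, map_add, cf_sgn, cf_Z_pow 3 0 1, cf_Z_pow 4 0 0]
    have e6 : TL.cf 2 4 (wA ^ 2 * (ZA ^ 4 * ∑ u ∈ U2 α i,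
        ∑ y ∈ (lev α i).filter (fun y => ObY i u y), V3y i u y)) = SY α i 0 := by
      rw [cf_w_pow 2 0 4, cf_Z_pow 4 0 0, cf_sum]
      unfold SY
      apply sum_congr rfl
      intro u _
      rw [cf_sum]
    have e7 : TL.cf 2 4 (wA * ∑ u ∈ U4 α i, PLo i u * G4 i u) = ∑ u ∈ U4 α i, T4 i u := by
      rw [cf_w_succ, cf_sum]
      exact sum_congr rfl fun u hu => cf14_U4 hg hl hdeg hu
    have e8 : TL.cf 2 4 (wA ^ 2 * (ZA ^ 4 * ∑ T ∈ TT α i, VT i T)) = (TT α i).card := by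
      rw [cf_w_pow 2 0 4, cf_Z_pow 4 0 0, cf_sum, card_eq_sum_ones, Nat.cast_sum]
      apply sum_congr rfl
      intro T hT
      unfold TT at hT
      rw [mem_filter] at hT
      rw [TL.cf_apply, PowerSeries.coeff_zero_eq_constantCoeff]
      unfold VT
      have := coeff_zero_rest hg hl hdeg (S := N1 α i \ T.biUnion (bd i)) sdiff_subset 0
        (BA i (T.biUnion (bd i)))
      rw [hT.2.2] at this
      rw [this]
      norm_num
    rw [e1, e2, e3, e4, e5, e6, e7, e8]
    ring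
  · rw [h2]
    simp only [map_add]
    have e1 : TL.cf 2 3 (ZA ^ 5 * R) = 0 := cf_Z_lt (by norm_num) R
    have e2 : TL.cf 2 3 (wA ^ 3 * Q) = 0 := cf_w_lt (by norm_num) Q
    have e3 : TL.cf 2 3 (qA * ∑ y ∈ lev α i, VL1 i (ind {y})) =
        ∑ y ∈ lev α i, TL.cf 1 2 (VL1 i (ind {y})) := by
      rw [cf_q_succ, cf_sum]
    have e4 : TL.cf 2 3 (qA ^ 2 * ∑ k ∈ KL α i 2, VG i k) =
        ∑ k ∈ KL α i 2, TL.cf 0 1 (VG i k) := by
      rw [pow_two, mul_assoc, cf_q_succ, cf_q_succ, cf_sum]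
    have e5 : TL.cf 2 3 (wA ^ 2 * ∑ u ∈ U3 α i, (sgn i u * ZA ^ 3 + ZA ^ 4) * V3 i u) =
        ∑ u ∈ U3 α i, sgz i u * TL.cf 0 0 (V3 i u) := by
      rw [cf_w_pow 2 0 3, cf_sum]
      apply sum_congr rfl
      intro u _
      have e6 : (sgn i u * ZA ^ 3 + ZA ^ 4) * V3 i u =
          sgn i u * (ZA ^ 3 * V3 i u) + ZA ^ 4 * V3 i u := by ring
      rw [e6, map_add, cf_sgn, cf_Z_pow 3 0 0, cf_Z_lt (by norm_num), add_zero]
    have e6 : TL.cf 2 3 (wA ^ 2 * (ZA ^ 4 * ∑ u ∈ U2 α i,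
        ∑ y ∈ (lev α i).filter (fun y => ObY i u y), V3y i u y)) = 0 := by
      rw [cf_w_pow 2 0 3, cf_Z_lt (by norm_num)]
    have e7 : TL.cf 2 3 (wA * ∑ u ∈ U4 α i, PLo i u * G4 i u) =
        ∑ u ∈ U4 α i, (if corank u < i then 2 else -4) := by
      rw [cf_w_succ, cf_sum]
      exact sum_congr rfl fun u hu => cf13_U4 hg hl hdeg hu
    have e8 : TL.cf 2 3 (wA ^ 2 * (ZA ^ 4 * ∑ T ∈ TT α i, VT i T)) = 0 := by
      rw [cf_w_pow 2 0 3, cf_Z_lt (by norm_num)]
    rw [e1, e2, e3, e4, e5, e6, e7, e8]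
    ring
  · intro n
    obtain ⟨R, Q, h5⟩ := h3 (n + 4) (by omega)
    simp only [hVL1, hVG, hV3] at h5
    rw [h5]
    simp only [map_add]
    have e1 : TL.cf 1 (n + 1) (ZA ^ (n + 4 + 1) * R) = 0 := cf_Z_lt (by omega) R
    have e2 : TL.cf 1 (n + 1) (wA ^ 2 * Q) = 0 := cf_w_lt (by norm_num) Q
    have e3 : TL.cf 1 (n + 1) (qA * ∑ y ∈ lev α i, VG i (ind {y})) =
        ∑ y ∈ lev α i, TL.cf 0 n (VL1 i (ind {y})) := by
      rw [cf_q_succ, cf_sum]
      apply sum_congr rfl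
      intro y _
      rw [cf_VG]
    have e4 : TL.cf 1 (n + 1) (wA * ∑ u ∈ U4 α i, (ZA ^ 3 + sgn i u * ZA ^ 4) * V3 i u) =
        ∑ u ∈ U4 α i, TL.cf 0 (n + 1) ((ZA ^ 3 + sgn i u * ZA ^ 4) * V3 i u) := by
      rw [cf_w_succ, cf_sum]
    rw [e1, e2, e3, e4, cf_VL1 1 (n + 1) (by norm_num)]
    ring

end Pool.Gauss
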