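import Pool.Agent.Work.MP_065141_co.K.StarEqn4

/-!
# The local form of the equations with objects over four vertices
-/

set_option autoImplicit false
set_option linter.unusedSectionVars false
set_option linter.unusedVariables false
open scoped Classical
open Finset

namespace Pool.Gauss

attribute [-instance] instDecidableEqProd

variable {α : Type} [Fintype α] [PartialOrder α] {i : ℕ} {m : Mat α i}
  {St : Finset (α × α)} {t k c : α × α → α}

/-! ### the constant terms -/

lemma cf0_cc (j : ℕ) (f : AA) : TL.cf 0 j f = (cc f).coeff j := by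
  rw [TL.cf_apply, PowerSeries.coeff_zero_eq_constantCoeff]

/-- **the objects with one unit of energy on the level** -/
theorem sum_SY (hg : Grad α) (hl : HasLower α i) (hdeg : ∀ p : α, (bd i p).card ≤ 2) :
    SY α i 0 = (((U3 α i).filter fun u => ∀ p ∈ bd i u, (bd i p).card = 2).card : ℤ) +
      ∑ u ∈ U4 α i, (((lev α i).card : ℤ) - 8) := by
  have h1 : ∀ u ∈ U2 α i, ∑ y ∈ (lev α i).filter (fun y => ObY i u y), TL.cf 0 0 (V3y i u y) =
      (if (BB i u).card = 3 ∧ ∀ p ∈ bd i u, (bd i p).card = 2 then 1 else 0) +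
      (if (BB i u).card = 4 then (((lev α i).card : ℤ) - 8) else 0) := by
    intro u hu
    have hv : ∀ y, TL.cf 0 0 (V3y i u y) = (-1) ^ ((BB i u).erase y).card := by
      intro y
      rw [cf0_cc]
      unfold V3y rsK
      exact coeff_zero_rest hg hl hdeg sdiff_subset _ _
    by_cases h4 : (BB i u).card = 4
    · rw [if_neg (by omega), if_pos h4, zero_add]
      have h2 : (lev α i).filter (fun y => ObY i u y) = lev α i :=
        filter_true_of_mem fun y _ => Or.inl h4
      have hB : BB i u ⊆ lev α i := BB_subset_lev (mem_U2.1 hu).1 hg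
      have h3 : ∑ y ∈ BB i u, TL.cf 0 0 (V3y i u y) = -4 := by
        have : ∀ y ∈ BB i u, TL.cf 0 0 (V3y i u y) = -1 := by
          intro y hy
          rw [hv, card_erase_of_mem hy, h4]
          norm_num
        rw [sum_congr rfl this, sum_const, h4]
        norm_num
      have h5 : ∑ y ∈ lev α i \ BB i u, TL.cf 0 0 (V3y i u y) = ((lev α i).card : ℤ) - 4 := by
        have : ∀ y ∈ lev α i \ BB i u, TL.cf 0 0 (V3y i u y) = 1 := by
          intro y hy
          rw [hv, erase_eq_of_notMem (mem_sdiff.1 hy).2, h4]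
          norm_num
        rw [sum_congr rfl this, sum_const, card_sdiff_of_subset hB, h4, nsmul_eq_mul, mul_one,
          Nat.cast_sub (by rw [← h4]; exact card_le_card hB)]
        norm_num
      rw [h2, ← sum_sdiff hB, h3, h5]
      ring
    · rw [if_neg h4, add_zero]
      obtain ⟨g1, g2⟩ := card_ObY hg hl hdeg hu h4
      have h3 : ∀ y ∈ (lev α i).filter (fun y => ObY i u y), TL.cf 0 0 (V3y i u y) = 1 := by
        intro y hy
        rw [hv, g2 y hy]
        norm_num
      rw [sum_congr rfl h3, sum_const, g1, nsmul_eq_mul, mul_one]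
      split_ifs <;> simp
  unfold SY
  rw [sum_congr rfl h1, sum_add_distrib]
  congr 1
  · rw [← Finset.sum_filter, sum_const, nsmul_eq_mul, mul_one]
    congr 2
    ext u
    rw [mem_filter, mem_filter, mem_U3, mem_U2]
    tauto
  · rw [U4, Finset.sum_filter]

/-- the value of the constant terms -/
theorem StarCfg.cst24_eq4 (hg : Grad α) (hl : HasLower α i) (hdeg : ∀ p : α, (bd i p).card ≤ 2)
    (hC : StarCfg m St t k c) :
    cst24 α i = - (((lev α i).card : ℤ) - 2) * (St.card : ℤ) -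
      ∑ u ∈ U3 α i, sgZ i u * ∑ s ∈ St, TL.ta t k c s (BB i u) - ((sp3 α i).card : ℤ) +
      ∑ u ∈ U4 α i, (((lev α i).card : ℤ) - 8) := by
  have h1 := sum_KL_cf hg hl hdeg hC
  have h2 := (cf_U3 hg hl hdeg hC).2
  have e1 : TL.cf 2 4 (wA ^ 2 * ∑ u ∈ U3 α i, (sgn i u * ZA ^ 3 + ZA ^ 4) *
        Ev wA ((∏ y ∈ BB i u, MvPolynomial.X y) * rsK i 0 u)) =
        ∑ u ∈ U3 α i, (sgz i u * TL.cf 0 1 (V3 i u) + TL.cf 0 0 (V3 i u)) := by
    rw [cf_w_pow 2 0 4, cf_sum]
    apply sum_congr rfl
    intro u _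
    have e6 : (sgn i u * ZA ^ 3 + ZA ^ 4) * Ev wA ((∏ y ∈ BB i u, MvPolynomial.X y) * rsK i 0 u) =
        sgn i u * (ZA ^ 3 * V3 i u) + ZA ^ 4 * V3 i u := by
      rw [V3]
      ring
    rw [e6, map_add, cf_sgn, cf_Z_pow 3 0 1, cf_Z_pow 4 0 0]
  rw [e1] at h2
  have h3 := sum_SY hg hl hdeg (i := i)
  have h4 : ((U3 α i).filter fun u => ∀ p ∈ bd i u, (bd i p).card = 2).card +
      ((U3 α i).filter fun u => ∃ p ∈ bd i u, (bd i p).card = 1).card = (U3 α i).card := by
    rw [← Finset.card_filter_add_card_filter_not (s := U3 α i)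
      (fun u => ∀ p ∈ bd i u, (bd i p).card = 2)]
    congr 2
    ext u
    simp only [mem_filter]
    apply and_congr_right
    intro hu
    rw [mem_U3] at hu
    push Not
    constructor
    · rintro ⟨p, hp, h⟩
      exact ⟨p, hp, by omega⟩
    · rintro ⟨p, hp, h⟩
      have h2 : (bd i p).card ≠ 0 := by
        rw [Ne, Finset.card_eq_zero, ← Ne, ← Finset.nonempty_iff_ne_empty]
        exact bd_neF hg hl (by rw [ds_of_mem_bd hg hu.1.1 hp]; omega)
      have h3 := hdeg p
      exact ⟨p, hp, by omega⟩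
  have h5 : ((U3 α i).card : ℤ) =
      (((U3 α i).filter fun u => ∀ p ∈ bd i u, (bd i p).card = 2).card : ℤ) +
      ((sp3 α i).card : ℤ) := by
    rw [← h4, sp3, Nat.cast_add]
    congr!
  have h6 : ∑ k ∈ KL α i 2, TL.cf 0 2 (VG i k) =
      ∑ κ ∈ KL α i 2, TL.cf 0 2 (Ev wA (∏ p ∈ N1 α i, GA i κ p)) := rfl
  rw [cst24, h6, h1, h2, h3, h5]
  ring

/-! ### the first order -/

open Polynomial in
/-- the polynomial of an object over four vertices at the first order -/
noncomputable def WU (i : ℕ) (St : Finset (α × α)) (t k c : α × α → α) (u : α) : ℤ[X] :=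
  (X + C (sgz i u) * X ^ 2) * ∏ s ∈ St, (1 + X * C (TL.ta t k c s (BB i u)))

open Polynomial in
lemma WU_coeff (u : α) : (WU i St t k c u).coeff 0 = 0 ∧ (WU i St t k c u).coeff 1 = 1 ∧
    (WU i St t k c u).coeff 2 = sgz i u + ∑ s ∈ St, TL.ta t k c s (BB i u) := by
  obtain ⟨h0, h1⟩ := coeff_prod_one_add St (fun s => TL.ta t k c s (BB i u))
  have h2 : WU i St t k c u = X * ∏ s ∈ St, (1 + X * C (TL.ta t k c s (BB i u))) +
      X ^ 2 * (C (sgz i u) * ∏ s ∈ St, (1 + X * C (TL.ta t k c s (BB i u)))) := by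
    unfold WU
    ring
  rw [h2]
  refine ⟨?_, ?_, ?_⟩
  · rw [Polynomial.coeff_add, Polynomial.coeff_X_mul_zero, Polynomial.coeff_X_pow_mul',
      if_neg (by omega), add_zero]
  · rw [Polynomial.coeff_add, Polynomial.coeff_X_mul, h0, Polynomial.coeff_X_pow_mul',
      if_neg (by omega), add_zero]
  · rw [Polynomial.coeff_add, Polynomial.coeff_X_mul, h1, Polynomial.coeff_X_pow_mul',
      if_pos le_rfl, Nat.sub_self, Polynomial.coeff_C_mul, h0]
    ring

lemma cc_sgn' (u : α) : cc (sgn i u) = Polynomial.C (sgz i u) := by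
  unfold sgn sgz
  split_ifs
  · rw [map_neg, map_one, map_neg, map_one]
  · rw [map_one, map_one]

/-- the first order value of an object over four vertices -/
lemma cf0_WU (hg : Grad α) (hl : HasLower α i) (hdeg : ∀ p : α, (bd i p).card ≤ 2)
    (hC : StarCfg m St t k c) {u : α} (hu : u ∈ U4 α i) (n : ℕ) :
    TL.cf 0 (n + 2) ((ZA ^ 3 + sgn i u * ZA ^ 4) * V3 i u) = (WU i St t k c u).coeff n := by
  unfold U4 at hu
  rw [mem_filter, mem_U2] at hu
  have h1 := cc_rest hg hl hdeg hC (A := bd i u) (B := BB i u) (bd_subset_N1 hg hu.1.1)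
    (fun p hp => Finset.subset_biUnion_of_mem (bd i) hp)
  have h2 : cc (V3 i u) = ∏ s ∈ St, (1 + Polynomial.X * Polynomial.C
      (TL.ta t k c s (BB i u))) := by
    unfold V3 rsK
    rw [h1, hu.2]
    norm_num
  rw [cf0_cc, map_mul, h2, map_add, map_mul, map_pow, map_pow, cc_ZA, cc_sgn']
  have h3 : (Polynomial.X ^ 3 + Polynomial.C (sgz i u) * Polynomial.X ^ 4) *
      ∏ s ∈ St, (1 + Polynomial.X * Polynomial.C (TL.ta t k c s (BB i u))) =
      Polynomial.X ^ 2 * WU i St t k c u := by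
    unfold WU
    ring
  rw [h3, Polynomial.coeff_X_pow_mul']
  rw [if_pos (by omega), Nat.add_sub_cancel]

/-- **the equations of a region with vertex-disjoint stars**, all objects -/
theorem StarCfg.eqn4 {h : Fin (Fintype.card α) → ℕ} (hG : IsGaussianWith α h)
    (hl : HasLower α i) (hdeg : ∀ p : α, (bd i p).card ≤ 2) (hC : StarCfg m St t k c) :
    (sdat m St t k c).R24 (lev α i) +
        2 * (cst24 α i + (∑ u ∈ U4 α i, T4 i u + (TT α i).card)) = 0 ∧
      ∀ n, (sdat m St t k c).R1 n + ∑ u ∈ U4 α i, (WU i St t k c u).coeff n = 0 := by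
  have hg := grad hG
  obtain ⟨KN, h0, h1, _, h3⟩ := exists_KNcf4 hG hl hdeg
  have hok := sdat_ok hg hC
  have hL : ∀ s ∈ St, TL.VS t k c s ⊆ lev α i := hok.slev
  constructor
  · rw [cf_low h0 (by norm_num)] at h1
    have e1 := hC.cf24_VL hg hl hdeg
    have e2 : ∑ y ∈ lev α i, TL.cf 1 3 (VL1 i (ind {y})) =
        ∑ y ∈ lev α i \ St.biUnion (TL.VS t k c), (sdat m St t k c).w13 y +
        ∑ s ∈ St, ∑ y ∈ TL.VS t k c s, (sdat m St t k c).f13 s y := by
      rw [sum_lev_split hC.st hL]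
      congr 1
      · exact sum_congr rfl fun y hy => hC.cf13_out hg hl hdeg (notMem_of_sdiff hy)
      · exact sum_congr rfl fun s hs => sum_congr rfl fun y hy => hC.cf13_in hg hl hdeg hs hy
    have e3 : (sdat m St t k c).R24 (lev α i) = (sdat m St t k c).a24 +
        2 * ∑ y ∈ lev α i \ St.biUnion (TL.VS t k c), (sdat m St t k c).w13 y +
        2 * ∑ s ∈ St, ∑ y ∈ TL.VS t k c s, (sdat m St t k c).f13 s y := rfl
    rw [e2] at h1
    rw [e3, ← e1, cst24]
    linarith
  · intro n
    have e1 := h3 (n + 1)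
    rw [cf_low h0 (by omega)] at e1
    have e2 : ∑ y ∈ lev α i, TL.cf 0 (n + 1) (VL1 i (ind {y})) =
        ∑ s ∈ St, ∑ y ∈ TL.VS t k c s,
          ((if n = 0 then TL.E0 ((sdat m St t k c).frU s y) else 0) +
            (if n = 1 then TL.E0 ((sdat m St t k c).frV s y) else 0)) := by
      rw [sum_lev_split hC.st hL]
      have e3 : ∑ y ∈ lev α i \ St.biUnion (TL.VS t k c),
          TL.cf 0 (n + 1) (VL1 i (ind {y})) = 0 :=
        sum_eq_zero fun y hy => hC.cf0_out hg hl hdeg (notMem_of_sdiff hy) n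
      rw [e3, zero_add]
      exact sum_congr rfl fun s hs => sum_congr rfl fun y hy => hC.cf0_in hg hl hdeg hs hy n
    have e4 := hC.cf1_VL hg hl hdeg n
    have e5 : ∑ u ∈ U4 α i, TL.cf 0 (n + 1 + 1) ((ZA ^ 3 + sgn i u * ZA ^ 4) * V3 i u) =
        ∑ u ∈ U4 α i, (WU i St t k c u).coeff n :=
      sum_congr rfl fun u hu => cf0_WU hg hl hdeg hC hu n
    rw [e2, e5, show n + 1 + 1 = n + 2 from rfl, e4] at e1
    exact e1.symm

/-! ### the second order number of an object in terms of the items -/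

/-- `2 ^ |N \ B| - 1` of a pair -/
lemma pow_pair {a b : α} (hab : a ≠ b) (B : Finset α) :
    (2 : ℤ) ^ (({a, b} : Finset α) \ B).card - 1 =
      (if ({a, b} : Finset α) ⊆ B then 0 else 1) +
        2 * (if Disjoint B ({a, b} : Finset α) then 1 else 0) := by
  by_cases ha : a ∈ B <;> by_cases hb : b ∈ B
  · have h1 : ({a, b} : Finset α) \ B = ∅ := by
      rw [sdiff_eq_empty_iff_subset]
      intro y hy
      rw [mem_insert, mem_singleton] at hy
      rcases hy with rfl | rfl <;> assumption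
    rw [h1, if_pos (sdiff_eq_empty_iff_subset.1 h1), if_neg]
    · simp
    · rw [disjoint_insert_right]
      exact fun h => h.1 ha
  · have h1 : ({a, b} : Finset α) \ B = {b} := by
      ext y
      rw [mem_sdiff, mem_insert, mem_singleton]
      constructor
      · rintro ⟨rfl | rfl, h⟩
        · exact absurd ha h
        · rfl
      · rintro rfl
        exact ⟨Or.inr rfl, hb⟩
    rw [h1, card_singleton, if_neg, if_neg]
    · norm_num
    · rw [disjoint_insert_right]
      exact fun h => h.1 ha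
    · exact fun h => hb (h (by simp))
  · have h1 : ({a, b} : Finset α) \ B = {a} := by
      ext y
      rw [mem_sdiff, mem_insert, mem_singleton, mem_singleton]
      constructor
      · rintro ⟨rfl | rfl, h⟩
        · rfl
        · exact absurd hb h
      · rintro rfl
        exact ⟨Or.inl rfl, ha⟩
    rw [h1, card_singleton, if_neg, if_neg]
    · norm_num
    · rw [disjoint_insert_right, disjoint_singleton_right]
      exact fun h => h.2 hb
    · exact fun h => ha (h (by simp))
  · have h1 : ({a, b} : Finset α) \ B = {a, b} := by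
      rw [Finset.sdiff_eq_self_iff_disjoint, disjoint_insert_left, disjoint_singleton_left]
      exact ⟨ha, hb⟩
    rw [h1, card_pair hab, if_neg, if_pos]
    · norm_num
    · rw [disjoint_insert_right, disjoint_singleton_right]
      exact ⟨ha, hb⟩
    · exact fun h => ha (h (by simp))

section items

variable (hg : Grad α) (hl : HasLower α i) (hdeg : ∀ p : α, (bd i p).card ≤ 2)
  (hC : StarCfg m St t k c)

include hg hl hdeg hC

/-- regrouping of a sum over the elements next to the level -/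
lemma StarCfg.sum_N1 (f : α → ℤ) :
    ∑ p ∈ N1 α i, f p = ∑ s ∈ St, (f s.1 + f s.2) +
      (∑ e ∈ m.M, (f e.1 + f e.2) + ∑ p ∈ Sg α i, f p) := by
  have h := hC.prod hg hl hdeg (R := Multiplicative ℤ) (fun p => Multiplicative.ofAdd (f p))
  apply Multiplicative.ofAdd.injective
  rw [ofAdd_add, ofAdd_add, ofAdd_sum, ofAdd_sum, ofAdd_sum, ofAdd_sum, h]
  rfl

omit hg hl hdeg hC

/-- the first order number of a star at an object -/
lemma ta_eq {s : α × α} (B : Finset α) : TL.ta t k c s B =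
    (if Disjoint B ({k s, t s} : Finset α) then 1 else 0) -
      (if Disjoint B ({k s, c s} : Finset α) then 1 else 0) := by
  unfold TL.ta TL.dl
  by_cases hk : k s ∈ B
  · rw [if_pos hk, if_neg, if_neg]
    · rfl
    · rw [disjoint_insert_right]
      exact fun h => h.1 hk
    · rw [disjoint_insert_right]
      exact fun h => h.1 hk
  · rw [if_neg hk]
    simp only [disjoint_insert_right, disjoint_singleton_right, hk, not_false_eq_true, true_and]
    split_ifs <;> simp_all

include hg hl hdeg hC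

lemma StarCfg.gam_sum {u : α} {B : Finset α} :
    ∑ p ∈ N1 α i, gmU i u B p + (if corank u < i then 2 * ∑ p ∈ N1 α i, gmU0 i B p else 0) =
      - ∑ j ∈ (sdat m St t k c).J, ((2 : ℤ) ^ ((sdat m St t k c).N j \ B).card - 1) -
        ∑ s ∈ St, (if corank u < i then (2 : ℤ) ^ (({k s, c s} : Finset α) \ B).card - 1
          else (2 : ℤ) ^ (({k s, t s} : Finset α) \ B).card - 1 + 3 * TL.ta t k c s B) := by
  have hS : ∀ s ∈ St, gmU i u B s.1 + gmU i u B s.2 +
      (if corank u < i then 2 * (gmU0 i B s.1 + gmU0 i B s.2) else 0) =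
      - (if corank u < i then (2 : ℤ) ^ (({k s, c s} : Finset α) \ B).card - 1
          else (2 : ℤ) ^ (({k s, t s} : Finset α) \ B).card - 1 + 3 * TL.ta t k c s B) := by
    intro s hs
    have hz : corank s.1 < i := by have := (hC.of hs).cz; omega
    have hx : ¬ corank s.2 < i := by have := (hC.of hs).cx; omega
    have hkc := hC.st.kc s hs
    have hkt := (hC.st.tk s hs).symm
    rw [pow_pair hkc B, pow_pair hkt B, ta_eq]
    unfold gmU gmU0 sgz
    rw [hC.bz s hs, hC.bx s hs, card_pair hkc, card_pair hkt]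
    simp only [hz, hx, if_true, if_false, and_true]
    by_cases h1 : ({k s, t s} : Finset α) ⊆ B
    · have h2 : ¬ Disjoint B ({k s, t s} : Finset α) := fun h =>
        Finset.disjoint_left.1 h (h1 (by simp : k s ∈ ({k s, t s} : Finset α))) (by simp)
      split_ifs <;> norm_num
    · split_ifs <;> norm_num
  have hM : ∀ e ∈ m.M, gmU i u B e.1 + gmU i u B e.2 = - ((2 : ℤ) ^ (bd i e.1 \ B).card - 1) ∧
      gmU0 i B e.1 + gmU0 i B e.2 = 0 := by
    intro e he
    obtain ⟨a, b, hab, h1, h2⟩ := m.bd_pair hg he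
    have hz : corank e.1 < i := by have := m.cz e he; omega
    have hx : ¬ corank e.2 < i := by have := m.cx e he; omega
    rw [h1, pow_pair hab B]
    unfold gmU gmU0 sgz
    rw [h1, h2, card_pair hab]
    simp only [hz, hx, if_true, if_false, and_true]
    refine ⟨?_, by split_ifs <;> norm_num⟩
    by_cases h3 : ({a, b} : Finset α) ⊆ B
    · have h4 : ¬ Disjoint B ({a, b} : Finset α) := fun h =>
        Finset.disjoint_left.1 h (h3 (by simp : a ∈ ({a, b} : Finset α))) (by simp)
      split_ifs <;> norm_num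
    · split_ifs <;> norm_num
  have hP : ∀ p ∈ Sg α i, gmU i u B p = - ((2 : ℤ) ^ (bd i p \ B).card - 1) ∧
      gmU0 i B p = 0 := by
    intro p hp
    obtain ⟨h1, h2⟩ := mem_Sg.1 hp
    obtain ⟨y, hy⟩ := Finset.card_eq_one.1 h2
    unfold gmU gmU0
    rw [hy, card_singleton]
    constructor
    · by_cases hyB : y ∈ B
      · have h3 : ({y} : Finset α) \ B = ∅ := by
          rw [sdiff_eq_empty_iff_subset, singleton_subset_iff]
          exact hyB
        rw [h3]
        simp [hyB]
      · have h3 : ({y} : Finset α) \ B = {y} := by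
          rw [Finset.sdiff_eq_self_iff_disjoint, disjoint_singleton_left]
          exact hyB
        rw [h3]
        simp [hyB]
    · rw [if_neg]
      rintro ⟨_, h⟩
      norm_num at h
  have hJ : ∑ j ∈ (sdat m St t k c).J, ((2 : ℤ) ^ ((sdat m St t k c).N j \ B).card - 1) =
      ∑ e ∈ m.M, ((2 : ℤ) ^ (bd i e.1 \ B).card - 1) +
        ∑ p ∈ Sg α i, ((2 : ℤ) ^ (bd i p \ B).card - 1) :=
    sum_disjSum _ _ _
  rw [hC.sum_N1 hg hl hdeg (gmU i u B), hC.sum_N1 hg hl hdeg (gmU0 i B), hJ,
    sum_congr rfl fun e he => (hM e he).1, sum_congr rfl fun e he => (hM e he).2,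
    sum_congr rfl fun p hp => (hP p hp).1, sum_congr rfl fun p hp => (hP p hp).2,
    sum_neg_distrib, sum_neg_distrib, sum_const_zero, sum_const_zero]
  have h5 : ∑ s ∈ St, (gmU i u B s.1 + gmU i u B s.2) + (if corank u < i then
      2 * ∑ s ∈ St, (gmU0 i B s.1 + gmU0 i B s.2) else 0) =
      - ∑ s ∈ St, (if corank u < i then (2 : ℤ) ^ (({k s, c s} : Finset α) \ B).card - 1
          else (2 : ℤ) ^ (({k s, t s} : Finset α) \ B).card - 1 + 3 * TL.ta t k c s B) := by
    rw [← sum_neg_distrib, ← sum_congr rfl hS]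
    by_cases hu : corank u < i
    · simp only [hu, if_true]
      rw [mul_sum, ← sum_add_distrib]
    · simp only [hu, if_false, add_zero]
  by_cases hu : corank u < i
  · simp only [hu, if_true] at h5 ⊢
    linarith
  · simp only [hu, if_false] at h5 ⊢
    linarith

end items

/-- the second order number of an object over four vertices, local form -/
noncomputable def kap4 (m : Mat α i) (St : Finset (α × α)) (t k c : α × α → α) (u : α) : ℤ :=
  nn4 i u + ∑ j ∈ (sdat m St t k c).J, ((2 : ℤ) ^ ((sdat m St t k c).N j).card -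
      2 ^ ((sdat m St t k c).N j \ BB i u).card) +
    if corank u < i then
      ∑ s ∈ St, (4 - (2 : ℤ) ^ (({k s, c s} : Finset α) \ BB i u).card) - 9
    else ∑ s ∈ St, (4 - (2 : ℤ) ^ (({k s, t s} : Finset α) \ BB i u).card -
      3 * TL.ta t k c s (BB i u)) - 12

lemma StarCfg.T4_eq (hg : Grad α) (hl : HasLower α i) (hdeg : ∀ p : α, (bd i p).card ≤ 2)
    (hC : StarCfg m St t k c) (u : α) (n : ℤ) :
    T4 i u + (n - 8) - (sdat m St t k c).Gam n = kap4 m St t k c u := by
  have h1 := hC.gam_sum hg hl hdeg (u := u) (B := BB i u)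
  have h2 : (sdat m St t k c).Gam n = n - ∑ j ∈ (sdat m St t k c).J,
      ((2 : ℤ) ^ ((sdat m St t k c).N j).card - 1) - 3 * (St.card : ℤ) := rfl
  rw [h2]
  unfold T4 kap4
  have h3 : ∀ f g : α × α → ℤ, (∀ s ∈ St, f s = 4 - 1 - g s) →
      ∑ s ∈ St, f s = 3 * (St.card : ℤ) - ∑ s ∈ St, g s := by
    intro f g h
    rw [sum_congr rfl h, sum_sub_distrib, sum_const, nsmul_eq_mul]
    ring
  have h4 : ∑ j ∈ (sdat m St t k c).J, ((2 : ℤ) ^ ((sdat m St t k c).N j).card -
      2 ^ ((sdat m St t k c).N j \ BB i u).card) =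
      ∑ j ∈ (sdat m St t k c).J, ((2 : ℤ) ^ ((sdat m St t k c).N j).card - 1) -
      ∑ j ∈ (sdat m St t k c).J, ((2 : ℤ) ^ ((sdat m St t k c).N j \ BB i u).card - 1) := by
    rw [← sum_sub_distrib]
    apply sum_congr rfl
    intro j _
    ring
  rw [h4]
  by_cases hu : corank u < i
  · simp only [hu, if_true] at h1 ⊢
    rw [h3 _ (fun s => (2 : ℤ) ^ (({k s, c s} : Finset α) \ BB i u).card - 1)
      (fun s _ => by ring)]
    linarith
  · simp only [hu, if_false] at h1 ⊢
    rw [h3 _ (fun s => (2 : ℤ) ^ (({k s, t s} : Finset α) \ BB i u).card - 1 +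
      3 * TL.ta t k c s (BB i u)) (fun s _ => by ring)]
    linarith

/-- **the first and second order equations of a region with vertex-disjoint stars**, with objects
over four vertices -/
theorem StarCfg.local_final4 {h : Fin (Fintype.card α) → ℕ} (hG : IsGaussianWith α h)
    (hl : HasLower α i) (hdeg : ∀ p : α, (bd i p).card ≤ 2) (hC : StarCfg m St t k c) :
    (sdat m St t k c).F21 = 0 ∧ (sdat m St t k c).F32t = -2 * ((U4 α i).card : ℤ) ∧
    ∑ p ∈ St.offDiag, (sdat m St t k c).bb p.1 p.2 =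
      -2 * ∑ u ∈ U4 α i, (sgz i u + ∑ s ∈ St, TL.ta t k c s (BB i u)) ∧
    (sdat m St t k c).loc4 = 4 * (∑ u ∈ U3 α i, sgZ i u * ∑ s ∈ St, TL.ta t k c s (BB i u) +
      ((sp3 α i).card : ℤ)) - 4 * (∑ u ∈ U4 α i, kap4 m St t k c u + (TT α i).card) := by
  have hg := grad hG
  obtain ⟨h1, h2⟩ := hC.eqn4 hG hl hdeg
  have hok := sdat_ok hg hC
  have w0 : ∑ u ∈ U4 α i, (WU i St t k c u).coeff 0 = 0 :=
    sum_eq_zero fun u _ => (WU_coeff u).1
  have w1 : ∑ u ∈ U4 α i, (WU i St t k c u).coeff 1 = ((U4 α i).card : ℤ) := by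
    rw [sum_congr rfl fun u _ => (WU_coeff (i := i) (St := St) (t := t) (k := k) (c := c) u).2.1,
      sum_const, nsmul_eq_mul, mul_one]
  have w2 : ∑ u ∈ U4 α i, (WU i St t k c u).coeff 2 =
      ∑ u ∈ U4 α i, (sgz i u + ∑ s ∈ St, TL.ta t k c s (BB i u)) :=
    sum_congr rfl fun u _ => (WU_coeff u).2.2
  have r0 := h2 0
  have r1 := h2 1
  have r2 := h2 2
  rw [w0, add_zero] at r0
  rw [w1] at r1
  rw [w2] at r2
  have e0 : (sdat m St t k c).F21 = 0 := by rw [← TL.SDat.R1_zero hok, r0]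
  have e1 : (sdat m St t k c).F32t = -2 * ((U4 α i).card : ℤ) := by
    rw [← TL.SDat.R1_one hok]
    linarith
  have e2 : ∑ p ∈ St.offDiag, (sdat m St t k c).bb p.1 p.2 =
      -2 * ∑ u ∈ U4 α i, (sgz i u + ∑ s ∈ St, TL.ta t k c s (BB i u)) := by
    have := TL.SDat.R1_two hok
    have h3 : ∑ p ∈ (sdat m St t k c).St.offDiag, (sdat m St t k c).bb p.1 p.2 =
      ∑ p ∈ St.offDiag, (sdat m St t k c).bb p.1 p.2 := rfl
    rw [h3] at this
    linarith
  refine ⟨e0, e1, e2, ?_⟩
  have e3 := TL.SDat.R24_val hok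
  have e4 := TL.SDat.F42q_eq hok (lev α i).card
  rw [e0, e1] at e4
  have e5 : ((sdat m St t k c).St.card : ℤ) = St.card := rfl
  rw [e5] at e3
  rw [hC.cst24_eq4 hg hl hdeg] at h1
  have e6 : ∑ u ∈ U4 α i, kap4 m St t k c u = ∑ u ∈ U4 α i, T4 i u +
      ∑ u ∈ U4 α i, (((lev α i).card : ℤ) - 8) -
      ((U4 α i).card : ℤ) * (sdat m St t k c).Gam (lev α i).card := by
    rw [sum_congr rfl fun u _ => (hC.T4_eq hg hl hdeg u ((lev α i).card : ℤ)).symm,
      sum_sub_distrib, sum_add_distrib, sum_const, sum_const, nsmul_eq_mul, nsmul_eq_mul]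
  rw [e6]
  linear_combination 2 * h1 - e3 - e4

end Pool.Gauss
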