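import Pool.Agent.Work.MP_065141_co.K.StarConst2

/-!
# Frames at `w = 0`: frozen variables and excited vertices together

`Ev_0 (prod_(y in B) X y * prod_(p in N1 \ A) GA κ p)` for a star region, any energies `κ` on
level `i`, any set `B` of frozen variables and any removed set `A` whose elements all contain a
frozen variable without energy: a product over the stars.
-/

set_option autoImplicit false
set_option linter.unusedSectionVars false
set_option linter.unusedVariables false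
open scoped Classical
open Finset Polynomial

namespace Pool.Gauss

variable {α : Type} [Fintype α] [PartialOrder α] {i : ℕ}

/-- value of the monomial of a pair: `e` = excited, `b` = frozen -/
noncomputable def axW (e1 e2 b1 b2 : Prop) : ℤ :=
  if (e1 ∧ e2) ∨ (¬ e1 ∧ b1) ∨ (¬ e2 ∧ b2) then 0 else
    (if e1 then 1 else -1) * (if e2 then 1 else -1)

/-- value of a star with excited (`e`) and frozen (`b`) vertices `t`, `k`, `c`, up to the sign of
the frozen vertices -/
noncomputable def Wst (et ek ec bt bk bc : Prop) : ℤ[X] :=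
  1 + X * (C (axW ek et bk bt) - C (axW ek ec bk bc)) -
    (if ek then X ^ 2 * C (axW ek et bk bt * axW ek ec bk bc) else 0)

/-- value of a power of a variable at `w = 0` -/
def gE (n : ℕ) : ℤ := if n = 0 then 1 else if n = 1 then -1 else 0

lemma evm_zero_single {Y : Type} (y : Y) (n : ℕ) :
    Ev (0 : ℤ[X]) (MvPolynomial.X y ^ n : MvPolynomial Y ℤ[X]) = C (gE n) := by
  unfold gE
  match n with
  | 0 => rw [pow_zero, Ev_one]; simp
  | 1 => rw [pow_one, Ev_X, zero_sub]; simp
  | n + 2 =>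
    have h := Ev0_X_sq_mul (A := ℤ[X]) y (MvPolynomial.X y ^ n)
    rw [← pow_add, add_comm 2 n] at h
    rw [h]
    simp

/-- value of a monomial in three different variables -/
lemma Ev0_three {Y : Type} {t k c : Y} (htk : t ≠ k) (hkc : k ≠ c) (htc : t ≠ c) (a b d : ℕ) :
    Ev (0 : ℤ[X]) (MvPolynomial.X t ^ a * (MvPolynomial.X k ^ b * MvPolynomial.X c ^ d)) =
      C (gE a * gE b * gE d) := by
  have h1 : Disjoint ({t} : Set Y) ({k, c} : Set Y) := by
    rw [Set.disjoint_left]
    rintro x hx hx'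
    rw [Set.mem_singleton_iff] at hx
    rw [Set.mem_insert_iff, Set.mem_singleton_iff] at hx'
    subst hx
    tauto
  have h2 : Disjoint ({k} : Set Y) ({c} : Set Y) := by
    rw [Set.disjoint_left]
    rintro x hx hx'
    rw [Set.mem_singleton_iff] at hx hx'
    subst hx
    tauto
  have m1 : ∀ (y : Y) (n : ℕ), (MvPolynomial.X y ^ n : MvPolynomial Y ℤ[X]) ∈
      MvPolynomial.supported ℤ[X] ({y} : Set Y) := fun y n => pow_mem (X_supp y) n
  rw [Ev_mul (0 : ℤ[X]) h1 (m1 t a) (mul_mem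
    (MvPolynomial.supported_mono (by simp) (m1 k b))
    (MvPolynomial.supported_mono (by simp) (m1 c d))), Ev_mul (0 : ℤ[X]) h2 (m1 k b) (m1 c d),
    evm_zero_single, evm_zero_single, evm_zero_single, map_mul, map_mul]
  ring

/-- exponent of a property -/
noncomputable def eP (p : Prop) : ℕ := if p then 1 else 0

lemma eP_true {p : Prop} (h : p) : eP p = 1 := if_pos h
lemma eP_false {p : Prop} (h : ¬ p) : eP p = 0 := if_neg h

/-- the monomial of a pair -/
lemma M0_pow {κ : α → ℕ} {p y y' : α} (hb : bd i p = {y, y'}) (hne : y ≠ y') :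
    M0 i κ p = if κ y ≠ 0 ∧ κ y' ≠ 0 then 0 else
      MvPolynomial.X y ^ eP (κ y = 0) * MvPolynomial.X y' ^ eP (κ y' = 0) := by
  rw [M0_pair hb hne]
  unfold eP
  by_cases h1 : κ y = 0 <;> by_cases h2 : κ y' = 0 <;> simp [h1, h2]

lemma Ev0_pos (P : MvPolynomial α ℤ[X]) (a : ℤ) (h : Ev (0 : ℤ[X]) P = C a) :
    Ev (0 : ℤ[X]) (MvPolynomial.C X * P) = X * C a := by rw [Ev_C_mul, h]

/-- **the value of a star with excited and frozen vertices** -/
theorem Ev_star_gen (hg : Grad α) (hl : HasLower α i) {z x v c t : α} (hz : corank z + 1 = i)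
    (hx : corank x = i + 1) (hbz : bd i z = {v, c}) (hbx : bd i x = {v, t}) (hc : v ≠ c)
    (ht : v ≠ t) (htc : t ≠ c) (κ : α → ℕ) (bt bk bc : Prop) :
    Ev (0 : ℤ[X]) ((MvPolynomial.X t ^ eP bt * (MvPolynomial.X v ^ eP bk *
        MvPolynomial.X c ^ eP bc)) * (mc (GA i κ x) * mc (GA i κ z))) =
      (-1) ^ (eP bt + eP bk + eP bc) * Wst (κ t ≠ 0) (κ v ≠ 0) (κ c ≠ 0) bt bk bc := by
  have hz1 : ds i z = 1 := ds_one_iff.2 (Or.inl hz)
  have hx1 : ds i x = 1 := ds_one_iff.2 (Or.inr hx)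
  have cz : (bd i z).card = 2 := by rw [hbz, card_pair hc]
  have cx : (bd i x).card = 2 := by rw [hbx, card_pair ht]
  have hsz : sg0 i z = -1 := by
    unfold sg0
    rw [if_pos (by omega)]
  have hsx : sg0 i x = 1 := by
    unfold sg0
    rw [if_neg (by omega)]
  rw [mc_GA hg hl hz1 cz.le κ, mc_GA hg hl hx1 cx.le κ, if_pos cz, if_pos cx, hsz, hsx,
    M0_pow hbz hc, M0_pow hbx ht, one_mul, neg_one_mul, map_neg]
  have hexp : ∀ (at' ax' az' : MvPolynomial α ℤ[X]),
      at' * ((1 + MvPolynomial.C X * ax') * (1 + -MvPolynomial.C X * az')) =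
      at' + MvPolynomial.C X * (at' * ax') - MvPolynomial.C X * (at' * az') -
        MvPolynomial.C X * (MvPolynomial.C X * (at' * (ax' * az'))) := by
    intro at' ax' az'
    ring
  rw [hexp, map_sub, map_sub, map_add, Ev_C_mul, Ev_C_mul, Ev_C_mul, Ev_C_mul,
    Ev0_three ht.symm hc htc]
  -- the three other monomials
  have hX : Ev (0 : ℤ[X]) ((MvPolynomial.X t ^ eP bt * (MvPolynomial.X v ^ eP bk *
        MvPolynomial.X c ^ eP bc)) * (if κ v ≠ 0 ∧ κ t ≠ 0 then 0 else
      MvPolynomial.X v ^ eP (κ v = 0) * MvPolynomial.X t ^ eP (κ t = 0))) =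
      if κ v ≠ 0 ∧ κ t ≠ 0 then 0 else C (gE (eP bt + eP (κ t = 0)) *
        gE (eP bk + eP (κ v = 0)) * gE (eP bc)) := by
    split_ifs with h
    · rw [mul_zero, map_zero]
    · rw [← Ev0_three ht.symm hc htc]
      congr 1
      ring
  have hZ : Ev (0 : ℤ[X]) ((MvPolynomial.X t ^ eP bt * (MvPolynomial.X v ^ eP bk *
        MvPolynomial.X c ^ eP bc)) * (if κ v ≠ 0 ∧ κ c ≠ 0 then 0 else
      MvPolynomial.X v ^ eP (κ v = 0) * MvPolynomial.X c ^ eP (κ c = 0))) =
      if κ v ≠ 0 ∧ κ c ≠ 0 then 0 else C (gE (eP bt) *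
        gE (eP bk + eP (κ v = 0)) * gE (eP bc + eP (κ c = 0))) := by
    split_ifs with h
    · rw [mul_zero, map_zero]
    · rw [← Ev0_three ht.symm hc htc]
      congr 1
      ring
  have hXZ : Ev (0 : ℤ[X]) ((MvPolynomial.X t ^ eP bt * (MvPolynomial.X v ^ eP bk *
        MvPolynomial.X c ^ eP bc)) * ((if κ v ≠ 0 ∧ κ t ≠ 0 then 0 else
      MvPolynomial.X v ^ eP (κ v = 0) * MvPolynomial.X t ^ eP (κ t = 0)) *
      (if κ v ≠ 0 ∧ κ c ≠ 0 then 0 else
      MvPolynomial.X v ^ eP (κ v = 0) * MvPolynomial.X c ^ eP (κ c = 0)))) =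
      if (κ v ≠ 0 ∧ κ t ≠ 0) ∨ (κ v ≠ 0 ∧ κ c ≠ 0) then 0 else
        C (gE (eP bt + eP (κ t = 0)) * gE (eP bk + eP (κ v = 0) + eP (κ v = 0)) *
        gE (eP bc + eP (κ c = 0))) := by
    by_cases h : κ v ≠ 0 ∧ κ t ≠ 0
    · rw [if_pos h, if_pos (Or.inl h), zero_mul, mul_zero, map_zero]
    · by_cases h' : κ v ≠ 0 ∧ κ c ≠ 0
      · rw [if_pos h', if_pos (Or.inr h'), mul_zero, mul_zero, map_zero]
      · rw [if_neg h, if_neg h', if_neg (by tauto), ← Ev0_three ht.symm hc htc]
        congr 1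
        ring
  rw [hX, hZ, hXZ]
  unfold Wst axW
  by_cases hv : κ v = 0 <;> by_cases hct : κ t = 0 <;> by_cases hcc : κ c = 0 <;>
    by_cases b1 : bt <;> by_cases b2 : bk <;> by_cases b3 : bc <;>
    simp [hv, hct, hcc, b1, b2, b3, eP, gE] <;> ring

variable {m : Mat α i} {St : Finset (α × α)} {t k c : α × α → α}

/-- frozen variables with factors supported on the stars -/
theorem Ev_frozen_gen (hd : TL.Stars St t k c) (B : Finset α) (F : α × α → MvPolynomial α ℤ[X])
    (hF : ∀ s ∈ St, F s ∈ MvPolynomial.supported ℤ[X] ((({t s, k s, c s} : Finset α)) : Set α))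
    (val : α × α → ℤ[X])
    (hone : ∀ s ∈ St, Ev (0 : ℤ[X]) ((∏ y ∈ B ∩ {t s, k s, c s}, MvPolynomial.X y) * F s) =
      (-1) ^ (B ∩ {t s, k s, c s}).card * val s) :
    Ev (0 : ℤ[X]) ((∏ y ∈ B, MvPolynomial.X y) * ∏ s ∈ St, F s) =
      (-1) ^ B.card * ∏ s ∈ St, val s := by
  -- the vertices of `B` outside the stars
  set U := St.biUnion (fun s => ({t s, k s, c s} : Finset α)) with hU
  have hunion : B = (B \ U) ∪ St.biUnion (fun s => B ∩ ({t s, k s, c s} : Finset α)) := by
    ext y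
    rw [mem_union, mem_sdiff, hU, mem_biUnion, mem_biUnion]
    constructor
    · intro h
      by_cases h1 : ∃ s ∈ St, y ∈ ({t s, k s, c s} : Finset α)
      · right
        obtain ⟨s, hs, h2⟩ := h1
        exact ⟨s, hs, mem_inter.2 ⟨h, h2⟩⟩
      · exact Or.inl ⟨h, h1⟩
    · rintro (h | ⟨s, _, h⟩)
      · exact h.1
      · exact (mem_inter.1 h).1
  have hdis1 : Disjoint (B \ U) (St.biUnion (fun s => B ∩ ({t s, k s, c s} : Finset α))) := by
    rw [Finset.disjoint_left]
    intro y hy hy'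
    rw [mem_biUnion] at hy'
    obtain ⟨s, hs, h⟩ := hy'
    exact (mem_sdiff.1 hy).2 (mem_biUnion.2 ⟨s, hs, (mem_inter.1 h).2⟩)
  have hdis2 : ∀ s ∈ St, ∀ s' ∈ St, s ≠ s' → Disjoint (B ∩ ({t s, k s, c s} : Finset α))
      (B ∩ ({t s', k s', c s'} : Finset α)) := fun s hs s' hs' hne =>
    (hd.dis s hs s' hs' hne).mono inter_subset_right inter_subset_right
  have hB : (∏ y ∈ B, (MvPolynomial.X y : MvPolynomial α ℤ[X])) =
      (∏ y ∈ B \ U, MvPolynomial.X y) * ∏ s ∈ St, ∏ y ∈ B ∩ {t s, k s, c s}, MvPolynomial.X y := by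
    rw [← Finset.prod_biUnion (fun s hs s' hs' h => hdis2 s hs s' hs' h),
      ← Finset.prod_union hdis1, ← hunion]
  have hcard : B.card = (B \ U).card + ∑ s ∈ St, (B ∩ {t s, k s, c s}).card := by
    rw [← Finset.card_biUnion (fun s hs s' hs' h => hdis2 s hs s' hs' h),
      ← card_union_of_disjoint hdis1, ← hunion]
  have hF' : ∀ s ∈ St, (∏ y ∈ B ∩ {t s, k s, c s}, MvPolynomial.X y) * F s ∈
      MvPolynomial.supported ℤ[X] ((({t s, k s, c s} : Finset α)) : Set α) := by
    intro s hs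
    exact mul_mem (prod_mem fun y hy => MvPolynomial.X_mem_supported.2
      (mem_coe.2 (mem_inter.1 hy).2)) (hF s hs)
  have hsplit : (∏ y ∈ B, MvPolynomial.X y) * ∏ s ∈ St, F s =
      (∏ y ∈ B \ U, MvPolynomial.X y) *
        ∏ s ∈ St, ((∏ y ∈ B ∩ {t s, k s, c s}, MvPolynomial.X y) * F s) := by
    rw [hB, prod_mul_distrib]
    ring
  have hdU : Disjoint ((B \ U : Finset α) : Set α) (U : Set α) := by
    rw [Finset.disjoint_coe]
    exact sdiff_disjoint
  rw [hsplit, Ev_mul (0 : ℤ[X]) hdU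
    (prod_mem fun y hy => MvPolynomial.X_mem_supported.2 (mem_coe.2 hy))
    (prod_mem fun s hs => MvPolynomial.supported_mono
      (by
        rw [hU]
        exact_mod_cast Finset.subset_biUnion_of_mem
          (fun s => ({t s, k s, c s} : Finset α)) hs) (hF' s hs)),
    Ev_prod_disj (0 : ℤ[X]) St (fun s => {t s, k s, c s}) hd.dis hF', Ev0_prodX, hcard,
    pow_add, mul_assoc, ← Finset.prod_pow_eq_pow_sum, ← prod_mul_distrib]
  congr 1
  exact prod_congr rfl hone

/-- a product of three variables, some of them present -/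
lemma prod_inter_three {t k c : α} (htk : t ≠ k) (hkc : k ≠ c) (htc : t ≠ c) (B : Finset α) :
    (∏ y ∈ B ∩ {t, k, c}, (MvPolynomial.X y : MvPolynomial α ℤ[X])) =
      MvPolynomial.X t ^ eP (t ∈ B) * (MvPolynomial.X k ^ eP (k ∈ B) *
        MvPolynomial.X c ^ eP (c ∈ B)) ∧
    (B ∩ {t, k, c}).card = eP (t ∈ B) + eP (k ∈ B) + eP (c ∈ B) := by
  have h1 : B ∩ {t, k, c} = ({t, k, c} : Finset α).filter (fun y => y ∈ B) := by
    ext y
    rw [mem_inter, mem_filter]
    tauto
  rw [h1]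
  have h2 : t ∉ ({k, c} : Finset α) := by
    rw [mem_insert, mem_singleton]
    tauto
  have h3 : k ∉ ({c} : Finset α) := by
    rw [mem_singleton]
    exact hkc
  constructor
  · rw [Finset.prod_filter, prod_insert h2, prod_insert h3, prod_singleton]
    unfold eP
    split_ifs <;> simp
  · rw [Finset.card_filter, sum_insert h2, sum_insert h3, sum_singleton]
    unfold eP
    by_cases h4 : t ∈ B <;> by_cases h5 : k ∈ B <;> by_cases h6 : c ∈ B <;> simp [h4, h5, h6]

/-- **frames at `w = 0`** -/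
theorem cc_frame (hg : Grad α) (hl : HasLower α i) (hdeg : ∀ p : α, (bd i p).card ≤ 2)
    (hS : StarCfg m St t k c) (κ : α → ℕ) {A B : Finset α} (hA : A ⊆ N1 α i)
    (hB : ∀ p ∈ A, (bd i p).card ≠ 2 ∨ ∃ v ∈ bd i p, κ v = 0 ∧ v ∈ B) :
    cc (Ev wA ((∏ y ∈ B, MvPolynomial.X y) * ∏ p ∈ N1 α i \ A, GA i κ p)) =
      (-1) ^ B.card * ∏ s ∈ St, Wst (κ (t s) ≠ 0) (κ (k s) ≠ 0) (κ (c s) ≠ 0)
        (t s ∈ B) (k s ∈ B) (c s ∈ B) := by
  set PB : MvPolynomial α ℤ[X] := ∏ y ∈ B, MvPolynomial.X y with hPB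
  have h1 : mc (∏ y ∈ B, MvPolynomial.X y) = PB := by
    rw [hPB, map_prod]
    exact prod_congr rfl fun y _ => MvPolynomial.map_X _ _
  -- the removed factors may be put back
  have h2 : EvEq (0 : ℤ[X]) (PB * ∏ p ∈ A, mc (GA i κ p)) (PB * 1) := by
    have h3 := EvEq_absorb_prod (A := PB) A (f := fun p => mc (GA i κ p)) (g := fun _ => 1)
      (w := (0 : ℤ[X])) (by
        intro p hp
        have hd : ds i p = 1 := mem_N1.1 (hA hp)
        rcases hB p hp with h | ⟨v, hv, h4, h5⟩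
        · have : mc (GA i κ p) = 1 := by
            rw [mc_GA hg hl hd (hdeg p) κ, if_neg h, add_zero]
          rw [this]
          exact EvEq.refl _
        · refine EvEq0_frozen (y := v) (Finset.dvd_prod_of_mem _ h5) ?_
          rw [mc_GA hg hl hd (hdeg p) κ]
          split_ifs
          · rw [add_sub_cancel_left]
            exact (X_dvd_M0 hv h4).mul_left _
          · rw [add_zero, sub_self]
            exact dvd_zero _)
    rw [prod_const_one] at h3
    exact h3
  have h3 : EvEq (0 : ℤ[X]) (PB * mc (∏ p ∈ N1 α i \ A, GA i κ p))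
      (PB * ∏ s ∈ St, mc (GA i κ s.2) * mc (GA i κ s.1)) := by
    have g1 : mc (∏ p ∈ N1 α i, GA i κ p) =
        mc (∏ p ∈ N1 α i \ A, GA i κ p) * ∏ p ∈ A, mc (GA i κ p) := by
      rw [← Finset.prod_sdiff hA, map_mul, map_prod mc _ A]
    have g2 := h2.mul_right (mc (∏ p ∈ N1 α i \ A, GA i κ p))
    have g3 := (EvEq0_N1 hg hl hdeg hS κ).mul_left PB
    refine (EvEq.of_eq ?_).trans (g2.symm.trans ((EvEq.of_eq ?_).trans g3))
    · ring
    · rw [g1]
      ring
  rw [cc_Ev, map_mul, h1, h3.ev]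
  apply Ev_frozen_gen hS.st B (fun s => mc (GA i κ s.2) * mc (GA i κ s.1))
  · intro s hs
    obtain ⟨h1, h2⟩ := star_rank hS hs
    refine mul_mem ?_ ?_
    · refine MvPolynomial.supported_mono ?_
        (mc_GA_mem hg hl (ds_one_iff.2 (Or.inr h2)) (hdeg _) κ)
      rw [hS.bx s hs]
      intro y hy
      simp only [coe_insert, coe_singleton, Set.mem_insert_iff, Set.mem_singleton_iff] at hy ⊢
      tauto
    · refine MvPolynomial.supported_mono ?_
        (mc_GA_mem hg hl (ds_one_iff.2 (Or.inl h1)) (hdeg _) κ)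
      rw [hS.bz s hs]
      intro y hy
      simp only [coe_insert, coe_singleton, Set.mem_insert_iff, Set.mem_singleton_iff] at hy ⊢
      tauto
  · intro s hs
    obtain ⟨h1, h2⟩ := star_rank hS hs
    obtain ⟨h4, h5⟩ := prod_inter_three (hS.st.tk s hs) (hS.st.kc s hs) (hS.st.tc s hs) B
    rw [h4, h5]
    exact Ev_star_gen hg hl h1 h2 (hS.bz s hs) (hS.bx s hs) (hS.st.kc s hs)
      (hS.st.tk s hs).symm (hS.st.tc s hs) κ _ _ _

/-- **the objects with one unit of energy on level `i`, at `w = 0`** (all degrees) -/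
theorem cc_ObY (hg : Grad α) (hl : HasLower α i) (hdeg : ∀ p : α, (bd i p).card ≤ 2)
    (hS : StarCfg m St t k c) {u y : α} (hu : u ∈ U2 α i) (hy : ObY i u y) :
    cc (Ev wA ((∏ v ∈ (BB i u).erase y, MvPolynomial.X v) * rsK i (ind {y}) u)) =
      (-1) ^ ((BB i u).erase y).card * ∏ s ∈ St, Wst (t s = y) (k s = y) (c s = y)
        (t s ∈ (BB i u).erase y) (k s ∈ (BB i u).erase y) (c s ∈ (BB i u).erase y) := by
  have hu' := mem_U2.1 hu
  have hind : ∀ v : α, (ind ({y} : Finset α) v ≠ 0) = (v = y) := by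
    intro v
    apply propext
    constructor
    · intro h
      by_contra h1
      exact h (ind_notMem (by rwa [mem_singleton]))
    · rintro rfl
      rw [ind_mem (mem_singleton_self v)]
      norm_num
  have h := cc_frame hg hl hdeg hS (ind {y}) (A := bd i u) (B := (BB i u).erase y)
    (bd_subset_N1 hg hu'.1) (by
      intro p hp
      by_cases h2 : (bd i p).card = 2
      · right
        obtain ⟨v, hv, hvy⟩ : ∃ v ∈ bd i p, v ≠ y := by
          by_contra h3
          push Not at h3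
          have h4 : bd i p ⊆ {y} := fun v hv => by rw [mem_singleton]; exact h3 v hv
          have := card_le_card h4
          rw [card_singleton] at this
          omega
        refine ⟨v, hv, ind_notMem (by rwa [mem_singleton]), ?_⟩
        rw [mem_erase]
        refine ⟨hvy, ?_⟩
        unfold BB
        exact mem_biUnion.2 ⟨p, hp, hv⟩
      · exact Or.inl h2)
  simp only [hind] at h
  exact h

end Pool.Gauss
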