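import Pool.Agent.Work.MP_065141_co.K.MInstA
import Pool.Agent.Work.MP_065141_co.K.StarDef

/-!
# Extraction of the coefficients of the model

The coefficients of `w` and of `w ^ 2` of the model (no object with four vertices) as sums.
-/

set_option autoImplicit false
set_option linter.unusedSectionVars false
open scoped Classical
open Finset

namespace Pool.Gauss

/-! ### coefficients -/

section coeffs

open TL

lemma cf_w_succ (d j : ℕ) (f : AA) : cf (d + 1) j (wA * f) = cf d j f := by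
  rw [cf_apply, cf_apply]
  congr 1
  exact PowerSeries.coeff_succ_X_mul d f

lemma cf_Z_succ (d j : ℕ) (f : AA) : cf d (j + 1) (ZA * f) = cf d j f := by
  rw [cf_apply, cf_apply, ZA, PowerSeries.coeff_C_mul, Polynomial.coeff_X_mul]

lemma cf_q_succ (d j : ℕ) (f : AA) : cf (d + 1) (j + 1) (qA * f) = cf d j f := by
  rw [qA, mul_assoc, cf_w_succ, cf_Z_succ]

lemma cf_w_pow (e d j : ℕ) (f : AA) : cf (d + e) j (wA ^ e * f) = cf d j f := by
  induction e generalizing f with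
  | zero => rw [pow_zero, one_mul, add_zero]
  | succ e ih =>
    have h : wA ^ (e + 1) * f = wA * (wA ^ e * f) := by ring
    rw [h, ← add_assoc, cf_w_succ, ih]

lemma cf_Z_pow (e d j : ℕ) (f : AA) : cf d (j + e) (ZA ^ e * f) = cf d j f := by
  induction e generalizing f with
  | zero => rw [pow_zero, one_mul, add_zero]
  | succ e ih =>
    have h : ZA ^ (e + 1) * f = ZA * (ZA ^ e * f) := by ring
    rw [h, ← add_assoc, cf_Z_succ, ih]

lemma cf_w_lt {e d j : ℕ} (h : d < e) (f : AA) : cf d j (wA ^ e * f) = 0 :=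
  cf_wT_pow_mul h f

lemma cf_Z_lt {e d j : ℕ} (h : j < e) (f : AA) : cf d j (ZA ^ e * f) = 0 := by
  rw [cf_apply, ZA, ← map_pow, PowerSeries.coeff_C_mul, Polynomial.coeff_X_pow_mul',
    if_neg (by omega)]

/-- congruence modulo a power of `w` -/
lemma cf_congr_w {e d j : ℕ} (h : d < e) {a b : AA} (hab : wA ^ e ∣ a - b) :
    cf d j a = cf d j b := by
  obtain ⟨r, hr⟩ := hab
  have h1 : a = b + wA ^ e * r := by rw [← hr]; ring
  rw [h1, map_add, cf_w_lt h, add_zero]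

lemma cf_sum {β : Type} (d j : ℕ) (s : Finset β) (f : β → AA) :
    cf d j (∑ x ∈ s, f x) = ∑ x ∈ s, cf d j (f x) := map_sum _ _ _

lemma cf_neg (d j : ℕ) (f : AA) : cf d j (-f) = - cf d j f := map_neg _ _

end coeffs

open TL

variable {α : Type} [Fintype α] [PartialOrder α] {i : ℕ}

/-- the sign of the side -/
noncomputable def sgz (i : ℕ) (u : α) : ℤ := if corank u < i then -1 else 1

lemma cf_sgn (d j : ℕ) (u : α) (f : AA) : cf d j (sgn i u * f) = sgz i u * cf d j f := by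
  unfold sgn sgz
  split_ifs
  · rw [neg_one_mul, neg_one_mul, cf_neg]
  · rw [one_mul, one_mul]

/-! ### the coefficients of the factors -/

lemma wA_dvd_lam_sub (p : α) : wA ^ 2 ∣ lam1 i p - lam i p := by
  have h := qA_sq_dvd_lam1 (i := i) p
  rw [← dvd_neg, neg_sub]
  exact (pow_dvd_pow_of_dvd wA_dvd_qA 2).trans h

lemma wA_dvd_lam1_sub (p : α) : wA ^ 1 ∣ 1 - lam1 i p := by
  rw [← dvd_neg, neg_sub, pow_one]
  exact wA_dvd_qA.trans (qA_dvd_lam1 p)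

/-- change of the coefficients -/
lemma Ev_prod_congr {e : ℕ} {a b : α → AA} (h : ∀ p, wA ^ e ∣ a p - b p) (k : α → ℕ) :
    wA ^ e ∣ Ev wA (∏ p ∈ N1 α i, (1 + MvPolynomial.C (a p) * EA i k p)) -
      Ev wA (∏ p ∈ N1 α i, (1 + MvPolynomial.C (b p) * EA i k p)) := by
  have h1 : MvPolynomial.C (wA ^ e) ∣ ∏ p ∈ N1 α i, (1 + MvPolynomial.C (a p) * EA i k p) -
      ∏ p ∈ N1 α i, (1 + MvPolynomial.C (b p) * EA i k p) := by
    apply prod_dvd_sub
    intro p _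
    have h2 : 1 + MvPolynomial.C (a p) * EA i k p - (1 + MvPolynomial.C (b p) * EA i k p) =
        MvPolynomial.C (a p - b p) * EA i k p := by
      rw [map_sub]
      ring
    rw [h2]
    exact (C_dvd (h p)).mul_right _
  obtain ⟨r, hr⟩ := h1
  rw [← map_sub, hr]
  exact ⟨Ev wA r, Ev_C_mul _ _ _⟩

/-- the value with the coefficients `lam` -/
noncomputable def VL (i : ℕ) (k : α → ℕ) : AA :=
  Ev wA (∏ p ∈ N1 α i, (1 + MvPolynomial.C (lam i p) * EA i k p))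

/-- the value with the coefficients `lam1` -/
noncomputable def VL1 (i : ℕ) (k : α → ℕ) : AA :=
  Ev wA (∏ p ∈ N1 α i, (1 + MvPolynomial.C (lam1 i p) * EA i k p))

/-- the value without coefficients -/
noncomputable def VG (i : ℕ) (k : α → ℕ) : AA := Ev wA (∏ p ∈ N1 α i, GA i k p)

lemma VG_eq (k : α → ℕ) : VG i k =
    Ev wA (∏ p ∈ N1 α i, (1 + MvPolynomial.C (1 : AA) * EA i k p)) := by
  unfold VG
  congr 1
  apply prod_congr rfl
  intro p _
  rw [map_one, one_mul, one_add_EA]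

lemma cf_VL1 (d j : ℕ) (hd : d < 2) (k : α → ℕ) : cf d j (VL1 i k) = cf d j (VL i k) :=
  cf_congr_w hd (Ev_prod_congr (fun p => wA_dvd_lam_sub p) k)

lemma cf_VG (j : ℕ) (k : α → ℕ) : cf 0 j (VG i k) = cf 0 j (VL1 i k) := by
  rw [VG_eq]
  exact cf_congr_w (Nat.zero_lt_one) (Ev_prod_congr (fun p => wA_dvd_lam1_sub p) k)

/-! ### no objects with four vertices -/

lemma TT_empty (h4 : U4 α i = ∅) : TT α i = ∅ := by
  rw [eq_empty_iff_forall_notMem]
  intro T hT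
  unfold TT at hT
  rw [mem_filter, mem_powersetCard] at hT
  obtain ⟨⟨hT1, hT2⟩, hT3, hT4⟩ := hT
  obtain ⟨u, hu⟩ : T.Nonempty := by
    rw [← card_pos, hT2]
    exact Nat.two_pos
  have h1 : bd i u ⊆ T.biUnion (bd i) := subset_biUnion_of_mem (bd i) hu
  have h2 : bd i u = T.biUnion (bd i) := by
    apply eq_of_subset_of_card_le h1
    rw [hT3, (mem_U2.1 (hT1 hu)).2]
  have h3 : u ∈ U4 α i := by
    unfold U4
    rw [mem_filter]
    refine ⟨hT1 hu, ?_⟩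
    rw [← BA_bd, h2]
    exact hT4
  rw [h4] at h3
  exact notMem_empty _ h3

/-- the value of an object with three vertices -/
noncomputable def V3 (i : ℕ) (u : α) : AA :=
  Ev wA ((∏ y ∈ BB i u, MvPolynomial.X y) * rsK i 0 u)

/-- the value of an object with one unit of energy at `y` -/
noncomputable def V3y (i : ℕ) (u y : α) : AA :=
  Ev wA ((∏ t ∈ (BB i u).erase y, MvPolynomial.X t) * rsK i (ind {y}) u)

/-- the sum over the objects with one unit of energy -/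
noncomputable def SY (α : Type) [Fintype α] [PartialOrder α] (i : ℕ) (j : ℕ) : ℤ :=
  ∑ u ∈ U2 α i, ∑ y ∈ (lev α i).filter (fun y => ObY i u y), cf 0 j (V3y i u y)

/-- **the coefficients of the model**, no object with four vertices -/
theorem exists_KNcf {h : Fin (Fintype.card α) → ℕ} (hG : IsGaussianWith α h)
    (hl : HasLower α i) (hdeg : ∀ p : α, (bd i p).card ≤ 2) (h4 : U4 α i = ∅) :
    ∃ KN : AA, Low KN ∧
      (cf 2 4 KN = cf 2 4 (VL i (0 : α → ℕ)) + ∑ y ∈ lev α i, cf 1 3 (VL1 i (ind {y})) +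
        ∑ k ∈ KL α i 2, cf 0 2 (VG i k) +
        ∑ u ∈ U3 α i, (sgz i u * cf 0 1 (V3 i u) + cf 0 0 (V3 i u)) + SY α i 0) ∧
      (cf 2 3 KN = cf 2 3 (VL i (0 : α → ℕ)) + ∑ y ∈ lev α i, cf 1 2 (VL1 i (ind {y})) +
        ∑ k ∈ KL α i 2, cf 0 1 (VG i k) + ∑ u ∈ U3 α i, sgz i u * cf 0 0 (V3 i u)) ∧
      ∀ n, cf 1 (n + 1) KN = cf 1 (n + 1) (VL i (0 : α → ℕ)) +
        ∑ y ∈ lev α i, cf 0 n (VL1 i (ind {y})) := by
  obtain ⟨KN, h1, ⟨R, Q, h2⟩, h3⟩ := exists_KNobj hG hl hdeg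
  have hVL : Ev wA (∏ p ∈ N1 α i, (1 + MvPolynomial.C (lam i p) * EA i 0 p)) = VL i (0 : α → ℕ) := rfl
  have hVL1 : ∀ k : α → ℕ, Ev wA (∏ p ∈ N1 α i, (1 + MvPolynomial.C (lam1 i p) * EA i k p)) =
      VL1 i k := fun _ => rfl
  have hVG : ∀ k : α → ℕ, Ev wA (∏ p ∈ N1 α i, GA i k p) = VG i k := fun _ => rfl
  have hV3 : ∀ u : α, Ev wA ((∏ y ∈ BB i u, MvPolynomial.X y) * rsK i 0 u) = V3 i u :=
    fun _ => rfl
  have hV3y : ∀ u y : α, Ev wA ((∏ t ∈ (BB i u).erase y, MvPolynomial.X t) *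
      rsK i (ind {y}) u) = V3y i u y := fun _ _ => rfl
  rw [TT_empty h4, h4, sum_empty, sum_empty] at h2
  simp only [hVL, hVL1, hVG, hV3, hV3y, mul_zero, add_zero] at h2
  refine ⟨KN, h1, ?_, ?_, ?_⟩
  · rw [h2]
    simp only [map_add]
    have e1 : cf 2 4 (ZA ^ 5 * R) = 0 := cf_Z_lt (by norm_num) R
    have e2 : cf 2 4 (wA ^ 3 * Q) = 0 := cf_w_lt (by norm_num) Q
    have e3 : cf 2 4 (qA * ∑ y ∈ lev α i, VL1 i (ind {y})) =
        ∑ y ∈ lev α i, cf 1 3 (VL1 i (ind {y})) := by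
      rw [cf_q_succ, cf_sum]
    have e4 : cf 2 4 (qA ^ 2 * ∑ k ∈ KL α i 2, VG i k) = ∑ k ∈ KL α i 2, cf 0 2 (VG i k) := by
      rw [pow_two, mul_assoc, cf_q_succ, cf_q_succ, cf_sum]
    have e5 : cf 2 4 (wA ^ 2 * ∑ u ∈ U3 α i, (sgn i u * ZA ^ 3 + ZA ^ 4) * V3 i u) =
        ∑ u ∈ U3 α i, (sgz i u * cf 0 1 (V3 i u) + cf 0 0 (V3 i u)) := by
      rw [cf_w_pow 2 0 4, cf_sum]
      apply sum_congr rfl
      intro u _
      have e6 : (sgn i u * ZA ^ 3 + ZA ^ 4) * V3 i u =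
          sgn i u * (ZA ^ 3 * V3 i u) + ZA ^ 4 * V3 i u := by ring
      rw [e6, map_add, cf_sgn, cf_Z_pow 3 0 1, cf_Z_pow 4 0 0]
    have e6 : cf 2 4 (wA ^ 2 * (ZA ^ 4 * ∑ u ∈ U2 α i,
        ∑ y ∈ (lev α i).filter (fun y => ObY i u y), V3y i u y)) = SY α i 0 := by
      rw [cf_w_pow 2 0 4, cf_Z_pow 4 0 0, cf_sum]
      unfold SY
      apply sum_congr rfl
      intro u _
      rw [cf_sum]
    rw [e1, e2, e3, e4, e5, e6]
    ring
  · rw [h2]
    simp only [map_add]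
    have e1 : cf 2 3 (ZA ^ 5 * R) = 0 := cf_Z_lt (by norm_num) R
    have e2 : cf 2 3 (wA ^ 3 * Q) = 0 := cf_w_lt (by norm_num) Q
    have e3 : cf 2 3 (qA * ∑ y ∈ lev α i, VL1 i (ind {y})) =
        ∑ y ∈ lev α i, cf 1 2 (VL1 i (ind {y})) := by
      rw [cf_q_succ, cf_sum]
    have e4 : cf 2 3 (qA ^ 2 * ∑ k ∈ KL α i 2, VG i k) = ∑ k ∈ KL α i 2, cf 0 1 (VG i k) := by
      rw [pow_two, mul_assoc, cf_q_succ, cf_q_succ, cf_sum]
    have e5 : cf 2 3 (wA ^ 2 * ∑ u ∈ U3 α i, (sgn i u * ZA ^ 3 + ZA ^ 4) * V3 i u) =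
        ∑ u ∈ U3 α i, sgz i u * cf 0 0 (V3 i u) := by
      rw [cf_w_pow 2 0 3, cf_sum]
      apply sum_congr rfl
      intro u _
      have e6 : (sgn i u * ZA ^ 3 + ZA ^ 4) * V3 i u =
          sgn i u * (ZA ^ 3 * V3 i u) + ZA ^ 4 * V3 i u := by ring
      rw [e6, map_add, cf_sgn, cf_Z_pow 3 0 0, cf_Z_lt (by norm_num), add_zero]
    have e6 : cf 2 3 (wA ^ 2 * (ZA ^ 4 * ∑ u ∈ U2 α i,
        ∑ y ∈ (lev α i).filter (fun y => ObY i u y), V3y i u y)) = 0 := by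
      rw [cf_w_pow 2 0 3, cf_Z_lt (by norm_num)]
    rw [e1, e2, e3, e4, e5, e6]
    ring
  · intro n
    obtain ⟨R, Q, h5⟩ := h3 (n + 4) (by omega)
    rw [h4, sum_empty] at h5
    simp only [hVL1, hVG, mul_zero, add_zero] at h5
    rw [h5]
    simp only [map_add]
    have e1 : cf 1 (n + 1) (ZA ^ (n + 4 + 1) * R) = 0 := cf_Z_lt (by omega) R
    have e2 : cf 1 (n + 1) (wA ^ 2 * Q) = 0 := cf_w_lt (by norm_num) Q
    have e3 : cf 1 (n + 1) (qA * ∑ y ∈ lev α i, VG i (ind {y})) =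
        ∑ y ∈ lev α i, cf 0 n (VL1 i (ind {y})) := by
      rw [cf_q_succ, cf_sum]
      apply sum_congr rfl
      intro y _
      rw [cf_VG]
    rw [e1, e2, e3, cf_VL1 1 (n + 1) (by norm_num)]
    ring

end Pool.Gauss
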