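import Pool.Agent.Work.MP_065141_co.K.ChainPln2
import Pool.Agent.Work.MP_065141_co.K.ItemB

/-!
# The numbers of the elements above a row in letters

`hN i z`, `kN i z` for `z` in row `i - 1` of a region in planar coordinates.
-/

set_option autoImplicit false
set_option linter.unusedSectionVars false
open scoped Classical
open Finset

namespace Pool.Gauss

variable {α : Type} [Fintype α] [PartialOrder α] {i : ℕ}

namespace CtxK

variable (C : CtxK α)
include C

/-- the single elements over an element above the row -/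
lemma ch_above {p : α} (hp : corank p + 1 = i) :
    ch i p = univ.filter fun v : α => Ch v = {p} := by
  ext u
  unfold ch
  rw [mem_filter, mem_U1, mem_filter]
  constructor
  · rintro ⟨⟨h1, _⟩, h3⟩
    refine ⟨mem_univ _, ?_⟩
    have h4 : p ∈ bd i u := by rw [h3]; simp
    have h5 : corank u + 2 = i := by
      have h6 := fr_ds C.grd (mem_bd.1 h4)
      unfold ds at h1 h6
      have h7 := mem_bd.1 h4
      unfold fr at h7
      rcases h7 with ⟨h8, _⟩ | ⟨_, h9⟩
      · omega
      · have := C.cork h9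
        omega
    rw [← C.relp_bd_above (i := i) (by omega), h3]
  · rintro ⟨_, h2⟩
    have h3 : p ∈ Ch u := by rw [h2]; simp
    have h4 := C.corank_of_mem_Ch h3
    have h5 : bd i u = {p} := by rw [C.relp_bd_above (i := i) (by omega), h2]
    refine ⟨⟨?_, ?_⟩, h5⟩
    · unfold ds
      omega
    · rw [h5]
      simp

/-- the single children of an element below the row -/
lemma ch_below {p : α} (hp : corank p = i + 1) :
    ch i p = univ.filter fun v : α => Pr v = {p} := by
  ext u
  unfold ch
  rw [mem_filter, mem_U1, mem_filter]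
  constructor
  · rintro ⟨⟨h1, _⟩, h3⟩
    refine ⟨mem_univ _, ?_⟩
    have h4 : p ∈ bd i u := by rw [h3]; simp
    have h5 : corank u = i + 2 := by
      have h6 := fr_ds C.grd (mem_bd.1 h4)
      unfold ds at h1 h6
      have h7 := mem_bd.1 h4
      unfold fr at h7
      rcases h7 with ⟨_, h8⟩ | ⟨h8, _⟩
      · have := C.cork h8
        omega
      · omega
    rw [← C.relp_bd_below (i := i) (by omega), h3]
  · rintro ⟨_, h2⟩
    have h3 : p ∈ Pr u := by rw [h2]; simp
    have h4 := C.corank_of_mem_Pr h3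
    have h5 : bd i u = {p} := by rw [C.relp_bd_below (i := i) (by omega), h2]
    refine ⟨⟨?_, ?_⟩, h5⟩
    · unfold ds
      omega
    · rw [h5]
      simp

/-- the single elements at distance three over an element at distance two above the row -/
lemma Gq_above {u : α} (hu : corank u + 2 = i) :
    Gq i u = univ.filter fun v : α => Ch v = {u} := by
  ext v
  rw [mem_Gq, mem_filter]
  constructor
  · rintro ⟨h1, h3⟩
    refine ⟨mem_univ _, ?_⟩
    have h4 : u ∈ bd i v := by rw [h3]; simp
    have h5 : corank v + 3 = i := by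
      have h7 := mem_bd.1 h4
      unfold ds at h1
      unfold fr at h7
      rcases h7 with ⟨h8, _⟩ | ⟨_, h9⟩
      · omega
      · have := C.cork h9
        omega
    rw [← C.relp_bd_above (i := i) (by omega), h3]
  · rintro ⟨_, h2⟩
    have h3 : u ∈ Ch v := by rw [h2]; simp
    have h4 := C.corank_of_mem_Ch h3
    have h5 : bd i v = {u} := by rw [C.relp_bd_above (i := i) (by omega), h2]
    refine ⟨?_, h5⟩
    unfold ds
    omega

end CtxK

namespace Pln

variable {lo hi : α → ℕ → ℕ} {f : α → ℕ → ℕ → α}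

/-- the number of letters S at the ends which the distance `n` from `s` reaches -/
noncomputable def nS (lo hi : α → ℕ → ℕ) (r : ℕ) (a : α) (s : Bool) (n : ℕ) : ℕ :=
  (if n = 0 ∧ lS lo hi r a s then 1 else 0) +
    (if n = wd lo hi (r + 1) a ∧ lS lo hi r a (!s) then 1 else 0)

/-- number of single elements over an element of the row above -/
theorem card_ch (h : Pln lo hi i f) (C : CtxK α) {r : ℕ} (hr : r + 2 = i) {a : α}
    (ha : corank a = 0) (s : Bool) {n : ℕ} (hn : n ≤ wd lo hi (r + 1) a) :
    (ch i (tp lo hi f (r + 1) a s n)).card = nS lo hi r a s n := by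
  have h1 := h.tp_cor (r := r + 1) (by omega) ha s hn
  rw [C.ch_above (by omega), h.card_up_single C (by omega) ha s hn]
  rfl

/-- there is none in the first row -/
theorem _root_.Pool.Gauss.CtxK.card_ch_zero (C : CtxK α) (hr : i = 1) {p : α}
    (hp : corank p = 0) : (ch i p).card = 0 := by
  rw [C.ch_above (by omega), card_eq_zero]
  ext v
  rw [mem_filter]
  refine ⟨?_, fun h1 => absurd h1 (notMem_empty _)⟩
  rintro ⟨_, hv⟩
  exfalso
  have h1 : p ∈ Ch v := by
    rw [hv]
    simp
  have h2 := C.corank_of_mem_Ch h1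
  omega

/-- the number of single elements over the single elements -/
theorem card_Gq (h : Pln lo hi i f) (C : CtxK α) {r : ℕ} (hr : r + 3 = i) {a : α}
    (ha : corank a = 0) (s : Bool) {n : ℕ} (hn : n ≤ wd lo hi (r + 1) a) :
    (Gq i (tp lo hi f (r + 1) a s n)).card = nS lo hi r a s n := by
  have h1 := h.tp_cor (r := r + 1) (by omega) ha s hn
  rw [C.Gq_above (by omega), h.card_up_single C (by omega) ha s hn]
  rfl

theorem _root_.Pool.Gauss.CtxK.card_Gq_zero (C : CtxK α) (hr : i = 2) {p : α}
    (hp : corank p = 0) : (Gq i p).card = 0 := by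
  rw [C.Gq_above (by omega), card_eq_zero]
  ext v
  rw [mem_filter]
  refine ⟨?_, fun h1 => absurd h1 (notMem_empty _)⟩
  rintro ⟨_, hv⟩
  exfalso
  have h1 : p ∈ Ch v := by
    rw [hv]
    simp
  have h2 := C.corank_of_mem_Ch h1
  omega

/-- the sum over the single elements over an element of the row above -/
theorem sum_ch (h : Pln lo hi i f) (C : CtxK α) {r : ℕ} (hr : r + 2 = i) {a : α}
    (ha : corank a = 0) (s : Bool) {n : ℕ} (hn : n ≤ wd lo hi (r + 1) a) (F : α → ℤ) :
    ∑ u ∈ ch i (tp lo hi f (r + 1) a s n), F u =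
      (if n = 0 ∧ lS lo hi r a s then F (tp lo hi f r a s 0) else 0) +
        (if n = wd lo hi (r + 1) a ∧ lS lo hi r a (!s) then F (tp lo hi f r a (!s) 0) else 0) := by
  have h1 := h.tp_cor (r := r + 1) (by omega) ha s hn
  have h2 := h.card_up_single C (r := r) (by omega) ha s hn
  rw [C.ch_above (by omega)]
  rw [h.up_single C (by omega) ha s hn] at h2 ⊢
  rw [sum_union]
  · congr 1
    · split_ifs <;> simp
    · split_ifs <;> simp
  · by_contra h3
    have h4 := card_union_add_card_inter
      (if n = 0 ∧ lS lo hi r a s then {tp lo hi f r a s 0} else ∅)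
      (if n = wd lo hi (r + 1) a ∧ lS lo hi r a (!s) then {tp lo hi f r a (!s) 0} else (∅ : Finset α))
    rw [h2] at h4
    have h5 : ∀ (P : Prop) [Decidable P] (x : α),
        (if P then ({x} : Finset α) else ∅).card = if P then 1 else 0 := by
      intro P _ x
      split_ifs <;> simp
    rw [h5, h5] at h4
    apply h3
    rw [disjoint_iff_inter_eq_empty, ← card_eq_zero]
    omega

/-- **`hN` above the row in letters** -/
theorem hN_above (h : Pln lo hi i f) (C : CtxK α) {r : ℕ} (hr : r + 2 = i) {a : α}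
    (ha : corank a = 0) (s : Bool) {n : ℕ} (hn : n ≤ wd lo hi (r + 1) a) :
    hN i (tp lo hi f (r + 1) a s n) = nS lo hi r a s n := by
  unfold hN
  rw [h.card_ch C hr ha s hn]

/-- **`kN` above the row in letters** -/
theorem kN_above (h : Pln lo hi i f) (C : CtxK α) {r : ℕ} (hr : r + 3 = i) {a : α}
    (ha : corank a = 0) (s : Bool) {n : ℕ} (hn : n ≤ wd lo hi (r + 2) a) :
    kN i (tp lo hi f (r + 2) a s n) = ((nS lo hi (r + 1) a s n).choose 2 : ℕ) +
      ((if n = 0 ∧ lS lo hi (r + 1) a s then (nS lo hi r a s 0 : ℤ) else 0) +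
        (if n = wd lo hi (r + 2) a ∧ lS lo hi (r + 1) a (!s) then (nS lo hi r a (!s) 0 : ℤ)
          else 0)) := by
  unfold kN
  rw [h.card_ch C (by omega) ha s hn, h.sum_ch C (by omega) ha s hn]
  rw [h.card_Gq C hr ha s (Nat.zero_le _), h.card_Gq C hr ha (!s) (Nat.zero_le _)]

/-! ### the pairs and the single elements of row `i` -/

/-- the element above the pair at distance `n`, `n + 1` -/
lemma nS_pair (h : Pln lo hi i f) {r : ℕ} (hr : r + 2 ≤ i) {a : α} (ha : corank a = 0) (s : Bool)
    {n : ℕ} (hn : n + 1 ≤ wd lo hi (r + 2) a) :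
    nS lo hi r a s (n + sh lo hi (r + 1) a s) =
      (if n = 0 ∧ ¬ lS lo hi (r + 1) a s ∧ lS lo hi r a s then 1 else 0) +
      (if n + 1 = wd lo hi (r + 2) a ∧ ¬ lS lo hi (r + 1) a (!s) ∧ lS lo hi r a (!s)
        then 1 else 0) := by
  have hw := h.wd_succ (r := r + 1) (by omega) ha s
  have h1 := sh_zero (lo := lo) (hi := hi) (r := r + 1) (a := a) (s := s)
  have h2 := sh_zero (lo := lo) (hi := hi) (r := r + 1) (a := a) (s := !s)
  have h3 := sh_one (lo := lo) (hi := hi) (r := r + 1) (a := a) (s := s)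
  have h4 := sh_one (lo := lo) (hi := hi) (r := r + 1) (a := a) (s := !s)
  have e : r + 1 + 1 = r + 2 := rfl
  rw [e] at hw
  unfold nS
  congr 1
  · by_cases h5 : lS lo hi r a s
    · by_cases h6 : lS lo hi (r + 1) a s
      · rw [if_neg (by have := h3.2 h6; omega), if_neg (fun h7 => h7.2.1 h6)]
      · have h7 := h1.2 h6
        rw [h7, Nat.add_zero]
        by_cases h8 : n = 0
        · rw [if_pos ⟨h8, h5⟩, if_pos ⟨h8, h6, h5⟩]
        · rw [if_neg (fun h9 => h8 h9.1), if_neg (fun h9 => h8 h9.1)]
    · rw [if_neg (fun h7 => h5 h7.2), if_neg (fun h7 => h5 h7.2.2)]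
  · by_cases h5 : lS lo hi r a (!s)
    · by_cases h6 : lS lo hi (r + 1) a (!s)
      · have h7 := h4.2 h6
        rw [if_neg (by omega), if_neg (fun h7 => h7.2.1 h6)]
      · have h7 := h2.2 h6
        by_cases h8 : n + 1 = wd lo hi (r + 2) a
        · rw [if_pos ⟨by omega, h5⟩, if_pos ⟨h8, h6, h5⟩]
        · rw [if_neg (by omega), if_neg (fun h9 => h8 h9.1)]
    · rw [if_neg (fun h7 => h5 h7.2), if_neg (fun h7 => h5 h7.2.2)]

/-- **the number `hN` of the element above a pair of neighbours**: the letters SE at the end of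
the strip next to the pair -/
theorem hN_pair (h : Pln lo hi i f) (C : CtxK α) {r : ℕ} (hr : r + 2 = i) {a : α}
    (ha : corank a = 0) (s : Bool) {n : ℕ} (hn : n + 1 ≤ wd lo hi i a) {z : α}
    (hz : Ch z = {tp lo hi f i a s n, tp lo hi f i a s (n + 1)}) :
    hN i z = ((if n = 0 ∧ ¬ lS lo hi (r + 1) a s ∧ lS lo hi r a s then 1 else 0) +
      (if n + 1 = wd lo hi i a ∧ ¬ lS lo hi (r + 1) a (!s) ∧ lS lo hi r a (!s)
        then 1 else 0) : ℕ) := by
  subst hr
  have hw := h.wd_succ (r := r + 1) (by omega) ha s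
  have hs := sh_le (lo := lo) (hi := hi) (r + 1) a (!s)
  have e : r + 1 + 1 = r + 2 := rfl
  rw [e] at hw
  have h1 := h.Ch_up_unique C (r := r + 1) (by omega) ha s hn hz
  rw [h1, h.hN_above C rfl ha s (by omega), h.nS_pair le_rfl ha s hn]

end Pln

end Pool.Gauss
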