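import Pool.Agent.Work.MP_065141_co.K.ThreeLev9
import Pool.Agent.Work.MP_065141_co.K.StarEqn

/-!
# The first and second order equations of a region with vertex-disjoint stars, in numbers
-/

set_option autoImplicit false
set_option linter.unusedSectionVars false
open scoped Classical
open Finset MvPolynomial

namespace Pool.Gauss

attribute [-instance] instDecidableEqProd

namespace TL.SDat

variable {Y ι σ : Type} {D : SDat Y ι σ} {L : Finset Y}

lemma exists_rho0 (D : SDat Y ι σ) : ∃ rho : ι ⊕ σ → MvPolynomial Y TA, ∀ j, D.d0.Is j (rho j) :=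
  ⟨fun j => C (ZT ^ 1 * wT ^ 1) * up (D.d0.phi j) + C (ZT ^ 2 * wT ^ 1) * up (D.d0.A j) +
    C (ZT ^ 1 * wT ^ 2) * up (D.d0.xi j) + C (ZT ^ 2 * wT ^ 2) * up (D.d0.chi j) +
    C (ZT ^ 3 * wT ^ 2) * up (D.d0.kp j), fun j => by
      rw [ItD.Is, sub_self]
      exact dvd_zero _⟩

lemma exists_rho1 (D : SDat Y ι σ) : ∃ rho : Y → ι ⊕ σ → MvPolynomial Y TA,
    ∀ y j, (D.d1 y).Is2 j (rho y j) :=
  ⟨fun y j => C (ZT ^ 1 * wT ^ 1) * up ((D.d1 y).phi j) + C (ZT ^ 2 * wT ^ 1) * up ((D.d1 y).A j),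
    fun y j => by
      rw [ItD.Is2, sub_self]
      exact dvd_zero _⟩

lemma exists_fr (D : SDat Y ι σ) (s : σ) (y : Y) : ∃ f : MvPolynomial Y TA,
    IsFrame f (D.frU s y) (D.frV s y) 0 0 (D.frP s y) :=
  ⟨1 + C ZT * up (D.frU s y) + C ZT * (C ZT * up (D.frV s y)) + C wT * (C ZT * up 0) +
    C wT * (C ZT * (C ZT * up 0)) + C wT * (C ZT * (C ZT * (C ZT * up (D.frP s y)))), by
      rw [IsFrame, sub_self]
      exact dvd_zero _⟩

/-- the value of the terms at energy zero -/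
theorem a24_val (h : D.Ok L) : 2 * D.a24 =
    2 * D.vHH + 4 * D.vHo + 2 * D.vOO + 4 * D.vHK + 4 * D.vQ + 4 * D.vS + D.vT := by
  obtain ⟨rho, hr⟩ := exists_rho0 D
  have h1 := cf24_val h (rho := rho) fun j _ => hr j
  have h2 := cf24_Full h.st h.supp0 (rho := rho) fun j _ => hr j
  have h3 : 2 * cfE 2 4 (Full D.J D.St D.t D.k D.c rho) = D.a24 := h2
  linear_combination h1 - 2 * h3

/-- **the value of the second order side** -/
theorem R24_val (h : D.Ok L) :
    2 * D.R24 L = D.F42q L.card + 4 * (((L.card : ℤ) - 2) * D.St.card) := by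
  obtain ⟨rho, hr⟩ := exists_rho1 D
  choose f hf using exists_fr D
  have h1 := sum_one_val h rho (fun y _ j _ => hr y j) (fun s _ y _ j _ => hr y j) f
    (fun _ _ => 0) (fun _ _ => 0) (fun s _ y _ => hf s y) (fun _ _ _ _ => zero_mem _)
    (fun _ _ _ _ => zero_mem _)
  have h2 : ∑ y ∈ L \ D.UU, cfE 1 3 (Full D.J D.St D.t D.k D.c (rho y)) =
      ∑ y ∈ L \ D.St.biUnion (VS D.t D.k D.c), D.w13 y := by
    apply sum_congr rfl
    intro y _
    exact cf1_Full_one h.st (h.supp1 y (subset_refl _)) (fun j _ => hr y j) 1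
  have h3 : ∑ s ∈ D.St, ∑ y ∈ VS D.t D.k D.c s,
        cfE 1 3 (f s y * Full D.J (D.St.erase s) D.t D.k D.c (rho y)) =
      ∑ s ∈ D.St, ∑ y ∈ VS D.t D.k D.c s, D.f13 s y := by
    apply sum_congr rfl
    intro s hs
    apply sum_congr rfl
    intro y hy
    have hU : ∀ s' ∈ D.St.erase s, Disjoint (VS D.t D.k D.c s) (VS D.t D.k D.c s') := by
      intro s' hs'
      rw [mem_erase] at hs'
      exact h.st.disj hs hs'.2 hs'.1.symm
    exact cf1_frame (h.st.sub (erase_subset s D.St)) (h.supp1 y (erase_subset _ _)) hU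
      (fun j _ => hr y j) (hf s y) (frU_mem h hs y) (frV_mem s y) (zero_mem _) (zero_mem _)
      (frP_mem s y)
  rw [h2, h3] at h1
  have h4 := a24_val h
  rw [R24, F42q]
  linear_combination h4 + 2 * h1

/-- `F21` -/
theorem R1_zero (h : D.Ok L) : D.R1 0 = D.F21 := by
  obtain ⟨rho, hr⟩ := exists_rho0 D
  have h1 := cf12_val h (rho := rho) fun j _ => (hr j).two
  have h2 := cf1_Full_one h.st h.supp0 (rho := rho) (fun j _ => (hr j).two) 0
  rw [zero_add, h1] at h2
  have h3 : ∑ s ∈ D.St, ∑ y ∈ VS D.t D.k D.c s, ((if (0 : ℕ) = 0 then E0 (D.frU s y) else 0) +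
      (if (0 : ℕ) = 1 then E0 (D.frV s y) else 0)) = 0 := by
    apply Finset.sum_eq_zero
    intro s hs
    simp only [if_true, zero_ne_one, if_false, add_zero]
    exact sum_frU_one h hs
  rw [R1, h3, F21, add_zero]
  exact h2.symm

lemma sum_frV_one (h : D.Ok L) {s : σ} (hs : s ∈ D.St) :
    ∑ y ∈ VS D.t D.k D.c s, E0 (D.frV s y) = -1 := by
  have h3 := h.st.tc s hs
  rw [sum_VS h hs, frV_t h hs, frV_c h hs, frV_k, map_zero, zero_add, add_zero, ← am_pair h3,
    map_neg, E0_am, card_pair h3]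
  norm_num

/-- twice `F32` -/
theorem R1_one (h : D.Ok L) : 2 * D.R1 1 = D.F32t := by
  obtain ⟨rho, hr⟩ := exists_rho0 D
  have h1 := cf13_val h (rho := rho) fun j _ => (hr j).two
  have h2 := cf1_Full_one h.st h.supp0 (rho := rho) (fun j _ => (hr j).two) 1
  have h3 : ∑ s ∈ D.St, ∑ y ∈ VS D.t D.k D.c s, ((if (1 : ℕ) = 0 then E0 (D.frU s y) else 0) +
      (if (1 : ℕ) = 1 then E0 (D.frV s y) else 0)) = - D.St.card := by
    have : ∀ s ∈ D.St, ∑ y ∈ VS D.t D.k D.c s, ((if (1 : ℕ) = 0 then E0 (D.frU s y) else 0) +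
      (if (1 : ℕ) = 1 then E0 (D.frV s y) else 0)) = -1 := by
      intro s hs
      simp only [if_true, one_ne_zero, if_false, zero_add]
      exact sum_frV_one h hs
    rw [sum_congr rfl this, sum_const, nsmul_eq_mul]
    ring
  rw [R1, h3, F32t]
  rw [show 1 + 2 = 3 from rfl] at h2
  linear_combination h1 - 2 * h2

/-- twice `F43` -/
theorem R1_two (h : D.Ok L) : 2 * D.R1 2 = ∑ p ∈ D.St.offDiag, D.bb p.1 p.2 := by
  obtain ⟨rho, hr⟩ := exists_rho0 D
  have h1 := cf14_val h (rho := rho) fun j _ => (hr j).two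
  have h2 := cf1_Full_one h.st h.supp0 (rho := rho) (fun j _ => (hr j).two) 2
  have h3 : ∑ s ∈ D.St, ∑ y ∈ VS D.t D.k D.c s, ((if (2 : ℕ) = 0 then E0 (D.frU s y) else 0) +
      (if (2 : ℕ) = 1 then E0 (D.frV s y) else 0)) = 0 := by
    apply Finset.sum_eq_zero
    intro s _
    apply Finset.sum_eq_zero
    intro y _
    norm_num
  rw [R1, h3]
  rw [show 2 + 2 = 4 from rfl] at h2
  linear_combination h1 - 2 * h2

end TL.SDat

variable {α : Type} [Fintype α] [PartialOrder α] {i : ℕ} {m : Mat α i}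
  {St : Finset (α × α)} {t k c : α × α → α}

/-- the constant terms: two units of energy on the row, elements with three vertices -/
noncomputable def cst24 (α : Type) [Fintype α] [PartialOrder α] (i : ℕ) : ℤ :=
  ∑ k ∈ KL α i 2, TL.cf 0 2 (VG i k) +
    ∑ u ∈ U3 α i, (sgz i u * TL.cf 0 1 (V3 i u) + TL.cf 0 0 (V3 i u)) + SY α i 0

/-- **the local equation of a region with vertex-disjoint stars**, constant terms not evaluated -/
theorem StarCfg.local_eq {h : Fin (Fintype.card α) → ℕ} (hG : IsGaussianWith α h)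
    (hl : HasLower α i) (hdeg : ∀ p : α, (bd i p).card ≤ 2) (h4 : U4 α i = ∅)
    (hC : StarCfg m St t k c) :
    (sdat m St t k c).F21 = 0 ∧ (sdat m St t k c).F32t = 0 ∧
    ∑ p ∈ St.offDiag, (sdat m St t k c).bb p.1 p.2 = 0 ∧
    (sdat m St t k c).loc4 + 4 * ((((lev α i).card : ℤ) - 2) * St.card + cst24 α i) = 0 := by
  obtain ⟨h1, h2⟩ := hC.eqn hG hl hdeg h4
  have hok := sdat_ok (grad hG) hC
  have e0 : (sdat m St t k c).F21 = 0 := by rw [← TL.SDat.R1_zero hok, h2]
  have e1 : (sdat m St t k c).F32t = 0 := by rw [← TL.SDat.R1_one hok, h2, mul_zero]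
  have e2 : ∑ p ∈ St.offDiag, (sdat m St t k c).bb p.1 p.2 = 0 := by
    have := TL.SDat.R1_two hok
    rw [h2, mul_zero] at this
    exact this.symm
  refine ⟨e0, e1, e2, ?_⟩
  have e3 := TL.SDat.R24_val hok
  have e4 := TL.SDat.F42q_eq hok (lev α i).card
  rw [e0, e1] at e4
  have e5 : ((sdat m St t k c).St.card : ℤ) = St.card := rfl
  rw [e5] at e3
  have e6 : (sdat m St t k c).R24 (lev α i) + 2 * cst24 α i = 0 := h1
  linear_combination 2 * e6 - e3 - e4

end Pool.Gauss
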