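import Pool.Agent.Work.MP_065141_co.K.KWD

/-!
# Matching polynomials of a row whose clusters are stars
-/

set_option autoImplicit false
set_option linter.unusedSectionVars false
set_option linter.unusedVariables false
open scoped Classical
open Finset Polynomial

namespace Pool.Gauss

section general

variable {V ι : Type}

lemma MP_eq_one_of_zero {W : Finset V → ℤ} {R : Finset V}
    (h : ∀ s ⊆ R, s.card = 2 → W s = 0) : MP W R = 1 := by
  rw [MP, sum_eq_single ∅]
  · simp
  · intro F hF hne
    obtain ⟨s, hs⟩ := nonempty_iff_ne_empty.2 hne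
    rw [mem_mtc] at hF
    rw [prod_eq_zero hs (h s (hF.1 s hs).1 (hF.1 s hs).2)]
    simp
  · intro h0
    exfalso
    apply h0
    rw [mem_mtc]
    simp

/-- the polynomial is the product over disjoint clusters -/
theorem MP_prod {W : Finset V → ℤ} (I : Finset ι) (U : ι → Finset V) (R : Finset V)
    (hd : ∀ j ∈ I, ∀ j' ∈ I, j ≠ j' → Disjoint (U j) (U j'))
    (hW : ∀ s ⊆ R, s.card = 2 → W s ≠ 0 → ∃ j ∈ I, s ⊆ U j) :
    MP W R = ∏ j ∈ I, MP W (R ∩ U j) := by
  induction I using Finset.induction_on generalizing R with
  | empty =>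
    rw [prod_empty]
    apply MP_eq_one_of_zero
    intro s hs hs2
    by_contra h
    obtain ⟨j, hj, _⟩ := hW s hs hs2 h
    simp at hj
  | insert j I hj ih =>
    have h1 : R = (R ∩ U j) ∪ (R \ U j) := by
      ext y
      simp only [mem_union, mem_inter, mem_sdiff]
      tauto
    have h2 : Disjoint (R ∩ U j) (R \ U j) := by
      rw [Finset.disjoint_left]
      intro y hy hy'
      exact (mem_sdiff.1 hy').2 (mem_inter.1 hy).2
    have h3 : Sep W (R ∩ U j) (R \ U j) := by
      intro a ha b hb
      rw [mem_inter] at ha
      rw [mem_sdiff] at hb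
      have hab : a ≠ b := by
        rintro rfl
        exact hb.2 ha.2
      by_contra h
      obtain ⟨j', hj', h4⟩ := hW {a, b} (by
        intro y hy
        rw [mem_insert, mem_singleton] at hy
        rcases hy with rfl | rfl
        · exact ha.1
        · exact hb.1) (card_pair hab) h
      have h5 : a ∈ U j' := h4 (by simp)
      have h6 : b ∈ U j' := h4 (by simp)
      have h7 : j ≠ j' := by
        rintro rfl
        exact hb.2 h6
      exact Finset.disjoint_left.1 (hd j (mem_insert_self _ _) j' hj' h7) ha.2 h5
    rw [prod_insert hj]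
    conv_lhs => rw [h1]
    rw [MP_union h2 h3, ih (R \ U j) (fun a ha b hb => hd a (mem_insert_of_mem ha) b
      (mem_insert_of_mem hb))]
    · congr 1
      apply prod_congr rfl
      intro j' hj'
      congr 1
      ext y
      rw [mem_inter, mem_inter, mem_sdiff]
      constructor
      · rintro ⟨⟨h4, h5⟩, h6⟩
        exact ⟨h4, h6⟩
      · rintro ⟨h4, h6⟩
        refine ⟨⟨h4, fun h5 => ?_⟩, h6⟩
        have h7 : j ≠ j' := by
          rintro rfl
          exact hj hj'
        exact Finset.disjoint_left.1 (hd j (mem_insert_self _ _) j' (mem_insert_of_mem hj') h7) h5 h6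
    · intro s hs hs2 h
      obtain ⟨j', hj', h4⟩ := hW s (hs.trans sdiff_subset) hs2 h
      rw [mem_insert] at hj'
      rcases hj' with rfl | hj'
      · exfalso
        obtain ⟨y, hy⟩ : s.Nonempty := by
          rw [← card_pos]
          omega
        exact (mem_sdiff.1 (hs hy)).2 (h4 hy)
      · exact ⟨j', hj', h4⟩

lemma MP_pair (W : Finset V → ℤ) {a b : V} (hab : a ≠ b) :
    MP W {a, b} = 1 + C (W {a, b}) * X := by
  rw [MP_expand W (mem_insert_self a {b})]
  have h1 : ({a, b} : Finset V).erase a = {b} := by
    rw [erase_insert]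
    rwa [mem_singleton]
  rw [h1, sum_singleton, erase_singleton]
  have h2 : MP W (∅ : Finset V) = 1 := MP_eq_one_of_zero fun s hs h => by
    have := card_le_card hs
    simp at this
    rw [this] at h
    simp at h
  have h3 : MP W ({b} : Finset V) = 1 := MP_eq_one_of_zero fun s hs h => by
    have := card_le_card hs
    rw [card_singleton] at this
    omega
  rw [h2, h3, mul_one]

lemma MP_small (W : Finset V → ℤ) {R : Finset V} (h : R.card ≤ 1) : MP W R = 1 :=
  MP_eq_one_of_zero fun s hs h2 => by
    have := card_le_card hs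
    omega

lemma MP_triple (W : Finset V → ℤ) {a b c : V} (hab : a ≠ b) (hac : a ≠ c) (hbc : b ≠ c) :
    MP W {a, b, c} = 1 + C (W {a, b} + W {b, c} + W {a, c}) * X := by
  rw [MP_expand W (mem_insert_self a {b, c})]
  have h1 : ({a, b, c} : Finset V).erase a = {b, c} := by
    rw [erase_insert]
    rw [mem_insert, mem_singleton]
    tauto
  rw [h1, MP_pair W hbc, sum_insert (by rwa [mem_singleton]), sum_singleton]
  have h2 : ∀ x : V, (({b, c} : Finset V).erase x).card ≤ 1 ∨ x ∉ ({b, c} : Finset V) := by
    intro x
    by_cases hx : x ∈ ({b, c} : Finset V)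
    · left
      rw [card_erase_of_mem hx, card_pair hbc]
    · exact Or.inr hx
  have h3 : MP W (({b, c} : Finset V).erase b) = 1 := by
    rcases h2 b with h | h
    · exact MP_small W h
    · simp at h
  have h4 : MP W (({b, c} : Finset V).erase c) = 1 := by
    rcases h2 c with h | h
    · exact MP_small W h
    · simp at h
  rw [h3, h4, C_add, C_add]
  ring

end general

end Pool.Gauss
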