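import Pool.Agent.Work.MP_065141_co.K.StarCfg
import Pool.Agent.Work.MP_065141_co.K.KStar
import Pool.Agent.Work.MP_065141_co.K.Comps
import Pool.Agent.Work.MP_065141_co.K.RelPK

/-!
# From the classification of the clusters to the data of a region with stars

`stars_of_comps`: if every cluster of row `i` is a chain with one lost pair, the support of `Wt i`
is a family of vertex-disjoint stars.  `exists_starCfg`: such a row has a maximal matching whose
unmatched elements form a `StarCfg`.
-/

set_option autoImplicit false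
set_option linter.unusedSectionVars false
open scoped Classical
open Finset

namespace Pool.Gauss

variable {α : Type} [Fintype α] [PartialOrder α] {i : ℕ}

/-- **stars from the classification** -/
theorem stars_of_comps [Nonempty α] (h : ∀ U ∈ Clu.comps (lev α i) (Wt i),
    ∃ (T : Finset α) (y c : ℕ → α), Clu.IsChain U T (Wt i) 1 y c) :
    ∃ t k c : Finset α → α, Stars i (Clu.comps (lev α i) (Wt i)) t k c ∧
      (∀ U ∈ Clu.comps (lev α i) (Wt i), U = {t U, k U, c U}) := by
  have key : ∀ U, ∃ (T : Finset α) (y c : ℕ → α), U ∈ Clu.comps (lev α i) (Wt i) →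
      Clu.IsChain U T (Wt i) 1 y c := by
    intro U
    by_cases hU : U ∈ Clu.comps (lev α i) (Wt i)
    · obtain ⟨T, y, c, hc⟩ := h U hU
      exact ⟨T, y, c, fun _ => hc⟩
    · exact ⟨∅, fun _ => Classical.arbitrary α, fun _ => Classical.arbitrary α,
        fun h1 => absurd h1 hU⟩
  choose T y c hch using key
  have hU3 : ∀ U ∈ Clu.comps (lev α i) (Wt i), U = {y U 0, y U 1, c U 1} := by
    intro U hU
    have hc := hch U hU
    ext v
    rw [mem_insert, mem_insert, mem_singleton]
    constructor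
    · intro hv
      rcases hc.ver v hv with ⟨j, hj, rfl⟩ | ⟨j, h1, h2, rfl⟩
      · rcases (show j = 0 ∨ j = 1 by omega) with rfl | rfl
        · exact Or.inl rfl
        · exact Or.inr (Or.inl rfl)
      · have : j = 1 := by omega
        subst this
        exact Or.inr (Or.inr rfl)
    · rintro (rfl | rfl | rfl)
      · exact (hc.tip 0 (by omega)).1
      · exact (hc.tip 1 (by omega)).1
      · exact (hc.inn 1 (by omega) (by omega)).1
  have hsub : ∀ U ∈ Clu.comps (lev α i) (Wt i), U ⊆ lev α i := fun U hU =>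
    (Clu.mem_comps.1 hU).1
  refine ⟨fun U => y U 0, fun U => y U 1, fun U => c U 1, ⟨?_, ?_, ?_, ?_, ?_, ?_, ?_, ?_, ?_, ?_⟩,
    hU3⟩
  · intro U hU
    exact hsub U hU ((hch U hU).tip 0 (by omega)).1
  · intro U hU
    exact hsub U hU ((hch U hU).tip 1 (by omega)).1
  · intro U hU
    exact hsub U hU ((hch U hU).inn 1 (by omega) (by omega)).1
  · intro U hU h1
    have := (hch U hU).yinj 0 (by omega) 1 (by omega) h1
    omega
  · intro U hU h1
    have h2 := (hch U hU).inn 1 (by omega) (by omega)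
    apply h2.2
    rw [← h1]
    exact ((hch U hU).tip 1 (by omega)).2
  · intro U hU h1
    have h2 := (hch U hU).inn 1 (by omega) (by omega)
    apply h2.2
    rw [← h1]
    exact ((hch U hU).tip 0 (by omega)).2
  · intro U hU U' hU' hne
    have h1 := Clu.comps_disj hU hU' hne
    rw [hU3 U hU, hU3 U' hU'] at h1
    exact h1
  · intro U hU
    exact (hch U hU).new 0 (by omega)
  · intro U hU
    exact (hch U hU).lost 1 (by omega) (by omega)
  · intro s hs h2 hW
    obtain ⟨U, hU, hsU⟩ := Clu.exists_comp (R := lev α i) (W := Wt i)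
      (mem_powersetCard.2 ⟨hs, h2⟩) hW
    refine ⟨U, hU, ?_⟩
    rcases (hch U hU).all s (mem_powersetCard.2 ⟨hsU, h2⟩) hW with ⟨j, hj, h3⟩ | ⟨j, h3, h4, h5⟩
    · have : j = 0 := by omega
      subst this
      exact Or.inl h3
    · have : j = 1 := by omega
      subst this
      exact Or.inr h5

namespace CtxK

variable (C : CtxK α)
include C

lemma card_DX_eq {s : Finset α} (hs : s.card = 2) :
    ((DX α i).filter fun p => bd i p = s).card = mC i s := by
  unfold mC
  congr 1
  ext p
  rw [mem_filter, mem_filter, mem_DX, mem_lev]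
  constructor
  · rintro ⟨⟨h1, _⟩, h3⟩
    exact ⟨h1, by rw [← C.relp_bd_below (i := i) (p := p) (by omega)]; exact h3⟩
  · rintro ⟨h1, h2⟩
    have h3 := C.relp_bd_below (i := i) (p := p) (by omega)
    exact ⟨⟨h1, by rw [h3, h2, hs]⟩, by rw [h3, h2]⟩

lemma card_DZ_eq {s : Finset α} (hs : s.card = 2) :
    ((DZ α i).filter fun p => bd i p = s).card = mD i s := by
  unfold mD
  congr 1
  ext p
  rw [mem_filter, mem_filter, mem_DZ, mem_lev']
  constructor
  · rintro ⟨⟨h1, _⟩, h3⟩
    exact ⟨h1, by rw [← C.relp_bd_above (i := i) (p := p) (by omega)]; exact h3⟩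
  · rintro ⟨h1, h2⟩
    have h3 := C.relp_bd_above (i := i) (p := p) (by omega)
    exact ⟨⟨h1, by rw [h3, h2, hs]⟩, by rw [h3, h2]⟩

/-- **a row whose clusters are disjoint stars has a maximal matching with unmatched elements in
stars** -/
theorem exists_starCfg {ι : Type} {I : Finset ι} {t k c : ι → α} (H : Stars i I t k c) :
    ∃ (m : Mat α i) (φ : ι → α × α) (t' k' c' : α × α → α), m.Maxi ∧
      StarCfg m (I.image φ) t' k' c' ∧
      (∀ j ∈ I, t' (φ j) = t j ∧ k' (φ j) = k j ∧ c' (φ j) = c j) ∧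
      (∀ j ∈ I, ∀ j' ∈ I, φ j = φ j' → j = j') ∧
      (∀ j ∈ I, bd i (φ j).1 = {k j, c j} ∧ bd i (φ j).2 = {k j, t j}) := by
  obtain ⟨m, hm⟩ := exists_maxi C.grd i
  -- the numbers of unmatched elements
  have hX : ∀ s : Finset α, s.card = 2 →
      (m.Xn.filter fun p => bd i p = s).card = mC i s - mD i s := by
    intro s hs
    rw [hm.card_Xn C.grd m s, C.card_DX_eq hs, C.card_DZ_eq hs]
  have hZ : ∀ s : Finset α, s.card = 2 →
      (m.Zl.filter fun p => bd i p = s).card = mD i s - mC i s := by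
    intro s hs
    rw [hm.card_Zl C.grd m s, C.card_DX_eq hs, C.card_DZ_eq hs]
  have hzj : ∀ j, ∃ z, j ∈ I → (m.Zl.filter fun p => bd i p = {k j, c j}) = {z} := by
    intro j
    by_cases hj : j ∈ I
    · have h1 := hZ {k j, c j} (card_pair (H.kc j hj))
      have h2 := H.wkc j hj
      unfold Wt at h2
      obtain ⟨z, hz⟩ := card_eq_one.1 (show (m.Zl.filter fun p => bd i p = {k j, c j}).card = 1 by
        omega)
      exact ⟨z, fun _ => hz⟩
    · have := C.ne
      exact ⟨Classical.arbitrary α, fun h => absurd h hj⟩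
  have hxj : ∀ j, ∃ x, j ∈ I → (m.Xn.filter fun p => bd i p = {t j, k j}) = {x} := by
    intro j
    by_cases hj : j ∈ I
    · have h1 := hX {t j, k j} (card_pair (H.tk j hj))
      have h2 := H.wtk j hj
      unfold Wt at h2
      obtain ⟨x, hx⟩ := card_eq_one.1 (show (m.Xn.filter fun p => bd i p = {t j, k j}).card = 1 by
        omega)
      exact ⟨x, fun _ => hx⟩
    · have := C.ne
      exact ⟨Classical.arbitrary α, fun h => absurd h hj⟩
  choose z hz using hzj
  choose x hx using hxj
  have hz1 : ∀ j ∈ I, z j ∈ m.Zl ∧ bd i (z j) = {k j, c j} := by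
    intro j hj
    have h1 : z j ∈ (m.Zl.filter fun p => bd i p = {k j, c j}) := by
      rw [hz j hj]
      simp
    rw [mem_filter] at h1
    exact h1
  have hx1 : ∀ j ∈ I, x j ∈ m.Xn ∧ bd i (x j) = {t j, k j} := by
    intro j hj
    have h1 : x j ∈ (m.Xn.filter fun p => bd i p = {t j, k j}) := by
      rw [hx j hj]
      simp
    rw [mem_filter] at h1
    exact h1
  have hinz : ∀ j ∈ I, ∀ j' ∈ I, z j = z j' → j = j' := by
    intro j hj j' hj' h1
    by_contra hne
    have h2 := H.disj j hj j' hj' hne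
    have h3 : ({k j, c j} : Finset α) = {k j', c j'} := by
      rw [← (hz1 j hj).2, ← (hz1 j' hj').2, h1]
    have h4 : k j ∈ ({k j', c j'} : Finset α) := by
      rw [← h3]
      simp
    rw [Finset.disjoint_left] at h2
    apply h2 (a := k j) (by simp)
    rw [mem_insert, mem_singleton] at h4
    rcases h4 with h4 | h4 <;> simp [h4]
  have hinx : ∀ j ∈ I, ∀ j' ∈ I, x j = x j' → j = j' := by
    intro j hj j' hj' h1
    by_contra hne
    have h2 := H.disj j hj j' hj' hne
    have h3 : ({t j, k j} : Finset α) = {t j', k j'} := by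
      rw [← (hx1 j hj).2, ← (hx1 j' hj').2, h1]
    have h4 : k j ∈ ({t j', k j'} : Finset α) := by
      rw [← h3]
      simp
    rw [Finset.disjoint_left] at h2
    apply h2 (a := k j) (by simp)
    rw [mem_insert, mem_singleton] at h4
    rcases h4 with h4 | h4 <;> simp [h4]
  -- inverse of the index
  have hinv : ∀ s : α × α, ∃ v : α × α × α, ∀ j ∈ I, (z j, x j) = s → v = (t j, k j, c j) := by
    intro s
    by_cases hs : ∃ j ∈ I, (z j, x j) = s
    · obtain ⟨j, hj, h1⟩ := hs
      refine ⟨(t j, k j, c j), fun j' hj' h2 => ?_⟩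
      have h3 : j = j' := hinz j hj j' hj' (by
        have := h1.trans h2.symm
        exact (Prod.mk.inj this).1)
      rw [h3]
    · have := C.ne
      exact ⟨(Classical.arbitrary α, Classical.arbitrary α, Classical.arbitrary α),
        fun j hj h1 => absurd ⟨j, hj, h1⟩ hs⟩
  choose v hv using hinv
  have hv' : ∀ j ∈ I, (v (z j, x j)).1 = t j ∧ (v (z j, x j)).2.1 = k j ∧
      (v (z j, x j)).2.2 = c j := by
    intro j hj
    rw [hv _ j hj rfl]
    exact ⟨rfl, rfl, rfl⟩
  refine ⟨m, fun j => (z j, x j), fun s => (v s).1, fun s => (v s).2.1, fun s => (v s).2.2, hm,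
    ⟨?_, ?_, ?_, ?_, ?_, ?_, ⟨?_, ?_, ?_, ?_⟩⟩, hv', ?_, ?_⟩
  · ext p
    rw [image_image, mem_image]
    constructor
    · intro hp
      have h1 := Mat.mem_Zl.1 hp
      have h2 : 0 < (m.Zl.filter fun q => bd i q = bd i p).card :=
        card_pos.2 ⟨p, mem_filter.2 ⟨hp, rfl⟩⟩
      rw [hZ _ h1.2.1] at h2
      have h3 : bd i p ⊆ lev α i := fun y hy => mem_lev.2 (bd_lev C.grd (ds_one_iff.2 (Or.inl h1.1)) hy)
      have h4 : Wt i (bd i p) ≠ 0 := by
        unfold Wt
        omega
      obtain ⟨j, hj, h5 | h5⟩ := H.supp _ h3 h1.2.1 h4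
      · exfalso
        have h6 := H.wtk j hj
        rw [← h5] at h6
        unfold Wt at h6
        omega
      · refine ⟨j, hj, ?_⟩
        have h6 : p ∈ (m.Zl.filter fun q => bd i q = {k j, c j}) := mem_filter.2 ⟨hp, h5⟩
        rw [hz j hj, mem_singleton] at h6
        exact h6.symm
    · rintro ⟨j, hj, rfl⟩
      exact (hz1 j hj).1
  · ext p
    rw [image_image, mem_image]
    constructor
    · intro hp
      have h1 := Mat.mem_Xn.1 hp
      have h2 : 0 < (m.Xn.filter fun q => bd i q = bd i p).card :=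
        card_pos.2 ⟨p, mem_filter.2 ⟨hp, rfl⟩⟩
      rw [hX _ h1.2.1] at h2
      have h3 : bd i p ⊆ lev α i := fun y hy => mem_lev.2 (bd_lev C.grd (ds_one_iff.2 (Or.inr h1.1)) hy)
      have h4 : Wt i (bd i p) ≠ 0 := by
        unfold Wt
        omega
      obtain ⟨j, hj, h5 | h5⟩ := H.supp _ h3 h1.2.1 h4
      · refine ⟨j, hj, ?_⟩
        have h6 : p ∈ (m.Xn.filter fun q => bd i q = {t j, k j}) := mem_filter.2 ⟨hp, h5⟩
        rw [hx j hj, mem_singleton] at h6
        exact h6.symm
      · exfalso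
        have h6 := H.wkc j hj
        rw [← h5] at h6
        unfold Wt at h6
        omega
    · rintro ⟨j, hj, rfl⟩
      exact (hx1 j hj).1
  · intro s hs s' hs' h1
    rw [mem_image] at hs hs'
    obtain ⟨j, hj, rfl⟩ := hs
    obtain ⟨j', hj', rfl⟩ := hs'
    rw [hinz j hj j' hj' h1]
  · intro s hs s' hs' h1
    rw [mem_image] at hs hs'
    obtain ⟨j, hj, rfl⟩ := hs
    obtain ⟨j', hj', rfl⟩ := hs'
    rw [hinx j hj j' hj' h1]
  · intro s hs
    rw [mem_image] at hs
    obtain ⟨j, hj, rfl⟩ := hs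
    show bd i (z j) = {(v (z j, x j)).2.1, (v (z j, x j)).2.2}
    rw [(hv' j hj).2.1, (hv' j hj).2.2]
    exact (hz1 j hj).2
  · intro s hs
    rw [mem_image] at hs
    obtain ⟨j, hj, rfl⟩ := hs
    show bd i (x j) = {(v (z j, x j)).2.1, (v (z j, x j)).1}
    rw [(hv' j hj).2.1, (hv' j hj).1, pair_comm]
    exact (hx1 j hj).2
  · intro s hs
    rw [mem_image] at hs
    obtain ⟨j, hj, rfl⟩ := hs
    show (v (z j, x j)).1 ≠ (v (z j, x j)).2.1
    rw [(hv' j hj).2.1, (hv' j hj).1]
    exact H.tk j hj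
  · intro s hs
    rw [mem_image] at hs
    obtain ⟨j, hj, rfl⟩ := hs
    show (v (z j, x j)).2.1 ≠ (v (z j, x j)).2.2
    rw [(hv' j hj).2.1, (hv' j hj).2.2]
    exact H.kc j hj
  · intro s hs
    rw [mem_image] at hs
    obtain ⟨j, hj, rfl⟩ := hs
    show (v (z j, x j)).1 ≠ (v (z j, x j)).2.2
    rw [(hv' j hj).1, (hv' j hj).2.2]
    exact H.tc j hj
  · intro s hs s' hs' hne
    rw [mem_image] at hs hs'
    obtain ⟨j, hj, rfl⟩ := hs
    obtain ⟨j', hj', rfl⟩ := hs'
    have h1 : j ≠ j' := by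
      rintro rfl
      exact hne rfl
    show Disjoint ({(v (z j, x j)).1, (v (z j, x j)).2.1, (v (z j, x j)).2.2} : Finset α)
      {(v (z j', x j')).1, (v (z j', x j')).2.1, (v (z j', x j')).2.2}
    rw [(hv' j hj).1, (hv' j hj).2.1, (hv' j hj).2.2, (hv' j' hj').1, (hv' j' hj').2.1,
      (hv' j' hj').2.2]
    exact H.disj j hj j' hj' h1
  · intro j hj j' hj' h1
    exact hinz j hj j' hj' (Prod.mk.inj h1).1
  · intro j hj
    exact ⟨(hz1 j hj).2, by rw [(hx1 j hj).2, pair_comm]⟩

end CtxK

end Pool.Gauss
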