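import Pool.Agent.Work.MP_065141_co.K.StarOf
import Pool.Agent.Work.MP_065141_co.K.StarEqn
import Pool.Agent.Work.MP_065141_co.K.KStar5

/-!
# The equations of a row whose clusters are disjoint stars, in a connected Gaussian poset
-/

set_option autoImplicit false
set_option linter.unusedSectionVars false
open scoped Classical
open Finset

namespace Pool.Gauss

variable {α : Type} [Fintype α] [PartialOrder α] {i : ℕ}

/-- the two definitions of an element over two double elements with disjoint pairs agree -/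
theorem CtxK.U4_eq_V4 (C : CtxK α) : U4 α i = V4 i := by
  ext v
  unfold U4
  rw [mem_filter, mem_U2, mem_V4]
  constructor
  · rintro ⟨⟨h1, h2⟩, h3⟩
    refine ⟨h1, h2, ?_⟩
    obtain ⟨p, p', hne, hb⟩ := card_eq_two.1 h2
    have hp : p ∈ bd i v := by rw [hb]; simp
    have hp' : p' ∈ bd i v := by rw [hb]; simp
    have h4 : BB i v = bd i p ∪ bd i p' := by
      unfold BB
      rw [hb, biUnion_insert, singleton_biUnion]
    have h5 := C.bd_le i p
    have h6 := C.bd_le i p'
    rw [h4, card_union] at h3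
    have h7 : (bd i p ∩ bd i p').card = 0 := by omega
    rw [hb]
    constructor
    · intro q hq
      rw [mem_insert, mem_singleton] at hq
      rcases hq with rfl | rfl
      · exact ⟨ds_of_mem_bd C.grd h1 hp, by omega⟩
      · exact ⟨ds_of_mem_bd C.grd h1 hp', by omega⟩
    · intro q hq q' hq' hqq
      rw [mem_insert, mem_singleton] at hq hq'
      have h8 : Disjoint (bd i p) (bd i p') := by
        rw [disjoint_iff_inter_eq_empty, ← card_eq_zero]
        exact h7
      rcases hq with rfl | rfl <;> rcases hq' with rfl | rfl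
      · exact absurd rfl hqq
      · exact h8
      · exact h8.symm
      · exact absurd rfl hqq
  · rintro ⟨h1, h2, h3⟩
    refine ⟨⟨h1, h2⟩, ?_⟩
    have h4 := h3.card_biUnion
    rw [h2] at h4
    exact h4

/-- **the first and second order equations** of a row whose clusters are disjoint stars, without
elements over two doubles with disjoint pairs -/
theorem CtxK.star_equations (C : CtxK α) (hi : i < HT α) {ι : Type} {I : Finset ι} {t k c : ι → α}
    (H : Stars i I t k c) (h4 : V4 (α := α) i = ∅) :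
    ∃ (m : Mat α i) (φ : ι → α × α) (t' k' c' : α × α → α), m.Maxi ∧
      StarCfg m (I.image φ) t' k' c' ∧
      (∀ j ∈ I, t' (φ j) = t j ∧ k' (φ j) = k j ∧ c' (φ j) = c j) ∧
      (∀ j ∈ I, ∀ j' ∈ I, φ j = φ j' → j = j') ∧
      (∀ j ∈ I, bd i (φ j).1 = {k j, c j} ∧ bd i (φ j).2 = {k j, t j}) ∧
      (sdat m (I.image φ) t' k' c').R24 (lev α i) +
        2 * (∑ k ∈ KL α i 2, TL.cf 0 2 (VG i k) +
          ∑ u ∈ U3 α i, (sgz i u * TL.cf 0 1 (V3 i u) + TL.cf 0 0 (V3 i u)) + SY α i 0) = 0 ∧
      ∀ n, (sdat m (I.image φ) t' k' c').R1 n = 0 := by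
  obtain ⟨m, φ, t', k', c', h1, h2, h3, h5, h6⟩ := C.exists_starCfg H
  obtain ⟨h, hG⟩ := C.gauss
  have h7 : U4 α i = ∅ := by rw [C.U4_eq_V4, h4]
  obtain ⟨h8, h9⟩ := h2.eqn hG (C.hasLower hi) (C.bd_le i) h7
  exact ⟨m, φ, t', k', c', h1, h2, h3, h5, h6, h8, h9⟩

end Pool.Gauss
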