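import Pool.Agent.Work.MP_065141_co.K.StarCfg
import Pool.Agent.Work.MP_065141_co.K.DeepF

/-!
# The factors next to level `i` at `w = 0` for regions of stars
-/

set_option autoImplicit false
set_option linter.unusedSectionVars false
set_option linter.unusedVariables false
open scoped Classical
open Finset Polynomial

namespace Pool.Gauss

variable {α : Type} [Fintype α] [PartialOrder α] {i : ℕ}

/-- the value at `w = 0` -/
noncomputable abbrev cc : AA →+* ℤ[X] := PowerSeries.constantCoeff

/-- the coefficients at `w = 0` -/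
noncomputable abbrev mc : MvPolynomial α AA →+* MvPolynomial α ℤ[X] := MvPolynomial.map cc

lemma cc_Ev (P : MvPolynomial α AA) : cc (Ev wA P) = Ev 0 (mc P) := coeff_zero_Ev P

lemma cf0_Ev (j : ℕ) (P : MvPolynomial α AA) : TL.cf 0 j (Ev wA P) = (Ev 0 (mc P)).coeff j := by
  rw [TL.cf_apply, PowerSeries.coeff_zero_eq_constantCoeff, ← cc_Ev]

lemma cc_wA : cc wA = 0 := PowerSeries.constantCoeff_X
lemma cc_ZA : cc ZA = X := PowerSeries.constantCoeff_C _
lemma cc_qA : cc qA = 0 := by rw [qA, map_mul, cc_wA, zero_mul]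

lemma cc_geoA : cc geoA = 1 := by
  have h := congrArg cc geoA_eq
  rw [map_add, map_mul, cc_qA, map_one, zero_mul, add_zero] at h
  exact h

lemma cc_iwA : cc iwA = -1 := by
  have h := congrArg cc iwA_eq
  rw [map_sub, map_mul, cc_wA, map_one, zero_mul, zero_sub] at h
  exact h

/-- the sign of a side, over `ℤ[X]` -/
noncomputable def sg0 (i : ℕ) (p : α) : ℤ[X] := if corank p < i then -1 else 1

lemma cc_nrm (p : α) : cc (nrm i p) = sg0 i p := by
  unfold nrm sg0
  split_ifs
  · exact cc_iwA
  · exact map_one cc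

lemma mc_av (p y : α) : mc (av i p y) = MvPolynomial.C (sg0 i p) * MvPolynomial.X y := by
  unfold av sg0
  split_ifs
  · rw [map_sub, MvPolynomial.map_C, MvPolynomial.map_X, cc_wA, map_zero, zero_sub, map_neg,
      map_one]
    ring
  · rw [MvPolynomial.map_X, map_one, one_mul]

lemma sg0_sq (p : α) : sg0 i p * sg0 i p = 1 := by
  unfold sg0
  split_ifs <;> ring

/-- the monomial of an element with two neighbours, at `w = 0` -/
noncomputable def M0 (i : ℕ) (k : α → ℕ) (p : α) : MvPolynomial α ℤ[X] :=
  if ∃ y ∈ bd i p, k y = 0 then ∏ y ∈ (bd i p).filter (fun y => k y = 0), MvPolynomial.X y else 0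

lemma cc_sum_range (n : ℕ) : cc (∑ a ∈ range (n + 1), qA ^ a) = 1 := by
  rw [map_sum, Finset.sum_range_succ', pow_zero, map_one]
  have h : ∑ a ∈ range n, cc (qA ^ (a + 1)) = 0 := by
    apply sum_eq_zero
    intro a _
    rw [map_pow, cc_qA, zero_pow (Nat.succ_ne_zero a)]
  rw [h, zero_add]

/-- **a factor at `w = 0`** -/
theorem mc_GA (hg : Grad α) (hl : HasLower α i) {p : α} (hp : ds i p = 1)
    (hdeg : (bd i p).card ≤ 2) (k : α → ℕ) : mc (GA i k p) =
      1 + if (bd i p).card = 2 then MvPolynomial.C (sg0 i p * X) * M0 i k p else 0 := by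
  have h1 : (bd i p).card ≠ 0 := by
    rw [Ne, Finset.card_eq_zero, ← Ne, ← Finset.nonempty_iff_ne_empty]
    exact bd_neF hg hl (by omega)
  have h2 : (bd i p).card = 1 ∨ (bd i p).card = 2 := by omega
  unfold GA
  rcases h2 with h2 | h2
  · obtain ⟨y, hy⟩ := Finset.card_eq_one.1 h2
    have h3 : cc (nrm i p * (qA ^ (k y + 1) * geoA)) = 0 := by
      rw [map_mul, map_mul, map_pow, cc_qA, zero_pow (Nat.succ_ne_zero _), zero_mul, mul_zero]
    rw [if_neg (by omega), nrm_gP_single hy, map_add, map_mul, MvPolynomial.map_C,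
      MvPolynomial.map_C, cc_sum_range, h3, map_zero, mul_zero, map_one]
  · obtain ⟨y, y', hne, hy⟩ := Finset.card_eq_two.1 h2
    rw [if_pos h2]
    have key : ∀ {y y' : α}, bd i p = {y, y'} → y ≠ y' → k y ≤ k y' →
        mc (MvPolynomial.C (nrm i p) * gP i k p) =
          1 + MvPolynomial.C (sg0 i p * X) * M0 i k p := by
      intro y y' hy hne hk
      rw [nrm_gP_double hy hne hk]
      have hs := sg0_sq (i := i) p
      have hs' : (MvPolynomial.C (sg0 i p) * MvPolynomial.C (sg0 i p) :
          MvPolynomial α ℤ[X]) = 1 := by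
        rw [← map_mul, hs, map_one]
      by_cases hy0 : k y = 0
      · by_cases hy0' : k y' = 0
        · have hM : M0 i k p = MvPolynomial.X y * MvPolynomial.X y' := by
            unfold M0
            rw [if_pos ⟨y, by rw [hy]; simp, hy0⟩, hy, Finset.filter_true_of_mem, prod_pair hne]
            intro t ht
            rw [mem_insert, mem_singleton] at ht
            rcases ht with rfl | rfl
            · exact hy0
            · exact hy0'
          rw [hM, hy0, hy0']
          simp only [map_add, map_mul, MvPolynomial.map_C, mc_av, cc_sum_range, cc_nrm, cc_ZA,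
            cc_geoA, Ico_self, sum_empty, map_zero, pow_zero, map_one, mul_zero, add_zero,
            mul_one, zero_add]
          linear_combination (MvPolynomial.C (sg0 i p) * MvPolynomial.C X * MvPolynomial.X y *
            MvPolynomial.X y') * hs'
        · have hM : M0 i k p = MvPolynomial.X y := by
            unfold M0
            rw [if_pos ⟨y, by rw [hy]; simp, hy0⟩, hy]
            have : ({y, y'} : Finset α).filter (fun t => k t = 0) = {y} := by
              ext t
              rw [mem_filter, mem_insert, mem_singleton, mem_singleton]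
              constructor
              · rintro ⟨h3 | h3, h4⟩
                · exact h3
                · rw [h3] at h4
                  exact absurd h4 hy0'
              · rintro rfl
                exact ⟨Or.inl rfl, hy0⟩
            rw [this, prod_singleton]
          have h3 : cc (∑ a ∈ Ico 0 (k y'), qA ^ a) = 1 := by
            obtain ⟨n, hn⟩ := Nat.exists_eq_succ_of_ne_zero hy0'
            rw [hn, Nat.Ico_zero_eq_range]
            exact cc_sum_range n
          have h4 : cc (qA ^ (k y')) = 0 := by rw [map_pow, cc_qA, zero_pow hy0']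
          rw [hM, hy0]
          simp only [map_add, map_mul, MvPolynomial.map_C, mc_av, cc_nrm, cc_ZA, h3, h4]
          simp
          ring
      · have hy0' : k y' ≠ 0 := by omega
        have hM : M0 i k p = 0 := by
          unfold M0
          rw [if_neg]
          rintro ⟨t, ht, h3⟩
          rw [hy, mem_insert, mem_singleton] at ht
          rcases ht with rfl | rfl
          · exact hy0 h3
          · exact hy0' h3
        have h3 : cc (∑ a ∈ Ico (k y) (k y'), qA ^ a) = 0 := by
          rw [map_sum]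
          apply sum_eq_zero
          intro a ha
          rw [mem_Ico] at ha
          rw [map_pow, cc_qA, zero_pow (by omega)]
        have h4 : cc (qA ^ (k y')) = 0 := by rw [map_pow, cc_qA, zero_pow hy0']
        rw [hM]
        simp only [map_add, map_mul, MvPolynomial.map_C, mc_av, cc_nrm, cc_ZA, h3, h4,
          cc_sum_range]
        simp
    by_cases hk : k y ≤ k y'
    · exact key hy hne hk
    · exact key (by rw [hy, pair_comm]) hne.symm (by omega)

/-! ### equality at `w = 0` -/

/-- `a_y ^ 2 = 0` -/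
lemma EvEq0_sq (y : α) : EvEq (0 : ℤ[X]) (MvPolynomial.X y * MvPolynomial.X y) 0 := by
  have h := EvEq_sq (0 : ℤ[X]) y
  rw [map_zero, zero_mul, pow_two] at h
  exact h

/-- a polynomial with the factor `a_y` kills every other polynomial with this factor -/
lemma EvEq0_kill {A P : MvPolynomial α ℤ[X]} {y : α} (hA : MvPolynomial.X y ∣ A)
    (hP : MvPolynomial.X y ∣ P) : EvEq (0 : ℤ[X]) (A * P) 0 := by
  obtain ⟨A', rfl⟩ := hA
  obtain ⟨P', rfl⟩ := hP
  refine (EvEq.of_eq ?_).trans ((EvEq0_sq y).zero_mul' (A' * P'))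
  ring

lemma X_dvd_M0 {k : α → ℕ} {p y : α} (hy : y ∈ bd i p) (hk : k y = 0) :
    (MvPolynomial.X y : MvPolynomial α ℤ[X]) ∣ M0 i k p := by
  unfold M0
  rw [if_pos ⟨y, hy, hk⟩]
  exact Finset.dvd_prod_of_mem _ (mem_filter.2 ⟨hy, hk⟩)

/-- the factors of a matched pair -/
lemma EvEq0_pair (hg : Grad α) (hl : HasLower α i) {z x : α} (hz : corank z + 1 = i)
    (hx : corank x = i + 1) (hb : bd i z = bd i x) (hc : (bd i x).card = 2) (k : α → ℕ) :
    EvEq (0 : ℤ[X]) (mc (GA i k z) * mc (GA i k x)) 1 := by
  have hz1 : ds i z = 1 := ds_one_iff.2 (Or.inl hz)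
  have hx1 : ds i x = 1 := ds_one_iff.2 (Or.inr hx)
  have hM : M0 i k z = M0 i k x := by
    unfold M0
    rw [hb]
  have hsz : sg0 i z = -1 := by
    unfold sg0
    rw [if_pos (by omega)]
  have hsx : sg0 i x = 1 := by
    unfold sg0
    rw [if_neg (by omega)]
  rw [mc_GA hg hl hz1 (by rw [hb]; omega) k, mc_GA hg hl hx1 (by omega) k, hb, if_pos hc,
    if_pos hc, hM, hsz, hsx]
  have h2 : EvEq (0 : ℤ[X]) (M0 i k x * M0 i k x) 0 := by
    by_cases h : ∃ y ∈ bd i x, k y = 0
    · obtain ⟨y, hy, hk⟩ := h
      exact EvEq0_kill (X_dvd_M0 hy hk) (X_dvd_M0 hy hk)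
    · have : M0 i k x = 0 := by
        unfold M0
        rw [if_neg h]
      rw [this, mul_zero]
      exact EvEq.refl _
  have h3 := ((h2.mul_left (MvPolynomial.C (X * X))).neg).add (EvEq.refl 1)
  refine (EvEq.of_eq ?_).trans (h3.trans (EvEq.of_eq ?_))
  · rw [one_mul, map_mul, map_mul, map_neg, map_one]
    ring
  · rw [mul_zero, neg_zero, zero_add]

/-- absorbing a product of factors which act trivially -/
lemma EvEq_absorb_prod {κ : Type} {w : ℤ[X]} {A : MvPolynomial α ℤ[X]} (S : Finset κ)
    {f g : κ → MvPolynomial α ℤ[X]} (h : ∀ e ∈ S, EvEq w (A * f e) (A * g e)) :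
    EvEq w (A * ∏ e ∈ S, f e) (A * ∏ e ∈ S, g e) := by
  induction S using Finset.induction_on with
  | empty => exact EvEq.refl _
  | insert e S he ih =>
    rw [prod_insert he, prod_insert he]
    have h1 := (h e (mem_insert_self e S)).mul_right (∏ e ∈ S, f e)
    have h2 := (ih fun e' he' => h e' (mem_insert_of_mem he')).mul_left (g e)
    refine (EvEq.of_eq ?_).trans (h1.trans ((EvEq.of_eq ?_).trans (h2.trans (EvEq.of_eq ?_))))
    · ring
    · ring
    · ring

/-- the product over the unmatched elements, star by star -/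
lemma prod_stars {m : Mat α i} {St : Finset (α × α)} {t k c : α × α → α}
    (hS : StarCfg m St t k c) {R : Type} [CommMonoid R] (f : α → R) :
    (∏ p ∈ m.Xn, f p) * ∏ p ∈ m.Zl, f p = ∏ s ∈ St, f s.2 * f s.1 := by
  rw [hS.Xn, hS.Zl, Finset.prod_image fun s hs s' hs' h => hS.inj2 s hs s' hs' h,
    Finset.prod_image fun s hs s' hs' h => hS.inj1 s hs s' hs' h, Finset.prod_mul_distrib]

/-- **all factors next to level `i` at `w = 0`**: only the stars remain -/
theorem EvEq0_N1 (hg : Grad α) (hl : HasLower α i) (hdeg : ∀ p : α, (bd i p).card ≤ 2)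
    {m : Mat α i} {St : Finset (α × α)} {t k c : α × α → α} (hS : StarCfg m St t k c)
    (κ : α → ℕ) : EvEq (0 : ℤ[X]) (mc (∏ p ∈ N1 α i, GA i κ p))
      (∏ s ∈ St, mc (GA i κ s.2) * mc (GA i κ s.1)) := by
  rw [prod_N1 hg hl hdeg m, prod_stars hS, map_mul, map_mul, map_prod, map_prod, map_prod]
  have h1 : EvEq (0 : ℤ[X]) (∏ e ∈ m.M, mc (GA i κ e.1 * GA i κ e.2)) 1 := by
    have := EvEq.prod (w := (0 : ℤ[X])) (s := m.M) (f := fun e => mc (GA i κ e.1 * GA i κ e.2))
      (g := fun _ => (1 : MvPolynomial α ℤ[X])) (fun e he => by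
        rw [map_mul]
        have h2 := m.snd_mem hg he
        have h3 := m.fst_mem hg he
        rw [mem_DX] at h2
        rw [mem_DZ] at h3
        exact EvEq0_pair hg hl h3.1 h2.1 (m.bd_eq hg he) h2.2 κ)
    rw [prod_const_one] at this
    exact this
  have h2 : ∏ p ∈ Sg α i, mc (GA i κ p) = 1 := by
    apply Finset.prod_eq_one
    intro p hp
    rw [mem_Sg] at hp
    rw [mc_GA hg hl hp.1 (hdeg p) κ, if_neg (by omega), add_zero]
  refine (h1.mul (EvEq.refl _)).trans (EvEq.of_eq ?_)
  rw [h2, one_mul, one_mul]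
  apply prod_congr rfl
  intro s _
  rw [map_mul]

end Pool.Gauss
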