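import Pool.Agent.Work.MP_065141_co.K.NoMixD

/-!
# Good energy functions on a closed set, below a level `i = b + J`

`V` is an up-set.  A good function that excites two elements of a row `r > b` excites two elements
of every row between `b` and `r` (`two_rows`).  An element of row `b + m` with energy `≥ 2` forces
energy `≥ 2 m - 1` above it, and equality is described (`path_ge`, `path_eq`).
-/

set_option autoImplicit false
set_option linter.unusedSectionVars false
open scoped Classical
open Finset

namespace Pool.Gauss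

namespace SS

open NM

variable {α : Type} [Fintype α] [PartialOrder α]

/-- two distinct elements of a row `r`, `b + 1 < r ≤ i`, have two distinct parents -/
def NoFork (V : Finset α) (b i : ℕ) : Prop :=
  ∀ p ∈ V, ∀ p' ∈ V, p ≠ p' → corank p = corank p' → b + 1 < corank p → corank p ≤ i →
    ∃ z z' : α, z ≠ z' ∧ (p ⋖ z ∨ p' ⋖ z) ∧ (p ⋖ z' ∨ p' ⋖ z')

lemma pos_up {V : Finset α} (hV : UpC V) {b : ℕ} {ε : α → ℕ} (hgood : GoodOn V b ε) {x y : α}
    (hxV : x ∈ V) (h : x ⋖ y) (hx : ε x ≠ 0) (hy : b < corank y) : ε y ≠ 0 := by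
  intro h0
  obtain ⟨z, hz⟩ := exists_covBy_up (x := y) (by omega)
  exact hgood y (hV x hxV y h.le) ⟨Or.inr ⟨hy.le, x, h, by omega⟩, Or.inr ⟨hy, z, hz, by omega⟩⟩

lemma pos_up_le (hg : Grad α) {V : Finset α} (hV : UpC V) {b : ℕ} {ε : α → ℕ}
    (hgood : GoodOn V b ε) : ∀ n : ℕ, ∀ x y : α, corank x ≤ corank y + n → x ∈ V → x ≤ y →
      ε x ≠ 0 → b < corank y → ε y ≠ 0 := by
  intro n
  induction n with
  | zero =>
    intro x y hn _ hxy hx _
    rcases eq_or_lt_of_le hxy with h | h
    · rwa [← h]
    · have := corank_lt h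
      omega
  | succ n ih =>
    intro x y hn hxV hxy hx hy
    rcases eq_or_lt_of_le hxy with h | h
    · rwa [← h]
    · obtain ⟨c, hxc, hcy⟩ := exists_covBy_of_lt h
      have h1 := hg x c hxc
      have h2 : corank y ≤ corank c := by
        rcases eq_or_lt_of_le hcy with h3 | h3
        · rw [h3]
        · exact (corank_lt h3).le
      exact ih c y (by omega) (hV x hxV c hxc.le) hcy (pos_up hV hgood hxV hxc hx (by omega)) hy

/-- if a parent has a smaller value then it is 'in', hence its parents have smaller values -/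
lemma dec_up {V : Finset α} (hV : UpC V) {b : ℕ} {ε : α → ℕ} (hgood : GoodOn V b ε) {x y z : α}
    (hxV : x ∈ V) (hxy : x ⋖ y) (hyz : y ⋖ z) (h : ε y < ε x) (hy : b < corank y) :
    ε z < ε y := by
  by_contra h1
  exact hgood y (hV x hxV y hxy.le) ⟨Or.inr ⟨hy.le, x, hxy, h⟩, Or.inr ⟨hy, z, hyz, by omega⟩⟩

/-- two excited elements of a row force two excited elements in all rows above -/
lemma two_rows (hg : Grad α) {V : Finset α} (hV : UpC V) {b i : ℕ} (hN : NoFork V b i) {ε : α → ℕ}
    (hgood : GoodOn V b ε) : ∀ n : ℕ, ∀ r : ℕ, b < r → r + n ≤ i →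
      (∃ p ∈ V, ∃ p' ∈ V, p ≠ p' ∧ corank p = r + n ∧ corank p' = r + n ∧ ε p ≠ 0 ∧ ε p' ≠ 0) →
      ∃ p ∈ V, ∃ p' ∈ V, p ≠ p' ∧ corank p = r ∧ corank p' = r ∧ ε p ≠ 0 ∧ ε p' ≠ 0 := by
  intro n
  induction n with
  | zero => intro r _ _ h; exact h
  | succ n ih =>
    intro r hr hri h
    obtain ⟨p, hp, p', hp', hne, h1, h2, h3, h4⟩ := h
    obtain ⟨z, z', hz, hz1, hz2⟩ := hN p hp p' hp' hne (by rw [h1, h2]) (by omega) (by omega)
    refine ih r hr (by omega) ?_
    have aux : ∀ w, (p ⋖ w ∨ p' ⋖ w) → w ∈ V ∧ corank w = r + n ∧ ε w ≠ 0 := by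
      rintro w (hw | hw)
      · have h5 := hg p w hw
        exact ⟨hV p hp w hw.le, by omega, pos_up hV hgood hp hw h3 (by omega)⟩
      · have h5 := hg p' w hw
        exact ⟨hV p' hp' w hw.le, by omega, pos_up hV hgood hp' hw h4 (by omega)⟩
    obtain ⟨a1, a2, a3⟩ := aux z hz1
    obtain ⟨b1, b2, b3⟩ := aux z' hz2
    exact ⟨z, a1, z', b1, hz, a2, b2, a3, b3⟩

/-- the excited elements of the rows between `b` and `i` -/
noncomputable def exc (V : Finset α) (b i : ℕ) (ε : α → ℕ) : Finset α :=
  V.filter fun y => b < corank y ∧ corank y ≤ i ∧ ε y ≠ 0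

lemma mem_exc {V : Finset α} {b i : ℕ} {ε : α → ℕ} {y : α} :
    y ∈ exc V b i ε ↔ y ∈ V ∧ b < corank y ∧ corank y ≤ i ∧ ε y ≠ 0 := by simp [exc]

lemma card_exc_ge {V : Finset α} {b J : ℕ} {ε : α → ℕ}
    (h : ∀ r, b < r → r ≤ b + J →
      ∃ p ∈ V, ∃ p' ∈ V, p ≠ p' ∧ corank p = r ∧ corank p' = r ∧ ε p ≠ 0 ∧ ε p' ≠ 0) :
    2 * J ≤ (exc V b (b + J) ε).card := by
  have h1 : ∀ y ∈ exc V b (b + J) ε, corank y ∈ Ioc b (b + J) := by
    intro y hy
    rw [mem_exc] at hy
    rw [mem_Ioc]
    exact ⟨hy.2.1, hy.2.2.1⟩
  rw [card_eq_sum_card_fiberwise h1]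
  calc 2 * J = ∑ r ∈ Ioc b (b + J), 2 := by simp [mul_comm]
    _ ≤ _ := by
        apply Finset.sum_le_sum
        intro r hr
        rw [mem_Ioc] at hr
        obtain ⟨p, hp, p', hp', hne, h2, h3, h4, h5⟩ := h r hr.1 hr.2
        have h6 : ({p, p'} : Finset α) ⊆ (exc V b (b + J) ε).filter fun y => corank y = r := by
          intro y hy
          rw [mem_insert, mem_singleton] at hy
          rw [mem_filter, mem_exc]
          rcases hy with rfl | rfl
          · exact ⟨⟨hp, by omega, by omega, h4⟩, h2⟩
          · exact ⟨⟨hp', by omega, by omega, h5⟩, h3⟩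
        have h7 := card_le_card h6
        rwa [card_pair hne] at h7

lemma card_exc_le {V : Finset α} {b i : ℕ} {ε : α → ℕ} :
    (exc V b i ε).card ≤ ∑ y ∈ V.filter (fun y => corank y ≤ i), ε y := by
  calc (exc V b i ε).card = ∑ y ∈ exc V b i ε, 1 := by simp
    _ ≤ ∑ y ∈ exc V b i ε, ε y := by
        apply Finset.sum_le_sum
        intro y hy
        rw [mem_exc] at hy
        omega
    _ ≤ _ := by
        apply Finset.sum_le_sum_of_subset
        intro y hy
        rw [mem_exc] at hy
        rw [mem_filter]
        exact ⟨hy.1, hy.2.2.1⟩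

/-! ### the energy above an element -/

/-- the energy above `y` at levels `> b` -/
noncomputable def eab (b : ℕ) (ε : α → ℕ) (y : α) : ℕ := ∑ z ∈ above b y, ε z

lemma eab_ge_add (hg : Grad α) {b : ℕ} {ε : α → ℕ} {y z : α} (hyz : y ⋖ z) (hy : b < corank y) :
    ε y + eab b ε z ≤ eab b ε y := by
  have h1 : y ∉ above b z := by
    intro h
    rw [mem_above] at h
    exact absurd h.1 (not_le_of_gt hyz.lt)
  have h2 : insert y (above b z) ⊆ above b y := by
    intro w hw
    rw [mem_insert, mem_above] at hw
    rw [mem_above]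
    rcases hw with rfl | hw
    · exact ⟨le_rfl, hy⟩
    · exact ⟨hyz.le.trans hw.1, hw.2⟩
  calc ε y + eab b ε z = ∑ w ∈ insert y (above b z), ε w := by rw [sum_insert h1]; rfl
    _ ≤ _ := Finset.sum_le_sum_of_subset h2

lemma eab_ge_self {b : ℕ} {ε : α → ℕ} {y : α} (hy : b < corank y) : ε y ≤ eab b ε y :=
  Finset.single_le_sum (f := ε) (fun _ _ => Nat.zero_le _) (mem_above.2 ⟨le_rfl, hy⟩)

/-- the energy above an element of row `b + m` with energy at least two -/
lemma path_ge (hg : Grad α) {V : Finset α} (hV : UpC V) {b : ℕ} {ε : α → ℕ}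
    (hgood : GoodOn V b ε) : ∀ m : ℕ, ∀ y ∈ V, corank y = b + m → 1 ≤ m → 2 ≤ ε y →
      2 * m - 1 ≤ eab b ε y := by
  intro m
  induction m with
  | zero => intro y _ _ h; omega
  | succ m ih =>
    intro y hy hm _ h2
    have h3 := eab_ge_self (b := b) (ε := ε) (y := y) (by omega)
    rcases Nat.eq_zero_or_pos m with h0 | h0
    · subst h0
      omega
    · obtain ⟨z, hz⟩ := exists_covBy_up (x := y) (by omega)
      have h4 := hg y z hz
      have hzV := hV y hy z hz.le
      have h5 := eab_ge_add hg (b := b) (ε := ε) hz (by omega)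
      have h6 : ε z ≠ 0 := pos_up hV hgood hy hz (by omega) (by omega)
      by_cases h7 : 2 ≤ ε z
      · have := ih z hzV (by omega) h0 h7
        omega
      · have h8 := eab_ge_self (b := b) (ε := ε) (y := z) (by omega)
        by_cases h9 : 2 ≤ m
        · obtain ⟨z', hz'⟩ := exists_covBy_up (x := z) (by omega)
          have h10 := hg z z' hz'
          have h11 := dec_up hV hgood hy hz hz' (by omega) (by omega)
          have h12 : ε z' ≠ 0 := pos_up hV hgood hzV hz' h6 (by omega)
          omega
        · omega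

/-- the case of equality in `path_ge` -/
lemma path_eq (hg : Grad α) {V : Finset α} (hV : UpC V) {b : ℕ} {ε : α → ℕ}
    (hgood : GoodOn V b ε) : ∀ m : ℕ, ∀ y ∈ V, corank y = b + m → 1 ≤ m → 2 ≤ ε y →
      eab b ε y ≤ 2 * m - 1 →
      ∃ u w : α, w ⋖ u ∧ w ∈ above b y ∧ corank u = b + 1 ∧ ε u = 1 ∧ ε w = 2 ∧
        (∀ v ∈ above b y, corank v = b + 1 → v = u) ∧ (∀ v ∈ above b y, ε v ≤ 2) := by
  intro m
  induction m with
  | zero => intro y _ _ h; omega
  | succ m ih =>
    intro y hy hm _ h2 hE
    have h3 := eab_ge_self (b := b) (ε := ε) (y := y) (by omega)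
    rcases Nat.eq_zero_or_pos m with h0 | h0
    · subst h0
      omega
    · obtain ⟨z, hz⟩ := exists_covBy_up (x := y) (by omega)
      have h4 := hg y z hz
      have hzV := hV y hy z hz.le
      have h5 := eab_ge_add hg (b := b) (ε := ε) hz (by omega)
      have h6 : ε z ≠ 0 := pos_up hV hgood hy hz (by omega) (by omega)
      -- all elements above `y` are `y` or above `z`
      have key : ε y + eab b ε z = 2 * (m + 1) - 1 → ∀ v ∈ above b y, v = y ∨ v ∈ above b z := by
        intro h7 v hv
        by_contra h8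
        push Not at h8
        have h9 : ε v ≠ 0 := by
          rw [mem_above] at hv
          exact pos_up_le hg hV hgood (corank y) y v (by omega) hy hv.1 (by omega) hv.2
        have h10 : y ∉ above b z := by
          intro h
          rw [mem_above] at h
          exact absurd h.1 (not_le_of_gt hz.lt)
        have h11 : v ∉ insert y (above b z) := by
          rw [mem_insert]
          tauto
        have h12 : insert v (insert y (above b z)) ⊆ above b y := by
          intro w hw
          rw [mem_insert, mem_insert] at hw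
          rcases hw with rfl | rfl | hw
          · exact hv
          · exact mem_above.2 ⟨le_rfl, by omega⟩
          · rw [mem_above] at hw ⊢
            exact ⟨hz.le.trans hw.1, hw.2⟩
        have h13 := Finset.sum_le_sum_of_subset (f := ε) h12
        rw [sum_insert h11, sum_insert h10] at h13
        have h14 : ∑ w ∈ above b z, ε w = eab b ε z := rfl
        have h15 : ∑ w ∈ above b y, ε w = eab b ε y := rfl
        omega
      by_cases h7 : 2 ≤ ε z
      · have h8 := path_ge hg hV hgood m z hzV (by omega) h0 h7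
        obtain ⟨u, w, hwu, hw, hu, hu1, hw1, h9, h10⟩ := ih z hzV (by omega) h0 h7 (by omega)
        have hk := key (by omega)
        refine ⟨u, w, hwu, ?_, hu, hu1, hw1, ?_, ?_⟩
        · rw [mem_above] at hw ⊢
          exact ⟨hz.le.trans hw.1, hw.2⟩
        · intro v hv hv1
          rcases hk v hv with rfl | h
          · omega
          · exact h9 v h hv1
        · intro v hv
          rcases hk v hv with rfl | h
          · omega
          · exact h10 v h
      · have h8 := eab_ge_self (b := b) (ε := ε) (y := z) (by omega)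
        by_cases h9 : 2 ≤ m
        · obtain ⟨z', hz'⟩ := exists_covBy_up (x := z) (by omega)
          have h10 := hg z z' hz'
          have h11 := dec_up hV hgood hy hz hz' (by omega) (by omega)
          have h12 : ε z' ≠ 0 := pos_up hV hgood hzV hz' h6 (by omega)
          omega
        · have hk := key (by omega)
          have hm1 : m = 1 := by omega
          subst hm1
          have h10 : ∀ v ∈ above b z, v = z := by
            intro v hv
            rw [mem_above] at hv
            rcases eq_or_lt_of_le hv.1 with h | h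
            · exact h.symm
            · have := corank_lt h
              omega
          refine ⟨z, y, hz, mem_above.2 ⟨le_rfl, by omega⟩, by omega, by omega, by omega, ?_, ?_⟩
          · intro v hv hv1
            rcases hk v hv with rfl | h
            · omega
            · exact h10 v h
          · intro v hv
            rcases hk v hv with rfl | h
            · omega
            · rw [h10 v h]
              omega

end SS

end Pool.Gauss
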