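import Pool.Agent.Work.MP_065141_co.K.StrA

/-!
# Heads and flat tails

Let `i = b + J` and total energy `≤ 2 J`.  A good function on the up-set `V` that excites an
element of a row `> i` has either `≥ n - 1` free elements (`n` = number of elements of row `b`), or
it is a head (row `i` excited exactly in `p`, with energy one) plus a flat tail below `p`.
-/

set_option autoImplicit false
set_option linter.unusedSectionVars false
open scoped Classical
open Finset

namespace Pool.Gauss

namespace SS

open NM

variable {α : Type} [Fintype α] [PartialOrder α]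

/-- the elements of row `b` of `V` -/
noncomputable def rw' (V : Finset α) (b : ℕ) : Finset α := V.filter fun y => corank y = b

/-- the free elements of `V` -/
noncomputable def frV (V : Finset α) (b : ℕ) (ε : α → ℕ) : Finset α :=
  V.filter fun y => ¬ inE b ε y ∧ ¬ outE b ε y

/-- elements of row `b + 1` have at most two parents -/
def Dg (V : Finset α) (b : ℕ) : Prop :=
  ∀ u ∈ V, corank u = b + 1 → (univ.filter fun z : α => u ⋖ z).card ≤ 2

open Polynomial in
lemma dvd_tmV {V : Finset α} {b k : ℕ} {ε : α → ℕ} (h : k ≤ (frV V b ε).card) :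
    (X : ℤ[X]) ^ k ∣ tmV V b ε := by
  unfold tmV
  by_cases h1 : GoodOn V b ε
  · rw [if_pos h1]
    exact Dvd.dvd.mul_left (pow_dvd_pow _ h) _
  · rw [if_neg h1]
    exact dvd_zero _

/-- **the junk lemma** -/
lemma junk (hg : Grad α) {V : Finset α} (hV : UpC V) {b J : ℕ} (hD : Dg V b) {ε : α → ℕ}
    (hε : ∀ x, ε x ≠ 0 → x ∈ V) (hgood : GoodOn V b ε) (hJ : 1 ≤ J) {p : α} (hp : p ∈ V)
    (hpi : corank p = b + J) (hp2 : 2 ≤ ε p)
    (h1 : ∑ y ∈ V.filter (fun y => corank y ≤ b + J), ε y ≤ 2 * J - 1)
    (h2 : ∑ y ∈ V.filter (fun y => b + J < corank y), ε y ≤ 1) :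
    (rw' V b).card - 1 ≤ (frV V b ε).card := by
  have hsub : above b p ⊆ V.filter (fun y => corank y ≤ b + J) := by
    intro y hy
    rw [mem_above] at hy
    rw [mem_filter]
    refine ⟨hV p hp y hy.1, ?_⟩
    rcases eq_or_lt_of_le hy.1 with h | h
    · rw [← h]; omega
    · have := corank_lt h
      omega
  have h3 : eab b ε p ≤ ∑ y ∈ V.filter (fun y => corank y ≤ b + J), ε y :=
    Finset.sum_le_sum_of_subset hsub
  have h4 := path_ge hg hV hgood J p hp hpi hJ hp2
  obtain ⟨u, w, hwu, hw, hu, hu1, hw2, h5, h6⟩ :=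
    path_eq hg hV hgood J p hp hpi hJ hp2 (by omega)
  -- no energy in the rows `≤ i` outside the elements above `p`
  have h7 : ∀ y ∈ V, corank y ≤ b + J → ε y ≠ 0 → y ∈ above b p := by
    intro y hy hy1 hy2
    by_contra h8
    have h9 : insert y (above b p) ⊆ V.filter (fun y => corank y ≤ b + J) := by
      intro z hz
      rw [mem_insert] at hz
      rcases hz with rfl | hz
      · rw [mem_filter]; exact ⟨hy, hy1⟩
      · exact hsub hz
    have h10 := Finset.sum_le_sum_of_subset (f := ε) h9
    rw [sum_insert h8] at h10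
    have h11 : ∑ w ∈ above b p, ε w = eab b ε p := rfl
    omega
  have hwp := mem_above.1 hw
  have hup : u ∈ above b p := mem_above.2 ⟨hwp.1.trans hwu.le, by omega⟩
  have huV : u ∈ V := hV p hp u (mem_above.1 hup).1
  have hwV : w ∈ V := hV p hp w hwp.1
  have hwc := hg w u hwu
  -- `w` is free
  have hwf : w ∈ frV V b ε := by
    rw [frV, mem_filter]
    refine ⟨hwV, ?_, ?_⟩
    · rintro (⟨h8, _⟩ | ⟨_, x, hx, h8⟩)
      · omega
      · have hxV : x ∈ V := hε x (by omega)
        by_cases h9 : corank x ≤ b + J
        · have := h6 x (h7 x hxV h9 (by omega))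
          omega
        · have h10 : ε x ≤ ∑ y ∈ V.filter (fun y => b + J < corank y), ε y :=
            Finset.single_le_sum (f := ε) (fun _ _ => Nat.zero_le _)
              (mem_filter.2 ⟨hxV, by omega⟩)
          omega
    · rintro (⟨h8, _⟩ | ⟨_, z, hz, h8⟩)
      · omega
      · have h9 := hg w z hz
        have h10 := h5 z (mem_above.2 ⟨hwp.1.trans hz.le, by omega⟩) (by omega)
        rw [h10] at h8
        omega
  -- the elements of row `b` that are no parents of `u` are free
  have hyf : ∀ y ∈ (rw' V b).filter (fun y => ¬ u ⋖ y), y ∈ frV V b ε := by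
    intro y hy
    rw [mem_filter, rw', mem_filter] at hy
    obtain ⟨⟨hyV, hyb⟩, hyu⟩ := hy
    have hy0 : ε y = 0 := by
      by_contra h8
      have := mem_above.1 (h7 y hyV (by omega) h8)
      omega
    rw [frV, mem_filter]
    refine ⟨hyV, ?_, ?_⟩
    · rintro (⟨h8, _⟩ | ⟨_, x, hx, h8⟩)
      · omega
      · have h9 := hg x y hx
        have hxV : x ∈ V := hε x (by omega)
        have h10 := h5 x (h7 x hxV (by omega) (by omega)) (by omega)
        rw [h10] at hx
        exact hyu hx
    · rintro (⟨_, z, hz, h8⟩ | ⟨h8, _⟩)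
      · have h9 := hg y z hz
        have hzV := hV y hyV z hz.le
        have := mem_above.1 (h7 z hzV (by omega) (by omega))
        omega
      · omega
  have hins : insert w ((rw' V b).filter (fun y => ¬ u ⋖ y)) ⊆ frV V b ε := by
    intro y hy
    rw [mem_insert] at hy
    rcases hy with rfl | hy
    · exact hwf
    · exact hyf y hy
  have hnot : w ∉ (rw' V b).filter (fun y => ¬ u ⋖ y) := by
    rw [mem_filter, rw', mem_filter]
    omega
  have h8 := card_le_card hins
  rw [card_insert_of_notMem hnot] at h8
  have h9 := Finset.card_filter_add_card_filter_not (s := rw' V b) (fun y => u ⋖ y)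
  have h10 : ((rw' V b).filter (fun y => u ⋖ y)).card ≤ (univ.filter fun z : α => u ⋖ z).card := by
    apply card_le_card
    intro y hy
    rw [mem_filter] at hy
    rw [mem_filter]
    exact ⟨mem_univ _, hy.2⟩
  have h11 := hD u huV hu
  omega

/-! ### heads and tails -/

/-- the rows `≤ i` of `V` -/
noncomputable def lo (V : Finset α) (i : ℕ) : Finset α := V.filter fun y => corank y ≤ i

/-- the rows `> i` of `V` -/
noncomputable def hi (V : Finset α) (i : ℕ) : Finset α := V.filter fun y => i < corank y

lemma mem_lo {V : Finset α} {i : ℕ} {y : α} : y ∈ lo V i ↔ y ∈ V ∧ corank y ≤ i := by simp [lo]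

lemma mem_hi {V : Finset α} {i : ℕ} {y : α} : y ∈ hi V i ↔ y ∈ V ∧ i < corank y := by simp [hi]

lemma lo_union_hi (V : Finset α) (i : ℕ) : lo V i ∪ hi V i = V := by
  ext y
  rw [mem_union, mem_lo, mem_hi]
  constructor
  · rintro (h | h)
    · exact h.1
    · exact h.1
  · intro h
    rcases le_or_gt (corank y) i with h1 | h1
    · exact Or.inl ⟨h, h1⟩
    · exact Or.inr ⟨h, h1⟩

lemma lo_disj_hi (V : Finset α) (i : ℕ) : Disjoint (lo V i) (hi V i) := by
  rw [Finset.disjoint_left]
  intro y hy hy'
  rw [mem_lo] at hy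
  rw [mem_hi] at hy'
  omega

lemma lo_upC {V : Finset α} (hV : UpC V) (i : ℕ) : UpC (lo V i) := by
  intro x hx y hxy
  rw [mem_lo] at hx ⊢
  refine ⟨hV x hx.1 y hxy, ?_⟩
  rcases eq_or_lt_of_le hxy with h | h
  · rw [← h]; exact hx.2
  · have := corank_lt h
    omega

/-- head: row `i` is excited exactly in `p`, with energy one -/
def Hd (V : Finset α) (i : ℕ) (p : α) (η : α → ℕ) : Prop :=
  η p = 1 ∧ ∀ y ∈ V, corank y = i → y ≠ p → η y = 0

/-- flat tail below `p` -/
def Cl (p : α) (ω : α → ℕ) : Prop :=
  ∀ y, ω y ≠ 0 → ω y = 1 ∧ ∀ z, y ⋖ z → z = p ∨ ω z ≠ 0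

/-- **the structure of the functions that reach a row `> i`** -/
theorem head_tail (hg : Grad α) {V : Finset α} (hV : UpC V) {b J : ℕ} (hJ : 1 ≤ J)
    (hN : NoFork V b (b + J)) (hD : Dg V b) {η ω : α → ℕ}
    (hη : ∀ x, η x ≠ 0 → x ∈ lo V (b + J)) (hω : ∀ x, ω x ≠ 0 → x ∈ hi V (b + J))
    (h0 : ω ≠ 0) (hgood : GoodOn V b (η + ω))
    (hE : ∑ y ∈ lo V (b + J), η y + ∑ y ∈ hi V (b + J), ω y ≤ 2 * J)
    (hfr : (frV V b (η + ω)).card < (rw' V b).card - 1) :
    ∃ p ∈ V, corank p = b + J ∧ Hd V (b + J) p η ∧ Cl p ω := by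
  set ε := η + ω with hε
  have el : ∀ y, y ∉ hi V (b + J) → ε y = η y := by
    intro y hy
    have : ω y = 0 := by
      by_contra h
      exact hy (hω y h)
    rw [hε, Pi.add_apply, this, add_zero]
  have eh : ∀ y, y ∉ lo V (b + J) → ε y = ω y := by
    intro y hy
    have : η y = 0 := by
      by_contra h
      exact hy (hη y h)
    rw [hε, Pi.add_apply, this, zero_add]
  have el' : ∀ y, corank y ≤ b + J → ε y = η y := fun y hy => el y (by rw [mem_hi]; omega)
  have eh' : ∀ y, b + J < corank y → ε y = ω y := fun y hy => eh y (by rw [mem_lo]; omega)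
  have hsup : ∀ x, ε x ≠ 0 → x ∈ V := by
    intro x hx
    rcases le_or_gt (corank x) (b + J) with h | h
    · rw [el' x h] at hx
      exact (mem_lo.1 (hη x hx)).1
    · rw [eh' x h] at hx
      exact (mem_hi.1 (hω x hx)).1
  have s1 : ∑ y ∈ V.filter (fun y => corank y ≤ b + J), ε y = ∑ y ∈ lo V (b + J), η y := by
    apply Finset.sum_congr rfl
    intro y hy
    rw [mem_filter] at hy
    exact el' y hy.2
  have s2 : ∑ y ∈ V.filter (fun y => b + J < corank y), ε y = ∑ y ∈ hi V (b + J), ω y := by
    apply Finset.sum_congr rfl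
    intro y hy
    rw [mem_filter] at hy
    exact eh' y hy.2
  -- an excited element of row `i + 1`
  obtain ⟨y, hy⟩ : ∃ y, ω y ≠ 0 := by
    by_contra h
    push Not at h
    exact h0 (funext h)
  have hyV := mem_hi.1 (hω y hy)
  have hpos : 1 ≤ ∑ y ∈ hi V (b + J), ω y := by
    have : ω y ≤ ∑ y ∈ hi V (b + J), ω y :=
      Finset.single_le_sum (f := ω) (fun _ _ => Nat.zero_le _) (hω y hy)
    omega
  obtain ⟨x, hx1, hx2⟩ : ∃ x : α, corank x = b + J + 1 ∧ y ≤ x := by
    rcases Nat.lt_or_ge (b + J + 1) (corank y) with h | h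
    · obtain ⟨x, hx, hx'⟩ := exists_gt_corank (x := y) h
      exact ⟨x, hx', hx.le⟩
    · exact ⟨y, by omega, le_rfl⟩
  have hy' : ε y ≠ 0 := by rw [eh' y hyV.2]; exact hy
  have hx0 : ε x ≠ 0 :=
    pos_up_le hg hV hgood (corank y) y x (by omega) hyV.1 hx2 hy' (by omega)
  have hxV : x ∈ V := hsup x hx0
  obtain ⟨p, hp⟩ := exists_covBy_up (x := x) (by omega)
  have hpc := hg x p hp
  have hpV : p ∈ V := hV x hxV p hp.le
  have hp0 : ε p ≠ 0 := pos_up hV hgood hxV hp hx0 (by omega)
  -- uniqueness in row `i`
  have huniq : ∀ p' ∈ V, corank p' = b + J → ε p' ≠ 0 → p' = p := by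
    intro p' hp' hc' h'
    by_contra hne
    have h1 := card_exc_ge (V := V) (b := b) (J := J) (ε := ε) (by
      intro r hr hr'
      refine two_rows hg hV hN hgood (b + J - r) r hr (by omega) ?_
      exact ⟨p', hp', p, hpV, hne, by omega, by omega, h', hp0⟩)
    have h2 := card_exc_le (V := V) (b := b) (i := b + J) (ε := ε)
    rw [s1] at h2
    omega
  have hp1 : ε p = 1 := by
    by_contra h1
    have h2 := junk hg hV hD hsup hgood hJ hpV (by omega) (by omega) (by rw [s1]; omega) (by
      rw [s2]
      have h3 := path_ge hg hV hgood J p hpV (by omega) hJ (by omega)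
      have h4 : eab b ε p ≤ ∑ y ∈ V.filter (fun y => corank y ≤ b + J), ε y := by
        apply Finset.sum_le_sum_of_subset
        intro y hy
        rw [mem_above] at hy
        rw [mem_filter]
        refine ⟨hV p hpV y hy.1, ?_⟩
        rcases eq_or_lt_of_le hy.1 with h | h
        · rw [← h]; omega
        · have := corank_lt h
          omega
      rw [s1] at h4
      omega)
    omega
  refine ⟨p, hpV, by omega, ⟨?_, ?_⟩, ?_⟩
  · rw [← el' p (by omega)]
    exact hp1
  · intro y hy hyc hne
    by_contra h1
    rw [← el' y (by omega)] at h1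
    exact hne (huniq y hy hyc h1)
  · -- the tail is flat
    have hpar : ∀ y, ω y ≠ 0 → ∀ z, y ⋖ z → z = p ∨ ω z ≠ 0 := by
      intro y hy z hz
      have hyV := mem_hi.1 (hω y hy)
      have h1 := hg y z hz
      have h2 : ε z ≠ 0 := by
        refine pos_up hV hgood hyV.1 hz ?_ (by omega)
        rw [eh' y hyV.2]
        exact hy
      have hzV := hV y hyV.1 z hz.le
      rcases le_or_gt (corank z) (b + J) with h3 | h3
      · left
        exact huniq z hzV (by omega) h2
      · right
        rwa [eh' z h3] at h2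
    have hone : ∀ n, ∀ y, corank y = b + J + 1 + n → ω y ≠ 0 → ω y = 1 := by
      intro n
      induction n with
      | zero =>
        intro y hyc hy
        have hyV := mem_hi.1 (hω y hy)
        obtain ⟨z, hz⟩ := exists_covBy_up (x := y) (by omega)
        have h1 := hg y z hz
        have hzp : z = p := by
          rcases hpar y hy z hz with h | h
          · exact h
          · have := (mem_hi.1 (hω z h)).2
            omega
        by_contra h2
        have h3 : ε y = ω y := eh' y hyV.2
        rw [hzp] at hz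
        rcases Nat.lt_or_ge 1 J with h4 | h4
        · obtain ⟨z', hz'⟩ := exists_covBy_up (x := p) (by omega)
          have h5 := hg p z' hz'
          have h6 := dec_up hV hgood hyV.1 hz hz' (by omega) (by omega)
          have h7 := pos_up hV hgood hpV hz' (by omega) (by omega)
          omega
        · have h5 : η p ≤ ∑ y ∈ lo V (b + J), η y :=
            Finset.single_le_sum (f := η) (fun _ _ => Nat.zero_le _)
              (mem_lo.2 ⟨hpV, by omega⟩)
          have h6 : ω y ≤ ∑ y ∈ hi V (b + J), ω y :=
            Finset.single_le_sum (f := ω) (fun _ _ => Nat.zero_le _) (hω y hy)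
          rw [el' p (by omega)] at hp1
          omega
      | succ n ih =>
        intro y hyc hy
        have hyV := mem_hi.1 (hω y hy)
        obtain ⟨z, hz⟩ := exists_covBy_up (x := y) (by omega)
        have h1 := hg y z hz
        have hz0 : ω z ≠ 0 := by
          rcases hpar y hy z hz with h | h
          · rw [h] at h1
            omega
          · exact h
        have hz1 := ih z (by omega) hz0
        have hzV := mem_hi.1 (hω z hz0)
        by_contra h2
        have h3 : ε y = ω y := eh' y hyV.2
        have h3' : ε z = ω z := eh' z hzV.2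
        obtain ⟨z', hz'⟩ := exists_covBy_up (x := z) (by omega)
        have h5 := hg z z' hz'
        have h6 := dec_up hV hgood hyV.1 hz hz' (by omega) (by omega)
        have h7 := pos_up hV hgood hzV.1 hz' (by omega) (by omega)
        omega
    intro y hy
    have hyV := mem_hi.1 (hω y hy)
    exact ⟨hone (corank y - (b + J + 1)) y (by omega) hy, hpar y hy⟩

/-- a flat tail does not change the weight -/
theorem tmV_add_tail (hg : Grad α) {V : Finset α} (hV : UpC V) {b i : ℕ} (hbi : b < i)
    {η ω : α → ℕ} (hη : ∀ x, η x ≠ 0 → x ∈ lo V i) (hω : ∀ x, ω x ≠ 0 → x ∈ hi V i) {p : α}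
    (hp : p ∈ V) (hpi : corank p = i) (hH : Hd V i p η) (hC : Cl p ω) :
    tmV V b (η + ω) = tmV (lo V i) b η := by
  set ε := η + ω with hε
  have el' : ∀ y, corank y ≤ i → ε y = η y := by
    intro y hy
    have : ω y = 0 := by
      by_contra h
      have := (mem_hi.1 (hω y h)).2
      omega
    rw [hε, Pi.add_apply, this, add_zero]
  have eh' : ∀ y, i < corank y → ε y = ω y := by
    intro y hy
    have : η y = 0 := by
      by_contra h
      have := (mem_lo.1 (hη y h)).2
      omega
    rw [hε, Pi.add_apply, this, zero_add]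
  -- the elements of the rows `> i` are out, not in
  have hout : ∀ y, i < corank y → outE b ε y := by
    intro y hy
    obtain ⟨z, hz⟩ := exists_covBy_up (x := y) (by omega)
    have h1 := hg y z hz
    refine Or.inr ⟨by omega, z, hz, ?_⟩
    rw [eh' y hy]
    by_cases h2 : ω y = 0
    · omega
    · obtain ⟨h3, h4⟩ := hC y h2
      rw [h3]
      rcases h4 z hz with h | h
      · rw [h, el' p (by omega), hH.1]
      · have h5 := (mem_hi.1 (hω z h)).2
        rw [eh' z h5]
        omega
  have hle1 : ∀ y, i < corank y → ε y ≤ 1 := by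
    intro y hy
    rw [eh' y hy]
    by_cases h2 : ω y = 0
    · omega
    · exact (hC y h2).1.le
  have hnin : ∀ y, i < corank y → ¬ inE b ε y := by
    rintro y hy (⟨h1, _⟩ | ⟨_, x, hx, h2⟩)
    · omega
    · have h1 := hg x y hx
      have h3 := hle1 x (by omega)
      have h4 : ε y = 0 := by omega
      have h5 : ω x ≠ 0 := by
        rw [← eh' x (by omega)]
        omega
      rcases (hC x h5).2 y hx with h | h
      · rw [h] at hy
        omega
      · rw [← eh' y hy] at h
        omega
  -- the elements of the rows `≤ i` are as for `η`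
  have ein : ∀ y, corank y ≤ i → (inE b ε y ↔ inE b η y) := by
    intro y hy
    rcases Nat.lt_or_ge (corank y) i with h1 | h1
    · apply inE_congr (el' y hy)
      intro x hx
      have := hg x y hx
      exact el' x (by omega)
    · have hyi : corank y = i := by omega
      constructor
      · rintro (⟨h2, _⟩ | ⟨_, x, hx, h2⟩)
        · omega
        · exfalso
          have h3 := hg x y hx
          have h4 : ω x ≠ 0 := by
            rw [← eh' x (by omega)]
            omega
          have h5 := hle1 x (by omega)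
          rcases (hC x h4).2 y hx with h | h
          · rw [h, el' p (by omega), hH.1] at h2
            omega
          · have := (mem_hi.1 (hω y h)).2
            omega
      · rintro (⟨h2, _⟩ | ⟨_, x, hx, h2⟩)
        · omega
        · exfalso
          have h3 := hg x y hx
          have h4 := (mem_lo.1 (hη x (by omega))).2
          omega
  have eout : ∀ y, corank y ≤ i → (outE b ε y ↔ outE b η y) := by
    intro y hy
    apply outE_congr (el' y hy)
    intro z hz
    have := hg y z hz
    exact el' z (by omega)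
  have hgd : GoodOn V b ε ↔ GoodOn (lo V i) b η := by
    constructor
    · intro h y hy
      rw [mem_lo] at hy
      rw [← ein y hy.2, ← eout y hy.2]
      exact h y hy.1
    · intro h y hy
      rcases le_or_gt (corank y) i with h1 | h1
      · rw [ein y h1, eout y h1]
        exact h y (mem_lo.2 ⟨hy, h1⟩)
      · exact fun h2 => hnin y h1 h2.1
  unfold tmV
  by_cases h1 : GoodOn (lo V i) b η
  · rw [if_pos h1, if_pos (hgd.2 h1)]
    congr 2
    · congr 1
      ext y
      rw [mem_filter, mem_filter, mem_lo]
      constructor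
      · rintro ⟨h2, h3⟩
        have h4 : corank y ≤ i := by
          by_contra h4
          exact hnin y (by omega) h3
        exact ⟨⟨h2, h4⟩, (ein y h4).1 h3⟩
      · rintro ⟨⟨h2, h4⟩, h3⟩
        exact ⟨h2, (ein y h4).2 h3⟩
    · congr 1
      ext y
      rw [mem_filter, mem_filter, mem_lo]
      constructor
      · rintro ⟨h2, h3, h5⟩
        have h4 : corank y ≤ i := by
          by_contra h4
          exact h5 (hout y (by omega))
        exact ⟨⟨h2, h4⟩, (ein y h4).not.1 h3, (eout y h4).not.1 h5⟩
      · rintro ⟨⟨h2, h4⟩, h3, h5⟩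
        exact ⟨h2, (ein y h4).not.2 h3, (eout y h4).not.2 h5⟩
  · rw [if_neg h1, if_neg (fun h => h1 (hgd.1 h))]

/-- functions supported on the rows `≤ i` -/
theorem tmV_lo (hg : Grad α) {V : Finset α} {b i : ℕ} (hbi : b ≤ i)
    {η : α → ℕ} (hη : ∀ x, η x ≠ 0 → x ∈ lo V i) : tmV V b η = tmV (lo V i) b η := by
  have h0 : ∀ y, i < corank y → η y = 0 := by
    intro y hy
    by_contra h
    have := (mem_lo.1 (hη y h)).2
    omega
  have hout : ∀ y, i < corank y → outE b η y := by
    intro y hy
    obtain ⟨z, hz⟩ := exists_covBy_up (x := y) (by omega)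
    refine Or.inr ⟨by omega, z, hz, ?_⟩
    rw [h0 y hy]
    omega
  have hnin : ∀ y, i < corank y → ¬ inE b η y := by
    rintro y hy (⟨h1, _⟩ | ⟨_, x, hx, h2⟩)
    · omega
    · have h1 := hg x y hx
      rw [h0 x (by omega)] at h2
      omega
  have hgd : GoodOn V b η ↔ GoodOn (lo V i) b η := by
    constructor
    · intro h y hy
      exact h y (mem_lo.1 hy).1
    · intro h y hy
      rcases le_or_gt (corank y) i with h1 | h1
      · exact h y (mem_lo.2 ⟨hy, h1⟩)
      · exact fun h2 => hnin y h1 h2.1
  unfold tmV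
  by_cases h1 : GoodOn (lo V i) b η
  · rw [if_pos h1, if_pos (hgd.2 h1)]
    congr 2
    · congr 1
      ext y
      rw [mem_filter, mem_filter, mem_lo]
      constructor
      · rintro ⟨h2, h3⟩
        refine ⟨⟨h2, ?_⟩, h3⟩
        by_contra h4
        exact hnin y (by omega) h3
      · rintro ⟨⟨h2, h4⟩, h3⟩
        exact ⟨h2, h3⟩
    · congr 1
      ext y
      rw [mem_filter, mem_filter, mem_lo]
      constructor
      · rintro ⟨h2, h3, h5⟩
        refine ⟨⟨h2, ?_⟩, h3, h5⟩
        by_contra h4
        exact h5 (hout y (by omega))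
      · rintro ⟨⟨h2, h4⟩, h3, h5⟩
        exact ⟨h2, h3, h5⟩
  · rw [if_neg h1, if_neg (fun h => h1 (hgd.1 h))]

end SS

end Pool.Gauss
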