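import Pool.Agent.Work.MP_065141_co.K.StrB

/-!
# The series of a closed set in terms of its rows `≤ i`

For `i = b + J` and degrees `≤ 2 J`, modulo `X ^ k`, `k ≤ n - 1`: the series of `V` is the series of
the rows `≤ i` plus (heads) times (flat tails).
-/

set_option autoImplicit false
set_option linter.unusedSectionVars false
open scoped Classical
open Finset

namespace Pool.Gauss

namespace SS

open NM

variable {α : Type} [Fintype α] [PartialOrder α]

/-- the sum of the weights of the heads of `p` with energy `s` -/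
noncomputable def HS (V : Finset α) (b i : ℕ) (p : α) (s : ℕ) : Polynomial ℤ :=
  ∑ η ∈ ((lo V i).piAntidiag s).filter (fun η => Hd V i p η), tmV (lo V i) b η

lemma Cl_unique {p p' : α} {ω : α → ℕ} (h0 : ω ≠ 0) (hpos : ∀ y, ω y ≠ 0 → 0 < corank y)
    (h : Cl p ω) (h' : Cl p' ω) :
    p = p' ∧ ∃ x, ω x ≠ 0 ∧ ∀ z, x ⋖ z ↔ z = p := by
  obtain ⟨y, hy⟩ : ∃ y, ω y ≠ 0 := by
    by_contra h
    push Not at h
    exact h0 (funext h)
  obtain ⟨x, hx, hmin⟩ := Finset.exists_min_image (univ.filter fun y => ω y ≠ 0) corank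
    ⟨y, by simp [hy]⟩
  rw [mem_filter] at hx
  have key : ∀ q : α, Cl q ω → ∀ z, x ⋖ z → z = q := by
    intro q hq z hz
    rcases (hq x hx.2).2 z hz with h | h
    · exact h
    · have h1 := hmin z (by simp [h])
      have h2 := corank_lt hz.lt
      omega
  obtain ⟨z, hz⟩ := exists_covBy_up (x := x) (hpos x hx.2)
  have e1 := key p h z hz
  have e2 := key p' h' z hz
  refine ⟨by rw [← e1, ← e2], x, hx.2, fun w => ⟨fun hw => key p h w hw, fun hw => ?_⟩⟩
  rw [hw, ← e1]
  exact hz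

open Polynomial in
/-- the sum over the functions with a given part in the rows `> i` -/
theorem fiber (hg : Grad α) {V : Finset α} (hV : UpC V) {b J : ℕ} (hJ : 1 ≤ J)
    (hN : NoFork V b (b + J)) (hD : Dg V b) {k : ℕ} (hk : k ≤ (rw' V b).card - 1) {ω : α → ℕ}
    {s t : ℕ} (hst : s + t ≤ 2 * J) (ht : t ≠ 0) (hω : ω ∈ (hi V (b + J)).piAntidiag t) :
    (∃ p ∈ V, corank p = b + J ∧ Cl p ω ∧ (∃ x ∈ V, ω x ≠ 0 ∧ ∀ z, x ⋖ z ↔ z = p) ∧
      (X : ℤ[X]) ^ k ∣ ∑ η ∈ (lo V (b + J)).piAntidiag s, tmV V b (η + ω) -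
        HS V b (b + J) p s) ∨
    ((¬ ∃ p, Cl p ω ∧ p ∈ V ∧ corank p = b + J) ∧
      (X : ℤ[X]) ^ k ∣ ∑ η ∈ (lo V (b + J)).piAntidiag s, tmV V b (η + ω)) := by
  rw [mem_piAntidiag] at hω
  have h0 : ω ≠ 0 := by
    rintro rfl
    apply ht
    rw [← hω.1]
    simp
  have hpos : ∀ y, ω y ≠ 0 → 0 < corank y := fun y hy => by
    have := (mem_hi.1 (hω.2 y hy)).2
    omega
  -- the functions that are not heads
  have junk' : ∀ η ∈ (lo V (b + J)).piAntidiag s,
      (¬ ∃ p ∈ V, corank p = b + J ∧ Hd V (b + J) p η ∧ Cl p ω) →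
        (X : ℤ[X]) ^ k ∣ tmV V b (η + ω) := by
    intro η hη hno
    rw [mem_piAntidiag] at hη
    by_cases hgood : GoodOn V b (η + ω)
    · apply dvd_tmV
      by_contra h1
      exact hno (head_tail hg hV hJ hN hD hη.2 hω.2 h0 hgood (by rw [hη.1, hω.1]; omega)
        (by omega))
    · rw [tmV, if_neg hgood]
      exact dvd_zero _
  by_cases hex : ∃ p, Cl p ω ∧ p ∈ V ∧ corank p = b + J
  · left
    obtain ⟨p, hC, hp, hpi⟩ := hex
    obtain ⟨_, x, hx, hxp⟩ := Cl_unique h0 hpos hC hC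
    refine ⟨p, hp, hpi, hC, ⟨x, (mem_hi.1 (hω.2 x hx)).1, hx, hxp⟩, ?_⟩
    rw [← Finset.sum_filter_add_sum_filter_not _ (fun η => Hd V (b + J) p η), HS]
    have e1 : ∑ η ∈ ((lo V (b + J)).piAntidiag s).filter (fun η => Hd V (b + J) p η),
        tmV V b (η + ω) =
        ∑ η ∈ ((lo V (b + J)).piAntidiag s).filter (fun η => Hd V (b + J) p η),
          tmV (lo V (b + J)) b η := by
      apply Finset.sum_congr rfl
      intro η hη
      rw [mem_filter, mem_piAntidiag] at hη
      exact tmV_add_tail hg hV (by omega) hη.1.2 hω.2 hp hpi hη.2 hC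
    rw [e1, add_sub_cancel_left]
    apply Finset.dvd_sum
    intro η hη
    rw [mem_filter] at hη
    apply junk' η hη.1
    rintro ⟨p', _, _, hH', hC'⟩
    rw [(Cl_unique h0 hpos hC hC').1] at hη
    exact hη.2 hH'
  · right
    refine ⟨hex, ?_⟩
    apply Finset.dvd_sum
    intro η hη
    apply junk' η hη
    rintro ⟨p, hp, hpi, _, hC⟩
    exact hex ⟨p, hC, hp, hpi⟩

open Polynomial in
lemma main_sum (hg : Grad α) {V : Finset α} {b i : ℕ} (hbi : b ≤ i) {k r : ℕ}
    {G : (α → ℕ) → ℕ → ℤ[X]}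
    (hG : ∀ q ∈ antidiagonal r, q.2 ≠ 0 → ∀ κ ∈ (hi V i).piAntidiag q.2,
      (X : ℤ[X]) ^ k ∣ ∑ η ∈ (lo V i).piAntidiag q.1, tmV V b (η + κ) - G κ q.1) :
    (X : ℤ[X]) ^ k ∣ PowerSeries.coeff r (SV V b) - PowerSeries.coeff r (SV (lo V i) b) -
      ∑ q ∈ (antidiagonal r).filter (fun q => q.2 ≠ 0), ∑ κ ∈ (hi V i).piAntidiag q.2,
        G κ q.1 := by
  have h1 : PowerSeries.coeff r (SV V b) = ∑ q ∈ antidiagonal r,
      ∑ κ ∈ (hi V i).piAntidiag q.2, ∑ η ∈ (lo V i).piAntidiag q.1, tmV V b (η + κ) := by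
    conv_lhs => rw [coeff_SV, show V.piAntidiag r = (lo V i ∪ hi V i).piAntidiag r by
      rw [lo_union_hi]]
    rw [sum_piAntidiag_union (lo_disj_hi V i)]
    apply Finset.sum_congr rfl
    intro q _
    rw [Finset.sum_comm]
  have h2 : ∑ q ∈ (antidiagonal r).filter (fun q => ¬ q.2 ≠ 0),
      ∑ κ ∈ (hi V i).piAntidiag q.2, ∑ η ∈ (lo V i).piAntidiag q.1, tmV V b (η + κ) =
      PowerSeries.coeff r (SV (lo V i) b) := by
    have e : (antidiagonal r).filter (fun q => ¬ q.2 ≠ 0) = {(r, 0)} := by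
      ext ⟨s, t⟩
      rw [mem_filter, HasAntidiagonal.mem_antidiagonal, mem_singleton, Prod.mk.injEq]
      constructor
      · rintro ⟨h3, h4⟩
        simp only [ne_eq, not_not] at h3 h4
        omega
      · rintro ⟨rfl, rfl⟩
        simp
    rw [e, sum_singleton, coeff_SV]
    have e' : (hi V i).piAntidiag 0 = {0} := by simp
    rw [e', sum_singleton]
    apply Finset.sum_congr rfl
    intro η hη
    rw [mem_piAntidiag] at hη
    rw [add_zero]
    exact tmV_lo hg hbi hη.2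
  rw [h1, ← Finset.sum_filter_add_sum_filter_not (antidiagonal r) (fun q => q.2 ≠ 0), h2,
    add_sub_cancel_right, ← Finset.sum_sub_distrib]
  apply Finset.dvd_sum
  intro q hq
  rw [mem_filter] at hq
  rw [← Finset.sum_sub_distrib]
  apply Finset.dvd_sum
  intro κ hκ
  exact hG q hq.1 hq.2 κ hκ

open Polynomial in
/-- **if the heads of all elements with a single child vanish, only the rows `≤ i` matter** -/
theorem coeff_SV_sub_lo (hg : Grad α) {V : Finset α} (hV : UpC V) {b J : ℕ} (hJ : 1 ≤ J)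
    (hN : NoFork V b (b + J)) (hD : Dg V b) {k : ℕ} (hk : k ≤ (rw' V b).card - 1)
    (hH : ∀ p ∈ V, corank p = b + J → (∃ x ∈ V, ∀ z, x ⋖ z ↔ z = p) → ∀ s ≤ 2 * J - 1,
      (X : ℤ[X]) ^ k ∣ HS V b (b + J) p s) {r : ℕ} (hr : r ≤ 2 * J) :
    (X : ℤ[X]) ^ k ∣ PowerSeries.coeff r (SV V b) -
      PowerSeries.coeff r (SV (lo V (b + J)) b) := by
  have h1 := main_sum hg (V := V) (b := b) (i := b + J) (by omega) (k := k) (r := r)
    (G := fun _ _ => 0) (by
      intro q hq hq2 κ hκ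
      rw [HasAntidiagonal.mem_antidiagonal] at hq
      rw [sub_zero]
      rcases fiber hg hV hJ hN hD hk (s := q.1) (t := q.2) (by omega) hq2 hκ with
        ⟨p, hp, hpi, _, ⟨x, hxV, _, hx⟩, h2⟩ | h2
      · have h3 := hH p hp hpi ⟨x, hxV, hx⟩ q.1 (by omega)
        have h4 := dvd_add h2 h3
        rwa [sub_add_cancel] at h4
      · exact h2.2)
  simpa using h1

open Polynomial in
/-- **one element `p0` with a single child `x0` and no other flat tail** -/
theorem coeff_SV_sub_lo_one (hg : Grad α) {V : Finset α} (hV : UpC V) {b J : ℕ} (hJ : 1 ≤ J)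
    (hN : NoFork V b (b + J)) (hD : Dg V b) {k : ℕ} (hk : k ≤ (rw' V b).card - 1) {p0 x0 : α}
    (hp0 : p0 ∈ V) (hp0i : corank p0 = b + J) (hx0 : x0 ∈ V) (hx0' : ∀ z, x0 ⋖ z ↔ z = p0)
    (hH : ∀ p ∈ V, p ≠ p0 → corank p = b + J → (∃ x ∈ V, ∀ z, x ⋖ z ↔ z = p) →
      ∀ s ≤ 2 * J - 1, (X : ℤ[X]) ^ k ∣ HS V b (b + J) p s)
    (hC0 : ∀ ω : α → ℕ, (∀ x, ω x ≠ 0 → x ∈ hi V (b + J)) → ω ≠ 0 → Cl p0 ω →
      ω = Pi.single x0 1) {r : ℕ} (hr : r + 1 ≤ 2 * J) :
    (X : ℤ[X]) ^ k ∣ PowerSeries.coeff (r + 1) (SV V b) -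
      PowerSeries.coeff (r + 1) (SV (lo V (b + J)) b) - HS V b (b + J) p0 r := by
  have hx0c := hg x0 p0 ((hx0' p0).2 rfl)
  have hx0h : x0 ∈ hi V (b + J) := mem_hi.2 ⟨hx0, by omega⟩
  have hCl : Cl p0 (Pi.single x0 1 : α → ℕ) := by
    intro y hy
    have hyx : y = x0 := by
      by_contra h
      rw [Pi.single_eq_of_ne h] at hy
      exact hy rfl
    rw [hyx]
    exact ⟨Pi.single_eq_same _ _, fun z hz => Or.inl ((hx0' z).1 hz)⟩
  have h1 := main_sum hg (V := V) (b := b) (i := b + J) (by omega) (k := k) (r := r + 1)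
    (G := fun κ s => if κ = Pi.single x0 1 then HS V b (b + J) p0 s else 0) (by
      intro q hq hq2 κ hκ
      rw [HasAntidiagonal.mem_antidiagonal] at hq
      have hκ' := mem_piAntidiag.1 hκ
      have hκ0 : κ ≠ 0 := by
        rintro rfl
        apply hq2
        rw [← hκ'.1]
        simp
      have hpos : ∀ y, κ y ≠ 0 → 0 < corank y := fun y hy => by
        have := (mem_hi.1 (hκ'.2 y hy)).2
        omega
      rcases fiber hg hV hJ hN hD hk (s := q.1) (t := q.2) (by omega) hq2 hκ with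
        ⟨p, hp, hpi, hC, ⟨x, hxV, _, hx⟩, h2⟩ | h2
      · by_cases hpp : p = p0
        · rw [hpp] at hC h2
          have h3 := hC0 κ hκ'.2 hκ0 hC
          simp only [h3, if_true]
          rw [h3] at h2
          exact h2
        · have h3 : κ ≠ Pi.single x0 1 := by
            rintro rfl
            exact hpp (Cl_unique hκ0 hpos hC hCl).1
          simp only [if_neg h3, sub_zero]
          have h4 := hH p hp hpp hpi ⟨x, hxV, hx⟩ q.1 (by omega)
          have h5 := dvd_add h2 h4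
          rwa [sub_add_cancel] at h5
      · have h3 : κ ≠ Pi.single x0 1 := by
          rintro rfl
          exact h2.1 ⟨p0, hCl, hp0, hp0i⟩
        simp only [if_neg h3, sub_zero]
        exact h2.2)
  have h2 : ∑ q ∈ (antidiagonal (r + 1)).filter (fun q => q.2 ≠ 0),
      ∑ κ ∈ (hi V (b + J)).piAntidiag q.2,
        (if κ = Pi.single x0 1 then HS V b (b + J) p0 q.1 else 0) = HS V b (b + J) p0 r := by
    rw [Finset.sum_eq_single (r, 1)]
    · rw [Finset.sum_ite_eq' _ _ (fun _ => HS V b (b + J) p0 r), if_pos]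
      rw [mem_piAntidiag]
      refine ⟨?_, ?_⟩
      · rw [Finset.sum_pi_single']
        rw [if_pos hx0h]
      · intro y hy
        have hyx : y = x0 := by
          by_contra h
          rw [Pi.single_eq_of_ne h] at hy
          exact hy rfl
        rw [hyx]
        exact hx0h
    · rintro ⟨s, t⟩ hq hne
      rw [mem_filter, HasAntidiagonal.mem_antidiagonal] at hq
      apply Finset.sum_eq_zero
      intro κ hκ
      rw [if_neg]
      rintro rfl
      rw [mem_piAntidiag] at hκ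
      have h3 : ∑ y ∈ hi V (b + J), (Pi.single x0 1 : α → ℕ) y = 1 := by
        rw [Finset.sum_pi_single', if_pos hx0h]
      rw [h3] at hκ
      apply hne
      simp only at hq hκ ⊢
      ext
      · simp only; omega
      · simp only; omega
    · intro h
      exfalso
      apply h
      rw [mem_filter, HasAntidiagonal.mem_antidiagonal]
      simp
  rw [h2] at h1
  exact h1

end SS

end Pool.Gauss
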