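import Pool.Agent.Work.MP_065141_co.K.StrC

/-!
# Heads of an element with two parents

If `p` in row `i = b + J` has two parents then every head of `p` with energy `≤ 2 J - 1` is the
indicator of the elements above `p` and has `≥ n - 1` free elements.
-/

set_option autoImplicit false
set_option linter.unusedSectionVars false
open scoped Classical
open Finset

namespace Pool.Gauss

namespace SS

open NM

variable {α : Type} [Fintype α] [PartialOrder α]

/-- the elements of row `r` above `p` -/
noncomputable def ar (p : α) (r : ℕ) : Finset α := univ.filter fun y => p ≤ y ∧ corank y = r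

lemma mem_ar {p y : α} {r : ℕ} : y ∈ ar p r ↔ p ≤ y ∧ corank y = r := by simp [ar]

/-- two elements of the cone of `p` in row `b + 1`, and no others, have at most three parents -/
def A3 (V : Finset α) (b i : ℕ) : Prop :=
  ∀ p ∈ V, corank p ≤ i → ∀ x1 x2 : α, x1 ≠ x2 → ar p (b + 1) = {x1, x2} →
    (univ.filter fun z : α => x1 ⋖ z ∨ x2 ⋖ z).card ≤ 3

/-- the cone of an element with two parents has two elements in all rows above -/
lemma cone_two (hg : Grad α) {V : Finset α} (hV : UpC V) {b i : ℕ} (hN : NoFork V b i) {p : α}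
    (hp : p ∈ V) (hpi : corank p ≤ i) {z1 z2 : α} (hz : z1 ≠ z2) (h1 : p ⋖ z1) (h2 : p ⋖ z2) :
    ∀ n : ℕ, ∀ r : ℕ, b < r → r + n + 1 = corank p → 2 ≤ (ar p r).card := by
  have key : ∀ n : ℕ, ∀ r : ℕ, b < r → r + n + 1 = corank p →
      ∃ x y : α, x ≠ y ∧ p ≤ x ∧ p ≤ y ∧ corank x = r ∧ corank y = r := by
    intro n
    induction n with
    | zero =>
      intro r hr hrp
      exact ⟨z1, z2, hz, h1.le, h2.le, by have := hg p z1 h1; omega,
        by have := hg p z2 h2; omega⟩
    | succ n ih =>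
      intro r hr hrp
      obtain ⟨x, y, hxy, hpx, hpy, hx, hy⟩ := ih (r + 1) (by omega) (by omega)
      obtain ⟨z, z', hzz, hz1, hz2⟩ := hN x (hV p hp x hpx) y (hV p hp y hpy) hxy
        (by rw [hx, hy]) (by omega) (by omega)
      have aux : ∀ w, (x ⋖ w ∨ y ⋖ w) → p ≤ w ∧ corank w = r := by
        rintro w (hw | hw)
        · have := hg x w hw
          exact ⟨hpx.trans hw.le, by omega⟩
        · have := hg y w hw
          exact ⟨hpy.trans hw.le, by omega⟩
      exact ⟨z, z', hzz, (aux z hz1).1, (aux z' hz2).1, (aux z hz1).2, (aux z' hz2).2⟩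
  intro n r hr hrp
  obtain ⟨x, y, hxy, hpx, hpy, hx, hy⟩ := key n r hr hrp
  have h3 : ({x, y} : Finset α) ⊆ ar p r := by
    intro w hw
    rw [mem_insert, mem_singleton] at hw
    rw [mem_ar]
    rcases hw with rfl | rfl
    · exact ⟨hpx, hx⟩
    · exact ⟨hpy, hy⟩
  have := card_le_card h3
  rwa [card_pair hxy] at this

/-- the number of the elements above `p` at the levels `> b`, by rows -/
lemma card_above_eq {b J : ℕ} {p : α} (hp : corank p = b + J) :
    (above b p).card = ∑ r ∈ Ioc b (b + J), (ar p r).card := by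
  have h1 : ∀ y ∈ above b p, corank y ∈ Ioc b (b + J) := by
    intro y hy
    rw [mem_above] at hy
    rw [mem_Ioc]
    refine ⟨hy.2, ?_⟩
    rcases eq_or_lt_of_le hy.1 with h | h
    · rw [← h, hp]
    · have := corank_lt h
      omega
  rw [card_eq_sum_card_fiberwise h1]
  apply Finset.sum_congr rfl
  intro r hr
  rw [mem_Ioc] at hr
  congr 1
  ext y
  rw [mem_filter, mem_above, mem_ar]
  constructor
  · rintro ⟨⟨h2, _⟩, h3⟩
    exact ⟨h2, h3⟩
  · rintro ⟨h2, h3⟩
    exact ⟨⟨h2, by omega⟩, h3⟩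

lemma ar_self {p : α} {r : ℕ} (h : corank p = r) : ar p r = {p} := by
  ext y
  rw [mem_ar, mem_singleton]
  constructor
  · rintro ⟨h1, h2⟩
    rcases eq_or_lt_of_le h1 with h3 | h3
    · exact h3.symm
    · have := corank_lt h3
      omega
  · rintro rfl
    exact ⟨le_rfl, h⟩

/-- if the total energy is at most the number of elements above `p`, the function is the
indicator -/
lemma eq_ind_of_le (hg : Grad α) {V : Finset α} (hV : UpC V) {b : ℕ} {η : α → ℕ}
    (hη : ∀ x, η x ≠ 0 → x ∈ V) (hgood : GoodOn V b η) {p : α} (hp : p ∈ V) (hp0 : η p ≠ 0)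
    (hE : ∑ y ∈ V, η y ≤ (above b p).card) :
    ∀ y, η y = if y ∈ above b p then 1 else 0 := by
  have hpos : ∀ y ∈ above b p, 1 ≤ η y := by
    intro y hy
    rw [mem_above] at hy
    have := pos_up_le hg hV hgood (corank p) p y (by omega) hp hy.1 hp0 hy.2
    omega
  have hsub : above b p ⊆ V := by
    intro y hy
    rw [mem_above] at hy
    exact hV p hp y hy.1
  have h1 : (above b p).card ≤ ∑ y ∈ above b p, η y := by
    calc (above b p).card = ∑ y ∈ above b p, 1 := by simp
      _ ≤ _ := Finset.sum_le_sum hpos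
  have h2 : ∑ y ∈ above b p, η y ≤ ∑ y ∈ V, η y := Finset.sum_le_sum_of_subset hsub
  intro y
  by_cases hy : y ∈ above b p
  · rw [if_pos hy]
    by_contra h3
    have h4 : 1 < η y := by have := hpos y hy; omega
    have h5 : ∑ w ∈ above b p, 1 < ∑ w ∈ above b p, η w :=
      Finset.sum_lt_sum hpos ⟨y, hy, h4⟩
    simp at h5
    omega
  · rw [if_neg hy]
    by_contra h3
    have h4 : insert y (above b p) ⊆ V := by
      intro w hw
      rw [mem_insert] at hw
      rcases hw with rfl | hw
      · exact hη _ h3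
      · exact hsub hw
    have h5 := Finset.sum_le_sum_of_subset (f := η) h4
    rw [sum_insert hy] at h5
    omega

/-- `z` is a parent of an element of row `b + 1` above `p` -/
def IsPar (b : ℕ) (p z : α) : Prop := ∃ x ∈ ar p (b + 1), x ⋖ z

/-- the free elements of the indicator of the elements above `p` -/
lemma fr_ind (hg : Grad α) {V : Finset α} (hV : UpC V) {b : ℕ} {η : α → ℕ} {p : α} (hp : p ∈ V)
    (hη : ∀ y, η y = if y ∈ above b p then 1 else 0) :
    (rw' V b).card + (ar p (b + 1)).card ≤ (frV V b η).card +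
      ((rw' V b).filter fun z => IsPar b p z).card := by
  have hsub : ar p (b + 1) ∪ (rw' V b).filter (fun z => ¬ IsPar b p z) ⊆
      frV V b η := by
    intro y hy
    rw [mem_union] at hy
    rcases hy with hy | hy
    · rw [mem_ar] at hy
      have h1 : η y = 1 := by
        rw [hη, if_pos (mem_above.2 ⟨hy.1, by omega⟩)]
      rw [frV, mem_filter]
      refine ⟨hV p hp y hy.1, ?_, ?_⟩
      · rintro (⟨h2, _⟩ | ⟨_, x, hx, h2⟩)
        · omega
        · rw [h1, hη] at h2
          split_ifs at h2 <;> omega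
      · rintro (⟨h2, _⟩ | ⟨_, z, hz, h2⟩)
        · omega
        · have h3 := hg y z hz
          rw [h1, hη, if_neg (by rw [mem_above]; omega)] at h2
          omega
    · rw [mem_filter, rw', mem_filter] at hy
      obtain ⟨⟨hyV, hyb⟩, hno⟩ := hy
      have h1 : η y = 0 := by rw [hη, if_neg (by rw [mem_above]; omega)]
      rw [frV, mem_filter]
      refine ⟨hyV, ?_, ?_⟩
      · rintro (⟨h2, _⟩ | ⟨_, x, hx, h2⟩)
        · omega
        · have h3 := hg x y hx
          rw [h1, hη] at h2
          by_cases h4 : x ∈ above b p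
          · rw [mem_above] at h4
            exact hno ⟨x, mem_ar.2 ⟨h4.1, by omega⟩, hx⟩
          · rw [if_neg h4] at h2
            omega
      · rintro (⟨_, z, hz, h2⟩ | ⟨h2, _⟩)
        · have h3 := hg y z hz
          rw [h1, hη, if_neg (by rw [mem_above]; omega)] at h2
          omega
        · omega
  have hd : Disjoint (ar p (b + 1))
      ((rw' V b).filter (fun z => ¬ IsPar b p z)) := by
    rw [Finset.disjoint_left]
    intro y hy hy'
    rw [mem_ar] at hy
    rw [mem_filter, rw', mem_filter] at hy'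
    omega
  have h1 := card_le_card hsub
  rw [card_union_of_disjoint hd] at h1
  have h2 := Finset.card_filter_add_card_filter_not (s := rw' V b)
    (fun z => IsPar b p z)
  omega

/-- **heads of an element with two parents** -/
theorem head_two (hg : Grad α) {V : Finset α} (hV : UpC V) {b J : ℕ} (hJ : 1 ≤ J)
    (hN : NoFork V b (b + J)) (hD : Dg V b) (hA : A3 V b (b + J)) {η : α → ℕ}
    (hη : ∀ x, η x ≠ 0 → x ∈ V) (hgood : GoodOn V b η) {p : α} (hp : p ∈ V)
    (hpi : corank p = b + J) (hp0 : η p ≠ 0) {z1 z2 : α} (hz : z1 ≠ z2) (h1 : p ⋖ z1)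
    (h2 : p ⋖ z2) (hE : ∑ y ∈ V, η y ≤ 2 * J - 1) :
    (rw' V b).card - 1 ≤ (frV V b η).card := by
  have hc : ∀ r ∈ Ioc b (b + J), (if r = b + J then 1 else 2) ≤ (ar p r).card := by
    intro r hr
    rw [mem_Ioc] at hr
    split_ifs with h
    · rw [ar_self (by omega), card_singleton]
    · exact cone_two hg hV hN hp (by omega) hz h1 h2 (corank p - r - 1) r hr.1 (by omega)
  have hsum : ∑ r ∈ Ioc b (b + J), (if r = b + J then 1 else 2) = 2 * J - 1 := by
    obtain ⟨J', rfl⟩ : ∃ J', J = J' + 1 := ⟨J - 1, by omega⟩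
    rw [show Ioc b (b + (J' + 1)) = insert (b + (J' + 1)) (Ioc b (b + J')) by
      ext r; simp only [mem_Ioc, mem_insert]; omega]
    rw [sum_insert (by simp)]
    rw [if_pos rfl, Finset.sum_congr rfl (g := fun _ => 2)]
    · rw [sum_const, Nat.card_Ioc, smul_eq_mul]
      omega
    · intro r hr
      rw [mem_Ioc] at hr
      rw [if_neg (by omega)]
  have hcard : 2 * J - 1 ≤ (above b p).card := by
    rw [card_above_eq hpi, ← hsum]
    exact Finset.sum_le_sum hc
  have hind := eq_ind_of_le hg hV hη hgood hp hp0 (hE.trans hcard)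
  -- equality
  have hE2 : (above b p).card ≤ 2 * J - 1 := by
    have h3 : ∑ y ∈ above b p, η y ≤ ∑ y ∈ V, η y := by
      apply Finset.sum_le_sum_of_subset
      intro y hy
      rw [mem_above] at hy
      exact hV p hp y hy.1
    have h4 : ∑ y ∈ above b p, η y = (above b p).card := by
      rw [Finset.sum_congr rfl (g := fun _ => 1)]
      · simp
      · intro y hy
        rw [hind, if_pos hy]
    omega
  have heq : ∀ r ∈ Ioc b (b + J), (if r = b + J then 1 else 2) = (ar p r).card := by
    intro r hr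
    by_contra hne
    have h3 : ∑ r ∈ Ioc b (b + J), (if r = b + J then 1 else 2) <
        ∑ r ∈ Ioc b (b + J), (ar p r).card :=
      Finset.sum_lt_sum hc ⟨r, hr, lt_of_le_of_ne (hc r hr) hne⟩
    rw [hsum, ← card_above_eq hpi] at h3
    omega
  have h3 := fr_ind hg hV hp hind
  have h4 := heq (b + 1) (by rw [mem_Ioc]; omega)
  by_cases hJ1 : J = 1
  · subst hJ1
    rw [if_pos rfl] at h4
    have h5 : ((rw' V b).filter fun z => IsPar b p z).card ≤ 2 := by
      refine le_trans (card_le_card ?_) (hD p hp hpi)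
      intro z hz'
      rw [mem_filter] at hz'
      obtain ⟨_, x, hx, hxz⟩ := hz'
      rw [ar_self hpi, mem_singleton] at hx
      rw [hx] at hxz
      simp [hxz]
    omega
  · rw [if_neg (by omega)] at h4
    obtain ⟨x1, x2, hx12, hx⟩ := card_eq_two.1 h4.symm
    have h5 : ((rw' V b).filter fun z => IsPar b p z).card ≤ 3 := by
      refine le_trans (card_le_card ?_) (hA p hp (by omega) x1 x2 hx12 hx)
      intro z hz'
      rw [mem_filter] at hz'
      obtain ⟨_, x, hx', hxz⟩ := hz'
      rw [hx, mem_insert, mem_singleton] at hx'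
      rw [mem_filter]
      rcases hx' with rfl | rfl
      · exact ⟨mem_univ _, Or.inl hxz⟩
      · exact ⟨mem_univ _, Or.inr hxz⟩
    omega

lemma rw'_lo (V : Finset α) {b i : ℕ} (h : b ≤ i) : rw' (lo V i) b = rw' V b := by
  ext y
  rw [rw', rw', mem_filter, mem_filter, mem_lo]
  constructor
  · rintro ⟨⟨h1, _⟩, h2⟩
    exact ⟨h1, h2⟩
  · rintro ⟨h1, h2⟩
    exact ⟨⟨h1, by omega⟩, h2⟩

lemma NoFork.lo {V : Finset α} {b i : ℕ} (h : NoFork V b i) : NoFork (lo V i) b i :=
  fun p hp p' hp' => h p (mem_lo.1 hp).1 p' (mem_lo.1 hp').1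

lemma Dg.lo {V : Finset α} {b i : ℕ} (h : Dg V b) : Dg (lo V i) b :=
  fun p hp => h p (mem_lo.1 hp).1

lemma A3.lo {V : Finset α} {b i : ℕ} (h : A3 V b i) : A3 (lo V i) b i :=
  fun p hp => h p (mem_lo.1 hp).1

open Polynomial in
/-- the heads of an element with two parents vanish -/
theorem HS_two (hg : Grad α) {V : Finset α} (hV : UpC V) {b J : ℕ} (hJ : 1 ≤ J)
    (hN : NoFork V b (b + J)) (hD : Dg V b) (hA : A3 V b (b + J)) {p : α} (hp : p ∈ V)
    (hpi : corank p = b + J) {z1 z2 : α} (hz : z1 ≠ z2) (h1 : p ⋖ z1) (h2 : p ⋖ z2) {k : ℕ}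
    (hk : k ≤ (rw' V b).card - 1) {s : ℕ} (hs : s ≤ 2 * J - 1) :
    (X : ℤ[X]) ^ k ∣ HS V b (b + J) p s := by
  rw [HS]
  apply Finset.dvd_sum
  intro η hη
  rw [mem_filter, mem_piAntidiag] at hη
  by_cases hgood : GoodOn (lo V (b + J)) b η
  · apply dvd_tmV
    have h3 := head_two hg (lo_upC hV (b + J)) hJ hN.lo hD.lo hA.lo hη.1.2 hgood
      (mem_lo.2 ⟨hp, by omega⟩) hpi (by rw [hη.2.1]; omega) hz h1 h2 (by rw [hη.1.1]; exact hs)
    rw [rw'_lo V (by omega)] at h3
    omega
  · rw [tmV, if_neg hgood]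
    exact dvd_zero _

end SS

end Pool.Gauss
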