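import Pool.Agent.Work.MP_065141_co.K.StrD

/-!
# Transport along coordinates

`Crd V i S co`: the rows `≤ i` of the up-set `V` are the points `(x, y)` with `S (x, y)`,
`x + y ≤ i`, the corank is `x + y` and the covers are the unit steps.
-/

set_option autoImplicit false
set_option linter.unusedSectionVars false
open scoped Classical
open Finset

namespace Pool.Gauss

namespace SS

open NM

/-- coordinates on the rows `≤ i` of `V` -/
structure Crd {α : Type} [Fintype α] [PartialOrder α] (V : Finset α) (i : ℕ)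
    (S : ℕ × ℕ → Prop) (co : α → ℕ × ℕ) : Prop where
  sum : ∀ y ∈ lo V i, (co y).1 + (co y).2 = corank y
  inj : ∀ y ∈ lo V i, ∀ z ∈ lo V i, co y = co z → y = z
  mem : ∀ y ∈ lo V i, S (co y)
  surj : ∀ c, S c → c.1 + c.2 ≤ i → ∃ y ∈ lo V i, co y = c
  cov : ∀ y ∈ lo V i, ∀ z ∈ lo V i,
    (y ⋖ z ↔ co y = ((co z).1 + 1, (co z).2) ∨ co y = ((co z).1, (co z).2 + 1))

variable {α β : Type} [Fintype α] [PartialOrder α] [Fintype β] [PartialOrder β]

lemma card_eq_of_rel {A : Finset α} {B : Finset β} (R : α → β → Prop)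
    (h1 : ∀ y ∈ A, ∃ w ∈ B, R y w) (h2 : ∀ w ∈ B, ∃ y ∈ A, R y w)
    (h3 : ∀ y w w', y ∈ A → w ∈ B → w' ∈ B → R y w → R y w' → w = w')
    (h4 : ∀ y y' w, y ∈ A → y' ∈ A → w ∈ B → R y w → R y' w → y = y') : A.card = B.card := by
  choose f hf1 hf2 using h1
  apply Finset.card_bij f
  · exact hf1
  · intro a ha a' ha' h
    have h5 := hf2 a' ha'
    rw [← h] at h5
    exact h4 a a' _ ha ha' (hf1 a ha) (hf2 a ha) h5
  · intro w hw
    obtain ⟨y, hy, hyw⟩ := h2 w hw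
    exact ⟨y, hy, h3 y _ w hy (hf1 y hy) hw (hf2 y hy) hyw⟩

/-- transport of functions -/
noncomputable def Tr (A : Finset α) (B : Finset β) (co : α → ℕ × ℕ) (co' : β → ℕ × ℕ)
    (η : α → ℕ) (w : β) : ℕ :=
  if w ∈ B then ∑ y ∈ A.filter (fun y => co y = co' w), η y else 0

section

variable {V : Finset α} {W : Finset β} {i : ℕ} {S : ℕ × ℕ → Prop} {co : α → ℕ × ℕ}
  {co' : β → ℕ × ℕ}

lemma Tr_eq (hc : Crd V i S co) {η : α → ℕ} {y : α} {w : β} (hy : y ∈ lo V i) (hw : w ∈ lo W i)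
    (h : co y = co' w) : Tr (lo V i) (lo W i) co co' η w = η y := by
  rw [Tr, if_pos hw]
  have e : (lo V i).filter (fun y => co y = co' w) = {y} := by
    ext z
    rw [mem_filter, mem_singleton]
    constructor
    · rintro ⟨h1, h2⟩
      exact hc.inj z h1 y hy (by rw [h2, h])
    · rintro rfl
      exact ⟨hy, h⟩
  rw [e, sum_singleton]

lemma Tr_supp {η : α → ℕ} {w : β} (h : Tr (lo V i) (lo W i) co co' η w ≠ 0) : w ∈ lo W i := by
  by_contra h1
  rw [Tr, if_neg h1] at h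
  exact h rfl

lemma Tr_Tr (hc : Crd V i S co) (hc' : Crd W i S co') {η : α → ℕ}
    (hη : ∀ x, η x ≠ 0 → x ∈ lo V i) :
    Tr (lo W i) (lo V i) co' co (Tr (lo V i) (lo W i) co co' η) = η := by
  funext y
  by_cases hy : y ∈ lo V i
  · obtain ⟨w, hw, hwy⟩ := hc'.surj (co y) (hc.mem y hy)
      (by rw [hc.sum y hy]; exact (mem_lo.1 hy).2)
    rw [Tr_eq hc' hw hy hwy, Tr_eq hc hy hw hwy.symm]
  · rw [Tr, if_neg hy]
    by_contra h
    exact hy (hη y fun h' => h h'.symm)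

lemma Tr_sum (hc : Crd V i S co) (hc' : Crd W i S co') (η : α → ℕ) :
    ∑ w ∈ lo W i, Tr (lo V i) (lo W i) co co' η w = ∑ y ∈ lo V i, η y := by
  have h1 : ∀ w ∈ lo W i, ∃ y, y ∈ lo V i ∧ co y = co' w := by
    intro w hw
    obtain ⟨y, hy, hyw⟩ := hc.surj (co' w) (hc'.mem w hw)
      (by rw [hc'.sum w hw]; exact (mem_lo.1 hw).2)
    exact ⟨y, hy, hyw⟩
  choose f hf1 hf2 using h1
  refine Finset.sum_bij f hf1 ?_ ?_ ?_
  · intro w hw w' hw' h
    apply hc'.inj w hw w' hw'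
    rw [← hf2 w hw, ← hf2 w' hw', h]
  · intro y hy
    obtain ⟨w, hw, hwy⟩ := hc'.surj (co y) (hc.mem y hy)
      (by rw [hc.sum y hy]; exact (mem_lo.1 hy).2)
    exact ⟨w, hw, hc.inj _ (hf1 w hw) y hy (by rw [hf2 w hw, hwy])⟩
  · intro w hw
    exact Tr_eq hc (hf1 w hw) hw (hf2 w hw)

lemma Crd.corank_eq (hc : Crd V i S co) (hc' : Crd W i S co') {y : α} {w : β}
    (hy : y ∈ lo V i) (hw : w ∈ lo W i) (h : co y = co' w) : corank y = corank w := by
  rw [← hc.sum y hy, ← hc'.sum w hw, h]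

lemma Crd.covBy_iff (hc : Crd V i S co) (hc' : Crd W i S co') {y z : α} {w v : β}
    (hy : y ∈ lo V i) (hz : z ∈ lo V i) (hw : w ∈ lo W i) (hv : v ∈ lo W i) (h : co y = co' w)
    (h' : co z = co' v) : y ⋖ z ↔ w ⋖ v := by
  rw [hc.cov y hy z hz, hc'.cov w hw v hv, h, h']

lemma in_transport (hc : Crd V i S co) (hc' : Crd W i S co') {b : ℕ} {η : α → ℕ} {ζ : β → ℕ}
    (hη : ∀ x, η x ≠ 0 → x ∈ lo V i) (he : ∀ y ∈ lo V i, ∀ w ∈ lo W i, co y = co' w → η y = ζ w)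
    {y : α} {w : β} (hy : y ∈ lo V i) (hw : w ∈ lo W i) (h : co y = co' w) (hin : inE b η y) :
    inE b ζ w := by
  have hcr := hc.corank_eq hc' hy hw h
  have key : ∀ x, x ⋖ y → η x ≠ 0 → ∃ v, v ⋖ w ∧ η x = ζ v := by
    intro x hx hx0
    have hxV := hη x hx0
    obtain ⟨v, hv, hvx⟩ := hc'.surj (co x) (hc.mem x hxV)
      (by rw [hc.sum x hxV]; exact (mem_lo.1 hxV).2)
    exact ⟨v, (hc.covBy_iff hc' hxV hy hv hw hvx.symm h).1 hx, he x hxV v hv hvx.symm⟩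
  rcases hin with ⟨h1, h2 | ⟨x, hx, h2⟩⟩ | ⟨h1, x, hx, h2⟩
  · left
    refine ⟨by omega, Or.inl ?_⟩
    rw [← he y hy w hw h, ← hcr]
    exact h2
  · left
    refine ⟨by omega, ?_⟩
    by_cases h3 : η y = 0
    · left
      rw [← he y hy w hw h, h3]
      omega
    · right
      obtain ⟨v, hv, hvx⟩ := key x hx (by omega)
      refine ⟨v, hv, ?_⟩
      rw [← he y hy w hw h, ← hvx]
      exact h2
  · right
    obtain ⟨v, hv, hvx⟩ := key x hx (by omega)
    refine ⟨by omega, v, hv, ?_⟩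
    rw [← he y hy w hw h, ← hvx]
    exact h2

lemma out_transport (hV : UpC V) (hc : Crd V i S co) (hc' : Crd W i S co')
    {b : ℕ} {η : α → ℕ} {ζ : β → ℕ}
    (he : ∀ y ∈ lo V i, ∀ w ∈ lo W i, co y = co' w → η y = ζ w)
    {y : α} {w : β} (hy : y ∈ lo V i) (hw : w ∈ lo W i) (h : co y = co' w)
    (hout : outE b η y) : outE b ζ w := by
  have hcr := hc.corank_eq hc' hy hw h
  have key : ∀ z, y ⋖ z → ∃ v, w ⋖ v ∧ η z = ζ v := by
    intro z hz
    have hzV : z ∈ lo V i := lo_upC hV i y hy z hz.le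
    obtain ⟨v, hv, hvz⟩ := hc'.surj (co z) (hc.mem z hzV)
      (by rw [hc.sum z hzV]; exact (mem_lo.1 hzV).2)
    exact ⟨v, (hc.covBy_iff hc' hy hzV hw hv h hvz.symm).1 hz, he z hzV v hv hvz.symm⟩
  rcases hout with ⟨h1, z, hz, h2⟩ | ⟨h1, z, hz, h2⟩
  · left
    obtain ⟨v, hv, hvz⟩ := key z hz
    refine ⟨by omega, v, hv, ?_⟩
    rw [← he y hy w hw h, ← hvz]
    exact h2
  · right
    obtain ⟨v, hv, hvz⟩ := key z hz
    refine ⟨by omega, v, hv, ?_⟩
    rw [← he y hy w hw h, ← hvz]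
    exact h2

/-- transport of the weights -/
lemma tmV_transport (hV : UpC V) (hW : UpC W) (hc : Crd V i S co) (hc' : Crd W i S co') {b : ℕ}
    {η : α → ℕ} {ζ : β → ℕ} (hη : ∀ x, η x ≠ 0 → x ∈ lo V i) (hζ : ∀ x, ζ x ≠ 0 → x ∈ lo W i)
    (he : ∀ y ∈ lo V i, ∀ w ∈ lo W i, co y = co' w → η y = ζ w) :
    tmV (lo V i) b η = tmV (lo W i) b ζ := by
  have he' : ∀ w ∈ lo W i, ∀ y ∈ lo V i, co' w = co y → ζ w = η y :=
    fun w hw y hy h => (he y hy w hw h.symm).symm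
  have s1 : ∀ y ∈ lo V i, ∃ w ∈ lo W i, co y = co' w := by
    intro y hy
    obtain ⟨w, hw, h⟩ := hc'.surj (co y) (hc.mem y hy) (by rw [hc.sum y hy]; exact (mem_lo.1 hy).2)
    exact ⟨w, hw, h.symm⟩
  have s2 : ∀ w ∈ lo W i, ∃ y ∈ lo V i, co y = co' w := by
    intro w hw
    obtain ⟨y, hy, h⟩ := hc.surj (co' w) (hc'.mem w hw)
      (by rw [hc'.sum w hw]; exact (mem_lo.1 hw).2)
    exact ⟨y, hy, h⟩
  have ei : ∀ y ∈ lo V i, ∀ w ∈ lo W i, co y = co' w → (inE b η y ↔ inE b ζ w) :=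
    fun y hy w hw h => ⟨in_transport hc hc' hη he hy hw h,
      in_transport hc' hc hζ he' hw hy h.symm⟩
  have eo : ∀ y ∈ lo V i, ∀ w ∈ lo W i, co y = co' w → (outE b η y ↔ outE b ζ w) :=
    fun y hy w hw h => ⟨out_transport hV hc hc' he hy hw h,
      out_transport hW hc' hc he' hw hy h.symm⟩
  have hgd : GoodOn (lo V i) b η ↔ GoodOn (lo W i) b ζ := by
    constructor
    · intro h w hw
      obtain ⟨y, hy, hyw⟩ := s2 w hw
      rw [← ei y hy w hw hyw, ← eo y hy w hw hyw]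
      exact h y hy
    · intro h y hy
      obtain ⟨w, hw, hyw⟩ := s1 y hy
      rw [ei y hy w hw hyw, eo y hy w hw hyw]
      exact h w hw
  have card : ∀ (P : α → Prop) (Q : β → Prop) [DecidablePred P] [DecidablePred Q],
      (∀ y ∈ lo V i, ∀ w ∈ lo W i, co y = co' w → (P y ↔ Q w)) →
      ((lo V i).filter P).card = ((lo W i).filter Q).card := by
    intro P Q _ _ hPQ
    apply card_eq_of_rel (fun y w => co y = co' w)
    · intro y hy
      rw [mem_filter] at hy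
      obtain ⟨w, hw, hyw⟩ := s1 y hy.1
      exact ⟨w, mem_filter.2 ⟨hw, (hPQ y hy.1 w hw hyw).1 hy.2⟩, hyw⟩
    · intro w hw
      rw [mem_filter] at hw
      obtain ⟨y, hy, hyw⟩ := s2 w hw.1
      exact ⟨y, mem_filter.2 ⟨hy, (hPQ y hy w hw.1 hyw).2 hw.2⟩, hyw⟩
    · intro y w w' _ hw hw' h h'
      rw [mem_filter] at hw hw'
      exact hc'.inj w hw.1 w' hw'.1 (by rw [← h, ← h'])
    · intro y y' w hy hy' _ h h'
      rw [mem_filter] at hy hy'
      exact hc.inj y hy.1 y' hy'.1 (by rw [h, h'])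
  unfold tmV
  by_cases h1 : GoodOn (lo V i) b η
  · rw [if_pos h1, if_pos (hgd.1 h1)]
    congr 2
    · exact card _ _ ei
    · exact card (fun y => ¬ inE b η y ∧ ¬ outE b η y) (fun w => ¬ inE b ζ w ∧ ¬ outE b ζ w)
        fun y hy w hw h => by rw [ei y hy w hw h, eo y hy w hw h]
  · rw [if_neg h1, if_neg (fun h => h1 (hgd.2 h))]

lemma Tr_mem (hc : Crd V i S co) (hc' : Crd W i S co') {η : α → ℕ} {s : ℕ}
    (hη : η ∈ (lo V i).piAntidiag s) :
    Tr (lo V i) (lo W i) co co' η ∈ (lo W i).piAntidiag s := by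
  rw [mem_piAntidiag] at hη ⊢
  exact ⟨by rw [Tr_sum hc hc']; exact hη.1, fun w hw => Tr_supp hw⟩

/-- **transport of the series** -/
theorem SV_transport (hV : UpC V) (hW : UpC W) (hc : Crd V i S co) (hc' : Crd W i S co')
    (b : ℕ) : SV (lo V i) b = SV (lo W i) b := by
  ext1 s
  rw [coeff_SV, coeff_SV]
  refine Finset.sum_bij' (fun η _ => Tr (lo V i) (lo W i) co co' η)
    (fun ζ _ => Tr (lo W i) (lo V i) co' co ζ) (fun η hη => Tr_mem hc hc' hη)
    (fun ζ hζ => Tr_mem hc' hc hζ) ?_ ?_ ?_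
  · intro η hη
    exact Tr_Tr hc hc' (mem_piAntidiag.1 hη).2
  · intro ζ hζ
    exact Tr_Tr hc' hc (mem_piAntidiag.1 hζ).2
  · intro η hη
    exact tmV_transport hV hW hc hc' (mem_piAntidiag.1 hη).2 (fun w hw => Tr_supp hw)
      (fun y hy w hw h => (Tr_eq hc hy hw h).symm)

lemma Hd_transport (hc : Crd V i S co) (hc' : Crd W i S co')
    {η : α → ℕ} {ζ : β → ℕ}
    (he : ∀ y ∈ lo V i, ∀ w ∈ lo W i, co y = co' w → η y = ζ w) {p : α} {q : β}
    (hp : p ∈ lo V i) (hq : q ∈ lo W i) (h : co p = co' q) (hH : Hd V i p η) : Hd W i q ζ := by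
  refine ⟨by rw [← he p hp q hq h]; exact hH.1, ?_⟩
  intro w hw hwi hwq
  have hw' : w ∈ lo W i := mem_lo.2 ⟨hw, hwi.le⟩
  obtain ⟨y, hy, hyw⟩ := hc.surj (co' w) (hc'.mem w hw')
    (by rw [hc'.sum w hw']; exact (mem_lo.1 hw').2)
  rw [← he y hy w hw' hyw]
  apply hH.2 y (mem_lo.1 hy).1
  · rw [hc.corank_eq hc' hy hw' hyw, hwi]
  · rintro rfl
    exact hwq (hc'.inj w hw' q hq (by rw [← hyw, h]))

/-- **transport of the heads** -/
theorem HS_transport (hV : UpC V) (hW : UpC W) (hc : Crd V i S co) (hc' : Crd W i S co')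
    (b : ℕ) {p : α} {q : β} (hp : p ∈ lo V i) (hq : q ∈ lo W i) (h : co p = co' q) (s : ℕ) :
    HS V b i p s = HS W b i q s := by
  rw [HS, HS]
  refine Finset.sum_bij' (fun η _ => Tr (lo V i) (lo W i) co co' η)
    (fun ζ _ => Tr (lo W i) (lo V i) co' co ζ) ?_ ?_ ?_ ?_ ?_
  · intro η hη
    rw [mem_filter] at hη ⊢
    exact ⟨Tr_mem hc hc' hη.1, Hd_transport hc hc'
      (fun y hy w hw h => (Tr_eq hc hy hw h).symm) hp hq h hη.2⟩
  · intro ζ hζ
    rw [mem_filter] at hζ ⊢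
    exact ⟨Tr_mem hc' hc hζ.1, Hd_transport hc' hc
      (fun y hy w hw h => (Tr_eq hc' hy hw h).symm) hq hp h.symm hζ.2⟩
  · intro η hη
    rw [mem_filter] at hη
    exact Tr_Tr hc hc' (mem_piAntidiag.1 hη.1).2
  · intro ζ hζ
    rw [mem_filter] at hζ
    exact Tr_Tr hc' hc (mem_piAntidiag.1 hζ.1).2
  · intro η hη
    rw [mem_filter] at hη
    exact tmV_transport hV hW hc hc' (mem_piAntidiag.1 hη.1).2 (fun w hw => Tr_supp hw)
      (fun y hy w hw h => (Tr_eq hc hy hw h).symm)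

/-- the rows of `V` and `W` have the same number of elements -/
theorem card_rw' (hc : Crd V i S co) (hc' : Crd W i S co') {b : ℕ} (hb : b ≤ i) :
    (rw' V b).card = (rw' W b).card := by
  apply card_eq_of_rel (fun y w => co y = co' w)
  · intro y hy
    rw [rw', mem_filter] at hy
    have hy' : y ∈ lo V i := mem_lo.2 ⟨hy.1, by omega⟩
    obtain ⟨w, hw, h⟩ := hc'.surj (co y) (hc.mem y hy') (by rw [hc.sum y hy']; omega)
    refine ⟨w, ?_, h.symm⟩
    rw [rw', mem_filter]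
    exact ⟨(mem_lo.1 hw).1, by rw [← hc.corank_eq hc' hy' hw h.symm]; exact hy.2⟩
  · intro w hw
    rw [rw', mem_filter] at hw
    have hw' : w ∈ lo W i := mem_lo.2 ⟨hw.1, by omega⟩
    obtain ⟨y, hy, h⟩ := hc.surj (co' w) (hc'.mem w hw') (by rw [hc'.sum w hw']; omega)
    refine ⟨y, ?_, h⟩
    rw [rw', mem_filter]
    exact ⟨(mem_lo.1 hy).1, by rw [hc.corank_eq hc' hy hw' h]; exact hw.2⟩
  · intro y w w' _ hw hw' h h'
    rw [rw', mem_filter] at hw hw'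
    exact hc'.inj w (mem_lo.2 ⟨hw.1, by omega⟩) w' (mem_lo.2 ⟨hw'.1, by omega⟩) (by rw [← h, ← h'])
  · intro y y' w hy hy' _ h h'
    rw [rw', mem_filter] at hy hy'
    exact hc.inj y (mem_lo.2 ⟨hy.1, by omega⟩) y' (mem_lo.2 ⟨hy'.1, by omega⟩) (by rw [h, h'])

end

end SS

end Pool.Gauss
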