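import Pool.Agent.Work.MP_065141_co.K.StrE

/-!
# Shapes: rectangles and shifted staircases

The conditions `NoFork`, `Dg`, `A3` from coordinates.
-/

set_option autoImplicit false
set_option linter.unusedSectionVars false
open scoped Classical
open Finset

namespace Pool.Gauss

namespace SS

open NM

/-- shapes -/
structure Shp (S : ℕ × ℕ → Prop) (b : ℕ) : Prop where
  p1 : ∀ x y, S (x + 1, y) → S (x, y)
  p2 : ∀ u v w y, S (u, y) → S (u, v) → v ≤ w → w ≤ y → S (u, w)
  p3 : ∀ u v u' v', S (u, v) → S (u', v') → u < u' → u + v = u' + v' → S (u + 1, v - 1)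
  p6 : ∀ r, b < r → S (0, r + 1) → S (1, r) → S (1, r - 1)

/-- the rectangle -/
def SR (a c : ℕ) (p : ℕ × ℕ) : Prop := p.1 < a ∧ p.2 < c

/-- the shifted staircase -/
def ST (n : ℕ) (p : ℕ × ℕ) : Prop := p.1 ≤ p.2 ∧ p.2 < n

lemma SR_shp (a c b : ℕ) : Shp (SR a c) b where
  p1 := by rintro x y ⟨h1, h2⟩; exact ⟨by simp only at h1 ⊢; omega, h2⟩
  p2 := by
    rintro u v w y ⟨h1, h2⟩ ⟨h3, h4⟩ h5 h6
    exact ⟨h1, by simp only at h2 ⊢; omega⟩
  p3 := by
    rintro u v u' v' ⟨h1, h2⟩ ⟨h3, h4⟩ h5 h6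
    exact ⟨by simp only at h3 ⊢; omega, by simp only at h2 ⊢; omega⟩
  p6 := by
    rintro r hr ⟨h1, h2⟩ ⟨h3, h4⟩
    exact ⟨h3, by simp only at h4 ⊢; omega⟩

lemma ST_shp (n : ℕ) {b : ℕ} (hb : 1 ≤ b) : Shp (ST n) b where
  p1 := by rintro x y ⟨h1, h2⟩; exact ⟨by simp only at h1 ⊢; omega, h2⟩
  p2 := by
    rintro u v w y ⟨h1, h2⟩ ⟨h3, h4⟩ h5 h6
    exact ⟨by simp only at h3 ⊢; omega, by simp only at h2 ⊢; omega⟩
  p3 := by
    rintro u v u' v' ⟨h1, h2⟩ ⟨h3, h4⟩ h5 h6
    exact ⟨by simp only at h3 ⊢; omega, by simp only at h2 ⊢; omega⟩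
  p6 := by
    rintro r hr ⟨h1, h2⟩ ⟨h3, h4⟩
    exact ⟨by simp only at h3 ⊢; omega, by simp only at h4 ⊢; omega⟩

variable {α : Type} [Fintype α] [PartialOrder α]

section

variable {V : Finset α} {i b : ℕ} {S : ℕ × ℕ → Prop} {co : α → ℕ × ℕ}

/-- a parent by coordinates -/
lemma exists_par (hc : Crd V i S co) {y : α} (hy : y ∈ lo V i) {c : ℕ × ℕ} (hS : S c)
    (h : co y = (c.1 + 1, c.2) ∨ co y = (c.1, c.2 + 1)) : ∃ z ∈ lo V i, y ⋖ z ∧ co z = c := by
  have h1 := hc.sum y hy
  have h2 := (mem_lo.1 hy).2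
  have h3 : c.1 + c.2 ≤ i := by
    rcases h with h | h <;> rw [h] at h1 <;> simp only at h1 <;> omega
  obtain ⟨z, hz, hzc⟩ := hc.surj c hS h3
  refine ⟨z, hz, ?_, hzc⟩
  rw [hc.cov y hy z hz, hzc]
  exact h

lemma par_co (hV : UpC V) (hc : Crd V i S co) {y z : α} (hy : y ∈ lo V i) (h : y ⋖ z) :
    z ∈ lo V i ∧ (co y = ((co z).1 + 1, (co z).2) ∨ co y = ((co z).1, (co z).2 + 1)) := by
  have hz := lo_upC hV i y hy z h.le
  exact ⟨hz, (hc.cov y hy z hz).1 h⟩

lemma co_of_le (hg : Grad α) (hV : UpC V) (hc : Crd V i S co) : ∀ n : ℕ, ∀ y w : α,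
    corank y ≤ corank w + n → y ∈ lo V i → y ≤ w → (co w).1 ≤ (co y).1 ∧ (co w).2 ≤ (co y).2 := by
  intro n
  induction n with
  | zero =>
    intro y w hn hy hyw
    rcases eq_or_lt_of_le hyw with h | h
    · rw [h]; exact ⟨le_rfl, le_rfl⟩
    · have := corank_lt h
      omega
  | succ n ih =>
    intro y w hn hy hyw
    rcases eq_or_lt_of_le hyw with h | h
    · rw [h]; exact ⟨le_rfl, le_rfl⟩
    · obtain ⟨c, hyc, hcw⟩ := exists_covBy_of_lt h
      have h1 := hg y c hyc
      obtain ⟨hc1, h2⟩ := par_co hV hc hy hyc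
      have h3 := ih c w (by omega) hc1 hcw
      rcases h2 with h2 | h2 <;> rw [h2] <;> simp only <;> omega

lemma le_of_co (hS : Shp S b) (hc : Crd V i S co) : ∀ n : ℕ, ∀ y w : α,
    (co y).1 + (co y).2 ≤ (co w).1 + (co w).2 + n → y ∈ lo V i → w ∈ lo V i →
      (co w).1 ≤ (co y).1 → (co w).2 ≤ (co y).2 → y ≤ w := by
  intro n
  induction n with
  | zero =>
    intro y w hn hy hw h1 h2
    have : y = w := hc.inj y hy w hw (Prod.ext (by omega) (by omega))
    rw [this]
  | succ n ih =>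
    intro y w hn hy hw h1 h2
    have hSy := hc.mem y hy
    have hSw := hc.mem w hw
    by_cases h3 : (co w).1 = (co y).1
    · by_cases h4 : (co w).2 = (co y).2
      · have : y = w := hc.inj y hy w hw (Prod.ext (by omega) (by omega))
        rw [this]
      · have h5 : S ((co y).1, (co y).2 - 1) := by
          refine hS.p2 (co y).1 (co w).2 ((co y).2 - 1) (co y).2 hSy ?_ (by omega) (by omega)
          rw [← h3]
          exact hSw
        obtain ⟨z, hz, hyz, hzc⟩ := exists_par hc hy (c := ((co y).1, (co y).2 - 1)) h5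
          (Or.inr (Prod.ext rfl (by simp only; omega)))
        refine hyz.le.trans (ih z w ?_ hz hw ?_ ?_) <;> rw [hzc] <;> simp only <;> omega
    · have h5 : S ((co y).1 - 1, (co y).2) := by
        apply hS.p1
        rw [show (co y).1 - 1 + 1 = (co y).1 by omega]
        exact hSy
      obtain ⟨z, hz, hyz, hzc⟩ := exists_par hc hy (c := ((co y).1 - 1, (co y).2)) h5
        (Or.inl (Prod.ext (by simp only; omega) rfl))
      refine hyz.le.trans (ih z w ?_ hz hw ?_ ?_) <;> rw [hzc] <;> simp only <;> omega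

/-- `NoFork` from coordinates -/
theorem noFork_of (hV : UpC V) (hS : Shp S b) (hc : Crd V i S co) : NoFork V b i := by
  have key : ∀ p ∈ lo V i, ∀ p' ∈ lo V i, (co p).1 < (co p').1 → corank p = corank p' →
      b + 1 < corank p → ∃ z z' : α, z ≠ z' ∧ (p ⋖ z ∨ p' ⋖ z) ∧ (p ⋖ z' ∨ p' ⋖ z') := by
    intro p hp p' hp' hlt hcr hb
    have s1 := hc.sum p hp
    have s2 := hc.sum p' hp'
    have m1 := hc.mem p hp
    have m2 := hc.mem p' hp'
    have h3 := hS.p3 (co p).1 (co p).2 (co p').1 (co p').2 m1 m2 hlt (by omega)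
    have h4 : S ((co p).1, (co p).2 - 1) := hS.p1 _ _ h3
    have h5 : S ((co p').1 - 1, (co p').2) := by
      apply hS.p1
      rw [show (co p').1 - 1 + 1 = (co p').1 by omega]
      exact m2
    obtain ⟨z, hz, hpz, hzc⟩ := exists_par hc hp (c := ((co p).1, (co p).2 - 1)) h4
      (Or.inr (Prod.ext rfl (by simp only; omega)))
    obtain ⟨z', hz', hpz', hzc'⟩ := exists_par hc hp' (c := ((co p').1 - 1, (co p').2)) h5
      (Or.inl (Prod.ext (by simp only; omega) rfl))
    by_cases h6 : (co p').1 = (co p).1 + 1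
    · by_cases h7 : (co p).1 = 0
      · -- the second parent of `p'`
        have h8 : S ((co p').1, (co p').2 - 1) := by
          have e1 : (co p').1 = 1 := by omega
          have e2 : co p = (0, (co p').2 + 1) := Prod.ext h7 (by simp only; omega)
          have e3 : co p' = (1, (co p').2) := Prod.ext e1 rfl
          rw [e1]
          apply hS.p6 (co p').2 (by omega)
          · rw [← e2]; exact m1
          · rw [← e3]; exact m2
        obtain ⟨z'', hz'', hpz'', hzc''⟩ := exists_par hc hp' (c := ((co p').1, (co p').2 - 1)) h8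
          (Or.inr (Prod.ext rfl (by simp only; omega)))
        refine ⟨z, z'', ?_, Or.inl hpz, Or.inr hpz''⟩
        rintro rfl
        rw [hzc] at hzc''
        have := congrArg Prod.fst hzc''
        simp only at this
        omega
      · have h8 : S ((co p).1 - 1, (co p).2) := by
          apply hS.p1
          rw [show (co p).1 - 1 + 1 = (co p).1 by omega]
          exact m1
        obtain ⟨z'', hz'', hpz'', hzc''⟩ := exists_par hc hp (c := ((co p).1 - 1, (co p).2)) h8
          (Or.inl (Prod.ext (by simp only; omega) rfl))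
        refine ⟨z'', z', ?_, Or.inl hpz'', Or.inr hpz'⟩
        rintro rfl
        rw [hzc'] at hzc''
        have := congrArg Prod.fst hzc''
        simp only at this
        omega
    · refine ⟨z, z', ?_, Or.inl hpz, Or.inr hpz'⟩
      rintro rfl
      rw [hzc] at hzc'
      have := congrArg Prod.fst hzc'
      simp only at this
      omega
  intro p hp p' hp' hne hcr hb hi
  have hp1 : p ∈ lo V i := mem_lo.2 ⟨hp, hi⟩
  have hp1' : p' ∈ lo V i := mem_lo.2 ⟨hp', by omega⟩
  have s1 := hc.sum p hp1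
  have s2 := hc.sum p' hp1'
  rcases lt_trichotomy (co p).1 (co p').1 with h | h | h
  · exact key p hp1 p' hp1' h hcr hb
  · exact absurd (hc.inj p hp1 p' hp1' (Prod.ext h (by omega))) hne
  · obtain ⟨z, z', h1, h2, h3⟩ := key p' hp1' p hp1 h hcr.symm (by omega)
    exact ⟨z, z', h1, h2.symm, h3.symm⟩

/-- the parents of an element, by coordinates -/
lemma par_card_le (hV : UpC V) (hc : Crd V i S co) {A : Finset α} {B : Finset (ℕ × ℕ)}
    (h : ∀ z ∈ A, z ∈ lo V i ∧ co z ∈ B) : A.card ≤ B.card := by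
  apply Finset.card_le_card_of_injOn co (fun z hz => (h z hz).2)
  intro z hz z' hz' hzz
  exact hc.inj z (h z hz).1 z' (h z' hz').1 hzz

lemma par_mem (hV : UpC V) (hc : Crd V i S co) {y z : α} (hy : y ∈ lo V i) (h : y ⋖ z) :
    z ∈ lo V i ∧ co z ∈ ({((co y).1 - 1, (co y).2), ((co y).1, (co y).2 - 1)} :
      Finset (ℕ × ℕ)) := by
  obtain ⟨h1, h2⟩ := par_co hV hc hy h
  refine ⟨h1, ?_⟩
  rw [mem_insert, mem_singleton]
  rcases h2 with h2 | h2
  · left
    rw [h2]
    exact Prod.ext (by simp) rfl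
  · right
    rw [h2]
    exact Prod.ext rfl (by simp)

theorem dg_of (hV : UpC V) (hc : Crd V i S co) (hb : b + 1 ≤ i) : Dg V b := by
  intro u hu huc
  have hu' : u ∈ lo V i := mem_lo.2 ⟨hu, by omega⟩
  refine le_trans (par_card_le hV hc (B := {((co u).1 - 1, (co u).2), ((co u).1, (co u).2 - 1)})
    ?_) card_le_two
  intro z hz
  rw [mem_filter] at hz
  exact par_mem hV hc hu' hz.2

theorem a3_of (hg : Grad α) (hV : UpC V) (hS : Shp S b) (hc : Crd V i S co) (hb : b + 1 ≤ i) :
    A3 V b i := by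
  have key : ∀ p ∈ V, corank p ≤ i → ∀ x1 x2 : α, (co x1).1 < (co x2).1 →
      ar p (b + 1) = {x1, x2} → (univ.filter fun z : α => x1 ⋖ z ∨ x2 ⋖ z).card ≤ 3 := by
    intro p hp hpi x1 x2 hlt har
    have hp1 : p ∈ lo V i := mem_lo.2 ⟨hp, hpi⟩
    have hx1 : x1 ∈ ar p (b + 1) := by rw [har]; simp
    have hx2 : x2 ∈ ar p (b + 1) := by rw [har]; simp
    rw [mem_ar] at hx1 hx2
    have l1 : x1 ∈ lo V i := lo_upC hV i p hp1 x1 hx1.1
    have l2 : x2 ∈ lo V i := lo_upC hV i p hp1 x2 hx2.1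
    have s1 := hc.sum x1 l1
    have s2 := hc.sum x2 l2
    have c1 := co_of_le hg hV hc (corank p) p x1 (by omega) hp1 hx1.1
    have c2 := co_of_le hg hV hc (corank p) p x2 (by omega) hp1 hx2.1
    have h3 := hS.p3 (co x1).1 (co x1).2 (co x2).1 (co x2).2 (hc.mem x1 l1) (hc.mem x2 l2) hlt
      (by omega)
    have h4 : (co x2).1 = (co x1).1 + 1 := by
      obtain ⟨w, hw, hwc⟩ := hc.surj ((co x1).1 + 1, (co x1).2 - 1) h3 (by simp only; omega)
      have h5 : p ≤ w := by
        refine le_of_co hS hc ((co p).1 + (co p).2) p w (by omega) hp1 hw ?_ ?_ <;>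
          rw [hwc] <;> simp only <;> omega
      have h6 : corank w = b + 1 := by
        rw [← hc.sum w hw, hwc]
        simp only
        omega
      have h7 : w ∈ ar p (b + 1) := mem_ar.2 ⟨h5, h6⟩
      rw [har, mem_insert, mem_singleton] at h7
      rcases h7 with rfl | rfl
      · have := congrArg Prod.fst hwc
        simp only at this
        omega
      · have := congrArg Prod.fst hwc
        simp only at this
        omega
    refine le_trans (par_card_le hV hc (B := {((co x1).1 - 1, (co x1).2),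
      ((co x1).1, (co x1).2 - 1), ((co x2).1, (co x2).2 - 1)}) ?_) card_le_three
    intro z hz
    rw [mem_filter] at hz
    rcases hz.2 with h | h
    · obtain ⟨h5, h6⟩ := par_mem hV hc l1 h
      refine ⟨h5, ?_⟩
      rw [mem_insert, mem_singleton] at h6
      rw [mem_insert, mem_insert]
      tauto
    · obtain ⟨h5, h6⟩ := par_mem hV hc l2 h
      refine ⟨h5, ?_⟩
      rw [mem_insert, mem_singleton] at h6
      rw [mem_insert, mem_insert, mem_singleton]
      rcases h6 with h6 | h6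
      · right; left
        rw [h6]
        exact Prod.ext (by simp only; omega) (by simp only; omega)
      · right; right
        exact h6
  intro p hp hpi x1 x2 hne har
  have hp1 : p ∈ lo V i := mem_lo.2 ⟨hp, hpi⟩
  have hx1 : x1 ∈ ar p (b + 1) := by rw [har]; simp
  have hx2 : x2 ∈ ar p (b + 1) := by rw [har]; simp
  rw [mem_ar] at hx1 hx2
  have l1 : x1 ∈ lo V i := lo_upC hV i p hp1 x1 hx1.1
  have l2 : x2 ∈ lo V i := lo_upC hV i p hp1 x2 hx2.1
  have s1 := hc.sum x1 l1
  have s2 := hc.sum x2 l2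
  rcases lt_trichotomy (co x1).1 (co x2).1 with h | h | h
  · exact key p hp hpi x1 x2 h har
  · exact absurd (hc.inj x1 l1 x2 l2 (Prod.ext h (by omega))) hne
  · have h1 := key p hp hpi x2 x1 h (by rw [har, Finset.pair_comm])
    refine le_trans (le_of_eq ?_) h1
    congr 1
    ext z
    rw [mem_filter, mem_filter]
    tauto

end

end SS

end Pool.Gauss
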