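import Mathlib

/-!
# Gelfand-Tsetlin sums

`Z q n μ` is the generating function of the Gelfand-Tsetlin patterns with top row `μ` (weight
`q` to the sum of the entries below the top row). For `μ` monotone it is the quotient of two
Vandermonde determinants.
-/

set_option autoImplicit false
open scoped Classical
open Finset

namespace Pool.Gauss.TStar

variable {K : Type} [CommRing K] (q : K)

/-- the Vandermonde determinant -/
noncomputable def vd (n : ℕ) (x : Fin n → K) : K := (Matrix.vandermonde x).det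

/-- the generating function of the Gelfand-Tsetlin patterns with top row `μ` -/
noncomputable def Z : (n : ℕ) → (Fin n → ℕ) → K
  | 0, _ => 1
  | n + 1, μ => ∑ ν ∈ Fintype.piFinset (fun a : Fin n => Finset.Icc (μ a.castSucc) (μ a.succ)),
      q ^ (∑ a, ν a) * Z n ν

lemma Z_zero (μ : Fin 0 → ℕ) : Z q 0 μ = 1 := rfl

lemma Z_succ (n : ℕ) (μ : Fin (n + 1) → ℕ) : Z q (n + 1) μ =
    ∑ ν ∈ Fintype.piFinset (fun a : Fin n => Finset.Icc (μ a.castSucc) (μ a.succ)),
      q ^ (∑ a, ν a) * Z q n ν := rfl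

/-- the determinant of the differences of consecutive rows -/
lemma det_diff (n : ℕ) (x : Fin (n + 1) → K) :
    (Matrix.of fun (a j : Fin n) => x a.castSucc ^ ((j : ℕ) + 1) - x a.succ ^ ((j : ℕ) + 1)).det =
      (-1) ^ n * vd (n + 1) x := by
  have h1 : (Matrix.vandermonde x).det = (Matrix.of fun (a j : Fin (n + 1)) =>
      (Fin.cases (x 0 ^ (j : ℕ)) (fun b : Fin n => x b.succ ^ (j : ℕ) - x b.castSucc ^ (j : ℕ)) a :
        K)).det := by
    apply Matrix.det_eq_of_forall_row_eq_smul_add_pred (fun _ => 1)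
    · intro j
      simp [Matrix.vandermonde_apply]
    · intro i j
      simp [Matrix.vandermonde_apply]
  rw [vd, h1, Matrix.det_succ_column_zero, Fin.sum_univ_succ]
  have h2 : ∀ i : Fin n, (-1 : K) ^ ((i.succ : Fin (n + 1)) : ℕ) *
      (Matrix.of fun (a j : Fin (n + 1)) => (Fin.cases (x 0 ^ (j : ℕ)) (fun b : Fin n =>
        x b.succ ^ (j : ℕ) - x b.castSucc ^ (j : ℕ)) a : K)) i.succ 0 *
      ((Matrix.of fun (a j : Fin (n + 1)) => (Fin.cases (x 0 ^ (j : ℕ)) (fun b : Fin n =>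
        x b.succ ^ (j : ℕ) - x b.castSucc ^ (j : ℕ)) a : K)).submatrix
          (Fin.succAbove i.succ) Fin.succ).det = 0 := by
    intro i
    simp
  rw [Finset.sum_eq_zero (fun i _ => h2 i), add_zero]
  have h3 : (Matrix.of fun (a j : Fin n) => x a.castSucc ^ ((j : ℕ) + 1) -
      x a.succ ^ ((j : ℕ) + 1)) = - ((Matrix.of fun (a j : Fin (n + 1)) =>
        (Fin.cases (x 0 ^ (j : ℕ)) (fun b : Fin n =>
        x b.succ ^ (j : ℕ) - x b.castSucc ^ (j : ℕ)) a : K)).submatrix
          (Fin.succAbove 0) Fin.succ) := by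
    ext a j
    simp [Matrix.neg_apply]
  rw [h3, Matrix.det_neg]
  simp

/-- one step: the sum over an interval of columns -/
lemma sum_Icc (x y a j : ℕ) (h : x ≤ y) : (1 - q ^ (j + 1)) *
    ∑ v ∈ Finset.Icc x y, (q ^ (v + a)) ^ (j + 1) =
      (q ^ (x + a)) ^ (j + 1) - (q ^ (y + (a + 1))) ^ (j + 1) := by
  induction y, h using Nat.le_induction with
  | base =>
    rw [Finset.Icc_self, Finset.sum_singleton]
    ring
  | succ y hy ih =>
    rw [Finset.sum_Icc_succ_top (by omega), mul_add, ih]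
    ring

/-- the sum over one row of a pattern -/
lemma sum_row (n : ℕ) (μ : Fin (n + 1) → ℕ) (hμ : Monotone μ) :
    (∏ j : Fin n, (1 - q ^ ((j : ℕ) + 1))) * q ^ (∑ a : Fin n, (a : ℕ)) *
      (∑ ν ∈ Fintype.piFinset (fun a : Fin n => Finset.Icc (μ a.castSucc) (μ a.succ)),
        q ^ (∑ a, ν a) * vd n (fun i => q ^ (ν i + (i : ℕ)))) =
      (-1) ^ n * vd (n + 1) (fun i => q ^ (μ i + (i : ℕ))) := by
  have h1 : ∀ ν : Fin n → ℕ, q ^ (∑ a : Fin n, (a : ℕ)) *
      (q ^ (∑ a, ν a) * vd n (fun i => q ^ (ν i + (i : ℕ)))) =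
      (Matrix.of fun (a j : Fin n) => (q ^ (ν a + (a : ℕ))) ^ ((j : ℕ) + 1)).det := by
    intro ν
    have e : (Matrix.of fun (a j : Fin n) => (q ^ (ν a + (a : ℕ))) ^ ((j : ℕ) + 1)) =
        Matrix.of fun (a j : Fin n) => q ^ (ν a + (a : ℕ)) *
          Matrix.vandermonde (fun i : Fin n => q ^ (ν i + (i : ℕ))) a j := by
      ext a j
      simp only [Matrix.of_apply, Matrix.vandermonde_apply]
      ring
    rw [e, Matrix.det_mul_column, vd, Finset.prod_pow_eq_pow_sum, Finset.sum_add_distrib, pow_add]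
    ring
  rw [mul_assoc, Finset.mul_sum, Finset.sum_congr rfl (fun ν _ => h1 ν)]
  have h2 : ∑ ν ∈ Fintype.piFinset (fun a : Fin n => Finset.Icc (μ a.castSucc) (μ a.succ)),
      (Matrix.of fun (a j : Fin n) => (q ^ (ν a + (a : ℕ))) ^ ((j : ℕ) + 1)).det =
      (Matrix.of fun (a j : Fin n) => ∑ v ∈ Finset.Icc (μ a.castSucc) (μ a.succ),
        (q ^ (v + (a : ℕ))) ^ ((j : ℕ) + 1)).det := by
    have h3 := MultilinearMap.map_sum_finset
      (Matrix.detRowAlternating (n := Fin n) (R := K)).toMultilinearMap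
      (fun (a : Fin n) (v : ℕ) => (fun j : Fin n => (q ^ (v + (a : ℕ))) ^ ((j : ℕ) + 1)))
      (fun a : Fin n => Finset.Icc (μ a.castSucc) (μ a.succ))
    rw [eq_comm]
    have e1 : (Matrix.of fun (a j : Fin n) => ∑ v ∈ Finset.Icc (μ a.castSucc) (μ a.succ),
        (q ^ (v + (a : ℕ))) ^ ((j : ℕ) + 1)) = fun a : Fin n =>
        ∑ v ∈ Finset.Icc (μ a.castSucc) (μ a.succ), fun j : Fin n =>
          (q ^ (v + (a : ℕ))) ^ ((j : ℕ) + 1) := by
      ext a j
      simp only [Matrix.of_apply, Finset.sum_apply]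
    rw [e1]
    exact h3
  rw [h2, ← Matrix.det_mul_row]
  rw [← det_diff]
  congr 1
  ext a j
  simp only [Matrix.of_apply]
  rw [sum_Icc q _ _ _ _ (hμ (Fin.castSucc_le_succ a))]
  simp

/-- **the Gelfand-Tsetlin formula** -/
theorem Z_eq (n : ℕ) (μ : Fin n → ℕ) (hμ : Monotone μ) :
    Z q n μ * vd n (fun i => q ^ (i : ℕ)) = vd n (fun i => q ^ (μ i + (i : ℕ))) := by
  induction n with
  | zero => simp [Z_zero, vd]
  | succ n ih =>
    have h1 := sum_row q n μ hμ
    have h2 := sum_row q n (fun _ => 0) (fun _ _ _ => le_rfl)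
    have h3 : Fintype.piFinset (fun a : Fin n => Finset.Icc 0 0) = {fun _ => 0} := by
      ext ν
      simp only [Fintype.mem_piFinset, mem_Icc, mem_singleton]
      constructor
      · intro h
        funext a
        have := h a
        omega
      · rintro rfl a
        simp
    rw [h3, Finset.sum_singleton] at h2
    simp only [Finset.sum_const_zero, pow_zero, one_mul, zero_add] at h2
    have h4 : ∀ ν ∈ Fintype.piFinset (fun a : Fin n => Finset.Icc (μ a.castSucc) (μ a.succ)),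
        q ^ (∑ a, ν a) * Z q n ν * vd n (fun i => q ^ (i : ℕ)) =
        q ^ (∑ a, ν a) * vd n (fun i => q ^ (ν i + (i : ℕ))) := by
      intro ν hν
      rw [mul_assoc, ih ν]
      rw [Fintype.mem_piFinset] at hν
      rcases n with _ | n
      · intro a
        exact a.elim0
      · rw [Fin.monotone_iff_le_succ]
        intro i
        have h5 := mem_Icc.1 (hν i.castSucc)
        have h6 := mem_Icc.1 (hν i.succ)
        have e : (i.castSucc : Fin (n + 1)).succ = (i.succ : Fin (n + 1)).castSucc := rfl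
        rw [e] at h5
        exact h5.2.trans h6.1
    have h5 : (-1 : K) ^ n * (-1) ^ n = 1 := by
      rw [← mul_pow]
      simp
    have h6 : vd (n + 1) (fun i => q ^ (i : ℕ)) = (-1) ^ n * ((∏ j : Fin n, (1 - q ^ ((j : ℕ) + 1))) *
        q ^ (∑ a : Fin n, (a : ℕ)) * vd n (fun i => q ^ (i : ℕ))) := by
      rw [h2, ← mul_assoc, h5, one_mul]
    have h7 : vd (n + 1) (fun i => q ^ (μ i + (i : ℕ))) = (-1) ^ n *
        ((∏ j : Fin n, (1 - q ^ ((j : ℕ) + 1))) * q ^ (∑ a : Fin n, (a : ℕ)) *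
      (∑ ν ∈ Fintype.piFinset (fun a : Fin n => Finset.Icc (μ a.castSucc) (μ a.succ)),
        q ^ (∑ a, ν a) * vd n (fun i => q ^ (ν i + (i : ℕ))))) := by
      rw [h1, ← mul_assoc, h5, one_mul]
    rw [h6, h7, Z_succ, ← Finset.sum_congr rfl h4, ← Finset.sum_mul]
    ring

end Pool.Gauss.TStar
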