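import Pool.Agent.Work.MP_065141_co.K.TStarA

/-!
# The shifted staircase and Gelfand-Tsetlin patterns

`St n` is the shifted staircase `{(a, b) : a ≤ b < n}`. The order-preserving maps to `{0, .., M}`
with given diagonal are counted by `Z`.
-/

set_option autoImplicit false
open scoped Classical
open Finset

namespace Pool.Gauss.TStar

/-- the shifted staircase -/
abbrev St (n : ℕ) : Type := {x : Fin n × Fin n // x.1 ≤ x.2}

/-- the diagonal -/
def dg {n : ℕ} (a : Fin n) : St n := ⟨(a, a), le_rfl⟩

/-- the elements off the diagonal -/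
def off {n : ℕ} (x : St n) : St (n + 1) := ⟨(x.1.1.castSucc, x.1.2.succ), by
  have := x.2
  rw [Fin.le_def] at this ⊢
  simp only [Fin.val_castSucc, Fin.val_succ]
  omega⟩

lemma le_iff {n : ℕ} (x y : St n) : x ≤ y ↔ (x.1.1 : ℕ) ≤ y.1.1 ∧ (x.1.2 : ℕ) ≤ y.1.2 := by
  rw [← Subtype.coe_le_coe, Prod.le_def, Fin.le_def, Fin.le_def]

lemma ext_iff' {n : ℕ} (x y : St n) : x = y ↔ (x.1.1 : ℕ) = y.1.1 ∧ (x.1.2 : ℕ) = y.1.2 := by
  constructor
  · rintro rfl
    exact ⟨rfl, rfl⟩
  · rintro ⟨h1, h2⟩
    exact Subtype.ext (Prod.ext (Fin.ext h1) (Fin.ext h2))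

@[simp] lemma dg_fst {n : ℕ} (a : Fin n) : ((dg a).1.1 : ℕ) = a := rfl
@[simp] lemma dg_snd {n : ℕ} (a : Fin n) : ((dg a).1.2 : ℕ) = a := rfl
@[simp] lemma off_fst {n : ℕ} (x : St n) : ((off x).1.1 : ℕ) = x.1.1 := rfl
@[simp] lemma off_snd {n : ℕ} (x : St n) : ((off x).1.2 : ℕ) = x.1.2 + 1 := rfl

lemma prop' {n : ℕ} (x : St n) : (x.1.1 : ℕ) ≤ x.1.2 := x.2

/-- the decomposition of the staircase -/
noncomputable def es (n : ℕ) : Fin (n + 1) ⊕ St n ≃ St (n + 1) :=
  Equiv.ofBijective (Sum.elim dg off) (by
    constructor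
    · rintro (a | x) (b | y) h
      · rw [Sum.elim_inl, Sum.elim_inl, ext_iff'] at h
        simp only [dg_fst, dg_snd] at h
        exact congrArg Sum.inl (Fin.ext h.1)
      · rw [Sum.elim_inl, Sum.elim_inr, ext_iff'] at h
        simp only [dg_fst, dg_snd, off_fst, off_snd] at h
        have := prop' y
        omega
      · rw [Sum.elim_inl, Sum.elim_inr, ext_iff'] at h
        simp only [dg_fst, dg_snd, off_fst, off_snd] at h
        have := prop' x
        omega
      · rw [Sum.elim_inr, Sum.elim_inr, ext_iff'] at h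
        simp only [off_fst, off_snd] at h
        exact congrArg Sum.inr ((ext_iff' _ _).2 ⟨h.1, by omega⟩)
    · intro y
      have hy := prop' y
      have h1 := y.1.1.isLt
      have h2 := y.1.2.isLt
      by_cases h : (y.1.1 : ℕ) = y.1.2
      · refine ⟨Sum.inl y.1.1, ?_⟩
        rw [Sum.elim_inl, ext_iff']
        exact ⟨rfl, h⟩
      · refine ⟨Sum.inr ⟨(⟨y.1.1, by omega⟩, ⟨y.1.2 - 1, by omega⟩), ?_⟩, ?_⟩
        · rw [Fin.le_def]
          change (y.1.1 : ℕ) ≤ (y.1.2 : ℕ) - 1
          omega
        · rw [Sum.elim_inr, ext_iff']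
          refine ⟨rfl, ?_⟩
          change (y.1.2 : ℕ) - 1 + 1 = y.1.2
          omega)

lemma es_inl {n : ℕ} (a : Fin (n + 1)) : es n (Sum.inl a) = dg a := rfl
lemma es_inr {n : ℕ} (x : St n) : es n (Sum.inr x) = off x := rfl

lemma sum_split {n : ℕ} {A : Type} [AddCommMonoid A] (g : St (n + 1) → A) :
    ∑ x, g x = ∑ a, g (dg a) + ∑ x, g (off x) := by
  rw [← Equiv.sum_comp (es n), Fintype.sum_sum_type]
  rfl

lemma off_mono {n : ℕ} {x y : St n} (h : x ≤ y) : off x ≤ off y := by
  rw [le_iff] at h ⊢
  simp only [off_fst, off_snd]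
  omega

lemma mono_iff {n : ℕ} {B : Type} [Preorder B] (σ : St (n + 1) → B) :
    Monotone σ ↔ Monotone (fun x => σ (off x)) ∧
      ∀ a : Fin n, σ (dg a.castSucc) ≤ σ (off (dg a)) ∧ σ (off (dg a)) ≤ σ (dg a.succ) := by
  constructor
  · intro h
    refine ⟨fun x y hxy => h (off_mono hxy), fun a => ⟨h ?_, h ?_⟩⟩
    · rw [le_iff]
      simp
    · rw [le_iff]
      simp
  · rintro ⟨h1, h2⟩ x y hxy
    obtain ⟨x', rfl⟩ := (es n).surjective x
    obtain ⟨y', rfl⟩ := (es n).surjective y
    rcases x' with a | x <;> rcases y' with b | y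
    · rw [es_inl, es_inl] at hxy ⊢
      rw [le_iff] at hxy
      simp only [dg_fst, dg_snd] at hxy
      have ha := a.isLt
      have hb := b.isLt
      rcases Nat.eq_or_lt_of_le hxy.1 with h | h
      · rw [Fin.ext h]
      · have e1 : a = (⟨a, by omega⟩ : Fin n).castSucc := rfl
        have e2 : b = (⟨b - 1, by omega⟩ : Fin n).succ := by
          ext
          simp only [Fin.val_succ]
          omega
        have h3 := (h2 ⟨a, by omega⟩).1
        have h4 := (h2 ⟨b - 1, by omega⟩).2
        rw [← e1] at h3
        rw [← e2] at h4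
        refine h3.trans (le_trans (h1 ?_) h4)
        rw [le_iff]
        simp only [dg_fst, dg_snd]
        omega
    · rw [es_inl, es_inr] at hxy ⊢
      rw [le_iff] at hxy
      simp only [dg_fst, dg_snd, off_fst, off_snd] at hxy
      have ha := a.isLt
      have hy := y.1.1.isLt
      have e1 : a = (⟨a, by omega⟩ : Fin n).castSucc := rfl
      have h3 := (h2 ⟨a, by omega⟩).1
      rw [← e1] at h3
      refine h3.trans (h1 ?_)
      rw [le_iff]
      simp only [dg_fst, dg_snd]
      have := prop' y
      omega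
    · rw [es_inl, es_inr] at hxy ⊢
      rw [le_iff] at hxy
      simp only [dg_fst, dg_snd, off_fst, off_snd] at hxy
      have hb := b.isLt
      have hx := prop' x
      have e2 : b = (⟨b - 1, by omega⟩ : Fin n).succ := by
        ext
        simp only [Fin.val_succ]
        omega
      have h4 := (h2 ⟨b - 1, by omega⟩).2
      rw [← e2] at h4
      refine le_trans (h1 ?_) h4
      rw [le_iff]
      simp only [dg_fst, dg_snd]
      omega
    · rw [es_inr, es_inr] at hxy ⊢
      apply h1
      rw [le_iff] at hxy ⊢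
      simp only [off_fst, off_snd] at hxy
      omega

/-- a function on the staircase is a function on the diagonal and a function on the rest -/
noncomputable def fe (n : ℕ) (B : Type) :
    (St (n + 1) → B) ≃ (Fin (n + 1) → B) × (St n → B) :=
  ((es n).symm.arrowCongr (Equiv.refl B)).trans (Equiv.sumArrowEquivProdArrow _ _ _)

lemma fe_apply {n : ℕ} {B : Type} (σ : St (n + 1) → B) :
    fe n B σ = (fun a => σ (dg a), fun x => σ (off x)) := rfl

variable {K : Type} [CommRing K] (q : K)

/-- **the staircase and the Gelfand-Tsetlin patterns** -/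
theorem sum_St (n M : ℕ) (f : (Fin n → ℕ) → K) :
    ∑ σ ∈ (Finset.univ.filter (fun σ : St n → Fin (M + 1) => Monotone σ)),
      q ^ (∑ x, (σ x).val) * f (fun a => (σ (dg a)).val) =
    ∑ μ ∈ (Finset.univ.filter (fun μ : Fin n → Fin (M + 1) => Monotone μ)),
      q ^ (∑ a, (μ a).val) * Z q n (fun a => (μ a).val) * f (fun a => (μ a).val) := by
  induction n with
  | zero =>
    have h1 : (Finset.univ.filter (fun σ : St 0 → Fin (M + 1) => Monotone σ)) = Finset.univ := by
      apply Finset.filter_true_of_mem
      intro σ _ x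
      exact x.1.1.elim0
    have h2 : (Finset.univ.filter (fun μ : Fin 0 → Fin (M + 1) => Monotone μ)) = Finset.univ := by
      apply Finset.filter_true_of_mem
      intro σ _ x
      exact x.elim0
    have : IsEmpty (St 0) := ⟨fun x => x.1.1.elim0⟩
    rw [h1, h2]
    simp only [Finset.univ_unique, Finset.sum_singleton, Finset.univ_eq_empty, Finset.sum_empty,
      pow_zero, one_mul, Z_zero]
    congr 1
  | succ n ih =>
    set g : (Fin (n + 1) → Fin (M + 1)) → (Fin n → ℕ) → K := fun μ ν =>
      if ∀ a : Fin n, (μ a.castSucc).val ≤ ν a ∧ ν a ≤ (μ a.succ).val then 1 else 0 with hg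
    have h1 : ∑ σ ∈ (Finset.univ.filter (fun σ : St (n + 1) → Fin (M + 1) => Monotone σ)),
        q ^ (∑ x, (σ x).val) * f (fun a => (σ (dg a)).val) =
        ∑ μ : Fin (n + 1) → Fin (M + 1), q ^ (∑ a, (μ a).val) * f (fun a => (μ a).val) *
          ∑ τ ∈ (Finset.univ.filter (fun τ : St n → Fin (M + 1) => Monotone τ)),
            q ^ (∑ x, (τ x).val) * g μ (fun a => (τ (dg a)).val) := by
      rw [Finset.sum_filter, ← Equiv.sum_comp (fe n (Fin (M + 1))).symm, Fintype.sum_prod_type]
      apply Finset.sum_congr rfl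
      intro μ _
      rw [Finset.mul_sum, Finset.sum_filter]
      apply Finset.sum_congr rfl
      intro τ _
      obtain ⟨σ, hσ⟩ : ∃ σ, (fe n (Fin (M + 1))) σ = (μ, τ) := ⟨_, Equiv.apply_symm_apply _ _⟩
      rw [← hσ, Equiv.symm_apply_apply]
      rw [fe_apply] at hσ
      have e1 : μ = fun a => σ (dg a) := (congrArg Prod.fst hσ).symm
      have e2 : τ = fun x => σ (off x) := (congrArg Prod.snd hσ).symm
      subst e1 e2
      rw [sum_split, pow_add]
      by_cases h : Monotone σ
      · rw [if_pos h, if_pos ((mono_iff σ).1 h).1]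
        simp only [hg]
        have h4 : ∀ a : Fin n, (σ (dg a.castSucc)).val ≤ (σ (off (dg a))).val ∧
            (σ (off (dg a))).val ≤ (σ (dg a.succ)).val := fun a => ((mono_iff σ).1 h).2 a
        rw [if_pos h4]
        ring
      · rw [if_neg h]
        by_cases h' : Monotone (fun x => σ (off x))
        · rw [if_pos h']
          simp only [hg]
          rw [if_neg]
          · ring
          · intro h3
            exact h ((mono_iff σ).2 ⟨h', fun a => h3 a⟩)
        · rw [if_neg h']
    rw [h1]
    have h2 : ∀ μ : Fin (n + 1) → Fin (M + 1),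
        ∑ τ ∈ (Finset.univ.filter (fun τ : St n → Fin (M + 1) => Monotone τ)),
          q ^ (∑ x, (τ x).val) * g μ (fun a => (τ (dg a)).val) =
        if Monotone μ then Z q (n + 1) (fun a => (μ a).val) else 0 := by
      intro μ
      rw [ih (g μ)]
      by_cases hμ : Monotone μ
      · rw [if_pos hμ, Z_succ]
        have h3 : ∑ x ∈ (Finset.univ.filter (fun μ : Fin n → Fin (M + 1) => Monotone μ)),
            (q ^ (∑ a, (x a).val) * Z q n fun a => (x a).val) * g μ (fun a => (x a).val) =
            ∑ x ∈ (Finset.univ.filter (fun x : Fin n → Fin (M + 1) => Monotone x ∧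
              ∀ a : Fin n, (μ a.castSucc).val ≤ (x a).val ∧ (x a).val ≤ (μ a.succ).val)),
              (q ^ (∑ a, (x a).val) * Z q n fun a => (x a).val) := by
          rw [← Finset.filter_filter, Finset.sum_filter (s := Finset.univ.filter _)]
          apply Finset.sum_congr rfl
          intro x _
          simp only [hg]
          split_ifs <;> simp
        rw [h3]
        refine Finset.sum_bij (fun x _ => fun a => (x a).val) ?_ ?_ ?_ ?_
        · intro x hx
          rw [mem_filter] at hx
          rw [Fintype.mem_piFinset]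
          intro a
          exact mem_Icc.2 (hx.2.2 a)
        · intro x _ y _ hxy
          funext a
          exact Fin.ext (congrFun hxy a)
        · intro ν hν
          rw [Fintype.mem_piFinset] at hν
          refine ⟨fun a => ⟨ν a, ?_⟩, ?_, rfl⟩
          · have h4 := (mem_Icc.1 (hν a)).2
            have h5 := (μ a.succ).isLt
            omega
          · rw [mem_filter]
            refine ⟨mem_univ _, ?_, fun a => mem_Icc.1 (hν a)⟩
            rcases n with _ | n
            · intro a
              exact a.elim0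
            · rw [Fin.monotone_iff_le_succ]
              intro i
              have h5 := mem_Icc.1 (hν i.castSucc)
              have h6 := mem_Icc.1 (hν i.succ)
              have e : (i.castSucc : Fin (n + 1)).succ = (i.succ : Fin (n + 1)).castSucc := rfl
              rw [e] at h5
              exact Fin.mk_le_mk.2 (h5.2.trans h6.1)
        · intro x _
          rfl
      · rw [if_neg hμ]
        apply Finset.sum_eq_zero
        intro x _
        simp only [hg]
        rw [if_neg, mul_zero]
        intro h3
        apply hμ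
        rw [Fin.monotone_iff_le_succ]
        intro i
        rw [Fin.le_def]
        exact (h3 i).1.trans (h3 i).2
    rw [Finset.sum_congr rfl (fun μ _ => by rw [h2 μ]), Finset.sum_filter]
    apply Finset.sum_congr rfl
    intro μ _
    split_ifs <;> ring

end Pool.Gauss.TStar
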