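import Pool.Agent.Work.MP_065141_co.K.TStarB
import Pool.Agent.Gauss35.Expansion

/-!
# Rectangles are Gaussian

The order-preserving maps of the shifted staircase with diagonal `(0, .., 0, m, .., m)` are those
of the rectangle (MacMahon's box formula).
-/

set_option autoImplicit false
open scoped Classical
open Finset

namespace Pool.Gauss.TStar

variable {K : Type} [CommRing K]

lemma vd_eq (n : ℕ) (x : Fin n → K) : vd n x = ∏ i, ∏ j, if i < j then x j - x i else 1 := by
  rw [vd, Matrix.det_vandermonde]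
  apply Finset.prod_congr rfl
  intro i _
  rw [← Finset.prod_filter]
  apply Finset.prod_congr _ (fun _ _ => rfl)
  ext j
  simp

lemma vd_add (r p : ℕ) (x : Fin (r + p) → K) : vd (r + p) x =
    vd r (fun i => x (Fin.castAdd p i)) *
      (∏ i : Fin r, ∏ j : Fin p, (x (Fin.natAdd r j) - x (Fin.castAdd p i))) *
      vd p (fun j => x (Fin.natAdd r j)) := by
  rw [vd_eq, vd_eq, vd_eq, Fin.prod_univ_add, ← Finset.prod_mul_distrib]
  congr 1
  · apply Finset.prod_congr rfl
    intro i _
    rw [Fin.prod_univ_add]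
    have h1 : ∀ j : Fin p, (if Fin.castAdd p i < Fin.natAdd r j then
        x (Fin.natAdd r j) - x (Fin.castAdd p i) else 1) =
        x (Fin.natAdd r j) - x (Fin.castAdd p i) := by
      intro j
      rw [if_pos]
      rw [Fin.lt_def, Fin.val_castAdd, Fin.val_natAdd]
      have := i.isLt
      omega
    rw [Finset.prod_congr rfl (fun j _ => h1 j)]
    rfl
  · apply Finset.prod_congr rfl
    intro i _
    rw [Fin.prod_univ_add]
    have h1 : ∀ j : Fin r, (if Fin.natAdd r i < Fin.castAdd p j then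
        x (Fin.castAdd p j) - x (Fin.natAdd r i) else 1) = 1 := by
      intro j
      rw [if_neg]
      rw [Fin.lt_def, Fin.val_castAdd, Fin.val_natAdd]
      have := j.isLt
      omega
    rw [Finset.prod_eq_one (fun j _ => h1 j), one_mul]
    apply Finset.prod_congr rfl
    intro j _
    simp only [Fin.natAdd_lt_natAdd_iff]

lemma vd_mul (n : ℕ) (c : K) (x : Fin n → K) :
    vd n (fun i => c * x i) = c ^ (∑ j : Fin n, (j : ℕ)) * vd n x := by
  have e : Matrix.vandermonde (fun i => c * x i) =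
      Matrix.of fun (i j : Fin n) => c ^ (j : ℕ) * Matrix.vandermonde x i j := by
    ext i j
    simp only [Matrix.vandermonde_apply, Matrix.of_apply, mul_pow]
  rw [vd, e, Matrix.det_mul_row, Finset.prod_pow_eq_pow_sum, vd]

/-- the diagonal of the rectangle -/
def mus (r p m : ℕ) (i : Fin (r + p)) : ℕ := if (i : ℕ) < r then 0 else m

lemma mus_mono (r p m : ℕ) : Monotone (mus r p m) := by
  intro i j hij
  unfold mus
  rw [Fin.le_def] at hij
  split_ifs <;> omega

lemma mus_le (r p m : ℕ) (i : Fin (r + p)) : mus r p m i ≤ m := by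
  unfold mus
  split_ifs <;> omega

/-- the middle factor -/
lemma mid (q : K) (r p m : ℕ) :
    (∏ i : Fin r, ∏ j : Fin p, (q ^ (m + (r + (j : ℕ))) - q ^ (i : ℕ))) =
      (∏ i : Fin r, ∏ _j : Fin p, (-q ^ (i : ℕ))) *
        ∏ x : Fin r × Fin p, (1 - q ^ (m + ((x.1 : ℕ) + x.2 + 1))) := by
  rw [Fintype.prod_prod_type, ← Equiv.prod_comp Fin.revPerm (fun i : Fin r =>
    ∏ j : Fin p, (1 - q ^ (m + ((i : ℕ) + j + 1)))), ← Finset.prod_mul_distrib]
  apply Finset.prod_congr rfl
  intro i _
  rw [← Finset.prod_mul_distrib]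
  apply Finset.prod_congr rfl
  intro j _
  have h1 := i.isLt
  have e : m + (r + (j : ℕ)) = i + (m + (((Fin.revPerm i : Fin r) : ℕ) + j + 1)) := by
    rw [Fin.revPerm_apply, Fin.val_rev]
    omega
  rw [e, pow_add]
  ring

variable [IsDomain K]

omit [IsDomain K] in
lemma q_ne [Nontrivial K] {q : K} (hq : Function.Injective (fun i : ℕ => q ^ i)) : q ≠ 0 := by
  rintro rfl
  have := @hq 1 2 (by simp)
  omega

lemma Z_mus {q : K} (hq : Function.Injective (fun i : ℕ => q ^ i)) (r p m : ℕ) :
    Z q (r + p) (mus r p m) * ∏ x : Fin r × Fin p, (1 - q ^ ((x.1 : ℕ) + x.2 + 1)) =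
      q ^ (m * ∑ j : Fin p, (j : ℕ)) *
        ∏ x : Fin r × Fin p, (1 - q ^ (m + ((x.1 : ℕ) + x.2 + 1))) := by
  have h1 := Z_eq q (r + p) _ (mus_mono r p m)
  rw [vd_add, vd_add] at h1
  have e1 : (fun i : Fin r => q ^ (mus r p m (Fin.castAdd p i) + ((Fin.castAdd p i : Fin (r + p)) :
      ℕ))) = fun i : Fin r => q ^ (i : ℕ) := by
    funext i
    rw [mus, if_pos (by rw [Fin.val_castAdd]; exact i.isLt), Fin.val_castAdd, zero_add]
  have e2 : ∀ j : Fin p, mus r p m (Fin.natAdd r j) + ((Fin.natAdd r j : Fin (r + p)) : ℕ) =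
      m + (r + (j : ℕ)) := by
    intro j
    rw [mus, if_neg (by rw [Fin.val_natAdd]; omega), Fin.val_natAdd]
  have e3 : (fun j : Fin p => q ^ (mus r p m (Fin.natAdd r j) +
      ((Fin.natAdd r j : Fin (r + p)) : ℕ))) = fun j : Fin p => q ^ m * q ^ (r + (j : ℕ)) := by
    funext j
    rw [e2, pow_add]
  have e4 : ∀ i : Fin r, mus r p m (Fin.castAdd p i) + ((Fin.castAdd p i : Fin (r + p)) : ℕ) =
      i := by
    intro i
    rw [mus, if_pos (by rw [Fin.val_castAdd]; exact i.isLt), Fin.val_castAdd, zero_add]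
  simp only [e2, e4] at h1
  simp only [pow_add q m (r + _)] at h1
  rw [vd_mul] at h1
  simp only [Fin.val_castAdd, Fin.val_natAdd] at h1
  have h2 := mid q r p m
  have h3 := mid q r p 0
  simp only [zero_add] at h3
  simp only [pow_add q m (r + _)] at h2
  rw [h2, h3] at h1
  set V1 := vd r (fun i : Fin r => q ^ (i : ℕ)) with hV1
  set V2 := vd p (fun j : Fin p => q ^ (r + (j : ℕ))) with hV2
  set κ := (∏ i : Fin r, ∏ _j : Fin p, (-q ^ (i : ℕ))) with hκ
  have n1 : V1 ≠ 0 := by
    rw [hV1, vd, Matrix.det_vandermonde_ne_zero_iff]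
    intro i j hij
    exact Fin.ext (hq hij)
  have n2 : V2 ≠ 0 := by
    rw [hV2, vd, Matrix.det_vandermonde_ne_zero_iff]
    intro i j hij
    have := hq hij
    exact Fin.ext (by omega)
  have n3 : κ ≠ 0 := by
    rw [hκ, Finset.prod_ne_zero_iff]
    intro i _
    rw [Finset.prod_ne_zero_iff]
    intro j _
    exact neg_ne_zero.2 (pow_ne_zero _ (q_ne hq))
  have n4 : V1 * κ * V2 ≠ 0 := mul_ne_zero (mul_ne_zero n1 n3) n2
  apply mul_left_cancel₀ n4
  have e5 : (q ^ m) ^ (∑ j : Fin p, (j : ℕ)) = q ^ (m * ∑ j : Fin p, (j : ℕ)) := by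
    rw [pow_mul]
  rw [e5] at h1
  linear_combination h1

omit [IsDomain K] in
/-- the forced elements -/
lemma card_forced (r p : ℕ) :
    ((Finset.univ : Finset (St (r + p))).filter fun x => r ≤ (x.1.1 : ℕ)).card =
      ∑ j : Fin p, ((j : ℕ) + 1) := by
  have h1 : ∀ j : Fin p, (j : ℕ) + 1 = (Finset.Iic j).card := by
    intro j
    rw [Fin.card_Iic]
  rw [Finset.sum_congr rfl (fun j _ => h1 j), ← Finset.card_sigma]
  symm
  refine Finset.card_bij (fun x hx => ⟨(Fin.natAdd r x.2, Fin.natAdd r x.1), ?_⟩) ?_ ?_ ?_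
  · rw [mem_sigma, mem_Iic] at hx
    exact (Fin.natAdd_le_natAdd_iff r).2 hx.2
  · intro x hx
    rw [mem_filter]
    refine ⟨mem_univ _, ?_⟩
    change r ≤ ((Fin.natAdd r x.2 : Fin (r + p)) : ℕ)
    rw [Fin.val_natAdd]
    omega
  · rintro ⟨a, b⟩ hx ⟨a', b'⟩ hy h
    rw [ext_iff'] at h
    simp only [Fin.val_natAdd] at h
    have e1 : a = a' := Fin.ext (by omega)
    have e2 : b = b' := Fin.ext (by omega)
    rw [e1, e2]
  · intro y hy
    rw [mem_filter] at hy
    have h2 := prop' y
    have h3 := y.1.1.isLt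
    have h4 := y.1.2.isLt
    refine ⟨⟨⟨y.1.2 - r, by omega⟩, ⟨y.1.1 - r, by omega⟩⟩, ?_, ?_⟩
    · rw [mem_sigma, mem_Iic, Fin.le_def]
      refine ⟨mem_univ _, ?_⟩
      change (y.1.1 : ℕ) - r ≤ y.1.2 - r
      omega
    · rw [ext_iff']
      refine ⟨?_, ?_⟩
      · change r + ((y.1.1 : ℕ) - r) = y.1.1
        have := hy.2
        omega
      · change r + ((y.1.2 : ℕ) - r) = y.1.2
        have := hy.2
        omega

/-- the rectangle in the staircase -/
def emb {r p : ℕ} (x : Fin r × Fin p) : St (r + p) := ⟨(Fin.castAdd p x.1, Fin.natAdd r x.2), by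
  rw [Fin.le_def, Fin.val_castAdd, Fin.val_natAdd]
  have := x.1.isLt
  omega⟩

@[simp] lemma emb_fst {r p : ℕ} (x : Fin r × Fin p) : ((emb x).1.1 : ℕ) = x.1 := rfl
@[simp] lemma emb_snd {r p : ℕ} (x : Fin r × Fin p) : ((emb x).1.2 : ℕ) = r + x.2 := rfl

/-- the extension of a map of the rectangle -/
noncomputable def extd {r p m : ℕ} (τ : Fin r × Fin p → Fin (m + 1)) (x : St (r + p)) :
    Fin (m + 1) :=
  if h : (x.1.1 : ℕ) < r ∧ r ≤ (x.1.2 : ℕ) then
    τ (⟨x.1.1, h.1⟩, ⟨x.1.2 - r, by have := x.1.2.isLt; omega⟩)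
  else if r ≤ (x.1.1 : ℕ) then Fin.last m else 0

lemma extd_emb {r p m : ℕ} (τ : Fin r × Fin p → Fin (m + 1)) (x : Fin r × Fin p) :
    extd τ (emb x) = τ x := by
  unfold extd
  rw [dif_pos (by
    simp only [emb_fst, emb_snd]
    have := x.1.isLt
    omega)]
  congr 1
  refine Prod.ext ?_ ?_
  · ext
    simp
  · ext
    simp

lemma sum_extd {r p m : ℕ} (τ : Fin r × Fin p → Fin (m + 1)) :
    ∑ x, (extd τ x).val = m * (∑ j : Fin p, ((j : ℕ) + 1)) + ∑ x, (τ x).val := by
  have h1 : ∀ x : St (r + p), (extd τ x).val = (if r ≤ (x.1.1 : ℕ) then m else 0) +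
      (if (x.1.1 : ℕ) < r ∧ r ≤ (x.1.2 : ℕ) then (extd τ x).val else 0) := by
    intro x
    by_cases h : (x.1.1 : ℕ) < r ∧ r ≤ (x.1.2 : ℕ)
    · rw [if_pos h, if_neg (by omega), zero_add]
    · rw [if_neg h, add_zero]
      unfold extd
      rw [dif_neg h]
      split_ifs <;> simp
  rw [Finset.sum_congr rfl (fun x _ => h1 x), Finset.sum_add_distrib]
  congr 1
  · rw [← card_forced r p, ← Finset.sum_filter, Finset.sum_const, smul_eq_mul, mul_comm]
  · rw [← Finset.sum_filter]
    symm
    refine Finset.sum_bij (fun x _ => emb x) ?_ ?_ ?_ ?_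
    · intro x _
      rw [mem_filter]
      refine ⟨mem_univ _, ?_⟩
      simp only [emb_fst, emb_snd]
      have := x.1.isLt
      omega
    · intro x _ y _ h
      rw [ext_iff'] at h
      simp only [emb_fst, emb_snd] at h
      exact Prod.ext (Fin.ext h.1) (Fin.ext (by omega))
    · intro y hy
      rw [mem_filter] at hy
      have h2 := hy.2
      have h4 := y.1.2.isLt
      refine ⟨(⟨y.1.1, h2.1⟩, ⟨y.1.2 - r, by omega⟩), mem_univ _, ?_⟩
      rw [ext_iff']
      refine ⟨rfl, ?_⟩
      change r + ((y.1.2 : ℕ) - r) = y.1.2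
      omega
    · intro x _
      rw [extd_emb]

lemma extd_mono {r p m : ℕ} {τ : Fin r × Fin p → Fin (m + 1)} (h : Monotone τ) :
    Monotone (extd τ) := by
  intro x y hxy
  rw [le_iff] at hxy
  have hx := prop' x
  have hy := prop' y
  unfold extd
  split_ifs with h1 h2 h2 h2
  · apply h
    rw [Prod.le_def, Fin.le_def, Fin.le_def]
    refine ⟨hxy.1, ?_⟩
    change (x.1.2 : ℕ) - r ≤ y.1.2 - r
    omega
  all_goals first | exact Fin.le_last _ | exact Fin.zero_le _ | (exfalso; omega)

lemma extd_dg {r p m : ℕ} (τ : Fin r × Fin p → Fin (m + 1)) (a : Fin (r + p)) :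
    (extd τ (dg a)).val = mus r p m a := by
  unfold extd mus
  rw [dif_neg (by simp only [dg_fst, dg_snd]; omega)]
  simp only [dg_fst]
  by_cases h : (a : ℕ) < r
  · rw [if_pos h, if_neg (by omega)]
    rfl
  · rw [if_neg h, if_pos (by omega)]
    rfl

omit [IsDomain K] in
/-- the maps of the staircase with the diagonal `mus` are the maps of the rectangle -/
lemma sum_rect (q : K) (r p m : ℕ) :
    ∑ σ ∈ (Finset.univ.filter (fun σ : St (r + p) → Fin (m + 1) => Monotone σ)),
      q ^ (∑ x, (σ x).val) * (if (fun a => (σ (dg a)).val) = mus r p m then 1 else 0) =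
    q ^ (m * (∑ j : Fin p, ((j : ℕ) + 1))) *
      ∑ τ ∈ (Finset.univ.filter (fun τ : Fin r × Fin p → Fin (m + 1) => Monotone τ)),
        q ^ (∑ x, (τ x).val) := by
  have h1 : ∑ σ ∈ (Finset.univ.filter (fun σ : St (r + p) → Fin (m + 1) => Monotone σ)),
      q ^ (∑ x, (σ x).val) * (if (fun a => (σ (dg a)).val) = mus r p m then 1 else 0) =
      ∑ σ ∈ (Finset.univ.filter (fun σ : St (r + p) → Fin (m + 1) => Monotone σ ∧
        (fun a => (σ (dg a)).val) = mus r p m)), q ^ (∑ x, (σ x).val) := by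
    rw [← Finset.filter_filter, Finset.sum_filter (s := Finset.univ.filter _)]
    apply Finset.sum_congr rfl
    intro σ _
    split_ifs <;> simp
  rw [h1, Finset.mul_sum]
  symm
  refine Finset.sum_bij (fun τ _ => extd τ) ?_ ?_ ?_ ?_
  · intro τ hτ
    rw [mem_filter] at hτ ⊢
    exact ⟨mem_univ _, extd_mono hτ.2, funext fun a => extd_dg τ a⟩
  · intro τ _ τ' _ h
    funext x
    rw [← extd_emb τ x, h, extd_emb]
  · intro σ hσ
    rw [mem_filter] at hσ
    obtain ⟨-, hm, hd⟩ := hσ
    refine ⟨fun x => σ (emb x), ?_, ?_⟩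
    · rw [mem_filter]
      refine ⟨mem_univ _, ?_⟩
      intro x y hxy
      apply hm
      rw [le_iff]
      rw [Prod.le_def, Fin.le_def, Fin.le_def] at hxy
      simp only [emb_fst, emb_snd]
      omega
    · funext x
      have hx := prop' x
      have x1 := x.1.1.isLt
      have x2 := x.1.2.isLt
      unfold extd
      split_ifs with h2 h3
      · change σ (emb _) = σ x
        congr 1
        rw [ext_iff']
        refine ⟨rfl, ?_⟩
        change r + ((x.1.2 : ℕ) - r) = x.1.2
        omega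
      · have h4 := congrFun hd x.1.1
        rw [mus, if_neg (by omega)] at h4
        have h5 : σ (dg x.1.1) ≤ σ x := by
          apply hm
          rw [le_iff]
          simp only [dg_fst, dg_snd]
          omega
        apply le_antisymm _ (Fin.le_last _)
        refine le_trans ?_ h5
        rw [Fin.le_def, Fin.val_last]
        exact h4.ge
      · have h4 := congrFun hd x.1.2
        rw [mus, if_pos (by omega)] at h4
        have h5 : σ x ≤ σ (dg x.1.2) := by
          apply hm
          rw [le_iff]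
          simp only [dg_fst, dg_snd]
          omega
        symm
        apply le_antisymm _ (Fin.zero_le _)
        refine h5.trans ?_
        rw [Fin.le_def]
        exact h4.le
  · intro τ _
    rw [← pow_add, sum_extd]

/-- **the box formula** -/
theorem rect {q : K} (hq : Function.Injective (fun i : ℕ => q ^ i)) (r p m : ℕ) :
    (∑ τ ∈ (Finset.univ.filter (fun τ : Fin r × Fin p → Fin (m + 1) => Monotone τ)),
        q ^ (∑ x, (τ x).val)) * ∏ x : Fin r × Fin p, (1 - q ^ ((x.1 : ℕ) + x.2 + 1)) =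
      ∏ x : Fin r × Fin p, (1 - q ^ (m + ((x.1 : ℕ) + x.2 + 1))) := by
  have h1 := sum_rect q r p m
  rw [sum_St q (r + p) m (fun ν => if ν = mus r p m then 1 else 0)] at h1
  have h2 : ∑ μ ∈ (Finset.univ.filter (fun μ : Fin (r + p) → Fin (m + 1) => Monotone μ)),
      q ^ (∑ a, (μ a).val) * Z q (r + p) (fun a => (μ a).val) *
        (if (fun a => (μ a).val) = mus r p m then 1 else 0) =
      q ^ (m * p) * Z q (r + p) (mus r p m) := by
    rw [Finset.sum_eq_single (fun a => (⟨mus r p m a, Nat.lt_succ_of_le (mus_le r p m a)⟩ :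
      Fin (m + 1)))]
    · rw [if_pos rfl, mul_one]
      congr 2
      rw [Fin.sum_univ_add]
      have e1 : ∀ i : Fin r, mus r p m (Fin.castAdd p i) = 0 := by
        intro i
        rw [mus, if_pos (by rw [Fin.val_castAdd]; exact i.isLt)]
      have e2 : ∀ j : Fin p, mus r p m (Fin.natAdd r j) = m := by
        intro j
        rw [mus, if_neg (by rw [Fin.val_natAdd]; omega)]
      simp only [e1, e2, Finset.sum_const_zero, zero_add, Finset.sum_const, Finset.card_univ,
        Fintype.card_fin, smul_eq_mul]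
      ring
    · intro μ _ hμ
      rw [if_neg, mul_zero]
      intro h3
      apply hμ
      funext a
      exact Fin.ext (congrFun h3 a)
    · intro h3
      exfalso
      apply h3
      rw [mem_filter]
      exact ⟨mem_univ _, fun i j hij => Fin.mk_le_mk.2 (mus_mono r p m hij)⟩
  rw [h2] at h1
  have h3 := Z_mus hq r p m
  have n : q ^ (m * (∑ j : Fin p, ((j : ℕ) + 1))) ≠ 0 := pow_ne_zero _ (q_ne hq)
  apply mul_left_cancel₀ n
  rw [← mul_assoc, ← h1, mul_assoc, h3, ← mul_assoc, ← pow_add]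
  congr 2
  rw [Finset.sum_add_distrib, Finset.sum_const, Finset.card_univ, Fintype.card_fin, smul_eq_mul]
  ring

omit [IsDomain K] in
lemma X_inj : Function.Injective (fun i : ℕ => (Polynomial.X : Polynomial ℤ) ^ i) := by
  intro i j h
  have h1 := congrArg Polynomial.natDegree h
  simpa using h1

/-- the property for numbers indexed by the poset -/
lemma gaussian_of {α : Type} [Fintype α] [PartialOrder α] (w : α → ℕ) (hw : ∀ x, 0 < w x)
    (h : ∀ m : ℕ, U α m * ∏ x, (1 - (Polynomial.X : Polynomial ℤ) ^ (w x)) =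
      ∏ x, (1 - (Polynomial.X : Polynomial ℤ) ^ (m + w x))) :
    IsGaussianWith α (fun i => w ((Fintype.equivFin α).symm i)) := by
  refine ⟨fun i => hw _, fun m => ?_⟩
  have h1 := h m
  rw [← Equiv.prod_comp (Fintype.equivFin α).symm, ← Equiv.prod_comp (Fintype.equivFin α).symm] at h1
  exact h1

omit [IsDomain K] in
/-- the generating function, with any instances -/
lemma U_inst (α : Type) [Fintype α] [PartialOrder α] (m : ℕ) [Fintype (α → Fin (m + 1))]
    [DecidablePred (fun σ : α → Fin (m + 1) => Monotone σ)] :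
    U α m = ∑ σ ∈ (Finset.univ.filter (fun σ : α → Fin (m + 1) => Monotone σ)),
      (Polynomial.X : Polynomial ℤ) ^ (∑ x, (σ x).val) := by
  unfold U
  apply Finset.sum_congr
  · ext σ
    simp only [mem_filter, mem_univ, true_and]
  · intro _ _
    rfl

/-- **rectangles are Gaussian** -/
theorem gaussian_rect (r p : ℕ) : ∃ h, IsGaussianWith (Fin r × Fin p) h :=
  ⟨_, gaussian_of (fun x => (x.1 : ℕ) + x.2 + 1) (fun _ => Nat.succ_pos _) (by
    intro m
    rw [U_inst]
    exact rect (K := Polynomial ℤ) X_inj r p m)⟩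

end Pool.Gauss.TStar
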