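import Mathlib

/-!
# Elementary sums in the exterior algebra

`ee a k c` is the sum of the products `a i₁ ∧ .. ∧ a i_k` over `i₁ < .. < i_k < c`.
-/

set_option autoImplicit false
open scoped Classical
open Finset

namespace Pool.Gauss.TStar

variable {R : Type} [CommRing R] {V : Type} [AddCommGroup V] [Module R V]

/-- the elementary sums -/
noncomputable def ee (R : Type) [CommRing R] {V : Type} [AddCommGroup V] [Module R V]
    (a : ℕ → V) : ℕ → ℕ → ExteriorAlgebra R V
  | 0, _ => 1
  | _ + 1, 0 => 0
  | k + 1, c + 1 => ee R a (k + 1) c + ee R a k c * ExteriorAlgebra.ι R (a c)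

lemma ee_zero (a : ℕ → V) (c : ℕ) : ee R a 0 c = 1 := by
  cases c <;> rfl

lemma ee_succ_zero (a : ℕ → V) (k : ℕ) : ee R a (k + 1) 0 = 0 := rfl

lemma ee_succ (a : ℕ → V) (k c : ℕ) : ee R a (k + 1) (c + 1) =
    ee R a (k + 1) c + ee R a k c * ExteriorAlgebra.ι R (a c) := rfl

lemma ee_eq_zero (a : ℕ → V) (k c : ℕ) (h : c < k) : ee R a k c = 0 := by
  induction c generalizing k with
  | zero =>
    obtain ⟨k, rfl⟩ : ∃ k', k = k' + 1 := ⟨k - 1, by omega⟩
    rfl
  | succ c ih =>
    obtain ⟨k, rfl⟩ : ∃ k', k = k' + 1 := ⟨k - 1, by omega⟩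
    rw [ee_succ, ih _ (by omega), ih _ (by omega), zero_mul, add_zero]

lemma ee_one (a : ℕ → V) (c : ℕ) : ee R a 1 c = ExteriorAlgebra.ι R (∑ i ∈ range c, a i) := by
  induction c with
  | zero => simp [ee]
  | succ c ih => rw [ee_succ, ih, ee_zero, one_mul, Finset.sum_range_succ, map_add]

lemma swap (x y : V) : ExteriorAlgebra.ι R x * ExteriorAlgebra.ι R y =
    - (ExteriorAlgebra.ι R y * ExteriorAlgebra.ι R x) :=
  eq_neg_of_add_eq_zero_left (ExteriorAlgebra.ι_add_mul_swap x y)

lemma comm2 (x y v : V) :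
    Commute (ExteriorAlgebra.ι R x * ExteriorAlgebra.ι R y) (ExteriorAlgebra.ι R v) := by
  change _ * _ = _ * _
  rw [mul_assoc, swap y v, mul_neg, ← mul_assoc, swap x v]
  noncomm_ring

lemma comm_ee_two (a : ℕ → V) (c : ℕ) (v : V) :
    Commute (ee R a 2 c) (ExteriorAlgebra.ι R v) := by
  induction c with
  | zero => exact Commute.zero_left _
  | succ c ih =>
    rw [ee_succ, ee_one]
    exact ih.add_left (comm2 _ _ _)

/-- the powers of a sum with a square zero summand -/
lemma add_pow_succ {A : Type} [Ring A] {w x : A} (h : Commute w x) (hx : x * x = 0) (r : ℕ) :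
    (w + x) ^ (r + 1) = w ^ (r + 1) + (r + 1 : ℕ) • (w ^ r * x) := by
  induction r with
  | zero => simp
  | succ r ih =>
    have e1 : w ^ r * x * w = w ^ (r + 1) * x := by
      rw [mul_assoc, ← h.eq, ← mul_assoc, ← pow_succ]
    have e2 : w ^ r * x * x = 0 := by
      rw [mul_assoc, hx, mul_zero]
    rw [pow_succ, ih, add_mul, mul_add, mul_add, smul_mul_assoc, smul_mul_assoc, e1, e2,
      smul_zero, add_zero, ← pow_succ, add_assoc, add_comm (w ^ (r + 1) * x), ← succ_nsmul]

/-- **the powers of the second elementary sum** -/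
lemma ee_pow (a : ℕ → V) (c r : ℕ) :
    ee R a 2 c ^ r = (r.factorial : ℕ) • ee R a (2 * r) c ∧
      ee R a 2 c ^ r * ee R a 1 c = (r.factorial : ℕ) • ee R a (2 * r + 1) c := by
  induction c generalizing r with
  | zero =>
    rcases r with _ | r
    · simp [ee_zero]
    · have e : 2 * (r + 1) = (2 * r + 1) + 1 := by ring
      have h2 : ee R a 2 0 = 0 := rfl
      rw [h2, zero_pow (by omega), zero_mul, e, ee_succ_zero, ee_succ_zero, smul_zero]
      exact ⟨rfl, rfl⟩
  | succ c ih =>
    set w := ee R a 2 c with hw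
    set s := ee R a 1 c with hs
    set t := ExteriorAlgebra.ι R (a c) with ht
    have hs' : s = ExteriorAlgebra.ι R (∑ i ∈ range c, a i) := ee_one a c
    have h2 : ee R a 2 (c + 1) = w + s * t := ee_succ a 1 c
    have h1 : ee R a 1 (c + 1) = s + t := by
      rw [ee_succ, ee_zero, one_mul]
    have hsw : Commute w s := by
      rw [hs']
      exact comm_ee_two a c _
    have htw : Commute w t := comm_ee_two a c _
    have hss : s * s = 0 := by
      rw [hs']
      exact ExteriorAlgebra.ι_sq_zero _
    have htt : t * t = 0 := ExteriorAlgebra.ι_sq_zero _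
    have hts : t * s = - (s * t) := by
      rw [hs']
      exact swap _ _
    have hsts : s * t * s = 0 := by
      rw [mul_assoc, hts, mul_neg, ← mul_assoc, hss, zero_mul, neg_zero]
    have hxx : (s * t) * (s * t) = 0 := by
      rw [← mul_assoc, hsts, zero_mul]
    have hwx : Commute w (s * t) := hsw.mul_right htw
    rw [h2, h1]
    rcases r with _ | r
    · simp only [pow_zero, Nat.factorial_zero, mul_zero, ee_zero, one_smul, one_mul, zero_add]
      exact ⟨trivial, h1.symm⟩
    · have i1 := (ih (r + 1)).1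
      have i2 := (ih (r + 1)).2
      have i3 := (ih r).2
      have e1 : 2 * (r + 1) = (2 * r + 1) + 1 := by ring
      have f1 : ee R a (2 * (r + 1)) (c + 1) = ee R a (2 * (r + 1)) c +
          ee R a (2 * r + 1) c * t := by
        rw [e1]
        exact ee_succ _ _ _
      have f2 : ee R a (2 * (r + 1) + 1) (c + 1) = ee R a (2 * (r + 1) + 1) c +
          ee R a (2 * (r + 1)) c * t := ee_succ _ _ _
      have g1 : (w + s * t) ^ (r + 1) = ((r + 1).factorial : ℕ) • ee R a (2 * (r + 1)) (c + 1) := by
        rw [add_pow_succ hwx hxx, f1, i1, smul_add]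
        congr 1
        rw [← mul_assoc, i3, smul_mul_assoc, smul_smul, Nat.factorial_succ]
      refine ⟨g1, ?_⟩
      rw [add_pow_succ hwx hxx, add_mul, smul_mul_assoc, f2, smul_add]
      have g2 : w ^ r * (s * t) * (s + t) = 0 := by
        rw [mul_assoc, mul_add, hsts, mul_assoc s, htt]
        simp
      rw [g2, smul_zero, add_zero, mul_add, i2, i1, smul_mul_assoc]

/-! ### the sums over strictly increasing functions -/

/-- the strictly increasing functions with values below `c` -/
noncomputable def SI (k c : ℕ) : Finset (Fin k → ℕ) :=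
  (Fintype.piFinset (fun _ : Fin k => range c)).filter StrictMono

lemma mem_SI {k c : ℕ} {l : Fin k → ℕ} : l ∈ SI k c ↔ (∀ i, l i < c) ∧ StrictMono l := by
  simp [SI, Fintype.mem_piFinset]

lemma SI_zero (c : ℕ) : SI 0 c = Finset.univ := by
  ext l
  rw [mem_SI]
  simp only [mem_univ, iff_true]
  exact ⟨fun i => i.elim0, fun i => i.elim0⟩

lemma SI_succ_zero (k : ℕ) : SI (k + 1) 0 = ∅ := by
  ext l
  rw [mem_SI]
  simp only [notMem_empty, iff_false, not_and]
  intro h
  exact absurd (h 0) (by omega)

lemma strictMono_snoc {k c : ℕ} {l : Fin k → ℕ} (h : StrictMono l) (hc : ∀ i, l i < c) :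
    StrictMono (Fin.snoc (α := fun _ => ℕ) l c : Fin (k + 1) → ℕ) := by
  intro i j hij
  rcases Fin.eq_castSucc_or_eq_last i with ⟨i, rfl⟩ | rfl
  · rcases Fin.eq_castSucc_or_eq_last j with ⟨j, rfl⟩ | rfl
    · rw [Fin.snoc_castSucc, Fin.snoc_castSucc]
      exact h hij
    · rw [Fin.snoc_castSucc, Fin.snoc_last]
      exact hc i
  · exact absurd (Fin.le_last j) (not_le.2 hij)

lemma sum_SI_succ {M : Type} [AddCommMonoid M] (k c : ℕ) (G : (Fin (k + 1) → ℕ) → M) :
    ∑ l ∈ SI (k + 1) (c + 1), G l = ∑ l ∈ SI (k + 1) c, G l +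
      ∑ l ∈ SI k c, G (Fin.snoc (α := fun _ => ℕ) l c) := by
  have h1 : SI (k + 1) (c + 1) = SI (k + 1) c ∪
      (SI k c).image (fun l => (Fin.snoc (α := fun _ => ℕ) l c : Fin (k + 1) → ℕ)) := by
    ext l
    rw [mem_union, mem_image, mem_SI, mem_SI]
    constructor
    · rintro ⟨h1, h2⟩
      by_cases h3 : l (Fin.last k) < c
      · left
        refine ⟨fun i => lt_of_le_of_lt (h2.monotone (Fin.le_last i)) h3, h2⟩
      · right
        have h4 : l (Fin.last k) = c := by
          have := h1 (Fin.last k)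
          omega
        refine ⟨fun i => l i.castSucc, ?_, ?_⟩
        · rw [mem_SI]
          refine ⟨fun i => ?_, fun i j hij => h2 hij⟩
          rw [← h4]
          exact h2 (Fin.castSucc_lt_last i)
        · funext i
          rcases Fin.eq_castSucc_or_eq_last i with ⟨i, rfl⟩ | rfl
          · rw [Fin.snoc_castSucc]
          · rw [Fin.snoc_last, h4]
    · rintro (⟨h1, h2⟩ | ⟨l', hl', rfl⟩)
      · exact ⟨fun i => (h1 i).trans (Nat.lt_succ_self _), h2⟩
      · rw [mem_SI] at hl'
        refine ⟨fun i => ?_, strictMono_snoc hl'.2 hl'.1⟩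
        rcases Fin.eq_castSucc_or_eq_last i with ⟨i, rfl⟩ | rfl
        · rw [Fin.snoc_castSucc]
          exact (hl'.1 i).trans (Nat.lt_succ_self _)
        · rw [Fin.snoc_last]
          exact Nat.lt_succ_self _
  rw [h1, Finset.sum_union, Finset.sum_image]
  · intro l _ l' _ h
    funext i
    have h2 := congrFun h i.castSucc
    simp only [Fin.snoc_castSucc] at h2
    exact h2
  · rw [Finset.disjoint_left]
    intro l hl hl'
    rw [mem_image] at hl'
    obtain ⟨l', _, rfl⟩ := hl'
    rw [mem_SI] at hl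
    have := hl.1 (Fin.last k)
    rw [Fin.snoc_last] at this
    omega

/-- the elementary sums over the strictly increasing functions -/
lemma ee_eq_sum (a : ℕ → V) (k c : ℕ) : ee R a k c =
    ∑ l ∈ SI k c, ExteriorAlgebra.ιMulti R k (fun i => a (l i)) := by
  induction c generalizing k with
  | zero =>
    rcases k with _ | k
    · rw [ee_zero, SI_zero, Finset.univ_unique, Finset.sum_singleton,
        ExteriorAlgebra.ιMulti_apply]
      simp
    · rw [ee_succ_zero, SI_succ_zero, Finset.sum_empty]
  | succ c ih =>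
    rcases k with _ | k
    · rw [ee_zero, SI_zero, Finset.univ_unique, Finset.sum_singleton,
        ExteriorAlgebra.ιMulti_apply]
      simp
    · rw [ee_succ, sum_SI_succ, ih, ih, Finset.sum_mul]
      congr 1
      apply Finset.sum_congr rfl
      intro l _
      rw [ExteriorAlgebra.ιMulti_apply, ExteriorAlgebra.ιMulti_apply, List.ofFn_succ',
        List.concat_eq_append, List.prod_append]
      simp [Fin.snoc_castSucc, Fin.snoc_last]

end Pool.Gauss.TStar
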