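import Pool.Agent.Work.MP_065141_co.K.TStarD

/-!
# The two-form of the staircase

With `v(z) = (z, z², .., zⁿ)` the sum of `v(q^i) ∧ v(q^j)` over `i < j < c` is the value at
`z = q^c` of a two-form `ww z` with polynomial coefficients, also for negative `c`.
-/

set_option autoImplicit false
open scoped Classical
open Finset

namespace Pool.Gauss.TStar

variable {R : Type} [CommRing R]

/-- the vector of the powers of `z` -/
def vv (n : ℕ) (z : R) : Fin n → R := fun j => z ^ ((j : ℕ) + 1)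

/-- the vector of the geometric sums -/
def gv (n : ℕ) (g : ℕ → R) (z : R) : Fin n → R := fun j => g j * z ^ ((j : ℕ) + 1)

/-- the two-form `h` -/
noncomputable def hh (n : ℕ) (f : ℕ → ℕ → R) (z : R) : ExteriorAlgebra R (Fin n → R) :=
  ∑ i : Fin n, ∑ j : Fin n, (f i j * z ^ ((i : ℕ) + j + 2)) •
    (ExteriorAlgebra.ι R (Pi.single i (1 : R)) * ExteriorAlgebra.ι R (Pi.single j (1 : R)))

lemma ι_mul_ι (n : ℕ) (x y : Fin n → R) :
    ExteriorAlgebra.ι R x * ExteriorAlgebra.ι R y = ∑ i : Fin n, ∑ j : Fin n, (x i * y j) •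
      (ExteriorAlgebra.ι R (Pi.single i (1 : R)) * ExteriorAlgebra.ι R (Pi.single j (1 : R))) := by
  have h1 : ∀ z : Fin n → R, ExteriorAlgebra.ι R z =
      ∑ i : Fin n, z i • ExteriorAlgebra.ι R (Pi.single i (1 : R)) := by
    intro z
    conv_lhs => rw [pi_eq_sum_univ' z]
    rw [map_sum]
    apply Finset.sum_congr rfl
    intro i _
    rw [map_smul]
  rw [h1 x, h1 y, Finset.sum_mul_sum]
  apply Finset.sum_congr rfl
  intro i _
  apply Finset.sum_congr rfl
  intro j _
  rw [smul_mul_smul_comm]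

/-- the coefficients of the geometric sums -/
structure Geo (q : R) (g : ℕ → R) (f : ℕ → ℕ → R) : Prop where
  hg : ∀ j, g j * (1 - q ^ (j + 1)) = 1
  hf : ∀ i j, f i j * (1 - q ^ (i + j + 2)) = g i

/-- the one-form -/
noncomputable def ss (n : ℕ) (g : ℕ → R) (z : R) : ExteriorAlgebra R (Fin n → R) :=
  ExteriorAlgebra.ι R (gv n g 1 - gv n g z)

/-- the two-form -/
noncomputable def ww (n : ℕ) (g : ℕ → R) (f : ℕ → ℕ → R) (z : R) :
    ExteriorAlgebra R (Fin n → R) :=
  - (ExteriorAlgebra.ι R (gv n g 1) * ExteriorAlgebra.ι R (gv n g z)) - hh n f 1 + hh n f z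

section
variable {q : R} {g : ℕ → R} {f : ℕ → ℕ → R} (n : ℕ)

lemma ss_one : ss n g 1 = 0 := by rw [ss, sub_self, map_zero]

lemma ww_one : ww n g f 1 = 0 := by
  rw [ww, ExteriorAlgebra.ι_sq_zero]
  abel

lemma gv_q (h : Geo q g f) (z : R) : gv n g (q * z) = gv n g z - vv n z := by
  funext j
  simp only [gv, vv, Pi.sub_apply]
  have := h.hg j
  rw [mul_pow]
  linear_combination (-z ^ ((j : ℕ) + 1)) * this

lemma ss_q (h : Geo q g f) (z : R) : ss n g (q * z) = ss n g z + ExteriorAlgebra.ι R (vv n z) := by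
  rw [ss, ss, gv_q n h, ← map_add]
  congr 1
  abel

lemma hh_q (h : Geo q g f) (z : R) : hh n f z = hh n f (q * z) +
    ExteriorAlgebra.ι R (gv n g z) * ExteriorAlgebra.ι R (vv n z) := by
  rw [ι_mul_ι, hh, hh, ← Finset.sum_add_distrib]
  apply Finset.sum_congr rfl
  intro i _
  rw [← Finset.sum_add_distrib]
  apply Finset.sum_congr rfl
  intro j _
  rw [← add_smul]
  congr 1
  simp only [gv, vv]
  have := h.hf i j
  rw [mul_pow]
  linear_combination (z ^ ((i : ℕ) + j + 2)) * this

lemma ww_q (h : Geo q g f) (z : R) : ww n g f (q * z) = ww n g f z +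
    ss n g z * ExteriorAlgebra.ι R (vv n z) := by
  rw [ww, ww, hh_q n h z, ss, gv_q n h, map_sub, map_sub]
  noncomm_ring

/-- the positive powers -/
lemma pos_pow (h : Geo q g f) (c : ℕ) :
    ss n g (q ^ c) = ee R (fun k => vv n (q ^ k)) 1 c ∧
      ww n g f (q ^ c) = ee R (fun k => vv n (q ^ k)) 2 c := by
  induction c with
  | zero =>
    rw [pow_zero, ss_one, ww_one]
    exact ⟨rfl, rfl⟩
  | succ c ih =>
    have e : q ^ (c + 1) = q * q ^ c := by ring
    rw [e, ss_q n h, ww_q n h, ee_succ, ee_succ, ee_zero, one_mul, ih.1, ih.2]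
    exact ⟨rfl, rfl⟩

/-- the negative powers -/
lemma neg_pow' (h : Geo q g f) (p : R) (hp : q * p = 1) (c : ℕ) :
    ss n g (p ^ c) = ee R (fun k => - vv n (p ^ (k + 1))) 1 c ∧
      ww n g f (p ^ c) = ee R (fun k => - vv n (p ^ (k + 1))) 2 c := by
  induction c with
  | zero =>
    rw [pow_zero, ss_one, ww_one]
    exact ⟨rfl, rfl⟩
  | succ c ih =>
    have e : q * p ^ (c + 1) = p ^ c := by
      rw [pow_succ, mul_comm (p ^ c), ← mul_assoc, hp, one_mul]
    have h1 := ss_q n h (p ^ (c + 1))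
    have h2 := ww_q n h (p ^ (c + 1))
    rw [e] at h1 h2
    have h3 : ss n g (p ^ (c + 1)) = ss n g (p ^ c) - ExteriorAlgebra.ι R (vv n (p ^ (c + 1))) := by
      rw [h1, add_sub_cancel_right]
    have h4 : ExteriorAlgebra.ι R (vv n (p ^ (c + 1))) *
        ExteriorAlgebra.ι R (vv n (p ^ (c + 1))) = 0 := ExteriorAlgebra.ι_sq_zero _
    have h5 : ww n g f (p ^ (c + 1)) = ww n g f (p ^ c) -
        ss n g (p ^ c) * ExteriorAlgebra.ι R (vv n (p ^ (c + 1))) := by
      rw [h2, h3, sub_mul, h4, sub_zero, add_sub_cancel_right]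
    rw [h3, h5, ee_succ, ee_succ, ee_zero, one_mul, ih.1, ih.2, map_neg]
    constructor
    · rw [sub_eq_add_neg]
    · rw [mul_neg, sub_eq_add_neg]

end

/-! ### division by `Y - z` -/

section
variable {n : ℕ} {g : ℕ → R} {f : ℕ → ℕ → R}

lemma ss_div (Y z : R) : ∃ u : Fin n → R, ss n g Y = ss n g z +
    (Y - z) • ExteriorAlgebra.ι R u := by
  have h1 : ∀ j : ℕ, ∃ b, Y ^ (j + 1) - z ^ (j + 1) = (Y - z) * b := fun j =>
    sub_dvd_pow_sub_pow _ _ _
  choose b hb using h1
  refine ⟨fun j => - (g j * b j), ?_⟩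
  rw [ss, ss, ← map_smul, ← map_add]
  congr 1
  funext j
  simp only [gv, Pi.sub_apply, Pi.add_apply, Pi.smul_apply, smul_eq_mul]
  linear_combination (-g j) * hb j

lemma ww_div (Y z : R) : ∃ u : ExteriorAlgebra R (Fin n → R),
    (∀ v, Commute u (ExteriorAlgebra.ι R v)) ∧ ww n g f Y = ww n g f z + (Y - z) • u := by
  have h1 : ∀ j : ℕ, ∃ b, Y ^ j - z ^ j = (Y - z) * b := fun j => sub_dvd_pow_sub_pow _ _ _
  choose b hb using h1
  refine ⟨- (ExteriorAlgebra.ι R (gv n g 1) *
      ExteriorAlgebra.ι R (fun j : Fin n => g j * b (j + 1))) +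
    ∑ i : Fin n, ∑ j : Fin n, (f i j * b ((i : ℕ) + j + 2)) •
    (ExteriorAlgebra.ι R (Pi.single i (1 : R) : Fin n → R) *
      ExteriorAlgebra.ι R (Pi.single j (1 : R) : Fin n → R)), ?_, ?_⟩
  · intro v
    apply Commute.add_left
    · exact Commute.neg_left (comm2 _ _ _)
    · apply Commute.sum_left
      intro i _
      apply Commute.sum_left
      intro j _
      exact (comm2 _ _ _).smul_left _
  · have h2 : gv n g Y = gv n g z + (Y - z) • (fun j : Fin n => g j * b (j + 1)) := by
      funext j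
      simp only [gv, Pi.add_apply, Pi.smul_apply, smul_eq_mul]
      linear_combination (g j) * hb (j + 1)
    have h3 : hh n f Y = hh n f z + (Y - z) • ∑ i : Fin n, ∑ j : Fin n,
        (f i j * b ((i : ℕ) + j + 2)) • (ExteriorAlgebra.ι R (Pi.single i (1 : R)) *
          ExteriorAlgebra.ι R (Pi.single j (1 : R))) := by
      rw [hh, hh, Finset.smul_sum, ← Finset.sum_add_distrib]
      apply Finset.sum_congr rfl
      intro i _
      rw [Finset.smul_sum, ← Finset.sum_add_distrib]
      apply Finset.sum_congr rfl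
      intro j _
      rw [smul_smul, ← add_smul]
      congr 1
      linear_combination (f i j) * hb ((i : ℕ) + j + 2)
    rw [ww, ww, h2, h3, map_add, map_smul, mul_add, mul_smul_comm, smul_add, smul_neg]
    abel

/-- the two-form commutes with all vectors -/
lemma ww_comm (z : R) (v : Fin n → R) : Commute (ww n g f z) (ExteriorAlgebra.ι R v) := by
  have h1 : ∀ z : R, Commute (hh n f z) (ExteriorAlgebra.ι R v) := by
    intro z
    apply Commute.sum_left
    intro i _
    apply Commute.sum_left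
    intro j _
    exact (comm2 _ _ _).smul_left _
  have h2 : Commute (-(ExteriorAlgebra.ι R (gv n g 1) * ExteriorAlgebra.ι R (gv n g z)))
      (ExteriorAlgebra.ι R v) := Commute.neg_left (comm2 _ _ _)
  rw [ww]
  exact (h2.sub_left (h1 1)).add_left (h1 z)

lemma ww_comm' (z : R) {u : ExteriorAlgebra R (Fin n → R)}
    (hu : ∀ v, Commute u (ExteriorAlgebra.ι R v)) : Commute (ww n g f z) u := by
  have h1 : ∀ z : R, Commute (hh n f z) u := by
    intro z
    apply Commute.sum_left
    intro i _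
    apply Commute.sum_left
    intro j _
    exact (((hu _).symm.mul_left (hu _).symm)).smul_left _
  have h2 : Commute (-(ExteriorAlgebra.ι R (gv n g 1) * ExteriorAlgebra.ι R (gv n g z))) u :=
    Commute.neg_left ((hu _).symm.mul_left (hu _).symm)
  rw [ww]
  exact (h2.sub_left (h1 1)).add_left (h1 z)

end

end Pool.Gauss.TStar
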