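import Pool.Agent.Work.MP_065141_co.K.TStarE

/-!
# The order of vanishing of the top form
-/

set_option autoImplicit false
open scoped Classical
open Finset

namespace Pool.Gauss.TStar

variable {R : Type} [CommRing R]

/-- the top form -/
noncomputable def Om (n : ℕ) (g : ℕ → R) (f : ℕ → ℕ → R) (z : R) :
    ExteriorAlgebra R (Fin n → R) :=
  ww n g f z ^ (n / 2) * (if n % 2 = 0 then 1 else ss n g z)

/-- the order of vanishing -/
def od (n c : ℕ) : ℕ := (n + 1) / 2 - (c + n % 2) / 2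

section
variable {n : ℕ} {g : ℕ → R} {f : ℕ → ℕ → R}

lemma Om_eq {z : R} {a : ℕ → Fin n → R} {c : ℕ} (h1 : ss n g z = ee R a 1 c)
    (h2 : ww n g f z = ee R a 2 c) : Om n g f z = ((n / 2).factorial : ℕ) • ee R a n c := by
  have h3 := ee_pow (R := R) a c (n / 2)
  rw [Om, h1, h2]
  split_ifs with h
  · rw [mul_one, h3.1]
    congr 2
    omega
  · rw [h3.2]
    congr 2
    omega

/-- divisibility by a power of `t` -/
def Dv {M : Type} [AddCommMonoid M] [Module R M] (t : R) (j : ℕ) (x : M) : Prop :=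
  ∃ u, x = t ^ j • u

lemma Dv.mono {M : Type} [AddCommMonoid M] [Module R M] {t : R} {j k : ℕ} {x : M}
    (h : Dv t j x) (hk : k ≤ j) : Dv t k x := by
  obtain ⟨u, rfl⟩ := h
  refine ⟨t ^ (j - k) • u, ?_⟩
  rw [smul_smul, ← pow_add]
  congr 2
  omega

lemma Dv.zero {M : Type} [AddCommMonoid M] [Module R M] {t : R} {j : ℕ} :
    Dv t j (0 : M) := ⟨0, by rw [smul_zero]⟩

lemma Dv.sum {M : Type} [AddCommMonoid M] [Module R M] {t : R} {j : ℕ} {ι : Type}
    {s : Finset ι} {x : ι → M} (h : ∀ i ∈ s, Dv t j (x i)) : Dv t j (∑ i ∈ s, x i) := by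
  choose u hu using h
  refine ⟨∑ i ∈ s.attach, u i.1 i.2, ?_⟩
  rw [Finset.smul_sum, ← Finset.sum_attach]
  exact Finset.sum_congr rfl (fun i _ => hu i.1 i.2)

lemma Dv.add {M : Type} [AddCommMonoid M] [Module R M] {t : R} {j : ℕ} {x y : M}
    (h : Dv t j x) (h' : Dv t j y) : Dv t j (x + y) := by
  obtain ⟨u, rfl⟩ := h
  obtain ⟨v, rfl⟩ := h'
  exact ⟨u + v, by rw [smul_add]⟩

/-- **the order of vanishing of the top form** -/
theorem Om_dvd {Y z : R} {a : ℕ → Fin n → R} {c : ℕ} (h1 : ss n g z = ee R a 1 c)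
    (h2 : ww n g f z = ee R a 2 c) : Dv (Y - z) (od n c) (Om n g f Y) := by
  set t := Y - z with ht
  obtain ⟨s', hs'⟩ := ss_div (n := n) (g := g) Y z
  obtain ⟨w', hw', hw⟩ := ww_div (n := n) (g := g) (f := f) Y z
  rw [← ht] at hs' hw
  have hc : Commute (ww n g f z) (t • w') := (ww_comm' z hw').smul_right t
  have e1 : ww n g f Y ^ (n / 2) = ∑ k ∈ range (n / 2 + 1),
      ww n g f z ^ k * (t • w') ^ (n / 2 - k) * ((n / 2).choose k : ExteriorAlgebra R (Fin n → R)) := by
    rw [hw, hc.add_pow]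
  have e2 : ∀ k, c < 2 * k → ww n g f z ^ k = 0 := by
    intro k hk
    rw [h2, (ee_pow a c k).1, ee_eq_zero _ _ _ hk, smul_zero]
  have e3 : ∀ k, c < 2 * k + 1 → ww n g f z ^ k * ss n g z = 0 := by
    intro k hk
    rw [h2, h1, (ee_pow a c k).2, ee_eq_zero _ _ _ hk, smul_zero]
  rw [Om, e1]
  split_ifs with hn
  · rw [mul_one]
    apply Dv.sum
    intro k hk
    rw [mem_range] at hk
    by_cases hk2 : c < 2 * k
    · rw [e2 k hk2, zero_mul, zero_mul]
      exact Dv.zero
    · apply Dv.mono (j := n / 2 - k)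
      · refine ⟨ww n g f z ^ k * w' ^ (n / 2 - k) * ((n / 2).choose k : ExteriorAlgebra R (Fin n → R)), ?_⟩
        rw [smul_pow, mul_smul_comm, smul_mul_assoc]
      · unfold od
        omega
  · rw [Finset.sum_mul]
    apply Dv.sum
    intro k hk
    rw [mem_range] at hk
    rw [hs', mul_add]
    apply Dv.add
    · have hcs : Commute ((t • w') ^ (n / 2 - k) * ((n / 2).choose k : ExteriorAlgebra R (Fin n → R)))
          (ss n g z) := by
        apply Commute.mul_left
        · exact (((hw' _).smul_left t).pow_left _)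
        · exact Nat.cast_commute _ _
      have e4 : ww n g f z ^ k * (t • w') ^ (n / 2 - k) *
          ((n / 2).choose k : ExteriorAlgebra R (Fin n → R)) * ss n g z =
          (ww n g f z ^ k * ss n g z) * ((t • w') ^ (n / 2 - k) *
            ((n / 2).choose k : ExteriorAlgebra R (Fin n → R))) := by
        rw [mul_assoc (ww n g f z ^ k), mul_assoc, hcs.eq, ← mul_assoc]
      rw [e4]
      by_cases hk2 : c < 2 * k + 1
      · rw [e3 k hk2, zero_mul]
        exact Dv.zero
      · apply Dv.mono (j := n / 2 - k)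
        · refine ⟨ww n g f z ^ k * ss n g z * (w' ^ (n / 2 - k) *
            ((n / 2).choose k : ExteriorAlgebra R (Fin n → R))), ?_⟩
          rw [smul_pow, smul_mul_assoc, mul_smul_comm]
        · unfold od
          omega
    · by_cases hk2 : c < 2 * k
      · rw [e2 k hk2, zero_mul, zero_mul, zero_mul]
        exact Dv.zero
      · apply Dv.mono (j := n / 2 - k + 1)
        · refine ⟨ww n g f z ^ k * w' ^ (n / 2 - k) *
            ((n / 2).choose k : ExteriorAlgebra R (Fin n → R)) * ExteriorAlgebra.ι R s', ?_⟩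
          simp only [smul_pow, mul_smul_comm, smul_mul_assoc, smul_smul]
          rw [← pow_succ']
        · unfold od
          omega

/-- the top coefficient -/
noncomputable def tp (n : ℕ) : ExteriorAlgebra R (Fin n → R) →ₗ[R] R :=
  ExteriorAlgebra.liftAlternating (Pi.single n (Matrix.detRowAlternating (n := Fin n) (R := R)))

lemma tp_ιMulti (n : ℕ) (v : Fin n → Fin n → R) :
    tp n (ExteriorAlgebra.ιMulti R n v) = (Matrix.of v).det := by
  rw [tp, ExteriorAlgebra.liftAlternating_apply_ιMulti, Pi.single_eq_same]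
  rfl

/-- the value of the top form at a power of `q` -/
lemma tp_Om_pow {q : R} (h : Geo q g f) (c : ℕ) : tp n (Om n g f (q ^ c)) =
    ((n / 2).factorial : ℕ) • ∑ l ∈ SI n c,
      (Matrix.of fun (i j : Fin n) => (q ^ l i) ^ ((j : ℕ) + 1)).det := by
  have h1 := pos_pow n h c
  rw [Om_eq h1.1 h1.2, map_nsmul, ee_eq_sum, map_sum]
  congr 1
  apply Finset.sum_congr rfl
  intro l _
  rw [tp_ιMulti]
  rfl

/-- the top form modulo `Y - z` -/
lemma tp_Om_sub (Y z : R) : ∃ u, tp n (Om n g f Y) = tp n (Om n g f z) + (Y - z) * u := by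
  obtain ⟨s', hs'⟩ := ss_div (n := n) (g := g) Y z
  obtain ⟨w', _, hw⟩ := ww_div (n := n) (g := g) (f := f) Y z
  have h1 : ∀ k : ℕ, ∃ u, ww n g f Y ^ k = ww n g f z ^ k + (Y - z) • u := by
    intro k
    induction k with
    | zero => exact ⟨0, by simp⟩
    | succ k ih =>
      obtain ⟨u, hu⟩ := ih
      refine ⟨ww n g f z ^ k * w' + u * ww n g f z + (Y - z) • (u * w'), ?_⟩
      rw [pow_succ, pow_succ, hu, hw, add_mul, mul_add, mul_add]
      simp only [smul_mul_assoc, mul_smul_comm, smul_add, smul_smul]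
      abel
  obtain ⟨u, hu⟩ := h1 (n / 2)
  have h2 : ∃ x, Om n g f Y = Om n g f z + (Y - z) • x := by
    rw [Om, Om]
    split_ifs with hn
    · exact ⟨u, by rw [mul_one, mul_one, hu]⟩
    · refine ⟨ww n g f z ^ (n / 2) * ExteriorAlgebra.ι R s' + u * ss n g z +
        (Y - z) • (u * ExteriorAlgebra.ι R s'), ?_⟩
      rw [hu, hs', add_mul, mul_add, mul_add]
      simp only [smul_mul_assoc, mul_smul_comm, smul_add, smul_smul]
      abel
  obtain ⟨x, hx⟩ := h2
  refine ⟨tp n x, ?_⟩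
  rw [hx, map_add, map_smul, smul_eq_mul]

end

/-! ### polynomials -/

section
variable {K : Type} [Field K] (q : K)

/-- the coefficients -/
noncomputable def gK (j : ℕ) : Polynomial K := Polynomial.C ((1 - q ^ (j + 1))⁻¹)

/-- the coefficients -/
noncomputable def fK (i j : ℕ) : Polynomial K :=
  Polynomial.C ((1 - q ^ (i + 1))⁻¹ * (1 - q ^ (i + j + 2))⁻¹)

lemma geoK (hq : ∀ j : ℕ, q ^ (j + 1) ≠ 1) : Geo (Polynomial.C q) (gK q) (fK q) := by
  have h1 : ∀ j : ℕ, (1 : K) - q ^ (j + 1) ≠ 0 := fun j h => hq j (sub_eq_zero.1 h).symm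
  constructor
  · intro j
    rw [gK, ← Polynomial.C_1, ← Polynomial.C_pow, ← Polynomial.C_sub, ← Polynomial.C_mul,
      inv_mul_cancel₀ (h1 j)]
  · intro i j
    rw [fK, gK, ← Polynomial.C_1, ← Polynomial.C_pow, ← Polynomial.C_sub, ← Polynomial.C_mul,
      mul_assoc, inv_mul_cancel₀ (h1 (i + j + 1)), mul_one]

/-- the polynomial of the staircase -/
noncomputable def PS (n : ℕ) : Polynomial K := tp n (Om n (gK q) (fK q) Polynomial.X)

/-- its values -/
lemma PS_eval (hq : ∀ j : ℕ, q ^ (j + 1) ≠ 1) (n c : ℕ) : (PS q n).eval (q ^ c) =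
    ((n / 2).factorial : ℕ) • ∑ l ∈ SI n c,
      (Matrix.of fun (i j : Fin n) => (q ^ l i) ^ ((j : ℕ) + 1)).det := by
  obtain ⟨u, hu⟩ := tp_Om_sub (n := n) (g := gK q) (f := fK q) Polynomial.X
    ((Polynomial.C q) ^ c)
  rw [PS, hu, tp_Om_pow (geoK q hq), Polynomial.eval_add, Polynomial.eval_mul,
    Polynomial.eval_sub, Polynomial.eval_X, Polynomial.eval_pow, Polynomial.eval_C, sub_self,
    zero_mul, add_zero]
  have h1 : ∀ l : Fin n → ℕ, (Matrix.of fun (i j : Fin n) =>
      ((Polynomial.C q) ^ l i) ^ ((j : ℕ) + 1)).det = Polynomial.C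
      (Matrix.of fun (i j : Fin n) => (q ^ l i) ^ ((j : ℕ) + 1)).det := by
    intro l
    rw [RingHom.map_det]
    congr 1
    ext i j
    simp
  rw [Finset.sum_congr rfl (fun l _ => h1 l), ← map_sum, ← map_nsmul, Polynomial.eval_C]

/-- its zeros: positive powers -/
lemma PS_dvd_pos (hq : ∀ j : ℕ, q ^ (j + 1) ≠ 1) (n c : ℕ) :
    (Polynomial.X - Polynomial.C (q ^ c)) ^ od n c ∣ PS q n := by
  have h1 := pos_pow n (geoK q hq) c
  rw [← Polynomial.C_pow] at h1
  obtain ⟨u, hu⟩ := Om_dvd (Y := Polynomial.X) h1.1 h1.2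
  refine ⟨tp n u, ?_⟩
  rw [PS, hu, map_smul, smul_eq_mul]

/-- its zeros: negative powers -/
lemma PS_dvd_neg (hq : ∀ j : ℕ, q ^ (j + 1) ≠ 1) (h0 : q ≠ 0) (n c : ℕ) :
    (Polynomial.X - Polynomial.C (q⁻¹ ^ c)) ^ od n c ∣ PS q n := by
  have h1 := neg_pow' n (geoK q hq) (Polynomial.C q⁻¹) (by
    rw [← Polynomial.C_mul, mul_inv_cancel₀ h0, Polynomial.C_1]) c
  rw [← Polynomial.C_pow] at h1
  obtain ⟨u, hu⟩ := Om_dvd (Y := Polynomial.X) h1.1 h1.2
  refine ⟨tp n u, ?_⟩
  rw [PS, hu, map_smul, smul_eq_mul]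

end

end Pool.Gauss.TStar
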