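import Pool.Agent.Work.MP_065141_co.K.TStarC
import Pool.Agent.Work.MP_065141_co.K.TStarF
import Pool.Agent.Work.MP_065141_co.K.Exact

/-!
# Shifted staircases are Gaussian
-/

set_option autoImplicit false
set_option linter.unusedSectionVars false
open scoped Classical
open Finset

namespace Pool.Gauss.TStar

/-! ### monotone and strictly increasing functions -/

lemma strict_le {n : ℕ} {l : Fin n → ℕ} (h : StrictMono l) {i j : Fin n} (hij : i ≤ j) :
    l i + ((j : ℕ) - i) ≤ l j := by
  obtain ⟨i, hi⟩ := i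
  obtain ⟨j, hj⟩ := j
  rw [Fin.mk_le_mk] at hij
  induction j, hij using Nat.le_induction with
  | base => simp
  | succ j hij ih =>
    have h1 := ih (by omega)
    have h2 : l ⟨j, by omega⟩ < l ⟨j + 1, hj⟩ := h (by rw [Fin.mk_lt_mk]; omega)
    simp only at h1 ⊢
    omega

/-- the sum over the monotone functions is a sum over the strictly increasing functions -/
lemma sum_mono {M : Type} [AddCommMonoid M] (n m : ℕ) (G : (Fin n → ℕ) → M) :
    ∑ μ ∈ (Finset.univ.filter (fun μ : Fin n → Fin (m + 1) => Monotone μ)),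
      G (fun i => (μ i).val + (i : ℕ)) = ∑ l ∈ SI n (m + n), G l := by
  refine Finset.sum_bij (fun μ _ => fun i => (μ i).val + (i : ℕ)) ?_ ?_ ?_ ?_
  · intro μ hμ
    rw [mem_filter] at hμ
    rw [mem_SI]
    constructor
    · intro i
      have h1 := (μ i).isLt
      have h2 := i.isLt
      change (μ i).val + (i : ℕ) < m + n
      omega
    · intro i j hij
      have h1 := hμ.2 hij.le
      rw [Fin.le_def] at h1
      rw [Fin.lt_def] at hij
      change (μ i).val + (i : ℕ) < (μ j).val + (j : ℕ)
      omega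
  · intro μ _ μ' _ h
    funext i
    have h1 : (μ i).val + (i : ℕ) = (μ' i).val + (i : ℕ) := congrFun h i
    exact Fin.ext (by omega)
  · intro l hl
    rw [mem_SI] at hl
    have h1 : ∀ i : Fin n, (i : ℕ) ≤ l i := by
      intro i
      have h2 : (⟨0, by have := i.isLt; omega⟩ : Fin n) ≤ i := by
        rw [Fin.le_def]
        exact Nat.zero_le _
      have h3 := strict_le hl.2 h2
      simp only [Nat.sub_zero] at h3
      omega
    have h2 : ∀ i : Fin n, l i ≤ m + i := by
      intro i
      have h4 := i.isLt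
      have h2 : i ≤ (⟨n - 1, by omega⟩ : Fin n) := by
        rw [Fin.le_def]
        simp only
        omega
      have h3 := strict_le hl.2 h2
      have h5 := hl.1 ⟨n - 1, by omega⟩
      simp only at h3
      omega
    refine ⟨fun i => ⟨l i - i, by have := h1 i; have := h2 i; omega⟩, ?_, ?_⟩
    · rw [mem_filter]
      refine ⟨mem_univ _, fun i j hij => ?_⟩
      rw [Fin.mk_le_mk]
      have h3 := strict_le hl.2 hij
      have := h1 i
      have := h1 j
      rw [Fin.le_def] at hij
      omega
    · funext i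
      have := h1 i
      simp only
      omega
  · intro μ _
    rfl

section
variable {K : Type} [Field K] (q : K)

/-- the generating function of the staircase by determinants -/
lemma stair_det (n m : ℕ) : (vd n (fun i => q ^ (i : ℕ)) * q ^ (∑ i : Fin n, (i : ℕ))) *
    ∑ σ ∈ (Finset.univ.filter (fun σ : St n → Fin (m + 1) => Monotone σ)),
      q ^ (∑ x, (σ x).val) = ∑ l ∈ SI n (m + n),
        (Matrix.of fun (i j : Fin n) => (q ^ l i) ^ ((j : ℕ) + 1)).det := by
  have h1 := sum_St q n m (fun _ => 1)
  simp only [mul_one] at h1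
  rw [h1, Finset.mul_sum, ← sum_mono]
  apply Finset.sum_congr rfl
  intro μ hμ
  rw [mem_filter] at hμ
  have hm : Monotone (fun a => (μ a).val) := fun i j hij => Fin.le_def.1 (hμ.2 hij)
  have h2 := Z_eq q n _ hm
  have e : (Matrix.of fun (i j : Fin n) => (q ^ ((μ i).val + (i : ℕ))) ^ ((j : ℕ) + 1)) =
      Matrix.of fun (i j : Fin n) => q ^ ((μ i).val + (i : ℕ)) *
        Matrix.vandermonde (fun i : Fin n => q ^ ((μ i).val + (i : ℕ))) i j := by
    ext i j
    simp only [Matrix.of_apply, Matrix.vandermonde_apply]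
    ring
  rw [e, Matrix.det_mul_column, Finset.prod_pow_eq_pow_sum, Finset.sum_add_distrib, pow_add]
  rw [vd] at h2 ⊢
  rw [vd] at h2
  linear_combination (q ^ (∑ a, (μ a).val) * q ^ (∑ i : Fin n, (i : ℕ))) * h2

end

/-! ### the number of elements of a row -/

lemma card_row (n b : ℕ) (hb : b + 2 ≤ 2 * n) :
    ((Finset.univ : Finset (St n)).filter fun x => (x.1.1 : ℕ) + x.1.2 = b).card ≤
      b / 2 + 1 - (b - (n - 1)) := by
  have h1 : (Finset.Icc (b - (n - 1)) (b / 2)).card = b / 2 + 1 - (b - (n - 1)) := by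
    rw [Nat.card_Icc]
  rw [← h1]
  apply Finset.card_le_card_of_injOn (fun x => (x.1.1 : ℕ))
  · intro x hx
    rw [Finset.mem_coe, mem_filter] at hx
    rw [Finset.mem_coe, mem_Icc]
    have h2 := prop' x
    have h3 := x.1.2.isLt
    change b - (n - 1) ≤ (x.1.1 : ℕ) ∧ (x.1.1 : ℕ) ≤ b / 2
    omega
  · intro x hx y hy h
    rw [Finset.mem_coe, mem_filter] at hx hy
    have h' : (x.1.1 : ℕ) = y.1.1 := h
    rw [ext_iff']
    omega

section
variable {K : Type} [Field K] (q : K)

/-- the zero belonging to an element -/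
noncomputable def zr (n : ℕ) (x : St n) : K := q ^ ((n : ℤ) - 1 - ((x.1.1 : ℕ) + (x.1.2 : ℕ) : ℕ))

lemma dvd_PS [CharZero K] (hinj : Function.Injective (fun i : ℤ => q ^ i)) (h0 : q ≠ 0) (n : ℕ)
    (hP : PS q n ≠ 0) : ∏ x : St n, (Polynomial.X - Polynomial.C (zr q n x)) ∣ PS q n := by
  have hq : ∀ j : ℕ, q ^ (j + 1) ≠ 1 := by
    intro j hj
    have h1 : (fun i : ℤ => q ^ i) ((j : ℤ) + 1) = (fun i : ℤ => q ^ i) 0 := by
      simp only [zpow_zero]
      rw [← hj]
      exact_mod_cast rfl
    have := hinj h1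
    omega
  have h1 : ∏ x : St n, (Polynomial.X - Polynomial.C (zr q n x)) =
      (((Finset.univ : Finset (St n)).val.map (zr q n)).map
        (fun a => Polynomial.X - Polynomial.C a)).prod := by
    rw [Multiset.map_map]
    rfl
  rw [h1, Multiset.prod_X_sub_C_dvd_iff_le_roots hP, Multiset.le_iff_count]
  intro ρ
  rw [Polynomial.count_roots, Multiset.count_map]
  by_cases hρ : ∃ x : St n, ρ = zr q n x
  · obtain ⟨x, rfl⟩ := hρ
    set b := (x.1.1 : ℕ) + (x.1.2 : ℕ) with hb
    have hx1 := x.1.1.isLt
    have hx2 := x.1.2.isLt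
    have h2 : (Multiset.filter (fun a => zr q n x = zr q n a) (Finset.univ : Finset (St n)).val).card
        = ((Finset.univ : Finset (St n)).filter fun y => (y.1.1 : ℕ) + y.1.2 = b).card := by
      rw [Finset.card_def, Finset.filter_val]
      congr 1
      apply Multiset.filter_congr
      intro y _
      constructor
      · intro h
        have h3 := hinj h
        omega
      · intro h
        unfold zr
        rw [h]
    rw [h2]
    refine (card_row n b (by omega)).trans ?_
    rw [Polynomial.le_rootMultiplicity_iff hP]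
    rcases Nat.lt_or_ge (n - 1) b with hc | hc
    · have h3 := PS_dvd_neg q hq h0 n (b - (n - 1))
      have e1 : zr q n x = q⁻¹ ^ (b - (n - 1)) := by
        unfold zr
        rw [← hb, inv_pow, ← zpow_natCast, ← zpow_neg]
        congr 1
        omega
      rw [e1]
      refine dvd_trans (pow_dvd_pow _ ?_) h3
      unfold od
      omega
    · have h3 := PS_dvd_pos q hq n (n - 1 - b)
      have e1 : zr q n x = q ^ (n - 1 - b) := by
        unfold zr
        rw [← hb, ← zpow_natCast]
        congr 1
        omega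
      rw [e1]
      refine dvd_trans (pow_dvd_pow _ ?_) h3
      unfold od
      omega
  · have h2 : Multiset.filter (fun a => ρ = zr q n a) (Finset.univ : Finset (St n)).val = 0 := by
      rw [Multiset.filter_eq_nil]
      intro a _ h
      exact hρ ⟨a, h⟩
    rw [h2, Multiset.card_zero]
    exact Nat.zero_le _

end

/-! ### the field of fractions of the power series -/

/-- the field -/
abbrev FK : Type := FractionRing (PowerSeries ℤ)

/-- the variable -/
noncomputable def qK : FK := algebraMap (PowerSeries ℤ) FK PowerSeries.X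

lemma alg_inj : Function.Injective (algebraMap (PowerSeries ℤ) FK) :=
  IsFractionRing.injective (PowerSeries ℤ) FK

lemma qK_ne : qK ≠ 0 := by
  rw [qK, Ne, map_eq_zero_iff _ alg_inj]
  exact PowerSeries.X_ne_zero

lemma X_pow_inj {i j : ℕ} (h : (PowerSeries.X : PowerSeries ℤ) ^ i = PowerSeries.X ^ j) :
    i = j := by
  have h1 := congrArg (PowerSeries.coeff i) h
  rw [PowerSeries.coeff_X_pow, PowerSeries.coeff_X_pow, if_pos rfl] at h1
  by_contra h2
  rw [if_neg h2] at h1
  exact one_ne_zero h1

lemma qK_inj : Function.Injective (fun i : ℤ => qK ^ i) := by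
  have h1 : ∀ k : ℕ, qK ^ (k : ℤ) = 1 → k = 0 := by
    intro k hk
    rw [zpow_natCast, qK, ← map_pow, ← map_one (algebraMap (PowerSeries ℤ) FK)] at hk
    have h2 := alg_inj hk
    rw [← pow_zero PowerSeries.X] at h2
    exact X_pow_inj h2
  intro i j hij
  simp only at hij
  rcases le_total i j with h | h
  · have h2 : qK ^ (((j - i).toNat : ℕ) : ℤ) = 1 := by
      rw [Int.toNat_of_nonneg (by omega), zpow_sub₀ qK_ne, ← hij]
      exact div_self (zpow_ne_zero _ qK_ne)
    have := h1 _ h2
    omega
  · have h2 : qK ^ (((i - j).toNat : ℕ) : ℤ) = 1 := by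
      rw [Int.toNat_of_nonneg (by omega), zpow_sub₀ qK_ne, ← hij]
      exact div_self (zpow_ne_zero _ qK_ne)
    have := h1 _ h2
    omega

/-- polynomials in the field -/
noncomputable def toK : Polynomial ℤ →+* FK :=
  (algebraMap (PowerSeries ℤ) FK).comp Polynomial.coeToPowerSeries.ringHom

lemma toK_inj : Function.Injective toK := by
  intro a b h
  have h1 := alg_inj h
  exact Polynomial.coe_injective ℤ h1

lemma toK_X : toK Polynomial.X = qK := by
  simp [toK, qK]

lemma toK_U (α : Type) [Fintype α] [PartialOrder α] (m : ℕ) : toK (U α m) =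
    ∑ k ∈ range (Fintype.card α + 1), (-1) ^ k *
      (qK ^ (m * k) * algebraMap (PowerSeries ℤ) FK (A α k)) := by
  have h1 : toK (U α m) = algebraMap (PowerSeries ℤ) FK ((U α m : Polynomial ℤ) :
    PowerSeries ℤ) := rfl
  rw [h1, U_eq_sum_A, map_sum]
  apply Finset.sum_congr rfl
  intro k _
  rw [map_mul, map_mul, map_pow, map_pow, map_neg, map_one]
  rfl

lemma U_zero' (α : Type) [Fintype α] [PartialOrder α] : U α 0 = 1 := by
  unfold U
  have h1 : (Finset.univ.filter (fun σ : α → Fin (0 + 1) => Monotone σ)) = {fun _ => 0} := by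
    ext σ
    simp only [mem_filter, mem_univ, true_and, mem_singleton]
    constructor
    · intro _
      funext x
      apply Fin.ext
      have := (σ x).isLt
      simp only [Fin.val_zero]
      omega
    · rintro rfl
      exact fun _ _ _ => le_rfl
  rw [h1, Finset.sum_singleton]
  simp

lemma charZero_FK : CharZero FK := charZero_of_injective_ringHom toK_inj

/-- **shifted staircases are Gaussian** -/
theorem stair (n m : ℕ) : U (St n) m * ∏ x : St n, (1 - (Polynomial.X : Polynomial ℤ) ^
    ((x.1.1 : ℕ) + x.1.2 + 1)) = ∏ x : St n, (1 - (Polynomial.X : Polynomial ℤ) ^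
      (m + ((x.1.1 : ℕ) + x.1.2 + 1))) := by
  have hq : ∀ j : ℕ, qK ^ (j + 1) ≠ 1 := by
    intro j hj
    have h1 : (fun i : ℤ => qK ^ i) ((j : ℤ) + 1) = (fun i : ℤ => qK ^ i) 0 := by
      simp only [zpow_zero]
      rw [← hj]
      exact_mod_cast rfl
    have := qK_inj h1
    omega
  have hch : CharZero FK := charZero_FK
  set κ : FK := ((n / 2).factorial : FK) * (vd n (fun i : Fin n => qK ^ (i : ℕ)) *
    qK ^ (∑ i : Fin n, (i : ℕ))) with hκ
  have hκ0 : κ ≠ 0 := by
    refine mul_ne_zero ?_ (mul_ne_zero ?_ (pow_ne_zero _ qK_ne))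
    · exact Nat.cast_ne_zero.2 (Nat.factorial_ne_zero _)
    · rw [vd, Matrix.det_vandermonde_ne_zero_iff]
      intro i j hij
      simp only at hij
      have h1 : (fun i : ℤ => qK ^ i) ((i : ℕ) : ℤ) = (fun i : ℤ => qK ^ i) ((j : ℕ) : ℤ) := by
        simp only [zpow_natCast]
        exact hij
      have := qK_inj h1
      exact Fin.ext (by omega)
  have hev : ∀ m : ℕ, (PS qK n).eval (qK ^ (m + n)) = κ * toK (U (St n) m) := by
    intro m
    have hS : toK (U (St n) m) = ∑ σ ∈ (Finset.univ.filter
        (fun σ : St n → Fin (m + 1) => Monotone σ)), qK ^ (∑ x, (σ x).val) := by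
      rw [U_inst, map_sum]
      apply Finset.sum_congr rfl
      intro σ _
      rw [map_pow, toK_X]
    rw [PS_eval qK hq, ← stair_det, nsmul_eq_mul, hκ, hS]
    ring
  have hP : PS qK n ≠ 0 := by
    intro h
    have h1 := hev 0
    rw [h, Polynomial.eval_zero, U_zero', map_one, mul_one] at h1
    exact hκ0 h1.symm
  have hdeg : (PS qK n).natDegree ≤ Fintype.card (St n) := by
    set Q : Polynomial FK := ∑ k ∈ range (Fintype.card (St n) + 1), Polynomial.C (κ * ((-1) ^ k *
      (algebraMap (PowerSeries ℤ) FK (A (St n) k) * (qK ^ (n * k))⁻¹))) * Polynomial.X ^ k with hQ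
    have h1 : PS qK n = Q := by
      apply Polynomial.eq_of_infinite_eval_eq
      apply Set.Infinite.mono (s := Set.range fun m : ℕ => qK ^ (m + n))
      · rintro _ ⟨m, rfl⟩
        simp only [Set.mem_ofPred_eq]
        rw [hev, toK_U, hQ, Polynomial.eval_finsetSum, Finset.mul_sum]
        apply Finset.sum_congr rfl
        intro k _
        rw [Polynomial.eval_mul, Polynomial.eval_C, Polynomial.eval_pow, Polynomial.eval_X]
        have e : (qK ^ (m + n)) ^ k = qK ^ (m * k) * qK ^ (n * k) := by
          rw [← pow_mul, ← pow_add]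
          ring_nf
        have e2 : (qK ^ (n * k))⁻¹ * qK ^ (n * k) = 1 := inv_mul_cancel₀ (pow_ne_zero _ qK_ne)
        rw [e]
        linear_combination (-κ * (-1) ^ k * qK ^ (m * k) *
          algebraMap (PowerSeries ℤ) FK (A (St n) k)) * e2
      · apply Set.infinite_range_of_injective
        intro i j hij
        simp only at hij
        have h1 : (fun i : ℤ => qK ^ i) ((i + n : ℕ) : ℤ) = (fun i : ℤ => qK ^ i) ((j + n : ℕ) : ℤ) := by
          simp only [zpow_natCast]
          exact hij
        have := qK_inj h1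
        omega
    rw [h1, hQ]
    apply Polynomial.natDegree_sum_le_of_forall_le
    intro k hk
    rw [mem_range] at hk
    exact (Polynomial.natDegree_C_mul_X_pow_le _ _).trans (by omega)
  set D : Polynomial FK := ∏ x : St n, (Polynomial.X - Polynomial.C (zr qK n x)) with hD
  have hDm : D.Monic := Polynomial.monic_prod_of_monic _ _ fun x _ => Polynomial.monic_X_sub_C _
  have hDd : D.natDegree = Fintype.card (St n) := by
    rw [hD, Polynomial.natDegree_prod_of_monic _ _ (fun x _ => Polynomial.monic_X_sub_C _)]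
    simp only [Polynomial.natDegree_X_sub_C, Finset.sum_const, Finset.card_univ, smul_eq_mul,
      mul_one]
  have h1 := Polynomial.eq_leadingCoeff_mul_of_monic_of_dvd_of_natDegree_le hDm
    (dvd_PS qK qK_inj qK_ne n hP) (hDd ▸ hdeg)
  set L := (PS qK n).leadingCoeff with hL
  have h2 : ∀ m : ℕ, κ * toK (U (St n) m) = L * ∏ x : St n, (qK ^ (m + n) - zr qK n x) := by
    intro m
    rw [← hev, h1, Polynomial.eval_mul, Polynomial.eval_C, hD, Polynomial.eval_prod]
    congr 1
    apply Finset.prod_congr rfl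
    intro x _
    rw [Polynomial.eval_sub, Polynomial.eval_X, Polynomial.eval_C]
  have h3 : ∀ m : ℕ, ∏ x : St n, (qK ^ (m + n) - zr qK n x) = (∏ x : St n, (- zr qK n x)) *
      ∏ x : St n, (1 - qK ^ (m + ((x.1.1 : ℕ) + x.1.2 + 1))) := by
    intro m
    rw [← Finset.prod_mul_distrib]
    apply Finset.prod_congr rfl
    intro x _
    have e : zr qK n x * qK ^ (m + ((x.1.1 : ℕ) + x.1.2 + 1)) = qK ^ (m + n) := by
      unfold zr
      rw [← zpow_natCast, ← zpow_natCast, ← zpow_add₀ qK_ne]
      congr 1
      push_cast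
      ring
    linear_combination (-1 : FK) * e
  have h4 := h2 m
  have h5 := h2 0
  rw [U_zero', map_one, mul_one] at h5
  rw [h3] at h4 h5
  simp only [zero_add] at h5
  set Z0 := ∏ x : St n, (- zr qK n x) with hZ0
  set P0 := ∏ x : St n, (1 - qK ^ ((x.1.1 : ℕ) + x.1.2 + 1)) with hP0
  set Pm := ∏ x : St n, (1 - qK ^ (m + ((x.1.1 : ℕ) + x.1.2 + 1))) with hPm
  have h6 : toK (U (St n) m) * P0 = Pm := by
    apply mul_left_cancel₀ hκ0
    have h7 : L * Z0 ≠ 0 := by
      intro h8
      apply hκ0
      rw [h5, ← mul_assoc, h8, zero_mul]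
    calc κ * (toK (U (St n) m) * P0) = (κ * toK (U (St n) m)) * P0 := by ring
      _ = (L * (Z0 * P0)) * Pm := by rw [h4]; ring
      _ = κ * Pm := by rw [← h5]
  apply toK_inj
  rw [map_mul, map_prod, map_prod]
  simp only [map_sub, map_one, map_pow, toK_X]
  exact h6

theorem gaussian_stair (n : ℕ) : ∃ h, IsGaussianWith (St n) h :=
  ⟨_, gaussian_of (fun x => (x.1.1 : ℕ) + x.1.2 + 1) (fun _ => Nat.succ_pos _)
    (by intro m; exact stair n m)⟩

end Pool.Gauss.TStar
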