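import Pool.Agent.Work.MP_065141_co.K.ThreeLev0

/-!
# Disjoint stars: expansion over the stars in operator mode

`Full = ∏ s, (1 + ρ_s + D̂_s) * ∏ j, (1 + ρ_j)`; items are given modulo `w ^ 3` by arbitrary
integral polynomials.  The coefficients of `w * Z ^ m` and of `w ^ 2 * Z ^ 4` of the functional are
sums of values at `w = 0`.
-/

set_option autoImplicit false
set_option linter.unusedSectionVars false
open scoped Classical
open Finset MvPolynomial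

namespace Pool.Gauss.TL

variable {Y ι σ κ : Type}

/-! ### the coefficient functional on polynomials -/

/-- coefficient of `Z ^ j * w ^ d` of the functional -/
noncomputable def cfE (d j : ℕ) : MvPolynomial Y TA →+ ℤ :=
  (cf d j).comp (Ev wT).toAddMonoidHom

lemma cfE_apply (d j : ℕ) (P : MvPolynomial Y TA) : cfE d j P = cf d j (Ev wT P) := rfl

lemma cfE_dvd {d j e : ℕ} (h : d < e) {P : MvPolynomial Y TA} (hP : C (wT ^ e) ∣ P) :
    cfE d j P = 0 := by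
  rw [cfE_apply]
  exact cf_Ev_dvd h hP

lemma cfE_congr {d j e : ℕ} (h : d < e) {P Q : MvPolynomial Y TA} (hPQ : C (wT ^ e) ∣ P - Q) :
    cfE d j P = cfE d j Q := by
  have h1 : P = Q + (P - Q) := by ring
  rw [h1, map_add, cfE_dvd h hPQ, add_zero]

lemma cfE_two_mul (d j : ℕ) (P : MvPolynomial Y TA) : cfE d j (2 * P) = 2 * cfE d j P := by
  rw [two_mul, map_add, two_mul]

/-- the coefficients of the functional over `ℤ[[w]]` -/
noncomputable def Ec (m : ℕ) (P : MvPolynomial Y ℤ) : ℤ :=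
  PowerSeries.coeff m (Ev (PowerSeries.X : PowerSeries ℤ) (up0 P))

lemma Ec_zero (P : MvPolynomial Y ℤ) : Ec 0 P = E0 P := coeff_zero_Ev_up0 P

lemma Ec_one (P : MvPolynomial Y ℤ) : Ec 1 P = E1 P := rfl

lemma Ec_add (m : ℕ) (P Q : MvPolynomial Y ℤ) : Ec m (P + Q) = Ec m P + Ec m Q := by
  unfold Ec
  rw [map_add, map_add, map_add]

lemma Ec_sum {β : Type} (m : ℕ) (s : Finset β) (f : β → MvPolynomial Y ℤ) :
    Ec m (∑ x ∈ s, f x) = ∑ x ∈ s, Ec m (f x) := by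
  unfold Ec
  rw [map_sum, map_sum, map_sum]

lemma cfE_piece (d j a b : ℕ) (P : MvPolynomial Y ℤ) :
    cfE d j (C (ZT ^ a * wT ^ b) * up P) = if j = a ∧ b ≤ d then Ec (d - b) P else 0 := by
  rw [cfE_apply, Ev_C_mul, Ev_up, cf_piece]
  rfl

/-! ### the geometric series -/

lemma exists_gT : ∃ g : TA, (1 - wT * ZT) * g = 1 := by
  have h : IsUnit (1 - wT * ZT : TA) := by
    rw [PowerSeries.isUnit_iff_constantCoeff]
    rw [map_sub, map_one, map_mul, wT, PowerSeries.constantCoeff_X, zero_mul, sub_zero]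
    exact isUnit_one
  obtain ⟨u, hu⟩ := h
  exact ⟨(u⁻¹ : TAˣ), by rw [← hu]; exact u.mul_inv⟩

/-- `1 / (1 - w Z)` -/
noncomputable def gT : TA := exists_gT.choose

lemma gT_spec : (1 - wT * ZT) * gT = 1 := exists_gT.choose_spec

lemma gT_unique {g : TA} (h : (1 - wT * ZT) * g = 1) : g = gT := by
  calc g = g * ((1 - wT * ZT) * gT) := by rw [gT_spec, mul_one]
    _ = ((1 - wT * ZT) * g) * gT := by ring
    _ = gT := by rw [h, one_mul]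

lemma gT_eq : ∃ r : TA, gT = 1 + wT * ZT + wT ^ 2 * ZT ^ 2 + wT ^ 3 * r := by
  refine ⟨ZT ^ 3 * gT, ?_⟩
  have h : gT = 1 + wT * ZT * gT := by
    have := gT_spec
    linear_combination this
  calc gT = 1 + wT * ZT * gT := h
    _ = 1 + wT * ZT * (1 + wT * ZT * (1 + wT * ZT * gT)) := by rw [← h, ← h]; exact h
    _ = _ := by ring

lemma gT_pow (n : ℕ) : ∃ r : TA, gT ^ n = 1 + n * (wT * ZT) +
    (((n + 1).choose 2 : ℕ) : TA) * (wT ^ 2 * ZT ^ 2) + wT ^ 3 * r := by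
  induction n with
  | zero => exact ⟨0, by simp⟩
  | succ n ih =>
    obtain ⟨r, hr⟩ := ih
    obtain ⟨q, hq⟩ := gT_eq
    have h1 : ((n + 1 + 1).choose 2 : ℕ) = (n + 1).choose 2 + (n + 1) := by
      rw [Nat.choose_succ_succ' (n + 1) 1, Nat.choose_one_right]
      ring
    refine ⟨r * gT + q * gT ^ n - q * wT ^ 3 * r + ZT ^ 3 * n +
      (((n + 1).choose 2 : ℕ) : TA) * (ZT ^ 3 + wT * ZT ^ 4), ?_⟩
    rw [h1, pow_succ, hr, hq]
    push_cast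
    ring

/-! ### items -/

/-- data of the items: `ρ = w Z φ + w Z² A + w² (Z ξ + Z² χ + Z³ κ)` modulo `w ^ 3` -/
structure ItD (Y κ : Type) where
  phi : κ → MvPolynomial Y ℤ
  A : κ → MvPolynomial Y ℤ
  xi : κ → MvPolynomial Y ℤ
  chi : κ → MvPolynomial Y ℤ
  kp : κ → MvPolynomial Y ℤ

/-- the item `rho` has the data of index `j`, modulo `w ^ 3` -/
def ItD.Is (d : ItD Y κ) (j : κ) (rho : MvPolynomial Y TA) : Prop :=
  C (wT ^ 3) ∣ rho - (C (ZT ^ 1 * wT ^ 1) * up (d.phi j) + C (ZT ^ 2 * wT ^ 1) * up (d.A j) +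
    C (ZT ^ 1 * wT ^ 2) * up (d.xi j) + C (ZT ^ 2 * wT ^ 2) * up (d.chi j) +
    C (ZT ^ 3 * wT ^ 2) * up (d.kp j))

/-- the item `rho` has the first order data of index `j`, modulo `w ^ 2` -/
def ItD.Is2 (d : ItD Y κ) (j : κ) (rho : MvPolynomial Y TA) : Prop :=
  C (wT ^ 2) ∣ rho - (C (ZT ^ 1 * wT ^ 1) * up (d.phi j) + C (ZT ^ 2 * wT ^ 1) * up (d.A j))

lemma ItD.Is.two {d : ItD Y κ} {j : κ} {rho : MvPolynomial Y TA} (h : d.Is j rho) :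
    d.Is2 j rho := by
  obtain ⟨q, hq⟩ := h
  refine ⟨C wT * q + C (ZT ^ 1) * up (d.xi j) + C (ZT ^ 2) * up (d.chi j) +
    C (ZT ^ 3) * up (d.kp j), ?_⟩
  have h1 : rho = (C (ZT ^ 1 * wT ^ 1) * up (d.phi j) + C (ZT ^ 2 * wT ^ 1) * up (d.A j) +
    C (ZT ^ 1 * wT ^ 2) * up (d.xi j) + C (ZT ^ 2 * wT ^ 2) * up (d.chi j) +
    C (ZT ^ 3 * wT ^ 2) * up (d.kp j)) + C (wT ^ 3) * q := by
    rw [← hq]
    ring
  rw [h1]
  simp only [map_mul, map_pow]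
  ring

lemma ItD.Is2.one {d : ItD Y κ} {j : κ} {rho : MvPolynomial Y TA} (h : d.Is2 j rho) :
    C wT ∣ rho := by
  obtain ⟨q, hq⟩ := h
  refine ⟨C wT * q + C ZT * up (d.phi j) + C (ZT ^ 2) * up (d.A j), ?_⟩
  have h1 : rho = (C (ZT ^ 1 * wT ^ 1) * up (d.phi j) + C (ZT ^ 2 * wT ^ 1) * up (d.A j)) +
      C (wT ^ 2) * q := by
    rw [← hq]
    ring
  rw [h1]
  simp only [map_mul, map_pow]
  ring

/-- the product of the items modulo `w ^ 2` -/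
lemma prod_items_two (d : ItD Y κ) {rho : κ → MvPolynomial Y TA} (J : Finset κ)
    (h : ∀ j ∈ J, d.Is2 j (rho j)) :
    C (wT ^ 2) ∣ ∏ j ∈ J, (1 + rho j) - (1 + C (ZT ^ 1 * wT ^ 1) * up (∑ j ∈ J, d.phi j) +
      C (ZT ^ 2 * wT ^ 1) * up (∑ j ∈ J, d.A j)) := by
  induction J using Finset.induction_on with
  | empty => simp
  | insert j J hj ih =>
    obtain ⟨q, hq⟩ := ih fun l hl => h l (mem_insert_of_mem hl)
    obtain ⟨r, hr⟩ := h j (mem_insert_self j J)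
    rw [prod_insert hj, sum_insert hj, sum_insert hj]
    set S := ∑ j ∈ J, d.phi j
    set S' := ∑ j ∈ J, d.A j
    have h1 : ∏ l ∈ J, (1 + rho l) = 1 + C (ZT ^ 1 * wT ^ 1) * up S +
        C (ZT ^ 2 * wT ^ 1) * up S' + C (wT ^ 2) * q := by
      rw [← hq]
      ring
    have h2 : rho j = (C (ZT ^ 1 * wT ^ 1) * up (d.phi j) + C (ZT ^ 2 * wT ^ 1) * up (d.A j)) +
        C (wT ^ 2) * r := by
      rw [← hr]
      ring
    refine ⟨q * (1 + rho j) + r * (1 + C (ZT ^ 1 * wT ^ 1) * up S +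
        C (ZT ^ 2 * wT ^ 1) * up S') + (C ZT * up (d.phi j) + C (ZT ^ 2) * up (d.A j)) *
        (C ZT * up S + C (ZT ^ 2) * up S'), ?_⟩
    rw [h1, map_add, map_add, h2]
    simp only [map_mul, map_pow]
    ring

lemma prod_items_one (d : ItD Y κ) {rho : κ → MvPolynomial Y TA} (J : Finset κ)
    (h : ∀ j ∈ J, d.Is2 j (rho j)) : C (wT ^ 1) ∣ ∏ j ∈ J, (1 + rho j) - 1 := by
  obtain ⟨q, hq⟩ := prod_items_two d J h
  refine ⟨C wT * q + C ZT * up (∑ j ∈ J, d.phi j) + C (ZT ^ 2) * up (∑ j ∈ J, d.A j), ?_⟩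
  have h1 : ∏ j ∈ J, (1 + rho j) = C (wT ^ 2) * q + (1 + C (ZT ^ 1 * wT ^ 1) *
      up (∑ j ∈ J, d.phi j) + C (ZT ^ 2 * wT ^ 1) * up (∑ j ∈ J, d.A j)) := by
    rw [← hq]
    ring
  rw [h1]
  simp only [map_mul, map_pow]
  ring

/-- twice the product of the items modulo `w ^ 3` -/
lemma prod_items_three (d : ItD Y κ) {rho : κ → MvPolynomial Y TA} (J : Finset κ)
    (h : ∀ j ∈ J, d.Is j (rho j)) :
    C (wT ^ 3) ∣ 2 * ∏ j ∈ J, (1 + rho j) - (2 +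
      C (ZT ^ 1 * wT ^ 1) * up (2 * ∑ j ∈ J, d.phi j) +
      C (ZT ^ 2 * wT ^ 1) * up (2 * ∑ j ∈ J, d.A j) +
      C (ZT ^ 1 * wT ^ 2) * up (2 * ∑ j ∈ J, d.xi j) +
      C (ZT ^ 2 * wT ^ 2) * up (2 * ∑ j ∈ J, d.chi j +
        ∑ p ∈ J.offDiag, d.phi p.1 * d.phi p.2) +
      C (ZT ^ 3 * wT ^ 2) * up (2 * ∑ j ∈ J, d.kp j +
        ∑ p ∈ J.offDiag, (d.phi p.1 * d.A p.2 + d.A p.1 * d.phi p.2)) +
      C (ZT ^ 4 * wT ^ 2) * up (∑ p ∈ J.offDiag, d.A p.1 * d.A p.2)) := by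
  obtain ⟨q, hq⟩ := two_mul_prod (C wT : MvPolynomial Y TA) J rho fun j hj => (h j hj).two.one
  have h1 : ∀ p ∈ J.offDiag, ∃ r : MvPolynomial Y TA, rho p.1 * rho p.2 =
      C (ZT ^ 2 * wT ^ 2) * up (d.phi p.1 * d.phi p.2) +
      C (ZT ^ 3 * wT ^ 2) * up (d.phi p.1 * d.A p.2 + d.A p.1 * d.phi p.2) +
      C (ZT ^ 4 * wT ^ 2) * up (d.A p.1 * d.A p.2) + C (wT ^ 3) * r := by
    intro p hp
    rw [mem_offDiag] at hp
    obtain ⟨a, ha⟩ := (h p.1 hp.1).two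
    obtain ⟨b, hb⟩ := (h p.2 hp.2.1).two
    have ha' : rho p.1 = (C (ZT ^ 1 * wT ^ 1) * up (d.phi p.1) + C (ZT ^ 2 * wT ^ 1) *
        up (d.A p.1)) + C (wT ^ 2) * a := by
      rw [← ha]
      ring
    have hb' : rho p.2 = (C (ZT ^ 1 * wT ^ 1) * up (d.phi p.2) + C (ZT ^ 2 * wT ^ 1) *
        up (d.A p.2)) + C (wT ^ 2) * b := by
      rw [← hb]
      ring
    refine ⟨C wT * a * b + (C ZT * up (d.phi p.1) + C (ZT ^ 2) * up (d.A p.1)) * b +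
      a * (C ZT * up (d.phi p.2) + C (ZT ^ 2) * up (d.A p.2)), ?_⟩
    rw [ha', hb']
    simp only [map_mul, map_pow, map_add]
    ring
  choose! r hr using h1
  have h2 : ∀ j ∈ J, ∃ r : MvPolynomial Y TA, rho j = (C (ZT ^ 1 * wT ^ 1) * up (d.phi j) +
      C (ZT ^ 2 * wT ^ 1) * up (d.A j) + C (ZT ^ 1 * wT ^ 2) * up (d.xi j) +
      C (ZT ^ 2 * wT ^ 2) * up (d.chi j) + C (ZT ^ 3 * wT ^ 2) * up (d.kp j)) +
      C (wT ^ 3) * r := by
    intro j hj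
    obtain ⟨a, ha⟩ := h j hj
    exact ⟨a, by rw [← ha]; ring⟩
  choose! s hs using h2
  refine ⟨q + 2 * ∑ j ∈ J, s j + ∑ p ∈ J.offDiag, r p, ?_⟩
  have h3 := sum_sq_sub J rho
  have h4 : ∑ p ∈ J.offDiag, rho p.1 * rho p.2 =
      C (ZT ^ 2 * wT ^ 2) * up (∑ p ∈ J.offDiag, d.phi p.1 * d.phi p.2) +
      C (ZT ^ 3 * wT ^ 2) * up (∑ p ∈ J.offDiag, (d.phi p.1 * d.A p.2 + d.A p.1 * d.phi p.2)) +
      C (ZT ^ 4 * wT ^ 2) * up (∑ p ∈ J.offDiag, d.A p.1 * d.A p.2) +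
      C (wT ^ 3) * ∑ p ∈ J.offDiag, r p := by
    rw [map_sum, map_sum, map_sum, mul_sum, mul_sum, mul_sum, mul_sum, ← sum_add_distrib,
      ← sum_add_distrib, ← sum_add_distrib]
    exact sum_congr rfl fun p hp => hr p hp
  have h5 : ∑ j ∈ J, rho j = C (ZT ^ 1 * wT ^ 1) * up (∑ j ∈ J, d.phi j) +
      C (ZT ^ 2 * wT ^ 1) * up (∑ j ∈ J, d.A j) + C (ZT ^ 1 * wT ^ 2) * up (∑ j ∈ J, d.xi j) +
      C (ZT ^ 2 * wT ^ 2) * up (∑ j ∈ J, d.chi j) + C (ZT ^ 3 * wT ^ 2) * up (∑ j ∈ J, d.kp j) +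
      C (wT ^ 3) * ∑ j ∈ J, s j := by
    rw [map_sum, map_sum, map_sum, map_sum, map_sum]
    simp only [mul_sum]
    rw [← sum_add_distrib, ← sum_add_distrib, ← sum_add_distrib, ← sum_add_distrib,
      ← sum_add_distrib]
    exact sum_congr rfl fun j hj => hs j hj
  rw [h4] at h3
  have h6 : (C wT : MvPolynomial Y TA) ^ 3 = C (wT ^ 3) := by rw [map_pow]
  rw [h6] at hq
  have h7 : up (2 : MvPolynomial Y ℤ) = (2 : MvPolynomial Y TA) := map_ofNat _ _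
  simp only [map_add, map_mul, h7] at *
  linear_combination hq + h3 + 2 * h5

/-! ### the expansion over the stars in operator mode -/

/-- the operator of a star -/
noncomputable def Dh (t k c : Y) : MvPolynomial Y TA := C (ZT * gT) * Dg TA t k c

lemma prod_Dh (T : Finset σ) (t k c : σ → Y) :
    ∏ s ∈ T, Dh (t s) (k s) (c s) = C (ZT ^ T.card * gT ^ T.card) * up (DT ℤ T t k c) := by
  unfold Dh
  rw [prod_mul_distrib, prod_const, up_DT, DT, ← map_pow, mul_pow]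

/-- the items which remain if the stars of `T` are in operator mode -/
noncomputable def JT (J : Finset ι) (St T : Finset σ) : Finset (ι ⊕ σ) := J.disjSum (St \ T)

/-- the product of all factors -/
noncomputable def Full (J : Finset ι) (St : Finset σ) (t k c : σ → Y)
    (rho : ι ⊕ σ → MvPolynomial Y TA) : MvPolynomial Y TA :=
  (∏ s ∈ St, (Dh (t s) (k s) (c s) + (1 + rho (Sum.inr s)))) * ∏ j ∈ J, (1 + rho (Sum.inl j))

lemma Full_eq (J : Finset ι) (St : Finset σ) (t k c : σ → Y)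
    (rho : ι ⊕ σ → MvPolynomial Y TA) : Full J St t k c rho =
      ∑ T ∈ St.powerset, (C (ZT ^ T.card * gT ^ T.card) * up (DT ℤ T t k c)) *
        ∏ j ∈ JT J St T, (1 + rho j) := by
  unfold Full
  rw [prod_add, sum_mul]
  apply sum_congr rfl
  intro T _
  rw [prod_Dh, JT, prod_disjSum]
  ring

lemma JT_subset (J : Finset ι) (St T : Finset σ) : JT J St T ⊆ JT J St ∅ := by
  intro j hj
  rw [JT, mem_disjSum] at hj ⊢
  rcases hj with ⟨a, ha, rfl⟩ | ⟨b, hb, rfl⟩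
  · exact Or.inl ⟨a, ha, rfl⟩
  · exact Or.inr ⟨b, by rw [sdiff_empty]; exact (mem_sdiff.1 hb).1, rfl⟩

/-- one term of the expansion modulo `w` -/
lemma term_zero (d : ItD Y κ) {rho : κ → MvPolynomial Y TA} (J : Finset κ)
    (h : ∀ j ∈ J, d.Is2 j (rho j)) (n m : ℕ) (D : MvPolynomial Y ℤ) :
    cfE 0 m ((C (ZT ^ n * gT ^ n) * up D) * ∏ j ∈ J, (1 + rho j)) =
      if m = n then E0 D else 0 := by
  obtain ⟨q, hq⟩ := prod_items_one d J h
  obtain ⟨r, hr⟩ := gT_pow n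
  have h1 : C (wT ^ 1) ∣ (C (ZT ^ n * gT ^ n) * up D) * ∏ j ∈ J, (1 + rho j) -
      C (ZT ^ n * wT ^ 0) * up D := by
    refine ⟨C (ZT ^ n * gT ^ n) * up D * q + C (ZT ^ n) * C (n * ZT +
      (((n + 1).choose 2 : ℕ) : TA) * (wT * ZT ^ 2) + wT ^ 2 * r) * up D, ?_⟩
    have h2 : ∏ j ∈ J, (1 + rho j) = 1 + C (wT ^ 1) * q := by
      rw [← hq]
      ring
    rw [h2, hr]
    simp only [map_add, map_mul, map_pow, map_one, map_natCast]
    ring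
  rw [cfE_congr (by norm_num) h1, cfE_piece]
  simp [Ec_zero]

/-- one term of the expansion modulo `w ^ 2` -/
lemma term_one (d : ItD Y κ) {rho : κ → MvPolynomial Y TA} (J : Finset κ)
    (h : ∀ j ∈ J, d.Is2 j (rho j)) (n m : ℕ) (D : MvPolynomial Y ℤ) :
    cfE 1 m ((C (ZT ^ n * gT ^ n) * up D) * ∏ j ∈ J, (1 + rho j)) =
      (if m = n then E1 D else 0) +
      (if m = n + 1 then n * E0 D + E0 (D * ∑ j ∈ J, d.phi j) else 0) +
      (if m = n + 2 then E0 (D * ∑ j ∈ J, d.A j) else 0) := by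
  obtain ⟨q, hq⟩ := prod_items_two d J h
  obtain ⟨r, hr⟩ := gT_pow n
  have h1 : C (wT ^ 2) ∣ (C (ZT ^ n * gT ^ n) * up D) * ∏ j ∈ J, (1 + rho j) -
      (C (ZT ^ n * wT ^ 0) * up D + C (ZT ^ (n + 1) * wT ^ 1) *
        up (C (n : ℤ) * D + D * ∑ j ∈ J, d.phi j) +
        C (ZT ^ (n + 2) * wT ^ 1) * up (D * ∑ j ∈ J, d.A j)) := by
    have h2 : ∏ j ∈ J, (1 + rho j) = 1 + C (ZT ^ 1 * wT ^ 1) * up (∑ j ∈ J, d.phi j) +
      C (ZT ^ 2 * wT ^ 1) * up (∑ j ∈ J, d.A j) + C (wT ^ 2) * q := by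
      rw [← hq]
      ring
    have h3 : up (C (n : ℤ) : MvPolynomial Y ℤ) = C ((n : ℕ) : TA) := by
      rw [up, MvPolynomial.map_C]
      simp
    refine ⟨C (ZT ^ n * gT ^ n) * up D * q + C (ZT ^ n) * C ((((n + 1).choose 2 : ℕ) : TA) * ZT ^ 2 +
      wT * r) * up D * (1 + C (ZT ^ 1 * wT ^ 1) * up (∑ j ∈ J, d.phi j) +
      C (ZT ^ 2 * wT ^ 1) * up (∑ j ∈ J, d.A j)) + C (ZT ^ n) * C ((n : ℕ) : TA) * C ZT * up D *
      (C ZT * up (∑ j ∈ J, d.phi j) + C (ZT ^ 2) * up (∑ j ∈ J, d.A j)), ?_⟩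
    rw [h2, hr]
    simp only [map_add, map_mul, h3]
    simp only [map_add, map_mul, map_pow, map_one, map_natCast]
    ring
  rw [cfE_congr (by norm_num) h1, map_add, map_add, cfE_piece, cfE_piece, cfE_piece, Ec_add]
  have h4 : ∀ P : MvPolynomial Y ℤ, Ec 0 (C (n : ℤ) * P) = n * E0 P := by
    intro P
    rw [Ec_zero, E0, Ev_C_mul]
  simp only [Nat.sub_self, Nat.sub_zero, h4, Ec_zero, Ec_one, le_refl, and_true, zero_le,
    Nat.zero_le]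

/-- twice one term of the expansion modulo `w ^ 3` -/
lemma term_two (d : ItD Y κ) {rho : κ → MvPolynomial Y TA} (J : Finset κ)
    (h : ∀ j ∈ J, d.Is j (rho j)) (n m : ℕ) (D : MvPolynomial Y ℤ) :
    2 * cfE 2 m ((C (ZT ^ n * gT ^ n) * up D) * ∏ j ∈ J, (1 + rho j)) =
      (if m = n then 2 * Ec 2 D else 0) +
      (if m = n + 1 then 2 * n * E1 D + 2 * E1 (D * ∑ j ∈ J, d.phi j) +
        2 * E0 (D * ∑ j ∈ J, d.xi j) else 0) +
      (if m = n + 2 then 2 * ((n + 1).choose 2 : ℕ) * E0 D + 2 * E1 (D * ∑ j ∈ J, d.A j) +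
        2 * n * E0 (D * ∑ j ∈ J, d.phi j) + 2 * E0 (D * ∑ j ∈ J, d.chi j) +
        E0 (D * ∑ p ∈ J.offDiag, d.phi p.1 * d.phi p.2) else 0) +
      (if m = n + 3 then 2 * n * E0 (D * ∑ j ∈ J, d.A j) + 2 * E0 (D * ∑ j ∈ J, d.kp j) +
        E0 (D * ∑ p ∈ J.offDiag, (d.phi p.1 * d.A p.2 + d.A p.1 * d.phi p.2)) else 0) +
      (if m = n + 4 then E0 (D * ∑ p ∈ J.offDiag, d.A p.1 * d.A p.2) else 0) := by
  obtain ⟨q, hq⟩ := prod_items_three d J h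
  obtain ⟨r, hr⟩ := gT_pow n
  set Ph := ∑ j ∈ J, d.phi j
  set Aa := ∑ j ∈ J, d.A j
  set Xi := ∑ j ∈ J, d.xi j
  set Ch := ∑ j ∈ J, d.chi j
  set Kp := ∑ j ∈ J, d.kp j
  set PP := ∑ p ∈ J.offDiag, d.phi p.1 * d.phi p.2
  set PA := ∑ p ∈ J.offDiag, (d.phi p.1 * d.A p.2 + d.A p.1 * d.phi p.2)
  set AA' := ∑ p ∈ J.offDiag, d.A p.1 * d.A p.2
  have h3 : up (C (n : ℤ) : MvPolynomial Y ℤ) = C ((n : ℕ) : TA) := by
    rw [up, MvPolynomial.map_C]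
    simp
  have h3' : up (C (((n + 1).choose 2 : ℕ) : ℤ) : MvPolynomial Y ℤ) =
      C ((((n + 1).choose 2 : ℕ) : ℕ) : TA) := by
    rw [up, MvPolynomial.map_C]
    simp
  have h7 : up (2 : MvPolynomial Y ℤ) = (2 : MvPolynomial Y TA) := map_ofNat _ _
  have h1 : C (wT ^ 3) ∣ 2 * ((C (ZT ^ n * gT ^ n) * up D) * ∏ j ∈ J, (1 + rho j)) -
      (C (ZT ^ n * wT ^ 0) * up (2 * D) +
        C (ZT ^ (n + 1) * wT ^ 1) * up (2 * (C (n : ℤ) * D) + 2 * (D * Ph)) +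
        C (ZT ^ (n + 2) * wT ^ 1) * up (2 * (D * Aa)) +
        C (ZT ^ (n + 1) * wT ^ 2) * up (2 * (D * Xi)) +
        C (ZT ^ (n + 2) * wT ^ 2) * up (2 * (C (((n + 1).choose 2 : ℕ) : ℤ) * D) +
          2 * (C (n : ℤ) * (D * Ph)) + 2 * (D * Ch) + D * PP) +
        C (ZT ^ (n + 3) * wT ^ 2) * up (2 * (C (n : ℤ) * (D * Aa)) + 2 * (D * Kp) + D * PA) +
        C (ZT ^ (n + 4) * wT ^ 2) * up (D * AA')) := by
    have h2 : 2 * ∏ j ∈ J, (1 + rho j) = 2 +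
      C (ZT ^ 1 * wT ^ 1) * up (2 * Ph) + C (ZT ^ 2 * wT ^ 1) * up (2 * Aa) +
      C (ZT ^ 1 * wT ^ 2) * up (2 * Xi) + C (ZT ^ 2 * wT ^ 2) * up (2 * Ch + PP) +
      C (ZT ^ 3 * wT ^ 2) * up (2 * Kp + PA) + C (ZT ^ 4 * wT ^ 2) * up AA' + C (wT ^ 3) * q := by
      rw [← hq]
      ring
    have e1 : 2 * ((C (ZT ^ n * gT ^ n) * up D) * ∏ j ∈ J, (1 + rho j)) =
        (C (ZT ^ n * gT ^ n) * up D) * (2 * ∏ j ∈ J, (1 + rho j)) := by ring
    rw [e1, h2, hr]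
    simp only [map_add, map_mul, h3, h3', h7]
    refine ⟨C (ZT ^ n) * up D * (C (1 + (n : TA) * (wT * ZT) +
        (((n + 1).choose 2 : ℕ) : TA) * (wT ^ 2 * ZT ^ 2) + wT ^ 3 * r) * q +
      C r * (2 + C (ZT ^ 1 * wT ^ 1) * (2 * up Ph) + C (ZT ^ 2 * wT ^ 1) * (2 * up Aa) +
      C (ZT ^ 1 * wT ^ 2) * (2 * up Xi) + C (ZT ^ 2 * wT ^ 2) * (2 * up Ch + up PP) +
      C (ZT ^ 3 * wT ^ 2) * (2 * up Kp + up PA) + C (ZT ^ 4 * wT ^ 2) * up AA') +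
      C ((((n + 1).choose 2 : ℕ) : TA) * ZT ^ 2) * (C (ZT ^ 1) * (2 * up Ph) +
        C (ZT ^ 2) * (2 * up Aa) +
        C (ZT ^ 1 * wT) * (2 * up Xi) + C (ZT ^ 2 * wT) * (2 * up Ch + up PP) +
        C (ZT ^ 3 * wT) * (2 * up Kp + up PA) + C (ZT ^ 4 * wT) * up AA') +
      C ((n : TA) * ZT) * (C (ZT ^ 1) * (2 * up Xi) + C (ZT ^ 2) * (2 * up Ch + up PP) +
        C (ZT ^ 3) * (2 * up Kp + up PA) + C (ZT ^ 4) * up AA')), ?_⟩
    simp only [map_add, map_mul, map_pow, map_one, map_natCast]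
    ring
  rw [← cfE_two_mul, cfE_congr (by norm_num) h1]
  simp only [map_add (cfE 2 m), cfE_piece, Ec_add]
  have e2 : ∀ (l : ℕ) (P : MvPolynomial Y ℤ), Ec l (2 * P) = 2 * Ec l P := by
    intro l P
    rw [two_mul, Ec_add, two_mul]
  have e3 : ∀ (l : ℕ) (z : ℤ) (P : MvPolynomial Y ℤ), Ec l (C z * P) = z * Ec l P := by
    intro l z P
    have : up0 (C z * P) = C ((z : ℤ) : PowerSeries ℤ) * up0 P := by
      rw [map_mul, up0, MvPolynomial.map_C]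
      simp
    unfold Ec
    rw [this, Ev_C_mul, ← zsmul_eq_mul, map_zsmul, smul_eq_mul]
  simp only [e2, e3]
  norm_num
  simp only [Ec_zero, Ec_one]
  split_ifs <;> ring

end Pool.Gauss.TL
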