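import Pool.Agent.Work.MP_065141_co.K.ThreeLev1

/-!
# Disjoint stars: the coefficients as sums of values at `w = 0`
-/

set_option autoImplicit false
set_option linter.unusedSectionVars false
open scoped Classical
open Finset MvPolynomial

namespace Pool.Gauss.TL

variable {Y ι σ κ : Type}

/-! ### vanishing -/

lemma up0_mem {s : Set Y} {P : MvPolynomial Y ℤ} (h : P ∈ supported ℤ s) :
    up0 P ∈ supported (PowerSeries ℤ) s := by
  rw [mem_supported] at h ⊢
  refine subset_trans ?_ h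
  exact_mod_cast MvPolynomial.vars_map (Int.castRingHom (PowerSeries ℤ)) (p := P)

lemma up0_Dg (t k c : Y) : up0 (Dg ℤ t k c) = Dg (PowerSeries ℤ) t k c := by
  simp [up0, Dg]

lemma up0_DT (T : Finset σ) (t k c : σ → Y) :
    up0 (DT ℤ T t k c) = DT (PowerSeries ℤ) T t k c := by
  rw [DT, map_prod, DT]
  exact prod_congr rfl fun s _ => up0_Dg _ _ _

/-- a star in operator mode which is not touched -/
lemma Ec_DT {St : Finset σ} {t k c : σ → Y} (hS : Stars St t k c) {T : Finset σ} (hT : T ⊆ St)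
    {s : σ} (hs : s ∈ T) {P : MvPolynomial Y ℤ} (hP : P ∈ supported ℤ {y | y ≠ t s ∧ y ≠ c s})
    (m : ℕ) : Ec m (DT ℤ T t k c * P) = 0 := by
  unfold Ec
  rw [map_mul, up0_DT, Ev_DT _ hS hT hs (up0_mem hP), map_zero]

lemma Ec_DT_one {St : Finset σ} {t k c : σ → Y} (hS : Stars St t k c) {T : Finset σ}
    (hT : T ⊆ St) (hne : T.Nonempty) (m : ℕ) : Ec m (DT ℤ T t k c) = 0 := by
  obtain ⟨s, hs⟩ := hne
  have := Ec_DT hS hT hs (P := 1) (one_mem _) m
  rwa [mul_one] at this

/-- the vertices of a star -/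
noncomputable def VS (t k c : σ → Y) (s : σ) : Finset Y := {t s, k s, c s}

lemma supp_mono_VS {t k c : σ → Y} {s : σ} {U : Finset Y} (h : Disjoint U (VS t k c s))
    {P : MvPolynomial Y ℤ} (hP : P ∈ supported ℤ (U : Set Y)) :
    P ∈ supported ℤ {y | y ≠ t s ∧ y ≠ c s} := by
  refine supported_mono ?_ hP
  intro y hy
  rw [Finset.disjoint_left] at h
  have := h (mem_coe.1 hy)
  constructor
  · rintro rfl
    exact this (by simp [VS])
  · rintro rfl
    exact this (by simp [VS])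

/-- a product of stars in operator mode times a polynomial whose variables miss one of them -/
lemma Ec_DT_disj {St : Finset σ} {t k c : σ → Y} (hS : Stars St t k c) {T : Finset σ}
    (hT : T ⊆ St) {s : σ} (hs : s ∈ T) {U : Finset Y} (hU : Disjoint U (VS t k c s))
    {P : MvPolynomial Y ℤ} (hP : P ∈ supported ℤ (U : Set Y)) (m : ℕ) :
    Ec m (DT ℤ T t k c * P) = 0 := Ec_DT hS hT hs (supp_mono_VS hU hP) m

lemma E0_DT_disj {St : Finset σ} {t k c : σ → Y} (hS : Stars St t k c) {T : Finset σ}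
    (hT : T ⊆ St) {s : σ} (hs : s ∈ T) {U : Finset Y} (hU : Disjoint U (VS t k c s))
    {P : MvPolynomial Y ℤ} (hP : P ∈ supported ℤ (U : Set Y)) :
    E0 (DT ℤ T t k c * P) = 0 := by
  have := Ec_DT_disj hS hT hs hU hP 0
  rwa [Ec_zero] at this

lemma Stars.disj {St : Finset σ} {t k c : σ → Y} (hS : Stars St t k c) {s s' : σ} (hs : s ∈ St)
    (hs' : s' ∈ St) (h : s ≠ s') : Disjoint (VS t k c s) (VS t k c s') := hS.dis s hs s' hs' h

/-- three stars are not all touched by two vertices -/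
lemma exists_untouched {St : Finset σ} {t k c : σ → Y} (hS : Stars St t k c) {T : Finset σ}
    (hT : T ⊆ St) {U : Finset Y} (hU : U.card < T.card) : ∃ s ∈ T, Disjoint U (VS t k c s) := by
  by_contra hcon
  push Not at hcon
  have h1 : ∀ s ∈ T, ∃ y ∈ U, y ∈ VS t k c s := by
    intro s hs
    have := hcon s hs
    rw [Finset.not_disjoint_iff] at this
    obtain ⟨y, h2, h3⟩ := this
    exact ⟨y, h2, h3⟩
  obtain ⟨s0, hs0⟩ : T.Nonempty := card_pos.1 (by omega)
  have : Nonempty Y := ⟨(h1 s0 hs0).choose⟩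
  choose! f hf using h1
  have h2 : T.card ≤ U.card := by
    apply Finset.card_le_card_of_injOn f (fun s hs => (hf s hs).1)
    intro s hs s' hs' h
    by_contra hne
    have h3 := hS.disj (hT hs) (hT hs') hne
    rw [Finset.disjoint_left] at h3
    exact h3 (hf s hs).2 (h ▸ (hf s' hs').2)
  omega

/-! ### sets of variables of the items -/

/-- the data of the items are supported: `N j` (at most two vertices) for the items of the
background and the vertices of the star for the own items -/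
structure Supp (J : Finset ι) (St : Finset σ) (t k c : σ → Y) (N : ι → Finset Y)
    (d : ItD Y (ι ⊕ σ)) : Prop where
  card : ∀ j ∈ J, (N j).card ≤ 2
  phi : ∀ j ∈ J, d.phi (Sum.inl j) ∈ supported ℤ (N j : Set Y)
  A : ∀ j ∈ J, d.A (Sum.inl j) ∈ supported ℤ (N j : Set Y)
  xi : ∀ j ∈ J, d.xi (Sum.inl j) ∈ supported ℤ (N j : Set Y)
  chi : ∀ j ∈ J, d.chi (Sum.inl j) ∈ supported ℤ (N j : Set Y)
  kp : ∀ j ∈ J, d.kp (Sum.inl j) ∈ supported ℤ (N j : Set Y)
  phi' : ∀ s ∈ St, d.phi (Sum.inr s) ∈ supported ℤ (VS t k c s : Set Y)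
  A' : ∀ s ∈ St, d.A (Sum.inr s) ∈ supported ℤ (VS t k c s : Set Y)
  xi' : ∀ s ∈ St, d.xi (Sum.inr s) ∈ supported ℤ (VS t k c s : Set Y)
  chi' : ∀ s ∈ St, d.chi (Sum.inr s) ∈ supported ℤ (VS t k c s : Set Y)
  kp' : ∀ s ∈ St, d.kp (Sum.inr s) ∈ supported ℤ (VS t k c s : Set Y)

lemma sum_JT (J : Finset ι) (St T : Finset σ) {M : Type} [AddCommMonoid M] (f : ι ⊕ σ → M) :
    ∑ j ∈ JT J St T, f j = ∑ j ∈ J, f (Sum.inl j) + ∑ s ∈ St \ T, f (Sum.inr s) := by
  rw [JT, sum_disjSum]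

/-- own items do not touch the other stars -/
lemma E0_DT_own {St : Finset σ} {t k c : σ → Y} (hS : Stars St t k c)
    {T : Finset σ} (hT : T ⊆ St) (hne : T.Nonempty) {s : σ} (hs : s ∈ St \ T)
    {P : MvPolynomial Y ℤ} (hP : P ∈ supported ℤ (VS t k c s : Set Y)) (m : ℕ) :
    Ec m (DT ℤ T t k c * P) = 0 := by
  obtain ⟨s', hs'⟩ := hne
  rw [mem_sdiff] at hs
  refine Ec_DT_disj hS hT hs' ?_ hP m
  exact hS.disj hs.1 (hT hs') (fun h => hs.2 (h ▸ hs'))

lemma E0_mul_sum {β : Type} (D : MvPolynomial Y ℤ) (s : Finset β) (f : β → MvPolynomial Y ℤ) :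
    E0 (D * ∑ x ∈ s, f x) = ∑ x ∈ s, E0 (D * f x) := by
  rw [mul_sum, map_sum]

lemma Ec_mul_sum {β : Type} (m : ℕ) (D : MvPolynomial Y ℤ) (s : Finset β)
    (f : β → MvPolynomial Y ℤ) : Ec m (D * ∑ x ∈ s, f x) = ∑ x ∈ s, Ec m (D * f x) := by
  rw [mul_sum, Ec_sum]

/-- the sum over the items reduces to the background -/
lemma Ec_DT_sum {J : Finset ι} {St : Finset σ} {t k c : σ → Y} (hS : Stars St t k c)
    {T : Finset σ} (hT : T ⊆ St) (hne : T.Nonempty) (f : ι ⊕ σ → MvPolynomial Y ℤ)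
    (hf : ∀ s ∈ St, f (Sum.inr s) ∈ supported ℤ (VS t k c s : Set Y)) (m : ℕ) :
    Ec m (DT ℤ T t k c * ∑ j ∈ JT J St T, f j) =
      ∑ j ∈ J, Ec m (DT ℤ T t k c * f (Sum.inl j)) := by
  rw [Ec_mul_sum, sum_JT, Finset.sum_eq_zero (s := St \ T), add_zero]
  intro s hs
  exact E0_DT_own hS hT hne hs (hf s (mem_sdiff.1 hs).1) m

/-- three stars in operator mode -/
lemma Ec_DT_three {J : Finset ι} {St : Finset σ} {t k c : σ → Y} (hS : Stars St t k c)
    {T : Finset σ} (hT : T ⊆ St) (h3 : 3 ≤ T.card) {N : ι → Finset Y}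
    (hN : ∀ j ∈ J, (N j).card ≤ 2) (f : ι ⊕ σ → MvPolynomial Y ℤ)
    (hf : ∀ j ∈ J, f (Sum.inl j) ∈ supported ℤ (N j : Set Y))
    (hf' : ∀ s ∈ St, f (Sum.inr s) ∈ supported ℤ (VS t k c s : Set Y)) (m : ℕ) :
    Ec m (DT ℤ T t k c * ∑ j ∈ JT J St T, f j) = 0 := by
  rw [Ec_DT_sum hS hT (card_pos.1 (by omega)) f hf' m]
  apply Finset.sum_eq_zero
  intro j hj
  have := hN j hj
  obtain ⟨s, hs, h4⟩ := exists_untouched hS hT (U := N j) (by omega)
  exact Ec_DT_disj hS hT hs h4 (hf j hj) m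

lemma Ec_DT_zero {St : Finset σ} {t k c : σ → Y} (hS : Stars St t k c) {T : Finset σ}
    (hT : T ⊆ St) {P : MvPolynomial Y ℤ} (h : T.Nonempty) (hP : P = 1) (m : ℕ) :
    Ec m (DT ℤ T t k c * P) = 0 := by
  rw [hP, mul_one]
  exact Ec_DT_one hS hT h m

lemma DT_empty (t k c : σ → Y) : DT ℤ (∅ : Finset σ) t k c = 1 := by rw [DT, prod_empty]

lemma DT_single (t k c : σ → Y) (s : σ) : DT ℤ ({s} : Finset σ) t k c = Dg ℤ (t s) (k s) (c s) := by
  rw [DT, prod_singleton]

/-- sums over the powerset by the number of elements -/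
lemma sum_card_eq {M : Type} [AddCommMonoid M] (St : Finset σ) (n : ℕ) (f : Finset σ → M) :
    ∑ T ∈ St.powerset, (if T.card = n then f T else 0) = ∑ T ∈ St.powersetCard n, f T := by
  rw [← sum_filter, powersetCard_eq_filter]

/-! ### first order -/

section

variable {J : Finset ι} {St : Finset σ} {t k c : σ → Y} {N : ι → Finset Y} {d : ItD Y (ι ⊕ σ)}
  {rho : ι ⊕ σ → MvPolynomial Y TA}

/-- the value at `w = 0` with a frozen factor -/
lemma cf0_Full (h : ∀ j ∈ JT J St ∅, d.Is2 j (rho j)) (f : MvPolynomial Y ℤ) (m : ℕ) :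
    cfE 0 m (up f * Full J St t k c rho) =
      ∑ T ∈ St.powersetCard m, E0 (f * DT ℤ T t k c) := by
  rw [Full_eq, mul_sum, map_sum, ← sum_card_eq]
  apply sum_congr rfl
  intro T _
  have h1 : up f * ((C (ZT ^ T.card * gT ^ T.card) * up (DT ℤ T t k c)) *
        ∏ j ∈ JT J St T, (1 + rho j)) = (C (ZT ^ T.card * gT ^ T.card) *
        up (f * DT ℤ T t k c)) * ∏ j ∈ JT J St T, (1 + rho j) := by
    rw [map_mul up]
    ring
  rw [h1, term_zero d (JT J St T) fun j hj => h j (JT_subset J St T hj)]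
  simp only [eq_comm (a := m)]

/-- the coefficient of `w` with a frozen factor -/
lemma cf1_Full (h : ∀ j ∈ JT J St ∅, d.Is2 j (rho j)) (f : MvPolynomial Y ℤ) (m : ℕ) :
    cfE 1 m (up f * Full J St t k c rho) =
      ∑ T ∈ St.powerset, ((if m = T.card then E1 (f * DT ℤ T t k c) else 0) +
      (if m = T.card + 1 then T.card * E0 (f * DT ℤ T t k c) +
        E0 (f * DT ℤ T t k c * ∑ j ∈ JT J St T, d.phi j) else 0) +
      (if m = T.card + 2 then E0 (f * DT ℤ T t k c * ∑ j ∈ JT J St T, d.A j) else 0)) := by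
  rw [Full_eq, mul_sum, map_sum]
  apply sum_congr rfl
  intro T _
  have h1 : up f * ((C (ZT ^ T.card * gT ^ T.card) * up (DT ℤ T t k c)) *
        ∏ j ∈ JT J St T, (1 + rho j)) = (C (ZT ^ T.card * gT ^ T.card) *
        up (f * DT ℤ T t k c)) * ∏ j ∈ JT J St T, (1 + rho j) := by
    rw [map_mul up]
    ring
  rw [h1, term_one d (JT J St T) fun j hj => h j (JT_subset J St T hj)]

/-- **the coefficient of `w Z ^ (m + 2)`** without frozen factor -/
theorem cf1_Full_one (hS : Stars St t k c) (hd : Supp J St t k c N d)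
    (h : ∀ j ∈ JT J St ∅, d.Is2 j (rho j)) (m : ℕ) :
    cfE 1 (m + 2) (Full J St t k c rho) =
      ∑ T ∈ St.powersetCard (m + 1), ∑ j ∈ J, E0 (DT ℤ T t k c * d.phi (Sum.inl j)) +
      ∑ T ∈ St.powersetCard m, E0 (DT ℤ T t k c * ∑ j ∈ JT J St T, d.A j) := by
  have h0 := cf1_Full (J := J) (t := t) (k := k) (c := c) h 1 (m + 2)
  rw [map_one, one_mul] at h0
  rw [h0, ← sum_card_eq, ← sum_card_eq, ← sum_add_distrib]
  apply sum_congr rfl
  intro T hT
  rw [mem_powerset] at hT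
  rw [one_mul]
  have e1 : (if m + 2 = T.card then E1 (DT ℤ T t k c) else 0) = 0 := by
    split_ifs with g
    · rw [← Ec_one]
      exact Ec_DT_one hS hT (card_pos.1 (by omega)) 1
    · rfl
  rw [e1, zero_add]
  congr 1
  · by_cases g : T.card = m + 1
    · rw [if_pos (by omega), if_pos g]
      have hne : T.Nonempty := card_pos.1 (by omega)
      have h1 := Ec_DT_one hS hT hne 0
      rw [Ec_zero] at h1
      have h2 := Ec_DT_sum (J := J) hS hT hne d.phi hd.phi' 0
      simp only [Ec_zero] at h2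
      rw [h1, mul_zero, zero_add, h2]
    · rw [if_neg (by omega), if_neg g]
  · by_cases g : T.card = m
    · rw [if_pos (by omega), if_pos g]
    · rw [if_neg (by omega), if_neg g]

/-- **twice the coefficient of `w² Z⁴`** -/
theorem cf24_Full (hS : Stars St t k c) (hd : Supp J St t k c N d)
    (h : ∀ j ∈ JT J St ∅, d.Is j (rho j)) :
    2 * cfE 2 4 (Full J St t k c rho) =
      E0 (∑ p ∈ (JT J St ∅).offDiag, d.A p.1 * d.A p.2) +
      ∑ s ∈ St, (2 * E0 (Dg ℤ (t s) (k s) (c s) * ∑ j ∈ JT J St {s}, d.A j) +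
        2 * E0 (Dg ℤ (t s) (k s) (c s) * ∑ j ∈ JT J St {s}, d.kp j) +
        E0 (Dg ℤ (t s) (k s) (c s) * ∑ p ∈ (JT J St {s}).offDiag,
          (d.phi p.1 * d.A p.2 + d.A p.1 * d.phi p.2))) +
      ∑ T ∈ St.powersetCard 2, (2 * E1 (DT ℤ T t k c * ∑ j ∈ JT J St T, d.A j) +
        4 * E0 (DT ℤ T t k c * ∑ j ∈ JT J St T, d.phi j) +
        2 * E0 (DT ℤ T t k c * ∑ j ∈ JT J St T, d.chi j) +
        E0 (DT ℤ T t k c * ∑ p ∈ (JT J St T).offDiag, d.phi p.1 * d.phi p.2)) := by
  rw [Full_eq, map_sum, mul_sum]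
  have h1 : ∀ T ∈ St.powerset, 2 * cfE 2 4 ((C (ZT ^ T.card * gT ^ T.card) *
      up (DT ℤ T t k c)) * ∏ j ∈ JT J St T, (1 + rho j)) =
      (if T.card = 0 then E0 (DT ℤ T t k c * ∑ p ∈ (JT J St T).offDiag, d.A p.1 * d.A p.2)
        else 0) +
      (if T.card = 1 then (2 * E0 (DT ℤ T t k c * ∑ j ∈ JT J St T, d.A j) +
        2 * E0 (DT ℤ T t k c * ∑ j ∈ JT J St T, d.kp j) +
        E0 (DT ℤ T t k c * ∑ p ∈ (JT J St T).offDiag,
          (d.phi p.1 * d.A p.2 + d.A p.1 * d.phi p.2))) else 0) +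
      (if T.card = 2 then (2 * E1 (DT ℤ T t k c * ∑ j ∈ JT J St T, d.A j) +
        4 * E0 (DT ℤ T t k c * ∑ j ∈ JT J St T, d.phi j) +
        2 * E0 (DT ℤ T t k c * ∑ j ∈ JT J St T, d.chi j) +
        E0 (DT ℤ T t k c * ∑ p ∈ (JT J St T).offDiag, d.phi p.1 * d.phi p.2)) else 0) := by
    intro T hT
    rw [mem_powerset] at hT
    rw [term_two d (JT J St T) (fun j hj => h j (JT_subset J St T hj))]
    have hc : T.card = 0 ∨ T.card = 1 ∨ T.card = 2 ∨ T.card = 3 ∨ T.card = 4 ∨ 5 ≤ T.card := by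
      omega
    rcases hc with g | g | g | g | g | g
    · rw [g]
      norm_num
    · rw [g]
      norm_num
    · have hne : T.Nonempty := card_pos.1 (by omega)
      have e1 := Ec_DT_one hS hT hne 0
      rw [Ec_zero] at e1
      rw [g]
      norm_num
      rw [e1]
      try norm_num
    · have hne : T.Nonempty := card_pos.1 (by omega)
      have e1 := Ec_DT_one hS hT hne 1
      have e2 := Ec_DT_three (J := J) hS hT (by omega) hd.card d.phi hd.phi hd.phi' 1
      have e3 := Ec_DT_three (J := J) hS hT (by omega) hd.card d.xi hd.xi hd.xi' 0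
      rw [Ec_one] at e1 e2
      rw [Ec_zero] at e3
      rw [g]
      norm_num
      rw [e1, e2, e3]
      norm_num
    · have hne : T.Nonempty := card_pos.1 (by omega)
      have e1 := Ec_DT_one hS hT hne 2
      rw [g]
      norm_num
      exact e1
    · rw [if_neg (by omega), if_neg (by omega), if_neg (by omega), if_neg (by omega),
        if_neg (by omega), if_neg (by omega), if_neg (by omega), if_neg (by omega)]
      norm_num
  rw [sum_congr rfl h1, sum_add_distrib, sum_add_distrib, sum_card_eq, sum_card_eq, sum_card_eq,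
    powersetCard_zero, sum_singleton, DT_empty, one_mul]
  congr 2
  rw [powersetCard_one, sum_map]
  apply sum_congr rfl
  intro s _
  simp only [Function.Embedding.coeFn_mk, DT_single]

end

/-! ### shifts -/

lemma cfE_Z_succ (d j : ℕ) (P : MvPolynomial Y TA) : cfE d (j + 1) (C ZT * P) = cfE d j P := by
  rw [cfE_apply, cfE_apply, Ev_C_mul, cf_apply, cf_apply, ZT, PowerSeries.coeff_C_mul,
    Polynomial.coeff_X_mul]

lemma cfE_Z_zero (d : ℕ) (P : MvPolynomial Y TA) : cfE d 0 (C ZT * P) = 0 := by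
  rw [cfE_apply, Ev_C_mul, cf_apply, ZT, PowerSeries.coeff_C_mul, Polynomial.coeff_X_mul_zero]

lemma cfE_w_succ (d j : ℕ) (P : MvPolynomial Y TA) : cfE (d + 1) j (C wT * P) = cfE d j P := by
  rw [cfE_apply, cfE_apply, Ev_C_mul, cf_apply, cf_apply, wT, PowerSeries.coeff_succ_X_mul]

lemma cfE_w_zero (j : ℕ) (P : MvPolynomial Y TA) : cfE 0 j (C wT * P) = 0 := by
  rw [cfE_apply, Ev_C_mul, cf_apply, wT, PowerSeries.coeff_zero_X_mul, Polynomial.coeff_zero]

/-! ### frames -/

/-- a frame modulo `w ^ 2` -/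
def IsFrame (f : MvPolynomial Y TA) (u v f1 f2 p : MvPolynomial Y ℤ) : Prop :=
  C (wT ^ 2) ∣ f - (1 + C ZT * up u + C ZT * (C ZT * up v) + C wT * (C ZT * up f1) +
    C wT * (C ZT * (C ZT * up f2)) + C wT * (C ZT * (C ZT * (C ZT * up p))))

section

variable {J : Finset ι} {St : Finset σ} {t k c : σ → Y} {N : ι → Finset Y} {d : ItD Y (ι ⊕ σ)}
  {rho : ι ⊕ σ → MvPolynomial Y TA} {f : MvPolynomial Y TA} {u v f1 f2 p : MvPolynomial Y ℤ}
  {U0 : Finset Y}

/-- products over at least one star are not touched by the variables of the frame -/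
lemma sum_frame_zero (hS : Stars St t k c) (hU : ∀ s ∈ St, Disjoint U0 (VS t k c s))
    {P : MvPolynomial Y ℤ} (hP : P ∈ supported ℤ (U0 : Set Y)) (m : ℕ) :
    ∑ T ∈ St.powersetCard m, E0 (P * DT ℤ T t k c) = if m = 0 then E0 P else 0 := by
  split_ifs with h
  · rw [h, powersetCard_zero, sum_singleton, DT_empty, mul_one]
  · apply Finset.sum_eq_zero
    intro T hT
    rw [mem_powersetCard] at hT
    obtain ⟨s, hs⟩ : T.Nonempty := card_pos.1 (by omega)
    rw [mul_comm]
    exact E0_DT_disj hS hT.1 hs (hU s (hT.1 hs)) hP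

/-- frozen variables of the frame -/
lemma cf0_frozen (hS : Stars St t k c) (hU : ∀ s ∈ St, Disjoint U0 (VS t k c s))
    (h : ∀ j ∈ JT J St ∅, d.Is2 j (rho j)) {P : MvPolynomial Y ℤ}
    (hP : P ∈ supported ℤ (U0 : Set Y)) (m : ℕ) :
    cfE 0 m (up P * Full J St t k c rho) = if m = 0 then E0 P else 0 := by
  rw [cf0_Full h, sum_frame_zero hS hU hP]

/-- **the value at `w = 0` of a frame** -/
theorem cf0_frame (hS : Stars St t k c) (hU : ∀ s ∈ St, Disjoint U0 (VS t k c s))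
    (h : ∀ j ∈ JT J St ∅, d.Is2 j (rho j)) (hf : IsFrame f u v f1 f2 p)
    (hu : u ∈ supported ℤ (U0 : Set Y)) (hv : v ∈ supported ℤ (U0 : Set Y)) (m : ℕ) :
    cfE 0 m (f * Full J St t k c rho) =
      (if m = 0 then 1 else 0) + (if m = 1 then E0 u else 0) + (if m = 2 then E0 v else 0) := by
  obtain ⟨q, hq⟩ := hf
  set P := Full J St t k c rho with hPdef
  have h1 : f * P = up 1 * P + C ZT * (up u * P) + C ZT * (C ZT * (up v * P)) +
      C wT * ((C ZT * up f1 + C ZT * (C ZT * up f2) + C ZT * (C ZT * (C ZT * up p)) +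
      C wT * q) * P) := by
    have h2 : f = (1 + C ZT * up u + C ZT * (C ZT * up v) + C wT * (C ZT * up f1) +
      C wT * (C ZT * (C ZT * up f2)) + C wT * (C ZT * (C ZT * (C ZT * up p)))) +
      C (wT ^ 2) * q := by
      rw [← hq]
      ring
    rw [h2, map_one, map_pow]
    ring
  rw [h1, map_add, map_add, map_add, cfE_w_zero, add_zero, hPdef,
    cf0_frozen hS hU h (one_mem _), E0_one]
  congr 1
  · congr 1
    rcases m with _ | m
    · rw [cfE_Z_zero]
      simp
    · rw [cfE_Z_succ, cf0_frozen hS hU h hu]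
      simp
  · rcases m with _ | m
    · rw [cfE_Z_zero]
      simp
    · rw [cfE_Z_succ]
      rcases m with _ | m
      · rw [cfE_Z_zero]
        simp
      · rw [cfE_Z_succ, cf0_frozen hS hU h hv]
        simp

/-- the sum over the items with frozen variables reduces to the background -/
lemma E0_frozen_sum (hS : Stars St t k c) (hU : ∀ s ∈ St, Disjoint U0 (VS t k c s))
    (hd : Supp J St t k c N d) {T : Finset σ} (hT : T ⊆ St) (hne : T.Nonempty)
    {P : MvPolynomial Y ℤ} (hP : P ∈ supported ℤ (U0 : Set Y)) :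
    E0 (P * DT ℤ T t k c * ∑ j ∈ JT J St T, d.phi j) =
      ∑ j ∈ J, E0 (DT ℤ T t k c * (P * d.phi (Sum.inl j))) := by
  rw [E0_mul_sum, sum_JT, Finset.sum_eq_zero (s := St \ T), add_zero]
  · apply sum_congr rfl
    intro j _
    congr 1
    ring
  · intro s hs
    rw [mem_sdiff] at hs
    obtain ⟨s', hs'⟩ := hne
    have h1 : P * DT ℤ T t k c * d.phi (Sum.inr s) = DT ℤ T t k c * (P * d.phi (Sum.inr s)) := by
      ring
    rw [h1]
    refine E0_DT_disj hS hT hs' (U := U0 ∪ VS t k c s) ?_ (mul_mem ?_ ?_)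
    · rw [disjoint_union_left]
      exact ⟨hU s' (hT hs'), hS.disj hs.1 (hT hs') (fun h => hs.2 (h ▸ hs'))⟩
    · refine supported_mono ?_ hP
      rw [coe_union]
      exact Set.subset_union_left
    · refine supported_mono ?_ (hd.phi' s hs.1)
      rw [coe_union]
      exact Set.subset_union_right

/-- **the coefficient of `w Z³` of a frame** -/
theorem cf1_frame (hS : Stars St t k c) (hd : Supp J St t k c N d)
    (hU : ∀ s ∈ St, Disjoint U0 (VS t k c s))
    (h : ∀ j ∈ JT J St ∅, d.Is2 j (rho j)) (hf : IsFrame f u v f1 f2 p)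
    (hu : u ∈ supported ℤ (U0 : Set Y)) (hv : v ∈ supported ℤ (U0 : Set Y))
    (hf1 : f1 ∈ supported ℤ (U0 : Set Y)) (hf2 : f2 ∈ supported ℤ (U0 : Set Y))
    (hp : p ∈ supported ℤ (U0 : Set Y)) :
    cfE 1 3 (f * Full J St t k c rho) =
      E0 p + E0 (v * ∑ j ∈ JT J St ∅, d.phi j) + E0 (u * ∑ j ∈ JT J St ∅, d.A j) +
      ∑ s ∈ St, (∑ j ∈ J, E0 (Dg ℤ (t s) (k s) (c s) * (u * d.phi (Sum.inl j))) +
        E0 (Dg ℤ (t s) (k s) (c s) * ∑ j ∈ JT J St {s}, d.A j)) +
      ∑ T ∈ St.powersetCard 2, ∑ j ∈ J, E0 (DT ℤ T t k c * d.phi (Sum.inl j)) := by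
  obtain ⟨q, hq⟩ := hf
  set P := Full J St t k c rho with hPdef
  have h1 : f * P = P + C ZT * (up u * P) + C ZT * (C ZT * (up v * P)) +
      (C wT * (C ZT * (up f1 * P)) + C wT * (C ZT * (C ZT * (up f2 * P))) +
      C wT * (C ZT * (C ZT * (C ZT * (up p * P)))) + C (wT ^ 2) * (q * P)) := by
    have h2 : f = (1 + C ZT * up u + C ZT * (C ZT * up v) + C wT * (C ZT * up f1) +
      C wT * (C ZT * (C ZT * up f2)) + C wT * (C ZT * (C ZT * (C ZT * up p)))) +
      C (wT ^ 2) * q := by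
      rw [← hq]
      ring
    rw [h2]
    ring
  have e0 : cfE 1 3 (C (wT ^ 2) * (q * P)) = 0 := cfE_dvd (by norm_num) (Dvd.intro _ rfl)
  have e1 : cfE 1 3 (C wT * (C ZT * (up f1 * P))) = 0 := by
    rw [cfE_w_succ, cfE_Z_succ, hPdef, cf0_frozen hS hU h hf1]
    norm_num
  have e2 : cfE 1 3 (C wT * (C ZT * (C ZT * (up f2 * P)))) = 0 := by
    rw [cfE_w_succ, cfE_Z_succ, cfE_Z_succ, hPdef, cf0_frozen hS hU h hf2]
    norm_num
  have e3 : cfE 1 3 (C wT * (C ZT * (C ZT * (C ZT * (up p * P))))) = E0 p := by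
    rw [cfE_w_succ, cfE_Z_succ, cfE_Z_succ, cfE_Z_succ, hPdef, cf0_frozen hS hU h hp]
    norm_num
  have e4 := cf1_Full_one (rho := rho) hS hd h 1
  have e5 : cfE 1 3 (C ZT * (C ZT * (up v * P))) = E0 (v * ∑ j ∈ JT J St ∅, d.phi j) := by
    rw [cfE_Z_succ, cfE_Z_succ, hPdef, cf1_Full h,
      Finset.sum_eq_single_of_mem ∅ (empty_mem_powerset St)]
    · rw [card_empty, DT_empty]
      norm_num
    · intro T hT hne
      rw [mem_powerset] at hT
      have h3 : T.Nonempty := nonempty_iff_ne_empty.2 hne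
      have h4 := card_pos.2 h3
      obtain ⟨s, hs⟩ := h3
      rw [if_neg (show ¬ (1 = T.card + 1) by omega), if_neg (show ¬ (1 = T.card + 2) by omega)]
      split_ifs with g
      · rw [← Ec_one, mul_comm, Ec_DT_disj hS hT hs (hU s (hT hs)) hv]
        norm_num
      · norm_num
  have e6 : cfE 1 3 (C ZT * (up u * P)) = E0 (u * ∑ j ∈ JT J St ∅, d.A j) +
      ∑ s ∈ St, ∑ j ∈ J, E0 (Dg ℤ (t s) (k s) (c s) * (u * d.phi (Sum.inl j))) := by
    rw [cfE_Z_succ, hPdef, cf1_Full h]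
    have h3 : ∀ T ∈ St.powerset, ((if 2 = T.card then E1 (u * DT ℤ T t k c) else 0) +
        (if 2 = T.card + 1 then T.card * E0 (u * DT ℤ T t k c) +
          E0 (u * DT ℤ T t k c * ∑ j ∈ JT J St T, d.phi j) else 0) +
        (if 2 = T.card + 2 then E0 (u * DT ℤ T t k c * ∑ j ∈ JT J St T, d.A j) else 0)) =
        (if T.card = 0 then E0 (u * DT ℤ T t k c * ∑ j ∈ JT J St T, d.A j) else 0) +
        (if T.card = 1 then ∑ j ∈ J, E0 (DT ℤ T t k c * (u * d.phi (Sum.inl j))) else 0) := by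
      intro T hT
      rw [mem_powerset] at hT
      have hc : T.card = 0 ∨ T.card = 1 ∨ T.card = 2 ∨ 3 ≤ T.card := by omega
      rcases hc with g | g | g | g
      · rw [g]
        norm_num
      · have hne : T.Nonempty := card_pos.1 (by omega)
        obtain ⟨s, hs⟩ := hne
        have g1 := E0_DT_disj hS hT hs (hU s (hT hs)) hu
        rw [mul_comm] at g1
        rw [E0_frozen_sum hS hU hd hT ⟨s, hs⟩ hu, g, g1]
        norm_num
      · have hne : T.Nonempty := card_pos.1 (by omega)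
        obtain ⟨s, hs⟩ := hne
        have g1 := Ec_DT_disj hS hT hs (hU s (hT hs)) hu 1
        rw [mul_comm, Ec_one] at g1
        rw [g, g1]
        norm_num
      · rw [if_neg (by omega), if_neg (by omega), if_neg (by omega), if_neg (by omega),
          if_neg (by omega)]
        norm_num
    rw [sum_congr rfl h3, sum_add_distrib, sum_card_eq, sum_card_eq, powersetCard_zero,
      sum_singleton, DT_empty, mul_one, powersetCard_one, sum_map]
    congr 1
    apply sum_congr rfl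
    intro s _
    simp only [Function.Embedding.coeFn_mk, DT_single]
  rw [h1, map_add, map_add, map_add, map_add, map_add, map_add, e0, e1, e2, e3, e4, e5, e6,
    powersetCard_one, sum_map]
  simp only [Function.Embedding.coeFn_mk, DT_single, sum_add_distrib]
  ring

end

end Pool.Gauss.TL
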