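import Pool.Agent.Work.MP_065141_co.K.ThreeLev2

/-!
# Disjoint stars: closed forms of the values at `w = 0`
-/

set_option autoImplicit false
set_option linter.unusedSectionVars false
open scoped Classical
open Finset MvPolynomial

namespace Pool.Gauss.TL

variable {Y ι σ κ : Type}

/-! ### monomials and products -/

/-- the product of the variables of a set -/
noncomputable def am (g : Finset Y) : MvPolynomial Y ℤ := ∏ y ∈ g, X y

/-- the product of the `1 - a_y` -/
noncomputable def pr (N : Finset Y) : MvPolynomial Y ℤ := ∏ y ∈ N, (1 - X y)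

/-- `1 - ∏ (1 - a_y)` -/
noncomputable def ph (N : Finset Y) : MvPolynomial Y ℤ := 1 - pr N

/-- the indicator function -/
noncomputable def id1 (N : Finset Y) (y : Y) : ℕ := if y ∈ N then 1 else 0

lemma pr_eq_cp {N V : Finset Y} (h : N ⊆ V) : pr N = cp V (id1 N) := by
  have h1 : ∀ y ∈ V, ((1 - X y) ^ id1 N y : MvPolynomial Y ℤ) = if y ∈ N then (1 - X y) else 1 := by
    intro y _
    unfold id1
    split_ifs <;> simp
  rw [pr, cp, prod_congr rfl h1, prod_ite_mem, inter_eq_right.2 h]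

lemma cp_mul (V : Finset Y) (g h : Y → ℕ) : cp V g * cp V h = cp V (fun y => g y + h y) := by
  rw [cp, cp, cp, ← prod_mul_distrib]
  exact prod_congr rfl fun y _ => by rw [pow_add]

lemma cp_zero (V : Finset Y) : cp V (fun _ => 0) = 1 := by simp [cp]

lemma am_mem (g : Finset Y) : am g ∈ supported ℤ (g : Set Y) :=
  prod_mem fun y hy => X_mem_supp (mem_coe.2 hy)

lemma pr_mem (g : Finset Y) : pr g ∈ supported ℤ (g : Set Y) :=
  prod_mem fun y hy => sub_mem (one_mem _) (X_mem_supp (mem_coe.2 hy))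

lemma ph_mem (g : Finset Y) : ph g ∈ supported ℤ (g : Set Y) := sub_mem (one_mem _) (pr_mem g)

lemma cp_mem (V : Finset Y) (g : Y → ℕ) : cp V g ∈ supported ℤ (V : Set Y) :=
  prod_mem fun y hy => one_sub_X_mem y (g y) (mem_coe.2 hy)

lemma E0_mul_disj {U V : Finset Y} (h : Disjoint U V) {P Q : MvPolynomial Y ℤ}
    (hP : P ∈ supported ℤ (U : Set Y)) (hQ : Q ∈ supported ℤ (V : Set Y)) :
    E0 (P * Q) = E0 P * E0 Q := by
  rw [E0]
  exact Ev_mul 0 (by exact_mod_cast h) hP hQ

lemma E0_am (g : Finset Y) : E0 (am g) = (-1) ^ g.card := by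
  have := E0_frozen (subset_refl g) (fun _ => 0)
  rw [cp_zero, mul_one] at this
  rw [am, this]
  simp

lemma am_union {g g' : Finset Y} (h : Disjoint g g') : am (g ∪ g') = am g * am g' :=
  prod_union h

lemma E0_am_mul_zero {g g' : Finset Y} (h : ¬ Disjoint g g') (P : MvPolynomial Y ℤ) :
    E0 (am g * am g' * P) = 0 := by
  rw [Finset.not_disjoint_iff] at h
  obtain ⟨y, h1, h2⟩ := h
  have h3 : am g * am g' * P = X y ^ 2 * (am (g.erase y) * am (g'.erase y) * P) := by
    rw [am, am, am, am, ← mul_prod_erase g _ h1, ← mul_prod_erase g' _ h2]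
    ring
  rw [h3, E0_sq_mul]

lemma E0_am_am (g g' : Finset Y) : E0 (am g * am g') =
    if Disjoint g g' then (-1) ^ (g.card + g'.card) else 0 := by
  split_ifs with h
  · rw [← am_union h, E0_am, card_union_of_disjoint h]
  · have := E0_am_mul_zero h 1
    rwa [mul_one] at this

/-- frozen variables times a product over a larger set -/
lemma E0_am_cp {B V : Finset Y} (hB : B ⊆ V) (g : Y → ℕ) :
    E0 (am B * cp V g) = (-1) ^ B.card * ∏ y ∈ V \ B, (1 + (g y : ℤ)) := E0_frozen hB g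

lemma prod_id1 (V N : Finset Y) : ∏ y ∈ V, (1 + (id1 N y : ℤ)) = 2 ^ (N ∩ V).card := by
  have h1 : ∀ y ∈ V, (1 + (id1 N y : ℤ)) = if y ∈ N then 2 else 1 := by
    intro y _
    unfold id1
    split_ifs <;> norm_num
  rw [prod_congr rfl h1, prod_ite_mem, prod_const, inter_comm]

lemma E0_am_pr (B N : Finset Y) : E0 (am B * pr N) = (-1) ^ B.card * 2 ^ (N \ B).card := by
  rw [pr_eq_cp (subset_union_right (s₁ := B) (s₂ := N)), E0_am_cp subset_union_left, prod_id1]
  congr 2
  congr 1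
  ext y
  simp only [mem_inter, mem_sdiff, mem_union]
  tauto

lemma E0_pr (N : Finset Y) : E0 (pr N) = 2 ^ N.card := by
  have := E0_am_pr ∅ N
  simpa [am] using this

/-! ### one star -/

/-- `[t ∈ g] - [c ∈ g]` -/
noncomputable def dl (t c : σ → Y) (s : σ) (g : Finset Y) : ℤ :=
  (if t s ∈ g then 1 else 0) - (if c s ∈ g then 1 else 0)

lemma dl_disj {t k c : σ → Y} {s : σ} {g : Finset Y} (h : Disjoint g (VS t k c s)) :
    dl t c s g = 0 := by
  rw [Finset.disjoint_right] at h
  have h1 : t s ∉ g := h (by simp [VS])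
  have h2 : c s ∉ g := h (by simp [VS])
  rw [dl, if_neg h1, if_neg h2, sub_zero]

/-- the value of a star in operator mode with frozen variables and a product -/
noncomputable def qq (t k c : σ → Y) (s : σ) (g N : Finset Y) : ℤ :=
  (if k s ∈ g ∨ t s ∈ g then 0 else 2 ^ (N \ (g ∪ {k s, t s})).card) -
    (if k s ∈ g ∨ c s ∈ g then 0 else 2 ^ (N \ (g ∪ {k s, c s})).card)

/-- the value of a star in operator mode with frozen variables -/
noncomputable def ta (t k c : σ → Y) (s : σ) (g : Finset Y) : ℤ :=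
  if k s ∈ g then 0 else - dl t c s g

lemma ta_disj {t k c : σ → Y} {s : σ} {g : Finset Y} (h : Disjoint g (VS t k c s)) :
    ta t k c s g = 0 := by
  rw [ta, dl_disj h, neg_zero, ite_self]

lemma Dg_eq_am {t k c : Y} (h1 : k ≠ t) (h2 : k ≠ c) :
    Dg ℤ t k c = am {k, t} - am {k, c} := by
  rw [Dg, am, am, prod_pair h1, prod_pair h2]
  ring

lemma disj_pair {a b : Y} {g : Finset Y} : Disjoint ({a, b} : Finset Y) g ↔ ¬ (a ∈ g ∨ b ∈ g) := by
  rw [disjoint_insert_left, disjoint_singleton_left]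
  tauto

lemma E0_am_am_pr {a b : Y} (hab : a ≠ b) (g N : Finset Y) :
    E0 (am {a, b} * am g * pr N) = (-1) ^ g.card *
      (if a ∈ g ∨ b ∈ g then 0 else 2 ^ (N \ (g ∪ {a, b})).card) := by
  split_ifs with h
  · rw [mul_zero]
    exact E0_am_mul_zero (fun h' => disj_pair.1 h' h) _
  · have h1 := disj_pair.2 h
    rw [← am_union h1, E0_am_pr, card_union_of_disjoint h1, card_pair hab, union_comm]
    ring

section

variable {St : Finset σ} {t k c : σ → Y}

lemma E0_Dg_am_pr (hS : Stars St t k c) {s : σ} (hs : s ∈ St) (g N : Finset Y) :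
    E0 (Dg ℤ (t s) (k s) (c s) * (am g * pr N)) = (-1) ^ g.card * qq t k c s g N := by
  have h1 := (hS.tk s hs).symm
  have h2 := hS.kc s hs
  have e : Dg ℤ (t s) (k s) (c s) * (am g * pr N) =
      am {k s, t s} * am g * pr N - am {k s, c s} * am g * pr N := by
    rw [Dg_eq_am h1 h2]
    ring
  rw [e, map_sub, E0_am_am_pr h1, E0_am_am_pr h2, qq]
  ring

lemma qq_empty_right (s : σ) (g : Finset Y) : qq t k c s g ∅ = ta t k c s g := by
  unfold qq ta dl
  by_cases h1 : k s ∈ g <;> by_cases h2 : t s ∈ g <;> by_cases h3 : c s ∈ g <;> simp [h1, h2, h3]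

lemma E0_Dg_am (hS : Stars St t k c) {s : σ} (hs : s ∈ St) (g : Finset Y) :
    E0 (Dg ℤ (t s) (k s) (c s) * am g) = (-1) ^ g.card * ta t k c s g := by
  have := E0_Dg_am_pr hS hs g ∅
  rwa [pr, prod_empty, mul_one, qq_empty_right] at this

lemma E0_Dg_ph_am (hS : Stars St t k c) {s : σ} (hs : s ∈ St) (g N : Finset Y) :
    E0 (Dg ℤ (t s) (k s) (c s) * (ph N * am g)) =
      (-1) ^ g.card * (ta t k c s g - qq t k c s g N) := by
  have e : Dg ℤ (t s) (k s) (c s) * (ph N * am g) =
      Dg ℤ (t s) (k s) (c s) * am g - Dg ℤ (t s) (k s) (c s) * (am g * pr N) := by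
    rw [ph]
    ring
  rw [e, map_sub, E0_Dg_am hS hs, E0_Dg_am_pr hS hs]
  ring

/-- `2 ^ (number of vertices outside the star)` -/
noncomputable def oms (t k c : σ → Y) (s : σ) (N : Finset Y) : ℤ := 2 ^ (N \ VS t k c s).card

lemma qq_empty_left (hS : Stars St t k c) {s : σ} (hs : s ∈ St) (N : Finset Y) :
    qq t k c s ∅ N = - (dl t c s N * oms t k c s N) := by
  have h1 := (hS.tk s hs).symm
  have h2 := hS.kc s hs
  have h3 := hS.tc s hs
  have e1 : N \ (∅ ∪ {k s, t s}) = (N \ VS t k c s) ∪ (N ∩ {c s}) := by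
    ext y
    simp only [VS, mem_sdiff, mem_union, mem_insert, mem_singleton, mem_inter, notMem_empty,
      false_or, not_or]
    constructor
    · rintro ⟨g1, g2, g3⟩
      by_cases g4 : y = c s
      · exact Or.inr ⟨g1, g4⟩
      · exact Or.inl ⟨g1, g3, g2, g4⟩
    · rintro (⟨g1, g2, g3, g4⟩ | ⟨g1, g2⟩)
      · exact ⟨g1, g3, g2⟩
      · exact ⟨g1, by rw [g2]; exact h2.symm, by rw [g2]; exact h3.symm⟩
  have e2 : N \ (∅ ∪ {k s, c s}) = (N \ VS t k c s) ∪ (N ∩ {t s}) := by
    ext y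
    simp only [VS, mem_sdiff, mem_union, mem_insert, mem_singleton, mem_inter, notMem_empty,
      false_or, not_or]
    constructor
    · rintro ⟨g1, g2, g3⟩
      by_cases g4 : y = t s
      · exact Or.inr ⟨g1, g4⟩
      · exact Or.inl ⟨g1, g4, g2, g3⟩
    · rintro (⟨g1, g2, g3, g4⟩ | ⟨g1, g2⟩)
      · exact ⟨g1, g3, g4⟩
      · exact ⟨g1, by rw [g2]; exact h1.symm, by rw [g2]; exact h3⟩
  have d1 : Disjoint (N \ VS t k c s) (N ∩ {c s}) := by
    rw [Finset.disjoint_left]
    intro y g1 g2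
    rw [mem_inter, mem_singleton] at g2
    rw [mem_sdiff, g2.2] at g1
    exact g1.2 (by simp [VS])
  have d2 : Disjoint (N \ VS t k c s) (N ∩ {t s}) := by
    rw [Finset.disjoint_left]
    intro y g1 g2
    rw [mem_inter, mem_singleton] at g2
    rw [mem_sdiff, g2.2] at g1
    exact g1.2 (by simp [VS])
  rw [qq, if_neg (by simp), if_neg (by simp), e1, e2, card_union_of_disjoint d1,
    card_union_of_disjoint d2, pow_add, pow_add, oms, dl]
  by_cases g1 : t s ∈ N <;> by_cases g2 : c s ∈ N <;> simp [g1, g2] <;> ring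

lemma E0_Dg_ph (hS : Stars St t k c) {s : σ} (hs : s ∈ St) (N : Finset Y) :
    E0 (Dg ℤ (t s) (k s) (c s) * ph N) = dl t c s N * oms t k c s N := by
  have := E0_Dg_ph_am hS hs ∅ N
  rw [am, prod_empty, mul_one, qq_empty_left hS hs] at this
  rw [this, ta]
  simp [dl]

end

end Pool.Gauss.TL
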