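import Pool.Agent.Work.MP_065141_co.K.StarDef

/-!
# Disjoint stars: values with two stars in operator mode and values of the frames
-/

set_option autoImplicit false
set_option linter.unusedSectionVars false
open scoped Classical
open Finset MvPolynomial

namespace Pool.Gauss.TL

variable {Y ι σ κ : Type}

section

variable {St : Finset σ} {t k c : σ → Y}

lemma VS_sub_t (s : σ) : t s ∈ VS t k c s := by simp [VS]
lemma VS_sub_k (s : σ) : k s ∈ VS t k c s := by simp [VS]
lemma VS_sub_c (s : σ) : c s ∈ VS t k c s := by simp [VS]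

lemma Dg_memVS (s : σ) : Dg ℤ (t s) (k s) (c s) ∈ supported ℤ (VS t k c s : Set Y) :=
  Dg_mem ℤ (mem_coe.2 (VS_sub_t s)) (mem_coe.2 (VS_sub_k s)) (mem_coe.2 (VS_sub_c s))

lemma cp_split (V U : Finset Y) (h : U ⊆ V) (g : Y → ℕ) : cp V g = cp U g * cp (V \ U) g := by
  rw [cp, cp, cp, mul_comm, prod_sdiff h]

lemma am_split (g U : Finset Y) : am g = am (g ∩ U) * am (g \ U) := by
  have h : g = (g ∩ U) ∪ (g \ U) := by
    ext y
    simp only [mem_union, mem_inter, mem_sdiff]
    tauto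
  conv_lhs => rw [h]
  apply am_union
  rw [Finset.disjoint_left]
  intro y h1 h2
  exact (mem_sdiff.1 h2).2 (mem_inter.1 h1).2

lemma card_split (g U : Finset Y) : g.card = (g ∩ U).card + (g \ U).card := by
  have := card_inter_add_card_sdiff g U
  omega

/-- one star and a product -/
lemma E0_Dg_cp (hS : Stars St t k c) {s : σ} (hs : s ∈ St) {V : Finset Y}
    (hV : VS t k c s ⊆ V) (g : Y → ℕ) :
    E0 (Dg ℤ (t s) (k s) (c s) * cp V g) =
      ((g (c s) : ℤ) - g (t s)) * ∏ y ∈ V \ VS t k c s, (1 + (g y : ℤ)) := by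
  have h1 := (hS.tk s hs).symm
  have h2 := hS.kc s hs
  have h3 := hS.tc s hs
  have ht := hV (VS_sub_t (t := t) (k := k) (c := c) s)
  have hk := hV (VS_sub_k (t := t) (k := k) (c := c) s)
  have hc := hV (VS_sub_c (t := t) (k := k) (c := c) s)
  have s1 : ({k s, t s} : Finset Y) ⊆ V := by
    intro y hy
    rw [mem_insert, mem_singleton] at hy
    rcases hy with rfl | rfl <;> assumption
  have s2 : ({k s, c s} : Finset Y) ⊆ V := by
    intro y hy
    rw [mem_insert, mem_singleton] at hy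
    rcases hy with rfl | rfl <;> assumption
  have e1 : V \ {k s, t s} = insert (c s) (V \ VS t k c s) := by
    ext y
    simp only [VS, mem_sdiff, mem_insert, mem_singleton, not_or]
    constructor
    · rintro ⟨g1, g2, g3⟩
      by_cases g4 : y = c s
      · exact Or.inl g4
      · exact Or.inr ⟨g1, g3, g2, g4⟩
    · rintro (rfl | ⟨g1, g2, g3, g4⟩)
      · exact ⟨hc, h2.symm, h3.symm⟩
      · exact ⟨g1, g3, g2⟩
  have e2 : V \ {k s, c s} = insert (t s) (V \ VS t k c s) := by
    ext y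
    simp only [VS, mem_sdiff, mem_insert, mem_singleton, not_or]
    constructor
    · rintro ⟨g1, g2, g3⟩
      by_cases g4 : y = t s
      · exact Or.inl g4
      · exact Or.inr ⟨g1, g4, g2, g3⟩
    · rintro (rfl | ⟨g1, g2, g3, g4⟩)
      · exact ⟨ht, h1.symm, h3⟩
      · exact ⟨g1, g3, g4⟩
  rw [Dg_eq_am h1 h2, sub_mul, map_sub, am, am]
  rw [E0_frozen s1, E0_frozen s2, e1, e2, prod_insert (fun h => (mem_sdiff.1 h).2 (VS_sub_c s)),
    prod_insert (fun h => (mem_sdiff.1 h).2 (VS_sub_t s)), card_pair h1, card_pair h2]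
  ring

/-- two stars and a product -/
lemma E0_Dg2_cp (hS : Stars St t k c) {s s' : σ} (hs : s ∈ St) (hs' : s' ∈ St) (hne : s ≠ s')
    {V : Finset Y} (hV : VS t k c s ⊆ V) (hV' : VS t k c s' ⊆ V) (g : Y → ℕ) :
    E0 (Dg ℤ (t s) (k s) (c s) * Dg ℤ (t s') (k s') (c s') * cp V g) =
      ((g (c s) : ℤ) - g (t s)) * ((g (c s') : ℤ) - g (t s')) *
        ∏ y ∈ V \ (VS t k c s ∪ VS t k c s'), (1 + (g y : ℤ)) := by
  have hd := hS.disj hs hs' hne
  have e : Dg ℤ (t s) (k s) (c s) * Dg ℤ (t s') (k s') (c s') * cp V g =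
      (Dg ℤ (t s) (k s) (c s) * cp (VS t k c s) g) *
        (Dg ℤ (t s') (k s') (c s') * cp (V \ VS t k c s) g) := by
    rw [cp_split V _ hV]
    ring
  have hsub : VS t k c s' ⊆ V \ VS t k c s := by
    intro y hy
    rw [mem_sdiff]
    exact ⟨hV' hy, fun h => (Finset.disjoint_left.1 hd h) hy⟩
  rw [e, E0_mul_disj (U := VS t k c s) (V := V \ VS t k c s) disjoint_sdiff
    (mul_mem (Dg_memVS s) (cp_mem _ _))
    (mul_mem (supported_mono (by exact_mod_cast hsub) (Dg_memVS s')) (cp_mem _ _)),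
    E0_Dg_cp hS hs (subset_refl _), E0_Dg_cp hS hs' hsub, Finset.sdiff_self, prod_empty,
    sdiff_sdiff_left, Finset.sup_eq_union]
  ring

lemma id1_sub (N : Finset Y) (s : σ) :
    ((id1 N (c s) : ℤ) - id1 N (t s)) = - dl t c s N := by
  unfold id1 dl
  split_ifs <;> norm_num

/-- two stars and `pr` -/
lemma E0_Dg2_pr (hS : Stars St t k c) {s s' : σ} (hs : s ∈ St) (hs' : s' ∈ St) (hne : s ≠ s')
    (N : Finset Y) :
    E0 (Dg ℤ (t s) (k s) (c s) * Dg ℤ (t s') (k s') (c s') * pr N) =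
      dl t c s N * dl t c s' N * 2 ^ (N \ (VS t k c s ∪ VS t k c s')).card := by
  rw [pr_eq_cp (V := (VS t k c s ∪ VS t k c s') ∪ N) subset_union_right,
    E0_Dg2_cp hS hs hs' hne (subset_union_left.trans subset_union_left)
      (subset_union_right.trans subset_union_left), id1_sub, id1_sub, prod_id1]
  have e : N ∩ (((VS t k c s ∪ VS t k c s') ∪ N) \ (VS t k c s ∪ VS t k c s')) =
      N \ (VS t k c s ∪ VS t k c s') := by
    ext y
    simp only [mem_inter, mem_sdiff, mem_union]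
    tauto
  rw [e]
  ring

lemma mem_of_dl {s : σ} {N : Finset Y} (h : dl t c s N ≠ 0) : t s ∈ N ∨ c s ∈ N := by
  by_contra hc
  push Not at hc
  exact h (by rw [dl, if_neg hc.1, if_neg hc.2, sub_zero])

/-- an item with at most two vertices which touches two stars has no other vertex -/
lemma sub_of_dl (hS : Stars St t k c) {s s' : σ} (hs : s ∈ St) (hs' : s' ∈ St) (hne : s ≠ s')
    {N : Finset Y} (hN : N.card ≤ 2) (h : dl t c s N ≠ 0) (h' : dl t c s' N ≠ 0) :
    N ⊆ VS t k c s ∪ VS t k c s' ∧ ∃ y ∈ ({t s, c s} : Finset Y), ∃ y' ∈ ({t s', c s'} : Finset Y),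
      y ≠ y' ∧ N = {y, y'} := by
  have hd := hS.disj hs hs' hne
  obtain ⟨y, hy, hyN⟩ : ∃ y ∈ ({t s, c s} : Finset Y), y ∈ N := by
    rcases mem_of_dl h with h1 | h1
    · exact ⟨_, by simp, h1⟩
    · exact ⟨_, by simp, h1⟩
  obtain ⟨y', hy', hyN'⟩ : ∃ y ∈ ({t s', c s'} : Finset Y), y ∈ N := by
    rcases mem_of_dl h' with h1 | h1
    · exact ⟨_, by simp, h1⟩
    · exact ⟨_, by simp, h1⟩
  have g1 : y ∈ VS t k c s := by
    rw [mem_insert, mem_singleton] at hy
    rcases hy with rfl | rfl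
    · exact VS_sub_t s
    · exact VS_sub_c s
  have g2 : y' ∈ VS t k c s' := by
    rw [mem_insert, mem_singleton] at hy'
    rcases hy' with rfl | rfl
    · exact VS_sub_t s'
    · exact VS_sub_c s'
  have hne' : y ≠ y' := fun e => (Finset.disjoint_left.1 hd g1) (e ▸ g2)
  have e : N = {y, y'} := by
    symm
    apply Finset.eq_of_subset_of_card_le
    · intro z hz
      rw [mem_insert, mem_singleton] at hz
      rcases hz with rfl | rfl <;> assumption
    · rw [card_pair hne']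
      exact hN
  refine ⟨?_, y, hy, y', hy', hne', e⟩
  rw [e]
  intro z hz
  rw [mem_insert, mem_singleton] at hz
  rw [mem_union]
  rcases hz with rfl | rfl
  · exact Or.inl g1
  · exact Or.inr g2

lemma dl2_pow (hS : Stars St t k c) {s s' : σ} (hs : s ∈ St) (hs' : s' ∈ St) (hne : s ≠ s')
    {N : Finset Y} (hN : N.card ≤ 2) :
    dl t c s N * dl t c s' N * 2 ^ (N \ (VS t k c s ∪ VS t k c s')).card =
      dl t c s N * dl t c s' N := by
  by_cases h : dl t c s N = 0
  · rw [h]; ring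
  by_cases h' : dl t c s' N = 0
  · rw [h']; ring
  rw [sdiff_eq_empty_iff_subset.2 (sub_of_dl hS hs hs' hne hN h h').1]
  simp

lemma E0_Dg2_one (hS : Stars St t k c) {s s' : σ} (hs : s ∈ St) (hs' : s' ∈ St) (hne : s ≠ s') :
    E0 (Dg ℤ (t s) (k s) (c s) * Dg ℤ (t s') (k s') (c s')) = 0 := by
  have := E0_Dg2_pr hS hs hs' hne ∅
  rw [pr, prod_empty, mul_one] at this
  rw [this]
  simp [dl]

/-- two stars and `ph` -/
lemma E0_Dg2_ph (hS : Stars St t k c) {s s' : σ} (hs : s ∈ St) (hs' : s' ∈ St) (hne : s ≠ s')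
    {N : Finset Y} (hN : N.card ≤ 2) :
    E0 (Dg ℤ (t s) (k s) (c s) * Dg ℤ (t s') (k s') (c s') * ph N) =
      - (dl t c s N * dl t c s' N) := by
  rw [ph, mul_sub, mul_one, map_sub, E0_Dg2_one hS hs hs' hne, E0_Dg2_pr hS hs hs' hne,
    dl2_pow hS hs hs' hne hN, zero_sub]

/-- the number of two items with two stars in operator mode -/
noncomputable def eps2 (t k c : σ → Y) (s s' : σ) (N N' : Finset Y) : ℤ :=
  ∏ y ∈ (N ∪ N') \ (VS t k c s ∪ VS t k c s'), (1 + ((id1 N y : ℤ) + id1 N' y))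

lemma E0_Dg2_pr2 (hS : Stars St t k c) {s s' : σ} (hs : s ∈ St) (hs' : s' ∈ St) (hne : s ≠ s')
    (N N' : Finset Y) :
    E0 (Dg ℤ (t s) (k s) (c s) * Dg ℤ (t s') (k s') (c s') * (pr N * pr N')) =
      (dl t c s N + dl t c s N') * (dl t c s' N + dl t c s' N') * eps2 t k c s s' N N' := by
  set V := (VS t k c s ∪ VS t k c s') ∪ (N ∪ N') with hVdef
  rw [pr_eq_cp (V := V) (subset_union_left.trans subset_union_right),
    pr_eq_cp (V := V) (N := N') (subset_union_right.trans subset_union_right), cp_mul,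
    E0_Dg2_cp hS hs hs' hne (subset_union_left.trans subset_union_left)
      (subset_union_right.trans subset_union_left)]
  have e1 : ∀ s : σ, (((id1 N (c s) + id1 N' (c s) : ℕ) : ℤ) - ((id1 N (t s) + id1 N' (t s) : ℕ) : ℤ)) =
      - (dl t c s N + dl t c s N') := by
    intro s
    have := id1_sub (t := t) (c := c) N s
    have := id1_sub (t := t) (c := c) N' s
    push_cast
    linarith
  rw [e1, e1]
  have e2 : V \ (VS t k c s ∪ VS t k c s') = (N ∪ N') \ (VS t k c s ∪ VS t k c s') := by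
    rw [hVdef]
    ext y
    simp only [mem_sdiff, mem_union]
    tauto
  rw [e2, eps2]
  push_cast
  ring

/-- two stars and two items -/
lemma E0_Dg2_ph2 (hS : Stars St t k c) {s s' : σ} (hs : s ∈ St) (hs' : s' ∈ St) (hne : s ≠ s')
    {N N' : Finset Y} (hN : N.card ≤ 2) (hN' : N'.card ≤ 2) :
    E0 (Dg ℤ (t s) (k s) (c s) * Dg ℤ (t s') (k s') (c s') * (ph N * ph N')) =
      (dl t c s N + dl t c s N') * (dl t c s' N + dl t c s' N') * eps2 t k c s s' N N' -
      dl t c s N * dl t c s' N - dl t c s N' * dl t c s' N' := by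
  have e : Dg ℤ (t s) (k s) (c s) * Dg ℤ (t s') (k s') (c s') * (ph N * ph N') =
      Dg ℤ (t s) (k s) (c s) * Dg ℤ (t s') (k s') (c s') * ph N' -
      Dg ℤ (t s) (k s) (c s) * Dg ℤ (t s') (k s') (c s') * pr N +
      Dg ℤ (t s) (k s) (c s) * Dg ℤ (t s') (k s') (c s') * (pr N * pr N') := by
    rw [ph, ph]
    ring
  rw [e, map_add, map_sub, E0_Dg2_ph hS hs hs' hne hN', E0_Dg2_pr hS hs hs' hne,
    dl2_pow hS hs hs' hne hN, E0_Dg2_pr2 hS hs hs' hne]
  ring

lemma dl_inter (s : σ) (g : Finset Y) : dl t c s (g ∩ VS t k c s) = dl t c s g := by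
  unfold dl
  have h1 : t s ∈ g ∩ VS t k c s ↔ t s ∈ g := by simp [VS]
  have h2 : c s ∈ g ∩ VS t k c s ↔ c s ∈ g := by simp [VS]
  simp only [h1, h2]

lemma ta_inter (s : σ) (g : Finset Y) : ta t k c s (g ∩ VS t k c s) = ta t k c s g := by
  unfold ta
  rw [dl_inter]
  have h1 : k s ∈ g ∩ VS t k c s ↔ k s ∈ g := by simp [VS]
  simp only [h1]

lemma ta_sdiff (hS : Stars St t k c) {s s' : σ} (hs : s ∈ St) (hs' : s' ∈ St) (hne : s ≠ s')
    (g : Finset Y) : ta t k c s' (g \ VS t k c s) = ta t k c s' g := by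
  have hd := hS.disj hs hs' hne
  have e : ∀ y ∈ VS t k c s', (y ∈ g \ VS t k c s ↔ y ∈ g) := by
    intro y hy
    rw [mem_sdiff]
    exact ⟨fun h => h.1, fun h => ⟨h, fun h' => (Finset.disjoint_left.1 hd h') hy⟩⟩
  unfold ta dl
  simp only [e _ (VS_sub_t s'), e _ (VS_sub_k s'), e _ (VS_sub_c s')]

/-- two stars and frozen variables -/
lemma E0_Dg2_am (hS : Stars St t k c) {s s' : σ} (hs : s ∈ St) (hs' : s' ∈ St) (hne : s ≠ s')
    (g : Finset Y) :
    E0 (Dg ℤ (t s) (k s) (c s) * Dg ℤ (t s') (k s') (c s') * am g) =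
      (-1) ^ g.card * (ta t k c s g * ta t k c s' g) := by
  have hd := hS.disj hs hs' hne
  have e : Dg ℤ (t s) (k s) (c s) * Dg ℤ (t s') (k s') (c s') * am g =
      (Dg ℤ (t s) (k s) (c s) * am (g ∩ VS t k c s)) *
        (Dg ℤ (t s') (k s') (c s') * am (g \ VS t k c s)) := by
    rw [am_split g (VS t k c s)]
    ring
  have hd2 : Disjoint (VS t k c s) (VS t k c s' ∪ g \ VS t k c s) :=
    disjoint_union_right.2 ⟨hd, disjoint_sdiff⟩
  rw [e, E0_mul_disj hd2
    (mul_mem (Dg_memVS s) (supported_mono (by exact_mod_cast inter_subset_right) (am_mem _)))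
    (mul_mem (supported_mono (by exact_mod_cast subset_union_left) (Dg_memVS s'))
      (supported_mono (by exact_mod_cast subset_union_right) (am_mem _))),
    E0_Dg_am hS hs, E0_Dg_am hS hs', ta_inter, ta_sdiff hS hs hs' hne, card_split g (VS t k c s),
    pow_add]
  ring

/-- for at most two vertices -/
lemma ta_ta (hS : Stars St t k c) {s s' : σ} (hs : s ∈ St) (hs' : s' ∈ St) (hne : s ≠ s')
    {g : Finset Y} (hg : g.card ≤ 2) :
    (-1) ^ g.card * (ta t k c s g * ta t k c s' g) = dl t c s g * dl t c s' g := by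
  by_cases h : dl t c s g = 0
  · rw [ta, h]
    simp
  by_cases h' : dl t c s' g = 0
  · rw [ta, ta, h']
    simp
  obtain ⟨-, y, hy, y', hy', hyy, e⟩ := sub_of_dl hS hs hs' hne hg h h'
  have hd := hS.disj hs hs' hne
  have n1 : k s ∉ g := by
    rw [e, mem_insert, mem_singleton]
    rintro (h1 | h1)
    · rw [← h1, mem_insert, mem_singleton] at hy
      rcases hy with h2 | h2
      · exact hS.tk s hs h2.symm
      · exact hS.kc s hs h2
    · have : y' ∈ VS t k c s' := by
        rw [mem_insert, mem_singleton] at hy'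
        rcases hy' with rfl | rfl
        · exact VS_sub_t s'
        · exact VS_sub_c s'
      exact (Finset.disjoint_left.1 hd (VS_sub_k s)) (h1 ▸ this)
  have n2 : k s' ∉ g := by
    rw [e, mem_insert, mem_singleton]
    rintro (h1 | h1)
    · have : y ∈ VS t k c s := by
        rw [mem_insert, mem_singleton] at hy
        rcases hy with rfl | rfl
        · exact VS_sub_t s
        · exact VS_sub_c s
      exact (Finset.disjoint_left.1 hd (h1 ▸ this : k s' ∈ VS t k c s)) (VS_sub_k s')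
    · rw [← h1, mem_insert, mem_singleton] at hy'
      rcases hy' with h2 | h2
      · exact hS.tk s' hs' h2.symm
      · exact hS.kc s' hs' h2
  rw [ta, ta, if_neg n1, if_neg n2, e, card_pair hyy]
  ring

lemma E0_Dg2_am' (hS : Stars St t k c) {s s' : σ} (hs : s ∈ St) (hs' : s' ∈ St) (hne : s ≠ s')
    {g : Finset Y} (hg : g.card ≤ 2) :
    E0 (Dg ℤ (t s) (k s) (c s) * Dg ℤ (t s') (k s') (c s') * am g) =
      dl t c s g * dl t c s' g := by
  rw [E0_Dg2_am hS hs hs' hne, ta_ta hS hs hs' hne hg]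

/-! ### the first coefficient in `w` -/

lemma Ev_Dg_X {A : Type} [CommRing A] (w : A) (hS : Stars St t k c) {s : σ} (hs : s ∈ St) {y : Y}
    (hy : y ∈ VS t k c s) :
    Ev w (Dg A (t s) (k s) (c s) * X y) = (dl t c s {y} : A) * (w - 1) ^ 2 := by
  have h1 := (hS.tk s hs).symm
  have h2 := hS.kc s hs
  have h3 := hS.tc s hs
  have hX : ∀ y : Y, (X y : MvPolynomial Y A) = monomial (Finsupp.single y 1) 1 := fun _ => rfl
  have hsq : ∀ y z : Y, y ≠ z → Ev w (X y ^ 2 * X z : MvPolynomial Y A) =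
      w * (w - 1) * (w - 1) := by
    intro y z hyz
    rw [Ev_mul w (s := {y}) (t := {z}) (by rwa [Set.disjoint_singleton])
      (pow_mem (X_mem_supp (Set.mem_singleton y)) _) (X_mem_supp (Set.mem_singleton z)), Ev_X,
      X_pow_eq_monomial, Ev_monomial, evm, Finsupp.prod, Finsupp.support_single _ (by norm_num),
      prod_singleton, Finsupp.single_eq_same]
    ring
  have hthree : Ev w (X (k s) * X (t s) * X (c s) : MvPolynomial Y A) = (w - 1) ^ 3 := by
    rw [Ev_mul w (s := {k s, t s}) (t := {c s}) ?_ (mul_mem (X_mem_supp (by simp))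
      (X_mem_supp (by simp))) (X_mem_supp (Set.mem_singleton _)),
      Ev_mul w (s := {k s}) (t := {t s}) (by rwa [Set.disjoint_singleton])
      (X_mem_supp (Set.mem_singleton _)) (X_mem_supp (Set.mem_singleton _)), Ev_X, Ev_X, Ev_X]
    · ring
    · rw [Set.disjoint_singleton_right]
      rintro (h | h)
      · exact h2 h.symm
      · exact h3 h.symm
  rw [VS, mem_insert, mem_insert, mem_singleton] at hy
  rcases hy with rfl | rfl | rfl
  · have e : Dg A (t s) (k s) (c s) * X (t s) = X (t s) ^ 2 * X (k s) - X (k s) * X (t s) * X (c s) := by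
      rw [Dg]; ring
    rw [e, map_sub, hsq _ _ h1.symm, hthree, dl]
    simp only [mem_singleton, if_true, h3.symm, if_false]
    push_cast
    ring
  · have e : Dg A (t s) (k s) (c s) * X (k s) = X (k s) ^ 2 * X (t s) - X (k s) ^ 2 * X (c s) := by
      rw [Dg]; ring
    rw [e, map_sub, hsq _ _ h1, hsq _ _ h2, dl]
    simp only [mem_singleton, h1.symm, h2.symm, if_false]
    push_cast
    ring
  · have e : Dg A (t s) (k s) (c s) * X (c s) = X (k s) * X (t s) * X (c s) - X (c s) ^ 2 * X (k s) := by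
      rw [Dg]; ring
    rw [e, map_sub, hsq _ _ h2.symm, hthree, dl]
    simp only [mem_singleton, if_true, h3, if_false]
    push_cast
    ring

lemma mem_VS_of_tc {s : σ} {y : Y} (hy : y ∈ ({t s, c s} : Finset Y)) : y ∈ VS t k c s := by
  rw [mem_insert, mem_singleton] at hy
  rcases hy with rfl | rfl
  · exact VS_sub_t s
  · exact VS_sub_c s

lemma dl_pair (hS : Stars St t k c) {s s' : σ} (hs : s ∈ St) (hs' : s' ∈ St) (hne : s ≠ s')
    {y y' : Y} (hy : y ∈ VS t k c s) (hy' : y' ∈ VS t k c s') :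
    dl t c s {y, y'} = dl t c s {y} := by
  have hd := hS.disj hs hs' hne
  have e : ({y, y'} : Finset Y) ∩ VS t k c s = {y} := by
    ext z
    simp only [mem_inter, mem_insert, mem_singleton]
    constructor
    · rintro ⟨rfl | rfl, h2⟩
      · rfl
      · exact absurd hy' (Finset.disjoint_left.1 hd h2)
    · rintro rfl
      exact ⟨Or.inl rfl, hy⟩
  rw [← dl_inter (k := k), e]

/-- two stars and frozen variables, coefficient of `w` -/
lemma E1_Dg2_am (hS : Stars St t k c) {s s' : σ} (hs : s ∈ St) (hs' : s' ∈ St) (hne : s ≠ s')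
    {g : Finset Y} (hg : g.card ≤ 2) :
    E1 (Dg ℤ (t s) (k s) (c s) * Dg ℤ (t s') (k s') (c s') * am g) =
      - 4 * (dl t c s g * dl t c s' g) := by
  have hd := hS.disj hs hs' hne
  have hDT : Dg ℤ (t s) (k s) (c s) * Dg ℤ (t s') (k s') (c s') = DT ℤ {s, s'} t k c := by
    rw [DT, prod_pair hne]
  have hT : ({s, s'} : Finset σ) ⊆ St := by
    intro z hz
    rw [mem_insert, mem_singleton] at hz
    rcases hz with rfl | rfl <;> assumption
  by_cases h : Disjoint g (VS t k c s)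
  · rw [hDT, ← Ec_one, Ec_DT_disj hS hT (mem_insert_self s {s'}) h (am_mem g), dl_disj h]
    ring
  by_cases h' : Disjoint g (VS t k c s')
  · rw [hDT, ← Ec_one, Ec_DT_disj hS hT (by simp : s' ∈ ({s, s'} : Finset σ)) h' (am_mem g),
      dl_disj h']
    ring
  rw [Finset.not_disjoint_iff] at h h'
  obtain ⟨y, hyg, hy⟩ := h
  obtain ⟨y', hyg', hy'⟩ := h'
  have hne' : y ≠ y' := fun e => (Finset.disjoint_left.1 hd hy) (e ▸ hy')
  have e : g = {y, y'} := by
    symm
    apply Finset.eq_of_subset_of_card_le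
    · intro z hz
      rw [mem_insert, mem_singleton] at hz
      rcases hz with rfl | rfl <;> assumption
    · rw [card_pair hne']
      exact hg
  have hcomm : ({y, y'} : Finset Y) = {y', y} := pair_comm y y'
  rw [e, dl_pair hS hs hs' hne hy hy', hcomm, dl_pair hS hs' hs hne.symm hy' hy, ← hcomm, E1, am,
    prod_pair hne']
  have e2 : up0 (Dg ℤ (t s) (k s) (c s) * Dg ℤ (t s') (k s') (c s') * (X y * X y')) =
      (Dg (PowerSeries ℤ) (t s) (k s) (c s) * X y) *
        (Dg (PowerSeries ℤ) (t s') (k s') (c s') * X y') := by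
    rw [map_mul, map_mul, map_mul, up0_Dg, up0_Dg]
    have hX : ∀ y : Y, up0 (X y : MvPolynomial Y ℤ) = X y := fun y => by rw [up0, map_X]
    rw [hX, hX]
    ring
  rw [e2, Ev_mul (PowerSeries.X : PowerSeries ℤ) (s := (VS t k c s : Set Y))
    (t := (VS t k c s' : Set Y)) (by exact_mod_cast hd)
    (mul_mem (Dg_mem _ (mem_coe.2 (VS_sub_t s)) (mem_coe.2 (VS_sub_k s)) (mem_coe.2 (VS_sub_c s)))
      (X_mem_supp (mem_coe.2 hy)))
    (mul_mem (Dg_mem _ (mem_coe.2 (VS_sub_t s')) (mem_coe.2 (VS_sub_k s'))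
      (mem_coe.2 (VS_sub_c s'))) (X_mem_supp (mem_coe.2 hy'))),
    Ev_Dg_X _ hS hs hy, Ev_Dg_X _ hS hs' hy']
  have e3 : ((dl t c s {y} : ℤ) : PowerSeries ℤ) * (PowerSeries.X - 1) ^ 2 *
      (((dl t c s' {y'} : ℤ) : PowerSeries ℤ) * (PowerSeries.X - 1) ^ 2) =
      (dl t c s {y} * dl t c s' {y'}) • (1 - 4 * PowerSeries.X + PowerSeries.X ^ 2 *
        (6 - 4 * PowerSeries.X + PowerSeries.X ^ 2)) := by
    rw [zsmul_eq_mul]
    push_cast
    ring
  have e4 : PowerSeries.coeff 1 (4 * PowerSeries.X : PowerSeries ℤ) = 4 := by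
    have : (4 * PowerSeries.X : PowerSeries ℤ) = PowerSeries.C (4 : ℤ) * PowerSeries.X := by
      rw [map_ofNat]
    rw [this, PowerSeries.coeff_C_mul, PowerSeries.coeff_one_X, mul_one]
  rw [e3, map_zsmul, map_add, map_sub, PowerSeries.coeff_X_pow_mul', if_neg (by norm_num), e4,
    PowerSeries.coeff_one]
  norm_num
  ring

end

end Pool.Gauss.TL
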