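import Pool.Agent.Work.MP_065141_co.K.ThreeLev4

/-!
# Disjoint stars: values of the frames and of one star with items of the other stars
-/

set_option autoImplicit false
set_option linter.unusedSectionVars false
open scoped Classical
open Finset MvPolynomial

namespace Pool.Gauss.TL

variable {Y ι σ κ : Type}

/-! ### frames without stars -/

lemma am_singleton (y : Y) : am {y} = (X y : MvPolynomial Y ℤ) := prod_singleton _ _

lemma am_pair {y z : Y} (h : y ≠ z) : am {y, z} = (X y * X z : MvPolynomial Y ℤ) := prod_pair h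

/-- value of `a_k (1 - a_c)` with frozen variables -/
lemma E0_fr_am {k c : Y} (h : k ≠ c) (g : Finset Y) :
    E0 (X k * (1 - X c) * am g) =
      if k ∈ g then 0 else - ((-1) ^ g.card * (2 - if c ∈ g then 1 else 0)) := by
  have e : X k * (1 - X c) * am g = am {k} * am g - am {k, c} * am g := by
    rw [am_pair h, am_singleton]
    ring
  rw [e, map_sub, E0_am_am, E0_am_am, card_singleton, card_pair h]
  simp only [disj_pair, disjoint_singleton_left]
  by_cases h1 : k ∈ g
  · simp [h1]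
  by_cases h2 : c ∈ g
  · simp only [h1, h2, not_false_eq_true, if_true, if_false, or_true, not_true_eq_false]
    rw [pow_add]
    ring
  · simp only [h1, h2, not_false_eq_true, if_true, if_false, or_false]
    rw [pow_add, pow_add]
    ring

lemma E0_am_singleton (y : Y) (g : Finset Y) :
    E0 (X y * am g) = if y ∈ g then 0 else - (-1) ^ g.card := by
  have e : X y * am g = am {y} * am g := by rw [am_singleton]
  rw [e, E0_am_am, card_singleton]
  simp only [disjoint_singleton_left]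
  by_cases h1 : y ∈ g
  · simp [h1]
  · simp only [h1, not_false_eq_true, if_true, if_false]
    rw [pow_add]
    ring

namespace SDat

variable {D : SDat Y ι σ} {L : Finset Y}

lemma frU_t (s : σ) : D.frU s (D.t s) = X (D.k s) * (1 - X (D.c s)) := by
  rw [frU, if_pos rfl]

lemma frU_c (h : D.Ok L) {s : σ} (hs : s ∈ D.St) :
    D.frU s (D.c s) = X (D.k s) * (X (D.t s) - 1) := by
  rw [frU, if_neg (h.st.tc s hs).symm, if_pos rfl]

lemma frU_k (h : D.Ok L) {s : σ} (hs : s ∈ D.St) :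
    D.frU s (D.k s) = X (D.t s) - X (D.c s) := by
  rw [frU, if_neg (h.st.tk s hs).symm, if_neg (h.st.kc s hs)]

lemma sum_VS (h : D.Ok L) {s : σ} (hs : s ∈ D.St) {M : Type} [AddCommMonoid M] (f : Y → M) :
    ∑ y ∈ VS D.t D.k D.c s, f y = f (D.t s) + (f (D.k s) + f (D.c s)) := by
  rw [VS, sum_insert, sum_insert, sum_singleton]
  · rw [mem_singleton]
    exact h.st.kc s hs
  · rw [mem_insert, mem_singleton, not_or]
    exact ⟨h.st.tk s hs, h.st.tc s hs⟩

lemma frV_t (h : D.Ok L) {s : σ} (hs : s ∈ D.St) : D.frV s (D.t s) = 0 := by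
  rw [frV, if_neg (h.st.tk s hs)]

lemma frV_c (h : D.Ok L) {s : σ} (hs : s ∈ D.St) : D.frV s (D.c s) = 0 := by
  rw [frV, if_neg (h.st.kc s hs).symm]

lemma frV_k (s : σ) : D.frV s (D.k s) = - (X (D.t s) * X (D.c s)) := by
  rw [frV, if_pos rfl]

lemma frP_t (h : D.Ok L) {s : σ} (hs : s ∈ D.St) : D.frP s (D.t s) = 0 := by
  rw [frP, if_neg (h.st.tk s hs)]

lemma frP_c (h : D.Ok L) {s : σ} (hs : s ∈ D.St) : D.frP s (D.c s) = 0 := by
  rw [frP, if_neg (h.st.kc s hs).symm]

lemma frP_k (s : σ) : D.frP s (D.k s) = - (C (D.hx s + D.hz s) * (X (D.t s) * X (D.c s))) -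
    2 * (X (D.t s) * X (D.k s) * X (D.c s)) := by
  rw [frP, if_pos rfl]

lemma frU_mem (h : D.Ok L) {s : σ} (hs : s ∈ D.St) (y : Y) :
    D.frU s y ∈ supported ℤ (VS D.t D.k D.c s : Set Y) := by
  have ht : (X (D.t s) : MvPolynomial Y ℤ) ∈ supported ℤ (VS D.t D.k D.c s : Set Y) :=
    X_mem_supp (mem_coe.2 (VS_sub_t s))
  have hk : (X (D.k s) : MvPolynomial Y ℤ) ∈ supported ℤ (VS D.t D.k D.c s : Set Y) :=
    X_mem_supp (mem_coe.2 (VS_sub_k s))
  have hc : (X (D.c s) : MvPolynomial Y ℤ) ∈ supported ℤ (VS D.t D.k D.c s : Set Y) :=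
    X_mem_supp (mem_coe.2 (VS_sub_c s))
  unfold frU
  split_ifs
  · exact mul_mem hk (sub_mem (one_mem _) hc)
  · exact mul_mem hk (sub_mem ht (one_mem _))
  · exact sub_mem ht hc

lemma frV_mem (s : σ) (y : Y) : D.frV s y ∈ supported ℤ (VS D.t D.k D.c s : Set Y) := by
  have ht : (X (D.t s) : MvPolynomial Y ℤ) ∈ supported ℤ (VS D.t D.k D.c s : Set Y) :=
    X_mem_supp (mem_coe.2 (VS_sub_t s))
  have hc : (X (D.c s) : MvPolynomial Y ℤ) ∈ supported ℤ (VS D.t D.k D.c s : Set Y) :=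
    X_mem_supp (mem_coe.2 (VS_sub_c s))
  unfold frV
  split_ifs
  · exact neg_mem (mul_mem ht hc)
  · exact zero_mem _

lemma frP_mem (s : σ) (y : Y) : D.frP s y ∈ supported ℤ (VS D.t D.k D.c s : Set Y) := by
  have ht : (X (D.t s) : MvPolynomial Y ℤ) ∈ supported ℤ (VS D.t D.k D.c s : Set Y) :=
    X_mem_supp (mem_coe.2 (VS_sub_t s))
  have hk : (X (D.k s) : MvPolynomial Y ℤ) ∈ supported ℤ (VS D.t D.k D.c s : Set Y) :=
    X_mem_supp (mem_coe.2 (VS_sub_k s))
  have hc : (X (D.c s) : MvPolynomial Y ℤ) ∈ supported ℤ (VS D.t D.k D.c s : Set Y) :=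
    X_mem_supp (mem_coe.2 (VS_sub_c s))
  have h2 : (2 : MvPolynomial Y ℤ) ∈ supported ℤ (VS D.t D.k D.c s : Set Y) := by
    have := C_mem (Y := Y) 2 (VS D.t D.k D.c s : Set Y)
    simpa using this
  unfold frP
  split_ifs
  · exact sub_mem (neg_mem (mul_mem (C_mem _ _) (mul_mem ht hc)))
      (mul_mem h2 (mul_mem (mul_mem ht hk) hc))
  · exact zero_mem _

lemma E0_C_mul (z : ℤ) (P : MvPolynomial Y ℤ) : E0 (C z * P) = z * E0 P := by
  rw [E0, Ev_C_mul]

lemma E0_two_mul (P : MvPolynomial Y ℤ) : E0 (2 * P) = 2 * E0 P := by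
  rw [two_mul, map_add, two_mul]

/-- the constants of the frames -/
lemma sum_frP (h : D.Ok L) {s : σ} (hs : s ∈ D.St) :
    ∑ y ∈ VS D.t D.k D.c s, E0 (D.frP s y) = 2 - D.hx s - D.hz s := by
  have h1 := h.st.tk s hs
  have h2 := h.st.kc s hs
  have h3 := h.st.tc s hs
  rw [sum_VS h hs, frP_t h hs, frP_c h hs, frP_k, map_zero, map_sub, map_neg, E0_C_mul, E0_two_mul]
  have e1 : E0 (X (D.t s) * X (D.c s)) = 1 := by
    have := E0_am ({D.t s, D.c s} : Finset Y)
    rw [am, prod_pair h3, card_pair h3] at this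
    rw [this]; norm_num
  have e2 : E0 (X (D.t s) * X (D.k s) * X (D.c s)) = -1 := by
    have := E0_am ({D.t s, D.k s, D.c s} : Finset Y)
    rw [am, prod_insert (by simp [h1, h3]), prod_pair h2, card_insert_of_notMem (by simp [h1, h3]),
      card_pair h2] at this
    rw [mul_assoc, this]; norm_num
  rw [e1, e2]
  ring

lemma sum_frU_one (h : D.Ok L) {s : σ} (hs : s ∈ D.St) :
    ∑ y ∈ VS D.t D.k D.c s, E0 (D.frU s y) = 0 := by
  have h2 := h.st.kc s hs
  have h1 := (h.st.tk s hs).symm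
  rw [sum_VS h hs, frU_t, frU_c h hs, frU_k h hs]
  have e1 := E0_fr_am h2 (∅ : Finset Y)
  have e2 := E0_fr_am h1 (∅ : Finset Y)
  have e3 : X (D.k s) * (X (D.t s) - 1) = - (X (D.k s) * (1 - X (D.t s)) : MvPolynomial Y ℤ) := by
    ring
  rw [am, prod_empty, mul_one] at e1 e2
  rw [e3, map_neg, e1, e2, map_sub, E0_X, E0_X]
  simp

/-- the function `- 4 ta - [k ∈ g] dl` of the sum over the energies in a star -/
noncomputable def uu (t k c : σ → Y) (s : σ) (g : Finset Y) : ℤ :=
  - 4 * ta t k c s g - (if k s ∈ g then dl t c s g else 0)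

/-- sum over the energies in a star, with the frozen variables of a pair -/
lemma sum_frU_am (h : D.Ok L) {s : σ} (hs : s ∈ D.St) {g : Finset Y} (hg : g.card = 2) :
    ∑ y ∈ VS D.t D.k D.c s, E0 (D.frU s y * am (g.erase y)) = uu D.t D.k D.c s g := by
  have h1 := h.st.tk s hs
  have h2 := h.st.kc s hs
  have h3 := h.st.tc s hs
  have e3 : ∀ P : MvPolynomial Y ℤ, X (D.k s) * (X (D.t s) - 1) * P =
      - (X (D.k s) * (1 - X (D.t s)) * P) := by
    intro P
    ring
  rw [sum_VS h hs, frU_t, frU_c h hs, frU_k h hs, e3, map_neg, E0_fr_am h2, E0_fr_am h1.symm,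
    sub_mul, map_sub, E0_am_singleton, E0_am_singleton]
  have c1 : ∀ y : Y, ((-1 : ℤ)) ^ (g.erase y).card = if y ∈ g then -1 else 1 := by
    intro y
    split_ifs with hy
    · rw [card_erase_of_mem hy, hg]; norm_num
    · rw [erase_eq_of_notMem hy, hg]; norm_num
  simp only [mem_erase, ne_eq, h1, h1.symm, h2, h2.symm, h3, h3.symm, not_false_eq_true, true_and,
    c1, uu, ta, dl]
  by_cases g1 : D.t s ∈ g <;> by_cases g2 : D.k s ∈ g <;> by_cases g3 : D.c s ∈ g <;>
    simp only [g1, g2, g3, if_true, if_false] <;>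
    norm_num

/-- `-1` for the items at the centre, `2 ^ .. - 1` for the others -/
noncomputable def nu (t k c : σ → Y) (s : σ) (N : Finset Y) : ℤ :=
  if k s ∈ N then -1 else 2 ^ (N \ {t s, c s}).card - 1

lemma E0_am_ph (g N : Finset Y) :
    E0 (am g * ph N) = (-1) ^ g.card * (1 - 2 ^ (N \ g).card) := by
  rw [ph, mul_sub, mul_one, map_sub, E0_am, E0_am_pr]
  ring

/-- sum over the energies in a star of the second order frames with the background items -/
lemma sum_frV_phi (h : D.Ok L) {s : σ} (hs : s ∈ D.St) (j : ι) :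
    ∑ y ∈ VS D.t D.k D.c s, E0 (D.frV s y * (D.d1 y).phi (Sum.inl j)) =
      nu D.t D.k D.c s (D.N j) := by
  have h3 := h.st.tc s hs
  rw [sum_VS h hs, frV_t h hs, frV_c h hs, frV_k, zero_mul, zero_mul, map_zero, zero_add, add_zero]
  have e : (D.d1 (D.k s)).phi (Sum.inl j) = if D.k s ∈ D.N j then 1 else ph (D.N j) := rfl
  rw [e, nu, ← am_pair h3]
  split_ifs with g
  · rw [mul_one, map_neg, E0_am, card_pair h3]
    norm_num
  · rw [neg_mul, map_neg, E0_am_ph, card_pair h3]
    ring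

lemma E0_ph_kc (h : D.Ok L) {s : σ} (hs : s ∈ D.St) : E0 (ph {D.k s, D.c s}) = -3 := by
  rw [ph, map_sub, E0_one, E0_pr, card_pair (h.st.kc s hs)]
  norm_num

/-- sum over the energies in a star of the second order frames with the item of another star -/
lemma sum_frV_own (h : D.Ok L) {s s' : σ} (hs : s ∈ D.St) (hs' : s' ∈ D.St) (hne : s ≠ s') :
    ∑ y ∈ VS D.t D.k D.c s, E0 (D.frV s y * (D.d1 y).phi (Sum.inr s')) = 3 := by
  have h3 := h.st.tc s hs
  rw [sum_VS h hs, frV_t h hs, frV_c h hs, zero_mul, zero_mul, map_zero, zero_add, add_zero]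
  have e : (D.d1 (D.k s)).phi (Sum.inr s') = ph {D.k s', D.c s'} := rfl
  rw [e, E0_mul_disj (h.st.disj hs hs' hne) (frV_mem s _)
    (supported_mono (kc_sub s') (ph_mem _)), E0_ph_kc h hs', frV_k, ← am_pair h3, map_neg, E0_am,
    card_pair h3]
  norm_num

lemma dA_mem (s : σ) (y : Y) :
    (D.d1 y).A (Sum.inr s) ∈ supported ℤ (VS D.t D.k D.c s : Set Y) :=
  sub_mem (mul_mem (C_mem _ _) (supported_mono (kt_sub s) (am_mem _)))
    (mul_mem (C_mem _ _) (supported_mono (kc_sub s) (am_mem _)))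

/-- sum over the energies in a star of the frames with the own numbers of another star -/
lemma sum_frU_own (h : D.Ok L) {s s' : σ} (hs : s ∈ D.St) (hs' : s' ∈ D.St) (hne : s ≠ s') :
    ∑ y ∈ VS D.t D.k D.c s, E0 (D.frU s y * (D.d1 y).A (Sum.inr s')) = 0 := by
  have e : ∀ y ∈ VS D.t D.k D.c s, E0 (D.frU s y * (D.d1 y).A (Sum.inr s')) =
      E0 (D.frU s y) * E0 (D.d0.A (Sum.inr s')) := by
    intro y _
    rw [E0_mul_disj (h.st.disj hs hs' hne) (frU_mem h hs y) (dA_mem s' y)]
    rfl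
  rw [sum_congr rfl e, ← sum_mul, sum_frU_one h hs, zero_mul]

/-- sum over the energies in a star of the frames with the numbers of the pairs -/
lemma sum_frU_A (h : D.Ok L) {s : σ} (hs : s ∈ D.St) {j : ι} (hj : j ∈ D.J) :
    ∑ y ∈ VS D.t D.k D.c s, E0 (D.frU s y * (D.d1 y).A (Sum.inl j)) =
      D.H j * uu D.t D.k D.c s (D.N j) := by
  have e : ∀ y ∈ VS D.t D.k D.c s, E0 (D.frU s y * (D.d1 y).A (Sum.inl j)) =
      D.H j * E0 (D.frU s y * am ((D.N j).erase y)) := by
    intro y _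
    have e1 : (D.d1 y).A (Sum.inl j) = C (D.H j) * am ((D.N j).erase y) := rfl
    rw [e1, ← E0_C_mul]
    congr 1
    ring
  rw [sum_congr rfl e, ← mul_sum]
  by_cases h1 : (D.N j).card = 1
  · rw [h.H0 j hj h1, zero_mul, zero_mul]
  · rw [sum_frU_am h hs]
    have := h.one j hj
    have := h.two j hj
    omega

/-- sum over the energies in a star with at most one other vertex -/
lemma sum_frU_pr (h : D.Ok L) {s : σ} (hs : s ∈ D.St) {N : Finset Y} (hN : N.card ≤ 1) :
    ∑ y ∈ VS D.t D.k D.c s, (if y ∈ N then 0 else E0 (D.frU s y * pr N)) =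
      4 * dl D.t D.c s N := by
  have h1 := h.st.tk s hs
  have h2 := h.st.kc s hs
  have h3 := h.st.tc s hs
  have e3 : ∀ P : MvPolynomial Y ℤ, X (D.k s) * (X (D.t s) - 1) * P =
      - (X (D.k s) * (1 - X (D.t s)) * P) := by
    intro P
    ring
  by_cases h0 : N.card = 0
  · rw [card_eq_zero] at h0
    subst h0
    have : ∀ y ∈ VS D.t D.k D.c s, (if y ∈ (∅ : Finset Y) then 0 else E0 (D.frU s y * pr ∅)) =
        E0 (D.frU s y) := by
      intro y _
      rw [if_neg (notMem_empty y), pr, prod_empty, mul_one]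
    rw [sum_congr rfl this, sum_frU_one h hs]
    simp [dl]
  · obtain ⟨z, rfl⟩ := card_eq_one.1 (by omega : N.card = 1)
    have hp : ∀ P : MvPolynomial Y ℤ, P * pr {z} = P * am ∅ - P * am {z} := by
      intro P
      rw [pr, prod_singleton, am, prod_empty, am_singleton]
      ring
    rw [sum_VS h hs, frU_t, frU_c h hs, frU_k h hs]
    simp only [hp, map_sub, e3, map_neg, E0_fr_am h2, E0_fr_am h1.symm, sub_mul,
      E0_am_singleton, mem_singleton, notMem_empty, dl, card_singleton, card_empty]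
    by_cases g1 : D.t s = z
    · subst g1
      simp [h1.symm, h3.symm]
    · by_cases g2 : D.k s = z
      · subst g2
        simp [h1, h2.symm]
      · by_cases g3 : D.c s = z
        · subst g3
          simp [h3, h2]
        · simp [g1, g2, g3]

/-- an untouched star with a frame of another star -/
lemma E0_Dg_frU (h : D.Ok L) {s s' : σ} (hs : s ∈ D.St) (hs' : s' ∈ D.St) (hne : s ≠ s') (y : Y) :
    E0 (Dg ℤ (D.t s') (D.k s') (D.c s') * D.frU s y) = 0 := by
  have h1 := Ec_DT_disj h.st (T := {s'}) (by rwa [singleton_subset_iff]) (mem_singleton_self s')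
    (h.st.disj hs hs' hne) (frU_mem h hs y) 0
  rwa [Ec_zero, DT_single] at h1

lemma E0_Dg_pr_inter (h : D.Ok L) {s : σ} (hs : s ∈ D.St) (N : Finset Y) :
    E0 (Dg ℤ (D.t s) (D.k s) (D.c s) * pr (N ∩ VS D.t D.k D.c s)) = - dl D.t D.c s N := by
  have e : Dg ℤ (D.t s) (D.k s) (D.c s) * pr (N ∩ VS D.t D.k D.c s) =
      Dg ℤ (D.t s) (D.k s) (D.c s) * (am ∅ * pr (N ∩ VS D.t D.k D.c s)) := by
    rw [am, prod_empty, one_mul]
  rw [e, E0_Dg_am_pr h.st hs, qq_empty_left h.st hs, dl_inter, oms]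
  have : (N ∩ VS D.t D.k D.c s) \ VS D.t D.k D.c s = ∅ := by
    rw [sdiff_eq_empty_iff_subset]
    exact inter_subset_right
  rw [this]
  simp

lemma pr_split (N U : Finset Y) : pr N = pr (N ∩ U) * pr (N \ U) := by
  have h : N = (N ∩ U) ∪ (N \ U) := by
    ext y
    simp only [mem_union, mem_inter, mem_sdiff]
    tauto
  conv_lhs => rw [h]
  apply prod_union
  rw [Finset.disjoint_left]
  intro y h1 h2
  exact (mem_sdiff.1 h2).2 (mem_inter.1 h1).2

/-- sum over the energies in a star with another star in operator mode -/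
lemma sum_frU_Dg (h : D.Ok L) {s s' : σ} (hs : s ∈ D.St) (hs' : s' ∈ D.St) (hne : s ≠ s')
    {j : ι} (hj : j ∈ D.J) :
    ∑ y ∈ VS D.t D.k D.c s, E0 (Dg ℤ (D.t s') (D.k s') (D.c s') *
      (D.frU s y * (D.d1 y).phi (Sum.inl j))) =
      4 * (dl D.t D.c s (D.N j) * dl D.t D.c s' (D.N j)) := by
  have hd := h.st.disj hs hs' hne
  set N := D.N j with hN
  set V' := VS D.t D.k D.c s' with hV'
  have e : ∀ y ∈ VS D.t D.k D.c s, E0 (Dg ℤ (D.t s') (D.k s') (D.c s') *
      (D.frU s y * (D.d1 y).phi (Sum.inl j))) = dl D.t D.c s' N *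
      (if y ∈ N \ V' then 0 else E0 (D.frU s y * pr (N \ V'))) := by
    intro y hy
    have hyV : y ∉ V' := Finset.disjoint_left.1 hd hy
    have e1 : (D.d1 y).phi (Sum.inl j) = if y ∈ N then 1 else ph N := rfl
    have e2 : y ∈ N \ V' ↔ y ∈ N := by
      rw [mem_sdiff]
      exact ⟨fun g => g.1, fun g => ⟨g, hyV⟩⟩
    simp only [e1, e2]
    split_ifs with g
    · rw [mul_one, E0_Dg_frU h hs hs' hne, mul_zero]
    · have e3 : Dg ℤ (D.t s') (D.k s') (D.c s') * (D.frU s y * ph N) =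
          Dg ℤ (D.t s') (D.k s') (D.c s') * D.frU s y -
          (Dg ℤ (D.t s') (D.k s') (D.c s') * pr (N ∩ V')) * (D.frU s y * pr (N \ V')) := by
        rw [ph, pr_split N V']
        ring
      rw [e3, map_sub, E0_Dg_frU h hs hs' hne, E0_mul_disj (U := V')
        (V := VS D.t D.k D.c s ∪ N \ V') (disjoint_union_right.2 ⟨hd.symm, disjoint_sdiff⟩)
        (mul_mem (Dg_memVS s') (supported_mono (by exact_mod_cast inter_subset_right) (pr_mem _)))
        (mul_mem (supported_mono (by exact_mod_cast subset_union_left) (frU_mem h hs y))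
          (supported_mono (by exact_mod_cast subset_union_right) (pr_mem _))),
        E0_Dg_pr_inter h hs']
      ring
  rw [sum_congr rfl e, ← mul_sum]
  by_cases h0 : dl D.t D.c s' N = 0
  · rw [h0]
    ring
  · have h1 : ((N \ V').card) ≤ 1 := by
      have h2 : N.card ≤ 2 := h.two j hj
      have h3 := card_split N V'
      have h4 : 0 < (N ∩ V').card := by
        rw [card_pos]
        rcases mem_of_dl h0 with g | g
        · exact ⟨_, mem_inter.2 ⟨g, VS_sub_t s'⟩⟩
        · exact ⟨_, mem_inter.2 ⟨g, VS_sub_c s'⟩⟩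
      omega
    rw [sum_frU_pr h hs h1]
    have h5 : dl D.t D.c s (N \ V') = dl D.t D.c s N := by
      have g : ∀ y ∈ VS D.t D.k D.c s, (y ∈ N \ V' ↔ y ∈ N) := by
        intro y hy
        rw [mem_sdiff]
        exact ⟨fun g => g.1, fun g => ⟨g, Finset.disjoint_left.1 hd hy⟩⟩
      unfold dl
      simp only [g _ (VS_sub_t s), g _ (VS_sub_c s)]
    rw [h5]
    ring

end SDat

end Pool.Gauss.TL
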