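import Pool.Agent.Work.MP_065141_co.K.ThreeLev5

/-!
# Disjoint stars: the coefficient of `w ^ 2 Z ^ 4` at energy zero
-/

set_option autoImplicit false
set_option linter.unusedSectionVars false
open scoped Classical
open Finset MvPolynomial

namespace Pool.Gauss.TL

variable {Y ι σ κ : Type}

/-! ### sums over ordered pairs -/

lemma sum_offDiag_eq (S : Finset κ) (f : κ → κ → ℤ) :
    ∑ p ∈ S.offDiag, f p.1 p.2 = ∑ x ∈ S, ∑ y ∈ S, f x y - ∑ x ∈ S, f x x := by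
  have h1 : ∑ p ∈ S ×ˢ S, f p.1 p.2 = ∑ p ∈ S.diag, f p.1 p.2 + ∑ p ∈ S.offDiag, f p.1 p.2 := by
    rw [← sum_union (disjoint_diag_offDiag S), diag_union_offDiag]
  rw [sum_product] at h1
  rw [h1]
  have h2 : ∑ p ∈ S.diag, f p.1 p.2 = ∑ x ∈ S, f x x := by
    apply sum_nbij' (fun p => p.1) (fun x => (x, x))
    · intro p hp
      exact (mem_diag.1 hp).1
    · intro x hx
      exact mem_diag.2 ⟨hx, rfl⟩
    · rintro ⟨a, b⟩ hp
      have := (mem_diag.1 hp).2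
      simp only at this
      rw [this]
    · intro x _
      rfl
    · rintro ⟨a, b⟩ hp
      have := (mem_diag.1 hp).2
      simp only at this
      rw [this]
  rw [h2]
  ring

lemma sum_offDiag_disjSum (J : Finset ι) (S : Finset σ) (f : ι ⊕ σ → ι ⊕ σ → ℤ) :
    ∑ p ∈ (J.disjSum S).offDiag, f p.1 p.2 =
      ∑ p ∈ J.offDiag, f (Sum.inl p.1) (Sum.inl p.2) +
      ∑ j ∈ J, ∑ s ∈ S, (f (Sum.inl j) (Sum.inr s) + f (Sum.inr s) (Sum.inl j)) +
      ∑ p ∈ S.offDiag, f (Sum.inr p.1) (Sum.inr p.2) := by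
  rw [sum_offDiag_eq, sum_offDiag_eq J fun a b => f (Sum.inl a) (Sum.inl b),
    sum_offDiag_eq S fun a b => f (Sum.inr a) (Sum.inr b), sum_disjSum, sum_disjSum]
  simp only [sum_disjSum, sum_add_distrib]
  have h : ∑ s ∈ S, ∑ j ∈ J, f (Sum.inr s) (Sum.inl j) =
      ∑ j ∈ J, ∑ s ∈ S, f (Sum.inr s) (Sum.inl j) := sum_comm
  rw [h]
  ring

lemma sum_offDiag_swap (S : Finset κ) (f : κ → κ → ℤ) :
    ∑ p ∈ S.offDiag, f p.1 p.2 = ∑ p ∈ S.offDiag, f p.2 p.1 := by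
  rw [sum_offDiag_eq, sum_offDiag_eq S fun a b => f b a]
  have h : ∑ x ∈ S, ∑ y ∈ S, f x y = ∑ y ∈ S, ∑ x ∈ S, f x y := sum_comm
  rw [h]

lemma two_sum_powersetCard (S : Finset σ) (F : Finset σ → ℤ) :
    2 * ∑ T ∈ S.powersetCard 2, F T = ∑ p ∈ S.offDiag, F {p.1, p.2} := by
  induction S using Finset.induction_on with
  | empty =>
    have : (∅ : Finset σ).powersetCard 2 = ∅ := rfl
    rw [this]
    simp
  | insert a S ha ih =>
    have e1 : (insert a S).powersetCard 2 =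
        S.powersetCard 2 ∪ (S.powersetCard 1).image (insert a) := powersetCard_succ_insert ha 1
    have d1 : Disjoint (S.powersetCard 2) ((S.powersetCard 1).image (insert a)) := by
      rw [Finset.disjoint_left]
      intro T h1 h2
      rw [mem_image] at h2
      obtain ⟨U, -, rfl⟩ := h2
      exact ha ((mem_powersetCard.1 h1).1 (mem_insert_self a U))
    have e2 : ∑ T ∈ (S.powersetCard 1).image (insert a), F T = ∑ b ∈ S, F {a, b} := by
      rw [sum_image, powersetCard_one, sum_map]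
      · rfl
      · intro U hU V hV h
        rw [mem_coe, mem_powersetCard] at hU hV
        have hU' : a ∉ U := fun h => ha (hU.1 h)
        have hV' : a ∉ V := fun h => ha (hV.1 h)
        rw [← erase_insert hU', ← erase_insert hV', h]
    rw [e1, sum_union d1, mul_add, ih, e2, sum_offDiag_eq (insert a S) fun x y => F {x, y},
      sum_offDiag_eq S fun x y => F {x, y}, sum_insert ha, sum_insert ha]
    have e3 : ∑ x ∈ S, ∑ y ∈ insert a S, F {x, y} = ∑ b ∈ S, F {a, b} +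
        ∑ x ∈ S, ∑ y ∈ S, F {x, y} := by
      rw [← sum_add_distrib]
      apply sum_congr rfl
      intro x _
      rw [sum_insert ha, pair_comm x a]
    rw [e3, sum_insert ha]
    ring

lemma sum_offDiag_mul (S : Finset κ) (f g : κ → ℤ) :
    ∑ p ∈ S.offDiag, f p.1 * g p.2 = (∑ x ∈ S, f x) * (∑ x ∈ S, g x) - ∑ x ∈ S, f x * g x := by
  rw [sum_offDiag_eq S fun x y => f x * g y, sum_mul_sum]

/-- sums over a set without one element -/
lemma sum_offDiag_fst (S : Finset κ) (f : κ → κ → ℤ) :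
    ∑ p ∈ S.offDiag, f p.1 p.2 = ∑ s ∈ S, ∑ s' ∈ S \ {s}, f s s' := by
  rw [sum_offDiag_eq, ← sum_sub_distrib]
  apply sum_congr rfl
  intro s hs
  rw [sdiff_singleton_eq_erase, ← add_sum_erase S _ hs]
  ring

/-! ### the disjoint cases of `qq` -/

section

variable {St : Finset σ} {t k c : σ → Y}

lemma qq_far {s : σ} {N : Finset Y} (h : Disjoint N (VS t k c s)) (g : Finset Y) :
    qq t k c s g N = ta t k c s g * 2 ^ (N \ g).card := by
  have hk : k s ∉ N := fun g => (Finset.disjoint_left.1 h g) (VS_sub_k s)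
  have ht : t s ∉ N := fun g => (Finset.disjoint_left.1 h g) (VS_sub_t s)
  have hc : c s ∉ N := fun g => (Finset.disjoint_left.1 h g) (VS_sub_c s)
  have e1 : N \ (g ∪ {k s, t s}) = N \ g := by
    ext y
    simp only [mem_sdiff, mem_union, mem_insert, mem_singleton]
    constructor
    · rintro ⟨h1, h2⟩
      exact ⟨h1, fun h3 => h2 (Or.inl h3)⟩
    · rintro ⟨h1, h2⟩
      refine ⟨h1, ?_⟩
      rintro (h3 | rfl | rfl)
      · exact h2 h3
      · exact hk h1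
      · exact ht h1
  have e2 : N \ (g ∪ {k s, c s}) = N \ g := by
    ext y
    simp only [mem_sdiff, mem_union, mem_insert, mem_singleton]
    constructor
    · rintro ⟨h1, h2⟩
      exact ⟨h1, fun h3 => h2 (Or.inl h3)⟩
    · rintro ⟨h1, h2⟩
      refine ⟨h1, ?_⟩
      rintro (h3 | rfl | rfl)
      · exact h2 h3
      · exact hk h1
      · exact hc h1
  rw [qq, e1, e2, ta, dl]
  by_cases h1 : k s ∈ g <;> by_cases h2 : t s ∈ g <;> by_cases h3 : c s ∈ g <;> simp [h1, h2, h3]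

lemma qq_near (hS : Stars St t k c) {s : σ} (hs : s ∈ St) {g : Finset Y}
    (h : Disjoint g (VS t k c s)) (N : Finset Y) :
    qq t k c s g N = - (dl t c s N * 2 ^ (N \ (VS t k c s ∪ g)).card) := by
  have h1 := (hS.tk s hs).symm
  have h2 := hS.kc s hs
  have h3 := hS.tc s hs
  have hk : k s ∉ g := fun g' => (Finset.disjoint_left.1 h g') (VS_sub_k s)
  have ht : t s ∉ g := fun g' => (Finset.disjoint_left.1 h g') (VS_sub_t s)
  have hc : c s ∉ g := fun g' => (Finset.disjoint_left.1 h g') (VS_sub_c s)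
  have e := qq_empty_left (t := t) (k := k) (c := c) hS hs (N \ g)
  have e1 : dl t c s (N \ g) = dl t c s N := by
    unfold dl
    simp [ht, hc]
  have e2 : (N \ g) \ VS t k c s = N \ (VS t k c s ∪ g) := by
    ext y
    simp only [mem_sdiff, mem_union]
    tauto
  have e3 : qq t k c s g N = qq t k c s ∅ (N \ g) := by
    have e4 : ∀ B : Finset Y, N \ (g ∪ B) = (N \ g) \ (∅ ∪ B) := by
      intro B
      ext y
      simp only [mem_sdiff, mem_union, notMem_empty, false_or]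
      tauto
    rw [qq, qq, e4, e4]
    simp [hk, ht, hc]
  rw [e3, e, e1, oms, e2]

lemma dl_pow_one {s : σ} {N : Finset Y} : dl t c s N * oms t k c s N =
    dl t c s N * 2 ^ (N \ VS t k c s).card := rfl

end

namespace SDat

variable {D : SDat Y ι σ} {L : Finset Y}

/-! ### values of the items -/

/-- own first order number -/
def eta (D : SDat Y ι σ) (s : σ) : ℤ := D.hx s - D.hz s

lemma kt_card (h : D.Ok L) {s : σ} (hs : s ∈ D.St) : ({D.k s, D.t s} : Finset Y).card = 2 :=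
  card_pair (h.st.tk s hs).symm

lemma kc_card (h : D.Ok L) {s : σ} (hs : s ∈ D.St) : ({D.k s, D.c s} : Finset Y).card = 2 :=
  card_pair (h.st.kc s hs)

lemma d0_phi_l (j : ι) : D.d0.phi (Sum.inl j) = ph (D.N j) := rfl
lemma d0_phi_r (s : σ) : D.d0.phi (Sum.inr s) = ph {D.k s, D.c s} := rfl
lemma d0_A_l (j : ι) : D.d0.A (Sum.inl j) = C (D.H j) * am (D.N j) := rfl
lemma d0_A_r (s : σ) : D.d0.A (Sum.inr s) = C (D.hx s) * am {D.k s, D.t s} -
  C (D.hz s) * am {D.k s, D.c s} := rfl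
lemma d0_chi_l (j : ι) : D.d0.chi (Sum.inl j) = C (D.g j) * ph (D.N j) := rfl
lemma d0_kp_l (j : ι) : D.d0.kp (Sum.inl j) = C (D.K j) * am (D.N j) := rfl

/-- multiplying by the first order number only pairs matter -/
lemma H_sign (h : D.Ok L) {j : ι} (hj : j ∈ D.J) : D.H j * (-1) ^ (D.N j).card = D.H j := by
  by_cases h1 : (D.N j).card = 1
  · rw [h.H0 j hj h1, zero_mul]
  · have h2 : (D.N j).card = 2 := by
      have := h.one j hj
      have := h.two j hj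
      omega
    rw [h2]
    norm_num

lemma K_sign (h : D.Ok L) {j : ι} (hj : j ∈ D.J) : D.K j * (-1) ^ (D.N j).card = D.K j := by
  by_cases h1 : (D.N j).card = 1
  · rw [h.K0 j hj h1, zero_mul]
  · have h2 : (D.N j).card = 2 := by
      have := h.one j hj
      have := h.two j hj
      omega
    rw [h2]
    norm_num

/-- `1` for disjoint sets, `0` otherwise -/
noncomputable def dj (U V : Finset Y) : ℤ := if Disjoint U V then 1 else 0

lemma E0_am_am' (g g' : Finset Y) : E0 (am g * am g') = (-1) ^ g.card * (-1) ^ g'.card * dj g g' := by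
  rw [E0_am_am, dj]
  split_ifs
  · rw [pow_add]; ring
  · ring

lemma E0_AA_ll (h : D.Ok L) {j l : ι} (hj : j ∈ D.J) (hl : l ∈ D.J) :
    E0 (D.d0.A (Sum.inl j) * D.d0.A (Sum.inl l)) = D.H j * D.H l * dj (D.N j) (D.N l) := by
  have e : D.d0.A (Sum.inl j) * D.d0.A (Sum.inl l) =
      C (D.H j) * (C (D.H l) * (am (D.N j) * am (D.N l))) := by
    rw [d0_A_l, d0_A_l]; ring
  rw [e, E0_C_mul, E0_C_mul, E0_am_am']
  have h1 := H_sign h hj
  have h2 := H_sign h hl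
  calc D.H j * (D.H l * ((-1) ^ (D.N j).card * (-1) ^ (D.N l).card * dj (D.N j) (D.N l))) =
      (D.H j * (-1) ^ (D.N j).card) * (D.H l * (-1) ^ (D.N l).card) * dj (D.N j) (D.N l) := by ring
    _ = _ := by rw [h1, h2]

lemma E0_AA_lr (h : D.Ok L) {j : ι} {s : σ} (hj : j ∈ D.J) (hs : s ∈ D.St) :
    E0 (D.d0.A (Sum.inl j) * D.d0.A (Sum.inr s)) = D.H j *
      (D.hx s * dj (D.N j) {D.k s, D.t s} - D.hz s * dj (D.N j) {D.k s, D.c s}) := by
  have e : D.d0.A (Sum.inl j) * D.d0.A (Sum.inr s) =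
      C (D.H j) * (C (D.hx s) * (am (D.N j) * am {D.k s, D.t s})) -
      C (D.H j) * (C (D.hz s) * (am (D.N j) * am {D.k s, D.c s})) := by
    rw [d0_A_l, d0_A_r]; ring
  rw [e, map_sub, E0_C_mul, E0_C_mul, E0_C_mul, E0_C_mul, E0_am_am', E0_am_am', kt_card h hs,
    kc_card h hs]
  have h1 := H_sign h hj
  linear_combination (D.hx s * dj (D.N j) {D.k s, D.t s} - D.hz s * dj (D.N j) {D.k s, D.c s}) * h1

lemma E0_A_r (h : D.Ok L) {s : σ} (hs : s ∈ D.St) : E0 (D.d0.A (Sum.inr s)) = D.eta s := by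
  rw [d0_A_r, map_sub, E0_C_mul, E0_C_mul, E0_am, E0_am, kt_card h hs, kc_card h hs, eta]
  ring

lemma d0A_mem (s : σ) : D.d0.A (Sum.inr s) ∈ supported ℤ (VS D.t D.k D.c s : Set Y) :=
  dA_mem (D := D) s (D.k s)

lemma d0phi_mem (s : σ) : D.d0.phi (Sum.inr s) ∈ supported ℤ (VS D.t D.k D.c s : Set Y) :=
  supported_mono (kc_sub s) (ph_mem _)

lemma E0_AA_rr (h : D.Ok L) {s s' : σ} (hs : s ∈ D.St) (hs' : s' ∈ D.St) (hne : s ≠ s') :
    E0 (D.d0.A (Sum.inr s) * D.d0.A (Sum.inr s')) = D.eta s * D.eta s' := by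
  rw [E0_mul_disj (h.st.disj hs hs' hne) (d0A_mem s) (d0A_mem s'), E0_A_r h hs, E0_A_r h hs']

/-- one star, first order numbers -/
lemma E0_Dg_A (h : D.Ok L) {s : σ} {j : ι} (hs : s ∈ D.St) (hj : j ∈ D.J) :
    E0 (Dg ℤ (D.t s) (D.k s) (D.c s) * D.d0.A (Sum.inl j)) = D.H j * ta D.t D.k D.c s (D.N j) := by
  have e : Dg ℤ (D.t s) (D.k s) (D.c s) * D.d0.A (Sum.inl j) =
      C (D.H j) * (Dg ℤ (D.t s) (D.k s) (D.c s) * am (D.N j)) := by
    rw [d0_A_l]; ring
  rw [e, E0_C_mul, E0_Dg_am h.st hs]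
  have h1 := H_sign h hj
  linear_combination (ta D.t D.k D.c s (D.N j)) * h1

lemma E0_Dg_kp (h : D.Ok L) {s : σ} {j : ι} (hs : s ∈ D.St) (hj : j ∈ D.J) :
    E0 (Dg ℤ (D.t s) (D.k s) (D.c s) * D.d0.kp (Sum.inl j)) = D.K j * ta D.t D.k D.c s (D.N j) := by
  have e : Dg ℤ (D.t s) (D.k s) (D.c s) * D.d0.kp (Sum.inl j) =
      C (D.K j) * (Dg ℤ (D.t s) (D.k s) (D.c s) * am (D.N j)) := by
    rw [d0_kp_l]; ring
  rw [e, E0_C_mul, E0_Dg_am h.st hs]
  have h1 := K_sign h hj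
  linear_combination (ta D.t D.k D.c s (D.N j)) * h1

lemma E0_Dg_phiA_ll (h : D.Ok L) {s : σ} {j l : ι} (hs : s ∈ D.St) (hl : l ∈ D.J) :
    E0 (Dg ℤ (D.t s) (D.k s) (D.c s) * (D.d0.phi (Sum.inl j) * D.d0.A (Sum.inl l))) =
      D.H l * (ta D.t D.k D.c s (D.N l) - qq D.t D.k D.c s (D.N l) (D.N j)) := by
  have e : Dg ℤ (D.t s) (D.k s) (D.c s) * (D.d0.phi (Sum.inl j) * D.d0.A (Sum.inl l)) =
      C (D.H l) * (Dg ℤ (D.t s) (D.k s) (D.c s) * (ph (D.N j) * am (D.N l))) := by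
    rw [d0_A_l, d0_phi_l]; ring
  rw [e, E0_C_mul, E0_Dg_ph_am h.st hs]
  have h1 := H_sign h hl
  linear_combination (ta D.t D.k D.c s (D.N l) - qq D.t D.k D.c s (D.N l) (D.N j)) * h1

lemma disj_kt (h : D.Ok L) {s s' : σ} (hs : s ∈ D.St) (hs' : s' ∈ D.St) (hne : s ≠ s') :
    Disjoint ({D.k s', D.t s'} : Finset Y) (VS D.t D.k D.c s) := by
  refine Disjoint.mono_left ?_ (h.st.disj hs' hs hne.symm)
  have := kt_sub (D := D) s'
  exact_mod_cast this

lemma disj_kc (h : D.Ok L) {s s' : σ} (hs : s ∈ D.St) (hs' : s' ∈ D.St) (hne : s ≠ s') :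
    Disjoint ({D.k s', D.c s'} : Finset Y) (VS D.t D.k D.c s) := by
  refine Disjoint.mono_left ?_ (h.st.disj hs' hs hne.symm)
  have := kc_sub (D := D) s'
  exact_mod_cast this

/-- the numbers of another star seen by an item at a star in operator mode -/
noncomputable def so (D : SDat Y ι σ) (s s' : σ) (N : Finset Y) : ℤ :=
  dl D.t D.c s N * (D.hx s' * 2 ^ (N \ (VS D.t D.k D.c s ∪ {D.k s', D.t s'})).card -
    D.hz s' * 2 ^ (N \ (VS D.t D.k D.c s ∪ {D.k s', D.c s'})).card)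

lemma E0_Dg_phiA_lr (h : D.Ok L) {s s' : σ} {j : ι} (hs : s ∈ D.St) (hs' : s' ∈ D.St)
    (hne : s ≠ s') :
    E0 (Dg ℤ (D.t s) (D.k s) (D.c s) * (D.d0.phi (Sum.inl j) * D.d0.A (Sum.inr s'))) =
      D.so s s' (D.N j) := by
  have e : Dg ℤ (D.t s) (D.k s) (D.c s) * (D.d0.phi (Sum.inl j) * D.d0.A (Sum.inr s')) =
      C (D.hx s') * (Dg ℤ (D.t s) (D.k s) (D.c s) * (ph (D.N j) * am {D.k s', D.t s'})) -
      C (D.hz s') * (Dg ℤ (D.t s) (D.k s) (D.c s) * (ph (D.N j) * am {D.k s', D.c s'})) := by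
    rw [d0_A_r, d0_phi_l]; ring
  rw [e, map_sub, E0_C_mul, E0_C_mul, E0_Dg_ph_am h.st hs, E0_Dg_ph_am h.st hs,
    kt_card h hs', kc_card h hs', ta_disj (disj_kt h hs hs' hne), ta_disj (disj_kc h hs hs' hne),
    qq_near h.st hs (disj_kt h hs hs' hne), qq_near h.st hs (disj_kc h hs hs' hne), so]
  ring

lemma E0_Dg_phiA_rl (h : D.Ok L) {s s' : σ} {j : ι} (hs : s ∈ D.St) (hs' : s' ∈ D.St)
    (hne : s ≠ s') (hj : j ∈ D.J) :
    E0 (Dg ℤ (D.t s) (D.k s) (D.c s) * (D.d0.phi (Sum.inr s') * D.d0.A (Sum.inl j))) =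
      D.H j * ta D.t D.k D.c s (D.N j) * (1 - 2 ^ (({D.k s', D.c s'} : Finset Y) \ D.N j).card) := by
  have e : Dg ℤ (D.t s) (D.k s) (D.c s) * (D.d0.phi (Sum.inr s') * D.d0.A (Sum.inl j)) =
      C (D.H j) * (Dg ℤ (D.t s) (D.k s) (D.c s) * (ph {D.k s', D.c s'} * am (D.N j))) := by
    rw [d0_A_l, d0_phi_r]; ring
  rw [e, E0_C_mul, E0_Dg_ph_am h.st hs, qq_far (disj_kc h hs hs' hne)]
  have h1 := H_sign h hj
  linear_combination (ta D.t D.k D.c s (D.N j) *
    (1 - 2 ^ (({D.k s', D.c s'} : Finset Y) \ D.N j).card)) * h1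

lemma E0_Dg_phiA_rr (h : D.Ok L) {s s' s'' : σ} (hs : s ∈ D.St) (hs' : s' ∈ D.St)
    (hs'' : s'' ∈ D.St) (h1 : s ≠ s') (h2 : s ≠ s'') :
    E0 (Dg ℤ (D.t s) (D.k s) (D.c s) * (D.d0.phi (Sum.inr s') * D.d0.A (Sum.inr s''))) = 0 := by
  have h3 := E0_DT_disj h.st (T := {s}) (by rwa [singleton_subset_iff]) (mem_singleton_self s)
    (U := VS D.t D.k D.c s' ∪ VS D.t D.k D.c s'')
    (disjoint_union_left.2 ⟨h.st.disj hs' hs h1.symm, h.st.disj hs'' hs h2.symm⟩)
    (mul_mem (supported_mono (by exact_mod_cast subset_union_left) (d0phi_mem s'))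
      (supported_mono (by exact_mod_cast subset_union_right) (d0A_mem s'')))
  rwa [DT_single] at h3

/-! ### two stars -/

lemma Ec_C_mul (m : ℕ) (z : ℤ) (P : MvPolynomial Y ℤ) : Ec m (C z * P) = z * Ec m P := by
  have : up0 (C z * P) = C ((z : ℤ) : PowerSeries ℤ) * up0 P := by
    rw [map_mul, up0, MvPolynomial.map_C]
    simp
  unfold Ec
  rw [this, Ev_C_mul, ← zsmul_eq_mul, map_zsmul, smul_eq_mul]

lemma DT_two {s s' : σ} (hne : s ≠ s') (t k c : σ → Y) :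
    DT ℤ {s, s'} t k c = Dg ℤ (t s) (k s) (c s) * Dg ℤ (t s') (k s') (c s') := by
  rw [DT, prod_pair hne]

/-- the coupling of two stars by an item -/
noncomputable def ab (D : SDat Y ι σ) (s s' : σ) (j : ι) : ℤ :=
  dl D.t D.c s (D.N j) * dl D.t D.c s' (D.N j)

lemma E1_DT_A (h : D.Ok L) {s s' : σ} {j : ι} (hs : s ∈ D.St) (hs' : s' ∈ D.St) (hne : s ≠ s')
    (hj : j ∈ D.J) :
    E1 (DT ℤ {s, s'} D.t D.k D.c * D.d0.A (Sum.inl j)) = - 4 * (D.H j * D.ab s s' j) := by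
  have e : DT ℤ {s, s'} D.t D.k D.c * D.d0.A (Sum.inl j) =
      C (D.H j) * (DT ℤ {s, s'} D.t D.k D.c * am (D.N j)) := by
    rw [d0_A_l]; ring
  rw [e, ← Ec_one, Ec_C_mul, Ec_one, DT_two hne, E1_Dg2_am h.st hs hs' hne (h.two j hj), ab]
  ring

lemma E0_DT_A (h : D.Ok L) {s s' : σ} {j : ι} (hs : s ∈ D.St) (hs' : s' ∈ D.St) (hne : s ≠ s')
    (hj : j ∈ D.J) :
    E0 (DT ℤ {s, s'} D.t D.k D.c * D.d0.A (Sum.inl j)) = D.H j * D.ab s s' j := by
  have e : DT ℤ {s, s'} D.t D.k D.c * D.d0.A (Sum.inl j) =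
      C (D.H j) * (DT ℤ {s, s'} D.t D.k D.c * am (D.N j)) := by
    rw [d0_A_l]; ring
  rw [e, E0_C_mul, DT_two hne, E0_Dg2_am' h.st hs hs' hne (h.two j hj), ab]

lemma E0_DT_phi (h : D.Ok L) {s s' : σ} {j : ι} (hs : s ∈ D.St) (hs' : s' ∈ D.St) (hne : s ≠ s')
    (hj : j ∈ D.J) :
    E0 (DT ℤ {s, s'} D.t D.k D.c * D.d0.phi (Sum.inl j)) = - D.ab s s' j := by
  rw [d0_phi_l, DT_two hne, E0_Dg2_ph h.st hs hs' hne (h.two j hj), ab]

lemma E0_DT_chi (h : D.Ok L) {s s' : σ} {j : ι} (hs : s ∈ D.St) (hs' : s' ∈ D.St) (hne : s ≠ s')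
    (hj : j ∈ D.J) :
    E0 (DT ℤ {s, s'} D.t D.k D.c * D.d0.chi (Sum.inl j)) = - (D.g j * D.ab s s' j) := by
  have e : DT ℤ {s, s'} D.t D.k D.c * D.d0.chi (Sum.inl j) =
      C (D.g j) * (DT ℤ {s, s'} D.t D.k D.c * ph (D.N j)) := by
    rw [d0_chi_l]; ring
  rw [e, E0_C_mul, DT_two hne, E0_Dg2_ph h.st hs hs' hne (h.two j hj), ab]
  ring

/-- the value of two items at two stars -/
noncomputable def ee (D : SDat Y ι σ) (s s' : σ) (j l : ι) : ℤ :=
  (dl D.t D.c s (D.N j) + dl D.t D.c s (D.N l)) *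
    (dl D.t D.c s' (D.N j) + dl D.t D.c s' (D.N l)) * eps2 D.t D.k D.c s s' (D.N j) (D.N l)

lemma E0_DT_phiphi_ll (h : D.Ok L) {s s' : σ} {j l : ι} (hs : s ∈ D.St) (hs' : s' ∈ D.St)
    (hne : s ≠ s') (hj : j ∈ D.J) (hl : l ∈ D.J) :
    E0 (DT ℤ {s, s'} D.t D.k D.c * (D.d0.phi (Sum.inl j) * D.d0.phi (Sum.inl l))) =
      D.ee s s' j l - D.ab s s' j - D.ab s s' l := by
  rw [d0_phi_l, d0_phi_l, DT_two hne, E0_Dg2_ph2 h.st hs hs' hne (h.two j hj) (h.two l hl), ab, ab,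
    ee]

lemma sub_two {s s' : σ} {S : Finset σ} (hs : s ∈ S) (hs' : s' ∈ S) : ({s, s'} : Finset σ) ⊆ S := by
  intro z hz
  rw [mem_insert, mem_singleton] at hz
  rcases hz with rfl | rfl <;> assumption

lemma E0_DT_phiphi_lr (h : D.Ok L) {s s' s'' : σ} {j : ι} (hs : s ∈ D.St) (hs' : s' ∈ D.St)
    (hs'' : s'' ∈ D.St) (hne : s ≠ s') (h1 : s'' ≠ s) (h2 : s'' ≠ s') (hj : j ∈ D.J) :
    E0 (DT ℤ {s, s'} D.t D.k D.c * (D.d0.phi (Sum.inl j) * D.d0.phi (Sum.inr s''))) =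
      3 * D.ab s s' j := by
  have hT := sub_two hs hs'
  have e0 : DT ℤ {s, s'} D.t D.k D.c * (D.d0.phi (Sum.inl j) * D.d0.phi (Sum.inr s'')) =
      (DT ℤ {s, s'} D.t D.k D.c * D.d0.phi (Sum.inl j)) * D.d0.phi (Sum.inr s'') := by ring
  by_cases g : Disjoint (D.N j) (VS D.t D.k D.c s'')
  · have hm : DT ℤ {s, s'} D.t D.k D.c * D.d0.phi (Sum.inl j) ∈
        supported ℤ (((VS D.t D.k D.c s ∪ VS D.t D.k D.c s') ∪ D.N j : Finset Y) : Set Y) := by
      rw [DT_two hne]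
      refine mul_mem (mul_mem (supported_mono ?_ (Dg_memVS s)) (supported_mono ?_ (Dg_memVS s')))
        (supported_mono ?_ (ph_mem _))
      · exact_mod_cast subset_union_left.trans subset_union_left
      · exact_mod_cast subset_union_right.trans subset_union_left
      · exact_mod_cast subset_union_right
    rw [e0, E0_mul_disj (disjoint_union_left.2 ⟨disjoint_union_left.2
        ⟨h.st.disj hs hs'' h1.symm, h.st.disj hs' hs'' h2.symm⟩, g⟩) hm
      (d0phi_mem s''), E0_DT_phi h hs hs' hne hj, d0_phi_r, E0_ph_kc h hs'']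
    ring
  · -- the item touches the third star, so it cannot touch both
    rw [Finset.not_disjoint_iff] at g
    obtain ⟨y, hy, hy''⟩ := g
    have key : Disjoint (D.N j ∪ VS D.t D.k D.c s'') (VS D.t D.k D.c s) ∨
        Disjoint (D.N j ∪ VS D.t D.k D.c s'') (VS D.t D.k D.c s') := by
      by_contra hc
      rw [not_or] at hc
      obtain ⟨c1, c2⟩ := hc
      rw [disjoint_union_left, not_and'] at c1 c2
      have c1 := c1 (h.st.disj hs'' hs h1)
      have c2 := c2 (h.st.disj hs'' hs' h2)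
      rw [Finset.not_disjoint_iff] at c1 c2
      obtain ⟨a, ha, ha'⟩ := c1
      obtain ⟨b, hb, hb'⟩ := c2
      have n1 : y ≠ a := fun e => (Finset.disjoint_left.1 (h.st.disj hs'' hs h1) hy'') (e ▸ ha')
      have n2 : y ≠ b := fun e => (Finset.disjoint_left.1 (h.st.disj hs'' hs' h2) hy'') (e ▸ hb')
      have n3 : a ≠ b := fun e => (Finset.disjoint_left.1 (h.st.disj hs hs' hne) ha') (e ▸ hb')
      have c3 : ({y, a, b} : Finset Y) ⊆ D.N j := by
        intro z hz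
        rw [mem_insert, mem_insert, mem_singleton] at hz
        rcases hz with rfl | rfl | rfl <;> assumption
      have c4 := card_le_card c3
      rw [card_insert_of_notMem (by simp [n1, n2]), card_pair n3] at c4
      have := h.two j hj
      omega
    have hP : D.d0.phi (Sum.inl j) * D.d0.phi (Sum.inr s'') ∈
        supported ℤ ((D.N j ∪ VS D.t D.k D.c s'' : Finset Y) : Set Y) :=
      mul_mem (supported_mono (by exact_mod_cast subset_union_left) (ph_mem _))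
        (supported_mono (by exact_mod_cast subset_union_right) (d0phi_mem s''))
    rcases key with k1 | k1
    · rw [E0_DT_disj h.st hT (mem_insert_self s {s'}) k1 hP]
      have := dl_disj (disjoint_union_left.1 k1).1
      rw [ab, this]
      ring
    · rw [E0_DT_disj h.st hT (by simp : s' ∈ ({s, s'} : Finset σ)) k1 hP]
      have := dl_disj (disjoint_union_left.1 k1).1
      rw [ab, this]
      ring

lemma E0_DT_phiphi_rr (h : D.Ok L) {s s' a b : σ} (hs : s ∈ D.St) (hs' : s' ∈ D.St)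
    (ha : a ∈ D.St) (hb : b ∈ D.St) (hne : s ≠ s') (h1 : a ≠ s) (h2 : b ≠ s) :
    E0 (DT ℤ {s, s'} D.t D.k D.c * (D.d0.phi (Sum.inr a) * D.d0.phi (Sum.inr b))) = 0 := by
  refine E0_DT_disj h.st (sub_two hs hs') (mem_insert_self s {s'})
    (U := VS D.t D.k D.c a ∪ VS D.t D.k D.c b)
    (disjoint_union_left.2 ⟨h.st.disj ha hs h1, h.st.disj hb hs h2⟩)
    (mul_mem (supported_mono (by exact_mod_cast subset_union_left) (d0phi_mem a))
      (supported_mono (by exact_mod_cast subset_union_right) (d0phi_mem b)))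

end SDat

end Pool.Gauss.TL
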