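import Pool.Agent.Work.MP_065141_co.K.ThreeLev6

/-!
# Disjoint stars: the four coefficients
-/

set_option autoImplicit false
set_option linter.unusedSectionVars false
open scoped Classical
open Finset MvPolynomial

namespace Pool.Gauss.TL

variable {Y ι σ κ : Type}

namespace SDat

variable {D : SDat Y ι σ} {L : Finset Y}

/-! ### the parts of the second order at energy zero -/

noncomputable def vHH (D : SDat Y ι σ) : ℤ :=
  ∑ p ∈ D.J.offDiag, D.H p.1 * D.H p.2 * dj (D.N p.1) (D.N p.2)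

noncomputable def vHo (D : SDat Y ι σ) : ℤ :=
  ∑ j ∈ D.J, ∑ s ∈ D.St, D.H j *
    (D.hx s * dj (D.N j) {D.k s, D.t s} - D.hz s * dj (D.N j) {D.k s, D.c s})

noncomputable def vOO (D : SDat Y ι σ) : ℤ := ∑ p ∈ D.St.offDiag, D.eta p.1 * D.eta p.2

noncomputable def vHK (D : SDat Y ι σ) : ℤ :=
  ∑ s ∈ D.St, ∑ j ∈ D.J, (D.H j + D.K j) * ta D.t D.k D.c s (D.N j)

noncomputable def vQ (D : SDat Y ι σ) : ℤ :=
  ∑ s ∈ D.St, ∑ p ∈ D.J.offDiag, D.H p.2 *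
    (ta D.t D.k D.c s (D.N p.2) - qq D.t D.k D.c s (D.N p.2) (D.N p.1))

noncomputable def vS (D : SDat Y ι σ) : ℤ :=
  ∑ p ∈ D.St.offDiag, ∑ j ∈ D.J, (D.so p.1 p.2 (D.N j) +
    D.H j * ta D.t D.k D.c p.1 (D.N j) *
      (1 - 2 ^ (({D.k p.2, D.c p.2} : Finset Y) \ D.N j).card))

noncomputable def vT (D : SDat Y ι σ) : ℤ :=
  ∑ p ∈ D.St.offDiag, (- 8 * ∑ j ∈ D.J, D.H j * D.ab p.1 p.2 j - 4 * ∑ j ∈ D.J, D.ab p.1 p.2 j -
    2 * ∑ j ∈ D.J, D.g j * D.ab p.1 p.2 j +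
    ∑ q ∈ D.J.offDiag, (D.ee p.1 p.2 q.1 q.2 - D.ab p.1 p.2 q.1 - D.ab p.1 p.2 q.2) +
    6 * ((D.St.card : ℤ) - 2) * ∑ j ∈ D.J, D.ab p.1 p.2 j)

lemma E0_mul_sum_offDiag (P : MvPolynomial Y ℤ) (S : Finset κ) (f : κ → κ → MvPolynomial Y ℤ) :
    E0 (P * ∑ p ∈ S.offDiag, f p.1 p.2) = ∑ p ∈ S.offDiag, E0 (P * f p.1 p.2) := by
  rw [mul_sum, map_sum]

/-- the pairs of first order items at no star -/
lemma part0 (h : D.Ok L) :
    E0 (∑ p ∈ (JT D.J D.St ∅).offDiag, D.d0.A p.1 * D.d0.A p.2) =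
      D.vHH + 2 * D.vHo + D.vOO := by
  rw [map_sum, JT, sdiff_empty,
    sum_offDiag_disjSum D.J D.St fun a b => E0 (D.d0.A a * D.d0.A b)]
  have e1 : ∑ p ∈ D.J.offDiag, E0 (D.d0.A (Sum.inl p.1) * D.d0.A (Sum.inl p.2)) = D.vHH := by
    apply sum_congr rfl
    intro p hp
    rw [mem_offDiag] at hp
    exact E0_AA_ll h hp.1 hp.2.1
  have e2 : ∑ j ∈ D.J, ∑ s ∈ D.St, (E0 (D.d0.A (Sum.inl j) * D.d0.A (Sum.inr s)) +
      E0 (D.d0.A (Sum.inr s) * D.d0.A (Sum.inl j))) = 2 * D.vHo := by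
    rw [vHo, mul_sum]
    apply sum_congr rfl
    intro j hj
    rw [mul_sum]
    apply sum_congr rfl
    intro s hs
    rw [mul_comm (D.d0.A (Sum.inr s)), E0_AA_lr h hj hs]
    ring
  have e3 : ∑ p ∈ D.St.offDiag, E0 (D.d0.A (Sum.inr p.1) * D.d0.A (Sum.inr p.2)) = D.vOO := by
    apply sum_congr rfl
    intro p hp
    rw [mem_offDiag] at hp
    exact E0_AA_rr h hp.1 hp.2.1 hp.2.2
  rw [e1, e2, e3]

/-- one star: first order numbers -/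
lemma part1A (h : D.Ok L) {s : σ} (hs : s ∈ D.St) :
    E0 (Dg ℤ (D.t s) (D.k s) (D.c s) * ∑ j ∈ JT D.J D.St {s}, D.d0.A j) =
      ∑ j ∈ D.J, D.H j * ta D.t D.k D.c s (D.N j) := by
  have h1 := Ec_DT_sum (J := D.J) h.st (T := {s}) (by rwa [singleton_subset_iff])
    (singleton_nonempty s) D.d0.A (fun s' _ => d0A_mem s') 0
  simp only [Ec_zero, DT_single] at h1
  rw [h1]
  exact sum_congr rfl fun j hj => E0_Dg_A h hs hj

lemma part1K (h : D.Ok L) {s : σ} (hs : s ∈ D.St) :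
    E0 (Dg ℤ (D.t s) (D.k s) (D.c s) * ∑ j ∈ JT D.J D.St {s}, D.d0.kp j) =
      ∑ j ∈ D.J, D.K j * ta D.t D.k D.c s (D.N j) := by
  have h1 := Ec_DT_sum (J := D.J) h.st (T := {s}) (by rwa [singleton_subset_iff])
    (singleton_nonempty s) D.d0.kp (fun s' hs' => h.supp0.kp' s' hs') 0
  simp only [Ec_zero, DT_single] at h1
  rw [h1]
  exact sum_congr rfl fun j hj => E0_Dg_kp h hs hj

lemma part1Q (h : D.Ok L) {s : σ} (hs : s ∈ D.St) :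
    E0 (Dg ℤ (D.t s) (D.k s) (D.c s) * ∑ p ∈ (JT D.J D.St {s}).offDiag,
      (D.d0.phi p.1 * D.d0.A p.2 + D.d0.A p.1 * D.d0.phi p.2)) =
      2 * ∑ p ∈ D.J.offDiag, D.H p.2 *
        (ta D.t D.k D.c s (D.N p.2) - qq D.t D.k D.c s (D.N p.2) (D.N p.1)) +
      2 * ∑ s' ∈ D.St \ {s}, ∑ j ∈ D.J, (D.so s s' (D.N j) +
        D.H j * ta D.t D.k D.c s (D.N j) *
          (1 - 2 ^ (({D.k s', D.c s'} : Finset Y) \ D.N j).card)) := by
  set P := Dg ℤ (D.t s) (D.k s) (D.c s) with hP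
  have e0 : E0 (P * ∑ p ∈ (JT D.J D.St {s}).offDiag,
      (D.d0.phi p.1 * D.d0.A p.2 + D.d0.A p.1 * D.d0.phi p.2)) =
      2 * ∑ p ∈ (JT D.J D.St {s}).offDiag, E0 (P * (D.d0.phi p.1 * D.d0.A p.2)) := by
    rw [E0_mul_sum_offDiag P _ fun a b => D.d0.phi a * D.d0.A b + D.d0.A a * D.d0.phi b]
    have e1 : ∀ a b, E0 (P * (D.d0.phi a * D.d0.A b + D.d0.A a * D.d0.phi b)) =
        E0 (P * (D.d0.phi a * D.d0.A b)) + E0 (P * (D.d0.phi b * D.d0.A a)) := by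
      intro a b
      rw [mul_add, map_add, mul_comm (D.d0.A a)]
    simp only [e1]
    rw [sum_add_distrib, ← sum_offDiag_swap (JT D.J D.St {s}) fun a b =>
      E0 (P * (D.d0.phi a * D.d0.A b))]
    ring
  rw [e0, JT, sum_offDiag_disjSum D.J (D.St \ {s}) fun a b => E0 (P * (D.d0.phi a * D.d0.A b))]
  have e1 : ∑ p ∈ D.J.offDiag, E0 (P * (D.d0.phi (Sum.inl p.1) * D.d0.A (Sum.inl p.2))) =
      ∑ p ∈ D.J.offDiag, D.H p.2 *
        (ta D.t D.k D.c s (D.N p.2) - qq D.t D.k D.c s (D.N p.2) (D.N p.1)) := by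
    apply sum_congr rfl
    intro p hp
    rw [mem_offDiag] at hp
    exact E0_Dg_phiA_ll h hs hp.2.1
  have e2 : ∑ j ∈ D.J, ∑ s' ∈ D.St \ {s}, (E0 (P * (D.d0.phi (Sum.inl j) * D.d0.A (Sum.inr s'))) +
      E0 (P * (D.d0.phi (Sum.inr s') * D.d0.A (Sum.inl j)))) =
      ∑ s' ∈ D.St \ {s}, ∑ j ∈ D.J, (D.so s s' (D.N j) +
        D.H j * ta D.t D.k D.c s (D.N j) *
          (1 - 2 ^ (({D.k s', D.c s'} : Finset Y) \ D.N j).card)) := by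
    rw [sum_comm]
    apply sum_congr rfl
    intro s' hs'
    rw [mem_sdiff, mem_singleton] at hs'
    apply sum_congr rfl
    intro j hj
    rw [hP, E0_Dg_phiA_lr h hs hs'.1 (Ne.symm hs'.2), E0_Dg_phiA_rl h hs hs'.1 (Ne.symm hs'.2) hj]
  have e3 : ∑ p ∈ (D.St \ {s}).offDiag,
      E0 (P * (D.d0.phi (Sum.inr p.1) * D.d0.A (Sum.inr p.2))) = 0 := by
    apply Finset.sum_eq_zero
    intro p hp
    rw [mem_offDiag, mem_sdiff, mem_sdiff, mem_singleton, mem_singleton] at hp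
    exact E0_Dg_phiA_rr h hs hp.1.1 hp.2.1.1 (Ne.symm hp.1.2) (Ne.symm hp.2.1.2)
  rw [e1, e2, e3]
  ring

/-- two stars -/
lemma part2 (h : D.Ok L) {s s' : σ} (hs : s ∈ D.St) (hs' : s' ∈ D.St) (hne : s ≠ s') :
    2 * E1 (DT ℤ {s, s'} D.t D.k D.c * ∑ j ∈ JT D.J D.St {s, s'}, D.d0.A j) +
      4 * E0 (DT ℤ {s, s'} D.t D.k D.c * ∑ j ∈ JT D.J D.St {s, s'}, D.d0.phi j) +
      2 * E0 (DT ℤ {s, s'} D.t D.k D.c * ∑ j ∈ JT D.J D.St {s, s'}, D.d0.chi j) +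
      E0 (DT ℤ {s, s'} D.t D.k D.c * ∑ p ∈ (JT D.J D.St {s, s'}).offDiag,
        D.d0.phi p.1 * D.d0.phi p.2) =
    - 8 * ∑ j ∈ D.J, D.H j * D.ab s s' j - 4 * ∑ j ∈ D.J, D.ab s s' j -
    2 * ∑ j ∈ D.J, D.g j * D.ab s s' j +
    ∑ q ∈ D.J.offDiag, (D.ee s s' q.1 q.2 - D.ab s s' q.1 - D.ab s s' q.2) +
    6 * ((D.St.card : ℤ) - 2) * ∑ j ∈ D.J, D.ab s s' j := by
  have hT := sub_two hs hs'
  have hn : ({s, s'} : Finset σ).Nonempty := insert_nonempty _ _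
  have a1 := Ec_DT_sum (J := D.J) h.st hT hn D.d0.A (fun a _ => d0A_mem a) 1
  have a2 := Ec_DT_sum (J := D.J) h.st hT hn D.d0.phi (fun a _ => d0phi_mem a) 0
  have a3 := Ec_DT_sum (J := D.J) h.st hT hn D.d0.chi (fun a ha => h.supp0.chi' a ha) 0
  simp only [Ec_zero, Ec_one] at a1 a2 a3
  have b1 : ∑ j ∈ D.J, E1 (DT ℤ {s, s'} D.t D.k D.c * D.d0.A (Sum.inl j)) =
      - 4 * ∑ j ∈ D.J, D.H j * D.ab s s' j := by
    rw [mul_sum]
    exact sum_congr rfl fun j hj => E1_DT_A h hs hs' hne hj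
  have b2 : ∑ j ∈ D.J, E0 (DT ℤ {s, s'} D.t D.k D.c * D.d0.phi (Sum.inl j)) =
      - ∑ j ∈ D.J, D.ab s s' j := by
    rw [← sum_neg_distrib]
    exact sum_congr rfl fun j hj => E0_DT_phi h hs hs' hne hj
  have b3 : ∑ j ∈ D.J, E0 (DT ℤ {s, s'} D.t D.k D.c * D.d0.chi (Sum.inl j)) =
      - ∑ j ∈ D.J, D.g j * D.ab s s' j := by
    rw [← sum_neg_distrib]
    exact sum_congr rfl fun j hj => E0_DT_chi h hs hs' hne hj
  have b4 : E0 (DT ℤ {s, s'} D.t D.k D.c * ∑ p ∈ (JT D.J D.St {s, s'}).offDiag,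
      D.d0.phi p.1 * D.d0.phi p.2) =
      ∑ q ∈ D.J.offDiag, (D.ee s s' q.1 q.2 - D.ab s s' q.1 - D.ab s s' q.2) +
      6 * ((D.St.card : ℤ) - 2) * ∑ j ∈ D.J, D.ab s s' j := by
    set P := DT ℤ {s, s'} D.t D.k D.c with hP
    rw [E0_mul_sum_offDiag P _ fun a b => D.d0.phi a * D.d0.phi b, JT,
      sum_offDiag_disjSum D.J (D.St \ {s, s'}) fun a b => E0 (P * (D.d0.phi a * D.d0.phi b))]
    have e1 : ∑ p ∈ D.J.offDiag, E0 (P * (D.d0.phi (Sum.inl p.1) * D.d0.phi (Sum.inl p.2))) =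
        ∑ q ∈ D.J.offDiag, (D.ee s s' q.1 q.2 - D.ab s s' q.1 - D.ab s s' q.2) := by
      apply sum_congr rfl
      intro p hp
      rw [mem_offDiag] at hp
      exact E0_DT_phiphi_ll h hs hs' hne hp.1 hp.2.1
    have e2 : ∑ j ∈ D.J, ∑ a ∈ D.St \ {s, s'},
        (E0 (P * (D.d0.phi (Sum.inl j) * D.d0.phi (Sum.inr a))) +
        E0 (P * (D.d0.phi (Sum.inr a) * D.d0.phi (Sum.inl j)))) =
        6 * ((D.St.card : ℤ) - 2) * ∑ j ∈ D.J, D.ab s s' j := by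
      rw [mul_sum]
      apply sum_congr rfl
      intro j hj
      have c1 : ∀ a ∈ D.St \ {s, s'}, (E0 (P * (D.d0.phi (Sum.inl j) * D.d0.phi (Sum.inr a))) +
        E0 (P * (D.d0.phi (Sum.inr a) * D.d0.phi (Sum.inl j)))) = 6 * D.ab s s' j := by
        intro a ha
        rw [mem_sdiff, mem_insert, mem_singleton, not_or] at ha
        rw [mul_comm (D.d0.phi (Sum.inr a)), hP,
          E0_DT_phiphi_lr h hs hs' ha.1 hne ha.2.1 ha.2.2 hj]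
        ring
      rw [sum_congr rfl c1, sum_const, card_sdiff_of_subset hT, card_pair hne, nsmul_eq_mul,
        Nat.cast_sub (by rw [← card_pair hne]; exact card_le_card hT)]
      push_cast
      ring
    have e3 : ∑ p ∈ (D.St \ {s, s'}).offDiag,
        E0 (P * (D.d0.phi (Sum.inr p.1) * D.d0.phi (Sum.inr p.2))) = 0 := by
      apply Finset.sum_eq_zero
      intro p hp
      rw [mem_offDiag, mem_sdiff, mem_sdiff, mem_insert, mem_insert, not_or, not_or] at hp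
      exact E0_DT_phiphi_rr h hs hs' hp.1.1 hp.2.1.1 hne hp.1.2.1 hp.2.1.2.1
    rw [e1, e2, e3, add_zero]
  rw [a1, a2, a3, b1, b2, b3, b4]
  ring

/-- **the coefficient of `w ^ 2 Z ^ 4` at energy zero** -/
theorem cf24_val (h : D.Ok L) {rho : ι ⊕ σ → MvPolynomial Y TA}
    (hr : ∀ j ∈ JT D.J D.St ∅, D.d0.Is j (rho j)) :
    4 * cfE 2 4 (Full D.J D.St D.t D.k D.c rho) =
      2 * D.vHH + 4 * D.vHo + 2 * D.vOO + 4 * D.vHK + 4 * D.vQ + 4 * D.vS + D.vT := by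
  have h0 := cf24_Full h.st h.supp0 hr
  have h1 : ∑ s ∈ D.St, (2 * E0 (Dg ℤ (D.t s) (D.k s) (D.c s) * ∑ j ∈ JT D.J D.St {s}, D.d0.A j) +
        2 * E0 (Dg ℤ (D.t s) (D.k s) (D.c s) * ∑ j ∈ JT D.J D.St {s}, D.d0.kp j) +
        E0 (Dg ℤ (D.t s) (D.k s) (D.c s) * ∑ p ∈ (JT D.J D.St {s}).offDiag,
          (D.d0.phi p.1 * D.d0.A p.2 + D.d0.A p.1 * D.d0.phi p.2))) =
      2 * D.vHK + 2 * D.vQ + 2 * D.vS := by
    have e1 : ∀ s ∈ D.St, (2 * E0 (Dg ℤ (D.t s) (D.k s) (D.c s) * ∑ j ∈ JT D.J D.St {s}, D.d0.A j) +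
        2 * E0 (Dg ℤ (D.t s) (D.k s) (D.c s) * ∑ j ∈ JT D.J D.St {s}, D.d0.kp j) +
        E0 (Dg ℤ (D.t s) (D.k s) (D.c s) * ∑ p ∈ (JT D.J D.St {s}).offDiag,
          (D.d0.phi p.1 * D.d0.A p.2 + D.d0.A p.1 * D.d0.phi p.2))) =
        2 * ∑ j ∈ D.J, (D.H j + D.K j) * ta D.t D.k D.c s (D.N j) +
        2 * ∑ p ∈ D.J.offDiag, D.H p.2 *
        (ta D.t D.k D.c s (D.N p.2) - qq D.t D.k D.c s (D.N p.2) (D.N p.1)) +
        2 * ∑ s' ∈ D.St \ {s}, ∑ j ∈ D.J, (D.so s s' (D.N j) +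
        D.H j * ta D.t D.k D.c s (D.N j) *
          (1 - 2 ^ (({D.k s', D.c s'} : Finset Y) \ D.N j).card)) := by
      intro s hs
      rw [part1A h hs, part1K h hs, part1Q h hs]
      simp only [add_mul, sum_add_distrib]
      ring
    rw [sum_congr rfl e1, sum_add_distrib, sum_add_distrib, ← mul_sum, ← mul_sum, ← mul_sum, vHK,
      vQ, vS, ← sum_offDiag_fst D.St fun s s' => ∑ j ∈ D.J, (D.so s s' (D.N j) +
        D.H j * ta D.t D.k D.c s (D.N j) *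
          (1 - 2 ^ (({D.k s', D.c s'} : Finset Y) \ D.N j).card))]
  have h2 := two_sum_powersetCard D.St fun T =>
    (2 * E1 (DT ℤ T D.t D.k D.c * ∑ j ∈ JT D.J D.St T, D.d0.A j) +
        4 * E0 (DT ℤ T D.t D.k D.c * ∑ j ∈ JT D.J D.St T, D.d0.phi j) +
        2 * E0 (DT ℤ T D.t D.k D.c * ∑ j ∈ JT D.J D.St T, D.d0.chi j) +
        E0 (DT ℤ T D.t D.k D.c * ∑ p ∈ (JT D.J D.St T).offDiag, D.d0.phi p.1 * D.d0.phi p.2))
  have h3 : ∑ p ∈ D.St.offDiag, (2 * E1 (DT ℤ {p.1, p.2} D.t D.k D.c *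
        ∑ j ∈ JT D.J D.St {p.1, p.2}, D.d0.A j) +
        4 * E0 (DT ℤ {p.1, p.2} D.t D.k D.c * ∑ j ∈ JT D.J D.St {p.1, p.2}, D.d0.phi j) +
        2 * E0 (DT ℤ {p.1, p.2} D.t D.k D.c * ∑ j ∈ JT D.J D.St {p.1, p.2}, D.d0.chi j) +
        E0 (DT ℤ {p.1, p.2} D.t D.k D.c * ∑ q ∈ (JT D.J D.St {p.1, p.2}).offDiag,
          D.d0.phi q.1 * D.d0.phi q.2)) = D.vT := by
    rw [vT]
    apply sum_congr rfl
    intro p hp
    rw [mem_offDiag] at hp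
    exact part2 h hp.1 hp.2.1 hp.2.2
  rw [h3] at h2
  rw [part0 h, h1] at h0
  linear_combination 2 * h0 + h2

end SDat

end Pool.Gauss.TL
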