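import Pool.Agent.Work.MP_065141_co.K.ThreeLev7

/-!
# Disjoint stars: the first order coefficients and the sums over the energies one
-/

set_option autoImplicit false
set_option linter.unusedSectionVars false
open scoped Classical
open Finset MvPolynomial

namespace Pool.Gauss.TL

variable {Y ι σ κ : Type}

namespace SDat

variable {D : SDat Y ι σ} {L : Finset Y}

/-! ### first order at energy zero -/

noncomputable def LL (D : SDat Y ι σ) (s : σ) : ℤ :=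
  ∑ j ∈ D.J, dl D.t D.c s (D.N j) * oms D.t D.k D.c s (D.N j)

noncomputable def tau (D : SDat Y ι σ) (s : σ) : ℤ :=
  ∑ j ∈ D.J, D.H j * ta D.t D.k D.c s (D.N j)

noncomputable def aa (D : SDat Y ι σ) (s s' : σ) : ℤ := ∑ j ∈ D.J, D.ab s s' j

noncomputable def bb (D : SDat Y ι σ) (s s' : σ) : ℤ := ∑ j ∈ D.J, D.H j * D.ab s s' j

lemma E0_A_l (h : D.Ok L) {j : ι} (hj : j ∈ D.J) : E0 (D.d0.A (Sum.inl j)) = D.H j := by
  rw [d0_A_l, E0_C_mul, E0_am]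
  exact H_sign h hj

lemma sum_Dg_phi (h : D.Ok L) {s : σ} (hs : s ∈ D.St) :
    ∑ j ∈ D.J, E0 (Dg ℤ (D.t s) (D.k s) (D.c s) * D.d0.phi (Sum.inl j)) = D.LL s :=
  sum_congr rfl fun j _ => E0_Dg_ph h.st hs (D.N j)

theorem cf12_val (h : D.Ok L) {rho : ι ⊕ σ → MvPolynomial Y TA}
    (hr : ∀ j ∈ JT D.J D.St ∅, D.d0.Is2 j (rho j)) :
    cfE 1 2 (Full D.J D.St D.t D.k D.c rho) =
      ∑ s ∈ D.St, D.LL s + (∑ j ∈ D.J, D.H j + ∑ s ∈ D.St, D.eta s) := by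
  have h0 := cf1_Full_one h.st h.supp0 hr 0
  rw [zero_add] at h0
  rw [h0, powersetCard_one, powersetCard_zero, sum_map, sum_singleton]
  congr 1
  · apply sum_congr rfl
    intro s hs
    have : DT ℤ (({s} : Finset σ)) D.t D.k D.c = Dg ℤ (D.t s) (D.k s) (D.c s) := DT_single _ _ _ s
    show ∑ j ∈ D.J, E0 (DT ℤ ({s} : Finset σ) D.t D.k D.c * D.d0.phi (Sum.inl j)) = D.LL s
    rw [this]
    exact sum_Dg_phi h hs
  · rw [DT_empty, one_mul, map_sum, sum_JT, sdiff_empty]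
    congr 1
    · exact sum_congr rfl fun j hj => E0_A_l h hj
    · exact sum_congr rfl fun s hs => E0_A_r h hs

/-- the sum of the first order numbers with one star in operator mode -/
lemma sum_Dg_A (h : D.Ok L) {s : σ} (hs : s ∈ D.St) :
    E0 (Dg ℤ (D.t s) (D.k s) (D.c s) * ∑ j ∈ JT D.J D.St {s}, D.d0.A j) = D.tau s := part1A h hs

theorem cf13_val (h : D.Ok L) {rho : ι ⊕ σ → MvPolynomial Y TA}
    (hr : ∀ j ∈ JT D.J D.St ∅, D.d0.Is2 j (rho j)) :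
    2 * cfE 1 3 (Full D.J D.St D.t D.k D.c rho) =
      - ∑ p ∈ D.St.offDiag, D.aa p.1 p.2 + 2 * ∑ s ∈ D.St, D.tau s := by
  have h0 := cf1_Full_one h.st h.supp0 hr 1
  have h1 := two_sum_powersetCard D.St fun T =>
    ∑ j ∈ D.J, E0 (DT ℤ T D.t D.k D.c * D.d0.phi (Sum.inl j))
  have h2 : ∑ p ∈ D.St.offDiag, ∑ j ∈ D.J,
      E0 (DT ℤ {p.1, p.2} D.t D.k D.c * D.d0.phi (Sum.inl j)) =
      - ∑ p ∈ D.St.offDiag, D.aa p.1 p.2 := by
    rw [← sum_neg_distrib]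
    apply sum_congr rfl
    intro p hp
    rw [mem_offDiag] at hp
    rw [aa, ← sum_neg_distrib]
    exact sum_congr rfl fun j hj => E0_DT_phi h hp.1 hp.2.1 hp.2.2 hj
  have h3 : ∑ T ∈ D.St.powersetCard 1, E0 (DT ℤ T D.t D.k D.c * ∑ j ∈ JT D.J D.St T, D.d0.A j) =
      ∑ s ∈ D.St, D.tau s := by
    rw [powersetCard_one, sum_map]
    apply sum_congr rfl
    intro s hs
    show E0 (DT ℤ ({s} : Finset σ) D.t D.k D.c * ∑ j ∈ JT D.J D.St {s}, D.d0.A j) = D.tau s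
    rw [DT_single, sum_Dg_A h hs]
  rw [h2] at h1
  rw [show 1 + 2 = 3 from rfl, show 1 + 1 = 2 from rfl, h3] at h0
  linear_combination 2 * h0 + h1

theorem cf14_val (h : D.Ok L) {rho : ι ⊕ σ → MvPolynomial Y TA}
    (hr : ∀ j ∈ JT D.J D.St ∅, D.d0.Is2 j (rho j)) :
    2 * cfE 1 4 (Full D.J D.St D.t D.k D.c rho) = ∑ p ∈ D.St.offDiag, D.bb p.1 p.2 := by
  have h0 := cf1_Full_one h.st h.supp0 hr 2
  have h1 := two_sum_powersetCard D.St fun T =>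
    E0 (DT ℤ T D.t D.k D.c * ∑ j ∈ JT D.J D.St T, D.d0.A j)
  have h2 : ∑ p ∈ D.St.offDiag,
      E0 (DT ℤ {p.1, p.2} D.t D.k D.c * ∑ j ∈ JT D.J D.St {p.1, p.2}, D.d0.A j) =
      ∑ p ∈ D.St.offDiag, D.bb p.1 p.2 := by
    apply sum_congr rfl
    intro p hp
    rw [mem_offDiag] at hp
    have a1 := Ec_DT_sum (J := D.J) h.st (sub_two hp.1 hp.2.1) (insert_nonempty _ _) D.d0.A
      (fun a _ => d0A_mem a) 0
    simp only [Ec_zero] at a1
    rw [a1, bb]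
    exact sum_congr rfl fun j hj => E0_DT_A h hp.1 hp.2.1 hp.2.2 hj
  have h3 : ∑ T ∈ D.St.powersetCard 3, ∑ j ∈ D.J,
      E0 (DT ℤ T D.t D.k D.c * D.d0.phi (Sum.inl j)) = 0 := by
    apply Finset.sum_eq_zero
    intro T hT
    rw [mem_powersetCard] at hT
    apply Finset.sum_eq_zero
    intro j hj
    have := h.two j hj
    obtain ⟨s, hs, h4⟩ := exists_untouched h.st hT.1 (U := D.N j) (by omega)
    exact E0_DT_disj h.st hT.1 hs h4 (ph_mem _)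
  rw [show 2 + 2 = 4 from rfl, show 2 + 1 = 3 from rfl, h3] at h0
  rw [h2] at h1
  linear_combination 2 * h0 + h1

/-! ### energy one -/

lemma d1_phi_l (y : Y) (j : ι) :
    (D.d1 y).phi (Sum.inl j) = if y ∈ D.N j then 1 else ph (D.N j) := rfl
lemma d1_A_l (y : Y) (j : ι) :
    (D.d1 y).A (Sum.inl j) = C (D.H j) * am ((D.N j).erase y) := rfl

/-- the sign of the item with one vertex frozen out -/
noncomputable def sy (y : Y) (N : Finset Y) : ℤ := if y ∈ N then -1 else 1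

lemma E0_Dg_A1 (h : D.Ok L) {s : σ} {j : ι} (hs : s ∈ D.St) (hj : j ∈ D.J) {y : Y}
    (hy : y ∉ VS D.t D.k D.c s) :
    E0 (Dg ℤ (D.t s) (D.k s) (D.c s) * (D.d1 y).A (Sum.inl j)) =
      D.H j * ta D.t D.k D.c s (D.N j) * sy y (D.N j) := by
  have e : Dg ℤ (D.t s) (D.k s) (D.c s) * (D.d1 y).A (Sum.inl j) =
      C (D.H j) * (Dg ℤ (D.t s) (D.k s) (D.c s) * am ((D.N j).erase y)) := by
    rw [d1_A_l]; ring
  have e2 : ta D.t D.k D.c s ((D.N j).erase y) = ta D.t D.k D.c s (D.N j) := by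
    have g : ∀ z ∈ VS D.t D.k D.c s, (z ∈ (D.N j).erase y ↔ z ∈ D.N j) := by
      intro z hz
      rw [mem_erase]
      exact ⟨fun g => g.2, fun g => ⟨fun e => hy (e ▸ hz), g⟩⟩
    unfold ta dl
    simp only [g _ (VS_sub_t s), g _ (VS_sub_c s), g _ (VS_sub_k s)]
  rw [e, E0_C_mul, E0_Dg_am h.st hs, e2]
  by_cases h1 : (D.N j).card = 1
  · rw [h.H0 j hj h1]
    ring
  · have h2 : (D.N j).card = 2 := by
      have := h.one j hj
      have := h.two j hj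
      omega
    rw [sy]
    split_ifs with g
    · rw [card_erase_of_mem g, h2]; norm_num
    · rw [erase_eq_of_notMem g, h2]; norm_num

lemma E0_DT_phi1 (h : D.Ok L) {s s' : σ} {j : ι} (hs : s ∈ D.St) (hs' : s' ∈ D.St) (hne : s ≠ s')
    (hj : j ∈ D.J) {y : Y} (hy : y ∉ VS D.t D.k D.c s) (hy' : y ∉ VS D.t D.k D.c s') :
    E0 (DT ℤ {s, s'} D.t D.k D.c * (D.d1 y).phi (Sum.inl j)) = - D.ab s s' j := by
  rw [d1_phi_l]
  split_ifs with g
  · rw [mul_one, DT_two hne, E0_Dg2_one h.st hs hs' hne, ab]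
    have : dl D.t D.c s (D.N j) * dl D.t D.c s' (D.N j) = 0 := by
      by_contra hc
      have c1 := left_ne_zero_of_mul hc
      have c2 := right_ne_zero_of_mul hc
      have c3 := (sub_of_dl h.st hs hs' hne (h.two j hj) c1 c2).1 g
      rw [mem_union] at c3
      rcases c3 with c3 | c3
      · exact hy c3
      · exact hy' c3
    rw [this, neg_zero]
  · exact E0_DT_phi h hs hs' hne hj

lemma sum_Dg_A1 (h : D.Ok L) {S : Finset σ} (hS : S ⊆ D.St) {s : σ} (hs : s ∈ S) {y : Y}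
    (hy : y ∉ VS D.t D.k D.c s) :
    E0 (Dg ℤ (D.t s) (D.k s) (D.c s) * ∑ j ∈ JT D.J S {s}, (D.d1 y).A j) =
      ∑ j ∈ D.J, D.H j * ta D.t D.k D.c s (D.N j) * sy y (D.N j) := by
  have hSt : Stars S D.t D.k D.c := ⟨fun a ha => h.st.tk a (hS ha), fun a ha => h.st.kc a (hS ha),
    fun a ha => h.st.tc a (hS ha), fun a ha b hb => h.st.dis a (hS ha) b (hS hb)⟩
  have h1 := Ec_DT_sum (J := D.J) hSt (T := {s}) (by rwa [singleton_subset_iff])
    (singleton_nonempty s) (D.d1 y).A (fun s' _ => dA_mem s' y) 0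
  simp only [Ec_zero, DT_single] at h1
  rw [h1]
  exact sum_congr rfl fun j hj => E0_Dg_A1 h (hS hs) hj hy

lemma Stars.mono {St S : Finset σ} {t k c : σ → Y} (h : Stars St t k c) (hS : S ⊆ St) :
    Stars S t k c := ⟨fun a ha => h.tk a (hS ha), fun a ha => h.kc a (hS ha),
    fun a ha => h.tc a (hS ha), fun a ha b hb => h.dis a (hS ha) b (hS hb)⟩

/-- the part of the two star terms -/
lemma two_T_phi1 (h : D.Ok L) {S : Finset σ} (hS : S ⊆ D.St) {y : Y}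
    (hy : ∀ s ∈ S, y ∉ VS D.t D.k D.c s) :
    2 * ∑ T ∈ S.powersetCard 2, ∑ j ∈ D.J,
      E0 (DT ℤ T D.t D.k D.c * (D.d1 y).phi (Sum.inl j)) =
      - ∑ p ∈ S.offDiag, D.aa p.1 p.2 := by
  rw [two_sum_powersetCard S fun T =>
    ∑ j ∈ D.J, E0 (DT ℤ T D.t D.k D.c * (D.d1 y).phi (Sum.inl j)), ← sum_neg_distrib]
  apply sum_congr rfl
  intro p hp
  rw [mem_offDiag] at hp
  rw [aa, ← sum_neg_distrib]
  exact sum_congr rfl fun j hj => E0_DT_phi1 h (hS hp.1) (hS hp.2.1) hp.2.2 hj (hy _ hp.1)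
    (hy _ hp.2.1)

/-- energy one at a vertex in no star -/
theorem yOut (h : D.Ok L) {y : Y} (hy : ∀ s ∈ D.St, y ∉ VS D.t D.k D.c s)
    {rho : ι ⊕ σ → MvPolynomial Y TA} (hr : ∀ j ∈ JT D.J D.St ∅, (D.d1 y).Is2 j (rho j)) :
    2 * cfE 1 3 (Full D.J D.St D.t D.k D.c rho) = - ∑ p ∈ D.St.offDiag, D.aa p.1 p.2 +
      2 * ∑ s ∈ D.St, ∑ j ∈ D.J, D.H j * ta D.t D.k D.c s (D.N j) * sy y (D.N j) := by
  have h0 := cf1_Full_one h.st (h.supp1 y (subset_refl _)) hr 1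
  have h1 := two_T_phi1 h (subset_refl _) hy
  have h3 : ∑ T ∈ D.St.powersetCard 1,
      E0 (DT ℤ T D.t D.k D.c * ∑ j ∈ JT D.J D.St T, (D.d1 y).A j) =
      ∑ s ∈ D.St, ∑ j ∈ D.J, D.H j * ta D.t D.k D.c s (D.N j) * sy y (D.N j) := by
    rw [powersetCard_one, sum_map]
    apply sum_congr rfl
    intro s hs
    show E0 (DT ℤ ({s} : Finset σ) D.t D.k D.c * ∑ j ∈ JT D.J D.St {s}, (D.d1 y).A j) = _
    rw [DT_single, sum_Dg_A1 h (subset_refl _) hs (hy s hs)]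
  rw [show 1 + 2 = 3 from rfl, show 1 + 1 = 2 from rfl, h3] at h0
  linear_combination 2 * h0 + h1

/-- energy one at a vertex of a star -/
theorem yIn (h : D.Ok L) {s : σ} (hs : s ∈ D.St) {y : Y} (hy : y ∈ VS D.t D.k D.c s)
    {rho : ι ⊕ σ → MvPolynomial Y TA}
    (hr : ∀ j ∈ JT D.J (D.St.erase s) ∅, (D.d1 y).Is2 j (rho j))
    {f : MvPolynomial Y TA} {f1 f2 : MvPolynomial Y ℤ}
    (hf : IsFrame f (D.frU s y) (D.frV s y) f1 f2 (D.frP s y))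
    (hf1 : f1 ∈ supported ℤ (VS D.t D.k D.c s : Set Y))
    (hf2 : f2 ∈ supported ℤ (VS D.t D.k D.c s : Set Y)) :
    2 * cfE 1 3 (f * Full D.J (D.St.erase s) D.t D.k D.c rho) =
      2 * E0 (D.frP s y) +
      2 * (∑ j ∈ D.J, E0 (D.frV s y * (D.d1 y).phi (Sum.inl j)) +
        ∑ s' ∈ D.St.erase s, E0 (D.frV s y * (D.d1 y).phi (Sum.inr s'))) +
      2 * (∑ j ∈ D.J, E0 (D.frU s y * (D.d1 y).A (Sum.inl j)) +
        ∑ s' ∈ D.St.erase s, E0 (D.frU s y * (D.d1 y).A (Sum.inr s'))) +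
      2 * ∑ s' ∈ D.St.erase s, (∑ j ∈ D.J, E0 (Dg ℤ (D.t s') (D.k s') (D.c s') *
        (D.frU s y * (D.d1 y).phi (Sum.inl j))) +
        ∑ j ∈ D.J, D.H j * ta D.t D.k D.c s' (D.N j) * sy y (D.N j)) -
      ∑ p ∈ (D.St.erase s).offDiag, D.aa p.1 p.2 := by
  have hsub : D.St.erase s ⊆ D.St := erase_subset s D.St
  have hU : ∀ s' ∈ D.St.erase s, Disjoint (VS D.t D.k D.c s) (VS D.t D.k D.c s') := by
    intro s' hs'
    rw [mem_erase] at hs'
    exact h.st.disj hs hs'.2 hs'.1.symm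
  have hy' : ∀ s' ∈ D.St.erase s, y ∉ VS D.t D.k D.c s' := fun s' hs' g =>
    (Finset.disjoint_left.1 (hU s' hs') hy) g
  have h0 := cf1_frame (Stars.mono h.st hsub) (h.supp1 y hsub) hU hr hf (frU_mem h hs y)
    (frV_mem s y) hf1 hf2 (frP_mem s y)
  have h1 := two_T_phi1 h hsub hy'
  rw [h0, E0_mul_sum, E0_mul_sum, sum_JT, sum_JT, sdiff_empty]
  have h2 : ∑ s' ∈ D.St.erase s, (∑ j ∈ D.J, E0 (Dg ℤ (D.t s') (D.k s') (D.c s') *
        (D.frU s y * (D.d1 y).phi (Sum.inl j))) +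
        E0 (Dg ℤ (D.t s') (D.k s') (D.c s') * ∑ j ∈ JT D.J (D.St.erase s) {s'}, (D.d1 y).A j)) =
      ∑ s' ∈ D.St.erase s, (∑ j ∈ D.J, E0 (Dg ℤ (D.t s') (D.k s') (D.c s') *
        (D.frU s y * (D.d1 y).phi (Sum.inl j))) +
        ∑ j ∈ D.J, D.H j * ta D.t D.k D.c s' (D.N j) * sy y (D.N j)) := by
    apply sum_congr rfl
    intro s' hs'
    rw [sum_Dg_A1 h hsub hs' (hy' s' hs')]
  rw [h2]
  linear_combination h1

/-! ### the sums over the energies one -/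

/-- the vertices of the stars -/
noncomputable def UU (D : SDat Y ι σ) : Finset Y := D.St.biUnion fun s => VS D.t D.k D.c s

lemma VS_card (h : D.Ok L) {s : σ} (hs : s ∈ D.St) : (VS D.t D.k D.c s).card = 3 := by
  rw [VS, card_insert_of_notMem, card_pair (h.st.kc s hs)]
  rw [mem_insert, mem_singleton, not_or]
  exact ⟨h.st.tk s hs, h.st.tc s hs⟩

lemma pwd (h : D.Ok L) : (D.St : Set σ).PairwiseDisjoint fun s => VS D.t D.k D.c s :=
  fun _ hs _ hs' hne => h.st.disj hs hs' hne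

lemma UU_card (h : D.Ok L) : D.UU.card = 3 * D.St.card := by
  rw [UU, card_biUnion (pwd h), sum_congr rfl fun s hs => VS_card h hs, sum_const, smul_eq_mul,
    mul_comm]

lemma UU_sub (h : D.Ok L) : D.UU ⊆ L := by
  rw [UU, biUnion_subset]
  exact h.slev

lemma notMem_UU {y : Y} (hy : y ∈ L \ D.UU) : ∀ s ∈ D.St, y ∉ VS D.t D.k D.c s := by
  intro s hs g
  rw [mem_sdiff, UU, mem_biUnion] at hy
  exact hy.2 ⟨s, hs, g⟩

/-- summation over the vertices outside a star -/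
lemma sum_outside (h : D.Ok L) (F : σ → Y → ℤ) :
    ∑ y ∈ L \ D.UU, ∑ s ∈ D.St, F s y +
      ∑ s ∈ D.St, ∑ y ∈ VS D.t D.k D.c s, ∑ s' ∈ D.St.erase s, F s' y =
      ∑ s ∈ D.St, ∑ y ∈ L \ VS D.t D.k D.c s, F s y := by
  have e1 : ∑ s ∈ D.St, ∑ y ∈ VS D.t D.k D.c s, ∑ s' ∈ D.St.erase s, F s' y =
      ∑ s' ∈ D.St, ∑ s ∈ D.St.erase s', ∑ y ∈ VS D.t D.k D.c s, F s' y := by
    have e2 : ∀ s ∈ D.St, ∑ y ∈ VS D.t D.k D.c s, ∑ s' ∈ D.St.erase s, F s' y =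
        ∑ s' ∈ D.St, ∑ y ∈ VS D.t D.k D.c s, F s' y - ∑ y ∈ VS D.t D.k D.c s, F s y := by
      intro s hs
      rw [sum_comm, ← add_sum_erase D.St (fun s' => ∑ y ∈ VS D.t D.k D.c s, F s' y) hs]
      ring
    have e3 : ∀ s' ∈ D.St, ∑ s ∈ D.St.erase s', ∑ y ∈ VS D.t D.k D.c s, F s' y =
        ∑ s ∈ D.St, ∑ y ∈ VS D.t D.k D.c s, F s' y - ∑ y ∈ VS D.t D.k D.c s', F s' y := by
      intro s' hs'
      rw [← add_sum_erase D.St (fun s => ∑ y ∈ VS D.t D.k D.c s, F s' y) hs']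
      ring
    rw [sum_congr rfl e2, sum_congr rfl e3, sum_sub_distrib, sum_sub_distrib, sum_comm]
  rw [e1, sum_comm, ← sum_add_distrib]
  apply sum_congr rfl
  intro s hs
  have e4 : L \ VS D.t D.k D.c s = (L \ D.UU) ∪
      (D.St.erase s).biUnion (fun s' => VS D.t D.k D.c s') := by
    ext y
    rw [mem_sdiff, mem_union, mem_sdiff, mem_biUnion, UU, mem_biUnion]
    constructor
    · rintro ⟨h1, h2⟩
      by_cases h3 : ∃ s' ∈ D.St, y ∈ VS D.t D.k D.c s'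
      · obtain ⟨s', h4, h5⟩ := h3
        exact Or.inr ⟨s', mem_erase.2 ⟨fun e => h2 (e ▸ h5), h4⟩, h5⟩
      · exact Or.inl ⟨h1, h3⟩
    · rintro (⟨h1, h2⟩ | ⟨s', h1, h2⟩)
      · exact ⟨h1, fun h3 => h2 ⟨s, hs, h3⟩⟩
      · rw [mem_erase] at h1
        exact ⟨h.slev s' h1.2 h2, Finset.disjoint_left.1 (h.st.disj h1.2 hs h1.1) h2⟩
  rw [e4, sum_union, sum_biUnion]
  · intro a ha b hb hne
    exact h.st.disj (mem_of_mem_erase ha) (mem_of_mem_erase hb) hne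
  · rw [Finset.disjoint_left]
    intro y h1 h2
    rw [mem_biUnion] at h2
    obtain ⟨s', h3, h4⟩ := h2
    exact notMem_UU h1 s' (mem_of_mem_erase h3) h4

/-- summation over the stars not in a pair -/
lemma sum_erase_offDiag (S : Finset σ) (G : σ → σ → ℤ) :
    ∑ s ∈ S, ∑ p ∈ (S.erase s).offDiag, G p.1 p.2 =
      ((S.card : ℤ) - 2) * ∑ p ∈ S.offDiag, G p.1 p.2 := by
  have e1 : ∀ s ∈ S, ∑ p ∈ (S.erase s).offDiag, G p.1 p.2 =
      ∑ p ∈ S.offDiag, G p.1 p.2 - ∑ b ∈ S, G s b - ∑ a ∈ S, G a s + 2 * G s s := by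
    intro s hs
    rw [sum_offDiag_eq, sum_offDiag_eq]
    have e2 : ∀ f : σ → ℤ, ∑ a ∈ S.erase s, f a = ∑ a ∈ S, f a - f s := by
      intro f
      rw [← add_sum_erase S f hs]
      ring
    simp only [e2, sum_sub_distrib]
    ring
  rw [sum_congr rfl e1, sum_add_distrib, sum_sub_distrib, sum_sub_distrib, sum_const,
    ← mul_sum, nsmul_eq_mul]
  have e3 := sum_offDiag_eq S G
  have e4 : ∑ s ∈ S, ∑ a ∈ S, G a s = ∑ a ∈ S, ∑ s ∈ S, G a s := sum_comm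
  rw [e4]
  linear_combination 2 * e3

/-- the number of vertices outside a star -/
lemma sum_sy (h : D.Ok L) {s : σ} (hs : s ∈ D.St) {j : ι} (hj : j ∈ D.J) :
    ∑ y ∈ L \ VS D.t D.k D.c s, sy y (D.N j) =
      (L.card : ℤ) - 3 - 2 * (D.N j \ VS D.t D.k D.c s).card := by
  have e1 : ∀ y ∈ L \ VS D.t D.k D.c s, sy y (D.N j) = 1 - 2 * (if y ∈ D.N j then 1 else 0) := by
    intro y _
    rw [sy]
    split_ifs <;> norm_num
  have e2 : (L \ VS D.t D.k D.c s).filter (fun y => y ∈ D.N j) = D.N j \ VS D.t D.k D.c s := by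
    ext y
    rw [mem_filter, mem_sdiff, mem_sdiff]
    constructor
    · rintro ⟨⟨-, h1⟩, h2⟩
      exact ⟨h2, h1⟩
    · rintro ⟨h1, h2⟩
      exact ⟨⟨h.lev j hj h1, h2⟩, h1⟩
  rw [sum_congr rfl e1, sum_sub_distrib, ← mul_sum, ← sum_filter, e2, sum_const, sum_const,
    card_sdiff_of_subset (h.slev s hs), VS_card h hs, nsmul_eq_mul, nsmul_eq_mul, mul_one, mul_one,
    Nat.cast_sub (by rw [← VS_card h hs]; exact card_le_card (h.slev s hs))]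
  push_cast
  ring

/-- the value of the sum over the energies one, second order -/
noncomputable def v1 (D : SDat Y ι σ) (n : ℤ) : ℤ :=
  ∑ s ∈ D.St, (2 * (2 - D.hx s - D.hz s) + 2 * (∑ j ∈ D.J, nu D.t D.k D.c s (D.N j) +
      3 * ((D.St.card : ℤ) - 1)) + 2 * ∑ j ∈ D.J, D.H j * uu D.t D.k D.c s (D.N j) +
      2 * ∑ j ∈ D.J, D.H j * ta D.t D.k D.c s (D.N j) *
        (n - 3 - 2 * (D.N j \ VS D.t D.k D.c s).card)) +
    (8 - (n - 6)) * ∑ p ∈ D.St.offDiag, D.aa p.1 p.2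

/-- **the sum over the energies one**, coefficient of `w Z ^ 3` -/
theorem sum_one_val (h : D.Ok L) (rho : Y → ι ⊕ σ → MvPolynomial Y TA)
    (hr : ∀ y ∈ L \ D.UU, ∀ j ∈ JT D.J D.St ∅, (D.d1 y).Is2 j (rho y j))
    (hr' : ∀ s ∈ D.St, ∀ y ∈ VS D.t D.k D.c s, ∀ j ∈ JT D.J (D.St.erase s) ∅,
      (D.d1 y).Is2 j (rho y j))
    (f : σ → Y → MvPolynomial Y TA) (f1 f2 : σ → Y → MvPolynomial Y ℤ)
    (hf : ∀ s ∈ D.St, ∀ y ∈ VS D.t D.k D.c s,
      IsFrame (f s y) (D.frU s y) (D.frV s y) (f1 s y) (f2 s y) (D.frP s y))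
    (hf1 : ∀ s ∈ D.St, ∀ y ∈ VS D.t D.k D.c s,
      f1 s y ∈ supported ℤ (VS D.t D.k D.c s : Set Y))
    (hf2 : ∀ s ∈ D.St, ∀ y ∈ VS D.t D.k D.c s,
      f2 s y ∈ supported ℤ (VS D.t D.k D.c s : Set Y)) :
    2 * (∑ y ∈ L \ D.UU, cfE 1 3 (Full D.J D.St D.t D.k D.c (rho y)) +
      ∑ s ∈ D.St, ∑ y ∈ VS D.t D.k D.c s,
        cfE 1 3 (f s y * Full D.J (D.St.erase s) D.t D.k D.c (rho y))) =
      D.v1 L.card := by
  set AA := ∑ p ∈ D.St.offDiag, D.aa p.1 p.2 with hAA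
  set F : σ → Y → ℤ := fun s y =>
    ∑ j ∈ D.J, D.H j * ta D.t D.k D.c s (D.N j) * sy y (D.N j) with hF
  have e1 : 2 * ∑ y ∈ L \ D.UU, cfE 1 3 (Full D.J D.St D.t D.k D.c (rho y)) =
      - ((L.card : ℤ) - 3 * D.St.card) * AA + 2 * ∑ y ∈ L \ D.UU, ∑ s ∈ D.St, F s y := by
    rw [mul_sum, sum_congr rfl fun y hy => yOut h (notMem_UU hy) (hr y hy), sum_add_distrib,
      sum_const, ← mul_sum, nsmul_eq_mul, card_sdiff_of_subset (UU_sub h), UU_card h,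
      Nat.cast_sub (by rw [← UU_card h]; exact card_le_card (UU_sub h))]
    push_cast
    ring
  have e2 : ∀ s ∈ D.St, 2 * ∑ y ∈ VS D.t D.k D.c s,
        cfE 1 3 (f s y * Full D.J (D.St.erase s) D.t D.k D.c (rho y)) =
      2 * (2 - D.hx s - D.hz s) + 2 * (∑ j ∈ D.J, nu D.t D.k D.c s (D.N j) +
      3 * ((D.St.card : ℤ) - 1)) + 2 * ∑ j ∈ D.J, D.H j * uu D.t D.k D.c s (D.N j) +
      (8 * ∑ s' ∈ D.St.erase s, D.aa s s' +
        2 * ∑ y ∈ VS D.t D.k D.c s, ∑ s' ∈ D.St.erase s, F s' y) -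
      3 * ∑ p ∈ (D.St.erase s).offDiag, D.aa p.1 p.2 := by
    intro s hs
    rw [mul_sum, sum_congr rfl fun y hy => yIn h hs hy (hr' s hs y hy) (hf s hs y hy)
      (hf1 s hs y hy) (hf2 s hs y hy)]
    rw [sum_sub_distrib, sum_const, VS_card h hs, sum_add_distrib, sum_add_distrib,
      sum_add_distrib, ← mul_sum, ← mul_sum, ← mul_sum, ← mul_sum, sum_add_distrib,
      sum_add_distrib, sum_frP h hs]
    have a1 : ∑ y ∈ VS D.t D.k D.c s, ∑ j ∈ D.J, E0 (D.frV s y * (D.d1 y).phi (Sum.inl j)) =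
        ∑ j ∈ D.J, nu D.t D.k D.c s (D.N j) := by
      rw [sum_comm]
      exact sum_congr rfl fun j _ => sum_frV_phi h hs j
    have a2 : ∑ y ∈ VS D.t D.k D.c s, ∑ s' ∈ D.St.erase s,
        E0 (D.frV s y * (D.d1 y).phi (Sum.inr s')) = 3 * ((D.St.card : ℤ) - 1) := by
      rw [sum_comm, sum_congr rfl fun s' hs' => sum_frV_own h hs (mem_of_mem_erase hs')
        (ne_of_mem_erase hs').symm, sum_const, card_erase_of_mem hs, nsmul_eq_mul,
        Nat.cast_sub (card_pos.2 ⟨s, hs⟩)]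
      push_cast
      ring
    have a3 : ∑ y ∈ VS D.t D.k D.c s, ∑ j ∈ D.J, E0 (D.frU s y * (D.d1 y).A (Sum.inl j)) =
        ∑ j ∈ D.J, D.H j * uu D.t D.k D.c s (D.N j) := by
      rw [sum_comm]
      exact sum_congr rfl fun j hj => sum_frU_A h hs hj
    have a4 : ∑ y ∈ VS D.t D.k D.c s, ∑ s' ∈ D.St.erase s,
        E0 (D.frU s y * (D.d1 y).A (Sum.inr s')) = 0 := by
      rw [sum_comm]
      exact Finset.sum_eq_zero fun s' hs' => sum_frU_own h hs (mem_of_mem_erase hs')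
        (ne_of_mem_erase hs').symm
    have a5 : ∑ y ∈ VS D.t D.k D.c s, ∑ s' ∈ D.St.erase s, (∑ j ∈ D.J,
        E0 (Dg ℤ (D.t s') (D.k s') (D.c s') * (D.frU s y * (D.d1 y).phi (Sum.inl j))) +
        ∑ j ∈ D.J, D.H j * ta D.t D.k D.c s' (D.N j) * sy y (D.N j)) =
        4 * ∑ s' ∈ D.St.erase s, D.aa s s' +
        ∑ y ∈ VS D.t D.k D.c s, ∑ s' ∈ D.St.erase s, F s' y := by
      simp only [sum_add_distrib]
      congr 1
      rw [sum_comm, mul_sum]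
      apply sum_congr rfl
      intro s' hs'
      rw [sum_comm, aa, mul_sum]
      exact sum_congr rfl fun j hj => sum_frU_Dg h hs (mem_of_mem_erase hs')
        (ne_of_mem_erase hs').symm hj
    rw [a1, a2, a3, a4, a5, nsmul_eq_mul]
    push_cast
    ring
  have e3 := sum_outside h F
  have e4 := sum_erase_offDiag D.St D.aa
  have e5 : ∑ s ∈ D.St, ∑ s' ∈ D.St.erase s, D.aa s s' = AA := by
    rw [hAA, sum_offDiag_fst D.St D.aa]
    apply sum_congr rfl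
    intro s _
    rw [sdiff_singleton_eq_erase]
  have e6 : ∀ s ∈ D.St, ∑ y ∈ L \ VS D.t D.k D.c s, F s y =
      ∑ j ∈ D.J, D.H j * ta D.t D.k D.c s (D.N j) *
        ((L.card : ℤ) - 3 - 2 * (D.N j \ VS D.t D.k D.c s).card) := by
    intro s hs
    rw [hF, sum_comm]
    apply sum_congr rfl
    intro j hj
    rw [← mul_sum, sum_sy h hs hj]
  rw [sum_congr rfl e6] at e3
  have e7 : 2 * ∑ s ∈ D.St, ∑ y ∈ VS D.t D.k D.c s,
        cfE 1 3 (f s y * Full D.J (D.St.erase s) D.t D.k D.c (rho y)) =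
      ∑ s ∈ D.St, (2 * (2 - D.hx s - D.hz s) + 2 * (∑ j ∈ D.J, nu D.t D.k D.c s (D.N j) +
      3 * ((D.St.card : ℤ) - 1)) + 2 * ∑ j ∈ D.J, D.H j * uu D.t D.k D.c s (D.N j)) +
      8 * ∑ s ∈ D.St, ∑ s' ∈ D.St.erase s, D.aa s s' +
      2 * ∑ s ∈ D.St, ∑ y ∈ VS D.t D.k D.c s, ∑ s' ∈ D.St.erase s, F s' y -
      3 * ∑ s ∈ D.St, ∑ p ∈ (D.St.erase s).offDiag, D.aa p.1 p.2 := by
    rw [mul_sum, sum_congr rfl e2]
    simp only [sum_sub_distrib, sum_add_distrib, ← mul_sum]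
    ring
  have e8 : D.v1 L.card = ∑ s ∈ D.St, (2 * (2 - D.hx s - D.hz s) +
      2 * (∑ j ∈ D.J, nu D.t D.k D.c s (D.N j) +
      3 * ((D.St.card : ℤ) - 1)) + 2 * ∑ j ∈ D.J, D.H j * uu D.t D.k D.c s (D.N j)) +
      2 * ∑ s ∈ D.St, ∑ j ∈ D.J, D.H j * ta D.t D.k D.c s (D.N j) *
        ((L.card : ℤ) - 3 - 2 * (D.N j \ VS D.t D.k D.c s).card) +
      (8 - ((L.card : ℤ) - 6)) * AA := by
    rw [v1, sum_add_distrib, ← mul_sum D.St (fun s => ∑ j ∈ D.J, D.H j * ta D.t D.k D.c s (D.N j) *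
        ((L.card : ℤ) - 3 - 2 * (D.N j \ VS D.t D.k D.c s).card))]
  rw [mul_add, e1, e7, e8, e5, e4]
  linear_combination 2 * e3

end SDat

end Pool.Gauss.TL
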