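import Pool.Agent.Work.MP_065141_co.K.ThreeLev8

/-!
# Disjoint stars: the local second order number

With `F21 = ∑ LL + ∑ H + ∑ eta`, `F32 = - M - 1/2 ∑ aa + ∑ tau`, `F43 = 1/2 ∑ bb` the coefficient
`F42` is `LOC + Γ F32 + 1/2 F21 ^ 2`, `Γ = n - ∑ (2 ^ |N| - 1) - 3 M`, where `LOC` is a sum of terms
in which all items and stars meet.
-/

set_option autoImplicit false
set_option linter.unusedSectionVars false
open scoped Classical
open Finset MvPolynomial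

namespace Pool.Gauss.TL

variable {Y ι σ κ : Type}

namespace SDat

variable {D : SDat Y ι σ} {L : Finset Y}

/-! ### definitions -/

/-- `2 ^ |N| - 1` -/
def om (D : SDat Y ι σ) (j : ι) : ℤ := 2 ^ (D.N j).card - 1

/-- pairs of meeting items with first order numbers -/
noncomputable def lHH (D : SDat Y ι σ) : ℤ :=
  ∑ p ∈ D.J.offDiag, D.H p.1 * D.H p.2 * (1 - dj (D.N p.1) (D.N p.2))

/-- items meeting the edges of a star -/
noncomputable def lHo (D : SDat Y ι σ) : ℤ :=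
  ∑ j ∈ D.J, ∑ s ∈ D.St, D.H j *
    (D.hx s * (1 - dj (D.N j) {D.k s, D.t s}) - D.hz s * (1 - dj (D.N j) {D.k s, D.c s}))

/-- number of subsets of the vertices of an item which meet the star (at `t`, `c`), all subsets if
the item is at the centre -/
noncomputable def cst (t k c : σ → Y) (s : σ) (N : Finset Y) : ℤ :=
  if k s ∈ N then 2 ^ N.card else 2 ^ N.card - 2 ^ (N \ {t s, c s}).card

/-- the constant part of a star -/
noncomputable def lC (D : SDat Y ι σ) (s : σ) : ℤ :=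
  1 - D.hx s - D.hz s - ∑ j ∈ D.J, cst D.t D.k D.c s (D.N j)

/-- the coefficient of the first order number of an item at a star -/
noncomputable def cX (D : SDat Y ι σ) (s : σ) (l : ι) : ℤ :=
  (4 - 2 * ((D.N l \ VS D.t D.k D.c s).card : ℤ)) * ta D.t D.k D.c s (D.N l) +
    uu D.t D.k D.c s (D.N l) - dl D.t D.c s (D.N l) * oms D.t D.k D.c s (D.N l) +
    ∑ j ∈ D.J \ {l}, (2 ^ (D.N j).card * ta D.t D.k D.c s (D.N l) -
      qq D.t D.k D.c s (D.N l) (D.N j) - dl D.t D.c s (D.N j) * oms D.t D.k D.c s (D.N j)) +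
    ∑ s' ∈ D.St \ {s}, (4 - 2 ^ (({D.k s', D.c s'} : Finset Y) \ D.N l).card) *
      ta D.t D.k D.c s (D.N l)

/-- an item between two stars which meets an edge of the second star -/
noncomputable def lSo (D : SDat Y ι σ) (s s' : σ) : ℤ :=
  ∑ j ∈ D.J, dl D.t D.c s (D.N j) *
    (D.hx s' * (1 - dj (D.N j) {D.k s', D.t s'}) - D.hz s' * (1 - dj (D.N j) {D.k s', D.c s'}))

/-- the coupling of two stars -/
noncomputable def lP (D : SDat Y ι σ) (s s' : σ) : ℤ :=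
  2 * D.aa s s' - ∑ j ∈ D.J, D.g j * D.ab s s' j -
    D.aa s s' * ∑ l ∈ D.J, (2 ^ (D.N l).card -
      2 ^ (D.N l \ (VS D.t D.k D.c s ∪ VS D.t D.k D.c s')).card) -
    ∑ q ∈ D.J.offDiag, dl D.t D.c s (D.N q.1) * dl D.t D.c s' (D.N q.2) *
      (oms D.t D.k D.c s (D.N q.1) * oms D.t D.k D.c s' (D.N q.2) -
        eps2 D.t D.k D.c s s' (D.N q.1) (D.N q.2))

/-- four times the local second order number -/
noncomputable def loc4 (D : SDat Y ι σ) : ℤ :=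
  - 2 * ∑ j ∈ D.J, D.H j ^ 2 - 2 * ∑ s ∈ D.St, D.eta s ^ 2 - 2 * D.lHH - 4 * D.lHo +
    ∑ s ∈ D.St, (4 * D.lC s - 2 * D.LL s ^ 2 - 4 * D.LL s * D.eta s) +
    4 * ∑ s ∈ D.St, ∑ l ∈ D.J, (D.H l * D.cX s l + D.K l * ta D.t D.k D.c s (D.N l)) -
    4 * ∑ p ∈ D.St.offDiag, D.lSo p.1 p.2 + 2 * ∑ p ∈ D.St.offDiag, D.lP p.1 p.2 -
    8 * ∑ p ∈ D.St.offDiag, D.bb p.1 p.2

/-! ### facts about one item -/

lemma H_om (h : D.Ok L) {j : ι} (hj : j ∈ D.J) : D.H j * D.om j = 3 * D.H j := by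
  by_cases h1 : (D.N j).card = 1
  · rw [h.H0 j hj h1]; ring
  · have h2 : (D.N j).card = 2 := by
      have := h.one j hj
      have := h.two j hj
      omega
    rw [om, h2]; ring

lemma nu_eq (s : σ) (j : ι) :
    nu D.t D.k D.c s (D.N j) = D.om j - cst D.t D.k D.c s (D.N j) := by
  unfold nu om cst
  split_ifs <;> ring

/-- if two stars are coupled by the item -/
lemma ab_cases (h : D.Ok L) {s s' : σ} (hs : s ∈ D.St) (hs' : s' ∈ D.St) (hne : s ≠ s')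
    {j : ι} (hj : j ∈ D.J) : D.ab s s' j = 0 ∨
      (D.N j ⊆ VS D.t D.k D.c s ∪ VS D.t D.k D.c s' ∧
      (D.N j \ VS D.t D.k D.c s).card = 1 ∧ (D.N j \ VS D.t D.k D.c s').card = 1) := by
  by_cases h0 : D.ab s s' j = 0
  · exact Or.inl h0
  right
  have c1 := left_ne_zero_of_mul h0
  have c2 := right_ne_zero_of_mul h0
  obtain ⟨g1, y, hy, y', hy', hyy, e⟩ := sub_of_dl h.st hs hs' hne (h.two j hj) c1 c2
  have hd := h.st.disj hs hs' hne
  have m1 : y ∈ VS D.t D.k D.c s := mem_VS_of_tc hy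
  have m2 : y' ∈ VS D.t D.k D.c s' := mem_VS_of_tc hy'
  have n1 : y ∉ VS D.t D.k D.c s' := Finset.disjoint_left.1 hd m1
  have n2 : y' ∉ VS D.t D.k D.c s := fun g => (Finset.disjoint_left.1 hd g) m2
  refine ⟨g1, ?_, ?_⟩
  · have : D.N j \ VS D.t D.k D.c s = {y'} := by
      rw [e]
      ext z
      simp only [mem_sdiff, mem_insert, mem_singleton]
      constructor
      · rintro ⟨rfl | rfl, g⟩
        · exact absurd m1 g
        · rfl
      · rintro rfl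
        exact ⟨Or.inr rfl, n2⟩
    rw [this, card_singleton]
  · have : D.N j \ VS D.t D.k D.c s' = {y} := by
      rw [e]
      ext z
      simp only [mem_sdiff, mem_insert, mem_singleton]
      constructor
      · rintro ⟨rfl | rfl, g⟩
        · rfl
        · exact absurd m2 g
      · rintro rfl
        exact ⟨Or.inl rfl, n1⟩
    rw [this, card_singleton]

lemma ab_eps (h : D.Ok L) {s s' : σ} (hs : s ∈ D.St) (hs' : s' ∈ D.St) (hne : s ≠ s')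
    {j : ι} (hj : j ∈ D.J) (l : ι) :
    D.ab s s' j * eps2 D.t D.k D.c s s' (D.N j) (D.N l) =
      D.ab s s' j * 2 ^ (D.N l \ (VS D.t D.k D.c s ∪ VS D.t D.k D.c s')).card := by
  rcases ab_cases h hs hs' hne hj with h0 | ⟨h1, -, -⟩
  · rw [h0, zero_mul, zero_mul]
  · congr 1
    rw [eps2]
    have e : (D.N j ∪ D.N l) \ (VS D.t D.k D.c s ∪ VS D.t D.k D.c s') =
        D.N l \ (VS D.t D.k D.c s ∪ VS D.t D.k D.c s') := by
      ext y
      rw [mem_sdiff, mem_sdiff, mem_union (s := D.N j)]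
      constructor
      · rintro ⟨g1 | g1, g2⟩
        · exact absurd (h1 g1) g2
        · exact ⟨g1, g2⟩
      · rintro ⟨g1, g2⟩
        exact ⟨Or.inr g1, g2⟩
    rw [e, ← prod_const]
    apply prod_congr rfl
    intro y hy
    rw [mem_sdiff] at hy
    have g1 : id1 (D.N j) y = 0 := by
      rw [id1, if_neg fun g => hy.2 (h1 g)]
    have g2 : id1 (D.N l) y = 1 := by
      rw [id1, if_pos hy.1]
    rw [g1, g2]
    norm_num

lemma eps2_comm (s s' : σ) (N N' : Finset Y) (t k c : σ → Y) :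
    eps2 t k c s s' N N' = eps2 t k c s s' N' N := by
  rw [eps2, eps2, union_comm N N']
  exact prod_congr rfl fun y _ => by ring

lemma ab_oms (h : D.Ok L) {s s' : σ} (hs : s ∈ D.St) (hs' : s' ∈ D.St) (hne : s ≠ s')
    {j : ι} (hj : j ∈ D.J) :
    (dl D.t D.c s (D.N j) * oms D.t D.k D.c s (D.N j)) *
      (dl D.t D.c s' (D.N j) * oms D.t D.k D.c s' (D.N j)) = 4 * D.ab s s' j := by
  have e : (dl D.t D.c s (D.N j) * oms D.t D.k D.c s (D.N j)) *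
      (dl D.t D.c s' (D.N j) * oms D.t D.k D.c s' (D.N j)) =
      D.ab s s' j * (oms D.t D.k D.c s (D.N j) * oms D.t D.k D.c s' (D.N j)) := by
    rw [ab]; ring
  rw [e]
  rcases ab_cases h hs hs' hne hj with h0 | ⟨-, h1, h2⟩
  · rw [h0]; ring
  · rw [oms, oms, h1, h2]; ring

lemma ab_pow (h : D.Ok L) {s s' : σ} (hs : s ∈ D.St) (hs' : s' ∈ D.St) (hne : s ≠ s')
    {j : ι} (hj : j ∈ D.J) :
    D.ab s s' j * 2 ^ (D.N j \ (VS D.t D.k D.c s ∪ VS D.t D.k D.c s')).card = D.ab s s' j :=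
  dl2_pow h.st hs hs' hne (h.two j hj)

/-- one edge of another star -/
lemma dl_edge (h : D.Ok L) {s : σ} {j : ι} (hj : j ∈ D.J) {E : Finset Y}
    (hE : Disjoint E (VS D.t D.k D.c s)) :
    dl D.t D.c s (D.N j) * 2 ^ (D.N j \ (VS D.t D.k D.c s ∪ E)).card =
      dl D.t D.c s (D.N j) * (oms D.t D.k D.c s (D.N j) - (1 - dj (D.N j) E)) := by
  by_cases h0 : dl D.t D.c s (D.N j) = 0
  · rw [h0, zero_mul, zero_mul]
  congr 1
  have h1 : ((D.N j \ VS D.t D.k D.c s).card) ≤ 1 := by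
    have h2 := h.two j hj
    have h3 := card_split (D.N j) (VS D.t D.k D.c s)
    have h4 : 0 < (D.N j ∩ VS D.t D.k D.c s).card := by
      rw [card_pos]
      rcases mem_of_dl h0 with g | g
      · exact ⟨_, mem_inter.2 ⟨g, VS_sub_t s⟩⟩
      · exact ⟨_, mem_inter.2 ⟨g, VS_sub_c s⟩⟩
    omega
  rw [dj, oms]
  split_ifs with g
  · have : D.N j \ (VS D.t D.k D.c s ∪ E) = D.N j \ VS D.t D.k D.c s := by
      ext y
      rw [mem_sdiff, mem_sdiff, mem_union]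
      constructor
      · rintro ⟨g1, g2⟩
        exact ⟨g1, fun g3 => g2 (Or.inl g3)⟩
      · rintro ⟨g1, g2⟩
        refine ⟨g1, ?_⟩
        rintro (g3 | g3)
        · exact g2 g3
        · exact (Finset.disjoint_left.1 g g1) g3
    rw [this]
    ring
  · rw [Finset.not_disjoint_iff] at g
    obtain ⟨y, hy, hyE⟩ := g
    have hy2 : y ∈ D.N j \ VS D.t D.k D.c s :=
      mem_sdiff.2 ⟨hy, Finset.disjoint_left.1 hE hyE⟩
    have h5 : (D.N j \ VS D.t D.k D.c s).card = 1 := le_antisymm h1 (card_pos.2 ⟨y, hy2⟩)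
    obtain ⟨z, hz⟩ := card_eq_one.1 h5
    have h7 : D.N j \ (VS D.t D.k D.c s ∪ E) = (D.N j \ VS D.t D.k D.c s) \ E := by
      rw [sdiff_sdiff_left]
      rfl
    rw [h5]
    have h8 : (D.N j \ (VS D.t D.k D.c s ∪ E)).card = 0 := by
      rw [h7, hz, card_eq_zero, sdiff_eq_empty_iff_subset, singleton_subset_iff]
      rw [hz, mem_singleton] at hy2
      rwa [← hy2]
    rw [h8]
    norm_num

/-! ### the parts -/

lemma vHH_eq : D.vHH = (∑ j ∈ D.J, D.H j) ^ 2 - ∑ j ∈ D.J, D.H j ^ 2 - D.lHH := by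
  have h1 := sum_offDiag_mul D.J D.H D.H
  have h2 : D.lHH = ∑ p ∈ D.J.offDiag, D.H p.1 * D.H p.2 - D.vHH := by
    rw [lHH, vHH, ← sum_sub_distrib]
    exact sum_congr rfl fun p _ => by ring
  have h3 : ∑ j ∈ D.J, D.H j * D.H j = ∑ j ∈ D.J, D.H j ^ 2 :=
    sum_congr rfl fun j _ => by ring
  rw [h3] at h1
  linear_combination h1 + h2

lemma vHo_eq : D.vHo = (∑ j ∈ D.J, D.H j) * (∑ s ∈ D.St, D.eta s) - D.lHo := by
  rw [sum_mul_sum, vHo, lHo, ← sum_sub_distrib]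
  apply sum_congr rfl
  intro j _
  rw [← sum_sub_distrib]
  exact sum_congr rfl fun s _ => by rw [eta]; ring

lemma vOO_eq : D.vOO = (∑ s ∈ D.St, D.eta s) ^ 2 - ∑ s ∈ D.St, D.eta s ^ 2 := by
  have h1 := sum_offDiag_mul D.St D.eta D.eta
  have h3 : ∑ s ∈ D.St, D.eta s * D.eta s = ∑ s ∈ D.St, D.eta s ^ 2 :=
    sum_congr rfl fun j _ => by ring
  rw [h3] at h1
  rw [vOO, h1]
  ring

/-- the products of two items at two stars -/
noncomputable def de (D : SDat Y ι σ) (s s' : σ) : ℤ :=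
  ∑ q ∈ D.J.offDiag, dl D.t D.c s (D.N q.1) * dl D.t D.c s' (D.N q.2) *
    eps2 D.t D.k D.c s s' (D.N q.1) (D.N q.2)

lemma sum_ee (h : D.Ok L) {s s' : σ} (hs : s ∈ D.St) (hs' : s' ∈ D.St) (hne : s ≠ s') :
    ∑ q ∈ D.J.offDiag, D.ee s s' q.1 q.2 =
      2 * (D.aa s s' * ∑ l ∈ D.J, 2 ^ (D.N l \ (VS D.t D.k D.c s ∪ VS D.t D.k D.c s')).card) -
      2 * D.aa s s' + 2 * D.de s s' := by
  have e1 : ∀ j l, D.ee s s' j l =
      D.ab s s' j * eps2 D.t D.k D.c s s' (D.N j) (D.N l) +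
      D.ab s s' l * eps2 D.t D.k D.c s s' (D.N l) (D.N j) +
      dl D.t D.c s (D.N j) * dl D.t D.c s' (D.N l) * eps2 D.t D.k D.c s s' (D.N j) (D.N l) +
      dl D.t D.c s (D.N l) * dl D.t D.c s' (D.N j) * eps2 D.t D.k D.c s s' (D.N l) (D.N j) := by
    intro j l
    rw [ee, ab, ab, eps2_comm s s' (D.N l) (D.N j)]
    ring
  simp only [e1]
  rw [sum_add_distrib, sum_add_distrib, sum_add_distrib,
    ← sum_offDiag_swap D.J fun j l => D.ab s s' j * eps2 D.t D.k D.c s s' (D.N j) (D.N l),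
    ← sum_offDiag_swap D.J fun j l => dl D.t D.c s (D.N j) * dl D.t D.c s' (D.N l) *
      eps2 D.t D.k D.c s s' (D.N j) (D.N l)]
  have e2 : ∑ q ∈ D.J.offDiag, D.ab s s' q.1 * eps2 D.t D.k D.c s s' (D.N q.1) (D.N q.2) =
      D.aa s s' * ∑ l ∈ D.J, 2 ^ (D.N l \ (VS D.t D.k D.c s ∪ VS D.t D.k D.c s')).card -
        D.aa s s' := by
    have e3 := sum_offDiag_mul D.J (D.ab s s')
      fun l => (2 ^ (D.N l \ (VS D.t D.k D.c s ∪ VS D.t D.k D.c s')).card : ℤ)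
    have e4 : ∑ x ∈ D.J, D.ab s s' x * 2 ^ (D.N x \ (VS D.t D.k D.c s ∪ VS D.t D.k D.c s')).card =
        D.aa s s' := sum_congr rfl fun j hj => ab_pow h hs hs' hne hj
    rw [e4] at e3
    rw [aa] at e3 ⊢
    rw [← e3]
    apply sum_congr rfl
    intro q hq
    rw [mem_offDiag] at hq
    exact ab_eps h hs hs' hne hq.1 q.2
  rw [e2, de]
  ring

lemma sum_LLLL (h : D.Ok L) {s s' : σ} (hs : s ∈ D.St) (hs' : s' ∈ D.St) (hne : s ≠ s') :
    ∑ q ∈ D.J.offDiag, dl D.t D.c s (D.N q.1) * dl D.t D.c s' (D.N q.2) *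
      (oms D.t D.k D.c s (D.N q.1) * oms D.t D.k D.c s' (D.N q.2)) =
      D.LL s * D.LL s' - 4 * D.aa s s' := by
  have e3 := sum_offDiag_mul D.J (fun j => dl D.t D.c s (D.N j) * oms D.t D.k D.c s (D.N j))
    fun j => dl D.t D.c s' (D.N j) * oms D.t D.k D.c s' (D.N j)
  have e4 : ∑ x ∈ D.J, (dl D.t D.c s (D.N x) * oms D.t D.k D.c s (D.N x)) *
      (dl D.t D.c s' (D.N x) * oms D.t D.k D.c s' (D.N x)) = 4 * D.aa s s' := by
    rw [aa, mul_sum]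
    exact sum_congr rfl fun j hj => ab_oms h hs hs' hne hj
  rw [e4] at e3
  rw [LL, LL, ← e3]
  exact sum_congr rfl fun q _ => by ring

/-- one pair of stars -/
lemma vT_pair (h : D.Ok L) {s s' : σ} (hs : s ∈ D.St) (hs' : s' ∈ D.St) (hne : s ≠ s') :
    - 8 * ∑ j ∈ D.J, D.H j * D.ab s s' j - 4 * ∑ j ∈ D.J, D.ab s s' j -
    2 * ∑ j ∈ D.J, D.g j * D.ab s s' j +
    ∑ q ∈ D.J.offDiag, (D.ee s s' q.1 q.2 - D.ab s s' q.1 - D.ab s s' q.2) +
    6 * ((D.St.card : ℤ) - 2) * ∑ j ∈ D.J, D.ab s s' j =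
    2 * D.lP s s' - 8 * D.bb s s' +
      (6 * (D.St.card : ℤ) - 28 + 2 * ∑ j ∈ D.J, D.om j) * D.aa s s' +
      2 * (D.LL s * D.LL s') := by
  have e1 := sum_ee h hs hs' hne
  have e2 := sum_LLLL h hs hs' hne
  have e3 : ∑ q ∈ D.J.offDiag, dl D.t D.c s (D.N q.1) * dl D.t D.c s' (D.N q.2) *
      (oms D.t D.k D.c s (D.N q.1) * oms D.t D.k D.c s' (D.N q.2) -
        eps2 D.t D.k D.c s s' (D.N q.1) (D.N q.2)) =
      (D.LL s * D.LL s' - 4 * D.aa s s') - D.de s s' := by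
    rw [← e2, de, ← sum_sub_distrib]
    exact sum_congr rfl fun q _ => by ring
  have e4 : ∑ q ∈ D.J.offDiag, D.ab s s' q.1 = (D.J.card : ℤ) * D.aa s s' - D.aa s s' := by
    have := sum_offDiag_mul D.J (D.ab s s') fun _ => 1
    simp only [mul_one, sum_const, nsmul_eq_mul] at this
    rw [this, aa]
    ring
  have e5 : ∑ q ∈ D.J.offDiag, D.ab s s' q.2 = (D.J.card : ℤ) * D.aa s s' - D.aa s s' := by
    rw [← e4]
    exact (sum_offDiag_swap D.J fun a b => D.ab s s' a).symm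
  have e6 : ∑ l ∈ D.J, (2 ^ (D.N l).card -
      2 ^ (D.N l \ (VS D.t D.k D.c s ∪ VS D.t D.k D.c s')).card) =
      (∑ j ∈ D.J, D.om j + D.J.card) -
        ∑ l ∈ D.J, (2 ^ (D.N l \ (VS D.t D.k D.c s ∪ VS D.t D.k D.c s')).card : ℤ) := by
    rw [sum_sub_distrib]
    congr 1
    have : ∀ j ∈ D.J, D.om j = 2 ^ (D.N j).card - 1 := fun j _ => rfl
    rw [sum_congr rfl this, sum_sub_distrib]
    simp
  rw [lP, e3, e6, sum_sub_distrib, sum_sub_distrib, e1, e4, e5, bb]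
  have e7 : ∑ j ∈ D.J, D.ab s s' j = D.aa s s' := rfl
  rw [e7]
  ring

lemma vT_eq (h : D.Ok L) : D.vT = 2 * ∑ p ∈ D.St.offDiag, D.lP p.1 p.2 -
      8 * ∑ p ∈ D.St.offDiag, D.bb p.1 p.2 +
      (6 * (D.St.card : ℤ) - 28 + 2 * ∑ j ∈ D.J, D.om j) * ∑ p ∈ D.St.offDiag, D.aa p.1 p.2 +
      2 * ((∑ s ∈ D.St, D.LL s) ^ 2 - ∑ s ∈ D.St, D.LL s ^ 2) := by
  have e1 : D.vT = ∑ p ∈ D.St.offDiag, (2 * D.lP p.1 p.2 - 8 * D.bb p.1 p.2 +
      (6 * (D.St.card : ℤ) - 28 + 2 * ∑ j ∈ D.J, D.om j) * D.aa p.1 p.2 +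
      2 * (D.LL p.1 * D.LL p.2)) := by
    rw [vT]
    apply sum_congr rfl
    intro p hp
    rw [mem_offDiag] at hp
    exact vT_pair h hp.1 hp.2.1 hp.2.2
  have e2 := sum_offDiag_mul D.St D.LL D.LL
  have e3 : ∑ j ∈ D.St, D.LL j * D.LL j = ∑ j ∈ D.St, D.LL j ^ 2 :=
    sum_congr rfl fun j _ => by ring
  rw [e3] at e2
  rw [e1, sum_add_distrib, sum_add_distrib, sum_sub_distrib, ← mul_sum, ← mul_sum, ← mul_sum,
    ← mul_sum, e2]
  ring

lemma sum_so (h : D.Ok L) {s s' : σ} (hs : s ∈ D.St) (hs' : s' ∈ D.St) (hne : s ≠ s') :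
    ∑ j ∈ D.J, D.so s s' (D.N j) = D.LL s * D.eta s' - D.lSo s s' := by
  rw [LL, sum_mul, lSo, ← sum_sub_distrib]
  apply sum_congr rfl
  intro j hj
  have e1 := dl_edge h (s := s) hj (disj_kt h hs hs' hne)
  have e2 := dl_edge h (s := s) hj (disj_kc h hs hs' hne)
  rw [so, eta]
  linear_combination D.hx s' * e1 - D.hz s' * e2

/-- the sum of the coefficients of the first order numbers at a star -/
lemma sum_cX (h : D.Ok L) {s : σ} (hs : s ∈ D.St) :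
    ∑ l ∈ D.J, D.H l * D.cX s l =
      (∑ j ∈ D.J, D.om j + 3 * (D.St.card : ℤ) - 2) * D.tau s -
      2 * ∑ l ∈ D.J, D.H l * ta D.t D.k D.c s (D.N l) * (D.N l \ VS D.t D.k D.c s).card +
      ∑ l ∈ D.J, D.H l * uu D.t D.k D.c s (D.N l) +
      ∑ p ∈ D.J.offDiag, D.H p.2 *
        (ta D.t D.k D.c s (D.N p.2) - qq D.t D.k D.c s (D.N p.2) (D.N p.1)) -
      D.LL s * ∑ l ∈ D.J, D.H l +
      ∑ s' ∈ D.St \ {s}, ∑ l ∈ D.J, D.H l * ta D.t D.k D.c s (D.N l) *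
        (1 - 2 ^ (({D.k s', D.c s'} : Finset Y) \ D.N l).card) := by
  set T := fun l : ι => ta D.t D.k D.c s (D.N l) with hT
  set W := fun j : ι => dl D.t D.c s (D.N j) * oms D.t D.k D.c s (D.N j) with hW
  have e1 : ∑ l ∈ D.J, D.H l * ∑ j ∈ D.J \ {l}, (2 ^ (D.N j).card * T l -
      qq D.t D.k D.c s (D.N l) (D.N j) - W j) =
      ∑ p ∈ D.J.offDiag, D.H p.2 * (T p.2 - qq D.t D.k D.c s (D.N p.2) (D.N p.1)) +
      ((∑ j ∈ D.J, D.om j) * (∑ l ∈ D.J, D.H l * T l) - 3 * ∑ l ∈ D.J, D.H l * T l) -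
      ((∑ j ∈ D.J, W j) * (∑ l ∈ D.J, D.H l) - ∑ l ∈ D.J, W l * D.H l) := by
    have a1 : ∑ l ∈ D.J, D.H l * ∑ j ∈ D.J \ {l}, (2 ^ (D.N j).card * T l -
      qq D.t D.k D.c s (D.N l) (D.N j) - W j) =
      ∑ p ∈ D.J.offDiag, D.H p.1 * (2 ^ (D.N p.2).card * T p.1 -
      qq D.t D.k D.c s (D.N p.1) (D.N p.2) - W p.2) := by
      rw [sum_offDiag_fst D.J fun l j => D.H l * (2 ^ (D.N j).card * T l -
        qq D.t D.k D.c s (D.N l) (D.N j) - W j)]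
      exact sum_congr rfl fun l _ => by rw [mul_sum]
    have a2 := sum_offDiag_swap D.J fun l j => D.H l * (2 ^ (D.N j).card * T l -
      qq D.t D.k D.c s (D.N l) (D.N j) - W j)
    have a3 := sum_offDiag_mul D.J D.om fun l => D.H l * T l
    have a4 := sum_offDiag_mul D.J W D.H
    have a5 : ∑ x ∈ D.J, D.om x * (D.H x * T x) = 3 * ∑ l ∈ D.J, D.H l * T l := by
      rw [mul_sum]
      apply sum_congr rfl
      intro j hj
      have := H_om h hj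
      linear_combination T j * this
    rw [a5] at a3
    rw [a1, a2, ← a3, ← a4, ← sum_add_distrib, ← sum_sub_distrib]
    apply sum_congr rfl
    intro p _
    rw [om]
    ring
  have e2 : ∑ l ∈ D.J, D.H l * ∑ s' ∈ D.St \ {s},
      (4 - 2 ^ (({D.k s', D.c s'} : Finset Y) \ D.N l).card) * T l =
      ∑ s' ∈ D.St \ {s}, ∑ l ∈ D.J, D.H l * T l *
        (1 - 2 ^ (({D.k s', D.c s'} : Finset Y) \ D.N l).card) +
      3 * ((D.St.card : ℤ) - 1) * ∑ l ∈ D.J, D.H l * T l := by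
    have a1 : ∑ l ∈ D.J, D.H l * ∑ s' ∈ D.St \ {s},
      (4 - 2 ^ (({D.k s', D.c s'} : Finset Y) \ D.N l).card) * T l =
      ∑ s' ∈ D.St \ {s}, ∑ l ∈ D.J, (D.H l * T l *
        (1 - 2 ^ (({D.k s', D.c s'} : Finset Y) \ D.N l).card) + 3 * (D.H l * T l)) := by
      rw [sum_comm]
      apply sum_congr rfl
      intro l _
      rw [mul_sum]
      exact sum_congr rfl fun s' _ => by ring
    rw [a1]
    simp only [sum_add_distrib, ← mul_sum]
    rw [sum_const, card_sdiff_of_subset (by rwa [singleton_subset_iff]), card_singleton,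
      nsmul_eq_mul, Nat.cast_sub (card_pos.2 ⟨s, hs⟩)]
    push_cast
    ring
  have e3 : ∑ l ∈ D.J, D.H l * D.cX s l =
      4 * (∑ l ∈ D.J, D.H l * T l) -
      2 * ∑ l ∈ D.J, D.H l * T l * (D.N l \ VS D.t D.k D.c s).card +
      ∑ l ∈ D.J, D.H l * uu D.t D.k D.c s (D.N l) - ∑ l ∈ D.J, W l * D.H l +
      ∑ l ∈ D.J, D.H l * ∑ j ∈ D.J \ {l}, (2 ^ (D.N j).card * T l -
        qq D.t D.k D.c s (D.N l) (D.N j) - W j) +
      ∑ l ∈ D.J, D.H l * ∑ s' ∈ D.St \ {s},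
        (4 - 2 ^ (({D.k s', D.c s'} : Finset Y) \ D.N l).card) * T l := by
    rw [mul_sum, mul_sum, ← sum_sub_distrib, ← sum_add_distrib, ← sum_sub_distrib,
      ← sum_add_distrib, ← sum_add_distrib]
    apply sum_congr rfl
    intro l _
    rw [cX]
    ring
  have e4 : ∑ l ∈ D.J, D.H l * T l = D.tau s := rfl
  have e5 : ∑ j ∈ D.J, W j = D.LL s := rfl
  rw [e3, e1, e2, e4, e5]
  ring

/-- the global factor -/
noncomputable def Gam (D : SDat Y ι σ) (n : ℤ) : ℤ := n - ∑ j ∈ D.J, D.om j - 3 * D.St.card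

/-- `F21` -/
noncomputable def F21 (D : SDat Y ι σ) : ℤ :=
  ∑ s ∈ D.St, D.LL s + (∑ j ∈ D.J, D.H j + ∑ s ∈ D.St, D.eta s)

/-- twice `F32` -/
noncomputable def F32t (D : SDat Y ι σ) : ℤ :=
  - ∑ p ∈ D.St.offDiag, D.aa p.1 p.2 + 2 * ∑ s ∈ D.St, D.tau s - 2 * D.St.card

/-- four times `F42`, without the terms of the elements with three vertices -/
noncomputable def F42q (D : SDat Y ι σ) (n : ℤ) : ℤ :=
  (2 * D.vHH + 4 * D.vHo + 2 * D.vOO + 4 * D.vHK + 4 * D.vQ + 4 * D.vS + D.vT) +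
    2 * D.v1 n - 4 * ((n - 2) * D.St.card)

/-- **the local form of the second order number** -/
theorem F42q_eq (h : D.Ok L) (n : ℤ) :
    D.F42q n = D.loc4 + 2 * D.Gam n * D.F32t + 2 * D.F21 ^ 2 := by
  have e1 := vT_eq h
  have e2 : D.vS = (∑ s ∈ D.St, D.LL s) * (∑ s ∈ D.St, D.eta s) - ∑ s ∈ D.St, D.LL s * D.eta s -
      ∑ p ∈ D.St.offDiag, D.lSo p.1 p.2 +
      ∑ p ∈ D.St.offDiag, ∑ l ∈ D.J, D.H l * ta D.t D.k D.c p.1 (D.N l) *
        (1 - 2 ^ (({D.k p.2, D.c p.2} : Finset Y) \ D.N l).card) := by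
    have a1 := sum_offDiag_mul D.St D.LL D.eta
    rw [← a1, ← sum_sub_distrib, ← sum_add_distrib, vS]
    apply sum_congr rfl
    intro p hp
    rw [mem_offDiag] at hp
    rw [sum_add_distrib, sum_so h hp.1 hp.2.1 hp.2.2]
  have e3 : ∑ s ∈ D.St, ∑ l ∈ D.J, D.H l * D.cX s l =
      (∑ j ∈ D.J, D.om j + 3 * (D.St.card : ℤ) - 2) * ∑ s ∈ D.St, D.tau s -
      2 * ∑ s ∈ D.St, ∑ l ∈ D.J, D.H l * ta D.t D.k D.c s (D.N l) *
        (D.N l \ VS D.t D.k D.c s).card +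
      ∑ s ∈ D.St, ∑ l ∈ D.J, D.H l * uu D.t D.k D.c s (D.N l) + D.vQ -
      (∑ s ∈ D.St, D.LL s) * ∑ l ∈ D.J, D.H l +
      ∑ p ∈ D.St.offDiag, ∑ l ∈ D.J, D.H l * ta D.t D.k D.c p.1 (D.N l) *
        (1 - 2 ^ (({D.k p.2, D.c p.2} : Finset Y) \ D.N l).card) := by
    rw [sum_congr rfl fun s hs => sum_cX h hs, sum_offDiag_fst D.St fun s s' =>
      ∑ l ∈ D.J, D.H l * ta D.t D.k D.c s (D.N l) *
        (1 - 2 ^ (({D.k s', D.c s'} : Finset Y) \ D.N l).card)]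
    simp only [sum_add_distrib, sum_sub_distrib, ← mul_sum, ← sum_mul]
    rw [vQ]
  have e4 : D.v1 n = 4 * D.St.card - 2 * ∑ s ∈ D.St, (D.hx s + D.hz s) +
      2 * (∑ j ∈ D.J, D.om j) * D.St.card -
      2 * ∑ s ∈ D.St, ∑ j ∈ D.J, cst D.t D.k D.c s (D.N j) +
      6 * ((D.St.card : ℤ) - 1) * D.St.card +
      2 * ∑ s ∈ D.St, ∑ j ∈ D.J, D.H j * uu D.t D.k D.c s (D.N j) +
      (2 * (n - 3) * ∑ s ∈ D.St, D.tau s -
      4 * ∑ s ∈ D.St, ∑ l ∈ D.J, D.H l * ta D.t D.k D.c s (D.N l) *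
        (D.N l \ VS D.t D.k D.c s).card) +
      (8 - (n - 6)) * ∑ p ∈ D.St.offDiag, D.aa p.1 p.2 := by
    have a1 : ∀ s ∈ D.St, (2 * (2 - D.hx s - D.hz s) + 2 * (∑ j ∈ D.J, nu D.t D.k D.c s (D.N j) +
      3 * ((D.St.card : ℤ) - 1)) + 2 * ∑ j ∈ D.J, D.H j * uu D.t D.k D.c s (D.N j) +
      2 * ∑ j ∈ D.J, D.H j * ta D.t D.k D.c s (D.N j) *
        (n - 3 - 2 * (D.N j \ VS D.t D.k D.c s).card)) =
      (4 + 2 * (∑ j ∈ D.J, D.om j) + 6 * ((D.St.card : ℤ) - 1)) - 2 * (D.hx s + D.hz s) -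
      2 * ∑ j ∈ D.J, cst D.t D.k D.c s (D.N j) +
      2 * ∑ j ∈ D.J, D.H j * uu D.t D.k D.c s (D.N j) + 2 * (n - 3) * D.tau s -
      4 * ∑ l ∈ D.J, D.H l * ta D.t D.k D.c s (D.N l) * (D.N l \ VS D.t D.k D.c s).card := by
      intro s _
      have b1 : ∑ j ∈ D.J, nu D.t D.k D.c s (D.N j) = ∑ j ∈ D.J, D.om j -
          ∑ j ∈ D.J, cst D.t D.k D.c s (D.N j) := by
        rw [← sum_sub_distrib]
        exact sum_congr rfl fun j _ => nu_eq s j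
      have b2 : ∑ j ∈ D.J, D.H j * ta D.t D.k D.c s (D.N j) *
        (n - 3 - 2 * (D.N j \ VS D.t D.k D.c s).card) = (n - 3) * D.tau s -
        2 * ∑ l ∈ D.J, D.H l * ta D.t D.k D.c s (D.N l) * (D.N l \ VS D.t D.k D.c s).card := by
        rw [tau, mul_sum, mul_sum, ← sum_sub_distrib]
        exact sum_congr rfl fun j _ => by ring
      rw [b1, b2]
      ring
    rw [v1, sum_congr rfl a1]
    simp only [sum_add_distrib, sum_sub_distrib, ← mul_sum, sum_const, nsmul_eq_mul]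
    ring
  have e5 : D.vHK = ∑ s ∈ D.St, D.tau s + ∑ s ∈ D.St, ∑ j ∈ D.J,
      D.K j * ta D.t D.k D.c s (D.N j) := by
    rw [vHK, ← sum_add_distrib]
    apply sum_congr rfl
    intro s _
    rw [tau, ← sum_add_distrib]
    exact sum_congr rfl fun j _ => by ring
  have e6 : D.loc4 = - 2 * ∑ j ∈ D.J, D.H j ^ 2 - 2 * ∑ s ∈ D.St, D.eta s ^ 2 - 2 * D.lHH -
      4 * D.lHo + (4 * D.St.card - 4 * ∑ s ∈ D.St, (D.hx s + D.hz s) -
      4 * ∑ s ∈ D.St, ∑ j ∈ D.J, cst D.t D.k D.c s (D.N j) - 2 * ∑ s ∈ D.St, D.LL s ^ 2 -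
      4 * ∑ s ∈ D.St, D.LL s * D.eta s) +
      4 * (∑ s ∈ D.St, ∑ l ∈ D.J, D.H l * D.cX s l + ∑ s ∈ D.St, ∑ j ∈ D.J,
      D.K j * ta D.t D.k D.c s (D.N j)) -
      4 * ∑ p ∈ D.St.offDiag, D.lSo p.1 p.2 + 2 * ∑ p ∈ D.St.offDiag, D.lP p.1 p.2 -
      8 * ∑ p ∈ D.St.offDiag, D.bb p.1 p.2 := by
    rw [loc4]
    have a1 : ∑ s ∈ D.St, (4 * D.lC s - 2 * D.LL s ^ 2 - 4 * D.LL s * D.eta s) =
        4 * D.St.card - 4 * ∑ s ∈ D.St, (D.hx s + D.hz s) -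
      4 * ∑ s ∈ D.St, ∑ j ∈ D.J, cst D.t D.k D.c s (D.N j) - 2 * ∑ s ∈ D.St, D.LL s ^ 2 -
      4 * ∑ s ∈ D.St, D.LL s * D.eta s := by
      have b1 : ∀ s ∈ D.St, 4 * D.lC s - 2 * D.LL s ^ 2 - 4 * D.LL s * D.eta s =
          4 * 1 - 4 * (D.hx s + D.hz s) - 4 * ∑ j ∈ D.J, cst D.t D.k D.c s (D.N j) -
          2 * D.LL s ^ 2 - 4 * (D.LL s * D.eta s) := by
        intro s _
        rw [lC]
        ring
      rw [sum_congr rfl b1]
      simp only [sum_sub_distrib, ← mul_sum, sum_const, nsmul_eq_mul]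
      ring
    have a2 : ∑ s ∈ D.St, ∑ l ∈ D.J, (D.H l * D.cX s l + D.K l * ta D.t D.k D.c s (D.N l)) =
        ∑ s ∈ D.St, ∑ l ∈ D.J, D.H l * D.cX s l + ∑ s ∈ D.St, ∑ j ∈ D.J,
      D.K j * ta D.t D.k D.c s (D.N j) := by
      simp only [sum_add_distrib]
    rw [a1, a2]
  rw [F42q, e6, e3, F32t, F21, Gam, vHH_eq, vHo_eq, vOO_eq, e5, e2, e1, e4]
  ring

end SDat

end Pool.Gauss.TL
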