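import Pool.Agent.Work.MP_065141_co.K.ThreeLev2

/-!
# Disjoint stars: the coefficients of `w² Z ^ (m + 5)` and of `w Z ^ (m + 4)` with frames
-/

set_option autoImplicit false
set_option linter.unusedSectionVars false
open scoped Classical
open Finset MvPolynomial

namespace Pool.Gauss.TL

variable {Y ι σ κ : Type}

section

variable {J : Finset ι} {St : Finset σ} {t k c : σ → Y} {N : ι → Finset Y} {d : ItD Y (ι ⊕ σ)}
  {rho : ι ⊕ σ → MvPolynomial Y TA}

/-- **twice the coefficient of `w² Z ^ (m + 5)`** -/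
theorem cf2_Full_gen (hS : Stars St t k c) (hd : Supp J St t k c N d)
    (h : ∀ j ∈ JT J St ∅, d.Is j (rho j)) (m : ℕ) :
    2 * cfE 2 (m + 5) (Full J St t k c rho) =
      ∑ T ∈ St.powersetCard (m + 1),
        E0 (DT ℤ T t k c * ∑ p ∈ (JT J St T).offDiag, d.A p.1 * d.A p.2) +
      ∑ T ∈ St.powersetCard (m + 2), (2 * (m + 2) * E0 (DT ℤ T t k c * ∑ j ∈ JT J St T, d.A j) +
        2 * E0 (DT ℤ T t k c * ∑ j ∈ JT J St T, d.kp j) +
        E0 (DT ℤ T t k c * ∑ p ∈ (JT J St T).offDiag,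
          (d.phi p.1 * d.A p.2 + d.A p.1 * d.phi p.2))) +
      ∑ T ∈ St.powersetCard (m + 3),
        E0 (DT ℤ T t k c * ∑ p ∈ (JT J St T).offDiag, d.phi p.1 * d.phi p.2) := by
  rw [Full_eq, map_sum, mul_sum]
  have h1 : ∀ T ∈ St.powerset, 2 * cfE 2 (m + 5) ((C (ZT ^ T.card * gT ^ T.card) *
      up (DT ℤ T t k c)) * ∏ j ∈ JT J St T, (1 + rho j)) =
      (if T.card = m + 1 then
        E0 (DT ℤ T t k c * ∑ p ∈ (JT J St T).offDiag, d.A p.1 * d.A p.2) else 0) +
      (if T.card = m + 2 then (2 * (m + 2) * E0 (DT ℤ T t k c * ∑ j ∈ JT J St T, d.A j) +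
        2 * E0 (DT ℤ T t k c * ∑ j ∈ JT J St T, d.kp j) +
        E0 (DT ℤ T t k c * ∑ p ∈ (JT J St T).offDiag,
          (d.phi p.1 * d.A p.2 + d.A p.1 * d.phi p.2))) else 0) +
      (if T.card = m + 3 then
        E0 (DT ℤ T t k c * ∑ p ∈ (JT J St T).offDiag, d.phi p.1 * d.phi p.2) else 0) := by
    intro T hT
    rw [mem_powerset] at hT
    rw [term_two d (JT J St T) (fun j hj => h j (JT_subset J St T hj))]
    by_cases g1 : T.card = m + 1
    · rw [if_neg (show ¬ m + 5 = T.card by omega), if_neg (show ¬ m + 5 = T.card + 1 by omega),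
        if_neg (show ¬ m + 5 = T.card + 2 by omega), if_neg (show ¬ m + 5 = T.card + 3 by omega),
        if_pos (show m + 5 = T.card + 4 by omega), if_pos g1, if_neg (by omega),
        if_neg (by omega)]
      ring
    by_cases g2 : T.card = m + 2
    · rw [if_neg (show ¬ m + 5 = T.card by omega), if_neg (show ¬ m + 5 = T.card + 1 by omega),
        if_neg (show ¬ m + 5 = T.card + 2 by omega), if_pos (show m + 5 = T.card + 3 by omega),
        if_neg (show ¬ m + 5 = T.card + 4 by omega), if_neg g1, if_pos g2, if_neg (by omega), g2]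
      push_cast
      ring
    by_cases g3 : T.card = m + 3
    · have hne : T.Nonempty := card_pos.1 (by omega)
      have e1 := Ec_DT_one hS hT hne 0
      have e2 := Ec_DT_three (J := J) hS hT (by omega) hd.card d.A hd.A hd.A' 1
      have e3 := Ec_DT_three (J := J) hS hT (by omega) hd.card d.phi hd.phi hd.phi' 0
      have e4 := Ec_DT_three (J := J) hS hT (by omega) hd.card d.chi hd.chi hd.chi' 0
      rw [Ec_zero] at e1 e3 e4
      rw [Ec_one] at e2
      rw [if_neg (show ¬ m + 5 = T.card by omega), if_neg (show ¬ m + 5 = T.card + 1 by omega),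
        if_pos (show m + 5 = T.card + 2 by omega), if_neg (show ¬ m + 5 = T.card + 3 by omega),
        if_neg (show ¬ m + 5 = T.card + 4 by omega), if_neg g1, if_neg g2, if_pos g3, e1, e2, e3,
        e4]
      ring
    rw [if_neg (show ¬ m + 5 = T.card + 2 by omega), if_neg (show ¬ m + 5 = T.card + 3 by omega),
        if_neg (show ¬ m + 5 = T.card + 4 by omega), if_neg g1, if_neg g2, if_neg g3]
    by_cases g4 : m + 5 = T.card + 1
    · have hne : T.Nonempty := card_pos.1 (by omega)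
      have e1 := Ec_DT_one hS hT hne 1
      have e2 := Ec_DT_three (J := J) hS hT (by omega) hd.card d.phi hd.phi hd.phi' 1
      have e3 := Ec_DT_three (J := J) hS hT (by omega) hd.card d.xi hd.xi hd.xi' 0
      rw [Ec_one] at e1 e2
      rw [Ec_zero] at e3
      rw [if_neg (show ¬ m + 5 = T.card by omega), if_pos g4, e1, e2, e3]
      ring
    · rw [if_neg g4]
      split_ifs with g5
      · have hne : T.Nonempty := card_pos.1 (by omega)
        rw [Ec_DT_one hS hT hne 2]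
        ring
      · ring
  rw [sum_congr rfl h1, sum_add_distrib, sum_add_distrib, sum_card_eq, sum_card_eq, sum_card_eq]

end

section

variable {J : Finset ι} {St : Finset σ} {t k c : σ → Y} {N : ι → Finset Y} {d : ItD Y (ι ⊕ σ)}
  {rho : ι ⊕ σ → MvPolynomial Y TA} {f : MvPolynomial Y TA} {u v f1 f2 p : MvPolynomial Y ℤ}
  {U0 : Finset Y}

/-- frozen variables, first order -/
lemma cf1_frozen (hS : Stars St t k c) (hd : Supp J St t k c N d)
    (hU : ∀ s ∈ St, Disjoint U0 (VS t k c s))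
    (h : ∀ j ∈ JT J St ∅, d.Is2 j (rho j)) {P : MvPolynomial Y ℤ}
    (hP : P ∈ supported ℤ (U0 : Set Y)) (m : ℕ) :
    cfE 1 (m + 2) (up P * Full J St t k c rho) =
      ∑ T ∈ St.powersetCard (m + 1), ∑ j ∈ J, E0 (DT ℤ T t k c * (P * d.phi (Sum.inl j))) +
      ∑ T ∈ St.powersetCard m, E0 (P * DT ℤ T t k c * ∑ j ∈ JT J St T, d.A j) := by
  rw [cf1_Full h, ← sum_card_eq, ← sum_card_eq, ← sum_add_distrib]
  apply sum_congr rfl
  intro T hT
  rw [mem_powerset] at hT
  have e1 : (if m + 2 = T.card then E1 (P * DT ℤ T t k c) else 0) = 0 := by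
    split_ifs with g
    · obtain ⟨s, hs⟩ : T.Nonempty := card_pos.1 (by omega)
      rw [← Ec_one, mul_comm]
      exact Ec_DT_disj hS hT hs (hU s (hT hs)) hP 1
    · rfl
  rw [e1, zero_add]
  congr 1
  · by_cases g : T.card = m + 1
    · have hne : T.Nonempty := card_pos.1 (by omega)
      obtain ⟨s, hs⟩ := hne
      have g1 := E0_DT_disj hS hT hs (hU s (hT hs)) hP
      rw [mul_comm] at g1
      rw [if_pos (by omega), if_pos g, g1, mul_zero, zero_add,
        E0_frozen_sum hS hU hd hT ⟨s, hs⟩ hP]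
    · rw [if_neg (by omega), if_neg g]
  · by_cases g : T.card = m
    · rw [if_pos (by omega), if_pos g]
    · rw [if_neg (by omega), if_neg g]

/-- **the coefficient of `w Z ^ (m + 4)` of a frame** -/
theorem cf1_frame_gen (hS : Stars St t k c) (hd : Supp J St t k c N d)
    (hU : ∀ s ∈ St, Disjoint U0 (VS t k c s))
    (h : ∀ j ∈ JT J St ∅, d.Is2 j (rho j)) (hf : IsFrame f u v f1 f2 p)
    (hu : u ∈ supported ℤ (U0 : Set Y)) (hv : v ∈ supported ℤ (U0 : Set Y))
    (hf1 : f1 ∈ supported ℤ (U0 : Set Y)) (hf2 : f2 ∈ supported ℤ (U0 : Set Y))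
    (hp : p ∈ supported ℤ (U0 : Set Y)) (m : ℕ) :
    cfE 1 (m + 4) (f * Full J St t k c rho) =
      (∑ T ∈ St.powersetCard (m + 3), ∑ j ∈ J, E0 (DT ℤ T t k c * d.phi (Sum.inl j)) +
        ∑ T ∈ St.powersetCard (m + 2), E0 (DT ℤ T t k c * ∑ j ∈ JT J St T, d.A j)) +
      (∑ T ∈ St.powersetCard (m + 2), ∑ j ∈ J, E0 (DT ℤ T t k c * (u * d.phi (Sum.inl j))) +
        ∑ T ∈ St.powersetCard (m + 1), E0 (u * DT ℤ T t k c * ∑ j ∈ JT J St T, d.A j)) +
      (∑ T ∈ St.powersetCard (m + 1), ∑ j ∈ J, E0 (DT ℤ T t k c * (v * d.phi (Sum.inl j))) +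
        ∑ T ∈ St.powersetCard m, E0 (v * DT ℤ T t k c * ∑ j ∈ JT J St T, d.A j)) := by
  obtain ⟨q, hq⟩ := hf
  set P := Full J St t k c rho with hPdef
  have h1 : f * P = P + C ZT * (up u * P) + C ZT * (C ZT * (up v * P)) +
      (C wT * (C ZT * (up f1 * P)) + C wT * (C ZT * (C ZT * (up f2 * P))) +
      C wT * (C ZT * (C ZT * (C ZT * (up p * P)))) + C (wT ^ 2) * (q * P)) := by
    have h2 : f = (1 + C ZT * up u + C ZT * (C ZT * up v) + C wT * (C ZT * up f1) +
      C wT * (C ZT * (C ZT * up f2)) + C wT * (C ZT * (C ZT * (C ZT * up p)))) +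
      C (wT ^ 2) * q := by
      rw [← hq]
      ring
    rw [h2]
    ring
  have e0 : cfE 1 (m + 4) (C (wT ^ 2) * (q * P)) = 0 := cfE_dvd (by norm_num) (Dvd.intro _ rfl)
  have e1 : cfE 1 (m + 4) (C wT * (C ZT * (up f1 * P))) = 0 := by
    rw [cfE_w_succ, cfE_Z_succ, hPdef, cf0_frozen hS hU h hf1, if_neg (by omega)]
  have e2 : cfE 1 (m + 4) (C wT * (C ZT * (C ZT * (up f2 * P)))) = 0 := by
    rw [cfE_w_succ, cfE_Z_succ, cfE_Z_succ, hPdef, cf0_frozen hS hU h hf2, if_neg (by omega)]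
  have e3 : cfE 1 (m + 4) (C wT * (C ZT * (C ZT * (C ZT * (up p * P))))) = 0 := by
    rw [cfE_w_succ, cfE_Z_succ, cfE_Z_succ, cfE_Z_succ, hPdef, cf0_frozen hS hU h hp,
      if_neg (by omega)]
  have e4 := cf1_Full_one (rho := rho) hS hd h (m + 2)
  have e5 : cfE 1 (m + 4) (C ZT * (C ZT * (up v * P))) =
      ∑ T ∈ St.powersetCard (m + 1), ∑ j ∈ J, E0 (DT ℤ T t k c * (v * d.phi (Sum.inl j))) +
        ∑ T ∈ St.powersetCard m, E0 (v * DT ℤ T t k c * ∑ j ∈ JT J St T, d.A j) := by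
    rw [cfE_Z_succ, cfE_Z_succ, hPdef, cf1_frozen hS hd hU h hv]
  have e6 : cfE 1 (m + 4) (C ZT * (up u * P)) =
      ∑ T ∈ St.powersetCard (m + 2), ∑ j ∈ J, E0 (DT ℤ T t k c * (u * d.phi (Sum.inl j))) +
        ∑ T ∈ St.powersetCard (m + 1), E0 (u * DT ℤ T t k c * ∑ j ∈ JT J St T, d.A j) := by
    rw [cfE_Z_succ, hPdef]
    exact cf1_frozen hS hd hU h hu (m + 1)
  rw [h1, map_add, map_add, map_add, map_add, map_add, map_add, e0, e1, e2, e3, e5, e6, hPdef,
    show m + 4 = m + 2 + 2 by ring, e4]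
  ring

end

end Pool.Gauss.TL
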