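import Pool.Agent.Work.MP_065141_co.K.UTrans

/-!
# The identity `U_1` is additive over the strips

`Rel3 i P Q r1 r2 r3` : `P = Q (1 + r1 X^(i+2) + r2 X^(i+3) + r3 X^(i+4))` up to `X^(i+4)`.
`U1_add` : if the up-set polynomial of a Gaussian poset is a product of factors `P a` up to
`X^(i+4)` and every factor is compared with a model `Q a`, then the numbers `r1, r2, r3`, summed
over the factors, are the differences of the numbers of single-parent elements (level size minus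
previous level size) of the rows `i+1, i+2, i+3`.
-/

set_option autoImplicit false
set_option linter.unusedSectionVars false
open scoped Classical
open Finset

namespace Pool.Gauss

/-- the correction polynomial -/
noncomputable def corr (i : ℕ) (r1 r2 r3 : ℤ) : Polynomial ℤ :=
  (Polynomial.C r1 + Polynomial.C r2 * Polynomial.X + Polynomial.C r3 * Polynomial.X ^ 2) *
    Polynomial.X ^ (i + 2)

lemma corr_dvd (i : ℕ) (r1 r2 r3 : ℤ) : (Polynomial.X : Polynomial ℤ) ^ (i + 2) ∣ corr i r1 r2 r3 :=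
  Dvd.intro_left _ rfl

lemma corr_add (i : ℕ) (r1 r2 r3 s1 s2 s3 : ℤ) :
    corr i r1 r2 r3 + corr i s1 s2 s3 = corr i (r1 + s1) (r2 + s2) (r3 + s3) := by
  unfold corr
  rw [Polynomial.C_add, Polynomial.C_add, Polynomial.C_add]
  ring

lemma corr_zero (i : ℕ) : corr i 0 0 0 = 0 := by
  unfold corr
  rw [Polynomial.C_0]
  ring

lemma corr_coeff (i : ℕ) (r1 r2 r3 : ℤ) (t : ℕ) : (corr i r1 r2 r3).coeff (i + 2 + t) =
    if t = 0 then r1 else if t = 1 then r2 else if t = 2 then r3 else 0 := by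
  unfold corr
  rw [add_comm (i + 2) t, Polynomial.coeff_mul_X_pow]
  simp only [Polynomial.coeff_add, Polynomial.coeff_C_mul, Polynomial.coeff_C, Polynomial.coeff_X,
    Polynomial.coeff_X_pow]
  rcases t with _ | _ | _ | t
  · simp
  · simp
  · simp
  · simp

/-- `P = Q (1 + r1 X^(i+2) + r2 X^(i+3) + r3 X^(i+4))` up to `X^(i+4)` -/
def Rel3 (i : ℕ) (P Q : Polynomial ℤ) (r1 r2 r3 : ℤ) : Prop :=
  EqTo (i + 4) P (Q * (1 + corr i r1 r2 r3))

lemma Rel3.one (i : ℕ) : Rel3 i 1 1 0 0 0 := by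
  unfold Rel3
  rw [corr_zero, add_zero, mul_one]
  exact EqTo.refl _ _

lemma Rel3.mul {i : ℕ} (hi : 1 ≤ i) {P Q P' Q' : Polynomial ℤ} {r1 r2 r3 s1 s2 s3 : ℤ}
    (h : Rel3 i P Q r1 r2 r3) (h' : Rel3 i P' Q' s1 s2 s3) :
    Rel3 i (P * P') (Q * Q') (r1 + s1) (r2 + s2) (r3 + s3) := by
  unfold Rel3 at h h' ⊢
  refine (h.mul h').trans ?_
  rw [EqTo.iff, ← corr_add]
  have e : Q * (1 + corr i r1 r2 r3) * (Q' * (1 + corr i s1 s2 s3)) -
      Q * Q' * (1 + (corr i r1 r2 r3 + corr i s1 s2 s3)) =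
      (Q * Q') * (corr i r1 r2 r3 * corr i s1 s2 s3) := by ring
  rw [e]
  apply Dvd.dvd.mul_left
  refine dvd_trans (pow_dvd_pow _ (by omega : i + 4 + 1 ≤ (i + 2) + (i + 2))) ?_
  rw [pow_add]
  exact mul_dvd_mul (corr_dvd _ _ _ _) (corr_dvd _ _ _ _)

lemma Rel3.prod {ι : Type} {i : ℕ} (hi : 1 ≤ i) (A : Finset ι) {P Q : ι → Polynomial ℤ}
    {r1 r2 r3 : ι → ℤ} (h : ∀ a ∈ A, Rel3 i (P a) (Q a) (r1 a) (r2 a) (r3 a)) :
    Rel3 i (∏ a ∈ A, P a) (∏ a ∈ A, Q a) (∑ a ∈ A, r1 a) (∑ a ∈ A, r2 a) (∑ a ∈ A, r3 a) := by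
  induction A using Finset.induction_on with
  | empty =>
    simp only [Finset.prod_empty, Finset.sum_empty]
    exact Rel3.one i
  | insert a A ha ih =>
    simp only [Finset.prod_insert ha, Finset.sum_insert ha]
    exact (h a (mem_insert_self _ _)).mul hi (ih fun b hb => h b (mem_insert_of_mem hb))

lemma quad_coeff (r1 r2 r3 : ℤ) :
    (Polynomial.C r1 + Polynomial.C r2 * Polynomial.X +
      Polynomial.C r3 * Polynomial.X ^ 2 : Polynomial ℤ).coeff 0 = r1 ∧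
    (Polynomial.C r1 + Polynomial.C r2 * Polynomial.X +
      Polynomial.C r3 * Polynomial.X ^ 2 : Polynomial ℤ).coeff 1 = r2 ∧
    (Polynomial.C r1 + Polynomial.C r2 * Polynomial.X +
      Polynomial.C r3 * Polynomial.X ^ 2 : Polynomial ℤ).coeff 2 = r3 := by
  simp only [Polynomial.coeff_add, Polynomial.coeff_C_mul, Polynomial.coeff_C, Polynomial.coeff_X,
    Polynomial.coeff_X_pow]
  refine ⟨?_, ?_, ?_⟩
  · simp
  · simp
  · simp

lemma mul_corr_coeff (i : ℕ) (Q : Polynomial ℤ) (r1 r2 r3 : ℤ) :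
    (Q * corr i r1 r2 r3).coeff (i + 2) = Q.coeff 0 * r1 ∧
    (Q * corr i r1 r2 r3).coeff (i + 3) = Q.coeff 0 * r2 + Q.coeff 1 * r1 ∧
    (Q * corr i r1 r2 r3).coeff (i + 4) = Q.coeff 0 * r3 + Q.coeff 1 * r2 + Q.coeff 2 * r1 := by
  obtain ⟨q0, q1, q2⟩ := quad_coeff r1 r2 r3
  unfold corr
  have e3 : i + 3 = 1 + (i + 2) := by omega
  have e4 : i + 4 = 2 + (i + 2) := by omega
  rw [← mul_assoc]
  refine ⟨?_, ?_, ?_⟩
  · have h := Polynomial.coeff_mul_X_pow (Q * (Polynomial.C r1 + Polynomial.C r2 * Polynomial.X +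
      Polynomial.C r3 * Polynomial.X ^ 2)) (i + 2) 0
    rw [Nat.zero_add] at h
    rw [h, Polynomial.mul_coeff_zero, q0]
  · rw [e3, Polynomial.coeff_mul_X_pow, Polynomial.coeff_mul,
      Finset.Nat.sum_antidiagonal_eq_sum_range_succ_mk]
    simp only [Finset.sum_range_succ, Finset.sum_range_zero, Nat.sub_zero, Nat.sub_self, q0, q1]
    ring
  · rw [e4, Polynomial.coeff_mul_X_pow, Polynomial.coeff_mul,
      Finset.Nat.sum_antidiagonal_eq_sum_range_succ_mk]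
    have e5 : 2 - 1 = 1 := rfl
    simp only [Finset.sum_range_succ, Finset.sum_range_zero, Nat.sub_zero, Nat.sub_self, e5, q0, q1,
      q2]
    ring

/-- the numbers `r1, r2, r3` from the coefficients -/
lemma Rel3.of_coeff {i : ℕ} {P Q : Polynomial ℤ} (h : EqTo (i + 1) P Q) (h0 : Q.coeff 0 = 1)
    (h1 : Q.coeff 1 = 1) {r1 r2 r3 : ℤ} (e1 : P.coeff (i + 2) - Q.coeff (i + 2) = r1)
    (e2 : P.coeff (i + 3) - Q.coeff (i + 3) = r2 + r1)
    (e3 : P.coeff (i + 4) - Q.coeff (i + 4) = r3 + r2 + Q.coeff 2 * r1) :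
    Rel3 i P Q r1 r2 r3 := by
  obtain ⟨c2, c3, c4⟩ := mul_corr_coeff i Q r1 r2 r3
  rw [h0, h1] at c3 c4
  rw [h0] at c2
  unfold Rel3
  intro j hj
  rw [mul_add, mul_one, Polynomial.coeff_add]
  rcases Nat.lt_or_ge j (i + 2) with hj1 | hj1
  · have h2 : (Q * corr i r1 r2 r3).coeff j = 0 := by
      refine Polynomial.X_pow_dvd_iff.1 ?_ j hj1
      exact Dvd.dvd.mul_left (corr_dvd _ _ _ _) _
    rw [h2, add_zero]
    exact h j (by omega)
  · obtain rfl | rfl | rfl : j = i + 2 ∨ j = i + 3 ∨ j = i + 4 := by omega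
    · rw [c2]
      linarith
    · rw [c3]
      linarith
    · rw [c4]
      linarith

/-- **the identity `U_1`, additively over the strips** -/
theorem U1_add {ι : Type} {i : ℕ} (hi : 1 ≤ i) (A : Finset ι) {U : Polynomial ℤ} {n : ℕ → ℕ}
    (hU : HasU1 U n) {P Q : ι → Polynomial ℤ} {m : ι → ℕ → ℕ}
    (hUP : EqTo (i + 4) U (∏ a ∈ A, P a)) (hQ : ∀ a ∈ A, HasU1 (Q a) (m a))
    {r1 r2 r3 : ι → ℤ} (h : ∀ a ∈ A, Rel3 i (P a) (Q a) (r1 a) (r2 a) (r3 a)) :
    (∀ l ≤ i, n l = ∑ a ∈ A, m a l) ∧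
    (n (i + 1) : ℤ) - ∑ a ∈ A, (m a (i + 1) : ℤ) = ∑ a ∈ A, r1 a ∧
    ((n (i + 2) : ℤ) - n (i + 1)) - ∑ a ∈ A, ((m a (i + 2) : ℤ) - m a (i + 1)) =
      ∑ a ∈ A, r2 a ∧
    ((n (i + 3) : ℤ) - n (i + 2)) - ∑ a ∈ A, ((m a (i + 3) : ℤ) - m a (i + 2)) =
      ∑ a ∈ A, r3 a := by
  set G : Polynomial ℤ := ∏ a ∈ A, Q a with hG
  set s : ℕ → ℕ := fun l => ∑ a ∈ A, m a l with hs
  have hG1 : HasU1 G s := HasU1.prod A hQ
  have h1 := Rel3.prod hi A h
  set R1 := ∑ a ∈ A, r1 a with hR1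
  set R2 := ∑ a ∈ A, r2 a with hR2
  set R3 := ∑ a ∈ A, r3 a with hR3
  have h2 : EqTo (i + 4) U (G * (1 + corr i R1 R2 R3)) := hUP.trans h1
  have h3 : EqTo (i + 1) U G := by
    refine (h2.mono (by omega)).trans ?_
    rw [EqTo.iff]
    have e : G * (1 + corr i R1 R2 R3) - G = G * corr i R1 R2 R3 := by ring
    rw [e]
    exact Dvd.dvd.mul_left (corr_dvd _ _ _ _) _
  have h4 := hU.pert hG1 h3
  have h5 := (compare_next hU hG1 h3).1
  have h6 : EqTo (i + 4) (G * corr i R1 R2 R3) (G * ((1 - Polynomial.X) *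
      ∑ l ∈ Icc (i + 1) (2 * (i + 1)), Polynomial.C ((n l : ℤ) - s l) *
        (Polynomial.X : Polynomial ℤ) ^ (l + 1))) := by
    rw [← mul_assoc]
    refine EqTo.trans ?_ (h4.mono (by omega))
    have h7 := (h2.sub (EqTo.refl (i + 4) G)).symm
    have e : G * (1 + corr i R1 R2 R3) - G = G * corr i R1 R2 R3 := by ring
    rw [e] at h7
    exact h7
  have h7 := EqTo.cancel hG1.coeff_zero h6
  have hc : ∀ j, (∑ l ∈ Icc (i + 1) (2 * (i + 1)), Polynomial.C ((n l : ℤ) - s l) *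
      (Polynomial.X : Polynomial ℤ) ^ (l + 1)).coeff (j + 1) =
      if i + 1 ≤ j ∧ j ≤ 2 * (i + 1) then ((n j : ℤ) - s j) else 0 := by
    intro j
    rw [Polynomial.finsetSum_coeff]
    by_cases hj : i + 1 ≤ j ∧ j ≤ 2 * (i + 1)
    · rw [if_pos hj, Finset.sum_eq_single j]
      · rw [Polynomial.coeff_C_mul, Polynomial.coeff_X_pow, if_pos rfl, mul_one]
      · intro l _ hl
        rw [Polynomial.coeff_C_mul, Polynomial.coeff_X_pow, if_neg (by omega), mul_zero]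
      · intro h2
        exact absurd (mem_Icc.2 ⟨hj.1, hj.2⟩) h2
    · rw [if_neg hj]
      apply Finset.sum_eq_zero
      intro l hl
      rw [mem_Icc] at hl
      rw [Polynomial.coeff_C_mul, Polynomial.coeff_X_pow, if_neg (by omega), mul_zero]
  set D := ∑ l ∈ Icc (i + 1) (2 * (i + 1)), Polynomial.C ((n l : ℤ) - s l) *
      (Polynomial.X : Polynomial ℤ) ^ (l + 1) with hD
  have h8 : ∀ t < 3, (corr i R1 R2 R3).coeff (i + 2 + t) = D.coeff (i + 1 + t + 1) -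
      D.coeff (i + t + 1) := by
    intro t ht
    rw [h7 (i + 2 + t) (by omega), sub_mul, one_mul, Polynomial.coeff_sub]
    have e1 : i + 2 + t = i + 1 + t + 1 := by omega
    have e2 : i + 1 + t = i + t + 1 := by omega
    rw [e1, Polynomial.coeff_X_mul, e2]
  have g0 := h8 0 (by omega)
  have g1 := h8 1 (by omega)
  have g2 := h8 2 (by omega)
  rw [corr_coeff, hc, hc] at g0 g1 g2
  rw [if_pos rfl, if_pos (by omega), if_neg (by omega)] at g0
  rw [if_neg (by omega), if_pos rfl, if_pos (by omega), if_pos (by omega)] at g1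
  rw [if_neg (by omega), if_neg (by omega), if_pos rfl, if_pos (by omega), if_pos (by omega)] at g2
  simp only [hs] at g0 g1 g2
  push_cast at g0 g1 g2
  have e1 : i + 1 + 1 = i + 2 := rfl
  have e2 : i + 1 + 2 = i + 3 := rfl
  rw [e1] at g1
  rw [e2] at g2
  refine ⟨fun l hl => h5 l (by omega), ?_, ?_, ?_⟩
  · linarith
  · rw [Finset.sum_sub_distrib]
    linarith
  · rw [Finset.sum_sub_distrib]
    linarith

end Pool.Gauss
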