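import Pool.Agent.Work.MP_065141_co.UK

/-!
# The identity `U_1`: the level numbers beyond the first difference

If the generating functions of the up-sets of two objects with `HasU1` agree up to `X ^ K`, then
their difference determines the differences of the level numbers up to level `2 K`:
`U - G = G (1 - X) (sum over l >= K of (n_l - s_l) X ^ (l + 1))` modulo `X ^ (2 K + 2)`.
-/

set_option autoImplicit false
set_option linter.unusedSectionVars false
open scoped Classical
open Finset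

namespace Pool.Gauss

/-- `P` and `Q` have the same coefficients up to `X ^ N` -/
def EqTo (N : ℕ) (P Q : Polynomial ℤ) : Prop := ∀ j ≤ N, P.coeff j = Q.coeff j

lemma EqTo.iff {N : ℕ} {P Q : Polynomial ℤ} :
    EqTo N P Q ↔ (Polynomial.X : Polynomial ℤ) ^ (N + 1) ∣ P - Q := by
  rw [Polynomial.X_pow_dvd_iff]
  constructor
  · intro h d hd
    rw [Polynomial.coeff_sub, h d (by omega), sub_self]
  · intro h j hj
    have := h j (by omega)
    rw [Polynomial.coeff_sub] at this
    omega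

lemma EqTo.refl (N : ℕ) (P : Polynomial ℤ) : EqTo N P P := fun _ _ => rfl

lemma EqTo.symm {N : ℕ} {P Q : Polynomial ℤ} (h : EqTo N P Q) : EqTo N Q P :=
  fun j hj => (h j hj).symm

lemma EqTo.trans {N : ℕ} {P Q R : Polynomial ℤ} (h : EqTo N P Q) (h' : EqTo N Q R) :
    EqTo N P R := fun j hj => (h j hj).trans (h' j hj)

lemma EqTo.mono {N N' : ℕ} {P Q : Polynomial ℤ} (h : EqTo N P Q) (hN : N' ≤ N) : EqTo N' P Q :=
  fun j hj => h j (by omega)

lemma EqTo.add {N : ℕ} {P Q P' Q' : Polynomial ℤ} (h : EqTo N P Q) (h' : EqTo N P' Q') :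
    EqTo N (P + P') (Q + Q') := by
  intro j hj
  rw [Polynomial.coeff_add, Polynomial.coeff_add, h j hj, h' j hj]

lemma EqTo.sub {N : ℕ} {P Q P' Q' : Polynomial ℤ} (h : EqTo N P Q) (h' : EqTo N P' Q') :
    EqTo N (P - P') (Q - Q') := by
  intro j hj
  rw [Polynomial.coeff_sub, Polynomial.coeff_sub, h j hj, h' j hj]

lemma EqTo.mul {N : ℕ} {P Q P' Q' : Polynomial ℤ} (h : EqTo N P Q) (h' : EqTo N P' Q') :
    EqTo N (P * P') (Q * Q') := by
  rw [EqTo.iff] at h h' ⊢
  have e : P * P' - Q * Q' = (P - Q) * P' + Q * (P' - Q') := by ring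
  rw [e]
  exact dvd_add (Dvd.dvd.mul_right h _) (Dvd.dvd.mul_left h' _)

lemma EqTo.pow {N : ℕ} {P Q : Polynomial ℤ} (h : EqTo N P Q) (k : ℕ) : EqTo N (P ^ k) (Q ^ k) := by
  induction k with
  | zero => rw [pow_zero, pow_zero]; exact EqTo.refl _ _
  | succ k ih => rw [pow_succ, pow_succ]; exact ih.mul h

lemma EqTo.prod {ι : Type} {N : ℕ} (T : Finset ι) {P Q : ι → Polynomial ℤ}
    (h : ∀ a ∈ T, EqTo N (P a) (Q a)) : EqTo N (∏ a ∈ T, P a) (∏ a ∈ T, Q a) := by
  induction T using Finset.induction_on with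
  | empty => rw [Finset.prod_empty, Finset.prod_empty]; exact EqTo.refl _ _
  | insert a T ha ih =>
    rw [Finset.prod_insert ha, Finset.prod_insert ha]
    exact (h a (mem_insert_self _ _)).mul (ih fun b hb => h b (mem_insert_of_mem hb))

/-- a factor with constant coefficient one can be cancelled -/
lemma EqTo.cancel {N : ℕ} {A P Q : Polynomial ℤ} (hA : A.coeff 0 = 1)
    (h : EqTo N (A * P) (A * Q)) : EqTo N P Q := by
  rw [EqTo.iff] at h ⊢
  have e : A * P - A * Q = A * (P - Q) := by ring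
  rw [e] at h
  have h1 : IsCoprime ((Polynomial.X : Polynomial ℤ) ^ (N + 1)) A := by
    apply IsCoprime.pow_left
    obtain ⟨B, hB⟩ : (Polynomial.X : Polynomial ℤ) ∣ A - 1 := by
      rw [Polynomial.X_dvd_iff, Polynomial.coeff_sub, hA, Polynomial.coeff_one_zero, sub_self]
    refine ⟨-B, 1, ?_⟩
    linear_combination hB
  exact h1.dvd_of_dvd_mul_left h

/-- multiplication by a polynomial divisible by a power of `X` -/
lemma EqTo.mul_small {N a : ℕ} {P Q R : Polynomial ℤ} (h : EqTo a P Q)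
    (hR : (Polynomial.X : Polynomial ℤ) ^ (N - a) ∣ R) : EqTo N (P * R) (Q * R) := by
  by_cases ha : a ≤ N
  · rw [EqTo.iff] at h ⊢
    have e : P * R - Q * R = (P - Q) * R := by ring
    rw [e]
    have h1 : (Polynomial.X : Polynomial ℤ) ^ (N + 1) = Polynomial.X ^ (a + 1) *
        Polynomial.X ^ (N - a) := by
      rw [← pow_add]
      congr 1
      omega
    rw [h1]
    exact mul_dvd_mul h hR
  · exact (h.mono (by omega)).mul (EqTo.refl _ _)

/-- a power of `1 - X ^ m` for large `m` -/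
lemma eqTo_pow_one_sub {N m : ℕ} (hm : N + 1 ≤ 2 * m) (k : ℕ) :
    EqTo N ((1 - (Polynomial.X : Polynomial ℤ) ^ m) ^ k)
      (1 - Polynomial.C (k : ℤ) * Polynomial.X ^ m) := by
  induction k with
  | zero =>
    rw [pow_zero]
    intro j _
    simp
  | succ k ih =>
    rw [pow_succ]
    refine (ih.mul (EqTo.refl _ _)).trans ?_
    rw [EqTo.iff]
    have e : (1 - Polynomial.C (k : ℤ) * (Polynomial.X : Polynomial ℤ) ^ m) *
        (1 - Polynomial.X ^ m) - (1 - Polynomial.C ((k + 1 : ℕ) : ℤ) * Polynomial.X ^ m) =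
        Polynomial.C (k : ℤ) * Polynomial.X ^ (2 * m) := by
      rw [two_mul, pow_add]
      push_cast
      rw [Polynomial.C_add, Polynomial.C_1]
      ring
    rw [e]
    exact Dvd.dvd.mul_left (pow_dvd_pow _ hm) _

/-- the product of the late factors -/
lemma eqTo_prod_one_sub {N : ℕ} (T : Finset ℕ) (e : ℕ → ℕ) (k : ℕ → ℕ)
    (he : ∀ l ∈ T, N + 1 ≤ 2 * e l)
    (hee : ∀ l ∈ T, ∀ l' ∈ T, l ≠ l' → N + 1 ≤ e l + e l') :
    EqTo N (∏ l ∈ T, (1 - (Polynomial.X : Polynomial ℤ) ^ (e l)) ^ k l)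
      (1 - ∑ l ∈ T, Polynomial.C (k l : ℤ) * Polynomial.X ^ (e l)) := by
  induction T using Finset.induction_on with
  | empty =>
    rw [Finset.prod_empty, Finset.sum_empty, sub_zero]
    exact EqTo.refl _ _
  | insert a T ha ih =>
    rw [Finset.prod_insert ha, Finset.sum_insert ha]
    refine ((eqTo_pow_one_sub (he a (mem_insert_self _ _)) _).mul
      (ih (fun l hl => he l (mem_insert_of_mem hl))
        (fun l hl l' hl' => hee l (mem_insert_of_mem hl) l' (mem_insert_of_mem hl')))).trans ?_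
    rw [EqTo.iff]
    have e1 : (1 - Polynomial.C (k a : ℤ) * (Polynomial.X : Polynomial ℤ) ^ e a) *
        (1 - ∑ l ∈ T, Polynomial.C (k l : ℤ) * Polynomial.X ^ (e l)) -
        (1 - (Polynomial.C (k a : ℤ) * (Polynomial.X : Polynomial ℤ) ^ e a +
          ∑ l ∈ T, Polynomial.C (k l : ℤ) * Polynomial.X ^ (e l))) =
        ∑ l ∈ T, Polynomial.C (k a : ℤ) * Polynomial.C (k l : ℤ) *
          ((Polynomial.X : Polynomial ℤ) ^ e a * Polynomial.X ^ (e l)) := by
      have e2 : (1 - Polynomial.C (k a : ℤ) * (Polynomial.X : Polynomial ℤ) ^ e a) *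
          (1 - ∑ l ∈ T, Polynomial.C (k l : ℤ) * Polynomial.X ^ (e l)) -
          (1 - (Polynomial.C (k a : ℤ) * (Polynomial.X : Polynomial ℤ) ^ e a +
          ∑ l ∈ T, Polynomial.C (k l : ℤ) * Polynomial.X ^ (e l))) =
          (Polynomial.C (k a : ℤ) * (Polynomial.X : Polynomial ℤ) ^ e a) *
            ∑ l ∈ T, Polynomial.C (k l : ℤ) * Polynomial.X ^ (e l) := by ring
      rw [e2, Finset.mul_sum]
      apply Finset.sum_congr rfl
      intro l _
      ring
    rw [e1]
    apply Finset.dvd_sum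
    intro l hl
    rw [← pow_add]
    apply Dvd.dvd.mul_left
    apply pow_dvd_pow
    apply hee a (mem_insert_self _ _) l (mem_insert_of_mem hl)
    rintro rfl
    exact ha hl

/-- **perturbation formula** -/
theorem HasU1.pert {U G : Polynomial ℤ} {n s : ℕ → ℕ} {K : ℕ} (hU : HasU1 U n)
    (hG : HasU1 G s) (h : EqTo K U G) :
    EqTo (2 * K + 1) (U - G) (G * (1 - Polynomial.X) *
      ∑ l ∈ Icc K (2 * K), Polynomial.C ((n l : ℤ) - s l) * Polynomial.X ^ (l + 1)) := by
  have hlt := (compare_next hU hG h).1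
  obtain ⟨M0, hM0⟩ := id hU
  obtain ⟨M1, hM1⟩ := id hG
  obtain ⟨M, hM, hM', hM2⟩ : ∃ M, M0 ≤ M ∧ M1 ≤ M ∧ 2 * K + 1 ≤ M :=
    ⟨M0 + M1 + (2 * K + 1), by omega, by omega, by omega⟩
  have hU1 := hM0 M hM
  have hG1 := hM1 M hM'
  -- split the products
  have hsp : range M = range K ∪ Ico K M := by
    ext l
    rw [mem_union, mem_range, mem_range, mem_Ico]
    omega
  have hdj : Disjoint (range K) (Ico K M) := by
    rw [Finset.disjoint_left]
    intro l h1 h2
    rw [mem_range] at h1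
    rw [mem_Ico] at h2
    omega
  have key : ∀ (c : ℕ) (r : ℕ → ℕ), 1 ≤ c → EqTo (2 * K + 1)
      (∏ l ∈ range M, (1 - (Polynomial.X : Polynomial ℤ) ^ (l + c)) ^ r l)
      ((∏ l ∈ range K, (1 - (Polynomial.X : Polynomial ℤ) ^ (l + c)) ^ r l) *
        (1 - ∑ l ∈ Ico K M, Polynomial.C (r l : ℤ) * Polynomial.X ^ (l + c))) := by
    intro c r hc
    rw [hsp, Finset.prod_union hdj]
    refine (EqTo.refl _ _).mul (eqTo_prod_one_sub _ (fun l => l + c) r ?_ ?_)
    · intro l hl
      rw [mem_Ico] at hl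
      omega
    · intro l hl l' hl' hne
      rw [mem_Ico] at hl hl'
      omega
  set A : Polynomial ℤ := ∏ l ∈ range K, (1 - (Polynomial.X : Polynomial ℤ) ^ (l + 1)) ^ n l
    with hA
  set B : Polynomial ℤ := ∏ l ∈ range K, (1 - (Polynomial.X : Polynomial ℤ) ^ (l + 2)) ^ n l
    with hB
  have e1 : ∏ l ∈ range K, (1 - (Polynomial.X : Polynomial ℤ) ^ (l + 1)) ^ s l = A := by
    rw [hA]
    apply Finset.prod_congr rfl
    intro l hl
    rw [mem_range] at hl
    rw [hlt l hl]
  have e2 : ∏ l ∈ range K, (1 - (Polynomial.X : Polynomial ℤ) ^ (l + 2)) ^ s l = B := by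
    rw [hB]
    apply Finset.prod_congr rfl
    intro l hl
    rw [mem_range] at hl
    rw [hlt l hl]
  set Sn : Polynomial ℤ := ∑ l ∈ Ico K M, Polynomial.C (n l : ℤ) * Polynomial.X ^ (l + 1)
    with hSn
  set Ss : Polynomial ℤ := ∑ l ∈ Ico K M, Polynomial.C (s l : ℤ) * Polynomial.X ^ (l + 1)
    with hSs
  have f1 : ∑ l ∈ Ico K M, Polynomial.C (n l : ℤ) * (Polynomial.X : Polynomial ℤ) ^ (l + 2) =
      Polynomial.X * Sn := by
    rw [hSn, Finset.mul_sum]
    apply Finset.sum_congr rfl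
    intro l _
    ring
  have f2 : ∑ l ∈ Ico K M, Polynomial.C (s l : ℤ) * (Polynomial.X : Polynomial ℤ) ^ (l + 2) =
      Polynomial.X * Ss := by
    rw [hSs, Finset.mul_sum]
    apply Finset.sum_congr rfl
    intro l _
    ring
  have g1 : EqTo (2 * K + 1) (U * (A * (1 - Sn))) (B * (1 - Polynomial.X * Sn)) := by
    have h1 := (EqTo.refl (2 * K + 1) U).mul (key 1 n le_rfl)
    have h2 := key 2 n (by omega)
    rw [f1] at h2
    exact (h1.symm.trans (by rw [hU1]; exact EqTo.refl _ _)).trans h2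
  have g2 : EqTo (2 * K + 1) (G * (A * (1 - Ss))) (B * (1 - Polynomial.X * Ss)) := by
    have h1 := (EqTo.refl (2 * K + 1) G).mul (key 1 s le_rfl)
    have h2 := key 2 s (by omega)
    rw [f2] at h2
    rw [e1] at h1
    rw [e2] at h2
    exact (h1.symm.trans (by rw [hG1]; exact EqTo.refl _ _)).trans h2
  have hdn : (Polynomial.X : Polynomial ℤ) ^ (K + 1) ∣ Sn := by
    rw [hSn]
    apply Finset.dvd_sum
    intro l hl
    rw [mem_Ico] at hl
    exact Dvd.dvd.mul_left (pow_dvd_pow _ (by omega)) _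
  have hds : (Polynomial.X : Polynomial ℤ) ^ (K + 1) ∣ Ss := by
    rw [hSs]
    apply Finset.dvd_sum
    intro l hl
    rw [mem_Ico] at hl
    exact Dvd.dvd.mul_left (pow_dvd_pow _ (by omega)) _
  have hA0 : A.coeff 0 = 1 := by
    rw [hA, Polynomial.coeff_zero_prod]
    apply Finset.prod_eq_one
    intro l _
    rw [Polynomial.coeff_zero_eq_eval_zero]
    simp
  have hsq : ∀ P Q : Polynomial ℤ, (Polynomial.X : Polynomial ℤ) ^ (K + 1) ∣ P →
      (Polynomial.X : Polynomial ℤ) ^ (K + 1) ∣ Q →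
      (Polynomial.X : Polynomial ℤ) ^ (2 * K + 1 + 1) ∣ P * Q := by
    intro P Q hP hQ
    have e : (Polynomial.X : Polynomial ℤ) ^ (2 * K + 1 + 1) = Polynomial.X ^ (K + 1) *
        Polynomial.X ^ (K + 1) := by
      rw [← pow_add]
      congr 1
      omega
    rw [e]
    exact mul_dvd_mul hP hQ
  have hUG : (Polynomial.X : Polynomial ℤ) ^ (K + 1) ∣ U - G := EqTo.iff.1 h
  -- cross multiplication
  have g3 : EqTo (2 * K + 1) (A * (U * ((1 - Sn) * (1 - Polynomial.X * Ss))))
      (A * (G * ((1 - Ss) * (1 - Polynomial.X * Sn)))) := by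
    have h1 := g1.mul (EqTo.refl (2 * K + 1) (1 - Polynomial.X * Ss))
    have h2 := g2.mul (EqTo.refl (2 * K + 1) (1 - Polynomial.X * Sn))
    have h3 : B * (1 - Polynomial.X * Sn) * (1 - Polynomial.X * Ss) =
        B * (1 - Polynomial.X * Ss) * (1 - Polynomial.X * Sn) := by ring
    rw [h3] at h1
    have h4 := h1.trans h2.symm
    have h5 : U * (A * (1 - Sn)) * (1 - Polynomial.X * Ss) =
        A * (U * ((1 - Sn) * (1 - Polynomial.X * Ss))) := by ring
    have h6 : G * (A * (1 - Ss)) * (1 - Polynomial.X * Sn) =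
        A * (G * ((1 - Ss) * (1 - Polynomial.X * Sn))) := by ring
    rw [h5, h6] at h4
    exact h4
  have g4 := EqTo.cancel hA0 g3
  rw [EqTo.iff] at g4
  have g5 : EqTo (2 * K + 1) (U - G) (G * (1 - Polynomial.X) * (Sn - Ss)) := by
    rw [EqTo.iff]
    have h1 := hsq _ _ hUG hdn
    have h2 := hsq _ _ hUG hds
    have h3 := hsq _ _ hdn hds
    have e : U - G - G * (1 - Polynomial.X) * (Sn - Ss) =
        (U * ((1 - Sn) * (1 - Polynomial.X * Ss)) - G * ((1 - Ss) * (1 - Polynomial.X * Sn))) +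
        ((U - G) * Sn + Polynomial.X * ((U - G) * Ss) +
          (- (U - G) * Polynomial.X) * (Sn * Ss)) := by ring
    rw [e]
    refine dvd_add g4 (dvd_add (dvd_add h1 (Dvd.dvd.mul_left h2 _)) (Dvd.dvd.mul_left h3 _))
  refine g5.trans ((EqTo.refl _ _).mul ?_)
  rw [EqTo.iff, hSn, hSs, ← Finset.sum_sub_distrib]
  have hsp2 : Ico K M = Icc K (2 * K) ∪ Ico (2 * K + 1) M := by
    ext l
    rw [mem_union, mem_Ico, mem_Ico, mem_Icc]
    omega
  have hdj2 : Disjoint (Icc K (2 * K)) (Ico (2 * K + 1) M) := by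
    rw [Finset.disjoint_left]
    intro l h1 h2
    rw [mem_Icc] at h1
    rw [mem_Ico] at h2
    omega
  rw [hsp2, Finset.sum_union hdj2, add_sub_right_comm]
  have e3 : ∑ x ∈ Icc K (2 * K), (Polynomial.C (n x : ℤ) * (Polynomial.X : Polynomial ℤ) ^ (x + 1) -
      Polynomial.C (s x : ℤ) * Polynomial.X ^ (x + 1)) =
      ∑ l ∈ Icc K (2 * K), Polynomial.C ((n l : ℤ) - s l) * Polynomial.X ^ (l + 1) := by
    apply Finset.sum_congr rfl
    intro l _
    rw [Polynomial.C_sub]
    ring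
  rw [e3, sub_self, zero_add]
  apply Finset.dvd_sum
  intro l hl
  rw [mem_Ico] at hl
  exact dvd_sub (Dvd.dvd.mul_left (pow_dvd_pow _ (by omega)) _)
    (Dvd.dvd.mul_left (pow_dvd_pow _ (by omega)) _)

/-- the first three differences (`K` is the first level where the two may differ) -/
theorem HasU1.three {U G : Polynomial ℤ} {n s : ℕ → ℕ} {K : ℕ} (hK : 2 ≤ K) (hU : HasU1 U n)
    (hG : HasU1 G s) (h : EqTo K U G) :
    (∀ l < K, n l = s l) ∧
    U.coeff (K + 1) - G.coeff (K + 1) = n K - s K ∧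
    U.coeff (K + 2) - G.coeff (K + 2) =
      ((n (K + 1) : ℤ) - s (K + 1)) - ((n K : ℤ) - s K) + G.coeff 1 * ((n K : ℤ) - s K) ∧
    U.coeff (K + 3) - G.coeff (K + 3) =
      ((n (K + 2) : ℤ) - s (K + 2)) - ((n (K + 1) : ℤ) - s (K + 1)) +
      G.coeff 1 * (((n (K + 1) : ℤ) - s (K + 1)) - ((n K : ℤ) - s K)) +
      G.coeff 2 * ((n K : ℤ) - s K) := by
  have h0 := compare_next hU hG h
  have h1 := hU.pert hG h
  have hG0 := hG.coeff_zero
  set D : Polynomial ℤ :=
    ∑ l ∈ range (K + 1), Polynomial.C ((n (K + l) : ℤ) - s (K + l)) * Polynomial.X ^ l with hD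
  have hD1 : ∑ l ∈ Icc K (2 * K), Polynomial.C ((n l : ℤ) - s l) *
      (Polynomial.X : Polynomial ℤ) ^ (l + 1) = D * Polynomial.X ^ (K + 1) := by
    have e : Icc K (2 * K) = (range (K + 1)).image (fun l => K + l) := by
      ext l
      rw [mem_Icc, mem_image]
      constructor
      · intro h2
        exact ⟨l - K, mem_range.2 (by omega), by omega⟩
      · rintro ⟨l', h2, rfl⟩
        rw [mem_range] at h2
        omega
    rw [e, Finset.sum_image (fun a _ b _ hab => by omega), hD, Finset.sum_mul]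
    apply Finset.sum_congr rfl
    intro l _
    rw [mul_assoc, ← pow_add]
    congr 2
    omega
  have hc : ∀ j ≤ K, D.coeff j = (n (K + j) : ℤ) - s (K + j) := by
    intro j hj
    rw [hD, Polynomial.finsetSum_coeff, Finset.sum_eq_single j]
    · rw [Polynomial.coeff_C_mul, Polynomial.coeff_X_pow, if_pos rfl, mul_one]
    · intro l _ hl
      rw [Polynomial.coeff_C_mul, Polynomial.coeff_X_pow, if_neg (fun h => hl h.symm), mul_zero]
    · intro h2
      exact absurd (mem_range.2 (by omega)) h2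
  rw [hD1] at h1
  have h2 : ∀ t ≤ K, U.coeff (K + 1 + t) - G.coeff (K + 1 + t) =
      (G * D - Polynomial.X * (G * D)).coeff t := by
    intro t ht
    have h3 := h1 (K + 1 + t) (by omega)
    rw [Polynomial.coeff_sub] at h3
    rw [h3]
    have e : G * (1 - Polynomial.X) * (D * Polynomial.X ^ (K + 1)) =
        (G * D - Polynomial.X * (G * D)) * Polynomial.X ^ (K + 1) := by ring
    rw [e, add_comm (K + 1) t, Polynomial.coeff_mul_X_pow]
  have c0 : (G * D).coeff 0 = (n K : ℤ) - s K := by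
    rw [Polynomial.mul_coeff_zero, hG0, hc 0 (by omega), one_mul, add_zero]
  have c1 : (G * D).coeff 1 = ((n (K + 1) : ℤ) - s (K + 1)) + G.coeff 1 * ((n K : ℤ) - s K) := by
    rw [Polynomial.coeff_mul, Finset.Nat.sum_antidiagonal_eq_sum_range_succ_mk]
    simp only [Finset.sum_range_succ, Finset.sum_range_zero, Nat.sub_zero, Nat.sub_self]
    rw [hG0, hc 0 (by omega), hc 1 (by omega)]
    ring_nf
  have c2 : (G * D).coeff 2 = ((n (K + 2) : ℤ) - s (K + 2)) +
      G.coeff 1 * ((n (K + 1) : ℤ) - s (K + 1)) + G.coeff 2 * ((n K : ℤ) - s K) := by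
    rw [Polynomial.coeff_mul, Finset.Nat.sum_antidiagonal_eq_sum_range_succ_mk]
    simp only [Finset.sum_range_succ, Finset.sum_range_zero, Nat.sub_zero, Nat.sub_self]
    rw [hG0, hc 0 (by omega), hc 1 (by omega), hc 2 (by omega)]
    ring_nf
  refine ⟨h0.1, by rw [h0.2], ?_, ?_⟩
  · have h3 := h2 1 (by omega)
    rw [Polynomial.coeff_sub, ← Nat.zero_add 1, Polynomial.coeff_X_mul, Nat.zero_add, c0, c1] at h3
    have e : K + 2 = K + 1 + 1 := rfl
    rw [e, h3]
    ring
  · have h3 := h2 2 hK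
    have e2 : (2 : ℕ) = 1 + 1 := rfl
    rw [Polynomial.coeff_sub, e2, Polynomial.coeff_X_mul, ← e2, c1, c2] at h3
    have e : K + 3 = K + 1 + 2 := rfl
    rw [e, h3]
    ring

end Pool.Gauss
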