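import Pool.Agent.Work.MP_065141_co.U1Cells
import Pool.Agent.Work.MP_065141_co.K.UPert

/-!
# Counting lower sets through a row

`S` is a finite set of elements of a poset (the order is the one of the cells: the maximal elements
of the Gaussian poset are the minimal elements here), `ρ` a rank function.
`MlowS S ρ i T m` : the lower sets of the rows `0, ..., i` with `m` elements which meet row `i`
in `T`.  `NhiS S ρ i T h` : the ways to add `h` elements of the rows below row `i` to them.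
`transferS` : the number of lower sets with `s` elements is the sum of the products.
-/

set_option autoImplicit false
set_option linter.unusedSectionVars false
open scoped Classical
open Finset

namespace Pool.Gauss

variable {γ δ : Type} [PartialOrder γ] [PartialOrder δ]

/-- number of lower sets of `S` with `s` elements -/
noncomputable def nlow (S : Finset γ) (s : ℕ) : ℕ := ((lowS S).filter fun F => F.card = s).card

lemma gfS_coeff (S : Finset γ) (s : ℕ) : (gfS S).coeff s = (nlow S s : ℤ) := coeff_gen _ _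

lemma gfS_coeff_zero (S : Finset γ) : (gfS S).coeff 0 = 1 := by
  rw [gfS_coeff]
  have h : (lowS S).filter (fun F => F.card = 0) = {∅} := by
    ext F
    rw [mem_filter, mem_lowS, mem_singleton, card_eq_zero]
    constructor
    · exact fun h => h.2
    · rintro rfl
      exact ⟨⟨empty_subset _, fun p hp => absurd hp (notMem_empty _)⟩, rfl⟩
  unfold nlow
  rw [h]
  rfl

/-- `ρ` is a rank function on `S` at row `i` -/
structure RankAt (S : Finset γ) (ρ : γ → ℕ) (i : ℕ) : Prop where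
  mono : ∀ x ∈ S, ∀ y ∈ S, y ≤ x → ρ y ≤ ρ x
  btw : ∀ x ∈ S, ∀ y ∈ S, y ≤ x → ρ y ≤ i → i ≤ ρ x → ∃ z ∈ S, y ≤ z ∧ z ≤ x ∧ ρ z = i

/-- lower sets of the rows `0, ..., i` with `m` elements which meet row `i` in `T` -/
noncomputable def MlowS (S : Finset γ) (ρ : γ → ℕ) (i : ℕ) (T : Finset γ) (m : ℕ) :
    Finset (Finset γ) :=
  (lowS S).filter fun L => (∀ x ∈ L, ρ x ≤ i) ∧ L.filter (fun x => ρ x = i) = T ∧ L.card = m

/-- sets of `h` elements below row `i` which can be added to a lower set which meets row `i`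
in `T` -/
noncomputable def NhiS (S : Finset γ) (ρ : γ → ℕ) (i : ℕ) (T : Finset γ) (h : ℕ) :
    Finset (Finset γ) :=
  S.powerset.filter fun H => (∀ x ∈ H, i < ρ x) ∧
    (∀ x ∈ H, ∀ y ∈ S, y ≤ x → (ρ y = i → y ∈ T) ∧ (i < ρ y → y ∈ H)) ∧ H.card = h

section

variable {S : Finset γ} {ρ : γ → ℕ} {i : ℕ}

lemma mem_MlowS {m : ℕ} {T L : Finset γ} : L ∈ MlowS S ρ i T m ↔ L ∈ lowS S ∧
    (∀ x ∈ L, ρ x ≤ i) ∧ L.filter (fun x => ρ x = i) = T ∧ L.card = m := by
  unfold MlowS
  rw [mem_filter]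

lemma mem_NhiS {h : ℕ} {T H : Finset γ} : H ∈ NhiS S ρ i T h ↔ H ⊆ S ∧ (∀ x ∈ H, i < ρ x) ∧
    (∀ x ∈ H, ∀ y ∈ S, y ≤ x → (ρ y = i → y ∈ T) ∧ (i < ρ y → y ∈ H)) ∧ H.card = h := by
  unfold NhiS
  rw [mem_filter, mem_powerset]

lemma NhiS_zero (T : Finset γ) : NhiS S ρ i T 0 = {∅} := by
  ext H
  rw [mem_NhiS, mem_singleton]
  constructor
  · rintro ⟨_, _, _, h⟩
    exact card_eq_zero.1 h
  · rintro rfl
    exact ⟨empty_subset _, fun x hx => absurd hx (notMem_empty _),
      fun x hx => absurd hx (notMem_empty _), rfl⟩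

/-- **transfer through row `i`** -/
theorem transferS (hr : RankAt S ρ i) (s : ℕ) :
    nlow S s = ∑ T ∈ (S.filter fun x => ρ x = i).powerset, ∑ h ∈ range (s + 1),
      (MlowS S ρ i T (s - h)).card * (NhiS S ρ i T h).card := by
  have h1 : nlow S s = ∑ T ∈ (S.filter fun x => ρ x = i).powerset, ∑ h ∈ range (s + 1),
      (((lowS S).filter fun F => F.card = s).filter fun F =>
        F.filter (fun x => ρ x = i) = T ∧ (F.filter fun x => i < ρ x).card = h).card := by
    unfold nlow
    rw [← Finset.sum_product']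
    rw [Finset.card_eq_sum_card_fiberwise (f := fun F => (F.filter (fun x => ρ x = i),
      (F.filter fun x => i < ρ x).card))
      (t := (S.filter fun x => ρ x = i).powerset ×ˢ range (s + 1))]
    · apply Finset.sum_congr rfl
      rintro ⟨T, h⟩ _
      congr 1
      apply filter_congr
      intro F _
      simp only [Prod.mk.injEq]
    · intro F hF
      rw [mem_coe, mem_filter, mem_lowS] at hF
      rw [mem_coe, mem_product, mem_powerset, mem_range]
      refine ⟨?_, ?_⟩
      · intro x hx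
        simp only [mem_filter] at hx ⊢
        exact ⟨hF.1.1 hx.1, hx.2⟩
      · have h2 : (F.filter fun x => i < ρ x).card ≤ F.card := card_filter_le _ _
        simp only
        omega
  rw [h1]
  apply Finset.sum_congr rfl
  intro T hT
  rw [mem_powerset] at hT
  apply Finset.sum_congr rfl
  intro h hh
  rw [mem_range] at hh
  rw [← card_product]
  refine Finset.card_bij' (fun F _ => (F.filter (fun x => ρ x ≤ i),
    F.filter (fun x => i < ρ x))) (fun p _ => p.1 ∪ p.2) ?_ ?_ ?_ ?_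
  · intro F hF
    rw [mem_filter, mem_filter, mem_lowS] at hF
    obtain ⟨⟨⟨hF0, hF5⟩, hF2⟩, hF3, hF4⟩ := hF
    rw [mem_product, mem_MlowS, mem_NhiS, mem_lowS]
    have hsum : (F.filter (fun x => ρ x ≤ i)).card +
        (F.filter (fun x => i < ρ x)).card = F.card := by
      rw [← Finset.card_filter_add_card_filter_not (s := F) (fun x => ρ x ≤ i)]
      congr 2
      apply filter_congr
      intro x _
      rw [not_le]
    refine ⟨⟨⟨?_, ?_⟩, ?_, ?_, ?_⟩, ?_, ?_, ?_, hF4⟩
    · exact (filter_subset _ _).trans hF0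
    · intro x hx y hy hyx
      rw [mem_filter] at hx ⊢
      exact ⟨hF5 x hx.1 y hy hyx, (hr.mono x (hF0 hx.1) y hy hyx).trans hx.2⟩
    · intro x hx
      exact (mem_filter.1 hx).2
    · rw [← hF3]
      ext x
      simp only [mem_filter]
      constructor
      · rintro ⟨⟨h2, _⟩, h3⟩
        exact ⟨h2, h3⟩
      · rintro ⟨h2, h3⟩
        exact ⟨⟨h2, h3.le⟩, h3⟩
    · simp only
      omega
    · exact (filter_subset _ _).trans hF0
    · intro x hx
      exact (mem_filter.1 hx).2
    · intro x hx y hy hyx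
      rw [mem_filter] at hx
      have h2 := hF5 x hx.1 y hy hyx
      refine ⟨fun h3 => ?_, fun h3 => mem_filter.2 ⟨h2, h3⟩⟩
      rw [← hF3, mem_filter]
      exact ⟨h2, h3⟩
  · rintro ⟨L, H⟩ hp
    rw [mem_product, mem_MlowS, mem_NhiS, mem_lowS] at hp
    obtain ⟨⟨⟨hL0, hL5⟩, hL2, hL3, hL4⟩, hH0, hH1, hH2, hH3⟩ := hp
    simp only at hL0 hL5 hL2 hL3 hL4 hH0 hH1 hH2 hH3
    have hd : Disjoint L H := by
      rw [Finset.disjoint_left]
      intro x h2 h3
      have := hL2 x h2
      have := hH1 x h3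
      omega
    rw [mem_filter, mem_filter, mem_lowS]
    refine ⟨⟨⟨union_subset hL0 hH0, ?_⟩, ?_⟩, ?_, ?_⟩
    · intro x hx y hy hyx
      rw [mem_union] at hx ⊢
      rcases hx with hx | hx
      · exact Or.inl (hL5 x hx y hy hyx)
      · rcases Nat.lt_or_ge i (ρ y) with h2 | h2
        · exact Or.inr ((hH2 x hx y hy hyx).2 h2)
        · left
          obtain ⟨z, hz, hz1, hz2, hz3⟩ := hr.btw x (hH0 hx) y hy hyx h2 (hH1 x hx).le
          have h4 := (hH2 x hx z hz hz2).1 hz3
          rw [← hL3, mem_filter] at h4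
          exact hL5 z h4.1 y hy hz1
    · rw [card_union_of_disjoint hd]
      omega
    · rw [filter_union, hL3]
      have h2 : H.filter (fun x => ρ x = i) = ∅ := by
        rw [filter_eq_empty_iff]
        intro x hx h3
        have := hH1 x hx
        omega
      rw [h2, union_empty]
    · rw [filter_union]
      have h2 : L.filter (fun x => i < ρ x) = ∅ := by
        rw [filter_eq_empty_iff]
        intro x hx h3
        have := hL2 x hx
        omega
      have h3 : H.filter (fun x => i < ρ x) = H := by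
        rw [filter_eq_self]
        exact hH1
      rw [h2, h3, empty_union]
      exact hH3
  · intro F _
    simp only
    ext x
    rw [mem_union, mem_filter, mem_filter]
    constructor
    · rintro (h2 | h2)
      · exact h2.1
      · exact h2.1
    · intro h2
      rcases Nat.lt_or_ge i (ρ x) with h3 | h3
      · exact Or.inr ⟨h2, h3⟩
      · exact Or.inl ⟨h2, h3⟩
  · rintro ⟨L, H⟩ hp
    rw [mem_product, mem_MlowS, mem_NhiS] at hp
    obtain ⟨⟨hL1, hL2, hL3, hL4⟩, hH0, hH1, hH2, hH3⟩ := hp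
    simp only at hL1 hL2 hL3 hL4 hH0 hH1 hH2 hH3
    simp only [Prod.mk.injEq]
    constructor
    · rw [filter_union, filter_eq_self.2 hL2]
      have h2 : H.filter (fun x => ρ x ≤ i) = ∅ := by
        rw [filter_eq_empty_iff]
        intro x hx h3
        have := hH1 x hx
        omega
      rw [h2, union_empty]
    · rw [filter_union, filter_eq_self.2 hH1]
      have h2 : L.filter (fun x => i < ρ x) = ∅ := by
        rw [filter_eq_empty_iff]
        intro x hx h3
        have := hL2 x hx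
        omega
      rw [h2, empty_union]

/-- the principal lower set in `S` -/
noncomputable def dwn (S : Finset γ) (x : γ) : Finset γ := S.filter fun y => y ≤ x

lemma mem_dwn {x y : γ} : y ∈ dwn S x ↔ y ∈ S ∧ y ≤ x := by
  unfold dwn
  rw [mem_filter]

/-- a lower set contains the union of the principal lower sets of its elements -/
lemma biUnion_dwn_subset {L T : Finset γ} (hL : L ∈ lowS S) (hT : T ⊆ L) :
    T.biUnion (dwn S) ⊆ L := by
  rw [mem_lowS] at hL
  intro y hy
  rw [mem_biUnion] at hy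
  obtain ⟨x, hx, hy⟩ := hy
  rw [mem_dwn] at hy
  exact hL.2 x (hT hx) y hy.1 hy.2

lemma biUnion_dwn_mem (T : Finset γ) : T.biUnion (dwn S) ∈ lowS S := by
  rw [mem_lowS]
  constructor
  · intro y hy
    rw [mem_biUnion] at hy
    obtain ⟨x, hx, hy⟩ := hy
    exact (mem_dwn.1 hy).1
  · intro p hp q hq hqp
    rw [mem_biUnion] at hp ⊢
    obtain ⟨x, hx, hp⟩ := hp
    rw [mem_dwn] at hp
    exact ⟨x, hx, mem_dwn.2 ⟨hq, hqp.trans hp.2⟩⟩

/-- the size of the lower set generated by `T` is a lower bound -/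
lemma MlowS_eq_empty {T : Finset γ} {m : ℕ} (h : m < (T.biUnion (dwn S)).card) :
    MlowS S ρ i T m = ∅ := by
  rw [← not_nonempty_iff_eq_empty]
  rintro ⟨L, hL⟩
  rw [mem_MlowS] at hL
  obtain ⟨h1, h2, h3, h4⟩ := hL
  have h5 := card_le_card (biUnion_dwn_subset (T := T) h1 (by rw [← h3]; exact filter_subset _ _))
  omega

/-- at the minimal size there is exactly one -/
lemma MlowS_min (hr : RankAt S ρ i) (hstr : ∀ x ∈ S, ∀ y ∈ S, y < x → ρ y < ρ x) {T : Finset γ}
    (hT : T ⊆ S.filter fun x => ρ x = i) {m : ℕ} (h : m = (T.biUnion (dwn S)).card) :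
    MlowS S ρ i T m = {T.biUnion (dwn S)} := by
  have hTS : T ⊆ S := hT.trans (filter_subset _ _)
  ext L
  rw [mem_singleton, mem_MlowS]
  constructor
  · rintro ⟨h1, h2, h3, h4⟩
    have h5 := biUnion_dwn_subset (T := T) h1 (by rw [← h3]; exact filter_subset _ _)
    exact (Finset.eq_of_subset_of_card_le h5 (by omega)).symm
  · rintro rfl
    refine ⟨biUnion_dwn_mem T, ?_, ?_, h.symm⟩
    · intro y hy
      rw [mem_biUnion] at hy
      obtain ⟨x, hx, hy⟩ := hy
      rw [mem_dwn] at hy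
      have h6 := (mem_filter.1 (hT hx)).2
      have := hr.mono x (hTS hx) y hy.1 hy.2
      omega
    · ext y
      rw [mem_filter, mem_biUnion]
      constructor
      · rintro ⟨⟨x, hx, hy⟩, h5⟩
        rw [mem_dwn] at hy
        have h6 := (mem_filter.1 (hT hx)).2
        rcases eq_or_lt_of_le hy.2 with h7 | h7
        · rw [h7]
          exact hx
        · have := hstr x (hTS hx) y hy.1 h7
          omega
      · intro hy
        exact ⟨⟨y, hy, mem_dwn.2 ⟨hTS hy, le_rfl⟩⟩, (mem_filter.1 (hT hy)).2⟩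

end

/-- `g` identifies the rows `0, ..., i` of `S` with those of `S'` -/
structure TopIso (S : Finset γ) (ρ : γ → ℕ) (S' : Finset δ) (ρ' : δ → ℕ) (i : ℕ) (g : γ → δ) :
    Prop where
  mem : ∀ x ∈ S, ρ x ≤ i → g x ∈ S'
  rk : ∀ x ∈ S, ρ x ≤ i → ρ' (g x) = ρ x
  le : ∀ x ∈ S, ρ x ≤ i → ∀ y ∈ S, ρ y ≤ i → (g x ≤ g y ↔ x ≤ y)
  sur : ∀ y ∈ S', ρ' y ≤ i → ∃ x ∈ S, ρ x ≤ i ∧ g x = y

namespace TopIso

variable {S : Finset γ} {ρ : γ → ℕ} {S' : Finset δ} {ρ' : δ → ℕ} {i : ℕ} {g : γ → δ}

lemma inj (h : TopIso S ρ S' ρ' i g) {x y : γ} (hx : x ∈ S) (hx' : ρ x ≤ i) (hy : y ∈ S)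
    (hy' : ρ y ≤ i) (hxy : g x = g y) : x = y :=
  le_antisymm ((h.le x hx hx' y hy hy').1 hxy.le) ((h.le y hy hy' x hx hx').1 hxy.ge)

lemma mlow_card (h : TopIso S ρ S' ρ' i g) (hm : ∀ x ∈ S, ∀ y ∈ S, y ≤ x → ρ y ≤ ρ x)
    (hm' : ∀ x ∈ S', ∀ y ∈ S', y ≤ x → ρ' y ≤ ρ' x) {T : Finset γ}
    (hT : T ⊆ S.filter fun x => ρ x = i) (m : ℕ) :
    (MlowS S' ρ' i (T.image g) m).card = (MlowS S ρ i T m).card := by
  symm
  refine Finset.card_bij (fun L _ => L.image g) ?_ ?_ ?_
  · intro L hL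
    rw [mem_MlowS, mem_lowS] at hL
    obtain ⟨⟨h1, h2⟩, h3, h4, h5⟩ := hL
    rw [mem_MlowS, mem_lowS]
    refine ⟨⟨?_, ?_⟩, ?_, ?_, ?_⟩
    · intro y hy
      rw [mem_image] at hy
      obtain ⟨x, hx, rfl⟩ := hy
      exact h.mem x (h1 hx) (h3 x hx)
    · intro p hp q hq hqp
      rw [mem_image] at hp ⊢
      obtain ⟨x, hx, rfl⟩ := hp
      have h6 := hm' _ (h.mem x (h1 hx) (h3 x hx)) q hq hqp
      rw [h.rk x (h1 hx) (h3 x hx)] at h6
      obtain ⟨y, hy, hy', rfl⟩ := h.sur q hq (h6.trans (h3 x hx))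
      exact ⟨y, h2 x hx y hy ((h.le y hy hy' x (h1 hx) (h3 x hx)).1 hqp), rfl⟩
    · intro y hy
      rw [mem_image] at hy
      obtain ⟨x, hx, rfl⟩ := hy
      rw [h.rk x (h1 hx) (h3 x hx)]
      exact h3 x hx
    · rw [← h4]
      ext y
      rw [mem_filter, mem_image, mem_image]
      constructor
      · rintro ⟨⟨x, hx, rfl⟩, h6⟩
        rw [h.rk x (h1 hx) (h3 x hx)] at h6
        exact ⟨x, mem_filter.2 ⟨hx, h6⟩, rfl⟩
      · rintro ⟨x, hx, rfl⟩
        rw [mem_filter] at hx
        refine ⟨⟨x, hx.1, rfl⟩, ?_⟩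
        rw [h.rk x (h1 hx.1) (h3 x hx.1)]
        exact hx.2
    · rw [card_image_of_injOn, h5]
      intro x hx y hy hxy
      exact h.inj (h1 hx) (h3 x hx) (h1 hy) (h3 y hy) hxy
  · intro L hL L' hL' hLL
    rw [mem_MlowS, mem_lowS] at hL hL'
    have key : ∀ L L' : Finset γ, (L ⊆ S ∧ ∀ x ∈ L, ρ x ≤ i) → (L' ⊆ S ∧ ∀ x ∈ L', ρ x ≤ i) →
        L.image g = L'.image g → L ⊆ L' := by
      intro L L' h1 h2 h3 x hx
      have h4 : g x ∈ L'.image g := by
        rw [← h3]
        exact mem_image_of_mem g hx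
      obtain ⟨y, hy, hxy⟩ := mem_image.1 h4
      rw [← h.inj (h2.1 hy) (h2.2 y hy) (h1.1 hx) (h1.2 x hx) hxy]
      exact hy
    exact Finset.Subset.antisymm (key L L' ⟨hL.1.1, hL.2.1⟩ ⟨hL'.1.1, hL'.2.1⟩ hLL)
      (key L' L ⟨hL'.1.1, hL'.2.1⟩ ⟨hL.1.1, hL.2.1⟩ hLL.symm)
  · intro L' hL'
    rw [mem_MlowS, mem_lowS] at hL'
    obtain ⟨⟨h1, h2⟩, h3, h4, h5⟩ := hL'
    set L : Finset γ := S.filter fun x => ρ x ≤ i ∧ g x ∈ L' with hLd
    have hL : ∀ x, x ∈ L ↔ x ∈ S ∧ ρ x ≤ i ∧ g x ∈ L' := by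
      intro x
      rw [hLd, mem_filter]
    have h6 : L.image g = L' := by
      ext y
      rw [mem_image]
      constructor
      · rintro ⟨x, hx, rfl⟩
        exact ((hL x).1 hx).2.2
      · intro hy
        obtain ⟨x, hx, hx', rfl⟩ := h.sur y (h1 hy) (h3 y hy)
        exact ⟨x, (hL x).2 ⟨hx, hx', hy⟩, rfl⟩
    refine ⟨L, ?_, h6⟩
    rw [mem_MlowS, mem_lowS]
    refine ⟨⟨fun x hx => ((hL x).1 hx).1, ?_⟩, fun x hx => ((hL x).1 hx).2.1, ?_, ?_⟩
    · intro p hp q hq hqp
      rw [hL] at hp ⊢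
      have h7 := (hm p hp.1 q hq hqp).trans hp.2.1
      exact ⟨hq, h7, h2 _ hp.2.2 _ (h.mem q hq h7) ((h.le q hq h7 p hp.1 hp.2.1).2 hqp)⟩
    · have h8 : (L.filter fun x => ρ x = i).image g = T.image g := by
        rw [← h4, ← h6]
        ext y
        rw [mem_image, mem_filter, mem_image]
        constructor
        · rintro ⟨x, hx, rfl⟩
          rw [mem_filter] at hx
          refine ⟨⟨x, hx.1, rfl⟩, ?_⟩
          rw [h.rk x ((hL x).1 hx.1).1 ((hL x).1 hx.1).2.1]
          exact hx.2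
        · rintro ⟨⟨x, hx, rfl⟩, h7⟩
          rw [h.rk x ((hL x).1 hx).1 ((hL x).1 hx).2.1] at h7
          exact ⟨x, mem_filter.2 ⟨hx, h7⟩, rfl⟩
      have key : ∀ A B : Finset γ, (A ⊆ S.filter fun x => ρ x = i) →
          (B ⊆ S.filter fun x => ρ x = i) → A.image g = B.image g → A ⊆ B := by
        intro A B hA hB hAB x hx
        have h9 : g x ∈ B.image g := by
          rw [← hAB]
          exact mem_image_of_mem g hx
        obtain ⟨y, hy, hxy⟩ := mem_image.1 h9
        have h10 := mem_filter.1 (hA hx)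
        have h11 := mem_filter.1 (hB hy)
        rw [← h.inj h11.1 h11.2.le h10.1 h10.2.le hxy]
        exact hy
      have h12 : (L.filter fun x => ρ x = i) ⊆ S.filter fun x => ρ x = i := by
        intro x hx
        rw [mem_filter] at hx ⊢
        exact ⟨((hL x).1 hx.1).1, hx.2⟩
      exact Finset.Subset.antisymm (key _ _ h12 hT h8) (key _ _ hT h12 h8.symm)
    · rw [← h5, ← h6, card_image_of_injOn]
      intro x hx y hy hxy
      rw [mem_coe, hL] at hx hy
      exact h.inj hx.1 hx.2.1 hy.1 hy.2.1 hxy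

/-- the numbers of lower sets differ only by the ways to continue below row `i` -/
theorem diff (h : TopIso S ρ S' ρ' i g) (hr : RankAt S ρ i) (hr' : RankAt S' ρ' i) (s : ℕ) :
    (nlow S s : ℤ) - nlow S' s = ∑ T ∈ (S.filter fun x => ρ x = i).powerset,
      ∑ k ∈ range (s + 1), ((MlowS S ρ i T (s - k)).card : ℤ) *
        (((NhiS S ρ i T k).card : ℤ) - (NhiS S' ρ' i (T.image g) k).card) := by
  have h1 := transferS hr s
  have h2 := transferS hr' s
  have h3 : ∑ T ∈ (S'.filter fun x => ρ' x = i).powerset, ∑ k ∈ range (s + 1),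
      (MlowS S' ρ' i T (s - k)).card * (NhiS S' ρ' i T k).card =
      ∑ T ∈ (S.filter fun x => ρ x = i).powerset, ∑ k ∈ range (s + 1),
        (MlowS S ρ i T (s - k)).card * (NhiS S' ρ' i (T.image g) k).card := by
    symm
    refine Finset.sum_bij (fun T _ => T.image g) ?_ ?_ ?_ ?_
    · intro T hT
      rw [mem_powerset] at hT ⊢
      intro y hy
      rw [mem_image] at hy
      obtain ⟨x, hx, rfl⟩ := hy
      have h4 := mem_filter.1 (hT hx)
      rw [mem_filter]
      exact ⟨h.mem x h4.1 h4.2.le, by rw [h.rk x h4.1 h4.2.le]; exact h4.2⟩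
    · intro T hT T' hT' hTT
      rw [mem_powerset] at hT hT'
      have key : ∀ A B : Finset γ, (A ⊆ S.filter fun x => ρ x = i) →
          (B ⊆ S.filter fun x => ρ x = i) → A.image g = B.image g → A ⊆ B := by
        intro A B hA hB hAB x hx
        have h9 : g x ∈ B.image g := by
          rw [← hAB]
          exact mem_image_of_mem g hx
        obtain ⟨y, hy, hxy⟩ := mem_image.1 h9
        have h10 := mem_filter.1 (hA hx)
        have h11 := mem_filter.1 (hB hy)
        rw [← h.inj h11.1 h11.2.le h10.1 h10.2.le hxy]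
        exact hy
      exact Finset.Subset.antisymm (key _ _ hT hT' hTT) (key _ _ hT' hT hTT.symm)
    · intro T' hT'
      rw [mem_powerset] at hT'
      refine ⟨(S.filter fun x => ρ x = i).filter fun x => g x ∈ T', ?_, ?_⟩
      · rw [mem_powerset]
        exact filter_subset _ _
      · ext y
        rw [mem_image]
        constructor
        · rintro ⟨x, hx, rfl⟩
          exact (mem_filter.1 hx).2
        · intro hy
          have h4 := mem_filter.1 (hT' hy)
          obtain ⟨x, hx, hx', rfl⟩ := h.sur y h4.1 h4.2.le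
          have h5 := h4.2
          rw [h.rk x hx hx'] at h5
          exact ⟨x, mem_filter.2 ⟨mem_filter.2 ⟨hx, h5⟩, hy⟩, rfl⟩
    · intro T hT
      rw [mem_powerset] at hT
      apply Finset.sum_congr rfl
      intro k _
      rw [h.mlow_card hr.mono hr'.mono hT]
  rw [h1, h2, h3]
  push_cast
  rw [← Finset.sum_sub_distrib]
  apply Finset.sum_congr rfl
  intro T _
  rw [← Finset.sum_sub_distrib]
  apply Finset.sum_congr rfl
  intro k _
  ring

end TopIso

end Pool.Gauss
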