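import Pool.Agent.Work.MP_065141_co.K.V3Obj

/-!
# Classification of the configurations of energy at most three at a perfect base
-/

set_option autoImplicit false
set_option linter.unusedSectionVars false
set_option linter.unusedVariables false
open scoped Classical
open Finset Polynomial

namespace Pool.Gauss

variable {α : Type} [Fintype α] [PartialOrder α] {i : ℕ}

section

variable {m : Mat α i} {ε : α → ℕ} (hB : PB α i) (hF : m.FullX ∅) (hε : GoodE i ε)
  (hred : m.Red ε) (hs : ∑ p, ε p ≤ 3)
include hB hF hε hred hs

/-- every excited element next to level `i` has an excited farther neighbour -/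
lemma three_far {p : α} (hp : ds i p = 1) (h0 : 0 < ε p) : ∃ q, fr i p q ∧ 0 < ε q ∧ ds i q = 2 := by
  have h1 := (m.att_of_pos hB.hg hB.hl hF hε hred (by omega) hp h0).resolve_right (by simp)
  obtain ⟨q, h2, h3, h4, _⟩ := att_pos hB.hg hB.hl hε hp h1
  exact ⟨q, h2, h3, h4⟩

/-- **classification**: a reduced good configuration of energy at most three and loss at least one
is an object of energy three or contains a simple tree -/
theorem cls3 (hls : (Fo i ε).card + 1 ≤ (Yd i ε).card) :
    (∃ T, isO3 i T ∧ ε = ind T) ∨ ∃ p q, Swp i ε p q := by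
  have hg := hB.hg
  have hl := hB.hl
  have hYne : (Yd i ε).Nonempty := Finset.card_pos.1 (by omega)
  obtain ⟨y1, hy1⟩ := hYne
  obtain ⟨p, hp, hp0, hyp, hyp'⟩ := exists_dom hg hy1
  obtain ⟨q, hpq, hq0, hq⟩ := three_far hB hF hε hred hs hp hp0
  have npq : p ≠ q := ds_ne (i := i) (by omega)
  by_cases hex : ∃ p', ds i p' = 1 ∧ 0 < ε p' ∧ p' ≠ p
  · -- two excited elements next to level `i`
    left
    obtain ⟨p', hp', hp0', hne⟩ := hex
    obtain ⟨q', hpq', hq0', hq'⟩ := three_far hB hF hε hred hs hp' hp0'
    have npq' : p' ≠ q := ds_ne (i := i) (by omega)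
    have hqq : q' = q := by
      by_contra h1
      have := lsum (i := i) hs [] [p, p'] [q, q'] [] (by simp) (by simpa using hne.symm)
        (by simpa using fun h => h1 h.symm) (by simp) (by simp) (by simp [hp, hp'])
        (by simp [hq, hq']) (by simp)
      simp only [List.map_cons, List.map_nil, List.sum_cons, List.sum_nil] at this
      omega
    subst hqq
    have hsum := lsum (i := i) hs [] [p, p'] [q'] [] (by simp) (by simpa using hne.symm)
      (by simp) (by simp) (by simp) (by simp [hp, hp']) (by simp [hq]) (by simp)
    simp only [List.map_cons, List.map_nil, List.sum_cons, List.sum_nil] at hsum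
    have hbd : bd i q' = {p, p'} := by
      symm
      apply Finset.eq_of_subset_of_card_le
      · intro t ht
        simp only [mem_insert, mem_singleton] at ht
        rcases ht with rfl | rfl
        · exact mem_bd.2 hpq
        · exact mem_bd.2 hpq'
      · rw [card_pair hne.symm]
        exact hB.deg q'
    have hU : q' ∈ U2 α i := mem_U2.2 ⟨hq, by rw [hbd, card_pair hne.symm]⟩
    have he : ε = ind (insert q' (bd i q')) := by
      apply eq_ind
      · intro t ht
        rw [hbd] at ht
        simp only [mem_insert, mem_singleton] at ht
        rcases ht with rfl | rfl | rfl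
        · exact hq0
        · exact hp0
        · exact hp0'
      · rw [hbd, card_insert_of_notMem, card_pair hne.symm]
        · exact hs
        · simp [npq.symm, npq'.symm]
    refine ⟨insert q' (bd i q'), Or.inl ⟨q', hU, ?_, rfl⟩, he⟩
    -- the loss
    have hT : NClosed i (insert q' (bd i q')) := by
      intro s hs t hts ht
      rw [mem_insert] at hs
      have h1 := fr_ds hg hts
      rcases hs with rfl | hs
      · exact mem_insert_of_mem (mem_bd.2 hts)
      · rw [ds_of_mem_bd hg hq hs] at h1
        exact absurd (ds_eq_zero.1 (by omega)) ht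
    have h0 : ∀ t ∈ insert q' (bd i q'), corank t ≠ i := by
      intro t ht h
      rw [← ds_eq_zero] at h
      rw [mem_insert] at ht
      rcases ht with rfl | ht
      · omega
      · have := ds_of_mem_bd hg hq ht
        omega
    have hf : (insert q' (bd i q')).filter (fun p => ds i p = 1) = bd i q' := by
      rw [filter_insert, if_neg (by omega)]
      exact filter_true_of_mem fun t ht => ds_of_mem_bd hg hq ht
    rw [he, ind0_Fo hg hl hT h0, ind0_Yd hg h0, hf, hbd, card_pair hne.symm, ← hbd] at hls
    unfold NT at hls
    rw [hf] at hls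
    have h1 := hB.P3 q' hU
    unfold BB at h1 ⊢
    omega
  · push Not at hex
    have hA : ∀ b, ds i b = 1 → 0 < ε b → b = p := by
      intro b hb hb0
      by_contra h1
      exact h1 (hex b hb hb0)
    have hYsub : Yd i ε ⊆ bd i p := by
      intro t ht
      obtain ⟨b, h1, h2, h3, _⟩ := exists_dom hg ht
      rw [hA b h1 h2] at h3
      exact h3
    have hbp : (bd i p).card = 2 := by
      have h1 := hB.deg p
      have h2 := card_le_card hYsub
      by_contra h3
      have h4 : (bd i p).card = 1 := by omega
      have h5 : Fo i ε = ∅ := by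
        rw [← Finset.card_eq_zero]
        omega
      obtain ⟨y, b, hb, hb0, hy, hmax⟩ := peak' hg ⟨p, ds_pos (by omega), hp0⟩ h5
      rw [hA b hb hb0] at hy
      obtain ⟨z, hz⟩ := Finset.card_eq_one.1 h4
      rw [hz, mem_singleton] at hy hyp
      have h6 := hmax p (ds_pos (by omega))
      rw [hy, ← hyp] at h6
      omega
    have hbq : ∀ r, ds i r = 2 → 0 < ε r → bd i r = {p} := by
      intro r hr hr0
      have h1 := bd_sub_Ax hB hε hr hr0
      obtain ⟨t, ht⟩ := bd_nonempty hB (show 0 < ds i r by omega)
      ext s
      rw [mem_singleton]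
      constructor
      · intro hs'
        have := h1 hs'
        rw [mem_Ax] at this
        exact hA s this.1 this.2
      · rintro rfl
        have h2 := h1 ht
        rw [mem_Ax] at h2
        rw [← hA t h2.1 h2.2]
        exact ht
    by_cases h2 : ∃ q', ds i q' = 2 ∧ 0 < ε q' ∧ q' ≠ q
    · -- two single farther neighbours
      left
      obtain ⟨q', hq', hq0', hne⟩ := h2
      have npq' : p ≠ q' := ds_ne (i := i) (by omega)
      refine ⟨{p, q, q'}, Or.inr (Or.inr ⟨p, q, q', hp, hbp, hq, hbq q hq hq0, hq',
        hbq q' hq' hq0', hne.symm, rfl⟩), ?_⟩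
      apply eq_ind
      · intro t ht
        simp only [mem_insert, mem_singleton] at ht
        rcases ht with rfl | rfl | rfl
        · exact hp0
        · exact hq0
        · exact hq0'
      · rw [card_insert_of_notMem, card_insert_of_notMem, card_singleton]
        · exact hs
        · simpa using hne.symm
        · simp [npq, npq']
    · push Not at h2
      have hC : ∀ r, ds i r = 2 → 0 < ε r → r = q := by
        intro r hr hr0
        by_contra h3
        exact h3 (h2 r hr hr0)
      by_cases h3 : ∃ t, fr i q t ∧ 0 < ε t
      · -- a chain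
        left
        obtain ⟨t, hqt, ht0⟩ := h3
        have ht : ds i t = 3 := by rw [fr_ds hg hqt, hq]
        have npt : p ≠ t := ds_ne (i := i) (by omega)
        have nqt : q ≠ t := ds_ne (i := i) (by omega)
        have hbt : bd i t = {q} := by
          have h1 := bd_sub_Bx hB hε ht ht0
          ext s
          rw [mem_singleton]
          constructor
          · intro hs'
            have := h1 hs'
            rw [mem_Bx] at this
            exact hC s this.1 this.2
          · rintro rfl
            exact mem_bd.2 hqt
        refine ⟨{p, q, t}, Or.inr (Or.inl ⟨p, q, t, hp, hbp, hq, hbq q hq hq0, ht, hbt, rfl⟩), ?_⟩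
        apply eq_ind
        · intro r hr
          simp only [mem_insert, mem_singleton] at hr
          rcases hr with rfl | rfl | rfl
          · exact hp0
          · exact hq0
          · exact ht0
        · rw [card_insert_of_notMem, card_insert_of_notMem, card_singleton]
          · exact hs
          · simpa using nqt
          · simp [npq, npt]
      · right
        push Not at h3
        refine ⟨p, q, ⟨hp, hbp, hq, hbq q hq hq0, hp0, hq0, ?_, ?_, ⟨y1, hyp, hyp'⟩, ?_, ?_⟩⟩
        · intro w hw hne
          by_contra h4
          exact hne (hC w (by rw [fr_ds hg hw, hp]) (by omega))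
        · intro t ht
          have := h3 t ht
          omega
        · intro y hy hy' p2 hp2 hne
          by_contra h4
          apply hne
          apply hA p2 _ (by omega)
          rw [fr_ds hg hp2, ds_eq_zero.2 (bd_lev hg hp hy)]
        · intro p2 hne hb
          by_contra h4
          apply hne
          apply hA p2 _ (by omega)
          have h5 := hyp
          rw [← hb] at h5
          rw [fr_ds hg (mem_bd.1 h5), ds_eq_zero.2 (bd_lev hg hp hyp)]

end

/-- the simple tree of a configuration of energy at most three is unique -/
lemma Swp.uniq (hB : PB α i) {ε : α → ℕ} (hs : ∑ p, ε p ≤ 3) {p q p' q' : α}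
    (h : Swp i ε p q) (h' : Swp i ε p' q') : p = p' ∧ q = q' := by
  by_cases hq : q = q'
  · subst hq
    refine ⟨?_, rfl⟩
    have h1 := h.bq
    rw [h'.bq] at h1
    exact (Finset.singleton_injective h1).symm
  · exfalso
    by_cases hp : p = p'
    · subst hp
      have h1 : fr i p q' := by rw [← mem_bd, h'.bq]; simp
      have := h.wp q' h1 (fun h => hq h.symm)
      have := h'.q0
      omega
    · have h1 := h.p0
      have h2 := h.q0
      have h3 := h'.p0
      have h4 := h'.q0
      have := lsum (i := i) hs [] [p, p'] [q, q'] [] (by simp) (by simpa using hp)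
        (by simpa using hq) (by simp) (by simp) (by simp [h.dp, h'.dp])
        (by simp [h.dq, h'.dq]) (by simp)
      simp only [List.map_cons, List.map_nil, List.sum_cons, List.sum_nil] at this
      omega

/-- the indicator of an object of energy three contains no simple tree -/
lemma Swp.not_O3 (hB : PB α i) {T : Finset α} (hT : isO3 i T) {p q : α} (h : Swp i (ind T) p q) : False := by
  have hpT : p ∈ T := ind_pos.1 h.p0
  have hqT : q ∈ T := ind_pos.1 h.q0
  have hdp := h.dp
  have hdq := h.dq
  have hbq := h.bq
  have hfr : fr i p q := by rw [← mem_bd, hbq]; simp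
  rcases hT with ⟨r, hr, h3, rfl⟩ | ⟨a, b, t, ha, hba, hb, hbb, ht, hbt, rfl⟩ |
    ⟨a, b, b', ha, hba, hb, hbb, hb', hbb', hne, rfl⟩
  · rw [mem_U2] at hr
    have hqr : q = r := by
      rw [mem_insert] at hqT
      rcases hqT with h1 | h1
      · exact h1
      · exfalso
        have := ds_of_mem_bd hB.hg hr.1 h1
        omega
    rw [hqr] at hbq
    rw [hbq] at hr
    simp at hr
  · simp only [mem_insert, mem_singleton] at hqT
    have hqb : q = b := by
      rcases hqT with rfl | rfl | rfl
      · omega
      · rfl
      · omega
    subst hqb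
    have h1 : fr i q t := by rw [← mem_bd, hbt]; simp
    have h2 := h.tq t h1
    rw [ind_mem (by simp)] at h2
    omega
  · simp only [mem_insert, mem_singleton] at hpT hqT
    have hpa : p = a := by
      rcases hpT with rfl | rfl | rfl
      · rfl
      · omega
      · omega
    subst hpa
    rcases hqT with rfl | rfl | rfl
    · omega
    · have h1 : fr i p b' := by rw [← mem_bd, hbb']; simp
      have h2 := h.wp b' h1 (fun h => hne h.symm)
      rw [ind_mem (by simp)] at h2
      omega
    · have h1 : fr i p b := by rw [← mem_bd, hbb]; simp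
      have h2 := h.wp b h1 hne
      rw [ind_mem (by simp)] at h2
      omega

/-- no configuration of energy at most three has loss two -/
lemma three_loss (hB : PB α i) {m : Mat α i} (hF : m.FullX ∅) {n : ℕ} (hn : (lev α i).card = n)
    {ε : α → ℕ} (hε : GoodE i ε) (hred : m.Red ε) (hs : ∑ p, ε p ≤ 3) :
    n ≤ (pkF i ε).card + 1 := by
  by_contra h
  rcases class4 hB.hg hB.hl m hF hB.deg hB.P3 hn hε hred (by omega) (by omega) with
    ⟨q, q', h1, h2⟩ | ⟨q, h1, h2, h3⟩ | ⟨q, h1, h2, h4, h3⟩
  · have := (cfD_data hB.hg hB.hl m h1 hn).1
    rw [m.mem_TT, ← h2] at this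
    omega
  · have := (cfE_data hB.hg hB.hl m h1 h2 hn).1
    rw [m.mem_TT, ← h3] at this
    omega
  · have := (cfF_data hB.hg hB.hl m hB.deg h1 h2 h4 hn).1
    rw [m.mem_TT, ← h3] at this
    omega

end Pool.Gauss
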