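import Mathlib

/-!
# Fixed point free involutions from vanishing sums of signs
-/

set_option autoImplicit false
open scoped Classical
open Finset

namespace Pool.Gauss

/-- if the signs over every fibre have sum zero then there is a sign reversing involution
which preserves the fibres -/
theorem exists_sign_invol {β γ : Type} (E : Finset β) (f : β → γ) (s : β → ℤ)
    (hs : ∀ q ∈ E, s q = 1 ∨ s q = -1)
    (h : ∀ c : γ, ∑ q ∈ E.filter (fun q => f q = c), s q = 0) :
    ∃ φ : β → β, ∀ q ∈ E, φ q ∈ E ∧ f (φ q) = f q ∧ s (φ q) = - s q ∧ φ (φ q) = q := by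
  have hcard : ∀ c, (E.filter fun q => f q = c ∧ s q = 1).card =
      (E.filter fun q => f q = c ∧ s q = -1).card := by
    intro c
    have h1 := h c
    rw [← Finset.sum_filter_add_sum_filter_not _ (fun q => s q = 1), filter_filter,
      filter_filter] at h1
    have h2 : ∑ q ∈ E.filter (fun q => f q = c ∧ s q = 1), s q =
        ((E.filter fun q => f q = c ∧ s q = 1).card : ℤ) := by
      rw [Finset.card_eq_sum_ones, Nat.cast_sum]
      apply Finset.sum_congr rfl
      intro q hq
      rw [mem_filter] at hq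
      rw [hq.2.2]
      simp
    have h3 : E.filter (fun q => f q = c ∧ ¬ s q = 1) = E.filter (fun q => f q = c ∧ s q = -1) := by
      apply filter_congr
      intro q hq
      rcases hs q hq with h4 | h4 <;> rw [h4] <;> simp
    have h4 : ∑ q ∈ E.filter (fun q => f q = c ∧ s q = -1), s q =
        -((E.filter fun q => f q = c ∧ s q = -1).card : ℤ) := by
      rw [Finset.card_eq_sum_ones, Nat.cast_sum, ← Finset.sum_neg_distrib]
      apply Finset.sum_congr rfl
      intro q hq
      rw [mem_filter] at hq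
      rw [hq.2.2]
      simp
    rw [h3, h2, h4] at h1
    omega
  have hg : ∀ c, ∃ g g' : β → β, (∀ q ∈ E.filter (fun q => f q = c ∧ s q = 1),
      g q ∈ E.filter (fun q => f q = c ∧ s q = -1) ∧ g' (g q) = q) ∧
      ∀ q ∈ E.filter (fun q => f q = c ∧ s q = -1),
      g' q ∈ E.filter (fun q => f q = c ∧ s q = 1) ∧ g (g' q) = q := by
    intro c
    let e := Finset.equivOfCardEq (hcard c)
    refine ⟨fun q => if hq : q ∈ E.filter (fun q => f q = c ∧ s q = 1) then (e ⟨q, hq⟩).1 else q,
      fun q => if hq : q ∈ E.filter (fun q => f q = c ∧ s q = -1) then (e.symm ⟨q, hq⟩).1 else q,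
      ?_, ?_⟩
    · intro q hq
      have h1 := (e ⟨q, hq⟩).2
      simp only [dif_pos hq]
      refine ⟨h1, ?_⟩
      rw [dif_pos h1]
      simp
    · intro q hq
      have h1 := (e.symm ⟨q, hq⟩).2
      simp only [dif_pos hq]
      refine ⟨h1, ?_⟩
      rw [dif_pos h1]
      simp
  choose g g' hg1 hg2 using hg
  refine ⟨fun q => if s q = 1 then g (f q) q else g' (f q) q, ?_⟩
  intro q hq
  rcases hs q hq with h1 | h1
  · obtain ⟨h2, h3⟩ := hg1 (f q) q (mem_filter.2 ⟨hq, rfl, h1⟩)
    rw [mem_filter] at h2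
    have h4 : s (g (f q) q) ≠ 1 := by rw [h2.2.2]; norm_num
    simp only [h1, if_true]
    refine ⟨h2.1, h2.2.1, h2.2.2, ?_⟩
    rw [if_neg h4, h2.2.1]
    exact h3
  · obtain ⟨h2, h3⟩ := hg2 (f q) q (mem_filter.2 ⟨hq, rfl, h1⟩)
    rw [mem_filter] at h2
    have h4 : s q ≠ 1 := by rw [h1]; norm_num
    simp only [if_neg h4]
    refine ⟨h2.1, h2.2.1, by rw [h2.2.2, h1]; norm_num, ?_⟩
    rw [if_pos h2.2.2, h2.2.1]
    exact h3

end Pool.Gauss
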