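import Pool.Agent.Work.MP_065141_co.K.Flip
import Pool.Agent.Work.MP_065141_co.K.Engine5

/-!
# Exchanging a P-event tree and a Q-event tree over the same pair

`p`, `p'` is a matched pair next to level `i`, `q` lies over `p` only and `q'` lies over `p'`
only.  In the energy function `ε` the element `q` is excited, and the tree `{p, q}` is simple.
Moving it to `{p', q'}` changes the sign, if `{p, q}` dominates at least one element of level `i`.
-/

set_option autoImplicit false
set_option linter.unusedSectionVars false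
set_option linter.unusedVariables false
open scoped Classical
open Finset

namespace Pool.Gauss

variable {α : Type} [Fintype α] [PartialOrder α] {i : ℕ}

/-- a flip which changes the sign gives an opposite energy function -/
theorem FlipM.opp {m : Mat α i} {σ : α → α} {ε : α → ℕ} (F : FlipM m σ ε) (hg : Grad α)
    (hl : HasLower α i) (hε : GoodE i ε) (hr : m.Red ε)
    (hs : (-1 : ℤ) ^ ((mvF i σ ε).card + (mvY i σ ε).card) = -1) : m.Opp ε (ε ∘ σ) where
  red := F.red hg hr
  good := F.goodE hg hl hε
  sum := F.toFlipD.sum_eq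
  pk := F.toFlipD.card_pk hg hl hε
  rst := (F.rst_eq hg).symm
  nbr := by
    intro y hy
    have hy' : corank y = i := mem_lev.1 (m.nbr_sub ε hy)
    refine ⟨(F.toFlipD.val_lev hy').symm, ?_⟩
    rw [← fd_lev hy', ← fd_lev hy']
    exact (F.toFlipD.fd_lev_iff hy').symm
  opp := by
    have h1 := F.toFlipD.sign hg hl hε
    rw [hs] at h1
    have h2 : ((-1 : ℤ)) ^ (inF i ε).card * (-1) ^ (inF i ε).card = 1 := by
      rw [← mul_pow]
      simp
    have h3 : ((-1 : ℤ)) ^ ((inF i ε).card + (inF i (ε ∘ σ)).card) = -1 := by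
      rw [pow_add, h1, ← mul_assoc, h2, one_mul]
    rcases Nat.even_or_odd ((inF i ε).card + (inF i (ε ∘ σ)).card) with h | h
    · rw [h.neg_one_pow] at h3
      norm_num at h3
    · exact h

/-- the exchange of `p`, `p'` and of `q`, `q'` -/
noncomputable def psw (p p' q q' : α) : α → α := fun t =>
  if t = p then p' else if t = p' then p else if t = q then q' else if t = q' then q else t

/-- two events over a matched pair, one on each side of level `i` -/
structure PQD (m : Mat α i) (p p' q q' : α) : Prop where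
  e : (p, p') ∈ m.M ∨ (p', p) ∈ m.M
  bq : bd i q = {p}
  bq' : bd i q' = {p'}

/-- the simple tree `{p, q}` in the energy function `ε` -/
structure EvT (i : ℕ) (ε : α → ℕ) (p p' q q' : α) : Prop where
  pos : 0 < ε q
  zero : ε p' = 0
  only : ∀ t, fr i p t → 0 < ε t → t = q
  far : ∀ t, fr i q t → ε t = 0
  once : ∀ y, fr i y p → ε y < ε p → ∀ t, fr i y t → ε y < ε t → t = p

namespace PQD

variable {m : Mat α i} {p p' q q' : α}

lemma symm (D : PQD m p p' q q') : PQD m p' p q' q := ⟨D.e.symm, D.bq', D.bq⟩

lemma sides (D : PQD m p p' q q') :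
    (corank p + 1 = i ∧ corank p' = i + 1) ∨ (corank p' + 1 = i ∧ corank p = i + 1) := by
  rcases D.e with h | h
  · exact Or.inl ⟨m.cz _ h, m.cx _ h⟩
  · exact Or.inr ⟨m.cz _ h, m.cx _ h⟩

lemma dsp (D : PQD m p p' q q') : ds i p = 1 := by
  have := D.sides
  unfold ds
  omega

lemma frpq (D : PQD m p p' q q') : fr i p q := by
  rw [← mem_bd, D.bq]
  exact mem_singleton_self p

lemma dsq (D : PQD m p p' q q') (hg : Grad α) : ds i q = 2 := by
  rw [fr_ds hg D.frpq, D.dsp]

lemma sideq (D : PQD m p p' q q') (hg : Grad α) :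
    (corank p < i ∧ corank q + 2 = i) ∨ (i < corank p ∧ corank q = i + 2) := by
  have h1 := D.sides
  have h2 := D.frpq
  rcases h1 with h1 | h1
  · have h3 := (fr_above hg h2 (by omega)).2
    have := hg p q h3
    omega
  · have h3 := (fr_below hg h2 (by omega)).2
    have := hg q p h3
    omega

lemma bd_eq (D : PQD m p p' q q') (hg : Grad α) :
    ∃ y y', y ≠ y' ∧ bd i p = {y, y'} ∧ bd i p' = {y, y'} := by
  rcases D.e with h | h
  · obtain ⟨y, y', h1, h2, h3⟩ := m.bd_matched hg h
    exact ⟨y, y', h1, h2, h3⟩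
  · obtain ⟨y, y', h1, h2, h3⟩ := m.bd_matched hg h
    exact ⟨y, y', h1, h3, h2⟩

/-- the four elements are different -/
lemma ne (D : PQD m p p' q q') (hg : Grad α) :
    p ≠ p' ∧ p ≠ q ∧ p ≠ q' ∧ p' ≠ q ∧ p' ≠ q' ∧ q ≠ q' := by
  have h1 := D.sides
  have h2 := D.sideq hg
  have h3 := D.symm.sideq hg
  refine ⟨?_, ?_, ?_, ?_, ?_, ?_⟩ <;> · rintro rfl; omega

section val

variable (D : PQD m p p' q q') (hg : Grad α)
include D hg

lemma psw_p : psw p p' q q' p = p' := by simp [psw]

lemma psw_p' : psw p p' q q' p' = p := by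
  have h := D.ne hg
  simp [psw, h.1.symm]

lemma psw_q : psw p p' q q' q = q' := by
  have h := D.ne hg
  simp [psw, h.2.1.symm, h.2.2.2.1.symm]

lemma psw_q' : psw p p' q q' q' = q := by
  have h := D.ne hg
  simp [psw, h.2.2.1.symm, h.2.2.2.2.1.symm, h.2.2.2.2.2.symm]

omit D hg in
lemma psw_of {t : α} (h1 : t ≠ p) (h2 : t ≠ p') (h3 : t ≠ q) (h4 : t ≠ q') :
    psw p p' q q' t = t := by
  simp [psw, h1, h2, h3, h4]

lemma psw_inv (t : α) : psw p p' q q' (psw p p' q q' t) = t := by
  by_cases h1 : t = p
  · rw [h1, D.psw_p hg, D.psw_p' hg]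
  by_cases h2 : t = p'
  · rw [h2, D.psw_p' hg, D.psw_p hg]
  by_cases h3 : t = q
  · rw [h3, D.psw_q hg, D.psw_q' hg]
  by_cases h4 : t = q'
  · rw [h4, D.psw_q' hg, D.psw_q hg]
  rw [psw_of h1 h2 h3 h4, psw_of h1 h2 h3 h4]

lemma psw_moved {t : α} (h : psw p p' q q' t ≠ t) : t = p ∨ t = p' ∨ t = q ∨ t = q' := by
  by_contra h1
  push Not at h1
  exact h (psw_of h1.1 h1.2.1 h1.2.2.1 h1.2.2.2)

lemma psw_lev {t : α} (h : corank t = i) : psw p p' q q' t = t := by
  have h1 := D.sides
  have h2 := D.sideq hg
  have h3 := D.symm.sideq hg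
  apply psw_of <;> · rintro rfl; omega

lemma psw_symm : psw p' p q' q = psw p p' q q' := by
  funext t
  by_cases h1 : t = p
  · rw [h1, D.psw_p hg, D.symm.psw_p' hg]
  by_cases h2 : t = p'
  · rw [h2, D.psw_p' hg, D.symm.psw_p hg]
  by_cases h3 : t = q
  · rw [h3, D.psw_q hg, D.symm.psw_q' hg]
  by_cases h4 : t = q'
  · rw [h4, D.psw_q' hg, D.symm.psw_q hg]
  rw [psw_of h1 h2 h3 h4, psw_of h2 h1 h4 h3]

end val

end PQD

namespace EvT

variable {m : Mat α i} {p p' q q' : α} {ε : α → ℕ}

section

variable (T : EvT i ε p p' q q') (D : PQD m p p' q q') (hg : Grad α) (hl : HasLower α i)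
  (hε : GoodE i ε)
include T D hg hl hε

lemma pos' : 0 < ε p := by
  have h := D.sides
  exact closure hg hl hε D.frpq (by omega) T.pos

/-- far neighbours of `p'` are not excited -/
lemma far' {t : α} (h : fr i p' t) : ε t = 0 := by
  by_contra h1
  have h2 := D.sides
  have h3 := closure hg hl hε h (by omega) (Nat.pos_of_ne_zero h1)
  have := T.zero
  omega

lemma zero' : ε q' = 0 := T.far' D hg hl hε D.symm.frpq

/-- far neighbours of `q'` are not excited -/
lemma farq' {t : α} (h : fr i q' t) : ε t = 0 := by
  by_contra h1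
  have h2 := D.symm.sideq hg
  have h3 := closure hg hl hε h (by omega) (Nat.pos_of_ne_zero h1)
  have := T.zero' D hg hl hε
  omega

/-- the exchange is a flip -/
theorem flipD : FlipD i (psw p p' q q') ε where
  inv := D.psw_inv hg
  fixl := fun t ht => D.psw_lev hg ht
  frq := by
    intro a b hb
    have hlv : ∀ a : α, corank a ≠ i ↔ corank (psw p p' q q' a) ≠ i := by
      intro a
      constructor
      · intro h1 h2
        have h3 := D.psw_lev hg h2
        rw [D.psw_inv hg] at h3
        rw [← h3] at h2
        exact h1 h2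
      · intro h1 h2
        rw [D.psw_lev hg h2] at h1
        exact h1 h2
    by_cases h1 : b = p
    · subst h1
      rw [D.psw_p hg, ← mem_bd, ← mem_bd]
      obtain ⟨y, y', _, h2, h3⟩ := D.bd_eq hg
      rw [h2, h3, ← h2]
      constructor
      · intro h4
        rwa [D.psw_lev hg (bd_lev hg D.dsp h4)]
      · intro h4
        have h5 := bd_lev hg D.dsp h4
        have h6 : corank a = i := by
          by_contra h7
          exact (hlv a).1 h7 h5
        rwa [D.psw_lev hg h6] at h4
    by_cases h2 : b = p'
    · rw [h2, T.zero] at hb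
      omega
    by_cases h3 : b = q
    · subst h3
      rw [D.psw_q hg, ← mem_bd, ← mem_bd, D.bq, D.bq', mem_singleton, mem_singleton]
      constructor
      · rintro rfl
        exact D.psw_p hg
      · intro h4
        have h5 := D.psw_inv hg a
        rw [h4, D.psw_p' hg] at h5
        exact h5.symm
    by_cases h4 : b = q'
    · rw [h4, T.zero' D hg hl hε] at hb
      omega
    rw [PQD.psw_of h1 h2 h3 h4]
    have k1 : ¬ fr i p b := fun h => h3 (T.only b h hb)
    have k2 : ¬ fr i p' b := fun h => by
      have := T.far' D hg hl hε h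
      omega
    have k3 : ¬ fr i q b := fun h => by
      have := T.far b h
      omega
    have k4 : ¬ fr i q' b := fun h => by
      have := T.farq' D hg hl hε h
      omega
    by_cases a1 : a = p
    · rw [a1, D.psw_p hg]
      tauto
    by_cases a2 : a = p'
    · rw [a2, D.psw_p' hg]
      tauto
    by_cases a3 : a = q
    · rw [a3, D.psw_q hg]
      tauto
    by_cases a4 : a = q'
    · rw [a4, D.psw_q' hg]
      tauto
    rw [PQD.psw_of a1 a2 a3 a4]
  side := by
    intro t ht
    have h1 := D.sides
    have h2 := D.sideq hg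
    have h3 := D.symm.sideq hg
    rcases D.psw_moved hg ht with rfl | rfl | rfl | rfl
    · rw [D.psw_p hg]; omega
    · rw [D.psw_p' hg]; omega
    · rw [D.psw_q hg]; omega
    · rw [D.psw_q' hg]; omega
  once := by
    intro y c c' hy h1 h2 h3 h4 h5
    have d1 : ds i c = 1 := by rw [fr_ds hg h1, ds_eq_zero.2 hy]
    have h6 : c = p := by
      rcases D.psw_moved hg h5 with h | h | h | h
      · exact h
      · rw [h, T.zero] at h3
        omega
      · rw [h, D.dsq hg] at d1
        omega
      · rw [h, D.symm.dsq hg] at d1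
        omega
    rw [h6] at h1 h3
    have h7 := T.once y h1 h3 c' h2 h4
    rw [h7, D.psw_p hg]
    exact (D.ne hg).1.symm

/-- the exchange is compatible with the matching -/
theorem flipM : FlipM m (psw p p' q q') ε where
  toFlipD := T.flipD D hg hl hε
  ds1 := by
    intro t ht
    by_cases h : psw p p' q q' t = t
    · rw [h]
      exact ht
    · rcases D.psw_moved hg h with rfl | rfl | rfl | rfl
      · rw [D.psw_p hg]
        exact D.symm.dsp
      · rw [D.psw_p' hg]
        exact D.dsp
      · rw [D.dsq hg] at ht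
        omega
      · rw [D.symm.dsq hg] at ht
        omega
  near := by
    intro t ht h
    have h0 : att i ε p := att_of_fr hg D.dsp D.frpq T.pos
    rcases D.psw_moved hg h with rfl | rfl | rfl | rfl
    · exact Or.inl h0
    · rw [D.psw_p' hg]
      exact Or.inr h0
    · rw [D.dsq hg] at ht
      omega
    · rw [D.symm.dsq hg] at ht
      omega
  mat := by
    intro t ht h
    rcases D.psw_moved hg h with rfl | rfl | rfl | rfl
    · rw [D.psw_p hg]
      rcases D.e with h1 | h1
      · exact ⟨_, h1, Or.inl ⟨rfl, rfl⟩⟩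
      · exact ⟨_, h1, Or.inr ⟨rfl, rfl⟩⟩
    · rw [D.psw_p' hg]
      rcases D.e with h1 | h1
      · exact ⟨_, h1, Or.inr ⟨rfl, rfl⟩⟩
      · exact ⟨_, h1, Or.inl ⟨rfl, rfl⟩⟩
    · rw [D.dsq hg] at ht
      omega
    · rw [D.symm.dsq hg] at ht
      omega

/-- the flipped energy function contains the other tree -/
theorem evT : EvT i (ε ∘ psw p p' q q') p' p q' q where
  pos := by
    simp only [Function.comp, D.psw_q' hg]
    exact T.pos
  zero := by
    simp only [Function.comp, D.psw_p hg]
    exact T.zero
  only := by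
    intro t h1 h2
    have F := T.flipD D hg hl hε
    rw [F.fr' _ _ h2, D.psw_p' hg] at h1
    have h3 := T.only _ h1 h2
    rw [← D.psw_inv hg t, h3, D.psw_q hg]
  far := by
    intro t h1
    by_contra h2
    have h2' : 0 < (ε ∘ psw p p' q q') t := Nat.pos_of_ne_zero h2
    have F := T.flipD D hg hl hε
    rw [F.fr' _ _ h2', D.psw_q' hg] at h1
    have h3 := T.far _ h1
    exact h2 h3
  once := by
    intro y h1 h2 t h3 h4
    have F := T.flipD D hg hl hε
    have hy : corank y = i := by
      have h5 := fr_ds hg h1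
      rw [D.symm.dsp] at h5
      exact ds_eq_zero.1 (by omega)
    obtain ⟨a1, a2⟩ := F.dom hy h1 h2
    obtain ⟨b1, b2⟩ := F.dom hy h3 h4
    rw [D.psw_p' hg] at a1 a2
    have h5 := T.once y a1 a2 _ b1 b2
    rw [← D.psw_inv hg t, h5, D.psw_p hg]

/-- the sign changes, if the tree dominates an element of level `i` -/
theorem parity (hdom : ∃ y, fr i y p ∧ ε y < ε p) :
    (-1 : ℤ) ^ ((mvF i (psw p p' q q') ε).card + (mvY i (psw p p' q q') ε).card) = -1 := by
  obtain ⟨y, y', hne, hb, hb'⟩ := D.bd_eq hg
  have hns := D.ne hg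
  have hsd := D.sides
  have hsq := D.sideq hg
  have hp' := T.pos' D hg hl hε
  have hfry : fr i y p := by rw [← mem_bd, hb]; simp
  have hfry' : fr i y' p := by rw [← mem_bd, hb]; simp
  have hyl : corank y = i := bd_lev hg D.dsp (mem_bd.2 hfry)
  have hyl' : corank y' = i := bd_lev hg D.dsp (mem_bd.2 hfry')
  have hbd : ∀ t, fr i t p ↔ t = y ∨ t = y' := by
    intro t
    rw [← mem_bd, hb, mem_insert, mem_singleton]
  -- the statuses of `p` and `q`
  have s1 : fd i ε p ↔ ε p < ε q := by
    constructor
    · rintro ⟨t, h1, h2⟩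
      rw [T.only t h1 (by omega)] at h2
      exact h2
    · intro h
      exact ⟨q, D.frpq, h⟩
  have s2 : nd i ε p ↔ ε p ≤ ε y ∨ ε p ≤ ε y' := by
    constructor
    · rintro ⟨t, h1, h2⟩
      rcases (hbd t).1 h1 with rfl | rfl
      · exact Or.inl h2
      · exact Or.inr h2
    · rintro (h | h)
      · exact ⟨y, hfry, h⟩
      · exact ⟨y', hfry', h⟩
  have s3 : ¬ fd i ε q := by
    rintro ⟨t, h1, h2⟩
    have := T.far t h1
    omega
  have s4 : nd i ε q ↔ ε q ≤ ε p := by
    constructor
    · rintro ⟨t, h1, h2⟩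
      rw [← mem_bd, D.bq, mem_singleton] at h1
      rw [h1] at h2
      exact h2
    · intro h
      exact ⟨p, D.frpq, h⟩
  have hgood : ¬ (fd i ε p ∧ nd i ε p) := (goodS_of_goodE hg hl hε).1 p (by omega)
  rw [s1, s2] at hgood
  -- the moved free elements
  have m1 : mvF i (psw p p' q q') ε =
      (if ¬ fd i ε p ∧ ¬ nd i ε p then {p} else ∅) ∪ (if ¬ nd i ε q then {q} else ∅) := by
    ext t
    rw [mvF, mem_filter, Fo, mem_filter, mem_union]
    constructor
    · rintro ⟨⟨_, h1, h2, h3⟩, h4⟩
      rcases D.psw_moved hg h4 with rfl | rfl | rfl | rfl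
      · left
        rw [if_pos ⟨h2, h3⟩]
        exact mem_singleton_self _
      · exfalso
        obtain ⟨s, hs⟩ := exists_near hg hl h1
        have := T.zero
        exact h3 ⟨s, hs, by omega⟩
      · right
        rw [if_pos h3]
        exact mem_singleton_self _
      · exfalso
        obtain ⟨s, hs⟩ := exists_near hg hl h1
        have := T.zero' D hg hl hε
        exact h3 ⟨s, hs, by omega⟩
    · rintro (h | h)
      · split_ifs at h with h1
        · rw [mem_singleton] at h
          subst h
          refine ⟨⟨mem_univ _, by omega, h1.1, h1.2⟩, ?_⟩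
          rw [D.psw_p hg]
          exact hns.1.symm
        · simp at h
      · by_cases h1 : nd i ε q
        · rw [if_neg (not_not.2 h1)] at h
          simp at h
        · rw [if_pos h1, mem_singleton] at h
          subst h
          refine ⟨⟨mem_univ _, by omega, s3, h1⟩, ?_⟩
          rw [D.psw_q hg]
          exact hns.2.2.2.2.2.symm
  have m2 : mvY i (psw p p' q q') ε =
      (if ε y < ε p then {y} else ∅) ∪ (if ε y' < ε p then {y'} else ∅) := by
    ext t
    rw [mvY, mem_filter, mem_union]
    constructor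
    · rintro ⟨h0, c, h1, h2, h3⟩
      have hc : c = p := by
        have d1 : ds i c = 1 := by rw [fr_ds hg h1, ds_eq_zero.2 (mem_lev.1 h0)]
        rcases D.psw_moved hg h2 with h | h | h | h
        · exact h
        · rw [h, T.zero] at h3
          omega
        · rw [h, D.dsq hg] at d1
          omega
        · rw [h, D.symm.dsq hg] at d1
          omega
      subst hc
      rcases (hbd t).1 h1 with rfl | rfl
      · left
        rw [if_pos h3]
        exact mem_singleton_self _
      · right
        rw [if_pos h3]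
        exact mem_singleton_self _
    · rintro (h | h)
      · split_ifs at h with h1
        · rw [mem_singleton] at h
          subst h
          refine ⟨mem_lev.2 hyl, p, hfry, ?_, h1⟩
          rw [D.psw_p hg]
          exact hns.1.symm
        · simp at h
      · split_ifs at h with h1
        · rw [mem_singleton] at h
          subst h
          refine ⟨mem_lev.2 hyl', p, hfry', ?_, h1⟩
          rw [D.psw_p hg]
          exact hns.1.symm
        · simp at h
  rw [m1, m2, s1, s2, s4]
  obtain ⟨t, ht1, ht2⟩ := hdom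
  have hpq : p ≠ q := hns.2.1
  by_cases h1 : ε p < ε q
  · -- `q` is free, `p` is dominated
    have h2 : ¬ (ε p ≤ ε y ∨ ε p ≤ ε y') := fun h => hgood ⟨h1, h⟩
    rw [if_neg (by tauto), if_pos (by omega), if_pos (by omega), if_pos (by omega), empty_union,
      card_singleton, ← insert_eq, card_pair hne]
    norm_num
  · rw [if_neg (c := ¬ ε q ≤ ε p) (by omega), union_empty]
    by_cases h2 : ε y < ε p <;> by_cases h3 : ε y' < ε p
    · rw [if_pos (by omega), if_pos h2, if_pos h3, card_singleton, ← insert_eq, card_pair hne]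
      norm_num
    · rw [if_neg (by omega), if_pos h2, if_neg h3, union_empty, card_singleton, card_empty]
      norm_num
    · rw [if_neg (by omega), if_neg h2, if_pos h3, empty_union, card_singleton, card_empty]
      norm_num
    · exfalso
      rcases (hbd t).1 ht1 with rfl | rfl
      · exact h2 ht2
      · exact h3 ht2

/-- the sign of the flipped energy function -/
theorem sign_neg (hdom : ∃ y, fr i y p ∧ ε y < ε p) :
    (-1 : ℤ) ^ (inF i (ε ∘ psw p p' q q')).card = - (-1) ^ (inF i ε).card := by
  rw [(T.flipD D hg hl hε).sign hg hl hε, T.parity D hg hl hε hdom]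
  ring

/-- the flipped energy function is opposite to the original one -/
theorem opp (hr : m.Red ε) (hdom : ∃ y, fr i y p ∧ ε y < ε p) :
    m.Opp ε (ε ∘ psw p p' q q') :=
  (T.flipM D hg hl hε).opp hg hl hε hr (T.parity D hg hl hε hdom)

/-- the leading coefficients of the partial sums cancel -/
theorem lcv_cancel (hr : m.Red ε) (hdom : ∃ y, fr i y p ∧ ε y < ε p) (N : ℕ) :
    lcv m ε N + lcv m (ε ∘ psw p p' q q') N = 0 :=
  (T.opp D hg hl hε hr hdom).lcv_eq hg hl hr hε N

end

end EvT

end Pool.Gauss
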