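import Pool.Agent.Work.MP_065141_co.K.V3Cls
import Pool.Agent.Work.MP_065141_co.K.V3Inv
import Pool.Agent.Work.MP_065141_co.K.V6PQ

/-!
# The law V3 at a perfect level
-/

set_option autoImplicit false
set_option linter.unusedSectionVars false
set_option linter.unusedVariables false
open scoped Classical
open Finset Polynomial

namespace Pool.Gauss

variable {α : Type} [Fintype α] [PartialOrder α] {i : ℕ}

/-! ### the exchange of simple trees -/

section

variable {m : Mat α i} {ε : α → ℕ} {p p' q q' : α}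

lemma PQD.bdp (D : PQD m p p' q q') (hg : Grad α) : bd i p' = bd i p := by
  obtain ⟨y, y', _, h1, h2⟩ := D.bd_eq hg
  rw [h1, h2]

lemma PQD.cardp (D : PQD m p p' q q') (hg : Grad α) : (bd i p).card = 2 := by
  obtain ⟨y, y', h, h1, _⟩ := D.bd_eq hg
  rw [h1, card_pair h]

lemma Swp.evT3 (S : Swp i ε p q) (D : PQD m p p' q q') (hg : Grad α) : EvT i ε p p' q q' where
  pos := S.q0
  zero := S.par p' (D.ne hg).1.symm (D.bdp hg)
  only := by
    intro t h1 h2
    by_contra h3
    have := S.wp t h1 h3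
    omega
  far := S.tq
  once := by
    intro y h1 h2 t h3 h4
    by_contra h5
    have := S.free y (mem_bd.2 h1) h2 t h3 h5
    omega

lemma Swp.dom' (S : Swp i ε p q) : ∃ y, fr i y p ∧ ε y < ε p := by
  obtain ⟨y, h1, h2⟩ := S.dom
  exact ⟨y, mem_bd.1 h1, h2⟩

/-- the exchanged configuration contains the other tree -/
lemma Swp.psw3 (S : Swp i ε p q) (D : PQD m p p' q q') (hg : Grad α) (hl : HasLower α i)
    (hε : GoodE i ε) : Swp i (ε ∘ psw p p' q q') p' q' := by
  have T := S.evT3 D hg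
  have T' := T.evT D hg hl hε
  have hn := D.ne hg
  refine ⟨D.symm.dsp, D.symm.cardp hg, D.symm.dsq hg, D.bq', ?_, T'.pos, ?_, T'.far, ?_, ?_, ?_⟩
  · simp only [Function.comp, D.psw_p' hg]
    exact S.p0
  · intro w h1 h2
    by_contra h3
    exact h2 (T'.only w h1 (Nat.pos_of_ne_zero h3))
  · obtain ⟨y, h1, h2⟩ := S.dom
    refine ⟨y, by rw [D.bdp hg]; exact h1, ?_⟩
    simp only [Function.comp, D.psw_p' hg]
    rw [D.psw_lev hg (bd_lev hg D.dsp h1)]
    exact h2
  · intro y h1 h2 p2 h3 h4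
    by_contra h5
    exact h4 (T'.once y (mem_bd.1 h1) h2 p2 h3 (by omega))
  · intro p2 h1 h2
    by_cases h3 : p2 = p
    · rw [h3]
      simp only [Function.comp, D.psw_p hg]
      exact T.zero
    · have hd : ds i p2 = 1 := by
        obtain ⟨y, y', _, h4, h5⟩ := D.bd_eq hg
        have h6 : y ∈ bd i p2 := by rw [h2, h5]; simp
        have h7 : y ∈ bd i p := by rw [h4]; simp
        rw [fr_ds hg (mem_bd.1 h6), ds_eq_zero.2 (bd_lev hg D.dsp h7)]
      have h4 : p2 ≠ q := ds_ne (i := i) (by rw [hd, D.dsq hg]; omega)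
      have h5 : p2 ≠ q' := ds_ne (i := i) (by rw [hd, D.symm.dsq hg]; omega)
      simp only [Function.comp, PQD.psw_of h3 h1 h4 h5]
      exact S.par p2 h3 (by rw [h2, D.bdp hg])

end

/-! ### the global exchange -/

/-- an involution of the events -/
structure EvInv (m : Mat α i) (φ : α → α) : Prop where
  mem : ∀ q ∈ evtS α i, φ q ∈ evtS α i
  inv : ∀ q ∈ evtS α i, φ (φ q) = q
  pqd : ∀ q ∈ evtS α i, ∃ p p', bd i q = {p} ∧ PQD m p p' q (φ q)

lemma sg_eq_iff {q q' : α} (h : sg i q' = - sg i q) (hq : corank q ≠ i) (hq' : corank q' ≠ i) :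
    (i < corank q ↔ corank q' < i) ∧ (corank q < i ↔ i < corank q') := by
  unfold sg at h
  split_ifs at h with h1 h2 h3 <;>
    first
    | (exfalso; norm_num at h; done)
    | (constructor <;> omega)

/-- **the events over every pair can be paired off** -/
theorem exists_evInv (hB : PB α i) (hpar : NoPar α i) (m : Mat α i) (hF : m.FullX ∅)
    (hH : ∀ S : Finset α, HS i S = 0) : ∃ φ : α → α, EvInv m φ := by
  have hg := hB.hg
  obtain ⟨φ, hφ⟩ := exists_sign_invol (evtS α i) (BB i) (sg i) (by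
    intro q _
    unfold sg
    split_ifs
    · exact Or.inr rfl
    · exact Or.inl rfl) (fun c => by
      have := hH c
      unfold HS at this
      convert this)
  refine ⟨φ, fun q hq => (hφ q hq).1, fun q hq => (hφ q hq).2.2.2, ?_⟩
  intro q hq
  obtain ⟨h1, h2, h3, _⟩ := hφ q hq
  rw [mem_evtS] at hq h1
  obtain ⟨p, hp⟩ := Finset.card_eq_one.1 hq.2.1
  obtain ⟨r, hr⟩ := Finset.card_eq_one.1 h1.2.1
  have hBp : BB i q = bd i p := by unfold BB; rw [hp, singleton_biUnion]
  have hBr : BB i (φ q) = bd i r := by unfold BB; rw [hr, singleton_biUnion]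
  have hdp := ds_of_mem_bd hg hq.1 (show p ∈ bd i q by rw [hp]; simp)
  have hdr := ds_of_mem_bd hg h1.1 (show r ∈ bd i (φ q) by rw [hr]; simp)
  have hbr : bd i r = bd i p := by rw [← hBr, h2, hBp]
  have hcp : (bd i p).card = 2 := by rw [← hBp]; exact hq.2.2
  have hqi : corank q ≠ i := ds_pos (by omega)
  have hqi' : corank (φ q) ≠ i := ds_pos (by omega)
  have hsd := sg_eq_iff h3 hqi hqi'
  have s1 := side_of_mem_bd hg hq.1 (show p ∈ bd i q by rw [hp]; simp)
  have s2 := side_of_mem_bd hg h1.1 (show r ∈ bd i (φ q) by rw [hr]; simp)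
  obtain ⟨y, y', hne, hy⟩ := Finset.card_eq_two.1 hcp
  have hyl : corank y = i := bd_lev hg hdp (by rw [hy]; simp)
  have hyl' : corank y' = i := bd_lev hg hdp (by rw [hy]; simp)
  -- the partner of `p`
  have hpt : (p, r) ∈ m.M ∨ (r, p) ∈ m.M := by
    rcases hF p hdp with h | h | h | ⟨e, he, h⟩
    · simp at h
    · have := card_bd_sgl hg (Or.inl h : sglZ i p ∨ sglX i p)
      omega
    · have := card_bd_sgl hg (Or.inr h : sglZ i p ∨ sglX i p)
      omega
    · have c1 := m.cz e he
      have c2 := m.cx e he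
      obtain ⟨a, a', _, h4, h5⟩ := m.bd_matched hg he
      rcases h with h | h
      · left
        have hs : e.2 = r := by
          by_contra hc
          apply hne
          apply hpar e.2 r y y' hyl hyl' hc
          · rw [← mem_bd, h5, ← h4, ← h, hy]; simp
          · rw [← mem_bd, hbr, hy]; simp
          · rw [← mem_bd, h5, ← h4, ← h, hy]; simp
          · rw [← mem_bd, hbr, hy]; simp
          · have hpi : corank p < i := by rw [h]; omega
            have := hsd.2.1 (s1.1.1 hpi)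
            have := s2.2.2 this
            omega
        rw [← hs, h]
        exact he
      · right
        have hs : e.1 = r := by
          by_contra hc
          apply hne
          apply hpar e.1 r y y' hyl hyl' hc
          · rw [← mem_bd, h4, ← h5, ← h, hy]; simp
          · rw [← mem_bd, hbr, hy]; simp
          · rw [← mem_bd, h4, ← h5, ← h, hy]; simp
          · rw [← mem_bd, hbr, hy]; simp
          · have hpi : i < corank p := by rw [h]; omega
            have := hsd.1.1 (s1.2.1 hpi)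
            have := s2.1.2 this
            omega
        rw [← hs, h]
        exact he
  exact ⟨p, r, hp, hpt, hp, hr⟩

/-- the partner of an element of the matching -/
noncomputable def Mat.ptn (m : Mat α i) (p : α) : α :=
  if h : ∃ p', (p, p') ∈ m.M ∨ (p', p) ∈ m.M then h.choose else p

lemma Mat.ptn_eq (m : Mat α i) {p p' : α} (h : (p, p') ∈ m.M ∨ (p', p) ∈ m.M) : m.ptn p = p' := by
  have h1 : ∃ p', (p, p') ∈ m.M ∨ (p', p) ∈ m.M := ⟨p', h⟩
  have h2 := h1.choose_spec
  have h3 : m.ptn p = h1.choose := by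
    unfold Mat.ptn
    rw [dif_pos h1]
  rw [h3]
  have cz := m.cz
  have cx := m.cx
  rcases h with h | h <;> rcases h2 with h2 | h2
  · exact (Prod.ext_iff.1 (m.inj1 _ h2 _ h rfl)).2
  · have a1 := cz _ h
    have a2 := cx _ h2
    simp only at a1 a2
    omega
  · have a1 := cz _ h2
    have a2 := cx _ h
    simp only at a1 a2
    omega
  · exact (Prod.ext_iff.1 (m.inj2 _ h2 _ h rfl)).1

/-- the exchange of the simple tree `p`, `q` -/
noncomputable def exch (m : Mat α i) (φ : α → α) (ε : α → ℕ) (p q : α) : α → ℕ :=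
  ε ∘ psw p (m.ptn p) q (φ q)

section exch

variable (hB : PB α i) {m : Mat α i} {φ : α → α} (E : EvInv m φ) {ε : α → ℕ} (hε : GoodE i ε)
  (hred : m.Red ε) {p q : α} (S : Swp i ε p q)

include hB in
lemma Swp.evt (S : Swp i ε p q) : q ∈ evtS α i := by
  rw [mem_evtS]
  refine ⟨S.dq, by rw [S.bq]; simp, ?_⟩
  unfold BB
  rw [S.bq, singleton_biUnion]
  exact S.bp

include hB E S in
lemma EvInv.pq : PQD m p (m.ptn p) q (φ q) := by
  obtain ⟨p1, p', h1, D⟩ := E.pqd q (S.evt hB)
  have h2 : p1 = p := by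
    have := S.bq
    rw [h1] at this
    exact Finset.singleton_injective this
  subst h2
  rw [m.ptn_eq D.e]
  exact D

include hB E hε hred S in
/-- **the exchanged configuration is opposite** -/
theorem exch_opp : m.Opp ε (exch m φ ε p q) := by
  have D := E.pq hB S
  exact (S.evT3 D hB.hg).opp D hB.hg hB.hl hε hred S.dom'

include hB E hε S in
theorem exch_swp : Swp i (exch m φ ε p q) (m.ptn p) (φ q) :=
  S.psw3 (E.pq hB S) hB.hg hB.hl hε

include hB E S in
theorem exch_exch : exch m φ (exch m φ ε p q) (m.ptn p) (φ q) = ε := by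
  have D := E.pq hB S
  have h1 : m.ptn (m.ptn p) = p := m.ptn_eq D.e.symm
  have h2 : φ (φ q) = q := E.inv q (S.evt hB)
  unfold exch
  rw [h1, h2, D.psw_symm hB.hg]
  funext t
  simp only [Function.comp, D.psw_inv hB.hg]

end exch

/-! ### the law -/

/-- the involution on the configurations of energy at most three -/
noncomputable def iota3 (m : Mat α i) (φ : α → α) (ε : α → ℕ) : α → ℕ :=
  if h : ∃ r : α × α, Swp i ε r.1 r.2 then exch m φ ε h.choose.1 h.choose.2 else ε

lemma iota3_eq (hB : PB α i) {m : Mat α i} {φ : α → α} {ε : α → ℕ} (hs : ∑ p, ε p ≤ 3) {p q : α}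
    (S : Swp i ε p q) : iota3 m φ ε = exch m φ ε p q := by
  have h : ∃ r : α × α, Swp i ε r.1 r.2 := ⟨(p, q), S⟩
  have h1 := Swp.uniq hB hs h.choose_spec S
  unfold iota3
  rw [dif_pos h, h1.1, h1.2]

/-- **the law V3** -/
theorem V3L_of (hB : PB α i) (hpar : NoPar α i) {h : Fin (Fintype.card α) → ℕ}
    (hG : IsGaussianWith α h) (m : Mat α i) (hF : m.FullX ∅) (hH : ∀ S : Finset α, HS i S = 0) :
    V3L α i := by
  unfold V3L
  by_cases hO : O3 α i = ∅
  · rw [hO, Finset.sum_empty]
  obtain ⟨T0, hT0⟩ := Finset.nonempty_iff_ne_empty.2 hO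
  have hd0 := (mem_O3.1 hT0).data hB m
  obtain ⟨φ, E⟩ := exists_evInv hB hpar m hF hH
  have hg := hB.hg
  have hl := hB.hl
  obtain ⟨n, hn⟩ : ∃ n, (lev α i).card = n := ⟨_, rfl⟩
  have hn1 : 1 ≤ n := by
    have := hd0.2.2.2.1
    omega
  have hcl : ∀ ε : α → ℕ, GoodE i ε → m.Red ε → ∑ p, ε p ≤ 3 → ¬ ((pkF i ε).card + 1 < n) := by
    intro ε hε hred hs
    have := three_loss hB hF hn hε hred hs
    omega
  have hcls : ∀ ε : α → ℕ, GoodE i ε → m.Red ε → ∑ p, ε p ≤ 3 → (pkF i ε).card + 1 = n →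
      (∃ T, isO3 i T ∧ ε = ind T) ∨ ∃ p q, Swp i ε p q := by
    intro ε hε hred hs hpk
    apply cls3 hB hF hε hred hs
    have := card_pkF hg hl hε
    omega
  obtain ⟨F, hFd⟩ : ∃ F : (α → ℕ) → Prop, ∀ ε, F ε ↔ ∃ T, isO3 i T ∧ ε = ind T :=
    ⟨_, fun _ => Iff.rfl⟩
  have key := m.engine_invol hG hl 3 n hn 1 le_rfl hn1
    (fun ε hε hred hs h1 => absurd h1 (hcl ε hε hred hs))
    F (iota3 m φ)
    (by
      intro ε hε hred hs hpk hnF
      rw [hFd] at hnF
      obtain ⟨p, q, S⟩ := (hcls ε hε hred hs hpk).resolve_left hnF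
      have e1 := iota3_eq (m := m) (φ := φ) hB hs S
      have hopp := exch_opp hB E hε hred S
      have S' := exch_swp hB E hε S
      have hs' : ∑ t, exch m φ ε p q t ≤ 3 := by
        rw [hopp.sum]
        exact hs
      refine ⟨by rw [e1]; exact hopp, ?_, ?_⟩
      · rw [e1, hFd]
        rintro ⟨T, hT, h1⟩
        rw [h1] at S'
        exact S'.not_O3 hB hT
      · rw [e1, iota3_eq hB hs' S']
        exact exch_exch hB E S)
    (by
      intro ε hε hred hs hpk hFe
      obtain ⟨T, hT, rfl⟩ := (hFd ε).1 hFe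
      exact (hT.data hB m).2.2.1)
  have h1 : ((univ : Finset α).piAntidiag 3).filter
      (fun ε => m.Red ε ∧ GoodE i ε ∧ (pkF i ε).card + 1 < n) = ∅ := by
    rw [Finset.filter_eq_empty_iff]
    rintro ε hε ⟨h2, h3, h4⟩
    rw [mem_piAntidiag] at hε
    exact hcl ε h3 h2 hε.1.le h4
  have h2 : ((univ : Finset α).piAntidiag 3).filter
      (fun ε => m.Red ε ∧ GoodE i ε ∧ (pkF i ε).card + 1 = n ∧ F ε) =
      (O3 α i).image ind := by
    ext ε
    rw [mem_filter, mem_piAntidiag, mem_image, hFd]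
    constructor
    · rintro ⟨_, _, _, _, T, hT, rfl⟩
      exact ⟨T, mem_O3.2 hT, rfl⟩
    · rintro ⟨T, hT, rfl⟩
      rw [mem_O3] at hT
      obtain ⟨a1, a2, a3, a4, _⟩ := hT.data hB m
      exact ⟨⟨a3, fun _ _ => mem_univ _⟩, a2, a1, by rw [a4, hn], T, hT, rfl⟩
  rw [h1, h2, Finset.sum_empty, zero_add, Finset.sum_image (fun _ _ _ _ h => ind_inj h)] at key
  have h3 : ∑ T ∈ O3 α i, (-1 : ℤ) ^ (inF i (ind T)).card =
      (-1) ^ (low α i).card * ∑ T ∈ O3 α i, sgT i T := by
    rw [Finset.mul_sum]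
    apply Finset.sum_congr rfl
    intro T hT
    exact ((mem_O3.1 hT).data hB m).2.2.2.2
  rw [h3] at key
  rcases mul_eq_zero.1 key with h4 | h4
  · exact absurd h4 (pow_ne_zero _ (by norm_num))
  · exact h4

end Pool.Gauss
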