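import Pool.Agent.Work.MP_065141_co.K.V6Def

/-!
# Indicator configurations without excited elements in level `i`, objects of energy three
-/

set_option autoImplicit false
set_option linter.unusedSectionVars false
set_option linter.unusedVariables false
open scoped Classical
open Finset Polynomial

namespace Pool.Gauss

variable {α : Type} [Fintype α] [PartialOrder α] {i : ℕ}

section ind0

variable (hg : Grad α) (hl : HasLower α i) {T : Finset α} (hT : NClosed i T)
  (h0 : ∀ t ∈ T, corank t ≠ i)
  (hside : ∀ p ∈ T, ∀ p' ∈ T, ds i p = 1 → ds i p' = 1 → corank p < i → i < corank p' →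
    Disjoint (bd i p) (bd i p'))

include hg hl hT h0 hside in
lemma ind0_good : GoodE i (ind T) := by
  apply ind_goodE hg hl hT
  rintro y hy hyT p hp p' hp' h1 h2 ⟨h3, h4⟩
  have e1 : ds i p = 1 := by rw [fr_ds hg h1, ds_eq_zero.2 hy]
  have e2 : ds i p' = 1 := by rw [fr_ds hg h2, ds_eq_zero.2 hy]
  exact Finset.disjoint_left.1 (hside p hp p' hp' e1 e2 h3 h4) (mem_bd.2 h1) (mem_bd.2 h2)

include hg hl hT h0 in
lemma ind0_Fo : Fo i (ind T) = T.filter fun p => ds i p = 1 := by
  rw [ind_Fo hg hl]
  apply filter_congr
  intro p hp
  constructor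
  · rintro ⟨h1, h2⟩
    by_contra h3
    obtain ⟨s, hs⟩ := exists_near hg hl h1
    have h4 := fr_ds hg hs
    have h5 : corank s ≠ i := by
      intro h6
      rw [ds_eq_zero.2 h6] at h4
      exact h3 (by omega)
    exact h2 s hs (hT p hp s hs h5)
  · intro h1
    refine ⟨h0 p hp, ?_⟩
    intro s hs hsT
    have h2 := fr_ds hg hs
    exact h0 s hsT (ds_eq_zero.1 (by omega))

include hg h0 in
lemma ind0_Yd : Yd i (ind T) = NT i T := by
  rw [ind_Yd]
  ext y
  unfold NT
  rw [mem_filter, mem_biUnion, mem_lev]
  constructor
  · rintro ⟨h1, -, s, hs, h2⟩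
    exact ⟨s, mem_filter.2 ⟨hs, by rw [fr_ds hg h2, ds_eq_zero.2 h1]⟩, mem_bd.2 h2⟩
  · rintro ⟨s, hs, h2⟩
    rw [mem_filter] at hs
    have h1 : corank y = i := bd_lev hg hs.2 h2
    exact ⟨h1, fun h3 => h0 y h3 h1, s, hs.1, mem_bd.1 h2⟩

include hg h0 in
lemma ind0_Yin : Yin i (ind T) =
    (T.filter fun p => ds i p = 1 ∧ i < corank p).biUnion (bd i) := by
  rw [ind_Yin]
  ext y
  rw [mem_filter, mem_biUnion, mem_lev]
  constructor
  · rintro ⟨h1, -, s, hs, h2⟩
    have h4 := hg s y h2
    have h5 : fr i y s := fr_of_below h1.ge h2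
    exact ⟨s, mem_filter.2 ⟨hs, by rw [fr_ds hg h5, ds_eq_zero.2 h1], by omega⟩, mem_bd.2 h5⟩
  · rintro ⟨s, hs, h2⟩
    rw [mem_filter] at hs
    have h1 : corank y = i := bd_lev hg hs.2.1 h2
    exact ⟨h1, fun h3 => h0 y h3 h1, s, hs.1, (fr_below' hg (mem_bd.1 h2) hs.2.2).2⟩

include hg hl hT h0 hside in
/-- **indicator configurations without excited elements in level `i`** -/
theorem ind0_data : GoodE i (ind T) ∧
    (pkF i (ind T)).card + (NT i T).card = (lev α i).card + (T.filter fun p => ds i p = 1).card ∧
    (-1 : ℤ) ^ (inF i (ind T)).card = (-1) ^ (low α i).card * sgT i T := by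
  have hgood := ind0_good hg hl hT h0 hside
  have h1 := card_pkF hg hl hgood
  have h2 := sign_inF hg hl hgood
  rw [ind0_Fo hg hl hT h0, ind0_Yd hg h0] at h1
  refine ⟨hgood, h1, ?_⟩
  rw [h2, ind_Fd hT, card_empty, pow_zero, one_mul, ind0_Fo hg hl hT h0, ind0_Yin hg h0,
    filter_filter]
  rfl

include hg in
/-- a set in which every element next to level `i` has a farther neighbour is reduced -/
theorem ind0_red (m : Mat α i) (ha : ∀ p ∈ T, ds i p = 1 → ∃ q ∈ T, fr i p q) :
    m.Red (ind T) := by
  intro p hp
  have hd := rst_ds m hp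
  by_contra h
  have h1 : p ∈ T := ind_pos.1 (Nat.pos_of_ne_zero h)
  obtain ⟨q, hq, h2⟩ := ha p h1 hd
  exact (m.rst_prop hp).1 (att_of_fr hg hd h2 (by rw [ind_mem hq]; omega))

end ind0

/-! ### objects of energy three -/

section O3

variable (hB : PB α i) {T : Finset α} (hT : isO3 i T)
include hB hT

/-- the properties of an object of energy three -/
lemma isO3.props : NClosed i T ∧ (∀ t ∈ T, corank t ≠ i) ∧ T.card = 3 ∧
    (∀ p ∈ T, ds i p = 1 → ∃ q ∈ T, fr i p q) ∧
    (NT i T).card = (T.filter fun p => ds i p = 1).card + 1 ∧
    ((∀ p ∈ T, corank p < i) ∨ ∀ p ∈ T, i < corank p) := by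
  have hg := hB.hg
  rcases hT with ⟨q, hq, h3, rfl⟩ | ⟨p, q, t, hp, hbp, hq, hbq, ht, hbt, rfl⟩ |
    ⟨p, q, q', hp, hbp, hq, hbq, hq', hbq', hne, rfl⟩
  · rw [mem_U2] at hq
    have hA : ∀ t ∈ bd i q, ds i t = 1 := fun t ht => ds_of_mem_bd hg hq.1 ht
    have hqn : q ∉ bd i q := by
      intro h
      have := hA q h
      omega
    have hf : (insert q (bd i q)).filter (fun p => ds i p = 1) = bd i q := by
      rw [filter_insert, if_neg (by omega)]
      exact filter_true_of_mem hA
    refine ⟨?_, ?_, ?_, ?_, ?_, ?_⟩
    · intro s hs t hts ht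
      rw [mem_insert] at hs
      have h1 := fr_ds hg hts
      rcases hs with rfl | hs
      · exact mem_insert_of_mem (mem_bd.2 hts)
      · rw [hA s hs] at h1
        exact absurd (ds_eq_zero.1 (by omega)) ht
    · intro t ht h
      rw [← ds_eq_zero] at h
      rw [mem_insert] at ht
      rcases ht with rfl | ht
      · omega
      · have := hA t ht
        omega
    · rw [card_insert_of_notMem hqn, hq.2]
    · intro p hp h1
      rw [mem_insert] at hp
      rcases hp with rfl | hp
      · omega
      · exact ⟨q, mem_insert_self _ _, mem_bd.1 hp⟩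
    · unfold NT
      rw [hf, hq.2]
      exact h3
    · have hs : ∀ p ∈ bd i q, (corank p < i ↔ corank q < i) ∧ (i < corank p ↔ i < corank q) :=
        fun p hp => side_of_mem_bd hg hq.1 hp
      have hqi : corank q ≠ i := by
        intro h
        rw [← ds_eq_zero] at h
        omega
      rcases lt_or_gt_of_ne hqi with h | h
      · left
        intro p hp
        rw [mem_insert] at hp
        rcases hp with rfl | hp
        · exact h
        · exact (hs p hp).1.2 h
      · right
        intro p hp
        rw [mem_insert] at hp
        rcases hp with rfl | hp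
        · exact h
        · exact (hs p hp).2.2 h
  · have n1 : p ≠ q := ds_ne (i := i) (by omega)
    have n2 : p ≠ t := ds_ne (i := i) (by omega)
    have n3 : q ≠ t := ds_ne (i := i) (by omega)
    have hf : ({p, q, t} : Finset α).filter (fun p => ds i p = 1) = {p} := by
      rw [filter_insert, filter_insert, filter_singleton, if_pos hp, if_neg (by omega),
        if_neg (by omega)]
      rfl
    have f1 : fr i p q := by rw [← mem_bd, hbq]; simp
    have f2 : fr i q t := by rw [← mem_bd, hbt]; simp
    refine ⟨?_, ?_, ?_, ?_, ?_, ?_⟩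
    · intro s hs r hrs hr
      simp only [mem_insert, mem_singleton] at hs ⊢
      have h1 := fr_ds hg hrs
      rcases hs with rfl | rfl | rfl
      · rw [hp] at h1
        exact absurd (ds_eq_zero.1 (by omega)) hr
      · have : r ∈ bd i s := mem_bd.2 hrs
        rw [hbq, mem_singleton] at this
        exact Or.inl this
      · have : r ∈ bd i s := mem_bd.2 hrs
        rw [hbt, mem_singleton] at this
        exact Or.inr (Or.inl this)
    · intro r hr h
      rw [← ds_eq_zero] at h
      simp only [mem_insert, mem_singleton] at hr
      rcases hr with rfl | rfl | rfl <;> omega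
    · rw [card_insert_of_notMem, card_insert_of_notMem, card_singleton]
      · simpa using n3
      · simp [n1, n2]
    · intro r hr h1
      simp only [mem_insert, mem_singleton] at hr
      rcases hr with rfl | rfl | rfl
      · exact ⟨q, by simp, f1⟩
      · omega
      · omega
    · unfold NT
      rw [hf, singleton_biUnion, card_singleton, hbp]
    · have s1 := side_of_mem_bd hg hq (show p ∈ bd i q by rw [hbq]; simp)
      have hti : corank t ≠ i := by
        intro h
        rw [← ds_eq_zero] at h
        omega
      rcases lt_or_gt_of_ne hti with h | h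
      · left
        have h4 := (fr_above' hg f2 h).2
        have h5 := hg q t h4
        have h6 : corank q < i := by unfold ds at hq ht; omega
        intro r hr
        simp only [mem_insert, mem_singleton] at hr
        rcases hr with rfl | rfl | rfl
        · exact s1.1.2 h6
        · exact h6
        · exact h
      · right
        have h4 := (fr_below' hg f2 h).2
        have h5 := hg t q h4
        have h6 : i < corank q := by unfold ds at hq ht; omega
        intro r hr
        simp only [mem_insert, mem_singleton] at hr
        rcases hr with rfl | rfl | rfl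
        · exact s1.2.2 h6
        · exact h6
        · exact h
  · have n1 : p ≠ q := ds_ne (i := i) (by omega)
    have n2 : p ≠ q' := ds_ne (i := i) (by omega)
    have hf : ({p, q, q'} : Finset α).filter (fun p => ds i p = 1) = {p} := by
      rw [filter_insert, filter_insert, filter_singleton, if_pos hp, if_neg (by omega),
        if_neg (by omega)]
      rfl
    have f1 : fr i p q := by rw [← mem_bd, hbq]; simp
    refine ⟨?_, ?_, ?_, ?_, ?_, ?_⟩
    · intro s hs r hrs hr
      simp only [mem_insert, mem_singleton] at hs ⊢
      have h1 := fr_ds hg hrs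
      rcases hs with rfl | rfl | rfl
      · rw [hp] at h1
        exact absurd (ds_eq_zero.1 (by omega)) hr
      · have : r ∈ bd i s := mem_bd.2 hrs
        rw [hbq, mem_singleton] at this
        exact Or.inl this
      · have : r ∈ bd i s := mem_bd.2 hrs
        rw [hbq', mem_singleton] at this
        exact Or.inl this
    · intro r hr h
      rw [← ds_eq_zero] at h
      simp only [mem_insert, mem_singleton] at hr
      rcases hr with rfl | rfl | rfl <;> omega
    · rw [card_insert_of_notMem, card_insert_of_notMem, card_singleton]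
      · simpa using hne
      · simp [n1, n2]
    · intro r hr h1
      simp only [mem_insert, mem_singleton] at hr
      rcases hr with rfl | rfl | rfl
      · exact ⟨q, by simp, f1⟩
      · omega
      · omega
    · unfold NT
      rw [hf, singleton_biUnion, card_singleton, hbp]
    · have s1 := side_of_mem_bd hg hq (show p ∈ bd i q by rw [hbq]; simp)
      have s2 := side_of_mem_bd hg hq' (show p ∈ bd i q' by rw [hbq']; simp)
      have hpi : corank p ≠ i := by
        intro h
        rw [← ds_eq_zero] at h
        omega
      rcases lt_or_gt_of_ne hpi with h | h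
      · left
        intro r hr
        simp only [mem_insert, mem_singleton] at hr
        rcases hr with rfl | rfl | rfl
        · exact h
        · exact s1.1.1 h
        · exact s2.1.1 h
      · right
        intro r hr
        simp only [mem_insert, mem_singleton] at hr
        rcases hr with rfl | rfl | rfl
        · exact h
        · exact s1.2.1 h
        · exact s2.2.1 h

/-- **the data of an object of energy three** -/
theorem isO3.data (m : Mat α i) : GoodE i (ind T) ∧ m.Red (ind T) ∧ ∑ p, ind T p = 3 ∧
    (pkF i (ind T)).card + 1 = (lev α i).card ∧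
    (-1 : ℤ) ^ (inF i (ind T)).card = (-1) ^ (low α i).card * sgT i T := by
  obtain ⟨h1, h2, h3, h4, h5, h6⟩ := hT.props hB
  have hside : ∀ p ∈ T, ∀ p' ∈ T, ds i p = 1 → ds i p' = 1 → corank p < i → i < corank p' →
      Disjoint (bd i p) (bd i p') := by
    intro p hp p' hp' _ _ a1 a2
    exfalso
    rcases h6 with h | h
    · have := h p' hp'
      omega
    · have := h p hp
      omega
  obtain ⟨g1, g2, g3⟩ := ind0_data hB.hg hB.hl h1 h2 hside
  refine ⟨g1, ind0_red hB.hg m h4, by rw [sum_ind, h3], ?_, g3⟩
  omega

end O3

end Pool.Gauss
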