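import Pool.Agent.Work.MP_065141_co.K.V6Toggle

/-!
# Active diamonds: uniqueness, the involution, the survivor `(1, 1, 2, 2)`
-/

set_option autoImplicit false
set_option linter.unusedSectionVars false
set_option linter.unusedVariables false
set_option linter.unusedTactic false
set_option linter.unreachableTactic false
set_option linter.unusedSimpArgs false
open scoped Classical
open Finset Polynomial

namespace Pool.Gauss

variable {α : Type} [Fintype α] [PartialOrder α] {i : ℕ}

/-- no two elements next to level `i`, on the same side, over the same two elements -/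
def NoPar (α : Type) [Fintype α] [PartialOrder α] (i : ℕ) : Prop :=
  ∀ x x' y y' : α, corank y = i → corank y' = i → x ≠ x' → fr i y x → fr i y x' → fr i y' x →
    fr i y' x' → (i < corank x ↔ i < corank x') → y = y'

/-- no two elements at distance two with the same two nearer neighbours, which have a common
neighbour in level `i` -/
def NoDbl (α : Type) [Fintype α] [PartialOrder α] (i : ℕ) : Prop :=
  ∀ y x x' g g' : α, Dia i y x x' g → Dia i y x x' g' → g = g'

/-- a diamond with its environment, active for `ε` -/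
structure AD (i : ℕ) (y x x' g : α) (ε : α → ℕ) : Prop where
  D : Dia i y x x' g
  E : DEnv i y x x' g ε
  A : Act x x' y g ε

section ad

variable {y x x' g : α} {ε : α → ℕ}

lemma AD.symm (h : AD i y x x' g ε) : AD i y x' x g ε where
  D := h.D.symm
  E := h.E.symm
  A := by
    have := h.A
    unfold Act at this ⊢
    tauto

lemma AD.tog (hgr : Grad α) (h : AD i y x x' g ε) : AD i y x x' g (tog y g ε) where
  D := h.D
  E := h.E.tog hgr h.D
  A := h.A.tog hgr h.D h.E

lemma AD.sum4 (h : AD i y x x' g ε) : 2 ≤ ε y + ε g ∧ 4 ≤ ε x + ε x' + ε y + ε g := by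
  have h1 := h.E.px
  have h2 := h.E.px'
  have h3 := h.E.pg
  have h4 := h.A
  unfold Act at h4
  omega

lemma sum_ge_of_finset (ε : α → ℕ) (S : Finset α) : ∑ p ∈ S, ε p ≤ ∑ p, ε p :=
  Finset.sum_le_sum_of_subset (subset_univ S)

/-- **uniqueness of the active diamond** -/
theorem AD.unique (hgr : Grad α) (hpar : NoPar α i) (hdbl : NoDbl α i) {y₂ x₂ x₂' g₂ : α}
    (h : AD i y x x' g ε) (h₂ : AD i y₂ x₂ x₂' g₂ ε) (hs : ∑ p, ε p ≤ 6) :
    y = y₂ ∧ g = g₂ := by
  have D := h.D
  have D₂ := h₂.D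
  have E := h.E
  have E₂ := h₂.E
  have sx := D.ds_x hgr
  have sx' := D.ds_x' hgr
  have sg := D.ds_g hgr
  have sy := D.ds_y
  have tx := D₂.ds_x hgr
  have tx' := D₂.ds_x' hgr
  have tg := D₂.ds_g hgr
  have ty := D₂.ds_y
  have q1 := h.sum4
  have q2 := h₂.sum4
  have side := D.side hgr
  have side₂ := D₂.side hgr
  -- the same pair of elements next to level `i`
  have hpair : (x₂ = x ∨ x₂ = x') → (x₂' = x ∨ x₂' = x') → y = y₂ := by
    intro h1 h2
    have h3 : fr i y₂ x ∧ fr i y₂ x' := by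
      have a1 := D₂.hx
      have a2 := D₂.hx'
      have a3 := D₂.hne
      rcases h1 with h1 | h1 <;> rcases h2 with h2 | h2
      · exact absurd (h1.trans h2.symm) a3
      · rw [h1] at a1
        rw [h2] at a2
        exact ⟨a1, a2⟩
      · rw [h1] at a1
        rw [h2] at a2
        exact ⟨a2, a1⟩
      · exact absurd (h1.trans h2.symm) a3
    exact hpar x x' y y₂ D.hy D₂.hy D.hne D.hx D.hx' h3.1 h3.2 (by omega)
  by_cases hgg : g = g₂
  · refine ⟨?_, hgg⟩
    apply hpair
    · apply D.only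
      rw [hgg]
      exact D₂.hg
    · apply D.only
      rw [hgg]
      exact D₂.hg'
  · by_cases hyy : y = y₂
    · refine ⟨hyy, ?_⟩
      exfalso
      have h1 : x₂ = x ∨ x₂ = x' := by
        by_contra h1
        push Not at h1
        have := E.zero x₂ (by rw [hyy]; exact D₂.hx) h1.1 h1.2
        have := E₂.px
        omega
      have h2 : x₂' = x ∨ x₂' = x' := by
        by_contra h2
        push Not at h2
        have := E.zero x₂' (by rw [hyy]; exact D₂.hx') h2.1 h2.2
        have := E₂.px'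
        omega
      apply hgg
      rcases h1 with h1 | h1 <;> rcases h2 with h2 | h2
      · exact absurd (h1.trans h2.symm) D₂.hne
      · apply hdbl y x x' g g₂ D
        rw [h1, h2, ← hyy] at D₂
        exact D₂
      · apply hdbl y x x' g g₂ D
        rw [h1, h2, ← hyy] at D₂
        exact D₂.symm
      · exact absurd (h1.trans h2.symm) D₂.hne
    · exfalso
      -- the energy is at least seven
      have hns : ¬ ((x₂ = x ∨ x₂ = x') ∧ (x₂' = x ∨ x₂' = x')) := fun hh => hyy (hpair hh.1 hh.2)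
      -- one of the elements `x₂`, `x₂'` is new
      obtain ⟨u, hu1, hu2, hu3, hu4⟩ : ∃ u, u ≠ x ∧ u ≠ x' ∧ 1 ≤ ε u ∧ ds i u = 1 := by
        by_cases h1 : x₂ = x ∨ x₂ = x'
        · have h2 : ¬ (x₂' = x ∨ x₂' = x') := fun h2 => hns ⟨h1, h2⟩
          push Not at h2
          exact ⟨x₂', h2.1, h2.2, E₂.px', tx'⟩
        · push Not at h1
          exact ⟨x₂, h1.1, h1.2, E₂.px, tx⟩
      have hne : ∀ a b : α, ds i a ≠ ds i b → a ≠ b := by
        rintro a b hab rfl
        exact hab rfl
      have hS : ε y + (ε y₂ + (ε x + (ε x' + (ε u + (ε g + ε g₂))))) ≤ ∑ p, ε p := by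
        have h1 := sum_ge_of_finset ε ({y, y₂, x, x', u, g, g₂} : Finset α)
        rw [Finset.sum_insert, Finset.sum_insert, Finset.sum_insert, Finset.sum_insert,
          Finset.sum_insert, Finset.sum_insert, Finset.sum_singleton] at h1
        · exact h1
        · rw [mem_singleton]; exact hgg
        · simp only [mem_insert, mem_singleton, not_or]
          exact ⟨hne _ _ (by omega), hne _ _ (by omega)⟩
        · simp only [mem_insert, mem_singleton, not_or]
          exact ⟨hu2.symm, hne _ _ (by omega), hne _ _ (by omega)⟩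
        · simp only [mem_insert, mem_singleton, not_or]
          exact ⟨D.hne, hu1.symm, hne _ _ (by omega), hne _ _ (by omega)⟩
        · simp only [mem_insert, mem_singleton, not_or]
          exact ⟨hne _ _ (by omega), hne _ _ (by omega), hne _ _ (by omega), hne _ _ (by omega),
            hne _ _ (by omega)⟩
        · simp only [mem_insert, mem_singleton, not_or]
          exact ⟨hyy, hne _ _ (by omega), hne _ _ (by omega), hne _ _ (by omega),
            hne _ _ (by omega), hne _ _ (by omega)⟩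
      have := E.px
      have := E.px'
      omega

end ad

/-- there is an active diamond -/
def HasAD (i : ℕ) (ε : α → ℕ) : Prop := ∃ y x x' g : α, AD i y x x' g ε

/-- the toggle of the active diamond -/
noncomputable def togA (i : ℕ) (ε : α → ℕ) : α → ℕ :=
  if h : ∃ yg : α × α, ∃ x x' : α, AD i yg.1 x x' yg.2 ε then
    tog h.choose.1 h.choose.2 ε else ε

lemma togA_eq (hgr : Grad α) (hpar : NoPar α i) (hdbl : NoDbl α i) {y x x' g : α} {ε : α → ℕ}
    (h : AD i y x x' g ε) (hs : ∑ p, ε p ≤ 6) : togA i ε = tog y g ε := by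
  have h1 : ∃ yg : α × α, ∃ x x' : α, AD i yg.1 x x' yg.2 ε := ⟨(y, g), x, x', h⟩
  unfold togA
  rw [dif_pos h1]
  obtain ⟨a, b, hab⟩ := h1.choose_spec
  have h2 := AD.unique hgr hpar hdbl hab h hs
  rw [h2.1, h2.2]

/-- **cancellation of the active diamonds**: for every quantity which changes its sign under the
toggle -/
theorem sum_HasAD_eq_zero (hgr : Grad α) (hl : HasLower α i) (hpar : NoPar α i)
    (hdbl : NoDbl α i) (m : Mat α i) (s : ℕ) (hs : s ≤ 6) (d : ℕ) {R : Type} [CommRing R]
    (F : (α → ℕ) → R)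
    (hF : ∀ (ε : α → ℕ) (y x x' g : α), ∑ p, ε p = s → (pkF i ε).card = d → m.Red ε →
      GoodE i ε → AD i y x x' g ε → F ε + F (tog y g ε) = 0) :
    ∑ ε ∈ ((univ : Finset α).piAntidiag s).filter
      (fun ε => m.Red ε ∧ GoodE i ε ∧ (pkF i ε).card = d ∧ HasAD i ε), F ε = 0 := by
  have mem : ∀ ε : α → ℕ, ε ∈ ((univ : Finset α).piAntidiag s).filter
      (fun ε => m.Red ε ∧ GoodE i ε ∧ (pkF i ε).card = d ∧ HasAD i ε) ↔
      ∑ p, ε p = s ∧ m.Red ε ∧ GoodE i ε ∧ (pkF i ε).card = d ∧ HasAD i ε := by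
    intro ε
    rw [mem_filter, mem_piAntidiag]
    constructor
    · rintro ⟨⟨h1, _⟩, h2⟩
      exact ⟨h1, h2⟩
    · rintro ⟨h1, h2⟩
      exact ⟨⟨h1, fun p _ => mem_univ p⟩, h2⟩
  refine Finset.sum_involution (fun ε _ => togA i ε) ?_ ?_ ?_ ?_
  · intro ε hε
    rw [mem] at hε
    obtain ⟨h1, h2, h3, h4, y, x, x', g, h5⟩ := hε
    rw [togA_eq hgr hpar hdbl h5 (by omega)]
    exact hF ε y x x' g h1 h4 h2 h3 h5
  · intro ε hε _ hfix
    rw [mem] at hε
    obtain ⟨h1, h2, h3, h4, y, x, x', g, h5⟩ := hε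
    rw [togA_eq hgr hpar hdbl h5 (by omega)] at hfix
    exact tog_ne hgr hl h5.D h5.E h3 h5.A hfix
  · intro ε hε
    rw [mem] at hε
    rw [mem]
    obtain ⟨h1, h2, h3, h4, y, x, x', g, h5⟩ := hε
    rw [togA_eq hgr hpar hdbl h5 (by omega)]
    refine ⟨?_, ?_, ?_, ?_, y, x, x', g, h5.tog hgr⟩
    · rw [sum_tog hgr h5.D h5.E.pg, h1]
    · exact red_tog m hgr h5.D h5.E.pg h2
    · exact (good_tog hgr hl h5.D h5.E).2 h3
    · rw [card_pkF_tog hgr hl h5.D h5.E h3, h4]
  · intro ε hε
    rw [mem] at hε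
    obtain ⟨h1, h2, h3, h4, y, x, x', g, h5⟩ := hε
    have h6 := togA_eq hgr hpar hdbl h5 (by omega)
    have h7 : ∑ p, tog y g ε p ≤ 6 := by
      rw [sum_tog hgr h5.D h5.E.pg]
      omega
    simp only [h6]
    rw [togA_eq hgr hpar hdbl (h5.tog hgr) h7, tog_tog hgr h5.D h5.E.pg]

/-! ### adding energies on the set of summation -/

section add

variable {y x x' g : α} {ε κ : α → ℕ}

/-- elements next to level `i` below (above) an excited element are not in the set of summation -/
lemma notMem_rst_of_fr (m : Mat α i) (hgr : Grad α) {p q : α} (hp : ds i p = 1) (h : fr i p q)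
    (hq : 0 < ε q) : p ∉ m.rst ε := by
  intro h1
  apply (m.rst_prop h1).1
  rw [att_iff hgr hp]
  exact ⟨q, h, hq⟩

lemma rst_ds (m : Mat α i) {p : α} (hp : p ∈ m.rst ε) : ds i p = 1 := by
  have := (m.rst_prop hp).2
  unfold ds
  omega

/-- the environment is stable under adding energies on the set of summation, if no element of
this set is a neighbour of `y` -/
lemma DEnv.add (m : Mat α i) (hgr : Grad α) (D : Dia i y x x' g) (E : DEnv i y x x' g ε)
    (hr : ∀ p ∈ m.rst ε, ¬ fr i y p) (hκ : ∀ p, p ∉ m.rst ε → κ p = 0) :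
    DEnv i y x x' g (ε + κ) := by
  have hds : ∀ p, ds i p ≠ 1 → κ p = 0 := by
    intro p hp
    apply hκ
    intro h
    exact hp (rst_ds m h)
  have kx : κ x = 0 := hκ x (notMem_rst_of_fr m hgr (D.ds_x hgr) D.hg E.pg)
  have kx' : κ x' = 0 := hκ x' (notMem_rst_of_fr m hgr (D.ds_x' hgr) D.hg' E.pg)
  have kg : κ g = 0 := hds g (by rw [D.ds_g hgr]; omega)
  have ky : κ y = 0 := hds y (by rw [D.ds_y]; omega)
  have kfar : ∀ p q, ds i p = 1 → fr i p q → κ q = 0 := by
    intro p q hp hq
    apply hds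
    rw [fr_ds hgr hq, hp]
    omega
  refine ⟨?_, ?_, ?_, ?_, ?_, ?_, ?_, ?_, ?_, ?_⟩
  · simp only [Pi.add_apply, kx]
    exact E.px
  · simp only [Pi.add_apply, kx']
    exact E.px'
  · simp only [Pi.add_apply, kg]
    exact E.pg
  · intro z h1 h2 h3
    simp only [Pi.add_apply]
    rw [E.zero z h1 h2 h3, hκ z (fun h => hr z h h1)]
  · intro h h1 h2
    simp only [Pi.add_apply]
    rw [kfar x h (D.ds_x hgr) h1, kx]
    exact E.far h h1 h2
  · intro h h1 h2
    simp only [Pi.add_apply]
    rw [kfar x' h (D.ds_x' hgr) h1, kx']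
    exact E.far' h h1 h2
  · intro t h1 h2
    have h3 := fr_ds hgr h1
    rw [D.ds_x hgr] at h3
    simp only [Pi.add_apply]
    rw [hds t (by omega), kx]
    exact E.near t h1 h2
  · intro t h1 h2
    have h3 := fr_ds hgr h1
    rw [D.ds_x' hgr] at h3
    simp only [Pi.add_apply]
    rw [hds t (by omega), kx']
    exact E.near' t h1 h2
  · intro v h1
    have h3 := fr_ds hgr h1
    rw [D.ds_g hgr] at h3
    simp only [Pi.add_apply]
    rw [hds v (by omega), kg]
    exact E.vg v h1
  · intro v h1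
    have h3 := fr_ds hgr h1
    rw [D.ds_g hgr] at h3
    simp only [Pi.add_apply]
    rw [hds v (by omega), ky]
    exact E.vy v h1

lemma AD.add (m : Mat α i) (hgr : Grad α) (h : AD i y x x' g ε)
    (hr : ∀ p ∈ m.rst ε, ¬ fr i y p) (hκ : ∀ p, p ∉ m.rst ε → κ p = 0) :
    AD i y x x' g (ε + κ) := by
  have D := h.D
  have E := h.E
  have hds : ∀ p, ds i p ≠ 1 → κ p = 0 := by
    intro p hp
    apply hκ
    intro h
    exact hp (rst_ds m h)
  have kx : κ x = 0 := hκ x (notMem_rst_of_fr m hgr (D.ds_x hgr) D.hg E.pg)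
  have kx' : κ x' = 0 := hκ x' (notMem_rst_of_fr m hgr (D.ds_x' hgr) D.hg' E.pg)
  have kg : κ g = 0 := hds g (by rw [D.ds_g hgr]; omega)
  have ky : κ y = 0 := hds y (by rw [D.ds_y]; omega)
  refine ⟨D, E.add m hgr D hr hκ, ?_⟩
  have hA := h.A
  unfold Act at hA ⊢
  simp only [Pi.add_apply, kx, kx', kg, ky, add_zero]
  exact hA

/-- the weights of `ε + κ` and of the toggled function, up to powers of `X - 1` -/
theorem tm_tog_add (m : Mat α i) (hgr : Grad α) (hl : HasLower α i) (D : Dia i y x x' g)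
    (E : DEnv i y x x' g ε) (hr : ∀ p ∈ m.rst ε, ¬ fr i y p)
    (hκ : ∀ p, p ∉ m.rst ε → κ p = 0) :
    (X - 1 : ℤ[X]) ^ ((if corank g < i then -1 else 1) *
        dlt (ε x) (ε x') (ε g) (ε y)).toNat * tm i (tog y g ε + κ) =
      (X - 1 : ℤ[X]) ^ (-((if corank g < i then -1 else 1) *
        dlt (ε x) (ε x') (ε g) (ε y))).toNat * tm i (ε + κ) := by
  have E1 := E.add m hgr D hr hκ
  have hds : ∀ p, ds i p ≠ 1 → κ p = 0 := by
    intro p hp
    apply hκ
    intro h
    exact hp (rst_ds m h)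
  have kx : κ x = 0 := hκ x (notMem_rst_of_fr m hgr (D.ds_x hgr) D.hg E.pg)
  have kx' : κ x' = 0 := hκ x' (notMem_rst_of_fr m hgr (D.ds_x' hgr) D.hg' E.pg)
  have kg : κ g = 0 := hds g (by rw [D.ds_g hgr]; omega)
  have ky : κ y = 0 := hds y (by rw [D.ds_y]; omega)
  have h1 : tog y g ε + κ = tog y g (ε + κ) := (tog_add m hgr D hκ).symm
  rw [h1]
  by_cases h : GoodE i (ε + κ)
  · have h' := (good_tog hgr hl D E1).2 h
    have h2 := card_pkF_tog hgr hl D E1 h
    have h3 := card_inF_tog hgr hl D E1 h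
    simp only [Pi.add_apply, kx, kx', kg, ky, add_zero] at h3
    unfold tm
    rw [if_pos h, if_pos h', h2, ← mul_assoc, ← mul_assoc, ← pow_add, ← pow_add]
    congr 2
    set d : ℤ := (if corank g < i then -1 else 1) * dlt (ε x) (ε x') (ε g) (ε y)
    omega
  · have h' : ¬ GoodE i (tog y g (ε + κ)) := fun hh => h ((good_tog hgr hl D E1).1 hh)
    unfold tm
    rw [if_neg h, if_neg h', mul_zero, mul_zero]

/-- the level elements next to the set of summation are not changed -/
lemma tog_next (m : Mat α i) (hgr : Grad α) (D : Dia i y x x' g)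
    (hr : ∀ p ∈ m.rst ε, ¬ fr i y p) {p t : α} (hp : p ∈ m.rst ε) (ht : fr i t p) :
    t ≠ y ∧ tog y g ε t = ε t ∧ (inE i (tog y g ε) t ↔ inE i ε t) ∧
      (outE i (tog y g ε) t ↔ outE i ε t) := by
  have h1 : t ≠ y := by
    rintro rfl
    exact hr p hp ht
  have h2 : corank t = i := bd_lev hgr (rst_ds m hp) (mem_bd.2 ht)
  have h3 : t ≠ g := by
    rintro rfl
    have := D.ds_g hgr
    rw [ds_eq_zero.2 h2] at this
    omega
  exact ⟨h1, tog_of_ne h1 h3, inout_tog_of_ne hgr D h2 h1⟩

/-- the middle vertex of an excited diamond is not next to the set of summation, if the two pairs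
at `y` are matched -/
lemma tog_hr (m : Mat α i) (hgr : Grad α) (D : Dia i y x x' g) (hpx : 0 < ε g) {z z' : α}
    (hz : ((z, x) ∈ m.M ∧ (z', x') ∈ m.M) ∨ ((x, z) ∈ m.M ∧ (x', z') ∈ m.M))
    (hnb : ∀ q, fr i y q → q = x ∨ q = x' ∨ q = z ∨ q = z') :
    ∀ p ∈ m.rst ε, ¬ fr i y p := by
  intro p hp hy
  have nx : x ∉ m.rst ε := notMem_rst_of_fr m hgr (D.ds_x hgr) D.hg hpx
  have nx' : x' ∉ m.rst ε := notMem_rst_of_fr m hgr (D.ds_x' hgr) D.hg' hpx
  have ax : att i ε x := (att_iff hgr (D.ds_x hgr)).2 ⟨g, D.hg, hpx⟩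
  have ax' : att i ε x' := (att_iff hgr (D.ds_x' hgr)).2 ⟨g, D.hg', hpx⟩
  -- the partner of an attached element is not in the set of summation
  have key : ∀ a b : α, (a, b) ∈ m.M → (att i ε b → a ∉ m.rst ε) ∧ (att i ε a → b ∉ m.rst ε) := by
    intro a b hab
    have ca := m.cz _ hab
    have cb := m.cx _ hab
    obtain ⟨y1, y2, hne, t1, t2⟩ := m.two _ hab
    simp only at ca cb t1 t2
    constructor
    · intro hb ha
      unfold Mat.rst at ha
      rw [mem_union, mem_union, mem_image, mem_image] at ha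
      rcases ha with (⟨e, he, h1⟩ | ⟨e, he, h1⟩) | ha
      · unfold Mat.free at he
        rw [mem_filter] at he
        have h2 := m.inj1 e he.1 (a, b) hab h1
        rw [h2] at he
        exact he.2.2 hb
      · unfold Mat.free at he
        rw [mem_filter] at he
        have h2 := m.cx e he.1
        rw [h1] at h2
        omega
      · unfold sgl at ha
        rw [mem_filter] at ha
        rcases ha.2.1 with ⟨_, t, ht⟩ | ⟨h2, _⟩
        · have e1 := (ht y1).1 ((t1 y1).2 (Or.inl rfl))
          have e2 := (ht y2).1 ((t1 y2).2 (Or.inr rfl))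
          exact hne (e1.trans e2.symm)
        · omega
    · intro ha hb
      unfold Mat.rst at hb
      rw [mem_union, mem_union, mem_image, mem_image] at hb
      rcases hb with (⟨e, he, h1⟩ | ⟨e, he, h1⟩) | hb
      · unfold Mat.free at he
        rw [mem_filter] at he
        have h2 := m.cz e he.1
        rw [h1] at h2
        omega
      · unfold Mat.free at he
        rw [mem_filter] at he
        have h2 := m.inj2 e he.1 (a, b) hab h1
        rw [h2] at he
        exact he.2.1 ha
      · unfold sgl at hb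
        rw [mem_filter] at hb
        rcases hb.2.1 with ⟨h2, _⟩ | ⟨_, t, ht⟩
        · omega
        · have e1 := (ht y1).1 ((t2 y1).2 (Or.inl rfl))
          have e2 := (ht y2).1 ((t2 y2).2 (Or.inr rfl))
          exact hne (e1.trans e2.symm)
  rcases hnb p hy with h | h | h | h
  · exact nx (h ▸ hp)
  · exact nx' (h ▸ hp)
  · rcases hz with hz | hz
    · exact (key z x hz.1).1 ax (h ▸ hp)
    · exact (key x z hz.1).2 ax (h ▸ hp)
  · rcases hz with hz | hz
    · exact (key z' x' hz.2).1 ax' (h ▸ hp)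
    · exact (key x' z' hz.2).2 ax' (h ▸ hp)

end add

/-! ### the survivor -/

section surv

variable {y x x' g : α} {ε : α → ℕ}

/-- **the survivor**: if all conditions of the environment hold except the last one, and the
energy is at most six, then the configuration is `(x, x', g, v) = (1, 1, 2, 2)` -/
theorem survivor (hgr : Grad α) (hl : HasLower α i) (D : Dia i y x x' g) (hε : GoodE i ε)
    (hs : ∑ p, ε p ≤ 6) (px : 1 ≤ ε x) (px' : 1 ≤ ε x')
    (vg : ∀ v, fr i g v → ε v ≤ ε g) {v : α} (hv : fr i g v) (hv2 : ε y + 1 < ε v) :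
    ε x = 1 ∧ ε x' = 1 ∧ ε g = 2 ∧ ε v = 2 ∧ ∑ p, ε p = 6 ∧
      (∀ p, p ≠ x → p ≠ x' → p ≠ g → p ≠ v → ε p = 0) ∧ ∀ p, fr i p v → p = g := by
  have h1 := vg v hv
  have sx := D.ds_x hgr
  have sx' := D.ds_x' hgr
  have sg := D.ds_g hgr
  have sv := fr_ds hgr hv
  have hne : ∀ a b : α, ds i a ≠ ds i b → a ≠ b := by
    rintro a b hab rfl
    exact hab rfl
  have key : ∀ p, p ≠ x → p ≠ x' → p ≠ g → p ≠ v →
      ε p + (ε x + (ε x' + (ε g + ε v))) ≤ ∑ q, ε q := by
    intro p p1 p2 p3 p4
    have h2 := sum_ge_of_finset ε ({p, x, x', g, v} : Finset α)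
    rw [Finset.sum_insert, Finset.sum_insert, Finset.sum_insert, Finset.sum_insert,
      Finset.sum_singleton] at h2
    · exact h2
    · rw [mem_singleton]; exact hne _ _ (by omega)
    · simp only [mem_insert, mem_singleton, not_or]
      exact ⟨hne _ _ (by omega), hne _ _ (by omega)⟩
    · simp only [mem_insert, mem_singleton, not_or]
      exact ⟨D.hne, hne _ _ (by omega), hne _ _ (by omega)⟩
    · simp only [mem_insert, mem_singleton, not_or]
      exact ⟨p1, p2, p3, p4⟩
  have hy := key y (D.ne_yx hgr).symm (D.symm.ne_yx hgr).symm (D.ne_yg hgr)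
    (hne _ _ (by rw [D.ds_y]; omega))
  have a1 : ε x = 1 := by omega
  have a2 : ε x' = 1 := by omega
  have a3 : ε g = 2 := by omega
  have a4 : ε v = 2 := by omega
  have a5 : ∑ p, ε p = 6 := by omega
  have a6 : ∀ p, p ≠ x → p ≠ x' → p ≠ g → p ≠ v → ε p = 0 := by
    intro p p1 p2 p3 p4
    have := key p p1 p2 p3 p4
    omega
  refine ⟨a1, a2, a3, a4, a5, a6, ?_⟩
  intro p hp
  by_contra h3
  have h4 := fr_ds hgr hp
  have h5 : corank p ≠ i := by
    intro h6
    rw [ds_eq_zero.2 h6] at h4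
    omega
  have h6 := closure hgr hl hε hp h5 (by omega)
  rw [a6 p (hne _ _ (by omega)) (hne _ _ (by omega)) h3 (hne _ _ (by omega))] at h6
  omega

end surv

end Pool.Gauss
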