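import Pool.Agent.Work.MP_065141_co.P4
import Pool.Agent.Work.MP_065141_co.K.V6Toggle2

/-!
# The survivor configuration `(1, 1, 2, 2)` of a diamond with a single far neighbour
-/

set_option autoImplicit false
set_option linter.unusedSectionVars false
set_option linter.unusedVariables false
open scoped Classical
open Finset Polynomial

namespace Pool.Gauss

variable {α : Type} [Fintype α] [PartialOrder α] {i : ℕ}

/-- `v` is at distance three, its only nearer neighbour `g` has two nearer neighbours, over three
elements of level `i` -/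
def isV (i : ℕ) (g v : α) : Prop :=
  g ∈ U2 α i ∧ (BB i g).card = 3 ∧ bd i v = {g}

/-- the configuration: energy two on `v` and `g`, energy one on the nearer neighbours of `g` -/
noncomputable def cfV (i : ℕ) (g v : α) : α → ℕ := cfE4 i g + (ind {v} + ind {v})

section

variable {g v : α}

lemma isV.fr (h : isV i g v) : fr i g v := by
  rw [← mem_bd, h.2.2]
  exact mem_singleton_self g

lemma isV.ds_g (h : isV i g v) : ds i g = 2 := (mem_U2.1 h.1).1

lemma isV.ds_v (hg : Grad α) (h : isV i g v) : ds i v = 3 := by
  rw [fr_ds hg h.fr, h.ds_g]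

lemma cfE4_self (hg : Grad α) (hq : g ∈ U2 α i) : cfE4 i g g = 2 := by
  unfold cfE4
  simp only [Pi.add_apply]
  rw [ind_mem (by simp), ind_mem (by simp)]

lemma cfE4_bd (hg : Grad α) (hq : g ∈ U2 α i) {t : α} (ht : t ∈ bd i g) : cfE4 i g t = 1 := by
  unfold cfE4
  simp only [Pi.add_apply]
  rw [ind_mem (by rw [union_empty, mem_union]; exact Or.inr ht), ind_notMem]
  rw [mem_singleton]
  rintro rfl
  have := ds_of_mem_bd hg (mem_U2.1 hq).1 ht
  rw [(mem_U2.1 hq).1] at this
  omega

lemma cfE4_zero {t : α} (h1 : t ≠ g) (h2 : t ∉ bd i g) : cfE4 i g t = 0 := by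
  unfold cfE4
  simp only [Pi.add_apply]
  rw [ind_notMem (by rw [union_empty, mem_union, mem_singleton]; tauto),
    ind_notMem (by rwa [mem_singleton])]

lemma cfV_v (hg : Grad α) (h : isV i g v) : cfV i g v v = 2 := by
  have h1 : v ≠ g := by
    intro h1
    have h2 := h.ds_v hg
    rw [h1, h.ds_g] at h2
    omega
  have h2 : v ∉ bd i g := by
    intro h2
    have h3 := ds_of_mem_bd hg h.ds_g h2
    rw [h.ds_v hg] at h3
    omega
  unfold cfV
  simp only [Pi.add_apply]
  rw [cfE4_zero h1 h2, ind_mem (mem_singleton_self v)]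

lemma cfV_of_ne {t : α} (h1 : t ≠ v) : cfV i g v t = cfE4 i g t := by
  unfold cfV
  simp only [Pi.add_apply]
  rw [ind_notMem (by rwa [mem_singleton])]
  rfl

/-- the data of `cfV` -/
theorem cfV_data (hg : Grad α) (hl : HasLower α i) (m : Mat α i) (h : isV i g v) {n : ℕ}
    (hn : (lev α i).card = n) :
    cfV i g v ∈ m.TT 6 n ∧
      (-1 : ℤ) ^ (inF i (cfV i g v)).card = (-1) ^ (low α i).card * (-1) := by
  have hq := h.1
  have hB := h.2.1
  have hdg := h.ds_g
  have hdv := h.ds_v hg
  rw [mem_U2] at hq
  have hA : ∀ t ∈ bd i g, ds i t = 1 := fun t ht => ds_of_mem_bd hg hdg ht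
  have hgi : corank g ≠ i := by
    intro h
    rw [← ds_eq_zero] at h
    omega
  have hvi : corank v ≠ i := by
    intro h
    rw [← ds_eq_zero] at h
    omega
  have hgg : g ∉ bd i g := by
    intro h
    have := hA g h
    omega
  have hvg : v ≠ g := by
    rintro rfl
    omega
  have hvA : v ∉ bd i g := by
    intro h
    have := hA v h
    omega
  -- values
  have vv : cfV i g v v = 2 := cfV_v hg h
  have vg : cfV i g v g = 2 := by rw [cfV_of_ne hvg.symm, cfE4_self hg h.1]
  have vp : ∀ t ∈ bd i g, cfV i g v t = 1 := by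
    intro t ht
    rw [cfV_of_ne, cfE4_bd hg h.1 ht]
    rintro rfl
    exact hvA ht
  have v0 : ∀ t, t ≠ v → t ≠ g → t ∉ bd i g → cfV i g v t = 0 := by
    intro t h1 h2 h3
    rw [cfV_of_ne h1, cfE4_zero h2 h3]
  have vlev : ∀ y, corank y = i → cfV i g v y = 0 := by
    intro y hy
    apply v0
    · rintro rfl
      exact hvi hy
    · rintro rfl
      exact hgi hy
    · intro h
      have := hA y h
      rw [ds_eq_zero.2 hy] at this
      omega
  have hle : ∀ t, cfV i g v t ≤ 2 := by
    intro t
    by_cases h1 : t = v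
    · rw [h1, vv]
    · by_cases h2 : t = g
      · rw [h2, vg]
      · by_cases h3 : t ∈ bd i g
        · rw [vp t h3]; omega
        · rw [v0 t h1 h2 h3]; omega
  have hfd : ∀ t, fd i (cfV i g v) t ↔ t ∈ bd i g ∨ t ∈ BB i g := by
    intro t
    constructor
    · rintro ⟨s, hs1, hs2⟩
      by_cases hsv : s = v
      · exfalso
        have h1 : t = g := by
          have h2 : t ∈ bd i v := mem_bd.2 (by rw [← hsv]; exact hs1)
          rw [h.2.2, mem_singleton] at h2
          exact h2
        rw [hsv, h1, vv, vg] at hs2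
        omega
      · by_cases hsg : s = g
        · left
          rw [hsg] at hs1
          exact mem_bd.2 hs1
        · by_cases hs : s ∈ bd i g
          · right
            unfold BB
            rw [mem_biUnion]
            exact ⟨s, hs, mem_bd.2 hs1⟩
          · rw [v0 s hsv hsg hs] at hs2
            omega
    · rintro (h1 | h1)
      · exact ⟨g, mem_bd.1 h1, by rw [vg, vp t h1]; omega⟩
      · have hti : corank t = i := by
          have := BB_subset hg hdg h1
          rwa [mem_lev] at this
        unfold BB at h1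
        rw [mem_biUnion] at h1
        obtain ⟨s, hs, hs2⟩ := h1
        exact ⟨s, mem_bd.1 hs2, by rw [vp s hs, vlev t hti]; omega⟩
  have hnd : ∀ t, corank t ≠ i → (nd i (cfV i g v) t ↔ t ≠ g ∧ t ∉ bd i g) := by
    intro t ht
    constructor
    · rintro ⟨s, hs1, hs2⟩
      constructor
      · rintro rfl
        have h1 : s ∈ bd i t := mem_bd.2 hs1
        rw [vg, vp s h1] at hs2
        omega
      · intro h1
        have h2 : corank s = i := bd_lev hg (hA t h1) (mem_bd.2 hs1)
        rw [vp t h1, vlev s h2] at hs2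
        omega
    · rintro ⟨h1, h2⟩
      by_cases htv : t = v
      · exact ⟨g, by rw [htv]; exact h.fr, by rw [htv, vv, vg]⟩
      · obtain ⟨s, hs⟩ := exists_near hg hl ht
        exact ⟨s, hs, by rw [v0 t htv h1 h2]; omega⟩
  have hBlev : ∀ t ∈ BB i g, corank t = i := by
    intro t ht
    have := BB_subset hg hdg ht
    rwa [mem_lev] at this
  have near_of : ∀ t, ds i t = 1 → 0 < cfV i g v t → t ∈ bd i g := by
    intro t ht h0
    by_contra h1
    rw [v0 t _ _ h1] at h0
    · omega
    · rintro rfl
      omega
    · rintro rfl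
      omega
  have hgood : GoodE i (cfV i g v) := by
    apply goodE_of_goodS hg hl
    constructor
    · rintro t ht ⟨h1, h2⟩
      rw [hfd] at h1
      rw [hnd t ht] at h2
      rcases h1 with h1 | h1
      · exact h2.2 h1
      · exact ht (hBlev t h1)
    · rintro y hy ⟨h1, h2⟩
      rw [inE_lev hy] at h1
      rw [outE_lev hy] at h2
      obtain ⟨x, hx, h1⟩ := h1
      obtain ⟨z, hz, h2⟩ := h2
      have e1 : ds i x = 1 := by rw [fr_ds hg (fr_of_below hy.ge hx), ds_eq_zero.2 hy]
      have e2 : ds i z = 1 := by rw [fr_ds hg (fr_of_above hy.le hz), ds_eq_zero.2 hy]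
      have h3 := hg x y hx
      have h4 := hg y z hz
      have hx1 := near_of x e1 (by omega)
      have hz1 := near_of z e2 (by omega)
      have := side_of_mem_bd hg hdg hx1
      have := side_of_mem_bd hg hdg hz1
      omega
  have hred : m.Red (cfV i g v) := by
    intro t ht
    have h1 := (m.rst_prop ht).1
    have hd := rst_ds m ht
    by_contra h2
    exact h1 (att_of_fr hg hd (mem_bd.1 (near_of t hd (by omega))) (by rw [vg]; omega))
  have hFo : Fo i (cfV i g v) = {g} := by
    ext t
    unfold Fo
    rw [mem_filter, mem_singleton]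
    constructor
    · rintro ⟨_, h1, h2, h3⟩
      rw [hfd] at h2
      rw [hnd t h1] at h3
      by_contra h4
      exact h3 ⟨h4, fun h5 => h2 (Or.inl h5)⟩
    · rintro rfl
      refine ⟨mem_univ _, hgi, ?_, ?_⟩
      · rw [hfd]
        rintro (h1 | h1)
        · exact hgg h1
        · exact hgi (hBlev t h1)
      · rw [hnd t hgi]
        exact fun h1 => h1.1 rfl
  have hYd : Yd i (cfV i g v) = BB i g := by
    ext y
    unfold Yd
    rw [mem_filter, mem_lev, hfd]
    constructor
    · rintro ⟨h1, h2 | h2⟩
      · have := hA y h2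
        rw [ds_eq_zero.2 h1] at this
        omega
      · exact h2
    · intro h1
      exact ⟨hBlev y h1, Or.inr h1⟩
  have hFdd : Fd i (cfV i g v) = bd i g := by
    ext t
    unfold Fd
    rw [mem_filter, hfd]
    constructor
    · rintro ⟨_, h1, h2 | h2⟩
      · exact h2
      · exact absurd (hBlev t h2) h1
    · intro h1
      refine ⟨mem_univ _, ?_, Or.inl h1⟩
      intro h2
      have := hA t h1
      rw [ds_eq_zero.2 h2] at this
      omega
  have hpk := card_pkF hg hl hgood
  have hsg := sign_inF hg hl hgood
  rw [hFo, hYd, card_singleton, hB] at hpk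
  have hc := card_cfg (Q := {g}) (A := bd i g) (by simpa using hdg) hA (Z := ∅) (by simp)
  constructor
  · rw [m.mem_TT]
    refine ⟨?_, hred, hgood, by omega⟩
    unfold cfV cfE4
    simp only [Pi.add_apply]
    rw [Finset.sum_add_distrib, Finset.sum_add_distrib, Finset.sum_add_distrib, sum_ind, sum_ind,
      sum_ind, hc, hq.2]
    simp
  · rw [hsg, hFdd, hFo, hq.2]
    congr 1
    rcases lt_or_gt_of_ne hgi with h1 | h1
    · -- above
      have h2 : (({g} : Finset α).filter fun p => corank p < i) = {g} := by
        rw [Finset.filter_singleton, if_pos h1]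
      have h3 : Yin i (cfV i g v) = ∅ := by
        unfold Yin
        apply Finset.filter_false_of_mem
        intro y hy
        rw [mem_lev] at hy
        rw [inE_lev hy]
        rintro ⟨x, hx, h4⟩
        have e1 : ds i x = 1 := by rw [fr_ds hg (fr_of_below hy.ge hx), ds_eq_zero.2 hy]
        have h5 := hg x y hx
        have hx1 := near_of x e1 (by omega)
        have := side_of_mem_bd hg hdg hx1
        omega
      rw [h2, h3]
      simp
    · have h2 : (({g} : Finset α).filter fun p => corank p < i) = ∅ := by
        rw [Finset.filter_singleton, if_neg (by omega)]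
      have h3 : Yin i (cfV i g v) = BB i g := by
        ext y
        unfold Yin
        rw [mem_filter, mem_lev]
        constructor
        · rintro ⟨hy, h4⟩
          rw [inE_lev hy] at h4
          obtain ⟨x, hx, h4⟩ := h4
          have e0 := fr_of_below hy.ge hx
          have e1 : ds i x = 1 := by rw [fr_ds hg e0, ds_eq_zero.2 hy]
          have hx1 := near_of x e1 (by omega)
          unfold BB
          rw [mem_biUnion]
          exact ⟨x, hx1, mem_bd.2 e0⟩
        · intro h4
          have hy := hBlev y h4
          refine ⟨hy, ?_⟩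
          rw [inE_lev hy]
          unfold BB at h4
          rw [mem_biUnion] at h4
          obtain ⟨x, hx, h5⟩ := h4
          have h6 := side_of_mem_bd hg hdg hx
          refine ⟨x, (fr_below' hg (mem_bd.1 h5) (by omega)).2, ?_⟩
          rw [vp x hx, vlev y hy]
          omega
      rw [h2, h3, hB]
      simp

/-- the survivor of a diamond is `cfV` -/
theorem survivor_eq (hg : Grad α) (hl : HasLower α i) {y x x' : α} {ε : α → ℕ}
    (D : Dia i y x x' g) (hε : GoodE i ε)
    (hs : ∑ p, ε p ≤ 6) (px : 1 ≤ ε x) (px' : 1 ≤ ε x')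
    (vg : ∀ v, Pool.Gauss.fr i g v → ε v ≤ ε g) (hv : Pool.Gauss.fr i g v)
    (hv2 : ε y + 1 < ε v) :
    ε = cfV i g v ∧ bd i v = {g} := by
  obtain ⟨a1, a2, a3, a4, a5, a6, a7⟩ := survivor hg hl D hε hs px px' vg hv hv2
  have hbv : bd i v = {g} := by
    ext p
    rw [mem_bd, mem_singleton]
    constructor
    · exact a7 p
    · rintro rfl
      exact hv
  have hbg : bd i g = {x, x'} := by
    ext p
    rw [mem_bd, mem_insert, mem_singleton]
    constructor
    · exact D.only p
    · rintro (rfl | rfl)
      · exact D.hg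
      · exact D.hg'
  have hgU : g ∈ U2 α i := by
    rw [mem_U2, hbg, card_pair D.hne]
    exact ⟨D.ds_g hg, rfl⟩
  have dv : ds i v = 3 := by rw [fr_ds hg hv, D.ds_g hg]
  have hne : ∀ a b : α, ds i a ≠ ds i b → a ≠ b := by
    rintro a b hab rfl
    exact hab rfl
  have hvg : v ≠ g := hne _ _ (by rw [dv, D.ds_g hg]; omega)
  have hvx : v ≠ x := hne _ _ (by rw [dv, D.ds_x hg]; omega)
  have hvx' : v ≠ x' := hne _ _ (by rw [dv, D.ds_x' hg]; omega)
  refine ⟨?_, hbv⟩
  funext t
  by_cases h1 : t = v
  · rw [h1, a4]
    unfold cfV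
    simp only [Pi.add_apply]
    rw [cfE4_zero hvg (by rw [hbg, mem_insert, mem_singleton]; tauto),
      ind_mem (mem_singleton_self v)]
  · rw [cfV_of_ne h1]
    by_cases h2 : t = g
    · rw [h2, a3, cfE4_self hg hgU]
    · by_cases h3 : t ∈ bd i g
      · rw [cfE4_bd hg hgU h3]
        rw [hbg, mem_insert, mem_singleton] at h3
        rcases h3 with h3 | h3
        · rw [h3, a1]
        · rw [h3, a2]
      · rw [cfE4_zero h2 h3]
        rw [hbg, mem_insert, mem_singleton, not_or] at h3
        exact a6 t h3.1 h3.2 h2 h1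

/-- different survivors are different functions -/
lemma cfV_inj (hg : Grad α) {g' v' : α} (h : isV i g v) (h' : isV i g' v')
    (he : cfV i g v = cfV i g' v') : g = g' ∧ v = v' := by
  have key : ∀ {a b : α}, isV i a b → ∀ t, ds i t = 3 → (cfV i a b t = 2 ↔ t = b) := by
    intro a b hab t ht
    constructor
    · intro h1
      by_contra h2
      rw [cfV_of_ne h2, cfE4_zero] at h1
      · omega
      · rintro rfl
        rw [hab.ds_g] at ht
        omega
      · intro h3
        have := ds_of_mem_bd hg hab.ds_g h3
        omega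
    · rintro rfl
      exact cfV_v hg hab
  have h1 : v = v' := by
    have h2 := (key h v (h.ds_v hg)).2 rfl
    rw [he] at h2
    exact (key h' v (h.ds_v hg)).1 h2
  refine ⟨?_, h1⟩
  have h3 := h.2.2
  rw [h1, h'.2.2] at h3
  exact (Finset.singleton_injective h3).symm

end

end Pool.Gauss
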