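import Pool.Agent.Work.MP_065141_co.Rel3
import Pool.Agent.Work.MP_065141_co.K.V6Surv

/-!
# Classification of the configurations of loss at least two and energy at most six
Part A: definitions and general lemmas
-/

set_option autoImplicit false
set_option linter.unusedSectionVars false
set_option linter.unusedVariables false
open scoped Classical
open Finset Polynomial

namespace Pool.Gauss

variable {α : Type} [Fintype α] [PartialOrder α] {i : ℕ}

/-! ### energy bookkeeping -/

/-- the energies of distinct elements, sorted by the distance from level `i` -/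
lemma lsum {ε : α → ℕ} {N : ℕ} (hs : ∑ p, ε p ≤ N) (l0 l1 l2 l3 : List α)
    (n0 : l0.Nodup) (n1 : l1.Nodup) (n2 : l2.Nodup) (n3 : l3.Nodup)
    (d0 : ∀ t ∈ l0, ds i t = 0) (d1 : ∀ t ∈ l1, ds i t = 1) (d2 : ∀ t ∈ l2, ds i t = 2)
    (d3 : ∀ t ∈ l3, 3 ≤ ds i t) :
    (l0.map ε).sum + (l1.map ε).sum + (l2.map ε).sum + (l3.map ε).sum ≤ N := by
  have hn : (l0 ++ (l1 ++ (l2 ++ l3))).Nodup := by
    rw [List.nodup_append, List.nodup_append, List.nodup_append]
    refine ⟨n0, ⟨n1, ⟨n2, n3, ?_⟩, ?_⟩, ?_⟩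
    · intro a ha b hb hab
      have h1 := d2 a ha
      have h2 := d3 b hb
      rw [hab] at h1
      omega
    · intro a ha b hb hab
      have h1 := d1 a ha
      rw [List.mem_append] at hb
      rw [hab] at h1
      rcases hb with hb | hb
      · have h2 := d2 b hb
        omega
      · have h2 := d3 b hb
        omega
    · intro a ha b hb hab
      have h1 := d0 a ha
      rw [List.mem_append, List.mem_append] at hb
      rw [hab] at h1
      rcases hb with hb | hb | hb
      · have h2 := d1 b hb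
        omega
      · have h2 := d2 b hb
        omega
      · have h2 := d3 b hb
        omega
  have h1 := List.sum_toFinset ε hn
  have h2 := sum_ge (l0 ++ (l1 ++ (l2 ++ l3))).toFinset ε
  rw [h1] at h2
  simp only [List.map_append, List.sum_append] at h2
  omega

/-! ### definitions -/

/-- the excited elements at distance two -/
noncomputable def Bx (i : ℕ) (ε : α → ℕ) : Finset α := univ.filter fun p => ds i p = 2 ∧ 0 < ε p

lemma mem_Bx {ε : α → ℕ} {p : α} : p ∈ Bx i ε ↔ ds i p = 2 ∧ 0 < ε p := by simp [Bx]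

/-- the elements of level `i` next to the excited elements -/
noncomputable def NA (i : ℕ) (ε : α → ℕ) : Finset α := (Ax i ε).biUnion (bd i)

lemma mem_NA {ε : α → ℕ} {y : α} : y ∈ NA i ε ↔ ∃ p, (ds i p = 1 ∧ 0 < ε p) ∧ y ∈ bd i p := by
  unfold NA
  rw [mem_biUnion]
  simp only [mem_Ax]

variable (α i) in
/-- the properties of a perfect base which are used in the classification -/
structure PB : Prop where
  hg : Grad α
  hl : HasLower α i
  deg : ∀ p : α, (bd i p).card ≤ 2
  dy : ∀ y p1 p2 p3 : α, fr i y p1 → fr i y p2 → fr i y p3 → corank y = i →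
    ((corank p1 < i ∧ corank p2 < i ∧ corank p3 < i) ∨
      (i < corank p1 ∧ i < corank p2 ∧ i < corank p3)) → p1 = p2 ∨ p1 = p3 ∨ p2 = p3
  P3 : ∀ q ∈ U2 α i, (BB i q).card ≤ 3
  nb : ∀ q ∈ U2 α i, (BB i q).card = 3 → ∀ p ∈ bd i q, (bd i p).card = 2

/-- the configurations which are classified -/
structure Cf (m : Mat α i) (ε : α → ℕ) : Prop where
  good : GoodE i ε
  red : m.Red ε
  e6 : ∑ p, ε p ≤ 6
  ls : (Fo i ε).card + 2 ≤ (Yd i ε).card

/-- an element next to level `i` with a single excited farther neighbour, which can be moved to the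
other side -/
structure Swp (i : ℕ) (ε : α → ℕ) (p q : α) : Prop where
  dp : ds i p = 1
  bp : (bd i p).card = 2
  dq : ds i q = 2
  bq : bd i q = {p}
  p0 : 0 < ε p
  q0 : 0 < ε q
  wp : ∀ w, fr i p w → w ≠ q → ε w = 0
  tq : ∀ t, fr i q t → ε t = 0
  dom : ∃ y ∈ bd i p, ε y < ε p
  free : ∀ y ∈ bd i p, ε y < ε p → ∀ p2, fr i y p2 → p2 ≠ p → ε p2 ≤ ε y
  par : ∀ p2, p2 ≠ p → bd i p2 = bd i p → ε p2 = 0

/-! ### objects of energy three, exceptional configurations -/

/-- an element at distance two over three elements of level `i`, with its nearer neighbours -/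
def isC3 (i : ℕ) (T : Finset α) : Prop :=
  ∃ q ∈ U2 α i, (BB i q).card = 3 ∧ T = insert q (bd i q)

/-- a chain `p`, `q`, `t` at the distances one, two, three, with `p` double -/
def isG3 (i : ℕ) (T : Finset α) : Prop :=
  ∃ p q t : α, ds i p = 1 ∧ (bd i p).card = 2 ∧ ds i q = 2 ∧ bd i q = {p} ∧ ds i t = 3 ∧
    bd i t = {q} ∧ T = {p, q, t}

/-- a double element `p` with two single farther neighbours -/
def isDP (i : ℕ) (T : Finset α) : Prop :=
  ∃ p q q' : α, ds i p = 1 ∧ (bd i p).card = 2 ∧ ds i q = 2 ∧ bd i q = {p} ∧ ds i q' = 2 ∧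
    bd i q' = {p} ∧ q ≠ q' ∧ T = {p, q, q'}

/-- an object of energy three -/
def isO3 (i : ℕ) (T : Finset α) : Prop := isC3 i T ∨ isG3 i T ∨ isDP i T

/-- the elements of level `i` next to a set -/
noncomputable def NT (i : ℕ) (T : Finset α) : Finset α :=
  (T.filter fun p => ds i p = 1).biUnion (bd i)

/-- two objects of energy three without common neighbours in level `i` -/
def TwoObj (i : ℕ) (ε : α → ℕ) : Prop :=
  ∃ T T' : Finset α, isO3 i T ∧ isO3 i T' ∧ Disjoint T T' ∧ Disjoint (NT i T) (NT i T') ∧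
    ε = ind (T ∪ T')

/-- an excited element over two single elements over two different double elements -/
def VPP (i : ℕ) (ε : α → ℕ) : Prop :=
  ∃ v q q' p p' : α, ds i v = 3 ∧ bd i v = {q, q'} ∧ q ≠ q' ∧ bd i q = {p} ∧ bd i q' = {p'} ∧
    p ≠ p' ∧ (bd i p).card = 2 ∧ (bd i p').card = 2 ∧ 0 < ε v

/-- an element over a single element over a double element, and over an element at distance two over
three other elements of level `i` -/
def VPC (i : ℕ) (ε : α → ℕ) : Prop :=
  ∃ v q g p : α, ds i v = 3 ∧ bd i v = {q, g} ∧ bd i q = {p} ∧ (bd i p).card = 2 ∧ g ∈ U2 α i ∧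
    (BB i g).card = 3 ∧ Disjoint (bd i p) (BB i g) ∧ ε = ind ({v, q, g, p} ∪ bd i g)

/-! ### the free elements -/

/-- if there is no free element outside level `i` then the energy of some neighbour of an excited
element is maximal -/
lemma peak' (hg : Grad α) {ε : α → ℕ} (h1 : ∃ p, corank p ≠ i ∧ 0 < ε p) (hF : Fo i ε = ∅) :
    ∃ y b, ds i b = 1 ∧ 0 < ε b ∧ y ∈ bd i b ∧ ∀ p, corank p ≠ i → ε p ≤ ε y := by
  obtain ⟨p0, hp0, hp0'⟩ := h1
  set T := univ.filter (fun p : α => corank p ≠ i ∧ 0 < ε p) with hT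
  have hTne : T.Nonempty := ⟨p0, by rw [hT, mem_filter]; exact ⟨mem_univ _, hp0, hp0'⟩⟩
  obtain ⟨a, ha, hmax⟩ := Finset.exists_max_image T ε hTne
  set T' := T.filter (fun p => ε p = ε a) with hT'
  have hTne' : T'.Nonempty := ⟨a, by rw [hT', mem_filter]; exact ⟨ha, rfl⟩⟩
  obtain ⟨b, hb, hmin⟩ := Finset.exists_min_image T' (ds i) hTne'
  rw [hT', mem_filter] at hb
  have hbT := hb.1
  rw [hT, mem_filter] at hbT
  have hall : ∀ p, corank p ≠ i → ε p ≤ ε b := by
    intro p hp
    by_cases h : 0 < ε p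
    · have := hmax p (by rw [hT, mem_filter]; exact ⟨mem_univ _, hp, h⟩)
      omega
    · omega
  have hb0 : b ∉ Fo i ε := by rw [hF]; simp
  have hfd : ¬ fd i ε b := by
    rintro ⟨q, hq1, hq2⟩
    have := hall q (fr_ne hg hq1)
    omega
  have hnd : nd i ε b := by
    by_contra h
    exact hb0 (by unfold Fo; rw [mem_filter]; exact ⟨mem_univ _, hbT.2.1, hfd, h⟩)
  obtain ⟨q, hq1, hq2⟩ := hnd
  have hqi : corank q = i := by
    by_contra hq
    have hqT : q ∈ T := by
      rw [hT, mem_filter]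
      exact ⟨mem_univ _, hq, by omega⟩
    have h3 := hmax q hqT
    have hqT' : q ∈ T' := by
      rw [hT', mem_filter]
      exact ⟨hqT, by omega⟩
    have h4 := hmin q hqT'
    have h5 := fr_ds hg hq1
    omega
  refine ⟨q, b, ?_, hbT.2.2, mem_bd.2 hq1, fun p hp => (hall p hp).trans hq2⟩
  rw [fr_ds hg hq1, ds_eq_zero.2 hqi]

lemma Yd_sub_NA (hg : Grad α) {ε : α → ℕ} : Yd i ε ⊆ NA i ε := Yd_subset hg

/-- a dominated element has an excited neighbour -/
lemma exists_dom {ε : α → ℕ} (hg : Grad α) {y : α} (h : y ∈ Yd i ε) :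
    ∃ p, ds i p = 1 ∧ 0 < ε p ∧ y ∈ bd i p ∧ ε y < ε p := by
  rw [mem_Yd] at h
  obtain ⟨h1, p, h2, h3⟩ := h
  refine ⟨p, ?_, by omega, mem_bd.2 h2, h3⟩
  rw [fr_ds hg h2, ds_eq_zero.2 h1]

lemma mem_Fo {ε : α → ℕ} {p : α} : p ∈ Fo i ε ↔ corank p ≠ i ∧ ¬ fd i ε p ∧ ¬ nd i ε p := by
  unfold Fo
  rw [mem_filter]
  simp

lemma ds_pos {p : α} (h : 0 < ds i p) : corank p ≠ i := by
  intro h1
  rw [ds_eq_zero.2 h1] at h
  omega

section Cf

variable {m : Mat α i} {ε : α → ℕ} (hB : PB α i) (h : Cf m ε)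
include hB h

lemma Cf.exc : ∃ p, ds i p = 1 ∧ 0 < ε p := by
  have h1 : (Yd i ε).Nonempty := by
    rw [← Finset.card_pos]
    have := h.ls
    omega
  obtain ⟨y, hy⟩ := h1
  obtain ⟨p, h2, h3, _⟩ := exists_dom hB.hg hy
  exact ⟨p, h2, h3⟩

/-- at least three neighbours in level `i` -/
lemma Cf.NA3 : 3 ≤ (NA i ε).card := by
  have h0 := h.ls
  have hsub := Yd_sub_NA hB.hg (i := i) (ε := ε)
  have h1 := card_le_card hsub
  rcases Finset.eq_empty_or_nonempty (Fo i ε) with hF | hF
  · obtain ⟨p, hp, hp'⟩ := h.exc hB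
    obtain ⟨y, b, hb, hb0, hy, hmax⟩ := peak' hB.hg ⟨p, ds_pos (by omega), hp'⟩ hF
    have hyN : y ∈ NA i ε := mem_NA.2 ⟨b, ⟨hb, hb0⟩, hy⟩
    have hyY : y ∉ Yd i ε := by
      intro hc
      obtain ⟨p2, h2, h3, h4, h5⟩ := exists_dom hB.hg hc
      have := hmax p2 (ds_pos (by omega))
      omega
    have h2 : Yd i ε ⊆ (NA i ε).erase y := fun t ht =>
      mem_erase.2 ⟨fun hc => hyY (hc ▸ ht), hsub ht⟩
    have h3 := card_le_card h2
    rw [card_erase_of_mem hyN] at h3
    omega
  · have := Finset.card_pos.2 hF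
    omega

end Cf

section Cf

variable {m : Mat α i} {ε : α → ℕ} (hB : PB α i) (hF : m.FullX ∅) (h : Cf m ε)
include hB hF h

/-- every excited element next to level `i` is attached -/
lemma Cf.att {p : α} (hp : ds i p = 1) (hpos : 0 < ε p) : att i ε p := by
  have hg := hB.hg
  have hl := hB.hl
  have hε := h.good
  by_contra hatt
  -- the partner
  have hpr : p ∉ m.rst ε := by
    intro h1
    have := h.red p h1
    omega
  obtain ⟨e, he, hep⟩ : ∃ e ∈ m.M, p = e.1 ∨ p = e.2 := by
    rcases hF p hp with h1 | h1 | h1 | h1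
    · simp at h1
    · exfalso
      apply hpr
      unfold Mat.rst
      rw [mem_union]
      right
      unfold sgl
      rw [mem_filter]
      exact ⟨mem_univ _, Or.inl h1, hatt⟩
    · exfalso
      apply hpr
      unfold Mat.rst
      rw [mem_union]
      right
      unfold sgl
      rw [mem_filter]
      exact ⟨mem_univ _, Or.inr h1, hatt⟩
    · exact h1
  have c1 := m.cz e he
  have c2 := m.cx e he
  have d1 : ds i e.1 = 1 := by unfold ds; omega
  have d2 : ds i e.2 = 1 := by unfold ds; omega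
  obtain ⟨y, y', hne, hz, hx⟩ := m.bd_matched hg he
  -- `a` is the attached partner
  obtain ⟨a, ha1, hab, haa, hasd⟩ : ∃ a, ds i a = 1 ∧ bd i a = bd i p ∧ Gauss.att i ε a ∧
      ((corank a < i ∧ i < corank p) ∨ (i < corank a ∧ corank p < i)) := by
    rcases hep with rfl | rfl
    · refine ⟨e.2, d2, by rw [hz, hx], ?_, Or.inr ⟨by omega, by omega⟩⟩
      by_contra h2
      apply hpr
      unfold Mat.rst
      rw [mem_union, mem_union, mem_image]
      left; left
      exact ⟨e, mem_filter.2 ⟨he, hatt, h2⟩, rfl⟩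
    · refine ⟨e.1, d1, by rw [hz, hx], ?_, Or.inl ⟨by omega, by omega⟩⟩
      by_contra h2
      apply hpr
      unfold Mat.rst
      rw [mem_union, mem_union, mem_image, mem_image]
      left; right
      exact ⟨e, mem_filter.2 ⟨he, h2, hatt⟩, rfl⟩
  have hpb : bd i p = {y, y'} := by
    rcases hep with rfl | rfl
    · exact hz
    · exact hx
  obtain ⟨q, hfq, hq0, hq2, ha0⟩ := att_pos hg hl hε ha1 haa
  have hpa : p ≠ a := by
    rintro rfl
    exact hatt haa
  have hlev : ∀ t ∈ bd i p, corank t = i ∧ 0 < ε t := by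
    intro t ht
    have h6 : corank t = i := bd_lev hg hp ht
    refine ⟨h6, ?_⟩
    by_contra h7
    have := same_side hg hε h6 (mem_bd.1 ht) (mem_bd.1 (hab ▸ ht : t ∈ bd i a)) (by omega) (by omega)
    omega
  have hy1 := hlev y (by rw [hpb]; simp)
  have hy2 := hlev y' (by rw [hpb]; simp)
  have dy1 : ds i y = 0 := ds_eq_zero.2 hy1.1
  have dy2 : ds i y' = 0 := ds_eq_zero.2 hy2.1
  have hsum := lsum (i := i) h.e6 [y, y'] [p, a] [q] [] (by simpa using hne) (by simpa using hpa)
    (by simp) (by simp) (by simp [dy1, dy2]) (by simp [hp, ha1]) (by simp [hq2]) (by simp)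
  simp only [List.map_cons, List.map_nil, List.sum_cons, List.sum_nil] at hsum
  -- nothing is excited over `p`
  have hpfar : ∀ t, fr i p t → ε t = 0 := by
    intro t ht
    by_contra h1
    exact hatt (att_of_fr hg hp ht (by omega))
  -- another excited element next to level `i`
  by_cases hex : ∃ b, ds i b = 1 ∧ 0 < ε b ∧ b ≠ p ∧ b ≠ a
  · obtain ⟨b, hb1, hb0, hbp, hba⟩ := hex
    have hc : ({y, y', p, a, b, q} : Finset α).card = 6 := by
      have n1 : y ≠ p := ds_ne (i := i) (by omega)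
      have n2 : y ≠ a := ds_ne (i := i) (by omega)
      have n3 : y ≠ b := ds_ne (i := i) (by omega)
      have n4 : y ≠ q := ds_ne (i := i) (by omega)
      have n5 : y' ≠ p := ds_ne (i := i) (by omega)
      have n6 : y' ≠ a := ds_ne (i := i) (by omega)
      have n7 : y' ≠ b := ds_ne (i := i) (by omega)
      have n8 : y' ≠ q := ds_ne (i := i) (by omega)
      have n9 : p ≠ q := ds_ne (i := i) (by omega)
      have n10 : a ≠ q := ds_ne (i := i) (by omega)
      have n11 : b ≠ q := ds_ne (i := i) (by omega)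
      rw [card_insert_of_notMem, card_insert_of_notMem, card_insert_of_notMem,
        card_insert_of_notMem, card_insert_of_notMem, card_singleton]
      · simpa using n11
      · simp [hba.symm, n10]
      · simp [hpa, hbp.symm, n9]
      · simp [n5, n6, n7, n8]
      · simp [hne, n1, n2, n3, n4]
    have he : ε = ind {y, y', p, a, b, q} := by
      apply eq_ind
      · intro t ht
        simp only [mem_insert, mem_singleton] at ht
        rcases ht with rfl | rfl | rfl | rfl | rfl | rfl
        · exact hy1.2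
        · exact hy2.2
        · exact hpos
        · exact ha0
        · exact hb0
        · exact hq0
      · rw [hc]
        exact h.e6
    have hle : ∀ t, ε t ≤ 1 := by
      intro t
      rw [he]
      unfold ind
      split_ifs <;> omega
    have hYd : ∀ t ∈ Yd i ε, t ∈ bd i b ∧ ε t = 0 := by
      intro t ht
      obtain ⟨p2, h2, h3, h4, h5⟩ := exists_dom hg ht
      have h6 := hle p2
      have ht0 : ε t = 0 := by omega
      refine ⟨?_, ht0⟩
      have h7 : p2 ∈ ({y, y', p, a, b, q} : Finset α) := by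
        rw [he] at h3
        exact ind_pos.1 h3
      simp only [mem_insert, mem_singleton] at h7
      rcases h7 with rfl | rfl | rfl | rfl | rfl | rfl
      · omega
      · omega
      · have := (hlev t h4).2
        omega
      · have := (hlev t (hab ▸ h4)).2
        omega
      · exact h4
      · omega
    have hYc : (Yd i ε).card ≤ 2 := (card_le_card fun t ht => (hYd t ht).1).trans (hB.deg b)
    have hls := h.ls
    have hFo : Fo i ε = ∅ := by
      rw [← Finset.card_eq_zero]
      omega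
    have hYe : Yd i ε = bd i b := by
      apply Finset.eq_of_subset_of_card_le fun t ht => (hYd t ht).1
      have := hB.deg b
      omega
    have hbF : b ∈ Fo i ε := by
      rw [mem_Fo]
      refine ⟨ds_pos (by omega), ?_, ?_⟩
      · rintro ⟨t, _, h2⟩
        have := hle t
        omega
      · rintro ⟨t, h1, h2⟩
        have := (hYd t (hYe ▸ mem_bd.2 h1)).2
        omega
    rw [hFo] at hbF
    simp at hbF
  · push Not at hex
    have hA : ∀ b, ds i b = 1 → 0 < ε b → b = p ∨ b = a := by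
      intro b hb hb0
      by_contra h1
      push Not at h1
      exact h1.2 (hex b hb hb0 h1.1)
    have hNA : NA i ε ⊆ bd i p := by
      intro t ht
      rw [mem_NA] at ht
      obtain ⟨b, ⟨h1, h2⟩, h3⟩ := ht
      rcases hA b h1 h2 with rfl | rfl
      · exact h3
      · rw [← hab]
        exact h3
    have h1 := card_le_card hNA
    have h2 := h.NA3 hB
    have h3 := hB.deg p
    omega

/-- every excited element next to level `i` has an excited farther neighbour -/
lemma Cf.far {p : α} (hp : ds i p = 1) (hpos : 0 < ε p) :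
    ∃ q, fr i p q ∧ 0 < ε q ∧ ds i q = 2 := by
  obtain ⟨q, h1, h2, h3, _⟩ := att_pos hB.hg hB.hl h.good hp (h.att hB hF hp hpos)
  exact ⟨q, h1, h2, h3⟩

end Cf

lemma nd_iff {ε : α → ℕ} {p : α} : nd i ε p ↔ ∃ q ∈ bd i p, ε p ≤ ε q := by
  unfold nd
  constructor
  · rintro ⟨q, h1, h2⟩
    exact ⟨q, mem_bd.2 h1, h2⟩
  · rintro ⟨q, h1, h2⟩
    exact ⟨q, mem_bd.1 h1, h2⟩

lemma nd_pair {ε : α → ℕ} {p a b : α} (h : bd i p = {a, b}) :
    nd i ε p ↔ ε p ≤ ε a ∨ ε p ≤ ε b := by
  rw [nd_iff, h]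
  simp

lemma nd_single {ε : α → ℕ} {p a : α} (h : bd i p = {a}) : nd i ε p ↔ ε p ≤ ε a := by
  rw [nd_iff, h]
  simp

lemma not_fd_iff {ε : α → ℕ} {p : α} : ¬ fd i ε p ↔ ∀ q, fr i p q → ε q ≤ ε p := by
  unfold fd
  push Not
  rfl

/-- in a good configuration an element which is dominated by a nearer one is not dominated by a
farther one -/
lemma not_fd_of_nd (hg : Grad α) (hl : HasLower α i) {ε : α → ℕ} (hε : GoodE i ε) {p : α}
    (hp : corank p ≠ i) (h : nd i ε p) : ∀ q, fr i p q → ε q ≤ ε p :=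
  not_fd_iff.1 fun h1 => (goodS_of_goodE hg hl hε).1 p hp ⟨h1, h⟩

lemma mem_Yd' (hg : Grad α) {ε : α → ℕ} {y : α} (hy : corank y = i) :
    y ∈ Yd i ε ↔ ∃ p, ds i p = 1 ∧ 0 < ε p ∧ y ∈ bd i p ∧ ε y < ε p := by
  constructor
  · exact exists_dom hg
  · rintro ⟨p, _, _, h3, h4⟩
    rw [mem_Yd]
    exact ⟨hy, p, mem_bd.1 h3, h4⟩

/-- the nearer neighbours of excited elements at distance two are excited -/
lemma bd_sub_Ax (hB : PB α i) {ε : α → ℕ} (hε : GoodE i ε) {q : α} (hq : ds i q = 2)
    (hq0 : 0 < ε q) : bd i q ⊆ Ax i ε := by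
  intro p hp
  have h1 := ds_of_mem_bd hB.hg hq hp
  rw [mem_Ax]
  exact ⟨h1, closure hB.hg hB.hl hε (mem_bd.1 hp) (ds_pos (by omega)) hq0⟩

lemma bd_sub_Bx (hB : PB α i) {ε : α → ℕ} (hε : GoodE i ε) {v : α} (hv : ds i v = 3)
    (hv0 : 0 < ε v) : bd i v ⊆ Bx i ε := by
  intro p hp
  have h1 := fr_ds hB.hg (mem_bd.1 hp)
  rw [mem_Bx]
  exact ⟨by omega, closure hB.hg hB.hl hε (mem_bd.1 hp) (ds_pos (by omega)) hv0⟩

lemma bd_nonempty (hB : PB α i) {q : α} (hq : 0 < ds i q) : (bd i q).Nonempty := by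
  obtain ⟨t, ht⟩ := exists_near hB.hg hB.hl (ds_pos hq)
  exact ⟨t, mem_bd.2 ht⟩

lemma bd_of_sub_pair (hB : PB α i) {q a b : α} (hq : 0 < ds i q) (h : bd i q ⊆ {a, b}) :
    bd i q = {a} ∨ bd i q = {b} ∨ bd i q = {a, b} := by
  obtain ⟨t, ht⟩ := bd_nonempty hB hq
  by_cases ha : a ∈ bd i q <;> by_cases hb : b ∈ bd i q
  · right; right
    apply Finset.Subset.antisymm h
    intro s hs
    simp only [mem_insert, mem_singleton] at hs
    rcases hs with rfl | rfl
    · exact ha
    · exact hb
  · left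
    ext s
    rw [mem_singleton]
    constructor
    · intro hs
      have := h hs
      simp only [mem_insert, mem_singleton] at this
      rcases this with rfl | rfl
      · rfl
      · exact absurd hs hb
    · rintro rfl
      exact ha
  · right; left
    ext s
    rw [mem_singleton]
    constructor
    · intro hs
      have := h hs
      simp only [mem_insert, mem_singleton] at this
      rcases this with rfl | rfl
      · exact absurd hs ha
      · rfl
    · rintro rfl
      exact hb
  · exfalso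
    have := h ht
    simp only [mem_insert, mem_singleton] at this
    rcases this with rfl | rfl
    · exact ha ht
    · exact hb ht

/-- the shape of a diamond -/
lemma diamond_shape (hB : PB α i) {g x x' : α} (hg2 : ds i g = 2) (hbg : bd i g = {x, x'})
    (hne : x ≠ x') (h3 : 3 ≤ (BB i g).card) :
    ∃ y y0 y', bd i x = {y, y0} ∧ bd i x' = {y0, y'} ∧ y ≠ y0 ∧ y0 ≠ y' ∧ y ≠ y' := by
  have hU : g ∈ U2 α i := mem_U2.2 ⟨hg2, by rw [hbg, card_pair hne]⟩
  have h4 := hB.P3 g hU
  have h5 : (BB i g).card = 3 := by omega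
  have hx := hB.nb g hU h5 x (by rw [hbg]; simp)
  have hx' := hB.nb g hU h5 x' (by rw [hbg]; simp)
  have hBB : BB i g = bd i x ∪ bd i x' := by
    unfold BB
    rw [hbg, biUnion_insert, singleton_biUnion]
  have h6 := Finset.card_union_add_card_inter (bd i x) (bd i x')
  rw [← hBB, h5, hx, hx'] at h6
  obtain ⟨y0, hy0⟩ := Finset.card_eq_one.1 (by omega : (bd i x ∩ bd i x').card = 1)
  have hm : y0 ∈ bd i x ∩ bd i x' := by rw [hy0]; simp
  rw [mem_inter] at hm
  have key : ∀ S : Finset α, S.card = 2 → y0 ∈ S → ∃ t, t ≠ y0 ∧ S = {t, y0} := by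
    intro S hS hyS
    obtain ⟨a, b, hab, hSe⟩ := Finset.card_eq_two.1 hS
    rw [hSe, mem_insert, mem_singleton] at hyS
    rcases hyS with rfl | rfl
    · exact ⟨b, hab.symm, by rw [hSe, pair_comm]⟩
    · exact ⟨a, hab, hSe⟩
  obtain ⟨y, h7, h8⟩ := key _ hx hm.1
  obtain ⟨y', h9, h10⟩ := key _ hx' hm.2
  refine ⟨y, y0, y', h8, by rw [h10, pair_comm], h7, h9.symm, ?_⟩
  rintro rfl
  have : y ∈ bd i x ∩ bd i x' := by rw [mem_inter, h8, h10]; simp
  rw [hy0, mem_singleton] at this
  exact h7 this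

end Pool.Gauss
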