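import Pool.Agent.Work.MP_065141_co.K.PlnV6
import Pool.Agent.Work.MP_065141_co.K.V6ClsA

/-!
# The objects of the laws V3, V5, V6 at a perfect level

Symmetric language (both sides of level `i`, for the classification of energy functions):
`evtS` events, `c3S` triples, `jS` the objects J, `jtS` the same over touching pairs, `dS` doubled
triples, `seS` single neighbours of triples (SSE), `xS` joins of an event and a triple with disjoint
supports, `O3` the objects of energy three (triples, single neighbours of events, doubled events),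
`sgT` the sign of a set, `HS` the sum of the signs of the events over a pair, `chi` the charge of a
support.  The laws: `V3L`, `V5L`, `V6L`.

Sided language (below / above): `NEv`, `VEv`, `JEv`, `JtEv`, `DEv`, `SEv`, `GEv`, `XEv`, `DPEv` and
the mirror images with a prime.
-/

set_option autoImplicit false
set_option linter.unusedSectionVars false
open scoped Classical
open Finset

namespace Pool.Gauss

variable {α : Type} [Fintype α] [PartialOrder α]

/-! ### symmetric language -/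

section sym

variable (α) (i : ℕ)

/-- events: one nearer neighbour, over two elements of level `i` -/
noncomputable def evtS : Finset α := (U1 α i).filter fun q => (BB i q).card = 2

/-- triples: two nearer neighbours, over three elements of level `i` -/
noncomputable def c3S : Finset α := (U2 α i).filter fun q => (BB i q).card = 3

/-- elements at distance three over two events over disjoint pairs -/
noncomputable def jS : Finset α := univ.filter fun v => ds i v = 3 ∧ (bd i v).card = 2 ∧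
  (∀ q ∈ bd i v, q ∈ evtS α i) ∧ ∀ q ∈ bd i v, ∀ q' ∈ bd i v, q ≠ q' → Disjoint (BB i q) (BB i q')

/-- the same over events with different nearer neighbours over touching pairs -/
noncomputable def jtS : Finset α := univ.filter fun v => ds i v = 3 ∧ (bd i v).card = 2 ∧
  (∀ q ∈ bd i v, q ∈ evtS α i) ∧ ∀ q ∈ bd i v, ∀ q' ∈ bd i v, q ≠ q' →
    bd i q ≠ bd i q' ∧ ¬ Disjoint (BB i q) (BB i q')

/-- doubled triples -/
noncomputable def dS : Finset (Finset α) :=
  ((c3S α i).powersetCard 2).filter fun s => ∀ q ∈ s, ∀ q' ∈ s, bd i q = bd i q'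

/-- single neighbours of triples -/
noncomputable def seS : Finset α :=
  univ.filter fun v => ds i v = 3 ∧ ∃ g ∈ c3S α i, bd i v = {g}

/-- joins of an event and a triple with disjoint supports -/
noncomputable def xS : Finset α :=
  univ.filter fun v => ds i v = 3 ∧ ∃ q ∈ evtS α i, ∃ g ∈ c3S α i,
    bd i v = {q, g} ∧ Disjoint (BB i q) (BB i g)

/-- the objects of energy three -/
noncomputable def O3 : Finset (Finset α) := univ.filter fun T => isO3 i T

end sym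

/-- the sign of a set of excited elements (energy one, nothing excited in level `i`) -/
noncomputable def sgT (i : ℕ) (T : Finset α) : ℤ :=
  (-1) ^ (T.filter fun p => ds i p = 1 ∧ corank p < i).card *
    (-1) ^ ((T.filter fun p => ds i p = 1 ∧ i < corank p).biUnion (bd i)).card

/-- the sum of the signs of the events over a pair -/
noncomputable def HS (i : ℕ) (S : Finset α) : ℤ :=
  ∑ q ∈ (evtS α i).filter (fun q => BB i q = S), sg i q

/-- the charge of a support -/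
noncomputable def chi (i : ℕ) (S : Finset α) : ℤ :=
  ∑ T ∈ (O3 α i).filter (fun T => NT i T = S), sgT i T

variable (α) in
/-- the law V3 -/
def V3L (i : ℕ) : Prop := ∑ T ∈ O3 α i, sgT i T = 0

variable (α) in
/-- the law V5 -/
def V5L (i : ℕ) : Prop :=
  ∑ q ∈ evtS α i, ∑ q' ∈ evtS α i, (if (BB i q ∩ BB i q').card = 1 then sg i q * sg i q' else 0) +
    2 * ((jS α i).card : ℤ) - 2 * ((dS α i).card : ℤ) = 0

variable (α) in
/-- the law V6 -/
def V6L (i : ℕ) : Prop :=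
  2 * (((seS α i).card : ℤ) + (xS α i).card) = ∑ T ∈ O3 α i, ∑ T' ∈ O3 α i,
    (if Disjoint (NT i T) (NT i T') then sgT i T * sgT i T' else 0)

/-! ### sided language -/

section sided

variable (α) (b : ℕ)

/-- common children -/
noncomputable def NEv : Finset α :=
  univ.filter fun g => corank g = b + 2 ∧ (Pr g).card = 2 ∧ (Pr2 g).card = 3

/-- common parents -/
noncomputable def VEv : Finset α :=
  univ.filter fun z => corank z + 2 = b ∧ (Ch z).card = 2 ∧ (Ch2 z).card = 3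

/-- the objects J below -/
noncomputable def JEv : Finset α := univ.filter fun v => corank v = b + 3 ∧ (Pr v).card = 2 ∧
  (∀ w ∈ Pr v, w ∈ PEv α b) ∧ ∀ w ∈ Pr v, ∀ w' ∈ Pr v, w ≠ w' → Disjoint (Pr2 w) (Pr2 w')

/-- the objects J above -/
noncomputable def JEv' : Finset α := univ.filter fun v => corank v + 3 = b ∧ (Ch v).card = 2 ∧
  (∀ w ∈ Ch v, w ∈ QEv α b) ∧ ∀ w ∈ Ch v, ∀ w' ∈ Ch v, w ≠ w' → Disjoint (Ch2 w) (Ch2 w')

/-- common children of P-elements over touching pairs -/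
noncomputable def JtEv : Finset α := univ.filter fun v => corank v = b + 3 ∧ (Pr v).card = 2 ∧
  (∀ w ∈ Pr v, w ∈ PEv α b) ∧ ∀ w ∈ Pr v, ∀ w' ∈ Pr v, w ≠ w' →
    Pr w ≠ Pr w' ∧ ¬ Disjoint (Pr2 w) (Pr2 w')

/-- common parents of Q-elements over touching pairs -/
noncomputable def JtEv' : Finset α := univ.filter fun v => corank v + 3 = b ∧ (Ch v).card = 2 ∧
  (∀ w ∈ Ch v, w ∈ QEv α b) ∧ ∀ w ∈ Ch v, ∀ w' ∈ Ch v, w ≠ w' →
    Ch w ≠ Ch w' ∧ ¬ Disjoint (Ch2 w) (Ch2 w')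

/-- doubled common children -/
noncomputable def DEv : Finset (Finset α) :=
  ((NEv α b).powersetCard 2).filter fun s => ∀ g ∈ s, ∀ g' ∈ s, Pr g = Pr g'

/-- doubled common parents -/
noncomputable def DEv' : Finset (Finset α) :=
  ((VEv α b).powersetCard 2).filter fun s => ∀ g ∈ s, ∀ g' ∈ s, Ch g = Ch g'

/-- single children of common children (SSE) -/
noncomputable def SEv : Finset α :=
  univ.filter fun u => corank u = b + 3 ∧ ∃ g ∈ NEv α b, Pr u = {g}

/-- single parents of common parents -/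
noncomputable def SEv' : Finset α :=
  univ.filter fun u => corank u + 3 = b ∧ ∃ g ∈ VEv α b, Ch u = {g}

/-- common children of a P-element and a common child with disjoint supports -/
noncomputable def XEv : Finset α := univ.filter fun v => corank v = b + 3 ∧
  ∃ w ∈ PEv α b, ∃ g ∈ NEv α b, Pr v = {w, g} ∧ Disjoint (Pr2 w) (Pr2 g)

/-- common parents of a Q-element and a common parent with disjoint supports -/
noncomputable def XEv' : Finset α := univ.filter fun v => corank v + 3 = b ∧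
  ∃ w ∈ QEv α b, ∃ g ∈ VEv α b, Ch v = {w, g} ∧ Disjoint (Ch2 w) (Ch2 g)

/-- single children of P-elements -/
noncomputable def GEv : Finset α :=
  univ.filter fun u => corank u = b + 3 ∧ ∃ w ∈ PEv α b, Pr u = {w}

/-- single parents of Q-elements -/
noncomputable def GEv' : Finset α :=
  univ.filter fun u => corank u + 3 = b ∧ ∃ w ∈ QEv α b, Ch u = {w}

end sided

/-- the elements of row `b` over an element of row `b + 3` -/
noncomputable def Pr3 (x : α) : Finset α := (Pr x).biUnion Pr2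

/-- the elements of row `b` under an element of row `b - 3` -/
noncomputable def Ch3 (x : α) : Finset α := (Ch x).biUnion Ch2

/-! ### membership -/

section mem

variable {i b : ℕ}

lemma mem_evtS {q : α} : q ∈ evtS α i ↔ ds i q = 2 ∧ (bd i q).card = 1 ∧ (BB i q).card = 2 := by
  unfold evtS
  rw [mem_filter, mem_U1]
  tauto

lemma mem_c3S {q : α} : q ∈ c3S α i ↔ ds i q = 2 ∧ (bd i q).card = 2 ∧ (BB i q).card = 3 := by
  unfold c3S
  rw [mem_filter, mem_U2]
  tauto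

lemma mem_jS {v : α} : v ∈ jS α i ↔ ds i v = 3 ∧ (bd i v).card = 2 ∧
    (∀ q ∈ bd i v, q ∈ evtS α i) ∧
    ∀ q ∈ bd i v, ∀ q' ∈ bd i v, q ≠ q' → Disjoint (BB i q) (BB i q') := by
  unfold jS
  simp

lemma mem_jtS {v : α} : v ∈ jtS α i ↔ ds i v = 3 ∧ (bd i v).card = 2 ∧
    (∀ q ∈ bd i v, q ∈ evtS α i) ∧
    ∀ q ∈ bd i v, ∀ q' ∈ bd i v, q ≠ q' → bd i q ≠ bd i q' ∧ ¬ Disjoint (BB i q) (BB i q') := by
  unfold jtS
  simp

lemma mem_dS {s : Finset α} : s ∈ dS α i ↔ (∀ q ∈ s, q ∈ c3S α i) ∧ s.card = 2 ∧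
    ∀ q ∈ s, ∀ q' ∈ s, bd i q = bd i q' := by
  unfold dS
  rw [mem_filter, mem_powersetCard]
  exact ⟨fun h => ⟨fun q hq => h.1.1 hq, h.1.2, h.2⟩, fun h => ⟨⟨fun q hq => h.1 q hq, h.2.1⟩, h.2.2⟩⟩

lemma mem_seS {v : α} : v ∈ seS α i ↔ ds i v = 3 ∧ ∃ g ∈ c3S α i, bd i v = {g} := by
  unfold seS
  simp

lemma mem_xS {v : α} : v ∈ xS α i ↔ ds i v = 3 ∧ ∃ q ∈ evtS α i, ∃ g ∈ c3S α i,
    bd i v = {q, g} ∧ Disjoint (BB i q) (BB i g) := by
  unfold xS
  simp

lemma mem_O3 {T : Finset α} : T ∈ O3 α i ↔ isO3 i T := by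
  unfold O3
  simp

lemma mem_NEv {g : α} : g ∈ NEv α b ↔ corank g = b + 2 ∧ (Pr g).card = 2 ∧ (Pr2 g).card = 3 := by
  unfold NEv
  simp

lemma mem_VEv {z : α} : z ∈ VEv α b ↔ corank z + 2 = b ∧ (Ch z).card = 2 ∧ (Ch2 z).card = 3 := by
  unfold VEv
  simp

lemma mem_JEv {v : α} : v ∈ JEv α b ↔ corank v = b + 3 ∧ (Pr v).card = 2 ∧
    (∀ w ∈ Pr v, w ∈ PEv α b) ∧ ∀ w ∈ Pr v, ∀ w' ∈ Pr v, w ≠ w' → Disjoint (Pr2 w) (Pr2 w') := by
  unfold JEv
  simp

lemma mem_JEv' {v : α} : v ∈ JEv' α b ↔ corank v + 3 = b ∧ (Ch v).card = 2 ∧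
    (∀ w ∈ Ch v, w ∈ QEv α b) ∧ ∀ w ∈ Ch v, ∀ w' ∈ Ch v, w ≠ w' → Disjoint (Ch2 w) (Ch2 w') := by
  unfold JEv'
  simp

lemma mem_JtEv {v : α} : v ∈ JtEv α b ↔ corank v = b + 3 ∧ (Pr v).card = 2 ∧
    (∀ w ∈ Pr v, w ∈ PEv α b) ∧ ∀ w ∈ Pr v, ∀ w' ∈ Pr v, w ≠ w' →
      Pr w ≠ Pr w' ∧ ¬ Disjoint (Pr2 w) (Pr2 w') := by
  unfold JtEv
  simp

lemma mem_JtEv' {v : α} : v ∈ JtEv' α b ↔ corank v + 3 = b ∧ (Ch v).card = 2 ∧
    (∀ w ∈ Ch v, w ∈ QEv α b) ∧ ∀ w ∈ Ch v, ∀ w' ∈ Ch v, w ≠ w' →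
      Ch w ≠ Ch w' ∧ ¬ Disjoint (Ch2 w) (Ch2 w') := by
  unfold JtEv'
  simp

lemma mem_DEv {s : Finset α} : s ∈ DEv α b ↔ (∀ q ∈ s, q ∈ NEv α b) ∧ s.card = 2 ∧
    ∀ q ∈ s, ∀ q' ∈ s, Pr q = Pr q' := by
  unfold DEv
  rw [mem_filter, mem_powersetCard]
  exact ⟨fun h => ⟨fun q hq => h.1.1 hq, h.1.2, h.2⟩, fun h => ⟨⟨fun q hq => h.1 q hq, h.2.1⟩, h.2.2⟩⟩

lemma mem_DEv' {s : Finset α} : s ∈ DEv' α b ↔ (∀ q ∈ s, q ∈ VEv α b) ∧ s.card = 2 ∧
    ∀ q ∈ s, ∀ q' ∈ s, Ch q = Ch q' := by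
  unfold DEv'
  rw [mem_filter, mem_powersetCard]
  exact ⟨fun h => ⟨fun q hq => h.1.1 hq, h.1.2, h.2⟩, fun h => ⟨⟨fun q hq => h.1 q hq, h.2.1⟩, h.2.2⟩⟩

lemma mem_SEv {u : α} : u ∈ SEv α b ↔ corank u = b + 3 ∧ ∃ g ∈ NEv α b, Pr u = {g} := by
  unfold SEv
  simp

lemma mem_SEv' {u : α} : u ∈ SEv' α b ↔ corank u + 3 = b ∧ ∃ g ∈ VEv α b, Ch u = {g} := by
  unfold SEv'
  simp

lemma mem_XEv {v : α} : v ∈ XEv α b ↔ corank v = b + 3 ∧
    ∃ w ∈ PEv α b, ∃ g ∈ NEv α b, Pr v = {w, g} ∧ Disjoint (Pr2 w) (Pr2 g) := by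
  unfold XEv
  simp

lemma mem_XEv' {v : α} : v ∈ XEv' α b ↔ corank v + 3 = b ∧
    ∃ w ∈ QEv α b, ∃ g ∈ VEv α b, Ch v = {w, g} ∧ Disjoint (Ch2 w) (Ch2 g) := by
  unfold XEv'
  simp

lemma mem_GEv {u : α} : u ∈ GEv α b ↔ corank u = b + 3 ∧ ∃ w ∈ PEv α b, Pr u = {w} := by
  unfold GEv
  simp

lemma mem_GEv' {u : α} : u ∈ GEv' α b ↔ corank u + 3 = b ∧ ∃ w ∈ QEv α b, Ch u = {w} := by
  unfold GEv'
  simp

end mem

end Pool.Gauss
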