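import Pool.Agent.Work.MP_065141_co.K.V5J
import Pool.Agent.Work.MP_065141_co.K.V6Def
import Pool.Agent.Work.MP_065141_co.K.Engine5

/-!
# Doubled edges and joins in the language of `V6Def`; the toggle as an opposite pair
-/

set_option autoImplicit false
set_option linter.unusedSectionVars false
set_option linter.unusedVariables false
open scoped Classical
open Finset Polynomial

namespace Pool.Gauss

variable {α : Type} [Fintype α] [PartialOrder α] {i : ℕ}

/-- a triple has a common neighbour of its nearer neighbours -/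
lemma PB.II_nonempty (hB : PB α i) {q : α} (hq : q ∈ c3S α i) : (II i q).Nonempty := by
  rw [mem_c3S] at hq
  obtain ⟨p, p', hne, hpp⟩ := Finset.card_eq_two.1 hq.2.1
  have hU : q ∈ U2 α i := mem_U2.2 ⟨hq.1, hq.2.1⟩
  have c1 := hB.nb q hU hq.2.2 p (by rw [hpp]; simp)
  have c2 := hB.nb q hU hq.2.2 p' (by rw [hpp]; simp)
  have hBB : BB i q = bd i p ∪ bd i p' := by
    unfold BB
    rw [hpp, biUnion_insert, singleton_biUnion]
  have h1 := Finset.card_union_add_card_inter (bd i p) (bd i p')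
  rw [← hBB, hq.2.2, c1, c2] at h1
  have h2 : 0 < (bd i p ∩ bd i p').card := by omega
  obtain ⟨y, hy⟩ := Finset.card_pos.1 h2
  rw [mem_inter] at hy
  refine ⟨y, ?_⟩
  rw [mem_II, hpp]
  intro t ht
  rw [mem_insert, mem_singleton] at ht
  rcases ht with rfl | rfl
  · exact hy.1
  · exact hy.2

/-- the doubled edges are the doubled triples -/
theorem DT_eq_dS (hB : PB α i) : DT α i = dS α i := by
  ext T
  rw [mem_dS]
  constructor
  · intro hT
    rw [mem_DT hB.hg hB.deg] at hT
    obtain ⟨g, g₂, x, x', y, hgg, hTe, d1, d2, hxx, hb, hb2, hbi, hI, h4, c1, c2⟩ := hT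
    have h1 : ∀ t ∈ T, ds i t = 2 ∧ bd i t = {x, x'} := by
      rw [hTe]
      intro t ht
      rw [mem_insert, mem_singleton] at ht
      rcases ht with rfl | rfl
      · exact ⟨d1, hb⟩
      · exact ⟨d2, hb2⟩
    refine ⟨?_, by rw [hTe, card_pair hgg], ?_⟩
    · intro t ht
      rw [mem_c3S]
      refine ⟨(h1 t ht).1, by rw [(h1 t ht).2, card_pair hxx], ?_⟩
      unfold BB
      rw [(h1 t ht).2]
      exact h4
    · intro t ht t' ht'
      rw [(h1 t ht).2, (h1 t' ht').2]
  · rintro ⟨h1, h2, h3⟩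
    obtain ⟨g, g₂, hgg, hTe⟩ := Finset.card_eq_two.1 h2
    have hg1 : g ∈ T := by rw [hTe]; simp
    have hg2 : g₂ ∈ T := by rw [hTe]; simp
    have hbb : T.biUnion (bd i) = bd i g := by
      rw [hTe, biUnion_insert, singleton_biUnion, h3 g₂ hg2 g hg1, union_self]
    unfold DT
    rw [mem_filter, mem_powersetCard]
    refine ⟨⟨?_, h2⟩, ⟨bd i g, fun t ht => h3 t ht g hg1⟩, ?_, ?_⟩
    · intro t ht
      have := h1 t ht
      rw [mem_c3S] at this
      exact mem_U2.2 ⟨this.1, this.2.1⟩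
    · rw [hbb]
      have := h1 g hg1
      rw [mem_c3S] at this
      exact this.2.2
    · obtain ⟨y, hy⟩ := hB.II_nonempty (h1 g hg1)
      refine ⟨y, ?_⟩
      unfold IT
      rw [mem_filter, hbb]
      exact ⟨mem_univ y, mem_II.1 hy⟩

/-- the elements `isJ` -/
theorem isJ_iff (hg : Grad α) {v : α} : isJ i v ↔ v ∈ jS α i := by
  rw [mem_jS]
  constructor
  · intro h
    obtain ⟨w, w', x, x', hb, hx, hx', c1, c2, hd, dv, dw, dw', dx, dx', hww, hxx, hset⟩ := h.data hg
    have hBp : BB i w = bd i x := by unfold BB; rw [hx, singleton_biUnion]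
    have hBp' : BB i w' = bd i x' := by unfold BB; rw [hx', singleton_biUnion]
    refine ⟨dv, by rw [hb, card_pair hww], ?_, ?_⟩
    · rw [hb]
      intro t ht
      rw [mem_insert, mem_singleton] at ht
      rw [mem_evtS]
      rcases ht with rfl | rfl
      · exact ⟨dw, by rw [hx, card_singleton], by rw [hBp, c1]⟩
      · exact ⟨dw', by rw [hx', card_singleton], by rw [hBp', c2]⟩
    · rw [hb]
      intro q hq q' hq' hne
      rw [mem_insert, mem_singleton] at hq hq'
      rcases hq with rfl | rfl <;> rcases hq' with rfl | rfl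
      · exact absurd rfl hne
      · rw [hBp, hBp']
        exact hd
      · rw [hBp, hBp']
        exact hd.symm
      · exact absurd rfl hne
  · rintro ⟨dv, c, h1, h2⟩
    obtain ⟨w, w', hne, hb⟩ := Finset.card_eq_two.1 c
    have e1 := h1 w (by rw [hb]; simp)
    have e2 := h1 w' (by rw [hb]; simp)
    rw [mem_evtS] at e1 e2
    refine ⟨w, w', hb, ⟨mem_U1.2 ⟨e1.1, e1.2.1⟩, e1.2.2⟩, ⟨mem_U1.2 ⟨e2.1, e2.2.1⟩, e2.2.2⟩, ?_⟩
    exact h2 w (by rw [hb]; simp) w' (by rw [hb]; simp) hne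

/-- the active diamonds at energy five, in the language of `V6Def` -/
theorem sum_HasAD_dS (hB : PB α i) (hpar : NoPar α i) (m : Mat α i) {n : ℕ}
    (hn : (lev α i).card = n) {R : Type} [CommRing R] (F : (α → ℕ) → R)
    (hF : ∀ (ε : α → ℕ) (y x x' g : α), ∑ p, ε p = 5 → (pkF i ε).card + 2 = n → m.Red ε →
      GoodE i ε → AD i y x x' g ε → F ε + F (tog y g ε) = 0) :
    ∑ ε ∈ ((univ : Finset α).piAntidiag 5).filter
      (fun ε => m.Red ε ∧ GoodE i ε ∧ (pkF i ε).card + 2 = n ∧ HasAD i ε), F ε =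
    - ∑ T ∈ dS α i, F (cfT i T) := by
  rw [← DT_eq_dS hB]
  exact sum_HasAD_five hB.hg hB.hl hB.deg hpar m hn F hF

/-- signs: the contribution of the doubled edges to the law V5 -/
theorem sum_HasAD_sign (hB : PB α i) (hpar : NoPar α i) (m : Mat α i) {n : ℕ}
    (hn : (lev α i).card = n) :
    ∑ ε ∈ ((univ : Finset α).piAntidiag 5).filter
      (fun ε => m.Red ε ∧ GoodE i ε ∧ (pkF i ε).card + 2 = n ∧ HasAD i ε),
      (-1 : ℤ) ^ (inF i ε).card = - ((-1) ^ (low α i).card * ((dS α i).card : ℤ)) := by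
  have h1 := sum_HasAD_dS hB hpar m hn (fun ε => (-1 : ℤ) ^ (inF i ε).card) (by
    intro ε y x x' g h1 h2 h3 h4 h5
    have h6 := sign_tog hB.hg hB.hl h5.D h5.E h4
    rw [if_pos h5.A] at h6
    rw [h6]
    ring)
  have h2 : ∀ T ∈ dS α i, (-1 : ℤ) ^ (inF i (cfT i T)).card = (-1) ^ (low α i).card := by
    intro T hT
    rw [← DT_eq_dS hB] at hT
    exact (cfT_data hB.hg hB.hl m hB.deg hT hn).2
  rw [h1, Finset.sum_congr rfl h2, Finset.sum_const, nsmul_eq_mul]
  ring

/-- **the toggle of an active diamond is an opposite pair** -/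
theorem AD.opp (m : Mat α i) (hg : Grad α) (hl : HasLower α i) {y x x' g : α} {ε : α → ℕ}
    (h : AD i y x x' g ε) (hred : m.Red ε) (hgood : GoodE i ε)
    (hr : ∀ p ∈ m.rst ε, ¬ fr i y p) : m.Opp ε (Pool.Gauss.tog y g ε) where
  red := red_tog m hg h.D h.E.pg hred
  good := (good_tog hg hl h.D h.E).2 hgood
  sum := sum_tog hg h.D h.E.pg
  pk := card_pkF_tog hg hl h.D h.E hgood
  rst := (rst_tog m hg h.D h.E.pg).symm
  nbr := by
    intro t ht
    unfold Mat.nbr at ht
    rw [mem_filter] at ht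
    obtain ⟨hti, p, hp, htp⟩ := ht
    rw [mem_lev] at hti
    have hfr : fr i t p := by
      rcases htp with h1 | h1
      · exact Or.inl ⟨hti.ge, h1⟩
      · exact Or.inr ⟨hti.le, h1⟩
    obtain ⟨_, h2, h3, h4⟩ := tog_next m hg h.D hr hp hfr
    exact ⟨h2.symm, by rw [h3, h4]⟩
  opp := by
    have h6 := sign_tog hg hl h.D h.E hgood
    rw [if_pos h.A] at h6
    by_contra h7
    rw [Nat.not_odd_iff_even] at h7
    have h8 : (-1 : ℤ) ^ (inF i ε).card * (-1) ^ (inF i (Pool.Gauss.tog y g ε)).card = 1 := by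
      rw [← pow_add]
      exact h7.neg_one_pow
    rw [h6] at h8
    have h9 : (-1 : ℤ) ^ (inF i ε).card * (-1) ^ (inF i ε).card = 1 := by
      rw [← mul_pow]
      simp
    linarith

end Pool.Gauss
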