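import Pool.Agent.Work.MP_065141_co.P4
import Pool.Agent.Work.MP_065141_co.K.V6Toggle2

/-!
# Active diamonds over a doubled edge
-/

set_option autoImplicit false
set_option linter.unusedSectionVars false
set_option linter.unusedVariables false
open scoped Classical
open Finset Polynomial

namespace Pool.Gauss

variable {α : Type} [Fintype α] [PartialOrder α] {i : ℕ}

/-- two active diamonds (with the same nearer part) -/
def TwoAD (i : ℕ) (ε : α → ℕ) : Prop :=
  ∃ y x x' g g₂ : α, g ≠ g₂ ∧ AD i y x x' g ε ∧ AD i y x x' g₂ ε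

section ad

variable {y x x' g : α} {ε : α → ℕ}

/-- two active diamonds have the same nearer part -/
theorem AD.pair (hgr : Grad α) (hpar : NoPar α i) {y₂ x₂ x₂' g₂ : α}
    (h : AD i y x x' g ε) (h₂ : AD i y₂ x₂ x₂' g₂ ε) (hs : ∑ p, ε p ≤ 6) :
    y = y₂ ∧ AD i y x x' g₂ ε := by
  have D := h.D
  have D₂ := h₂.D
  have E := h.E
  have E₂ := h₂.E
  have sx := D.ds_x hgr
  have sx' := D.ds_x' hgr
  have sg := D.ds_g hgr
  have sy := D.ds_y
  have tx := D₂.ds_x hgr
  have tx' := D₂.ds_x' hgr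
  have tg := D₂.ds_g hgr
  have ty := D₂.ds_y
  have q1 := h.sum4
  have q2 := h₂.sum4
  have side := D.side hgr
  have side₂ := D₂.side hgr
  have hpair : (x₂ = x ∨ x₂ = x') → (x₂' = x ∨ x₂' = x') → y = y₂ := by
    intro h1 h2
    have h3 : fr i y₂ x ∧ fr i y₂ x' := by
      have a1 := D₂.hx
      have a2 := D₂.hx'
      have a3 := D₂.hne
      rcases h1 with h1 | h1 <;> rcases h2 with h2 | h2
      · exact absurd (h1.trans h2.symm) a3
      · rw [h1] at a1
        rw [h2] at a2
        exact ⟨a1, a2⟩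
      · rw [h1] at a1
        rw [h2] at a2
        exact ⟨a2, a1⟩
      · exact absurd (h1.trans h2.symm) a3
    exact hpar x x' y y₂ D.hy D₂.hy D.hne D.hx D.hx' h3.1 h3.2 (by omega)
  by_cases hgg : g = g₂
  · refine ⟨?_, by rw [← hgg]; exact h⟩
    apply hpair
    · apply D.only
      rw [hgg]
      exact D₂.hg
    · apply D.only
      rw [hgg]
      exact D₂.hg'
  · by_cases hyy : y = y₂
    · refine ⟨hyy, ?_⟩
      have h1 : x₂ = x ∨ x₂ = x' := by
        by_contra h1
        push Not at h1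
        have := E.zero x₂ (by rw [hyy]; exact D₂.hx) h1.1 h1.2
        have := E₂.px
        omega
      have h2 : x₂' = x ∨ x₂' = x' := by
        by_contra h2
        push Not at h2
        have := E.zero x₂' (by rw [hyy]; exact D₂.hx') h2.1 h2.2
        have := E₂.px'
        omega
      rcases h1 with h1 | h1 <;> rcases h2 with h2 | h2
      · exact absurd (h1.trans h2.symm) D₂.hne
      · rw [h1, h2, ← hyy] at h₂
        exact h₂
      · rw [h1, h2, ← hyy] at h₂
        exact h₂.symm
      · exact absurd (h1.trans h2.symm) D₂.hne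
    · exfalso
      have hns : ¬ ((x₂ = x ∨ x₂ = x') ∧ (x₂' = x ∨ x₂' = x')) := fun hh => hyy (hpair hh.1 hh.2)
      obtain ⟨u, hu1, hu2, hu3, hu4⟩ : ∃ u, u ≠ x ∧ u ≠ x' ∧ 1 ≤ ε u ∧ ds i u = 1 := by
        by_cases h1 : x₂ = x ∨ x₂ = x'
        · have h2 : ¬ (x₂' = x ∨ x₂' = x') := fun h2 => hns ⟨h1, h2⟩
          push Not at h2
          exact ⟨x₂', h2.1, h2.2, E₂.px', tx'⟩
        · push Not at h1
          exact ⟨x₂, h1.1, h1.2, E₂.px, tx⟩
      have hne : ∀ a b : α, ds i a ≠ ds i b → a ≠ b := by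
        rintro a b hab rfl
        exact hab rfl
      have hS : ε y + (ε y₂ + (ε x + (ε x' + (ε u + (ε g + ε g₂))))) ≤ ∑ p, ε p := by
        have h1 := sum_ge_of_finset ε ({y, y₂, x, x', u, g, g₂} : Finset α)
        rw [Finset.sum_insert, Finset.sum_insert, Finset.sum_insert, Finset.sum_insert,
          Finset.sum_insert, Finset.sum_insert, Finset.sum_singleton] at h1
        · exact h1
        · rw [mem_singleton]; exact hgg
        · simp only [mem_insert, mem_singleton, not_or]
          exact ⟨hne _ _ (by omega), hne _ _ (by omega)⟩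
        · simp only [mem_insert, mem_singleton, not_or]
          exact ⟨hu2.symm, hne _ _ (by omega), hne _ _ (by omega)⟩
        · simp only [mem_insert, mem_singleton, not_or]
          exact ⟨D.hne, hu1.symm, hne _ _ (by omega), hne _ _ (by omega)⟩
        · simp only [mem_insert, mem_singleton, not_or]
          exact ⟨hne _ _ (by omega), hne _ _ (by omega), hne _ _ (by omega), hne _ _ (by omega),
            hne _ _ (by omega)⟩
        · simp only [mem_insert, mem_singleton, not_or]
          exact ⟨hyy, hne _ _ (by omega), hne _ _ (by omega), hne _ _ (by omega),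
            hne _ _ (by omega), hne _ _ (by omega)⟩
      have := E.px
      have := E.px'
      omega

/-- two active diamonds have energy at least five, and five only for the indicator function -/
theorem AD.two_eq_ind (hgr : Grad α) {g₂ : α} (hgg : g ≠ g₂)
    (h : AD i y x x' g ε) (h₂ : AD i y x x' g₂ ε) (hs : ∑ p, ε p ≤ 5) :
    ε = ind ({y, x, x', g, g₂} : Finset α) ∧ ∑ p, ε p = 5 := by
  have D := h.D
  have D₂ := h₂.D
  have E := h.E
  have E₂ := h₂.E
  have sx := D.ds_x hgr
  have sx' := D.ds_x' hgr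
  have sg := D.ds_g hgr
  have sy := D.ds_y
  have tg := D₂.ds_g hgr
  have hne : ∀ a b : α, ds i a ≠ ds i b → a ≠ b := by
    rintro a b hab rfl
    exact hab rfl
  have n1 : g ∉ ({g₂} : Finset α) := by rw [mem_singleton]; exact hgg
  have n2 : x' ∉ ({g, g₂} : Finset α) := by
    simp only [mem_insert, mem_singleton, not_or]
    exact ⟨hne _ _ (by omega), hne _ _ (by omega)⟩
  have n3 : x ∉ ({x', g, g₂} : Finset α) := by
    simp only [mem_insert, mem_singleton, not_or]
    exact ⟨D.hne, hne _ _ (by omega), hne _ _ (by omega)⟩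
  have n4 : y ∉ ({x, x', g, g₂} : Finset α) := by
    simp only [mem_insert, mem_singleton, not_or]
    exact ⟨hne _ _ (by omega), hne _ _ (by omega), hne _ _ (by omega), hne _ _ (by omega)⟩
  have hS : ε y + (ε x + (ε x' + (ε g + ε g₂))) ≤ ∑ p, ε p := by
    have h1 := sum_ge_of_finset ε ({y, x, x', g, g₂} : Finset α)
    rw [Finset.sum_insert n4, Finset.sum_insert n3, Finset.sum_insert n2, Finset.sum_insert n1,
      Finset.sum_singleton] at h1
    exact h1
  have hc : ({y, x, x', g, g₂} : Finset α).card = 5 := by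
    rw [card_insert_of_notMem n4, card_insert_of_notMem n3, card_insert_of_notMem n2,
      card_insert_of_notMem n1, card_singleton]
  have p1 := E.px
  have p2 := E.px'
  have p3 := E.pg
  have p4 := E₂.pg
  have a1 := h.A
  have a2 := h₂.A
  unfold Act at a1 a2
  have p5 : 1 ≤ ε y := by omega
  constructor
  · apply eq_ind
    · intro t ht
      simp only [mem_insert, mem_singleton] at ht
      rcases ht with rfl | rfl | rfl | rfl | rfl <;> omega
    · omega
  · omega

end ad

/-- the active diamonds, as pairs (nearest element, farthest element) -/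
noncomputable def adS (i : ℕ) (ε : α → ℕ) : Finset (α × α) :=
  univ.filter fun yg => ∃ x x' : α, AD i yg.1 x x' yg.2 ε

lemma mem_adS {ε : α → ℕ} {yg : α × α} : yg ∈ adS i ε ↔ ∃ x x' : α, AD i yg.1 x x' yg.2 ε := by
  simp [adS]

/-- the number of active diamonds -/
lemma card_adS (hgr : Grad α) (hpar : NoPar α i) {ε : α → ℕ} (hs : ∑ p, ε p ≤ 5) :
    ((adS i ε).card : ℤ) = (if HasAD i ε then 1 else 0) + (if TwoAD i ε then 1 else 0) := by
  by_cases h1 : HasAD i ε
  · obtain ⟨y, x, x', g, h⟩ := h1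
    rw [if_pos ⟨y, x, x', g, h⟩]
    by_cases h2 : TwoAD i ε
    · rw [if_pos h2]
      obtain ⟨y, x, x', g, g₂, hgg, h, h₂⟩ := h2
      have he := (h.two_eq_ind hgr hgg h₂ hs).1
      have h3 : adS i ε = {(y, g), (y, g₂)} := by
        ext ⟨a, b⟩
        rw [mem_adS, mem_insert, mem_singleton]
        constructor
        · rintro ⟨c, d, h3⟩
          simp only at h3
          obtain ⟨h4, h5⟩ := h.pair hgr hpar h3 (by omega)
          have h6 := h5.E.pg
          have h7 : b ∈ ({y, x, x', g, g₂} : Finset α) := by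
            rw [he] at h6
            exact ind_pos.1 (by omega)
          have s1 := h5.D.ds_g hgr
          have s2 := h.D.ds_x hgr
          have s3 := h.D.ds_x' hgr
          have s4 := h.D.ds_y
          simp only [mem_insert, mem_singleton] at h7
          rw [← h4]
          rcases h7 with h7 | h7 | h7 | h7 | h7
          · rw [h7] at s1; omega
          · rw [h7] at s1; omega
          · rw [h7] at s1; omega
          · left; rw [h7]
          · right; rw [h7]
        · rintro (h3 | h3)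
          · rw [Prod.mk.injEq] at h3
            rw [h3.1, h3.2]
            exact ⟨x, x', h⟩
          · rw [Prod.mk.injEq] at h3
            rw [h3.1, h3.2]
            exact ⟨x, x', h₂⟩
      rw [h3, card_pair]
      · norm_num
      · intro h4
        rw [Prod.mk.injEq] at h4
        exact hgg h4.2
    · rw [if_neg h2]
      have h3 : adS i ε = {(y, g)} := by
        ext ⟨a, b⟩
        rw [mem_adS, mem_singleton]
        constructor
        · rintro ⟨c, d, h3⟩
          simp only at h3
          obtain ⟨h4, h5⟩ := h.pair hgr hpar h3 (by omega)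
          rw [← h4]
          by_contra h6
          apply h2
          refine ⟨y, x, x', g, b, ?_, h, h5⟩
          rintro rfl
          exact h6 rfl
        · intro h3
          rw [Prod.mk.injEq] at h3
          rw [h3.1, h3.2]
          exact ⟨x, x', h⟩
      rw [h3, card_singleton]
      norm_num
  · have h2 : ¬ TwoAD i ε := by
      rintro ⟨y, x, x', g, g₂, _, h, _⟩
      exact h1 ⟨y, x, x', g, h⟩
    rw [if_neg h1, if_neg h2]
    have h3 : adS i ε = ∅ := by
      rw [Finset.eq_empty_iff_forall_notMem]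
      rintro ⟨a, b⟩ h3
      rw [mem_adS] at h3
      obtain ⟨c, d, h3⟩ := h3
      exact h1 ⟨a, c, d, b, h3⟩
    rw [h3]
    simp

/-- **the active diamonds cancel up to the doubly active ones** (energy at most five) -/
theorem sum_HasAD_add_TwoAD (hgr : Grad α) (hl : HasLower α i) (hpar : NoPar α i)
    (m : Mat α i) (s : ℕ) (hs : s ≤ 5) (d : ℕ) {R : Type} [CommRing R]
    (F : (α → ℕ) → R)
    (hF : ∀ (ε : α → ℕ) (y x x' g : α), ∑ p, ε p = s → (pkF i ε).card = d → m.Red ε →
      GoodE i ε → AD i y x x' g ε → F ε + F (tog y g ε) = 0) :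
    ∑ ε ∈ ((univ : Finset α).piAntidiag s).filter
      (fun ε => m.Red ε ∧ GoodE i ε ∧ (pkF i ε).card = d ∧ HasAD i ε), F ε +
    ∑ ε ∈ ((univ : Finset α).piAntidiag s).filter
      (fun ε => m.Red ε ∧ GoodE i ε ∧ (pkF i ε).card = d ∧ TwoAD i ε), F ε = 0 := by
  have mem : ∀ (Q : (α → ℕ) → Prop) (ε : α → ℕ), ε ∈ ((univ : Finset α).piAntidiag s).filter
      (fun ε => m.Red ε ∧ GoodE i ε ∧ (pkF i ε).card = d ∧ Q ε) ↔
      ∑ p, ε p = s ∧ m.Red ε ∧ GoodE i ε ∧ (pkF i ε).card = d ∧ Q ε := by
    intro Q ε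
    rw [mem_filter, mem_piAntidiag]
    constructor
    · rintro ⟨⟨h1, _⟩, h2⟩
      exact ⟨h1, h2⟩
    · rintro ⟨h1, h2⟩
      exact ⟨⟨h1, fun p _ => mem_univ p⟩, h2⟩
  set T := ((univ : Finset α).piAntidiag s).filter
      (fun ε => m.Red ε ∧ GoodE i ε ∧ (pkF i ε).card = d) with hT
  have memT : ∀ ε : α → ℕ, ε ∈ T ↔
      ∑ p, ε p = s ∧ m.Red ε ∧ GoodE i ε ∧ (pkF i ε).card = d := by
    intro ε
    rw [hT, mem_filter, mem_piAntidiag]
    constructor
    · rintro ⟨⟨h1, _⟩, h2⟩
      exact ⟨h1, h2⟩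
    · rintro ⟨h1, h2⟩
      exact ⟨⟨h1, fun p _ => mem_univ p⟩, h2⟩
  have split : ∀ Q : (α → ℕ) → Prop, ∑ ε ∈ ((univ : Finset α).piAntidiag s).filter
      (fun ε => m.Red ε ∧ GoodE i ε ∧ (pkF i ε).card = d ∧ Q ε), F ε =
      ∑ ε ∈ T, (if Q ε then 1 else 0) * F ε := by
    intro Q
    have h1 : ((univ : Finset α).piAntidiag s).filter
        (fun ε => m.Red ε ∧ GoodE i ε ∧ (pkF i ε).card = d ∧ Q ε) = T.filter Q := by
      ext ε
      rw [mem Q, mem_filter, memT]
      tauto
    rw [h1, Finset.sum_filter]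
    apply Finset.sum_congr rfl
    intro ε _
    split_ifs <;> simp
  rw [split, split, ← Finset.sum_add_distrib]
  have h1 : ∀ ε ∈ T, (if HasAD i ε then (1 : R) else 0) * F ε +
      (if TwoAD i ε then (1 : R) else 0) * F ε = ∑ yg ∈ adS i ε, F ε := by
    intro ε hε
    rw [memT] at hε
    have h2 := card_adS hgr hpar (ε := ε) (i := i) (by omega)
    rw [Finset.sum_const, nsmul_eq_mul, ← add_mul]
    congr 1
    have h3 : (((adS i ε).card : ℤ) : R) =
        (((if HasAD i ε then 1 else 0) + (if TwoAD i ε then 1 else 0) : ℤ) : R) := by rw [h2]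
    rw [Int.cast_natCast] at h3
    rw [h3]
    push_cast
    split_ifs <;> simp
  rw [Finset.sum_congr rfl h1]
  have h2 : ∑ ε ∈ T, ∑ yg ∈ adS i ε, F ε = ∑ yg : α × α, ∑ ε ∈ T.filter
      (fun ε => ∃ x x' : α, AD i yg.1 x x' yg.2 ε), F ε := by
    have h3 : ∀ ε ∈ T, ∑ yg ∈ adS i ε, F ε =
        ∑ yg : α × α, if (∃ x x' : α, AD i yg.1 x x' yg.2 ε) then F ε else 0 := by
      intro ε _
      unfold adS
      rw [Finset.sum_filter]
    rw [Finset.sum_congr rfl h3, Finset.sum_comm]
    apply Finset.sum_congr rfl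
    intro yg _
    exact (Finset.sum_filter _ _).symm
  rw [h2]
  apply Finset.sum_eq_zero
  rintro ⟨y, g⟩ _
  refine Finset.sum_involution (fun ε _ => tog y g ε) ?_ ?_ ?_ ?_
  · intro ε hε
    rw [mem_filter, memT] at hε
    obtain ⟨⟨h1, h2, h3, h4⟩, x, x', h5⟩ := hε
    exact hF ε y x x' g h1 h4 h2 h3 h5
  · intro ε hε _ hfix
    rw [mem_filter, memT] at hε
    obtain ⟨⟨h1, h2, h3, h4⟩, x, x', h5⟩ := hε
    exact tog_ne hgr hl h5.D h5.E h3 h5.A hfix
  · intro ε hε
    rw [mem_filter, memT] at hε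
    rw [mem_filter, memT]
    obtain ⟨⟨h1, h2, h3, h4⟩, x, x', h5⟩ := hε
    refine ⟨⟨?_, ?_, ?_, ?_⟩, x, x', h5.tog hgr⟩
    · rw [sum_tog hgr h5.D h5.E.pg, h1]
    · exact red_tog m hgr h5.D h5.E.pg h2
    · exact (good_tog hgr hl h5.D h5.E).2 h3
    · rw [card_pkF_tog hgr hl h5.D h5.E h3, h4]
  · intro ε hε
    rw [mem_filter, memT] at hε
    obtain ⟨⟨h1, h2, h3, h4⟩, x, x', h5⟩ := hε
    exact tog_tog hgr h5.D h5.E.pg

/-! ### the doubled edges -/

/-- the common neighbours in level `i` of the nearer neighbours of the elements of `T` -/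
noncomputable def IT (i : ℕ) (T : Finset α) : Finset α :=
  univ.filter fun y => ∀ p ∈ T.biUnion (bd i), y ∈ bd i p

/-- the doubled edges: pairs of elements at distance two with the same nearer neighbours, which
have a common neighbour in level `i` and three neighbours in total -/
noncomputable def DT (α : Type) [Fintype α] [PartialOrder α] (i : ℕ) : Finset (Finset α) :=
  ((U2 α i).powersetCard 2).filter fun T => (∃ S : Finset α, ∀ g ∈ T, bd i g = S) ∧
    ((T.biUnion (bd i)).biUnion (bd i)).card = 3 ∧ (IT i T).Nonempty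

/-- the configuration of a doubled edge -/
noncomputable def cfT (i : ℕ) (T : Finset α) : α → ℕ := ind (T ∪ T.biUnion (bd i) ∪ IT i T)

lemma mem_DT (hg : Grad α) (hdeg : ∀ p : α, (bd i p).card ≤ 2) {T : Finset α} :
    T ∈ DT α i ↔ ∃ g g₂ x x' y : α, g ≠ g₂ ∧ T = {g, g₂} ∧ ds i g = 2 ∧ ds i g₂ = 2 ∧ x ≠ x' ∧
      bd i g = {x, x'} ∧ bd i g₂ = {x, x'} ∧ T.biUnion (bd i) = {x, x'} ∧ IT i T = {y} ∧
      (({x, x'} : Finset α).biUnion (bd i)).card = 3 ∧ (bd i x).card = 2 ∧ (bd i x').card = 2 := by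
  constructor
  · intro hT
    unfold DT at hT
    rw [mem_filter, mem_powersetCard] at hT
    obtain ⟨⟨h1, h2⟩, ⟨S, hS⟩, h4, y, hy⟩ := hT
    obtain ⟨g, g₂, hgg, rfl⟩ := Finset.card_eq_two.1 h2
    have hgU : g ∈ U2 α i := h1 (by simp)
    have hgU2 : g₂ ∈ U2 α i := h1 (by simp)
    have hb : bd i g = S := hS g (by simp)
    have hb2 : bd i g₂ = S := hS g₂ (by simp)
    obtain ⟨x, x', hxx, hbx⟩ := Finset.card_eq_two.1 (mem_U2.1 hgU).2
    have hSx : S = {x, x'} := by rw [← hb, hbx]
    have hbi : ({g, g₂} : Finset α).biUnion (bd i) = {x, x'} := by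
      rw [biUnion_insert, singleton_biUnion, hb, hb2, union_self, hSx]
    rw [hbi] at h4
    have hII : II i g = IT i {g, g₂} := by
      ext t
      unfold IT
      rw [mem_II, mem_filter, hbi, hbx]
      simp
    have hB : (BB i g).card = 3 := by
      unfold BB
      rw [hbx]
      exact h4
    have hy2 : y ∈ II i g := by rw [hII]; exact hy
    obtain ⟨e1, e2⟩ := card_II hg hdeg hgU hB hy2
    refine ⟨g, g₂, x, x', y, hgg, rfl, (mem_U2.1 hgU).1, (mem_U2.1 hgU2).1, hxx, hbx,
      by rw [hb2, hSx], hbi, by rw [← hII, e1], h4, e2 x (by rw [hbx]; simp),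
      e2 x' (by rw [hbx]; simp)⟩
  · rintro ⟨g, g₂, x, x', y, hgg, rfl, d1, d2, hxx, hb, hb2, hbi, hI, h4, _, _⟩
    unfold DT
    rw [mem_filter, mem_powersetCard]
    refine ⟨⟨?_, card_pair hgg⟩, ⟨{x, x'}, ?_⟩, ?_, ?_⟩
    · intro t ht
      rw [mem_insert, mem_singleton] at ht
      rw [mem_U2]
      rcases ht with rfl | rfl
      · exact ⟨d1, by rw [hb, card_pair hxx]⟩
      · exact ⟨d2, by rw [hb2, card_pair hxx]⟩
    · intro t ht
      rw [mem_insert, mem_singleton] at ht
      rcases ht with rfl | rfl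
      · exact hb
      · exact hb2
    · rw [hbi]
      exact h4
    · rw [hI]
      exact ⟨y, mem_singleton_self y⟩

/-- the data of `cfT` -/
theorem cfT_data (hg : Grad α) (hl : HasLower α i) (m : Mat α i)
    (hdeg : ∀ p : α, (bd i p).card ≤ 2) {T : Finset α} (hT : T ∈ DT α i) {n : ℕ}
    (hn : (lev α i).card = n) :
    cfT i T ∈ m.TT 5 n ∧ (-1 : ℤ) ^ (inF i (cfT i T)).card = (-1) ^ (low α i).card := by
  rw [mem_DT hg hdeg] at hT
  obtain ⟨g, g₂, x, x', y, hgg, hTe, d1, d2, hxx, hb, hb2, hbi, hI, h4, c1, c2⟩ := hT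
  have hQ : ∀ t ∈ T, ds i t = 2 := by
    rw [hTe]
    intro t ht
    rw [mem_insert, mem_singleton] at ht
    rcases ht with rfl | rfl
    · exact d1
    · exact d2
  have hA : ∀ t ∈ T.biUnion (bd i), ds i t = 1 := by
    rw [hbi]
    intro t ht
    exact ds_of_mem_bd hg d1 (by rw [hb]; exact ht)
  have hyI : ∀ p ∈ T.biUnion (bd i), y ∈ bd i p := by
    have h1 : y ∈ IT i T := by rw [hI]; exact mem_singleton_self y
    unfold IT at h1
    rw [mem_filter] at h1
    exact h1.2
  have hyi : corank y = i := by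
    have h1 : x ∈ T.biUnion (bd i) := by rw [hbi]; simp
    exact bd_lev hg (hA x h1) (hyI x h1)
  have hZ : ∀ t ∈ IT i T, corank t = i := by
    rw [hI]
    simpa using hyi
  have hQA : ∀ t ∈ T, bd i t ⊆ T.biUnion (bd i) := fun t ht => Finset.subset_biUnion_of_mem _ ht
  have hsd : ∀ p ∈ T.biUnion (bd i), (corank p < i ↔ corank g < i) ∧ (i < corank p ↔ i < corank g) := by
    intro p hp
    rw [hbi, ← hb] at hp
    exact side_of_mem_bd hg d1 hp
  have hside : ∀ p ∈ T.biUnion (bd i), ∀ p' ∈ T.biUnion (bd i), corank p < i → i < corank p' →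
      ∀ y, y ∈ bd i p → y ∈ bd i p' → y ∈ IT i T := by
    intro p hp p' hp' h1 h2
    have := hsd p hp
    have := hsd p' hp'
    omega
  have hgood := cfg_good hg hl hQ hA hZ hQA hside
  have hred := cfg_red hg m (L := ∅) (by intro p hp; simp at hp) hQ hA hZ (by
    intro p hp
    left
    rw [mem_biUnion] at hp
    exact hp)
  have hc := card_cfg hQ hA hZ
  have hFo := cfg_Fo hg hl hQ hA hZ hQA
  have hYd := cfg_Yd hg hQ hA hZ
  have hYin := cfg_Yin hg hQ hA hZ
  have hFd := ind_Fd (cfg_nclosed hg hQ hA hZ hQA)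
  have hFo' : ((T.biUnion (bd i)).filter fun p => Disjoint (bd i p) (IT i T)) = ∅ := by
    apply Finset.filter_false_of_mem
    intro t ht
    rw [hI, Finset.disjoint_singleton_right, not_not]
    exact hyI t ht
  rw [hFo'] at hFo
  have hyB : y ∈ (T.biUnion (bd i)).biUnion (bd i) := by
    rw [mem_biUnion]
    refine ⟨x, by rw [hbi]; simp, hyI x (by rw [hbi]; simp)⟩
  have hY : ((T.biUnion (bd i)).biUnion (bd i) \ IT i T).card = 2 := by
    rw [hI, card_sdiff_of_subset (by simpa using hyB), card_singleton, hbi, h4]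
  have hpk := card_pkF hg hl hgood
  have hsg := sign_inF hg hl hgood
  rw [hFo, hYd, hY, card_empty] at hpk
  constructor
  · rw [m.mem_TT]
    unfold cfT
    refine ⟨?_, hred, hgood, by omega⟩
    rw [sum_ind, hc, hbi, card_pair hxx, hI, hTe, card_pair hgg]
    simp
  · unfold cfT
    rw [hsg, hFd, hFo, hYin]
    have hqi : corank g ≠ i := by
      intro h
      rw [← ds_eq_zero] at h
      omega
    rcases lt_or_gt_of_ne hqi with h | h
    · have h5 : ((T.biUnion (bd i)).filter fun p => i < corank p) = ∅ := by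
        apply Finset.filter_false_of_mem
        intro p hp
        have := (hsd p hp).1.2 h
        omega
      rw [h5]
      simp
    · have h5 : ((T.biUnion (bd i)).filter fun p => i < corank p) = T.biUnion (bd i) :=
        Finset.filter_true_of_mem fun p hp => (hsd p hp).2.2 h
      rw [h5, hY]
      simp

/-- the configuration of a doubled edge is doubly active -/
theorem cfT_TwoAD (hg : Grad α) (hdeg : ∀ p : α, (bd i p).card ≤ 2) {T : Finset α}
    (hT : T ∈ DT α i) : TwoAD i (cfT i T) := by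
  rw [mem_DT hg hdeg] at hT
  obtain ⟨g, g₂, x, x', y, hgg, hTe, d1, d2, hxx, hb, hb2, hbi, hI, h4, c1, c2⟩ := hT
  have hyI : ∀ p ∈ T.biUnion (bd i), y ∈ bd i p := by
    have h1 : y ∈ IT i T := by rw [hI]; exact mem_singleton_self y
    unfold IT at h1
    rw [mem_filter] at h1
    exact h1.2
  have dx : ds i x = 1 := ds_of_mem_bd hg d1 (by rw [hb]; simp)
  have dx' : ds i x' = 1 := ds_of_mem_bd hg d1 (by rw [hb]; simp)
  have hyx : y ∈ bd i x := hyI x (by rw [hbi]; simp)
  have hyx' : y ∈ bd i x' := hyI x' (by rw [hbi]; simp)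
  have hyi : corank y = i := bd_lev hg dx hyx
  have dy : ds i y = 0 := ds_eq_zero.2 hyi
  have hset : T ∪ T.biUnion (bd i) ∪ IT i T = {g, g₂, x, x', y} := by
    rw [hbi, hI, hTe]
    ext t
    simp only [mem_union, mem_insert, mem_singleton]
    tauto
  have hv : ∀ t, cfT i T t = ind ({g, g₂, x, x', y} : Finset α) t := by
    intro t
    unfold cfT
    rw [hset]
  have v1 : ∀ t ∈ ({g, g₂, x, x', y} : Finset α), cfT i T t = 1 := by
    intro t ht
    rw [hv, ind_mem ht]
  have v0 : ∀ t, t ≠ g → t ≠ g₂ → t ≠ x → t ≠ x' → t ≠ y → cfT i T t = 0 := by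
    intro t h1 h2 h3 h5 h6
    rw [hv, ind_notMem]
    simp only [mem_insert, mem_singleton, not_or]
    exact ⟨h1, h2, h3, h5, h6⟩
  have vle : ∀ t, cfT i T t ≤ 1 := by
    intro t
    rw [hv]
    unfold ind
    split_ifs <;> omega
  have hne : ∀ a b : α, ds i a ≠ ds i b → a ≠ b := by
    rintro a b hab rfl
    exact hab rfl
  have main : ∀ g' : α, ds i g' = 2 → bd i g' = {x, x'} → cfT i T g' = 1 →
      AD i y x x' g' (cfT i T) := by
    intro g' e1 e2 e3
    have w1 : cfT i T x = 1 := v1 x (by simp)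
    have w2 : cfT i T x' = 1 := v1 x' (by simp)
    have w3 : cfT i T y = 1 := v1 y (by simp)
    have fx : fr i x g' := by rw [← mem_bd, e2]; simp
    have fx' : fr i x' g' := by rw [← mem_bd, e2]; simp
    refine ⟨⟨hyi, mem_bd.1 hyx, mem_bd.1 hyx', hxx, fx, fx', ?_⟩, ?_, ?_⟩
    · intro p hp
      have h1 : p ∈ bd i g' := mem_bd.2 hp
      rw [e2, mem_insert, mem_singleton] at h1
      exact h1
    · have near0 : ∀ z, ds i z = 0 → z ≠ y → cfT i T z = 0 := by
        intro z hz hzy
        exact v0 z (hne _ _ (by omega)) (hne _ _ (by omega)) (hne _ _ (by omega))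
          (hne _ _ (by omega)) hzy
      refine ⟨by omega, by omega, by omega, ?_, ?_, ?_, ?_, ?_, ?_, ?_⟩
      · intro z hz h1 h2
        have e5 : ds i z = 1 := by rw [fr_ds hg hz, dy]
        exact v0 z (hne _ _ (by omega)) (hne _ _ (by omega)) h1 h2 (hne _ _ (by omega))
      · intro h _ _
        rw [w1]
        exact vle h
      · intro h _ _
        rw [w2]
        exact vle h
      · intro t ht hty
        have e5 := fr_ds hg ht
        rw [near0 t (by omega) hty, w1]
        omega
      · intro t ht hty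
        have e5 := fr_ds hg ht
        rw [near0 t (by omega) hty, w2]
        omega
      · intro v _
        rw [e3]
        exact vle v
      · intro v _
        have := vle v
        omega
    · unfold Act
      right
      left
      rw [w1, w3]
  exact ⟨y, x, x', g, g₂, hgg, main g d1 hb (v1 g (by simp)), main g₂ d2 hb2 (v1 g₂ (by simp))⟩

/-- **the doubly active energy functions** with two missing peaks -/
theorem TwoAD_eq_cfT (hg : Grad α) (hl : HasLower α i) (hdeg : ∀ p : α, (bd i p).card ≤ 2)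
    {ε : α → ℕ} (hs : ∑ p, ε p ≤ 5) {n : ℕ} (hn : (lev α i).card = n)
    (hpk : (pkF i ε).card + 2 ≤ n) (h : TwoAD i ε) :
    (∃ T ∈ DT α i, ε = cfT i T) ∧ ∑ p, ε p = 5 := by
  obtain ⟨y, x, x', g, g₂, hgg, h, h₂⟩ := h
  obtain ⟨he, h5⟩ := h.two_eq_ind hg hgg h₂ hs
  refine ⟨?_, h5⟩
  have D := h.D
  have D₂ := h₂.D
  have dx := D.ds_x hg
  have dx' := D.ds_x' hg
  have dg := D.ds_g hg
  have dg₂ := D₂.ds_g hg
  have dy := D.ds_y
  have hb : bd i g = {x, x'} := by
    ext p
    rw [mem_bd, mem_insert, mem_singleton]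
    constructor
    · exact D.only p
    · rintro (rfl | rfl)
      · exact D.hg
      · exact D.hg'
  have hb2 : bd i g₂ = {x, x'} := by
    ext p
    rw [mem_bd, mem_insert, mem_singleton]
    constructor
    · exact D₂.only p
    · rintro (rfl | rfl)
      · exact D₂.hg
      · exact D₂.hg'
  have hbi : ({g, g₂} : Finset α).biUnion (bd i) = {x, x'} := by
    rw [biUnion_insert, singleton_biUnion, hb, hb2, union_self]
  have hyx : y ∈ bd i x := mem_bd.2 D.hx
  have hyx' : y ∈ bd i x' := mem_bd.2 D.hx'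
  -- the loss
  have hQ : ∀ t ∈ ({g, g₂} : Finset α), ds i t = 2 := by
    intro t ht
    rw [mem_insert, mem_singleton] at ht
    rcases ht with rfl | rfl
    · exact dg
    · exact dg₂
  have hA : ∀ t ∈ ({x, x'} : Finset α), ds i t = 1 := by
    intro t ht
    rw [mem_insert, mem_singleton] at ht
    rcases ht with rfl | rfl
    · exact dx
    · exact dx'
  have hZ : ∀ t ∈ ({y} : Finset α), corank t = i := by
    simpa using D.hy
  have hQA : ∀ t ∈ ({g, g₂} : Finset α), bd i t ⊆ {x, x'} := by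
    intro t ht
    rw [mem_insert, mem_singleton] at ht
    rcases ht with rfl | rfl
    · rw [hb]
    · rw [hb2]
  have hside : ∀ p ∈ ({x, x'} : Finset α), ∀ p' ∈ ({x, x'} : Finset α), corank p < i →
      i < corank p' → ∀ y', y' ∈ bd i p → y' ∈ bd i p' → y' ∈ ({y} : Finset α) := by
    intro p hp p' hp' h1 h2
    rw [← hb] at hp hp'
    have := side_of_mem_bd hg dg hp
    have := side_of_mem_bd hg dg hp'
    omega
  have hset : ({y, x, x', g, g₂} : Finset α) = {g, g₂} ∪ {x, x'} ∪ {y} := by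
    ext t
    simp only [mem_union, mem_insert, mem_singleton]
    tauto
  have hgood := cfg_good hg hl hQ hA hZ hQA hside
  have hFo := cfg_Fo hg hl hQ hA hZ hQA
  have hYd := cfg_Yd hg hQ hA hZ
  have hFo' : (({x, x'} : Finset α).filter fun p => Disjoint (bd i p) {y}) = ∅ := by
    apply Finset.filter_false_of_mem
    intro t ht
    rw [Finset.disjoint_singleton_right, not_not]
    rw [mem_insert, mem_singleton] at ht
    rcases ht with rfl | rfl
    · exact hyx
    · exact hyx'
  have hp := card_pkF hg hl hgood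
  rw [hFo, hFo', hYd, card_empty, ← hset, ← he] at hp
  have hyB : y ∈ ({x, x'} : Finset α).biUnion (bd i) := by
    rw [mem_biUnion]
    exact ⟨x, by simp, hyx⟩
  rw [card_sdiff_of_subset (by simpa using hyB), card_singleton] at hp
  have hBB : ({x, x'} : Finset α).biUnion (bd i) = bd i x ∪ bd i x' := by
    rw [biUnion_insert, singleton_biUnion]
  have h6 := Finset.card_union_add_card_inter (bd i x) (bd i x')
  have h7 : 0 < (bd i x ∩ bd i x').card := Finset.card_pos.2 ⟨y, mem_inter.2 ⟨hyx, hyx'⟩⟩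
  have h8 := hdeg x
  have h9 := hdeg x'
  rw [hBB] at hp
  have h10 : (bd i x ∪ bd i x').card = 3 := by omega
  have h11 : (bd i x ∩ bd i x').card = 1 := by omega
  have hIT : IT i {g, g₂} = {y} := by
    obtain ⟨t, ht⟩ := Finset.card_eq_one.1 h11
    have h12 : y ∈ bd i x ∩ bd i x' := mem_inter.2 ⟨hyx, hyx'⟩
    have h13 : bd i x ∩ bd i x' = {y} := by
      rw [ht] at h12 ⊢
      rw [mem_singleton] at h12
      rw [h12]
    rw [← h13]
    ext t
    unfold IT
    rw [mem_filter, hbi, mem_inter]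
    simp
  refine ⟨{g, g₂}, ?_, ?_⟩
  · rw [mem_DT hg hdeg]
    exact ⟨g, g₂, x, x', y, hgg, rfl, dg, dg₂, D.hne, hb, hb2, hbi, hIT, by rw [hBB]; exact h10,
      by omega, by omega⟩
  · unfold cfT
    rw [hbi, hIT, ← hset]
    exact he

lemma cfT_inj (hg : Grad α) (hdeg : ∀ p : α, (bd i p).card ≤ 2) {T T' : Finset α}
    (hT : T ∈ DT α i) (hT' : T' ∈ DT α i) (h : cfT i T = cfT i T') : T = T' := by
  have key : ∀ S ∈ DT α i, ∀ t, ds i t = 2 → (t ∈ S ∪ S.biUnion (bd i) ∪ IT i S ↔ t ∈ S) := by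
    intro S hS t ht
    rw [mem_DT hg hdeg] at hS
    obtain ⟨g, g₂, x, x', y, hgg, hTe, d1, d2, hxx, hb, hb2, hbi, hI, h4, c1, c2⟩ := hS
    rw [mem_union, mem_union]
    constructor
    · rintro ((h1 | h1) | h1)
      · exact h1
      · rw [hbi, ← hb] at h1
        have := ds_of_mem_bd hg d1 h1
        omega
      · have h2 : y ∈ IT i S := by rw [hI]; exact mem_singleton_self y
        rw [hI, mem_singleton] at h1
        unfold IT at h2
        rw [mem_filter] at h2
        have h3 : x ∈ bd i g := by rw [hb]; simp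
        have h5 := ds_of_mem_bd hg d1 h3
        have h6 := h2.2 x (by rw [hbi]; simp)
        have h7 := bd_lev hg h5 h6
        rw [h1, ds_eq_zero.2 h7] at ht
        omega
    · intro h1
      exact Or.inl (Or.inl h1)
  have hds : ∀ S ∈ DT α i, ∀ t ∈ S, ds i t = 2 := by
    intro S hS t ht
    unfold DT at hS
    rw [mem_filter, mem_powersetCard] at hS
    exact (mem_U2.1 (hS.1.1 ht)).1
  have he := ind_inj h
  ext t
  constructor
  · intro ht
    have h1 := hds T hT t ht
    rw [← key T' hT' t h1, ← he, key T hT t h1]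
    exact ht
  · intro ht
    have h1 := hds T' hT' t ht
    rw [← key T hT t h1, he, key T' hT' t h1]
    exact ht

/-- **the active diamonds with two missing peaks, energy five: every doubled edge is left** -/
theorem sum_HasAD_five (hgr : Grad α) (hl : HasLower α i) (hdeg : ∀ p : α, (bd i p).card ≤ 2)
    (hpar : NoPar α i) (m : Mat α i) {n : ℕ} (hn : (lev α i).card = n) {R : Type} [CommRing R]
    (F : (α → ℕ) → R)
    (hF : ∀ (ε : α → ℕ) (y x x' g : α), ∑ p, ε p = 5 → (pkF i ε).card + 2 = n → m.Red ε →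
      GoodE i ε → AD i y x x' g ε → F ε + F (tog y g ε) = 0) :
    ∑ ε ∈ ((univ : Finset α).piAntidiag 5).filter
      (fun ε => m.Red ε ∧ GoodE i ε ∧ (pkF i ε).card + 2 = n ∧ HasAD i ε), F ε =
    - ∑ T ∈ DT α i, F (cfT i T) := by
  by_cases hn2 : 2 ≤ n
  · have h1 := sum_HasAD_add_TwoAD hgr hl hpar m 5 le_rfl (n - 2) F (by
      intro ε y x x' g h1 h2
      exact hF ε y x x' g h1 (by omega))
    have e1 : ∀ Q : (α → ℕ) → Prop, ((univ : Finset α).piAntidiag 5).filter
        (fun ε => m.Red ε ∧ GoodE i ε ∧ (pkF i ε).card = n - 2 ∧ Q ε) =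
        ((univ : Finset α).piAntidiag 5).filter
        (fun ε => m.Red ε ∧ GoodE i ε ∧ (pkF i ε).card + 2 = n ∧ Q ε) := by
      intro Q
      apply filter_congr
      intro ε _
      have : (pkF i ε).card = n - 2 ↔ (pkF i ε).card + 2 = n := by omega
      rw [this]
    rw [e1, e1] at h1
    have h2 : ∑ ε ∈ ((univ : Finset α).piAntidiag 5).filter
        (fun ε => m.Red ε ∧ GoodE i ε ∧ (pkF i ε).card + 2 = n ∧ TwoAD i ε), F ε =
        ∑ T ∈ DT α i, F (cfT i T) := by
      symm
      apply Finset.sum_bij (fun T _ => cfT i T)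
      · intro T hT
        obtain ⟨h3, _⟩ := cfT_data hgr hl m hdeg hT hn
        rw [m.mem_TT] at h3
        rw [mem_filter, mem_piAntidiag]
        exact ⟨⟨h3.1, fun p _ => mem_univ p⟩, h3.2.1, h3.2.2.1, h3.2.2.2, cfT_TwoAD hgr hdeg hT⟩
      · intro T hT T' hT' h3
        exact cfT_inj hgr hdeg hT hT' h3
      · intro ε hε
        rw [mem_filter, mem_piAntidiag] at hε
        obtain ⟨⟨T, hT, h3⟩, _⟩ := TwoAD_eq_cfT hgr hl hdeg (by rw [hε.1.1]) hn
          (by rw [hε.2.2.2.1]) hε.2.2.2.2
        exact ⟨T, hT, h3.symm⟩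
      · intro T hT
        rfl
    rw [h2] at h1
    exact eq_neg_of_add_eq_zero_left h1
  · have h1 : DT α i = ∅ := by
      rw [Finset.eq_empty_iff_forall_notMem]
      intro T hT
      obtain ⟨h3, _⟩ := cfT_data hgr hl m hdeg hT hn
      rw [m.mem_TT] at h3
      omega
    rw [h1, Finset.sum_empty, neg_zero]
    apply Finset.sum_eq_zero
    intro ε hε
    rw [mem_filter] at hε
    omega

/-- energy at most four: the active diamonds with two missing peaks cancel -/
theorem sum_HasAD_four (hgr : Grad α) (hl : HasLower α i) (hdeg : ∀ p : α, (bd i p).card ≤ 2)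
    (hpar : NoPar α i) (m : Mat α i) {n : ℕ} (hn : (lev α i).card = n) {s : ℕ} (hs : s ≤ 4)
    {R : Type} [CommRing R] (F : (α → ℕ) → R)
    (hF : ∀ (ε : α → ℕ) (y x x' g : α), ∑ p, ε p = s → (pkF i ε).card + 2 = n → m.Red ε →
      GoodE i ε → AD i y x x' g ε → F ε + F (tog y g ε) = 0) :
    ∑ ε ∈ ((univ : Finset α).piAntidiag s).filter
      (fun ε => m.Red ε ∧ GoodE i ε ∧ (pkF i ε).card + 2 = n ∧ HasAD i ε), F ε = 0 := by
  by_cases hn2 : 2 ≤ n
  · have h1 := sum_HasAD_add_TwoAD hgr hl hpar m s (by omega) (n - 2) F (by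
      intro ε y x x' g h1 h2
      exact hF ε y x x' g h1 (by omega))
    have e1 : ∀ Q : (α → ℕ) → Prop, ((univ : Finset α).piAntidiag s).filter
        (fun ε => m.Red ε ∧ GoodE i ε ∧ (pkF i ε).card = n - 2 ∧ Q ε) =
        ((univ : Finset α).piAntidiag s).filter
        (fun ε => m.Red ε ∧ GoodE i ε ∧ (pkF i ε).card + 2 = n ∧ Q ε) := by
      intro Q
      apply filter_congr
      intro ε _
      have : (pkF i ε).card = n - 2 ↔ (pkF i ε).card + 2 = n := by omega
      rw [this]
    rw [e1, e1] at h1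
    have h2 : ∑ ε ∈ ((univ : Finset α).piAntidiag s).filter
        (fun ε => m.Red ε ∧ GoodE i ε ∧ (pkF i ε).card + 2 = n ∧ TwoAD i ε), F ε = 0 := by
      apply Finset.sum_eq_zero
      intro ε hε
      exfalso
      rw [mem_filter, mem_piAntidiag] at hε
      have h3 := (TwoAD_eq_cfT hgr hl hdeg (by rw [hε.1.1]; omega) hn
          (by rw [hε.2.2.2.1]) hε.2.2.2.2).2
      rw [hε.1.1] at h3
      omega
    rw [h2, add_zero] at h1
    exact h1
  · apply Finset.sum_eq_zero
    intro ε hε
    rw [mem_filter] at hε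
    omega

end Pool.Gauss
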