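import Pool.Agent.Work.MP_065141_co.K.V5Pat

/-!
# The law V5 at every perfect level, its summation side and its consequence

No hypothesis on the events over interior pairs: see `Pln.strip_pat`.
-/

set_option autoImplicit false
set_option linter.unusedSectionVars false
open scoped Classical
open Finset

namespace Pool.Gauss

variable {α : Type} [Fintype α] [PartialOrder α]

/-- the sum of the signs of the events which do not meet the set over `g` -/
noncomputable def RR (b : ℕ) (g : α) : ℤ :=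
  ∑ q ∈ evtS α b, if Disjoint (BB b g) (BB b q) then sg b q else 0

variable (α) in
/-- the law V5 in the general form -/
def V5LR (b : ℕ) : Prop :=
  ∑ q ∈ evtS α b, ∑ q' ∈ evtS α b, (if (BB b q ∩ BB b q').card = 1 then sg b q * sg b q' else 0) +
    2 * ((jS α b).card : ℤ) - 2 * ((dS α b).card : ℤ) + 2 * ∑ g ∈ c3S α b, (- sg b g) * RR b g = 0

namespace Pln

variable {lo hi : α → ℕ → ℕ} {i : ℕ} {f : α → ℕ → ℕ → α}

/-- the sum of `HH` over a strip is zero -/
theorem sum_strip (h : Pln lo hi i f) (C : CtxK α) (hiH : i ≤ HT α) (hP : ∀ j < i, Perf α j)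
    {b : ℕ} (hb : b + 1 ≤ i) {a : α} (ha : corank a = 0) :
    ∑ c ∈ Ico (lo a b) (hi a b), HH f b a c = 0 := by
  rcases h.strip_pat C hiH hP hb ha with h1 | ⟨h1, h2⟩ | h1 | h1
  · apply sum_eq_zero
    intro c hc
    rw [mem_Ico] at hc
    exact h1 c hc.1 (by omega)
  · rw [h1, sum_Ico_succ_top (by omega), show Ico (lo a b) (lo a b + 1) = {lo a b} by
      ext x
      rw [mem_Ico, mem_singleton]
      omega, sum_singleton]
    exact h2
  · have hw := h1.w
    rw [sum_eq_sum_Ico_succ_bot (by omega : lo a b < hi a b),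
      sum_eq_sum_Ico_succ_bot (by omega : lo a b + 1 < hi a b), h1.m, h1.p, sum_eq_zero]
    · norm_num
    · intro c hc
      rw [mem_Ico] at hc
      exact (h1.z c (by omega) (by omega)).1
  · have hw := h1.w
    obtain ⟨v, hv⟩ : ∃ v, hi a b = v + 2 := ⟨hi a b - 2, by omega⟩
    have e1 := h1.m
    have e2 := h1.p
    rw [hv] at e1 e2 ⊢
    rw [show v + 2 - 1 = v + 1 by omega] at e1
    rw [show v + 2 - 2 = v by omega] at e2
    rw [show v + 2 = v + 1 + 1 by ring, sum_Ico_succ_top (by omega : lo a b ≤ v + 1),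
      sum_Ico_succ_top (by omega : lo a b ≤ v), e1, e2, sum_eq_zero]
    · norm_num
    · intro c hc
      rw [mem_Ico] at hc
      exact (h1.z c hc.1 (by omega)).1

/-- the sum over the pairs which do not meet a set inside the strip of `a0` is the sum over the
pairs of this strip -/
theorem sum_far (h : Pln lo hi i f) (C : CtxK α) (hiH : i ≤ HT α) (hP : ∀ j < i, Perf α j)
    {b : ℕ} (hb : b + 1 ≤ i) (U : Finset α) {a0 : α} (ha0 : corank a0 = 0)
    (h1 : ∀ p ∈ prs lo hi b, p.1 ≠ a0 → Disjoint U (pr2 f b p.1 p.2)) :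
    ∑ p ∈ prs lo hi b, HH f b p.1 p.2 * (if Disjoint U (pr2 f b p.1 p.2) then 1 else 0) =
      ∑ c ∈ Ico (lo a0 b) (hi a0 b), HH f b a0 c * (if Disjoint U (pr2 f b a0 c) then 1 else 0) := by
  rw [sum_prs, sum_eq_single a0]
  · intro a ha hne
    rw [mem_lev] at ha
    rw [← h.sum_strip C hiH hP hb ha]
    apply sum_congr rfl
    intro c hc
    rw [mem_Ico] at hc
    have hp : (a, c) ∈ prs lo hi b := mem_prs.2 ⟨ha, hc.1, by simp only; omega⟩
    have h5 := h1 (a, c) hp hne
    simp only at h5 ⊢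
    rw [if_pos h5, mul_one]
  · intro h2
    exact (h2 (mem_lev.2 ha0)).elim

/-- two pairs of a strip with distance at least two: the product of the values is zero, and if
one of them has an event the other value is zero -/
theorem far_zero (h : Pln lo hi i f) (C : CtxK α) (hiH : i ≤ HT α) (hP : ∀ j < i, Perf α j)
    {b : ℕ} (hb : b + 1 ≤ i) {a : α} (ha : corank a = 0) {c c' : ℕ} (h1 : lo a b ≤ c)
    (h2 : c + 1 ≤ hi a b) (h3 : lo a b ≤ c') (h4 : c' + 1 ≤ hi a b)
    (h5 : ¬ (c = c' ∨ c = c' + 1 ∨ c' = c + 1)) :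
    HH f b a c * HH f b a c' = 0 ∧ (nP f b a c ≠ 0 ∨ nQ f b a c ≠ 0 → HH f b a c' = 0) := by
  rcases h.strip_pat C hiH hP hb ha with h6 | ⟨h6, h7⟩ | h6 | h6
  · rw [h6 c' h3 h4]
    exact ⟨by ring, fun _ => rfl⟩
  · exfalso
    omega
  · have hw := h6.w
    rcases Nat.lt_or_ge c (lo a b + 2) with h8 | h8
    · have h9 := (h6.z c' (by omega) h4).1
      rw [h9]
      exact ⟨by ring, fun _ => rfl⟩
    · obtain ⟨h9, h10, h11⟩ := h6.z c h8 h2
      rw [h9]
      refine ⟨by ring, ?_⟩
      rintro (h12 | h12)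
      · exact absurd h10 h12
      · exact absurd h11 h12
  · have hw := h6.w
    rcases Nat.lt_or_ge (c + 2) (hi a b) with h8 | h8
    · obtain ⟨h9, h10, h11⟩ := h6.z c h1 h8
      rw [h9]
      refine ⟨by ring, ?_⟩
      rintro (h12 | h12)
      · exact absurd h10 h12
      · exact absurd h11 h12
    · have h9 := (h6.z c' h3 (by omega)).1
      rw [h9]
      exact ⟨by ring, fun _ => rfl⟩

/-- **the events which do not meet a given event** -/
theorem RR_evt (h : Pln lo hi i f) (C : CtxK α) (hiH : i ≤ HT α) (hP : ∀ j < i, Perf α j)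
    {b : ℕ} (hb : b + 1 ≤ i) {q : α} (hq : q ∈ evtS α b) : RR b q = 0 := by
  obtain ⟨p, hp, hpq⟩ := h.evtS_foot C hb hq
  have hev : nP f b p.1 p.2 ≠ 0 ∨ nQ f b p.1 p.2 ≠ 0 := by
    rcases ds2_iff.1 (mem_evtS.1 hq).1 with h1 | h1
    · right
      unfold nQ
      rw [← Nat.pos_iff_ne_zero, card_pos]
      exact ⟨q, mem_filter.2 ⟨(C.evtS_above h1).1 hq, by rw [← hpq, C.relp_BB_above h1]⟩⟩
    · left
      unfold nP
      rw [← Nat.pos_iff_ne_zero, card_pos]
      exact ⟨q, mem_filter.2 ⟨(C.evtS_below h1).1 hq, by rw [← hpq, C.relp_BB_below h1]⟩⟩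
  have h1 := h.sum_evtS C hb (fun T => if Disjoint (BB b q) T then 1 else 0)
  have h2 : RR b q =
      ∑ q' ∈ evtS α b, sg b q' * (if Disjoint (BB b q) (BB b q') then 1 else 0) := by
    unfold RR
    apply sum_congr rfl
    intro q' _
    split_ifs <;> ring
  have hp' := mem_prs.1 hp
  rw [h2, h1, hpq, h.sum_far C hiH hP hb _ hp'.1]
  · apply sum_eq_zero
    intro c hc
    rw [mem_Ico] at hc
    have hq' : (p.1, c) ∈ prs lo hi b := mem_prs.2 ⟨hp'.1, hc.1, by simp only; omega⟩
    by_cases h3 : Disjoint (pr2 f b p.1 p.2) (pr2 f b p.1 c)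
    · have h4 : ¬ (p.2 = c ∨ p.2 = c + 1 ∨ c = p.2 + 1) := by
        intro h4
        exact ((h.pr2_disj (by omega : b ≤ i) hp hq').2 ⟨rfl, h4⟩) h3
      rw [(h.far_zero C hiH hP hb hp'.1 hp'.2.1 hp'.2.2 hc.1 (by omega) h4).2 hev, zero_mul]
    · rw [if_neg h3, mul_zero]
  · intro q' hq' hne
    by_contra h3
    exact hne ((h.pr2_disj (by omega : b ≤ i) hp hq').1 h3).1.symm

/-- **the matched pairs which meet two disjoint events** do not contribute -/
theorem two_zero (h : Pln lo hi i f) (C : CtxK α) (hiH : i ≤ HT α) (hP : ∀ j < i, Perf α j)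
    {b : ℕ} (hb : b + 1 ≤ i) (m : Mat α b) :
    ∑ q ∈ evtS α b, ∑ q' ∈ evtS α b, (if Disjoint (BB b q) (BB b q') then
      sg b q * sg b q' * T2 m (BB b q) (BB b q') else 0) = 0 := by
  have e1 : ∀ q ∈ evtS α b, ∑ q' ∈ evtS α b, (if Disjoint (BB b q) (BB b q') then
      sg b q * sg b q' * T2 m (BB b q) (BB b q') else 0) =
      sg b q * ∑ p ∈ prs lo hi b, HH f b p.1 p.2 *
        (if Disjoint (BB b q) (pr2 f b p.1 p.2) then T2 m (BB b q) (pr2 f b p.1 p.2) else 0) := by
    intro q _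
    rw [← h.sum_evtS C hb (fun T => if Disjoint (BB b q) T then T2 m (BB b q) T else 0), mul_sum]
    apply sum_congr rfl
    intro q' _
    split_ifs <;> ring
  rw [sum_congr rfl e1, h.sum_evtS C hb (fun S => ∑ p ∈ prs lo hi b, HH f b p.1 p.2 *
    (if Disjoint S (pr2 f b p.1 p.2) then T2 m S (pr2 f b p.1 p.2) else 0))]
  apply sum_eq_zero
  intro p hp
  rw [mul_sum]
  apply sum_eq_zero
  intro p' hp'
  by_cases h1 : Disjoint (pr2 f b p.1 p.2) (pr2 f b p'.1 p'.2)
  · rw [if_pos h1]
    by_cases h2 : p.1 = p'.1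
    · have h3 := mem_prs.1 hp
      have h4 := mem_prs.1 hp'
      rw [← h2] at h4
      have h5 : ¬ (p.2 = p'.2 ∨ p.2 = p'.2 + 1 ∨ p'.2 = p.2 + 1) := by
        intro h5
        exact ((h.pr2_disj (by omega : b ≤ i) hp hp').2 ⟨h2, h5⟩) h1
      rw [← h2, ← mul_assoc, (h.far_zero C hiH hP hb h3.1 h3.2.1 h3.2.2 h4.2.1 h4.2.2 h5).1,
        zero_mul]
    · have h3 : T2 m (pr2 f b p.1 p.2) (pr2 f b p'.1 p'.2) = 0 := by
        unfold T2
        rw [filter_eq_empty_iff.2, card_empty]
        · rfl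
        · intro e he h4
          obtain ⟨p'', hp'', h5⟩ := h.mat_foot C (by omega : b ≤ i) m he
          rw [h5] at h4
          have h6 := ((h.pr2_disj (by omega : b ≤ i) hp'' hp).1 h4.1).1
          have h7 := ((h.pr2_disj (by omega : b ≤ i) hp'' hp').1 h4.2).1
          exact h2 (h6.symm.trans h7)
      rw [h3]
      ring
  · rw [if_neg h1]
    ring

/-- **the sum over the ordered pairs of disjoint events** of a value which is a constant plus a
function of each event minus the number of matched pairs which meet both -/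
theorem total_zero (h : Pln lo hi i f) (C : CtxK α) (hiH : i ≤ HT α) (hP : ∀ j < i, Perf α j)
    {b : ℕ} (hb : b + 1 ≤ i) (m : Mat α b) (K : ℤ) (τ τ' : α → ℤ) :
    ∑ q ∈ evtS α b, ∑ q' ∈ evtS α b, (if Disjoint (BB b q) (BB b q') then
      sg b q * sg b q' * (K + τ q + τ' q' - T2 m (BB b q) (BB b q')) else 0) = 0 := by
  have e1 : ∀ q ∈ evtS α b, ∀ q' ∈ evtS α b, (if Disjoint (BB b q) (BB b q') then
      sg b q * sg b q' * (K + τ q + τ' q' - T2 m (BB b q) (BB b q')) else 0) =
      (sg b q * (K + τ q)) * (if Disjoint (BB b q) (BB b q') then sg b q' else 0) +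
      (sg b q' * τ' q') * (if Disjoint (BB b q') (BB b q) then sg b q else 0) -
      (if Disjoint (BB b q) (BB b q') then sg b q * sg b q' * T2 m (BB b q) (BB b q') else 0) := by
    intro q _ q' _
    by_cases h1 : Disjoint (BB b q) (BB b q')
    · rw [if_pos h1, if_pos h1, if_pos h1.symm, if_pos h1]
      ring
    · rw [if_neg h1, if_neg h1, if_neg (fun h2 => h1 h2.symm), if_neg h1]
      ring
  rw [sum_congr rfl fun q hq => sum_congr rfl fun q' hq' => e1 q hq q' hq']
  simp only [sum_sub_distrib, sum_add_distrib]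
  have e2 : ∑ q ∈ evtS α b, ∑ q' ∈ evtS α b, (sg b q * (K + τ q)) *
      (if Disjoint (BB b q) (BB b q') then sg b q' else 0) = 0 := by
    apply sum_eq_zero
    intro q hq
    have h3 := h.RR_evt C hiH hP hb hq
    unfold RR at h3
    rw [← mul_sum, h3, mul_zero]
  have e3 : ∑ q ∈ evtS α b, ∑ q' ∈ evtS α b, (sg b q' * τ' q') *
      (if Disjoint (BB b q') (BB b q) then sg b q else 0) = 0 := by
    rw [sum_comm]
    apply sum_eq_zero
    intro q' hq'
    have h3 := h.RR_evt C hiH hP hb hq'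
    unfold RR at h3
    rw [← mul_sum, h3, mul_zero]
  rw [e2, e3, h.two_zero C hiH hP hb m]
  ring

end Pln

end Pool.Gauss
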