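import Pool.Agent.Work.MP_065141_co.K.V5Gen

/-!
# The consequence of the general law V5: no object J below, then `HH = 0` and no doubled triples
-/

set_option autoImplicit false
set_option linter.unusedSectionVars false
open scoped Classical
open Finset

namespace Pool.Gauss

variable {α : Type} [Fintype α] [PartialOrder α]

/-- the sum of the signs of the events which do not meet a set -/
noncomputable def RRs (b : ℕ) (U : Finset α) : ℤ :=
  ∑ q ∈ evtS α b, if Disjoint U (BB b q) then sg b q else 0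

lemma RR_eq (b : ℕ) (g : α) : RR b g = RRs b (BB b g) := rfl

namespace Pln

variable {lo hi : α → ℕ → ℕ} {i : ℕ} {f : α → ℕ → ℕ → α}

/-- when a triple and a pair of the same strip meet -/
lemma tr3_pr2 (h : Pln lo hi i f) {b : ℕ} (hb : b ≤ i) {a : α} {c c' : ℕ} (ha : corank a = 0)
    (h1 : lo a b ≤ c) (h2 : c + 2 ≤ hi a b) (h3 : lo a b ≤ c') (h4 : c' + 1 ≤ hi a b) :
    Disjoint (tr3 f b a c) (pr2 f b a c') ↔ c' + 2 ≤ c ∨ c + 3 ≤ c' := by
  have hp : (a, c) ∈ prs lo hi b := mem_prs.2 ⟨ha, h1, by simp only; omega⟩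
  have hp1 : (a, c + 1) ∈ prs lo hi b := mem_prs.2 ⟨ha, by simp only; omega, by simp only; omega⟩
  have hq : (a, c') ∈ prs lo hi b := mem_prs.2 ⟨ha, h3, h4⟩
  have e1 := h.pr2_disj hb hp hq
  have e2 := h.pr2_disj hb hp1 hq
  simp only [true_and] at e1 e2
  rw [tr3_eq, Finset.disjoint_union_left]
  constructor
  · rintro ⟨h5, h6⟩
    have h7 : ¬ (c = c' ∨ c = c' + 1 ∨ c' = c + 1) := fun h7 => (e1.2 h7) h5
    have h8 : ¬ (c + 1 = c' ∨ c + 1 = c' + 1 ∨ c' = c + 1 + 1) := fun h8 => (e2.2 h8) h6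
    omega
  · intro h5
    constructor
    · by_contra h6
      have := e1.1 h6
      omega
    · by_contra h6
      have := e2.1 h6
      omega

lemma RRs_sum (h : Pln lo hi i f) (C : CtxK α) (hiH : i ≤ HT α) (hP : ∀ j < i, Perf α j)
    {b : ℕ} (hb : b + 1 ≤ i) {a : α} {c : ℕ} (ha : corank a = 0)
    (h1 : lo a b ≤ c) (h2 : c + 2 ≤ hi a b) : RRs b (tr3 f b a c) =
      ∑ c' ∈ Ico (lo a b) (hi a b), HH f b a c' * (if c' + 2 ≤ c ∨ c + 3 ≤ c' then 1 else 0) := by
  have e1 := h.sum_evtS C hb (fun T => if Disjoint (tr3 f b a c) T then 1 else 0)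
  have e2 : RRs b (tr3 f b a c) =
      ∑ q' ∈ evtS α b, sg b q' * (if Disjoint (tr3 f b a c) (BB b q') then 1 else 0) := by
    unfold RRs
    apply sum_congr rfl
    intro q' _
    split_ifs <;> ring
  rw [e2, e1, h.sum_far C hiH hP hb _ ha]
  · apply sum_congr rfl
    intro c' hc'
    rw [mem_Ico] at hc'
    have e3 := h.tr3_pr2 (by omega : b ≤ i) ha h1 h2 hc'.1 (by omega : c' + 1 ≤ hi a b)
    by_cases h5 : c' + 2 ≤ c ∨ c + 3 ≤ c'
    · rw [if_pos (e3.2 h5), if_pos h5]
    · rw [if_neg (fun h6 => h5 (e3.1 h6)), if_neg h5]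
  · intro p hp hne
    rw [tr3_eq, Finset.disjoint_union_left]
    have hp : (a, c) ∈ prs lo hi b := mem_prs.2 ⟨ha, h1, by simp only; omega⟩
    have hp1 : (a, c + 1) ∈ prs lo hi b := mem_prs.2 ⟨ha, by simp only; omega, by simp only; omega⟩
    constructor
    · by_contra h6
      exact hne ((h.pr2_disj (by omega : b ≤ i) hp (by assumption)).1 h6).1.symm
    · by_contra h6
      exact hne ((h.pr2_disj (by omega : b ≤ i) hp1 (by assumption)).1 h6).1.symm

/-- the values at the triples are `0` or `-1` -/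
theorem RRs_tr3 (h : Pln lo hi i f) (C : CtxK α) (hiH : i ≤ HT α) (hP : ∀ j < i, Perf α j)
    {b : ℕ} (hb : b + 1 ≤ i) {a : α} {c : ℕ} (ha : corank a = 0)
    (h1 : lo a b ≤ c) (h2 : c + 2 ≤ hi a b) :
    RRs b (tr3 f b a c) = 0 ∨ RRs b (tr3 f b a c) = -1 := by
  rw [h.RRs_sum C hiH hP hb ha h1 h2]
  rcases h.strip_pat C hiH hP hb ha with h3 | ⟨h3, h4⟩ | h3 | h3
  · left
    apply sum_eq_zero
    intro c' hc'
    rw [mem_Ico] at hc'
    rw [h3 c' hc'.1 (by omega), zero_mul]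
  · left
    apply sum_eq_zero
    intro c' hc'
    rw [mem_Ico] at hc'
    rw [if_neg (by omega), mul_zero]
  · have hw := h3.w
    rw [sum_eq_sum_Ico_succ_bot (by omega : lo a b < hi a b),
      sum_eq_sum_Ico_succ_bot (by omega : lo a b + 1 < hi a b), h3.m, h3.p]
    have h5 : ∑ c' ∈ Ico (lo a b + 1 + 1) (hi a b),
        HH f b a c' * (if c' + 2 ≤ c ∨ c + 3 ≤ c' then 1 else 0) = 0 := by
      apply sum_eq_zero
      intro c' hc'
      rw [mem_Ico] at hc'
      rw [(h3.z c' (by omega) (by omega)).1, zero_mul]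
    rw [h5]
    by_cases h6 : lo a b + 2 ≤ c
    · by_cases h7 : lo a b + 3 ≤ c
      · left
        rw [if_pos (by omega), if_pos (by omega)]
        norm_num
      · right
        rw [if_pos (by omega), if_neg (by omega)]
        norm_num
    · left
      rw [if_neg (by omega), if_neg (by omega)]
      norm_num
  · have hw := h3.w
    obtain ⟨v, hv⟩ : ∃ v, hi a b = v + 2 := ⟨hi a b - 2, by omega⟩
    have e1 := h3.m
    have e2 := h3.p
    rw [hv] at e1 e2
    rw [show v + 2 - 1 = v + 1 by omega] at e1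
    rw [show v + 2 - 2 = v by omega] at e2
    rw [hv, show v + 2 = v + 1 + 1 by ring, sum_Ico_succ_top (by omega : lo a b ≤ v + 1),
      sum_Ico_succ_top (by omega : lo a b ≤ v), e1, e2]
    have h5 : ∑ c' ∈ Ico (lo a b) v,
        HH f b a c' * (if c' + 2 ≤ c ∨ c + 3 ≤ c' then 1 else 0) = 0 := by
      apply sum_eq_zero
      intro c' hc'
      rw [mem_Ico] at hc'
      rw [(h3.z c' hc'.1 (by omega)).1, zero_mul]
    rw [h5]
    by_cases h6 : c + 3 ≤ v + 1
    · by_cases h7 : c + 3 ≤ v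
      · left
        rw [if_pos (by omega), if_pos (by omega)]
        norm_num
      · right
        rw [if_neg (by omega), if_pos (by omega)]
        norm_num
    · left
      rw [if_neg (by omega), if_neg (by omega)]
      norm_num

/-- sums over the common children, sorted by the triples -/
lemma sum_NEv (h : Pln lo hi i f) (C : CtxK α) (hiH : i ≤ HT α) (hP : ∀ j < i, Perf α j)
    {b : ℕ} (hb : b + 1 ≤ i) (F : Finset α → ℤ) :
    ∑ g ∈ NEv α b, F (Pr2 g) = ∑ x ∈ trs lo hi b, (nN f b x.1 x.2 : ℤ) * F (tr3 f b x.1 x.2) := by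
  have key : ∀ g, ∃ x : α × ℕ, g ∈ NEv α b → x ∈ trs lo hi b ∧ Pr2 g = tr3 f b x.1 x.2 := by
    intro g
    by_cases hg : g ∈ NEv α b
    · obtain ⟨a, c, ha, h1, h2, h3, _⟩ := h.NEv_foot C hiH hP hb hg
      exact ⟨(a, c), fun _ => ⟨mem_trs.2 ⟨ha, h1, h2⟩, h3⟩⟩
    · exact ⟨(g, 0), fun h1 => absurd h1 hg⟩
  choose x hx using key
  rw [← sum_fiberwise_of_maps_to (g := x) (t := trs lo hi b) (fun g hg => (hx g hg).1)]
  apply sum_congr rfl
  intro y hy
  have h1 : ∀ g ∈ (NEv α b).filter (fun g => x g = y), F (Pr2 g) = F (tr3 f b y.1 y.2) := by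
    intro g hg
    rw [mem_filter] at hg
    rw [(hx g hg.1).2, hg.2]
  rw [sum_congr rfl h1, sum_const, nsmul_eq_mul]
  congr 2
  unfold nN
  congr 1
  apply filter_congr
  intro g hg
  constructor
  · rintro rfl
    exact (hx g hg).2
  · intro h2
    rw [(hx g hg).2] at h2
    exact h.tr3_inj (by omega : b ≤ i) (hx g hg).1 hy h2

/-- sums over the common parents, sorted by the triples -/
lemma sum_VEv (h : Pln lo hi i f) (C : CtxK α) {b : ℕ} (hb : b ≤ i) (F : Finset α → ℤ) :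
    ∑ g ∈ VEv α b, F (Ch2 g) = ∑ x ∈ trs lo hi b, F (tr3 f b x.1 x.2) := by
  have key : ∀ g, ∃ x : α × ℕ, g ∈ VEv α b → x ∈ trs lo hi b ∧ Ch2 g = tr3 f b x.1 x.2 := by
    intro g
    by_cases hg : g ∈ VEv α b
    · have hc := (mem_VEv.1 hg).1
      obtain ⟨j, rfl⟩ : ∃ j, b = j + 2 := ⟨b - 2, by omega⟩
      obtain ⟨a, c, ha, h3, h4, h5⟩ := h.VEv_foot C (by omega) hg
      exact ⟨(a, c), fun _ => ⟨mem_trs.2 ⟨ha, h3, h4⟩, by
        rw [h5, (h.VEv_exists C (by omega) ha h3 h4).2]⟩⟩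
    · exact ⟨(g, 0), fun h1 => absurd h1 hg⟩
  choose x hx using key
  rw [← sum_fiberwise_of_maps_to (g := x) (t := trs lo hi b) (fun g hg => (hx g hg).1)]
  apply sum_congr rfl
  intro y hy
  have hy' := mem_trs.1 hy
  have h1 : ∀ g ∈ (VEv α b).filter (fun g => x g = y), F (Ch2 g) = F (tr3 f b y.1 y.2) := by
    intro g hg
    rw [mem_filter] at hg
    rw [(hx g hg.1).2, hg.2]
  have h3 := h.nV_eq C hb hy'.1 hy'.2.1 hy'.2.2
  have h2 : ((VEv α b).filter (fun g => x g = y)).card = 1 := by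
    rw [← h3]
    congr 1
    apply filter_congr
    intro g hg
    constructor
    · rintro rfl
      exact (hx g hg).2
    · intro h2
      rw [(hx g hg).2] at h2
      exact h.tr3_inj hb (hx g hg).1 hy h2
  rw [sum_congr rfl h1, sum_const, h2, one_smul]

/-- the additional term of the law in coordinates -/
theorem RR_total (h : Pln lo hi i f) (C : CtxK α) (hiH : i ≤ HT α) (hP : ∀ j < i, Perf α j)
    {b : ℕ} (hb : b + 1 ≤ i) : ∑ g ∈ c3S α b, (- sg b g) * RR b g =
      ∑ x ∈ trs lo hi b, RRs b (tr3 f b x.1 x.2) * (1 - (nN f b x.1 x.2 : ℤ)) := by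
  rw [C.c3S_eq, sum_union]
  · have e1 : ∑ g ∈ NEv α b, (- sg b g) * RR b g = ∑ g ∈ NEv α b, (- RRs b (Pr2 g)) := by
      apply sum_congr rfl
      intro g hg
      have h1 := (mem_NEv.1 hg).1
      rw [RR_eq, C.relp_BB_below h1]
      unfold sg
      rw [if_neg (by omega)]
      ring
    have e2 : ∑ g ∈ VEv α b, (- sg b g) * RR b g = ∑ g ∈ VEv α b, RRs b (Ch2 g) := by
      apply sum_congr rfl
      intro g hg
      have h1 := (mem_VEv.1 hg).1
      rw [RR_eq, C.relp_BB_above h1]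
      unfold sg
      rw [if_pos (by omega)]
      ring
    rw [e1, e2, h.sum_NEv C hiH hP hb (fun U => - RRs b U), h.sum_VEv C (by omega) (fun U => RRs b U),
      ← sum_add_distrib]
    apply sum_congr rfl
    intro x _
    ring
  · rw [Finset.disjoint_left]
    intro g h1 h2
    rw [mem_NEv] at h1
    rw [mem_VEv] at h2
    omega

/-- the doubled common children -/
theorem DEv_ge (h : Pln lo hi i f) (C : CtxK α) (hiH : i ≤ HT α) (hP : ∀ j < i, Perf α j)
    {b : ℕ} (hb : b + 1 ≤ i) : ∑ x ∈ trs lo hi b, (nN f b x.1 x.2).choose 2 ≤ (DEv α b).card := by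
  have h1 : ∀ x ∈ trs lo hi b, ∀ y ∈ trs lo hi b, x ≠ y →
      Disjoint (((NEv α b).filter fun g => Pr2 g = tr3 f b x.1 x.2).powersetCard 2)
        (((NEv α b).filter fun g => Pr2 g = tr3 f b y.1 y.2).powersetCard 2) := by
    intro x hx y hy hne
    rw [Finset.disjoint_left]
    intro s hs hs'
    rw [mem_powersetCard] at hs hs'
    obtain ⟨g, hg⟩ : s.Nonempty := by
      rw [← card_pos, hs.2]
      norm_num
    have h2 := (mem_filter.1 (hs.1 hg)).2
    have h3 := (mem_filter.1 (hs'.1 hg)).2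
    rw [h2] at h3
    exact hne (h.tr3_inj (by omega : b ≤ i) hx hy h3)
  have h2 : ∑ x ∈ trs lo hi b, (nN f b x.1 x.2).choose 2 =
      ((trs lo hi b).biUnion fun x =>
        ((NEv α b).filter fun g => Pr2 g = tr3 f b x.1 x.2).powersetCard 2).card := by
    rw [card_biUnion h1]
    apply sum_congr rfl
    intro x _
    rw [card_powersetCard]
    rfl
  rw [h2]
  apply card_le_card
  intro s hs
  rw [mem_biUnion] at hs
  obtain ⟨x, hx, hs⟩ := hs
  rw [mem_powersetCard] at hs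
  have hx' := mem_trs.1 hx
  have key : ∀ g ∈ s, Pr g = {f x.1 (b + 1) (x.2 + 1), f x.1 (b + 1) (x.2 + 2)} := by
    intro g hg
    have h3 := mem_filter.1 (hs.1 hg)
    obtain ⟨a', c', ha', k1, k2, k3, k4⟩ := h.NEv_foot C hiH hP hb h3.1
    rw [h3.2] at k3
    have := h.tr3_inj (by omega) (p := x) (q := (a', c')) hx (mem_trs.2 ⟨ha', k1, k2⟩) k3
    rw [this]
    exact k4
  rw [mem_DEv]
  refine ⟨fun g hg => (mem_filter.1 (hs.1 hg)).1, hs.2, ?_⟩
  intro g hg g' hg'
  rw [key g hg, key g' hg']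

lemma sub_one_le_choose (n : ℕ) : (n : ℤ) - 1 ≤ (n.choose 2 : ℕ) := by
  rcases Nat.lt_or_ge n 2 with h | h
  · rcases (show n = 0 ∨ n = 1 by omega) with rfl | rfl <;> simp
  · induction n, h using Nat.le_induction with
    | base => simp
    | succ m hm ih =>
      rw [Nat.choose_succ_succ' m 1, Nat.choose_one_right]
      push_cast
      have : (0 : ℤ) ≤ (m.choose 2 : ℕ) := by positivity
      have h2 : (1 : ℤ) ≤ m := by exact_mod_cast (by omega : 1 ≤ m)
      linarith

/-- **the general law V5 without an object J below**: `HH = 0` and no doubled triples below -/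
theorem V5_zero' (h : Pln lo hi i f) (C : CtxK α) (hiH : i ≤ HT α) (hP : ∀ j < i, Perf α j)
    {b : ℕ} (hb : b + 1 ≤ i) (hV : V5LR α b) (hJ : JEv α b = ∅) :
    (∀ a, corank a = 0 → H0 lo hi f b a) ∧ DEv α b = ∅ := by
  unfold V5LR at hV
  rw [h.sum_touch C hb, C.jS_eq, h.JEv'_empty C (by omega), hJ, C.dS_eq,
    h.DEv'_empty C (by omega), union_empty, union_empty, card_empty, h.RR_total C hiH hP hb] at hV
  have h0 : ∑ x ∈ trs lo hi b, RRs b (tr3 f b x.1 x.2) * (1 - (nN f b x.1 x.2 : ℤ)) ≤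
      ((DEv α b).card : ℤ) := by
    have h1 : (∑ x ∈ trs lo hi b, ((nN f b x.1 x.2).choose 2 : ℕ) : ℤ) ≤ ((DEv α b).card : ℤ) := by
      exact_mod_cast h.DEv_ge C hiH hP hb
    refine le_trans (sum_le_sum fun x hx => ?_) h1
    have hx' := mem_trs.1 hx
    have h2 := sub_one_le_choose (nN f b x.1 x.2)
    rcases h.RRs_tr3 C hiH hP hb hx'.1 hx'.2.1 hx'.2.2 with h3 | h3
    · rw [h3, zero_mul]
      positivity
    · rw [h3]
      linarith
  have h1 : 0 ≤ ∑ a ∈ lev α 0, ∑ c ∈ Ico (lo a b) (hi a b - 1),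
      HH f b a c * HH f b a (c + 1) := by
    push_cast at hV
    linarith
  have h2 : ∀ a, corank a = 0 → H0 lo hi f b a := fun a ha c h3 h4 =>
    h.HH_zero_of_V5 C hiH hP hb h1 ha h3 h4
  refine ⟨h2, ?_⟩
  have h3 : ∑ a ∈ lev α 0, ∑ c ∈ Ico (lo a b) (hi a b - 1),
      HH f b a c * HH f b a (c + 1) = 0 := by
    apply sum_eq_zero
    intro a ha
    rw [mem_lev] at ha
    apply sum_eq_zero
    intro c hc
    rw [mem_Ico] at hc
    rw [h2 a ha c hc.1 (by omega), zero_mul]
  have h4 : ∑ x ∈ trs lo hi b, RRs b (tr3 f b x.1 x.2) * (1 - (nN f b x.1 x.2 : ℤ)) = 0 := by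
    apply sum_eq_zero
    intro x hx
    have hx' := mem_trs.1 hx
    rw [h.RRs_sum C hiH hP hb hx'.1 hx'.2.1 hx'.2.2, sum_eq_zero, zero_mul]
    intro c hc
    rw [mem_Ico] at hc
    rw [h2 x.1 hx'.1 c hc.1 (by omega), zero_mul]
  rw [h3, h4] at hV
  push_cast at hV
  have h5 : ((DEv α b).card : ℤ) = 0 := by linarith
  exact card_eq_zero.1 (by exact_mod_cast h5)

/-- two rows below the row in coordinates the general law is the law V5 -/
theorem V5LR_iff (h : Pln lo hi i f) (C : CtxK α) (hiH : i ≤ HT α) (hP : ∀ j < i, Perf α j)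
    {b : ℕ} (hb : b + 2 ≤ i) : V5LR α b ↔ V5L α b := by
  have hs := h.str5 C hiH hP hb
  have e1 : ∑ g ∈ c3S α b, (- sg b g) * RR b g = 0 := by
    apply sum_eq_zero
    intro g hg
    have h1 := hs.tri h C hiH hP (by omega) hg
    unfold RR
    rw [h1, mul_zero]
  unfold V5LR V5L
  rw [e1]
  constructor <;> intro h2 <;> linarith

end Pln

end Pool.Gauss
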