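import Pool.Agent.Work.MP_065141_co.K.V5Dbl

/-!
# The configuration of a join of two `P`-elements
-/

set_option autoImplicit false
set_option linter.unusedSectionVars false
set_option linter.unusedVariables false
open scoped Classical
open Finset Polynomial

namespace Pool.Gauss

variable {α : Type} [Fintype α] [PartialOrder α] {i : ℕ}

/-- `v` is at distance three over two elements, each over one double element, these two double
elements being disjoint -/
def isJ (i : ℕ) (v : α) : Prop := ∃ w w' : α, bd i v = {w, w'} ∧ isD i w w'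

/-- the elements `v` of this kind -/
noncomputable def JV (α : Type) [Fintype α] [PartialOrder α] (i : ℕ) : Finset α :=
  univ.filter fun v => isJ i v

lemma mem_JV {v : α} : v ∈ JV α i ↔ isJ i v := by simp [JV]

/-- the configuration: `v` and everything nearer outside level `i` -/
noncomputable def cfJ (i : ℕ) (v : α) : α → ℕ := ind ({v} ∪ bd i v ∪ BB i v)

/-- the data of an element over two `P`-elements -/
lemma isJ.data (hg : Grad α) {v : α} (h : isJ i v) : ∃ w w' x x' : α, bd i v = {w, w'} ∧
    bd i w = {x} ∧ bd i w' = {x'} ∧ (bd i x).card = 2 ∧ (bd i x').card = 2 ∧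
    Disjoint (bd i x) (bd i x') ∧ ds i v = 3 ∧ ds i w = 2 ∧ ds i w' = 2 ∧ ds i x = 1 ∧
    ds i x' = 1 ∧ w ≠ w' ∧ x ≠ x' ∧ ({v} ∪ bd i v ∪ BB i v : Finset α) = {v, w, w', x, x'} := by
  obtain ⟨w, w', hb, hD⟩ := h
  have hne := isD_ne hD
  obtain ⟨⟨hq, hB⟩, ⟨hq', hB'⟩, hd⟩ := hD
  rw [mem_U1] at hq hq'
  obtain ⟨x, hx⟩ := Finset.card_eq_one.1 hq.2
  obtain ⟨x', hx'⟩ := Finset.card_eq_one.1 hq'.2
  have hBp : BB i w = bd i x := by unfold BB; rw [hx, singleton_biUnion]
  have hBp' : BB i w' = bd i x' := by unfold BB; rw [hx', singleton_biUnion]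
  have dx := ds_of_mem_bd hg hq.1 (show x ∈ bd i w by rw [hx]; simp)
  have dx' := ds_of_mem_bd hg hq'.1 (show x' ∈ bd i w' by rw [hx']; simp)
  have dv : ds i v = 3 := by
    rw [fr_ds hg (mem_bd.1 (show w ∈ bd i v by rw [hb]; simp)), hq.1]
  rw [hBp] at hB hd
  rw [hBp'] at hB' hd
  have hxx : x ≠ x' := by
    rintro rfl
    rw [disjoint_self_iff_empty] at hd
    rw [hd] at hB
    simp at hB
  refine ⟨w, w', x, x', hb, hx, hx', hB, hB', hd, dv, hq.1, hq'.1, dx, dx', hne, hxx, ?_⟩
  unfold BB
  rw [hb, biUnion_insert, singleton_biUnion, hx, hx']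
  ext t
  simp only [mem_union, mem_insert, mem_singleton]
  tauto

/-- the data of `cfJ` -/
theorem cfJ_data (hg : Grad α) (hl : HasLower α i) (m : Mat α i) {v : α} (h : isJ i v) {n : ℕ}
    (hn : (lev α i).card = n) :
    cfJ i v ∈ m.TT 5 n ∧ (-1 : ℤ) ^ (inF i (cfJ i v)).card = (-1) ^ (low α i).card := by
  obtain ⟨w, w', x, x', hb, hx, hx', c1, c2, hd, dv, dw, dw', dx, dx', hww, hxx, hset⟩ := h.data hg
  unfold cfJ
  rw [hset]
  have hne : ∀ a b : α, ds i a ≠ ds i b → a ≠ b := by
    rintro a b hab rfl
    exact hab rfl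
  obtain ⟨T, hT⟩ : ∃ T : Finset α, T = {v, w, w', x, x'} := ⟨_, rfl⟩
  rw [← hT]
  have memT : ∀ t, t ∈ T ↔ t = v ∨ t = w ∨ t = w' ∨ t = x ∨ t = x' := by
    intro t
    rw [hT]
    simp only [mem_insert, mem_singleton]
  have mw : w ∈ T := (memT w).2 (Or.inr (Or.inl rfl))
  have mw' : w' ∈ T := (memT w').2 (Or.inr (Or.inr (Or.inl rfl)))
  have mx : x ∈ T := (memT x).2 (Or.inr (Or.inr (Or.inr (Or.inl rfl))))
  have mx' : x' ∈ T := (memT x').2 (Or.inr (Or.inr (Or.inr (Or.inr rfl))))
  have pos1 : ∀ t ∈ T, 1 ≤ ds i t := by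
    intro t ht
    rw [memT] at ht
    rcases ht with rfl | rfl | rfl | rfl | rfl <;> omega
  have one : ∀ t ∈ T, ds i t = 1 → t = x ∨ t = x' := by
    intro t ht h1
    rw [memT] at ht
    rcases ht with rfl | rfl | rfl | rfl | rfl
    · omega
    · omega
    · omega
    · exact Or.inl rfl
    · exact Or.inr rfl
  have hncl : NClosed i T := by
    intro s hs t hts hti
    rw [memT] at hs
    have h1 := fr_ds hg hts
    rcases hs with hs | hs | hs | hs | hs
    · have h2 : t ∈ bd i v := mem_bd.2 (by rw [← hs]; exact hts)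
      rw [hb, mem_insert, mem_singleton] at h2
      rcases h2 with h2 | h2
      · rw [h2]; exact mw
      · rw [h2]; exact mw'
    · have h2 : t ∈ bd i w := mem_bd.2 (by rw [← hs]; exact hts)
      rw [hx, mem_singleton] at h2
      rw [h2]; exact mx
    · have h2 : t ∈ bd i w' := mem_bd.2 (by rw [← hs]; exact hts)
      rw [hx', mem_singleton] at h2
      rw [h2]; exact mx'
    · rw [hs, dx] at h1
      exact absurd (ds_eq_zero.1 (by omega)) hti
    · rw [hs, dx'] at h1
      exact absurd (ds_eq_zero.1 (by omega)) hti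
  -- sides
  have fwv : fr i w v := mem_bd.1 (by rw [hb]; simp)
  have fwv' : fr i w' v := mem_bd.1 (by rw [hb]; simp)
  have fxw : x ∈ bd i w := by rw [hx]; simp
  have fxw' : x' ∈ bd i w' := by rw [hx']; simp
  have s1 := side_of_mem_bd hg dw fxw
  have s2 := side_of_mem_bd hg dw' fxw'
  have hvi : corank v ≠ i := by
    intro h
    rw [ds_eq_zero.2 h] at dv
    omega
  have s3 : ∀ u, fr i u v → (corank u < i ↔ corank v < i) ∧ (i < corank u ↔ i < corank v) := by
    intro u hu
    have h1 := fr_ds hg hu
    rcases lt_or_gt_of_ne hvi with h3 | h3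
    · have h4 := fr_above' hg hu h3
      have h6 := hg u v h4.2
      have h7 := dv
      unfold ds at h7
      omega
    · have h4 := fr_below' hg hu h3
      have h6 := hg v u h4.2
      have h7 := dv
      unfold ds at h7
      omega
  have s4 := s3 w fwv
  have s5 := s3 w' fwv'
  have sideT : ∀ t ∈ T, (corank t < i ↔ corank v < i) ∧ (i < corank t ↔ i < corank v) := by
    intro t ht
    rw [memT] at ht
    rcases ht with rfl | rfl | rfl | rfl | rfl
    · exact ⟨Iff.rfl, Iff.rfl⟩
    · exact s4
    · exact s5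
    · exact ⟨s1.1.trans s4.1, s1.2.trans s4.2⟩
    · exact ⟨s2.1.trans s5.1, s2.2.trans s5.2⟩
  have hgood : GoodE i (ind T) := by
    apply ind_goodE hg hl hncl
    rintro y hy hyT p hp p' hp' h1 h2 ⟨h3, h4⟩
    have := sideT p hp
    have := sideT p' hp'
    omega
  have hred : m.Red (ind T) := by
    intro t ht
    have h1 := (m.rst_prop ht).1
    have hdt := rst_ds m ht
    by_contra h2
    have h3 : t ∈ T := ind_pos.1 (Nat.pos_of_ne_zero h2)
    rcases one t h3 hdt with h4 | h4
    · have f1 : fr i t w := by rw [h4]; exact mem_bd.1 fxw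
      exact h1 (att_of_fr hg hdt f1 (ind_pos.2 mw))
    · have f1 : fr i t w' := by rw [h4]; exact mem_bd.1 fxw'
      exact h1 (att_of_fr hg hdt f1 (ind_pos.2 mw'))
  have hlevT : ∀ t, ds i t = 0 → t ∉ T := by
    intro t ht h1
    have := pos1 t h1
    omega
  have hFo : Fo i (ind T) = {x, x'} := by
    rw [ind_Fo hg hl]
    ext t
    rw [mem_filter, mem_insert, mem_singleton]
    constructor
    · rintro ⟨h1, h2, h3⟩
      rw [memT] at h1
      rcases h1 with h1 | h1 | h1 | h1 | h1
      · exact absurd mw (h3 w (by rw [h1]; exact fwv))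
      · exact absurd mx (h3 x (by rw [h1]; exact mem_bd.1 fxw))
      · exact absurd mx' (h3 x' (by rw [h1]; exact mem_bd.1 fxw'))
      · exact Or.inl h1
      · exact Or.inr h1
    · intro h1
      have h2 : t ∈ T := by
        rcases h1 with h1 | h1
        · rw [h1]; exact mx
        · rw [h1]; exact mx'
      have h3 : ds i t = 1 := by
        rcases h1 with h1 | h1
        · rw [h1, dx]
        · rw [h1, dx']
      refine ⟨h2, ?_, ?_⟩
      · intro h4
        rw [ds_eq_zero.2 h4] at h3
        omega
      · intro s hs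
        apply hlevT
        have := fr_ds hg hs
        omega
  have hYd : Yd i (ind T) = bd i x ∪ bd i x' := by
    rw [ind_Yd]
    ext y
    rw [mem_filter, mem_lev, mem_union]
    constructor
    · rintro ⟨h1, h2, s, hs, h3⟩
      have h4 := fr_ds hg h3
      rw [ds_eq_zero.2 h1] at h4
      rcases one s hs (by omega) with h5 | h5
      · left
        rw [← h5]
        exact mem_bd.2 h3
      · right
        rw [← h5]
        exact mem_bd.2 h3
    · intro h1
      have h2 : corank y = i := by
        rcases h1 with h1 | h1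
        · exact bd_lev hg dx h1
        · exact bd_lev hg dx' h1
      refine ⟨h2, hlevT y (ds_eq_zero.2 h2), ?_⟩
      rcases h1 with h1 | h1
      · exact ⟨x, mx, mem_bd.1 h1⟩
      · exact ⟨x', mx', mem_bd.1 h1⟩
  have hYc : (bd i x ∪ bd i x').card = 4 := by
    rw [card_union_of_disjoint hd]
    omega
  have hFd := ind_Fd hncl
  have hpk := card_pkF hg hl hgood
  have hsg := sign_inF hg hl hgood
  rw [hFo, hYd, hYc, card_pair hxx] at hpk
  have hTc : T.card = 5 := by
    rw [hT, card_insert_of_notMem, card_insert_of_notMem, card_insert_of_notMem,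
      card_insert_of_notMem, card_singleton]
    · rw [mem_singleton]; exact hxx
    · simp only [mem_insert, mem_singleton, not_or]
      exact ⟨hne _ _ (by omega), hne _ _ (by omega)⟩
    · simp only [mem_insert, mem_singleton, not_or]
      exact ⟨hww, hne _ _ (by omega), hne _ _ (by omega)⟩
    · simp only [mem_insert, mem_singleton, not_or]
      exact ⟨hne _ _ (by omega), hne _ _ (by omega), hne _ _ (by omega), hne _ _ (by omega)⟩
  constructor
  · rw [m.mem_TT]
    exact ⟨by rw [sum_ind, hTc], hred, hgood, by omega⟩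
  · rw [hsg, hFd, hFo]
    rcases lt_or_gt_of_ne hvi with h1 | h1
    · -- above
      have h2 : (({x, x'} : Finset α).filter fun p => corank p < i) = {x, x'} := by
        apply Finset.filter_true_of_mem
        intro t ht
        rw [mem_insert, mem_singleton] at ht
        have h2 : t ∈ T := by
          rcases ht with ht | ht
          · rw [ht]; exact mx
          · rw [ht]; exact mx'
        exact (sideT t h2).1.2 h1
      have h3 : Yin i (ind T) = ∅ := by
        rw [ind_Yin]
        apply Finset.filter_false_of_mem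
        rintro y hy ⟨hyT, s, hs, hsy⟩
        rw [mem_lev] at hy
        have h4 := hg s y hsy
        have h5 := (sideT s hs).1.2 h1
        omega
      rw [h2, h3, card_pair hxx]
      simp
    · have h2 : (({x, x'} : Finset α).filter fun p => corank p < i) = ∅ := by
        apply Finset.filter_false_of_mem
        intro t ht
        rw [mem_insert, mem_singleton] at ht
        have h2 : t ∈ T := by
          rcases ht with ht | ht
          · rw [ht]; exact mx
          · rw [ht]; exact mx'
        have := (sideT t h2).2.2 h1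
        omega
      have h3 : Yin i (ind T) = bd i x ∪ bd i x' := by
        rw [ind_Yin]
        ext y
        rw [mem_filter, mem_lev, mem_union]
        constructor
        · rintro ⟨hy, hyT, s, hs, hsy⟩
          have h4 : fr i y s := fr_of_below hy.ge hsy
          have h5 := fr_ds hg h4
          rw [ds_eq_zero.2 hy] at h5
          rcases one s hs (by omega) with h6 | h6
          · left
            rw [← h6]
            exact mem_bd.2 h4
          · right
            rw [← h6]
            exact mem_bd.2 h4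
        · intro h4
          have h5 : corank y = i := by
            rcases h4 with h4 | h4
            · exact bd_lev hg dx h4
            · exact bd_lev hg dx' h4
          refine ⟨h5, hlevT y (ds_eq_zero.2 h5), ?_⟩
          rcases h4 with h4 | h4
          · exact ⟨x, mx, (fr_below' hg (mem_bd.1 h4) ((sideT x mx).2.2 h1)).2⟩
          · exact ⟨x', mx', (fr_below' hg (mem_bd.1 h4) ((sideT x' mx').2.2 h1)).2⟩
      rw [h2, h3, hYc]
      simp

/-- different joins, different configurations -/
lemma cfJ_inj (hg : Grad α) {v v' : α} (h : isJ i v) (h' : isJ i v') (he : cfJ i v = cfJ i v') :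
    v = v' := by
  obtain ⟨w, w', x, x', hb, hx, hx', c1, c2, hd, dv, dw, dw', dx, dx', hww, hxx, hset⟩ := h.data hg
  obtain ⟨w₁, w₁', x₁, x₁', hb₁, hx₁, hx₁', c1₁, c2₁, hd₁, dv₁, dw₁, dw₁', dx₁, dx₁', hww₁, hxx₁,
    hset₁⟩ := h'.data hg
  unfold cfJ at he
  have h1 := ind_inj he
  rw [hset, hset₁] at h1
  have h2 : v ∈ ({v', w₁, w₁', x₁, x₁'} : Finset α) := by
    rw [← h1]
    exact mem_insert_self _ _
  simp only [mem_insert, mem_singleton] at h2
  rcases h2 with h2 | h2 | h2 | h2 | h2
  · exact h2
  · rw [h2] at dv; omega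
  · rw [h2] at dv; omega
  · rw [h2] at dv; omega
  · rw [h2] at dv; omega

/-- `cfJ` has no active diamond -/
lemma cfJ_not_HasAD (hg : Grad α) {v : α} (h : isJ i v) : ¬ HasAD i (cfJ i v) := by
  obtain ⟨w, w', x, x', hb, hx, hx', c1, c2, hd, dv, dw, dw', dx, dx', hww, hxx, hset⟩ := h.data hg
  rintro ⟨y, p, p', g, hAD⟩
  have D := hAD.D
  have E := hAD.E
  have e1 := E.pg
  have dg := D.ds_g hg
  unfold cfJ at e1
  rw [hset] at e1
  have h1 : g ∈ ({v, w, w', x, x'} : Finset α) := ind_pos.1 (by omega)
  simp only [mem_insert, mem_singleton] at h1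
  have h2 : p ∈ bd i g := mem_bd.2 D.hg
  have h3 : p' ∈ bd i g := mem_bd.2 D.hg'
  rcases h1 with h1 | h1 | h1 | h1 | h1
  · rw [h1] at dg; omega
  · rw [h1, hx, mem_singleton] at h2 h3
    exact D.hne (h2.trans h3.symm)
  · rw [h1, hx', mem_singleton] at h2 h3
    exact D.hne (h2.trans h3.symm)
  · rw [h1] at dg; omega
  · rw [h1] at dg; omega

end Pool.Gauss
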