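import Pool.Agent.Work.MP_065141_co.K.V5VarD
import Pool.Agent.Work.MP_065141_co.K.Engine5

/-!
# The relation of order five and loss two: all configurations without active diamond
-/

set_option autoImplicit false
set_option linter.unusedSectionVars false
set_option linter.unusedVariables false
open scoped Classical
open Finset Polynomial

namespace Pool.Gauss

variable {α : Type} [Fintype α] [PartialOrder α] {i : ℕ}

namespace V5

/-! ### the values of the sums -/

/-- the number of single farther neighbours at distance three -/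
noncomputable def nT (i : ℕ) (q : α) : ℕ := (univ.filter fun t => ds i t = 3 ∧ bd i t = {q}).card

/-- the number of common farther neighbours without other nearer neighbours -/
noncomputable def nJ (i : ℕ) (q q' : α) : ℕ :=
  (univ.filter fun t => ds i t = 3 ∧ bd i t = {q, q'}).card

/-- the number of second events -/
noncomputable def nE (i : ℕ) (q : α) : ℕ := (vE i q).card

section val

variable {q q' : α}

lemma vD_eq (q q' : α) : vD i q q' = lev α i ∪ ((bd i q ∪ bd i q') ∪ ({q, q'} ∪
    univ.filter fun t => ds i t = 3 ∧ bd i t ⊆ {q, q'})) := by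
  ext t
  rw [mem_vD, mem_union, mem_union, mem_union, mem_union, mem_insert, mem_singleton, mem_filter,
    mem_lev]
  simp

lemma card_BBs (hD : isD i q q') : (BB i q ∪ BB i q').card = 4 := by
  rw [card_union_of_disjoint hD.2.2, hD.1.2, hD.2.1.2]

lemma card_bds (hD : isD i q q') : (bd i q ∪ bd i q').card = 2 := by
  rw [card_union_of_disjoint, (mem_U1.1 hD.1.1).2, (mem_U1.1 hD.2.1.1).2]
  rw [Finset.disjoint_left]
  intro p hp hp'
  obtain ⟨s, hs⟩ := Finset.card_eq_one.1 (mem_U1.1 hD.1.1).2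
  obtain ⟨s', hs'⟩ := Finset.card_eq_one.1 (mem_U1.1 hD.2.1.1).2
  rw [hs, mem_singleton] at hp
  rw [hs', mem_singleton] at hp'
  apply not_same_bd hD
  rw [hs, hs', ← hp, ← hp']

lemma sum_lev (hg : Grad α) (hD : isD i q q') :
    ∑ t ∈ lev α i, sV i q q' t = ((lev α i).card : ℤ) - 8 := by
  obtain ⟨d1, d2, d3⟩ := D_ds hg hD
  have h1 : ∀ t ∈ lev α i, sV i q q' t = 1 - 2 * (if t ∈ BB i q ∪ BB i q' then 1 else 0) := by
    intro t ht
    rw [mem_lev] at ht
    have h0 := ds_eq_zero.2 ht
    unfold sV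
    by_cases h : t ∈ BB i q ∨ t ∈ BB i q'
    · rw [if_pos (Or.inl h), if_pos (mem_union.2 h)]
      norm_num
    · rw [if_neg, if_neg (fun h2 => h (mem_union.1 h2))]
      · norm_num
      · rintro (h2 | h2 | h2)
        · exact h h2
        · rw [h2] at h0; omega
        · rw [h2] at h0; omega
  have h2 : ((lev α i).filter fun t => t ∈ BB i q ∪ BB i q') = BB i q ∪ BB i q' := by
    ext t
    rw [mem_filter]
    constructor
    · exact fun h => h.2
    · intro h
      refine ⟨?_, h⟩
      rw [mem_lev]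
      exact D_BB hg hD (mem_union.1 h)
  rw [Finset.sum_congr rfl h1, Finset.sum_sub_distrib, Finset.sum_const, ← Finset.mul_sum,
    Finset.sum_boole, h2, card_BBs hD]
  simp

lemma sum_vD (hg : Grad α) (hD : isD i q q') :
    ∑ t ∈ vD i q q', sV i q q' t = ((lev α i).card : ℤ) - 8 +
      ((univ.filter fun t => ds i t = 3 ∧ bd i t ⊆ {q, q'}).card : ℤ) := by
  obtain ⟨d1, d2, d3⟩ := D_ds hg hD
  have hd1 : Disjoint ({q, q'} : Finset α) (univ.filter fun t => ds i t = 3 ∧ bd i t ⊆ {q, q'}) := by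
    rw [Finset.disjoint_left]
    intro t ht ht'
    rw [mem_insert, mem_singleton] at ht
    rw [mem_filter] at ht'
    rcases ht with rfl | rfl
    · omega
    · omega
  have hd2 : Disjoint (bd i q ∪ bd i q') ({q, q'} ∪
      univ.filter fun t => ds i t = 3 ∧ bd i t ⊆ {q, q'}) := by
    rw [Finset.disjoint_left]
    intro t ht ht'
    have := d3 t (mem_union.1 ht)
    rw [mem_union, mem_insert, mem_singleton, mem_filter] at ht'
    rcases ht' with (rfl | rfl) | ht'
    · omega
    · omega
    · omega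
  have hd3 : Disjoint (lev α i) ((bd i q ∪ bd i q') ∪ ({q, q'} ∪
      univ.filter fun t => ds i t = 3 ∧ bd i t ⊆ {q, q'})) := by
    rw [Finset.disjoint_left]
    intro t ht ht'
    rw [mem_lev] at ht
    have h0 := ds_eq_zero.2 ht
    rw [mem_union, mem_union, mem_union, mem_insert, mem_singleton, mem_filter] at ht'
    rcases ht' with ht' | (rfl | rfl) | ht'
    · have := d3 t ht'
      omega
    · omega
    · omega
    · omega
  have s2 : ∑ t ∈ bd i q ∪ bd i q', sV i q q' t = 2 := by
    have : ∀ t ∈ bd i q ∪ bd i q', sV i q q' t = 1 := by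
      intro t ht
      have h1 := d3 t (mem_union.1 ht)
      unfold sV
      rw [if_neg]
      rintro (h2 | h2 | h2)
      · exact D_notBB hg hD (by omega) h2
      · rw [h2] at h1; omega
      · rw [h2] at h1; omega
    rw [Finset.sum_congr rfl this, Finset.sum_const, card_bds hD]
    norm_num
  have s3 : ∑ t ∈ ({q, q'} : Finset α), sV i q q' t = -2 := by
    have : ∀ t ∈ ({q, q'} : Finset α), sV i q q' t = -1 := by
      intro t ht
      rw [mem_insert, mem_singleton] at ht
      unfold sV
      rw [if_pos (Or.inr ht)]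
    rw [Finset.sum_congr rfl this, Finset.sum_const, card_pair (isD_ne hD)]
    norm_num
  have s4 : ∑ t ∈ univ.filter (fun t => ds i t = 3 ∧ bd i t ⊆ {q, q'}), sV i q q' t =
      ((univ.filter fun t => ds i t = 3 ∧ bd i t ⊆ {q, q'}).card : ℤ) := by
    have : ∀ t ∈ univ.filter (fun t => ds i t = 3 ∧ bd i t ⊆ {q, q'}), sV i q q' t = 1 := by
      intro t ht
      rw [mem_filter] at ht
      unfold sV
      rw [if_neg]
      rintro (h2 | h2 | h2)
      · exact D_notBB hg hD (by omega) h2
      · rw [h2] at ht; omega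
      · rw [h2] at ht; omega
    rw [Finset.sum_congr rfl this, Finset.sum_const]
    simp
  rw [vD_eq, Finset.sum_union hd3, Finset.sum_union hd2, Finset.sum_union hd1, sum_lev hg hD, s2,
    s3, s4]
  ring

lemma card_X3 (hg : Grad α) (hl : HasLower α i) (hD : isD i q q') :
    (univ.filter fun t => ds i t = 3 ∧ bd i t ⊆ {q, q'}).card = nT i q + nT i q' + nJ i q q' := by
  have hne := isD_ne hD
  have h1 : (univ.filter fun t : α => ds i t = 3 ∧ bd i t ⊆ {q, q'}) =
      ((univ.filter fun t => ds i t = 3 ∧ bd i t = {q}) ∪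
        (univ.filter fun t => ds i t = 3 ∧ bd i t = {q'})) ∪
        (univ.filter fun t => ds i t = 3 ∧ bd i t = {q, q'}) := by
    ext t
    rw [mem_union, mem_union, mem_filter, mem_filter, mem_filter, mem_filter]
    constructor
    · rintro ⟨_, h2, h3⟩
      obtain ⟨s, hs⟩ := exists_near hg hl (ds_pos (i := i) (p := t) (by omega))
      have hs' : s ∈ bd i t := mem_bd.2 hs
      by_cases ha : q ∈ bd i t <;> by_cases hb : q' ∈ bd i t
      · right
        refine ⟨mem_univ _, h2, Finset.Subset.antisymm h3 ?_⟩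
        intro r hr
        rw [mem_insert, mem_singleton] at hr
        rcases hr with rfl | rfl
        · exact ha
        · exact hb
      · left; left
        refine ⟨mem_univ _, h2, ?_⟩
        ext r
        rw [mem_singleton]
        constructor
        · intro hr
          have := h3 hr
          rw [mem_insert, mem_singleton] at this
          rcases this with h | h
          · exact h
          · rw [h] at hr; exact absurd hr hb
        · intro hr
          rw [hr]; exact ha
      · left; right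
        refine ⟨mem_univ _, h2, ?_⟩
        ext r
        rw [mem_singleton]
        constructor
        · intro hr
          have := h3 hr
          rw [mem_insert, mem_singleton] at this
          rcases this with h | h
          · rw [h] at hr; exact absurd hr ha
          · exact h
        · intro hr
          rw [hr]; exact hb
      · exfalso
        have := h3 hs'
        rw [mem_insert, mem_singleton] at this
        rcases this with h | h
        · rw [h] at hs'; exact ha hs'
        · rw [h] at hs'; exact hb hs'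
    · rintro ((⟨_, h2, h3⟩ | ⟨_, h2, h3⟩) | ⟨_, h2, h3⟩)
      · exact ⟨mem_univ _, h2, by rw [h3]; simp⟩
      · exact ⟨mem_univ _, h2, by rw [h3]; simp⟩
      · exact ⟨mem_univ _, h2, by rw [h3]⟩
  have e1 : ({q} : Finset α) ≠ {q'} := fun h => hne (Finset.singleton_injective h)
  have e2 : ({q} : Finset α) ≠ {q, q'} := by
    intro h
    have h2 := congrArg Finset.card h
    rw [card_pair hne, card_singleton] at h2
    omega
  have e3 : ({q'} : Finset α) ≠ {q, q'} := by
    intro h
    have h2 := congrArg Finset.card h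
    rw [card_pair hne, card_singleton] at h2
    omega
  rw [h1, card_union_of_disjoint, card_union_of_disjoint]
  · rfl
  · rw [Finset.disjoint_left]
    intro t h2 h3
    rw [mem_filter] at h2 h3
    exact e1 (h2.2.2.symm.trans h3.2.2)
  · rw [Finset.disjoint_left]
    intro t h2 h3
    rw [mem_union, mem_filter, mem_filter] at h2
    rw [mem_filter] at h3
    rcases h2 with h2 | h2
    · exact e2 (h2.2.2.symm.trans h3.2.2)
    · exact e3 (h2.2.2.symm.trans h3.2.2)

end val

lemma sum_PP_eq {R : Type} [AddCommMonoid R] (f : α → α → R) :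
    ∑ a ∈ PP α i, f a.1 a.2 = ∑ q ∈ evtS α i, ∑ q' ∈ evtS α i,
      if Disjoint (BB i q) (BB i q') then f q q' else 0 := by
  unfold PP
  rw [Finset.sum_filter, Finset.sum_product]

lemma sum_PM_eq {R : Type} [AddCommMonoid R] (f : α → α → R) :
    ∑ a ∈ PM α i, f a.1 a.2 = ∑ q ∈ evtS α i, ∑ q' ∈ evtS α i,
      if (BB i q ∩ BB i q').card = 1 then f q q' else 0 := by
  unfold PM
  rw [Finset.sum_filter, Finset.sum_product]

lemma sum_PC_eq {R : Type} [AddCommMonoid R] (f : α → α → R) :
    ∑ a ∈ PC α i, f a.1 a.2 = ∑ g ∈ c3S α i, ∑ q ∈ evtS α i,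
      if Disjoint (BB i g) (BB i q) then f g q else 0 := by
  unfold PC
  rw [Finset.sum_filter, Finset.sum_product]

/-- the common elements at distance three are counted twice -/
lemma sum_nJ (hg : Grad α) : ∑ a ∈ PP α i, sg i a.1 * sg i a.2 * (nJ i a.1 a.2 : ℤ) =
    2 * ((jS α i).card : ℤ) := by
  set T : Finset ((α × α) × α) := (PP α i ×ˢ univ).filter
    (fun x => ds i x.2 = 3 ∧ bd i x.2 = {x.1.1, x.1.2}) with hT
  have memT : ∀ x : (α × α) × α, x ∈ T ↔ isD i x.1.1 x.1.2 ∧ ds i x.2 = 3 ∧
      bd i x.2 = {x.1.1, x.1.2} := by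
    intro x
    rw [hT, mem_filter, mem_product, mem_PP]
    simp
  have h1 : ∑ a ∈ PP α i, sg i a.1 * sg i a.2 * (nJ i a.1 a.2 : ℤ) = ∑ x ∈ T, 1 := by
    rw [hT, Finset.sum_filter, Finset.sum_product]
    apply Finset.sum_congr rfl
    intro a ha
    rw [Finset.sum_boole]
    unfold nJ
    by_cases h : (univ.filter fun t => ds i t = 3 ∧ bd i t = {a.1, a.2}) = ∅
    · rw [h]
      simp
    · have h2 : sg i a.1 * sg i a.2 = 1 := by
        obtain ⟨t, ht⟩ := Finset.nonempty_iff_ne_empty.2 h
        rw [mem_filter] at ht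
        have f1 : fr i a.1 t := by rw [← mem_bd, ht.2.2]; simp
        have f2 : fr i a.2 t := by rw [← mem_bd, ht.2.2]; simp
        have hD := mem_PP.1 ha
        have d1 := (mem_U1.1 hD.1.1).1
        have d2 := (mem_U1.1 hD.2.1.1).1
        have c1 : corank a.1 ≠ i := ds_pos (by omega)
        have c2 : corank a.2 ≠ i := ds_pos (by omega)
        have key : ∀ s : α, corank s ≠ i → fr i s t → (corank s < i ↔ corank t < i) := by
          intro s hs hf
          constructor
          · intro h3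
            exact (fr_above hg hf h3).1
          · intro h3
            have := (fr_above' hg hf h3).1
            omega
        have k1 := key a.1 c1 f1
        have k2 := key a.2 c2 f2
        unfold sg
        by_cases h3 : corank t < i
        · rw [if_pos (k1.2 h3), if_pos (k2.2 h3)]
          norm_num
        · rw [if_neg (fun h4 => h3 (k1.1 h4)), if_neg (fun h4 => h3 (k2.1 h4))]
          norm_num
      rw [h2, one_mul]
  have h2 : ∑ x ∈ T, (1 : ℤ) = 2 * ∑ t ∈ T.image (fun x => x.2), 1 := by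
    refine sum_two T (fun x => x.2) (fun x => ((x.1.2, x.1.1), x.2)) ?_ ?_ ?_ ?_ (fun _ => 1)
    · intro x hx
      rw [memT] at hx ⊢
      refine ⟨isD_comm hx.1, hx.2.1, ?_⟩
      show bd i x.2 = {x.1.2, x.1.1}
      rw [pair_comm]
      exact hx.2.2
    · intro x hx
      rw [memT] at hx
      exact swap_ne _ _ (isD_ne hx.1)
    · intro x _
      rfl
    · intro a ha b hb hab
      rw [memT] at ha hb
      obtain ⟨⟨b1, b2⟩, b3⟩ := b
      obtain ⟨⟨a1, a2⟩, a3⟩ := a
      simp only at ha hb hab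
      subst hab
      have h3 : ({b1, b2} : Finset α) = {a1, a2} := by rw [← hb.2.2, ha.2.2]
      rcases pair_cases (isD_ne hb.1) h3 with ⟨rfl, rfl⟩ | ⟨rfl, rfl⟩
      · exact Or.inl rfl
      · exact Or.inr rfl
  have h3 : T.image (fun x => x.2) = jS α i := by
    ext t
    rw [mem_image, mem_jS]
    constructor
    · rintro ⟨x, hx, rfl⟩
      rw [memT] at hx
      obtain ⟨hD, h4, h5⟩ := hx
      have hev := isD_iff.1 hD
      refine ⟨h4, by rw [h5, card_pair (isD_ne hD)], ?_, ?_⟩
      · intro q hq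
        rw [h5, mem_insert, mem_singleton] at hq
        rcases hq with rfl | rfl
        · exact hev.1
        · exact hev.2.1
      · intro q hq q' hq' hne
        rw [h5, mem_insert, mem_singleton] at hq hq'
        rcases hq with rfl | rfl <;> rcases hq' with rfl | rfl
        · exact absurd rfl hne
        · exact hev.2.2
        · exact hev.2.2.symm
        · exact absurd rfl hne
    · rintro ⟨h4, h5, h6, h7⟩
      obtain ⟨q, q', hne, hb⟩ := Finset.card_eq_two.1 h5
      have m1 : q ∈ bd i t := by rw [hb]; simp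
      have m2 : q' ∈ bd i t := by rw [hb]; simp
      refine ⟨((q, q'), t), ?_, rfl⟩
      rw [memT]
      exact ⟨isD_iff.2 ⟨h6 q m1, h6 q' m2, h7 q m1 q' m2 hne⟩, h4, hb⟩
  rw [h1, h2, h3]
  simp

/-- **the sum of the signs of the configurations of energy five without active diamond** -/
theorem sum_E5 (hB : PB α i) {m : Mat α i} (hF : m.FullX ∅) {n : ℕ} (hn : (lev α i).card = n) :
    2 * ∑ ε ∈ E5 m n, (-1 : ℤ) ^ (inF i ε).card = (-1) ^ (low α i).card *
      (∑ a ∈ PP α i, sg i a.1 * sg i a.2 * ((n : ℤ) - 8 + nT i a.1 + nT i a.2 + nE i a.1) +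
        2 * ((jS α i).card : ℤ) + ∑ a ∈ PM α i, sg i a.1 * sg i a.2 +
        2 * ∑ a ∈ PC α i, (- sg i a.1 * sg i a.2)) := by
  have hg := hB.hg
  have hl := hB.hl
  rw [sum_E5_aux hB hF hn]
  -- the variants
  have h1 : ∑ x ∈ T1 α i, (-1 : ℤ) ^ (inF i (cfX i x)).card = (-1) ^ (low α i).card *
      ∑ a ∈ PP α i, sg i a.1 * sg i a.2 * ((n : ℤ) - 8 + (nT i a.1 + nT i a.2 + nJ i a.1 a.2)) := by
    unfold T1
    rw [Finset.sum_filter, Finset.sum_product, Finset.mul_sum]
    apply Finset.sum_congr rfl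
    intro a ha
    have hD := mem_PP.1 ha
    rw [← Finset.sum_filter]
    have h2 : (univ.filter fun t => t ∈ vD i a.1 a.2) = vD i a.1 a.2 := by
      ext t
      simp
    have h3 : ∀ t ∈ vD i a.1 a.2, (-1 : ℤ) ^ (inF i (cfX i (a, t))).card =
        (-1) ^ (low α i).card * (sg i a.1 * sg i a.2) * sV i a.1 a.2 t := by
      intro t ht
      rw [mul_assoc]
      exact (vD_data hg hl m hD ht hn).2.2
    rw [h2, Finset.sum_congr rfl h3, ← Finset.mul_sum, sum_vD hg hD, card_X3 hg hl hD, hn]
    push_cast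
    ring
  have h2 : ∑ x ∈ T2e α i, (-1 : ℤ) ^ (inF i (cfX i x)).card = (-1) ^ (low α i).card *
      ∑ a ∈ PP α i, sg i a.1 * sg i a.2 * (nE i a.1 : ℤ) := by
    unfold T2e
    rw [Finset.sum_filter, Finset.sum_product, Finset.mul_sum]
    apply Finset.sum_congr rfl
    intro a ha
    have hD := mem_PP.1 ha
    rw [← Finset.sum_filter]
    have h2 : (univ.filter fun t => t ∈ vE i a.1) = vE i a.1 := by
      ext t
      simp
    have h3 : ∀ t ∈ vE i a.1, (-1 : ℤ) ^ (inF i (cfX i (a, t))).card =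
        (-1) ^ (low α i).card * (sg i a.1 * sg i a.2) := by
      intro t ht
      exact (vE_data hg hl m hD ht hn).2.2
    rw [h2, Finset.sum_congr rfl h3, Finset.sum_const, nsmul_eq_mul]
    unfold nE
    ring
  have h3 : ∑ a ∈ PM α i, (-1 : ℤ) ^ (inF i (cfN i a)).card = (-1) ^ (low α i).card *
      ∑ a ∈ PM α i, sg i a.1 * sg i a.2 := by
    rw [Finset.mul_sum]
    apply Finset.sum_congr rfl
    intro a ha
    obtain ⟨y, hy, he⟩ := PM_y ha
    rw [he]
    exact (cfM_data hg hl m hy hn).2
  have h4 : ∑ a ∈ PC α i, (-1 : ℤ) ^ (inF i (cfC i a.1 a.2)).card = (-1) ^ (low α i).card *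
      ∑ a ∈ PC α i, (- sg i a.1 * sg i a.2) := by
    rw [Finset.mul_sum]
    apply Finset.sum_congr rfl
    intro a ha
    exact (cfC_data hg hl m (mem_PC.1 ha) hn).2
  have h5 : ∑ a ∈ PP α i, sg i a.1 * sg i a.2 *
      ((n : ℤ) - 8 + (nT i a.1 + nT i a.2 + nJ i a.1 a.2)) +
      ∑ a ∈ PP α i, sg i a.1 * sg i a.2 * (nE i a.1 : ℤ) =
      ∑ a ∈ PP α i, sg i a.1 * sg i a.2 * ((n : ℤ) - 8 + nT i a.1 + nT i a.2 + nE i a.1) +
        2 * ((jS α i).card : ℤ) := by
    rw [← sum_nJ hg, ← Finset.sum_add_distrib, ← Finset.sum_add_distrib]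
    apply Finset.sum_congr rfl
    intro a _
    ring
  rw [h1, h2, h3, h4]
  linear_combination ((-1 : ℤ) ^ (low α i).card) * h5

/-! ### energy four -/

lemma Bx_D (hg : Grad α) {q q' : α} (hD : isD i q q') : Bx i (cfD i q q') = {q, q'} := by
  obtain ⟨d1, d2, d3⟩ := D_ds hg hD
  ext r
  rw [mem_Bx, mem_insert, mem_singleton, cfD_pos]
  constructor
  · rintro ⟨h1, h2 | h2⟩
    · exact h2
    · have := d3 r h2
      omega
  · intro h
    refine ⟨?_, Or.inl h⟩
    rcases h with h | h
    · rw [h]; exact d1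
    · rw [h]; exact d2

theorem sum_E4 (hB : PB α i) {m : Mat α i} (hF : m.FullX ∅) {n : ℕ} (hn : (lev α i).card = n)
    (F : (α → ℕ) → ℤ) :
    2 * ∑ ε ∈ E4 m n, F ε = ∑ a ∈ PP α i, F (cfD i a.1 a.2) := by
  have hg := hB.hg
  have hl := hB.hl
  have h1 : E4 m n = (PP α i).image (fun a => cfD i a.1 a.2) := by
    ext ε
    rw [mem_image]
    constructor
    · intro hε
      unfold E4 at hε
      rw [mem_filter] at hε
      have hC := cf_of_TT hB hn (by omega) hε.1
      have hs := (m.mem_TT.1 hε.1).1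
      rcases cls5 hB hF hC (by omega) hε.2 with ⟨q, q', hD, h1⟩ | ⟨q, q', y, hM, h1⟩ |
        ⟨g, q, hC', h1⟩
      · rcases h1 with h1 | ⟨t, ht, h1⟩
        · exact ⟨(q, q'), mem_PP.2 hD, h1.symm⟩
        · rw [h1, var_sum hg hl m hD] at hs
          omega
      · rw [h1, cfM_sum hg hl m hM] at hs
        omega
      · rw [h1, cfC_sum hg hl m hC'] at hs
        omega
    · rintro ⟨a, ha, rfl⟩
      rw [mem_PP] at ha
      unfold E4
      rw [mem_filter]
      exact ⟨(cfD_data hg hl m ha hn).1, cfD_not_hasAD hg ha⟩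
  rw [h1]
  symm
  refine sum_two (PP α i) (fun a => cfD i a.1 a.2) (fun a => (a.2, a.1)) ?_ ?_ ?_ ?_ F
  · intro a ha
    rw [mem_PP] at ha ⊢
    exact isD_comm ha
  · intro a ha h2
    rw [mem_PP] at ha
    exact isD_ne ha (congrArg Prod.fst h2).symm
  · intro a _
    show cfD i a.2 a.1 = cfD i a.1 a.2
    exact cfD_comm _ _
  · intro a ha b hb hab
    rw [mem_PP] at ha hb
    have h2 := Bx_D hg hb
    have hab' : cfD i b.1 b.2 = cfD i a.1 a.2 := hab
    rw [hab', Bx_D hg ha] at h2
    rcases pair_cases (isD_ne hb) h2.symm with ⟨h3, h4⟩ | ⟨h3, h4⟩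
    · exact Or.inl (Prod.ext h3 h4)
    · exact Or.inr (Prod.ext h3 h4)

/-! ### smaller energies and larger losses -/

/-- the number of neighbours is larger than the loss -/
lemma Yd_lt (hB : PB α i) {m : Mat α i} {ε : α → ℕ} (h : Cf m ε) :
    (Yd i ε).card + 1 ≤ (Fo i ε).card + (NA i ε).card := by
  have hsub := Yd_sub_NA hB.hg (i := i) (ε := ε)
  have h1 := card_le_card hsub
  rcases Finset.eq_empty_or_nonempty (Fo i ε) with hF | hF
  · obtain ⟨p, hp, hp'⟩ := h.exc hB
    obtain ⟨y, b, hb, hb0, hy, hmax⟩ := peak' hB.hg ⟨p, ds_pos (by omega), hp'⟩ hF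
    have hyN : y ∈ NA i ε := mem_NA.2 ⟨b, ⟨hb, hb0⟩, hy⟩
    have hyY : y ∉ Yd i ε := by
      intro hc
      obtain ⟨p2, h2, h3, h4, h5⟩ := exists_dom hB.hg hc
      have := hmax p2 (ds_pos (by omega))
      omega
    have h2 : Yd i ε ⊆ (NA i ε).erase y := fun t ht =>
      mem_erase.2 ⟨fun hc => hyY (hc ▸ ht), hsub ht⟩
    have h3 := card_le_card h2
    rw [card_erase_of_mem hyN] at h3
    have := Finset.card_pos.2 ⟨y, hyN⟩
    omega
  · have := Finset.card_pos.2 hF
    omega

/-- an active diamond has energy at least four -/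
lemma AD_sum (hg : Grad α) {ε : α → ℕ} {y x x' g : α} (h : AD i y x x' g ε) :
    4 ≤ ∑ p, ε p := by
  have h1 := h.sum4
  have := lsum (i := i) (le_refl (∑ p, ε p)) [y] [x, x'] [g] [] (by simp) (by simp [h.D.hne])
    (by simp) (by simp) (by simp [h.D.ds_y]) (by simp [h.D.ds_x hg, h.D.ds_x' hg])
    (by simp [h.D.ds_g hg]) (by simp)
  simp only [List.map_cons, List.map_nil, List.sum_cons, List.sum_nil] at this
  omega

/-- the configurations of energy at most five have loss two and energy at least four -/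
theorem loss_two (hB : PB α i) {m : Mat α i} (hF : m.FullX ∅) {n : ℕ} (hn : (lev α i).card = n)
    {ε : α → ℕ} (h : Cf m ε) (h5 : ∑ p, ε p ≤ 5) :
    (pkF i ε).card + 2 = n ∧ 4 ≤ ∑ p, ε p := by
  have hg := hB.hg
  have hl := hB.hl
  by_cases hAD : HasAD i ε
  · obtain ⟨y, x, x', g, hA⟩ := hAD
    refine ⟨?_, AD_sum hg hA⟩
    have h1 := Cf_card_add5 (i := i) h5
    have h2 := h.card_le_two hB hF
    have hA2 := h.two_le hB
    rcases Nat.lt_or_ge (Ax i ε).card 3 with ha | ha
    · have hgB : g ∈ Bx i ε := by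
        rw [mem_Bx]
        have := hA.E.pg
        exact ⟨hA.D.ds_g hg, by omega⟩
      have h3 : ({x, x'} : Finset α) ⊆ bd i g := by
        intro t ht
        rw [mem_insert, mem_singleton] at ht
        rcases ht with rfl | rfl
        · exact mem_bd.2 hA.D.hg
        · exact mem_bd.2 hA.D.hg'
      have h4 := card_le_card h3
      rw [card_pair hA.D.hne] at h4
      have h6 := h.bdA hB hgB
      have h7 := card_le_card h6
      have h8 : bd i g = Ax i ε := Finset.eq_of_subset_of_card_le h6 (by omega)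
      have h9 : BB i g = NA i ε := by
        unfold BB NA
        rw [h8]
      have h10 := hB.P3 g (mem_U2.2 ⟨hA.D.ds_g hg, by omega⟩)
      rw [h9] at h10
      have h11 := Yd_lt hB h
      have h12 := h.ls
      have h13 := card_pkF hg hl h.good
      omega
    · rcases Nat.lt_or_ge (Ax i ε).card 4 with hb | hb
      · obtain ⟨g', q', hC, he⟩ := cls_three hB hF h h5 (by omega)
        rw [he]
        exact (m.mem_TT.1 (cfC_data hg hl m hC hn).1).2.2.2
      · omega
  · rcases cls5 hB hF h h5 hAD with ⟨q, q', hD, h1⟩ | ⟨q, q', y, hM, h1⟩ | ⟨g, q, hC', h1⟩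
    · rcases h1 with h1 | ⟨t, ht, h1⟩
      · have h2 := m.mem_TT.1 (cfD_data hg hl m hD hn).1
        rw [h1]
        exact ⟨h2.2.2.2, by omega⟩
      · have h2 : (pkF i ε).card + 2 = n := by
          rcases ht with ht | ht | ht
          · rw [h1]
            exact (m.mem_TT.1 (vD_data hg hl m hD ht hn).1).2.2.2
          · rw [h1]
            exact (m.mem_TT.1 (vE_data hg hl m hD ht hn).1).2.2.2
          · rw [h1, cfD_comm]
            exact (m.mem_TT.1 (vE_data hg hl m (isD_comm hD) ht hn).1).2.2.2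
        refine ⟨h2, ?_⟩
        rw [h1, var_sum hg hl m hD]
        omega
    · have h2 := m.mem_TT.1 (cfM_data hg hl m hM hn).1
      rw [h1]
      exact ⟨h2.2.2.2, by omega⟩
    · have h2 := m.mem_TT.1 (cfC_data hg hl m hC' hn).1
      rw [h1]
      exact ⟨h2.2.2.2, by omega⟩

/-! ### the relation -/

lemma split_AD (m : Mat α i) (r n : ℕ) (F : (α → ℕ) → ℤ) :
    ∑ ε ∈ m.TT r n, F ε = ∑ ε ∈ ((univ : Finset α).piAntidiag r).filter
        (fun ε => m.Red ε ∧ GoodE i ε ∧ (pkF i ε).card + 2 = n ∧ HasAD i ε), F ε +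
      ∑ ε ∈ (m.TT r n).filter (fun ε => ¬ HasAD i ε), F ε := by
  rw [← Finset.sum_filter_add_sum_filter_not (m.TT r n) (fun ε => HasAD i ε)]
  congr 1
  apply Finset.sum_congr _ fun _ _ => rfl
  unfold Mat.TT
  rw [Finset.filter_filter]
  apply filter_congr
  intro ε _
  tauto

/-- **the relation of order five and loss two** -/
theorem relation {h : Fin (Fintype.card α) → ℕ} (hG : IsGaussianWith α h) (hB : PB α i)
    (m : Mat α i) (hF : m.FullX ∅) {n : ℕ} (hn : (lev α i).card = n) (hn2 : 2 ≤ n) :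
    2 * ∑ ε ∈ ((univ : Finset α).piAntidiag 4).filter
        (fun ε => m.Red ε ∧ GoodE i ε ∧ (pkF i ε).card + 2 = n ∧ HasAD i ε), lcv m ε 1 +
      2 * ∑ ε ∈ ((univ : Finset α).piAntidiag 5).filter
        (fun ε => m.Red ε ∧ GoodE i ε ∧ (pkF i ε).card + 2 = n ∧ HasAD i ε),
        (-1 : ℤ) ^ (inF i ε).card +
      ∑ a ∈ PP α i, lcv m (cfD i a.1 a.2) 1 +
      (-1) ^ (low α i).card *
      (∑ a ∈ PP α i, sg i a.1 * sg i a.2 * ((n : ℤ) - 8 + nT i a.1 + nT i a.2 + nE i a.1) +
        2 * ((jS α i).card : ℤ) + ∑ a ∈ PM α i, sg i a.1 * sg i a.2 +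
        2 * ∑ a ∈ PC α i, (- sg i a.1 * sg i a.2)) = 0 := by
  have hg := hB.hg
  have hl := hB.hl
  have mkCf : ∀ ε : α → ℕ, GoodE i ε → m.Red ε → ∑ p, ε p ≤ 5 → (pkF i ε).card + 2 ≤ n →
      Cf m ε := by
    intro ε h1 h2 h3 h4
    have h5 := card_pkF hg hl h1
    exact ⟨h1, h2, by omega, by omega⟩
  have key := m.engine_lead hG hl 5 n hn 2 (by omega) hn2 (by
    intro ε h1 h2 h3 h4
    exfalso
    have := (loss_two hB hF hn (mkCf ε h1 h2 h3 (by omega)) h3).1
    omega)
  have h0 : ((univ : Finset α).piAntidiag 5).filter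
      (fun ε => m.Red ε ∧ GoodE i ε ∧ (pkF i ε).card + 2 < n) = ∅ := by
    rw [Finset.filter_eq_empty_iff]
    rintro ε hε ⟨h1, h2, h3⟩
    rw [mem_piAntidiag] at hε
    have := (loss_two hB hF hn (mkCf ε h2 h1 (by rw [hε.1]) (by omega)) (by rw [hε.1])).1
    omega
  have hsmall : ∀ s, s ≤ 3 → m.TT s n = ∅ := by
    intro s hs
    rw [Finset.eq_empty_iff_forall_notMem]
    intro ε hε
    have h1 := cf_of_TT hB hn (by omega) hε
    have h2 := (m.mem_TT.1 hε).1
    have := (loss_two hB hF hn h1 (by omega)).2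
    omega
  have hTT : ∀ s, ((univ : Finset α).piAntidiag s).filter
      (fun ε => m.Red ε ∧ GoodE i ε ∧ (pkF i ε).card + 2 = n) = m.TT s n := fun _ => rfl
  rw [h0, Finset.sum_empty, zero_add] at key
  simp only [hTT] at key
  rw [Finset.sum_range_succ, Finset.sum_range_succ, Finset.sum_range_succ, Finset.sum_range_succ,
    Finset.sum_range_succ, Finset.sum_range_one, hsmall 0 (by omega), hsmall 1 (by omega),
    hsmall 2 (by omega), hsmall 3 (by omega)] at key
  simp only [Finset.sum_empty, zero_add] at key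
  have e5 : ∑ ε ∈ m.TT 5 n, lcv m ε (5 - 5) = ∑ ε ∈ m.TT 5 n, (-1 : ℤ) ^ (inF i ε).card := by
    apply Finset.sum_congr rfl
    intro ε hε
    exact lcv_zero m (m.mem_TT.1 hε).2.2.1
  have e4 : ∑ ε ∈ m.TT 4 n, lcv m ε (5 - 4) = ∑ ε ∈ m.TT 4 n, lcv m ε 1 := rfl
  rw [e5, e4, split_AD m 4 n, split_AD m 5 n] at key
  have s4 := sum_E4 hB hF hn (fun ε => lcv m ε 1)
  have s5 := sum_E5 hB hF hn
  unfold E4 at s4
  unfold E5 at s5
  linear_combination 2 * key - s4 - s5

end V5

end Pool.Gauss
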