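import Pool.Agent.Work.MP_065141_co.K.V6Inv
import Pool.Agent.Work.MP_065141_co.K.LcvOne
import Pool.Agent.Work.MP_065141_co.K.V5Conv
import Pool.Agent.Work.MP_065141_co.K.V5VarE
import Pool.Agent.Work.MP_065141_co.K.V5Gen2

/-!
# The law V5 in the general form
-/

set_option autoImplicit false
set_option linter.unusedSectionVars false
open scoped Classical
open Finset

namespace Pool.Gauss

variable {α : Type} [Fintype α] [PartialOrder α] {i : ℕ}

/-! ### the matched pairs and the singles next to two disjoint events -/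

/-- the number of matched pairs which meet a set -/
noncomputable def T1 (m : Mat α i) (S : Finset α) : ℤ :=
  ((m.M.filter fun e => ¬ Disjoint (bd i e.1) S).card : ℤ)

/-- the number of singles which meet a set -/
noncomputable def TS (i : ℕ) (S : Finset α) : ℤ :=
  (((S1 α i).filter fun p => ¬ Disjoint (bd i p) S).card : ℤ)

/-- exactly one matched pair lies over the set of an event -/
lemma own_one (hg : Grad α) (hpar : NoPar α i) (m : Mat α i) (hF : m.FullX ∅) {q : α}
    (hq : q ∈ U1 α i) (hB : (BB i q).card = 2) :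
    (m.M.filter fun e => bd i e.1 = BB i q).card = 1 := by
  rw [mem_U1] at hq
  obtain ⟨p, hp⟩ := card_eq_one.1 hq.2
  have hBp : BB i q = bd i p := by
    unfold BB
    rw [hp, singleton_biUnion]
  have hd := ds_of_mem_bd hg hq.1 (show p ∈ bd i q by rw [hp]; simp)
  have hex : ∃ e ∈ m.M, bd i e.1 = BB i q := by
    rcases hF p hd with h | h | h | ⟨e, he, h⟩
    · simp at h
    · have h1 := card_bd_sgl hg (Or.inl h : sglZ i p ∨ sglX i p)
      rw [hBp] at hB
      omega
    · have h1 := card_bd_sgl hg (Or.inr h : sglZ i p ∨ sglX i p)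
      rw [hBp] at hB
      omega
    · obtain ⟨y, y', _, h1, h2⟩ := m.bd_matched hg he
      refine ⟨e, he, ?_⟩
      rcases h with h | h
      · rw [hBp, h]
      · rw [hBp, h, h1, h2]
  obtain ⟨e, he, h1⟩ := hex
  rw [card_eq_one]
  refine ⟨e, ?_⟩
  ext e'
  rw [mem_filter, mem_singleton]
  constructor
  · rintro ⟨he', h2⟩
    apply m.inj1 e' he' e he
    by_contra hne
    obtain ⟨y, y', hyy, h3, _⟩ := m.bd_matched hg he
    have h4 : bd i e'.1 = {y, y'} := by rw [h2, ← h1, h3]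
    have c1 := m.cz e he
    have c2 := m.cz e' he'
    have d1 := m.fst_mem hg he
    rw [mem_DZ] at d1
    have hds : ds i e.1 = 1 := by
      unfold ds
      omega
    have hy := bd_lev hg hds (show y ∈ bd i e.1 by rw [h3]; simp)
    have hy' := bd_lev hg hds (show y' ∈ bd i e.1 by rw [h3]; simp)
    exact hyy (hpar e'.1 e.1 y y' hy hy' hne (mem_bd.1 (by rw [h4]; simp))
      (mem_bd.1 (by rw [h3]; simp)) (mem_bd.1 (by rw [h4]; simp))
      (mem_bd.1 (by rw [h3]; simp)) (by omega))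
  · rintro rfl
    exact ⟨he, h1⟩

lemma pair_ind {B S S' : Finset α} (hB : B.card = 2) (hS : S.card = 2) (hS' : S'.card = 2)
    (hd : Disjoint S S') :
    -3 * (if Disjoint B (S ∪ S') then (1 : ℤ) else 0) - (if (B ∩ (S ∪ S')).card = 1 then 1 else 0) =
    -3 + 2 * (if ¬ Disjoint B S then 1 else 0) + 2 * (if ¬ Disjoint B S' then 1 else 0) -
      (if ¬ Disjoint B S ∧ ¬ Disjoint B S' then 1 else 0) + (if B = S then 1 else 0) +
      (if B = S' then 1 else 0) := by
  have h1 : (B ∩ (S ∪ S')).card = (B ∩ S).card + (B ∩ S').card := by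
    rw [inter_union_distrib_left, card_union_of_disjoint]
    exact disjoint_of_subset_left inter_subset_right (disjoint_of_subset_right inter_subset_right hd)
  have h2 : (B ∩ (S ∪ S')).card ≤ 2 := by
    rw [← hB]
    exact card_le_card inter_subset_left
  have e1 : Disjoint B (S ∪ S') ↔ (B ∩ S).card = 0 ∧ (B ∩ S').card = 0 := by
    rw [disjoint_union_right, disjoint_iff_inter_eq_empty, disjoint_iff_inter_eq_empty,
      card_eq_zero, card_eq_zero]
  have e2 : ∀ T : Finset α, ¬ Disjoint B T ↔ (B ∩ T).card ≠ 0 := by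
    intro T
    rw [disjoint_iff_inter_eq_empty, ne_eq, card_eq_zero]
  have e3 : ∀ T : Finset α, T.card = 2 → (B = T ↔ (B ∩ T).card = 2) := by
    intro T hT
    constructor
    · rintro rfl
      rw [inter_self, hB]
    · intro h
      have h3 : B ∩ T = B := eq_of_subset_of_card_le inter_subset_left (by omega)
      have h4 : B ∩ T = T := eq_of_subset_of_card_le inter_subset_right (by omega)
      rw [← h3, h4]
  have e2' : ∀ T : Finset α, Disjoint B T ↔ (B ∩ T).card = 0 := by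
    intro T
    have := e2 T
    tauto
  simp only [e1, e2' S, e2' S', e3 S hS, e3 S' hS', h1]
  rw [h1] at h2
  generalize (B ∩ S).card = a at *
  generalize (B ∩ S').card = b at *
  rcases (show a = 0 ∨ a = 1 ∨ a = 2 by omega) with rfl | rfl | rfl <;>
    rcases (show b = 0 ∨ b = 1 ∨ b = 2 by omega) with rfl | rfl | rfl <;> omega

lemma sing_ind {B S S' : Finset α} (hB : B.card = 1) (hd : Disjoint S S') :
    - (if Disjoint B (S ∪ S') then (1 : ℤ) else 0) =
    -1 + (if ¬ Disjoint B S then 1 else 0) + (if ¬ Disjoint B S' then 1 else 0) := by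
  obtain ⟨y, rfl⟩ := card_eq_one.1 hB
  simp only [disjoint_singleton_left, mem_union, not_or, not_not]
  have h1 : y ∈ S → y ∉ S' := fun h => disjoint_left.1 hd h
  by_cases h2 : y ∈ S
  · simp [h2, h1 h2]
  · by_cases h3 : y ∈ S'
    · simp [h2, h3]
    · simp [h2, h3]

/-- **the value of two disjoint events** -/
theorem count_D (hg : Grad α) (hpar : NoPar α i) (m : Mat α i) (hF : m.FullX ∅) {q q' : α}
    (hD : isD i q q') :
    -3 * ((m.M.filter fun e => Disjoint (bd i e.1) (BB i q ∪ BB i q')).card : ℤ) -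
      (m.M.filter fun e => (bd i e.1 ∩ (BB i q ∪ BB i q')).card = 1).card -
      ((S1 α i).filter fun p => Disjoint (bd i p) (BB i q ∪ BB i q')).card =
    (-3 * (m.M.card : ℤ) + 2 - (S1 α i).card) + (2 * T1 m (BB i q) + TS i (BB i q)) +
      (2 * T1 m (BB i q') + TS i (BB i q')) - Pln.T2 m (BB i q) (BB i q') := by
  obtain ⟨⟨hq, hB⟩, ⟨hq', hB'⟩, hd⟩ := hD
  have o1 := own_one hg hpar m hF hq hB
  have o2 := own_one hg hpar m hF hq' hB'
  have s1 : ∑ e ∈ m.M, (-3 * (if Disjoint (bd i e.1) (BB i q ∪ BB i q') then (1 : ℤ) else 0) -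
      (if (bd i e.1 ∩ (BB i q ∪ BB i q')).card = 1 then 1 else 0)) =
      ∑ e ∈ m.M, (-3 + 2 * (if ¬ Disjoint (bd i e.1) (BB i q) then 1 else 0) +
        2 * (if ¬ Disjoint (bd i e.1) (BB i q') then 1 else 0) -
      (if ¬ Disjoint (bd i e.1) (BB i q) ∧ ¬ Disjoint (bd i e.1) (BB i q') then 1 else 0) +
      (if bd i e.1 = BB i q then 1 else 0) + (if bd i e.1 = BB i q' then 1 else 0)) := by
    apply sum_congr rfl
    intro e he
    obtain ⟨y, y', hyy, h3, _⟩ := m.bd_matched hg he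
    exact pair_ind (by rw [h3, card_pair hyy]) hB hB' hd
  have s2 : ∑ p ∈ S1 α i, (- (if Disjoint (bd i p) (BB i q ∪ BB i q') then (1 : ℤ) else 0)) =
      ∑ p ∈ S1 α i, (-1 + (if ¬ Disjoint (bd i p) (BB i q) then 1 else 0) +
        (if ¬ Disjoint (bd i p) (BB i q') then 1 else 0)) := by
    apply sum_congr rfl
    intro p hp
    exact sing_ind (mem_S1.1 hp).2 hd
  simp only [sum_sub_distrib, sum_add_distrib, ← mul_sum, sum_neg_distrib, sum_boole, sum_const,
    nsmul_eq_mul] at s1 s2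
  unfold T1 TS Pln.T2
  rw [o1, o2] at s1
  push_cast at s1 s2 ⊢
  linarith

/-! ### the law -/

/-- the toggled configuration is opposite (energy at most five) -/
lemma AD.opp5 (hB : PB α i) {m : Mat α i} {ε : α → ℕ} (hF : m.FullX ∅) (h : Cf m ε)
    {y x x' g : α} (A : AD i y x x' g ε) (h5 : ∑ p, ε p ≤ 5) : m.Opp ε (Pool.Gauss.tog y g ε) := by
  have h1 := AD.opr hB hF h A
  have h2 := h1.sim.resolve_left (by omega)
  exact ⟨h1.red, h1.good, h1.sum, h1.pk, h2.1, h2.2, h1.opp⟩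

/-- **the law V5 before the summation over the strips** -/
theorem V5_core (hB : PB α i) (hpar : NoPar α i) {h : Fin (Fintype.card α) → ℕ}
    (hG : IsGaussianWith α h) (m : Mat α i) (hF : m.FullX ∅) (hn2 : 2 ≤ (lev α i).card) :
    ∃ (K' : ℤ) (σ σ' : α → ℤ),
    ∑ q ∈ evtS α i, ∑ q' ∈ evtS α i, (if Disjoint (BB i q) (BB i q') then
        sg i q * sg i q' * (K' + σ q + σ' q' - Pln.T2 m (BB i q) (BB i q')) else 0) +
      (∑ q ∈ evtS α i, ∑ q' ∈ evtS α i,
        (if (BB i q ∩ BB i q').card = 1 then sg i q * sg i q' else 0) +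
       2 * ((jS α i).card : ℤ) - 2 * ((dS α i).card : ℤ) +
       2 * ∑ g ∈ c3S α i, (- sg i g) * RR i g) = 0 := by
  have hg := hB.hg
  have hl := hB.hl
  obtain ⟨n, hn⟩ : ∃ n, (lev α i).card = n := ⟨_, rfl⟩
  rw [hn] at hn2
  have hcf : ∀ ε : α → ℕ, GoodE i ε → m.Red ε → ∑ p, ε p ≤ 5 → (pkF i ε).card + 2 ≤ n →
      Cf m ε := fun ε a b c d => (cf_iff hB hn).2 ⟨a, b, by omega, d⟩
  have key := V5.relation hG hB m hF hn hn2
  have c4 := sum_HasAD_four hg hl hB.deg hpar m hn (s := 4) le_rfl (fun ε => lcv m ε 1) (by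
    intro ε y x x' g a1 a2 a3 a4 a5
    exact (AD.opp5 hB hF (hcf ε a4 a3 (by omega) a2.le) a5 (by omega)).lcv_eq hg hl a3 a4 1)
  rw [c4, sum_HasAD_sign hB hpar m hn, mul_zero, zero_add] at key
  -- the value of two events
  have c8 : ∑ a ∈ V5.PP α i, lcv m (cfD i a.1 a.2) 1 =
      (-1) ^ (low α i).card * ∑ a ∈ V5.PP α i, (sg i a.1 * sg i a.2 *
          ((-3 * (m.M.card : ℤ) + 2 - (S1 α i).card) + (2 * T1 m (BB i a.1) + TS i (BB i a.1)) +
            (2 * T1 m (BB i a.2) + TS i (BB i a.2)) - Pln.T2 m (BB i a.1) (BB i a.2))) := by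
    rw [mul_sum]
    apply sum_congr rfl
    intro a ha
    unfold V5.PP at ha
    rw [mem_filter, mem_product] at ha
    obtain ⟨⟨hq, hq'⟩, hd⟩ := ha
    unfold evtS at hq hq'
    rw [mem_filter] at hq hq'
    have hD : isD i a.1 a.2 := ⟨hq, hq', hd⟩
    rw [lcv_cfD hg hl m hD, count_D hg hpar m hF hD]
    ring
  have c9 : ∑ a ∈ V5.PC α i, (- sg i a.1 * sg i a.2) = ∑ g ∈ c3S α i, (- sg i g) * RR i g := by
    rw [V5.sum_PC_eq (fun g q => - sg i g * sg i q)]
    apply sum_congr rfl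
    intro g _
    unfold RR
    rw [mul_sum]
    apply sum_congr rfl
    intro q _
    split_ifs <;> ring
  have c10 : ∑ a ∈ V5.PM α i, sg i a.1 * sg i a.2 = ∑ q ∈ evtS α i, ∑ q' ∈ evtS α i,
        (if (BB i q ∩ BB i q').card = 1 then sg i q * sg i q' else 0) :=
    V5.sum_PM_eq (fun q q' => sg i q * sg i q')
  rw [c8, c9, c10] at key
  refine ⟨((n : ℤ) - 8) + (-3 * (m.M.card : ℤ) + 2 - (S1 α i).card),
    fun q => (V5.nT i q + V5.nE i q) + (2 * T1 m (BB i q) + TS i (BB i q)),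
    fun q => V5.nT i q + (2 * T1 m (BB i q) + TS i (BB i q)), ?_⟩
  simp only
  rw [← V5.sum_PP_eq (fun q q' => sg i q * sg i q' * (((n : ℤ) - 8) +
    (-3 * (m.M.card : ℤ) + 2 - (S1 α i).card) +
    ((V5.nT i q + V5.nE i q) + (2 * T1 m (BB i q) + TS i (BB i q))) +
    (V5.nT i q' + (2 * T1 m (BB i q') + TS i (BB i q'))) - Pln.T2 m (BB i q) (BB i q')))]
  have c11 : ∑ a ∈ V5.PP α i, sg i a.1 * sg i a.2 * (((n : ℤ) - 8) +
      (-3 * (m.M.card : ℤ) + 2 - (S1 α i).card) +
      ((V5.nT i a.1 + V5.nE i a.1) + (2 * T1 m (BB i a.1) + TS i (BB i a.1))) +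
      (V5.nT i a.2 + (2 * T1 m (BB i a.2) + TS i (BB i a.2))) -
      Pln.T2 m (BB i a.1) (BB i a.2)) =
      ∑ a ∈ V5.PP α i, (sg i a.1 * sg i a.2 *
          ((-3 * (m.M.card : ℤ) + 2 - (S1 α i).card) + (2 * T1 m (BB i a.1) + TS i (BB i a.1)) +
            (2 * T1 m (BB i a.2) + TS i (BB i a.2)) - Pln.T2 m (BB i a.1) (BB i a.2))) +
      ∑ a ∈ V5.PP α i, sg i a.1 * sg i a.2 *
        ((n : ℤ) - 8 + V5.nT i a.1 + V5.nT i a.2 + V5.nE i a.1) := by
    rw [← sum_add_distrib]
    apply sum_congr rfl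
    intro a _
    ring
  rw [c11]
  have hne : ((-1 : ℤ) ^ (low α i).card) ≠ 0 := pow_ne_zero _ (by norm_num)
  apply mul_left_cancel₀ hne
  rw [mul_zero]
  linear_combination key

/-- the law in a level with at most one element -/
lemma V5LR_small (hg : Grad α) (hn : (lev α i).card < 2) : V5LR α i := by
  have h1 : evtS α i = ∅ := by
    rw [eq_empty_iff_forall_notMem]
    intro q hq
    unfold evtS at hq
    rw [mem_filter, mem_U1] at hq
    have h2 := card_le_card (BB_subset hg hq.1.1)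
    omega
  have h2 : c3S α i = ∅ := by
    rw [eq_empty_iff_forall_notMem]
    intro q hq
    unfold c3S at hq
    rw [mem_filter, mem_U2] at hq
    have h2 := card_le_card (BB_subset hg hq.1.1)
    omega
  have h3 : jS α i = ∅ := by
    rw [eq_empty_iff_forall_notMem]
    intro v hv
    unfold jS at hv
    rw [mem_filter] at hv
    obtain ⟨_, _, h4, h5, _⟩ := hv
    obtain ⟨q, hq⟩ := card_pos.1 (show 0 < (bd i v).card by omega)
    have h6 := h5 q hq
    rw [h1] at h6
    simp at h6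
  have h4 : dS α i = ∅ := by
    rw [eq_empty_iff_forall_notMem]
    intro T hT
    rw [mem_dS] at hT
    obtain ⟨h5, h6, _⟩ := hT
    obtain ⟨q, hq⟩ := card_pos.1 (show 0 < T.card by omega)
    have h7 := h5 q hq
    rw [h2] at h7
    simp at h7
  unfold V5LR
  rw [h1, h2, h3, h4]
  simp

/-- **the law V5** -/
theorem Pln.V5LR_of {lo hi : α → ℕ → ℕ} {f : α → ℕ → ℕ → α} (h : Pln lo hi i f) (C : CtxK α)
    (hiH : i ≤ HT α) (hP : ∀ j < i, Perf α j) {b : ℕ} (hb : b + 1 ≤ i) : V5LR α b := by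
  rcases Nat.lt_or_ge (lev α b).card 2 with h2 | h2
  · exact V5LR_small C.grd h2
  · obtain ⟨hh, hG⟩ := C.gauss
    obtain ⟨m, hF⟩ := exists_full C hiH hP hb
    obtain ⟨K', σ, σ', key⟩ := V5_core (h.pb C hiH hP hb) (h.noPar C hP hb) hG m hF h2
    rw [h.total_zero C hiH hP hb m K' σ σ', zero_add] at key
    exact key

/-- **the consequence of the law V5**, if there is no object J below -/
theorem Pln.V5_zero_of {lo hi : α → ℕ → ℕ} {f : α → ℕ → ℕ → α} (h : Pln lo hi i f) (C : CtxK α)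
    (hiH : i ≤ HT α) (hP : ∀ j < i, Perf α j) {b : ℕ} (hb : b + 1 ≤ i) (hJ : JEv α b = ∅) :
    (∀ a, corank a = 0 → H0 lo hi f b a) ∧ DEv α b = ∅ :=
  h.V5_zero' C hiH hP hb (h.V5LR_of C hiH hP hb) hJ

end Pool.Gauss
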