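import Pool.Agent.Work.MP_065141_co.K.V5Sum

/-!
# The values `HH` of a strip whose form vanishes

Without any hypothesis on the events over interior pairs: in a strip with at least four elements
all values are zero, or the only nonzero values are `-1` at an end and `1` next to it, and then
there are no events over the other pairs.
-/

set_option autoImplicit false
set_option linter.unusedSectionVars false
open scoped Classical
open Finset

namespace Pool.Gauss

variable {α : Type} [Fintype α] [PartialOrder α]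

lemma frm_pat_left {H : ℕ → ℤ} {l u : ℕ} (hlu : l + 3 ≤ u)
    (hint : ∀ c, l < c → c + 1 < u → 0 ≤ H c) (hl : -1 ≤ H l) (hr : 0 ≤ H (u - 1))
    (h0 : frm H l u = 0) : (∀ c, l ≤ c → c < u → H c = 0) ∨
      (H l = -1 ∧ H (l + 1) = 1 ∧ ∀ c, l + 2 ≤ c → c < u → H c = 0) := by
  have h1 := frm_adj (by omega : l ≤ u) h0
  have hnn : ∀ c, l < c → c < u → 0 ≤ H c := by
    intro c h2 h3
    rcases Nat.lt_or_ge (c + 1) u with h4 | h4
    · exact hint c h2 h4
    · have : c = u - 1 := by omega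
      rw [this]
      exact hr
  rw [sum_eq_sum_Ico_succ_bot (by omega : l < u - 1), sum_eq_sum_Ico_succ_bot (by omega : l < u),
    sum_eq_sum_Ico_succ_bot (by omega : l + 1 < u)] at h1
  have h2 : 0 ≤ ∑ c ∈ Ico (l + 1) (u - 1), H c * H (c + 1) := by
    apply sum_nonneg
    intro c hc
    rw [mem_Ico] at hc
    exact mul_nonneg (hnn c (by omega) (by omega)) (hnn (c + 1) (by omega) (by omega))
  have h3 : 0 ≤ ∑ c ∈ Ico (l + 1 + 1) u, H c ^ 2 := sum_nonneg fun c _ => sq_nonneg _
  have h4 : (H l + H (l + 1)) ^ 2 = 0 := by nlinarith [sq_nonneg (H l + H (l + 1))]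
  have h5 : ∑ c ∈ Ico (l + 1 + 1) u, H c ^ 2 = 0 := by nlinarith [sq_nonneg (H l + H (l + 1))]
  have h6 := pow_eq_zero_iff (two_ne_zero) |>.1 h4
  rw [sum_eq_zero_iff_of_nonneg (fun c _ => sq_nonneg _)] at h5
  have h7 : ∀ c, l + 2 ≤ c → c < u → H c = 0 := fun c h8 h9 =>
    pow_eq_zero_iff (two_ne_zero) |>.1 (h5 c (mem_Ico.2 ⟨by omega, h9⟩))
  have h8 := hnn (l + 1) (by omega) (by omega)
  rcases (show H l = 0 ∨ H l = -1 by omega) with h9 | h9
  · left
    intro c h10 h11
    rcases (show c = l ∨ c = l + 1 ∨ l + 2 ≤ c by omega) with h12 | h12 | h12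
    · rw [h12, h9]
    · rw [h12]
      omega
    · exact h7 c h12 h11
  · exact Or.inr ⟨h9, by omega, h7⟩

lemma frm_pat_right {H : ℕ → ℤ} {l u : ℕ} (hlu : l + 3 ≤ u)
    (hint : ∀ c, l < c → c + 1 < u → 0 ≤ H c) (hl : 0 ≤ H l) (hr : -1 ≤ H (u - 1))
    (h0 : frm H l u = 0) : (∀ c, l ≤ c → c < u → H c = 0) ∨
      (H (u - 1) = -1 ∧ H (u - 2) = 1 ∧ ∀ c, l ≤ c → c + 2 < u → H c = 0) := by
  have h1 := frm_adj (by omega : l ≤ u) h0
  have hnn : ∀ c, l ≤ c → c + 1 < u → 0 ≤ H c := by
    intro c h2 h3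
    rcases Nat.eq_or_lt_of_le h2 with h4 | h4
    · rw [← h4]
      exact hl
    · exact hint c h4 h3
  obtain ⟨v, rfl⟩ : ∃ v, u = v + 2 := ⟨u - 2, by omega⟩
  have e1 : v + 2 - 1 = v + 1 := by omega
  have e2 : v + 2 - 2 = v := by omega
  rw [e1] at h1 hr ⊢
  rw [e2]
  rw [sum_Ico_succ_top (by omega : l ≤ v), show v + 2 = v + 1 + 1 by ring,
    sum_Ico_succ_top (by omega : l ≤ v + 1), sum_Ico_succ_top (by omega : l ≤ v)] at h1
  have h2 : 0 ≤ ∑ c ∈ Ico l v, H c * H (c + 1) := by
    apply sum_nonneg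
    intro c hc
    rw [mem_Ico] at hc
    exact mul_nonneg (hnn c (by omega) (by omega)) (hnn (c + 1) (by omega) (by omega))
  have h3 : 0 ≤ ∑ c ∈ Ico l v, H c ^ 2 := sum_nonneg fun c _ => sq_nonneg _
  have h4 : (H v + H (v + 1)) ^ 2 = 0 := by nlinarith [sq_nonneg (H v + H (v + 1))]
  have h5 : ∑ c ∈ Ico l v, H c ^ 2 = 0 := by nlinarith [sq_nonneg (H v + H (v + 1))]
  have h6 := pow_eq_zero_iff (two_ne_zero) |>.1 h4
  rw [sum_eq_zero_iff_of_nonneg (fun c _ => sq_nonneg _)] at h5
  have h7 : ∀ c, l ≤ c → c < v → H c = 0 := fun c h8 h9 =>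
    pow_eq_zero_iff (two_ne_zero) |>.1 (h5 c (mem_Ico.2 ⟨h8, h9⟩))
  have h8 := hnn v (by omega) (by omega)
  rcases (show H (v + 1) = 0 ∨ H (v + 1) = -1 by omega) with h9 | h9
  · left
    intro c h10 h11
    rcases (show c = v + 1 ∨ c = v ∨ c < v by omega) with h12 | h12 | h12
    · rw [h12, h9]
    · rw [h12]
      omega
    · exact h7 c h10 h12
  · exact Or.inr ⟨h9, by omega, fun c h10 h11 => h7 c h10 (by omega)⟩

namespace Pln

variable {lo hi : α → ℕ → ℕ} {i : ℕ} {f : α → ℕ → ℕ → α}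

/-- the only nonzero values are `-1` at the left end and `1` next to it; no other events -/
structure SwL (lo hi : α → ℕ → ℕ) (f : α → ℕ → ℕ → α) (b : ℕ) (a : α) : Prop where
  w : lo a b + 3 ≤ hi a b
  m : HH f b a (lo a b) = -1
  p : HH f b a (lo a b + 1) = 1
  z : ∀ c, lo a b + 2 ≤ c → c + 1 ≤ hi a b → HH f b a c = 0 ∧ nP f b a c = 0 ∧ nQ f b a c = 0

/-- the mirror image -/
structure SwR (lo hi : α → ℕ → ℕ) (f : α → ℕ → ℕ → α) (b : ℕ) (a : α) : Prop where
  w : lo a b + 3 ≤ hi a b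
  m : HH f b a (hi a b - 1) = -1
  p : HH f b a (hi a b - 2) = 1
  z : ∀ c, lo a b ≤ c → c + 2 < hi a b → HH f b a c = 0 ∧ nP f b a c = 0 ∧ nQ f b a c = 0

/-- **the four kinds of strips** -/
theorem strip_pat (h : Pln lo hi i f) (C : CtxK α) (hiH : i ≤ HT α) (hP : ∀ j < i, Perf α j)
    {b : ℕ} (hb : b + 1 ≤ i) {a : α} (ha : corank a = 0) :
    (∀ c, lo a b ≤ c → c + 1 ≤ hi a b → HH f b a c = 0) ∨
      (hi a b = lo a b + 2 ∧ HH f b a (lo a b) + HH f b a (lo a b + 1) = 0) ∨
        SwL lo hi f b a ∨ SwR lo hi f b a := by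
  obtain ⟨hN, hf, _⟩ := h.frm_zero C hiH hP b hb
  have h1 := hf a ha
  have h2 := h.le a b ha (by omega)
  have hz : ∀ c, HH f b a c = 0 → nQ f b a c = 0 → nP f b a c = 0 := by
    intro c h3 h4
    unfold HH at h3
    rw [h4] at h3
    push_cast at h3
    omega
  rcases Nat.lt_or_ge (hi a b) (lo a b + 3) with h3 | h3
  · rcases (show hi a b = lo a b ∨ hi a b = lo a b + 1 ∨ hi a b = lo a b + 2 by omega) with
      h4 | h4 | h4
    · left
      intro c h5 h6
      omega
    · left
      intro c h5 h6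
      have : c = lo a b := by omega
      rw [h4, frm_one] at h1
      rw [this]
      exact pow_eq_zero_iff (two_ne_zero) |>.1 h1
    · right; left
      rw [h4, frm_two] at h1
      exact ⟨h4, pow_eq_zero_iff (two_ne_zero) |>.1 h1⟩
  · have hint : ∀ c, lo a b < c → c + 1 < hi a b → 0 ≤ HH f b a c := fun c h4 h5 =>
      h.HH_int_nonneg C ha (by omega) h4 h5
    have hge : ∀ c, lo a b ≤ c → c + 1 ≤ hi a b → -1 ≤ HH f b a c := by
      intro c h4 h5
      have := h.nQ_le_one C ha (by omega) (by omega) h4 h5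
      unfold HH
      have : (nQ f b a c : ℤ) ≤ 1 := by exact_mod_cast this
      have : (0 : ℤ) ≤ nP f b a c := by positivity
      omega
    rcases hN a ha h3 with h4 | h4
    · -- no Q at the left end
      have hl : 0 ≤ HH f b a (lo a b) := by
        unfold HH
        rw [h4]
        simp
      rcases frm_pat_right h3 hint hl (hge _ (by omega) (by omega)) h1 with h5 | ⟨h5, h6, h7⟩
      · left
        intro c h6 h7
        exact h5 c h6 (by omega)
      · right; right; right
        refine ⟨h3, h5, h6, ?_⟩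
        intro c h8 h9
        have h10 : nQ f b a c = 0 := by
          rcases Nat.eq_or_lt_of_le h8 with h11 | h11
          · rw [← h11]
            exact h4
          · exact h.nQ_int C ha (by omega) h11 (by omega)
        exact ⟨h7 c h8 h9, hz c (h7 c h8 h9) h10, h10⟩
    · have hr : 0 ≤ HH f b a (hi a b - 1) := by
        unfold HH
        rw [h4]
        simp
      rcases frm_pat_left h3 hint (hge _ (by omega) (by omega)) hr h1 with h5 | ⟨h5, h6, h7⟩
      · left
        intro c h6 h7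
        exact h5 c h6 (by omega)
      · right; right; left
        refine ⟨h3, h5, h6, ?_⟩
        intro c h8 h9
        have h10 : nQ f b a c = 0 := by
          rcases Nat.lt_or_ge (c + 1) (hi a b) with h11 | h11
          · exact h.nQ_int C ha (by omega) (by omega) h11
          · have : c = hi a b - 1 := by omega
            rw [this]
            exact h4
        exact ⟨h7 c h8 (by omega), hz c (h7 c h8 (by omega)) h10, h10⟩

end Pln

end Pool.Gauss
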