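import Pool.Agent.Work.MP_065141_co.K.V6Asm
import Pool.Agent.Work.MP_065141_co.K.StarOf

/-!
# The sums over disjoint events in the law V5 vanish

Input (`Pln.Str5`): in every strip the sum of `HH` is zero, and `HH = 0` in the strips with at
least four elements.
-/

set_option autoImplicit false
set_option linter.unusedSectionVars false
open scoped Classical
open Finset

namespace Pool.Gauss

variable {α : Type} [Fintype α] [PartialOrder α]

/-- interior values zero and form zero: all values are zero -/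
lemma frm_wide {H : ℕ → ℤ} {l u : ℕ} (hlu : l + 3 ≤ u) (hint : ∀ c, l < c → c + 1 < u → H c = 0)
    (h0 : frm H l u = 0) : ∀ c, l ≤ c → c < u → H c = 0 := by
  obtain ⟨n, rfl⟩ : ∃ n, u = l + n := ⟨u - l, by omega⟩
  have h1 := frm_eq H l n
  rw [h0] at h1
  have h2 : ∑ c ∈ Ico l (l + n - 1), H c * H (c + 1) = 0 := by
    apply sum_eq_zero
    intro c hc
    rw [mem_Ico] at hc
    rcases Nat.eq_or_lt_of_le hc.1 with h3 | h3
    · rw [hint (c + 1) (by omega) (by omega), mul_zero]
    · rw [hint c h3 (by omega), zero_mul]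
  have h3 : ∑ c ∈ Ico l (l + n), H c ^ 2 = 0 := by linarith
  rw [sum_eq_zero_iff_of_nonneg (fun c _ => sq_nonneg _)] at h3
  intro c h4 h5
  exact pow_eq_zero_iff (two_ne_zero) |>.1 (h3 c (mem_Ico.2 ⟨h4, h5⟩))

namespace Pln

variable {lo hi : α → ℕ → ℕ} {i : ℕ} {f : α → ℕ → ℕ → α}

/-- the strips in the law V5 -/
structure Str5 (lo hi : α → ℕ → ℕ) (f : α → ℕ → ℕ → α) (b : ℕ) : Prop where
  sum : ∀ a, corank a = 0 → ∑ c ∈ Ico (lo a b) (hi a b), HH f b a c = 0
  wide : ∀ a, corank a = 0 → lo a b + 3 ≤ hi a b → ∀ c, lo a b ≤ c → c + 1 ≤ hi a b →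
    HH f b a c = 0

/-- the strips, if there are no events below over interior pairs of the wide strips -/
theorem str5_of (h : Pln lo hi i f) (C : CtxK α) (hiH : i ≤ HT α) (hP : ∀ j < i, Perf α j)
    {b : ℕ} (hb : b + 1 ≤ i) (hint : ∀ a, corank a = 0 → lo a b + 3 ≤ hi a b →
      ∀ c, lo a b < c → c + 1 < hi a b → nP f b a c = 0) : Str5 lo hi f b := by
  have hf := fun a ha => (h.frm_zero C hiH hP b hb).2.1 a ha
  have hw : ∀ a, corank a = 0 → lo a b + 3 ≤ hi a b → ∀ c, lo a b ≤ c → c + 1 ≤ hi a b →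
      HH f b a c = 0 := by
    intro a ha h3 c h4 h5
    refine frm_wide h3 ?_ (hf a ha) c h4 (by omega)
    intro c' h6 h7
    unfold HH
    rw [hint a ha h3 c' h6 h7, h.nQ_int C ha (by omega) h6 h7]
    simp
  refine ⟨?_, hw⟩
  intro a ha
  have h1 := hf a ha
  have h2 := h.le a b ha (by omega)
  rcases Nat.lt_or_ge (hi a b) (lo a b + 3) with h3 | h3
  · rcases (show hi a b = lo a b ∨ hi a b = lo a b + 1 ∨ hi a b = lo a b + 2 by omega) with
      h4 | h4 | h4
    · rw [h4]
      simp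
    · rw [h4] at h1 ⊢
      rw [frm_one] at h1
      rw [show Ico (lo a b) (lo a b + 1) = {lo a b} by
        ext x
        rw [mem_Ico, mem_singleton]
        omega, sum_singleton]
      exact pow_eq_zero_iff (two_ne_zero) |>.1 h1
    · rw [h4] at h1 ⊢
      rw [frm_two] at h1
      have h5 := pow_eq_zero_iff (two_ne_zero) |>.1 h1
      rw [sum_Ico_succ_top (by omega), show Ico (lo a b) (lo a b + 1) = {lo a b} by
        ext x
        rw [mem_Ico, mem_singleton]
        omega, sum_singleton]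
      exact h5
  · apply sum_eq_zero
    intro c hc
    rw [mem_Ico] at hc
    exact hw a ha h3 c hc.1 (by omega)

/-- the strips, two rows below the row in coordinates -/
theorem str5 (h : Pln lo hi i f) (C : CtxK α) (hiH : i ≤ HT α) (hP : ∀ j < i, Perf α j)
    {b : ℕ} (hb : b + 2 ≤ i) : Str5 lo hi f b := by
  refine h.str5_of C hiH hP (by omega) ?_
  intro a ha h3 c h4 h5
  rw [h.nP_eq ha hb (by omega) (by omega), if_neg (by omega), if_neg (by omega)]

/-- the pairs which do not meet a set inside one strip: the sum of `HH` is zero -/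
theorem Str5.far {b : ℕ} (hs : Str5 lo hi f b) (U : Finset α) (a0 : α)
    (h1 : ∀ p ∈ prs lo hi b, p.1 ≠ a0 → Disjoint U (pr2 f b p.1 p.2))
    (h2 : hi a0 b ≤ lo a0 b + 2 → ∀ p ∈ prs lo hi b, p.1 = a0 → ¬ Disjoint U (pr2 f b p.1 p.2)) :
    ∑ p ∈ prs lo hi b, HH f b p.1 p.2 * (if Disjoint U (pr2 f b p.1 p.2) then 1 else 0) = 0 := by
  rw [sum_prs]
  apply sum_eq_zero
  intro a ha
  rw [mem_lev] at ha
  by_cases h3 : a = a0
  · subst h3
    rcases Nat.lt_or_ge (hi a b) (lo a b + 3) with h4 | h4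
    · apply sum_eq_zero
      intro c hc
      rw [mem_Ico] at hc
      have hp : (a, c) ∈ prs lo hi b := mem_prs.2 ⟨ha, hc.1, by simp only; omega⟩
      have h5 := h2 (by omega) (a, c) hp rfl
      simp only at h5 ⊢
      rw [if_neg h5, mul_zero]
    · apply sum_eq_zero
      intro c hc
      rw [mem_Ico] at hc
      simp only
      rw [hs.wide a ha h4 c hc.1 (by omega), zero_mul]
  · rw [← hs.sum a ha]
    apply sum_congr rfl
    intro c hc
    rw [mem_Ico] at hc
    have hp : (a, c) ∈ prs lo hi b := mem_prs.2 ⟨ha, hc.1, by simp only; omega⟩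
    have h5 := h1 (a, c) hp h3
    simp only at h5 ⊢
    rw [if_pos h5, mul_one]

/-- the events which do not meet a given pair -/
theorem Str5.far_pr2 (h : Pln lo hi i f) {b : ℕ} (hb : b ≤ i) (hs : Str5 lo hi f b)
    {p : α × ℕ} (hp : p ∈ prs lo hi b) :
    ∑ q ∈ prs lo hi b, HH f b q.1 q.2 *
      (if Disjoint (pr2 f b p.1 p.2) (pr2 f b q.1 q.2) then 1 else 0) = 0 := by
  refine hs.far _ p.1 ?_ ?_
  · intro q hq hne
    by_contra h1
    exact hne ((h.pr2_disj hb hp hq).1 h1).1.symm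
  · intro h1 q hq he
    rw [h.pr2_disj hb hp hq]
    have h3 := mem_prs.1 hp
    have h4 := mem_prs.1 hq
    rw [he] at h4
    exact ⟨he.symm, by omega⟩

/-- the events which do not meet a given triple -/
theorem Str5.far_tr3 (h : Pln lo hi i f) {b : ℕ} (hb : b ≤ i) (hs : Str5 lo hi f b)
    {a : α} {c : ℕ} (ha : corank a = 0) (h1 : lo a b ≤ c) (h2 : c + 2 ≤ hi a b) :
    ∑ q ∈ prs lo hi b, HH f b q.1 q.2 *
      (if Disjoint (tr3 f b a c) (pr2 f b q.1 q.2) then 1 else 0) = 0 := by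
  refine hs.far _ a ?_ ?_
  · intro q hq hne
    rw [Finset.disjoint_left]
    intro y hy hy'
    rw [mem_tr3] at hy
    rw [mem_pr2] at hy'
    have h4 := mem_prs.1 hq
    apply hne
    rcases hy with rfl | rfl | rfl <;> rcases hy' with hy' | hy' <;>
      [exact (h.inj _ _ b _ _ ha h4.1 hb (by omega) (by omega) (by omega) (by omega) hy').1.symm;
       exact (h.inj _ _ b _ _ ha h4.1 hb (by omega) (by omega) (by omega) (by omega) hy').1.symm;
       exact (h.inj _ _ b _ _ ha h4.1 hb (by omega) (by omega) (by omega) (by omega) hy').1.symm;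
       exact (h.inj _ _ b _ _ ha h4.1 hb (by omega) (by omega) (by omega) (by omega) hy').1.symm;
       exact (h.inj _ _ b _ _ ha h4.1 hb (by omega) (by omega) (by omega) (by omega) hy').1.symm;
       exact (h.inj _ _ b _ _ ha h4.1 hb (by omega) (by omega) (by omega) (by omega) hy').1.symm]
  · intro h3 q hq he
    have h4 := mem_prs.1 hq
    rw [he] at h4
    rw [he, Finset.not_disjoint_iff]
    refine ⟨f a b q.2, ?_, mem_pr2.2 (Or.inl rfl)⟩
    rw [mem_tr3]
    rcases (show q.2 = c ∨ q.2 = c + 1 by omega) with h5 | h5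
    · exact Or.inl (by rw [h5])
    · exact Or.inr (Or.inl (by rw [h5]))

/-- **the events which do not meet a given event** -/
theorem Str5.evt (h : Pln lo hi i f) (C : CtxK α) {b : ℕ} (hb : b + 1 ≤ i) (hs : Str5 lo hi f b)
    {q : α} (hq : q ∈ evtS α b) :
    ∑ q' ∈ evtS α b, (if Disjoint (BB b q) (BB b q') then sg b q' else 0) = 0 := by
  obtain ⟨p, hp, hpq⟩ := h.evtS_foot C hb hq
  have h1 := h.sum_evtS C hb (fun T => if Disjoint (BB b q) T then 1 else 0)
  have h2 : ∑ q' ∈ evtS α b, (if Disjoint (BB b q) (BB b q') then sg b q' else 0) =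
      ∑ q' ∈ evtS α b, sg b q' * (if Disjoint (BB b q) (BB b q') then 1 else 0) := by
    apply sum_congr rfl
    intro q' _
    split_ifs <;> ring
  rw [h2, h1, hpq]
  exact hs.far_pr2 h (by omega) hp

/-- **the events which do not meet a given triple** -/
theorem Str5.tri (h : Pln lo hi i f) (C : CtxK α) (hiH : i ≤ HT α) (hP : ∀ j < i, Perf α j)
    {b : ℕ} (hb : b + 1 ≤ i) (hs : Str5 lo hi f b) {g : α} (hg : g ∈ c3S α b) :
    ∑ q' ∈ evtS α b, (if Disjoint (BB b g) (BB b q') then sg b q' else 0) = 0 := by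
  obtain ⟨a, c, ha, h3, h4, h5⟩ : ∃ a c, corank a = 0 ∧ lo a b ≤ c ∧ c + 2 ≤ hi a b ∧
      BB b g = tr3 f b a c := by
    rw [C.c3S_eq, mem_union] at hg
    rcases hg with hg | hg
    · obtain ⟨a, c, ha, h3, h4, h5, _⟩ := h.NEv_foot C hiH hP hb hg
      exact ⟨a, c, ha, h3, h4, by rw [C.relp_BB_below (mem_NEv.1 hg).1, h5]⟩
    · have hc := (mem_VEv.1 hg).1
      obtain ⟨j, rfl⟩ : ∃ j, b = j + 2 := ⟨b - 2, by omega⟩
      obtain ⟨a, c, ha, h3, h4, rfl⟩ := h.VEv_foot C (by omega) hg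
      exact ⟨a, c, ha, h3, h4, by
        rw [C.relp_BB_above hc, (h.VEv_exists C (by omega) ha h3 h4).2]⟩
  have h1 := h.sum_evtS C hb (fun T => if Disjoint (BB b g) T then 1 else 0)
  have h2 : ∑ q' ∈ evtS α b, (if Disjoint (BB b g) (BB b q') then sg b q' else 0) =
      ∑ q' ∈ evtS α b, sg b q' * (if Disjoint (BB b g) (BB b q') then 1 else 0) := by
    apply sum_congr rfl
    intro q' _
    split_ifs <;> ring
  rw [h2, h1, h5]
  exact hs.far_tr3 h (by omega) ha h3 h4

/-- the number of matched pairs which meet two sets -/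
noncomputable def T2 {b : ℕ} (m : Mat α b) (S S' : Finset α) : ℤ :=
  ((m.M.filter fun e => ¬ Disjoint (bd b e.1) S ∧ ¬ Disjoint (bd b e.1) S').card : ℤ)

/-- the set under a matched pair lies in one strip -/
lemma mat_foot (h : Pln lo hi i f) (C : CtxK α) {b : ℕ} (hb : b ≤ i) (m : Mat α b)
    {e : α × α} (he : e ∈ m.M) : ∃ p ∈ prs lo hi b, bd b e.1 = pr2 f b p.1 p.2 := by
  have h1 := m.fst_mem C.grd he
  rw [mem_DZ] at h1
  have h2 : 0 < mD b (bd b e.1) := by
    rw [← C.card_DZ_eq h1.2]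
    exact card_pos.2 ⟨e.1, mem_filter.2 ⟨mem_DZ.2 h1, rfl⟩⟩
  obtain ⟨a, c, ha, h3, h4, h5⟩ := (h.mono hb).mD_pos C h1.2 h2
  exact ⟨(a, c), mem_prs.2 ⟨ha, h3, h4⟩, h5⟩

/-- **the matched pairs which meet two disjoint events** do not contribute -/
theorem Str5.two (h : Pln lo hi i f) (C : CtxK α) {b : ℕ} (hb : b + 1 ≤ i) (hs : Str5 lo hi f b)
    (m : Mat α b) :
    ∑ q ∈ evtS α b, ∑ q' ∈ evtS α b, (if Disjoint (BB b q) (BB b q') then
      sg b q * sg b q' * T2 m (BB b q) (BB b q') else 0) = 0 := by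
  have e1 : ∀ q ∈ evtS α b, ∑ q' ∈ evtS α b, (if Disjoint (BB b q) (BB b q') then
      sg b q * sg b q' * T2 m (BB b q) (BB b q') else 0) =
      sg b q * ∑ p ∈ prs lo hi b, HH f b p.1 p.2 *
        (if Disjoint (BB b q) (pr2 f b p.1 p.2) then T2 m (BB b q) (pr2 f b p.1 p.2) else 0) := by
    intro q _
    rw [← h.sum_evtS C hb (fun T => if Disjoint (BB b q) T then T2 m (BB b q) T else 0), mul_sum]
    apply sum_congr rfl
    intro q' _
    split_ifs <;> ring
  rw [sum_congr rfl e1, h.sum_evtS C hb (fun S => ∑ p ∈ prs lo hi b, HH f b p.1 p.2 *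
    (if Disjoint S (pr2 f b p.1 p.2) then T2 m S (pr2 f b p.1 p.2) else 0))]
  apply sum_eq_zero
  intro p hp
  rw [mul_sum]
  apply sum_eq_zero
  intro p' hp'
  by_cases h1 : Disjoint (pr2 f b p.1 p.2) (pr2 f b p'.1 p'.2)
  · rw [if_pos h1]
    by_cases h2 : p.1 = p'.1
    · have h3 := mem_prs.1 hp
      have h4 := mem_prs.1 hp'
      rw [← h2] at h4
      have h5 : ¬ (p.2 = p'.2 ∨ p.2 = p'.2 + 1 ∨ p'.2 = p.2 + 1) := by
        intro h5
        exact ((h.pr2_disj (by omega : b ≤ i) hp hp').2 ⟨h2, h5⟩) h1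
      rw [hs.wide p.1 h3.1 (by omega) p.2 h3.2.1 h3.2.2, zero_mul]
    · have h3 : T2 m (pr2 f b p.1 p.2) (pr2 f b p'.1 p'.2) = 0 := by
        unfold T2
        rw [filter_eq_empty_iff.2, card_empty]
        · rfl
        · intro e he h4
          obtain ⟨p'', hp'', h5⟩ := h.mat_foot C (by omega : b ≤ i) m he
          rw [h5] at h4
          have h6 := ((h.pr2_disj (by omega : b ≤ i) hp'' hp).1 h4.1).1
          have h7 := ((h.pr2_disj (by omega : b ≤ i) hp'' hp').1 h4.2).1
          exact h2 (h6.symm.trans h7)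
      rw [h3]
      ring
  · rw [if_neg h1]
    ring

/-- **the sum over the ordered pairs of disjoint events** of a value which is a constant plus a
function of each event minus the number of matched pairs which meet both -/
theorem Str5.total (h : Pln lo hi i f) (C : CtxK α) {b : ℕ} (hb : b + 1 ≤ i)
    (hs : Str5 lo hi f b) (m : Mat α b) (K : ℤ) (τ τ' : α → ℤ) :
    ∑ q ∈ evtS α b, ∑ q' ∈ evtS α b, (if Disjoint (BB b q) (BB b q') then
      sg b q * sg b q' * (K + τ q + τ' q' - T2 m (BB b q) (BB b q')) else 0) = 0 := by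
  have e1 : ∀ q ∈ evtS α b, ∀ q' ∈ evtS α b, (if Disjoint (BB b q) (BB b q') then
      sg b q * sg b q' * (K + τ q + τ' q' - T2 m (BB b q) (BB b q')) else 0) =
      (sg b q * (K + τ q)) * (if Disjoint (BB b q) (BB b q') then sg b q' else 0) +
      (sg b q' * τ' q') * (if Disjoint (BB b q') (BB b q) then sg b q else 0) -
      (if Disjoint (BB b q) (BB b q') then sg b q * sg b q' * T2 m (BB b q) (BB b q') else 0) := by
    intro q _ q' _
    by_cases h1 : Disjoint (BB b q) (BB b q')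
    · rw [if_pos h1, if_pos h1, if_pos h1.symm, if_pos h1]
      ring
    · rw [if_neg h1, if_neg h1, if_neg (fun h2 => h1 h2.symm), if_neg h1]
      ring
  rw [sum_congr rfl fun q hq => sum_congr rfl fun q' hq' => e1 q hq q' hq']
  simp only [sum_sub_distrib, sum_add_distrib]
  have e2 : ∑ q ∈ evtS α b, ∑ q' ∈ evtS α b, (sg b q * (K + τ q)) *
      (if Disjoint (BB b q) (BB b q') then sg b q' else 0) = 0 := by
    apply sum_eq_zero
    intro q hq
    rw [← mul_sum, hs.evt h C hb hq, mul_zero]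
  have e3 : ∑ q ∈ evtS α b, ∑ q' ∈ evtS α b, (sg b q' * τ' q') *
      (if Disjoint (BB b q') (BB b q) then sg b q else 0) = 0 := by
    rw [sum_comm]
    apply sum_eq_zero
    intro q' hq'
    rw [← mul_sum, hs.evt h C hb hq', mul_zero]
  rw [e2, e3, hs.two h C hb m]
  ring

/-- **a triple and a disjoint event** -/
theorem Str5.c3 (h : Pln lo hi i f) (C : CtxK α) (hiH : i ≤ HT α) (hP : ∀ j < i, Perf α j)
    {b : ℕ} (hb : b + 1 ≤ i) (hs : Str5 lo hi f b) (τ : α → ℤ) :
    ∑ g ∈ c3S α b, ∑ q ∈ evtS α b, (if Disjoint (BB b g) (BB b q) then τ g * sg b q else 0) = 0 := by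
  apply sum_eq_zero
  intro g hg
  have e1 : ∑ q ∈ evtS α b, (if Disjoint (BB b g) (BB b q) then τ g * sg b q else 0) =
      τ g * ∑ q ∈ evtS α b, (if Disjoint (BB b g) (BB b q) then sg b q else 0) := by
    rw [mul_sum]
    apply sum_congr rfl
    intro q _
    split_ifs <;> ring
  rw [e1, hs.tri h C hiH hP hb hg, mul_zero]

end Pln

end Pool.Gauss
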