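import Pool.Agent.Work.MP_065141_co.K.V6ClsC

/-!
# Classification of the configurations of loss at least two and energy at most six
Part D1: six excited elements at the distances one and two, with a double one at distance two
-/

set_option autoImplicit false
set_option linter.unusedSectionVars false
set_option linter.unusedVariables false
open scoped Classical
open Finset Polynomial

namespace Pool.Gauss

variable {α : Type} [Fintype α] [PartialOrder α] {i : ℕ}

lemma NT_C3 (hg : Grad α) {q : α} (hq : ds i q = 2) : NT i (insert q (bd i q)) = BB i q := by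
  unfold NT BB
  congr 1
  ext t
  rw [mem_filter, mem_insert]
  constructor
  · rintro ⟨rfl | h, h1⟩
    · omega
    · exact h
  · intro h
    exact ⟨Or.inr h, ds_of_mem_bd hg hq h⟩

lemma NT_three {a b c : α} (h1 : ds i a = 1) (h3 : 2 ≤ ds i b) (h4 : 2 ≤ ds i c) :
    NT i ({a, b, c} : Finset α) = bd i a := by
  unfold NT
  have : (({a, b, c} : Finset α).filter fun p => ds i p = 1) = {a} := by
    ext t
    rw [mem_filter, mem_insert, mem_insert, mem_singleton, mem_singleton]
    constructor
    · rintro ⟨rfl | rfl | rfl, h5⟩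
      · rfl
      · omega
      · omega
    · rintro rfl
      exact ⟨Or.inl rfl, h1⟩
  rw [this, singleton_biUnion]

variable {m : Mat α i} {ε : α → ℕ}

/-- every excited element at distance one has a farther excited neighbour -/
lemma Cf.far' (hB : PB α i) (hF : m.FullX ∅) (h : Cf m ε) {p : α} (hp : p ∈ Ax i ε) :
    ∃ q ∈ Bx i ε, p ∈ bd i q := by
  rw [mem_Ax] at hp
  obtain ⟨q, h1, h2, h3⟩ := h.far hB hF hp.1 hp.2
  exact ⟨q, mem_Bx.2 ⟨h3, h2⟩, mem_bd.2 h1⟩

lemma Cf.bdA (hB : PB α i) (h : Cf m ε) {q : α} (hq : q ∈ Bx i ε) : bd i q ⊆ Ax i ε := by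
  rw [mem_Bx] at hq
  exact bd_sub_Ax hB h.good hq.1 hq.2

lemma Cf.card_le_two (hB : PB α i) (hF : m.FullX ∅) (h : Cf m ε) :
    (Ax i ε).card ≤ 2 * (Bx i ε).card := by
  have h1 : Ax i ε ⊆ (Bx i ε).biUnion (bd i) := by
    intro p hp
    obtain ⟨q, hq, hpq⟩ := h.far' hB hF hp
    exact mem_biUnion.2 ⟨q, hq, hpq⟩
  have h2 := card_le_card h1
  have h3 : ((Bx i ε).biUnion (bd i)).card ≤ (Bx i ε).card * 2 := by
    refine (Finset.card_biUnion_le).trans ?_
    refine (Finset.sum_le_card_nsmul _ _ 2 fun p _ => hB.deg p).trans ?_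
    rw [smul_eq_mul]
  omega

lemma Cf.two_le (hB : PB α i) (h : Cf m ε) : 2 ≤ (Ax i ε).card := by
  have hN := h.NA3 hB
  by_contra hc
  have h1 : (NA i ε).card ≤ 2 := by
    unfold NA
    refine (Finset.card_biUnion_le).trans ?_
    refine (Finset.sum_le_card_nsmul _ _ 2 fun p _ => hB.deg p).trans ?_
    rw [smul_eq_mul]
    omega
  omega

/-- **four excited elements next to level `i`** -/
theorem clsD4 (hB : PB α i) (hF : m.FullX ∅) (h : Cf m ε) (ha : 4 ≤ (Ax i ε).card) :
    TwoObj i ε := by
  have h1 := h.card_add hB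
  have h2 := h.card_le_two hB hF
  have hA : (Ax i ε).card = 4 := by omega
  have hb : (Bx i ε).card = 2 := by omega
  obtain ⟨hFo, hYd⟩ := h.six hB (by omega)
  have he := h.eq_six hB (by omega)
  have hls := h.ls
  rw [hFo, hYd, hA] at hls
  obtain ⟨q, q', hne, hBx⟩ := Finset.card_eq_two.1 hb
  have mq : q ∈ Bx i ε := by rw [hBx]; simp
  have mq' : q' ∈ Bx i ε := by rw [hBx]; simp
  have eq := mem_Bx.1 mq
  have eq' := mem_Bx.1 mq'
  have hAe : Ax i ε = bd i q ∪ bd i q' := by
    apply Finset.Subset.antisymm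
    · intro p hp
      obtain ⟨r, hr, hpr⟩ := h.far' hB hF hp
      rw [hBx, mem_insert, mem_singleton] at hr
      rw [mem_union]
      rcases hr with rfl | rfl
      · exact Or.inl hpr
      · exact Or.inr hpr
    · exact union_subset (h.bdA hB mq) (h.bdA hB mq')
  have c1 := hB.deg q
  have c2 := hB.deg q'
  have c3 := Finset.card_union_add_card_inter (bd i q) (bd i q')
  rw [← hAe, hA] at c3
  have c4 : (bd i q).card = 2 := by omega
  have c5 : (bd i q').card = 2 := by omega
  have c6 : (bd i q ∩ bd i q').card = 0 := by omega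
  have uq : q ∈ U2 α i := mem_U2.2 ⟨eq.1, c4⟩
  have uq' : q' ∈ U2 α i := mem_U2.2 ⟨eq'.1, c5⟩
  have hNA : NA i ε = BB i q ∪ BB i q' := by
    unfold NA BB
    rw [hAe, Finset.union_biUnion]
  have c7 := hB.P3 q uq
  have c8 := hB.P3 q' uq'
  have c9 := Finset.card_union_add_card_inter (BB i q) (BB i q')
  rw [← hNA] at c9
  have c10 : (BB i q).card = 3 := by omega
  have c11 : (BB i q').card = 3 := by omega
  have c12 : (BB i q ∩ BB i q').card = 0 := by omega
  refine ⟨insert q (bd i q), insert q' (bd i q'), Or.inl ⟨q, uq, c10, rfl⟩,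
    Or.inl ⟨q', uq', c11, rfl⟩, ?_, ?_, ?_⟩
  · rw [Finset.disjoint_left]
    intro t ht ht'
    rw [mem_insert] at ht ht'
    rcases ht with rfl | ht <;> rcases ht' with h3 | ht'
    · exact hne h3
    · have := ds_of_mem_bd hB.hg eq'.1 ht'
      omega
    · have := ds_of_mem_bd hB.hg eq.1 ht
      rw [h3] at this
      omega
    · rw [Finset.card_eq_zero] at c6
      have : t ∈ bd i q ∩ bd i q' := mem_inter.2 ⟨ht, ht'⟩
      rw [c6] at this
      simp at this
  · rw [NT_C3 hB.hg eq.1, NT_C3 hB.hg eq'.1, Finset.disjoint_iff_inter_eq_empty,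
      ← Finset.card_eq_zero]
    exact c12
  · have hu : Ax i ε ∪ Bx i ε = insert q (bd i q) ∪ insert q' (bd i q') := by
      rw [hAe, hBx]
      ext t
      simp only [mem_union, mem_insert, mem_singleton]
      tauto
    rw [hu] at he
    exact he

/-- **three excited elements next to level `i`, three at distance two** -/
theorem clsD33 (hB : PB α i) (hF : m.FullX ∅) (h : Cf m ε) (ha : (Ax i ε).card = 3)
    (hb : 3 ≤ (Bx i ε).card) (hex : ∃ q ∈ Bx i ε, (bd i q).card = 2) :
    (∃ p q, Swp i ε p q) ∨ TwoObj i ε := by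
  have h1 := h.card_add hB
  obtain ⟨hFo, hYd⟩ := h.six hB (by omega)
  have he := h.eq_six hB (by omega)
  have hls := h.ls
  rw [hFo, hYd, ha] at hls
  obtain ⟨g, mg, hg2⟩ := hex
  have eg := mem_Bx.1 mg
  have ug : g ∈ U2 α i := mem_U2.2 ⟨eg.1, hg2⟩
  have hsub := h.bdA hB mg
  have hc : (Ax i ε \ bd i g).card = 1 := by
    rw [card_sdiff_of_subset hsub]
    omega
  obtain ⟨p, hp⟩ := Finset.card_eq_one.1 hc
  have mp : p ∈ Ax i ε ∧ p ∉ bd i g := by
    rw [← mem_sdiff, hp]
    simp
  have hAx : ∀ r ∈ Ax i ε, r ∈ bd i g ∨ r = p := by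
    intro r hr
    by_cases h2 : r ∈ bd i g
    · exact Or.inl h2
    · right
      have : r ∈ Ax i ε \ bd i g := mem_sdiff.2 ⟨hr, h2⟩
      rw [hp, mem_singleton] at this
      exact this
  have hNA : NA i ε = BB i g ∪ bd i p := by
    unfold NA BB
    ext t
    rw [mem_union, mem_biUnion, mem_biUnion]
    constructor
    · rintro ⟨r, hr, hrt⟩
      rcases hAx r hr with h3 | h3
      · exact Or.inl ⟨r, h3, hrt⟩
      · exact Or.inr (h3 ▸ hrt)
    · rintro (⟨r, hr, hrt⟩ | hrt)
      · exact ⟨r, hsub hr, hrt⟩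
      · exact ⟨p, mp.1, hrt⟩
  have c1 := hB.P3 g ug
  have c2 := hB.deg p
  have c3 := Finset.card_union_add_card_inter (BB i g) (bd i p)
  rw [← hNA] at c3
  have c4 : (BB i g).card = 3 := by omega
  have c5 : (bd i p).card = 2 := by omega
  have c6 : (BB i g ∩ bd i p).card = 0 := by omega
  have hd : Disjoint (BB i g) (bd i p) := by
    rw [Finset.disjoint_iff_inter_eq_empty, ← Finset.card_eq_zero]
    exact c6
  have ep := mem_Ax.1 mp.1
  -- the excited elements over `p` are single
  have hsing : ∀ r ∈ Bx i ε, p ∈ bd i r → bd i r = {p} := by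
    intro r hr hpr
    by_contra hne
    have h3 : ∃ s ∈ bd i r, s ≠ p := by
      by_contra h4
      push Not at h4
      apply hne
      ext t
      rw [mem_singleton]
      constructor
      · exact h4 t
      · rintro rfl
        exact hpr
    obtain ⟨s, hs, hsp⟩ := h3
    have hsA := h.bdA hB hr hs
    have hsg : s ∈ bd i g := by
      rcases hAx s hsA with h4 | h4
      · exact h4
      · exact absurd h4 hsp
    have hs2 := hB.nb g ug c4 s hsg
    have hr2 : bd i r = {s, p} := by
      symm
      apply Finset.eq_of_subset_of_card_le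
      · intro t ht
        rw [mem_insert, mem_singleton] at ht
        rcases ht with rfl | rfl
        · exact hs
        · exact hpr
      · rw [card_pair hsp]
        exact hB.deg r
    have hrU : r ∈ U2 α i := mem_U2.2 ⟨(mem_Bx.1 hr).1, by rw [hr2, card_pair hsp]⟩
    have c7 := hB.P3 r hrU
    have hBr : BB i r = bd i s ∪ bd i p := by
      unfold BB
      rw [hr2, biUnion_insert, singleton_biUnion]
    have hd2 : Disjoint (bd i s) (bd i p) := by
      apply Finset.disjoint_of_subset_left _ hd
      intro t ht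
      unfold BB
      rw [mem_biUnion]
      exact ⟨s, hsg, ht⟩
    rw [hBr, card_union_of_disjoint hd2, hs2, c5] at c7
    omega
  obtain ⟨q, mq, hpq⟩ := h.far' hB hF mp.1
  have bq := hsing q mq hpq
  have eq := mem_Bx.1 mq
  have hqg : q ≠ g := by
    rintro rfl
    exact mp.2 hpq
  have hc3 : (Bx i ε).card = 3 := by omega
  have hc4 : (Bx i ε \ {g, q}).card = 1 := by
    rw [card_sdiff_of_subset, card_pair hqg.symm]
    · omega
    · intro t ht
      rw [mem_insert, mem_singleton] at ht
      rcases ht with rfl | rfl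
      · exact mg
      · exact mq
  obtain ⟨s, hs⟩ := Finset.card_eq_one.1 hc4
  have ms : s ∈ Bx i ε ∧ s ∉ ({g, q} : Finset α) := by
    rw [← mem_sdiff, hs]
    simp
  have hBx : ∀ r ∈ Bx i ε, r = g ∨ r = q ∨ r = s := by
    intro r hr
    by_cases h2 : r ∈ ({g, q} : Finset α)
    · rw [mem_insert, mem_singleton] at h2
      tauto
    · right; right
      have : r ∈ Bx i ε \ {g, q} := mem_sdiff.2 ⟨hr, h2⟩
      rw [hs, mem_singleton] at this
      exact this
  have hs1 := ms.2
  rw [mem_insert, mem_singleton, not_or] at hs1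
  have es := mem_Bx.1 ms.1
  have hone : ∀ t, 0 < ε t → t ∈ Ax i ε ∨ t ∈ Bx i ε := by
    intro t ht
    have h5 : 0 < ind (Ax i ε ∪ Bx i ε) t := by rw [← he]; exact ht
    rw [ind_pos, mem_union] at h5
    exact h5
  have hlev0 : ∀ y, corank y = i → ε y = 0 := by
    intro y hy
    by_contra hc
    have h6 := ds_eq_zero.2 hy
    rcases hone y (by omega) with h5 | h5
    · rw [mem_Ax] at h5
      omega
    · rw [mem_Bx] at h5
      omega
  have hdA : ∀ r ∈ Ax i ε, r ≠ p → Disjoint (bd i p) (bd i r) := by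
    intro r hr hne
    have hrg : r ∈ bd i g := by
      rcases hAx r hr with h4 | h4
      · exact h4
      · exact absurd h4 hne
    apply Disjoint.symm
    apply Finset.disjoint_of_subset_left _ hd
    intro t ht
    unfold BB
    rw [mem_biUnion]
    exact ⟨r, hrg, ht⟩
  by_cases hps : p ∈ bd i s
  · -- two elements over `p`
    right
    have bs := hsing s ms.1 hps
    refine ⟨insert g (bd i g), {p, q, s}, Or.inl ⟨g, ug, c4, rfl⟩,
      Or.inr (Or.inr ⟨p, q, s, ep.1, c5, eq.1, bq, es.1, bs, hs1.2 ∘ Eq.symm, rfl⟩), ?_, ?_, ?_⟩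
    · rw [Finset.disjoint_left]
      intro t ht ht'
      rw [mem_insert] at ht
      rw [mem_insert, mem_insert, mem_singleton] at ht'
      rcases ht with rfl | ht
      · rcases ht' with h3 | h3 | h3
        · rw [h3] at eg
          omega
        · exact hqg h3.symm
        · exact hs1.1 h3.symm
      · have d1 := ds_of_mem_bd hB.hg eg.1 ht
        rcases ht' with h3 | h3 | h3
        · exact mp.2 (h3 ▸ ht)
        · rw [h3] at d1
          omega
        · rw [h3] at d1
          omega
    · rw [NT_C3 hB.hg eg.1, NT_three ep.1 (by omega) (by omega)]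
      exact hd
    · have hu : Ax i ε ∪ Bx i ε = insert g (bd i g) ∪ {p, q, s} := by
        ext t
        rw [mem_union, mem_union, mem_insert, mem_insert, mem_insert, mem_singleton]
        constructor
        · rintro (h3 | h3)
          · rcases hAx t h3 with h4 | h4
            · tauto
            · tauto
          · rcases hBx t h3 with h4 | h4 | h4 <;> tauto
        · rintro ((h3 | h3) | h3 | h3 | h3)
          · rw [h3]; exact Or.inr mg
          · exact Or.inl (hsub h3)
          · rw [h3]; exact Or.inl mp.1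
          · rw [h3]; exact Or.inr mq
          · rw [h3]; exact Or.inr ms.1
      rw [hu] at he
      exact he
  · left
    refine ⟨p, q, ⟨ep.1, c5, eq.1, bq, ep.2, eq.2, ?_, ?_, ?_, ?_, ?_⟩⟩
    · intro w hw hne
      by_contra h0
      have d1 := fr_ds hB.hg hw
      rcases hBx w (mem_Bx.2 ⟨by omega, by omega⟩) with h3 | h3 | h3
      · exact mp.2 (h3 ▸ mem_bd.2 hw)
      · exact hne h3
      · exact hps (h3 ▸ mem_bd.2 hw)
    · intro t ht
      by_contra h0
      have d1 := fr_ds hB.hg ht
      rcases hone t (by omega) with h5 | h5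
      · rw [mem_Ax] at h5
        omega
      · rw [mem_Bx] at h5
        omega
    · obtain ⟨y, hy⟩ : (bd i p).Nonempty := by
        rw [← Finset.card_pos]
        omega
      refine ⟨y, hy, ?_⟩
      rw [hlev0 y (bd_lev hB.hg ep.1 hy)]
      exact ep.2
    · intro y hy _ r hr hne
      by_contra h0
      have d1 := fr_ds hB.hg hr
      rw [ds_eq_zero.2 (bd_lev hB.hg ep.1 hy)] at d1
      exact Finset.disjoint_left.1 (hdA r (mem_Ax.2 ⟨by omega, by omega⟩) hne) hy
        (mem_bd.2 hr)
    · intro r hne hbd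
      by_contra h0
      obtain ⟨y, hy⟩ : (bd i p).Nonempty := by
        rw [← Finset.card_pos]
        omega
      have hy' : y ∈ bd i r := by rw [hbd]; exact hy
      have d1 := fr_ds hB.hg (mem_bd.1 hy')
      rw [ds_eq_zero.2 (bd_lev hB.hg ep.1 hy)] at d1
      exact Finset.disjoint_left.1 (hdA r (mem_Ax.2 ⟨by omega, by omega⟩) hne) hy hy'

end Pool.Gauss
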