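import Pool.Agent.Work.MP_065141_co.P4

/-!
# The configuration of two events over edges sharing one element

`q`, `q'` are elements at distance two with a single nearer neighbour, over two elements of level
`i` each, the two pairs share exactly the element `y`. The configuration has energy one on `q`,
`q'`, their nearer neighbours and on `y`; it is reduced and good, its pole order is two and its
sign is the product of the signs of `q` and `q'`.
-/

set_option autoImplicit false
set_option linter.unusedSectionVars false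
set_option linter.unusedVariables false
open scoped Classical
open Finset Polynomial

namespace Pool.Gauss

variable {α : Type} [Fintype α] [PartialOrder α] {i : ℕ}

/-- two elements at distance two over one double element each, the two pairs meet exactly in `y` -/
def isM (i : ℕ) (q q' y : α) : Prop :=
  (q ∈ U1 α i ∧ (BB i q).card = 2) ∧ (q' ∈ U1 α i ∧ (BB i q').card = 2) ∧
    BB i q ∩ BB i q' = {y}

/-- the configuration of two events over edges sharing `y` -/
noncomputable def cfM (i : ℕ) (q q' y : α) : α → ℕ := ind ({q, q'} ∪ (bd i q ∪ bd i q') ∪ {y})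

section

variable {q q' y : α}

lemma isM.symm (h : isM i q q' y) : isM i q' q y := ⟨h.2.1, h.1, by rw [inter_comm]; exact h.2.2⟩

lemma cfM_comm (q q' y : α) : cfM i q q' y = cfM i q' q y := by
  unfold cfM
  rw [pair_comm, union_comm (bd i q)]

lemma isM.mem_BB (h : isM i q q' y) : y ∈ BB i q := by
  have : y ∈ BB i q ∩ BB i q' := by rw [h.2.2]; exact mem_singleton_self y
  exact (mem_inter.1 this).1

lemma isM.corank_y (hg : Grad α) (h : isM i q q' y) : corank y = i := by
  have := BB_subset hg (mem_U1.1 h.1.1).1 h.mem_BB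
  rwa [mem_lev] at this

lemma isM.ne (h : isM i q q' y) : q ≠ q' := by
  rintro rfl
  have h1 := h.2.2
  rw [inter_self] at h1
  have h2 := h.1.2
  rw [h1] at h2
  simp at h2

/-- the nearer neighbour of an event element -/
lemma U1_bd_eq {q : α} (hq : q ∈ U1 α i ∧ (BB i q).card = 2) :
    ∃ p, bd i q = {p} ∧ BB i q = bd i p ∧ (bd i p).card = 2 := by
  obtain ⟨p, hp⟩ := Finset.card_eq_one.1 (mem_U1.1 hq.1).2
  have h1 : BB i q = bd i p := by unfold BB; rw [hp, singleton_biUnion]
  exact ⟨p, hp, h1, by rw [← h1]; exact hq.2⟩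

/-- the data of `cfM` -/
theorem cfM_data (hg : Grad α) (hl : HasLower α i) (m : Mat α i) (hM : isM i q q' y)
    {n : ℕ} (hn : (lev α i).card = n) :
    cfM i q q' y ∈ m.TT 5 n ∧
      (-1 : ℤ) ^ (inF i (cfM i q q' y)).card = (-1) ^ (low α i).card * (sg i q * sg i q') := by
  have hne := hM.ne
  have hy := hM.corank_y hg
  obtain ⟨⟨hq, hB⟩, ⟨hq', hB'⟩, hI⟩ := hM
  obtain ⟨p, hp, hBp, hp2⟩ := U1_bd_eq ⟨hq, hB⟩
  obtain ⟨p', hp', hBp', hp2'⟩ := U1_bd_eq ⟨hq', hB'⟩
  rw [mem_U1] at hq hq'
  have hpq : p ∈ bd i q := by rw [hp]; exact mem_singleton_self p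
  have hpq' : p' ∈ bd i q' := by rw [hp']; exact mem_singleton_self p'
  have hpd := ds_of_mem_bd hg hq.1 hpq
  have hpd' := ds_of_mem_bd hg hq'.1 hpq'
  have hI' : bd i p ∩ bd i p' = {y} := by rw [← hBp, ← hBp']; exact hI
  have hQ : ∀ t ∈ ({q, q'} : Finset α), ds i t = 2 := by
    intro t ht
    rw [mem_insert, mem_singleton] at ht
    rcases ht with rfl | rfl
    · exact hq.1
    · exact hq'.1
  have hA : ∀ t ∈ bd i q ∪ bd i q', ds i t = 1 := by
    intro t ht
    rw [mem_union] at ht
    rcases ht with h | h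
    · exact ds_of_mem_bd hg hq.1 h
    · exact ds_of_mem_bd hg hq'.1 h
  have hZ : ∀ t ∈ ({y} : Finset α), corank t = i := by simpa using hy
  have hQA : ∀ t ∈ ({q, q'} : Finset α), bd i t ⊆ bd i q ∪ bd i q' := by
    intro t ht
    rw [mem_insert, mem_singleton] at ht
    rcases ht with rfl | rfl
    · exact subset_union_left
    · exact subset_union_right
  have hyI : ∀ t, t ∈ BB i q → t ∈ BB i q' → t ∈ ({y} : Finset α) := by
    intro t h1 h2
    rw [← hI]
    exact mem_inter.2 ⟨h1, h2⟩
  have hside : ∀ p ∈ bd i q ∪ bd i q', ∀ p' ∈ bd i q ∪ bd i q', corank p < i → i < corank p' →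
      ∀ t, t ∈ bd i p → t ∈ bd i p' → t ∈ ({y} : Finset α) := by
    intro a ha b hb h1 h2 t ht ht'
    rw [mem_union] at ha hb
    have hin : ∀ r t : α, t ∈ bd i r → ∀ y, y ∈ bd i t → y ∈ BB i r := by
      intro r t ht y hy
      unfold BB
      rw [mem_biUnion]
      exact ⟨t, ht, hy⟩
    rcases ha with ha | ha <;> rcases hb with hb | hb
    · have := side_of_mem_bd hg hq.1 ha
      have := side_of_mem_bd hg hq.1 hb
      omega
    · exact hyI t (hin q a ha t ht) (hin q' b hb t ht')
    · exact hyI t (hin q b hb t ht') (hin q' a ha t ht)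
    · have := side_of_mem_bd hg hq'.1 ha
      have := side_of_mem_bd hg hq'.1 hb
      omega
  have hgood := cfg_good hg hl hQ hA hZ hQA hside
  have hred := cfg_red hg m (L := ∅) (by intro p hp; simp at hp) hQ hA hZ (by
    intro t ht
    rw [mem_union] at ht
    rcases ht with ht | ht
    · exact Or.inl ⟨q, by simp, ht⟩
    · exact Or.inl ⟨q', by simp, ht⟩)
  have hc := card_cfg hQ hA hZ
  have hppne : p ≠ p' := by
    rintro rfl
    rw [inter_self] at hI'
    rw [hI'] at hp2
    simp at hp2
  have hyp : y ∈ bd i p := by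
    have : y ∈ bd i p ∩ bd i p' := by rw [hI']; exact mem_singleton_self y
    exact (mem_inter.1 this).1
  have hyp' : y ∈ bd i p' := by
    have : y ∈ bd i p ∩ bd i p' := by rw [hI']; exact mem_singleton_self y
    exact (mem_inter.1 this).2
  have eA : (bd i q ∪ bd i q') = {p, p'} := by rw [hp, hp']; rfl
  have hcA : (bd i q ∪ bd i q').card = 2 := by rw [eA, card_pair hppne]
  have hdis : Disjoint (bd i p \ {y}) (bd i p' \ {y}) := by
    rw [Finset.disjoint_left]
    intro t h1 h2
    rw [mem_sdiff] at h1 h2
    apply h1.2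
    rw [← hI']
    exact mem_inter.2 ⟨h1.1, h2.1⟩
  have hcp : (bd i p \ {y}).card = 1 := by
    rw [Finset.card_sdiff_of_subset (singleton_subset_iff.2 hyp), hp2, card_singleton]
  have hcp' : (bd i p' \ {y}).card = 1 := by
    rw [Finset.card_sdiff_of_subset (singleton_subset_iff.2 hyp'), hp2', card_singleton]
  have hFo : Fo i (ind ({q, q'} ∪ (bd i q ∪ bd i q') ∪ {y})) = ∅ := by
    rw [cfg_Fo hg hl hQ hA hZ hQA, Finset.filter_eq_empty_iff]
    intro t ht h1
    rw [eA, mem_insert, mem_singleton] at ht
    rw [Finset.disjoint_singleton_right] at h1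
    rcases ht with rfl | rfl
    · exact h1 hyp
    · exact h1 hyp'
  have hYd : (Yd i (ind ({q, q'} ∪ (bd i q ∪ bd i q') ∪ {y}))).card = 2 := by
    rw [cfg_Yd hg hQ hA hZ, eA, biUnion_insert, singleton_biUnion, union_sdiff_distrib,
      card_union_of_disjoint hdis, hcp, hcp']
  have hYin := cfg_Yin hg hQ hA hZ
  have hFd := ind_Fd (i := i) (cfg_nclosed hg hQ hA hZ hQA)
  have hpk := card_pkF hg hl hgood
  have hsg := sign_inF hg hl hgood
  constructor
  · rw [m.mem_TT]
    unfold cfM
    refine ⟨?_, hred, hgood, ?_⟩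
    · rw [sum_ind, hc, hcA, card_pair hne, card_singleton]
    · rw [hFo, hYd, card_empty] at hpk
      omega
  · unfold cfM
    rw [hsg, hFd, hFo, card_empty, pow_zero, filter_empty, card_empty, pow_zero, hYin, eA]
    have s1 := side_of_mem_bd hg hq.1 hpq
    have s2 := side_of_mem_bd hg hq'.1 hpq'
    have npi : corank p ≠ i := by
      intro h
      rw [ds_eq_zero.2 h] at hpd
      omega
    have npi' : corank p' ≠ i := by
      intro h
      rw [ds_eq_zero.2 h] at hpd'
      omega
    have e1 : sg i q = if corank p < i then -1 else 1 := by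
      unfold sg
      simp only [s1.1]
    have e2 : sg i q' = if corank p' < i then -1 else 1 := by
      unfold sg
      simp only [s2.1]
    have key : ((({p, p'} : Finset α).filter fun p => i < corank p).biUnion (bd i) \ {y}).card =
        (if corank p < i then 0 else 1) + (if corank p' < i then 0 else 1) := by
      rw [filter_insert, filter_singleton]
      by_cases a1 : corank p < i <;> by_cases a2 : corank p' < i
      · rw [if_neg (by omega), if_neg (by omega), if_pos a1, if_pos a2]
        simp
      · rw [if_neg (by omega), if_pos (by omega), if_pos a1, if_neg a2, singleton_biUnion, hcp']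
      · rw [if_pos (by omega), if_neg (by omega), if_neg a1, if_pos a2]
        rw [biUnion_insert, biUnion_empty, union_empty, hcp]
      · rw [if_pos (by omega), if_pos (by omega), if_neg a1, if_neg a2, biUnion_insert,
          singleton_biUnion, union_sdiff_distrib, card_union_of_disjoint hdis, hcp, hcp']
    rw [key, e1, e2]
    by_cases a1 : corank p < i <;> by_cases a2 : corank p' < i <;> simp [a1, a2]

/-- the support of `cfM` -/
lemma cfM_pos {t : α} : 0 < cfM i q q' y t ↔
    t = q ∨ t = q' ∨ t ∈ bd i q ∨ t ∈ bd i q' ∨ t = y := by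
  unfold cfM
  rw [ind_pos]
  simp only [mem_union, mem_insert, mem_singleton]
  tauto

/-- a good configuration of energy at most five on a touching pair of events is `cfM` -/
theorem cfM_eq_of (hg : Grad α) (hl : HasLower α i) {ε : α → ℕ} (hε : GoodE i ε)
    (hM : isM i q q' y) (hs : ∑ p, ε p ≤ 5) (h1 : 0 < ε q) (h2 : 0 < ε q') (h3 : 0 < ε y) :
    ε = cfM i q q' y := by
  have hne := hM.ne
  have hy := hM.corank_y hg
  obtain ⟨⟨hq, hB⟩, ⟨hq', hB'⟩, hI⟩ := hM
  obtain ⟨p, hp, hBp, hp2⟩ := U1_bd_eq ⟨hq, hB⟩
  obtain ⟨p', hp', hBp', hp2'⟩ := U1_bd_eq ⟨hq', hB'⟩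
  rw [mem_U1] at hq hq'
  have hpq : p ∈ bd i q := by rw [hp]; exact mem_singleton_self p
  have hpq' : p' ∈ bd i q' := by rw [hp']; exact mem_singleton_self p'
  have hpd := ds_of_mem_bd hg hq.1 hpq
  have hpd' := ds_of_mem_bd hg hq'.1 hpq'
  have hppne : p ≠ p' := by
    rintro rfl
    rw [hBp, hBp', inter_self] at hI
    rw [hI] at hp2
    simp at hp2
  have hQ : ∀ t ∈ ({q, q'} : Finset α), ds i t = 2 := by
    intro t ht
    rw [mem_insert, mem_singleton] at ht
    rcases ht with rfl | rfl
    · exact hq.1
    · exact hq'.1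
  have hA : ∀ t ∈ bd i q ∪ bd i q', ds i t = 1 := by
    intro t ht
    rw [mem_union] at ht
    rcases ht with h | h
    · exact ds_of_mem_bd hg hq.1 h
    · exact ds_of_mem_bd hg hq'.1 h
  have hZ : ∀ t ∈ ({y} : Finset α), corank t = i := by simpa using hy
  have hc := card_cfg hQ hA hZ
  have hcA : (bd i q ∪ bd i q').card = 2 := by
    have eA : (bd i q ∪ bd i q') = {p, p'} := by rw [hp, hp']; rfl
    rw [eA, card_pair hppne]
  rw [hcA, card_pair hne, card_singleton] at hc
  have cl : ∀ r ∈ ({q, q'} : Finset α), 0 < ε r → ∀ t ∈ bd i r, 0 < ε t := by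
    intro r hr h0 t ht
    have h4 := ds_of_mem_bd hg (hQ r hr) ht
    apply closure hg hl hε (mem_bd.1 ht) _ h0
    intro h5
    rw [ds_eq_zero.2 h5] at h4
    omega
  unfold cfM
  apply eq_ind
  · intro t ht
    simp only [mem_union, mem_insert, mem_singleton] at ht
    rcases ht with ((rfl | rfl) | (ht | ht)) | rfl
    · exact h1
    · exact h2
    · exact cl q (by simp) h1 t ht
    · exact cl q' (by simp) h2 t ht
    · exact h3
  · rw [hc]
    omega

/-- events on different sides over touching pairs force a positive energy on the common element -/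
lemma isM.pos_of_opp (hg : Grad α) (hl : HasLower α i) {ε : α → ℕ} (hε : GoodE i ε)
    (hM : isM i q q' y) (h1 : 0 < ε q) (h2 : 0 < ε q') (hs : i < corank q) (hs' : corank q' < i) :
    0 < ε y := by
  have hy := hM.corank_y hg
  have hyq := hM.mem_BB
  have hyq' := hM.symm.mem_BB
  obtain ⟨⟨hq, hB⟩, ⟨hq', hB'⟩, hI⟩ := hM
  obtain ⟨p, hp, hBp, hp2⟩ := U1_bd_eq ⟨hq, hB⟩
  obtain ⟨p', hp', hBp', hp2'⟩ := U1_bd_eq ⟨hq', hB'⟩
  rw [mem_U1] at hq hq'
  have hpq : p ∈ bd i q := by rw [hp]; exact mem_singleton_self p
  have hpq' : p' ∈ bd i q' := by rw [hp']; exact mem_singleton_self p'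
  have hpd := ds_of_mem_bd hg hq.1 hpq
  have hpd' := ds_of_mem_bd hg hq'.1 hpq'
  have npi : corank p ≠ i := by
    intro h
    rw [ds_eq_zero.2 h] at hpd
    omega
  have npi' : corank p' ≠ i := by
    intro h
    rw [ds_eq_zero.2 h] at hpd'
    omega
  have e1 := closure hg hl hε (mem_bd.1 hpq) npi h1
  have e2 := closure hg hl hε (mem_bd.1 hpq') npi' h2
  have s1 := side_of_mem_bd hg hq.1 hpq
  have s2 := side_of_mem_bd hg hq'.1 hpq'
  rw [hBp] at hyq
  rw [hBp'] at hyq'
  by_contra h0
  apply hε y
  constructor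
  · rw [inE_lev hy]
    refine ⟨p, (fr_below' hg (mem_bd.1 hyq) (by omega)).2, ?_⟩
    omega
  · rw [outE_lev hy]
    refine ⟨p', (fr_above' hg (mem_bd.1 hyq') (by omega)).2, ?_⟩
    omega

/-- `cfM` determines the unordered pair of events and the common element -/
theorem cfM_inj (hg : Grad α) {r r' z : α} (hM : isM i q q' y) (hN : isM i r r' z)
    (he : cfM i q q' y = cfM i r r' z) : y = z ∧ ({q, q'} : Finset α) = {r, r'} := by
  have hy := hM.corank_y hg
  have hz := hN.corank_y hg
  have key : ∀ {q q' y : α}, isM i q q' y → (∀ t, ds i t = 2 → (0 < cfM i q q' y t ↔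
      t ∈ ({q, q'} : Finset α))) ∧ ∀ t, corank t = i → (0 < cfM i q q' y t ↔ t = y) := by
    intro q q' y hM
    have hy := hM.corank_y hg
    obtain ⟨⟨hq, -⟩, ⟨hq', -⟩, -⟩ := hM
    rw [mem_U1] at hq hq'
    constructor
    · intro t ht
      rw [cfM_pos, mem_insert, mem_singleton]
      constructor
      · rintro (h | h | h | h | h)
        · exact Or.inl h
        · exact Or.inr h
        · have := ds_of_mem_bd hg hq.1 h
          omega
        · have := ds_of_mem_bd hg hq'.1 h
          omega
        · rw [h, ds_eq_zero.2 hy] at ht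
          omega
      · rintro (h | h)
        · exact Or.inl h
        · exact Or.inr (Or.inl h)
    · intro t ht
      rw [cfM_pos]
      have h0 := ds_eq_zero.2 ht
      constructor
      · rintro (h | h | h | h | h)
        · rw [h, hq.1] at h0
          omega
        · rw [h, hq'.1] at h0
          omega
        · have := ds_of_mem_bd hg hq.1 h
          omega
        · have := ds_of_mem_bd hg hq'.1 h
          omega
        · exact h
      · intro h
        exact Or.inr (Or.inr (Or.inr (Or.inr h)))
  constructor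
  · have h1 := ((key hM).2 y hy).2 rfl
    rw [he] at h1
    exact ((key hN).2 y hy).1 h1
  · ext t
    by_cases ht : ds i t = 2
    · rw [← (key hM).1 t ht, ← (key hN).1 t ht, he]
    · constructor
      · intro h
        exfalso
        apply ht
        rw [mem_insert, mem_singleton] at h
        rcases h with rfl | rfl
        · exact (mem_U1.1 hM.1.1).1
        · exact (mem_U1.1 hM.2.1.1).1
      · intro h
        exfalso
        apply ht
        rw [mem_insert, mem_singleton] at h
        rcases h with rfl | rfl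
        · exact (mem_U1.1 hN.1.1).1
        · exact (mem_U1.1 hN.2.1.1).1

end

end Pool.Gauss
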