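import Pool.Agent.Work.MP_065141_co.K.V6Def
import Pool.Agent.Work.MP_065141_co.K.V6ClsD1
import Pool.Agent.Work.MP_065141_co.K.V6Mid

/-!
# The configurations of energy five and loss two without active diamond: the data

`cfD i q q'` with one more unit of energy, two disjoint objects (a triple and an event).
-/

set_option autoImplicit false
set_option linter.unusedSectionVars false
set_option linter.unusedVariables false
open scoped Classical
open Finset Polynomial

namespace Pool.Gauss

variable {α : Type} [Fintype α] [PartialOrder α] {i : ℕ}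

namespace V5

lemma add_val (e : α → ℕ) (t r : α) : (e + ind {t}) r = e r + if r = t then 1 else 0 := by
  simp only [Pi.add_apply, ind, mem_singleton]

/-- adding one unit of energy at `t` does not change any status -/
structure Add1 (i : ℕ) (e : α → ℕ) (t : α) : Prop where
  c1 : ∀ r, fr i r t → e r ≠ e t
  c2 : ¬ fd i e t
  c3 : ∀ r, fr i t r → nd i e r
  c4 : corank t ≠ i → nd i e t → ∃ s, fr i s t ∧ e t < e s

section add1

variable {e : α → ℕ} {t : α}

lemma Add1.fd_iff (hg : Grad α) (h : Add1 i e t) (r : α) :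
    fd i (e + ind {t}) r ↔ fd i e r := by
  constructor
  · rintro ⟨s, h1, h2⟩
    rw [add_val, add_val] at h2
    by_cases hr : r = t
    · exfalso
      rw [hr] at h1
      have hs : s ≠ t := by
        rintro rfl
        have := fr_ds hg h1
        omega
      rw [if_pos hr, if_neg hs, hr] at h2
      exact h.c2 ⟨s, h1, by omega⟩
    · by_cases hs : s = t
      · rw [hs] at h1
        have h3 := h.c1 r h1
        rw [if_neg hr, if_pos hs, hs] at h2
        exact ⟨t, h1, by omega⟩
      · rw [if_neg hr, if_neg hs] at h2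
        exact ⟨s, h1, by omega⟩
  · rintro ⟨s, h1, h2⟩
    by_cases hr : r = t
    · exact absurd ⟨s, hr ▸ h1, hr ▸ h2⟩ h.c2
    · refine ⟨s, h1, ?_⟩
      rw [add_val, add_val, if_neg hr]
      omega

lemma Add1.nd_iff (h : Add1 i e t) {r : α} (hr0 : corank r ≠ i) :
    nd i (e + ind {t}) r ↔ nd i e r := by
  constructor
  · rintro ⟨s, h1, h2⟩
    rw [add_val, add_val] at h2
    by_cases hs : s = t
    · exact h.c3 r (hs ▸ h1)
    · rw [if_neg hs] at h2
      exact ⟨s, h1, by omega⟩
  · intro hn
    by_cases hr : r = t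
    · obtain ⟨s, h1, h2⟩ := h.c4 (hr ▸ hr0) (hr ▸ hn)
      refine ⟨s, hr ▸ h1, ?_⟩
      rw [add_val, add_val, if_pos hr, hr]
      omega
    · obtain ⟨s, h1, h2⟩ := hn
      refine ⟨s, h1, ?_⟩
      rw [add_val, add_val, if_neg hr]
      omega

lemma Add1.inE_iff (hg : Grad α) (h : Add1 i e t) {y : α} (hy : corank y = i) :
    inE i (e + ind {t}) y ↔ inE i e y := by
  rw [inE_lev hy, inE_lev hy]
  constructor
  · rintro ⟨x, h1, h2⟩
    rw [add_val, add_val] at h2
    have h0 : fr i y x := fr_of_below hy.ge h1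
    by_cases hyt : y = t
    · exfalso
      have hx : x ≠ t := by
        rintro rfl
        rw [hyt] at h0
        have := fr_ds hg h0
        omega
      rw [if_pos hyt, if_neg hx] at h2
      exact h.c2 ⟨x, hyt ▸ h0, by rw [← hyt]; omega⟩
    · by_cases hx : x = t
      · have h3 := h.c1 y (hx ▸ h0)
        rw [if_neg hyt, if_pos hx, hx] at h2
        exact ⟨x, h1, by rw [hx]; omega⟩
      · rw [if_neg hyt, if_neg hx] at h2
        exact ⟨x, h1, by omega⟩
  · rintro ⟨x, h1, h2⟩
    have h0 : fr i y x := fr_of_below hy.ge h1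
    by_cases hyt : y = t
    · exact absurd ⟨x, hyt ▸ h0, hyt ▸ h2⟩ h.c2
    · refine ⟨x, h1, ?_⟩
      rw [add_val, add_val, if_neg hyt]
      omega

lemma Add1.outE_iff (hg : Grad α) (h : Add1 i e t) {y : α} (hy : corank y = i) :
    outE i (e + ind {t}) y ↔ outE i e y := by
  rw [outE_lev hy, outE_lev hy]
  constructor
  · rintro ⟨x, h1, h2⟩
    rw [add_val, add_val] at h2
    have h0 : fr i y x := fr_of_above hy.le h1
    by_cases hyt : y = t
    · exfalso
      have hx : x ≠ t := by
        rintro rfl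
        rw [hyt] at h0
        have := fr_ds hg h0
        omega
      rw [if_pos hyt, if_neg hx] at h2
      exact h.c2 ⟨x, hyt ▸ h0, by rw [← hyt]; omega⟩
    · by_cases hx : x = t
      · have h3 := h.c1 y (hx ▸ h0)
        rw [if_neg hyt, if_pos hx, hx] at h2
        exact ⟨x, h1, by rw [hx]; omega⟩
      · rw [if_neg hyt, if_neg hx] at h2
        exact ⟨x, h1, by omega⟩
  · rintro ⟨x, h1, h2⟩
    have h0 : fr i y x := fr_of_above hy.le h1
    by_cases hyt : y = t
    · exact absurd ⟨x, hyt ▸ h0, hyt ▸ h2⟩ h.c2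
    · refine ⟨x, h1, ?_⟩
      rw [add_val, add_val, if_neg hyt]
      omega

/-- nothing changes -/
theorem Add1.data (hg : Grad α) (hl : HasLower α i) (h : Add1 i e t) (he : GoodE i e) :
    GoodE i (e + ind {t}) ∧ (pkF i (e + ind {t})).card = (pkF i e).card ∧
      (-1 : ℤ) ^ (inF i (e + ind {t})).card = (-1) ^ (inF i e).card := by
  have hs := goodS_of_goodE hg hl he
  have hgood : GoodE i (e + ind {t}) := by
    apply goodE_of_goodS hg hl
    constructor
    · intro p hp h1
      rw [h.fd_iff hg, h.nd_iff hp] at h1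
      exact hs.1 p hp h1
    · intro y hy h1
      rw [h.inE_iff hg hy, h.outE_iff hg hy] at h1
      exact hs.2 y hy h1
  have hFo : Fo i (e + ind {t}) = Fo i e := by
    ext p
    rw [mem_Fo, mem_Fo]
    constructor
    · rintro ⟨h1, h2, h3⟩
      rw [h.fd_iff hg] at h2
      rw [h.nd_iff h1] at h3
      exact ⟨h1, h2, h3⟩
    · rintro ⟨h1, h2, h3⟩
      rw [← h.fd_iff hg] at h2
      rw [← h.nd_iff h1] at h3
      exact ⟨h1, h2, h3⟩
  have hFd : Fd i (e + ind {t}) = Fd i e := by
    unfold Fd
    apply filter_congr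
    intro p _
    rw [h.fd_iff hg]
  have hYd : Yd i (e + ind {t}) = Yd i e := by
    unfold Yd
    apply filter_congr
    intro p _
    rw [h.fd_iff hg]
  have hYin : Yin i (e + ind {t}) = Yin i e := by
    unfold Yin
    apply filter_congr
    intro p hp
    rw [mem_lev] at hp
    rw [h.inE_iff hg hp]
  have h1 := card_pkF hg hl hgood
  have h2 := card_pkF hg hl he
  have h3 := sign_inF hg hl hgood
  have h4 := sign_inF hg hl he
  rw [hFo, hYd] at h1
  rw [hFo, hYin, hFd, ← h4] at h3
  exact ⟨hgood, by omega, h3⟩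

end add1

/-- the energy of the single farther neighbour `q` of the free element `p` is raised over the
energy of `p` -/
structure Rs (i : ℕ) (e : α → ℕ) (p q : α) : Prop where
  bq : bd i q = {p}
  v : e q = e p
  pf : p ∈ Fo i e
  c2 : ¬ fd i e q
  c3 : ∀ r, fr i q r → nd i e r

section rs

variable {e : α → ℕ} {p q : α}

lemma Rs.frpq (h : Rs i e p q) : fr i p q := by
  rw [← mem_bd, h.bq]
  exact mem_singleton_self p

lemma Rs.ci (hg : Grad α) (h : Rs i e p q) : corank p ≠ i ∧ 2 ≤ ds i q ∧ corank q ≠ i ∧ p ≠ q := by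
  have h1 := (mem_Fo.1 h.pf).1
  have h2 := fr_ds hg h.frpq
  have h3 : ds i p ≠ 0 := fun h3 => h1 (ds_eq_zero.1 h3)
  refine ⟨h1, by omega, fun h4 => ?_, ?_⟩
  · have := ds_eq_zero.2 h4
    omega
  · rintro rfl
    omega

lemma Rs.fd_iff (hg : Grad α) (h : Rs i e p q) (r : α) :
    fd i (e + ind {q}) r ↔ fd i e r ∨ r = p := by
  have hc := h.ci hg
  constructor
  · rintro ⟨s, h1, h2⟩
    rw [add_val, add_val] at h2
    by_cases hs : s = q
    · right
      have : r ∈ bd i q := mem_bd.2 (hs ▸ h1)
      rw [h.bq, mem_singleton] at this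
      exact this
    · rw [if_neg hs] at h2
      exact Or.inl ⟨s, h1, by omega⟩
  · rintro (⟨s, h1, h2⟩ | h1)
    · by_cases hr : r = q
      · exact absurd ⟨s, hr ▸ h1, hr ▸ h2⟩ h.c2
      · refine ⟨s, h1, ?_⟩
        rw [add_val, add_val, if_neg hr]
        omega
    · refine ⟨q, h1 ▸ h.frpq, ?_⟩
      have := h.v
      rw [add_val, add_val, if_pos rfl, h1, if_neg hc.2.2.2]
      omega

lemma Rs.nd_iff (hg : Grad α) (h : Rs i e p q) {r : α} :
    nd i (e + ind {q}) r ↔ nd i e r ∧ r ≠ q := by
  have hc := h.ci hg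
  constructor
  · rintro ⟨s, h1, h2⟩
    rw [add_val, add_val] at h2
    by_cases hs : s = q
    · refine ⟨h.c3 r (hs ▸ h1), ?_⟩
      rintro rfl
      have := fr_ds hg h1
      rw [hs] at this
      omega
    · rw [if_neg hs] at h2
      refine ⟨⟨s, h1, by omega⟩, ?_⟩
      rintro rfl
      rw [if_pos rfl] at h2
      have : s ∈ bd i r := mem_bd.2 h1
      rw [h.bq, mem_singleton] at this
      have h3 := h.v
      rw [this] at h2
      omega
  · rintro ⟨⟨s, h1, h2⟩, h3⟩
    refine ⟨s, h1, ?_⟩
    rw [add_val, add_val, if_neg h3]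
    omega

lemma Rs.inE_iff (hg : Grad α) (h : Rs i e p q) {y : α} (hy : corank y = i) :
    inE i (e + ind {q}) y ↔ inE i e y := by
  have hc := h.ci hg
  have hyq : y ≠ q := by
    rintro rfl
    exact hc.2.2.1 hy
  have hx : ∀ x, x ⋖ y → x ≠ q := by
    rintro x h1 rfl
    have := fr_ds hg (fr_of_below hy.ge h1)
    rw [ds_eq_zero.2 hy] at this
    omega
  rw [inE_lev hy, inE_lev hy]
  constructor
  · rintro ⟨x, h1, h2⟩
    rw [add_val, add_val, if_neg (hx x h1), if_neg hyq] at h2
    exact ⟨x, h1, by omega⟩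
  · rintro ⟨x, h1, h2⟩
    refine ⟨x, h1, ?_⟩
    rw [add_val, add_val, if_neg (hx x h1), if_neg hyq]
    omega

lemma Rs.outE_iff (hg : Grad α) (h : Rs i e p q) {y : α} (hy : corank y = i) :
    outE i (e + ind {q}) y ↔ outE i e y := by
  have hc := h.ci hg
  have hyq : y ≠ q := by
    rintro rfl
    exact hc.2.2.1 hy
  have hx : ∀ x, y ⋖ x → x ≠ q := by
    rintro x h1 rfl
    have := fr_ds hg (fr_of_above hy.le h1)
    rw [ds_eq_zero.2 hy] at this
    omega
  rw [outE_lev hy, outE_lev hy]
  constructor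
  · rintro ⟨x, h1, h2⟩
    rw [add_val, add_val, if_neg (hx x h1), if_neg hyq] at h2
    exact ⟨x, h1, by omega⟩
  · rintro ⟨x, h1, h2⟩
    refine ⟨x, h1, ?_⟩
    rw [add_val, add_val, if_neg (hx x h1), if_neg hyq]
    omega

/-- the sides of `p` and `q` -/
lemma Rs.side (hg : Grad α) (h : Rs i e p q) : corank p < i ↔ corank q < i := by
  have hc := h.ci hg
  constructor
  · intro h1
    exact (fr_above hg h.frpq h1).1
  · intro h1
    have := (fr_above' hg h.frpq h1).1
    omega

/-- the sign changes -/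
theorem Rs.data (hg : Grad α) (hl : HasLower α i) (h : Rs i e p q) (he : GoodE i e) :
    GoodE i (e + ind {q}) ∧ (pkF i (e + ind {q})).card = (pkF i e).card ∧
      (-1 : ℤ) ^ (inF i (e + ind {q})).card = - (-1) ^ (inF i e).card := by
  have hs := goodS_of_goodE hg hl he
  have hc := h.ci hg
  have hpf := mem_Fo.1 h.pf
  have hgood : GoodE i (e + ind {q}) := by
    apply goodE_of_goodS hg hl
    constructor
    · intro r hr h1
      rw [h.fd_iff hg, h.nd_iff hg] at h1
      rcases h1.1 with h2 | h2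
      · exact hs.1 r hr ⟨h2, h1.2.1⟩
      · exact hpf.2.2 (h2 ▸ h1.2.1)
    · intro y hy h1
      rw [h.inE_iff hg hy, h.outE_iff hg hy] at h1
      exact hs.2 y hy h1
  have hndq : nd i e q := ⟨p, h.frpq, by rw [h.v]⟩
  have hFo : Fo i (e + ind {q}) = insert q ((Fo i e).erase p) := by
    ext r
    rw [mem_insert, mem_erase, mem_Fo, mem_Fo, h.fd_iff hg, h.nd_iff hg]
    constructor
    · rintro ⟨h1, h2, h3⟩
      by_cases hr : r = q
      · exact Or.inl hr
      · right
        push Not at h2
        exact ⟨h2.2, h1, h2.1, fun h4 => h3 ⟨h4, hr⟩⟩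
    · rintro (rfl | ⟨h1, h2, h3, h4⟩)
      · refine ⟨hc.2.2.1, ?_, fun h1 => h1.2 rfl⟩
        rintro (h1 | h1)
        · exact h.c2 h1
        · exact hc.2.2.2 h1.symm
      · refine ⟨h2, ?_, fun h5 => h4 h5.1⟩
        rintro (h5 | h5)
        · exact h3 h5
        · exact h1 h5
  have hqF : q ∉ Fo i e := fun h1 => (mem_Fo.1 h1).2.2 hndq
  have hFd : Fd i (e + ind {q}) = insert p (Fd i e) := by
    ext r
    unfold Fd
    rw [mem_insert, mem_filter, mem_filter, h.fd_iff hg]
    constructor
    · rintro ⟨_, h1, h2 | h2⟩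
      · exact Or.inr ⟨mem_univ _, h1, h2⟩
      · exact Or.inl h2
    · rintro (h1 | ⟨_, h1, h2⟩)
      · exact ⟨mem_univ _, by rw [h1]; exact hc.1, Or.inr h1⟩
      · exact ⟨mem_univ _, h1, Or.inl h2⟩
  have hpFd : p ∉ Fd i e := by
    unfold Fd
    rw [mem_filter]
    rintro ⟨_, _, h1⟩
    exact hpf.2.1 h1
  have hYd : Yd i (e + ind {q}) = Yd i e := by
    unfold Yd
    apply filter_congr
    intro y hy
    rw [mem_lev] at hy
    rw [h.fd_iff hg]
    constructor
    · rintro (h1 | h1)
      · exact h1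
      · exact absurd (h1 ▸ hy) hc.1
    · exact Or.inl
  have hYin : Yin i (e + ind {q}) = Yin i e := by
    unfold Yin
    apply filter_congr
    intro y hy
    rw [mem_lev] at hy
    rw [h.inE_iff hg hy]
  have hcard : (Fo i (e + ind {q})).card = (Fo i e).card := by
    rw [hFo, card_insert_of_notMem (fun h1 => hqF (mem_of_mem_erase h1)), card_erase_of_mem h.pf]
    have := Finset.card_pos.2 ⟨p, h.pf⟩
    omega
  have hfil : (((Fo i (e + ind {q})).filter fun p => corank p < i)).card =
      ((Fo i e).filter fun p => corank p < i).card := by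
    rw [hFo, filter_insert, filter_erase]
    by_cases h1 : corank q < i
    · have h2 := (h.side hg).2 h1
      have h3 : p ∈ (Fo i e).filter fun p => corank p < i := mem_filter.2 ⟨h.pf, h2⟩
      rw [if_pos h1, card_insert_of_notMem, card_erase_of_mem h3]
      · have := Finset.card_pos.2 ⟨p, h3⟩
        omega
      · intro h4
        exact hqF (mem_filter.1 (mem_of_mem_erase h4)).1
    · rw [if_neg h1, erase_eq_of_notMem]
      intro h2
      exact h1 ((h.side hg).1 (mem_filter.1 h2).2)
  have h1 := card_pkF hg hl hgood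
  have h2 := card_pkF hg hl he
  have h3 := sign_inF hg hl hgood
  have h4 := sign_inF hg hl he
  rw [hcard, hYd] at h1
  refine ⟨hgood, by omega, ?_⟩
  rw [h3, h4, hfil, hYin, hFd, card_insert_of_notMem hpFd, pow_succ]
  ring

end rs

/-- a configuration is reduced if its elements next to level `i` are attached -/
lemma red_of_far (hg : Grad α) (m : Mat α i) {ε : α → ℕ}
    (h : ∀ p, ds i p = 1 → 0 < ε p → ∃ q, fr i p q ∧ 0 < ε q) : m.Red ε := by
  intro p hp
  obtain ⟨h1, h2⟩ := m.rst_prop hp
  have hd : ds i p = 1 := by unfold ds; omega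
  by_contra h3
  obtain ⟨q, h4, h5⟩ := h p hd (Nat.pos_of_ne_zero h3)
  exact h1 (att_of_fr hg hd h4 h5)

/-- there is no active diamond if the excited elements at distance two are single -/
lemma not_hasAD (hg : Grad α) {ε : α → ℕ} (h : ∀ r, ds i r = 2 → 0 < ε r → (bd i r).card = 1) :
    ¬ HasAD i ε := by
  rintro ⟨y, x, x', g, hA⟩
  have h1 := h g (hA.D.ds_g hg) (by have := hA.E.pg; omega)
  have h2 : ({x, x'} : Finset α) ⊆ bd i g := by
    intro t ht
    rw [mem_insert, mem_singleton] at ht
    rcases ht with rfl | rfl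
    · exact mem_bd.2 hA.D.hg
    · exact mem_bd.2 hA.D.hg'
  have h3 := card_le_card h2
  rw [card_pair hA.D.hne] at h3
  omega

end V5

end Pool.Gauss
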