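import Pool.Agent.Work.MP_065141_co.K.V5VarA

/-!
# The configurations of energy five and loss two without active diamond: the data, second part
-/

set_option autoImplicit false
set_option linter.unusedSectionVars false
set_option linter.unusedVariables false
open scoped Classical
open Finset Polynomial

namespace Pool.Gauss

variable {α : Type} [Fintype α] [PartialOrder α] {i : ℕ}

namespace V5

/-! ### the statuses of `cfD` -/

section cfD

variable {q q' : α}

lemma isD.evt (h : isD i q q') : q ∈ evtS α i ∧ q' ∈ evtS α i :=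
  ⟨mem_evtS.2 ⟨(mem_U1.1 h.1.1).1, (mem_U1.1 h.1.1).2, h.1.2⟩,
    mem_evtS.2 ⟨(mem_U1.1 h.2.1.1).1, (mem_U1.1 h.2.1.1).2, h.2.1.2⟩⟩

lemma isD_iff : isD i q q' ↔ q ∈ evtS α i ∧ q' ∈ evtS α i ∧ Disjoint (BB i q) (BB i q') := by
  constructor
  · intro h
    exact ⟨(isD.evt h).1, (isD.evt h).2, h.2.2⟩
  · rintro ⟨h1, h2, h3⟩
    rw [mem_evtS] at h1 h2
    exact ⟨⟨mem_U1.2 ⟨h1.1, h1.2.1⟩, h1.2.2⟩, ⟨mem_U1.2 ⟨h2.1, h2.2.1⟩, h2.2.2⟩, h3⟩

lemma mem_sup (r : α) : r ∈ ({q, q'} ∪ (bd i q ∪ bd i q') ∪ ∅ : Finset α) ↔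
    (r = q ∨ r = q') ∨ (r ∈ bd i q ∨ r ∈ bd i q') := by
  rw [union_empty, mem_union, mem_union, mem_insert, mem_singleton]

lemma cfD_val (r : α) : cfD i q q' r = if (r = q ∨ r = q') ∨ (r ∈ bd i q ∨ r ∈ bd i q') then 1
    else 0 := by
  unfold cfD ind
  simp only [mem_sup]

lemma cfD_pos {r : α} : 0 < cfD i q q' r ↔ (r = q ∨ r = q') ∨ (r ∈ bd i q ∨ r ∈ bd i q') := by
  rw [cfD_val]
  split_ifs with h
  · exact ⟨fun _ => h, fun _ => by omega⟩
  · exact ⟨fun h1 => absurd h1 (by omega), fun h1 => absurd h1 h⟩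

variable (hg : Grad α) (hl : HasLower α i) (hD : isD i q q')
include hg hD

lemma D_ds : ds i q = 2 ∧ ds i q' = 2 ∧ (∀ r, r ∈ bd i q ∨ r ∈ bd i q' → ds i r = 1) := by
  have h1 := (mem_U1.1 hD.1.1).1
  have h2 := (mem_U1.1 hD.2.1.1).1
  refine ⟨h1, h2, ?_⟩
  rintro r (h | h)
  · exact ds_of_mem_bd hg h1 h
  · exact ds_of_mem_bd hg h2 h

lemma cfD_lev {y : α} (hy : corank y = i) : cfD i q q' y = 0 := by
  obtain ⟨h1, h2, h3⟩ := D_ds hg hD
  have h0 := ds_eq_zero.2 hy
  rw [cfD_val, if_neg]
  rintro ((h | h) | h)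
  · rw [h] at h0; omega
  · rw [h] at h0; omega
  · have := h3 y h
    omega

include hl in
/-- the elements dominated by a nearer one -/
lemma cfD_nd {r : α} (hr : corank r ≠ i) :
    nd i (cfD i q q') r ↔ ¬ (r ∈ bd i q ∨ r ∈ bd i q') := by
  obtain ⟨h1, h2, h3⟩ := D_ds hg hD
  constructor
  · rintro ⟨s, hs, h4⟩ h5
    have h6 : corank s = i := bd_lev hg (h3 r h5) (mem_bd.2 hs)
    rw [cfD_lev hg hD h6] at h4
    have : 0 < cfD i q q' r := cfD_pos.2 (Or.inr h5)
    omega
  · intro h4
    by_cases h5 : r = q ∨ r = q'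
    · obtain ⟨s, hs⟩ := exists_near hg hl hr
      refine ⟨s, hs, ?_⟩
      have h6 : s ∈ bd i q ∨ s ∈ bd i q' := by
        rcases h5 with rfl | rfl
        · exact Or.inl (mem_bd.2 hs)
        · exact Or.inr (mem_bd.2 hs)
      rw [cfD_val, cfD_val, if_pos (Or.inl h5), if_pos (Or.inr h6)]
    · obtain ⟨s, hs⟩ := exists_near hg hl hr
      refine ⟨s, hs, ?_⟩
      rw [cfD_val, if_neg]
      · exact Nat.zero_le _
      · tauto

/-- the elements dominated by a farther one -/
lemma cfD_fd {r : α} : fd i (cfD i q q') r ↔ r ∈ BB i q ∨ r ∈ BB i q' := by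
  obtain ⟨h1, h2, h3⟩ := D_ds hg hD
  constructor
  · rintro ⟨s, hs, h4⟩
    have h5 : cfD i q q' s ≤ 1 := by
      rw [cfD_val]; split_ifs <;> omega
    have h6 : 0 < cfD i q q' s := by omega
    have h7 : ¬ 0 < cfD i q q' r := by omega
    rw [cfD_pos] at h6 h7
    push Not at h7
    rcases h6 with (h6 | h6) | (h6 | h6)
    · exact absurd (mem_bd.2 (h6 ▸ hs)) h7.2.1
    · exact absurd (mem_bd.2 (h6 ▸ hs)) h7.2.2
    · left
      unfold BB
      exact mem_biUnion.2 ⟨s, h6, mem_bd.2 hs⟩
    · right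
      unfold BB
      exact mem_biUnion.2 ⟨s, h6, mem_bd.2 hs⟩
  · intro h4
    have key : ∀ t, (t = q ∨ t = q') → r ∈ BB i t → fd i (cfD i q q') r := by
      intro t ht hr
      unfold BB at hr
      rw [mem_biUnion] at hr
      obtain ⟨s, hs, hs2⟩ := hr
      have h5 : s ∈ bd i q ∨ s ∈ bd i q' := by
        rcases ht with rfl | rfl
        · exact Or.inl hs
        · exact Or.inr hs
      have h6 : corank r = i := bd_lev hg (h3 s h5) hs2
      refine ⟨s, mem_bd.1 hs2, ?_⟩
      rw [cfD_lev hg hD h6]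
      exact cfD_pos.2 (Or.inr h5)
    rcases h4 with h4 | h4
    · exact key q (Or.inl rfl) h4
    · exact key q' (Or.inr rfl) h4

lemma D_BB {r : α} (h : r ∈ BB i q ∨ r ∈ BB i q') : corank r = i := by
  obtain ⟨h1, h2, h3⟩ := D_ds hg hD
  rcases h with h | h
  · exact mem_lev.1 (BB_subset hg h1 h)
  · exact mem_lev.1 (BB_subset hg h2 h)

lemma D_notBB {r : α} (h : 0 < ds i r) : ¬ (r ∈ BB i q ∨ r ∈ BB i q') := by
  intro h1
  have := ds_eq_zero.2 (D_BB hg hD h1)
  omega

include hl

/-- adding energy at an element at distance three over the two elements -/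
lemma add_T {t : α} (ht : ds i t = 3) (hb : bd i t ⊆ {q, q'}) : Add1 i (cfD i q q') t := by
  obtain ⟨h1, h2, h3⟩ := D_ds hg hD
  have hti : corank t ≠ i := ds_pos (by omega)
  have ht0 : cfD i q q' t = 0 := by
    rw [cfD_val, if_neg]
    rintro ((h | h) | h)
    · rw [h] at ht; omega
    · rw [h] at ht; omega
    · have := h3 t h
      omega
  have hb1 : ∀ r, fr i r t → cfD i q q' r = 1 := by
    intro r hr
    have h4 := hb (mem_bd.2 hr)
    rw [mem_insert, mem_singleton] at h4
    rw [cfD_val, if_pos (Or.inl h4)]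
  refine ⟨?_, ?_, ?_, ?_⟩
  · intro r hr
    rw [hb1 r hr, ht0]
    omega
  · rw [cfD_fd hg hD]
    exact D_notBB hg hD (by omega)
  · intro r hr
    have h4 := fr_ds hg hr
    rw [cfD_nd hg hl hD (ds_pos (by omega))]
    intro h5
    have := h3 r h5
    omega
  · intro _ _
    obtain ⟨s, hs⟩ := exists_near hg hl hti
    exact ⟨s, hs, by rw [hb1 s hs, ht0]; omega⟩

/-- adding energy at one of the nearer elements -/
lemma add_P {t : α} (ht : t ∈ bd i q ∨ t ∈ bd i q') : Add1 i (cfD i q q') t := by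
  obtain ⟨h1, h2, h3⟩ := D_ds hg hD
  have hd := h3 t ht
  have hti : corank t ≠ i := ds_pos (by omega)
  have ht0 : cfD i q q' t = 1 := by
    rw [cfD_val, if_pos (Or.inr ht)]
  refine ⟨?_, ?_, ?_, ?_⟩
  · intro r hr
    rw [cfD_lev hg hD (bd_lev hg hd (mem_bd.2 hr)), ht0]
    omega
  · rw [cfD_fd hg hD]
    exact D_notBB hg hD (by omega)
  · intro r hr
    have h4 := fr_ds hg hr
    rw [cfD_nd hg hl hD (ds_pos (by omega))]
    intro h5
    have := h3 r h5
    omega
  · intro _ h4
    rw [cfD_nd hg hl hD hti] at h4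
    exact absurd ht h4

/-- adding energy at an element of level `i` which is not covered -/
lemma add_Y {t : α} (ht : corank t = i) (hB : ¬ (t ∈ BB i q ∨ t ∈ BB i q')) :
    Add1 i (cfD i q q') t := by
  obtain ⟨h1, h2, h3⟩ := D_ds hg hD
  have h0 := ds_eq_zero.2 ht
  refine ⟨?_, ?_, ?_, ?_⟩
  · intro r hr
    have := fr_ds hg hr
    omega
  · rw [cfD_fd hg hD]
    exact hB
  · intro r hr
    have h4 := fr_ds hg hr
    rw [cfD_nd hg hl hD (ds_pos (by omega))]
    intro h5
    apply hB
    unfold BB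
    rcases h5 with h5 | h5
    · exact Or.inl (mem_biUnion.2 ⟨r, h5, mem_bd.2 hr⟩)
    · exact Or.inr (mem_biUnion.2 ⟨r, h5, mem_bd.2 hr⟩)
  · intro h4
    exact absurd ht h4

/-- adding energy at a second element over one of the nearer elements -/
lemma add_E {t : α} (ht : ds i t = 2) (h1 : t ≠ q) (h2 : t ≠ q') (hb : bd i t ⊆ bd i q ∪ bd i q') :
    Add1 i (cfD i q q') t := by
  obtain ⟨g1, g2, h3⟩ := D_ds hg hD
  have hti : corank t ≠ i := ds_pos (by omega)
  have ht0 : cfD i q q' t = 0 := by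
    rw [cfD_val, if_neg]
    rintro ((h | h) | h)
    · exact h1 h
    · exact h2 h
    · have := h3 t h
      omega
  have hb1 : ∀ r, fr i r t → cfD i q q' r = 1 := by
    intro r hr
    have h4 := hb (mem_bd.2 hr)
    rw [mem_union] at h4
    rw [cfD_val, if_pos (Or.inr h4)]
  refine ⟨?_, ?_, ?_, ?_⟩
  · intro r hr
    rw [hb1 r hr, ht0]
    omega
  · rw [cfD_fd hg hD]
    exact D_notBB hg hD (by omega)
  · intro r hr
    have h4 := fr_ds hg hr
    rw [cfD_nd hg hl hD (ds_pos (by omega))]
    intro h5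
    have := h3 r h5
    omega
  · intro _ _
    obtain ⟨s, hs⟩ := exists_near hg hl hti
    exact ⟨s, hs, by rw [hb1 s hs, ht0]; omega⟩

/-- raising one of the two elements -/
lemma rs_Q {p : α} (hp : bd i q = {p}) : Rs i (cfD i q q') p q := by
  obtain ⟨g1, g2, h3⟩ := D_ds hg hD
  have hpq : p ∈ bd i q := by rw [hp]; exact mem_singleton_self p
  have hpi : corank p ≠ i := by
    have := h3 p (Or.inl hpq)
    exact ds_pos (by omega)
  refine ⟨hp, ?_, ?_, ?_, ?_⟩
  · rw [cfD_val, cfD_val, if_pos (Or.inl (Or.inl rfl)), if_pos (Or.inr (Or.inl hpq))]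
  · rw [mem_Fo, cfD_fd hg hD, cfD_nd hg hl hD hpi]
    refine ⟨hpi, ?_, fun h => h (Or.inl hpq)⟩
    have := h3 p (Or.inl hpq)
    exact D_notBB hg hD (by omega)
  · rw [cfD_fd hg hD]
    exact D_notBB hg hD (by omega)
  · intro r hr
    have h4 := fr_ds hg hr
    rw [cfD_nd hg hl hD (ds_pos (by omega))]
    intro h5
    have := h3 r h5
    omega

end cfD

/-! ### covered elements of level `i` -/

section cov

variable {q q' : α}

/-- the function with energy one on a covered element of level `i` -/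
lemma cfD_add_eq (hg : Grad α) (hD : isD i q q') {y : α} (hy : corank y = i) :
    cfD i q q' + ind {y} = ind ({q, q'} ∪ (bd i q ∪ bd i q') ∪ {y}) := by
  obtain ⟨g1, g2, h3⟩ := D_ds hg hD
  have h0 := ds_eq_zero.2 hy
  funext r
  rw [add_val]
  by_cases hr : r = y
  · rw [if_pos hr, hr, cfD_lev hg hD hy, ind_mem (by simp)]
  · rw [if_neg hr, cfD_val]
    by_cases h : (r = q ∨ r = q') ∨ (r ∈ bd i q ∨ r ∈ bd i q')
    · rw [if_pos h, ind_mem]
      rw [mem_union, mem_union, mem_union, mem_insert, mem_singleton]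
      exact Or.inl h
    · rw [if_neg h, ind_notMem]
      rw [mem_union, mem_union, mem_union, mem_insert, mem_singleton, mem_singleton]
      tauto

/-- the data of the configuration with energy one on a covered element of level `i` -/
lemma data_Yin (hg : Grad α) (hl : HasLower α i) (hD : isD i q q') {y : α} (hy : y ∈ BB i q) :
    GoodE i (cfD i q q' + ind {y}) ∧
      (pkF i (cfD i q q' + ind {y})).card + 2 = (lev α i).card ∧
      (-1 : ℤ) ^ (inF i (cfD i q q' + ind {y})).card =
        (-1) ^ (low α i).card * (sg i q * sg i q' * (-1)) := by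
  have hyi : corank y = i := D_BB hg hD (Or.inl hy)
  rw [cfD_add_eq hg hD hyi]
  obtain ⟨g1, g2, h3⟩ := D_ds hg hD
  obtain ⟨⟨hq, hB⟩, ⟨hq', hB'⟩, hd⟩ := hD
  obtain ⟨p, hp, hBp, hp2⟩ := U1_bd_eq ⟨hq, hB⟩
  obtain ⟨p', hp', hBp', hp2'⟩ := U1_bd_eq ⟨hq', hB'⟩
  rw [mem_U1] at hq hq'
  have hpq : p ∈ bd i q := by rw [hp]; exact mem_singleton_self p
  have hpq' : p' ∈ bd i q' := by rw [hp']; exact mem_singleton_self p'
  have hpd := ds_of_mem_bd hg hq.1 hpq
  have hpd' := ds_of_mem_bd hg hq'.1 hpq'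
  have hd' : Disjoint (bd i p) (bd i p') := by rw [← hBp, ← hBp']; exact hd
  have hQ : ∀ t ∈ ({q, q'} : Finset α), ds i t = 2 := by
    intro t ht
    rw [mem_insert, mem_singleton] at ht
    rcases ht with rfl | rfl
    · exact hq.1
    · exact hq'.1
  have hA : ∀ t ∈ bd i q ∪ bd i q', ds i t = 1 := by
    intro t ht
    rw [mem_union] at ht
    exact h3 t ht
  have hZ : ∀ t ∈ ({y} : Finset α), corank t = i := by simpa using hyi
  have hQA : ∀ t ∈ ({q, q'} : Finset α), bd i t ⊆ bd i q ∪ bd i q' := by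
    intro t ht
    rw [mem_insert, mem_singleton] at ht
    rcases ht with rfl | rfl
    · exact subset_union_left
    · exact subset_union_right
  have hin : ∀ r t : α, t ∈ bd i r → ∀ y, y ∈ bd i t → y ∈ BB i r := by
    intro r t ht y hy
    unfold BB
    rw [mem_biUnion]
    exact ⟨t, ht, hy⟩
  have hside : ∀ p ∈ bd i q ∪ bd i q', ∀ p' ∈ bd i q ∪ bd i q', corank p < i → i < corank p' →
      ∀ t, t ∈ bd i p → t ∈ bd i p' → t ∈ ({y} : Finset α) := by
    intro a ha b hb h1 h2 t ht ht'
    exfalso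
    rw [mem_union] at ha hb
    rcases ha with ha | ha <;> rcases hb with hb | hb
    · have := side_of_mem_bd hg hq.1 ha
      have := side_of_mem_bd hg hq.1 hb
      omega
    · exact Finset.disjoint_left.1 hd (hin q a ha t ht) (hin q' b hb t ht')
    · exact Finset.disjoint_left.1 hd (hin q b hb t ht') (hin q' a ha t ht)
    · have := side_of_mem_bd hg hq'.1 ha
      have := side_of_mem_bd hg hq'.1 hb
      omega
  have hgood := cfg_good hg hl hQ hA hZ hQA hside
  have hppne : p ≠ p' := by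
    rintro rfl
    rw [disjoint_self_iff_empty] at hd'
    rw [hd'] at hp2
    simp at hp2
  have hyp : y ∈ bd i p := by rw [← hBp]; exact hy
  have hyp' : y ∉ bd i p' := Finset.disjoint_left.1 hd' hyp
  have eA : (bd i q ∪ bd i q') = {p, p'} := by rw [hp, hp']; rfl
  have hcp : (bd i p \ {y}).card = 1 := by
    rw [Finset.card_sdiff_of_subset (singleton_subset_iff.2 hyp), hp2, card_singleton]
  have hcp' : (bd i p' \ {y}) = bd i p' := by
    rw [Finset.sdiff_singleton_eq_erase, Finset.erase_eq_of_notMem hyp']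
  have hdis : Disjoint (bd i p \ {y}) (bd i p') := hd'.mono_left sdiff_subset
  have hFo : Fo i (ind ({q, q'} ∪ (bd i q ∪ bd i q') ∪ {y})) = {p'} := by
    rw [cfg_Fo hg hl hQ hA hZ hQA, eA]
    ext t
    rw [mem_filter, mem_insert, mem_singleton, Finset.disjoint_singleton_right]
    constructor
    · rintro ⟨rfl | rfl, h⟩
      · exact absurd hyp h
      · rfl
    · rintro rfl
      exact ⟨Or.inr rfl, hyp'⟩
  have hYd : (Yd i (ind ({q, q'} ∪ (bd i q ∪ bd i q') ∪ {y}))).card = 3 := by
    rw [cfg_Yd hg hQ hA hZ, eA, biUnion_insert, singleton_biUnion, union_sdiff_distrib, hcp',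
      card_union_of_disjoint hdis, hcp, hp2']
  have hYin := cfg_Yin hg hQ hA hZ
  have hFd := ind_Fd (i := i) (cfg_nclosed hg hQ hA hZ hQA)
  have hpk := card_pkF hg hl hgood
  have hsg := sign_inF hg hl hgood
  rw [hFo, hYd, card_singleton] at hpk
  refine ⟨hgood, by omega, ?_⟩
  rw [hsg, hFd, hFo, card_empty, pow_zero, hYin, eA]
  have s1 := side_of_mem_bd hg hq.1 hpq
  have s2 := side_of_mem_bd hg hq'.1 hpq'
  have npi : corank p ≠ i := ds_pos (by omega)
  have npi' : corank p' ≠ i := ds_pos (by omega)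
  have e1 : sg i q = if corank p < i then -1 else 1 := by
    unfold sg
    simp only [s1.1]
  have e2 : sg i q' = if corank p' < i then -1 else 1 := by
    unfold sg
    simp only [s2.1]
  have key : ((({p, p'} : Finset α).filter fun p => i < corank p).biUnion (bd i) \ {y}).card =
      (if corank p < i then 0 else 1) + (if corank p' < i then 0 else 2) := by
    rw [filter_insert, filter_singleton]
    by_cases a1 : corank p < i <;> by_cases a2 : corank p' < i
    · rw [if_neg (by omega), if_neg (by omega), if_pos a1, if_pos a2]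
      simp
    · rw [if_neg (by omega), if_pos (by omega), if_pos a1, if_neg a2, singleton_biUnion, hcp', hp2']
    · rw [if_pos (by omega), if_neg (by omega), if_neg a1, if_pos a2]
      rw [biUnion_insert, biUnion_empty, union_empty, hcp]
    · rw [if_pos (by omega), if_pos (by omega), if_neg a1, if_neg a2, biUnion_insert,
        singleton_biUnion, union_sdiff_distrib, hcp', card_union_of_disjoint hdis, hcp, hp2']
  rw [key, e1, e2, filter_singleton]
  by_cases a1 : corank p < i <;> by_cases a2 : corank p' < i <;> simp [a1, a2]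

end cov

/-! ### a triple and an event -/

section cfC

/-- a triple and an event without common neighbours in level `i` -/
def isC (i : ℕ) (g q : α) : Prop := g ∈ c3S α i ∧ q ∈ evtS α i ∧ Disjoint (BB i g) (BB i q)

/-- the configuration -/
noncomputable def cfC (i : ℕ) (g q : α) : α → ℕ := ind ({g, q} ∪ (bd i g ∪ bd i q) ∪ ∅)

variable {g q : α}

lemma isC_ne (h : isC i g q) : g ≠ q := by
  rintro rfl
  have h1 := (mem_c3S.1 h.1).2.1
  have h2 := (mem_evtS.1 h.2.1).2.1
  omega

/-- the sign of a triple -/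
lemma sign_tri (hg : Grad α) (h : g ∈ c3S α i) :
    (-1 : ℤ) ^ ((bd i g).filter fun p => corank p < i).card *
      (-1) ^ (((bd i g).filter fun p => i < corank p).biUnion (bd i)).card = - sg i g := by
  rw [mem_c3S] at h
  have hgi : corank g ≠ i := ds_pos (by omega)
  unfold sg
  rcases lt_or_gt_of_ne hgi with h1 | h1
  · have h2 : ((bd i g).filter fun p => corank p < i) = bd i g :=
      Finset.filter_true_of_mem fun p hp => (side_of_mem_bd hg h.1 hp).1.2 h1
    have h3 : ((bd i g).filter fun p => i < corank p) = ∅ := by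
      apply Finset.filter_false_of_mem
      intro p hp
      have := (side_of_mem_bd hg h.1 hp).1.2 h1
      omega
    rw [h2, h3, if_pos h1, h.2.1]
    simp
  · have h2 : ((bd i g).filter fun p => i < corank p) = bd i g :=
      Finset.filter_true_of_mem fun p hp => (side_of_mem_bd hg h.1 hp).2.2 h1
    have h3 : ((bd i g).filter fun p => corank p < i) = ∅ := by
      apply Finset.filter_false_of_mem
      intro p hp
      have := (side_of_mem_bd hg h.1 hp).2.2 h1
      omega
    have h4 : ((bd i g).biUnion (bd i)).card = 3 := h.2.2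
    rw [h2, h3, if_neg (by omega), h4]
    simp

/-- the data of `cfC` -/
theorem cfC_data (hg : Grad α) (hl : HasLower α i) (m : Mat α i) (hC : isC i g q)
    {n : ℕ} (hn : (lev α i).card = n) :
    cfC i g q ∈ m.TT 5 n ∧
      (-1 : ℤ) ^ (inF i (cfC i g q)).card = (-1) ^ (low α i).card * (- sg i g * sg i q) := by
  have hne := isC_ne hC
  obtain ⟨hgc, hqe, hd⟩ := hC
  have hgs := sign_tri hg hgc
  rw [mem_c3S] at hgc
  rw [mem_evtS] at hqe
  obtain ⟨p, hp⟩ := Finset.card_eq_one.1 hqe.2.1
  have hpq : p ∈ bd i q := by rw [hp]; exact mem_singleton_self p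
  have hpd := ds_of_mem_bd hg hqe.1 hpq
  have hBp : BB i q = bd i p := by unfold BB; rw [hp, singleton_biUnion]
  have hQ : ∀ t ∈ ({g, q} : Finset α), ds i t = 2 := by
    intro t ht
    rw [mem_insert, mem_singleton] at ht
    rcases ht with rfl | rfl
    · exact hgc.1
    · exact hqe.1
  have hA : ∀ t ∈ bd i g ∪ bd i q, ds i t = 1 := by
    intro t ht
    rw [mem_union] at ht
    rcases ht with h | h
    · exact ds_of_mem_bd hg hgc.1 h
    · exact ds_of_mem_bd hg hqe.1 h
  have hZ : ∀ t ∈ (∅ : Finset α), corank t = i := by simp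
  have hQA : ∀ t ∈ ({g, q} : Finset α), bd i t ⊆ bd i g ∪ bd i q := by
    intro t ht
    rw [mem_insert, mem_singleton] at ht
    rcases ht with rfl | rfl
    · exact subset_union_left
    · exact subset_union_right
  have hin : ∀ r t : α, t ∈ bd i r → ∀ y, y ∈ bd i t → y ∈ BB i r := by
    intro r t ht y hy
    unfold BB
    rw [mem_biUnion]
    exact ⟨t, ht, hy⟩
  have hside : ∀ p ∈ bd i g ∪ bd i q, ∀ p' ∈ bd i g ∪ bd i q, corank p < i → i < corank p' →
      ∀ y, y ∈ bd i p → y ∈ bd i p' → y ∈ (∅ : Finset α) := by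
    intro a ha b hb h1 h2 y hy hy'
    exfalso
    rw [mem_union] at ha hb
    rcases ha with ha | ha <;> rcases hb with hb | hb
    · have := side_of_mem_bd hg hgc.1 ha
      have := side_of_mem_bd hg hgc.1 hb
      omega
    · exact Finset.disjoint_left.1 hd (hin g a ha y hy) (hin q b hb y hy')
    · exact Finset.disjoint_left.1 hd (hin g b hb y hy') (hin q a ha y hy)
    · have := side_of_mem_bd hg hqe.1 ha
      have := side_of_mem_bd hg hqe.1 hb
      omega
  have hdat := cfg_free hg hl hQ hA hZ hQA hside rfl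
  have hgood := cfg_good hg hl hQ hA hZ hQA hside
  have hred := cfg_red hg m (L := ∅) (by intro p hp; simp at hp) hQ hA hZ (by
    intro t ht
    rw [mem_union] at ht
    rcases ht with ht | ht
    · exact Or.inl ⟨g, by simp, ht⟩
    · exact Or.inl ⟨q, by simp, ht⟩)
  have hc := card_cfg hQ hA hZ
  have hpg : p ∉ bd i g := by
    intro h
    have h1 : bd i p ⊆ BB i g := fun t ht => hin g p h t ht
    have h2 : (BB i q).card = 0 := by
      rw [Finset.card_eq_zero, ← disjoint_self_iff_empty]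
      refine Disjoint.mono_left ?_ hd
      rw [hBp]
      exact h1
    omega
  have hdA : Disjoint (bd i g) (bd i q) := by
    rw [hp, Finset.disjoint_singleton_right]
    exact hpg
  have hcA : (bd i g ∪ bd i q).card = 3 := by
    rw [card_union_of_disjoint hdA, hgc.2.1, hqe.2.1]
  have hcY : ((bd i g ∪ bd i q).biUnion (bd i)).card = 5 := by
    rw [union_biUnion, card_union_of_disjoint]
    · have h1 : ((bd i g).biUnion (bd i)).card = 3 := hgc.2.2
      have h2 : ((bd i q).biUnion (bd i)).card = 2 := hqe.2.2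
      rw [h1, h2]
    · exact hd
  constructor
  · rw [m.mem_TT]
    unfold cfC
    refine ⟨?_, hred, hgood, ?_⟩
    · rw [sum_ind, hc, hcA, card_pair hne]
      simp
    · have := hdat.1
      rw [hcY, hcA] at this
      omega
  · unfold cfC
    rw [hdat.2]
    congr 1
    rw [sign_union hg hdA, hgs, hp, sign_one hg hpd (by rw [← hBp]; exact hqe.2.2)]
    · have h1 := side_of_mem_bd hg hqe.1 hpq
      unfold sg
      simp only [h1.1]
    · exact hd

lemma cfC_val (r : α) : cfC i g q r = if (r = g ∨ r = q) ∨ (r ∈ bd i g ∨ r ∈ bd i q) then 1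
    else 0 := by
  unfold cfC ind
  simp only [mem_sup]

/-- there is no active diamond in `cfC` -/
lemma cfC_not_hasAD (hg : Grad α) (hC : isC i g q) : ¬ HasAD i (cfC i g q) := by
  rintro ⟨y, x, x', h, hA⟩
  have h1 : ∀ r, cfC i g q r ≤ 1 := by
    intro r
    rw [cfC_val]
    split_ifs <;> omega
  have h2 : cfC i g q y = 0 := by
    have h0 := ds_eq_zero.2 hA.D.hy
    have hg2 := (mem_c3S.1 hC.1).1
    have hq2 := (mem_evtS.1 hC.2.1).1
    rw [cfC_val, if_neg]
    rintro ((h | h) | (h | h))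
    · rw [h] at h0; omega
    · rw [h] at h0; omega
    · have := ds_of_mem_bd hg hg2 h
      omega
    · have := ds_of_mem_bd hg hq2 h
      omega
  have h3 := hA.E.px
  have h4 := hA.E.px'
  have h5 := h1 h
  have h6 := hA.A
  unfold Act at h6
  omega

end cfC

end V5

end Pool.Gauss
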