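import Pool.Agent.Work.MP_065141_co.K.V6ClsA

/-!
# Classification of the configurations of loss at least two and energy at most six
Part B: two excited elements next to level `i`, with an excited common farther neighbour
-/

set_option autoImplicit false
set_option linter.unusedSectionVars false
set_option linter.unusedVariables false
open scoped Classical
open Finset Polynomial

namespace Pool.Gauss

variable {α : Type} [Fintype α] [PartialOrder α] {i : ℕ}

/-- the data of the case -/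
structure DDia (i : ℕ) (ε : α → ℕ) (y y0 y' x x' g : α) : Prop where
  dg : ds i g = 2
  bg : bd i g = {x, x'}
  hne : x ≠ x'
  bx : bd i x = {y, y0}
  bx' : bd i x' = {y0, y'}
  n1 : y ≠ y0
  n2 : y0 ≠ y'
  n3 : y ≠ y'
  x0 : 0 < ε x
  x0' : 0 < ε x'
  g0 : 0 < ε g
  ax : ∀ p, ds i p = 1 → 0 < ε p → p = x ∨ p = x'
  mx : ∀ w, bd i w = {x, x'} → ds i w = 2 → ε w ≤ ε g
  good : GoodE i ε
  e6 : ∑ p, ε p ≤ 6
  ls : (Fo i ε).card + 2 ≤ (Yd i ε).card

namespace DDia

variable {ε : α → ℕ} {y y0 y' x x' g : α}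

lemma symm (D : DDia i ε y y0 y' x x' g) : DDia i ε y' y0 y x' x g where
  dg := D.dg
  bg := by rw [D.bg, pair_comm]
  hne := D.hne.symm
  bx := by rw [D.bx', pair_comm]
  bx' := by rw [D.bx, pair_comm]
  n1 := D.n2.symm
  n2 := D.n1.symm
  n3 := D.n3.symm
  x0 := D.x0'
  x0' := D.x0
  g0 := D.g0
  ax := fun p h1 h2 => (D.ax p h1 h2).symm
  mx := fun w h1 h2 => D.mx w (by rw [h1, pair_comm]) h2
  good := D.good
  e6 := D.e6
  ls := D.ls

variable (hB : PB α i) (D : DDia i ε y y0 y' x x' g)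
include hB D

lemma dx : ds i x = 1 := ds_of_mem_bd hB.hg D.dg (by rw [D.bg]; simp)

lemma dx' : ds i x' = 1 := D.symm.dx hB

lemma cy : corank y = i := bd_lev hB.hg (D.dx hB) (by rw [D.bx]; simp)

lemma cy0 : corank y0 = i := bd_lev hB.hg (D.dx hB) (by rw [D.bx]; simp)

lemma cy' : corank y' = i := D.symm.cy hB

lemma sum1 : ε y + ε y0 + ε y' + ε x + ε x' + ε g ≤ 6 := by
  have h1 := ds_eq_zero.2 (D.cy hB)
  have h2 := ds_eq_zero.2 (D.cy0 hB)
  have h3 := ds_eq_zero.2 (D.cy' hB)
  have h4 := D.dx hB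
  have h5 := D.dx' hB
  have h6 := D.dg
  have := lsum (i := i) D.e6 [y, y0, y'] [x, x'] [g] [] (by simp [D.n1, D.n2, D.n3])
    (by simp [D.hne]) (by simp) (by simp) (by simp [h1, h2, h3]) (by simp [h4, h5]) (by simp [h6])
    (by simp)
  simp only [List.map_cons, List.map_nil, List.sum_cons, List.sum_nil] at this
  omega

lemma sum2 {w : α} (hw : ds i w = 2) (hwg : w ≠ g) :
    ε y + ε y0 + ε y' + ε x + ε x' + ε g + ε w ≤ 6 := by
  have h1 := ds_eq_zero.2 (D.cy hB)
  have h2 := ds_eq_zero.2 (D.cy0 hB)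
  have h3 := ds_eq_zero.2 (D.cy' hB)
  have h4 := D.dx hB
  have h5 := D.dx' hB
  have h6 := D.dg
  have := lsum (i := i) D.e6 [y, y0, y'] [x, x'] [g, w] [] (by simp [D.n1, D.n2, D.n3])
    (by simp [D.hne]) (by simp [hwg.symm]) (by simp) (by simp [h1, h2, h3]) (by simp [h4, h5])
    (by simp [h6, hw]) (by simp)
  simp only [List.map_cons, List.map_nil, List.sum_cons, List.sum_nil] at this
  omega

lemma sum3 {v : α} (hv : ds i v = 3) :
    ε y + ε y0 + ε y' + ε x + ε x' + ε g + ε v ≤ 6 := by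
  have h1 := ds_eq_zero.2 (D.cy hB)
  have h2 := ds_eq_zero.2 (D.cy0 hB)
  have h3 := ds_eq_zero.2 (D.cy' hB)
  have h4 := D.dx hB
  have h5 := D.dx' hB
  have h6 := D.dg
  have := lsum (i := i) D.e6 [y, y0, y'] [x, x'] [g] [v] (by simp [D.n1, D.n2, D.n3])
    (by simp [D.hne]) (by simp) (by simp) (by simp [h1, h2, h3]) (by simp [h4, h5])
    (by simp [h6]) (by simp [hv])
  simp only [List.map_cons, List.map_nil, List.sum_cons, List.sum_nil] at this
  omega

lemma sum4 {w v : α} (hw : ds i w = 2) (hwg : w ≠ g) (hv : ds i v = 3) :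
    ε y + ε y0 + ε y' + ε x + ε x' + ε g + ε w + ε v ≤ 6 := by
  have h1 := ds_eq_zero.2 (D.cy hB)
  have h2 := ds_eq_zero.2 (D.cy0 hB)
  have h3 := ds_eq_zero.2 (D.cy' hB)
  have h4 := D.dx hB
  have h5 := D.dx' hB
  have h6 := D.dg
  have := lsum (i := i) D.e6 [y, y0, y'] [x, x'] [g, w] [v] (by simp [D.n1, D.n2, D.n3])
    (by simp [D.hne]) (by simp [hwg.symm]) (by simp) (by simp [h1, h2, h3]) (by simp [h4, h5])
    (by simp [h6, hw]) (by simp [hv])
  simp only [List.map_cons, List.map_nil, List.sum_cons, List.sum_nil] at this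
  omega

lemma Yy : y ∈ Yd i ε ↔ ε y < ε x := by
  rw [mem_Yd' hB.hg (D.cy hB)]
  constructor
  · rintro ⟨p, h1, h2, h3, h4⟩
    rcases D.ax p h1 h2 with rfl | rfl
    · exact h4
    · rw [D.bx', mem_insert, mem_singleton] at h3
      rcases h3 with h3 | h3
      · exact absurd h3 D.n1
      · exact absurd h3 D.n3
  · intro h
    exact ⟨x, D.dx hB, D.x0, by rw [D.bx]; simp, h⟩

lemma Yy' : y' ∈ Yd i ε ↔ ε y' < ε x' := D.symm.Yy hB

lemma Yy0 : y0 ∈ Yd i ε ↔ ε y0 < ε x ∨ ε y0 < ε x' := by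
  rw [mem_Yd' hB.hg (D.cy0 hB)]
  constructor
  · rintro ⟨p, h1, h2, h3, h4⟩
    rcases D.ax p h1 h2 with rfl | rfl
    · exact Or.inl h4
    · exact Or.inr h4
  · rintro (h | h)
    · exact ⟨x, D.dx hB, D.x0, by rw [D.bx]; simp, h⟩
    · exact ⟨x', D.dx' hB, D.x0', by rw [D.bx']; simp, h⟩

lemma Ysub : Yd i ε ⊆ {y, y0, y'} := by
  intro t ht
  obtain ⟨p, h1, h2, h3, h4⟩ := exists_dom hB.hg ht
  simp only [mem_insert, mem_singleton]
  rcases D.ax p h1 h2 with rfl | rfl
  · rw [D.bx, mem_insert, mem_singleton] at h3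
    tauto
  · rw [D.bx', mem_insert, mem_singleton] at h3
    tauto

lemma c3 : ({y, y0, y'} : Finset α).card = 3 := by
  rw [card_insert_of_notMem, card_pair D.n2]
  simp [D.n1, D.n3]

lemma Ycard : (Yd i ε).card ≤ 3 := by
  have := card_le_card (D.Ysub hB)
  rwa [D.c3 hB] at this

lemma Fcard : (Fo i ε).card ≤ 1 := by
  have := D.Ycard hB
  have := D.ls
  omega

/-- if there is a free element then all three elements are dominated -/
lemma Yall (h : (Fo i ε).Nonempty) : ε y < ε x ∧ ε y' < ε x' ∧ (ε y0 < ε x ∨ ε y0 < ε x') := by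
  have h1 := Finset.card_pos.2 h
  have h2 := D.ls
  have h3 : Yd i ε = {y, y0, y'} := by
    apply Finset.eq_of_subset_of_card_le (D.Ysub hB)
    rw [D.c3 hB]
    omega
  refine ⟨(D.Yy hB).1 (by rw [h3]; simp), (D.Yy' hB).1 (by rw [h3]; simp),
    (D.Yy0 hB).1 (by rw [h3]; simp)⟩

lemma Feq {f f' : α} (h : f ∈ Fo i ε) (h' : f' ∈ Fo i ε) : f = f' :=
  Finset.card_le_one.1 (D.Fcard hB) f h f' h'

lemma bdw {w : α} (hw : ds i w = 2) (h0 : 0 < ε w) :
    bd i w = {x} ∨ bd i w = {x'} ∨ bd i w = {x, x'} := by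
  apply bd_of_sub_pair hB (by omega)
  intro t ht
  have h1 := bd_sub_Ax hB D.good hw h0 ht
  rw [mem_Ax] at h1
  rw [mem_insert, mem_singleton]
  exact D.ax t h1.1 h1.2

lemma ndx : nd i ε x ↔ ε x ≤ ε y ∨ ε x ≤ ε y0 := nd_pair D.bx

lemma ndx' : nd i ε x' ↔ ε x' ≤ ε y0 ∨ ε x' ≤ ε y' := nd_pair D.bx'

lemma ndg : nd i ε g ↔ ε g ≤ ε x ∨ ε g ≤ ε x' := nd_pair D.bg

/-- an excited element which is not dominated by nearer ones, at distance two, of energy at least
two, is free -/
lemma Fo_two {w : α} (hw : ds i w = 2) (h2 : 2 ≤ ε w) (hnd : ¬ nd i ε w) : w ∈ Fo i ε := by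
  rw [mem_Fo]
  refine ⟨ds_pos (by omega), ?_, hnd⟩
  rintro ⟨v, hv, hv2⟩
  have h3 := fr_ds hB.hg hv
  have h4 := D.x0
  have h5 := D.x0'
  have h6 := D.g0
  by_cases hwg : w = g
  · rw [hwg] at hw h2 hv2
    have := D.sum3 hB (v := v) (by rw [h3, hwg, hw])
    omega
  · have := D.sum4 hB (v := v) hw hwg (by omega)
    omega

lemma Fo_one (h : ¬ fd i ε x) (hnd : ¬ nd i ε x) : x ∈ Fo i ε :=
  mem_Fo.2 ⟨ds_pos (by rw [D.dx hB]; omega), h, hnd⟩

/-- the active diamond -/
lemma mkAD (ey : ε y < ε x) (ey' : ε y' < ε x') (wx : ∀ w, fr i x w → w ≠ g → ε w ≤ ε x)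
    (wx' : ∀ w, fr i x' w → w ≠ g → ε w ≤ ε x') (vg : ∀ v, fr i g v → ε v ≤ ε g)
    (vy : ∀ v, fr i g v → ε v ≤ ε y0 + 1) (hA : Act x x' y0 g ε) : HasAD i ε := by
  have h1 : fr i y0 x := mem_bd.1 (by rw [D.bx]; simp)
  have h2 : fr i y0 x' := mem_bd.1 (by rw [D.bx']; simp)
  have h3 : fr i x g := mem_bd.1 (by rw [D.bg]; simp)
  have h4 : fr i x' g := mem_bd.1 (by rw [D.bg]; simp)
  refine ⟨y0, x, x', g, ⟨D.cy0 hB, h1, h2, D.hne, h3, h4, ?_⟩,
    ⟨D.x0, D.x0', D.g0, ?_, wx, wx', ?_, ?_, vg, vy⟩, hA⟩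
  · intro p hp
    have := mem_bd.2 hp
    rw [D.bg, mem_insert, mem_singleton] at this
    exact this
  · intro z hz hzx hzx'
    by_contra h5
    have h6 := fr_ds hB.hg hz
    rw [ds_eq_zero.2 (D.cy0 hB)] at h6
    rcases D.ax z (by omega) (by omega) with h7 | h7
    · exact hzx h7
    · exact hzx' h7
  · intro t ht hty
    have := mem_bd.2 ht
    rw [D.bx, mem_insert, mem_singleton] at this
    rcases this with rfl | h5
    · exact ey
    · exact absurd h5 hty
  · intro t ht hty
    have := mem_bd.2 ht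
    rw [D.bx', mem_insert, mem_singleton] at this
    rcases this with h5 | rfl
    · exact absurd h5 hty
    · exact ey'

/-- both elements are rising and `g` is larger than `x` but not than `x'` -/
lemma caseIc (h1 : ¬ nd i ε x) (h2 : ¬ nd i ε x') (h3 : ε x < ε g) (h4 : ε g ≤ ε x') :
    HasAD i ε := by
  rw [D.ndx hB] at h1
  rw [D.ndx' hB] at h2
  push Not at h1 h2
  have h5 := D.x0
  have h6 := D.x0'
  have hfd : ¬ fd i ε x' := by
    rintro ⟨w, hw, hlt⟩
    have h7 := fr_ds hB.hg hw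
    have h8 := D.dx' hB
    have hwg : w ≠ g := by
      rintro rfl
      omega
    have := D.sum2 hB (w := w) (by omega) hwg
    omega
  have hndg : nd i ε g := (D.ndg hB).2 (Or.inr h4)
  have hvg := not_fd_of_nd hB.hg hB.hl D.good (ds_pos (by rw [D.dg]; omega)) hndg
  apply D.mkAD hB h1.1 h2.2
  · intro w hw hwg
    by_contra hlt
    have h7 := fr_ds hB.hg hw
    have h8 := D.dx hB
    have := D.sum2 hB (w := w) (by omega) hwg
    omega
  · intro w hw hwg
    exact not_fd_iff.1 hfd w hw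
  · exact hvg
  · intro v hv
    by_contra hlt
    have h7 := fr_ds hB.hg hv
    have h8 := D.dg
    have := D.sum3 hB (v := v) (by omega)
    omega
  · unfold Act
    omega

/-- both elements are rising -/
lemma caseI (h1 : ¬ nd i ε x) (h2 : ¬ nd i ε x') :
    HasAD i ε ∨ ∃ g v, isV i g v ∧ ε = cfV i g v := by
  have h5 := D.x0
  have h6 := D.x0'
  have h7 := D.g0
  by_cases h3 : ε x < ε g <;> by_cases h4 : ε x' < ε g
  · -- `g` is free
    have h1' := h1
    have h2' := h2
    rw [D.ndx hB] at h1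
    rw [D.ndx' hB] at h2
    push Not at h1 h2
    have hg : g ∈ Fo i ε := by
      apply D.Fo_two hB D.dg (by omega)
      rw [D.ndg hB]
      omega
    have hwx : ∀ w, ds i w = 2 → w ≠ g → ε x < ε w → ε x' < ε w → False := by
      intro w hw hwg hlt hlt'
      apply hwg
      apply D.Feq hB _ hg
      apply D.Fo_two hB hw (by omega)
      rcases D.bdw hB hw (by omega) with hb | hb | hb
      · rw [nd_single hb]
        omega
      · rw [nd_single hb]
        omega
      · rw [nd_pair hb]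
        omega
    have hvg : ∀ v, fr i g v → ε v ≤ ε g := by
      rw [mem_Fo] at hg
      exact not_fd_iff.1 hg.2.1
    have hw1 : ∀ w, fr i x w → w ≠ g → ε w ≤ ε x := by
      intro w hw hwg
      by_contra hlt
      have d1 := fr_ds hB.hg hw
      have d2 := D.dx hB
      have s1 := D.sum2 hB (w := w) (by omega) hwg
      have s2 : ¬ ε x' < ε w := fun hc => hwx w (by omega) hwg (by omega) hc
      omega
    have hw2 : ∀ w, fr i x' w → w ≠ g → ε w ≤ ε x' := by
      intro w hw hwg
      by_contra hlt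
      have d1 := fr_ds hB.hg hw
      have d2 := D.dx' hB
      have s1 := D.sum2 hB (w := w) (by omega) hwg
      have s2 : ¬ ε x < ε w := fun hc => hwx w (by omega) hwg hc (by omega)
      omega
    by_cases hvy : ∀ v, fr i g v → ε v ≤ ε y0 + 1
    · left
      apply D.mkAD hB h1.1 h2.2 hw1 hw2 hvg hvy
      unfold Act
      omega
    · right
      push Not at hvy
      obtain ⟨v, hv, hlt⟩ := hvy
      have hD : Dia i y0 x x' g := by
        refine ⟨D.cy0 hB, mem_bd.1 (by rw [D.bx]; simp), mem_bd.1 (by rw [D.bx']; simp), D.hne,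
          mem_bd.1 (by rw [D.bg]; simp), mem_bd.1 (by rw [D.bg]; simp), ?_⟩
        intro p hp
        have := mem_bd.2 hp
        rw [D.bg, mem_insert, mem_singleton] at this
        exact this
      obtain ⟨e1, e2⟩ := survivor_eq hB.hg hB.hl hD D.good D.e6 h5 h6 hvg hv hlt
      refine ⟨g, v, ⟨?_, ?_, e2⟩, e1⟩
      · rw [mem_U2, D.bg, card_pair D.hne]
        exact ⟨D.dg, rfl⟩
      · unfold BB
        rw [D.bg, biUnion_insert, singleton_biUnion, D.bx, D.bx']
        have : ({y, y0} ∪ {y0, y'} : Finset α) = {y, y0, y'} := by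
          ext t
          simp only [mem_union, mem_insert, mem_singleton]
          tauto
        rw [this, D.c3 hB]
  · exact Or.inl (D.caseIc hB h1 h2 h3 (by omega))
  · exact Or.inl (D.symm.caseIc hB h2 h1 h4 (by omega))
  · -- two free elements
    exfalso
    have key : ∀ {y y0 y' x x' : α} (D : DDia i ε y y0 y' x x' g), ¬ nd i ε x → ¬ ε x < ε g →
        ∃ f ∈ Fo i ε, f = x ∨ (ds i f = 2 ∧ bd i f = {x}) := by
      intro y y0 y' x x' D h1 h3
      by_cases hfd : fd i ε x
      · obtain ⟨w, hw, hlt⟩ := hfd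
        have d1 := fr_ds hB.hg hw
        have d2 := D.dx hB
        have h8 := D.x0
        have hxw : x ∈ bd i w := mem_bd.2 hw
        rcases D.bdw hB (w := w) (by omega) (by omega) with hb | hb | hb
        · refine ⟨w, ?_, Or.inr ⟨by omega, hb⟩⟩
          apply D.Fo_two hB (by omega) (by omega)
          rw [nd_single hb]
          omega
        · rw [hb, mem_singleton] at hxw
          exact absurd hxw D.hne
        · have := D.mx w hb (by omega)
          omega
      · exact ⟨x, D.Fo_one hB hfd h1, Or.inl rfl⟩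
    obtain ⟨f, hf, hf'⟩ := key D h1 h3
    obtain ⟨f2, hf2, hf2'⟩ := key D.symm h2 h4
    have he := D.Feq hB hf hf2
    have d1 := D.dx hB
    have d2 := D.dx' hB
    rw [← he] at hf2'
    rcases hf' with h8 | ⟨h8, h9⟩ <;> rcases hf2' with h10 | ⟨h10, h11⟩
    · exact D.hne (h8.symm.trans h10)
    · rw [h8] at h10
      omega
    · rw [h10] at h8
      omega
    · rw [h9] at h11
      exact D.hne (Finset.singleton_injective h11)

/-- exactly one element is rising -/
lemma caseII (h1 : ¬ nd i ε x) (h2 : nd i ε x') : HasAD i ε := by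
  have h1' := h1
  have h2' := h2
  rw [D.ndx hB] at h1
  rw [D.ndx' hB] at h2
  push Not at h1
  have h5 := D.x0
  have h6 := D.x0'
  have h7 := D.g0
  -- a free element
  have hF : (Fo i ε).Nonempty := by
    by_cases hfd : fd i ε x
    · obtain ⟨w, hw, hlt⟩ := hfd
      have d1 := fr_ds hB.hg hw
      have d2 := D.dx hB
      refine ⟨w, D.Fo_two hB (by omega) (by omega) ?_⟩
      have hxw : x ∈ bd i w := mem_bd.2 hw
      rcases D.bdw hB (w := w) (by omega) (by omega) with hb | hb | hb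
      · rw [nd_single hb]
        omega
      · rw [hb, mem_singleton] at hxw
        exact absurd hxw D.hne
      · rw [nd_pair hb]
        intro h8
        have s1 := D.sum1 hB
        have s2 := D.mx w hb (by omega)
        omega
    · exact ⟨x, D.Fo_one hB hfd h1'⟩
  obtain ⟨a1, a2, a3⟩ := D.Yall hB hF
  have b1 : ε x' ≤ ε y0 := by omega
  have b2 : ε y0 < ε x := by omega
  have hx' := not_fd_of_nd hB.hg hB.hl D.good (ds_pos (by rw [D.dx' hB]; omega)) h2'
  have hgx' : ε g ≤ ε x' := hx' g (mem_bd.1 (by rw [D.bg]; simp))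
  have hndg : nd i ε g := (D.ndg hB).2 (Or.inr hgx')
  have hvg := not_fd_of_nd hB.hg hB.hl D.good (ds_pos (by rw [D.dg]; omega)) hndg
  apply D.mkAD hB a1 a2
  · intro w hw hwg
    by_contra hlt
    have d1 := fr_ds hB.hg hw
    have d2 := D.dx hB
    have := D.sum2 hB (w := w) (by omega) hwg
    omega
  · intro w hw hwg
    exact hx' w hw
  · exact hvg
  · intro v hv
    have := hvg v hv
    omega
  · unfold Act
    omega

/-- no element is rising -/
lemma caseIV (h1 : nd i ε x) (h2 : nd i ε x') : HasAD i ε := by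
  have h1' := h1
  have h2' := h2
  rw [D.ndx hB] at h1
  rw [D.ndx' hB] at h2
  have h5 := D.x0
  have h6 := D.x0'
  have h7 := D.g0
  have s1 := D.sum1 hB
  have hF : ¬ (Fo i ε).Nonempty := by
    intro hF
    obtain ⟨a1, a2, a3⟩ := D.Yall hB hF
    omega
  rw [Finset.not_nonempty_iff_eq_empty] at hF
  have hls := D.ls
  rw [hF, card_empty] at hls
  have hx := not_fd_of_nd hB.hg hB.hl D.good (ds_pos (by rw [D.dx hB]; omega)) h1'
  have hx' := not_fd_of_nd hB.hg hB.hl D.good (ds_pos (by rw [D.dx' hB]; omega)) h2'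
  have hgx : ε g ≤ ε x := hx g (mem_bd.1 (by rw [D.bg]; simp))
  have hgx' : ε g ≤ ε x' := hx' g (mem_bd.1 (by rw [D.bg]; simp))
  have hndg : nd i ε g := (D.ndg hB).2 (Or.inr hgx')
  have hvg := not_fd_of_nd hB.hg hB.hl D.good (ds_pos (by rw [D.dg]; omega)) hndg
  -- two of the three elements are dominated
  have two : ∀ a b : α, ({a, b} : Finset α) ⊆ {y, y0, y'} → a ≠ b → a ∉ Yd i ε → b ∉ Yd i ε →
      False := by
    intro a b hab hne ha hb
    have h8 : Yd i ε ⊆ ({y, y0, y'} : Finset α) \ {a, b} := by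
      intro t ht
      rw [mem_sdiff]
      refine ⟨D.Ysub hB ht, ?_⟩
      rw [mem_insert, mem_singleton]
      rintro (rfl | rfl)
      · exact ha ht
      · exact hb ht
    have h9 := card_le_card h8
    rw [card_sdiff_of_subset hab, D.c3 hB, card_pair hne] at h9
    omega
  have hy := D.Yy hB
  have hy' := D.Yy' hB
  have hy0 := D.Yy0 hB
  have p1 : ε y < ε x ∧ ε y' < ε x' := by
    constructor
    · by_contra h8
      have h9 : y ∉ Yd i ε := fun hc => h8 (hy.1 hc)
      have h10 : y0 ∈ Yd i ε := by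
        by_contra hc
        exact two y y0 (by intro t; simp only [mem_insert, mem_singleton]; tauto) D.n1 h9 hc
      have h11 : y' ∈ Yd i ε := by
        by_contra hc
        exact two y y' (by intro t; simp only [mem_insert, mem_singleton]; tauto) D.n3 h9 hc
      rw [hy0] at h10
      rw [hy'] at h11
      omega
    · by_contra h8
      have h9 : y' ∉ Yd i ε := fun hc => h8 (hy'.1 hc)
      have h10 : y0 ∈ Yd i ε := by
        by_contra hc
        exact two y0 y' (by intro t; simp only [mem_insert, mem_singleton]; tauto) D.n2 hc h9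
      have h11 : y ∈ Yd i ε := by
        by_contra hc
        exact two y y' (by intro t; simp only [mem_insert, mem_singleton]; tauto) D.n3 hc h9
      rw [hy0] at h10
      rw [hy] at h11
      omega
  apply D.mkAD hB p1.1 p1.2
  · intro w hw _
    exact hx w hw
  · intro w hw _
    exact hx' w hw
  · exact hvg
  · intro v hv
    have := hvg v hv
    omega
  · unfold Act
    omega

theorem cls : HasAD i ε ∨ ∃ g v, isV i g v ∧ ε = cfV i g v := by
  by_cases h1 : nd i ε x <;> by_cases h2 : nd i ε x'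
  · exact Or.inl (D.caseIV hB h1 h2)
  · exact Or.inl (D.symm.caseII hB h2 h1)
  · exact Or.inl (D.caseII hB h1 h2)
  · exact D.caseI hB h1 h2

end DDia

/-- **two excited elements next to level `i` with an excited common farther neighbour** -/
theorem clsDia {m : Mat α i} {ε : α → ℕ} (hB : PB α i) (hF : m.FullX ∅) (h : Cf m ε)
    (ha : (Ax i ε).card = 2) (hex : ∃ q ∈ Bx i ε, (bd i q).card = 2) :
    HasAD i ε ∨ ∃ g v, isV i g v ∧ ε = cfV i g v := by
  obtain ⟨q, hq, hq2⟩ := hex
  obtain ⟨g, hgT, hmax⟩ := Finset.exists_max_image ((Bx i ε).filter fun q => (bd i q).card = 2) ε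
    ⟨q, mem_filter.2 ⟨hq, hq2⟩⟩
  rw [mem_filter, mem_Bx] at hgT
  obtain ⟨⟨dg, g0⟩, hg2⟩ := hgT
  have hAx : bd i g = Ax i ε := by
    apply Finset.eq_of_subset_of_card_le (bd_sub_Ax hB h.good dg g0)
    omega
  obtain ⟨x, x', hne, hbg⟩ := Finset.card_eq_two.1 hg2
  have hax : ∀ p, ds i p = 1 → 0 < ε p → p = x ∨ p = x' := by
    intro p h1 h2
    have : p ∈ bd i g := by
      rw [hAx, mem_Ax]
      exact ⟨h1, h2⟩
    rw [hbg, mem_insert, mem_singleton] at this
    exact this
  have hBB : BB i g = NA i ε := by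
    unfold BB NA
    rw [hAx]
  obtain ⟨y, y0, y', b1, b2, n1, n2, n3⟩ := diamond_shape hB dg hbg hne (by
    rw [hBB]
    exact h.NA3 hB)
  have hx : x ∈ Ax i ε := by rw [← hAx, hbg]; simp
  have hx' : x' ∈ Ax i ε := by rw [← hAx, hbg]; simp
  rw [mem_Ax] at hx hx'
  have D : DDia i ε y y0 y' x x' g :=
    { dg := dg, bg := hbg, hne := hne, bx := b1, bx' := b2, n1 := n1, n2 := n2, n3 := n3,
      x0 := hx.2, x0' := hx'.2, g0 := g0, ax := hax,
      mx := by
        intro w hw hw2
        by_cases h0 : 0 < ε w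
        · apply hmax w
          rw [mem_filter, mem_Bx]
          exact ⟨⟨hw2, h0⟩, by rw [hw, card_pair hne]⟩
        · omega
      good := h.good, e6 := h.e6, ls := h.ls }
  exact D.cls hB

end Pool.Gauss
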