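import Pool.Agent.Work.MP_065141_co.K.V5VarB
import Pool.Agent.Work.MP_065141_co.K.V6ClsB

/-!
# The configurations of energy five and loss two without active diamond: classification
-/

set_option autoImplicit false
set_option linter.unusedSectionVars false
set_option linter.unusedVariables false
open scoped Classical
open Finset Polynomial

namespace Pool.Gauss

variable {α : Type} [Fintype α] [PartialOrder α] {i : ℕ}

namespace V5

/-! ### the variants of `cfD` -/

/-- the elements which can get the fifth unit of energy, except second elements over the same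
element -/
noncomputable def vD (i : ℕ) (q q' : α) : Finset α := univ.filter fun t =>
  corank t = i ∨ (t ∈ bd i q ∨ t ∈ bd i q') ∨ (t = q ∨ t = q') ∨
    (ds i t = 3 ∧ bd i t ⊆ {q, q'})

/-- second elements over the same element -/
noncomputable def vE (i : ℕ) (q : α) : Finset α := univ.filter fun t =>
  ds i t = 2 ∧ t ≠ q ∧ bd i t = bd i q

/-- the sign of a variant -/
noncomputable def sV (i : ℕ) (q q' t : α) : ℤ :=
  if (t ∈ BB i q ∨ t ∈ BB i q') ∨ (t = q ∨ t = q') then -1 else 1

lemma mem_vD {q q' t : α} : t ∈ vD i q q' ↔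
    corank t = i ∨ (t ∈ bd i q ∨ t ∈ bd i q') ∨ (t = q ∨ t = q') ∨
    (ds i t = 3 ∧ bd i t ⊆ {q, q'}) := by
  unfold vD
  rw [mem_filter]
  simp

lemma mem_vE {q t : α} : t ∈ vE i q ↔ ds i t = 2 ∧ t ≠ q ∧ bd i t = bd i q := by
  unfold vE
  rw [mem_filter]
  simp

lemma vD_comm (q q' : α) : vD i q q' = vD i q' q := by
  ext t
  rw [mem_vD, mem_vD, pair_comm q q']
  tauto

lemma sV_comm (q q' t : α) : sV i q q' t = sV i q' q t := by
  unfold sV
  apply if_congr _ rfl rfl
  tauto

section var

variable {q q' t : α}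

lemma var_sum (hg : Grad α) (hl : HasLower α i) (m : Mat α i) (hD : isD i q q') :
    ∑ p, (cfD i q q' + ind {t}) p = 5 := by
  have h1 := (m.mem_TT.1 (cfD_data hg hl m hD rfl).1).1
  simp only [Pi.add_apply]
  rw [Finset.sum_add_distrib, h1, sum_ind, card_singleton]

lemma var_red (hg : Grad α) (m : Mat α i) (hD : isD i q q')
    (h1 : ds i t = 1 → t ∈ bd i q ∨ t ∈ bd i q') : m.Red (cfD i q q' + ind {t}) := by
  apply red_of_far hg
  intro p hp h0
  have key : p ∈ bd i q ∨ p ∈ bd i q' := by
    rw [add_val] at h0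
    by_cases hpt : p = t
    · rw [hpt]
      exact h1 (hpt ▸ hp)
    · rw [if_neg hpt, add_zero, cfD_pos] at h0
      obtain ⟨g1, g2, h3⟩ := D_ds hg hD
      rcases h0 with (h | h) | h
      · rw [h] at hp; omega
      · rw [h] at hp; omega
      · exact h
  rcases key with key | key
  · refine ⟨q, mem_bd.1 key, ?_⟩
    rw [add_val]
    have : 0 < cfD i q q' q := cfD_pos.2 (Or.inl (Or.inl rfl))
    omega
  · refine ⟨q', mem_bd.1 key, ?_⟩
    rw [add_val]
    have : 0 < cfD i q q' q' := cfD_pos.2 (Or.inl (Or.inr rfl))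
    omega

lemma var_not_hasAD (hg : Grad α) (hD : isD i q q')
    (h2 : ds i t = 2 → (bd i t).card = 1) : ¬ HasAD i (cfD i q q' + ind {t}) := by
  apply not_hasAD hg
  intro r hr h0
  rw [add_val] at h0
  by_cases hrt : r = t
  · rw [hrt]
    exact h2 (hrt ▸ hr)
  · rw [if_neg hrt, add_zero, cfD_pos] at h0
    obtain ⟨g1, g2, h3⟩ := D_ds hg hD
    rcases h0 with (h | h) | h
    · rw [h]; exact (mem_U1.1 hD.1.1).2
    · rw [h]; exact (mem_U1.1 hD.2.1.1).2
    · have := h3 r h
      omega

lemma cfD_not_hasAD (hg : Grad α) (hD : isD i q q') : ¬ HasAD i (cfD i q q') := by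
  apply not_hasAD hg
  intro r hr h0
  rw [cfD_pos] at h0
  obtain ⟨g1, g2, h3⟩ := D_ds hg hD
  rcases h0 with (h | h) | h
  · rw [h]; exact (mem_U1.1 hD.1.1).2
  · rw [h]; exact (mem_U1.1 hD.2.1.1).2
  · have := h3 r h
    omega

/-- good, loss two, sign -/
lemma vD_aux (hg : Grad α) (hl : HasLower α i) (m : Mat α i) (hD : isD i q q')
    (ht : t ∈ vD i q q') : GoodE i (cfD i q q' + ind {t}) ∧
      (pkF i (cfD i q q' + ind {t})).card + 2 = (lev α i).card ∧
      (-1 : ℤ) ^ (inF i (cfD i q q' + ind {t})).card =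
        (-1) ^ (low α i).card * (sg i q * sg i q' * sV i q q' t) := by
  have hdat := cfD_data hg hl m hD rfl
  have hTT := m.mem_TT.1 hdat.1
  have hsg := hdat.2
  obtain ⟨g1, g2, h3⟩ := D_ds hg hD
  have add1 : Add1 i (cfD i q q') t → sV i q q' t = 1 → GoodE i (cfD i q q' + ind {t}) ∧
      (pkF i (cfD i q q' + ind {t})).card + 2 = (lev α i).card ∧
      (-1 : ℤ) ^ (inF i (cfD i q q' + ind {t})).card =
        (-1) ^ (low α i).card * (sg i q * sg i q' * sV i q q' t) := by
    intro hA hs
    obtain ⟨h4, h5, h6⟩ := hA.data hg hl hTT.2.2.1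
    refine ⟨h4, by rw [h5]; exact hTT.2.2.2, ?_⟩
    rw [h6, hsg, hs, mul_one]
  have rs : ∀ {q q' : α}, isD i q q' → t = q → GoodE i (cfD i q q' + ind {t}) ∧
      (pkF i (cfD i q q' + ind {t})).card + 2 = (lev α i).card ∧
      (-1 : ℤ) ^ (inF i (cfD i q q' + ind {t})).card =
        (-1) ^ (low α i).card * (sg i q * sg i q' * sV i q q' t) := by
    intro q q' hD ht
    have hdat := cfD_data hg hl m hD rfl
    have hTT := m.mem_TT.1 hdat.1
    obtain ⟨p, hp⟩ := Finset.card_eq_one.1 (mem_U1.1 hD.1.1).2
    obtain ⟨h4, h5, h6⟩ := (rs_Q hg hl hD hp).data hg hl hTT.2.2.1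
    rw [ht]
    refine ⟨h4, by rw [h5]; exact hTT.2.2.2, ?_⟩
    unfold sV
    rw [h6, hdat.2, if_pos (Or.inr (Or.inl rfl))]
    ring
  rw [mem_vD] at ht
  rcases ht with ht | ht | ht | ht
  · by_cases hc : t ∈ BB i q ∨ t ∈ BB i q'
    · rcases hc with hc | hc
      · obtain ⟨h4, h5, h6⟩ := data_Yin hg hl hD hc
        refine ⟨h4, h5, ?_⟩
        unfold sV
        rw [h6, if_pos (Or.inl (Or.inl hc))]
      · obtain ⟨h4, h5, h6⟩ := data_Yin hg hl (isD_comm hD) hc
        rw [cfD_comm q' q] at h4 h5 h6
        refine ⟨h4, h5, ?_⟩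
        unfold sV
        rw [h6, if_pos (Or.inl (Or.inr hc)), mul_comm (sg i q') (sg i q)]
    · apply add1 (add_Y hg hl hD ht hc)
      unfold sV
      rw [if_neg]
      rintro (h | h | h)
      · exact hc h
      · rw [← h, ds_eq_zero.2 ht] at g1; omega
      · rw [← h, ds_eq_zero.2 ht] at g2; omega
  · apply add1 (add_P hg hl hD ht)
    have h4 := h3 t ht
    unfold sV
    rw [if_neg]
    rintro (h | h | h)
    · exact D_notBB hg hD (by omega) h
    · rw [h] at h4; omega
    · rw [h] at h4; omega
  · rcases ht with ht | ht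
    · exact rs hD ht
    · obtain ⟨h4, h5, h6⟩ := rs (isD_comm hD) ht
      rw [cfD_comm q' q] at h4 h5 h6
      refine ⟨h4, h5, ?_⟩
      rw [h6, sV_comm, mul_comm (sg i q') (sg i q)]
  · apply add1 (add_T hg hl hD ht.1 ht.2)
    unfold sV
    rw [if_neg]
    rintro (h | h | h)
    · exact D_notBB hg hD (by omega) h
    · rw [← h] at g1; omega
    · rw [← h] at g2; omega

/-- **the data of the variants of `cfD`** -/
theorem vD_data (hg : Grad α) (hl : HasLower α i) (m : Mat α i) (hD : isD i q q')
    (ht : t ∈ vD i q q') {n : ℕ} (hn : (lev α i).card = n) :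
    cfD i q q' + ind {t} ∈ m.TT 5 n ∧ ¬ HasAD i (cfD i q q' + ind {t}) ∧
      (-1 : ℤ) ^ (inF i (cfD i q q' + ind {t})).card =
        (-1) ^ (low α i).card * (sg i q * sg i q' * sV i q q' t) := by
  obtain ⟨h4, h5, h6⟩ := vD_aux hg hl m hD ht
  obtain ⟨g1, g2, h3⟩ := D_ds hg hD
  rw [mem_vD] at ht
  have h7 : m.Red (cfD i q q' + ind {t}) := by
    apply var_red hg m hD
    intro h1
    rcases ht with ht | ht | (rfl | rfl) | ht
    · rw [ds_eq_zero.2 ht] at h1
      omega
    · exact ht
    · omega
    · omega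
    · omega
  have h8 : ¬ HasAD i (cfD i q q' + ind {t}) := by
    apply var_not_hasAD hg hD
    intro h1
    rcases ht with ht | ht | (ht | ht) | ht
    · rw [ds_eq_zero.2 ht] at h1
      omega
    · have := h3 t ht
      omega
    · rw [ht]; exact (mem_U1.1 hD.1.1).2
    · rw [ht]; exact (mem_U1.1 hD.2.1.1).2
    · omega
  refine ⟨m.mem_TT.2 ⟨var_sum hg hl m hD, h7, h4, by omega⟩, h8, h6⟩

/-- **the data of the second events** -/
theorem vE_data (hg : Grad α) (hl : HasLower α i) (m : Mat α i) (hD : isD i q q')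
    (ht : t ∈ vE i q) {n : ℕ} (hn : (lev α i).card = n) :
    cfD i q q' + ind {t} ∈ m.TT 5 n ∧ ¬ HasAD i (cfD i q q' + ind {t}) ∧
      (-1 : ℤ) ^ (inF i (cfD i q q' + ind {t})).card =
        (-1) ^ (low α i).card * (sg i q * sg i q') := by
  rw [mem_vE] at ht
  have hdat := cfD_data hg hl m hD rfl
  have hTT := m.mem_TT.1 hdat.1
  have htq' : t ≠ q' := by
    rintro rfl
    have h1 := hD.2.2
    have h2 : BB i t = BB i q := by unfold BB; rw [ht.2.2]
    rw [h2, disjoint_self_iff_empty] at h1
    have h3 := hD.1.2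
    rw [h1] at h3
    simp at h3
  have hA : Add1 i (cfD i q q') t := by
    apply add_E hg hl hD ht.1 ht.2.1 htq'
    rw [ht.2.2]
    exact subset_union_left
  obtain ⟨h4, h5, h6⟩ := hA.data hg hl hTT.2.2.1
  refine ⟨m.mem_TT.2 ⟨var_sum hg hl m hD, ?_, h4, ?_⟩, ?_, ?_⟩
  · apply var_red hg m hD
    intro h1
    omega
  · have := hTT.2.2.2
    omega
  · apply var_not_hasAD hg hD
    intro _
    rw [ht.2.2]
    exact (mem_U1.1 hD.1.1).2
  · rw [h6, hdat.2]

end var

/-! ### the classification -/

section cls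

variable {m : Mat α i} {ε : α → ℕ}

lemma Cf_card_add5 (h5 : ∑ p, ε p ≤ 5) : (Ax i ε).card + (Bx i ε).card ≤ 5 := by
  have hd : Disjoint (Ax i ε) (Bx i ε) := by
    rw [Finset.disjoint_left]
    intro t h1 h2
    rw [mem_Ax] at h1
    rw [mem_Bx] at h2
    omega
  rw [← card_union_of_disjoint hd]
  refine le_trans (card_le_sum (ε := ε) ?_) h5
  intro t ht
  rw [mem_union, mem_Ax, mem_Bx] at ht
  rcases ht with ht | ht
  · exact ht.2
  · exact ht.2

/-- three excited elements next to level `i` -/
lemma cls_three (hB : PB α i) (hF : m.FullX ∅) (h : Cf m ε) (h5 : ∑ p, ε p ≤ 5)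
    (ha : (Ax i ε).card = 3) : ∃ g q, isC i g q ∧ ε = cfC i g q := by
  have h1 := Cf_card_add5 (i := i) h5
  have h2 := h.card_le_two hB hF
  have hb : (Bx i ε).card = 2 := by omega
  have hd : Disjoint (Ax i ε) (Bx i ε) := by
    rw [Finset.disjoint_left]
    intro t h1 h2
    rw [mem_Ax] at h1
    rw [mem_Bx] at h2
    omega
  have he : ε = ind (Ax i ε ∪ Bx i ε) := by
    apply eq_ind
    · intro t ht
      rw [mem_union, mem_Ax, mem_Bx] at ht
      rcases ht with ht | ht
      · exact ht.2
      · exact ht.2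
    · rw [card_union_of_disjoint hd]
      omega
  have hFY : Fo i ε = Ax i ε ∧ Yd i ε = NA i ε := by
    have hQ : ∀ q ∈ Bx i ε, ds i q = 2 := fun q hq => (mem_Bx.1 hq).1
    have hA : ∀ p ∈ Ax i ε, ds i p = 1 := fun p hp => (mem_Ax.1 hp).1
    have hZ : ∀ y ∈ (∅ : Finset α), corank y = i := by simp
    have hQA : ∀ q ∈ Bx i ε, bd i q ⊆ Ax i ε := fun q hq =>
      bd_sub_Ax hB h.good (hQ q hq) (mem_Bx.1 hq).2
    have e1 := cfg_Fo hB.hg hB.hl hQ hA hZ hQA
    have e2 := cfg_Yd hB.hg hQ hA hZ
    have e3 : Bx i ε ∪ Ax i ε ∪ ∅ = Ax i ε ∪ Bx i ε := by rw [union_empty, union_comm]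
    rw [e3, ← he] at e1 e2
    constructor
    · rw [e1]
      exact Finset.filter_true_of_mem fun p _ => Finset.disjoint_empty_right _
    · rw [e2, sdiff_empty]
      rfl
  have hls := h.ls
  rw [hFY.1, hFY.2, ha] at hls
  obtain ⟨r, r', hne, hBx⟩ := Finset.card_eq_two.1 hb
  have mr : r ∈ Bx i ε := by rw [hBx]; simp
  have mr' : r' ∈ Bx i ε := by rw [hBx]; simp
  have hAe : Ax i ε = bd i r ∪ bd i r' := by
    apply Finset.Subset.antisymm
    · intro p hp
      obtain ⟨s, hs, hps⟩ := h.far' hB hF hp
      rw [hBx, mem_insert, mem_singleton] at hs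
      rw [mem_union]
      rcases hs with rfl | rfl
      · exact Or.inl hps
      · exact Or.inr hps
    · exact union_subset (h.bdA hB mr) (h.bdA hB mr')
  -- the main step
  have key : ∀ g q : α, g ∈ Bx i ε → q ∈ Bx i ε → g ≠ q → Ax i ε = bd i g ∪ bd i q →
      Bx i ε = {g, q} → (bd i g).card = 2 → isC i g q ∧ ε = cfC i g q := by
    intro g q mg mq hgq hAe hBx c4
    have eg := mem_Bx.1 mg
    have eq := mem_Bx.1 mq
    have c1 := hB.deg q
    have c3 := Finset.card_union_add_card_inter (bd i g) (bd i q)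
    rw [← hAe, ha] at c3
    have ug : g ∈ U2 α i := mem_U2.2 ⟨eg.1, c4⟩
    have c5 := hB.P3 g ug
    have hNA : NA i ε = BB i g ∪ BB i q := by
      unfold NA BB
      rw [hAe, Finset.union_biUnion]
    have c6 := Finset.card_union_add_card_inter (BB i g) (BB i q)
    rw [← hNA] at c6
    have c7 : 0 < (bd i q).card := Finset.card_pos.2 (bd_nonempty hB (by omega))
    have c8 : (bd i q).card = 1 := by
      by_contra hc
      have c9 : (bd i q).card = 2 := by omega
      have uq : q ∈ U2 α i := mem_U2.2 ⟨eq.1, c9⟩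
      have c10 := hB.P3 q uq
      obtain ⟨s, hs⟩ := Finset.card_pos.1 (by omega : 0 < (bd i g ∩ bd i q).card)
      rw [mem_inter] at hs
      have c11 : bd i s ⊆ BB i g ∩ BB i q := by
        intro t ht
        rw [mem_inter]
        unfold BB
        exact ⟨mem_biUnion.2 ⟨s, hs.1, ht⟩, mem_biUnion.2 ⟨s, hs.2, ht⟩⟩
      have c12 := card_le_card c11
      have c13 : (bd i s).card = 2 := by
        by_cases c14 : (BB i g).card = 3
        · exact hB.nb g ug c14 s hs.1
        · by_cases c15 : (BB i q).card = 3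
          · exact hB.nb q uq c15 s hs.2
          · omega
      omega
    obtain ⟨p, hp⟩ := Finset.card_eq_one.1 c8
    have hBq : BB i q = bd i p := by unfold BB; rw [hp, singleton_biUnion]
    have c9 := hB.deg p
    rw [← hBq] at c9
    have hC : isC i g q := by
      refine ⟨mem_c3S.2 ⟨eg.1, c4, by omega⟩, mem_evtS.2 ⟨eq.1, c8, by omega⟩, ?_⟩
      rw [Finset.disjoint_iff_inter_eq_empty, ← Finset.card_eq_zero]
      omega
    refine ⟨hC, ?_⟩
    unfold cfC
    rw [union_empty, ← hAe, ← hBx, union_comm]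
    exact he
  have c1 := hB.deg r
  have c2 := hB.deg r'
  have c3 := Finset.card_union_add_card_inter (bd i r) (bd i r')
  rw [← hAe, ha] at c3
  by_cases c4 : (bd i r).card = 2
  · exact ⟨r, r', key r r' mr mr' hne hAe hBx c4⟩
  · refine ⟨r', r, key r' r mr' mr hne.symm (by rw [hAe, union_comm]) (by rw [hBx, pair_comm])
      (by omega)⟩

/-- two excited elements next to level `i`, all excited elements at distance two are single -/
lemma cls_two (hB : PB α i) (hF : m.FullX ∅) (h : Cf m ε) (h5 : ∑ p, ε p ≤ 5)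
    (ha : (Ax i ε).card = 2) (hno : ∀ q ∈ Bx i ε, (bd i q).card = 1) :
    (∃ q q', isD i q q' ∧ 0 < ε q ∧ 0 < ε q' ∧ Ax i ε = bd i q ∪ bd i q') ∨
      ∃ q q' y, isM i q q' y ∧ ε = cfM i q q' y := by
  have hg := hB.hg
  have hfar : ∀ p ∈ Ax i ε, ∃ q ∈ Bx i ε, bd i q = {p} := by
    intro p hp
    rw [mem_Ax] at hp
    obtain ⟨q, h1, h2, h3⟩ := h.far hB hF hp.1 hp.2
    have hq : q ∈ Bx i ε := mem_Bx.2 ⟨h3, h2⟩
    obtain ⟨t, ht⟩ := Finset.card_eq_one.1 (hno q hq)
    have : p ∈ bd i q := mem_bd.2 h1
    rw [ht, mem_singleton] at this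
    exact ⟨q, hq, by rw [ht, this]⟩
  obtain ⟨p, p', hne, hA⟩ := Finset.card_eq_two.1 ha
  have hp : p ∈ Ax i ε := by rw [hA]; simp
  have hp' : p' ∈ Ax i ε := by rw [hA]; simp
  obtain ⟨q, hq, bq⟩ := hfar p hp
  obtain ⟨q', hq', bq'⟩ := hfar p' hp'
  have g1 := mem_Bx.1 hq
  have g2 := mem_Bx.1 hq'
  have g3 := mem_Ax.1 hp
  have g4 := mem_Ax.1 hp'
  have hNA : NA i ε = bd i p ∪ bd i p' := by
    unfold NA
    rw [hA, biUnion_insert, singleton_biUnion]
  have hN := h.NA3 hB
  rw [hNA] at hN
  have hBq : BB i q = bd i p := by unfold BB; rw [bq, singleton_biUnion]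
  have hBq' : BB i q' = bd i p' := by unfold BB; rw [bq', singleton_biUnion]
  have hU : q ∈ U1 α i := mem_U1.2 ⟨g1.1, by rw [bq, card_singleton]⟩
  have hU' : q' ∈ U1 α i := mem_U1.2 ⟨g2.1, by rw [bq', card_singleton]⟩
  have c1 := hB.deg p
  have c2 := hB.deg p'
  have c3 := Finset.card_union_add_card_inter (bd i p) (bd i p')
  have hAe : Ax i ε = bd i q ∪ bd i q' := by rw [hA, bq, bq']; rfl
  by_cases c4 : (bd i p ∩ bd i p').card = 0 ∧ (bd i p).card = 2 ∧ (bd i p').card = 2
  · left
    refine ⟨q, q', ⟨⟨hU, by rw [hBq]; exact c4.2.1⟩, ⟨hU', by rw [hBq']; exact c4.2.2⟩, ?_⟩,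
      g1.2, g2.2, hAe⟩
    rw [hBq, hBq', Finset.disjoint_iff_inter_eq_empty, ← Finset.card_eq_zero]
    exact c4.1
  · right
    have hN3 : (bd i p ∪ bd i p').card = 3 := by
      by_contra hc
      apply c4
      omega
    have hqq : q ≠ q' := by
      rintro rfl
      rw [bq] at bq'
      exact hne (Finset.singleton_injective bq')
    have S : SS i ε p p' q q' :=
      { dp := g3.1, dp' := g4.1, hne := hne, p0 := g3.2, p0' := g4.2
        ax := by
          intro r h1 h2
          have : r ∈ Ax i ε := mem_Ax.2 ⟨h1, h2⟩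
          rw [hA, mem_insert, mem_singleton] at this
          exact this
        sg := by
          intro r h1 h2
          have hr : r ∈ Bx i ε := mem_Bx.2 ⟨h1, h2⟩
          obtain ⟨t, ht⟩ := Finset.card_eq_one.1 (hno r hr)
          have h5 : t ∈ Ax i ε := bd_sub_Ax hB h.good h1 h2 (by rw [ht]; simp)
          rw [hA, mem_insert, mem_singleton] at h5
          rcases h5 with rfl | rfl
          · exact Or.inl ht
          · exact Or.inr ht
        dq := g1.1, dq' := g2.1, q0 := g1.2, q0' := g2.2, bq := bq, bq' := bq'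
        good := h.good, e6 := h.e6, ls := h.ls }
    have hls := h.ls
    have hYs := S.Ysub hB
    have hYc := card_le_card hYs
    -- the energies
    have hsumy : ∀ y, corank y = i → ε y + (ε p + ε p' + ε q + ε q') ≤ 5 := by
      intro y hy
      have := lsum (i := i) h5 [y] [p, p'] [q, q'] [] (by simp) (by simp [hne])
        (by simp [hqq]) (by simp) (by simp [ds_eq_zero.2 hy]) (by simp [g3.1, g4.1])
        (by simp [g1.1, g2.1]) (by simp)
      simp only [List.map_cons, List.map_nil, List.sum_cons, List.sum_nil] at this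
      omega
    have hsumyy : ∀ y z, corank y = i → corank z = i → y ≠ z →
        ε y + ε z + (ε p + ε p' + ε q + ε q') ≤ 5 := by
      intro y z hy hz hyz
      have := lsum (i := i) h5 [y, z] [p, p'] [q, q'] [] (by simp [hyz]) (by simp [hne])
        (by simp [hqq]) (by simp) (by simp [ds_eq_zero.2 hy, ds_eq_zero.2 hz])
        (by simp [g3.1, g4.1]) (by simp [g1.1, g2.1]) (by simp)
      simp only [List.map_cons, List.map_nil, List.sum_cons, List.sum_nil] at this
      omega
    have p0 := g3.2
    have p0' := g4.2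
    have q0 := g1.2
    have q0' := g2.2
    -- one of the two is not free
    have main : ∀ {p p' q q' : α}, SS i ε p p' q q' → (bd i p ∪ bd i p').card = 3 →
        (∀ y, corank y = i → ε y + (ε p + ε p' + ε q + ε q') ≤ 5) →
        (∀ y z, corank y = i → corank z = i → y ≠ z →
          ε y + ε z + (ε p + ε p' + ε q + ε q') ≤ 5) → nd i ε p →
        ∃ y, y ∈ bd i p ∧ y ∈ bd i p' ∧ 0 < ε y := by
      intro p p' q q' S hN3 hsumy hsumyy hnd
      rw [nd_iff] at hnd
      obtain ⟨y, hy, hy2⟩ := hnd
      have hyi := bd_lev hg S.dp hy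
      have e1 := hsumy y hyi
      have e2 := S.p0
      have e3 := S.p0'
      have e4 := S.q0
      have e5 := S.q0'
      refine ⟨y, hy, ?_, by omega⟩
      have hyY : y ∉ Yd i ε := by
        rw [S.Yde hB]
        rintro (⟨_, h1⟩ | ⟨_, h1⟩)
        · omega
        · omega
      have hYs := S.Ysub hB
      have hsub : Yd i ε ⊆ (bd i p ∪ bd i p').erase y := fun t ht =>
        mem_erase.2 ⟨fun h1 => hyY (h1 ▸ ht), hYs ht⟩
      have h1 := card_le_card hsub
      rw [card_erase_of_mem (mem_union_left _ hy), hN3] at h1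
      have hls := S.ls
      have hFo : Fo i ε = ∅ := by
        rw [← Finset.card_eq_zero]
        omega
      have hnd' : nd i ε p' := by
        by_contra h2
        obtain ⟨f, hf, _⟩ := S.symm.rise hB h2
        rw [hFo] at hf
        simp at hf
      rw [nd_iff] at hnd'
      obtain ⟨z, hz, hz2⟩ := hnd'
      by_cases hyz : y = z
      · rw [hyz]
        exact hz
      · have := hsumyy y z hyi (bd_lev hg S.dp' hz) hyz
        omega
    have hnds : nd i ε p ∨ nd i ε p' := by
      by_contra hc
      push Not at hc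
      obtain ⟨f, hf, hf2⟩ := S.rise hB hc.1
      obtain ⟨f', hf', hf2'⟩ := S.symm.rise hB hc.2
      have hff : f ≠ f' := S.rise_ne hB hf2 hf2'
      have h1 : ({f, f'} : Finset α) ⊆ Fo i ε := by
        intro t ht
        rw [mem_insert, mem_singleton] at ht
        rcases ht with rfl | rfl
        · exact hf
        · exact hf'
      have h2 := card_le_card h1
      rw [card_pair hff] at h2
      omega
    have hy : ∃ y, y ∈ bd i p ∧ y ∈ bd i p' ∧ 0 < ε y := by
      rcases hnds with h1 | h1
      · exact main S hN3 hsumy hsumyy h1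
      · obtain ⟨y, h2, h3, h4⟩ := main S.symm (by rw [union_comm]; exact hN3)
          (by intro y hy; have := hsumy y hy; omega)
          (by intro y z hy hz hyz; have := hsumyy y z hy hz hyz; omega) h1
        exact ⟨y, h3, h2, h4⟩
    obtain ⟨y, h1, h2, h3⟩ := hy
    have hM : isM i q q' y := by
      have hI : 0 < (bd i p ∩ bd i p').card := Finset.card_pos.2 ⟨y, mem_inter.2 ⟨h1, h2⟩⟩
      refine ⟨⟨hU, by rw [hBq]; omega⟩, ⟨hU', by rw [hBq']; omega⟩, ?_⟩
      rw [hBq, hBq']
      obtain ⟨z, hz⟩ := Finset.card_eq_one.1 (by omega : (bd i p ∩ bd i p').card = 1)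
      have h4 : y ∈ bd i p ∩ bd i p' := mem_inter.2 ⟨h1, h2⟩
      rw [hz, mem_singleton] at h4
      rw [hz, h4]
    exact ⟨q, q', y, hM, cfM_eq_of hg hB.hl h.good hM h5 g1.2 g2.2 h3⟩

/-- **classification of the configurations of energy at most five without active diamond** -/
theorem cls5 (hB : PB α i) (hF : m.FullX ∅) (h : Cf m ε) (h5 : ∑ p, ε p ≤ 5)
    (hno : ¬ HasAD i ε) :
    (∃ q q', isD i q q' ∧ (ε = cfD i q q' ∨ ∃ t, (t ∈ vD i q q' ∨ t ∈ vE i q ∨ t ∈ vE i q') ∧
      ε = cfD i q q' + ind {t})) ∨ (∃ q q' y, isM i q q' y ∧ ε = cfM i q q' y) ∨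
      ∃ g q, isC i g q ∧ ε = cfC i g q := by
  have hg := hB.hg
  have hA2 := h.two_le hB
  have h1 := Cf_card_add5 (i := i) h5
  have h2 := h.card_le_two hB hF
  rcases Nat.lt_or_ge (Ax i ε).card 3 with ha | ha
  · have ha : (Ax i ε).card = 2 := by omega
    by_cases hex : ∃ q ∈ Bx i ε, (bd i q).card = 2
    · exfalso
      rcases clsDia hB hF h ha hex with h3 | ⟨g, v, h3, h4⟩
      · exact hno h3
      · have h6 := (m.mem_TT.1 (cfV_data hg hB.hl m h3 rfl).1).1
        rw [← h4] at h6
        omega
    · have hsgl : ∀ q ∈ Bx i ε, (bd i q).card = 1 := by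
        intro q hq
        have h3 := hB.deg q
        have h4 : 0 < (bd i q).card := Finset.card_pos.2 (bd_nonempty hB (by
          have := (mem_Bx.1 hq).1
          omega))
        push Not at hex
        have h5 := hex q hq
        omega
      rcases cls_two hB hF h h5 ha hsgl with ⟨q, q', hD, q0, q0', hAe⟩ | h3
      · left
        refine ⟨q, q', hD, ?_⟩
        obtain ⟨d1, d2, d3⟩ := D_ds hg hD
        have hdat := m.mem_TT.1 (cfD_data hg hB.hl m hD rfl).1
        have hc : ({q, q'} ∪ (bd i q ∪ bd i q') ∪ ∅ : Finset α).card = 4 := by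
          have := hdat.1
          unfold cfD at this
          rw [sum_ind] at this
          exact this
        have hpos : ∀ t ∈ ({q, q'} ∪ (bd i q ∪ bd i q') ∪ ∅ : Finset α), 0 < ε t := by
          intro t ht
          rw [mem_sup] at ht
          rcases ht with (rfl | rfl) | ht
          · exact q0
          · exact q0'
          · have : t ∈ Ax i ε := by
              rw [hAe, mem_union]
              exact ht
            exact (mem_Ax.1 this).2
        rcases eq_ind_or hpos (by rw [hc]; exact h5) with h3 | ⟨t, h3⟩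
        · exact Or.inl h3
        · right
          refine ⟨t, ?_, h3⟩
          have h3' : ε = cfD i q q' + ind {t} := h3
          have t0 : 0 < ε t := by
            rw [h3', add_val, if_pos rfl]
            omega
          rcases Nat.lt_or_ge (ds i t) 1 with h4 | h4
          · left
            rw [mem_vD]
            exact Or.inl (ds_eq_zero.1 (by omega))
          rcases Nat.lt_or_ge (ds i t) 2 with h6 | h6
          · left
            rw [mem_vD]
            right; left
            have : t ∈ Ax i ε := mem_Ax.2 ⟨by omega, t0⟩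
            rw [hAe, mem_union] at this
            exact this
          rcases Nat.lt_or_ge (ds i t) 3 with h7 | h7
          · have ht : t ∈ Bx i ε := mem_Bx.2 ⟨by omega, t0⟩
            by_cases h8 : t = q ∨ t = q'
            · left
              rw [mem_vD]
              exact Or.inr (Or.inr (Or.inl h8))
            · right
              push Not at h8
              have h9 := h.bdA hB ht
              obtain ⟨s, hs⟩ := Finset.card_eq_one.1 (hsgl t ht)
              have h10 : s ∈ Ax i ε := h9 (by rw [hs]; simp)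
              rw [hAe, mem_union] at h10
              obtain ⟨p, hp⟩ := Finset.card_eq_one.1 (mem_U1.1 hD.1.1).2
              obtain ⟨p', hp'⟩ := Finset.card_eq_one.1 (mem_U1.1 hD.2.1.1).2
              rcases h10 with h10 | h10
              · left
                rw [mem_vE]
                refine ⟨by omega, h8.1, ?_⟩
                rw [hp, mem_singleton] at h10
                rw [hs, hp, h10]
              · right
                rw [mem_vE]
                refine ⟨by omega, h8.2, ?_⟩
                rw [hp', mem_singleton] at h10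
                rw [hs, hp', h10]
          · left
            have hti : corank t ≠ i := ds_pos (by omega)
            have hnear : ∀ s, fr i s t → s = q ∨ s = q' := by
              intro s hs
              have h8 := fr_ds hg hs
              have h9 : 0 < ε s := closure hg hB.hl h.good hs (ds_pos (by omega)) t0
              have h10 : s ≠ t := by
                rintro rfl
                omega
              rw [h3', add_val, if_neg h10, add_zero, cfD_pos] at h9
              rcases h9 with h9 | h9
              · exact h9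
              · have := d3 s h9
                omega
            have h11 : ds i t = 3 := by
              obtain ⟨s, hs⟩ := exists_near hg hB.hl hti
              have h8 := fr_ds hg hs
              rcases hnear s hs with rfl | rfl
              · omega
              · omega
            rw [mem_vD]
            right; right; right
            refine ⟨h11, ?_⟩
            intro s hs
            rw [mem_insert, mem_singleton]
            exact hnear s (mem_bd.1 hs)
      · exact Or.inr (Or.inl h3)
  · rcases Nat.lt_or_ge (Ax i ε).card 4 with hb | hb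
    · exact Or.inr (Or.inr (cls_three hB hF h h5 (by omega)))
    · omega

end cls

end V5

end Pool.Gauss
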