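import Pool.Agent.Work.MP_065141_co.K.V5VarC

/-!
# The configurations of energy five and loss two without active diamond: the sum of the signs
-/

set_option autoImplicit false
set_option linter.unusedSectionVars false
set_option linter.unusedVariables false
open scoped Classical
open Finset Polynomial

namespace Pool.Gauss

variable {α : Type} [Fintype α] [PartialOrder α] {i : ℕ}

namespace V5

/-! ### sums over index sets which count everything twice -/

lemma sum_two {β γ : Type} [DecidableEq γ] (T : Finset β) (Φ : β → γ) (inv : β → β) (h1 : ∀ a ∈ T, inv a ∈ T)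
    (h2 : ∀ a ∈ T, inv a ≠ a) (h3 : ∀ a ∈ T, Φ (inv a) = Φ a)
    (h4 : ∀ a ∈ T, ∀ b ∈ T, Φ b = Φ a → b = a ∨ b = inv a) (F : γ → ℤ) :
    ∑ a ∈ T, F (Φ a) = 2 * ∑ c ∈ T.image Φ, F c := by
  rw [Finset.sum_comp F Φ, Finset.mul_sum]
  apply Finset.sum_congr rfl
  intro c hc
  rw [mem_image] at hc
  obtain ⟨a, ha, rfl⟩ := hc
  have h8 : (T.filter fun b => Φ b = Φ a) = {a, inv a} := by
    ext b
    rw [mem_filter, mem_insert, mem_singleton]
    constructor
    · rintro ⟨hb, h9⟩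
      exact h4 a ha b hb h9
    · rintro (rfl | rfl)
      · exact ⟨ha, rfl⟩
      · exact ⟨h1 a ha, h3 a ha⟩
  rw [h8, card_pair (h2 a ha).symm]
  simp

/-! ### the index sets -/

variable (α i) in
/-- ordered pairs of events over disjoint pairs -/
noncomputable def PP : Finset (α × α) :=
  (evtS α i ×ˢ evtS α i).filter fun a => Disjoint (BB i a.1) (BB i a.2)

variable (α i) in
/-- ordered pairs of events over touching pairs -/
noncomputable def PM : Finset (α × α) :=
  (evtS α i ×ˢ evtS α i).filter fun a => (BB i a.1 ∩ BB i a.2).card = 1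

variable (α i) in
/-- a triple and an event -/
noncomputable def PC : Finset (α × α) :=
  (c3S α i ×ˢ evtS α i).filter fun a => Disjoint (BB i a.1) (BB i a.2)

variable (α i) in
/-- the variants of the pairs -/
noncomputable def T1 : Finset ((α × α) × α) :=
  (PP α i ×ˢ univ).filter fun x => x.2 ∈ vD i x.1.1 x.1.2

variable (α i) in
/-- the second events -/
noncomputable def T2e : Finset ((α × α) × α) :=
  (PP α i ×ˢ univ).filter fun x => x.2 ∈ vE i x.1.1

/-- the configuration of a variant -/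
noncomputable def cfX (i : ℕ) (x : (α × α) × α) : α → ℕ := cfD i x.1.1 x.1.2 + ind {x.2}

/-- the configuration of a touching pair -/
noncomputable def cfN (i : ℕ) (a : α × α) : α → ℕ :=
  ind ({a.1, a.2} ∪ (bd i a.1 ∪ bd i a.2) ∪ (BB i a.1 ∩ BB i a.2))

lemma mem_PP {a : α × α} : a ∈ PP α i ↔ isD i a.1 a.2 := by
  unfold PP
  rw [mem_filter, mem_product, isD_iff, and_assoc]

lemma mem_PM {a : α × α} : a ∈ PM α i ↔ a.1 ∈ evtS α i ∧ a.2 ∈ evtS α i ∧
    (BB i a.1 ∩ BB i a.2).card = 1 := by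
  unfold PM
  rw [mem_filter, mem_product, and_assoc]

lemma mem_PC {a : α × α} : a ∈ PC α i ↔ isC i a.1 a.2 := by
  unfold PC isC
  rw [mem_filter, mem_product, and_assoc]

lemma mem_T1 {x : (α × α) × α} : x ∈ T1 α i ↔ isD i x.1.1 x.1.2 ∧ x.2 ∈ vD i x.1.1 x.1.2 := by
  unfold T1
  rw [mem_filter, mem_product, mem_PP]
  simp

lemma mem_T2e {x : (α × α) × α} : x ∈ T2e α i ↔ isD i x.1.1 x.1.2 ∧ x.2 ∈ vE i x.1.1 := by
  unfold T2e
  rw [mem_filter, mem_product, mem_PP]
  simp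

lemma isM_of {a : α × α} {y : α} (h : a ∈ PM α i) (hy : BB i a.1 ∩ BB i a.2 = {y}) :
    isM i a.1 a.2 y := by
  rw [mem_PM, mem_evtS, mem_evtS] at h
  exact ⟨⟨mem_U1.2 ⟨h.1.1, h.1.2.1⟩, h.1.2.2⟩, ⟨mem_U1.2 ⟨h.2.1.1, h.2.1.2.1⟩, h.2.1.2.2⟩, hy⟩

lemma PM_y {a : α × α} (h : a ∈ PM α i) : ∃ y, isM i a.1 a.2 y ∧ cfN i a = cfM i a.1 a.2 y := by
  obtain ⟨y, hy⟩ := Finset.card_eq_one.1 (mem_PM.1 h).2.2
  refine ⟨y, isM_of h hy, ?_⟩
  unfold cfN cfM
  rw [hy]

lemma PM_of {q q' y : α} (h : isM i q q' y) : (q, q') ∈ PM α i ∧ cfN i (q, q') = cfM i q q' y := by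
  obtain ⟨⟨h1, h2⟩, ⟨h3, h4⟩, h5⟩ := h
  rw [mem_U1] at h1 h3
  refine ⟨mem_PM.2 ⟨mem_evtS.2 ⟨h1.1, h1.2, h2⟩, mem_evtS.2 ⟨h3.1, h3.2, h4⟩, ?_⟩, ?_⟩
  · show (BB i q ∩ BB i q').card = 1
    rw [h5, card_singleton]
  · unfold cfN cfM
    show ind ({q, q'} ∪ (bd i q ∪ bd i q') ∪ (BB i q ∩ BB i q')) = _
    rw [h5]

/-! ### the excited elements at distance two -/

lemma Bx_T1 (hg : Grad α) {x : (α × α) × α} (hx : x ∈ T1 α i) :
    Bx i (cfX i x) = {x.1.1, x.1.2} := by
  rw [mem_T1] at hx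
  obtain ⟨hD, ht⟩ := hx
  obtain ⟨d1, d2, d3⟩ := D_ds hg hD
  ext r
  rw [mem_Bx, mem_insert, mem_singleton]
  unfold cfX
  rw [add_val]
  constructor
  · rintro ⟨h1, h2⟩
    by_cases hr : r = x.2
    · rw [mem_vD] at ht
      rcases ht with ht | ht | ht | ht
      · rw [hr, ds_eq_zero.2 ht] at h1; omega
      · have := d3 _ ht
        rw [hr] at h1; omega
      · rw [hr]; exact ht
      · rw [hr] at h1; omega
    · rw [if_neg hr, add_zero, cfD_pos] at h2
      rcases h2 with h2 | h2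
      · exact h2
      · have := d3 r h2
        omega
  · intro h
    have h0 : 0 < cfD i x.1.1 x.1.2 r := cfD_pos.2 (Or.inl h)
    refine ⟨?_, by omega⟩
    rcases h with h | h
    · rw [h]; exact d1
    · rw [h]; exact d2

lemma Bx_T2e (hg : Grad α) {x : (α × α) × α} (hx : x ∈ T2e α i) :
    Bx i (cfX i x) = {x.1.1, x.1.2, x.2} := by
  rw [mem_T2e] at hx
  obtain ⟨hD, ht⟩ := hx
  obtain ⟨d1, d2, d3⟩ := D_ds hg hD
  ext r
  rw [mem_Bx, mem_insert, mem_insert, mem_singleton]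
  unfold cfX
  rw [add_val]
  constructor
  · rintro ⟨h1, h2⟩
    by_cases hr : r = x.2
    · exact Or.inr (Or.inr hr)
    · rw [if_neg hr, add_zero, cfD_pos] at h2
      rcases h2 with h2 | h2
      · tauto
      · have := d3 r h2
        omega
  · intro h
    by_cases hr : r = x.2
    · rw [if_pos hr, hr]
      exact ⟨(mem_vE.1 ht).1, by omega⟩
    · have h' : r = x.1.1 ∨ r = x.1.2 := by tauto
      have h0 : 0 < cfD i x.1.1 x.1.2 r := cfD_pos.2 (Or.inl h')
      refine ⟨?_, by omega⟩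
      rcases h' with h | h
      · rw [h]; exact d1
      · rw [h]; exact d2

lemma Bx_N (hg : Grad α) {a : α × α} (ha : a ∈ PM α i) : Bx i (cfN i a) = {a.1, a.2} := by
  rw [mem_PM, mem_evtS, mem_evtS] at ha
  ext r
  rw [mem_Bx, mem_insert, mem_singleton]
  unfold cfN
  rw [ind_pos, mem_union, mem_union, mem_union, mem_inter, mem_insert, mem_singleton]
  constructor
  · rintro ⟨h1, (h2 | h2 | h2) | h2⟩
    · exact h2
    · have := ds_of_mem_bd hg ha.1.1 h2
      omega
    · have := ds_of_mem_bd hg ha.2.1.1 h2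
      omega
    · have := mem_lev.1 (BB_subset hg ha.1.1 h2.1)
      rw [ds_eq_zero.2 this] at h1
      omega
  · intro h
    refine ⟨?_, Or.inl (Or.inl h)⟩
    rcases h with h | h
    · rw [h]; exact ha.1.1
    · rw [h]; exact ha.2.1.1

lemma Bx_C (hg : Grad α) {a : α × α} (ha : a ∈ PC α i) : Bx i (cfC i a.1 a.2) = {a.1, a.2} := by
  have hC := mem_PC.1 ha
  have d1 := (mem_c3S.1 hC.1).1
  have d2 := (mem_evtS.1 hC.2.1).1
  ext r
  rw [mem_Bx, mem_insert, mem_singleton, cfC_val]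
  constructor
  · rintro ⟨h1, h2⟩
    by_cases h3 : (r = a.1 ∨ r = a.2) ∨ (r ∈ bd i a.1 ∨ r ∈ bd i a.2)
    · rcases h3 with h3 | h3 | h3
      · exact h3
      · have := ds_of_mem_bd hg d1 h3
        omega
      · have := ds_of_mem_bd hg d2 h3
        omega
    · rw [if_neg h3] at h2
      omega
  · intro h
    rw [if_pos (Or.inl h)]
    refine ⟨?_, by omega⟩
    rcases h with h | h
    · rw [h]; exact d1
    · rw [h]; exact d2

/-! ### the multiplicities -/

lemma swap_ne {q q' : α} {β : Type} (b b' : β) (h : q ≠ q') : ((q', q), b') ≠ ((q, q'), b) := by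
  intro h1
  have h2 := congrArg (fun x => x.1.1) h1
  exact h h2.symm

lemma pair_cases {a b c d : α} (hne : c ≠ d) (h : ({c, d} : Finset α) = {a, b}) :
    (c = a ∧ d = b) ∨ (c = b ∧ d = a) := by
  have h1 : c ∈ ({a, b} : Finset α) := by rw [← h]; simp
  have h2 : d ∈ ({a, b} : Finset α) := by rw [← h]; simp
  rw [mem_insert, mem_singleton] at h1 h2
  rcases h1 with h1 | h1 <;> rcases h2 with h2 | h2
  · exact absurd (h1.trans h2.symm) hne
  · exact Or.inl ⟨h1, h2⟩
  · exact Or.inr ⟨h1, h2⟩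
  · exact absurd (h1.trans h2.symm) hne

lemma add_ind_cancel {e : α → ℕ} {t t' : α} (h : e + ind {t} = e + ind {t'}) : t = t' := by
  have h1 := congrFun h t
  rw [add_val, add_val, if_pos rfl] at h1
  by_contra h2
  rw [if_neg h2] at h1
  omega

lemma sum_T1 (hg : Grad α) (F : (α → ℕ) → ℤ) :
    ∑ x ∈ T1 α i, F (cfX i x) = 2 * ∑ ε ∈ (T1 α i).image (cfX i), F ε := by
  apply sum_two (T1 α i) (cfX i) (fun x => ((x.1.2, x.1.1), x.2))
  · intro x hx
    rw [mem_T1] at hx ⊢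
    refine ⟨isD_comm hx.1, ?_⟩
    show x.2 ∈ vD i x.1.2 x.1.1
    rw [vD_comm]
    exact hx.2
  · intro x hx
    rw [mem_T1] at hx
    exact swap_ne _ _ (isD_ne hx.1)
  · intro x hx
    show cfD i x.1.2 x.1.1 + ind {x.2} = cfD i x.1.1 x.1.2 + ind {x.2}
    rw [cfD_comm]
  · intro a ha b hb hab
    have h1 := Bx_T1 hg hb
    rw [hab, Bx_T1 hg ha] at h1
    have hne := isD_ne (mem_T1.1 hb).1
    obtain ⟨⟨b1, b2⟩, b3⟩ := b
    obtain ⟨⟨a1, a2⟩, a3⟩ := a
    simp only at h1 hne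
    rcases pair_cases hne h1.symm with ⟨rfl, rfl⟩ | ⟨rfl, rfl⟩
    · left
      have : b3 = a3 := add_ind_cancel (e := cfD i b1 b2) hab
      rw [this]
    · right
      have : b3 = a3 := by
        have h2 : cfD i b1 b2 + ind {b3} = cfD i b2 b1 + ind {a3} := hab
        rw [cfD_comm b2 b1] at h2
        exact add_ind_cancel h2
      rw [this]

lemma not_same_bd {q q' : α} (hD : isD i q q') : bd i q' ≠ bd i q := by
  intro h
  have h1 := hD.2.2
  have h2 : BB i q' = BB i q := by unfold BB; rw [h]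
  rw [h2, disjoint_self_iff_empty] at h1
  have h3 := hD.1.2
  rw [h1] at h3
  simp at h3

lemma sum_T2e (hg : Grad α) (F : (α → ℕ) → ℤ) :
    ∑ x ∈ T2e α i, F (cfX i x) = 2 * ∑ ε ∈ (T2e α i).image (cfX i), F ε := by
  apply sum_two (T2e α i) (cfX i) (fun x => ((x.2, x.1.2), x.1.1))
  · intro x hx
    rw [mem_T2e] at hx ⊢
    obtain ⟨hD, ht⟩ := hx
    rw [mem_vE] at ht
    obtain ⟨h1, h2, h3⟩ := isD_iff.1 hD
    rw [mem_evtS] at h1
    have hBB : BB i x.2 = BB i x.1.1 := by unfold BB; rw [ht.2.2]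
    refine ⟨isD_iff.2 ⟨mem_evtS.2 ⟨ht.1, ?_, ?_⟩, h2, ?_⟩, mem_vE.2 ⟨h1.1, ht.2.1.symm,
      ht.2.2.symm⟩⟩
    · show (bd i x.2).card = 1
      rw [ht.2.2]; exact h1.2.1
    · show (BB i x.2).card = 2
      rw [hBB]; exact h1.2.2
    · show Disjoint (BB i x.2) (BB i x.1.2)
      rw [hBB]; exact h3
  · intro x hx h1
    rw [mem_T2e, mem_vE] at hx
    have h2 := congrArg (fun x => x.2) h1
    exact hx.2.2.1 h2.symm
  · intro x hx
    rw [mem_T2e, mem_vE] at hx
    obtain ⟨hD, ht1, ht2, ht3⟩ := hx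
    obtain ⟨d1, d2, d3⟩ := D_ds hg hD
    have hq' : x.2 ≠ x.1.2 := by
      intro h
      apply not_same_bd hD
      rw [← h, ht3]
    have hne := isD_ne hD
    have n1 : ∀ r, ds i r = 2 → ¬ (r ∈ bd i x.1.1 ∨ r ∈ bd i x.1.2) := by
      intro r hr h
      have := d3 r h
      omega
    funext r
    show (cfD i x.2 x.1.2 + ind {x.1.1}) r = (cfD i x.1.1 x.1.2 + ind {x.2}) r
    rw [add_val, add_val, cfD_val, cfD_val, ht3]
    by_cases h1 : r = x.1.1
    · have h2 : r ≠ x.2 := fun h => ht2 (h.symm.trans h1)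
      rw [if_pos h1, if_neg h2, if_neg, if_pos (Or.inl (Or.inl h1))]
      rintro ((h | h) | h)
      · exact h2 h
      · exact hne (h1.symm.trans h)
      · exact n1 r (by rw [h1]; exact d1) h
    · by_cases h2 : r = x.2
      · rw [if_neg h1, if_pos h2, if_pos (Or.inl (Or.inl h2)), if_neg]
        rintro ((h | h) | h)
        · exact h1 h
        · exact hq' (h2.symm.trans h)
        · exact n1 r (by rw [h2]; exact ht1) h
      · rw [if_neg h1, if_neg h2]
        congr 1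
        apply if_congr _ rfl rfl
        tauto
  · intro a ha b hb hab
    have h1 := Bx_T2e hg hb
    rw [hab, Bx_T2e hg ha] at h1
    rw [mem_T2e, mem_vE] at ha hb
    obtain ⟨⟨b1, b2⟩, b3⟩ := b
    obtain ⟨⟨a1, a2⟩, a3⟩ := a
    simp only at h1 ha hb
    obtain ⟨hDa, ta1, ta2, ta3⟩ := ha
    obtain ⟨hDb, tb1, tb2, tb3⟩ := hb
    have na := not_same_bd hDa
    have nb := not_same_bd hDb
    have m1 : b1 = a1 ∨ b1 = a2 ∨ b1 = a3 := by
      have : b1 ∈ ({a1, a2, a3} : Finset α) := by rw [h1]; simp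
      simpa using this
    have m2 : b2 = a1 ∨ b2 = a2 ∨ b2 = a3 := by
      have : b2 ∈ ({a1, a2, a3} : Finset α) := by rw [h1]; simp
      simpa using this
    have m3 : b3 = a1 ∨ b3 = a2 ∨ b3 = a3 := by
      have : b3 ∈ ({a1, a2, a3} : Finset α) := by rw [h1]; simp
      simpa using this
    have e2 : b2 = a2 := by
      by_contra hc
      have h2 : bd i b2 = bd i a1 := by
        rcases m2 with h | h | h
        · rw [h]
        · exact absurd h hc
        · rw [h, ta3]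
      have h3 : b1 = a2 := by
        by_contra hc2
        apply nb
        rcases m1 with h | h | h
        · rw [h2, h]
        · exact absurd h hc2
        · rw [h2, h, ta3]
      have h4 : b3 = a2 := by
        by_contra hc2
        apply nb
        rcases m3 with h | h | h
        · rw [h2, ← tb3, h]
        · exact absurd h hc2
        · rw [h2, ← tb3, h, ta3]
      exact tb2 (h4.trans h3.symm)
    subst e2
    have e1 : b1 = a1 ∨ b1 = a3 := by
      rcases m1 with h | h | h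
      · exact Or.inl h
      · exact absurd h (isD_ne hDb)
      · exact Or.inr h
    have e3 : b3 = a1 ∨ b3 = a3 := by
      rcases m3 with h | h | h
      · exact Or.inl h
      · exfalso
        apply nb
        rw [← tb3, h]
      · exact Or.inr h
    rcases e1 with e1 | e1 <;> rcases e3 with e3 | e3
    · exact absurd (e3.trans e1.symm) tb2
    · left; rw [e1, e3]
    · right; rw [e1, e3]
    · exact absurd (e3.trans e1.symm) tb2

lemma sum_PM (hg : Grad α) (F : (α → ℕ) → ℤ) :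
    ∑ a ∈ PM α i, F (cfN i a) = 2 * ∑ ε ∈ (PM α i).image (cfN i), F ε := by
  apply sum_two (PM α i) (cfN i) (fun a => (a.2, a.1))
  · intro a ha
    rw [mem_PM] at ha ⊢
    refine ⟨ha.2.1, ha.1, ?_⟩
    show (BB i a.2 ∩ BB i a.1).card = 1
    rw [inter_comm]
    exact ha.2.2
  · intro a ha h1
    obtain ⟨y, hy, _⟩ := PM_y ha
    exact hy.ne (congrArg Prod.fst h1).symm
  · intro a _
    unfold cfN
    show ind ({a.2, a.1} ∪ (bd i a.2 ∪ bd i a.1) ∪ (BB i a.2 ∩ BB i a.1)) = _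
    rw [pair_comm, union_comm (bd i a.2), inter_comm (BB i a.2)]
  · intro a ha b hb hab
    have h1 := Bx_N hg hb
    rw [hab, Bx_N hg ha] at h1
    obtain ⟨y, hy, _⟩ := PM_y hb
    rcases pair_cases hy.ne h1.symm with ⟨h2, h3⟩ | ⟨h2, h3⟩
    · exact Or.inl (Prod.ext h2 h3)
    · exact Or.inr (Prod.ext h2 h3)

lemma sum_PC (hg : Grad α) (F : (α → ℕ) → ℤ) :
    ∑ a ∈ PC α i, F (cfC i a.1 a.2) = ∑ ε ∈ (PC α i).image (fun a => cfC i a.1 a.2), F ε := by
  rw [Finset.sum_image]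
  intro a ha b hb hab
  have h1 := Bx_C hg (mem_coe.1 hb)
  have hab' : cfC i a.1 a.2 = cfC i b.1 b.2 := hab
  rw [← hab', Bx_C hg (mem_coe.1 ha)] at h1
  have hCa := mem_PC.1 (mem_coe.1 ha)
  have hCb := mem_PC.1 (mem_coe.1 hb)
  rcases pair_cases (isC_ne hCa) h1 with ⟨h2, h3⟩ | ⟨h2, h3⟩
  · exact Prod.ext h2 h3
  · exfalso
    have h4 := (mem_c3S.1 hCa.1).2.1
    have h5 := (mem_evtS.1 hCb.2.1).2.1
    rw [h2] at h4
    omega

/-! ### the decomposition -/

/-- the configurations of energy five without active diamond -/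
noncomputable def E5 (m : Mat α i) (n : ℕ) : Finset (α → ℕ) :=
  (m.TT 5 n).filter fun ε => ¬ HasAD i ε

/-- the configurations of energy four without active diamond -/
noncomputable def E4 (m : Mat α i) (n : ℕ) : Finset (α → ℕ) :=
  (m.TT 4 n).filter fun ε => ¬ HasAD i ε

lemma cf_of_TT (hB : PB α i) {m : Mat α i} {n r : ℕ} (hn : (lev α i).card = n) (hr : r ≤ 6)
    {ε : α → ℕ} (h : ε ∈ m.TT r n) : Cf m ε := by
  rw [m.mem_TT] at h
  have h5 := card_pkF hB.hg hB.hl h.2.2.1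
  exact ⟨h.2.2.1, h.2.1, by omega, by omega⟩

lemma cfM_sum (hg : Grad α) (hl : HasLower α i) (m : Mat α i) {q q' y : α} (h : isM i q q' y) :
    ∑ p, cfM i q q' y p = 5 := (m.mem_TT.1 (cfM_data hg hl m h rfl).1).1

lemma cfC_sum (hg : Grad α) (hl : HasLower α i) (m : Mat α i) {g q : α} (h : isC i g q) :
    ∑ p, cfC i g q p = 5 := (m.mem_TT.1 (cfC_data hg hl m h rfl).1).1

lemma cfD_sum (hg : Grad α) (hl : HasLower α i) (m : Mat α i) {q q' : α} (h : isD i q q') :
    ∑ p, cfD i q q' p = 4 := (m.mem_TT.1 (cfD_data hg hl m h rfl).1).1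

lemma cfM_not_hasAD (hg : Grad α) {q q' y : α} (h : isM i q q' y) :
    ¬ HasAD i (cfM i q q' y) := by
  apply not_hasAD hg
  intro r hr h0
  have hy := h.corank_y hg
  rw [cfM_pos] at h0
  obtain ⟨⟨hq, -⟩, ⟨hq', -⟩, -⟩ := h
  rw [mem_U1] at hq hq'
  rcases h0 with h0 | h0 | h0 | h0 | h0
  · rw [h0]; exact hq.2
  · rw [h0]; exact hq'.2
  · have := ds_of_mem_bd hg hq.1 h0
    omega
  · have := ds_of_mem_bd hg hq'.1 h0
    omega
  · rw [h0, ds_eq_zero.2 hy] at hr
    omega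

/-- **the decomposition of `E5`** -/
theorem E5_eq (hB : PB α i) {m : Mat α i} (hF : m.FullX ∅) {n : ℕ} (hn : (lev α i).card = n) :
    E5 m n = ((T1 α i).image (cfX i) ∪ (T2e α i).image (cfX i)) ∪
      ((PM α i).image (cfN i) ∪ (PC α i).image (fun a => cfC i a.1 a.2)) := by
  have hg := hB.hg
  have hl := hB.hl
  ext ε
  rw [mem_union, mem_union, mem_union]
  constructor
  · intro hε
    unfold E5 at hε
    rw [mem_filter] at hε
    have hC := cf_of_TT hB hn (by omega) hε.1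
    have hs := (m.mem_TT.1 hε.1).1
    rcases cls5 hB hF hC (by omega) hε.2 with ⟨q, q', hD, h1⟩ | ⟨q, q', y, hM, h1⟩ | ⟨g, q, hC', h1⟩
    · left
      rcases h1 with h1 | ⟨t, ht, h1⟩
      · rw [h1, cfD_sum hg hl m hD] at hs
        omega
      · rcases ht with ht | ht | ht
        · left
          rw [mem_image]
          exact ⟨((q, q'), t), mem_T1.2 ⟨hD, ht⟩, h1.symm⟩
        · right
          rw [mem_image]
          exact ⟨((q, q'), t), mem_T2e.2 ⟨hD, ht⟩, h1.symm⟩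
        · right
          rw [mem_image]
          refine ⟨((q', q), t), mem_T2e.2 ⟨isD_comm hD, ht⟩, ?_⟩
          show cfD i q' q + ind {t} = ε
          rw [cfD_comm, h1]
    · right; left
      rw [mem_image]
      exact ⟨(q, q'), (PM_of hM).1, by rw [(PM_of hM).2, h1]⟩
    · right; right
      rw [mem_image]
      exact ⟨(g, q), mem_PC.2 hC', h1.symm⟩
  · intro h
    unfold E5
    rw [mem_filter]
    rcases h with (h | h) | (h | h)
    · rw [mem_image] at h
      obtain ⟨x, hx, rfl⟩ := h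
      rw [mem_T1] at hx
      have := vD_data hg hl m hx.1 hx.2 hn
      exact ⟨this.1, this.2.1⟩
    · rw [mem_image] at h
      obtain ⟨x, hx, rfl⟩ := h
      rw [mem_T2e] at hx
      have := vE_data hg hl m hx.1 hx.2 hn
      exact ⟨this.1, this.2.1⟩
    · rw [mem_image] at h
      obtain ⟨a, ha, rfl⟩ := h
      obtain ⟨y, hy, he⟩ := PM_y ha
      rw [he]
      exact ⟨(cfM_data hg hl m hy hn).1, cfM_not_hasAD hg hy⟩
    · rw [mem_image] at h
      obtain ⟨a, ha, rfl⟩ := h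
      rw [mem_PC] at ha
      exact ⟨(cfC_data hg hl m ha hn).1, cfC_not_hasAD hg ha⟩

/-- the single elements at distance two -/
lemma T1_card_bd {x : (α × α) × α} (hD : isD i x.1.1 x.1.2) :
    (bd i x.1.1).card = 1 ∧ (bd i x.1.2).card = 1 :=
  ⟨(mem_U1.1 hD.1.1).2, (mem_U1.1 hD.2.1.1).2⟩

lemma card3 (hg : Grad α) {x : (α × α) × α} (hx : x ∈ T2e α i) :
    (Bx i (cfX i x)).card = 3 := by
  rw [Bx_T2e hg hx]
  rw [mem_T2e, mem_vE] at hx
  obtain ⟨hD, h1, h2, h3⟩ := hx
  have h4 : x.1.2 ≠ x.2 := by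
    intro h
    apply not_same_bd hD
    rw [h, h3]
  rw [card_insert_of_notMem, card_pair h4]
  rw [mem_insert, mem_singleton]
  rintro (h | h)
  · exact isD_ne hD h
  · exact h2 h.symm

lemma dis12 (hg : Grad α) :
    Disjoint ((T1 α i).image (cfX i)) ((T2e α i).image (cfX i)) := by
  rw [Finset.disjoint_left]
  intro ε h1 h2
  rw [mem_image] at h1 h2
  obtain ⟨x, hx, rfl⟩ := h1
  obtain ⟨z, hz, h3⟩ := h2
  have h4 := card3 hg hz
  rw [h3, Bx_T1 hg hx] at h4
  have := Finset.card_le_two (a := x.1.1) (b := x.1.2)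
  omega

lemma dis34 (hg : Grad α) :
    Disjoint ((PM α i).image (cfN i)) ((PC α i).image (fun a => cfC i a.1 a.2)) := by
  rw [Finset.disjoint_left]
  intro ε h1 h2
  rw [mem_image] at h1 h2
  obtain ⟨a, ha, rfl⟩ := h1
  obtain ⟨c, hc, h3⟩ := h2
  have h4 := Bx_C hg hc
  have h3' : cfC i c.1 c.2 = cfN i a := h3
  rw [h3', Bx_N hg ha] at h4
  have h5 : c.1 ∈ ({a.1, a.2} : Finset α) := by rw [h4]; simp
  rw [mem_insert, mem_singleton] at h5
  have h6 := (mem_c3S.1 (mem_PC.1 hc).1).2.1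
  rw [mem_PM, mem_evtS, mem_evtS] at ha
  rcases h5 with h5 | h5
  · rw [h5] at h6
    omega
  · rw [h5] at h6
    omega

lemma dis14 (hg : Grad α) :
    Disjoint ((T1 α i).image (cfX i) ∪ (T2e α i).image (cfX i))
      ((PC α i).image (fun a => cfC i a.1 a.2)) := by
  rw [Finset.disjoint_left]
  intro ε h1 h2
  rw [mem_image] at h2
  obtain ⟨c, hc, h3⟩ := h2
  have h3' : cfC i c.1 c.2 = ε := h3
  have h4 := Bx_C hg hc
  have h6 := (mem_c3S.1 (mem_PC.1 hc).1).2.1
  rw [mem_union, mem_image, mem_image] at h1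
  rcases h1 with ⟨x, hx, rfl⟩ | ⟨x, hx, rfl⟩
  · rw [h3', Bx_T1 hg hx] at h4
    have h5 : c.1 ∈ ({x.1.1, x.1.2} : Finset α) := by rw [h4]; simp
    rw [mem_insert, mem_singleton] at h5
    have h7 := T1_card_bd (mem_T1.1 hx).1
    rcases h5 with h5 | h5
    · rw [h5] at h6
      omega
    · rw [h5] at h6
      omega
  · have h8 := card3 hg hx
    rw [← h3', h4] at h8
    have := Finset.card_le_two (a := c.1) (b := c.2)
    omega

lemma dis13 (hg : Grad α) :
    Disjoint ((T1 α i).image (cfX i) ∪ (T2e α i).image (cfX i)) ((PM α i).image (cfN i)) := by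
  rw [Finset.disjoint_left]
  intro ε h1 h2
  rw [mem_image] at h2
  obtain ⟨a, ha, h3⟩ := h2
  have h4 := Bx_N hg ha
  rw [mem_union, mem_image, mem_image] at h1
  rcases h1 with ⟨x, hx, rfl⟩ | ⟨x, hx, rfl⟩
  · rw [h3, Bx_T1 hg hx] at h4
    have hD := (mem_T1.1 hx).1
    have h5 : (BB i a.1 ∩ BB i a.2).card = 0 := by
      rcases pair_cases (isD_ne hD) h4 with ⟨h6, h7⟩ | ⟨h6, h7⟩
      · rw [← h6, ← h7, Finset.card_eq_zero, ← Finset.disjoint_iff_inter_eq_empty]
        exact hD.2.2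
      · rw [← h6, ← h7, Finset.card_eq_zero, ← Finset.disjoint_iff_inter_eq_empty]
        exact hD.2.2.symm
    have h6 := (mem_PM.1 ha).2.2
    omega
  · have h8 := card3 hg hx
    rw [← h3, h4] at h8
    have := Finset.card_le_two (a := a.1) (b := a.2)
    omega

/-- the sum over `E5`, in terms of the index sets -/
theorem sum_E5_aux (hB : PB α i) {m : Mat α i} (hF : m.FullX ∅) {n : ℕ}
    (hn : (lev α i).card = n) (F : (α → ℕ) → ℤ) :
    2 * ∑ ε ∈ E5 m n, F ε = ∑ x ∈ T1 α i, F (cfX i x) + ∑ x ∈ T2e α i, F (cfX i x) +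
      ∑ a ∈ PM α i, F (cfN i a) + 2 * ∑ a ∈ PC α i, F (cfC i a.1 a.2) := by
  have hg := hB.hg
  rw [sum_T1 hg, sum_T2e hg, sum_PM hg, sum_PC hg, E5_eq hB hF hn, Finset.sum_union,
    Finset.sum_union (dis12 hg), Finset.sum_union (dis34 hg)]
  · ring
  · rw [Finset.disjoint_union_right]
    exact ⟨dis13 hg, dis14 hg⟩

end V5

end Pool.Gauss
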