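import Pool.Agent.Work.MP_065141_co.K.V6ChiP

/-!
# Conclusions of the laws V3, V5, V6 in planar coordinates
-/

set_option autoImplicit false
set_option linter.unusedSectionVars false
set_option linter.unusedVariables false
open scoped Classical
open Finset

namespace Pool.Gauss

variable {α : Type} [Fintype α] [PartialOrder α]

/-- the conclusions of the laws V3, V5, V6 at base `b` -/
structure V6Conc (lo hi : α → ℕ → ℕ) (f : α → ℕ → ℕ → α) (b : ℕ) : Prop where
  /-- as many P- as Q-elements over every pair -/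
  H : ∀ a, corank a = 0 → H0 lo hi f b a
  /-- no doubled common children -/
  D : DEv α b = ∅
  /-- no single children of common children -/
  S : SEv α b = ∅
  /-- no single parents of common parents -/
  S' : SEv' α b = ∅
  /-- no joins -/
  X : XEv α b = ∅
  /-- the total charge of every strip vanishes -/
  tot : ∀ a, corank a = 0 → ∑ c ∈ Ico (lo a b) (hi a b), ((nG f b a c : ℤ) - nG' f b a c) +
    ∑ c ∈ Ico (lo a b) (hi a b - 1), (1 - (nN f b a c : ℤ)) = 0
  /-- at most one common child -/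
  N1 : ∀ a, corank a = 0 → ∀ c, lo a b ≤ c → c + 2 ≤ hi a b → nN f b a c ≤ 1
  /-- wide strips: no single children of P-elements -/
  G : ∀ a, corank a = 0 → lo a b + 3 ≤ hi a b → ∀ c, lo a b ≤ c → c + 1 ≤ hi a b →
    nG f b a c = 0 ∧ nG' f b a c = 0
  /-- wide strips: all common children -/
  N : ∀ a, corank a = 0 → lo a b + 3 ≤ hi a b → ∀ c, lo a b ≤ c → c + 2 ≤ hi a b →
    nN f b a c = 1

namespace Pln

variable {lo hi : α → ℕ → ℕ} {i : ℕ} {f : α → ℕ → ℕ → α}

/-- the footprints -/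
noncomputable def ftp (lo hi : α → ℕ → ℕ) (b : ℕ) : Finset ((α × ℕ) ⊕ (α × ℕ)) :=
  (prs lo hi b).disjSum (trs lo hi b)

/-- the footprint as a set -/
noncomputable def fset (f : α → ℕ → ℕ → α) (b : ℕ) : (α × ℕ) ⊕ (α × ℕ) → Finset α :=
  Sum.elim (fun p => pr2 f b p.1 p.2) (fun p => tr3 f b p.1 p.2)

lemma fset_inj (h : Pln lo hi i f) {b : ℕ} (hb : b ≤ i) {x y : (α × ℕ) ⊕ (α × ℕ)}
    (hx : x ∈ ftp lo hi b) (hy : y ∈ ftp lo hi b) (he : fset f b x = fset f b y) : x = y := by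
  unfold ftp at hx hy
  unfold fset at he
  rcases x with p | p <;> rcases y with q | q
  · rw [inl_mem_disjSum] at hx hy
    rw [h.pr2_inj hb hx hy he]
  · rw [inl_mem_disjSum] at hx
    rw [inr_mem_disjSum] at hy
    have h1 := mem_prs.1 hx
    have h2 := mem_trs.1 hy
    have h3 := h.card_pr2 hb h1.1 h1.2.1 h1.2.2
    have h4 := h.card_tr3 hb h2.1 h2.2.1 h2.2.2
    simp only [Sum.elim_inl, Sum.elim_inr] at he
    rw [he] at h3
    omega
  · rw [inr_mem_disjSum] at hx
    rw [inl_mem_disjSum] at hy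
    have h1 := mem_prs.1 hy
    have h2 := mem_trs.1 hx
    have h3 := h.card_pr2 hb h1.1 h1.2.1 h1.2.2
    have h4 := h.card_tr3 hb h2.1 h2.2.1 h2.2.2
    simp only [Sum.elim_inl, Sum.elim_inr] at he
    rw [he] at h4
    omega
  · rw [inr_mem_disjSum] at hx hy
    rw [h.tr3_inj hb hx hy he]

/-- the footprint of an event -/
lemma evtS_foot (h : Pln lo hi i f) (C : CtxK α) {b : ℕ} (hb : b + 1 ≤ i) {q : α}
    (hq : q ∈ evtS α b) : ∃ p ∈ prs lo hi b, BB b q = pr2 f b p.1 p.2 := by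
  rcases ds2_iff.1 (mem_evtS.1 hq).1 with h1 | h1
  · obtain ⟨p, hp, h2⟩ := h.QEv_pr C (by omega : b ≤ i) ((C.evtS_above h1).1 hq)
    exact ⟨p, hp, by rw [C.relp_BB_above h1, h2]⟩
  · obtain ⟨p, hp, _, h2⟩ := h.PEv_pr C hb ((C.evtS_below h1).1 hq)
    exact ⟨p, hp, by rw [C.relp_BB_below h1, h2]⟩

/-- the footprint of an object of energy three -/
lemma O3_foot (h : Pln lo hi i f) (C : CtxK α) (hiH : i ≤ HT α) (hP : ∀ j < i, Perf α j)
    {b : ℕ} (hb : b + 1 ≤ i) {T : Finset α} (hT : T ∈ O3 α b) :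
    ∃ x ∈ ftp lo hi b, NT b T = fset f b x := by
  rw [O3_eq C.grd, mem_union, mem_union, mem_image, mem_image, mem_image] at hT
  rcases hT with ⟨g, h1, rfl⟩ | ⟨t, h1, rfl⟩ | ⟨s, h1, rfl⟩
  · rw [NT_TC C.grd h1]
    rcases ds2_iff.1 (mem_c3S.1 h1).1 with h2 | h2
    · obtain ⟨j, rfl⟩ : ∃ j, b = j + 2 := ⟨b - 2, by omega⟩
      obtain ⟨a, c, ha, h3, h4, rfl⟩ := h.VEv_foot C (by omega) ((C.c3S_above h2).1 h1)
      refine ⟨Sum.inr (a, c), ?_, ?_⟩
      · unfold ftp
        rw [inr_mem_disjSum]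
        exact mem_trs.2 ⟨ha, h3, h4⟩
      · rw [C.relp_BB_above h2, (h.VEv_exists C (by omega) ha h3 h4).2]
        rfl
    · obtain ⟨a, c, ha, h3, h4, h5, _⟩ := h.NEv_foot C hiH hP hb ((C.c3S_below h2).1 h1)
      refine ⟨Sum.inr (a, c), ?_, ?_⟩
      · unfold ftp
        rw [inr_mem_disjSum]
        exact mem_trs.2 ⟨ha, h3, h4⟩
      · rw [C.relp_BB_below h2, h5]
        rfl
  · obtain ⟨q, p, k1, k2, k3, k4, k5, k6, k7⟩ := BB_gS C.grd h1
    obtain ⟨p', hp', h2⟩ := h.evtS_foot C hb k1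
    refine ⟨Sum.inl p', ?_, ?_⟩
    · unfold ftp
      rw [inl_mem_disjSum]
      exact hp'
    · rw [NT_TG C.grd h1, BB3_single k2, h2]
      rfl
  · obtain ⟨q, q', hne, hs⟩ := card_eq_two.1 (mem_dpS.1 h1).2.1
    have hq : q ∈ s := by rw [hs]; simp
    obtain ⟨p', hp', h2⟩ := h.evtS_foot C hb ((mem_dpS.1 h1).1 q hq)
    refine ⟨Sum.inl p', ?_, ?_⟩
    · unfold ftp
      rw [inl_mem_disjSum]
      exact hp'
    · rw [NT_TD' C.grd h1 hq, h2]
      rfl

/-- sums over the objects of energy three, sorted by the footprints -/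
lemma sum_foot (h : Pln lo hi i f) (C : CtxK α) (hiH : i ≤ HT α) (hP : ∀ j < i, Perf α j)
    {b : ℕ} (hb : b + 1 ≤ i) (G : Finset α → ℤ) :
    ∑ T ∈ O3 α b, sgT b T * G (NT b T) = ∑ x ∈ ftp lo hi b, chi b (fset f b x) * G (fset f b x) := by
  have h1 : ∀ x ∈ ftp lo hi b, chi b (fset f b x) * G (fset f b x) =
      ∑ T ∈ O3 α b, if NT b T = fset f b x then sgT b T * G (NT b T) else 0 := by
    intro x _
    unfold chi
    rw [sum_filter, sum_mul]
    apply sum_congr rfl
    intro T _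
    split_ifs with h2
    · rw [h2]
    · ring
  rw [sum_congr rfl h1, sum_comm]
  apply sum_congr rfl
  intro T hT
  obtain ⟨x, hx, h2⟩ := h.O3_foot C hiH hP hb hT
  rw [sum_eq_single x]
  · rw [if_pos h2]
  · intro y hy hne
    rw [if_neg]
    intro h3
    exact hne (h.fset_inj (by omega) hy hx (by rw [← h3, h2]))
  · intro h3
    exact (h3 hx).elim

lemma inStrip_fset (h : Pln lo hi i f) {b : ℕ} {x : (α × ℕ) ⊕ (α × ℕ)} (hx : x ∈ ftp lo hi b) :
    corank (Sum.elim Prod.fst Prod.fst x : α) = 0 ∧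
      InStrip lo hi f b (Sum.elim Prod.fst Prod.fst x) (fset f b x) := by
  unfold ftp at hx
  rcases x with p | p
  · rw [inl_mem_disjSum, mem_prs] at hx
    refine ⟨hx.1, ⟨p.2, hx.2.1, hx.2.2, Finset.Subset.refl _⟩, ?_⟩
    intro y hy
    have hy' : y ∈ pr2 f b p.1 p.2 := hy
    rw [mem_pr2] at hy'
    rcases hy' with rfl | rfl
    · exact ⟨p.2, hx.2.1, by simp only [Sum.elim_inl]; omega, rfl⟩
    · exact ⟨p.2 + 1, by simp only [Sum.elim_inl]; omega, hx.2.2, rfl⟩
  · rw [inr_mem_disjSum, mem_trs] at hx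
    refine ⟨hx.1, ⟨p.2, hx.2.1, by simp only [Sum.elim_inr]; omega, ?_⟩, ?_⟩
    · intro y hy
      have : y ∈ tr3 f b p.1 p.2 := by
        rw [tr3_eq, mem_union]
        exact Or.inl hy
      exact this
    · intro y hy
      have hy' : y ∈ tr3 f b p.1 p.2 := hy
      rw [mem_tr3] at hy'
      rcases hy' with rfl | rfl | rfl
      · exact ⟨p.2, hx.2.1, by simp only [Sum.elim_inr]; omega, rfl⟩
      · exact ⟨p.2 + 1, by simp only [Sum.elim_inr]; omega, by simp only [Sum.elim_inr]; omega, rfl⟩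
      · exact ⟨p.2 + 2, by simp only [Sum.elim_inr]; omega, by simp only [Sum.elim_inr]; omega, rfl⟩

/-- at most one common child of two doubles -/
lemma nN_le_one (h : Pln lo hi i f) (C : CtxK α) (hiH : i ≤ HT α) (hP : ∀ j < i, Perf α j)
    {b : ℕ} (hb : b + 1 ≤ i) (hD : DEv α b = ∅) {a : α} {c : ℕ} (ha : corank a = 0)
    (h1 : lo a b ≤ c) (h2 : c + 2 ≤ hi a b) : nN f b a c ≤ 1 := by
  unfold nN
  rw [card_le_one]
  intro g hg g' hg'
  rw [mem_filter] at hg hg'
  by_contra hne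
  have key : ∀ g ∈ NEv α b, Pr2 g = tr3 f b a c →
      Pr g = {f a (b + 1) (c + 1), f a (b + 1) (c + 2)} := by
    intro g hg h3
    obtain ⟨a', c', ha', k1, k2, k3, k4⟩ := h.NEv_foot C hiH hP hb hg
    rw [h3] at k3
    have := h.tr3_inj (by omega) (p := (a, c)) (q := (a', c')) (mem_trs.2 ⟨ha, h1, h2⟩)
      (mem_trs.2 ⟨ha', k1, k2⟩) k3
    obtain ⟨rfl, rfl⟩ := Prod.mk.inj this
    exact k4
  have h3 : ({g, g'} : Finset α) ∈ DEv α b := by
    rw [mem_DEv]
    refine ⟨?_, card_pair hne, ?_⟩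
    · intro x hx
      rw [mem_insert, mem_singleton] at hx
      rcases hx with rfl | rfl
      · exact hg.1
      · exact hg'.1
    · intro x hx y hy
      have e : ∀ x ∈ ({g, g'} : Finset α), Pr x = {f a (b + 1) (c + 1), f a (b + 1) (c + 2)} := by
        intro x hx
        rw [mem_insert, mem_singleton] at hx
        rcases hx with rfl | rfl
        · exact key _ hg.1 hg.2
        · exact key _ hg'.1 hg'.2
      rw [e x hx, e y hy]
  rw [hD] at h3
  simp at h3

/-- wide strips: no single parents of Q-elements -/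
lemma nG'_zero (h : Pln lo hi i f) (C : CtxK α) {b : ℕ} (hb : b ≤ i)
    (hprev : ∀ j, b = j + 2 → ∀ a, corank a = 0 → H0 lo hi f j a) {a : α} {c : ℕ}
    (ha : corank a = 0) (hw : lo a b + 3 ≤ hi a b) (h1 : lo a b ≤ c) (h2 : c + 1 ≤ hi a b) :
    nG' f b a c = 0 := by
  have hb2 := h.two_le_of_wide hb ha (by omega)
  obtain ⟨j, rfl⟩ : ∃ j, b = j + 2 := ⟨b - 2, by omega⟩
  unfold nG'
  rw [card_eq_zero, filter_eq_empty_iff]
  intro u hu h3
  rw [mem_GEv'] at hu
  obtain ⟨h4, v, h5, h6⟩ := hu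
  have h7 : Ch3 u = Ch2 v := by
    unfold Ch3
    rw [h6, singleton_biUnion]
  rw [h7] at h3
  exact h.no_Gup C hb (hprev j rfl) h5 ha h3 h1 h2 hw h6

/-- **the conclusions of V3, V5, V6** -/
theorem V6_conc (h : Pln lo hi i f) (C : CtxK α) (hiH : i ≤ HT α) (hP : ∀ j < i, Perf α j)
    {b : ℕ} (hb : b + 1 ≤ i) (hH : ∀ a, corank a = 0 → H0 lo hi f b a) (hD : DEv α b = ∅)
    (hprev : ∀ j, b = j + 2 → ∀ a, corank a = 0 → H0 lo hi f j a)
    (h3 : V3L α b) (h6 : V6L α b) : V6Conc lo hi f b := by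
  have hN1 : ∀ a, corank a = 0 → ∀ c, lo a b ≤ c → c + 2 ≤ hi a b → nN f b a c ≤ 1 :=
    fun a ha c k1 k2 => h.nN_le_one C hiH hP hb hD ha k1 k2
  have hchi2 : ∀ a, corank a = 0 → ∀ c, lo a b ≤ c → c + 1 ≤ hi a b →
      chi b (pr2 f b a c) = (nG f b a c : ℤ) - nG' f b a c := fun a ha c k1 k2 =>
    h.chi_pr2 C hb ha k1 k2 (hH a ha c k1 k2)
  have hchi3 : ∀ a, corank a = 0 → ∀ c, lo a b ≤ c → c + 2 ≤ hi a b →
      chi b (tr3 f b a c) = 1 - nN f b a c := fun a ha c k1 k2 =>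
    h.chi_tr3 C (by omega) ha k1 k2
  -- total charge
  have h0 : ∑ x ∈ ftp lo hi b, chi b (fset f b x) = 0 := by
    have e1 := h.sum_foot C hiH hP hb (fun _ => 1)
    simp only [mul_one] at e1
    rw [← e1]
    exact h3
  -- the relation
  have hrel : 2 * (((seS α b).card : ℤ) + (xS α b).card) ≤
      ∑ p ∈ (ftp lo hi b ×ˢ ftp lo hi b).filter
        (fun p => Disjoint (fset f b p.1) (fset f b p.2)),
        chi b (fset f b p.1) * chi b (fset f b p.2) := by
    have h6' : 2 * (((seS α b).card : ℤ) + (xS α b).card) = ∑ T ∈ O3 α b, ∑ T' ∈ O3 α b,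
      (if Disjoint (NT b T) (NT b T') then sgT b T * sgT b T' else 0) := h6
    rw [h6', sum_filter, sum_product]
    apply le_of_eq
    have e1 : ∀ T ∈ O3 α b, ∑ T' ∈ O3 α b,
        (if Disjoint (NT b T) (NT b T') then sgT b T * sgT b T' else 0) =
        sgT b T * ∑ x ∈ ftp lo hi b, chi b (fset f b x) *
          (if Disjoint (NT b T) (fset f b x) then 1 else 0) := by
      intro T _
      rw [← h.sum_foot C hiH hP hb (fun S => if Disjoint (NT b T) S then 1 else 0), mul_sum]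
      apply sum_congr rfl
      intro T' _
      split_ifs <;> ring
    rw [sum_congr rfl e1, h.sum_foot C hiH hP hb (fun S => ∑ x ∈ ftp lo hi b,
      chi b (fset f b x) * (if Disjoint S (fset f b x) then 1 else 0))]
    apply sum_congr rfl
    intro x _
    rw [mul_sum]
    apply sum_congr rfl
    intro y _
    split_ifs <;> ring
  have key := v6_pln' (ftp lo hi b) (fun x => chi b (fset f b x)) (fset f b)
    (fun x => (Sum.elim Prod.fst Prod.fst x : α)) h (by omega : b ≤ i)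
    (fun x hx => h.inStrip_fset hx) (by
      intro a ha hw
      left
      intro x hx hxa
      unfold ftp at hx
      rcases x with p | p
      · rw [inl_mem_disjSum, mem_prs] at hx
        have e1 : p.1 = a := hxa
        have e2 := hchi2 p.1 hx.1 p.2 hx.2.1 hx.2.2
        have e3 : nG' f b p.1 p.2 = 0 := by
          subst e1
          exact h.nG'_zero C (by omega) hprev hx.1 hw hx.2.1 hx.2.2
        show 0 ≤ chi b (pr2 f b p.1 p.2)
        rw [e2, e3]
        simp
      · rw [inr_mem_disjSum, mem_trs] at hx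
        show 0 ≤ chi b (tr3 f b p.1 p.2)
        rw [hchi3 p.1 hx.1 p.2 hx.2.1 hx.2.2]
        have := hN1 p.1 hx.1 p.2 hx.2.1 hx.2.2
        have : (nN f b p.1 p.2 : ℤ) ≤ 1 := by exact_mod_cast this
        linarith) h0 (by positivity) hrel
  obtain ⟨kE, ks⟩ := key
  have hse : (seS α b).card = 0 ∧ (xS α b).card = 0 := by omega
  have hse1 := card_eq_zero.1 hse.1
  have hse2 := card_eq_zero.1 hse.2
  rw [C.seS_eq, union_eq_empty] at hse1
  rw [C.xS_eq, union_eq_empty] at hse2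
  have hwide2 : ∀ a, corank a = 0 → lo a b + 3 ≤ hi a b → ∀ c, lo a b ≤ c → c + 1 ≤ hi a b →
      nG f b a c = 0 ∧ nG' f b a c = 0 := by
    intro a ha hw c k1 k2
    have e1 := (ks a).2 hw (Sum.inl (a, c)) (by
      unfold ftp
      rw [inl_mem_disjSum]
      exact mem_prs.2 ⟨ha, k1, k2⟩) rfl
    have e2 : chi b (pr2 f b a c) = 0 := e1
    have e3 := h.nG'_zero C (by omega) hprev ha hw k1 k2
    rw [hchi2 a ha c k1 k2, e3] at e2
    push_cast at e2
    exact ⟨by omega, e3⟩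
  refine ⟨hH, hD, hse1.1, hse1.2, hse2.1, ?_, hN1, hwide2, ?_⟩
  · intro a ha
    have e1 := (ks a).1
    have e2 : (ftp lo hi b).filter (fun x => (Sum.elim Prod.fst Prod.fst x : α) = a) =
        ((Ico (lo a b) (hi a b)).image fun c => (a, c)).disjSum
          ((Ico (lo a b) (hi a b - 1)).image fun c => (a, c)) := by
      ext x
      rw [mem_filter]
      unfold ftp
      rcases x with p | p
      · rw [inl_mem_disjSum, inl_mem_disjSum, mem_prs, mem_image]
        constructor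
        · rintro ⟨k1, k2⟩
          have k2' : p.1 = a := k2
          subst k2'
          exact ⟨p.2, mem_Ico.2 ⟨k1.2.1, by omega⟩, rfl⟩
        · rintro ⟨c, k1, rfl⟩
          rw [mem_Ico] at k1
          exact ⟨⟨ha, k1.1, by simp only; omega⟩, rfl⟩
      · rw [inr_mem_disjSum, inr_mem_disjSum, mem_trs, mem_image]
        constructor
        · rintro ⟨k1, k2⟩
          have k2' : p.1 = a := k2
          subst k2'
          exact ⟨p.2, mem_Ico.2 ⟨k1.2.1, by omega⟩, rfl⟩
        · rintro ⟨c, k1, rfl⟩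
          rw [mem_Ico] at k1
          exact ⟨⟨ha, k1.1, by simp only; omega⟩, rfl⟩
    rw [e2, sum_disjSum, sum_image, sum_image] at e1
    · rw [← e1]
      congr 1
      · apply sum_congr rfl
        intro c hc
        rw [mem_Ico] at hc
        exact (hchi2 a ha c hc.1 (by omega)).symm
      · apply sum_congr rfl
        intro c hc
        rw [mem_Ico] at hc
        exact (hchi3 a ha c hc.1 (by omega)).symm
    · intro c _ c' _ hcc
      exact (Prod.mk.inj hcc).2
    · intro c _ c' _ hcc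
      exact (Prod.mk.inj hcc).2
  · intro a ha hw c k1 k2
    have e1 := (ks a).2 hw (Sum.inr (a, c)) (by
      unfold ftp
      rw [inr_mem_disjSum]
      exact mem_trs.2 ⟨ha, k1, k2⟩) rfl
    have e2 : chi b (tr3 f b a c) = 0 := e1
    rw [hchi3 a ha c k1 k2] at e2
    omega

/-- the laws V3, V5, V6 at the perfect bases -/
structure Laws (α : Type) [Fintype α] [PartialOrder α] (i : ℕ) : Prop where
  L5 : ∀ b, b + 1 ≤ i → V5L α b
  L3 : ∀ b, b + 1 ≤ i → (∀ S : Finset α, HS b S = 0) → V3L α b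
  L6 : ∀ b, b + 1 ≤ i → (∀ S : Finset α, HS b S = 0) → jS α b = ∅ → jtS α b = ∅ → dS α b = ∅ →
    V6L α b

/-- **V6 at every perfect base without objects J** (`JEv`, `JtEv` empty is automatic for
`b + 3 ≤ i`) -/
theorem V6_all (h : Pln lo hi i f) (C : CtxK α) (hiH : i ≤ HT α) (hP : ∀ j < i, Perf α j)
    (L : Laws α i) {b : ℕ} (hb : b + 1 ≤ i) (hJ : JEv α b = ∅) (hJt : JtEv α b = ∅) :
    V6Conc lo hi f b := by
  obtain ⟨h1, h2⟩ := h.V5_zero C hiH hP hb (L.L5 b hb) hJ
  have h3 : ∀ j, b = j + 2 → ∀ a, corank a = 0 → H0 lo hi f j a := by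
    intro j hj
    exact (h.V5_zero C hiH hP (by omega) (L.L5 j (by omega)) (h.JEv_empty C (by omega))).1
  have h4 := (h.HS_zero_iff C hb).2 h1
  refine h.V6_conc C hiH hP hb h1 h2 h3 (L.L3 b hb h4) (L.L6 b hb h4 ?_ ?_ ?_)
  · rw [C.jS_eq, hJ, h.JEv'_empty C (by omega), union_empty]
  · rw [C.jtS_eq, hJt, h.JtEv'_empty C (by omega), union_empty]
  · rw [C.dS_eq, h2, h.DEv'_empty C (by omega), union_empty]

/-- **V6 in the perfect rows** -/
theorem V6_words (h : Pln lo hi i f) (C : CtxK α) (hiH : i ≤ HT α) (hP : ∀ j < i, Perf α j)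
    (L : Laws α i) {b : ℕ} (hb : b + 3 ≤ i) : V6Conc lo hi f b :=
  h.V6_all C hiH hP L (by omega) (h.JEv_empty C hb) (h.JtEv_empty C hb)

end Pln

end Pool.Gauss
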