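import Pool.Agent.Work.MP_065141_co.K.V6Pln

/-!
# The objects of energy three and the charges of the supports
-/

set_option autoImplicit false
set_option linter.unusedSectionVars false
set_option linter.unusedVariables false
open scoped Classical
open Finset

namespace Pool.Gauss

variable {α : Type} [Fintype α] [PartialOrder α]

/-! ### the three kinds of objects of energy three -/

section sym

variable (α) (i : ℕ)

/-- single neighbours of events -/
noncomputable def gS : Finset α :=
  univ.filter fun t => ds i t = 3 ∧ ∃ q ∈ evtS α i, bd i t = {q}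

/-- doubled events -/
noncomputable def dpS : Finset (Finset α) :=
  ((evtS α i).powersetCard 2).filter fun s => ∀ q ∈ s, ∀ q' ∈ s, bd i q = bd i q'

end sym

variable {i : ℕ}

lemma mem_gS {t : α} : t ∈ gS α i ↔ ds i t = 3 ∧ ∃ q ∈ evtS α i, bd i t = {q} := by
  unfold gS
  simp

lemma mem_dpS {s : Finset α} : s ∈ dpS α i ↔ (∀ q ∈ s, q ∈ evtS α i) ∧ s.card = 2 ∧
    ∀ q ∈ s, ∀ q' ∈ s, bd i q = bd i q' := by
  unfold dpS
  rw [mem_filter, mem_powersetCard]
  exact ⟨fun h => ⟨fun q hq => h.1.1 hq, h.1.2, h.2⟩,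
    fun h => ⟨⟨fun q hq => h.1 q hq, h.2.1⟩, h.2.2⟩⟩

/-- the level neighbours of an element at distance three -/
noncomputable def BB3 (i : ℕ) (t : α) : Finset α := (bd i t).biUnion (BB i)

/-- the set of a triple -/
noncomputable def TC (i : ℕ) (g : α) : Finset α := insert g (bd i g)

/-- the set of a single neighbour of an event -/
noncomputable def TG (i : ℕ) (t : α) : Finset α := insert t (bd i t ∪ BB i t)

/-- the set of a doubled event -/
noncomputable def TD (i : ℕ) (s : Finset α) : Finset α := s ∪ s.biUnion (bd i)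

lemma ds_bd (hg : Grad α) {p q : α} (h : p ∈ bd i q) : ds i q = ds i p + 1 :=
  fr_ds hg (mem_bd.1 h)

lemma isC3_iff {T : Finset α} : isC3 i T ↔ ∃ g ∈ c3S α i, TC i g = T := by
  unfold isC3 TC
  constructor
  · rintro ⟨q, h1, h2, h3⟩
    exact ⟨q, by unfold c3S; exact mem_filter.2 ⟨h1, h2⟩, h3.symm⟩
  · rintro ⟨q, h1, h3⟩
    unfold c3S at h1
    rw [mem_filter] at h1
    exact ⟨q, h1.1, h1.2, h3.symm⟩

lemma BB_single {t q : α} (h : bd i t = {q}) : BB i t = bd i q := by
  unfold BB
  rw [h, singleton_biUnion]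

lemma BB3_single {t q : α} (h : bd i t = {q}) : BB3 i t = BB i q := by
  unfold BB3
  rw [h, singleton_biUnion]

lemma isG3_iff (hg : Grad α) {T : Finset α} : isG3 i T ↔ ∃ t ∈ gS α i, TG i t = T := by
  constructor
  · rintro ⟨p, q, t, h1, h2, h3, h4, h5, h6, h7⟩
    refine ⟨t, mem_gS.2 ⟨h5, q, ?_, h6⟩, ?_⟩
    · rw [mem_evtS, h4, BB_single h4]
      exact ⟨h3, card_singleton _, h2⟩
    · unfold TG
      rw [BB_single h6, h6, h4, h7]
      ext x
      simp only [mem_insert, mem_union, mem_singleton]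
      tauto
  · rintro ⟨t, h1, h2⟩
    rw [mem_gS] at h1
    obtain ⟨h3, q, h4, h5⟩ := h1
    rw [mem_evtS] at h4
    obtain ⟨h6, h7, h8⟩ := h4
    obtain ⟨p, hp⟩ := card_eq_one.1 h7
    rw [BB_single hp] at h8
    have h9 := ds_bd hg (i := i) (p := p) (q := q) (by rw [hp]; simp)
    refine ⟨p, q, t, by omega, h8, h6, hp, h3, h5, ?_⟩
    rw [← h2]
    unfold TG
    rw [BB_single h5, h5, hp]
    ext x
    simp only [mem_insert, mem_union, mem_singleton]
    tauto

lemma isDP_iff (hg : Grad α) {T : Finset α} : isDP i T ↔ ∃ s ∈ dpS α i, TD i s = T := by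
  constructor
  · rintro ⟨p, q, q', h1, h2, h3, h4, h5, h6, h7, h8⟩
    refine ⟨{q, q'}, mem_dpS.2 ⟨?_, card_pair h7, ?_⟩, ?_⟩
    · intro x hx
      rw [mem_insert, mem_singleton] at hx
      rcases hx with rfl | rfl
      · rw [mem_evtS, h4, BB_single h4]
        exact ⟨h3, card_singleton _, h2⟩
      · rw [mem_evtS, h6, BB_single h6]
        exact ⟨h5, card_singleton _, h2⟩
    · intro x hx y hy
      rw [mem_insert, mem_singleton] at hx hy
      rcases hx with rfl | rfl <;> rcases hy with rfl | rfl <;> simp [h4, h6]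
    · unfold TD
      rw [biUnion_insert, singleton_biUnion, h4, h6, h8]
      ext x
      simp only [mem_insert, mem_union, mem_singleton]
      tauto
  · rintro ⟨s, h1, h2⟩
    rw [mem_dpS] at h1
    obtain ⟨h3, h4, h5⟩ := h1
    obtain ⟨q, q', hne, rfl⟩ := card_eq_two.1 h4
    have h6 := h3 q (by simp)
    have h7 := h3 q' (by simp)
    rw [mem_evtS] at h6 h7
    obtain ⟨p, hp⟩ := card_eq_one.1 h6.2.1
    have h8 := h5 q' (by simp) q (by simp)
    have h9 := ds_bd hg (i := i) (p := p) (q := q) (by rw [hp]; simp)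
    have h10 := h6.2.2
    rw [BB_single hp] at h10
    refine ⟨p, q, q', by omega, h10, h6.1, hp, h7.1, by rw [h8, hp], hne, ?_⟩
    rw [← h2]
    unfold TD
    rw [biUnion_insert, singleton_biUnion, h8, hp]
    ext x
    simp only [mem_insert, mem_union, mem_singleton]
    tauto

/-- elements at distance two of the sets -/
lemma TC_two (hg : Grad α) {g : α} (h : g ∈ c3S α i) : (TC i g).filter (fun p => ds i p = 2) = {g} := by
  rw [mem_c3S] at h
  ext x
  unfold TC
  rw [mem_filter, mem_insert, mem_singleton]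
  constructor
  · rintro ⟨rfl | h1, h2⟩
    · rfl
    · have := ds_bd hg h1
      omega
  · rintro rfl
    exact ⟨Or.inl rfl, h.1⟩

lemma TC_three (hg : Grad α) {g : α} (h : g ∈ c3S α i) {x : α} (hx : x ∈ TC i g) : ds i x ≠ 3 := by
  rw [mem_c3S] at h
  unfold TC at hx
  rw [mem_insert] at hx
  rcases hx with rfl | h1
  · omega
  · have := ds_bd hg h1
    omega

lemma TC_one (hg : Grad α) {g : α} (h : g ∈ c3S α i) : (TC i g).filter (fun p => ds i p = 1) = bd i g := by
  rw [mem_c3S] at h
  ext x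
  unfold TC
  rw [mem_filter, mem_insert]
  constructor
  · rintro ⟨rfl | h1, h2⟩
    · omega
    · exact h1
  · intro h1
    have := ds_bd hg h1
    exact ⟨Or.inr h1, by omega⟩

lemma BB_gS (hg : Grad α) {t : α} (h : t ∈ gS α i) : ∃ q p, q ∈ evtS α i ∧ bd i t = {q} ∧
    bd i q = {p} ∧ ds i p = 1 ∧ (bd i p).card = 2 ∧ BB3 i t = bd i p ∧ TG i t = {t, q, p} := by
  rw [mem_gS] at h
  obtain ⟨h3, q, h4, h5⟩ := h
  have h4' := h4
  rw [mem_evtS] at h4
  obtain ⟨h6, h7, h8⟩ := h4
  obtain ⟨p, hp⟩ := card_eq_one.1 h7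
  rw [BB_single hp] at h8
  have h9 := ds_bd hg (i := i) (p := p) (q := q) (by rw [hp]; simp)
  refine ⟨q, p, h4', h5, hp, by omega, h8, ?_, ?_⟩
  · rw [BB3_single h5, BB_single hp]
  · unfold TG
    rw [BB_single h5, h5, hp]
    ext x
    simp only [mem_insert, mem_union, mem_singleton]

lemma TG_three (hg : Grad α) {t : α} (h : t ∈ gS α i) : (TG i t).filter (fun p => ds i p = 3) = {t} := by
  obtain ⟨q, p, h1, h2, h3, h4, h5, h6, h7⟩ := BB_gS hg h
  have h8 := (mem_gS.1 h).1
  rw [mem_evtS] at h1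
  rw [h7]
  ext x
  rw [mem_filter, mem_insert, mem_insert, mem_singleton, mem_singleton]
  constructor
  · rintro ⟨rfl | rfl | rfl, h9⟩
    · rfl
    · omega
    · omega
  · rintro rfl
    exact ⟨Or.inl rfl, h8⟩

lemma TG_one (hg : Grad α) {t : α} (h : t ∈ gS α i) {q p : α} (h2 : bd i t = {q})
    (h3 : bd i q = {p}) : (TG i t).filter (fun p => ds i p = 1) = {p} := by
  obtain ⟨q', p', h1, h2', h3', h4, h5, h6, h7⟩ := BB_gS hg h
  have h8 := (mem_gS.1 h).1
  rw [mem_evtS] at h1
  rw [h2', singleton_inj] at h2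
  subst h2
  rw [h3', singleton_inj] at h3
  subst h3
  rw [h7]
  ext x
  rw [mem_filter, mem_insert, mem_insert, mem_singleton]
  constructor
  · rintro ⟨rfl | rfl | rfl, h9⟩
    · omega
    · omega
    · rfl
  · rintro rfl
    exact ⟨Or.inr (Or.inr rfl), h4⟩

lemma TD_two (hg : Grad α) {s : Finset α} (h : s ∈ dpS α i) :
    (TD i s).filter (fun p => ds i p = 2) = s := by
  rw [mem_dpS] at h
  ext x
  unfold TD
  rw [mem_filter, mem_union, mem_biUnion]
  constructor
  · rintro ⟨h1 | ⟨q, h1, h1'⟩, h2⟩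
    · exact h1
    · have := ds_bd hg h1'
      have := (mem_evtS.1 (h.1 q h1)).1
      omega
  · intro h1
    exact ⟨Or.inl h1, (mem_evtS.1 (h.1 x h1)).1⟩

lemma TD_three (hg : Grad α) {s : Finset α} (h : s ∈ dpS α i) {x : α} (hx : x ∈ TD i s) :
    ds i x ≠ 3 := by
  rw [mem_dpS] at h
  unfold TD at hx
  rw [mem_union, mem_biUnion] at hx
  rcases hx with h1 | ⟨q, h1, h1'⟩
  · have := (mem_evtS.1 (h.1 x h1)).1
    omega
  · have := ds_bd hg h1'
    have := (mem_evtS.1 (h.1 q h1)).1
    omega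

lemma TD_one (hg : Grad α) {s : Finset α} (h : s ∈ dpS α i) :
    (TD i s).filter (fun p => ds i p = 1) = s.biUnion (bd i) := by
  rw [mem_dpS] at h
  ext x
  unfold TD
  rw [mem_filter, mem_union, mem_biUnion]
  constructor
  · rintro ⟨h1 | h1, h2⟩
    · have := (mem_evtS.1 (h.1 x h1)).1
      omega
    · exact h1
  · rintro ⟨q, h1, h1'⟩
    have := ds_bd hg h1'
    have := (mem_evtS.1 (h.1 q h1)).1
    exact ⟨Or.inr ⟨q, h1, h1'⟩, by omega⟩

lemma O3_eq (hg : Grad α) : O3 α i =
    (c3S α i).image (TC i) ∪ ((gS α i).image (TG i) ∪ (dpS α i).image (TD i)) := by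
  ext T
  rw [mem_O3, mem_union, mem_union, mem_image, mem_image, mem_image]
  unfold isO3
  rw [isC3_iff, isG3_iff hg, isDP_iff hg]

/-- **sums over the objects of energy three** -/
theorem sum_O3 (hg : Grad α) {M : Type} [AddCommMonoid M] (F : Finset α → M) :
    ∑ T ∈ O3 α i, F T = ∑ g ∈ c3S α i, F (TC i g) + (∑ t ∈ gS α i, F (TG i t) +
      ∑ s ∈ dpS α i, F (TD i s)) := by
  rw [O3_eq hg, sum_union, sum_union, sum_image, sum_image, sum_image]
  · intro s hs s' hs' he
    rw [← TD_two hg hs, ← TD_two hg hs', he]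
  · intro t ht t' ht' he
    have h1 := TG_three hg ht
    have h2 := TG_three hg ht'
    rw [he, h2] at h1
    exact (singleton_injective h1).symm
  · intro t ht t' ht' he
    have h1 := TC_two hg ht
    have h2 := TC_two hg ht'
    rw [he, h2] at h1
    exact (singleton_injective h1).symm
  · rw [Finset.disjoint_left]
    intro T h1 h2
    rw [mem_image] at h1 h2
    obtain ⟨t, h3, rfl⟩ := h1
    obtain ⟨s, h4, h5⟩ := h2
    refine TD_three hg h4 (x := t) ?_ (mem_gS.1 h3).1
    rw [h5]
    unfold TG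
    exact mem_insert_self _ _
  · rw [Finset.disjoint_left]
    intro T h1 h2
    rw [mem_union, mem_image, mem_image] at h2
    rw [mem_image] at h1
    obtain ⟨g, h3, rfl⟩ := h1
    rcases h2 with ⟨t, h4, h5⟩ | ⟨s, h4, h5⟩
    · refine TC_three hg h3 (x := t) ?_ (mem_gS.1 h4).1
      rw [← h5]
      unfold TG
      exact mem_insert_self _ _
    · have h6 := TD_two hg h4
      rw [h5, TC_two hg h3] at h6
      have h7 := (mem_dpS.1 h4).2.1
      rw [← h6, card_singleton] at h7
      omega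

/-! ### footprints and signs -/

lemma NT_TC (hg : Grad α) {g : α} (h : g ∈ c3S α i) : NT i (TC i g) = BB i g := by
  unfold NT
  rw [TC_one hg h]
  rfl

lemma NT_TG (hg : Grad α) {t : α} (h : t ∈ gS α i) : NT i (TG i t) = BB3 i t := by
  obtain ⟨q, p, h1, h2, h3, h4, h5, h6, h7⟩ := BB_gS hg h
  unfold NT
  rw [TG_one hg h h2 h3, singleton_biUnion, h6]

lemma NT_TD (hg : Grad α) {s : Finset α} (h : s ∈ dpS α i) : NT i (TD i s) = s.biUnion (BB i) := by
  unfold NT
  rw [TD_one hg h]
  ext y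
  simp only [mem_biUnion, BB]
  constructor
  · rintro ⟨p, ⟨q, h1, h2⟩, h3⟩
    exact ⟨q, h1, p, h2, h3⟩
  · rintro ⟨q, h1, p, h2, h3⟩
    exact ⟨p, ⟨q, h1, h2⟩, h3⟩

lemma NT_TD' (hg : Grad α) {s : Finset α} (h : s ∈ dpS α i) {q : α} (hq : q ∈ s) :
    NT i (TD i s) = BB i q := by
  rw [NT_TD hg h]
  have h1 := (mem_dpS.1 h).2.2
  ext y
  rw [mem_biUnion]
  constructor
  · rintro ⟨q', h2, h3⟩
    unfold BB at h3 ⊢
    rwa [h1 q' h2 q hq] at h3
  · intro h2
    exact ⟨q, hq, h2⟩

/-- the sign of a set whose elements at distance one are above -/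
lemma sgT_above {T : Finset α} (h : ∀ p ∈ T, ds i p = 1 → corank p < i) :
    sgT i T = (-1) ^ (T.filter fun p => ds i p = 1).card := by
  unfold sgT
  have e1 : (T.filter fun p => ds i p = 1 ∧ corank p < i) = T.filter fun p => ds i p = 1 := by
    apply filter_congr
    intro p hp
    exact ⟨fun h1 => h1.1, fun h1 => ⟨h1, h p hp h1⟩⟩
  have e2 : (T.filter fun p => ds i p = 1 ∧ i < corank p) = ∅ := by
    rw [filter_eq_empty_iff]
    intro p hp h1
    have := h p hp h1.1
    omega
  rw [e1, e2, biUnion_empty, card_empty, pow_zero, mul_one]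

/-- the sign of a set whose elements at distance one are below -/
lemma sgT_below {T : Finset α} (h : ∀ p ∈ T, ds i p = 1 → i < corank p) :
    sgT i T = (-1) ^ (NT i T).card := by
  unfold sgT NT
  have e1 : (T.filter fun p => ds i p = 1 ∧ i < corank p) = T.filter fun p => ds i p = 1 := by
    apply filter_congr
    intro p hp
    exact ⟨fun h1 => h1.1, fun h1 => ⟨h1, h p hp h1⟩⟩
  have e2 : (T.filter fun p => ds i p = 1 ∧ corank p < i) = ∅ := by
    rw [filter_eq_empty_iff]
    intro p hp h1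
    have := h p hp h1.1
    omega
  rw [e1, e2, card_empty, pow_zero, one_mul]

lemma sgT_TC (hg : Grad α) {g : α} (h : g ∈ c3S α i) : sgT i (TC i g) = - sg i g := by
  have h1 := TC_one hg h
  have h2 := mem_c3S.1 h
  have hs : ∀ p ∈ TC i g, ds i p = 1 → p ∈ bd i g := by
    intro p hp h3
    rw [← h1, mem_filter]
    exact ⟨hp, h3⟩
  rcases ds2_iff.1 h2.1 with h3 | h3
  · rw [sgT_above, h1, h2.2.1]
    · unfold sg
      rw [if_pos (by omega)]
      norm_num
    · intro p hp h4
      exact ((side_of_mem_bd hg h2.1 (hs p hp h4)).1).2 (by omega)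
  · rw [sgT_below, NT_TC hg h, h2.2.2]
    · unfold sg
      rw [if_neg (by omega)]
      norm_num
    · intro p hp h4
      exact ((side_of_mem_bd hg h2.1 (hs p hp h4)).2).2 (by omega)

lemma sg_bd3 (hg : Grad α) {t q : α} (h : ds i t = 3) (hq : q ∈ bd i t) : sg i t = sg i q := by
  have h1 := ds_bd hg hq
  have h2 := mem_bd.1 hq
  unfold sg
  rcases lt_trichotomy (corank t) i with h3 | h3 | h3
  · have h4 := fr_above' hg h2 h3
    have h5 := hg q t h4.2
    rw [if_pos h3, if_pos]
    unfold ds at h1 h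
    omega
  · rw [ds_eq_zero.2 h3] at h
    omega
  · have h4 := fr_below' hg h2 h3
    have h5 := hg t q h4.2
    rw [if_neg (by omega), if_neg (by omega)]

lemma sgT_TG (hg : Grad α) {t : α} (h : t ∈ gS α i) : sgT i (TG i t) = sg i t := by
  obtain ⟨q, p, h1, h2, h3, h4, h5, h6, h7⟩ := BB_gS hg h
  have h8 := TG_one hg h h2 h3
  have h9 := (mem_gS.1 h).1
  have h10 := sg_bd3 hg h9 (q := q) (by rw [h2]; simp)
  have h11 := mem_evtS.1 h1
  have hs : ∀ x ∈ TG i t, ds i x = 1 → x = p := by
    intro x hx h3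
    rw [← mem_singleton, ← h8, mem_filter]
    exact ⟨hx, h3⟩
  rw [h10]
  rcases ds2_iff.1 h11.1 with h12 | h12
  · rw [sgT_above, h8, card_singleton]
    · unfold sg
      rw [if_pos (by omega)]
      norm_num
    · intro x hx h4
      rw [hs x hx h4]
      exact ((side_of_mem_bd hg h11.1 (p := p) (by rw [h3]; simp)).1).2 (by omega)
  · rw [sgT_below, NT_TG hg h, h6, h5]
    · unfold sg
      rw [if_neg (by omega)]
      norm_num
    · intro x hx h4
      rw [hs x hx h4]
      exact ((side_of_mem_bd hg h11.1 (p := p) (by rw [h3]; simp)).2).2 (by omega)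

lemma sgT_TD (hg : Grad α) {s : Finset α} (h : s ∈ dpS α i) {q : α} (hq : q ∈ s) :
    sgT i (TD i s) = sg i q := by
  have h1 := mem_dpS.1 h
  have h2 := mem_evtS.1 (h1.1 q hq)
  obtain ⟨p, hp⟩ := card_eq_one.1 h2.2.1
  have h3 : s.biUnion (bd i) = {p} := by
    ext y
    rw [mem_biUnion, mem_singleton]
    constructor
    · rintro ⟨q', h4, h5⟩
      rw [h1.2.2 q' h4 q hq, hp, mem_singleton] at h5
      exact h5
    · rintro rfl
      exact ⟨q, hq, by rw [hp]; simp⟩
  have h8 := TD_one hg h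
  rw [h3] at h8
  have hs : ∀ x ∈ TD i s, ds i x = 1 → x = p := by
    intro x hx h3
    rw [← mem_singleton, ← h8, mem_filter]
    exact ⟨hx, h3⟩
  rcases ds2_iff.1 h2.1 with h12 | h12
  · rw [sgT_above, h8, card_singleton]
    · unfold sg
      rw [if_pos (by omega)]
      norm_num
    · intro x hx h4
      rw [hs x hx h4]
      exact ((side_of_mem_bd hg h2.1 (p := p) (by rw [hp]; simp)).1).2 (by omega)
  · rw [sgT_below, NT_TD' hg h hq, h2.2.2]
    · unfold sg
      rw [if_neg (by omega)]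
      norm_num
    · intro x hx h4
      rw [hs x hx h4]
      exact ((side_of_mem_bd hg h2.1 (p := p) (by rw [hp]; simp)).2).2 (by omega)

/-- **the charge of a support** -/
theorem chi_eq (hg : Grad α) (S : Finset α) : chi i S =
    ∑ g ∈ (c3S α i).filter (fun g => BB i g = S), (- sg i g) +
      (∑ t ∈ (gS α i).filter (fun t => BB3 i t = S), sg i t +
        ∑ s ∈ (dpS α i).filter (fun s => s.biUnion (BB i) = S), sgT i (TD i s)) := by
  unfold chi
  rw [sum_filter, sum_O3 hg (fun T => if NT i T = S then sgT i T else 0), sum_filter, sum_filter,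
    sum_filter]
  congr 1
  · apply sum_congr rfl
    intro g h
    rw [NT_TC hg h, sgT_TC hg h]
  · congr 1
    · apply sum_congr rfl
      intro g h
      rw [NT_TG hg h, sgT_TG hg h]
    · apply sum_congr rfl
      intro g h
      rw [NT_TD hg h]

end Pool.Gauss
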