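import Mathlib

/-!
# The final counting inequality of V6

Objects `T` (triples, common children, ...) with weights `κ T`, total weight zero, overlapping
objects have weights of the same sign.  Then the sum of `κ T * κ T'` over the non overlapping
pairs is at most `- 1/2 ∑ κ T ^ 2`, so a relation `#SSE ≤ ∑ (non overlapping pairs) κ κ'` forces
`#SSE = 0` and all weights to vanish.
-/

set_option autoImplicit false
set_option linter.unusedSectionVars false
open Finset

namespace Pool.Gauss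

section Core

variable {ι R : Type*} [DecidableEq ι] [CommRing R] [LinearOrder R] [IsStrictOrderedRing R]

omit [LinearOrder R] [IsStrictOrderedRing R] in
theorem sq_sum_offDiag (s : Finset ι) (κ : ι → R) :
    (∑ T ∈ s, κ T) ^ 2 = ∑ T ∈ s, κ T ^ 2 + ∑ p ∈ s.offDiag, κ p.1 * κ p.2 := by
  rw [sq, sum_mul_sum, ← sum_product', ← diag_union_offDiag, sum_union (disjoint_diag_offDiag s),
    sum_diag]
  simp [sq]

/-- Ordered pairs. -/
theorem v6_offDiag (s : Finset ι) (κ : ι → R) (ov : ι → ι → Prop) [DecidableRel ov]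
    (h0 : ∑ T ∈ s, κ T = 0)
    (hov : ∀ T ∈ s, ∀ T' ∈ s, T ≠ T' → ov T T' → 0 ≤ κ T * κ T')
    {E : R} (hE : 0 ≤ E)
    (hrel : 2 * E ≤ ∑ p ∈ s.offDiag.filter (fun p => ¬ ov p.1 p.2), κ p.1 * κ p.2) :
    E = 0 ∧ ∀ T ∈ s, κ T = 0 := by
  have h1 := sq_sum_offDiag s κ
  rw [h0, ← sum_filter_add_sum_filter_not s.offDiag (fun p => ov p.1 p.2)] at h1
  have h2 : 0 ≤ ∑ p ∈ s.offDiag.filter (fun p => ov p.1 p.2), κ p.1 * κ p.2 := by
    refine sum_nonneg fun p hp => ?_
    rw [mem_filter, mem_offDiag] at hp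
    exact hov _ hp.1.1 _ hp.1.2.1 hp.1.2.2 hp.2
  have h3 : 0 ≤ ∑ T ∈ s, κ T ^ 2 := sum_nonneg fun T _ => sq_nonneg _
  have h4 : ∑ T ∈ s, κ T ^ 2 = 0 := by
    have : (0 : R) ^ 2 = 0 := by simp
    rw [this] at h1
    linarith
  refine ⟨by
    have : (0 : R) ^ 2 = 0 := by simp
    rw [this] at h1
    linarith, fun T hT => ?_⟩
  have := (sum_eq_zero_iff_of_nonneg fun T _ => sq_nonneg (κ T)).1 h4 T hT
  exact pow_eq_zero_iff (two_ne_zero) |>.1 this

omit [LinearOrder R] [IsStrictOrderedRing R] in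
/-- Unordered pairs as two element subsets. -/
theorem sq_sum_powersetCard (s : Finset ι) (κ : ι → R) :
    (∑ T ∈ s, κ T) ^ 2 = ∑ T ∈ s, κ T ^ 2 + 2 * ∑ P ∈ s.powersetCard 2, ∏ T ∈ P, κ T := by
  induction s using Finset.induction_on with
  | empty =>
    have : (∅ : Finset ι).powersetCard 2 = ∅ := by
      rw [Finset.powersetCard_eq_empty]; simp
    rw [this]; simp
  | insert a s ha ih =>
    rw [sum_insert ha, sum_insert ha, powersetCard_succ_insert ha, sum_union, sum_image, add_sq,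
      ih]
    · have h1 : ∑ P ∈ s.powersetCard 1, ∏ T ∈ insert a P, κ T = κ a * ∑ T ∈ s, κ T := by
        rw [powersetCard_one, sum_map, mul_sum]
        refine sum_congr rfl fun T hT => ?_
        have : a ∉ ({T} : Finset ι) := by
          simp only [mem_singleton]; rintro rfl; exact ha hT
        simp [prod_insert this]
      rw [h1]; ring
    · intro P hP Q hQ h
      rw [mem_coe, mem_powersetCard] at hP hQ
      have hP' : a ∉ P := fun h => ha (hP.1 h)
      have hQ' : a ∉ Q := fun h => ha (hQ.1 h)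
      rw [← erase_insert hP', ← erase_insert hQ', h]
    · rw [disjoint_left]
      intro P hP hP'
      rw [mem_powersetCard] at hP
      rw [mem_image] at hP'
      obtain ⟨Q, _, rfl⟩ := hP'
      exact ha (hP.1 (mem_insert_self _ _))

/-- Unordered version: `ovP P` says that the two element set `P` is an overlapping pair. -/
theorem v6_pairs (s : Finset ι) (κ : ι → R) (ovP : Finset ι → Prop) [DecidablePred ovP]
    (h0 : ∑ T ∈ s, κ T = 0)
    (hov : ∀ P ∈ s.powersetCard 2, ovP P → 0 ≤ ∏ T ∈ P, κ T)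
    {E : R} (hE : 0 ≤ E)
    (hrel : E ≤ ∑ P ∈ (s.powersetCard 2).filter (fun P => ¬ ovP P), ∏ T ∈ P, κ T) :
    E = 0 ∧ ∀ T ∈ s, κ T = 0 := by
  have h1 := sq_sum_powersetCard s κ
  rw [h0, ← sum_filter_add_sum_filter_not (s.powersetCard 2) ovP] at h1
  have h2 : 0 ≤ ∑ P ∈ (s.powersetCard 2).filter ovP, ∏ T ∈ P, κ T := by
    refine sum_nonneg fun P hP => ?_
    rw [mem_filter] at hP
    exact hov P hP.1 hP.2
  have h3 : 0 ≤ ∑ T ∈ s, κ T ^ 2 := sum_nonneg fun T _ => sq_nonneg _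
  have h5 : (0 : R) ^ 2 = 0 := by simp
  rw [h5] at h1
  have h4 : ∑ T ∈ s, κ T ^ 2 = 0 := by linarith
  refine ⟨by linarith, fun T hT => ?_⟩
  have := (sum_eq_zero_iff_of_nonneg fun T _ => sq_nonneg (κ T)).1 h4 T hT
  exact pow_eq_zero_iff (two_ne_zero) |>.1 this

end Core

section Strips

variable {ι S R : Type*} [DecidableEq ι] [CommRing R] [LinearOrder R] [IsStrictOrderedRing R]

/-- Strip version: overlapping objects lie in the same strip, and in a strip with at least two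
objects all weights are nonnegative. -/
theorem v6_strips (s : Finset ι) (κ : ι → R) (st : ι → S) (ov : ι → ι → Prop) [DecidableRel ov]
    (h0 : ∑ T ∈ s, κ T = 0)
    (hst : ∀ T ∈ s, ∀ T' ∈ s, T ≠ T' → ov T T' → st T = st T')
    (hpos : ∀ T ∈ s, ∀ T' ∈ s, T ≠ T' → st T = st T' → 0 ≤ κ T)
    {E : R} (hE : 0 ≤ E)
    (hrel : 2 * E ≤ ∑ p ∈ s.offDiag.filter (fun p => ¬ ov p.1 p.2), κ p.1 * κ p.2) :
    E = 0 ∧ ∀ T ∈ s, κ T = 0 := by
  refine v6_offDiag s κ ov h0 (fun T hT T' hT' hne ho => ?_) hE hrel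
  have h := hst T hT T' hT' hne ho
  exact mul_nonneg (hpos T hT T' hT' hne h) (hpos T' hT' T hT hne.symm h.symm)

/-- Version with a general quadratic lower bound inside each strip: it is enough that for every
strip the squares plus the overlapping products are nonnegative, and vanish only when all the
weights of the strip vanish. -/
theorem v6_strips_form [DecidableEq S] (s : Finset ι) (κ : ι → R) (st : ι → S)
    (ov : ι → ι → Prop) [DecidableRel ov]
    (h0 : ∑ T ∈ s, κ T = 0)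
    (hform : ∀ a ∈ s.image st, 0 ≤ ∑ T ∈ s.filter (fun T => st T = a), κ T ^ 2
      + ∑ p ∈ s.offDiag.filter (fun p => ov p.1 p.2 ∧ st p.1 = a), κ p.1 * κ p.2)
    (hform0 : ∀ a ∈ s.image st, ∑ T ∈ s.filter (fun T => st T = a), κ T ^ 2
      + ∑ p ∈ s.offDiag.filter (fun p => ov p.1 p.2 ∧ st p.1 = a), κ p.1 * κ p.2 = 0 →
      ∀ T ∈ s, st T = a → κ T = 0)
    {E : R} (hE : 0 ≤ E)
    (hrel : 2 * E ≤ ∑ p ∈ s.offDiag.filter (fun p => ¬ ov p.1 p.2), κ p.1 * κ p.2) :
    E = 0 ∧ ∀ T ∈ s, κ T = 0 := by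
  have h1 := sq_sum_offDiag s κ
  rw [h0, ← sum_filter_add_sum_filter_not s.offDiag (fun p => ov p.1 p.2)] at h1
  have h5 : (0 : R) ^ 2 = 0 := by simp
  rw [h5] at h1
  have e1 : ∑ T ∈ s, κ T ^ 2 = ∑ a ∈ s.image st, ∑ T ∈ s.filter (fun T => st T = a), κ T ^ 2 :=
    (sum_fiberwise_of_maps_to (fun T hT => mem_image_of_mem st hT) _).symm
  have e2 : ∑ p ∈ s.offDiag.filter (fun p => ov p.1 p.2), κ p.1 * κ p.2
      = ∑ a ∈ s.image st, ∑ p ∈ s.offDiag.filter (fun p => ov p.1 p.2 ∧ st p.1 = a),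
        κ p.1 * κ p.2 := by
    rw [← sum_fiberwise_of_maps_to (s := s.offDiag.filter (fun p => ov p.1 p.2))
      (t := s.image st) (g := fun p => st p.1)]
    · refine sum_congr rfl fun a _ => ?_
      rw [filter_filter]
    · intro p hp
      rw [mem_filter, mem_offDiag] at hp
      exact mem_image_of_mem st hp.1.1
  have e3 : ∑ T ∈ s, κ T ^ 2 + ∑ p ∈ s.offDiag.filter (fun p => ov p.1 p.2), κ p.1 * κ p.2
      = ∑ a ∈ s.image st, (∑ T ∈ s.filter (fun T => st T = a), κ T ^ 2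
        + ∑ p ∈ s.offDiag.filter (fun p => ov p.1 p.2 ∧ st p.1 = a), κ p.1 * κ p.2) := by
    rw [e1, e2, sum_add_distrib]
  have h6 := sum_nonneg hform
  have h7 : ∑ a ∈ s.image st, (∑ T ∈ s.filter (fun T => st T = a), κ T ^ 2
        + ∑ p ∈ s.offDiag.filter (fun p => ov p.1 p.2 ∧ st p.1 = a), κ p.1 * κ p.2) = 0 := by
    rw [← e3] at h6 ⊢
    linarith
  refine ⟨by rw [← e3] at h7; linarith, fun T hT => ?_⟩
  exact hform0 (st T) (mem_image_of_mem st hT)
    ((sum_eq_zero_iff_of_nonneg hform).1 h7 _ (mem_image_of_mem st hT)) T hT rfl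

end Strips

section Touch

variable {ι S R : Type*} [DecidableEq ι] [DecidableEq S] [CommRing R] [LinearOrder R]
  [IsStrictOrderedRing R]

/-- The quadratic form of a strip: ordered touching pairs, the diagonal included. -/
def touchForm (s : Finset ι) (χ : ι → R) (st : ι → S) (tch : ι → ι → Prop) [DecidableRel tch]
    (a : S) : R :=
  ∑ p ∈ (s ×ˢ s).filter (fun p => tch p.1 p.2 ∧ st p.1 = a ∧ st p.2 = a), χ p.1 * χ p.2

variable (s : Finset ι) (χ : ι → R) (st : ι → S) (tch : ι → ι → Prop) [DecidableRel tch]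

/-- Everything touches: the form is the square of the total charge. -/
theorem touchForm_all {a : S}
    (h : ∀ T ∈ s, ∀ T' ∈ s, st T = a → st T' = a → tch T T') :
    touchForm s χ st tch a = (∑ T ∈ s.filter (fun T => st T = a), χ T) ^ 2 := by
  rw [sq, sum_mul_sum, ← sum_product', touchForm]
  refine sum_congr ?_ fun _ _ => rfl
  ext p
  simp only [mem_filter, mem_product]
  constructor
  · rintro ⟨⟨h1, h2⟩, -, h3, h4⟩
    exact ⟨⟨h1, h3⟩, h2, h4⟩
  · rintro ⟨⟨h1, h3⟩, h2, h4⟩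
    exact ⟨⟨h1, h2⟩, h _ h1 _ h2 h3 h4, h3, h4⟩

/-- Charges of one sign: the form is at least the sum of the squares. -/
theorem touchForm_ge {a : S} (hr : ∀ T ∈ s, tch T T)
    (h : ∀ T ∈ s, ∀ T' ∈ s, st T = a → st T' = a → 0 ≤ χ T * χ T') :
    ∑ T ∈ s.filter (fun T => st T = a), χ T ^ 2 ≤ touchForm s χ st tch a := by
  have e1 : ∑ T ∈ s.filter (fun T => st T = a), χ T ^ 2
      = ∑ p ∈ ((s.filter (fun T => st T = a)).image fun T => (T, T)), χ p.1 * χ p.2 := by
    rw [sum_image]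
    · exact sum_congr rfl fun T _ => sq _
    · intro x _ y _ h
      exact (Prod.ext_iff.1 h).1
  rw [e1, touchForm]
  refine sum_le_sum_of_subset_of_nonneg ?_ ?_
  · intro p hp
    rw [mem_image] at hp
    obtain ⟨T, hT, rfl⟩ := hp
    rw [mem_filter] at hT
    simp only [mem_filter, mem_product]
    exact ⟨⟨hT.1, hT.1⟩, hr T hT.1, hT.2, hT.2⟩
  · intro p hp _
    simp only [mem_filter, mem_product] at hp
    exact h _ hp.1.1 _ hp.1.2 hp.2.2.1 hp.2.2.2

/-- In every strip either all charges touch or all charges have the same sign. -/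
def TouchOK (a : S) : Prop :=
  (∀ T ∈ s, ∀ T' ∈ s, st T = a → st T' = a → tch T T') ∨
    (∀ T ∈ s, ∀ T' ∈ s, st T = a → st T' = a → 0 ≤ χ T * χ T')

theorem touchForm_nonneg {a : S} (hr : ∀ T ∈ s, tch T T) (h : TouchOK s χ st tch a) :
    0 ≤ touchForm s χ st tch a := by
  rcases h with h | h
  · rw [touchForm_all s χ st tch h]; exact sq_nonneg _
  · exact (sum_nonneg fun T _ => sq_nonneg _).trans (touchForm_ge s χ st tch hr h)

/-- If the form vanishes then the total charge of the strip vanishes, and if the charges have the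
same sign all of them vanish. -/
theorem touchForm_eq_zero {a : S} (hr : ∀ T ∈ s, tch T T) (h : TouchOK s χ st tch a)
    (h0 : touchForm s χ st tch a = 0) :
    ∑ T ∈ s.filter (fun T => st T = a), χ T = 0 ∧
      ((∀ T ∈ s, ∀ T' ∈ s, st T = a → st T' = a → 0 ≤ χ T * χ T') →
        ∀ T ∈ s, st T = a → χ T = 0) := by
  have key : (∀ T ∈ s, ∀ T' ∈ s, st T = a → st T' = a → 0 ≤ χ T * χ T') →
        ∀ T ∈ s, st T = a → χ T = 0 := by
    intro hs T hT hTa
    have h1 := touchForm_ge s χ st tch hr hs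
    rw [h0] at h1
    have h2 := (sum_eq_zero_iff_of_nonneg fun T _ => sq_nonneg (χ T)).1
      (le_antisymm h1 (sum_nonneg fun T _ => sq_nonneg _)) T (mem_filter.2 ⟨hT, hTa⟩)
    exact (pow_eq_zero_iff two_ne_zero).1 h2
  refine ⟨?_, key⟩
  rcases h with h | h
  · rw [touchForm_all s χ st tch h] at h0
    exact (pow_eq_zero_iff two_ne_zero).1 h0
  · exact sum_eq_zero fun T hT => key h T (mem_filter.1 hT).1 (mem_filter.1 hT).2

/-- The final inequality in the form of the exact law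
`(6,2) = - 1/2 ∑ strips (touching pairs) - E`: if it vanishes, `E = 0`, every strip has total
charge zero, and in a strip with charges of one sign every charge vanishes. -/
theorem v6_touch (hr : ∀ T ∈ s, tch T T) (hok : ∀ a ∈ s.image st, TouchOK s χ st tch a)
    {E : R} (hE : 0 ≤ E)
    (hrel : 2 * E + ∑ a ∈ s.image st, touchForm s χ st tch a ≤ 0) :
    E = 0 ∧ ∀ a, ∑ T ∈ s.filter (fun T => st T = a), χ T = 0 ∧
      ((∀ T ∈ s, ∀ T' ∈ s, st T = a → st T' = a → 0 ≤ χ T * χ T') →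
        ∀ T ∈ s, st T = a → χ T = 0) := by
  have h1 : ∀ a ∈ s.image st, 0 ≤ touchForm s χ st tch a := fun a ha =>
    touchForm_nonneg s χ st tch hr (hok a ha)
  have h2 := sum_nonneg h1
  have hE0 : E = 0 := by linarith
  have h3 : ∑ a ∈ s.image st, touchForm s χ st tch a = 0 := by linarith
  refine ⟨hE0, fun a => ?_⟩
  by_cases ha : a ∈ s.image st
  · exact touchForm_eq_zero s χ st tch hr (hok a ha)
      ((sum_eq_zero_iff_of_nonneg h1).1 h3 a ha)
  · have hno : ∀ T ∈ s, st T ≠ a := fun T hT h => ha (mem_image.2 ⟨T, hT, h⟩)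
    refine ⟨?_, fun _ T hT h => absurd h (hno T hT)⟩
    rw [filter_false_of_mem hno, sum_empty]

/-- The sum of the touching forms over the strips, touching pairs lying inside one strip. -/
theorem sum_touchForm (hst : ∀ T ∈ s, ∀ T' ∈ s, tch T T' → st T = st T') :
    ∑ a ∈ s.image st, touchForm s χ st tch a
      = ∑ p ∈ (s ×ˢ s).filter (fun p => tch p.1 p.2), χ p.1 * χ p.2 := by
  rw [← sum_fiberwise_of_maps_to (s := (s ×ˢ s).filter (fun p => tch p.1 p.2))
    (t := s.image st) (g := fun p => st p.1)]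
  · refine sum_congr rfl fun a _ => ?_
    rw [touchForm, filter_filter]
    refine sum_congr ?_ fun _ _ => rfl
    ext p
    simp only [mem_filter, mem_product]
    constructor
    · rintro ⟨h1, h2, h3, _⟩
      exact ⟨h1, h2, h3⟩
    · rintro ⟨h1, h2, h3⟩
      exact ⟨h1, h2, h3, (hst _ h1.1 _ h1.2 h2).symm.trans h3⟩
  · intro p hp
    rw [mem_filter, mem_product] at hp
    exact mem_image_of_mem st hp.1.1

/-- With total charge zero the touching and the non touching ordered pairs cancel. -/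
theorem touch_add_nontouch (h0 : ∑ T ∈ s, χ T = 0) :
    ∑ p ∈ (s ×ˢ s).filter (fun p => tch p.1 p.2), χ p.1 * χ p.2
      = - ∑ p ∈ (s ×ˢ s).filter (fun p => ¬ tch p.1 p.2), χ p.1 * χ p.2 := by
  have e : ∑ p ∈ s ×ˢ s, χ p.1 * χ p.2 = (∑ T ∈ s, χ T) * ∑ T ∈ s, χ T := by
    rw [sum_mul_sum, ← sum_product']
  rw [eq_neg_iff_add_eq_zero, sum_filter_add_sum_filter_not, e, h0, zero_mul]

/-- The same conclusion from the non touching pairs: total charge zero and
`2 E ≤ ∑ (ordered non touching pairs) χ χ'`. -/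
theorem v6_nontouch (h0 : ∑ T ∈ s, χ T = 0) (hr : ∀ T ∈ s, tch T T)
    (hst : ∀ T ∈ s, ∀ T' ∈ s, tch T T' → st T = st T')
    (hok : ∀ a ∈ s.image st, TouchOK s χ st tch a)
    {E : R} (hE : 0 ≤ E)
    (hrel : 2 * E ≤ ∑ p ∈ (s ×ˢ s).filter (fun p => ¬ tch p.1 p.2), χ p.1 * χ p.2) :
    E = 0 ∧ ∀ a, ∑ T ∈ s.filter (fun T => st T = a), χ T = 0 ∧
      ((∀ T ∈ s, ∀ T' ∈ s, st T = a → st T' = a → 0 ≤ χ T * χ T') →
        ∀ T ∈ s, st T = a → χ T = 0) := by
  refine v6_touch s χ st tch hr hok hE ?_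
  rw [sum_touchForm s χ st tch hst, touch_add_nontouch s χ tch h0]
  linarith

end Touch

end Pool.Gauss
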