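import Pool.Agent.Work.MP_065141_co.K.PlnW
import Pool.Agent.Work.MP_065141_co.K.V6Sum

/-!
# The final inequality of the base `b` in planar coordinates

Objects `T` with footprint `B T`, a set of elements of row `b` lying in one strip and containing a
pair of neighbours.  Two objects touch if their footprints meet.  In a strip of width at most three
everything touches.  `v6_pln`: if `2 E + ∑ (ordered touching pairs) χ χ' ≤ 0` and in every strip of
width at least four the charges have one sign, then `E = 0`, the charge of every strip is zero and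
in the strips of width at least four every charge is zero.
-/

set_option autoImplicit false
set_option linter.unusedSectionVars false
open scoped Classical
open Finset

namespace Pool.Gauss

variable {α : Type} [Fintype α] [PartialOrder α]

/-- the footprint `S` lies in the strip of `a` and contains a pair of neighbours -/
def InStrip (lo hi : α → ℕ → ℕ) (f : α → ℕ → ℕ → α) (b : ℕ) (a : α) (S : Finset α) : Prop :=
  (∃ c, lo a b ≤ c ∧ c + 1 ≤ hi a b ∧ pr2 f b a c ⊆ S) ∧
    ∀ y ∈ S, ∃ c, lo a b ≤ c ∧ c ≤ hi a b ∧ y = f a b c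

/-- the footprints of the objects of `P` are pairwise disjoint -/
def DisjP {ι : Type} (B : ι → Finset α) (P : Finset ι) : Prop :=
  ∀ T ∈ P, ∀ T' ∈ P, T ≠ T' → Disjoint (B T) (B T')

namespace Pln

variable {lo hi : α → ℕ → ℕ} {i : ℕ} {f : α → ℕ → ℕ → α}

/-- meeting footprints lie in one strip -/
lemma strip_unique (h : Pln lo hi i f) {b : ℕ} (hb : b ≤ i) {a a' : α} (ha : corank a = 0)
    (ha' : corank a' = 0) {S S' : Finset α} (hS : InStrip lo hi f b a S)
    (hS' : InStrip lo hi f b a' S') (hd : ¬ Disjoint S S') : a = a' := by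
  rw [Finset.not_disjoint_iff] at hd
  obtain ⟨y, hy, hy'⟩ := hd
  obtain ⟨c, h1, h2, h3⟩ := hS.2 y hy
  obtain ⟨c', h4, h5, h6⟩ := hS'.2 y hy'
  exact (h.inj a a' b c c' ha ha' hb h1 h2 h4 h5 (h3.symm.trans h6)).1

/-- in a strip of width at most three all footprints meet -/
lemma touch_narrow {b : ℕ} {a : α} (hw : hi a b ≤ lo a b + 2) {S S' : Finset α}
    (hS : InStrip lo hi f b a S) (hS' : InStrip lo hi f b a S') : ¬ Disjoint S S' := by
  obtain ⟨⟨c, h1, h2, h3⟩, -⟩ := hS
  obtain ⟨⟨c', h4, h5, h6⟩, -⟩ := hS'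
  rw [Finset.not_disjoint_iff]
  refine ⟨f a b (max c c'), h3 ?_, h6 ?_⟩
  · unfold pr2
    rw [mem_insert, mem_singleton]
    rcases le_total c c' with h7 | h7
    · rw [max_eq_right h7]
      rcases Nat.eq_or_lt_of_le h7 with h8 | h8
      · left; rw [h8]
      · right
        congr 1
        omega
    · left; rw [max_eq_left h7]
  · unfold pr2
    rw [mem_insert, mem_singleton]
    rcases le_total c c' with h7 | h7
    · left; rw [max_eq_right h7]
    · rw [max_eq_left h7]
      rcases Nat.eq_or_lt_of_le h7 with h8 | h8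
      · left; rw [h8]
      · right
        congr 1
        omega

/-- a nonempty footprint meets itself -/
lemma touch_self {b : ℕ} {a : α} {S : Finset α} (hS : InStrip lo hi f b a S) :
    ¬ Disjoint S S := by
  obtain ⟨⟨c, h1, h2, h3⟩, -⟩ := hS
  rw [Finset.not_disjoint_iff]
  have h4 : f a b c ∈ S := h3 (by unfold pr2; simp)
  exact ⟨_, h4, h4⟩

section

variable {ι : Type} [DecidableEq ι] (s : Finset ι) (χ : ι → ℤ) (B : ι → Finset α) (st : ι → α)

/-- every strip is either narrow or has charges of one sign -/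
lemma touchOK {b : ℕ} (hst : ∀ T ∈ s, corank (st T) = 0 ∧ InStrip lo hi f b (st T) (B T))
    (hsgn : ∀ a, corank a = 0 → lo a b + 3 ≤ hi a b →
      (∀ T ∈ s, st T = a → 0 ≤ χ T) ∨ (∀ T ∈ s, st T = a → χ T ≤ 0)) :
    ∀ a ∈ s.image st, TouchOK s χ st (fun T T' => ¬ Disjoint (B T) (B T')) a := by
  intro a ha
  rw [mem_image] at ha
  obtain ⟨T0, hT0, rfl⟩ := ha
  rcases Nat.lt_or_ge (lo (st T0) b + 2) (hi (st T0) b) with hw | hw
  · right
    intro T hT T' hT' e1 e2
    rcases hsgn (st T0) (hst T0 hT0).1 (by omega) with h1 | h1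
    · exact mul_nonneg (h1 T hT e1) (h1 T' hT' e2)
    · exact mul_nonneg_of_nonpos_of_nonpos (h1 T hT e1) (h1 T' hT' e2)
  · left
    intro T hT T' hT' e1 e2
    have h1 := (hst T hT).2
    have h2 := (hst T' hT').2
    rw [e1] at h1
    rw [e2] at h2
    exact touch_narrow hw h1 h2

/-- **the final inequality in planar coordinates**, touching pairs -/
theorem v6_pln (h : Pln lo hi i f) {b : ℕ} (hb : b ≤ i)
    (hst : ∀ T ∈ s, corank (st T) = 0 ∧ InStrip lo hi f b (st T) (B T))
    (hsgn : ∀ a, corank a = 0 → lo a b + 3 ≤ hi a b →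
      (∀ T ∈ s, st T = a → 0 ≤ χ T) ∨ (∀ T ∈ s, st T = a → χ T ≤ 0))
    {E : ℤ} (hE : 0 ≤ E)
    (hrel : 2 * E + ∑ p ∈ (s ×ˢ s).filter (fun p => ¬ Disjoint (B p.1) (B p.2)),
      χ p.1 * χ p.2 ≤ 0) :
    E = 0 ∧ ∀ a, ∑ T ∈ s.filter (fun T => st T = a), χ T = 0 ∧
      (lo a b + 3 ≤ hi a b → ∀ T ∈ s, st T = a → χ T = 0) := by
  have hr : ∀ T ∈ s, ¬ Disjoint (B T) (B T) := fun T hT => touch_self (hst T hT).2
  have hss : ∀ T ∈ s, ∀ T' ∈ s, ¬ Disjoint (B T) (B T') → st T = st T' := fun T hT T' hT' hd =>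
    h.strip_unique hb (hst T hT).1 (hst T' hT').1 (hst T hT).2 (hst T' hT').2 hd
  have h1 := v6_touch s χ st (fun T T' => ¬ Disjoint (B T) (B T')) hr (touchOK s χ B st hst hsgn)
    hE (by rwa [sum_touchForm s χ st (fun T T' => ¬ Disjoint (B T) (B T')) hss])
  refine ⟨h1.1, fun a => ⟨(h1.2 a).1, fun hw T hT e => ?_⟩⟩
  refine (h1.2 a).2 ?_ T hT e
  have ha : corank a = 0 := by rw [← e]; exact (hst T hT).1
  intro T1 hT1 T2 hT2 e1 e2
  rcases hsgn a ha hw with h2 | h2
  · exact mul_nonneg (h2 T1 hT1 e1) (h2 T2 hT2 e2)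
  · exact mul_nonneg_of_nonpos_of_nonpos (h2 T1 hT1 e1) (h2 T2 hT2 e2)

/-- the same with the ordered disjoint pairs and total charge zero -/
theorem v6_pln' (h : Pln lo hi i f) {b : ℕ} (hb : b ≤ i)
    (hst : ∀ T ∈ s, corank (st T) = 0 ∧ InStrip lo hi f b (st T) (B T))
    (hsgn : ∀ a, corank a = 0 → lo a b + 3 ≤ hi a b →
      (∀ T ∈ s, st T = a → 0 ≤ χ T) ∨ (∀ T ∈ s, st T = a → χ T ≤ 0))
    (h0 : ∑ T ∈ s, χ T = 0) {E : ℤ} (hE : 0 ≤ E)
    (hrel : 2 * E ≤ ∑ p ∈ (s ×ˢ s).filter (fun p => Disjoint (B p.1) (B p.2)),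
      χ p.1 * χ p.2) :
    E = 0 ∧ ∀ a, ∑ T ∈ s.filter (fun T => st T = a), χ T = 0 ∧
      (lo a b + 3 ≤ hi a b → ∀ T ∈ s, st T = a → χ T = 0) := by
  refine v6_pln s χ B st h hb hst hsgn hE ?_
  rw [touch_add_nontouch s χ (fun T T' => ¬ Disjoint (B T) (B T')) h0]
  have e : (s ×ˢ s).filter (fun p : ι × ι => ¬ ¬ Disjoint (B p.1) (B p.2))
      = (s ×ˢ s).filter (fun p : ι × ι => Disjoint (B p.1) (B p.2)) := by
    refine filter_congr fun p _ => ?_
    rw [not_not]
  rw [e]
  linarith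

/-- the same with unordered pairs: `E ≤ ∑ (unordered disjoint pairs) χ χ'` -/
theorem v6_pln_unord (h : Pln lo hi i f) {b : ℕ} (hb : b ≤ i)
    (hst : ∀ T ∈ s, corank (st T) = 0 ∧ InStrip lo hi f b (st T) (B T))
    (hsgn : ∀ a, corank a = 0 → lo a b + 3 ≤ hi a b →
      (∀ T ∈ s, st T = a → 0 ≤ χ T) ∨ (∀ T ∈ s, st T = a → χ T ≤ 0))
    (h0 : ∑ T ∈ s, χ T = 0) {E : ℤ} (hE : 0 ≤ E)
    (hrel : E ≤ ∑ P ∈ (s.powersetCard 2).filter (DisjP B), ∏ T ∈ P, χ T) :
    E = 0 ∧ ∀ a, ∑ T ∈ s.filter (fun T => st T = a), χ T = 0 ∧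
      (lo a b + 3 ≤ hi a b → ∀ T ∈ s, st T = a → χ T = 0) := by
  refine v6_pln' s χ B st h hb hst hsgn h0 hE ?_
  have key : ∑ p ∈ (s ×ˢ s).filter (fun p => Disjoint (B p.1) (B p.2)), χ p.1 * χ p.2
      = 2 * ∑ P ∈ (s.powersetCard 2).filter (DisjP B), ∏ T ∈ P, χ T := by
    have hmap : ∀ p ∈ (s ×ˢ s).filter (fun p => Disjoint (B p.1) (B p.2)),
        ({p.1, p.2} : Finset ι) ∈ (s.powersetCard 2).filter (DisjP B) := by
      intro p hp
      rw [mem_filter, mem_product] at hp
      obtain ⟨⟨h1, h2⟩, h3⟩ := hp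
      have hne : p.1 ≠ p.2 := by
        intro e
        rw [← e] at h3
        exact touch_self (hst _ h1).2 h3
      rw [mem_filter, mem_powersetCard]
      refine ⟨⟨?_, card_pair hne⟩, ?_⟩
      · intro T hT
        rw [mem_insert, mem_singleton] at hT
        rcases hT with rfl | rfl
        · exact h1
        · exact h2
      · intro T hT T' hT' hTT
        rw [mem_insert, mem_singleton] at hT hT'
        rcases hT with rfl | rfl <;> rcases hT' with rfl | rfl
        · exact absurd rfl hTT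
        · exact h3
        · exact h3.symm
        · exact absurd rfl hTT
    rw [← sum_fiberwise_of_maps_to hmap, mul_sum]
    refine sum_congr rfl fun P hP => ?_
    rw [mem_filter, mem_powersetCard] at hP
    obtain ⟨⟨hPs, hPc⟩, hPd⟩ := hP
    obtain ⟨T, T', hne, rfl⟩ := card_eq_two.1 hPc
    have hTs : T ∈ s := hPs (by simp)
    have hTs' : T' ∈ s := hPs (by simp)
    have hd : Disjoint (B T) (B T') := hPd T (by simp) T' (by simp) hne
    have e : ((s ×ˢ s).filter (fun p : ι × ι => Disjoint (B p.1) (B p.2))).filter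
        (fun p => ({p.1, p.2} : Finset ι) = {T, T'}) = {(T, T'), (T', T)} := by
      ext p
      rw [mem_filter, mem_filter, mem_product, mem_insert, mem_singleton]
      constructor
      · rintro ⟨⟨⟨h1, h2⟩, h3⟩, h4⟩
        have hpne : p.1 ≠ p.2 := by
          intro e
          rw [← e] at h3
          exact touch_self (hst _ h1).2 h3
        have m1 : p.1 ∈ ({T, T'} : Finset ι) := by rw [← h4]; simp
        have m2 : p.2 ∈ ({T, T'} : Finset ι) := by rw [← h4]; simp
        rw [mem_insert, mem_singleton] at m1 m2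
        rcases m1 with m1 | m1 <;> rcases m2 with m2 | m2
        · exact absurd (m1.trans m2.symm) hpne
        · exact Or.inl (Prod.ext m1 m2)
        · exact Or.inr (Prod.ext m1 m2)
        · exact absurd (m1.trans m2.symm) hpne
      · rintro (rfl | rfl)
        · exact ⟨⟨⟨hTs, hTs'⟩, hd⟩, rfl⟩
        · exact ⟨⟨⟨hTs', hTs⟩, hd.symm⟩, pair_comm _ _⟩
    rw [e, sum_pair, prod_pair hne]
    · ring
    · intro h5
      exact hne (Prod.ext_iff.1 h5).1
  rw [key]
  linarith

end

end Pln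

end Pool.Gauss
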