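import Pool.Agent.Work.MP_065141_co.K.V6Chi
import Pool.Agent.Work.MP_065141_co.K.V6Str

/-!
# The charges of the supports in planar coordinates
-/

set_option autoImplicit false
set_option linter.unusedSectionVars false
set_option linter.unusedVariables false
open scoped Classical
open Finset

namespace Pool.Gauss

variable {α : Type} [Fintype α] [PartialOrder α]

/-- three consecutive elements of row `b` -/
noncomputable def tr3 (f : α → ℕ → ℕ → α) (b : ℕ) (a : α) (c : ℕ) : Finset α :=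
  {f a b c, f a b (c + 1), f a b (c + 2)}

lemma mem_tr3 {f : α → ℕ → ℕ → α} {b : ℕ} {a : α} {c : ℕ} {y : α} :
    y ∈ tr3 f b a c ↔ y = f a b c ∨ y = f a b (c + 1) ∨ y = f a b (c + 2) := by
  unfold tr3
  rw [mem_insert, mem_insert, mem_singleton]

lemma tr3_eq (f : α → ℕ → ℕ → α) (b : ℕ) (a : α) (c : ℕ) :
    tr3 f b a c = pr2 f b a c ∪ pr2 f b a (c + 1) := by
  ext y
  rw [mem_union, mem_tr3, Pln.mem_pr2, Pln.mem_pr2]
  tauto

/-- the number of common children over a triple -/
noncomputable def nN (f : α → ℕ → ℕ → α) (b : ℕ) (a : α) (c : ℕ) : ℕ :=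
  ((NEv α b).filter fun g => Pr2 g = tr3 f b a c).card

/-- the number of single children of P-elements over a pair -/
noncomputable def nG (f : α → ℕ → ℕ → α) (b : ℕ) (a : α) (c : ℕ) : ℕ :=
  ((GEv α b).filter fun u => Pr3 u = pr2 f b a c).card

/-- the number of single parents of Q-elements over a pair -/
noncomputable def nG' (f : α → ℕ → ℕ → α) (b : ℕ) (a : α) (c : ℕ) : ℕ :=
  ((GEv' α b).filter fun u => Ch3 u = pr2 f b a c).card

namespace CtxK

variable (C : CtxK α) {b : ℕ}
include C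

lemma gS_eq : gS α b = GEv α b ∪ GEv' α b := by
  ext v
  rw [mem_union, mem_gS, mem_GEv, mem_GEv', ds3_iff]
  constructor
  · rintro ⟨h1 | h1, g, h2, h3⟩
    · rw [C.relp_bd_above (by omega)] at h3
      have h4 := C.corank_of_mem_Ch (x := v) (y := g) (by rw [h3]; simp)
      exact Or.inr ⟨h1, g, (C.evtS_above (by omega)).1 h2, h3⟩
    · rw [C.relp_bd_below (by omega)] at h3
      have h4 := C.corank_of_mem_Pr (x := v) (y := g) (by rw [h3]; simp)
      exact Or.inl ⟨h1, g, (C.evtS_below (by omega)).1 h2, h3⟩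
  · rintro (⟨h1, g, h2, h3⟩ | ⟨h1, g, h2, h3⟩)
    · exact ⟨Or.inr h1, g, (C.evtS_below (mem_PEv.1 h2).1).2 h2, by
        rw [C.relp_bd_below (by omega), h3]⟩
    · exact ⟨Or.inl h1, g, (C.evtS_above (mem_QEv.1 h2).1).2 h2, by
        rw [C.relp_bd_above (by omega), h3]⟩

lemma BB3_below {t : α} (h : corank t = b + 3) : BB3 b t = Pr3 t := by
  unfold BB3 Pr3
  rw [C.relp_bd_below (by omega)]
  refine Finset.biUnion_congr rfl fun z hz => ?_
  have := C.corank_of_mem_Pr hz
  exact C.relp_BB_below (by omega)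

lemma BB3_above {t : α} (h : corank t + 3 = b) : BB3 b t = Ch3 t := by
  unfold BB3 Ch3
  rw [C.relp_bd_above (by omega)]
  refine Finset.biUnion_congr rfl fun z hz => ?_
  have := C.corank_of_mem_Ch hz
  exact C.relp_BB_above (by omega)

end CtxK

namespace Pln

variable {lo hi : α → ℕ → ℕ} {i : ℕ} {f : α → ℕ → ℕ → α}

/-- the triples of row `b` -/
noncomputable def trs (lo hi : α → ℕ → ℕ) (b : ℕ) : Finset (α × ℕ) :=
  (lev α 0).biUnion fun a => (Ico (lo a b) (hi a b - 1)).image fun c => (a, c)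

lemma mem_trs {b : ℕ} {p : α × ℕ} : p ∈ trs lo hi b ↔ corank p.1 = 0 ∧ lo p.1 b ≤ p.2 ∧
    p.2 + 2 ≤ hi p.1 b := by
  unfold trs
  rw [mem_biUnion]
  constructor
  · rintro ⟨a, ha, hp⟩
    rw [mem_image] at hp
    obtain ⟨c, hc, rfl⟩ := hp
    rw [mem_Ico] at hc
    rw [mem_lev] at ha
    exact ⟨ha, hc.1, by simp only; omega⟩
  · rintro ⟨h1, h2, h3⟩
    exact ⟨p.1, mem_lev.2 h1, mem_image.2 ⟨p.2, mem_Ico.2 ⟨h2, by omega⟩, rfl⟩⟩

lemma card_tr3 (h : Pln lo hi i f) {b : ℕ} (hb : b ≤ i) {a : α} {c : ℕ} (ha : corank a = 0)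
    (h1 : lo a b ≤ c) (h2 : c + 2 ≤ hi a b) : (tr3 f b a c).card = 3 := by
  have h3 : f a b c ≠ f a b (c + 1) := by
    intro h4
    have := (h.inj a a b c (c + 1) ha ha hb h1 (by omega) (by omega) (by omega) h4).2
    omega
  have h4 : f a b c ≠ f a b (c + 2) := by
    intro h4
    have := (h.inj a a b c (c + 2) ha ha hb h1 (by omega) (by omega) (by omega) h4).2
    omega
  have h5 : f a b (c + 1) ≠ f a b (c + 2) := by
    intro h4
    have := (h.inj a a b (c + 1) (c + 2) ha ha hb (by omega) (by omega) (by omega) (by omega) h4).2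
    omega
  unfold tr3
  rw [card_insert_of_notMem, card_pair h5]
  rw [mem_insert, mem_singleton]
  tauto

lemma tr3_inj (h : Pln lo hi i f) {b : ℕ} (hb : b ≤ i) {p q : α × ℕ} (hp : p ∈ trs lo hi b)
    (hq : q ∈ trs lo hi b) (he : tr3 f b p.1 p.2 = tr3 f b q.1 q.2) : p = q := by
  have hp' := mem_trs.1 hp
  have hq' := mem_trs.1 hq
  have h1 : f p.1 b p.2 ∈ tr3 f b q.1 q.2 := by
    rw [← he]
    exact mem_tr3.2 (Or.inl rfl)
  have h2 : f p.1 b (p.2 + 2) ∈ tr3 f b q.1 q.2 := by
    rw [← he]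
    exact mem_tr3.2 (Or.inr (Or.inr rfl))
  rw [mem_tr3] at h1 h2
  have k1 : p.1 = q.1 ∧ q.2 ≤ p.2 := by
    rcases h1 with h1 | h1 | h1
    · have := h.inj _ _ b _ _ hp'.1 hq'.1 hb (by omega) (by omega) (by omega) (by omega) h1
      exact ⟨this.1, by omega⟩
    · have := h.inj _ _ b _ _ hp'.1 hq'.1 hb (by omega) (by omega) (by omega) (by omega) h1
      exact ⟨this.1, by omega⟩
    · have := h.inj _ _ b _ _ hp'.1 hq'.1 hb (by omega) (by omega) (by omega) (by omega) h1
      exact ⟨this.1, by omega⟩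
  have k2 : p.2 + 2 ≤ q.2 + 2 := by
    rcases h2 with h2 | h2 | h2
    · have := h.inj _ _ b _ _ hp'.1 hq'.1 hb (by omega) (by omega) (by omega) (by omega) h2
      omega
    · have := h.inj _ _ b _ _ hp'.1 hq'.1 hb (by omega) (by omega) (by omega) (by omega) h2
      omega
    · have := h.inj _ _ b _ _ hp'.1 hq'.1 hb (by omega) (by omega) (by omega) (by omega) h2
      omega
  exact Prod.ext k1.1 (by omega)

/-! ### triples in coordinates -/

/-- a common child in coordinates -/
lemma NEv_foot (h : Pln lo hi i f) (C : CtxK α) (hiH : i ≤ HT α) (hP : ∀ j < i, Perf α j)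
    {b : ℕ} (hb : b + 1 ≤ i) {g : α} (hg : g ∈ NEv α b) : ∃ a c, corank a = 0 ∧ lo a b ≤ c ∧
      c + 2 ≤ hi a b ∧ Pr2 g = tr3 f b a c ∧
      Pr g = {f a (b + 1) (c + 1), f a (b + 1) (c + 2)} := by
  rw [mem_NEv] at hg
  obtain ⟨h1, h2, h3⟩ := hg
  have h4 := h.Pr2_three C hiH hP hb h1 h2 h3
  obtain ⟨x, x', hne, h5⟩ := card_eq_two.1 h2
  have key : ∀ y ∈ Pr g, ∃ a d, corank a = 0 ∧ lo a b ≤ d ∧ d + 1 ≤ hi a b ∧
      y = f a (b + 1) (d + 1) ∧ Pr y = pr2 f b a d := by
    intro y hy
    have h6 := C.corank_of_mem_Pr hy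
    have h7 := h4 y hy
    obtain ⟨a, d, ha, e1, e2, rfl⟩ := h.sur' (r := b + 1) hb (by omega : corank y = b + 1)
    rcases h.Pr_cases ha (by omega) e1 e2 with ⟨g1, g2⟩ | ⟨g1, g2⟩ | ⟨g1, g1', g2⟩
    · rw [g2, card_singleton] at h7
      omega
    · rw [g2, card_singleton] at h7
      omega
    · refine ⟨a, d - 1, ha, by omega, by omega, ?_, ?_⟩
      · rw [show d - 1 + 1 = d by omega]
      · rw [g2]
        unfold pr2
        rw [show d - 1 + 1 = d by omega]
  obtain ⟨a, d, ha, d1, d2, d3, d4⟩ := key x (by rw [h5]; simp)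
  obtain ⟨a', d', ha', d1', d2', d3', d4'⟩ := key x' (by rw [h5]; simp)
  have h6 : Pr2 g = pr2 f b a d ∪ pr2 f b a' d' := by
    unfold Pr2
    rw [h5, biUnion_insert, singleton_biUnion, d4, d4']
  have hp : (a, d) ∈ prs lo hi b := mem_prs.2 ⟨ha, d1, d2⟩
  have hq : (a', d') ∈ prs lo hi b := mem_prs.2 ⟨ha', d1', d2'⟩
  have h7 : ¬ Disjoint (pr2 f b a d) (pr2 f b a' d') := by
    intro h8
    rw [h6, card_union_of_disjoint h8, h.card_pr2 (by omega) ha d1 d2,
      h.card_pr2 (by omega) ha' d1' d2'] at h3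
    omega
  obtain ⟨h8, h9⟩ := (h.pr2_disj (by omega) hp hq).1 h7
  simp only at h8 h9
  subst h8
  rcases h9 with h9 | h9 | h9
  · subst h9
    exact (hne (by rw [d3, d3'])).elim
  · subst h9
    refine ⟨a, d', ha, d1', by omega, ?_, ?_⟩
    · rw [h6, tr3_eq, union_comm]
    · rw [h5, d3, d3', pair_comm]
  · subst h9
    refine ⟨a, d, ha, d1, by omega, ?_, ?_⟩
    · rw [h6, tr3_eq]
    · rw [h5, d3, d3']

/-- the common parent of a triple -/
lemma VEv_exists (h : Pln lo hi i f) (C : CtxK α) {j : ℕ} (hb : j + 2 ≤ i) {a : α} {c : ℕ}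
    (ha : corank a = 0) (h1 : lo a (j + 2) ≤ c) (h2 : c + 2 ≤ hi a (j + 2)) :
    f a j c ∈ VEv α (j + 2) ∧ Ch2 (f a j c) = tr3 f (j + 2) a c := by
  have s1 := h.loS a j ha (by omega)
  have s2 := h.hiS a j ha (by omega)
  have s3 : lo a (j + 1) ≤ lo a (j + 2) ∧ lo a (j + 2) ≤ lo a (j + 1) + 1 :=
    h.loS a (j + 1) ha (by omega)
  have s4 : hi a (j + 1) ≤ hi a (j + 2) ∧ hi a (j + 2) ≤ hi a (j + 1) + 1 :=
    h.hiS a (j + 1) ha (by omega)
  have e1 := h.Ch_dbl C ha (r := j) (c := c) (by omega) (by omega) (by omega) (by omega) (by omega)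
  have e2 : Ch (f a (j + 1) c) = pr2 f (j + 2) a c :=
    h.Ch_dbl C ha (r := j + 1) (c := c) (by omega) (by omega) (by omega) (by
      have : j + 1 + 1 = j + 2 := rfl
      rw [this]; omega) (by
      have : j + 1 + 1 = j + 2 := rfl
      rw [this]; omega)
  have e3 : Ch (f a (j + 1) (c + 1)) = pr2 f (j + 2) a (c + 1) :=
    h.Ch_dbl C ha (r := j + 1) (c := c + 1) (by omega) (by omega) (by omega) (by
      have : j + 1 + 1 = j + 2 := rfl
      rw [this]; omega) (by
      have : j + 1 + 1 = j + 2 := rfl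
      rw [this]; omega)
  have e4 : Ch2 (f a j c) = tr3 f (j + 2) a c := by
    unfold Ch2
    rw [e1]
    unfold pr2
    rw [biUnion_insert, singleton_biUnion, e2, e3, tr3_eq]
  refine ⟨mem_VEv.2 ⟨?_, ?_, ?_⟩, e4⟩
  · rw [h.cor a j c ha (by omega) (by omega) (by omega)]
  · rw [e1]
    exact h.card_pr2 (by omega) ha (by omega) (by omega)
  · rw [e4]
    exact h.card_tr3 hb ha h1 h2

/-- a common parent in coordinates -/
lemma VEv_foot (h : Pln lo hi i f) (C : CtxK α) {j : ℕ} (hb : j + 2 ≤ i) {z : α}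
    (hz : z ∈ VEv α (j + 2)) : ∃ a c, corank a = 0 ∧ lo a (j + 2) ≤ c ∧ c + 2 ≤ hi a (j + 2) ∧
      z = f a j c := by
  rw [mem_VEv] at hz
  obtain ⟨h1, h2, h3⟩ := hz
  obtain ⟨a, c, ha, g1, g2, rfl⟩ := h.sur' (r := j) (by omega) (by omega : corank z = j)
  obtain ⟨m1, m2⟩ := h.Ch_dbl' C ha (by omega) g1 g2 h2
  have e1 := h.Ch_dbl C ha (r := j) (by omega) g1 g2 m1 m2
  have hsub : Ch2 (f a j c) ⊆ (Icc (max c (lo a (j + 2))) (min (c + 2) (hi a (j + 2)))).image
      fun d => f a (j + 2) d := by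
    intro y hy
    unfold Ch2 at hy
    rw [e1, mem_biUnion] at hy
    obtain ⟨w, hw, hy⟩ := hy
    rw [mem_pr2] at hw
    have key : ∀ d, lo a (j + 1) ≤ d → d ≤ hi a (j + 1) → (d = c ∨ d = c + 1) →
        y ∈ Ch (f a (j + 1) d) → y ∈ (Icc (max c (lo a (j + 2))) (min (c + 2) (hi a (j + 2)))).image
          fun d => f a (j + 2) d := by
      intro d d1 d2 d3 hy
      rw [h.mem_Ch C ha (r := j + 1) (by omega) d1 d2] at hy
      obtain ⟨e, e1, e2, e3, rfl⟩ := hy
      have e2' : lo a (j + 2) ≤ e := e2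
      have e3' : e ≤ hi a (j + 2) := e3
      rw [mem_image]
      exact ⟨e, by rw [mem_Icc]; omega, rfl⟩
    rcases hw with rfl | rfl
    · exact key c m1 (by omega) (Or.inl rfl) hy
    · exact key (c + 1) (by omega) m2 (Or.inr rfl) hy
  have h5 := (card_le_card hsub).trans card_image_le
  rw [h3, Nat.card_Icc] at h5
  exact ⟨a, c, ha, by omega, by omega, rfl⟩

/-- rows with at least three elements in a strip are not the first two -/
lemma two_le_of_wide (h : Pln lo hi i f) {b : ℕ} (hb : b ≤ i) {a : α} (ha : corank a = 0)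
    (hw : lo a b + 2 ≤ hi a b) : 2 ≤ b := by
  by_contra hcon
  have h0 := h.hi0 a
  have h1 := h.lo0 a
  rcases Nat.eq_zero_or_pos b with h2 | h2
  · subst h2
    omega
  · have h3 : b = 1 := by omega
    subst h3
    have := h.hiS a 0 ha (by omega)
    simp only [zero_add] at this
    omega

/-- exactly one common parent over a triple -/
lemma nV_eq (h : Pln lo hi i f) (C : CtxK α) {b : ℕ} (hb : b ≤ i) {a : α} {c : ℕ}
    (ha : corank a = 0) (h1 : lo a b ≤ c) (h2 : c + 2 ≤ hi a b) :
    ((VEv α b).filter fun z => Ch2 z = tr3 f b a c).card = 1 := by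
  have hb2 := h.two_le_of_wide hb ha (by omega)
  obtain ⟨j, rfl⟩ : ∃ j, b = j + 2 := ⟨b - 2, by omega⟩
  rw [card_eq_one]
  refine ⟨f a j c, ?_⟩
  ext z
  rw [mem_filter, mem_singleton]
  constructor
  · rintro ⟨h3, h4⟩
    obtain ⟨a', c', ha', g1, g2, rfl⟩ := h.VEv_foot C hb h3
    rw [(h.VEv_exists C hb ha' g1 g2).2] at h4
    have := h.tr3_inj hb (p := (a', c')) (q := (a, c)) (mem_trs.2 ⟨ha', g1, g2⟩)
      (mem_trs.2 ⟨ha, h1, h2⟩) h4
    obtain ⟨rfl, rfl⟩ := Prod.mk.inj this
    rfl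
  · rintro rfl
    exact h.VEv_exists C hb ha h1 h2

/-- **the charge of a triple** -/
theorem chi_tr3 (h : Pln lo hi i f) (C : CtxK α) {b : ℕ} (hb : b ≤ i) {a : α} {c : ℕ}
    (ha : corank a = 0) (h1 : lo a b ≤ c) (h2 : c + 2 ≤ hi a b) :
    chi b (tr3 f b a c) = 1 - nN f b a c := by
  have hc := h.card_tr3 hb ha h1 h2
  rw [chi_eq C.grd]
  have e1 : (gS α b).filter (fun t => BB3 b t = tr3 f b a c) = ∅ := by
    rw [filter_eq_empty_iff]
    intro t ht h3
    obtain ⟨q, p, k1, k2, k3, k4, k5, k6, k7⟩ := BB_gS C.grd ht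
    rw [k6] at h3
    rw [h3, hc] at k5
    omega
  have e2 : (dpS α b).filter (fun s => s.biUnion (BB b) = tr3 f b a c) = ∅ := by
    rw [filter_eq_empty_iff]
    intro s hs h3
    have h4 := (mem_dpS.1 hs)
    obtain ⟨q, q', _, h5⟩ := card_eq_two.1 h4.2.1
    have hq : q ∈ s := by rw [h5]; simp
    have h6 := NT_TD' C.grd hs hq
    rw [NT_TD C.grd hs, h3] at h6
    have h7 := (mem_evtS.1 (h4.1 q hq)).2.2
    rw [← h6, hc] at h7
    omega
  have e3 : (c3S α b).filter (fun g => BB b g = tr3 f b a c) =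
      (NEv α b).filter (fun g => Pr2 g = tr3 f b a c) ∪
        (VEv α b).filter (fun g => Ch2 g = tr3 f b a c) := by
    rw [C.c3S_eq, filter_union]
    congr 1
    · apply filter_congr
      intro g hg
      rw [C.relp_BB_below (mem_NEv.1 hg).1]
    · apply filter_congr
      intro g hg
      rw [C.relp_BB_above (mem_VEv.1 hg).1]
  rw [e1, e2, sum_empty, sum_empty, add_zero, add_zero, e3, sum_union]
  · have e4 : ∑ g ∈ (NEv α b).filter (fun g => Pr2 g = tr3 f b a c), (- sg b g) =
        - (nN f b a c : ℤ) := by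
      unfold nN
      rw [sum_congr rfl (g := fun _ => (-1 : ℤ))]
      · rw [sum_const, nsmul_eq_mul]
        ring
      · intro g hg
        rw [mem_filter, mem_NEv] at hg
        unfold sg
        rw [if_neg (by omega)]
    have e5 : ∑ g ∈ (VEv α b).filter (fun g => Ch2 g = tr3 f b a c), (- sg b g) = 1 := by
      rw [sum_congr rfl (g := fun _ => (1 : ℤ))]
      · rw [sum_const, h.nV_eq C hb ha h1 h2]
        simp
      · intro g hg
        rw [mem_filter, mem_VEv] at hg
        unfold sg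
        rw [if_pos (by omega)]
        ring
    rw [e4, e5]
    ring
  · rw [Finset.disjoint_left]
    intro g h3 h4
    rw [mem_filter, mem_NEv] at h3
    rw [mem_filter, mem_VEv] at h4
    omega

/-- **the charge of a pair** -/
theorem chi_pr2 (h : Pln lo hi i f) (C : CtxK α) {b : ℕ} (hb : b + 1 ≤ i) {a : α} {c : ℕ}
    (ha : corank a = 0) (h1 : lo a b ≤ c) (h2 : c + 1 ≤ hi a b) (h0 : HH f b a c = 0) :
    chi b (pr2 f b a c) = (nG f b a c : ℤ) - nG' f b a c := by
  have hpc : (a, c) ∈ prs lo hi b := mem_prs.2 ⟨ha, h1, h2⟩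
  have hc := h.card_pr2 (by omega : b ≤ i) ha h1 h2
  rw [chi_eq C.grd]
  have e1 : (c3S α b).filter (fun g => BB b g = pr2 f b a c) = ∅ := by
    rw [filter_eq_empty_iff]
    intro g hg h3
    have := (mem_c3S.1 hg).2.2
    rw [h3, hc] at this
    omega
  rw [e1, sum_empty, zero_add]
  have e2 : ∑ t ∈ (gS α b).filter (fun t => BB3 b t = pr2 f b a c), sg b t =
      (nG f b a c : ℤ) - nG' f b a c := by
    have e3 : (gS α b).filter (fun t => BB3 b t = pr2 f b a c) =
        (GEv α b).filter (fun u => Pr3 u = pr2 f b a c) ∪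
          (GEv' α b).filter (fun u => Ch3 u = pr2 f b a c) := by
      rw [C.gS_eq, filter_union]
      congr 1
      · apply filter_congr
        intro g hg
        rw [C.BB3_below (mem_GEv.1 hg).1]
      · apply filter_congr
        intro g hg
        rw [C.BB3_above (mem_GEv'.1 hg).1]
    rw [e3, sum_union]
    · unfold nG nG'
      rw [sum_congr rfl (g := fun _ => (1 : ℤ)), sum_congr rfl (s₁ :=
        (GEv' α b).filter (fun u => Ch3 u = pr2 f b a c)) (g := fun _ => (-1 : ℤ))]
      · rw [sum_const, sum_const, nsmul_eq_mul, nsmul_eq_mul]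
        ring
      · intro g hg
        rw [mem_filter, mem_GEv'] at hg
        unfold sg
        rw [if_pos (by omega)]
      · intro g hg
        rw [mem_filter, mem_GEv] at hg
        unfold sg
        rw [if_neg (by omega)]
    · rw [Finset.disjoint_left]
      intro g h3 h4
      rw [mem_filter, mem_GEv] at h3
      rw [mem_filter, mem_GEv'] at h4
      omega
  rw [e2]
  -- the doubled events cancel
  set PP := (PEv α b).filter (fun w => Pr2 w = pr2 f b a c) with hPP
  set QQ := (QEv α b).filter (fun w => Ch2 w = pr2 f b a c) with hQQ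
  have hcard : PP.card = QQ.card := by
    have h3 : nP f b a c = nQ f b a c := by
      unfold HH at h0
      omega
    exact h3
  have hPs : ∀ w ∈ PP, ∀ w' ∈ PP, Pr w = Pr w' := by
    intro w hw w' hw'
    rw [hPP, mem_filter] at hw hw'
    obtain ⟨p, hp, k1, k2⟩ := h.PEv_pr C hb hw.1
    obtain ⟨p', hp', k1', k2'⟩ := h.PEv_pr C hb hw'.1
    have h3 := h.pr2_inj (by omega) hp hpc (by rw [← k2, hw.2])
    have h4 := h.pr2_inj (by omega) hp' hpc (by rw [← k2', hw'.2])
    rw [k1, k1', h3, h4]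
  have hQs : ∀ w ∈ QQ, ∀ w' ∈ QQ, Ch w = Ch w' := by
    intro w hw w' hw'
    rw [hQQ, mem_filter, mem_QEv] at hw hw'
    obtain ⟨z, hz⟩ := card_eq_one.1 hw.1.2.1
    obtain ⟨z', hz'⟩ := card_eq_one.1 hw'.1.2.1
    have h3 := hw.2
    have h4 := hw'.2
    rw [Ch2_of_single hz] at h3
    rw [Ch2_of_single hz'] at h4
    have h5 := (h.mono (by omega : b ≤ i)).mD_one C ha h1 h2
    unfold mD at h5
    rw [card_eq_one] at h5
    obtain ⟨y, hy⟩ := h5
    have k1 := C.corank_of_mem_Ch (x := w) (y := z) (by rw [hz]; simp)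
    have k2 := C.corank_of_mem_Ch (x := w') (y := z') (by rw [hz']; simp)
    have m1 : z ∈ ((lev' α b).filter fun z => Ch z = {f a b c, f a b (c + 1)}) :=
      mem_filter.2 ⟨mem_lev'.2 (by omega), h3⟩
    have m2 : z' ∈ ((lev' α b).filter fun z => Ch z = {f a b c, f a b (c + 1)}) :=
      mem_filter.2 ⟨mem_lev'.2 (by omega), h4⟩
    rw [hy, mem_singleton] at m1 m2
    rw [hz, hz', m1, m2]
  have e3 : (dpS α b).filter (fun s => s.biUnion (BB b) = pr2 f b a c) =
      PP.powersetCard 2 ∪ QQ.powersetCard 2 := by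
    ext s
    rw [mem_filter, mem_union, mem_powersetCard, mem_powersetCard]
    constructor
    · rintro ⟨h3, h4⟩
      have h5 := mem_dpS.1 h3
      have h6 : ∀ q ∈ s, BB b q = pr2 f b a c := by
        intro q hq
        rw [← NT_TD' C.grd h3 hq, NT_TD C.grd h3, h4]
      obtain ⟨q, q', hne, hs⟩ := card_eq_two.1 h5.2.1
      have hq : q ∈ s := by rw [hs]; simp
      have hbn : (bd b q).Nonempty := by
        rw [← card_pos, (mem_evtS.1 (h5.1 q hq)).2.1]
        omega
      obtain ⟨p, hp⟩ := hbn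
      have hside : ∀ t ∈ s, p ∈ bd b t := fun t ht => by rw [h5.2.2 t ht q hq]; exact hp
      rcases ds2_iff.1 (mem_evtS.1 (h5.1 q hq)).1 with k1 | k1
      · right
        refine ⟨?_, h5.2.1⟩
        intro t ht
        have k2 : corank t + 2 = b := by
          rcases ds2_iff.1 (mem_evtS.1 (h5.1 t ht)).1 with k2 | k2
          · exact k2
          · exfalso
            have m1 := hside t ht
            rw [C.relp_bd_below (by omega)] at m1
            have m2 := hp
            rw [C.relp_bd_above (by omega)] at m2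
            have := C.corank_of_mem_Pr m1
            have := C.corank_of_mem_Ch m2
            omega
        rw [hQQ, mem_filter]
        refine ⟨(C.evtS_above k2).1 (h5.1 t ht), ?_⟩
        rw [← C.relp_BB_above k2]
        exact h6 t ht
      · left
        refine ⟨?_, h5.2.1⟩
        intro t ht
        have k2 : corank t = b + 2 := by
          rcases ds2_iff.1 (mem_evtS.1 (h5.1 t ht)).1 with k2 | k2
          · exfalso
            have m1 := hside t ht
            rw [C.relp_bd_above (by omega)] at m1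
            have m2 := hp
            rw [C.relp_bd_below (by omega)] at m2
            have := C.corank_of_mem_Ch m1
            have := C.corank_of_mem_Pr m2
            omega
          · exact k2
        rw [hPP, mem_filter]
        refine ⟨(C.evtS_below k2).1 (h5.1 t ht), ?_⟩
        rw [← C.relp_BB_below k2]
        exact h6 t ht
    · rintro (⟨h3, h4⟩ | ⟨h3, h4⟩)
      · have h5 : ∀ t ∈ s, corank t = b + 2 ∧ t ∈ PEv α b ∧ Pr2 t = pr2 f b a c := by
          intro t ht
          have := h3 ht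
          rw [hPP, mem_filter] at this
          exact ⟨(mem_PEv.1 this.1).1, this⟩
        have h6 : s ∈ dpS α b := by
          rw [mem_dpS]
          refine ⟨fun t ht => (C.evtS_below (h5 t ht).1).2 (h5 t ht).2.1, h4,
            fun t ht t' ht' => ?_⟩
          rw [C.relp_bd_below (by have := (h5 t ht).1; omega),
            C.relp_bd_below (by have := (h5 t' ht').1; omega)]
          exact hPs t (h3 ht) t' (h3 ht')
        refine ⟨h6, ?_⟩
        obtain ⟨q, q', hne, hs⟩ := card_eq_two.1 h4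
        have hq : q ∈ s := by rw [hs]; simp
        rw [← NT_TD C.grd h6, NT_TD' C.grd h6 hq, C.relp_BB_below (h5 q hq).1]
        exact (h5 q hq).2.2
      · have h5 : ∀ t ∈ s, corank t + 2 = b ∧ t ∈ QEv α b ∧ Ch2 t = pr2 f b a c := by
          intro t ht
          have := h3 ht
          rw [hQQ, mem_filter] at this
          exact ⟨(mem_QEv.1 this.1).1, this⟩
        have h6 : s ∈ dpS α b := by
          rw [mem_dpS]
          refine ⟨fun t ht => (C.evtS_above (h5 t ht).1).2 (h5 t ht).2.1, h4,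
            fun t ht t' ht' => ?_⟩
          rw [C.relp_bd_above (by have := (h5 t ht).1; omega),
            C.relp_bd_above (by have := (h5 t' ht').1; omega)]
          exact hQs t (h3 ht) t' (h3 ht')
        refine ⟨h6, ?_⟩
        obtain ⟨q, q', hne, hs⟩ := card_eq_two.1 h4
        have hq : q ∈ s := by rw [hs]; simp
        rw [← NT_TD C.grd h6, NT_TD' C.grd h6 hq, C.relp_BB_above (h5 q hq).1]
        exact (h5 q hq).2.2
  have hmem : ∀ s ∈ PP.powersetCard 2 ∪ QQ.powersetCard 2, s ∈ dpS α b := by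
    intro s hs
    rw [← e3, mem_filter] at hs
    exact hs.1
  rw [e3, sum_union]
  · rw [sum_congr rfl (g := fun _ => (1 : ℤ)), sum_congr rfl (s₁ := QQ.powersetCard 2)
      (g := fun _ => (-1 : ℤ))]
    · rw [sum_const, sum_const, card_powersetCard, card_powersetCard, hcard]
      simp
    · intro s hs
      have h3 := hmem s (mem_union_right _ hs)
      rw [mem_powersetCard] at hs
      obtain ⟨q, q', hne, hs'⟩ := card_eq_two.1 hs.2
      have hq : q ∈ s := by rw [hs']; simp
      rw [sgT_TD C.grd h3 hq]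
      have h4 := hs.1 hq
      rw [hQQ, mem_filter, mem_QEv] at h4
      unfold sg
      rw [if_pos (by omega)]
    · intro s hs
      have h3 := hmem s (mem_union_left _ hs)
      rw [mem_powersetCard] at hs
      obtain ⟨q, q', hne, hs'⟩ := card_eq_two.1 hs.2
      have hq : q ∈ s := by rw [hs']; simp
      rw [sgT_TD C.grd h3 hq]
      have h4 := hs.1 hq
      rw [hPP, mem_filter, mem_PEv] at h4
      unfold sg
      rw [if_neg (by omega)]
  · rw [Finset.disjoint_left]
    intro s h3 h4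
    rw [mem_powersetCard] at h3 h4
    obtain ⟨q, q', hne, hs'⟩ := card_eq_two.1 h3.2
    have hq : q ∈ s := by rw [hs']; simp
    have m1 := h3.1 hq
    have m2 := h4.1 hq
    rw [hPP, mem_filter, mem_PEv] at m1
    rw [hQQ, mem_filter, mem_QEv] at m2
    omega

end Pln

end Pool.Gauss
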