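import Pool.Agent.Work.MP_065141_co.K.V6ClsA

/-!
# Classification of the configurations of loss at least two and energy at most six
Part C: all excited elements at distance two have one nearer neighbour
-/

set_option autoImplicit false
set_option linter.unusedSectionVars false
set_option linter.unusedVariables false
open scoped Classical
open Finset Polynomial

namespace Pool.Gauss

variable {α : Type} [Fintype α] [PartialOrder α] {i : ℕ}

/-- the data of the case of two excited elements next to level `i` -/
structure SS (i : ℕ) (ε : α → ℕ) (p p' q q' : α) : Prop where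
  dp : ds i p = 1
  dp' : ds i p' = 1
  hne : p ≠ p'
  p0 : 0 < ε p
  p0' : 0 < ε p'
  ax : ∀ r, ds i r = 1 → 0 < ε r → r = p ∨ r = p'
  sg : ∀ r, ds i r = 2 → 0 < ε r → bd i r = {p} ∨ bd i r = {p'}
  dq : ds i q = 2
  dq' : ds i q' = 2
  q0 : 0 < ε q
  q0' : 0 < ε q'
  bq : bd i q = {p}
  bq' : bd i q' = {p'}
  good : GoodE i ε
  e6 : ∑ p, ε p ≤ 6
  ls : (Fo i ε).card + 2 ≤ (Yd i ε).card

/-- one of the possible outcomes -/
def SOut (i : ℕ) (ε : α → ℕ) : Prop := (∃ p q, Swp i ε p q) ∨ TwoObj i ε ∨ VPP i ε

namespace SS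

variable {ε : α → ℕ} {p p' q q' : α}

lemma symm (S : SS i ε p p' q q') : SS i ε p' p q' q where
  dp := S.dp'
  dp' := S.dp
  hne := S.hne.symm
  p0 := S.p0'
  p0' := S.p0
  ax := fun r h1 h2 => (S.ax r h1 h2).symm
  sg := fun r h1 h2 => (S.sg r h1 h2).symm
  dq := S.dq'
  dq' := S.dq
  q0 := S.q0'
  q0' := S.q0
  bq := S.bq'
  bq' := S.bq
  good := S.good
  e6 := S.e6
  ls := S.ls

lemma hqq (S : SS i ε p p' q q') : q ≠ q' := by
  intro h
  have h1 := S.bq
  rw [h, S.bq'] at h1
  exact S.hne (Finset.singleton_injective h1).symm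

variable (hB : PB α i) (S : SS i ε p p' q q')
include hB S

lemma sum0 : ε p + ε p' + ε q + ε q' ≤ 6 := by
  have h1 := S.dp
  have h2 := S.dp'
  have h3 := S.dq
  have h4 := S.dq'
  have := lsum (i := i) S.e6 [] [p, p'] [q, q'] [] (by simp) (by simp [S.hne]) (by simp [S.hqq])
    (by simp) (by simp) (by simp [h1, h2]) (by simp [h3, h4]) (by simp)
  simp only [List.map_cons, List.map_nil, List.sum_cons, List.sum_nil] at this
  omega

/-- with one more element at distance three -/
lemma sum_v {v : α} (hv : ds i v = 3) : ε p + ε p' + ε q + ε q' + ε v ≤ 6 := by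
  have h1 := S.dp
  have h2 := S.dp'
  have h3 := S.dq
  have h4 := S.dq'
  have := lsum (i := i) S.e6 [] [p, p'] [q, q'] [v] (by simp) (by simp [S.hne]) (by simp [S.hqq])
    (by simp) (by simp) (by simp [h1, h2]) (by simp [h3, h4]) (by simp [hv])
  simp only [List.map_cons, List.map_nil, List.sum_cons, List.sum_nil] at this
  omega

/-- with two elements of level `i` -/
lemma sum_yy {a b : α} (ha : corank a = i) (hb : corank b = i) (hab : a ≠ b) :
    ε a + ε b + ε p + ε p' + ε q + ε q' ≤ 6 := by
  have h1 := S.dp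
  have h2 := S.dp'
  have h3 := S.dq
  have h4 := S.dq'
  have h5 := ds_eq_zero.2 ha
  have h6 := ds_eq_zero.2 hb
  have := lsum (i := i) S.e6 [a, b] [p, p'] [q, q'] [] (by simp [hab]) (by simp [S.hne])
    (by simp [S.hqq]) (by simp) (by simp [h5, h6]) (by simp [h1, h2]) (by simp [h3, h4]) (by simp)
  simp only [List.map_cons, List.map_nil, List.sum_cons, List.sum_nil] at this
  omega

lemma NAe : NA i ε = bd i p ∪ bd i p' := by
  ext t
  rw [mem_NA, mem_union]
  constructor
  · rintro ⟨r, ⟨h1, h2⟩, h3⟩
    rcases S.ax r h1 h2 with rfl | rfl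
    · exact Or.inl h3
    · exact Or.inr h3
  · rintro (h | h)
    · exact ⟨p, ⟨S.dp, S.p0⟩, h⟩
    · exact ⟨p', ⟨S.dp', S.p0'⟩, h⟩

lemma Yde {t : α} : t ∈ Yd i ε ↔ (t ∈ bd i p ∧ ε t < ε p) ∨ (t ∈ bd i p' ∧ ε t < ε p') := by
  constructor
  · intro h
    obtain ⟨r, h1, h2, h3, h4⟩ := exists_dom hB.hg h
    rcases S.ax r h1 h2 with rfl | rfl
    · exact Or.inl ⟨h3, h4⟩
    · exact Or.inr ⟨h3, h4⟩
  · rintro (⟨h1, h2⟩ | ⟨h1, h2⟩)
    · rw [mem_Yd]
      exact ⟨bd_lev hB.hg S.dp h1, p, mem_bd.1 h1, h2⟩
    · rw [mem_Yd]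
      exact ⟨bd_lev hB.hg S.dp' h1, p', mem_bd.1 h1, h2⟩

/-- a rising element has a free element over it -/
lemma rise (hnd : ¬ nd i ε p) : ∃ f ∈ Fo i ε, f = p ∨ (ds i f = 2 ∧ bd i f = {p}) := by
  have h5 := S.p0
  have h6 := S.p0'
  have h7 := S.q0'
  by_cases hfd : fd i ε p
  · obtain ⟨w, hw, hlt⟩ := hfd
    have d1 := fr_ds hB.hg hw
    have d2 := S.dp
    have hpw : p ∈ bd i w := mem_bd.2 hw
    have hb : bd i w = {p} := by
      rcases S.sg w (by omega) (by omega) with h | h
      · exact h
      · rw [h, mem_singleton] at hpw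
        exact absurd hpw S.hne
    refine ⟨w, ?_, Or.inr ⟨by omega, hb⟩⟩
    rw [mem_Fo]
    refine ⟨ds_pos (by omega), ?_, by rw [nd_single hb]; omega⟩
    rintro ⟨v, hv, hlt2⟩
    have d3 := fr_ds hB.hg hv
    have hwq : w ≠ q' := by
      rintro rfl
      rw [S.bq'] at hb
      exact S.hne (Finset.singleton_injective hb).symm
    have h1 := S.dp
    have h2 := S.dp'
    have h4 := S.dq'
    have := lsum (i := i) S.e6 [] [p, p'] [w, q'] [v] (by simp) (by simp [S.hne])
      (by simp [hwq]) (by simp) (by simp) (by simp [h1, h2])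
      (by simp only [List.mem_cons, List.not_mem_nil, or_false, forall_eq_or_imp, forall_eq]
          exact ⟨by omega, h4⟩)
      (by simp only [List.mem_cons, List.not_mem_nil, or_false, forall_eq]; omega)
    simp only [List.map_cons, List.map_nil, List.sum_cons, List.sum_nil] at this
    omega
  · exact ⟨p, mem_Fo.2 ⟨ds_pos (by rw [S.dp]; omega), hfd, hnd⟩, Or.inl rfl⟩

lemma rise_ne {f f' : α} (h : f = p ∨ (ds i f = 2 ∧ bd i f = {p}))
    (h' : f' = p' ∨ (ds i f' = 2 ∧ bd i f' = {p'})) : f ≠ f' := by
  have d1 := S.dp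
  have d2 := S.dp'
  rintro rfl
  rcases h with h | ⟨h1, h2⟩ <;> rcases h' with h' | ⟨h3, h4⟩
  · exact S.hne (h.symm.trans h')
  · rw [h] at h3
    omega
  · rw [h'] at h1
    omega
  · rw [h2] at h4
    exact S.hne (Finset.singleton_injective h4)

/-- `p` is simple: `q` is the only excited element over `p`, nothing is excited over `q` -/
lemma not_simple (h : ¬ ((∀ w, fr i p w → w ≠ q → ε w = 0) ∧ ∀ t, fr i q t → ε t = 0)) :
    ∃ r, 0 < ε r ∧ ((ds i r = 2 ∧ bd i r = {p} ∧ r ≠ q) ∨ (ds i r = 3 ∧ q ∈ bd i r)) := by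
  rw [not_and_or] at h
  rcases h with h | h
  · push Not at h
    obtain ⟨w, h1, h2, h3⟩ := h
    have d1 := fr_ds hB.hg h1
    have d2 := S.dp
    have hpw : p ∈ bd i w := mem_bd.2 h1
    refine ⟨w, by omega, Or.inl ⟨by omega, ?_, h2⟩⟩
    rcases S.sg w (by omega) (by omega) with h | h
    · exact h
    · rw [h, mem_singleton] at hpw
      exact absurd hpw S.hne
  · push Not at h
    obtain ⟨w, h1, h2⟩ := h
    have d1 := fr_ds hB.hg h1
    have d2 := S.dq
    exact ⟨w, by omega, Or.inr ⟨by omega, mem_bd.2 h1⟩⟩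

/-- the swap -/
lemma mkSwp (h2 : (bd i p).card = 2) (hdom : ∃ y ∈ bd i p, ε y < ε p)
    (hfree : ∀ y ∈ bd i p, ε y < ε p → y ∉ bd i p') (hbb : bd i p ≠ bd i p')
    (hs : (∀ w, fr i p w → w ≠ q → ε w = 0) ∧ ∀ t, fr i q t → ε t = 0) : Swp i ε p q where
  dp := S.dp
  bp := h2
  dq := S.dq
  bq := S.bq
  p0 := S.p0
  q0 := S.q0
  wp := hs.1
  tq := hs.2
  dom := hdom
  free := by
    intro y hy hlt p2 hp2 hne
    by_contra h
    have d1 := fr_ds hB.hg hp2
    rw [ds_eq_zero.2 (bd_lev hB.hg S.dp hy)] at d1
    rcases S.ax p2 (by omega) (by omega) with rfl | rfl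
    · exact hne rfl
    · exact hfree y hy hlt (mem_bd.2 hp2)
  par := by
    intro p2 hne hbd
    by_contra h
    have hy : ∃ y, y ∈ bd i p2 := by
      obtain ⟨y, hy, _⟩ := hdom
      exact ⟨y, by rw [hbd]; exact hy⟩
    obtain ⟨y, hy⟩ := hy
    have d1 := fr_ds hB.hg (mem_bd.1 hy)
    rw [hbd] at hy
    rw [ds_eq_zero.2 (bd_lev hB.hg S.dp hy)] at d1
    rcases S.ax p2 (by omega) (by omega) with rfl | rfl
    · exact hne rfl
    · exact hbb hbd.symm

/-- two extra elements in the disjoint case -/
lemma two_extra (h2 : (bd i p).card = 2) (h2' : (bd i p').card = 2)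
    (hd : Disjoint (bd i p) (bd i p')) {r r' : α} (hr : 0 < ε r) (hr' : 0 < ε r')
    (h : (ds i r = 2 ∧ bd i r = {p} ∧ r ≠ q) ∨ (ds i r = 3 ∧ q ∈ bd i r))
    (h' : (ds i r' = 2 ∧ bd i r' = {p'} ∧ r' ≠ q') ∨ (ds i r' = 3 ∧ q' ∈ bd i r')) :
    SOut i ε := by
  have d1 := S.dp
  have d2 := S.dp'
  have d3 := S.dq
  have d4 := S.dq'
  -- an element of distance three over elements belonging to `p` and to `p'`
  have hV : ∀ v a b, ds i v = 3 → 0 < ε v → a ∈ bd i v → b ∈ bd i v → bd i a = {p} →
      bd i b = {p'} → VPP i ε := by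
    intro v a b h1 h3 ha hb hba hbb
    have hab : a ≠ b := by
      rintro rfl
      rw [hba] at hbb
      exact S.hne (Finset.singleton_injective hbb)
    refine ⟨v, a, b, p, p', h1, ?_, hab, hba, hbb, S.hne, h2, h2', h3⟩
    symm
    apply Finset.eq_of_subset_of_card_le
    · intro t ht
      rw [mem_insert, mem_singleton] at ht
      rcases ht with rfl | rfl
      · exact ha
      · exact hb
    · rw [card_pair hab]
      exact hB.deg v
  by_cases hrr : r = r'
  · subst hrr
    right; right
    rcases h with ⟨h3, h4, h5⟩ | ⟨h3, h4⟩ <;> rcases h' with ⟨h6, h7, h8⟩ | ⟨h6, h7⟩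
    · rw [h4] at h7
      exact absurd (Finset.singleton_injective h7) S.hne
    · omega
    · omega
    · exact hV r q q' h3 hr h4 h7 S.bq S.bq'
  · -- everything is determined
    have hnp : p ≠ p' := S.hne
    have hqq := S.hqq
    have n1 : p ≠ q := ds_ne (i := i) (by omega)
    have n2 : p ≠ q' := ds_ne (i := i) (by omega)
    have n3 : p' ≠ q := ds_ne (i := i) (by omega)
    have n4 : p' ≠ q' := ds_ne (i := i) (by omega)
    have n5 : p ≠ r := ds_ne (i := i) (by rcases h with h | h <;> omega)
    have n6 : p' ≠ r := ds_ne (i := i) (by rcases h with h | h <;> omega)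
    have n7 : p ≠ r' := ds_ne (i := i) (by rcases h' with h | h <;> omega)
    have n8 : p' ≠ r' := ds_ne (i := i) (by rcases h' with h | h <;> omega)
    have n9 : q ≠ r := by
      rcases h with h | h
      · exact h.2.2.symm
      · exact ds_ne (i := i) (by omega)
    have n10 : q' ≠ r' := by
      rcases h' with h | h
      · exact h.2.2.symm
      · exact ds_ne (i := i) (by omega)
    have n11 : q ≠ r' := by
      rcases h' with h | h
      · rintro rfl
        rw [S.bq] at h
        exact hnp (Finset.singleton_injective h.2.1)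
      · exact ds_ne (i := i) (by omega)
    have n12 : q' ≠ r := by
      rcases h with h | h
      · rintro rfl
        rw [S.bq'] at h
        exact hnp (Finset.singleton_injective h.2.1).symm
      · exact ds_ne (i := i) (by omega)
    have hdisj : Disjoint ({p, q, r} : Finset α) {p', q', r'} := by
      rw [Finset.disjoint_left]
      intro t ht ht'
      simp only [mem_insert, mem_singleton] at ht ht'
      rcases ht with rfl | rfl | rfl <;> rcases ht' with h | h | h
      · exact hnp h
      · exact n2 h
      · exact n7 h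
      · exact n3 h.symm
      · exact hqq h
      · exact n11 h
      · exact n6 h.symm
      · exact n12 h.symm
      · exact hrr h
    have hT : ∀ {a b c : α}, a ≠ b → a ≠ c → b ≠ c → ({a, b, c} : Finset α).card = 3 := by
      intro a b c h1 h2 h3
      rw [card_insert_of_notMem, card_pair h3]
      simp [h1, h2]
    have he : ε = ind ({p, q, r} ∪ {p', q', r'}) := by
      apply eq_ind
      · intro t ht
        simp only [mem_union, mem_insert, mem_singleton] at ht
        rcases ht with (rfl | rfl | rfl) | (rfl | rfl | rfl)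
        · exact S.p0
        · exact S.q0
        · exact hr
        · exact S.p0'
        · exact S.q0'
        · exact hr'
      · rw [card_union_of_disjoint hdisj, hT n1 n5 n9, hT n4 n8 n10]
        exact S.e6
    have hmem : ∀ t, 0 < ε t → ds i t = 2 → t = q ∨ t = q' ∨ t = r ∨ t = r' := by
      intro t ht h2t
      rw [he, ind_pos] at ht
      simp only [mem_union, mem_insert, mem_singleton] at ht
      rcases ht with (rfl | h3 | h3) | (rfl | h3 | h3)
      · omega
      · exact Or.inl h3
      · exact Or.inr (Or.inr (Or.inl h3))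
      · omega
      · exact Or.inr (Or.inl h3)
      · exact Or.inr (Or.inr (Or.inr h3))
    -- the nearer neighbours of an element at distance three
    have hthree : ∀ v a, ds i v = 3 → 0 < ε v → a ∈ bd i v → bd i v = {a} ∨ ∃ b ∈ bd i v, b ≠ a ∧
        ds i b = 2 ∧ 0 < ε b := by
      intro v a h1 h3 ha
      by_cases hc : ∃ b ∈ bd i v, b ≠ a
      · obtain ⟨b, hb, hba⟩ := hc
        have := bd_sub_Bx hB S.good h1 h3 hb
        rw [mem_Bx] at this
        exact Or.inr ⟨b, hb, hba, this⟩
      · push Not at hc
        left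
        ext t
        rw [mem_singleton]
        constructor
        · exact hc t
        · rintro rfl
          exact ha
    have hsing : ∀ a, ds i a = 2 → 0 < ε a → bd i a = {p} ∨ bd i a = {p'} := S.sg
    -- the type of the first object
    have o1 : isO3 i {p, q, r} ∨ VPP i ε := by
      rcases h with ⟨h3, h4, h5⟩ | ⟨h3, h4⟩
      · left; right; right
        exact ⟨p, q, r, d1, h2, d3, S.bq, h3, h4, h5.symm, rfl⟩
      · rcases hthree r q h3 hr h4 with hb | ⟨b, hb, hbq, hb2, hb0⟩
        · left; right; left
          exact ⟨p, q, r, d1, h2, d3, S.bq, h3, hb, rfl⟩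
        · right
          have hbp : bd i b = {p'} := by
            rcases hmem b hb0 hb2 with rfl | rfl | rfl | rfl
            · exact absurd rfl hbq
            · exact S.bq'
            · omega
            · rcases h' with h' | h'
              · exact h'.2.1
              · omega
          exact hV r q b h3 hr h4 hb S.bq hbp
    have o2 : isO3 i {p', q', r'} ∨ VPP i ε := by
      rcases h' with ⟨h3, h4, h5⟩ | ⟨h3, h4⟩
      · left; right; right
        exact ⟨p', q', r', d2, h2', d4, S.bq', h3, h4, h5.symm, rfl⟩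
      · rcases hthree r' q' h3 hr' h4 with hb | ⟨b, hb, hbq, hb2, hb0⟩
        · left; right; left
          exact ⟨p', q', r', d2, h2', d4, S.bq', h3, hb, rfl⟩
        · right
          have hbp : bd i b = {p} := by
            rcases hmem b hb0 hb2 with rfl | rfl | rfl | rfl
            · exact S.bq
            · exact absurd rfl hbq
            · rcases h with h | h
              · exact h.2.1
              · omega
            · omega
          exact hV r' b q' h3 hr' hb h4 hbp S.bq'
    rcases o1 with o1 | o1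
    · rcases o2 with o2 | o2
      · right; left
        refine ⟨_, _, o1, o2, hdisj, ?_, he⟩
        have hN : ∀ {a b c : α}, ds i a = 1 → 2 ≤ ds i b → 2 ≤ ds i c →
            NT i ({a, b, c} : Finset α) = bd i a := by
          intro a b c h1 h3 h4
          unfold NT
          have : (({a, b, c} : Finset α).filter fun p => ds i p = 1) = {a} := by
            ext t
            rw [mem_filter, mem_insert, mem_insert, mem_singleton, mem_singleton]
            constructor
            · rintro ⟨rfl | rfl | rfl, h5⟩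
              · rfl
              · omega
              · omega
            · rintro rfl
              exact ⟨Or.inl rfl, h1⟩
          rw [this, singleton_biUnion]
        rw [hN d1 (by omega) (by rcases h with h | h <;> omega),
          hN d2 (by omega) (by rcases h' with h | h <;> omega)]
        exact hd
      · exact Or.inr (Or.inr o2)
    · exact Or.inr (Or.inr o1)

/-- the two elements have no common neighbour -/
lemma caseDisj (h2 : (bd i p).card = 2) (h2' : (bd i p').card = 2)
    (hd : Disjoint (bd i p) (bd i p')) (hy : ∃ y ∈ bd i p, ε y < ε p)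
    (hy' : ∃ y ∈ bd i p', ε y < ε p') : SOut i ε := by
  have hbb : bd i p ≠ bd i p' := by
    intro h
    obtain ⟨y, h1, _⟩ := hy
    exact Finset.disjoint_left.1 hd h1 (h ▸ h1)
  by_cases hs : ((∀ w, fr i p w → w ≠ q → ε w = 0) ∧ ∀ t, fr i q t → ε t = 0)
  · left
    exact ⟨p, q, S.mkSwp hB h2 hy (fun y h1 _ => Finset.disjoint_left.1 hd h1) hbb hs⟩
  · by_cases hs' : ((∀ w, fr i p' w → w ≠ q' → ε w = 0) ∧ ∀ t, fr i q' t → ε t = 0)
    · left
      exact ⟨p', q', S.symm.mkSwp hB h2' hy'
        (fun y h1 _ => Finset.disjoint_left.1 hd.symm h1) hbb.symm hs'⟩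
    · obtain ⟨r, hr, h⟩ := S.not_simple hB hs
      obtain ⟨r', hr', h'⟩ := S.symm.not_simple hB hs'
      exact S.two_extra hB h2 h2' hd hr hr' h h'

/-- the two elements have one common neighbour of large energy -/
lemma caseMid {a c b : α} (hp : bd i p = {a, c}) (hp' : bd i p' = {c, b}) (hac : a ≠ c)
    (hcb : c ≠ b) (hab : a ≠ b) (h1 : ε a < ε p) (h2 : ε p ≤ ε c) (h3 : ε p' ≤ ε c)
    (h4 : ε b < ε p') : SOut i ε := by
  have c1 : corank c = i := bd_lev hB.hg S.dp (by rw [hp]; simp)
  have e1 := S.p0
  have e2 := S.p0'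
  have e3 := S.q0
  have e4 := S.q0'
  have hbb : bd i p ≠ bd i p' := by
    intro h
    have : a ∈ bd i p' := by rw [← h, hp]; simp
    rw [hp', mem_insert, mem_singleton] at this
    rcases this with h5 | h5
    · exact hac h5
    · exact hab h5
  by_cases hs : ((∀ w, fr i p w → w ≠ q → ε w = 0) ∧ ∀ t, fr i q t → ε t = 0)
  · left
    refine ⟨p, q, S.mkSwp hB (by rw [hp, card_pair hac]) ⟨a, by rw [hp]; simp, h1⟩ ?_ hbb hs⟩
    intro y hy hlt hy'
    rw [hp, mem_insert, mem_singleton] at hy
    rw [hp', mem_insert, mem_singleton] at hy'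
    rcases hy with rfl | rfl
    · rcases hy' with h5 | h5
      · exact hac h5
      · exact hab h5
    · omega
  · by_cases hs' : ((∀ w, fr i p' w → w ≠ q' → ε w = 0) ∧ ∀ t, fr i q' t → ε t = 0)
    · left
      refine ⟨p', q', S.symm.mkSwp hB (by rw [hp', card_pair hcb]) ⟨b, by rw [hp']; simp, h4⟩ ?_
        hbb.symm hs'⟩
      intro y hy hlt hy'
      rw [hp', mem_insert, mem_singleton] at hy
      rw [hp, mem_insert, mem_singleton] at hy'
      rcases hy with rfl | rfl
      · omega
      · rcases hy' with h5 | h5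
        · exact hab h5.symm
        · exact hcb h5.symm
    · obtain ⟨r, hr, h⟩ := S.not_simple hB hs
      obtain ⟨r', hr', h'⟩ := S.symm.not_simple hB hs'
      have d1 := S.dp
      have d2 := S.dp'
      have d3 := S.dq
      have d4 := S.dq'
      have d5 := ds_eq_zero.2 c1
      have hnp := S.hne
      have hqq := S.hqq
      by_cases hrr : r = r'
      · subst hrr
        right; right
        rcases h with ⟨g3, g4, g5⟩ | ⟨g3, g4⟩ <;> rcases h' with ⟨g6, g7, g8⟩ | ⟨g6, g7⟩
        · rw [g4] at g7
          exact absurd (Finset.singleton_injective g7) S.hne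
        · omega
        · omega
        · refine ⟨r, q, q', p, p', g3, ?_, hqq, S.bq, S.bq', hnp, by rw [hp, card_pair hac],
            by rw [hp', card_pair hcb], hr⟩
          symm
          apply Finset.eq_of_subset_of_card_le
          · intro t ht
            rw [mem_insert, mem_singleton] at ht
            rcases ht with rfl | rfl
            · exact g4
            · exact g7
          · rw [card_pair hqq]
            exact hB.deg r
      · -- too much energy
        exfalso
        rcases h with ⟨g3, g4, g5⟩ | ⟨g3, g4⟩ <;> rcases h' with ⟨g6, g7, g8⟩ | ⟨g6, g7⟩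
        · have m1 : r ≠ q' := by
            rintro rfl
            rw [S.bq'] at g4
            exact hnp (Finset.singleton_injective g4).symm
          have m2 : r' ≠ q := by
            rintro rfl
            rw [S.bq] at g7
            exact hnp (Finset.singleton_injective g7)
          have := lsum (i := i) S.e6 [c] [p, p'] [q, q', r, r'] [] (by simp) (by simp [hnp])
            (by simp [hqq, g5.symm, m2.symm, m1.symm, g8.symm, hrr]) (by simp) (by simp [d5])
            (by simp [d1, d2]) (by simp [d3, d4, g3, g6]) (by simp)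
          simp only [List.map_cons, List.map_nil, List.sum_cons, List.sum_nil] at this
          omega
        · have m1 : r ≠ q' := by
            rintro rfl
            rw [S.bq'] at g4
            exact hnp (Finset.singleton_injective g4).symm
          have := lsum (i := i) S.e6 [c] [p, p'] [q, q', r] [r'] (by simp) (by simp [hnp])
            (by simp [hqq, g5.symm, m1.symm]) (by simp) (by simp [d5])
            (by simp [d1, d2]) (by simp [d3, d4, g3]) (by simp [g6])
          simp only [List.map_cons, List.map_nil, List.sum_cons, List.sum_nil] at this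
          omega
        · have m2 : r' ≠ q := by
            rintro rfl
            rw [S.bq] at g7
            exact hnp (Finset.singleton_injective g7)
          have := lsum (i := i) S.e6 [c] [p, p'] [q, q', r'] [r] (by simp) (by simp [hnp])
            (by simp [hqq, m2.symm, g8.symm]) (by simp) (by simp [d5])
            (by simp [d1, d2]) (by simp [d3, d4, g6]) (by simp [g3])
          simp only [List.map_cons, List.map_nil, List.sum_cons, List.sum_nil] at this
          omega
        · have := lsum (i := i) S.e6 [c] [p, p'] [q, q'] [r, r'] (by simp) (by simp [hnp])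
            (by simp [hqq]) (by simp [hrr]) (by simp [d5])
            (by simp [d1, d2]) (by simp [d3, d4]) (by simp [g3, g6])
          simp only [List.map_cons, List.map_nil, List.sum_cons, List.sum_nil] at this
          omega

/-- the two elements have one common neighbour, dominated by one of them only -/
lemma caseTwo {a c b : α} (hp : bd i p = {a, c}) (hp' : bd i p' = {c, b}) (hac : a ≠ c)
    (hcb : c ≠ b) (hab : a ≠ b) (h2 : ε c < ε p) (h3 : ε p' ≤ ε c)
    (h4 : ε b < ε p') : SOut i ε := by
  have c1 : corank c = i := bd_lev hB.hg S.dp (by rw [hp]; simp)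
  have e1 := S.p0
  have e2 := S.p0'
  have e3 := S.q0
  have e4 := S.q0'
  have d1 := S.dp
  have d2 := S.dp'
  have d3 := S.dq
  have d4 := S.dq'
  have d5 := ds_eq_zero.2 c1
  have hnp := S.hne
  have hqq := S.hqq
  have hbb : bd i p' ≠ bd i p := by
    intro h
    have : a ∈ bd i p' := by rw [h, hp]; simp
    rw [hp', mem_insert, mem_singleton] at this
    rcases this with h5 | h5
    · exact hac h5
    · exact hab h5
  have hs' : ((∀ w, fr i p' w → w ≠ q' → ε w = 0) ∧ ∀ t, fr i q' t → ε t = 0) := by
    by_contra hs'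
    obtain ⟨r, hr, h⟩ := S.symm.not_simple hB hs'
    rcases h with ⟨g3, g4, g5⟩ | ⟨g3, g4⟩
    · have m1 : r ≠ q := by
        rintro rfl
        rw [S.bq] at g4
        exact hnp (Finset.singleton_injective g4)
      have := lsum (i := i) S.e6 [c] [p, p'] [q, q', r] [] (by simp) (by simp [hnp])
        (by simp [hqq, g5.symm, m1.symm]) (by simp) (by simp [d5])
        (by simp [d1, d2]) (by simp [d3, d4, g3]) (by simp)
      simp only [List.map_cons, List.map_nil, List.sum_cons, List.sum_nil] at this
      omega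
    · have := lsum (i := i) S.e6 [c] [p, p'] [q, q'] [r] (by simp) (by simp [hnp])
        (by simp [hqq]) (by simp) (by simp [d5])
        (by simp [d1, d2]) (by simp [d3, d4]) (by simp [g3])
      simp only [List.map_cons, List.map_nil, List.sum_cons, List.sum_nil] at this
      omega
  left
  refine ⟨p', q', S.symm.mkSwp hB (by rw [hp', card_pair hcb]) ⟨b, by rw [hp']; simp, h4⟩ ?_
    hbb hs'⟩
  intro y hy hlt hy'
  rw [hp', mem_insert, mem_singleton] at hy
  rw [hp, mem_insert, mem_singleton] at hy'
  rcases hy with rfl | rfl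
  · omega
  · rcases hy' with h5 | h5
    · exact hab h5.symm
    · exact hcb h5.symm

end SS

namespace SS

variable {ε : α → ℕ} {p p' q q' : α}
variable (hB : PB α i) (S : SS i ε p p' q q')
include hB S

lemma Ysub : Yd i ε ⊆ bd i p ∪ bd i p' := by
  rw [← S.NAe hB]
  exact Yd_sub_NA hB.hg

/-- both elements are rising -/
lemma caseRR (h1 : ¬ nd i ε p) (h2 : ¬ nd i ε p') : SOut i ε := by
  obtain ⟨f, hf, hf'⟩ := S.rise hB h1
  obtain ⟨f2, hf2, hf2'⟩ := S.symm.rise hB h2
  have hne := S.rise_ne hB hf' hf2'
  have hF : 2 ≤ (Fo i ε).card := by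
    have : ({f, f2} : Finset α) ⊆ Fo i ε := by
      intro t ht
      rw [mem_insert, mem_singleton] at ht
      rcases ht with rfl | rfl
      · exact hf
      · exact hf2
    have := card_le_card this
    rwa [card_pair hne] at this
  have h3 := card_le_card (S.Ysub hB)
  have h4 := S.ls
  have h5 := Finset.card_union_add_card_inter (bd i p) (bd i p')
  have h6 := hB.deg p
  have h7 := hB.deg p'
  have h8 : (bd i p ∩ bd i p').card = 0 := by omega
  have hd : Disjoint (bd i p) (bd i p') := by
    rw [Finset.disjoint_iff_inter_eq_empty, ← Finset.card_eq_zero]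
    exact h8
  have h9 : (bd i p).card = 2 := by omega
  have h10 : (bd i p').card = 2 := by omega
  have key : ∀ {p : α}, (bd i p).card = 2 → ¬ nd i ε p → ∃ y ∈ bd i p, ε y < ε p := by
    intro p h1 h2
    obtain ⟨y, hy⟩ : (bd i p).Nonempty := by
      rw [← Finset.card_pos]
      omega
    refine ⟨y, hy, ?_⟩
    by_contra h
    exact h2 (nd_iff.2 ⟨y, hy, by omega⟩)
  exact S.caseDisj hB h9 h10 hd (key h9 h1) (key h10 h2)

/-- the two elements of a pair, the second one being given -/
lemma pair_of {s : Finset α} (hs : s.card = 2) {c : α} (hc : c ∈ s) :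
    ∃ a, a ≠ c ∧ s = {a, c} := by
  obtain ⟨a, b, hab, hSe⟩ := Finset.card_eq_two.1 hs
  rw [hSe, mem_insert, mem_singleton] at hc
  rcases hc with rfl | rfl
  · exact ⟨b, hab.symm, by rw [hSe, pair_comm]⟩
  · exact ⟨a, hab, hSe⟩

/-- exactly one element is rising -/
lemma caseRN (h1 : ¬ nd i ε p) (h2 : nd i ε p') : SOut i ε := by
  obtain ⟨f, hf, hf'⟩ := S.rise hB h1
  have hF : 1 ≤ (Fo i ε).card := Finset.card_pos.2 ⟨f, hf⟩
  have h3 := S.Ysub hB
  have h4 := S.ls
  have h6 := hB.deg p
  have h7 := hB.deg p'
  rw [nd_iff] at h2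
  obtain ⟨c, hc, hc2⟩ := h2
  have hall : ∀ t ∈ bd i p, ε t < ε p := by
    intro t ht
    by_contra h
    exact h1 (nd_iff.2 ⟨t, ht, by omega⟩)
  by_cases hcp : c ∈ bd i p
  · -- common neighbour
    have h5 := Finset.card_union_add_card_inter (bd i p) (bd i p')
    have h8 : 1 ≤ (bd i p ∩ bd i p').card := Finset.card_pos.2 ⟨c, mem_inter.2 ⟨hcp, hc⟩⟩
    have h9 := card_le_card h3
    have h10 : (bd i p).card = 2 := by omega
    have h11 : (bd i p').card = 2 := by omega
    have h12 : (bd i p ∪ bd i p').card = 3 := by omega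
    obtain ⟨a, hac, hpa⟩ := pair_of hB S h10 hcp
    obtain ⟨b, hbc, hpb⟩ := pair_of hB S h11 hc
    have hab : a ≠ b := by
      rintro rfl
      rw [hpa, hpb, union_self, card_pair hac] at h12
      omega
    have hYe : Yd i ε = bd i p ∪ bd i p' := Finset.eq_of_subset_of_card_le h3 (by omega)
    have hb : b ∈ Yd i ε := by rw [hYe, hpb]; simp
    rw [S.Yde hB] at hb
    have hb2 : ε b < ε p' := by
      rcases hb with hb | hb
      · rw [hpa, mem_insert, mem_singleton] at hb
        rcases hb.1 with h | h
        · exact absurd h.symm hab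
        · exact absurd h hbc
      · exact hb.2
    exact S.caseTwo hB hpa (by rw [hpb, pair_comm]) hac hbc.symm hab (hall c hcp) hc2 hb2
  · have hcY : c ∉ Yd i ε := by
      rw [S.Yde hB]
      rintro (h | h)
      · exact hcp h.1
      · omega
    have h8 : Yd i ε ⊆ bd i p ∪ (bd i p').erase c := by
      intro t ht
      have := h3 ht
      rw [mem_union] at this ⊢
      rcases this with h | h
      · exact Or.inl h
      · exact Or.inr (mem_erase.2 ⟨fun hc => hcY (hc ▸ ht), h⟩)
    have h9 := card_le_card h8
    have h10 := Finset.card_union_add_card_inter (bd i p) ((bd i p').erase c)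
    rw [card_erase_of_mem hc] at h10
    have h11 : (bd i p).card = 2 := by omega
    have h12 : (bd i p').card = 2 := by omega
    have h13 : (bd i p ∩ (bd i p').erase c).card = 0 := by omega
    have h14 : Yd i ε = bd i p ∪ (bd i p').erase c :=
      Finset.eq_of_subset_of_card_le h8 (by omega)
    have hd : Disjoint (bd i p) (bd i p') := by
      rw [Finset.card_eq_zero] at h13
      rw [Finset.disjoint_left]
      intro t ht ht'
      have : t ∈ bd i p ∩ (bd i p').erase c :=
        mem_inter.2 ⟨ht, mem_erase.2 ⟨fun h => hcp (h ▸ ht), ht'⟩⟩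
      rw [h13] at this
      simp at this
    obtain ⟨b, hbc, hpb⟩ := pair_of hB S h12 hc
    have hb : b ∈ Yd i ε := by
      rw [h14, mem_union, mem_erase]
      right
      exact ⟨hbc, by rw [hpb]; simp⟩
    rw [S.Yde hB] at hb
    have hb' : b ∈ bd i p' := by rw [hpb]; simp
    have hb2 : ε b < ε p' := by
      rcases hb with hb | hb
      · exact absurd hb' (Finset.disjoint_left.1 hd hb.1)
      · exact hb.2
    obtain ⟨y, hy⟩ : (bd i p).Nonempty := by
      rw [← Finset.card_pos]
      omega
    exact S.caseDisj hB h11 h12 hd ⟨y, hy, hall y hy⟩ ⟨b, hb', hb2⟩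

/-- no element is rising -/
lemma caseNN (h1 : nd i ε p) (h2 : nd i ε p') : SOut i ε := by
  have h3 := S.Ysub hB
  have h4 := S.ls
  have h6 := hB.deg p
  have h7 := hB.deg p'
  have e1 := S.p0
  have e2 := S.p0'
  have e3 := S.q0
  have e4 := S.q0'
  rw [nd_iff] at h1 h2
  obtain ⟨a, ha, ha2⟩ := h1
  obtain ⟨b, hb, hb2⟩ := h2
  have ca : corank a = i := bd_lev hB.hg S.dp ha
  have cb : corank b = i := bd_lev hB.hg S.dp' hb
  -- `a` and `b` are not dominated
  have haY : a ∉ Yd i ε := by
    rw [S.Yde hB]
    rintro (h | h)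
    · omega
    · have hab : a ≠ b := by
        rintro rfl
        omega
      have := S.sum_yy hB ca cb hab
      omega
  have hbY : b ∉ Yd i ε := by
    rw [S.Yde hB]
    rintro (h | h)
    · have hab : a ≠ b := by
        rintro rfl
        omega
      have := S.sum_yy hB ca cb hab
      omega
    · omega
  have h8 : Yd i ε ⊆ (bd i p).erase a ∪ (bd i p').erase b := by
    intro t ht
    have := h3 ht
    rw [mem_union] at this ⊢
    rcases this with h | h
    · exact Or.inl (mem_erase.2 ⟨fun hc => haY (hc ▸ ht), h⟩)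
    · exact Or.inr (mem_erase.2 ⟨fun hc => hbY (hc ▸ ht), h⟩)
  have h9 := card_le_card h8
  have h10 := Finset.card_union_add_card_inter ((bd i p).erase a) ((bd i p').erase b)
  rw [card_erase_of_mem ha, card_erase_of_mem hb] at h10
  have h11 : (bd i p).card = 2 := by omega
  have h12 : (bd i p').card = 2 := by omega
  have h13 : ((bd i p).erase a ∩ (bd i p').erase b).card = 0 := by omega
  have h14 : Yd i ε = (bd i p).erase a ∪ (bd i p').erase b :=
    Finset.eq_of_subset_of_card_le h8 (by omega)
  obtain ⟨a2, haa, hpa⟩ := pair_of hB S h11 ha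
  obtain ⟨b2, hbb, hpb⟩ := pair_of hB S h12 hb
  have ma : a2 ∈ bd i p := by rw [hpa]; simp
  have mb : b2 ∈ bd i p' := by rw [hpb]; simp
  have hab2 : a2 ≠ b2 := by
    intro h
    rw [Finset.card_eq_zero] at h13
    have : a2 ∈ (bd i p).erase a ∩ (bd i p').erase b :=
      mem_inter.2 ⟨mem_erase.2 ⟨haa, ma⟩, mem_erase.2 ⟨by rw [h]; exact hbb, by rw [h]; exact mb⟩⟩
    rw [h13] at this
    simp at this
  have ha2Y : a2 ∈ Yd i ε := by
    rw [h14, mem_union]
    exact Or.inl (mem_erase.2 ⟨haa, ma⟩)
  have hb2Y : b2 ∈ Yd i ε := by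
    rw [h14, mem_union]
    exact Or.inr (mem_erase.2 ⟨hbb, mb⟩)
  have hab : a2 ≠ b := fun h => hbY (h ▸ ha2Y)
  have hba : b2 ≠ a := fun h => haY (h ▸ hb2Y)
  have l1 : ε a2 < ε p := by
    rw [S.Yde hB] at ha2Y
    rcases ha2Y with h | h
    · exact h.2
    · have := h.1
      rw [hpb, mem_insert, mem_singleton] at this
      rcases this with h | h
      · exact absurd h hab2
      · exact absurd h hab
  have l2 : ε b2 < ε p' := by
    rw [S.Yde hB] at hb2Y
    rcases hb2Y with h | h
    · have := h.1
      rw [hpa, mem_insert, mem_singleton] at this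
      rcases this with h | h
      · exact absurd h.symm hab2
      · exact absurd h hba
    · exact h.2
  by_cases hce : a = b
  · subst hce
    exact S.caseMid hB hpa (by rw [hpb, pair_comm]) haa hbb.symm hab2 l1 ha2 hb2 l2
  · apply S.caseDisj hB h11 h12 _ ⟨a2, ma, l1⟩ ⟨b2, mb, l2⟩
    rw [hpa, hpb, Finset.disjoint_left]
    intro t ht ht'
    rw [mem_insert, mem_singleton] at ht ht'
    rcases ht with rfl | rfl <;> rcases ht' with h | h
    · exact hab2 h
    · exact hab h
    · exact hba h.symm
    · exact hce h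

theorem cls : SOut i ε := by
  by_cases h1 : nd i ε p <;> by_cases h2 : nd i ε p'
  · exact S.caseNN hB h1 h2
  · exact S.symm.caseRN hB h2 h1
  · exact S.caseRN hB h1 h2
  · exact S.caseRR hB h1 h2

end SS

section three

variable {m : Mat α i} {ε : α → ℕ}

/-- the numbers of excited elements -/
lemma Cf.card_add (hB : PB α i) (h : Cf m ε) : (Ax i ε).card + (Bx i ε).card ≤ 6 := by
  have hd : Disjoint (Ax i ε) (Bx i ε) := by
    rw [Finset.disjoint_left]
    intro t h1 h2
    rw [mem_Ax] at h1
    rw [mem_Bx] at h2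
    omega
  rw [← card_union_of_disjoint hd]
  refine le_trans (card_le_sum (ε := ε) ?_) h.e6
  intro t ht
  rw [mem_union, mem_Ax, mem_Bx] at ht
  rcases ht with ht | ht
  · exact ht.2
  · exact ht.2

/-- if there are six excited elements at the distances one and two then nothing else is excited -/
lemma Cf.eq_six (hB : PB α i) (h : Cf m ε) (h6 : 6 ≤ (Ax i ε).card + (Bx i ε).card) :
    ε = ind (Ax i ε ∪ Bx i ε) := by
  have hd : Disjoint (Ax i ε) (Bx i ε) := by
    rw [Finset.disjoint_left]
    intro t h1 h2
    rw [mem_Ax] at h1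
    rw [mem_Bx] at h2
    omega
  apply eq_ind
  · intro t ht
    rw [mem_union, mem_Ax, mem_Bx] at ht
    rcases ht with ht | ht
    · exact ht.2
    · exact ht.2
  · rw [card_union_of_disjoint hd]
    exact h.e6.trans h6

/-- if there are six excited elements at the distances one and two then the free elements are the
excited elements at distance one -/
lemma Cf.six (hB : PB α i) (h : Cf m ε) (h6 : 6 ≤ (Ax i ε).card + (Bx i ε).card) :
    Fo i ε = Ax i ε ∧ Yd i ε = NA i ε := by
  have he := h.eq_six hB h6
  have hQ : ∀ q ∈ Bx i ε, ds i q = 2 := fun q hq => (mem_Bx.1 hq).1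
  have hA : ∀ p ∈ Ax i ε, ds i p = 1 := fun p hp => (mem_Ax.1 hp).1
  have hZ : ∀ y ∈ (∅ : Finset α), corank y = i := by simp
  have hQA : ∀ q ∈ Bx i ε, bd i q ⊆ Ax i ε := fun q hq =>
    bd_sub_Ax hB h.good (hQ q hq) (mem_Bx.1 hq).2
  have e1 := cfg_Fo hB.hg hB.hl hQ hA hZ hQA
  have e2 := cfg_Yd hB.hg hQ hA hZ
  have e3 : Bx i ε ∪ Ax i ε ∪ ∅ = Ax i ε ∪ Bx i ε := by rw [union_empty, union_comm]
  rw [e3, ← he] at e1 e2
  constructor
  · rw [e1]
    exact Finset.filter_true_of_mem fun p _ => Finset.disjoint_empty_right _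
  · rw [e2, sdiff_empty]
    rfl

/-- three sets with at most two elements and a large union: one of them has two elements and is
disjoint from the others -/
lemma three_sets {s1 s2 s3 : Finset α} (h1 : s1.card ≤ 2) (h2 : s2.card ≤ 2) (h3 : s3.card ≤ 2)
    (h : 5 ≤ (s1 ∪ s2 ∪ s3).card) :
    (s1.card = 2 ∧ Disjoint s1 s2 ∧ Disjoint s1 s3) ∨
    (s2.card = 2 ∧ Disjoint s2 s1 ∧ Disjoint s2 s3) ∨
    (s3.card = 2 ∧ Disjoint s3 s1 ∧ Disjoint s3 s2) := by
  have a1 := Finset.card_union_add_card_inter s1 s2
  have a2 := Finset.card_union_add_card_inter s1 s3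
  have a3 := Finset.card_union_add_card_inter s2 s3
  have b1 := Finset.card_union_add_card_inter (s1 ∪ s2) s3
  have hdis : ∀ s t : Finset α, (s ∩ t).card = 0 → Disjoint s t := by
    intro s t h
    rw [Finset.disjoint_iff_inter_eq_empty, ← Finset.card_eq_zero]
    exact h
  have c1 : (s1 ∩ s3).card ≤ ((s1 ∪ s2) ∩ s3).card := card_le_card (by
    intro t; simp only [mem_inter, mem_union]; tauto)
  have c2 : (s2 ∩ s3).card ≤ ((s1 ∪ s2) ∩ s3).card := card_le_card (by
    intro t; simp only [mem_inter, mem_union]; tauto)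
  by_cases d12 : (s1 ∩ s2).card = 0
  · by_cases d13 : (s1 ∩ s3).card = 0
    · by_cases d23 : (s2 ∩ s3).card = 0
      · by_cases e : s1.card = 2
        · exact Or.inl ⟨e, hdis _ _ d12, hdis _ _ d13⟩
        · right; left
          exact ⟨by omega, (hdis _ _ d12).symm, hdis _ _ d23⟩
      · left
        exact ⟨by omega, hdis _ _ d12, hdis _ _ d13⟩
    · right; left
      refine ⟨by omega, (hdis _ _ d12).symm, hdis _ _ ?_⟩
      -- the union would be too small
      have c3 : (s1 ∩ s3).card + (s2 ∩ s3).card = ((s1 ∪ s2) ∩ s3).card := by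
        rw [Finset.union_inter_distrib_right, card_union_of_disjoint]
        exact Disjoint.mono inter_subset_left inter_subset_left (hdis _ _ d12)
      omega
  · right; right
    refine ⟨by omega, (hdis _ _ (by omega)).symm, (hdis _ _ (by omega)).symm⟩

end three

/-- **all excited elements at distance two have one nearer neighbour** -/
theorem clsSgl {m : Mat α i} {ε : α → ℕ} (hB : PB α i) (hF : m.FullX ∅) (h : Cf m ε)
    (hno : ∀ q ∈ Bx i ε, (bd i q).card = 1) : SOut i ε := by
  -- the excited element over a given one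
  have hfar : ∀ p ∈ Ax i ε, ∃ q ∈ Bx i ε, bd i q = {p} := by
    intro p hp
    rw [mem_Ax] at hp
    obtain ⟨q, h1, h2, h3⟩ := h.far hB hF hp.1 hp.2
    have hq : q ∈ Bx i ε := mem_Bx.2 ⟨h3, h2⟩
    obtain ⟨t, ht⟩ := Finset.card_eq_one.1 (hno q hq)
    have : p ∈ bd i q := mem_bd.2 h1
    rw [ht, mem_singleton] at this
    exact ⟨q, hq, by rw [ht, this]⟩
  choose! F hFB hFb using hfar
  have hinj : ∀ p ∈ Ax i ε, ∀ p' ∈ Ax i ε, F p = F p' → p = p' := by
    intro p hp p' hp' he
    have h1 := hFb p hp
    rw [he, hFb p' hp'] at h1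
    exact (Finset.singleton_injective h1).symm
  have hle : (Ax i ε).card ≤ (Bx i ε).card :=
    Finset.card_le_card_of_injOn F (fun p hp => hFB p hp) (fun p hp p' hp' he => hinj p hp p' hp' he)
  have hadd := h.card_add hB
  have hN := h.NA3 hB
  have hA2 : 2 ≤ (Ax i ε).card := by
    by_contra hc
    have h1 : (NA i ε).card ≤ 2 := by
      unfold NA
      refine (Finset.card_biUnion_le).trans ?_
      refine (Finset.sum_le_card_nsmul _ _ 2 fun p _ => hB.deg p).trans ?_
      rw [smul_eq_mul]
      omega
    omega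
  rcases Nat.lt_or_ge (Ax i ε).card 3 with h3 | h3
  · -- two elements
    obtain ⟨p, p', hne, hA⟩ := Finset.card_eq_two.1 (by omega : (Ax i ε).card = 2)
    have hp : p ∈ Ax i ε := by rw [hA]; simp
    have hp' : p' ∈ Ax i ε := by rw [hA]; simp
    have g1 := hFB p hp
    have g2 := hFB p' hp'
    have g3 := mem_Ax.1 hp
    have g4 := mem_Ax.1 hp'
    rw [mem_Bx] at g1 g2
    have S : SS i ε p p' (F p) (F p') :=
      { dp := g3.1, dp' := g4.1, hne := hne, p0 := g3.2, p0' := g4.2
        ax := by
          intro r h1 h2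
          have : r ∈ Ax i ε := mem_Ax.2 ⟨h1, h2⟩
          rw [hA, mem_insert, mem_singleton] at this
          exact this
        sg := by
          intro r h1 h2
          have hr : r ∈ Bx i ε := mem_Bx.2 ⟨h1, h2⟩
          obtain ⟨t, ht⟩ := Finset.card_eq_one.1 (hno r hr)
          have h5 : t ∈ Ax i ε := bd_sub_Ax hB h.good h1 h2 (by rw [ht]; simp)
          rw [hA, mem_insert, mem_singleton] at h5
          rcases h5 with rfl | rfl
          · exact Or.inl ht
          · exact Or.inr ht
        dq := g1.1, dq' := g2.1, q0 := g1.2, q0' := g2.2, bq := hFb p hp, bq' := hFb p' hp'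
        good := h.good, e6 := h.e6, ls := h.ls }
    exact S.cls hB
  · -- three elements
    obtain ⟨p1, p2, p3, n12, n13, n23, hA⟩ := Finset.card_eq_three.1
      (by omega : (Ax i ε).card = 3)
    obtain ⟨hFo, hYd⟩ := h.six hB (by omega)
    have he := h.eq_six hB (by omega)
    have hls := h.ls
    rw [hFo, hYd] at hls
    have hNA : NA i ε = bd i p1 ∪ bd i p2 ∪ bd i p3 := by
      unfold NA
      rw [hA, biUnion_insert, biUnion_insert, singleton_biUnion, union_assoc]
    rw [hNA] at hls
    -- the swap
    have key : ∀ p ∈ Ax i ε, (bd i p).card = 2 →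
        (∀ r ∈ Ax i ε, r ≠ p → Disjoint (bd i p) (bd i r)) → SOut i ε := by
      intro p hp hc hdis
      left
      have g1 := hFB p hp
      have g3 := mem_Ax.1 hp
      rw [mem_Bx] at g1
      have hone : ∀ t, 0 < ε t → t ∈ Ax i ε ∨ t ∈ Bx i ε := by
        intro t ht
        have h5 : 0 < ind (Ax i ε ∪ Bx i ε) t := by rw [← he]; exact ht
        rw [ind_pos, mem_union] at h5
        exact h5
      have hlev0 : ∀ y, corank y = i → ε y = 0 := by
        intro y hy
        by_contra hc
        have h6 := ds_eq_zero.2 hy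
        rcases hone y (by omega) with h5 | h5
        · rw [mem_Ax] at h5
          omega
        · rw [mem_Bx] at h5
          omega
      -- the map `F` is onto
      have hsurj : ∀ q ∈ Bx i ε, ∃ r ∈ Ax i ε, F r = q := by
        intro q hq
        have himg : (Ax i ε).image F = Bx i ε := by
          apply Finset.eq_of_subset_of_card_le
          · intro t ht
            rw [mem_image] at ht
            obtain ⟨r, hr, rfl⟩ := ht
            exact hFB r hr
          · rw [Finset.card_image_of_injOn (fun p hp p' hp' he => hinj p hp p' hp' he)]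
            omega
        rw [← himg, mem_image] at hq
        exact hq
      refine ⟨p, F p, ⟨g3.1, hc, g1.1, hFb p hp, g3.2, g1.2, ?_, ?_, ?_, ?_, ?_⟩⟩
      · intro w hw hne
        by_contra h0
        have d1 := fr_ds hB.hg hw
        obtain ⟨r, hr, hr2⟩ := hsurj w (mem_Bx.2 ⟨by omega, by omega⟩)
        have h5 := hFb r hr
        rw [hr2] at h5
        have h6 : p ∈ bd i w := mem_bd.2 hw
        rw [h5, mem_singleton] at h6
        rw [← h6] at hr2
        exact hne hr2.symm
      · intro t ht
        by_contra h0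
        have d1 := fr_ds hB.hg ht
        rcases hone t (by omega) with h5 | h5
        · rw [mem_Ax] at h5
          omega
        · rw [mem_Bx] at h5
          omega
      · obtain ⟨y, hy⟩ : (bd i p).Nonempty := by
          rw [← Finset.card_pos]
          omega
        refine ⟨y, hy, ?_⟩
        rw [hlev0 y (bd_lev hB.hg g3.1 hy)]
        exact g3.2
      · intro y hy _ r hr hne
        by_contra h0
        have d1 := fr_ds hB.hg hr
        rw [ds_eq_zero.2 (bd_lev hB.hg g3.1 hy)] at d1
        exact Finset.disjoint_left.1 (hdis r (mem_Ax.2 ⟨by omega, by omega⟩) hne) hy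
          (mem_bd.2 hr)
      · intro r hne hbd
        by_contra h0
        obtain ⟨y, hy⟩ : (bd i p).Nonempty := by
          rw [← Finset.card_pos]
          omega
        have hy' : y ∈ bd i r := by rw [hbd]; exact hy
        have d1 := fr_ds hB.hg (mem_bd.1 hy')
        rw [ds_eq_zero.2 (bd_lev hB.hg g3.1 hy)] at d1
        exact Finset.disjoint_left.1 (hdis r (mem_Ax.2 ⟨by omega, by omega⟩) hne) hy hy'
    have m1 : p1 ∈ Ax i ε := by rw [hA]; simp
    have m2 : p2 ∈ Ax i ε := by rw [hA]; simp
    have m3 : p3 ∈ Ax i ε := by rw [hA]; simp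
    have hAr : ∀ r ∈ Ax i ε, r = p1 ∨ r = p2 ∨ r = p3 := by
      intro r hr
      rw [hA, mem_insert, mem_insert, mem_singleton] at hr
      exact hr
    have hc3 : (Ax i ε).card = 3 := by omega
    rcases three_sets (hB.deg p1) (hB.deg p2) (hB.deg p3) (by omega) with
      ⟨h5, h6, h7⟩ | ⟨h5, h6, h7⟩ | ⟨h5, h6, h7⟩
    · apply key p1 m1 h5
      intro r hr hne
      rcases hAr r hr with rfl | rfl | rfl
      · exact absurd rfl hne
      · exact h6
      · exact h7
    · apply key p2 m2 h5
      intro r hr hne
      rcases hAr r hr with rfl | rfl | rfl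
      · exact h6
      · exact absurd rfl hne
      · exact h7
    · apply key p3 m3 h5
      intro r hr hne
      rcases hAr r hr with rfl | rfl | rfl
      · exact h6
      · exact h7
      · exact absurd rfl hne

end Pool.Gauss
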