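import Pool.Agent.Work.MP_065141_co.K.V6ClsA

/-!
# Classification of the configurations of loss at least two and energy at most six
Part D: at least three excited elements at distance one, and an excited element at distance two with
two nearer neighbours
-/

set_option autoImplicit false
set_option linter.unusedSectionVars false
set_option linter.unusedVariables false
open scoped Classical
open Finset Polynomial

namespace Pool.Gauss

variable {α : Type} [Fintype α] [PartialOrder α] {i : ℕ}

/-- the partner of a double element -/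
lemma Mat.partner_of (m : Mat α i) (hg : Grad α) (hF : m.FullX ∅) {p : α} (hp : ds i p = 1)
    (h2 : (bd i p).card = 2) : ∃ p', ds i p' = 1 ∧ bd i p' = bd i p ∧
      ((corank p < i ∧ i < corank p') ∨ (corank p' < i ∧ i < corank p)) ∧
      ((p, p') ∈ m.M ∨ (p', p) ∈ m.M) := by
  rcases hF p hp with h | h | h | ⟨e, he, h⟩
  · simp at h
  · exfalso
    have := card_bd_sgl hg (i := i) (Or.inl h)
    omega
  · exfalso
    have := card_bd_sgl hg (i := i) (Or.inr h)
    omega
  · have c1 := m.cz e he
    have c2 := m.cx e he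
    obtain ⟨y, y', hne, hz, hx⟩ := m.bd_matched hg he
    rcases h with rfl | rfl
    · exact ⟨e.2, by unfold ds; omega, by rw [hz, hx], Or.inl ⟨by omega, by omega⟩, Or.inl he⟩
    · exact ⟨e.1, by unfold ds; omega, by rw [hz, hx], Or.inr ⟨by omega, by omega⟩, Or.inr he⟩

/-- the partners of different elements are different -/
lemma Mat.partner_ne (m : Mat α i) {p q p' q' : α} (h : p ≠ q)
    (hp : (p, p') ∈ m.M ∨ (p', p) ∈ m.M) (hq : (q, q') ∈ m.M ∨ (q', q) ∈ m.M) : p' ≠ q' := by
  rintro rfl
  rcases hp with hp | hp <;> rcases hq with hq | hq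
  · have := m.inj2 _ hp _ hq rfl
    exact h (Prod.mk.inj this).1
  · have h1 := m.cx _ hp
    have h2 := m.cz _ hq
    simp only at h1 h2
    omega
  · have h1 := m.cz _ hp
    have h2 := m.cx _ hq
    simp only at h1 h2
    omega
  · have := m.inj1 _ hp _ hq rfl
    exact h (Prod.mk.inj this).2

lemma fo_near {ε : α → ℕ} {p : α} (hp : ds i p = 1) (h1 : ∀ y ∈ bd i p, ε y < ε p)
    (h2 : ∀ q, fr i p q → ε q ≤ ε p) : p ∈ Fo i ε := by
  rw [mem_Fo]
  refine ⟨ds_pos (by omega), ?_, ?_⟩
  · rintro ⟨q, h3, h4⟩
    have := h2 q h3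
    omega
  · rintro ⟨q, h3, h4⟩
    have := h1 q (mem_bd.2 h3)
    omega

/-- three excited elements at distance one, two excited elements at distance two, the first one with
two nearer neighbours -/
structure TriD (m : Mat α i) (ε : α → ℕ) (p1 p2 p3 g g' : α) : Prop where
  cf : Cf m ε
  n12 : p1 ≠ p2
  n13 : p1 ≠ p3
  n23 : p2 ≠ p3
  ng : g ≠ g'
  d1 : ds i p1 = 1
  d2 : ds i p2 = 1
  d3 : ds i p3 = 1
  dg : ds i g = 2
  dg' : ds i g' = 2
  e1 : 0 < ε p1
  e2 : 0 < ε p2
  e3 : 0 < ε p3
  eg : 0 < ε g
  eg' : 0 < ε g'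
  bg : bd i g = {p1, p2}
  f3 : p3 ∈ bd i g'

namespace TriD

variable {m : Mat α i} {ε : α → ℕ} {p1 p2 p3 g g' : α}

lemma symm (D : TriD m ε p1 p2 p3 g g') : TriD m ε p2 p1 p3 g g' where
  cf := D.cf
  n12 := D.n12.symm
  n13 := D.n23
  n23 := D.n13
  ng := D.ng
  d1 := D.d2
  d2 := D.d1
  d3 := D.d3
  dg := D.dg
  dg' := D.dg'
  e1 := D.e2
  e2 := D.e1
  e3 := D.e3
  eg := D.eg
  eg' := D.eg'
  bg := by rw [D.bg, pair_comm]
  f3 := D.f3

section

variable (D : TriD m ε p1 p2 p3 g g')
include D

lemma nes : p1 ≠ g ∧ p1 ≠ g' ∧ p2 ≠ g ∧ p2 ≠ g' ∧ p3 ≠ g ∧ p3 ≠ g' := by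
  have h1 := D.d1
  have h2 := D.d2
  have h3 := D.d3
  have h4 := D.dg
  have h5 := D.dg'
  exact ⟨ds_ne (i := i) (by omega), ds_ne (i := i) (by omega), ds_ne (i := i) (by omega),
    ds_ne (i := i) (by omega), ds_ne (i := i) (by omega), ds_ne (i := i) (by omega)⟩

lemma sumT : ∑ t ∈ ({p1, p2, p3, g, g'} : Finset α), ε t = ε p1 + ε p2 + ε p3 + ε g + ε g' := by
  obtain ⟨h1, h2, h3, h4, h5, h6⟩ := D.nes
  rw [Finset.sum_insert, Finset.sum_insert, Finset.sum_insert, Finset.sum_insert,
    Finset.sum_singleton]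
  · ring
  · simp [D.ng]
  · simp [h5, h6]
  · simp [D.n23, h3, h4]
  · simp [D.n12, D.n13, h1, h2]

lemma sum5 : ε p1 + ε p2 + ε p3 + ε g + ε g' ≤ 6 := by
  have h1 := sum_ge ({p1, p2, p3, g, g'} : Finset α) ε
  rw [D.sumT] at h1
  have := D.cf.e6
  omega

lemma sum6 {s : α} (hs : s ∉ ({p1, p2, p3, g, g'} : Finset α)) :
    ε s + (ε p1 + ε p2 + ε p3 + ε g + ε g') ≤ 6 := by
  have h1 := sum_ge (insert s ({p1, p2, p3, g, g'} : Finset α)) ε
  rw [Finset.sum_insert hs, D.sumT] at h1
  have := D.cf.e6
  omega

lemma sum7 {s s' : α} (hs : s ∉ ({p1, p2, p3, g, g'} : Finset α))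
    (hs' : s' ∉ ({p1, p2, p3, g, g'} : Finset α)) (hne : s ≠ s') :
    ε s + (ε s' + (ε p1 + ε p2 + ε p3 + ε g + ε g')) ≤ 6 := by
  have h1 := sum_ge (insert s (insert s' ({p1, p2, p3, g, g'} : Finset α))) ε
  rw [Finset.sum_insert, Finset.sum_insert hs', D.sumT] at h1
  · have := D.cf.e6
    omega
  · rw [mem_insert]
    rintro (h | h)
    · exact hne h
    · exact hs h

lemma notT {s : α} (h : ds i s ≠ 1) (h' : ds i s ≠ 2) :
    s ∉ ({p1, p2, p3, g, g'} : Finset α) := by
  simp only [mem_insert, mem_singleton]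
  rintro (rfl | rfl | rfl | rfl | rfl)
  · exact h D.d1
  · exact h D.d2
  · exact h D.d3
  · exact h' D.dg
  · exact h' D.dg'

/-- all energies are one, if there is another excited element -/
lemma ones {s : α} (hs : s ∉ ({p1, p2, p3, g, g'} : Finset α)) (h0 : 0 < ε s) :
    ε p1 = 1 ∧ ε p2 = 1 ∧ ε p3 = 1 ∧ ε g = 1 ∧ ε g' = 1 ∧ ε s = 1 ∧
      ∀ t, t ∉ ({p1, p2, p3, g, g'} : Finset α) → t ≠ s → ε t = 0 := by
  have h1 := D.sum6 hs
  have e1 := D.e1
  have e2 := D.e2
  have e3 := D.e3
  have e4 := D.eg
  have e5 := D.eg'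
  refine ⟨by omega, by omega, by omega, by omega, by omega, by omega, ?_⟩
  intro t ht hts
  have := D.sum7 ht hs hts
  omega

lemma eq_ind6 {s : α} (hs : s ∉ ({p1, p2, p3, g, g'} : Finset α)) (h0 : 0 < ε s) :
    ε = ind (insert s ({p1, p2, p3, g, g'} : Finset α)) := by
  obtain ⟨h1, h2, h3, h4, h5, h6, h7⟩ := D.ones hs h0
  funext t
  by_cases ht : t ∈ insert s ({p1, p2, p3, g, g'} : Finset α)
  · rw [ind_mem ht]
    simp only [mem_insert, mem_singleton] at ht
    rcases ht with rfl | rfl | rfl | rfl | rfl | rfl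
    · exact h6
    · exact h1
    · exact h2
    · exact h3
    · exact h4
    · exact h5
  · rw [ind_notMem ht]
    rw [mem_insert, not_or] at ht
    exact h7 t ht.2 ht.1

/-- nothing except the five elements and one more element can be excited -/
lemma zero_or {t : α} (ht : t ∉ ({p1, p2, p3, g, g'} : Finset α))
    (h : 2 ≤ ε p1 ∨ 2 ≤ ε p2 ∨ 2 ≤ ε p3 ∨ 2 ≤ ε g ∨ 2 ≤ ε g') : ε t = 0 := by
  have h1 := D.sum6 ht
  have e1 := D.e1
  have e2 := D.e2
  have e3 := D.e3
  have e4 := D.eg
  have e5 := D.eg'
  omega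


lemma BB_eq : BB i g = bd i p1 ∪ bd i p2 := by
  unfold BB
  rw [D.bg, biUnion_insert, singleton_biUnion]

lemma NA_eq (hA : ∀ s, ds i s = 1 → 0 < ε s → s = p1 ∨ s = p2 ∨ s = p3) :
    NA i ε = BB i g ∪ bd i p3 := by
  rw [D.BB_eq]
  ext y
  rw [mem_NA, mem_union, mem_union]
  constructor
  · rintro ⟨p, ⟨h1, h2⟩, h3⟩
    rcases hA p h1 h2 with rfl | rfl | rfl
    · exact Or.inl (Or.inl h3)
    · exact Or.inl (Or.inr h3)
    · exact Or.inr h3
  · rintro ((h | h) | h)
    · exact ⟨p1, ⟨D.d1, D.e1⟩, h⟩
    · exact ⟨p2, ⟨D.d2, D.e2⟩, h⟩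
    · exact ⟨p3, ⟨D.d3, D.e3⟩, h⟩

lemma gU : g ∈ U2 α i := by
  rw [mem_U2, D.bg, card_pair D.n12]
  exact ⟨D.dg, rfl⟩

/-- an active diamond -/
lemma hasAD {y : α} (hy : corank y = i) (h1 : y ∈ bd i p1) (h2 : y ∈ bd i p2)
    (h3 : y ∉ bd i p3) (hB : PB α i)
    (hA : ∀ s, ds i s = 1 → 0 < ε s → s = p1 ∨ s = p2 ∨ s = p3)
    (hlev : ∀ t, corank t = i → t ≠ y → ε t = 0) (hone : ε p1 = 1 ∧ ε p2 = 1)
    (hfar : ∀ q, ds i q = 2 → q ≠ g → ε q ≤ 1) (hv : ∀ v, 3 ≤ ds i v → ε v = 0)
    (act : (ε y = 0 ∧ ε g = 2) ∨ (ε y = 1 ∧ ε g = 1)) : HasAD i ε := by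
  have hg := hB.hg
  refine ⟨y, p1, p2, g, ⟨⟨hy, mem_bd.1 h1, mem_bd.1 h2, D.n12, ?_, ?_, ?_⟩,
    ⟨D.e1, D.e2, D.eg, ?_, ?_, ?_, ?_, ?_, ?_, ?_⟩, ?_⟩⟩
  · rw [← mem_bd, D.bg]; simp
  · rw [← mem_bd, D.bg]; simp
  · intro p hp
    rw [← mem_bd, D.bg] at hp
    simpa using hp
  · intro z hz hz1 hz2
    by_contra h0
    have d : ds i z = 1 := by rw [fr_ds hg hz, ds_eq_zero.2 hy]
    rcases hA z d (by omega) with rfl | rfl | rfl
    · exact hz1 rfl
    · exact hz2 rfl
    · exact h3 (mem_bd.2 hz)
  · intro h hh hne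
    have d : ds i h = 2 := by rw [fr_ds hg hh, D.d1]
    have := hfar h d hne
    omega
  · intro h hh hne
    have d : ds i h = 2 := by rw [fr_ds hg hh, D.d2]
    have := hfar h d hne
    omega
  · intro t ht hne
    rw [hlev t (bd_lev hg D.d1 (mem_bd.2 ht)) hne]
    exact D.e1
  · intro t ht hne
    rw [hlev t (bd_lev hg D.d2 (mem_bd.2 ht)) hne]
    exact D.e2
  · intro v hvv
    have d : ds i v = 3 := by rw [fr_ds hg hvv, D.dg]
    rw [hv v (by omega)]
    omega
  · intro v hvv
    have d : ds i v = 3 := by rw [fr_ds hg hvv, D.dg]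
    rw [hv v (by omega)]
    omega
  · unfold Act
    omega

/-- a pair which can be moved -/
lemma swp (hB : PB α i) (hA : ∀ s, ds i s = 1 → 0 < ε s → s = p1 ∨ s = p2 ∨ s = p3)
    (hb : bd i g' = {p3}) (h2 : (bd i p3).card = 2)
    (hw : ∀ w, fr i p3 w → w ≠ g' → ε w = 0) (ht : ∀ t, fr i g' t → ε t = 0)
    (dom : ∃ y ∈ bd i p3, ε y < ε p3)
    (free : ∀ y ∈ bd i p3, ε y < ε p3 → y ∉ bd i p1 ∧ y ∉ bd i p2) : Swp i ε p3 g' where
  dp := D.d3
  bp := h2
  dq := D.dg'
  bq := hb
  p0 := D.e3
  q0 := D.eg'
  wp := hw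
  tq := ht
  dom := dom
  free := by
    intro y hy hlt p hp hne
    by_contra h0
    have hyl := bd_lev hB.hg D.d3 hy
    have d : ds i p = 1 := by rw [fr_ds hB.hg hp, ds_eq_zero.2 hyl]
    have := free y hy hlt
    rcases hA p d (by omega) with rfl | rfl | rfl
    · exact this.1 (mem_bd.2 hp)
    · exact this.2 (mem_bd.2 hp)
    · exact hne rfl
  par := by
    intro p hne hbp
    by_contra h0
    obtain ⟨y, hy, hlt⟩ := dom
    have hyl := bd_lev hB.hg D.d3 hy
    have hyp : y ∈ bd i p := by rw [hbp]; exact hy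
    have d : ds i p = 1 := by rw [fr_ds hB.hg (mem_bd.1 hyp), ds_eq_zero.2 hyl]
    have := free y hy hlt
    rcases hA p d (by omega) with rfl | rfl | rfl
    · exact this.1 hyp
    · exact this.2 hyp
    · exact hne rfl

/-- the three elements are free if the energies of level `i` vanish and `g`, `g'` are small -/
lemma fo3 (hB : PB α i) (hlev : ∀ y, corank y = i → ε y = 0)
    (hq : ∀ q, ds i q = 2 → ε q ≤ 1) : p1 ∈ Fo i ε ∧ p2 ∈ Fo i ε ∧ p3 ∈ Fo i ε := by
  have hg := hB.hg
  have e1 := D.e1
  have e2 := D.e2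
  have e3 := D.e3
  refine ⟨fo_near D.d1 ?_ ?_, fo_near D.d2 ?_ ?_, fo_near D.d3 ?_ ?_⟩
  · intro y hy
    rw [hlev y (bd_lev hg D.d1 hy)]
    exact e1
  · intro q hq'
    have := hq q (by rw [fr_ds hg hq', D.d1])
    omega
  · intro y hy
    rw [hlev y (bd_lev hg D.d2 hy)]
    exact e2
  · intro q hq'
    have := hq q (by rw [fr_ds hg hq', D.d2])
    omega
  · intro y hy
    rw [hlev y (bd_lev hg D.d3 hy)]
    exact e3
  · intro q hq'
    have := hq q (by rw [fr_ds hg hq', D.d3])
    omega

lemma card_three {s t u : α} {A : Finset α} (hst : s ≠ t) (hsu : s ≠ u) (htu : t ≠ u)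
    (hs : s ∈ A) (ht : t ∈ A) (hu : u ∈ A) : 3 ≤ A.card := by
  have h1 : ({s, t, u} : Finset α) ⊆ A := by
    intro x hx
    simp only [mem_insert, mem_singleton] at hx
    rcases hx with rfl | rfl | rfl
    · exact hs
    · exact ht
    · exact hu
  have h2 := card_le_card h1
  rw [card_insert_of_notMem (by simp [hst, hsu]), card_pair htu] at h2
  exact h2

lemma card_two {s t : α} {A : Finset α} (hst : s ≠ t) (hs : s ∈ A) (ht : t ∈ A) :
    2 ≤ A.card := by
  have h1 : ({s, t} : Finset α) ⊆ A := by
    intro x hx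
    simp only [mem_insert, mem_singleton] at hx
    rcases hx with rfl | rfl
    · exact hs
    · exact ht
  have h2 := card_le_card h1
  rw [card_pair hst] at h2
  exact h2

/-- at least five dominated elements if the three elements are free -/
lemma five (h : p1 ∈ Fo i ε ∧ p2 ∈ Fo i ε ∧ p3 ∈ Fo i ε) : 5 ≤ (Yd i ε).card := by
  have := D.card_three D.n12 D.n13 D.n23 h.1 h.2.1 h.2.2
  have := D.cf.ls
  omega


lemma NT_C3 (hg : Grad α) : NT i (insert g (bd i g)) = BB i g := by
  unfold NT BB
  have h : ((insert g (bd i g)).filter fun p => ds i p = 1) = bd i g := by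
    ext t
    rw [mem_filter, mem_insert]
    constructor
    · rintro ⟨rfl | h1, h2⟩
      · have := D.dg
        omega
      · exact h1
    · intro h1
      exact ⟨Or.inr h1, ds_of_mem_bd hg D.dg h1⟩
  rw [h]

lemma NT_G3 {v : α} (hv : ds i v ≠ 1) : NT i ({p3, g', v} : Finset α) = bd i p3 := by
  unfold NT
  have h : (({p3, g', v} : Finset α).filter fun p => ds i p = 1) = {p3} := by
    ext t
    simp only [mem_filter, mem_insert, mem_singleton]
    constructor
    · rintro ⟨rfl | rfl | rfl, h2⟩
      · rfl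
      · have := D.dg'
        omega
      · exact absurd h2 hv
    · rintro rfl
      exact ⟨Or.inl rfl, D.d3⟩
  rw [h, singleton_biUnion]

/-- the two objects -/
lemma twoObj {v : α} (hg : Grad α) (hv : v ∉ ({p1, p2, p3, g, g'} : Finset α)) (hv0 : 0 < ε v)
    (hv1 : ds i v ≠ 1) (hBB3 : (BB i g).card = 3) (hdisj : Disjoint (BB i g) (bd i p3))
    (ho : isO3 i ({p3, g', v} : Finset α)) : TwoObj i ε := by
  obtain ⟨n1, n2, n3, n4, n5, n6⟩ := D.nes
  have hv' := hv
  simp only [mem_insert, mem_singleton, not_or] at hv'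
  refine ⟨insert g (bd i g), {p3, g', v}, Or.inl ⟨g, D.gU, hBB3, rfl⟩, ho, ?_, ?_, ?_⟩
  · rw [D.bg, Finset.disjoint_left]
    intro t ht ht'
    simp only [mem_insert, mem_singleton] at ht ht'
    rcases ht with rfl | rfl | rfl <;> rcases ht' with h | h | h
    · exact n5 h.symm
    · exact D.ng h
    · exact hv'.2.2.2.1 h.symm
    · exact D.n13 h
    · exact n2 h
    · exact hv'.1 h.symm
    · exact D.n23 h
    · exact n4 h
    · exact hv'.2.1 h.symm
  · rw [D.NT_C3 hg, D.NT_G3 hv1]
    exact hdisj
  · rw [D.eq_ind6 hv hv0]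
    congr 1
    rw [D.bg]
    ext t
    simp only [mem_insert, mem_singleton, mem_union]
    tauto

/-- an element of level `i` over all three elements -/
lemma no_ttt (hB : PB α i) (hF : m.FullX ∅)
    (hA : ∀ s, ds i s = 1 → 0 < ε s → s = p1 ∨ s = p2 ∨ s = p3) {y : α} (hy : corank y = i)
    (h0 : ∀ t, corank t = i → t ≠ y → ε t = 0) (h1 : y ∈ bd i p1) (h2 : y ∈ bd i p2)
    (h3 : y ∈ bd i p3) (hyY : y ∉ Yd i ε) : False := by
  have hg := hB.hg
  have hε := D.cf.good
  have q1 : p1 ∈ bd i g := by rw [D.bg]; simp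
  have q2 : p2 ∈ bd i g := by rw [D.bg]; simp
  have s1 := side_of_mem_bd hg D.dg q1
  have s2 := side_of_mem_bd hg D.dg q2
  have c1 : corank p1 ≠ i := ds_pos (by rw [D.d1]; omega)
  have c2 : corank p2 ≠ i := ds_pos (by rw [D.d2]; omega)
  have c3 : corank p3 ≠ i := ds_pos (by rw [D.d3]; omega)
  have e1 := D.e1
  have e2 := D.e2
  have e3 := D.e3
  -- `p3` is on the other side
  have hopp : (corank p1 < i ∧ i < corank p3) ∨ (i < corank p1 ∧ corank p3 < i) := by
    by_contra h
    rcases hB.dy y p1 p2 p3 (mem_bd.1 h1) (mem_bd.1 h2) (mem_bd.1 h3) hy (by omega) with h | h | h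
    · exact D.n12 h
    · exact D.n13 h
    · exact D.n23 h
  -- an element `p` of the side of `p1` and `p3` do not have the same neighbours
  have key : ∀ p, 0 < ε p → y ∈ bd i p → (bd i p3).card = 2 → bd i p = bd i p3 →
      ((corank p < i ∧ i < corank p3) ∨ (i < corank p ∧ corank p3 < i)) → False := by
    intro p hp0 hyp hc he hs
    obtain ⟨a, ha, hne⟩ : ∃ a ∈ bd i p3, a ≠ y := by
      by_contra hcon
      push Not at hcon
      have : bd i p3 ⊆ {y} := fun t ht => mem_singleton.2 (hcon t ht)
      have := card_le_card this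
      rw [card_singleton] at this
      omega
    have hai := bd_lev hg D.d3 ha
    have ha0 := h0 a hai hne
    have := same_side hg hε hai (mem_bd.1 (by rw [he]; exact ha)) (mem_bd.1 ha)
      (by rw [ha0]; exact hp0) (by rw [ha0]; exact e3)
    omega
  have hc3 : (bd i p3).card ≠ 2 := by
    intro hc
    obtain ⟨p', k1, k2, k3, k4⟩ := m.partner_of hg hF D.d3 hc
    have hyp' : y ∈ bd i p' := by rw [k2]; exact h3
    rcases hB.dy y p1 p2 p' (mem_bd.1 h1) (mem_bd.1 h2) (mem_bd.1 hyp') hy (by omega)
      with h | h | h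
    · exact D.n12 h
    · subst h
      exact key p1 e1 h1 hc k2 (by omega)
    · subst h
      exact key p2 e2 h2 hc k2 (by omega)
  have hd3 := hB.deg p3
  have hp3 : 0 < (bd i p3).card := card_pos.2 ⟨y, h3⟩
  have hc3' : (bd i p3).card = 1 := by omega
  -- `p1` or `p2` is single
  have hc12 : (bd i p1).card = 1 ∨ (bd i p2).card = 1 := by
    by_contra hcon
    push Not at hcon
    have hd1 := hB.deg p1
    have hd2 := hB.deg p2
    have hp1 : 0 < (bd i p1).card := card_pos.2 ⟨y, h1⟩
    have hp2 : 0 < (bd i p2).card := card_pos.2 ⟨y, h2⟩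
    have hc1 : (bd i p1).card = 2 := by omega
    have hc2 : (bd i p2).card = 2 := by omega
    obtain ⟨r1, k1, k2, k3, k4⟩ := m.partner_of hg hF D.d1 hc1
    obtain ⟨r2, l1, l2, l3, l4⟩ := m.partner_of hg hF D.d2 hc2
    rcases hB.dy y r1 r2 p3 (mem_bd.1 (by rw [k2]; exact h1)) (mem_bd.1 (by rw [l2]; exact h2))
      (mem_bd.1 h3) hy (by omega) with h | h | h
    · exact m.partner_ne D.n12 k4 l4 h
    · rw [h] at k2
      rw [k2] at hc3'
      omega
    · rw [h] at l2
      rw [l2] at hc3'
      omega
  have hNA := D.NA_eq hA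
  rw [D.BB_eq] at hNA
  have hN3 : 3 ≤ (NA i ε).card := D.cf.NA3 hB
  have sing : ∀ p : α, y ∈ bd i p → (bd i p).card = 1 → bd i p = {y} := by
    intro p hp hc
    obtain ⟨t, ht⟩ := card_eq_one.1 hc
    rw [ht, mem_singleton] at hp
    rw [ht, hp]
  have hd1 := hB.deg p1
  have hd2 := hB.deg p2
  rcases hc12 with h | h
  · have : NA i ε ⊆ bd i p2 := by
      rw [hNA, sing p1 h1 h, sing p3 h3 hc3']
      intro t ht
      simp only [mem_union, mem_singleton] at ht
      rcases ht with (rfl | ht) | rfl
      · exact h2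
      · exact ht
      · exact h2
    have := card_le_card this
    omega
  · have : NA i ε ⊆ bd i p1 := by
      rw [hNA, sing p2 h2 h, sing p3 h3 hc3']
      intro t ht
      simp only [mem_union, mem_singleton] at ht
      rcases ht with (ht | rfl) | rfl
      · exact ht
      · exact h1
      · exact h1
    have := card_le_card this
    omega

/-- **case (ii)**: the second element at distance two has one nearer neighbour -/
lemma case_ii (hB : PB α i) (hF : m.FullX ∅)
    (hA : ∀ s, ds i s = 1 → 0 < ε s → s = p1 ∨ s = p2 ∨ s = p3)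
    (hBx : ∀ s, ds i s = 2 → 0 < ε s → s = g ∨ s = g') (hb : bd i g' = {p3}) :
    HasAD i ε ∨ (∃ p q, Swp i ε p q) ∨ TwoObj i ε ∨ VPC i ε := by
  have hg := hB.hg
  have hε := D.cf.good
  have hNA := D.NA_eq hA
  have hY : (Yd i ε).card ≤ (NA i ε).card := card_le_card (Yd_sub_NA hg)
  have hP3 := hB.P3 g D.gU
  have hd3 := hB.deg p3
  have hls := D.cf.ls
  obtain ⟨n1, n2, n3, n4, n5, n6⟩ := D.nes
  have e1 := D.e1
  have e2 := D.e2
  have e3 := D.e3
  have eg := D.eg
  have eg' := D.eg'
  have p3g : p3 ∉ bd i g := by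
    rw [D.bg]
    simp only [mem_insert, mem_singleton, not_or]
    exact ⟨D.n13.symm, D.n23.symm⟩
  have p1g' : p1 ∉ bd i g' := by
    rw [hb, mem_singleton]
    exact D.n13
  have p2g' : p2 ∉ bd i g' := by
    rw [hb, mem_singleton]
    exact D.n23
  have hne3 : (bd i p3).Nonempty := bd_nonempty hB (by rw [D.d3]; omega)
  -- excited elements over `p3`
  have hw : ∀ w, fr i p3 w → w ≠ g' → ε w = 0 := by
    intro w hw hne
    by_contra h0
    have d : ds i w = 2 := by rw [fr_ds hg hw, D.d3]
    rcases hBx w d (by omega) with rfl | rfl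
    · exact p3g (mem_bd.2 hw)
    · exact hne rfl
  by_cases hv : ∃ v, 3 ≤ ds i v ∧ 0 < ε v
  · obtain ⟨v, hv3, hv0⟩ := hv
    have hvT : v ∉ ({p1, p2, p3, g, g'} : Finset α) := D.notT (by omega) (by omega)
    obtain ⟨o1, o2, o3, o4, o5, o6, o7⟩ := D.ones hvT hv0
    have hlev : ∀ y, corank y = i → ε y = 0 := by
      intro y hy
      have d : ds i y = 0 := ds_eq_zero.2 hy
      exact o7 y (D.notT (by omega) (by omega)) (ds_ne (i := i) (by omega))
    have hq : ∀ q, ds i q = 2 → ε q ≤ 1 := by
      intro q hq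
      by_contra h0
      rcases hBx q hq (by omega) with rfl | rfl <;> omega
    have h5 := D.five (D.fo3 hB hlev hq)
    have hc : (NA i ε).card ≤ (BB i g).card + (bd i p3).card := by
      rw [hNA]
      exact card_union_le _ _
    have hBB3 : (BB i g).card = 3 := by omega
    have hd32 : (bd i p3).card = 2 := by omega
    have hdisj : Disjoint (BB i g) (bd i p3) := by
      rw [← card_union_eq_card_add_card, ← hNA]
      omega
    have hbv : bd i v ⊆ {g, g'} := by
      intro s hs
      have d := fr_ds hg (mem_bd.1 hs)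
      have hs0 := closure hg hB.hl hε (mem_bd.1 hs) (ds_pos (by omega)) hv0
      by_cases h2 : ds i s = 2
      · rcases hBx s h2 hs0 with rfl | rfl <;> simp
      · have := o7 s (D.notT (by omega) h2) (ds_ne (i := i) (by omega))
        omega
    have hdv : ds i v = 3 := by
      obtain ⟨s, hs⟩ := bd_nonempty hB (i := i) (q := v) (by omega)
      have d := fr_ds hg (mem_bd.1 hs)
      have h2 := hbv hs
      rw [mem_insert, mem_singleton] at h2
      have := D.dg
      have := D.dg'
      rcases h2 with rfl | rfl <;> omega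
    rcases bd_of_sub_pair hB (by omega) hbv with hv1 | hv1 | hv1
    · right; left
      refine ⟨p3, g', D.swp hB hA hb hd32 hw ?_ ?_ ?_⟩
      · intro t ht
        have d : ds i t = 3 := by rw [fr_ds hg ht, D.dg']
        by_contra h0
        have htv : t = v := by
          by_contra h1
          exact h0 (o7 t (D.notT (by omega) (by omega)) h1)
        have : g' ∈ bd i v := mem_bd.2 (by rw [← htv]; exact ht)
        rw [hv1, mem_singleton] at this
        exact D.ng this.symm
      · obtain ⟨y, hy⟩ := hne3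
        exact ⟨y, hy, by rw [hlev y (bd_lev hg D.d3 hy)]; exact e3⟩
      · intro y hy _
        have h1 : y ∉ BB i g := fun h => (Finset.disjoint_left.1 hdisj) h hy
        rw [D.BB_eq, mem_union, not_or] at h1
        exact h1
    · right; right; left
      apply D.twoObj hg hvT hv0 (by omega) hBB3 hdisj
      exact Or.inr (Or.inl ⟨p3, g', v, D.d3, hd32, D.dg', hb, hdv, hv1, rfl⟩)
    · right; right; right
      refine ⟨v, g', g, p3, hdv, by rw [hv1, pair_comm], hb, hd32, D.gU, hBB3, hdisj.symm, ?_⟩
      rw [D.eq_ind6 hvT hv0]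
      congr 1
      rw [D.bg]
      ext t
      simp only [mem_insert, mem_singleton, mem_union]
      tauto
  · push Not at hv
    have hv' : ∀ v, 3 ≤ ds i v → ε v = 0 := fun v h => by
      have := hv v h
      omega
    have ht : ∀ t, fr i g' t → ε t = 0 := by
      intro t ht
      exact hv' t (by rw [fr_ds hg ht, D.dg'])
    by_cases hC : Disjoint (BB i g) (bd i p3) ∧ (bd i p3).card = 2
    · right; left
      refine ⟨p3, g', D.swp hB hA hb hC.2 hw ht ?_ ?_⟩
      · obtain ⟨a, b, hab, he⟩ := card_eq_two.1 hC.2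
        have ha : a ∈ bd i p3 := by rw [he]; simp
        have hb' : b ∈ bd i p3 := by rw [he]; simp
        have ea : ds i a = 0 := ds_eq_zero.2 (bd_lev hg D.d3 ha)
        have eb : ds i b = 0 := ds_eq_zero.2 (bd_lev hg D.d3 hb')
        have := D.sum7 (s := a) (s' := b) (D.notT (by omega) (by omega))
          (D.notT (by omega) (by omega)) hab
        rcases Nat.lt_or_ge (ε a) (ε p3) with h | h
        · exact ⟨a, ha, h⟩
        · exact ⟨b, hb', by omega⟩
      · intro y hy _
        have h1 : y ∉ BB i g := fun h => (Finset.disjoint_left.1 hC.1) h hy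
        rw [D.BB_eq, mem_union, not_or] at h1
        exact h1
    · have hcard := card_union_add_card_inter (BB i g) (bd i p3)
      rw [← hNA] at hcard
      have hNA4 : (NA i ε).card ≤ 4 := by
        by_cases hd : Disjoint (BB i g) (bd i p3)
        · have : (bd i p3).card ≠ 2 := fun h => hC ⟨hd, h⟩
          omega
        · have : 0 < (BB i g ∩ bd i p3).card := by
            rw [card_pos]
            rw [Finset.disjoint_iff_inter_eq_empty] at hd
            exact nonempty_iff_ne_empty.2 hd
          omega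
      have hq1 : ∀ q, ds i q = 2 → q ≠ g → q ≠ g' → ε q = 0 := by
        intro q hq hne hne'
        by_contra h0
        rcases hBx q hq (by omega) with h | h
        · exact hne h
        · exact hne' h
      by_cases hy : ∃ y, corank y = i ∧ 0 < ε y
      · obtain ⟨y, hyi, hy0⟩ := hy
        have dy : ds i y = 0 := ds_eq_zero.2 hyi
        have hyT : y ∉ ({p1, p2, p3, g, g'} : Finset α) := D.notT (by omega) (by omega)
        obtain ⟨o1, o2, o3, o4, o5, o6, o7⟩ := D.ones hyT hy0
        have hlev : ∀ t, corank t = i → t ≠ y → ε t = 0 := by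
          intro t ht hne
          have d : ds i t = 0 := ds_eq_zero.2 ht
          exact o7 t (D.notT (by omega) (by omega)) hne
        have hq : ∀ q, ds i q = 2 → ε q ≤ 1 := by
          intro q hq
          by_contra h0
          rcases hBx q hq (by omega) with rfl | rfl <;> omega
        have hfo : ∀ p, ds i p = 1 → ε p = 1 → y ∉ bd i p → p ∈ Fo i ε := by
          intro p hp hp1 hyp
          apply fo_near hp
          · intro t ht
            rw [hlev t (bd_lev hg hp ht) (fun h => hyp (h ▸ ht))]
            omega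
          · intro q hq'
            have := hq q (by rw [fr_ds hg hq', hp])
            omega
        have hyY : y ∉ Yd i ε := by
          intro h
          obtain ⟨p, h1, h2, h3, h4⟩ := exists_dom hg h
          rcases hA p h1 h2 with rfl | rfl | rfl <;> omega
        have hYe : y ∈ NA i ε → (Yd i ε).card + 1 ≤ (NA i ε).card := by
          intro h
          have h1 : Yd i ε ⊆ (NA i ε).erase y := fun t ht =>
            mem_erase.2 ⟨fun hc => hyY (hc ▸ ht), Yd_sub_NA hg ht⟩
          have h2 := card_le_card h1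
          rw [card_erase_of_mem h] at h2
          have := card_pos.2 ⟨y, h⟩
          omega
        have hyNA : y ∈ NA i ε ↔ (y ∈ bd i p1 ∨ y ∈ bd i p2) ∨ y ∈ bd i p3 := by
          rw [hNA, D.BB_eq, mem_union, mem_union]
        have hsw : (y ∈ bd i p1 ∨ y ∈ bd i p2) → y ∈ bd i p3 → 1 ≤ (Fo i ε).card →
            ∃ p q, Swp i ε p q := by
          intro h12 h3 hF1
          have hYe' := hYe (hyNA.2 (Or.inl h12))
          have hin : y ∈ BB i g ∩ bd i p3 := by
            rw [mem_inter, D.BB_eq, mem_union]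
            exact ⟨h12, h3⟩
          have hin0 := card_pos.2 ⟨y, hin⟩
          obtain ⟨z, hz⟩ := card_eq_one.1 (by omega : (BB i g ∩ bd i p3).card = 1)
          have hzy : z = y := by
            rw [hz, mem_singleton] at hin
            exact hin.symm
          rw [hzy] at hz
          have hout : ∀ t ∈ bd i p3, t ≠ y → t ∉ BB i g := by
            intro t ht hne h
            have : t ∈ BB i g ∩ bd i p3 := mem_inter.2 ⟨h, ht⟩
            rw [hz, mem_singleton] at this
            exact hne this
          refine ⟨p3, g', D.swp hB hA hb (by omega) hw ht ?_ ?_⟩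
          · by_contra hcon
            push Not at hcon
            have h1 : bd i p3 ⊆ {y} := by
              intro t ht
              rw [mem_singleton]
              by_contra hne
              have h2 := hcon t ht
              rw [hlev t (bd_lev hg D.d3 ht) hne] at h2
              omega
            have := card_le_card h1
            rw [card_singleton] at this
            omega
          · intro t ht hlt
            have hne : t ≠ y := by
              rintro rfl
              omega
            have h1 := hout t ht hne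
            rw [D.BB_eq, mem_union, not_or] at h1
            exact h1
        by_cases y1 : y ∈ bd i p1 <;> by_cases y2 : y ∈ bd i p2 <;> by_cases y3 : y ∈ bd i p3
        · exact absurd hyY (fun _ => D.no_ttt hB hF hA hyi hlev y1 y2 y3 hyY)
        · left
          exact D.hasAD hyi y1 y2 y3 hB hA hlev ⟨o1, o2⟩ (fun q hq' _ => hq q hq') hv'
            (Or.inr ⟨o6, o4⟩)
        · right; left
          exact hsw (Or.inl y1) y3 (card_pos.2 ⟨p2, hfo p2 D.d2 o2 y2⟩)
        · exfalso
          have h1 := D.card_two D.n23 (hfo p2 D.d2 o2 y2) (hfo p3 D.d3 o3 y3)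
          have h2 := hYe (hyNA.2 (Or.inl (Or.inl y1)))
          omega
        · right; left
          exact hsw (Or.inr y2) y3 (card_pos.2 ⟨p1, hfo p1 D.d1 o1 y1⟩)
        · exfalso
          have h1 := D.card_two D.n13 (hfo p1 D.d1 o1 y1) (hfo p3 D.d3 o3 y3)
          have h2 := hYe (hyNA.2 (Or.inl (Or.inr y2)))
          omega
        · exfalso
          have h1 := D.card_two D.n12 (hfo p1 D.d1 o1 y1) (hfo p2 D.d2 o2 y2)
          have h2 := hYe (hyNA.2 (Or.inr y3))
          omega
        · exfalso
          have h1 := D.card_three D.n12 D.n13 D.n23 (hfo p1 D.d1 o1 y1) (hfo p2 D.d2 o2 y2)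
            (hfo p3 D.d3 o3 y3)
          omega
      · push Not at hy
        have hlev : ∀ t, corank t = i → ε t = 0 := fun t ht => by
          have := hy t ht
          omega
        have h5 := D.sum5
        by_cases hg2 : 2 ≤ ε g
        · left
          have hgF : g ∈ Fo i ε := by
            rw [mem_Fo]
            refine ⟨ds_pos (by rw [D.dg]; omega), ?_, ?_⟩
            · rintro ⟨v, h1, h2⟩
              rw [hv' v (by rw [fr_ds hg h1, D.dg])] at h2
              omega
            · rintro ⟨q, h1, h2⟩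
              have h3 : q ∈ bd i g := mem_bd.2 h1
              rw [D.bg, mem_insert, mem_singleton] at h3
              rcases h3 with rfl | rfl <;> omega
          have hpF : p3 ∈ Fo i ε := by
            apply fo_near D.d3
            · intro t ht
              rw [hlev t (bd_lev hg D.d3 ht)]
              exact e3
            · intro q hq'
              by_cases hqg : q = g'
              · rw [hqg]
                omega
              · rw [hw q hq' hqg]
                omega
          have h2 := D.card_two n5 hpF hgF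
          have hBB3 : 3 ≤ (BB i g).card := by
            by_contra hcon
            apply hC
            refine ⟨?_, by omega⟩
            rw [Finset.disjoint_iff_inter_eq_empty, ← Finset.card_eq_zero]
            omega
          obtain ⟨a, y0, b, ha, hb', hne1, hne2, hne3'⟩ := diamond_shape hB D.dg D.bg D.n12 hBB3
          have h1 : y0 ∈ bd i p1 := by rw [ha]; simp
          have h2' : y0 ∈ bd i p2 := by rw [hb']; simp
          have hy0i := bd_lev hg D.d1 h1
          have h3 : y0 ∉ bd i p3 := by
            intro h3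
            have q1 : p1 ∈ bd i g := by rw [D.bg]; simp
            have q2 : p2 ∈ bd i g := by rw [D.bg]; simp
            have s1 := side_of_mem_bd hg D.dg q1
            have s2 := side_of_mem_bd hg D.dg q2
            have s3 := same_side hg hε hy0i (mem_bd.1 h1) (mem_bd.1 h3)
              (by rw [hlev y0 hy0i]; exact e1) (by rw [hlev y0 hy0i]; exact e3)
            rcases hB.dy y0 p1 p2 p3 (mem_bd.1 h1) (mem_bd.1 h2') (mem_bd.1 h3) hy0i (by omega)
              with h | h | h
            · exact D.n12 h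
            · exact D.n13 h
            · exact D.n23 h
          refine D.hasAD hy0i h1 h2' h3 hB hA (fun t ht _ => hlev t ht) ⟨by omega, by omega⟩ ?_ hv'
            (Or.inl ⟨hlev y0 hy0i, by omega⟩)
          intro q hq hne
          by_cases hqg : q = g'
          · rw [hqg]
            omega
          · rw [hq1 q hq hne hqg]
            omega
        · exfalso
          have hf1 : p1 ∈ Fo i ε := by
            apply fo_near D.d1
            · intro t ht
              rw [hlev t (bd_lev hg D.d1 ht)]
              exact e1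
            · intro q hq'
              have dq : ds i q = 2 := by rw [fr_ds hg hq', D.d1]
              have hqg : q ≠ g' := by
                rintro rfl
                exact p1g' (mem_bd.2 hq')
              by_cases hqg' : q = g
              · rw [hqg']
                omega
              · rw [hq1 q dq hqg' hqg]
                omega
          have hf2 : p2 ∈ Fo i ε := by
            apply fo_near D.d2
            · intro t ht
              rw [hlev t (bd_lev hg D.d2 ht)]
              exact e2
            · intro q hq'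
              have dq : ds i q = 2 := by rw [fr_ds hg hq', D.d2]
              have hqg : q ≠ g' := by
                rintro rfl
                exact p2g' (mem_bd.2 hq')
              by_cases hqg' : q = g
              · rw [hqg']
                omega
              · rw [hq1 q dq hqg' hqg]
                omega
          by_cases hg2' : 2 ≤ ε g'
          · have hgF : g' ∈ Fo i ε := by
              rw [mem_Fo]
              refine ⟨ds_pos (by rw [D.dg']; omega), ?_, ?_⟩
              · rintro ⟨v, h1, h2⟩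
                rw [hv' v (by rw [fr_ds hg h1, D.dg'])] at h2
                omega
              · rintro ⟨q, h1, h2⟩
                have h3 : q ∈ bd i g' := mem_bd.2 h1
                rw [hb, mem_singleton] at h3
                rw [h3] at h2
                omega
            have := D.card_three D.n12 n2 n4 hf1 hf2 hgF
            omega
          · have hf3 : p3 ∈ Fo i ε := by
              apply fo_near D.d3
              · intro t ht
                rw [hlev t (bd_lev hg D.d3 ht)]
                exact e3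
              · intro q hq'
                by_cases hqg : q = g'
                · rw [hqg]
                  omega
                · rw [hw q hq' hqg]
                  omega
            have := D.card_three D.n12 D.n13 D.n23 hf1 hf2 hf3
            omega


/-- **case (i)**: both elements at distance two have two nearer neighbours -/
lemma case_i (hB : PB α i)
    (hA : ∀ s, ds i s = 1 → 0 < ε s → s = p1 ∨ s = p2 ∨ s = p3)
    (hBx : ∀ s, ds i s = 2 → 0 < ε s → s = g ∨ s = g') (hb : bd i g' = {p2, p3}) :
    HasAD i ε := by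
  have hg := hB.hg
  have hε := D.cf.good
  have hNA := D.NA_eq hA
  have hY : (Yd i ε).card ≤ (NA i ε).card := card_le_card (Yd_sub_NA hg)
  have hls := D.cf.ls
  obtain ⟨n1, n2, n3, n4, n5, n6⟩ := D.nes
  have e1 := D.e1
  have e2 := D.e2
  have e3 := D.e3
  have eg := D.eg
  have eg' := D.eg'
  -- the other point of view
  have D' : TriD m ε p3 p2 p1 g' g :=
    { cf := D.cf, n12 := D.n23.symm, n13 := D.n13.symm, n23 := D.n12.symm, ng := D.ng.symm,
      d1 := D.d3, d2 := D.d2, d3 := D.d1, dg := D.dg', dg' := D.dg, e1 := D.e3, e2 := D.e2,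
      e3 := D.e1, eg := D.eg', eg' := D.eg, bg := by rw [hb, pair_comm],
      f3 := by rw [D.bg]; simp }
  have hA' : ∀ s, ds i s = 1 → 0 < ε s → s = p3 ∨ s = p2 ∨ s = p1 := by
    intro s h1 h2
    rcases hA s h1 h2 with h | h | h
    · exact Or.inr (Or.inr h)
    · exact Or.inr (Or.inl h)
    · exact Or.inl h
  have hP3 := hB.P3 g D.gU
  have hP3' := hB.P3 g' D'.gU
  have hBB := D.BB_eq
  have hBB' := D'.BB_eq
  have hne2 : 0 < (bd i p2).card := card_pos.2 (bd_nonempty hB (by rw [D.d2]; omega))
  have p1g' : p1 ∉ bd i g' := by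
    rw [hb, mem_insert, mem_singleton, not_or]
    exact ⟨D.n12, D.n13⟩
  have p3g : p3 ∉ bd i g := by
    rw [D.bg, mem_insert, mem_singleton, not_or]
    exact ⟨D.n13.symm, D.n23.symm⟩
  -- the number of neighbours
  have hNA' : NA i ε = BB i g ∪ BB i g' := by
    rw [hNA, hBB, hBB']
    ext t
    simp only [mem_union]
    tauto
  have hcard := card_union_add_card_inter (BB i g) (BB i g')
  rw [← hNA'] at hcard
  have hint : (bd i p2).card ≤ (BB i g ∩ BB i g').card := by
    apply card_le_card
    intro t ht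
    rw [mem_inter, hBB, hBB', mem_union, mem_union]
    exact ⟨Or.inr ht, Or.inr ht⟩
  have hN4 : (NA i ε).card ≤ 4 ∧ ((NA i ε).card = 4 → (BB i g).card = 3 ∧ (BB i g').card = 3 ∧
      (bd i p3).card = 2) := by
    have a1 : (BB i g).card = 3 → (bd i p2).card = 2 := fun h =>
      hB.nb g D.gU h p2 (by rw [D.bg]; simp)
    have a2 : (BB i g').card = 3 → (bd i p2).card = 2 := fun h =>
      hB.nb g' D'.gU h p2 (by rw [hb]; simp)
    have a3 : (BB i g').card = 3 → (bd i p3).card = 2 := fun h =>
      hB.nb g' D'.gU h p3 (by rw [hb]; simp)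
    by_cases b1 : (BB i g).card = 3 <;> by_cases b2 : (BB i g').card = 3
    · have := a1 b1
      exact ⟨by omega, fun _ => ⟨b1, b2, a3 b2⟩⟩
    · have := a1 b1
      exact ⟨by omega, fun h => by omega⟩
    · have := a2 b2
      exact ⟨by omega, fun h => by omega⟩
    · exact ⟨by omega, fun h => by omega⟩
  -- the three elements have no common neighbour
  have q1 : p1 ∈ bd i g := by rw [D.bg]; simp
  have q2 : p2 ∈ bd i g := by rw [D.bg]; simp
  have q2' : p2 ∈ bd i g' := by rw [hb]; simp
  have q3 : p3 ∈ bd i g' := by rw [hb]; simp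
  have s1 := side_of_mem_bd hg D.dg q1
  have s2 := side_of_mem_bd hg D.dg q2
  have s2' := side_of_mem_bd hg D.dg' q2'
  have s3 := side_of_mem_bd hg D.dg' q3
  have c1 : corank p1 ≠ i := ds_pos (by rw [D.d1]; omega)
  have tri : ∀ y, corank y = i → y ∈ bd i p1 → y ∈ bd i p2 → y ∈ bd i p3 → False := by
    intro y hy h1 h2 h3
    rcases hB.dy y p1 p2 p3 (mem_bd.1 h1) (mem_bd.1 h2) (mem_bd.1 h3) hy (by omega) with h | h | h
    · exact D.n12 h
    · exact D.n13 h
    · exact D.n23 h
  have hq1 : ∀ q, ds i q = 2 → q ≠ g → q ≠ g' → ε q = 0 := by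
    intro q hq hne hne'
    by_contra h0
    rcases hBx q hq (by omega) with h | h
    · exact hne h
    · exact hne' h
  by_cases hv : ∃ v, 3 ≤ ds i v ∧ 0 < ε v
  · exfalso
    obtain ⟨v, hv3, hv0⟩ := hv
    have hvT : v ∉ ({p1, p2, p3, g, g'} : Finset α) := D.notT (by omega) (by omega)
    obtain ⟨o1, o2, o3, o4, o5, o6, o7⟩ := D.ones hvT hv0
    have hlev : ∀ y, corank y = i → ε y = 0 := by
      intro y hy
      have d : ds i y = 0 := ds_eq_zero.2 hy
      exact o7 y (D.notT (by omega) (by omega)) (ds_ne (i := i) (by omega))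
    have hq : ∀ q, ds i q = 2 → ε q ≤ 1 := by
      intro q hq
      by_contra h0
      rcases hBx q hq (by omega) with rfl | rfl <;> omega
    have h5 := D.five (D.fo3 hB hlev hq)
    omega
  push Not at hv
  have hv' : ∀ v, 3 ≤ ds i v → ε v = 0 := fun v h => by
    have := hv v h
    omega
  by_cases hy : ∃ y, corank y = i ∧ 0 < ε y
  · obtain ⟨y, hyi, hy0⟩ := hy
    have dy : ds i y = 0 := ds_eq_zero.2 hyi
    have hyT : y ∉ ({p1, p2, p3, g, g'} : Finset α) := D.notT (by omega) (by omega)
    obtain ⟨o1, o2, o3, o4, o5, o6, o7⟩ := D.ones hyT hy0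
    have hlev : ∀ t, corank t = i → t ≠ y → ε t = 0 := by
      intro t ht hne
      have d : ds i t = 0 := ds_eq_zero.2 ht
      exact o7 t (D.notT (by omega) (by omega)) hne
    have hq : ∀ q, ds i q = 2 → ε q ≤ 1 := by
      intro q hq
      by_contra h0
      rcases hBx q hq (by omega) with rfl | rfl <;> omega
    have hfo : ∀ p, ds i p = 1 → ε p = 1 → y ∉ bd i p → p ∈ Fo i ε := by
      intro p hp hp1 hyp
      apply fo_near hp
      · intro t ht
        rw [hlev t (bd_lev hg hp ht) (fun h => hyp (h ▸ ht))]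
        omega
      · intro q hq'
        have := hq q (by rw [fr_ds hg hq', hp])
        omega
    have hyY : y ∉ Yd i ε := by
      intro h
      obtain ⟨p, h1, h2, h3, h4⟩ := exists_dom hg h
      rcases hA p h1 h2 with rfl | rfl | rfl <;> omega
    have hYe : y ∈ NA i ε → (Yd i ε).card + 1 ≤ (NA i ε).card := by
      intro h
      have h1 : Yd i ε ⊆ (NA i ε).erase y := fun t ht =>
        mem_erase.2 ⟨fun hc => hyY (hc ▸ ht), Yd_sub_NA hg ht⟩
      have h2 := card_le_card h1
      rw [card_erase_of_mem h] at h2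
      have := card_pos.2 ⟨y, h⟩
      omega
    have hyNA : y ∈ NA i ε ↔ (y ∈ bd i p1 ∨ y ∈ bd i p2) ∨ y ∈ bd i p3 := by
      rw [hNA, hBB, mem_union, mem_union]
    by_cases y1 : y ∈ bd i p1 <;> by_cases y2 : y ∈ bd i p2 <;> by_cases y3 : y ∈ bd i p3
    · exact absurd hyY (fun _ => tri y hyi y1 y2 y3)
    · exact D.hasAD hyi y1 y2 y3 hB hA hlev ⟨o1, o2⟩ (fun q hq' _ => hq q hq') hv'
        (Or.inr ⟨o6, o4⟩)
    · exfalso
      have h1 := card_pos.2 ⟨p2, hfo p2 D.d2 o2 y2⟩
      have h2 := hYe (hyNA.2 (Or.inl (Or.inl y1)))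
      obtain ⟨a1, a2, a3⟩ := hN4.2 (by omega)
      -- `bd p3` and `BB g` have exactly one common element
      obtain ⟨a, y0, b, ha, hb', k1, k2, k3⟩ := diamond_shape hB D'.dg D'.bg D'.n12 (by omega)
      have hy03 : y0 ∈ bd i p3 := by rw [ha]; simp
      have hy02 : y0 ∈ bd i p2 := by rw [hb']; simp
      have hc := card_union_add_card_inter (BB i g) (bd i p3)
      rw [← hNA] at hc
      have h3 : ({y, y0} : Finset α) ⊆ BB i g ∩ bd i p3 := by
        intro t ht
        rw [mem_insert, mem_singleton] at ht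
        rw [mem_inter, hBB, mem_union]
        rcases ht with rfl | rfl
        · exact ⟨Or.inl y1, y3⟩
        · exact ⟨Or.inr hy02, hy03⟩
      have h4 := card_le_card h3
      rw [card_pair] at h4
      · omega
      · rintro rfl
        exact y2 hy02
    · exfalso
      have h1 := D.card_two D.n23 (hfo p2 D.d2 o2 y2) (hfo p3 D.d3 o3 y3)
      have h2 := hYe (hyNA.2 (Or.inl (Or.inl y1)))
      omega
    · exact D'.hasAD hyi y3 y2 y1 hB hA' hlev ⟨o3, o2⟩ (fun q hq' _ => hq q hq') hv'
        (Or.inr ⟨o6, o5⟩)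
    · exfalso
      have h1 := D.card_two D.n13 (hfo p1 D.d1 o1 y1) (hfo p3 D.d3 o3 y3)
      have h2 := hYe (hyNA.2 (Or.inl (Or.inr y2)))
      omega
    · exfalso
      have h1 := D.card_two D.n12 (hfo p1 D.d1 o1 y1) (hfo p2 D.d2 o2 y2)
      have h2 := hYe (hyNA.2 (Or.inr y3))
      omega
    · exfalso
      have h1 := D.card_three D.n12 D.n13 D.n23 (hfo p1 D.d1 o1 y1) (hfo p2 D.d2 o2 y2)
        (hfo p3 D.d3 o3 y3)
      omega
  · push Not at hy
    have hlev : ∀ t, corank t = i → ε t = 0 := fun t ht => by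
      have := hy t ht
      omega
    have h5 := D.sum5
    -- the element `h` of distance two has energy two
    have main : ∀ {x1 x2 x3 h h' : α}, TriD m ε x1 x2 x3 h h' →
        (∀ s, ds i s = 1 → 0 < ε s → s = x1 ∨ s = x2 ∨ s = x3) →
        (∀ q, ds i q = 2 → q ≠ h → q ≠ h' → ε q = 0) → x3 ∉ bd i h →
        (∀ y, corank y = i → y ∈ bd i x1 → y ∈ bd i x2 → y ∈ bd i x3 → False) →
        ((NA i ε).card = 4 → (BB i h).card = 3) → 2 ≤ ε h → HasAD i ε := by
      intro x1 x2 x3 h h' E hA2 hq2 hx3 tri2 h43 hh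
      have k5 := E.sum5
      have k1 := E.e1
      have k2 := E.e2
      have k3 := E.e3
      have k4 := E.eg
      have k6 := E.eg'
      obtain ⟨m1, m2, m3, m4, m5, m6⟩ := E.nes
      have hgF : h ∈ Fo i ε := by
        rw [mem_Fo]
        refine ⟨ds_pos (by rw [E.dg]; omega), ?_, ?_⟩
        · rintro ⟨v, h1, h2⟩
          rw [hv' v (by rw [fr_ds hg h1, E.dg])] at h2
          omega
        · rintro ⟨q, h1, h2⟩
          have h3 : q ∈ bd i h := mem_bd.2 h1
          rw [E.bg, mem_insert, mem_singleton] at h3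
          rcases h3 with rfl | rfl <;> omega
      have hpF : x3 ∈ Fo i ε := by
        apply fo_near E.d3
        · intro t ht
          rw [hlev t (bd_lev hg E.d3 ht)]
          exact k3
        · intro q hq'
          have hne : q ≠ h := by
            rintro rfl
            exact hx3 (mem_bd.2 hq')
          by_cases hqg : q = h'
          · rw [hqg]
            omega
          · rw [hq2 q (by rw [fr_ds hg hq', E.d3]) hne hqg]
            omega
      have h2 := E.card_two m5 hpF hgF
      have hBB3 := h43 (by omega)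
      obtain ⟨a, y0, b, ha, hb', hne1, hne2, hne3'⟩ := diamond_shape hB E.dg E.bg E.n12 (by omega)
      have h1 : y0 ∈ bd i x1 := by rw [ha]; simp
      have h2' : y0 ∈ bd i x2 := by rw [hb']; simp
      have hy0i := bd_lev hg E.d1 h1
      refine E.hasAD hy0i h1 h2' (fun h3 => tri2 y0 hy0i h1 h2' h3) hB hA2
        (fun t ht _ => hlev t ht) ⟨by omega, by omega⟩ ?_ hv' (Or.inl ⟨hlev y0 hy0i, by omega⟩)
      intro q hq hne
      by_cases hqg : q = h'
      · rw [hqg]
        omega
      · rw [hq2 q hq hne hqg]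
        omega
    by_cases hg2 : 2 ≤ ε g
    · exact main D hA hq1 p3g tri (fun h => (hN4.2 h).1) hg2
    by_cases hg2' : 2 ≤ ε g'
    · exact main D' hA' (fun q h1 h2 h3 => hq1 q h1 h3 h2) p1g'
        (fun y hy h1 h2 h3 => tri y hy h3 h2 h1) (fun h => (hN4.2 h).2.1) hg2'
    exfalso
    have hq : ∀ q, ds i q = 2 → ε q ≤ 1 := by
      intro q hq
      by_contra h0
      rcases hBx q hq (by omega) with rfl | rfl <;> omega
    have h5 := D.five (D.fo3 hB hlev hq)
    omega

/-- three excited elements at distance one and three at distance two -/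
lemma case_33 (hB : PB α i) {t : α} (ht2 : ds i t = 2) (ht0 : 0 < ε t) (htg : t ≠ g)
    (htg' : t ≠ g') : HasAD i ε ∨ (∃ p q, Swp i ε p q) ∨ TwoObj i ε ∨ VPC i ε := by
  have hg := hB.hg
  have hε := D.cf.good
  have e3 := D.e3
  obtain ⟨n1, n2, n3, n4, n5, n6⟩ := D.nes
  have d1 := D.d1
  have d2 := D.d2
  have d3 := D.d3
  have htT : t ∉ ({p1, p2, p3, g, g'} : Finset α) := by
    simp only [mem_insert, mem_singleton]
    rintro (rfl | rfl | rfl | h | h)
    · omega
    · omega
    · omega
    · exact htg h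
    · exact htg' h
  obtain ⟨o1, o2, o3, o4, o5, o6, o7⟩ := D.ones htT ht0
  have hlev : ∀ y, corank y = i → ε y = 0 := by
    intro y hy
    have d : ds i y = 0 := ds_eq_zero.2 hy
    exact o7 y (D.notT (by omega) (by omega)) (ds_ne (i := i) (by omega))
  have hBx : ∀ s, ds i s = 2 → 0 < ε s → s = g ∨ s = g' ∨ s = t := by
    intro s hs hs0
    by_contra h
    push Not at h
    have : s ∉ ({p1, p2, p3, g, g'} : Finset α) := by
      simp only [mem_insert, mem_singleton]
      rintro (rfl | rfl | rfl | h' | h')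
      · omega
      · omega
      · omega
      · exact h.1 h'
      · exact h.2.1 h'
    have := o7 s this h.2.2
    omega
  have hA : ∀ s, ds i s = 1 → 0 < ε s → s = p1 ∨ s = p2 ∨ s = p3 := by
    intro s hs hs0
    by_contra h
    push Not at h
    have dg := D.dg
    have dg' := D.dg'
    have : s ∉ ({p1, p2, p3, g, g'} : Finset α) := by
      simp only [mem_insert, mem_singleton]
      rintro (h' | h' | h' | rfl | rfl)
      · exact h.1 h'
      · exact h.2.1 h'
      · exact h.2.2 h'
      · omega
      · omega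
    have := o7 s this (ds_ne (i := i) (by omega))
    omega
  have hq : ∀ q, ds i q = 2 → ε q ≤ 1 := by
    intro q hq
    by_contra h0
    rcases hBx q hq (by omega) with rfl | rfl | rfl <;> omega
  have h5 := D.five (D.fo3 hB hlev hq)
  have hNA := D.NA_eq hA
  have hY : (Yd i ε).card ≤ (NA i ε).card := card_le_card (Yd_sub_NA hg)
  have hP3 := hB.P3 g D.gU
  have hd3 := hB.deg p3
  have hc : (NA i ε).card ≤ (BB i g).card + (bd i p3).card := by
    rw [hNA]
    exact card_union_le _ _
  have hBB3 : (BB i g).card = 3 := by omega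
  have hd32 : (bd i p3).card = 2 := by omega
  have hdisj : Disjoint (BB i g) (bd i p3) := by
    rw [← card_union_eq_card_add_card, ← hNA]
    omega
  -- elements over `p3` are single
  have hsing : ∀ q, ds i q = 2 → 0 < ε q → p3 ∈ bd i q → bd i q = {p3} := by
    intro q hq2 hq0 hpq
    by_contra hne
    obtain ⟨p, hp, hpp⟩ : ∃ p ∈ bd i q, p ≠ p3 := by
      by_contra hcon
      push Not at hcon
      apply hne
      ext s
      rw [mem_singleton]
      exact ⟨fun h => hcon s h, fun h => h ▸ hpq⟩
    have hpA := bd_sub_Ax hB hε hq2 hq0 hp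
    rw [mem_Ax] at hpA
    have hpg : p ∈ bd i g := by
      rw [D.bg, mem_insert, mem_singleton]
      rcases hA p hpA.1 hpA.2 with h | h | h
      · exact Or.inl h
      · exact Or.inr h
      · exact absurd h hpp
    have hp2 := hB.nb g D.gU hBB3 p hpg
    have hqd := hB.deg q
    have hqU : q ∈ U2 α i := by
      rw [mem_U2]
      refine ⟨hq2, ?_⟩
      have h1 : ({p, p3} : Finset α) ⊆ bd i q := by
        intro s hs
        rw [mem_insert, mem_singleton] at hs
        rcases hs with rfl | rfl
        · exact hp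
        · exact hpq
      have h2 := card_le_card h1
      rw [card_pair hpp] at h2
      omega
    have h3 := hB.P3 q hqU
    have h4 : bd i p ∪ bd i p3 ⊆ BB i q := by
      intro s hs
      unfold BB
      rw [mem_biUnion]
      rw [mem_union] at hs
      rcases hs with hs | hs
      · exact ⟨p, hp, hs⟩
      · exact ⟨p3, hpq, hs⟩
    have h5 := card_le_card h4
    have h6 : Disjoint (bd i p) (bd i p3) := by
      rw [Finset.disjoint_left]
      intro s hs
      apply Finset.disjoint_left.1 hdisj
      unfold BB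
      rw [mem_biUnion]
      exact ⟨p, hpg, hs⟩
    rw [card_union_of_disjoint h6] at h5
    omega
  have hb := hsing g' D.dg' D.eg' D.f3
  have h7 : ∀ t', fr i g' t' → ε t' = 0 := by
    intro t' ht'
    have d : ds i t' = 3 := by rw [fr_ds hg ht', D.dg']
    exact o7 t' (D.notT (by omega) (by omega)) (ds_ne (i := i) (by omega))
  by_cases h3t : p3 ∈ bd i t
  · right; right; left
    have hbt := hsing t ht2 ht0 h3t
    apply D.twoObj hg htT ht0 (by omega) hBB3 hdisj
    exact Or.inr (Or.inr ⟨p3, g', t, D.d3, hd32, D.dg', hb, ht2, hbt, htg'.symm, rfl⟩)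
  · right; left
    refine ⟨p3, g', D.swp hB hA hb hd32 ?_ h7 ?_ ?_⟩
    · intro w hw hne
      by_contra h0
      have d : ds i w = 2 := by rw [fr_ds hg hw, D.d3]
      rcases hBx w d (by omega) with rfl | rfl | rfl
      · have : p3 ∈ bd i w := mem_bd.2 hw
        rw [D.bg, mem_insert, mem_singleton] at this
        rcases this with h | h
        · exact D.n13 h.symm
        · exact D.n23 h.symm
      · exact hne rfl
      · exact h3t (mem_bd.2 hw)
    · obtain ⟨y, hy⟩ := card_pos.1 (by omega : 0 < (bd i p3).card)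
      exact ⟨y, hy, by rw [hlev y (bd_lev hg D.d3 hy)]; exact e3⟩
    · intro y hy _
      have h1 : y ∉ BB i g := fun h => (Finset.disjoint_left.1 hdisj) h hy
      rw [D.BB_eq, mem_union, not_or] at h1
      exact h1

/-- four excited elements at distance one -/
lemma case_4 (hB : PB α i) (hF : m.FullX ∅) {t : α} (ht1 : ds i t = 1) (ht0 : 0 < ε t)
    (h1 : t ≠ p1) (h2 : t ≠ p2) (h3 : t ≠ p3) : TwoObj i ε := by
  have hg := hB.hg
  have hε := D.cf.good
  obtain ⟨n1, n2, n3, n4, n5, n6⟩ := D.nes
  have dg := D.dg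
  have dg' := D.dg'
  have htT : t ∉ ({p1, p2, p3, g, g'} : Finset α) := by
    simp only [mem_insert, mem_singleton]
    rintro (h | h | h | rfl | rfl)
    · exact h1 h
    · exact h2 h
    · exact h3 h
    · omega
    · omega
  obtain ⟨o1, o2, o3, o4, o5, o6, o7⟩ := D.ones htT ht0
  have hlev : ∀ y, corank y = i → ε y = 0 := by
    intro y hy
    have d : ds i y = 0 := ds_eq_zero.2 hy
    exact o7 y (D.notT (by omega) (by omega)) (ds_ne (i := i) (by omega))
  have d1 := D.d1
  have d2 := D.d2
  have d3 := D.d3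
  have hBx : ∀ s, ds i s = 2 → 0 < ε s → s = g ∨ s = g' := by
    intro s hs hs0
    by_contra h
    push Not at h
    have : s ∉ ({p1, p2, p3, g, g'} : Finset α) := by
      simp only [mem_insert, mem_singleton]
      rintro (rfl | rfl | rfl | h' | h')
      · omega
      · omega
      · omega
      · exact h.1 h'
      · exact h.2 h'
    have := o7 s this (ds_ne (i := i) (by omega))
    omega
  have hA : ∀ s, ds i s = 1 → 0 < ε s → s = p1 ∨ s = p2 ∨ s = p3 ∨ s = t := by
    intro s hs hs0
    by_contra h
    push Not at h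
    have : s ∉ ({p1, p2, p3, g, g'} : Finset α) := by
      simp only [mem_insert, mem_singleton]
      rintro (h' | h' | h' | rfl | rfl)
      · exact h.1 h'
      · exact h.2.1 h'
      · exact h.2.2.1 h'
      · omega
      · omega
    have := o7 s this h.2.2.2
    omega
  have hq : ∀ q, ds i q = 2 → ε q ≤ 1 := by
    intro q hq
    by_contra h0
    rcases hBx q hq (by omega) with rfl | rfl <;> omega
  obtain ⟨f1, f2, f3⟩ := D.fo3 hB hlev hq
  have ft : t ∈ Fo i ε := by
    apply fo_near ht1
    · intro y hy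
      rw [hlev y (bd_lev hg ht1 hy)]
      exact ht0
    · intro q hq'
      have := hq q (by rw [fr_ds hg hq', ht1])
      omega
  have hF4 : 4 ≤ (Fo i ε).card := by
    have h4 : ({t, p1, p2, p3} : Finset α) ⊆ Fo i ε := by
      intro x hx
      simp only [mem_insert, mem_singleton] at hx
      rcases hx with rfl | rfl | rfl | rfl
      · exact ft
      · exact f1
      · exact f2
      · exact f3
    have h5 := card_le_card h4
    rw [card_insert_of_notMem (by simp [h1, h2, h3]),
      card_insert_of_notMem (by simp [D.n12, D.n13]), card_pair D.n23] at h5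
    exact h5
  -- the element over `t`
  obtain ⟨q, hq1, hq2, hq3⟩ := D.cf.far hB hF ht1 ht0
  have hqg' : q = g' := by
    rcases hBx q hq3 hq2 with rfl | rfl
    · have : t ∈ bd i q := mem_bd.2 hq1
      rw [D.bg, mem_insert, mem_singleton] at this
      rcases this with h | h
      · exact absurd h h1
      · exact absurd h h2
    · rfl
  rw [hqg'] at hq1
  have hbg' : bd i g' = {p3, t} := by
    symm
    apply Finset.eq_of_subset_of_card_le
    · intro s hs
      rw [mem_insert, mem_singleton] at hs
      rcases hs with rfl | rfl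
      · exact D.f3
      · exact mem_bd.2 hq1
    · rw [card_pair h3.symm]
      exact hB.deg g'
  have hgU' : g' ∈ U2 α i := by
    rw [mem_U2, hbg', card_pair h3.symm]
    exact ⟨D.dg', rfl⟩
  have hNA : NA i ε = BB i g ∪ BB i g' := by
    rw [D.BB_eq]
    have hBB' : BB i g' = bd i p3 ∪ bd i t := by
      unfold BB
      rw [hbg', biUnion_insert, singleton_biUnion]
    rw [hBB']
    ext y
    rw [mem_NA, mem_union, mem_union, mem_union]
    constructor
    · rintro ⟨p, ⟨k1, k2⟩, k3⟩
      rcases hA p k1 k2 with rfl | rfl | rfl | rfl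
      · exact Or.inl (Or.inl k3)
      · exact Or.inl (Or.inr k3)
      · exact Or.inr (Or.inl k3)
      · exact Or.inr (Or.inr k3)
    · rintro ((h | h) | (h | h))
      · exact ⟨p1, ⟨D.d1, D.e1⟩, h⟩
      · exact ⟨p2, ⟨D.d2, D.e2⟩, h⟩
      · exact ⟨p3, ⟨D.d3, D.e3⟩, h⟩
      · exact ⟨t, ⟨ht1, ht0⟩, h⟩
  have hY : (Yd i ε).card ≤ (NA i ε).card := card_le_card (Yd_sub_NA hg)
  have hls := D.cf.ls
  have hP3 := hB.P3 g D.gU
  have hP3' := hB.P3 g' hgU'
  have hc : (NA i ε).card ≤ (BB i g).card + (BB i g').card := by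
    rw [hNA]
    exact card_union_le _ _
  have hdisj : Disjoint (BB i g) (BB i g') := by
    rw [← card_union_eq_card_add_card, ← hNA]
    omega
  refine ⟨insert g (bd i g), insert g' (bd i g'), Or.inl ⟨g, D.gU, by omega, rfl⟩,
    Or.inl ⟨g', hgU', by omega, rfl⟩, ?_, ?_, ?_⟩
  · rw [D.bg, hbg', Finset.disjoint_left]
    intro s hs hs'
    simp only [mem_insert, mem_singleton] at hs hs'
    rcases hs with rfl | rfl | rfl <;> rcases hs' with h | h | h
    · exact D.ng h
    · exact n5 h.symm
    · rw [h] at dg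
      omega
    · exact n2 h
    · exact D.n13 h
    · exact h1 h.symm
    · exact n4 h
    · exact D.n23 h
    · exact h2 h.symm
  · have e : ∀ q : α, ds i q = 2 → NT i (insert q (bd i q)) = BB i q := by
      intro q hq
      unfold NT BB
      have h : ((insert q (bd i q)).filter fun p => ds i p = 1) = bd i q := by
        ext t
        rw [mem_filter, mem_insert]
        constructor
        · rintro ⟨rfl | h1, h2⟩
          · omega
          · exact h1
        · intro h1
          exact ⟨Or.inr h1, ds_of_mem_bd hg hq h1⟩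
      rw [h]
    rw [e g D.dg, e g' D.dg']
    exact hdisj
  · rw [D.eq_ind6 htT ht0]
    congr 1
    rw [D.bg, hbg']
    ext s
    simp only [mem_insert, mem_singleton, mem_union]
    tauto

end

end TriD

/-- **part D of the classification** -/
theorem Cf.clsD {m : Mat α i} {ε : α → ℕ} (hB : PB α i) (hF : m.FullX ∅) (h : Cf m ε)
    (ha : 3 ≤ (Ax i ε).card) (hb : ∃ g ∈ Bx i ε, (bd i g).card = 2) :
    HasAD i ε ∨ (∃ p q, Swp i ε p q) ∨ TwoObj i ε ∨ VPC i ε := by
  obtain ⟨g, hg1, hg2⟩ := hb
  rw [mem_Bx] at hg1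
  obtain ⟨p1, p2, h12, hbg⟩ := card_eq_two.1 hg2
  have m1 : p1 ∈ Ax i ε := bd_sub_Ax hB h.good hg1.1 hg1.2 (by rw [hbg]; simp)
  have m2 : p2 ∈ Ax i ε := bd_sub_Ax hB h.good hg1.1 hg1.2 (by rw [hbg]; simp)
  obtain ⟨p3, m3, h3⟩ : ∃ p3 ∈ Ax i ε, p3 ∉ ({p1, p2} : Finset α) := by
    by_contra hcon
    push Not at hcon
    have := card_le_card (show Ax i ε ⊆ {p1, p2} from fun t ht => hcon t ht)
    rw [card_pair h12] at this
    omega
  rw [mem_insert, mem_singleton, not_or] at h3
  rw [mem_Ax] at m1 m2 m3
  obtain ⟨g', k1, k2, k3⟩ := h.far hB hF m3.1 m3.2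
  have hgg : g ≠ g' := by
    rintro rfl
    have : p3 ∈ bd i g := mem_bd.2 k1
    rw [hbg, mem_insert, mem_singleton] at this
    rcases this with h' | h'
    · exact h3.1 h'
    · exact h3.2 h'
  have D : TriD m ε p1 p2 p3 g g' :=
    { cf := h, n12 := h12, n13 := fun h' => h3.1 h'.symm, n23 := fun h' => h3.2 h'.symm,
      ng := hgg, d1 := m1.1, d2 := m2.1, d3 := m3.1, dg := hg1.1, dg' := k3, e1 := m1.2,
      e2 := m2.2, e3 := m3.2, eg := hg1.2, eg' := k2, bg := hbg, f3 := mem_bd.2 k1 }
  by_cases h4 : ∃ t, ds i t = 1 ∧ 0 < ε t ∧ t ≠ p1 ∧ t ≠ p2 ∧ t ≠ p3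
  · obtain ⟨t, l1, l2, l3, l4, l5⟩ := h4
    right; right; left
    exact D.case_4 hB hF l1 l2 l3 l4 l5
  · push Not at h4
    have hA : ∀ s, ds i s = 1 → 0 < ε s → s = p1 ∨ s = p2 ∨ s = p3 := by
      intro s h1 h2
      by_contra hcon
      push Not at hcon
      exact hcon.2.2 (h4 s h1 h2 hcon.1 hcon.2.1)
    by_cases h5 : ∃ t, ds i t = 2 ∧ 0 < ε t ∧ t ≠ g ∧ t ≠ g'
    · obtain ⟨t, l1, l2, l3, l4⟩ := h5
      exact D.case_33 hB l1 l2 l3 l4
    · push Not at h5
      have hBx : ∀ s, ds i s = 2 → 0 < ε s → s = g ∨ s = g' := by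
        intro s h1 h2
        by_contra hcon
        push Not at hcon
        exact hcon.2 (h5 s h1 h2 hcon.1)
      have hsub : bd i g' ⊆ {p1, p2, p3} := by
        intro s hs
        have := bd_sub_Ax hB h.good k3 k2 hs
        rw [mem_Ax] at this
        rcases hA s this.1 this.2 with rfl | rfl | rfl <;> simp
      have hd := hB.deg g'
      by_cases j2 : p2 ∈ bd i g'
      · left
        apply D.case_i hB hA hBx
        symm
        apply Finset.eq_of_subset_of_card_le
        · intro s hs
          rw [mem_insert, mem_singleton] at hs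
          rcases hs with rfl | rfl
          · exact j2
          · exact D.f3
        · rw [card_pair D.n23]
          exact hd
      · by_cases j1 : p1 ∈ bd i g'
        · left
          apply D.symm.case_i hB ?_ hBx ?_
          · intro s h1 h2
            rcases hA s h1 h2 with h' | h' | h'
            · exact Or.inr (Or.inl h')
            · exact Or.inl h'
            · exact Or.inr (Or.inr h')
          · symm
            apply Finset.eq_of_subset_of_card_le
            · intro s hs
              rw [mem_insert, mem_singleton] at hs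
              rcases hs with rfl | rfl
              · exact j1
              · exact D.f3
            · rw [card_pair D.n13]
              exact hd
        · apply D.case_ii hB hF hA hBx
          ext s
          rw [mem_singleton]
          constructor
          · intro hs
            have := hsub hs
            simp only [mem_insert, mem_singleton] at this
            rcases this with rfl | rfl | rfl
            · exact absurd hs j1
            · exact absurd hs j2
            · rfl
          · rintro rfl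
            exact D.f3

end Pool.Gauss
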