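import Pool.Agent.Work.MP_065141_co.K.V6ClsB
import Pool.Agent.Work.MP_065141_co.K.V6ClsC
import Pool.Agent.Work.MP_065141_co.K.V6ClsD

/-!
# Classification of the configurations of loss at least two and energy at most six
The assembly
-/

set_option autoImplicit false
set_option linter.unusedSectionVars false
set_option linter.unusedVariables false
open scoped Classical
open Finset Polynomial

namespace Pool.Gauss

variable {α : Type} [Fintype α] [PartialOrder α] {i : ℕ}

/-- **the classification** -/
theorem cls6 {m : Mat α i} {ε : α → ℕ} (hB : PB α i) (hF : m.FullX ∅) (h : Cf m ε) :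
    HasAD i ε ∨ (∃ g v, isV i g v ∧ ε = cfV i g v) ∨ (∃ p q, Swp i ε p q) ∨ TwoObj i ε ∨
      VPP i ε ∨ VPC i ε := by
  by_cases hex : ∃ q ∈ Bx i ε, (bd i q).card = 2
  · rcases Nat.lt_or_ge 2 (Ax i ε).card with ha | ha
    · rcases h.clsD hB hF ha hex with h1 | h1 | h1 | h1
      · exact Or.inl h1
      · exact Or.inr (Or.inr (Or.inl h1))
      · exact Or.inr (Or.inr (Or.inr (Or.inl h1)))
      · exact Or.inr (Or.inr (Or.inr (Or.inr (Or.inr h1))))
    · have ha2 : (Ax i ε).card = 2 := by
        obtain ⟨q, hq, hq2⟩ := hex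
        rw [mem_Bx] at hq
        have := card_le_card (bd_sub_Ax hB h.good hq.1 hq.2)
        omega
      rcases clsDia hB hF h ha2 hex with h1 | h1
      · exact Or.inl h1
      · exact Or.inr (Or.inl h1)
  · push Not at hex
    have hno : ∀ q ∈ Bx i ε, (bd i q).card = 1 := by
      intro q hq
      have h1 := hex q hq
      have h2 := hB.deg q
      rw [mem_Bx] at hq
      have h3 := card_pos.2 (bd_nonempty hB (i := i) (q := q) (by omega))
      omega
    rcases clsSgl hB hF h hno with h1 | h1 | h1
    · exact Or.inr (Or.inr (Or.inl h1))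
    · exact Or.inr (Or.inr (Or.inr (Or.inl h1)))
    · exact Or.inr (Or.inr (Or.inr (Or.inr (Or.inl h1))))

end Pool.Gauss
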