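import Pool.Agent.Work.MP_065141_co.K.V6ClsD1

/-!
# Configurations of loss three and energy at most six: lemmas
-/

set_option autoImplicit false
set_option linter.unusedSectionVars false
set_option linter.unusedVariables false
open scoped Classical
open Finset Polynomial

namespace Pool.Gauss

variable {α : Type} [Fintype α] [PartialOrder α] {i : ℕ}

variable {m : Mat α i} {ε : α → ℕ}

/-- in the case of two elements and single farther elements the loss is two -/
lemma SS.no3 {p p' q q' : α} (hB : PB α i) (S : SS i ε p p' q q') :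
    ¬ ((Fo i ε).card + 3 ≤ (Yd i ε).card) := by
  intro h3
  have h4 := S.Ysub hB
  have h5 := card_le_card h4
  have h6 := hB.deg p
  have h7 := hB.deg p'
  have h8 := Finset.card_union_add_card_inter (bd i p) (bd i p')
  have key : ∀ {p p' q q' : α} (S : SS i ε p p' q q'), ¬ nd i ε p → nd i ε p' → False := by
    intro p p' q q' S h1 h2
    have h4 := S.Ysub hB
    have h5 := card_le_card h4
    have h6 := hB.deg p
    have h7 := hB.deg p'
    have h8 := Finset.card_union_add_card_inter (bd i p) (bd i p')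
    obtain ⟨f, hf, _⟩ := S.rise hB h1
    have hF : 1 ≤ (Fo i ε).card := Finset.card_pos.2 ⟨f, hf⟩
    have h9 : (bd i p ∩ bd i p').card = 0 := by omega
    have h10 : Yd i ε = bd i p ∪ bd i p' := Finset.eq_of_subset_of_card_le h4 (by omega)
    rw [nd_iff] at h2
    obtain ⟨c, hc, hc2⟩ := h2
    have hcY : c ∈ Yd i ε := by rw [h10, mem_union]; exact Or.inr hc
    rw [S.Yde hB] at hcY
    rcases hcY with h11 | h11
    · rw [Finset.card_eq_zero] at h9
      have : c ∈ bd i p ∩ bd i p' := mem_inter.2 ⟨h11.1, hc⟩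
      rw [h9] at this
      simp at this
    · omega
  by_cases h1 : nd i ε p <;> by_cases h2 : nd i ε p'
  · -- no element is rising
    have h1' := h1
    have h2' := h2
    rw [nd_iff] at h1 h2
    obtain ⟨a, ha, ha2⟩ := h1
    obtain ⟨b, hb, hb2⟩ := h2
    have ca : corank a = i := bd_lev hB.hg S.dp ha
    have cb : corank b = i := bd_lev hB.hg S.dp' hb
    have e1 := S.p0
    have e2 := S.p0'
    have e3 := S.q0
    have e4 := S.q0'
    have haY : a ∉ Yd i ε := by
      rw [S.Yde hB]
      rintro (h | h)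
      · omega
      · have hab : a ≠ b := by
          rintro rfl
          omega
        have := S.sum_yy hB ca cb hab
        omega
    have hbY : b ∉ Yd i ε := by
      rw [S.Yde hB]
      rintro (h | h)
      · have hab : a ≠ b := by
          rintro rfl
          omega
        have := S.sum_yy hB ca cb hab
        omega
      · omega
    have h8 : Yd i ε ⊆ (bd i p).erase a ∪ (bd i p').erase b := by
      intro t ht
      have := h4 ht
      rw [mem_union] at this ⊢
      rcases this with h | h
      · exact Or.inl (mem_erase.2 ⟨fun hc => haY (hc ▸ ht), h⟩)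
      · exact Or.inr (mem_erase.2 ⟨fun hc => hbY (hc ▸ ht), h⟩)
    have h9 := card_le_card h8
    have h10 := Finset.card_union_add_card_inter ((bd i p).erase a) ((bd i p').erase b)
    rw [card_erase_of_mem ha, card_erase_of_mem hb] at h10
    omega
  · exact key S.symm h2 h1
  · exact key S h1 h2
  · obtain ⟨f, hf, hf'⟩ := S.rise hB h1
    obtain ⟨f2, hf2, hf2'⟩ := S.symm.rise hB h2
    have hne := S.rise_ne hB hf' hf2'
    have hF : 2 ≤ (Fo i ε).card := by
      have : ({f, f2} : Finset α) ⊆ Fo i ε := by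
        intro t ht
        rw [mem_insert, mem_singleton] at ht
        rcases ht with rfl | rfl
        · exact hf
        · exact hf2
      have := card_le_card this
      rwa [card_pair hne] at this
    omega

/-- the number of neighbours if the loss is three -/
lemma Cf.NA4 (hB : PB α i) (h : Cf m ε) (h3 : (Fo i ε).card + 3 ≤ (Yd i ε).card) :
    4 ≤ (NA i ε).card := by
  have hsub := Yd_sub_NA hB.hg (i := i) (ε := ε)
  have h1 := card_le_card hsub
  rcases Finset.eq_empty_or_nonempty (Fo i ε) with hF | hF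
  · obtain ⟨p, hp, hp'⟩ := h.exc hB
    obtain ⟨y, b, hb, hb0, hy, hmax⟩ := peak' hB.hg ⟨p, ds_pos (by omega), hp'⟩ hF
    have hyN : y ∈ NA i ε := mem_NA.2 ⟨b, ⟨hb, hb0⟩, hy⟩
    have hyY : y ∉ Yd i ε := by
      intro hc
      obtain ⟨p2, h2, h3, h4, h5⟩ := exists_dom hB.hg hc
      have := hmax p2 (ds_pos (by omega))
      omega
    have h2 : Yd i ε ⊆ (NA i ε).erase y := fun t ht =>
      mem_erase.2 ⟨fun hc => hyY (hc ▸ ht), hsub ht⟩
    have h3 := card_le_card h2
    rw [card_erase_of_mem hyN] at h3
    omega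
  · have := Finset.card_pos.2 hF
    omega

/-- the third element and the neighbours, if there are three excited elements next to level `i` and
a double one at distance two -/
lemma Cf.third (hB : PB α i) (h : Cf m ε) (ha : (Ax i ε).card = 3) {g : α} (mg : g ∈ Bx i ε)
    (hg2 : (bd i g).card = 2) : ∃ p ∈ Ax i ε, p ∉ bd i g ∧ (∀ r ∈ Ax i ε, r ∈ bd i g ∨ r = p) ∧
      NA i ε = BB i g ∪ bd i p := by
  have hsub := h.bdA hB mg
  have hc : (Ax i ε \ bd i g).card = 1 := by
    rw [card_sdiff_of_subset hsub]
    omega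
  obtain ⟨p, hp⟩ := Finset.card_eq_one.1 hc
  have mp : p ∈ Ax i ε ∧ p ∉ bd i g := by
    rw [← mem_sdiff, hp]
    simp
  have hAx : ∀ r ∈ Ax i ε, r ∈ bd i g ∨ r = p := by
    intro r hr
    by_cases h2 : r ∈ bd i g
    · exact Or.inl h2
    · right
      have : r ∈ Ax i ε \ bd i g := mem_sdiff.2 ⟨hr, h2⟩
      rw [hp, mem_singleton] at this
      exact this
  refine ⟨p, mp.1, mp.2, hAx, ?_⟩
  unfold NA BB
  ext t
  rw [mem_union, mem_biUnion, mem_biUnion]
  constructor
  · rintro ⟨r, hr, hrt⟩
    rcases hAx r hr with h3 | h3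
    · exact Or.inl ⟨r, h3, hrt⟩
    · exact Or.inr (h3 ▸ hrt)
  · rintro (⟨r, hr, hrt⟩ | hrt)
    · exact ⟨r, hsub hr, hrt⟩
    · exact ⟨p, mp.1, hrt⟩

/-- a double `g` and an element `p` with disjoint neighbourhoods: the elements over `p` are single -/
lemma Cf.single_over (hB : PB α i) (h : Cf m ε) {g p : α} (mg : g ∈ Bx i ε)
    (hg2 : (bd i g).card = 2) (hAx : ∀ r ∈ Ax i ε, r ∈ bd i g ∨ r = p)
    (c4 : (BB i g).card = 3) (c5 : (bd i p).card = 2) (hd : Disjoint (BB i g) (bd i p)) :
    ∀ r ∈ Bx i ε, p ∈ bd i r → bd i r = {p} := by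
  have ug : g ∈ U2 α i := mem_U2.2 ⟨(mem_Bx.1 mg).1, hg2⟩
  intro r hr hpr
  by_contra hne
  have h3 : ∃ s ∈ bd i r, s ≠ p := by
    by_contra h4
    push Not at h4
    apply hne
    ext t
    rw [mem_singleton]
    constructor
    · exact h4 t
    · rintro rfl
      exact hpr
  obtain ⟨s, hs, hsp⟩ := h3
  have hsA := h.bdA hB hr hs
  have hsg : s ∈ bd i g := by
    rcases hAx s hsA with h4 | h4
    · exact h4
    · exact absurd h4 hsp
  have hs2 := hB.nb g ug c4 s hsg
  have hr2 : bd i r = {s, p} := by
    symm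
    apply Finset.eq_of_subset_of_card_le
    · intro t ht
      rw [mem_insert, mem_singleton] at ht
      rcases ht with rfl | rfl
      · exact hs
      · exact hpr
    · rw [card_pair hsp]
      exact hB.deg r
  have hrU : r ∈ U2 α i := mem_U2.2 ⟨(mem_Bx.1 hr).1, by rw [hr2, card_pair hsp]⟩
  have c7 := hB.P3 r hrU
  have hBr : BB i r = bd i s ∪ bd i p := by
    unfold BB
    rw [hr2, biUnion_insert, singleton_biUnion]
  have hd2 : Disjoint (bd i s) (bd i p) := by
    apply Finset.disjoint_of_subset_left _ hd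
    intro t ht
    unfold BB
    rw [mem_biUnion]
    exact ⟨s, hsg, ht⟩
  rw [hBr, card_union_of_disjoint hd2, hs2, c5] at c7
  omega

/-- an element next to level `i` which dominates all its neighbours and is not dominated from far -/
lemma mem_Fo_one {p : α} (hp : ds i p = 1) (h1 : ∀ w, fr i p w → ε w ≤ ε p)
    (h2 : ∀ y ∈ bd i p, ε y < ε p) : p ∈ Fo i ε := by
  rw [mem_Fo]
  refine ⟨ds_pos (by omega), not_fd_iff.2 h1, ?_⟩
  rw [nd_iff]
  rintro ⟨y, hy, hle⟩
  have := h2 y hy
  omega

/-- the common neighbour of three elements: impossible if two of them form a diamond -/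
lemma no_triple (hB : PB α i) (hF : m.FullX ∅) {g x x' p t : α} (hg2 : ds i g = 2)
    (hbg : bd i g = {x, x'}) (hne : x ≠ x') (h3 : (BB i g).card = 3) (hp : ds i p = 1)
    (h1 : t ∈ bd i x) (h2 : t ∈ bd i x') (h4 : t ∈ bd i p) (hpg : p ∉ bd i g) :
    bd i p = bd i x ∨ bd i p = bd i x' := by
  have hg := hB.hg
  have ug : g ∈ U2 α i := mem_U2.2 ⟨hg2, by rw [hbg, card_pair hne]⟩
  have hx2 := hB.nb g ug h3 x (by rw [hbg]; simp)
  have hx2' := hB.nb g ug h3 x' (by rw [hbg]; simp)
  have dx : ds i x = 1 := ds_of_mem_bd hg hg2 (by rw [hbg]; simp)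
  have dx' : ds i x' = 1 := ds_of_mem_bd hg hg2 (by rw [hbg]; simp)
  have ct : corank t = i := bd_lev hg dx h1
  rw [hbg, mem_insert, mem_singleton, not_or] at hpg
  have sx := side_of_mem_bd hg hg2 (p := x) (by rw [hbg]; simp)
  have sx' := side_of_mem_bd hg hg2 (p := x') (by rw [hbg]; simp)
  -- the partners
  have partner : ∀ u : α, ds i u = 1 → (bd i u).card = 2 → ∃ z, ds i z = 1 ∧ bd i z = bd i u ∧
      ((corank u < i ∧ i < corank z) ∨ (i < corank u ∧ corank z < i)) := by
    intro u hu hu2
    rcases hF u hu with h5 | h5 | h5 | ⟨e, he, h5⟩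
    · simp at h5
    · have := card_bd_sgl hg (Or.inl h5 : sglZ i u ∨ sglX i u)
      omega
    · have := card_bd_sgl hg (Or.inr h5 : sglZ i u ∨ sglX i u)
      omega
    · obtain ⟨y, y', _, hz, hxx⟩ := m.bd_matched hg he
      have c1 := m.cz e he
      have c2 := m.cx e he
      rcases h5 with rfl | rfl
      · exact ⟨e.2, by unfold ds; omega, by rw [hz, hxx], Or.inl ⟨by omega, by omega⟩⟩
      · exact ⟨e.1, by unfold ds; omega, by rw [hz, hxx], Or.inr ⟨by omega, by omega⟩⟩
  obtain ⟨z, dz, bz, sz⟩ := partner x dx hx2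
  obtain ⟨z', dz', bz', sz'⟩ := partner x' dx' hx2'
  have hzz : z ≠ z' := by
    rintro rfl
    have h6 : bd i x = bd i x' := by rw [← bz, bz']
    have h7 : BB i g = bd i x := by
      unfold BB
      rw [hbg, biUnion_insert, singleton_biUnion, ← h6, union_self]
    rw [h7] at h3
    omega
  have hpi : corank p ≠ i := ds_pos (by omega)
  have hgi : corank g ≠ i := ds_pos (by omega)
  have f1 : fr i t x := mem_bd.1 h1
  have f2 : fr i t x' := mem_bd.1 h2
  have f3 : fr i t p := mem_bd.1 h4
  have f4 : fr i t z := mem_bd.1 (by rw [bz]; exact h1)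
  have f5 : fr i t z' := mem_bd.1 (by rw [bz']; exact h2)
  by_cases hs : (corank p < i ↔ corank g < i)
  · -- the same side
    exfalso
    have h6 := hB.dy t p x x' f3 f1 f2 ct (by
      rcases lt_or_gt_of_ne hgi with h7 | h7
      · left
        exact ⟨hs.2 h7, sx.1.2 h7, sx'.1.2 h7⟩
      · right
        refine ⟨?_, sx.2.2 h7, sx'.2.2 h7⟩
        rcases lt_or_gt_of_ne hpi with h8 | h8
        · have := hs.1 h8
          omega
        · exact h8)
    rcases h6 with h6 | h6 | h6
    · exact hpg.1 h6
    · exact hpg.2 h6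
    · exact hne h6
  · have h6 := hB.dy t p z z' f3 f4 f5 ct (by
      rcases lt_or_gt_of_ne hgi with h7 | h7
      · right
        have h8 := sx.1.2 h7
        have h9 := sx'.1.2 h7
        refine ⟨?_, by omega, by omega⟩
        rcases lt_or_gt_of_ne hpi with h8 | h8
        · exact absurd ⟨fun _ => h7, fun _ => h8⟩ hs
        · exact h8
      · left
        have h8 := sx.2.2 h7
        have h9 := sx'.2.2 h7
        refine ⟨?_, by omega, by omega⟩
        rcases lt_or_gt_of_ne hpi with h8 | h8
        · exact h8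
        · exfalso
          apply hs
          constructor
          · intro; omega
          · intro; omega)
    rcases h6 with h6 | h6 | h6
    · left
      rw [h6, bz]
    · right
      rw [h6, bz']
    · exact absurd h6 hzz

end Pool.Gauss
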