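import Pool.Agent.Work.MP_065141_co.K.V6ClsE

/-!
# Classification of the configurations of loss three and energy at most six

A configuration of energy at most six and loss at least three consists of three minimal events, or
of a minimal event and a diamond of energy four (the middle element of energy two, or the common
neighbour of energy one).
-/

set_option autoImplicit false
set_option linter.unusedSectionVars false
set_option linter.unusedVariables false
open scoped Classical
open Finset Polynomial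

namespace Pool.Gauss

variable {α : Type} [Fintype α] [PartialOrder α] {i : ℕ}

variable {m : Mat α i} {ε : α → ℕ}

lemma fo_three {a b c : α} (h1 : a ≠ b) (h2 : a ≠ c) (h3 : b ≠ c) (h4 : a ∈ Fo i ε)
    (h5 : b ∈ Fo i ε) (h6 : c ∈ Fo i ε) : 3 ≤ (Fo i ε).card := by
  have : ({a, b, c} : Finset α) ⊆ Fo i ε := by
    intro t ht
    simp only [mem_insert, mem_singleton] at ht
    rcases ht with rfl | rfl | rfl
    · exact h4
    · exact h5
    · exact h6
  have h7 := card_le_card this
  rw [card_insert_of_notMem, card_pair h3] at h7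
  · omega
  · simp [h1, h2]

lemma fo_two {a b : α} (h1 : a ≠ b) (h4 : a ∈ Fo i ε) (h5 : b ∈ Fo i ε) : 2 ≤ (Fo i ε).card := by
  have : ({a, b} : Finset α) ⊆ Fo i ε := by
    intro t ht
    simp only [mem_insert, mem_singleton] at ht
    rcases ht with rfl | rfl
    · exact h4
    · exact h5
  have h7 := card_le_card this
  rwa [card_pair h1] at h7

/-- three elements next to level `i`, two of them under a double element -/
structure L3 (m : Mat α i) (ε : α → ℕ) (x x' g p q : α) : Prop where
  cf : Cf m ε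
  l3 : (Fo i ε).card + 3 ≤ (Yd i ε).card
  dx : ds i x = 1
  dx' : ds i x' = 1
  dp : ds i p = 1
  dg : ds i g = 2
  dq : ds i q = 2
  x0 : 0 < ε x
  x0' : 0 < ε x'
  p0 : 0 < ε p
  g0 : 0 < ε g
  q0 : 0 < ε q
  nx : x ≠ x'
  npx : p ≠ x
  npx' : p ≠ x'
  nqg : q ≠ g
  bg : bd i g = {x, x'}
  pq : p ∈ bd i q
  ax : ∀ r, ds i r = 1 → 0 < ε r → r = x ∨ r = x' ∨ r = p
  bx : ∀ r, ds i r = 2 → 0 < ε r → r = g ∨ r = q

namespace L3

variable {x x' g p q : α}

lemma symm (L : L3 m ε x x' g p q) : L3 m ε x' x g p q where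
  cf := L.cf
  l3 := L.l3
  dx := L.dx'
  dx' := L.dx
  dp := L.dp
  dg := L.dg
  dq := L.dq
  x0 := L.x0'
  x0' := L.x0
  p0 := L.p0
  g0 := L.g0
  q0 := L.q0
  nx := L.nx.symm
  npx := L.npx'
  npx' := L.npx
  nqg := L.nqg
  bg := by rw [L.bg]; exact pair_comm _ _
  pq := L.pq
  ax := by
    intro r h1 h2
    have := L.ax r h1 h2
    tauto
  bx := L.bx

lemma BBg (L : L3 m ε x x' g p q) : BB i g = bd i x ∪ bd i x' := by
  unfold BB
  rw [L.bg, biUnion_insert, singleton_biUnion]

lemma ug (L : L3 m ε x x' g p q) : g ∈ U2 α i := mem_U2.2 ⟨L.dg, by rw [L.bg, card_pair L.nx]⟩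

lemma mA (L : L3 m ε x x' g p q) {r : α} (h1 : ds i r = 1) (h2 : 0 < ε r) : r ∈ Ax i ε :=
  mem_Ax.2 ⟨h1, h2⟩

lemma mB (L : L3 m ε x x' g p q) {r : α} (h1 : ds i r = 2) (h2 : 0 < ε r) : r ∈ Bx i ε :=
  mem_Bx.2 ⟨h1, h2⟩

lemma NAe (L : L3 m ε x x' g p q) : NA i ε = BB i g ∪ bd i p := by
  rw [L.BBg]
  ext t
  rw [mem_NA, mem_union, mem_union]
  constructor
  · rintro ⟨r, ⟨h1, h2⟩, h3⟩
    rcases L.ax r h1 h2 with rfl | rfl | rfl
    · exact Or.inl (Or.inl h3)
    · exact Or.inl (Or.inr h3)
    · exact Or.inr h3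
  · rintro ((h | h) | h)
    · exact ⟨x, ⟨L.dx, L.x0⟩, h⟩
    · exact ⟨x', ⟨L.dx', L.x0'⟩, h⟩
    · exact ⟨p, ⟨L.dp, L.p0⟩, h⟩

lemma cards (L : L3 m ε x x' g p q) (hB : PB α i) : (BB i g).card ≤ 3 ∧ (bd i p).card ≤ 2 ∧
    (NA i ε).card + (BB i g ∩ bd i p).card = (BB i g).card + (bd i p).card ∧
    4 ≤ (NA i ε).card ∧ (Yd i ε).card ≤ (NA i ε).card ∧ (Fo i ε).card + 3 ≤ (Yd i ε).card := by
  have c3 := Finset.card_union_add_card_inter (BB i g) (bd i p)
  rw [← L.NAe] at c3
  exact ⟨hB.P3 g L.ug, hB.deg p, c3, L.cf.NA4 hB L.l3,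
    card_le_card (Yd_sub_NA hB.hg (i := i) (ε := ε)), L.l3⟩

/-- the shape if there are five neighbours -/
lemma shape (L : L3 m ε x x' g p q) (hB : PB α i) (h5 : 5 ≤ (NA i ε).card) :
    (BB i g).card = 3 ∧ (bd i p).card = 2 ∧ Disjoint (BB i g) (bd i p) ∧ bd i q = {p} := by
  obtain ⟨c1, c2, c3, _⟩ := L.cards hB
  have d1 : (BB i g).card = 3 := by omega
  have d2 : (bd i p).card = 2 := by omega
  have d3 : (BB i g ∩ bd i p).card = 0 := by omega
  have d4 : Disjoint (BB i g) (bd i p) := by
    rw [Finset.disjoint_iff_inter_eq_empty, ← Finset.card_eq_zero]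
    exact d3
  refine ⟨d1, d2, d4, L.cf.single_over hB (L.mB L.dg L.g0) (by rw [L.bg, card_pair L.nx]) ?_ d1 d2
    d4 q (L.mB L.dq L.q0) L.pq⟩
  intro r hr
  rw [mem_Ax] at hr
  rw [L.bg, mem_insert, mem_singleton]
  rcases L.ax r hr.1 hr.2 with h | h | h
  · exact Or.inl (Or.inl h)
  · exact Or.inl (Or.inr h)
  · exact Or.inr h

/-- nothing else is excited: impossible -/
lemma caseInd (L : L3 m ε x x' g p q) (hB : PB α i)
    (he : ε = ind ({x, x', p, g, q} : Finset α)) : False := by
  have hle : ∀ r, ε r ≤ 1 := by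
    intro r
    rw [he]
    unfold ind
    split_ifs <;> omega
  have hlev0 : ∀ y, corank y = i → ε y = 0 := by
    intro y hy
    by_contra hc
    have h6 := ds_eq_zero.2 hy
    have h5 : 0 < ind ({x, x', p, g, q} : Finset α) y := by rw [← he]; omega
    rw [ind_pos] at h5
    simp only [mem_insert, mem_singleton] at h5
    have a1 := L.dx
    have a2 := L.dx'
    have a3 := L.dp
    have a4 := L.dg
    have a5 := L.dq
    rcases h5 with rfl | rfl | rfl | rfl | rfl <;> omega
  have hpk : ∀ r, ds i r = 1 → 0 < ε r → r ∈ Fo i ε := by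
    intro r h1 h2
    apply mem_Fo_one h1
    · intro w _
      have := hle w
      omega
    · intro y hy
      rw [hlev0 y (bd_lev hB.hg h1 hy)]
      exact h2
  have h1 := fo_three L.nx L.npx.symm L.npx'.symm (hpk x L.dx L.x0) (hpk x' L.dx' L.x0')
    (hpk p L.dp L.p0)
  obtain ⟨c1, c2, c3, c4, c5, c6⟩ := L.cards hB
  omega

/-- the unit lies in level `i` -/
lemma caseLev (L : L3 m ε x x' g p q) (hB : PB α i) (hF : m.FullX ∅) {t : α} (ht0 : corank t = i)
    (hval : ∀ r, ε r = (if r ∈ ({x, x', p, g, q} : Finset α) then 1 else 0) +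
      (if r = t then 1 else 0)) :
    t ∈ bd i x ∧ t ∈ bd i x' ∧ 5 ≤ (NA i ε).card := by
  have hg := hB.hg
  have dt := ds_eq_zero.2 ht0
  have a1 := L.dx
  have a2 := L.dx'
  have a3 := L.dp
  have a4 := L.dg
  have a5 := L.dq
  have htS : t ∉ ({x, x', p, g, q} : Finset α) := by
    intro h
    simp only [mem_insert, mem_singleton] at h
    rcases h with rfl | rfl | rfl | rfl | rfl <;> omega
  have ht1 : ε t = 1 := by
    rw [hval t, if_neg htS, if_pos rfl]
  have hle : ∀ r, ε r ≤ 1 := by
    intro r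
    rw [hval r]
    by_cases h : r = t
    · rw [if_neg (h ▸ htS)]
      split_ifs <;> omega
    · rw [if_neg h]
      split_ifs <;> omega
  have hlev : ∀ y, corank y = i → y ≠ t → ε y = 0 := by
    intro y hy hyt
    have h6 := ds_eq_zero.2 hy
    rw [hval y, if_neg, if_neg hyt]
    intro h
    simp only [mem_insert, mem_singleton] at h
    rcases h with rfl | rfl | rfl | rfl | rfl <;> omega
  have hpk : ∀ r, ds i r = 1 → 0 < ε r → t ∉ bd i r → r ∈ Fo i ε := by
    intro r h1 h2 htr
    apply mem_Fo_one h1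
    · intro w _
      have := hle w
      omega
    · intro y hy
      rw [hlev y (bd_lev hg h1 hy) (fun hc => htr (hc ▸ hy))]
      exact h2
  have htY : t ∉ Yd i ε := by
    intro hc
    obtain ⟨r, h5, h6, h7, h8⟩ := exists_dom hg hc
    have := hle r
    omega
  have hYe : (Yd i ε).card ≤ ((NA i ε).erase t).card := card_le_card fun s hs =>
    mem_erase.2 ⟨fun hc => htY (hc ▸ hs), Yd_sub_NA hg hs⟩
  obtain ⟨c1, c2, c3, c4, c5, c6⟩ := L.cards hB
  have hpx := hpk x L.dx L.x0
  have hpx' := hpk x' L.dx' L.x0'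
  have hpp := hpk p L.dp L.p0
  have key : ∀ {x x' : α}, L3 m ε x x' g p q → t ∈ bd i x → t ∉ bd i x' → x' ∈ Fo i ε → False := by
    intro x x' L h1 h2 f1
    have htN : t ∈ NA i ε := mem_NA.2 ⟨x, ⟨L.dx, L.x0⟩, h1⟩
    rw [card_erase_of_mem htN] at hYe
    have := Finset.card_pos.2 ⟨x', f1⟩
    by_cases h4 : t ∈ bd i p
    · have h7 : t ∈ BB i g ∩ bd i p := by
        rw [mem_inter, L.BBg, mem_union]
        exact ⟨Or.inl h1, h4⟩
      have h8 := Finset.card_pos.2 ⟨t, h7⟩
      omega
    · have := fo_two L.npx'.symm f1 (hpp h4)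
      omega
  by_cases h1 : t ∈ bd i x <;> by_cases h2 : t ∈ bd i x'
  · refine ⟨h1, h2, ?_⟩
    have htN : t ∈ NA i ε := mem_NA.2 ⟨x, ⟨L.dx, L.x0⟩, h1⟩
    rw [card_erase_of_mem htN] at hYe
    have hp' : t ∉ bd i p := by
      intro h4
      have h7 : t ∈ BB i g ∩ bd i p := by
        rw [mem_inter, L.BBg, mem_union]
        exact ⟨Or.inl h1, h4⟩
      have h8 := Finset.card_pos.2 ⟨t, h7⟩
      have h9 := no_triple hB hF L.dg L.bg L.nx (by omega) L.dp h1 h2 h4 (by
        rw [L.bg, mem_insert, mem_singleton]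
        rintro (h | h)
        · exact L.npx h
        · exact L.npx' h)
      have h10 : bd i p ⊆ BB i g := by
        rw [L.BBg]
        intro s hs
        rw [mem_union]
        rcases h9 with h9 | h9
        · exact Or.inl (h9 ▸ hs)
        · exact Or.inr (h9 ▸ hs)
      have h11 : NA i ε = BB i g := by
        rw [L.NAe]
        exact union_eq_left.2 h10
      rw [h11] at c4
      omega
    have := Finset.card_pos.2 ⟨p, hpp hp'⟩
    omega
  · exact (key L h1 h2 (hpx' h2)).elim
  · exact (key L.symm h2 h1 (hpx h1)).elim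
  · exfalso
    have := fo_two L.nx (hpx h1) (hpx' h2)
    by_cases h4 : t ∈ bd i p
    · have htN : t ∈ NA i ε := mem_NA.2 ⟨p, ⟨L.dp, L.p0⟩, h4⟩
      rw [card_erase_of_mem htN] at hYe
      omega
    · have := fo_three L.nx L.npx.symm L.npx'.symm (hpx h1) (hpx' h2) (hpp h4)
      omega

/-- the unit lies outside level `i` -/
lemma caseFar (L : L3 m ε x x' g p q) (hB : PB α i) {t : α} (ht0 : corank t ≠ i)
    (hval : ∀ r, ε r = (if r ∈ ({x, x', p, g, q} : Finset α) then 1 else 0) +
      (if r = t then 1 else 0)) :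
    t = g ∧ 5 ≤ (NA i ε).card := by
  have hg := hB.hg
  have a1 := L.dx
  have a2 := L.dx'
  have a3 := L.dp
  have a4 := L.dg
  have a5 := L.dq
  have hS : ∀ r ∈ ({x, x', p, g, q} : Finset α), ds i r = 1 ∨ ds i r = 2 := by
    intro r h
    simp only [mem_insert, mem_singleton] at h
    rcases h with rfl | rfl | rfl | rfl | rfl <;> omega
  have hlev0 : ∀ y, corank y = i → ε y = 0 := by
    intro y hy
    have h6 := ds_eq_zero.2 hy
    rw [hval y, if_neg, if_neg]
    · rintro rfl
      exact ht0 hy
    · intro h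
      have := hS y h
      omega
  have hfar0 : ∀ w, 3 ≤ ds i w → w ≠ t → ε w = 0 := by
    intro w hw hwt
    rw [hval w, if_neg, if_neg hwt]
    intro h
    have := hS w h
    omega
  have hle : ∀ r, r ≠ t → ε r ≤ 1 := by
    intro r hrt
    rw [hval r, if_neg hrt]
    split_ifs <;> omega
  have hpk : ∀ r, ds i r = 1 → 0 < ε r → (fr i r t → ε t ≤ ε r) → r ∈ Fo i ε := by
    intro r h1 h2 htr
    apply mem_Fo_one h1
    · intro w hw
      by_cases hwt : w = t
      · rw [hwt] at hw ⊢
        exact htr hw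
      · have := hle w hwt
        omega
    · intro y hy
      rw [hlev0 y (bd_lev hg h1 hy)]
      exact h2
  obtain ⟨c1, c2, c3, c4, c5, c6⟩ := L.cards hB
  have hpx := hpk x L.dx L.x0
  have hpx' := hpk x' L.dx' L.x0'
  have hpp := hpk p L.dp L.p0
  have ht0' : 0 < ε t := by
    rw [hval t, if_pos rfl]
    omega
  by_cases htB : ds i t = 2
  · have mt : t ∈ Bx i ε := L.mB htB ht0'
    have ht2 : ε t = 2 := by
      rw [hval t, if_pos, if_pos rfl]
      rcases L.bx t htB ht0' with rfl | rfl <;> simp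
    have htF : t ∈ Fo i ε := by
      rw [mem_Fo]
      refine ⟨ht0, ?_, ?_⟩
      · rw [not_fd_iff]
        intro w hw
        have d1 := fr_ds hg hw
        rw [hfar0 w (by omega) (by
          rintro rfl
          omega)]
        exact Nat.zero_le _
      · rw [nd_iff]
        rintro ⟨r, hr, h5⟩
        have h6 := ds_of_mem_bd hg htB hr
        have := hle r (by
          rintro rfl
          omega)
        omega
    have hdst : ∀ r, ds i r = 1 → r ≠ t := by
      rintro r hr rfl
      omega
    rcases L.bx t htB ht0' with htg | htq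
    · refine ⟨htg, ?_⟩
      have hpF : p ∈ Fo i ε := hpp (by
        intro hc
        have h5 : p ∈ bd i g := by
          rw [← htg]
          exact mem_bd.2 hc
        rw [L.bg, mem_insert, mem_singleton] at h5
        rcases h5 with h5 | h5
        · exact absurd h5 L.npx
        · exact absurd h5 L.npx')
      have := fo_two (hdst p L.dp) hpF htF
      omega
    · exfalso
      have hq2 := hB.deg q
      have key : ∀ r, r ∉ bd i q → ¬ fr i r t := by
        intro r hr hc
        apply hr
        rw [← htq]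
        exact mem_bd.2 hc
      have h5 : x ∉ bd i q ∨ x' ∉ bd i q := by
        by_contra hc
        push Not at hc
        have h6 : ({x, x', p} : Finset α) ⊆ bd i q := by
          intro s hs
          simp only [mem_insert, mem_singleton] at hs
          rcases hs with rfl | rfl | rfl
          · exact hc.1
          · exact hc.2
          · exact L.pq
        have h7 := card_le_card h6
        rw [card_insert_of_notMem, card_pair L.npx'.symm] at h7
        · omega
        · simp [L.nx, L.npx.symm]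
      have h2 : 2 ≤ (Fo i ε).card := by
        rcases h5 with h5 | h5
        · exact fo_two (hdst x L.dx) (hpx fun hc => absurd hc (key x h5)) htF
        · exact fo_two (hdst x' L.dx') (hpx' fun hc => absurd hc (key x' h5)) htF
      obtain ⟨s1, s2, s3, s4⟩ := L.shape hB (by omega)
      have h6 : x ∉ bd i q := by
        rw [s4, mem_singleton]
        exact L.npx.symm
      have h7 : x' ∉ bd i q := by
        rw [s4, mem_singleton]
        exact L.npx'.symm
      have := fo_three L.nx (hdst x L.dx) (hdst x' L.dx') (hpx fun hc => absurd hc (key x h6))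
        (hpx' fun hc => absurd hc (key x' h7)) htF
      omega
  · exfalso
    have hnf : ∀ r, ds i r = 1 → ¬ fr i r t := by
      intro r h1 hc
      have d1 := fr_ds hg hc
      exact htB (by omega)
    have := fo_three L.nx L.npx.symm L.npx'.symm
      (hpx fun hc => absurd hc (hnf x L.dx))
      (hpx' fun hc => absurd hc (hnf x' L.dx'))
      (hpp fun hc => absurd hc (hnf p L.dp))
    omega

/-- the unit is at `g` or at the common neighbour of `x` and `x'` -/
lemma main (L : L3 m ε x x' g p q) (hB : PB α i) (hF : m.FullX ∅) :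
    5 ≤ (NA i ε).card ∧ ∃ t, (t = g ∨ (corank t = i ∧ t ∈ bd i x ∧ t ∈ bd i x')) ∧
      ε = ind ({x, x', p, g, q} : Finset α) + ind {t} := by
  have a1 := L.dx
  have a2 := L.dx'
  have a3 := L.dp
  have a4 := L.dg
  have a5 := L.dq
  have hc5 : ({x, x', p, g, q} : Finset α).card = 5 := by
    rw [card_insert_of_notMem, card_insert_of_notMem, card_insert_of_notMem, card_pair L.nqg.symm]
    · simp only [mem_insert, mem_singleton, not_or]
      constructor
      · rintro rfl; omega
      · rintro rfl; omega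
    · simp only [mem_insert, mem_singleton, not_or]
      refine ⟨L.npx'.symm, ?_, ?_⟩
      · rintro rfl; omega
      · rintro rfl; omega
    · simp only [mem_insert, mem_singleton, not_or]
      refine ⟨L.nx, L.npx.symm, ?_, ?_⟩
      · rintro rfl; omega
      · rintro rfl; omega
  have hpos : ∀ r ∈ ({x, x', p, g, q} : Finset α), 0 < ε r := by
    intro r hr
    simp only [mem_insert, mem_singleton] at hr
    rcases hr with rfl | rfl | rfl | rfl | rfl
    · exact L.x0
    · exact L.x0'
    · exact L.p0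
    · exact L.g0
    · exact L.q0
  rcases eq_ind_or hpos (by rw [hc5]; exact L.cf.e6) with he | ⟨t, he⟩
  · exact (L.caseInd hB he).elim
  · have hval : ∀ r, ε r = (if r ∈ ({x, x', p, g, q} : Finset α) then 1 else 0) +
        (if r = t then 1 else 0) := by
      intro r
      have := congrFun he r
      simp only [Pi.add_apply] at this
      rw [this]
      unfold ind
      simp only [mem_singleton]
    by_cases ht0 : corank t = i
    · obtain ⟨h1, h2, h3⟩ := L.caseLev hB hF ht0 hval
      exact ⟨h3, t, Or.inr ⟨ht0, h1, h2⟩, he⟩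
    · obtain ⟨h1, h2⟩ := L.caseFar hB ht0 hval
      exact ⟨h2, t, Or.inl h1, he⟩

end L3

end Pool.Gauss
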