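import Pool.Agent.Work.MP_065141_co.K.V6ClsE2
import Pool.Agent.Work.MP_065141_co.K.V6Def

/-!
# Classification of the configurations of loss three and energy at most six: the theorem
-/

set_option autoImplicit false
set_option linter.unusedSectionVars false
set_option linter.unusedVariables false
open scoped Classical
open Finset Polynomial

namespace Pool.Gauss

variable {α : Type} [Fintype α] [PartialOrder α] {i : ℕ}

variable {m : Mat α i} {ε : α → ℕ}

lemma Cf.single_of (hB : PB α i) (h : Cf m ε) (hex : ¬ ∃ q ∈ Bx i ε, (bd i q).card = 2) {r s : α}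
    (hr : r ∈ Bx i ε) (hs : s ∈ bd i r) : bd i r = {s} := by
  have h5 := hB.deg r
  have h6 : (bd i r).card ≠ 2 := fun hc => hex ⟨r, hr, hc⟩
  have h7 : 0 < (bd i r).card := Finset.card_pos.2 ⟨s, hs⟩
  obtain ⟨u, hu⟩ := Finset.card_eq_one.1 (by omega : (bd i r).card = 1)
  rw [hu, mem_singleton] at hs
  rw [hu, hs]

/-- at least three elements next to level `i` -/
lemma Cf.three_le (hB : PB α i) (hF : m.FullX ∅) (h : Cf m ε)
    (h3 : (Fo i ε).card + 3 ≤ (Yd i ε).card) : 3 ≤ (Ax i ε).card := by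
  by_contra hcon
  have hA2 := h.two_le hB
  have hN4 := h.NA4 hB h3
  have hA : (Ax i ε).card = 2 := by omega
  by_cases hex : ∃ q ∈ Bx i ε, (bd i q).card = 2
  · obtain ⟨g, mg, hg2⟩ := hex
    have eg := mem_Bx.1 mg
    have hAx : bd i g = Ax i ε := by
      apply Finset.eq_of_subset_of_card_le (h.bdA hB mg)
      omega
    have hBB : BB i g = NA i ε := by
      unfold BB NA
      rw [hAx]
    have := hB.P3 g (mem_U2.2 ⟨eg.1, hg2⟩)
    rw [hBB] at this
    omega
  · obtain ⟨p, p', hne, hA⟩ := Finset.card_eq_two.1 hA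
    have hp : p ∈ Ax i ε := by rw [hA]; simp
    have hp' : p' ∈ Ax i ε := by rw [hA]; simp
    obtain ⟨q, hq, hpq⟩ := h.far' hB hF hp
    obtain ⟨q', hq', hpq'⟩ := h.far' hB hF hp'
    have g3 := mem_Ax.1 hp
    have g4 := mem_Ax.1 hp'
    have g1 := mem_Bx.1 hq
    have g2 := mem_Bx.1 hq'
    have S : SS i ε p p' q q' :=
      { dp := g3.1, dp' := g4.1, hne := hne, p0 := g3.2, p0' := g4.2
        ax := by
          intro r h1 h2
          have : r ∈ Ax i ε := mem_Ax.2 ⟨h1, h2⟩
          rw [hA, mem_insert, mem_singleton] at this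
          exact this
        sg := by
          intro r h1 h2
          have hr : r ∈ Bx i ε := mem_Bx.2 ⟨h1, h2⟩
          obtain ⟨s, hs⟩ := bd_nonempty hB (q := r) (by omega)
          have h5 := h.bdA hB hr hs
          have h6 := h.single_of hB hex hr hs
          rw [hA, mem_insert, mem_singleton] at h5
          rcases h5 with rfl | rfl
          · exact Or.inl h6
          · exact Or.inr h6
        dq := g1.1, dq' := g2.1, q0 := g1.2, q0' := g2.2, bq := h.single_of hB hex hq hpq,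
        bq' := h.single_of hB hex hq' hpq'
        good := h.good, e6 := h.e6, ls := h.ls }
    exact S.no3 hB h3

/-- at most three elements next to level `i` -/
lemma Cf.le_three (hB : PB α i) (hF : m.FullX ∅) (h : Cf m ε)
    (h3 : (Fo i ε).card + 3 ≤ (Yd i ε).card) : (Ax i ε).card ≤ 3 := by
  by_contra ha4
  have hadd := h.card_add hB
  have h2b := h.card_le_two hB hF
  obtain ⟨hFo, hYd⟩ := h.six hB (by omega)
  rw [hFo, hYd] at h3
  have h5 : NA i ε ⊆ (Bx i ε).biUnion (BB i) := by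
    intro t ht
    rw [mem_NA] at ht
    obtain ⟨p, hp, hpt⟩ := ht
    obtain ⟨q, hq, hpq⟩ := h.far' hB hF (mem_Ax.2 hp)
    rw [mem_biUnion]
    refine ⟨q, hq, ?_⟩
    unfold BB
    rw [mem_biUnion]
    exact ⟨p, hpq, hpt⟩
  have h6 := card_le_card h5
  have h7 : ((Bx i ε).biUnion (BB i)).card ≤ (Bx i ε).card * 3 := by
    refine (Finset.card_biUnion_le).trans ?_
    refine (Finset.sum_le_card_nsmul _ _ 3 ?_).trans ?_
    · intro q hq
      have eq := mem_Bx.1 hq
      have h8 := hB.deg q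
      rcases Nat.lt_or_ge (bd i q).card 2 with h9 | h9
      · unfold BB
        refine (Finset.card_biUnion_le).trans ?_
        refine (Finset.sum_le_card_nsmul _ _ 2 fun p _ => hB.deg p).trans ?_
        rw [smul_eq_mul]
        omega
      · exact hB.P3 q (mem_U2.2 ⟨eq.1, by omega⟩)
    · rw [smul_eq_mul]
  have h8 : (Bx i ε).card = 2 := by omega
  omega

/-- the first outcome: three minimal events -/
def ThreeP (i : ℕ) (ε : α → ℕ) : Prop :=
  ∃ q1 ∈ evtS α i, ∃ q2 ∈ evtS α i, ∃ q3 ∈ evtS α i,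
    Disjoint (BB i q1) (BB i q2) ∧ Disjoint (BB i q1) (BB i q3) ∧ Disjoint (BB i q2) (BB i q3) ∧
    ε = ind ({q1, q2, q3} ∪ bd i q1 ∪ bd i q2 ∪ bd i q3)

/-- the second outcome: a minimal event and a diamond of energy four -/
def OnePe (i : ℕ) (ε : α → ℕ) : Prop :=
  ∃ q ∈ evtS α i, ∃ y x x' g : α, Dia i y x x' g ∧ (BB i g).card = 3 ∧
    Disjoint (BB i q) (BB i g) ∧
    (ε = ind ({q} ∪ bd i q ∪ {g, x, x'}) + ind {g} ∨ ε = ind ({q} ∪ bd i q ∪ {g, x, x'}) + ind {y})

lemma BB_sing1 {p q : α} (h : bd i q = {p}) : BB i q = bd i p := by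
  unfold BB
  rw [h, singleton_biUnion]

lemma evt_of {p q : α} (h1 : ds i q = 2) (h2 : bd i q = {p}) (h3 : (bd i p).card = 2) :
    q ∈ evtS α i :=
  mem_evtS.2 ⟨h1, by rw [h2, card_singleton], by rw [BB_sing1 h2]; exact h3⟩

/-- all elements at distance two are single -/
lemma Cf.threeP (hB : PB α i) (hF : m.FullX ∅) (h : Cf m ε)
    (h3 : (Fo i ε).card + 3 ≤ (Yd i ε).card) (hA3 : (Ax i ε).card = 3)
    (hex : ¬ ∃ q ∈ Bx i ε, (bd i q).card = 2) : ThreeP i ε := by
  have hadd := h.card_add hB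
  have hfar : ∀ p ∈ Ax i ε, ∃ q ∈ Bx i ε, bd i q = {p} := by
    intro p hp
    obtain ⟨q, hq, hpq⟩ := h.far' hB hF hp
    exact ⟨q, hq, h.single_of hB hex hq hpq⟩
  choose! F hFB hFb using hfar
  have hinj : ∀ p ∈ Ax i ε, ∀ p' ∈ Ax i ε, F p = F p' → p = p' := by
    intro p hp p' hp' he
    have h1 := hFb p hp
    rw [he, hFb p' hp'] at h1
    exact (Finset.singleton_injective h1).symm
  have hle : (Ax i ε).card ≤ (Bx i ε).card :=
    Finset.card_le_card_of_injOn F (fun p hp => hFB p hp)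
      (fun p hp p' hp' he => hinj p hp p' hp' he)
  obtain ⟨hFo, hYd⟩ := h.six hB (by omega)
  have he := h.eq_six hB (by omega)
  rw [hFo, hYd] at h3
  have himg : (Ax i ε).image F = Bx i ε := by
    apply Finset.eq_of_subset_of_card_le
    · intro t ht
      rw [mem_image] at ht
      obtain ⟨r, hr, rfl⟩ := ht
      exact hFB r hr
    · rw [Finset.card_image_of_injOn (fun p hp p' hp' he => hinj p hp p' hp' he)]
      omega
  obtain ⟨p1, p2, p3, n12, n13, n23, hA⟩ := Finset.card_eq_three.1 hA3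
  have m1 : p1 ∈ Ax i ε := by rw [hA]; simp
  have m2 : p2 ∈ Ax i ε := by rw [hA]; simp
  have m3 : p3 ∈ Ax i ε := by rw [hA]; simp
  have hNA : NA i ε = bd i p1 ∪ bd i p2 ∪ bd i p3 := by
    unfold NA
    rw [hA, biUnion_insert, biUnion_insert, singleton_biUnion, union_assoc]
  rw [hNA] at h3
  have a1 := Finset.card_union_add_card_inter (bd i p1) (bd i p2)
  have a2 := Finset.card_union_add_card_inter (bd i p1 ∪ bd i p2) (bd i p3)
  have b1 := hB.deg p1
  have b2 := hB.deg p2
  have b3 := hB.deg p3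
  have c1 : (bd i p1 ∩ bd i p2).card = 0 := by omega
  have c2 : ((bd i p1 ∪ bd i p2) ∩ bd i p3).card = 0 := by omega
  have k1 : (bd i p1).card = 2 := by omega
  have k2 : (bd i p2).card = 2 := by omega
  have k3 : (bd i p3).card = 2 := by omega
  have hdis : ∀ s t : Finset α, (s ∩ t).card = 0 → Disjoint s t := by
    intro s t h
    rw [Finset.disjoint_iff_inter_eq_empty, ← Finset.card_eq_zero]
    exact h
  have d12 := hdis _ _ c1
  have d3 := hdis _ _ c2
  rw [Finset.disjoint_union_left] at d3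
  refine ⟨F p1, evt_of (mem_Bx.1 (hFB p1 m1)).1 (hFb p1 m1) k1, F p2,
    evt_of (mem_Bx.1 (hFB p2 m2)).1 (hFb p2 m2) k2, F p3,
    evt_of (mem_Bx.1 (hFB p3 m3)).1 (hFb p3 m3) k3, ?_, ?_, ?_, ?_⟩
  · rw [BB_sing1 (hFb p1 m1), BB_sing1 (hFb p2 m2)]
    exact d12
  · rw [BB_sing1 (hFb p1 m1), BB_sing1 (hFb p3 m3)]
    exact d3.1
  · rw [BB_sing1 (hFb p2 m2), BB_sing1 (hFb p3 m3)]
    exact d3.2
  · have hu : Ax i ε ∪ Bx i ε = {F p1, F p2, F p3} ∪ bd i (F p1) ∪ bd i (F p2) ∪ bd i (F p3) := by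
      rw [← himg, hA, hFb p1 m1, hFb p2 m2, hFb p3 m3]
      ext t
      simp only [mem_union, mem_insert, mem_singleton, mem_image, exists_eq_or_imp,
        exists_eq_left]
      constructor
      · rintro ((h | h | h) | (h | h | h))
        · exact Or.inl (Or.inl (Or.inr h))
        · exact Or.inl (Or.inr h)
        · exact Or.inr h
        · exact Or.inl (Or.inl (Or.inl (Or.inl h.symm)))
        · exact Or.inl (Or.inl (Or.inl (Or.inr (Or.inl h.symm))))
        · exact Or.inl (Or.inl (Or.inl (Or.inr (Or.inr h.symm))))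
      · rintro ((((h | h | h) | h) | h) | h)
        · exact Or.inr (Or.inl h.symm)
        · exact Or.inr (Or.inr (Or.inl h.symm))
        · exact Or.inr (Or.inr (Or.inr h.symm))
        · exact Or.inl (Or.inl h)
        · exact Or.inl (Or.inr (Or.inl h))
        · exact Or.inl (Or.inr (Or.inr h))
    rw [hu] at he
    exact he

/-- there is a double element at distance two -/
lemma Cf.oneP (hB : PB α i) (hF : m.FullX ∅) (h : Cf m ε)
    (h3 : (Fo i ε).card + 3 ≤ (Yd i ε).card) (hA3 : (Ax i ε).card = 3)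
    (hex : ∃ q ∈ Bx i ε, (bd i q).card = 2) : OnePe i ε := by
  have hadd := h.card_add hB
  obtain ⟨g, mg, hg2⟩ := hex
  have eg := mem_Bx.1 mg
  have ug : g ∈ U2 α i := mem_U2.2 ⟨eg.1, hg2⟩
  obtain ⟨p, mp, hpg, hAx, hNA⟩ := h.third hB hA3 mg hg2
  have ep := mem_Ax.1 mp
  obtain ⟨x, x', hne, hbg⟩ := Finset.card_eq_two.1 hg2
  have hxg : x ∈ bd i g := by rw [hbg]; simp
  have hxg' : x' ∈ bd i g := by rw [hbg]; simp
  have ex := mem_Ax.1 (h.bdA hB mg hxg)
  have ex' := mem_Ax.1 (h.bdA hB mg hxg')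
  have hpx : p ≠ x := fun hc => hpg (hc ▸ hxg)
  have hpx' : p ≠ x' := fun hc => hpg (hc ▸ hxg')
  obtain ⟨q, mq, hpq⟩ := h.far' hB hF mp
  have eq := mem_Bx.1 mq
  have hqg : q ≠ g := fun hc => hpg (hc ▸ hpq)
  have c1 := hB.P3 g ug
  have c2 := hB.deg p
  have hb2 : (Bx i ε).card = 2 := by
    have h4 : 2 ≤ (Bx i ε).card := by
      have : ({g, q} : Finset α) ⊆ Bx i ε := by
        intro t ht
        rw [mem_insert, mem_singleton] at ht
        rcases ht with rfl | rfl
        · exact mg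
        · exact mq
      have h5 := card_le_card this
      rwa [card_pair hqg.symm] at h5
    by_contra hcon
    obtain ⟨hFo, hYd⟩ := h.six hB (by omega)
    rw [hFo, hYd, hNA] at h3
    have h6 := Finset.card_union_le (BB i g) (bd i p)
    omega
  have L : L3 m ε x x' g p q :=
    { cf := h, l3 := h3, dx := ex.1, dx' := ex'.1, dp := ep.1, dg := eg.1, dq := eq.1, x0 := ex.2,
      x0' := ex'.2, p0 := ep.2, g0 := eg.2, q0 := eq.2, nx := hne, npx := hpx, npx' := hpx',
      nqg := hqg, bg := hbg, pq := hpq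
      ax := by
        intro r h1 h2
        have h4 := hAx r (mem_Ax.2 ⟨h1, h2⟩)
        rw [hbg, mem_insert, mem_singleton] at h4
        tauto
      bx := by
        have h5 : ({g, q} : Finset α) = Bx i ε := by
          apply Finset.eq_of_subset_of_card_le
          · intro t ht
            rw [mem_insert, mem_singleton] at ht
            rcases ht with rfl | rfl
            · exact mg
            · exact mq
          · rw [card_pair hqg.symm]
            omega
        intro r h1 h2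
        have h6 : r ∈ Bx i ε := mem_Bx.2 ⟨h1, h2⟩
        rw [← h5, mem_insert, mem_singleton] at h6
        exact h6 }
  obtain ⟨k5, t, ht, he⟩ := L.main hB hF
  obtain ⟨s1, s2, s3, s4⟩ := L.shape hB k5
  have hset : ({x, x', p, g, q} : Finset α) = {q} ∪ bd i q ∪ {g, x, x'} := by
    rw [s4]
    ext r
    simp only [mem_union, mem_insert, mem_singleton]
    tauto
  rw [hset] at he
  have hd : Disjoint (BB i q) (BB i g) := by
    rw [BB_sing1 s4]
    exact s3.symm
  have fxg : fr i x g := mem_bd.1 hxg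
  have fxg' : fr i x' g := mem_bd.1 hxg'
  have honly : ∀ r, fr i r g → r = x ∨ r = x' := by
    intro r hr
    have : r ∈ bd i g := mem_bd.2 hr
    rw [hbg, mem_insert, mem_singleton] at this
    exact this
  have hm : ∀ y, y ∈ bd i x → y ∈ bd i x' → Dia i y x x' g := fun y h1 h2 =>
    { hy := bd_lev hB.hg ex.1 h1, hx := mem_bd.1 h1, hx' := mem_bd.1 h2, hne := hne, hg := fxg,
      hg' := fxg', only := honly }
  refine ⟨q, evt_of eq.1 s4 s2, ?_⟩
  rcases ht with rfl | ⟨ht, h1, h2⟩
  · obtain ⟨y, y0, y', e1, e2, _⟩ := diamond_shape hB eg.1 hbg hne (by omega)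
    exact ⟨y0, x, x', t, hm y0 (by rw [e1]; simp) (by rw [e2]; simp), s1, hd, Or.inl he⟩
  · exact ⟨t, x, x', g, hm t h1 h2, s1, hd, Or.inr he⟩

/-- **the classification of the configurations of loss at least three and energy at most six** -/
theorem Cf.cls3 (hB : PB α i) (hF : m.FullX ∅) (h : Cf m ε)
    (h3 : (Fo i ε).card + 3 ≤ (Yd i ε).card) : ThreeP i ε ∨ OnePe i ε := by
  have h1 := h.three_le hB hF h3
  have h2 := h.le_three hB hF h3
  by_cases hex : ∃ q ∈ Bx i ε, (bd i q).card = 2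
  · exact Or.inr (h.oneP hB hF h3 (by omega) hex)
  · exact Or.inl (h.threeP hB hF h3 (by omega) hex)

end Pool.Gauss
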