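import Pool.Agent.Work.MP_065141_co.K.V6Def

/-!
# The objects of the laws V3, V5, V6: symmetric = below + above
-/

set_option autoImplicit false
set_option linter.unusedSectionVars false
open scoped Classical
open Finset

namespace Pool.Gauss

variable {α : Type} [Fintype α] [PartialOrder α]

lemma ds3_iff {i : ℕ} {q : α} : ds i q = 3 ↔ corank q + 3 = i ∨ corank q = i + 3 := by
  unfold ds
  omega

lemma ds2_iff {i : ℕ} {q : α} : ds i q = 2 ↔ corank q + 2 = i ∨ corank q = i + 2 := by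
  unfold ds
  omega

lemma ds1_iff {i : ℕ} {q : α} : ds i q = 1 ↔ corank q + 1 = i ∨ corank q = i + 1 := by
  unfold ds
  omega

namespace CtxK

variable (C : CtxK α) {b : ℕ}
include C

lemma evtS_below {q : α} (h : corank q = b + 2) : q ∈ evtS α b ↔ q ∈ PEv α b := by
  rw [mem_evtS, mem_PEv, ds2_iff, C.relp_bd_below (by omega), C.relp_BB_below h]
  exact ⟨fun h1 => ⟨h, h1.2⟩, fun h1 => ⟨Or.inr h, h1.2⟩⟩

lemma evtS_above {q : α} (h : corank q + 2 = b) : q ∈ evtS α b ↔ q ∈ QEv α b := by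
  rw [mem_evtS, mem_QEv, ds2_iff, C.relp_bd_above (by omega), C.relp_BB_above h]
  exact ⟨fun h1 => ⟨h, h1.2⟩, fun h1 => ⟨Or.inl h, h1.2⟩⟩

lemma c3S_below {q : α} (h : corank q = b + 2) : q ∈ c3S α b ↔ q ∈ NEv α b := by
  rw [mem_c3S, mem_NEv, ds2_iff, C.relp_bd_below (by omega), C.relp_BB_below h]
  exact ⟨fun h1 => ⟨h, h1.2⟩, fun h1 => ⟨Or.inr h, h1.2⟩⟩

lemma c3S_above {q : α} (h : corank q + 2 = b) : q ∈ c3S α b ↔ q ∈ VEv α b := by
  rw [mem_c3S, mem_VEv, ds2_iff, C.relp_bd_above (by omega), C.relp_BB_above h]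
  exact ⟨fun h1 => ⟨h, h1.2⟩, fun h1 => ⟨Or.inl h, h1.2⟩⟩

lemma evtS_eq : evtS α b = PEv α b ∪ QEv α b := C.relp_U1

lemma c3S_eq : c3S α b = NEv α b ∪ VEv α b := by
  ext q
  rw [mem_union]
  constructor
  · intro h
    rcases ds2_iff.1 (mem_c3S.1 h).1 with h1 | h1
    · exact Or.inr ((C.c3S_above h1).1 h)
    · exact Or.inl ((C.c3S_below h1).1 h)
  · rintro (h | h)
    · exact (C.c3S_below (mem_NEv.1 h).1).2 h
    · exact (C.c3S_above (mem_VEv.1 h).1).2 h

lemma jS_below {v : α} (h : corank v = b + 3) : v ∈ jS α b ↔ v ∈ JEv α b := by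
  have hq : ∀ q ∈ Pr v, corank q = b + 2 := by
    intro q hq
    have := C.corank_of_mem_Pr hq
    omega
  rw [mem_jS, mem_JEv, ds3_iff, C.relp_bd_below (by omega)]
  constructor
  · rintro ⟨_, h2, h3, h4⟩
    refine ⟨h, h2, fun q hqv => (C.evtS_below (hq q hqv)).1 (h3 q hqv), fun q h5 q' h6 h7 => ?_⟩
    have := h4 q h5 q' h6 h7
    rwa [C.relp_BB_below (hq q h5), C.relp_BB_below (hq q' h6)] at this
  · rintro ⟨_, h2, h3, h4⟩
    refine ⟨Or.inr h, h2, fun q hqv => (C.evtS_below (hq q hqv)).2 (h3 q hqv),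
      fun q h5 q' h6 h7 => ?_⟩
    rw [C.relp_BB_below (hq q h5), C.relp_BB_below (hq q' h6)]
    exact h4 q h5 q' h6 h7

lemma jS_above {v : α} (h : corank v + 3 = b) : v ∈ jS α b ↔ v ∈ JEv' α b := by
  have hq : ∀ q ∈ Ch v, corank q + 2 = b := by
    intro q hq
    have := C.corank_of_mem_Ch hq
    omega
  rw [mem_jS, mem_JEv', ds3_iff, C.relp_bd_above (by omega)]
  constructor
  · rintro ⟨_, h2, h3, h4⟩
    refine ⟨h, h2, fun q hqv => (C.evtS_above (hq q hqv)).1 (h3 q hqv), fun q h5 q' h6 h7 => ?_⟩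
    have := h4 q h5 q' h6 h7
    rwa [C.relp_BB_above (hq q h5), C.relp_BB_above (hq q' h6)] at this
  · rintro ⟨_, h2, h3, h4⟩
    refine ⟨Or.inl h, h2, fun q hqv => (C.evtS_above (hq q hqv)).2 (h3 q hqv),
      fun q h5 q' h6 h7 => ?_⟩
    rw [C.relp_BB_above (hq q h5), C.relp_BB_above (hq q' h6)]
    exact h4 q h5 q' h6 h7

lemma jtS_below {v : α} (h : corank v = b + 3) : v ∈ jtS α b ↔ v ∈ JtEv α b := by
  have hq : ∀ q ∈ Pr v, corank q = b + 2 := by
    intro q hq
    have := C.corank_of_mem_Pr hq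
    omega
  rw [mem_jtS, mem_JtEv, ds3_iff, C.relp_bd_below (by omega)]
  constructor
  · rintro ⟨_, h2, h3, h4⟩
    refine ⟨h, h2, fun q hqv => (C.evtS_below (hq q hqv)).1 (h3 q hqv), fun q h5 q' h6 h7 => ?_⟩
    have := h4 q h5 q' h6 h7
    rwa [C.relp_BB_below (hq q h5), C.relp_BB_below (hq q' h6),
      C.relp_bd_below (by rw [hq q h5]; omega), C.relp_bd_below (by rw [hq q' h6]; omega)] at this
  · rintro ⟨_, h2, h3, h4⟩
    refine ⟨Or.inr h, h2, fun q hqv => (C.evtS_below (hq q hqv)).2 (h3 q hqv),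
      fun q h5 q' h6 h7 => ?_⟩
    rw [C.relp_BB_below (hq q h5), C.relp_BB_below (hq q' h6),
      C.relp_bd_below (by rw [hq q h5]; omega), C.relp_bd_below (by rw [hq q' h6]; omega)]
    exact h4 q h5 q' h6 h7

lemma jtS_above {v : α} (h : corank v + 3 = b) : v ∈ jtS α b ↔ v ∈ JtEv' α b := by
  have hq : ∀ q ∈ Ch v, corank q + 2 = b := by
    intro q hq
    have := C.corank_of_mem_Ch hq
    omega
  rw [mem_jtS, mem_JtEv', ds3_iff, C.relp_bd_above (by omega)]
  constructor
  · rintro ⟨_, h2, h3, h4⟩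
    refine ⟨h, h2, fun q hqv => (C.evtS_above (hq q hqv)).1 (h3 q hqv), fun q h5 q' h6 h7 => ?_⟩
    have := h4 q h5 q' h6 h7
    rwa [C.relp_BB_above (hq q h5), C.relp_BB_above (hq q' h6),
      C.relp_bd_above (by have := hq q h5; omega),
      C.relp_bd_above (by have := hq q' h6; omega)] at this
  · rintro ⟨_, h2, h3, h4⟩
    refine ⟨Or.inl h, h2, fun q hqv => (C.evtS_above (hq q hqv)).2 (h3 q hqv),
      fun q h5 q' h6 h7 => ?_⟩
    rw [C.relp_BB_above (hq q h5), C.relp_BB_above (hq q' h6),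
      C.relp_bd_above (by have := hq q h5; omega), C.relp_bd_above (by have := hq q' h6; omega)]
    exact h4 q h5 q' h6 h7

lemma jS_eq : jS α b = JEv α b ∪ JEv' α b := by
  ext q
  rw [mem_union]
  constructor
  · intro h
    rcases ds3_iff.1 (mem_jS.1 h).1 with h1 | h1
    · exact Or.inr ((C.jS_above h1).1 h)
    · exact Or.inl ((C.jS_below h1).1 h)
  · rintro (h | h)
    · exact (C.jS_below (mem_JEv.1 h).1).2 h
    · exact (C.jS_above (mem_JEv'.1 h).1).2 h

lemma jtS_eq : jtS α b = JtEv α b ∪ JtEv' α b := by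
  ext q
  rw [mem_union]
  constructor
  · intro h
    rcases ds3_iff.1 (mem_jtS.1 h).1 with h1 | h1
    · exact Or.inr ((C.jtS_above h1).1 h)
    · exact Or.inl ((C.jtS_below h1).1 h)
  · rintro (h | h)
    · exact (C.jtS_below (mem_JtEv.1 h).1).2 h
    · exact (C.jtS_above (mem_JtEv'.1 h).1).2 h

lemma seS_eq : seS α b = SEv α b ∪ SEv' α b := by
  ext v
  rw [mem_union, mem_seS, mem_SEv, mem_SEv', ds3_iff]
  constructor
  · rintro ⟨h1 | h1, g, h2, h3⟩
    · rw [C.relp_bd_above (by omega)] at h3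
      have h4 := C.corank_of_mem_Ch (x := v) (y := g) (by rw [h3]; simp)
      exact Or.inr ⟨h1, g, (C.c3S_above (by omega)).1 h2, h3⟩
    · rw [C.relp_bd_below (by omega)] at h3
      have h4 := C.corank_of_mem_Pr (x := v) (y := g) (by rw [h3]; simp)
      exact Or.inl ⟨h1, g, (C.c3S_below (by omega)).1 h2, h3⟩
  · rintro (⟨h1, g, h2, h3⟩ | ⟨h1, g, h2, h3⟩)
    · exact ⟨Or.inr h1, g, (C.c3S_below (mem_NEv.1 h2).1).2 h2, by
        rw [C.relp_bd_below (by omega), h3]⟩
    · exact ⟨Or.inl h1, g, (C.c3S_above (mem_VEv.1 h2).1).2 h2, by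
        rw [C.relp_bd_above (by omega), h3]⟩

lemma xS_eq : xS α b = XEv α b ∪ XEv' α b := by
  ext v
  rw [mem_union, mem_xS, mem_XEv, mem_XEv', ds3_iff]
  constructor
  · rintro ⟨h1 | h1, w, h5, g, h2, h3, h4⟩
    · rw [C.relp_bd_above (by omega)] at h3
      have h6 := C.corank_of_mem_Ch (x := v) (y := g) (by rw [h3]; simp)
      have h7 := C.corank_of_mem_Ch (x := v) (y := w) (by rw [h3]; simp)
      rw [C.relp_BB_above (by omega), C.relp_BB_above (by omega)] at h4
      exact Or.inr ⟨h1, w, (C.evtS_above (by omega)).1 h5, g, (C.c3S_above (by omega)).1 h2, h3, h4⟩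
    · rw [C.relp_bd_below (by omega)] at h3
      have h6 := C.corank_of_mem_Pr (x := v) (y := g) (by rw [h3]; simp)
      have h7 := C.corank_of_mem_Pr (x := v) (y := w) (by rw [h3]; simp)
      rw [C.relp_BB_below (by omega), C.relp_BB_below (by omega)] at h4
      exact Or.inl ⟨h1, w, (C.evtS_below (by omega)).1 h5, g, (C.c3S_below (by omega)).1 h2, h3, h4⟩
  · rintro (⟨h1, w, h5, g, h2, h3, h4⟩ | ⟨h1, w, h5, g, h2, h3, h4⟩)
    · have h6 := (mem_PEv.1 h5).1
      have h7 := (mem_NEv.1 h2).1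
      refine ⟨Or.inr h1, w, (C.evtS_below h6).2 h5, g, (C.c3S_below h7).2 h2, ?_, ?_⟩
      · rw [C.relp_bd_below (by omega), h3]
      · rw [C.relp_BB_below h6, C.relp_BB_below h7]
        exact h4
    · have h6 := (mem_QEv.1 h5).1
      have h7 := (mem_VEv.1 h2).1
      refine ⟨Or.inl h1, w, (C.evtS_above h6).2 h5, g, (C.c3S_above h7).2 h2, ?_, ?_⟩
      · rw [C.relp_bd_above (by omega), h3]
      · rw [C.relp_BB_above h6, C.relp_BB_above h7]
        exact h4

lemma dS_eq : dS α b = DEv α b ∪ DEv' α b := by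
  ext s
  rw [mem_union, mem_dS, mem_DEv, mem_DEv']
  constructor
  · rintro ⟨h1, h2, h3⟩
    obtain ⟨g, g', hne, rfl⟩ := card_eq_two.1 h2
    have hg := h1 g (by simp)
    have hg' := h1 g' (by simp)
    have hbd := h3 g (by simp) g' (by simp)
    have hne1 : (bd b g).Nonempty := by
      rw [← card_pos, (mem_c3S.1 hg).2.1]
      omega
    obtain ⟨x, hx⟩ := hne1
    have hx' := hx
    rw [hbd] at hx'
    rcases ds2_iff.1 (mem_c3S.1 hg).1 with k1 | k1 <;>
      rcases ds2_iff.1 (mem_c3S.1 hg').1 with k2 | k2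
    · right
      refine ⟨?_, h2, ?_⟩
      · intro q hq
        rw [mem_insert, mem_singleton] at hq
        rcases hq with rfl | rfl
        · exact (C.c3S_above k1).1 hg
        · exact (C.c3S_above k2).1 hg'
      · intro q hq q' hq'
        have e1 := h3 q hq q' hq'
        have e2 : ∀ t ∈ ({g, g'} : Finset α), corank t + 2 = b := by
          intro t ht
          rw [mem_insert, mem_singleton] at ht
          rcases ht with rfl | rfl
          · exact k1
          · exact k2
        rwa [C.relp_bd_above (by have := e2 q hq; omega),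
          C.relp_bd_above (by have := e2 q' hq'; omega)] at e1
    · exfalso
      rw [C.relp_bd_above (by omega)] at hx
      rw [C.relp_bd_below (by omega)] at hx'
      have := C.corank_of_mem_Ch hx
      have := C.corank_of_mem_Pr hx'
      omega
    · exfalso
      rw [C.relp_bd_below (by omega)] at hx
      rw [C.relp_bd_above (by omega)] at hx'
      have := C.corank_of_mem_Pr hx
      have := C.corank_of_mem_Ch hx'
      omega
    · left
      refine ⟨?_, h2, ?_⟩
      · intro q hq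
        rw [mem_insert, mem_singleton] at hq
        rcases hq with rfl | rfl
        · exact (C.c3S_below k1).1 hg
        · exact (C.c3S_below k2).1 hg'
      · intro q hq q' hq'
        have e1 := h3 q hq q' hq'
        have e2 : ∀ t ∈ ({g, g'} : Finset α), corank t = b + 2 := by
          intro t ht
          rw [mem_insert, mem_singleton] at ht
          rcases ht with rfl | rfl
          · exact k1
          · exact k2
        rwa [C.relp_bd_below (by have := e2 q hq; omega),
          C.relp_bd_below (by have := e2 q' hq'; omega)] at e1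
  · rintro (⟨h1, h2, h3⟩ | ⟨h1, h2, h3⟩)
    · have e2 : ∀ t ∈ s, corank t = b + 2 := fun t ht => (mem_NEv.1 (h1 t ht)).1
      refine ⟨fun q hq => (C.c3S_below (e2 q hq)).2 (h1 q hq), h2, fun q hq q' hq' => ?_⟩
      rw [C.relp_bd_below (by have := e2 q hq; omega),
        C.relp_bd_below (by have := e2 q' hq'; omega)]
      exact h3 q hq q' hq'
    · have e2 : ∀ t ∈ s, corank t + 2 = b := fun t ht => (mem_VEv.1 (h1 t ht)).1
      refine ⟨fun q hq => (C.c3S_above (e2 q hq)).2 (h1 q hq), h2, fun q hq q' hq' => ?_⟩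
      rw [C.relp_bd_above (by have := e2 q hq; omega),
        C.relp_bd_above (by have := e2 q' hq'; omega)]
      exact h3 q hq q' hq'

end CtxK

end Pool.Gauss
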