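import Pool.Agent.Work.MP_065141_co.K.V6Inv
import Pool.Agent.Work.MP_065141_co.K.V6Cls
import Pool.Agent.Work.MP_065141_co.K.V3Obj

/-!
# The survivors of the involution

`cfV g v` (a single neighbour of a triple), `TwoObj` and `VPC` have no active diamond and no
exchange, and they exclude each other.  `surv_iff`: the configurations without active diamond and
without exchange are exactly these, if there are no objects `J`.
-/

set_option autoImplicit false
set_option linter.unusedSectionVars false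
set_option linter.unusedVariables false
open scoped Classical
open Finset Polynomial

namespace Pool.Gauss

variable {α : Type} [Fintype α] [PartialOrder α] {i : ℕ} {m : Mat α i} {ε : α → ℕ}

lemma ind_le_one (T : Finset α) (t : α) : ind T t ≤ 1 := by
  unfold ind
  split_ifs <;> omega

/-- an indicator without elements of level `i` has no active diamond -/
lemma not_hasAD_ind {T : Finset α} (hT : ∀ t ∈ T, corank t ≠ i) : ¬ HasAD i (ind T) := by
  rintro ⟨y, x, x', g, A⟩
  have h1 := A.A
  have h2 := A.E.px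
  have h3 := A.E.px'
  have h4 := ind_le_one T g
  have h5 : ind T y = 0 := ind_notMem fun h => hT y h A.D.hy
  unfold Act at h1
  omega

/-! ### objects of energy three -/

/-- an exchangeable tree is not inside an object of energy three -/
lemma Swp.not_sub (hB : PB α i) {T S : Finset α} (hT : isO3 i T) (hTS : T ⊆ S) {p q : α}
    (h : Swp i (ind S) p q) (hqT : q ∈ T) : False := by
  have hdp := h.dp
  have hdq := h.dq
  have hbq := h.bq
  rcases hT with ⟨r, hr, h3, rfl⟩ | ⟨a, b, t, ha, hba, hb, hbb, ht, hbt, rfl⟩ |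
    ⟨a, b, b', ha, hba, hb, hbb, hb', hbb', hne, rfl⟩
  · rw [mem_U2] at hr
    have hqr : q = r := by
      rw [mem_insert] at hqT
      rcases hqT with h1 | h1
      · exact h1
      · exfalso
        have := ds_of_mem_bd hB.hg hr.1 h1
        omega
    rw [hqr] at hbq
    rw [hbq] at hr
    simp at hr
  · simp only [mem_insert, mem_singleton] at hqT
    have hqb : q = b := by
      rcases hqT with rfl | rfl | rfl
      · omega
      · rfl
      · omega
    subst hqb
    have h1 : fr i q t := by rw [← mem_bd, hbt]; simp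
    have h2 := h.tq t h1
    rw [ind_mem (hTS (by simp))] at h2
    omega
  · simp only [mem_insert, mem_singleton] at hqT
    rcases hqT with rfl | rfl | rfl
    · omega
    · rw [hbb] at hbq
      have hpa : a = p := by simpa using hbq
      subst hpa
      have h1 : fr i a b' := by rw [← mem_bd, hbb']; simp
      have h2 := h.wp b' h1 (fun h => hne h.symm)
      rw [ind_mem (hTS (by simp))] at h2
      omega
    · rw [hbb'] at hbq
      have hpa : a = p := by simpa using hbq
      subst hpa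
      have h1 : fr i a b := by rw [← mem_bd, hbb]; simp
      have h2 := h.wp b h1 hne
      rw [ind_mem (hTS (by simp))] at h2
      omega

/-- an object of energy three contains no element at distance three with two nearer neighbours -/
lemma isO3.ds3 (hB : PB α i) {T : Finset α} (hT : isO3 i T) {v : α} (hv : v ∈ T)
    (hd : ds i v = 3) : (bd i v).card = 1 := by
  rcases hT with ⟨r, hr, h3, rfl⟩ | ⟨a, b, t, ha, hba, hb, hbb, ht, hbt, rfl⟩ |
    ⟨a, b, b', ha, hba, hb, hbb, hb', hbb', hne, rfl⟩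
  · rw [mem_U2] at hr
    rw [mem_insert] at hv
    rcases hv with h1 | h1
    · rw [h1] at hd
      omega
    · have := ds_of_mem_bd hB.hg hr.1 h1
      omega
  · simp only [mem_insert, mem_singleton] at hv
    rcases hv with rfl | rfl | rfl
    · omega
    · omega
    · rw [hbt, card_singleton]
  · simp only [mem_insert, mem_singleton] at hv
    rcases hv with rfl | rfl | rfl <;> omega

namespace TwoObj

lemma energy (hB : PB α i) (h : TwoObj i ε) : ∑ p, ε p = 6 := by
  obtain ⟨T, T', h1, h2, h3, _, rfl⟩ := h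
  rw [sum_ind, card_union_of_disjoint h3, (h1.props hB).2.2.1, (h2.props hB).2.2.1]

lemma not_hasAD (hB : PB α i) (h : TwoObj i ε) : ¬ HasAD i ε := by
  obtain ⟨T, T', h1, h2, _, _, rfl⟩ := h
  apply not_hasAD_ind
  intro t ht
  rw [mem_union] at ht
  rcases ht with ht | ht
  · exact (h1.props hB).2.1 t ht
  · exact (h2.props hB).2.1 t ht

lemma not_swp (hB : PB α i) (h : TwoObj i ε) {p q : α} : ¬ Swp i ε p q := by
  obtain ⟨T, T', h1, h2, _, _, rfl⟩ := h
  intro S
  have hq : q ∈ T ∪ T' := ind_pos.1 S.q0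
  rw [mem_union] at hq
  rcases hq with hq | hq
  · exact S.not_sub hB h1 subset_union_left hq
  · exact S.not_sub hB h2 subset_union_right hq

end TwoObj

namespace VPC

lemma lev (hB : PB α i) {v q g p : α} (hv : ds i v = 3) (hbv : bd i v = {q, g})
    (hbq : bd i q = {p}) (hp : (bd i p).card = 2) (hg : g ∈ U2 α i) :
    ds i q = 2 ∧ ds i g = 2 ∧ ds i p = 1 ∧ ∀ t ∈ bd i g, ds i t = 1 := by
  have d2 : ds i g = 2 := (mem_U2.1 hg).1
  have f1 : fr i q v := by rw [← mem_bd, hbv]; simp
  have f2 : fr i p q := by rw [← mem_bd, hbq]; simp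
  have e1 := fr_ds hB.hg f1
  have e2 := fr_ds hB.hg f2
  exact ⟨by omega, d2, by omega, fun t ht => ds_of_mem_bd hB.hg d2 ht⟩

lemma energy (hB : PB α i) (h : VPC i ε) : ∑ p, ε p = 6 := by
  obtain ⟨v, q, g, p, hv, hbv, hbq, hp, hg, h3, hdis, rfl⟩ := h
  obtain ⟨d1, d2, d3, d4⟩ := lev hB hv hbv hbq hp hg
  have hg2 := (mem_U2.1 hg).2
  have hBB : ∀ t ∈ bd i g, bd i t ⊆ BB i g := by
    intro t ht s hs
    unfold BB
    rw [mem_biUnion]
    exact ⟨t, ht, hs⟩
  have hpg : p ∉ bd i g := by
    intro h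
    have h1 := hBB p h
    obtain ⟨s, hs⟩ : (bd i p).Nonempty := by
      rw [← Finset.card_pos]
      omega
    exact Finset.disjoint_left.1 hdis hs (h1 hs)
  have hqg : q ≠ g := by
    rintro rfl
    rw [hbq, card_singleton] at hg2
    omega
  have n1 : v ≠ q := by rintro rfl; omega
  have n2 : v ≠ g := by rintro rfl; omega
  have n3 : v ≠ p := by rintro rfl; omega
  have n4 : q ≠ p := by rintro rfl; omega
  have n5 : g ≠ p := by rintro rfl; omega
  rw [sum_ind, card_union_of_disjoint, hg2]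
  · rw [card_insert_of_notMem (by simp [n1, n2, n3]), card_insert_of_notMem (by simp [hqg, n4]),
      card_pair n5]
  · rw [Finset.disjoint_left]
    intro t ht h2
    have := d4 t h2
    simp only [mem_insert, mem_singleton] at ht
    rcases ht with rfl | rfl | rfl | rfl
    · omega
    · omega
    · omega
    · exact hpg h2

lemma not_hasAD (hB : PB α i) (h : VPC i ε) : ¬ HasAD i ε := by
  obtain ⟨v, q, g, p, hv, hbv, hbq, hp, hg, h3, hdis, rfl⟩ := h
  obtain ⟨d1, d2, d3, d4⟩ := lev hB hv hbv hbq hp hg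
  apply not_hasAD_ind
  intro t ht hti
  rw [← ds_eq_zero] at hti
  rw [mem_union] at ht
  rcases ht with ht | ht
  · simp only [mem_insert, mem_singleton] at ht
    rcases ht with rfl | rfl | rfl | rfl <;> omega
  · have := d4 t ht
    omega

lemma not_swp (hB : PB α i) (h : VPC i ε) {p1 q1 : α} : ¬ Swp i ε p1 q1 := by
  obtain ⟨v, q, g, p, hv, hbv, hbq, hp, hg, h3, hdis, rfl⟩ := h
  obtain ⟨d1, d2, d3, d4⟩ := lev hB hv hbv hbq hp hg
  intro S
  have hq : q1 ∈ {v, q, g, p} ∪ bd i g := ind_pos.1 S.q0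
  have hd := S.dq
  rw [mem_union] at hq
  rcases hq with hq | hq
  · simp only [mem_insert, mem_singleton] at hq
    rcases hq with rfl | rfl | rfl | rfl
    · omega
    · have h1 : fr i q1 v := by rw [← mem_bd, hbv]; simp
      have h2 := S.tq v h1
      rw [ind_mem (by simp)] at h2
      omega
    · have h1 := (mem_U2.1 hg).2
      rw [S.bq, card_singleton] at h1
      omega
    · omega
  · have := d4 q1 hq
    omega

/-- the two kinds exclude each other -/
lemma not_twoObj (hB : PB α i) (h : VPC i ε) : ¬ TwoObj i ε := by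
  obtain ⟨v, q, g, p, hv, hbv, hbq, hp, hg, h3, hdis, rfl⟩ := h
  rintro ⟨T, T', h1, h2, _, _, he⟩
  have hqg : q ≠ g := by
    rintro rfl
    have hg2 := (mem_U2.1 hg).2
    rw [hbq, card_singleton] at hg2
    omega
  have hv1 : v ∈ T ∪ T' := by
    rw [← ind_pos, ← he, ind_pos]
    simp
  have hc : (bd i v).card = 2 := by rw [hbv, card_pair hqg]
  rw [mem_union] at hv1
  rcases hv1 with hv1 | hv1
  · have := h1.ds3 hB hv1 hv
    omega
  · have := h2.ds3 hB hv1 hv
    omega

end VPC

namespace isV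

lemma val_v (hB : PB α i) {g v : α} (h : isV i g v) : cfV i g v v = 2 := cfV_v hB.hg h

lemma ne_ind (hB : PB α i) {g v : α} (h : isV i g v) (T : Finset α) : cfV i g v ≠ ind T := by
  intro he
  have h1 := congrFun he v
  rw [cfV_v hB.hg h] at h1
  have := ind_le_one T v
  omega

lemma val_pos (hB : PB α i) {g v t : α} (h : isV i g v) (ht : 0 < cfV i g v t) :
    t = v ∨ t = g ∨ t ∈ bd i g := by
  by_contra hcon
  push Not at hcon
  rw [cfV_of_ne hcon.1, cfE4_zero hcon.2.1 hcon.2.2] at ht
  omega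

lemma not_hasAD (hB : PB α i) {g v : α} (h : isV i g v) : ¬ HasAD i (cfV i g v) := by
  rintro ⟨y, x, x', g', A⟩
  have hg := hB.hg
  have dv := h.ds_v hg
  have dg := h.ds_g
  have hbd : ∀ t ∈ bd i g, ds i t = 1 := fun t ht => ds_of_mem_bd hg dg ht
  have dg' := A.D.ds_g hg
  have pg := A.E.pg
  have h1 : g' = g := by
    rcases h.val_pos hB (show 0 < cfV i g v g' by omega) with h2 | h2 | h2
    · rw [h2] at dg'
      omega
    · exact h2
    · have := hbd g' h2
      omega
  subst h1
  have h2 := A.E.vy v h.fr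
  rw [cfV_v hg h] at h2
  have h3 : cfV i g' v y = 0 := by
    by_contra h4
    have hy := A.D.ds_y
    rcases h.val_pos hB (Nat.pos_of_ne_zero h4) with h5 | h5 | h5
    · rw [h5] at hy
      omega
    · rw [h5] at hy
      omega
    · have := hbd y h5
      omega
  omega

lemma not_swp (hB : PB α i) {g v : α} (h : isV i g v) {p q : α} : ¬ Swp i (cfV i g v) p q := by
  intro S
  have hg := hB.hg
  have dv := h.ds_v hg
  have dg := h.ds_g
  have dq := S.dq
  have h1 : q = g := by
    rcases h.val_pos hB S.q0 with h2 | h2 | h2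
    · rw [h2] at dq
      omega
    · exact h2
    · have := ds_of_mem_bd hg dg h2
      omega
  have h2 := (mem_U2.1 h.1).2
  rw [← h1, S.bq, card_singleton] at h2
  omega

lemma energy (hB : PB α i) {g v : α} (h : isV i g v) : ∑ p, cfV i g v p = 6 := by
  have h1 := (cfV_data hB.hg hB.hl (Classical.choice ⟨(⟨∅, by simp, by simp, by simp, by simp,
    by simp⟩ : Mat α i)⟩) h rfl).1
  unfold Mat.TT at h1
  rw [mem_filter, mem_piAntidiag] at h1
  exact h1.1.1

end isV

/-! ### the survivors -/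

/-- no objects `J`: the configurations `VPP` do not exist -/
lemma not_VPP (hB : PB α i) (hJ : jS α i = ∅) (hJt : jtS α i = ∅) : ¬ VPP i ε := by
  rintro ⟨v, q, q', p, p', hv, hbv, hne, hbq, hbq', hpp, hp, hp', h0⟩
  have hg := hB.hg
  have f1 : fr i q v := by rw [← mem_bd, hbv]; simp
  have f2 : fr i q' v := by rw [← mem_bd, hbv]; simp
  have d1 := fr_ds hg f1
  have d2 := fr_ds hg f2
  have B1 : BB i q = bd i p := by unfold BB; rw [hbq, singleton_biUnion]
  have B2 : BB i q' = bd i p' := by unfold BB; rw [hbq', singleton_biUnion]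
  have e1 : q ∈ evtS α i := by
    rw [mem_evtS, hbq, card_singleton, B1]
    exact ⟨by omega, rfl, hp⟩
  have e2 : q' ∈ evtS α i := by
    rw [mem_evtS, hbq', card_singleton, B2]
    exact ⟨by omega, rfl, hp'⟩
  have hev : ∀ t ∈ bd i v, t ∈ evtS α i := by
    intro t ht
    rw [hbv, mem_insert, mem_singleton] at ht
    rcases ht with rfl | rfl
    · exact e1
    · exact e2
  have hbb : bd i q ≠ bd i q' := by
    rw [hbq, hbq']
    intro h
    exact hpp (by simpa using h)
  by_cases hd : Disjoint (BB i q) (BB i q')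
  · have : v ∈ jS α i := by
      rw [mem_jS]
      refine ⟨hv, by rw [hbv, card_pair hne], hev, ?_⟩
      intro t ht t' ht' htt
      rw [hbv, mem_insert, mem_singleton] at ht ht'
      rcases ht with rfl | rfl <;> rcases ht' with rfl | rfl
      · exact absurd rfl htt
      · exact hd
      · exact hd.symm
      · exact absurd rfl htt
    rw [hJ] at this
    simp at this
  · have : v ∈ jtS α i := by
      rw [mem_jtS]
      refine ⟨hv, by rw [hbv, card_pair hne], hev, ?_⟩
      intro t ht t' ht' htt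
      rw [hbv, mem_insert, mem_singleton] at ht ht'
      rcases ht with rfl | rfl <;> rcases ht' with rfl | rfl
      · exact absurd rfl htt
      · exact ⟨hbb, hd⟩
      · exact ⟨hbb.symm, fun h => hd h.symm⟩
      · exact absurd rfl htt
    rw [hJt] at this
    simp at this

/-- **the survivors** -/
theorem surv_iff (hB : PB α i) (hF : m.FullX ∅) (hJ : jS α i = ∅) (hJt : jtS α i = ∅)
    (h : Cf m ε) : (¬ HasAD i ε ∧ ¬ HasSwp i allZ ε) ↔
      ((∃ g v, isV i g v ∧ ε = cfV i g v) ∨ TwoObj i ε ∨ VPC i ε) := by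
  constructor
  · rintro ⟨h1, h2⟩
    rcases cls6 hB hF h with h3 | h3 | ⟨p, q, h3⟩ | h3 | h3 | h3
    · exact absurd h3 h1
    · exact Or.inl h3
    · exact absurd (hasSwp_iff.2 ⟨p, q, h3, trivial⟩) h2
    · exact Or.inr (Or.inl h3)
    · exact absurd h3 (not_VPP hB hJ hJt)
    · exact Or.inr (Or.inr h3)
  · rintro (⟨g, v, h1, rfl⟩ | h1 | h1)
    · refine ⟨h1.not_hasAD hB, ?_⟩
      rw [hasSwp_iff]
      rintro ⟨p, q, S, _⟩
      exact h1.not_swp hB S
    · refine ⟨h1.not_hasAD hB, ?_⟩
      rw [hasSwp_iff]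
      rintro ⟨p, q, S, _⟩
      exact h1.not_swp hB S
    · refine ⟨h1.not_hasAD hB, ?_⟩
      rw [hasSwp_iff]
      rintro ⟨p, q, S, _⟩
      exact h1.not_swp hB S

/-- the survivors have energy six -/
theorem surv_energy (hB : PB α i) (hF : m.FullX ∅) (hJ : jS α i = ∅) (hJt : jtS α i = ∅)
    (h : Cf m ε) (h1 : ¬ HasAD i ε) (h2 : ¬ HasSwp i allZ ε) : ∑ p, ε p = 6 := by
  rcases (surv_iff hB hF hJ hJt h).1 ⟨h1, h2⟩ with ⟨g, v, h3, rfl⟩ | h3 | h3
  · exact h3.energy hB
  · exact h3.energy hB
  · exact h3.energy hB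

/-- the three kinds of survivors exclude each other -/
theorem surv_excl (hB : PB α i) {g v : α} (h : isV i g v) :
    ¬ TwoObj i (cfV i g v) ∧ ¬ VPC i (cfV i g v) := by
  constructor
  · rintro ⟨T, T', _, _, _, _, he⟩
    exact h.ne_ind hB _ he
  · rintro ⟨v', q, g', p, _, _, _, _, _, _, _, he⟩
    exact h.ne_ind hB _ he

/-- the sum over the survivors -/
theorem sum_surv (hB : PB α i) (hF : m.FullX ∅) (hJ : jS α i = ∅) (hJt : jtS α i = ∅) {n : ℕ}
    (hn : (lev α i).card = n) (f : (α → ℕ) → ℤ) :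
    ∑ ε ∈ ((univ : Finset α).piAntidiag 6).filter
        (fun ε => m.Red ε ∧ GoodE i ε ∧ (pkF i ε).card + 2 = n ∧ ¬ HasAD i ε ∧
          ¬ HasSwp i allZ ε), f ε =
      ∑ ε ∈ (m.TT 6 n).filter (fun ε => ∃ g v, isV i g v ∧ ε = cfV i g v), f ε +
      ∑ ε ∈ (m.TT 6 n).filter (fun ε => TwoObj i ε), f ε +
      ∑ ε ∈ (m.TT 6 n).filter (fun ε => VPC i ε), f ε := by
  rw [← Finset.sum_union, ← Finset.sum_union]
  · apply Finset.sum_congr ?_ (fun _ _ => rfl)
    ext ε
    rw [mem_union, mem_union, mem_filter, mem_filter, mem_filter, mem_filter, m.mem_TT,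
      mem_piAntidiag]
    constructor
    · rintro ⟨⟨h1, _⟩, h2, h3, h4, h5⟩
      have h1' : ∑ p, ε p = 6 := h1
      have hc : Cf m ε := (cf_iff hB hn).2 ⟨h3, h2, by omega, by omega⟩
      have ht : ∑ p, ε p = 6 ∧ m.Red ε ∧ GoodE i ε ∧ (pkF i ε).card + 2 = n := ⟨h1', h2, h3, h4⟩
      rcases (surv_iff hB hF hJ hJt hc).1 h5 with h6 | h6 | h6
      · exact Or.inl (Or.inl ⟨ht, h6⟩)
      · exact Or.inl (Or.inr ⟨ht, h6⟩)
      · exact Or.inr ⟨ht, h6⟩
    · intro h
      have h1 : (∑ p, ε p = 6 ∧ m.Red ε ∧ GoodE i ε ∧ (pkF i ε).card + 2 = n) ∧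
          ((∃ g v, isV i g v ∧ ε = cfV i g v) ∨ TwoObj i ε ∨ VPC i ε) := by
        rcases h with (h | h) | h
        · exact ⟨h.1, Or.inl h.2⟩
        · exact ⟨h.1, Or.inr (Or.inl h.2)⟩
        · exact ⟨h.1, Or.inr (Or.inr h.2)⟩
      obtain ⟨⟨a1, a2, a3, a4⟩, a5⟩ := h1
      have hc : Cf m ε := (cf_iff hB hn).2 ⟨a3, a2, by omega, by omega⟩
      exact ⟨⟨a1, fun _ _ => mem_univ _⟩, a2, a3, a4, (surv_iff hB hF hJ hJt hc).2 a5⟩
  · rw [Finset.disjoint_left]
    intro ε h1 h2
    rw [mem_union, mem_filter, mem_filter] at h1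
    rw [mem_filter] at h2
    rcases h1 with ⟨_, g, v, h3, rfl⟩ | h1
    · exact (surv_excl hB h3).2 h2.2
    · exact h2.2.not_twoObj hB h1.2
  · rw [Finset.disjoint_left]
    intro ε h1 h2
    rw [mem_filter] at h1 h2
    obtain ⟨_, g, v, h3, rfl⟩ := h1
    exact (surv_excl hB h3).1 h2.2

end Pool.Gauss
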