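import Pool.Agent.Work.MP_065141_co.K.V6ClsA
import Pool.Agent.Work.MP_065141_co.K.PlnV5
import Pool.Agent.Work.MP_065141_co.K.V6Def

/-!
# The hypotheses of the classification at a perfect base

`h : Pln lo hi i f`, `i ≤ HT α`, all levels `< i` perfect, `b + 1 ≤ i` (so `b = i - 1` is allowed:
then the rows `≥ b + 2` are arbitrary).
* `Pln.pb : PB α b`, `Pln.exists_full : ∃ m : Mat α b, m.FullX ∅`, `Pln.noPar : NoPar α b`;
* `NoD α b`: no two elements two levels below level `b` with the same two upper covers over three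
  elements of level `b` (no `D`); `Pln.dbl3 : NoD α b → ...` the symmetric form (nothing to assume
  above level `b`);  `Pln.noDbl` : `NoDbl α b` for `b + 2 ≤ i`;
* `AD.unique_cf`, `togA_eq_cf` : the active diamond of a configuration of `Cf` is unique without the
  hypothesis `NoDbl` (which may fail for diamonds over two elements of level `b` if `b = i - 1`).
-/

set_option autoImplicit false
set_option linter.unusedSectionVars false
set_option linter.unusedVariables false
open scoped Classical
open Finset Polynomial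

namespace Pool.Gauss

variable {α : Type} [Fintype α] [PartialOrder α]

/-- no two elements two levels below level `b` with the same two upper covers over three elements
of level `b` -/
def NoD (α : Type) [Fintype α] [PartialOrder α] (b : ℕ) : Prop :=
  ∀ w w' : α, corank w = b + 2 → corank w' = b + 2 → (Pr w).card = 2 → Pr w = Pr w' →
    (Pr2 w).card = 3 → w = w'

/-- no two elements at distance two with the same two nearer neighbours over three elements of
level `i` -/
def Dbl3 (α : Type) [Fintype α] [PartialOrder α] (i : ℕ) : Prop :=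
  ∀ g g' : α, g ∈ U2 α i → bd i g = bd i g' → ds i g' = 2 → (BB i g).card = 3 → g = g'

/-- `Dbl3` says that there are no doubled triples -/
lemma dbl3_iff {i : ℕ} : Dbl3 α i ↔ dS α i = ∅ := by
  constructor
  · intro h
    rw [eq_empty_iff_forall_notMem]
    intro s hs
    rw [mem_dS] at hs
    obtain ⟨hc, h2, he⟩ := hs
    obtain ⟨g, g', hne, rfl⟩ := card_eq_two.1 h2
    have hg := hc g (by simp)
    have hg' := hc g' (by simp)
    rw [mem_c3S] at hg hg'
    exact hne (h g g' (mem_U2.2 ⟨hg.1, hg.2.1⟩) (he g (by simp) g' (by simp)) hg'.1 hg.2.2)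
  · intro h g g' hg he hg' h3
    by_contra hne
    rw [mem_U2] at hg
    have h1 : ({g, g'} : Finset α) ∈ dS α i := by
      rw [mem_dS]
      refine ⟨?_, card_pair hne, ?_⟩
      · intro q hq
        rw [mem_insert, mem_singleton] at hq
        rw [mem_c3S]
        rcases hq with rfl | rfl
        · exact ⟨hg.1, hg.2, h3⟩
        · refine ⟨hg', by rw [← he]; exact hg.2, ?_⟩
          unfold BB at h3 ⊢
          rw [← he]
          exact h3
      · intro q hq q' hq'
        rw [mem_insert, mem_singleton] at hq hq'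
        rcases hq with rfl | rfl <;> rcases hq' with rfl | rfl
        · rfl
        · exact he
        · exact he.symm
        · rfl
    rw [h] at h1
    simp at h1

/-- `NoD` says that there are no doubled common children -/
lemma noD_iff {b : ℕ} : NoD α b ↔ DEv α b = ∅ := by
  constructor
  · intro h
    rw [eq_empty_iff_forall_notMem]
    intro s hs
    unfold DEv at hs
    rw [mem_filter, mem_powersetCard] at hs
    obtain ⟨⟨hc, h2⟩, he⟩ := hs
    obtain ⟨g, g', hne, rfl⟩ := card_eq_two.1 h2
    have hg := hc (mem_insert_self g {g'})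
    have hg' := hc (mem_insert_of_mem (mem_singleton_self g'))
    rw [mem_NEv] at hg hg'
    exact hne (h g g' hg.1 hg'.1 hg.2.1 (he g (by simp) g' (by simp)) hg.2.2)
  · intro h g g' c1 c2 h2 he h3
    by_contra hne
    have h1 : ({g, g'} : Finset α) ∈ DEv α b := by
      unfold DEv
      rw [mem_filter, mem_powersetCard]
      refine ⟨⟨?_, card_pair hne⟩, ?_⟩
      · intro q hq
        rw [mem_insert, mem_singleton] at hq
        rw [mem_NEv]
        rcases hq with rfl | rfl
        · exact ⟨c1, h2, h3⟩
        · refine ⟨c2, by rw [← he]; exact h2, ?_⟩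
          unfold Pr2 at h3 ⊢
          rw [← he]
          exact h3
      · intro q hq q' hq'
        rw [mem_insert, mem_singleton] at hq hq'
        rcases hq with rfl | rfl <;> rcases hq' with rfl | rfl
        · rfl
        · exact he
        · exact he.symm
        · rfl
    rw [h] at h1
    simp at h1

namespace Pln

variable {lo hi : α → ℕ → ℕ} {i : ℕ} {f : α → ℕ → ℕ → α}

/-- different elements of row `b - 1` do not cover the same pair -/
lemma Ch_inj (h : Pln lo hi i f) (C : CtxK α) {b : ℕ} (hb : b ≤ i) {z z' : α}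
    (hz : corank z + 1 = b) (hz' : corank z' + 1 = b) (h2 : (Ch z).card = 2)
    (he : Ch z = Ch z') : z = z' := by
  by_contra hne
  have hm : 2 ≤ mD b (Ch z) := by
    unfold mD
    have h3 : ({z, z'} : Finset α) ⊆ (lev' α b).filter fun t => Ch t = Ch z := by
      intro t ht
      rw [mem_insert, mem_singleton] at ht
      rw [mem_filter, mem_lev']
      rcases ht with rfl | rfl
      · exact ⟨by omega, rfl⟩
      · exact ⟨by omega, he.symm⟩
    have h4 := card_le_card h3
    rwa [card_pair hne] at h4
  obtain ⟨a, c, ha, h1, h2', h3⟩ := (h.mono hb).mD_pos C h2 (by omega)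
  have h4 := (h.mono hb).mD_one C ha h1 h2'
  rw [← h3] at h4
  omega

/-- different elements of row `b + 1` are not covered by the same pair, if level `b` is perfect -/
lemma Pr_inj2 (h : Pln lo hi i f) (C : CtxK α) {b : ℕ} (hb : b ≤ i) (hP : Perf α b) {x x' : α}
    (hx : corank x = b + 1) (hx' : corank x' = b + 1) (h2 : (Pr x).card = 2)
    (he : Pr x = Pr x') : x = x' := by
  by_contra hne
  have hm : 2 ≤ mC b (Pr x) := by
    unfold mC
    have h3 : ({x, x'} : Finset α) ⊆ (lev α (b + 1)).filter fun t => Pr t = Pr x := by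
      intro t ht
      rw [mem_insert, mem_singleton] at ht
      rw [mem_filter, mem_lev]
      rcases ht with rfl | rfl
      · exact ⟨hx, rfl⟩
      · exact ⟨hx', he.symm⟩
    have h4 := card_le_card h3
    rwa [card_pair hne] at h4
  rw [hP _ h2] at hm
  obtain ⟨a, c, ha, h1, h2', h3⟩ := (h.mono hb).mD_pos C h2 (by omega)
  have h4 := (h.mono hb).mD_one C ha h1 h2'
  rw [← h3] at h4
  omega

/-- **the properties of a perfect base** -/
theorem pb (h : Pln lo hi i f) (C : CtxK α) (hiH : i ≤ HT α) (hP : ∀ j < i, Perf α j)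
    {b : ℕ} (hb : b + 1 ≤ i) : PB α b where
  hg := C.grd
  hl := C.relp_lower (by omega)
  deg := fun p => C.relp_deg p
  dy := by
    intro y p1 p2 p3 h1 h2 h3 hy hs
    by_contra hne
    push Not at hne
    have key : ∀ S : Finset α, S.card ≤ 2 → p1 ∈ S → p2 ∈ S → p3 ∈ S → False := by
      intro S hS m1 m2 m3
      have h4 : ({p1, p2, p3} : Finset α) ⊆ S := by
        intro t ht
        simp only [mem_insert, mem_singleton] at ht
        rcases ht with rfl | rfl | rfl
        · exact m1
        · exact m2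
        · exact m3
      have h5 := card_le_card h4
      rw [card_insert_of_notMem (by simp [hne.1, hne.2.1]), card_pair hne.2.2] at h5
      omega
    rcases hs with ⟨s1, s2, s3⟩ | ⟨s1, s2, s3⟩
    · exact key (Pr y) (C.pr_le y) (Gauss.mem_Pr.2 (fr_above' C.grd h1 s1).2)
        (Gauss.mem_Pr.2 (fr_above' C.grd h2 s2).2) (Gauss.mem_Pr.2 (fr_above' C.grd h3 s3).2)
    · exact key (Ch y) (C.ch_le y) (Gauss.mem_Ch.2 (fr_below' C.grd h1 s1).2)
        (Gauss.mem_Ch.2 (fr_below' C.grd h2 s2).2) (Gauss.mem_Ch.2 (fr_below' C.grd h3 s3).2)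
  P3 := fun q hq => C.P3K (by omega) (hP b (by omega)) hq
  nb := by
    intro q hq h3 p hp
    have h4 := (h.frm_zero C hiH hP b hb).2.2
    have h5 : (U2 α b).filter (fun q => bad3 b q) = ∅ := by
      rw [C.relp_bad, h4.1, h4.2, empty_union]
    by_contra h6
    have h7 : (bd b p).card = 1 := by
      have h8 := C.relp_deg (i := b) p
      have h9 : 0 < (bd b p).card := by
        rw [mem_U2] at hq
        have h10 := ds_of_mem_bd C.grd hq.1 hp
        rw [Finset.card_pos]
        obtain ⟨t, ht⟩ := exists_near C.grd (C.relp_lower (i := b) (by omega)) (p := p)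
          (fun h => by rw [ds_eq_zero.2 h] at h10; omega)
        exact ⟨t, mem_bd.2 ht⟩
      omega
    have h8 : q ∈ (U2 α b).filter (fun q => bad3 b q) := by
      rw [mem_filter]
      exact ⟨hq, h3, p, hp, h7⟩
    rw [h5] at h8
    simp at h8

/-- the matching of a perfect base -/
theorem exists_full (C : CtxK α) (hiH : i ≤ HT α) (hP : ∀ j < i, Perf α j)
    {b : ℕ} (hb : b + 1 ≤ i) : ∃ m : Mat α b, m.FullX ∅ :=
  C.relp_perf (by omega) (hP b (by omega))

/-- a set with at most two elements containing two different elements -/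
lemma eq_pair_of_card_le {S : Finset α} (hS : S.card ≤ 2) {a b : α} (hab : a ≠ b) (ha : a ∈ S)
    (hb : b ∈ S) : S = {a, b} := by
  symm
  apply Finset.eq_of_subset_of_card_le
  · intro t ht
    rw [mem_insert, mem_singleton] at ht
    rcases ht with rfl | rfl
    · exact ha
    · exact hb
  · rw [card_pair hab]
    exact hS

/-- **no parallel elements** next to a perfect base -/
theorem noPar (h : Pln lo hi i f) (C : CtxK α) (hP : ∀ j < i, Perf α j)
    {b : ℕ} (hb : b + 1 ≤ i) : NoPar α b := by
  intro x x' y y' hy hy' hne h1 h2 h3 h4 hs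
  by_contra hyy
  have e1 := fr_ds C.grd h1
  have e2 := fr_ds C.grd h2
  rw [ds_eq_zero.2 hy] at e1 e2
  by_cases hx : b < corank x
  · have hx' := hs.1 hx
    have c1 : corank x = b + 1 := by unfold ds at e1; omega
    have c2 : corank x' = b + 1 := by unfold ds at e2; omega
    have m1 : Pr x = {y, y'} := eq_pair_of_card_le (C.pr_le x) hyy
      (Gauss.mem_Pr.2 (fr_below' C.grd h1 hx).2) (Gauss.mem_Pr.2 (fr_below' C.grd h3 hx).2)
    have m2 : Pr x' = {y, y'} := eq_pair_of_card_le (C.pr_le x') hyy
      (Gauss.mem_Pr.2 (fr_below' C.grd h2 hx').2) (Gauss.mem_Pr.2 (fr_below' C.grd h4 hx').2)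
    exact hne (h.Pr_inj2 C (by omega) (hP b (by omega)) c1 c2 (by rw [m1, card_pair hyy])
      (m1.trans m2.symm))
  · have hx' : ¬ b < corank x' := fun h => hx (hs.2 h)
    have c1 : corank x + 1 = b := by unfold ds at e1; omega
    have c2 : corank x' + 1 = b := by unfold ds at e2; omega
    have m1 : Ch x = {y, y'} := eq_pair_of_card_le (C.ch_le x) hyy
      (Gauss.mem_Ch.2 (fr_above' C.grd h1 (by omega)).2) (Gauss.mem_Ch.2 (fr_above' C.grd h3 (by omega)).2)
    have m2 : Ch x' = {y, y'} := eq_pair_of_card_le (C.ch_le x') hyy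
      (Gauss.mem_Ch.2 (fr_above' C.grd h2 (by omega)).2) (Gauss.mem_Ch.2 (fr_above' C.grd h4 (by omega)).2)
    exact hne (h.Ch_inj C (by omega) c1 c2 (by rw [m1, card_pair hyy]) (m1.trans m2.symm))

/-- elements at distance two with the same two nearer neighbours are on the same side -/
lemma same_side (C : CtxK α) {b : ℕ} {g g' : α} (hg : g ∈ U2 α b) (hg' : ds b g' = 2)
    (he : bd b g = bd b g') : (corank g + 2 = b ∧ corank g' + 2 = b) ∨
      (corank g = b + 2 ∧ corank g' = b + 2) := by
  rw [mem_U2] at hg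
  obtain ⟨t, ht⟩ : (bd b g).Nonempty := by
    rw [← Finset.card_pos]
    omega
  have h1 := side_of_mem_bd C.grd hg.1 ht
  rw [he] at ht
  have h2 := side_of_mem_bd C.grd hg' ht
  have h3 := CtxK.relp_ds.1 hg.1
  have h4 := CtxK.relp_ds.1 hg'
  omega

/-- no doubled diamonds over three elements: only the elements below level `b` matter -/
theorem dbl3 (h : Pln lo hi i f) (C : CtxK α) {b : ℕ} (hb : b + 1 ≤ i) (hD : NoD α b) :
    Dbl3 α b := by
  intro g g' hg he hg' h3
  have hg2 := (mem_U2.1 hg).2
  rcases same_side C hg hg' he with ⟨c1, c2⟩ | ⟨c1, c2⟩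
  · rw [C.relp_bd_above (by omega), C.relp_bd_above (by omega)] at he
    rw [C.relp_bd_above (by omega)] at hg2
    exact h.Ch_inj C (b := b - 1) (by omega) (by omega) (by omega) hg2 he
  · rw [C.relp_bd_below (by omega), C.relp_bd_below (by omega)] at he
    rw [C.relp_bd_below (by omega)] at hg2
    rw [C.relp_BB_below c1] at h3
    exact hD g g' c1 c2 hg2 he h3

/-- no doubled diamonds at all, if level `b + 1` is perfect, too -/
theorem noDbl (h : Pln lo hi i f) (C : CtxK α) (hP : ∀ j < i, Perf α j)
    {b : ℕ} (hb : b + 2 ≤ i) : NoDbl α b := by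
  intro y x x' g g' D D'
  have hbg : bd b g = {x, x'} := eq_pair_of_card_le (C.relp_deg g) D.hne (mem_bd.2 D.hg)
    (mem_bd.2 D.hg')
  have hbg' : bd b g' = {x, x'} := eq_pair_of_card_le (C.relp_deg g') D.hne (mem_bd.2 D'.hg)
    (mem_bd.2 D'.hg')
  have hg : g ∈ U2 α b := by
    rw [mem_U2, hbg, card_pair D.hne]
    exact ⟨D.ds_g C.grd, rfl⟩
  have hg2 := (mem_U2.1 hg).2
  have he := hbg.trans hbg'.symm
  rcases same_side C hg (D'.ds_g C.grd) he with ⟨c1, c2⟩ | ⟨c1, c2⟩
  · rw [C.relp_bd_above (by omega), C.relp_bd_above (by omega)] at he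
    rw [C.relp_bd_above (by omega)] at hg2
    exact h.Ch_inj C (b := b - 1) (by omega) (by omega) (by omega) hg2 he
  · rw [C.relp_bd_below (by omega), C.relp_bd_below (by omega)] at he
    rw [C.relp_bd_below (by omega)] at hg2
    exact h.Pr_inj2 C (b := b + 1) (by omega) (hP _ (by omega)) (by omega) (by omega) hg2 he

/-- in the perfect rows there is no `D` -/
theorem noD (h : Pln lo hi i f) (C : CtxK α) (hP : ∀ j < i, Perf α j)
    {b : ℕ} (hb : b + 2 ≤ i) : NoD α b := fun w w' c1 c2 h2 he _ =>
  h.Pr_inj2 C (b := b + 1) (by omega) (hP _ (by omega)) (by omega) (by omega) h2 he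

end Pln

/-! ### uniqueness of the active diamond in a configuration of the classification -/

section unique

variable {i : ℕ} {m : Mat α i} {ε : α → ℕ}

/-- uniqueness of the active diamond, with a weak hypothesis on doubled diamonds -/
theorem AD.unique' (hgr : Grad α) (hpar : NoPar α i) {y x x' g y₂ x₂ x₂' g₂ : α}
    (h : AD i y x x' g ε) (h₂ : AD i y₂ x₂ x₂' g₂ ε) (hs : ∑ p, ε p ≤ 6)
    (hdbl : ∀ g', AD i y x x' g' ε → g = g') :
    y = y₂ ∧ g = g₂ := by
  have D := h.D
  have D₂ := h₂.D
  have E := h.E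
  have E₂ := h₂.E
  have sx := D.ds_x hgr
  have sx' := D.ds_x' hgr
  have sg := D.ds_g hgr
  have sy := D.ds_y
  have tx := D₂.ds_x hgr
  have tx' := D₂.ds_x' hgr
  have tg := D₂.ds_g hgr
  have ty := D₂.ds_y
  have q1 := h.sum4
  have q2 := h₂.sum4
  have side := D.side hgr
  have side₂ := D₂.side hgr
  -- the same pair of elements next to level `i`
  have hpair : (x₂ = x ∨ x₂ = x') → (x₂' = x ∨ x₂' = x') → y = y₂ := by
    intro h1 h2
    have h3 : fr i y₂ x ∧ fr i y₂ x' := by
      have a1 := D₂.hx
      have a2 := D₂.hx'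
      have a3 := D₂.hne
      rcases h1 with h1 | h1 <;> rcases h2 with h2 | h2
      · exact absurd (h1.trans h2.symm) a3
      · rw [h1] at a1
        rw [h2] at a2
        exact ⟨a1, a2⟩
      · rw [h1] at a1
        rw [h2] at a2
        exact ⟨a2, a1⟩
      · exact absurd (h1.trans h2.symm) a3
    exact hpar x x' y y₂ D.hy D₂.hy D.hne D.hx D.hx' h3.1 h3.2 (by omega)
  by_cases hgg : g = g₂
  · refine ⟨?_, hgg⟩
    apply hpair
    · apply D.only
      rw [hgg]
      exact D₂.hg
    · apply D.only
      rw [hgg]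
      exact D₂.hg'
  · by_cases hyy : y = y₂
    · refine ⟨hyy, ?_⟩
      exfalso
      have h1 : x₂ = x ∨ x₂ = x' := by
        by_contra h1
        push Not at h1
        have := E.zero x₂ (by rw [hyy]; exact D₂.hx) h1.1 h1.2
        have := E₂.px
        omega
      have h2 : x₂' = x ∨ x₂' = x' := by
        by_contra h2
        push Not at h2
        have := E.zero x₂' (by rw [hyy]; exact D₂.hx') h2.1 h2.2
        have := E₂.px'
        omega
      apply hgg
      rcases h1 with h1 | h1 <;> rcases h2 with h2 | h2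
      · exact absurd (h1.trans h2.symm) D₂.hne
      · apply hdbl
        rw [h1, h2, ← hyy] at h₂
        exact h₂
      · apply hdbl
        rw [h1, h2, ← hyy] at h₂
        exact h₂.symm
      · exact absurd (h1.trans h2.symm) D₂.hne
    · exfalso
      -- the energy is at least seven
      have hns : ¬ ((x₂ = x ∨ x₂ = x') ∧ (x₂' = x ∨ x₂' = x')) := fun hh => hyy (hpair hh.1 hh.2)
      -- one of the elements `x₂`, `x₂'` is new
      obtain ⟨u, hu1, hu2, hu3, hu4⟩ : ∃ u, u ≠ x ∧ u ≠ x' ∧ 1 ≤ ε u ∧ ds i u = 1 := by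
        by_cases h1 : x₂ = x ∨ x₂ = x'
        · have h2 : ¬ (x₂' = x ∨ x₂' = x') := fun h2 => hns ⟨h1, h2⟩
          push Not at h2
          exact ⟨x₂', h2.1, h2.2, E₂.px', tx'⟩
        · push Not at h1
          exact ⟨x₂, h1.1, h1.2, E₂.px, tx⟩
      have hne : ∀ a b : α, ds i a ≠ ds i b → a ≠ b := by
        rintro a b hab rfl
        exact hab rfl
      have hS : ε y + (ε y₂ + (ε x + (ε x' + (ε u + (ε g + ε g₂))))) ≤ ∑ p, ε p := by
        have h1 := sum_ge_of_finset ε ({y, y₂, x, x', u, g, g₂} : Finset α)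
        rw [Finset.sum_insert, Finset.sum_insert, Finset.sum_insert, Finset.sum_insert,
          Finset.sum_insert, Finset.sum_insert, Finset.sum_singleton] at h1
        · exact h1
        · rw [mem_singleton]; exact hgg
        · simp only [mem_insert, mem_singleton, not_or]
          exact ⟨hne _ _ (by omega), hne _ _ (by omega)⟩
        · simp only [mem_insert, mem_singleton, not_or]
          exact ⟨hu2.symm, hne _ _ (by omega), hne _ _ (by omega)⟩
        · simp only [mem_insert, mem_singleton, not_or]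
          exact ⟨D.hne, hu1.symm, hne _ _ (by omega), hne _ _ (by omega)⟩
        · simp only [mem_insert, mem_singleton, not_or]
          exact ⟨hne _ _ (by omega), hne _ _ (by omega), hne _ _ (by omega), hne _ _ (by omega),
            hne _ _ (by omega)⟩
        · simp only [mem_insert, mem_singleton, not_or]
          exact ⟨hyy, hne _ _ (by omega), hne _ _ (by omega), hne _ _ (by omega),
            hne _ _ (by omega), hne _ _ (by omega)⟩
      have := E.px
      have := E.px'
      omega

/-- there are no two active diamonds over the same elements in a configuration -/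
lemma AD.eq_cf (hB : PB α i) (hF : m.FullX ∅) (hD3 : Dbl3 α i) (h : Cf m ε) {y x x' g g' : α}
    (h1 : AD i y x x' g ε) (h2 : AD i y x x' g' ε) : g = g' := by
  by_contra hne
  have hgr := hB.hg
  have D := h1.D
  have D' := h2.D
  have dg := D.ds_g hgr
  have dg' := D'.ds_g hgr
  have dx := D.ds_x hgr
  have dx' := D.ds_x' hgr
  have hpair : ∀ {t : α}, Dia i y x x' t → bd i t = {x, x'} := by
    intro t Dt
    ext p
    rw [mem_bd, mem_insert, mem_singleton]
    constructor
    · exact Dt.only p
    · rintro (rfl | rfl)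
      · exact Dt.hg
      · exact Dt.hg'
  have hbg := hpair D
  have hbg' := hpair D'
  have hU : g ∈ U2 α i := mem_U2.2 ⟨dg, by rw [hbg, card_pair D.hne]⟩
  have hBB : BB i g = bd i x ∪ bd i x' := by
    unfold BB
    rw [hbg, biUnion_insert, singleton_biUnion]
  have h3 : (BB i g).card ≤ 2 := by
    have h4 := hB.P3 g hU
    have h5 : (BB i g).card ≠ 3 := fun h5 => hne (hD3 g g' hU (hbg.trans hbg'.symm) dg' h5)
    omega
  have e1 := h1.sum4
  have e2 := h2.sum4
  have p1 := h1.E.px
  have p2 := h1.E.px'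
  have p3 := h1.E.pg
  have p4 := h2.E.pg
  -- another excited element next to level `i`
  have h6 : ∃ p, (ds i p = 1 ∧ 0 < ε p) ∧ p ≠ x ∧ p ≠ x' := by
    by_contra hcon
    push Not at hcon
    have h7 : NA i ε ⊆ BB i g := by
      intro t ht
      rw [mem_NA] at ht
      obtain ⟨p, hp, ht⟩ := ht
      rw [hBB, mem_union]
      by_cases hpx : p = x
      · left
        rwa [← hpx]
      · right
        rwa [← hcon p hp hpx]
    have h8 := card_le_card h7
    have h9 := h.NA3 hB
    omega
  obtain ⟨p, ⟨dp, p0⟩, px, px'⟩ := h6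
  obtain ⟨q, hq1, hq2, hq3⟩ := h.far hB hF dp p0
  by_cases hqg : q = g
  · have := D.only p (hqg ▸ hq1)
    tauto
  by_cases hqg' : q = g'
  · have := D'.only p (hqg' ▸ hq1)
    tauto
  have hsum := lsum (i := i) h.e6 [] [x, x', p] [g, g', q] []
    (by simp) (by simp [D.hne, Ne.symm px, Ne.symm px']) (by simp [hne, Ne.symm hqg, Ne.symm hqg'])
    (by simp) (by simp) (by simp [dx, dx', dp]) (by simp [dg, dg', hq3]) (by simp)
  simp only [List.map_nil, List.map_cons, List.sum_nil, List.sum_cons] at hsum
  have hsum' := lsum (i := i) h.e6 [y] [x, x', p] [g, g', q] []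
    (by simp) (by simp [D.hne, Ne.symm px, Ne.symm px']) (by simp [hne, Ne.symm hqg, Ne.symm hqg'])
    (by simp) (by simp [D.ds_y]) (by simp [dx, dx', dp]) (by simp [dg, dg', hq3]) (by simp)
  simp only [List.map_nil, List.map_cons, List.sum_nil, List.sum_cons] at hsum'
  omega

/-- **uniqueness of the active diamond** in a configuration -/
theorem AD.unique_cf (hB : PB α i) (hF : m.FullX ∅) (hpar : NoPar α i) (hD3 : Dbl3 α i)
    (h : Cf m ε) {y x x' g y₂ x₂ x₂' g₂ : α} (h1 : AD i y x x' g ε) (h2 : AD i y₂ x₂ x₂' g₂ ε) :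
    y = y₂ ∧ g = g₂ :=
  AD.unique' hB.hg hpar h1 h2 h.e6 fun g' h3 => AD.eq_cf hB hF hD3 h h1 h3

/-- the toggle of the active diamond of a configuration -/
theorem togA_eq_cf (hB : PB α i) (hF : m.FullX ∅) (hpar : NoPar α i) (hD3 : Dbl3 α i)
    (h : Cf m ε) {y x x' g : α} (h1 : AD i y x x' g ε) : togA i ε = tog y g ε := by
  have h2 : ∃ yg : α × α, ∃ x x' : α, AD i yg.1 x x' yg.2 ε := ⟨(y, g), x, x', h1⟩
  unfold togA
  rw [dif_pos h2]
  obtain ⟨a, b, hab⟩ := h2.choose_spec
  have h3 := AD.unique_cf hB hF hpar hD3 h hab h1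
  rw [h3.1, h3.2]

/-- the configurations are those of loss at least two and energy at most six -/
lemma cf_iff (hB : PB α i) {n : ℕ} (hn : (lev α i).card = n) :
    Cf m ε ↔ GoodE i ε ∧ m.Red ε ∧ ∑ p, ε p ≤ 6 ∧ (pkF i ε).card + 2 ≤ n := by
  constructor
  · intro h
    have h1 := card_pkF hB.hg hB.hl h.good
    have h2 := h.ls
    exact ⟨h.good, h.red, h.e6, by omega⟩
  · rintro ⟨h1, h2, h3, h4⟩
    have h5 := card_pkF hB.hg hB.hl h1
    exact ⟨h1, h2, h3, by omega⟩

/-- the toggle of a configuration is a configuration -/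
theorem Cf.tog (hB : PB α i) (h : Cf m ε) {y x x' g : α} (h1 : AD i y x x' g ε) :
    Cf m (tog y g ε) := by
  rw [cf_iff hB rfl] at h ⊢
  obtain ⟨g1, g2, g3, g4⟩ := h
  refine ⟨(good_tog hB.hg hB.hl h1.D h1.E).2 g1, red_tog m hB.hg h1.D h1.E.pg g2, ?_, ?_⟩
  · rw [sum_tog hB.hg h1.D h1.E.pg]
    exact g3
  · rw [card_pkF_tog hB.hg hB.hl h1.D h1.E g1]
    exact g4

end unique

end Pool.Gauss
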