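import Pool.Agent.Work.MP_065141_co.K.V6Swp
import Pool.Agent.Work.MP_065141_co.K.V6Glue

/-!
# The sign reversing involution of the configurations

`iot m τ ε` is the toggle of the active diamond, if there is one, and the exchange of events at the
canonical pair otherwise.  `engine_six`: the relation with energy six and two missing peaks is a
sum over the configurations without active diamond and without exchange.
-/

set_option autoImplicit false
set_option linter.unusedSectionVars false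
set_option linter.unusedVariables false
open scoped Classical
open Finset Polynomial

namespace Pool.Gauss

variable {α : Type} [Fintype α] [PartialOrder α] {i : ℕ} {m : Mat α i} {ε : α → ℕ}

/-! ### the engine with a weaker form of opposite functions -/

/-- opposite energy functions, similar if the energy is smaller than `r` -/
structure Mat.Opr (m : Mat α i) (r : ℕ) (ε ε' : α → ℕ) : Prop where
  red : m.Red ε'
  good : GoodE i ε'
  sum : ∑ p, ε' p = ∑ p, ε p
  pk : (pkF i ε').card = (pkF i ε).card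
  sim : ∑ p, ε p = r ∨ (m.rst ε = m.rst ε' ∧ ∀ y ∈ m.nbr ε, ε y = ε' y ∧
    ((inE i ε y ∨ outE i ε y) ↔ (inE i ε' y ∨ outE i ε' y)))
  opp : Odd ((inF i ε).card + (inF i ε').card)

lemma Mat.Opp.opr {ε' : α → ℕ} (h : m.Opp ε ε') (r : ℕ) : m.Opr r ε ε' where
  red := h.red
  good := h.good
  sum := h.sum
  pk := h.pk
  sim := Or.inr ⟨h.rst, h.nbr⟩
  opp := h.opp

lemma Mat.Opr.lcv_eq {ε' : α → ℕ} {r : ℕ} (h : m.Opr r ε ε') (hg : Grad α)
    (hl : HasLower α i) (hred : m.Red ε) (hgood : GoodE i ε) (hr : ∑ p, ε p ≤ r) :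
    lcv m ε (r - ∑ p, ε p) + lcv m ε' (r - ∑ p, ε p) = 0 := by
  rcases h.sim with h1 | ⟨h1, h2⟩
  · rw [h1, Nat.sub_self, lcv_zero m hgood, lcv_zero m h.good]
    obtain ⟨k, hk⟩ := h.opp
    have e1 : ((-1 : ℤ)) ^ (inF i ε).card * (-1) ^ (inF i ε').card = -1 := by
      rw [← pow_add, hk, pow_succ, pow_mul]
      simp
    have e2 : ((-1 : ℤ)) ^ (inF i ε).card * (-1) ^ (inF i ε).card = 1 := by
      rw [← mul_pow]
      simp
    have e3 : ((-1 : ℤ)) ^ (inF i ε').card = - (-1) ^ (inF i ε).card := by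
      calc ((-1 : ℤ)) ^ (inF i ε').card
          = ((-1) ^ (inF i ε).card * (-1) ^ (inF i ε).card) * (-1) ^ (inF i ε').card := by
            rw [e2, one_mul]
        _ = (-1) ^ (inF i ε).card * ((-1) ^ (inF i ε).card * (-1) ^ (inF i ε').card) := by ring
        _ = - (-1) ^ (inF i ε).card := by rw [e1]; ring
    rw [e3]
    ring
  · exact (Mat.Opp.mk h.red h.good h.sum h.pk h1 h2 h.opp).lcv_eq hg hl hred hgood _

/-- **the engine with an involution**, weaker hypotheses for the energy `r` -/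
theorem Mat.engine_pair (m : Mat α i) {h : Fin (Fintype.card α) → ℕ} (hG : IsGaussianWith α h)
    (hl : HasLower α i) (r n : ℕ) (hn : (lev α i).card = n) (s0 : ℕ) (hs1 : 1 ≤ s0) (hn2 : s0 ≤ n)
    (hclass : ∀ ε : α → ℕ, GoodE i ε → m.Red ε → ∑ p, ε p ≤ r → (pkF i ε).card + s0 < n →
      ∑ p, ε p = r)
    (F : (α → ℕ) → Prop) (ι : (α → ℕ) → (α → ℕ))
    (hι : ∀ ε : α → ℕ, GoodE i ε → m.Red ε → ∑ p, ε p ≤ r → (pkF i ε).card + s0 = n → ¬ F ε →
      m.Opr r ε (ι ε) ∧ ¬ F (ι ε) ∧ ι (ι ε) = ε)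
    (hF : ∀ ε : α → ℕ, GoodE i ε → m.Red ε → ∑ p, ε p ≤ r → (pkF i ε).card + s0 = n → F ε →
      ∑ p, ε p = r) :
    ∑ ε ∈ ((univ : Finset α).piAntidiag r).filter
        (fun ε => m.Red ε ∧ GoodE i ε ∧ (pkF i ε).card + s0 < n), (tm i ε).coeff (n - s0) +
      ∑ ε ∈ ((univ : Finset α).piAntidiag r).filter
        (fun ε => m.Red ε ∧ GoodE i ε ∧ (pkF i ε).card + s0 = n ∧ F ε),
        (-1) ^ (inF i ε).card = 0 := by
  have hg := grad hG
  rw [← m.engine_lead hG hl r n hn s0 hs1 hn2 hclass]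
  congr 1
  have h1 : ∀ s ∈ range (r + 1), ∑ ε ∈ ((univ : Finset α).piAntidiag s).filter
        (fun ε => m.Red ε ∧ GoodE i ε ∧ (pkF i ε).card + s0 = n), lcv m ε (r - s) =
        if s = r then ∑ ε ∈ ((univ : Finset α).piAntidiag r).filter
        (fun ε => m.Red ε ∧ GoodE i ε ∧ (pkF i ε).card + s0 = n ∧ F ε),
        (-1) ^ (inF i ε).card else 0 := by
    intro s hs
    rw [mem_range] at hs
    rw [← Finset.sum_filter_add_sum_filter_not (((univ : Finset α).piAntidiag s).filter
        (fun ε => m.Red ε ∧ GoodE i ε ∧ (pkF i ε).card + s0 = n)) (fun ε => F ε)]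
    have h2 : ∑ ε ∈ (((univ : Finset α).piAntidiag s).filter
        (fun ε => m.Red ε ∧ GoodE i ε ∧ (pkF i ε).card + s0 = n)).filter (fun ε => ¬ F ε),
        lcv m ε (r - s) = 0 := by
      refine Finset.sum_involution (fun ε _ => ι ε) ?_ ?_ ?_ ?_
      · intro ε hε
        rw [mem_filter, mem_filter, mem_piAntidiag] at hε
        have h3 := (hι ε hε.1.2.2.1 hε.1.2.1 (by rw [hε.1.1.1]; omega) hε.1.2.2.2 hε.2).1
        have h4 := h3.lcv_eq hg hl hε.1.2.1 hε.1.2.2.1 (by rw [hε.1.1.1]; omega)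
        rw [hε.1.1.1] at h4
        exact h4
      · intro ε hε h4 h5
        rw [mem_filter, mem_filter, mem_piAntidiag] at hε
        have h3 := (hι ε hε.1.2.2.1 hε.1.2.1 (by rw [hε.1.1.1]; omega) hε.1.2.2.2 hε.2).1
        have h6 := h3.opp
        rw [h5] at h6
        obtain ⟨k, hk⟩ := h6
        omega
      · intro ε hε
        rw [mem_filter, mem_filter, mem_piAntidiag] at hε
        have h3 := hι ε hε.1.2.2.1 hε.1.2.1 (by rw [hε.1.1.1]; omega) hε.1.2.2.2 hε.2
        rw [mem_filter, mem_filter, mem_piAntidiag]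
        exact ⟨⟨⟨by rw [h3.1.sum, hε.1.1.1], fun _ _ => mem_univ _⟩, h3.1.red, h3.1.good,
          by rw [h3.1.pk]; exact hε.1.2.2.2⟩, h3.2.1⟩
      · intro ε hε
        rw [mem_filter, mem_filter, mem_piAntidiag] at hε
        exact (hι ε hε.1.2.2.1 hε.1.2.1 (by rw [hε.1.1.1]; omega) hε.1.2.2.2 hε.2).2.2
    rw [h2, add_zero]
    split_ifs with h3
    · subst h3
      rw [Finset.filter_filter, Nat.sub_self]
      have h4 : ((univ : Finset α).piAntidiag s).filter
          (fun ε => (m.Red ε ∧ GoodE i ε ∧ (pkF i ε).card + s0 = n) ∧ F ε) =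
          ((univ : Finset α).piAntidiag s).filter
          (fun ε => m.Red ε ∧ GoodE i ε ∧ (pkF i ε).card + s0 = n ∧ F ε) := by
        apply filter_congr
        intro ε _
        tauto
      rw [h4]
      apply Finset.sum_congr rfl
      intro ε hε
      rw [mem_filter] at hε
      exact lcv_zero m hε.2.2.1
    · apply Finset.sum_eq_zero
      intro ε hε
      rw [mem_filter, mem_filter, mem_piAntidiag] at hε
      exfalso
      apply h3
      rw [← hF ε hε.1.2.2.1 hε.1.2.1 (by rw [hε.1.1.1]; omega) hε.1.2.2.2 hε.2, hε.1.1.1]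
  rw [Finset.sum_congr rfl h1, Finset.sum_ite_eq' (range (r + 1)) r,
    if_pos (self_mem_range_succ r)]

/-! ### the toggle is opposite -/

/-- elements of summation are not next to the middle element of an excited diamond with double
elements -/
lemma Dia.not_rst (hB : PB α i) (hF : m.FullX ∅) {y x x' g : α} (D : Dia i y x x' g)
    (hx : (bd i x).card = 2) (hx' : (bd i x').card = 2) (pg : 0 < ε g) {p : α}
    (hp : p ∈ m.rst ε) : ¬ fr i y p := by
  intro hyp
  have hg := hB.hg
  have dx := D.ds_x hg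
  have dx' := D.ds_x' hg
  have e := exists_prt m hg hF dx hx
  have e' := exists_prt m hg hF dx' hx'
  have s := sides_prt m e
  have s' := sides_prt m e'
  have sd := D.side hg
  obtain ⟨a, b, hab, b1, b2⟩ := bd_prt m hg e
  obtain ⟨c, d, hcd, c1, c2⟩ := bd_prt m hg e'
  have f1 : fr i y (prt m x) := by
    rw [← mem_bd, b2, ← b1, mem_bd]
    exact D.hx
  have f2 : fr i y (prt m x') := by
    rw [← mem_bd, c2, ← c1, mem_bd]
    exact D.hx'
  have hne : prt m x ≠ prt m x' := by
    intro h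
    apply D.hne
    rw [← prt_prt m e, h, prt_prt m e']
  -- attached elements
  have n1 : p ≠ x := by
    rintro rfl
    exact notMem_rst_of_fr m hg dx D.hg pg hp
  have n2 : p ≠ x' := by
    rintro rfl
    exact notMem_rst_of_fr m hg dx' D.hg' pg hp
  have key : ∀ {z : α}, ds i z = 1 → fr i z g → (bd i z).card = 2 →
      ((z, prt m z) ∈ m.M ∨ (prt m z, z) ∈ m.M) → (bd i (prt m z)).card = 2 → p ≠ prt m z := by
    intro z dz hz h2 hm h2' hpz
    have hatt : att i ε z := (att_iff hg dz).2 ⟨g, hz, pg⟩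
    rw [hpz] at hp
    unfold Mat.rst at hp
    rw [mem_union, mem_union, mem_image, mem_image] at hp
    rcases hp with (⟨k, hk, hk'⟩ | ⟨k, hk, hk'⟩) | hk
    · unfold Mat.free at hk
      rw [mem_filter] at hk
      have hm' : (prt m z, k.2) ∈ m.M ∨ (k.2, prt m z) ∈ m.M := Or.inl (by rw [← hk']; exact hk.1)
      have h5 := prt_eq m hm'
      rw [prt_prt m hm] at h5
      apply hk.2.2
      rw [← h5]
      exact hatt
    · unfold Mat.free at hk
      rw [mem_filter] at hk
      have hm' : (prt m z, k.1) ∈ m.M ∨ (k.1, prt m z) ∈ m.M := Or.inr (by rw [← hk']; exact hk.1)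
      have h5 := prt_eq m hm'
      rw [prt_prt m hm] at h5
      apply hk.2.1
      rw [← h5]
      exact hatt
    · unfold sgl at hk
      rw [mem_filter] at hk
      have := card_bd_sgl hg hk.2.1
      omega
  have n3 : p ≠ prt m x := key dx D.hg hx e (by rw [b2, card_pair hab])
  have n4 : p ≠ prt m x' := key dx' D.hg' hx' e' (by rw [c2, card_pair hcd])
  have dp := fr_ds hg hyp
  rw [ds_eq_zero.2 D.hy] at dp
  have hp' : corank p < i ∨ i < corank p := by
    rcases lt_trichotomy (corank p) i with h | h | h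
    · exact Or.inl h
    · rw [ds_eq_zero.2 h] at dp
      omega
    · exact Or.inr h
  rcases sd with ⟨a1, a2, _⟩ | ⟨a1, a2, _⟩ <;> rcases hp' with h | h
  · rcases hB.dy y p (prt m x) (prt m x') hyp f1 f2 D.hy (Or.inl ⟨h, by omega, by omega⟩) with
      h | h | h
    · exact n3 h
    · exact n4 h
    · exact hne h
  · rcases hB.dy y p x x' hyp D.hx D.hx' D.hy (Or.inr ⟨h, a1, a2⟩) with h | h | h
    · exact n1 h
    · exact n2 h
    · exact D.hne h
  · rcases hB.dy y p x x' hyp D.hx D.hx' D.hy (Or.inl ⟨h, a1, a2⟩) with h | h | h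
    · exact n1 h
    · exact n2 h
    · exact D.hne h
  · rcases hB.dy y p (prt m x) (prt m x') hyp f1 f2 D.hy (Or.inr ⟨h, by omega, by omega⟩) with
      h | h | h
    · exact n3 h
    · exact n4 h
    · exact hne h

/-- a configuration with a mixed active diamond has energy six -/
lemma AD.mixed (hB : PB α i) (hF : m.FullX ∅) (h : Cf m ε) {y x x' g : α}
    (A : AD i y x x' g ε) (hmix : ¬ ((bd i x).card = 2 ∧ (bd i x').card = 2)) :
    ∑ p, ε p = 6 := by
  have hgr := hB.hg
  have D := A.D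
  have dg := D.ds_g hgr
  have dx := D.ds_x hgr
  have dx' := D.ds_x' hgr
  have hbg : bd i g = {x, x'} := by
    ext p
    rw [mem_bd, mem_insert, mem_singleton]
    constructor
    · exact D.only p
    · rintro (rfl | rfl)
      · exact D.hg
      · exact D.hg'
  have hBB : BB i g = bd i x ∪ bd i x' := by
    unfold BB
    rw [hbg, biUnion_insert, singleton_biUnion]
  have h3 : (BB i g).card ≤ 2 := by
    rw [hBB]
    have h4 := card_union_add_card_inter (bd i x) (bd i x')
    have h5 : 1 ≤ (bd i x ∩ bd i x').card := by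
      rw [Nat.one_le_iff_ne_zero, Finset.card_ne_zero]
      exact ⟨y, mem_inter.2 ⟨mem_bd.2 D.hx, mem_bd.2 D.hx'⟩⟩
    have h6 := hB.deg x
    have h7 := hB.deg x'
    omega
  have e1 := A.sum4
  have p1 := A.E.px
  have p2 := A.E.px'
  have p3 := A.E.pg
  have h6 : ∃ p, (ds i p = 1 ∧ 0 < ε p) ∧ p ≠ x ∧ p ≠ x' := by
    by_contra hcon
    push Not at hcon
    have h7 : NA i ε ⊆ BB i g := by
      intro t ht
      rw [mem_NA] at ht
      obtain ⟨p, hp, ht⟩ := ht
      rw [hBB, mem_union]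
      by_cases hpx : p = x
      · left
        rwa [← hpx]
      · right
        rwa [← hcon p hp hpx]
    have h8 := card_le_card h7
    have h9 := h.NA3 hB
    omega
  obtain ⟨p, ⟨dp, p0⟩, px, px'⟩ := h6
  obtain ⟨q, hq1, hq2, hq3⟩ := h.far hB hF dp p0
  have hqg : q ≠ g := by
    intro hqg
    have := D.only p (hqg ▸ hq1)
    tauto
  have hsum := lsum (i := i) h.e6 [y] [x, x', p] [g, q] []
    (by simp) (by simp [D.hne, Ne.symm px, Ne.symm px']) (by simp [Ne.symm hqg])
    (by simp) (by simp [D.ds_y]) (by simp [dx, dx', dp]) (by simp [dg, hq3]) (by simp)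
  simp only [List.map_nil, List.map_cons, List.sum_nil, List.sum_cons] at hsum
  have := h.e6
  have h10 := lsum (i := i) (le_refl (∑ p, ε p)) [y] [x, x', p] [g, q] []
    (by simp) (by simp [D.hne, Ne.symm px, Ne.symm px']) (by simp [Ne.symm hqg])
    (by simp) (by simp [D.ds_y]) (by simp [dx, dx', dp]) (by simp [dg, hq3]) (by simp)
  simp only [List.map_nil, List.map_cons, List.sum_nil, List.sum_cons] at h10
  omega

/-- **the toggle of an active diamond is opposite** -/
theorem AD.opr (hB : PB α i) (hF : m.FullX ∅) (h : Cf m ε) {y x x' g : α}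
    (A : AD i y x x' g ε) : m.Opr 6 ε (Pool.Gauss.tog y g ε) where
  red := red_tog m hB.hg A.D A.E.pg h.red
  good := (good_tog hB.hg hB.hl A.D A.E).2 h.good
  sum := sum_tog hB.hg A.D A.E.pg
  pk := card_pkF_tog hB.hg hB.hl A.D A.E h.good
  sim := by
    by_cases hmix : (bd i x).card = 2 ∧ (bd i x').card = 2
    · right
      refine ⟨(rst_tog m hB.hg A.D A.E.pg).symm, ?_⟩
      intro t ht
      have ht' : corank t = i := mem_lev.1 (m.nbr_sub ε ht)
      have h1 : t ≠ y := by
        rintro rfl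
        unfold Mat.nbr at ht
        rw [mem_filter] at ht
        obtain ⟨_, p, hp, hp'⟩ := ht
        have hpg := A.E.pg
        apply A.D.not_rst hB hF hmix.1 hmix.2 (by omega) hp
        rcases hp' with hp' | hp'
        · exact fr_of_below ht'.ge hp'
        · exact fr_of_above ht'.le hp'
      have h2 : t ≠ g := by
        rintro rfl
        have := A.D.ds_g hB.hg
        rw [ds_eq_zero.2 ht'] at this
        omega
      have h3 := inout_tog_of_ne hB.hg A.D (ε := ε) ht' h1
      rw [tog_of_ne h1 h2, h3.1, h3.2]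
      exact ⟨rfl, Iff.rfl⟩
    · left
      exact A.mixed hB hF h hmix
  opp := by
    have h1 := sign_tog hB.hg hB.hl A.D A.E h.good
    rw [if_pos A.A] at h1
    have e2 : ((-1 : ℤ)) ^ (inF i ε).card * (-1) ^ (inF i ε).card = 1 := by
      rw [← mul_pow]
      simp
    have h3 : ((-1 : ℤ)) ^ ((inF i ε).card + (inF i (Pool.Gauss.tog y g ε)).card) = -1 := by
      rw [pow_add, h1]
      calc ((-1 : ℤ)) ^ (inF i ε).card * (-1 * (-1) ^ (inF i ε).card)
          = - (((-1 : ℤ)) ^ (inF i ε).card * (-1) ^ (inF i ε).card) := by ring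
        _ = -1 := by rw [e2]
    rcases Nat.even_or_odd ((inF i ε).card + (inF i (Pool.Gauss.tog y g ε)).card) with h4 | h4
    · rw [h4.neg_one_pow] at h3
      norm_num at h3
    · exact h4

/-! ### the involution -/

/-- all pairs -/
def allZ : Finset α → Prop := fun _ => True

/-- the involution -/
noncomputable def iot (m : Mat α i) (Z : Finset α → Prop) (τ : α → α) (ε : α → ℕ) : α → ℕ :=
  if HasAD i ε then togA i ε else swI m Z τ ε

variable {Z : Finset α → Prop} {τ : α → α}

/-- the exchange of a configuration is a configuration -/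
lemma Cf.opp (hB : PB α i) (h : Cf m ε) {ε' : α → ℕ} {r : ℕ} (O : m.Opr r ε ε') : Cf m ε' := by
  rw [cf_iff hB rfl] at h ⊢
  obtain ⟨g1, g2, g3, g4⟩ := h
  exact ⟨O.good, O.red, by rw [O.sum]; exact g3, by rw [O.pk]; exact g4⟩

/-- **the involution is sign reversing** -/
theorem iot_spec (hB : PB α i) (hpar : NoPar α i) (hD3 : Dbl3 α i) (B : SwpB m Z τ)
    (h : Cf m ε) (hF : HasAD i ε ∨ HasSwp i Z ε) :
    m.Opr 6 ε (iot m Z τ ε) ∧ (HasAD i (iot m Z τ ε) ∨ HasSwp i Z (iot m Z τ ε)) ∧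
      iot m Z τ (iot m Z τ ε) = ε := by
  by_cases h1 : HasAD i ε
  · have h2 := h1
    obtain ⟨y, x, x', g, A⟩ := h2
    have h3 : iot m Z τ ε = tog y g ε := by
      unfold iot
      rw [if_pos h1, togA_eq_cf hB B.full hpar hD3 h A]
    have h4 : AD i y x x' g (tog y g ε) := A.tog hB.hg
    have h5 : HasAD i (tog y g ε) := ⟨y, x, x', g, h4⟩
    rw [h3]
    refine ⟨A.opr hB B.full h, Or.inl h5, ?_⟩
    unfold iot
    rw [if_pos h5, togA_eq_cf hB B.full hpar hD3 (h.tog hB A) h4, tog_tog hB.hg A.D A.E.pg]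
  · have h2 : HasSwp i Z ε := hF.resolve_left h1
    have h3 : iot m Z τ ε = swI m Z τ ε := by
      unfold iot
      rw [if_neg h1]
    obtain ⟨s1, s2, s3⟩ := swI_spec B h.good h.red h2
    have h4 : ¬ HasAD i (swI m Z τ ε) := by
      rw [hasAD_swI B h.good h2]
      exact h1
    rw [h3]
    refine ⟨s1.opr 6, Or.inr s2, ?_⟩
    unfold iot
    rw [if_neg h4, s3]

/-- **the relation with energy six and two missing peaks** -/
theorem engine_six {h : Fin (Fintype.card α) → ℕ} (hG : IsGaussianWith α h) (hB : PB α i)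
    (hpar : NoPar α i) (hD3 : Dbl3 α i) (B : SwpB m Z τ) {n : ℕ} (hn : (lev α i).card = n)
    (hn2 : 2 ≤ n)
    (hcls : ∀ ε : α → ℕ, Cf m ε → ¬ HasAD i ε → ¬ HasSwp i Z ε → ∑ p, ε p = 6)
    (hcls3 : ∀ ε : α → ℕ, Cf m ε → (pkF i ε).card + 2 < n → ∑ p, ε p = 6) :
    ∑ ε ∈ ((univ : Finset α).piAntidiag 6).filter
        (fun ε => m.Red ε ∧ GoodE i ε ∧ (pkF i ε).card + 2 < n), (tm i ε).coeff (n - 2) +
      ∑ ε ∈ ((univ : Finset α).piAntidiag 6).filter
        (fun ε => m.Red ε ∧ GoodE i ε ∧ (pkF i ε).card + 2 = n ∧ ¬ HasAD i ε ∧ ¬ HasSwp i Z ε),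
        (-1) ^ (inF i ε).card = 0 := by
  have key := m.engine_pair hG hB.hl 6 n hn 2 (by omega) hn2 ?_
    (fun ε => ¬ HasAD i ε ∧ ¬ HasSwp i Z ε) (iot m Z τ) ?_ ?_
  · convert key
  · intro ε h1 h2 h3 h4
    exact hcls3 ε ((cf_iff hB hn).2 ⟨h1, h2, h3, by omega⟩) h4
  · intro ε h1 h2 h3 h4 h5
    have hc : Cf m ε := (cf_iff hB hn).2 ⟨h1, h2, h3, by omega⟩
    have h6 : HasAD i ε ∨ HasSwp i Z ε := by
      by_contra h7
      push Not at h7
      exact h5 h7
    obtain ⟨a1, a2, a3⟩ := iot_spec hB hpar hD3 B hc h6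
    refine ⟨a1, ?_, a3⟩
    rintro ⟨b1, b2⟩
    rcases a2 with a2 | a2
    · exact b1 a2
    · exact b2 a2
  · intro ε h1 h2 h3 h4 h5
    exact hcls ε ((cf_iff hB hn).2 ⟨h1, h2, h3, by omega⟩) h5.1 h5.2

end Pool.Gauss
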