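import Pool.Agent.Work.MP_065141_co.K.V6PQ
import Pool.Agent.Work.MP_065141_co.K.V6Def
import Pool.Agent.Work.MP_065141_co.J3

/-!
# The exchange of an event with an event on the other side

`Swp i ε p q` (helper3): `p` is next to level `i` over two elements, `q` over `p` only is the only
excited farther neighbour of `p`.  If the sum of the signs of the events over the pair of `p`
vanishes, the tree `{p, q}` is moved to the other side; the new energy function is opposite to the
old one (`Mat.Opp`).  `swI` is the involution: it uses a pair which depends only on the set of all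
pairs on which the exchange is possible.
-/

set_option autoImplicit false
set_option linter.unusedSectionVars false
set_option linter.unusedVariables false
open scoped Classical
open Finset

namespace Pool.Gauss

variable {α : Type} [Fintype α] [PartialOrder α] {i : ℕ}

/-! ### the involution on the events -/

/-- the events over one pair -/
lemma exists_tau_one (S : Finset α) (hS : HS i S = 0) : ∃ τ : α → α, ∀ q ∈ evtS α i, BB i q = S →
    τ q ∈ evtS α i ∧ BB i (τ q) = S ∧ (corank q < i ↔ ¬ corank (τ q) < i) ∧ τ (τ q) = q := by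
  set A := (evtS α i).filter (fun q => BB i q = S ∧ corank q < i) with hA
  set B := (evtS α i).filter (fun q => BB i q = S ∧ ¬ corank q < i) with hB
  have hAB : Disjoint A B := by
    rw [Finset.disjoint_left]
    intro q h1 h2
    rw [hA, mem_filter] at h1
    rw [hB, mem_filter] at h2
    exact h2.2.2 h1.2.2
  have hun : (evtS α i).filter (fun q => BB i q = S) = A ∪ B := by
    ext q
    rw [mem_union, hA, hB, mem_filter, mem_filter, mem_filter]
    tauto
  have hcard : A.card = B.card := by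
    unfold HS at hS
    rw [hun, Finset.sum_union hAB] at hS
    have h1 : ∑ q ∈ A, sg i q = - (A.card : ℤ) := by
      rw [Finset.sum_congr rfl (g := fun _ => (-1 : ℤ))]
      · simp
      · intro q hq
        rw [hA, mem_filter] at hq
        unfold sg
        rw [if_pos hq.2.2]
    have h2 : ∑ q ∈ B, sg i q = (B.card : ℤ) := by
      rw [Finset.sum_congr rfl (g := fun _ => (1 : ℤ))]
      · simp
      · intro q hq
        rw [hB, mem_filter] at hq
        unfold sg
        rw [if_neg hq.2.2]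
    rw [h1, h2] at hS
    omega
  let e : A ≃ B := Finset.equivOfCardEq hcard
  have hAmem : ∀ q, q ∈ A ↔ q ∈ evtS α i ∧ BB i q = S ∧ corank q < i := by
    intro q
    rw [hA, mem_filter]
  have hBmem : ∀ q, q ∈ B ↔ q ∈ evtS α i ∧ BB i q = S ∧ ¬ corank q < i := by
    intro q
    rw [hB, mem_filter]
  have hnotA : ∀ q, q ∈ B → q ∉ A := fun q h1 h2 => Finset.disjoint_left.1 hAB h2 h1
  refine ⟨fun q => if h : q ∈ A then (e ⟨q, h⟩).1 else if h : q ∈ B then (e.symm ⟨q, h⟩).1 else q,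
    ?_⟩
  intro q hq hqS
  by_cases h1 : q ∈ A
  · have h2 := (e ⟨q, h1⟩).2
    have h3 := (hBmem _).1 h2
    have h4 := hnotA _ h2
    simp only [dif_pos h1]
    refine ⟨h3.1, h3.2.1, ?_, ?_⟩
    · have := ((hAmem q).1 h1).2.2
      tauto
    · rw [dif_neg h4, dif_pos h2]
      simp
  · have h2 : q ∈ B := by
      rw [hBmem]
      rw [hAmem] at h1
      tauto
    have h3 := (e.symm ⟨q, h2⟩).2
    have h4 := (hAmem _).1 h3
    simp only [dif_neg h1, dif_pos h2]
    refine ⟨h4.1, h4.2.1, ?_, ?_⟩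
    · have := ((hBmem q).1 h2).2.2
      tauto
    · rw [dif_pos h3]
      simp

/-- the involution on the events over all pairs in `Z` -/
structure Tau (i : ℕ) (Z : Finset α → Prop) (τ : α → α) : Prop where
  ev : ∀ q ∈ evtS α i, Z (BB i q) → τ q ∈ evtS α i
  bb : ∀ q ∈ evtS α i, Z (BB i q) → BB i (τ q) = BB i q
  side : ∀ q ∈ evtS α i, Z (BB i q) → (corank q < i ↔ ¬ corank (τ q) < i)
  inv : ∀ q ∈ evtS α i, Z (BB i q) → τ (τ q) = q

theorem exists_tau (Z : Finset α → Prop) (hZ : ∀ S, Z S → HS i S = 0) :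
    ∃ τ : α → α, Tau i Z τ := by
  have h1 : ∀ S : Finset α, ∃ τ : α → α, Z S → ∀ q ∈ evtS α i, BB i q = S →
      τ q ∈ evtS α i ∧ BB i (τ q) = S ∧ (corank q < i ↔ ¬ corank (τ q) < i) ∧ τ (τ q) = q := by
    intro S
    by_cases h : Z S
    · obtain ⟨τ, hτ⟩ := exists_tau_one S (hZ S h)
      exact ⟨τ, fun _ => hτ⟩
    · exact ⟨id, fun h' => absurd h' h⟩
  choose f hf using h1
  refine ⟨fun q => f (BB i q) q, ?_, ?_, ?_, ?_⟩
  · intro q hq h
    exact (hf _ h q hq rfl).1
  · intro q hq h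
    exact (hf _ h q hq rfl).2.1
  · intro q hq h
    exact (hf _ h q hq rfl).2.2.1
  · intro q hq h
    have h2 := hf _ h q hq rfl
    show f (BB i (f (BB i q) q)) (f (BB i q) q) = q
    rw [h2.2.1]
    exact h2.2.2.2

/-! ### the partner -/

/-- the partner of an element in the matching -/
noncomputable def prt (m : Mat α i) (p : α) : α :=
  if h : ∃ p', (p, p') ∈ m.M ∨ (p', p) ∈ m.M then h.choose else p

lemma prt_eq (m : Mat α i) {p p' : α} (h : (p, p') ∈ m.M ∨ (p', p) ∈ m.M) : prt m p = p' := by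
  have h1 : ∃ p', (p, p') ∈ m.M ∨ (p', p) ∈ m.M := ⟨p', h⟩
  unfold prt
  rw [dif_pos h1]
  have h2 := h1.choose_spec
  set r := h1.choose with hr
  rcases h with h | h <;> rcases h2 with h2 | h2
  · have := m.inj1 _ h _ h2 rfl
    exact (congrArg Prod.snd this).symm
  · have a := m.cz _ h
    have b := m.cx _ h2
    simp only at a b
    omega
  · have a := m.cz _ h2
    have b := m.cx _ h
    simp only at a b
    omega
  · have := m.inj2 _ h _ h2 rfl
    exact (congrArg Prod.fst this).symm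

lemma prt_prt (m : Mat α i) {p p' : α} (h : (p, p') ∈ m.M ∨ (p', p) ∈ m.M) :
    prt m (prt m p) = p := by
  rw [prt_eq m h]
  exact prt_eq m h.symm

lemma exists_prt (m : Mat α i) (hg : Grad α) (hf : m.FullX ∅) {p : α} (h1 : ds i p = 1)
    (h2 : (bd i p).card = 2) : (p, prt m p) ∈ m.M ∨ (prt m p, p) ∈ m.M := by
  have h3 : ∃ p', (p, p') ∈ m.M ∨ (p', p) ∈ m.M := by
    rcases hf p h1 with h | h | h | ⟨e, he, h | h⟩
    · simp at h
    · have := card_bd_sgl hg (Or.inl h)
      omega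
    · have := card_bd_sgl hg (Or.inr h)
      omega
    · exact ⟨e.2, Or.inl (by rw [h]; exact he)⟩
    · exact ⟨e.1, Or.inr (by rw [h]; exact he)⟩
  obtain ⟨p', h4⟩ := h3
  rw [prt_eq m h4]
  exact h4

lemma bd_prt (m : Mat α i) (hg : Grad α) {p p' : α} (h : (p, p') ∈ m.M ∨ (p', p) ∈ m.M) :
    ∃ y y', y ≠ y' ∧ bd i p = {y, y'} ∧ bd i p' = {y, y'} := by
  rcases h with h | h
  · obtain ⟨y, y', h1, h2, h3⟩ := m.bd_matched hg h
    exact ⟨y, y', h1, h2, h3⟩
  · obtain ⟨y, y', h1, h2, h3⟩ := m.bd_matched hg h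
    exact ⟨y, y', h1, h3, h2⟩

lemma sides_prt (m : Mat α i) {p p' : α} (h : (p, p') ∈ m.M ∨ (p', p) ∈ m.M) :
    (corank p + 1 = i ∧ corank p' = i + 1) ∨ (corank p' + 1 = i ∧ corank p = i + 1) := by
  rcases h with h | h
  · exact Or.inl ⟨m.cz _ h, m.cx _ h⟩
  · exact Or.inr ⟨m.cz _ h, m.cx _ h⟩

/-! ### the exchange -/

/-- the situation in which events are exchanged on the pairs in `Z` -/
structure SwpB (m : Mat α i) (Z : Finset α → Prop) (τ : α → α) : Prop where
  hg : Grad α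
  hl : HasLower α i
  full : m.FullX ∅
  par : NoPar α i
  tau : Tau i Z τ

variable {m : Mat α i} {Z : Finset α → Prop} {τ : α → α} {ε : α → ℕ} {p q : α}

theorem exists_swpB (hg : Grad α) (hl : HasLower α i) (hf : m.FullX ∅) (hp : NoPar α i)
    (hZ : ∀ S, Z S → HS i S = 0) : ∃ τ : α → α, SwpB m Z τ := by
  obtain ⟨τ, hτ⟩ := exists_tau Z hZ
  exact ⟨τ, hg, hl, hf, hp, hτ⟩

namespace Swp

/-- the element `q` is an event over the pair of `p` -/
lemma BBq (S : Swp i ε p q) : BB i q = bd i p := by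
  unfold BB
  rw [S.bq, singleton_biUnion]

lemma mem_evt (S : Swp i ε p q) : q ∈ evtS α i := by
  rw [mem_evtS, S.BBq]
  exact ⟨S.dq, by rw [S.bq, card_singleton], S.bp⟩

lemma frpq (S : Swp i ε p q) : fr i p q := by
  rw [← mem_bd, S.bq]
  exact mem_singleton_self p

/-- the two events over the matched pair -/
theorem pqd (S : Swp i ε p q) (B : SwpB m Z τ) (hZ : Z (bd i p)) :
    PQD m p (prt m p) q (τ q) where
  e := exists_prt m B.hg B.full S.dp S.bp
  bq := S.bq
  bq' := by
    have hg := B.hg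
    have he := exists_prt m hg B.full S.dp S.bp
    have hev := S.mem_evt
    have hZ' : Z (BB i q) := by rw [S.BBq]; exact hZ
    have h1 := B.tau.ev q hev hZ'
    have h2 := B.tau.bb q hev hZ'
    have h3 := B.tau.side q hev hZ'
    rw [S.BBq] at h2
    rw [mem_evtS] at h1
    obtain ⟨r, hr⟩ := Finset.card_eq_one.1 h1.2.1
    have h4 : bd i r = bd i p := by
      rw [← h2]
      unfold BB
      rw [hr, singleton_biUnion]
    rw [hr]
    congr 1
    -- sides
    have frr : fr i r (τ q) := by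
      rw [← mem_bd, hr]
      exact mem_singleton_self r
    have dr : ds i r = 1 := by
      have := fr_ds hg frr
      omega
    have sd := sides_prt m he
    have s1 := side_of_mem_bd hg (p := p) (q := q) S.dq (by rw [S.bq]; exact mem_singleton_self p)
    have s2 := side_of_mem_bd hg (p := r) (q := τ q) h1.1 (by rw [hr]; exact mem_singleton_self r)
    have hr' : ds i r = (corank r - i) + (i - corank r) := rfl
    obtain ⟨y, y', hne, b1, b2⟩ := bd_prt m hg he
    by_contra hrp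
    apply hne
    have f1 : fr i y r := by rw [← mem_bd, h4, b1]; simp
    have f2 : fr i y' r := by rw [← mem_bd, h4, b1]; simp
    have f3 : fr i y (prt m p) := by rw [← mem_bd, b2]; simp
    have f4 : fr i y' (prt m p) := by rw [← mem_bd, b2]; simp
    refine B.par r (prt m p) y y' (bd_lev hg S.dp (by rw [b1]; simp))
      (bd_lev hg S.dp (by rw [b1]; simp)) hrp f1 f3 f2 f4 ?_
    have := S.dp
    omega

/-- the tree -/
theorem evT (S : Swp i ε p q) (B : SwpB m Z τ) (hZ : Z (bd i p)) :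
    EvT i ε p (prt m p) q (τ q) where
  pos := S.q0
  zero := by
    have D := S.pqd B hZ
    obtain ⟨y, y', _, h1, h2⟩ := D.bd_eq B.hg
    exact S.par _ (D.ne B.hg).1.symm (by rw [h1, h2])
  only := by
    intro t h1 h2
    by_contra h3
    have := S.wp t h1 h3
    omega
  far := S.tq
  once := by
    intro y h1 h2 t h3 h4
    by_contra h5
    have := S.free y (mem_bd.2 h1) h2 t h3 h5
    omega

lemma hdom (S : Swp i ε p q) : ∃ y, fr i y p ∧ ε y < ε p := by
  obtain ⟨y, h1, h2⟩ := S.dom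
  exact ⟨y, mem_bd.1 h1, h2⟩

/-- the element `p` is determined by its pair -/
lemma unique (S : Swp i ε p q) {p1 q1 : α} (S1 : Swp i ε p1 q1) (h : bd i p1 = bd i p) :
    p1 = p ∧ q1 = q := by
  have h1 : p1 = p := by
    by_contra h2
    have h3 := S.par p1 h2 h
    have := S1.p0
    omega
  subst h1
  refine ⟨rfl, ?_⟩
  by_contra h2
  have h3 := S.wp q1 S1.frpq h2
  have := S1.q0
  omega

/-- the values outside the four elements -/
lemma val_of {p' q' t : α} (h1 : t ≠ p) (h2 : t ≠ p') (h3 : t ≠ q) (h4 : t ≠ q') :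
    (ε ∘ psw p p' q q') t = ε t := by
  show ε (psw p p' q q' t) = ε t
  rw [PQD.psw_of h1 h2 h3 h4]

/-- the same structure after the exchange -/
theorem swp (S : Swp i ε p q) (B : SwpB m Z τ) (hZ : Z (bd i p)) (hε : GoodE i ε) :
    Swp i (ε ∘ psw p (prt m p) q (τ q)) (prt m p) (τ q) := by
  have hg := B.hg
  have hl := B.hl
  have D := S.pqd B hZ
  have T := S.evT B hZ
  have T' := T.evT D hg hl hε
  have F := T.flipD D hg hl hε
  obtain ⟨y, y', hne, b1, b2⟩ := D.bd_eq hg
  have hbd : bd i (prt m p) = bd i p := by rw [b1, b2]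
  have hlev : ∀ t, t ∈ bd i (prt m p) → corank t = i := fun t ht =>
    bd_lev hg D.symm.dsp ht
  have vp : (ε ∘ psw p (prt m p) q (τ q)) (prt m p) = ε p := by
    show ε _ = _
    rw [D.psw_p' hg]
  refine ⟨D.symm.dsp, by rw [hbd]; exact S.bp, D.symm.dsq hg, D.bq', ?_, T'.pos, ?_, T'.far, ?_,
    ?_, ?_⟩
  · rw [vp]
    exact S.p0
  · intro w h1 h2
    by_contra h3
    exact h2 (T'.only w h1 (Nat.pos_of_ne_zero h3))
  · obtain ⟨t, h1, h2⟩ := S.dom
    refine ⟨t, by rw [hbd]; exact h1, ?_⟩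
    rw [vp, F.val_lev (hlev t (by rw [hbd]; exact h1))]
    exact h2
  · intro t h1 h2 p2 h3 h4
    by_contra h5
    exact h4 (T'.once t (mem_bd.1 h1) h2 p2 h3 (by omega))
  · intro p2 h1 h2
    by_cases h3 : p2 = p
    · rw [h3]
      show ε _ = 0
      rw [D.psw_p hg]
      exact T.zero
    · have h4 : p2 ≠ q := by
        rintro rfl
        have h5 := S.bp
        rw [S.bq, hbd] at h2
        rw [← h2, card_singleton] at h5
        omega
      have h5 : p2 ≠ τ q := by
        rintro rfl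
        have h6 := S.bp
        rw [D.bq', hbd] at h2
        rw [← h2, card_singleton] at h6
        omega
      rw [val_of h3 h1 h4 h5]
      exact S.par p2 h3 (by rw [h2, hbd])

/-- another pair is not affected by the exchange -/
theorem other (S : Swp i ε p q) (B : SwpB m Z τ) (hZ : Z (bd i p)) (hε : GoodE i ε) {p1 q1 : α}
    (S1 : Swp i ε p1 q1) (hne : bd i p1 ≠ bd i p) :
    Swp i (ε ∘ psw p (prt m p) q (τ q)) p1 q1 := by
  have hg := B.hg
  have hl := B.hl
  have D := S.pqd B hZ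
  have T := S.evT B hZ
  have F := T.flipD D hg hl hε
  obtain ⟨y, y', _, b1, b2⟩ := D.bd_eq hg
  have hbd : bd i (prt m p) = bd i p := by rw [b1, b2]
  have hd : ds i p = 1 := S.dp
  have hd' : ds i (prt m p) = 1 := D.symm.dsp
  have hdq : ds i q = 2 := S.dq
  have hdq' : ds i (τ q) = 2 := D.symm.dsq hg
  have n1 : p1 ≠ p := by rintro rfl; exact hne rfl
  have n2 : p1 ≠ prt m p := by rintro rfl; exact hne hbd
  -- values
  have v1 : ∀ t, ds i t = 1 → t ≠ p → t ≠ prt m p → (ε ∘ psw p (prt m p) q (τ q)) t = ε t := by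
    intro t h1 h2 h3
    refine val_of h2 h3 ?_ ?_ <;> · rintro rfl; omega
  have v2 : ∀ t, ds i t = 2 → t ≠ q → t ≠ τ q → (ε ∘ psw p (prt m p) q (τ q)) t = ε t := by
    intro t h1 h2 h3
    refine val_of ?_ ?_ h2 h3 <;> · rintro rfl; omega
  have v3 : ∀ t, 3 ≤ ds i t → (ε ∘ psw p (prt m p) q (τ q)) t = ε t := by
    intro t h1
    refine val_of ?_ ?_ ?_ ?_ <;> · rintro rfl; omega
  have vf : ∀ t, fr i p1 t → (ε ∘ psw p (prt m p) q (τ q)) t = ε t := by
    intro t h1
    have h2 := fr_ds hg h1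
    rw [S1.dp] at h2
    apply v2 t h2
    · rintro rfl
      have h3 := mem_bd.2 h1
      rw [S.bq, mem_singleton] at h3
      exact n1 h3
    · rintro rfl
      have h3 := mem_bd.2 h1
      rw [D.bq', mem_singleton] at h3
      exact n2 h3
  have vp1 := v1 p1 S1.dp n1 n2
  have hlev : ∀ t, t ∈ bd i p1 → corank t = i := fun t ht => bd_lev hg S1.dp ht
  refine ⟨S1.dp, S1.bp, S1.dq, S1.bq, ?_, ?_, ?_, ?_, ?_, ?_, ?_⟩
  · rw [vp1]
    exact S1.p0
  · rw [vf q1 S1.frpq]
    exact S1.q0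
  · intro w h1 h2
    rw [vf w h1]
    exact S1.wp w h1 h2
  · intro t h1
    have h2 := fr_ds hg h1
    rw [S1.dq] at h2
    rw [v3 t (by omega)]
    exact S1.tq t h1
  · obtain ⟨t, h1, h2⟩ := S1.dom
    refine ⟨t, h1, ?_⟩
    rw [vp1, F.val_lev (hlev t h1)]
    exact h2
  · intro t h1 h2 p2 h3 h4
    rw [vp1, F.val_lev (hlev t h1)] at h2
    rw [F.val_lev (hlev t h1)]
    have d2 := fr_ds hg h3
    rw [ds_eq_zero.2 (hlev t h1)] at d2
    by_cases h5 : p2 = p
    · rw [h5]
      show ε _ ≤ _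
      rw [D.psw_p hg, T.zero]
      omega
    · by_cases h6 : p2 = prt m p
      · rw [h6]
        show ε _ ≤ _
        rw [D.psw_p' hg]
        apply S1.free t h1 h2 p
        · rw [← mem_bd, ← hbd, mem_bd, ← h6]
          exact h3
        · exact n1.symm
      · rw [v1 p2 (by omega) h5 h6]
        exact S1.free t h1 h2 p2 h3 h4
  · intro p2 h1 h2
    have h3 : p2 ≠ p := by rintro rfl; exact hne h2.symm
    have h4 : p2 ≠ prt m p := by rintro rfl; exact hne (by rw [← h2, hbd])
    have h5 : p2 ≠ q := by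
      rintro rfl
      have h5 := S1.bp
      rw [← h2, S.bq, card_singleton] at h5
      omega
    have h6 : p2 ≠ τ q := by
      rintro rfl
      have h5 := S1.bp
      rw [← h2, D.bq', card_singleton] at h5
      omega
    rw [val_of h3 h4 h5 h6]
    exact S1.par p2 h1 h2

end Swp

/-! ### the choice of the pair -/

/-- the exchange is possible on the pair `S` -/
def swE (i : ℕ) (Z : Finset α → Prop) (ε : α → ℕ) (S : Finset α) : Prop :=
  Z S ∧ ∃ p q, Swp i ε p q ∧ bd i p = S

/-- the exchange is possible -/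
def HasSwp (i : ℕ) (Z : Finset α → Prop) (ε : α → ℕ) : Prop := ∃ S, swE i Z ε S

lemma hasSwp_iff {ε : α → ℕ} : HasSwp i Z ε ↔ ∃ p q, Swp i ε p q ∧ Z (bd i p) := by
  constructor
  · rintro ⟨S, h1, p, q, h2, rfl⟩
    exact ⟨p, q, h2, h1⟩
  · rintro ⟨p, q, h1, h2⟩
    exact ⟨bd i p, h2, p, q, h1, rfl⟩

lemma swE_of_swE (S : Swp i ε p q) (B : SwpB m Z τ) (hZ : Z (bd i p)) (hε : GoodE i ε)
    {S' : Finset α} (h : swE i Z ε S') : swE i Z (ε ∘ psw p (prt m p) q (τ q)) S' := by
  obtain ⟨h1, p1, q1, S1, h2⟩ := h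
  refine ⟨h1, ?_⟩
  by_cases h3 : bd i p1 = bd i p
  · obtain ⟨y, y', _, b1, b2⟩ := (S.pqd B hZ).bd_eq B.hg
    exact ⟨prt m p, τ q, S.swp B hZ hε, by rw [← h2, h3, b1, b2]⟩
  · exact ⟨p1, q1, S.other B hZ hε S1 h3, h2⟩

namespace Swp

lemma good (S : Swp i ε p q) (B : SwpB m Z τ) (hZ : Z (bd i p)) (hε : GoodE i ε) :
    GoodE i (ε ∘ psw p (prt m p) q (τ q)) :=
  ((S.evT B hZ).flipD (S.pqd B hZ) B.hg B.hl hε).goodE B.hg B.hl hε

lemma Zprt (S : Swp i ε p q) (B : SwpB m Z τ) (hZ : Z (bd i p)) : Z (bd i (prt m p)) := by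
  obtain ⟨y, y', _, b1, b2⟩ := (S.pqd B hZ).bd_eq B.hg
  rw [b2, ← b1]
  exact hZ

lemma prt_prt (S : Swp i ε p q) (B : SwpB m Z τ) (hZ : Z (bd i p)) : prt m (prt m p) = p :=
  Gauss.prt_prt m (S.pqd B hZ).e

lemma tau_tau (S : Swp i ε p q) (B : SwpB m Z τ) (hZ : Z (bd i p)) : τ (τ q) = q :=
  B.tau.inv q S.mem_evt (by rw [S.BBq]; exact hZ)

/-- the exchange back -/
lemma back (S : Swp i ε p q) (B : SwpB m Z τ) (hZ : Z (bd i p)) :
    (ε ∘ psw p (prt m p) q (τ q)) ∘ psw (prt m p) (prt m (prt m p)) (τ q) (τ (τ q)) = ε := by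
  have D := S.pqd B hZ
  rw [S.prt_prt B hZ, S.tau_tau B hZ, D.psw_symm B.hg]
  funext t
  show ε _ = ε t
  rw [D.psw_inv B.hg]

/-- the set of the possible pairs is not changed by the exchange -/
theorem swE_eq (S : Swp i ε p q) (B : SwpB m Z τ) (hZ : Z (bd i p)) (hε : GoodE i ε) :
    swE i Z (ε ∘ psw p (prt m p) q (τ q)) = swE i Z ε := by
  funext S'
  apply propext
  constructor
  · intro h
    have h1 := swE_of_swE (S.swp B hZ hε) B (S.Zprt B hZ) (S.good B hZ hε) h
    rwa [S.back B hZ] at h1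
  · exact swE_of_swE S B hZ hε

end Swp

/-- the chosen pair -/
noncomputable def swSel (i : ℕ) (Z : Finset α → Prop) (ε : α → ℕ) : Finset α :=
  if h : ∃ S, swE i Z ε S then h.choose else ∅

lemma swSel_spec (h : HasSwp i Z ε) : swE i Z ε (swSel i Z ε) := by
  unfold swSel
  have h' : ∃ S, swE i Z ε S := h
  rw [dif_pos h']
  exact h'.choose_spec

lemma swSel_congr {ε' : α → ℕ} (h : swE i Z ε' = swE i Z ε) : swSel i Z ε' = swSel i Z ε := by
  unfold swSel
  simp only [h]

/-- the exchange at the chosen pair -/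
noncomputable def swI (m : Mat α i) (Z : Finset α → Prop) (τ : α → α) (ε : α → ℕ) : α → ℕ :=
  if h : ∃ pq : α × α, Swp i ε pq.1 pq.2 ∧ bd i pq.1 = swSel i Z ε then
    ε ∘ psw h.choose.1 (prt m h.choose.1) h.choose.2 (τ h.choose.2) else ε

lemma swI_eq (S : Swp i ε p q) (h : bd i p = swSel i Z ε) :
    swI m Z τ ε = ε ∘ psw p (prt m p) q (τ q) := by
  have h1 : ∃ pq : α × α, Swp i ε pq.1 pq.2 ∧ bd i pq.1 = swSel i Z ε := ⟨(p, q), S, h⟩
  unfold swI
  rw [dif_pos h1]
  obtain ⟨h2, h3⟩ := S.unique h1.choose_spec.1 (by rw [h1.choose_spec.2, h])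
  rw [h2, h3]

/-- **the exchange of events is a sign reversing involution** -/
theorem swI_spec (B : SwpB m Z τ) (hε : GoodE i ε) (hr : m.Red ε) (h : HasSwp i Z ε) :
    m.Opp ε (swI m Z τ ε) ∧ HasSwp i Z (swI m Z τ ε) ∧ swI m Z τ (swI m Z τ ε) = ε := by
  obtain ⟨hZ, p, q, S, hS⟩ := swSel_spec h
  rw [← hS] at hZ
  have h1 : swI m Z τ ε = ε ∘ psw p (prt m p) q (τ q) := swI_eq S hS
  have D := S.pqd B hZ
  have T := S.evT B hZ
  have h2 := S.swE_eq B hZ hε
  have h3 : swSel i Z (ε ∘ psw p (prt m p) q (τ q)) = swSel i Z ε := swSel_congr h2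
  refine ⟨?_, ?_, ?_⟩
  · rw [h1]
    exact T.opp D B.hg B.hl hε hr S.hdom
  · rw [h1]
    unfold HasSwp
    rw [h2]
    exact h
  · obtain ⟨y, y', _, b1, b2⟩ := D.bd_eq B.hg
    have h4 : bd i (prt m p) = swSel i Z (ε ∘ psw p (prt m p) q (τ q)) := by
      rw [h3, ← hS, b1, b2]
    rw [h1, swI_eq (S.swp B hZ hε) h4]
    exact S.back B hZ

/-! ### diamonds -/

/-- an active diamond is not affected by the exchange -/
theorem Swp.ad (S : Swp i ε p q) (B : SwpB m Z τ) (hZ : Z (bd i p)) (hε : GoodE i ε)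
    {y x x' g : α} (A : AD i y x x' g ε) : AD i y x x' g (ε ∘ psw p (prt m p) q (τ q)) := by
  have hg := B.hg
  have D := S.pqd B hZ
  have T := S.evT B hZ
  have F := T.flipD D hg B.hl hε
  obtain ⟨s, s', _, b1, b2⟩ := D.bd_eq hg
  have hbd : bd i (prt m p) = bd i p := by rw [b1, b2]
  have hd : ds i p = 1 := S.dp
  have hd' : ds i (prt m p) = 1 := D.symm.dsp
  have hdq : ds i q = 2 := S.dq
  have hdq' : ds i (τ q) = 2 := D.symm.dsq hg
  have dx := A.D.ds_x hg
  have dx' := A.D.ds_x' hg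
  have dg := A.D.ds_g hg
  have nx : ∀ {a b : α}, fr i a g → fr i b g → a ≠ b → 1 ≤ ε a → a ≠ p ∧ a ≠ prt m p := by
    intro a b h1 h2 h3 h4
    constructor
    · rintro rfl
      have h5 : g = q := by
        by_contra h6
        have := S.wp g h1 h6
        have := A.E.pg
        omega
      rw [h5] at h2
      have h6 := mem_bd.2 h2
      rw [S.bq, mem_singleton] at h6
      exact h3 h6.symm
    · rintro rfl
      have := T.zero
      omega
  have n1 := nx A.D.hg A.D.hg' A.D.hne A.E.px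
  have n2 := nx A.D.hg' A.D.hg A.D.hne.symm A.E.px'
  have ng : g ≠ q := by
    rintro rfl
    have h6 := mem_bd.2 A.D.hg
    rw [S.bq, mem_singleton] at h6
    exact n1.1 h6
  have ng' : g ≠ τ q := by
    rintro rfl
    have h6 := mem_bd.2 A.D.hg
    rw [D.bq', mem_singleton] at h6
    exact n1.2 h6
  have v1 : ∀ t, ds i t = 1 → t ≠ p → t ≠ prt m p → (ε ∘ psw p (prt m p) q (τ q)) t = ε t := by
    intro t h1 h2 h3
    refine Swp.val_of h2 h3 ?_ ?_ <;> · rintro rfl; omega
  have v2 : ∀ t, ds i t = 2 → t ≠ q → t ≠ τ q → (ε ∘ psw p (prt m p) q (τ q)) t = ε t := by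
    intro t h1 h2 h3
    refine Swp.val_of ?_ ?_ h2 h3 <;> · rintro rfl; omega
  have v3 : ∀ t, 3 ≤ ds i t → (ε ∘ psw p (prt m p) q (τ q)) t = ε t := by
    intro t h1
    refine Swp.val_of ?_ ?_ ?_ ?_ <;> · rintro rfl; omega
  have vf : ∀ a t, ds i a = 1 → a ≠ p → a ≠ prt m p → fr i a t →
      (ε ∘ psw p (prt m p) q (τ q)) t = ε t := by
    intro a t d1 a1 a2 h1
    have h2 := fr_ds hg h1
    rw [d1] at h2
    apply v2 t h2
    · rintro rfl
      have h3 := mem_bd.2 h1
      rw [S.bq, mem_singleton] at h3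
      exact a1 h3
    · rintro rfl
      have h3 := mem_bd.2 h1
      rw [D.bq', mem_singleton] at h3
      exact a2 h3
  have ex := v1 x dx n1.1 n1.2
  have ex' := v1 x' dx' n2.1 n2.2
  have eg := v2 g dg ng ng'
  have ey := F.val_lev A.D.hy
  have lv : ∀ t a, ds i a = 1 → fr i t a → (ε ∘ psw p (prt m p) q (τ q)) t = ε t := by
    intro t a h1 h2
    exact F.val_lev (bd_lev hg h1 (mem_bd.2 h2))
  have vv : ∀ v, fr i g v → (ε ∘ psw p (prt m p) q (τ q)) v = ε v := by
    intro v h1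
    have h2 := fr_ds hg h1
    exact v3 v (by omega)
  have E := A.E
  refine ⟨A.D, ⟨?_, ?_, ?_, ?_, ?_, ?_, ?_, ?_, ?_, ?_⟩, ?_⟩
  · rw [ex]; exact E.px
  · rw [ex']; exact E.px'
  · rw [eg]; exact E.pg
  · intro z h1 h2 h3
    have hz := E.zero z h1 h2 h3
    have dz := fr_ds hg h1
    rw [ds_eq_zero.2 A.D.hy] at dz
    by_cases h4 : z = p
    · rw [h4] at hz
      have := S.p0
      omega
    · by_cases h5 : z = prt m p
      · exfalso
        have h6 : fr i y p := by
          rw [← mem_bd, ← hbd, mem_bd, ← h5]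
          exact h1
        have h7 := E.zero p h6 (fun h => n1.1 h.symm) (fun h => n2.1 h.symm)
        have := S.p0
        omega
      · rw [v1 z (by omega) h4 h5]
        exact hz
  · intro h h1 h2
    rw [vf x h dx n1.1 n1.2 h1, ex]
    exact E.far h h1 h2
  · intro h h1 h2
    rw [vf x' h dx' n2.1 n2.2 h1, ex']
    exact E.far' h h1 h2
  · intro t h1 h2
    rw [lv t x dx h1, ex]
    exact E.near t h1 h2
  · intro t h1 h2
    rw [lv t x' dx' h1, ex']
    exact E.near' t h1 h2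
  · intro v h1
    rw [vv v h1, eg]
    exact E.vg v h1
  · intro v h1
    rw [vv v h1, ey]
    exact E.vy v h1
  · have hA := A.A
    unfold Act at hA ⊢
    rw [ex, ex', eg, ey]
    exact hA

/-- the exchange does not create or destroy active diamonds -/
theorem hasAD_swI (B : SwpB m Z τ) (hε : GoodE i ε) (h : HasSwp i Z ε) :
    HasAD i (swI m Z τ ε) ↔ HasAD i ε := by
  obtain ⟨hZ, p, q, S, hS⟩ := swSel_spec h
  rw [← hS] at hZ
  rw [swI_eq S hS]
  constructor
  · rintro ⟨y, x, x', g, A⟩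
    have A' := (S.swp B hZ hε).ad B (S.Zprt B hZ) (S.good B hZ hε) A
    rw [S.back B hZ] at A'
    exact ⟨y, x, x', g, A'⟩
  · rintro ⟨y, x, x', g, A⟩
    exact ⟨y, x, x', g, S.ad B hZ hε A⟩

end Pool.Gauss
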