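import Pool.Agent.Work.MP_065141_co.K.V6Cls
import Pool.Agent.Work.MP_065141_co.K.V6Swp
import Pool.Agent.Work.MP_065141_co.K.V3Obj
import Pool.Agent.Work.MP_065141_co.K.V6Chi

/-!
# The unpaired configurations of energy six
-/

set_option autoImplicit false
set_option linter.unusedSectionVars false
set_option linter.unusedVariables false
open scoped Classical
open Finset Polynomial

namespace Pool.Gauss

variable {α : Type} [Fintype α] [PartialOrder α] {i : ℕ}

/-! ### unions of two objects -/

lemma NT_union (T T' : Finset α) : NT i (T ∪ T') = NT i T ∪ NT i T' := by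
  unfold NT
  rw [filter_union, Finset.union_biUnion]

lemma sgT_union {T T' : Finset α} (hd : Disjoint T T') (hN : Disjoint (NT i T) (NT i T')) :
    sgT i (T ∪ T') = sgT i T * sgT i T' := by
  unfold sgT
  rw [filter_union, filter_union, Finset.union_biUnion, card_union_of_disjoint,
    card_union_of_disjoint, pow_add, pow_add]
  · ring
  · apply Disjoint.mono _ _ hN
    · unfold NT
      apply Finset.biUnion_subset_biUnion_of_subset_left
      intro p hp
      rw [mem_filter] at hp ⊢
      exact ⟨hp.1, hp.2.1⟩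
    · unfold NT
      apply Finset.biUnion_subset_biUnion_of_subset_left
      intro p hp
      rw [mem_filter] at hp ⊢
      exact ⟨hp.1, hp.2.1⟩
  · exact Disjoint.mono (filter_subset _ _) (filter_subset _ _) hd

lemma NClosed.union {T T' : Finset α} (h : NClosed i T) (h' : NClosed i T') :
    NClosed i (T ∪ T') := by
  intro s hs t ht hti
  rw [mem_union] at hs ⊢
  rcases hs with hs | hs
  · exact Or.inl (h s hs t ht hti)
  · exact Or.inr (h' s hs t ht hti)

/-- a common element of two near-closed sets lies over a common element at distance one -/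
lemma NClosed.exists_one (hB : PB α i) {T T' : Finset α} (h : NClosed i T) (h' : NClosed i T') :
    ∀ n : ℕ, ∀ t, ds i t = n + 1 → t ∈ T → t ∈ T' → ∃ p, ds i p = 1 ∧ p ∈ T ∧ p ∈ T' := by
  intro n
  induction n with
  | zero => exact fun t ht h1 h2 => ⟨t, by omega, h1, h2⟩
  | succ n ih =>
    intro t ht h1 h2
    obtain ⟨s, hs⟩ := bd_nonempty hB (i := i) (q := t) (by omega)
    have h3 := fr_ds hB.hg (mem_bd.1 hs)
    have h4 : corank s ≠ i := ds_pos (by omega)
    exact ih s (by omega) (h t h1 s (mem_bd.1 hs) h4) (h' t h2 s (mem_bd.1 hs) h4)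

/-- objects over disjoint supports are disjoint -/
lemma disjoint_of_NT (hB : PB α i) {T T' : Finset α} (hT : isO3 i T) (hT' : isO3 i T')
    (hN : Disjoint (NT i T) (NT i T')) : Disjoint T T' := by
  rw [Finset.disjoint_left]
  intro t h1 h2
  obtain ⟨c1, c0, -⟩ := hT.props hB
  obtain ⟨c2, -⟩ := hT'.props hB
  have h3 : ds i t ≠ 0 := fun h => c0 t h1 (ds_eq_zero.1 h)
  obtain ⟨p, hp, hpT, hpT'⟩ := c1.exists_one hB c2 (ds i t - 1) t (by omega) h1 h2
  obtain ⟨y, hy⟩ := bd_nonempty hB (i := i) (q := p) (by omega)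
  have y1 : y ∈ NT i T := by
    unfold NT
    rw [mem_biUnion]
    exact ⟨p, mem_filter.2 ⟨hpT, hp⟩, hy⟩
  have y2 : y ∈ NT i T' := by
    unfold NT
    rw [mem_biUnion]
    exact ⟨p, mem_filter.2 ⟨hpT', hp⟩, hy⟩
  exact Finset.disjoint_left.1 hN y1 y2

/-- **the data of two objects** -/
theorem two_data (hB : PB α i) (m : Mat α i) {T T' : Finset α} (hT : isO3 i T) (hT' : isO3 i T')
    (hN : Disjoint (NT i T) (NT i T')) : GoodE i (ind (T ∪ T')) ∧ m.Red (ind (T ∪ T')) ∧
    ∑ p, ind (T ∪ T') p = 6 ∧ (pkF i (ind (T ∪ T'))).card + 2 = (lev α i).card ∧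
    (-1 : ℤ) ^ (inF i (ind (T ∪ T'))).card = (-1) ^ (low α i).card * (sgT i T * sgT i T') := by
  have hg := hB.hg
  obtain ⟨a1, a2, a3, a4, a5, a6⟩ := hT.props hB
  obtain ⟨b1, b2, b3, b4, b5, b6⟩ := hT'.props hB
  have hd := disjoint_of_NT hB hT hT' hN
  have hside : ∀ p ∈ T ∪ T', ∀ p' ∈ T ∪ T', ds i p = 1 → ds i p' = 1 → corank p < i →
      i < corank p' → Disjoint (bd i p) (bd i p') := by
    have key : ∀ {A : Finset α}, ∀ p ∈ A, ds i p = 1 → bd i p ⊆ NT i A := by
      intro A p hp h1 y hy
      unfold NT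
      rw [mem_biUnion]
      exact ⟨p, mem_filter.2 ⟨hp, h1⟩, hy⟩
    intro p hp p' hp' d1 d2 s1 s2
    rw [mem_union] at hp hp'
    rcases hp with hp | hp <;> rcases hp' with hp' | hp'
    · exfalso
      rcases a6 with h | h
      · have := h p' hp'
        omega
      · have := h p hp
        omega
    · exact Disjoint.mono (key p hp d1) (key p' hp' d2) hN
    · exact Disjoint.mono (key p hp d1) (key p' hp' d2) hN.symm
    · exfalso
      rcases b6 with h | h
      · have := h p' hp'
        omega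
      · have := h p hp
        omega
  have h0 : ∀ t ∈ T ∪ T', corank t ≠ i := by
    intro t ht
    rw [mem_union] at ht
    rcases ht with ht | ht
    · exact a2 t ht
    · exact b2 t ht
  obtain ⟨g1, g2, g3⟩ := ind0_data hg hB.hl (a1.union b1) h0 hside
  refine ⟨g1, ?_, ?_, ?_, ?_⟩
  · apply ind0_red hg m
    intro p hp h1
    rw [mem_union] at hp
    rcases hp with hp | hp
    · obtain ⟨q, hq, h2⟩ := a4 p hp h1
      exact ⟨q, mem_union_left _ hq, h2⟩
    · obtain ⟨q, hq, h2⟩ := b4 p hp h1
      exact ⟨q, mem_union_right _ hq, h2⟩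
  · rw [sum_ind, card_union_of_disjoint hd, a3, b3]
  · rw [NT_union, card_union_of_disjoint hN, filter_union, card_union_of_disjoint
      (Disjoint.mono (filter_subset _ _) (filter_subset _ _) hd)] at g2
    omega
  · rw [g3, sgT_union hd hN]

/-- an object inside the union of two disjoint near-closed sets lies in one of them -/
lemma isO3.sub_or {T A B : Finset α} (hT : isO3 i T) (hA : NClosed i A) (hBc : NClosed i B)
    (hd : Disjoint A B) (h0 : ∀ t ∈ T, corank t ≠ i) (h : T ⊆ A ∪ B) : T ⊆ A ∨ T ⊆ B := by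
  have go : ∀ {C : Finset α}, NClosed i C → ∀ {s t : α}, fr i t s → t ∈ T → s ∈ C → t ∈ C :=
    fun hC s t hf ht hs => hC s hs t hf (h0 t ht)
  rcases hT with ⟨q, hq, h3, rfl⟩ | ⟨p, q, t, hp, hbp, hq, hbq, ht, hbt, rfl⟩ |
    ⟨p, q, q', hp, hbp, hq, hbq, hq', hbq', hne, rfl⟩
  · have h1 := h (mem_insert_self q (bd i q))
    rw [mem_union] at h1
    rcases h1 with h1 | h1
    · left
      intro t ht
      have ht' := ht
      rw [mem_insert] at ht'
      rcases ht' with rfl | h2
      · exact h1
      · exact go hA (mem_bd.1 h2) ht h1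
    · right
      intro t ht
      have ht' := ht
      rw [mem_insert] at ht'
      rcases ht' with rfl | h2
      · exact h1
      · exact go hBc (mem_bd.1 h2) ht h1
  · have f1 : fr i p q := by rw [← mem_bd, hbq]; simp
    have f2 : fr i q t := by rw [← mem_bd, hbt]; simp
    have key : ∀ {C : Finset α}, NClosed i C → t ∈ C → ({p, q, t} : Finset α) ⊆ C := by
      intro C hC h1 r hr
      have hqC : q ∈ C := go hC f2 (by simp) h1
      have hpC : p ∈ C := go hC f1 (by simp) hqC
      simp only [mem_insert, mem_singleton] at hr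
      rcases hr with rfl | rfl | rfl
      · exact hpC
      · exact hqC
      · exact h1
    have h1 : t ∈ A ∪ B := h (by simp)
    rw [mem_union] at h1
    rcases h1 with h1 | h1
    · exact Or.inl (key hA h1)
    · exact Or.inr (key hBc h1)
  · have f1 : fr i p q := by rw [← mem_bd, hbq]; simp
    have f2 : fr i p q' := by rw [← mem_bd, hbq']; simp
    have h1 : q ∈ A ∪ B := h (by simp)
    have h2 : q' ∈ A ∪ B := h (by simp)
    rw [mem_union] at h1 h2
    rcases h1 with h1 | h1 <;> rcases h2 with h2 | h2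
    · left
      intro r hr
      simp only [mem_insert, mem_singleton] at hr
      rcases hr with rfl | rfl | rfl
      · exact go hA f1 (by simp) h1
      · exact h1
      · exact h2
    · exact absurd (go hBc f2 (by simp) h2) (Finset.disjoint_left.1 hd (go hA f1 (by simp) h1))
    · exact absurd (go hBc f1 (by simp) h1) (Finset.disjoint_left.1 hd (go hA f2 (by simp) h2))
    · right
      intro r hr
      simp only [mem_insert, mem_singleton] at hr
      rcases hr with rfl | rfl | rfl
      · exact go hBc f1 (by simp) h1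
      · exact h1
      · exact h2

/-- the decomposition into two objects is unique -/
lemma two_unique (hB : PB α i) {A B C D : Finset α} (hA : isO3 i A) (hBo : isO3 i B)
    (hC : isO3 i C) (hD : isO3 i D) (hAB : Disjoint A B) (hCD : Disjoint C D)
    (h : A ∪ B = C ∪ D) : (A = C ∧ B = D) ∨ (A = D ∧ B = C) := by
  obtain ⟨a1, a2, a3, -⟩ := hA.props hB
  obtain ⟨b1, b2, b3, -⟩ := hBo.props hB
  obtain ⟨c1, c2, c3, -⟩ := hC.props hB
  obtain ⟨d1, d2, d3, -⟩ := hD.props hB
  have key : ∀ {C D : Finset α}, Disjoint C D → A ∪ B = C ∪ D → A = C → B = D := by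
    intro C D hCD h hAC
    have h1 : (A ∪ B) \ A = B := by
      rw [union_sdiff_left]
      exact sdiff_eq_self_of_disjoint hAB.symm
    have h2 : (C ∪ D) \ C = D := by
      rw [union_sdiff_left]
      exact sdiff_eq_self_of_disjoint hCD.symm
    rw [← h1, ← h2, h, hAC]
  rcases hA.sub_or c1 d1 hCD a2 (h ▸ subset_union_left) with h1 | h1
  · have h2 : A = C := eq_of_subset_of_card_le h1 (by omega)
    exact Or.inl ⟨h2, key hCD h h2⟩
  · have h2 : A = D := eq_of_subset_of_card_le h1 (by omega)
    exact Or.inr ⟨h2, key hCD.symm (by rw [h, union_comm]) h2⟩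

/-! ### exclusion of the other classes -/

lemma ind_not_AD {T : Finset α} (h0 : ∀ t ∈ T, corank t ≠ i) : ¬ HasAD i (ind T) := by
  rintro ⟨y, x, x', g, h⟩
  have hle : ∀ t, ind T t ≤ 1 := by
    intro t
    unfold ind
    split_ifs <;> omega
  have hy : ind T y = 0 := by
    apply ind_notMem
    intro hy
    exact h0 y hy h.D.hy
  have h1 := h.E.px
  have h2 := h.E.px'
  have h3 := hle g
  have h4 := h.A
  unfold Act at h4
  omega

lemma isO3.no_swp (hB : PB α i) {T : Finset α} (hT : isO3 i T) {ε : α → ℕ}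
    (hpos : ∀ t ∈ T, 0 < ε t) {p q : α} (S : Swp i ε p q) (hq : q ∈ T) : False := by
  have dq := S.dq
  have bq := S.bq
  rcases hT with ⟨g, hg, h3, rfl⟩ | ⟨p1, q1, t, hp, hbp, hq1, hbq, ht, hbt, rfl⟩ |
    ⟨p1, q1, q', hp, hbp, hq1, hbq, hq', hbq', hne, rfl⟩
  · rw [mem_U2] at hg
    rw [mem_insert] at hq
    rcases hq with rfl | hq
    · rw [bq, card_singleton] at hg
      omega
    · have := ds_of_mem_bd hB.hg hg.1 hq
      omega
  · simp only [mem_insert, mem_singleton] at hq
    rcases hq with rfl | rfl | rfl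
    · omega
    · have h1 := S.tq t (mem_bd.1 (by rw [hbt]; simp))
      have h2 := hpos t (by simp)
      omega
    · omega
  · simp only [mem_insert, mem_singleton] at hq
    rcases hq with rfl | rfl | rfl
    · omega
    · have hpp : p1 = p := by
        rw [hbq] at bq
        exact Finset.singleton_injective bq
      have h1 := S.wp q' (mem_bd.1 (by rw [hbq', hpp]; simp)) (Ne.symm hne)
      have h2 := hpos q' (by simp)
      omega
    · have hpp : p1 = p := by
        rw [hbq'] at bq
        exact Finset.singleton_injective bq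
      have h1 := S.wp q1 (mem_bd.1 (by rw [hbq, hpp]; simp)) hne
      have h2 := hpos q1 (by simp)
      omega

lemma two_not_swp (hB : PB α i) {T T' : Finset α} (hT : isO3 i T) (hT' : isO3 i T') {p q : α}
    (S : Swp i (ind (T ∪ T')) p q) : False := by
  have hq := ind_pos.1 S.q0
  rw [mem_union] at hq
  rcases hq with hq | hq
  · exact hT.no_swp hB (fun t ht => by rw [ind_mem (mem_union_left _ ht)]; omega) S hq
  · exact hT'.no_swp hB (fun t ht => by rw [ind_mem (mem_union_right _ ht)]; omega) S hq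

/-- the excited elements of `cfV` -/
lemma cfV_cases (hB : PB α i) {g v t : α} (h : isV i g v) (ht : 0 < cfV i g v t) :
    t = v ∨ t = g ∨ t ∈ bd i g := by
  by_contra hcon
  push Not at hcon
  rw [cfV_of_ne hcon.1, cfE4_zero hcon.2.1 hcon.2.2] at ht
  omega

lemma isV.not_swp' (hB : PB α i) {g v : α} (h : isV i g v) {p q : α}
    (S : Swp i (cfV i g v) p q) : False := by
  have dq := S.dq
  have bq := S.bq
  have hg := h.1
  rw [mem_U2] at hg
  rcases cfV_cases hB h S.q0 with rfl | rfl | h1
  · have := h.ds_v hB.hg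
    omega
  · rw [bq, card_singleton] at hg
    omega
  · have := ds_of_mem_bd hB.hg hg.1 h1
    omega

lemma isV.not_AD' (hB : PB α i) {g v : α} (h : isV i g v) : ¬ HasAD i (cfV i g v) := by
  rintro ⟨y, x, x', g1, hA⟩
  have d1 := hA.D.ds_g hB.hg
  have hg := h.1
  rw [mem_U2] at hg
  have h1 : g1 = g := by
    rcases cfV_cases hB h (by have := hA.E.pg; omega : 0 < cfV i g v g1) with h1 | h1 | h1
    · have := h.ds_v hB.hg
      rw [← h1] at this
      omega
    · exact h1
    · have := ds_of_mem_bd hB.hg hg.1 h1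
      omega
  subst h1
  have h2 := hA.E.vy v h.fr
  have h3 : cfV i g1 v v = 2 := cfV_v hB.hg h
  have h4 : cfV i g1 v y = 0 := by
    by_contra h5
    rcases cfV_cases hB h (by omega : 0 < cfV i g1 v y) with h1 | h1 | h1
    · have := h.ds_v hB.hg
      rw [← h1, ds_eq_zero.2 hA.D.hy] at this
      omega
    · rw [← h1, ds_eq_zero.2 hA.D.hy] at hg
      omega
    · have := ds_of_mem_bd hB.hg hg.1 h1
      rw [ds_eq_zero.2 hA.D.hy] at this
      omega
  omega

/-! ### the joins of an event and a triple -/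

/-- the configuration of an element at distance three -/
noncomputable def UX (i : ℕ) (v : α) : Finset α := insert v (bd i v ∪ (bd i v).biUnion (bd i))

section xs

variable (hB : PB α i) {v : α} (hv : v ∈ xS α i)
include hB hv

lemma xS_data : ∃ q g p, ds i v = 3 ∧ bd i v = {q, g} ∧ q ≠ g ∧ bd i q = {p} ∧ ds i p = 1 ∧
    ds i q = 2 ∧ ds i g = 2 ∧ (bd i p).card = 2 ∧ g ∈ U2 α i ∧ (BB i g).card = 3 ∧
    Disjoint (bd i p) (BB i g) ∧ p ∉ bd i g ∧ UX i v = {v, q, g, p} ∪ bd i g := by
  rw [mem_xS] at hv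
  obtain ⟨dv, q, hq, g, hg, hbv, hd⟩ := hv
  rw [mem_evtS] at hq
  rw [mem_c3S] at hg
  obtain ⟨p, hp⟩ := card_eq_one.1 hq.2.1
  have hBq : BB i q = bd i p := by
    unfold BB
    rw [hp, singleton_biUnion]
  have hqg : q ≠ g := by
    rintro rfl
    omega
  have dp := ds_of_mem_bd hB.hg hq.1 (show p ∈ bd i q by rw [hp]; simp)
  rw [hBq] at hd hq
  refine ⟨q, g, p, dv, hbv, hqg, hp, dp, hq.1, hg.1, hq.2.2, mem_U2.2 ⟨hg.1, hg.2.1⟩, hg.2.2,
    hd, ?_, ?_⟩
  · intro hpg
    obtain ⟨y, hy⟩ := card_pos.1 (by omega : 0 < (bd i p).card)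
    have : y ∈ BB i g := by
      unfold BB
      rw [mem_biUnion]
      exact ⟨p, hpg, hy⟩
    exact Finset.disjoint_left.1 hd hy this
  · unfold UX
    rw [hbv, biUnion_insert, singleton_biUnion, hp]
    ext t
    simp only [mem_insert, mem_union, mem_singleton]
    tauto

lemma xS_props (m : Mat α i) : GoodE i (ind (UX i v)) ∧ m.Red (ind (UX i v)) ∧
    ∑ p, ind (UX i v) p = 6 ∧ (pkF i (ind (UX i v))).card + 2 = (lev α i).card ∧
    (-1 : ℤ) ^ (inF i (ind (UX i v))).card = - (-1) ^ (low α i).card := by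
  have hg := hB.hg
  obtain ⟨q, g, p, dv, hbv, hqg, hbq, dp, dq, dg, hp2, hgU, hg3, hd, hpg, hU⟩ := xS_data hB hv
  have hgU' := mem_U2.1 hgU
  have hA : ∀ t ∈ bd i g, ds i t = 1 := fun t ht => ds_of_mem_bd hg dg ht
  have fq : fr i q v := by rw [← mem_bd, hbv]; simp
  have fg : fr i g v := by rw [← mem_bd, hbv]; simp
  have fp : fr i p q := by rw [← mem_bd, hbq]; simp
  have hmem : ∀ t, t ∈ UX i v ↔ t = v ∨ t = q ∨ t = g ∨ t = p ∨ t ∈ bd i g := by
    intro t
    rw [hU]
    simp only [mem_insert, mem_union, mem_singleton]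
    tauto
  have hcl : NClosed i (UX i v) := by
    intro s hs t hts ht
    rw [hmem] at hs ⊢
    have h1 := fr_ds hg hts
    rcases hs with rfl | rfl | rfl | rfl | hs
    · have : t ∈ bd i s := mem_bd.2 hts
      rw [hbv, mem_insert, mem_singleton] at this
      tauto
    · have : t ∈ bd i s := mem_bd.2 hts
      rw [hbq, mem_singleton] at this
      tauto
    · have : t ∈ bd i s := mem_bd.2 hts
      tauto
    · rw [dp] at h1
      exact absurd (ds_eq_zero.1 (by omega)) ht
    · rw [hA s hs] at h1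
      exact absurd (ds_eq_zero.1 (by omega)) ht
  have h0 : ∀ t ∈ UX i v, corank t ≠ i := by
    intro t ht h
    rw [← ds_eq_zero] at h
    rw [hmem] at ht
    rcases ht with rfl | rfl | rfl | rfl | ht
    · omega
    · omega
    · omega
    · omega
    · have := hA t ht
      omega
  have hf : (UX i v).filter (fun p => ds i p = 1) = insert p (bd i g) := by
    ext t
    rw [mem_filter, hmem, mem_insert]
    constructor
    · rintro ⟨rfl | rfl | rfl | rfl | h1, h2⟩
      · omega
      · omega
      · omega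
      · exact Or.inl rfl
      · exact Or.inr h1
    · rintro (rfl | h1)
      · exact ⟨Or.inr (Or.inr (Or.inr (Or.inl rfl))), dp⟩
      · exact ⟨Or.inr (Or.inr (Or.inr (Or.inr h1))), hA t h1⟩
  have hNT : NT i (UX i v) = bd i p ∪ BB i g := by
    unfold NT BB
    rw [hf, biUnion_insert]
  -- the side
  have sp := side_of_mem_bd hg dq (show p ∈ bd i q by rw [hbq]; simp)
  have sx : ∀ t ∈ bd i g, (corank t < i ↔ corank g < i) ∧ (i < corank t ↔ i < corank g) :=
    fun t ht => side_of_mem_bd hg dg ht
  have hvi : corank v ≠ i := by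
    intro h
    rw [← ds_eq_zero] at h
    omega
  have hsd : (∀ t ∈ UX i v, corank t < i) ∨ ∀ t ∈ UX i v, i < corank t := by
    rcases lt_or_gt_of_ne hvi with h | h
    · left
      have h4 := (fr_above' hg fq h).2
      have h5 := hg q v h4
      have h6 : corank q < i := by unfold ds at dq dv; omega
      have h7 := (fr_above' hg fg h).2
      have h8 := hg g v h7
      have h9 : corank g < i := by unfold ds at dg dv; omega
      intro t ht
      rw [hmem] at ht
      rcases ht with rfl | rfl | rfl | rfl | ht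
      · exact h
      · exact h6
      · exact h9
      · exact sp.1.2 h6
      · exact (sx t ht).1.2 h9
    · right
      have h4 := (fr_below' hg fq h).2
      have h5 := hg v q h4
      have h6 : i < corank q := by unfold ds at dq dv; omega
      have h7 := (fr_below' hg fg h).2
      have h8 := hg v g h7
      have h9 : i < corank g := by unfold ds at dg dv; omega
      intro t ht
      rw [hmem] at ht
      rcases ht with rfl | rfl | rfl | rfl | ht
      · exact h
      · exact h6
      · exact h9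
      · exact sp.2.2 h6
      · exact (sx t ht).2.2 h9
  have hside : ∀ p ∈ UX i v, ∀ p' ∈ UX i v, ds i p = 1 → ds i p' = 1 → corank p < i →
      i < corank p' → Disjoint (bd i p) (bd i p') := by
    intro p hp p' hp' _ _ a1 a2
    exfalso
    rcases hsd with h | h
    · have := h p' hp'
      omega
    · have := h p hp
      omega
  obtain ⟨g1, g2, g3⟩ := ind0_data hg hB.hl hcl h0 hside
  have hc1 : (insert p (bd i g)).card = 3 := by rw [card_insert_of_notMem hpg, hgU'.2]
  have hc2 : (bd i p ∪ BB i g).card = 5 := by rw [card_union_of_disjoint hd, hp2, hg3]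
  rw [hNT, hf, hc1, hc2] at g2
  refine ⟨g1, ?_, ?_, by omega, ?_⟩
  · apply ind0_red hg m
    intro t ht h1
    have : t ∈ (UX i v).filter (fun p => ds i p = 1) := mem_filter.2 ⟨ht, h1⟩
    rw [hf, mem_insert] at this
    rcases this with rfl | h2
    · exact ⟨q, (hmem q).2 (Or.inr (Or.inl rfl)), fp⟩
    · exact ⟨g, (hmem g).2 (Or.inr (Or.inr (Or.inl rfl))), mem_bd.1 h2⟩
  · rw [sum_ind]
    have h1 : UX i v = insert v (insert q (insert g (insert p (bd i g)))) := by
      ext t
      rw [hmem]
      simp only [mem_insert]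
    rw [h1, card_insert_of_notMem, card_insert_of_notMem, card_insert_of_notMem, hc1]
    · rw [mem_insert, not_or]
      exact ⟨ds_ne (i := i) (by omega), fun h => by have := hA g h; omega⟩
    · rw [mem_insert, mem_insert, not_or, not_or]
      exact ⟨hqg, ds_ne (i := i) (by omega), fun h => by have := hA q h; omega⟩
    · rw [mem_insert, mem_insert, mem_insert, not_or, not_or, not_or]
      exact ⟨ds_ne (i := i) (by omega), ds_ne (i := i) (by omega), ds_ne (i := i) (by omega),
        fun h => by have := hA v h; omega⟩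
  · rw [g3]
    have h1 : sgT i (UX i v) = -1 := by
      rcases hsd with h | h
      · rw [sgT_above (fun p hp _ => h p hp), hf, hc1]
        norm_num
      · rw [sgT_below (fun p hp _ => h p hp), hNT, hc2]
        norm_num
    rw [h1]
    ring

lemma xS_not_swp {p q : α} (S : Swp i (ind (UX i v)) p q) : False := by
  have hg := hB.hg
  obtain ⟨q', g, p', dv, hbv, hqg, hbq, dp, dq, dg, hp2, hgU, hg3, hd, hpg, hU⟩ := xS_data hB hv
  have hgU' := mem_U2.1 hgU
  have h1 := ind_pos.1 S.q0
  have dq' := S.dq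
  rw [hU] at h1
  simp only [mem_insert, mem_union, mem_singleton] at h1
  rcases h1 with (rfl | rfl | rfl | rfl) | h1
  · omega
  · have h2 := S.tq v (mem_bd.1 (by rw [hbv]; simp))
    rw [ind_mem (by unfold UX; simp)] at h2
    omega
  · have := S.bq
    rw [this, card_singleton] at hgU'
    omega
  · omega
  · have := ds_of_mem_bd hg dg h1
    omega

/-- `v` is the only element at distance three -/
lemma UX_three {t : α} (ht : t ∈ UX i v) (h3 : ds i t = 3) : t = v := by
  obtain ⟨q', g, p', dv, hbv, hqg, hbq, dp, dq, dg, hp2, hgU, hg3, hd, hpg, hU⟩ := xS_data hB hv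
  rw [hU] at ht
  simp only [mem_insert, mem_union, mem_singleton] at ht
  rcases ht with (rfl | rfl | rfl | rfl) | h1
  · rfl
  · omega
  · omega
  · omega
  · have := ds_of_mem_bd hB.hg dg h1
    omega

lemma UX_not_level {t : α} (ht : t ∈ UX i v) : corank t ≠ i := by
  obtain ⟨q', g, p', dv, hbv, hqg, hbq, dp, dq, dg, hp2, hgU, hg3, hd, hpg, hU⟩ := xS_data hB hv
  intro h
  rw [← ds_eq_zero] at h
  rw [hU] at ht
  simp only [mem_insert, mem_union, mem_singleton] at ht
  rcases ht with (rfl | rfl | rfl | rfl) | h1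
  · omega
  · omega
  · omega
  · omega
  · have := ds_of_mem_bd hB.hg dg h1
    omega

end xs

/-! ### the sum -/

/-- the only nearer neighbour -/
noncomputable def nb1 (i : ℕ) (v : α) : α := if h : ∃ g, bd i v = {g} then h.choose else v

lemma nb1_eq {v g : α} (h : bd i v = {g}) : nb1 i v = g := by
  have h1 : ∃ g, bd i v = {g} := ⟨g, h⟩
  unfold nb1
  rw [dif_pos h1]
  have h2 := h1.choose_spec
  exact (Finset.singleton_injective (h.symm.trans h2)).symm

lemma seS_isV {v : α} (hv : v ∈ seS α i) : isV i (nb1 i v) v ∧ ds i v = 3 := by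
  rw [mem_seS] at hv
  obtain ⟨dv, g, hg, hbv⟩ := hv
  rw [mem_c3S] at hg
  rw [nb1_eq hbv]
  exact ⟨⟨mem_U2.2 ⟨hg.1, hg.2.1⟩, hg.2.2, hbv⟩, dv⟩

/-- there is no configuration of the class `VPP` -/
lemma not_VPP' (hB : PB α i) (hJ : jS α i = ∅) (hJt : jtS α i = ∅) {ε : α → ℕ} :
    ¬ VPP i ε := by
  rintro ⟨v, q, q', p, p', dv, hbv, hqq, hbq, hbq', hpp, hp2, hp2', -⟩
  have hq1 : q ∈ bd i v := by rw [hbv]; simp
  have hq1' : q' ∈ bd i v := by rw [hbv]; simp
  have dq : ds i q = 2 := by
    have := fr_ds hB.hg (mem_bd.1 hq1)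
    omega
  have dq' : ds i q' = 2 := by
    have := fr_ds hB.hg (mem_bd.1 hq1')
    omega
  have e1 : BB i q = bd i p := by unfold BB; rw [hbq, singleton_biUnion]
  have e2 : BB i q' = bd i p' := by unfold BB; rw [hbq', singleton_biUnion]
  have m1 : q ∈ evtS α i := mem_evtS.2 ⟨dq, by rw [hbq, card_singleton], by rw [e1, hp2]⟩
  have m2 : q' ∈ evtS α i := mem_evtS.2 ⟨dq', by rw [hbq', card_singleton], by rw [e2, hp2']⟩
  have hall : ∀ t ∈ bd i v, t ∈ evtS α i := by
    intro t ht
    rw [hbv, mem_insert, mem_singleton] at ht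
    rcases ht with rfl | rfl
    · exact m1
    · exact m2
  by_cases hd : Disjoint (BB i q) (BB i q')
  · have : v ∈ jS α i := by
      rw [mem_jS]
      refine ⟨dv, by rw [hbv, card_pair hqq], hall, ?_⟩
      intro t ht t' ht' hne
      rw [hbv, mem_insert, mem_singleton] at ht ht'
      rcases ht with rfl | rfl <;> rcases ht' with rfl | rfl
      · exact absurd rfl hne
      · exact hd
      · exact hd.symm
      · exact absurd rfl hne
    rw [hJ] at this
    simp at this
  · have : v ∈ jtS α i := by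
      rw [mem_jtS]
      refine ⟨dv, by rw [hbv, card_pair hqq], hall, ?_⟩
      have hbb : bd i q ≠ bd i q' := by
        rw [hbq, hbq']
        exact fun h => hpp (Finset.singleton_injective h)
      intro t ht t' ht' hne
      rw [hbv, mem_insert, mem_singleton] at ht ht'
      rcases ht with rfl | rfl <;> rcases ht' with rfl | rfl
      · exact absurd rfl hne
      · exact ⟨hbb, hd⟩
      · exact ⟨hbb.symm, fun h => hd h.symm⟩
      · exact absurd rfl hne
    rw [hJt] at this
    simp at this

/-- the class `VPC` -/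
lemma VPC_iff' (hB : PB α i) {ε : α → ℕ} : VPC i ε ↔ ∃ v ∈ xS α i, ε = ind (UX i v) := by
  constructor
  · rintro ⟨v, q, g, p, dv, hbv, hbq, hp2, hgU, hg3, hd, rfl⟩
    have hgU' := mem_U2.1 hgU
    have hq1 : q ∈ bd i v := by rw [hbv]; simp
    have dq : ds i q = 2 := by
      have := fr_ds hB.hg (mem_bd.1 hq1)
      omega
    have e1 : BB i q = bd i p := by unfold BB; rw [hbq, singleton_biUnion]
    refine ⟨v, ?_, ?_⟩
    · rw [mem_xS]
      refine ⟨dv, q, mem_evtS.2 ⟨dq, by rw [hbq, card_singleton], by rw [e1, hp2]⟩, g,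
        mem_c3S.2 ⟨hgU'.1, hgU'.2, hg3⟩, hbv, by rw [e1]; exact hd⟩
    · congr 1
      unfold UX
      rw [hbv, biUnion_insert, singleton_biUnion, hbq]
      ext t
      simp only [mem_insert, mem_union, mem_singleton]
      tauto
  · rintro ⟨v, hv, rfl⟩
    obtain ⟨q, g, p, dv, hbv, hqg, hbq, dp, dq, dg, hp2, hgU, hg3, hd, hpg, hU⟩ := xS_data hB hv
    exact ⟨v, q, g, p, dv, hbv, hbq, hp2, hgU, hg3, hd, by rw [hU]⟩

variable (α) in
/-- the pairs of objects with disjoint supports -/
noncomputable def O3P (i : ℕ) : Finset (Finset α × Finset α) :=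
  (O3 α i ×ˢ O3 α i).filter fun x => Disjoint (NT i x.1) (NT i x.2)

lemma mem_O3P {x : Finset α × Finset α} : x ∈ O3P α i ↔ isO3 i x.1 ∧ isO3 i x.2 ∧
    Disjoint (NT i x.1) (NT i x.2) := by
  unfold O3P
  rw [mem_filter, mem_product, mem_O3, mem_O3]
  tauto

lemma TwoObj_iff' (hB : PB α i) {ε : α → ℕ} : TwoObj i ε ↔ ∃ x ∈ O3P α i, ε = ind (x.1 ∪ x.2) := by
  constructor
  · rintro ⟨T, T', h1, h2, -, h4, h5⟩
    exact ⟨(T, T'), mem_O3P.2 ⟨h1, h2, h4⟩, h5⟩
  · rintro ⟨x, hx, he⟩
    rw [mem_O3P] at hx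
    exact ⟨x.1, x.2, hx.1, hx.2.1, disjoint_of_NT hB hx.1 hx.2.1 hx.2.2, hx.2.2, he⟩

/-- **the sum over the unpaired configurations** -/
theorem F_sum (hB : PB α i) {m : Mat α i} (hF : m.FullX ∅) (hJ : jS α i = ∅)
    (hJt : jtS α i = ∅) {n : ℕ} (hn : (lev α i).card = n) :
    2 * ∑ ε ∈ ((univ : Finset α).piAntidiag 6).filter (fun ε => m.Red ε ∧ GoodE i ε ∧
      (pkF i ε).card + 2 = n ∧ ¬ HasAD i ε ∧ ¬ ∃ p q, Swp i ε p q), (-1 : ℤ) ^ (inF i ε).card =
    (-1) ^ (low α i).card * (∑ T ∈ O3 α i, ∑ T' ∈ O3 α i,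
      (if Disjoint (NT i T) (NT i T') then sgT i T * sgT i T' else 0) -
      2 * (((seS α i).card : ℤ) + (xS α i).card)) := by
  have hg := hB.hg
  have hl := hB.hl
  set A1 : Finset (α → ℕ) := (seS α i).image (fun v => cfV i (nb1 i v) v) with hA1
  set A2 : Finset (α → ℕ) := (O3P α i).image (fun x => ind (x.1 ∪ x.2)) with hA2
  set A3 : Finset (α → ℕ) := (xS α i).image (fun v => ind (UX i v)) with hA3
  -- the three classes are disjoint
  have hindle : ∀ (T : Finset α) t, ind T t ≤ 1 := by
    intro T t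
    unfold ind
    split_ifs <;> omega
  have d12 : Disjoint A1 A2 := by
    rw [Finset.disjoint_left]
    intro ε h1 h2
    rw [hA1, mem_image] at h1
    rw [hA2, mem_image] at h2
    obtain ⟨v, hv, rfl⟩ := h1
    obtain ⟨x, hx, he⟩ := h2
    have h3 := cfV_v hg (seS_isV hv).1
    have h4 := hindle (x.1 ∪ x.2) v
    rw [he, h3] at h4
    omega
  have d13 : Disjoint A1 A3 := by
    rw [Finset.disjoint_left]
    intro ε h1 h2
    rw [hA1, mem_image] at h1
    rw [hA3, mem_image] at h2
    obtain ⟨v, hv, rfl⟩ := h1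
    obtain ⟨x, hx, he⟩ := h2
    have h3 := cfV_v hg (seS_isV hv).1
    have h4 := hindle (UX i x) v
    rw [he, h3] at h4
    omega
  have d23 : Disjoint A2 A3 := by
    rw [Finset.disjoint_left]
    intro ε h1 h2
    rw [hA2, mem_image] at h1
    rw [hA3, mem_image] at h2
    obtain ⟨x, hx, rfl⟩ := h1
    obtain ⟨v, hv, he⟩ := h2
    rw [mem_O3P] at hx
    obtain ⟨q, g, p, dv, hbv, hqg, -⟩ := xS_data hB hv
    have h3 : v ∈ x.1 ∪ x.2 := by
      rw [← ind_pos, ← he, ind_mem (by unfold UX; simp)]
      omega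
    have key : ∀ T : Finset α, isO3 i T → v ∉ T := by
      intro T hT hvT
      rcases hT with ⟨g, hg2, h3, rfl⟩ | ⟨p1, q1, t, hp, hbp, hq1, hbq, ht, hbt, rfl⟩ |
        ⟨p1, q1, q', hp, hbp, hq1, hbq, hq', hbq', hne, rfl⟩
      · rw [mem_U2] at hg2
        rw [mem_insert] at hvT
        rcases hvT with rfl | h4
        · omega
        · have := ds_of_mem_bd hg hg2.1 h4
          omega
      · simp only [mem_insert, mem_singleton] at hvT
        rcases hvT with rfl | rfl | rfl
        · omega
        · omega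
        · have h5 := card_pair hqg
          rw [← hbv, hbt, card_singleton] at h5
          omega
      · simp only [mem_insert, mem_singleton] at hvT
        rcases hvT with rfl | rfl | rfl <;> omega
    rw [mem_union] at h3
    rcases h3 with h3 | h3
    · exact key _ hx.1 h3
    · exact key _ hx.2.1 h3
  -- the set is the union
  have hset : ((univ : Finset α).piAntidiag 6).filter (fun ε => m.Red ε ∧ GoodE i ε ∧
      (pkF i ε).card + 2 = n ∧ ¬ HasAD i ε ∧ ¬ ∃ p q, Swp i ε p q) = A1 ∪ (A2 ∪ A3) := by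
    ext ε
    rw [mem_filter, mem_piAntidiag, mem_union, mem_union]
    constructor
    · rintro ⟨⟨h1, -⟩, h2, h3, h4, h5, h6⟩
      have hcf : Cf m ε := ⟨h3, h2, by rw [h1], loss hg hl h3 hn (by omega)⟩
      rcases cls6 hB hF hcf with h | ⟨g, v, hv, he⟩ | h | h | h | h
      · exact absurd h h5
      · left
        rw [hA1, mem_image]
        have hv2 := hv.2.2
        refine ⟨v, ?_, by rw [nb1_eq hv2, he]⟩
        rw [mem_seS]
        have hgU := mem_U2.1 hv.1
        exact ⟨hv.ds_v hg, g, mem_c3S.2 ⟨hgU.1, hgU.2, hv.2.1⟩, hv2⟩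
      · exact absurd h h6
      · right; left
        rw [TwoObj_iff' hB] at h
        obtain ⟨x, hx, he⟩ := h
        rw [hA2, mem_image]
        exact ⟨x, hx, he.symm⟩
      · exact absurd h (not_VPP' hB hJ hJt)
      · right; right
        rw [VPC_iff' hB] at h
        obtain ⟨v, hv, he⟩ := h
        rw [hA3, mem_image]
        exact ⟨v, hv, he.symm⟩
    · rintro (h | h | h)
      · rw [hA1, mem_image] at h
        obtain ⟨v, hv, rfl⟩ := h
        have hV := (seS_isV hv).1
        have h1 := (cfV_data hg hl m hV hn).1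
        rw [m.mem_TT] at h1
        refine ⟨⟨h1.1, fun _ _ => mem_univ _⟩, h1.2.1, h1.2.2.1, by omega, hV.not_AD' hB, ?_⟩
        rintro ⟨p, q, S⟩
        exact hV.not_swp' hB S
      · rw [hA2, mem_image] at h
        obtain ⟨x, hx, rfl⟩ := h
        rw [mem_O3P] at hx
        obtain ⟨g1, g2, g3, g4, g5⟩ := two_data hB m hx.1 hx.2.1 hx.2.2
        refine ⟨⟨g3, fun _ _ => mem_univ _⟩, g2, g1, by omega, ?_, ?_⟩
        · apply ind_not_AD
          obtain ⟨-, a2, -⟩ := hx.1.props hB
          obtain ⟨-, b2, -⟩ := hx.2.1.props hB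
          intro t ht
          rw [mem_union] at ht
          rcases ht with ht | ht
          · exact a2 t ht
          · exact b2 t ht
        · rintro ⟨p, q, S⟩
          exact two_not_swp hB hx.1 hx.2.1 S
      · rw [hA3, mem_image] at h
        obtain ⟨v, hv, rfl⟩ := h
        obtain ⟨g1, g2, g3, g4, g5⟩ := xS_props hB hv m
        refine ⟨⟨g3, fun _ _ => mem_univ _⟩, g2, g1, by omega, ?_, ?_⟩
        · exact ind_not_AD fun t ht => UX_not_level hB hv ht
        · rintro ⟨p, q, S⟩
          exact xS_not_swp hB hv S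
  -- the three sums
  have s1 : ∑ ε ∈ A1, (-1 : ℤ) ^ (inF i ε).card = - (-1) ^ (low α i).card * (seS α i).card := by
    rw [hA1, Finset.sum_image]
    · rw [Finset.sum_congr rfl (g := fun _ => (- (-1 : ℤ) ^ (low α i).card))]
      · rw [Finset.sum_const]
        simp
        ring
      · intro v hv
        rw [(cfV_data hg hl m (seS_isV hv).1 hn).2]
        ring
    · intro v hv v' hv' he
      exact (cfV_inj hg (seS_isV hv).1 (seS_isV hv').1 he).2
  have s3 : ∑ ε ∈ A3, (-1 : ℤ) ^ (inF i ε).card = - (-1) ^ (low α i).card * (xS α i).card := by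
    rw [hA3, Finset.sum_image]
    · rw [Finset.sum_congr rfl (g := fun _ => (- (-1 : ℤ) ^ (low α i).card))]
      · rw [Finset.sum_const]
        simp
        ring
      · intro v hv
        exact (xS_props hB hv m).2.2.2.2
    · intro v hv v' hv' he
      have hv1 : v ∈ UX i v' := by
        rw [← ind_pos]
        have : ind (UX i v) v = ind (UX i v') v := congrFun he v
        rw [← this, ind_mem (by unfold UX; simp)]
        omega
      obtain ⟨q, g, p, dv, -⟩ := xS_data hB hv
      exact UX_three hB hv' hv1 dv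
  have s2 : ∑ x ∈ O3P α i, (-1 : ℤ) ^ (inF i (ind (x.1 ∪ x.2))).card =
      2 * ∑ ε ∈ A2, (-1 : ℤ) ^ (inF i ε).card := by
    rw [← Finset.sum_fiberwise_of_maps_to (s := O3P α i) (t := A2)
      (g := fun x => ind (x.1 ∪ x.2)) (fun x hx => mem_image_of_mem _ hx), Finset.mul_sum]
    apply Finset.sum_congr rfl
    intro ε hε
    rw [hA2, mem_image] at hε
    obtain ⟨x, hx, rfl⟩ := hε
    have hx' := mem_O3P.1 hx
    have hd := disjoint_of_NT hB hx'.1 hx'.2.1 hx'.2.2
    obtain ⟨-, -, c1, -⟩ := hx'.1.props hB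
    have hne : x.1 ≠ x.2 := by
      intro h
      rw [← h, Finset.disjoint_self_iff_empty] at hd
      rw [hd] at c1
      simp at c1
    have hfib : (O3P α i).filter (fun y => ind (y.1 ∪ y.2) = ind (x.1 ∪ x.2)) =
        {x, (x.2, x.1)} := by
      ext y
      rw [mem_filter, mem_insert, mem_singleton]
      constructor
      · rintro ⟨hy, he⟩
        rw [mem_O3P] at hy
        have hun : y.1 ∪ y.2 = x.1 ∪ x.2 := by
          ext t
          rw [← ind_pos, he, ind_pos]
        rcases two_unique hB hy.1 hy.2.1 hx'.1 hx'.2.1 (disjoint_of_NT hB hy.1 hy.2.1 hy.2.2) hd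
          hun with ⟨h1, h2⟩ | ⟨h1, h2⟩
        · left
          exact Prod.ext h1 h2
        · right
          exact Prod.ext h1 h2
      · rintro (rfl | rfl)
        · exact ⟨hx, rfl⟩
        · refine ⟨mem_O3P.2 ⟨hx'.2.1, hx'.1, hx'.2.2.symm⟩, ?_⟩
          simp only
          rw [union_comm]
    rw [Finset.sum_congr rfl (g := fun _ => (-1 : ℤ) ^ (inF i (ind (x.1 ∪ x.2))).card)]
    · rw [Finset.sum_const, hfib, card_pair]
      · simp
      · intro h
        exact hne (congrArg Prod.fst h)
    · intro y hy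
      rw [mem_filter] at hy
      rw [hy.2]
  have s2' : ∑ x ∈ O3P α i, (-1 : ℤ) ^ (inF i (ind (x.1 ∪ x.2))).card =
      (-1) ^ (low α i).card * ∑ T ∈ O3 α i, ∑ T' ∈ O3 α i,
        (if Disjoint (NT i T) (NT i T') then sgT i T * sgT i T' else 0) := by
    rw [Finset.mul_sum, O3P, Finset.sum_filter, Finset.sum_product]
    apply Finset.sum_congr rfl
    intro T hT
    rw [Finset.mul_sum]
    apply Finset.sum_congr rfl
    intro T' hT'
    rw [mem_O3] at hT hT'
    by_cases h : Disjoint (NT i T) (NT i T')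
    · rw [if_pos h, if_pos h]
      exact (two_data hB m hT hT' h).2.2.2.2
    · rw [if_neg h, if_neg h, mul_zero]
  rw [hset, Finset.sum_union, Finset.sum_union d23, mul_add, mul_add, ← s2, s2', s1, s3]
  · ring
  · rw [Finset.disjoint_union_right]
    exact ⟨d12, d13⟩

end Pool.Gauss
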