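import Pool.Agent.Work.MP_065141_co.K.V6Loss3
import Pool.Agent.Work.MP_065141_co.K.V6ClsE3
import Pool.Agent.Work.MP_065141_co.K.V6Sum6

/-!
# The law V6
-/

set_option autoImplicit false
set_option linter.unusedSectionVars false
set_option linter.unusedVariables false
open scoped Classical
open Finset Polynomial

namespace Pool.Gauss

variable {α : Type} [Fintype α] [PartialOrder α] {i : ℕ} {m : Mat α i} {ε : α → ℕ}

/-- an event and its nearer neighbour -/
lemma evt_data (hB : PB α i) {q : α} (hq : q ∈ evtS α i) : ∃ p, bd i q = {p} ∧ ds i p = 1 ∧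
    ds i q = 2 ∧ (bd i p).card = 2 ∧ BB i q = bd i p ∧ fr i p q := by
  rw [mem_evtS] at hq
  obtain ⟨p, hp⟩ := card_eq_one.1 hq.2.1
  have h1 := BB_sing1 hp
  have hpq : p ∈ bd i q := by rw [hp]; simp
  exact ⟨p, hp, ds_of_mem_bd hB.hg hq.1 hpq, hq.1, by rw [← h1]; exact hq.2.2, h1, mem_bd.1 hpq⟩

/-- an element of level `i` is next to elements at distance one only -/
lemma ds_of_fr_lev (hg : Grad α) {y p : α} (hy : corank y = i) (h : fr i y p) : ds i p = 1 := by
  rw [fr_ds hg h, ds_eq_zero.2 hy]

/-- **three minimal events** -/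
lemma ThreeP.l3c (hB : PB α i) (h : Cf m ε) {n : ℕ} (hn : (lev α i).card = n)
    (hls : (pkF i ε).card + 2 < n) (hT : ThreeP i ε) : L3C m n ε := by
  have hg := hB.hg
  obtain ⟨q1, hq1, q2, hq2, q3, hq3, d12, d13, d23, he⟩ := hT
  obtain ⟨p1, b1, dp1, dq1, c1, B1, f1⟩ := evt_data hB hq1
  obtain ⟨p2, b2, dp2, dq2, c2, B2, f2⟩ := evt_data hB hq2
  obtain ⟨p3, b3, dp3, dq3, c3, B3, f3⟩ := evt_data hB hq3
  rw [B1, B2] at d12
  rw [B1, B3] at d13
  rw [B2, B3] at d23
  have ne_of : ∀ {a b : α}, (bd i a).card = 2 → Disjoint (bd i a) (bd i b) → a ≠ b := by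
    rintro a b hc hd rfl
    rw [Finset.disjoint_self_iff_empty] at hd
    rw [hd] at hc
    simp at hc
  have n12 := ne_of c1 d12
  have n13 := ne_of c1 d13
  have n23 := ne_of c2 d23
  have qne : ∀ {a b x y : α}, bd i a = {x} → bd i b = {y} → x ≠ y → a ≠ b := by
    rintro a b x y h1 h2 hxy rfl
    exact hxy (Finset.singleton_injective (h1.symm.trans h2))
  have m12 := qne b1 b2 n12
  have m13 := qne b1 b3 n13
  have m23 := qne b2 b3 n23
  have hmem : ∀ t, t ∈ ({q1, q2, q3} ∪ bd i q1 ∪ bd i q2 ∪ bd i q3 : Finset α) ↔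
      (t = q1 ∨ t = q2 ∨ t = q3) ∨ t = p1 ∨ t = p2 ∨ t = p3 := by
    intro t
    rw [b1, b2, b3]
    simp only [mem_union, mem_insert, mem_singleton]
    tauto
  have val : ∀ t, 0 < ε t → ε t = 1 ∧ ((t = q1 ∨ t = q2 ∨ t = q3) ∨ t = p1 ∨ t = p2 ∨ t = p3) := by
    intro t ht
    rw [he] at ht ⊢
    have h1 := ind_pos.1 ht
    exact ⟨ind_mem h1, (hmem t).1 h1⟩
  have pos : ∀ t, ((t = q1 ∨ t = q2 ∨ t = q3) ∨ t = p1 ∨ t = p2 ∨ t = p3) → ε t = 1 := by
    intro t ht
    rw [he]
    exact ind_mem ((hmem t).2 ht)
  have lev0 : ∀ t, corank t = i → ε t = 0 := by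
    intro t ht
    by_contra h0
    have hd : ds i t = 0 := ds_eq_zero.2 ht
    rcases (val t (by omega)).2 with (rfl | rfl | rfl) | rfl | rfl | rfl <;> omega
  have one : ∀ t, ds i t = 1 → 0 < ε t → t = p1 ∨ t = p2 ∨ t = p3 := by
    intro t ht h0
    rcases (val t h0).2 with (rfl | rfl | rfl) | h1
    · omega
    · omega
    · omega
    · exact h1
  have two : ∀ t, ds i t = 2 → 0 < ε t → t = q1 ∨ t = q2 ∨ t = q3 := by
    intro t ht h0
    rcases (val t h0).2 with h1 | rfl | rfl | rfl
    · exact h1
    · omega
    · omega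
    · omega
  have three : ∀ t, 3 ≤ ds i t → ε t = 0 := by
    intro t ht
    by_contra h0
    rcases (val t (by omega)).2 with (rfl | rfl | rfl) | rfl | rfl | rfl <;> omega
  have nds : ∀ {a b : α}, ds i a ≠ ds i b → a ≠ b := fun h => ds_ne h
  -- the general exchange
  have sw : ∀ {p q : α}, (q = q1 ∨ q = q2 ∨ q = q3) → (p = p1 ∨ p = p2 ∨ p = p3) → bd i q = {p} →
      ds i p = 1 → ds i q = 2 → (bd i p).card = 2 →
      (∀ r, (r = p1 ∨ r = p2 ∨ r = p3) → r ≠ p → Disjoint (bd i p) (bd i r)) →
      (∀ r, (r = q1 ∨ r = q2 ∨ r = q3) → p ∈ bd i r → r = q) → Swp i ε p q := by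
    intro p q hq hp hb dp dq hc hdis hun
    have vp : ε p = 1 := pos p (Or.inr hp)
    exact
      { dp := dp
        bp := hc
        dq := dq
        bq := hb
        p0 := by omega
        q0 := by have := pos q (Or.inl hq); omega
        wp := by
          intro w hw hne
          by_contra h0
          have dw : ds i w = 2 := by rw [fr_ds hg hw, dp]
          exact hne (hun w (two w dw (by omega)) (mem_bd.2 hw))
        tq := by
          intro t ht
          exact three t (by rw [fr_ds hg ht, dq])
        dom := by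
          obtain ⟨t, ht⟩ := card_pos.1 (by omega : 0 < (bd i p).card)
          exact ⟨t, ht, by rw [lev0 t (bd_lev hg dp ht)]; omega⟩
        free := by
          intro t ht hlt r hr hne
          by_contra h0
          have hti := bd_lev hg dp ht
          have dr := ds_of_fr_lev hg hti hr
          have hr' := one r dr (by omega)
          exact Finset.disjoint_left.1 (hdis r hr' hne) ht (mem_bd.2 hr)
        par := by
          intro r hne hbr
          by_contra h0
          obtain ⟨t, ht⟩ := card_pos.1 (by omega : 0 < (bd i p).card)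
          have hti := bd_lev hg dp ht
          have dr := ds_of_fr_lev hg hti (mem_bd.1 (by rw [hbr]; exact ht : t ∈ bd i r))
          have hr' := one r dr (by omega)
          exact Finset.disjoint_left.1 (hdis r hr' hne) ht (by rw [hbr]; exact ht) }
  have S1 : Swp i ε p1 q1 := by
    refine sw (Or.inl rfl) (Or.inl rfl) b1 dp1 dq1 c1 ?_ ?_
    · rintro r (rfl | rfl | rfl) hne
      · exact absurd rfl hne
      · exact d12
      · exact d13
    · rintro r (rfl | rfl | rfl) hr
      · rfl
      · rw [b2, mem_singleton] at hr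
        exact absurd hr n12
      · rw [b3, mem_singleton] at hr
        exact absurd hr n13
  have S2 : Swp i ε p2 q2 := by
    refine sw (Or.inr (Or.inl rfl)) (Or.inr (Or.inl rfl)) b2 dp2 dq2 c2 ?_ ?_
    · rintro r (rfl | rfl | rfl) hne
      · exact d12.symm
      · exact absurd rfl hne
      · exact d23
    · rintro r (rfl | rfl | rfl) hr
      · rw [b1, mem_singleton] at hr
        exact absurd hr.symm n12
      · rfl
      · rw [b3, mem_singleton] at hr
        exact absurd hr n23
  refine ⟨?_, ?_, ⟨p1, q1, S1⟩, ?_, Or.inr ?_⟩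
  · rw [he, sum_ind]
    have h1 : ({q1, q2, q3} ∪ bd i q1 ∪ bd i q2 ∪ bd i q3 : Finset α) =
        {q1, q2, q3, p1, p2, p3} := by
      ext t
      rw [hmem]
      simp only [mem_insert, mem_singleton]
      tauto
    have k1 : ∀ {a b : α}, ds i a = 2 → ds i b = 1 → a ≠ b := fun h1 h2 => nds (by omega)
    rw [h1, card_insert_of_notMem, card_insert_of_notMem, card_insert_of_notMem,
      card_insert_of_notMem, card_pair n23]
    · simp [n12, n13]
    · simp only [mem_insert, mem_singleton, not_or]
      exact ⟨k1 dq3 dp1, k1 dq3 dp2, k1 dq3 dp3⟩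
    · simp only [mem_insert, mem_singleton, not_or]
      exact ⟨m23, k1 dq2 dp1, k1 dq2 dp2, k1 dq2 dp3⟩
    · simp only [mem_insert, mem_singleton, not_or]
      exact ⟨m12, m13, k1 dq1 dp1, k1 dq1 dp2, k1 dq1 dp3⟩
  · have h1 := card_pkF hg hB.hl h.good
    rw [hn] at h1
    have h2 : (Yd i ε).card ≤ 6 := by
      have h3 : Yd i ε ⊆ bd i p1 ∪ (bd i p2 ∪ bd i p3) := by
        intro t ht
        obtain ⟨r, r1, r2, r3, r4⟩ := exists_dom hg ht
        rw [mem_union, mem_union]
        rcases one r r1 r2 with rfl | rfl | rfl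
        · exact Or.inl r3
        · exact Or.inr (Or.inl r3)
        · exact Or.inr (Or.inr r3)
      have h4 := card_le_card h3
      have h5 := card_union_le (bd i p1) (bd i p2 ∪ bd i p3)
      have h6 := card_union_le (bd i p2) (bd i p3)
      omega
    have h3 : 3 ≤ (Fo i ε).card := by
      have k : ∀ r, (r = p1 ∨ r = p2 ∨ r = p3) → ds i r = 1 → r ∈ Fo i ε := by
        intro r hr dr
        have vr : ε r = 1 := pos r (Or.inr hr)
        apply fo_near dr
        · intro t ht
          rw [lev0 t (bd_lev hg dr ht)]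
          omega
        · intro w hw
          rcases Nat.eq_zero_or_pos (ε w) with h0 | h0
          · omega
          · rw [(val w h0).1]
            omega
      have h4 : ({p1, p2, p3} : Finset α) ⊆ Fo i ε := by
        intro r hr
        simp only [mem_insert, mem_singleton] at hr
        rcases hr with rfl | rfl | rfl
        · exact k _ (Or.inl rfl) dp1
        · exact k _ (Or.inr (Or.inl rfl)) dp2
        · exact k _ (Or.inr (Or.inr rfl)) dp3
      have h5 := card_le_card h4
      rw [card_insert_of_notMem (by simp [n12, n13]), card_pair n23] at h5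
      exact h5
    omega
  · intro p q S
    refine ⟨?_, ?_, ?_⟩
    · exact (val p S.p0).1
    · exact (val q S.q0).1
    · intro t ht
      exact lev0 t (bd_lev hg S.dp ht)
  · intro S
    by_cases hS : bd i p1 = S
    · refine ⟨p2, q2, S2, ?_⟩
      rw [← hS]
      intro h2
      rw [h2, Finset.disjoint_self_iff_empty] at d12
      rw [d12] at c1
      simp at c1
    · exact ⟨p1, q1, S1, hS⟩

/-- **an event and a diamond** -/
lemma OnePe.l3c (hB : PB α i) (h : Cf m ε) {n : ℕ} (hn : (lev α i).card = n)
    (hls : (pkF i ε).card + 2 < n) (hO : OnePe i ε) : L3C m n ε := by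
  have hg := hB.hg
  obtain ⟨q, hq, y, x, x', g, D, hg3, hd, he⟩ := hO
  obtain ⟨p, bq, dp, dq, cp, Bq, fpq⟩ := evt_data hB hq
  rw [Bq] at hd
  have dx := D.ds_x hg
  have dx' := D.ds_x' hg
  have dg := D.ds_g hg
  have dy : ds i y = 0 := D.ds_y
  have hbg : bd i g = {x, x'} := by
    ext t
    rw [mem_bd, mem_insert, mem_singleton]
    constructor
    · exact D.only t
    · rintro (rfl | rfl)
      · exact D.hg
      · exact D.hg'
  have hBB : BB i g = bd i x ∪ bd i x' := by
    unfold BB
    rw [hbg, biUnion_insert, singleton_biUnion]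
  have hyB : y ∈ BB i g := by
    rw [hBB, mem_union]
    exact Or.inl (mem_bd.2 D.hx)
  have hnep : ∀ r, bd i r ⊆ BB i g → p ≠ r := by
    rintro r hr rfl
    obtain ⟨t, ht⟩ := card_pos.1 (by omega : 0 < (bd i p).card)
    exact Finset.disjoint_left.1 hd ht (hr ht)
  have hpx : p ≠ x := hnep x (by rw [hBB]; exact subset_union_left)
  have hpx' : p ≠ x' := hnep x' (by rw [hBB]; exact subset_union_right)
  have hqg : q ≠ g := by
    rintro rfl
    have h1 := card_pair D.hne
    rw [← hbg, bq, card_singleton] at h1
    omega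
  have hyp : y ∉ bd i p := fun h1 => Finset.disjoint_left.1 hd h1 hyB
  have hmem : ∀ t, t ∈ ({q} ∪ bd i q ∪ {g, x, x'} : Finset α) ↔
      (t = q ∨ t = p) ∨ t = g ∨ t = x ∨ t = x' := by
    intro t
    rw [bq]
    simp only [mem_union, mem_insert, mem_singleton]
  have nds : ∀ {a b : α}, ds i a ≠ ds i b → a ≠ b := fun h => ds_ne h
  -- the values
  have v1 : ε q = 1 ∧ ε p = 1 ∧ ε x = 1 ∧ ε x' = 1 := by
    have k : ∀ t, ((t = q ∨ t = p) ∨ t = g ∨ t = x ∨ t = x') → t ≠ g → t ≠ y → ε t = 1 := by
      intro t ht h1 h2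
      rcases he with he | he
      · rw [he]
        simp only [Pi.add_apply]
        rw [ind_mem ((hmem t).2 ht), ind_notMem (by rwa [mem_singleton])]
      · rw [he]
        simp only [Pi.add_apply]
        rw [ind_mem ((hmem t).2 ht), ind_notMem (by rwa [mem_singleton])]
    refine ⟨k q (by tauto) hqg (nds (by omega)), k p (by tauto) (nds (by omega)) (nds (by omega)),
      k x (by tauto) (nds (by omega)) (nds (by omega)),
      k x' (by tauto) (nds (by omega)) (nds (by omega))⟩
  have v0 : ∀ t, t ≠ q → t ≠ p → t ≠ g → t ≠ x → t ≠ x' → t ≠ y → ε t = 0 := by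
    intro t a1 a2 a3 a4 a5 a6
    have ht : t ∉ ({q} ∪ bd i q ∪ {g, x, x'} : Finset α) := by
      rw [hmem]
      tauto
    rcases he with he | he
    · rw [he]
      simp only [Pi.add_apply]
      rw [ind_notMem ht, ind_notMem (by rwa [mem_singleton])]
    · rw [he]
      simp only [Pi.add_apply]
      rw [ind_notMem ht, ind_notMem (by rwa [mem_singleton])]
  have hyn : y ∉ ({q} ∪ bd i q ∪ {g, x, x'} : Finset α) := by
    rw [hmem]
    rintro ((rfl | rfl) | rfl | rfl | rfl) <;> omega
  have vgy : (ε g = 2 ∧ ε y = 0) ∨ (ε g = 1 ∧ ε y = 1) := by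
    rcases he with he | he
    · left
      rw [he]
      simp only [Pi.add_apply]
      rw [ind_mem ((hmem g).2 (by tauto)), ind_mem (mem_singleton_self g), ind_notMem hyn,
        ind_notMem (by rw [mem_singleton]; exact nds (by omega))]
      exact ⟨rfl, rfl⟩
    · right
      rw [he]
      simp only [Pi.add_apply]
      rw [ind_mem ((hmem g).2 (by tauto)), ind_mem (mem_singleton_self y), ind_notMem hyn,
        ind_notMem (by rw [mem_singleton]; exact nds (by omega))]
      exact ⟨rfl, rfl⟩
  have lev0 : ∀ t, corank t = i → t ≠ y → ε t = 0 := by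
    intro t ht hne
    have hd0 : ds i t = 0 := ds_eq_zero.2 ht
    exact v0 t (nds (by omega)) (nds (by omega)) (nds (by omega)) (nds (by omega))
      (nds (by omega)) hne
  have one : ∀ t, ds i t = 1 → 0 < ε t → t = p ∨ t = x ∨ t = x' := by
    intro t ht h0
    by_contra hcon
    push Not at hcon
    have := v0 t (nds (by omega)) hcon.1 (nds (by omega)) hcon.2.1 hcon.2.2 (nds (by omega))
    omega
  have two : ∀ t, ds i t = 2 → 0 < ε t → t = q ∨ t = g := by
    intro t ht h0
    by_contra hcon
    push Not at hcon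
    have := v0 t hcon.1 (nds (by omega)) hcon.2 (nds (by omega)) (nds (by omega)) (nds (by omega))
    omega
  have three : ∀ t, 3 ≤ ds i t → ε t = 0 := fun t ht =>
    v0 t (nds (by omega)) (nds (by omega)) (nds (by omega)) (nds (by omega)) (nds (by omega))
      (nds (by omega))
  have bdp0 : ∀ t ∈ bd i p, ε t = 0 := by
    intro t ht
    exact lev0 t (bd_lev hg dp ht) (fun h => hyp (h ▸ ht))
  have hpg : p ∉ bd i g := by
    rw [hbg, mem_insert, mem_singleton, not_or]
    exact ⟨hpx, hpx'⟩
  have out : ∀ r, ds i r = 1 → 0 < ε r → r ≠ p → ∀ t ∈ bd i p, t ∉ bd i r := by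
    intro r dr hr hne t ht htr
    apply Finset.disjoint_left.1 hd ht
    rw [hBB, mem_union]
    rcases one r dr hr with rfl | rfl | rfl
    · exact absurd rfl hne
    · exact Or.inl htr
    · exact Or.inr htr
  have S : Swp i ε p q :=
    { dp := dp
      bp := cp
      dq := dq
      bq := bq
      p0 := by omega
      q0 := by omega
      wp := by
        intro w hw hne
        by_contra h0
        have dw : ds i w = 2 := by rw [fr_ds hg hw, dp]
        rcases two w dw (by omega) with rfl | rfl
        · exact hne rfl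
        · exact hpg (mem_bd.2 hw)
      tq := by
        intro t ht
        exact three t (by rw [fr_ds hg ht, dq])
      dom := by
        obtain ⟨t, ht⟩ := card_pos.1 (by omega : 0 < (bd i p).card)
        exact ⟨t, ht, by rw [bdp0 t ht]; omega⟩
      free := by
        intro t ht hlt r hr hne
        by_contra h0
        have hti := bd_lev hg dp ht
        have dr := ds_of_fr_lev hg hti hr
        exact out r dr (by omega) hne t ht (mem_bd.2 hr)
      par := by
        intro r hne hbr
        by_contra h0
        obtain ⟨t, ht⟩ := card_pos.1 (by omega : 0 < (bd i p).card)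
        have hti := bd_lev hg dp ht
        have htr : t ∈ bd i r := by rw [hbr]; exact ht
        have dr := ds_of_fr_lev hg hti (mem_bd.1 htr)
        exact out r dr (by omega) hne t ht htr }
  have hAD : HasAD i ε := by
    refine ⟨y, x, x', g, ⟨D, ⟨by omega, by omega, by omega, ?_, ?_, ?_, ?_, ?_, ?_, ?_⟩, ?_⟩⟩
    · intro z hz h1 h2
      by_contra h0
      have dz := ds_of_fr_lev hg D.hy hz
      rcases one z dz (by omega) with rfl | rfl | rfl
      · exact hyp (mem_bd.2 hz)
      · exact h1 rfl
      · exact h2 rfl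
    · intro w hw hne
      rcases Nat.eq_zero_or_pos (ε w) with h0 | h0
      · omega
      · have dw : ds i w = 2 := by rw [fr_ds hg hw, dx]
        rcases two w dw h0 with rfl | rfl
        · omega
        · exact absurd rfl hne
    · intro w hw hne
      rcases Nat.eq_zero_or_pos (ε w) with h0 | h0
      · omega
      · have dw : ds i w = 2 := by rw [fr_ds hg hw, dx']
        rcases two w dw h0 with rfl | rfl
        · omega
        · exact absurd rfl hne
    · intro t ht hne
      rw [lev0 t (bd_lev hg dx (mem_bd.2 ht)) hne]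
      omega
    · intro t ht hne
      rw [lev0 t (bd_lev hg dx' (mem_bd.2 ht)) hne]
      omega
    · intro v hv
      rw [three v (by rw [fr_ds hg hv, dg])]
      omega
    · intro v hv
      rw [three v (by rw [fr_ds hg hv, dg])]
      omega
    · unfold Act
      omega
  refine ⟨?_, ?_, ⟨p, q, S⟩, ?_, Or.inl hAD⟩
  · have h1 : ({q} ∪ bd i q ∪ {g, x, x'} : Finset α) = {q, g, p, x, x'} := by
      ext t
      rw [hmem]
      simp only [mem_insert, mem_singleton]
      tauto
    have hc5 : ({q} ∪ bd i q ∪ {g, x, x'} : Finset α).card = 5 := by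
      rw [h1, card_insert_of_notMem, card_insert_of_notMem, card_insert_of_notMem, card_pair D.hne]
      · simp [hpx, hpx']
      · simp only [mem_insert, mem_singleton, not_or]
        exact ⟨nds (by omega), nds (by omega), nds (by omega)⟩
      · simp only [mem_insert, mem_singleton, not_or]
        exact ⟨hqg, nds (by omega), nds (by omega), nds (by omega)⟩
    rcases he with he | he
    · rw [he]
      simp only [Pi.add_apply]
      rw [Finset.sum_add_distrib, sum_ind, sum_ind, hc5, card_singleton]
    · rw [he]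
      simp only [Pi.add_apply]
      rw [Finset.sum_add_distrib, sum_ind, sum_ind, hc5, card_singleton]
  · have h1 := card_pkF hg hB.hl h.good
    rw [hn] at h1
    have h3 : Yd i ε ⊆ bd i p ∪ BB i g := by
      intro t ht
      obtain ⟨r, r1, r2, r3, r4⟩ := exists_dom hg ht
      rw [mem_union, hBB, mem_union]
      rcases one r r1 r2 with rfl | rfl | rfl
      · exact Or.inl r3
      · exact Or.inr (Or.inl r3)
      · exact Or.inr (Or.inr r3)
    have h5 : (bd i p ∪ BB i g).card = 5 := by rw [card_union_of_disjoint hd, cp, hg3]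
    have hpF : p ∈ Fo i ε := by
      apply fo_near dp
      · intro t ht
        rw [bdp0 t ht]
        omega
      · intro w hw
        rcases Nat.eq_zero_or_pos (ε w) with h0 | h0
        · omega
        · have dw : ds i w = 2 := by rw [fr_ds hg hw, dp]
          rcases two w dw h0 with rfl | rfl
          · omega
          · exact absurd (mem_bd.2 hw) hpg
    rcases vgy with ⟨hg2, hy0⟩ | ⟨hg1, hy1⟩
    · have h4 := card_le_card h3
      have hgF : g ∈ Fo i ε := by
        rw [mem_Fo]
        refine ⟨ds_pos (by omega), ?_, ?_⟩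
        · rintro ⟨v, hv, hlt⟩
          rw [three v (by rw [fr_ds hg hv, dg])] at hlt
          omega
        · rintro ⟨r, hr, hlt⟩
          have : r ∈ bd i g := mem_bd.2 hr
          rw [hbg, mem_insert, mem_singleton] at this
          rcases this with rfl | rfl <;> omega
      have h6 : 2 ≤ (Fo i ε).card := by
        have h7 : ({p, g} : Finset α) ⊆ Fo i ε := by
          intro r hr
          rw [mem_insert, mem_singleton] at hr
          rcases hr with rfl | rfl
          · exact hpF
          · exact hgF
        have h8 := card_le_card h7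
        rw [card_pair (nds (by omega))] at h8
        exact h8
      omega
    · have h4 : Yd i ε ⊆ (bd i p ∪ BB i g).erase y := by
        intro t ht
        rw [mem_erase]
        refine ⟨?_, h3 ht⟩
        rintro rfl
        obtain ⟨r, r1, r2, r3, r4⟩ := exists_dom hg ht
        rcases one r r1 r2 with rfl | rfl | rfl <;> omega
      have h6 := card_le_card h4
      rw [card_erase_of_mem (mem_union_right _ hyB)] at h6
      have h7 := card_pos.2 ⟨p, hpF⟩
      omega
  · intro p' q' S'
    have dq' := S'.dq
    have hq' : q' = q := by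
      rcases two q' dq' S'.q0 with h1 | h1
      · exact h1
      · exfalso
        have h2 := S'.bq
        have h3 := card_pair D.hne
        rw [h1, hbg] at h2
        rw [h2, card_singleton] at h3
        omega
    have hp' : p' = p := by
      have h2 := S'.bq
      rw [hq', bq] at h2
      exact (Finset.singleton_injective h2).symm
    rw [hq', hp']
    exact ⟨v1.2.1, v1.1, bdp0⟩

/-- **the law V6** -/
theorem V6L_of {h : Fin (Fintype.card α) → ℕ} (hG : IsGaussianWith α h) (m : Mat α i)
    (hB : PB α i) (hF : m.FullX ∅) (hpar : NoPar α i) (hD : dS α i = ∅) (hJ : jS α i = ∅)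
    (hJt : jtS α i = ∅) (hH : ∀ S : Finset α, HS i S = 0) : V6L α i := by
  set n := (lev α i).card with hn
  by_cases hn2 : 2 ≤ n
  · obtain ⟨τ, B⟩ := exists_swpB (Z := allZ) hB.hg hB.hl hF hpar (fun S _ => hH S)
    have hD3 : Dbl3 α i := dbl3_iff.2 hD
    have hc3 : ∀ ε : α → ℕ, Cf m ε → (pkF i ε).card + 2 < n → L3C m n ε := by
      intro ε hc hls
      have h1 := card_pkF hB.hg hB.hl hc.good
      rcases hc.cls3 hB hF (by omega) with h2 | h2
      · exact h2.l3c hB hc hn.symm hls
      · exact h2.l3c hB hc hn.symm hls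
    have h6 := engine_six hG hB hpar hD3 B hn.symm hn2 ?_ (fun ε h1 h2 => (hc3 ε h1 h2).e)
    · rw [loss3_sum hB hpar hD3 B hn.symm hc3, zero_add] at h6
      have h7 := F_sum hB hF hJ hJt hn.symm
      have h8 : ((univ : Finset α).piAntidiag 6).filter (fun ε => m.Red ε ∧ GoodE i ε ∧
          (pkF i ε).card + 2 = n ∧ ¬ HasAD i ε ∧ ¬ HasSwp i allZ ε) =
          ((univ : Finset α).piAntidiag 6).filter (fun ε => m.Red ε ∧ GoodE i ε ∧
          (pkF i ε).card + 2 = n ∧ ¬ HasAD i ε ∧ ¬ ∃ p q, Swp i ε p q) := by
        apply filter_congr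
        intro ε _
        rw [hasSwp_iff]
        unfold allZ
        simp only [and_true]
      rw [h8] at h6
      rw [h6, mul_zero] at h7
      have h9 : ((-1 : ℤ)) ^ (low α i).card ≠ 0 := pow_ne_zero _ (by norm_num)
      have h10 := (mul_eq_zero.1 h7.symm).resolve_left h9
      unfold V6L
      omega
    · intro ε hc h1 h2
      have h3 : ¬ ∃ p q, Swp i ε p q := by
        intro h4
        obtain ⟨p, q, S⟩ := h4
        exact h2 (hasSwp_iff.2 ⟨p, q, S, trivial⟩)
      rcases cls6 hB hF hc with h | ⟨g, v, hv, he⟩ | h | h | h | h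
      · exact absurd h h1
      · have h4 := (cfV_data hB.hg hB.hl m hv rfl).1
        rw [m.mem_TT] at h4
        rw [he]
        exact h4.1
      · exact absurd h h3
      · obtain ⟨x, hx, he⟩ := (TwoObj_iff' hB).1 h
        rw [mem_O3P] at hx
        rw [he]
        exact (two_data hB m hx.1 hx.2.1 hx.2.2).2.2.1
      · exact absurd h (not_VPP' hB hJ hJt)
      · obtain ⟨v, hv, he⟩ := (VPC_iff' hB).1 h
        rw [he]
        exact (xS_props hB hv m).2.2.1
  · -- there are no objects
    have hsub : ∀ q : α, 0 < ds i q → (∀ p ∈ bd i q, ds i p = 1) → BB i q ⊆ lev α i := by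
      intro q _ hq t ht
      unfold BB at ht
      rw [mem_biUnion] at ht
      obtain ⟨p, hp, ht⟩ := ht
      exact mem_lev.2 (bd_lev hB.hg (hq p hp) ht)
    have hc3 : c3S α i = ∅ := by
      rw [eq_empty_iff_forall_notMem]
      intro g hg
      rw [mem_c3S] at hg
      have h1 := card_le_card (hsub g (by omega) fun p hp => ds_of_mem_bd hB.hg hg.1 hp)
      omega
    have hO3 : O3 α i = ∅ := by
      rw [eq_empty_iff_forall_notMem]
      intro T hT
      rw [mem_O3] at hT
      have key : ∀ p : α, ds i p = 1 → (bd i p).card = 2 → False := by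
        intro p dp hp
        have h1 : bd i p ⊆ lev α i := fun t ht => mem_lev.2 (bd_lev hB.hg dp ht)
        have h2 := card_le_card h1
        omega
      rcases hT with ⟨g, hg, h3, _⟩ | ⟨p, q, t, hp, hbp, _⟩ | ⟨p, q, q', hp, hbp, _⟩
      · rw [mem_U2] at hg
        have : g ∈ c3S α i := mem_c3S.2 ⟨hg.1, hg.2, h3⟩
        rw [hc3] at this
        simp at this
      · exact key p hp hbp
      · exact key p hp hbp
    have hse : seS α i = ∅ := by
      rw [eq_empty_iff_forall_notMem]
      intro v hv
      rw [mem_seS] at hv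
      obtain ⟨_, g, hg, _⟩ := hv
      rw [hc3] at hg
      simp at hg
    have hx : xS α i = ∅ := by
      rw [eq_empty_iff_forall_notMem]
      intro v hv
      rw [mem_xS] at hv
      obtain ⟨_, q, _, g, hg, _⟩ := hv
      rw [hc3] at hg
      simp at hg
    unfold V6L
    rw [hO3, hse, hx]
    simp

end Pool.Gauss
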