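import Pool.Agent.Work.MP_065141_co.K.V6Inv
import Pool.Agent.Work.MP_065141_co.K.KOne2

/-!
# The configurations of energy six with three missing peaks

Their contribution to the relation with two missing peaks vanishes: two commuting sign reversing
moves, the difference of the numbers of elements 'in' of the first one is `± 3` and is not changed
by the second one.
-/

set_option autoImplicit false
set_option linter.unusedSectionVars false
set_option linter.unusedVariables false
open scoped Classical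
open Finset Polynomial

namespace Pool.Gauss

variable {α : Type} [Fintype α] [PartialOrder α] {i : ℕ} {m : Mat α i} {ε : α → ℕ}
  {Z : Finset α → Prop} {τ : α → α} {p q : α}

/-! ### the number of elements 'in' under the exchange of a minimal tree -/

/-- the tree is minimal -/
def MinT (i : ℕ) (ε : α → ℕ) (p q : α) : Prop := ε p = 1 ∧ ε q = 1 ∧ ∀ y ∈ bd i p, ε y = 0

lemma Swp.minT (S : Swp i ε p q) (B : SwpB m Z τ) (hZ : Z (bd i p)) (h : MinT i ε p q) :
    MinT i (ε ∘ psw p (prt m p) q (τ q)) (prt m p) (τ q) := by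
  have D := S.pqd B hZ
  obtain ⟨y, y', _, b1, b2⟩ := D.bd_eq B.hg
  refine ⟨?_, ?_, ?_⟩
  · simp only [Function.comp, D.psw_p' B.hg]
    exact h.1
  · simp only [Function.comp, D.psw_q' B.hg]
    exact h.2.1
  · intro t ht
    have ht' : t ∈ bd i p := by rw [b1, ← b2]; exact ht
    simp only [Function.comp]
    rw [D.psw_lev B.hg (bd_lev B.hg S.dp ht')]
    exact h.2.2 t ht'

/-- the exchange of a minimal tree below level `i` -/
theorem Swp.inF_below (S : Swp i ε p q) (B : SwpB m Z τ) (hZ : Z (bd i p)) (hε : GoodE i ε)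
    (h : MinT i ε p q) (hb : i < corank p) :
    (inF i (ε ∘ psw p (prt m p) q (τ q))).card + 3 = (inF i ε).card := by
  have hg := B.hg
  have hl := B.hl
  have D := S.pqd B hZ
  have T := S.evT B hZ
  have F := T.flipD D hg hl hε
  have hgood := S.good B hZ hε
  have c1 := card_inF hg hl hε
  have c2 := card_inF hg hl hgood
  have hns := D.ne hg
  have hsd := D.sides
  obtain ⟨y, y', hyy, b1, b2⟩ := D.bd_eq hg
  have dp := S.dp
  have dq := S.dq
  have dq' := D.symm.dsq hg
  have dp' := D.symm.dsp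
  have z' := T.zero
  have zq' := T.zero' D hg hl hε
  -- the free elements
  have hpF : p ∈ Fo i ε := by
    rw [mem_Fo]
    refine ⟨ds_pos (by omega), ?_, ?_⟩
    · rintro ⟨t, h1, h2⟩
      by_cases h3 : t = q
      · rw [h3, h.1, h.2.1] at h2
        omega
      · have := S.wp t h1 h3
        omega
    · rintro ⟨t, h1, h2⟩
      have := h.2.2 t (mem_bd.2 h1)
      rw [h.1] at h2
      omega
  have hqF : q ∉ Fo i ε := by
    rw [mem_Fo]
    rintro ⟨_, _, h3⟩
    exact h3 ⟨p, S.frpq, by rw [h.1, h.2.1]⟩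
  have hpF' : prt m p ∉ Fo i ε := by
    rw [mem_Fo]
    rintro ⟨_, _, h3⟩
    exact h3 ⟨y, by rw [← mem_bd, b2]; simp, by rw [z']; omega⟩
  have hqF' : τ q ∉ Fo i ε := by
    rw [mem_Fo]
    rintro ⟨_, _, h3⟩
    exact h3 ⟨prt m p, D.symm.frpq, by rw [zq']; omega⟩
  have hFo : Fo i (ε ∘ psw p (prt m p) q (τ q)) = insert (prt m p) ((Fo i ε).erase p) := by
    rw [F.Fo_eq hg hl]
    ext t
    rw [mem_image, mem_insert, mem_erase]
    constructor
    · rintro ⟨s, hs, rfl⟩
      by_cases h1 : s = p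
      · left
        rw [h1, D.psw_p hg]
      · have h2 : s ≠ prt m p := fun h => hpF' (h ▸ hs)
        have h3 : s ≠ q := fun h => hqF (h ▸ hs)
        have h4 : s ≠ τ q := fun h => hqF' (h ▸ hs)
        rw [PQD.psw_of h1 h2 h3 h4]
        exact Or.inr ⟨h1, hs⟩
    · rintro (rfl | ⟨h1, h2⟩)
      · exact ⟨p, hpF, D.psw_p hg⟩
      · refine ⟨t, h2, PQD.psw_of h1 (fun h => hpF' (h ▸ h2)) (fun h => hqF (h ▸ h2))
          (fun h => hqF' (h ▸ h2))⟩
  -- the far dominated elements
  have hFd : Fd i (ε ∘ psw p (prt m p) q (τ q)) = Fd i ε := by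
    rw [F.Fd_eq]
    have n1 : p ∉ Fd i ε := by
      rw [mem_Fo] at hpF
      unfold Fd
      rw [mem_filter]
      exact fun h => hpF.2.1 h.2.2
    have n2 : q ∉ Fd i ε := by
      unfold Fd
      rw [mem_filter]
      rintro ⟨_, _, t, h1, h2⟩
      have := S.tq t h1
      omega
    have n3 : prt m p ∉ Fd i ε := by
      unfold Fd
      rw [mem_filter]
      rintro ⟨_, _, t, h1, h2⟩
      have := T.far' D hg hl hε h1
      omega
    have n4 : τ q ∉ Fd i ε := by
      unfold Fd
      rw [mem_filter]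
      rintro ⟨_, _, t, h1, h2⟩
      have := T.farq' D hg hl hε h1
      omega
    ext t
    rw [mem_image]
    constructor
    · rintro ⟨s, hs, rfl⟩
      have k1 : s ≠ p := fun h => n1 (h ▸ hs)
      have k2 : s ≠ prt m p := fun h => n3 (h ▸ hs)
      have k3 : s ≠ q := fun h => n2 (h ▸ hs)
      have k4 : s ≠ τ q := fun h => n4 (h ▸ hs)
      rw [PQD.psw_of k1 k2 k3 k4]
      exact hs
    · intro hs
      have k1 : t ≠ p := fun h => n1 (h ▸ hs)
      have k2 : t ≠ prt m p := fun h => n3 (h ▸ hs)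
      have k3 : t ≠ q := fun h => n2 (h ▸ hs)
      have k4 : t ≠ τ q := fun h => n4 (h ▸ hs)
      exact ⟨t, hs, PQD.psw_of k1 k2 k3 k4⟩
  have habove : ((Fo i (ε ∘ psw p (prt m p) q (τ q))).filter fun p => corank p < i).card =
      ((Fo i ε).filter fun p => corank p < i).card + 1 := by
    rw [hFo, filter_insert, if_pos (by omega), card_insert_of_notMem]
    · congr 2
      ext t
      rw [mem_filter, mem_filter, mem_erase]
      constructor
      · rintro ⟨⟨_, h1⟩, h2⟩
        exact ⟨h1, h2⟩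
      · rintro ⟨h1, h2⟩
        exact ⟨⟨fun h3 => by rw [h3] at h2; omega, h1⟩, h2⟩
    · rw [mem_filter, mem_erase]
      exact fun h => hpF' h.1.2
  -- the elements of level `i`
  have hYin : Yin i ε = Yin i (ε ∘ psw p (prt m p) q (τ q)) ∪ bd i p := by
    ext t
    unfold Yin
    rw [mem_union, mem_filter, mem_filter]
    constructor
    · rintro ⟨h1, h2⟩
      by_cases h3 : t ∈ bd i p
      · exact Or.inr h3
      · left
        have ht := mem_lev.1 h1
        refine ⟨h1, ?_⟩
        rw [inE_lev ht] at h2 ⊢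
        obtain ⟨x, hx, hlt⟩ := h2
        have hfx : fr i t x := fr_of_below ht.ge hx
        have dx := fr_ds hg hfx
        rw [ds_eq_zero.2 ht] at dx
        refine ⟨x, hx, ?_⟩
        have e1 : (ε ∘ psw p (prt m p) q (τ q)) t = ε t := F.val_lev ht
        rw [e1, Swp.val_of]
        · exact hlt
        · rintro rfl
          exact h3 (mem_bd.2 hfx)
        · rintro rfl
          apply h3
          rw [b1, ← b2]
          exact mem_bd.2 hfx
        · rintro rfl
          omega
        · rintro rfl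
          omega
    · rintro (⟨h1, h2⟩ | h1)
      · have ht := mem_lev.1 h1
        refine ⟨h1, ?_⟩
        rw [inE_lev ht] at h2 ⊢
        obtain ⟨x, hx, hlt⟩ := h2
        have hfx : fr i t x := fr_of_below ht.ge hx
        have dx := fr_ds hg hfx
        rw [ds_eq_zero.2 ht] at dx
        have hxi := hg x t hx
        have e1 : (ε ∘ psw p (prt m p) q (τ q)) t = ε t := F.val_lev ht
        rw [e1] at hlt
        by_cases h3 : x = p
        · exfalso
          rw [h3] at hlt
          simp only [Function.comp, D.psw_p hg] at hlt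
          omega
        · refine ⟨x, hx, ?_⟩
          rw [Swp.val_of h3] at hlt
          · exact hlt
          · rintro rfl
            omega
          · rintro rfl
            omega
          · rintro rfl
            omega
      · have ht := bd_lev hg dp h1
        refine ⟨mem_lev.2 ht, ?_⟩
        rw [inE_lev ht]
        exact ⟨p, (fr_below' hg (mem_bd.1 h1) hb).2, by rw [h.1, h.2.2 t h1]; omega⟩
  have hdis : Disjoint (Yin i (ε ∘ psw p (prt m p) q (τ q))) (bd i p) := by
    rw [Finset.disjoint_left]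
    intro t h1 h2
    unfold Yin at h1
    rw [mem_filter] at h1
    have ht := mem_lev.1 h1.1
    obtain ⟨x, hx, hlt⟩ := (inE_lev ht).1 h1.2
    have hfx : fr i t x := fr_of_below ht.ge hx
    have hxi := hg x t hx
    have hfp : fr i t (prt m p) := by rw [← mem_bd, b2, ← b1]; exact h2
    have e2 : (ε ∘ psw p (prt m p) q (τ q)) t < (ε ∘ psw p (prt m p) q (τ q)) (prt m p) := by
      have e1 : (ε ∘ psw p (prt m p) q (τ q)) t = ε t := F.val_lev ht
      rw [e1, h.2.2 t h2]
      simp only [Function.comp, D.psw_p' hg]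
      rw [h.1]
      omega
    have := same_side hg hgood ht hfx hfp hlt e2
    omega
  have hc : (Yin i ε).card = (Yin i (ε ∘ psw p (prt m p) q (τ q))).card + 2 := by
    rw [hYin, card_union_of_disjoint hdis, S.bp]
  rw [hFd, habove] at c2
  omega

/-- the difference of the numbers of elements 'in' -/
theorem Swp.inF_diff (S : Swp i ε p q) (B : SwpB m Z τ) (hZ : Z (bd i p)) (hε : GoodE i ε)
    (h : MinT i ε p q) :
    ((inF i ε).card : ℤ) - (inF i (ε ∘ psw p (prt m p) q (τ q))).card =
      if i < corank p then 3 else -3 := by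
  split_ifs with hb
  · have := S.inF_below B hZ hε h hb
    omega
  · have hsd := (S.pqd B hZ).sides
    have h1 := (S.swp B hZ hε).inF_below B (S.Zprt B hZ) (S.good B hZ hε) (S.minT B hZ h) (by omega)
    rw [S.back B hZ] at h1
    omega

/-! ### the toggle does not change the exchanges -/

/-- the exchange is possible after the toggle -/
theorem Swp.togS (hgr : Grad α) (S : Swp i ε p q) {y x x' g : α} (A : AD i y x x' g ε) :
    Swp i (tog y g ε) p q := by
  have D := A.D
  have E := A.E
  have dg := D.ds_g hgr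
  have dy := D.ds_y
  have dp := S.dp
  have dq := S.dq
  have hbg : bd i g = {x, x'} := by
    ext t
    rw [mem_bd, mem_insert, mem_singleton]
    constructor
    · exact D.only t
    · rintro (rfl | rfl)
      · exact D.hg
      · exact D.hg'
  have npg : ¬ fr i p g := by
    intro h
    have h1 : g ≠ q := by
      rintro rfl
      have h2 := S.bq
      rw [hbg] at h2
      have h3 := card_pair D.hne
      rw [h2, card_singleton] at h3
      omega
    have := S.wp g h h1
    have := E.pg
    omega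
  have npx : p ≠ x := by
    rintro rfl
    exact npg D.hg
  have npx' : p ≠ x' := by
    rintro rfl
    exact npg D.hg'
  have nyp : ¬ fr i y p := by
    intro h
    have := E.zero p h npx npx'
    have := S.p0
    omega
  have val : ∀ t, t ≠ y → t ≠ g → tog y g ε t = ε t := fun t h1 h2 => tog_of_ne h1 h2
  have v1 : ∀ t, ds i t = 1 → tog y g ε t = ε t := fun t h =>
    val t (ds_ne (i := i) (by omega)) (ds_ne (i := i) (by omega))
  have hqg : q ≠ g := by
    rintro rfl
    exact npg S.frpq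
  have vq : tog y g ε q = ε q := val q (ds_ne (i := i) (by omega)) hqg
  have vb : ∀ t ∈ bd i p, tog y g ε t = ε t := by
    intro t ht
    have ht' : ds i t = 0 := ds_eq_zero.2 (bd_lev hgr dp ht)
    refine val t ?_ (ds_ne (i := i) (by omega))
    rintro rfl
    exact nyp (mem_bd.1 ht)
  exact
    { dp := dp
      bp := S.bp
      dq := dq
      bq := S.bq
      p0 := by rw [v1 p dp]; exact S.p0
      q0 := by rw [vq]; exact S.q0
      wp := by
        intro w hw hne
        have dw : ds i w = 2 := by rw [fr_ds hgr hw, dp]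
        rw [val w (ds_ne (i := i) (by omega)) (fun h => npg (h ▸ hw))]
        exact S.wp w hw hne
      tq := by
        intro t ht
        have dt : ds i t = 3 := by rw [fr_ds hgr ht, dq]
        rw [val t (ds_ne (i := i) (by omega)) (ds_ne (i := i) (by omega))]
        exact S.tq t ht
      dom := by
        obtain ⟨t, ht, hlt⟩ := S.dom
        exact ⟨t, ht, by rw [vb t ht, v1 p dp]; exact hlt⟩
      free := by
        intro t ht hlt p2 hp2 hne
        rw [vb t ht, v1 p dp] at hlt
        have d2 : ds i p2 = 1 := by rw [fr_ds hgr hp2, ds_eq_zero.2 (bd_lev hgr dp ht)]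
        rw [vb t ht, v1 p2 d2]
        exact S.free t ht hlt p2 hp2 hne
      par := by
        intro p2 hne hb
        obtain ⟨t, ht, hlt⟩ := S.dom
        have d2 : ds i p2 = 1 := by
          rw [← hb] at ht
          have h1 := fr_ds hgr (mem_bd.1 ht)
          rw [hb] at ht
          rw [h1, ds_eq_zero.2 (bd_lev hgr dp ht)]
        rw [v1 p2 d2]
        exact S.par p2 hne hb }

lemma swE_tog (hgr : Grad α) {y x x' g : α} (A : AD i y x x' g ε) :
    swE i Z (tog y g ε) = swE i Z ε := by
  funext S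
  apply propext
  constructor
  · rintro ⟨h1, p, q, h2, h3⟩
    have h4 := h2.togS hgr (A.tog hgr)
    rw [tog_tog hgr A.D A.E.pg] at h4
    exact ⟨h1, p, q, h4, h3⟩
  · rintro ⟨h1, p, q, h2, h3⟩
    exact ⟨h1, p, q, h2.togS hgr A, h3⟩

/-! ### the sum -/

/-- the side of the chosen tree -/
def SelB (i : ℕ) (ε : α → ℕ) : Prop :=
  ∃ p q, Swp i ε p q ∧ bd i p = swSel i allZ ε ∧ i < corank p

/-- the configurations with three missing peaks -/
structure L3C (m : Mat α i) (n : ℕ) (ε : α → ℕ) : Prop where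
  e : ∑ p, ε p = 6
  pk : (pkF i ε).card + 3 = n
  has : ∃ p q, Swp i ε p q
  min : ∀ p q, Swp i ε p q → MinT i ε p q
  sec : HasAD i ε ∨ ∀ S : Finset α, ∃ p q, Swp i ε p q ∧ bd i p ≠ S

/-- the second move -/
noncomputable def mv2 (m : Mat α i) (τ : α → α) (ε : α → ℕ) : α → ℕ :=
  if HasAD i ε then togA i ε else swI m (fun S => S ≠ swSel i allZ ε) τ ε

lemma neg_pow_of_odd {a b : ℕ} (h : Odd (a + b)) : (-1 : ℤ) ^ b = - (-1) ^ a := by
  have e1 : ((-1 : ℤ)) ^ a * (-1) ^ b = -1 := by
    rw [← pow_add, h.neg_one_pow]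
  have e2 : ((-1 : ℤ)) ^ a * (-1) ^ a = 1 := by
    rw [← mul_pow]
    simp
  calc ((-1 : ℤ)) ^ b = ((-1) ^ a * (-1) ^ a) * (-1) ^ b := by rw [e2, one_mul]
    _ = (-1) ^ a * ((-1) ^ a * (-1) ^ b) := by ring
    _ = - (-1) ^ a := by rw [e1]; ring

/-- **the properties of the second move** -/
theorem mv2_spec (hB : PB α i) (hpar : NoPar α i) (hD3 : Dbl3 α i) (B : SwpB m allZ τ)
    (h : Cf m ε) (hs : HasAD i ε ∨ ∀ S : Finset α, ∃ p q, Swp i ε p q ∧ bd i p ≠ S) :
    m.Opr 6 ε (mv2 m τ ε) ∧ mv2 m τ (mv2 m τ ε) = ε ∧ (SelB i (mv2 m τ ε) ↔ SelB i ε) := by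
  have hgr := hB.hg
  by_cases h1 : HasAD i ε
  · have h2 := h1
    obtain ⟨y, x, x', g, A⟩ := h2
    have h3 : mv2 m τ ε = tog y g ε := by
      unfold mv2
      rw [if_pos h1, togA_eq_cf hB B.full hpar hD3 h A]
    have h4 : AD i y x x' g (tog y g ε) := A.tog hgr
    have h5 : HasAD i (tog y g ε) := ⟨y, x, x', g, h4⟩
    rw [h3]
    refine ⟨A.opr hB B.full h, ?_, ?_⟩
    · unfold mv2
      rw [if_pos h5, togA_eq_cf hB B.full hpar hD3 (h.tog hB A) h4, tog_tog hgr A.D A.E.pg]
    · unfold SelB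
      rw [swSel_congr (swE_tog hgr A)]
      constructor
      · rintro ⟨p, q, S, b1, b2⟩
        have h6 := S.togS hgr h4
        rw [tog_tog hgr A.D A.E.pg] at h6
        exact ⟨p, q, h6, b1, b2⟩
      · rintro ⟨p, q, S, b1, b2⟩
        exact ⟨p, q, S.togS hgr A, b1, b2⟩
  · have hs' := hs.resolve_left h1
    set Z' : Finset α → Prop := fun S => S ≠ swSel i allZ ε with hZ'
    have B' : SwpB m Z' τ := ⟨B.hg, B.hl, B.full, B.par,
      ⟨fun q hq _ => B.tau.ev q hq trivial, fun q hq _ => B.tau.bb q hq trivial,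
        fun q hq _ => B.tau.side q hq trivial, fun q hq _ => B.tau.inv q hq trivial⟩⟩
    have hH : HasSwp i Z' ε := by
      rw [hasSwp_iff]
      obtain ⟨p, q, S, b⟩ := hs' (swSel i allZ ε)
      exact ⟨p, q, S, b⟩
    have h3 : mv2 m τ ε = swI m Z' τ ε := by
      unfold mv2
      rw [if_neg h1]
    obtain ⟨s1, s2, s3⟩ := swI_spec B' h.good h.red hH
    have h4 : ¬ HasAD i (swI m Z' τ ε) := by
      rw [hasAD_swI B' h.good hH]
      exact h1
    obtain ⟨hZS, p1, q1, S1, hS1⟩ := swSel_spec hH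
    rw [← hS1] at hZS
    have h5 : swI m Z' τ ε = ε ∘ psw p1 (prt m p1) q1 (τ q1) := swI_eq S1 hS1
    have h6 : swE i allZ (swI m Z' τ ε) = swE i allZ ε := by
      rw [h5]
      exact S1.swE_eq B trivial h.good
    have h7 : swSel i allZ (swI m Z' τ ε) = swSel i allZ ε := swSel_congr h6
    rw [h3]
    refine ⟨s1.opr 6, ?_, ?_⟩
    · unfold mv2
      rw [if_neg h4, h7]
      exact s3
    · unfold SelB
      rw [h7]
      constructor
      · rintro ⟨p, q, S, b1, b2⟩
        rw [h5] at S
        have hne : bd i p ≠ bd i (prt m p1) := by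
          obtain ⟨y, y', _, c1, c2⟩ := (S1.pqd B trivial).bd_eq B.hg
          rw [b1, c2, ← c1]
          exact fun h => hZS h.symm
        have h8 := (S1.swp B trivial h.good).other B trivial (S1.good B trivial h.good) S hne
        rw [S1.back B trivial] at h8
        exact ⟨p, q, h8, b1, b2⟩
      · rintro ⟨p, q, S, b1, b2⟩
        rw [h5]
        have hne : bd i p ≠ bd i p1 := by
          rw [b1]
          exact fun h => hZS h.symm
        exact ⟨p, q, S1.other B trivial h.good S hne, b1, b2⟩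

/-- **the sum over the configurations with three missing peaks** -/
theorem loss3_sum (hB : PB α i) (hpar : NoPar α i) (hD3 : Dbl3 α i) (B : SwpB m allZ τ) {n : ℕ}
    (hn : (lev α i).card = n)
    (hc : ∀ ε : α → ℕ, Cf m ε → (pkF i ε).card + 2 < n → L3C m n ε) :
    ∑ ε ∈ ((univ : Finset α).piAntidiag 6).filter
      (fun ε => m.Red ε ∧ GoodE i ε ∧ (pkF i ε).card + 2 < n), (tm i ε).coeff (n - 2) = 0 := by
  have hgr := hB.hg
  set L := ((univ : Finset α).piAntidiag 6).filter
      (fun ε => m.Red ε ∧ GoodE i ε ∧ (pkF i ε).card + 2 < n) with hL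
  have memL : ∀ ε : α → ℕ, ε ∈ L ↔ ∑ p, ε p = 6 ∧ m.Red ε ∧ GoodE i ε ∧
      (pkF i ε).card + 2 < n := by
    intro ε
    rw [hL, mem_filter, mem_piAntidiag]
    exact ⟨fun h => ⟨h.1.1, h.2⟩, fun h => ⟨⟨h.1, fun _ _ => mem_univ _⟩, h.2⟩⟩
  have cfL : ∀ ε ∈ L, Cf m ε := by
    intro ε hε
    rw [memL] at hε
    exact (cf_iff hB hn).2 ⟨hε.2.2.1, hε.2.1, hε.1.le, by omega⟩
  have l3L : ∀ ε ∈ L, L3C m n ε := by
    intro ε hε
    exact hc ε (cfL ε hε) ((memL ε).1 hε).2.2.2
  have oprL : ∀ ε ∈ L, ∀ ε', m.Opr 6 ε ε' → ε' ∈ L := by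
    intro ε hε ε' O
    rw [memL] at hε ⊢
    exact ⟨by rw [O.sum]; exact hε.1, O.red, O.good, by rw [O.pk]; exact hε.2.2.2⟩
  -- the coefficient
  have hcoef : ∀ ε ∈ L, (tm i ε).coeff (n - 2) = - ((-1) ^ (inF i ε).card * (inF i ε).card) := by
    intro ε hε
    have h1 := (l3L ε hε).pk
    have h2 : n - 2 = (pkF i ε).card + 1 := by omega
    rw [h2, tm_coeff (cfL ε hε).good, Nat.choose_one_right]
    rcases Nat.eq_zero_or_pos (inF i ε).card with h3 | h3
    · rw [h3]
      simp
    · obtain ⟨k, hk⟩ : ∃ k, (inF i ε).card = k + 1 := ⟨(inF i ε).card - 1, by omega⟩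
      rw [hk, Nat.add_sub_cancel, pow_succ]
      ring
  rw [Finset.sum_congr rfl hcoef, Finset.sum_neg_distrib, neg_eq_zero]
  -- the first move
  have hsw : ∀ ε ∈ L, HasSwp i allZ ε := by
    intro ε hε
    rw [hasSwp_iff]
    obtain ⟨p, q, S⟩ := (l3L ε hε).has
    exact ⟨p, q, S, trivial⟩
  have first : ∀ ε ∈ L, swI m allZ τ ε ∈ L ∧ swI m allZ τ (swI m allZ τ ε) = ε ∧
      ((-1 : ℤ)) ^ (inF i ε).card * (inF i ε).card +
        (-1) ^ (inF i (swI m allZ τ ε)).card * (inF i (swI m allZ τ ε)).card =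
      (-1) ^ (inF i ε).card * (if SelB i ε then 3 else -3) := by
    intro ε hε
    have hcf := cfL ε hε
    obtain ⟨s1, s2, s3⟩ := swI_spec B hcf.good hcf.red (hsw ε hε)
    refine ⟨oprL ε hε _ (s1.opr 6), s3, ?_⟩
    obtain ⟨hZ, p, q, S, hS⟩ := swSel_spec (hsw ε hε)
    have h1 : swI m allZ τ ε = ε ∘ psw p (prt m p) q (τ q) := swI_eq S hS
    have h2 := S.inF_diff B trivial hcf.good ((l3L ε hε).min p q S)
    rw [neg_pow_of_odd s1.opp, h1]
    have h3 : (if SelB i ε then (3 : ℤ) else -3) = if i < corank p then 3 else -3 := by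
      by_cases h4 : i < corank p
      · rw [if_pos h4, if_pos ⟨p, q, S, hS, h4⟩]
      · rw [if_neg h4, if_neg]
        rintro ⟨p', q', S', b1, b2⟩
        have := (S.unique S' (by rw [b1, hS])).1
        rw [this] at b2
        exact h4 b2
    rw [h3, ← h2]
    ring
  have e1 : ∑ ε ∈ L, ((-1 : ℤ)) ^ (inF i (swI m allZ τ ε)).card * (inF i (swI m allZ τ ε)).card =
      ∑ ε ∈ L, ((-1 : ℤ)) ^ (inF i ε).card * (inF i ε).card := by
    refine Finset.sum_nbij' (swI m allZ τ) (swI m allZ τ) (fun ε hε => (first ε hε).1)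
      (fun ε hε => (first ε hε).1) (fun ε hε => (first ε hε).2.1) (fun ε hε => (first ε hε).2.1)
      (fun ε hε => rfl)
  have e2 : ∑ ε ∈ L, ((-1 : ℤ)) ^ (inF i ε).card * (if SelB i ε then (3 : ℤ) else -3) = 0 := by
    have second : ∀ ε ∈ L, mv2 m τ ε ∈ L ∧ mv2 m τ (mv2 m τ ε) = ε ∧
        ((-1 : ℤ)) ^ (inF i ε).card * (if SelB i ε then (3 : ℤ) else -3) +
        (-1) ^ (inF i (mv2 m τ ε)).card * (if SelB i (mv2 m τ ε) then (3 : ℤ) else -3) = 0 ∧
        Odd ((inF i ε).card + (inF i (mv2 m τ ε)).card) := by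
      intro ε hε
      obtain ⟨t1, t2, t3⟩ := mv2_spec hB hpar hD3 B (cfL ε hε) (l3L ε hε).sec
      refine ⟨oprL ε hε _ t1, t2, ?_, t1.opp⟩
      rw [neg_pow_of_odd t1.opp]
      simp only [t3]
      ring
    refine Finset.sum_involution (fun ε _ => mv2 m τ ε) ?_ ?_ ?_ ?_
    · intro ε hε
      exact (second ε hε).2.2.1
    · intro ε hε _ h5
      obtain ⟨k, hk⟩ := (second ε hε).2.2.2
      rw [h5] at hk
      omega
    · intro ε hε
      exact (second ε hε).1
    · intro ε hε
      exact (second ε hε).2.1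
  have e3 : ∑ ε ∈ L, (((-1 : ℤ)) ^ (inF i ε).card * (inF i ε).card +
      (-1) ^ (inF i (swI m allZ τ ε)).card * (inF i (swI m allZ τ ε)).card) = 0 := by
    rw [Finset.sum_congr rfl (fun ε hε => (first ε hε).2.2)]
    exact e2
  rw [Finset.sum_add_distrib, e1] at e3
  omega

end Pool.Gauss
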