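import Pool.Agent.Work.MP_065141_co.K.V6Asm
import Pool.Agent.Work.MP_065141_co.K.V3Law
import Pool.Agent.Work.MP_065141_co.K.V5Law
import Pool.Agent.Work.MP_065141_co.K.V6Law

/-!
# The laws V3, V5, V6 in planar coordinates, without hypotheses
-/

set_option autoImplicit false
set_option linter.unusedSectionVars false
set_option linter.unusedVariables false
open scoped Classical
open Finset

namespace Pool.Gauss

variable {α : Type} [Fintype α] [PartialOrder α]

namespace Pln

variable {lo hi : α → ℕ → ℕ} {i : ℕ} {f : α → ℕ → ℕ → α}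

/-- **V6 at every perfect base without objects J** (`JEv`, `JtEv` empty is automatic for
`b + 3 ≤ i`) -/
theorem V6_all' (h : Pln lo hi i f) (C : CtxK α) (hiH : i ≤ HT α) (hP : ∀ j < i, Perf α j)
    {b : ℕ} (hb : b + 1 ≤ i) (hJ : JEv α b = ∅) (hJt : JtEv α b = ∅) : V6Conc lo hi f b := by
  obtain ⟨h1, h2⟩ := h.V5_zero_of C hiH hP hb hJ
  have h3 : ∀ j, b = j + 2 → ∀ a, corank a = 0 → H0 lo hi f j a := by
    intro j hj
    exact (h.V5_zero_of C hiH hP (by omega) (h.JEv_empty C (by omega))).1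
  have h4 := (h.HS_zero_iff C hb).2 h1
  obtain ⟨hh, hG⟩ := C.gauss
  obtain ⟨m, hF⟩ := exists_full C hiH hP hb
  have hB := h.pb C hiH hP hb
  have hN := h.noPar C hP hb
  refine h.V6_conc C hiH hP hb h1 h2 h3 (V3L_of hB hN hG m hF h4)
    (V6L_of hG m hB hF hN ?_ ?_ ?_ h4)
  · rw [C.dS_eq, h2, h.DEv'_empty C (by omega), union_empty]
  · rw [C.jS_eq, hJ, h.JEv'_empty C (by omega), union_empty]
  · rw [C.jtS_eq, hJt, h.JtEv'_empty C (by omega), union_empty]

/-- **V6 in the perfect rows** -/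
theorem V6_words' (h : Pln lo hi i f) (C : CtxK α) (hiH : i ≤ HT α) (hP : ∀ j < i, Perf α j)
    {b : ℕ} (hb : b + 3 ≤ i) : V6Conc lo hi f b :=
  h.V6_all' C hiH hP (by omega) (h.JEv_empty C hb) (h.JtEv_empty C hb)

end Pln

end Pool.Gauss
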