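import Pool.Agent.Work.MP_065141_co.K.V6Conv

/-!
# The laws V3, V5, V6 in planar coordinates
-/

set_option autoImplicit false
set_option linter.unusedSectionVars false
set_option linter.unusedVariables false
open scoped Classical
open Finset

namespace Pool.Gauss

variable {α : Type} [Fintype α] [PartialOrder α]

/-- ordered touching pairs of neighbours -/
lemma adj_ordered (H : ℕ → ℤ) {l u : ℕ} (h : l ≤ u) :
    ∑ c ∈ Ico l u, ∑ c' ∈ Ico l u, (if c = c' + 1 ∨ c' = c + 1 then H c * H c' else 0) =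
      2 * ∑ c ∈ Ico l (u - 1), H c * H (c + 1) := by
  obtain ⟨n, rfl⟩ : ∃ n, u = l + n := ⟨u - l, by omega⟩
  have h1 := frm_eq H l n
  have h2 : frm H l (l + n) = ∑ c ∈ Ico l (l + n), H c ^ 2 +
      ∑ c ∈ Ico l (l + n), ∑ c' ∈ Ico l (l + n),
        (if c = c' + 1 ∨ c' = c + 1 then H c * H c' else 0) := by
    unfold frm
    rw [← sum_add_distrib]
    apply sum_congr rfl
    intro c hc
    have h3 : ∀ c' ∈ Ico l (l + n), (if c = c' ∨ c = c' + 1 ∨ c' = c + 1 then H c * H c' else 0) =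
        (if c' = c then H c * H c' else 0) +
          (if c = c' + 1 ∨ c' = c + 1 then H c * H c' else 0) := by
      intro c' _
      by_cases h4 : c = c'
      · rw [if_pos (Or.inl h4), if_pos h4.symm, if_neg (by omega), add_zero]
      · by_cases h5 : c = c' + 1 ∨ c' = c + 1
        · rw [if_pos (Or.inr h5), if_neg (fun h6 => h4 h6.symm), if_pos h5, zero_add]
        · rw [if_neg (fun h6 => h6.elim h4 h5), if_neg (fun h6 => h4 h6.symm), if_neg h5, add_zero]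
    rw [sum_congr rfl h3, sum_add_distrib, sum_ite_eq' (Ico l (l + n)) c, if_pos hc]
    ring
  linarith

namespace Pln

variable {lo hi : α → ℕ → ℕ} {i : ℕ} {f : α → ℕ → ℕ → α}

/-- sums over the events, with signs -/
lemma sum_evtS (h : Pln lo hi i f) (C : CtxK α) {b : ℕ} (hb : b + 1 ≤ i) (F : Finset α → ℤ) :
    ∑ q ∈ evtS α b, sg b q * F (BB b q) =
      ∑ p ∈ prs lo hi b, HH f b p.1 p.2 * F (pr2 f b p.1 p.2) := by
  rw [C.evtS_eq, sum_union CtxK.relp_disj]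
  have h1 := h.sum_PEv C hb F
  have h2 := h.sum_QEv C (by omega : b ≤ i) F
  have e1 : ∑ q ∈ PEv α b, sg b q * F (BB b q) = ∑ w ∈ PEv α b, F (Pr2 w) := by
    apply sum_congr rfl
    intro q hq
    have h3 := (mem_PEv.1 hq).1
    rw [C.relp_BB_below h3]
    unfold sg
    rw [if_neg (by omega), one_mul]
  have e2 : ∑ q ∈ QEv α b, sg b q * F (BB b q) = - ∑ w ∈ QEv α b, F (Ch2 w) := by
    rw [← sum_neg_distrib]
    apply sum_congr rfl
    intro q hq
    have h3 := (mem_QEv.1 hq).1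
    rw [C.relp_BB_above h3]
    unfold sg
    rw [if_pos (by omega), neg_one_mul]
  rw [e1, e2, h1, h2, ← sum_neg_distrib, ← sum_add_distrib]
  apply sum_congr rfl
  intro p _
  unfold HH
  rw [nsmul_eq_mul, nsmul_eq_mul]
  ring

/-- the sum of the signs of the events over a pair -/
lemma HS_eq (h : Pln lo hi i f) (C : CtxK α) {b : ℕ} (hb : b + 1 ≤ i) (S : Finset α) :
    HS b S = ∑ p ∈ prs lo hi b, if pr2 f b p.1 p.2 = S then HH f b p.1 p.2 else 0 := by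
  unfold HS
  rw [sum_filter]
  have h1 := h.sum_evtS C hb (fun T => if T = S then 1 else 0)
  simp only [mul_ite, mul_one, mul_zero] at h1
  exact h1

lemma HS_pr2 (h : Pln lo hi i f) (C : CtxK α) {a : α} {b c : ℕ} (ha : corank a = 0)
    (hb : b + 1 ≤ i) (h1 : lo a b ≤ c) (h2 : c + 1 ≤ hi a b) :
    HS b (pr2 f b a c) = HH f b a c := by
  have hp : (a, c) ∈ prs lo hi b := mem_prs.2 ⟨ha, h1, h2⟩
  rw [h.HS_eq C hb, sum_eq_single (a, c)]
  · rw [if_pos rfl]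
  · intro q hq hne
    rw [if_neg]
    intro h3
    exact hne (h.pr2_inj (by omega) hq hp h3)
  · intro h3
    exact (h3 hp).elim

/-- all sums of signs vanish if and only if `HH = 0` -/
lemma HS_zero_iff (h : Pln lo hi i f) (C : CtxK α) {b : ℕ} (hb : b + 1 ≤ i) :
    (∀ S : Finset α, HS b S = 0) ↔ ∀ a, corank a = 0 → H0 lo hi f b a := by
  constructor
  · intro h1 a ha c h2 h3
    rw [← h.HS_pr2 C ha hb h2 h3]
    exact h1 _
  · intro h1 S
    rw [h.HS_eq C hb]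
    apply sum_eq_zero
    intro p hp
    rw [mem_prs] at hp
    split_ifs
    · exact h1 p.1 hp.1 p.2 hp.2.1 hp.2.2
    · rfl

lemma card_pr2_inter (h : Pln lo hi i f) {b : ℕ} (hb : b ≤ i) {p q : α × ℕ}
    (hp : p ∈ prs lo hi b) (hq : q ∈ prs lo hi b) :
    (pr2 f b p.1 p.2 ∩ pr2 f b q.1 q.2).card = 1 ↔
      p.1 = q.1 ∧ (p.2 = q.2 + 1 ∨ q.2 = p.2 + 1) := by
  have hp' := mem_prs.1 hp
  have hq' := mem_prs.1 hq
  have hd := h.pr2_disj hb hp hq
  constructor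
  · intro h1
    have h2 : ¬ Disjoint (pr2 f b p.1 p.2) (pr2 f b q.1 q.2) := by
      rw [disjoint_iff_inter_eq_empty]
      intro h3
      rw [h3] at h1
      simp at h1
    obtain ⟨h3, h4⟩ := hd.1 h2
    refine ⟨h3, ?_⟩
    rcases h4 with h4 | h4
    · exfalso
      rw [h3, h4, inter_self, h.card_pr2 hb hq'.1 hq'.2.1 hq'.2.2] at h1
      omega
    · exact h4
  · rintro ⟨h1, h2⟩
    have h3 : ¬ Disjoint (pr2 f b p.1 p.2) (pr2 f b q.1 q.2) := hd.2 ⟨h1, Or.inr h2⟩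
    have h4 : (pr2 f b p.1 p.2 ∩ pr2 f b q.1 q.2).card ≤ 2 := by
      rw [← h.card_pr2 hb hp'.1 hp'.2.1 hp'.2.2]
      exact card_le_card inter_subset_left
    have h5 : (pr2 f b p.1 p.2 ∩ pr2 f b q.1 q.2).card ≠ 0 := by
      rw [Ne, card_eq_zero, ← disjoint_iff_inter_eq_empty]
      exact h3
    have h6 : (pr2 f b p.1 p.2 ∩ pr2 f b q.1 q.2).card ≠ 2 := by
      intro h7
      have e1 : pr2 f b p.1 p.2 ∩ pr2 f b q.1 q.2 = pr2 f b p.1 p.2 :=
        Finset.eq_of_subset_of_card_le inter_subset_left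
          (by rw [h7, h.card_pr2 hb hp'.1 hp'.2.1 hp'.2.2])
      have e2 : pr2 f b p.1 p.2 ∩ pr2 f b q.1 q.2 = pr2 f b q.1 q.2 :=
        Finset.eq_of_subset_of_card_le inter_subset_right
          (by rw [h7, h.card_pr2 hb hq'.1 hq'.2.1 hq'.2.2])
      have e3 := h.pr2_inj hb hp hq (by rw [← e1, e2])
      rw [e3] at h2
      omega
    omega

/-- the ordered touching pairs of events in coordinates -/
lemma sum_touch (h : Pln lo hi i f) (C : CtxK α) {b : ℕ} (hb : b + 1 ≤ i) :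
    ∑ q ∈ evtS α b, ∑ q' ∈ evtS α b, (if (BB b q ∩ BB b q').card = 1 then sg b q * sg b q' else 0) =
      2 * ∑ a ∈ lev α 0, ∑ c ∈ Ico (lo a b) (hi a b - 1), HH f b a c * HH f b a (c + 1) := by
  have e1 : ∀ q ∈ evtS α b, ∑ q' ∈ evtS α b,
      (if (BB b q ∩ BB b q').card = 1 then sg b q * sg b q' else 0) =
      sg b q * ∑ p ∈ prs lo hi b, HH f b p.1 p.2 *
        (if (BB b q ∩ pr2 f b p.1 p.2).card = 1 then 1 else 0) := by
    intro q _
    rw [← h.sum_evtS C hb (fun T => if (BB b q ∩ T).card = 1 then 1 else 0), mul_sum]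
    apply sum_congr rfl
    intro q' _
    split_ifs <;> ring
  rw [sum_congr rfl e1, h.sum_evtS C hb (fun S => ∑ p ∈ prs lo hi b, HH f b p.1 p.2 *
    (if (S ∩ pr2 f b p.1 p.2).card = 1 then 1 else 0)), sum_prs, mul_sum]
  apply sum_congr rfl
  intro a ha
  rw [mem_lev] at ha
  rw [← adj_ordered (HH f b a) (h.le a b ha (by omega))]
  apply sum_congr rfl
  intro c hc
  rw [mem_Ico] at hc
  have hp : (a, c) ∈ prs lo hi b := mem_prs.2 ⟨ha, hc.1, by simp only; omega⟩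
  simp only
  rw [sum_prs, mul_sum, sum_eq_single a]
  · rw [mul_sum]
    apply sum_congr rfl
    intro c' hc'
    rw [mem_Ico] at hc'
    have hq : (a, c') ∈ prs lo hi b := mem_prs.2 ⟨ha, hc'.1, by simp only; omega⟩
    have h1 := h.card_pr2_inter (by omega : b ≤ i) hp hq
    simp only at h1
    by_cases h2 : c = c' + 1 ∨ c' = c + 1
    · rw [if_pos (h1.2 ⟨by simp, h2⟩), if_pos h2]
      ring
    · rw [if_neg (fun h3 => h2 (h1.1 h3).2), if_neg h2]
      ring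
  · intro a' ha' hne
    rw [mem_lev] at ha'
    rw [sum_eq_zero, mul_zero]
    intro c' hc'
    rw [mem_Ico] at hc'
    have hq : (a', c') ∈ prs lo hi b := mem_prs.2 ⟨ha', hc'.1, by simp only; omega⟩
    have h1 := h.card_pr2_inter (by omega : b ≤ i) hp hq
    simp only at h1
    rw [if_neg (fun h3 => hne (h1.1 h3).1.symm), mul_zero]
  · intro h3
    exact (h3 (mem_lev.2 ha)).elim

/-! ### no objects J, D above, none below in the rows in coordinates -/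

/-- two Q-elements with a common parent have the same child -/
lemma QQ_same (h : Pln lo hi i f) (C : CtxK α) {b : ℕ} (hb : b ≤ i) {v : α}
    (hv : corank v + 3 = b) (hQ : ∀ w ∈ Ch v, w ∈ QEv α b) {w w' : α} (hw : w ∈ Ch v)
    (hw' : w' ∈ Ch v) : Ch w = Ch w' := by
  obtain ⟨j, rfl⟩ : ∃ j, b = j + 3 := ⟨b - 3, by omega⟩
  obtain ⟨a, c, ha, h1, h2, rfl⟩ := h.sur' (r := j) (by omega) (by omega : corank v = j)
  have key : ∀ w ∈ Ch (f a j c), ∃ e, (e = c ∨ e = c + 1) ∧ lo a (j + 1) ≤ e ∧ e ≤ hi a (j + 1) ∧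
      w = f a (j + 1) e ∧ ((e = lo a (j + 1) ∧ lo a (j + 2) = lo a (j + 1) + 1 ∧
        Ch w = {f a (j + 2) (lo a (j + 2))}) ∨ (e = hi a (j + 1) ∧ hi a (j + 2) = hi a (j + 1) ∧
        Ch w = {f a (j + 2) (hi a (j + 2))})) := by
    intro w hw
    have hQw := hQ w hw
    rw [h.mem_Ch C ha (by omega) h1 h2] at hw
    obtain ⟨e, e1, e2, e3, rfl⟩ := hw
    obtain ⟨a1, ha1, _, h4 | h4⟩ := h.Q_cases C (b := j + 1) (by omega) hQw
    · have hle := h.le a1 (j + 1) ha1 (by omega)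
      obtain ⟨rfl, e4⟩ := h.inj a a1 (j + 1) e _ ha ha1 (by omega) e2 e3 le_rfl hle h4.2
      have e5 : lo a (j + 2) = lo a (j + 1) + 1 := h4.1.1
      refine ⟨e, e1, e2, e3, rfl, Or.inl ⟨e4, e5, ?_⟩⟩
      rw [e4]
      exact h.Ch_lo C ha (r := j + 1) (by omega) e5
    · have hle := h.le a1 (j + 1) ha1 (by omega)
      obtain ⟨rfl, e4⟩ := h.inj a a1 (j + 1) e _ ha ha1 (by omega) e2 e3 hle le_rfl h4.2
      have e5 : hi a (j + 2) = hi a (j + 1) := h4.1.1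
      refine ⟨e, e1, e2, e3, rfl, Or.inr ⟨e4, e5, ?_⟩⟩
      rw [e4]
      exact h.Ch_hi C ha (r := j + 1) (by omega) e5
  obtain ⟨e, e1, e2, e3, rfl, e4⟩ := key w hw
  obtain ⟨e', e1', e2', e3', rfl, e4'⟩ := key w' hw'
  have g1 := h.le a (j + 2) ha (by omega)
  have g2 : lo a (j + 1) ≤ lo a (j + 2) ∧ lo a (j + 2) ≤ lo a (j + 1) + 1 :=
    h.loS a (j + 1) ha (by omega)
  by_cases he : e = e'
  · rw [he]
  · rcases e4 with ⟨k1, k2, k3⟩ | ⟨k1, k2, k3⟩ <;> rcases e4' with ⟨k1', k2', k3'⟩ | ⟨k1', k2', k3'⟩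
    · omega
    · rw [k3, k3']
      congr 2
      omega
    · rw [k3, k3']
      congr 2
      omega
    · omega

/-- two P-elements with a common child, rows in coordinates, have the same parent -/
lemma PP_same (h : Pln lo hi i f) (C : CtxK α) {b : ℕ} (hb : b + 3 ≤ i) {v : α}
    (hv : corank v = b + 3) (hP : ∀ w ∈ Pr v, w ∈ PEv α b) {w w' : α} (hw : w ∈ Pr v)
    (hw' : w' ∈ Pr v) : Pr w = Pr w' := by
  obtain ⟨a, c, ha, h1, h2, rfl⟩ := h.sur' (r := b + 3) hb hv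
  have key : ∀ w ∈ Pr (f a (b + 3) c), ∃ e, (e = c ∨ e + 1 = c) ∧ lo a (b + 2) ≤ e ∧
      e ≤ hi a (b + 2) ∧ w = f a (b + 2) e ∧
      ((e = lo a (b + 1) ∧ lo a (b + 2) = lo a (b + 1) ∧ Pr w = {f a (b + 1) (lo a (b + 1))}) ∨
        (e = hi a (b + 1) + 1 ∧ hi a (b + 2) = hi a (b + 1) + 1 ∧
          Pr w = {f a (b + 1) (hi a (b + 1))})) := by
    intro w hw
    have hPw := hP w hw
    have hw2 : w ∈ Pr (f a (b + 2 + 1) c) := hw
    rw [h.pr a (b + 2) c ha (by omega) h1 h2] at hw2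
    obtain ⟨e, e1, e2, e3, rfl⟩ := hw2
    obtain ⟨a1, ha1, _, h4 | h4⟩ := h.P_cases (b := b) (by omega) hPw
    · have l1 := h.le a1 (b + 1) ha1 (by omega)
      have l2 := h.le a1 (b + 2) ha1 (by omega)
      have l3 : lo a1 (b + 2) = lo a1 (b + 1) := h4.1.2
      have l4 : hi a1 (b + 1) ≤ hi a1 (b + 2) ∧ hi a1 (b + 2) ≤ hi a1 (b + 1) + 1 :=
        h.hiS a1 (b + 1) ha1 (by omega)
      obtain ⟨rfl, e4⟩ := h.inj a a1 (b + 2) e _ ha ha1 (by omega) e2 e3 (by omega) (by omega) h4.2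
      refine ⟨e, e1, e2, e3, rfl, Or.inl ⟨e4, l3, ?_⟩⟩
      rw [e4]
      exact h.Pr_left ha (r := b + 1) (by omega) (by
        have : b + 1 + 1 = b + 2 := rfl
        rw [this]; omega) (by
        have : b + 1 + 1 = b + 2 := rfl
        rw [this]; omega) rfl
    · have l1 := h.le a1 (b + 1) ha1 (by omega)
      have l2 := h.le a1 (b + 2) ha1 (by omega)
      have l3 : hi a1 (b + 2) = hi a1 (b + 1) + 1 := h4.1.2
      have l4 : lo a1 (b + 1) ≤ lo a1 (b + 2) ∧ lo a1 (b + 2) ≤ lo a1 (b + 1) + 1 :=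
        h.loS a1 (b + 1) ha1 (by omega)
      obtain ⟨rfl, e4⟩ := h.inj a a1 (b + 2) e _ ha ha1 (by omega) e2 e3 (by omega) (by omega) h4.2
      refine ⟨e, e1, e2, e3, rfl, Or.inr ⟨e4, l3, ?_⟩⟩
      rw [e4]
      exact h.Pr_right ha (r := b + 1) (by omega) (by
        have : b + 1 + 1 = b + 2 := rfl
        rw [this]; omega) (by
        have : b + 1 + 1 = b + 2 := rfl
        rw [this]; omega) rfl
  obtain ⟨e, e1, e2, e3, rfl, e4⟩ := key w hw
  obtain ⟨e', e1', e2', e3', rfl, e4'⟩ := key w' hw'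
  have l1 := h.le a (b + 1) ha (by omega)
  by_cases he : e = e'
  · rw [he]
  · rcases e4 with ⟨k1, k2, k3⟩ | ⟨k1, k2, k3⟩ <;> rcases e4' with ⟨k1', k2', k3'⟩ | ⟨k1', k2', k3'⟩
    · omega
    · rw [k3, k3']
      congr 2
      omega
    · rw [k3, k3']
      congr 2
      omega
    · omega

lemma JEv'_empty (h : Pln lo hi i f) (C : CtxK α) {b : ℕ} (hb : b ≤ i) : JEv' α b = ∅ := by
  rw [eq_empty_iff_forall_notMem]
  intro v hv
  rw [mem_JEv'] at hv
  obtain ⟨h1, h2, h3, h4⟩ := hv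
  obtain ⟨w, w', hne, h5⟩ := card_eq_two.1 h2
  have hw : w ∈ Ch v := by rw [h5]; simp
  have hw' : w' ∈ Ch v := by rw [h5]; simp
  have h6 := h.QQ_same C hb h1 h3 hw hw'
  have h7 := h4 w hw w' hw' hne
  have h8 : Ch2 w = Ch2 w' := by
    unfold Ch2
    rw [h6]
  rw [← h8, disjoint_self, bot_eq_empty] at h7
  have h9 := (mem_QEv.1 (h3 w hw)).2.2
  rw [h7] at h9
  simp at h9

lemma JtEv'_empty (h : Pln lo hi i f) (C : CtxK α) {b : ℕ} (hb : b ≤ i) : JtEv' α b = ∅ := by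
  rw [eq_empty_iff_forall_notMem]
  intro v hv
  rw [mem_JtEv'] at hv
  obtain ⟨h1, h2, h3, h4⟩ := hv
  obtain ⟨w, w', hne, h5⟩ := card_eq_two.1 h2
  have hw : w ∈ Ch v := by rw [h5]; simp
  have hw' : w' ∈ Ch v := by rw [h5]; simp
  exact (h4 w hw w' hw' hne).1 (h.QQ_same C hb h1 h3 hw hw')

lemma JEv_empty (h : Pln lo hi i f) (C : CtxK α) {b : ℕ} (hb : b + 3 ≤ i) : JEv α b = ∅ := by
  rw [eq_empty_iff_forall_notMem]
  intro v hv
  rw [mem_JEv] at hv
  obtain ⟨h1, h2, h3, h4⟩ := hv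
  obtain ⟨w, w', hne, h5⟩ := card_eq_two.1 h2
  have hw : w ∈ Pr v := by rw [h5]; simp
  have hw' : w' ∈ Pr v := by rw [h5]; simp
  have h6 := h.PP_same C hb h1 h3 hw hw'
  have h7 := h4 w hw w' hw' hne
  have h8 : Pr2 w = Pr2 w' := by
    unfold Pr2
    rw [h6]
  rw [← h8, disjoint_self, bot_eq_empty] at h7
  have h9 := (mem_PEv.1 (h3 w hw)).2.2
  rw [h7] at h9
  simp at h9

lemma JtEv_empty (h : Pln lo hi i f) (C : CtxK α) {b : ℕ} (hb : b + 3 ≤ i) : JtEv α b = ∅ := by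
  rw [eq_empty_iff_forall_notMem]
  intro v hv
  rw [mem_JtEv] at hv
  obtain ⟨h1, h2, h3, h4⟩ := hv
  obtain ⟨w, w', hne, h5⟩ := card_eq_two.1 h2
  have hw : w ∈ Pr v := by rw [h5]; simp
  have hw' : w' ∈ Pr v := by rw [h5]; simp
  exact (h4 w hw w' hw' hne).1 (h.PP_same C hb h1 h3 hw hw')

lemma DEv_empty (h : Pln lo hi i f) (C : CtxK α) {b : ℕ} (hb : b + 2 ≤ i) : DEv α b = ∅ := by
  rw [eq_empty_iff_forall_notMem]
  intro s hs
  rw [mem_DEv] at hs
  obtain ⟨h1, h2, h3⟩ := hs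
  obtain ⟨g, g', hne, rfl⟩ := card_eq_two.1 h2
  have k1 := mem_NEv.1 (h1 g (by simp))
  have k2 := mem_NEv.1 (h1 g' (by simp))
  have k3 : (g, g') ∈ FFv α (b + 1) := by
    rw [mem_FFv]
    exact ⟨k1.1, k2.1, hne, h3 g (by simp) g' (by simp), k1.2.1⟩
  rw [h.FFv_empty (by omega)] at k3
  simp at k3

/-- a double parent in coordinates -/
lemma Ch_dbl' (h : Pln lo hi i f) (C : CtxK α) {a : α} {r c : ℕ} (ha : corank a = 0) (hr : r < i)
    (h1 : lo a r ≤ c) (h2 : c ≤ hi a r) (h3 : (Ch (f a r c)).card = 2) :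
    lo a (r + 1) ≤ c ∧ c + 1 ≤ hi a (r + 1) := by
  rw [h.card_Ch C ha hr h1 h2] at h3
  split_ifs at h3 <;> omega

lemma DEv'_empty (h : Pln lo hi i f) (C : CtxK α) {b : ℕ} (hb : b ≤ i) : DEv' α b = ∅ := by
  rw [eq_empty_iff_forall_notMem]
  intro s hs
  rw [mem_DEv'] at hs
  obtain ⟨h1, h2, h3⟩ := hs
  obtain ⟨g, g', hne, rfl⟩ := card_eq_two.1 h2
  have k1 := mem_VEv.1 (h1 g (by simp))
  have k2 := mem_VEv.1 (h1 g' (by simp))
  have k3 := h3 g (by simp) g' (by simp)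
  obtain ⟨j, rfl⟩ : ∃ j, b = j + 2 := ⟨b - 2, by omega⟩
  obtain ⟨a, c, ha, g1, g2, rfl⟩ := h.sur' (r := j) (by omega) (by omega : corank g = j)
  obtain ⟨a', c', ha', g1', g2', rfl⟩ := h.sur' (r := j) (by omega) (by omega : corank g' = j)
  have m1 := h.Ch_dbl' C ha (by omega) g1 g2 k1.2.1
  have m2 := h.Ch_dbl' C ha' (by omega) g1' g2' k2.2.1
  rw [h.Ch_dbl C ha (by omega) g1 g2 m1.1 m1.2, h.Ch_dbl C ha' (by omega) g1' g2' m2.1 m2.2] at k3
  have := h.pr2_inj (by omega : j + 1 ≤ i) (p := (a, c)) (q := (a', c'))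
    (mem_prs.2 ⟨ha, m1.1, m1.2⟩) (mem_prs.2 ⟨ha', m2.1, m2.2⟩) k3
  obtain ⟨rfl, rfl⟩ := Prod.mk.inj this
  exact hne rfl

/-- **V5 in coordinates** -/
theorem V5_iff (h : Pln lo hi i f) (C : CtxK α) {b : ℕ} (hb : b + 1 ≤ i) :
    V5L α b ↔ ∑ a ∈ lev α 0, ∑ c ∈ Ico (lo a b) (hi a b - 1), HH f b a c * HH f b a (c + 1) +
      ((JEv α b).card : ℤ) - ((DEv α b).card : ℤ) = 0 := by
  unfold V5L
  rw [h.sum_touch C hb, C.jS_eq, h.JEv'_empty C (by omega), C.dS_eq, h.DEv'_empty C (by omega),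
    union_empty, union_empty]
  constructor <;> intro h1 <;> linarith

/-- V5 and no object J: `HH = 0` and no doubled common children -/
theorem V5_zero (h : Pln lo hi i f) (C : CtxK α) (hiH : i ≤ HT α) (hP : ∀ j < i, Perf α j)
    {b : ℕ} (hb : b + 1 ≤ i) (hV : V5L α b) (hJ : JEv α b = ∅) :
    (∀ a, corank a = 0 → H0 lo hi f b a) ∧ DEv α b = ∅ := by
  rw [h.V5_iff C hb, hJ, card_empty] at hV
  have h1 : 0 ≤ ∑ a ∈ lev α 0, ∑ c ∈ Ico (lo a b) (hi a b - 1),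
      HH f b a c * HH f b a (c + 1) := by
    push_cast at hV
    have : (0 : ℤ) ≤ ((DEv α b).card : ℤ) := by positivity
    linarith
  have h2 : ∀ a, corank a = 0 → H0 lo hi f b a := fun a ha c h3 h4 =>
    h.HH_zero_of_V5 C hiH hP hb h1 ha h3 h4
  refine ⟨h2, ?_⟩
  have h3 : ∑ a ∈ lev α 0, ∑ c ∈ Ico (lo a b) (hi a b - 1),
      HH f b a c * HH f b a (c + 1) = 0 := by
    apply sum_eq_zero
    intro a ha
    rw [mem_lev] at ha
    apply sum_eq_zero
    intro c hc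
    rw [mem_Ico] at hc
    rw [h2 a ha c hc.1 (by omega), zero_mul]
  rw [h3] at hV
  push_cast at hV
  have h4 : ((DEv α b).card : ℤ) = 0 := by linarith
  exact card_eq_zero.1 (by exact_mod_cast h4)

end Pln

end Pool.Gauss
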