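import Pool.Agent.Work.MP_065141_co.Cfg

/-!
# The toggle of a diamond

`y` lies in level `i`, `x`, `x'` are two neighbours of `y` on the same side, `g` (distance two) has
exactly the two nearer neighbours `x`, `x'`.  The toggle replaces the energies `(j, c)` of `(y, g)`
by `(c - 1, j + 1)`.
-/

set_option autoImplicit false
set_option linter.unusedSectionVars false
set_option linter.unusedVariables false
set_option linter.unusedTactic false
set_option linter.unreachableTactic false
set_option linter.unusedSimpArgs false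
open scoped Classical
open Finset Polynomial

namespace Pool.Gauss

variable {α : Type} [Fintype α] [PartialOrder α] {i : ℕ}

/-! ### attached elements depend on the far support only -/

lemma att_congr_pos {ε ε' : α → ℕ} (hg : Grad α)
    (h : ∀ q : α, corank q + 1 < i ∨ i + 1 < corank q → (0 < ε q ↔ 0 < ε' q)) (p : α) :
    att i ε p ↔ att i ε' p := by
  unfold att
  constructor
  · rintro (⟨h1, v, hv, h2⟩ | ⟨h1, w, hw, h2⟩)
    · have := hg p v hv
      rw [h v (by omega)] at h2
      exact Or.inl ⟨h1, v, hv, h2⟩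
    · have := hg w p hw
      rw [h w (by omega)] at h2
      exact Or.inr ⟨h1, w, hw, h2⟩
  · rintro (⟨h1, v, hv, h2⟩ | ⟨h1, w, hw, h2⟩)
    · have := hg p v hv
      rw [← h v (by omega)] at h2
      exact Or.inl ⟨h1, v, hv, h2⟩
    · have := hg w p hw
      rw [← h w (by omega)] at h2
      exact Or.inr ⟨h1, w, hw, h2⟩

lemma Mat.rst_congr_pos (m : Mat α i) {ε ε' : α → ℕ} (hg : Grad α)
    (h : ∀ q : α, corank q + 1 < i ∨ i + 1 < corank q → (0 < ε q ↔ 0 < ε' q)) :
    m.rst ε = m.rst ε' := by
  have h1 : ∀ p, att i ε p ↔ att i ε' p := att_congr_pos hg h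
  unfold Mat.rst Mat.free sgl
  simp only [h1]

/-! ### the number of elements 'in' as a sum of local terms -/

/-- local contribution to the number of elements 'in' -/
noncomputable def wI (i : ℕ) (ε : α → ℕ) (p : α) : ℤ :=
  (if corank p = i ∧ inE i ε p then 1 else 0) +
    (if i < corank p ∧ fd i ε p then 1 else 0) -
    (if corank p < i ∧ (fd i ε p ∨ ¬ nd i ε p) then 1 else 0)

/-- the number of elements 'in' is a sum of local terms -/
theorem card_inF_eq (hg : Grad α) (hl : HasLower α i) {ε : α → ℕ} (hε : GoodE i ε) :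
    ((inF i ε).card : ℤ) = (low α i).card + ∑ p, wI i ε p := by
  have h1 : ((inF i ε).card : ℤ) = ∑ p, (if inE i ε p then (1 : ℤ) else 0) := by
    unfold inF
    rw [Finset.card_filter]
    push_cast
    rfl
  have h2 : ((low α i).card : ℤ) = ∑ p : α, (if corank p < i then (1 : ℤ) else 0) := by
    have : low α i = univ.filter fun p => corank p < i := by
      ext p
      rw [mem_low, mem_filter]
      simp
    rw [this, Finset.card_filter]
    push_cast
    rfl
  rw [h1, h2, ← Finset.sum_add_distrib]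
  apply Finset.sum_congr rfl
  intro p _
  unfold wI
  rcases lt_trichotomy (corank p) i with h | h | h
  · have e1 : ¬ corank p = i := by omega
    have e2 : ¬ i < corank p := by omega
    have e3 := nd_above hg hl hε h
    have e4 := fd_above hg (ε := ε) h
    have e5 := hε p
    by_cases h3 : inE i ε p
    · have h4 : ¬ outE i ε p := fun h5 => e5 ⟨h3, h5⟩
      have h6 : ¬ (fd i ε p ∨ ¬ nd i ε p) := by
        rw [e3, e4]
        tauto
      simp [e1, e2, h, h3, h6]
    · have h6 : fd i ε p ∨ ¬ nd i ε p := by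
        rw [e3]
        exact Or.inr h3
      simp [e1, e2, h, h3, h6]
  · have e1 : ¬ corank p < i := by omega
    have e2 : ¬ i < corank p := by omega
    by_cases h3 : inE i ε p
    · simp [h, h3]
    · simp [h, h3]
  · have e1 : ¬ corank p = i := by omega
    have e2 : ¬ corank p < i := by omega
    have e4 := fd_below hg (ε := ε) h
    rw [e4]
    by_cases h3 : inE i ε p
    · simp [e1, e2, h, h3]
    · simp [e1, e2, h3]

/-! ### diamonds -/

/-- a diamond -/
structure Dia (i : ℕ) (y x x' g : α) : Prop where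
  hy : corank y = i
  hx : fr i y x
  hx' : fr i y x'
  hne : x ≠ x'
  hg : fr i x g
  hg' : fr i x' g
  only : ∀ p, fr i p g → p = x ∨ p = x'

/-- the environment in which the toggle is defined -/
structure DEnv (i : ℕ) (y x x' g : α) (ε : α → ℕ) : Prop where
  px : 1 ≤ ε x
  px' : 1 ≤ ε x'
  pg : 1 ≤ ε g
  zero : ∀ z, fr i y z → z ≠ x → z ≠ x' → ε z = 0
  far : ∀ h, fr i x h → h ≠ g → ε h ≤ ε x
  far' : ∀ h, fr i x' h → h ≠ g → ε h ≤ ε x'
  near : ∀ t, fr i t x → t ≠ y → ε t < ε x
  near' : ∀ t, fr i t x' → t ≠ y → ε t < ε x'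
  vg : ∀ v, fr i g v → ε v ≤ ε g
  vy : ∀ v, fr i g v → ε v ≤ ε y + 1

/-- the toggle -/
noncomputable def tog (y g : α) (ε : α → ℕ) : α → ℕ :=
  Function.update (Function.update ε y (ε g - 1)) g (ε y + 1)

section dia

variable {y x x' g : α} {ε : α → ℕ}

lemma Dia.ds_x (hgr : Grad α) (D : Dia i y x x' g) : ds i x = 1 := by
  rw [fr_ds hgr D.hx, ds_eq_zero.2 D.hy]

lemma Dia.ds_x' (hgr : Grad α) (D : Dia i y x x' g) : ds i x' = 1 := by
  rw [fr_ds hgr D.hx', ds_eq_zero.2 D.hy]

lemma Dia.ds_g (hgr : Grad α) (D : Dia i y x x' g) : ds i g = 2 := by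
  rw [fr_ds hgr D.hg, D.ds_x hgr]

lemma Dia.ds_y (D : Dia i y x x' g) : ds i y = 0 := ds_eq_zero.2 D.hy

lemma Dia.symm (D : Dia i y x x' g) : Dia i y x' x g where
  hy := D.hy
  hx := D.hx'
  hx' := D.hx
  hne := D.hne.symm
  hg := D.hg'
  hg' := D.hg
  only p hp := (D.only p hp).symm

lemma Dia.ne_yg (hgr : Grad α) (D : Dia i y x x' g) : y ≠ g := by
  intro h
  have h1 := D.ds_g hgr
  rw [← h, D.ds_y] at h1
  omega

lemma Dia.ne_yx (hgr : Grad α) (D : Dia i y x x' g) : x ≠ y := by
  intro h
  have h1 := D.ds_x hgr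
  rw [h, D.ds_y] at h1
  omega

lemma Dia.ne_gx (hgr : Grad α) (D : Dia i y x x' g) : x ≠ g := by
  intro h
  have h1 := D.ds_x hgr
  rw [h, D.ds_g hgr] at h1
  omega

lemma tog_y (hgr : Grad α) (D : Dia i y x x' g) : tog y g ε y = ε g - 1 := by
  unfold tog
  rw [Function.update_of_ne (D.ne_yg hgr), Function.update_self]

lemma tog_g : tog y g ε g = ε y + 1 := by
  unfold tog
  rw [Function.update_self]

lemma tog_of_ne {p : α} (h1 : p ≠ y) (h2 : p ≠ g) : tog y g ε p = ε p := by
  unfold tog
  rw [Function.update_of_ne h2, Function.update_of_ne h1]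

/-- the toggle is an involution -/
lemma tog_tog (hgr : Grad α) (D : Dia i y x x' g) (hpg : 1 ≤ ε g) : tog y g (tog y g ε) = ε := by
  funext p
  by_cases h1 : p = y
  · subst h1
    rw [tog_y hgr D, tog_g]
    omega
  · by_cases h2 : p = g
    · subst h2
      rw [tog_g, tog_y hgr D]
      omega
    · rw [tog_of_ne h1 h2, tog_of_ne h1 h2]

lemma DEnv.symm (E : DEnv i y x x' g ε) : DEnv i y x' x g ε where
  px := E.px'
  px' := E.px
  pg := E.pg
  zero z h1 h2 h3 := E.zero z h1 h3 h2
  far := E.far'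
  far' := E.far
  near := E.near'
  near' := E.near
  vg := E.vg
  vy := E.vy

lemma fr_g_ne (hgr : Grad α) (D : Dia i y x x' g) {h : α} (hh : fr i x h) : h ≠ y := by
  intro h1
  have h2 := fr_ds hgr hh
  rw [h1, D.ds_y, D.ds_x hgr] at h2
  omega

/-- the environment of the toggled function -/
lemma DEnv.tog (hgr : Grad α) (D : Dia i y x x' g) (E : DEnv i y x x' g ε) :
    DEnv i y x x' g (tog y g ε) := by
  have nx := D.ne_yx hgr
  have nx' := D.symm.ne_yx hgr
  have gx := D.ne_gx hgr
  have gx' := D.symm.ne_gx hgr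
  have ex : Pool.Gauss.tog y g ε x = ε x := tog_of_ne nx gx
  have ex' : Pool.Gauss.tog y g ε x' = ε x' := tog_of_ne nx' gx'
  have hfar : ∀ v, fr i g v → v ≠ y ∧ v ≠ g := by
    intro v hv
    have h1 := fr_ds hgr hv
    rw [D.ds_g hgr] at h1
    constructor
    · rintro rfl
      rw [D.ds_y] at h1
      omega
    · rintro rfl
      rw [D.ds_g hgr] at h1
      omega
  refine ⟨?_, ?_, ?_, ?_, ?_, ?_, ?_, ?_, ?_, ?_⟩
  · rw [ex]; exact E.px
  · rw [ex']; exact E.px'
  · rw [tog_g]; omega
  · intro z h1 h2 h3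
    rw [tog_of_ne]
    · exact E.zero z h1 h2 h3
    · rintro rfl
      have := fr_ds hgr h1
      omega
    · rintro rfl
      have := fr_ds hgr h1
      rw [D.ds_g hgr, D.ds_y] at this
      omega
  · intro h h1 h2
    rw [tog_of_ne (fr_g_ne hgr D h1) h2, ex]
    exact E.far h h1 h2
  · intro h h1 h2
    rw [tog_of_ne (fr_g_ne hgr D.symm h1) h2, ex']
    exact E.far' h h1 h2
  · intro t h1 h2
    rw [tog_of_ne h2, ex]
    · exact E.near t h1 h2
    · rintro rfl
      have := fr_ds hgr h1
      rw [D.ds_g hgr, D.ds_x hgr] at this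
      omega
  · intro t h1 h2
    rw [tog_of_ne h2, ex']
    · exact E.near' t h1 h2
    · rintro rfl
      have := fr_ds hgr h1
      rw [D.ds_g hgr, D.ds_x' hgr] at this
      omega
  · intro v hv
    rw [tog_of_ne (hfar v hv).1 (hfar v hv).2, tog_g]
    exact E.vy v hv
  · intro v hv
    rw [tog_of_ne (hfar v hv).1 (hfar v hv).2, tog_y hgr D]
    have := E.vg v hv
    have := E.pg
    omega

/-! ### statuses of the four elements -/

lemma DEnv.fd_x (hgr : Grad α) (D : Dia i y x x' g) (E : DEnv i y x x' g ε) :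
    fd i ε x ↔ ε x < ε g := by
  constructor
  · rintro ⟨q, h1, h2⟩
    by_cases h3 : q = g
    · rwa [h3] at h2
    · have := E.far q h1 h3
      omega
  · intro h
    exact ⟨g, D.hg, h⟩

lemma DEnv.nd_x (hgr : Grad α) (D : Dia i y x x' g) (E : DEnv i y x x' g ε) :
    nd i ε x ↔ ε x ≤ ε y := by
  constructor
  · rintro ⟨q, h1, h2⟩
    by_cases h3 : q = y
    · rwa [h3] at h2
    · have := E.near q h1 h3
      omega
  · intro h
    exact ⟨y, D.hx, h⟩

lemma DEnv.fd_g (E : DEnv i y x x' g ε) : ¬ fd i ε g := by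
  rintro ⟨q, h1, h2⟩
  have := E.vg q h1
  omega

lemma DEnv.nd_g (D : Dia i y x x' g) (E : DEnv i y x x' g ε) :
    nd i ε g ↔ ε g ≤ ε x ∨ ε g ≤ ε x' := by
  constructor
  · rintro ⟨q, h1, h2⟩
    rcases D.only q h1 with h3 | h3
    · left; rwa [h3] at h2
    · right; rwa [h3] at h2
  · rintro (h | h)
    · exact ⟨x, D.hg, h⟩
    · exact ⟨x', D.hg', h⟩

lemma DEnv.fd_y (D : Dia i y x x' g) (E : DEnv i y x x' g ε) :
    fd i ε y ↔ ε y < ε x ∨ ε y < ε x' := by
  constructor
  · rintro ⟨q, h1, h2⟩
    by_cases h3 : q = x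
    · left; rwa [h3] at h2
    · by_cases h4 : q = x'
      · right; rwa [h4] at h2
      · have := E.zero q h1 h3 h4
        omega
  · rintro (h | h)
    · exact ⟨x, D.hx, h⟩
    · exact ⟨x', D.hx', h⟩

/-- all neighbours of `y` which are excited lie on the side of `x` -/
lemma Dia.side (hgr : Grad α) (D : Dia i y x x' g) :
    (i < corank x ∧ i < corank x' ∧ i < corank g) ∨
      (corank x < i ∧ corank x' < i ∧ corank g < i) := by
  have h1 := D.ds_x hgr
  have h2 := D.ds_x' hgr
  have h3 := D.ds_g hgr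
  rcases D.hg with ⟨a1, a2⟩ | ⟨a1, a2⟩
  · left
    have b1 := hgr g x a2
    have b2 : i < corank g := by omega
    have b3 := fr_below' hgr D.hg' b2
    unfold ds at h1 h2 h3
    omega
  · right
    have b1 := hgr x g a2
    have b2 : corank g < i := by unfold ds at h1 h3; omega
    have b3 := fr_above' hgr D.hg' b2
    unfold ds at h1 h2 h3
    omega

lemma DEnv.in_y (hgr : Grad α) (D : Dia i y x x' g) (E : DEnv i y x x' g ε) :
    (inE i ε y ↔ i < corank x ∧ (ε y < ε x ∨ ε y < ε x')) ∧
      (outE i ε y ↔ corank x < i ∧ (ε y < ε x ∨ ε y < ε x')) := by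
  have hs := D.side hgr
  rw [inE_lev D.hy, outE_lev D.hy]
  constructor
  · constructor
    · rintro ⟨q, h1, h2⟩
      have h3 : fr i y q := fr_of_below D.hy.ge h1
      have h4 := hgr q y h1
      have h5 := D.hy
      by_cases h6 : q = x
      · subst h6
        exact ⟨by omega, Or.inl h2⟩
      · by_cases h7 : q = x'
        · subst h7
          exact ⟨by omega, Or.inr h2⟩
        · have := E.zero q h3 h6 h7
          omega
    · rintro ⟨h0, h | h⟩
      · exact ⟨x, (fr_below' hgr D.hx h0).2, h⟩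
      · exact ⟨x', (fr_below' hgr D.hx' (by omega)).2, h⟩
  · constructor
    · rintro ⟨q, h1, h2⟩
      have h3 : fr i y q := fr_of_above D.hy.le h1
      have h4 := hgr y q h1
      have h5 := D.hy
      by_cases h6 : q = x
      · subst h6
        exact ⟨by omega, Or.inl h2⟩
      · by_cases h7 : q = x'
        · subst h7
          exact ⟨by omega, Or.inr h2⟩
        · have := E.zero q h3 h6 h7
          omega
    · rintro ⟨h0, h | h⟩
      · exact ⟨x, (fr_above' hgr D.hx h0).2, h⟩
      · exact ⟨x', (fr_above' hgr D.hx' (by omega)).2, h⟩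

/-! ### statuses of all other elements -/

lemma fd_tog_of_ne (hgr : Grad α) (D : Dia i y x x' g) {p : α} (h1 : p ≠ y) (h2 : p ≠ g)
    (h3 : p ≠ x) (h4 : p ≠ x') : fd i (tog y g ε) p ↔ fd i ε p := by
  unfold fd
  apply exists_congr
  intro q
  apply and_congr_right
  intro hq
  rw [tog_of_ne h1 h2, tog_of_ne]
  · rintro rfl
    have := fr_ds hgr hq
    rw [D.ds_y] at this
    omega
  · rintro rfl
    rcases D.only p hq with h | h
    · exact h3 h
    · exact h4 h

lemma nd_tog_of_ne (hgr : Grad α) (hl : HasLower α i) (D : Dia i y x x' g)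
    (E : DEnv i y x x' g ε) {p : α} (h1 : p ≠ y) (h2 : p ≠ g)
    (h3 : p ≠ x) (h4 : p ≠ x') : nd i (tog y g ε) p ↔ nd i ε p := by
  by_cases hy : fr i y p
  · have h0 : ε p = 0 := E.zero p hy h3 h4
    constructor
    · intro _
      exact ⟨y, hy, by omega⟩
    · intro _
      exact ⟨y, hy, by rw [tog_of_ne h1 h2]; omega⟩
  · by_cases hv : fr i g p
    · constructor
      · intro _
        exact ⟨g, hv, E.vg p hv⟩
      · intro _
        exact ⟨g, hv, by rw [tog_of_ne h1 h2, tog_g]; exact E.vy p hv⟩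
    · unfold nd
      apply exists_congr
      intro q
      apply and_congr_right
      intro hq
      rw [tog_of_ne h1 h2, tog_of_ne]
      · rintro rfl
        exact hy hq
      · rintro rfl
        exact hv hq

lemma inout_tog_of_ne (hgr : Grad α) (D : Dia i y x x' g) {t : α} (ht : corank t = i)
    (h1 : t ≠ y) : (inE i (tog y g ε) t ↔ inE i ε t) ∧ (outE i (tog y g ε) t ↔ outE i ε t) := by
  have h2 : t ≠ g := by
    rintro rfl
    have := D.ds_g hgr
    rw [ds_eq_zero.2 ht] at this
    omega
  have h5 : ∀ q, fr i t q → tog y g ε q = ε q := by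
    intro q hq
    have h3 := fr_ds hgr hq
    rw [ds_eq_zero.2 ht] at h3
    rw [tog_of_ne]
    · rintro rfl
      rw [D.ds_y] at h3
      omega
    · rintro rfl
      rw [D.ds_g hgr] at h3
      omega
  rw [inE_lev ht, inE_lev ht, outE_lev ht, outE_lev ht, tog_of_ne h1 h2]
  constructor
  · apply exists_congr
    intro q
    apply and_congr_right
    intro hq
    rw [h5 q (fr_of_below ht.ge hq)]
  · apply exists_congr
    intro q
    apply and_congr_right
    intro hq
    rw [h5 q (fr_of_above ht.le hq)]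

/-- the toggle preserves goodness (one direction) -/
lemma good_tog_aux (hgr : Grad α) (hl : HasLower α i) (D : Dia i y x x' g)
    (E : DEnv i y x x' g ε) (h : GoodE i ε) : GoodE i (tog y g ε) := by
  have E' := E.tog hgr D
  have nx := D.ne_yx hgr
  have nx' := D.symm.ne_yx hgr
  have gx := D.ne_gx hgr
  have gx' := D.symm.ne_gx hgr
  have ex : tog y g ε x = ε x := tog_of_ne nx gx
  have ex' : tog y g ε x' = ε x' := tog_of_ne nx' gx'
  have hS := goodS_of_goodE hgr hl h
  apply goodE_of_goodS hgr hl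
  constructor
  · intro p hp hpp
    by_cases h1 : p = x
    · subst h1
      rw [E'.fd_x hgr D, E'.nd_x hgr D, ex, tog_g, tog_y hgr D] at hpp
      apply hS.1 p hp
      rw [E.fd_x hgr D, E.nd_x hgr D]
      have := E.pg
      have := E.px
      omega
    · by_cases h2 : p = x'
      · subst h2
        rw [E'.symm.fd_x hgr D.symm, E'.symm.nd_x hgr D.symm, ex', tog_g, tog_y hgr D] at hpp
        apply hS.1 p hp
        rw [E.symm.fd_x hgr D.symm, E.symm.nd_x hgr D.symm]
        have := E.pg
        have := E.px'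
        omega
      · by_cases h3 : p = g
        · subst h3
          exact E'.fd_g hpp.1
        · have h4 : p ≠ y := by
            rintro rfl
            exact hp D.hy
          rw [fd_tog_of_ne hgr D h4 h3 h1 h2, nd_tog_of_ne hgr hl D E h4 h3 h1 h2] at hpp
          exact hS.1 p hp hpp
  · intro t ht
    by_cases h1 : t = y
    · subst h1
      rw [(E'.in_y hgr D).1, (E'.in_y hgr D).2]
      omega
    · rw [(inout_tog_of_ne hgr D ht h1).1, (inout_tog_of_ne hgr D ht h1).2]
      exact hS.2 t ht

/-- **the toggle preserves goodness** -/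
theorem good_tog (hgr : Grad α) (hl : HasLower α i) (D : Dia i y x x' g)
    (E : DEnv i y x x' g ε) : GoodE i (tog y g ε) ↔ GoodE i ε := by
  constructor
  · intro h
    have h1 := good_tog_aux hgr hl D (E.tog hgr D) h
    rwa [tog_tog hgr D E.pg] at h1
  · exact good_tog_aux hgr hl D E

/-- **the toggle preserves the number of free elements** -/
theorem card_pkF_tog (hgr : Grad α) (hl : HasLower α i) (D : Dia i y x x' g)
    (E : DEnv i y x x' g ε) (h : GoodE i ε) :
    (pkF i (tog y g ε)).card = (pkF i ε).card := by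
  have h' := good_tog_aux hgr hl D E h
  have E' := E.tog hgr D
  have nx := D.ne_yx hgr
  have nx' := D.symm.ne_yx hgr
  have gx := D.ne_gx hgr
  have gx' := D.symm.ne_gx hgr
  have ex : tog y g ε x = ε x := tog_of_ne nx gx
  have ex' : tog y g ε x' = ε x' := tog_of_ne nx' gx'
  have key : ∀ p, p ∈ pkF i (tog y g ε) ↔ Equiv.swap y g p ∈ pkF i ε := by
    intro p
    rw [mem_pkF_iff hgr hl h', mem_pkF_iff hgr hl h]
    by_cases h1 : p = y
    · subst h1
      rw [Equiv.swap_apply_left, E'.fd_y D, E.nd_g D, ex, ex', tog_y hgr D]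
      have h2 := not_nd_lev hgr (ε := tog p g ε) D.hy
      have h3 := E.fd_g
      have := E.pg
      constructor
      · rintro ⟨h4, _⟩
        exact ⟨h3, by omega⟩
      · rintro ⟨_, h4⟩
        exact ⟨by omega, h2⟩
    · by_cases h2 : p = g
      · subst h2
        rw [Equiv.swap_apply_right, E'.nd_g D, E.fd_y D, ex, ex', tog_g]
        have h2 := not_nd_lev hgr (ε := ε) D.hy
        have h3 := E'.fd_g
        constructor
        · rintro ⟨_, h4⟩
          exact ⟨by omega, h2⟩
        · rintro ⟨h4, _⟩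
          exact ⟨h3, by omega⟩
      · rw [Equiv.swap_apply_of_ne_of_ne h1 h2]
        by_cases h3 : p = x
        · subst h3
          rw [E'.fd_x hgr D, E'.nd_x hgr D, E.fd_x hgr D, E.nd_x hgr D, ex, tog_g, tog_y hgr D]
          have := E.pg
          omega
        · by_cases h4 : p = x'
          · subst h4
            rw [E'.symm.fd_x hgr D.symm, E'.symm.nd_x hgr D.symm, E.symm.fd_x hgr D.symm,
              E.symm.nd_x hgr D.symm, ex', tog_g, tog_y hgr D]
            have := E.pg
            omega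
          · rw [fd_tog_of_ne hgr D h1 h2 h3 h4, nd_tog_of_ne hgr hl D E h1 h2 h3 h4]
  apply Finset.card_equiv (Equiv.swap y g)
  intro p
  exact key p

/-- **the toggle preserves the energy** -/
theorem sum_tog (hgr : Grad α) (D : Dia i y x x' g) (hpg : 1 ≤ ε g) :
    ∑ p, tog y g ε p = ∑ p, ε p := by
  have hne := D.ne_yg hgr
  rw [← Finset.add_sum_erase univ (tog y g ε) (mem_univ y),
    ← Finset.add_sum_erase univ ε (mem_univ y),
    ← Finset.add_sum_erase (univ.erase y) (tog y g ε) (mem_erase.2 ⟨hne.symm, mem_univ g⟩),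
    ← Finset.add_sum_erase (univ.erase y) ε (mem_erase.2 ⟨hne.symm, mem_univ g⟩),
    tog_y hgr D, tog_g]
  have h1 : ∑ p ∈ (univ.erase y).erase g, tog y g ε p = ∑ p ∈ (univ.erase y).erase g, ε p := by
    apply Finset.sum_congr rfl
    intro p hp
    rw [mem_erase, mem_erase] at hp
    exact tog_of_ne hp.2.1 hp.1
  rw [h1]
  omega

/-- the change of the number of elements 'in' -/
noncomputable def dlt (a a' c j : ℕ) : ℤ :=
  (if a < c then 1 else 0) + (if a' < c then 1 else 0) - (if a ≤ j then 1 else 0) -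
    (if a' ≤ j then 1 else 0) + (if a < c ∧ a' < c then 1 else 0) -
    (if a ≤ j ∧ a' ≤ j then 1 else 0)

lemma wI_x (hgr : Grad α) (D : Dia i y x x' g) (E : DEnv i y x x' g ε) :
    wI i (tog y g ε) x + (if corank g < i then -1 else 1) *
      ((if ε x < ε g then 1 else 0) - (if ε x ≤ ε y then 1 else 0)) = wI i ε x := by
  have E' := E.tog hgr D
  have ex : tog y g ε x = ε x := tog_of_ne (D.ne_yx hgr) (D.ne_gx hgr)
  have hpg := E.pg
  unfold wI
  rw [E'.fd_x hgr D, E'.nd_x hgr D, E.fd_x hgr D, E.nd_x hgr D, ex, tog_g, tog_y hgr D]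
  have hne : ¬ corank x = i := by
    intro h
    have := D.ds_x hgr
    rw [ds_eq_zero.2 h] at this
    omega
  rcases D.side hgr with ⟨h1, _, h2⟩ | ⟨h1, _, h2⟩
  · have h3 : ¬ corank g < i := by omega
    have h4 : ¬ corank x < i := by omega
    simp only [hne, false_and, if_false, h1, true_and, h4, h3]
    have e1 : (ε x < ε y + 1) ↔ ε x ≤ ε y := by omega
    rw [if_congr e1 rfl rfl]
    ring
  · have h4 : ¬ i < corank x := by omega
    simp only [hne, false_and, if_false, h1, true_and, h4, h2, if_true]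
    split_ifs <;> first | (exfalso; omega) | (norm_num; done)

lemma wI_g (hgr : Grad α) (D : Dia i y x x' g) (E : DEnv i y x x' g ε) :
    wI i (tog y g ε) g + wI i (tog y g ε) y + (if corank g < i then -1 else 1) *
      ((if ε x < ε g ∧ ε x' < ε g then 1 else 0) - (if ε x ≤ ε y ∧ ε x' ≤ ε y then 1 else 0)) =
      wI i ε g + wI i ε y := by
  have E' := E.tog hgr D
  have ex : tog y g ε x = ε x := tog_of_ne (D.ne_yx hgr) (D.ne_gx hgr)
  have ex' : tog y g ε x' = ε x' := tog_of_ne (D.symm.ne_yx hgr) (D.symm.ne_gx hgr)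
  have hpg := E.pg
  have hy := D.hy
  have hne : ¬ corank g = i := by
    intro h
    have := D.ds_g hgr
    rw [ds_eq_zero.2 h] at this
    omega
  have hy1 : ¬ i < corank y := by omega
  have hy2 : ¬ corank y < i := by omega
  have f1 := E.fd_g
  have f2 := E'.fd_g
  unfold wI
  rw [E'.nd_g D, E.nd_g D, (E'.in_y hgr D).1, (E.in_y hgr D).1, ex, ex', tog_g, tog_y hgr D]
  rcases D.side hgr with ⟨h1, _, h2⟩ | ⟨h1, _, h2⟩
  · have h3 : ¬ corank g < i := by omega
    simp only [hne, false_and, if_false, hy, true_and, hy1, hy2, h3, h2, h1, f1, f2, lt_self_iff_false]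
    split_ifs <;> first | (exfalso; omega) | (norm_num; done)
  · have h4 : ¬ i < corank x := by omega
    have h5 : ¬ i < corank g := by omega
    simp only [hne, false_and, if_false, hy, true_and, hy1, hy2, h4, h5, h2, f1, f2, false_or,
      if_true, lt_self_iff_false, and_false]
    split_ifs <;> first | (exfalso; omega) | (norm_num; done)

/-- **the change of the number of elements 'in'** -/
theorem card_inF_tog (hgr : Grad α) (hl : HasLower α i) (D : Dia i y x x' g)
    (E : DEnv i y x x' g ε) (h : GoodE i ε) :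
    ((inF i ε).card : ℤ) = (inF i (tog y g ε)).card +
      (if corank g < i then -1 else 1) * dlt (ε x) (ε x') (ε g) (ε y) := by
  have h' := good_tog_aux hgr hl D E h
  rw [card_inF_eq hgr hl h, card_inF_eq hgr hl h']
  have nyg := D.ne_yg hgr
  have nx := D.ne_yx hgr
  have nx' := D.symm.ne_yx hgr
  have gx := D.ne_gx hgr
  have gx' := D.symm.ne_gx hgr
  have key : ∀ f : α → ℤ, ∑ p, f p = f y + (f g + (f x + (f x' +
      ∑ p ∈ (((univ.erase y).erase g).erase x).erase x', f p))) := by
    intro f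
    rw [Finset.add_sum_erase _ f (mem_erase.2 ⟨D.hne.symm, mem_erase.2 ⟨gx', mem_erase.2
      ⟨nx', mem_univ _⟩⟩⟩), Finset.add_sum_erase _ f (mem_erase.2 ⟨gx, mem_erase.2
      ⟨nx, mem_univ _⟩⟩), Finset.add_sum_erase _ f (mem_erase.2 ⟨nyg.symm, mem_univ _⟩),
      Finset.add_sum_erase _ f (mem_univ _)]
  rw [key (wI i ε), key (wI i (tog y g ε))]
  have hrest : ∑ p ∈ (((univ.erase y).erase g).erase x).erase x', wI i (tog y g ε) p =
      ∑ p ∈ (((univ.erase y).erase g).erase x).erase x', wI i ε p := by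
    apply Finset.sum_congr rfl
    intro p hp
    simp only [mem_erase, mem_univ, and_true] at hp
    obtain ⟨p1, p2, p3, p4⟩ := hp
    unfold wI
    rw [fd_tog_of_ne hgr D p4 p3 p2 p1, nd_tog_of_ne hgr hl D E p4 p3 p2 p1]
    by_cases hp : corank p = i
    · rw [(inout_tog_of_ne hgr D hp p4).1]
    · simp only [hp, false_and]
  rw [hrest]
  have e1 := wI_x hgr D E
  have e2 := wI_x hgr D.symm E.symm
  have e3 := wI_g hgr D E
  rw [← e1, ← e2]
  unfold dlt
  linear_combination -e3

/-- an active diamond -/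
def Act (x x' y g : α) (ε : α → ℕ) : Prop :=
  (ε x < ε g ∨ ε x' < ε g) ∨ (ε x ≤ ε y ∨ ε x' ≤ ε y)

lemma Act.tog (hgr : Grad α) (D : Dia i y x x' g) (E : DEnv i y x x' g ε) (hA : Act x x' y g ε) :
    Act x x' y g (tog y g ε) := by
  have ex : Pool.Gauss.tog y g ε x = ε x := tog_of_ne (D.ne_yx hgr) (D.ne_gx hgr)
  have ex' : Pool.Gauss.tog y g ε x' = ε x' := tog_of_ne (D.symm.ne_yx hgr) (D.symm.ne_gx hgr)
  have hpg := E.pg
  unfold Act at hA ⊢
  rw [ex, ex', tog_g, tog_y hgr D]
  omega

/-- goodness excludes that both conditions hold -/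
lemma act_excl (hgr : Grad α) (hl : HasLower α i) (D : Dia i y x x' g)
    (E : DEnv i y x x' g ε) (h : GoodE i ε) :
    ¬ (ε x < ε g ∧ ε x ≤ ε y) ∧ ¬ (ε x' < ε g ∧ ε x' ≤ ε y) ∧
      ¬ ((ε x < ε g ∨ ε x' < ε g) ∧ (ε x ≤ ε y ∨ ε x' ≤ ε y)) := by
  have hS := goodS_of_goodE hgr hl h
  have hx : ¬ corank x = i := by
    intro h
    have := D.ds_x hgr
    rw [ds_eq_zero.2 h] at this
    omega
  have hx' : ¬ corank x' = i := by
    intro h
    have := D.ds_x' hgr
    rw [ds_eq_zero.2 h] at this
    omega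
  have h1 := hS.1 x hx
  have h2 := hS.1 x' hx'
  rw [E.fd_x hgr D, E.nd_x hgr D] at h1
  rw [E.symm.fd_x hgr D.symm, E.symm.nd_x hgr D.symm] at h2
  refine ⟨h1, h2, ?_⟩
  rintro ⟨h3, h4⟩
  omega

/-- **the sign of the toggle** -/
theorem sign_tog (hgr : Grad α) (hl : HasLower α i) (D : Dia i y x x' g)
    (E : DEnv i y x x' g ε) (h : GoodE i ε) :
    (-1 : ℤ) ^ (inF i (tog y g ε)).card =
      (if Act x x' y g ε then -1 else 1) * (-1) ^ (inF i ε).card := by
  have h1 := card_inF_tog hgr hl D E h
  have h2 := (act_excl hgr hl D E h)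
  set d : ℤ := (if corank g < i then -1 else 1) * dlt (ε x) (ε x') (ε g) (ε y) with hd
  have hpar : (if Act x x' y g ε then Odd d else Even d) := by
    have h3 : d = dlt (ε x) (ε x') (ε g) (ε y) ∨ d = - dlt (ε x) (ε x') (ε g) (ε y) := by
      rw [hd]
      split_ifs
      · right; ring
      · left; ring
    have h4 : (if Act x x' y g ε then Odd (dlt (ε x) (ε x') (ε g) (ε y))
        else Even (dlt (ε x) (ε x') (ε g) (ε y))) := by
      unfold Act dlt
      have d1 : Odd (3 : ℤ) := by decide
      have d2 : Odd (1 : ℤ) := by decide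
      have d3 : Odd (-1 : ℤ) := by decide
      have d4 : Odd (-3 : ℤ) := by decide
      have d5 : Even (0 : ℤ) := by decide
      split_ifs <;> first | omega | (norm_num; done)
    rcases h3 with h3 | h3 <;> rw [h3]
    · exact h4
    · split_ifs at h4 ⊢
      · exact h4.neg
      · exact h4.neg
  split_ifs at hpar ⊢ with hA
  · obtain ⟨k, hk⟩ := hpar
    have h5 : ((inF i ε).card : ℤ) = (inF i (tog y g ε)).card + (2 * k + 1) := by rw [h1, hk]
    rcases Nat.even_or_odd (inF i ε).card with h6 | h6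
    · have h7 : Odd (inF i (tog y g ε)).card := by
        rw [Nat.even_iff] at h6
        rw [Nat.odd_iff]
        omega
      rw [h6.neg_one_pow, h7.neg_one_pow]
      norm_num
    · have h7 : Even (inF i (tog y g ε)).card := by
        rw [Nat.odd_iff] at h6
        rw [Nat.even_iff]
        omega
      rw [h6.neg_one_pow, h7.neg_one_pow]
      norm_num
  · obtain ⟨k, hk⟩ := hpar
    have h5 : ((inF i ε).card : ℤ) = (inF i (tog y g ε)).card + (k + k) := by rw [h1, hk]
    rcases Nat.even_or_odd (inF i ε).card with h6 | h6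
    · have h7 : Even (inF i (tog y g ε)).card := by
        rw [Nat.even_iff] at h6 ⊢
        omega
      rw [h6.neg_one_pow, h7.neg_one_pow]
      norm_num
    · have h7 : Odd (inF i (tog y g ε)).card := by
        rw [Nat.odd_iff] at h6 ⊢
        omega
      rw [h6.neg_one_pow, h7.neg_one_pow]
      norm_num

/-- an active function is not fixed by the toggle -/
lemma tog_ne (hgr : Grad α) (hl : HasLower α i) (D : Dia i y x x' g)
    (E : DEnv i y x x' g ε) (h : GoodE i ε) (hA : Act x x' y g ε) : tog y g ε ≠ ε := by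
  intro h1
  have h2 := congrFun h1 g
  rw [tog_g] at h2
  have h3 := (act_excl hgr hl D E h).2.2
  unfold Act at hA
  omega

/-! ### the set of summation -/

lemma rst_tog (m : Mat α i) (hgr : Grad α) (D : Dia i y x x' g) (hpg : 1 ≤ ε g) :
    m.rst (tog y g ε) = m.rst ε := by
  apply m.rst_congr_pos hgr
  intro q hq
  by_cases h1 : q = g
  · subst h1
    rw [tog_g]
    omega
  · have h2 : q ≠ y := by
      rintro rfl
      have := D.hy
      omega
    rw [tog_of_ne h2 h1]

lemma red_tog (m : Mat α i) (hgr : Grad α) (D : Dia i y x x' g) (hpg : 1 ≤ ε g)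
    (h : m.Red ε) : m.Red (tog y g ε) := by
  intro p hp
  rw [rst_tog m hgr D hpg] at hp
  have h1 := (m.rst_prop hp).2
  rw [tog_of_ne]
  · exact h p hp
  · rintro rfl
    have := D.hy
    omega
  · rintro rfl
    have := D.ds_g hgr
    unfold ds at this
    omega

/-- the toggle commutes with adding energies on the set of summation -/
lemma tog_add (m : Mat α i) (hgr : Grad α) (D : Dia i y x x' g) {κ : α → ℕ}
    (hκ : ∀ p, p ∉ m.rst ε → κ p = 0) : tog y g (ε + κ) = tog y g ε + κ := by
  have hy : κ y = 0 := by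
    apply hκ
    intro h
    have h1 := (m.rst_prop h).2
    have := D.hy
    omega
  have hgg : κ g = 0 := by
    apply hκ
    intro h
    have h1 := (m.rst_prop h).2
    have := D.ds_g hgr
    unfold ds at this
    omega
  funext p
  by_cases h1 : p = y
  · subst h1
    rw [Pi.add_apply, tog_y hgr D, tog_y hgr D, Pi.add_apply, hy, hgg]
    all_goals omega
  · by_cases h2 : p = g
    · subst h2
      rw [Pi.add_apply, tog_g, tog_g, Pi.add_apply, hy, hgg]
      all_goals omega
    · rw [Pi.add_apply, tog_of_ne h1 h2, tog_of_ne h1 h2, Pi.add_apply]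

end dia

end Pool.Gauss
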