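import Pool.Agent.Work.MP_065141_co.K.V6Asm

/-!
# The words of the strips in the perfect rows

Letter level form of the conclusions `V6Conc` at the bases `b` with `b + 3 ≤ i`.  `SEl`, `SEr`: the
letters `b, b + 1` of the left / right border are SE.  `Gdn b`, `Gup b`: the number of single
children of P-elements / of single parents of Q-elements over row `b`.  `Wd l u i`: the conditions
on the two borders `l, u : ℕ → ℕ` of a strip.
-/

set_option autoImplicit false
set_option linter.unusedSectionVars false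
set_option linter.unusedVariables false
open scoped Classical
open Finset

namespace Pool.Gauss

variable {α : Type} [Fintype α] [PartialOrder α]

/-! ### letters -/

/-- the left letter `r` is S -/
def Sl (l : ℕ → ℕ) (r : ℕ) : Prop := l (r + 1) = l r + 1
/-- the left letter `r` is E -/
def El (l : ℕ → ℕ) (r : ℕ) : Prop := l (r + 1) = l r
/-- the right letter `r` is S -/
def Sr (u : ℕ → ℕ) (r : ℕ) : Prop := u (r + 1) = u r
/-- the right letter `r` is E -/
def Er (u : ℕ → ℕ) (r : ℕ) : Prop := u (r + 1) = u r + 1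

/-- the left letters `b, b + 1` are SE -/
def SEl (l : ℕ → ℕ) (b : ℕ) : Prop := Sl l b ∧ El l (b + 1)
/-- the right letters `b, b + 1` are SE -/
def SEr (u : ℕ → ℕ) (b : ℕ) : Prop := Sr u b ∧ Er u (b + 1)

/-- single children of the P-elements over row `b` -/
noncomputable def Gdn (l u : ℕ → ℕ) (b : ℕ) : ℕ :=
  (if SEl l b ∧ El l (b + 2) then 1 else 0) +
  (if SEl l b ∧ l (b + 2) = u (b + 2) ∧ Er u (b + 2) then 1 else 0) +
  (if SEr u b ∧ Er u (b + 2) then 1 else 0) +
  (if SEr u b ∧ l (b + 2) = u (b + 2) ∧ El l (b + 2) then 1 else 0)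

/-- single parents of the Q-elements over row `b + 3` -/
noncomputable def Gup (l u : ℕ → ℕ) (b : ℕ) : ℕ :=
  (if Sl l b ∧ SEl l (b + 1) then 1 else 0) +
  (if Sr u b ∧ SEl l (b + 1) ∧ l (b + 1) = u (b + 1) then 1 else 0) +
  (if Sr u b ∧ SEr u (b + 1) then 1 else 0) +
  (if Sl l b ∧ SEr u (b + 1) ∧ l (b + 1) = u (b + 1) then 1 else 0)

/-- **the conditions on the two borders of a strip**, rows `≤ i` perfect -/
structure Wd (l u : ℕ → ℕ) (i : ℕ) : Prop where
  l0 : l 0 = 0
  u0 : u 0 = 0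
  lS : ∀ r, r < i → l r ≤ l (r + 1) ∧ l (r + 1) ≤ l r + 1
  uS : ∀ r, r < i → u r ≤ u (r + 1) ∧ u (r + 1) ≤ u r + 1
  le : ∀ r, r ≤ i → l r ≤ u r
  /-- rows `0, 1`: no SE -/
  H0 : ∀ b, b < 2 → b + 2 ≤ i → l b < u b → ¬ SEl l b ∧ ¬ SEr u b
  /-- as many SE below as above (one row more) -/
  Hs : ∀ b, b + 4 ≤ i → l (b + 2) < u (b + 2) →
    (if SEl l (b + 2) then 1 else 0) + (if SEr u (b + 2) then 1 else 0) =
      (if SEl l b then 1 else 0) + (if SEr u b then (1 : ℕ) else 0)
  /-- rows of width four, one row more -/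
  H4l : ∀ b, b + 4 ≤ i → l (b + 2) + 3 ≤ u (b + 2) → (SEl l (b + 2) ↔ SEl l b)
  H4r : ∀ b, b + 4 ≤ i → l (b + 2) + 3 ≤ u (b + 2) → (SEr u (b + 2) ↔ SEr u b)
  /-- wide rows: the SE continue -/
  Hl : ∀ b, b + 5 ≤ i → l (b + 2) + 2 ≤ u (b + 2) → (SEl l (b + 2) ↔ SEl l b)
  Hr : ∀ b, b + 5 ≤ i → l (b + 2) + 2 ≤ u (b + 2) → (SEr u (b + 2) ↔ SEr u b)
  /-- no SSE below a row of width three -/
  nSSEl : ∀ b, b + 3 ≤ i → l b + 2 ≤ u b → ¬ (Sl l b ∧ SEl l (b + 1))
  nSSEr : ∀ b, b + 3 ≤ i → l b + 2 ≤ u b → ¬ (Sr u b ∧ SEr u (b + 1))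
  /-- no SEE above a row of width three -/
  nSEEl : ∀ b, b + 6 ≤ i → l (b + 3) + 2 ≤ u (b + 3) → ¬ (SEl l b ∧ El l (b + 2))
  nSEEr : ∀ b, b + 6 ≤ i → l (b + 3) + 2 ≤ u (b + 3) → ¬ (SEr u b ∧ Er u (b + 2))
  /-- as many single children of P-elements as single parents of Q-elements -/
  G0 : ∀ b, b < 3 → b + 3 ≤ i → l b < u b → Gdn l u b = 0
  G3 : ∀ b, b + 6 ≤ i → l (b + 3) < u (b + 3) → Gdn l u (b + 3) = Gup l u b
  /-- rows of width four: none -/
  G4 : ∀ b, b + 3 ≤ i → l b + 3 ≤ u b → Gdn l u b = 0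
  G4' : ∀ b, b + 6 ≤ i → l (b + 3) + 3 ≤ u (b + 3) → Gup l u b = 0

namespace Wd

variable {l u : ℕ → ℕ} {i : ℕ}

/-- restriction to fewer rows -/
lemma mono (h : Wd l u i) {j : ℕ} (hj : j ≤ i) : Wd l u j where
  l0 := h.l0
  u0 := h.u0
  lS r hr := h.lS r (by omega)
  uS r hr := h.uS r (by omega)
  le r hr := h.le r (by omega)
  H0 b hb hb' := h.H0 b hb (by omega)
  Hl b hb := h.Hl b (by omega)
  Hr b hb := h.Hr b (by omega)
  Hs b hb := h.Hs b (by omega)
  H4l b hb := h.H4l b (by omega)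
  H4r b hb := h.H4r b (by omega)
  nSSEl b hb := h.nSSEl b (by omega)
  nSSEr b hb := h.nSSEr b (by omega)
  nSEEl b hb := h.nSEEl b (by omega)
  nSEEr b hb := h.nSEEr b (by omega)
  G0 b hb hb' := h.G0 b hb (by omega)
  G3 b hb := h.G3 b (by omega)
  G4 b hb := h.G4 b (by omega)
  G4' b hb := h.G4' b (by omega)

/-- the letters -/
lemma lcase (h : Wd l u i) {r : ℕ} (hr : r < i) : Sl l r ∨ El l r := by
  have := h.lS r hr
  unfold Sl El
  omega

lemma ucase (h : Wd l u i) {r : ℕ} (hr : r < i) : Sr u r ∨ Er u r := by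
  have := h.uS r hr
  unfold Sr Er
  omega

lemma u_le (h : Wd l u i) : ∀ r, r ≤ i → u r ≤ r := by
  intro r
  induction r with
  | zero => intro _; rw [h.u0]
  | succ r ih =>
    intro hr
    have := ih (by omega)
    have := h.uS r (by omega)
    omega

lemma not_Sl {h : Wd l u i} {r : ℕ} (hr : r < i) : ¬ Sl l r ↔ El l r := by
  have := h.lS r hr
  unfold Sl El
  omega

lemma not_Sr {h : Wd l u i} {r : ℕ} (hr : r < i) : ¬ Sr u r ↔ Er u r := by
  have := h.uS r hr
  unfold Sr Er
  omega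

/-- the mirror image of a word -/
theorem mirror (h : Wd l u i) : Wd (fun r => r - u r) (fun r => r - l r) i := by
  have hu := h.u_le
  have hl : ∀ r, r ≤ i → l r ≤ r := fun r hr => (h.le r hr).trans (hu r hr)
  have c1 : ∀ r, r < i → (Sl (fun r => r - u r) r ↔ Sr u r) := by
    intro r hr
    have := hu r (by omega)
    have := hu (r + 1) (by omega)
    have := h.uS r hr
    unfold Sl Sr
    simp only
    omega
  have c2 : ∀ r, r < i → (El (fun r => r - u r) r ↔ Er u r) := by
    intro r hr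
    have := hu r (by omega)
    have := hu (r + 1) (by omega)
    have := h.uS r hr
    unfold El Er
    simp only
    omega
  have c3 : ∀ r, r < i → (Sr (fun r => r - l r) r ↔ Sl l r) := by
    intro r hr
    have := hl r (by omega)
    have := hl (r + 1) (by omega)
    have := h.lS r hr
    unfold Sl Sr
    simp only
    omega
  have c4 : ∀ r, r < i → (Er (fun r => r - l r) r ↔ El l r) := by
    intro r hr
    have := hl r (by omega)
    have := hl (r + 1) (by omega)
    have := h.lS r hr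
    unfold El Er
    simp only
    omega
  have c5 : ∀ b, b + 2 ≤ i → (SEl (fun r => r - u r) b ↔ SEr u b) := by
    intro b hb
    unfold SEl SEr
    rw [c1 b (by omega), c2 (b + 1) (by omega)]
  have c6 : ∀ b, b + 2 ≤ i → (SEr (fun r => r - l r) b ↔ SEl l b) := by
    intro b hb
    unfold SEl SEr
    rw [c3 b (by omega), c4 (b + 1) (by omega)]
  have c7 : ∀ r, r ≤ i → (r - u r = r - l r ↔ l r = u r) := by
    intro r hr
    have := hu r hr
    have := hl r hr
    omega
  have c8 : ∀ r k, r ≤ i → (r - u r + k ≤ r - l r ↔ l r + k ≤ u r) := by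
    intro r k hr
    have := hu r hr
    have := h.le r hr
    omega
  have c9 : ∀ b, b + 3 ≤ i → Gdn (fun r => r - u r) (fun r => r - l r) b = Gdn l u b := by
    intro b hb
    unfold Gdn
    simp only [c5 b (by omega), c6 b (by omega), c2 (b + 2) (by omega), c4 (b + 2) (by omega),
      c7 (b + 2) (by omega)]
    ring
  have c10 : ∀ b, b + 3 ≤ i → Gup (fun r => r - u r) (fun r => r - l r) b = Gup l u b := by
    intro b hb
    unfold Gup
    simp only [c5 (b + 1) (by omega), c6 (b + 1) (by omega), c1 b (by omega), c3 b (by omega),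
      c7 (b + 1) (by omega)]
    ring
  refine ⟨?_, ?_, ?_, ?_, ?_, ?_, ?_, ?_, ?_, ?_, ?_, ?_, ?_, ?_, ?_, ?_, ?_, ?_, ?_⟩
  · simp
  · simp
  · intro r hr
    have := hu r (by omega)
    have := hu (r + 1) (by omega)
    have := h.uS r hr
    omega
  · intro r hr
    have := hl r (by omega)
    have := hl (r + 1) (by omega)
    have := h.lS r hr
    omega
  · intro r hr
    have := h.le r hr
    omega
  · intro b hb hb' hw
    have := (c8 b 1 (by omega)).1 hw
    rw [c5 b hb', c6 b hb']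
    exact (h.H0 b hb hb' (by omega)).symm
  · intro b hb hw
    have := (c8 (b + 2) 1 (by omega)).1 hw
    have h1 := h.Hs b hb (by omega)
    simp only [c5 b (by omega), c6 b (by omega), c5 (b + 2) (by omega), c6 (b + 2) (by omega)]
    omega
  · intro b hb hw
    rw [c5 b (by omega), c5 (b + 2) (by omega)]
    exact h.H4r b hb ((c8 (b + 2) 3 (by omega)).1 hw)
  · intro b hb hw
    rw [c6 b (by omega), c6 (b + 2) (by omega)]
    exact h.H4l b hb ((c8 (b + 2) 3 (by omega)).1 hw)
  · intro b hb hw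
    rw [c5 b (by omega), c5 (b + 2) (by omega)]
    exact h.Hr b hb ((c8 (b + 2) 2 (by omega)).1 hw)
  · intro b hb hw
    rw [c6 b (by omega), c6 (b + 2) (by omega)]
    exact h.Hl b hb ((c8 (b + 2) 2 (by omega)).1 hw)
  · intro b hb hw
    rw [c1 b (by omega), c5 (b + 1) (by omega)]
    exact h.nSSEr b hb ((c8 b 2 (by omega)).1 hw)
  · intro b hb hw
    rw [c3 b (by omega), c6 (b + 1) (by omega)]
    exact h.nSSEl b hb ((c8 b 2 (by omega)).1 hw)
  · intro b hb hw
    rw [c5 b (by omega), c2 (b + 2) (by omega)]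
    exact h.nSEEr b hb ((c8 (b + 3) 2 (by omega)).1 hw)
  · intro b hb hw
    rw [c6 b (by omega), c4 (b + 2) (by omega)]
    exact h.nSEEl b hb ((c8 (b + 3) 2 (by omega)).1 hw)
  · intro b hb hb' hw
    have := (c8 b 1 (by omega)).1 hw
    rw [c9 b hb']
    exact h.G0 b hb hb' (by omega)
  · intro b hb hw
    have := (c8 (b + 3) 1 (by omega)).1 hw
    rw [c9 (b + 3) (by omega), c10 b (by omega)]
    exact h.G3 b hb (by omega)
  · intro b hb hw
    rw [c9 b hb]
    exact h.G4 b hb ((c8 b 3 (by omega)).1 hw)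
  · intro b hb hw
    rw [c10 b (by omega)]
    exact h.G4' b hb ((c8 (b + 3) 3 (by omega)).1 hw)

end Wd

namespace Pln

variable {lo hi : α → ℕ → ℕ} {i : ℕ} {f : α → ℕ → ℕ → α}

/-! ### single children and single parents -/

/-- the single children of an element in coordinates -/
lemma sCh (h : Pln lo hi i f) (C : CtxK α) {a : α} {r c : ℕ} (ha : corank a = 0) (hr : r < i)
    (h1 : lo a r ≤ c) (h2 : c ≤ hi a r) :
    (univ.filter fun x : α => Pr x = {f a r c}).card =
      (if c = lo a r ∧ lo a (r + 1) = lo a r then 1 else 0) +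
      (if c = hi a r ∧ hi a (r + 1) = hi a r + 1 then 1 else 0) := by
  have s1 := h.loS a r ha hr
  have s2 := h.hiS a r ha hr
  have s3 := h.le a (r + 1) ha (by omega)
  have hset : (univ.filter fun x : α => Pr x = {f a r c}) =
      (if c = lo a r ∧ lo a (r + 1) = lo a r then {f a (r + 1) (lo a r)} else ∅) ∪
        (if c = hi a r ∧ hi a (r + 1) = hi a r + 1 then {f a (r + 1) (hi a r + 1)} else ∅) := by
    ext x
    rw [mem_filter, mem_union]
    constructor
    · rintro ⟨_, hx⟩
      have hcx := C.corank_of_mem_Pr (x := x) (y := f a r c) (by rw [hx]; simp)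
      rw [h.cor a r c ha (by omega) h1 h2] at hcx
      obtain ⟨a', d, ha', d1, d2, rfl⟩ := h.sur' (r := r + 1) hr hcx
      rcases h.Pr_cases ha' hr d1 d2 with ⟨e1, e2⟩ | ⟨e1, e2⟩ | ⟨e1, e1', e2⟩
      · rw [hx, singleton_inj] at e2
        have k := h.le a' r ha' (by omega)
        obtain ⟨rfl, e3⟩ := h.inj a a' r c d ha ha' (by omega) h1 h2 (by omega) (by omega) e2
        left
        rw [if_pos ⟨by omega, by omega⟩, mem_singleton]
        congr 1
      · rw [hx, singleton_inj] at e2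
        have k := h.le a' r ha' (by omega)
        obtain ⟨rfl, e3⟩ := h.inj a a' r c _ ha ha' (by omega) h1 h2 k le_rfl e2
        right
        rw [if_pos ⟨e3, by omega⟩, mem_singleton]
        congr 1
      · exfalso
        have h6 : (Pr (f a' (r + 1) d)).card = 2 := by
          rw [e2, card_pair]
          intro h7
          have := (h.inj a' a' r _ _ ha' ha' (by omega) (by omega) (by omega) (by omega) e1' h7).2
          omega
        rw [hx, card_singleton] at h6
        omega
    · rintro (hx | hx)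
      · split_ifs at hx with g
        · rw [mem_singleton] at hx
          subst hx
          refine ⟨mem_univ _, ?_⟩
          rw [h.Pr_left ha hr (by omega) (by omega) rfl, g.1]
        · simp at hx
      · split_ifs at hx with g
        · rw [mem_singleton] at hx
          subst hx
          refine ⟨mem_univ _, ?_⟩
          rw [h.Pr_right ha hr (by omega) (by omega) rfl, g.1]
        · simp at hx
  rw [hset, card_union_of_disjoint]
  · congr 1 <;> split_ifs <;> simp
  · rw [Finset.disjoint_left]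
    intro x g1 g2
    split_ifs at g1 with g3
    · split_ifs at g2 with g4
      · rw [mem_singleton] at g1 g2
        rw [g1] at g2
        have := (h.inj a a (r + 1) _ _ ha ha (by omega) (by omega) (by omega) (by omega) (by omega)
          g2).2
        omega
      · simp at g2
    · simp at g1

/-- the single parents of an element in coordinates -/
lemma sPr (h : Pln lo hi i f) (C : CtxK α) {a : α} {r c : ℕ} (ha : corank a = 0) (hr : r < i)
    (h1 : lo a (r + 1) ≤ c) (h2 : c ≤ hi a (r + 1)) :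
    (univ.filter fun x : α => Ch x = {f a (r + 1) c}).card =
      (if c = lo a (r + 1) ∧ lo a (r + 1) = lo a r + 1 then 1 else 0) +
      (if c = hi a (r + 1) ∧ hi a (r + 1) = hi a r then 1 else 0) := by
  have s1 := h.loS a r ha hr
  have s2 := h.hiS a r ha hr
  have s3 := h.le a (r + 1) ha (by omega)
  have s4 := h.le a r ha (by omega)
  have hset : (univ.filter fun x : α => Ch x = {f a (r + 1) c}) =
      (if c = lo a (r + 1) ∧ lo a (r + 1) = lo a r + 1 then {f a r (lo a r)} else ∅) ∪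
        (if c = hi a (r + 1) ∧ hi a (r + 1) = hi a r then {f a r (hi a r)} else ∅) := by
    ext x
    rw [mem_filter, mem_union]
    constructor
    · rintro ⟨_, hx⟩
      have hcx := C.corank_of_mem_Ch (x := x) (y := f a (r + 1) c) (by rw [hx]; simp)
      rw [h.cor a (r + 1) c ha (by omega) h1 h2] at hcx
      obtain ⟨a', d, ha', d1, d2, rfl⟩ := h.sur' (r := r) (by omega) (by omega : corank x = r)
      have k := h.le a' (r + 1) ha' (by omega)
      rcases h.Ch_single C ha' hr d1 d2 hx with ⟨e1, e2, e3⟩ | ⟨e1, e2, e3⟩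
      · obtain ⟨rfl, e4⟩ := h.inj a a' (r + 1) c _ ha ha' (by omega) h1 h2 le_rfl k e3
        left
        rw [if_pos ⟨e4, e2⟩, mem_singleton, e1]
      · obtain ⟨rfl, e4⟩ := h.inj a a' (r + 1) c _ ha ha' (by omega) h1 h2 k le_rfl e3
        right
        rw [if_pos ⟨e4, e2⟩, mem_singleton, e1]
    · rintro (hx | hx)
      · split_ifs at hx with g
        · rw [mem_singleton] at hx
          subst hx
          refine ⟨mem_univ _, ?_⟩
          rw [h.Ch_lo C ha hr g.2, g.1]
        · simp at hx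
      · split_ifs at hx with g
        · rw [mem_singleton] at hx
          subst hx
          refine ⟨mem_univ _, ?_⟩
          rw [h.Ch_hi C ha hr g.2, g.1]
        · simp at hx
  rw [hset, card_union_of_disjoint]
  · congr 1 <;> split_ifs <;> simp
  · rw [Finset.disjoint_left]
    intro x g1 g2
    split_ifs at g1 with g3
    · split_ifs at g2 with g4
      · rw [mem_singleton] at g1 g2
        rw [g1] at g2
        have := (h.inj a a r _ _ ha ha (by omega) le_rfl s4 s4 le_rfl g2).2
        omega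
      · simp at g2
    · simp at g1

/-! ### the P- and Q-elements over a pair -/

lemma P_set (h : Pln lo hi i f) {a : α} {b c : ℕ} (ha : corank a = 0)
    (hb : b + 2 ≤ i) (h1 : lo a b ≤ c) (h2 : c + 1 ≤ hi a b) :
    (PEv α b).filter (fun v => Pr2 v = pr2 f b a c) =
      (if c = lo a b ∧ lSE lo b a then {f a (b + 2) (lo a (b + 1))} else ∅) ∪
        (if c + 1 = hi a b ∧ rSE hi b a then {f a (b + 2) (hi a (b + 1) + 1)} else ∅) := by
  have hpc : (a, c) ∈ prs lo hi b := mem_prs.2 ⟨ha, h1, h2⟩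
  ext v
  rw [mem_filter, mem_union]
  constructor
  · rintro ⟨g1, g2⟩
    obtain ⟨a', ha', hw, ⟨g3, rfl⟩ | ⟨g3, rfl⟩⟩ := h.P_cases hb g1
    · have g4 := (h.PL_mem ha' hb g3 hw).2
      rw [g2] at g4
      have g5 := h.pr2_inj (by omega : b ≤ i) (p := (a, c)) (q := (a', lo a' b)) hpc
        (mem_prs.2 ⟨ha', le_rfl, by simp only; omega⟩) g4
      obtain ⟨rfl, rfl⟩ := Prod.mk.inj g5
      left
      rw [if_pos ⟨rfl, g3⟩]
      simp
    · have g4 := (h.PR_mem ha' hb g3 hw).2
      rw [g2] at g4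
      have g5 := h.pr2_inj (by omega : b ≤ i) (p := (a, c)) (q := (a', hi a' b - 1)) hpc
        (mem_prs.2 ⟨ha', by simp only; omega, by simp only; omega⟩) g4
      obtain ⟨rfl, rfl⟩ := Prod.mk.inj g5
      right
      rw [if_pos ⟨by omega, g3⟩]
      simp
  · rintro (g1 | g1)
    · split_ifs at g1 with g2
      · rw [mem_singleton] at g1
        subst g1
        have g3 := h.PL_mem ha hb g2.2 (by omega)
        exact ⟨g3.1, by rw [g3.2, g2.1]⟩
      · simp at g1
    · split_ifs at g1 with g2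
      · rw [mem_singleton] at g1
        subst g1
        have g3 := h.PR_mem ha hb g2.2 (by omega)
        refine ⟨g3.1, ?_⟩
        rw [g3.2]
        congr 1
        omega
      · simp at g1

lemma Q_set (h : Pln lo hi i f) (C : CtxK α) {a : α} {b c : ℕ} (ha : corank a = 0)
    (hb : b + 2 ≤ i) (h1 : lo a (b + 2) ≤ c) (h2 : c + 1 ≤ hi a (b + 2)) :
    (QEv α (b + 2)).filter (fun v => Ch2 v = pr2 f (b + 2) a c) =
      (if c = lo a (b + 2) ∧ lSE lo b a then {f a b (lo a b)} else ∅) ∪
        (if c + 1 = hi a (b + 2) ∧ rSE hi b a then {f a b (hi a b)} else ∅) := by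
  have hpc : (a, c) ∈ prs lo hi (b + 2) := mem_prs.2 ⟨ha, h1, h2⟩
  ext v
  rw [mem_filter, mem_union]
  constructor
  · rintro ⟨g1, g2⟩
    obtain ⟨a', ha', hw, ⟨g3, rfl⟩ | ⟨g3, rfl⟩⟩ := h.Q_cases C hb g1
    · have g4 := (h.QL_mem C ha' hb g3 hw).2
      rw [g2] at g4
      have g5 := h.pr2_inj hb (p := (a, c)) (q := (a', lo a' (b + 2))) hpc
        (mem_prs.2 ⟨ha', le_rfl, by simp only; omega⟩) g4
      obtain ⟨rfl, rfl⟩ := Prod.mk.inj g5
      left
      rw [if_pos ⟨rfl, g3⟩]
      simp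
    · have g4 := (h.QR_mem C ha' hb g3 hw).2
      rw [g2] at g4
      have g6 := g3.2
      have g8 : lo a' (b + 1) ≤ lo a' (b + 2) ∧ lo a' (b + 2) ≤ lo a' (b + 1) + 1 :=
        h.loS a' (b + 1) ha' (by omega)
      have g5 := h.pr2_inj hb (p := (a, c)) (q := (a', hi a' (b + 1))) hpc
        (mem_prs.2 ⟨ha', by simp only; omega, by simp only; omega⟩) g4
      obtain ⟨rfl, rfl⟩ := Prod.mk.inj g5
      right
      rw [if_pos ⟨by omega, g3⟩]
      simp
  · rintro (g1 | g1)
    · split_ifs at g1 with g2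
      · rw [mem_singleton] at g1
        subst g1
        have g3 := h.QL_mem C ha hb g2.2 (by omega)
        exact ⟨g3.1, by rw [g3.2, g2.1]⟩
      · simp at g1
    · split_ifs at g1 with g2
      · rw [mem_singleton] at g1
        subst g1
        have g3 := h.QR_mem C ha hb g2.2 (by omega)
        have g4 := g2.2.2
        refine ⟨g3.1, ?_⟩
        rw [g3.2]
        congr 1
        omega
      · simp at g1

/-! ### single children of P-elements over a pair -/

lemma nG_sum (C : CtxK α) {b : ℕ} {a : α} {c : ℕ} : nG f b a c =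
    ∑ w ∈ (PEv α b).filter (fun v => Pr2 v = pr2 f b a c),
      (univ.filter fun x : α => Pr x = {w}).card := by
  rw [← card_biUnion]
  · unfold nG
    congr 1
    ext x
    rw [mem_filter, mem_GEv, mem_biUnion]
    constructor
    · rintro ⟨⟨h1, w, h2, h3⟩, h4⟩
      refine ⟨w, mem_filter.2 ⟨h2, ?_⟩, mem_filter.2 ⟨mem_univ _, h3⟩⟩
      rw [← h4]
      unfold Pr3
      rw [h3, singleton_biUnion]
    · rintro ⟨w, h1, h2⟩
      rw [mem_filter] at h1 h2
      have h3 := C.corank_of_mem_Pr (x := x) (y := w) (by rw [h2.2]; simp)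
      have h4 := (mem_PEv.1 h1.1).1
      refine ⟨⟨by omega, w, h1.1, h2.2⟩, ?_⟩
      unfold Pr3
      rw [h2.2, singleton_biUnion, h1.2]
  · intro w hw w' hw' hne
    refine Finset.disjoint_left.2 ?_
    intro x h1 h2
    rw [mem_filter] at h1 h2
    apply hne
    rw [h1.2] at h2
    exact singleton_inj.1 h2.2

lemma nG'_sum (C : CtxK α) {b : ℕ} {a : α} {c : ℕ} : nG' f b a c =
    ∑ w ∈ (QEv α b).filter (fun v => Ch2 v = pr2 f b a c),
      (univ.filter fun x : α => Ch x = {w}).card := by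
  rw [← card_biUnion]
  · unfold nG'
    congr 1
    ext x
    rw [mem_filter, mem_GEv', mem_biUnion]
    constructor
    · rintro ⟨⟨h1, w, h2, h3⟩, h4⟩
      refine ⟨w, mem_filter.2 ⟨h2, ?_⟩, mem_filter.2 ⟨mem_univ _, h3⟩⟩
      rw [← h4]
      unfold Ch3
      rw [h3, singleton_biUnion]
    · rintro ⟨w, h1, h2⟩
      rw [mem_filter] at h1 h2
      have h3 := C.corank_of_mem_Ch (x := x) (y := w) (by rw [h2.2]; simp)
      have h4 := (mem_QEv.1 h1.1).1
      refine ⟨⟨by omega, w, h1.1, h2.2⟩, ?_⟩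
      unfold Ch3
      rw [h2.2, singleton_biUnion, h1.2]
  · intro w hw w' hw' hne
    refine Finset.disjoint_left.2 ?_
    intro x h1 h2
    rw [mem_filter] at h1 h2
    apply hne
    rw [h1.2] at h2
    exact singleton_inj.1 h2.2

/-- the single children of the P-elements over a pair -/
lemma nG_eq (h : Pln lo hi i f) (C : CtxK α) {a : α} {b c : ℕ} (ha : corank a = 0)
    (hb : b + 3 ≤ i) (h1 : lo a b ≤ c) (h2 : c + 1 ≤ hi a b) : nG f b a c =
      (if c = lo a b then (if SEl (lo a) b ∧ El (lo a) (b + 2) then 1 else 0) +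
        (if SEl (lo a) b ∧ lo a (b + 2) = hi a (b + 2) ∧ Er (hi a) (b + 2) then 1 else 0) else 0) +
      (if c + 1 = hi a b then (if SEr (hi a) b ∧ Er (hi a) (b + 2) then 1 else 0) +
        (if SEr (hi a) b ∧ lo a (b + 2) = hi a (b + 2) ∧ El (lo a) (b + 2) then 1 else 0)
          else 0) := by
  have s1 : lo a (b + 1) ≤ lo a (b + 2) ∧ lo a (b + 2) ≤ lo a (b + 1) + 1 :=
    h.loS a (b + 1) ha (by omega)
  have s2 : hi a (b + 1) ≤ hi a (b + 2) ∧ hi a (b + 2) ≤ hi a (b + 1) + 1 :=
    h.hiS a (b + 1) ha (by omega)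
  have s3 := h.le a (b + 1) ha (by omega)
  have s4 := h.le a (b + 2) ha (by omega)
  rw [nG_sum C, h.P_set ha (by omega) h1 h2, sum_union]
  · congr 1
    · by_cases h3 : c = lo a b
      · by_cases h4 : lSE lo b a
        · obtain ⟨e1, e2⟩ := h4
          rw [if_pos ⟨h3, e1, e2⟩, if_pos h3, sum_singleton,
            h.sCh C ha (r := b + 2) (by omega) (by omega) (by omega)]
          congr 1
          · apply if_congr _ rfl rfl
            unfold SEl Sl El
            constructor
            · rintro ⟨_, g⟩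
              exact ⟨⟨e1, e2⟩, g⟩
            · rintro ⟨_, g⟩
              exact ⟨e2.symm, g⟩
          · apply if_congr _ rfl rfl
            unfold SEl Sl El Er
            constructor
            · rintro ⟨g1, g2⟩
              exact ⟨⟨e1, e2⟩, by omega, g2⟩
            · rintro ⟨_, g1, g2⟩
              exact ⟨by omega, g2⟩
        · rw [if_neg (fun h5 => h4 h5.2), if_pos h3, sum_empty,
            if_neg (fun h5 => h4 h5.1), if_neg (fun h5 => h4 h5.1), add_zero]
      · rw [if_neg (fun h5 => h3 h5.1), if_neg h3, sum_empty]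
    · by_cases h3 : c + 1 = hi a b
      · by_cases h4 : rSE hi b a
        · obtain ⟨e1, e2⟩ := h4
          rw [if_pos ⟨h3, e1, e2⟩, if_pos h3, sum_singleton,
            h.sCh C ha (r := b + 2) (by omega) (by omega) (by omega), add_comm]
          congr 1
          · apply if_congr _ rfl rfl
            unfold SEr Sr Er
            constructor
            · rintro ⟨_, g⟩
              exact ⟨⟨e1, e2⟩, g⟩
            · rintro ⟨_, g⟩
              exact ⟨e2.symm, g⟩
          · apply if_congr _ rfl rfl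
            unfold SEr Sr El Er
            constructor
            · rintro ⟨g1, g2⟩
              exact ⟨⟨e1, e2⟩, by omega, g2⟩
            · rintro ⟨_, g1, g2⟩
              exact ⟨by omega, g2⟩
        · rw [if_neg (fun h5 => h4 h5.2), if_pos h3, sum_empty,
            if_neg (fun h5 => h4 h5.1), if_neg (fun h5 => h4 h5.1), add_zero]
      · rw [if_neg (fun h5 => h3 h5.1), if_neg h3, sum_empty]
  · rw [Finset.disjoint_left]
    intro x g1 g2
    split_ifs at g1 with g3
    · split_ifs at g2 with g4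
      · rw [mem_singleton] at g1 g2
        obtain ⟨_, e1, e2⟩ := g3
        obtain ⟨_, e3, e4⟩ := g4
        rw [g1] at g2
        have := (h.inj a a (b + 2) _ _ ha ha (by omega) (by omega) (by omega) (by omega) (by omega)
          g2).2
        omega
      · simp at g2
    · simp at g1

/-- the single parents of the Q-elements over a pair -/
lemma nG'_eq (h : Pln lo hi i f) (C : CtxK α) {a : α} {b c : ℕ} (ha : corank a = 0)
    (hb : b + 3 ≤ i) (h1 : lo a (b + 3) ≤ c) (h2 : c + 1 ≤ hi a (b + 3)) : nG' f (b + 3) a c =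
      (if c = lo a (b + 3) then (if Sl (lo a) b ∧ SEl (lo a) (b + 1) then 1 else 0) +
        (if Sr (hi a) b ∧ SEl (lo a) (b + 1) ∧ lo a (b + 1) = hi a (b + 1) then 1 else 0)
          else 0) +
      (if c + 1 = hi a (b + 3) then (if Sr (hi a) b ∧ SEr (hi a) (b + 1) then 1 else 0) +
        (if Sl (lo a) b ∧ SEr (hi a) (b + 1) ∧ lo a (b + 1) = hi a (b + 1) then 1 else 0)
          else 0) := by
  have s1 : lo a (b + 1) ≤ lo a (b + 2) ∧ lo a (b + 2) ≤ lo a (b + 1) + 1 :=
    h.loS a (b + 1) ha (by omega)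
  have s2 : hi a (b + 1) ≤ hi a (b + 2) ∧ hi a (b + 2) ≤ hi a (b + 1) + 1 :=
    h.hiS a (b + 1) ha (by omega)
  have s1' : lo a (b + 2) ≤ lo a (b + 3) ∧ lo a (b + 3) ≤ lo a (b + 2) + 1 :=
    h.loS a (b + 2) ha (by omega)
  have s2' : hi a (b + 2) ≤ hi a (b + 3) ∧ hi a (b + 3) ≤ hi a (b + 2) + 1 :=
    h.hiS a (b + 2) ha (by omega)
  have s3 := h.le a (b + 1) ha (by omega)
  rw [nG'_sum C, show b + 3 = b + 1 + 2 by ring, h.Q_set C ha (by omega) h1 h2, sum_union]
  · congr 1
    · by_cases h3 : c = lo a (b + 1 + 2)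
      · by_cases h4 : lSE lo (b + 1) a
        · obtain ⟨e1, e2⟩ := h4
          rw [if_pos ⟨h3, e1, e2⟩, if_pos h3, sum_singleton,
            h.sPr C ha (r := b) (by omega) le_rfl s3]
          congr 1
          · apply if_congr _ rfl rfl
            unfold SEl Sl El
            constructor
            · rintro ⟨_, g⟩
              exact ⟨g, e1, e2⟩
            · rintro ⟨g, _⟩
              exact ⟨rfl, g⟩
          · apply if_congr _ rfl rfl
            unfold SEl Sl El Sr
            constructor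
            · rintro ⟨g1, g2⟩
              exact ⟨g2, ⟨e1, e2⟩, g1⟩
            · rintro ⟨g1, _, g2⟩
              exact ⟨g2, g1⟩
        · rw [if_neg (fun h5 => h4 h5.2), if_pos h3, sum_empty,
            if_neg (fun h5 => h4 h5.2), if_neg (fun h5 => h4 h5.2.1), add_zero]
      · rw [if_neg (fun h5 => h3 h5.1), if_neg h3, sum_empty]
    · by_cases h3 : c + 1 = hi a (b + 1 + 2)
      · by_cases h4 : rSE hi (b + 1) a
        · obtain ⟨e1, e2⟩ := h4
          rw [if_pos ⟨h3, e1, e2⟩, if_pos h3, sum_singleton,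
            h.sPr C ha (r := b) (by omega) s3 le_rfl, add_comm]
          congr 1
          · apply if_congr _ rfl rfl
            unfold SEr Sr Er
            constructor
            · rintro ⟨_, g⟩
              exact ⟨g, e1, e2⟩
            · rintro ⟨g, _⟩
              exact ⟨rfl, g⟩
          · apply if_congr _ rfl rfl
            unfold SEr Sr Er Sl
            constructor
            · rintro ⟨g1, g2⟩
              exact ⟨g2, ⟨e1, e2⟩, g1.symm⟩
            · rintro ⟨g1, _, g2⟩
              exact ⟨g2.symm, g1⟩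
        · rw [if_neg (fun h5 => h4 h5.2), if_pos h3, sum_empty,
            if_neg (fun h5 => h4 h5.2), if_neg (fun h5 => h4 h5.2.1), add_zero]
      · rw [if_neg (fun h5 => h3 h5.1), if_neg h3, sum_empty]
  · rw [Finset.disjoint_left]
    intro x g1 g2
    split_ifs at g1 with g3
    · split_ifs at g2 with g4
      · rw [mem_singleton] at g1 g2
        obtain ⟨_, e1, e2⟩ := g3
        obtain ⟨_, e3, e4⟩ := g4
        rw [g1] at g2
        have := (h.inj a a (b + 1) _ _ ha ha (by omega) le_rfl s3 s3 le_rfl g2).2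
        have k1 : hi a (b + 1 + 2) = hi a (b + 3) := rfl
        have k2 : lo a (b + 1 + 2) = lo a (b + 3) := rfl
        have k3 : hi a (b + 1 + 1) = hi a (b + 2) := rfl
        have k4 : lo a (b + 1 + 1) = lo a (b + 2) := rfl
        omega
      · simp at g2
    · simp at g1

/-- the sum over the pairs of a strip -/
lemma sum_ends {l u : ℕ} (h : l < u) (A B : ℕ) :
    ∑ c ∈ Ico l u, ((if c = l then A else 0) + (if c + 1 = u then B else 0)) = A + B := by
  rw [sum_add_distrib]
  congr 1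
  · rw [sum_eq_single l]
    · rw [if_pos rfl]
    · intro c _ hc
      rw [if_neg hc]
    · intro hc
      exact (hc (mem_Ico.2 ⟨le_rfl, h⟩)).elim
  · rw [sum_eq_single (u - 1)]
    · rw [if_pos (by omega)]
    · intro c hc hne
      rw [mem_Ico] at hc
      rw [if_neg (by omega)]
    · intro hc
      exact (hc (mem_Ico.2 ⟨by omega, by omega⟩)).elim

lemma sum_nG (h : Pln lo hi i f) (C : CtxK α) {a : α} {b : ℕ} (ha : corank a = 0)
    (hb : b + 3 ≤ i) (hw : lo a b < hi a b) :
    ∑ c ∈ Ico (lo a b) (hi a b), nG f b a c = Gdn (lo a) (hi a) b := by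
  have e1 : ∀ c ∈ Ico (lo a b) (hi a b), nG f b a c =
      (if c = lo a b then (if SEl (lo a) b ∧ El (lo a) (b + 2) then 1 else 0) +
        (if SEl (lo a) b ∧ lo a (b + 2) = hi a (b + 2) ∧ Er (hi a) (b + 2) then 1 else 0) else 0) +
      (if c + 1 = hi a b then (if SEr (hi a) b ∧ Er (hi a) (b + 2) then 1 else 0) +
        (if SEr (hi a) b ∧ lo a (b + 2) = hi a (b + 2) ∧ El (lo a) (b + 2) then 1 else 0)
          else 0) := by
    intro c hc
    rw [mem_Ico] at hc
    exact h.nG_eq C ha hb hc.1 (by omega)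
  rw [sum_congr rfl e1, sum_ends hw]
  unfold Gdn
  ring

lemma sum_nG' (h : Pln lo hi i f) (C : CtxK α) {a : α} {b : ℕ} (ha : corank a = 0)
    (hb : b + 3 ≤ i) (hw : lo a (b + 3) < hi a (b + 3)) :
    ∑ c ∈ Ico (lo a (b + 3)) (hi a (b + 3)), nG' f (b + 3) a c = Gup (lo a) (hi a) b := by
  have e1 : ∀ c ∈ Ico (lo a (b + 3)) (hi a (b + 3)), nG' f (b + 3) a c =
      (if c = lo a (b + 3) then (if Sl (lo a) b ∧ SEl (lo a) (b + 1) then 1 else 0) +
        (if Sr (hi a) b ∧ SEl (lo a) (b + 1) ∧ lo a (b + 1) = hi a (b + 1) then 1 else 0)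
          else 0) +
      (if c + 1 = hi a (b + 3) then (if Sr (hi a) b ∧ SEr (hi a) (b + 1) then 1 else 0) +
        (if Sl (lo a) b ∧ SEr (hi a) (b + 1) ∧ lo a (b + 1) = hi a (b + 1) then 1 else 0)
          else 0) := by
    intro c hc
    rw [mem_Ico] at hc
    exact h.nG'_eq C ha hb hc.1 (by omega)
  rw [sum_congr rfl e1, sum_ends hw]
  unfold Gup
  ring

lemma nG'_small {b c : ℕ} {a : α} (hb : b < 3) : nG' f b a c = 0 := by
  unfold nG'
  rw [card_eq_zero, filter_eq_empty_iff]
  intro v hv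
  rw [mem_GEv'] at hv
  omega

/-- the common child of a triple -/
lemma NEv_exists (h : Pln lo hi i f) {b : ℕ} (hb : b + 2 ≤ i) {a : α} {c : ℕ}
    (ha : corank a = 0) (h1 : lo a b ≤ c) (h2 : c + 2 ≤ hi a b) :
    f a (b + 2) (c + 2) ∈ NEv α b ∧ Pr2 (f a (b + 2) (c + 2)) = tr3 f b a c := by
  have s1 := h.loS a b ha (by omega)
  have s2 := h.hiS a b ha (by omega)
  have s3 : lo a (b + 1) ≤ lo a (b + 2) ∧ lo a (b + 2) ≤ lo a (b + 1) + 1 :=
    h.loS a (b + 1) ha (by omega)
  have s4 : hi a (b + 1) ≤ hi a (b + 2) ∧ hi a (b + 2) ≤ hi a (b + 1) + 1 :=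
    h.hiS a (b + 1) ha (by omega)
  have e1 : Pr (f a (b + 2) (c + 2)) = {f a (b + 1) (c + 1), f a (b + 1) (c + 2)} :=
    h.Pr_mid ha (r := b + 1) (c := c + 1) (by omega) (by omega) (by omega)
  have e2 : Pr (f a (b + 1) (c + 1)) = pr2 f b a c := h.Pr_mid ha (by omega) (by omega) (by omega)
  have e3 : Pr (f a (b + 1) (c + 2)) = pr2 f b a (c + 1) :=
    h.Pr_mid ha (c := c + 1) (by omega) (by omega) (by omega)
  have e4 : Pr2 (f a (b + 2) (c + 2)) = tr3 f b a c := by
    unfold Pr2
    rw [e1, biUnion_insert, singleton_biUnion, e2, e3, tr3_eq]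
  refine ⟨mem_NEv.2 ⟨?_, ?_, ?_⟩, e4⟩
  · rw [h.cor a (b + 2) _ ha (by omega) (by omega) (by omega)]
  · rw [e1]
    exact h.card_pr2 (by omega) ha (by omega) (by omega)
  · rw [e4]
    exact h.card_tr3 (by omega) ha h1 h2

lemma nN_pos (h : Pln lo hi i f) {b : ℕ} (hb : b + 2 ≤ i) {a : α} {c : ℕ}
    (ha : corank a = 0) (h1 : lo a b ≤ c) (h2 : c + 2 ≤ hi a b) : 1 ≤ nN f b a c := by
  have h3 := h.NEv_exists hb ha h1 h2
  unfold nN
  exact card_pos.2 ⟨_, mem_filter.2 h3⟩

/-- the total charge of a strip, in letters -/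
lemma G_balance (h : Pln lo hi i f) (C : CtxK α) {b : ℕ} (hb : b + 3 ≤ i)
    (V : V6Conc lo hi f b) {a : α} (ha : corank a = 0) :
    ∑ c ∈ Ico (lo a b) (hi a b), nG f b a c = ∑ c ∈ Ico (lo a b) (hi a b), nG' f b a c := by
  have h1 := V.tot a ha
  have h2 : ∑ c ∈ Ico (lo a b) (hi a b - 1), (1 - (nN f b a c : ℤ)) = 0 := by
    apply sum_eq_zero
    intro c hc
    rw [mem_Ico] at hc
    have h3 := V.N1 a ha c hc.1 (by omega)
    have h4 := h.nN_pos (by omega : b + 2 ≤ i) ha hc.1 (by omega)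
    have : nN f b a c = 1 := by omega
    rw [this]
    simp
  rw [h2, add_zero, sum_sub_distrib] at h1
  have h3 : (∑ c ∈ Ico (lo a b) (hi a b), (nG f b a c : ℤ)) =
      ∑ c ∈ Ico (lo a b) (hi a b), (nG' f b a c : ℤ) := by linarith
  exact_mod_cast h3

/-- the values of `HH` at a base with vanishing form -/
lemma HH_ends (h : Pln lo hi i f) (C : CtxK α) (hiH : i ≤ HT α) (hP : ∀ j < i, Perf α j)
    {b : ℕ} (hb : b + 2 ≤ i) {a : α} (ha : corank a = 0) (hw : lo a b < hi a b) :
    (∑ c ∈ Ico (lo a b) (hi a b), HH f b a c = 0) ∧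
      (lo a b + 3 ≤ hi a b → ∀ c, lo a b ≤ c → c + 1 ≤ hi a b → HH f b a c = 0) := by
  have h0 := (h.frm_zero C hiH hP b (by omega)).2.1 a ha
  have hint : ∀ c, lo a b < c → c + 1 < hi a b → HH f b a c = 0 := by
    intro c c1 c2
    unfold HH
    rw [h.nQ_int C ha (by omega) c1 c2, h.nP_eq ha hb (by omega) (by omega),
      if_neg (by omega), if_neg (by omega)]
    simp
  obtain ⟨n, hn⟩ : ∃ n, hi a b = lo a b + (n + 1) := ⟨hi a b - lo a b - 1, by omega⟩
  have key : lo a b + 3 ≤ hi a b → ∀ c, lo a b ≤ c → c + 1 ≤ hi a b → HH f b a c = 0 := by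
    intro hw3
    rw [hn, frm_eq] at h0
    have h1 : ∑ c ∈ Ico (lo a b) (lo a b + (n + 1) - 1), HH f b a c * HH f b a (c + 1) = 0 := by
      apply sum_eq_zero
      intro c hc
      rw [mem_Ico] at hc
      rcases Nat.lt_or_ge (lo a b) c with h2 | h2
      · rw [hint c h2 (by omega), zero_mul]
      · rw [hint (c + 1) (by omega) (by omega), mul_zero]
    rw [h1, mul_zero, add_zero, sum_eq_zero_iff_of_nonneg (fun c _ => sq_nonneg _)] at h0
    intro c c1 c2
    have h2 := h0 c (mem_Ico.2 ⟨c1, by omega⟩)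
    exact pow_eq_zero_iff (two_ne_zero) |>.1 h2
  refine ⟨?_, key⟩
  rcases Nat.lt_or_ge n 2 with h1 | h1
  · have h2 : n = 0 ∨ n = 1 := by omega
    rcases h2 with rfl | rfl
    · rw [hn, show lo a b + (0 + 1) = lo a b + 1 by ring] at h0 ⊢
      rw [frm_one] at h0
      rw [sum_Ico_succ_top le_rfl, Ico_self, sum_empty, zero_add]
      exact pow_eq_zero_iff (two_ne_zero) |>.1 h0
    · rw [hn, show lo a b + (1 + 1) = lo a b + 2 by ring] at h0 ⊢
      rw [frm_two] at h0
      rw [show lo a b + 2 = lo a b + 1 + 1 by ring, sum_Ico_succ_top (by omega),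
        sum_Ico_succ_top le_rfl, Ico_self, sum_empty, zero_add]
      exact pow_eq_zero_iff (two_ne_zero) |>.1 h0
  · apply sum_eq_zero
    intro c hc
    rw [mem_Ico] at hc
    exact key (by omega) c hc.1 (by omega)

/-- as many SE below as above -/
lemma SE_sum (h : Pln lo hi i f) (C : CtxK α) (hiH : i ≤ HT α) (hP : ∀ j < i, Perf α j)
    {b : ℕ} (hb : b + 4 ≤ i) {a : α} (ha : corank a = 0) (hw : lo a (b + 2) < hi a (b + 2)) :
    (if SEl (lo a) (b + 2) then 1 else 0) + (if SEr (hi a) (b + 2) then 1 else 0) =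
      (if SEl (lo a) b then 1 else 0) + (if SEr (hi a) b then (1 : ℕ) else 0) := by
  have h1 := (h.HH_ends C hiH hP (by omega : b + 2 + 2 ≤ i) ha hw).1
  unfold HH at h1
  rw [sum_sub_distrib, sub_eq_zero] at h1
  have h2 : ∑ c ∈ Ico (lo a (b + 2)) (hi a (b + 2)), nP f (b + 2) a c =
      ∑ c ∈ Ico (lo a (b + 2)) (hi a (b + 2)), nQ f (b + 2) a c := by exact_mod_cast h1
  have e1 : ∀ c ∈ Ico (lo a (b + 2)) (hi a (b + 2)), nP f (b + 2) a c =
      (if c = lo a (b + 2) then (if SEl (lo a) (b + 2) then 1 else 0) else 0) +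
      (if c + 1 = hi a (b + 2) then (if SEr (hi a) (b + 2) then 1 else 0) else 0) := by
    intro c hc
    rw [mem_Ico] at hc
    rw [h.nP_eq ha (by omega) hc.1 (by omega)]
    congr 1
    · by_cases h3 : c = lo a (b + 2)
      · rw [if_pos h3]
        exact if_congr ⟨fun g => g.2, fun g => ⟨h3, g⟩⟩ rfl rfl
      · rw [if_neg h3, if_neg (fun g => h3 g.1)]
    · by_cases h3 : c + 1 = hi a (b + 2)
      · rw [if_pos h3]
        exact if_congr ⟨fun g => g.2, fun g => ⟨h3, g⟩⟩ rfl rfl
      · rw [if_neg h3, if_neg (fun g => h3 g.1)]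
  have e2 : ∀ c ∈ Ico (lo a (b + 2)) (hi a (b + 2)), nQ f (b + 2) a c =
      (if c = lo a (b + 2) then (if SEl (lo a) b then 1 else 0) else 0) +
      (if c + 1 = hi a (b + 2) then (if SEr (hi a) b then 1 else 0) else 0) := by
    intro c hc
    rw [mem_Ico] at hc
    rw [h.nQ_eq C ha (by omega) hc.1 (by omega)]
    congr 1
    · by_cases h3 : c = lo a (b + 2)
      · rw [if_pos h3]
        exact if_congr ⟨fun g => g.2, fun g => ⟨h3, g⟩⟩ rfl rfl
      · rw [if_neg h3, if_neg (fun g => h3 g.1)]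
    · by_cases h3 : c + 1 = hi a (b + 2)
      · rw [if_pos h3]
        exact if_congr ⟨fun g => g.2, fun g => ⟨h3, g⟩⟩ rfl rfl
      · rw [if_neg h3, if_neg (fun g => h3 g.1)]
  rw [sum_congr rfl e1, sum_congr rfl e2, sum_ends hw, sum_ends hw] at h2
  exact h2

/-- **the words of the strips** -/
theorem wd (h : Pln lo hi i f) (C : CtxK α) (hiH : i ≤ HT α) (hP : ∀ j < i, Perf α j)
    (hV : ∀ b, b + 3 ≤ i → V6Conc lo hi f b) {a : α}
    (ha : corank a = 0) : Wd (lo a) (hi a) i where
  l0 := h.lo0 a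
  u0 := h.hi0 a
  lS r hr := h.loS a r ha hr
  uS r hr := h.hiS a r ha hr
  le r hr := h.le a r ha hr
  H0 b hb hb' hw := by
    refine h.SE_one ha hb' hb ?_ hw
    intro c h1 h2
    have h0 := (h.frm_zero C hiH hP b (by omega)).2.1 a ha
    exact frm_zero' (H := HH f b a) (fun c _ _ => by
      unfold HH
      rw [nQ_zero hb]
      simp) h0 h1 (by omega)
  Hs b hb hw := h.SE_sum C hiH hP hb ha hw
  H4l b hb hw := h.lSE_iff C ha hb (fun c h1 h2 =>
    (h.HH_ends C hiH hP (by omega : b + 2 + 2 ≤ i) ha (by omega)).2 hw c h1 h2) (by omega)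
  H4r b hb hw := h.rSE_iff C ha hb (fun c h1 h2 =>
    (h.HH_ends C hiH hP (by omega : b + 2 + 2 ≤ i) ha (by omega)).2 hw c h1 h2) (by omega)
  Hl b hb hw := h.lSE_iff C ha (by omega) ((hV (b + 2) hb).H a ha) hw
  Hr b hb hw := h.rSE_iff C ha (by omega) ((hV (b + 2) hb).H a ha) hw
  nSSEl b hb hw := by
    rintro ⟨e1, e2, e3⟩
    have e1' : lo a (b + 1) = lo a b + 1 := e1
    have e2' : lo a (b + 2) = lo a (b + 1) + 1 := e2
    have e3' : lo a (b + 3) = lo a (b + 2) := e3
    have k := h.le a (b + 3) ha hb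
    have h1 := h.NEv_exists (by omega : b + 2 ≤ i) ha (c := lo a b) le_rfl hw
    have h2 := h.Pr_left ha (r := b + 2) (c := lo a (b + 2)) (by omega) (by
      have : lo a (b + 2 + 1) = lo a (b + 3) := rfl
      omega) (by
      have : hi a (b + 2 + 1) = hi a (b + 3) := rfl
      omega) rfl
    have h3 := (hV b hb).S
    have h4 : f a (b + 2 + 1) (lo a (b + 2)) ∈ SEv α b := by
      rw [mem_SEv]
      refine ⟨?_, f a (b + 2) (lo a (b + 2)), ?_, h2⟩
      · exact h.cor a (b + 3) _ ha hb (by omega) (by omega)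
      · rw [show lo a (b + 2) = lo a b + 2 by omega]
        exact h1.1
    rw [h3] at h4
    simp at h4
  nSSEr b hb hw := by
    rintro ⟨e1, e2, e3⟩
    have e1' : hi a (b + 1) = hi a b := e1
    have e2' : hi a (b + 2) = hi a (b + 1) := e2
    have e3' : hi a (b + 3) = hi a (b + 2) + 1 := e3
    have k := h.le a (b + 3) ha hb
    obtain ⟨e, he⟩ : ∃ e, hi a b = e + 2 := ⟨hi a b - 2, by omega⟩
    have h1 := h.NEv_exists (by omega : b + 2 ≤ i) ha (c := e) (by omega) (by omega)
    have h2 := h.Pr_right ha (r := b + 2) (c := hi a (b + 2)) (by omega) (by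
      have : lo a (b + 2 + 1) = lo a (b + 3) := rfl
      omega) (by
      have : hi a (b + 2 + 1) = hi a (b + 3) := rfl
      omega) rfl
    have h3 := (hV b hb).S
    have h4 : f a (b + 2 + 1) (hi a (b + 2) + 1) ∈ SEv α b := by
      rw [mem_SEv]
      refine ⟨?_, f a (b + 2) (hi a (b + 2)), ?_, h2⟩
      · exact h.cor a (b + 3) _ ha hb (by omega) (by omega)
      · rw [show hi a (b + 2) = e + 2 by omega]
        exact h1.1
    rw [h3] at h4
    simp at h4
  nSEEl b hb hw := by
    rintro ⟨h1, h2⟩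
    exact h.no_lSEE C ha (by omega) ((hV (b + 2) (by omega)).H a ha) hw h1 h2
  nSEEr b hb hw := by
    rintro ⟨h1, h2⟩
    exact h.no_rSEE C ha (by omega) ((hV (b + 2) (by omega)).H a ha) hw h1 h2
  G0 b hb hb' hw := by
    rw [← h.sum_nG C ha hb' hw, h.G_balance C hb' (hV b hb') ha]
    exact sum_eq_zero fun c _ => nG'_small hb
  G3 b hb hw := by
    rw [← h.sum_nG C ha (by omega) hw, h.G_balance C (by omega) (hV (b + 3) (by omega)) ha,
      h.sum_nG' C ha (by omega) hw]
  G4 b hb hw := by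
    rw [← h.sum_nG C ha hb (by omega)]
    apply sum_eq_zero
    intro c hc
    rw [mem_Ico] at hc
    exact ((hV b hb).G a ha hw c hc.1 (by omega)).1
  G4' b hb hw := by
    rw [← h.sum_nG' C ha (by omega) (by omega)]
    apply sum_eq_zero
    intro c hc
    rw [mem_Ico] at hc
    exact ((hV (b + 3) (by omega)).G a ha hw c hc.1 (by omega)).2

end Pln

end Pool.Gauss
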