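import Pool.Agent.Work.MP_065141_co.K.V6Words
import Pool.Agent.Work.MP_065141_co.K.V6Main

/-!
# The words of the strips in the perfect rows, without hypotheses
-/

set_option autoImplicit false
set_option linter.unusedSectionVars false
set_option linter.unusedVariables false
open scoped Classical
open Finset

namespace Pool.Gauss

variable {α : Type} [Fintype α] [PartialOrder α]

namespace Pln

variable {lo hi : α → ℕ → ℕ} {i : ℕ} {f : α → ℕ → ℕ → α}

/-- **the words of the strips**: `Wd` holds, rows `≤ i` perfect -/
theorem wd' (h : Pln lo hi i f) (C : CtxK α) (hiH : i ≤ HT α) (hP : ∀ j < i, Perf α j) {a : α}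
    (ha : corank a = 0) : Wd (lo a) (hi a) i :=
  h.wd C hiH hP (fun b hb => h.V6_words' C hiH hP hb) ha

end Pln

end Pool.Gauss
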